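import Pool.Agent.Lib.APPS.Blue1

/-!
Block FM: first moment bounds.
-/

namespace Pool.Agent.Lib.APPS

open MeasureTheory ProbabilityTheory Filter Topology Set Metric
open scoped NNReal ENNReal RealInnerProductSpace Classical

noncomputable section

namespace FM

theorem eE_add (a b : ℝ) : eE (a + b) = eE a * eE b := by
  unfold eE
  rw [Real.exp_add, ENNReal.ofReal_mul (Real.exp_pos a).le]

theorem eE_mono {a b : ℝ} (h : a ≤ b) : eE a ≤ eE b :=
  ENNReal.ofReal_le_ofReal (Real.exp_le_exp.2 h)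

theorem eE_zero : eE 0 = 1 := by simp [eE]

theorem eE_ne_top (a : ℝ) : eE a ≠ ∞ := ENNReal.ofReal_ne_top

theorem eE_rpow (a q : ℝ) (hq : 0 ≤ q) : eE a ^ q = eE (q * a) := by
  unfold eE
  rw [ENNReal.ofReal_rpow_of_nonneg (Real.exp_pos a).le hq, ← Real.exp_mul, mul_comm]

theorem meas_eE : Measurable eE := by
  unfold eE
  fun_prop

theorem meas_pd (v : ℝ) : Measurable (pd v) := by
  unfold pd
  fun_prop

theorem pd_nonneg (v t : ℝ) : 0 ≤ pd v t := by
  unfold pd
  positivity

theorem l2_pos : 0 < l2 := Real.log_pos (by norm_num)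

theorem four_pow (k : ℕ) : (4 : ℝ) ^ k = Real.exp (2 * k * l2) := by
  have h : Real.exp (2 * l2) = 4 := by
    rw [l2, show (2 : ℝ) * Real.log 2 = Real.log 2 + Real.log 2 by ring, Real.exp_add,
      Real.exp_log (by norm_num)]
    norm_num
  rw [show 2 * (k : ℝ) * l2 = k * (2 * l2) by ring, Real.exp_nat_mul, h]

theorem exists_vec {c : ℝ} (hc : 0 ≤ c) : ∃ w : HH, ‖w‖ ^ 2 = c := by
  have hb : (volume : Measure ℂ) (ball 0 1) ≠ ∞ := measure_ball_lt_top.ne
  have hb0 : (volume : Measure ℂ) (ball 0 1) ≠ 0 := (measure_ball_pos _ _ one_pos).ne'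
  let e : HH := indicatorConstLp 2 measurableSet_ball hb (1 : ℂ)
  have he : e ≠ 0 := by
    intro h
    have h1 : ‖e‖ = 0 := by rw [h, norm_zero]
    rw [norm_indicatorConstLp (by norm_num) (by norm_num)] at h1
    have h2 : 0 < (volume : Measure ℂ).real (ball 0 1) := ENNReal.toReal_pos hb0 hb
    have h3 := Real.rpow_pos_of_pos h2 (1 / (2 : ℝ≥0∞).toReal)
    simp only [norm_one, one_mul] at h1
    exact h3.ne' h1
  have : Nontrivial HH := ⟨⟨e, 0, he⟩⟩
  obtain ⟨w, hw⟩ := exists_norm_eq HH (Real.sqrt_nonneg c)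
  exact ⟨w, by rw [hw, Real.sq_sqrt hc]⟩

theorem sum_len (hT : St_T1) (f : ℕ → ℝ≥0∞) :
    ∑' S : Dy, f S.length = ∑' k : ℕ, 4 ^ k * f k := by
  have h1 : ∀ S : Dy, f S.length = ∑' k : ℕ, if S ∈ lev k then f k else 0 := by
    intro S
    rw [tsum_eq_single S.length]
    · rw [if_pos ((hT.1 _ _).2 rfl)]
    · intro k hk
      rw [if_neg]
      intro h
      exact hk ((hT.1 _ _).1 h).symm
  simp_rw [h1]
  rw [ENNReal.tsum_comm]
  refine tsum_congr fun k => ?_
  rw [tsum_eq_sum (s := lev k)]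
  · rw [Finset.sum_congr rfl (g := fun _ => f k) (fun S hS => if_pos hS), Finset.sum_const,
      hT.2.1 k, nsmul_eq_mul]
    norm_cast
  · intro S hS
    exact if_neg hS

theorem int_abs {γ : ℝ} (hγ : 0 < γ) : ∫⁻ y : ℝ, eE (-γ * |y|) ≠ ∞ := by
  have h1 : IntegrableOn (fun y : ℝ => Real.exp (-γ * |y|)) (Ioi 0) := by
    refine (exp_neg_integrableOn_Ioi 0 hγ).congr_fun (fun y hy => ?_) measurableSet_Ioi
    simp only [abs_of_pos (mem_Ioi.1 hy)]
  have h2 : IntegrableOn (fun y : ℝ => Real.exp (-γ * |y|)) (Iic 0) := by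
    refine (integrableOn_exp_mul_Iic hγ 0).congr_fun (fun y hy => ?_) measurableSet_Iic
    simp only [abs_of_nonpos (mem_Iic.1 hy)]
    congr 1
    ring
  have h3 : Integrable (fun y : ℝ => Real.exp (-γ * |y|)) := by
    have := h2.union h1
    rwa [Iic_union_Ioi, integrableOn_univ] at this
  exact h3.lintegral_lt_top.ne

/-- the test function -/
def ph (γ y : ℝ) : ℝ≥0∞ := eE (γ * y - γ * |y|)

theorem meas_ph (γ : ℝ) : Measurable (ph γ) := by
  unfold ph
  exact meas_eE.comp (by fun_prop)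

/-- the weight of level `k` -/
def fmW (γ s u : ℝ) (k : ℕ) : ℝ≥0∞ :=
  ∫⁻ x, ENNReal.ofReal (pd (s + k * l2) x) * ph γ (x + (u - QQ γ * k * l2))

theorem wt_sum (hR : St_RW1) {γ : ℝ} (hγ : γ ∈ Ioo (0 : ℝ) 2) :
    ∃ K : ℝ, 0 ≤ K ∧ ∀ s ≥ 1, ∀ u : ℝ, ∑' k : ℕ, 4 ^ k * fmW γ s u k ≤
      ENNReal.ofReal (K * Real.exp (γ * u + γ ^ 2 * s / 2)) := by
  obtain ⟨C, hC⟩ := hR.1 (aa γ) (hR.2.2 γ hγ).1 1 one_pos
  have hI := int_abs hγ.1
  refine ⟨max C 0 * (∫⁻ y : ℝ, eE (-γ * |y|)).toReal, by positivity, fun s hs u => ?_⟩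
  have h1 : ∀ k : ℕ, 4 ^ k * fmW γ s u k = ∫⁻ y, eE (γ * u + γ ^ 2 * s / 2) * eE (-γ * |y|) *
      ENNReal.ofReal (pd (s + k * l2) (y - u - γ * s + aa γ * k * l2)) := by
    intro k
    unfold fmW
    rw [← lintegral_add_right_eq_self _ (-(u - QQ γ * k * l2)), ← lintegral_const_mul' _ _
      (by simp)]
    refine lintegral_congr fun y => ?_
    have h2 := (hR.2.1 γ hγ s y u k).1
    have h3 : y + -(u - QQ γ * k * l2) = y - u + QQ γ * k * l2 := by ring
    have h4 : y + -(u - QQ γ * k * l2) + (u - QQ γ * k * l2) = y := by ring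
    rw [h4, h3, ← mul_assoc]
    have h5 : (4 : ℝ≥0∞) ^ k = ENNReal.ofReal (4 ^ k) := by
      rw [ENNReal.ofReal_pow (by norm_num)]
      norm_num
    rw [h5, ← ENNReal.ofReal_mul (by positivity), h2, ENNReal.ofReal_mul (Real.exp_pos _).le]
    change eE _ * _ * eE _ = _
    rw [mul_right_comm, ← eE_add, ← eE_add]
    congr 2
    ring
  simp_rw [h1]
  rw [← lintegral_tsum]
  · calc ∫⁻ y, ∑' k : ℕ, eE (γ * u + γ ^ 2 * s / 2) * eE (-γ * |y|) *
          ENNReal.ofReal (pd (s + k * l2) (y - u - γ * s + aa γ * k * l2))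
        ≤ ∫⁻ y, eE (γ * u + γ ^ 2 * s / 2) * ENNReal.ofReal (max C 0) * eE (-γ * |y|) := by
          refine lintegral_mono fun y => ?_
          rw [ENNReal.tsum_mul_left, mul_right_comm _ (ENNReal.ofReal _)]
          gcongr
          refine (hC s hs (y - u - γ * s)).1.trans (ENNReal.ofReal_le_ofReal ?_)
          have h6 : 0 ≤ min 1 (Real.exp (-(2 * aa γ) * (y - u - γ * s - aa γ * s))) :=
            le_min zero_le_one (Real.exp_pos _).le
          calc C * min 1 _ ≤ max C 0 * min 1 _ := by gcongr; exact le_max_left _ _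
            _ ≤ max C 0 * 1 := by gcongr; exact min_le_left _ _
            _ = max C 0 := mul_one _
      _ = _ := by
          rw [lintegral_const_mul' _ _ (ENNReal.mul_ne_top (eE_ne_top _) ENNReal.ofReal_ne_top),
            ENNReal.ofReal_mul (by positivity), ENNReal.ofReal_mul (by positivity),
            ENNReal.ofReal_toReal hI]
          unfold eE
          ring
  · intro k
    refine Measurable.aemeasurable ?_
    refine (measurable_const.mul (meas_eE.comp (by fun_prop))).mul ?_
    exact ENNReal.measurable_ofReal.comp ((meas_pd _).comp (by fun_prop))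

theorem tail_le (hD : St_G1D) {γ : ℝ} (hγ : 0 < γ) (g : HH) {s : ℝ} (hs : 0 < s)
    (hg : ‖g‖ ^ 2 ≤ s) (t c : ℝ) :
    gm {ω | 0 < ω g + t + c} ≤ 2 * eE (2 * γ * |t|) *
      ∫⁻ x, ENNReal.ofReal (pd s x) * ph γ (x + c) := by
  obtain ⟨w, hw⟩ := exists_vec hs.le
  have hw0 : w ≠ 0 := by
    rintro rfl
    simp at hw
    exact hs.ne hw
  have hgw : ‖g‖ ≤ ‖w‖ := by
    rw [← hw] at hg
    exact (pow_le_pow_iff_left₀ (norm_nonneg _) (norm_nonneg _) two_ne_zero).1 hg
  have h1 : {ω : Om | 0 < ω g + t + c} = {ω | -(t + c) < ω g} := by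
    ext ω
    simp only [mem_ofPred_eq]
    constructor <;> intro h <;> linarith
  rw [h1]
  refine (hD.2.2.2.2.1 g w _ hgw).trans ?_
  rw [mul_assoc]
  gcongr
  rw [← hw, ← hD.2.2.2.1 w (fun x => ph γ (x + c)) hw0 ((meas_ph γ).comp (by fun_prop)),
    ← lintegral_const_mul' _ _ (eE_ne_top _), ← lintegral_indicator_one
      (measurableSet_lt measurable_const (meas_ev w))]
  refine lintegral_mono fun ω => ?_
  by_cases h : -(t + c) < ω w
  · rw [indicator_of_mem (by exact h), ph, ← eE_add, Pi.one_apply, ← eE_zero]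
    refine eE_mono ?_
    have h2 : |ω w + c| ≤ ω w + c + 2 * |t| := by
      rw [abs_le]
      have := le_abs_self t
      have := abs_nonneg t
      constructor <;> linarith
    nlinarith
  · rw [indicator_of_notMem (by exact h)]
    exact zero_le

theorem chernoff (hD : St_G1D) (v : HH) {lam : ℝ} (hl : 0 ≤ lam) (c : ℝ) :
    gm {ω | 0 < ω v + c} ≤ eE (lam * c + lam ^ 2 * ‖v‖ ^ 2 / 2) := by
  have h1 := hD.1 (lam • v)
  rw [norm_smul, mul_pow, Real.norm_eq_abs, sq_abs] at h1
  rw [eE_add, ← h1, ← lintegral_const_mul' _ _ (eE_ne_top _), ← lintegral_indicator_one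
      (measurableSet_lt measurable_const ((meas_ev v).add_const c))]
  refine lintegral_mono fun ω => ?_
  by_cases h : 0 < ω v + c
  · rw [indicator_of_mem (by exact h), ← eE_add, Pi.one_apply, ← eE_zero]
    refine eE_mono ?_
    rw [map_smul, smul_eq_mul]
    nlinarith
  · rw [indicator_of_notMem (by exact h)]
    exact zero_le

theorem geo {c : ℝ} (hc : 0 < c) (k : ℕ) :
    ∑' j : ℕ, ind (k ≤ j) * eE (-c * j) ≤ ENNReal.ofReal ((1 - Real.exp (-c))⁻¹) * eE (-c * k) := by
  have h0 : Real.exp (-c) < 1 := Real.exp_lt_one_iff.2 (by linarith)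
  have h1 : ∑' j : ℕ, ind (k ≤ j) * eE (-c * j) = ∑' i : ℕ, eE (-c * (i + k : ℕ)) := by
    rw [← Summable.sum_add_tsum_nat_add' (f := fun j => ind (k ≤ j) * eE (-c * j)) (k := k)
      ENNReal.summable]
    rw [Finset.sum_eq_zero, zero_add]
    · refine tsum_congr fun i => ?_
      rw [ind, if_pos (Nat.le_add_left _ _), one_mul]
    · intro j hj
      rw [ind, if_neg (by simpa using hj), zero_mul]
  rw [h1]
  have h2 : ∀ i : ℕ, eE (-c * (i + k : ℕ)) = ENNReal.ofReal (Real.exp (-c) ^ i) * eE (-c * k) := by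
    intro i
    rw [← Real.exp_nat_mul]
    change _ = eE _ * _
    rw [← eE_add]
    congr 1
    push_cast
    ring
  simp_rw [h2]
  rw [ENNReal.tsum_mul_right, ← ENNReal.ofReal_tsum_of_nonneg (fun i => by positivity)
    (summable_geometric_of_lt_one (Real.exp_pos _).le h0),
    tsum_geometric_of_lt_one (Real.exp_pos _).le h0]

theorem holder {ι : Type} (w f : ι → ℝ≥0∞) {q : ℝ} (hq : 1 ≤ q) :
    (∑' i, w i * f i) ^ q ≤ (∑' i, w i) ^ (q - 1) * ∑' i, w i * f i ^ q := by
  have hq0 : 0 < q := by linarith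
  have h0 : 0 ≤ 1 - q⁻¹ := sub_nonneg.2 (inv_le_one_of_one_le₀ hq)
  have h1 : ∑' i, w i * f i ≤ (∑' i, w i) ^ (1 - q⁻¹) * (∑' i, w i * f i ^ q) ^ q⁻¹ := by
    rw [ENNReal.tsum_eq_iSup_sum]
    refine iSup_le fun s => (ENNReal.inner_le_weight_mul_Lp_of_nonneg s hq w f).trans ?_
    gcongr
    · exact ENNReal.sum_le_tsum s
    · exact ENNReal.sum_le_tsum s
  refine (ENNReal.rpow_le_rpow h1 hq0.le).trans (le_of_eq ?_)
  rw [ENNReal.mul_rpow_of_nonneg _ _ hq0.le, ← ENNReal.rpow_mul, ← ENNReal.rpow_mul,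
    inv_mul_cancel₀ hq0.ne', ENNReal.rpow_one]
  congr 2
  field_simp

end FM

open FM in
theorem blk_FM (_hG : St_G1) (hD : St_G1D) (hR : St_RW1) (hT : St_T1) : St_FM := by
  intro γ hγ
  obtain ⟨K, hK0, hK⟩ := wt_sum hR hγ
  have hQ : 2 < QQ γ := (hR.2.2 γ hγ).2.1
  have hl := l2_pos
  constructor
  · have hc : 0 < (QQ γ ^ 2 / 2 - 2) * l2 := mul_pos (by nlinarith) hl
    set c := (QQ γ ^ 2 / 2 - 2) * l2 with hcdef
    have hc1 : 0 ≤ (1 - Real.exp (-c))⁻¹ :=
      inv_nonneg.2 (sub_nonneg.2 (Real.exp_lt_one_iff.2 (by linarith)).le)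
    refine ⟨max (2 * K * Real.exp (γ ^ 2 / 2)) (1 - Real.exp (-c))⁻¹, c, hc,
      fun C hC v hv u => ⟨?_, fun k => ?_⟩⟩
    · calc ∑' S : Dy, gm {ω | 0 < drift (QQ γ) (fun S => ω (v S)) u S}
          ≤ ∑' S : Dy, (fun k => 2 * fmW γ (C + 1) u k) S.length := by
            refine ENNReal.tsum_le_tsum fun S => ?_
            have h1 := tail_le hD hγ.1 (v S) (s := C + 1 + S.length * l2) (by positivity)
              (by linarith [hv S]) 0 (u - QQ γ * S.length * l2)
            rw [abs_zero, mul_zero, eE_zero, mul_one] at h1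
            refine le_trans (le_of_eq ?_) h1
            congr 1
            ext ω
            simp only [drift, mem_ofPred_eq]
            constructor <;> intro h <;> linarith
        _ = 2 * ∑' k : ℕ, 4 ^ k * fmW γ (C + 1) u k := by
            refine (sum_len hT fun k => 2 * fmW γ (C + 1) u k).trans ?_
            rw [← ENNReal.tsum_mul_left]
            exact tsum_congr fun k => by ring
        _ ≤ 2 * ENNReal.ofReal (K * Real.exp (γ * u + γ ^ 2 * (C + 1) / 2)) := by
            gcongr
            exact hK _ (by linarith) u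
        _ ≤ _ := by
            rw [← ENNReal.ofReal_ofNat 2, ← ENNReal.ofReal_mul (by norm_num)]
            refine ENNReal.ofReal_le_ofReal ?_
            calc 2 * (K * Real.exp (γ * u + γ ^ 2 * (C + 1) / 2))
                = 2 * K * Real.exp (γ ^ 2 / 2) * Real.exp (γ * u + γ ^ 2 * C / 2) := by
                  rw [mul_assoc (2 * K), ← Real.exp_add, mul_assoc]
                  congr 3
                  ring
              _ ≤ _ := by gcongr; exact le_max_left _ _
    · calc ∑' S : Dy, ind (k ≤ S.length) * gm {ω | 0 < drift (QQ γ) (fun S => ω (v S)) u S}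
          ≤ ∑' S : Dy, (fun j : ℕ => ind (k ≤ j) *
              eE (QQ γ * u + QQ γ ^ 2 * C / 2 - QQ γ ^ 2 / 2 * j * l2)) S.length := by
            refine ENNReal.tsum_le_tsum fun S => ?_
            have h1 := chernoff hD (v S) (lam := QQ γ) (by linarith) (u - QQ γ * S.length * l2)
            beta_reduce
            gcongr
            refine le_trans (le_of_eq ?_) (h1.trans (eE_mono ?_))
            · congr 1
              ext ω
              simp only [drift, mem_ofPred_eq]
              constructor <;> intro h <;> linarith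
            · have h2 := mul_le_mul_of_nonneg_left (hv S) (sq_nonneg (QQ γ))
              nlinarith
        _ = eE (QQ γ * u + QQ γ ^ 2 * C / 2) * ∑' j : ℕ, ind (k ≤ j) * eE (-c * j) := by
            refine (sum_len hT fun j : ℕ => ind (k ≤ j) *
              eE (QQ γ * u + QQ γ ^ 2 * C / 2 - QQ γ ^ 2 / 2 * j * l2)).trans ?_
            rw [← ENNReal.tsum_mul_left]
            refine tsum_congr fun j => ?_
            have h5 : (4 : ℝ≥0∞) ^ j = eE (2 * j * l2) := by
              rw [eE, ← four_pow, ENNReal.ofReal_pow (by norm_num)]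
              norm_num
            rw [h5, mul_left_comm, ← eE_add, mul_left_comm, ← eE_add]
            congr 2
            rw [hcdef]
            ring
        _ ≤ eE (QQ γ * u + QQ γ ^ 2 * C / 2) *
              (ENNReal.ofReal ((1 - Real.exp (-c))⁻¹) * eE (-c * k)) := by
            gcongr
            exact geo hc k
        _ ≤ _ := by
            rw [mul_left_comm, ← eE_add, eE, ← ENNReal.ofReal_mul hc1]
            refine ENNReal.ofReal_le_ofReal ?_
            rw [show QQ γ * u + QQ γ ^ 2 * C / 2 + -c * k = QQ γ * u + QQ γ ^ 2 * C / 2 - c * k by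
              ring]
            gcongr
            exact le_max_right _ _
  · intro q C1 hq
    have hq0 : 0 < q := by linarith
    set B := 2 * K * Real.exp (γ ^ 2 * (C1 + 1) / 2) with hB
    have hB0 : 0 ≤ B := by positivity
    refine ⟨B ^ q * (2 * Real.exp ((q * (2 * γ)) ^ 2 * C1 / 2)), fun g h hg hh u => ?_⟩
    have hC : 0 ≤ C1 := (sq_nonneg _).trans (hh [])
    set w : Dy → ℝ≥0∞ := fun S => 2 * fmW γ (C1 + 1) u S.length with hw
    have hA : ∑' S, w S ≤ ENNReal.ofReal B * eE (γ * u) := by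
      calc ∑' S, w S = ∑' S : Dy, (fun k => 2 * fmW γ (C1 + 1) u k) S.length := rfl
        _ = 2 * ∑' k : ℕ, 4 ^ k * fmW γ (C1 + 1) u k := by
            refine (sum_len hT fun k => 2 * fmW γ (C1 + 1) u k).trans ?_
            rw [← ENNReal.tsum_mul_left]
            exact tsum_congr fun k => by ring
        _ ≤ 2 * ENNReal.ofReal (K * Real.exp (γ * u + γ ^ 2 * (C1 + 1) / 2)) := by
            gcongr
            exact hK _ (by linarith) u
        _ = _ := by
            rw [eE, ← ENNReal.ofReal_ofNat 2, ← ENNReal.ofReal_mul (by norm_num),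
              ← ENNReal.ofReal_mul hB0, hB, Real.exp_add]
            congr 1
            ring
    set A := ENNReal.ofReal B * eE (γ * u) with hAdef
    have hAt : A ≠ ∞ := ENNReal.mul_ne_top ENNReal.ofReal_ne_top (eE_ne_top _)
    have hq1 : 0 ≤ q - 1 := by linarith
    calc ∫⁻ ω, (∑' S : Dy, gm {ω' | 0 < drift (QQ γ) (fun S => ω' (g S) + ω (h S)) u S}) ^ q ∂gm
        ≤ ∫⁻ ω, A ^ (q - 1) * ∑' S : Dy, w S * eE (q * (2 * γ) * |ω (h S)|) ∂gm := by
          refine lintegral_mono fun ω => ?_
          have h1 : ∑' S : Dy, gm {ω' | 0 < drift (QQ γ) (fun S => ω' (g S) + ω (h S)) u S} ≤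
              ∑' S : Dy, w S * eE (2 * γ * |ω (h S)|) := by
            refine ENNReal.tsum_le_tsum fun S => ?_
            have h2 := tail_le hD hγ.1 (g S) (s := C1 + 1 + S.length * l2) (by positivity)
              (by linarith [hg S]) (ω (h S)) (u - QQ γ * S.length * l2)
            rw [mul_right_comm (2 : ℝ≥0∞)] at h2
            refine le_trans (le_of_eq ?_) h2
            congr 1
            ext ω'
            simp only [drift, mem_ofPred_eq]
            constructor <;> intro h <;> linarith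
          refine (ENNReal.rpow_le_rpow h1 hq0.le).trans ((holder _ _ hq).trans ?_)
          simp_rw [eE_rpow _ _ hq0.le, mul_assoc]
          gcongr
      _ = A ^ (q - 1) * ∑' S : Dy, ∫⁻ ω, w S * eE (q * (2 * γ) * |ω (h S)|) ∂gm := by
          rw [lintegral_const_mul' _ _ (ENNReal.rpow_ne_top_of_nonneg hq1 hAt), lintegral_tsum]
          intro S
          exact (measurable_const.mul (meas_eE.comp
            (measurable_const.mul (meas_ev (h S)).abs))).aemeasurable
      _ ≤ A ^ (q - 1) * ∑' S : Dy, w S * (2 * eE ((q * (2 * γ)) ^ 2 * C1 / 2)) := by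
          gcongr with S
          have hm : Measurable fun ω : Om => eE (q * (2 * γ) * |ω (h S)|) :=
            meas_eE.comp (measurable_const.mul (meas_ev (h S)).abs)
          rw [lintegral_const_mul _ hm]
          gcongr
          refine (hD.2.2.2.2.2.2 (h S) _).trans ?_
          gcongr
          refine eE_mono ?_
          have := mul_le_mul_of_nonneg_left (hh S) (sq_nonneg (q * (2 * γ)))
          linarith
      _ ≤ A ^ (q - 1) * (A * (2 * eE ((q * (2 * γ)) ^ 2 * C1 / 2))) := by
          rw [ENNReal.tsum_mul_right]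
          gcongr
      _ = A ^ q * (2 * eE ((q * (2 * γ)) ^ 2 * C1 / 2)) := by
          rw [← mul_assoc]
          congr 1
          conv_rhs => rw [show q = (q - 1) + 1 by ring,
            ENNReal.rpow_add_of_nonneg _ _ hq1 zero_le_one, ENNReal.rpow_one]
      _ = _ := by
          rw [hAdef, ENNReal.mul_rpow_of_nonneg _ _ hq0.le, eE_rpow _ _ hq0.le,
            ENNReal.ofReal_rpow_of_nonneg hB0 hq0.le,
            ENNReal.ofReal_mul (by positivity), ENNReal.ofReal_mul (by positivity),
            ENNReal.ofReal_mul (by positivity), ENNReal.ofReal_ofNat,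
            show γ * q * u = q * (γ * u) by ring]
          unfold eE
          ring

end

end Pool.Agent.Lib.APPS
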