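import Pool.Agent.Lib.APPS.Blue2
import Pool.Agent.Lib.APPS.B_FM

/-!
Block ANC: squares with a large value whose `i`-th ancestor is closed.
-/

namespace Pool.Agent.Lib.APPS

open MeasureTheory ProbabilityTheory Filter Topology Set Metric
open scoped NNReal ENNReal RealInnerProductSpace Classical

noncomputable section

namespace ANC

open FM

/-- weight of the level `m` -/
def wt (a s u : ℝ) : ℕ → ℝ≥0∞
  | 0 => 1
  | m + 1 => ∫⁻ y, ENNReal.ofReal (pd (s + m * l2) (y - u + a * l2 + a * m * l2)) * eE (-a * |y|)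

theorem wt_sum (hR : St_RW1) {a : ℝ} (ha : 0 < a) :
    ∃ K : ℝ, 0 ≤ K ∧ ∀ s ≥ l2, ∀ u : ℝ, ∑' m : ℕ, wt a s u m ≤ ENNReal.ofReal K := by
  obtain ⟨C, hC⟩ := hR.1 a ha l2 l2_pos
  have hI := int_abs ha
  refine ⟨1 + max C 0 * (∫⁻ y : ℝ, eE (-a * |y|)).toReal, by positivity, fun s hs u => ?_⟩
  rw [tsum_eq_zero_add' ENNReal.summable, ENNReal.ofReal_add zero_le_one (by positivity),
    ENNReal.ofReal_one]
  simp only [wt]
  gcongr
  rw [← lintegral_tsum]
  · calc ∫⁻ y, ∑' m : ℕ, ENNReal.ofReal (pd (s + m * l2) (y - u + a * l2 + a * m * l2)) *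
          eE (-a * |y|)
        ≤ ∫⁻ y, ENNReal.ofReal (max C 0) * eE (-a * |y|) := by
          refine lintegral_mono fun y => ?_
          rw [ENNReal.tsum_mul_right]
          gcongr
          refine (hC s hs (y - u + a * l2)).1.trans (ENNReal.ofReal_le_ofReal ?_)
          have h6 : 0 ≤ min 1 (Real.exp (-(2 * a) * (y - u + a * l2 - a * s))) :=
            le_min zero_le_one (Real.exp_pos _).le
          calc C * min 1 _ ≤ max C 0 * min 1 _ := by gcongr; exact le_max_left _ _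
            _ ≤ max C 0 * 1 := by gcongr; exact min_le_left _ _
            _ = max C 0 := mul_one _
      _ = _ := by
          rw [lintegral_const_mul' _ _ ENNReal.ofReal_ne_top,
            ENNReal.ofReal_mul (le_max_right _ _), ENNReal.ofReal_toReal hI]
  · intro m
    refine Measurable.aemeasurable ?_
    exact ((meas_pd _).comp (by fun_prop)).ennreal_ofReal.mul (meas_eE.comp (by fun_prop))

theorem wt_bd (h1 : St_G1) (hD : St_G1D) {a s0 u : ℝ} (ha : 0 < a) (hs : 0 ≤ s0) (m : ℕ) (w : HH)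
    (hw : ‖w‖ ^ 2 = s0 + m * l2) :
    ∫⁻ ω, eE (-a * |ω w + u - a * m * l2|) ∂gm ≤ wt a (s0 + l2) u m := by
  have hp : IsProbabilityMeasure gm := h1.1
  cases m with
  | zero =>
    calc ∫⁻ ω, eE (-a * |ω w + u - a * (0 : ℕ) * l2|) ∂gm ≤ ∫⁻ _, 1 ∂gm := by
          refine lintegral_mono fun ω => ?_
          rw [← eE_zero]
          apply eE_mono
          have := abs_nonneg (ω w + u - a * (0 : ℕ) * l2)
          nlinarith
      _ = _ := by simp [wt]
  | succ m =>
    have hl := l2_pos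
    have hw0 : w ≠ 0 := by
      intro h
      rw [h, norm_zero] at hw
      have : (0 : ℝ) < s0 + (m + 1 : ℕ) * l2 := by positivity
      linarith [hw]
    have := hD.2.2.2.1 w (fun x => eE (-a * |x + u - a * (m + 1 : ℕ) * l2|)) hw0
      (meas_eE.comp (by fun_prop))
    rw [this, hw]
    simp only [wt]
    rw [← lintegral_add_right_eq_self _ (-u + a * l2 + a * m * l2)]
    refine le_of_eq (lintegral_congr fun y => ?_)
    congr 3
    · push_cast; ring
    · ring
    · congr 1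
      push_cast; ring

theorem tilt (h2 : St_G2) (h : HH) (f : Om → ℝ≥0∞) (hf : Measurable f) (c : ℝ) :
    ∫⁻ ω, eE (ω h + c) * f ω ∂gm = eE (‖h‖ ^ 2 / 2 + c) * ∫⁻ ω, f (ω + dv h) ∂gm := by
  rw [h2.2.1 h f hf, ← lintegral_const_mul' _ _ (eE_ne_top _)]
  refine lintegral_congr fun ω => ?_
  rw [mul_comm (f ω), ← mul_assoc, ← eE_add]
  congr 2
  ring

theorem kS_bd (hE : St_EXP2) (hG : St_GEO1) : ∃ C1 : ℝ, 0 ≤ C1 ∧ ∀ S, |kS S []| ≤ C1 := by
  obtain ⟨C, hC0, -, -, hC, -⟩ := hE.2.2.2.2.2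
  refine ⟨C, hC0, fun S => ?_⟩
  have h := hC S []
  have h1 : side [] = 1 := by simp [side]
  have h2 : ctr S ∈ box [] := ((hG.2.2.2.2.1 S []).2 List.nil_suffix) (hG.2.2.2.1 S).2.2.1
  have h3 := (hG.2.2.2.1 []).2.2.2.1 _ h2
  have h4 := (hG.1 S).2
  rw [h1] at h h3
  rw [max_eq_right h4, max_eq_right (by linarith), Real.log_one, add_zero] at h
  exact h

theorem one_bd (h1 : St_G1) (hD : St_G1D) (h2 : St_G2) (hE : St_EXP2) (hR : St_RW1)
    {γ : ℝ} (hγ : γ ∈ Ioo (0 : ℝ) 2) {C C1 : ℝ} (hC : 0 ≤ C) (hk : ∀ S, |kS S []| ≤ C1)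
    {v : Dy → HH} (hv : Gram v (covE C)) (u t : ℝ) (S A : Dy) :
    gm {ω | t < XV γ v u ω (S ++ A) ∧ XV γ v u ω A ≤ 0} ≤
      eE ((γ ^ 2 / 2 * (C + C1) + (γ * aa γ + aa γ ^ 2) * (2 * C1) +
          aa γ * (γ * (C + C1) + aa γ * (2 * C1))) + γ * (u - t) - aa γ * t -
        aa γ ^ 2 / 2 * S.length * l2 - 2 * ((S.length + A.length : ℕ) : ℝ) * l2) *
        wt (aa γ) (C + kS [] [] + l2) u A.length := by
  obtain ⟨ha, -, -, -, hQ, -⟩ := hR.2.2 γ hγ
  have hγ0 := hγ.1
  set a := aa γ with ha'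
  have hQa : QQ γ = a + γ := by rw [ha', aa]; ring
  set i : ℝ := (S.length : ℝ) with hi
  set m : ℝ := (A.length : ℝ) with hm
  set κ := kS [] []
  set η := kS S []
  have hκ : |κ| ≤ C1 := hk []
  have hη : |η| ≤ C1 := hk S
  have hBB : ⟪v (S ++ A), v (S ++ A)⟫ = C + κ + (i + m) * l2 := by
    rw [hv, covE]
    have := hE.2.1 [] [] (S ++ A)
    simp only [List.nil_append, List.length_append, Nat.cast_add] at this
    rw [this]; ring
  have hAA : ⟪v A, v A⟫ = C + κ + m * l2 := by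
    rw [hv, covE]
    have := hE.2.1 [] [] A
    simp only [List.nil_append] at this
    rw [this]; ring
  have hBA : ⟪v (S ++ A), v A⟫ = C + η + m * l2 := by
    rw [hv, covE]
    have := hE.2.1 S [] A
    simp only [List.nil_append] at this
    rw [this]; ring
  have hAB : ⟪v A, v (S ++ A)⟫ = C + η + m * l2 := by rw [real_inner_comm, hBA]
  have hs0 : 0 ≤ C + κ := by
    have := hv [] []
    rw [covE] at this
    rw [← this]
    exact real_inner_self_nonneg
  set h : HH := (γ + a) • v (S ++ A) - a • v A with hh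
  have hn : ‖h‖ ^ 2 = (γ + a) ^ 2 * (C + κ + (i + m) * l2) - 2 * (γ + a) * a * (C + η + m * l2) +
      a ^ 2 * (C + κ + m * l2) := by
    rw [← real_inner_self_eq_norm_sq, hh]
    simp only [inner_sub_left, inner_sub_right, real_inner_smul_left, real_inner_smul_right,
      hBB, hAA, hBA, hAB]
    ring
  have hA : ⟪h, v A⟫ = (γ + a) * (C + η + m * l2) - a * (C + κ + m * l2) := by
    rw [hh]
    simp only [inner_sub_left, real_inner_smul_left, hAA, hBA]
  set f : Om → ℝ≥0∞ := fun ω => eE (-a * |ω (v A) + u - QQ γ * m * l2|) with hf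
  have hfm : Measurable f := by
    have e1 : Measurable fun ω : Om => ω (v A) + u - QQ γ * m * l2 :=
      ((meas_ev (v A)).add_const _).sub_const _
    exact meas_eE.comp (e1.abs.const_mul (-a))
  set c : ℝ := (γ + a) * (u - QQ γ * (i + m) * l2 - t) - a * (u - QQ γ * m * l2) with hc
  have hms : MeasurableSet {ω | t < XV γ v u ω (S ++ A) ∧ XV γ v u ω A ≤ 0} := by
    have e1 : ∀ B, Measurable fun ω : Om => XV γ v u ω B := fun B =>
      ((meas_ev (v B)).add_const _).sub_const _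
    exact (measurableSet_lt measurable_const (e1 _)).inter
      (measurableSet_le (e1 _) measurable_const)
  have step1 : gm {ω | t < XV γ v u ω (S ++ A) ∧ XV γ v u ω A ≤ 0} ≤
      ∫⁻ ω, eE (ω h + c) * f ω ∂gm := by
    rw [← lintegral_indicator_one hms]
    refine lintegral_mono fun ω => ?_
    by_cases hω : ω ∈ {ω | t < XV γ v u ω (S ++ A) ∧ XV γ v u ω A ≤ 0}
    · rw [indicator_of_mem hω, Pi.one_apply, hf]
      simp only
      rw [← eE_add, ← eE_zero]
      apply eE_mono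
      obtain ⟨e1, e2⟩ := hω
      simp only [XV, drift, List.length_append, Nat.cast_add] at e1 e2
      rw [← hi, ← hm] at e1
      rw [← hm] at e2
      rw [abs_of_nonpos e2, hh, hc]
      simp only [map_sub, map_smul, smul_eq_mul]
      have : 0 ≤ (γ + a) * (ω (v (S ++ A)) + u - QQ γ * (i + m) * l2 - t) :=
        mul_nonneg (by linarith) (by linarith)
      nlinarith
    · rw [indicator_of_notMem hω]
      exact zero_le
  rw [tilt h2 h f hfm c] at step1
  refine step1.trans ?_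
  have step2 : ∫⁻ ω, f (ω + dv h) ∂gm ≤ eE (a * (γ * (C + C1) + a * (2 * C1))) *
      wt a (C + κ + l2) u A.length := by
    refine le_trans ?_ (mul_le_mul_right (wt_bd h1 hD (u := u) ha hs0 A.length (v A)
      (by rw [← real_inner_self_eq_norm_sq, hAA])) _)
    rw [← lintegral_const_mul' _ _ (eE_ne_top _)]
    refine lintegral_mono fun ω => ?_
    rw [hf]
    simp only [LinearMap.add_apply, dv_apply]
    rw [← eE_add]
    apply eE_mono
    rw [hA, ← hm, hQa]
    have e1 : ω (v A) + ((γ + a) * (C + η + m * l2) - a * (C + κ + m * l2)) + u - (a + γ) * m * l2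
        = (ω (v A) + u - a * m * l2) + (γ * (C + η) + a * (η - κ)) := by ring
    rw [e1]
    have e2 : |γ * (C + η) + a * (η - κ)| ≤ γ * (C + C1) + a * (2 * C1) := by
      obtain ⟨k1, k2⟩ := abs_le.1 hκ
      obtain ⟨k3, k4⟩ := abs_le.1 hη
      rw [abs_le]
      constructor <;> nlinarith
    have e3 := abs_add_le ((ω (v A) + u - a * m * l2) + (γ * (C + η) + a * (η - κ)))
      (-(γ * (C + η) + a * (η - κ)))
    rw [abs_neg, add_neg_cancel_right] at e3
    nlinarith
  refine (mul_le_mul_right step2 _).trans ?_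
  rw [← mul_assoc, ← eE_add]
  gcongr
  apply eE_mono
  rw [hn, hc, Nat.cast_add, ← hi, ← hm]
  obtain ⟨k1, k2⟩ := abs_le.1 hκ
  obtain ⟨k3, k4⟩ := abs_le.1 hη
  have e4 : γ * a = 2 - γ ^ 2 / 2 := by rw [hQa] at hQ; linarith
  have e5 : ((γ + a) ^ 2 * (C + κ + (i + m) * l2) - 2 * (γ + a) * a * (C + η + m * l2) +
      a ^ 2 * (C + κ + m * l2)) / 2 + ((γ + a) * (u - QQ γ * (i + m) * l2 - t) -
        a * (u - QQ γ * m * l2)) =
      γ ^ 2 / 2 * (C + κ) + (γ * a + a ^ 2) * (κ - η) + γ * (u - t) - a * t -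
        a ^ 2 / 2 * i * l2 - (γ * a + γ ^ 2 / 2) * (i + m) * l2 := by
    rw [hQa]; ring
  rw [e5, show γ * a + γ ^ 2 / 2 = 2 by linarith]
  have e6 : γ ^ 2 / 2 * (C + κ) ≤ γ ^ 2 / 2 * (C + C1) := by gcongr
  have e7 : (γ * a + a ^ 2) * (κ - η) ≤ (γ * a + a ^ 2) * (2 * C1) := by
    gcongr; linarith
  linarith

end ANC

open FM ANC in
theorem blk_ANC (h1 : St_G1) (hD : St_G1D) (h2 : St_G2) (hE : St_EXP2) (hR : St_RW1)
    (hT : St_T1) (hG : St_GEO1) : St_ANC := by
  intro γ hγ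
  have ha := (hR.2.2 γ hγ).1
  have hl := l2_pos
  obtain ⟨C1, hC1, hk⟩ := kS_bd hE hG
  obtain ⟨K0, hK0, hW⟩ := ANC.wt_sum hR ha
  refine ⟨min (aa γ) (aa γ ^ 2 / 2 * l2), by positivity, fun C hC => ?_⟩
  set D := γ ^ 2 / 2 * (C + C1) + (γ * aa γ + aa γ ^ 2) * (2 * C1) +
          aa γ * (γ * (C + C1) + aa γ * (2 * C1)) with hDd
  refine ⟨Real.exp D * K0, fun v hv u t i ht => ?_⟩
  have hs0 : 0 ≤ C + kS [] [] := by
    have := hv [] []
    rw [covE] at this
    rw [← this]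
    exact real_inner_self_nonneg
  set E := D + γ * (u - t) - aa γ * t - aa γ ^ 2 / 2 * i * l2 with hEd
  set F : ℕ → ℝ≥0∞ := fun k => ind (i ≤ k) * (eE (E - 2 * k * l2) *
    ANC.wt (aa γ) (C + kS [] [] + l2) u (k - i)) with hF
  have e1 : ∀ B : Dy, ind (i ≤ B.length) *
      gm {ω | t < XV γ v u ω B ∧ XV γ v u ω (B.drop i) ≤ 0} ≤ F B.length := by
    intro B
    by_cases hB : i ≤ B.length
    · rw [hF]
      simp only
      gcongr
      have := one_bd h1 hD h2 hE hR hγ hC hk hv u t (B.take i) (B.drop i)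
      rw [List.take_append_drop, List.length_take, List.length_drop, min_eq_left hB,
        Nat.add_sub_cancel' hB] at this
      exact this
    · simp [hF, ind, hB]
  refine (ENNReal.tsum_le_tsum e1).trans ?_
  rw [sum_len hT F]
  have e2 : ∀ k : ℕ, 4 ^ k * F k =
      eE E * (ind (i ≤ k) * ANC.wt (aa γ) (C + kS [] [] + l2) u (k - i)) := by
    intro k
    have h5 : (4 : ℝ≥0∞) ^ k = eE (2 * k * l2) := by
      rw [eE, ← four_pow, ENNReal.ofReal_pow (by norm_num)]
      norm_num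
    have h6 : eE E = eE (2 * k * l2) * eE (E - 2 * k * l2) := by
      rw [← eE_add]; congr 1; ring
    rw [h5, h6, hF]
    ring
  simp_rw [e2]
  rw [ENNReal.tsum_mul_left]
  have e3 : ∑' k : ℕ, ind (i ≤ k) * ANC.wt (aa γ) (C + kS [] [] + l2) u (k - i) =
      ∑' m : ℕ, ANC.wt (aa γ) (C + kS [] [] + l2) u m := by
    rw [← ENNReal.summable.sum_add_tsum_nat_add' (k := i), Finset.sum_eq_zero, zero_add]
    · refine tsum_congr fun m => ?_
      simp [ind]
    · intro k hk
      have : ¬ i ≤ k := by simpa using hk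
      simp [ind, this]
  rw [e3]
  refine (mul_le_mul_right (hW _ (by linarith) u) _).trans ?_
  rw [eE, ← ENNReal.ofReal_mul (Real.exp_pos _).le]
  refine ENNReal.ofReal_le_ofReal ?_
  rw [mul_right_comm, ← Real.exp_add]
  gcongr
  have m1 := min_le_left (aa γ) (aa γ ^ 2 / 2 * l2)
  have m2 := min_le_right (aa γ) (aa γ ^ 2 / 2 * l2)
  have m3 : min (aa γ) (aa γ ^ 2 / 2 * l2) * t ≤ aa γ * t := by gcongr
  have m4 : min (aa γ) (aa γ ^ 2 / 2 * l2) * i ≤ aa γ ^ 2 / 2 * l2 * i := by gcongr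
  rw [hEd]
  linarith

end

end Pool.Agent.Lib.APPS
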