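import Pool.Agent.Lib.APPS.Blue1

/-!
Random walk block RW2, first file: restart property, Green bounds.
-/

namespace Pool.Agent.Lib.APPS

open MeasureTheory ProbabilityTheory Filter Topology Set Metric
open scoped NNReal ENNReal RealInnerProductSpace Classical

noncomputable section

namespace RW2

theorem l2_pos : 0 < l2 := Real.log_pos (by norm_num)

theorem l2_le : l2 ≤ 1 := by
  have := Real.log_le_sub_one_of_pos (show (0 : ℝ) < 2 by norm_num)
  unfold l2; linarith

theorem meas_wk1 (a : ℝ) (b : ℕ → HH) (u : ℝ) (i : ℕ) :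
    Measurable fun ω => wk a b u ω i := by
  unfold wk
  exact ((meas_ev _).add_const _).sub_const _

theorem meas_wk (a : ℝ) (b : ℕ → HH) (u : ℝ) : Measurable fun ω => wk a b u ω :=
  measurable_pi_lambda _ fun i => meas_wk1 a b u i

theorem meas_ind {α : Type*} [MeasurableSpace α] {p : α → Prop} (h : MeasurableSet {x | p x}) :
    Measurable fun x => ind (p x) := by
  unfold ind
  exact Measurable.ite h measurable_const measurable_const

theorem meas_eE : Measurable eE := by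
  unfold eE
  exact ENNReal.measurable_ofReal.comp Real.measurable_exp

theorem ind_le (p : Prop) : ind p ≤ 1 := by
  unfold ind; split_ifs <;> simp

theorem ind_pos {p : Prop} (h : p) : ind p = 1 := by simp [ind, h]

theorem ind_neg {p : Prop} (h : ¬p) : ind p = 0 := by simp [ind, h]

theorem eE_add (x y : ℝ) : eE (x + y) = eE x * eE y := by
  unfold eE
  rw [Real.exp_add, ENNReal.ofReal_mul (Real.exp_pos _).le]

theorem eE_mono {x y : ℝ} (h : x ≤ y) : eE x ≤ eE y :=
  ENNReal.ofReal_le_ofReal (Real.exp_le_exp.2 h)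

theorem eE_zero : eE 0 = 1 := by simp [eE]

theorem eE_ne (x : ℝ) : eE x ≠ ∞ := ENNReal.ofReal_ne_top

theorem one_le_eE {x : ℝ} (h : 0 ≤ x) : 1 ≤ eE x := eE_zero ▸ eE_mono h

theorem eE_le_one {x : ℝ} (h : x ≤ 0) : eE x ≤ 1 := eE_zero ▸ eE_mono h

theorem norm_sq {b : ℕ → HH} {s : ℝ} (h : IsWk b s) (i : ℕ) : ‖b i‖ ^ 2 = s + i * l2 := by
  have := h i i
  rw [real_inner_self_eq_norm_sq] at this
  simpa using this

theorem wk_inc {b : ℕ → HH} {s : ℝ} (h : IsWk b s) (i : ℕ) :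
    IsWk (fun d => b (i + d) - b i) 0 := by
  intro d e
  simp only [inner_sub_left, inner_sub_right]
  rw [h (i + d) (i + e), h (i + d) i, h i (i + e), h i i]
  have e1 : min (i + d) (i + e) = i + min d e := by omega
  have e2 : min (i + d) i = i := by omega
  have e3 : min i (i + e) = i := by omega
  simp only [e1, e2, e3, min_self]
  push_cast
  ring

theorem wk_orth {b : ℕ → HH} {s : ℝ} (h : IsWk b s) (i d : ℕ) :
    ⟪b i, b (i + d) - b i⟫ = 0 := by
  simp only [inner_sub_right]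
  rw [h i (i + d), h i i]
  have e3 : min i (i + d) = i := by omega
  simp only [e3, min_self, sub_self]

theorem wk_succ {b : ℕ → HH} {s : ℝ} (h : IsWk b s) : IsWk (fun d => b (d + 1)) (s + l2) := by
  intro d e
  simp only
  rw [h (d + 1) (e + 1)]
  have e1 : min (d + 1) (e + 1) = min d e + 1 := by omega
  simp only [e1]
  push_cast
  ring

theorem wk_zero {b : ℕ → HH} (h : IsWk b 0) (a w : ℝ) (ω : Om) : wk a b w ω 0 = w := by
  have := norm_sq h 0
  have h0 : b 0 = 0 := by simpa using this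
  simp [wk, h0]

theorem swap (f : ℕ → ℕ → ℝ≥0∞) :
    ∑' k, ∑ i ∈ Finset.range (k + 1), f i k = ∑' i, ∑' d, f i (i + d) := by
  have h1 : ∀ k, ∑ i ∈ Finset.range (k + 1), f i k = ∑' i, if i ≤ k then f i k else 0 := by
    intro k
    rw [tsum_eq_sum (s := Finset.range (k + 1))]
    · refine Finset.sum_congr rfl fun i hi => ?_
      rw [if_pos (by simpa [Nat.lt_succ_iff] using hi)]
    · intro i hi
      rw [if_neg (by simpa [Nat.lt_succ_iff] using hi)]
  simp only [h1]
  rw [ENNReal.tsum_comm]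
  refine tsum_congr fun i => ?_
  rw [← Function.Injective.tsum_eq (g := fun d => i + d) (add_right_injective i)]
  · refine tsum_congr fun d => ?_
    rw [if_pos (by omega)]
  · intro k hk
    have : i ≤ k := by
      by_contra hc
      exact hk (if_neg hc)
    exact ⟨k - i, by simp; omega⟩

theorem shift (d : ℕ) (f : ℕ → ℝ≥0∞) : ∑' k, ind (d ≤ k) * f k = ∑' e, f (d + e) := by
  rw [← Function.Injective.tsum_eq (g := fun e => d + e) (add_right_injective d)]
  · refine tsum_congr fun e => ?_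
    rw [ind_pos (by omega), one_mul]
  · intro k hk
    have : d ≤ k := by
      by_contra hc
      exact hk (by simp [ind_neg hc])
    exact ⟨k - d, by simp; omega⟩

/-- restart property at time `i` -/
theorem restart (h1 : St_G1) (h3 : St_G3) {a s u : ℝ} {b : ℕ → HH} (hb : IsWk b s) (i : ℕ)
    {Φ : (ℕ → ℝ) → ℝ≥0∞} (hΦ : Measurable Φ) {φ : ℝ → ℝ≥0∞} (hφ : Measurable φ)
    (h : ∀ b0, IsWk b0 0 → ∀ w, ∫⁻ ω, Φ (wk a b0 w ω) ∂gm ≤ φ w) :
    ∫⁻ ω, Φ (fun j => wk a b u ω (i + j)) ∂gm ≤ ∫⁻ ω, φ (wk a b u ω i) ∂gm := by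
  have := h1.1
  have hI := h3.2.2.2.2.1 Unit ℕ (fun _ => b i) (fun d => b (i + d) - b i)
    (fun _ d => wk_orth hb i d)
  set X : Om → Unit → ℝ := fun ω _ => ω (b i) with hX
  set Y : Om → ℕ → ℝ := fun ω d => ω (b (i + d) - b i) with hY
  have mX : Measurable X := measurable_pi_lambda _ fun _ => meas_ev _
  have mY : Measurable Y := measurable_pi_lambda _ fun _ => meas_ev _
  set H : (Unit → ℝ) × (ℕ → ℝ) → ℝ≥0∞ :=
    fun p => Φ fun d => p.2 d + (p.1 () + u - a * i * l2) - a * d * l2 with hH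
  have mH : Measurable H := by
    refine hΦ.comp (measurable_pi_lambda _ fun d => ?_)
    fun_prop
  have e1 : ∀ ω, Φ (fun j => wk a b u ω (i + j)) = H (X ω, Y ω) := by
    intro ω
    simp only [hH, hX, hY]
    congr 1
    funext d
    simp only [wk, map_sub]
    push_cast
    ring
  have hp := (indepFun_iff_map_prod_eq_prod_map_map mX.aemeasurable mY.aemeasurable).1 hI
  simp only [e1]
  rw [← lintegral_map mH (mX.prodMk mY), hp, lintegral_prod _ mH.aemeasurable]
  have m2 : Measurable fun x : Unit → ℝ => φ (x () + u - a * i * l2) := by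
    refine hφ.comp ?_
    fun_prop
  calc ∫⁻ x, ∫⁻ y, H (x, y) ∂gm.map Y ∂gm.map X
      ≤ ∫⁻ x, φ (x () + u - a * i * l2) ∂gm.map X := by
        refine lintegral_mono fun x => ?_
        rw [lintegral_map (f := fun y => H (x, y)) (mH.comp measurable_prodMk_left) mY]
        exact h _ (wk_inc hb i) _
    _ = _ := by
        rw [lintegral_map m2 mX]
        rfl

theorem restart' (h1 : St_G1) (h3 : St_G3) {a s u : ℝ} {b : ℕ → HH} (hb : IsWk b s) (i : ℕ)
    {Φ : ℕ → (ℕ → ℝ) → ℝ≥0∞} (hΦ : ∀ d, Measurable (Φ d)) {φ : ℝ → ℝ≥0∞} (hφ : Measurable φ)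
    (h : ∀ b0, IsWk b0 0 → ∀ w, ∑' d, ∫⁻ ω, Φ d (wk a b0 w ω) ∂gm ≤ φ w) :
    ∑' d, ∫⁻ ω, Φ d (fun j => wk a b u ω (i + j)) ∂gm ≤ ∫⁻ ω, φ (wk a b u ω i) ∂gm := by
  have m1 : Measurable fun ω => fun j => wk a b u ω (i + j) :=
    measurable_pi_lambda _ fun j => meas_wk1 _ _ _ _
  rw [← lintegral_tsum (f := fun d ω => Φ d fun j => wk a b u ω (i + j))
    fun d => ((hΦ d).comp m1).aemeasurable]
  refine restart h1 h3 hb i (Φ := fun x => ∑' d, Φ d x) (Measurable.tsum hΦ) hφ ?_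
  intro b0 h0 w
  rw [lintegral_tsum (f := fun d ω => Φ d (wk a b0 w ω))
    fun d => ((hΦ d).comp (meas_wk a b0 w)).aemeasurable]
  exact h b0 h0 w

theorem mgf (hD : St_G1D) {a s u : ℝ} {b : ℕ → HH} (hb : IsWk b s) (k : ℕ) (lam M : ℝ) :
    ∫⁻ ω, eE (lam * wk a b u ω k + M) ∂gm =
      eE (lam * (u - a * k * l2) + M + lam ^ 2 * (s + k * l2) / 2) := by
  have e1 : ∀ ω : Om, eE (lam * wk a b u ω k + M) =
      eE (lam * (u - a * k * l2) + M) * eE (ω (lam • b k)) := by
    intro ω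
    rw [← eE_add]
    congr 1
    simp only [wk, map_smul, smul_eq_mul]
    ring
  simp only [e1]
  rw [lintegral_const_mul' _ _ (eE_ne _), hD.1, ← eE_add, norm_smul, mul_pow,
    norm_sq hb, Real.norm_eq_abs, sq_abs]

theorem green (hD : St_G1D) (hR : St_RW1) {a : ℝ} (ha : 0 < a) :
    ∃ C : ℝ≥0∞, C ≠ ∞ ∧ ∀ (b : ℕ → HH) (s u : ℝ), l2 ≤ s → IsWk b s →
      ∀ φ : ℝ → ℝ≥0∞, Measurable φ → ∑' i, ∫⁻ ω, φ (wk a b u ω i) ∂gm ≤
        C * ∫⁻ x, ENNReal.ofReal (min 1 (Real.exp (-(2 * a) * (x - u - a * s)))) * φ x := by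
  obtain ⟨C, hC⟩ := hR.1 a ha l2 l2_pos
  refine ⟨ENNReal.ofReal C, ENNReal.ofReal_ne_top, fun b s u hs hb φ hφ => ?_⟩
  have mp : ∀ v, Measurable (pd v) := by
    intro v; unfold pd; fun_prop
  have e1 : ∀ i : ℕ, ∫⁻ ω, φ (wk a b u ω i) ∂gm =
      ∫⁻ x, ENNReal.ofReal (pd (s + i * l2) (x - u + a * i * l2)) * φ x := by
    intro i
    have hn : b i ≠ 0 := by
      intro h0
      have := norm_sq hb i
      rw [h0] at this
      have h2 : 0 ≤ (i : ℝ) * l2 := mul_nonneg (Nat.cast_nonneg _) l2_pos.le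
      simp at this
      linarith [l2_pos]
    have := hD.2.2.2.1 (b i) (fun t => φ (t + u - a * i * l2)) hn (hφ.comp (by fun_prop))
    simp only [wk]
    rw [this, norm_sq hb,
      ← lintegral_add_right_eq_self (fun x => ENNReal.ofReal (pd (s + i * l2)
        (x - u + a * i * l2)) * φ x) (u - a * i * l2)]
    refine lintegral_congr fun x => ?_
    congr 3 <;> ring
  simp only [e1]
  rw [← lintegral_tsum, ← lintegral_const_mul' _ _ ENNReal.ofReal_ne_top]
  · refine lintegral_mono fun x => ?_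
    rw [ENNReal.tsum_mul_right, ← mul_assoc]
    gcongr
    refine (hC s hs (x - u)).1.trans ?_
    rw [mul_comm C, ENNReal.ofReal_mul (le_min zero_le_one (Real.exp_pos _).le), mul_comm]
  · intro i
    refine (Measurable.mul (ENNReal.measurable_ofReal.comp ((mp _).comp ?_)) hφ).aemeasurable
    fun_prop

theorem green0 {a : ℝ} {C : ℝ≥0∞} (h1 : St_G1)
    (hC : ∀ (b : ℕ → HH) (s u : ℝ), l2 ≤ s → IsWk b s →
      ∀ φ : ℝ → ℝ≥0∞, Measurable φ → ∑' i, ∫⁻ ω, φ (wk a b u ω i) ∂gm ≤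
        C * ∫⁻ x, ENNReal.ofReal (min 1 (Real.exp (-(2 * a) * (x - u - a * s)))) * φ x)
    (b : ℕ → HH) (s u : ℝ) (hs : 0 ≤ s) (hb : IsWk b s) (φ : ℝ → ℝ≥0∞) (hφ : Measurable φ)
    (h : ∀ x, φ x ≤ 1) : ∑' i, ∫⁻ ω, φ (wk a b u ω i) ∂gm ≤ 1 + C * ∫⁻ x, φ x := by
  have := h1.1
  rw [tsum_eq_zero_add' ENNReal.summable]
  refine add_le_add ?_ ?_
  · calc ∫⁻ ω, φ (wk a b u ω 0) ∂gm ≤ ∫⁻ _, 1 ∂gm := lintegral_mono fun ω => h _
      _ = 1 := by simp
  · have := hC (fun d => b (d + 1)) (s + l2) (u - a * l2) (by linarith) (wk_succ hb) φ hφ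
    refine le_trans (le_of_eq ?_) (this.trans ?_)
    · refine tsum_congr fun i => lintegral_congr fun ω => ?_
      congr 1
      simp only [wk]
      push_cast
      ring
    · gcongr with x
      calc _ ≤ 1 * φ x := by
            gcongr
            exact ENNReal.ofReal_le_one.2 (min_le_left _ _)
        _ = _ := one_mul _

theorem lap_fin {lam : ℝ} (h : 0 < lam) : ∫⁻ x : ℝ, eE (-lam * |x|) ≠ ∞ := by
  have hi : Integrable fun x : ℝ => Real.exp (-lam * |x|) := by
    rw [← integrableOn_univ, ← Iic_union_Ioi (a := (0 : ℝ))]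
    refine IntegrableOn.union ?_ ?_
    · refine (integrableOn_exp_mul_Iic h 0).congr_fun (fun x hx => ?_) measurableSet_Iic
      simp only
      rw [abs_of_nonpos hx]; congr 1; ring
    · refine (integrableOn_exp_mul_Ioi (neg_lt_zero.2 h) 0).congr_fun (fun x hx => ?_)
        measurableSet_Ioi
      simp only
      rw [abs_of_pos hx]
  exact hi.lintegral_lt_top.ne

theorem geo_fin {ρ : ℝ} (h : 0 < ρ) : ∑' k : ℕ, eE (-ρ * k) ≠ ∞ := by
  have hs : Summable fun k : ℕ => Real.exp (-ρ * k) := by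
    have := (Real.summable_exp_nat_mul_iff (a := -ρ)).2 (neg_lt_zero.2 h)
    simpa only [mul_comm] using this
  unfold eE
  rw [← ENNReal.ofReal_tsum_of_nonneg (fun k => (Real.exp_pos _).le) hs]
  exact ENNReal.ofReal_ne_top

theorem conv {C : ℝ≥0∞} (hC : C ≠ ∞) {C' x y : ℝ} (h : C.toReal ≤ C') (hxy : x ≤ y) :
    C * eE x ≤ ENNReal.ofReal (C' * Real.exp y) := by
  rw [ENNReal.ofReal_mul (ENNReal.toReal_nonneg.trans h)]
  refine mul_le_mul' ?_ (eE_mono hxy)
  rw [← ENNReal.ofReal_toReal hC]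
  exact ENNReal.ofReal_le_ofReal h

end RW2

end

end Pool.Agent.Lib.APPS
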