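import Pool.Agent.Lib.APPS.Blue5
import Pool.Agent.Lib.APPS.B_RW2a

/-!
Block BATH: bathtub bound for the weighted number of children below a threshold.
-/

namespace Pool.Agent.Lib.APPS

open MeasureTheory ProbabilityTheory Filter Topology Set Metric
open scoped NNReal ENNReal RealInnerProductSpace Classical

noncomputable section

namespace BATH

open RW2

theorem imono {p r : Prop} (h : p → r) : ind p ≤ ind r := by
  by_cases hp : p
  · rw [ind_pos hp, ind_pos (h hp)]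
  · rw [ind_neg hp]; exact zero_le

theorem box_ball (T : Dy) : box T ⊆ closedBall 0 (2 * ‖corner T‖ + 2) := by
  intro z ⟨⟨a1, a2⟩, a3, a4⟩
  have s1 : side T ≤ 1 := pow_le_one₀ (by norm_num) (by norm_num)
  have b1 := abs_le.1 (Complex.abs_re_le_norm (corner T))
  have b2 := abs_le.1 (Complex.abs_im_le_norm (corner T))
  have c1 : |z.re| ≤ ‖corner T‖ + 1 := abs_le.2 ⟨by linarith, by linarith⟩
  have c2 : |z.im| ≤ ‖corner T‖ + 1 := abs_le.2 ⟨by linarith, by linarith⟩
  rw [mem_closedBall_zero_iff]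
  linarith [Complex.norm_le_abs_re_add_abs_im z]

theorem ks (hM0 : St_M0) (hMOD : St_MOD) (T : Dy) : kS T T = kS [] [] + T.length * l2 := by
  obtain ⟨M⟩ := hM0
  obtain ⟨-, -, -, -, -, -, -, -, -, -, -, h, -⟩ := hMOD M
  have hr : 0 < 2 * ‖corner T‖ + 2 := by positivity
  have e1 := h 0 _ T hr (box_ball T) [] []
  have e2 := h 0 _ [] hr ((box_ball []).trans (closedBall_subset_closedBall (by
    simp [corner]))) T T
  simp only [List.nil_append, List.append_nil, covE, List.length_nil, Nat.cast_zero] at e1 e2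
  linarith

theorem split (f : Dy → ℝ≥0∞) :
    ∑' A, f A = f [] + ∑' P : Dy, ∑ d : Fin 2 × Fin 2, f (d :: P) := by
  rw [ENNReal.tsum_eq_add_tsum_ite ([] : Dy)]
  congr 1
  have hi : Function.Injective fun q : Dy × (Fin 2 × Fin 2) => (q.2 :: q.1 : Dy) := by
    rintro ⟨P, d⟩ ⟨P', d'⟩ h
    simp only [List.cons.injEq] at h
    rw [h.1, h.2]
  rw [← hi.tsum_eq, ENNReal.tsum_prod']
  · simp [tsum_fintype]
  · rintro (_ | ⟨d, P⟩) h
    · simp at h
    · exact ⟨(P, d), rfl⟩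

def rr (γ w : ℝ) : ℝ := -(2 / γ) * Real.log w

theorem pt {γ β Δ : ℝ} (hγ : 0 < γ) (hβ : γ / 2 ≤ β) (hΔ : 0 ≤ Δ) (p : Prop) (t : ℝ) :
    ind (p ∧ t ≤ Δ) * eE (β * (t - Δ)) + ind (p ∧ 0 < t + -Δ) ≤
      ENNReal.ofReal (1 - Real.exp (-γ * Δ / 2)) * ind (p ∧ 0 < t + 0) +
      ENNReal.ofReal (Real.exp (-γ * Δ / 2) / 2) * ind p +
      ENNReal.ofReal (Real.exp (-γ * Δ / 2)) *
        ∫⁻ w in Ioo (1 / 2 : ℝ) 1, ind (p ∧ 0 < t + rr γ w) := by
  by_cases hp : p
  swap
  · rw [ind_neg fun h => hp h.1, ind_neg fun h => hp h.1, zero_mul, zero_add]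
    exact zero_le
  simp only [hp, true_and, ind_pos trivial, mul_one, add_zero]
  set a := Real.exp (-γ * Δ / 2) with ha
  have a0 : 0 < a := Real.exp_pos _
  have a1 : a ≤ 1 := Real.exp_le_one_iff.2 (by nlinarith)
  have g : ∀ y ≤ 1, y ≤ Real.exp (γ * t / 2) →
      ENNReal.ofReal (y - 1 / 2) ≤ ∫⁻ w in Ioo (1 / 2 : ℝ) 1, ind (0 < t + rr γ w) := by
    intro y h1 h2
    rw [← Real.volume_Ioo, ← setLIntegral_one]
    refine le_trans (setLIntegral_mono' measurableSet_Ioo fun w hw => (ind_pos ?_).ge)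
      (lintegral_mono_set (Ioo_subset_Ioo_right h1))
    have h3 := (Real.log_lt_iff_lt_exp (by linarith [hw.1])).2 (hw.2.trans_le h2)
    have h4 := mul_lt_mul_of_pos_left h3 (show 0 < 2 / γ by positivity)
    have h5 : 2 / γ * (γ * t / 2) = t := by field_simp
    unfold rr
    linarith
  rcases lt_or_ge 0 t with ht | ht
  · have g1 := g 1 le_rfl (Real.one_le_exp (by positivity))
    rw [ind_pos ht, mul_one]
    refine le_trans ?_ (add_le_add le_rfl (mul_le_mul' le_rfl g1))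
    rw [← ENNReal.ofReal_mul a0.le, ← ENNReal.ofReal_add (by linarith) (by linarith),
      ← ENNReal.ofReal_add (by linarith) (by positivity),
      show 1 - a + a / 2 + a * (1 - 1 / 2) = 1 by ring, ENNReal.ofReal_one]
    rcases le_or_gt t Δ with h | h
    · rw [ind_pos h, ind_neg (by linarith), one_mul, add_zero]
      exact eE_le_one (by nlinarith)
    · rw [ind_neg h.not_ge, zero_mul, zero_add]
      exact ind_le _
  · have g1 := g _ (Real.exp_le_one_iff.2 (by nlinarith)) le_rfl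
    rw [ind_pos (ht.trans hΔ), ind_neg (by linarith), ind_neg ht.not_gt, one_mul, add_zero,
      mul_zero, zero_add]
    refine le_trans ?_ (add_le_add le_rfl (mul_le_mul' le_rfl g1))
    rw [← ENNReal.ofReal_mul a0.le]
    refine le_trans (ENNReal.ofReal_le_ofReal ?_) ENNReal.ofReal_add_le
    rw [show a / 2 + a * (Real.exp (γ * t / 2) - 1 / 2) = a * Real.exp (γ * t / 2) by ring, ha,
      ← Real.exp_add]
    exact Real.exp_le_exp.2 (by nlinarith)

theorem meas_rr (γ : ℝ) : Measurable (rr γ) := Real.measurable_log.const_mul _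

def AA (x : Dy → ℝ) (r : ℝ) : ℝ≥0∞ :=
  ∑' P : Dy, ∑ d : Fin 2 × Fin 2, ind (IntN x P ∧ 0 < x (d :: P) + r)

theorem AA_le (x : Dy → ℝ) {r : ℝ} (hr : 0 ≤ r) : AA x r ≤ nB (sh x r) := by
  rw [nB, split]
  refine le_add_left (ENNReal.tsum_le_tsum fun P => Finset.sum_le_sum fun d _ =>
    imono fun h B hB => ?_)
  rcases List.suffix_cons_iff.1 hB with rfl | hB
  · exact h.2
  · exact add_pos_of_pos_of_nonneg (h.1 B hB) hr

theorem le_AA (x : Dy → ℝ) {r : ℝ} (hr : r ≤ 0) : nB (sh x r) ≤ 1 + AA x r := by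
  rw [nB, split]
  refine add_le_add (ind_le _) (ENNReal.tsum_le_tsum fun P => Finset.sum_le_sum fun d _ =>
    imono fun h => ⟨fun B hB => ?_, h _ List.suffix_rfl⟩)
  have : 0 < x B + r := h B (hB.trans (List.suffix_cons d P))
  linarith

theorem cfg {γ β Δ : ℝ} (hγ : 0 < γ) (hβ : γ / 2 ≤ β) (hΔ : 0 ≤ Δ) (x : Dy → ℝ) :
    ∑' P : Dy, ∑ d : Fin 2 × Fin 2, ind (IntN x P ∧ x (d :: P) ≤ Δ) * eE (β * (x (d :: P) - Δ)) +
      nB (sh x (-Δ)) ≤ 1 + (ENNReal.ofReal (1 + Real.exp (-γ * Δ / 2)) * nB x +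
      ENNReal.ofReal (Real.exp (-γ * Δ / 2)) *
        ∫⁻ w in Ioo (1 / 2 : ℝ) 1, nB (sh x (rr γ w))) := by
  have h := fun P d => pt hγ hβ hΔ (IntN x P) (x (d :: P))
  set a := Real.exp (-γ * Δ / 2) with ha
  have a0 : 0 < a := Real.exp_pos _
  have a1 : a ≤ 1 := Real.exp_le_one_iff.2 (by nlinarith)
  have m : ∀ (P : Dy) (d : Fin 2 × Fin 2),
      Measurable fun w => ind (IntN x P ∧ 0 < x (d :: P) + rr γ w) := fun P d =>
    meas_ind ((MeasurableSet.const _).inter
      (measurableSet_lt measurable_const ((meas_rr γ).const_add _)))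
  refine (add_le_add le_rfl (le_AA x (by linarith))).trans ?_
  rw [add_left_comm, AA, ← ENNReal.tsum_add]
  simp only [← Finset.sum_add_distrib]
  refine add_le_add le_rfl ((ENNReal.tsum_le_tsum fun P =>
    Finset.sum_le_sum fun d _ => h P d).trans ?_)
  simp only [Finset.sum_add_distrib, ← Finset.mul_sum, ENNReal.tsum_add, ENNReal.tsum_mul_left]
  refine add_le_add ?_ (mul_le_mul' le_rfl ?_)
  · have e0 : sh x 0 = x := funext fun S => add_zero _
    have e1 := AA_le x le_rfl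
    rw [e0] at e1
    simp only [Finset.sum_const, Finset.card_univ, Fintype.card_prod, Fintype.card_fin,
      nsmul_eq_mul, ENNReal.tsum_mul_left]
    refine (add_le_add (mul_le_mul' le_rfl e1) le_rfl).trans (le_of_eq ?_)
    rw [← mul_assoc, ← ENNReal.ofReal_natCast, ← ENNReal.ofReal_mul (by linarith), nB, ← add_mul,
      ← ENNReal.ofReal_add (by linarith) (by positivity)]
    congr 2
    push_cast
    ring
  · simp only [fun P => (lintegral_finsetSum (μ := volume.restrict (Ioo (1 / 2 : ℝ) 1))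
      Finset.univ fun d _ => m P d).symm]
    rw [← lintegral_tsum fun P => (Finset.measurable_sum _ fun d _ => m P d).aemeasurable]
    refine setLIntegral_mono' measurableSet_Ioo fun w hw => AA_le x ?_
    have := Real.log_nonpos (by linarith [hw.1]) hw.2.le
    exact mul_nonneg_of_nonpos_of_nonpos (neg_nonpos.2 (by positivity)) this

theorem i1 : ∫⁻ w in Ioo (1 / 2 : ℝ) 1, ENNReal.ofReal (w ^ (-2 : ℤ)) = 1 := by
  have h0 : (0 : ℝ) ∉ uIcc (1 / 2 : ℝ) 1 := by
    rw [uIcc_of_le (by norm_num)]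
    exact fun h => by linarith [h.1]
  have hi : IntervalIntegrable (fun w : ℝ => w ^ (-2 : ℤ)) volume (1 / 2) 1 :=
    intervalIntegral.intervalIntegrable_zpow (Or.inr h0)
  rw [← ofReal_integral_eq_lintegral_ofReal
    ((intervalIntegrable_iff_integrableOn_Ioo_of_le (by norm_num)).1 hi)
    (Eventually.of_forall fun w => (show Even (-2 : ℤ) by decide).zpow_nonneg w),
    ← integral_Ioc_eq_integral_Ioo, ← intervalIntegral.integral_of_le (by norm_num),
    integral_zpow (Or.inr ⟨by norm_num, h0⟩)]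
  norm_num

theorem mX (γ : ℝ) (v : Dy → HH) (u : ℝ) : Measurable (XV γ v u) :=
  measurable_pi_lambda _ fun _ => ((meas_ev _).add_const _).sub_const _

theorem nn (hM0 : St_M0) (hMOD : St_MOD) (hT1 : St_T1) (hT3 : St_T3) (hFM : St_FM) (hR : St_R)
    {γ : ℝ} (hγ : γ ∈ Ioo (0 : ℝ) 2) {C : ℝ} (hC : 0 ≤ C) {v : Dy → HH} (hv : Gram v (covE C))
    {ε : ℝ} (hε : 0 < ε) : ∃ u1 : ℝ, ∀ u ≥ u1,
      ENNReal.ofReal ((cc γ one - ε) * Real.exp (γ * u + γ ^ 2 * C / 2)) ≤
        ∫⁻ ω, nB (XV γ v u ω) ∂gm ∧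
      ∫⁻ ω, nB (XV γ v u ω) ∂gm ≤
        ENNReal.ofReal ((cc γ one + ε) * Real.exp (γ * u + γ ^ 2 * C / 2)) := by
  obtain ⟨hi, hl⟩ := (hR γ hγ).1 one ⟨measurable_const, 1, fun _ => ⟨zero_le_one, le_rfl⟩⟩ C hC v hv
  obtain ⟨K, c, -, hK⟩ := (hFM γ hγ).1
  have e : ∀ u, ∫⁻ ω, nB (XV γ v u ω) ∂gm =
      ENNReal.ofReal (∫ ω, SR one (XV γ v u ω) [] ∂gm) := by
    intro u
    have h1 := (hK (C + |kS [] []|) (by positivity) v (fun S => by
      rw [← real_inner_self_eq_norm_sq, hv S S, covE, ks hM0 hMOD S]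
      linarith [le_abs_self (kS [] [])]) u).1
    have ms : ∀ A, MeasurableSet {ω | IntN (XV γ v u ω) A} := fun A => mX γ v u (hT3.2.1 A).1
    have h2 : ∫⁻ ω, nB (XV γ v u ω) ∂gm ≠ ∞ := by
      refine ne_top_of_le_ne_top ENNReal.ofReal_ne_top (le_trans ?_ h1)
      unfold nB
      rw [lintegral_tsum fun A => (meas_ind (ms A)).aemeasurable]
      refine ENNReal.tsum_le_tsum fun A => le_trans (le_of_eq ?_)
        (measure_mono (s := {ω | IntN (XV γ v u ω) A}) fun ω h => h A List.suffix_rfl)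
      rw [← lintegral_indicator_one (ms A)]
      refine lintegral_congr fun ω => ?_
      by_cases h : IntN (XV γ v u ω) A <;> simp [ind, h]
    rw [ofReal_integral_eq_lintegral_ofReal (hi u)
      (Eventually.of_forall fun ω => Finset.sum_nonneg fun _ _ => zero_le_one)]
    refine lintegral_congr_ae ?_
    filter_upwards [ae_lt_top (hT3.1.comp (mX γ v u)) h2] with ω h
    obtain ⟨-, -, -, -, -, -, -, -, -, -, -, t2, t3, -⟩ := hT1
    rw [(t2 _ _ (t3 _ h.ne)).2.2.1]
    simp [SR, one]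
  have hE := Real.exp_pos (γ ^ 2 * C / 2)
  obtain ⟨u1, h⟩ := eventually_atTop.1 (Metric.tendsto_nhds.1 hl _ (mul_pos hε hE))
  refine ⟨u1, fun u hu => ?_⟩
  have h1 := abs_lt.1 (h u hu)
  have h2 := Real.exp_pos (γ * u)
  have h3 : Real.exp (γ * u) * Real.exp (-γ * u) = 1 := by
    rw [← Real.exp_add]; simp
  rw [e, Real.exp_add]
  set I := ∫ ω, SR one (XV γ v u ω) [] ∂gm
  have h4 : I = Real.exp (γ * u) * (Real.exp (-γ * u) * I) := by rw [← mul_assoc, h3, one_mul]
  have h5 := mul_lt_mul_of_pos_left h1.1 h2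
  have h6 := mul_lt_mul_of_pos_left h1.2 h2
  constructor <;> refine ENNReal.ofReal_le_ofReal ?_ <;> nlinarith

theorem cancel {L : ℝ≥0∞} {p q s : ℝ} (h : L + ENNReal.ofReal p ≤ ENNReal.ofReal q)
    (hp : 0 ≤ p) (hs : q - p ≤ s) : L ≤ ENNReal.ofReal s := by
  refine le_trans ?_ (ENNReal.ofReal_le_ofReal hs)
  rw [ENNReal.ofReal_sub _ hp]
  exact ENNReal.le_sub_of_add_le_right ENNReal.ofReal_ne_top h

end BATH

open BATH RW2 in
theorem blk_BATH (hG1 : St_G1) (hM0 : St_M0) (hMOD : St_MOD) (hT1 : St_T1) (hT3 : St_T3)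
    (hRW1 : St_RW1) (hFM : St_FM) (hR : St_R) : St_BATH := by
  intro γ hγ C hC v hv Δm η hη
  have := hG1.1
  have hc := (hR γ hγ).2.2.2.2.2.2
  obtain ⟨-, hQ, -, -, hγQ, -⟩ := hRW1.2.2 γ hγ
  have hβ : γ / 2 ≤ bt γ := by
    rw [bt, div_le_div_iff₀ two_pos (by linarith)]
    nlinarith [hγ.1, hγ.2]
  set ε := min (η / 5) (cc γ one) with hε
  have ε0 : 0 < ε := lt_min (by linarith) hc
  have ε1 : ε ≤ η / 5 := min_le_left _ _
  have ε2 : ε ≤ cc γ one := min_le_right _ _
  obtain ⟨u1, h⟩ := nn hM0 hMOD hT1 hT3 hFM hR hγ hC hv ε0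
  refine ⟨max (u1 + Δm) (ε⁻¹ / γ), fun u hu Δ hΔ => ?_⟩
  have hu1 : u1 + Δm ≤ u := (le_max_left _ _).trans hu
  have hu2 : ε⁻¹ ≤ u * γ := (div_le_iff₀ hγ.1).1 ((le_max_right _ _).trans hu)
  set Z := Real.exp (γ * u + γ ^ 2 * C / 2) with hZ
  set a := Real.exp (-γ * Δ / 2) with ha
  have a0 : 0 < a := Real.exp_pos _
  have a1 : a ≤ 1 := Real.exp_le_one_iff.2 (by nlinarith [hγ.1, hΔ.1])
  have Z0 : 0 < Z := Real.exp_pos _
  have Z1 : 1 ≤ ε * Z := by
    have b1 := Real.add_one_le_exp (γ * u + γ ^ 2 * C / 2)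
    have b2 : 0 ≤ γ ^ 2 * C / 2 := by positivity
    rw [← mul_inv_cancel₀ ε0.ne']
    exact mul_le_mul_of_nonneg_left (by linarith) ε0.le
  have es : ∀ r ω, sh (XV γ v u ω) r = XV γ v (u + r) ω := fun r ω => funext fun S => by
    simp only [sh, XV, drift]; ring
  have m : ∀ (P : Dy) (d : Fin 2 × Fin 2), Measurable fun ω =>
      ind (IntN (XV γ v u ω) P ∧ XV γ v u ω (d :: P) ≤ Δ) *
        eE (bt γ * (XV γ v u ω (d :: P) - Δ)) := fun P d => by
    have b := (measurable_pi_apply (d :: P)).comp (mX γ v u)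
    exact (meas_ind ((mX γ v u (hT3.2.1 P).1).inter (measurableSet_le b measurable_const))).mul
      (meas_eE.comp ((b.sub_const _).const_mul _))
  have mj : Measurable fun q : Om × ℝ => nB (XV γ v (u + rr γ q.2) q.1) :=
    hT3.1.comp (measurable_pi_lambda _ fun S => (((meas_ev _).comp measurable_fst).add
      (((meas_rr γ).comp measurable_snd).const_add _)).sub_const _)
  have key := lintegral_mono (μ := gm) fun ω => cfg hγ.1 hβ hΔ.1 (XV γ v u ω)
  simp only [es, ← ha] at key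
  have mn : ∀ u, Measurable fun ω => nB (XV γ v u ω) := fun u => hT3.1.comp (mX γ v u)
  rw [lintegral_add_right _ (mn _), lintegral_add_left measurable_const,
    lintegral_add_left ((mn u).const_mul _),
    lintegral_const_mul' _ _ ENNReal.ofReal_ne_top, lintegral_const_mul' _ _ ENNReal.ofReal_ne_top,
    lintegral_lintegral_swap mj.aemeasurable,
    lintegral_tsum fun P => (Finset.measurable_sum _ fun d _ => m P d).aemeasurable] at key
  simp only [fun P => lintegral_finsetSum (μ := gm) Finset.univ fun d _ => m P d, lintegral_const,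
    measure_univ, mul_one] at key
  have b1 := (h (u + -Δ) (by linarith [hΔ.2])).1
  have b2 := (h u (by linarith [hΔ.1, hΔ.2])).2
  have b3 : ∫⁻ w in Ioo (1 / 2 : ℝ) 1, ∫⁻ ω, nB (XV γ v (u + rr γ w) ω) ∂gm ≤
      ENNReal.ofReal ((cc γ one + ε) * Z) := by
    rw [← mul_one (ENNReal.ofReal _), ← i1, ← lintegral_const_mul' _ _ ENNReal.ofReal_ne_top]
    refine setLIntegral_mono' measurableSet_Ioo fun w hw => ?_
    have w0 : 0 < w := by linarith [hw.1]
    have r0 : 0 ≤ rr γ w := mul_nonneg_of_nonpos_of_nonpos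
      (neg_nonpos.2 (div_pos two_pos hγ.1).le) (Real.log_nonpos w0.le hw.2.le)
    refine (h _ (by linarith [hΔ.1, hΔ.2])).2.trans (le_of_eq ?_)
    rw [← ENNReal.ofReal_mul (by positivity), mul_assoc, hZ, ← Real.exp_log (zpow_pos w0 _),
      ← Real.exp_add, Real.log_zpow]
    congr 3
    have := hγ.1.ne'
    unfold rr
    push_cast
    field_simp
    ring
  have e1 : Real.exp (γ * (u + -Δ) + γ ^ 2 * C / 2) = Z * a ^ 2 := by
    rw [hZ, ha, pow_two (Real.exp _), ← Real.exp_add, ← Real.exp_add]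
    congr 1
    ring
  rw [e1] at b1
  have fin := (add_le_add le_rfl b1).trans (key.trans (add_le_add le_rfl
    (add_le_add (mul_le_mul' le_rfl b2) (mul_le_mul' le_rfl b3))))
  rw [← ENNReal.ofReal_mul (by positivity), ← ENNReal.ofReal_mul (by positivity),
    ← ENNReal.ofReal_add (by positivity) (by positivity), ← ENNReal.ofReal_one,
    ← ENNReal.ofReal_add (by positivity) (by positivity)] at fin
  refine cancel fin (mul_nonneg (by linarith) (by positivity)) ?_
  have c1 : 0 ≤ cc γ one * Z * (1 - a) ^ 2 := by positivity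
  have c2 : ε * Z * (2 * a + a ^ 2) ≤ ε * Z * 3 :=
    mul_le_mul_of_nonneg_left (by nlinarith) (by positivity)
  have c3 := mul_le_mul_of_nonneg_right ε1 Z0.le
  nlinarith

end

end Pool.Agent.Lib.APPS
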