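import Pool.Agent.Lib.APPS.Blue3

/-!
Block BM2: basic facts on the two-sided Brownian motion.
-/

namespace Pool.Agent.Lib.APPS

open MeasureTheory ProbabilityTheory Filter Topology Set Metric
open scoped NNReal ENNReal CompactlySupported BoundedContinuousFunction RealInnerProductSpace
  Classical

noncomputable section

namespace BM2

theorem twoS_pos (p : PP) {t : ℝ} (h : 0 ≤ t) : twoS p t = p.1 t.toNNReal := by
  simp [twoS, h]

theorem twoS_neg (p : PP) {t : ℝ} (h : ¬ 0 ≤ t) : twoS p t = p.2 (-t).toNNReal := by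
  simp [twoS, h]

theorem meas_twoS : Measurable twoS := by
  refine measurable_pi_lambda _ fun t => ?_
  by_cases h : 0 ≤ t
  · simp only [twoS, h, if_true]
    exact (measurable_pi_apply _).comp measurable_fst
  · simp only [twoS, h, if_false]
    exact (measurable_pi_apply _).comp measurable_snd

theorem meas_ydr (a : ℝ) : Measurable (ydr a) := by
  refine measurable_pi_lambda _ fun t => ?_
  exact ((measurable_pi_apply t).comp meas_twoS).sub measurable_const

theorem meas_sInf {α : Type} [MeasurableSpace α] (p : α → ℕ → Prop)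
    (hp : ∀ i, MeasurableSet {x | p x i}) : Measurable fun x => sInf {i | p x i} := by
  refine measurable_to_countable' fun n => ?_
  have : (fun x => sInf {i | p x i}) ⁻¹' {n} =
      ({x | p x n} ∩ ⋂ m, ⋂ (_ : m < n), {x | p x m}ᶜ) ∪
        ((⋂ m, {x | p x m}ᶜ) ∩ {_x | n = 0}) := by
    ext x
    simp only [mem_preimage, mem_singleton_iff, mem_union, mem_inter_iff, mem_ofPred_eq,
      mem_iInter, mem_compl_iff]
    constructor
    · intro h
      by_cases hne : {i | p x i}.Nonempty
      · left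
        refine ⟨h ▸ Nat.sInf_mem hne, fun m hm => ?_⟩
        exact Nat.notMem_of_lt_sInf (s := {i | p x i}) (h ▸ hm)
      · right
        refine ⟨fun m hm => hne ⟨m, hm⟩, ?_⟩
        rw [not_nonempty_iff_eq_empty] at hne
        rw [hne, Nat.sInf_empty] at h
        exact h.symm
    · rintro (⟨h1, h2⟩ | ⟨h1, h2⟩)
      · apply le_antisymm (Nat.sInf_le h1)
        by_contra hlt
        push Not at hlt
        exact h2 _ hlt (Nat.sInf_mem (s := {i | p x i}) ⟨n, h1⟩)
      · have : {i | p x i} = ∅ := by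
          ext m
          simpa using h1 m
        rw [this, Nat.sInf_empty, h2]
  rw [this]
  refine ((hp n).inter (MeasurableSet.iInter fun m => MeasurableSet.iInter fun _ =>
    (hp m).compl)).union ((MeasurableSet.iInter fun m => (hp m).compl).inter ?_)
  exact MeasurableSet.const _

theorem meas_recT (a : ℝ) (ε : ℝ≥0) : Measurable (recT a ε) := by
  refine meas_sInf (fun (b : ℝ≥0 → ℝ) (i : ℕ) => b (i * ε) - a * (i * ε) ≤ 0 ∧
    ∀ j : ℕ, i < j → b (j * ε) - a * (j * ε) < b (i * ε) - a * (i * ε)) fun i => ?_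
  have h1 : ∀ k : ℕ, Measurable fun b : ℝ≥0 → ℝ => b (k * ε) - a * (k * ε) := fun k =>
    (measurable_pi_apply _).sub measurable_const
  refine (measurableSet_le (h1 i) measurable_const).inter ?_
  have : {b : ℝ≥0 → ℝ | ∀ j : ℕ, i < j → b (j * ε) - a * (j * ε) < b (i * ε) - a * (i * ε)} =
      ⋂ j : ℕ, ⋂ (_ : i < j), {b : ℝ≥0 → ℝ | b (j * ε) - a * (j * ε) < b (i * ε) - a * (i * ε)} := by
    ext b
    simp
  change MeasurableSet
    {b : ℝ≥0 → ℝ | ∀ j : ℕ, i < j → b (j * ε) - a * (j * ε) < b (i * ε) - a * (i * ε)}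
  rw [this]
  exact MeasurableSet.iInter fun j => MeasurableSet.iInter fun _ => measurableSet_lt (h1 j) (h1 i)

theorem meas_recB (a : ℝ) (ε : ℝ≥0) : Measurable (recB a ε) := by
  refine measurable_pi_lambda _ fun t => ?_
  have h : Measurable fun q : (ℝ≥0 → ℝ) × ℕ => q.1 (q.2 * ε + t) - q.1 (q.2 * ε) :=
    measurable_from_prod_countable_left fun n =>
      (measurable_pi_apply (n * ε + t : ℝ≥0)).sub (measurable_pi_apply (n * ε : ℝ≥0))
  exact h.comp (measurable_id.prodMk (meas_recT a ε))

theorem meas_recP (a : ℝ) (ε : ℝ≥0) :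
    Measurable fun p : PP => ((recB a ε p.1, recB a ε p.2) : PP) :=
  ((meas_recB a ε).comp measurable_fst).prodMk ((meas_recB a ε).comp measurable_snd)

theorem meas_recY (a : ℝ) (ε : ℝ≥0) : Measurable (recY a ε) :=
  (meas_ydr a).comp (meas_recP a ε)

theorem cont_glue (f g : ℝ≥0 → ℝ) (hf : Continuous f) (hg : Continuous g) (h0 : f 0 = g 0) :
    Continuous fun t : ℝ => if 0 ≤ t then f t.toNNReal else g (-t).toNNReal := by
  refine Continuous.if_le (hf.comp continuous_real_toNNReal)
    (hg.comp (continuous_real_toNNReal.comp continuous_neg)) continuous_const continuous_id ?_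
  intro x hx
  subst hx
  simpa using h0

theorem cont_twoS (p : PP) (h1 : Continuous p.1) (h2 : Continuous p.2) (h0 : p.1 0 = p.2 0) :
    Continuous (twoS p) := cont_glue p.1 p.2 h1 h2 h0

theorem cont_condNeg (a : ℝ) (b : ℝ≥0 → ℝ) (hb : Continuous b) : Continuous (condNeg a b) := by
  unfold condNeg
  fun_prop

theorem cont_recB (a : ℝ) (ε : ℝ≥0) (b : ℝ≥0 → ℝ) (hb : Continuous b) :
    Continuous (recB a ε b) := by
  unfold recB
  fun_prop

theorem cont_recY (a : ℝ) (ε : ℝ≥0) (p : PP) (h1 : Continuous p.1) (h2 : Continuous p.2) :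
    Continuous (recY a ε p) := by
  have h := cont_twoS (recB a ε p.1, recB a ε p.2) (cont_recB a ε _ h1) (cont_recB a ε _ h2)
    (by simp [recB])
  exact h.sub (continuous_const.mul continuous_abs)

theorem meas_radP (a : ℝ) (p : PP) (h1 : Continuous p.1) (h2 : Continuous p.2) :
    Measurable (radP a p) := by
  refine Measurable.ite measurableSet_Ici ?_ ?_
  · exact ((cont_condNeg a _ h1).comp continuous_real_toNNReal).measurable
  · exact ((cont_condNeg a _ h2).comp (continuous_real_toNNReal.comp continuous_neg)).measurable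

theorem bdd_radP (a : ℝ) (p : PP) (h1 : Continuous p.1) (h2 : Continuous p.2) (T : ℝ) :
    ∃ C : ℝ, ∀ t, |t| ≤ T → |radP a p t| ≤ C := by
  obtain ⟨C1, hC1⟩ := (isCompact_Icc (a := -T) (b := T)).exists_bound_of_continuousOn
    ((cont_condNeg a _ h1).comp continuous_real_toNNReal).continuousOn
  obtain ⟨C2, hC2⟩ := (isCompact_Icc (a := -T) (b := T)).exists_bound_of_continuousOn
    ((cont_condNeg a _ h2).comp (continuous_real_toNNReal.comp continuous_neg)).continuousOn
  refine ⟨max C1 C2, fun t ht => ?_⟩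
  have hm : t ∈ Icc (-T) T := abs_le.1 ht
  by_cases h : 0 ≤ t
  · simp only [radP, radial, h, if_true]
    exact (hC1 t hm).trans (le_max_left _ _)
  · simp only [radP, radial, h, if_false]
    exact (hC2 t hm).trans (le_max_right _ _)

variable {Ω : Type} [MeasurableSpace Ω] {P : Measure Ω}

theorem joint (b : Ω → ℝ≥0 → ℝ) (hm : Measurable b) (hc : ∀ ω, Continuous (b ω)) :
    Measurable fun q : Ω × ℝ≥0 => b q.1 q.2 := by
  have h : Measurable (Function.uncurry fun (t : ℝ≥0) (ω : Ω) => b ω t) :=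
    measurable_uncurry_of_continuous_of_measurable hc fun t => (measurable_pi_apply t).comp hm
  exact h.comp measurable_swap

theorem joint_glue (f g : Ω → ℝ≥0 → ℝ) (hf : Measurable fun q : Ω × ℝ≥0 => f q.1 q.2)
    (hg : Measurable fun q : Ω × ℝ≥0 => g q.1 q.2) :
    Measurable fun q : Ω × ℝ => if 0 ≤ q.2 then f q.1 q.2.toNNReal else g q.1 (-q.2).toNNReal := by
  refine Measurable.ite (measurableSet_le measurable_const measurable_snd) ?_ ?_
  · exact hf.comp (measurable_fst.prodMk (measurable_real_toNNReal.comp measurable_snd))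
  · exact hg.comp (measurable_fst.prodMk (measurable_real_toNNReal.comp measurable_snd.neg))

theorem joint_condNeg (a : ℝ) (b : Ω → ℝ≥0 → ℝ) (hm : Measurable b) (hc : ∀ ω, Continuous (b ω))
    (hz : Measurable fun ω => lastZero a (b ω)) :
    Measurable fun q : Ω × ℝ≥0 => condNeg a (b q.1) q.2 := by
  have h1 : Measurable fun q : Ω × ℝ≥0 => lastZero a (b q.1) + q.2 :=
    (hz.comp measurable_fst).add measurable_snd
  exact ((joint b hm hc).comp (measurable_fst.prodMk h1)).sub
    (measurable_const.mul (measurable_coe_nnreal_real.comp h1))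

theorem bm1_fst {β : Ω → PP} (h : BP P β) : BM1 P fun ω => (β ω).1 :=
  ⟨h.bm₁, measurable_fst.comp h.meas, h.cont₁⟩

theorem bm1_snd {β : Ω → PP} (h : BP P β) : BM1 P fun ω => (β ω).2 :=
  ⟨h.bm₂, measurable_snd.comp h.meas, h.cont₂⟩

theorem gauss_twoS {β : Ω → PP} (h : BP P β) :
    IsGaussianProcess (fun t ω => twoS (β ω) t) P := by
  refine ⟨fun I => ?_⟩
  have h1 := (h.bm₁.isGaussianProcess.comp_right fun t : ℝ => t.toNNReal).hasGaussianLaw I
  have h2 := (h.bm₂.isGaussianProcess.comp_right fun t : ℝ => (-t).toNNReal).hasGaussianLaw I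
  have hi : IndepFun (fun ω => fun i : I => (β ω).1 (i : ℝ).toNNReal)
      (fun ω => fun i : I => (β ω).2 (-(i : ℝ)).toNNReal) P :=
    h.ind.comp (φ := fun (x : ℝ≥0 → ℝ) (i : I) => x (i : ℝ).toNNReal)
      (ψ := fun (x : ℝ≥0 → ℝ) (i : I) => x (-(i : ℝ)).toNNReal)
      (measurable_pi_lambda _ fun i => measurable_pi_apply _)
      (measurable_pi_lambda _ fun i => measurable_pi_apply _)
  have h3 := IndepFun.hasGaussianLaw h1 h2 hi
  let L : ((I → ℝ) × (I → ℝ)) →L[ℝ] (I → ℝ) := ContinuousLinearMap.pi fun i : I =>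
    if 0 ≤ (i : ℝ) then (ContinuousLinearMap.proj i).comp (ContinuousLinearMap.fst ℝ _ _)
    else (ContinuousLinearMap.proj i).comp (ContinuousLinearMap.snd ℝ _ _)
  have h4 := h3.map_fun L
  refine HasGaussianLaw.congr h4 (Eventually.of_forall fun ω => ?_)
  funext i
  by_cases hh : 0 ≤ (i : ℝ)
  · simp [L, twoS, hh]
  · simp [L, twoS, hh]

theorem cg_twoS {β : Ω → PP} (h : BP P β) : CG (fun t ω => twoS (β ω) t) P cov2 := by
  have hb1 := h.bm₁.toIsPreBrownianReal
  have hb2 := h.bm₂.toIsPreBrownianReal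
  have hz : ∀ s t : ℝ≥0, covariance (fun ω => (β ω).1 s) (fun ω => (β ω).2 t) P = 0 := by
    intro s t
    refine IndepFun.covariance_eq_zero ?_ (hb1.isGaussianProcess.hasGaussianLaw_eval s).memLp_two
      (hb2.isGaussianProcess.hasGaussianLaw_eval t).memLp_two
    exact h.ind.comp (φ := fun x : ℝ≥0 → ℝ => x s) (ψ := fun x : ℝ≥0 → ℝ => x t)
      (measurable_pi_apply _) (measurable_pi_apply _)
  refine ⟨gauss_twoS h, fun t => ((measurable_pi_apply t).comp meas_twoS).comp h.meas,
    fun t => ?_, fun s t => ?_⟩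
  · by_cases ht : 0 ≤ t
    · simp only [twoS_pos _ ht]
      exact hb1.integral_eval _
    · simp only [twoS_neg _ ht]
      exact hb2.integral_eval _
  · by_cases hs : 0 ≤ s <;> by_cases ht : 0 ≤ t
    · simp only [twoS_pos _ hs, twoS_pos _ ht]
      rw [hb1.covariance_fun_eval, NNReal.coe_min, Real.coe_toNNReal _ hs, Real.coe_toNNReal _ ht,
        cov2, abs_of_nonneg hs, abs_of_nonneg ht]
      rcases le_total s t with hst | hst
      · rw [min_eq_left hst, abs_of_nonpos (by linarith)]; ring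
      · rw [min_eq_right hst, abs_of_nonneg (by linarith)]; ring
    · simp only [twoS_pos _ hs, twoS_neg _ ht]
      push Not at ht
      rw [hz, cov2, abs_of_nonneg hs, abs_of_neg ht, abs_of_nonneg (by linarith)]; ring
    · simp only [twoS_neg _ hs, twoS_pos _ ht]
      push Not at hs
      rw [covariance_comm, hz, cov2, abs_of_nonneg ht, abs_of_neg hs,
        abs_of_nonpos (by linarith)]; ring
    · simp only [twoS_neg _ hs, twoS_neg _ ht]
      push Not at hs ht
      rw [hb2.covariance_fun_eval, NNReal.coe_min, Real.coe_toNNReal _ (by linarith),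
        Real.coe_toNNReal _ (by linarith), cov2, abs_of_neg hs, abs_of_neg ht]
      rcases le_total s t with hst | hst
      · rw [min_eq_right (by linarith), abs_of_nonpos (by linarith)]; ring
      · rw [min_eq_left (by linarith), abs_of_nonneg (by linarith)]; ring

theorem no_tie {X : ℝ → Ω → ℝ} (h : CG X P cov2) {s t : ℝ} (hst : s ≠ t) (c : ℝ) :
    ∀ᵐ ω ∂P, X s ω - X t ω ≠ c := by
  have hP := h.gauss.isProbabilityMeasure
  have hg := h.gauss.hasGaussianLaw_fun_sub (s := s) (t := t)
  have ms := (h.gauss.hasGaussianLaw_eval s).memLp_two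
  have mt := (h.gauss.hasGaussianLaw_eval t).memLp_two
  have hv : variance (fun ω => X s ω - X t ω) P = |s - t| := by
    rw [variance_fun_sub ms mt, ← covariance_self (h.meas s).aemeasurable,
      ← covariance_self (h.meas t).aemeasurable, h.cov, h.cov, h.cov]
    simp only [cov2, sub_self, abs_zero]
    ring
  have hpos : 0 < |s - t| := abs_pos.2 (sub_ne_zero.2 hst)
  have hm := hg.map_eq_gaussianReal
  rw [hv] at hm
  have hne : (|s - t|).toNNReal ≠ 0 := by
    intro h0
    exact absurd (Real.toNNReal_eq_zero.1 h0) (not_le.2 hpos)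
  have := nullSingletonClass_gaussianReal (μ := ∫ ω, (X s ω - X t ω) ∂P) hne
  have hmeas : Measurable fun ω => X s ω - X t ω := (h.meas s).sub (h.meas t)
  rw [ae_iff]
  have e : {ω | ¬ X s ω - X t ω ≠ c} = (fun ω => X s ω - X t ω) ⁻¹' {c} := by
    ext ω
    simp
  rw [e, ← Measure.map_apply hmeas (measurableSet_singleton c), hm]
  exact measure_singleton c

theorem condNeg_zero (a : ℝ) (ha : 0 < a) (b : ℝ≥0 → ℝ) (hb : Continuous b) (h0 : b 0 = 0)
    (hg : ∀ c > 0, ∃ C : ℝ, ∀ t, |b t| ≤ C + c * t) : condNeg a b 0 = 0 := by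
  obtain ⟨C, hC⟩ := hg (a / 2) (by linarith)
  have hcl : IsClosed {s : ℝ≥0 | b s - a * s = 0} :=
    isClosed_eq (by fun_prop) continuous_const
  have hne : {s : ℝ≥0 | b s - a * s = 0}.Nonempty := ⟨0, by simp [h0]⟩
  have hbd : BddAbove {s : ℝ≥0 | b s - a * s = 0} := by
    refine ⟨(2 * C / a).toNNReal, fun s hs => ?_⟩
    have h1 := hC s
    have h2 : b s - a * s = 0 := hs
    have h3 := le_abs_self (b s)
    have h4 : (s : ℝ) ≤ 2 * C / a := by
      rw [le_div_iff₀ ha]
      nlinarith
    rw [← NNReal.coe_le_coe]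
    exact h4.trans (Real.le_coe_toNNReal _)
  have := hcl.csSup_mem hne hbd
  simpa [condNeg, lastZero] using this

end BM2

open BM2 in
theorem blk_BM2 (_h1 : St_G1) (_h1D : St_G1D) (_h3 : St_G3) (hX : St_BMX) : St_BM2 := by
  obtain ⟨hX1, hX2, hX3⟩ := hX
  refine ⟨fun γ D => ?_, ⟨meas_twoS, fun a => ⟨meas_ydr a, fun ε => ⟨meas_recY a ε,
    meas_recP a ε⟩⟩⟩, fun a p h1 h2 => ⟨meas_radP a p h1 h2, bdd_radP a p h1 h2,
    fun ε => cont_recY a ε p h1 h2⟩, fun Ω _ P β h => ?_⟩
  · refine ⟨⟨D.hq.bm₁, D.hq.bm₂, ?_, D.hq.cont₁, D.hq.cont₂, D.hq.ind₁⟩,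
      D.hq.bm₁.isGaussianProcess.isProbabilityMeasure⟩
    exact (measurable_pi_lambda _ D.hq.meas₁).prodMk (measurable_pi_lambda _ D.hq.meas₂)
  have b1 := bm1_fst h
  have b2 := bm1_snd h
  obtain ⟨hP, -, z1, o1, g1, -, -, l1⟩ := hX3 Ω P _ b1
  obtain ⟨-, -, z2, o2, g2, -, -, l2'⟩ := hX3 Ω P _ b2
  have hcg := cg_twoS h
  refine ⟨hP, b1, b2, hcg, ?_, fun a => ?_, fun a ε => ?_, ?_, fun a ha => ?_,
    fun a ε hε => ?_, ?_⟩
  · exact joint_glue _ _ (joint _ b1.meas b1.cont) (joint _ b2.meas b2.cont)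
  · have k1 := joint_condNeg a (fun ω => (β ω).1) b1.meas b1.cont (l1 a)
    have k2 := joint_condNeg a (fun ω => (β ω).2) b2.meas b2.cont (l2' a)
    have k3 := joint_glue (fun ω t => condNeg a (β ω).1 t) (fun ω t => condNeg a (β ω).2 t) k1 k2
    simpa only [radP, radial] using k3
  · have := joint_glue (fun ω => recB a ε (β ω).1) (fun ω => recB a ε (β ω).2)
      (joint _ ((meas_recB a ε).comp b1.meas) fun ω => cont_recB a ε _ (b1.cont ω))
      (joint _ ((meas_recB a ε).comp b2.meas) fun ω => cont_recB a ε _ (b2.cont ω))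
    exact this.sub (measurable_const.mul measurable_snd.abs)
  · filter_upwards [z1, z2, g1, g2] with ω hz1 hz2 hg1 hg2
    refine ⟨cont_twoS _ (h.cont₁ ω) (h.cont₂ ω) (hz1.trans hz2.symm), ?_, fun c hc => ?_⟩
    · rw [twoS_pos _ le_rfl]
      simpa using hz1
    · obtain ⟨C1, hC1⟩ := hg1 c hc
      obtain ⟨C2, hC2⟩ := hg2 c hc
      refine ⟨max C1 C2, fun t => ?_⟩
      by_cases ht : 0 ≤ t
      · rw [twoS_pos _ ht, abs_of_nonneg ht]
        have := hC1 t.toNNReal
        rw [Real.coe_toNNReal _ ht] at this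
        linarith [le_max_left C1 C2]
      · rw [twoS_neg _ ht]
        push Not at ht
        have := hC2 (-t).toNNReal
        rw [Real.coe_toNNReal _ (by linarith)] at this
        rw [abs_of_neg ht]
        linarith [le_max_right C1 C2]
  · filter_upwards [z1, z2, g1, g2] with ω hz1 hz2 hg1 hg2
    exact cont_glue _ _ (cont_condNeg a _ (h.cont₁ ω)) (cont_condNeg a _ (h.cont₂ ω))
      ((condNeg_zero a ha _ (h.cont₁ ω) hz1 hg1).trans
        (condNeg_zero a ha _ (h.cont₂ ω) hz2 hg2).symm)
  · rw [ae_all_iff]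
    intro i
    rw [ae_all_iff]
    intro j
    by_cases hij : i = j
    · exact Eventually.of_forall fun ω hne => absurd hij hne
    · have hne : (i : ℝ) * (ε : ℝ) ≠ j * (ε : ℝ) := by
        intro he
        have hε' : (ε : ℝ) ≠ 0 := by exact_mod_cast hε.ne'
        exact hij (by exact_mod_cast mul_right_cancel₀ hε' he)
      filter_upwards [no_tie hcg hne (a * |(i : ℝ) * ε| - a * |(j : ℝ) * ε|)] with ω hω _ he
      apply hω
      simp only [ydr] at he
      linarith
  · refine ⟨fun i ω => if 0 ≤ i then oscB (β ω).1 (i : ℝ).toNNReal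
      else 2 * oscB (β ω).2 (-(i : ℝ) - 1).toNNReal, fun i => ?_, ?_, fun lam => ?_⟩
    · by_cases hi : 0 ≤ i
      · simp only [hi, if_true]
        exact (hX1 _).comp b1.meas
      · simp only [hi, if_false]
        exact measurable_const.mul ((hX1 _).comp b2.meas)
    · filter_upwards [z1, z2] with ω hz1 hz2 i t ht
      obtain ⟨ht1, ht2⟩ := ht
      by_cases hi : 0 ≤ i
      · simp only [hi, if_true]
        have hi' : (0 : ℝ) ≤ i := by exact_mod_cast hi
        rw [twoS_pos _ hi', twoS_pos _ (hi'.trans ht1)]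
        have := hX2 _ (h.cont₁ ω) (i : ℝ).toNNReal (t - i).toNNReal
          (Real.toNNReal_le_one.2 (by linarith))
        rwa [← Real.toNNReal_add hi' (by linarith), add_sub_cancel] at this
      · simp only [hi, if_false]
        have hi1 : i ≤ -1 := by omega
        have hi' : (i : ℝ) ≤ -1 := by exact_mod_cast hi1
        have e1 : twoS (β ω) t = (β ω).2 (-t).toNNReal := by
          by_cases h0 : 0 ≤ t
          · have : t = 0 := by linarith
            subst this
            rw [twoS_pos _ le_rfl]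
            simpa using hz1.trans hz2.symm
          · exact twoS_neg _ h0
        rw [e1, twoS_neg _ (by linarith)]
        have k1 := hX2 _ (h.cont₂ ω) (-(i : ℝ) - 1).toNNReal (-t + i + 1).toNNReal
          (Real.toNNReal_le_one.2 (by linarith))
        have k2 := hX2 _ (h.cont₂ ω) (-(i : ℝ) - 1).toNNReal (1 : ℝ).toNNReal
          (Real.toNNReal_le_one.2 le_rfl)
        rw [← Real.toNNReal_add (by linarith) (by linarith)] at k1 k2
        rw [show -(i : ℝ) - 1 + (-t + i + 1) = -t by ring] at k1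
        rw [show -(i : ℝ) - 1 + 1 = -i by ring] at k2
        rw [abs_le] at k1 k2 ⊢
        constructor <;> linarith [k1.1, k1.2, k2.1, k2.2]
    · obtain ⟨C1, hC1⟩ := o1 lam
      obtain ⟨C2, hC2⟩ := o2 (lam * 2)
      refine ⟨max C1 C2, fun i => ?_⟩
      by_cases hi : 0 ≤ i
      · simp only [hi, if_true]
        exact (hC1 _).trans (ENNReal.ofReal_le_ofReal (le_max_left _ _))
      · simp only [hi, if_false, ← mul_assoc]
        exact (hC2 _).trans (ENNReal.ofReal_le_ofReal (le_max_right _ _))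

end

end Pool.Agent.Lib.APPS
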