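import Pool.Agent.Lib.APPS.Blue1

/-! The radial bump functions. -/

namespace Pool.Agent.Lib.APPS

open MeasureTheory ProbabilityTheory Filter Topology Set Metric
open scoped NNReal ENNReal RealInnerProductSpace

noncomputable section

namespace BMP

/-- the potential of a disc of radius `r` at distance `t` from the centre -/
def q (r t : ℝ) : ℝ := -Real.log (max t r) + (1 - min t r ^ 2 / r ^ 2) / 2

theorem q_ge {r t : ℝ} (hr : 0 < r) (h : r ≤ t) : q r t = -Real.log t := by
  simp [q, h, hr.ne']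

theorem q_le {r t : ℝ} (h : t ≤ r) : q r t = -Real.log r + (1 - t ^ 2 / r ^ 2) / 2 := by
  simp [q, h]

theorem q_scale {r t s : ℝ} (hr : 0 < r) (hs : 0 < s) : q (s * r) (s * t) = q r t - Real.log s := by
  have : 0 < max t r := lt_max_of_lt_right hr
  rw [q, q, ← mul_max_of_nonneg _ _ hs.le, ← mul_min_of_nonneg _ _ hs.le,
    Real.log_mul hs.ne' this.ne']
  field_simp
  ring

theorem log_lip {r a b : ℝ} (hr : 0 < r) (ha : r ≤ a) (hb : r ≤ b) :
    Real.log a - Real.log b ≤ |a - b| / r := by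
  have h1 : 0 < a := hr.trans_le ha
  have h2 : 0 < b := hr.trans_le hb
  rw [← Real.log_div h1.ne' h2.ne']
  refine (Real.log_le_sub_one_of_pos (div_pos h1 h2)).trans ?_
  rw [div_sub_one h2.ne']
  exact (div_le_div_of_nonneg_right (le_abs_self _) h2.le).trans
    (div_le_div_of_nonneg_left (abs_nonneg _) hr hb)

theorem q_lip {r t t' : ℝ} (hr : 0 < r) (ht : 0 ≤ t) (ht' : 0 ≤ t') :
    q r t - q r t' ≤ 2 / r * |t - t'| := by
  have h1 := log_lip hr (le_max_right t' r) (le_max_right t r)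
  have h2 : |max t' r - max t r| ≤ |t - t'| := by
    rw [abs_sub_comm t]; exact abs_max_sub_max_le_abs _ _ _
  have h3 : |min t' r - min t r| ≤ |t - t'| := by
    rw [abs_sub_comm t]; simpa using abs_min_sub_min_le_max t' r t r
  have h4 : min t' r ^ 2 - min t r ^ 2 ≤ 2 * r * |t - t'| := by
    have a1 := min_le_right t r
    have a2 := min_le_right t' r
    have a3 := le_min ht hr.le
    have a4 := le_min ht' hr.le
    have a5 := (le_abs_self _).trans h3
    nlinarith [abs_nonneg (t - t')]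
  have h5 : (min t' r ^ 2 - min t r ^ 2) / r ^ 2 ≤ 2 * r * |t - t'| / r ^ 2 := by gcongr
  have h6 : |max t' r - max t r| / r ≤ |t - t'| / r := by gcongr
  have h7 : 2 * r * |t - t'| / r ^ 2 = 2 * (|t - t'| / r) := by field_simp
  rw [sub_div] at h5
  rw [q, q, div_mul_eq_mul_div, mul_div_assoc]
  linarith

/-- the radial profile -/
def β (t : ℝ) : ℝ := q (1 / 8) t - q (1 / 4) t

theorem β_zero {t : ℝ} (h : 1 / 4 ≤ t) : β t = 0 := by
  rw [β, q_ge (by norm_num) h, q_ge (by norm_num) (by linarith), sub_self]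

theorem log8 : Real.log (1 / 8) = Real.log (1 / 4) - Real.log 2 := by
  rw [← Real.log_div (by norm_num) (by norm_num)]; norm_num

theorem β_small {t : ℝ} (h : t ≤ 1 / 8) : β t = Real.log 2 - 24 * t ^ 2 := by
  rw [β, q_le h, q_le (by linarith), log8]; ring

theorem β_bd {t : ℝ} (ht : 0 ≤ t) : 0 ≤ β t ∧ β t ≤ 1 := by
  have l1 := Real.log_two_gt_d9
  have l2 := Real.log_two_lt_d9
  rcases le_total t (1 / 8) with h | h
  · rw [β_small h]; constructor <;> nlinarith
  rcases le_total (1 / 4) t with h' | h'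
  · simp [β_zero h']
  have h0 : 0 < t := by linarith
  rw [β, q_ge (by norm_num) h, q_le h']
  have a1 := Real.log_le_sub_one_of_pos (show 0 < t ^ 2 / (1 / 4) ^ 2 by positivity)
  rw [Real.log_div (by positivity) (by norm_num), Real.log_pow, Real.log_pow] at a1
  have a2 := Real.log_le_log (by norm_num) h
  rw [log8] at a2
  have a3 : t ^ 2 / (1 / 4) ^ 2 ≤ 1 := by rw [div_le_one (by norm_num)]; gcongr
  push_cast at a1
  constructor <;> linarith

theorem β_lip {t t' : ℝ} (ht : 0 ≤ t) (ht' : 0 ≤ t') : β t - β t' ≤ 24 * |t - t'| := by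
  have a1 := q_lip (r := 1 / 8) (by norm_num) ht ht'
  have a2 := q_lip (r := 1 / 4) (by norm_num) ht' ht
  rw [abs_sub_comm] at a2
  rw [β, β]; linarith

theorem side_pos (S : Dy) : 0 < side S := by unfold side; positivity

section
variable (hE1 : St_EXP1)
include hE1

theorem pot_disc (x c : ℂ) {r : ℝ} (hr : 0 < r) :
    ∫ y, -Real.log ‖x - y‖ ∂disc c r = q r ‖x - c‖ := by
  rw [(hE1.2.2.2.1 x c r hr).2]
  split_ifs with h
  exacts [(q_ge hr h).symm, (q_le (not_le.1 h).le).symm]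

theorem bump_eq (S : Dy) (x : ℂ) : bumpF S x = β (‖x - ctr S‖ / side S) := by
  have hs := side_pos S
  rw [bumpF, pot_disc hE1 _ _ (by positivity), pot_disc hE1 _ _ (by positivity), β,
    ← sub_sub_sub_cancel_right (q (1 / 8) _) _ (Real.log (side S)), ← q_scale (by norm_num) hs,
    ← q_scale (by norm_num) hs, mul_div_cancel₀ _ hs.ne', mul_one_div, mul_one_div]

theorem bump_bd (S : Dy) (x : ℂ) : 0 ≤ bumpF S x ∧ bumpF S x ≤ 1 := by
  rw [bump_eq hE1]; exact β_bd (div_nonneg (norm_nonneg _) (side_pos S).le)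

theorem bump_zero {S : Dy} {x : ℂ} (h : side S / 4 ≤ ‖x - ctr S‖) : bumpF S x = 0 := by
  rw [bump_eq hE1]; exact β_zero (by rw [le_div_iff₀ (side_pos S)]; linarith)

theorem bump_lip (S : Dy) : LipschitzWith (24 / side S).toNNReal (bumpF S) := by
  have hs := side_pos S
  refine LipschitzWith.of_le_add_mul' _ fun x y => ?_
  rw [bump_eq hE1, bump_eq hE1, ← sub_le_iff_le_add']
  refine (β_lip (by positivity) (by positivity)).trans ?_
  rw [← sub_div, abs_div, abs_of_pos hs, div_mul_eq_mul_div, mul_div_assoc, dist_eq_norm]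
  gcongr
  simpa using abs_norm_sub_norm_le (x - ctr S) (y - ctr S)

theorem bump_cs (S : Dy) : HasCompactSupport (bumpF S) :=
  .intro (isCompact_closedBall (ctr S) (side S / 4)) fun _ hx => bump_zero hE1
    (not_le.1 fun h => hx (mem_closedBall_iff_norm.2 h)).le

theorem bump_int (S : Dy) (ν : Measure ℂ) [IsFiniteMeasureOnCompacts ν] :
    Integrable (bumpF S) ν := (bump_lip hE1 S).continuous.integrable_of_hasCompactSupport
  (bump_cs hE1 S)

theorem int_bd (S : Dy) (ν : Measure ℂ) [IsFiniteMeasure ν] : 0 ≤ ∫ x, bumpF S x ∂ν ∧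
    ∫ x, bumpF S x ∂ν ≤ ν.real (closedBall (ctr S) (side S / 4)) := by
  refine ⟨integral_nonneg fun x => (bump_bd hE1 S x).1, ?_⟩
  rw [← integral_indicator_one measurableSet_closedBall]
  refine integral_mono (bump_int hE1 S ν)
    ((integrable_const 1).indicator measurableSet_closedBall) fun x => ?_
  by_cases hx : x ∈ closedBall (ctr S) (side S / 4)
  · simpa [hx] using (bump_bd hE1 S x).2
  · rw [indicator_of_notMem hx, bump_zero hE1 (not_le.1 fun h => hx (mem_closedBall_iff_norm.2 h)).le]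

theorem int_zero {S : Dy} {ν : Measure ℂ} {A : Set ℂ} (h : ν Aᶜ = 0)
    (hA : Disjoint (ball (ctr S) (side S / 4)) A) : ∫ x, bumpF S x ∂ν = 0 :=
  integral_eq_zero_of_ae (Filter.mem_of_superset (show A ∈ ae ν from h) fun x hx =>
    bump_zero hE1 (by simpa [dist_eq_norm] using hA.notMem_of_mem_right hx))

theorem bump_scale (hG : St_GEO1) (S : Dy) (z : ℂ) : bumpF S (zS S z) = bumpF [] z := by
  have hs := side_pos S
  rw [bump_eq hE1, bump_eq hE1, show ctr S = zS S (ctr []) from (hG.2.2.1 [] S).2.1, zS, zS,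
    add_sub_add_left_eq_sub, ← mul_sub, norm_mul, Complex.norm_real, Real.norm_of_nonneg hs.le,
    mul_div_cancel_left₀ _ hs.ne', show side [] = 1 from pow_zero _, div_one]

theorem int_map (hG : St_GEO1) (S : Dy) (ν : Measure ℂ) :
    ∫ x, bumpF S x ∂(ν.map (zS S)) = ∫ x, bumpF [] x ∂ν := by
  rw [integral_map (by unfold zS; fun_prop) (bump_lip hE1 S).continuous.aestronglyMeasurable]
  simp only [bump_scale hE1 hG]

theorem int_unif (hG : St_GEO1) {S B : Dy} (h : B <:+ S) :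
    ∫ x, bumpF S x ∂unif B = (∫ x, bumpF S x) / side B ^ 2 := by
  rw [unif, integral_smul_measure, ENNReal.toReal_ofReal (by positivity),
    setIntegral_eq_integral_of_forall_compl_eq_zero fun x hx => bump_zero hE1 ?_, smul_eq_mul,
    one_div, inv_mul_eq_div]
  have : x ∉ closedBall (ctr S) (side S / 2) := fun hh =>
    hx ((hG.2.2.2.2.1 S B).2 h ((hG.2.2.2.1 S).2.2.2.2 hh))
  rw [mem_closedBall, dist_eq_norm] at this
  linarith [side_pos S]

theorem Ie_sub (hFE : St_FE) (S : Dy) {ν : Measure ℂ} (hν : FE ν) :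
    Ie (disc (ctr S) (side S / 8)) ν - Ie (disc (ctr S) (side S / 4)) ν = ∫ x, bumpF S x ∂ν := by
  have hs := side_pos S
  have a := (hFE.2.2.2.2.2.2.2.2.1 (ctr S) (side S / 8) (by positivity)).2.2.1
  have b := (hFE.2.2.2.2.2.2.2.2.1 (ctr S) (side S / 4) (by positivity)).2.2.1
  have := hν.fin
  have := a.2
  have := b.2
  rw [(hFE.2.2.2.2.1 _ _ a.1 hν).1, (hFE.2.2.2.2.1 _ _ b.1 hν).1, (hFE.2.2.2.2.1 _ _ hν a.1).2,
    (hFE.2.2.2.2.1 _ _ hν b.1).2]
  exact (integral_sub (hFE.1 _ _ hν a.1).neg.integral_prod_left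
    (hFE.1 _ _ hν b.1).neg.integral_prod_left).symm

end

theorem disc_le (c c' : ℂ) {r r' : ℝ} (hr : 0 < r) (hr' : 0 ≤ r') :
    (disc c r).real (closedBall c' r') ≤ r' ^ 2 / r ^ 2 := by
  refine ENNReal.toReal_le_of_le_ofReal (by positivity) ?_
  rw [disc, Measure.smul_apply, smul_eq_mul]
  refine (mul_le_mul_right (Measure.restrict_apply_le _ _) _).trans_eq ?_
  rw [Complex.volume_closedBall, ← ENNReal.ofReal_inv_of_pos (by positivity),
    ← ENNReal.ofReal_pow hr', ← ENNReal.ofReal_coe_nnreal, ← ENNReal.ofReal_mul (by positivity),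
    ← ENNReal.ofReal_mul (by positivity), NNReal.coe_real_pi]
  congr 1
  field_simp

end BMP

open BMP in
theorem blk_BMP (_hP1 : St_P1) (hFE : St_FE) (hE1 : St_EXP1) (hE2 : St_EXP2) (hG : St_GEO1)
    (hMOD : St_MOD) : St_BMP := by
  classical
  have hU := fun S => hFE.2.2.2.2.2.2.2.1 S
  have hD : ∀ S {r}, 0 < r → PFE (disc (ctr S) r) ∧ disc (ctr S) r (closedBall (ctr S) r)ᶜ = 0 :=
    fun S r hr => (hFE.2.2.2.2.2.2.2.2.1 (ctr S) r hr).2.2
  have p8 : ∀ S, 0 < side S / 8 := fun S => by have := side_pos S; positivity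
  have p4 : ∀ S, 0 < side S / 4 := fun S => by have := side_pos S; positivity
  have hB : ∀ S {r}, 0 < r → r ≤ side S / 2 → disc (ctr S) r (box S)ᶜ = 0 := fun S r hr h =>
    measure_mono_null (compl_subset_compl.2 ((closedBall_subset_closedBall h).trans
      (hG.2.2.2.1 S).2.2.2.2)) (hD S hr).2
  have B8 := fun S => hB S (p8 S) (by linarith [side_pos S])
  have B4 := fun S => hB S (p4 S) (by linarith [side_pos S])
  have i1 : ∀ S, ∫ x, bumpF S x ∂unif S = bb := fun S => by
    rw [show unif S = _ from hE2.1 [] S, int_map hE1 hG, bb]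
  have i2 : ∀ S B, B <:+ S → ∫ x, bumpF S x ∂unif B = bb * (side S / side B) ^ 2 := fun S B h => by
    have := side_pos S
    rw [← i1 S, int_unif hE1 hG h, int_unif hE1 hG List.suffix_rfl]
    field_simp
  have i3 : ∀ S S', ¬S <:+ S' → ¬S' <:+ S → ∀ ν : Measure ℂ, ν (box S')ᶜ = 0 →
      ∫ x, bumpF S x ∂ν = 0 := fun S S' h h' ν hν =>
    int_zero hE1 hν ((hG.2.2.2.2.2.1 S S' h h').1.mono_left (interior_maximal
      ((ball_subset_closedBall.trans (closedBall_subset_closedBall (by linarith [side_pos S]))).trans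
        (hG.2.2.2.1 S).2.2.2.2) isOpen_ball))
  have hbb : 0 < bb := by
    rw [← i1 [], int_unif hE1 hG List.suffix_rfl]
    refine div_pos ((bump_lip hE1 []).continuous.integral_pos_of_hasCompactSupport_nonneg_nonzero
      (bump_cs hE1 []) (fun x => (bump_bd hE1 [] x).1) (x := ctr []) ?_) (pow_pos (side_pos _) _)
    rw [bump_eq hE1, β_small (by simp)]
    simpa using by norm_num
  have L5 : ∀ (M : Model) S ν ν', PFE ν → PFE ν' →
      ⟪M.ub S, M.e ν - M.e ν'⟫ = ∫ x, bumpF S x ∂ν - ∫ x, bumpF S x ∂ν' := fun M S ν ν' h h' => by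
    rw [Model.ub, (hMOD M).2.2.2.2.1 _ _ _ _ (hD S (p8 S)).1 (hD S (p4 S)).1 h h',
      ← Ie_sub hE1 hFE S h.1, ← Ie_sub hE1 hFE S h'.1]
    ring
  have L6 : ∀ (M : Model) S, box S ⊆ M.O → ∀ ν, FE ν →
      ⟪M.ub S, M.e ν⟫ = ∫ x, bumpF S x ∂ν := fun M S hS ν h => by
    have z : ∀ μ : Measure ℂ, μ (box S)ᶜ = 0 → ∫ x, M.bg x ∂μ = 0 := fun μ hμ =>
      integral_eq_zero_of_ae (Filter.mem_of_superset (show box S ∈ ae μ from hμ) fun x hx =>
        M.bg0 x (hS hx))
    have := (hD S (p8 S)).1.2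
    have := (hD S (p4 S)).1.2
    rw [Model.ub, inner_sub_left, M.ee _ _ (hD S (p8 S)).1.1 h, M.ee _ _ (hD S (p4 S)).1.1 h,
      z _ (B8 S), z _ (B4 S), ← Ie_sub hE1 hFE S h]
    simp only [probReal_univ]
    ring
  set E0 := ∫ x, bumpF [] x ∂disc (ctr []) (1 / 8) - ∫ x, bumpF [] x ∂disc (ctr []) (1 / 4)
  have hE : ∀ (M : Model) S, ‖M.ub S‖ ^ 2 = E0 := fun M S => by
    have a : ∀ r, disc (ctr S) (side S / r) = (disc (ctr []) (1 / r)).map (zS S) := fun r => by
      rw [show ctr S = zS S (ctr []) from (hG.2.2.1 [] S).2.1, ← mul_one_div]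
      exact (hE1.2.1 _ _ _ _ (side_pos S)).2.symm
    rw [← real_inner_self_eq_norm_sq]
    refine (L5 M S _ _ (hD S (p8 S)).1 (hD S (p4 S)).1).trans ?_
    rw [a, a, int_map hE1 hG, int_map hE1 hG]
  have hne : ∀ (M : Model) A B, ¬A <:+ B → ⟪M.ub A, M.eS A - M.eS B⟫ ≠ 0 := fun M A B h => by
    rw [Model.eS, Model.eS, L5 M A _ _ (hU A).1 (hU B).1, i1]
    by_cases h' : B <:+ A
    · have : side A / side B < 1 := (div_lt_one (side_pos B)).2 (pow_lt_pow_right_of_lt_one₀
        (by norm_num) (by norm_num) (h'.length_le.lt_of_ne fun e =>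
          h (h'.eq_of_length e ▸ List.suffix_rfl)))
      have h0 := div_pos (side_pos A) (side_pos B)
      have : (side A / side B) ^ 2 < 1 := by nlinarith
      rw [i2 A B h']
      nlinarith
    · rw [i3 A B h h' _ (hU B).2, sub_zero]
      exact hbb.ne'
  have hE0 : ∀ M : Model, 0 < E0 := fun M => by
    rw [← hE M [0]]
    exact pow_pos (norm_pos_iff.2 fun e => hne M [0] [] (by simp) (by simp [e])) _
  refine ⟨hbb, if Nonempty Model then E0 else 1, 24, ?_, by norm_num, fun S =>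
    ⟨⟨⟨_, bump_lip hE1 S⟩, bump_cs hE1 S⟩, fun x => ⟨(bump_bd hE1 S x).1,
      (bump_bd hE1 S x).2.trans (by norm_num)⟩, fun x => bump_zero hE1, bump_lip hE1 S, i1 S⟩,
    fun M => ?_⟩
  · split_ifs with h
    exacts [hE0 h.some, one_pos]
  rw [if_pos ⟨M⟩]
  refine ⟨L6 M, hE M, fun S S' h h' => ⟨?_, fun hS => ?_⟩, fun S S' => ?_, fun S B hS h => ?_,
    fun S B hS => ?_, fun S φ hφ ⟨c, hc⟩ => ?_, fun _ A B h e => ?_, fun A hA => ?_⟩
  · refine (L5 M S _ _ (hD S' (p8 S')).1 (hD S' (p4 S')).1).trans ?_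
    rw [i3 S S' h h' _ (B8 S'), i3 S S' h h' _ (B4 S'), sub_zero]
  · exact (L6 M S hS _ (hU S').1.1).trans (i3 S S' h h' _ (hU S').2)
  · have := (hD S (p8 S)).1.2
    have := (hD S (p4 S)).1.2
    have a := int_bd hE1 S' (disc (ctr S) (side S / 8))
    have b := int_bd hE1 S' (disc (ctr S) (side S / 4))
    have a' := disc_le (ctr S) (ctr S') (p8 S) (p4 S').le
    have b' := disc_le (ctr S) (ctr S') (p4 S) (p4 S').le
    rw [show (side S' / 4) ^ 2 / (side S / 8) ^ 2 = 4 * (side S' / side S) ^ 2 by ring] at a'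
    rw [show (side S' / 4) ^ 2 / (side S / 4) ^ 2 = (side S' / side S) ^ 2 by ring] at b'
    rw [real_inner_comm, show M.ub S = _ - _ from rfl, L5 M S' _ _ (hD S (p8 S)).1 (hD S (p4 S)).1,
      abs_le]
    constructor <;> nlinarith [sq_nonneg (side S' / side S)]
  · exact (L6 M S hS _ (hU B).1.1).trans (i2 S B h)
  · have := (hU B).1.2
    rw [Model.eS, L6 M S hS _ (hU B).1.1]
    exact ⟨(int_bd hE1 S _).1, (int_bd hE1 S _).2.trans (measureReal_le_one.trans (by norm_num))⟩
  · have := (hD S (p8 S)).1.2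
    have := (hD S (p4 S)).1.2
    have z : ∀ μ : Measure ℂ, IsProbabilityMeasure μ → μ (box S)ᶜ = 0 → ∫ x, φ x ∂μ = c :=
      fun μ _ hμ => (integral_congr_ae (g := fun _ => c) (Filter.mem_of_superset
        (show box S ∈ ae μ from hμ) hc)).trans (by simp)
    rw [Model.ub, M.ezg _ _ φ (hD S (p8 S)).1.1 (hD S (p4 S)).1.1 (by simp) hφ,
      z _ inferInstance (B8 S), z _ inferInstance (B4 S), sub_self]
  · by_cases h' : A <:+ B
    · exact hne M B A (fun h'' => h (h'.eq_of_length (h'.length_le.antisymm h''.length_le)))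
        (by rw [← neg_sub, e]; simp)
    · exact hne M A B h' (by simp [e])
  · rw [div_le_iff₀' (hE0 M), ← hE M A, ← mul_pow, ← i1 A, ← L6 M A hA _ (hU A).1.1, ← sq_abs]
    exact pow_le_pow_left₀ (abs_nonneg _) (abs_real_inner_le_norm _ _) _

end

end Pool.Agent.Lib.APPS
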