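import Pool.Agent.Lib.APPS.Blue3

/-!
Block BMX: elementary path properties of Brownian motion.
-/

namespace Pool.Agent.Lib.APPS

open MeasureTheory ProbabilityTheory Filter Topology Set Metric
open scoped NNReal ENNReal RealInnerProductSpace Classical

noncomputable section

namespace BMX

/-- clamp of a real number into `[u, v]` -/
def cl (u v : ℝ≥0) (x : ℝ) : ℝ≥0 := max u (min v x.toNNReal)

theorem cl_cont (u v : ℝ≥0) : Continuous (cl u v) :=
  continuous_const.max (continuous_const.min continuous_real_toNNReal)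

theorem cl_mem {u v : ℝ≥0} (h : u ≤ v) (x : ℝ) : cl u v x ∈ Icc u v :=
  ⟨le_max_left _ _, max_le h (min_le_left _ _)⟩

theorem cl_coe {u v t : ℝ≥0} (h : t ∈ Icc u v) : cl u v t = t := by
  unfold cl
  rw [Real.toNNReal_coe, min_eq_right h.2, max_eq_right h.1]

theorem dens {g : ℝ≥0 → ℝ} (hg : Continuous g) {u v : ℝ≥0} {c : ℝ}
    (h : ∀ q : ℚ, g (cl u v q) ≤ c) {t : ℝ≥0} (ht : t ∈ Icc u v) : g t ≤ c := by
  have : ∀ x : ℝ, g (cl u v x) ≤ c := fun x =>
    Rat.denseRange_cast.induction_on x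
      (isClosed_le (hg.comp (cl_cont u v)) continuous_const) h
  rw [← cl_coe ht]
  exact this t

theorem meas_osc (s : ℝ≥0) : Measurable fun b => oscB b s := by
  unfold oscB
  refine Measurable.ennreal_toReal (Measurable.iSup fun q => ?_)
  have : Measurable fun b : ℝ≥0 → ℝ => b (s + Real.toNNReal q) - b s :=
    (measurable_pi_apply _).sub (measurable_pi_apply _)
  exact measurable_const.mul this.enorm

theorem bound {b : ℝ≥0 → ℝ} (hb : Continuous b) (s : ℝ≥0) :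
    ∃ C : ℝ, ∀ t : ℝ≥0, t ≤ 1 → ‖b (s + t) - b s‖ₑ ≤ ENNReal.ofReal C := by
  have hc : Continuous fun t : ℝ≥0 => b (s + t) - b s := by fun_prop
  obtain ⟨C, hC⟩ := (isCompact_Icc (a := (0 : ℝ≥0)) (b := 1)).exists_bound_of_continuousOn
    hc.continuousOn
  refine ⟨C, fun t ht => ?_⟩
  rw [← ofReal_norm]
  exact ENNReal.ofReal_le_ofReal (hC t ⟨zero_le, ht⟩)

theorem toNN_le {q : ℚ} (h : q ≤ 1) : Real.toNNReal q ≤ 1 := by
  rw [Real.toNNReal_le_one]
  exact_mod_cast h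

theorem osc_fin {b : ℝ≥0 → ℝ} (hb : Continuous b) (s : ℝ≥0) :
    (⨆ q : ℚ, ind (0 ≤ q ∧ q ≤ 1) * ‖b (s + Real.toNNReal q) - b s‖ₑ) ≠ ∞ := by
  obtain ⟨C, hC⟩ := bound hb s
  refine ne_top_of_le_ne_top (ENNReal.ofReal_ne_top (r := C)) (iSup_le fun q => ?_)
  unfold ind
  split_ifs with h
  · rw [one_mul]; exact hC _ (toNN_le h.2)
  · simp

theorem le_osc (b : ℝ≥0 → ℝ) (hb : Continuous b) (s t : ℝ≥0) (ht : t ≤ 1) :
    |b (s + t) - b s| ≤ oscB b s := by
  have hc : Continuous fun t : ℝ≥0 => |b (s + t) - b s| := by fun_prop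
  refine dens hc (u := 0) (v := 1) (fun q => ?_) ⟨zero_le, ht⟩
  have e : cl 0 1 q = Real.toNNReal ((max 0 (min 1 q) : ℚ) : ℝ) := by
    apply NNReal.eq
    unfold cl
    push_cast
    simp only [Real.coe_toNNReal']
    rcases le_total (q : ℝ) 0 with h | h <;> rcases le_total (q : ℝ) 1 with h' | h' <;>
      simp [h, h']
    linarith
  rw [e]
  have h1 : ind (0 ≤ max 0 (min 1 q) ∧ max 0 (min 1 q) ≤ 1) = 1 := by
    unfold ind
    rw [if_pos ⟨le_max_left _ _, max_le zero_le_one (min_le_left _ _)⟩]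
  have h2 := le_iSup (fun q : ℚ => ind (0 ≤ q ∧ q ≤ 1) * ‖b (s + Real.toNNReal q) - b s‖ₑ)
    (max 0 (min 1 q))
  rw [h1, one_mul] at h2
  have h3 := ENNReal.toReal_mono (osc_fin hb s) h2
  rwa [toReal_enorm, Real.norm_eq_abs] at h3

theorem osc_nonneg (b : ℝ≥0 → ℝ) (s : ℝ≥0) : 0 ≤ oscB b s := ENNReal.toReal_nonneg

/-- abscissa of the corner -/
def tS (S : Dy) : ℝ≥0 := (corner S).re.toNNReal

theorem side_cons (d : Fin 2 × Fin 2) (S : Dy) : side (d :: S) = side S / 2 := by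
  unfold side; rw [List.length_cons, pow_succ]; ring

theorem side_pos (S : Dy) : 0 < side S := by unfold side; positivity

theorem re_cons (d : Fin 2 × Fin 2) (S : Dy) :
    (corner (d :: S)).re = (corner S).re + side S / 2 * (d.1 : ℕ) := by
  rw [corner, ← side_cons d S]
  simp

theorem d_le (d : Fin 2 × Fin 2) : ((d.1 : ℕ) : ℝ) ≤ 1 := by
  have := d.1.2
  exact_mod_cast Nat.lt_succ_iff.1 this

theorem re_bd (S : Dy) : 0 ≤ (corner S).re ∧ (corner S).re + side S ≤ 1 := by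
  induction S with
  | nil => simp [corner, side]
  | cons d S ih =>
    rw [re_cons, side_cons]
    have h1 := side_pos S
    have h2 := d_le d
    have h3 : (0 : ℝ) ≤ (d.1 : ℕ) := Nat.cast_nonneg _
    constructor <;> nlinarith [ih.1, ih.2]

theorem tS_coe (S : Dy) : (tS S : ℝ) = (corner S).re := Real.coe_toNNReal _ (re_bd S).1

theorem tS_le (S : Dy) : tS S ≤ 1 := by
  rw [← NNReal.coe_le_coe, tS_coe]
  have := side_pos S
  have := (re_bd S).2
  simp only [NNReal.coe_one]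
  linarith

/-- the dyadic oscillation -/
def Zd (s : ℝ≥0) (b : ℝ≥0 → ℝ) : ℝ := zs fun S => b (s + tS S) - b s

theorem osc_le (hG : St_GEO1) {b : ℝ≥0 → ℝ} (hb : Continuous b) (s : ℝ≥0) :
    oscB b s ≤ Zd s b := by
  unfold oscB Zd zs
  obtain ⟨C, hC⟩ := bound hb s
  refine ENNReal.toReal_mono (ne_top_of_le_ne_top (ENNReal.ofReal_ne_top (r := C))
    (iSup_le fun S => hC _ (tS_le S))) (iSup_le fun q => ?_)
  unfold ind
  split_ifs with h
  swap
  · simp
  rw [one_mul]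
  have hq0 : (0 : ℝ) ≤ q := by exact_mod_cast h.1
  have hq1 : (q : ℝ) ≤ 1 := by exact_mod_cast h.2
  have hm : ((q : ℝ) : ℂ) ∈ box [] := by
    simp [box, corner, side, h.1, hq1]
  choose S hS using fun k => hG.2.2.2.2.2.2.2.1 [] k _ hm
  have ht : Tendsto (fun k => tS (S k)) atTop (𝓝 (Real.toNNReal q)) := by
    rw [← NNReal.tendsto_coe, Real.coe_toNNReal _ hq0]
    have h0 : Tendsto (fun k : ℕ => (q : ℝ) - (1 / 2 : ℝ) ^ k) atTop (𝓝 (q : ℝ)) := by
      simpa using (tendsto_pow_atTop_nhds_zero_of_lt_one (r := (1 / 2 : ℝ)) (by norm_num)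
        (by norm_num)).const_sub (q : ℝ)
    refine tendsto_of_tendsto_of_tendsto_of_le_of_le h0 tendsto_const_nhds (fun k => ?_)
      (fun k => ?_)
    · have := (hS k).2.1.2
      simp only [List.append_nil, Complex.ofReal_re, side, (hS k).1] at this
      simp only [tS_coe]
      linarith
    · have := (hS k).2.1.1
      simp only [List.append_nil, Complex.ofReal_re] at this
      simpa only [tS_coe] using this
  have hc : Continuous fun t : ℝ≥0 => ‖b (s + t) - b s‖ₑ := by fun_prop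
  exact le_of_tendsto' ((hc.tendsto _).comp ht) fun k =>
    le_iSup (fun S => ‖b (s + tS S) - b s‖ₑ) (S k)

theorem exists_v (hM0 : St_M0) (hMOD : St_MOD) (hFE : St_FE) :
    ∃ v : ℝ≥0 → HH, Gram v fun s t => min (s : ℝ) t := by
  obtain ⟨M⟩ := hM0
  refine ⟨fun t => M.eC 0 (Real.exp (-t)) - M.eC 0 1, fun s t => ?_⟩
  have hc := hFE.2.2.2.2.2.2.2.2.1
  have hs : ∀ u : ℝ≥0, circ 0 (Real.exp (-u)) (closedBall 0 1)ᶜ = 0 := by
    intro u
    refine measure_mono_null (compl_subset_compl.2 ?_) (hc 0 _ (Real.exp_pos _)).2.1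
    refine sphere_subset_closedBall.trans (closedBall_subset_closedBall ?_)
    exact Real.exp_le_one_iff.2 (neg_nonpos.2 u.2)
  have h9 := (hMOD M).2.2.2.2.2.2.2.2.1 0 1 _ _ one_pos (hc 0 _ (Real.exp_pos (-(s : ℝ)))).1
    (hc 0 _ (Real.exp_pos (-(t : ℝ)))).1 (hs s) (hs t)
  have h8 := (hMOD M).2.2.2.2.2.2.2.1 0 _ _ (Real.exp_pos (-(s : ℝ)))
    (hc 0 _ (Real.exp_pos (-(t : ℝ)))).1
  have hP := (hc 0 _ (Real.exp_pos (-(t : ℝ)))).1.2
  have hae : ∀ᵐ y ∂circ 0 (Real.exp (-(t : ℝ))),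
      Real.log (max ‖y - 0‖ (Real.exp (-(s : ℝ)))) = -min (s : ℝ) t := by
    have := (hc 0 _ (Real.exp_pos (-(t : ℝ)))).2.1
    refine measure_mono_null (fun y hy => ?_) this
    intro hy'
    apply hy
    rw [mem_sphere, dist_eq_norm] at hy'
    show Real.log (max ‖y - 0‖ (Real.exp (-(s : ℝ)))) = -min (s : ℝ) t
    rw [hy', ← Real.exp_monotone.map_max, Real.log_exp, min_comm, ← max_neg_neg]
  show ⟪M.e _ - M.eC 0 1, M.e _ - M.eC 0 1⟫ = _
  rw [h9, h8, integral_congr_ae hae]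
  simp

theorem norm_sq {v : ℝ≥0 → HH} (hv : Gram v fun s t => min (s : ℝ) t) (s t : ℝ≥0) (h : s ≤ t) :
    ‖v t - v s‖ ^ 2 = t - s := by
  have h' : (s : ℝ) ≤ t := h
  rw [norm_sub_sq_real, ← real_inner_self_eq_norm_sq, ← real_inner_self_eq_norm_sq, hv, hv, hv]
  simp only [min_self, min_eq_right h']
  ring

theorem chain {v : ℝ≥0 → HH} (hv : Gram v fun s t => min (s : ℝ) t) (s : ℝ≥0) :
    ChainH (fun S => v (s + tS S) - v s) 1 := by
  constructor
  · simp [tS, corner]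
  · intro d S
    have h1 := side_pos S
    have h2 := d_le d
    have h3 : (0 : ℝ) ≤ (d.1 : ℕ) := Nat.cast_nonneg _
    have hle : s + tS S ≤ s + tS (d :: S) := by
      rw [← NNReal.coe_le_coe]
      push_cast
      rw [tS_coe, tS_coe, re_cons]
      nlinarith
    rw [sub_sub_sub_cancel_right, one_mul]
    apply Real.le_sqrt_of_sq_le
    rw [norm_sq hv _ _ hle]
    push_cast
    rw [tS_coe, tS_coe, re_cons]
    nlinarith

theorem meas_eE {α : Type*} [MeasurableSpace α] {f : α → ℝ} (hf : Measurable f) :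
    Measurable fun a => eE (f a) := ENNReal.measurable_ofReal.comp (Real.measurable_exp.comp hf)

theorem eE_add (s t : ℝ) : eE (s + t) = eE s * eE t := by
  unfold eE
  rw [Real.exp_add, ENNReal.ofReal_mul (Real.exp_pos _).le]

theorem eE_mono {s t : ℝ} (h : s ≤ t) : eE s ≤ eE t :=
  ENNReal.ofReal_le_ofReal (Real.exp_le_exp.2 h)

theorem ae_bdd {Ω : Type} [MeasurableSpace Ω] {P : Measure Ω} {f : ℕ → Ω → ℝ}
    (hf : ∀ n, Measurable (f n)) {K : ℝ≥0∞} (hK : K ≠ ∞) {κ : ℝ} (hκ : 0 < κ)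
    (h : ∀ n : ℕ, ∫⁻ ω, eE (f n ω) ∂P ≤ K * eE (-κ * n)) :
    ∀ᵐ ω ∂P, ∃ C : ℝ, ∀ n, f n ω ≤ C := by
  have h1 : ∫⁻ ω, ∑' n, eE (f n ω) ∂P ≠ ∞ := by
    rw [lintegral_tsum fun n => (meas_eE (hf n)).aemeasurable]
    refine ne_top_of_le_ne_top ?_ (ENNReal.tsum_le_tsum h)
    rw [ENNReal.tsum_mul_left]
    refine ENNReal.mul_ne_top hK ?_
    unfold eE
    have hs : Summable fun n : ℕ => Real.exp (-κ * n) := by
      have := Real.summable_exp_nat_mul_iff.2 (neg_lt_zero.2 hκ)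
      simpa [mul_comm] using this
    rw [← ENNReal.ofReal_tsum_of_nonneg (fun n => (Real.exp_pos _).le) hs]
    exact ENNReal.ofReal_ne_top
  filter_upwards [ae_lt_top (Measurable.tsum fun n => meas_eE (hf n)) h1] with ω hω
  refine ⟨(∑' n, eE (f n ω)).toReal, fun n => ?_⟩
  have h2 := ENNReal.toReal_mono hω.ne (ENNReal.le_tsum (f := fun n => eE (f n ω)) n)
  unfold eE at h2 ⊢
  rw [ENNReal.toReal_ofReal (Real.exp_pos _).le] at h2
  linarith [Real.add_one_le_exp (f n ω)]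

section
variable {Ω : Type} [MeasurableSpace Ω] {P : Measure Ω} {b : Ω → ℝ≥0 → ℝ}

theorem meas_t (h : BM1 P b) (t : ℝ≥0) : Measurable fun ω => b ω t :=
  (measurable_pi_apply t).comp h.meas

theorem cg (h : BM1 P b) : CG (fun t ω => b ω t) P (fun s t => min (s : ℝ) t) where
  gauss := h.bm.toIsPreBrownianReal.isGaussianProcess
  meas := meas_t h
  mean := fun t => h.bm.toIsPreBrownianReal.integral_eval t
  cov := fun s t => by
    rw [h.bm.toIsPreBrownianReal.covariance_eval]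
    simp

theorem transfer (hG3 : St_G3) (h : BM1 P b) {v : ℝ≥0 → HH}
    (hv : Gram v fun s t => min (s : ℝ) t) {F : (ℝ≥0 → ℝ) → ℝ≥0∞} (hF : Measurable F) :
    ∫⁻ ω, F (b ω) ∂P = ∫⁻ ω, F (fun t => ω (v t)) ∂gm := by
  have e := hG3.1 _ _ _ _ _ (cg h) v hv
  rw [← lintegral_map hF h.meas, ← lintegral_map hF
    (measurable_pi_lambda _ fun t => meas_ev (v t))]
  exact congrArg (fun μ => ∫⁻ x, F x ∂μ) e

theorem osc_mom (hG3 : St_G3) (hCH : St_CH) (hG : St_GEO1) (h : BM1 P b) {v : ℝ≥0 → HH}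
    (hv : Gram v fun s t => min (s : ℝ) t) (lam : ℝ) :
    ∃ C : ℝ, ∀ s, ∫⁻ ω, eE (lam * oscB (b ω) s) ∂P ≤ ENNReal.ofReal C := by
  obtain ⟨C, hC⟩ := (hCH.2.2.2 |lam|).1 1
  refine ⟨C, fun s => le_trans ?_ (hC _ (chain hv s))⟩
  have hZ : Measurable fun b => eE (|lam| * Zd s b) := by
    refine meas_eE (measurable_const.mul (hCH.1.comp ?_))
    exact measurable_pi_lambda _ fun S => (measurable_pi_apply _).sub (measurable_pi_apply _)
  calc ∫⁻ ω, eE (lam * oscB (b ω) s) ∂P ≤ ∫⁻ ω, eE (|lam| * Zd s (b ω)) ∂P := by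
        refine lintegral_mono fun ω => eE_mono ?_
        exact le_trans (mul_le_mul_of_nonneg_right (le_abs_self _) (osc_nonneg _ _))
          (mul_le_mul_of_nonneg_left (osc_le hG (h.cont ω) s) (abs_nonneg _))
    _ = ∫⁻ ω, eE (|lam| * Zd s fun t => ω (v t)) ∂gm := transfer hG3 h hv hZ
    _ = _ := by simp only [Zd, map_sub]

theorem growth (hG1D : St_G1D) (hG3 : St_G3) (hCH : St_CH) (hG : St_GEO1) (h : BM1 P b)
    {v : ℝ≥0 → HH} (hv : Gram v fun s t => min (s : ℝ) t) :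
    ∀ᵐ ω ∂P, ∀ c > 0, ∃ C : ℝ, ∀ t, |b ω t| ≤ C + c * t := by
  obtain ⟨C1, hC1⟩ := osc_mom hG3 hCH hG h hv 1
  have key : ∀ κ : ℝ, 0 < κ → ∀ᵐ ω ∂P, ∃ C : ℝ, ∀ t, |b ω t| ≤ C + 2 * κ * t := by
    intro κ hκ
    have a1 := ae_bdd (P := P) (f := fun n ω => 1 * oscB (b ω) n + -κ * n)
      (fun n => (measurable_const.mul ((meas_osc _).comp h.meas)).add measurable_const)
      (ENNReal.ofReal_ne_top (r := C1)) hκ fun n => by
        simp only [eE_add]
        rw [lintegral_mul_const' _ _ (by simp [eE])]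
        exact mul_le_mul_left (hC1 n) _
    have a2 := ae_bdd (P := P) (f := fun n ω => κ * |b ω n| + -κ ^ 2 * n)
      (fun n => (measurable_const.mul (meas_t h _).abs).add measurable_const)
      (K := 2) (by simp) (κ := κ ^ 2 / 2) (by positivity) fun n => by
        simp only [eE_add]
        rw [lintegral_mul_const' _ _ (by simp [eE])]
        have e := transfer hG3 h hv (F := fun b => eE (κ * |b n|))
          (meas_eE (measurable_const.mul (measurable_pi_apply _).abs))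
        have e2 := hG1D.2.2.2.2.2.2 (v n) κ
        have e3 : ‖v n‖ ^ 2 = n := by
          rw [← real_inner_self_eq_norm_sq, hv]; simp
        rw [e3] at e2
        rw [e]
        refine le_trans (mul_le_mul_left e2 _) (le_of_eq ?_)
        rw [mul_assoc, ← eE_add]
        congr 2
        ring
    filter_upwards [a1, a2] with ω ⟨C, hC⟩ ⟨C', hC'⟩
    refine ⟨C + C' / κ, fun t => ?_⟩
    have n1 : ((⌊t⌋₊ : ℕ) : ℝ≥0) ≤ t := Nat.floor_le zero_le
    have n2 : t - (⌊t⌋₊ : ℕ) ≤ 1 := by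
      rw [tsub_le_iff_left]
      exact (Nat.lt_floor_add_one t).le
    have n3 := le_osc (b ω) (h.cont ω) (⌊t⌋₊ : ℕ) _ n2
    rw [add_tsub_cancel_of_le n1] at n3
    have n4 := hC ⌊t⌋₊
    have n5 : |b ω (⌊t⌋₊ : ℕ)| ≤ C' / κ + κ * (⌊t⌋₊ : ℕ) := by
      have := hC' ⌊t⌋₊
      rw [div_add' _ _ _ hκ.ne', le_div_iff₀ hκ]
      nlinarith
    have n6 : ((⌊t⌋₊ : ℕ) : ℝ) ≤ t := by exact_mod_cast n1
    have n7 := abs_sub_abs_le_abs_sub (b ω t) (b ω (⌊t⌋₊ : ℕ))
    nlinarith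
  have all : ∀ᵐ ω ∂P, ∀ m : ℕ, ∃ C : ℝ, ∀ t, |b ω t| ≤ C + 2 * (1 / ((m : ℝ) + 1)) * t :=
    ae_all_iff.2 fun m => key _ Nat.one_div_pos_of_nat
  filter_upwards [all] with ω hω c hc
  obtain ⟨m, hm⟩ := exists_nat_one_div_lt (half_pos hc)
  obtain ⟨C, hC⟩ := hω m
  refine ⟨C, fun t => le_trans (hC t) ?_⟩
  have := t.2
  have : (0 : ℝ) ≤ t := this
  nlinarith

theorem no_tie (h : BM1 P b) (a : ℝ) (ε : ℝ≥0) (hε : 0 < ε) : ∀ᵐ ω ∂P, ∀ i j : ℕ, i ≠ j →
    b ω (i * ε) - a * (i * ε) ≠ b ω (j * ε) - a * (j * ε) := by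
  refine ae_all_iff.2 fun i => ae_all_iff.2 fun j => ?_
  by_cases hij : i = j
  · simp [hij]
  have hl := h.bm.toIsPreBrownianReal.hasLaw_sub (i * ε) (j * ε)
  have hne : nndist ((i : ℝ≥0) * ε).1 ((j : ℝ≥0) * ε).1 ≠ 0 := by
    rw [Ne, nndist_eq_zero]
    intro e
    have e' : (i : ℝ≥0) * ε = (j : ℝ≥0) * ε := NNReal.eq e
    exact hij (by exact_mod_cast mul_right_cancel₀ hε.ne' e')
  have := nullSingletonClass_gaussianReal (μ := 0) hne
  have h0 : ∀ᵐ x ∂gaussianReal 0 (nndist ((i : ℝ≥0) * ε).1 ((j : ℝ≥0) * ε).1),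
      x ≠ a * (i * ε) - a * (j * ε) := by
    rw [ae_iff]
    simp only [ne_eq, not_not, ofPred_eq_eq_singleton]
    exact measure_singleton _
  filter_upwards [(hl.ae_iff (by measurability)).2 h0] with ω hω _ e
  apply hω
  simp only [Pi.sub_apply]
  linarith

/-- supremum of the drifted path over `[0, L]` -/
def supH (a : ℝ) (L : ℝ≥0) (β : ℝ≥0 → ℝ) : ℝ := ⨆ q : ℚ, (β (cl 0 L q) - a * cl 0 L q)

theorem meas_supH (a : ℝ) (L : ℝ≥0) : Measurable (supH a L) :=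
  Measurable.iSup fun _ => (measurable_pi_apply _).sub measurable_const

theorem no_atom (h : BM1 P b) (a : ℝ) (ρ L : ℝ≥0) (hρ : ρ ≠ 0) :
    ∀ᵐ ω ∂P, b ω ρ + supH a L (fun t => b ω (ρ + t) - b ω ρ) ≠ a * ρ := by
  have hP : IsProbabilityMeasure P :=
    h.bm.toIsPreBrownianReal.isGaussianProcess.isProbabilityMeasure
  have hi := (h.bm.toIsPreBrownianReal.indepFun_shift ρ).comp (meas_supH a L)
    (measurable_pi_apply (⟨ρ, le_refl ρ⟩ : Set.Iic ρ))
  have mY : Measurable fun ω => supH a L fun t => b ω (ρ + t) - b ω ρ :=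
    (meas_supH a L).comp (measurable_pi_lambda _ fun t => (meas_t h _).sub (meas_t h _))
  have hi' : IndepFun (fun ω => supH a L fun t => b ω (ρ + t) - b ω ρ) (fun ω => b ω ρ) P := hi
  have e := (indepFun_iff_map_prod_eq_prod_map_map mY.aemeasurable
    (meas_t h ρ).aemeasurable).1 hi'
  have ms : MeasurableSet {p : ℝ × ℝ | p.2 + p.1 = a * ρ} :=
    measurableSet_eq_fun (measurable_snd.add measurable_fst) measurable_const
  have e2 : P.map (fun ω => (supH a L fun t => b ω (ρ + t) - b ω ρ, b ω ρ))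
      {p : ℝ × ℝ | p.2 + p.1 = a * ρ} = 0 := by
    rw [e, Measure.measure_prod_null ms]
    refine Eventually.of_forall fun y => ?_
    have hl := (h.bm.toIsPreBrownianReal.hasLaw_eval ρ).map_eq
    have := nullSingletonClass_gaussianReal (μ := 0) hρ
    have e3 : Prod.mk y ⁻¹' {p : ℝ × ℝ | p.2 + p.1 = a * ρ} = {a * ρ - y} := by
      ext x
      simp [eq_sub_iff_add_eq]
    simp only [e3, Pi.zero_apply]
    rw [hl]
    exact measure_singleton _
  rw [Measure.map_apply (mY.prodMk (meas_t h ρ)) ms] at e2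
  rw [ae_iff]
  simpa using e2

theorem no_max (h : BM1 P b) (a : ℝ) : ∀ᵐ ω ∂P, ∀ r r' : ℚ, 0 < r → r < r' →
    ¬((∀ t : ℝ≥0, (r : ℝ) ≤ t → (t : ℝ) ≤ r' → b ω t - a * t ≤ 0) ∧
      ∃ t : ℝ≥0, (r : ℝ) ≤ t ∧ (t : ℝ) ≤ r' ∧ b ω t - a * t = 0) := by
  refine ae_all_iff.2 fun r => ae_all_iff.2 fun r' => ?_
  by_cases hr : 0 < r ∧ r < r'
  swap
  · exact Eventually.of_forall fun ω h1 h2 => absurd ⟨h1, h2⟩ hr
  have r0 : (0 : ℝ) < r := by exact_mod_cast hr.1
  have r1 : (r : ℝ) < r' := by exact_mod_cast hr.2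
  set ρ : ℝ≥0 := ⟨r, r0.le⟩ with hρ
  set L : ℝ≥0 := ⟨r' - r, by linarith⟩ with hL
  have cρ : (ρ : ℝ) = r := rfl
  have cL : (L : ℝ) = r' - r := rfl
  have hρ0 : ρ ≠ 0 := by
    intro e
    have : (ρ : ℝ) = 0 := by rw [e]; rfl
    linarith
  filter_upwards [no_atom h a ρ L hρ0] with ω hω _ _
  rintro ⟨h1, t, t1, t2, t3⟩
  apply hω
  have up : ∀ q : ℚ, b ω (ρ + cl 0 L q) - b ω ρ - a * cl 0 L q ≤ a * ρ - b ω ρ := by
    intro q
    have hm := cl_mem (zero_le (a := L)) q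
    have m1 : (0 : ℝ) ≤ cl 0 L q := (cl 0 L q).2
    have m2 : ((cl 0 L q : ℝ≥0) : ℝ) ≤ L := hm.2
    have := h1 (ρ + cl 0 L q) (by push_cast; linarith) (by push_cast; linarith)
    push_cast at this
    linarith
  have bd : BddAbove (range fun q : ℚ => b ω (ρ + cl 0 L q) - b ω ρ - a * cl 0 L q) :=
    ⟨_, by rintro _ ⟨q, rfl⟩; exact up q⟩
  have u1 : supH a L (fun t => b ω (ρ + t) - b ω ρ) ≤ a * ρ - b ω ρ := ciSup_le up
  have hc := h.cont ω
  have hρt : ρ ≤ t := by rw [← NNReal.coe_le_coe]; linarith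
  have u2 := dens (g := fun u : ℝ≥0 => b ω (ρ + u) - b ω ρ - a * u) (by fun_prop) (u := 0)
    (v := L) (c := supH a L fun t => b ω (ρ + t) - b ω ρ) (fun q => le_ciSup bd q)
    (t := t - ρ) ⟨zero_le, by
      rw [← NNReal.coe_le_coe, NNReal.coe_sub hρt]; linarith⟩
  simp only [add_tsub_cancel_of_le hρt, NNReal.coe_sub hρt] at u2
  linarith

theorem meas_zero (h : BM1 P b) (a : ℝ) {u v : ℝ≥0} (huv : u ≤ v) :
    MeasurableSet {ω | ∃ t ∈ Icc u v, b ω t - a * t = 0} := by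
  have e : {ω | ∃ t ∈ Icc u v, b ω t - a * t = 0} =
      ⋂ m : ℕ, ⋃ q : ℚ, {ω | |b ω (cl u v q) - a * cl u v q| < 1 / ((m : ℝ) + 1)} := by
    ext ω
    have hc := h.cont ω
    simp only [mem_ofPred_eq, mem_iInter, mem_iUnion]
    constructor
    · rintro ⟨t, ht, h0⟩ m
      by_contra hn
      push Not at hn
      have := dens (g := fun t : ℝ≥0 => -|b ω t - a * t|) (by fun_prop) (u := u) (v := v)
        (c := -(1 / ((m : ℝ) + 1))) (fun q => neg_le_neg (hn q)) ht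
      simp only [h0, abs_zero] at this
      have := Nat.one_div_pos_of_nat (α := ℝ) (n := m)
      linarith
    · intro hm
      obtain ⟨t, ht, hmin⟩ := (isCompact_Icc (a := u) (b := v)).exists_isMinOn
        (nonempty_Icc.2 huv) (f := fun t : ℝ≥0 => |b ω t - a * t|) (by fun_prop)
      refine ⟨t, ht, ?_⟩
      by_contra hne
      obtain ⟨m, hm'⟩ := exists_nat_one_div_lt (abs_pos.2 hne)
      obtain ⟨q, hq⟩ := hm m
      have : |b ω t - a * t| ≤ |b ω (cl u v q) - a * cl u v q| := hmin (cl_mem huv q)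
      linarith
  rw [e]
  exact MeasurableSet.iInter fun m => MeasurableSet.iUnion fun q =>
    measurableSet_lt ((meas_t h _).sub measurable_const).abs measurable_const

theorem meas_later (h : BM1 P b) (a : ℝ) (s : ℝ≥0) :
    MeasurableSet {ω | ∃ t, s < t ∧ b ω t - a * t = 0} := by
  have e : {ω | ∃ t, s < t ∧ b ω t - a * t = 0} = ⋃ m : ℕ, ⋃ n : ℕ,
      {ω | ∃ t ∈ Icc (s + 1 / ((m : ℝ≥0) + 1)) (s + 1 / ((m : ℝ≥0) + 1) + n),
        b ω t - a * t = 0} := by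
    ext ω
    simp only [mem_ofPred_eq, mem_iUnion]
    constructor
    · rintro ⟨t, ht, h0⟩
      obtain ⟨m, hm⟩ := exists_nat_one_div_lt (tsub_pos_of_lt ht)
      obtain ⟨n, hn⟩ := exists_nat_ge t
      exact ⟨m, n, t, ⟨(lt_tsub_iff_left.1 hm).le, hn.trans le_add_self⟩, h0⟩
    · rintro ⟨m, n, t, ht, h0⟩
      exact ⟨t, lt_of_lt_of_le (lt_add_of_pos_right s (by positivity)) ht.1, h0⟩
  rw [e]
  exact MeasurableSet.iUnion fun m => MeasurableSet.iUnion fun n => meas_zero h a le_self_add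

theorem meas_last (h : BM1 P b) (a : ℝ) : Measurable fun ω => lastZero a (b ω) := by
  refine measurable_of_Ioi fun s => ?_
  have e : (fun ω => lastZero a (b ω)) ⁻¹' Ioi s =
      (⋃ n : ℕ, {ω | ∃ t, (n : ℝ≥0) < t ∧ b ω t - a * t = 0}ᶜ) ∩
        {ω | ∃ t, s < t ∧ b ω t - a * t = 0} := by
    ext ω
    simp only [mem_preimage, mem_Ioi, mem_inter_iff, mem_iUnion, mem_compl_iff, mem_ofPred_eq,
      lastZero]
    constructor
    · intro hs
      constructor
      · have hb : BddAbove {s : ℝ≥0 | b ω s - a * s = 0} := by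
          by_contra hn
          rw [csSup_of_not_bddAbove hn, csSup_empty] at hs
          exact not_lt_bot hs
        obtain ⟨B, hB⟩ := hb
        obtain ⟨n, hn⟩ := exists_nat_ge B
        exact ⟨n, fun ⟨t, ht, h0⟩ => absurd ((hB h0).trans hn) (not_le.2 ht)⟩
      · obtain ⟨t, ht, hst⟩ := exists_lt_of_lt_csSup' hs
        exact ⟨t, hst, ht⟩
    · rintro ⟨⟨n, hn⟩, t, hst, h0⟩
      refine lt_csSup_of_lt ⟨n, fun t' ht' => ?_⟩ h0 hst
      by_contra hlt
      exact hn ⟨t', not_le.1 hlt, ht'⟩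
  rw [e]
  exact (MeasurableSet.iUnion fun n => (meas_later h a _).compl).inter (meas_later h a s)

end

end BMX

theorem blk_BMX (_hG1 : St_G1) (hG1D : St_G1D) (hG3 : St_G3) (hCH : St_CH) (hM0 : St_M0)
    (hMOD : St_MOD) (hFE : St_FE) (_hEXP1 : St_EXP1) (hGEO1 : St_GEO1) : St_BMX := by
  obtain ⟨v, hv⟩ := BMX.exists_v hM0 hMOD hFE
  refine ⟨BMX.meas_osc, BMX.le_osc, fun Ω _ P b h => ⟨?_, BMX.cg h, ?_, ?_, ?_, ?_, ?_, ?_⟩⟩
  · exact h.bm.toIsPreBrownianReal.isGaussianProcess.isProbabilityMeasure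
  · exact h.bm.toIsPreBrownianReal.eval_zero_ae_eq_zero
  · exact BMX.osc_mom hG3 hCH hGEO1 h hv
  · exact BMX.growth hG1D hG3 hCH hGEO1 h hv
  · exact BMX.no_tie h
  · exact BMX.no_max h
  · exact BMX.meas_last h

end

end Pool.Agent.Lib.APPS
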