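import Pool.Agent.Lib.APPS.Blue3

/-!
Block BR: the lattice chaos sums converge in law to the area measure.
-/

namespace Pool.Agent.Lib.APPS

open MeasureTheory ProbabilityTheory Filter Topology Set Metric
open scoped NNReal ENNReal CompactlySupported RealInnerProductSpace Classical

noncomputable section

namespace BR

theorem fin_lat (r : ℝ) (hr : 0 < r) (c : ℂ) (T : ℝ) :
    {i : ℤ × ℤ | ‖(r : ℂ) * (zc i + c)‖ ≤ T}.Finite := by
  obtain ⟨N, hN⟩ := exists_nat_ge (T / r + ‖c‖)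
  refine (Set.finite_Icc ((-N, -N) : ℤ × ℤ) (N, N)).subset fun i hi => ?_
  have h1 : ‖zc i + c‖ ≤ T / r := by
    rw [le_div_iff₀ hr, mul_comm]
    simpa [abs_of_pos hr] using hi
  have h2 : ‖zc i‖ ≤ N := by
    have := norm_sub_le (zc i + c) c
    rw [add_sub_cancel_right] at this
    linarith
  have a1 : |(i.1 : ℝ)| ≤ N := by
    simpa [zc] using (Complex.abs_re_le_norm (zc i)).trans h2
  have a2 : |(i.2 : ℝ)| ≤ N := by
    simpa [zc] using (Complex.abs_im_le_norm (zc i)).trans h2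
  have b1 : |i.1| ≤ N := by exact_mod_cast a1
  have b2 : |i.2| ≤ N := by exact_mod_cast a2
  rw [abs_le] at b1 b2
  exact ⟨⟨b1.1, b2.1⟩, ⟨b1.2, b2.2⟩⟩

theorem zc_ne {i : ℤ × ℤ} (h : i ≠ 0) : zc i ≠ 0 := fun e => by
  have a1 := congrArg Complex.re e
  have a2 := congrArg Complex.im e
  simp only [zc, Complex.add_re, Complex.intCast_re, Complex.mul_re, Complex.I_re, mul_zero,
    Complex.intCast_im, Complex.I_im, mul_one, sub_self, add_zero, Complex.zero_re,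
    Int.cast_eq_zero, Complex.add_im, Complex.mul_im, zero_add, Complex.zero_im] at a1 a2
  exact h (Prod.ext a1 a2)

theorem wlat_eq (γ : ℝ) (L l : ℕ) (T : ℝ) : ∃ s : Finset (ℤ × ℤ), ∀ (M : Model) (g : Cyl → ℝ),
    (∀ x, x ≠ 0 → g (toCyl x) ≠ 0 → ‖x‖ ≤ T) → ∀ ω, M.Wlat γ L l g ω =
      ∑ i ∈ s, if i = 0 then 0 else
        (1 / 4 : ℝ) ^ l * (2 ^ L * (1 / 2 : ℝ) ^ l) ^ (γ ^ 2 / 2) *
          g (toCyl ((((1 / 2 : ℝ) ^ l : ℝ) : ℂ) * zc i)) *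
          Real.exp (γ * ω (M.eC ((((1 / 2 : ℝ) ^ l : ℝ) : ℂ) * zc i) (2 ^ L * (1 / 2 : ℝ) ^ l)
            - M.eC 0 1)) := by
  have hr : (0 : ℝ) < (1 / 2 : ℝ) ^ l := by positivity
  refine ⟨(fin_lat _ hr 0 T).toFinset, fun M g hg ω => tsum_eq_sum fun i hi => ?_⟩
  split_ifs with h
  · rfl
  · have : g (toCyl ((((1 / 2 : ℝ) ^ l : ℝ) : ℂ) * zc i)) = 0 := by
      by_contra e
      refine hi ((Set.Finite.mem_toFinset _).2 ?_)
      have := hg _ (mul_ne_zero (Complex.ofReal_ne_zero.2 hr.ne') (zc_ne h)) e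
      simpa only [mem_ofPred_eq, add_zero] using this
    rw [this, mul_zero, zero_mul]

theorem rs_eq (γ : ℝ) (θ : Measure ℂ) (k l : ℕ) (T : ℝ) : ∃ s : Finset (ℤ × ℤ),
    ∀ (M : Model) (g : Cyl → ℝ), (∀ x, g (toCyl x) ≠ 0 → ‖x‖ ≤ T) → ∀ ω, M.Rs γ θ k l g ω =
      ∑ i ∈ s, (1 / 4 : ℝ) ^ l / ‖xl l i‖ ^ 2 * (g (toCyl (xl l i)) *
        (((1 / 2 : ℝ) ^ k) ^ (γ ^ 2 / 2) * Real.exp (γ * (ω (M.radV (toCyl (xl l i)).1) -
          QQ γ * (toCyl (xl l i)).1 + ω (M.lamV θ (toCyl (xl l i), k)))))) := by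
  have hr : (0 : ℝ) < (1 / 2 : ℝ) ^ l := by positivity
  refine ⟨(fin_lat _ hr ((1 + Complex.I) / 2) T).toFinset,
    fun M g hg ω => tsum_eq_sum fun i hi => ?_⟩
  have : g (toCyl (xl l i)) = 0 := by
    by_contra e
    exact hi ((Set.Finite.mem_toFinset _).2 (hg _ e))
  simp only [this, zero_mul, mul_zero]

theorem meas_wlat (γ : ℝ) (M : Model) (L l : ℕ) (g : Cyl → ℝ)
    (h : ∃ T : ℝ, ∀ x, x ≠ 0 → g (toCyl x) ≠ 0 → ‖x‖ ≤ T) : Measurable (M.Wlat γ L l g) := by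
  obtain ⟨T, hT⟩ := h
  obtain ⟨s, hs⟩ := wlat_eq γ L l T
  rw [funext (hs M g hT)]
  refine Finset.measurable_sum _ fun i _ => ?_
  split_ifs
  · exact measurable_const
  · exact (((meas_ev _).const_mul γ).exp).const_mul _

theorem supp (hC : St_CYL) (g : C_c(Cyl, ℝ)) : ∃ T : ℝ, ∀ x, g (toCyl x) ≠ 0 → ‖x‖ ≤ T := by
  obtain ⟨T, hT⟩ := (hC.2.2.2.2.2.2.2.2.2.2.2.2.1 g).2.2.2
  refine ⟨Real.exp T, fun x hx => ?_⟩
  by_cases h : x = 0
  · rw [h, norm_zero]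
    positivity
  · rw [← hC.1 x h, hC.2.2.2.2.2.1]
    exact Real.exp_le_exp.2 ((neg_le_abs _).trans (hT _ hx))

theorem close {Ω : Type} [MeasurableSpace Ω] (P : Measure Ω) [IsProbabilityMeasure P] {n : ℕ}
    {X Y : Ω → Fin n → ℝ} (hX : AEMeasurable X P) (hY : AEMeasurable Y P) {Λ : ℝ≥0}
    {G : (Fin n → ℝ) → ℝ} (hG : BL Λ G) {δ p : ℝ} (hδ : 0 ≤ δ) (hp : 0 ≤ p)
    (h : ∀ i, P {ω | δ < |X ω i - Y ω i|} ≤ ENNReal.ofReal p) :
    |∫ ω, G (X ω) ∂P - ∫ ω, G (Y ω) ∂P| ≤ Λ * δ + 2 * (n * p) := by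
  have hi : ∀ Z : Ω → Fin n → ℝ, AEMeasurable Z P → Integrable (fun ω => G (Z ω)) P := fun Z hZ =>
    Integrable.of_bound (hG.1.continuous.measurable.comp_aemeasurable hZ).aestronglyMeasurable 1
      (ae_of_all _ fun ω => hG.2 _)
  set B := toMeasurable P (⋃ i, {ω | δ < |X ω i - Y ω i|}) with hB
  have mB : MeasurableSet B := measurableSet_toMeasurable _ _
  have hPB : P.real B ≤ n * p := by
    rw [measureReal_def, hB, measure_toMeasurable]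
    refine ENNReal.toReal_le_of_le_ofReal (by positivity) ((measure_iUnion_fintype_le _ _).trans ?_)
    refine (Finset.sum_le_sum fun i _ => h i).trans_eq ?_
    rw [Finset.sum_const, Finset.card_univ, Fintype.card_fin, nsmul_eq_mul,
      ENNReal.ofReal_mul (Nat.cast_nonneg n), ENNReal.ofReal_natCast]
  have i2 : Integrable (B.indicator fun _ => (2 : ℝ)) P := (integrable_const _).indicator mB
  rw [← integral_sub (hi X hX) (hi Y hY)]
  refine (abs_integral_le_integral_abs).trans ((integral_mono ((hi X hX).sub (hi Y hY)).abs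
    ((integrable_const (Λ * δ : ℝ)).add i2) fun ω => ?_).trans ?_)
  · change |G (X ω) - G (Y ω)| ≤ Λ * δ + B.indicator (fun _ => (2 : ℝ)) ω
    by_cases hω : ω ∈ B
    · rw [indicator_of_mem hω]
      have a1 := abs_le.1 (hG.2 (X ω))
      have a2 := abs_le.1 (hG.2 (Y ω))
      have a3 : (0 : ℝ) ≤ Λ * δ := by positivity
      rw [abs_le]
      constructor <;> linarith
    · rw [indicator_of_notMem hω, add_zero, ← Real.dist_eq]
      refine (hG.1.dist_le_mul _ _).trans (mul_le_mul_of_nonneg_left ?_ Λ.2)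
      rw [dist_pi_le_iff hδ]
      intro i
      by_contra e
      exact hω (subset_toMeasurable _ _ (mem_iUnion.2 ⟨i, not_le.1 e⟩))
  · change ∫ ω, (Λ * δ + B.indicator (fun _ => (2 : ℝ)) ω) ∂P ≤ _
    rw [integral_add (integrable_const _) i2, integral_indicator_const _ mB]
    simp only [integral_const, probReal_univ, smul_eq_mul, one_mul]
    linarith

theorem brb (hC : St_CYL) (hb : St_BRb) {γ : ℝ} (hγ : γ ∈ Ioo (0 : ℝ) 2) {θ : Measure ℂ}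
    (hθ : IsMoll θ) (g : C_c(Cyl, ℝ)) {η : ℝ} (hη : 0 < η) :
    ∀ᶠ L in atTop, ∀ᶠ l in atTop, ∀ᶠ k in atTop, ∀ᶠ l' in atTop, ∀ M : Model,
      gm {ω | 2 * η < |M.Rs γ θ k l' g ω - Real.exp (γ ^ 2 * Ie θ θ / 2) * M.Wlat γ L l g ω|} ≤
        ENNReal.ofReal (2 * η) := by
  have key : ∀ f : C_c(Cyl, ℝ), (∀ w, 0 ≤ f w) →
      ∀ᶠ L in atTop, ∀ᶠ l in atTop, ∀ᶠ k in atTop, ∀ᶠ l' in atTop, ∀ M : Model,
      gm {ω | η < |M.Rs γ θ k l' f ω - Real.exp (γ ^ 2 * Ie θ θ / 2) * M.Wlat γ L l f ω|} ≤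
        ENNReal.ofReal η := fun f hf => by
    simp only [eventually_atTop]
    exact hb γ hγ θ hθ f hf η hη
  obtain ⟨T, hT⟩ := supp hC g
  have e0 : ∀ w, g w = (g ⊔ 0 : C_c(Cyl, ℝ)) w - ((-g) ⊔ 0 : C_c(Cyl, ℝ)) w := fun w => by
    simp
  have s1 : ∀ x, (g ⊔ 0 : C_c(Cyl, ℝ)) (toCyl x) ≠ 0 → ‖x‖ ≤ T := fun x hx =>
    hT x fun e => hx (by simp [e])
  have s2 : ∀ x, ((-g) ⊔ 0 : C_c(Cyl, ℝ)) (toCyl x) ≠ 0 → ‖x‖ ≤ T := fun x hx =>
    hT x fun e => hx (by simp [e])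
  filter_upwards [key (g ⊔ 0) fun w => by simp, key ((-g) ⊔ 0) fun w => by simp] with L h1 h2
  filter_upwards [h1, h2] with l h1 h2
  filter_upwards [h1, h2] with k h1 h2
  filter_upwards [h1, h2] with l' h1 h2 M
  rw [two_mul, ENNReal.ofReal_add hη.le hη.le]
  refine le_trans (measure_mono fun ω hω => ?_)
    ((measure_union_le _ _).trans (add_le_add (h1 M) (h2 M)))
  obtain ⟨s, hs⟩ := wlat_eq γ L l T
  obtain ⟨s', hs'⟩ := rs_eq γ θ k l' T
  have e1 : M.Wlat γ L l g ω = M.Wlat γ L l (g ⊔ 0 : C_c(Cyl, ℝ)) ω -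
      M.Wlat γ L l ((-g) ⊔ 0 : C_c(Cyl, ℝ)) ω := by
    rw [hs M _ fun x _ => hT x, hs M _ fun x _ => s1 x, hs M _ fun x _ => s2 x,
      ← Finset.sum_sub_distrib]
    refine Finset.sum_congr rfl fun i _ => ?_
    split_ifs
    · ring
    · rw [e0]; ring
  have e2 : M.Rs γ θ k l' g ω = M.Rs γ θ k l' (g ⊔ 0 : C_c(Cyl, ℝ)) ω -
      M.Rs γ θ k l' ((-g) ⊔ 0 : C_c(Cyl, ℝ)) ω := by
    rw [hs' M _ hT, hs' M _ s1, hs' M _ s2, ← Finset.sum_sub_distrib]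
    refine Finset.sum_congr rfl fun i _ => ?_
    rw [e0]; ring
  by_contra hc
  simp only [mem_union, mem_ofPred_eq, not_or, not_lt, abs_le] at hc
  rw [mem_ofPred_eq, e1, e2] at hω
  refine absurd hω (not_lt.2 (abs_le.2 ⟨?_, ?_⟩)) <;> linarith [hc.1.1, hc.1.2, hc.2.1, hc.2.2]

end BR

open BR in
theorem blk_BR (hG1 : St_G1) (_hM0 : St_M0) (hC : St_CYL) (hBM : St_BM2) (h0 : St_BR0)
    (ha : St_BRa) (hb : St_BRb) : St_BR := by
  intro γ hγ
  refine ⟨meas_wlat γ, fun D n g Λ η hη => ?_⟩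
  have : IsProbabilityMeasure gm := hG1.1
  obtain ⟨hBP, hP⟩ := hBM.1 γ D
  obtain ⟨-, -, -, -, hj, -, -, hc, -⟩ := hBM.2.2.2 D.Ω D.P D.β hBP
  have hZ := (h0 γ hγ D).2 D.ZQ (hj.sub (measurable_snd.const_mul _))
    (hc.mono fun ω h => h.1.sub (continuous_const.mul continuous_id))
  set c := Real.exp (-(γ ^ 2 * Ie D.θ D.θ / 2)) with hc'
  have hc0 : 0 < c := Real.exp_pos _
  set Λ' : ℝ≥0 := Λ * ‖c‖₊ with hΛ'
  set δ := η / (3 * (2 * (Λ' + 2 * n) + 1)) with hδ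
  have hδ0 : 0 < δ := by positivity
  have hδ1 : Λ' * (2 * δ) + 2 * (n * (2 * δ)) ≤ η / 3 := by
    have : δ * (2 * (Λ' + 2 * n) + 1) = η / 3 := by rw [hδ]; field_simp
    nlinarith
  have h1 := eventually_all.2 fun i => brb hC hb hγ D.hθ (g i) hδ0
  have h3 : ∀ᶠ k in atTop, ∀ i, D.P {ω | 2 * δ < |D.Ik D.ZQ k (g i) ω -
      ∫ w, g i w ∂D.muZ D.ZQ ω|} ≤ ENNReal.ofReal (2 * δ) := eventually_all.2 fun i => by
    have := tendstoInMeasure_iff_norm.1 (hZ (g i)).2.2 (2 * δ) (by positivity)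
    filter_upwards [this.eventually_le_const (ENNReal.ofReal_pos.2 (by positivity : 0 < 2 * δ))]
      with k hk
    refine le_trans (measure_mono fun ω hω => ?_) hk
    rw [mem_ofPred_eq] at hω ⊢
    exact hω.le
  suffices H : ∀ᶠ L in atTop, ∀ᶠ l in atTop, ∀ M : Model, ∀ G : (Fin n → ℝ) → ℝ, BL Λ G →
      |∫ ω, G (fun i => M.Wlat γ L l (g i) ω) ∂gm - ∫ ω, G (fun i =>
        c * ∫ w, g i w ∂D.muZ D.ZQ ω) ∂D.P| ≤ η by
    simpa only [eventually_atTop] using H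
  filter_upwards [h1] with L h1
  filter_upwards [eventually_all.2 h1] with l h1 M G hG
  obtain ⟨k, h1, h3⟩ := ((eventually_all.2 h1).and h3).exists
  obtain ⟨l1, h2⟩ := ha γ hγ D n g Λ' k (η / 3) (by positivity)
  obtain ⟨l', h1, h4⟩ := ((eventually_all.2 h1).and (eventually_ge_atTop l1)).exists
  obtain ⟨hR, h2⟩ := h2 l' h4 M
  have hG' : BL Λ' fun s => G (c • s) :=
    ⟨hG.1.comp (lipschitzWith_smul c), fun s => hG.2 _⟩
  have mW : ∀ i, Measurable (M.Wlat γ L l (g i)) := fun i =>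
    meas_wlat γ M L l _ ((supp hC (g i)).imp fun T hT x _ => hT x)
  have a1 := close gm (X := fun ω i => M.Rs γ D.θ k l' (g i) ω)
    (Y := fun ω i => Real.exp (γ ^ 2 * Ie D.θ D.θ / 2) * M.Wlat γ L l (g i) ω)
    (measurable_pi_lambda _ hR).aemeasurable
    (measurable_pi_lambda _ fun i => (mW i).const_mul _).aemeasurable hG' (by positivity)
    (by positivity) fun i => h1 i M
  have a2 := h2 _ hG'
  have a3 := close D.P (X := fun ω i => D.Ik D.ZQ k (g i) ω)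
    (Y := fun ω i => ∫ w, g i w ∂D.muZ D.ZQ ω)
    (measurable_pi_lambda _ fun i => (hZ (g i)).1 k).aemeasurable
    (aemeasurable_pi_lambda _ fun i => (hZ (g i)).2.1) hG' (by positivity) (by positivity) h3
  have e1 : ∀ ω, (c • fun i => Real.exp (γ ^ 2 * Ie D.θ D.θ / 2) * M.Wlat γ L l (g i) ω) =
      fun i => M.Wlat γ L l (g i) ω := fun ω => by
    funext i
    rw [Pi.smul_apply, smul_eq_mul, ← mul_assoc, hc', ← Real.exp_add, neg_add_cancel,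
      Real.exp_zero, one_mul]
  have e2 : ∀ ω, (c • fun i => ∫ w, g i w ∂D.muZ D.ZQ ω) =
      fun i => c * ∫ w, g i w ∂D.muZ D.ZQ ω := fun ω => rfl
  simp only [e1] at a1
  simp only [e2] at a3
  rw [abs_le] at a1 a2 a3 ⊢
  constructor <;> linarith [a1.1, a1.2, a2.1, a2.2, a3.1, a3.2]

end

end Pool.Agent.Lib.APPS
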