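import Pool.Agent.Lib.APPS.Blue3

/-!
Block BR0: the regularised measures with an arbitrary continuous radial part converge in measure.
-/

namespace Pool.Agent.Lib.APPS

open MeasureTheory ProbabilityTheory Filter Topology Set Metric
open scoped NNReal ENNReal CompactlySupported BoundedContinuousFunction RealInnerProductSpace

noncomputable section

namespace BR0

/-- diagonal extraction for countably many sequences converging in measure -/
theorem diag {α : Type*} [MeasurableSpace α] {P : Measure α} {f : ℕ → ℕ → α → ℝ} {g : ℕ → α → ℝ}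
    (h : ∀ j, TendstoInMeasure P (f j) atTop (g j)) :
    ∃ ns : ℕ → ℕ, StrictMono ns ∧
      ∀ᵐ ω ∂P, ∀ j, Tendsto (fun i => f j (ns i) ω) atTop (𝓝 (g j ω)) := by
  have h1 : ∀ m : ℕ, ∀ᶠ k in atTop, ∀ j ∈ Finset.range (m + 1),
      P {x | (1 : ℝ) / (m + 1) ≤ dist (f j k x) (g j x)} ≤ (2⁻¹ : ℝ≥0∞) ^ m := by
    intro m
    rw [eventually_all_finset]
    intro j _
    have h2 := tendstoInMeasure_iff_dist.1 (h j) ((1 : ℝ) / (m + 1)) (by positivity)
    have h3 : (0 : ℝ≥0∞) < (2⁻¹ : ℝ≥0∞) ^ m := ENNReal.pow_pos (by simp) m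
    exact (h2.eventually (gt_mem_nhds h3)).mono fun k hk => hk.le
  obtain ⟨ns, hns, h2⟩ := extraction_forall_of_eventually h1
  refine ⟨ns, hns, ae_all_iff.2 fun j => ?_⟩
  have h3 : ∑' m : ℕ, P {x | j ≤ m ∧ (1 : ℝ) / (m + 1) ≤ dist (f j (ns m) x) (g j x)} ≠ ∞ := by
    refine ne_top_of_le_ne_top ?_ (ENNReal.tsum_le_tsum (g := fun m => (2⁻¹ : ℝ≥0∞) ^ m) ?_)
    · rw [ENNReal.tsum_geometric]; simp
    · intro m
      by_cases hj : j ≤ m
      · refine le_trans (measure_mono fun x hx => hx.2) (h2 m j ?_)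
        simp only [Finset.mem_range]; omega
      · simp [hj]
  filter_upwards [ae_eventually_notMem h3] with ω hω
  rw [Metric.tendsto_atTop]
  intro ε hε
  obtain ⟨N, hN⟩ := eventually_atTop.1 hω
  obtain ⟨M, hM⟩ := exists_nat_one_div_lt hε
  refine ⟨max (max N j) M, fun m hm => ?_⟩
  have h4 := hN m (le_trans (le_trans (le_max_left _ _) (le_max_left _ _)) hm)
  simp only [not_and, not_le] at h4
  have h5 := h4 (le_trans (le_trans (le_max_right _ _) (le_max_left _ _)) hm)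
  have h6 : (1 : ℝ) / (m + 1) ≤ 1 / (M + 1) := by
    have : (M : ℝ) ≤ m := by exact_mod_cast le_trans (le_max_right _ _) hm
    gcongr
  linarith

theorem integ_mul {X : Type*} [MeasurableSpace X] {m : Measure X} {f ρ a : X → ℝ} {B : ℝ}
    (hf : Measurable f) (hρ : Measurable ρ) (ha : Measurable a) (hρ0 : ∀ w, 0 ≤ ρ w)
    (hi : Integrable (fun w => |f w| * ρ w) m) (hB : ∀ w, f w ≠ 0 → |a w| ≤ B) :
    Integrable (fun w => a w * f w * ρ w) m ∧
      |∫ w, a w * f w * ρ w ∂m| ≤ B * ∫ w, |f w| * ρ w ∂m := by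
  have hb : ∀ w, ‖a w * f w * ρ w‖ ≤ B * (|f w| * ρ w) := by
    intro w
    by_cases h0 : f w = 0
    · simp [h0]
    · rw [Real.norm_eq_abs, abs_mul, abs_mul, abs_of_nonneg (hρ0 w), mul_assoc]
      exact mul_le_mul_of_nonneg_right (hB w h0) (mul_nonneg (abs_nonneg _) (hρ0 w))
  have hI : Integrable (fun w => a w * f w * ρ w) m :=
    (hi.const_mul B).mono' ((ha.mul hf).mul hρ).aestronglyMeasurable (ae_of_all _ hb)
  refine ⟨hI, ?_⟩
  rw [← integral_const_mul, ← Real.norm_eq_abs]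
  exact norm_integral_le_of_norm_le (hi.const_mul B) (ae_of_all _ hb)

/-- the deterministic approximation lemma -/
theorem det {X : Type*} [MeasurableSpace X] {m μ : Measure X} {f g : X → ℝ} {ρ e q : ℕ → X → ℝ}
    {G : ℝ} (hf : Measurable f) (hg : Measurable g) (hρ : ∀ k, Measurable (ρ k))
    (he : ∀ k, Measurable (e k)) (hq : ∀ j, Measurable (q j)) (hρ0 : ∀ k w, 0 ≤ ρ k w)
    (hi : ∀ k, Integrable (fun w => |f w| * ρ k w) m) (hμ : Integrable f μ)
    (hG : ∀ w, f w ≠ 0 → |g w| ≤ G)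
    (hu : ∀ ε > 0, ∀ᶠ k in atTop, ∀ w, f w ≠ 0 → |e k w - g w| ≤ ε)
    (hd : ∀ ε > 0, ∃ j, ∀ w, f w ≠ 0 → |q j w - g w| ≤ ε)
    (h1 : ∀ j, Tendsto (fun k => ∫ w, q j w * f w * ρ k w ∂m) atTop (𝓝 (∫ w, q j w * f w ∂μ)))
    (h2 : Tendsto (fun k => ∫ w, |f w| * ρ k w ∂m) atTop (𝓝 (∫ w, |f w| ∂μ))) :
    Tendsto (fun k => ∫ w, e k w * f w * ρ k w ∂m) atTop (𝓝 (∫ w, g w * f w ∂μ)) := by
  rw [Metric.tendsto_atTop]
  intro ε hε
  set A := ∫ w, |f w| ∂μ with hA
  have hA0 : 0 ≤ A := integral_nonneg fun w => abs_nonneg _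
  set δ := ε / (4 * (A + 1)) with hδ
  have hδ0 : 0 < δ := by positivity
  obtain ⟨j, hj⟩ := hd δ hδ0
  have e1 := hu δ hδ0
  have e2 := (h1 j).eventually (Metric.ball_mem_nhds _ hδ0)
  have e3 := h2.eventually (gt_mem_nhds (lt_add_one A))
  obtain ⟨N, hN⟩ := eventually_atTop.1 (e1.and (e2.and e3))
  refine ⟨N, fun k hk => ?_⟩
  obtain ⟨a1, a2, a3⟩ := hN k hk
  rw [Real.dist_eq] at a2 ⊢
  have b1 := integ_mul (a := fun w => e k w - q j w) (B := 2 * δ) hf (hρ k) ((he k).sub (hq j))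
    (hρ0 k) (hi k) fun w hw => by
      have := a1 w hw; have := hj w hw
      rw [abs_le] at *; constructor <;> linarith [this.1, this.2]
  have b2 := integ_mul (a := q j) (B := G + δ) hf (hρ k) (hq j) (hρ0 k) (hi k) fun w hw => by
      have h3 := hG w hw; have h4 := hj w hw
      rw [abs_le] at *; constructor <;> linarith [h3.1, h3.2, h4.1, h4.2]
  have hi1 : Integrable (fun w => |f w| * (1 : ℝ)) μ := by simpa using hμ.abs
  have b3 := integ_mul (a := fun w => q j w - g w) (ρ := fun _ => 1) (B := δ) hf measurable_const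
    ((hq j).sub hg) (fun _ => zero_le_one) hi1 hj
  have b4 := integ_mul (a := g) (ρ := fun _ => 1) (B := G) hf measurable_const hg
    (fun _ => zero_le_one) hi1 hG
  simp only [mul_one] at b3 b4
  have c1 : ∫ w, e k w * f w * ρ k w ∂m =
      ∫ w, (e k w - q j w) * f w * ρ k w ∂m + ∫ w, q j w * f w * ρ k w ∂m := by
    rw [← integral_add b1.1 b2.1]; congr 1; ext w; ring
  have c2 : ∫ w, q j w * f w ∂μ = ∫ w, (q j w - g w) * f w ∂μ + ∫ w, g w * f w ∂μ := by
    rw [← integral_add b3.1 b4.1]; congr 1; ext w; ring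
  have d1 : |∫ w, (e k w - q j w) * f w * ρ k w ∂m| ≤ 2 * δ * (A + 1) :=
    b1.2.trans (mul_le_mul_of_nonneg_left a3.le (by positivity))
  have d2 : |∫ w, (q j w - g w) * f w ∂μ| ≤ δ * A := b3.2
  have d3 : δ * (4 * (A + 1)) = ε := by rw [hδ]; field_simp
  rw [c1]
  rw [c2] at a2
  rw [abs_lt] at a2 ⊢
  rw [abs_le] at d1 d2
  constructor <;> nlinarith [d1.1, d1.2, d2.1, d2.2, a2.1, a2.2, mul_nonneg hδ0.le hA0]

/-- mollified radial part -/
def rs (θ : Measure ℂ) (R : ℝ → ℝ) (k : ℕ) (t : ℝ) : ℝ := ∫ u, R (t + (1 / 2 : ℝ) ^ k * u.re) ∂θ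

theorem moll_int {θ : Measure ℂ} {R : ℝ → ℝ} (hR : Measurable R) (w : Cyl) (k : ℕ) :
    ∫ v, R v.1 ∂moll θ (w, k) = rs θ R k w.1 := by
  unfold moll rs
  rw [integral_map]
  · refine (Measurable.prodMk (by fun_prop) ?_).aemeasurable
    refine measurable_const.add ?_
    exact (AddCircle.continuous_mk' _).measurable.comp (by fun_prop)
  · exact (hR.comp measurable_fst).aestronglyMeasurable

theorem rs_meas {θ : Measure ℂ} [SFinite θ] {R : ℝ → ℝ} (hR : Measurable R) (k : ℕ) :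
    Measurable (rs θ R k) := by
  have : StronglyMeasurable fun p : ℝ × ℂ => R (p.1 + (1 / 2 : ℝ) ^ k * p.2.re) :=
    (hR.comp (by fun_prop)).stronglyMeasurable
  exact (StronglyMeasurable.integral_prod_right' this).measurable

theorem rs_close {θ : Measure ℂ} (hθ : IsMoll θ) {R : ℝ → ℝ} (hR : Continuous R) (T : ℝ) :
    ∀ ε > 0, ∀ᶠ k in atTop, ∀ t, |t| ≤ T → |rs θ R k t - R t| ≤ ε := by
  have := hθ.prob
  intro ε hε
  have hu : UniformContinuousOn R (Icc (-(T + 1)) (T + 1)) :=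
    isCompact_Icc.uniformContinuousOn_of_continuous hR.continuousOn
  obtain ⟨δ, hδ, hδ'⟩ := Metric.uniformContinuousOn_iff.1 hu ε hε
  have h1 : Tendsto (fun k : ℕ => (1 / 2 : ℝ) ^ k) atTop (𝓝 0) :=
    tendsto_pow_atTop_nhds_zero_of_lt_one (by norm_num) (by norm_num)
  filter_upwards [h1.eventually (gt_mem_nhds hδ)] with k hk t ht
  have hp0 : (0 : ℝ) ≤ (1 / 2 : ℝ) ^ k := by positivity
  have hp1 : (1 / 2 : ℝ) ^ k ≤ 1 := pow_le_one₀ (by norm_num) (by norm_num)
  have hae : ∀ᵐ u ∂θ, ‖R (t + (1 / 2 : ℝ) ^ k * u.re) - R t‖ ≤ ε := by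
    have h2 : ∀ᵐ u ∂θ, u ∈ closedBall (0 : ℂ) 1 := hθ.supp
    filter_upwards [h2] with u hu1
    have h3 : |u.re| ≤ 1 := (Complex.abs_re_le_norm u).trans (by simpa using hu1)
    have h4 : |(1 / 2 : ℝ) ^ k * u.re| ≤ (1 / 2 : ℝ) ^ k := by
      rw [abs_mul, abs_of_nonneg hp0]; exact mul_le_of_le_one_right hp0 h3
    rw [abs_le] at ht h4
    have h5 := hδ' (t + (1 / 2 : ℝ) ^ k * u.re) ⟨by linarith, by linarith⟩ t
      ⟨by linarith, by linarith⟩ (by
        rw [Real.dist_eq, add_sub_cancel_left, abs_lt]; constructor <;> linarith)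
    rw [Real.dist_eq] at h5
    exact h5.le
  have hm : AEStronglyMeasurable (fun u : ℂ => R (t + (1 / 2 : ℝ) ^ k * u.re) - R t) θ :=
    Continuous.aestronglyMeasurable (by fun_prop)
  have hI : Integrable (fun u : ℂ => R (t + (1 / 2 : ℝ) ^ k * u.re) - R t) θ :=
    (integrable_const ε).mono' hm hae
  have h6 : rs θ R k t - R t = ∫ u, (R (t + (1 / 2 : ℝ) ^ k * u.re) - R t) ∂θ := by
    have h7 : Integrable (fun u : ℂ => R (t + (1 / 2 : ℝ) ^ k * u.re)) θ :=
      (hI.add (integrable_const (R t))).congr (ae_of_all _ fun u => by simp)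
    rw [integral_sub h7 (integrable_const _)]
    simp [rs]
  rw [h6, ← Real.norm_eq_abs]
  simpa using norm_integral_le_of_norm_le_const hae

theorem rs_bd {θ : Measure ℂ} (hθ : IsMoll θ) {R : ℝ → ℝ} (hR : Continuous R) (T : ℝ) (k : ℕ) :
    ∃ C, ∀ t, |t| ≤ T → |rs θ R k t| ≤ C := by
  have := hθ.prob
  obtain ⟨C, hC⟩ := (isCompact_Icc (a := -(T + 1)) (b := T + 1)).exists_bound_of_continuousOn
    hR.continuousOn
  refine ⟨C, fun t ht => ?_⟩
  have hp0 : (0 : ℝ) ≤ (1 / 2 : ℝ) ^ k := by positivity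
  have hp1 : (1 / 2 : ℝ) ^ k ≤ 1 := pow_le_one₀ (by norm_num) (by norm_num)
  have hae : ∀ᵐ u ∂θ, ‖R (t + (1 / 2 : ℝ) ^ k * u.re)‖ ≤ C := by
    have h2 : ∀ᵐ u ∂θ, u ∈ closedBall (0 : ℂ) 1 := hθ.supp
    filter_upwards [h2] with u hu1
    have h3 : |u.re| ≤ 1 := (Complex.abs_re_le_norm u).trans (by simpa using hu1)
    have h4 : |(1 / 2 : ℝ) ^ k * u.re| ≤ (1 / 2 : ℝ) ^ k := by
      rw [abs_mul, abs_of_nonneg hp0]; exact mul_le_of_le_one_right hp0 h3
    rw [abs_le] at ht h4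
    exact hC _ ⟨by linarith, by linarith⟩
  rw [← Real.norm_eq_abs]
  simpa [rs] using norm_integral_le_of_norm_le_const hae

theorem exp_close {γ : ℝ} {g z R : ℝ → ℝ} {r : ℕ → ℝ → ℝ} {T G : ℝ}
    (hg : ∀ t, g t = Real.exp (γ * (z t - R t))) (hG : ∀ t, |t| ≤ T → |g t| ≤ G)
    (hr : ∀ ε > 0, ∀ᶠ k in atTop, ∀ t, |t| ≤ T → |r k t - R t| ≤ ε) :
    ∀ ε > 0, ∀ᶠ k in atTop, ∀ t, |t| ≤ T → |Real.exp (γ * (z t - r k t)) - g t| ≤ ε := by
  intro ε hε
  set η := min 1 (ε / (2 * (|G| + 1))) with hη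
  have hη0 : 0 < η := lt_min one_pos (by positivity)
  filter_upwards [hr (η / (|γ| + 1)) (by positivity)] with k hk t ht
  have h1 : |γ * (R t - r k t)| ≤ η := by
    rw [abs_mul, abs_sub_comm]
    calc |γ| * |r k t - R t| ≤ (|γ| + 1) * (η / (|γ| + 1)) := by
          gcongr
          · linarith
          · exact hk t ht
      _ = η := by field_simp
  have h2 := Real.abs_exp_sub_one_le (h1.trans (min_le_left _ _))
  have h3 : Real.exp (γ * (z t - r k t)) - g t = g t * (Real.exp (γ * (R t - r k t)) - 1) := by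
    have : γ * (z t - r k t) = γ * (z t - R t) + γ * (R t - r k t) := by ring
    rw [hg, this, Real.exp_add]; ring
  rw [h3, abs_mul]
  calc |g t| * |Real.exp (γ * (R t - r k t)) - 1| ≤ (|G| + 1) * (2 * (ε / (2 * (|G| + 1)))) := by
        gcongr
        · linarith [hG t ht, le_abs_self G]
        · exact h2.trans (by linarith [h1.trans (min_le_right _ _)])
    _ = ε := by field_simp

theorem dense_fam (T : ℝ) : ∃ q : ℕ → ℝ → ℝ, (∀ j, Continuous (q j)) ∧
    ∀ g : ℝ → ℝ, Continuous g → ∀ ε > 0, ∃ j, ∀ t, |t| ≤ T → |q j t - g t| ≤ ε := by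
  have hT : -|T| ≤ |T| := by linarith [abs_nonneg T]
  let s : ℕ → C(Icc (-|T|) |T|, ℝ) := TopologicalSpace.denseSeq _
  refine ⟨fun j t => s j (projIcc _ _ hT t), fun j => (s j).continuous.comp continuous_projIcc,
    fun g hg ε hε => ?_⟩
  obtain ⟨j, hj⟩ := Metric.denseRange_iff.1
    (TopologicalSpace.denseRange_denseSeq C(Icc (-|T|) |T|, ℝ))
    ⟨fun t => g t, hg.comp continuous_subtype_val⟩ ε hε
  refine ⟨j, fun t ht => ?_⟩
  have ht' : t ∈ Icc (-|T|) |T| := by
    have := le_abs_self T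
    rw [abs_le] at ht; constructor <;> linarith
  have h1 := (ContinuousMap.dist_apply_le_dist (f := ⟨fun t : Icc (-|T|) |T| => g t,
    hg.comp continuous_subtype_val⟩) (g := s j) ⟨t, ht'⟩).trans hj.le
  rw [Real.dist_eq, abs_sub_comm] at h1
  simpa [projIcc_of_mem hT ht'] using h1

theorem eE_meas {α : Type*} [MeasurableSpace α] {z : α → ℝ} (hz : Measurable z) :
    Measurable fun a => eE (z a) := (Real.measurable_exp.comp hz).ennreal_ofReal

theorem wgt_wgt {γ : ℝ} {z z' : ℝ → ℝ} (hz : Measurable z) (hz' : Measurable z')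
    (m : Measure Cyl) : wgt γ z (wgt γ z' m) = wgt γ (fun t => z t + z' t) m := by
  unfold wgt
  have m1 : Measurable fun w : Cyl => eE (γ * z w.1) :=
    eE_meas ((hz.comp measurable_fst).const_mul γ)
  have m2 : Measurable fun w : Cyl => eE (γ * z' w.1) :=
    eE_meas ((hz'.comp measurable_fst).const_mul γ)
  rw [← withDensity_mul _ m2 m1]
  congr 1; ext w
  simp only [Pi.mul_apply, eE]
  rw [← ENNReal.ofReal_mul (Real.exp_pos _).le, ← Real.exp_add]; congr 2; ring

theorem wgt_int {γ : ℝ} {z : ℝ → ℝ} (hz : Measurable z) (m : Measure Cyl) (f : Cyl → ℝ) :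
    ∫ w, f w ∂wgt γ z m = ∫ w, Real.exp (γ * z w.1) * f w ∂m := by
  unfold wgt
  have m1 : Measurable fun w : Cyl => eE (γ * z w.1) :=
    eE_meas ((hz.comp measurable_fst).const_mul γ)
  rw [integral_withDensity_eq_integral_toReal_smul m1 (ae_of_all _ fun w => by simp [eE])]
  congr 1; ext w
  simp [eE, ENNReal.toReal_ofReal (Real.exp_pos _).le]

theorem wgt_fin {γ : ℝ} {z : ℝ → ℝ} (hz : ∀ T : ℝ, ∃ C : ℝ, ∀ t, |t| ≤ T → |z t| ≤ C)
    (m : Measure Cyl) [IsFiniteMeasureOnCompacts m] : IsFiniteMeasureOnCompacts (wgt γ z m) := by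
  refine ⟨fun K hK => ?_⟩
  obtain ⟨T, hT⟩ := hK.exists_bound_of_continuousOn (f := fun w : Cyl => w.1)
    continuous_fst.continuousOn
  obtain ⟨C, hC⟩ := hz T
  unfold wgt
  rw [withDensity_apply _ hK.measurableSet]
  calc ∫⁻ w in K, eE (γ * z w.1) ∂m ≤ ∫⁻ _ in K, eE (|γ| * C) ∂m := by
        refine setLIntegral_mono measurable_const fun w hw => ?_
        refine ENNReal.ofReal_le_ofReal (Real.exp_le_exp.2 ((le_abs_self _).trans ?_))
        rw [abs_mul]
        exact mul_le_mul_of_nonneg_left (hC _ (hT w hw)) (abs_nonneg _)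
    _ = eE (|γ| * C) * m K := by simp
    _ < ∞ := ENNReal.mul_lt_top (by simp [eE]) hK.measure_lt_top

end BR0

open BR0 in
theorem blk_BR0 (_h1 : St_G1) (_h2 : St_G1D) (_h3 : St_G3) (hM : St_M0) (hC : St_CYL)
    (hB : St_BM2) (_h7 : St_LAT) (hQ : St_QV) (hR : St_RIEM) : St_BR0 := by
  intro γ hγ D
  obtain ⟨M⟩ := hM
  obtain ⟨hbp, hP⟩ := hB.1 γ D
  have hRm : ∀ ω, Measurable (radP (aa γ) (D.β ω)) := fun ω =>
    (hB.2.2.1 (aa γ) (D.β ω) (D.hq.cont₁ ω) (D.hq.cont₂ ω)).1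
  have hRb : ∀ ω (T : ℝ), ∃ C : ℝ, ∀ t, |t| ≤ T → |radP (aa γ) (D.β ω) t| ≤ C := fun ω =>
    (hB.2.2.1 (aa γ) (D.β ω) (D.hq.cont₁ ω) (D.hq.cont₂ ω)).2.1
  have : SigmaFinite cylVol := hC.2.2.2.2.2.2.2.2.2.2.2.1
  have hθ := D.hθ.prob
  refine ⟨fun ω => ⟨?_, ?_⟩, fun Z hZ hZc f => ?_⟩
  · have := D.hq.fin ω
    exact wgt_fin (fun T => by simpa using hRb ω T) _
  · unfold QD.nu
    have hRn : Measurable fun t => -radP (aa γ) (D.β ω) t := (hRm ω).neg
    rw [wgt_wgt (hRm ω) hRn]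
    simp [wgt, eE]
  have hIk : ∀ k, Measurable (D.Ik Z k f) := by
    intro k
    have h1 : Measurable fun p : D.Ω × Cyl => D.L (p.2, k) p.1 :=
      (D.hq.joint k).comp measurable_swap
    have h2 : Measurable fun p : D.Ω × Cyl => Z p.1 p.2.1 :=
      hZ.comp (measurable_fst.prodMk (measurable_fst.comp measurable_snd))
    have h3 : Measurable fun p : D.Ω × Cyl => f p.2 *
        (((1 / 2 : ℝ) ^ k) ^ (γ ^ 2 / 2) * Real.exp (γ * (Z p.1 p.2.1 + D.L (p.2, k) p.1))) :=
      (f.continuous.measurable.comp measurable_snd).mul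
        ((Real.measurable_exp.comp ((h2.add h1).const_mul γ)).const_mul _)
    exact (StronglyMeasurable.integral_prod_right' h3.stronglyMeasurable).measurable
  have main : TendstoInMeasure D.P (fun k => D.Ik Z k f) atTop
      fun ω => ∫ w, f w ∂D.muZ Z ω := by
    rw [exists_seq_tendstoInMeasure_atTop_iff fun k => (hIk k).aestronglyMeasurable]
    intro ns hns
    obtain ⟨T, hT⟩ := (hC.2.2.2.2.2.2.2.2.2.2.2.2.1 f).2.2.2
    obtain ⟨q, hqc, hqd⟩ := dense_fam T
    let fa : C_c(Cyl, ℝ) := ⟨⟨fun w => |f w|, f.continuous.abs⟩,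
      f.hasCompactSupport.comp_left (g := fun x : ℝ => |x|) abs_zero⟩
    let fq : ℕ → C_c(Cyl, ℝ) := fun j => ⟨⟨fun w => q j w.1 * f w,
      ((hqc j).comp continuous_fst).mul f.continuous⟩, f.hasCompactSupport.mul_left⟩
    let h : ℕ → C_c(Cyl, ℝ) := fun j => Nat.casesOn j fa fq
    obtain ⟨ns', hns', hae⟩ := diag fun j => (D.hq.lim (h j)).comp hns.tendsto_atTop
    refine ⟨ns', hns', ?_⟩
    have hint : ∀ᵐ ω ∂D.P, ∀ k, Integrable (fun w => fa w *
        Real.exp (γ * (0 * D.ZQ ω w.1 + D.L ((w.1 + 0, w.2), k) ω))) cylVol := by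
      refine ae_all_iff.2 fun k => ?_
      obtain ⟨q1, q2, q3⟩ := (hQ γ D M).2 0 0 k
      exact (hR.2 D.Ω D.P _ q1 q2 q3 fa).1
    have ha : 0 < aa γ := by
      have h0 := hγ.1; have h2 := hγ.2
      have : aa γ = (4 - γ ^ 2) / (2 * γ) := by unfold aa QQ; field_simp; ring
      rw [this]; apply div_pos <;> nlinarith
    have hRc := (hB.2.2.2 D.Ω D.P D.β hbp).2.2.2.2.2.2.2.2.1 (aa γ) ha
    filter_upwards [hae, hint, hZc, hRc] with ω hω hI hz hr
    have := D.hq.fin ω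
    set R := radP (aa γ) (D.β ω) with hRdef
    have hL : ∀ k, Measurable fun w : Cyl => D.L (w, k) ω := fun k =>
      (D.hq.joint k).comp (measurable_id.prodMk measurable_const)
    let ρ : ℕ → Cyl → ℝ := fun k w => ((1 / 2 : ℝ) ^ k) ^ (γ ^ 2 / 2) *
      Real.exp (γ * (rs D.θ R k w.1 + D.L (w, k) ω))
    have hrm : ∀ k, Measurable fun w : Cyl => rs D.θ R k w.1 := fun k =>
      (rs_meas hr.measurable k).comp measurable_fst
    have hρm : ∀ k, Measurable (ρ k) := fun k =>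
      (Real.measurable_exp.comp (((hrm k).add (hL k)).const_mul γ)).const_mul _
    have hρ0 : ∀ k w, 0 ≤ ρ k w := fun k w => by positivity
    have hfm : Measurable f := f.continuous.measurable
    have hρi : ∀ k, Integrable (fun w => |f w| * ρ k w) cylVol := by
      intro k
      obtain ⟨C, hC'⟩ := rs_bd D.hθ hr T k
      have h1 : Integrable (fun w => |(|f w|)| * Real.exp (γ * D.L (w, k) ω)) cylVol := by
        simpa [fa] using hI k
      have h2 := (integ_mul (a := fun w : Cyl => ((1 / 2 : ℝ) ^ k) ^ (γ ^ 2 / 2) *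
        Real.exp (γ * rs D.θ R k w.1)) (B := ((1 / 2 : ℝ) ^ k) ^ (γ ^ 2 / 2) * Real.exp (|γ| * C))
        hfm.abs (Real.measurable_exp.comp ((hL k).const_mul γ))
        ((Real.measurable_exp.comp ((hrm k).const_mul γ)).const_mul _)
        (fun w => (Real.exp_pos _).le) h1 fun w hw => by
          rw [abs_of_nonneg (by positivity)]
          refine mul_le_mul_of_nonneg_left (Real.exp_le_exp.2 ((le_abs_self _).trans ?_))
            (by positivity)
          rw [abs_mul]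
          exact mul_le_mul_of_nonneg_left (hC' _ (hT w (by simpa using hw))) (abs_nonneg _)).1
      refine h2.congr (ae_of_all _ fun w => ?_)
      simp only [ρ, mul_add, Real.exp_add, Function.comp]; ring
    have hgc : Continuous fun t => Real.exp (γ * (Z ω t - R t)) := by fun_prop
    obtain ⟨G, hG⟩ := (isCompact_Icc (a := -T) (b := T)).exists_bound_of_continuousOn
      hgc.continuousOn
    have hG' : ∀ t, |t| ≤ T → |Real.exp (γ * (Z ω t - R t))| ≤ G := fun t ht =>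
      hG t (abs_le.1 ht)
    have hJ : ∀ j, Tendsto (fun i => ∫ w, h j w * ρ (ns (ns' i)) w ∂cylVol) atTop
        (𝓝 (∫ w, h j w ∂D.μ ω)) := by
      intro j
      refine (hω j).congr fun i => ?_
      simp only [Function.comp, ρ]
      congr 1; ext w
      rw [← moll_int hr.measurable]; rfl
    have hcl := exp_close (γ := γ) (z := Z ω) (fun t => rfl) hG' (rs_close D.hθ hr T)
    have key := det (m := cylVol) (μ := D.μ ω) (f := f)
      (g := fun w => Real.exp (γ * (Z ω w.1 - R w.1))) (ρ := fun i => ρ (ns (ns' i)))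
      (e := fun i w => Real.exp (γ * (Z ω w.1 - rs D.θ R (ns (ns' i)) w.1)))
      (q := fun j w => q j w.1) (G := G) hfm (hgc.measurable.comp measurable_fst)
      (fun i => hρm _)
      (fun i => Real.measurable_exp.comp
        (((hz.measurable.comp measurable_fst).sub (hrm _)).const_mul γ))
      (fun j => (hqc j).measurable.comp measurable_fst) (fun i => hρ0 _) (fun i => hρi _)
      (f.continuous.integrable_of_hasCompactSupport f.hasCompactSupport)
      (fun w hw => hG' _ (hT w hw))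
      (fun ε hε => ((hns.comp hns').tendsto_atTop.eventually (hcl ε hε)).mono
        fun i hi w hw => hi _ (hT w hw))
      (fun ε hε => (hqd _ hgc ε hε).imp fun j hj w hw => hj _ (hT w hw))
      (fun j => hJ (j + 1)) (hJ 0)
    have e1 : ∫ w, f w ∂D.muZ Z ω = ∫ w, Real.exp (γ * (Z ω w.1 - R w.1)) * f w ∂D.μ ω := by
      unfold QD.muZ QD.nu
      have hRn : Measurable fun t => -radP (aa γ) (D.β ω) t := (hRm ω).neg
      have hRs : Measurable fun t => Z ω t + -radP (aa γ) (D.β ω) t := hz.measurable.add hRn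
      rw [wgt_wgt hz.measurable hRn, wgt_int hRs]
      rfl
    rw [e1]
    refine key.congr fun i => ?_
    unfold QD.Ik
    congr 1; ext w
    simp only [ρ]
    have : γ * (Z ω w.1 + D.L (w, ns (ns' i)) ω) = γ * (Z ω w.1 - rs D.θ R (ns (ns' i)) w.1) +
        γ * (rs D.θ R (ns (ns' i)) w.1 + D.L (w, ns (ns' i)) ω) := by ring
    rw [this, Real.exp_add]; ring
  exact ⟨hIk, main.aemeasurable fun k => (hIk k).aemeasurable, main⟩

end

end Pool.Agent.Lib.APPS
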