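import Pool.Agent.Lib.APPS.Blue3

/-!
Block BRa: the mollified quantum sphere integrals are approximated in law by Riemann sums of
the planar model.
-/

namespace Pool.Agent.Lib.APPS

open MeasureTheory ProbabilityTheory Filter Topology Set Metric
open scoped NNReal ENNReal CompactlySupported BoundedContinuousFunction RealInnerProductSpace
  Classical

noncomputable section

namespace BRa

/-- The Riemann sum as a function of the radial and lateral parts of the field. -/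
def RF (γ : ℝ) (k l : ℕ) (g : Cyl → ℝ) (q : (ℝ → ℝ) × (Cyl × ℕ → ℝ)) : ℝ :=
  Rie l fun w => g w * (((1 / 2 : ℝ) ^ k) ^ (γ ^ 2 / 2) *
    Real.exp (γ * (q.1 w.1 - QQ γ * w.1 + q.2 (w, k))))

theorem meas_RF (hR : St_RIEM) (γ : ℝ) (k l : ℕ) (g : C_c(Cyl, ℝ)) :
    Measurable (RF γ k l g) := by
  obtain ⟨s, hs⟩ := hR.1 g l
  have e : RF γ k l g = fun q => ∑ i ∈ s, (1 / 4 : ℝ) ^ l / ‖xl l i‖ ^ 2 *
      (g (toCyl (xl l i)) * (((1 / 2 : ℝ) ^ k) ^ (γ ^ 2 / 2) *
        Real.exp (γ * (q.1 (toCyl (xl l i)).1 - QQ γ * (toCyl (xl l i)).1 +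
          q.2 (toCyl (xl l i), k))))) := by
    funext q
    unfold RF Rie
    refine tsum_eq_sum fun i hi => ?_
    simp [hs i hi]
  rw [e]
  refine Finset.measurable_sum _ fun i _ => ?_
  have h1 : Measurable fun q : (ℝ → ℝ) × (Cyl × ℕ → ℝ) => q.1 (toCyl (xl l i)).1 :=
    (measurable_pi_apply _).comp measurable_fst
  have h2 : Measurable fun q : (ℝ → ℝ) × (Cyl × ℕ → ℝ) => q.2 (toCyl (xl l i), k) :=
    (measurable_pi_apply _).comp measurable_snd
  exact ((((h1.sub_const _).add h2).const_mul γ).exp.const_mul _ |>.const_mul _).const_mul _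

theorem cmp {Ω : Type} [MeasurableSpace Ω] (P : Measure Ω) [IsProbabilityMeasure P] {n : ℕ}
    (I R : Fin n → Ω → ℝ) (hI : ∀ i, Measurable (I i)) (hR : ∀ i, Measurable (R i)) (Λ : ℝ≥0)
    (G : (Fin n → ℝ) → ℝ) (hG : BL Λ G) (η : ℝ) (hη : 0 ≤ η)
    (h : (Λ : ℝ≥0∞) * ∑ i, ∫⁻ ω, ENNReal.ofReal |I i ω - R i ω| ∂P ≤ ENNReal.ofReal η) :
    |∫ ω, G (fun i => I i ω) ∂P - ∫ ω, G (fun i => R i ω) ∂P| ≤ η := by
  have hGm : Measurable G := hG.1.continuous.measurable
  have int : ∀ J : Fin n → Ω → ℝ, (∀ i, Measurable (J i)) →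
      Integrable (fun ω => G (fun i => J i ω)) P := fun J hJ =>
    Integrable.of_bound (hGm.comp (measurable_pi_lambda _ hJ)).aestronglyMeasurable 1
      (Eventually.of_forall fun ω => hG.2 _)
  rw [← integral_sub (int I hI) (int R hR), ← Real.norm_eq_abs]
  refine (norm_integral_le_lintegral_norm _).trans ?_
  refine ENNReal.toReal_le_of_le_ofReal hη (le_trans ?_ h)
  have hm : ∀ i, Measurable fun ω => ENNReal.ofReal |I i ω - R i ω| := fun i =>
    ((hI i).sub (hR i)).abs.ennreal_ofReal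
  rw [← lintegral_finsetSum _ fun i _ => hm i,
    ← lintegral_const_mul _ (Finset.measurable_sum _ fun i _ => hm i)]
  refine lintegral_mono fun ω => ?_
  have h1 : ‖G (fun i => I i ω) - G (fun i => R i ω)‖ ≤ Λ * ∑ i, |I i ω - R i ω| := by
    rw [← dist_eq_norm]
    refine (hG.1.dist_le_mul _ _).trans (mul_le_mul_of_nonneg_left ?_ Λ.coe_nonneg)
    refine (dist_pi_le_iff (Finset.sum_nonneg fun i _ => abs_nonneg _)).2 fun i => ?_
    rw [Real.dist_eq]
    exact Finset.single_le_sum (f := fun i => |I i ω - R i ω|) (fun i _ => abs_nonneg _)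
      (Finset.mem_univ i)
  refine (ENNReal.ofReal_le_ofReal h1).trans (le_of_eq ?_)
  rw [ENNReal.ofReal_mul Λ.coe_nonneg, ENNReal.ofReal_coe_nnreal,
    ENNReal.ofReal_sum_of_nonneg fun i _ => abs_nonneg _]

end BRa

open BRa in
theorem blk_BRa (_hG1 : St_G1) (hM0 : St_M0) (hCYL : St_CYL) (hBM2 : St_BM2) (_hLAT : St_LAT)
    (hQV : St_QV) (hR : St_RIEM) : St_BRa := by
  intro γ _ D n g Λ k η hη
  obtain ⟨M0⟩ := hM0
  obtain ⟨hBP, hP⟩ := hBM2.1 γ D
  haveI := hP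
  haveI : SigmaFinite cylVol := hCYL.2.2.2.2.2.2.2.2.2.2.2.1
  set ck : ℝ := ((1 / 2 : ℝ) ^ k) ^ (γ ^ 2 / 2) with hck
  have hck0 : 0 ≤ ck := by positivity
  obtain ⟨q1, q2, q3⟩ := (hQV γ D M0).2 1 0 k
  simp only [one_mul, add_zero, Prod.mk.eta] at q1 q2 q3
  let X : Cyl → D.Ω → ℝ := fun w ω => ck * Real.exp (γ * (D.ZQ ω w.1 + D.L (w, k) ω))
  have x1 : Measurable fun q : Cyl × D.Ω => X q.1 q.2 := q1.const_mul ck
  have x2 : ∀ w, Integrable (X w) D.P := fun w => (q2 w).const_mul ck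
  have x3 : ∀ w0, Tendsto (fun w => ∫⁻ ω, ENNReal.ofReal |X w ω - X w0 ω| ∂D.P) (𝓝 w0) (𝓝 0) := by
    intro w0
    have h1 := ENNReal.Tendsto.const_mul (a := ENNReal.ofReal ck) (q3 w0)
      (Or.inr ENNReal.ofReal_ne_top)
    rw [mul_zero] at h1
    refine h1.congr fun w => ?_
    rw [← lintegral_const_mul' _ _ ENNReal.ofReal_ne_top]
    refine lintegral_congr fun ω => ?_
    rw [← ENNReal.ofReal_mul hck0]
    congr 1
    simp only [X]
    rw [← mul_sub, abs_mul, abs_of_nonneg hck0]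
  have hT := fun i => (hR.2 D.Ω D.P X x1 x2 x3 (g i)).2
  have hS : Tendsto (fun l => (Λ : ℝ≥0∞) * ∑ i, ∫⁻ ω, ENNReal.ofReal
      |∫ w, g i w * X w ω ∂cylVol - Rie l fun w => g i w * X w ω| ∂D.P) atTop (𝓝 0) := by
    have h1 := tendsto_finsetSum (Finset.univ : Finset (Fin n)) fun i _ => hT i
    rw [Finset.sum_const_zero] at h1
    have h2 := ENNReal.Tendsto.const_mul (a := (Λ : ℝ≥0∞)) h1 (Or.inr ENNReal.coe_ne_top)
    rwa [mul_zero] at h2
  obtain ⟨l0, hl0⟩ := eventually_atTop.1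
    (hS.eventually (ge_mem_nhds (ENNReal.ofReal_pos.2 hη)))
  refine ⟨l0, fun l hl M => ?_⟩
  let ψ : Om → (ℝ → ℝ) × (Cyl × ℕ → ℝ) := fun ω =>
    (fun t => ω (M.radV t), fun p => ω (M.lamV D.θ p))
  let φ : D.Ω → (ℝ → ℝ) × (Cyl × ℕ → ℝ) := fun ω =>
    (fun t => twoS (D.β ω) t, fun p => D.L p ω)
  have hψ : Measurable ψ :=
    (measurable_pi_lambda _ fun t => meas_ev _).prodMk (measurable_pi_lambda _ fun p => meas_ev _)
  have hφ : Measurable φ :=
    (hBM2.2.1.1.comp hBP.meas).prodMk (measurable_pi_lambda _ fun p => D.hq.lat.meas p)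
  have hmap : D.P.map φ = gm.map ψ := (hQV γ D M).1
  refine ⟨fun i => (meas_RF hR γ k l (g i)).comp hψ, fun G hG => ?_⟩
  have hGm : Measurable fun q => G fun i => RF γ k l (g i) q :=
    hG.1.continuous.measurable.comp (measurable_pi_lambda _ fun i => meas_RF hR γ k l (g i))
  have e1 : ∫ ω, G (fun i => M.Rs γ D.θ k l (g i) ω) ∂gm =
      ∫ ω, G (fun i => RF γ k l (g i) (φ ω)) ∂D.P := by
    rw [← integral_map hφ.aemeasurable hGm.aestronglyMeasurable, hmap,
      integral_map hψ.aemeasurable hGm.aestronglyMeasurable]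
    rfl
  rw [e1]
  refine cmp D.P (fun i ω => D.Ik D.ZQ k (g i) ω) (fun i ω => RF γ k l (g i) (φ ω)) ?_
    (fun i => (meas_RF hR γ k l (g i)).comp hφ) Λ G hG η hη.le (hl0 l hl)
  intro i
  have h1 : Measurable fun q : Cyl × D.Ω => g i q.1 * X q.1 q.2 :=
    ((g i).continuous.measurable.comp measurable_fst).mul x1
  exact (h1.stronglyMeasurable.integral_prod_left' (μ := cylVol)).measurable

end

end Pool.Agent.Lib.APPS
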