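import Pool.Agent.Lib.APPS.B_BRbb

/-! Block BRb: Riemann sums of the mollified field versus the lattice chaos. -/

namespace Pool.Agent.Lib.APPS

open MeasureTheory ProbabilityTheory Filter Topology Set Metric
open scoped NNReal ENNReal CompactlySupported BoundedContinuousFunction RealInnerProductSpace
  Classical

noncomputable section

namespace BRb

def Phi (γ I : ℝ) (G : ℂ → ℝ) (J l l' L k : ℕ) (y : Dy ⊕ Dy ⊕ Dy → ℝ) : ℝ :=
  ∑ S ∈ lev (l' + J), (1 / 4 : ℝ) ^ l' / ‖xx J (l + J) (ctr S)‖ ^ 2 *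
      (G (xx J (l + J) (ctr S)) * (((1 / 2 : ℝ) ^ k) ^ (γ ^ 2 / 2) *
        Real.exp (γ * (y (.inl S) - QQ γ * (wS J (l + J) S).1 + y (.inr (.inl S)))))) -
    Real.exp (γ ^ 2 * I / 2) * ∑ V ∈ lev (l + J), (1 / 4 : ℝ) ^ l *
      (2 ^ L * (1 / 2 : ℝ) ^ l) ^ (γ ^ 2 / 2) * G (xx J (l + J) (ctr V)) *
        Real.exp (γ * y (.inr (.inr V)))

theorem meas_Phi (γ I : ℝ) (G : ℂ → ℝ) (J l l' L k : ℕ) : Measurable (Phi γ I G J l l' L k) := by
  unfold Phi
  refine (Finset.measurable_sum _ fun S _ => ?_).sub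
    ((Finset.measurable_sum _ fun V _ => ?_).const_mul _)
  · exact (((((((measurable_pi_apply (Sum.inl S)).sub_const _).add
      (measurable_pi_apply (Sum.inr (Sum.inl S)))).const_mul _).exp).const_mul _).const_mul
        _).const_mul _
  · exact (((measurable_pi_apply _).const_mul _).exp).const_mul _

def m1 (θ : Measure ℂ) (J n k : ℕ) (R : ℝ) : Dy ⊕ Dy ⊕ Dy → Measure ℂ
  | .inl S => circ 0 (Real.exp (-(wS J n S).1))
  | .inr (.inl S) => nuP θ 0 1 (wS J n S, k)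
  | .inr (.inr V) => circ (xx J n (ctr V)) R

def m2 (θ : Measure ℂ) (J n k : ℕ) : Dy ⊕ Dy ⊕ Dy → Measure ℂ
  | .inl _ => circ 0 1
  | .inr (.inl S) => radM θ 0 1 (wS J n S, k)
  | .inr (.inr _) => circ 0 1

theorem far0 {G : ℂ → ℝ} {B T : ℝ} {J : ℕ} (hg : GD G B T J) {y : ℂ} (h : 2 ^ J / 4 ≤ ‖y‖) :
    G y = 0 := by
  by_contra h0
  obtain ⟨h1, h2⟩ := hg.hT y h0
  have h3 : Real.log ‖y‖ ≤ T := by
    have := neg_abs_le (toCyl y).1
    have e : (toCyl y).1 = -Real.log ‖y‖ := rfl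
    linarith
  have h4 := (Real.log_le_iff_le_exp (norm_pos_iff.2 h1)).1 h3
  linarith [hg.hJ]

theorem zc_ne {i : ℤ × ℤ} (h : i ≠ 0) : zc i ≠ 0 := by
  intro h0
  have h1 := congrArg Complex.re h0
  have h2 := congrArg Complex.im h0
  simp [zc] at h1 h2
  exact h (Prod.ext h1 h2)

theorem diff_eq (hT : St_T1) (hG : St_GEO1) (γ : ℝ) (θ : Measure ℂ) (g : Cyl → ℝ) {B T : ℝ}
    (J0 l m L k : ℕ) (hg : GD (pb g) B T (J0 + 1)) (M : Model) (ω : Om) :
    M.Rs γ θ k (l + 1 + m) g ω - Real.exp (γ ^ 2 * Ie θ θ / 2) * M.Wlat γ L l g ω =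
      Phi γ (Ie θ θ) (pb g) (J0 + 1) l (l + 1 + m) L k fun i =>
        ω (M.e (m1 θ (J0 + 1) (l + (J0 + 1)) k (2 ^ L * (1 / 2 : ℝ) ^ l) i) -
          M.e (m2 θ (J0 + 1) (l + (J0 + 1)) k i)) := by
  unfold Phi
  congr 1
  · unfold Model.Rs Rie
    rw [reidx hT hG (l + 1 + m + (J0 + 1))
      (2 ^ (l + 1 + m + J0) + 2 ^ m, 2 ^ (l + 1 + m + J0) + 2 ^ m)]
    · refine Finset.sum_congr rfl fun S hS => ?_
      have e := xx_fine l m J0 (gi S)
      rw [← (hT.1 _ _).1 hS, ← ctr_eq hG] at e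
      have e0 : xx (J0 + 1) (l + (J0 + 1)) (ctr S) ≠ 0 := e ▸ xl_ne _ _
      rw [← e]
      simp only [pb, if_neg e0]
      rfl
    · intro i hi
      have e := xx_fine l m J0
        (i + (2 ^ (l + 1 + m + J0) + 2 ^ m, 2 ^ (l + 1 + m + J0) + 2 ^ m))
      rw [add_sub_cancel_right] at e
      have h := far0 hg (xx_far (J0 + 1) _ (l + J0) _ hi)
      rw [show l + J0 + 1 = l + (J0 + 1) by ring, e] at h
      simp only [pb, if_neg (xl_ne _ _)] at h
      simp [h]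
  · congr 1
    unfold Model.Wlat
    rw [reidx hT hG (l + (J0 + 1)) (2 ^ (l + J0), 2 ^ (l + J0))]
    · refine Finset.sum_congr rfl fun S hS => ?_
      have e := xx_coarse l J0 (gi S)
      rw [← (hT.1 _ _).1 hS, ← ctr_eq hG, (hT.1 _ _).1 hS] at e
      split_ifs with h
      · rw [e, h]
        simp [pb, zc]
      · have e0 : xx (J0 + 1) (l + (J0 + 1)) (ctr S) ≠ 0 :=
          e ▸ mul_ne_zero (rho_ne l) (zc_ne h)
        rw [← e]
        simp only [pb, if_neg e0]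
        rfl
    · intro i hi
      split_ifs with h0
      · rfl
      have e := xx_coarse l J0 (i + (2 ^ (l + J0), 2 ^ (l + J0)))
      rw [add_sub_cancel_right] at e
      have h := far0 hg (xx_far (J0 + 1) _ (l + J0) _ hi)
      rw [show l + J0 + 1 = l + (J0 + 1) by ring, e] at h
      simp only [pb, if_neg (mul_ne_zero (rho_ne l) (zc_ne h0))] at h
      simp only [h, mul_zero, zero_mul]

theorem transfer (hF : St_FE) (hLa : St_LAT) {θ : Measure ℂ} {C : ℝ} (hL : LatD θ C)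
    (M M' : Model) (J n k : ℕ) {R : ℝ} (hR : 0 < R) (Φ : (Dy ⊕ Dy ⊕ Dy → ℝ) → ℝ)
    (hΦ : Measurable Φ) (η : ℝ) :
    gm {ω | η < |Φ fun i => ω (M.e (m1 θ J n k R i) - M.e (m2 θ J n k i))|} =
      gm {ω | η < |Φ fun i =>
        ω (M'.e (mp J n (m1 θ J n k R i)) - M'.e (mp J n (m2 θ J n k i)))|} := by
  have hc := fun c r h => (hF.2.2.2.2.2.2.2.2.1 c r h).1
  have h := hLa.1 M M' (zz n) ((1 / 2 : ℝ) ^ J) (by positivity) _ (m1 θ J n k R) (m2 θ J n k)
    (by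
      rintro (S | S | S)
      exacts [⟨hc _ _ (Real.exp_pos _), hc _ _ one_pos⟩, hL.pfe _, ⟨hc _ _ hR, hc _ _ one_pos⟩])
  have hs : MeasurableSet {y | η < |Φ y|} := measurableSet_lt measurable_const hΦ.abs
  have := congrArg (fun μ : Measure (Dy ⊕ Dy ⊕ Dy → ℝ) => μ {y | η < |Φ y|}) h
  rw [Measure.map_apply (measurable_pi_lambda _ fun i => meas_ev _) hs,
    Measure.map_apply (measurable_pi_lambda _ fun i => meas_ev _) hs] at this
  exact this

theorem log_half (J : ℕ) : Real.log ((1 / 2 : ℝ) ^ J) = -(J * l2) := by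
  unfold l2
  rw [Real.log_pow, one_div, Real.log_inv]; ring

theorem Phi_eq (hM : St_MOD) (hE : St_EXP1) (hG : St_GEO1) (hT : St_T1) {γ : ℝ} (hγ : γ ≠ 0)
    (θ : Measure ℂ) {G : ℂ → ℝ} {B T : ℝ} {J : ℕ} (hg : GD G B T J) (M : Model)
    (hO : M.O = ball (ctr []) 4) (h0 : M.C0 = Real.log 4) (l l' L k : ℕ) (hL : L ≤ l) (ω : Om) :
    (Phi γ (Ie θ θ) G J l l' L k fun i =>
      ω (M.e (mp J (l + J) (m1 θ J (l + J) k (2 ^ L * (1 / 2 : ℝ) ^ l) i)) -
        M.e (mp J (l + J) (m2 θ J (l + J) k i)))) =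
    Real.exp (-γ * ω (M.eC (zz (l + J)) ((1 / 2 : ℝ) ^ J))) *
      Real.exp (γ ^ 2 * ((Real.log 4 + J * l2) + Ie θ θ) / 2) *
      (∑ S ∈ lev (l' + J), (1 / 4 : ℝ) ^ l' * G (xx J (l + J) (ctr S)) *
        (Real.exp (γ ^ 2 / 2 * (‖M.e (nuS θ J (l + J) k S) + dS' M θ J (l + J) k S‖ ^ 2 -
            ((Real.log 4 + J * l2) + k * l2 + (wS J (l + J) S).1 + Ie θ θ))) *
          Wk γ (M.e (nuS θ J (l + J) k S) + dS' M θ J (l + J) k S) ω) -
      ∑ V ∈ lev (l + J), (1 / 4 : ℝ) ^ l * G (xx J (l + J) (ctr V)) *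
        Wk γ (M.eC (ctr V) (2 ^ L * side V)) ω) := by
  unfold Phi
  rw [mul_sub, Finset.mul_sum, Finset.mul_sum, Finset.mul_sum]
  congr 1
  · refine Finset.sum_congr rfl fun S _ => ?_
    by_cases h : G (xx J (l + J) (ctr S)) = 0
    · simp [h]
    have e : ‖xx J (l + J) (ctr S)‖ = Real.exp (-(wS J (l + J) S).1) := by
      have : (wS J (l + J) S).1 = -Real.log ‖xx J (l + J) (ctr S)‖ := rfl
      rw [this, neg_neg, Real.exp_log (norm_pos_iff.2 (hg.hT _ h).1)]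
    simp only [m1, m2, map_sub, circ_mp0 hE]
    rw [e, term_fine hγ _ (Ie θ θ) (Real.log 4 + J * l2) _ _ _ _ _ _
      (‖M.e (nuS θ J (l + J) k S) + dS' M θ J (l + J) k S‖ ^ 2)]
    simp only [Wk, dS', nuS, Model.eC, map_add, map_sub]
  · refine Finset.sum_congr rfl fun V hV => ?_
    have e : (1 / 2 : ℝ) ^ J * (2 ^ L * (1 / 2 : ℝ) ^ l) = 2 ^ L * side V := by
      unfold side; rw [(hT.1 _ _).1 hV, pow_add]; ring
    have p : (0 : ℝ) < 2 ^ L * (1 / 2 : ℝ) ^ l := by positivity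
    have p1 : 2 ^ L * (1 / 2 : ℝ) ^ l ≤ 1 := by
      obtain ⟨c, rfl⟩ := Nat.exists_eq_add_of_le hL
      rw [pow_add, ← mul_assoc, ← mul_pow]
      norm_num
      exact pow_le_one₀ (by norm_num) (by norm_num)
    have p2 : (1 / 2 : ℝ) ^ J ≤ 1 := pow_le_one₀ (by norm_num) (by norm_num)
    have p3 : 2 ^ L * side V ≤ 1 := by
      rw [← e]; exact mul_le_one₀ p2 p.le p1
    have p4 : 0 < 2 ^ L * side V := by rw [← e]; positivity
    have hn : ‖M.eC (ctr V) (2 ^ L * side V)‖ ^ 2 =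
        Real.log 4 + J * l2 - Real.log (2 ^ L * (1 / 2 : ℝ) ^ l) := by
      rw [← real_inner_self_eq_norm_sq, (hM M).2.2.2.2.2.2.2.2.2.2.1 _ _ _ p4 le_rfl
        (hO ▸ ball_sub hG V p3), h0, ← e, Real.log_mul (by positivity) p.ne', log_half]
      ring
    simp only [m1, m2, map_sub, circ_mp0 hE, circ_mp hE, e]
    rw [term_coarse γ (Ie θ θ) (Real.log 4 + J * l2) _ _ _ _ _ p]
    simp only [Wk, hn]
    rfl

theorem xi_bd (hD : St_G1D) (hM : St_MOD) (γ : ℝ) (M : Model) (hO : M.O = ball (ctr []) 4)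
    (h0 : M.C0 = Real.log 4) (J n : ℕ) :
    N1 (fun ω => Real.exp (-γ * ω (M.eC (zz n) ((1 / 2 : ℝ) ^ J)))) ≤
      ENNReal.ofReal (Real.exp (γ ^ 2 * (Real.log 4 + J * l2) / 2)) := by
  have p2 : (1 / 2 : ℝ) ^ J ≤ 1 := pow_le_one₀ (by norm_num) (by norm_num)
  have hs : closedBall (zz n) ((1 / 2 : ℝ) ^ J) ⊆ M.O := by
    rw [hO]
    refine closedBall_subset_ball' ?_
    rw [dist_eq_norm]; linarith [zz_near n]
  have hn : ‖M.eC (zz n) ((1 / 2 : ℝ) ^ J)‖ ^ 2 = Real.log 4 + J * l2 := by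
    rw [← real_inner_self_eq_norm_sq, (hM M).2.2.2.2.2.2.2.2.2.2.1 _ _ _ (by positivity) le_rfl hs,
      h0, log_half]
    ring
  have h := hD.1 ((-γ) • M.eC (zz n) ((1 / 2 : ℝ) ^ J))
  rw [norm_smul, mul_pow, hn, Real.norm_eq_abs, sq_abs, neg_sq] at h
  refine le_of_eq (Eq.trans (lintegral_congr fun ω => ?_) h)
  rw [abs_of_pos (Real.exp_pos _), map_smul, smul_eq_mul]
  rfl

end BRb

open BRb in
theorem blk_BRb (_h1 : St_G1) (hD : St_G1D) (_h3 : St_G3) (h4 : St_G4) (_h0 : St_M0)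
    (hM : St_MOD) (hF : St_FE) (hE : St_EXP1) (hG : St_GEO1) (hT : St_T1) (hC : St_CYL)
    (hLa : St_LAT) (hLL : St_LLM) : St_BRb := by
  intro γ hγ θ hθ g hg0 η hη
  obtain ⟨-, C, c1, -, c3, c4⟩ := hLa.2.2 θ hθ
  have hL : LatD θ C := by
    refine ⟨?_, fun p => (c1 p).2, fun w k => (c3 w k).1, fun w k => (c3 w k).2,
      fun M => (c4 M).2.2.1⟩
    simpa using (abs_nonneg _).trans (c3 (0, 0) 0).2
  obtain ⟨gc, gs, gu, T, hTT⟩ := hC.2.2.2.2.2.2.2.2.2.2.2.2.1 g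
  obtain ⟨B, hB⟩ := gc.bounded_above_of_compact_support gs
  obtain ⟨J0, hJ0⟩ := pow_unbounded_of_one_lt (4 * Real.exp T) (one_lt_two (α := ℝ))
  have hg : GD (pb g) B T (J0 + 1) := by
    refine ⟨fun y => ?_, fun y => (le_abs_self _).trans (hB y), fun y hy => ?_, ?_⟩
    · unfold pb; split_ifs
      exacts [le_rfl, hg0 _]
    · unfold pb at hy
      split_ifs at hy with h
      · exact absurd rfl hy
      · exact ⟨h, hTT _ hy⟩
    · have : (0 : ℝ) < 2 ^ J0 := by positivity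
      rw [pow_succ]; linarith
  have hB0 : 0 ≤ B := (hg.nn 0).trans (hg.le 0)
  set J := J0 + 1 with hJ
  set a := Real.exp (γ ^ 2 * (Real.log 4 + J * l2) / 2) with ha
  set κ := Real.exp (γ ^ 2 * ((Real.log 4 + J * l2) + Ie θ θ) / 2) with hκ
  have a0 : 0 < a := Real.exp_pos _
  have κ0 : 0 < κ := Real.exp_pos _
  set η1 := η ^ 3 / (4 * a * κ) / 3 with hη1
  have η0 : 0 < η1 := by positivity
  obtain ⟨L0, hL0⟩ := hLL γ hγ (max (4 ^ J * B) (J * l2 + T + Ie θ θ + C)) (Real.log 4) η1 η0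
  refine ⟨L0, fun L hL' => ?_⟩
  obtain ⟨l0, hl0, hl⟩ := hL0 L hL'
  obtain ⟨δ, δ0, hδ⟩ := Metric.uniformContinuous_iff.1 gu (η1 / 4 ^ J) (by positivity)
  obtain ⟨lu, hlu⟩ := exists_pow_lt_of_lt_one δ0 (show (1 / 2 : ℝ) < 1 by norm_num)
  refine ⟨max l0 lu, fun l hl' => ?_⟩
  set K := max 1 (1 + (Real.log 4 + J * l2) + T + Ie θ θ + C) with hK
  have t1 := bk_tendsto C K hL.C0
  have t2 := (t1.const_mul 4).const_mul (4 ^ J * B)
  simp only [mul_zero] at t2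
  obtain ⟨k1, hk1⟩ := eventually_atTop.1
    ((t1.eventually (ge_mem_nhds one_pos)).and (t2.eventually (ge_mem_nhds η0)))
  refine ⟨max k1 (l + J + 2), fun k hk => ⟨max k (l + 1), fun l' hl'' M => ?_⟩⟩
  obtain ⟨m, rfl⟩ : ∃ m, l' = l + 1 + m := ⟨l' - (l + 1), by omega⟩
  obtain ⟨M', hO, h0, -, -⟩ := (hM M).2.2.1 (ctr []) 4 (by norm_num)
  have hk' := hk1 k (le_of_max_le_left hk)
  simp only [diff_eq hT hG γ θ g J0 l m L k hg M]
  rw [transfer hF hLa hL M M' _ _ _ (by positivity) _ (meas_Phi _ _ _ _ _ _ _ _)]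
  simp only [← hJ, Phi_eq hM hE hG hT hγ.1.ne' θ hg M' hO h0 l (l + 1 + m) L k (by omega)]
  refine prod_prob (((meas_ev _).const_mul _).exp) ?_ a0 κ0 hη (xi_bd hD hM γ M' hO h0 _ _) ?_
  · exact (Finset.measurable_sum _ fun S _ => ((meas_Wk _ _).const_mul _).const_mul _).sub
      (Finset.measurable_sum _ fun S _ => (meas_Wk _ _).const_mul _)
  have d1 := D1_bd hD h4 hM hF hG hT hC hγ hL hg M' hO h0 (l + J) k (l + 1 + m) K
    (le_max_left _ _) (le_max_right _ _) hk'.1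
  have d2 := hl (l + J) (by omega) k (by omega) M' [] _ _ _ _
    (by
      rw [hO]
      refine closedBall_subset_ball ?_
      simp only [side, List.length_nil, pow_zero]; norm_num)
    (by simp [h0])
    (spread hF hG hT hC hL hg (l + J) k (l + 1 + m) _ (by omega) (le_max_left _ _)
      (le_max_right _ _))
  have d3 := D3_bd hD hG hT γ (G := pb g) J l (1 + m) (fun V => M'.eC (ctr V) (2 ^ L * side V))
    (η1 / 4 ^ J) (by positivity) fun y y' h => by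
      have h1 : (1 / 2 : ℝ) ^ l ≤ (1 / 2) ^ lu :=
        pow_le_pow_of_le_one (by norm_num) (by norm_num) (by omega)
      have := hδ (a := y) (b := y') (by rw [dist_eq_norm]; linarith)
      rw [Real.dist_eq] at this
      exact this.le
  rw [← add_assoc l 1 m] at d3
  have d2' : N1 (fun ω => ∑ S ∈ lev (l + 1 + m + J), (1 / 4 : ℝ) ^ (l + 1 + m) *
      pb g (xx J (l + J) (ctr S)) * (Wk γ (M'.e (nuS θ J (l + J) k S)) ω -
        Wk γ (M'.eC (ctr (anc (l + J) S)) (2 ^ L * side (anc (l + J) S))) ω)) ≤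
      ENNReal.ofReal η1 := by
    refine le_of_eq_of_le (lintegral_congr fun ω => ?_) d2
    congr 2
    beta_reduce
    rw [← Finset.sum_filter_of_ne (p := fun S => pb g (xx J (l + J) (ctr S)) ≠ 0)
      (fun S _ h h' => h (by simp [h'])), ← Finset.sum_coe_sort]
    refine Finset.sum_congr rfl fun S _ => ?_
    rw [List.append_nil, anc_anc _ (by omega)
      (by rw [(hT.1 _ _).1 (Finset.mem_filter.1 S.2).1]; omega)]
  have e3 : η ^ 3 / (4 * a * κ) = η1 + (η1 + η1) := by rw [hη1]; ring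
  have e4 : 4 ^ J * (η1 / 4 ^ J) = η1 := by field_simp
  rw [e4] at d3
  rw [e3, ENNReal.ofReal_add η0.le (by positivity), ENNReal.ofReal_add η0.le η0.le]
  refine le_trans (le_of_eq ?_) ((N1_add ?_).trans (add_le_add
    (d1.trans (ENNReal.ofReal_le_ofReal hk'.2)) ((N1_add ?_).trans (add_le_add d2' d3))))
  · congr 1
    funext ω
    simp only [mul_sub, Finset.sum_sub_distrib]
    ring
  · exact Finset.measurable_sum _ fun S _ =>
      (((meas_Wk _ _).const_mul _).sub (meas_Wk _ _)).const_mul _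
  · exact Finset.measurable_sum _ fun S _ => ((meas_Wk _ _).sub (meas_Wk _ _)).const_mul _

end

end Pool.Agent.Lib.APPS
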