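import Pool.Agent.Lib.APPS.Blue1

/-! Block CH: chaining along dyadic words. -/

namespace Pool.Agent.Lib.APPS

open MeasureTheory ProbabilityTheory Filter Topology Set
open scoped NNReal ENNReal

noncomputable section

namespace CH

theorem eE_add (a b : ℝ) : eE (a + b) = eE a * eE b := by
  rw [eE, Real.exp_add, ENNReal.ofReal_mul (Real.exp_pos a).le]; rfl

theorem eE_mono {a b : ℝ} (h : a ≤ b) : eE a ≤ eE b :=
  ENNReal.ofReal_le_ofReal (Real.exp_le_exp.2 h)

theorem zs_bd {y : Dy → ℝ} {b : ℝ} (h : ∀ S, |y S| ≤ b) : (∀ S, |y S| ≤ zs y) ∧ zs y ≤ b := by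
  have h1 : ⨆ S, ‖y S‖ₑ ≤ ENNReal.ofReal b := iSup_le fun S => by
    rw [← ofReal_norm]; exact ENNReal.ofReal_le_ofReal (h S)
  refine ⟨fun S => ?_, ENNReal.toReal_le_of_le_ofReal ((abs_nonneg _).trans (h [])) h1⟩
  rw [← Real.norm_eq_abs, ← toReal_enorm]
  exact ENNReal.toReal_mono (ne_top_of_le_ne_top ENNReal.ofReal_ne_top h1)
    (le_iSup (fun S => ‖y S‖ₑ) S)

theorem tsum_ne_top : ∑' A : Dy, eE (-(4 * A.length)) ≠ ∞ := by
  rw [← List.equivSigmaTuple.symm.tsum_eq, ENNReal.tsum_sigma']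
  have h : ∀ n : ℕ, ∑' g : Fin n → Fin 2 × Fin 2,
      eE (-(4 * ((List.equivSigmaTuple.symm ⟨n, g⟩ : Dy).length : ℝ))) ≤
        ENNReal.ofReal ((4 / 5) ^ n) := fun n => by
    have h1 : Real.exp (-4) ≤ 1 / 5 := by
      rw [Real.exp_neg, one_div]
      exact inv_anti₀ (by norm_num) (by linarith [Real.add_one_le_exp 4])
    simp only [List.equivSigmaTuple_symm_apply, List.length_ofFn, tsum_fintype, Finset.sum_const,
      Finset.card_univ, Fintype.card_pi, Fintype.card_prod, Fintype.card_fin, Finset.prod_const,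
      nsmul_eq_mul]
    rw [eE, ← ENNReal.ofReal_natCast, ← ENNReal.ofReal_mul (Nat.cast_nonneg _)]
    refine ENNReal.ofReal_le_ofReal ?_
    rw [show -(4 * (n : ℝ)) = n * -4 by ring, Real.exp_nat_mul]
    push_cast
    rw [← mul_pow]
    exact pow_le_pow_left₀ (by positivity) (by linarith) n
  refine ne_top_of_le_ne_top ?_ (ENNReal.tsum_le_tsum h)
  rw [← ENNReal.ofReal_tsum_of_nonneg (fun n => by positivity)
    (summable_geometric_of_lt_one (by norm_num) (by norm_num))]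
  exact ENNReal.ofReal_ne_top

theorem exists_bd (μ : ℝ) : ∃ B : ℝ, ∀ k : ℕ, (μ + 4 * k) ^ 2 * (8 / 9) ^ k ≤ B := by
  obtain ⟨B, hB⟩ := (tendsto_pow_const_mul_const_pow_of_abs_lt_one 2 (r := 8 / 9)
    (by rw [abs_of_pos] <;> norm_num)).bddAbove_range
  refine ⟨2 * μ ^ 2 + 32 * B, fun k => ?_⟩
  have h1 : (k : ℝ) ^ 2 * (8 / 9) ^ k ≤ B := hB ⟨k, rfl⟩
  have h2 : (8 / 9 : ℝ) ^ k ≤ 1 := pow_le_one₀ (by norm_num) (by norm_num)
  have h3 : (0 : ℝ) < (8 / 9) ^ k := by positivity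
  nlinarith [mul_nonneg (sq_nonneg (μ - 4 * k)) h3.le, mul_le_of_le_one_right (sq_nonneg μ) h2]

/-- increments along the tree -/
def inc (q : Dy → HH) : Dy → HH
  | [] => q []
  | d :: S => q (d :: S) - q S

/-- normalised increments -/
def vv (q : Dy → HH) (ε : ℝ) (A : Dy) : HH := (ε * (3 / 4) ^ A.length)⁻¹ • inc q A

theorem norm_vv {q : Dy → HH} {ε : ℝ} (hε : 0 < ε) (h : ChainH q ε) (A : Dy) :
    ‖vv q ε A‖ ^ 2 ≤ 2 * (8 / 9) ^ A.length := by
  have h1 : ‖inc q A‖ ^ 2 ≤ ε ^ 2 * (2 * (1 / 2) ^ A.length) := by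
    cases A with
    | nil => simp only [inc, List.length_nil, pow_zero]; nlinarith [h.1, norm_nonneg (q [])]
    | cons d S =>
      have := pow_le_pow_left₀ (norm_nonneg _) (h.2 d S) 2
      rw [mul_pow, Real.sq_sqrt (by unfold side; positivity), side] at this
      refine this.trans (le_of_eq ?_)
      rw [List.length_cons, pow_succ]
      ring
  have h2 : (1 / 2 : ℝ) ^ A.length = ((3 / 4) ^ A.length) ^ 2 * (8 / 9) ^ A.length := by
    rw [← pow_mul, mul_comm _ 2, pow_mul, ← mul_pow]; norm_num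
  rw [vv, norm_smul, mul_pow, Real.norm_eq_abs, sq_abs, inv_pow, inv_mul_le_iff₀ (by positivity)]
  refine h1.trans (le_of_eq ?_)
  rw [h2]
  ring

theorem tele {q : Dy → HH} {ε y : ℝ} (hε : 0 < ε) (ω : Om) (h : ∀ A, |ω (vv q ε A)| ≤ y) (S : Dy) :
    |ω (q S)| ≤ (4 - 3 * (3 / 4) ^ S.length) * ε * y := by
  have h1 : ∀ A, |ω (inc q A)| ≤ ε * (3 / 4) ^ A.length * y := fun A => by
    have := h A
    rwa [vv, map_smul, smul_eq_mul, abs_mul, abs_of_pos (by positivity),
      inv_mul_le_iff₀ (by positivity)] at this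
  induction S with
  | nil => exact (h1 []).trans (le_of_eq (by simp only [List.length_nil, pow_zero]; ring))
  | cons d S ih =>
    have h2 := h1 (d :: S)
    rw [inc, map_sub] at h2
    refine (abs_sub_abs_le_abs_sub _ _ |>.trans h2 |> sub_le_iff_le_add.1).trans ?_
    refine (add_le_add le_rfl ih).trans (le_of_eq ?_)
    rw [List.length_cons, pow_succ]
    ring

theorem main (h0 : St_G1) (h1 : St_G1D) {μ : ℝ} (hμ : 0 < μ) : ∃ C : ℝ, 0 ≤ C ∧
    ∀ (q : Dy → HH) (ε : ℝ), 0 < ε → ChainH q ε → ∃ y : Om → ℝ,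
      (∀ᵐ ω ∂gm, 0 ≤ y ω ∧ ∀ S, |ω (q S)| ≤ 4 * ε * y ω) ∧
        ∫⁻ ω, eE (μ * y ω) ∂gm ≤ ENNReal.ofReal C := by
  have := h0.1
  obtain ⟨B, hB⟩ := exists_bd μ
  have hC : eE μ + 2 * eE B * ∑' A : Dy, eE (-(4 * A.length)) ≠ ∞ :=
    ENNReal.add_ne_top.2 ⟨ENNReal.ofReal_ne_top, ENNReal.mul_ne_top
      (ENNReal.mul_ne_top (by simp) ENNReal.ofReal_ne_top) tsum_ne_top⟩
  refine ⟨(eE μ + 2 * eE B * ∑' A : Dy, eE (-(4 * A.length))).toReal, ENNReal.toReal_nonneg,
    fun q ε hε hq => ?_⟩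
  rw [ENNReal.ofReal_toReal hC]
  let f : Dy → Om → ℝ≥0∞ := fun A ω =>
    eE ((μ + 4 * A.length) * |ω (vv q ε A)|) * eE (-(4 * A.length))
  have hf : ∀ A, Measurable (f A) := fun A =>
    (((meas_ev _).abs.const_mul _).exp.ennreal_ofReal).mul_const _
  have hF : Measurable fun ω => eE μ + ∑' A, f A ω := (Measurable.tsum hf).const_add _
  have hI : ∫⁻ ω, eE μ + ∑' A, f A ω ∂gm ≤ eE μ + 2 * eE B * ∑' A : Dy, eE (-(4 * A.length)) := by
    rw [lintegral_add_left measurable_const, lintegral_const, measure_univ, mul_one,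
      lintegral_tsum fun A => (hf A).aemeasurable, ← ENNReal.tsum_mul_left]
    refine add_le_add le_rfl (ENNReal.tsum_le_tsum fun A => ?_)
    refine (lintegral_mul_const' _ _ ENNReal.ofReal_ne_top).trans_le ?_
    refine mul_le_mul_left ((h1.2.2.2.2.2.2 _ _).trans (mul_le_mul_right (eE_mono ?_) _)) _
    nlinarith [hB A.length, mul_le_mul_of_nonneg_left (norm_vv hε hq A)
      (sq_nonneg (μ + 4 * A.length))]
  have key : ∀ᵐ ω ∂gm, eE (μ * (Real.log (eE μ + ∑' A, f A ω).toReal / μ)) = eE μ + ∑' A, f A ω := by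
    filter_upwards [ae_lt_top hF (ne_top_of_le_ne_top hC hI)] with ω hω
    rw [mul_div_cancel₀ _ hμ.ne', eE, Real.exp_log (ENNReal.toReal_pos (by simp [eE, Real.exp_pos])
      hω.ne), ENNReal.ofReal_toReal hω.ne]
  refine ⟨fun ω => Real.log (eE μ + ∑' A, f A ω).toReal / μ, ?_,
    (lintegral_congr_ae key).trans_le hI⟩
  filter_upwards [key] with ω hω
  generalize Real.log (eE μ + ∑' A, f A ω).toReal / μ = y at hω
  have hle : ∀ x, eE (μ * x) ≤ eE μ + ∑' A, f A ω → x ≤ y := fun x hx => by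
    rw [← hω, eE, eE, ENNReal.ofReal_le_ofReal_iff (Real.exp_pos _).le, Real.exp_le_exp] at hx
    exact le_of_mul_le_mul_left hx hμ
  have hy : 1 ≤ y := hle 1 (by rw [mul_one]; exact le_self_add)
  refine ⟨by linarith, fun S => (tele (y := y) hε ω (fun A => ?_) S).trans ?_⟩
  · refine (le_total _ 1).elim (fun h => h.trans hy) fun h => hle _ ?_
    refine le_trans ?_ ((ENNReal.le_tsum A).trans le_add_self)
    exact (eE_mono (by nlinarith [Nat.cast_nonneg (α := ℝ) A.length])).trans_eq (eE_add _ _)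
  · have : (0 : ℝ) < (3 / 4) ^ S.length * (ε * y) := by positivity
    nlinarith

theorem chain_mono {q : Dy → HH} {ε : ℝ} (h : ChainH q ε) : ChainH q (|ε| + 1) :=
  have h1 : ε ≤ |ε| + 1 := by linarith [le_abs_self ε]
  ⟨h.1.trans h1, fun d S => (h.2 d S).trans (mul_le_mul_of_nonneg_right h1 (Real.sqrt_nonneg _))⟩

theorem mul_zs_le {x : Dy → ℝ} {lam b y δ : ℝ} (hy : 0 ≤ y) (h : ∀ S, |x S| ≤ b * y)
    (hδ : |lam| * b ≤ δ) : lam * zs x ≤ δ * y :=
  calc lam * zs x ≤ |lam| * zs x :=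
        mul_le_mul_of_nonneg_right (le_abs_self _) ENNReal.toReal_nonneg
    _ ≤ |lam| * (b * y) := mul_le_mul_of_nonneg_left (zs_bd h).2 (abs_nonneg _)
    _ ≤ δ * y := by rw [← mul_assoc]; exact mul_le_mul_of_nonneg_right hδ hy

end CH

open CH in
theorem blk_CH (h0 : St_G1) (h1 : St_G1D) : St_CH := by
  have := h0.1
  refine ⟨(Measurable.iSup fun S => (measurable_pi_apply S).enorm).ennreal_toReal,
    fun _ => ENNReal.toReal_nonneg, fun q ε hq => ?_, fun lam => ⟨fun ε => ?_, fun η hη => ?_⟩⟩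
  · obtain ⟨C, -, hC⟩ := main h0 h1 one_pos
    obtain ⟨y, hy, -⟩ := hC q _ (by positivity) (chain_mono hq)
    filter_upwards [hy] with ω hω using (zs_bd hω.2).1
  · obtain ⟨C, -, hC⟩ := main h0 h1 (μ := |lam| * (4 * (|ε| + 1)) + 1) (by positivity)
    refine ⟨C, fun q hq => ?_⟩
    obtain ⟨y, hy, hI⟩ := hC q _ (by positivity) (chain_mono hq)
    refine (lintegral_mono_ae ?_).trans hI
    filter_upwards [hy] with ω hω using eE_mono (mul_zs_le hω.1 hω.2 (by linarith))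
  · obtain ⟨C, hC0, hC⟩ := main h0 h1 one_pos
    obtain ⟨δ, d0, d1, d2⟩ : ∃ δ : ℝ, 0 < δ ∧ δ ≤ 1 ∧ δ * C ≤ η := by
      refine ⟨min η 1 / (C + 1), by positivity, ?_, ?_⟩
      · rw [div_le_one (by positivity)]
        linarith [min_le_right η 1]
      · rw [div_mul_eq_mul_div, div_le_iff₀ (by positivity)]
        nlinarith [min_le_left η 1]
    refine ⟨δ / (4 * (|lam| + 1)), by positivity, fun q hq => ?_⟩
    obtain ⟨y, hy, hI⟩ := hC q _ (by positivity) hq
    have h2 : |lam| * (4 * (δ / (4 * (|lam| + 1)))) ≤ δ := by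
      rw [← mul_div_assoc, ← mul_div_assoc, div_le_iff₀ (by positivity)]
      nlinarith
    calc _ ≤ ∫⁻ ω, 1 + ENNReal.ofReal δ * eE (1 * y ω) ∂gm := by
          refine lintegral_mono_ae ?_
          filter_upwards [hy] with ω hω
          refine (eE_mono (mul_zs_le hω.1 hω.2 h2)).trans ?_
          rw [eE, eE, ← ENNReal.ofReal_mul d0.le, ← ENNReal.ofReal_one,
            ← ENNReal.ofReal_add one_pos.le (by positivity), one_mul]
          have := convexOn_exp.2 (mem_univ (y ω)) (mem_univ 0) d0.le (sub_nonneg.2 d1) (by ring)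
          simp only [smul_eq_mul, mul_zero, add_zero, Real.exp_zero, mul_one] at this
          exact ENNReal.ofReal_le_ofReal (by linarith)
      _ ≤ 1 + ENNReal.ofReal δ * ENNReal.ofReal C := by
          rw [lintegral_add_left measurable_const, lintegral_const, measure_univ, mul_one,
            lintegral_const_mul' _ _ ENNReal.ofReal_ne_top]
          gcongr
      _ ≤ _ := by
          rw [← ENNReal.ofReal_mul d0.le, ENNReal.ofReal_add one_pos.le hη.le, ENNReal.ofReal_one]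
          gcongr

end

end Pool.Agent.Lib.APPS
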