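import Pool.Agent.Lib.APPS.Blue3

/-!
Block CR: invariance and continuity of the rotation average.
-/

namespace Pool.Agent.Lib.APPS

open MeasureTheory ProbabilityTheory Filter Topology Set Metric
open scoped NNReal ENNReal CompactlySupported BoundedContinuousFunction RealInnerProductSpace
  Classical

noncomputable section

namespace CR

def SS (a : ℝ) (m : Measure Cyl) : Set ℝ := {t | ENNReal.ofReal a ≤ m (Ioi t ×ˢ univ)}

theorem msI (t : ℝ) : MeasurableSet (Ioi t ×ˢ (univ : Set (AddCircle (2 * Real.pi)))) :=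
  measurableSet_Ioi.prod MeasurableSet.univ

theorem monoI (m : Measure Cyl) {t t' : ℝ} (h : t ≤ t') :
    m (Ioi t' ×ˢ univ) ≤ m (Ioi t ×ˢ univ) :=
  measure_mono (Set.prod_mono (Ioi_subset_Ioi h) subset_rfl)

theorem bdd {a : ℝ} (ha : 0 < a) (m : Measure Cyl) [IsFiniteMeasure m] : BddAbove (SS a m) := by
  have h1 : Tendsto (fun n : ℕ => m (Ioi (n : ℝ) ×ˢ univ)) atTop
      (𝓝 (m (⋂ n : ℕ, Ioi (n : ℝ) ×ˢ univ))) :=
    tendsto_measure_iInter_atTop (fun n => (msI _).nullMeasurableSet)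
      (fun i j hij => Set.prod_mono (Ioi_subset_Ioi (Nat.cast_le.2 hij)) subset_rfl)
      ⟨0, measure_ne_top _ _⟩
  have h2 : (⋂ n : ℕ, Ioi (n : ℝ) ×ˢ (univ : Set (AddCircle (2 * Real.pi)))) = ∅ := by
    refine eq_empty_of_forall_notMem fun p hp => ?_
    obtain ⟨n, hn⟩ := exists_nat_gt p.1
    exact lt_asymm hn (mem_iInter.1 hp n).1
  rw [h2, measure_empty] at h1
  obtain ⟨n, hn⟩ := (h1.eventually (gt_mem_nhds (ENNReal.ofReal_pos.2 ha))).exists
  refine ⟨n, fun t ht => ?_⟩
  by_contra hlt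
  exact absurd (ht.trans (monoI m (not_le.1 hlt).le)) (not_le.2 hn)

theorem ne {a : ℝ} (m : Measure Cyl) (h : ENNReal.ofReal a < m univ) : (SS a m).Nonempty := by
  have h1 : Tendsto (fun n : ℕ => m (Ioi (-(n : ℝ)) ×ˢ univ)) atTop
      (𝓝 (m (⋃ n : ℕ, Ioi (-(n : ℝ)) ×ˢ univ))) :=
    tendsto_measure_iUnion_atTop
      (fun i j hij => Set.prod_mono (Ioi_subset_Ioi (neg_le_neg (Nat.cast_le.2 hij))) subset_rfl)
  have h2 : (⋃ n : ℕ, Ioi (-(n : ℝ)) ×ˢ (univ : Set (AddCircle (2 * Real.pi)))) = univ := by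
    refine eq_univ_of_forall fun p => ?_
    obtain ⟨n, hn⟩ := exists_nat_gt (-p.1)
    exact mem_iUnion.2 ⟨n, neg_lt.1 hn, mem_univ _⟩
  rw [h2] at h1
  obtain ⟨n, hn⟩ := (h1.eventually (lt_mem_nhds h)).exists
  exact ⟨_, hn.le⟩

theorem cont_sh (r : ℝ) (s : AddCircle (2 * Real.pi)) :
    Continuous fun p : Cyl => ((p.1 - r, p.2 + s) : Cyl) := by fun_prop

theorem cont_tr (r : ℝ) : Continuous fun p : Cyl => ((p.1 - r, p.2) : Cyl) := by fun_prop

theorem shift_trans {a : ℝ} (ha : 0 < a) (m : Measure Cyl) [IsFiniteMeasure m] (r : ℝ)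
    (h : ENNReal.ofReal a < m univ) : shiftAt a (trans r m) = shiftAt a m - r := by
  have e : ∀ t, trans r m (Ioi t ×ˢ univ) = m (Ioi (t + r) ×ˢ univ) := fun t => by
    rw [trans, Measure.map_apply (cont_tr r).measurable (msI t)]
    congr 1
    ext p
    simp only [mem_preimage, mem_prod, mem_Ioi, mem_univ, and_true, lt_sub_iff_add_lt]
  have hl : IsLUB (SS a m) (shiftAt a m) := isLUB_csSup (ne m h) (bdd ha m)
  obtain ⟨t0, ht0⟩ := ne m h
  refine IsLUB.csSup_eq ⟨fun t ht => ?_, fun b hb => ?_⟩ ⟨t0 - r, ?_⟩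
  · rw [mem_ofPred_eq, e] at ht
    exact le_sub_iff_add_le.2 (hl.1 ht)
  · refine sub_le_iff_le_add.2 (hl.2 fun t ht => sub_le_iff_le_add.1 (hb ?_))
    rw [mem_ofPred_eq, e, sub_add_cancel]; exact ht
  · rw [mem_ofPred_eq, e, sub_add_cancel]; exact ht0

theorem rot_trans {a : ℝ} (ha : 0 < a) (Φ : Measure Cyl → ℝ) (m : Measure Cyl)
    [IsFiniteMeasure m] (r : ℝ) (h : ENNReal.ofReal a < m univ) :
    rotAvg a Φ (trans r m) = rotAvg a Φ m := by
  unfold rotAvg
  rw [shift_trans ha m r h]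
  congr 2
  funext s
  rw [trans, Measure.map_map (cont_sh _ _).measurable (cont_tr r).measurable]
  congr 2
  funext p
  simp only [Function.comp, sub_sub_sub_cancel_right]

/-- continuous ramp between the indicators of two half-cylinders -/
def ramp (u v : ℝ) : Cyl →ᵇ ℝ :=
  BoundedContinuousFunction.ofNormedAddCommGroup (fun w => max 0 (min 1 ((w.1 - u) / (v - u))))
    (by fun_prop) 1 fun w => by
      rw [Real.norm_eq_abs, abs_of_nonneg (le_max_left _ _)]
      exact max_le zero_le_one (min_le_left _ _)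

theorem ramp_apply (u v : ℝ) (w : Cyl) : ramp u v w = max 0 (min 1 ((w.1 - u) / (v - u))) := rfl

theorem ramp_bd {u v : ℝ} (h : u < v) (m : Measure Cyl) [IsFiniteMeasure m] :
    m.real (Ioi v ×ˢ univ) ≤ ∫ w, ramp u v w ∂m ∧ ∫ w, ramp u v w ∂m ≤ m.real (Ioi u ×ˢ univ) := by
  have hi : ∀ t : ℝ, Integrable (fun w => (Ioi t ×ˢ univ : Set Cyl).indicator (1 : Cyl → ℝ) w) m :=
    fun t => (integrable_const (1 : ℝ)).indicator (msI t)
  have hvu : 0 < v - u := sub_pos.2 h
  constructor
  · rw [← integral_indicator_one (msI v)]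
    refine integral_mono (hi v) ((ramp u v).integrable m) fun w => ?_
    by_cases hw : w ∈ (Ioi v ×ˢ univ : Set Cyl)
    · simp only [indicator_of_mem hw, Pi.one_apply, ramp_apply]
      refine le_max_of_le_right (le_min le_rfl ?_)
      rw [le_div_iff₀ hvu, one_mul]
      exact sub_le_sub_right (le_of_lt hw.1) _
    · simp only [indicator_of_notMem hw, ramp_apply]
      exact le_max_left _ _
  · rw [← integral_indicator_one (msI u)]
    refine integral_mono ((ramp u v).integrable m) (hi u) fun w => ?_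
    by_cases hw : w ∈ (Ioi u ×ˢ univ : Set Cyl)
    · simp only [indicator_of_mem hw, Pi.one_apply, ramp_apply]
      exact max_le zero_le_one (min_le_left _ _)
    · simp only [indicator_of_notMem hw, ramp_apply]
      refine max_le le_rfl (min_le_of_right_le (div_nonpos_of_nonpos_of_nonneg ?_ hvu.le))
      have : ¬u < w.1 := fun h' => hw ⟨h', mem_univ _⟩
      exact sub_nonpos.2 (not_lt.1 this)

theorem le_real {a : ℝ} (ha : 0 < a) (m : Measure Cyl) [IsFiniteMeasure m] (s : Set Cyl) :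
    ENNReal.ofReal a ≤ m s ↔ a ≤ m.real s := by
  have := ha
  rw [Measure.real, ENNReal.ofReal_le_iff_le_toReal (measure_ne_top _ _)]

theorem shift_lim {a : ℝ} (ha : 0 < a) (ms : ℕ → Measure Cyl) (m : Measure Cyl)
    (hf : ∀ n, IsFiniteMeasure (ms n)) (hg : GoodM m) (h : ENNReal.ofReal a < m univ)
    (hw : WC ms m) : Tendsto (fun n => shiftAt a (ms n)) atTop (𝓝 (shiftAt a m)) := by
  have : IsFiniteMeasure m := ⟨hg.1.lt_top⟩
  have hl : IsLUB (SS a m) (shiftAt a m) := isLUB_csSup (ne m h) (bdd ha m)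
  have hlo : ∀ u < shiftAt a m, ∀ᶠ n in atTop, u ∈ SS a (ms n) := by
    intro u hu
    obtain ⟨v, huv, hv⟩ := exists_between hu
    obtain ⟨t, ht, hvt, -⟩ := hl.exists_between hv
    have h1 : a < m.real (Ioi v ×ˢ univ) := by
      have h2 : m.real (Ioo v t ×ˢ univ) + m.real (Ioi t ×ˢ univ) ≤ m.real (Ioi v ×ˢ univ) := by
        rw [← measureReal_union _ (msI t)]
        · refine measureReal_mono (union_subset ?_ ?_)
          · exact Set.prod_mono Ioo_subset_Ioi_self subset_rfl
          · exact Set.prod_mono (Ioi_subset_Ioi hvt.le) subset_rfl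
        · exact Set.disjoint_left.2 fun p hp hq => lt_asymm hp.1.2 hq.1
      have h3 : 0 < m.real (Ioo v t ×ˢ univ) :=
        ENNReal.toReal_pos (hg.2.2 _ (isOpen_Ioo.prod isOpen_univ)
          ((nonempty_Ioo.2 hvt).prod univ_nonempty)) (measure_ne_top _ _)
      have h4 := (le_real ha m _).1 ht
      linarith
    filter_upwards [(hw (ramp u v)).eventually
      (lt_mem_nhds (h1.trans_le (ramp_bd huv m).1))] with n hn
    have := hf n
    exact (le_real ha _ _).2 (hn.le.trans (ramp_bd huv (ms n)).2)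
  refine tendsto_order.2 ⟨fun u hu => ?_, fun v hv => ?_⟩
  · obtain ⟨u', hu1, hu2⟩ := exists_between hu
    filter_upwards [hlo u' hu2] with n hn
    have := hf n
    exact hu1.trans_le (le_csSup (bdd ha (ms n)) hn)
  · obtain ⟨v', hv1, hv2⟩ := exists_between hv
    obtain ⟨u, hu1, hu2⟩ := exists_between hv1
    have h1 : m.real (Ioi u ×ˢ univ) < a := by
      by_contra hc
      exact absurd (hl.1 ((le_real ha m _).2 (not_lt.1 hc))) (not_le.2 hu1)
    filter_upwards [(hw (ramp u v')).eventually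
      (gt_mem_nhds ((ramp_bd hu2 m).2.trans_lt h1)), hlo _ (sub_one_lt _)] with n hn hn'
    have := hf n
    refine lt_of_le_of_lt (csSup_le ⟨_, hn'⟩ fun t ht => ?_) hv2
    by_contra hc
    have h2 := (le_real ha _ _).1 (ht.trans (monoI (ms n) (not_le.1 hc).le))
    exact absurd (h2.trans (ramp_bd hu2 (ms n)).1) (not_le.2 hn)

/-- shifted test function as a bounded continuous function -/
def shf (f : C_c(Cyl, ℝ)) (r : ℝ) (s : AddCircle (2 * Real.pi)) : Cyl →ᵇ ℝ :=
  f.toBoundedContinuousFunction.compContinuous ⟨_, cont_sh r s⟩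

theorem shf_apply (f : C_c(Cyl, ℝ)) (r : ℝ) (s : AddCircle (2 * Real.pi)) (p : Cyl) :
    shf f r s p = f (p.1 - r, p.2 + s) := rfl

theorem int_map (f : C_c(Cyl, ℝ)) (r : ℝ) (s : AddCircle (2 * Real.pi)) (m : Measure Cyl) :
    ∫ w, f w ∂(m.map fun p => (p.1 - r, p.2 + s)) = ∫ p, shf f r s p ∂m :=
  integral_map (cont_sh r s).measurable.aemeasurable (map_continuous f).aestronglyMeasurable

theorem shf_lim (f : C_c(Cyl, ℝ)) (s : AddCircle (2 * Real.pi)) {r : ℕ → ℝ} {r0 : ℝ}
    (hr : Tendsto r atTop (𝓝 r0)) :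
    Tendsto (fun n => ‖shf f (r n) s - shf f r0 s‖) atTop (𝓝 0) := by
  have hu : UniformContinuous f :=
    f.hasCompactSupport.uniformContinuous_of_continuous (map_continuous f)
  refine tendsto_order.2 ⟨fun u hu => Eventually.of_forall fun n => hu.trans_le (norm_nonneg _),
    fun ε hε => ?_⟩
  obtain ⟨δ, hδ, h⟩ := Metric.uniformContinuous_iff.1 hu (ε / 2) (half_pos hε)
  filter_upwards [Metric.tendsto_nhds.1 hr δ hδ] with n hn
  refine lt_of_le_of_lt ((BoundedContinuousFunction.norm_le (half_pos hε).le).2 fun p => ?_)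
    (half_lt_self hε)
  rw [BoundedContinuousFunction.sub_apply, ← dist_eq_norm, shf_apply, shf_apply]
  refine (h ?_).le
  rw [Prod.dist_eq, dist_self, dist_sub_left]
  exact max_lt hn hδ

theorem int_lim (f : C_c(Cyl, ℝ)) (s : AddCircle (2 * Real.pi)) {r : ℕ → ℝ} {r0 : ℝ}
    (hr : Tendsto r atTop (𝓝 r0)) (ms : ℕ → Measure Cyl) (m : Measure Cyl)
    (hf : ∀ n, IsFiniteMeasure (ms n)) (hw : WC ms m) :
    Tendsto (fun n => ∫ p, shf f (r n) s p ∂ms n) atTop (𝓝 (∫ p, shf f r0 s p ∂m)) := by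
  have h1 := hw (BoundedContinuousFunction.const Cyl 1)
  simp only [BoundedContinuousFunction.const_apply, integral_const, smul_eq_mul, mul_one] at h1
  have h2 := h1.mul (shf_lim f s hr)
  rw [mul_zero] at h2
  have h3 : Tendsto (fun n => ∫ p, (shf f (r n) s - shf f r0 s) p ∂ms n) atTop (𝓝 0) := by
    refine squeeze_zero_norm (fun n => ?_) h2
    have := hf n
    exact BoundedContinuousFunction.norm_integral_le_mul_norm _ _
  have h4 := h3.add (hw (shf f r0 s))
  rw [zero_add] at h4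
  refine h4.congr fun n => ?_
  have := hf n
  simp only [BoundedContinuousFunction.sub_apply]
  rw [integral_sub ((shf f (r n) s).integrable _) ((shf f r0 s).integrable _), sub_add_cancel]

theorem int_cont (f : C_c(Cyl, ℝ)) (r : ℝ) (m : Measure Cyl) [IsFiniteMeasure m] :
    Continuous fun s : ℝ => ∫ p, shf f r (s : AddCircle (2 * Real.pi)) p ∂m := by
  refine continuous_of_dominated (bound := fun _ => ‖f.toBoundedContinuousFunction‖)
    (fun s => (map_continuous _).aestronglyMeasurable) (fun s => ae_of_all _ fun p => ?_)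
    (integrable_const _) (ae_of_all _ fun p => ?_)
  · exact f.toBoundedContinuousFunction.norm_coe_le_norm _
  · simp only [shf_apply]
    exact (map_continuous f).comp
      (continuous_const.prodMk (continuous_const.add (AddCircle.continuous_mk' _)))

theorem rot_lim {a : ℝ} (ha : 0 < a) {k : ℕ} (f : Fin k → C_c(Cyl, ℝ)) (G : (Fin k → ℝ) →ᵇ ℝ)
    (ms : ℕ → Measure Cyl) (m : Measure Cyl)
    (hf : ∀ n, IsFiniteMeasure (ms n)) (hg : GoodM m) (h : ENNReal.ofReal a < m univ)
    (hw : WC ms m) :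
    Tendsto (fun n => rotAvg a (PhiT f G) (ms n)) atTop (𝓝 (rotAvg a (PhiT f G) m)) := by
  have hs := shift_lim ha ms m hf hg h hw
  unfold rotAvg PhiT
  simp only [int_map]
  refine Tendsto.const_mul _ (intervalIntegral.tendsto_integral_filter_of_dominated_convergence
    (fun _ => ‖G‖) (Eventually.of_forall fun n => ?_)
    (Eventually.of_forall fun n => ae_of_all _ fun s _ => G.norm_coe_le_norm _)
    intervalIntegrable_const (ae_of_all _ fun s _ => ?_))
  · have := hf n
    exact ((map_continuous G).comp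
      (continuous_pi fun i => int_cont (f i) _ (ms n))).aestronglyMeasurable
  · exact ((map_continuous G).tendsto _).comp
      (tendsto_pi_nhds.2 fun i => int_lim (f i) _ hs ms m hf hw)

theorem good_trans (m : Measure Cyl) (r : ℝ) (hg : GoodM m) :
    GoodM (trans r m) ∧ trans r m univ = m univ := by
  have hm := (cont_tr r).measurable
  have e : trans r m univ = m univ := by
    rw [trans, Measure.map_apply hm MeasurableSet.univ, preimage_univ]
  refine ⟨⟨e ▸ hg.1, fun w => ?_, fun U hU hne => ?_⟩, e⟩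
  · rw [trans, Measure.map_apply hm (measurableSet_singleton w), ← hg.2.1 (w.1 + r, w.2)]
    congr 1
    ext p
    simp only [mem_preimage, mem_singleton_iff, Prod.ext_iff, sub_eq_iff_eq_add]
  · rw [trans, Measure.map_apply hm hU.measurableSet]
    obtain ⟨w, hw⟩ := hne
    refine hg.2.2 _ (hU.preimage (cont_tr r)) ⟨(w.1 + r, w.2), ?_⟩
    simpa only [mem_preimage, add_sub_cancel_right] using hw

theorem int_nrm (m : Measure Cyl) (g : Cyl → ℝ) :
    ∫ w, g w ∂nrm m = (∫ w, g w ∂m) / m.real univ := by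
  rw [nrm, integral_smul_measure, ENNReal.toReal_inv, smul_eq_mul, Measure.real, div_eq_inv_mul]

theorem nrm_le (m : Measure Cyl) : nrm m univ ≤ 1 := by
  rw [nrm, Measure.smul_apply, smul_eq_mul]
  exact ENNReal.inv_mul_le_one _

theorem int_eq (m : Measure Cyl) [IsFiniteMeasure m] (g : Cyl → ℝ) :
    ∫ w, g w ∂m = m.real univ * ∫ w, g w ∂nrm m := by
  rw [int_nrm]
  by_cases h : m = 0
  · simp [h]
  · have : m.real univ ≠ 0 := by
      rw [Measure.real, ENNReal.toReal_ne_zero]
      exact ⟨Measure.measure_univ_ne_zero.2 h, measure_ne_top _ _⟩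
    field_simp

end CR

open CR in
theorem blk_CR (_hCYL : St_CYL) (hPHI : St_PHI) (_hMS : St_MS) : St_CR := by
  intro a ha k f G
  refine ⟨fun m r hm h => rot_trans ha _ m r h, fun ms m hf hg h hw => rot_lim ha f G ms m hf hg h hw,
    fun m r hg => good_trans m r hg, fun tf htf V hV m hg => ?_⟩
  have hV0 : 0 < V := ha.trans hV
  have hm0 : m univ ≠ 0 := hg.2.2 _ isOpen_univ univ_nonempty
  have h1 : nrm m univ = 1 := by
    rw [nrm, Measure.smul_apply, smul_eq_mul, ENNReal.inv_mul_cancel hm0 hg.1]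
  have hp : IsProbabilityMeasure (nrm m) := ⟨h1⟩
  have h2 : (ENNReal.ofReal V • nrm m) univ = ENNReal.ofReal V := by
    rw [Measure.smul_apply, h1, smul_eq_mul, mul_one]
  have h3 : (ENNReal.ofReal V • nrm m).real univ = V := by
    rw [Measure.real, h2, ENNReal.toReal_ofReal hV0.le]
  have h4 : ∀ g : Cyl → ℝ, ∫ w, g w ∂(ENNReal.ofReal V • nrm m) = V * ∫ w, g w ∂nrm m := fun g => by
    rw [integral_smul_measure, ENNReal.toReal_ofReal hV0.le, smul_eq_mul]
  have hg' : GoodM (ENNReal.ofReal V • nrm m) := by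
    refine ⟨h2.trans_ne ENNReal.ofReal_ne_top, fun w => ?_, fun U hU hne => ?_⟩
    · simp only [nrm, Measure.smul_apply, hg.2.1 w, smul_eq_mul, mul_zero]
    · simp only [nrm, Measure.smul_apply, smul_eq_mul]
      exact mul_ne_zero (ENNReal.ofReal_pos.2 hV0).ne'
        (mul_ne_zero (ENNReal.inv_ne_zero.2 hg.1) (hg.2.2 U hU hne))
  refine ⟨⟨_, ⟨hg'.1.lt_top⟩, ?_⟩, fun t ht hv hd => ?_⟩
  · rw [h3]
    congr 2
    funext j
    rw [obsn, obsn, h3, h4, int_nrm, mul_div_cancel_left₀ _ hV0.ne']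
  choose ms hf e using ht
  simp only [e] at hv hd ⊢
  refine rot_lim ha f G ms _ hf hg' 
    (((ENNReal.ofReal_lt_ofReal_iff hV0).2 hV).trans_eq h2.symm) fun g => ?_
  have h5 := htf.det (nrm m) (fun n => nrm (ms n)) hp (fun n => nrm_le _) (fun j => by
    simp only [int_nrm]
    exact (hPHI.2.2.2.2.1 _ _).1 hd j) g
  rw [h4]
  refine (hv.mul h5).congr fun n => ?_
  have := hf n
  exact (int_eq _ _).symm

end

end Pool.Agent.Lib.APPS
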