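import Pool.Agent.Lib.APPS.Blue3

/-!
Elementary facts on the cylinder coordinates.
-/

namespace Pool.Agent.Lib.APPS

open MeasureTheory ProbabilityTheory Filter Topology Set Metric
open scoped NNReal ENNReal CompactlySupported Classical

noncomputable section

namespace CYL

theorem l2_pos : 0 < l2 := Real.log_pos one_lt_two

theorem frC_mk (t θ : ℝ) :
    frC (t, (θ : AddCircle (2 * Real.pi))) = Complex.exp (-(t + θ * Complex.I)) := by
  have h : 2 * Real.pi / (2 * Real.pi) = 1 := div_self Real.two_pi_pos.ne'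
  simp only [frC, AddCircle.toCircle_apply_mk, h, one_mul, Circle.coe_exp]
  rw [← Complex.exp_neg, Complex.ofReal_exp, ← Complex.exp_add]
  congr 1
  push_cast
  ring

theorem norm_frC (w : Cyl) : ‖frC w‖ = Real.exp (-w.1) := by
  simp only [frC, norm_mul, norm_inv, Circle.norm_coe, inv_one, mul_one, Complex.norm_real]
  exact Real.norm_of_nonneg (Real.exp_pos _).le

theorem frC_toCyl (x : ℂ) (hx : x ≠ 0) : frC (toCyl x) = x := by
  rw [toCyl, frC_mk]
  conv_rhs => rw [← Complex.norm_mul_exp_arg_mul_I x]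
  rw [← Real.exp_log (norm_pos_iff.2 hx), Complex.ofReal_exp, ← Complex.exp_add, Real.log_exp]
  congr 1
  push_cast
  ring

theorem frC_ne (w : Cyl) : frC w ≠ 0 := by
  rw [← norm_pos_iff, norm_frC]; exact Real.exp_pos _

theorem frC_inj : Function.Injective frC := by
  intro w w' h
  have h1 : w.1 = w'.1 := by
    have := congrArg norm h
    rw [norm_frC, norm_frC] at this
    simpa using this
  refine Prod.ext h1 ?_
  simp only [frC, h1] at h
  have h2 := mul_left_cancel₀ (by exact_mod_cast (Real.exp_pos _).ne') h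
  exact AddCircle.injective_toCircle Real.two_pi_pos.ne' (Circle.coe_injective (inv_injective h2))

theorem toCyl_frC (w : Cyl) : toCyl (frC w) = w := frC_inj (frC_toCyl _ (frC_ne w))

theorem cont_frC : Continuous frC := by
  refine (Complex.continuous_ofReal.comp (Real.continuous_exp.comp continuous_fst.neg)).mul ?_
  refine Continuous.inv₀ ?_ fun w => Circle.coe_ne_zero _
  exact continuous_subtype_val.comp (AddCircle.continuous_toCircle.comp continuous_snd)

theorem contAt_toCyl {x : ℂ} (hx : x ≠ 0) : ContinuousAt toCyl x := by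
  refine ContinuousAt.prodMk ?_ ?_
  · exact (continuous_norm.continuousAt.log (norm_ne_zero_iff.2 hx)).neg
  · have h : ContinuousAt (fun y : ℂ => ((Complex.arg y : ℝ) : AddCircle (2 * Real.pi))) x :=
      Complex.continuousAt_arg_coe_angle hx
    simp only [AddCircle.coe_neg]
    exact h.neg

theorem meas_toCyl : Measurable toCyl :=
  (measurable_norm.log.neg).prodMk (AddCircle.measurable_mk'.comp Complex.measurable_arg.neg)

theorem toCyl_mul (ρ : ℝ) (x : ℂ) (hρ : 0 < ρ) (hx : x ≠ 0) :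
    toCyl (ρ * x) = ((toCyl x).1 - Real.log ρ, (toCyl x).2) := by
  simp only [toCyl, Complex.arg_real_mul x hρ, norm_mul, Complex.norm_real,
    Real.norm_of_nonneg hρ.le, Real.log_mul hρ.ne' (norm_ne_zero_iff.2 hx)]
  congr 1
  ring

theorem frC_add (w : Cyl) (u : ℂ) :
    frC (w.1 + u.re, w.2 + ((u.im : ℝ) : AddCircle (2 * Real.pi))) = frC w * Complex.exp (-u) := by
  obtain ⟨t, a⟩ := w
  induction a using QuotientAddGroup.induction_on with
  | H θ =>
    have e : ((θ : AddCircle (2 * Real.pi)) + ((u.im : ℝ) : AddCircle (2 * Real.pi))) =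
        ((θ + u.im : ℝ) : AddCircle (2 * Real.pi)) := (AddCircle.coe_add _ _ _).symm
    show frC (t + u.re, (θ : AddCircle (2 * Real.pi)) + ((u.im : ℝ) : AddCircle (2 * Real.pi))) =
      frC (t, (θ : AddCircle (2 * Real.pi))) * Complex.exp (-u)
    rw [e, frC_mk, frC_mk, ← Complex.exp_add]
    congr 1
    conv_rhs => rw [← Complex.re_add_im u]
    push_cast
    ring

theorem cyl_eq [Fact (0 < 2 * Real.pi)] :
    cylVol = (volume : Measure ℝ).prod (volume : Measure (AddCircle (2 * Real.pi))) := by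
  have h := (AddCircle.measurePreserving_mk (2 * Real.pi) 0).map_eq
  rw [zero_add] at h
  rw [cylVol, h]

theorem lint_log (g : ℝ → ℝ≥0∞) :
    ∫⁻ r in Ioi (0 : ℝ), ENNReal.ofReal (1 / r) * g (-Real.log r) = ∫⁻ t, g t := by
  have h := lintegral_image_eq_lintegral_abs_deriv_mul (s := univ) (f := fun t => Real.exp (-t))
    (f' := fun t => -Real.exp (-t)) MeasurableSet.univ
    (fun t _ => by
      have h0 := (hasDerivAt_neg t).exp
      rw [mul_neg_one] at h0
      exact h0.hasDerivWithinAt)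
    (fun a _ b _ hab => by simpa using hab)
    (fun r => ENNReal.ofReal (1 / r) * g (-Real.log r))
  have e : (fun t => Real.exp (-t)) '' univ = Ioi 0 := by
    ext r
    simp only [image_univ, mem_range, mem_Ioi]
    exact ⟨fun ⟨t, ht⟩ => ht ▸ Real.exp_pos _, fun hr => ⟨-Real.log r, by simp [Real.exp_log hr]⟩⟩
  rw [e, Measure.restrict_univ] at h
  rw [h]
  refine lintegral_congr fun t => ?_
  rw [abs_neg, abs_of_pos (Real.exp_pos _), ← mul_assoc,
    ← ENNReal.ofReal_mul (Real.exp_pos _).le, mul_one_div_cancel (Real.exp_pos _).ne',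
    ENNReal.ofReal_one, one_mul, Real.log_exp, neg_neg]

theorem lint_ang [Fact (0 < 2 * Real.pi)] (g : AddCircle (2 * Real.pi) → ℝ≥0∞) :
    ∫⁻ θ in Ioo (-Real.pi) Real.pi, g ((-θ : ℝ) : AddCircle (2 * Real.pi)) = ∫⁻ a, g a := by
  have h := AddCircle.lintegral_preimage (2 * Real.pi) (-Real.pi)
    (fun a : AddCircle (2 * Real.pi) => g (-a))
  rw [show -Real.pi + 2 * Real.pi = Real.pi by ring, lintegral_neg_eq_self] at h
  rw [← h, Measure.restrict_congr_set Ioo_ae_eq_Ioc]
  simp only [AddCircle.coe_neg]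

theorem cyl_polar :
    cylVol = (volume.withDensity fun x : ℂ => ENNReal.ofReal (1 / ‖x‖ ^ 2)).map toCyl := by
  have : Fact (0 < 2 * Real.pi) := ⟨Real.two_pi_pos⟩
  refine Measure.ext_of_lintegral _ fun f hf => ?_
  have hd : Measurable fun x : ℂ => ENNReal.ofReal (1 / ‖x‖ ^ 2) := by fun_prop
  have hft : Measurable fun x => f (toCyl x) := hf.comp meas_toCyl
  rw [lintegral_map hf meas_toCyl, lintegral_withDensity_eq_lintegral_mul _ hd hft,
    ← Complex.lintegral_comp_polarCoord_symm, cyl_eq, lintegral_prod _ hf.aemeasurable]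
  have hm : Measurable fun p : ℝ × ℝ => ENNReal.ofReal (1 / p.1) *
      f (-Real.log p.1, ((-p.2 : ℝ) : AddCircle (2 * Real.pi))) :=
    (by fun_prop : Measurable fun p : ℝ × ℝ => ENNReal.ofReal (1 / p.1)).mul
      (hf.comp (measurable_fst.log.neg.prodMk (AddCircle.measurable_mk'.comp measurable_snd.neg)))
  have e : ∫⁻ p in polarCoord.target, ENNReal.ofReal p.1 •
      ((fun x : ℂ => ENNReal.ofReal (1 / ‖x‖ ^ 2)) * fun x => f (toCyl x))
        (Complex.polarCoord.symm p) =
      ∫⁻ p in Ioi (0 : ℝ) ×ˢ Ioo (-Real.pi) Real.pi, ENNReal.ofReal (1 / p.1) *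
        f (-Real.log p.1, ((-p.2 : ℝ) : AddCircle (2 * Real.pi))) := by
    refine setLIntegral_congr_fun (measurableSet_Ioi.prod measurableSet_Ioo) fun p hp => ?_
    have h1 : 0 < p.1 := hp.1
    have hn : ‖Complex.polarCoord.symm p‖ = p.1 := by
      rw [Complex.norm_polarCoord_symm, abs_of_pos h1]
    have ha : Complex.arg (Complex.polarCoord.symm p) = p.2 := by
      rw [Complex.polarCoord_symm_apply, Complex.ofReal_cos, Complex.ofReal_sin]
      exact Complex.arg_mul_cos_add_sin_mul_I h1 ⟨hp.2.1, hp.2.2.le⟩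
    simp only [Pi.mul_apply, smul_eq_mul, toCyl, hn, ha]
    rw [← mul_assoc, ← ENNReal.ofReal_mul h1.le]
    congr 2
    field_simp
  refine Eq.trans ?_ e.symm
  rw [Measure.volume_eq_prod, ← Measure.prod_restrict, lintegral_prod _ hm.aemeasurable,
    ← lint_log fun t => ∫⁻ a, f (t, a)]
  refine lintegral_congr fun r => ?_
  rw [← lint_ang fun a => f (-Real.log r, a),
    ← lintegral_const_mul' _ _ ENNReal.ofReal_ne_top]

theorem trans_cyl (r : ℝ) : trans r cylVol = cylVol := by
  have : Fact (0 < 2 * Real.pi) := ⟨Real.two_pi_pos⟩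
  rw [cyl_eq, trans]
  exact ((measurePreserving_sub_right volume r).prod (MeasurePreserving.id volume)).map_eq

theorem bd_supp (f : C_c(Cyl, ℝ)) : ∃ T : ℝ, ∀ w, f w ≠ 0 → |w.1| ≤ T := by
  obtain ⟨T, hT⟩ := (f.hasCompactSupport.isCompact.image continuous_fst).isBounded.exists_norm_le
  exact ⟨T, fun w hw => hT _ (mem_image_of_mem _ (subset_tsupport _ hw))⟩

theorem pb_facts (f : C_c(Cyl, ℝ)) :
    Continuous (pb f) ∧ HasCompactSupport (pb f) ∧ UniformContinuous (pb f) ∧
    ∃ T : ℝ, ∀ w, f w ≠ 0 → |w.1| ≤ T := by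
  obtain ⟨T, hT⟩ := bd_supp f
  have hc : Continuous (pb f) := by
    refine continuous_iff_continuousAt.2 fun x => ?_
    by_cases hx : x = 0
    · subst hx
      refine (continuousAt_const (y := (0 : ℝ))).congr ?_
      filter_upwards [ball_mem_nhds (0 : ℂ) (Real.exp_pos (-T))] with y hy
      by_cases h0 : y = 0
      · simp [pb, h0]
      · simp only [pb, h0, if_false]
        by_contra h1
        have h2 := (abs_le.1 (hT _ (Ne.symm h1))).2
        rw [mem_ball_zero_iff, ← Real.log_lt_iff_lt_exp (norm_pos_iff.2 h0)] at hy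
        simp only [toCyl] at h2
        linarith
    · refine (f.continuous.continuousAt.comp (contAt_toCyl hx)).congr ?_
      filter_upwards [isOpen_ne.mem_nhds hx] with y hy
      simp [pb, hy]
  have hs : HasCompactSupport (pb f) := by
    refine HasCompactSupport.intro (isCompact_closedBall (0 : ℂ) (Real.exp T)) fun y hy => ?_
    by_cases h0 : y = 0
    · simp [pb, h0]
    · simp only [pb, h0, if_false]
      by_contra h1
      have h2 := (abs_le.1 (hT _ h1)).1
      rw [mem_closedBall_zero_iff, not_le, ← Real.lt_log_iff_exp_lt (norm_pos_iff.2 h0)] at hy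
      simp only [toCyl] at h2
      linarith
  exact ⟨hc, hs, hs.uniformContinuous_of_continuous hc, T, hT⟩

theorem mk_cc (g : Cyl → ℝ) (hg : Continuous g) (T : ℝ) (hT : ∀ w, g w ≠ 0 → |w.1| ≤ T) :
    ∃ h : C_c(Cyl, ℝ), ∀ w, h w = g w := by
  have : Fact (0 < 2 * Real.pi) := ⟨Real.two_pi_pos⟩
  refine ⟨⟨⟨g, hg⟩, ?_⟩, fun w => rfl⟩
  refine HasCompactSupport.intro ((isCompact_Icc (a := -T) (b := T)).prod isCompact_univ)
    fun w hw => ?_
  by_contra h
  exact hw ⟨abs_le.1 (hT w h), mem_univ _⟩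

theorem hat0_facts (w : Cyl) :
    0 ≤ hat0 w ∧ hat0 w ≤ 1 ∧ (hat0 w ≠ 0 → -(2 * l2) < w.1 ∧ w.1 < 0) := by
  refine ⟨le_max_left _ _, max_le zero_le_one (by linarith [abs_nonneg (w.1 / l2 + 1)]),
    fun h => ?_⟩
  have h1 : |w.1 / l2 + 1| < 1 := by
    by_contra h2
    exact h (max_eq_left (by linarith [not_lt.1 h2]))
  obtain ⟨h2, h3⟩ := abs_lt.1 h1
  have h4 : -2 < w.1 / l2 := by linarith
  have h5 : w.1 / l2 < 0 := by linarith
  rw [lt_div_iff₀ l2_pos] at h4
  rw [div_lt_iff₀ l2_pos] at h5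
  constructor <;> linarith

theorem f0_facts (K : ℕ) (w : Cyl) : 0 ≤ f0 K w ∧ f0 K w ≤ 1 ∧ (|w.1| ≤ K * l2 → f0 K w = 1) ∧
    (f0 K w ≠ 0 → |w.1| < (K + 1) * l2) ∧ f0 K w ≤ f0 (K + 1) w := by
  refine ⟨le_max_left _ _, max_le zero_le_one (min_le_left _ _), fun h => ?_, fun h => ?_, ?_⟩
  · rw [← div_le_iff₀ l2_pos] at h
    rw [f0, min_eq_left (by linarith), max_eq_right zero_le_one]
  · rw [← div_lt_iff₀ l2_pos]
    by_contra h2
    exact h (max_eq_left ((min_le_right _ _).trans (by linarith [not_lt.1 h2])))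
  · refine max_le_max le_rfl (min_le_min le_rfl ?_)
    push_cast
    linarith

theorem tent_zero {y : ℝ} (h : 1 ≤ |y|) : max 0 (1 - |y|) = 0 := max_eq_left (by linarith)

theorem tent_nat (c : ℝ) (hc : 0 ≤ c) : HasSum (fun j : ℕ => max 0 (1 - |c - j|)) 1 := by
  have h1 := Nat.floor_le hc
  have h2 := Nat.lt_floor_add_one c
  have h := hasSum_sum_of_ne_finset_zero (L := SummationFilter.unconditional ℕ)
    (f := fun j : ℕ => max 0 (1 - |c - j|))
    (s := {⌊c⌋₊, ⌊c⌋₊ + 1}) fun j hj => by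
      simp only [Finset.mem_insert, Finset.mem_singleton, not_or] at hj
      refine tent_zero ?_
      rcases lt_or_gt_of_ne hj.1 with h3 | h3
      · have : (j : ℝ) + 1 ≤ ⌊c⌋₊ := by exact_mod_cast h3
        exact le_abs.2 (Or.inl (by linarith))
      · have h4 : ⌊c⌋₊ + 2 ≤ j := by omega
        have : (⌊c⌋₊ : ℝ) + 2 ≤ j := by exact_mod_cast h4
        exact le_abs.2 (Or.inr (by linarith))
  rw [Finset.sum_pair (by omega), abs_of_nonneg (by linarith), abs_of_nonpos (by push_cast; linarith),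
    max_eq_right (by linarith), max_eq_right (by push_cast; linarith)] at h
  convert h using 1
  push_cast
  ring

theorem tent_int (c : ℝ) : HasSum (fun j : ℤ => max 0 (1 - |c + j|)) 1 := by
  have h1 := Int.floor_le c
  have h2 := Int.lt_floor_add_one c
  have h := hasSum_sum_of_ne_finset_zero (L := SummationFilter.unconditional ℤ)
    (f := fun j : ℤ => max 0 (1 - |c + j|))
    (s := {-⌊c⌋, -⌊c⌋ - 1}) fun j hj => by
      simp only [Finset.mem_insert, Finset.mem_singleton, not_or] at hj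
      refine tent_zero ?_
      rcases lt_or_gt_of_ne hj.1 with h3 | h3
      · have h4 : j + 2 ≤ -⌊c⌋ := by omega
        have : (j : ℝ) + 2 ≤ -⌊c⌋ := by exact_mod_cast h4
        exact le_abs.2 (Or.inr (by linarith))
      · have h4 : -⌊c⌋ + 1 ≤ j := by omega
        have : -(⌊c⌋ : ℝ) + 1 ≤ j := by exact_mod_cast h4
        exact le_abs.2 (Or.inl (by linarith))
  rw [Finset.sum_pair (by omega), abs_of_nonneg (by push_cast; linarith),
    abs_of_nonpos (by push_cast; linarith),
    max_eq_right (by push_cast; linarith), max_eq_right (by push_cast; linarith)] at h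
  convert h using 1
  push_cast
  ring

theorem hat_pow (x : ℂ) (hx : x ≠ 0) (j : ℕ) :
    (toCyl (2 ^ j * x)).1 = -Real.log ‖x‖ - j * l2 := by
  have e : (2 : ℂ) ^ j = ((2 ^ j : ℝ) : ℂ) := by push_cast; rfl
  rw [e, toCyl_mul _ _ (by positivity) hx, Real.log_pow]
  rfl

theorem hat_sum (x : ℂ) (hx : x ≠ 0) (h2 : ‖x‖ ≤ 2) :
    HasSum (fun j : ℕ => hat0 (toCyl (2 ^ j * x))) 1 := by
  have hc : 0 ≤ -Real.log ‖x‖ / l2 + 1 := by
    have h3 : Real.log ‖x‖ ≤ l2 := Real.log_le_log (norm_pos_iff.2 hx) h2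
    have h4 : -1 ≤ -Real.log ‖x‖ / l2 := by
      rw [le_div_iff₀ l2_pos]; linarith
    linarith
  convert tent_nat _ hc using 2 with j
  rw [hat0, hat_pow x hx]
  congr 3
  field_simp [l2_pos.ne']
  ring

theorem hat_supp (x : ℂ) (j : ℕ) (hx : x ≠ 0) (h : hat0 (toCyl (2 ^ j * x)) ≠ 0) :
    (1 / 2 : ℝ) ^ j < ‖x‖ ∧ ‖x‖ < 4 * (1 / 2 : ℝ) ^ j := by
  obtain ⟨h1, h2⟩ := (hat0_facts _).2.2 h
  rw [hat_pow x hx] at h1 h2
  have hp := norm_pos_iff.2 hx
  have e : Real.log ((1 / 2 : ℝ) ^ j) = -(j * l2) := by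
    simp only [l2, Real.log_pow, one_div, Real.log_inv]; ring
  have e4 : Real.log 4 = 2 * l2 := by
    rw [show (4 : ℝ) = 2 ^ 2 by norm_num, Real.log_pow]; rfl
  constructor
  · rw [← Real.log_lt_log_iff (by positivity) hp, e]; linarith
  · rw [← Real.log_lt_log_iff hp (by positivity), Real.log_mul (by norm_num) (by positivity), e, e4]
    linarith

theorem hat_grid (M : ℕ) (w : Cyl) :
    HasSum (fun i : ℤ => hat0 (w.1 + i * (eps M : ℝ), w.2)) (M + 1) := by
  have hN : (0 : ℝ) < M + 1 := by positivity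
  have he : (eps M : ℝ) = l2 / (M + 1) := Real.coe_toNNReal _ (div_pos l2_pos hN).le
  set g : ℤ → ℝ := fun i => hat0 (w.1 + i * (eps M : ℝ), w.2) with hg
  have hN' : (0 : ℤ) < M + 1 := by omega
  have h1 : ∀ r ∈ Finset.range (M + 1),
      HasSum (fun i : ℤ => if i % (M + 1) = r then g i else 0) (1 : ℝ) := by
    intro r hr
    have hr' : (r : ℤ) < M + 1 := by exact_mod_cast Finset.mem_range.1 hr
    have hi : Function.Injective fun q : ℤ => (r : ℤ) + (M + 1) * q := fun a b hab => by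
      simpa [hN'.ne'] using hab
    rw [← hi.hasSum_iff]
    · convert tent_int (w.1 / l2 + 1 + r / (M + 1)) using 2 with q
      have e : ((r : ℤ) + (M + 1) * q) % (M + 1) = r := by
        rw [Int.add_mul_emod_self_left, Int.emod_eq_of_lt (by omega) hr']
      simp only [Function.comp, e, if_true, hg, hat0, he]
      congr 3
      push_cast
      field_simp [l2_pos.ne']
      ring
    · intro i hi'
      rw [if_neg]
      intro h
      exact hi' ⟨i / (M + 1), by
        show (r : ℤ) + (M + 1) * (i / (M + 1)) = i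
        rw [← h]; exact Int.emod_add_mul_ediv i (M + 1)⟩
  have h2 := hasSum_sum h1
  simp only [Finset.sum_const, Finset.card_range, nsmul_eq_mul, mul_one] at h2
  convert h2 using 2 with i
  · have h3 : 0 ≤ i % (M + 1) := Int.emod_nonneg _ hN'.ne'
    have h4 : i % (M + 1) < M + 1 := Int.emod_lt_of_pos _ hN'
    rw [Finset.sum_eq_single (i % (M + 1)).toNat]
    · rw [if_pos (Int.toNat_of_nonneg h3).symm]
    · intro b _ hb
      rw [if_neg]
      intro h
      exact hb (by omega)
    · intro h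
      exact absurd (Finset.mem_range.2 (by omega)) h
  · push_cast; ring

end CYL

theorem blk_CYL (_hE : St_EXP1) : St_CYL := by
  have : Fact (0 < 2 * Real.pi) := ⟨Real.two_pi_pos⟩
  refine ⟨CYL.frC_toCyl, CYL.toCyl_frC, CYL.cont_frC,
    fun x hx => (CYL.contAt_toCyl hx).continuousWithinAt, CYL.meas_toCyl, CYL.norm_frC,
    CYL.toCyl_mul, CYL.frC_add, CYL.cyl_polar, CYL.trans_cyl, ?_, ?_, CYL.pb_facts, ?_,
    fun K => ?_, CYL.hat0_facts, CYL.f0_facts, CYL.hat_sum, CYL.hat_supp, CYL.hat_grid⟩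
  · rw [CYL.cyl_eq]; infer_instance
  · rw [CYL.cyl_eq]; infer_instance
  · refine CYL.mk_cc hat0 (by unfold hat0; fun_prop) (2 * l2) fun w hw => ?_
    obtain ⟨h1, h2⟩ := (CYL.hat0_facts w).2.2 hw
    exact abs_le.2 ⟨h1.le, by linarith [CYL.l2_pos]⟩
  · exact CYL.mk_cc (f0 K) (by unfold f0; fun_prop) ((K + 1) * l2) fun w hw =>
      ((CYL.f0_facts K w).2.2.2.1 hw).le

end

end Pool.Agent.Lib.APPS
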