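import Pool.Agent.Lib.APPS.B_DISCa

/-!
Block DISC: Markov decomposition of the field in a disc.
-/

namespace Pool.Agent.Lib.APPS

open MeasureTheory ProbabilityTheory Filter Topology Set Metric
open scoped NNReal ENNReal RealInnerProductSpace Classical

noncomputable section

namespace DISC

theorem sub_cb {c : ℂ} {r : ℝ} (hr : 0 < r) : closedBall c (r / 2) ⊆ closedBall c r :=
  closedBall_subset_closedBall (by linarith)

theorem null_mono {μ : Measure ℂ} {s t : Set ℂ} (h : μ sᶜ = 0) (hst : s ⊆ t) : μ tᶜ = 0 :=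
  measure_mono_null (compl_subset_compl.2 hst) h

theorem bg_zero (M : Model) {μ : Measure ℂ} (h : μ M.Oᶜ = 0) : ∫ x, M.bg x ∂μ = 0 := by
  have h2 : ∀ᵐ x ∂μ, x ∈ M.O := h
  refine integral_eq_zero_of_ae ?_
  filter_upwards [h2] with x hx
  exact M.bg0 x hx

theorem sph_ball {μ : Measure ℂ} {c : ℂ} {r : ℝ} (h : μ (sphere c r)ᶜ = 0) : μ (ball c r) = 0 := by
  refine measure_mono_null ?_ h
  intro x hx h2
  rw [mem_ball] at hx
  rw [mem_sphere] at h2
  exact hx.ne h2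

theorem g_out (hFE : St_FE) (hE1 : St_EXP1) (M : Model) {c : ℂ} {r : ℝ} {μ ν : Measure ℂ}
    (hr : 0 < r) (hO : closedBall c r ⊆ M.O) (hp : PFE μ) (hμ : μ (closedBall c (r / 2))ᶜ = 0)
    (hν : FE ν) (ho : ν (ball c r) = 0) : ⟪M.gv c r μ, M.e ν⟫ = 0 := by
  have := hp.2
  have hb := bal_PFE hFE hE1 hr hμ
  have := hb.2
  unfold Model.gv
  rw [inner_sub_left, M.ee _ _ hp.1 hν, M.ee _ _ hb.1 hν,
    bg_zero M (null_mono hμ ((sub_cb hr).trans hO)),
    bg_zero M (null_mono (bal_sph hFE hr hμ) (sphere_subset_closedBall.trans hO)),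
    (hFE.2.2.2.2.1 _ _ hb.1 hν).1, Ie_bal_out hFE hE1 hr hp hμ hν ho,
    (hFE.2.2.2.2.1 _ _ hp.1 hν).1]
  simp

theorem ae_offdiag {μ ν : Measure ℂ} (hμ : PFE μ) (hν : PFE ν) :
    ∀ᵐ p ∂μ.prod ν, p.1 ≠ p.2 := by
  have := hμ.2
  have := hν.2
  refine (Measure.ae_prod_iff_ae_ae (p := fun p : ℂ × ℂ => p.1 ≠ p.2) ?_).2
    (Eventually.of_forall fun x => ?_)
  · exact (isClosed_eq continuous_fst continuous_snd).isOpen_compl.measurableSet
  · filter_upwards [ae_ne hν.1 x] with y hy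
    exact hy.symm

theorem ae_pair {μ ν : Measure ℂ} [SFinite ν] {p q : ℂ → Prop} (h1 : ∀ᵐ x ∂μ, p x)
    (h2 : ∀ᵐ y ∂ν, q y) : ∀ᵐ z ∂μ.prod ν, p z.1 ∧ q z.2 :=
  (Measure.quasiMeasurePreserving_fst.ae h1).and (Measure.quasiMeasurePreserving_snd.ae h2)

theorem int_Lk {c : ℂ} {r : ℝ} {μ ν : Measure ℂ} [IsProbabilityMeasure μ] [IsProbabilityMeasure ν]
    (hr : 0 < r) (hμ : μ (closedBall c (r / 2))ᶜ = 0) (hν : ν (closedBall c (r / 2))ᶜ = 0) :
    Integrable (fun p : ℂ × ℂ => Lk c r p.1 p.2) (μ.prod ν) := by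
  refine Integrable.of_bound (meas_Lk c r).aestronglyMeasurable
    (|Real.log (r / 2)| + |Real.log (r / 2 + r)|) ?_
  filter_upwards [ae_pair (ae_ball hμ) (ae_ball hν)] with p hp
  have h1 := Lk_low (x := p.1) hr hp.2
  have h2 : Lk c r p.1 p.2 ≤ Real.log (r / 2 + r) :=
    Real.log_le_log (lt_of_lt_of_le (by positivity) (max_low hr hp.2))
      ((max_up hr hp.2).trans (by linarith [hp.1]))
  rw [Real.norm_eq_abs, abs_le]
  constructor
  · linarith [neg_abs_le (Real.log (r / 2)), abs_nonneg (Real.log (r / 2 + r))]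
  · linarith [le_abs_self (Real.log (r / 2 + r)), abs_nonneg (Real.log (r / 2))]

theorem Ie_bal_in (hFE : St_FE) (hE1 : St_EXP1) {c : ℂ} {r : ℝ} {μ ν : Measure ℂ}
    (hr : 0 < r) (hp : PFE μ) (hq : PFE ν) (hμ : μ (closedBall c (r / 2))ᶜ = 0)
    (hν : ν (closedBall c (r / 2))ᶜ = 0) :
    Ie μ (bal c r ν) = -∫ p : ℂ × ℂ, Lk c r p.1 p.2 ∂μ.prod ν := by
  have := hp.2
  have := hq.2
  rw [Ie_bal hFE hE1 hr hν hp.1, integral_prod _ (int_Lk hr hμ hν)]
  simp only [integral_neg]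

theorem gg (hFE : St_FE) (hE1 : St_EXP1) (hM : St_MOD) (M : Model) {c : ℂ} {r : ℝ}
    {μ ν : Measure ℂ} (hr : 0 < r) (hO : closedBall c r ⊆ M.O) (hp : PFE μ) (hq : PFE ν)
    (hμ : μ (closedBall c (r / 2))ᶜ = 0) (hν : ν (closedBall c (r / 2))ᶜ = 0) :
    ⟪M.gv c r μ, M.gv c r ν⟫ = ∫ p : ℂ × ℂ, Gk c r p.1 p.2 ∂(μ.prod ν) := by
  have := hp.2
  have := hq.2
  have hb := bal_PFE hFE hE1 hr hμ
  have hb' := bal_PFE hFE hE1 hr hν
  have h1 := g_out hFE hE1 M hr hO hq hν hb.1 (sph_ball (bal_sph hFE hr hμ))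
  have h2 := (hM M).2.2.2.2.2.1 ν (bal c r ν) μ hq hb' hp (null_mono hν ((sub_cb hr).trans hO))
    (null_mono (bal_sph hFE hr hν) (sphere_subset_closedBall.trans hO))
  have h3 : ⟪M.gv c r μ, M.gv c r ν⟫ = ⟪M.gv c r ν, M.e μ⟫ - ⟪M.gv c r ν, M.e (bal c r μ)⟫ := by
    rw [real_inner_comm, ← inner_sub_right]; rfl
  rw [h3, h1, sub_zero]
  unfold Model.gv
  rw [h2, (hFE.2.2.2.2.1 _ _ hq.1 hp.1).1, (hFE.2.2.2.2.1 _ _ hb'.1 hp.1).1,
    Ie_bal_in hFE hE1 hr hp hq hμ hν]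
  simp only [Gk_eq]
  rw [integral_sub (int_Lk hr hμ hν) (hFE.1 _ _ hp.1 hq.1)]
  unfold Ie
  rw [integral_neg]
  ring

theorem Gk_nonneg {c x y : ℂ} {r : ℝ} (h : x ≠ y) : 0 ≤ Gk c r x y := by
  unfold Gk
  exact sub_nonneg.2 (Real.log_le_log (norm_pos_iff.2 (sub_ne_zero.2 h)) (le_max_left _ _))

theorem qq (hFE : St_FE) (hE1 : St_EXP1) (hM : St_MOD) (M : Model) {c : ℂ} {r : ℝ}
    {μ ν : Measure ℂ} (hr : 0 < r) (hp : PFE μ) (hq : PFE ν)
    (hμ : μ (closedBall c (r / 2))ᶜ = 0) (hν : ν (closedBall c (r / 2))ᶜ = 0) :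
    ⟪M.qv c r μ, M.qv c r ν⟫ = Real.log r - ∫ p : ℂ × ℂ, Lk c r p.1 p.2 ∂μ.prod ν := by
  have := hp.2
  have := hq.2
  have hb := bal_PFE hFE hE1 hr hμ
  have hb' := bal_PFE hFE hE1 hr hν
  have h := (hM M).2.2.2.2.2.2.2.2.1 c r _ _ hr hb hb'
    (null_mono (bal_sph hFE hr hμ) sphere_subset_closedBall)
    (null_mono (bal_sph hFE hr hν) sphere_subset_closedBall)
  unfold Model.qv
  rw [h, (hFE.2.2.2.2.1 _ _ hb.1 hb'.1).1,
    Ie_bal_out hFE hE1 hr hp hμ hb'.1 (sph_ball (bal_sph hFE hr hν)),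
    (hFE.2.2.2.2.1 _ _ hb'.1 hp.1).1, Ie_bal_in hFE hE1 hr hp hq hμ hν]
  ring

theorem log_diff {a b m : ℝ} (hm : 0 < m) (ha : m ≤ a) (hb : m ≤ b) :
    |Real.log a - Real.log b| ≤ |a - b| / m := by
  have key : ∀ u v : ℝ, m ≤ u → m ≤ v → Real.log u - Real.log v ≤ |u - v| / m := by
    intro u v hu hv
    have hu0 : 0 < u := hm.trans_le hu
    have hv0 : 0 < v := hm.trans_le hv
    rw [← Real.log_div hu0.ne' hv0.ne']
    refine (Real.log_le_sub_one_of_pos (div_pos hu0 hv0)).trans ?_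
    rw [div_sub_one hv0.ne']
    exact (div_le_div_of_nonneg_right (le_abs_self _) hv0.le).trans
      (div_le_div_of_nonneg_left (abs_nonneg _) hm hv)
  rw [abs_le]
  refine ⟨?_, key a b ha hb⟩
  have := key b a hb ha
  rw [abs_sub_comm] at this
  linarith

theorem bk_low {c x y : ℂ} {r : ℝ} (hr : 0 < r) (hx : ‖x - c‖ ≤ r / 2) (hy : ‖y - c‖ ≤ r / 2) :
    3 / 4 * r ≤ ‖bk c r x y‖ := by
  have h1 := norm_sub_norm_le (r : ℂ) ((x - c) * (starRingEnd ℂ) (y - c) / r)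
  rw [norm_cross hr, Complex.norm_real, Real.norm_of_nonneg hr.le] at h1
  have h2 : ‖x - c‖ * ‖y - c‖ / r ≤ r / 4 := by
    rw [div_le_iff₀ hr]
    nlinarith [norm_nonneg (x - c), norm_nonneg (y - c)]
  unfold bk
  linarith

theorem second {c x y w : ℂ} {r : ℝ} (hr : 0 < r) (hx : ‖x - c‖ ≤ r / 2) (hy : ‖y - c‖ ≤ r / 2)
    (hw : ‖w - c‖ ≤ r / 2) :
    |Lk c r x y - Lk c r x w - Lk c r w y + Lk c r w w| ≤ 2 * (‖x - w‖ * ‖y - w‖) / r ^ 2 := by
  have l : ∀ {u : ℂ}, ‖u - c‖ ≤ r / 2 → ‖u - c‖ ≤ r := fun h => by linarith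
  rw [Lk_in hr (l hx) (l hy), Lk_in hr (l hx) (l hw), Lk_in hr (l hw) (l hy),
    Lk_in hr (l hw) (l hw)]
  have b1 := bk_low hr hx hy
  have b2 := bk_low hr hx hw
  have b3 := bk_low hr hw hy
  have b4 := bk_low hr hw hw
  have p : ∀ {u : ℝ}, 3 / 4 * r ≤ u → u ≠ 0 := fun h => by intro h0; rw [h0] at h; linarith
  have e : Real.log ‖bk c r x y‖ - Real.log ‖bk c r x w‖ - Real.log ‖bk c r w y‖ +
      Real.log ‖bk c r w w‖ = Real.log ‖bk c r x y * bk c r w w‖ -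
        Real.log ‖bk c r x w * bk c r w y‖ := by
    rw [norm_mul, norm_mul, Real.log_mul (p b1) (p b4), Real.log_mul (p b2) (p b3)]; ring
  have hr' : (r : ℂ) ≠ 0 := by exact_mod_cast hr.ne'
  have e2 : bk c r x y * bk c r w w - bk c r x w * bk c r w y =
      -((x - w) * (starRingEnd ℂ) (y - w)) := by
    unfold bk
    simp only [map_sub]
    field_simp
    ring
  have h := log_diff (m := r ^ 2 / 2) (a := ‖bk c r x y * bk c r w w‖)
    (b := ‖bk c r x w * bk c r w y‖) (by positivity)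
    (by rw [norm_mul]; nlinarith) (by rw [norm_mul]; nlinarith)
  have h2 := abs_norm_sub_norm_le (bk c r x y * bk c r w w) (bk c r x w * bk c r w y)
  rw [e2, norm_neg, norm_mul (x - w), Complex.norm_conj] at h2
  rw [e]
  refine h.trans ?_
  rw [div_div_eq_mul_div]
  refine div_le_div_of_nonneg_right ?_ (by positivity)
  linarith

theorem second_int {c w : ℂ} {r ρ : ℝ} {μ ν : Measure ℂ} [IsProbabilityMeasure μ]
    [IsProbabilityMeasure ν] (hr : 0 < r) (hμ : μ (closedBall c (r / 2))ᶜ = 0)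
    (hν : ν (closedBall c (r / 2))ᶜ = 0) (hw : ‖w - c‖ ≤ r / 2)
    (h1 : ∀ᵐ x ∂μ, ‖x - w‖ ≤ ρ) (h2 : ∀ᵐ x ∂ν, ‖x - w‖ ≤ ρ) :
    |∫ p : ℂ × ℂ, Lk c r p.1 p.2 ∂μ.prod ν - ∫ x, Lk c r x w ∂μ - ∫ y, Lk c r w y ∂ν +
      Lk c r w w| ≤ 2 * (ρ / r) ^ 2 := by
  have hd : Measure.dirac w (closedBall c (r / 2))ᶜ = 0 := by
    rw [Measure.dirac_apply' _ isClosed_closedBall.measurableSet.compl,
      indicator_of_notMem (by simpa [mem_closedBall_iff_norm, dist_eq_norm] using hw)]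
  have i0 := int_Lk hr hμ hν
  have i1 : Integrable (fun x => Lk c r x w) μ := by
    have := (int_Lk hr hμ hd).prod_left_ae
    rwa [ae_dirac_eq, eventually_pure] at this
  have i2 : Integrable (fun y => Lk c r w y) ν := by
    have := (int_Lk hr hd hν).prod_right_ae
    rwa [ae_dirac_eq, eventually_pure] at this
  have j1 : Integrable (fun p : ℂ × ℂ => Lk c r p.1 w) (μ.prod ν) := i1.comp_fst ν
  have j2 : Integrable (fun p : ℂ × ℂ => Lk c r w p.2) (μ.prod ν) := i2.comp_snd μ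
  have e : ∫ p : ℂ × ℂ, Lk c r p.1 p.2 ∂μ.prod ν - ∫ x, Lk c r x w ∂μ - ∫ y, Lk c r w y ∂ν +
      Lk c r w w = ∫ p : ℂ × ℂ, (Lk c r p.1 p.2 - Lk c r p.1 w - Lk c r w p.2 + Lk c r w w)
        ∂μ.prod ν := by
    have k1 : Integrable (fun p : ℂ × ℂ => Lk c r p.1 p.2 - Lk c r p.1 w) (μ.prod ν) := i0.sub j1
    have k2 : Integrable (fun p : ℂ × ℂ => Lk c r p.1 p.2 - Lk c r p.1 w - Lk c r w p.2)
      (μ.prod ν) := k1.sub j2
    rw [integral_add k2 (integrable_const _), integral_sub k1 j2,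
      integral_sub i0 j1, integral_fun_fst (fun x => Lk c r x w),
      integral_fun_snd (fun y => Lk c r w y)]
    simp
  rw [e, ← Real.norm_eq_abs]
  have := norm_integral_le_of_norm_le_const (μ := μ.prod ν) (C := 2 * (ρ / r) ^ 2)
    (f := fun p : ℂ × ℂ => Lk c r p.1 p.2 - Lk c r p.1 w - Lk c r w p.2 + Lk c r w w) (by
      filter_upwards [ae_pair (ae_ball hμ) (ae_ball hν), ae_pair h1 h2] with p hp hp'
      refine (second hr hp.1 hp.2 hw).trans ?_
      rw [div_pow, ← mul_div_assoc]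
      refine div_le_div_of_nonneg_right ?_ (by positivity)
      nlinarith [norm_nonneg (p.1 - w), norm_nonneg (p.2 - w), hp'.1, hp'.2])
  simpa using this

theorem Lk_cen {c x : ℂ} {r : ℝ} (hr : 0 < r) (hx : ‖x - c‖ ≤ r / 2) :
    Lk c r x c = Real.log r ∧ Lk c r c x = Real.log r := by
  have h0 : ‖c - c‖ ≤ r := by simpa using hr.le
  rw [Lk_in hr (by linarith) h0, Lk_in hr h0 (by linarith)]
  unfold bk
  simp [abs_of_pos hr]

theorem q_bd (hFE : St_FE) (hE1 : St_EXP1) (hM : St_MOD) (M : Model) {c : ℂ} {r ρ : ℝ}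
    {μ : Measure ℂ} (hr : 0 < r) (hp : PFE μ) (hμ : μ (closedBall c (r / 2))ᶜ = 0)
    (hρ : 0 ≤ ρ) (h : μ (closedBall c ρ)ᶜ = 0) : ‖M.qv c r μ‖ ≤ 6 * ρ / r := by
  have := hp.2
  have h0 : ‖c - c‖ ≤ r / 2 := by simpa using (half_pos hr).le
  have h1 := second_int hr hμ hμ h0 (ae_ball h) (ae_ball h)
  have e1 : ∫ x, Lk c r x c ∂μ = Real.log r := by
    rw [integral_congr_ae (g := fun _ => Real.log r)
      (by filter_upwards [ae_ball hμ] with x hx using (Lk_cen hr hx).1)]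
    simp
  have e2 : ∫ x, Lk c r c x ∂μ = Real.log r := by
    rw [integral_congr_ae (g := fun _ => Real.log r)
      (by filter_upwards [ae_ball hμ] with x hx using (Lk_cen hr hx).2)]
    simp
  rw [e1, e2, (Lk_cen hr h0).1, abs_le] at h1
  have h2 := qq hFE hE1 hM M hr hp hp hμ hμ
  rw [real_inner_self_eq_norm_sq] at h2
  have h3 : 0 ≤ ρ / r := by positivity
  rw [mul_div_assoc]
  refine (pow_le_pow_iff_left₀ (norm_nonneg _) (by positivity) two_ne_zero).1 ?_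
  nlinarith [h1.1]

theorem q_diff (hFE : St_FE) (hE1 : St_EXP1) (hM : St_MOD) (M : Model) {c c' : ℂ} {r ρ : ℝ}
    {μ ν : Measure ℂ} (hr : 0 < r) (hp : PFE μ) (hq : PFE ν)
    (hμ : μ (closedBall c (r / 2))ᶜ = 0) (hν : ν (closedBall c (r / 2))ᶜ = 0)
    (hρ : 0 ≤ ρ) (h : μ (closedBall c' ρ)ᶜ = 0) (h' : ν (closedBall c' ρ)ᶜ = 0) :
    ‖M.qv c r μ - M.qv c r ν‖ ≤ 6 * ρ / r := by
  have := hp.2
  have := hq.2
  obtain ⟨w, hw, hw'⟩ := ((ae_ball hμ).and (ae_ball h)).exists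
  have tri : ∀ x : ℂ, ‖x - c'‖ ≤ ρ → ‖x - w‖ ≤ 2 * ρ := by
    intro x hx
    have := norm_sub_le (x - c') (w - c')
    rw [sub_sub_sub_cancel_right] at this
    linarith
  have a1 := (ae_ball h).mono tri
  have a2 := (ae_ball h').mono tri
  have s1 := abs_le.1 (second_int hr hμ hμ hw a1 a1)
  have s2 := abs_le.1 (second_int hr hμ hν hw a1 a2)
  have s3 := abs_le.1 (second_int hr hν hμ hw a2 a1)
  have s4 := abs_le.1 (second_int hr hν hν hw a2 a2)
  have q1 := qq hFE hE1 hM M hr hp hp hμ hμ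
  have q2 := qq hFE hE1 hM M hr hp hq hμ hν
  have q3 := qq hFE hE1 hM M hr hq hp hν hμ
  have q4 := qq hFE hE1 hM M hr hq hq hν hν
  have h3 : 0 ≤ ρ / r := by positivity
  rw [mul_div_assoc]
  refine (pow_le_pow_iff_left₀ (norm_nonneg _) (by positivity) two_ne_zero).1 ?_
  rw [← real_inner_self_eq_norm_sq, inner_sub_left, inner_sub_right, inner_sub_right,
    q1, q2, q3, q4]
  rw [mul_div_assoc] at s1 s2 s3 s4
  nlinarith [s1.1, s2.2, s3.2, s4.1]

theorem gq (hFE : St_FE) (hE1 : St_EXP1) (M : Model) {c : ℂ} {r : ℝ}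
    {μ ν : Measure ℂ} (hr : 0 < r) (hO : closedBall c r ⊆ M.O) (hp : PFE μ) (hq : PFE ν)
    (hμ : μ (closedBall c (r / 2))ᶜ = 0) (hν : ν (closedBall c (r / 2))ᶜ = 0) :
    ⟪M.gv c r μ, M.qv c r ν⟫ = 0 := by
  have := hq.2
  unfold Model.qv Model.eC
  rw [inner_sub_right,
    g_out hFE hE1 M hr hO hp hμ (bal_PFE hFE hE1 hr hν).1 (sph_ball (bal_sph hFE hr hν)),
    g_out hFE hE1 M hr hO hp hμ (circ_FE hFE c hr) (sph_ball (circ_sph hFE c hr)), sub_zero]

theorem Gk_scale {T : Dy} (hs : 0 < side T) {c x y : ℂ} {r : ℝ} (hr : 0 < r) (h : x ≠ y) :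
    Gk (zS T c) (r * side T) (zS T x) (zS T y) = Gk c r x y := by
  have hr' : (r : ℂ) ≠ 0 := by exact_mod_cast hr.ne'
  have hs' : (side T : ℂ) ≠ 0 := by exact_mod_cast hs.ne'
  have e1 : ∀ u v, zS T u - zS T v = (side T : ℂ) * (u - v) := by
    intro u v; unfold zS; ring
  have e2 : ((r * side T : ℝ) : ℂ) - (zS T x - zS T c) * (starRingEnd ℂ) (zS T y - zS T c) /
      ((r * side T : ℝ) : ℂ) =
      (side T : ℂ) * ((r : ℂ) - (x - c) * (starRingEnd ℂ) (y - c) / r) := by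
    rw [e1, e1, map_mul, Complex.conj_ofReal]
    push_cast
    field_simp
  have hp : 0 < ‖x - y‖ := norm_pos_iff.2 (sub_ne_zero.2 h)
  unfold Gk
  rw [e2, e1, norm_mul, norm_mul, Complex.norm_real, Real.norm_of_nonneg hs.le,
    ← mul_max_of_nonneg _ _ hs.le, Real.log_mul hs.ne' (lt_max_of_lt_left hp).ne',
    Real.log_mul hs.ne' hp.ne']
  ring

theorem meas_Gk (c : ℂ) (r : ℝ) : Measurable fun p : ℂ × ℂ => Gk c r p.1 p.2 :=
  (meas_Lk c r).sub meas_logsub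

theorem log_side (T : Dy) : Real.log (side T) = -(T.length * l2) := by
  unfold side l2
  rw [Real.log_pow, one_div, Real.log_inv]
  ring

end DISC

open DISC in
theorem blk_DISC (hFE : St_FE) (hE1 : St_EXP1) (hE2 : St_EXP2) (hG : St_GEO1) (hM : St_MOD) :
    St_DISC := by
  obtain ⟨C, hC, -, -, hk, -⟩ := hE2.2.2.2.2.2
  have hmax : ∀ {ρ r : ℝ}, 0 ≤ ρ → 0 < r → 6 * ρ / r ≤ max 6 C * ρ / r := fun hρ hr =>
    div_le_div_of_nonneg_right (mul_le_mul_of_nonneg_right (le_max_left _ _) hρ) hr.le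
  refine ⟨max 6 C, le_max_of_le_right hC, ?_, ?_, ?_⟩
  · intro c r μ hr hp hμ
    have := hp.2
    exact ⟨bal_PFE hFE hE1 hr hμ, bal_sph hFE hr hμ⟩
  · intro M c r μ hr hO hp hμ
    have := hp.2
    refine ⟨g_out hFE hE1 M hr hO hp hμ (circ_FE hFE c hr) (sph_ball (circ_sph hFE c hr)), ?_,
      fun ν' h1 h2 => g_out hFE hE1 M hr hO hp hμ h1 h2,
      fun ρ hρ h => (q_bd hFE hE1 hM M hr hp hμ hρ h).trans (hmax hρ hr), fun ν hq hν => ?_⟩
    · exact (hM M).2.2.2.2.2.2.2.2.2.1 c r r _ hr le_rfl (bal_PFE hFE hE1 hr hμ)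
        (null_mono (bal_sph hFE hr hμ) sphere_subset_closedBall) hO
    · refine ⟨gg hFE hE1 hM M hr hO hp hq hμ hν, ?_, gq hFE hE1 M hr hO hp hq hμ hν,
        fun c' ρ hρ h h' => (q_diff hFE hE1 hM M hr hp hq hμ hν hρ h h').trans (hmax hρ hr)⟩
      rw [gg hFE hE1 hM M hr hO hp hq hμ hν]
      refine integral_nonneg_of_ae ?_
      filter_upwards [ae_offdiag hp hq] with p hp
      exact Gk_nonneg hp
  · intro M T r hr hO
    have hr0 : 0 < r := by linarith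
    have hs := (hG.1 T).1
    have hR : 0 < r * side T := mul_pos hr0 hs
    have hu := hFE.2.2.2.2.2.2.2.1
    have hbox : ∀ A, box A ⊆ closedBall (ctr A) (side A) := fun A y hy => by
      have := (hG.2.2.2.1 A).2.2.2.1 y hy
      rw [mem_closedBall_iff_norm]
      linarith [(hG.1 A).1]
    have hsub : ∀ S A : Dy, unif (S ++ A) (closedBall (ctr A) (side A))ᶜ = 0 := fun S A =>
      null_mono (hu _).2 (((hG.2.2.2.2.1 _ _).2 (List.suffix_append S A)).trans (hbox A))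
    have hle : side T ≤ r * side T / 2 := by nlinarith
    have hin : ∀ S : Dy, unif (S ++ T) (closedBall (ctr T) (r * side T / 2))ᶜ = 0 := fun S =>
      null_mono (hsub S T) (closedBall_subset_closedBall hle)
    have hq : ∀ S, ‖M.qv (ctr T) (r * side T) (unif (S ++ T))‖ ≤ max 6 C / r := by
      intro S
      refine ((q_bd hFE hE1 hM M hR (hu _).1 (hin S) hs.le (hsub S T)).trans
        (hmax hs.le hR)).trans (le_of_eq ?_)
      field_simp
    refine ⟨fun S S' => ?_, ⟨hq [], fun d S => ?_⟩, hq, fun S => ?_⟩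
    · have := (hu S).1.2
      have := (hu S').1.2
      have hz : Measurable (zS T) := by unfold zS; fun_prop
      have hc : ctr T = zS T (ctr []) := by simpa using (hG.2.2.1 [] T).2.1
      rw [gg hFE hE1 hM M hR hO (hu _).1 (hu _).1 (hin S) (hin S'), hE2.1, hE2.1,
        Measure.map_prod_map _ _ hz hz, integral_map (hz.prodMap hz).aemeasurable
          (meas_Gk _ _).aestronglyMeasurable]
      unfold cov0
      refine integral_congr_ae ?_
      filter_upwards [ae_offdiag (hu S).1 (hu S').1] with p hp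
      rw [hc]
      exact Gk_scale hs hr0 hp
    · have hS := hG.1 S
      have h1 := (q_diff hFE hE1 hM M hR (hu _).1 (hu _).1 (hin (d :: S)) (hin S)
        (hG.1 (S ++ T)).1.le (hsub [d] (S ++ T)) (hsub [] (S ++ T))).trans
        (hmax (hG.1 (S ++ T)).1.le hR)
      refine h1.trans ?_
      rw [hG.2.1]
      have e : max 6 C * (side S * side T) / (r * side T) = max 6 C / r * side S := by
        field_simp
      rw [e]
      refine mul_le_mul_of_nonneg_left ?_ (div_nonneg (le_max_of_le_right hC) hr0.le)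
      refine Real.le_sqrt_of_sq_le ?_
      nlinarith [hS.1, hS.2]
    · have h1 := (hM M).2.2.2.2.2.2.2.2.2.2.2.1 (ctr T) (r * side T) T hR
        ((hbox T).trans (closedBall_subset_closedBall (by nlinarith))) S S
      have h2 := gq hFE hE1 M hR hO (hu _).1 (hu _).1 (hin S) (hin S)
      have e : M.eS (S ++ T) - M.eC (ctr T) (r * side T) =
          M.gv (ctr T) (r * side T) (unif (S ++ T)) +
            M.qv (ctr T) (r * side T) (unif (S ++ T)) := by
        unfold Model.gv Model.qv Model.eS; abel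
      simp only [e] at h1
      rw [real_inner_self_eq_norm_sq, norm_add_sq_real, h2] at h1
      have h3 := abs_le.1 (hk S S)
      rw [sub_self, norm_zero, max_self, max_eq_right (hG.1 S).1.le, log_side] at h3
      unfold covE at h1
      rw [Real.log_mul hr0.ne' hs.ne', log_side] at h1
      nlinarith [h3.2, le_max_right 6 C, sq_nonneg ‖M.qv (ctr T) (r * side T) (unif (S ++ T))‖]

end

end Pool.Agent.Lib.APPS
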