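import Pool.Agent.Lib.APPS.Blue3

/-!
Block ENV: Lipschitz envelopes.
-/

namespace Pool.Agent.Lib.APPS

open MeasureTheory ProbabilityTheory Filter Topology Set Metric
open scoped NNReal ENNReal CompactlySupported BoundedContinuousFunction RealInnerProductSpace
  Classical

noncomputable section

theorem blk_ENV (hPHI : St_PHI) : St_ENV := by
  intro 𝓢 V h01
  obtain ⟨hd, htri, -⟩ := hPHI
  have hΛ : ∀ (Λ : ℕ) s s', 0 ≤ (Λ : ℝ) * dS s s' := fun Λ s s' =>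
    mul_nonneg (Nat.cast_nonneg _) (hd s s').1
  have upLe : ∀ (Λ : ℕ) s (b : ℝ), 0 ≤ b →
      (∀ t ∈ 𝓢, |t.2.1 - V| ≤ 1 / (Λ + 1) → t.1 - Λ * dS t.2.2 s ≤ b) → envUp 𝓢 V Λ s ≤ b := by
    intro Λ s b hb h
    refine csSup_le (insert_nonempty _ _) ?_
    rintro r (rfl | ⟨t, ht, h1, rfl⟩)
    exacts [hb, h t ht h1]
  have leLo : ∀ (Λ : ℕ) s (b : ℝ), b ≤ 1 →
      (∀ t ∈ 𝓢, |t.2.1 - V| ≤ 1 / (Λ + 1) → b ≤ t.1 + Λ * dS t.2.2 s) → b ≤ envLo 𝓢 V Λ s := by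
    intro Λ s b hb h
    refine le_csInf (insert_nonempty _ _) ?_
    rintro r (rfl | ⟨t, ht, h1, rfl⟩)
    exacts [hb, h t ht h1]
  have bU : ∀ (Λ : ℕ) s, BddAbove (insert 0
      {r | ∃ t ∈ 𝓢, |t.2.1 - V| ≤ 1 / (Λ + 1) ∧ r = t.1 - Λ * dS t.2.2 s}) := by
    intro Λ s
    refine ⟨1, ?_⟩
    rintro r (rfl | ⟨t, ht, -, rfl⟩)
    · exact zero_le_one
    · linarith [(h01 t ht).2, hΛ Λ t.2.2 s]
  have bL : ∀ (Λ : ℕ) s, BddBelow (insert 1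
      {r | ∃ t ∈ 𝓢, |t.2.1 - V| ≤ 1 / (Λ + 1) ∧ r = t.1 + Λ * dS t.2.2 s}) := by
    intro Λ s
    refine ⟨0, ?_⟩
    rintro r (rfl | ⟨t, ht, -, rfl⟩)
    · exact zero_le_one
    · linarith [(h01 t ht).1, hΛ Λ t.2.2 s]
  have U0 : ∀ (Λ : ℕ) s, 0 ≤ envUp 𝓢 V Λ s := fun Λ s => le_csSup (bU Λ s) (mem_insert _ _)
  have L1 : ∀ (Λ : ℕ) s, envLo 𝓢 V Λ s ≤ 1 := fun Λ s => csInf_le (bL Λ s) (mem_insert _ _)
  have U1 : ∀ (Λ : ℕ) s, envUp 𝓢 V Λ s ≤ 1 := fun Λ s => upLe Λ s 1 zero_le_one fun t ht _ => by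
    linarith [(h01 t ht).2, hΛ Λ t.2.2 s]
  have L0 : ∀ (Λ : ℕ) s, 0 ≤ envLo 𝓢 V Λ s := fun Λ s => leLo Λ s 0 zero_le_one fun t ht _ => by
    linarith [(h01 t ht).1, hΛ Λ t.2.2 s]
  have key : ∀ Λ : ℕ, ∀ t ∈ 𝓢, |t.2.1 - V| ≤ 1 / (Λ + 1) → ∀ s,
      t.1 - Λ * dS t.2.2 s ≤ envUp 𝓢 V Λ s ∧ envLo 𝓢 V Λ s ≤ t.1 + Λ * dS t.2.2 s :=
    fun Λ t ht h1 s => ⟨le_csSup (bU Λ s) (mem_insert_of_mem _ ⟨t, ht, h1, rfl⟩),
      csInf_le (bL Λ s) (mem_insert_of_mem _ ⟨t, ht, h1, rfl⟩)⟩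
  have tri : ∀ (Λ : ℕ) u s s', (Λ : ℝ) * dS u s' ≤ Λ * dS u s + Λ * dS s s' := fun Λ u s s' => by
    rw [← mul_add]
    exact mul_le_mul_of_nonneg_left (htri u s s') (Nat.cast_nonneg _)
  have lU : ∀ (Λ : ℕ) s s', envUp 𝓢 V Λ s ≤ envUp 𝓢 V Λ s' + Λ * dS s s' := fun Λ s s' =>
    upLe Λ s _ (add_nonneg (U0 _ _) (hΛ _ _ _)) fun t ht h1 => by
      linarith [(key Λ t ht h1 s').1, tri Λ t.2.2 s s']
  have lL : ∀ (Λ : ℕ) s s', envLo 𝓢 V Λ s' - Λ * dS s s' ≤ envLo 𝓢 V Λ s := fun Λ s s' =>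
    leLo Λ s _ (by linarith [L1 Λ s', hΛ Λ s s']) fun t ht h1 => by
      linarith [(key Λ t ht h1 s').2, tri Λ t.2.2 s s']
  have aU : ∀ (Λ : ℕ) s s', |envUp 𝓢 V Λ s - envUp 𝓢 V Λ s'| ≤ Λ * dS s s' := fun Λ s s' => by
    have h1 := lU Λ s s'
    have h2 := lU Λ s' s
    rw [← (hd s s').2.2.1] at h2
    exact abs_le.2 ⟨by linarith, by linarith⟩
  have aL : ∀ (Λ : ℕ) s s', |envLo 𝓢 V Λ s - envLo 𝓢 V Λ s'| ≤ Λ * dS s s' := fun Λ s s' => by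
    have h1 := lL Λ s s'
    have h2 := lL Λ s' s
    rw [← (hd s s').2.2.1] at h2
    exact abs_le.2 ⟨by linarith, by linarith⟩
  refine ⟨fun Λ => ⟨⟨fun s => ⟨U0 Λ s, U1 Λ s⟩, aU Λ⟩, ⟨fun s => ⟨L0 Λ s, L1 Λ s⟩, aL Λ⟩,
    fun s => ⟨le_max_left _ _, max_le zero_le_one (by linarith [U1 Λ s, L0 Λ s])⟩,
    fun s s' => ?_⟩, key, fun s Λ Λ' hle => ?_, fun v0 s0 h0 hseq => ?_⟩
  · unfold gapE
    rw [max_comm 0, max_comm 0]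
    refine (abs_max_sub_max_le_abs _ _ _).trans ?_
    have h1 := abs_le.1 (aU Λ s s')
    have h2 := abs_le.1 (aL Λ s s')
    exact abs_le.2 ⟨by linarith [h1.1, h2.2], by linarith [h1.2, h2.1]⟩
  · have hc : (Λ : ℝ) ≤ Λ' := Nat.cast_le.2 hle
    refine leLo Λ' s _ (L1 Λ s) fun t ht h1 => ?_
    have h2 := (key Λ t ht (h1.trans (one_div_le_one_div_of_le (by positivity)
      (by linarith))) s).2
    have h3 := mul_le_mul_of_nonneg_right hc (hd t.2.2 s).1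
    linarith
  have hv := h01 _ h0
  have hδ : ∀ ε > 0, ∃ δ > 0, ∀ t ∈ 𝓢, |t.2.1 - V| ≤ δ → dS t.2.2 s0 ≤ δ → |t.1 - v0| < ε := by
    intro ε hε
    by_contra hc
    push Not at hc
    choose t ht h1 h2 h3 using fun n : ℕ => hc (1 / ((n : ℝ) + 1)) (by positivity)
    have hz : Tendsto (fun n : ℕ => 1 / ((n : ℝ) + 1)) atTop (𝓝 0) :=
      tendsto_one_div_add_atTop_nhds_zero_nat
    have h4 := hseq t ht (tendsto_iff_norm_sub_tendsto_zero.2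
      (squeeze_zero (fun n => norm_nonneg _) h1 hz)) (squeeze_zero (fun n => (hd _ _).1) h2 hz)
    obtain ⟨n, hn⟩ := (Metric.tendsto_nhds.1 h4 ε hε).exists
    exact absurd (h3 n) (not_le.2 hn)
  have hmain : ∀ ε > 0, ∀ᶠ Λ : ℕ in atTop, v0 ≤ envUp 𝓢 V Λ s0 ∧ envUp 𝓢 V Λ s0 ≤ v0 + ε ∧
      v0 - ε ≤ envLo 𝓢 V Λ s0 ∧ envLo 𝓢 V Λ s0 ≤ v0 := by
    intro ε hε
    obtain ⟨δ, hδ0, h⟩ := hδ ε hε
    obtain ⟨N, hN⟩ := exists_nat_ge (1 / δ)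
    filter_upwards [eventually_ge_atTop N] with Λ hΛN
    have h1 : 1 ≤ (Λ : ℝ) * δ := (div_le_iff₀ hδ0).1 (hN.trans (Nat.cast_le.2 hΛN))
    have h2 : 1 / ((Λ : ℝ) + 1) ≤ δ := by
      rw [div_le_iff₀ (by positivity)]; nlinarith
    have h3 := key Λ _ h0 (by simp only [sub_self, abs_zero]; positivity) s0
    simp only [(hd s0 s0).2.2.2, mul_zero, sub_zero, add_zero] at h3
    have h4 : ∀ u, δ < dS u s0 → 1 ≤ (Λ : ℝ) * dS u s0 := fun u hu =>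
      h1.trans (mul_le_mul_of_nonneg_left hu.le (Nat.cast_nonneg _))
    refine ⟨h3.1, upLe Λ s0 _ (by linarith [hv.1]) fun t ht h5 => ?_,
      leLo Λ s0 _ (by linarith [hv.2]) fun t ht h5 => ?_, h3.2⟩
    · rcases le_or_gt (dS t.2.2 s0) δ with h6 | h6
      · linarith [(abs_lt.1 (h t ht (h5.trans h2) h6)).2, hΛ Λ t.2.2 s0]
      · linarith [h4 _ h6, (h01 t ht).2, hv.1]
    · rcases le_or_gt (dS t.2.2 s0) δ with h6 | h6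
      · linarith [(abs_lt.1 (h t ht (h5.trans h2) h6)).1, hΛ Λ t.2.2 s0]
      · linarith [h4 _ h6, (h01 t ht).1, hv.2]
  have t1 : Tendsto (fun Λ : ℕ => envUp 𝓢 V Λ s0) atTop (𝓝 v0) := by
    refine Metric.tendsto_nhds.2 fun ε hε => ?_
    filter_upwards [hmain (ε / 2) (half_pos hε)] with Λ h
    rw [Real.dist_eq, abs_lt]
    constructor <;> linarith [h.1, h.2.1]
  have t2 : Tendsto (fun Λ : ℕ => envLo 𝓢 V Λ s0) atTop (𝓝 v0) := by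
    refine Metric.tendsto_nhds.2 fun ε hε => ?_
    filter_upwards [hmain (ε / 2) (half_pos hε)] with Λ h
    rw [Real.dist_eq, abs_lt]
    constructor <;> linarith [h.2.2.1, h.2.2.2]
  refine ⟨t1, t2, ?_⟩
  have t3 := (tendsto_const_nhds (x := (0 : ℝ))).max (t1.sub t2)
  rwa [sub_self, max_self] at t3

end

end Pool.Agent.Lib.APPS
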