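import Pool.Agent.Lib.APPS.Blue1

/-! Block EXP1: explicit potentials of circles and discs. -/

namespace Pool.Agent.Lib.APPS

open MeasureTheory ProbabilityTheory Filter Topology Set Metric
open scoped NNReal ENNReal

noncomputable section

namespace EXP1

lemma meas_cm (c : ℂ) (r : ℝ) : Measurable (circleMap c r) := (continuous_circleMap c r).measurable

lemma lint_circ (c : ℂ) (r : ℝ) {f : ℂ → ℝ≥0∞} (hf : Measurable f) :
    ∫⁻ x, f x ∂circ c r = (ENNReal.ofReal (2 * Real.pi))⁻¹ *
      ∫⁻ θ in Ioc 0 (2 * Real.pi), f (circleMap c r θ) := by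
  rw [circ, lintegral_smul_measure, lintegral_map hf (meas_cm c r), smul_eq_mul]

lemma per {T : ℝ} (hT : 0 < T) {g : ℝ → ℝ≥0∞} (hg : Function.Periodic g T) (a : ℝ) :
    ∫⁻ θ in Ioc a (a + T), g θ = ∫⁻ θ in Ioc 0 T, g θ := by
  have : Fact (0 < T) := ⟨hT⟩
  have h1 := AddCircle.lintegral_preimage T a hg.lift
  have h2 := AddCircle.lintegral_preimage T 0 hg.lift
  rw [zero_add] at h2
  exact h1.trans h2.symm

lemma shift {T : ℝ} (hT : 0 < T) {g : ℝ → ℝ≥0∞} (hg : Function.Periodic g T) (a : ℝ) :
    ∫⁻ θ in Ioc 0 T, g (θ + a) = ∫⁻ θ in Ioc 0 T, g θ := by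
  rw [← per hT hg a, ← lintegral_indicator measurableSet_Ioc,
    ← lintegral_indicator measurableSet_Ioc,
    ← lintegral_add_right_eq_self ((Ioc a (a + T)).indicator g) a]
  refine lintegral_congr fun θ => ?_
  have : θ + a ∈ Ioc a (a + T) ↔ θ ∈ Ioc 0 T := by
    simp only [mem_Ioc]
    constructor <;> rintro ⟨h1, h2⟩ <;> constructor <;> linarith
  by_cases h : θ ∈ Ioc 0 T
  · rw [indicator_of_mem h, indicator_of_mem (this.2 h)]
  · rw [indicator_of_notMem h, indicator_of_notMem (mt this.1 h)]

lemma circ_prob (c : ℂ) (r : ℝ) : IsProbabilityMeasure (circ c r) := ⟨by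
  rw [circ, Measure.smul_apply, Measure.map_apply (meas_cm c r) MeasurableSet.univ, preimage_univ,
    Measure.restrict_apply_univ, Real.volume_Ioc, sub_zero, smul_eq_mul]
  exact ENNReal.inv_mul_cancel (by simpa using Real.pi_pos) ENNReal.ofReal_ne_top⟩

lemma circ_ae (c : ℂ) {r : ℝ} (hr : 0 ≤ r) : ∀ᵐ y ∂circ c r, ‖y - c‖ = r := by
  have hm : MeasurableSet {y : ℂ | ‖y - c‖ = r} :=
    (isClosed_eq (by fun_prop) continuous_const).measurableSet
  refine Measure.ae_smul_measure ((ae_map_iff (meas_cm c r).aemeasurable hm).2 ?_) _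
  exact ae_of_all _ fun θ => mem_sphere_iff_norm.1 (circleMap_mem_sphere c hr θ)

lemma mlog (x : ℂ) : Measurable fun y : ℂ => Real.log ‖x - y‖ := by fun_prop

lemma item1 (x c : ℂ) (r : ℝ) (hr : 0 < r) :
    Integrable (fun y => Real.log ‖x - y‖) (circ c r) ∧
    ∫ y, Real.log ‖x - y‖ ∂circ c r = Real.log (max ‖x - c‖ r) := by
  have hpi : (0 : ℝ) < 2 * Real.pi := by positivity
  constructor
  · refine Integrable.smul_measure ?_ (by simpa using Real.pi_pos)
    rw [integrable_map_measure (mlog x).aestronglyMeasurable (meas_cm c r).aemeasurable]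
    have h := (circleIntegrable_log_norm_sub_const (a := x) (c := c) r).1
    simp only [Function.comp_def, norm_sub_rev x]
    exact h
  · rw [circ, integral_smul_measure,
      integral_map (meas_cm c r).aemeasurable (mlog x).aestronglyMeasurable,
      ← intervalIntegral.integral_of_le hpi.le, ENNReal.toReal_inv, ENNReal.toReal_ofReal hpi.le]
    have h := circleAverage_log_norm_sub_const_eq_log_radius_add_posLog (a := x) (c := c) hr.ne'
    rw [Real.circleAverage_def] at h
    simp only [norm_sub_rev x]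
    rw [h]
    rcases le_total ‖c - x‖ r with h1 | h1
    · rw [max_eq_right h1, (Real.posLog_eq_zero_iff _).2, add_zero]
      rw [abs_of_nonneg (by positivity), inv_mul_le_iff₀ hr, mul_one]; exact h1
    · have h2 : 0 < ‖c - x‖ := hr.trans_le h1
      rw [max_eq_left h1, Real.posLog_eq_log, Real.log_mul (by positivity) h2.ne', Real.log_inv]
      · ring
      · rw [abs_of_nonneg (by positivity), le_inv_mul_iff₀ hr, mul_one]; exact h1

lemma map_vol (a : ℂ) {ρ : ℝ} (hρ : 0 < ρ) :
    (volume : Measure ℂ).map (fun x => a + ρ * x) = (ENNReal.ofReal (ρ ^ 2))⁻¹ • volume := by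
  have e : (fun x : ℂ => a + ρ * x) = (fun x => a + x) ∘ fun x : ℂ => ρ • x := by
    funext x; simp
  rw [e, ← Measure.map_map (by fun_prop) (by fun_prop), Measure.map_addHaar_smul _ hρ.ne',
    Measure.map_smul, map_add_left_eq_self, Complex.finrank_real_complex,
    abs_of_pos (by positivity), ENNReal.ofReal_inv_of_pos (by positivity)]

lemma item2 (c : ℂ) (r : ℝ) (a : ℂ) (ρ : ℝ) (hρ : 0 < ρ) :
    (circ c r).map (fun x => a + ρ * x) = circ (a + ρ * c) (ρ * r) ∧
    (disc c r).map (fun x => a + ρ * x) = disc (a + ρ * c) (ρ * r) := by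
  have hm : Measurable fun x : ℂ => a + ρ * x := by fun_prop
  constructor
  · rw [circ, circ, Measure.map_smul, Measure.map_map hm (meas_cm c r)]
    congr 2
    funext θ
    simp only [Function.comp, circleMap]
    push_cast; ring
  · have e : closedBall c r = (fun x : ℂ => a + ρ * x) ⁻¹' closedBall (a + ρ * c) (ρ * r) := by
      ext x
      simp only [mem_preimage, mem_closedBall_iff_norm]
      rw [show a + ρ * x - (a + ρ * c) = ρ * (x - c) by ring, norm_mul, Complex.norm_real,
        Real.norm_of_nonneg hρ.le, mul_le_mul_iff_right₀ hρ]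
    rw [disc, disc, Measure.map_smul, e, ← Measure.restrict_map hm measurableSet_closedBall,
      map_vol a hρ, Measure.restrict_smul, smul_smul,
      show Real.pi * (ρ * r) ^ 2 = Real.pi * r ^ 2 * ρ ^ 2 by ring,
      ENNReal.ofReal_mul (p := Real.pi * r ^ 2) (by positivity),
      ENNReal.mul_inv (Or.inr ENNReal.ofReal_ne_top)
        (Or.inl ENNReal.ofReal_ne_top)]

lemma item3 (c : ℂ) (r : ℝ) (ζ : ℂ) (hζ : ‖ζ‖ = 1) :
    (circ c r).map (fun x => c + ζ * (x - c)) = circ c r := by
  have hm : Measurable fun x : ℂ => c + ζ * (x - c) := by fun_prop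
  refine Measure.ext_of_lintegral _ fun f hf => ?_
  rw [lintegral_map hf hm, lint_circ c r (f := fun x => f (c + ζ * (x - c))) (hf.comp hm),
    lint_circ c r hf,
    ← shift (by positivity) (g := fun θ => f (circleMap c r θ))
      ((periodic_circleMap c r).comp f) ζ.arg]
  congr 1
  refine lintegral_congr fun θ => ?_
  have e := Complex.norm_mul_exp_arg_mul_I ζ
  rw [hζ, Complex.ofReal_one, one_mul] at e
  simp only [circleMap]
  congr 1
  push_cast
  rw [add_mul, Complex.exp_add, e]; ring

lemma item5 (c : ℂ) (r : ℝ) (f : ℂ → ℝ≥0∞) (hr : 0 < r) (hf : Measurable f) :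
    ∫⁻ x, f x ∂disc c r =
      ∫⁻ s in Ioc 0 r, ENNReal.ofReal (2 * s / r ^ 2) * ∫⁻ x, f x ∂circ c s := by
  have hpi : (0 : ℝ) < 2 * Real.pi := by positivity
  have e0 : ∀ p : ℝ × ℝ, c + Complex.polarCoord.symm p = circleMap c p.1 p.2 := fun p => by
    rw [Complex.polarCoord_symm_apply, circleMap, Complex.exp_mul_I]
    push_cast; rfl
  have hg : Measurable ((closedBall c r).indicator f) := hf.indicator measurableSet_closedBall
  have hc : Measurable fun p : ℝ × ℝ => circleMap c p.1 p.2 := by
    unfold circleMap; fun_prop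
  rw [disc, lintegral_smul_measure, ← lintegral_indicator measurableSet_closedBall,
    ← lintegral_add_left_eq_self _ c, ← Complex.lintegral_comp_polarCoord_symm]
  simp only [e0, smul_eq_mul]
  rw [show polarCoord.target = Ioi (0 : ℝ) ×ˢ Ioo (-Real.pi) Real.pi from rfl,
    Measure.volume_eq_prod, setLIntegral_prod (fun p : ℝ × ℝ =>
      ENNReal.ofReal p.1 * (closedBall c r).indicator f (circleMap c p.1 p.2))
      ((measurable_fst.ennreal_ofReal.mul (hg.comp hc)).aemeasurable),
    ← lintegral_const_mul' _ _ (by simpa using mul_pos Real.pi_pos (pow_pos hr 2)),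
    show Ioc 0 r = Iic r ∩ Ioi 0 by rw [inter_comm]; rfl,
    ← Measure.restrict_restrict measurableSet_Iic, ← lintegral_indicator measurableSet_Iic]
  refine setLIntegral_congr_fun measurableSet_Ioi fun s hs => ?_
  have hs0 : (0 : ℝ) < s := hs
  have hn : ∀ θ, circleMap c s θ ∈ closedBall c r ↔ s ≤ r := fun θ => by
    rw [mem_closedBall_iff_norm, mem_sphere_iff_norm.1 (circleMap_mem_sphere c hs0.le θ)]
  by_cases h : s ≤ r
  · simp only [indicator_of_mem ((hn _).2 h)]
    rw [indicator_of_mem (show s ∈ Iic r from h), lint_circ c s hf,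
      lintegral_const_mul' _ _ ENNReal.ofReal_ne_top, setLIntegral_congr Ioo_ae_eq_Ioc,
      ← per hpi (g := fun θ => f (circleMap c s θ)) ((periodic_circleMap c s).comp f) (-Real.pi),
      show -Real.pi + 2 * Real.pi = Real.pi by ring, ← mul_assoc, ← mul_assoc]
    congr 1
    rw [← ENNReal.ofReal_inv_of_pos hpi, ← ENNReal.ofReal_inv_of_pos (by positivity),
      ← ENNReal.ofReal_mul (by positivity), ← ENNReal.ofReal_mul (by positivity)]
    congr 1
    field_simp
  · simp only [indicator_of_notMem (mt (hn _).1 h)]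
    rw [indicator_of_notMem (show s ∉ Iic r from h)]
    simp

lemma disc_prob (c : ℂ) {r : ℝ} (hr : 0 < r) : IsProbabilityMeasure (disc c r) := ⟨by
  rw [disc, Measure.smul_apply, Measure.restrict_apply_univ, Complex.volume_closedBall,
    smul_eq_mul, ← ENNReal.ofReal_pow hr.le, ← ENNReal.ofReal_coe_nnreal, NNReal.coe_real_pi,
    ← ENNReal.ofReal_mul (by positivity), mul_comm (r ^ 2)]
  exact ENNReal.inv_mul_cancel (by simpa using mul_pos Real.pi_pos (pow_pos hr 2))
    ENNReal.ofReal_ne_top⟩

lemma int_low {d a : ℝ} (ha : 0 ≤ a) (h : a ≤ d) :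
    IntervalIntegrable (fun s => 2 * s * Real.log (max d s)) volume 0 a ∧
      ∫ s in (0 : ℝ)..a, 2 * s * Real.log (max d s) = a ^ 2 * Real.log d := by
  have e : EqOn (fun s => 2 * s * Real.log d) (fun s => 2 * s * Real.log (max d s)) (uIcc 0 a) := by
    intro s hs
    rw [uIcc_of_le ha] at hs
    simp only [max_eq_left (hs.2.trans h)]
  have hc : Continuous fun s : ℝ => 2 * s * Real.log d := by fun_prop
  refine ⟨((hc.continuousOn (s := uIcc 0 a)).congr e.symm).intervalIntegrable, ?_⟩
  rw [← intervalIntegral.integral_congr e, intervalIntegral.integral_mul_const,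
    intervalIntegral.integral_const_mul, integral_id]
  ring

lemma int_high {d r : ℝ} (hd : 0 ≤ d) (h : d ≤ r) :
    IntervalIntegrable (fun s => 2 * s * Real.log (max d s)) volume d r ∧
      ∫ s in d..r, 2 * s * Real.log (max d s) =
        (r * (r * Real.log r) - r ^ 2 / 2) - (d * (d * Real.log d) - d ^ 2 / 2) := by
  have e : EqOn (fun s => 2 * (s * Real.log s)) (fun s => 2 * s * Real.log (max d s))
      (uIcc d r) := by
    intro s hs
    rw [uIcc_of_le h] at hs
    simp only [max_eq_right hs.1, mul_assoc]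
  have hc : Continuous fun s : ℝ => 2 * (s * Real.log s) :=
    continuous_const.mul Real.continuous_mul_log
  refine ⟨((hc.continuousOn (s := uIcc d r)).congr e.symm).intervalIntegrable, ?_⟩
  rw [← intervalIntegral.integral_congr e]
  refine intervalIntegral.integral_eq_sub_of_hasDerivAt_of_le
    (f := fun s => s * (s * Real.log s) - s ^ 2 / 2) h
    ((continuous_id.mul Real.continuous_mul_log).sub (by fun_prop)).continuousOn
    (fun s hs => ?_) (hc.intervalIntegrable _ _)
  have hs0 : s ≠ 0 := (hd.trans_lt hs.1).ne'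
  have h1 := ((hasDerivAt_id s).mul (Real.hasDerivAt_mul_log hs0)).sub
    ((hasDerivAt_pow 2 s).div_const 2)
  refine h1.congr_deriv ?_
  simp only [id]
  norm_num
  ring

lemma int_all {d r : ℝ} (hd : 0 ≤ d) (hr : 0 < r) :
    IntervalIntegrable (fun s => 2 * s * Real.log (max d s)) volume 0 r ∧
      ∫ s in (0 : ℝ)..r, 2 * s * Real.log (max d s) = r ^ 2 *
        -(if r ≤ d then -Real.log d else -Real.log r + (1 - d ^ 2 / r ^ 2) / 2) := by
  split_ifs with h
  · rw [neg_neg]; exact int_low hr.le h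
  · obtain ⟨a1, a2⟩ := int_low hd le_rfl
    obtain ⟨b1, b2⟩ := int_high hd (not_le.1 h).le
    refine ⟨a1.trans b1, ?_⟩
    rw [← intervalIntegral.integral_add_adjacent_intervals a1 b1, a2, b2]
    field_simp
    ring

lemma item4 (x c : ℂ) (r : ℝ) (hr : 0 < r) :
    Integrable (fun y => Real.log ‖x - y‖) (disc c r) ∧
    ∫ y, -Real.log ‖x - y‖ ∂disc c r = if r ≤ ‖x - c‖ then -Real.log ‖x - c‖
      else -Real.log r + (1 - ‖x - c‖ ^ 2 / r ^ 2) / 2 := by
  have hp := disc_prob c hr
  obtain ⟨i1, i2⟩ := int_all (norm_nonneg (x - c)) hr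
  generalize (if r ≤ ‖x - c‖ then -Real.log ‖x - c‖
      else -Real.log r + (1 - ‖x - c‖ ^ 2 / r ^ 2) / 2) = V at i2 ⊢
  set K : ℝ := ‖x - c‖ + r with hK
  have hb : ∀ y, ‖y - c‖ ≤ r → 0 ≤ K - Real.log ‖x - y‖ := fun y hy => by
    have h1 := Real.log_le_self (norm_nonneg (x - y))
    have h2 := norm_sub_le_norm_sub_add_norm_sub x c y
    rw [norm_sub_rev c y] at h2
    linarith
  have hm : Measurable fun y : ℂ => K - Real.log ‖x - y‖ := measurable_const.sub (mlog x)
  have hae : 0 ≤ᵐ[disc c r] fun y => K - Real.log ‖x - y‖ :=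
    Measure.ae_smul_measure ((ae_restrict_mem measurableSet_closedBall).mono fun y hy =>
      hb y (mem_closedBall_iff_norm.1 hy)) _
  have hc : Continuous fun s : ℝ => 2 * s * K := by fun_prop
  have j1 : IntervalIntegrable
      (fun s => (2 * s * K - 2 * s * Real.log (max ‖x - c‖ s)) / r ^ 2) volume 0 r :=
    ((hc.intervalIntegrable 0 r).sub i1).div_const _
  have j2 : ∫ s in (0 : ℝ)..r, (2 * s * K - 2 * s * Real.log (max ‖x - c‖ s)) / r ^ 2 =
      K + V := by
    rw [intervalIntegral.integral_div, intervalIntegral.integral_sub (hc.intervalIntegrable 0 r) i1,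
      i2, intervalIntegral.integral_mul_const, intervalIntegral.integral_const_mul, integral_id]
    field_simp
    ring
  have hpos : ∀ s ∈ Ioc 0 r, 0 ≤ K - Real.log (max ‖x - c‖ s) := fun s hs => by
    have h1 := Real.log_le_self (le_max_of_le_left (norm_nonneg (x - c)) : 0 ≤ max ‖x - c‖ s)
    have h2 : max ‖x - c‖ s ≤ K :=
      max_le (by linarith) (by linarith [hs.2, norm_nonneg (x - c)])
    linarith
  have hpos' : 0 ≤ᵐ[volume.restrict (Ioc 0 r)]
      fun s => (2 * s * K - 2 * s * Real.log (max ‖x - c‖ s)) / r ^ 2 :=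
    (ae_restrict_mem measurableSet_Ioc).mono fun s hs => by
      have h1 := mul_nonneg hs.1.le (hpos s hs)
      exact div_nonneg (by linarith) (by positivity)
  have key : ∫⁻ y, ENNReal.ofReal (K - Real.log ‖x - y‖) ∂disc c r = ENNReal.ofReal (K + V) := by
    rw [item5 c r _ hr hm.ennreal_ofReal, ← j2, intervalIntegral.integral_of_le hr.le,
      ofReal_integral_eq_lintegral_ofReal j1.1 hpos']
    refine setLIntegral_congr_fun measurableSet_Ioc fun s hs => ?_
    have := circ_prob c s
    obtain ⟨k1, k2⟩ := item1 x c s hs.1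
    rw [← ofReal_integral_eq_lintegral_ofReal (f := fun y => K - Real.log ‖x - y‖)
      ((integrable_const K).sub k1)
      ((circ_ae c hs.1.le).mono fun y hy => hb y (hy.le.trans hs.2)), integral_sub (integrable_const K) k1, k2, integral_const, probReal_univ, one_smul,
      ← ENNReal.ofReal_mul (by have := hs.1; positivity)]
    congr 1
    ring
  have hi : Integrable (fun y => K - Real.log ‖x - y‖) (disc c r) :=
    (lintegral_ofReal_ne_top_iff_integrable hm.aestronglyMeasurable hae).1
      (by rw [key]; exact ENNReal.ofReal_ne_top)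
  have hi' : Integrable (fun y => Real.log ‖x - y‖) (disc c r) := by
    refine ((integrable_const K).sub hi).congr (ae_of_all _ fun y => ?_)
    simp
  refine ⟨hi', ?_⟩
  have h0 : 0 ≤ K + V := by
    rw [← j2, intervalIntegral.integral_of_le hr.le]; exact integral_nonneg_of_ae hpos'
  have h1 := integral_eq_lintegral_of_nonneg_ae hae hm.aestronglyMeasurable
  rw [key, ENNReal.toReal_ofReal h0, integral_sub (integrable_const K) hi', integral_const,
    probReal_univ, one_smul] at h1
  rw [integral_neg]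
  linarith

end EXP1

theorem blk_EXP1 : St_EXP1 := ⟨EXP1.item1, EXP1.item2, EXP1.item3, EXP1.item4, EXP1.item5⟩

end

end Pool.Agent.Lib.APPS
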