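import Pool.Agent.Lib.APPS.Blue1

/-!
Block EXP2: scaling and size of logarithmic potentials of dyadic squares.
-/

namespace Pool.Agent.Lib.APPS

open MeasureTheory ProbabilityTheory Filter Topology Set Metric
open scoped NNReal ENNReal

noncomputable section

namespace EXP2

theorem log_side (A : Dy) : Real.log (side A) = -(A.length * l2) := by
  unfold side l2
  rw [Real.log_pow, one_div, Real.log_inv]
  ring

theorem meas_zS (A : Dy) : Measurable (zS A) := by
  unfold zS
  fun_prop

theorem map_vol (a : ℂ) (ρ : ℝ) (hρ : 0 < ρ) :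
    (volume : Measure ℂ).map (fun z : ℂ => a + (ρ : ℂ) * z) =
      ENNReal.ofReal (1 / ρ ^ 2) • (volume : Measure ℂ) := by
  have h1 : (fun z : ℂ => a + (ρ : ℂ) * z) = (fun z : ℂ => a + z) ∘ fun z : ℂ => ρ • z := by
    funext z
    simp [Complex.real_smul]
  rw [h1, ← Measure.map_map (by fun_prop) (by fun_prop), Measure.map_addHaar_smul _ hρ.ne',
    Measure.map_smul, map_add_left_eq_self]
  congr 2
  rw [Complex.finrank_real_complex, abs_of_pos (by positivity), one_div]

theorem unif_map (hG : St_GEO1) (S A : Dy) : unif (S ++ A) = (unif S).map (zS A) := by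
  obtain ⟨h1, h2, h3, -⟩ := hG
  have hA := (h1 A).1
  have hS := (h1 S).1
  have hinj : Function.Injective (zS A) := by
    intro z w h
    unfold zS at h
    have h' : (side A : ℂ) ≠ 0 := by exact_mod_cast hA.ne'
    exact mul_left_cancel₀ h' (add_left_cancel h)
  have hme : MeasurableEmbedding (zS A) := (meas_zS A).measurableEmbedding hinj
  have hv : (volume : Measure ℂ).map (zS A) = ENNReal.ofReal (1 / side A ^ 2) • volume :=
    map_vol (corner A) (side A) hA
  have hb : box S = zS A ⁻¹' box (S ++ A) := by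
    rw [(h3 S A).2.2, Set.preimage_image_eq _ hinj]
  unfold unif
  rw [Measure.map_smul, hb, ← hme.restrict_map, hv, Measure.restrict_smul, smul_smul,
    ← ENNReal.ofReal_mul (by positivity), h2]
  congr 2
  field_simp

theorem ae_box (hF : St_FE) (S : Dy) : ∀ᵐ y ∂unif S, y ∈ box S := by
  obtain ⟨-, -, -, -, -, -, -, h, -⟩ := hF
  exact (h S).2

theorem ae_ne {μ : Measure ℂ} (h : FE μ) (z : ℂ) : ∀ᵐ y ∂μ, y ≠ z := by
  rw [ae_iff]
  simpa using h.noAtoms z

theorem restr_le (hG : St_GEO1) (S : Dy) (z : ℂ) :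
    (unif S).restrict (closedBall z (side S)) ≤ ENNReal.ofReal Real.pi • disc z (side S) := by
  have hS := (hG.1 S).1
  unfold unif disc
  rw [smul_smul, Measure.restrict_smul]
  have h : ENNReal.ofReal Real.pi * (ENNReal.ofReal (Real.pi * side S ^ 2))⁻¹ =
      ENNReal.ofReal (1 / side S ^ 2) := by
    rw [← ENNReal.ofReal_inv_of_pos (by positivity), ← ENNReal.ofReal_mul Real.pi_pos.le]
    congr 1
    have := Real.pi_pos
    field_simp
  rw [h]
  refine Measure.le_iff.2 fun t ht => ?_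
  simp only [Measure.smul_apply, smul_eq_mul]
  gcongr
  exact Measure.restrict_le_self

theorem loc_bd (hG : St_GEO1) (S : Dy) (z : ℂ) (g : ℂ → ℝ) (h0 : ∀ y, 0 ≤ g y)
    (hz : ∀ y, y ∉ closedBall z (side S) → g y = 0) (hi : Integrable g (disc z (side S))) :
    Integrable g (unif S) ∧ ∫ y, g y ∂unif S ≤ Real.pi * ∫ y, g y ∂disc z (side S) := by
  have hi' : Integrable g (ENNReal.ofReal Real.pi • disc z (side S)) :=
    hi.smul_measure ENNReal.ofReal_ne_top
  have hon : IntegrableOn g (closedBall z (side S)) (unif S) := hi'.mono_measure (restr_le hG S z)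
  refine ⟨hon.integrable_of_forall_notMem_eq_zero hz, ?_⟩
  rw [← setIntegral_eq_integral_of_forall_compl_eq_zero hz]
  refine (integral_mono_measure (restr_le hG S z) (Eventually.of_forall h0) hi').trans ?_
  rw [integral_smul_measure, ENNReal.toReal_ofReal Real.pi_pos.le, smul_eq_mul]

theorem g1_bd (hE : St_EXP1) (hG : St_GEO1) (hF : St_FE) (S : Dy) (z : ℂ) :
    Integrable (fun y => Real.posLog (side S / ‖y - z‖)) (unif S) ∧
      ∫ y, Real.posLog (side S / ‖y - z‖) ∂unif S ≤ 2 := by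
  have hS := (hG.1 S).1
  obtain ⟨-, -, -, h4, -⟩ := hE
  obtain ⟨hi, hv⟩ := h4 z z (side S) hS
  obtain ⟨-, -, -, -, -, -, -, -, hd, -⟩ := hF
  obtain ⟨-, -, ⟨hfe, hp⟩, hsupp⟩ := hd z (side S) hS
  have hae : (fun y => Real.posLog (side S / ‖y - z‖)) =ᵐ[disc z (side S)]
      fun y => Real.log (side S) + -Real.log ‖z - y‖ := by
    have hb : ∀ᵐ y ∂disc z (side S), y ∈ closedBall z (side S) := hsupp
    filter_upwards [hb, ae_ne hfe z] with y hy hne
    have hpos : 0 < ‖y - z‖ := norm_pos_iff.2 (sub_ne_zero.2 hne)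
    rw [mem_closedBall, dist_eq_norm] at hy
    have h1 : 1 ≤ side S / ‖y - z‖ := by rwa [le_div_iff₀ hpos, one_mul]
    rw [Real.posLog_eq_log (by rw [abs_of_nonneg (by positivity)]; exact h1),
      Real.log_div hS.ne' hpos.ne', norm_sub_rev z y]
    ring
  have hint : Integrable (fun y => Real.posLog (side S / ‖y - z‖)) (disc z (side S)) :=
    ((integrable_const _).add hi.neg).congr hae.symm
  have := loc_bd hG S z (fun y => Real.posLog (side S / ‖y - z‖)) (fun y => Real.posLog_nonneg)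
    (fun y hy => by
      rw [mem_closedBall, dist_eq_norm, not_le] at hy
      have hpos : 0 < ‖y - z‖ := hS.trans hy
      rw [Real.posLog_eq_zero_iff, abs_of_nonneg (by positivity), div_le_one hpos]
      exact hy.le) hint
  refine ⟨this.1, this.2.trans ?_⟩
  rw [integral_congr_ae hae, integral_add (integrable_const _) hi.fun_neg, hv]
  have h0 : ¬side S ≤ ‖z - z‖ := by simpa using hS
  rw [if_neg h0]
  simp only [integral_const, probReal_univ, smul_eq_mul, sub_self, norm_zero]
  have := Real.pi_le_four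
  have e : (0 : ℝ) ^ 2 / side S ^ 2 = 0 := by simp
  rw [e]
  nlinarith

theorem g2_bd (hE : St_EXP1) (hG : St_GEO1) (hF : St_FE) (S : Dy) (z : ℂ) :
    Integrable (fun y => ‖z - y‖⁻¹) (unif S) ∧ ∫ y, ‖z - y‖⁻¹ ∂unif S ≤ 9 / side S := by
  have hS := (hG.1 S).1
  obtain ⟨-, -, -, -, h5⟩ := hE
  obtain ⟨-, -, -, -, -, -, -, hu, hd, -⟩ := hF
  obtain ⟨-, -, ⟨hfe, hp⟩, hsupp⟩ := hd z (side S) hS
  have := (hu S).1.2
  have hm : Measurable fun y : ℂ => ‖z - y‖⁻¹ := by fun_prop
  have hl : ∫⁻ y, ENNReal.ofReal ‖z - y‖⁻¹ ∂disc z (side S) = ENNReal.ofReal (2 / side S) := by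
    rw [h5 z (side S) _ hS hm.ennreal_ofReal]
    have : ∀ t ∈ Ioc 0 (side S), ENNReal.ofReal (2 * t / side S ^ 2) *
        ∫⁻ x, ENNReal.ofReal ‖z - x‖⁻¹ ∂circ z t = ENNReal.ofReal (2 / side S ^ 2) := by
      intro t ht
      obtain ⟨⟨-, hp'⟩, hs', -⟩ := hd z t ht.1
      have hb : ∀ᵐ y ∂circ z t, y ∈ sphere z t := hs'
      have hae : (fun x => ENNReal.ofReal ‖z - x‖⁻¹) =ᵐ[circ z t] fun _ => ENNReal.ofReal t⁻¹ := by
        filter_upwards [hb] with y hy
        rw [mem_sphere, dist_eq_norm] at hy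
        rw [norm_sub_rev, hy]
      have ht0 := ht.1
      rw [lintegral_congr_ae hae, lintegral_const, measure_univ, mul_one,
        ← ENNReal.ofReal_mul (by positivity)]
      congr 1
      field_simp
    rw [setLIntegral_congr_fun measurableSet_Ioc this, setLIntegral_const, Real.volume_Ioc,
      ← ENNReal.ofReal_mul (by positivity)]
    congr 1
    field_simp
    simp
  have hi : Integrable (fun y => ‖z - y‖⁻¹) (disc z (side S)) := by
    refine ⟨hm.aestronglyMeasurable, ?_⟩
    rw [hasFiniteIntegral_iff_ofReal (Eventually.of_forall fun y => by positivity), hl]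
    exact ENNReal.ofReal_lt_top
  have hv : ∫ y, ‖z - y‖⁻¹ ∂disc z (side S) = 2 / side S := by
    rw [integral_eq_lintegral_of_nonneg_ae (Eventually.of_forall fun y => by positivity)
      hm.aestronglyMeasurable, hl, ENNReal.toReal_ofReal (by positivity)]
  have hi2 : Integrable ((closedBall z (side S)).indicator fun y => ‖z - y‖⁻¹) (disc z (side S)) :=
    hi.indicator measurableSet_closedBall
  have hv2 : ∫ y, (closedBall z (side S)).indicator (fun y => ‖z - y‖⁻¹) y ∂disc z (side S) ≤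
      2 / side S := by
    rw [← hv]
    exact integral_mono hi2 hi fun y => indicator_le_self' (fun _ _ => by positivity) y
  obtain ⟨h1, h2⟩ := loc_bd hG S z ((closedBall z (side S)).indicator fun y => ‖z - y‖⁻¹)
    (fun y => indicator_nonneg (fun _ _ => by positivity) y)
    (fun y hy => indicator_of_notMem hy _) hi2
  have hle : ∀ y, ‖z - y‖⁻¹ ≤
      (side S)⁻¹ + (closedBall z (side S)).indicator (fun y => ‖z - y‖⁻¹) y := by
    intro y
    by_cases hy : y ∈ closedBall z (side S)
    · rw [indicator_of_mem hy]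
      have : 0 ≤ (side S)⁻¹ := by positivity
      linarith
    · rw [indicator_of_notMem hy, add_zero]
      rw [mem_closedBall, dist_eq_norm, not_le, norm_sub_rev] at hy
      exact inv_anti₀ hS hy.le
  have hsum := (integrable_const (side S)⁻¹).add h1
  have hI : Integrable (fun y => ‖z - y‖⁻¹) (unif S) :=
    hsum.mono' hm.aestronglyMeasurable (Eventually.of_forall fun y => by
      rw [Real.norm_of_nonneg (by positivity)]; exact hle y)
  refine ⟨hI, (integral_mono hI hsum hle).trans ?_⟩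
  simp only [Pi.add_apply]
  rw [integral_add (integrable_const _) h1]
  simp only [integral_const, probReal_univ, smul_eq_mul, one_mul]
  have hpi := Real.pi_le_four
  have h3 : Real.pi * ∫ y, (closedBall z (side S)).indicator (fun y => ‖z - y‖⁻¹) y
      ∂disc z (side S) ≤ 4 * (2 / side S) :=
    (mul_le_mul_of_nonneg_left hv2 Real.pi_pos.le).trans
      (mul_le_mul_of_nonneg_right hpi (by positivity))
  have h4 : 9 / side S = (side S)⁻¹ + 4 * (2 / side S) := by field_simp; norm_num
  linarith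

theorem log_four : Real.log 4 ≤ 3 := by
  have := Real.log_le_sub_one_of_pos (show (0 : ℝ) < 4 by norm_num)
  linarith

theorem pl_bd {s : ℝ} (hs : 0 < s) {c y : ℂ} (z : ℂ) (hy : ‖y - c‖ ≤ 3 / 4 * s) :
    Real.posLog (max ‖z - c‖ s / ‖y - z‖) ≤ 3 + Real.posLog (s / ‖y - z‖) := by
  have h0 : 0 ≤ Real.posLog (s / ‖y - z‖) := Real.posLog_nonneg
  rcases le_total ‖z - c‖ s with h | h
  · rw [max_eq_right h]; linarith
  · rw [max_eq_left h]
    have h1 : ‖z - c‖ ≤ ‖y - z‖ + ‖y - c‖ := by
      have := norm_sub_le (y - c) (y - z)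
      have e : y - c - (y - z) = z - c := by ring
      rw [e] at this
      linarith
    have h2 : 0 < ‖y - z‖ := by linarith
    have h3 : ‖z - c‖ / ‖y - z‖ ≤ 4 := by rw [div_le_iff₀ h2]; linarith
    have h4 := Real.posLog_le_posLog (by positivity) h3
    rw [Real.posLog_eq_log (x := 4) (by norm_num)] at h4
    have := log_four
    linarith

theorem lg_bd {s : ℝ} (hs : 0 < s) {c y z : ℂ} (hy : ‖y - c‖ ≤ 3 / 4 * s) (hne : y ≠ z) :
    |-Real.log ‖z - y‖ + Real.log (max ‖z - c‖ s)| ≤ 3 + Real.posLog (s / ‖y - z‖) := by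
  have h0 : 0 ≤ Real.posLog (s / ‖y - z‖) := Real.posLog_nonneg
  have hpos : 0 < ‖y - z‖ := norm_pos_iff.2 (sub_ne_zero.2 hne)
  have hm : 0 < max ‖z - c‖ s := lt_max_of_lt_right hs
  rw [norm_sub_rev z y, abs_le]
  constructor
  · have h1 : ‖y - z‖ ≤ 4 * max ‖z - c‖ s := by
      have := norm_sub_le (y - c) (z - c)
      have e : y - c - (z - c) = y - z := by ring
      rw [e] at this
      have h2 := le_max_left ‖z - c‖ s
      have h3 := le_max_right ‖z - c‖ s
      linarith
    have h2 := Real.log_le_log hpos h1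
    rw [Real.log_mul (by norm_num) hm.ne'] at h2
    have := log_four
    linarith
  · have h1 := pl_bd hs z hy
    have h2 : Real.log (max ‖z - c‖ s / ‖y - z‖) ≤ Real.posLog (max ‖z - c‖ s / ‖y - z‖) :=
      le_max_right _ _
    rw [Real.log_div hm.ne' hpos.ne'] at h2
    linarith

theorem ae_lg (hG : St_GEO1) (hF : St_FE) (S : Dy) (z : ℂ) : ∀ᵐ y ∂unif S, y ≠ z ∧
    |-Real.log ‖z - y‖ + Real.log (max ‖z - ctr S‖ (side S))| ≤
      3 + Real.posLog (side S / ‖y - z‖) := by
  have hb := ae_box hF S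
  obtain ⟨-, -, -, -, -, -, -, hu, -⟩ := hF
  filter_upwards [hb, ae_ne (hu S).1.1 z] with y hy hne
  exact ⟨hne, lg_bd (hG.1 S).1 ((hG.2.2.2.1 S).2.2.2.1 y hy) hne⟩

/-- a function dominated by `3 + posLog` has a bounded integral -/
theorem dom (hE : St_EXP1) (hG : St_GEO1) (hF : St_FE) (S : Dy) (z : ℂ) (f : ℂ → ℝ)
    (hf : Measurable f) (h : ∀ᵐ y ∂unif S, |f y| ≤ 3 + Real.posLog (side S / ‖y - z‖)) :
    Integrable f (unif S) ∧ |∫ y, f y ∂unif S| ≤ 5 := by
  obtain ⟨h1, h2⟩ := g1_bd hE hG hF S z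
  obtain ⟨-, -, -, -, -, -, -, hu, -⟩ := hF
  have := (hu S).1.2
  have hsum := (integrable_const (3 : ℝ)).add h1
  refine ⟨hsum.mono' hf.aestronglyMeasurable h, ?_⟩
  have := norm_integral_le_of_norm_le (f := f) hsum h
  simp only [Pi.add_apply] at this
  rw [integral_add (integrable_const _) h1] at this
  simp only [integral_const, probReal_univ, smul_eq_mul, one_mul, Real.norm_eq_abs] at this
  linarith

theorem int_log (hE : St_EXP1) (hG : St_GEO1) (hF : St_FE) (S : Dy) (z : ℂ) :
    Integrable (fun y => Real.log ‖z - y‖) (unif S) := by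
  have h := (dom hE hG hF S z (fun y => -Real.log ‖z - y‖ + Real.log (max ‖z - ctr S‖ (side S)))
    (by fun_prop) ((ae_lg hG hF S z).mono fun y hy => hy.2)).1
  obtain ⟨-, -, -, -, -, -, -, hu, -⟩ := hF
  have := (hu S).1.2
  refine ((integrable_const (Real.log (max ‖z - ctr S‖ (side S)))).sub h).congr
    (Eventually.of_forall fun y => ?_)
  simp

theorem pot_bd (hE : St_EXP1) (hG : St_GEO1) (hF : St_FE) (S : Dy) (z : ℂ) :
    |potS S z + Real.log (max ‖z - ctr S‖ (side S))| ≤ 5 := by
  have h := (dom hE hG hF S z (fun y => -Real.log ‖z - y‖ + Real.log (max ‖z - ctr S‖ (side S)))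
    (by fun_prop) ((ae_lg hG hF S z).mono fun y hy => hy.2)).2
  have hi := int_log hE hG hF S z
  obtain ⟨-, -, -, -, -, -, -, hu, -⟩ := hF
  have := (hu S).1.2
  rw [integral_add hi.fun_neg (integrable_const _)] at h
  simpa [potS] using h

theorem log_sub_le {a b : ℝ} (ha : 0 < a) (hb : 0 < b) :
    |Real.log a - Real.log b| ≤ |a - b| * (a⁻¹ + b⁻¹) := by
  have h1 := Real.log_le_sub_one_of_pos (div_pos ha hb)
  have h2 := Real.log_le_sub_one_of_pos (div_pos hb ha)
  rw [Real.log_div ha.ne' hb.ne'] at h1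
  rw [Real.log_div hb.ne' ha.ne'] at h2
  have e1 : a / b - 1 = (a - b) * b⁻¹ := by field_simp
  have e2 : b / a - 1 = -(a - b) * a⁻¹ := by field_simp; ring
  have ha' : 0 < a⁻¹ := by positivity
  have hb' : 0 < b⁻¹ := by positivity
  have l1 := le_abs_self (a - b)
  have l2 := neg_le_abs (a - b)
  have l0 := abs_nonneg (a - b)
  rw [abs_le]
  constructor <;> nlinarith

theorem pot_lip (hE : St_EXP1) (hG : St_GEO1) (hF : St_FE) (S : Dy) (z z' : ℂ) :
    |potS S z - potS S z'| ≤ 18 / side S * ‖z - z'‖ := by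
  obtain ⟨h1, h2⟩ := g2_bd hE hG hF S z
  obtain ⟨h1', h2'⟩ := g2_bd hE hG hF S z'
  have hi := int_log hE hG hF S z
  have hi' := int_log hE hG hF S z'
  obtain ⟨-, -, -, -, -, -, -, hu, -⟩ := hF
  unfold potS
  rw [← integral_sub hi.fun_neg hi'.fun_neg]
  have hsum := (h1.add h1').const_mul ‖z - z'‖
  have := norm_integral_le_of_norm_le
    (f := fun y => -Real.log ‖z - y‖ - -Real.log ‖z' - y‖) hsum (by
    filter_upwards [ae_ne (hu S).1.1 z, ae_ne (hu S).1.1 z'] with y hy hy'
    have p1 : 0 < ‖z - y‖ := norm_pos_iff.2 (sub_ne_zero.2 hy.symm)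
    have p2 : 0 < ‖z' - y‖ := norm_pos_iff.2 (sub_ne_zero.2 hy'.symm)
    have h3 := log_sub_le p1 p2
    have h4 : |‖z - y‖ - ‖z' - y‖| ≤ ‖z - z'‖ := by
      have := abs_norm_sub_norm_le (z - y) (z' - y)
      rwa [sub_sub_sub_cancel_right] at this
    have e : -Real.log ‖z - y‖ - -Real.log ‖z' - y‖ = -(Real.log ‖z - y‖ - Real.log ‖z' - y‖) := by
      ring
    rw [Real.norm_eq_abs, e, abs_neg]
    exact h3.trans (mul_le_mul_of_nonneg_right h4 (by positivity)))
  rw [integral_const_mul] at this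
  simp only [Pi.add_apply] at this
  rw [integral_add h1 h1', Real.norm_eq_abs] at this
  refine this.trans ?_
  rw [mul_comm]
  refine mul_le_mul_of_nonneg_right ?_ (norm_nonneg _)
  have : 18 / side S = 9 / side S + 9 / side S := by ring
  linarith

theorem ins_bd (hE : St_EXP1) (hG : St_GEO1) (hF : St_FE) (r : ℝ) (z : ℂ) (A : Dy) :
    Integrable (fun y => Real.posLog (r / ‖y - z‖)) (unif A) ∧
      ∫ y, Real.posLog (r / ‖y - z‖) ∂unif A ≤ ins r z A + 5 := by
  obtain ⟨h1, h2⟩ := g1_bd hE hG hF A z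
  have hb := ae_box hF A
  obtain ⟨-, -, -, -, -, -, -, hu, -⟩ := hF
  have := (hu A).1.2
  have hA := (hG.1 A).1
  have hm : 0 < max ‖z - ctr A‖ (side A) := lt_max_of_lt_right hA
  have hsum := (integrable_const (ins r z A + 3)).add h1
  have hle : ∀ᵐ y ∂unif A, Real.posLog (r / ‖y - z‖) ≤
      ins r z A + 3 + Real.posLog (side A / ‖y - z‖) := by
    filter_upwards [hb] with y hy
    have h3 := pl_bd hA z ((hG.2.2.2.1 A).2.2.2.1 y hy)
    have e : r / ‖y - z‖ = r / max ‖z - ctr A‖ (side A) * (max ‖z - ctr A‖ (side A) / ‖y - z‖) := by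
      rw [div_mul_div_comm, mul_comm r, mul_div_mul_left _ _ hm.ne']
    have h4 : Real.posLog (r / ‖y - z‖) ≤
        ins r z A + Real.posLog (max ‖z - ctr A‖ (side A) / ‖y - z‖) := by
      rw [e]; exact Real.posLog_mul
    linarith
  have hme : Measurable fun y : ℂ => Real.posLog (r / ‖y - z‖) := by
    unfold Real.posLog
    fun_prop
  have hI : Integrable (fun y => Real.posLog (r / ‖y - z‖)) (unif A) :=
    hsum.mono' hme.aestronglyMeasurable (hle.mono fun y hy => by
      rw [Real.norm_of_nonneg Real.posLog_nonneg]; exact hy)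
  refine ⟨hI, (integral_mono_ae hI hsum hle).trans ?_⟩
  simp only [Pi.add_apply]
  rw [integral_add (integrable_const _) h1]
  simp only [integral_const, probReal_univ, smul_eq_mul, one_mul]
  linarith

theorem log_max {a r : ℝ} (ha : 0 < a) (hr : 0 < r) :
    Real.log (max a r) = max (Real.log a) (Real.log r) := by
  rcases le_total a r with h | h
  · rw [max_eq_right h, max_eq_right (Real.log_le_log ha h)]
  · rw [max_eq_left h, max_eq_left (Real.log_le_log hr h)]

theorem max_bd (hE : St_EXP1) (hG : St_GEO1) (hF : St_FE) (c : ℂ) (r : ℝ) (A : Dy) (hr : 0 < r) :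
    Integrable (fun y => Real.log (max ‖y - c‖ r)) (unif A) ∧
    |∫ y, Real.log (max ‖y - c‖ r) ∂unif A -
      Real.log (max (max ‖c - ctr A‖ (side A)) r)| ≤ 5 := by
  have hA := (hG.1 A).1
  have hm : 0 < max ‖c - ctr A‖ (side A) := lt_max_of_lt_right hA
  obtain ⟨h1, h2⟩ := dom hE hG hF A c
    (fun y => Real.log (max ‖y - c‖ r) - Real.log (max (max ‖c - ctr A‖ (side A)) r))
    (by fun_prop) ((ae_lg hG hF A c).mono fun y hy => by
      have hpos : 0 < ‖y - c‖ := norm_pos_iff.2 (sub_ne_zero.2 hy.1)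
      rw [log_max hpos hr, log_max hm hr]
      refine (abs_max_sub_max_le_abs _ _ _).trans (le_of_eq_of_le ?_ hy.2)
      rw [← abs_neg, norm_sub_rev c y]
      congr 1
      ring)
  obtain ⟨-, -, -, -, -, -, -, hu, -⟩ := hF
  have := (hu A).1.2
  have hI : Integrable (fun y => Real.log (max ‖y - c‖ r)) (unif A) := by
    refine (h1.add (integrable_const (Real.log (max (max ‖c - ctr A‖ (side A)) r)))).congr
      (Eventually.of_forall fun y => ?_)
    simp
  refine ⟨hI, ?_⟩
  rw [integral_sub hI (integrable_const _)] at h2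
  simpa using h2

theorem kS_eq (hF : St_FE) (S S' : Dy) :
    kS S S' = ∫ z, potS S z ∂unif S' ∧ kS S S' = kS S' S := by
  obtain ⟨-, -, -, -, h5, -, -, hu, -⟩ := hF
  have h1 := (h5 _ _ (hu S).1.1 (hu S').1.1).1
  have h2 := (h5 _ _ (hu S').1.1 (hu S).1.1).2
  exact ⟨h1.trans h2, h1⟩

theorem kS_bd (hE : St_EXP1) (hG : St_GEO1) (hF : St_FE) (S S' : Dy) :
    |kS S S' + Real.log (max ‖ctr S - ctr S'‖ (max (side S) (side S')))| ≤ 10 := by
  obtain ⟨h1, h2⟩ := max_bd hE hG hF (ctr S) (side S) S' (hG.1 S).1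
  have hp := pot_bd hE hG hF S
  rw [(kS_eq hF S S').1]
  obtain ⟨hf1, -, -, -, -, -, -, hu, -⟩ := hF
  have := (hu S).1.2
  have := (hu S').1.2
  have hi : Integrable (potS S) (unif S') := by
    have := (hf1 _ _ (hu S').1.1 (hu S).1.1).neg.integral_prod_left
    exact this
  have h3 := norm_integral_le_of_norm_le (μ := unif S')
    (f := fun z => potS S z + Real.log (max ‖z - ctr S‖ (side S))) (integrable_const (5 : ℝ))
    (Eventually.of_forall hp)
  rw [integral_add hi h1] at h3
  simp only [integral_const, probReal_univ, smul_eq_mul, one_mul, Real.norm_eq_abs] at h3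
  have e : max ‖ctr S - ctr S'‖ (max (side S) (side S')) =
      max (max ‖ctr S - ctr S'‖ (side S')) (side S) := by
    rw [max_assoc, max_comm (side S)]
  rw [e]
  rw [abs_le] at h2 h3 ⊢
  constructor <;> linarith [h2.1, h2.2, h3.1, h3.2]

theorem kS_app (hG : St_GEO1) (hF : St_FE) (S S' A : Dy) :
    kS (S ++ A) (S' ++ A) = kS S S' + A.length * l2 := by
  have hA := (hG.1 A).1
  unfold kS
  rw [unif_map hG, unif_map hG]
  obtain ⟨-, -, -, -, -, -, -, hu, -, -, -, hl⟩ := hF
  have := hl (unif S) (unif S') (corner A) (side A) (by exact_mod_cast hA.ne') (hu S).1 (hu S').1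
  rw [Complex.norm_real, Real.norm_of_nonneg hA.le, log_side] at this
  rw [sub_neg_eq_add] at this
  exact this

theorem pot_app (hE : St_EXP1) (hG : St_GEO1) (hF : St_FE) (S A : Dy) (z : ℂ) :
    potS (S ++ A) (zS A z) = potS S z + A.length * l2 := by
  have hA := (hG.1 A).1
  have hi := int_log hE hG hF S z
  obtain ⟨-, -, -, -, -, -, -, hu, -⟩ := hF
  have := (hu S).1.2
  unfold potS
  rw [unif_map hG, integral_map (meas_zS A).aemeasurable (Measurable.aestronglyMeasurable
    (by fun_prop))]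
  have hae : (fun y => -Real.log ‖zS A z - zS A y‖) =ᵐ[unif S]
      fun y => -Real.log ‖z - y‖ + A.length * l2 := by
    filter_upwards [ae_ne (hu S).1.1 z] with y hy
    have p1 : 0 < ‖z - y‖ := norm_pos_iff.2 (sub_ne_zero.2 hy.symm)
    have e : zS A z - zS A y = (side A : ℂ) * (z - y) := by unfold zS; ring
    rw [e, norm_mul, Complex.norm_real, Real.norm_of_nonneg hA.le, Real.log_mul hA.ne' p1.ne',
      log_side]
    ring
  rw [integral_congr_ae hae, integral_add hi.fun_neg (integrable_const _)]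
  simp

end EXP2

theorem blk_EXP2 (hE : St_EXP1) (hG : St_GEO1) (hF : St_FE) : St_EXP2 := by
  refine ⟨EXP2.unif_map hG, EXP2.kS_app hG hF, EXP2.pot_app hE hG hF, EXP2.int_log hE hG hF,
    EXP2.kS_eq hF, 18, by norm_num, fun S z => ?_, EXP2.pot_lip hE hG hF, fun S S' => ?_,
    fun r z A _ => ?_, fun c r A hr => ?_⟩
  · exact (EXP2.pot_bd hE hG hF S z).trans (by norm_num)
  · exact (EXP2.kS_bd hE hG hF S S').trans (by norm_num)
  · obtain ⟨h1, h2⟩ := EXP2.ins_bd hE hG hF r z A
    exact ⟨h1, by linarith⟩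
  · exact (EXP2.max_bd hE hG hF c r A hr).2.trans (by norm_num)

end

end Pool.Agent.Lib.APPS
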