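import Pool.Agent.Lib.APPS.B_F1a

/-!
Block F1.
-/

namespace Pool.Agent.Lib.APPS

open MeasureTheory ProbabilityTheory Filter Topology Set Metric
open scoped NNReal ENNReal RealInnerProductSpace Classical

noncomputable section

namespace F1

open FAR (eE_add eE_mono eE_zero eE_ne_top eE_rpow meas_eE meas_fam ind_mono markov)
open RUN (ind_le_one)

theorem meas_cross (hT3 : St_T3) (n : ℕ) (S : Dy) : MeasurableSet {y | Cross n S y} := by
  have h1 := hT3.1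
  have h2 : Measurable fun y => xi y S := by
    unfold xi
    exact measurable_const.add (Finset.measurable_sum _ fun d _ => h1.comp (hT3.2.2.2.2.1 _))
  exact (hT3.2.1 S).2.inter ((measurableSet_le h1 measurable_const).inter
    ((measurableSet_lt measurable_const (h1.add h2)).inter
      (measurableSet_le measurable_const (h1.const_mul 2))))

theorem meas_G (hT3 : St_T3) (Φ : Finset Dy → ℝ) (n : ℕ) (S : Dy) :
    Measurable fun y => ind (Cross n S y) * ENNReal.ofReal (Φ (tr y)) :=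
  (hT3.2.2.2.2.2.2.2.2.2.2.2.1 _ _ (meas_cross hT3 n S)).1.mul
    (hT3.2.2.2.1 _ _ id (fun T _ => ENNReal.ofReal (Φ T)) measurable_id fun _ => measurable_const)

theorem meas_tm (hT3 : St_T3) (M : Model) (γ : ℝ) (ψ : HH) (Φ : Finset Dy → ℝ) (n : ℕ) (ε σ : ℝ)
    (S : Dy) : Measurable fun ω : Om => tm Φ n ε σ (ω ψ) (M.X γ 0 ω) S := by
  have hX := (hT3.2.2.2.2.2.2.2.2.2.2.1 M γ 0).1
  have hS : Measurable fun ω => M.X γ 0 ω S := (measurable_pi_apply S).comp hX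
  have h1 : Measurable fun ω => sh (M.X γ 0 ω) (-M.X γ 0 ω S) :=
    hT3.2.2.2.2.2.1.comp (hX.prodMk hS.neg)
  refine ((meas_G hT3 Φ n S).comp h1).mul (Measurable.mul ?_ (meas_eE.comp ?_))
  · exact (hT3.2.2.2.2.2.2.2.2.2.2.2.1 _ _ (hS measurableSet_Ioc)).1
  · exact (hS.mul (meas_ev ψ)).sub (((hS.pow_const 2).mul_const σ).div_const 2)

theorem fl_eq (hB : St_BMP) (hT3 : St_T3) (hSI : St_SI) (M : Model) (hO : box [] ⊆ M.O)
    (hsub : ∀ S, box S ⊆ box []) {ψ : HH} (hψ : ∀ S, ⟪ψ, M.eS S⟫ = 1) (γ : ℝ)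
    (Φ : Finset Dy → ℝ) (n : ℕ) {ε : ℝ} (hε : 0 < ε) :
    M.fl γ Φ n = ENNReal.ofReal ε⁻¹ * ∫⁻ ω, Zf Φ n ε (‖ψ‖ ^ 2) (ω ψ) (M.X γ 0 ω) ∂gm := by
  obtain ⟨hbb, E, C, hE, -, -, hM⟩ := hB
  have hX := (hT3.2.2.2.2.2.2.2.2.2.2.1 M γ 0).1
  unfold Zf
  rw [lintegral_tsum fun S => (meas_tm hT3 M γ ψ Φ n ε _ S).aemeasurable, ← ENNReal.tsum_mul_left]
  refine tsum_congr fun S => ?_
  have h1 : 0 < ⟪M.eS S, M.eS S⟫ := by
    rw [real_inner_self_eq_norm_sq]
    exact (by positivity : 0 < bb ^ 2 / E).trans_le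
      ((hM M).2.2.2.2.2.2.2.2 S ((hsub S).trans hO))
  unfold Model.sf
  have hm : Measurable fun ω => ind (Cross n S (M.X γ 0 ω)) *
      ENNReal.ofReal (Φ (tr (M.X γ 0 ω))) := (meas_G hT3 Φ n S).comp hX
  rw [hSI (M.eS S) (M.eS S) ψ _ 0 1 0 ε _ hm h1
    (by rw [hψ]; exact one_pos) one_pos hε, ← lintegral_const_mul' _ _ ENNReal.ofReal_ne_top]
  unfold surf
  refine lintegral_congr fun ω => ?_
  have h2 : (ω (M.eS S) + -(QQ γ * S.length * l2)) / ⟪ψ, M.eS S⟫ = M.X γ 0 ω S := by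
    rw [hψ, div_one]
    simp only [Model.X, drift]
    ring
  have h3 : ∀ s : ℝ, M.X γ 0 (ω - s • dv ψ) = sh (M.X γ 0 ω) (-s) := by
    intro s
    funext A
    simp only [Model.X, drift, sh, LinearMap.sub_apply, LinearMap.smul_apply, dv_apply, hψ,
      smul_eq_mul]
    ring
  rw [h2, hψ]
  beta_reduce
  rw [h3, sub_zero, mul_one, div_eq_inv_mul, ENNReal.ofReal_mul (by positivity)]
  unfold tm eE
  ring

theorem no_ties (hD : St_G1D) (hB : St_BMP) (M : Model) (hO : box [] ⊆ M.O) (γ : ℝ) :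
    ∀ᵐ ω ∂gm, Function.Injective (M.X γ 0 ω) := by
  obtain ⟨-, E, C, -, -, -, hM⟩ := hB
  have h1 : ∀ᵐ ω ∂gm, ∀ A B : Dy, A ≠ B → M.X γ 0 ω A ≠ M.X γ 0 ω B := by
    refine ae_all_iff.2 fun A => ae_all_iff.2 fun B => ?_
    by_cases h : A = B
    · exact Eventually.of_forall fun _ h2 => absurd h h2
    have h2 := hD.2.2.1 _ (QQ γ * A.length * l2 - QQ γ * B.length * l2)
      (QQ γ * A.length * l2 - QQ γ * B.length * l2) ((hM M).2.2.2.2.2.2.2.1 hO A B h)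
    rw [sub_self, zero_div, ENNReal.ofReal_zero, nonpos_iff_eq_zero] at h2
    refine measure_mono_null (fun ω hω => ?_) h2
    simp only [mem_compl_iff, mem_ofPred_eq, not_forall, not_not, Model.X, drift] at hω
    obtain ⟨-, h3⟩ := hω
    simp only [mem_ofPred_eq, map_sub, mem_Icc]
    constructor <;> linarith
  filter_upwards [h1] with ω h A B h2
  by_contra h3
  exact h A B h3 h2

theorem win_bd (hT3 : St_T3) (M : Model) (γ θ K : ℝ) (ψ : HH) (hθ : 0 < θ) (hK0 : 0 ≤ K)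
    (hK : ∀ ι : ℕ, 1 ≤ ι → ∫⁻ ω, ind (nB (M.X γ 0 ω) = ι) * eE |ω ψ| ∂gm ≤
      ENNReal.ofReal (K * (ι : ℝ) ^ (-(θ + 2)))) (n : ℕ) (hn : 1 ≤ n) (lo hi : ℝ) (hlo : 0 ≤ lo)
    (hh : lo ≤ hi) : ENNReal.ofReal ((n : ℝ) ^ (θ + 1)) *
      ∫⁻ ω, ind (Ev n lo hi (M.X γ 0 ω)) * eE |ω ψ| ∂gm ≤
      ENNReal.ofReal ((hi - lo + 1) * K / n) := by
  have hX := (hT3.2.2.2.2.2.2.2.2.2.2.1 M γ 0).1
  have hn' : (0 : ℝ) < n := by exact_mod_cast hn
  set I := (Finset.Icc ⌈lo⌉₊ ⌊hi⌋₊).filter fun ι => n < ι with hI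
  have hcard : (I.card : ℝ) ≤ hi - lo + 1 := by
    have h1 : I.card ≤ ⌊hi⌋₊ + 1 - ⌈lo⌉₊ := (Finset.card_filter_le _ _).trans (by simp)
    have h2 := Nat.floor_le (hlo.trans hh)
    have h3 := Nat.le_ceil lo
    rcases le_total ⌈lo⌉₊ (⌊hi⌋₊ + 1) with h | h
    · have h4 : (I.card : ℝ) ≤ ((⌊hi⌋₊ + 1 - ⌈lo⌉₊ : ℕ) : ℝ) := by exact_mod_cast h1
      rw [Nat.cast_sub h] at h4
      push_cast at h4
      linarith
    · have : I.card = 0 := by omega
      rw [this]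
      push_cast
      linarith
  have h1 : ∀ ω : Om, ind (Ev n lo hi (M.X γ 0 ω)) * eE |ω ψ| ≤
      ∑ ι ∈ I, ind (nB (M.X γ 0 ω) = ι) * eE |ω ψ| := by
    intro ω
    by_cases h : Ev n lo hi (M.X γ 0 ω)
    · obtain ⟨h2, h3, h4⟩ := h
      have hf : nB (M.X γ 0 ω) ≠ ∞ := ne_top_of_le_ne_top ENNReal.ofReal_ne_top h4
      obtain ⟨ι, hι⟩ : ∃ ι : ℕ, nB (M.X γ 0 ω) = ι := by
        have h5 : {A | IntN (M.X γ 0 ω) A}.Finite := by
          have := ENNReal.finite_const_le_of_tsum_ne_top hf (ε := 1) one_ne_zero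
          exact this.subset fun A hA => (ind_pos hA).ge
        refine ⟨h5.toFinset.card, ?_⟩
        unfold nB
        rw [tsum_eq_sum (s := h5.toFinset) fun A hA => ind_neg (by simpa using hA),
          Finset.sum_congr rfl (g := fun _ => 1) fun A hA => ind_pos (by simpa using hA)]
        simp
      have hm : ι ∈ I := by
        rw [hι] at h2 h3 h4
        rw [← ENNReal.ofReal_natCast, ENNReal.ofReal_le_ofReal_iff (by positivity)] at h3
        rw [← ENNReal.ofReal_natCast, ENNReal.ofReal_le_ofReal_iff (hlo.trans hh)] at h4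
        exact Finset.mem_filter.2 ⟨Finset.mem_Icc.2 ⟨Nat.ceil_le.2 h3, Nat.le_floor h4⟩,
          by exact_mod_cast h2⟩
      refine le_trans ?_ (Finset.single_le_sum
        (f := fun ι : ℕ => ind (nB (M.X γ 0 ω) = ι) * eE |ω ψ|) (fun _ _ => zero_le) hm)
      exact mul_le_mul_left (ind_mono fun _ => hι) _
    · rw [ind_neg h, zero_mul]; exact zero_le
  have h2 : ∫⁻ ω, ind (Ev n lo hi (M.X γ 0 ω)) * eE |ω ψ| ∂gm ≤
      ENNReal.ofReal ((hi - lo + 1) * (K * (n : ℝ) ^ (-(θ + 2)))) := by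
    refine (lintegral_mono h1).trans ?_
    rw [lintegral_finsetSum]
    · refine (Finset.sum_le_card_nsmul _ _ (ENNReal.ofReal (K * (n : ℝ) ^ (-(θ + 2))))
        fun ι hι => ?_).trans ?_
      · have h3 : n < ι := (Finset.mem_filter.1 hι).2
        refine (hK ι (by omega)).trans (ENNReal.ofReal_le_ofReal ?_)
        refine mul_le_mul_of_nonneg_left ?_ hK0
        exact Real.rpow_le_rpow_of_nonpos hn' (by exact_mod_cast h3.le) (by linarith)
      · rw [nsmul_eq_mul, ← ENNReal.ofReal_natCast, ← ENNReal.ofReal_mul (by positivity)]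
        exact ENNReal.ofReal_le_ofReal (mul_le_mul_of_nonneg_right hcard (by positivity))
    · intro ι _
      refine Measurable.mul ?_ (meas_eE.comp (meas_ev ψ).abs)
      exact (hT3.2.2.2.2.2.2.2.2.2.2.2.1 _ _
        (measurableSet_eq_fun (hT3.1.comp hX) measurable_const)).1
  refine (mul_le_mul_right h2 _).trans (le_of_eq ?_)
  rw [← ENNReal.ofReal_mul (by positivity)]
  congr 1
  have h3 : (n : ℝ) ^ (θ + 1) * (n : ℝ) ^ (-(θ + 2)) = (n : ℝ)⁻¹ := by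
    rw [← Real.rpow_add hn', ← Real.rpow_neg_one]
    congr 1
    ring
  calc _ = (hi - lo + 1) * K * ((n : ℝ) ^ (θ + 1) * (n : ℝ) ^ (-(θ + 2))) := by ring
    _ = _ := by rw [h3, div_eq_mul_inv]

theorem tilt_bd (hG2 : St_G2) (hMOD : St_MOD) (hT3 : St_T3) (hRUS : St_RUS) {γ : ℝ}
    (hγ : γ ∈ Ioo (0 : ℝ) 2) (M : Model) (hO : box [] ⊆ M.O) {ψ : HH}
    (hψ : ∀ S, ⟪ψ, M.eS S⟫ = 1) : ∃ K : ℝ, 0 ≤ K ∧ ∀ n : ℕ, 1 ≤ n →
    ENNReal.ofReal ((n : ℝ) ^ (th γ + 1)) *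
      ∫⁻ ω, ind ((n : ℝ≥0∞) < nB (M.X γ 0 ω)) * eE (2 * |ω ψ|) ∂gm ≤ ENNReal.ofReal K := by
  obtain ⟨K, hK⟩ := (hRUS γ hγ).2 M.C0
  have hGr : Gram M.eS (covE M.C0) := by
    have := (hMOD M).2.2.2.2.2.2.1 [] hO
    simpa using this
  have hX := (hT3.2.2.2.2.2.2.2.2.2.2.1 M γ 0).1
  have key : ∀ s : ℝ, ∃ L : ℝ, 0 ≤ L ∧ ∀ n : ℕ, 1 ≤ n → ENNReal.ofReal ((n : ℝ) ^ (th γ + 1)) *
      ∫⁻ ω, ind ((n : ℝ≥0∞) < nB (M.X γ 0 ω)) * eE (s * ω ψ) ∂gm ≤ ENNReal.ofReal L := by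
    intro s
    refine ⟨Real.exp (‖s • ψ‖ ^ 2 / 2) * (max K 0 * Real.exp (γ * s) ^ (th γ + 1)), by positivity,
      fun n hn => ?_⟩
    have hn' : (1 : ℝ) ≤ n := by exact_mod_cast hn
    have hf : Measurable fun ω => ind ((n : ℝ≥0∞) < nB (M.X γ 0 ω)) :=
      (hT3.2.2.2.2.2.2.2.2.2.2.2.1 _ _ (measurableSet_lt measurable_const (hT3.1.comp hX))).1
    have h1 := hG2.2.1 (s • ψ) _ hf
    have h2 : ∫⁻ ω, ind ((n : ℝ≥0∞) < nB (M.X γ 0 ω)) * eE (s * ω ψ) ∂gm =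
        eE (‖s • ψ‖ ^ 2 / 2) * ∫⁻ ω, ind ((n : ℝ≥0∞) < nB (M.X γ 0 (ω + dv (s • ψ)))) ∂gm := by
      rw [h1, ← lintegral_const_mul' _ _ (eE_ne_top _)]
      refine lintegral_congr fun ω => ?_
      rw [mul_left_comm, ← eE_add, map_smul, smul_eq_mul]
      congr 2
      ring
    have h3 : ∫⁻ ω, ind ((n : ℝ≥0∞) < nB (M.X γ 0 (ω + dv (s • ψ)))) ∂gm ≤
        gm {ω | ENNReal.ofReal n ≤ nB (XV γ M.eS s ω)} := by
      refine le_trans (lintegral_mono fun ω => ?_) (lintegral_indicator_one_le _)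
      have h4 : M.X γ 0 (ω + dv (s • ψ)) = XV γ M.eS s ω := by
        funext S
        simp only [Model.X, XV, drift, LinearMap.add_apply, dv_apply, real_inner_smul_left, hψ]
        ring
      rw [h4]
      by_cases h : (n : ℝ≥0∞) < nB (XV γ M.eS s ω)
      · rw [ind_pos h, indicator_of_mem]
        · rfl
        · simpa using h.le
      · rw [ind_neg h]; exact zero_le
    have h5 := h3.trans (hK _ hGr s n hn')
    rw [h2, mul_left_comm, ENNReal.ofReal_mul (Real.exp_pos _).le]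
    refine mul_le_mul_right ((mul_le_mul_right h5 _).trans ?_) _
    rw [← ENNReal.ofReal_mul (by positivity)]
    refine ENNReal.ofReal_le_ofReal ?_
    rw [Real.div_rpow (Real.exp_pos _).le (by positivity)]
    have h6 : 0 < (n : ℝ) ^ (th γ + 1) := by positivity
    calc _ = K * Real.exp (γ * s) ^ (th γ + 1) := by field_simp
      _ ≤ _ := mul_le_mul_of_nonneg_right (le_max_left _ _) (by positivity)
  obtain ⟨L1, hL1, h1⟩ := key 2
  obtain ⟨L2, hL2, h2⟩ := key (-2)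
  refine ⟨L1 + L2, by positivity, fun n hn => ?_⟩
  rw [ENNReal.ofReal_add hL1 hL2]
  refine le_trans ?_ (add_le_add (h1 n hn) (h2 n hn))
  rw [← mul_add, ← lintegral_add_left]
  · refine mul_le_mul_right (lintegral_mono fun ω => ?_) _
    rw [← mul_add]
    refine mul_le_mul_right ?_ _
    rcases abs_cases (ω ψ) with h | h
    · rw [h.1]; exact le_self_add
    · rw [h.1, show 2 * -ω ψ = -2 * ω ψ by ring]; exact le_add_self
  · refine Measurable.mul ?_ (meas_eE.comp ((meas_ev ψ).const_mul _))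
    exact (hT3.2.2.2.2.2.2.2.2.2.2.2.1 _ _ (measurableSet_lt measurable_const (hT3.1.comp hX))).1

theorem trunc (p Mx : ℝ) (hM : 0 < Mx) :
    eE |p| ≤ ENNReal.ofReal Mx + ENNReal.ofReal Mx⁻¹ * eE (2 * |p|) := by
  unfold eE
  rw [← ENNReal.ofReal_mul (by positivity), ← ENNReal.ofReal_add hM.le (by positivity)]
  refine ENNReal.ofReal_le_ofReal ?_
  rw [two_mul, Real.exp_add]
  set a := Real.exp |p|
  have h1 : Mx + Mx⁻¹ * (a * a) - a = Mx⁻¹ * ((a - Mx / 2) ^ 2 + 3 / 4 * Mx ^ 2) := by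
    field_simp
    ring
  have h2 : 0 ≤ Mx⁻¹ * ((a - Mx / 2) ^ 2 + 3 / 4 * Mx ^ 2) := by positivity
  linarith

theorem fin_real {a b : ℝ≥0∞} {N e : ℝ} (hN : 0 < N) (he : 0 ≤ e) (hb : b ≠ ∞)
    (h1 : ENNReal.ofReal N * a ≤ ENNReal.ofReal N * b + ENNReal.ofReal e)
    (h2 : ENNReal.ofReal N * b ≤ ENNReal.ofReal N * a + ENNReal.ofReal e) :
    a ≠ ∞ ∧ |N * a.toReal - N * b.toReal| ≤ e := by
  have hN' : ENNReal.ofReal N ≠ 0 := (ENNReal.ofReal_pos.2 hN).ne'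
  have ha : a ≠ ∞ := by
    rintro rfl
    rw [ENNReal.mul_top hN', top_le_iff] at h1
    exact (ENNReal.add_ne_top.2 ⟨ENNReal.mul_ne_top ENNReal.ofReal_ne_top hb,
      ENNReal.ofReal_ne_top⟩) h1
  refine ⟨ha, ?_⟩
  lift a to ℝ≥0 using ha
  lift b to ℝ≥0 using hb
  rw [← ENNReal.ofReal_coe_nnreal, ← ENNReal.ofReal_coe_nnreal, ← ENNReal.ofReal_mul hN.le,
    ← ENNReal.ofReal_mul hN.le, ← ENNReal.ofReal_add (by positivity) he,
    ENNReal.ofReal_le_ofReal_iff (by positivity)] at h1 h2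
  simp only [ENNReal.coe_toReal]
  rw [abs_le]
  constructor <;> linarith

end F1

open F1 in
open FAR (eE_add eE_mono eE_zero eE_ne_top eE_rpow meas_eE meas_fam ind_mono markov) in
theorem blk_F1 (hG1 : St_G1) (hD : St_G1D) (hG2 : St_G2) (hMOD : St_MOD) (hB : St_BMP)
    (hT : St_T1) (hT3 : St_T3) (hR : St_RW1) (hSI : St_SI) (hRUS : St_RUS) (hMAC : St_MAC)
    (hUL : St_UL) (hW : St_G3W) : St_F1 := by
  intro γ hγ D M hO Λ η hη
  have := hG1.1
  have hγ0 := hγ.1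
  have hθ := (hR.2.2 γ hγ).2.2.1
  obtain ⟨φ, hφ⟩ := (hMOD M).2.2.2.2.2.2.2.2.2.2.2.2.2.2.2.1 hO
  have hψ := (hMOD M).2.2.2.2.2.2.2.2.2.2.2.2.2.2.2.2.1 φ hφ
  set ψ := gr φ
  have hsub : ∀ S : Dy, box S ⊆ box [] := by
    intro S
    induction S with
    | nil => exact Subset.rfl
    | cons d S ih =>
      refine Subset.trans ?_ ih
      have h0 : side S = 2 * side (d :: S) := by simp [side, pow_succ]; ring
      have h1 : 0 < side (d :: S) := by unfold side; positivity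
      have h2 : ∀ i : Fin 2, (0 : ℝ) ≤ (i : ℕ) ∧ ((i : ℕ) : ℝ) ≤ 1 := fun i =>
        ⟨Nat.cast_nonneg _, by exact_mod_cast Nat.lt_succ_iff.1 i.2⟩
      rintro z ⟨⟨a1, a2⟩, a3, a4⟩
      simp only [corner, Complex.add_re, Complex.add_im, Complex.mul_re, Complex.mul_im,
        Complex.ofReal_re, Complex.ofReal_im, Complex.natCast_re, Complex.natCast_im,
        Complex.I_re, Complex.I_im] at a1 a2 a3 a4
      refine ⟨⟨?_, ?_⟩, ?_, ?_⟩ <;>
        nlinarith [mul_nonneg h1.le (h2 d.1).1, mul_nonneg h1.le (h2 d.2).1,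
          mul_le_mul_of_nonneg_left (h2 d.1).2 h1.le, mul_le_mul_of_nonneg_left (h2 d.2).2 h1.le]
  obtain ⟨K0, hK0⟩ := (hUL γ hγ M hO).2.1 φ hφ
  set K := max K0 0 with hK
  have hKp : 0 ≤ K := le_max_right _ _
  have hK1 : ∀ ι : ℕ, 1 ≤ ι → ∫⁻ ω, ind (nB (M.X γ 0 ω) = ι) * eE |ω ψ| ∂gm ≤
      ENNReal.ofReal (K * (ι : ℝ) ^ (-(th γ + 2))) := fun ι hι =>
    (hK0 ι hι).trans (ENNReal.ofReal_le_ofReal
      (mul_le_mul_of_nonneg_right (le_max_left _ _) (by positivity)))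
  obtain ⟨K2, hK2, hK3⟩ := tilt_bd hG2 hMOD hT3 hRUS hγ M hO hψ
  obtain ⟨ε1, hε1, hW1⟩ := (hW γ hγ D M hO).1 (η / 5) (by positivity)
  set c : ℝ := (1 + ‖ψ‖ ^ 2 / 2 + |Λ| * (γ + 1)) * (Real.exp γ + 1) * K with hc
  have hc0 : 0 ≤ c := by positivity
  refine ⟨min (min ε1 1) (η / 5 / (c + 1)), by positivity, fun ε hε => ?_⟩
  have hε0 := hε.1
  have hε2 : ε ≤ ε1 := hε.2.trans ((min_le_left _ _).trans (min_le_left _ _))
  have hε3 : ε ≤ 1 := hε.2.trans ((min_le_left _ _).trans (min_le_right _ _))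
  have hε4 : ε * (c + 1) ≤ η / 5 := (le_div_iff₀ (by positivity)).1 (hε.2.trans (min_le_right _ _))
  set e : ℝ := η / 5 * ε with he
  have he0 : 0 < e := by positivity
  set Mx : ℝ := K2 / e + 1 with hMx
  have hMx0 : 0 < Mx := by positivity
  set η' : ℝ := min (min ε (1 / 4)) (min (e / (3 * K + 1)) (e / Mx)) with hη'
  have hη0 : 0 < η' := by positivity
  have hη1 : η' ≤ ε := (min_le_left _ _).trans (min_le_left _ _)
  have hη2 : η' ≤ 1 / 4 := (min_le_left _ _).trans (min_le_right _ _)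
  have hη3 : η' * (3 * K + 1) ≤ e :=
    (le_div_iff₀ (by positivity)).1 ((min_le_right _ _).trans (min_le_left _ _))
  have hη4 : η' * Mx ≤ e := (le_div_iff₀ hMx0).1 ((min_le_right _ _).trans (min_le_right _ _))
  obtain ⟨K1, hM1⟩ := (hMAC γ hγ M hO).1 1 η' one_pos hη0
  filter_upwards [hW1 ε ⟨hε0, hε2⟩, tendsto_natCast_atTop_atTop.eventually hM1,
    eventually_ge_atTop 1,
    tendsto_natCast_atTop_atTop.eventually (eventually_ge_atTop (1 / η' : ℝ))]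
    with n hn1 hn2 hn3 hn4 Φ hΦ
  have hn' : (1 : ℝ) ≤ n := by exact_mod_cast hn3
  have hn5 : 1 ≤ η' * n := by rwa [div_le_iff₀ hη0, mul_comm] at hn4
  have hX := (hT3.2.2.2.2.2.2.2.2.2.2.1 M γ 0).1
  have hi := hT3.2.2.2.2.2.2.2.2.2.2.2.1
  set P := ENNReal.ofReal ((n : ℝ) ^ (th γ + 1)) with hP
  set δ := ε * (1 + ‖ψ‖ ^ 2 / 2) + |Λ| * ((γ + 1) * ε) with hδ
  have hδ0 : 0 ≤ δ := by positivity
  set Bd := toMeasurable gm {ω | ENNReal.ofReal (1 * n) ≤ nB (sh (M.X γ 0 ω) 1) ∧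
    ¬Gro γ K1 n η' (M.X γ 0 ω)} with hBd
  set R : Om → ℝ≥0∞ := fun ω => Rf γ η' δ n ε (ω ψ) (M.X γ 0 ω) +
    (ENNReal.ofReal Mx * Bd.indicator 1 ω +
      ENNReal.ofReal Mx⁻¹ * (ind ((n : ℝ≥0∞) < nB (M.X γ 0 ω)) * eE (2 * |ω ψ|))) with hRdef
  have hN := hT3.1.comp hX
  have mEv : ∀ lo hi' : ℝ, Measurable fun ω => ind (Ev n lo hi' (M.X γ 0 ω)) * eE |ω ψ| := by
    intro lo hi'
    refine Measurable.mul (hi _ _ ?_).1 (meas_eE.comp (meas_ev ψ).abs)
    exact (measurableSet_lt measurable_const hN).inter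
      ((measurableSet_le measurable_const hN).inter (measurableSet_le hN measurable_const))
  have mE3 : MeasurableSet {ω | (n : ℝ≥0∞) < nB (M.X γ 0 ω) ∧
      nB (M.X γ 0 ω) ≤ ENNReal.ofReal (Real.exp (γ * ε) * n) ∧
      2 * nB (sh (M.X γ 0 ω) (-ε)) < n} :=
    (measurableSet_lt measurable_const hN).inter ((measurableSet_le hN measurable_const).inter
      (measurableSet_lt ((hT3.1.comp (hT3.2.2.2.2.2.1.comp (hX.prodMk measurable_const))).const_mul
        2) measurable_const))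
  have mB : Measurable fun ω => ENNReal.ofReal Mx * Bd.indicator (1 : Om → ℝ≥0∞) ω :=
    (measurable_one.indicator (measurableSet_toMeasurable _ _)).const_mul _
  have mT : Measurable fun ω => ind ((n : ℝ≥0∞) < nB (M.X γ 0 ω)) * eE (2 * |ω ψ|) :=
    (hi _ _ (measurableSet_lt measurable_const hN)).1.mul
      (meas_eE.comp ((meas_ev ψ).abs.const_mul 2))
  have mRf : Measurable fun ω => Rf γ η' δ n ε (ω ψ) (M.X γ 0 ω) :=
    (((mEv _ _).const_mul _).add (mEv _ _)).add (hi _ _ mE3).1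
  have mR : Measurable R := mRf.add (mB.add (mT.const_mul _))
  have he1 : 1 ≤ Real.exp (γ * ε) := Real.one_le_exp (by positivity)
  have he2 : Real.exp (γ * ε) ≤ (1 - ε) + ε * Real.exp γ := by
    have := convexOn_exp.2 (mem_univ 0) (mem_univ γ) (by linarith : 0 ≤ 1 - ε) hε0.le (by ring)
    simpa [mul_comm] using this
  have hRb : P * ∫⁻ ω, R ω ∂gm ≤ ENNReal.ofReal (η * ε) := by
    have a1 := win_bd hT3 M γ _ K ψ hθ hKp hK1 n hn3 n ((Real.exp (γ * ε) + η') * n)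
      (by positivity) (by nlinarith)
    have a2 := win_bd hT3 M γ _ K ψ hθ hKp hK1 n hn3 ((Real.exp (γ * ε) - η') * n)
      ((Real.exp (γ * ε) + η') * n) (by nlinarith) (by nlinarith)
    have b1 : P * (ENNReal.ofReal δ *
        ∫⁻ ω, ind (Ev n n ((Real.exp (γ * ε) + η') * n) (M.X γ 0 ω)) * eE |ω ψ| ∂gm) ≤
        ENNReal.ofReal e := by
      rw [mul_left_comm]
      refine (mul_le_mul_right a1 _).trans ?_
      rw [← ENNReal.ofReal_mul hδ0]
      refine ENNReal.ofReal_le_ofReal ?_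
      have f1 : (Real.exp (γ * ε) + η') * n - n + 1 ≤ ε * (Real.exp γ + 1) * n := by nlinarith
      calc _ ≤ δ * (ε * (Real.exp γ + 1) * n * K / n) := by gcongr
        _ = ε * c * ε := by rw [hδ, hc]; field_simp
        _ ≤ e := by rw [he]; nlinarith
    have b2 : P * ∫⁻ ω, ind (Ev n ((Real.exp (γ * ε) - η') * n) ((Real.exp (γ * ε) + η') * n)
        (M.X γ 0 ω)) * eE |ω ψ| ∂gm ≤ ENNReal.ofReal e := by
      refine a2.trans (ENNReal.ofReal_le_ofReal ?_)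
      have f1 : (Real.exp (γ * ε) + η') * n - (Real.exp (γ * ε) - η') * n + 1 ≤ 3 * η' * n := by
        nlinarith
      calc _ ≤ 3 * η' * n * K / n := by gcongr
        _ = η' * (3 * K) := by field_simp
        _ ≤ e := by nlinarith
    have b4 : P * (ENNReal.ofReal Mx * gm Bd) ≤ ENNReal.ofReal e := by
      rw [mul_left_comm, hBd, measure_toMeasurable]
      refine (mul_le_mul_right hn2 _).trans ?_
      rw [← ENNReal.ofReal_mul hMx0.le]
      exact ENNReal.ofReal_le_ofReal (by linarith)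
    have b5 : P * (ENNReal.ofReal Mx⁻¹ *
        ∫⁻ ω, ind ((n : ℝ≥0∞) < nB (M.X γ 0 ω)) * eE (2 * |ω ψ|) ∂gm) ≤ ENNReal.ofReal e := by
      rw [mul_left_comm]
      refine (mul_le_mul_right (hK3 n hn3) _).trans ?_
      rw [← ENNReal.ofReal_mul (by positivity)]
      refine ENNReal.ofReal_le_ofReal ?_
      rw [inv_mul_le_iff₀ hMx0, hMx, add_mul, div_mul_cancel₀ _ he0.ne']
      linarith
    rw [hRdef, lintegral_add_left mRf, lintegral_add_left mB]
    unfold Rf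
    rw [lintegral_add_right _ (hi _ _ mE3).1, lintegral_add_right _ (mEv _ _),
      lintegral_const_mul' _ _ ENNReal.ofReal_ne_top, lintegral_const_mul' _ _ ENNReal.ofReal_ne_top,
      lintegral_const_mul' _ _ ENNReal.ofReal_ne_top,
      lintegral_indicator_one (measurableSet_toMeasurable _ _), ← FAR.gm_eq mE3, mul_add, mul_add,
      mul_add, mul_add]
    refine (add_le_add (add_le_add (add_le_add b1 b2) hn1) (add_le_add b4 b5)).trans ?_
    rw [← ENNReal.ofReal_add he0.le he0.le, ← ENNReal.ofReal_add (by positivity) he0.le,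
      ← ENNReal.ofReal_add (by positivity) (by positivity)]
    exact ENNReal.ofReal_le_ofReal (by linarith)
  have hpt : ∀ᵐ ω ∂gm,
      Zf Φ n ε (‖ψ‖ ^ 2) (ω ψ) (M.X γ 0 ω) ≤ Wf γ Φ n ε (M.X γ 0 ω) + R ω ∧
      Wf γ Φ n ε (M.X γ 0 ω) ≤ Zf Φ n ε (‖ψ‖ ^ 2) (ω ψ) (M.X γ 0 ω) + R ω := by
    filter_upwards [no_ties hD hB M hO γ] with ω hω
    by_cases hG : Gro γ K1 n η' (M.X γ 0 ω)
    · obtain ⟨h1, h2⟩ := pt_on (p := ω ψ) hT hω hΦ hγ0 hε0 hε3 (sq_nonneg ‖ψ‖) hη0 hη1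
        (by linarith) hn3 hG
      exact ⟨h1.trans (add_le_add_right le_self_add _), h2.trans (add_le_add_right le_self_add _)⟩
    · obtain ⟨h1, h2⟩ := pt_off (γ := γ) (n := n) (p := ω ψ) hT hω hΦ.1 hε3 (sq_nonneg ‖ψ‖)
      have h3 : ind ((n : ℝ≥0∞) < nB (M.X γ 0 ω)) * eE |ω ψ| ≤ R ω := by
        refine le_trans ?_ le_add_self
        by_cases h : (n : ℝ≥0∞) < nB (M.X γ 0 ω)
        · have h4 : ω ∈ Bd := by
            refine subset_toMeasurable _ _ ⟨?_, hG⟩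
            have h5 := nB_sh hT (M.X γ 0 ω) zero_le_one
            rw [sh_zero] at h5
            rw [one_mul, ENNReal.ofReal_natCast]
            exact h.le.trans h5
          rw [ind_pos h, indicator_of_mem h4, one_mul, one_mul, Pi.one_apply, mul_one]
          exact trunc _ _ hMx0
        · rw [ind_neg h, zero_mul]; exact zero_le
      exact ⟨(h1.trans h3).trans le_add_self, (h2.trans h3).trans le_add_self⟩
  set a := ∫⁻ ω, Zf Φ n ε (‖ψ‖ ^ 2) (ω ψ) (M.X γ 0 ω) ∂gm with ha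
  set b := ∫⁻ ω, Wf γ Φ n ε (M.X γ 0 ω) ∂gm with hb
  have hab : P * a ≤ P * b + ENNReal.ofReal (η * ε) := by
    refine le_trans ?_ (add_le_add_right hRb _)
    rw [← mul_add, hb, ← lintegral_add_right _ mR]
    exact mul_le_mul_right (lintegral_mono_ae (hpt.mono fun _ h => h.1)) _
  have hba : P * b ≤ P * a + ENNReal.ofReal (η * ε) := by
    refine le_trans ?_ (add_le_add_right hRb _)
    rw [← mul_add, ha, ← lintegral_add_right _ mR]
    exact mul_le_mul_right (lintegral_mono_ae (hpt.mono fun _ h => h.2)) _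
  have hb1 : b ≠ ∞ := by
    refine ne_top_of_le_ne_top ENNReal.one_ne_top ?_
    calc b ≤ ∫⁻ _, 1 ∂gm := lintegral_mono fun ω =>
          mul_le_one' (RUN.ind_le_one _) (ENNReal.ofReal_le_one.2 (hΦ.1 _).2)
      _ = 1 := by simp
  obtain ⟨h1, h2⟩ := fin_real (by positivity) (by positivity) hb1 hab hba
  have hfl := fl_eq hB hT3 hSI M hO hsub hψ γ Φ n hε0
  have hwin : ∫ ω, indR ((n : ℝ≥0∞) < nB (M.X γ 0 ω) ∧
      nB (M.X γ 0 ω) ≤ ENNReal.ofReal (Real.exp (γ * ε) * n)) * Φ (tr (M.X γ 0 ω)) ∂gm =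
      b.toReal := by
    have hp : ∀ p : Prop, 0 ≤ indR p := fun p => by unfold indR; split_ifs <;> norm_num
    rw [integral_eq_lintegral_of_nonneg_ae
      (Eventually.of_forall fun ω => mul_nonneg (hp _) (hΦ.1 _).1)]
    · congr 1
      refine lintegral_congr fun ω => ?_
      rw [ENNReal.ofReal_mul (hp _)]
      unfold Wf ind indR
      split_ifs <;> simp
    · refine Measurable.aestronglyMeasurable (Measurable.mul (hi _ _ ?_).2 ?_)
      · exact (measurableSet_lt measurable_const hN).inter (measurableSet_le hN measurable_const)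
      · exact hT3.2.2.2.1 _ _ _ (fun T _ => Φ T) hX fun _ => measurable_const
  refine ⟨by rw [hfl]; exact ENNReal.mul_ne_top ENNReal.ofReal_ne_top h1, ?_⟩
  unfold Model.flR Model.win
  rw [hfl, hwin, ENNReal.toReal_mul, ENNReal.toReal_ofReal (by positivity), ← ha]
  have h3 : (n : ℝ) ^ (th γ + 1) * (ε⁻¹ * a.toReal) - (n : ℝ) ^ (th γ + 1) / ε * b.toReal =
      ((n : ℝ) ^ (th γ + 1) * a.toReal - (n : ℝ) ^ (th γ + 1) * b.toReal) / ε := by
    field_simp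
  rw [h3, abs_div, abs_of_pos hε0, div_le_iff₀ hε0]
  exact h2

end

end Pool.Agent.Lib.APPS
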