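import Pool.Agent.Lib.APPS.B_F2b

/-!
Block F2: the flux through size `n` as a combination of local probabilities.
-/

namespace Pool.Agent.Lib.APPS

open MeasureTheory ProbabilityTheory Filter Topology Set Metric
open scoped NNReal ENNReal RealInnerProductSpace Classical

noncomputable section

namespace F2

theorem box_cons (d : Dg) (S : Dy) : box (d :: S) ⊆ box S := by
  have h0 : side S = 2 * side (d :: S) := by simp only [side, List.length_cons]; ring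
  have h1 : 0 < side (d :: S) := by unfold side; positivity
  have h2 : ∀ j : Fin 2, 0 ≤ side (d :: S) * (j : ℕ) ∧ side (d :: S) * (j : ℕ) ≤ side (d :: S) :=
    fun j => by fin_cases j <;> simp [h1.le]
  rintro z ⟨⟨a1, a2⟩, a3, a4⟩
  simp only [corner, Complex.add_re, Complex.mul_re, Complex.ofReal_re, Complex.natCast_re,
    Complex.I_re, mul_zero, Complex.natCast_im, Complex.I_im, mul_one, sub_self, add_zero,
    Complex.ofReal_im, Complex.add_im, Complex.mul_im, zero_add, zero_mul, sub_zero] at a1 a2 a3 a4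
  refine ⟨⟨?_, ?_⟩, ?_, ?_⟩ <;> linarith [h2 d.1, h2 d.2]

theorem box_sub (S : Dy) : box S ⊆ box [] := by
  induction S with
  | nil => exact Subset.rfl
  | cons d S ih => exact (box_cons d S).trans ih

theorem geom (hB : St_BMP) : ∃ E C : ℝ, 0 < E ∧ 0 < C ∧ ∀ M : Model, box [] ⊆ M.O →
    (∀ S, 0 < ⟪M.eS S, M.eS S⟫) ∧ ∀ P d, ⟪M.vs (d :: P), M.eS (d :: P)⟫ = bb ∧
      (∀ B, |⟪M.vs (d :: P), M.eS B⟫| ≤ C) ∧
      (∀ B, (P <:+ B → B = P) → ⟪M.vs (d :: P), M.eS B⟫ = 0) ∧ ‖M.vs (d :: P)‖ ^ 2 ≤ 4 * E := by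
  obtain ⟨hb, E, C, hE, hC, -, h⟩ := hB
  refine ⟨E, C, hE, hC, fun M hM => ?_⟩
  obtain ⟨-, h2, h3, -, h5, h6, -, -, h9⟩ := h M
  have hO : ∀ S, box S ⊆ M.O := fun S => (box_sub S).trans hM
  refine ⟨fun S => ?_, fun P d => ⟨?_, fun B => ?_, fun B hP => ?_, ?_⟩⟩
  · rw [real_inner_self_eq_norm_sq]
    exact lt_of_lt_of_le (by positivity) (h9 S (hO S))
  · have hne : sib (d :: P) ≠ d :: P := by
      rw [sib_cons]
      intro h'
      exact (by decide : ∀ j : Fin 2, j + 1 ≠ j) d.1 (congrArg Prod.fst (List.cons.inj h').1)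
    have hs : side (d :: P) ≠ 0 := by unfold side; positivity
    rw [Model.vs, inner_sub_left, h5 _ _ (hO _) (List.suffix_refl _),
      (h3 _ _ (fun h' => hne (h'.eq_of_length (by simp [sib_cons])))
        (fun h' => hne (h'.eq_of_length (by simp [sib_cons])).symm)).2 (hO _), div_self hs]
    ring
  · rw [Model.vs, inner_sub_left, abs_le]
    have a1 := h6 (d :: P) B (hO _)
    have a2 := h6 (sib (d :: P)) B (hO _)
    constructor <;> linarith [a1.1, a1.2, a2.1, a2.2]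
  · rw [Model.vs, inner_sub_left, sib_cons]
    by_cases hBP : B <:+ P
    · rw [h5 _ _ (hO _) (hBP.trans (List.suffix_cons _ _)),
        h5 _ _ (hO _) (hBP.trans (List.suffix_cons _ _))]
      simp [side]
    · have hPB : ¬P <:+ B := fun h' => hBP (hP h' ▸ List.suffix_refl _)
      have : ∀ c : Dg, ⟪M.ub (c :: P), M.eS B⟫ = 0 := fun c =>
        (h3 _ _ (fun h' => hPB ((List.suffix_cons _ _).trans h')) fun h' =>
          (List.suffix_cons_iff.1 h').elim (fun h'' => hPB (h'' ▸ List.suffix_cons _ _)) hBP).2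
          (hO _)
      rw [this, this, sub_self]
  · have a1 := h2 (d :: P)
    have a2 := h2 (sib (d :: P))
    have a3 := pow_le_pow_left₀ (norm_nonneg _) (norm_sub_le (M.ub (d :: P)) (M.ub (sib (d :: P)))) 2
    rw [Model.vs]
    nlinarith [sq_nonneg (‖M.ub (d :: P)‖ - ‖M.ub (sib (d :: P))‖)]

theorem surf_mono (e w : HH) (c lo hi : ℝ) {G G' : Om → ℝ≥0∞} (h : ∀ ω, G ω ≤ G' ω) :
    surf e w c lo hi G ≤ surf e w c lo hi G' :=
  lintegral_mono fun _ => mul_le_mul_left (h _) _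

theorem surf_add (hT3 : St_T3) (e w : HH) (c lo hi : ℝ) {G : Om → ℝ≥0∞} (hG : Measurable G)
    (G' : Om → ℝ≥0∞) :
    surf e w c lo hi (fun ω => G ω + G' ω) = surf e w c lo hi G + surf e w c lo hi G' := by
  have hτ : Measurable fun ω : Om => (ω e + c) / ⟪w, e⟫ := ((meas_ev e).add_const c).div_const _
  have hs : Measurable fun ω : Om => ω - ((ω e + c) / ⟪w, e⟫) • dv w :=
    meas_Om.2 fun v => (meas_ev v).sub (hτ.mul_const _)
  simp only [surf, add_mul]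
  refine lintegral_add_left ((hG.comp hs).mul
    ((hT3.2.2.2.2.2.2.2.2.2.2.2.1 _ _ (hτ measurableSet_Ioc)).1.mul
      (ENNReal.measurable_ofReal.comp ((Real.measurable_exp.comp ((hτ.mul (meas_ev w)).sub
        (((hτ.pow_const 2).mul_const _).div_const _))).div_const _)))) _

def SS (f : Dy → Dg → Om → ℝ≥0∞) : ℝ≥0∞ := ∑' P : Dy, ∑ d, ∫⁻ ω, f P d ω ∂gm

theorem SS_mono {f g : Dy → Dg → Om → ℝ≥0∞} (h : ∀ P d ω, f P d ω ≤ g P d ω) : SS f ≤ SS g :=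
  ENNReal.tsum_le_tsum fun P => Finset.sum_le_sum fun d _ => lintegral_mono (h P d)

theorem SS_add (f : Dy → Dg → Om → ℝ≥0∞) {g : Dy → Dg → Om → ℝ≥0∞}
    (h : ∀ P d, Measurable (g P d)) : SS (fun P d ω => f P d ω + g P d ω) = SS f + SS g := by
  simp only [SS, lintegral_add_right _ (h _ _), Finset.sum_add_distrib, ENNReal.tsum_add]

theorem SS_mul (c : ℝ) (f : Dy → Dg → Om → ℝ≥0∞) :
    SS (fun P d ω => ENNReal.ofReal c * f P d ω) = ENNReal.ofReal c * SS f := by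
  simp only [SS, lintegral_const_mul' _ _ ENNReal.ofReal_ne_top, ← Finset.mul_sum,
    ENNReal.tsum_mul_left]

theorem SS_sum (s : Finset ℕ) {g : ℕ → Dy → Dg → Om → ℝ≥0∞}
    (h : ∀ i P d, Measurable (g i P d)) :
    SS (fun P d ω => ∑ i ∈ s, g i P d ω) = ∑ i ∈ s, SS (g i) := by
  simp only [SS, lintegral_finsetSum _ fun i _ => h i _ _]
  rw [← Summable.tsum_finsetSum fun _ _ => ENNReal.summable]
  exact tsum_congr fun P => Finset.sum_comm

theorem tsum_cons (f : Dy → ℝ≥0∞) (h : f [] = 0) : ∑' S, f S = ∑' P : Dy, ∑ d : Dg, f (d :: P) := by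
  have hi : Function.Injective fun q : Dy × Dg => q.2 :: q.1 := fun q q' hq =>
    Prod.ext (List.cons.inj hq).2 (List.cons.inj hq).1
  rw [← hi.tsum_eq (f := f), ENNReal.tsum_prod']
  · simp only [tsum_fintype]
  · intro S hS
    cases S with
    | nil => exact absurd h hS
    | cons d P => exact ⟨(P, d), rfl⟩

theorem meas_cG (hT3 : St_T3) (J n : ℕ) (S : Dy) : MeasurableSet {x | cG J n S x} := by
  have hxi : Measurable fun x => xi x S := measurable_const.add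
    (Finset.measurable_sum _ fun d _ => hT3.1.comp (hT3.2.2.2.2.1 _))
  have hsh : Measurable fun x => sh x 1 :=
    hT3.2.2.2.2.2.1.comp (measurable_id.prodMk measurable_const)
  exact ((hT3.2.1 S).2.inter ((measurableSet_le hT3.1 measurable_const).inter
    ((measurableSet_lt measurable_const (hT3.1.add hxi)).inter
      (measurableSet_le measurable_const (measurable_const.mul hT3.1))))).inter
    ((MeasurableSet.const _).union (measurableSet_lt measurable_const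
      (hT3.1.comp ((hT3.2.2.2.2.1 _).comp hsh)))).compl

theorem meas_G (hT3 : St_T3) (M : Model) (γ : ℝ) (J n : ℕ) (S : Dy) (Φ : Finset Dy → ℝ) :
    Measurable fun ω => ind (cG J n S (M.X γ 0 ω)) * ENNReal.ofReal (Φ (tr (M.X γ 0 ω))) :=
  ((hT3.2.2.2.2.2.2.2.2.2.2.2.1 _ _ (meas_cG hT3 J n S)).1.mul (meas_Phi hT3 Φ)).comp
    (hT3.2.2.2.2.2.2.2.2.2.2.1 M γ 0).1

theorem meas_tmX (hT : St_T1) (hT3 : St_T3) (M : Model) (γ : ℝ) (m : ℕ) (Φ : Finset Dy → ℝ)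
    {p : Dg → (Dy → ℝ) → Prop} (h : SgP p) (P : Dy) (d : Dg) :
    Measurable fun ω => tm m Φ p P d (M.X γ 0 ω) :=
  (meas_tm hT hT3 m Φ h P d).comp (hT3.2.2.2.2.2.2.2.2.2.2.1 M γ 0).1

theorem meas_er (hT : St_T1) (hT3 : St_T3) (J n : ℕ) (μ δ Mx η : ℝ) (P : Dy) (d : Dg) :
    Measurable fun q : (Dy → ℝ) × ℝ => er J n μ δ Mx η P d q.1 q.2 := by
  have hsh : ∀ A, Measurable fun q : (Dy → ℝ) × ℝ => nB (sub (sh q.1 (1 / 4)) A) := fun A =>
    hT3.1.comp ((hT3.2.2.2.2.1 _).comp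
      (hT3.2.2.2.2.2.1.comp (measurable_fst.prodMk measurable_const)))
  have hn : Measurable fun q : (Dy → ℝ) × ℝ => nB q.1 := hT3.1.comp measurable_fst
  refine Measurable.add ((hT3.2.2.2.2.2.2.2.2.2.2.2.1 _ _ ?_).1.mul
    (ENNReal.measurable_ofReal.comp (Real.measurable_exp.comp measurable_snd)))
    (Finset.measurable_sum _ fun m _ => ((meas_tm hT hT3 _ _ (sg_E _ _) P d).comp
      measurable_fst).add (measurable_const.mul ((meas_tm hT hT3 _ _ (sg_D _) P d).comp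
      measurable_fst)))
  exact (measurable_fst (hT3.2.1 P).1).inter ((measurableSet_le
    ((measurable_pi_apply _).comp measurable_fst).abs measurable_const).inter
    ((measurableSet_le measurable_const (hn.add_const _)).inter
    ((measurableSet_le hn measurable_const).inter
    ((measurableSet_le ((Finset.measurable_sum _ fun c _ => hsh _).add (hsh _))
      measurable_const).inter (measurableSet_le measurable_const measurable_snd)))))

theorem compare (hB : St_BMP) (hT : St_T1) (hT3 : St_T3) (hSI : St_SI) :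
    ∃ C ≥ (1 : ℝ), ∀ (Mx η : ℝ), 0 < η → ∀ᶠ μ in 𝓝[>] (0 : ℝ), ∀ (γ : ℝ) (M : Model),
      box [] ⊆ M.O → ∀ (J n : ℕ) (Λ : ℝ) (Φ : Finset Dy → ℝ), 2 * J ≤ n → 1 ≤ n → Cls Λ Φ →
      |Λ| * J / n ≤ η / 2 → ∀ A B E : ℝ≥0∞,
      A = ∑' S : Dy, M.sf γ S (fun ω => ind (cG J n S (M.X γ 0 ω)) *
        ENNReal.ofReal (Φ (tr (M.X γ 0 ω)))) →
      B = ∑ i ∈ Finset.Icc 1 J, ENNReal.ofReal μ⁻¹ * Tm M γ (n + i) Φ (pF J μ i) →
      E = ENNReal.ofReal μ⁻¹ * SS (fun P d ω =>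
        er J n μ (C * μ) Mx η P d (M.X γ 0 ω) |ω (M.vs (d :: P))|) →
      A ≤ B + E ∧ B ≤ A + E := by
  obtain ⟨E, C, hE, hC, hg⟩ := geom hB
  have hb := hB.1
  refine ⟨max (C / bb) 1, le_max_right _ _, fun Mx η hη => ?_⟩
  have hsm : ∀ a b : ℝ, 0 < b → ∀ᶠ μ in 𝓝[>] (0 : ℝ), a * μ ≤ b := fun a b hb =>
    mem_nhdsWithin_of_mem_nhds ((continuous_const_mul a).continuousAt.eventually
      (p := fun t => t ≤ b) (by simp only [mul_zero]; exact ge_mem_nhds hb))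
  filter_upwards [self_mem_nhdsWithin, hsm bb⁻¹ 1 one_pos, hsm (max (C / bb) 1) (3 / 4)
    (by norm_num), hsm (bb⁻¹ * (|Mx| + 2 * E)) (min 1 (η / 4)) (by positivity)]
    with μ hμ m1 m2 m3 γ M hM J n Λ Φ hn hn1 hΦ hΛ A B E' hA hB' hE'
  have hμ : 0 < μ := hμ
  obtain ⟨g0, g1⟩ := hg M hM
  have hX := (hT3.2.2.2.2.2.2.2.2.2.2.1 M γ 0).1
  set a : Dy → Dg → Om → ℝ≥0∞ := fun P d ω => ind (M.X γ 0 ω (d :: P) ∈ Ioc 0 μ) *
    (ind (cG J n (d :: P) (M.X γ 0 (ω - (M.X γ 0 ω (d :: P) / bb) • dv (M.vs (d :: P))))) *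
      ENNReal.ofReal (Φ (tr (M.X γ 0 (ω - (M.X γ 0 ω (d :: P) / bb) • dv (M.vs (d :: P)))))) *
      ENNReal.ofReal (Real.exp (M.X γ 0 ω (d :: P) / bb * ω (M.vs (d :: P)) -
        (M.X γ 0 ω (d :: P) / bb) ^ 2 * ‖M.vs (d :: P)‖ ^ 2 / 2))) with ha
  have e1 : A = ENNReal.ofReal μ⁻¹ * SS a := by
    rw [hA, tsum_cons _ (by simp [Model.sf, surf, cG, ind]), ← SS_mul]
    refine tsum_congr fun P => Finset.sum_congr rfl fun d _ => ?_
    rw [Model.sf, hSI _ _ (M.vs (d :: P)) _ 0 1 0 (μ / bb) _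
      (meas_G hT3 M γ J n _ Φ) (g0 _) ((g1 P d).1 ▸ hb) one_pos (by positivity), surf, (g1 P d).1]
    refine lintegral_congr fun ω => ?_
    have hx : ω (M.eS (d :: P)) + -(QQ γ * (d :: P).length * l2) = M.X γ 0 ω (d :: P) := by
      simp only [Model.X, drift]; ring
    rw [hx, sub_zero, div_mul_cancel₀ _ hb.ne', div_eq_inv_mul (Real.exp _),
      ENNReal.ofReal_mul (inv_nonneg.2 hμ.le), ind_iff (p := _ ∈ Ioc 0 (μ / bb))
        (q := M.X γ 0 ω (d :: P) ∈ Ioc 0 μ) (by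
        simp only [mem_Ioc, div_le_div_iff_of_pos_right hb, div_pos_iff_of_pos_right hb])]
    simp only [ha, Function.comp]
    ring
  have e2 : B = ENNReal.ofReal μ⁻¹ * SS fun P d ω =>
      ∑ i ∈ Finset.Icc 1 J, tm (n + i) Φ (pF J μ i) P d (M.X γ 0 ω) := by
    rw [hB', SS_sum _ fun i P d => meas_tmX hT hT3 M γ (n + i) Φ (sg_F hT J μ i) P d,
      Finset.mul_sum]
    rfl
  have hme : ∀ P d, Measurable fun ω : Om =>
      er J n μ (max (C / bb) 1 * μ) Mx η P d (M.X γ 0 ω) |ω (M.vs (d :: P))| := fun P d =>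
    (meas_er hT hT3 J n μ _ Mx η P d).comp (hX.prodMk (meas_ev _).abs)
  rw [e1, e2, hE', ← mul_add, ← mul_add, ← SS_add _ hme, ← SS_add _ hme]
  suffices h : ∀ P d ω, a P d ω ≤
      ∑ i ∈ Finset.Icc 1 J, tm (n + i) Φ (pF J μ i) P d (M.X γ 0 ω) +
        er J n μ (max (C / bb) 1 * μ) Mx η P d (M.X γ 0 ω) |ω (M.vs (d :: P))| ∧
      ∑ i ∈ Finset.Icc 1 J, tm (n + i) Φ (pF J μ i) P d (M.X γ 0 ω) ≤ a P d ω +
        er J n μ (max (C / bb) 1 * μ) Mx η P d (M.X γ 0 ω) |ω (M.vs (d :: P))| from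
    ⟨mul_le_mul_right (SS_mono fun P d ω => (h P d ω).1) _,
      mul_le_mul_right (SS_mono fun P d ω => (h P d ω).2) _⟩
  intro P d ω
  simp only [ha]
  by_cases hw : M.X γ 0 ω (d :: P) ∈ Ioc 0 μ
  swap
  · rw [ind_f hw, sum_tm, ind_f (p := cH J n μ P d (M.X γ 0 ω)) fun ⟨i, _, h'⟩ => hw h'.2.2.1.2]
    simp
  rw [ind_t hw, one_mul]
  obtain ⟨g2, g3, g4, g5⟩ := g1 P d
  set t := M.X γ 0 ω (d :: P) / bb with ht
  have t0 : 0 < t := div_pos hw.1 hb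
  have t1 : t ≤ bb⁻¹ * μ := by rw [ht, ← div_eq_inv_mul]; gcongr; exact hw.2
  have t2 : t ≤ 1 := t1.trans m1
  have hsh : ∀ B, M.X γ 0 (ω - t • dv (M.vs (d :: P))) B =
      M.X γ 0 ω B - t * ⟪M.vs (d :: P), M.eS B⟫ := fun B => by
    simp only [Model.X, drift, LinearMap.sub_apply, LinearMap.smul_apply, dv_apply, smul_eq_mul]
    ring
  have q0 : 0 ≤ t ^ 2 * ‖M.vs (d :: P)‖ ^ 2 / 2 := by positivity
  have q1 : |t * ω (M.vs (d :: P))| = t * |ω (M.vs (d :: P))| := by rw [abs_mul, abs_of_pos t0]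
  refine pointwise hT ⟨fun B hB => ?_, fun B => ?_, m2, ?_, hw.1⟩ hw.2
    (le_mul_of_one_le_left hμ.le (le_max_right _ _)) hn hn1 hΦ hΛ (Real.exp_pos _).le
    (abs_nonneg _) (Real.exp_le_exp.2 ?_) fun hs => ?_
  · rw [hsh, g4 B hB, mul_zero, sub_zero]
  · rw [hsh, sub_sub_cancel_left, abs_neg, abs_mul, abs_of_pos t0]
    calc _ ≤ bb⁻¹ * μ * C := by gcongr; exact g3 B
      _ = C / bb * μ := by ring
      _ ≤ _ := by gcongr; exact le_max_left _ _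
  · rw [hsh, g2, ht, div_mul_cancel₀ _ hb.ne', sub_self]
  · have := mul_le_of_le_one_left (abs_nonneg (ω (M.vs (d :: P)))) t2
    linarith [le_abs_self (t * ω (M.vs (d :: P)))]
  · have q2 : |t * ω (M.vs (d :: P)) - t ^ 2 * ‖M.vs (d :: P)‖ ^ 2 / 2| ≤ min 1 (η / 4) := by
      refine (abs_sub _ _).trans (le_trans ?_ m3)
      rw [q1, abs_of_nonneg q0]
      have q3 := hs.le.trans (le_abs_self Mx)
      generalize |ω (M.vs (d :: P))| = s at q3 ⊢
      calc _ ≤ t * |Mx| + t * 1 * (4 * E) / 2 := by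
            rw [pow_two t]
            gcongr
        _ = t * (|Mx| + 2 * E) := by ring
        _ ≤ bb⁻¹ * μ * (|Mx| + 2 * E) := by gcongr
        _ = _ := by ring
    linarith [Real.abs_exp_sub_one_le (q2.trans (min_le_left _ _)), q2.trans (min_le_right _ _)]

theorem fin_real {a E : ℝ≥0∞} {b N e : ℝ} (ha : a ≠ ∞) (hb : 0 ≤ b) (hN : 0 ≤ N) (he : 0 ≤ e)
    (h1 : a ≤ ENNReal.ofReal b + E) (h2 : ENNReal.ofReal b ≤ a + E)
    (h3 : ENNReal.ofReal N * E ≤ ENNReal.ofReal e) : |N * a.toReal - N * b| ≤ e := by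
  have key : ∀ u v : ℝ, 0 ≤ v → ENNReal.ofReal u ≤ ENNReal.ofReal v + E → N * u ≤ N * v + e := by
    intro u v hv h
    refine (ENNReal.ofReal_le_ofReal_iff (by positivity)).1 ?_
    rw [ENNReal.ofReal_add (by positivity) he, ENNReal.ofReal_mul hN, ENNReal.ofReal_mul hN]
    exact (mul_le_mul_right h _).trans ((mul_add _ _ _).trans_le (add_le_add_right h3 _))
  rw [← ENNReal.ofReal_toReal ha] at h1 h2
  have := key _ _ hb h1
  have := key _ _ ENNReal.toReal_nonneg h2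
  rw [abs_le]
  constructor <;> linarith

section
variable (hT : St_T1) (hT3 : St_T3) (hR : St_R) (hPA : St_PA) (hL : St_LLE) {γ : ℝ}
  (hγ : γ ∈ Ioo (0 : ℝ) 2) (hθ : 0 < th γ) (M : Model) (hM : box [] ⊆ M.O) {A : ℝ}
  (hA : ∀ Φ : Finset Dy → ℝ, (∀ T, 0 ≤ Φ T ∧ Φ T ≤ 1) → ∀ m, 0 ≤ M.aL γ Φ m ∧ M.aL γ Φ m ≤ A)
include hT hT3 hR hPA hL hγ hθ hM hA

theorem bound_T {p : Dg → (Dy → ℝ) → Prop} (h : SgP p) {μ ε K : ℝ} (hμ : 0 < μ) (hε : 0 < ε)
    (hK : cc γ (Fn μ p) ≤ K) (J : ℕ) : ∀ᶠ n : ℕ in atTop, ∀ m ∈ Finset.Icc (n - J) (n + J),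
      ENNReal.ofReal ((n : ℝ) ^ (th γ + 1)) * (ENNReal.ofReal μ⁻¹ * Tm M γ m oneT p) ≤
        ENNReal.ofReal (2 ^ (th γ + 1) * (K / cc γ one * A + ε)) := by
  obtain ⟨N, hN⟩ := eventually_atTop.1 (link hT hT3 hPA hL hγ M hM h hμ hε)
  filter_upwards [eventually_ge_atTop (N + J), eventually_ge_atTop (2 * J)] with n h1 h2 m hm
  rw [Finset.mem_Icc] at hm
  have h1T : ∀ T, 0 ≤ oneT T ∧ oneT T ≤ 1 := fun _ => ⟨zero_le_one, le_rfl⟩
  obtain ⟨r, hr0, hr1, hr2⟩ := hN m (by omega) oneT h1T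
  rw [hr1, ← ENNReal.ofReal_mul (by positivity)]
  refine ENNReal.ofReal_le_ofReal ?_
  have h3 : (n : ℝ) ≤ 2 * m := by norm_cast; omega
  have h4 := hA oneT h1T m
  have h5 := (hR γ hγ).2.2.2.2.2.2
  have h6 := (hR γ hγ).2.1 (Fn μ p)
  have h7 : cc γ (Fn μ p) / cc γ one * M.aL γ oneT m ≤ K / cc γ one * A :=
    mul_le_mul (by gcongr) h4.2 h4.1 (div_nonneg (h6.trans hK) h5.le)
  calc _ ≤ (2 * m : ℝ) ^ (th γ + 1) * r := by gcongr
    _ = 2 ^ (th γ + 1) * ((m : ℝ) ^ (th γ + 1) * r) := by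
        rw [Real.mul_rpow (by norm_num) (by positivity), mul_assoc]
    _ ≤ _ := by gcongr; linarith [(abs_le.1 hr2).2]

theorem main_T {p : Dg → (Dy → ℝ) → Prop} (h : SgP p) {μ ε : ℝ} (hμ : 0 < μ) (hε : 0 < ε)
    (i : ℕ) : ∀ᶠ n : ℕ in atTop, ∀ Φ : Finset Dy → ℝ, (∀ T, 0 ≤ Φ T ∧ Φ T ≤ 1) → ∃ r : ℝ, 0 ≤ r ∧
      ENNReal.ofReal μ⁻¹ * Tm M γ (n + i) Φ p = ENNReal.ofReal r ∧
      |(n : ℝ) ^ (th γ + 1) * r - cc γ (Fn μ p) / cc γ one * M.aL γ Φ (n + i)| ≤ 2 * ε := by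
  have hw : 0 ≤ cc γ (Fn μ p) / cc γ one := div_nonneg ((hR γ hγ).2.1 _) ((hR γ hγ).2.1 _)
  have h1 : Tendsto (fun n : ℕ => (1 - ((n : ℝ) / (n + i)) ^ (th γ + 1)) *
      (cc γ (Fn μ p) / cc γ one * A)) atTop (𝓝 0) := by
    have := (((tendsto_natCast_div_add_atTop (i : ℝ)).rpow_const (p := th γ + 1)
      (Or.inl one_ne_zero)).const_sub 1).mul_const (cc γ (Fn μ p) / cc γ one * A)
    simpa using this
  filter_upwards [(tendsto_add_atTop_nat i).eventually (link hT hT3 hPA hL hγ M hM h hμ hε),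
    h1.eventually (ge_mem_nhds hε), eventually_ge_atTop 1] with n h2 h3 h4 Φ hΦ
  obtain ⟨r, hr0, hr1, hr2⟩ := h2 Φ hΦ
  refine ⟨r, hr0, hr1, ?_⟩
  have hn : (0 : ℝ) < n := by exact_mod_cast h4
  set q := ((n : ℝ) / (n + i)) ^ (th γ + 1) with hq
  have q0 : 0 ≤ q := by positivity
  have q1 : q ≤ 1 := Real.rpow_le_one (by positivity)
    ((div_le_one (by positivity)).2 (by simp)) (by linarith)
  have q2 : (n : ℝ) ^ (th γ + 1) = q * ((n + i : ℕ) : ℝ) ^ (th γ + 1) := by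
    rw [hq, ← Real.mul_rpow (by positivity) (by positivity), Nat.cast_add,
      div_mul_cancel₀ _ (by positivity)]
  have h5 := hA Φ hΦ (n + i)
  have h6 := mul_le_mul_of_nonneg_left h5.2 hw
  have h7 := mul_nonneg hw h5.1
  rw [q2, mul_assoc]
  generalize ((n + i : ℕ) : ℝ) ^ (th γ + 1) * r = y at hr2 ⊢
  generalize cc γ (Fn μ p) / cc γ one * M.aL γ Φ (n + i) = z at hr2 h6 h7 ⊢
  rw [abs_le] at hr2 ⊢
  constructor <;> nlinarith [hr2.1, hr2.2]

end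

end F2

open F2 in
theorem blk_F2 (_hG1 : St_G1) (_hD : St_G1D) (_hMOD : St_MOD) (hB : St_BMP) (hT : St_T1)
    (hT3 : St_T3) (hRW : St_RW1) (hSI : St_SI) (hR0 : St_R0) (hR : St_R) (hPA : St_PA)
    (hE : St_F2E) (hF : St_F2T) (hL : St_LLE) : St_F2 := by
  intro γ hγ M hM Λ η hη
  have hθ := (hRW.2.2 γ hγ).2.2.1
  have hc1 := (hR γ hγ).2.2.2.2.2.2
  obtain ⟨A, hA⟩ : ∃ A : ℝ, ∀ Φ : Finset Dy → ℝ, (∀ T, 0 ≤ Φ T ∧ Φ T ≤ 1) →
      ∀ m, 0 ≤ M.aL γ Φ m ∧ M.aL γ Φ m ≤ A := by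
    obtain ⟨m0, h⟩ := (hL γ hγ M hM _ ((sg_D 1).adm hT hT3 hPA hγ one_pos) 1 one_pos).exists
    obtain ⟨-, -, A, hA⟩ := h oneT fun _ => ⟨zero_le_one, le_rfl⟩
    refine ⟨A, fun Φ hΦ m => ?_⟩
    obtain ⟨-, -, _, h'⟩ := h Φ hΦ
    exact ⟨(h' m).1, (h' m).2.1.trans (hA m).2.2⟩
  have hA0 : 0 ≤ A := by
    have := hA oneT (fun _ => ⟨zero_le_one, le_rfl⟩) 0
    exact this.1.trans this.2
  obtain ⟨J, hJ⟩ := hE γ hγ M hM (η / 4) (by positivity)
  obtain ⟨Mx, hMx⟩ := hF γ hγ M hM (5 * J + 1) (η / 4) (by positivity)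
  obtain ⟨K, hK0, hK⟩ := cc_D hT hT3 hR0 hR hPA hγ
  obtain ⟨C, -, hC⟩ := compare hB hT hT3 hSI
  set Z : ℝ := (2 * (5 * J + 1) + 1 : ℕ) *
    (2 ^ (th γ + 1) * (A / cc γ one + 2 + K / cc γ one * A)) + 2 * J + 1 with hZ
  have hZ0 : 0 < Z := by positivity
  set ε := min 1 (η / 4 / Z) with hε
  have hε0 : 0 < ε := by positivity
  have hε1 : ε ≤ 1 := min_le_left _ _
  have hε2 : ε * Z ≤ η / 4 := (le_div_iff₀ hZ0).1 (min_le_right _ _)
  obtain ⟨μ, ⟨m1, m2⟩, m3⟩ := (((hC Mx ε hε0).and (cc_E hT hT3 hR0 hR hPA hγ J C hε0)).and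
    (Ioc_mem_nhdsGT one_pos)).exists
  refine ⟨J, fun i => cc γ (Fn μ (pF J μ i)) / cc γ one,
    fun i => div_nonneg ((hR γ hγ).2.1 _) hc1.le, ?_⟩
  have hΛ : ∀ᶠ n : ℕ in atTop, |Λ| * J / n ≤ ε / 2 :=
    (tendsto_const_div_atTop_nhds_zero_nat (|Λ| * J)).eventually (ge_mem_nhds (by positivity))
  filter_upwards [hJ, hMx, hΛ, eventually_ge_atTop (2 * J), eventually_ge_atTop 1,
    bound_T hT hT3 hR hPA hL hγ hθ M hM hA (sg_E J (C * μ)) m3.1 hε0 m2 (5 * J + 1),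
    bound_T hT hT3 hR hPA hL hγ hθ M hM hA (sg_D μ) m3.1 hε0 (hK μ m3) (5 * J + 1),
    (eventually_all_finset (Finset.Icc 1 J)).2 fun i _ =>
      main_T hT hT3 hR hPA hL hγ hθ M hM hA (sg_F hT J μ i) m3.1 hε0 i]
    with n n1 n2 n3 n4 n5 n6 n7 n8 Φ hΦ hfl
  obtain ⟨c1, c2⟩ := m1 γ M hM J n Λ Φ n4 n5 hΦ n3 _ _ _ rfl rfl rfl
  choose! r hr0 hr1 hr2 using fun i hi => n8 i hi Φ hΦ.1
  rw [Finset.sum_congr rfl hr1, ← ENNReal.ofReal_sum_of_nonneg hr0] at c1 c2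
  set N := (n : ℝ) ^ (th γ + 1) with hN
  have hN0 : 0 ≤ N := by positivity
  set E1 := ∑' S : Dy, M.sf γ S (fun ω => ind (Cross n S (M.X γ 0 ω) ∧
    (S = [] ∨ (J : ℝ≥0∞) < nB (sub (sh (M.X γ 0 ω) 1) S.tail)))) with hE1
  set E2 := ENNReal.ofReal μ⁻¹ * SS (fun P d ω =>
    er J n μ (C * μ) Mx ε P d (M.X γ 0 ω) |ω (M.vs (d :: P))|) with hE2
  set A1 := ∑' S : Dy, M.sf γ S (fun ω => ind (cG J n S (M.X γ 0 ω)) *
    ENNReal.ofReal (Φ (tr (M.X γ 0 ω)))) with hA1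
  have f1 : A1 ≤ M.fl γ Φ n := ENNReal.tsum_le_tsum fun S => surf_mono _ _ _ _ _ fun ω =>
    mul_le_mul_left (ind_mono fun h => h.1) _
  have f2 : M.fl γ Φ n ≤ A1 + E1 := by
    rw [hA1, hE1, ← ENNReal.tsum_add]
    refine ENNReal.tsum_le_tsum fun S => le_trans (surf_mono _ _ _ _ _ fun ω => ?_)
      (surf_add hT3 _ _ _ _ _ (meas_G hT3 M γ J n S Φ) _).le
    by_cases h : S = [] ∨ (J : ℝ≥0∞) < nB (sub (sh (M.X γ 0 ω) 1) S.tail)
    · refine le_trans ?_ le_add_self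
      exact (mul_le_of_le_one_right' (ENNReal.ofReal_le_one.2 (hΦ.1 _).2)).trans
        (ind_mono fun h' => ⟨h', h⟩)
    · exact le_trans (mul_le_mul_left (ind_mono fun h' => ⟨h', h⟩) _) le_self_add
  have f3 : ENNReal.ofReal N * E2 ≤ ENNReal.ofReal (η / 4) + ENNReal.ofReal (η / 4) := by
    have mD : ∀ m P d, Measurable fun ω => ENNReal.ofReal ε * tm m oneT (pD μ) P d (M.X γ 0 ω) :=
      fun m P d => measurable_const.mul (meas_tmX hT hT3 M γ m oneT (sg_D μ) P d)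
    have mE : ∀ m P d, Measurable fun ω => tm m oneT (pE J (C * μ)) P d (M.X γ 0 ω) +
        ENNReal.ofReal ε * tm m oneT (pD μ) P d (M.X γ 0 ω) :=
      fun m P d => (meas_tmX hT hT3 M γ m oneT (sg_E J (C * μ)) P d).add (mD m P d)
    have mS : ∀ P d, Measurable fun ω => ∑ m ∈ Finset.Icc (n - (5 * J + 1)) (n + (5 * J + 1)),
        (tm m oneT (pE J (C * μ)) P d (M.X γ 0 ω) +
        ENNReal.ofReal ε * tm m oneT (pD μ) P d (M.X γ 0 ω)) :=
      fun P d => Finset.measurable_sum _ fun m _ => mE m P d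
    rw [hE2]
    simp only [er]
    rw [SS_add _ mS, SS_sum _ mE, mul_add, mul_add]
    refine add_le_add ?_ ?_
    · rw [mul_left_comm]
      refine (mul_le_mul_right (n2 μ m3) _).trans (le_of_eq ?_)
      rw [← ENNReal.ofReal_mul (inv_nonneg.2 m3.1.le), mul_comm (η / 4),
        inv_mul_cancel_left₀ m3.1.ne']
    rw [Finset.mul_sum, Finset.mul_sum]
    refine (Finset.sum_le_card_nsmul _ _ (ENNReal.ofReal (ε * (2 ^ (th γ + 1) *
      (A / cc γ one + 2 + K / cc γ one * A)))) fun m hm => ?_).trans ?_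
    · rw [SS_add _ (mD m), SS_mul, mul_add, mul_add, mul_left_comm _ (ENNReal.ofReal ε),
        mul_left_comm _ (ENNReal.ofReal ε)]
      refine (add_le_add (n6 m hm) (mul_le_mul_right (n7 m hm) _)).trans ?_
      rw [← ENNReal.ofReal_mul hε0.le, ← ENNReal.ofReal_add (by positivity) (by positivity)]
      refine ENNReal.ofReal_le_ofReal ?_
      calc _ ≤ 2 ^ (th γ + 1) * (ε / cc γ one * A + ε) +
            ε * (2 ^ (th γ + 1) * (K / cc γ one * A + 1)) := by gcongr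
        _ = _ := by ring
    · rw [nsmul_eq_mul, ← ENNReal.ofReal_natCast, ← ENNReal.ofReal_mul (by positivity)]
      refine ENNReal.ofReal_le_ofReal (le_trans ?_ hε2)
      have : ((Finset.Icc (n - (5 * J + 1)) (n + (5 * J + 1))).card : ℝ) ≤
          (2 * (5 * J + 1) + 1 : ℕ) := by
        rw [Nat.card_Icc]; norm_cast; omega
      rw [mul_left_comm, hZ]
      gcongr
      refine le_trans ?_ ((le_add_of_nonneg_right (by positivity)).trans
        (le_add_of_nonneg_right zero_le_one))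
      gcongr
  have f4 := fin_real (E := E1 + E2) (e := η / 4 + (η / 4 + η / 4)) hfl
    (Finset.sum_nonneg hr0) hN0 (by positivity)
    (f2.trans ((add_le_add_left c1 _).trans_eq (by ring)))
    (c2.trans (add_le_add f1 le_add_self)) (by
      rw [mul_add, ENNReal.ofReal_add (by positivity) (by positivity),
        ENNReal.ofReal_add (by positivity) (by positivity)]
      exact add_le_add n1 f3)
  have f5 : |N * ∑ i ∈ Finset.Icc 1 J, r i - ∑ i ∈ Finset.Icc 1 J,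
      cc γ (Fn μ (pF J μ i)) / cc γ one * M.aL γ Φ (n + i)| ≤ η / 4 := by
    rw [Finset.mul_sum, ← Finset.sum_sub_distrib]
    refine (Finset.abs_sum_le_sum_abs _ _).trans ((Finset.sum_le_card_nsmul _ _ _ hr2).trans
      (le_trans ?_ hε2))
    rw [nsmul_eq_mul, Nat.card_Icc, Nat.add_sub_cancel, hZ]
    have : 0 ≤ ε * ((2 * (5 * J + 1) + 1 : ℕ) *
      (2 ^ (th γ + 1) * (A / cc γ one + 2 + K / cc γ one * A))) := by positivity
    nlinarith
  refine (abs_sub_le _ (N * ∑ i ∈ Finset.Icc 1 J, r i) _).trans ?_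
  rw [Model.flR]
  linarith

end

end Pool.Agent.Lib.APPS
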