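import Pool.Agent.Lib.APPS.B_F2Ec

/-! Block F2E: large jumps do not contribute to the flux. -/

namespace Pool.Agent.Lib.APPS

open MeasureTheory ProbabilityTheory Filter Topology Set Metric
open scoped NNReal ENNReal RealInnerProductSpace Classical

namespace F2E

open UL

lemma tail {q : ℝ} (hq : 1 < q) {ε : ℝ} (hε : 0 < ε) : ∃ J : ℕ, ∀ n : ℕ,
    ∑ j ∈ Finset.Icc 1 n, ((max J j : ℕ) : ℝ) ^ (-q) ≤ ε := by
  have hs : Summable fun j : ℕ => ((j + 1 : ℕ) : ℝ) ^ (-q) :=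
    (summable_nat_add_iff (f := fun j : ℕ => (j : ℝ) ^ (-q)) 1).2
      (Real.summable_nat_rpow.2 (by linarith))
  have hb : ∀ J j : ℕ, ‖((max J (j + 1) : ℕ) : ℝ) ^ (-q)‖ ≤ ((j + 1 : ℕ) : ℝ) ^ (-q) := by
    intro J j
    rw [Real.norm_of_nonneg (by positivity)]
    exact Real.rpow_le_rpow_of_nonpos (by positivity) (by exact_mod_cast le_max_right _ _)
      (by linarith)
  have h := tendsto_tsum_of_dominated_convergence (𝓕 := atTop)
    (f := fun J j : ℕ => ((max J (j + 1) : ℕ) : ℝ) ^ (-q)) (g := fun _ => 0) hs (fun j =>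
      (tendsto_rpow_neg_atTop (by linarith)).comp (tendsto_natCast_atTop_atTop.comp
        (tendsto_atTop_mono (fun J => le_max_left J (j + 1)) tendsto_id)))
    (Eventually.of_forall hb)
  rw [tsum_zero] at h
  obtain ⟨J, hJ⟩ := (h.eventually (gt_mem_nhds hε)).exists
  refine ⟨J, fun n => le_trans ?_ hJ.le⟩
  rw [← Finset.Ico_add_one_right_eq_Icc, Finset.sum_Ico_eq_sum_range]
  simp only [add_comm 1]
  exact (hs.of_norm_bounded (hb J)).sum_le_tsum _ fun _ _ => by positivity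

lemma ev_split (hT1 : St_T1) {n J : ℕ} {c : ℝ} (hc : 1 ≤ c) {S : Dy} {x : Dy → ℝ}
    (h : Ev n J S x) : Vq c n n S x ∨ ∃ j ∈ Finset.Icc 1 n,
      nB x = (n + j : ℕ) ∧ IntN x S ∧ Cq 1 (max J j : ℕ) S x := by
  have hmon := hT1.2.2.2.2.2.2.2.2.2.2.2.2.2.2.2.1
  obtain ⟨e0, e1, e2, e3, e4, N0, e5, e6, -⟩ := h
  by_cases hz : (n : ℝ≥0∞) ≤ nB (sub (sh x 1) S.tail)
  · refine Or.inl ⟨?_, e2.trans hc, ?_⟩ <;> rw [ENNReal.ofReal_natCast]
    · exact e4.le.trans (hmon _ _ fun W => by simp only [sh]; linarith)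
    · exact hz.trans (hmon _ _ fun W => by simp only [sub, sh]; linarith)
  · have h1 : nB (sub x S) ≤ nB (sub (sh x 1) S.tail) := by
      obtain _ | ⟨d, P⟩ := S
      · exact (e0 rfl).elim
      have h2 := hT1.2.2.2.2.2.2.2.2.2.2.2.2.2.2.2.2.2.1 (sub x P) [d]
        ((hT1.2.2.2.2.2.2.2.2.2.2.2.2.2.2.2.2.1 x P [d]).1 e1).2
      refine le_trans (hmon _ _ fun W => ?_) (h2.trans (hmon _ _ fun W => ?_))
      · simp [sub]
      · simp [sub, sh]
    obtain ⟨j, hj, hj'⟩ := nat_of hT1 e4 (e5 ▸ add_le_add e6 (h1.trans (not_le.1 hz).le))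
    refine Or.inr ⟨j, hj, hj', e1, e2, ?_⟩
    rw [ENNReal.ofReal_natCast, Nat.mono_cast.map_max]
    refine max_le e3.le (le_trans ?_ h1)
    refine (ENNReal.add_le_add_iff_left (a := n) (ENNReal.natCast_ne_top _)).1 ?_
    rw [← Nat.cast_add, ← hj', ← e5]
    exact add_le_add_left e6 _

end F2E

open F2E UL in
theorem blk_F2E (_hG1 : St_G1) (hG1D : St_G1D) (hG2 : St_G2) (hMOD : St_MOD) (hBMP : St_BMP)
    (hGEO2 : St_GEO2) (hT1 : St_T1) (hT3 : St_T3) (hRW1 : St_RW1) (hSI : St_SI) (hFM : St_FM)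
    (hRUS : St_RUS) (hNMS : St_NMS) (hFAR : St_FAR) (hMAC : St_MAC) (hU : St_U) (hUL : St_UL) :
    St_F2E := by
  intro γ hγ M hM η hη
  obtain ⟨φ, hφ⟩ := (hMOD M).2.2.2.2.2.2.2.2.2.2.2.2.2.2.2.1 hM
  obtain ⟨B, hB⟩ := (ok_ub hBMP (blk_GEO1 hT1) hGEO2 hT1 M hM hφ).1
  obtain ⟨c0, hc0, hsf⟩ := sf_le hBMP hT1 hT3 hSI γ M hM
  obtain ⟨c, K, K2, ι0, hc, hK, hK2, hmid⟩ := mid hG1D hMOD hBMP hGEO2 hT1 hT3 hU hγ M hM hφ hB
  obtain ⟨q, A, hq, hA, hlate⟩ := late hG2 hMOD hGEO2 hT1 hT3 hFM hNMS hFAR hγ M hM hB c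
  set e := η / (5 * c0) with he
  have he0 : 0 < e := by positivity
  obtain ⟨J, hJ⟩ := tail hq (ε := e / (K * A + 1)) (by positivity)
  obtain ⟨K1, hlate⟩ := hlate (e / (K + 1)) (by positivity)
  refine ⟨J, ?_⟩
  have ev1 := tendsto_natCast_atTop_atTop.eventually (((tendsto_rpow_neg_atTop
    (sub_pos.2 hq)).const_mul A).eventually (gt_mem_nhds (a := e) (by simpa using he0)))
  have ev2 := tendsto_natCast_atTop_atTop.eventually
    (((tendsto_rpow_mul_exp_neg_mul_atTop_nhds_zero (th γ + 1 + 1 + 1) 3 (by norm_num)).const_mul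
      (2 * K2)).eventually (gt_mem_nhds (a := e) (by simpa using he0)))
  filter_upwards [tendsto_natCast_atTop_atTop.eventually hlate, ev1, ev2,
    early hG2 hMOD hT1 hT3 hRW1 hRUS hMAC hUL hγ M hM hB K1 e he0, eventually_ge_atTop 1,
    eventually_ge_atTop ι0] with n h1 h2 h3 h4 hn1 hn0
  have hn : (0 : ℝ) < n := by exact_mod_cast hn1
  set a := (n : ℝ) ^ (th γ + 1) with ha
  have ha0 : 0 < a := by positivity
  have k1 : ∀ S : Dy, ∫⁻ ω, ind (Ev n J S (M.X γ 0 ω)) * eE |ω (M.ub S)| ∂gm ≤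
      ind (S.length ≤ K1) * ∫⁻ ω, ind (Ev n J S (M.X γ 0 ω)) * eE |ω (M.ub S)| ∂gm +
      (ind (K1 < S.length) * ∫⁻ ω, ind (Vq c n n S (M.X γ 0 ω)) * eE |ω (M.ub S)| ∂gm +
      ∑ j ∈ Finset.Icc 1 n, ind (K1 < S.length) * ∫⁻ ω, ind (nB (M.X γ 0 ω) = (n + j : ℕ) ∧
        IntN (M.X γ 0 ω) S ∧ Cq 1 (max J j : ℕ) S (M.X γ 0 ω)) * eE |ω (M.ub S)| ∂gm) := by
    intro S
    by_cases hS : S.length ≤ K1
    · rw [ind_pos hS, one_mul]
      exact le_self_add
    refine le_trans ?_ le_add_self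
    simp only [ind_pos (not_le.1 hS), one_mul]
    rw [← lintegral_finsetSum _ fun j _ =>
      (meas_ind hT3 M γ (meas_Mq hT3 _ _ S)).fun_mul (meas_abs _),
      ← lintegral_add_left ((meas_ind hT3 M γ (meas_Vq hT3 _ _ _ S)).fun_mul (meas_abs _))]
    refine lintegral_mono fun ω => ?_
    rw [← Finset.sum_mul, ← add_mul]
    refine mul_le_mul_left ?_ _
    by_cases hE : Ev n J S (M.X γ 0 ω)
    · rw [ind_pos hE]
      rcases ev_split hT1 hc hE with h | ⟨j, hj, h⟩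
      · exact (ind_pos h).ge.trans le_self_add
      · exact ((ind_pos h).ge.trans (Finset.single_le_sum (f := fun j : ℕ =>
          ind (nB (M.X γ 0 ω) = (n + j : ℕ) ∧ IntN (M.X γ 0 ω) S ∧
            Cq 1 (max J j : ℕ) S (M.X γ 0 ω))) (fun _ _ => zero_le) hj)).trans le_add_self
    · rw [ind_neg hE]
      exact zero_le
  have k2 : ∀ j ∈ Finset.Icc 1 n, ENNReal.ofReal a * ∑' S : Dy, ind (K1 < S.length) *
      ∫⁻ ω, ind (nB (M.X γ 0 ω) = (n + j : ℕ) ∧ IntN (M.X γ 0 ω) S ∧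
        Cq 1 (max J j : ℕ) S (M.X γ 0 ω)) * eE |ω (M.ub S)| ∂gm ≤
      ENNReal.ofReal (K * A * ((max J j : ℕ) : ℝ) ^ (-q) +
        (K * (e / (K + 1)) + e) / n) := by
    intro j hj
    obtain ⟨j1, j2⟩ := Finset.mem_Icc.1 hj
    have hz : (0 : ℝ) < (max J j : ℕ) := by exact_mod_cast lt_of_lt_of_le j1 (le_max_right _ _)
    have hj1 : (n : ℝ) ≤ (n + j : ℕ) := by exact_mod_cast Nat.le_add_right n j
    have hj2 : ((n + j : ℕ) : ℝ) ≤ 2 * n := by exact_mod_cast (by omega : n + j ≤ 2 * n)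
    refine (mul_le_mul_right (hmid (n + j) (by omega) K1 n _ hj1) _).trans ?_
    rw [mul_add, mul_left_comm]
    refine (add_le_add_left (mul_le_mul_right (h1 _ hz) _) _).trans ?_
    rw [eE, ← ENNReal.ofReal_mul (by positivity), ← ENNReal.ofReal_mul (by positivity),
      ← ENNReal.ofReal_mul ha0.le, ← ENNReal.ofReal_add (by positivity) (by positivity)]
    refine ENNReal.ofReal_le_ofReal ?_
    have b1 : K / (n + j : ℕ) * (A * n * ((max J j : ℕ) : ℝ) ^ (-q) + e / (K + 1)) ≤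
        K / n * (A * n * ((max J j : ℕ) : ℝ) ^ (-q) + e / (K + 1)) := by gcongr
    have b2 : K / n * (A * n * ((max J j : ℕ) : ℝ) ^ (-q) + e / (K + 1)) =
        K * A * ((max J j : ℕ) : ℝ) ^ (-q) + K * (e / (K + 1)) / n := by field_simp
    have b3 : a * (Real.exp (-3 * (n + j : ℕ)) * (K2 * (n + j : ℕ))) ≤ e / n := by
      rw [le_div_iff₀ hn]
      rw [Real.rpow_add_one hn.ne', Real.rpow_add_one hn.ne', ← ha] at h3
      calc _ ≤ a * (Real.exp (-3 * n) * (K2 * (2 * n))) * n := by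
            gcongr a * (Real.exp ?_ * (K2 * ?_)) * n
            linarith
        _ = 2 * K2 * (a * n * n * Real.exp (-3 * n)) := by ring
        _ ≤ _ := h3.le
    rw [add_div]
    linarith
  refine (mul_le_mul_right (ENNReal.tsum_le_tsum fun S =>
    (hsf n J hn1 S).trans (mul_le_mul_right (k1 S) _)) _).trans ?_
  rw [ENNReal.tsum_mul_left, mul_left_comm, ENNReal.tsum_add, ENNReal.tsum_add,
    Summable.tsum_finsetSum fun _ _ => ENNReal.summable, mul_add (ENNReal.ofReal a),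
    mul_add (ENNReal.ofReal a), Finset.mul_sum]
  refine (mul_le_mul_right (add_le_add (h4 J)
    (add_le_add (h1 n hn) (Finset.sum_le_sum k2))) _).trans ?_
  rw [← ENNReal.ofReal_sum_of_nonneg fun _ _ => by positivity,
    ← ENNReal.ofReal_add (by positivity) (by positivity),
    ← ENNReal.ofReal_add he0.le (by positivity), ← ENNReal.ofReal_mul hc0.le]
  refine ENNReal.ofReal_le_ofReal ?_
  rw [Finset.sum_add_distrib, ← Finset.mul_sum, Finset.sum_const, Nat.card_Icc,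
    Nat.add_sub_cancel, nsmul_eq_mul, mul_div_cancel₀ _ hn.ne']
  have b1 : A * n * (n : ℝ) ^ (-q) = A * (n : ℝ) ^ (-(q - 1)) := by
    rw [show -(q - 1) = -q + 1 by ring, Real.rpow_add_one hn.ne']
    ring
  have b2 : K * A * ∑ j ∈ Finset.Icc 1 n, ((max J j : ℕ) : ℝ) ^ (-q) ≤ e := by
    calc _ ≤ (K * A + 1) * (e / (K * A + 1)) := by
          gcongr
          · linarith
          · exact hJ n
      _ = e := by field_simp
  have b3 : e / (K + 1) + K * (e / (K + 1)) = e := by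
    field_simp
    ring
  have b4 : c0 * (5 * e) = η := by
    rw [he]
    field_simp
  rw [← b4]
  gcongr
  linarith

end Pool.Agent.Lib.APPS
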