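import Pool.Agent.Lib.APPS.Blue1

/-!
Block GEO1: elementary geometry of dyadic squares.
-/

namespace Pool.Agent.Lib.APPS

open MeasureTheory ProbabilityTheory Filter Topology Set Metric
open scoped NNReal ENNReal Classical

noncomputable section

namespace GEO1

theorem side_pos (S : Dy) : 0 < side S := by unfold side; positivity

theorem side_le_one (S : Dy) : side S ≤ 1 := by
  unfold side; exact pow_le_one₀ (by norm_num) (by norm_num)

theorem side_append (S A : Dy) : side (S ++ A) = side S * side A := by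
  unfold side; rw [List.length_append, pow_add]

theorem side_cons (d : Fin 2 × Fin 2) (S : Dy) : side (d :: S) = side S / 2 := by
  unfold side; rw [List.length_cons, pow_succ]; ring

theorem side_nil : side [] = 1 := by simp [side]

theorem side_of_len {S S' : Dy} (h : S.length = S'.length) : side S = side S' := by
  unfold side; rw [h]

theorem side_mul_pow (S : Dy) : side S * 2 ^ S.length = 1 := by
  unfold side; rw [← mul_pow]; norm_num

theorem corner_re (S : Dy) : (corner S).re = side S * (gi S).1 := by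
  induction S with
  | nil => simp [corner, gi]
  | cons d S ih =>
    simp only [corner, gi, Complex.add_re, ih, Complex.mul_re, Complex.ofReal_re,
      Complex.ofReal_im, Complex.natCast_re, Complex.natCast_im, Complex.I_re, Complex.I_im,
      Complex.add_im, Complex.mul_im, side_cons]
    push_cast; ring

theorem corner_im (S : Dy) : (corner S).im = side S * (gi S).2 := by
  induction S with
  | nil => simp [corner, gi]
  | cons d S ih =>
    simp only [corner, gi, Complex.add_re, ih, Complex.mul_re, Complex.ofReal_re,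
      Complex.ofReal_im, Complex.natCast_re, Complex.natCast_im, Complex.I_re, Complex.I_im,
      Complex.add_im, Complex.mul_im, side_cons]
    push_cast; ring

theorem ctr_re (S : Dy) : (ctr S).re = (corner S).re + side S / 2 := by
  simp [ctr]

theorem ctr_im (S : Dy) : (ctr S).im = (corner S).im + side S / 2 := by
  simp [ctr]

theorem zS_re (S : Dy) (z : ℂ) : (zS S z).re = (corner S).re + side S * z.re := by
  simp [zS]

theorem zS_im (S : Dy) (z : ℂ) : (zS S z).im = (corner S).im + side S * z.im := by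
  simp [zS]

theorem corner_eq (S : Dy) : corner S = (side S : ℂ) * zc (gi S) := by
  apply Complex.ext
  · rw [corner_re]; simp [zc]
  · rw [corner_im]; simp [zc]

theorem gi_bd (S : Dy) : (0 ≤ (gi S).1 ∧ (gi S).1 < 2 ^ S.length) ∧
    (0 ≤ (gi S).2 ∧ (gi S).2 < 2 ^ S.length) := by
  induction S with
  | nil => simp [gi]
  | cons d S ih =>
    have h1 := d.1.isLt
    have h2 := d.2.isLt
    simp only [gi, List.length_cons, pow_succ]
    omega

theorem mem_gin {k : ℕ} {i : ℤ × ℤ} :
    i ∈ gin k ↔ (0 ≤ i.1 ∧ i.1 < 2 ^ k) ∧ (0 ≤ i.2 ∧ i.2 < 2 ^ k) := by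
  simp [gin, Finset.mem_product, Finset.mem_Ico]

theorem gi_inj : ∀ (S S' : Dy), S.length = S'.length → gi S = gi S' → S = S' := by
  intro S
  induction S with
  | nil => intro S' h _; exact (List.length_eq_zero_iff.mp h.symm).symm
  | cons d S ih =>
    intro S' h hg
    cases S' with
    | nil => simp at h
    | cons d' S' =>
      have h1 := d.1.isLt
      have h2 := d.2.isLt
      have h3 := d'.1.isLt
      have h4 := d'.2.isLt
      simp only [gi, Prod.mk.injEq] at hg
      have e1 : (gi S).1 = (gi S').1 := by omega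
      have e2 : (gi S).2 = (gi S').2 := by omega
      have e3 : d.1 = d'.1 := Fin.ext (by omega)
      have e4 : d.2 = d'.2 := Fin.ext (by omega)
      rw [ih S' (by simpa using h) (Prod.ext e1 e2), Prod.ext e3 e4]

theorem gi_surj : ∀ (k : ℕ) (i : ℤ × ℤ), i ∈ gin k → ∃ S : Dy, S.length = k ∧ gi S = i := by
  intro k
  induction k with
  | zero =>
    intro i hi
    rw [mem_gin] at hi
    refine ⟨[], rfl, ?_⟩
    simp only [gi]
    apply Prod.ext <;> simp only <;> omega
  | succ k ih =>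
    intro i hi
    rw [mem_gin] at hi
    simp only [pow_succ] at hi
    obtain ⟨S, hS, hg⟩ := ih (i.1 / 2, i.2 / 2) (by rw [mem_gin]; simp only; omega)
    refine ⟨(⟨(i.1 % 2).toNat, by omega⟩, ⟨(i.2 % 2).toNat, by omega⟩) :: S, by simp [hS], ?_⟩
    simp only [gi, hg]
    apply Prod.ext <;> simp only <;> omega

theorem gi_append (S A : Dy) : (gi (S ++ A)).1 = 2 ^ S.length * (gi A).1 + (gi S).1 ∧
    (gi (S ++ A)).2 = 2 ^ S.length * (gi A).2 + (gi S).2 := by
  induction S with
  | nil => simp [gi]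
  | cons d S ih =>
    simp only [List.cons_append, gi, ih.1, ih.2, List.length_cons, pow_succ]
    constructor <;> ring

theorem corner_append (S A : Dy) : corner (S ++ A) = zS A (corner S) := by
  induction S with
  | nil => simp [zS, corner]
  | cons d S ih =>
    have : side (d :: (S ++ A)) = side (d :: S) * side A := by
      rw [← List.cons_append, side_append]
    simp only [List.cons_append, corner, ih, zS, this]
    push_cast; ring

theorem ctr_append (S A : Dy) : ctr (S ++ A) = zS A (ctr S) := by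
  simp only [ctr, corner_append, zS, side_append]
  push_cast; ring

theorem mem_box {S : Dy} {z : ℂ} : z ∈ box S ↔
    ((corner S).re ≤ z.re ∧ z.re ≤ (corner S).re + side S) ∧
    ((corner S).im ≤ z.im ∧ z.im ≤ (corner S).im + side S) := Iff.rfl

theorem box_append (S A : Dy) : box (S ++ A) = zS A '' box S := by
  have hA := side_pos A
  ext z
  simp only [mem_image, mem_box, corner_append, zS_re, zS_im, side_append]
  constructor
  · rintro ⟨⟨h1, h2⟩, h3, h4⟩
    refine ⟨(z - corner A) / side A, ?_, ?_⟩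
    · simp only [Complex.div_ofReal_re, Complex.div_ofReal_im, Complex.sub_re, Complex.sub_im]
      refine ⟨⟨?_, ?_⟩, ?_, ?_⟩
      · rw [le_div_iff₀ hA]; nlinarith
      · rw [div_le_iff₀ hA]; nlinarith
      · rw [le_div_iff₀ hA]; nlinarith
      · rw [div_le_iff₀ hA]; nlinarith
    · have : (side A : ℂ) ≠ 0 := by exact_mod_cast hA.ne'
      unfold zS; field_simp; ring
  · rintro ⟨w, ⟨⟨h1, h2⟩, h3, h4⟩, rfl⟩
    simp only [zS_re, zS_im]
    refine ⟨⟨?_, ?_⟩, ?_, ?_⟩ <;> nlinarith

theorem box_eq (S : Dy) : box S = Icc (corner S).re ((corner S).re + side S) ×ℂ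
    Icc (corner S).im ((corner S).im + side S) := rfl

theorem mem_int {S : Dy} {z : ℂ} : z ∈ interior (box S) ↔
    ((corner S).re < z.re ∧ z.re < (corner S).re + side S) ∧
    ((corner S).im < z.im ∧ z.im < (corner S).im + side S) := by
  rw [box_eq, Complex.interior_reProdIm, interior_Icc, interior_Icc]; rfl

theorem box_compact (S : Dy) : IsCompact (box S) := by
  rw [box_eq]; exact isCompact_Icc.reProdIm isCompact_Icc

theorem box_vol (S : Dy) : volume (box S) = ENNReal.ofReal (side S ^ 2) := by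
  have h : box S = Complex.measurableEquivRealProd ⁻¹'
      (Icc (corner S).re ((corner S).re + side S) ×ˢ Icc (corner S).im ((corner S).im + side S)) := by
    ext z; rfl
  rw [h, Complex.volume_preserving_equiv_real_prod.measure_preimage_equiv, Measure.volume_eq_prod,
    Measure.prod_prod, Real.volume_Icc, Real.volume_Icc, ← ENNReal.ofReal_mul
      (by have := side_pos S; linarith)]
  congr 1; ring

theorem box_convex (S : Dy) : Convex ℝ (box S) := by
  intro x hx y hy a b ha hb hab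
  rw [mem_box] at hx hy ⊢
  simp only [Complex.add_re, Complex.add_im, Complex.smul_re, Complex.smul_im, smul_eq_mul]
  have e : ∀ c : ℝ, c = a * c + b * c := fun c => by rw [← add_mul, hab, one_mul]
  refine ⟨⟨?_, ?_⟩, ?_, ?_⟩
  · rw [e (corner S).re]; nlinarith [hx.1.1, hy.1.1]
  · rw [e ((corner S).re + side S)]; nlinarith [hx.1.2, hy.1.2]
  · rw [e (corner S).im]; nlinarith [hx.2.1, hy.2.1]
  · rw [e ((corner S).im + side S)]; nlinarith [hx.2.2, hy.2.2]

theorem ctr_int (S : Dy) : ctr S ∈ interior (box S) := by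
  have := side_pos S
  rw [mem_int, ctr_re, ctr_im]
  refine ⟨⟨?_, ?_⟩, ?_, ?_⟩ <;> linarith

theorem ctr_mem (S : Dy) : ctr S ∈ box S := interior_subset (ctr_int S)

theorem norm_le_of (w : ℂ) (s c : ℝ) (hc : 0 ≤ c) (h1 : |w.re| ≤ s) (h2 : |w.im| ≤ s)
    (h : 2 * s ^ 2 ≤ c ^ 2) : ‖w‖ ≤ c := by
  have e : ‖w‖ ^ 2 = w.re ^ 2 + w.im ^ 2 := by
    rw [Complex.sq_norm, Complex.normSq_apply]; ring
  have a1 : w.re ^ 2 ≤ s ^ 2 := by rw [← sq_abs]; exact pow_le_pow_left₀ (abs_nonneg _) h1 2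
  have a2 : w.im ^ 2 ≤ s ^ 2 := by rw [← sq_abs]; exact pow_le_pow_left₀ (abs_nonneg _) h2 2
  exact (pow_le_pow_iff_left₀ (norm_nonneg _) hc two_ne_zero).mp (by linarith)

theorem box_abs {S : Dy} {y : ℂ} (hy : y ∈ box S) :
    |(y - ctr S).re| ≤ side S / 2 ∧ |(y - ctr S).im| ≤ side S / 2 := by
  rw [mem_box] at hy
  simp only [Complex.sub_re, Complex.sub_im, ctr_re, ctr_im, abs_le]
  refine ⟨⟨?_, ?_⟩, ?_, ?_⟩ <;> linarith [hy.1.1, hy.1.2, hy.2.1, hy.2.2]

theorem box_dist (S : Dy) (y : ℂ) (hy : y ∈ box S) : ‖y - ctr S‖ ≤ 3 / 4 * side S := by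
  have := side_pos S
  exact norm_le_of _ (side S / 2) _ (by linarith) (box_abs hy).1 (box_abs hy).2 (by nlinarith)

theorem ball_abs {c y : ℂ} {r : ℝ} (hy : y ∈ closedBall c r) :
    |y.re - c.re| ≤ r ∧ |y.im - c.im| ≤ r := by
  rw [mem_closedBall, dist_eq_norm] at hy
  exact ⟨(Complex.abs_re_le_norm (y - c)).trans hy, (Complex.abs_im_le_norm (y - c)).trans hy⟩

theorem ball_sub (S : Dy) : closedBall (ctr S) (side S / 2) ⊆ box S := by
  intro y hy
  obtain ⟨h1, h2⟩ := ball_abs hy
  rw [ctr_re, abs_le] at h1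
  rw [ctr_im, abs_le] at h2
  rw [mem_box]
  refine ⟨⟨?_, ?_⟩, ?_, ?_⟩ <;> linarith [h1.1, h1.2, h2.1, h2.2]

theorem box_cons_sub (d : Fin 2 × Fin 2) (S : Dy) : box (d :: S) ⊆ box S := by
  intro z hz
  have h1 : ((d.1 : ℕ) : ℝ) ≤ 1 := by exact_mod_cast Nat.lt_succ_iff.mp d.1.isLt
  have h2 : ((d.2 : ℕ) : ℝ) ≤ 1 := by exact_mod_cast Nat.lt_succ_iff.mp d.2.isLt
  have h3 : (0 : ℝ) ≤ (d.1 : ℕ) := Nat.cast_nonneg _
  have h4 : (0 : ℝ) ≤ (d.2 : ℕ) := Nat.cast_nonneg _
  have hs := side_pos S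
  rw [mem_box] at hz ⊢
  simp only [corner_re, corner_im, gi, side_cons] at hz ⊢
  push_cast at hz
  refine ⟨⟨?_, ?_⟩, ?_, ?_⟩ <;> nlinarith [hz.1.1, hz.1.2, hz.2.1, hz.2.2]

theorem box_sub {S S' : Dy} (h : S' <:+ S) : box S ⊆ box S' := by
  obtain ⟨B, rfl⟩ := h
  induction B with
  | nil => simp
  | cons d B ih => exact (box_cons_sub d (B ++ S')).trans ih

theorem anc_suffix (l : ℕ) (A : Dy) : anc l A <:+ A := List.drop_suffix _ _

theorem anc_len (l : ℕ) (A : Dy) : (anc l A).length = min l A.length := by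
  unfold anc; rw [List.length_drop]; omega

theorem int_sep {s x : ℝ} {g g' : ℤ} (hs : 0 < s) (h1 : s * g < x) (h2 : x < s * g + s)
    (h3 : s * g' ≤ x) (h4 : x ≤ s * g' + s) : g = g' := by
  have a1 : (g : ℝ) < g' + 1 := by
    by_contra hc
    push Not at hc
    nlinarith
  have a2 : (g' : ℝ) < g + 1 := by
    by_contra hc
    push Not at hc
    nlinarith
  have b1 : g < g' + 1 := by exact_mod_cast a1
  have b2 : g' < g + 1 := by exact_mod_cast a2
  omega

theorem eq_of_mem {S S' : Dy} (h : S.length = S'.length) {z : ℂ} (h1 : z ∈ interior (box S))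
    (h2 : z ∈ box S') : S = S' := by
  rw [mem_int] at h1
  rw [mem_box] at h2
  simp only [corner_re, corner_im, ← side_of_len h] at h1 h2
  exact gi_inj S S' h (Prod.ext (int_sep (side_pos S) h1.1.1 h1.1.2 h2.1.1 h2.1.2)
    (int_sep (side_pos S) h1.2.1 h1.2.2 h2.2.1 h2.2.2))

theorem cmp_of_mem {S S' : Dy} {z : ℂ} (h1 : z ∈ interior (box S)) (h2 : z ∈ box S') :
    (S.length ≤ S'.length → S <:+ S') ∧ (S'.length ≤ S.length → S' <:+ S) := by
  constructor
  · intro h
    have := eq_of_mem (S := S) (S' := anc S.length S') (by rw [anc_len]; omega) h1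
      (box_sub (anc_suffix _ _) h2)
    rw [this]; exact anc_suffix _ _
  · intro h
    have := eq_of_mem (S := anc S'.length S) (S' := S') (by rw [anc_len]; omega)
      (interior_mono (box_sub (anc_suffix _ _)) h1) h2
    rw [← this]; exact anc_suffix _ _

theorem len_le_of_side {S S' : Dy} (h : side S ≤ side S') : S'.length ≤ S.length := by
  unfold side at h
  exact (pow_le_pow_iff_right_of_lt_one₀ (by norm_num) (by norm_num)).mp h

theorem box_sub_iff (S S' : Dy) : box S ⊆ box S' ↔ S' <:+ S := by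
  refine ⟨fun h => ?_, box_sub⟩
  have hs := side_pos S
  have h1 : corner S ∈ box S := by rw [mem_box]; refine ⟨⟨?_, ?_⟩, ?_, ?_⟩ <;> linarith
  have h2 : corner S + side S ∈ box S := by
    rw [mem_box]
    simp only [Complex.add_re, Complex.add_im, Complex.ofReal_re, Complex.ofReal_im]
    refine ⟨⟨?_, ?_⟩, ?_, ?_⟩ <;> linarith
  have h3 := (mem_box.mp (h h1)).1.1
  have h4 := (mem_box.mp (h h2)).1.2
  simp only [Complex.add_re, Complex.ofReal_re] at h4
  exact (cmp_of_mem (ctr_int S) (h (ctr_mem S))).2 (len_le_of_side (by linarith))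

theorem disj (S S' : Dy) (h : ¬S <:+ S') (h' : ¬S' <:+ S) :
    Disjoint (interior (box S)) (box S') ∧ volume (box S ∩ box S') = 0 := by
  have hd : Disjoint (interior (box S)) (box S') := by
    rw [Set.disjoint_left]
    intro z h1 h2
    rcases le_total S.length S'.length with hl | hl
    · exact h ((cmp_of_mem h1 h2).1 hl)
    · exact h' ((cmp_of_mem h1 h2).2 hl)
  refine ⟨hd, measure_mono_null (fun z hz => ?_) ((box_convex S).addHaar_frontier volume)⟩
  exact ⟨subset_closure hz.1, fun hi => Set.disjoint_left.mp hd hi hz.2⟩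

theorem ctr_inj_aux (B A : Dy) (h : ctr (B ++ A) = ctr A) : B = [] := by
  have hA := side_pos A
  have h1 := congrArg Complex.re h
  rw [ctr_append, zS_re, ctr_re, ctr_re, corner_re B] at h1
  have h2 : side B * (gi B).1 + side B / 2 = 1 / 2 := by
    have : side A * (side B * (gi B).1 + side B / 2) = side A * (1 / 2) := by linarith
    exact mul_left_cancel₀ hA.ne' this
  have h3 := side_mul_pow B
  have h4 : (2 * (gi B).1 + 1 : ℝ) = 2 ^ B.length := by
    have hB := side_pos B
    have : side B * (2 * (gi B).1 + 1) = side B * 2 ^ B.length := by linarith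
    exact mul_left_cancel₀ hB.ne' this
  have h5 : (2 * (gi B).1 + 1 : ℤ) = 2 ^ B.length := by exact_mod_cast h4
  cases B with
  | nil => rfl
  | cons d B =>
    rw [List.length_cons, pow_succ] at h5
    omega

theorem ctr_inj : Function.Injective ctr := by
  intro S S' h
  have hc := cmp_of_mem (ctr_int S) (h ▸ ctr_mem S')
  rcases le_total S.length S'.length with hl | hl
  · obtain ⟨B, rfl⟩ := hc.1 hl
    rw [ctr_inj_aux B S h.symm]; rfl
  · obtain ⟨B, rfl⟩ := hc.2 hl
    rw [ctr_inj_aux B S' h]; rfl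

theorem child (B : Dy) (y : ℂ) (hy : y ∈ box B) : ∃ d, y ∈ box (d :: B) := by
  rw [mem_box] at hy
  simp only [corner_re, corner_im] at hy
  have key : ∀ (g : ℤ) (x : ℝ), side B * g ≤ x → x ≤ side B * g + side B → ∃ e : Fin 2,
      side B / 2 * ((2 * g + (e : ℕ) : ℤ) : ℝ) ≤ x ∧
        x ≤ side B / 2 * ((2 * g + (e : ℕ) : ℤ) : ℝ) + side B / 2 := by
    intro g x h1 h2
    rcases le_total x (side B * g + side B / 2) with h | h
    · refine ⟨0, ?_, ?_⟩ <;> push_cast <;> simp <;> linarith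
    · refine ⟨1, ?_, ?_⟩ <;> push_cast <;> simp <;> linarith
  obtain ⟨e1, h1⟩ := key _ _ hy.1.1 hy.1.2
  obtain ⟨e2, h2⟩ := key _ _ hy.2.1 hy.2.2
  refine ⟨(e1, e2), ?_⟩
  rw [mem_box]
  simp only [corner_re, corner_im, gi, side_cons]
  exact ⟨h1, h2⟩

theorem cover (A : Dy) (k : ℕ) (y : ℂ) (hy : y ∈ box A) :
    ∃ S : Dy, S.length = k ∧ y ∈ box (S ++ A) := by
  induction k with
  | zero => exact ⟨[], rfl, hy⟩
  | succ k ih =>
    obtain ⟨S, hS, h⟩ := ih
    obtain ⟨d, hd⟩ := child _ _ h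
    exact ⟨d :: S, by simp [hS], hd⟩

theorem card_int (a t : ℝ) (ht : 0 ≤ t) :
    ((Finset.Icc ⌈a - t⌉ ⌊a + t⌋).card : ℝ) ≤ 2 * t + 1 := by
  rw [Int.card_Icc]
  have h1 := Int.le_ceil (a - t)
  have h2 := Int.floor_le (a + t)
  rcases le_total 0 (⌊a + t⌋ + 1 - ⌈a - t⌉) with h | h
  · have : (((⌊a + t⌋ + 1 - ⌈a - t⌉).toNat : ℤ) : ℝ) = (⌊a + t⌋ + 1 - ⌈a - t⌉ : ℤ) := by
      rw [Int.toNat_of_nonneg h]
    push_cast at this
    rw [this]; linarith
  · rw [Int.toNat_eq_zero.mpr h]; push_cast; linarith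

theorem mem_win {s x t : ℝ} {g : ℤ} (hs : 0 < s) (h : |s * g + s / 2 - x| ≤ t * s) :
    g ∈ Finset.Icc ⌈(x / s - 1 / 2) - t⌉ ⌊(x / s - 1 / 2) + t⌋ := by
  rw [abs_le] at h
  have e : x = x / s * s := by field_simp
  rw [Finset.mem_Icc, Int.ceil_le, Int.le_floor]
  constructor
  · by_contra hc
    push Not at hc
    nlinarith [h.1, h.2]
  · by_contra hc
    push Not at hc
    nlinarith [h.1, h.2]

theorem card_near (hT : St_T1) (l : ℕ) (z : ℂ) (t : ℝ) (ht : 0 ≤ t) :
    (((lev l).filter fun V => ‖ctr V - z‖ ≤ t * (1 / 2 : ℝ) ^ l).card : ℝ) ≤ (2 * t + 1) ^ 2 := by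
  set s : ℝ := (1 / 2 : ℝ) ^ l with hs
  have hs0 : 0 < s := by positivity
  have h : ((lev l).filter fun V => ‖ctr V - z‖ ≤ t * s).card ≤
      (Finset.Icc ⌈(z.re / s - 1 / 2) - t⌉ ⌊(z.re / s - 1 / 2) + t⌋ ×ˢ
        Finset.Icc ⌈(z.im / s - 1 / 2) - t⌉ ⌊(z.im / s - 1 / 2) + t⌋).card := by
    apply Finset.card_le_card_of_injOn gi
    · intro V hV
      rw [Finset.mem_coe, Finset.mem_filter, hT.1] at hV
      have hV1 : side V = s := by unfold side; rw [hV.1]
      have h1 := (Complex.abs_re_le_norm (ctr V - z)).trans hV.2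
      have h2 := (Complex.abs_im_le_norm (ctr V - z)).trans hV.2
      rw [Complex.sub_re, ctr_re, corner_re, hV1] at h1
      rw [Complex.sub_im, ctr_im, corner_im, hV1] at h2
      rw [Finset.mem_coe, Finset.mem_product]
      exact ⟨mem_win hs0 h1, mem_win hs0 h2⟩
    · intro V hV W hW h
      rw [Finset.mem_coe, Finset.mem_filter, hT.1] at hV hW
      exact gi_inj V W (hV.1.trans hW.1.symm) h
  rw [Finset.card_product] at h
  have h' := (Nat.cast_le (α := ℝ)).mpr h
  refine h'.trans ?_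
  push_cast
  rw [pow_two]
  exact mul_le_mul (card_int _ _ ht) (card_int _ _ ht) (Nat.cast_nonneg _) (by linarith)

theorem split_anc (l : ℕ) (V : Dy) : V.take (V.length - l) ++ anc l V = V :=
  List.take_append_drop _ _

theorem loc_of (S A : Dy) (h1 : 4 ≤ (gi S).1) (h2 : (gi S).1 < 2 ^ S.length - 4)
    (h3 : 4 ≤ (gi S).2) (h4 : (gi S).2 < 2 ^ S.length - 4) :
    closedBall (ctr (S ++ A)) (4 * side (S ++ A)) ⊆ interior (box A) := by
  intro y hy
  obtain ⟨a1, a2⟩ := ball_abs hy
  rw [ctr_append, zS_re, ctr_re, corner_re S, side_append, abs_le] at a1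
  rw [ctr_append, zS_im, ctr_im, corner_im S, side_append, abs_le] at a2
  have hp := side_mul_pow S
  have hS := side_pos S
  have hA := side_pos A
  have hSA := mul_pos hS hA
  have b1 : (4 : ℝ) ≤ (gi S).1 := by exact_mod_cast h1
  have b3 : (4 : ℝ) ≤ (gi S).2 := by exact_mod_cast h3
  have b2 : ((gi S).1 : ℝ) + 5 ≤ 2 ^ S.length := by
    have : (gi S).1 + 5 ≤ 2 ^ S.length := by omega
    exact_mod_cast this
  have b4 : ((gi S).2 : ℝ) + 5 ≤ 2 ^ S.length := by
    have : (gi S).2 + 5 ≤ 2 ^ S.length := by omega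
    exact_mod_cast this
  have e : side A = side S * side A * 2 ^ S.length := by
    rw [mul_right_comm, hp, one_mul]
  have c1 := mul_le_mul_of_nonneg_left b1 hSA.le
  have c2 := mul_le_mul_of_nonneg_left b2 hSA.le
  have c3 := mul_le_mul_of_nonneg_left b3 hSA.le
  have c4 := mul_le_mul_of_nonneg_left b4 hSA.le
  rw [← e] at c2 c4
  rw [mem_int]
  refine ⟨⟨?_, ?_⟩, ?_, ?_⟩ <;> nlinarith [a1.1, a1.2, a2.1, a2.2]

/-- bad integer coordinates -/
def bad (K1 m : ℕ) : Finset ℤ :=
  (Finset.Ico (0 : ℤ) (2 ^ K1) ×ˢ (Finset.Ico (0 : ℤ) 4 ∪ Finset.Ico (2 ^ m - 4) (2 ^ m))).image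
    fun p => 2 ^ m * p.1 + p.2

theorem card_bad (K1 m : ℕ) : (bad K1 m).card ≤ 8 * 2 ^ K1 := by
  refine Finset.card_image_le.trans ?_
  rw [Finset.card_product]
  have h1 : (Finset.Ico (0 : ℤ) (2 ^ K1)).card = 2 ^ K1 := by
    rw [Int.card_Ico, sub_zero]
    have : ((2 : ℤ) ^ K1) = ((2 ^ K1 : ℕ) : ℤ) := by push_cast; rfl
    rw [this, Int.toNat_natCast]
  have h2 : (Finset.Ico (0 : ℤ) 4 ∪ Finset.Ico (2 ^ m - 4) (2 ^ m)).card ≤ 8 := by
    refine (Finset.card_union_le _ _).trans ?_
    rw [Int.card_Ico, Int.card_Ico, sub_sub_cancel]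
    decide
  rw [h1, mul_comm]
  exact Nat.mul_le_mul_right _ h2

theorem mem_bad {K1 m : ℕ} {a g : ℤ} (ha : 0 ≤ a ∧ a < 2 ^ K1) (hg : 0 ≤ g ∧ g < 2 ^ m)
    (h : ¬(4 ≤ g ∧ g < 2 ^ m - 4)) : 2 ^ m * a + g ∈ bad K1 m := by
  refine Finset.mem_image.mpr ⟨(a, g), ?_, rfl⟩
  simp only [Finset.mem_product, Finset.mem_Ico, Finset.mem_union]
  omega

theorem card_loc (hT : St_T1) (K1 k : ℕ) :
    ((lev k).filter fun V => ¬Loc K1 V).card ≤ 16 * 2 ^ (k + K1) := by
  rcases le_total k K1 with hk | hk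
  · refine (Finset.card_filter_le _ _).trans ?_
    rw [hT.2.1]
    have : 4 ^ k ≤ 2 ^ (k + K1) := by
      rw [show 4 = 2 ^ 2 by norm_num, ← pow_mul]
      exact Nat.pow_le_pow_right (by norm_num) (by omega)
    omega
  have hc : (Finset.Ico (0 : ℤ) (2 ^ k)).card = 2 ^ k := by
    rw [Int.card_Ico, sub_zero]
    have : ((2 : ℤ) ^ k) = ((2 ^ k : ℕ) : ℤ) := by push_cast; rfl
    rw [this, Int.toNat_natCast]
  have h : ((lev k).filter fun V => ¬Loc K1 V).card ≤
      (bad K1 (k - K1) ×ˢ Finset.Ico (0 : ℤ) (2 ^ k) ∪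
        Finset.Ico (0 : ℤ) (2 ^ k) ×ˢ bad K1 (k - K1)).card := by
    apply Finset.card_le_card_of_injOn gi
    · intro V hV
      rw [Finset.mem_coe, Finset.mem_filter, hT.1] at hV
      obtain ⟨hl, hV⟩ := hV
      have hb := gi_bd V
      rw [hl] at hb
      have hA : (anc K1 V).length = K1 := by rw [anc_len]; omega
      have hS : (V.take (V.length - K1)).length = k - K1 := by rw [List.length_take]; omega
      have hsp := split_anc K1 V
      unfold Loc at hV
      generalize anc K1 V = A at *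
      generalize V.take (V.length - K1) = S at *
      subst hsp
      have hg := gi_append S A
      have b1 := gi_bd S
      have b2 := gi_bd A
      rw [hS] at hg b1
      rw [hA] at b2
      rw [Finset.mem_coe, Finset.mem_union, Finset.mem_product, Finset.mem_product,
        Finset.mem_Ico, Finset.mem_Ico]
      by_cases c1 : 4 ≤ (gi S).1 ∧ (gi S).1 < 2 ^ (k - K1) - 4
      · by_cases c2 : 4 ≤ (gi S).2 ∧ (gi S).2 < 2 ^ (k - K1) - 4
        · exact absurd (loc_of S A c1.1 (hS ▸ c1.2) c2.1 (hS ▸ c2.2)) hV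
        · exact Or.inr ⟨hb.1, hg.2 ▸ mem_bad b2.2 b1.2 c2⟩
      · exact Or.inl ⟨hg.1 ▸ mem_bad b2.1 b1.1 c1, hb.2⟩
    · intro V hV W hW h
      rw [Finset.mem_coe, Finset.mem_filter, hT.1] at hV hW
      exact gi_inj V W (hV.1.trans hW.1.symm) h
  refine h.trans ((Finset.card_union_le _ _).trans ?_)
  rw [Finset.card_product, Finset.card_product, hc, pow_add]
  have := card_bad K1 (k - K1)
  nlinarith [Nat.mul_le_mul_right (2 ^ k) this]

theorem loc_len (K1 : ℕ) (V : Dy) (h : Loc K1 V) : K1 + 3 ≤ V.length := by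
  have hs := side_pos V
  have m : ∀ c : ℝ, |c| ≤ 4 * side V → ctr V + c ∈ interior (box (anc K1 V)) := by
    intro c hc
    apply h
    rw [mem_closedBall, dist_eq_norm, add_sub_cancel_left, Complex.norm_real]
    exact hc
  have h1 := (mem_int.mp (m (4 * side V) (by rw [abs_of_pos (by linarith)]))).1.2
  have h2 := (mem_int.mp (m (-(4 * side V)) (by rw [abs_neg, abs_of_pos (by linarith)]))).1.1
  rw [Complex.add_re, Complex.ofReal_re] at h1 h2
  have h3 : side V ≤ side ((0, 0) :: (0, 0) :: (0, 0) :: anc K1 V) := by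
    rw [side_cons, side_cons, side_cons]; linarith
  have h4 := len_le_of_side h3
  simp only [List.length_cons, anc_len] at h4
  omega

theorem loc_nbr (hT : St_T1) (K1 : ℕ) (V : Dy) (h : Loc K1 V) (U : Dy) (hU : U ∈ nbr V) :
    anc K1 U = anc K1 V := by
  unfold nbr at hU
  rw [Finset.mem_filter, hT.1] at hU
  have hs := side_pos V
  have h1 : ctr U ∈ interior (box (anc K1 V)) := by
    apply h
    rw [mem_closedBall, dist_eq_norm]
    linarith [hU.2]
  exact (eq_of_mem (by rw [anc_len, anc_len, hU.1]) h1 (box_sub (anc_suffix _ _) (ctr_mem U))).symm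

theorem int_near {s : ℝ} {g g' : ℤ} (hs : 0 < s) (h : |s * g - s * g'| < 2 * s) :
    |s * g - s * g'| ≤ s := by
  rw [← mul_sub, abs_mul, abs_of_pos hs] at h ⊢
  have h1 : |(g : ℝ) - g'| < 2 := by
    by_contra hc
    push Not at hc
    nlinarith
  have h2 : |g - g'| < 2 := by exact_mod_cast h1
  have h3 : |g - g'| ≤ 1 := by omega
  have h4 : |(g : ℝ) - g'| ≤ 1 := by exact_mod_cast h3
  nlinarith

theorem anc_nbr (hT : St_T1) (V A : Dy) (hl : V.length ≤ A.length)
    (h1 : |(ctr A - ctr V).re| < 3 / 2 * side V) (h2 : |(ctr A - ctr V).im| < 3 / 2 * side V) :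
    anc V.length A ∈ nbr V := by
  have hU : (anc V.length A).length = V.length := by rw [anc_len]; omega
  have hb := box_abs (box_sub (anc_suffix V.length A) (ctr_mem A))
  generalize anc V.length A = U at *
  unfold nbr
  rw [Finset.mem_filter, hT.1]
  refine ⟨hU, ?_⟩
  have hs := side_pos V
  have he := side_of_len hU
  rw [he] at hb
  have r1 : (ctr U - ctr V).re = side V * (gi U).1 - side V * (gi V).1 := by
    rw [Complex.sub_re, ctr_re, ctr_re, corner_re, corner_re, he]; ring
  have r2 : (ctr U - ctr V).im = side V * (gi U).2 - side V * (gi V).2 := by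
    rw [Complex.sub_im, ctr_im, ctr_im, corner_im, corner_im, he]; ring
  refine norm_le_of _ (side V) _ (by linarith) ?_ ?_ (by nlinarith)
  · rw [r1]
    apply int_near hs
    rw [← r1]
    have := hb.1
    simp only [Complex.sub_re, abs_lt, abs_le] at this h1 ⊢
    constructor <;> linarith [this.1, this.2, h1.1, h1.2]
  · rw [r2]
    apply int_near hs
    rw [← r2]
    have := hb.2
    simp only [Complex.sub_im, abs_lt, abs_le] at this h2 ⊢
    constructor <;> linarith [this.1, this.2, h2.1, h2.2]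

end GEO1

open GEO1 in
theorem blk_GEO1 (hT : St_T1) : St_GEO1 :=
  ⟨fun S => ⟨side_pos S, side_le_one S⟩, side_append,
    fun S A => ⟨corner_append S A, ctr_append S A, box_append S A⟩,
    fun S => ⟨box_compact S, box_vol S, ctr_mem S, box_dist S, ball_sub S⟩,
    box_sub_iff, disj, ctr_inj, cover,
    fun S => ⟨corner_eq S, mem_gin.mpr (gi_bd S)⟩,
    fun k i hi => by
      obtain ⟨S, hS, hg⟩ := gi_surj k i hi
      exact ⟨S, ⟨hS, hg⟩, fun W hW => gi_inj W S (hW.1.trans hS.symm) (hW.2.trans hg.symm)⟩,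
    card_near hT, card_loc hT,
    fun K1 V h => ⟨loc_len K1 V h, loc_nbr hT K1 V h⟩,
    fun l A => ⟨anc_suffix l A, anc_len l A⟩, anc_nbr hT⟩

end

end Pool.Agent.Lib.APPS
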