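import Pool.Agent.Lib.APPS.Blue4
import Pool.Agent.Lib.APPS.B_GEO1

/-!
Block F2T: tail of the density factor near the threshold.
-/

namespace Pool.Agent.Lib.APPS

open MeasureTheory ProbabilityTheory Filter Topology Set Metric
open scoped NNReal ENNReal RealInnerProductSpace

noncomputable section

theorem f2t_eE_add (s t : ℝ) : eE (s + t) = eE s * eE t := by
  rw [eE, eE, eE, Real.exp_add, ENNReal.ofReal_mul (Real.exp_pos _).le]

theorem f2t_eE_mono {s t : ℝ} (h : s ≤ t) : eE s ≤ eE t :=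
  ENNReal.ofReal_le_ofReal (Real.exp_le_exp.2 h)

theorem f2t_eE_meas : Measurable eE := Real.measurable_exp.ennreal_ofReal

theorem f2t_meas_ind {α : Type} [MeasurableSpace α] {q : α → Prop} (h : MeasurableSet {a | q a}) :
    Measurable fun a => ind (q a) := by
  unfold ind
  exact Measurable.ite h measurable_const measurable_const

theorem f2t_ind_pos {q : Prop} (h : q) : ind q = 1 := by simp [ind, h]

theorem f2t_ind_neg {q : Prop} (h : ¬q) : ind q = 0 := by simp [ind, h]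

theorem f2t_below (z : Dy → ℝ) (V : Dy) :
    ∑' A : Dy, ind (V <:+ A ∧ ∀ B, B <:+ A → V <:+ B → 0 < z B) ≤ nB (sub z V) := by
  have hinj : Function.Injective fun B : Dy => B ++ V := fun B B' h => List.append_cancel_right h
  rw [← hinj.tsum_eq (f := fun A => ind (V <:+ A ∧ ∀ B, B <:+ A → V <:+ B → 0 < z B))]
  · refine ENNReal.tsum_le_tsum fun B => ?_
    by_cases h : V <:+ B ++ V ∧ ∀ B', B' <:+ B ++ V → V <:+ B' → 0 < z B'
    · have : IntN (sub z V) B := fun B' hB' => by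
        obtain ⟨t, rfl⟩ := hB'
        exact h.2 (B' ++ V) ⟨t, by simp⟩ (List.suffix_append _ _)
      rw [f2t_ind_pos h, f2t_ind_pos this]
    · rw [f2t_ind_neg h]; exact zero_le
  · intro A hA
    by_contra hc
    refine hA (f2t_ind_neg fun h => hc ?_)
    obtain ⟨t, rfl⟩ := h.1
    exact ⟨t, rfl⟩

theorem f2t_cmp (x y z : Dy → ℝ) (S S' : Dy) (hxy : ∀ B, ¬S <:+ B → ¬S' <:+ B → x B = y B)
    (hxz : ∀ B, x B ≤ z B) :
    nB x ≤ nB y + 1 + (∑ c : Fin 2 × Fin 2, nB (sub z (c :: S)) + nB (sub z S')) := by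
  have h1 : ∀ A, ind (IntN x A) ≤ ind (IntN y A) + ind (A = S) +
      (∑ c : Fin 2 × Fin 2, ind (c :: S <:+ A ∧ ∀ B, B <:+ A → c :: S <:+ B → 0 < z B) +
        ind (S' <:+ A ∧ ∀ B, B <:+ A → S' <:+ B → 0 < z B)) := by
    intro A
    by_cases hA : IntN x A
    swap
    · rw [f2t_ind_neg hA]; exact zero_le
    rw [f2t_ind_pos hA]
    have hz : ∀ B, B <:+ A → 0 < z B := fun B hB => (hA B hB).trans_le (hxz B)
    by_cases h2 : S' <:+ A
    · rw [f2t_ind_pos (q := S' <:+ A ∧ _) ⟨h2, fun B hB _ => hz B hB⟩]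
      exact le_add_self.trans le_add_self
    by_cases h3 : S <:+ A
    · by_cases h4 : A = S
      · rw [f2t_ind_pos h4]
        exact le_add_self.trans le_self_add
      · obtain ⟨t, rfl⟩ := h3
        rcases List.eq_nil_or_concat t with rfl | ⟨t', c, rfl⟩
        · exact absurd rfl h4
        · refine le_trans ?_ (le_self_add.trans le_add_self)
          refine le_trans ?_ (Finset.single_le_sum (fun _ _ => zero_le) (Finset.mem_univ c))
          rw [f2t_ind_pos (q := _ ∧ _) ⟨⟨t', by simp⟩, fun B hB _ => hz B hB⟩]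
    · have : IntN y A := fun B hB => by
        rw [← hxy B (fun h => h3 (h.trans hB)) (fun h => h2 (h.trans hB))]
        exact hA B hB
      rw [f2t_ind_pos this]
      exact le_self_add.trans le_self_add
  refine (ENNReal.tsum_le_tsum h1).trans ?_
  rw [ENNReal.tsum_add, ENNReal.tsum_add, ENNReal.tsum_add,
    Summable.tsum_finsetSum fun _ _ => ENNReal.summable]
  refine add_le_add (add_le_add le_rfl (le_of_eq ?_))
    (add_le_add (Finset.sum_le_sum fun c _ => f2t_below z _) (f2t_below z _))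
  rw [tsum_eq_single S fun A hA => f2t_ind_neg hA, f2t_ind_pos rfl]

theorem f2t_sib (d : Fin 2 × Fin 2) (P : Dy) :
    ¬d :: P <:+ sib (d :: P) ∧ ¬sib (d :: P) <:+ d :: P := by
  have hne : d :: P ≠ sib (d :: P) := by
    intro h
    have h1 : d = (d.1 + 1, d.2) := (List.cons.inj h).1
    have h2 : d.1 = d.1 + 1 := congrArg Prod.fst h1
    revert h2
    generalize d.1 = a
    revert a
    decide
  exact ⟨fun h => hne (h.eq_of_length rfl), fun h => hne (h.eq_of_length rfl).symm⟩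

/-- the direction `vs` moves only the square, its sibling and their descendants -/
theorem f2t_vs (hBMP : St_BMP) : ∃ E C : ℝ, 0 < E ∧ 0 < C ∧ ∀ M : Model, (∀ S, box S ⊆ M.O) →
    ∀ (d : Fin 2 × Fin 2) (P : Dy), ‖M.vs (d :: P)‖ ^ 2 = 2 * E ∧
      ⟪M.vs (d :: P), M.eS (d :: P)⟫ = bb ∧ (∀ B, |⟪M.vs (d :: P), M.eS B⟫| ≤ C) ∧
      ∀ B, ¬d :: P <:+ B → ¬sib (d :: P) <:+ B → ⟪M.vs (d :: P), M.eS B⟫ = 0 := by
  obtain ⟨-, E, C, hE, hC, -, hM⟩ := hBMP
  refine ⟨E, C, hE, hC, fun M hO d P => ?_⟩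
  obtain ⟨-, hb, hc, -, he, hf, -⟩ := hM M
  obtain ⟨s1, s2⟩ := f2t_sib d P
  have hsd : ∀ S : Dy, side S ≠ 0 := fun S => by unfold side; positivity
  refine ⟨?_, ?_, fun B => ?_, fun B h1 h2 => ?_⟩
  · rw [Model.vs, norm_sub_sq_real, hb, hb, (hc _ _ s1 s2).1]
    ring
  · rw [Model.vs, inner_sub_left, he _ _ (hO _) List.suffix_rfl, (hc _ _ s2 s1).2 (hO _),
      div_self (hsd _)]
    ring
  · rw [Model.vs, inner_sub_left, abs_le]
    have a1 := hf (d :: P) B (hO _)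
    have a2 := hf (sib (d :: P)) B (hO _)
    constructor <;> linarith [a1.1, a1.2, a2.1, a2.2]
  · rw [Model.vs, inner_sub_left]
    by_cases hP : B <:+ P
    · rw [he _ _ (hO _) (hP.trans (List.suffix_cons _ _)),
        he (sib (d :: P)) B (hO _) (hP.trans (List.suffix_cons _ _))]
      exact sub_self _
    · have b1 : ¬B <:+ d :: P := fun h => by
        rcases List.suffix_cons_iff.1 h with rfl | h
        · exact h1 List.suffix_rfl
        · exact hP h
      have b2 : ¬B <:+ sib (d :: P) := fun h => by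
        rcases List.suffix_cons_iff.1 h with rfl | h
        · exact h2 List.suffix_rfl
        · exact hP h
      rw [(hc _ _ h1 b1).2 (hO _), (hc _ _ h2 b2).2 (hO _), sub_self]

theorem f2t_win (m n J : ℕ) (h1 : (n : ℝ≥0∞) ≤ m + J) (h2 : (m : ℝ≥0∞) ≤ n + J) :
    1 ≤ ∑ ι ∈ Finset.Icc (n - J) (n + J), ind ((m : ℝ≥0∞) = (ι : ℝ≥0∞)) := by
  have h1' : n ≤ m + J := by exact_mod_cast h1
  have h2' : m ≤ n + J := by exact_mod_cast h2
  refine le_trans ?_ (Finset.single_le_sum (fun _ _ => zero_le)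
    (Finset.mem_Icc.2 ⟨by omega, h2'⟩))
  rw [f2t_ind_pos rfl]

/-- one threshold square -/
theorem f2t_one (hBMP : St_BMP) (hT1 : St_T1) (hT3 : St_T3) (hG5 : St_G5) :
    ∃ K1 K2 : ℝ, 0 ≤ K1 ∧ ∀ (γ : ℝ) (M : Model), (∀ S, box S ⊆ M.O) →
      ∀ (J n : ℕ) (Mx lam : ℝ) (P : Dy) (d : Fin 2 × Fin 2), 0 < lam →
      ∫⁻ ω, ind (IntN (M.X γ 0 ω) P ∧
        |M.X γ 0 ω (d :: P)| ≤ lam ∧ (n : ℝ≥0∞) ≤ nB (M.X γ 0 ω) + J ∧ nB (M.X γ 0 ω) ≤ n + J ∧
        ∑ c : Fin 2 × Fin 2, nB (sub (sh (M.X γ 0 ω) (1 / 4)) (c :: d :: P)) +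
          nB (sub (sh (M.X γ 0 ω) (1 / 4)) (sib (d :: P))) ≤ J ∧
        Mx ≤ |ω (M.vs (d :: P))|) * eE |ω (M.vs (d :: P))| ∂gm ≤
      ENNReal.ofReal (K1 * lam) * (eE (K2 - Mx) *
        ∫⁻ ω, (∑ ι ∈ Finset.Icc (n - (2 * J + 1)) (n + (2 * J + 1)),
          ind (nB (M.X γ 0 ω) = (ι : ℝ≥0∞))) *
          (ind (IntN (M.X γ 0 ω) P) * eE (2 * |ω (M.vs (d :: P))|)) ∂gm) := by
  obtain ⟨E, C, hE, hC, hvs⟩ := f2t_vs hBMP
  have hbb := hBMP.1
  obtain ⟨C5, hC5⟩ := hG5 ((4 * C)⁻¹ * Real.sqrt (2 * E)) (by positivity)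
  refine ⟨max C5 0 * (8 * C / bb), 2 * ((4 * C)⁻¹ * (2 * E)), by positivity,
    fun γ M hO J n Mx lam P d hlam => ?_⟩
  obtain ⟨v1, v2, v3, v4⟩ := hvs M hO d P
  set v := M.vs (d :: P) with hv
  set h : HH := (4 * C)⁻¹ • v with hh
  have hX : Measurable (M.X γ 0) := (hT3.2.2.2.2.2.2.2.2.2.2.1 M γ 0).1
  have hN : Measurable fun ω => nB (M.X γ 0 ω) := hT3.1.comp hX
  have hI : MeasurableSet {ω | IntN (M.X γ 0 ω) P} := hX (hT3.2.1 P).1
  have hS : ∀ V, Measurable fun ω => nB (sub (sh (M.X γ 0 ω) (1 / 4)) V) := fun V =>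
    hT3.1.comp (measurable_pi_lambda _ fun S => ((measurable_pi_apply _).comp hX).add_const _)
  have hXs : ∀ (ω : Om) (s : ℝ) B, M.X γ 0 (ω + s • dv h) B =
      M.X γ 0 ω B + s * ((4 * C)⁻¹ * ⟪v, M.eS B⟫) := by
    intro ω s B
    simp only [Model.X, drift, LinearMap.add_apply, LinearMap.smul_apply, dv_apply, smul_eq_mul,
      hh, real_inner_smul_left]
    ring
  have hvs' : ∀ (ω : Om) (s : ℝ), (ω + s • dv h) v = ω v + s * ((4 * C)⁻¹ * (2 * E)) := by
    intro ω s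
    simp only [LinearMap.add_apply, LinearMap.smul_apply, dv_apply, smul_eq_mul,
      hh, real_inner_smul_left, real_inner_self_eq_norm_sq, v1]
  have hmb : Measurable fun ω : Om => (∑ ι ∈ Finset.Icc (n - (2 * J + 1)) (n + (2 * J + 1)),
      ind (nB (M.X γ 0 ω) = (ι : ℝ≥0∞))) * (ind (IntN (M.X γ 0 ω) P) * eE (2 * |ω v|)) :=
    (Finset.measurable_sum _ fun ι _ => f2t_meas_ind (hN (measurableSet_singleton _))).mul
      ((f2t_meas_ind hI).mul (f2t_eE_meas.comp ((meas_ev v).abs.const_mul _)))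
  rw [← lintegral_const_mul _ hmb]
  refine (hC5 h ?_ (8 * C / bb * lam) _ _ (by positivity) ?_ (hmb.const_mul _) ?_ ?_).trans
    (mul_le_mul_left (ENNReal.ofReal_le_ofReal ?_) _)
  · rw [hh, norm_smul, Real.norm_eq_abs, abs_of_pos (by positivity), ← v1,
      Real.sqrt_sq (norm_nonneg _)]
  · refine (f2t_meas_ind (hI.inter (MeasurableSet.inter ?_ (MeasurableSet.inter ?_
      (MeasurableSet.inter ?_ (MeasurableSet.inter ?_ ?_)))))).mul
      (f2t_eE_meas.comp (meas_ev v).abs)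
    · exact measurableSet_le ((measurable_pi_apply _).comp hX).abs measurable_const
    · exact measurableSet_le measurable_const (hN.add_const _)
    · exact measurableSet_le hN measurable_const
    · exact measurableSet_le ((Finset.measurable_sum _ fun c _ => hS _).add (hS _))
        measurable_const
    · exact measurableSet_le measurable_const (meas_ev v).abs
  · intro ω s s' h1 h2
    have a1 : |M.X γ 0 (ω + s • dv h) (d :: P)| ≤ lam := by
      by_contra hc
      exact h1 (by rw [f2t_ind_neg fun h => hc h.2.1, zero_mul])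
    have a2 : |M.X γ 0 (ω + s' • dv h) (d :: P)| ≤ lam := by
      by_contra hc
      exact h2 (by rw [f2t_ind_neg fun h => hc h.2.1, zero_mul])
    rw [hXs, v2, abs_le] at a1 a2
    have hp : 0 < (4 * C)⁻¹ * bb := by positivity
    have e : 8 * C / bb * lam * ((4 * C)⁻¹ * bb) = 2 * lam := by field_simp; ring
    rw [abs_le]
    constructor
    · refine le_of_mul_le_mul_right ?_ hp
      nlinarith [a1.1, a2.2]
    · refine le_of_mul_le_mul_right ?_ hp
      nlinarith [a1.2, a2.1]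
  · intro ω s hs
    by_cases hq : IntN (M.X γ 0 (ω + s • dv h)) P ∧
        |M.X γ 0 (ω + s • dv h) (d :: P)| ≤ lam ∧ (n : ℝ≥0∞) ≤ nB (M.X γ 0 (ω + s • dv h)) + J ∧
        nB (M.X γ 0 (ω + s • dv h)) ≤ n + J ∧
        ∑ c : Fin 2 × Fin 2, nB (sub (sh (M.X γ 0 (ω + s • dv h)) (1 / 4)) (c :: d :: P)) +
          nB (sub (sh (M.X γ 0 (ω + s • dv h)) (1 / 4)) (sib (d :: P))) ≤ J ∧
        Mx ≤ |(ω + s • dv h) v|
    swap
    · rw [f2t_ind_neg hq, zero_mul]; exact zero_le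
    rw [f2t_ind_pos hq, one_mul]
    obtain ⟨q1, -, q3, q4, q5, q6⟩ := hq
    set x := M.X γ 0 ω with hx
    set x' := M.X γ 0 (ω + s • dv h) with hx'
    have e1 : ∀ B, ¬d :: P <:+ B → ¬sib (d :: P) <:+ B → x B = x' B := fun B h1 h2 => by
      rw [hx', hXs, v4 B h1 h2, mul_zero, mul_zero, add_zero]
    have e2 : ∀ B, x B ≤ sh x' (1 / 4) B := fun B => by
      have b1 : |s * ((4 * C)⁻¹ * ⟪v, M.eS B⟫)| ≤ 1 * ((4 * C)⁻¹ * C) := by
        rw [abs_mul, abs_mul, abs_of_pos (by positivity : 0 < (4 * C)⁻¹)]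
        exact mul_le_mul hs (mul_le_mul_of_nonneg_left (v3 B) (by positivity)) (by positivity)
          zero_le_one
      have b2 : 1 * ((4 * C)⁻¹ * C) = 1 / 4 := by field_simp
      have b3 := (abs_le.1 b1).1
      simp only [sh, hx', hXs]
      linarith
    have e3 : ∀ B, x' B ≤ sh x' (1 / 4) B := fun B => by
      simp only [sh]
      linarith
    have c1 := f2t_cmp x x' _ _ _ e1 e2
    have c2 := f2t_cmp x' x _ _ _ (fun B h1 h2 => (e1 B h1 h2).symm) e3
    have c3 : nB x ≤ n + (2 * J + 1 : ℕ) := by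
      refine c1.trans ((add_le_add (add_le_add q4 le_rfl) q5).trans (le_of_eq ?_))
      push_cast
      ring
    have c4 : (n : ℝ≥0∞) ≤ nB x + (2 * J + 1 : ℕ) := by
      refine q3.trans ((add_le_add (c2.trans (add_le_add le_rfl q5)) le_rfl).trans (le_of_eq ?_))
      push_cast
      ring
    have c5 : nB x ≠ ∞ := ne_top_of_le_ne_top
      (ENNReal.add_ne_top.2 ⟨ENNReal.natCast_ne_top _, ENNReal.natCast_ne_top _⟩) c3
    have c6 := (hT1.2.2.2.2.2.2.2.2.2.2.2.1 x _ (hT1.2.2.2.2.2.2.2.2.2.2.2.2.1 x c5)).2.2.1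
    have c7 : IntN x P := fun B hB => by
      have hl := hB.length_le
      rw [e1 B (fun h => by have := h.length_le; simp at this; omega)
        (fun h => by have := h.length_le; simp [sib] at this; omega)]
      exact q1 B hB
    rw [c6] at c3 c4
    rw [f2t_ind_pos c7, one_mul, c6, mul_left_comm, ← f2t_eE_add]
    refine le_trans ?_ (mul_le_mul_left (f2t_win _ _ _ c4 c3) _)
    rw [one_mul]
    refine f2t_eE_mono ?_
    have b1 : |(ω + s • dv h) v| ≤ |ω v| + (4 * C)⁻¹ * (2 * E) := by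
      rw [hvs']
      refine (abs_add_le _ _).trans (add_le_add le_rfl ?_)
      rw [abs_mul, abs_of_pos (by positivity : 0 < (4 * C)⁻¹ * (2 * E))]
      exact mul_le_of_le_one_left (by positivity) hs
    linarith
  · rw [← mul_assoc]
    exact mul_le_mul_of_nonneg_right (mul_le_mul_of_nonneg_right (le_max_left _ _)
      (by positivity)) hlam.le

theorem blk_F2T (_hG1 : St_G1) (_hMOD : St_MOD) (hBMP : St_BMP) (hT1 : St_T1) (hT3 : St_T3)
    (hRW1 : St_RW1) (hG5 : St_G5) (hUL : St_UL) : St_F2T := by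
  intro γ hγ M hM J η hη
  have hO : ∀ S, box S ⊆ M.O := fun S =>
    (((blk_GEO1 hT1).2.2.2.2.1 S []).2 List.nil_suffix).trans hM
  obtain ⟨K1, K2, hK1, hone⟩ := f2t_one hBMP hT1 hT3 hG5
  obtain ⟨K, hK⟩ := (hUL γ hγ M hM).2.2
  obtain ⟨-, -, hθ, -⟩ := hRW1.2.2 γ hγ
  set J' := 2 * J + 1 with hJ'
  set K3 : ℝ := K1 * Real.exp K2 * ((2 * J' + 1) * (max K 0 * 2 ^ (th γ + 1))) with hK3
  have hK3p : 0 ≤ K3 := by positivity
  refine ⟨K3 / η, (eventually_ge_atTop (2 * J' + 2)).mono fun n hn lam hlam => ?_⟩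
  have hX : Measurable (M.X γ 0) := (hT3.2.2.2.2.2.2.2.2.2.2.1 M γ 0).1
  have hN : Measurable fun ω => nB (M.X γ 0 ω) := hT3.1.comp hX
  have hme : ∀ S, Measurable fun ω : Om => eE (2 * |ω (M.vs S)|) := fun S =>
    f2t_eE_meas.comp ((meas_ev _).abs.const_mul _)
  have hW : Measurable fun ω : Om => ∑ ι ∈ Finset.Icc (n - J') (n + J'),
      ind (nB (M.X γ 0 ω) = (ι : ℝ≥0∞)) :=
    Finset.measurable_sum _ fun ι _ => f2t_meas_ind (hN (measurableSet_singleton _))
  have hmb : ∀ (P : Dy) (d : Fin 2 × Fin 2), Measurable fun ω : Om =>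
      (∑ ι ∈ Finset.Icc (n - J') (n + J'), ind (nB (M.X γ 0 ω) = (ι : ℝ≥0∞))) *
        (ind (IntN (M.X γ 0 ω) P) * eE (2 * |ω (M.vs (d :: P))|)) := fun P d =>
    hW.mul ((f2t_meas_ind (hX (hT3.2.1 P).1)).mul (hme _))
  have hT : Measurable fun ω : Om => ∑ P ∈ tr (M.X γ 0 ω), ∑ d : Fin 2 × Fin 2,
      eE (2 * |ω (M.vs (d :: P))|) :=
    hT3.2.2.2.1 Om ℝ≥0∞ (M.X γ 0) (fun T ω => ∑ P ∈ T, ∑ d : Fin 2 × Fin 2,
      eE (2 * |ω (M.vs (d :: P))|)) hX fun T =>
        Finset.measurable_sum _ fun P _ => Finset.measurable_sum _ fun d _ => hme _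
  have hnp : (0 : ℝ) < n := by exact_mod_cast (by omega : 0 < n)
  have s1 : ∑' P : Dy, ∑ d : Fin 2 × Fin 2, ∫⁻ ω,
      (∑ ι ∈ Finset.Icc (n - J') (n + J'), ind (nB (M.X γ 0 ω) = (ι : ℝ≥0∞))) *
        (ind (IntN (M.X γ 0 ω) P) * eE (2 * |ω (M.vs (d :: P))|)) ∂gm ≤
      ENNReal.ofReal ((2 * J' + 1) * (max K 0 * 2 ^ (th γ + 1)) * (n : ℝ) ^ (-(th γ + 1))) := by
    simp_rw [← lintegral_finsetSum _ fun d _ => hmb _ d]
    rw [← lintegral_tsum fun P => (Finset.measurable_sum _ fun d _ => hmb P d).aemeasurable]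
    calc _ ≤ ∫⁻ ω, ∑ ι ∈ Finset.Icc (n - J') (n + J'), ind (nB (M.X γ 0 ω) = (ι : ℝ≥0∞)) *
          ∑ P ∈ tr (M.X γ 0 ω), ∑ d : Fin 2 × Fin 2, eE (2 * |ω (M.vs (d :: P))|) ∂gm := by
          refine lintegral_mono fun ω => ?_
          simp only
          simp_rw [← Finset.mul_sum]
          rw [ENNReal.tsum_mul_left, ← Finset.sum_mul]
          by_cases hf : nB (M.X γ 0 ω) = ∞
          · rw [Finset.sum_eq_zero fun ι _ => f2t_ind_neg (by simp [hf]), zero_mul, zero_mul]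
          · have hH := hT1.2.2.2.2.2.2.2.2.2.2.2.2.1 _ hf
            refine mul_le_mul_right (le_of_eq ?_) _
            rw [tsum_eq_sum (s := tr (M.X γ 0 ω)) fun P hP => by
              rw [f2t_ind_neg fun h => hP ((hH P).2 h), zero_mul]]
            exact Finset.sum_congr rfl fun P hP => by rw [f2t_ind_pos ((hH P).1 hP), one_mul]
      _ ≤ ∑ _ι ∈ Finset.Icc (n - J') (n + J'),
            ENNReal.ofReal (max K 0 * 2 ^ (th γ + 1) * (n : ℝ) ^ (-(th γ + 1))) := by
          have hm : ∀ ι : ℕ, Measurable fun ω : Om => ind (nB (M.X γ 0 ω) = (ι : ℝ≥0∞)) *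
              ∑ P ∈ tr (M.X γ 0 ω), ∑ d : Fin 2 × Fin 2, eE (2 * |ω (M.vs (d :: P))|) := fun ι =>
            (f2t_meas_ind (hN (measurableSet_singleton _))).mul hT
          rw [lintegral_finsetSum _ fun ι _ => hm ι]
          refine Finset.sum_le_sum fun ι hι => ?_
          rw [Finset.mem_Icc] at hι
          refine (hK ι (by omega)).trans (ENNReal.ofReal_le_ofReal ?_)
          have b1 : (n : ℝ) / 2 ≤ ι := by
            have : n ≤ 2 * ι := by omega
            have : (n : ℝ) ≤ 2 * ι := by exact_mod_cast this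
            linarith
          have b2 : (ι : ℝ) ^ (-(th γ + 1)) ≤ ((n : ℝ) / 2) ^ (-(th γ + 1)) :=
            Real.rpow_le_rpow_of_nonpos (by positivity) b1 (by linarith)
          rw [Real.div_rpow hnp.le (by norm_num), Real.rpow_neg (by norm_num : (0 : ℝ) ≤ 2),
            div_inv_eq_mul] at b2
          rw [mul_assoc, mul_comm (2 ^ (th γ + 1))]
          exact mul_le_mul (le_max_left _ _) b2 (by positivity) (le_max_right _ _)
      _ = _ := by
          rw [Finset.sum_const, Nat.card_Icc, nsmul_eq_mul,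
            show n + J' + 1 - (n - J') = 2 * J' + 1 by omega, ← ENNReal.ofReal_natCast,
            ← ENNReal.ofReal_mul (by positivity), mul_assoc]
          push_cast
          ring_nf
  refine (mul_le_mul_right (ENNReal.tsum_le_tsum fun P => Finset.sum_le_sum fun d _ =>
    hone γ M hO J n (K3 / η) lam P d hlam.1) _).trans ?_
  simp_rw [← Finset.mul_sum]
  rw [ENNReal.tsum_mul_left, ENNReal.tsum_mul_left]
  refine (mul_le_mul_right (mul_le_mul_right (mul_le_mul_right s1 _) _) _).trans ?_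
  have hl := hlam.1
  rw [eE, ← ENNReal.ofReal_mul (by positivity), ← ENNReal.ofReal_mul (by positivity),
    ← ENNReal.ofReal_mul (by positivity)]
  refine ENNReal.ofReal_le_ofReal ?_
  have e1 : (n : ℝ) ^ (th γ + 1) * (n : ℝ) ^ (-(th γ + 1)) = 1 := by
    rw [← Real.rpow_add hnp, add_neg_cancel, Real.rpow_zero]
  have e2 : K3 * Real.exp (-(K3 / η)) ≤ η := by
    rw [Real.exp_neg, ← div_eq_mul_inv, div_le_iff₀ (Real.exp_pos _)]
    have := Real.add_one_le_exp (K3 / η)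
    have e : η * (K3 / η) = K3 := by field_simp
    nlinarith
  calc _ = ((n : ℝ) ^ (th γ + 1) * (n : ℝ) ^ (-(th γ + 1))) * (K3 * Real.exp (-(K3 / η))) * lam := by
        rw [sub_eq_add_neg, Real.exp_add, hK3]
        ring
    _ ≤ η * lam := by
        rw [e1, one_mul]
        exact mul_le_mul_of_nonneg_right e2 hl.le

end

end Pool.Agent.Lib.APPS
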