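import Pool.Agent.Lib.APPS.Blue4

/-!
Block FA: convergence of the conditioned embedded measure.
-/

namespace Pool.Agent.Lib.APPS

open MeasureTheory ProbabilityTheory Filter Topology Set Metric
open scoped NNReal ENNReal RealInnerProductSpace CompactlySupported BoundedContinuousFunction

noncomputable section

namespace FA

theorem integ {Ω : Type} [MeasurableSpace Ω] (P : Measure Ω) [IsProbabilityMeasure P]
    (e S : Ω → ℝ) (he : Measurable e) (hS : Measurable S) (he1 : ∀ ω, e ω = 0 ∨ e ω = 1)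
    (hS1 : ∀ ω, 0 ≤ S ω ∧ S ω ≤ 1) : Integrable (fun ω => e ω * S ω) P := by
  refine Integrable.of_bound (he.mul hS).aestronglyMeasurable 1 (ae_of_all _ fun ω => ?_)
  rcases he1 ω with h | h
  · simp [h]
  · rw [h, one_mul, Real.norm_eq_abs, abs_of_nonneg (hS1 ω).1]
    exact (hS1 ω).2

theorem key {Ω : Type} [MeasurableSpace Ω] (P : Measure Ω) [IsProbabilityMeasure P]
    (e S lo up gap : Ω → ℝ) (B : Set Ω) (η : ℝ) (hη : 0 ≤ η) (he : Measurable e)
    (he1 : ∀ ω, e ω = 0 ∨ e ω = 1) (hS : Measurable S) (hS1 : ∀ ω, 0 ≤ S ω ∧ S ω ≤ 1)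
    (hlo : Measurable lo) (hlo1 : ∀ ω, 0 ≤ lo ω ∧ lo ω ≤ 1)
    (hup : Measurable up) (hup1 : ∀ ω, 0 ≤ up ω ∧ up ω ≤ 1)
    (hg : Measurable gap) (hg1 : ∀ ω, 0 ≤ gap ω ∧ gap ω ≤ 1)
    (h : ∀ ω, e ω = 1 → ω ∉ B → lo ω - gap ω - η ≤ S ω ∧ S ω ≤ up ω + gap ω + η) :
    ∫ ω, e ω * lo ω ∂P - ∫ ω, e ω * gap ω ∂P - η * ∫ ω, e ω * 1 ∂P - P.real B ≤
        ∫ ω, e ω * S ω ∂P ∧
      ∫ ω, e ω * S ω ∂P ≤
        ∫ ω, e ω * up ω ∂P + ∫ ω, e ω * gap ω ∂P + η * ∫ ω, e ω * 1 ∂P + P.real B := by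
  have iS := integ P e S he hS he1 hS1
  have ilo := integ P e lo he hlo he1 hlo1
  have iup := integ P e up he hup he1 hup1
  have ig := integ P e gap he hg he1 hg1
  have i1 := (integ P e (fun _ => 1) he measurable_const he1 fun _ => by norm_num).const_mul η
  have hB := measurableSet_toMeasurable P B
  have iB : Integrable ((toMeasurable P B).indicator (1 : Ω → ℝ)) P :=
    (integrable_const (1 : ℝ)).indicator hB
  have eB : ∫ ω, (toMeasurable P B).indicator (1 : Ω → ℝ) ω ∂P = P.real B := by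
    rw [integral_indicator_one hB, Measure.real, Measure.real, measure_toMeasurable]
  have hpt : ∀ ω, e ω * lo ω - e ω * gap ω - η * (e ω * 1) -
        (toMeasurable P B).indicator (1 : Ω → ℝ) ω ≤ e ω * S ω ∧
      e ω * S ω ≤ e ω * up ω + e ω * gap ω + η * (e ω * 1) +
        (toMeasurable P B).indicator (1 : Ω → ℝ) ω := by
    intro ω
    have b0 : 0 ≤ (toMeasurable P B).indicator (1 : Ω → ℝ) ω :=
      indicator_nonneg (fun _ _ => zero_le_one) _
    rcases he1 ω with h0 | h0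
    · simp only [h0, zero_mul, mul_zero]
      constructor <;> linarith
    · by_cases hω : ω ∈ B
      · rw [indicator_of_mem (subset_toMeasurable P B hω)]
        simp only [h0, one_mul, mul_one, Pi.one_apply]
        constructor <;> linarith [hS1 ω, hlo1 ω, hup1 ω, hg1 ω]
      · have := h ω h0 hω
        simp only [h0, one_mul, mul_one]
        constructor <;> linarith [this.1, this.2]
  rw [← eB, ← integral_const_mul]
  constructor
  · have j1 : Integrable (fun ω => e ω * lo ω - e ω * gap ω) P := ilo.sub ig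
    have j2 : Integrable (fun ω => e ω * lo ω - e ω * gap ω - η * (e ω * 1)) P := j1.sub i1
    rw [← integral_sub ilo ig, ← integral_sub j1 i1, ← integral_sub j2 iB]
    exact integral_mono (j2.sub iB) iS fun ω => (hpt ω).1
  · have j1 : Integrable (fun ω => e ω * up ω + e ω * gap ω) P := iup.add ig
    have j2 : Integrable (fun ω => e ω * up ω + e ω * gap ω + η * (e ω * 1)) P := j1.add i1
    rw [← integral_add iup ig, ← integral_add j1 i1, ← integral_add j2 iB]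
    exact integral_mono iS (j2.add iB) fun ω => (hpt ω).2

theorem arith {w p c ε b I Il Iu Ig q : ℝ} (hw : 0 < w) (hc : 0 < c) (hε : 0 < ε)
    (hp : c ≤ w * p) (hb : w * b ≤ ε * c)
    (h1 : Il - Ig - ε * p - b ≤ I) (h2 : I ≤ Iu + Ig + ε * p + b)
    (hl : q - 2 * ε < w * Il / (w * p)) (hu : w * Iu / (w * p) < q + 2 * ε)
    (hg : w * Ig / (w * p) < 2 * ε) : |I / p - q| < 7 * ε := by
  have hp0 : 0 < p := by
    by_contra h
    have := mul_nonpos_of_nonneg_of_nonpos hw.le (not_lt.1 h)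
    linarith
  rw [mul_div_mul_left _ _ hw.ne'] at hl hu hg
  rw [lt_div_iff₀ hp0] at hl
  rw [div_lt_iff₀ hp0] at hu hg
  have hb' : b ≤ ε * p := by
    have : w * b ≤ w * (ε * p) := by nlinarith [mul_le_mul_of_nonneg_left hp hε.le]
    exact le_of_mul_le_mul_left this hw
  have hεp := mul_pos hε hp0
  rw [abs_sub_lt_iff]
  constructor
  · rw [sub_lt_iff_lt_add, div_lt_iff₀ hp0]
    nlinarith
  · rw [sub_lt_comm, lt_div_iff₀ hp0]
    nlinarith

end FA

open FA in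
theorem blk_FA (h1 : St_G1) (hT1 : St_T1) (hT3 : St_T3) (_hR : St_RW1) (hTF : St_TF)
    (hP : St_PHI) (hE : St_ENV) (hMS : St_MS) (hFA1 : St_FA1) (hMU : St_MU0) (hFA2 : St_FA2)
    (hLT : St_LT) (hMV : St_MV) (_hLLE : St_LLE) : St_FA := by
  intro γ hγ D g M hL cV hcV hV a ha k f G hG
  have := h1.1
  obtain ⟨tf, htf⟩ := hTF
  set V := Real.sqrt (3 / cV) with hVd
  set q := qsE γ V a D.P D.μ (PhiT f G) with hq
  obtain ⟨⟨c, hc, hcl⟩, hlt⟩ := hLT γ hγ D M hL.sub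
  obtain ⟨hv1, hv2, hv3, -, hv5⟩ := hMV γ hγ g M hL
  obtain ⟨-, hm2, hm3, -⟩ := hMS a ha.1 k f G
  obtain ⟨a1, a2, a3, -⟩ := hFA2 γ hγ D tf htf V a ha.1 ha.2 k f G hG
  have hLz : 0 < D.Lz tf one' := (((hMU.2 γ hγ D).2 tf htf).2.2.2.2)
  have a3' : Tendsto (fun Λ : ℕ => D.Lz tf (gapE (relE a (PhiT f G) tf) V Λ) / D.Lz tf one')
      atTop (𝓝 0) := by
    simpa using a3.div_const (D.Lz tf one')
  have hR := hE (relR a (PhiT f G) tf) V (by
    rintro t ⟨m, -, rfl⟩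
    exact (hm3 hG).1 m)
  have hEE := hE (relE a (PhiT f G) tf) V (by
    rintro t ⟨ν, z, ρ, -, -, rfl⟩
    exact (hm3 hG).2 ν)
  have hX : Measurable (M.X γ 0) := (hT3.2.2.2.2.2.2.2.2.2.2.1 M γ 0).1
  have hEm : ∀ ι : ℕ, MeasurableSet {ω | nB (M.X γ 0 ω) = ι} := fun ι =>
    (hT3.1.comp hX) (measurableSet_singleton (ι : ℝ≥0∞))
  have hΦ : ∀ Φ : Finset Dy → ℝ, Measurable fun ω => Φ (tr (M.X γ 0 ω)) := fun Φ =>
    hT3.2.2.2.1 Om ℝ (M.X γ 0) (fun T _ => Φ T) hX fun _ => measurable_const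
  have hev : Measurable fun (ω : Om) (S : Dy) => ω (M.eS S) :=
    measurable_pi_lambda _ fun S => meas_ev _
  have hSm : Measurable fun ω : Om =>
      sampleAvg a (PhiT f G) (g.volg (QQ γ) fun S => ω (M.eS S)) :=
    (hm2 Om (fun ω => g.volg (QQ γ) fun S => ω (M.eS S)) (hv2.comp hev) fun ω => (hv1 _).1).2
  rw [Metric.tendsto_nhds]
  intro ε7 hε7
  set ε := ε7 / 7 with hεd
  have hε : 0 < ε := by positivity
  obtain ⟨Λ, b1, b2, b3⟩ := ((a1.eventually (lt_mem_nhds (show q - ε < q by linarith))).and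
    ((a2.eventually (gt_mem_nhds (show q < q + ε by linarith))).and
      (a3'.eventually (gt_mem_nhds hε)))).exists
  obtain ⟨η', hη', N0, hN0⟩ := hFA1 tf htf cV hcV a ha k f G hG Λ ε hε
  have hΛ : (0 : ℝ) ≤ Λ := Nat.cast_nonneg _
  have l1 := (hR.1 Λ).2.1
  have l2' := (hR.1 Λ).1
  have l3 := (hEE.1 Λ).2.2
  have c1 := ((hP.2.2.2.2.2.2.2 tf htf).2.1 _ _ hΛ l1).1
  have c2 := ((hP.2.2.2.2.2.2.2 tf htf).2.1 _ _ hΛ l2').1
  have c3 := ((hP.2.2.2.2.2.2.2 tf htf).2.1 _ _ (by positivity) l3).1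
  have hη : 0 < min η' (ε * c) := lt_min hη' (by positivity)
  filter_upwards [hcl, hV _ hη, eventually_ge_atTop N0, eventually_ge_atTop 1,
    (hlt tf htf _ _ hΛ l1).eventually (lt_mem_nhds (show q - 2 * ε < _ by linarith)),
    (hlt tf htf _ _ hΛ l2').eventually (gt_mem_nhds (show _ < q + 2 * ε by linarith)),
    (hlt tf htf _ _ (by positivity) l3).eventually (gt_mem_nhds (show _ < 2 * ε by linarith))]
    with ι d1 d2 d3 d4 d5 d6 d7
  have hι : (0 : ℝ) < ι := by exact_mod_cast d4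
  have hw : 0 < (ι : ℝ) ^ (th γ + 2) := Real.rpow_pos_of_pos hι _
  set B := {ω | nB (M.X γ 0 ω) = ι ∧ (ENNReal.ofReal (min η' (ε * c) * ι) <
    M.volT g γ ω (box [])ᶜ ∨ ∃ R, min η' (ε * c) * ι <
      |(M.volT g γ ω).real (box R) - cV * SR one (M.X γ 0 ω) R|)} with hB
  have hk := key gm (fun ω => indR (nB (M.X γ 0 ω) = ι))
    (fun ω => sampleAvg a (PhiT f G) (g.volg (QQ γ) fun S => ω (M.eS S)))
    (fun ω => PhiG tf (envLo (relR a (PhiT f G) tf) V Λ) (tr (M.X γ 0 ω)))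
    (fun ω => PhiG tf (envUp (relR a (PhiT f G) tf) V Λ) (tr (M.X γ 0 ω)))
    (fun ω => PhiG tf (gapE (relE a (PhiT f G) tf) V Λ) (tr (M.X γ 0 ω))) B ε hε.le
    (hT3.2.2.2.2.2.2.2.2.2.2.2.1 Om _ (hEm ι)).2
    (fun ω => by by_cases h : nB (M.X γ 0 ω) = ι <;> simp [indR, h])
    hSm (fun ω => (hm3 hG).2 _) (hΦ _) (fun ω => c1 _) (hΦ _) (fun ω => c2 _) (hΦ _)
    (fun ω => c3 _) (by
      intro ω h0 hω
      have hn : nB (M.X γ 0 ω) = ι := by
        by_contra h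
        simp [indR, h] at h0
      have hne : nB (M.X γ 0 ω) ≠ ∞ := by rw [hn]; exact ENNReal.natCast_ne_top _
      obtain ⟨-, -, -, -, -, -, -, -, -, -, -, t12, t13, -⟩ := hT1
      obtain ⟨e1, -, e3, -⟩ := t12 _ _ (t13 _ hne)
      have hcard : (tr (M.X γ 0 ω)).card = ι := by
        rw [hn] at e3
        exact_mod_cast e3.symm
      simp only [hB, mem_ofPred_eq, hn, true_and, not_or, not_lt, not_exists] at hω
      have hle : min η' (ε * c) * ι ≤ η' * ι :=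
        mul_le_mul_of_nonneg_right (min_le_left _ _) hι.le
      simp only [(hv5 ω hne).1]
      refine hN0 _ _ e1 (hcard ▸ d3) ⟨(hv3 ω).1, (hv3 ω).2, ?_, fun R => ?_⟩
      · rw [hcard]
        exact hω.1.trans (ENNReal.ofReal_le_ofReal hle)
      · have := (hω.2 R).trans hle
        rw [hcard]
        simpa [SR, one] using this)
  have e1 : ∫ ω, indR (nB (M.X γ 0 ω) = ι) * 1 ∂gm = gm.real {ω | nB (M.X γ 0 ω) = ι} := by
    rw [← integral_indicator_one (hEm ι)]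
    refine integral_congr_ae (ae_of_all _ fun ω => ?_)
    by_cases h : nB (M.X γ 0 ω) = ι <;> simp [indR, h, indicator]
  have hb : (ι : ℝ) ^ (th γ + 2) * gm.real B ≤ ε * c := by
    have := ENNReal.toReal_mono ENNReal.ofReal_ne_top d2
    rw [ENNReal.toReal_mul, ENNReal.toReal_ofReal hw.le, ENNReal.toReal_ofReal hη.le] at this
    exact this.trans (min_le_right _ _)
  simp only [Model.aL, oneT] at d1 d5 d6 d7
  rw [e1] at hk d1 d5 d6 d7
  rw [Real.dist_eq, show ε7 = 7 * ε by rw [hεd]; ring]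
  exact arith hw hc hε d1 hb hk.1 hk.2 d5 d6 d7

end

end Pool.Agent.Lib.APPS
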