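import Pool.Agent.Lib.APPS.Blue3

/-!
Block FA1: deterministic comparison of the volume measure with the tree functionals.
-/

namespace Pool.Agent.Lib.APPS

open MeasureTheory ProbabilityTheory Filter Topology Set Metric
open scoped NNReal ENNReal CompactlySupported BoundedContinuousFunction RealInnerProductSpace
  Classical

noncomputable section

namespace FA1

theorem avg_le (hPHI : St_PHI) {tf : ℕ → C_c(Cyl, ℝ)} (htf : IsTF tf) (T : Finset Dy)
    {H : (ℕ → ℝ) → ℝ} (hH : ∀ s, 0 ≤ H s ∧ H s ≤ 1) (c : Dy → ℝ)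
    (hc : ∀ R ∈ T, ∀ j, H (sR tf T R j) ≤ c R) :
    PhiG tf H T ≤ (T.card : ℝ)⁻¹ * ∑ R ∈ T, (1 - (T.card : ℝ)⁻¹) * c R := by
  unfold PhiG
  refine mul_le_mul_of_nonneg_left (Finset.sum_le_sum fun R hR => ?_) (by positivity)
  obtain ⟨h0, -, hs⟩ := (hPHI.2.2.2.2.2.2.2 tf htf).1 T R hR
  rw [← (hs.mul_right (c R)).tsum_eq]
  refine Summable.tsum_le_tsum (fun j => mul_le_mul_of_nonneg_left (hc R hR j) (h0 j)) ?_
    (hs.mul_right _).summable
  exact Summable.of_nonneg_of_le (fun j => mul_nonneg (h0 j) (hH _).1)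
    (fun j => mul_le_of_le_one_right (h0 j) (hH _).2) hs.summable

theorem le_avg (hPHI : St_PHI) {tf : ℕ → C_c(Cyl, ℝ)} (htf : IsTF tf) (T : Finset Dy)
    {H : (ℕ → ℝ) → ℝ} (hH : ∀ s, 0 ≤ H s ∧ H s ≤ 1) (c : Dy → ℝ)
    (hc : ∀ R ∈ T, ∀ j, c R ≤ H (sR tf T R j)) :
    (T.card : ℝ)⁻¹ * ∑ R ∈ T, (1 - (T.card : ℝ)⁻¹) * c R ≤ PhiG tf H T := by
  unfold PhiG
  refine mul_le_mul_of_nonneg_left (Finset.sum_le_sum fun R hR => ?_) (by positivity)
  obtain ⟨h0, -, hs⟩ := (hPHI.2.2.2.2.2.2.2 tf htf).1 T R hR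
  rw [← (hs.mul_right (c R)).tsum_eq]
  refine Summable.tsum_le_tsum (fun j => mul_le_mul_of_nonneg_left (hc R hR j) (h0 j))
    (hs.mul_right _).summable ?_
  exact Summable.of_nonneg_of_le (fun j => mul_nonneg (h0 j) (hH _).1)
    (fun j => mul_le_of_le_one_right (h0 j) (hH _).2) hs.summable

theorem emp_univ {T : Finset Dy} (hT : 1 ≤ T.card) : empT T univ = 1 := by
  have h : (T.card : ℝ≥0∞) ≠ 0 := by
    have : T.card ≠ 0 := by omega
    exact_mod_cast this
  simp [empT, ENNReal.inv_mul_cancel h]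

theorem emp_int (T : Finset Dy) (g : ℂ → ℝ) :
    ∫ x, g x ∂empT T = (T.card : ℝ)⁻¹ * ∑ A ∈ T, g (ctr A) := by
  rw [empT, integral_smul_measure, integral_finsetSum_measure fun A _ => integrable_dirac
    (by simp)]
  simp

theorem nrm_smul {ν : Measure ℂ} (hν : ν univ = 1) {V : ℝ} (hV : 0 < V) :
    ((ENNReal.ofReal V • ν) univ)⁻¹ • (ENNReal.ofReal V • ν) = ν := by
  rw [Measure.smul_apply, hν, smul_eq_mul, mul_one, smul_smul,
    ENNReal.inv_mul_cancel (by simpa using hV) ENNReal.ofReal_ne_top, one_smul]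

theorem smul_fin {ν : Measure ℂ} (hν : ν univ = 1) (V : ℝ) :
    IsFiniteMeasure (ENNReal.ofReal V • ν) :=
  ⟨by rw [Measure.smul_apply, hν]; simp⟩

theorem smul_real {ν : Measure ℂ} (hν : ν univ = 1) {V : ℝ} (hV : 0 < V) :
    (ENNReal.ofReal V • ν).real univ = V := by
  rw [Measure.real, Measure.smul_apply, hν, smul_eq_mul, mul_one, ENNReal.toReal_ofReal hV.le]

theorem obs_emp (hGEO1 : St_GEO1) (tf : ℕ → C_c(Cyl, ℝ)) (T : Finset Dy) (R : Dy) (j : ℕ) :
    obsP tf (empT T) (ctr R) (2 ^ j) = sR tf T R j := by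
  funext k
  rw [obsP, ← integral_indicator (measurableSet_singleton _).compl, emp_int, sR,
    ← Finset.filter_ne', Finset.sum_filter]
  congr 1
  refine Finset.sum_congr rfl fun A _ => ?_
  by_cases h : A = R
  · simp [h]
  · have : ctr A ≠ ctr R := fun h' => h (hGEO1.2.2.2.2.2.2.1 h')
    simp [h, this]

theorem rot_env (hCYL : St_CYL) (hPHI : St_PHI) (hCR : St_CR) (hGEO1 : St_GEO1)
    {tf : ℕ → C_c(Cyl, ℝ)} (htf : IsTF tf) {a V : ℝ} (ha : 0 < a) (haV : a < V) {k : ℕ}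
    (f : Fin k → C_c(Cyl, ℝ)) (G : (Fin k → ℝ) →ᵇ ℝ) {T : Finset Dy} {R : Dy} (hR : R ∈ T)
    (j : ℕ) : ∃ s, (rotAvg a (PhiT f G) ((ENNReal.ofReal V • empT T).map fun w =>
      toCyl (w - ctr R)), V, s) ∈ relR a (PhiT f G) tf ∧
      dS s (sR tf T R j) ≤ 2 * (T.card : ℝ)⁻¹ := by
  have hT : 1 ≤ T.card := Finset.card_pos.2 ⟨R, hR⟩
  have hV : 0 < V := ha.trans haV
  have hme : Measurable fun w : ℂ => toCyl (w - ctr R) := hCYL.2.2.2.2.1.comp (by fun_prop)
  set m := (ENNReal.ofReal V • empT T).map fun w => toCyl (w - ctr R) with hm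
  have hmu : m univ = ENNReal.ofReal V := by
    rw [hm, Measure.map_apply hme MeasurableSet.univ, preimage_univ, Measure.smul_apply,
      emp_univ hT, smul_eq_mul, mul_one]
  have hfin : IsFiniteMeasure m := ⟨by rw [hmu]; simp⟩
  have hsh : Measurable fun p : Cyl => (p.1 - Real.log (2 ^ j), p.2) := by fun_prop
  have htu : trans (Real.log (2 ^ j)) m univ = ENNReal.ofReal V := by
    rw [trans, Measure.map_apply hsh MeasurableSet.univ, preimage_univ, hmu]
  have htr : (trans (Real.log (2 ^ j)) m).real univ = V := by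
    rw [Measure.real, htu, ENNReal.toReal_ofReal hV.le]
  refine ⟨obsn tf (trans (Real.log (2 ^ j)) m), ⟨trans (Real.log (2 ^ j)) m, ⟨by rw [htu]; simp⟩,
    ?_⟩, hPHI.2.2.2.1 _ _ _ (by positivity) fun i => ?_⟩
  · rw [(hCR a ha k f G).1 m _ hfin
      (by rw [hmu]; exact (ENNReal.ofReal_lt_ofReal_iff hV).2 haV), htr]
  · have hc : Measurable fun w : Cyl => tf i w := (map_continuous (tf i)).measurable
    rw [obsn, htr, trans, hm, Measure.map_map hsh hme,
      integral_map (hsh.comp hme).aemeasurable hc.aestronglyMeasurable, integral_smul_measure,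
      emp_int, ENNReal.toReal_ofReal hV.le, smul_eq_mul, mul_div_cancel_left₀ _ hV.ne', sR,
      ← mul_sub, ← Finset.add_sum_erase T _ hR]
    have e : ∑ A ∈ T.erase R, tf i (((fun p : Cyl => (p.1 - Real.log (2 ^ j), p.2)) ∘
        fun w => toCyl (w - ctr R)) (ctr A)) =
        ∑ A ∈ T.erase R, tf i (toCyl (2 ^ j * (ctr A - ctr R))) := by
      refine Finset.sum_congr rfl fun A hA => ?_
      have hne : ctr A - ctr R ≠ 0 :=
        sub_ne_zero.2 fun h' => Finset.ne_of_mem_erase hA (hGEO1.2.2.2.2.2.2.1 h')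
      have := hCYL.2.2.2.2.2.2.1 (2 ^ j) _ (by positivity) hne
      push_cast at this
      rw [this]
      rfl
    rw [e, add_sub_cancel_right, abs_mul, abs_of_nonneg (by positivity)]
    exact mul_le_of_le_one_right (by positivity) (htf.bd _ _)

end FA1

open FA1 in
theorem blk_FA1 (hCYL : St_CYL) (hPHI : St_PHI) (hENV : St_ENV) (hMS : St_MS) (hCR : St_CR)
    (hOBS : St_OBS) (hGEO1 : St_GEO1) : St_FA1 := by
  intro tf htf cV hcV a ha k f G hG Λ η hη
  set V := Real.sqrt (3 / cV) with hVdef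
  have hV : 0 < V := ha.1.trans ha.2
  obtain ⟨hrot, hsam⟩ := (hMS a ha.1 k f G).2.2.1 hG
  obtain ⟨hR1, hR2, -⟩ := hENV (relR a (PhiT f G) tf) V (by
    rintro t ⟨m, -, rfl⟩; exact hrot m)
  obtain ⟨hE1, hE2, -⟩ := hENV (relE a (PhiT f G) tf) V (by
    rintro t ⟨ν, c, ρ, -, -, rfl⟩; exact hsam ν)
  have hcont : ContinuousAt (fun p : ℝ × ℝ => Real.sqrt ((3 + p.2) / p.1)) (cV, 0) :=
    Real.continuous_sqrt.continuousAt.comp
      (ContinuousAt.div (by fun_prop) (by fun_prop) hcV.ne')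
  obtain ⟨δ, hδ, hδ'⟩ := Metric.continuousAt_iff.1 hcont (1 / (Λ + 1)) (by positivity)
  obtain ⟨η', hη', N0, hO⟩ := hOBS tf htf cV hcV (min (min (δ / 2) (cV / 2)) (η / (2 * (Λ + 1))))
    (by positivity)
  obtain ⟨N1, hN1⟩ := exists_nat_gt (max (2 / δ) ((4 * Λ + 4) / η))
  refine ⟨η', hη', max N0 N1, fun T ν hT hN hcl => ?_⟩
  obtain ⟨hm, hd⟩ := hO T ν hT (le_of_max_le_left hN) hcl
  have hN1' : (N1 : ℝ) ≤ T.card := by exact_mod_cast le_of_max_le_right hN
  have hA : 2 / δ < T.card := (le_max_left _ _).trans_lt (hN1.trans_le hN1')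
  have hB : (4 * Λ + 4) / η < T.card := (le_max_right _ _).trans_lt (hN1.trans_le hN1')
  have hNpos : (0 : ℝ) < T.card := lt_trans (by positivity) hA
  have hT1 : 1 ≤ T.card := by exact_mod_cast hNpos
  set b : ℝ := (T.card : ℝ)⁻¹ with hb
  have hb0 : 0 < b := by positivity
  have hbN : b * T.card = 1 := inv_mul_cancel₀ hNpos.ne'
  have hb1 : b ≤ 1 := inv_le_one_of_one_le₀ (by exact_mod_cast hT1)
  have hbδ : b < δ := by
    rw [div_lt_iff₀ hδ] at hA
    nlinarith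
  have hbη : (2 * Λ + 2) * b ≤ η / 2 := by
    rw [div_lt_iff₀ hη] at hB
    nlinarith
  have hΛ : (0 : ℝ) ≤ Λ := Nat.cast_nonneg _
  have hm1 : |ν.real univ / T.card - cV| ≤ δ / 2 :=
    hm.trans ((min_le_left _ _).trans (min_le_left _ _))
  have hm2 : |ν.real univ / T.card - cV| ≤ cV / 2 :=
    hm.trans ((min_le_left _ _).trans (min_le_right _ _))
  have hmpos : 0 < ν.real univ := by
    have : 0 < ν.real univ / T.card := by linarith [(abs_le.1 hm2).1]
    exact (div_pos_iff_of_pos_right hNpos).1 this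
  have := hcl.1
  have hnu : ((ν univ)⁻¹ • ν) univ = 1 := by
    rw [Measure.smul_apply, smul_eq_mul]
    refine ENNReal.inv_mul_cancel (fun h => ?_) (measure_ne_top _ _)
    rw [Measure.real, h] at hmpos
    simp at hmpos
  set V' := Real.sqrt ((3 * T.card + 1) / ν.real univ) with hV'
  have hV'0 : 0 < V' := Real.sqrt_pos.2 (by positivity)
  have hVV : |V' - V| ≤ 1 / (Λ + 1) := by
    have h1 := @hδ' (ν.real univ / T.card, b) (by
      rw [Prod.dist_eq, Real.dist_eq, Real.dist_eq, sub_zero, abs_of_pos hb0]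
      exact max_lt (by linarith) hbδ)
    rw [Real.dist_eq] at h1
    have e : (3 + b) / (ν.real univ / T.card) = (3 * T.card + 1) / ν.real univ := by
      rw [hb]; field_simp
    simp only [e, add_zero] at h1
    exact h1.le
  have hV0 : |V - V| ≤ 1 / ((Λ : ℝ) + 1) := by rw [sub_self, abs_zero]; positivity
  set v1 := sampleAvg a (PhiT f G) (nvol T.card ν) with hv1
  set v2 := sampleAvg a (PhiT f G) (ENNReal.ofReal V • empT T) with hv2
  have hgap : ∀ R ∈ T, ∀ j, |v1 - v2| - η / 2 ≤ gapE (relE a (PhiT f G) tf) V Λ (sR tf T R j) := by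
    intro R hR j
    have m1 : (v1, V', obsP tf ((ν univ)⁻¹ • ν) (ctr R) (2 ^ j)) ∈ relE a (PhiT f G) tf :=
      ⟨nvol T.card ν, ctr R, 2 ^ j, smul_fin hnu _, by positivity, by
        rw [nvol, nrm_smul hnu hV'0, smul_real hnu hV'0]; rfl⟩
    have m2 : (v2, V, sR tf T R j) ∈ relE a (PhiT f G) tf :=
      ⟨ENNReal.ofReal V • empT T, ctr R, 2 ^ j, smul_fin (emp_univ hT1) _, by positivity, by
        rw [nrm_smul (emp_univ hT1) hV, smul_real (emp_univ hT1) hV, obs_emp hGEO1]⟩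
    obtain ⟨a1, a2⟩ := hE2 Λ _ m1 hVV (sR tf T R j)
    obtain ⟨a3, a4⟩ := hE2 Λ _ m2 hV0 (sR tf T R j)
    simp only [(hPHI.1 (sR tf T R j) (sR tf T R j)).2.2.2, mul_zero, sub_zero, add_zero] at a3 a4
    have a5 : (Λ : ℝ) * dS (obsP tf ((ν univ)⁻¹ • ν) (ctr R) (2 ^ j)) (sR tf T R j) ≤ η / 2 := by
      have h1 := (hd R hR j).trans (min_le_right _ _)
      rw [le_div_iff₀ (by positivity)] at h1
      nlinarith [(hPHI.1 (obsP tf ((ν univ)⁻¹ • ν) (ctr R) (2 ^ j)) (sR tf T R j)).1]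
    have a6 := le_max_right 0 (envUp (relE a (PhiT f G) tf) V Λ (sR tf T R j) -
      envLo (relE a (PhiT f G) tf) V Λ (sR tf T R j))
    simp only at a1 a2
    rw [gapE, sub_le_iff_le_add, abs_le]
    constructor <;> linarith
  have hg := le_avg hPHI htf T (hE1 Λ).2.2.1 _ hgap
  rw [Finset.sum_const, nsmul_eq_mul, ← hb, ← mul_assoc, hbN, one_mul] at hg
  have h12 : |v1 - v2| ≤ 1 := by
    rw [abs_le]
    constructor <;> linarith [(hsam (nvol T.card ν)).1, (hsam (nvol T.card ν)).2,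
      (hsam (ENNReal.ofReal V • empT T)).1, (hsam (ENNReal.ofReal V • empT T)).2]
  have hg' : |v1 - v2| ≤ PhiG tf (gapE (relE a (PhiT f G) tf) V Λ) T + η / 2 + b := by
    nlinarith
  set r : Dy → ℝ := fun R => rotAvg a (PhiT f G) ((ENNReal.ofReal V • empT T).map fun w =>
      toCyl (w - ctr R)) with hr
  have hv2' : v2 = b * ∑ R ∈ T, r R := by
    rw [hv2, sampleAvg, ← Measure.real, smul_real (emp_univ hT1) hV, integral_smul_measure,
      emp_int, ENNReal.toReal_ofReal hV.le, smul_eq_mul, inv_mul_cancel_left₀ hV.ne']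
  have henv : ∀ R ∈ T, ∀ j, r R - 2 * Λ * b ≤ envUp (relR a (PhiT f G) tf) V Λ (sR tf T R j) ∧
      envLo (relR a (PhiT f G) tf) V Λ (sR tf T R j) ≤ r R + 2 * Λ * b := by
    intro R hR j
    obtain ⟨s, hs, hs'⟩ := rot_env hCYL hPHI hCR hGEO1 htf ha.1 ha.2 f G hR j
    obtain ⟨a1, a2⟩ := hR2 Λ _ hs hV0 (sR tf T R j)
    have a3 := mul_le_mul_of_nonneg_left hs' hΛ
    simp only at a1 a2
    constructor
    · refine le_trans ?_ a1
      simp only [hr]; linarith
    · refine a2.trans ?_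
      simp only [hr]; linarith
  have hlo := avg_le hPHI htf T (hR1 Λ).2.1.1 _ fun R hR j => (henv R hR j).2
  have hup := le_avg hPHI htf T (hR1 Λ).1.1 _ fun R hR j => (henv R hR j).1
  rw [← Finset.mul_sum, ← hb] at hlo hup
  rw [Finset.sum_add_distrib, Finset.sum_const, nsmul_eq_mul] at hlo
  rw [Finset.sum_sub_distrib, Finset.sum_const, nsmul_eq_mul] at hup
  have e1 : b * ((1 - b) * (∑ R ∈ T, r R + T.card * (2 * Λ * b))) =
      (1 - b) * (v2 + 2 * Λ * b) := by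
    rw [hv2']; linear_combination (1 - b) * (2 * Λ * b) * hbN
  have e2 : b * ((1 - b) * (∑ R ∈ T, r R - T.card * (2 * Λ * b))) =
      (1 - b) * (v2 - 2 * Λ * b) := by
    rw [hv2']; linear_combination -(1 - b) * (2 * Λ * b) * hbN
  rw [e1] at hlo
  rw [e2] at hup
  obtain ⟨h20, h21⟩ := hsam (ENNReal.ofReal V • empT T)
  rw [← hv2] at h20 h21
  have hΛb : 0 ≤ Λ * b := by positivity
  have hΛbb : 0 ≤ Λ * b * b := by positivity
  obtain ⟨g1, g2⟩ := abs_le.1 hg'
  constructor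
  · nlinarith [mul_nonneg hb0.le h20]
  · nlinarith [mul_le_mul_of_nonneg_left h21 hb0.le]

end

end Pool.Agent.Lib.APPS
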