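import Pool.Agent.Lib.APPS.Blue3

/-! Block FA2: the envelopes converge on the quantum sphere side. -/

namespace Pool.Agent.Lib.APPS

open MeasureTheory ProbabilityTheory Filter Topology Set Metric
open scoped NNReal ENNReal CompactlySupported BoundedContinuousFunction Classical

namespace FA2

lemma ne0 {m : Measure Cyl} (h : GoodM m) : m univ ≠ 0 := h.2.2 univ isOpen_univ univ_nonempty

lemma mass {m : Measure Cyl} (h : GoodM m) (V : ℝ) :
    (ENNReal.ofReal V • nrm m) univ = ENNReal.ofReal V := by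
  simp only [nrm, Measure.smul_apply, smul_eq_mul]
  rw [ENNReal.inv_mul_cancel (ne0 h) h.1, mul_one]

lemma good {m : Measure Cyl} (h : GoodM m) {V : ℝ} (hV : 0 < V) :
    GoodM (ENNReal.ofReal V • nrm m) := by
  refine ⟨by rw [mass h]; exact ENNReal.ofReal_ne_top, fun w => ?_, fun U hU hne => ?_⟩
  · simp [nrm, h.2.1 w]
  · simp only [nrm, Measure.smul_apply, smul_eq_mul]
    exact mul_ne_zero (ENNReal.ofReal_pos.2 hV).ne'
      (mul_ne_zero (ENNReal.inv_ne_zero.2 h.1) (h.2.2 U hU hne))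

lemma smul_eq {m : Measure Cyl} (h : GoodM m) (V : ℝ) :
    ENNReal.ofReal (V / (m univ).toReal) • m = ENNReal.ofReal V • nrm m := by
  rw [nrm, smul_smul, ENNReal.ofReal_div_of_pos (ENNReal.toReal_pos (ne0 h) h.1),
    ENNReal.ofReal_toReal h.1, div_eq_mul_inv]

lemma wc {ms : ℕ → Measure Cyl} {m : Measure Cyl} (h : GoodM m)
    (hw : WC ms m) (V : ℝ) :
    WC (fun n => ENNReal.ofReal V • nrm (ms n)) (ENNReal.ofReal V • nrm m) := by
  intro f
  have h1 := hw (BoundedContinuousFunction.const Cyl 1)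
  simp only [BoundedContinuousFunction.const_apply, integral_const, smul_eq_mul, mul_one,
    Measure.real] at h1
  simp only [nrm, integral_smul_measure, smul_eq_mul, ENNReal.toReal_inv]
  exact ((h1.inv₀ (ENNReal.toReal_pos (ne0 h) h.1).ne').mul (hw f)).const_mul _

end FA2

open FA2 in
theorem blk_FA2 (_hRW1 : St_RW1) (_hCYL : St_CYL) (hPHI : St_PHI) (hENV : St_ENV) (hMS : St_MS)
    (hCR : St_CR) (hCR2 : St_CR2) (_hBM2 : St_BM2) (hMU0 : St_MU0) (hWIL : St_WIL) : St_FA2 := by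
  intro γ hγ D tf htf V a ha haV k f G hG
  have hV : 0 < V := ha.trans haV
  obtain ⟨hm1, -, hb, hlin⟩ := hMS a ha k f G
  obtain ⟨hb1, hb2⟩ := hb hG
  obtain ⟨hc1, hc2, hc3, hc4⟩ := hCR a ha k f G
  obtain ⟨hgood, hL⟩ := hMU0.2 γ hγ D
  obtain ⟨-, hint, -, hLG, hpos⟩ := hL tf htf
  obtain ⟨κ, hκ, hwi, hW⟩ := hWIL γ hγ D tf htf
  obtain ⟨e1, -, e3, e4⟩ := hENV (relR a (PhiT f G) tf) V (by
    rintro t ⟨m, -, rfl⟩
    exact hb1 m)
  obtain ⟨g1, -, -, g4⟩ := hENV (relE a (PhiT f G) tf) V (by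
    rintro t ⟨ν, c, ρ, -, -, rfl⟩
    exact hb2 ν)
  have hLip := hPHI.2.2.2.2.2.1
  have hlim := fun m (hm : GoodM m) => e4 _ _ (hc4 tf htf V haV m hm).1 (hc4 tf htf V haV m hm).2
  set H : (ℕ → ℝ) → ℝ := fun s => ⨆ Λ : ℕ, envLo (relR a (PhiT f G) tf) V Λ s with hH
  have hbdd : ∀ s, BddAbove (range fun Λ : ℕ => envLo (relR a (PhiT f G) tf) V Λ s) := fun s =>
    ⟨1, by rintro _ ⟨Λ, rfl⟩; exact ((e1 Λ).2.1.1 s).2⟩
  have hHm : Measurable H := Measurable.iSup fun Λ => (hLip _ _ (e1 Λ).2.1).2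
  have hH01 : ∀ s, 0 ≤ H s ∧ H s ≤ 1 := fun s =>
    ⟨((e1 0).2.1.1 s).1.trans (le_ciSup (hbdd s) 0), ciSup_le fun Λ => ((e1 Λ).2.1.1 s).2⟩
  have hHR : ∀ m, GoodM m → H (obsn tf m) = rotAvg a (PhiT f G) (ENNReal.ofReal V • nrm m) :=
    fun m hm => tendsto_nhds_unique (tendsto_atTop_ciSup (e3 _) (hbdd _)) (hlim m hm).2.1
  have haV' : ∀ m, GoodM m → ENNReal.ofReal a < (ENNReal.ofReal V • nrm m) univ := fun m hm => by
    rw [mass hm]
    exact (ENNReal.ofReal_lt_ofReal_iff hV).2 haV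
  have hWH := hW H hHm hH01 (fun m r hm => by
    rw [hHR _ hm, hHR _ (hc3 m r hm).1,
      ← hc1 _ r ⟨lt_top_iff_ne_top.2 (good hm hV).1⟩ (haV' m hm), nrm, (hc3 m r hm).2, nrm]
    simp only [trans, Measure.map_smul]) (fun ms m hs hm hw => by
    simp only [hHR _ hm, hHR _ (hs _)]
    exact hc2 _ _ (fun n => ⟨lt_top_iff_ne_top.2 (good (hs n) hV).1⟩) (good hm hV) (haV' m hm)
      (wc hm hw V))
  have hW1 := hW one' measurable_const (fun s => by simp [one']) (fun _ _ _ => rfl)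
    fun _ _ _ _ _ => tendsto_const_nhds
  simp only [one', mul_one] at hW1
  have hq : D.Lz tf H / D.Lz tf one' = qsE γ V a D.P D.μ (PhiT f G) := by
    rw [hWH, hW1, mul_div_mul_left _ _ hκ.ne', qsE]
    congr 1
    refine integral_congr_ae (hgood.mono fun ω hω => ?_)
    simp only
    rw [hHR _ hω.2.1, smul_eq hω.2.1]
    rfl
  have hdc : ∀ (Gs : ℕ → (ℕ → ℝ) → ℝ) (Λs : ℕ → ℝ) (G0 : (ℕ → ℝ) → ℝ), (∀ n, LipG (Λs n) (Gs n)) →
      (∀ m, GoodM m → Tendsto (fun n => Gs n (obsn tf m)) atTop (𝓝 (G0 (obsn tf m)))) →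
      Tendsto (fun n => D.Lz tf (Gs n)) atTop (𝓝 (D.Lz tf G0)) := by
    intro Gs Λs G0 h1 h2
    refine tendsto_integral_of_dominated_convergence _
      (fun n => (hLG _ (hLip _ _ (h1 n)).2 (h1 n).1).1.aestronglyMeasurable) hint.norm
      (fun n => ae_of_all _ fun ω => ?_) (hgood.mono fun ω hω => (h2 _ hω.1).const_mul _)
    rw [norm_mul]
    refine mul_le_of_le_one_right (norm_nonneg _) ?_
    rw [Real.norm_eq_abs, abs_of_nonneg ((h1 n).1 _).1]
    exact ((h1 n).1 _).2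
  refine ⟨?_, ?_, ?_, fun G' α β hG' => ?_⟩
  · rw [← hq]
    exact (hdc _ _ H (fun Λ => (e1 Λ).2.1) fun m hm => by
      rw [hHR m hm]; exact (hlim m hm).2.1).div_const _
  · rw [← hq]
    exact (hdc _ _ H (fun Λ => (e1 Λ).1) fun m hm => by
      rw [hHR m hm]; exact (hlim m hm).1).div_const _
  · have := hdc _ _ (fun _ => 0) (fun Λ => (g1 Λ).2.2) fun m hm => by
      obtain ⟨v0, h1, h2⟩ := hCR2 a ha k f G tf htf V haV m hm
      exact (g4 _ _ h1 h2).2.2
    simpa [QD.Lz] using this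
  · have hfin : ∀ ω, IsFiniteMeasure (ENNReal.ofReal (V / (D.μ ω univ).toReal) • D.μ ω) := by
      intro ω
      by_cases h : D.μ ω univ = ∞
      · simp only [h, ENNReal.toReal_top, div_zero, ENNReal.ofReal_zero, zero_smul]
        infer_instance
      · exact ⟨ENNReal.mul_lt_top ENNReal.ofReal_lt_top (lt_top_iff_ne_top.2 h)⟩
    have hu := (Measure.measurable_coe MeasurableSet.univ).comp D.hq.measμ
    have hme : Measurable fun ω => ENNReal.ofReal (V / (D.μ ω univ).toReal) • D.μ ω :=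
      Measure.measurable_of_measurable_coe _ fun s hs => by
        simp only [Measure.smul_apply, smul_eq_mul]
        exact (hu.ennreal_toReal.const_div V).ennreal_ofReal.mul
          ((Measure.measurable_coe hs).comp D.hq.measμ)
    have hwi' : Integrable (fun ω => (D.μ ω univ).toReal ^ (4 / γ ^ 2 - 1)) D.P := hwi
    have hi2 := hwi'.mul_bdd (c := 1) (hm1 _ _ hme hfin).aestronglyMeasurable
      (ae_of_all _ fun ω => by rw [Real.norm_eq_abs, abs_of_nonneg (hb1 _).1]; exact (hb1 _).2)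
    have hne : ∫ ω, (D.μ ω univ).toReal ^ (4 / γ ^ 2 - 1) ∂D.P ≠ 0 := by
      intro h0
      have : D.Lz tf one' = κ * 0 := by rw [hW1, ← h0]; rfl
      exact hpos.ne' (this.trans (mul_zero _))
    have h3 : ∀ ω, (D.μ ω univ).toReal ^ (4 / γ ^ 2 - 1) * rotAvg a (PhiT f G')
        (ENNReal.ofReal (V / (D.μ ω univ).toReal) • D.μ ω) =
        α * ((D.μ ω univ).toReal ^ (4 / γ ^ 2 - 1) * rotAvg a (PhiT f G)
          (ENNReal.ofReal (V / (D.μ ω univ).toReal) • D.μ ω)) +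
        β * (D.μ ω univ).toReal ^ (4 / γ ^ 2 - 1) := fun ω => by
      rw [(hlin G' α β hG').1 _ (hfin ω)]
      ring
    simp only [qsE, h3]
    rw [integral_add (hi2.const_mul α) (hwi'.const_mul β), integral_const_mul, integral_const_mul]
    field_simp

end Pool.Agent.Lib.APPS
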