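import Pool.Agent.Lib.APPS.Blue2

/-!
Block FAR.
-/

namespace Pool.Agent.Lib.APPS

open MeasureTheory ProbabilityTheory Filter Topology Set Metric
open scoped NNReal ENNReal CompactlySupported BoundedContinuousFunction RealInnerProductSpace
  Classical

noncomputable section

namespace FAR

theorem eE_add (s t : ℝ) : eE (s + t) = eE s * eE t := by
  unfold eE; rw [Real.exp_add, ENNReal.ofReal_mul (Real.exp_pos _).le]

theorem eE_mono {s t : ℝ} (h : s ≤ t) : eE s ≤ eE t :=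
  ENNReal.ofReal_le_ofReal (Real.exp_le_exp.2 h)

theorem eE_zero : eE 0 = 1 := by simp [eE]

theorem eE_ne_top (s : ℝ) : eE s ≠ ∞ := ENNReal.ofReal_ne_top

theorem eE_rpow (s p : ℝ) : eE s ^ p = eE (s * p) := by
  unfold eE
  rw [ENNReal.ofReal_rpow_of_pos (Real.exp_pos _), ← Real.exp_mul]

theorem meas_eE : Measurable eE := ENNReal.measurable_ofReal.comp Real.measurable_exp

theorem meas_fam {T : Type} (v : T → HH) : Measurable fun (ω : Om) (s : T) => ω (v s) :=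
  measurable_pi_lambda _ fun s => meas_ev (v s)

theorem ind_mono {p r : Prop} (h : p → r) : ind p ≤ ind r := by
  unfold ind
  by_cases hp : p
  · simp [hp, h hp]
  · simp [hp]

theorem ind_and (p r : Prop) : ind (p ∧ r) = ind p * ind r := by
  unfold ind
  by_cases hp : p <;> by_cases hr : r <;> simp [hp, hr]

theorem gm_eq {p : Om → Prop} (hp : MeasurableSet {ω | p ω}) :
    gm {ω | p ω} = ∫⁻ ω, ind (p ω) ∂gm := by
  rw [← lintegral_indicator_one hp]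
  congr 1

/-- product formula for orthogonal families -/
theorem indep (hG1 : St_G1) (hG3 : St_G3) {ι κ : Type} (v : ι → HH) (w : κ → HH)
    (h : ∀ k i, ⟪w k, v i⟫ = 0) (F : (κ → ℝ) × (ι → ℝ) → ℝ≥0∞) (hF : Measurable F) :
    ∫⁻ ω, F (fun k => ω (w k), fun i => ω (v i)) ∂gm =
      ∫⁻ ω, ∫⁻ ω', F (fun k => ω (w k), fun i => ω' (v i)) ∂gm ∂gm := by
  have := hG1.1
  have hI := hG3.2.2.2.2.1 κ ι w v h
  have hw := meas_fam w
  have hv := meas_fam v
  have hm := (indepFun_iff_map_prod_eq_prod_map_map hw.aemeasurable hv.aemeasurable).1 hI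
  have e1 : ∫⁻ ω, F (fun k => ω (w k), fun i => ω (v i)) ∂gm =
      ∫⁻ p, F p ∂(gm.map fun ω : Om => (fun k => ω (w k), fun i => ω (v i))) :=
    (lintegral_map hF (hw.prodMk hv)).symm
  rw [e1, hm, lintegral_prod _ hF.aemeasurable, lintegral_map _ hw]
  · congr 1; funext ω
    exact lintegral_map (hF.comp measurable_prodMk_left) hv
  · exact hF.lintegral_prod_right'

theorem markov {N : ℝ≥0∞} {z q : ℝ} (hz : 0 < z) (hq : 0 < q) :
    ind (ENNReal.ofReal z ≤ N) ≤ ENNReal.ofReal (z ^ (-q)) * N ^ q := by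
  unfold ind
  split_ifs with h
  · have h1 : ENNReal.ofReal z ^ q ≤ N ^ q := ENNReal.rpow_le_rpow h hq.le
    calc (1 : ℝ≥0∞) = ENNReal.ofReal (z ^ (-q)) * ENNReal.ofReal z ^ q := by
          rw [ENNReal.ofReal_rpow_of_pos hz, ← ENNReal.ofReal_mul (Real.rpow_pos_of_pos hz _).le,
            ← Real.rpow_add hz]; simp
      _ ≤ _ := mul_le_mul_right h1 _
  · exact bot_le

theorem meas_XV (hT3 : St_T3) (γ : ℝ) (g : Dy → HH) (t : ℝ) : Measurable (XV γ g t) :=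
  (hT3.2.2.2.2.2.2.1 (QQ γ)).comp ((meas_fam g).prodMk measurable_const)

/-- the inner estimate -/
theorem inner_bd (hG2 : St_G2) (hT1 : St_T1) (hT3 : St_T3) (γ q K0 B lam a t z : ℝ)
    (hq : 0 < q) (hz : 0 < z) (hlam : 0 ≤ lam) (g : Dy → HH) (d : Dy)
    (hpos : ∀ S, 0 ≤ ⟪g d, g S⟫) (hB : ‖g d‖ ^ 2 ≤ B)
    (hK : ∫⁻ ω, nB (XV γ g t ω) ^ q ∂gm ≤ ENNReal.ofReal (K0 * Real.exp (γ * q * t))) :
    ∫⁻ ω, ind (ω (g d) ≤ a ∧ ENNReal.ofReal z ≤ nB (XV γ g t ω)) ∂gm ≤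
      ENNReal.ofReal (z ^ (-q)) * (eE (lam * a + lam ^ 2 * B / 2) *
        ENNReal.ofReal (K0 * Real.exp (γ * q * t))) := by
  set h : HH := (-lam) • g d with hh
  have hf : Measurable fun ω => nB (XV γ g t ω) ^ q :=
    (hT3.1.comp (meas_XV hT3 γ g t)).pow_const q
  have hn : ‖h‖ ^ 2 ≤ lam ^ 2 * B := by
    rw [hh, norm_smul, mul_pow, Real.norm_eq_abs, sq_abs, neg_sq]
    exact mul_le_mul_of_nonneg_left hB (sq_nonneg _)
  have h1 : ∀ ω : Om, ind (ω (g d) ≤ a ∧ ENNReal.ofReal z ≤ nB (XV γ g t ω)) ≤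
      ENNReal.ofReal (z ^ (-q)) * (eE (lam * a + lam ^ 2 * B / 2) *
        (nB (XV γ g t ω) ^ q * eE (ω h - ‖h‖ ^ 2 / 2))) := by
    intro ω
    rw [ind_and]
    have h2 : ind (ω (g d) ≤ a) ≤ eE (lam * a + lam ^ 2 * B / 2) * eE (ω h - ‖h‖ ^ 2 / 2) := by
      unfold ind
      split_ifs with h3
      · rw [← eE_add, ← eE_zero]
        apply eE_mono
        have : ω h = -lam * ω (g d) := by rw [hh, map_smul, smul_eq_mul]
        rw [this]
        nlinarith [mul_le_mul_of_nonneg_left h3 hlam]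
      · exact bot_le
    calc _ ≤ (eE (lam * a + lam ^ 2 * B / 2) * eE (ω h - ‖h‖ ^ 2 / 2)) *
          (ENNReal.ofReal (z ^ (-q)) * nB (XV γ g t ω) ^ q) := mul_le_mul' h2 (markov hz hq)
      _ = _ := by ring
  calc _ ≤ ∫⁻ ω, ENNReal.ofReal (z ^ (-q)) * (eE (lam * a + lam ^ 2 * B / 2) *
        (nB (XV γ g t ω) ^ q * eE (ω h - ‖h‖ ^ 2 / 2))) ∂gm := lintegral_mono h1
    _ = ENNReal.ofReal (z ^ (-q)) * (eE (lam * a + lam ^ 2 * B / 2) *
        ∫⁻ ω, nB (XV γ g t (ω + dv h)) ^ q ∂gm) := by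
        rw [lintegral_const_mul' _ _ ENNReal.ofReal_ne_top, lintegral_const_mul' _ _ (eE_ne_top _),
          hG2.2.1 h _ hf]
    _ ≤ _ := by
        refine mul_le_mul_right (mul_le_mul_right (le_trans (lintegral_mono fun ω => ?_) hK) _) _
        refine ENNReal.rpow_le_rpow (hT1.2.2.2.2.2.2.2.2.2.2.2.2.2.2.2.1 _ _ fun S => ?_) hq.le
        unfold XV drift
        have : (ω + dv h) (g S) = ω (g S) + -lam * ⟪g d, g S⟫ := by
          rw [LinearMap.add_apply, dv_apply, hh, real_inner_smul_left]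
        simp only [this]
        nlinarith [mul_nonneg hlam (hpos S)]

theorem unif_supp (hFE : St_FE) (hGEO1 : St_GEO1) (T S : Dy) :
    unif (S ++ T) (closedBall (ctr T) (4 * side T / 2))ᶜ = 0 := by
  refine measure_mono_null (compl_subset_compl.2 ?_) (hFE.2.2.2.2.2.2.2.1 (S ++ T)).2
  intro y hy
  have h1 : y ∈ box T := (hGEO1.2.2.2.2.1 _ _).2 (List.suffix_append S T) hy
  have h2 := (hGEO1.2.2.2.1 T).2.2.2.1 y h1
  have h3 := (hGEO1.1 T).1
  rw [mem_closedBall, dist_eq_norm]; linarith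

/-- the vectors attached to the square `P` -/
def gP (M : Model) (P S : Dy) : HH := M.gv (ctr P) (4 * side P) (unif (S ++ P))
def qP (M : Model) (P S : Dy) : HH := M.qv (ctr P) (4 * side P) (unif (S ++ P))
def ZP (M : Model) (P : Dy) (ω : Om) : ℝ := zs fun S => ω (qP M P S)

def wP (M : Model) (P : Dy) : Option (Dy ⊕ Dy) → HH
  | none => M.eC (ctr P) (4 * side P)
  | some (Sum.inl S) => qP M P S
  | some (Sum.inr A) => if unif A (ball (ctr P) (4 * side P)) = 0 then M.eS A else 0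

theorem split (M : Model) (P S : Dy) :
    M.eS (S ++ P) - M.eC (ctr P) (4 * side P) = qP M P S + gP M P S := by
  unfold qP gP Model.qv Model.gv Model.eS; abel

theorem far_eq (hFE : St_FE) (hGEO1 : St_GEO1) (M : Model) (γ u : ℝ) (P : Dy)
    (ω : Om) : far (M.X γ u ω) P =
      far (drift (QQ γ) (fun A => ω (wP M P (some (Sum.inr A)))) u) P := by
  unfold far annN
  refine Finset.sum_congr rfl fun l hl => Finset.sum_congr rfl fun V hV => ?_
  congr 1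
  funext S
  have hl' : l ≤ P.length := Nat.lt_succ_iff.1 (Finset.mem_range.1 hl)
  have hV' := (Finset.mem_filter.1 hV).2
  have h0 : unif (S ++ V) (ball (ctr P) (4 * side P)) = 0 := by
    refine measure_mono_null ?_ (hFE.2.2.2.2.2.2.2.1 (S ++ V)).2
    intro y hy hy'
    have h1 : y ∈ box V := (hGEO1.2.2.2.2.1 _ _).2 (List.suffix_append S V) hy'
    have h2 := (hV' y h1).1
    rw [mem_ball, dist_eq_norm] at hy
    have h3 : side P ≤ (1 / 2 : ℝ) ^ l :=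
      pow_le_pow_of_le_one (by norm_num) (by norm_num) hl'
    linarith
  simp only [sub, Model.X, drift, wP, if_pos h0]

theorem orth (hFE : St_FE) (hGEO1 : St_GEO1) {C : ℝ} (M : Model) (P : Dy)
    (hO : closedBall (ctr P) (4 * side P) ⊆ M.O)
    (hD : ∀ (M : Model) (c : ℂ) (r : ℝ) μ, 0 < r → closedBall c r ⊆ M.O → PFE μ →
    μ (closedBall c (r / 2))ᶜ = 0 →
    ⟪M.gv c r μ, M.eC c r⟫ = 0 ∧ ⟪M.qv c r μ, M.eC c r⟫ = 0 ∧
    (∀ ν', FE ν' → ν' (ball c r) = 0 → ⟪M.gv c r μ, M.e ν'⟫ = 0) ∧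
    (∀ ρ, 0 ≤ ρ → μ (closedBall c ρ)ᶜ = 0 → ‖M.qv c r μ‖ ≤ C * ρ / r) ∧
    ∀ ν, PFE ν → ν (closedBall c (r / 2))ᶜ = 0 →
      ⟪M.gv c r μ, M.gv c r ν⟫ = ∫ p : ℂ × ℂ, Gk c r p.1 p.2 ∂(μ.prod ν) ∧
      0 ≤ ⟪M.gv c r μ, M.gv c r ν⟫ ∧ ⟪M.gv c r μ, M.qv c r ν⟫ = 0 ∧
      ∀ (c' : ℂ) (ρ : ℝ), 0 ≤ ρ → μ (closedBall c' ρ)ᶜ = 0 → ν (closedBall c' ρ)ᶜ = 0 →
        ‖M.qv c r μ - M.qv c r ν‖ ≤ C * ρ / r) :
    (∀ k S, ⟪wP M P k, gP M P S⟫ = 0) ∧ ∀ S S', 0 ≤ ⟪gP M P S, gP M P S'⟫ := by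
  have hr : 0 < 4 * side P := by have := (hGEO1.1 P).1; positivity
  have hU := hFE.2.2.2.2.2.2.2.1
  have key := fun S => hD M (ctr P) (4 * side P) (unif (S ++ P)) hr hO (hU _).1
    (unif_supp hFE hGEO1 P S)
  refine ⟨fun k S => ?_, fun S S' =>
    ((key S).2.2.2.2 _ (hU _).1 (unif_supp hFE hGEO1 P S')).2.1⟩
  rw [real_inner_comm]
  rcases k with _ | S' | A
  · exact (key S).1
  · exact ((key S).2.2.2.2 _ (hU _).1 (unif_supp hFE hGEO1 P S')).2.2.1
  · simp only [wP]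
    split_ifs with h0
    · exact (key S).2.2.1 _ (hU A).1.1 h0
    · exact inner_zero_right _

theorem l2_pos : 0 < l2 := Real.log_pos one_lt_two

theorem inner2 (hG2 : St_G2) (hT1 : St_T1) (hT3 : St_T3) (γ q κ K0 B c y Z z : ℝ)
    (hγ : 0 < γ) (hQ : 0 < QQ γ) (hq : 0 < q) (hz : 0 < z) (hκ1 : κ ≤ γ) (hκ2 : γ + κ ≤ γ * q)
    (hZ : 0 ≤ Z) (g : Dy → HH) (d : Dy)
    (hpos : ∀ S, 0 ≤ ⟪g d, g S⟫) (hB : ‖g d‖ ^ 2 ≤ B)
    (hK : ∀ t, ∫⁻ ω, nB (XV γ g t ω) ^ q ∂gm ≤ ENNReal.ofReal (K0 * Real.exp (γ * q * t))) :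
    ∫⁻ ω, ind (ω (g d) ≤ c - y + Z + 3 * QQ γ * l2 ∧
        ENNReal.ofReal z ≤ nB (XV γ g (y - 2 * QQ γ * l2 + Z) ω)) ∂gm ≤
      ENNReal.ofReal (z ^ (-q)) * ENNReal.ofReal K0 *
        eE |γ * q * (c + QQ γ * l2) + (γ * q) ^ 2 * B / 2| *
        (eE (γ * y - κ * |y|) * eE (2 * γ * q * Z)) := by
  have hl := l2_pos
  have hγq : 0 < γ * q := mul_pos hγ hq
  have key : ∀ lam : ℝ, 0 ≤ lam →
      lam * (c - y + Z + 3 * QQ γ * l2) + lam ^ 2 * B / 2 + γ * q * (y - 2 * QQ γ * l2 + Z) ≤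
        |γ * q * (c + QQ γ * l2) + (γ * q) ^ 2 * B / 2| + (γ * y - κ * |y| + 2 * γ * q * Z) →
      ∫⁻ ω, ind (ω (g d) ≤ c - y + Z + 3 * QQ γ * l2 ∧
        ENNReal.ofReal z ≤ nB (XV γ g (y - 2 * QQ γ * l2 + Z) ω)) ∂gm ≤
      ENNReal.ofReal (z ^ (-q)) * ENNReal.ofReal K0 *
        eE |γ * q * (c + QQ γ * l2) + (γ * q) ^ 2 * B / 2| *
        (eE (γ * y - κ * |y|) * eE (2 * γ * q * Z)) := by
    intro lam hlam hle
    refine (inner_bd hG2 hT1 hT3 γ q K0 B lam _ _ z hq hz hlam g d hpos hB (hK _)).trans ?_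
    rw [ENNReal.ofReal_mul' (Real.exp_pos _).le]
    have := eE_mono hle
    rw [eE_add, eE_add _ (γ * y - κ * |y| + 2 * γ * q * Z), eE_add (γ * y - κ * |y|)] at this
    calc _ = ENNReal.ofReal (z ^ (-q)) * ENNReal.ofReal K0 *
          (eE (lam * (c - y + Z + 3 * QQ γ * l2) + lam ^ 2 * B / 2) *
            eE (γ * q * (y - 2 * QQ γ * l2 + Z))) := by unfold eE; ring
      _ ≤ _ := by rw [mul_assoc (ENNReal.ofReal (z ^ (-q)) * ENNReal.ofReal K0)]; gcongr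
  rcases lt_or_ge y 0 with hy | hy
  · refine key 0 le_rfl ?_
    rw [abs_of_neg hy]
    have h1 := abs_nonneg (γ * q * (c + QQ γ * l2) + (γ * q) ^ 2 * B / 2)
    have h2 : γ * q * y ≤ (γ + κ) * y := mul_le_mul_of_nonpos_right hκ2 hy.le
    have h3 : 0 ≤ γ * q * Z := mul_nonneg hγq.le hZ
    have h4 : 0 ≤ γ * q * (QQ γ * l2) := by positivity
    nlinarith
  · refine key (γ * q) hγq.le ?_
    rw [abs_of_nonneg hy]
    have h1 := le_abs_self (γ * q * (c + QQ γ * l2) + (γ * q) ^ 2 * B / 2)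
    have h2 : 0 ≤ (γ - κ) * y := mul_nonneg (by linarith) hy
    nlinarith

def yW (γ u : ℝ) (P : Dy) (W : Option (Dy ⊕ Dy) → ℝ) : ℝ :=
  W none + u + QQ γ * Real.log (4 * side P)

def zW (W : Option (Dy ⊕ Dy) → ℝ) : ℝ := zs fun S => W (some (Sum.inl S))

def fW (γ u : ℝ) (P : Dy) (W : Option (Dy ⊕ Dy) → ℝ) : ℝ≥0∞ :=
  far (drift (QQ γ) (fun A => W (some (Sum.inr A))) u) P

def FF (γ u c z n : ℝ) (P d : Dy) (p : (Option (Dy ⊕ Dy) → ℝ) × (Dy → ℝ)) : ℝ≥0∞ :=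
  ind (p.2 d ≤ c - yW γ u P p.1 + zW p.1 + 3 * QQ γ * l2 ∧
    ENNReal.ofReal z ≤ nB (drift (QQ γ) p.2 (yW γ u P p.1 - 2 * QQ γ * l2 + zW p.1))) *
    ind (ENNReal.ofReal n ≤ fW γ u P p.1)

theorem meas_FF (hCH : St_CH) (hT3 : St_T3) (γ u c z n : ℝ) (P d : Dy) :
    Measurable (FF γ u c z n P d) := by
  have hy : Measurable (yW γ u P) := by
    unfold yW
    exact ((measurable_pi_apply none).add_const _).add_const _
  have hz : Measurable zW :=
    hCH.1.comp (measurable_pi_lambda _ fun S => measurable_pi_apply _)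
  have hf0 : Measurable fun W : Option (Dy ⊕ Dy) → ℝ =>
      ((fun A => W (some (Sum.inr A)), u) : (Dy → ℝ) × ℝ) :=
    (measurable_pi_lambda _ fun S => measurable_pi_apply _).prodMk measurable_const
  have hf : Measurable (fW γ u P) :=
    (hT3.2.2.2.2.2.2.2.2.2.1 P).1.comp ((hT3.2.2.2.2.2.2.1 (QQ γ)).comp hf0)
  have hi := hT3.2.2.2.2.2.2.2.2.2.2.2.1
  refine Measurable.mul (hi _ _ ?_).1 (hi _ _ ?_).1
  · refine MeasurableSet.inter (measurableSet_le ((measurable_pi_apply d).comp measurable_snd)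
      (((measurable_const.sub (hy.comp measurable_fst)).add (hz.comp measurable_fst)).add_const _))
      (measurableSet_le measurable_const (hT3.1.comp ((hT3.2.2.2.2.2.2.1 (QQ γ)).comp
        (measurable_snd.prodMk ((((hy.comp measurable_fst).sub_const _)).add
          (hz.comp measurable_fst))))))
  · exact measurableSet_le measurable_const (hf.comp measurable_fst)

theorem one_sq (hG1 : St_G1) (hG2 : St_G2) (hG3 : St_G3) (hCH : St_CH) (hFE : St_FE)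
    (hGEO1 : St_GEO1) (hT1 : St_T1) (hT3 : St_T3) (γ q κ K0 B ε u c z n : ℝ)
    (hγ : 0 < γ) (hQ : 0 < QQ γ) (hq : 0 < q) (hz : 0 < z) (hκ1 : κ ≤ γ) (hκ2 : γ + κ ≤ γ * q)
    (M : Model) (P : Dy) (d : Fin 2 × Fin 2)
    (horth : ∀ k S, ⟪wP M P k, gP M P S⟫ = 0) (hpos : ∀ S S', 0 ≤ ⟪gP M P S, gP M P S'⟫)
    (hB : ‖gP M P [d]‖ ^ 2 ≤ B) (hch : ChainH (qP M P) ε)
    (hX : ∀ S ω, M.X γ u ω (S ++ P) = M.YV γ u P ω +
      ω (M.eS (S ++ P) - M.eC (ctr P) (4 * side P)) - QQ γ * (S.length + 2) * l2)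
    (hK : ∀ t, ∫⁻ ω, nB (XV γ (gP M P) t ω) ^ q ∂gm ≤
      ENNReal.ofReal (K0 * Real.exp (γ * q * t))) :
    gm {ω | M.X γ u ω (d :: P) ≤ c ∧ ENNReal.ofReal z ≤ nB (sub (M.X γ u ω) P) ∧
        ENNReal.ofReal n ≤ far (M.X γ u ω) P} ≤
      ENNReal.ofReal (z ^ (-q)) * ENNReal.ofReal K0 *
        eE |γ * q * (c + QQ γ * l2) + (γ * q) ^ 2 * B / 2| *
        ∫⁻ ω, (eE (γ * M.YV γ u P ω - κ * |M.YV γ u P ω|) * eE (2 * γ * q * ZP M P ω)) *
          ind (ENNReal.ofReal n ≤ far (M.X γ u ω) P) ∂gm := by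
  have hmX : Measurable (M.X γ u) := (hT3.2.2.2.2.2.2.2.2.2.2.1 M γ u).1
  have hms : MeasurableSet {ω | M.X γ u ω (d :: P) ≤ c ∧
      ENNReal.ofReal z ≤ nB (sub (M.X γ u ω) P) ∧ ENNReal.ofReal n ≤ far (M.X γ u ω) P} :=
    (measurableSet_le ((measurable_pi_apply _).comp hmX) measurable_const).inter
      ((measurableSet_le measurable_const (hT3.1.comp ((hT3.2.2.2.2.1 P).comp hmX))).inter
        (measurableSet_le measurable_const ((hT3.2.2.2.2.2.2.2.2.2.1 P).1.comp hmX)))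
  rw [gm_eq hms]
  have h1 : ∀ᵐ ω ∂gm, ind (M.X γ u ω (d :: P) ≤ c ∧
      ENNReal.ofReal z ≤ nB (sub (M.X γ u ω) P) ∧ ENNReal.ofReal n ≤ far (M.X γ u ω) P) ≤
      FF γ u c z n P [d] (fun k => ω (wP M P k), fun S => ω (gP M P S)) := by
    filter_upwards [hCH.2.2.1 _ _ hch] with ω hω
    unfold FF
    rw [← ind_and]
    refine ind_mono fun ⟨h1, h2, h3⟩ => ⟨⟨?_, ?_⟩, ?_⟩
    · have e := hX [d] ω
      rw [split, map_add] at e
      have h4 := (abs_le.1 (hω [d])).1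
      change ω (gP M P [d]) ≤ c - M.YV γ u P ω + zs (fun S => ω (qP M P S)) + 3 * QQ γ * l2
      have e' : M.X γ u ω (d :: P) = M.X γ u ω ([d] ++ P) := rfl
      simp only [List.length_singleton, Nat.cast_one] at e
      linarith
    · refine h2.trans (hT1.2.2.2.2.2.2.2.2.2.2.2.2.2.2.2.1 _ _ fun S => ?_)
      have e := hX S ω
      rw [split, map_add] at e
      have h4 := (abs_le.1 (hω S)).2
      change M.X γ u ω (S ++ P) ≤ ω (gP M P S) +
        (M.YV γ u P ω - 2 * QQ γ * l2 + zs (fun S => ω (qP M P S))) - QQ γ * S.length * l2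
      rw [e]; linarith
    · rw [far_eq hFE hGEO1] at h3; exact h3
  refine (lintegral_mono_ae h1).trans ?_
  rw [indep hG1 hG3 (gP M P) (wP M P) horth _ (meas_FF hCH hT3 γ u c z n P [d]),
    ← lintegral_const_mul' _ _ (ENNReal.mul_ne_top (ENNReal.mul_ne_top ENNReal.ofReal_ne_top
      ENNReal.ofReal_ne_top) (eE_ne_top _))]
  refine lintegral_mono fun ω => ?_
  have hne : ind (ENNReal.ofReal n ≤ far (M.X γ u ω) P) ≠ ∞ := by
    unfold ind; split_ifs <;> simp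
  have e : (fun ω' : Om => FF γ u c z n P [d] (fun k => ω (wP M P k), fun S => ω' (gP M P S))) =
      fun ω' => ind (ω' (gP M P [d]) ≤ c - M.YV γ u P ω + ZP M P ω + 3 * QQ γ * l2 ∧
        ENNReal.ofReal z ≤ nB (XV γ (gP M P) (M.YV γ u P ω - 2 * QQ γ * l2 + ZP M P ω) ω')) *
        ind (ENNReal.ofReal n ≤ far (M.X γ u ω) P) := by
    funext ω'
    rw [far_eq hFE hGEO1]; rfl
  rw [e, lintegral_mul_const' _ _ hne, ← mul_assoc]
  exact mul_le_mul_left (inner2 hG2 hT1 hT3 γ q κ K0 B c _ _ z hγ hQ hq hz hκ1 hκ2 (hCH.2.1 _)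
    (gP M P) [d] (hpos _) hB hK) _

def Gam (M : Model) (γ κ q : ℝ) (i0 : ℕ) (R : Dy) (p : ℝ × Om) : ℝ≥0∞ :=
  if i0 + 2 ≤ R.length then eE (γ * p.1 - κ * |p.1|) * eE (2 * γ * q * ZP M R p.2) else 0

end FAR

open FAR in
theorem blk_FAR (hG1 : St_G1) (_hG1D : St_G1D) (hG2 : St_G2) (hG3 : St_G3) (hCH : St_CH)
    (hMOD : St_MOD) (hDISC : St_DISC) (hFE : St_FE) (_hEXP1 : St_EXP1) (hGEO1 : St_GEO1)
    (hT1 : St_T1) (hT3 : St_T3) (hRW1 : St_RW1) (hH0L : St_H0L) (hTL : St_TL) (hRUF : St_RUF) :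
    St_FAR := by
  intro γ hγ
  have hγ0 := hγ.1
  have h4 : 1 < 4 / γ ^ 2 := by
    rw [one_lt_div (by positivity)]; nlinarith [hγ.2]
  set q : ℝ := (1 + 4 / γ ^ 2) / 2 with hq
  have hq1 : 1 < q := by rw [hq]; linarith
  have hq2 : q < 4 / γ ^ 2 := by rw [hq]; linarith
  have hq0 : 0 < q := by linarith
  refine ⟨q, hq1, fun M i0 hM u c => ?_⟩
  set κ : ℝ := min (γ * (q - 1)) γ with hκ
  have hκ0 : 0 < κ := lt_min (mul_pos hγ0 (by linarith)) hγ0
  have hκ1 : κ ≤ γ := min_le_right _ _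
  have hκ2 : γ + κ ≤ γ * q := by
    have : κ ≤ γ * (q - 1) := min_le_left _ _
    linarith
  have hQ : 0 < QQ γ := by have := (hRW1.2.2 γ hγ).2.1; linarith
  obtain ⟨r0, ε, hr0, -, hR⟩ := hRUF γ hγ
  obtain ⟨KR, hKR⟩ := hR κ hκ0 M.C0 i0
  obtain ⟨C, -, hD1, hD2, hD3⟩ := hDISC
  obtain ⟨K0, hK0⟩ := (hH0L γ hγ).2.1 q hq0 hq2 4 (by norm_num)
  obtain ⟨C1, hC1⟩ := (hCH.2.2.2 (2 * γ * q * r0)).1 (C / 4)
  obtain ⟨B0, hTL4⟩ := hTL.2.2.2.1
  have hU := hFE.2.2.2.2.2.2.2.1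
  set v : ℝ := max C1 1 with hv
  have hv1 : 1 ≤ v := le_max_right _ _
  have hmZ : ∀ R, Measurable (ZP M R) := fun R => hCH.1.comp (meas_fam _)
  have hRW : RootW M γ κ r0 i0 v (Gam M γ κ q i0) := by
    refine ⟨fun R => ?_, fun R y i hi hiR s ω => ?_, fun R y => ?_⟩
    · unfold Gam
      split_ifs
      · exact (meas_eE.comp ((measurable_fst.const_mul γ).sub
          (measurable_fst.abs.const_mul κ))).mul
          (meas_eE.comp (((hmZ R).comp measurable_snd).const_mul _))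
      · exact measurable_const
    · have hlen : i0 + 2 ≤ R.length := by omega
      have hO := (hTL4 γ M i0 R hM hlen).1
      have hr : 0 < 4 * side R := by have := (hGEO1.1 R).1; positivity
      have e : ZP M R (ω + s • dv (M.eC (ctr R) ((1 / 2 : ℝ) ^ i))) = ZP M R ω := by
        unfold ZP
        congr 1
        funext S
        obtain ⟨hb1, hb2⟩ := hD1 (ctr R) (4 * side R) (unif (S ++ R)) hr (hU _).1
          (unif_supp hFE hGEO1 R S)
        have hle : 4 * side R ≤ (1 / 2 : ℝ) ^ i := by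
          have : side R ≤ (1 / 2 : ℝ) ^ (i + 2) :=
            pow_le_pow_of_le_one (by norm_num) (by norm_num) hiR
          rw [pow_add] at this
          linarith
        have h0 := (hMOD M).2.2.2.2.2.2.2.2.2.1 (ctr R) (4 * side R) _ _ hr hle hb1
          (measure_mono_null (compl_subset_compl.2 sphere_subset_closedBall) hb2) hO
        rw [LinearMap.add_apply, LinearMap.smul_apply, dv_apply, real_inner_comm]
        change ω (qP M R S) + s • ⟪M.e (bal (ctr R) (4 * side R) (unif (S ++ R))) -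
          M.eC (ctr R) (4 * side R), M.eC (ctr R) ((1 / 2 : ℝ) ^ i)⟫ = _
        rw [h0, smul_zero, add_zero]
      simp only [Gam, e]
    · unfold Gam
      split_ifs with hlen
      · have hO := (hTL4 γ M i0 R hM hlen).1
        have hch := (hD3 M R 4 (by norm_num) hO).2.1
        have h1 := hC1 _ hch
        have e : ∀ ω, (eE (γ * y - κ * |y|) * eE (2 * γ * q * ZP M R ω)) ^ r0 =
            eE (γ * y - κ * |y|) ^ r0 * eE (2 * γ * q * r0 * ZP M R ω) := by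
          intro ω
          rw [ENNReal.mul_rpow_of_nonneg _ _ (by linarith), eE_rpow (2 * γ * q * ZP M R ω)]
          congr 2; ring
        simp only [e]
        rw [lintegral_const_mul' _ _ (by rw [eE_rpow]; exact eE_ne_top _),
          ENNReal.ofReal_mul (by linarith), ENNReal.mul_rpow_of_nonneg _ _ (by linarith), mul_comm]
        refine mul_le_mul_left (h1.trans ?_) _
        have h2 : (1 : ℝ≥0∞) ≤ ENNReal.ofReal v := by
          rw [← ENNReal.ofReal_one]; exact ENNReal.ofReal_le_ofReal hv1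
        calc ENNReal.ofReal C1 ≤ ENNReal.ofReal v ^ (1 : ℝ) := by
              rw [ENNReal.rpow_one]; exact ENNReal.ofReal_le_ofReal (le_max_left _ _)
          _ ≤ _ := ENNReal.rpow_le_rpow_of_exponent_le h2 hr0
      · rw [ENNReal.zero_rpow_of_pos (by linarith), lintegral_zero]; exact bot_le
  set A : ℝ := |γ * q * (c + QQ γ * l2) + (γ * q) ^ 2 * (Real.log 4 + C + l2) / 2| with hA
  refine ⟨4 * max K0 0 * Real.exp A * (KR * v * Real.exp (γ * u) * Real.exp (γ * u) ^ th γ),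
    fun z n hz hn => ?_⟩
  have hmain := (hKR M v u n r0 _ hM le_rfl le_rfl (by linarith) hRW hn).2.1
  set E : ℝ≥0∞ := ENNReal.ofReal (z ^ (-q)) * ENNReal.ofReal K0 * eE A with hE
  have hP : ∀ P : Dy, ind (i0 + 4 ≤ P.length) * ∑ d : Fin 2 × Fin 2,
      gm {ω | M.X γ u ω (d :: P) ≤ c ∧ ENNReal.ofReal z ≤ nB (sub (M.X γ u ω) P) ∧
        ENNReal.ofReal n ≤ far (M.X γ u ω) P} ≤ 4 * E * (ind (i0 + 4 ≤ P.length) *
        ∫⁻ ω, Gam M γ κ q i0 P (M.YV γ u P ω, ω) *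
          ind (ENNReal.ofReal n ≤ far (M.X γ u ω) P) ∂gm) := by
    intro P
    by_cases hlen : i0 + 4 ≤ P.length
    · have hlen' : i0 + 2 ≤ P.length := by omega
      obtain ⟨hO, -, hX, -⟩ := hTL4 γ M i0 P hM hlen'
      obtain ⟨hGr, hch, -, hnorm⟩ := hD3 M P 4 (by norm_num) hO
      obtain ⟨ho, hp⟩ := orth hFE hGEO1 M P hO hD2
      have h1 : ∀ d : Fin 2 × Fin 2, gm {ω | M.X γ u ω (d :: P) ≤ c ∧
          ENNReal.ofReal z ≤ nB (sub (M.X γ u ω) P) ∧ ENNReal.ofReal n ≤ far (M.X γ u ω) P} ≤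
          E * ∫⁻ ω, Gam M γ κ q i0 P (M.YV γ u P ω, ω) *
            ind (ENNReal.ofReal n ≤ far (M.X γ u ω) P) ∂gm := by
        intro d
        have hB : ‖gP M P [d]‖ ^ 2 ≤ Real.log 4 + C + l2 := by
          have := hnorm [d]
          simpa [gP] using this
        have := one_sq hG1 hG2 hG3 hCH hFE hGEO1 hT1 hT3 γ q κ K0 _ (C / 4) u c z n hγ0 hQ hq0 hz
          hκ1 hκ2 M P d ho hp hB hch (fun S ω => hX S u ω) (hK0 _ hGr)
        simpa only [Gam, if_pos hlen'] using this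
      have h2 : ind (i0 + 4 ≤ P.length) = 1 := by unfold ind; exact if_pos hlen
      rw [h2, one_mul, one_mul]
      refine (Finset.sum_le_sum fun d _ => h1 d).trans ?_
      rw [Finset.sum_const, Finset.card_univ, mul_assoc 4 E]
      simp
    · have h2 : ind (i0 + 4 ≤ P.length) = 0 := by unfold ind; exact if_neg hlen
      rw [h2]; simp
  refine (ENNReal.tsum_le_tsum hP).trans ?_
  rw [ENNReal.tsum_mul_left]
  refine (mul_le_mul_right hmain _).trans ?_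
  have e1 : 4 * E = ENNReal.ofReal (4 * max K0 0 * Real.exp A * z ^ (-q)) := by
    have : ENNReal.ofReal K0 = ENNReal.ofReal (max K0 0) := by
      rcases le_total K0 0 with h | h
      · rw [max_eq_right h, ENNReal.ofReal_of_nonpos h, ENNReal.ofReal_zero]
      · rw [max_eq_left h]
    rw [hE, this, ENNReal.ofReal_mul (by positivity), ENNReal.ofReal_mul (by positivity),
      ENNReal.ofReal_mul (by norm_num), ENNReal.ofReal_ofNat]
    unfold eE; ring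
  rw [e1, ← ENNReal.ofReal_mul (by positivity)]
  apply le_of_eq
  congr 1
  rw [Real.div_rpow (Real.exp_pos _).le hn.le, Real.rpow_neg hn.le]
  ring

end

end Pool.Agent.Lib.APPS
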