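import Pool.Agent.Lib.APPS.Blue1

/-! Measures of finite logarithmic energy. -/

namespace Pool.Agent.Lib.APPS

open MeasureTheory ProbabilityTheory Filter Topology Set Metric
open scoped NNReal ENNReal

noncomputable section

namespace FEb

/-- mass of the pairs at distance at most `t` -/
def F (μ ν : Measure ℂ) (t : ℝ) : ℝ≥0∞ := (μ.prod ν) {p | ‖p.1 - p.2‖ ≤ t}

lemma mlog : Measurable fun p : ℂ × ℂ => Real.log ‖p.1 - p.2‖ := by fun_prop

lemma mS (t : ℝ) : MeasurableSet {p : ℂ × ℂ | ‖p.1 - p.2‖ ≤ t} :=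
  measurableSet_le (by fun_prop) measurable_const

lemma diag (μ ν : Measure ℂ) [SFinite ν] (h : ∀ x, ν {x} = 0) :
    ∀ᵐ p ∂(μ.prod ν), p.1 ≠ p.2 := by
  rw [ae_iff]
  have hm : MeasurableSet {p : ℂ × ℂ | ¬p.1 ≠ p.2} := by
    simp only [ne_eq, not_not]
    exact measurableSet_eq_fun measurable_fst measurable_snd
  rw [Measure.prod_apply hm]
  have : ∀ x : ℂ, Prod.mk x ⁻¹' {p : ℂ × ℂ | ¬p.1 ≠ p.2} = {x} := fun x => by
    ext y; simp [eq_comm]
  simp only [this, h, lintegral_zero]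

lemma mball (μ : Measure ℂ) [SFinite μ] (r : ℝ) : Measurable fun w => μ (closedBall w r) := by
  have hs : MeasurableSet {q : ℂ × ℂ | dist q.2 q.1 ≤ r} :=
    measurableSet_le (by fun_prop) measurable_const
  exact measurable_measure_prodMk_left (ν := μ) hs

lemma tri (μ ν : Measure ℂ) [SFinite μ] [SFinite ν] (r : ℝ) :
    ∫⁻ w, μ (closedBall w r) * ν (closedBall w r) =
      ∫⁻ p, volume (closedBall p.1 r ∩ closedBall p.2 r) ∂(μ.prod ν) := by
  have hS : MeasurableSet {q : ℂ × (ℂ × ℂ) | dist q.2.1 q.1 ≤ r ∧ dist q.2.2 q.1 ≤ r} := by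
    have a1 : MeasurableSet {q : ℂ × (ℂ × ℂ) | dist q.2.1 q.1 ≤ r} :=
      measurableSet_le (by fun_prop) measurable_const
    have a2 : MeasurableSet {q : ℂ × (ℂ × ℂ) | dist q.2.2 q.1 ≤ r} :=
      measurableSet_le (by fun_prop) measurable_const
    exact a1.inter a2
  have h1 := Measure.prod_apply (μ := (volume : Measure ℂ)) (ν := μ.prod ν) hS
  have h2 := Measure.prod_apply_symm (μ := (volume : Measure ℂ)) (ν := μ.prod ν) hS
  have h3 := h1.symm.trans h2
  convert h3 using 2
  · funext w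
    rw [← Measure.prod_prod]
    rfl
  · funext p
    congr 1
    ext w
    simp [dist_comm]

lemma low (μ ν : Measure ℂ) (t : ℝ) :
    volume (closedBall (0 : ℂ) t) * F μ ν t ≤
      ∫⁻ p, volume (closedBall p.1 (2 * t) ∩ closedBall p.2 (2 * t)) ∂(μ.prod ν) := by
  rw [F, ← lintegral_indicator_const (mS t)]
  refine lintegral_mono fun p => ?_
  by_cases hp : p ∈ {p : ℂ × ℂ | ‖p.1 - p.2‖ ≤ t}
  · rw [indicator_of_mem hp, ← Measure.addHaar_closedBall_center volume p.1 t]
    refine measure_mono fun w hw => ?_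
    have hp' : dist p.1 p.2 ≤ t := by rwa [dist_eq_norm]
    have h0 : 0 ≤ t := dist_nonneg.trans hp'
    rw [mem_closedBall] at hw
    refine ⟨mem_closedBall.2 (by linarith), mem_closedBall.2 ?_⟩
    linarith [dist_triangle w p.1 p.2]
  · rw [indicator_of_notMem hp]; exact zero_le

lemma upp (μ ν : Measure ℂ) (t : ℝ) :
    ∫⁻ p, volume (closedBall p.1 (2 * t) ∩ closedBall p.2 (2 * t)) ∂(μ.prod ν) ≤
      volume (closedBall (0 : ℂ) (2 * t)) * F μ ν (4 * t) := by
  rw [F, ← lintegral_indicator_const (mS _)]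
  refine lintegral_mono fun p => ?_
  by_cases hp : p ∈ {p : ℂ × ℂ | ‖p.1 - p.2‖ ≤ 4 * t}
  · rw [indicator_of_mem hp, ← Measure.addHaar_closedBall_center volume p.1 (2 * t)]
    exact measure_mono inter_subset_left
  · rw [indicator_of_notMem hp]
    have : closedBall p.1 (2 * t) ∩ closedBall p.2 (2 * t) = ∅ := by
      refine eq_empty_of_forall_notMem fun w hw => hp ?_
      have h1 := mem_closedBall.1 hw.1
      have h2 := mem_closedBall.1 hw.2
      have h3 := dist_triangle_left p.1 p.2 w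
      change ‖p.1 - p.2‖ ≤ 4 * t
      rw [← dist_eq_norm]; linarith
    simp [this]

lemma key (μ ν : Measure ℂ) [SFinite μ] [SFinite ν] {t : ℝ} (ht : 0 < t) :
    F μ ν t ≤ 4 * (F μ μ (4 * t) + F ν ν (4 * t)) := by
  have hv : volume (closedBall (0 : ℂ) (2 * t)) = volume (closedBall (0 : ℂ) t) * 4 := by
    rw [Complex.volume_closedBall, Complex.volume_closedBall, ENNReal.ofReal_mul (by norm_num)]
    norm_num; ring
  have h0 : volume (closedBall (0 : ℂ) t) ≠ 0 := (measure_closedBall_pos _ _ ht).ne'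
  have h1 : volume (closedBall (0 : ℂ) t) ≠ ∞ := measure_closedBall_lt_top.ne
  rw [← ENNReal.mul_le_mul_iff_right h0 h1, ← mul_assoc, ← hv, mul_add]
  refine (low μ ν t).trans ?_
  refine le_trans ?_ (add_le_add (upp μ μ t) (upp ν ν t))
  rw [← tri, ← tri, ← tri, ← lintegral_add_left ((mball μ _).fun_mul (mball μ _))]
  refine lintegral_mono fun w => ?_
  rcases le_total (μ (closedBall w (2 * t))) (ν (closedBall w (2 * t))) with h | h
  · exact (mul_le_mul_left h _).trans le_add_self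
  · exact (mul_le_mul_right h _).trans le_self_add

lemma antiF (μ ν : Measure ℂ) (c : ℝ) (hc : 0 ≤ c) :
    Measurable fun s => F μ ν (c * Real.exp (-s)) := by
  refine Antitone.measurable fun s s' h => measure_mono fun p hp => ?_
  exact le_trans hp (mul_le_mul_of_nonneg_left (Real.exp_le_exp.2 (by linarith)) hc)

lemma F_of_int (μ : Measure ℂ) (h : FE μ) : ∫⁻ s in Ioi (0 : ℝ), F μ μ (4 * Real.exp (-s)) ≠ ∞ := by
  have := h.fin
  have hi : Integrable (fun p : ℂ × ℂ => max (Real.log 4 - Real.log ‖p.1 - p.2‖) 0) (μ.prod μ) :=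
    ((integrable_const _).sub h.energy).pos_part
  have h0 : (0 : ℂ × ℂ → ℝ) ≤ᵐ[μ.prod μ]
      fun p : ℂ × ℂ => max (Real.log 4 - Real.log ‖p.1 - p.2‖) 0 :=
    Eventually.of_forall fun p => le_max_right _ _
  have h1 := (lintegral_ofReal_ne_top_iff_integrable hi.1 h0).2 hi
  rw [lintegral_eq_lintegral_meas_le _ h0 hi.1.aemeasurable] at h1
  refine ne_top_of_le_ne_top h1 (lintegral_mono fun s => measure_mono_ae ?_)
  filter_upwards [diag μ μ h.noAtoms] with p hp hs
  have hp' : 0 < ‖p.1 - p.2‖ := norm_pos_iff.2 (sub_ne_zero.2 hp)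
  have h2 := Real.log_le_log hp' hs
  rw [Real.log_mul (by norm_num) (Real.exp_pos _).ne', Real.log_exp] at h2
  exact le_max_of_le_left (by linarith)

lemma ae_bdd {μ : Measure ℂ} {r : ℝ} (h : μ (closedBall 0 r)ᶜ = 0) : ∀ᵐ x ∂μ, ‖x‖ ≤ r := by
  have : ∀ᵐ x ∂μ, x ∈ closedBall (0 : ℂ) r := h
  filter_upwards [this] with x hx using by simpa using hx

lemma ae_bdd2 {μ ν : Measure ℂ} [SFinite ν] {r r' : ℝ} (h : μ (closedBall 0 r)ᶜ = 0)
    (h' : ν (closedBall 0 r')ᶜ = 0) : ∀ᵐ p ∂(μ.prod ν), ‖p.1 - p.2‖ ≤ r + r' := by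
  filter_upwards [Measure.quasiMeasurePreserving_fst.ae (ae_bdd h),
    Measure.quasiMeasurePreserving_snd.ae (ae_bdd h')] with p h1 h2
  exact (norm_sub_le _ _).trans (add_le_add h1 h2)

lemma int_of_F (μ ν : Measure ℂ) [IsFiniteMeasure μ] [IsFiniteMeasure ν] {r r' : ℝ}
    (h : μ (closedBall 0 r)ᶜ = 0) (h' : ν (closedBall 0 r')ᶜ = 0)
    (hF : ∫⁻ s in Ioi (0 : ℝ), F μ ν (Real.exp (-s)) ≠ ∞) :
    Integrable (fun p : ℂ × ℂ => Real.log ‖p.1 - p.2‖) (μ.prod ν) := by
  have hm : Measurable fun p : ℂ × ℂ => max (-Real.log ‖p.1 - p.2‖) 0 :=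
    mlog.neg.max measurable_const
  have h0 : (0 : ℂ × ℂ → ℝ) ≤ᵐ[μ.prod ν] fun p : ℂ × ℂ => max (-Real.log ‖p.1 - p.2‖) 0 :=
    Eventually.of_forall fun p => le_max_right _ _
  have hi : Integrable (fun p : ℂ × ℂ => max (-Real.log ‖p.1 - p.2‖) 0) (μ.prod ν) := by
    rw [← lintegral_ofReal_ne_top_iff_integrable hm.aestronglyMeasurable h0,
      lintegral_eq_lintegral_meas_le _ h0 hm.aemeasurable]
    refine ne_top_of_le_ne_top hF (setLIntegral_mono' measurableSet_Ioi fun s hs => ?_)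
    refine measure_mono fun p hp => ?_
    have hs' : 0 < s := hs
    have hp' : s ≤ -Real.log ‖p.1 - p.2‖ := (le_max_iff.1 hp).resolve_right (by linarith)
    change ‖p.1 - p.2‖ ≤ Real.exp (-s)
    exact (Real.le_exp_log _).trans (Real.exp_le_exp.2 (by linarith))
  refine (hi.add (integrable_const (r + r'))).mono' mlog.aestronglyMeasurable ?_
  filter_upwards [ae_bdd2 h h'] with p hp
  have h1 := Real.log_le_self (norm_nonneg (p.1 - p.2))
  have h2 := le_max_left (-Real.log ‖p.1 - p.2‖) 0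
  have h3 := le_max_right (-Real.log ‖p.1 - p.2‖) 0
  have h4 := norm_nonneg (p.1 - p.2)
  rw [Real.norm_eq_abs, abs_le, Pi.add_apply]
  constructor <;> linarith

lemma mutual_int {μ ν : Measure ℂ} (hμ : FE μ) (hν : FE ν) :
    Integrable (fun p : ℂ × ℂ => Real.log ‖p.1 - p.2‖) (μ.prod ν) := by
  have := hμ.fin
  have := hν.fin
  obtain ⟨r, hr⟩ := hμ.bdd
  obtain ⟨r', hr'⟩ := hν.bdd
  refine int_of_F μ ν hr hr' (ne_top_of_le_ne_top ?_
    (lintegral_mono fun s => key μ ν (Real.exp_pos (-s))))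
  rw [lintegral_const_mul' _ _ (by norm_num), lintegral_add_left (antiF μ μ 4 (by norm_num))]
  exact ENNReal.mul_ne_top (by norm_num) (ENNReal.add_ne_top.2 ⟨F_of_int μ hμ, F_of_int ν hν⟩)

lemma fe_add {μ ν : Measure ℂ} (hμ : FE μ) (hν : FE ν) : FE (μ + ν) := by
  have := hμ.fin
  have := hν.fin
  obtain ⟨r, hr⟩ := hμ.bdd
  obtain ⟨r', hr'⟩ := hν.bdd
  refine ⟨inferInstance, ⟨max r r', ?_⟩, fun x => by simp [hμ.noAtoms, hν.noAtoms], ?_⟩
  · rw [Measure.add_apply,
      measure_mono_null (compl_subset_compl.2 (closedBall_subset_closedBall (le_max_left _ _))) hr,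
      measure_mono_null (compl_subset_compl.2 (closedBall_subset_closedBall (le_max_right _ _)))
        hr', add_zero]
  · rw [Measure.add_prod, Measure.prod_add, Measure.prod_add]
    exact (hμ.energy.add_measure (mutual_int hμ hν)).add_measure
      ((mutual_int hν hμ).add_measure hν.energy)

lemma fe_smul {t : ℝ≥0∞} {μ : Measure ℂ} (ht : t ≠ ∞) (hμ : FE μ) : FE (t • μ) := by
  have := hμ.fin
  have := Measure.smul_finite μ ht
  obtain ⟨r, hr⟩ := hμ.bdd
  refine ⟨inferInstance, ⟨r, by simp [hr]⟩, fun x => by simp [hμ.noAtoms], ?_⟩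
  rw [Measure.prod_smul_left, Measure.prod_smul_right]
  exact (hμ.energy.smul_measure ht).smul_measure ht

lemma fe_of_le {μ : Measure ℂ} {B : ℝ≥0∞} (hB : B ≠ ∞) (hle : μ ≤ B • volume) {r : ℝ}
    (hr : μ (closedBall 0 r)ᶜ = 0) : FE μ := by
  have hb : ∀ s, μ s ≤ B * volume s := fun s => Measure.le_iff'.1 hle s
  have : IsFiniteMeasure μ := ⟨by
    rw [← union_compl_self (closedBall (0 : ℂ) r)]
    refine (measure_union_le _ _).trans_lt ?_
    rw [hr, add_zero]
    exact (hb _).trans_lt (ENNReal.mul_lt_top hB.lt_top measure_closedBall_lt_top)⟩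
  refine ⟨inferInstance, ⟨r, hr⟩, fun x => by simpa using hb {x}, int_of_F μ μ hr hr ?_⟩
  have h1 : ∀ s : ℝ, F μ μ (Real.exp (-s)) ≤
      (B * NNReal.pi * μ univ) * ENNReal.ofReal (Real.exp (-2 * s)) := fun s => by
    rw [F, Measure.prod_apply (mS _)]
    have : ∀ x : ℂ, μ (Prod.mk x ⁻¹' {p : ℂ × ℂ | ‖p.1 - p.2‖ ≤ Real.exp (-s)}) ≤
        B * NNReal.pi * ENNReal.ofReal (Real.exp (-2 * s)) := fun x => by
      have h2 : Prod.mk x ⁻¹' {p : ℂ × ℂ | ‖p.1 - p.2‖ ≤ Real.exp (-s)} =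
          closedBall x (Real.exp (-s)) := by
        ext y; simp [dist_eq_norm, norm_sub_rev]
      rw [h2]
      refine (hb _).trans (le_of_eq ?_)
      rw [Complex.volume_closedBall, ← ENNReal.ofReal_pow (Real.exp_pos _).le, ← Real.exp_nat_mul]
      have : ((2 : ℕ) : ℝ) * -s = -2 * s := by push_cast; ring
      rw [this]; ring
    refine (lintegral_mono this).trans (le_of_eq ?_)
    rw [lintegral_const]; ring
  refine ne_top_of_le_ne_top ?_ (lintegral_mono h1)
  have hc : B * NNReal.pi * μ univ ≠ ∞ :=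
    ENNReal.mul_ne_top (ENNReal.mul_ne_top hB ENNReal.coe_ne_top) (measure_ne_top _ _)
  rw [lintegral_const_mul' _ _ hc]
  exact ENNReal.mul_ne_top hc (exp_neg_integrableOn_Ioi 0 (b := 2) two_pos).lintegral_lt_top.ne

lemma fe_restrict {s : Set ℂ} (hs : IsCompact s) : FE (volume.restrict s) := by
  obtain ⟨r, hr⟩ := hs.isBounded.subset_closedBall 0
  refine fe_of_le (B := 1) ENNReal.one_ne_top (by simpa using Measure.restrict_le_self) (r := r) ?_
  rw [Measure.restrict_apply measurableSet_closedBall.compl]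
  have : (closedBall (0 : ℂ) r)ᶜ ∩ s = ∅ := eq_empty_of_forall_notMem fun x hx => hx.1 (hr hx.2)
  simp [this]

lemma fe_circ (hE : St_EXP1) (c : ℂ) {r : ℝ} (hr : 0 < r) :
    PFE (circ c r) ∧ circ c r (sphere c r)ᶜ = 0 := by
  have hm : Measurable (circleMap c r) := (continuous_circleMap c r).measurable
  have hpi : (0 : ℝ) < 2 * Real.pi := by positivity
  have hp : IsProbabilityMeasure (circ c r) := ⟨by
    rw [circ, Measure.smul_apply, Measure.map_apply hm MeasurableSet.univ, preimage_univ,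
      Measure.restrict_apply_univ, Real.volume_Ioc, sub_zero, smul_eq_mul]
    exact ENNReal.inv_mul_cancel (by simpa using Real.pi_pos) ENNReal.ofReal_ne_top⟩
  have hs : circ c r (sphere c r)ᶜ = 0 := by
    rw [circ, Measure.smul_apply, Measure.map_apply hm isClosed_sphere.measurableSet.compl]
    have : circleMap c r ⁻¹' (sphere c r)ᶜ = ∅ :=
      eq_empty_of_forall_notMem fun θ h => h (circleMap_mem_sphere c hr.le θ)
    simp [this]
  have hs' : ∀ᵐ x ∂circ c r, x ∈ sphere c r := hs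
  refine ⟨⟨⟨inferInstance, ⟨‖c‖ + r, ?_⟩, fun x => ?_, ?_⟩, hp⟩, hs⟩
  · refine measure_mono_null (compl_subset_compl.2 fun x hx => ?_) hs
    rw [mem_sphere_iff_norm] at hx
    rw [mem_closedBall_zero_iff]
    linarith [norm_le_insert' x c]
  · rw [circ, Measure.smul_apply, Measure.map_apply hm (measurableSet_singleton x),
      ((countable_singleton x).preimage_circleMap c hr.ne').measure_zero, smul_zero]
  · rw [integrable_prod_iff mlog.aestronglyMeasurable]
    refine ⟨Eventually.of_forall fun x => (hE.1 x c r hr).1, ?_⟩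
    refine (integrable_const (4 * r - Real.log r)).mono'
      (mlog.aestronglyMeasurable.norm.integral_prod_right') ?_
    filter_upwards [hs'] with x hx
    rw [mem_sphere_iff_norm] at hx
    obtain ⟨h1, h2⟩ := hE.1 x c r hr
    rw [hx, max_self] at h2
    rw [Real.norm_of_nonneg (integral_nonneg fun y => norm_nonneg _)]
    have h3 : ∫ y, (4 * r - Real.log ‖x - y‖) ∂circ c r = 4 * r - Real.log r := by
      rw [integral_sub (integrable_const _) h1, h2]; simp
    rw [← h3]
    refine integral_mono_ae h1.norm ((integrable_const _).sub h1) ?_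
    filter_upwards [hs'] with y hy
    rw [mem_sphere_iff_norm] at hy
    have h4 : ‖x - y‖ ≤ 2 * r := by
      have := norm_sub_le (x - c) (y - c)
      rw [sub_sub_sub_cancel_right] at this
      linarith
    have h5 := Real.log_le_self (norm_nonneg (x - y))
    rw [Real.norm_eq_abs, abs_le]
    constructor <;> linarith

lemma map_ae {μ ν : Measure ℂ} (a : ℂ) {ρ : ℂ} (hρ : ρ ≠ 0) (hν : FE ν) :
    (fun p : ℂ × ℂ => Real.log ‖a + ρ * p.1 - (a + ρ * p.2)‖) =ᵐ[μ.prod ν]
      fun p => Real.log ‖ρ‖ + Real.log ‖p.1 - p.2‖ := by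
  have := hν.fin
  filter_upwards [diag μ ν hν.noAtoms] with p hp
  rw [add_sub_add_left_eq_sub, ← mul_sub, norm_mul,
    Real.log_mul (norm_ne_zero_iff.2 hρ) (norm_ne_zero_iff.2 (sub_ne_zero.2 hp))]

lemma fe_map {μ : Measure ℂ} (a : ℂ) {ρ : ℂ} (hρ : ρ ≠ 0) (hμ : FE μ) :
    FE (μ.map fun x => a + ρ * x) := by
  have := hμ.fin
  have hm : Measurable fun x : ℂ => a + ρ * x := by fun_prop
  obtain ⟨r, hr⟩ := hμ.bdd
  refine ⟨inferInstance, ⟨‖a‖ + ‖ρ‖ * r, ?_⟩, fun x => ?_, ?_⟩
  · rw [Measure.map_apply hm measurableSet_closedBall.compl]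
    refine measure_mono_null (fun x hx => ?_) hr
    intro hx'
    refine hx ?_
    rw [mem_closedBall_zero_iff] at hx' ⊢
    refine (norm_add_le _ _).trans ?_
    rw [norm_mul]
    gcongr
  · rw [Measure.map_apply hm (measurableSet_singleton x)]
    refine measure_mono_null (fun y hy => ?_) (hμ.noAtoms ((x - a) / ρ))
    have hy' : a + ρ * y = x := hy
    rw [mem_singleton_iff, ← hy']
    field_simp
    ring
  · rw [Measure.map_prod_map _ _ hm hm,
      integrable_map_measure mlog.aestronglyMeasurable (hm.prodMap hm).aemeasurable]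
    exact ((integrable_const _).add hμ.energy).congr (map_ae a hρ hμ).symm

end FEb

open FEb in
theorem blk_FE (hE : St_EXP1) (hG : St_GEO1) : St_FE := by
  refine ⟨fun μ ν => mutual_int, fun μ ν => fe_add, fun t μ => fe_smul,
    ⟨inferInstance, ⟨0, rfl⟩, fun _ => rfl, by simp⟩, fun μ ν hμ hν => ?_,
    fun μ μ' ν hμ hμ' hν => ?_, fun t μ ν ht hμ hν => ?_, fun S => ?_, fun c r hr => ?_,
    fun ρ hρ hB hr => ?_, fun μ a ρ hρ hμ => ?_, fun μ ν a ρ hρ hμ hν => ?_⟩
  · have := hμ.fin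
    have := hν.fin
    refine ⟨?_, integral_prod _ (mutual_int hμ hν).neg⟩
    rw [Ie, Ie, ← integral_prod_swap]
    simp only [Prod.fst_swap, Prod.snd_swap, norm_sub_rev]
  · have := hμ.fin
    have := hμ'.fin
    have := hν.fin
    rw [Ie, Measure.add_prod]
    exact integral_add_measure (mutual_int hμ hν).neg (mutual_int hμ' hν).neg
  · have := hν.fin
    rw [Ie, Measure.prod_smul_left, integral_smul_measure, ENNReal.toReal_ofReal ht]
    rfl
  · obtain ⟨h1, h2, -⟩ := hG.2.2.2.1 S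
    have h3 := (hG.1 S).1
    refine ⟨⟨fe_smul ENNReal.ofReal_ne_top (fe_restrict h1), ⟨?_⟩⟩, ?_⟩
    · rw [unif, Measure.smul_apply, Measure.restrict_apply_univ, h2, smul_eq_mul,
        ← ENNReal.ofReal_mul (by positivity), one_div_mul_cancel (by positivity),
        ENNReal.ofReal_one]
    · rw [unif, Measure.smul_apply, Measure.restrict_apply h1.measurableSet.compl]
      simp
  · have h0 : ENNReal.ofReal (Real.pi * r ^ 2) ≠ 0 := by
      rw [ne_eq, ENNReal.ofReal_eq_zero, not_le]; positivity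
    refine ⟨(fe_circ hE c hr).1, (fe_circ hE c hr).2,
      ⟨fe_smul (ENNReal.inv_ne_top.2 h0) (fe_restrict (isCompact_closedBall c r)), ⟨?_⟩⟩, ?_⟩
    · rw [disc, Measure.smul_apply, Measure.restrict_apply_univ, Complex.volume_closedBall,
        smul_eq_mul, ← ENNReal.ofReal_pow hr.le, ← ENNReal.ofReal_coe_nnreal,
        ← ENNReal.ofReal_mul (by positivity), NNReal.coe_real_pi, mul_comm (r ^ 2)]
      exact ENNReal.inv_mul_cancel h0 ENNReal.ofReal_ne_top
    · rw [disc, Measure.smul_apply, Measure.restrict_apply measurableSet_closedBall.compl]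
      simp
  · obtain ⟨B, hB, hle⟩ := hB
    obtain ⟨r, hr⟩ := hr
    refine fe_of_le hB ?_ (r := r) ?_
    · rw [← withDensity_const]
      exact withDensity_mono (Eventually.of_forall hle)
    · rw [withDensity_apply _ measurableSet_closedBall.compl]
      exact setLIntegral_eq_zero measurableSet_closedBall.compl fun x hx =>
        hr x (by simpa using hx)
  · have := hμ.2
    exact ⟨fe_map a hρ hμ.1, Measure.isProbabilityMeasure_map (by fun_prop)⟩
  · have := hμ.2
    have := hν.2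
    have hm : Measurable fun x : ℂ => a + ρ * x := by fun_prop
    rw [Ie, Measure.map_prod_map _ _ hm hm,
      integral_map (hm.prodMap hm).aemeasurable mlog.fun_neg.aestronglyMeasurable]
    have h1 : ∫ p : ℂ × ℂ, -Real.log ‖a + ρ * p.1 - (a + ρ * p.2)‖ ∂μ.prod ν =
        ∫ p : ℂ × ℂ, (-Real.log ‖p.1 - p.2‖ - Real.log ‖ρ‖) ∂μ.prod ν := by
      refine integral_congr_ae ?_
      filter_upwards [map_ae (μ := μ) a hρ hν.1] with p hp
      rw [hp]; ring
    refine h1.trans ?_
    refine (integral_sub (mutual_int hμ.1 hν.1).neg (integrable_const _)).trans ?_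
    simp [Ie]

end

end Pool.Agent.Lib.APPS
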