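import Pool.Agent.Lib.APPS.Blue4

/-!
Block FIN: final assembly of the convergence statement.
-/

namespace Pool.Agent.Lib.APPS

open MeasureTheory ProbabilityTheory Filter Topology Set Metric
open scoped NNReal ENNReal CompactlySupported BoundedContinuousFunction RealInnerProductSpace
  Classical

noncomputable section

namespace FIN

theorem side_pos (S : Dy) : 0 < side S := by
  unfold side; positivity

theorem box_cons (d : Fin 2 × Fin 2) (S : Dy) : box (d :: S) ⊆ box S := by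
  intro z hz
  have hs : side (d :: S) = side S / 2 := by
    unfold side; rw [List.length_cons, pow_succ]; ring
  have hp := side_pos S
  have h1 : (0 : ℝ) ≤ ((d.1 : ℕ) : ℝ) ∧ ((d.1 : ℕ) : ℝ) ≤ 1 := by
    refine ⟨Nat.cast_nonneg _, ?_⟩
    have := d.1.2
    exact_mod_cast Nat.lt_succ_iff.1 this
  have h2 : (0 : ℝ) ≤ ((d.2 : ℕ) : ℝ) ∧ ((d.2 : ℕ) : ℝ) ≤ 1 := by
    refine ⟨Nat.cast_nonneg _, ?_⟩
    have := d.2.2
    exact_mod_cast Nat.lt_succ_iff.1 this
  have hre : (corner (d :: S)).re = (corner S).re + side S / 2 * ((d.1 : ℕ) : ℝ) := by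
    simp [corner, hs]
  have him : (corner (d :: S)).im = (corner S).im + side S / 2 * ((d.2 : ℕ) : ℝ) := by
    simp [corner, hs]
  obtain ⟨⟨a1, a2⟩, a3, a4⟩ := hz
  rw [hre] at a1 a2
  rw [him] at a3 a4
  rw [hs] at a2 a4
  refine ⟨⟨?_, ?_⟩, ?_, ?_⟩ <;> nlinarith [h1.1, h1.2, h2.1, h2.2]

theorem box_sub (S : Dy) : box S ⊆ box [] := by
  induction S with
  | nil => exact Subset.rfl
  | cons d S ih => exact (box_cons d S).trans ih

theorem nB_le (x : Dy → ℝ) : nB x ≤ ∑' S : Dy, ind (0 < x S) := by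
  unfold nB
  refine ENNReal.tsum_le_tsum fun S => ?_
  unfold ind
  by_cases h : IntN x S
  · rw [if_pos h, if_pos (h S List.suffix_rfl)]
  · rw [if_neg h]; exact zero_le

theorem ae_fin (hMOD : St_MOD) (hT3 : St_T3) (hFM : St_FM) {γ : ℝ} (hγ : γ ∈ Ioo (0 : ℝ) 2)
    (M : Model) (hM : box [] ⊆ M.O) : ∀ᵐ ω ∂gm, nB (M.X γ 0 ω) ≠ ∞ := by
  obtain ⟨K, c, -, hK⟩ := (hFM γ hγ).1
  have hn : ∀ S : Dy, ‖M.eS S‖ ^ 2 ≤ max 0 (M.C0 + kS [] []) + S.length * l2 := by
    intro S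
    have h := (hMOD M).2.2.2.2.2.2.1 S ((box_sub S).trans hM) [] []
    simp only [List.nil_append, covE] at h
    rw [real_inner_self_eq_norm_sq] at h
    rw [h]
    have := le_max_right 0 (M.C0 + kS [] [])
    linarith
  have h1 := (hK _ (le_max_left _ _) M.eS hn 0).1
  have hX : Measurable (M.X γ 0) := (hT3.2.2.2.2.2.2.2.2.2.2.1 M γ 0).1
  have hms : ∀ S : Dy, MeasurableSet {ω : Om | 0 < M.X γ 0 ω S} := fun S =>
    measurableSet_lt measurable_const ((measurable_pi_apply S).comp hX)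
  have h2 : ∫⁻ ω, nB (M.X γ 0 ω) ∂gm ≤ ∑' S : Dy, gm {ω | 0 < M.X γ 0 ω S} := by
    refine (lintegral_mono fun ω => nB_le _).trans ?_
    rw [lintegral_tsum fun S =>
      ((hT3.2.2.2.2.2.2.2.2.2.2.2.1 Om (fun ω => 0 < M.X γ 0 ω S) (hms S)).1).aemeasurable]
    refine ENNReal.tsum_le_tsum fun S => le_of_eq ?_
    rw [← lintegral_indicator_one (hms S)]
    refine lintegral_congr fun ω => ?_
    unfold ind
    by_cases h : 0 < M.X γ 0 ω S
    · rw [if_pos h, indicator_of_mem (by exact h)]; rfl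
    · rw [if_neg h, indicator_of_notMem (by exact h)]
  have h3 : ∫⁻ ω, nB (M.X γ 0 ω) ∂gm ≠ ∞ :=
    ne_top_of_le_ne_top ENNReal.ofReal_ne_top (h2.trans h1)
  filter_upwards [ae_lt_top (hT3.1.comp hX) h3] with ω hω using hω.ne

theorem card_iff (hT1 : St_T1) (hT3 : St_T3) {Q : ℝ} (hQ : 0 < Q) (y : Dy → ℝ) (m : ℕ)
    (hy : nB (drift Q y 0) ≠ ∞) : (part Q y).ncard = 3 * m + 1 ↔ nB (drift Q y 0) = m := by
  have h1 := hT1.2.2.2.2.2.2.2.2.2.2.2.2.1 _ hy
  have h2 := hT1.2.2.2.2.2.2.2.2.2.2.2.1 _ _ h1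
  have h3 := (hT3.2.2.2.2.2.2.2.2.2.2.2.2 Q y _ hQ h1).1
  have h4 := (hT1.2.2.1 _ h2.1).1
  rw [h3, Set.ncard_coe_finset, h4, h2.2.2.1]
  constructor
  · intro h
    have : (tr (drift Q y 0)).card = m := by omega
    rw [this]
  · intro h
    have : (tr (drift Q y 0)).card = m := by exact_mod_cast h
    rw [this]

/-- the conditional integral only depends on the law -/
theorem cond_int {Ω : Type} [MeasurableSpace Ω] (P : Measure Ω) (H : Ω → Dy → ℝ)
    (hH : Measurable H) (E : Set (Dy → ℝ)) (hE : MeasurableSet E) (F : (Dy → ℝ) → ℝ)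
    (hF : Measurable F) (A : Set Ω) (hA : A =ᵐ[P] (H ⁻¹' E : Set Ω)) :
    ∫ ω, F (H ω) ∂(cond P A) =
      (∫ y, indR (y ∈ E) * F y ∂(P.map H)) / (P.map H).real E := by
  unfold ProbabilityTheory.cond
  rw [integral_smul_measure, Measure.restrict_congr_set hA, measure_congr hA,
    ← integral_map hH.aemeasurable hF.aestronglyMeasurable, ← Measure.restrict_map hH hE,
    ← integral_indicator hE, Measure.real, Measure.map_apply hH hE, ENNReal.toReal_inv,
    smul_eq_mul, div_eq_inv_mul]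
  congr 1
  refine integral_congr_ae (Eventually.of_forall fun y => ?_)
  unfold indR
  by_cases h : y ∈ E
  · simp [h]
  · simp [h]

end FIN

open FIN in
theorem blk_FIN (hG1 : St_G1) (hG3 : St_G3) (hMOD : St_MOD) (hT1 : St_T1) (hT3 : St_T3)
    (hRW1 : St_RW1) (hFM : St_FM) (hMS : St_MS) (hFA2 : St_FA2) (hLT : St_LT) (hMV : St_MV)
    (hFA : St_FA) (hTF : St_TF) : St_FIN := by
  intro γ hγ g M hL cV hcV hVol a ha Ω _ P h hCG θ hθ Ω' _ P' B₁ B₂ L μ hq k f G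
  have : IsProbabilityMeasure gm := hG1.1
  let D : QD γ := ⟨θ, hθ, Ω', P', B₁, B₂, L, μ, hq⟩
  obtain ⟨tf, htf⟩ := hTF
  have hQ : 0 < QQ γ := lt_trans two_pos (hRW1.2.2 γ hγ).2.1
  -- the normalised test function
  have hpos : 0 < 2 * ‖G‖ + 1 := by positivity
  let G' : (Fin k → ℝ) →ᵇ ℝ :=
    (2 * ‖G‖ + 1)⁻¹ • (G + BoundedContinuousFunction.const _ ‖G‖)
  have hG' : ∀ s, G' s = (2 * ‖G‖ + 1)⁻¹ * (G s + ‖G‖) := fun s => by
    simp [G', mul_add]
  have hG01 : ∀ s, 0 ≤ G' s ∧ G' s ≤ 1 := by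
    intro s
    have h1 := abs_le.1 (show |G s| ≤ ‖G‖ from G.norm_coe_le_norm s)
    rw [hG']
    constructor
    · exact mul_nonneg (inv_nonneg.2 hpos.le) (by linarith)
    · rw [inv_mul_le_iff₀ hpos]; linarith
  have hGG : ∀ s, G s = (2 * ‖G‖ + 1) * G' s + -‖G‖ := by
    intro s
    rw [hG', ← mul_assoc, mul_inv_cancel₀ hpos.ne']
    ring
  have hlim := hFA γ hγ D g M hL cV hcV hVol a ha k f G' hG01
  have hq2 := (hFA2 γ hγ D tf htf _ a ha.1 ha.2 k f G' hG01).2.2.2 G _ _ hGG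
  obtain ⟨hv1, hv2, -⟩ := hMV γ hγ g M hL
  obtain ⟨-, hs1, hs2, hs3⟩ := hMS a ha.1 k f G'
  obtain ⟨c, hc, hev⟩ := (hLT γ hγ D M hL.sub).1
  -- laws
  let H : Ω → Dy → ℝ := fun ω S => h S ω
  let H0 : Om → Dy → ℝ := fun ω S => ω (M.eS S)
  have hH : Measurable H := measurable_pi_lambda _ hCG.meas
  have hH0 : Measurable H0 := measurable_pi_lambda _ fun S => meas_ev _
  have hGram : Gram M.eS g.cov := by
    intro S S'
    have := (hMOD M).2.2.2.2.2.2.1 [] hL.sub S S'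
    simpa [hL.cov] using this
  have hlaw : P.map H = gm.map H0 := hG3.1 Dy Ω h P g.cov hCG M.eS hGram
  have hdr : Measurable fun y : Dy → ℝ => nB (drift (QQ γ) y 0) :=
    hT3.1.comp ((hT3.2.2.2.2.2.2.1 (QQ γ)).comp (measurable_id.prodMk measurable_const))
  have hfin : ∀ᵐ ω ∂P, nB (drift (QQ γ) (H ω) 0) ≠ ∞ := by
    have hms : MeasurableSet {y : Dy → ℝ | nB (drift (QQ γ) y 0) ≠ ∞} :=
      (hdr (measurableSet_singleton ∞)).compl
    have h1 : ∀ᵐ y ∂(gm.map H0), nB (drift (QQ γ) y 0) ≠ ∞ :=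
      (ae_map_iff hH0.aemeasurable hms).2 (ae_fin hMOD hT3 hFM hγ M hL.sub)
    rw [← hlaw] at h1
    exact (ae_map_iff hH.aemeasurable hms).1 h1
  let F' : (Dy → ℝ) → ℝ := fun y => sampleAvg a (PhiT f G') (g.volg (QQ γ) y)
  have hF' : Measurable F' := (hs1 _ _ hv2 fun y => (hv1 y).1).2
  have hF01 : ∀ y, 0 ≤ F' y ∧ F' y ≤ 1 := fun y => (hs2 hG01).2 _
  have hFF : ∀ y, sampleAvg a (PhiT f G) (g.volg (QQ γ) y) = (2 * ‖G‖ + 1) * F' y + -‖G‖ :=
    fun y => (hs3 G _ _ hGG).2 _ (hv1 y).1 (hv1 y).2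
  have hT := (hlim.const_mul (2 * ‖G‖ + 1)).add_const (-‖G‖)
  rw [← hq2] at hT
  refine Tendsto.congr' ?_ hT
  filter_upwards [hev] with m hm
  let E : Set (Dy → ℝ) := {y | nB (drift (QQ γ) y 0) = m}
  have hE : MeasurableSet E := hdr (measurableSet_singleton _)
  have hA : {ω | (part (QQ γ) fun S => h S ω).ncard = 3 * m + 1} =ᵐ[P] (H ⁻¹' E : Set Ω) := by
    filter_upwards [hfin] with ω hω
    exact propext (card_iff hT1 hT3 hQ (H ω) m hω)
  have hF : Measurable fun y => (2 * ‖G‖ + 1) * F' y + -‖G‖ :=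
    (hF'.const_mul _).add_const _
  have hI : Measurable fun y => indR (y ∈ E) := (hT3.2.2.2.2.2.2.2.2.2.2.2.1 _ _ hE).2
  have key := cond_int P H hH E hE _ hF _ hA
  have hmE : (gm.map H0).real E = gm.real {ω | nB (M.X γ 0 ω) = m} := by
    rw [Measure.real, Measure.map_apply hH0 hE]; rfl
  have hI1 : ∫ ω, indR (nB (M.X γ 0 ω) = m) ∂gm = gm.real {ω | nB (M.X γ 0 ω) = m} := by
    have hs : MeasurableSet {ω | nB (M.X γ 0 ω) = m} := hH0 hE
    rw [← integral_indicator_one hs]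
    refine integral_congr_ae (Eventually.of_forall fun ω => ?_)
    unfold indR
    by_cases h' : nB (M.X γ 0 ω) = m
    · simp [h']
    · simp [h']
  have hne : gm.real {ω | nB (M.X γ 0 ω) = m} ≠ 0 := by
    intro h0
    unfold Model.aL oneT at hm
    simp only [mul_one] at hm
    rw [hI1, h0, mul_zero] at hm
    linarith
  have hb : ∀ p : Prop, 0 ≤ indR p ∧ indR p ≤ 1 := fun p => by
    unfold indR; split_ifs <;> norm_num
  have hi1 : Integrable (fun ω => indR (nB (M.X γ 0 ω) = m)) gm := by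
    refine (integrable_const (1 : ℝ)).mono' (hI.comp hH0).aestronglyMeasurable
      (Eventually.of_forall fun ω => ?_)
    rw [Real.norm_eq_abs, abs_of_nonneg (hb _).1]; exact (hb _).2
  have hi2 : Integrable (fun ω => indR (nB (M.X γ 0 ω) = m) * F' (H0 ω)) gm := by
    refine (integrable_const (1 : ℝ)).mono' ((hI.mul hF').comp hH0).aestronglyMeasurable
      (Eventually.of_forall fun ω => ?_)
    rw [Real.norm_eq_abs, abs_of_nonneg (mul_nonneg (hb _).1 (hF01 _).1)]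
    exact mul_le_one₀ (hb _).2 (hF01 _).1 (hF01 _).2
  have hI2 : ∫ y, indR (y ∈ E) * ((2 * ‖G‖ + 1) * F' y + -‖G‖) ∂(gm.map H0) =
      (2 * ‖G‖ + 1) * (∫ ω, indR (nB (M.X γ 0 ω) = m) * F' (H0 ω) ∂gm) +
        -‖G‖ * gm.real {ω | nB (M.X γ 0 ω) = m} := by
    have hmm : Measurable fun y => indR (y ∈ E) * ((2 * ‖G‖ + 1) * F' y + -‖G‖) := hI.mul hF
    rw [integral_map hH0.aemeasurable hmm.aestronglyMeasurable, ← hI1,
      ← integral_const_mul, ← integral_const_mul,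
      ← integral_add (hi2.const_mul _) (hi1.const_mul _)]
    refine integral_congr_ae (Eventually.of_forall fun ω => ?_)
    show indR (nB (M.X γ 0 ω) = m) * _ = _
    ring
  rw [hlaw, hI2, hmE] at key
  have hgoal : ∫ ω, sampleAvg a (fun ν => G fun i => ∫ w, f i w ∂ν)
      (g.volg (QQ γ) fun S => h S ω)
        ∂(cond P {ω | (part (QQ γ) fun S => h S ω).ncard = 3 * m + 1}) =
      ∫ ω, ((2 * ‖G‖ + 1) * F' (H ω) + -‖G‖)
        ∂(cond P {ω | (part (QQ γ) fun S => h S ω).ncard = 3 * m + 1}) :=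
    integral_congr_ae (Eventually.of_forall fun ω => hFF (H ω))
  rw [hgoal, key]
  field_simp
  rfl

end

end Pool.Agent.Lib.APPS
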