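import Pool.Agent.Lib.APPS.Blue1

/-!
Block G1: existence of the standard Gaussian on the algebraic dual of `HH`.
-/

namespace Pool.Agent.Lib.APPS

open MeasureTheory ProbabilityTheory Filter Topology Set
open scoped NNReal ENNReal RealInnerProductSpace

noncomputable section

namespace G1

variable {w : Type*}

/-- product of standard Gaussians -/
def P0 (w : Type*) : Measure (w → ℝ) := Measure.infinitePi fun _ : w => gaussianReal 0 1

instance : IsProbabilityMeasure (P0 w) := by unfold P0; infer_instance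

theorem map_ev (i : w) : (P0 w).map (fun ω => ω i) = gaussianReal 0 1 :=
  Measure.infinitePi_map_eval (fun _ : w => gaussianReal 0 1) i

theorem mp_ev (i : w) : MeasurePreserving (fun ω : w → ℝ => ω i) (P0 w) (gaussianReal 0 1) :=
  ⟨measurable_pi_apply i, map_ev i⟩

theorem memLp_ev (i : w) : MemLp (fun ω : w → ℝ => ω i) 2 (P0 w) :=
  (memLp_id_gaussianReal' (μ := 0) (v := 1) 2 (by simp)).comp_measurePreserving (mp_ev i)

def xi (i : w) : Lp ℝ 2 (P0 w) := (memLp_ev i).toLp _

theorem xi_ae (i : w) : xi i =ᵐ[P0 w] fun ω => ω i := MemLp.coeFn_toLp _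

theorem int_ev (i : w) : ∫ ω, ω i ∂(P0 w) = 0 := by
  have h := integral_map (μ := P0 w) (φ := fun ω : w → ℝ => ω i) (f := fun x : ℝ => x)
    (measurable_pi_apply i).aemeasurable measurable_id.aestronglyMeasurable
  rw [map_ev, integral_id_gaussianReal] at h
  exact h.symm

theorem int_sq (i : w) : ∫ ω, ω i * ω i ∂(P0 w) = 1 := by
  have h := integral_map (μ := P0 w) (φ := fun ω : w → ℝ => ω i) (f := fun x : ℝ => x * x)
    (measurable_pi_apply i).aemeasurable (measurable_id.mul measurable_id).aestronglyMeasurable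
  rw [map_ev] at h
  rw [← h]
  have hv := variance_fun_id_gaussianReal (μ := 0) (v := 1)
  rw [variance_eq_integral measurable_id'.aemeasurable, integral_id_gaussianReal] at hv
  simp only [sub_zero, NNReal.coe_one] at hv
  simpa only [pow_two] using hv

theorem indep (c : w → ℝ) : iIndepFun (fun i (ω : w → ℝ) => c i * ω i) (P0 w) :=
  iIndepFun_infinitePi (P := fun _ : w => gaussianReal 0 1) (X := fun i x => c i * x)
    (fun _ => measurable_id.const_mul _)

theorem inner_xi (i j : w) : ⟪xi i, xi j⟫ = ∫ ω, ω i * ω j ∂(P0 w) := by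
  rw [L2.inner_def]
  refine integral_congr_ae ?_
  filter_upwards [xi_ae i, xi_ae j] with ω h1 h2
  rw [h1, h2]
  simp [mul_comm]

theorem ortho : Orthonormal ℝ (xi : w → Lp ℝ 2 (P0 w)) := by
  classical
  rw [orthonormal_iff_ite]
  intro i j
  rw [inner_xi]
  split_ifs with h
  · subst h; exact int_sq i
  · have hi := (indep (w := w) fun _ => 1).indepFun h
    simp only [one_mul] at hi
    rw [hi.integral_fun_mul_eq_mul_integral (measurable_pi_apply i).aestronglyMeasurable
      (measurable_pi_apply j).aestronglyMeasurable, int_ev, zero_mul]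

/-- characteristic functional -/
def Phi (t : ℝ) (f : Lp ℝ 2 (P0 w)) : ℂ := ∫ ω, Complex.exp (t * f ω * Complex.I) ∂(P0 w)

theorem charFun_eq (t : ℝ) (f : Lp ℝ 2 (P0 w)) : charFun ((P0 w).map f) t = Phi t f := by
  rw [charFun_apply_real, integral_map (Lp.stronglyMeasurable f).measurable.aemeasurable]
  · rfl
  · fun_prop

theorem exp_lip (a b : ℝ) :
    ‖Complex.exp (a * Complex.I) - Complex.exp (b * Complex.I)‖ ≤ ‖a - b‖ := by
  have h : Complex.exp (a * Complex.I) - Complex.exp (b * Complex.I)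
      = Complex.exp (b * Complex.I) * (Complex.exp (Complex.I * ((a - b : ℝ) : ℂ)) - 1) := by
    rw [mul_sub, ← Complex.exp_add, mul_one]
    congr 2
    push_cast; ring
  rw [h, norm_mul, Complex.norm_exp_ofReal_mul_I, one_mul]
  exact Real.norm_exp_I_mul_ofReal_sub_one_le

theorem int_norm_le (h : Lp ℝ 2 (P0 w)) : ∫ ω, ‖h ω‖ ∂(P0 w) ≤ ‖h‖ := by
  rw [integral_norm_eq_lintegral_enorm (Lp.aestronglyMeasurable h), Lp.norm_def,
    ← eLpNorm_one_eq_lintegral_enorm]
  exact ENNReal.toReal_mono (Lp.eLpNorm_ne_top h)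
    (eLpNorm_le_eLpNorm_of_exponent_le (by norm_num) (Lp.aestronglyMeasurable h))

theorem integrable_exp (t : ℝ) (f : Lp ℝ 2 (P0 w)) :
    Integrable (fun ω => Complex.exp (t * f ω * Complex.I)) (P0 w) := by
  have hm := (Lp.stronglyMeasurable f).measurable
  refine Integrable.of_bound (C := 1) (Measurable.aestronglyMeasurable (by fun_prop)) ?_
  refine ae_of_all _ fun ω => ?_
  have : (t : ℂ) * f ω * Complex.I = ((t * f ω : ℝ) : ℂ) * Complex.I := by push_cast; ring
  rw [this, Complex.norm_exp_ofReal_mul_I]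

theorem Phi_lip (t : ℝ) (f g : Lp ℝ 2 (P0 w)) : ‖Phi t f - Phi t g‖ ≤ ‖t‖ * ‖f - g‖ := by
  unfold Phi
  rw [← integral_sub (integrable_exp t f) (integrable_exp t g)]
  have hi : Integrable (fun ω => ‖(f - g) ω‖) (P0 w) :=
    ((Lp.memLp (f - g)).integrable (by norm_num)).norm
  calc _ ≤ ∫ ω, ‖t‖ * ‖(f - g) ω‖ ∂(P0 w) := by
        refine norm_integral_le_of_norm_le (hi.const_mul _) ?_
        filter_upwards [Lp.coeFn_sub f g] with ω hω
        have e1 : (t : ℂ) * f ω * Complex.I = ((t * f ω : ℝ) : ℂ) * Complex.I := by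
          push_cast; ring
        have e2 : (t : ℂ) * g ω * Complex.I = ((t * g ω : ℝ) : ℂ) * Complex.I := by
          push_cast; ring
        rw [e1, e2, hω, Pi.sub_apply, ← norm_mul, mul_sub]
        exact exp_lip _ _
    _ = ‖t‖ * ∫ ω, ‖(f - g) ω‖ ∂(P0 w) := integral_const_mul _ _
    _ ≤ _ := mul_le_mul_of_nonneg_left (int_norm_le _) (norm_nonneg _)

theorem Phi_cont (t : ℝ) : Continuous (Phi (w := w) t) := by
  refine (LipschitzWith.of_dist_le_mul (K := ‖t‖₊) fun f g => ?_).continuous
  rw [dist_eq_norm, dist_eq_norm]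
  exact Phi_lip t f g

theorem Phi_sum (t : ℝ) (c : w → ℝ) (s : Finset w) :
    Phi t (∑ i ∈ s, c i • xi i) =
      Complex.exp (-(((‖∑ i ∈ s, c i • xi i‖ ^ 2 : ℝ) : ℂ) * t ^ 2 / 2)) := by
  have hn : ‖∑ i ∈ s, c i • xi i‖ ^ 2 = ∑ i ∈ s, c i * c i := by
    rw [← real_inner_self_eq_norm_sq, ortho.inner_sum]
    simp
  have hae : (∑ i ∈ s, c i • xi i : Lp ℝ 2 (P0 w)) =ᵐ[P0 w] fun ω => ∑ i ∈ s, c i * ω i := by
    have h1 := Lp.coeFn_fun_finsetSum s fun i => c i • xi i
    have h2 : ∀ᵐ ω ∂(P0 w), ∀ i ∈ s, (c i • xi i : Lp ℝ 2 (P0 w)) ω = c i * ω i := by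
      rw [Finset.eventually_all]
      intro i _
      filter_upwards [Lp.coeFn_smul (c i) (xi i), xi_ae i] with ω h3 h4
      rw [h3, Pi.smul_apply, h4, smul_eq_mul]
    filter_upwards [h1, h2] with ω h3 h4
    rw [h3]
    exact Finset.sum_congr rfl h4
  rw [← charFun_eq, Measure.map_congr hae, hn,
    ((indep c).restrict s).charFun_map_fun_finsetSum_eq_prod
      (fun i _ => ((measurable_pi_apply i).const_mul _).aemeasurable)]
  have h3 : ∀ i, charFun ((P0 w).map fun ω => c i * ω i) t
      = Complex.exp (-(((c i * c i : ℝ) : ℂ) * t ^ 2 / 2)) := by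
    intro i
    have : (P0 w).map (fun ω => c i * ω i) = (gaussianReal 0 1).map (c i * ·) := by
      rw [← map_ev i]
      exact (Measure.map_map (measurable_id'.const_mul _) (measurable_pi_apply i)).symm
    rw [this, gaussianReal_map_const_mul, charFun_gaussianReal]
    congr 1
    simp only [mul_zero, Complex.ofReal_zero, zero_mul, zero_sub, mul_one, NNReal.coe_mk,
      pow_two]
  rw [Finset.prod_apply]
  simp_rw [h3]
  rw [← Complex.exp_sum]
  congr 1
  push_cast
  rw [Finset.sum_mul, Finset.sum_div, Finset.sum_neg_distrib]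

theorem exists_J {H : Type*} [NormedAddCommGroup H] [InnerProductSpace ℝ H] [CompleteSpace H] :
    ∃ (w : Set H) (J : H →ₗ[ℝ] Lp ℝ 2 (P0 w)),
      ∀ v, (P0 w).map (J v) = gaussianReal 0 (‖v‖₊ ^ 2) := by
  obtain ⟨w, b, -⟩ := exists_hilbertBasis ℝ H
  let J : H →ₗᵢ[ℝ] Lp ℝ 2 (P0 w) :=
    (ortho (w := w)).orthogonalFamily.linearIsometry.comp b.repr.toLinearIsometry
  refine ⟨w, J.toLinearMap, fun v => ?_⟩
  have hs : HasSum (fun i => b.repr v i • xi i) (J v) := by
    have := (ortho (w := w)).orthogonalFamily.hasSum_linearIsometry (b.repr v)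
    simp only [LinearIsometry.toSpanSingleton_apply] at this
    exact this
  have hm : Measurable (J v) := (Lp.stronglyMeasurable (J v)).measurable
  have : IsProbabilityMeasure ((P0 w).map (J v)) :=
    Measure.isProbabilityMeasure_map hm.aemeasurable
  change (P0 w).map (J v) = _
  refine Measure.ext_of_charFun (funext fun t => ?_)
  rw [charFun_eq, charFun_gaussianReal]
  have hc : IsClosed {f : Lp ℝ 2 (P0 w) |
      Phi t f = Complex.exp (-(((‖f‖ ^ 2 : ℝ) : ℂ) * t ^ 2 / 2))} :=
    isClosed_eq (Phi_cont t) (by fun_prop)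
  have h := hc.mem_of_tendsto hs (Eventually.of_forall fun s => Phi_sum t _ s)
  rw [Set.mem_ofPred_eq, J.norm_map] at h
  rw [h]
  congr 1
  simp

end G1

open G1 in
theorem blk_G1 : St_G1 := by
  obtain ⟨w, J, hJ⟩ := exists_J (H := HH)
  let e := Module.Basis.ofVectorSpace ℝ HH
  let F : (w → ℝ) → Om := fun ω => e.constr ℝ fun j => J (e j) ω
  have hF : ∀ v, Measurable fun ω => F ω v := by
    intro v
    simp only [F, Module.Basis.constr_apply, Finsupp.sum]
    exact Finset.measurable_sum _ fun j _ =>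
      (Lp.stronglyMeasurable (J (e j))).measurable.const_mul _
  have hFm : Measurable F := meas_Om.2 hF
  have hae : ∀ v, (fun ω => F ω v) =ᵐ[P0 w] J v := by
    intro v
    have hv : v ∈ Submodule.span ℝ (Set.range e) := by rw [e.span_eq]; trivial
    induction hv using Submodule.span_induction with
    | mem x hx =>
      obtain ⟨j, rfl⟩ := hx
      exact ae_of_all _ fun ω => by simp only [F, Module.Basis.constr_basis]
    | zero =>
      rw [map_zero]
      filter_upwards [Lp.coeFn_zero ℝ 2 (P0 w)] with ω h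
      rw [h, map_zero]; rfl
    | add x y _ _ hx hy =>
      rw [map_add J]
      filter_upwards [Lp.coeFn_add (J x) (J y), hx, hy] with ω h h1 h2
      rw [h, map_add, Pi.add_apply, h1, h2]
    | smul a x _ hx =>
      rw [map_smul J]
      filter_upwards [Lp.coeFn_smul a (J x), hx] with ω h h1
      rw [h, map_smul, Pi.smul_apply, h1]
  have hG : IsG ((P0 w).map F) := by
    refine ⟨Measure.isProbabilityMeasure_map hFm.aemeasurable, fun v => ?_⟩
    rw [Measure.map_map (meas_ev v) hFm, ← hJ v]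
    exact Measure.map_congr (hae v)
  exact Classical.epsilon_spec (p := IsG) ⟨_, hG⟩

end

end Pool.Agent.Lib.APPS
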