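import Pool.Agent.Lib.APPS.Blue1

/-! Block G1D: one dimensional Gaussian facts. -/

namespace Pool.Agent.Lib.APPS

open MeasureTheory ProbabilityTheory Filter Topology Set Metric
open scoped NNReal ENNReal

noncomputable section

namespace G1D

theorem meas_eE : Measurable eE := ENNReal.measurable_ofReal.comp Real.measurable_exp

theorem eE_add (s t : ℝ) : eE (s + t) = eE s * eE t := by
  rw [eE, eE, eE, Real.exp_add, ENNReal.ofReal_mul (Real.exp_pos s).le]

theorem eE_mono {s t : ℝ} (h : s ≤ t) : eE s ≤ eE t :=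
  ENNReal.ofReal_le_ofReal (Real.exp_le_exp.2 h)

theorem eE_zero : eE 0 = 1 := by simp [eE]

theorem meas_c (c : ℝ) (v : HH) : Measurable fun ω : Om => eE (c * ω v) :=
  meas_eE.comp ((meas_ev v).const_mul c)

theorem lint (h : St_G1) (v : HH) {f : ℝ → ℝ≥0∞} (hf : Measurable f) :
    ∫⁻ ω, f (ω v) ∂gm = ∫⁻ t, f t ∂gaussianReal 0 (‖v‖₊ ^ 2) := by
  rw [← h.2 v, lintegral_map hf (meas_ev v)]

theorem law (h : St_G1) (v : HH) {s : Set ℝ} (hs : MeasurableSet s) :
    gm {ω | ω v ∈ s} = gaussianReal 0 (‖v‖₊ ^ 2) s := by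
  rw [← h.2 v, Measure.map_apply (meas_ev v) hs]; rfl

theorem mgf' (h : St_G1) (v : HH) (c : ℝ) :
    ∫⁻ ω, eE (c * ω v) ∂gm = eE (c ^ 2 * ‖v‖ ^ 2 / 2) := by
  rw [lint h v (f := fun t => eE (c * t)) (meas_eE.comp (measurable_const_mul c))]
  have h1 := congrFun (mgf_id_gaussianReal (μ := 0) (v := ‖v‖₊ ^ 2)) c
  simp only [mgf, id] at h1
  simp only [eE]
  rw [← ofReal_integral_eq_lintegral_ofReal (integrable_exp_mul_gaussianReal c)
    (Eventually.of_forall fun x => (Real.exp_pos _).le), h1]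
  congr 2
  push_cast
  ring

theorem chernoff (h : St_G1) (v : HH) (t : ℝ) (ht : 0 ≤ t) :
    gm {ω | t ≤ ω v} ≤ eE (-t ^ 2 / (2 * ‖v‖ ^ 2)) := by
  set c := t / ‖v‖ ^ 2 with hc
  have hc0 : 0 ≤ c := by positivity
  have hm : MeasurableSet {ω : Om | t ≤ ω v} := measurableSet_le measurable_const (meas_ev v)
  calc gm {ω | t ≤ ω v} = ∫⁻ ω, {ω : Om | t ≤ ω v}.indicator 1 ω ∂gm :=
        (lintegral_indicator_one hm).symm
    _ ≤ ∫⁻ ω, eE (c * ω v) * eE (-(c * t)) ∂gm := by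
        refine lintegral_mono fun ω => ?_
        by_cases hω : ω ∈ {ω : Om | t ≤ ω v}
        · rw [indicator_of_mem hω, ← eE_add, Pi.one_apply, ← eE_zero]
          exact eE_mono (by nlinarith [mul_le_mul_of_nonneg_left (show t ≤ ω v from hω) hc0])
        · rw [indicator_of_notMem hω]; exact zero_le
    _ = eE (c ^ 2 * ‖v‖ ^ 2 / 2) * eE (-(c * t)) := by
        rw [lintegral_mul_const _ (meas_c c v), mgf' h]
    _ = _ := by
        rw [← eE_add, hc]
        congr 1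
        by_cases h0 : ‖v‖ = 0
        · simp [h0]
        · field_simp
          ring

theorem dens (h : St_G1) (v : HH) (f : ℝ → ℝ≥0∞) (hv : v ≠ 0) (hf : Measurable f) :
    ∫⁻ ω, f (ω v) ∂gm = ∫⁻ t, ENNReal.ofReal (pd (‖v‖ ^ 2) t) * f t := by
  rw [lint h v hf, gaussianReal_of_var_ne_zero _ (pow_ne_zero 2 (nnnorm_ne_zero_iff.2 hv)),
    lintegral_withDensity_eq_lintegral_mul _ (measurable_gaussianPDF _ _) hf]
  refine lintegral_congr fun t => ?_
  simp [gaussianPDF, gaussianPDFReal, pd]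

theorem pd_le {s : ℝ} (hs : 0 < s) (t : ℝ) : pd (s ^ 2) t ≤ 1 / s := by
  have h1 : Real.exp (-t ^ 2 / (2 * s ^ 2)) ≤ 1 :=
    Real.exp_le_one_iff.2 (div_nonpos_of_nonpos_of_nonneg (by nlinarith) (by positivity))
  have h2 : s ≤ Real.sqrt (2 * Real.pi * s ^ 2) :=
    Real.le_sqrt_of_sq_le (by nlinarith [Real.pi_gt_three, sq_nonneg s])
  calc pd (s ^ 2) t ≤ (Real.sqrt (2 * Real.pi * s ^ 2))⁻¹ * 1 :=
        mul_le_mul_of_nonneg_left h1 (by positivity)
    _ ≤ 1 / s := by rw [mul_one, one_div]; exact inv_anti₀ hs h2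

theorem small (h : St_G1) (v : HH) (a b : ℝ) (hv : v ≠ 0) :
    gm {ω | ω v ∈ Icc a b} ≤ ENNReal.ofReal ((b - a) / ‖v‖) := by
  have h0 : 0 < ‖v‖ := norm_pos_iff.2 hv
  have hm : MeasurableSet {ω : Om | ω v ∈ Icc a b} := meas_ev v measurableSet_Icc
  calc gm {ω | ω v ∈ Icc a b} = ∫⁻ ω, (Icc a b).indicator 1 (ω v) ∂gm :=
        (lintegral_indicator_one hm).symm
    _ = ∫⁻ t, ENNReal.ofReal (pd (‖v‖ ^ 2) t) * (Icc a b).indicator 1 t :=
        dens h v _ hv (measurable_one.indicator measurableSet_Icc)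
    _ ≤ ∫⁻ t, ENNReal.ofReal (1 / ‖v‖) * (Icc a b).indicator 1 t :=
        lintegral_mono fun t => mul_le_mul_left (ENNReal.ofReal_le_ofReal (pd_le h0 t)) _
    _ = _ := by
        rw [lintegral_const_mul _ (measurable_one.indicator measurableSet_Icc),
          lintegral_indicator_one measurableSet_Icc, Real.volume_Icc,
          ← ENNReal.ofReal_mul (by positivity)]
        congr 1
        ring

theorem scale (h : St_G1) (v : HH) {s : Set ℝ} (hs : MeasurableSet s) :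
    gm {ω | ω v ∈ s} = gaussianReal 0 1 {z | ‖v‖ * z ∈ s} := by
  have h1 := gaussianReal_map_const_mul (μ := 0) (v := 1) ‖v‖
  rw [mul_zero, mul_one] at h1
  rw [law h v hs, show ‖v‖₊ ^ 2 = NNReal.mk (‖v‖ ^ 2) (sq_nonneg _) from NNReal.eq rfl, ← h1,
    Measure.map_apply (measurable_const_mul _) hs]
  rfl

theorem half (s : ℝ≥0) : 1 ≤ 2 * gaussianReal 0 s (Ici 0) := by
  have h1 : gaussianReal 0 s (Iic 0) = gaussianReal 0 s (Ici 0) := by
    have := gaussianReal_map_neg (μ := 0) (v := s)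
    rw [neg_zero] at this
    conv_lhs => rw [← this, Measure.map_apply measurable_neg measurableSet_Iic]
    congr 1
    ext x
    simp
  calc (1 : ℝ≥0∞) = gaussianReal 0 s (Iic 0 ∪ Ici 0) := by rw [Iic_union_Ici, measure_univ]
    _ ≤ gaussianReal 0 s (Iic 0) + gaussianReal 0 s (Ici 0) := measure_union_le _ _
    _ = _ := by rw [h1, two_mul]

theorem comp (h : St_G1) (v w : HH) (t : ℝ) (hvw : ‖v‖ ≤ ‖w‖) :
    gm {ω | t < ω v} ≤ 2 * gm {ω | t < ω w} := by
  have := h.1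
  rcases lt_or_ge t 0 with ht | ht
  · refine prob_le_one.trans ((half (‖w‖₊ ^ 2)).trans (mul_le_mul_right ?_ _))
    rw [← law h w measurableSet_Ici]
    exact measure_mono fun ω hω => ht.trans_le hω
  · have h1 : gm {ω | t < ω v} ≤ gm {ω | t < ω w} := by
      refine (scale h v (s := Ioi t) measurableSet_Ioi).le.trans
        (le_trans (measure_mono fun z hz => ?_) (scale h w (s := Ioi t) measurableSet_Ioi).ge)
      have hz' : t < ‖v‖ * z := hz
      have hz0 : 0 ≤ z := by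
        by_contra hn
        nlinarith [norm_nonneg v, not_le.1 hn]
      exact hz'.trans_le (mul_le_mul_of_nonneg_right hvw hz0)
    exact h1.trans (by rw [two_mul]; exact le_self_add)

theorem wk (h : St_G1) (γ : ℝ) (v : HH) : ∫⁻ ω, ENNReal.ofReal (Wk γ v ω) ∂gm = 1 := by
  have e : ∀ ω : Om, ENNReal.ofReal (Wk γ v ω) = eE (γ * ω v) * eE (-(γ ^ 2 * ‖v‖ ^ 2 / 2)) :=
    fun ω => by rw [← eE_add]; rfl
  simp only [e]
  rw [lintegral_mul_const _ (meas_c γ v), mgf' h, ← eE_add,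
    add_neg_cancel, eE_zero]

theorem absm (h : St_G1) (v : HH) (lam : ℝ) :
    ∫⁻ ω, eE (lam * |ω v|) ∂gm ≤ 2 * eE (lam ^ 2 * ‖v‖ ^ 2 / 2) := by
  calc ∫⁻ ω, eE (lam * |ω v|) ∂gm ≤ ∫⁻ ω, eE (lam * ω v) + eE (-lam * ω v) ∂gm := by
        refine lintegral_mono fun ω => ?_
        rcases abs_choice (ω v) with e | e <;> rw [e]
        · exact le_self_add
        · rw [mul_neg, ← neg_mul]; exact le_add_self
    _ = _ := by
        rw [lintegral_add_left (meas_c lam v), mgf' h, mgf' h,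
          neg_sq, two_mul]

end G1D

theorem blk_G1D (h : St_G1) (_h2 : St_G2) : St_G1D :=
  ⟨fun v => by simpa using G1D.mgf' h v 1, G1D.chernoff h, G1D.small h, G1D.dens h, G1D.comp h,
    G1D.wk h, G1D.absm h⟩

end

end Pool.Agent.Lib.APPS
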