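import Pool.Agent.Lib.APPS.Blue1

/-! Uniqueness, Cameron-Martin shift and resampling for the Gaussian space. -/

namespace Pool.Agent.Lib.APPS

open MeasureTheory ProbabilityTheory Filter Topology Set Metric
open scoped NNReal ENNReal RealInnerProductSpace Classical

noncomputable section

namespace G2

theorem meas_phi : Measurable fun (ω : Om) (v : HH) => ω v :=
  comap_measurable fun (ω : Om) (v : HH) => ω v

theorem ext (P P' : Measure Om) [IsFiniteMeasure P] [IsFiniteMeasure P']
    (h : ∀ v : HH, P.map (fun ω : Om => ω v) = P'.map (fun ω : Om => ω v)) : P = P' := by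
  have hfin : ∀ I : Finset HH, P.map (fun ω : Om => I.restrict fun v : HH => ω v) =
      P'.map (fun ω : Om => I.restrict fun v : HH => ω v) := by
    intro I
    have hm : Measurable fun ω : Om => I.restrict fun v : HH => ω v :=
      (Finset.measurable_restrict I).comp meas_phi
    refine Measure.ext_of_charFunDual ?_
    ext L
    have hL : ∀ ω : Om, L (I.restrict fun v : HH => ω v) =
        ω (∑ i : I, L (Pi.single i 1) • (i : HH)) := by
      intro ω
      rw [map_sum]
      have : (I.restrict fun v : HH => ω v) = ∑ i : I, ω (i : HH) • (Pi.single i 1 : I → ℝ) := by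
        ext j
        simp [Finset.sum_apply, Pi.single_apply]
      rw [this, map_sum]
      refine Finset.sum_congr rfl fun i _ => ?_
      rw [map_smul, map_smul, smul_eq_mul, smul_eq_mul, mul_comm]
    have hc : Continuous fun x : I → ℝ => Complex.exp (L x * Complex.I) := by fun_prop
    have hc' : Continuous fun x : ℝ => Complex.exp (x * Complex.I) := by fun_prop
    rw [charFunDual_apply, charFunDual_apply, integral_map hm.aemeasurable hc.aestronglyMeasurable,
      integral_map hm.aemeasurable hc.aestronglyMeasurable]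
    simp only [hL]
    set u : HH := ∑ i : I, L (Pi.single i 1) • (i : HH)
    rw [← integral_map (meas_ev u).aemeasurable hc'.aestronglyMeasurable,
      ← integral_map (meas_ev u).aemeasurable hc'.aestronglyMeasurable, h]
  have h1 := isProjectiveLimit_map (X := fun (v : HH) (ω : Om) => ω v) (P := P)
    meas_phi.aemeasurable
  have h2 := isProjectiveLimit_map (X := fun (v : HH) (ω : Om) => ω v) (P := P')
    meas_phi.aemeasurable
  simp only [← hfin] at h2
  have h3 := h1.unique h2
  ext s hs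
  obtain ⟨t, ht, rfl⟩ := hs
  rw [← Measure.map_apply meas_phi ht, ← Measure.map_apply meas_phi ht, h3]

theorem law_of_mgf {α : Type*} [MeasurableSpace α] (μ : Measure α) [IsFiniteMeasure μ]
    {Y : α → ℝ} (hY : Measurable Y) (m : ℝ) (s : ℝ≥0)
    (h : ∀ t, mgf Y μ t = Real.exp (m * t + s * t ^ 2 / 2)) : μ.map Y = gaussianReal m s := by
  have h1 : mgf id (gaussianReal m s) = mgf Y μ := by
    rw [mgf_id_gaussianReal]; ext t; rw [h]
  have h2 := eqOn_complexMGF_of_mgf h1
  rw [integrableExpSet_id_gaussianReal, interior_univ] at h2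
  have h3 : complexMGF id (gaussianReal m s) = complexMGF Y μ := funext fun z => h2 (mem_univ _)
  have := Measure.ext_of_complexMGF_eq aemeasurable_id hY.aemeasurable h3
  rw [← this, Measure.map_id]

theorem int_exp (h1 : St_G1) (u : HH) : ∫ ω, Real.exp (ω u) ∂gm = Real.exp (‖u‖ ^ 2 / 2) := by
  have := mgf_gaussianReal (h1.2 u) 1
  simpa [mgf] using this

theorem integrable_exp (h1 : St_G1) (u : HH) : Integrable (fun ω : Om => Real.exp (ω u)) gm := by
  by_contra hc
  have := int_exp h1 u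
  rw [integral_undef hc] at this
  exact (Real.exp_pos _).ne this

theorem meas_add (h : HH) : Measurable fun ω : Om => ω + dv h := by
  simpa using meas_shift (f := fun ω : Om => ω) (s := fun _ => (1 : ℝ)) h measurable_id
    measurable_const

theorem meas_rho (h : HH) : Measurable fun ω : Om => eE (ω h - ‖h‖ ^ 2 / 2) :=
  ENNReal.measurable_ofReal.comp (Real.measurable_exp.comp ((meas_ev h).sub_const _))

theorem cm_law (h1 : St_G1) (h : HH) :
    gm.map (fun ω : Om => ω + dv h) = gm.withDensity fun ω => eE (ω h - ‖h‖ ^ 2 / 2) := by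
  have := h1.1
  have hint : Integrable (fun ω : Om => Real.exp (ω h - ‖h‖ ^ 2 / 2)) gm := by
    simp only [Real.exp_sub]
    exact (integrable_exp h1 h).div_const _
  have : IsFiniteMeasure (gm.withDensity fun ω => eE (ω h - ‖h‖ ^ 2 / 2)) :=
    isFiniteMeasure_withDensity_ofReal hint.2
  refine ext _ _ fun v => ?_
  rw [law_of_mgf _ (meas_ev v) ⟪h, v⟫ (‖v‖₊ ^ 2), law_of_mgf _ (meas_ev v) ⟪h, v⟫ (‖v‖₊ ^ 2)]
  · intro t
    rw [mgf, integral_withDensity_eq_integral_toReal_smul (meas_rho h)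
      (ae_of_all _ fun _ => ENNReal.ofReal_lt_top)]
    have : ∀ ω : Om, (eE (ω h - ‖h‖ ^ 2 / 2)).toReal • Real.exp (t * ω v) =
        Real.exp (ω (h + t • v)) * Real.exp (-(‖h‖ ^ 2 / 2)) := by
      intro ω
      rw [eE, ENNReal.toReal_ofReal (Real.exp_pos _).le, smul_eq_mul, ← Real.exp_add,
        ← Real.exp_add, map_add, map_smul, smul_eq_mul]
      congr 1; ring
    simp only [this]
    rw [integral_mul_const, int_exp h1, ← Real.exp_add, norm_add_sq_real, norm_smul,
      real_inner_smul_right, mul_pow, Real.norm_eq_abs, sq_abs]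
    congr 1
    push_cast
    ring
  · intro t
    have hm : Measurable fun ω : Om => Real.exp (t * ω v) :=
      Real.measurable_exp.comp ((meas_ev v).const_mul t)
    rw [mgf, integral_map (meas_add h).aemeasurable hm.aestronglyMeasurable]
    have : ∀ ω : Om, Real.exp (t * (ω + dv h) v) =
        Real.exp (ω (t • v)) * Real.exp (t * ⟪h, v⟫) := by
      intro ω
      rw [← Real.exp_add, LinearMap.add_apply, dv_apply, map_smul, smul_eq_mul, mul_add]
    simp only [this]
    rw [integral_mul_const, int_exp h1, ← Real.exp_add, norm_smul, mul_pow, Real.norm_eq_abs,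
      sq_abs]
    congr 1
    push_cast
    ring

theorem cm (h1 : St_G1) (h : HH) (f : Om → ℝ≥0∞) (hf : Measurable f) :
    ∫⁻ ω, f (ω + dv h) ∂gm = ∫⁻ ω, f ω * eE (ω h - ‖h‖ ^ 2 / 2) ∂gm := by
  rw [← lintegral_map hf (meas_add h), cm_law h1,
    lintegral_withDensity_eq_lintegral_mul _ (meas_rho h) hf]
  simp only [Pi.mul_apply, mul_comm]

variable {ι : Type} [Fintype ι]

/-- Resampling of finitely many coordinates. -/
def rs (a : ι → HH) (p : Om × (ι → ℝ)) : Om := p.1 + ∑ i, (p.2 i - p.1 (a i)) • dv (a i)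

theorem rs_apply (a : ι → HH) (p : Om × (ι → ℝ)) (v : HH) :
    rs a p v = p.1 (v - ∑ i, ⟪a i, v⟫ • a i) + ∑ i, ⟪a i, v⟫ * p.2 i := by
  simp only [rs, LinearMap.add_apply, LinearMap.sum_apply, LinearMap.smul_apply, dv_apply,
    smul_eq_mul, map_sub, map_sum, map_smul, sub_mul, Finset.sum_sub_distrib]
  simp only [mul_comm]
  ring

theorem meas_rs (a : ι → HH) : Measurable (rs a) := by
  rw [meas_Om]
  intro v
  simp only [rs_apply]
  refine ((meas_ev _).comp measurable_fst).add (Finset.measurable_sum _ fun i _ => ?_)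
  exact ((measurable_pi_apply i).comp measurable_snd).const_mul _

theorem norm_sub_proj {a : ι → HH} (ha : Orthonormal ℝ a) (v : HH) :
    ‖v - ∑ i, ⟪a i, v⟫ • a i‖ ^ 2 = ‖v‖ ^ 2 - ∑ i, ⟪a i, v⟫ ^ 2 := by
  have h1 : ⟪v, ∑ i, ⟪a i, v⟫ • a i⟫ = ∑ i, ⟪a i, v⟫ ^ 2 := by
    rw [inner_sum]
    refine Finset.sum_congr rfl fun i _ => ?_
    rw [real_inner_smul_right, real_inner_comm (a i) v, pow_two]
  have h2 : ‖∑ i, ⟪a i, v⟫ • a i‖ ^ 2 = ∑ i, ⟪a i, v⟫ ^ 2 := by
    rw [← real_inner_self_eq_norm_sq, ha.inner_sum]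
    simp [pow_two]
  rw [norm_sub_sq_real, h1, h2]
  ring

theorem rs_law (h1 : St_G1) {a : ι → HH} (ha : Orthonormal ℝ a) :
    (gm.prod (Measure.pi fun _ : ι => gaussianReal 0 1)).map (rs a) = gm := by
  have := h1.1
  refine ext _ _ fun v => ?_
  rw [h1.2 v]
  refine law_of_mgf _ (meas_ev v) 0 _ fun t => ?_
  have hm : Measurable fun ω : Om => Real.exp (t * ω v) :=
    Real.measurable_exp.comp ((meas_ev v).const_mul t)
  rw [mgf, integral_map (meas_rs a).aemeasurable hm.aestronglyMeasurable]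
  have e1 : ∀ p : Om × (ι → ℝ), Real.exp (t * rs a p v) =
      Real.exp (p.1 (t • (v - ∑ i, ⟪a i, v⟫ • a i))) *
        ∏ i, Real.exp (t * ⟪a i, v⟫ * p.2 i) := by
    intro p
    rw [rs_apply, ← Real.exp_sum, ← Real.exp_add, map_smul, smul_eq_mul, mul_add, Finset.mul_sum]
    simp only [mul_assoc]
  simp only [e1]
  rw [integral_prod_mul (fun ω : Om => Real.exp (ω (t • (v - ∑ i, ⟪a i, v⟫ • a i))))
    (fun ξ : ι → ℝ => ∏ i, Real.exp (t * ⟪a i, v⟫ * ξ i)),
    integral_fintype_prod_eq_prod (fun i (x : ℝ) => Real.exp (t * ⟪a i, v⟫ * x)), int_exp h1]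
  have e2 : ∀ i, ∫ x, Real.exp (t * ⟪a i, v⟫ * x) ∂gaussianReal 0 1 =
      Real.exp ((t * ⟪a i, v⟫) ^ 2 / 2) := by
    intro i
    have := congrFun (mgf_id_gaussianReal (μ := 0) (v := 1)) (t * ⟪a i, v⟫)
    simpa [mgf] using this
  simp only [e2]
  rw [← Real.exp_sum, ← Real.exp_add, norm_smul, mul_pow, norm_sub_proj ha, Real.norm_eq_abs,
    sq_abs]
  congr 1
  simp only [mul_pow, ← Finset.sum_div, ← Finset.mul_sum]
  push_cast
  ring

theorem on (h1 : St_G1) {a : ι → HH} (ha : Orthonormal ℝ a) (f : Om → ℝ≥0∞)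
    (hf : Measurable f) : ∫⁻ ω, f ω ∂gm =
      ∫⁻ ω, ∫⁻ ξ, f (rs a (ω, ξ)) ∂(Measure.pi fun _ : ι => gaussianReal 0 1) ∂gm := by
  conv_lhs => rw [← rs_law h1 ha]
  rw [lintegral_map hf (meas_rs a)]
  exact lintegral_prod _ (hf.comp (meas_rs a)).aemeasurable

theorem dv_add (u v : HH) : dv (u + v) = dv u + dv v := map_add (innerₗ HH) u v

theorem dv_smul (c : ℝ) (u : HH) : dv (c • u) = c • dv u := map_smul (innerₗ HH) c u

omit [Fintype ι] in
theorem invD_span {w : ι → HH} {g : Om → ℝ≥0∞} (hg : ∀ i, InvD (w i) g) {u : HH}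
    (hu : u ∈ Submodule.span ℝ (range w)) : InvD u g := by
  induction hu using Submodule.span_induction with
  | mem x hx => obtain ⟨i, rfl⟩ := hx; exact hg i
  | zero =>
    intro s ω
    have : dv 0 = 0 := map_zero (innerₗ HH)
    rw [this, smul_zero, add_zero]
  | add x y _ _ hx hy =>
    intro s ω
    rw [dv_add, smul_add, ← add_assoc, hy, hx]
  | smul c x _ hx =>
    intro s ω
    rw [dv_smul, smul_smul, hx]

theorem invD_sum {κ : Type} (s : Finset κ) {a : κ → HH} {g : Om → ℝ≥0∞}
    (hg : ∀ j, InvD (a j) g) (c : κ → ℝ) (ω : Om) : g (ω + ∑ j ∈ s, c j • dv (a j)) = g ω := by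
  induction s using Finset.induction_on with
  | empty => simp
  | insert j s hj ih => rw [Finset.sum_insert hj, add_comm (c j • _), ← add_assoc, hg j, ih]

theorem mix (h1 : St_G1) (w : ι → HH) (f : (ι → ℝ) × Om → ℝ≥0∞) (hf : Measurable f)
    (hi : ∀ t i, InvD (w i) fun ω => f (t, ω)) :
    ∫⁻ ω, f (fun i => ω (w i), ω) ∂gm = ∫⁻ ω', ∫⁻ ω, f (fun i => ω' (w i), ω) ∂gm ∂gm := by
  have := h1.1
  set K : Submodule ℝ HH := Submodule.span ℝ (range w) with hK
  have : FiniteDimensional ℝ K := FiniteDimensional.span_of_finite ℝ (finite_range w)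
  set b := stdOrthonormalBasis ℝ K
  set a : Fin (Module.finrank ℝ K) → HH := fun j => (b j : HH) with ha
  have hon : Orthonormal ℝ a := b.orthonormal.comp_linearIsometry K.subtypeₗᵢ
  have hw : ∀ i, w i - ∑ j, ⟪a j, w i⟫ • a j = 0 := by
    intro i
    have hm : w i ∈ K := Submodule.subset_span ⟨i, rfl⟩
    have := congrArg (fun x : K => (x : HH)) (b.sum_repr' ⟨w i, hm⟩)
    simp only [Submodule.coe_sum, Submodule.coe_smul, Submodule.coe_inner] at this
    rw [sub_eq_zero]
    exact this.symm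
  set c : (Fin (Module.finrank ℝ K) → ℝ) → ι → ℝ := fun ξ i => ∑ j, ⟪a j, w i⟫ * ξ j with hc
  have hrs : ∀ p, (fun i => rs a p (w i)) = c p.2 := by
    intro p
    ext i
    rw [rs_apply, hw, map_zero, zero_add]
  have hcm : Measurable c := measurable_pi_lambda _ fun i =>
    Finset.measurable_sum _ fun j _ => (measurable_pi_apply j).const_mul _
  have hev : Measurable fun (ω : Om) i => ω (w i) := measurable_pi_lambda _ fun i => meas_ev _
  have hinv : ∀ t p, f (t, rs a p) = f (t, p.1) := fun t p =>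
    invD_sum (g := fun ω => f (t, ω)) Finset.univ
      (fun j => invD_span (hi t) (b j).2) _ p.1
  have hg : Measurable fun ω' : Om => ∫⁻ ω, f (fun i => ω' (w i), ω) ∂gm :=
    (hf.comp ((hev.comp measurable_fst).prodMk measurable_snd)).lintegral_prod_right'
  have hF : Measurable fun ω : Om => f (fun i => ω (w i), ω) :=
    hf.comp (hev.prodMk measurable_id)
  rw [on h1 hon _ hF, on h1 hon _ hg]
  simp only [hrs, hinv]
  rw [lintegral_const, measure_univ, mul_one]
  exact lintegral_lintegral_swap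
    (hf.comp ((hcm.comp measurable_snd).prodMk measurable_fst)).aemeasurable

end G2

theorem blk_G2 (h1 : St_G1) : St_G2 :=
  ⟨fun P P' _ _ h => G2.ext P P' h, G2.cm h1, fun _ _ _ ha f hf => G2.on h1 ha f hf,
    fun _ _ w f hf hi => G2.mix h1 w f hf hi⟩

end

end Pool.Agent.Lib.APPS
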