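import Pool.Agent.Lib.APPS.Blue1

/-! Gaussian families on the standard Gaussian space. -/

namespace Pool.Agent.Lib.APPS

open MeasureTheory ProbabilityTheory Filter Topology Set
open scoped NNReal ENNReal RealInnerProductSpace

namespace G3

theorem form {I : Type} [Fintype I] (L : (I → ℝ) →L[ℝ] ℝ) :
    ∃ a : I → ℝ, ∀ x, L x = ∑ i, a i * x i := by
  classical
  refine ⟨fun i => L fun j => if i = j then 1 else 0, fun x => ?_⟩
  have := LinearMap.pi_apply_eq_sum_univ (L : (I → ℝ) →ₗ[ℝ] ℝ) x
  simp only [ContinuousLinearMap.coe_coe, smul_eq_mul] at this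
  rw [this]
  exact Finset.sum_congr rfl fun i _ => mul_comm _ _

/-- a finite measure on a product is determined by the laws of the finite linear forms -/
theorem ext {T : Type} (μ ν : Measure (T → ℝ)) [IsFiniteMeasure μ] [IsFiniteMeasure ν]
    (h : ∀ (I : Finset T) (a : I → ℝ), μ.map (fun y => ∑ i : I, a i * y i) =
      ν.map fun y => ∑ i : I, a i * y i) : μ = ν := by
  have h1 : IsProjectiveLimit μ (fun I : Finset T => μ.map I.restrict) := fun _ => rfl
  refine h1.unique fun I => ?_
  refine Measure.ext_of_charFunDual (funext fun L => ?_)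
  obtain ⟨a, ha⟩ := form L
  rw [charFunDual_eq_charFun_map_one, charFunDual_eq_charFun_map_one,
    Measure.map_map L.continuous.measurable (Finset.measurable_restrict I),
    Measure.map_map L.continuous.measurable (Finset.measurable_restrict I)]
  have : (L ∘ I.restrict : (T → ℝ) → ℝ) = fun y => ∑ i : I, a i * y i := by
    funext y; exact ha _
  rw [this, h I a]

theorem meas_vec {T : Type} (v : T → HH) : Measurable fun (ω : Om) t => ω (v t) :=
  measurable_pi_lambda _ fun t => meas_ev (v t)

theorem lin {I : Type} [Fintype I] (a : I → ℝ) (v : I → HH) (ω : Om) :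
    ∑ i, a i * ω (v i) = ω (∑ i, a i • v i) := by
  simp [map_sum]

theorem norm_sq_sum {I : Type} [Fintype I] (a : I → ℝ) (v : I → HH) :
    ‖∑ i, a i • v i‖ ^ 2 = ∑ i, ∑ j, a i * a j * ⟪v i, v j⟫ := by
  rw [← real_inner_self_eq_norm_sq, sum_inner]
  refine Finset.sum_congr rfl fun i _ => ?_
  rw [inner_sum]
  refine Finset.sum_congr rfl fun j _ => ?_
  rw [real_inner_smul_left, real_inner_smul_right, mul_assoc]

theorem cg_form {T Ω : Type} [MeasurableSpace Ω] {X : T → Ω → ℝ} {P : Measure Ω}
    {c : T → T → ℝ} (h : CG X P c) (I : Finset T) (a : I → ℝ) :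
    P.map (fun ω => ∑ i : I, a i * X i ω) =
      gaussianReal 0 (∑ i : I, ∑ j : I, a i * a j * c i j).toNNReal := by
  have := h.gauss.isProbabilityMeasure
  have hL : ∀ t, MemLp (X t) 2 P := fun t => (h.gauss.hasGaussianLaw_eval t).memLp_two
  have hg : HasGaussianLaw (fun ω => ∑ i : I, a i * X i ω) P := by
    have := ((h.gauss.comp_right (fun i : I => (i : T))).smul a).hasGaussianLaw_fun_sum
      (I := Finset.univ)
    simpa using this
  rw [hg.map_eq_gaussianReal]
  congr 1
  · rw [integral_finsetSum (f := fun (i : I) ω => a i * X i ω) _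
      fun i _ => ((hL i).integrable one_le_two).const_mul _]
    simp [integral_const_mul, h.mean]
  · congr 1
    rw [variance_fun_sum (X := fun (i : I) ω => a i * X i ω) fun i => (hL i).const_mul _]
    refine Finset.sum_congr rfl fun i _ => Finset.sum_congr rfl fun j _ => ?_
    rw [covariance_const_mul_left, covariance_const_mul_right, h.cov, mul_assoc]

theorem cg_ext {T Ω Ω' : Type} [MeasurableSpace Ω] [MeasurableSpace Ω'] {X : T → Ω → ℝ}
    {P : Measure Ω} {X' : T → Ω' → ℝ} {P' : Measure Ω'} {c : T → T → ℝ} (h : CG X P c)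
    (h' : CG X' P' c) : P.map (fun ω t => X t ω) = P'.map fun ω t => X' t ω := by
  have := h.gauss.isProbabilityMeasure
  have := h'.gauss.isProbabilityMeasure
  refine ext _ _ fun I a => ?_
  rw [Measure.map_map (by fun_prop) (measurable_pi_lambda _ h.meas),
    Measure.map_map (by fun_prop) (measurable_pi_lambda _ h'.meas)]
  exact (cg_form h I a).trans (cg_form h' I a).symm

variable (h1 : St_G1)
include h1

theorem law (v : HH) : gm.map (fun ω : Om => ω v) = gaussianReal 0 (‖v‖₊ ^ 2) := h1.2 v

theorem memLp (v : HH) : MemLp (fun ω : Om => ω v) 2 gm := by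
  have := memLp_id_gaussianReal' (μ := 0) (v := ‖v‖₊ ^ 2) 2 (by simp)
  rw [← law h1 v] at this
  exact (memLp_map_measure_iff (by fun_prop) (meas_ev v).aemeasurable).1 this

theorem mean (v : HH) : ∫ ω : Om, ω v ∂gm = 0 := by
  have := integral_id_gaussianReal (μ := 0) (v := ‖v‖₊ ^ 2)
  rwa [← law h1 v, integral_map (meas_ev v).aemeasurable (by fun_prop)] at this

theorem var (v : HH) : Var[fun ω : Om => ω v; gm] = ‖v‖ ^ 2 := by
  have := variance_id_gaussianReal (μ := 0) (v := ‖v‖₊ ^ 2)
  rw [← law h1 v, variance_map (by fun_prop) (meas_ev v).aemeasurable] at this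
  exact this.trans (by simp)

theorem cov (v w : HH) : cov[fun ω : Om => ω v, fun ω : Om => ω w; gm] = ⟪v, w⟫ := by
  have := h1.1
  have e := variance_fun_add (memLp h1 v) (memLp h1 w)
  have e' : (fun ω : Om => ω v + ω w) = fun ω : Om => ω (v + w) := by funext ω; simp
  rw [e', var h1, var h1, var h1, norm_add_sq_real] at e
  linarith

theorem gp {T : Type} (v : T → HH) : IsGaussianProcess (fun t (ω : Om) => ω (v t)) gm := by
  refine ⟨fun I => ?_⟩
  have hm : Measurable fun ω : Om => I.restrict fun t => ω (v t) :=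
    (Finset.measurable_restrict I).comp (meas_vec v)
  have : IsGaussian (gm.map fun ω : Om => I.restrict fun t => ω (v t)) := by
    refine isGaussian_of_map_eq_gaussianReal fun L => ?_
    obtain ⟨a, ha⟩ := form L
    refine ⟨0, ‖∑ i : I, a i • v i‖₊ ^ 2, ?_⟩
    rw [Measure.map_map L.continuous.measurable hm, ← law h1]
    congr 1
    funext ω
    rw [Function.comp_apply, ha, ← lin]
    rfl
  exact IsGaussian.hasGaussianLaw

theorem cg {T : Type} (v : T → HH) (c : T → T → ℝ) (h : Gram v c) :
    CG (fun t (ω : Om) => ω (v t)) gm c :=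
  ⟨gp h1 v, fun t => meas_ev (v t), fun t => mean h1 (v t), fun s t => (cov h1 _ _).trans (h s t)⟩

theorem conv {T : Type} (v v' : T → HH) (t : ℝ≥0) (h : ∀ s s', ⟪v' s, v' s'⟫ = ⟪v s, v s'⟫ + t) :
    gm.map (fun (ω : Om) s => ω (v' s)) =
      (gm.prod (gaussianReal 0 t)).map fun p s => p.1 (v s) + p.2 := by
  have := h1.1
  have hm : Measurable fun (p : Om × ℝ) s => p.1 (v s) + p.2 :=
    measurable_pi_lambda _ fun s => ((meas_ev (v s)).comp measurable_fst).add measurable_snd
  refine ext _ _ fun I a => ?_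
  rw [Measure.map_map (by fun_prop) (meas_vec v'), Measure.map_map (by fun_prop) hm]
  have e1 : ((fun y : T → ℝ => ∑ i : I, a i * y i) ∘ fun (ω : Om) s => ω (v' s)) =
      fun ω : Om => ω (∑ i : I, a i • v' i) := by
    funext ω; exact lin a (fun i : I => v' i) ω
  have e2 : ((fun y : T → ℝ => ∑ i : I, a i * y i) ∘ fun (p : Om × ℝ) s => p.1 (v s) + p.2) =
      (fun p : Om × ℝ => p.1 (∑ i : I, a i • v i)) + fun p : Om × ℝ => (∑ i, a i) * p.2 := by
    funext p
    simp only [Function.comp_apply, Pi.add_apply, mul_add, Finset.sum_add_distrib,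
      Finset.sum_mul]
    rw [lin a (fun i : I => v i)]
  have i1 : IndepFun (fun p : Om × ℝ => p.1 (∑ i : I, a i • v i))
      (fun p : Om × ℝ => (∑ i, a i) * p.2) (gm.prod (gaussianReal 0 t)) :=
    indepFun_prod (X := fun ω : Om => ω (∑ i : I, a i • v i)) (Y := fun x : ℝ => (∑ i, a i) * x)
      (meas_ev _) (by fun_prop)
  have l1 : (gm.prod (gaussianReal 0 t)).map (fun p : Om × ℝ => p.1 (∑ i : I, a i • v i)) =
      gaussianReal 0 (‖∑ i : I, a i • v i‖₊ ^ 2) := by
    rw [← law h1]
    have := Measure.map_map (μ := gm.prod (gaussianReal 0 t)) (meas_ev (∑ i : I, a i • v i))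
      (measurable_fst (α := Om) (β := ℝ))
    rw [Measure.map_fst_prod, measure_univ, one_smul] at this
    exact this.symm
  have l2 : (gm.prod (gaussianReal 0 t)).map (fun p : Om × ℝ => (∑ i, a i) * p.2) =
      gaussianReal ((∑ i, a i) * 0) (.mk ((∑ i, a i) ^ 2) (sq_nonneg _) * t) := by
    rw [← gaussianReal_map_const_mul]
    have := Measure.map_map (μ := gm.prod (gaussianReal 0 t))
      (show Measurable fun x : ℝ => (∑ i, a i) * x by fun_prop)
      (measurable_snd (α := Om) (β := ℝ))
    rw [Measure.map_snd_prod, measure_univ, one_smul] at this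
    exact this.symm
  rw [e1, e2, gaussianReal_add_gaussianReal_of_indepFun i1 l1 l2, law h1]
  congr 1
  · simp
  · apply NNReal.eq
    simp only [NNReal.coe_pow, coe_nnnorm, NNReal.coe_add, NNReal.coe_mul, NNReal.coe_mk]
    rw [norm_sq_sum, norm_sq_sum, pow_two (∑ i, a i), Finset.sum_mul_sum, Finset.sum_mul,
      ← Finset.sum_add_distrib]
    refine Finset.sum_congr rfl fun i _ => ?_
    rw [Finset.sum_mul, ← Finset.sum_add_distrib]
    refine Finset.sum_congr rfl fun j _ => ?_
    rw [h]; ring

end G3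

theorem blk_G3 (h1 : St_G1) (_h2 : St_G2) : St_G3 := by
  have := h1.1
  have i3 : ∀ (T : Type) (v v' : T → HH), (∀ s t, ⟪v s, v t⟫ = ⟪v' s, v' t⟫) →
      gm.map (fun (ω : Om) t => ω (v t)) = gm.map fun (ω : Om) t => ω (v' t) :=
    fun T v v' h => G3.cg_ext (G3.cg h1 v (fun s t => ⟪v' s, v' t⟫) h)
      (G3.cg h1 v' _ fun _ _ => rfl)
  refine ⟨fun T Ω _ X P c h v hv => G3.cg_ext h (G3.cg h1 v c hv), fun T v c h => G3.cg h1 v c h,
    i3, fun c v h => ?_, fun ι κ v w h => ?_, fun J κ v h => ?_, fun T v v' t h f hf => ?_⟩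
  · have h' : Gram (gvec c) c := Classical.epsilon_spec (p := fun v => Gram v c) ⟨v, h⟩
    exact i3 _ v (gvec c) fun s t => (h s t).trans (h' s t).symm
  · have hg : IsGaussianProcess (Sum.elim (fun i (ω : Om) => ω (v i)) fun k (ω : Om) => ω (w k))
        gm := by
      have := G3.gp h1 (Sum.elim v w)
      convert this using 1
      funext p
      cases p <;> rfl
    exact hg.indepFun_of_covariance_eq_zero (fun i => (meas_ev _).aemeasurable)
      (fun k => (meas_ev _).aemeasurable) fun i k => (G3.cov h1 _ _).trans (h i k)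
  · exact IsGaussianProcess.iIndepFun_of_covariance_eq_zero
      (X := fun j k (ω : Om) => ω (v j k)) (G3.gp h1 fun p : (j : J) × κ j => v p.1 p.2)
      (fun j k => (meas_ev _).aemeasurable)
      fun j j' hj k k' => (G3.cov h1 _ _).trans (h j j' hj k k')
  · have hm : Measurable fun (p : Om × ℝ) s => p.1 (v s) + p.2 :=
      measurable_pi_lambda _ fun s => ((meas_ev (v s)).comp measurable_fst).add measurable_snd
    rw [← lintegral_map hf (G3.meas_vec v'), G3.conv h1 v v' t h, lintegral_map hf hm]
    exact lintegral_prod _ (hf.comp hm).aemeasurable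

end Pool.Agent.Lib.APPS
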