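import Pool.Agent.Lib.APPS.B_G3Wa

/-!
Block G3W: window asymptotics.
-/

namespace Pool.Agent.Lib.APPS

open MeasureTheory ProbabilityTheory Filter Topology Set Metric
open scoped NNReal ENNReal CompactlySupported RealInnerProductSpace Classical

noncomputable section

def g3w_aI (Φ : Finset Dy → ℝ) (χ : ℝ → ℝ) (s n : ℝ) (x : Dy → ℝ) : ℝ :=
  χ (nN x / n) * Φ (tr x) * indR (ENNReal.ofReal (n / 2) ≤ nB (sh x (-s)))

def g3w_wI (Φ : Finset Dy → ℝ) (E : ℝ) (n : ℕ) (x : Dy → ℝ) : ℝ :=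
  indR ((n : ℝ≥0∞) < nB x ∧ nB x ≤ ENNReal.ofReal (E * n)) * Φ (tr x)

def g3w_U (Φ : Finset Dy → ℝ) : Prop := ∀ T, 0 ≤ Φ T ∧ Φ T ≤ 1

theorem g3w_An (M : Model) (γ : ℝ) (tf : ℕ → C_c(Cyl, ℝ)) (G : (ℕ → ℝ) → ℝ) (χ : ℝ → ℝ)
    (s n : ℝ) :
    M.An γ tf G χ s n = n ^ (th γ + 1) * ∫ ω, g3w_aI (PhiG tf G) χ s n (M.X γ 0 ω) ∂gm := rfl

theorem g3w_win (M : Model) (γ : ℝ) (Φ : Finset Dy → ℝ) (ε : ℝ) (n : ℕ) :
    M.win γ Φ ε n =
      ((n : ℝ) ^ (th γ + 1) * ∫ ω, g3w_wI Φ (Real.exp (γ * ε)) n (M.X γ 0 ω) ∂gm) / ε := by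
  unfold Model.win g3w_wI
  ring

theorem g3w_aI_bd {Φ : Finset Dy → ℝ} (hΦ : g3w_U Φ) {χ : ℝ → ℝ} (hχ : Chi χ) (s n : ℝ)
    (x : Dy → ℝ) : 0 ≤ g3w_aI Φ χ s n x ∧ g3w_aI Φ χ s n x ≤ 1 :=
  ⟨mul_nonneg (mul_nonneg (hχ.2.1 _).1 (hΦ _).1) (g3w_indR _).1,
    mul_le_one₀ (mul_le_one₀ (hχ.2.1 _).2 (hΦ _).1 (hΦ _).2) (g3w_indR _).1 (g3w_indR _).2⟩

theorem g3w_wI_bd {Φ : Finset Dy → ℝ} (hΦ : g3w_U Φ) (E : ℝ) (n : ℕ) (x : Dy → ℝ) :
    0 ≤ g3w_wI Φ E n x ∧ g3w_wI Φ E n x ≤ 1 :=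
  ⟨mul_nonneg (g3w_indR _).1 (hΦ _).1, mul_le_one₀ (g3w_indR _).2 (hΦ _).1 (hΦ _).2⟩

theorem g3w_integ (h1 : St_G1) {f : Om → ℝ} (hm : Measurable f) (hb : ∀ ω, 0 ≤ f ω ∧ f ω ≤ 1) :
    Integrable f gm := by
  have : IsProbabilityMeasure gm := h1.1
  refine Integrable.of_bound hm.aestronglyMeasurable 1 (ae_of_all _ fun ω => ?_)
  rw [Real.norm_of_nonneg (hb ω).1]
  exact (hb ω).2

theorem g3w_aI_int (h1 : St_G1) (h3 : St_T3) (M : Model) (γ : ℝ) {Φ : Finset Dy → ℝ}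
    (hΦ : g3w_U Φ) {χ : ℝ → ℝ} (hχ : Chi χ) (s n : ℝ) :
    Integrable (fun ω => g3w_aI Φ χ s n (M.X γ 0 ω)) gm := by
  refine g3w_integ h1 ?_ fun ω => g3w_aI_bd hΦ hχ s n _
  obtain ⟨K, hK⟩ := hχ.1
  have mN : Measurable fun ω => nN (M.X γ 0 ω) := h3.2.2.2.2.2.2.2.2.1.comp (g3w_mX h3 M γ)
  exact ((hK.continuous.measurable.comp (mN.div_const n)).mul (g3w_mP h3 M γ Φ)).mul
    (g3w_mI h3 _ (measurableSet_le measurable_const (g3w_mB h3 M γ _))).2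

theorem g3w_wI_int (h1 : St_G1) (h3 : St_T3) (M : Model) (γ : ℝ) {Φ : Finset Dy → ℝ}
    (hΦ : g3w_U Φ) (E : ℝ) (n : ℕ) : Integrable (fun ω => g3w_wI Φ E n (M.X γ 0 ω)) gm := by
  refine g3w_integ h1 ?_ fun ω => g3w_wI_bd hΦ E n _
  exact (g3w_mI h3 _ ((measurableSet_lt measurable_const (g3w_mB0 h3 M γ)).inter
    (measurableSet_le (g3w_mB0 h3 M γ) measurable_const))).2.mul (g3w_mP h3 M γ Φ)

theorem g3w_big {χ : ℝ → ℝ} (hχ : Chi χ) {n : ℝ} (hn : 0 < n) {x : Dy → ℝ}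
    (h : χ (nN x / n) ≠ 0) : 3 / 4 * n ≤ nN x := by
  obtain ⟨β, hβ⟩ := hχ.2.2
  have := (hβ _ h).1
  rwa [le_div_iff₀ hn] at this

theorem g3w_aI_zero (hT : St_T1) (Φ : Finset Dy → ℝ) {χ : ℝ → ℝ} (hχ : Chi χ) {n : ℝ}
    (hn : 0 < n) (x : Dy → ℝ) : g3w_aI Φ χ 0 n x = χ (nN x / n) * Φ (tr x) := by
  unfold g3w_aI
  by_cases h : χ (nN x / n) = 0
  · rw [h, zero_mul, zero_mul]
  · have h1 := g3w_big hχ hn h
    rw [g3w_indR_pos, mul_one]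
    rw [neg_zero, g3w_sh0, g3w_pos hT x (by linarith)]
    exact ENNReal.ofReal_le_ofReal (by linarith)

theorem g3w_wiff (hT : St_T1) {E : ℝ} (hE : 0 ≤ E) (n : ℕ) (x : Dy → ℝ) :
    ((n : ℝ≥0∞) < nB x ∧ nB x ≤ ENNReal.ofReal (E * n)) ↔ ((n : ℝ) < nN x ∧ nN x ≤ E * n) := by
  have hn : (0 : ℝ) ≤ n := Nat.cast_nonneg n
  have key : nB x = ENNReal.ofReal (nN x) →
      (((n : ℝ≥0∞) < nB x ∧ nB x ≤ ENNReal.ofReal (E * n)) ↔
        ((n : ℝ) < nN x ∧ nN x ≤ E * n)) := by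
    intro h
    rw [h, ← ENNReal.ofReal_natCast, ENNReal.ofReal_lt_ofReal_iff_of_nonneg hn,
      ENNReal.ofReal_le_ofReal_iff (by positivity)]
  constructor
  · intro h
    exact (key (g3w_fin hT x (ne_top_of_le_ne_top ENNReal.ofReal_ne_top h.2))).1 h
  · intro h
    exact (key (g3w_pos hT x (by linarith [h.1]))).2 h

theorem g3w_exp {γ ε : ℝ} (hγ : γ ∈ Ioo (0 : ℝ) 2) (hε : 0 < ε) (hε1 : ε ≤ 1) :
    1 + γ * ε ≤ Real.exp (γ * ε) ∧ Real.exp (γ * ε) ≤ 1 + 2 * Real.exp 2 * ε := by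
  have h0 : 0 < γ * ε := mul_pos hγ.1 hε
  have h1 : γ * ε ≤ 2 * ε := mul_le_mul_of_nonneg_right hγ.2.le hε.le
  refine ⟨by linarith [Real.add_one_le_exp (γ * ε)], ?_⟩
  have h2 : Real.exp (γ * ε) ≤ Real.exp 2 := Real.exp_le_exp.2 (by linarith)
  have h3 := Real.add_one_le_exp (-(γ * ε))
  have h4 : Real.exp (γ * ε) * Real.exp (-(γ * ε)) = 1 := by rw [← Real.exp_add]; simp
  have h5 := Real.exp_pos (γ * ε)
  have h6 : Real.exp (γ * ε) * (γ * ε) ≤ Real.exp 2 * (2 * ε) :=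
    mul_le_mul h2 h1 h0.le (Real.exp_pos _).le
  nlinarith

theorem g3w_half (hP : St_PHI) {tf : ℕ → C_c(Cyl, ℝ)} (htf : IsTF tf) {x : Dy → ℝ} {n : ℝ}
    (hn : 0 < n) (h : n ≤ nN x) : 1 - 1 / n ≤ PhiG tf one' (tr x) := by
  have h1 : (tr x).Nonempty := by
    rw [← Finset.card_pos]
    have : (0 : ℝ) < (tr x).card := hn.trans_le h
    exact_mod_cast this
  rw [(hP.2.2.2.2.2.2.2 tf htf).2.2.1 _ h1, one_div]
  have := inv_anti₀ hn h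
  unfold nN at this
  linarith

theorem g3w_UP (hP : St_PHI) {tf : ℕ → C_c(Cyl, ℝ)} (htf : IsTF tf) {Λ : ℝ}
    {G : (ℕ → ℝ) → ℝ} (hΛ : 0 ≤ Λ) (hG : LipG Λ G) : g3w_U (PhiG tf G) :=
  ((hP.2.2.2.2.2.2.2 tf htf).2.1 Λ G hΛ hG).1

theorem g3w_U1 : g3w_U oneT := fun _ => ⟨zero_le_one, le_rfl⟩

theorem g3w_L1 (hP : St_PHI) {Λ : ℝ} (hΛ : 0 ≤ Λ) : LipG Λ one' := by
  refine ⟨fun _ => ⟨zero_le_one, le_rfl⟩, fun s s' => ?_⟩
  have := mul_nonneg hΛ (hP.1 s s').1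
  simpa [one'] using this

/-- the macroscopic limit with an absolute error -/
theorem g3w_use (h1 : St_G1) (hMOD : St_MOD) (hT : St_T1) (hR : St_RUS) (hP : St_PHI)
    (hC : St_MTC) {γ : ℝ} (hγ : γ ∈ Ioo (0 : ℝ) 2) (D : QD γ) (M : Model) (hM : box [] ⊆ M.O)
    {tf : ℕ → C_c(Cyl, ℝ)} (htf : IsTF tf) (hL : 0 < D.Lz tf one') {Λ : ℝ} {G : (ℕ → ℝ) → ℝ}
    (hΛ : 0 ≤ Λ) (hG : LipG Λ G) {χ₁ χ₂ : ℝ → ℝ} (h₁ : Chi χ₁) (h₂ : Chi χ₂) (hw : 0 < wn γ χ₂)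
    {s : ℝ} (hs : s ∈ Icc (0 : ℝ) (1 / 20)) {κ : ℝ} (hκ : 0 < κ) :
    ∀ᶠ n : ℕ in atTop, ∃ a ≥ 0, |M.An γ tf G χ₁ s n - a * D.Lz tf G * wn γ χ₁| ≤ κ ∧
      |M.An γ tf one' χ₂ s n - a * D.Lz tf one' * wn γ χ₂| ≤ κ := by
  have : IsProbabilityMeasure gm := h1.1
  obtain ⟨K, hK0, hK⟩ := g3w_tail h1 hMOD hR hγ M hM
  set K' : ℝ := K * (Real.exp (γ * 0) / (3 / 4)) ^ (th γ + 1) with hK'
  have hK'0 : 0 ≤ K' := by positivity
  set w : ℝ := D.Lz tf one' * wn γ χ₂ with hwd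
  have hw0 : 0 < w := by positivity
  set A : ℝ := 2 * (K' + 1) / w with hA
  have hA0 : 0 ≤ A := by positivity
  set η : ℝ := min (min 1 (w / 2)) (κ / (1 + A)) with hη
  have hη0 : 0 < η := lt_min (lt_min one_pos (by positivity)) (by positivity)
  have hη1 : η ≤ 1 := (min_le_left _ _).trans (min_le_left _ _)
  have hη2 : η ≤ w / 2 := (min_le_left _ _).trans (min_le_right _ _)
  have hη3 : η * (1 + A) ≤ κ := by
    have : η ≤ κ / (1 + A) := min_le_right _ _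
    rwa [le_div_iff₀ (by positivity)] at this
  refine tendsto_natCast_atTop_atTop.eventually
    (p := fun n : ℝ => ∃ a ≥ 0, |M.An γ tf G χ₁ s n - a * D.Lz tf G * wn γ χ₁| ≤ κ ∧
      |M.An γ tf one' χ₂ s n - a * D.Lz tf one' * wn γ χ₂| ≤ κ) ?_
  filter_upwards [hC γ hγ D M hM tf htf Λ G one' χ₁ χ₂ hΛ hG (g3w_L1 hP hΛ) h₁ h₂ s hs η hη0,
    eventually_ge_atTop 2] with n hn hn2
  obtain ⟨a, ha, e1, e2⟩ := hn
  have hn0 : 0 < n := by linarith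
  have hU := g3w_UP hP htf hΛ (g3w_L1 hP hΛ)
  have hb : M.An γ tf one' χ₂ s n ≤ K' := by
    rw [g3w_An]
    refine le_trans (mul_le_mul_of_nonneg_left ((le_abs_self _).trans (g3w_abs gm _
      {ω | ENNReal.ofReal (3 / 4 * n) ≤ nB (sh (M.X γ 0 ω) 0)} 1 zero_le_one (fun ω => ?_)
      fun ω hω => ?_)) (by positivity)) ?_
    · rw [abs_of_nonneg (g3w_aI_bd hU h₂ s n _).1]
      exact (g3w_aI_bd hU h₂ s n _).2
    · have := g3w_big h₂ hn0 (left_ne_zero_of_mul (left_ne_zero_of_mul hω))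
      rw [mem_ofPred_eq, g3w_sh0, g3w_pos hT _ (by linarith)]
      exact ENNReal.ofReal_le_ofReal this
    · rw [one_mul]
      exact hK 0 (3 / 4) n (by norm_num) hn0 (by linarith)
  have haA : a ≤ A := by
    rw [hA, le_div_iff₀ hw0]
    have a1 := (abs_le.1 e2).1
    rw [mul_assoc, ← hwd] at a1
    nlinarith
  have : η * (1 + a) ≤ κ := (mul_le_mul_of_nonneg_left (by linarith) hη0.le).trans hη3
  exact ⟨a, ha, e1.trans this, e2.trans this⟩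

theorem g3w_inv (κ : ℝ) (hκ : 0 < κ) : ∀ᶠ n : ℕ in atTop, (2 : ℝ) ≤ n ∧ 1 / (n : ℝ) ≤ κ := by
  filter_upwards [tendsto_natCast_atTop_atTop.eventually (eventually_ge_atTop (2 : ℝ)),
    (tendsto_const_div_atTop_nhds_zero_nat (1 : ℝ)).eventually (ge_mem_nhds hκ)] with n h h'
  exact ⟨h, h'⟩

theorem g3w_one (h1 : St_G1) (h4 : St_G4) (hMOD : St_MOD) (hT : St_T1) (h3 : St_T3)
    (hR : St_RUS) (hMAC : St_MAC) (hP : St_PHI) (hC : St_MTC) {γ : ℝ} (hγ : γ ∈ Ioo (0 : ℝ) 2)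
    (hθ : 0 < th γ) (D : QD γ) (M : Model) (hM : box [] ⊆ M.O) {tf : ℕ → C_c(Cyl, ℝ)}
    (htf : IsTF tf) (hL : 0 < D.Lz tf one') (η : ℝ) (hη : 0 < η) :
    ∃ ε0 > 0, ∀ ε ∈ Ioc 0 ε0, ∀ᶠ ι : ℕ in atTop, ENNReal.ofReal ((ι : ℝ) ^ (th γ + 1)) *
      gm {ω | (ι : ℝ≥0∞) < nB (M.X γ 0 ω) ∧
        nB (M.X γ 0 ω) ≤ ENNReal.ofReal (Real.exp (γ * ε) * ι) ∧
        2 * nB (sh (M.X γ 0 ω) (-ε)) < ι} ≤ ENNReal.ofReal (η * ε) := by
  have : IsProbabilityMeasure gm := h1.1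
  have hU := g3w_UP hP htf le_rfl (g3w_L1 hP le_rfl)
  have c1 : Chi (g3w_tz (3 / 4) 3 (1 / 4)) := g3w_tz_chi (by norm_num) le_rfl
  set w1 : ℝ := wn γ (g3w_tz (3 / 4) 3 (1 / 4)) with hw1
  have hw : 0 < w1 := by
    refine lt_of_lt_of_le ?_ (g3w_wn_ge hθ c1 (p := 1) (q := 2) one_pos one_le_two
      fun t a b => g3w_tz_one (by norm_num) (by linarith) (by linarith))
    positivity
  set C1 : ℝ := (2 * Real.exp 2 + 2) * (3 / 4 : ℝ) ^ (-th γ - 2) with hC1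
  have hC0 : 0 < C1 := by positivity
  set η2 : ℝ := η * w1 / (8 * C1) with hη2
  have hη20 : 0 < η2 := by positivity
  obtain ⟨s0, hs0, hs1, hd⟩ := g3w_drop h1 h4 hMOD hT h3 hR hMAC hγ M hM η2 hη20
  refine ⟨s0, hs0, fun ε hε => ?_⟩
  have hε0 := hε.1
  have hε1 : ε ≤ 1 / 20 := hε.2.trans hs1
  have hE := g3w_exp hγ hε0 (by linarith)
  have hγε := mul_pos hγ.1 hε0
  set E : ℝ := Real.exp (γ * ε) with hEd
  have c2 : Chi (g3w_tz (1 - ε) (E + ε) ε) := g3w_tz_chi hε0 (by linarith)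
  have hwε : wn γ (g3w_tz (1 - ε) (E + ε) ε) ≤ C1 * ε := by
    refine (g3w_wn_le hθ c2 (p := 1 - ε) (q := E + ε) (by linarith) (by linarith [hE.1])
      fun t ht => ⟨(g3w_tz_ne hε0 ht).1.le, (g3w_tz_ne hε0 ht).2.le⟩).trans ?_
    rw [hC1, mul_right_comm]
    exact mul_le_mul_of_nonneg_right (by linarith [hE.2]) (by positivity)
  set κ : ℝ := min (η2 / 2) (η * ε / 8) with hκ
  have hκ0 : 0 < κ := lt_min (by positivity) (by positivity)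
  have hκ1 : κ ≤ η2 / 2 := min_le_left _ _
  have hκ2 : κ ≤ η * ε / 8 := min_le_right _ _
  filter_upwards [g3w_use h1 hMOD hT hR hP hC hγ D M hM htf hL le_rfl (g3w_L1 hP le_rfl) c2 c1 hw
      (s := 0) ⟨le_rfl, by norm_num⟩ hκ0,
    g3w_use h1 hMOD hT hR hP hC hγ D M hM htf hL le_rfl (g3w_L1 hP le_rfl) c2 c1 hw
      (s := s0) ⟨hs0.le, hs1⟩ hκ0,
    tendsto_natCast_atTop_atTop.eventually hd, g3w_inv (1 / 2) (by norm_num)] with n ha ha' hdn hn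
  obtain ⟨a, -, e1, e2⟩ := ha
  obtain ⟨a', -, e1', e2'⟩ := ha'
  have hn0 : (0 : ℝ) < n := by linarith [hn.1]
  rw [g3w_conv gm _ (by positivity) (by positivity)]
  have hD : ∀ {χ : ℝ → ℝ}, Chi χ → M.An γ tf one' χ 0 n - M.An γ tf one' χ s0 n =
      (n : ℝ) ^ (th γ + 1) * ∫ ω, (g3w_aI (PhiG tf one') χ 0 n (M.X γ 0 ω) -
        g3w_aI (PhiG tf one') χ s0 n (M.X γ 0 ω)) ∂gm := by
    intro χ hχ
    rw [integral_sub (g3w_aI_int h1 h3 M γ hU hχ _ _) (g3w_aI_int h1 h3 M γ hU hχ _ _), g3w_An,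
      g3w_An, mul_sub]
  have hform : ∀ {χ : ℝ → ℝ}, Chi χ → ∀ x, g3w_aI (PhiG tf one') χ 0 n x -
      g3w_aI (PhiG tf one') χ s0 n x = χ (nN x / n) * PhiG tf one' (tr x) *
        (1 - indR (ENNReal.ofReal (n / 2) ≤ nB (sh x (-s0)))) := by
    intro χ hχ x
    rw [g3w_aI_zero hT _ hχ hn0]
    unfold g3w_aI
    ring
  have hnn : ∀ {χ : ℝ → ℝ}, Chi χ → ∀ x, 0 ≤ g3w_aI (PhiG tf one') χ 0 n x -
      g3w_aI (PhiG tf one') χ s0 n x := by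
    intro χ hχ x
    rw [hform hχ]
    exact mul_nonneg (mul_nonneg (hχ.2.1 _).1 (hU _).1) (sub_nonneg.2 (g3w_indR _).2)
  have b1 : M.An γ tf one' (g3w_tz (3 / 4) 3 (1 / 4)) 0 n -
      M.An γ tf one' (g3w_tz (3 / 4) 3 (1 / 4)) s0 n ≤ η2 := by
    rw [hD c1]
    rw [← one_mul (gm.real _)] at hdn
    refine le_trans (mul_le_mul_of_nonneg_left ((le_abs_self _).trans (g3w_abs gm _ _ 1
      zero_le_one (fun ω => ?_) fun ω hω => ?_)) (by positivity)) hdn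
    · rw [abs_of_nonneg (hnn c1 _)]
      linarith [(g3w_aI_bd hU c1 0 n (M.X γ 0 ω)).2, (g3w_aI_bd hU c1 s0 n (M.X γ 0 ω)).1]
    · rw [hform c1] at hω
      refine ⟨g3w_big c1 hn0 (left_ne_zero_of_mul (left_ne_zero_of_mul hω)), ?_⟩
      by_contra hc
      rw [g3w_indR_pos (not_lt.1 hc), sub_self, mul_zero] at hω
      exact hω rfl
  have b2 : 1 / 2 * gm.real {ω | (n : ℝ≥0∞) < nB (M.X γ 0 ω) ∧
      nB (M.X γ 0 ω) ≤ ENNReal.ofReal (E * n) ∧ 2 * nB (sh (M.X γ 0 ω) (-ε)) < n} ≤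
      ∫ ω, (g3w_aI (PhiG tf one') (g3w_tz (1 - ε) (E + ε) ε) 0 n (M.X γ 0 ω) -
        g3w_aI (PhiG tf one') (g3w_tz (1 - ε) (E + ε) ε) s0 n (M.X γ 0 ω)) ∂gm := by
    refine g3w_low gm _ _ _ (by norm_num)
      ((g3w_aI_int h1 h3 M γ hU c2 _ _).sub (g3w_aI_int h1 h3 M γ hU c2 _ _))
      (fun ω => hnn c2 _) fun ω hω => ?_
    have a1 := (g3w_wiff hT (Real.exp_pos _).le n _).1 ⟨hω.1, hω.2.1⟩
    have a2 : ¬ENNReal.ofReal (n / 2) ≤ nB (sh (M.X γ 0 ω) (-s0)) := by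
      intro hc
      have a3 := hc.trans (g3w_mono hT _ (neg_le_neg hε.2))
      have a4 : (n : ℝ≥0∞) = 2 * ENNReal.ofReal (n / 2) := by
        rw [← ENNReal.ofReal_ofNat 2, ← ENNReal.ofReal_mul (by norm_num),
          ← ENNReal.ofReal_natCast]
        congr 1
        ring
      have a5 := hω.2.2
      rw [a4] at a5
      exact absurd (mul_le_mul_right a3 2) (not_le.2 a5)
    rw [hform c2, g3w_indR_neg a2, g3w_tz_one hε0
      (by rw [sub_add_cancel, le_div_iff₀ hn0]; linarith [a1.1])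
      (by rw [add_le_add_iff_right, div_le_iff₀ hn0]; exact a1.2)]
    linarith [g3w_half hP htf hn0 a1.1.le, hn.2]
  have b3 := mul_le_mul_of_nonneg_left b2 (by positivity : 0 ≤ (n : ℝ) ^ (th γ + 1))
  rw [← hD c2] at b3
  have hw0 := g3w_wn_nn (γ := γ) c2
  set wε := wn γ (g3w_tz (1 - ε) (E + ε) ε)
  set L := D.Lz tf one'
  have b4 : (a - a') * L * w1 ≤ 2 * η2 := by
    linarith [(abs_le.1 e2).1, (abs_le.1 e2').2]
  have b5 : (a - a') * L * wε ≤ η * ε / 4 := by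
    have q1 : (a - a') * L ≤ 2 * η2 / w1 := by rwa [le_div_iff₀ hw]
    calc (a - a') * L * wε ≤ 2 * η2 / w1 * (C1 * ε) :=
          (mul_le_mul_of_nonneg_right q1 hw0).trans (mul_le_mul_of_nonneg_left hwε (by positivity))
      _ = η * ε / 4 := by
          rw [hη2]
          field_simp
          norm_num
  linarith [(abs_le.1 e1).2, (abs_le.1 e1').1]

theorem g3w_two (h1 : St_G1) (hMOD : St_MOD) (hT : St_T1) (h3 : St_T3) (hR : St_RUS)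
    (hLOW : St_LOW) (hUL : St_UL) (hP : St_PHI) (hC : St_MTC) {γ : ℝ} (hγ : γ ∈ Ioo (0 : ℝ) 2)
    (hθ : 0 < th γ) (D : QD γ) (M : Model) (hM : box [] ⊆ M.O) {tf : ℕ → C_c(Cyl, ℝ)}
    (htf : IsTF tf) (hL : 0 < D.Lz tf one') :
    ∃ c > 0, ∃ K : ℝ, ∀ ε ∈ Ioc (0 : ℝ) 1, ∀ᶠ ι : ℕ in atTop,
      c ≤ M.win γ oneT ε ι ∧ M.win γ oneT ε ι ≤ K := by
  have : IsProbabilityMeasure gm := h1.1
  have hγ0 := hγ.1
  have hU := g3w_UP hP htf le_rfl (g3w_L1 hP le_rfl)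
  obtain ⟨K, hK0, hK⟩ := g3w_tail h1 hMOD hR hγ M hM
  obtain ⟨Kr, hKr0, hKr⟩ := g3w_ramp h1 hT h3 hUL hγ hθ M hM
  obtain ⟨c, hc, hlow⟩ := hLOW γ hγ M hM
  set β : ℝ := 2 + 2 * K / c with hβ
  have hβ2 : 2 ≤ β := by
    have : 0 ≤ 2 * K / c := by positivity
    linarith
  have hβK : K * (Real.exp (γ * 0) / β) ^ (th γ + 1) ≤ c / 2 := by
    rw [mul_zero, Real.exp_zero]
    have a1 : (1 / β) ^ (th γ + 1) ≤ (1 / β) ^ (1 : ℝ) :=
      Real.rpow_le_rpow_of_exponent_ge (by positivity)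
        (by rw [div_le_one (by linarith)]; linarith) (by linarith)
    rw [Real.rpow_one] at a1
    refine (mul_le_mul_of_nonneg_left a1 hK0).trans ?_
    rw [mul_one_div, div_le_iff₀ (by linarith), hβ]
    have : c / 2 * (2 + 2 * K / c) = c + K := by field_simp
    linarith
  have c1 : Chi (g3w_tz (3 / 4) (β + 1) (1 / 4)) := g3w_tz_chi (by norm_num) le_rfl
  set w1 : ℝ := wn γ (g3w_tz (3 / 4) (β + 1) (1 / 4)) with hw1
  have hw : 0 < w1 := by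
    refine lt_of_lt_of_le ?_ (g3w_wn_ge hθ c1 (p := 1) (q := 2) one_pos one_le_two
      fun t a b => g3w_tz_one (by norm_num) (by linarith) (by linarith))
    positivity
  set c' : ℝ := γ / 3 * (3 : ℝ) ^ (-th γ - 2) with hc'
  have hc'0 : 0 < c' := by positivity
  refine ⟨c * c' / (16 * w1), by positivity, Kr * (2 * Real.exp 2 + 1), fun ε hε => ?_⟩
  have hε0 := hε.1
  have hE := g3w_exp hγ hε0 hε.2
  have hγε := mul_pos hγ.1 hε0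
  have hγε2 : γ * ε ≤ 2 := by nlinarith [hγ.2, hε.2]
  set E : ℝ := Real.exp (γ * ε) with hEd
  have hζ : 0 < γ * ε / 3 := by positivity
  have c2 : Chi (g3w_tz 1 (1 + γ * ε) (γ * ε / 3)) := g3w_tz_chi hζ (by norm_num)
  have hwε : c' * ε ≤ wn γ (g3w_tz 1 (1 + γ * ε) (γ * ε / 3)) := by
    refine le_trans ?_ (g3w_wn_ge hθ c2 (p := 1 + γ * ε / 3) (q := 1 + 2 * (γ * ε / 3))
      (by linarith) (by linarith) fun t a b => g3w_tz_one hζ a (by linarith))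
    have a1 : (3 : ℝ) ^ (-th γ - 2) ≤ (1 + 2 * (γ * ε / 3)) ^ (-th γ - 2) :=
      Real.rpow_le_rpow_of_nonpos (by linarith) (by linarith) (by linarith)
    calc c' * ε = γ * ε / 3 * (3 : ℝ) ^ (-th γ - 2) := by rw [hc']; ring
      _ ≤ γ * ε / 3 * (1 + 2 * (γ * ε / 3)) ^ (-th γ - 2) := mul_le_mul_of_nonneg_left a1 hζ.le
      _ = _ := by ring
  set κ : ℝ := min (c / 8) (c * c' / (16 * w1) * ε) with hκ
  have hκ0 : 0 < κ := lt_min (by positivity) (by positivity)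
  have hκ1 : κ ≤ c / 8 := min_le_left _ _
  have hκ2 : κ ≤ c * c' / (16 * w1) * ε := min_le_right _ _
  filter_upwards [g3w_use h1 hMOD hT hR hP hC hγ D M hM htf hL le_rfl (g3w_L1 hP le_rfl) c2 c1 hw
      (s := 0) ⟨le_rfl, by norm_num⟩ hκ0, tendsto_natCast_atTop_atTop.eventually hlow,
    g3w_inv (1 / 2) (by norm_num), g3w_inv ε hε0] with n ha hln hn hnε
  obtain ⟨a, ha, e1, e2⟩ := ha
  have hn0 : (0 : ℝ) < n := by linarith [hn.1]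
  have hp : 0 ≤ (n : ℝ) ^ (th γ + 1) := by positivity
  rw [g3w_win, le_div_iff₀ hε0, div_le_iff₀ hε0]
  constructor
  · have b1 := g3w_conv' gm _ hp hln
    have b2 := hK 0 β n (by linarith) hn0 (by nlinarith [hn.1])
    have b3 : gm.real {ω | ENNReal.ofReal n ≤ nB (M.X γ 0 ω)} ≤
        gm.real {ω | n ≤ nN (M.X γ 0 ω) ∧ nN (M.X γ 0 ω) ≤ β * n} +
          gm.real {ω | ENNReal.ofReal (β * n) ≤ nB (sh (M.X γ 0 ω) 0)} := by
      refine (measureReal_mono (fun ω hω => ?_) (measure_ne_top _ _)).trans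
        (measureReal_union_le _ _)
      by_cases h : ENNReal.ofReal (β * n) ≤ nB (sh (M.X γ 0 ω) 0)
      · exact Or.inr h
      · left
        rw [g3w_sh0, not_le] at h
        have a1 := g3w_fin hT _ h.ne_top
        have a2 : ENNReal.ofReal n ≤ nB (M.X γ 0 ω) := hω
        rw [a1] at h a2
        exact ⟨(ENNReal.ofReal_le_ofReal_iff (g3w_nN0 _)).1 a2,
          ((ENNReal.ofReal_lt_ofReal_iff_of_nonneg (g3w_nN0 _)).1 h).le⟩
    have b4 : 1 / 2 * gm.real {ω | n ≤ nN (M.X γ 0 ω) ∧ nN (M.X γ 0 ω) ≤ β * n} ≤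
        ∫ ω, g3w_aI (PhiG tf one') (g3w_tz (3 / 4) (β + 1) (1 / 4)) 0 n (M.X γ 0 ω) ∂gm := by
      refine g3w_low gm _ _ _ (by norm_num) (g3w_aI_int h1 h3 M γ hU c1 _ _)
        (fun ω => (g3w_aI_bd hU c1 _ _ _).1) fun ω hω => ?_
      have a1 : 1 ≤ nN (M.X γ 0 ω) / n := by rw [le_div_iff₀ hn0]; linarith [hω.1]
      have a2 : nN (M.X γ 0 ω) / n ≤ β := by rw [div_le_iff₀ hn0]; exact hω.2
      rw [g3w_aI_zero hT _ c1 hn0, g3w_tz_one (by norm_num) (by linarith) (by linarith)]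
      linarith [g3w_half hP htf hn0 hω.1, hn.2]
    have b5 := mul_le_mul_of_nonneg_left b4 hp
    rw [← g3w_An] at b5
    have b6 := mul_le_mul_of_nonneg_left b3 hp
    have b7 : c / 8 ≤ a * D.Lz tf one' * w1 := by linarith [(abs_le.1 e2).2]
    have b8 : M.An γ tf one' (g3w_tz 1 (1 + γ * ε) (γ * ε / 3)) 0 n ≤
        (n : ℝ) ^ (th γ + 1) * ∫ ω, g3w_wI oneT E n (M.X γ 0 ω) ∂gm := by
      rw [g3w_An]
      refine mul_le_mul_of_nonneg_left (integral_mono (g3w_aI_int h1 h3 M γ hU c2 _ _)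
        (g3w_wI_int h1 h3 M γ g3w_U1 _ _) fun ω => ?_) hp
      by_cases h : g3w_tz 1 (1 + γ * ε) (γ * ε / 3) (nN (M.X γ 0 ω) / n) = 0
      · refine le_trans (le_of_eq ?_) (g3w_wI_bd g3w_U1 E n _).1
        simp only [g3w_aI, h, zero_mul]
      · have a1 := g3w_tz_ne hζ h
        rw [lt_div_iff₀ hn0, div_lt_iff₀ hn0] at a1
        refine (g3w_aI_bd hU c2 _ _ _).2.trans (le_of_eq ?_)
        simp only [g3w_wI, oneT]
        rw [g3w_indR_pos ((g3w_wiff hT (Real.exp_pos _).le n _).2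
          ⟨by linarith [a1.1], a1.2.le.trans (mul_le_mul_of_nonneg_right hE.1 hn0.le)⟩), mul_one]
    have b9 : c * c' / (8 * w1) * ε ≤
        a * D.Lz tf one' * wn γ (g3w_tz 1 (1 + γ * ε) (γ * ε / 3)) := by
      have q1 : c / 8 / w1 ≤ a * D.Lz tf one' := by rwa [div_le_iff₀ hw]
      calc c * c' / (8 * w1) * ε = c / 8 / w1 * (c' * ε) := by field_simp
        _ ≤ _ := mul_le_mul q1 hwε (by positivity) (by positivity)
    have : c * c' / (8 * w1) * ε = 2 * (c * c' / (16 * w1) * ε) := by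
      field_simp
      norm_num
    linarith [(abs_le.1 e1).1]
  · refine le_trans (mul_le_mul_of_nonneg_left ((le_abs_self _).trans (g3w_abs gm _
      {ω | 1 * (n : ℝ) ≤ nN (M.X γ 0 ω) ∧ nN (M.X γ 0 ω) ≤ E * n} 1
      zero_le_one (fun ω => ?_) fun ω hω => ?_)) hp) ?_
    · rw [abs_of_nonneg (g3w_wI_bd g3w_U1 _ _ _).1]
      exact (g3w_wI_bd g3w_U1 _ _ _).2
    · have a1 := by_contra fun h => left_ne_zero_of_mul hω (g3w_indR_neg h)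
      rw [g3w_wiff hT (Real.exp_pos _).le] at a1
      exact ⟨by linarith [a1.1], a1.2⟩
    · rw [one_mul]
      refine (hKr 1 E n (by norm_num) (by linarith [hE.1]) hn.1).trans ?_
      rw [mul_assoc]
      exact mul_le_mul_of_nonneg_left (by linarith [hE.2, hnε.2]) hKr0

theorem g3w_cmp (h1 : St_G1) (hT : St_T1) (h3 : St_T3) {γ : ℝ} (M : Model) {Kr : ℝ}
    (hKr : ∀ α β n : ℝ, 3 / 4 ≤ α → α ≤ β → 2 ≤ n →
      n ^ (th γ + 1) * gm.real {ω | α * n ≤ nN (M.X γ 0 ω) ∧ nN (M.X γ 0 ω) ≤ β * n} ≤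
        Kr * (β - α + 1 / n)) {Φ : Finset Dy → ℝ} (hΦ : g3w_U Φ) {E ζ : ℝ} (hE : 1 ≤ E)
    (hζ : 0 < ζ) (hζ1 : ζ ≤ 1 / 4) {n : ℕ} (hn : (2 : ℝ) ≤ n) :
    |(n : ℝ) ^ (th γ + 1) * ∫ ω, g3w_wI Φ E n (M.X γ 0 ω) ∂gm -
      (n : ℝ) ^ (th γ + 1) * ∫ ω, g3w_aI Φ (g3w_tz (1 - ζ) (E + ζ) ζ) 0 n (M.X γ 0 ω) ∂gm| ≤
      2 * Kr * (ζ + 1 / n) := by
  have : IsProbabilityMeasure gm := h1.1
  have hn0 : (0 : ℝ) < n := by linarith
  have hp : 0 ≤ (n : ℝ) ^ (th γ + 1) := by positivity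
  have c2 : Chi (g3w_tz (1 - ζ) (E + ζ) ζ) := g3w_tz_chi hζ (by linarith)
  rw [← mul_sub, ← integral_sub (g3w_wI_int h1 h3 M γ hΦ _ _) (g3w_aI_int h1 h3 M γ hΦ c2 _ _),
    abs_mul, abs_of_nonneg hp]
  refine le_trans (mul_le_mul_of_nonneg_left (g3w_abs gm _
    ({ω | (1 - ζ) * n ≤ nN (M.X γ 0 ω) ∧ nN (M.X γ 0 ω) ≤ 1 * n} ∪
      {ω | E * n ≤ nN (M.X γ 0 ω) ∧ nN (M.X γ 0 ω) ≤ (E + ζ) * n}) 1
      zero_le_one (fun ω => ?_) fun ω hω => ?_) hp) ?_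
  · rw [abs_le]
    have a1 := g3w_wI_bd hΦ E n (M.X γ 0 ω)
    have a2 := g3w_aI_bd hΦ c2 0 n (M.X γ 0 ω)
    constructor <;> linarith [a1.1, a1.2, a2.1, a2.2]
  · rw [g3w_aI_zero hT _ c2 hn0] at hω
    unfold g3w_wI at hω
    by_cases h : (n : ℝ) < nN (M.X γ 0 ω) ∧ nN (M.X γ 0 ω) ≤ E * n
    · rw [g3w_indR_pos ((g3w_wiff hT (by linarith) n _).2 h), g3w_tz_one hζ
        (by rw [sub_add_cancel, le_div_iff₀ hn0]; linarith [h.1])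
        (by rw [add_le_add_iff_right, div_le_iff₀ hn0]; exact h.2), sub_self] at hω
      exact absurd rfl hω
    · rw [g3w_indR_neg fun h' => h ((g3w_wiff hT (by linarith) n _).1 h'), zero_mul, zero_sub,
        neg_ne_zero] at hω
      have a1 := g3w_tz_ne hζ (left_ne_zero_of_mul hω)
      rw [lt_div_iff₀ hn0, div_lt_iff₀ hn0] at a1
      by_cases h' : (n : ℝ) < nN (M.X γ 0 ω)
      · exact Or.inr ⟨(not_le.1 fun h'' => h ⟨h', h''⟩).le, a1.2.le⟩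
      · exact Or.inl ⟨a1.1.le, by linarith [not_lt.1 h']⟩
  · rw [one_mul]
    refine (mul_le_mul_of_nonneg_left (measureReal_union_le _ _) hp).trans ?_
    have a1 := hKr (1 - ζ) 1 n (by linarith) (by linarith) hn
    have a2 := hKr E (E + ζ) n (by linarith) (by linarith) hn
    rw [mul_add]
    refine (add_le_add a1 a2).trans (le_of_eq ?_)
    ring

theorem g3w_three (h1 : St_G1) (hMOD : St_MOD) (hT : St_T1) (h3 : St_T3) (hR : St_RUS)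
    (hUL : St_UL) (hP : St_PHI) (hC : St_MTC) {γ : ℝ} (hγ : γ ∈ Ioo (0 : ℝ) 2)
    (hθ : 0 < th γ) (D : QD γ) (M : Model) (hM : box [] ⊆ M.O) {tf : ℕ → C_c(Cyl, ℝ)}
    (htf : IsTF tf) (hL : 0 < D.Lz tf one') {Λ : ℝ} {G : (ℕ → ℝ) → ℝ} (hΛ : 0 ≤ Λ)
    (hG : LipG Λ G) (hG0 : 0 ≤ D.Lz tf G) (hG1 : D.Lz tf G ≤ D.Lz tf one') (ε : ℝ)
    (hε : ε ∈ Ioc (0 : ℝ) 1) :
    Tendsto (fun ι : ℕ => M.win γ (PhiG tf G) ε ι * D.Lz tf one' - M.win γ oneT ε ι * D.Lz tf G)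
      atTop (𝓝 0) := by
  have : IsProbabilityMeasure gm := h1.1
  have hU := g3w_UP hP htf le_rfl (g3w_L1 hP le_rfl)
  have hUG := g3w_UP hP htf hΛ hG
  obtain ⟨K, hK0, hK⟩ := g3w_tail h1 hMOD hR hγ M hM
  obtain ⟨Kr, hKr0, hKr⟩ := g3w_ramp h1 hT h3 hUL hγ hθ M hM
  have hε0 := hε.1
  have hE := g3w_exp hγ hε0 hε.2
  have hγε := mul_pos hγ.1 hε0
  set E : ℝ := Real.exp (γ * ε) with hEd
  set L := D.Lz tf one'
  set LG := D.Lz tf G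
  rw [Metric.tendsto_nhds]
  intro δ hδ
  set κ : ℝ := min (1 / 4) (δ * ε / (2 * ((8 * Kr + K + 2) * L))) with hκ
  have hκ0 : 0 < κ := lt_min (by norm_num) (by positivity)
  have hκ1 : κ ≤ 1 / 4 := min_le_left _ _
  have hκ2 : κ * (2 * ((8 * Kr + K + 2) * L)) ≤ δ * ε := by
    have : κ ≤ δ * ε / (2 * ((8 * Kr + K + 2) * L)) := min_le_right _ _
    rwa [le_div_iff₀ (by positivity)] at this
  have c2 : Chi (g3w_tz (1 - κ) (E + κ) κ) := g3w_tz_chi hκ0 (by linarith)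
  have hw : 0 < wn γ (g3w_tz (1 - κ) (E + κ) κ) := by
    refine lt_of_lt_of_le ?_ (g3w_wn_ge hθ c2 (p := 1) (q := E) one_pos (by linarith [hE.1])
      fun t a b => g3w_tz_one hκ0 (by linarith) (by linarith))
    have : 0 < E - 1 := by linarith [hE.1]
    positivity
  filter_upwards [g3w_use h1 hMOD hT hR hP hC hγ D M hM htf hL hΛ hG c2 c2 hw
      (s := 0) ⟨le_rfl, by norm_num⟩ hκ0, g3w_inv κ hκ0] with n ha hn
  obtain ⟨a, -, e1, e2⟩ := ha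
  have hn0 : (0 : ℝ) < n := by linarith [hn.1]
  have hp : 0 ≤ (n : ℝ) ^ (th γ + 1) := by positivity
  have b1 := g3w_cmp h1 hT h3 M hKr hUG (E := E) (by linarith [hE.1]) hκ0 hκ1 hn.1
  have b2 := g3w_cmp h1 hT h3 M hKr hU (E := E) (by linarith [hE.1]) hκ0 hκ1 hn.1
  rw [← g3w_An] at b1 b2
  have b3 : |(n : ℝ) ^ (th γ + 1) * ∫ ω, g3w_wI oneT E n (M.X γ 0 ω) ∂gm -
      (n : ℝ) ^ (th γ + 1) * ∫ ω, g3w_wI (PhiG tf one') E n (M.X γ 0 ω) ∂gm| ≤ κ * K := by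
    rw [← mul_sub, ← integral_sub (g3w_wI_int h1 h3 M γ g3w_U1 _ _) (g3w_wI_int h1 h3 M γ hU _ _),
      abs_mul, abs_of_nonneg hp]
    refine le_trans (mul_le_mul_of_nonneg_left (g3w_abs gm _
      {ω | ENNReal.ofReal (1 * n) ≤ nB (sh (M.X γ 0 ω) 0)} κ hκ0.le (fun ω => ?_)
      fun ω hω => ?_) hp) ?_
    · unfold g3w_wI
      by_cases h : (n : ℝ) < nN (M.X γ 0 ω) ∧ nN (M.X γ 0 ω) ≤ E * n
      · rw [g3w_indR_pos ((g3w_wiff hT (Real.exp_pos _).le n _).2 h), one_mul, one_mul, abs_le]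
        simp only [oneT]
        constructor <;> linarith [g3w_half hP htf hn0 h.1.le, hn.2, (hU (tr (M.X γ 0 ω))).2]
      · rw [g3w_indR_neg fun h' => h ((g3w_wiff hT (Real.exp_pos _).le n _).1 h')]
        simp [hκ0.le]
    · unfold g3w_wI at hω
      rw [← mul_sub] at hω
      have a1 := by_contra fun h => left_ne_zero_of_mul hω (g3w_indR_neg h)
      rw [mem_ofPred_eq, one_mul, g3w_sh0, ENNReal.ofReal_natCast]
      exact a1.1.le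
    · have a1 := hK 0 1 n one_pos hn0 (by linarith [hn.1])
      rw [mul_zero, Real.exp_zero, div_one, Real.one_rpow, mul_one] at a1
      rw [mul_left_comm]
      exact mul_le_mul_of_nonneg_left a1 hκ0.le
  have b4 : 2 * Kr * (κ + 1 / n) ≤ 4 * Kr * κ := by nlinarith [hn.2]
  rw [g3w_win, g3w_win, dist_zero_right, Real.norm_eq_abs, ← hEd, div_mul_eq_mul_div,
    div_mul_eq_mul_div, ← sub_div, abs_div, abs_of_pos hε0, div_lt_iff₀ hε0]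
  set WG := (n : ℝ) ^ (th γ + 1) * ∫ ω, g3w_wI (PhiG tf G) E n (M.X γ 0 ω) ∂gm
  set W1 := (n : ℝ) ^ (th γ + 1) * ∫ ω, g3w_wI oneT E n (M.X γ 0 ω) ∂gm
  set w := wn γ (g3w_tz (1 - κ) (E + κ) κ)
  have d1 : |WG - a * LG * w| ≤ (4 * Kr + 1) * κ := by
    rw [abs_le] at b1 e1 ⊢
    constructor <;> linarith [b1.1, b1.2, e1.1, e1.2]
  have d2 : |W1 - a * L * w| ≤ (4 * Kr + K + 1) * κ := by
    rw [abs_le] at b2 b3 e2 ⊢
    constructor <;> linarith [b2.1, b2.2, b3.1, b3.2, e2.1, e2.2]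
  have e : WG * L - W1 * LG = (WG - a * LG * w) * L - (W1 - a * L * w) * LG := by ring
  have d3 : |WG * L - W1 * LG| ≤ (4 * Kr + 1) * κ * L + (4 * Kr + K + 1) * κ * L := by
    rw [e]
    refine (abs_sub _ _).trans (add_le_add ?_ ?_)
    · rw [abs_mul, abs_of_pos hL]
      exact mul_le_mul_of_nonneg_right d1 hL.le
    · rw [abs_mul, abs_of_nonneg hG0]
      exact mul_le_mul d2 hG1 hG0 (by positivity)
  have : 0 < δ * ε := by positivity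
  linarith

theorem blk_G3W (h1 : St_G1) (h4 : St_G4) (hMOD : St_MOD) (hT : St_T1) (h3 : St_T3)
    (hW : St_RW1) (hR : St_RUS) (hMAC : St_MAC) (hLOW : St_LOW) (hUL : St_UL) (hTF : St_TF)
    (hP : St_PHI) (hMU : St_MU0) (hC : St_MTC) : St_G3W := by
  intro γ hγ D M hM
  have hθ := (hW.2.2 γ hγ).2.2.1
  have hmu := (hMU.2 γ hγ D).2
  obtain ⟨tf, htf⟩ := hTF
  refine ⟨g3w_one h1 h4 hMOD hT h3 hR hMAC hP hC hγ hθ D M hM htf (hmu tf htf).2.2.2.2,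
    g3w_two h1 hMOD hT h3 hR hLOW hUL hP hC hγ hθ D M hM htf (hmu tf htf).2.2.2.2,
    fun tf htf Λ G hΛ hG ε hε => ?_⟩
  have := ((hmu tf htf).2.2.2.1 G (hP.2.2.2.2.2.1 Λ G hG).2 hG.1).2
  exact g3w_three h1 hMOD hT h3 hR hUL hP hC hγ hθ D M hM htf (hmu tf htf).2.2.2.2 hΛ hG
    this.1 this.2 ε hε

end

end Pool.Agent.Lib.APPS
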