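import Pool.Agent.Lib.APPS.Blue1

/-!
Block G4: conditional Jensen, window bound, continuity of Wick exponentials.
-/

namespace Pool.Agent.Lib.APPS

open MeasureTheory ProbabilityTheory Filter Topology Set
open scoped NNReal ENNReal RealInnerProductSpace

noncomputable section

theorem g4_jen (h3 : St_G3) (ι : Type) [Fintype ι] (v : ι → HH) (y w : HH)
    (hw : w ∈ Submodule.span ℝ (range v)) (hy : ∀ i, ⟪y - w, v i⟫ = 0) (Ξ : ℝ → ℝ)
    (hΞ : ConvexOn ℝ univ Ξ) (h0 : ∀ t, 0 ≤ Ξ t) (G : (ι → ℝ) → ℝ≥0∞) (hG : Measurable G) :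
    ∫⁻ ω, G (fun i => ω (v i)) * ENNReal.ofReal (Ξ (ω w)) ∂gm ≤
      ∫⁻ ω, G (fun i => ω (v i)) * ENNReal.ofReal (Ξ (ω y)) ∂gm := by
  obtain ⟨c, hc⟩ := (Submodule.mem_span_range_iff_exists_fun ℝ).1 hw
  have hcont : Continuous Ξ := continuousOn_univ.1 (hΞ.continuousOn isOpen_univ)
  set u : HH := y - w with hu
  let v1 : Option ι → HH := fun o => o.elim u v
  let v2 : Option ι → HH := fun o => o.elim (-u) v
  have hgram : ∀ s t, ⟪v1 s, v1 t⟫ = ⟪v2 s, v2 t⟫ := by
    intro s t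
    cases s with
    | none =>
      cases t with
      | none => simp [v1, v2]
      | some j => simp [v1, v2, hy j]
    | some i =>
      cases t with
      | none =>
        have : ⟪v i, u⟫ = 0 := by rw [real_inner_comm]; exact hy i
        simp [v1, v2, this]
      | some j => simp [v1, v2]
  have hlaw := h3.2.2.1 (Option ι) v1 v2 hgram
  let F : (Option ι → ℝ) → ℝ≥0∞ := fun x =>
    G (fun i => x (some i)) * ENNReal.ofReal (Ξ (∑ i, c i * x (some i) + x none))
  have hF : Measurable F := by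
    refine (hG.comp (measurable_pi_lambda _ fun i => measurable_pi_apply _)).mul ?_
    have hs : Measurable fun x : Option ι → ℝ => ∑ i, c i * x (some i) + x none := by fun_prop
    exact ENNReal.measurable_ofReal.comp (hcont.measurable.comp hs)
  have hm : ∀ z : Option ι → HH, Measurable fun (ω : Om) t => ω (z t) := fun z =>
    measurable_pi_lambda _ fun t => meas_ev _
  have hE : ∫⁻ ω, F (fun t => ω (v1 t)) ∂gm = ∫⁻ ω, F (fun t => ω (v2 t)) ∂gm := by
    rw [← lintegral_map hF (hm v1), ← lintegral_map hF (hm v2), hlaw]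
  have hsum : ∀ ω : Om, ∑ i, c i * ω (v i) = ω w := by
    intro ω
    rw [← hc, map_sum]
    simp
  have h1 : ∀ ω : Om, F (fun t => ω (v1 t)) =
      G (fun i => ω (v i)) * ENNReal.ofReal (Ξ (ω w + ω u)) := by
    intro ω; simp only [F, v1, Option.elim, hsum]
  have h2 : ∀ ω : Om, F (fun t => ω (v2 t)) =
      G (fun i => ω (v i)) * ENNReal.ofReal (Ξ (ω w - ω u)) := by
    intro ω; simp only [F, v2, Option.elim, hsum, map_neg, sub_eq_add_neg]
  have hyy : ∀ ω : Om, ω y = ω w + ω u := by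
    intro ω; rw [hu, map_sub]; ring
  have key : 2 * ∫⁻ ω, G (fun i => ω (v i)) * ENNReal.ofReal (Ξ (ω w)) ∂gm ≤
      2 * ∫⁻ ω, F (fun t => ω (v1 t)) ∂gm := by
    rw [two_mul (∫⁻ ω, F (fun t => ω (v1 t)) ∂gm)]
    nth_rewrite 2 [hE]
    have hF1 : Measurable fun ω : Om => F (fun t => ω (v1 t)) := hF.comp (hm v1)
    rw [← lintegral_add_left hF1,
      ← lintegral_const_mul' _ _ (by norm_num : (2 : ℝ≥0∞) ≠ ∞)]
    refine lintegral_mono fun ω => ?_
    show 2 * (G (fun i => ω (v i)) * ENNReal.ofReal (Ξ (ω w))) ≤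
      F (fun t => ω (v1 t)) + F (fun t => ω (v2 t))
    rw [h1, h2, ← mul_add, mul_left_comm]
    refine mul_le_mul_right ?_ _
    rw [← ENNReal.ofReal_add (h0 _) (h0 _), two_mul, ← ENNReal.ofReal_add (h0 _) (h0 _)]
    refine ENNReal.ofReal_le_ofReal ?_
    have := hΞ.2 (mem_univ (ω w + ω u)) (mem_univ (ω w - ω u))
      (show (0 : ℝ) ≤ 1 / 2 by norm_num) (show (0 : ℝ) ≤ 1 / 2 by norm_num) (by norm_num)
    simp only [smul_eq_mul] at this
    have e : 1 / 2 * (ω w + ω u) + 1 / 2 * (ω w - ω u) = ω w := by ring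
    rw [e] at this
    linarith
  have := (ENNReal.mul_le_mul_iff_right (by norm_num : (2 : ℝ≥0∞) ≠ 0)
    (by norm_num : (2 : ℝ≥0∞) ≠ ∞)).1 key
  refine this.trans (le_of_eq ?_)
  refine lintegral_congr fun ω => ?_
  rw [h1, hyy]

theorem g4_line (n L : ℝ) (hn : 0 < n) (_hL : 0 < L) (g gb : ℝ → ℝ≥0∞) (hg : Measurable g)
    (hgb : Measurable gb) (hd : ∀ z z', g z ≠ 0 → g z' ≠ 0 → |z - z'| ≤ L)
    (hle : ∀ z z', |z' - z| ≤ n → g z' ≤ gb z) :
    ∫⁻ z, g z ∂gaussianReal 0 1 ≤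
      ENNReal.ofReal (2 * Real.exp (n ^ 2 / 2) / n * L) * ∫⁻ z, gb z ∂gaussianReal 0 1 := by
  have hp : Measurable (gaussianPDF 0 1) := measurable_gaussianPDF 0 1
  rw [gaussianReal_of_var_ne_zero 0 one_ne_zero, lintegral_withDensity_eq_lintegral_mul _ hp hg,
    lintegral_withDensity_eq_lintegral_mul _ hp hgb]
  set I := ∫⁻ z, (gaussianPDF 0 1 * gb) z with hI
  have hpt : ∀ z', (gaussianPDF 0 1 * g) z' ≤ ENNReal.ofReal (Real.exp (n ^ 2 / 2) / n) * I := by
    intro z'
    obtain ⟨lo, h1, h2⟩ : ∃ lo : ℝ, (∀ x ∈ Icc lo (lo + n), |z' - x| ≤ n) ∧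
        ∀ x ∈ Icc lo (lo + n), x ^ 2 ≤ z' ^ 2 + n ^ 2 := by
      rcases le_total 0 z' with hz | hz
      · refine ⟨z' - n, fun x hx => abs_le.2 ⟨by linarith [hx.2], by linarith [hx.1]⟩,
          fun x hx => ?_⟩
        have := hx.1; have := hx.2
        rcases le_total 0 x with h | h <;> nlinarith
      · refine ⟨z', fun x hx => abs_le.2 ⟨by linarith [hx.2], by linarith [hx.1]⟩,
          fun x hx => ?_⟩
        have := hx.1; have := hx.2
        rcases le_total 0 x with h | h <;> nlinarith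
    have hx : ∀ x ∈ Icc lo (lo + n), (gaussianPDF 0 1 * g) z' ≤
        ENNReal.ofReal (Real.exp (n ^ 2 / 2)) * (gaussianPDF 0 1 * gb) x := by
      intro x hx
      simp only [Pi.mul_apply]
      rw [← mul_assoc]
      refine mul_le_mul' ?_ (hle x z' (h1 x hx))
      rw [gaussianPDF, gaussianPDF, ← ENNReal.ofReal_mul (Real.exp_pos _).le]
      refine ENNReal.ofReal_le_ofReal ?_
      simp only [gaussianPDFReal, NNReal.coe_one, mul_one, sub_zero]
      rw [mul_left_comm, ← Real.exp_add]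
      refine mul_le_mul_of_nonneg_left (Real.exp_le_exp.2 ?_) (by positivity)
      have := h2 x hx
      linarith
    have hint : (gaussianPDF 0 1 * g) z' * ENNReal.ofReal n ≤
        ENNReal.ofReal (Real.exp (n ^ 2 / 2)) * I := by
      calc (gaussianPDF 0 1 * g) z' * ENNReal.ofReal n
          = ∫⁻ _ in Icc lo (lo + n), (gaussianPDF 0 1 * g) z' := by
            rw [setLIntegral_const, Real.volume_Icc, add_sub_cancel_left]
        _ ≤ ∫⁻ x in Icc lo (lo + n),
            ENNReal.ofReal (Real.exp (n ^ 2 / 2)) * (gaussianPDF 0 1 * gb) x :=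
            setLIntegral_mono' measurableSet_Icc hx
        _ ≤ ∫⁻ x, ENNReal.ofReal (Real.exp (n ^ 2 / 2)) * (gaussianPDF 0 1 * gb) x :=
            setLIntegral_le_lintegral _ _
        _ = ENNReal.ofReal (Real.exp (n ^ 2 / 2)) * I := by
            rw [lintegral_const_mul' _ _ ENNReal.ofReal_ne_top]
    have hn0 : ENNReal.ofReal n ≠ 0 := (ENNReal.ofReal_pos.2 hn).ne'
    refine (ENNReal.mul_le_mul_iff_left hn0 ENNReal.ofReal_ne_top).1 (hint.trans (le_of_eq ?_))
    rw [mul_right_comm, ← ENNReal.ofReal_mul (by positivity), div_mul_cancel₀ _ hn.ne']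
  by_cases hex : ∃ z0, g z0 ≠ 0
  · obtain ⟨z0, hz0⟩ := hex
    calc ∫⁻ z, (gaussianPDF 0 1 * g) z
        ≤ ∫⁻ z, (Icc (z0 - L) (z0 + L)).indicator
            (fun _ => ENNReal.ofReal (Real.exp (n ^ 2 / 2) / n) * I) z := by
          refine lintegral_mono fun z => ?_
          by_cases hz : g z = 0
          · simp [hz]
          · have := abs_le.1 (hd z z0 hz hz0)
            rw [indicator_of_mem (show z ∈ Icc (z0 - L) (z0 + L) from
              ⟨by linarith [this.1], by linarith [this.2]⟩)]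
            exact hpt z
      _ = ENNReal.ofReal (2 * Real.exp (n ^ 2 / 2) / n * L) * I := by
          rw [lintegral_indicator_const measurableSet_Icc, Real.volume_Icc, mul_right_comm,
            ← ENNReal.ofReal_mul (by positivity)]
          congr 2
          ring
  · push Not at hex
    simp [hex]

theorem g4_win (h2 : St_G2) (h : HH) (hh : h ≠ 0) : ∃ C : ℝ, ∀ (lam : ℝ) (f fb : Om → ℝ≥0∞),
    0 < lam → Measurable f → Measurable fb →
    (∀ ω (s s' : ℝ), f (ω + s • dv h) ≠ 0 → f (ω + s' • dv h) ≠ 0 → |s - s'| ≤ lam) →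
    (∀ ω (s : ℝ), |s| ≤ 1 → f (ω + s • dv h) ≤ fb ω) →
    ∫⁻ ω, f ω ∂gm ≤ ENNReal.ofReal (C * lam) * ∫⁻ ω, fb ω ∂gm := by
  have hn : 0 < ‖h‖ := norm_pos_iff.2 hh
  set n := ‖h‖ with hnd
  refine ⟨2 * Real.exp (n ^ 2 / 2), fun lam f fb hlam hf hfb hd hle => ?_⟩
  let a : Unit → HH := fun _ => n⁻¹ • h
  have ha : Orthonormal ℝ a := by
    refine ⟨fun _ => ?_, fun i j hij => (hij (Subsingleton.elim _ _)).elim⟩
    simp only [a, norm_smul, norm_inv, Real.norm_eq_abs, abs_of_pos hn]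
    exact inv_mul_cancel₀ hn.ne'
  have hdv : ∀ t : ℝ, t • dv (n⁻¹ • h) = (t / n) • dv h := by
    intro t
    ext v
    simp only [LinearMap.smul_apply, dv_apply, smul_eq_mul, real_inner_smul_left]
    rw [div_eq_mul_inv, mul_assoc]
  have hred : ∀ (F : Om → ℝ≥0∞), Measurable F → ∀ ω : Om,
      ∫⁻ ξ, F (ω + ∑ i, (ξ i - ω (a i)) • dv (a i))
        ∂(Measure.pi fun _ : Unit => gaussianReal 0 1) =
      ∫⁻ z, F (ω + ((z - ω (n⁻¹ • h)) / n) • dv h) ∂gaussianReal 0 1 := by
    intro F hF ω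
    have hm : Measurable fun z : ℝ => F (ω + ((z - ω (n⁻¹ • h)) / n) • dv h) :=
      hF.comp (meas_shift h measurable_const ((measurable_id.sub_const _).div_const _))
    rw [← (measurePreserving_funUnique (gaussianReal 0 1) Unit).lintegral_comp hm]
    refine lintegral_congr fun ξ => ?_
    simp [a, hdv]
  rw [h2.2.2.1 Unit a ha f hf, h2.2.2.1 Unit a ha fb hfb,
    ← lintegral_const_mul' _ _ ENNReal.ofReal_ne_top]
  refine lintegral_mono fun ω => ?_
  rw [hred f hf, hred fb hfb]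
  have hm : ∀ F : Om → ℝ≥0∞, Measurable F →
      Measurable fun z : ℝ => F (ω + ((z - ω (n⁻¹ • h)) / n) • dv h) := fun F hF =>
    hF.comp (meas_shift h measurable_const ((measurable_id.sub_const _).div_const _))
  have := g4_line n (lam * n) hn (mul_pos hlam hn) _ _ (hm f hf) (hm fb hfb) ?_ ?_
  · refine this.trans (le_of_eq ?_)
    congr 2
    field_simp
  · intro z z' hz hz'
    have h1 := hd ω _ _ hz hz'
    rw [← sub_div, abs_div, abs_of_pos hn, div_le_iff₀ hn] at h1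
    have e : z - ω (n⁻¹ • h) - (z' - ω (n⁻¹ • h)) = z - z' := by ring
    rwa [e] at h1
  · intro z z' hz
    have h1 := hle (ω + ((z - ω (n⁻¹ • h)) / n) • dv h) ((z' - z) / n) (by
      rw [abs_div, abs_of_pos hn, div_le_one hn]; exact hz)
    rw [add_assoc, ← add_smul] at h1
    have e : (z - ω (n⁻¹ • h)) / n + (z' - z) / n = (z' - ω (n⁻¹ • h)) / n := by ring
    rwa [e] at h1

theorem g4_one (h1 : St_G1) (h1D : St_G1D) (d : HH) :
    ∫⁻ ω, ENNReal.ofReal |Real.exp (ω d - ‖d‖ ^ 2 / 2) - 1| ∂gm ≤ ENNReal.ofReal (2 * ‖d‖) := by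
  have : IsProbabilityMeasure gm := h1.1
  have hmW : Measurable fun ω : Om => Real.exp (ω d - ‖d‖ ^ 2 / 2) :=
    Real.measurable_exp.comp ((meas_ev d).sub_const _)
  have hW : ∫⁻ ω, ENNReal.ofReal (Real.exp (ω d - ‖d‖ ^ 2 / 2)) ∂gm = 1 := by
    have := h1D.2.2.2.2.2.1 1 d
    simpa [Wk] using this
  have hW2 : ∫⁻ ω, ENNReal.ofReal (Real.exp (ω d - ‖d‖ ^ 2 / 2) ^ 2) ∂gm =
      ENNReal.ofReal (Real.exp (‖d‖ ^ 2)) := by
    have h := h1D.1 ((2 : ℝ) • d)
    have e : ∀ ω : Om, ENNReal.ofReal (Real.exp (ω d - ‖d‖ ^ 2 / 2) ^ 2) =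
        ENNReal.ofReal (Real.exp (-‖d‖ ^ 2)) * eE (ω ((2 : ℝ) • d)) := by
      intro ω
      rw [eE, ← ENNReal.ofReal_mul (Real.exp_pos _).le, ← Real.exp_add, ← Real.exp_nat_mul,
        map_smul, smul_eq_mul]
      congr 2
      push_cast
      ring
    simp_rw [e]
    rw [lintegral_const_mul' _ _ ENNReal.ofReal_ne_top, h, eE,
      ← ENNReal.ofReal_mul (Real.exp_pos _).le, ← Real.exp_add, norm_smul]
    congr 2
    norm_num
    ring
  rcases (norm_nonneg d).eq_or_lt with h0 | h0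
  · have : d = 0 := norm_eq_zero.1 h0.symm
    subst this
    simp
  rcases le_total 1 ‖d‖ with hr | hr
  · calc ∫⁻ ω, ENNReal.ofReal |Real.exp (ω d - ‖d‖ ^ 2 / 2) - 1| ∂gm
        ≤ ∫⁻ ω, (ENNReal.ofReal (Real.exp (ω d - ‖d‖ ^ 2 / 2)) + 1) ∂gm := by
          refine lintegral_mono fun ω => ?_
          rw [← ENNReal.ofReal_one, ← ENNReal.ofReal_add (Real.exp_pos _).le zero_le_one]
          refine ENNReal.ofReal_le_ofReal (abs_le.2 ⟨?_, ?_⟩) <;>
            linarith [Real.exp_pos (ω d - ‖d‖ ^ 2 / 2)]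
      _ = ENNReal.ofReal 2 := by
          rw [lintegral_add_right _ measurable_const, hW]
          simp [one_add_one_eq_two]
      _ ≤ ENNReal.ofReal (2 * ‖d‖) := ENNReal.ofReal_le_ofReal (by linarith)
  · set r := ‖d‖ with hrd
    have hexp : Real.exp (r ^ 2) ≤ 1 + 2 * r ^ 2 := by
      have h := Real.abs_exp_sub_one_le (x := r ^ 2) (by
        rw [abs_of_nonneg (sq_nonneg r)]; nlinarith)
      rw [abs_of_nonneg (sq_nonneg r)] at h
      linarith [le_abs_self (Real.exp (r ^ 2) - 1)]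
    have key : ∫⁻ ω, ENNReal.ofReal |Real.exp (ω d - r ^ 2 / 2) - 1| ∂gm +
        ENNReal.ofReal (1 / (2 * r)) ≤ ENNReal.ofReal (2 * r) + ENNReal.ofReal (1 / (2 * r)) := by
      calc ∫⁻ ω, ENNReal.ofReal |Real.exp (ω d - r ^ 2 / 2) - 1| ∂gm +
            ENNReal.ofReal (1 / (2 * r))
          = ∫⁻ ω, (ENNReal.ofReal |Real.exp (ω d - r ^ 2 / 2) - 1| +
            ENNReal.ofReal (1 / (2 * r)) * ENNReal.ofReal (Real.exp (ω d - r ^ 2 / 2))) ∂gm := by
            rw [lintegral_add_right _ (hmW.ennreal_ofReal.const_mul _),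
              lintegral_const_mul' _ _ ENNReal.ofReal_ne_top, hW, mul_one]
        _ ≤ ∫⁻ ω, (ENNReal.ofReal (1 / (4 * r)) *
            ENNReal.ofReal (Real.exp (ω d - r ^ 2 / 2) ^ 2) +
              ENNReal.ofReal (1 / (4 * r) + r)) ∂gm := by
            refine lintegral_mono fun ω => ?_
            set W := Real.exp (ω d - r ^ 2 / 2) with hWd
            have hW0 : 0 < W := Real.exp_pos _
            rw [← ENNReal.ofReal_mul (by positivity), ← ENNReal.ofReal_mul (by positivity),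
              ← ENNReal.ofReal_add (by positivity) (by positivity),
              ← ENNReal.ofReal_add (by positivity) (by positivity)]
            refine ENNReal.ofReal_le_ofReal ?_
            have h4 : |W - 1| ≤ (W - 1) ^ 2 / (4 * r) + r := by
              rw [← sq_abs (W - 1), div_add' _ _ _ (by positivity), le_div_iff₀ (by positivity)]
              nlinarith [sq_nonneg (|W - 1| - 2 * r)]
            have e : 1 / (4 * r) * W ^ 2 + (1 / (4 * r) + r) =
                (W - 1) ^ 2 / (4 * r) + r + 1 / (2 * r) * W := by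
              field_simp
              ring
            rw [e]
            linarith
        _ = ENNReal.ofReal (1 / (4 * r) * Real.exp (r ^ 2) + (1 / (4 * r) + r)) := by
            rw [lintegral_add_right _ measurable_const,
              lintegral_const_mul' _ _ ENNReal.ofReal_ne_top, hW2, lintegral_const, measure_univ,
              mul_one, ← ENNReal.ofReal_mul (by positivity),
              ← ENNReal.ofReal_add (by positivity) (by positivity)]
        _ ≤ ENNReal.ofReal (2 * r) + ENNReal.ofReal (1 / (2 * r)) := by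
            rw [← ENNReal.ofReal_add (by positivity) (by positivity)]
            refine ENNReal.ofReal_le_ofReal ?_
            have h5 : 1 / (4 * r) * Real.exp (r ^ 2) ≤ 1 / (4 * r) * (1 + 2 * r ^ 2) :=
              mul_le_mul_of_nonneg_left hexp (by positivity)
            have e : 1 / (4 * r) * (1 + 2 * r ^ 2) + (1 / (4 * r) + r) =
                1 / (2 * r) + 3 / 2 * r := by
              field_simp
              ring
            linarith
    exact (ENNReal.add_le_add_iff_right ENNReal.ofReal_ne_top).1 key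

theorem g4_wk (h1 : St_G1) (h1D : St_G1D) (h2 : St_G2) (γ : ℝ) (v w : HH) :
    ∫⁻ ω, ENNReal.ofReal |Wk γ v ω - Wk γ w ω| ∂gm ≤ ENNReal.ofReal (2 * |γ| * ‖v - w‖) := by
  set u' : HH := γ • w with hu'
  set d : HH := γ • (v - w) with hd
  have hnu' : ‖u'‖ ^ 2 = γ ^ 2 * ‖w‖ ^ 2 := by
    rw [hu', norm_smul, mul_pow, Real.norm_eq_abs, sq_abs]
  have hnv : γ ^ 2 * ‖v‖ ^ 2 = ‖u'‖ ^ 2 + 2 * ⟪u', d⟫ + ‖d‖ ^ 2 := by
    rw [← norm_add_sq_real]
    have : u' + d = γ • v := by rw [hu', hd, ← smul_add, add_sub_cancel]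
    rw [this, norm_smul, mul_pow, Real.norm_eq_abs, sq_abs]
  let f : Om → ℝ≥0∞ := fun ω =>
    ENNReal.ofReal |Real.exp (ω d - ⟪u', d⟫ - ‖d‖ ^ 2 / 2) - 1|
  have hf : Measurable f :=
    ((Real.measurable_exp.comp (((meas_ev d).sub_const _).sub_const _)).sub_const
      _).abs.ennreal_ofReal
  have hcm := h2.2.1 u' f hf
  have e1 : ∀ ω : Om, f ω * eE (ω u' - ‖u'‖ ^ 2 / 2) =
      ENNReal.ofReal |Wk γ v ω - Wk γ w ω| := by
    intro ω
    simp only [f, eE]
    rw [← ENNReal.ofReal_mul (abs_nonneg _),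
      ← abs_of_pos (Real.exp_pos (ω u' - ‖u'‖ ^ 2 / 2)), ← abs_mul, sub_mul, one_mul,
      ← Real.exp_add, Wk, Wk, hnv, ← hnu']
    have a1 : ω u' = γ * ω w := by rw [hu', map_smul, smul_eq_mul]
    have a2 : ω d = γ * ω v - γ * ω w := by rw [hd, map_smul, map_sub, smul_eq_mul, mul_sub]
    rw [a1, a2]
    congr 4
    ring
  have e2 : ∀ ω : Om, f (ω + dv u') = ENNReal.ofReal |Real.exp (ω d - ‖d‖ ^ 2 / 2) - 1| := by
    intro ω
    simp only [f, LinearMap.add_apply, dv_apply, add_sub_cancel_right]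
  simp_rw [e1, e2] at hcm
  rw [← hcm]
  refine (g4_one h1 h1D d).trans (le_of_eq ?_)
  rw [hd, norm_smul, Real.norm_eq_abs, mul_assoc]

theorem blk_G4 (h1 : St_G1) (h1D : St_G1D) (h2 : St_G2) (h3 : St_G3) : St_G4 :=
  ⟨fun ι _ v y w hw hy Ξ hΞ h0 G hG => g4_jen h3 ι v y w hw hy Ξ hΞ h0 G hG,
    fun h hh => g4_win h2 h hh, fun γ v w => g4_wk h1 h1D h2 γ v w⟩

end

end Pool.Agent.Lib.APPS
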