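import Pool.Agent.Lib.APPS.Blue2

/-!
Block G5: window bound with a constant depending only on the norm of the direction.
-/

namespace Pool.Agent.Lib.APPS

open MeasureTheory ProbabilityTheory Filter Topology Set
open scoped NNReal ENNReal RealInnerProductSpace

noncomputable section

theorem g5_line (n L : ℝ) (hn : 0 < n) (_hL : 0 < L) (g gb : ℝ → ℝ≥0∞) (hg : Measurable g)
    (hgb : Measurable gb) (hd : ∀ z z', g z ≠ 0 → g z' ≠ 0 → |z - z'| ≤ L)
    (hle : ∀ z z', |z' - z| ≤ n → g z' ≤ gb z) :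
    ∫⁻ z, g z ∂gaussianReal 0 1 ≤
      ENNReal.ofReal (2 * Real.exp (n ^ 2 / 2) / n * L) * ∫⁻ z, gb z ∂gaussianReal 0 1 := by
  have hp : Measurable (gaussianPDF 0 1) := measurable_gaussianPDF 0 1
  rw [gaussianReal_of_var_ne_zero 0 one_ne_zero, lintegral_withDensity_eq_lintegral_mul _ hp hg,
    lintegral_withDensity_eq_lintegral_mul _ hp hgb]
  set I := ∫⁻ z, (gaussianPDF 0 1 * gb) z with hI
  have hpt : ∀ z', (gaussianPDF 0 1 * g) z' ≤ ENNReal.ofReal (Real.exp (n ^ 2 / 2) / n) * I := by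
    intro z'
    obtain ⟨lo, h1, h2⟩ : ∃ lo : ℝ, (∀ x ∈ Icc lo (lo + n), |z' - x| ≤ n) ∧
        ∀ x ∈ Icc lo (lo + n), x ^ 2 ≤ z' ^ 2 + n ^ 2 := by
      rcases le_total 0 z' with hz | hz
      · refine ⟨z' - n, fun x hx => abs_le.2 ⟨by linarith [hx.2], by linarith [hx.1]⟩,
          fun x hx => ?_⟩
        have := hx.1; have := hx.2
        rcases le_total 0 x with h | h <;> nlinarith
      · refine ⟨z', fun x hx => abs_le.2 ⟨by linarith [hx.2], by linarith [hx.1]⟩,
          fun x hx => ?_⟩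
        have := hx.1; have := hx.2
        rcases le_total 0 x with h | h <;> nlinarith
    have hx : ∀ x ∈ Icc lo (lo + n), (gaussianPDF 0 1 * g) z' ≤
        ENNReal.ofReal (Real.exp (n ^ 2 / 2)) * (gaussianPDF 0 1 * gb) x := by
      intro x hx
      simp only [Pi.mul_apply]
      rw [← mul_assoc]
      refine mul_le_mul' ?_ (hle x z' (h1 x hx))
      rw [gaussianPDF, gaussianPDF, ← ENNReal.ofReal_mul (Real.exp_pos _).le]
      refine ENNReal.ofReal_le_ofReal ?_
      simp only [gaussianPDFReal, NNReal.coe_one, mul_one, sub_zero]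
      rw [mul_left_comm, ← Real.exp_add]
      refine mul_le_mul_of_nonneg_left (Real.exp_le_exp.2 ?_) (by positivity)
      have := h2 x hx
      linarith
    have hint : (gaussianPDF 0 1 * g) z' * ENNReal.ofReal n ≤
        ENNReal.ofReal (Real.exp (n ^ 2 / 2)) * I := by
      calc (gaussianPDF 0 1 * g) z' * ENNReal.ofReal n
          = ∫⁻ _ in Icc lo (lo + n), (gaussianPDF 0 1 * g) z' := by
            rw [setLIntegral_const, Real.volume_Icc, add_sub_cancel_left]
        _ ≤ ∫⁻ x in Icc lo (lo + n),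
            ENNReal.ofReal (Real.exp (n ^ 2 / 2)) * (gaussianPDF 0 1 * gb) x :=
            setLIntegral_mono' measurableSet_Icc hx
        _ ≤ ∫⁻ x, ENNReal.ofReal (Real.exp (n ^ 2 / 2)) * (gaussianPDF 0 1 * gb) x :=
            setLIntegral_le_lintegral _ _
        _ = ENNReal.ofReal (Real.exp (n ^ 2 / 2)) * I := by
            rw [lintegral_const_mul' _ _ ENNReal.ofReal_ne_top]
    have hn0 : ENNReal.ofReal n ≠ 0 := (ENNReal.ofReal_pos.2 hn).ne'
    refine (ENNReal.mul_le_mul_iff_left hn0 ENNReal.ofReal_ne_top).1 (hint.trans (le_of_eq ?_))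
    rw [mul_right_comm, ← ENNReal.ofReal_mul (by positivity), div_mul_cancel₀ _ hn.ne']
  by_cases hex : ∃ z0, g z0 ≠ 0
  · obtain ⟨z0, hz0⟩ := hex
    calc ∫⁻ z, (gaussianPDF 0 1 * g) z
        ≤ ∫⁻ z, (Icc (z0 - L) (z0 + L)).indicator
            (fun _ => ENNReal.ofReal (Real.exp (n ^ 2 / 2) / n) * I) z := by
          refine lintegral_mono fun z => ?_
          by_cases hz : g z = 0
          · simp [hz]
          · have := abs_le.1 (hd z z0 hz hz0)
            rw [indicator_of_mem (show z ∈ Icc (z0 - L) (z0 + L) from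
              ⟨by linarith [this.1], by linarith [this.2]⟩)]
            exact hpt z
      _ = ENNReal.ofReal (2 * Real.exp (n ^ 2 / 2) / n * L) * I := by
          rw [lintegral_indicator_const measurableSet_Icc, Real.volume_Icc, mul_right_comm,
            ← ENNReal.ofReal_mul (by positivity)]
          congr 2
          ring
  · push Not at hex
    simp [hex]

theorem blk_G5 (_h1 : St_G1) (_h1D : St_G1D) (h2 : St_G2) : St_G5 := by
  intro n hn0
  refine ⟨2 * Real.exp (n ^ 2 / 2), fun h hnd lam f fb hlam hf hfb hd hle => ?_⟩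
  have hn : 0 < n := hn0
  let a : Unit → HH := fun _ => n⁻¹ • h
  have ha : Orthonormal ℝ a := by
    refine ⟨fun _ => ?_, fun i j hij => (hij (Subsingleton.elim _ _)).elim⟩
    simp only [a, norm_smul, norm_inv, Real.norm_eq_abs, abs_of_pos hn, hnd]
    exact inv_mul_cancel₀ hn.ne'
  have hdv : ∀ t : ℝ, t • dv (n⁻¹ • h) = (t / n) • dv h := by
    intro t
    ext v
    simp only [LinearMap.smul_apply, dv_apply, smul_eq_mul, real_inner_smul_left]
    rw [div_eq_mul_inv, mul_assoc]
  have hred : ∀ (F : Om → ℝ≥0∞), Measurable F → ∀ ω : Om,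
      ∫⁻ ξ, F (ω + ∑ i, (ξ i - ω (a i)) • dv (a i))
        ∂(Measure.pi fun _ : Unit => gaussianReal 0 1) =
      ∫⁻ z, F (ω + ((z - ω (n⁻¹ • h)) / n) • dv h) ∂gaussianReal 0 1 := by
    intro F hF ω
    have hm : Measurable fun z : ℝ => F (ω + ((z - ω (n⁻¹ • h)) / n) • dv h) :=
      hF.comp (meas_shift h measurable_const ((measurable_id.sub_const _).div_const _))
    rw [← (measurePreserving_funUnique (gaussianReal 0 1) Unit).lintegral_comp hm]
    refine lintegral_congr fun ξ => ?_
    simp [a, hdv]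
  rw [h2.2.2.1 Unit a ha f hf, h2.2.2.1 Unit a ha fb hfb,
    ← lintegral_const_mul' _ _ ENNReal.ofReal_ne_top]
  refine lintegral_mono fun ω => ?_
  rw [hred f hf, hred fb hfb]
  have hm : ∀ F : Om → ℝ≥0∞, Measurable F →
      Measurable fun z : ℝ => F (ω + ((z - ω (n⁻¹ • h)) / n) • dv h) := fun F hF =>
    hF.comp (meas_shift h measurable_const ((measurable_id.sub_const _).div_const _))
  have := g5_line n (lam * n) hn (mul_pos hlam hn) _ _ (hm f hf) (hm fb hfb) ?_ ?_
  · refine this.trans (le_of_eq ?_)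
    congr 2
    field_simp
  · intro z z' hz hz'
    have h1 := hd ω _ _ hz hz'
    rw [← sub_div, abs_div, abs_of_pos hn, div_le_iff₀ hn] at h1
    have e : z - ω (n⁻¹ • h) - (z' - ω (n⁻¹ • h)) = z - z' := by ring
    rwa [e] at h1
  · intro z z' hz
    have h1 := hle (ω + ((z - ω (n⁻¹ • h)) / n) • dv h) ((z' - z) / n) (by
      rw [abs_div, abs_of_pos hn, div_le_one hn]; exact hz)
    rw [add_assoc, ← add_smul] at h1
    have e : (z - ω (n⁻¹ • h)) / n + (z' - z) / n = (z' - ω (n⁻¹ • h)) / n := by ring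
    rwa [e] at h1

end

end Pool.Agent.Lib.APPS
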