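import Pool.Agent.Lib.APPS.Blue1

namespace Pool.Agent.Lib.APPS

open MeasureTheory ProbabilityTheory Filter Topology Set Metric
open scoped NNReal ENNReal RealInnerProductSpace

noncomputable section

namespace GR

def Ld (δ : ℝ) (z : ℂ) : ℝ := Real.log (max ‖z‖ δ)
def hd (δ : ℝ) (z : ℂ) : ℝ := Real.log ‖z‖ - Ld δ z
def wr (δ : ℝ) (t : ℝ) : ℝ := if t < δ then t⁻¹ else 0

lemma log_sub_le' {a b m : ℝ} (hm : 0 < m) (ha : m ≤ a) (hb : m ≤ b) :
    Real.log a - Real.log b ≤ |a - b| / m := by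
  have ha0 : 0 < a := hm.trans_le ha
  have hb0 : 0 < b := hm.trans_le hb
  rw [← Real.log_div ha0.ne' hb0.ne']
  have h1 := Real.log_le_sub_one_of_pos (div_pos ha0 hb0)
  have h2 : a / b - 1 = (a - b) / b := by field_simp
  have h3 : (a - b) / b ≤ |a - b| / b := by gcongr; exact le_abs_self _
  have h4 : |a - b| / b ≤ |a - b| / m := by gcongr
  linarith

lemma log_sub_le {a b m : ℝ} (hm : 0 < m) (ha : m ≤ a) (hb : m ≤ b) :
    |Real.log a - Real.log b| ≤ |a - b| / m := by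
  rw [abs_le]
  have h1 := log_sub_le' hm ha hb
  have h2 := log_sub_le' hm hb ha
  rw [abs_sub_comm] at h2
  constructor <;> linarith

lemma Ld_lip {δ : ℝ} (hδ : 0 < δ) (z z' : ℂ) : |Ld δ z - Ld δ z'| ≤ δ⁻¹ * ‖z - z'‖ := by
  have h1 := log_sub_le hδ (le_max_right ‖z‖ δ) (le_max_right ‖z'‖ δ)
  have h2 : |max ‖z‖ δ - max ‖z'‖ δ| ≤ ‖z - z'‖ :=
    (abs_max_sub_max_le_abs _ _ _).trans (abs_norm_sub_norm_le _ _)
  calc _ ≤ _ := h1
    _ ≤ ‖z - z'‖ / δ := by gcongr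
    _ = _ := by rw [div_eq_inv_mul]

lemma Ld_lipW {δ : ℝ} (hδ : 0 < δ) : LipschitzWith (δ⁻¹).toNNReal (Ld δ) := by
  refine LipschitzWith.of_dist_le_mul fun z z' => ?_
  rw [Real.dist_eq, dist_eq_norm, Real.coe_toNNReal _ (inv_nonneg.2 hδ.le)]
  exact Ld_lip hδ z z'

lemma wr_nonneg (δ : ℝ) {t : ℝ} (ht : 0 ≤ t) : 0 ≤ wr δ t := by
  unfold wr; split_ifs
  · exact inv_nonneg.2 ht
  · exact le_rfl

lemma hd_eq {δ : ℝ} (z : ℂ) : hd δ z = Real.log (min ‖z‖ δ) - Real.log δ := by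
  unfold hd Ld
  rcases le_total ‖z‖ δ with h | h
  · rw [max_eq_right h, min_eq_left h]
  · rw [max_eq_left h, min_eq_right h]; simp

lemma hd_lip' {δ : ℝ} (z z' : ℂ) (hz : z ≠ 0) (h : ‖z‖ ≤ ‖z'‖) :
    |hd δ z - hd δ z'| ≤ ‖z - z'‖ * wr δ ‖z‖ := by
  rw [hd_eq, hd_eq, sub_sub_sub_cancel_right]
  unfold wr
  split_ifs with h1
  · have hz0 : 0 < ‖z‖ := norm_pos_iff.2 hz
    have h2 := log_sub_le hz0 (le_min le_rfl h1.le) (le_min h h1.le)
    have h3 : |min ‖z‖ δ - min ‖z'‖ δ| ≤ ‖z - z'‖ := by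
      refine (abs_min_sub_min_le_max _ _ _ _).trans ?_
      simp [abs_norm_sub_norm_le]
    calc _ ≤ _ := h2
      _ ≤ ‖z - z'‖ / ‖z‖ := by gcongr
      _ = _ := by rw [div_eq_mul_inv]
  · push Not at h1
    rw [min_eq_right h1, min_eq_right (h1.trans h)]
    simp

lemma hd_lip {δ : ℝ} (z z' : ℂ) (hz : z ≠ 0) (hz' : z' ≠ 0) :
    |hd δ z - hd δ z'| ≤ ‖z - z'‖ * (wr δ ‖z‖ + wr δ ‖z'‖) := by
  have a1 := wr_nonneg δ (norm_nonneg z)
  have a2 := wr_nonneg δ (norm_nonneg z')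
  rcases le_total ‖z‖ ‖z'‖ with h | h
  · refine (hd_lip' z z' hz h).trans ?_
    gcongr; linarith
  · rw [abs_sub_comm, norm_sub_rev]
    refine (hd_lip' z' z hz' h).trans ?_
    gcongr; linarith

lemma wr_eq {δ : ℝ} : EqOn (fun y : ℝ => y ^ (Module.finrank ℝ ℂ - 1) • wr δ y)
    ((Iio δ).indicator fun _ => (1 : ℝ)) (Ioi 0) := by
  intro y hy
  have hy' : y ≠ 0 := ne_of_gt hy
  by_cases h : y < δ <;> simp [wr, h, Complex.finrank_real_complex, hy']

lemma wr_int (δ : ℝ) : Integrable (fun z : ℂ => wr δ ‖z‖) := by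
  rw [integrable_fun_norm_addHaar volume (f := wr δ),
    integrableOn_congr_fun wr_eq measurableSet_Ioi, IntegrableOn,
    integrable_indicator_iff measurableSet_Iio, IntegrableOn,
    Measure.restrict_restrict measurableSet_Iio, Iio_inter_Ioi]
  exact integrable_const _

lemma wr_val {δ : ℝ} (hδ : 0 < δ) :
    ∫ z : ℂ, wr δ ‖z‖ = 2 * (volume : Measure ℂ).real (ball 0 1) * δ := by
  rw [integral_fun_norm_addHaar volume (wr δ),
    setIntegral_congr_fun measurableSet_Ioi wr_eq, integral_indicator measurableSet_Iio,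
    Measure.restrict_restrict measurableSet_Iio, Iio_inter_Ioi]
  simp [Complex.finrank_real_complex, hδ.le, mul_assoc]

structure Rho (ρ : ℂ → ℝ) (B R : ℝ) : Prop where
  meas : Measurable ρ
  bd : ∀ x, |ρ x| ≤ B
  pos : 0 < R
  supp : ∀ x, R < ‖x‖ → ρ x = 0

variable {ρ : ℂ → ℝ} {B R : ℝ}

lemma Rho.mulint (h : Rho ρ B R) {g : ℂ → ℝ} (hg : IntegrableOn g (closedBall 0 R)) :
    Integrable fun y => g y * ρ y := by
  have h1 : IntegrableOn (fun y => g y * ρ y) (closedBall 0 R) :=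
    Integrable.mul_bdd hg h.meas.aestronglyMeasurable (ae_of_all _ h.bd)
  refine (integrableOn_iff_integrable_of_support_subset ?_).1 h1
  intro y hy
  by_contra hc
  simp only [mem_closedBall, dist_zero_right, not_le] at hc
  exact hy (by simp [h.supp y hc])

lemma Rho.contint (h : Rho ρ B R) {g : ℂ → ℝ} (hg : Continuous g) :
    Integrable fun y => g y * ρ y :=
  h.mulint (hg.continuousOn.integrableOn_compact (isCompact_closedBall _ _))

lemma Rho.int (h : Rho ρ B R) : Integrable ρ := by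
  simpa using h.contint (g := fun _ => 1) continuous_const

lemma Rho.logint (h : Rho ρ B R) (hE : St_EXP1) (x : ℂ) :
    Integrable fun y => Real.log ‖x - y‖ * ρ y := by
  refine h.mulint ?_
  have h1 := (hE.2.2.2.1 x 0 R h.pos).1
  have h2 : 0 < Real.pi * R ^ 2 := by have := h.pos; positivity
  unfold disc at h1
  rwa [integrable_smul_measure (by simp) (by simpa using h2)] at h1

lemma Rho.Ldint (h : Rho ρ B R) {δ : ℝ} (hδ : 0 < δ) (x : ℂ) :
    Integrable fun y => Ld δ (x - y) * ρ y :=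
  h.contint ((Ld_lipW hδ).continuous.comp (continuous_const.sub continuous_id))

lemma Rho.hdint (h : Rho ρ B R) (hE : St_EXP1) {δ : ℝ} (hδ : 0 < δ) (x : ℂ) :
    Integrable fun y => hd δ (x - y) * ρ y := by
  refine ((h.logint hE x).sub (h.Ldint hδ x)).congr (ae_of_all _ fun y => ?_)
  simp [hd, sub_mul]

def fL (ρ : ℂ → ℝ) (δ : ℝ) (x : ℂ) : ℝ := ∫ y, Ld δ (x - y) * ρ y
def fH (ρ : ℂ → ℝ) (δ : ℝ) (x : ℂ) : ℝ := ∫ y, hd δ (x - y) * ρ y
def fP (ρ : ℂ → ℝ) (x : ℂ) : ℝ := ∫ y, -Real.log ‖x - y‖ * ρ y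

lemma Rho.split (h : Rho ρ B R) (hE : St_EXP1) {δ : ℝ} (hδ : 0 < δ) :
    fP ρ = -(fL ρ δ + fH ρ δ) := by
  funext x
  simp only [fP, fL, fH, Pi.neg_apply, Pi.add_apply]
  rw [← integral_add (h.Ldint hδ x) (h.hdint hE hδ x), ← integral_neg]
  congr 1; funext y; simp only [hd]; ring

lemma Rho.B0 (h : Rho ρ B R) : 0 ≤ B := (abs_nonneg _).trans (h.bd 0)

lemma Rho.fH_lip (h : Rho ρ B R) (hE : St_EXP1) {δ : ℝ} (hδ : 0 < δ) :
    LipschitzWith (4 * B * (volume : Measure ℂ).real (ball 0 1) * δ).toNNReal (fH ρ δ) := by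
  refine LipschitzWith.of_dist_le_mul fun x x' => ?_
  have hB := h.B0
  rw [Real.dist_eq, dist_eq_norm, Real.coe_toNNReal _ (by positivity)]
  unfold fH
  rw [← integral_sub (h.hdint hE hδ x) (h.hdint hE hδ x')]
  have i1 : ∀ x : ℂ, Integrable (fun y : ℂ => wr δ ‖x - y‖) := fun x =>
    (wr_int δ).comp_sub_left x
  have v1 : ∀ x : ℂ, ∫ y : ℂ, wr δ ‖x - y‖ = 2 * (volume : Measure ℂ).real (ball 0 1) * δ :=
    fun x => by rw [integral_sub_left_eq_self (fun z : ℂ => wr δ ‖z‖) volume x, wr_val hδ]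
  have hb : ∀ᵐ y : ℂ, ‖hd δ (x - y) * ρ y - hd δ (x' - y) * ρ y‖ ≤
      (B * ‖x - x'‖) * (wr δ ‖x - y‖ + wr δ ‖x' - y‖) := by
    filter_upwards [Measure.ae_ne volume x, Measure.ae_ne volume x'] with y h1 h2
    have h3 := hd_lip (δ := δ) (x - y) (x' - y) (sub_ne_zero.2 h1.symm) (sub_ne_zero.2 h2.symm)
    rw [sub_sub_sub_cancel_right] at h3
    rw [← sub_mul, norm_mul, Real.norm_eq_abs, Real.norm_eq_abs]
    have a1 := wr_nonneg δ (norm_nonneg (x - y))
    have a2 := wr_nonneg δ (norm_nonneg (x' - y))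
    calc _ ≤ (‖x - x'‖ * (wr δ ‖x - y‖ + wr δ ‖x' - y‖)) * B := by
          gcongr; exact h.bd y
      _ = _ := by ring
  have := norm_integral_le_of_norm_le (((i1 x).add (i1 x')).const_mul (B * ‖x - x'‖)) hb
  rw [Real.norm_eq_abs] at this
  refine this.trans (le_of_eq ?_)
  simp only [Pi.add_apply]
  rw [integral_const_mul, integral_add (i1 x) (i1 x'), v1, v1]; ring

lemma Rho.fL_lip (h : Rho ρ B R) {δ : ℝ} (hδ : 0 < δ) :
    LipschitzWith (δ⁻¹ * ∫ y, |ρ y|).toNNReal (fL ρ δ) := by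
  refine LipschitzWith.of_dist_le_mul fun x x' => ?_
  rw [Real.dist_eq, dist_eq_norm, Real.coe_toNNReal _ (by positivity)]
  unfold fL
  rw [← integral_sub (h.Ldint hδ x) (h.Ldint hδ x')]
  have hb : ∀ᵐ y : ℂ, ‖Ld δ (x - y) * ρ y - Ld δ (x' - y) * ρ y‖ ≤
      (δ⁻¹ * ‖x - x'‖) * |ρ y| := by
    refine ae_of_all _ fun y => ?_
    have h3 := Ld_lip hδ (x - y) (x' - y)
    rw [sub_sub_sub_cancel_right] at h3
    rw [← sub_mul, norm_mul, Real.norm_eq_abs, Real.norm_eq_abs]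
    gcongr
  have := norm_integral_le_of_norm_le (h.int.abs.const_mul (δ⁻¹ * ‖x - x'‖)) hb
  rw [Real.norm_eq_abs] at this
  refine this.trans (le_of_eq ?_)
  rw [integral_const_mul]; ring

lemma Rho.fP_lip (h : Rho ρ B R) (hE : St_EXP1) : ∃ K, LipschitzWith K (fP ρ) := by
  rw [h.split hE one_pos]
  exact ⟨_, ((h.fL_lip one_pos).add (h.fH_lip hE one_pos)).neg⟩

lemma log_quot {x y : ℂ} (hx : x ≠ 0) (hxy : x - y ≠ 0) :
    Real.log ‖x - y‖ = Real.log ‖x‖ + Real.log ‖1 - y / x‖ := by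
  have : x - y = x * (1 - y / x) := by field_simp
  have h2 : 1 - y / x ≠ 0 := fun h => hxy (by rw [this, h, mul_zero])
  rw [this, norm_mul, Real.log_mul (norm_ne_zero_iff.2 hx) (norm_ne_zero_iff.2 h2)]

lemma half_le {x y : ℂ} {R : ℝ} (hR : 0 < R) (hx : 2 * R ≤ ‖x‖) (hy : ‖y‖ ≤ R) :
    1 / 2 ≤ ‖1 - y / x‖ := by
  have h0 : 0 < ‖x‖ := by linarith
  have h1 : ‖y / x‖ ≤ 1 / 2 := by
    rw [norm_div, div_le_iff₀ h0]; linarith
  have h2 := norm_sub_norm_le (1 : ℂ) (y / x)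
  rw [norm_one] at h2
  linarith

lemma Rho.far (h : Rho ρ B R) (hE : St_EXP1) (h0 : ∫ x, ρ x = 0) {x : ℂ} (hx : 2 * R ≤ ‖x‖) :
    Integrable (fun y => Real.log ‖1 - y / x‖ * ρ y) ∧
      fP ρ x = -∫ y, Real.log ‖1 - y / x‖ * ρ y := by
  have hR := h.pos
  have hx0 : x ≠ 0 := norm_pos_iff.1 (by linarith)
  have he : (fun y => Real.log ‖1 - y / x‖ * ρ y) =ᵐ[volume]
      fun y => Real.log ‖x - y‖ * ρ y - Real.log ‖x‖ * ρ y := by
    filter_upwards [Measure.ae_ne volume x] with y hy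
    rw [log_quot hx0 (sub_ne_zero.2 hy.symm)]; ring
  refine ⟨((h.logint hE x).sub (h.int.const_mul _)).congr he.symm, ?_⟩
  rw [integral_congr_ae he, integral_sub (h.logint hE x) (h.int.const_mul _), integral_const_mul,
    h0, mul_zero, sub_zero, ← integral_neg]
  simp [fP]

lemma Rho.far_lip (h : Rho ρ B R) (hE : St_EXP1) (h0 : ∫ x, ρ x = 0) {x x' : ℂ}
    (hx : 2 * R ≤ ‖x‖) (hx' : 2 * R ≤ ‖x'‖) :
    |fP ρ x - fP ρ x'| ≤ (2 * R * ∫ y, |ρ y|) / (‖x‖ * ‖x'‖) * ‖x - x'‖ := by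
  have hR := h.pos
  have hx0 : 0 < ‖x‖ := by linarith
  have hx0' : 0 < ‖x'‖ := by linarith
  obtain ⟨i1, e1⟩ := h.far hE h0 hx
  obtain ⟨i2, e2⟩ := h.far hE h0 hx'
  rw [e1, e2, neg_sub_neg, ← integral_sub i2 i1]
  have hb : ∀ᵐ y : ℂ, ‖Real.log ‖1 - y / x'‖ * ρ y - Real.log ‖1 - y / x‖ * ρ y‖ ≤
      (2 * R / (‖x‖ * ‖x'‖) * ‖x - x'‖) * |ρ y| := by
    refine ae_of_all _ fun y => ?_
    by_cases hy : R < ‖y‖
    · simp [h.supp y hy]
    push Not at hy
    rw [← sub_mul, norm_mul, Real.norm_eq_abs, Real.norm_eq_abs]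
    gcongr
    have h1 := log_sub_le (by norm_num) (half_le hR hx' hy) (half_le hR hx hy)
    have h2 := abs_norm_sub_norm_le (1 - y / x') (1 - y / x)
    have h3 : (1 - y / x') - (1 - y / x) = -(y * (x - x') / (x * x')) := by
      have := norm_pos_iff.1 hx0
      have := norm_pos_iff.1 hx0'
      field_simp; ring
    rw [h3, norm_neg, norm_div, norm_mul, norm_mul] at h2
    calc _ ≤ _ := h1
      _ ≤ (R * ‖x - x'‖ / (‖x‖ * ‖x'‖)) / (1 / 2) := by
          gcongr; exact h2.trans (by gcongr)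
      _ = _ := by ring
  have := norm_integral_le_of_norm_le (h.int.abs.const_mul _) hb
  rw [Real.norm_eq_abs] at this
  refine this.trans (le_of_eq ?_)
  rw [integral_const_mul]; ring

lemma Rho.far_bd (h : Rho ρ B R) (hE : St_EXP1) (h0 : ∫ x, ρ x = 0) {x : ℂ}
    (hx : 2 * R ≤ ‖x‖) : |fP ρ x| ≤ (2 * R * ∫ y, |ρ y|) / ‖x‖ := by
  have hR := h.pos
  have hx0 : 0 < ‖x‖ := by linarith
  obtain ⟨i1, e1⟩ := h.far hE h0 hx
  rw [e1, abs_neg]
  have hb : ∀ᵐ y : ℂ, ‖Real.log ‖1 - y / x‖ * ρ y‖ ≤ (2 * R / ‖x‖) * |ρ y| := by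
    refine ae_of_all _ fun y => ?_
    by_cases hy : R < ‖y‖
    · simp [h.supp y hy]
    push Not at hy
    rw [norm_mul, Real.norm_eq_abs, Real.norm_eq_abs]
    gcongr
    have h1 := log_sub_le (a := ‖1 - y / x‖) (b := ‖(1 : ℂ)‖) (by norm_num) (half_le hR hx hy)
      (by norm_num)
    have h2 := abs_norm_sub_norm_le (1 - y / x) 1
    rw [sub_sub_cancel_left, norm_neg, norm_div] at h2
    rw [norm_one, Real.log_one, sub_zero] at h1
    rw [norm_one] at h2
    calc _ ≤ _ := h1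
      _ ≤ (R / ‖x‖) / (1 / 2) := by
          gcongr; exact h2.trans (by gcongr)
      _ = _ := by ring
  have := norm_integral_le_of_norm_le (h.int.abs.const_mul _) hb
  rw [Real.norm_eq_abs] at this
  refine this.trans (le_of_eq ?_)
  rw [integral_const_mul]; ring

lemma Rho.decay (h : Rho ρ B R) (hE : St_EXP1) (h0 : ∫ x, ρ x = 0) :
    ∃ C : ℝ, ∀ x : ℂ, |fP ρ x| ≤ C / (1 + ‖x‖) := by
  obtain ⟨K, hK⟩ := h.fP_lip hE
  have hR := h.pos
  set A := 2 * R * ∫ y, |ρ y| with hA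
  have hA0 : 0 ≤ A := by positivity
  refine ⟨2 * A + (|fP ρ 0| + K * (2 * R + 1)) * (2 * R + 2), fun x => ?_⟩
  have hn := norm_nonneg x
  rw [le_div_iff₀ (by positivity)]
  by_cases hx : 2 * R + 1 ≤ ‖x‖
  · have h1 := h.far_bd hE h0 (x := x) (by linarith)
    rw [le_div_iff₀ (by linarith)] at h1
    have h2 : |fP ρ x| * (1 + ‖x‖) ≤ |fP ρ x| * (2 * ‖x‖) := by gcongr; linarith
    have h3 : 0 ≤ (|fP ρ 0| + K * (2 * R + 1)) * (2 * R + 2) := by positivity
    linarith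
  · push Not at hx
    have h1 := hK.dist_le_mul x 0
    rw [Real.dist_eq, dist_zero_right] at h1
    have h2 : |fP ρ x| ≤ |fP ρ 0| + K * (2 * R + 1) := by
      have h3 : (K : ℝ) * ‖x‖ ≤ K * (2 * R + 1) := by gcongr
      have := abs_sub_abs_le_abs_sub (fP ρ x) (fP ρ 0)
      linarith
    have h4 : |fP ρ x| * (1 + ‖x‖) ≤ (|fP ρ 0| + K * (2 * R + 1)) * (2 * R + 2) :=
      mul_le_mul h2 (by linarith) (by positivity) (by positivity)
    linarith

lemma norm_grad (f : ℂ → ℝ) (x : ℂ) : ‖gradient f x‖ = ‖fderiv ℝ f x‖ := by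
  simp [gradient]

lemma inner_grad (f : ℂ → ℝ) (x v : ℂ) : ⟪gradient f x, v⟫ = fderiv ℝ f x v := by
  simp [gradient]

lemma Rho.lipE (h : Rho ρ B R) (hP : St_P1) (hE : St_EXP1) (h0 : ∫ x, ρ x = 0) :
    LipE (fP ρ) := by
  obtain ⟨K, hK⟩ := h.fP_lip hE
  refine ⟨⟨K, hK⟩, ?_⟩
  have hR := h.pos
  set A := 2 * R * ∫ y, |ρ y| with hA
  have hA0 : 0 ≤ A := by positivity
  set C : ℝ := 8 * A + K * (2 * R + 3) ^ 2 with hC
  have hb : ∀ x : ℂ, ‖gradient (fP ρ) x‖ ≤ C * ((1 + ‖x‖) ^ 2)⁻¹ := by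
    intro x
    have hn := norm_nonneg x
    rw [← div_eq_mul_inv, le_div_iff₀ (by positivity)]
    by_cases hx : 2 * R + 2 ≤ ‖x‖
    · have h1 : ‖gradient (fP ρ) x‖ ≤ A / (‖x‖ / 2 * ‖x‖) := by
        rw [norm_grad]
        refine norm_fderiv_le_of_lip' ℝ (by positivity) ?_
        filter_upwards [ball_mem_nhds x one_pos] with x' hx'
        rw [mem_ball, dist_eq_norm] at hx'
        have h2 := norm_sub_norm_le x x'
        rw [norm_sub_rev] at h2
        have h3 := h.far_lip hE h0 (x := x') (x' := x) (by linarith) (by linarith)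
        refine h3.trans ?_
        have : 0 < ‖x‖ := by linarith
        gcongr
        linarith
      rw [le_div_iff₀ (by have : 0 < ‖x‖ := by linarith
                          positivity)] at h1
      have h2 : (1 + ‖x‖) ^ 2 ≤ 8 * (‖x‖ / 2 * ‖x‖) := by nlinarith
      have h3 : ‖gradient (fP ρ) x‖ * (1 + ‖x‖) ^ 2 ≤
          ‖gradient (fP ρ) x‖ * (8 * (‖x‖ / 2 * ‖x‖)) := by gcongr
      have h4 : 0 ≤ (K : ℝ) * (2 * R + 3) ^ 2 := by positivity
      linarith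
    · push Not at hx
      have h1 := hP.2.2.2.2.2.2.2.1 _ K hK x
      have h2 : ‖gradient (fP ρ) x‖ * (1 + ‖x‖) ^ 2 ≤ K * (2 * R + 3) ^ 2 :=
        mul_le_mul h1 (pow_le_pow_left₀ (by positivity) (by linarith) 2) (by positivity)
          (by positivity)
      linarith
  have hm := hP.2.2.2.2.2.2.1 (fP ρ)
  rw [memLp_two_iff_integrable_sq_norm hm.aestronglyMeasurable]
  have hi : Integrable (fun x : ℂ => (1 + ‖x‖) ^ (-(4 : ℝ))) :=
    integrable_one_add_norm (by rw [Complex.finrank_real_complex]; norm_num)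
  refine (hi.const_mul (C ^ 2)).mono' (hm.norm.pow_const 2).aestronglyMeasurable
    (ae_of_all _ fun x => ?_)
  have hn := norm_nonneg x
  rw [Real.norm_eq_abs, abs_of_nonneg (by positivity), Real.rpow_neg (by positivity)]
  have : (1 + ‖x‖) ^ (4 : ℝ) = ((1 + ‖x‖) ^ 2) ^ 2 := by
    rw [← pow_mul]; exact_mod_cast Real.rpow_natCast (1 + ‖x‖) 4
  rw [this, ← inv_pow, ← mul_pow]
  gcongr
  exact hb x

lemma Ld_diff {δ : ℝ} (hδ : 0 < δ) : ∀ᵐ z : ℂ, DifferentiableAt ℝ (Ld δ) z :=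
  (Ld_lipW hδ).ae_differentiableAt

lemma Rho.fL_deriv (h : Rho ρ B R) {δ : ℝ} (hδ : 0 < δ) (x : ℂ) :
    Integrable (fun y => ρ y • fderiv ℝ (Ld δ) (x - y)) ∧
    HasFDerivAt (fL ρ δ) (∫ y, ρ y • fderiv ℝ (Ld δ) (x - y)) x := by
  refine hasFDerivAt_integral_of_dominated_loc_of_lip' (s := univ)
    (F := fun x y => Ld δ (x - y) * ρ y) (bound := fun y => δ⁻¹ * |ρ y|) univ_mem
    (fun x _ => (h.Ldint hδ x).aestronglyMeasurable) (h.Ldint hδ x) ?_ ?_
    (h.int.abs.const_mul _) ?_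
  · exact (h.meas.smul ((measurable_fderiv ℝ (Ld δ)).comp
      (measurable_const.sub measurable_id))).aestronglyMeasurable
  · refine ae_of_all _ fun y x' _ => ?_
    have h3 := Ld_lip hδ (x' - y) (x - y)
    rw [sub_sub_sub_cancel_right] at h3
    rw [← sub_mul, norm_mul, Real.norm_eq_abs, Real.norm_eq_abs]
    calc _ ≤ (δ⁻¹ * ‖x' - x‖) * |ρ y| := by gcongr
      _ = _ := by ring
  · have := (Measure.measurePreserving_sub_left (volume : Measure ℂ) x).quasiMeasurePreserving.ae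
      (Ld_diff hδ)
    filter_upwards [this] with y hy
    have h1 : HasFDerivAt (fun x => Ld δ (x - y)) (fderiv ℝ (Ld δ) (x - y)) x := by
      have h2 := hy.hasFDerivAt.comp x ((hasFDerivAt_id x).sub_const y)
      rw [ContinuousLinearMap.comp_id] at h2
      exact h2
    exact h1.mul_const (ρ y)

lemma grad_int (hP : St_P1) {φ : ℂ → ℝ} (hφ : LipC φ) : Integrable (gradient φ) := by
  obtain ⟨⟨K, hK⟩, hc⟩ := hφ
  have h1 : IntegrableOn (gradient φ) (tsupport φ) :=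
    Measure.integrableOn_of_bounded (M := K) hc.isCompact.measure_lt_top.ne
      (hP.2.2.2.2.2.2.1 φ).aestronglyMeasurable
      (ae_of_all _ fun x => hP.2.2.2.2.2.2.2.1 φ K hK x)
  refine (integrableOn_iff_integrable_of_support_subset ?_).1 h1
  intro x hx
  refine support_fderiv_subset ℝ (f := φ) ?_
  intro hc
  exact hx (by simp [gradient, hc])

lemma circ_near (hF : St_FE) {φ : ℂ → ℝ} {K : ℝ≥0} (hK : LipschitzWith K φ) (y : ℂ) {δ : ℝ}
    (hδ : 0 < δ) : |∫ x, φ x ∂circ y δ - φ y| ≤ K * δ := by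
  obtain ⟨⟨-, hp⟩, hs, -⟩ := hF.2.2.2.2.2.2.2.2.1 y δ hδ
  have hb : ∀ᵐ x ∂circ y δ, ‖φ x - φ y‖ ≤ K * δ := by
    have : ∀ᵐ x ∂circ y δ, x ∈ sphere y δ := hs
    filter_upwards [this] with x hx
    have := hK.dist_le_mul x y
    rwa [mem_sphere.1 hx, Real.dist_eq] at this
  have hi : Integrable (fun x => φ x - φ y) (circ y δ) :=
    (integrable_const (K * δ : ℝ)).mono'
      (hK.continuous.sub continuous_const).aestronglyMeasurable hb
  have hi' : Integrable φ (circ y δ) := by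
    refine (hi.add (integrable_const (φ y))).congr (ae_of_all _ fun x => ?_)
    simp
  have := norm_integral_le_of_norm_le_const hb
  rw [integral_sub hi' (integrable_const _)] at this
  simpa using this

lemma Rho.pairL (h : Rho ρ B R) (hP : St_P1) (hP2 : St_P2) {φ : ℂ → ℝ} (hφ : LipC φ) {δ : ℝ}
    (hδ : 0 < δ) :
    Integrable (fun x => fderiv ℝ (fL ρ δ) x (gradient φ x)) ∧
    Integrable (fun y => ρ y * ∫ x, φ x ∂circ y δ) ∧
    ∫ x, fderiv ℝ (fL ρ δ) x (gradient φ x) =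
      -(2 * Real.pi) * ∫ y, ρ y * ∫ x, φ x ∂circ y δ := by
  have hg := grad_int hP hφ
  have hI : Integrable (Function.uncurry fun x y : ℂ =>
      ρ y * ⟪gradient (Ld δ) (x - y), gradient φ x⟫) (volume.prod volume) := by
    refine ((hg.norm.const_mul δ⁻¹).mul_prod h.int.abs).mono' ?_ (ae_of_all _ fun p => ?_)
    · have m1 := hP.2.2.2.2.2.2.1 (Ld δ)
      have m2 := hP.2.2.2.2.2.2.1 φ
      exact ((h.meas.comp measurable_snd).mul ((m1.comp (measurable_fst.sub measurable_snd)).inner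
        (m2.comp measurable_fst))).aestronglyMeasurable
    · have h1 := hP.2.2.2.2.2.2.2.1 _ _ (Ld_lipW hδ) (p.1 - p.2)
      rw [Real.coe_toNNReal _ (inv_nonneg.2 hδ.le)] at h1
      have h2 := norm_inner_le_norm (𝕜 := ℝ) (gradient (Ld δ) (p.1 - p.2)) (gradient φ p.1)
      simp only [Function.uncurry]
      rw [norm_mul, mul_comm, Real.norm_eq_abs (ρ p.2)]
      gcongr
      exact h2.trans (by gcongr)
  have e1 : ∀ x, fderiv ℝ (fL ρ δ) x (gradient φ x) =
      ∫ y, ρ y * ⟪gradient (Ld δ) (x - y), gradient φ x⟫ := by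
    intro x
    obtain ⟨i1, d1⟩ := h.fL_deriv hδ x
    rw [d1.fderiv, ContinuousLinearMap.integral_apply i1]
    simp only [inner_grad, smul_apply, smul_eq_mul]
  have e2 : ∀ y, ∫ x, ρ y * ⟪gradient (Ld δ) (x - y), gradient φ x⟫ =
      -(2 * Real.pi) * (ρ y * ∫ x, φ x ∂circ y δ) := by
    intro y
    have h1 := hP2.1 y δ φ hδ hφ
    have h2 : ∀ x, gradient (fun x : ℂ => Real.log (max ‖x - y‖ δ)) x =
        gradient (Ld δ) (x - y) := by
      intro x
      unfold gradient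
      rw [← fderiv_comp_sub y]; rfl
    simp only [h2] at h1
    rw [integral_const_mul, h1]; ring
  have i2 := hI.integral_prod_right
  have i1 := hI.integral_prod_left
  simp only [Function.uncurry] at i1 i2
  simp only [e2] at i2
  simp only [e1]
  refine ⟨i1, ?_, ?_⟩
  · have := i2.const_mul (-(2 * Real.pi))⁻¹
    refine this.congr (ae_of_all _ fun y => ?_)
    have := Real.pi_pos
    field_simp
  · rw [integral_integral_swap hI]
    simp only [e2]
    rw [integral_const_mul]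

lemma Rho.pair (h : Rho ρ B R) (hP : St_P1) (hP2 : St_P2) (hF : St_FE) (hE : St_EXP1)
    {φ : ℂ → ℝ} (hφ : LipC φ) :
    ∫ x, ⟪gradient (fP ρ) x, gradient φ x⟫ = 2 * Real.pi * ∫ y, φ y * ρ y := by
  have hg := grad_int hP hφ
  obtain ⟨K, hK⟩ := hφ.1
  have hB := h.B0
  have hpi := Real.pi_pos
  set V := (volume : Measure ℂ).real (ball 0 1) with hV
  have hV0 : 0 ≤ V := measureReal_nonneg
  set D : ℝ := 4 * B * V * (∫ x, ‖gradient φ x‖) + 2 * Real.pi * (K * ∫ y, |ρ y|) with hD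
  have key : ∀ δ > 0, |(∫ x, ⟪gradient (fP ρ) x, gradient φ x⟫) - 2 * Real.pi * ∫ y, φ y * ρ y|
      ≤ D * δ := by
    intro δ hδ
    obtain ⟨i1, i2, e1⟩ := h.pairL hP hP2 hφ hδ
    have hH := h.fH_lip hE hδ
    have b1 : ∀ x, ‖⟪gradient (fH ρ δ) x, gradient φ x⟫‖ ≤ 4 * B * V * δ * ‖gradient φ x‖ := by
      intro x
      have h1 := hP.2.2.2.2.2.2.2.1 _ _ hH x
      rw [Real.coe_toNNReal _ (by positivity)] at h1
      exact (norm_inner_le_norm _ _).trans (by gcongr)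
    have i3 : Integrable fun x => ⟪gradient (fH ρ δ) x, gradient φ x⟫ :=
      (hg.norm.const_mul _).mono'
        ((hP.2.2.2.2.2.2.1 _).inner (hP.2.2.2.2.2.2.1 _)).aestronglyMeasurable (ae_of_all _ b1)
    have e2 : ∫ x, ⟪gradient (fP ρ) x, gradient φ x⟫ =
        -(∫ x, fderiv ℝ (fL ρ δ) x (gradient φ x)) - ∫ x, ⟪gradient (fH ρ δ) x, gradient φ x⟫ := by
      rw [← integral_neg, ← integral_sub (f := fun x => -fderiv ℝ (fL ρ δ) x (gradient φ x))
        i1.neg i3]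
      refine integral_congr_ae ?_
      filter_upwards [hH.ae_differentiableAt (μ := volume)] with x hx
      have d1 := (h.fL_deriv hδ x).2.differentiableAt
      rw [inner_grad, inner_grad, h.split hE hδ, fderiv_neg, fderiv_add d1 hx]
      simp
      ring
    have b2 := norm_integral_le_of_norm_le (hg.norm.const_mul _) (ae_of_all _ b1)
    rw [integral_const_mul, Real.norm_eq_abs] at b2
    have i4 := h.contint hK.continuous
    have b3 : ‖∫ y, (ρ y * (∫ x, φ x ∂circ y δ) - φ y * ρ y)‖ ≤ ∫ y, (K * δ) * |ρ y| := by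
      refine norm_integral_le_of_norm_le (h.int.abs.const_mul _) (ae_of_all _ fun y => ?_)
      rw [mul_comm (ρ y), ← sub_mul, norm_mul, Real.norm_eq_abs, Real.norm_eq_abs]
      gcongr
      exact circ_near hF hK y hδ
    rw [integral_sub i2 i4, integral_const_mul, Real.norm_eq_abs] at b3
    rw [e2, e1]
    have b4 := mul_le_mul_of_nonneg_left b3 (by positivity : 0 ≤ 2 * Real.pi)
    rw [← abs_of_pos (by positivity : 0 < 2 * Real.pi), ← abs_mul,
      abs_of_pos (by positivity : 0 < 2 * Real.pi)] at b4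
    rw [abs_le] at b2 b4 ⊢
    rw [hD]
    constructor <;> nlinarith [b2.1, b2.2, b4.1, b4.2]
  have t : Tendsto (fun δ : ℝ => D * δ) (𝓝[>] 0) (𝓝 (D * 0)) :=
    ((continuous_const.mul continuous_id).tendsto 0).mono_left nhdsWithin_le_nhds
  rw [mul_zero] at t
  have := ge_of_tendsto t (eventually_nhdsWithin_of_forall key)
  exact sub_eq_zero.1 (abs_nonpos_iff.1 this)

lemma Rho.neg (h : Rho ρ B R) : Rho (fun x => -ρ x) B R :=
  ⟨h.meas.neg, fun x => by simpa using h.bd x, h.pos, fun x hx => by simp [h.supp x hx]⟩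

lemma Rho.fe (h : Rho ρ B R) (hF : St_FE) :
    FE (volume.withDensity fun x => ENNReal.ofReal (ρ x)) :=
  hF.2.2.2.2.2.2.2.2.2.1 _ h.meas.ennreal_ofReal
    ⟨ENNReal.ofReal B, ENNReal.ofReal_ne_top, fun x =>
      ENNReal.ofReal_le_ofReal ((le_abs_self _).trans (h.bd x))⟩
    ⟨R, fun x hx => by simp [h.supp x hx]⟩

lemma Rho.pos_part (h : Rho ρ B R) : Rho (fun x => max (ρ x) 0) B R :=
  ⟨h.meas.max measurable_const, fun x => by
    rw [abs_of_nonneg (le_max_right _ _)]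
    exact max_le ((le_abs_self _).trans (h.bd x)) h.B0, h.pos, fun x hx => by simp [h.supp x hx]⟩

lemma Rho.wint (h : Rho ρ B R) (φ : ℂ → ℝ) :
    ∫ x, φ x ∂(volume.withDensity fun x => ENNReal.ofReal (ρ x)) = ∫ x, φ x * max (ρ x) 0 := by
  rw [integral_withDensity_eq_integral_toReal_smul h.meas.ennreal_ofReal
    (ae_of_all _ fun _ => ENNReal.ofReal_lt_top)]
  simp [ENNReal.toReal_ofReal', mul_comm]

lemma Rho.wdiff (h : Rho ρ B R) {φ : ℂ → ℝ} (hφ : Continuous φ) :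
    ∫ x, φ x ∂(volume.withDensity fun x => ENNReal.ofReal (ρ x)) -
      ∫ x, φ x ∂(volume.withDensity fun x => ENNReal.ofReal (-ρ x)) = ∫ x, φ x * ρ x := by
  rw [h.wint, h.neg.wint, ← integral_sub (h.pos_part.contint hφ) (h.neg.pos_part.contint hφ)]
  congr 1; funext x
  rw [← mul_sub, max_zero_sub_max_neg_zero_eq_self]

end GR

open GR in
theorem blk_GR (hP : St_P1) (hP2 : St_P2) (hF : St_FE) (hE : St_EXP1) (_hM : St_MOD) :
    St_GR := by
  rintro ρ hm ⟨B, hB⟩ ⟨r, hr⟩ h0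
  have h : Rho ρ B (max r 1) :=
    ⟨hm, hB, lt_max_of_lt_right one_pos, fun x hx => hr x ((le_max_left _ _).trans_lt hx)⟩
  have hL := h.lipE hP hE h0
  obtain ⟨C, hC⟩ := h.decay hE h0
  refine ⟨hL, ⟨C, hC⟩, fun M => ?_⟩
  have f1 := h.fe hF
  have f2 := h.neg.fe hF
  have hmass : (volume.withDensity fun x => ENNReal.ofReal (ρ x)) univ =
      (volume.withDensity fun x => ENNReal.ofReal (-ρ x)) univ := by
    have := h.wdiff (φ := fun _ => 1) continuous_const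
    simp only [integral_const, smul_eq_mul, mul_one, one_mul, h0, sub_eq_zero] at this
    have := f1.fin
    have := f2.fin
    rwa [measureReal_def, measureReal_def, ENNReal.toReal_eq_toReal_iff' (measure_ne_top _ _)
      (measure_ne_top _ _)] at *
  obtain ⟨W, hW⟩ := hP.2.2.2.2.2.2.2.2.2.1
  obtain ⟨φ, hφ, -, -, ht⟩ := hP.2.2.2.2.2.2.2.2.1 (fP ρ) 0 C hL (by simpa using hC)
  have m1 : gr (fP ρ) ∈ W := by
    rw [← SetLike.mem_coe, hW]
    exact mem_closure_of_tendsto ht (Eventually.of_forall fun n => ⟨φ n, hφ n, rfl⟩)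
  have m2 := M.ezc _ _ f1 f2 hmass
  rw [← hW] at m2
  have m3 := W.sub_mem m2 m1
  rw [← SetLike.mem_coe, hW] at m3
  have := hP.2.2.2.2.2.2.2.2.2.2 _ m3 0 le_rfl fun ψ hψ => by
    obtain ⟨K, hK⟩ := hψ.1
    rw [inner_sub_left, M.ezg _ _ ψ f1 f2 hmass hψ, h.wdiff hK.continuous,
      (hP.2.2.2.2.1 _ _ hL (hP.1 ψ hψ)).2, h.pair hP hP2 hF hE hψ]
    have := Real.pi_pos
    field_simp
    simp
  exact sub_eq_zero.1 (norm_le_zero_iff.1 this)

end

end Pool.Agent.Lib.APPS
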