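import Pool.Agent.Lib.APPS.Blue2

/-!
Block GV: Green function of the circle averages around all squares.
-/

namespace Pool.Agent.Lib.APPS

open MeasureTheory ProbabilityTheory Filter Topology Set Metric
open scoped NNReal ENNReal RealInnerProductSpace Classical

noncomputable section

namespace GV

theorem levs (hT1 : St_T1) (n0 : ℕ) (F : Dy → ℝ≥0∞) :
    ∑' V : Dy, ind (n0 ≤ V.length) * F V = ∑' j : ℕ, ∑ V ∈ lev (n0 + j), F V := by
  have h1 : ∀ V : Dy, ind (n0 ≤ V.length) * F V = ∑' j : ℕ, ind (V.length = n0 + j) * F V := by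
    intro V
    by_cases h : n0 ≤ V.length
    · rw [tsum_eq_single (V.length - n0)]
      · have : V.length = n0 + (V.length - n0) := by omega
        simp only [ind, if_pos h, if_pos this]
      · intro j hj
        have : ¬V.length = n0 + j := by omega
        simp [ind, this]
    · have : ∀ j : ℕ, ¬V.length = n0 + j := fun j => by omega
      simp [ind, h, this]
  simp_rw [h1]
  rw [ENNReal.tsum_comm]
  refine tsum_congr fun j => ?_
  rw [tsum_eq_sum (s := lev (n0 + j))]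
  · refine Finset.sum_congr rfl fun V hV => ?_
    simp [ind, (hT1.1 _ V).1 hV]
  · intro V hV
    have : ¬V.length = n0 + j := fun h => hV ((hT1.1 _ V).2 h)
    simp [ind, this]

theorem l2_pos : 0 < l2 := Real.log_pos (by norm_num)

theorem pd_nonneg (v t : ℝ) : 0 ≤ pd v t := by unfold pd; positivity

theorem pd_neg (v t : ℝ) : pd v (-t) = pd v t := by unfold pd; rw [neg_sq]

theorem pd_meas (v c : ℝ) : Measurable fun y : ℝ => ENNReal.ofReal (pd v (y + c)) := by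
  unfold pd
  fun_prop

theorem eE_meas : Measurable eE := Real.measurable_exp.ennreal_ofReal

theorem side4 {V : Dy} {k : ℕ} (hV : V.length = k + 2) : 4 * side V = (1 / 2 : ℝ) ^ k := by
  rw [side, hV, pow_add]; ring

theorem YV_eq (M : Model) (γ u : ℝ) {V : Dy} {k : ℕ} (hV : V.length = k + 2) (ω : Om) :
    M.YV γ u V ω = ω (M.eC (ctr V) (4 * side V)) + (u - QQ γ * k * l2) := by
  rw [Model.YV, Model.Y, side4 hV, Real.log_pow, one_div, Real.log_inv, l2]
  ring

theorem nrm (hMOD : St_MOD) (hGEO1 : St_GEO1) (M : Model) {i0 : ℕ} (hM : M.Ok i0) {V : Dy}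
    {k : ℕ} (hk : i0 ≤ k) (hV : V.length = k + 2) :
    ‖M.eC (ctr V) (4 * side V)‖ ^ 2 = M.C0 + k * l2 := by
  obtain ⟨-, -, -, -, -, -, -, -, -, -, h11, -⟩ := hMOD M
  have hc : ctr V ∈ box [] :=
    (hGEO1.2.2.2.2.1 V []).2 List.nil_suffix (hGEO1.2.2.2.1 V).2.2.1
  have hsub : closedBall (ctr V) ((1 / 2 : ℝ) ^ k) ⊆ M.O :=
    (closedBall_subset_closedBall
      (pow_le_pow_of_le_one (by norm_num) (by norm_num) hk)).trans (hM.1 _ hc)
  rw [side4 hV, ← real_inner_self_eq_norm_sq, h11 _ _ _ (by positivity) le_rfl hsub,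
    Real.log_pow, one_div, Real.log_inv, l2]
  ring

theorem law (hG1D : St_G1D) (hMOD : St_MOD) (hGEO1 : St_GEO1) (M : Model) {i0 : ℕ}
    (hM : M.Ok i0) (γ u : ℝ) {V : Dy} {k : ℕ} (hk : i0 ≤ k) (hV : V.length = k + 2)
    (f : ℝ → ℝ≥0∞) (hf : Measurable f) :
    ∫⁻ ω, f (M.YV γ u V ω) ∂gm =
      ∫⁻ y, ENNReal.ofReal (pd (M.C0 + k * l2) (y - u + QQ γ * k * l2)) * f y := by
  have hn := nrm hMOD hGEO1 M hM hk hV
  have hk' : (i0 : ℝ) ≤ k := by exact_mod_cast hk
  have hpos : 0 < M.C0 + k * l2 := by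
    have := hM.2
    nlinarith [l2_pos]
  have hne : M.eC (ctr V) (4 * side V) ≠ 0 := by
    intro h
    rw [h, norm_zero] at hn
    nlinarith
  simp_rw [YV_eq M γ u hV]
  rw [hG1D.2.2.2.1 _ (fun t => f (t + (u - QQ γ * k * l2))) hne (hf.comp (by fun_prop)), hn,
    ← lintegral_add_right_eq_self _ (-(u - QQ γ * k * l2))]
  refine lintegral_congr fun y => ?_
  congr 3
  · ring
  · ring

theorem mix (hG2 : St_G2) (M : Model) (γ u : ℝ) {V : Dy} {k : ℕ} (hV : V.length = k + 2)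
    (Ψ : ℝ × Om → ℝ≥0∞) (hΨ : Measurable Ψ)
    (hI : ∀ y, InvD (M.eC (ctr V) (4 * side V)) fun ω => Ψ (y, ω)) :
    ∫⁻ ω, Ψ (M.YV γ u V ω, ω) ∂gm = ∫⁻ ω', ∫⁻ ω, Ψ (M.YV γ u V ω', ω) ∂gm ∂gm := by
  simp_rw [YV_eq M γ u hV]
  exact hG2.2.2.2 Unit (fun _ => M.eC (ctr V) (4 * side V))
    (fun p => Ψ (p.1 () + (u - QQ γ * k * l2), p.2)) (hΨ.comp (by fun_prop))
    fun t _ => hI (t () + (u - QQ γ * k * l2))

theorem key (hRW1 : St_RW1) {γ : ℝ} (hγ : γ ∈ Ioo (0 : ℝ) 2) (C u y : ℝ) (i0 j : ℕ) :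
    4 ^ (i0 + j + 2) * pd (C + (i0 + j : ℕ) * l2) (y - u + QQ γ * (i0 + j : ℕ) * l2) =
      16 * Real.exp (8 * C / γ ^ 2) * Real.exp (4 / γ * (u - y)) *
        pd (C + i0 * l2 + j * l2) (y - u - 4 / γ * C - aa γ * i0 * l2 - aa γ * j * l2) := by
  have h := (hRW1.2.1 γ hγ C y u (i0 + j)).2
  rw [pow_add _ _ 2, mul_right_comm, h, Real.exp_add]
  have e1 : C + ((i0 + j : ℕ) : ℝ) * l2 = C + i0 * l2 + j * l2 := by push_cast; ring
  have e2 : y - u - 4 / γ * C - aa γ * ((i0 + j : ℕ) : ℝ) * l2 =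
      y - u - 4 / γ * C - aa γ * i0 * l2 - aa γ * j * l2 := by push_cast; ring
  rw [e1, e2]
  ring

/-- level sums as one integral -/
theorem total (hRW1 : St_RW1) {γ : ℝ} (hγ : γ ∈ Ioo (0 : ℝ) 2) (C u : ℝ) (i0 : ℕ)
    (h : ℝ → ℝ≥0∞) (hh : Measurable h) :
    ∑' j : ℕ, ENNReal.ofReal (4 ^ (i0 + j + 2)) *
      ∫⁻ y, ENNReal.ofReal (pd (C + (i0 + j : ℕ) * l2) (y - u + QQ γ * (i0 + j : ℕ) * l2)) * h y =
    ENNReal.ofReal (16 * Real.exp (8 * C / γ ^ 2)) * ∫⁻ y, h y * eE (4 / γ * (u - y)) *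
      ∑' j : ℕ, ENNReal.ofReal
        (pd (C + i0 * l2 + j * l2) (y - u - 4 / γ * C - aa γ * i0 * l2 - aa γ * j * l2)) := by
  have hm : ∀ j : ℕ, Measurable fun y : ℝ => h y * eE (4 / γ * (u - y)) * ENNReal.ofReal
      (pd (C + i0 * l2 + j * l2) (y - u - 4 / γ * C - aa γ * i0 * l2 - aa γ * j * l2)) := by
    intro j
    refine (hh.mul (eE_meas.comp (by fun_prop))).mul ?_
    have := pd_meas (C + i0 * l2 + j * l2) (-u - 4 / γ * C - aa γ * i0 * l2 - aa γ * j * l2)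
    convert this using 4
    ring
  simp_rw [← ENNReal.tsum_mul_left]
  rw [lintegral_tsum fun j => (hm j).aemeasurable, ← ENNReal.tsum_mul_left]
  refine tsum_congr fun j => ?_
  rw [← lintegral_const_mul' _ _ ENNReal.ofReal_ne_top,
    ← lintegral_const_mul' _ _ ENNReal.ofReal_ne_top]
  refine lintegral_congr fun y => ?_
  rw [← mul_assoc, ← ENNReal.ofReal_mul (by positivity), key hRW1 hγ,
    ENNReal.ofReal_mul (by positivity), ENNReal.ofReal_mul (by positivity), eE]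
  ring

end GV

open GV in
theorem blk_GV (_hG1 : St_G1) (hG1D : St_G1D) (hG2 : St_G2) (hMOD : St_MOD) (_hFE : St_FE)
    (hGEO1 : St_GEO1) (hT1 : St_T1) (hT3 : St_T3) (hRW1 : St_RW1) (hRW6 : St_RW6)
    (_hTL : St_TL) : St_GV := by
  intro γ hγ M i0 hM
  have ha : 0 < aa γ := (hRW1.2.2 γ hγ).1
  constructor
  · obtain ⟨C, hC⟩ := hRW1.1 (aa γ) ha 1 one_pos
    refine ⟨16 * Real.exp (8 * M.C0 / γ ^ 2) * max C 0, ?_⟩
    intro u ζ 𝓥 Ψ h hζ hcard hΨ hh hI hb
    have e0 : ∀ V : Dy, ind (i0 + 2 ≤ V.length ∧ 𝓥 V) * ∫⁻ ω, Ψ V (M.YV γ u V ω, ω) ∂gm =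
        ind (i0 + 2 ≤ V.length) * (ind (𝓥 V) * ∫⁻ ω, Ψ V (M.YV γ u V ω, ω) ∂gm) := by
      intro V
      by_cases h1 : i0 + 2 ≤ V.length <;> by_cases h2 : 𝓥 V <;> simp [ind, h1, h2]
    simp_rw [e0]
    rw [levs hT1]
    have hlev : ∀ j : ℕ, ∑ V ∈ lev (i0 + 2 + j), ind (𝓥 V) * ∫⁻ ω, Ψ V (M.YV γ u V ω, ω) ∂gm ≤
        ENNReal.ofReal ζ * (ENNReal.ofReal (4 ^ (i0 + j + 2)) * ∫⁻ y, ENNReal.ofReal
          (pd (M.C0 + (i0 + j : ℕ) * l2) (y - u + QQ γ * (i0 + j : ℕ) * l2)) * h y) := by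
      intro j
      set I := ∫⁻ y, ENNReal.ofReal
          (pd (M.C0 + (i0 + j : ℕ) * l2) (y - u + QQ γ * (i0 + j : ℕ) * l2)) * h y with hI'
      have h1 : ∀ V ∈ lev (i0 + 2 + j), ind (𝓥 V) * ∫⁻ ω, Ψ V (M.YV γ u V ω, ω) ∂gm ≤
          if 𝓥 V then I else 0 := by
        intro V hV
        have hl : V.length = i0 + j + 2 := by rw [(hT1.1 _ V).1 hV]; ring
        by_cases h2 : 𝓥 V
        · rw [if_pos h2, ind, if_pos h2, one_mul,
            mix hG2 M γ u hl (Ψ V) (hΨ V) fun y => hI V y (by omega), hI',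
            ← law hG1D hMOD hGEO1 M hM γ u (Nat.le_add_right i0 j) hl h hh]
          exact lintegral_mono fun ω' => hb V _ (by omega) h2
        · simp [ind, h2]
      refine (Finset.sum_le_sum h1).trans ?_
      rw [← Finset.sum_filter, Finset.sum_const, nsmul_eq_mul, ← mul_assoc,
        ← ENNReal.ofReal_mul hζ]
      gcongr
      rw [← ENNReal.ofReal_natCast]
      refine ENNReal.ofReal_le_ofReal ?_
      have := hcard (i0 + 2 + j)
      rwa [show i0 + 2 + j = i0 + j + 2 by ring] at this ⊢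
    refine (ENNReal.tsum_le_tsum hlev).trans ?_
    rw [ENNReal.tsum_mul_left, total hRW1 hγ M.C0 u i0 h hh]
    have hS : ∀ y : ℝ, ∑' j : ℕ, ENNReal.ofReal (pd (M.C0 + i0 * l2 + j * l2)
        (y - u - 4 / γ * M.C0 - aa γ * i0 * l2 - aa γ * j * l2)) ≤ ENNReal.ofReal (max C 0) := by
      intro y
      have h1 := (hC (M.C0 + i0 * l2) hM.2 (-(y - u - 4 / γ * M.C0 - aa γ * i0 * l2))).1
      refine le_trans (le_of_eq (tsum_congr fun j => ?_)) (h1.trans (ENNReal.ofReal_le_ofReal ?_))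
      · rw [← pd_neg]
        congr 2
        ring
      · calc C * min 1 _ ≤ max C 0 * min 1 _ :=
              mul_le_mul_of_nonneg_right (le_max_left _ _) (le_min zero_le_one (Real.exp_pos _).le)
          _ ≤ max C 0 * 1 := mul_le_mul_of_nonneg_left (min_le_left _ _) (le_max_right _ _)
          _ = max C 0 := mul_one _
    calc _ ≤ ENNReal.ofReal ζ * (ENNReal.ofReal (16 * Real.exp (8 * M.C0 / γ ^ 2)) *
          ∫⁻ y, h y * eE (4 / γ * (u - y)) * ENNReal.ofReal (max C 0)) := by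
          gcongr with y
          exact hS y
      _ = _ := by
          rw [lintegral_mul_const' _ _ ENNReal.ofReal_ne_top,
            ENNReal.ofReal_mul (p := 16 * Real.exp (8 * M.C0 / γ ^ 2) * max C 0) (by positivity),
            ENNReal.ofReal_mul (p := 16 * Real.exp (8 * M.C0 / γ ^ 2)) (by positivity)]
          ring
  · have hl2 := l2_pos
    have hb : 0 < (aa γ * l2)⁻¹ / 2 := by positivity
    have hlim := (hRW6 (aa γ) ha (M.C0 + i0 * l2) (by linarith [hM.2])).1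
    have hev := hlim.eventually (lt_mem_nhds (show (aa γ * l2)⁻¹ / 2 < (aa γ * l2)⁻¹ by linarith))
    obtain ⟨T0, hT0⟩ := eventually_atTop.1 hev
    refine ⟨16 * Real.exp (8 * M.C0 / γ ^ 2) * (Real.exp (-(4 / γ)) * ((aa γ * l2)⁻¹ / 2)),
      by positivity, fun u => ?_⟩
    filter_upwards [eventually_ge_atTop (T0 + 1 + u + 4 / γ * M.C0 + aa γ * i0 * l2)] with m hm
    rw [levs hT1]
    have hmeas : MeasurableSet {y : ℝ | |y - m| ≤ 1} :=
      measurableSet_le (by fun_prop) measurable_const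
    have hh : Measurable fun y : ℝ => ind (|y - m| ≤ 1) :=
      (hT3.2.2.2.2.2.2.2.2.2.2.2.1 ℝ _ hmeas).1
    have hlev : ∀ j : ℕ, ∑ V ∈ lev (i0 + 2 + j), gm {ω | |M.YV γ u V ω - m| ≤ 1} =
        ENNReal.ofReal (4 ^ (i0 + j + 2)) * ∫⁻ y, ENNReal.ofReal
          (pd (M.C0 + (i0 + j : ℕ) * l2) (y - u + QQ γ * (i0 + j : ℕ) * l2)) *
            ind (|y - m| ≤ 1) := by
      intro j
      rw [Finset.sum_congr rfl (g := fun _ => ∫⁻ y, ENNReal.ofReal
          (pd (M.C0 + (i0 + j : ℕ) * l2) (y - u + QQ γ * (i0 + j : ℕ) * l2)) * ind (|y - m| ≤ 1))]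
      · rw [Finset.sum_const, nsmul_eq_mul, hT1.2.1, ← ENNReal.ofReal_natCast]
        congr 2
        push_cast
        ring
      · intro V hV
        have hl : V.length = i0 + j + 2 := by rw [(hT1.1 _ V).1 hV]; ring
        rw [← law hG1D hMOD hGEO1 M hM γ u (Nat.le_add_right i0 j) hl _ hh]
        have hY : Measurable (M.YV γ u V) := (hT3.2.2.2.2.2.2.2.2.2.2.1 M γ u).2 _ _
        rw [← lintegral_indicator_one (s := {ω | |M.YV γ u V ω - m| ≤ 1}) (hY hmeas)]
        refine lintegral_congr fun ω => ?_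
        simp [ind, indicator]
    simp_rw [hlev]
    rw [total hRW1 hγ M.C0 u i0 _ hh, mul_assoc (16 * Real.exp _),
      ENNReal.ofReal_mul (by positivity)]
    gcongr
    have hpt : ∀ y : ℝ, (Icc (m - 1) (m + 1)).indicator (fun _ => ENNReal.ofReal
        (Real.exp (-(4 / γ)) * ((aa γ * l2)⁻¹ / 2) * Real.exp (4 / γ * (u - m)))) y ≤
        ind (|y - m| ≤ 1) * eE (4 / γ * (u - y)) * ∑' j : ℕ, ENNReal.ofReal
          (pd (M.C0 + i0 * l2 + j * l2)
            (y - u - 4 / γ * M.C0 - aa γ * i0 * l2 - aa γ * j * l2)) := by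
      intro y
      by_cases hy : y ∈ Icc (m - 1) (m + 1)
      · have h1 : |y - m| ≤ 1 := abs_le.2 ⟨by linarith [hy.1], by linarith [hy.2]⟩
        have h2 := hT0 (y - u - 4 / γ * M.C0 - aa γ * i0 * l2) (by linarith [hy.1])
        have hs : Summable fun j : ℕ => pd (M.C0 + i0 * l2 + j * l2)
            (y - u - 4 / γ * M.C0 - aa γ * i0 * l2 - aa γ * j * l2) := by
          by_contra hns
          rw [tsum_eq_zero_of_not_summable hns] at h2
          linarith
        rw [indicator_of_mem hy, ind, if_pos h1, one_mul,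
          ← ENNReal.ofReal_tsum_of_nonneg (fun j => pd_nonneg _ _) hs, eE,
          ← ENNReal.ofReal_mul (by positivity)]
        refine ENNReal.ofReal_le_ofReal ?_
        have h3 : Real.exp (-(4 / γ)) * Real.exp (4 / γ * (u - m)) ≤ Real.exp (4 / γ * (u - y)) := by
          rw [← Real.exp_add]
          refine Real.exp_le_exp.2 ?_
          have : 0 < 4 / γ := by have := hγ.1; positivity
          nlinarith [hy.2]
        calc _ = Real.exp (-(4 / γ)) * Real.exp (4 / γ * (u - m)) * ((aa γ * l2)⁻¹ / 2) := by ring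
          _ ≤ _ := mul_le_mul h3 h2.le hb.le (by positivity)
      · rw [indicator_of_notMem hy]
        exact zero_le
    refine le_trans ?_ (lintegral_mono hpt)
    rw [lintegral_indicator_const measurableSet_Icc, Real.volume_Icc]
    refine le_mul_of_one_le_right' ?_
    rw [← ENNReal.ofReal_one]
    exact ENNReal.ofReal_le_ofReal (by linarith)

end

end Pool.Agent.Lib.APPS
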