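import Pool.Agent.Lib.APPS.B_H0a

/-!
Block H0: the volume outside the unit square is negligible.
-/

namespace Pool.Agent.Lib.APPS

open MeasureTheory ProbabilityTheory Filter Topology Set Metric
open scoped NNReal ENNReal RealInnerProductSpace Classical

noncomputable section

namespace H0

lemma eE_mono {s t : ℝ} (h : s ≤ t) : eE s ≤ eE t :=
  ENNReal.ofReal_le_ofReal (Real.exp_le_exp.2 h)

lemma eE_add (s t : ℝ) : eE (s + t) = eE s * eE t := by
  rw [eE, eE, eE, Real.exp_add, ENNReal.ofReal_mul (Real.exp_pos _).le]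

lemma eE_ne (s : ℝ) : eE s ≠ ∞ := ENNReal.ofReal_ne_top

lemma meas_eE : Measurable eE := ENNReal.measurable_ofReal.comp Real.measurable_exp

lemma ind_ne (p : Prop) : ind p ≠ ∞ := by
  by_cases hp : p <;> simp [ind, hp]

lemma X_add (M : Model) (γ u : ℝ) (ω ω' : Om) (W : Dy) :
    M.X γ u (ω + ω') W = M.X γ u ω W + ω' (M.eS W) := by
  simp only [Model.X, drift, LinearMap.add_apply]
  ring

lemma decomp (hT1 : St_T1) (x : Dy → ℝ) (ι : ℕ) (F : Finset Dy → ℝ≥0∞) :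
    ind (nB x = ι) * F (tr x) = ∑ T ∈ trees ι, ind (HasTr x T) * F T := by
  obtain ⟨-, -, -, t4, -, -, -, -, -, -, -, t12, t13, -⟩ := hT1
  by_cases h : nB x = ι
  · have h1 := t13 x (by rw [h]; exact ENNReal.natCast_ne_top _)
    obtain ⟨k1, -, k2, -⟩ := t12 x _ h1
    have h2 : tr x ∈ trees ι := (t4 ι _).2 ⟨k1, by rw [h] at k2; exact_mod_cast k2.symm⟩
    rw [Finset.sum_eq_single_of_mem _ h2 fun T _ hne => by
      have : ¬HasTr x T := fun k => hne (t12 x T k).2.1.symm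
      simp [ind, this]]
    simp [ind, h, h1]
  · rw [Finset.sum_eq_zero fun T hT => by
      have : ¬HasTr x T := fun k => h (by rw [(t12 x T k).2.2.1, ((t4 ι T).1 hT).2])
      simp [ind, this]]
    simp [ind, h]

lemma jensen (hT1 : St_T1) (hT3 : St_T3) (hKR : St_KR) {g : Met} {M : Model} (hL : Lnk g M)
    (γ β : ℝ) (ι : ℕ) (z : ℂ) (y : HH) (hy : ∀ B, ⟪y, M.eS B⟫ = g.U B z) :
    ∫⁻ ω, ind (nB (M.X γ 0 ω) = ι) * eE (β * M.kr g (tr (M.X γ 0 ω)) ω z) ∂gm ≤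
      ∫⁻ ω, ind (nB (M.X γ 0 ω) = ι) * eE (β * ω y) ∂gm := by
  obtain ⟨-, -, m3, -, -, -, -, -, -, -, m11, m12, -⟩ := hT3
  have hi : ∀ T, Measurable fun ω => ind (HasTr (M.X γ 0 ω) T) := fun T =>
    (m12 Om _ ((m11 M γ 0).1 (m3 T).2.1)).1
  have hTr : ∀ T ∈ trees ι, IsTr T := fun T hT => ((hT1.2.2.2.1 ι T).1 hT).1
  have e1 : ∀ ω, ind (nB (M.X γ 0 ω) = ι) * eE (β * M.kr g (tr (M.X γ 0 ω)) ω z) = _ :=
    fun ω => decomp hT1 (M.X γ 0 ω) ι fun T => eE (β * M.kr g T ω z)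
  have e2 : ∀ ω : Om, ind (nB (M.X γ 0 ω) = ι) * eE (β * ω y) = _ :=
    fun ω => decomp hT1 (M.X γ 0 ω) ι fun _ => eE (β * ω y)
  have hk : ∀ T ∈ trees ι, Measurable fun ω => M.kr g T ω z := fun T hT =>
    Measurable.of_uncurry_right (f := fun ω z => M.kr g T ω z)
      ((hKR g M hL).2.1 T (hTr T hT)).2.1
  simp only [e1, e2]
  rw [lintegral_finsetSum _ fun T hT => (hi T).fun_mul (meas_eE.fun_comp
      ((hk T hT).const_mul β)),
    lintegral_finsetSum _ fun T _ => (hi T).fun_mul (meas_eE.fun_comp ((meas_ev y).const_mul β))]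
  refine Finset.sum_le_sum fun T hT => ?_
  have hc : ConvexOn ℝ univ fun t : ℝ => Real.exp (β * t) :=
    ⟨convex_univ, fun s _ t _ a b ha hb hab => by
      have := convexOn_exp.2 (mem_univ (β * s)) (mem_univ (β * t)) ha hb hab
      simp only [smul_eq_mul] at this ⊢
      convert this using 2
      ring⟩
  have := ((hKR g M hL).2.1 T (hTr T hT)).2.2.2 γ z 0 (Submodule.zero_mem _) y
    (fun B _ => by rw [add_zero, hy]) _ hc fun t => (Real.exp_pos _).le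
  simpa only [map_zero, sub_zero, eE] using this

lemma markov {q : ℝ} (hq : 0 < q) {ι : ℕ} (hι : 1 ≤ ι) {N N' : ℝ≥0∞} (h : N ≤ N') :
    ind ((ι : ℝ≥0∞) ≤ N) ≤ ENNReal.ofReal ((ι : ℝ) ^ (-q)) * N' ^ q := by
  by_cases k : (ι : ℝ≥0∞) ≤ N
  · have hι0 : (0 : ℝ) < ι := by exact_mod_cast hι
    calc ind ((ι : ℝ≥0∞) ≤ N) = ENNReal.ofReal ((ι : ℝ) ^ (-q)) * (ι : ℝ≥0∞) ^ q := by
          rw [← ENNReal.ofReal_natCast, ENNReal.ofReal_rpow_of_pos hι0,
            ← ENNReal.ofReal_mul (by positivity), ← Real.rpow_add hι0]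
          simp [ind, k]
      _ ≤ _ := by
          gcongr
          exact k.trans h
  · simp [ind, k]

lemma tilt (hG2 : St_G2) (hMOD : St_MOD) (hT1 : St_T1) (hT3 : St_T3) (hMB : St_MBb)
    {γ : ℝ} (hγ : γ ∈ Ioo (0 : ℝ) 2) {β q : ℝ} (hβ : 0 ≤ β) (hq : 0 < q) (hq1 : q < 4 / γ ^ 2)
    (hq2 : γ * q < 2 * (QQ γ - β)) {M : Model} (hM : box [] ⊆ M.O) (C : ℝ) :
    ∃ K : ℝ, 0 ≤ K ∧ ∀ ι : ℕ, 1 ≤ ι → ∀ (z : ℂ) (y : HH), (∀ A, ⟪y, M.eS A⟫ ≤ C + ins 1 z A) →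
      ∫⁻ ω, ind ((ι : ℝ≥0∞) ≤ nB (sh (M.X γ 0 ω) 1)) * eE (β * ω y) ∂gm ≤
        ENNReal.ofReal (K * (ι : ℝ) ^ (-q)) * eE (β ^ 2 * ‖y‖ ^ 2) := by
  have hgr : Gram M.eS (covE M.C0) := by simpa using (hMOD M).2.2.2.2.2.2.1 [] hM
  have hmon : ∀ x y, (∀ S, x S ≤ y S) → nB x ≤ nB y := hT1.2.2.2.2.2.2.2.2.2.2.2.2.2.2.2.1
  obtain ⟨m1, -, -, -, -, m6, -, -, -, -, m11, m12, -⟩ := hT3
  obtain ⟨K, hK⟩ := hMB γ hγ β q M.C0 hβ hq hq1 hq2
  refine ⟨|K| * Real.exp (γ * q * (1 + β * C)), by positivity, fun ι hι z y hy => ?_⟩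
  have hf : Measurable fun ω => ind ((ι : ℝ≥0∞) ≤ nB (sh (M.X γ 0 ω) 1)) :=
    (m12 Om _ (measurableSet_le measurable_const
      (m1.comp (m6.comp ((m11 M γ 0).1.prodMk measurable_const))))).1
  have hn : ‖β • y‖ ^ 2 = β ^ 2 * ‖y‖ ^ 2 := by
    rw [norm_smul, mul_pow, Real.norm_eq_abs, sq_abs]
  calc _ ≤ ∫⁻ ω, eE (β ^ 2 * ‖y‖ ^ 2) * (ind ((ι : ℝ≥0∞) ≤ nB (sh (M.X γ 0 ω) 1)) *
          eE (ω (β • y) - ‖β • y‖ ^ 2 / 2)) ∂gm := by
        refine lintegral_mono fun ω => ?_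
        rw [mul_left_comm, ← eE_add]
        gcongr
        refine eE_mono ?_
        rw [hn, map_smul, smul_eq_mul]
        have : 0 ≤ β ^ 2 * ‖y‖ ^ 2 := by positivity
        linarith
    _ = eE (β ^ 2 * ‖y‖ ^ 2) *
          ∫⁻ ω, ind ((ι : ℝ≥0∞) ≤ nB (sh (M.X γ 0 (ω + dv (β • y))) 1)) ∂gm := by
        rw [lintegral_const_mul' _ _ (eE_ne _), hG2.2.1 _ _ hf]
    _ ≤ eE (β ^ 2 * ‖y‖ ^ 2) * ∫⁻ ω, ENNReal.ofReal ((ι : ℝ) ^ (-q)) *
          nB (fun A => drift (QQ γ) (fun S => ω (M.eS S)) (1 + β * C) A + β * ins 1 z A) ^ q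
            ∂gm := by
        gcongr with ω
        refine markov hq hι (hmon _ _ fun S => ?_)
        have := mul_le_mul_of_nonneg_left (hy S) hβ
        rw [sh, X_add, dv_apply, real_inner_smul_left]
        simp only [Model.X, drift]
        linarith
    _ ≤ _ := by
        rw [lintegral_const_mul' _ _ ENNReal.ofReal_ne_top, mul_comm]
        gcongr
        refine (mul_le_mul_right (hK M.C0 le_rfl M.eS hgr _ z) _).trans ?_
        rw [← ENNReal.ofReal_mul (by positivity), mul_comm]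
        gcongr
        exact le_abs_self K

lemma point (hG1D : St_G1D) (hG2 : St_G2) (hMOD : St_MOD) (hE : St_EXP2) (hG : St_GEO1)
    (hT1 : St_T1) (hT3 : St_T3) (hMB : St_MBb) (hU : St_U) (hKR : St_KR)
    {γ : ℝ} (hγ : γ ∈ Ioo (0 : ℝ) 2) {β q : ℝ} (hβ : 0 ≤ β) (hq : 0 < q) (hq1 : q < 4 / γ ^ 2)
    (hq2 : γ * q < 2 * (QQ γ - β)) {g : Met} {M : Model} (hL : Lnk g M) {φ : ℂ → ℝ}
    (hφ : IsPsi M φ) (C : ℝ) :
    ∃ K : ℝ, 0 ≤ K ∧ ∀ᶠ ι : ℕ in atTop, ∀ z y, YOk g M φ C z y →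
      ∫⁻ ω, ind (nB (M.X γ 0 ω) = ι) * eE (β * M.kr g (tr (M.X γ 0 ω)) ω z) ∂gm ≤
        ENNReal.ofReal (K * (ι : ℝ) ^ (-(q + 1)) + Real.exp (-3 * ι)) * eE (β ^ 2 * ‖y‖ ^ 2) := by
  obtain ⟨C', hC'⟩ := U_le hE hG hL
  obtain ⟨K1, hK10, hK1⟩ := tilt hG2 hMOD hT1 hT3 hMB hγ hβ hq hq1 hq2 hL.sub C'
  obtain ⟨L, K, ι0, -, hK, hU⟩ := hU γ hγ M hL.sub φ hφ (2 / 3) (by norm_num)
  obtain ⟨-, -, t3, t4, -⟩ := id hT1
  refine ⟨K * Real.exp (β * C) * K1, by positivity, ?_⟩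
  filter_upwards [eventually_ge_atTop ι0, eventually_ge_atTop 1] with ι hι hι1 z y hy
  have hι0 : (0 : ℝ) < ι := by exact_mod_cast hι1
  have hm : Measurable fun ω : Om => eE (β * ω y) :=
    meas_eE.fun_comp ((meas_ev y).const_mul β)
  refine (jensen hT1 hT3 hKR hL γ β ι z y hy.eS).trans ?_
  refine (hU ι hι two (fun _ ω => eE (β * ω y)) (fun ω => eE (β * C) * eE (β * ω y))
    (eE (β ^ 2 * ‖y‖ ^ 2)) (fun T hT => ⟨subset_rfl, ?_⟩) (fun _ => hm) (hm.const_mul _)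
    (fun T _ ω s t hs _ _ _ => ?_) fun T _ => ?_).trans ?_
  · obtain ⟨k1, k2⟩ := (t4 ι T).1 hT
    have k3 : (2 : ℝ) * ι ≤ 3 * (two T).card := by
      rw [← k2]
      exact_mod_cast (t3 T k1).2
    linarith
  · rw [← eE_add]
    refine eE_mono ?_
    have k1 : ∀ P, ⟪M.vp T P, y⟫ = 0 := fun P => by
      rw [Model.vp, inner_sub_left, hy.ub, hy.ub, sub_zero]
    simp only [LinearMap.add_apply, LinearMap.smul_apply, LinearMap.sum_apply, dv_apply,
      smul_eq_mul, k1, mul_zero, Finset.sum_const_zero, add_zero]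
    have k2 : s * ⟪gr φ, y⟫ ≤ C := by
      refine (le_abs_self _).trans ?_
      rw [abs_mul]
      exact (mul_le_of_le_one_left (abs_nonneg _) hs).trans hy.psi
    nlinarith
  · have k1 := hG1D.1 ((2 * β) • y)
    refine le_of_eq ?_
    have k2 : ∀ ω : Om, eE (β * ω y) ^ 2 = eE (ω ((2 * β) • y)) := fun ω => by
      rw [pow_two, ← eE_add, map_smul, smul_eq_mul]
      congr 1
      ring
    simp only [k2]
    rw [k1, pow_two (eE _), ← eE_add, norm_smul, mul_pow, Real.norm_eq_abs, sq_abs]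
    congr 1
    ring
  · simp only [mul_left_comm _ (eE (β * C))]
    rw [lintegral_const_mul' _ _ (eE_ne _), ENNReal.ofReal_add (by positivity) (by positivity),
      add_mul]
    refine add_le_add ?_ le_rfl
    refine (mul_le_mul_right (mul_le_mul_right
      (hK1 ι hι1 z y fun A => by rw [hy.eS]; exact hC' z A) _) _).trans (le_of_eq ?_)
    rw [← mul_assoc, ← mul_assoc, eE, ← ENNReal.ofReal_mul (by positivity),
      ← ENNReal.ofReal_mul (by positivity)]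
    congr 2
    rw [neg_add, Real.rpow_add hι0, Real.rpow_neg_one]
    field_simp

end H0

open H0 in
theorem blk_H0 (hG1 : St_G1) (hG1D : St_G1D) (hG2 : St_G2) (hMOD : St_MOD) (hBMP : St_BMP)
    (hFE : St_FE) (_hEXP1 : St_EXP1) (hEXP2 : St_EXP2) (hGEO1 : St_GEO1) (hT1 : St_T1)
    (hT3 : St_T3) (hRW1 : St_RW1) (hMBb : St_MBb) (hU : St_U) (hKR : St_KR) : St_H0 := by
  intro γ hγ g M hL η hη
  have : IsProbabilityMeasure gm := hG1.1
  obtain ⟨-, -, c3, c4, -, -, c7, c8, c9⟩ := hRW1.2.2 γ hγ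
  obtain ⟨φ, hφ⟩ := (hMOD M).2.2.2.2.2.2.2.2.2.2.2.2.2.2.2.1 hL.sub
  obtain ⟨C, hC⟩ := exists_Y hMOD hBMP hFE hGEO1 hL hφ
  obtain ⟨Cg, hCg⟩ := hL.grow
  set β := bt γ with hβ
  have hγ0 := hγ.1
  set ε := min (1 / 2) ((γ - β) / γ) with hε
  have hε0 : 0 < ε := lt_min (by norm_num) (div_pos (by linarith) hγ0)
  have hε1 : ε ≤ 1 / 2 := min_le_left _ _
  have hε2 : γ * ε ≤ γ - β := by
    have : ε ≤ (γ - β) / γ := min_le_right _ _
    rwa [le_div_iff₀ hγ0, mul_comm] at this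
  obtain ⟨K, hK0, hK⟩ := point hG1D hG2 hMOD hEXP2 hGEO1 hT1 hT3 hMBb hU hKR hγ c7.le
    (q := th γ + ε) (by linarith) (by unfold th; linarith)
    (by rw [mul_add, c4]; unfold aa; linarith) hL hφ C
  have hs0 : 0 ≤ β ^ 2 := by positivity
  have hs1 : β ^ 2 < 1 := by nlinarith
  have hW := W_fin hs1
  set W := ∫⁻ z : ℂ, ENNReal.ofReal (HW (β ^ 2) z.re) * ENNReal.ofReal (HW (β ^ 2) z.im) with hWd
  set D := Real.exp (2 * Cg + β ^ 2 * C) * W.toReal with hD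
  have hD0 : 0 ≤ D := by positivity
  have hlim : Tendsto (fun ι : ℕ => (K * (ι : ℝ) ^ (-ε) +
      (ι : ℝ) ^ (th γ + 1) * Real.exp (-3 * ι)) * D) atTop (𝓝 0) := by
    have k1 := ((tendsto_rpow_neg_atTop hε0).comp tendsto_natCast_atTop_atTop).const_mul K
    have k2 := (tendsto_rpow_mul_exp_neg_mul_atTop_nhds_zero (th γ + 1) 3
      (by norm_num)).comp tendsto_natCast_atTop_atTop
    simpa using (k1.add k2).mul_const D
  have hbox : MeasurableSet (box [])ᶜ := (hGEO1.2.2.2.1 []).1.isClosed.measurableSet.compl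
  obtain ⟨m1, -, -, -, -, -, -, -, -, -, m11, m12, -⟩ := id hT3
  filter_upwards [hK, hlim.eventually (gt_mem_nhds hη), eventually_ge_atTop 1] with ι h1 h2 hι
  have hι0 : (0 : ℝ) < ι := by exact_mod_cast hι
  have hi : Measurable fun ω => ind (nB (M.X γ 0 ω) = ι) :=
    (m12 Om _ ((m1.comp (m11 M γ 0).1) (measurableSet_singleton _))).1
  have hjoint : Measurable fun p : Om × ℂ => ind (nB (M.X γ 0 p.1) = ι) *
      eE (β * M.kr g (tr (M.X γ 0 p.1)) p.1 p.2 + 2 * g.σ p.2) :=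
    (hi.comp measurable_fst).fun_mul (meas_eE.fun_comp ((((hKR g M hL).2.2 γ).const_mul β).add
      ((g.hσ.continuous.measurable.comp measurable_snd).const_mul 2)))
  set c := K * (ι : ℝ) ^ (-(th γ + ε + 1)) + Real.exp (-3 * ι) with hc
  have hc0 : 0 ≤ c := by positivity
  have main : ∫⁻ ω, ind (nB (M.X γ 0 ω) = ι) * M.volT g γ ω (box [])ᶜ ∂gm ≤
      ENNReal.ofReal (c * D) := by
    calc _ = ∫⁻ ω, ∫⁻ z in (box [])ᶜ, ind (nB (M.X γ 0 ω) = ι) *
            eE (β * M.kr g (tr (M.X γ 0 ω)) ω z + 2 * g.σ z) ∂volume ∂gm := by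
          refine lintegral_congr fun ω => ?_
          rw [lintegral_const_mul' _ _ (ind_ne _), Model.volT, withDensity_apply _ hbox]
      _ = ∫⁻ z in (box [])ᶜ, ∫⁻ ω, ind (nB (M.X γ 0 ω) = ι) *
            eE (β * M.kr g (tr (M.X γ 0 ω)) ω z + 2 * g.σ z) ∂gm ∂volume :=
          lintegral_lintegral_swap hjoint.aemeasurable
      _ ≤ ∫⁻ z in (box [])ᶜ, ENNReal.ofReal (c * Real.exp (2 * Cg + β ^ 2 * C)) *
            (ENNReal.ofReal (HW (β ^ 2) z.re) * ENNReal.ofReal (HW (β ^ 2) z.im)) ∂volume := by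
          refine setLIntegral_mono' hbox fun z hz => ?_
          obtain ⟨y, hy⟩ := hC z hz
          simp only [eE_add, ← mul_assoc]
          rw [lintegral_mul_const' _ _ (eE_ne _)]
          refine (mul_le_mul_left (h1 z y hy) _).trans ?_
          rw [mul_assoc, ← eE_add, eE, ← ENNReal.ofReal_mul hc0,
            ← ENNReal.ofReal_mul (by positivity),
            ← ENNReal.ofReal_mul (mul_nonneg (by positivity) (HW_nonneg _ _)), mul_assoc,
            mul_assoc]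
          refine ENNReal.ofReal_le_ofReal (mul_le_mul_of_nonneg_left ?_ hc0)
          refine le_trans ?_ (mul_le_mul_of_nonneg_left (W_le hs0 hs1 hz) (Real.exp_pos _).le)
          rw [Real.rpow_def_of_pos (rr_pos hGEO1 hz), Real.rpow_def_of_pos (by positivity),
            ← Real.exp_add, ← Real.exp_add]
          refine Real.exp_le_exp.2 ?_
          have k1 := mul_le_mul_of_nonneg_left hy.nrm hs0
          have k2 := (abs_le.1 (hCg z)).2
          nlinarith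
      _ ≤ _ := by
          refine (setLIntegral_le_lintegral _ _).trans (le_of_eq ?_)
          rw [lintegral_const_mul' _ _ ENNReal.ofReal_ne_top, ← hWd, hD, ← mul_assoc,
            ENNReal.ofReal_mul' ENNReal.toReal_nonneg, ENNReal.ofReal_toReal hW]
  refine (mul_le_mul_right main _).trans ?_
  rw [← ENNReal.ofReal_mul (by positivity)]
  refine ENNReal.ofReal_le_ofReal (le_trans (le_of_eq ?_) h2.le)
  have k1 : (ι : ℝ) ^ (th γ + 1) * (ι : ℝ) ^ (-(th γ + ε + 1)) = (ι : ℝ) ^ (-ε) := by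
    rw [← Real.rpow_add hι0]
    congr 1
    ring
  rw [hc, ← k1]
  ring

end

end Pool.Agent.Lib.APPS
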