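import Pool.Agent.Lib.APPS.Blue1

/-!
Moment bound for the number of internal nodes: truncation and convolution lemmas.
-/

namespace Pool.Agent.Lib.APPS

open MeasureTheory ProbabilityTheory Filter Topology Set Metric
open scoped NNReal ENNReal RealInnerProductSpace Classical

noncomputable section

namespace MB

def cut (D : ℕ) (x : Dy → ℝ) : Dy → ℝ := fun S => if S.length < D then x S else 0

theorem intN_cut (D : ℕ) (x : Dy → ℝ) (A : Dy) :
    IntN (cut D x) A ↔ IntN x A ∧ A.length < D := by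
  constructor
  · intro h
    have hA : A.length < D := by
      have := h A (List.suffix_refl A)
      by_contra hn
      simp [cut, hn] at this
    refine ⟨fun B hB => ?_, hA⟩
    have := h B hB
    have hB' : B.length < D := lt_of_le_of_lt hB.length_le hA
    simpa [cut, hB'] using this
  · rintro ⟨h, hA⟩ B hB
    have hB' : B.length < D := lt_of_le_of_lt hB.length_le hA
    simpa [cut, hB'] using h B hB

theorem sub_cut (D : ℕ) (x : Dy → ℝ) (T : Dy) :
    sub (cut D x) T = cut (D - T.length) (sub x T) := by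
  funext S
  simp only [sub, cut, List.length_append]
  by_cases h : S.length + T.length < D
  · rw [if_pos h, if_pos (by omega)]
  · rw [if_neg h, if_neg (by omega)]

theorem meas_cut (D : ℕ) : Measurable (cut D) := by
  refine measurable_pi_lambda _ fun S => ?_
  by_cases h : S.length < D
  · simp only [cut, h, if_true]; exact measurable_pi_apply S
  · simp only [cut, h, if_false]; exact measurable_const

theorem ind_mono {p r : Prop} (h : p → r) : ind p ≤ ind r := by
  unfold ind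
  by_cases hp : p
  · simp [hp, h hp]
  · simp [hp]

theorem ind_le_one (p : Prop) : ind p ≤ 1 := by
  unfold ind
  split_ifs <;> simp

theorem nB_cut_zero (x : Dy → ℝ) : nB (cut 0 x) = 0 := by
  unfold nB
  simp [intN_cut, ind]

theorem nB_cut_le (D : ℕ) (x : Dy → ℝ) : nB (cut D x) ≤ ∑' S : Dy, ind (0 < x S) := by
  unfold nB
  refine ENNReal.tsum_le_tsum fun S => ind_mono fun h => ?_
  exact ((intN_cut D x S).1 h).1 S (List.suffix_refl S)

theorem nB_cut_mono (x : Dy → ℝ) : Monotone fun D => nB (cut D x) := by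
  intro D D' h
  unfold nB
  refine ENNReal.tsum_le_tsum fun S => ind_mono fun hS => ?_
  rw [intN_cut] at hS ⊢
  exact ⟨hS.1, lt_of_lt_of_le hS.2 h⟩

theorem nB_le_iSup (x : Dy → ℝ) : nB x ≤ ⨆ D, nB (cut D x) := by
  conv_lhs => unfold nB
  rw [ENNReal.tsum_eq_iSup_sum]
  refine iSup_le fun s => ?_
  refine le_trans ?_ (le_iSup (fun D => nB (cut D x)) (s.sup List.length + 1))
  unfold nB
  refine le_trans ?_ (ENNReal.sum_le_tsum s)
  refine Finset.sum_le_sum fun A hA => ind_mono fun h => ?_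
  rw [intN_cut]
  exact ⟨h, Nat.lt_succ_of_le (Finset.le_sup (f := List.length) hA)⟩

theorem eE_add (s t : ℝ) : eE (s + t) = eE s * eE t := by
  unfold eE
  rw [Real.exp_add, ENNReal.ofReal_mul (Real.exp_pos _).le]

theorem eE_ne_top (s : ℝ) : eE s ≠ ∞ := ENNReal.ofReal_ne_top

theorem eE_ne_zero (s : ℝ) : eE s ≠ 0 := by
  unfold eE
  simp [Real.exp_pos]

theorem eE_mono {s t : ℝ} (h : s ≤ t) : eE s ≤ eE t :=
  ENNReal.ofReal_le_ofReal (Real.exp_le_exp.2 h)

theorem eE_rpow (s p : ℝ) : eE s ^ p = eE (s * p) := by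
  unfold eE
  rw [ENNReal.ofReal_rpow_of_pos (Real.exp_pos _), ← Real.exp_mul]

theorem meas_eE : Measurable eE := ENNReal.measurable_ofReal.comp Real.measurable_exp

theorem lint_eE_gauss (a : ℝ) (t : ℝ≥0) :
    ∫⁻ ξ, eE (a * ξ) ∂gaussianReal 0 t = eE (a ^ 2 * t / 2) := by
  unfold eE
  rw [← ofReal_integral_eq_lintegral_ofReal (integrable_exp_mul_gaussianReal a)
    (Eventually.of_forall fun _ => (Real.exp_pos _).le)]
  have := congrFun (mgf_fun_id_gaussianReal (μ := 0) (v := t)) a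
  simp only [mgf] at this
  rw [this]
  congr 2
  ring

theorem half_le_gauss (t : ℝ≥0) : (1 : ℝ≥0∞) ≤ 2 * gaussianReal 0 t (Ici 0) := by
  have h1 : gaussianReal 0 t (Iic 0) = gaussianReal 0 t (Ici 0) := by
    have h := gaussianReal_map_neg (μ := 0) (v := t)
    rw [neg_zero] at h
    conv_rhs => rw [← h]
    rw [Measure.map_apply measurable_neg measurableSet_Ici]
    congr 1
    ext x
    simp
  calc (1 : ℝ≥0∞) = gaussianReal 0 t univ := measure_univ.symm
    _ = gaussianReal 0 t (Iic 0 ∪ Ici 0) := by rw [Iic_union_Ici]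
    _ ≤ gaussianReal 0 t (Iic 0) + gaussianReal 0 t (Ici 0) := measure_union_le _ _
    _ = 2 * gaussianReal 0 t (Ici 0) := by rw [h1, two_mul]

theorem meas_fam {T : Type} (v : T → HH) : Measurable fun (ω : Om) (s : T) => ω (v s) :=
  measurable_pi_lambda _ fun s => meas_ev (v s)

theorem meas_drift (Q u : ℝ) : Measurable fun x : Dy → ℝ => drift Q x u :=
  measurable_pi_lambda _ fun S => by
    have h : Measurable fun x : Dy → ℝ => x S := measurable_pi_apply S
    exact (h.add_const u).sub_const _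

theorem drift_shift (Q : ℝ) (x : Dy → ℝ) (u ξ : ℝ) :
    drift Q (fun S => x S + ξ) u = drift Q x (u + ξ) := by
  funext S
  simp only [drift]
  ring

/-- Passing to a larger covariance constant. -/
theorem conv_up (hG1 : St_G1) (hG3 : St_G3) (Q a : ℝ) (Φ : (Dy → ℝ) → ℝ≥0∞) (hΦ : Measurable Φ)
    (v v' : Dy → HH) (C C' : ℝ) (hC : C ≤ C') (hv : Gram v (covE C)) (hv' : Gram v' (covE C'))
    (K : ℝ≥0∞) (h : ∀ u, ∫⁻ ω, Φ (drift Q (fun S => ω (v S)) u) ∂gm ≤ K * eE (a * u)) (u : ℝ) :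
    ∫⁻ ω, Φ (drift Q (fun S => ω (v' S)) u) ∂gm ≤ K * eE (a * u + a ^ 2 * (C' - C) / 2) := by
  have : IsProbabilityMeasure gm := hG1.1
  obtain ⟨t, ht⟩ : ∃ t : ℝ≥0, (t : ℝ) = C' - C := ⟨⟨C' - C, sub_nonneg.2 hC⟩, rfl⟩
  have hconv := hG3.2.2.2.2.2.2 Dy v v' t (fun s s' => by
    rw [hv s s', hv' s s']; simp only [covE, ht]; ring)
    (fun x => Φ (drift Q x u)) (hΦ.comp (meas_drift Q u))
  rw [hconv]
  simp only [drift_shift]
  have hm : Measurable fun p : Om × ℝ => Φ (drift Q (fun S => p.1 (v S)) (u + p.2)) := by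
    refine hΦ.comp (measurable_pi_lambda _ fun S => ?_)
    exact (((meas_ev (v S)).comp measurable_fst).add (measurable_snd.const_add u)).sub_const _
  rw [lintegral_lintegral_swap hm.aemeasurable]
  calc ∫⁻ ξ, ∫⁻ ω, Φ (drift Q (fun S => ω (v S)) (u + ξ)) ∂gm ∂gaussianReal 0 t
      ≤ ∫⁻ ξ, K * eE (a * u) * eE (a * ξ) ∂gaussianReal 0 t := by
        refine lintegral_mono fun ξ => (h (u + ξ)).trans (le_of_eq ?_)
        rw [mul_add, eE_add, mul_assoc]
    _ = K * eE (a * u) * eE (a ^ 2 * t / 2) := by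
        have hme : Measurable fun ξ : ℝ => eE (a * ξ) := meas_eE.comp (measurable_id.const_mul a)
        rw [lintegral_const_mul _ hme, lint_eE_gauss]
    _ = _ := by rw [eE_add, mul_assoc, ht]

/-- Passing to a smaller covariance constant. -/
theorem conv_down (hG3 : St_G3) (Q : ℝ) (Φ : (Dy → ℝ) → ℝ≥0∞) (hΦ : Measurable Φ)
    (hmono : ∀ x y, (∀ S, x S ≤ y S) → Φ x ≤ Φ y)
    (v v' : Dy → HH) (C C' : ℝ) (hC : C ≤ C') (hv : Gram v (covE C)) (hv' : Gram v' (covE C'))
    (u : ℝ) :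
    ∫⁻ ω, Φ (drift Q (fun S => ω (v S)) u) ∂gm ≤
      2 * ∫⁻ ω, Φ (drift Q (fun S => ω (v' S)) u) ∂gm := by
  obtain ⟨t, ht⟩ : ∃ t : ℝ≥0, (t : ℝ) = C' - C := ⟨⟨C' - C, sub_nonneg.2 hC⟩, rfl⟩
  have hconv := hG3.2.2.2.2.2.2 Dy v v' t (fun s s' => by
    rw [hv s s', hv' s s']; simp only [covE, ht]; ring)
    (fun x => Φ (drift Q x u)) (hΦ.comp (meas_drift Q u))
  rw [hconv, ← lintegral_const_mul' _ _ (by norm_num)]
  refine lintegral_mono fun ω => ?_
  calc Φ (drift Q (fun S => ω (v S)) u) = Φ (drift Q (fun S => ω (v S)) u) * 1 := (mul_one _).symm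
    _ ≤ Φ (drift Q (fun S => ω (v S)) u) * (2 * gaussianReal 0 t (Ici 0)) := by
        gcongr; exact half_le_gauss t
    _ = 2 * ∫⁻ _ξ in Ici (0 : ℝ), Φ (drift Q (fun S => ω (v S)) u) ∂gaussianReal 0 t := by
        rw [setLIntegral_const]; ring
    _ ≤ 2 * ∫⁻ ξ in Ici (0 : ℝ), Φ (drift Q (fun S => ω (v S) + ξ) u) ∂gaussianReal 0 t := by
        gcongr 2 * ?_
        refine setLIntegral_mono' measurableSet_Ici fun ξ hξ => hmono _ _ fun S => ?_
        simp only [drift]
        have : (0 : ℝ) ≤ ξ := hξ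
        linarith
    _ ≤ _ := by
        gcongr 2 * ?_
        exact setLIntegral_le_lintegral _ _

/-- Lowering the exponent. -/
theorem exp_down (hG1 : St_G1) (X : Om → ℝ≥0∞) (hX : Measurable X) (q q' b : ℝ) (hq : 0 < q)
    (hqq : q ≤ q') (K : ℝ≥0∞) (h : ∫⁻ ω, X ω ^ q' ∂gm ≤ K * eE (b * q')) :
    ∫⁻ ω, X ω ^ q ∂gm ≤ (1 + K) * eE (b * q) := by
  have : IsProbabilityMeasure gm := hG1.1
  have hpt : ∀ y : ℝ≥0∞, y ^ q ≤ eE (b * q) + eE (b * q - b * q') * y ^ q' := by
    intro y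
    by_cases hy : y ≤ eE b
    · refine le_trans ?_ le_self_add
      rw [← eE_rpow]
      exact ENNReal.rpow_le_rpow hy hq.le
    · refine le_trans ?_ le_add_self
      push Not at hy
      have hy0 : y ≠ 0 := ne_of_gt (lt_of_le_of_lt bot_le hy)
      by_cases hyt : y = ∞
      · rw [hyt, ENNReal.top_rpow_of_pos (lt_of_lt_of_le hq hqq), ENNReal.mul_top (eE_ne_zero _)]
        exact le_top
      · have h1 : y ^ q' = y ^ q * y ^ (q' - q) := by
          rw [← ENNReal.rpow_add _ _ hy0 hyt]; congr 1; ring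
        have h2 : eE (b * (q' - q)) ≤ y ^ (q' - q) := by
          rw [← eE_rpow]
          exact ENNReal.rpow_le_rpow hy.le (sub_nonneg.2 hqq)
        calc y ^ q = eE (b * q - b * q') * (y ^ q * eE (b * (q' - q))) := by
              rw [mul_left_comm, ← eE_add, show b * q - b * q' + b * (q' - q) = 0 by ring]
              simp [eE]
          _ ≤ eE (b * q - b * q') * y ^ q' := by rw [h1]; gcongr
  calc ∫⁻ ω, X ω ^ q ∂gm ≤ ∫⁻ ω, (eE (b * q) + eE (b * q - b * q') * X ω ^ q') ∂gm :=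
        lintegral_mono fun ω => hpt _
    _ = eE (b * q) + eE (b * q - b * q') * ∫⁻ ω, X ω ^ q' ∂gm := by
        rw [lintegral_add_left measurable_const, lintegral_const_mul _ (hX.pow_const _)]
        simp
    _ ≤ eE (b * q) + eE (b * q - b * q') * (K * eE (b * q')) := by gcongr
    _ = (1 + K) * eE (b * q) := by
        rw [mul_left_comm, ← eE_add, show b * q - b * q' + b * q' = b * q by ring]
        ring

/-- Rosenthal step for an abstract orthogonal decomposition. -/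
theorem ros_abs (hG1 : St_G1) (hG3 : St_G3) (hROS : St_ROS) (hFM : St_FM) (hT3 : St_T3)
    (γ : ℝ) (hγ : γ ∈ Ioo (0 : ℝ) 2) (q : ℝ) (hq : 1 ≤ q) :
    ∃ CR : ℝ≥0∞, CR ≠ ∞ ∧ ∀ C1 : ℝ, ∃ A : ℝ≥0∞, A ≠ ∞ ∧
      ∀ (J : Type) [Fintype J] (g h : J → Dy → HH),
        (∀ j j' S S', ⟪h j S, g j' S'⟫ = 0) → (∀ j j', j ≠ j' → ∀ S S', ⟪g j S, g j' S'⟫ = 0) →
        (∀ j S, ‖g j S‖ ^ 2 ≤ C1 + S.length * l2) → (∀ j S, ‖h j S‖ ^ 2 ≤ C1) →
        ∀ (D : ℕ) (u : ℝ),
        ∫⁻ ω, (∑ j, nB (cut D (drift (QQ γ) (fun S => ω (g j S + h j S)) u))) ^ q ∂gm ≤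
          CR * ((Fintype.card J : ℝ≥0∞) ^ (q - 1) * (Fintype.card J * (A * eE (γ * q * u))) +
            ∑ j, ∫⁻ ω, nB (cut D (drift (QQ γ) (fun S => ω (g j S + h j S)) u)) ^ q ∂gm) := by
  have : IsProbabilityMeasure gm := hG1.1
  obtain ⟨CR, hCR⟩ := hROS q hq
  refine ⟨ENNReal.ofReal CR, ENNReal.ofReal_ne_top, fun C1 => ?_⟩
  obtain ⟨K, hK⟩ := (hFM γ hγ).2 q C1 hq
  refine ⟨ENNReal.ofReal K, ENNReal.ofReal_ne_top, ?_⟩
  intro J _ g h hhg hgg hg hh D u
  set f : J → (J × Dy → ℝ) × (Dy → ℝ) → ℝ≥0∞ := fun j p =>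
    nB (cut D (drift (QQ γ) (fun S => p.2 S + p.1 (j, S)) u)) with hf
  have hfm : ∀ j, Measurable (f j) := by
    intro j
    refine hT3.1.comp ((meas_cut D).comp ((meas_drift _ u).comp ?_))
    exact measurable_pi_lambda _ fun S =>
      ((measurable_pi_apply S).comp measurable_snd).add
        ((measurable_pi_apply (j, S)).comp measurable_fst)
  set Z0 : Om → (J × Dy → ℝ) := fun ω p => ω (h p.1 p.2) with hZ0
  set Z : J → Om → (Dy → ℝ) := fun j ω S => ω (g j S) with hZ
  have hZ0m : Measurable Z0 := meas_fam fun p : J × Dy => h p.1 p.2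
  have hZm : ∀ j, Measurable (Z j) := fun j => meas_fam (g j)
  have hind1 : IndepFun Z0 (fun ω j => Z j ω) gm := by
    have h1 := hG3.2.2.2.2.1 (J × Dy) (J × Dy) (fun p => h p.1 p.2) (fun p => g p.1 p.2)
      (fun p p' => hhg _ _ _ _)
    have h2 : Measurable fun (y : J × Dy → ℝ) (j : J) (S : Dy) => y (j, S) :=
      measurable_pi_lambda _ fun j => measurable_pi_lambda _ fun S => measurable_pi_apply _
    exact h1.comp measurable_id h2
  have hind2 : iIndepFun Z gm := hG3.2.2.2.2.2.1 J (fun _ => Dy) g hgg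
  have key := (hCR Om (J × Dy → ℝ) (Dy → ℝ) J gm Z0 Z f hZ0m hZm hfm hind1 hind2).1
  have hfe : ∀ j ω, f j (Z0 ω, Z j ω) =
      nB (cut D (drift (QQ γ) (fun S => ω (g j S + h j S)) u)) := by
    intro j ω
    simp only [hf, hZ0, hZ, map_add]
  simp only [hfe] at key
  refine key.trans ?_
  gcongr
  have hcm : ∀ j ω, ∫⁻ b, f j (Z0 ω, b) ∂gm.map (Z j) ≤
      ∑' S : Dy, gm {ω' | 0 < drift (QQ γ) (fun S => ω' (g j S) + ω (h j S)) u S} := by
    intro j ω
    have hfm' : Measurable fun b => f j (Z0 ω, b) := (hfm j).comp measurable_prodMk_left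
    rw [lintegral_map hfm' (hZm j)]
    have hms : ∀ S : Dy, MeasurableSet
        {ω' : Om | 0 < drift (QQ γ) (fun S => ω' (g j S) + ω (h j S)) u S} := by
      intro S
      refine measurableSet_lt measurable_const ?_
      exact (((meas_ev (g j S)).add_const _).add_const u).sub_const _
    calc ∫⁻ ω', f j (Z0 ω, Z j ω') ∂gm
        ≤ ∫⁻ ω', ∑' S : Dy, indicator
            {ω' : Om | 0 < drift (QQ γ) (fun S => ω' (g j S) + ω (h j S)) u S} 1 ω' ∂gm := by
          refine lintegral_mono fun ω' => (nB_cut_le D _).trans (le_of_eq ?_)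
          refine tsum_congr fun S => ?_
          simp only [ind, indicator, mem_ofPred_eq, Pi.one_apply, hZ0, hZ]
      _ = _ := by
          rw [lintegral_tsum fun S => (measurable_one.indicator (hms S)).aemeasurable]
          refine tsum_congr fun S => ?_
          rw [lintegral_indicator_one (hms S)]
  have hmm : ∀ j, Measurable fun ω => ∫⁻ b, f j (Z0 ω, b) ∂gm.map (Z j) := by
    intro j
    exact (Measurable.lintegral_prod_right' (hfm j)).comp hZ0m
  calc ∫⁻ ω, (∑ j, ∫⁻ b, f j (Z0 ω, b) ∂gm.map (Z j)) ^ q ∂gm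
      ≤ ∫⁻ ω, (Fintype.card J : ℝ≥0∞) ^ (q - 1) *
          ∑ j, (∫⁻ b, f j (Z0 ω, b) ∂gm.map (Z j)) ^ q ∂gm := by
        refine lintegral_mono fun ω => ?_
        exact ENNReal.rpow_sum_le_const_mul_sum_rpow Finset.univ _ hq
    _ = (Fintype.card J : ℝ≥0∞) ^ (q - 1) *
          ∑ j, ∫⁻ ω, (∫⁻ b, f j (Z0 ω, b) ∂gm.map (Z j)) ^ q ∂gm := by
        rw [lintegral_const_mul _ (Finset.measurable_sum _ fun j _ => (hmm j).pow_const q),
          lintegral_finsetSum _ fun j _ => (hmm j).pow_const q]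
    _ ≤ (Fintype.card J : ℝ≥0∞) ^ (q - 1) *
          ∑ _j : J, ENNReal.ofReal K * eE (γ * q * u) := by
        gcongr with j
        refine le_trans (lintegral_mono fun ω =>
          ENNReal.rpow_le_rpow (hcm j ω) (by linarith)) ?_
        refine (hK (g j) (h j) (hg j) (hh j) u).trans ?_
        rw [eE, mul_comm K, ENNReal.ofReal_mul (Real.exp_pos _).le, mul_comm]
    _ = _ := by
        rw [Finset.sum_const, Finset.card_univ, nsmul_eq_mul]

end MB

end

end Pool.Agent.Lib.APPS
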