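import Pool.Agent.Lib.APPS.Blue2
import Pool.Agent.Lib.APPS.B_MBa
import Pool.Agent.Lib.APPS.B_FE
import Pool.Agent.Lib.APPS.B_GEO1
import Pool.Agent.Lib.APPS.B_EXP1

/-!
First moment asymptotics for the zero boundary field in a large disc.
-/

namespace Pool.Agent.Lib.APPS

open MeasureTheory ProbabilityTheory Filter Topology Set Metric
open scoped NNReal ENNReal RealInnerProductSpace Classical

noncomputable section

namespace H0L

open MB

theorem setup (hM0 : St_M0) (hMOD : St_MOD) (hDISC : St_DISC) (hT1 : St_T1) :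
    ∃ C : ℝ, 0 ≤ C ∧ ∀ r ≥ (2 : ℝ), ∃ g q : Dy → HH, Gram g (cov0 r) ∧ ChainH q (C / r) ∧
      (∀ S S', ⟪g S, q S'⟫ = 0) ∧ Gram (fun S => g S + q S) (covE (Real.log r)) ∧
      ∀ S, ‖g S‖ ^ 2 ≤ Real.log r + C + S.length * l2 := by
  have hGEO1 := blk_GEO1 hT1
  have hFE := blk_FE blk_EXP1 hGEO1
  obtain ⟨C, hC0, -, hD2, hD3⟩ := hDISC
  refine ⟨C, hC0, fun r hr => ?_⟩
  obtain ⟨M0⟩ := hM0
  have hs : side [] = 1 := by simp [side]
  obtain ⟨M, hO, -, -, -⟩ := (hMOD M0).2.2.1 (ctr []) (2 * r) (by linarith)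
  have hsub : closedBall (ctr []) (r * side []) ⊆ M.O := by
    rw [hO, hs]
    exact closedBall_subset_ball (by linarith)
  have hbox : ∀ S : Dy, box S ⊆ closedBall (ctr []) 1 := by
    intro S y hy
    have h1 : y ∈ box [] := (hGEO1.2.2.2.2.1 S []).2 List.nil_suffix hy
    have h2 := (hGEO1.2.2.2.1 []).2.2.2.1 y h1
    rw [mem_closedBall, dist_eq_norm]
    rw [hs] at h2
    linarith
  have hsupp : ∀ S : Dy, unif S (closedBall (ctr []) (r * side [] / 2))ᶜ = 0 := by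
    intro S
    refine measure_mono_null (compl_subset_compl.2 fun y hy => ?_) (hFE.2.2.2.2.2.2.2.1 S).2
    refine closedBall_subset_closedBall ?_ (hbox S hy)
    rw [hs]; linarith
  have hpfe : ∀ S, PFE (unif S) := fun S => (hFE.2.2.2.2.2.2.2.1 S).1
  have hr0 : 0 < r * side [] := by rw [hs]; linarith
  obtain ⟨h1, h2, -, h4⟩ := hD3 M [] r hr hsub
  refine ⟨_, _, h1, h2, fun S S' => ?_, ?_, h4⟩
  · exact ((hD2 M (ctr []) (r * side []) (unif (S ++ [])) hr0 hsub (hpfe _) (hsupp _)).2.2.2.2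
      (unif (S' ++ [])) (hpfe _) (hsupp _)).2.2.1
  · have h5 := (hMOD M).2.2.2.2.2.2.2.2.2.2.2.1 (ctr []) (r * side []) [] hr0
      ((hbox []).trans (closedBall_subset_closedBall (by rw [hs]; linarith)))
    have e : Real.log (r * side []) + (([] : Dy).length : ℝ) * l2 = Real.log r := by
      rw [hs]; simp
    rw [e] at h5
    intro S S'
    rw [← h5 S S']
    simp only [Model.gv, Model.qv, Model.eS, sub_add_sub_cancel]

theorem law_eq (hG3 : St_G3) {c : Dy → Dy → ℝ} {v g : Dy → HH} (hv : Gram v c) (hg : Gram g c)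
    (f : (Dy → ℝ) → ℝ≥0∞) (hf : Measurable f) :
    ∫⁻ ω, f (fun S => ω (v S)) ∂gm = ∫⁻ ω, f (fun S => ω (g S)) ∂gm := by
  have h := hG3.2.2.1 Dy v g fun s t => by rw [hv s t, hg s t]
  rw [← lintegral_map hf (meas_fam v), h, lintegral_map hf (meas_fam g)]

theorem indep_lint (hG1 : St_G1) (hG3 : St_G3) {g q : Dy → HH} (h : ∀ S S', ⟪g S, q S'⟫ = 0)
    (H : (Dy → ℝ) × (Dy → ℝ) → ℝ≥0∞) (hH : Measurable H) :
    ∫⁻ ω, H (fun S => ω (g S), fun S => ω (q S)) ∂gm =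
      ∫⁻ ω', ∫⁻ ω, H (fun S => ω (g S), fun S => ω' (q S)) ∂gm ∂gm := by
  have : IsProbabilityMeasure gm := hG1.1
  have hi := hG3.2.2.2.2.1 Dy Dy g q h
  rw [indepFun_iff_map_prod_eq_prod_map_map (meas_fam g).aemeasurable
    (meas_fam q).aemeasurable] at hi
  have hp : Measurable fun ω : Om => ((fun S => ω (g S)), fun S => ω (q S)) :=
    (meas_fam g).prodMk (meas_fam q)
  rw [← lintegral_map hH hp, hi, lintegral_prod_symm _ hH.aemeasurable,
    lintegral_map hH.lintegral_prod_left' (meas_fam q)]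
  refine lintegral_congr fun ω' => ?_
  exact lintegral_map (hH.comp (measurable_id.prodMk measurable_const)) (meas_fam g)

theorem meas_XV (γ : ℝ) (v : Dy → HH) (t : ℝ) : Measurable (XV γ v t) :=
  (meas_drift _ _).comp (meas_fam v)

theorem nB_le_sum (γ : ℝ) (v : Dy → HH) (t : ℝ) :
    ∫⁻ ω, nB (XV γ v t ω) ∂gm ≤ ∑' S : Dy, gm {ω | 0 < drift (QQ γ) (fun S => ω (v S)) t S} := by
  have hm : ∀ S, MeasurableSet {ω : Om | 0 < drift (QQ γ) (fun S => ω (v S)) t S} := fun S =>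
    measurableSet_lt measurable_const ((measurable_pi_apply S).comp (meas_XV γ v t))
  calc ∫⁻ ω, nB (XV γ v t ω) ∂gm
      ≤ ∫⁻ ω, ∑' S : Dy, {ω : Om | 0 < drift (QQ γ) (fun S => ω (v S)) t S}.indicator 1 ω ∂gm := by
        refine lintegral_mono fun ω => ?_
        unfold nB
        refine ENNReal.tsum_le_tsum fun S => ?_
        by_cases h : IntN (XV γ v t ω) S
        · have h1 : ω ∈ {ω : Om | 0 < drift (QQ γ) (fun S => ω (v S)) t S} :=
            h S (List.suffix_refl S)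
          rw [indicator_of_mem h1]
          exact ind_le_one _
        · simp [ind, h]
    _ = _ := by
        rw [lintegral_tsum fun S => (measurable_one.indicator (hm S)).aemeasurable]
        exact tsum_congr fun S => lintegral_indicator_one (hm S)

theorem SR_nonneg {F : (Dy → ℝ) → ℝ} (hF : Mono F) (x : Dy → ℝ) : 0 ≤ SR F x [] :=
  Finset.sum_nonneg fun _ _ => (hF.2.1 _).1

theorem SR_le_nB (hT1 : St_T1) {F : (Dy → ℝ) → ℝ} (hF : Mono F) (x : Dy → ℝ) :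
    ENNReal.ofReal (SR F x []) ≤ nB x := by
  by_cases hx : nB x = ∞
  · rw [hx]; exact le_top
  obtain ⟨-, -, -, -, -, -, -, -, -, -, -, h12, h13, -⟩ := hT1
  rw [(h12 x _ (h13 x hx)).2.2.1]
  have : SR F x [] ≤ (tr x).card := by
    unfold SR
    calc ∑ A ∈ (tr x).filter fun A => [] <:+ A, F (sub x A)
        ≤ ∑ _A ∈ (tr x).filter fun A => [] <:+ A, (1 : ℝ) :=
          Finset.sum_le_sum fun A _ => (hF.2.1 _).2
      _ ≤ ∑ _A ∈ tr x, (1 : ℝ) :=
          Finset.sum_le_sum_of_subset_of_nonneg (Finset.filter_subset _ _) fun _ _ _ => zero_le_one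
      _ = _ := by simp
  calc ENNReal.ofReal (SR F x []) ≤ ENNReal.ofReal ((tr x).card : ℝ) :=
        ENNReal.ofReal_le_ofReal this
    _ = _ := ENNReal.ofReal_natCast _

theorem nB_mono (hT1 : St_T1) {x y : Dy → ℝ} (h : ∀ S, x S ≤ y S) : nB x ≤ nB y := by
  obtain ⟨-, -, -, -, -, -, -, -, -, -, -, -, -, -, -, h16, -⟩ := hT1
  exact h16 x y h

theorem SR_mono (hT1 : St_T1) {F : (Dy → ℝ) → ℝ} (hF : Mono F) {x y : Dy → ℝ}
    (h : ∀ S, x S ≤ y S) (hy : nB y ≠ ∞) : SR F x [] ≤ SR F y [] := by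
  have hx : nB x ≠ ∞ := ne_top_of_le_ne_top hy (nB_mono hT1 h)
  obtain ⟨-, -, -, -, -, -, -, -, -, -, -, -, h13, -⟩ := hT1
  unfold SR
  calc ∑ A ∈ (tr x).filter fun A => [] <:+ A, F (sub x A)
      ≤ ∑ A ∈ (tr x).filter fun A => [] <:+ A, F (sub y A) :=
        Finset.sum_le_sum fun A _ => hF.2.2 _ _ fun S => h _
    _ ≤ _ := by
        refine Finset.sum_le_sum_of_subset_of_nonneg ?_ fun _ _ _ => (hF.2.1 _).1
        refine Finset.filter_subset_filter _ fun A hA => ?_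
        exact (h13 y hy A).2 fun B hB => lt_of_lt_of_le ((h13 x hx A).1 hA B hB) (h B)

theorem item1 (hM0 : St_M0) (hMOD : St_MOD) (hDISC : St_DISC) (hT1 : St_T1)
    (hFM : St_FM) (γ : ℝ) (hγ : γ ∈ Ioo (0 : ℝ) 2) :
    ∃ K : ℝ, 0 ≤ K ∧ ∀ r ≥ 2, ∀ v, Gram v (cov0 r) → ∀ t,
    ∫⁻ ω, nB (XV γ v t ω) ∂gm ≤ ENNReal.ofReal (K * r ^ (γ ^ 2 / 2) * Real.exp (γ * t)) := by
  obtain ⟨C, hC, hS⟩ := setup hM0 hMOD hDISC hT1
  obtain ⟨K, c, -, hK⟩ := (hFM γ hγ).1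
  refine ⟨max K 0 * Real.exp (γ ^ 2 * C / 2), by positivity, fun r hr v hv t => ?_⟩
  obtain ⟨g, q, hg, -, -, -, hn⟩ := hS r hr
  have hl : 0 ≤ Real.log r := Real.log_nonneg (by linarith)
  have hn' : ∀ S, ‖v S‖ ^ 2 ≤ (Real.log r + C) + S.length * l2 := by
    intro S
    rw [← real_inner_self_eq_norm_sq, hv S S, ← hg S S, real_inner_self_eq_norm_sq]
    exact hn S
  refine (nB_le_sum γ v t).trans ((hK (Real.log r + C) (by linarith) v hn' t).1.trans ?_)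
  refine ENNReal.ofReal_le_ofReal ?_
  have e : Real.exp (γ * t + γ ^ 2 * (Real.log r + C) / 2) =
      Real.exp (γ ^ 2 * C / 2) * r ^ (γ ^ 2 / 2) * Real.exp (γ * t) := by
    rw [Real.rpow_def_of_pos (by linarith), ← Real.exp_add, ← Real.exp_add]
    congr 1; ring
  rw [e]
  have : 0 ≤ Real.exp (γ ^ 2 * C / 2) * r ^ (γ ^ 2 / 2) * Real.exp (γ * t) := by
    have : 0 < r := by linarith
    positivity
  calc K * (Real.exp (γ ^ 2 * C / 2) * r ^ (γ ^ 2 / 2) * Real.exp (γ * t))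
      ≤ max K 0 * (Real.exp (γ ^ 2 * C / 2) * r ^ (γ ^ 2 / 2) * Real.exp (γ * t)) :=
        mul_le_mul_of_nonneg_right (le_max_left _ _) this
    _ = _ := by ring

/-- comparison from below through the event `zs ≤ δ` -/
theorem lower (hG1 : St_G1) (hG3 : St_G3) (hCH : St_CH) {g q : Dy → HH} {ε : ℝ}
    (hq : ChainH q ε) (ho : ∀ S S', ⟪g S, q S'⟫ = 0) (γ t δ : ℝ) (Φ : (Dy → ℝ) → ℝ≥0∞)
    (hΦ : Measurable Φ)
    (hm : ∀ᵐ ω ∂gm, ∀ x, (∀ S, x S ≤ XV γ (fun S => g S + q S) (t + δ) ω S) →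
      Φ x ≤ Φ (XV γ (fun S => g S + q S) (t + δ) ω)) :
    (∫⁻ ω, Φ (XV γ g t ω) ∂gm) * gm {ω | zs (fun S => ω (q S)) ≤ δ} ≤
      ∫⁻ ω, Φ (XV γ (fun S => g S + q S) (t + δ) ω) ∂gm := by
  have hs : MeasurableSet {z : Dy → ℝ | zs z ≤ δ} := measurableSet_le hCH.1 measurable_const
  have hH : Measurable fun p : (Dy → ℝ) × (Dy → ℝ) =>
      Φ (drift (QQ γ) p.1 t) * {z : Dy → ℝ | zs z ≤ δ}.indicator 1 p.2 :=
    (hΦ.comp ((meas_drift _ _).comp measurable_fst)).mul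
      ((measurable_one.indicator hs).comp measurable_snd)
  have h1 := indep_lint hG1 hG3 ho _ hH
  have hs' : MeasurableSet {ω : Om | zs (fun S => ω (q S)) ≤ δ} := meas_fam q hs
  have h2 : ∫⁻ ω' : Om, ∫⁻ ω : Om, Φ (drift (QQ γ) (fun S => ω (g S)) t) *
      {z : Dy → ℝ | zs z ≤ δ}.indicator 1 (fun S => ω' (q S)) ∂gm ∂gm =
      (∫⁻ ω, Φ (XV γ g t ω) ∂gm) * gm {ω | zs (fun S => ω (q S)) ≤ δ} := by
    rw [← lintegral_indicator_one hs', ← lintegral_const_mul _ (measurable_one.indicator hs')]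
    refine lintegral_congr fun ω' => ?_
    exact lintegral_mul_const _ (hΦ.comp (meas_XV γ g t))
  rw [← h2, ← h1]
  refine lintegral_mono_ae ?_
  filter_upwards [hm, hCH.2.2.1 q ε hq] with ω h3 h4
  by_cases h5 : zs (fun S => ω (q S)) ≤ δ
  · rw [indicator_of_mem (show (fun S => ω (q S)) ∈ {z : Dy → ℝ | zs z ≤ δ} from h5)]
    simp only [Pi.one_apply, mul_one]
    refine h3 _ fun S => ?_
    have := (abs_le.1 ((h4 S).trans h5)).1
    simp only [XV, drift, map_add]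
    linarith
  · rw [indicator_of_notMem (show (fun S => ω (q S)) ∉ {z : Dy → ℝ | zs z ≤ δ} from h5)]
    simp

theorem item2 (hG1 : St_G1) (hG3 : St_G3) (hCH : St_CH) (hM0 : St_M0) (hMOD : St_MOD)
    (hDISC : St_DISC) (hT1 : St_T1) (hT3 : St_T3) (hMB : St_MB) (γ : ℝ) (hγ : γ ∈ Ioo (0 : ℝ) 2)
    (p : ℝ) (hp : 0 < p) (hp' : p < 4 / γ ^ 2) (r : ℝ) (hr : r ≥ 2) :
    ∃ K : ℝ, ∀ v, Gram v (cov0 r) → ∀ t,
    ∫⁻ ω, nB (XV γ v t ω) ^ p ∂gm ≤ ENNReal.ofReal (K * Real.exp (γ * p * t)) := by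
  have : IsProbabilityMeasure gm := hG1.1
  obtain ⟨C, hC, hS⟩ := setup hM0 hMOD hDISC hT1
  obtain ⟨g, q, hg, hq, ho, hv', -⟩ := hS r hr
  obtain ⟨K, hK⟩ := hMB γ hγ p hp hp'
  obtain ⟨C1, hC1⟩ := (hCH.2.2.2 1).1 (C / r)
  set Z : Om → ℝ := fun ω => zs fun S => ω (q S) with hZ
  have hZm : Measurable Z := hCH.1.comp (meas_fam q)
  obtain ⟨m, hm⟩ : ∃ m : ℝ, 2 * C1 ≤ Real.exp m := ⟨2 * C1, by linarith [Real.add_one_le_exp (2 * C1)]⟩
  have hP : (1 : ℝ≥0∞) ≤ 2 * gm {ω | Z ω ≤ m} := by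
    have h1 : eE m * gm {ω | Z ω ≤ m}ᶜ ≤ ENNReal.ofReal C1 := by
      refine le_trans ?_ (hC1 q hq)
      refine le_trans ?_ (mul_meas_ge_le_lintegral₀
        (meas_eE.comp (hZm.const_mul 1)).aemeasurable (eE m))
      gcongr
      intro ω hω
      simp only [mem_compl_iff, mem_ofPred_eq, not_le] at hω
      exact eE_mono (by linarith)
    have h2 : 2 * gm {ω | Z ω ≤ m}ᶜ ≤ 1 := by
      have h3 : eE m * (2 * gm {ω | Z ω ≤ m}ᶜ) ≤ eE m * 1 := by
        calc eE m * (2 * gm {ω | Z ω ≤ m}ᶜ) = 2 * (eE m * gm {ω | Z ω ≤ m}ᶜ) := by ring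
          _ ≤ 2 * ENNReal.ofReal C1 := by gcongr
          _ = ENNReal.ofReal (2 * C1) := by rw [ENNReal.ofReal_mul (by norm_num)]; simp
          _ ≤ eE m * 1 := by rw [mul_one]; exact ENNReal.ofReal_le_ofReal hm
      exact (ENNReal.mul_le_mul_iff_right (eE_ne_zero m) (eE_ne_top m)).1 h3
    have h4 : gm {ω | Z ω ≤ m} + gm {ω | Z ω ≤ m}ᶜ = 1 :=
      prob_add_prob_compl (measurableSet_le hZm measurable_const)
    have h5 : (1 : ℝ≥0∞) + 1 ≤ 2 * gm {ω | Z ω ≤ m} + 1 := by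
      calc (1 : ℝ≥0∞) + 1 = 2 * (gm {ω | Z ω ≤ m} + gm {ω | Z ω ≤ m}ᶜ) := by
            rw [h4]; norm_num
        _ = 2 * gm {ω | Z ω ≤ m} + 2 * gm {ω | Z ω ≤ m}ᶜ := by ring
        _ ≤ _ := by gcongr
    exact (ENNReal.add_le_add_iff_right ENNReal.one_ne_top).1 h5
  have hΦ : Measurable fun x : Dy → ℝ => nB x ^ p := hT3.1.pow_const p
  refine ⟨2 * (K * Real.exp (γ * p * m + γ ^ 2 * p ^ 2 * max (Real.log r) 0 / 2)),
    fun v hv t => ?_⟩
  have h1 : ∫⁻ ω, nB (XV γ v t ω) ^ p ∂gm = ∫⁻ ω, nB (XV γ g t ω) ^ p ∂gm :=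
    law_eq hG3 hv hg (fun x => nB (drift (QQ γ) x t) ^ p) (hΦ.comp (meas_drift _ _))
  have h2 := lower hG1 hG3 hCH hq ho γ t m (fun x => nB x ^ p) hΦ
    (Eventually.of_forall fun ω x hx => ENNReal.rpow_le_rpow (nB_mono hT1 hx) hp.le)
  have h3 := hK (Real.log r) _ hv' (t + m)
  rw [h1]
  calc ∫⁻ ω, nB (XV γ g t ω) ^ p ∂gm = (∫⁻ ω, nB (XV γ g t ω) ^ p ∂gm) * 1 := (mul_one _).symm
    _ ≤ (∫⁻ ω, nB (XV γ g t ω) ^ p ∂gm) * (2 * gm {ω | Z ω ≤ m}) := by gcongr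
    _ = 2 * ((∫⁻ ω, nB (XV γ g t ω) ^ p ∂gm) * gm {ω | Z ω ≤ m}) := by ring
    _ ≤ 2 * ENNReal.ofReal (K * Real.exp (γ * p * (t + m) +
        γ ^ 2 * p ^ 2 * max (Real.log r) 0 / 2)) := by
        gcongr 2 * ?_
        exact h2.trans h3
    _ = _ := by
        rw [← ENNReal.ofReal_ofNat 2, ← ENNReal.ofReal_mul (by norm_num)]
        congr 1
        rw [show γ * p * (t + m) + γ ^ 2 * p ^ 2 * max (Real.log r) 0 / 2 =
          (γ * p * m + γ ^ 2 * p ^ 2 * max (Real.log r) 0 / 2) + γ * p * t by ring,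
          Real.exp_add _ (γ * p * t)]
        ring

/-- comparison from above -/
theorem upper (hG1 : St_G1) (hG3 : St_G3) (hCH : St_CH) (hT1 : St_T1) (hT3 : St_T3)
    {g q : Dy → HH} {ε : ℝ}
    (hq : ChainH q ε) (ho : ∀ S S', ⟪g S, q S'⟫ = 0) (γ t δ : ℝ) (hγ : 0 ≤ γ) (hδ : 0 ≤ δ)
    {F : (Dy → ℝ) → ℝ} (hF : Mono F) (A : ℝ≥0∞) (hA : A ≠ ∞)
    (hb : ∀ u, ∫⁻ ω, nB (XV γ g u ω) ∂gm ≤ A * eE (γ * u)) :
    ∫⁻ ω, ENNReal.ofReal (SR F (XV γ (fun S => g S + q S) (t - δ) ω) []) ∂gm ≤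
      ∫⁻ ω, ENNReal.ofReal (SR F (XV γ g t ω) []) ∂gm + A * eE (γ * t) *
        ∫⁻ ω, ind (δ < zs fun S => ω (q S)) * eE (γ * zs fun S => ω (q S)) ∂gm := by
  have hind : Measurable fun z : Dy → ℝ => ind (δ < zs z) :=
    (hT3.2.2.2.2.2.2.2.2.2.2.2.1 _ _ (measurableSet_lt measurable_const hCH.1)).1
  have hH : Measurable fun p : (Dy → ℝ) × (Dy → ℝ) =>
      ind (δ < zs p.2) * nB (drift (QQ γ) p.1 (t - δ + zs p.2)) :=
    (hind.comp measurable_snd).mul (hT3.1.comp ((hT3.2.2.2.2.2.2.1 (QQ γ)).comp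
      (measurable_fst.prodMk ((hCH.1.comp measurable_snd).const_add _))))
  have h1 := indep_lint hG1 hG3 ho _ hH
  have hfin : ∀ᵐ ω ∂gm, nB (XV γ g t ω) < ∞ :=
    ae_lt_top (hT3.1.comp (meas_XV γ g t))
      (ne_top_of_le_ne_top (ENNReal.mul_ne_top hA (eE_ne_top _)) (hb t))
  have hm1 : Measurable fun ω => ENNReal.ofReal (SR F (XV γ g t ω) []) :=
    ((hT3.2.2.2.2.2.2.2.1 F [] hF.1).comp (meas_XV γ g t)).ennreal_ofReal
  have hZ : Measurable fun ω : Om => zs fun S => ω (q S) := hCH.1.comp (meas_fam q)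
  calc ∫⁻ ω, ENNReal.ofReal (SR F (XV γ (fun S => g S + q S) (t - δ) ω) []) ∂gm
      ≤ ∫⁻ ω, ENNReal.ofReal (SR F (XV γ g t ω) []) + ind (δ < zs fun S => ω (q S)) *
          nB (drift (QQ γ) (fun S => ω (g S)) (t - δ + zs fun S => ω (q S))) ∂gm := by
        refine lintegral_mono_ae ?_
        filter_upwards [hfin, hCH.2.2.1 q ε hq] with ω h3 h4
        by_cases h5 : δ < zs fun S => ω (q S)
        · refine le_trans ?_ le_add_self
          simp only [ind, h5, if_true, one_mul]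
          refine (SR_le_nB hT1 hF _).trans (nB_mono hT1 fun S => ?_)
          have := (abs_le.1 (h4 S)).2
          simp only [XV, drift, map_add]
          linarith
        · refine le_trans ?_ le_self_add
          refine ENNReal.ofReal_le_ofReal (SR_mono hT1 hF (fun S => ?_) h3.ne)
          have := (abs_le.1 ((h4 S).trans (not_lt.1 h5))).2
          simp only [XV, drift, map_add]
          linarith
    _ = ∫⁻ ω, ENNReal.ofReal (SR F (XV γ g t ω) []) ∂gm + ∫⁻ ω', ∫⁻ ω,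
          ind (δ < zs fun S => ω' (q S)) *
          nB (drift (QQ γ) (fun S => ω (g S)) (t - δ + zs fun S => ω' (q S))) ∂gm ∂gm := by
        rw [lintegral_add_left hm1, ← h1]
    _ ≤ _ := by
        gcongr ?_ + ?_
        · exact le_rfl
        have hm2 : Measurable fun ω : Om =>
            ind (δ < zs fun S => ω (q S)) * eE (γ * zs fun S => ω (q S)) :=
          (hind.comp (meas_fam q)).mul (meas_eE.comp (hZ.const_mul γ))
        rw [← lintegral_const_mul _ hm2]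
        refine lintegral_mono fun ω' => ?_
        have h6 := hb (t - δ + zs fun S => ω' (q S))
        have h7 : eE (γ * (t - δ + zs fun S => ω' (q S))) ≤
            eE (γ * t) * eE (γ * zs fun S => ω' (q S)) := by
          rw [← eE_add]
          refine eE_mono ?_
          nlinarith [mul_nonneg hγ hδ]
        calc ∫⁻ ω, ind (δ < zs fun S => ω' (q S)) *
              nB (drift (QQ γ) (fun S => ω (g S)) (t - δ + zs fun S => ω' (q S))) ∂gm
            = ind (δ < zs fun S => ω' (q S)) *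
              ∫⁻ ω, nB (XV γ g (t - δ + zs fun S => ω' (q S)) ω) ∂gm :=
              lintegral_const_mul _ (hT3.1.comp (meas_XV γ g _))
          _ ≤ ind (δ < zs fun S => ω' (q S)) *
              (A * (eE (γ * t) * eE (γ * zs fun S => ω' (q S)))) := by
              gcongr
              exact h6.trans (by gcongr)
          _ = _ := by ring

theorem tail_small (hG1 : St_G1) (hCH : St_CH) (hT3 : St_T3) (γ s : ℝ) (hγ : 0 < γ) (hs : 0 < s) :
    ∃ ε > 0, ∀ q, ChainH q ε →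
      ∫⁻ ω, ind (s < zs fun S => ω (q S)) * eE (γ * zs fun S => ω (q S)) ∂gm ≤
        ENNReal.ofReal s := by
  have : IsProbabilityMeasure gm := hG1.1
  have hc : 0 < Real.exp (γ * s) - 1 := by
    have := Real.add_one_lt_exp (mul_pos hγ hs).ne'
    have := mul_pos hγ hs
    linarith
  obtain ⟨ε, hε, h⟩ := (hCH.2.2.2 (2 * γ)).2 ((Real.exp (γ * s) - 1) * s) (mul_pos hc hs)
  refine ⟨ε, hε, fun q hq => ?_⟩
  have hind : Measurable fun z : Dy → ℝ => ind (s < zs z) :=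
    (hT3.2.2.2.2.2.2.2.2.2.2.2.1 _ _ (measurableSet_lt measurable_const hCH.1)).1
  have hZ : Measurable fun ω : Om => zs fun S => ω (q S) := hCH.1.comp (meas_fam q)
  have hm : Measurable fun ω : Om =>
      ind (s < zs fun S => ω (q S)) * eE (γ * zs fun S => ω (q S)) :=
    (hind.comp (meas_fam q)).mul (meas_eE.comp (hZ.const_mul γ))
  have hpt : ∀ z : ℝ, 0 ≤ z → 1 + ENNReal.ofReal (Real.exp (γ * s) - 1) *
      (ind (s < z) * eE (γ * z)) ≤ eE (2 * γ * z) := by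
    intro z hz
    by_cases h5 : s < z
    · simp only [ind, h5, if_true, one_mul, eE]
      rw [← ENNReal.ofReal_mul hc.le, ← ENNReal.ofReal_one,
        ← ENNReal.ofReal_add zero_le_one (mul_nonneg hc.le (Real.exp_pos _).le)]
      refine ENNReal.ofReal_le_ofReal ?_
      have e : Real.exp (2 * γ * z) = Real.exp (γ * z) * Real.exp (γ * z) := by
        rw [← Real.exp_add]; congr 1; ring
      have h6 : Real.exp (γ * s) ≤ Real.exp (γ * z) :=
        Real.exp_le_exp.2 (mul_le_mul_of_nonneg_left h5.le hγ.le)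
      have h7 : 1 ≤ Real.exp (γ * z) := Real.one_le_exp (mul_nonneg hγ.le hz)
      rw [e]
      nlinarith
    · simp only [ind, h5, if_false, zero_mul, mul_zero, add_zero, eE]
      rw [← ENNReal.ofReal_one]
      exact ENNReal.ofReal_le_ofReal (Real.one_le_exp (by positivity))
  have h1 : 1 + ENNReal.ofReal (Real.exp (γ * s) - 1) *
      ∫⁻ ω, ind (s < zs fun S => ω (q S)) * eE (γ * zs fun S => ω (q S)) ∂gm ≤
      1 + ENNReal.ofReal (Real.exp (γ * s) - 1) * ENNReal.ofReal s := by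
    calc 1 + ENNReal.ofReal (Real.exp (γ * s) - 1) *
        ∫⁻ ω, ind (s < zs fun S => ω (q S)) * eE (γ * zs fun S => ω (q S)) ∂gm
        = ∫⁻ ω, 1 + ENNReal.ofReal (Real.exp (γ * s) - 1) *
          (ind (s < zs fun S => ω (q S)) * eE (γ * zs fun S => ω (q S))) ∂gm := by
          rw [lintegral_add_left measurable_const, lintegral_const_mul _ hm]
          simp
      _ ≤ ∫⁻ ω, eE (2 * γ * zs fun S => ω (q S)) ∂gm :=
          lintegral_mono fun ω => hpt _ (hCH.2.1 _)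
      _ ≤ ENNReal.ofReal (1 + (Real.exp (γ * s) - 1) * s) := h q hq
      _ = _ := by
          rw [ENNReal.ofReal_add zero_le_one (mul_pos hc hs).le, ENNReal.ofReal_one,
            ENNReal.ofReal_mul hc.le]
  have h2 := (ENNReal.add_le_add_iff_left ENNReal.one_ne_top).1 h1
  exact (ENNReal.mul_le_mul_iff_right (by simpa using hc) ENNReal.ofReal_ne_top).1 h2

theorem choose_s (γ c K ε : ℝ) (hε : 0 < ε) : ∃ s : ℝ, 0 < s ∧ s < 1 ∧
    Real.exp (γ * s) * (c + s) ≤ (c + ε) * (1 - s) ∧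
    c - ε ≤ Real.exp (-(γ * s)) * (c - s) - K * s := by
  have h1 : ContinuousAt (fun s : ℝ => (c + ε) * (1 - s) - Real.exp (γ * s) * (c + s)) 0 := by
    fun_prop
  have h2 : ContinuousAt (fun s : ℝ => Real.exp (-(γ * s)) * (c - s) - K * s - (c - ε)) 0 := by
    fun_prop
  have h3 := h1.eventually (lt_mem_nhds (show (0 : ℝ) < _ by simpa using hε))
  have h4 := h2.eventually (lt_mem_nhds (show (0 : ℝ) < _ by simpa using hε))
  have h5 : ∀ᶠ s : ℝ in 𝓝 0, s < 1 := gt_mem_nhds zero_lt_one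
  have h6 : ∀ᶠ s : ℝ in 𝓝[>] 0, 0 < s := self_mem_nhdsWithin
  obtain ⟨s, ⟨⟨a1, a2⟩, a3⟩, a4⟩ :=
    ((((h3.and h4).and h5).filter_mono nhdsWithin_le_nhds).and h6).exists
  exact ⟨s, a4, a3, by linarith, by linarith⟩

theorem chain_mono {q : Dy → HH} {ε ε' : ℝ} (h : ChainH q ε) (hε : ε ≤ ε') : ChainH q ε' :=
  ⟨h.1.trans hε, fun d S => (h.2 d S).trans
    (mul_le_mul_of_nonneg_right hε (Real.sqrt_nonneg _))⟩

theorem int_eq (hT3 : St_T3) {F : (Dy → ℝ) → ℝ} (hF : Mono F) (γ : ℝ) (v : Dy → HH) (t : ℝ) :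
    ∫ ω, SR F (XV γ v t ω) [] ∂gm =
      (∫⁻ ω, ENNReal.ofReal (SR F (XV γ v t ω) []) ∂gm).toReal :=
  integral_eq_lintegral_of_nonneg_ae (Eventually.of_forall fun _ => SR_nonneg hF _)
    ((hT3.2.2.2.2.2.2.2.1 F [] hF.1).comp (meas_XV γ v t)).aestronglyMeasurable

theorem item3 (hG1 : St_G1) (hG3 : St_G3) (hCH : St_CH) (hM0 : St_M0) (hMOD : St_MOD)
    (hDISC : St_DISC) (hT1 : St_T1) (hT3 : St_T3) (hFM : St_FM) (hMB : St_MB) (hR : St_R)
    (γ : ℝ) (hγ : γ ∈ Ioo (0 : ℝ) 2) (F : (Dy → ℝ) → ℝ) (hF : Mono F) (ε : ℝ) (hε : 0 < ε) :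
    ∃ r0 ≥ 2, ∀ r ≥ r0, ∃ t0, ∀ v, Gram v (cov0 r) → ∀ t ≥ t0,
    |Real.exp (-γ * t) * ∫ ω, SR F (XV γ v t ω) [] ∂gm - cc γ F * r ^ (γ ^ 2 / 2)| ≤
      ε * r ^ (γ ^ 2 / 2) := by
  have : IsProbabilityMeasure gm := hG1.1
  obtain ⟨C, hC, hS⟩ := setup hM0 hMOD hDISC hT1
  obtain ⟨K, hK0, hK⟩ := item1 hM0 hMOD hDISC hT1 hFM γ hγ
  obtain ⟨s, hs0, hs1, hsu, hsl⟩ := choose_s γ (cc γ F) K ε hε
  obtain ⟨ε0, hε0, hT⟩ := tail_small hG1 hCH hT3 γ s hγ.1 hs0
  refine ⟨max 2 (C / ε0), le_max_left _ _, fun r hr => ?_⟩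
  have hr2 : r ≥ 2 := (le_max_left _ _).trans hr
  have hr0 : 0 < r := by linarith
  obtain ⟨g, q, hg, hq, ho, hv', -⟩ := hS r hr2
  have hq' : ChainH q ε0 := chain_mono hq (by
    have h1 : C / ε0 ≤ r := (le_max_right _ _).trans hr
    rw [div_le_iff₀ hε0] at h1
    rw [div_le_iff₀ hr0]
    linarith)
  have hl : 0 ≤ Real.log r := Real.log_nonneg (by linarith)
  set ρ : ℝ := r ^ (γ ^ 2 / 2) with hρ
  have hρ0 : 0 < ρ := Real.rpow_pos_of_pos hr0 _
  have hB : BddM F := ⟨hF.1, 1, hF.2.1⟩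
  obtain ⟨hI, hlim⟩ := (hR γ hγ).1 F hB (Real.log r) hl _ hv'
  have e : Real.exp (γ ^ 2 * Real.log r / 2) = ρ := by
    rw [hρ, Real.rpow_def_of_pos hr0]; congr 1; ring
  rw [e] at hlim
  obtain ⟨u0, hu0⟩ := (Metric.tendsto_atTop.1 hlim) (s * ρ) (mul_pos hs0 hρ0)
  refine ⟨u0 + s, fun v hv t ht => ?_⟩
  have hSRm : Measurable fun x : Dy → ℝ => ENNReal.ofReal (SR F x []) :=
    (hT3.2.2.2.2.2.2.2.1 F [] hF.1).ennreal_ofReal
  set Φ : ℝ≥0∞ := ∫⁻ ω, ENNReal.ofReal (SR F (XV γ g t ω) []) ∂gm with hΦ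
  set Ψ : ℝ → ℝ≥0∞ := fun u =>
    ∫⁻ ω, ENNReal.ofReal (SR F (XV γ (fun S => g S + q S) u ω) []) ∂gm with hΨ
  have e1 : ∫ ω, SR F (XV γ v t ω) [] ∂gm = Φ.toReal := by
    rw [int_eq hT3 hF, hΦ]
    congr 1
    exact law_eq hG3 hv hg (fun x => ENNReal.ofReal (SR F (drift (QQ γ) x t) []))
      (hSRm.comp (meas_drift _ _))
  have hb : ∀ u, ∫⁻ ω, nB (XV γ g u ω) ∂gm ≤ ENNReal.ofReal (K * ρ) * eE (γ * u) := by
    intro u
    refine (hK r hr2 g hg u).trans (le_of_eq ?_)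
    rw [eE, ← ENNReal.ofReal_mul (mul_nonneg hK0 hρ0.le)]
  have hΦf : Φ ≠ ∞ := by
    refine ne_top_of_le_ne_top (ENNReal.mul_ne_top ENNReal.ofReal_ne_top (eE_ne_top _))
      (le_trans ?_ (hb t))
    exact lintegral_mono fun ω => SR_le_nB hT1 hF _
  have hfin : ∀ u, ∫⁻ ω, nB (XV γ (fun S => g S + q S) u ω) ∂gm ≠ ∞ := by
    intro u
    obtain ⟨K1, hK1⟩ := hMB γ hγ 1 one_pos (by
      rw [lt_div_iff₀ (pow_pos hγ.1 2)]; nlinarith [hγ.1, hγ.2])
    have := hK1 (Real.log r) _ hv' u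
    simp only [ENNReal.rpow_one] at this
    exact ne_top_of_le_ne_top ENNReal.ofReal_ne_top this
  have hΨf : ∀ u, Ψ u ≠ ∞ := fun u =>
    ne_top_of_le_ne_top (hfin u) (lintegral_mono fun ω => SR_le_nB hT1 hF _)
  have hΨl : ∀ u ≥ u0, |Real.exp (-γ * u) * (Ψ u).toReal - ρ * cc γ F| < s * ρ := by
    intro u hu
    have := hu0 u hu
    rwa [Real.dist_eq, int_eq hT3 hF] at this
  have hZ : Measurable fun ω : Om => zs fun S => ω (q S) := hCH.1.comp (meas_fam q)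
  have hP : ENNReal.ofReal (1 - s) ≤ gm {ω | zs (fun S => ω (q S)) ≤ s} := by
    have hms : MeasurableSet {ω : Om | zs (fun S => ω (q S)) ≤ s} :=
      measurableSet_le hZ measurable_const
    have h1 : gm {ω | zs (fun S => ω (q S)) ≤ s}ᶜ ≤ ENNReal.ofReal s := by
      refine le_trans ?_ (hT q hq')
      rw [← lintegral_indicator_one hms.compl]
      refine lintegral_mono fun ω => ?_
      by_cases h5 : s < zs fun S => ω (q S)
      · refine le_trans (indicator_le_self _ _ ω) ?_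
        simp only [ind, h5, if_true, one_mul, Pi.one_apply, eE]
        rw [← ENNReal.ofReal_one]
        exact ENNReal.ofReal_le_ofReal (Real.one_le_exp (mul_nonneg hγ.1.le (hCH.2.1 _)))
      · rw [indicator_of_notMem (by simpa using h5)]
        exact zero_le
    have h4 := prob_add_prob_compl (μ := gm) hms
    have h5 : ENNReal.ofReal (1 - s) + ENNReal.ofReal s ≤
        gm {ω | zs (fun S => ω (q S)) ≤ s} + ENNReal.ofReal s := by
      rw [← ENNReal.ofReal_add (by linarith) hs0.le, sub_add_cancel, ENNReal.ofReal_one, ← h4]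
      gcongr
    exact (ENNReal.add_le_add_iff_right ENNReal.ofReal_ne_top).1 h5
  have hlow : Φ * ENNReal.ofReal (1 - s) ≤ Ψ (t + s) := by
    refine le_trans (by gcongr) (lower hG1 hG3 hCH hq ho γ t s _ hSRm ?_)
    filter_upwards [ae_lt_top (hT3.1.comp (meas_XV γ _ (t + s))) (hfin (t + s))] with ω h1 x hx
    exact ENNReal.ofReal_le_ofReal (SR_mono hT1 hF hx h1.ne)
  have hup : Ψ (t - s) ≤ Φ + ENNReal.ofReal (K * ρ) * eE (γ * t) * ENNReal.ofReal s := by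
    refine (upper hG1 hG3 hCH hT1 hT3 hq ho γ t s hγ.1.le hs0.le hF _ ENNReal.ofReal_ne_top
      hb).trans ?_
    gcongr
    exact hT q hq'
  have hlow' : Φ.toReal * (1 - s) ≤ (Ψ (t + s)).toReal := by
    have := ENNReal.toReal_mono (hΨf _) hlow
    rwa [ENNReal.toReal_mul, ENNReal.toReal_ofReal (by linarith)] at this
  have hup' : (Ψ (t - s)).toReal ≤ Φ.toReal + K * ρ * Real.exp (γ * t) * s := by
    have h1 : ENNReal.ofReal (K * ρ) * eE (γ * t) * ENNReal.ofReal s ≠ ∞ :=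
      ENNReal.mul_ne_top (ENNReal.mul_ne_top ENNReal.ofReal_ne_top (eE_ne_top _))
        ENNReal.ofReal_ne_top
    have := ENNReal.toReal_mono (ENNReal.add_ne_top.2 ⟨hΦf, h1⟩) hup
    rwa [ENNReal.toReal_add hΦf h1, ENNReal.toReal_mul, ENNReal.toReal_mul, eE,
      ENNReal.toReal_ofReal (mul_nonneg hK0 hρ0.le), ENNReal.toReal_ofReal (Real.exp_pos _).le,
      ENNReal.toReal_ofReal hs0.le] at this
  have ha := (abs_lt.1 (hΨl (t + s) (by linarith))).2
  have hb' := (abs_lt.1 (hΨl (t - s) (by linarith))).1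
  rw [e1, abs_le]
  set E := Real.exp (-γ * t) with hE
  have hE0 : 0 < E := Real.exp_pos _
  have ea : Real.exp (γ * s) * Real.exp (-γ * (t + s)) = E := by
    rw [← Real.exp_add, hE]; congr 1; ring
  have eb : Real.exp (-(γ * s)) * Real.exp (-γ * (t - s)) = E := by
    rw [← Real.exp_add, hE]; congr 1; ring
  have ec : E * Real.exp (γ * t) = 1 := by
    rw [hE, ← Real.exp_add]; simp
  constructor
  · have h1 : Real.exp (-(γ * s)) * ((cc γ F - s) * ρ) ≤ E * (Ψ (t - s)).toReal := by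
      rw [← eb, mul_assoc]
      refine mul_le_mul_of_nonneg_left ?_ (Real.exp_pos _).le
      linarith
    have h2 : E * (Ψ (t - s)).toReal ≤ E * Φ.toReal + K * ρ * s := by
      calc E * (Ψ (t - s)).toReal ≤ E * (Φ.toReal + K * ρ * Real.exp (γ * t) * s) :=
            mul_le_mul_of_nonneg_left hup' hE0.le
        _ = E * Φ.toReal + K * ρ * s * (E * Real.exp (γ * t)) := by ring
        _ = _ := by rw [ec, mul_one]
    have h3 := mul_le_mul_of_nonneg_right hsl hρ0.le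
    nlinarith
  · have h1 : E * (Ψ (t + s)).toReal ≤ Real.exp (γ * s) * ((cc γ F + s) * ρ) := by
      rw [← ea, mul_assoc]
      refine mul_le_mul_of_nonneg_left ?_ (Real.exp_pos _).le
      linarith
    have h2 : E * Φ.toReal * (1 - s) ≤ (cc γ F + ε) * ρ * (1 - s) := by
      have h3 := mul_le_mul_of_nonneg_left hlow' hE0.le
      have h4 := mul_le_mul_of_nonneg_right hsu hρ0.le
      nlinarith
    have h5 := le_of_mul_le_mul_right h2 (by linarith)
    linarith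

end H0L

theorem blk_H0L (hG1 : St_G1) (_hG1D : St_G1D) (_hG2 : St_G2) (hG3 : St_G3) (hCH : St_CH)
    (hM0 : St_M0) (hMOD : St_MOD) (hDISC : St_DISC) (hT1 : St_T1) (hT3 : St_T3) (hFM : St_FM)
    (hMB : St_MB) (hR : St_R) : St_H0L := by
  intro γ hγ
  refine ⟨?_, fun p hp hp' r hr => H0L.item2 hG1 hG3 hCH hM0 hMOD hDISC hT1 hT3 hMB γ hγ p hp hp' r hr,
    fun F hF ε hε => H0L.item3 hG1 hG3 hCH hM0 hMOD hDISC hT1 hT3 hFM hMB hR γ hγ F hF ε hε⟩
  obtain ⟨K, -, hK⟩ := H0L.item1 hM0 hMOD hDISC hT1 hFM γ hγ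
  exact ⟨K, hK⟩

end

end Pool.Agent.Lib.APPS
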