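import Pool.Agent.Lib.APPS.Blue2

/-!
Exponential moments at the local limit level.
-/

namespace Pool.Agent.Lib.APPS

open MeasureTheory ProbabilityTheory Filter Topology Set Metric
open scoped NNReal ENNReal RealInnerProductSpace Classical

noncomputable section

namespace UL

lemma eE_mono {s t : ℝ} (h : s ≤ t) : eE s ≤ eE t :=
  ENNReal.ofReal_le_ofReal (Real.exp_le_exp.2 h)

lemma eE_add (s t : ℝ) : eE (s + t) = eE s * eE t := by
  rw [eE, eE, eE, Real.exp_add, ENNReal.ofReal_mul (Real.exp_pos _).le]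

lemma eE_ne (s : ℝ) : eE s ≠ ∞ := ENNReal.ofReal_ne_top

lemma meas_eE : Measurable eE := ENNReal.measurable_ofReal.comp Real.measurable_exp

lemma meas_abs (w : HH) : Measurable fun ω : Om => eE |ω w| := meas_eE.comp (meas_ev w).abs

lemma ind_mono {p q : Prop} (h : p → q) : ind p ≤ ind q := by
  by_cases hp : p
  · simp [ind, hp, h hp]
  · simp [ind, hp]

lemma ind_and (p q : Prop) : ind (p ∧ q) = ind p * ind q := by
  by_cases hp : p <;> by_cases hq : q <;> simp [ind, hp, hq]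

lemma X_add (M : Model) (γ u : ℝ) (ω ω' : Om) (W : Dy) :
    M.X γ u (ω + ω') W = M.X γ u ω W + ω' (M.eS W) := by
  simp only [Model.X, drift, LinearMap.add_apply]
  ring

/-- Vectors with bounded interactions. -/
structure Ok (M : Model) (φ : ℂ → ℝ) (B : ℝ) (w : HH) : Prop where
  nrm : ‖w‖ ≤ B
  psi : |⟪gr φ, w⟫| ≤ B
  vp : ∀ T, IsTr T → ∑ P ∈ two T, |⟪M.vp T P, w⟫| ≤ B
  eS : ∀ A, |⟪w, M.eS A⟫| ≤ B

lemma Ok.sub {M : Model} {φ : ℂ → ℝ} {B : ℝ} {w w' : HH} (h : Ok M φ B w) (h' : Ok M φ B w') :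
    Ok M φ (4 * B) ((2 : ℝ) • (w - w')) := by
  have key : ∀ a b : ℝ, |2 * (a - b)| ≤ 2 * |a| + 2 * |b| := fun a b => by
    rw [abs_mul, abs_two]
    linarith [abs_sub a b]
  refine ⟨?_, ?_, fun T hT => ?_, fun A => ?_⟩
  · rw [norm_smul, Real.norm_two]
    linarith [norm_sub_le w w', h.nrm, h'.nrm]
  · rw [real_inner_smul_right, inner_sub_right]
    linarith [key ⟪gr φ, w⟫ ⟪gr φ, w'⟫, h.psi, h'.psi]
  · simp only [real_inner_smul_right, inner_sub_right]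
    refine (Finset.sum_le_sum fun P _ => key _ _).trans ?_
    rw [Finset.sum_add_distrib, ← Finset.mul_sum, ← Finset.mul_sum]
    linarith [h.vp T hT, h'.vp T hT]
  · rw [real_inner_smul_left, inner_sub_left]
    linarith [key ⟪w, M.eS A⟫ ⟪w', M.eS A⟫, h.eS A, h'.eS A]

lemma Ok.shift {M : Model} {φ : ℂ → ℝ} {B : ℝ} {w : HH} (h : Ok M φ B w) {T : Finset Dy}
    (hT : IsTr T) (ω : Om) {s L : ℝ} {t : Dy → ℝ} (hs : |s| ≤ 1) (ht : ∀ P, |t P| ≤ L) :
    eE |(ω + s • dv (gr φ) + ∑ P ∈ two T, t P • dv (M.vp T P)) w| ≤ eE (B + L * B) * eE |ω w| := by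
  rw [← eE_add]
  refine eE_mono ?_
  have hL : 0 ≤ L := (abs_nonneg _).trans (ht [])
  simp only [LinearMap.add_apply, LinearMap.smul_apply, LinearMap.sum_apply, dv_apply, smul_eq_mul]
  have h1 : |s * ⟪gr φ, w⟫| ≤ B := by
    rw [abs_mul]
    exact (mul_le_of_le_one_left (abs_nonneg _) hs).trans h.psi
  have h2 : |∑ P ∈ two T, t P * ⟪M.vp T P, w⟫| ≤ L * B := by
    refine (Finset.abs_sum_le_sum_abs _ _).trans ?_
    refine le_trans ?_ (mul_le_mul_of_nonneg_left (h.vp T hT) hL)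
    rw [Finset.mul_sum]
    refine Finset.sum_le_sum fun P _ => ?_
    rw [abs_mul]
    exact mul_le_mul_of_nonneg_right (ht P) (abs_nonneg _)
  linarith [abs_add_three (ω w) (s * ⟪gr φ, w⟫) (∑ P ∈ two T, t P * ⟪M.vp T P, w⟫)]

lemma ok_ub (hB : St_BMP) (hG : St_GEO1) (hG2 : St_GEO2) (hT1 : St_T1) (M : Model)
    (hM : box [] ⊆ M.O) {φ : ℂ → ℝ} (hφ : IsPsi M φ) :
    (∃ B, ∀ S, Ok M φ B (M.ub S)) ∧ ∀ T P, ⟪M.vp T P, gr φ⟫ = 0 := by
  obtain ⟨-, E, C, hE, hC, -, hb⟩ := hB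
  obtain ⟨-, h2, h3, h4, -, h6, h7, -⟩ := hb M
  obtain ⟨-, -, -, -, -, -, t7, t8, t9, t10, -⟩ := hT1
  have hsub : ∀ S, box S ⊆ box [] := fun S => (hG.2.2.2.2.1 S []).2 List.nil_suffix
  have h0 : ∀ S, ⟪M.ub S, gr φ⟫ = 0 := fun S =>
    h7 S φ hφ.1 ⟨1, fun x hx => hφ.2.2.1.self_of_nhdsSet x (hsub S hx)⟩
  have hl : ∀ T, IsTr T → ∀ S, ∑ W ∈ lvs T, |⟪M.ub W, M.ub S⟫| ≤ C := by
    intro T hT S
    by_cases hS : S ∈ T
    · rw [← Finset.sum_filter_of_ne (p := fun W => S <:+ W) fun W hW hne => by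
        by_contra h
        exact hne (by rw [(h3 W S (fun h' => ((t8 T hT W).1 hW).1 (hT S hS W h')) h).1, abs_zero])]
      refine (Finset.sum_le_sum fun W _ => (real_inner_comm (M.ub S) (M.ub W)) ▸ h4 S W).trans ?_
      simp only [div_pow, ← Finset.mul_sum, ← Finset.sum_div]
      rw [hG2.2.2.2.2.2.2.2.1 T hT S hS, div_self (pow_pos (hG.1 S).1 2).ne', mul_one]
    · obtain ⟨W0, hW0, h⟩ := t10 T hT S hS
      rw [Finset.sum_eq_single_of_mem W0 hW0 fun W hW hne => by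
        rw [(h3 W S (fun h' => hne ((List.suffix_or_suffix_of_suffix h' h).elim
          (t9 T hT W hW W0 hW0) fun h'' => (t9 T hT W0 hW0 W hW h'').symm))
          fun h' => hne (t9 T hT W0 hW0 W hW (h.trans h')).symm).1, abs_zero]]
      refine (h4 W0 S).trans (mul_le_of_le_one_right hC.le (pow_le_one₀
        (div_pos (hG.1 _).1 (hG.1 _).1).le ((div_le_one (hG.1 _).1).2 ?_)))
      exact pow_le_pow_of_le_one (by norm_num) (by norm_num) h.length_le
  have hi : ∀ T, IsTr T → ∀ S, ∀ g : Dy → Fin 2 × Fin 2, (∀ P ∈ two T, g P :: P ∈ lvs T) →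
      ∑ P ∈ two T, |⟪M.ub (g P :: P), M.ub S⟫| ≤ C := by
    intro T hT S g hg
    refine le_trans ?_ (hl T hT S)
    rw [← Finset.sum_image (s := two T) (g := fun P => g P :: P)
      (f := fun W => |⟪M.ub W, M.ub S⟫|) fun P _ P' _ h => (List.cons.inj h).2]
    exact Finset.sum_le_sum_of_subset_of_nonneg (Finset.image_subset_iff.2 hg)
      fun _ _ _ => abs_nonneg _
  refine ⟨⟨E + 1 + 2 * C, fun S => ⟨?_, ?_, fun T hT => ?_, fun A => ?_⟩⟩, fun T P => ?_⟩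
  · nlinarith [h2 S, norm_nonneg (M.ub S)]
  · rw [real_inner_comm, h0, abs_zero]
    positivity
  · simp only [Model.vp, inner_sub_left]
    refine (Finset.sum_le_sum fun P _ => abs_sub _ _).trans ?_
    rw [Finset.sum_add_distrib]
    linarith [hi T hT S (fun P => (pr T P).1) fun P hP => (t7 T hT P hP).2.2.1,
      hi T hT S (fun P => (pr T P).2) fun P hP => (t7 T hT P hP).2.2.2]
  · have := h6 S A ((hsub S).trans hM)
    rw [abs_of_nonneg this.1]
    linarith [this.2]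
  · rw [Model.vp, inner_sub_left, h0, h0, sub_zero]

lemma tilt (hG2 : St_G2) (hT3 : St_T3) (M : Model) (γ : ℝ) {φ : ℂ → ℝ} {B : ℝ} {w : HH}
    (h : Ok M φ B w) (p : (Dy → ℝ) → Prop) (hp : MeasurableSet {x | p x})
    (hm : ∀ x y, (∀ S, x S ≤ y S) → p x → p y) :
    ∫⁻ ω, ind (p (sh (M.X γ 0 ω) 1)) * eE |ω w| ∂gm ≤
      2 * eE (B ^ 2 / 2) * gm {ω | p (M.X γ (1 + B) ω)} := by
  obtain ⟨-, -, -, -, -, m6, -, -, -, -, m11, m12, -⟩ := hT3
  have hf : Measurable fun ω => ind (p (sh (M.X γ 0 ω) 1)) :=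
    (m12 Om _ ((m6.comp ((m11 M γ 0).1.prodMk measurable_const)) hp)).1
  have hs : MeasurableSet {ω | p (M.X γ (1 + B) ω)} := (m11 M γ (1 + B)).1 hp
  have key : ∀ v : HH, ‖v‖ ≤ B → (∀ A, ⟪v, M.eS A⟫ ≤ B) →
      ∫⁻ ω, ind (p (sh (M.X γ 0 ω) 1)) * eE (ω v) ∂gm ≤
        eE (B ^ 2 / 2) * gm {ω | p (M.X γ (1 + B) ω)} := by
    intro v h1 h2
    calc _ ≤ ∫⁻ ω, eE (B ^ 2 / 2) * (ind (p (sh (M.X γ 0 ω) 1)) * eE (ω v - ‖v‖ ^ 2 / 2)) ∂gm := by
          refine lintegral_mono fun ω => ?_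
          rw [mul_left_comm, ← eE_add]
          gcongr
          exact eE_mono (by nlinarith [norm_nonneg v])
      _ = eE (B ^ 2 / 2) * ∫⁻ ω, ind (p (sh (M.X γ 0 (ω + dv v)) 1)) ∂gm := by
          rw [lintegral_const_mul' _ _ (eE_ne _), hG2.2.1 v _ hf]
      _ ≤ _ := by
          gcongr
          rw [← lintegral_indicator_one hs]
          refine lintegral_mono fun ω => (ind_mono (q := p (M.X γ (1 + B) ω))
            (hm _ _ fun S => ?_)).trans (le_of_eq ?_)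
          · have := h2 S
            rw [sh, X_add, dv_apply]
            simp only [Model.X, drift]
            linarith
          · simp [ind, Set.indicator_apply]
  calc _ ≤ ∫⁻ ω, (ind (p (sh (M.X γ 0 ω) 1)) * eE (ω w) +
          ind (p (sh (M.X γ 0 ω) 1)) * eE (ω (-w))) ∂gm := by
        refine lintegral_mono fun ω => ?_
        rw [← mul_add, map_neg]
        gcongr
        rcases abs_choice (ω w) with e | e <;> rw [e]
        exacts [le_self_add, le_add_self]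
    _ ≤ _ := by
        rw [lintegral_add_left (hf.fun_mul (meas_eE.fun_comp (meas_ev w))), mul_assoc, two_mul]
        exact add_le_add (key w h.nrm fun A => (abs_le.1 (h.eS A)).2)
          (key (-w) (by rw [norm_neg]; exact h.nrm) fun A => by
            rw [inner_neg_left]
            linarith [(abs_le.1 (h.eS A)).1])

lemma sq_le (hG : St_G1D) {I : Type} (s : Finset I) (w : I → HH) {B : ℝ} (h : ∀ i, ‖w i‖ ≤ B) :
    ∫⁻ ω, (∑ i ∈ s, eE |ω (w i)|) ^ 2 ∂gm ≤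
      ENNReal.ofReal (2 * Real.exp (B ^ 2) * s.card) ^ 2 := by
  have h1 : ∀ i, ∫⁻ ω, eE (2 * |ω (w i)|) ∂gm ≤ 2 * eE (B ^ 2) ^ 2 := fun i => by
    refine (hG.2.2.2.2.2.2 (w i) 2).trans ?_
    rw [pow_two (eE _), ← eE_add]
    gcongr
    exact eE_mono (by nlinarith [norm_nonneg (w i), h i])
  have h2 : ∀ i, Measurable fun ω : Om => eE (2 * |ω (w i)|) := fun i =>
    meas_eE.comp ((meas_ev _).abs.const_mul 2)
  calc _ ≤ ∫⁻ ω, ∑ i ∈ s, ∑ j ∈ s, (eE (2 * |ω (w i)|) + eE (2 * |ω (w j)|)) ∂gm := by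
        refine lintegral_mono fun ω => ?_
        rw [pow_two, Finset.sum_mul_sum]
        refine Finset.sum_le_sum fun i _ => Finset.sum_le_sum fun j _ => ?_
        rw [← eE_add]
        rcases le_total |ω (w i)| |ω (w j)| with e | e
        · exact (eE_mono (by linarith)).trans le_add_self
        · exact (eE_mono (by linarith)).trans le_self_add
    _ ≤ ∑ _i ∈ s, ∑ _j ∈ s, (2 * eE (B ^ 2) ^ 2 + 2 * eE (B ^ 2) ^ 2) := by
        rw [lintegral_finsetSum _ fun i _ => Finset.measurable_sum _ fun j _ =>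
          (h2 i).fun_add (h2 j)]
        refine Finset.sum_le_sum fun i _ => ?_
        rw [lintegral_finsetSum _ fun j _ => (h2 i).fun_add (h2 j)]
        refine Finset.sum_le_sum fun j _ => ?_
        rw [lintegral_add_left (h2 i)]
        exact add_le_add (h1 i) (h1 j)
    _ = _ := by
        rw [ENNReal.ofReal_mul (by positivity), ENNReal.ofReal_mul (by norm_num),
          ENNReal.ofReal_natCast, ENNReal.ofReal_ofNat, ← eE]
        simp only [Finset.sum_const, nsmul_eq_mul]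
        ring

lemma core (hMOD : St_MOD) (hT1 : St_T1) (hU : St_U) {γ : ℝ} (hγ : γ ∈ Ioo (0 : ℝ) 2) (M : Model)
    (hM : box [] ⊆ M.O) {φ : ℂ → ℝ} (hφ : IsPsi M φ) (q B K1 K2 : ℝ) (hK2 : 0 ≤ K2) :
    ∃ K : ℝ, ∀ ι : ℕ, 1 ≤ ι → ∀ (Y : Finset Dy → Om → ℝ≥0∞) (Yb : Om → ℝ≥0∞),
      (∀ T, Measurable (Y T)) → Measurable Yb →
      (∀ T, IsTr T → ∀ (ω : Om) (s L : ℝ) (t : Dy → ℝ), |s| ≤ 1 → (∀ P, |t P| ≤ L) →
        HasTr (sh (M.X γ 0 ω) s) T →
        Y T (ω + s • dv (gr φ) + ∑ P ∈ two T, t P • dv (M.vp T P)) ≤ eE (B + L * B) * Yb ω) →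
      (∀ T : Finset Dy, T.card = ι → ∫⁻ ω, Y T ω ^ 2 ∂gm ≤ ENNReal.ofReal (K2 * ι) ^ 2) →
      ∫⁻ ω, ind ((ι : ℝ≥0∞) ≤ nB (sh (M.X γ 0 ω) 1)) * Yb ω ∂gm ≤
        ENNReal.ofReal (K1 * (ι : ℝ) ^ (-q)) →
      ∫⁻ ω, ind (nB (M.X γ 0 ω) = ι) * Y (tr (M.X γ 0 ω)) ω ∂gm ≤
        ENNReal.ofReal (K * (ι : ℝ) ^ (-(q + 1))) := by
  obtain ⟨-, -, -, -, -, -, -, -, -, -, -, -, -, -, -, -, hψ, -⟩ := hMOD M
  obtain ⟨-, -, t3, t4, -, -, -, -, -, -, -, -, t13, -, t15, t16, -⟩ := hT1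
  obtain ⟨L, K, ι0, -, hK, hU⟩ := hU γ hγ M hM φ hφ (2 / 3) (by norm_num)
  obtain ⟨K3, hK3⟩ := (((tendsto_rpow_mul_exp_neg_mul_atTop_nhds_zero (q + 2) 3
    (by norm_num)).comp tendsto_natCast_atTop_atTop).bddAbove_range)
  have hK3' : ∀ ι : ℕ, (ι : ℝ) ^ (q + 2) * Real.exp (-3 * ι) ≤ K3 := fun ι => hK3 ⟨ι, rfl⟩
  have hK30 : 0 ≤ K3 := le_trans (by positivity) (hK3' 0)
  refine ⟨K * Real.exp (B + L * B) * |K1| + K2 * K3 + Real.exp B * |K1| * ι0,
    fun ι hι Y Yb hY hYb h1 h2 h3 => ?_⟩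
  have hι0 : (0 : ℝ) < ι := by exact_mod_cast hι
  have hp : 0 < (ι : ℝ) ^ (-(q + 1)) := by positivity
  have e1 : (ι : ℝ) ^ (-q) = ι * (ι : ℝ) ^ (-(q + 1)) := by
    rw [mul_comm, ← Real.rpow_add_one hι0.ne']
    congr 1
    ring
  have h4 : ∀ c, ∫⁻ ω, ind ((ι : ℝ≥0∞) ≤ nB (sh (M.X γ 0 ω) 1)) * (eE c * Yb ω) ∂gm ≤
      ENNReal.ofReal (Real.exp c * |K1| * ι * (ι : ℝ) ^ (-(q + 1))) := fun c => by
    simp only [mul_left_comm _ (eE c)]
    rw [lintegral_const_mul' _ _ (eE_ne _), mul_assoc, mul_assoc,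
      ENNReal.ofReal_mul (Real.exp_pos _).le, ← e1, eE]
    gcongr
    exact h3.trans (ENNReal.ofReal_le_ofReal (by gcongr; exact le_abs_self _))
  by_cases hι1 : ι0 ≤ ι
  · refine (hU ι hι1 two Y (fun ω => eE (B + L * B) * Yb ω) (ENNReal.ofReal (K2 * ι))
      (fun T hT => ⟨subset_rfl, ?_⟩) hY (hYb.const_mul _) (fun T hT ω s t hs ht k1 _ => ?_)
      fun T hT => h2 T ((t4 ι T).1 hT).2).trans ?_
    · obtain ⟨k1, k2⟩ := (t4 ι T).1 hT
      have k3 : (2 : ℝ) * ι ≤ 3 * (two T).card := by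
        rw [← k2]
        exact_mod_cast (t3 T k1).2
      linarith
    · refine h1 T ((t4 ι T).1 hT).1 ω s L t hs ht ?_
      convert k1 using 1
      funext W
      rw [X_add, LinearMap.smul_apply, dv_apply, hψ φ hφ, smul_eq_mul, mul_one, sh]
    · refine (add_le_add_left (mul_le_mul_right (h4 _) _) _).trans ?_
      rw [← ENNReal.ofReal_mul (by positivity), eE, ← ENNReal.ofReal_mul (Real.exp_pos _).le,
        ← ENNReal.ofReal_add (by positivity) (by positivity)]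
      refine ENNReal.ofReal_le_ofReal ?_
      have k1 : K / ι * (Real.exp (B + L * B) * |K1| * ι * (ι : ℝ) ^ (-(q + 1))) =
          K * Real.exp (B + L * B) * |K1| * (ι : ℝ) ^ (-(q + 1)) := by field_simp
      have k2 : (ι : ℝ) ^ (q + 2) * (ι : ℝ) ^ (-(q + 1)) = ι := by
        rw [← Real.rpow_add hι0, show q + 2 + -(q + 1) = 1 by ring, Real.rpow_one]
      have k3 : Real.exp (-3 * ι) * (K2 * ι) ≤ K2 * K3 * (ι : ℝ) ^ (-(q + 1)) := by
        calc _ = K2 * ((ι : ℝ) ^ (q + 2) * Real.exp (-3 * ι)) * (ι : ℝ) ^ (-(q + 1)) := by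
              linear_combination (-(K2 * Real.exp (-3 * ι))) * k2
          _ ≤ _ := by gcongr; exact hK3' ι
      have k4 : 0 ≤ Real.exp B * |K1| * ι0 * (ι : ℝ) ^ (-(q + 1)) := by positivity
      rw [k1]
      linarith
  · refine le_trans (lintegral_mono fun ω => ?_) ((h4 B).trans (ENNReal.ofReal_le_ofReal ?_))
    · by_cases k1 : nB (M.X γ 0 ω) = ι
      · have k2 := h1 _ (t15 (M.X γ 0 ω)) ω 0 0 0 (by simp) (by simp) (by
          convert t13 (M.X γ 0 ω) (by rw [k1]; exact ENNReal.natCast_ne_top _) using 1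
          funext W
          simp [sh])
        simp only [zero_smul, add_zero, Pi.zero_apply, Finset.sum_const_zero, zero_mul] at k2
        refine mul_le_mul' (ind_mono fun _ => ?_) k2
        rw [← k1]
        exact t16 _ _ fun S => by simp [sh]
      · simp [ind, k1]
    · have k1 : (ι : ℝ) ≤ ι0 := by exact_mod_cast (not_le.1 hι1).le
      gcongr
      have k2 : Real.exp B * |K1| * ι ≤ Real.exp B * |K1| * ι0 := by gcongr
      have k3 : 0 ≤ K * Real.exp (B + L * B) * |K1| + K2 * K3 := by positivity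
      linarith

end UL

open UL in
theorem blk_UL (_hG1 : St_G1) (hG1D : St_G1D) (hG2 : St_G2) (hMOD : St_MOD) (hBMP : St_BMP)
    (hGEO1 : St_GEO1) (hGEO2 : St_GEO2) (hT1 : St_T1) (hT3 : St_T3) (_hRW1 : St_RW1)
    (hRUS : St_RUS) (hU : St_U) : St_UL := by
  intro γ hγ M hM
  have hgr : Gram M.eS (covE M.C0) := by simpa using (hMOD M).2.2.2.2.2.2.1 [] hM
  have hmon : ∀ x y, (∀ S, x S ≤ y S) → nB x ≤ nB y := hT1.2.2.2.2.2.2.2.2.2.2.2.2.2.2.2.1
  have hnB : ∀ ι : ℕ, MeasurableSet {x | (ι : ℝ≥0∞) ≤ nB x} := fun ι =>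
    measurableSet_le measurable_const hT3.1
  have one : ∀ φ, IsPsi M φ → ∀ B, ∃ K : ℝ, ∀ ι : ℕ, 1 ≤ ι → ∀ w, Ok M φ B w →
      ∫⁻ ω, ind (nB (M.X γ 0 ω) = ι) * eE |ω w| ∂gm ≤
        ENNReal.ofReal (K * (ι : ℝ) ^ (-(th γ + 2))) := by
    intro φ hφ B
    obtain ⟨K0, h0⟩ := (hRUS γ hγ).2 M.C0
    obtain ⟨K, hK⟩ := core hMOD hT1 hU hγ M hM hφ (th γ + 1) B
      (2 * Real.exp (B ^ 2 / 2) * (K0 * Real.exp (γ * (1 + B)) ^ (th γ + 1)))
      (2 * Real.exp (B ^ 2)) (by positivity)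
    refine ⟨K, fun ι hι w hw => ?_⟩
    have hι1 : (1 : ℝ) ≤ ι := by exact_mod_cast hι
    rw [show th γ + 2 = th γ + 1 + 1 by ring]
    refine hK ι hι (fun _ ω => eE |ω w|) (fun ω => eE |ω w|) (fun _ => meas_abs w) (meas_abs w)
      (fun T hT ω s L t hs ht _ => hw.shift hT ω hs ht) (fun T _ => ?_) ?_
    · have := sq_le hG1D (Finset.univ : Finset Unit) (fun _ => w) fun _ => hw.nrm
      simp only [Finset.univ_unique, Finset.sum_singleton, Finset.card_singleton] at this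
      refine this.trans ?_
      gcongr
    · refine (tilt hG2 hT3 M γ hw (fun x => (ι : ℝ≥0∞) ≤ nB x) (hnB ι)
        fun x y h k => k.trans (hmon x y h)).trans ?_
      have := h0 M.eS hgr (1 + B) ι hι1
      rw [ENNReal.ofReal_natCast, XV_eS, Real.div_rpow (Real.exp_pos _).le (by positivity)] at this
      rw [Real.rpow_neg (by positivity), mul_assoc _ (K0 * _), ENNReal.ofReal_mul (by positivity),
        ENNReal.ofReal_mul (by norm_num), ENNReal.ofReal_ofNat, mul_assoc K0, ← div_eq_mul_inv, eE]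
      gcongr
  obtain ⟨φ0, hφ0⟩ := (hMOD M).2.2.2.2.2.2.2.2.2.2.2.2.2.2.2.1 hM
  obtain ⟨B, hB⟩ := (ok_ub hBMP hGEO1 hGEO2 hT1 M hM hφ0).1
  refine ⟨(one φ0 hφ0 B).imp fun K hK ι hι S => hK ι hι _ (hB S), fun φ hφ => ?_, ?_⟩
  · refine (one φ hφ (‖gr φ‖ ^ 2 + 1)).imp fun K hK ι hι => hK ι hι _
      ⟨by nlinarith, ?_, fun T _ => ?_, fun A => ?_⟩
    · rw [real_inner_self_eq_norm_sq, abs_of_nonneg (by positivity)]
      linarith
    · simp only [(ok_ub hBMP hGEO1 hGEO2 hT1 M hM hφ).2, abs_zero, Finset.sum_const_zero]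
      positivity
    · rw [(hMOD M).2.2.2.2.2.2.2.2.2.2.2.2.2.2.2.2.1 φ hφ, abs_one]
      nlinarith
  have hw : ∀ S, Ok M φ0 (4 * B) ((2 : ℝ) • M.vs S) := fun S => (hB S).sub (hB _)
  have hB0 : 0 ≤ 4 * B := (norm_nonneg _).trans (hw []).nrm
  have e : ∀ (ω : Om) (v : HH), 2 * |ω v| = |ω ((2 : ℝ) • v)| := fun ω v => by
    rw [map_smul, smul_eq_mul, abs_mul, abs_two]
  simp only [e]
  generalize 4 * B = B' at hw hB0
  obtain ⟨K0, h0⟩ := (hRUS γ hγ).1 0 0 M.C0 le_rfl hγ.1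
  obtain ⟨K, hK⟩ := core hMOD hT1 hU hγ M hM hφ0 (th γ) B'
    (4 * (2 * Real.exp (B' ^ 2 / 2)) *
      (K0 * Real.exp (γ * (1 + B')) * Real.exp (γ * (1 + B')) ^ th γ))
    (2 * Real.exp (B' ^ 2) * 4) (by positivity)
  refine ⟨K, fun ι hι => ?_⟩
  have hι1 : (1 : ℝ) ≤ ι := by exact_mod_cast hι
  have hX : Measurable fun ω => sh (M.X γ 0 ω) 1 := hT3.2.2.2.2.2.1.comp
    ((hT3.2.2.2.2.2.2.2.2.2.2.1 M γ 0).1.prodMk measurable_const)
  have hi : ∀ p : (Dy → ℝ) → Prop, MeasurableSet {x | p x} →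
      Measurable fun ω => ind (p (sh (M.X γ 0 ω) 1)) := fun p hp =>
    (hT3.2.2.2.2.2.2.2.2.2.2.2.1 Om _ (hX hp)).1
  have hP : ∀ P : Dy, MeasurableSet {x : Dy → ℝ | 0 < x P} := fun P =>
    measurableSet_lt measurable_const (measurable_pi_apply P)
  have hs : ∀ P : Dy, Measurable fun ω : Om =>
      ∑ d : Fin 2 × Fin 2, eE |ω ((2 : ℝ) • M.vs (d :: P))| := fun P =>
    Finset.measurable_sum _ fun d _ => meas_abs _
  refine hK ι hι (fun T ω => ∑ P ∈ T, ∑ d : Fin 2 × Fin 2, eE |ω ((2 : ℝ) • M.vs (d :: P))|)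
    (fun ω => ∑' P : Dy, ind (0 < sh (M.X γ 0 ω) 1 P) *
      ∑ d : Fin 2 × Fin 2, eE |ω ((2 : ℝ) • M.vs (d :: P))|)
    (fun T => Finset.measurable_sum _ fun P _ => hs P)
    (Measurable.tsum fun P => (hi _ (hP P)).mul (hs P))
    (fun T hT ω s L t k1 k2 k3 => ?_) (fun T hT => ?_) ?_
  · refine le_trans ?_ (mul_le_mul_right (ENNReal.sum_le_tsum T) _)
    rw [Finset.mul_sum]
    refine Finset.sum_le_sum fun P hP' => ?_
    have k4 : 0 < sh (M.X γ 0 ω) 1 P := by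
      have := (k3 P).1 hP' P List.suffix_rfl
      simp only [sh] at this ⊢
      linarith [(abs_le.1 k1).2]
    rw [ind, if_pos k4, one_mul, Finset.mul_sum]
    exact Finset.sum_le_sum fun d _ => (hw _).shift hT ω k1 k2
  · have := sq_le hG1D (T ×ˢ (Finset.univ : Finset (Fin 2 × Fin 2)))
      (fun i => (2 : ℝ) • M.vs (i.2 :: i.1)) fun i => (hw _).nrm
    simp only [Finset.sum_product, Finset.card_product, hT] at this
    refine this.trans (le_of_eq ?_)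
    congr 2
    simp
    ring
  · simp only [← ENNReal.tsum_mul_left, ← mul_assoc, ← ind_and, Finset.mul_sum]
    have hm : ∀ P : Dy, MeasurableSet {x : Dy → ℝ | (ι : ℝ≥0∞) ≤ nB x ∧ 0 < x P} := fun P =>
      (hnB ι).inter (hP P)
    rw [lintegral_tsum fun P => (Finset.measurable_sum _ fun d _ =>
      (hi _ (hm P)).fun_mul (meas_abs _)).aemeasurable]
    have k1 := h0 M.eS ctr (fun _ _ => 0) hgr
      ⟨fun R => (hGEO1.2.2.2.1 R).2.2.1, fun _ _ => by simp⟩ (1 + B') ι (by linarith) hι1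
    rw [ENNReal.ofReal_natCast, XV_eS, Real.div_rpow (Real.exp_pos _).le (by positivity)] at k1
    calc _ ≤ ∑' P : Dy, 4 * (2 * eE (B' ^ 2 / 2)) *
          gm {ω | (ι : ℝ≥0∞) ≤ nB (M.X γ (1 + B') ω) ∧ 0 < M.X γ (1 + B') ω P} := by
          refine ENNReal.tsum_le_tsum fun P => ?_
          rw [lintegral_finsetSum _ fun d _ => (hi _ (hm P)).fun_mul (meas_abs _)]
          refine (Finset.sum_le_sum fun d _ => tilt hG2 hT3 M γ (hw (d :: P)) _ (hm P)
            fun x y h k => ⟨k.1.trans (hmon x y h), k.2.trans_le (h P)⟩).trans (le_of_eq ?_)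
          simp [mul_assoc]
      _ ≤ _ := by
          rw [ENNReal.tsum_mul_left, Real.rpow_neg (by positivity)]
          rw [show ∀ a b c d e f : ℝ, a * b * c * d * e * f = a * b * (c * d * (e * f)) from
            fun _ _ _ _ _ _ => by ring, ENNReal.ofReal_mul (by positivity),
            ENNReal.ofReal_mul (by positivity), ← div_eq_mul_inv, ← eE]
          refine mul_le_mul' (le_of_eq ?_) (le_trans (le_of_eq ?_) k1)
          · rw [← mul_assoc]
            norm_num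
          · congr 1
            funext R
            congr 1
            ext ω
            have e' : ∀ x : Dy → ℝ, addF x (fun _ => 0) = x := fun x => funext fun A => add_zero _
            simp only [e', add_zero, Set.mem_ofPred_eq, and_comm]

end

end Pool.Agent.Lib.APPS
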