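import Pool.Agent.Lib.APPS.Blue4
import Pool.Agent.Lib.APPS.B_UL

/-!
Block H3: uniform integrability of the volume density inside the leaves.
-/

namespace Pool.Agent.Lib.APPS

open MeasureTheory ProbabilityTheory Filter Topology Set Metric
open scoped NNReal ENNReal RealInnerProductSpace Classical

noncomputable section

namespace H3

open UL

/-- distance to the boundary of the unit square -/
def dd (z : ℂ) : ℝ := min (min z.re (1 - z.re)) (min z.im (1 - z.im))

theorem dd_le (z : ℂ) : dd z ≤ z.re ∧ dd z ≤ 1 - z.re ∧ dd z ≤ z.im ∧ dd z ≤ 1 - z.im :=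
  ⟨(min_le_left _ _).trans (min_le_left _ _), (min_le_left _ _).trans (min_le_right _ _),
    (min_le_right _ _).trans (min_le_left _ _), (min_le_right _ _).trans (min_le_right _ _)⟩

theorem box_nil : box [] = Complex.measurableEquivRealProd ⁻¹' (Icc 0 1 ×ˢ Icc 0 1) := by
  ext z
  simp only [box, corner, side, mem_ofPred_eq, mem_preimage, mem_prod]
  simp

theorem ae_dd : ∀ᵐ z ∂(volume.restrict (box [])), 0 < dd z := by
  have hq := Complex.volume_preserving_equiv_real_prod.quasiMeasurePreserving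
  have h1 : ∀ c : ℝ, ∀ᵐ z : ℂ, z.re ≠ c := fun c =>
    (Measure.quasiMeasurePreserving_fst.comp hq).ae (Measure.ae_ne volume c)
  have h2 : ∀ c : ℝ, ∀ᵐ z : ℂ, z.im ≠ c := fun c =>
    (Measure.quasiMeasurePreserving_snd.comp hq).ae (Measure.ae_ne volume c)
  rw [ae_restrict_iff' (by
    rw [box_nil]
    exact Complex.measurableEquivRealProd.measurable (measurableSet_Icc.prod measurableSet_Icc))]
  filter_upwards [h1 0, h1 1, h2 0, h2 1] with z a b c d hz
  simp only [box, corner, side, mem_Icc] at hz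
  simp only [Complex.zero_re, Complex.zero_im, List.length_nil, pow_zero, zero_add] at hz
  obtain ⟨⟨k1, k2⟩, k3, k4⟩ := hz
  exact lt_min (lt_min (k1.lt_of_ne' a) (sub_pos.2 (k2.lt_of_ne b)))
    (lt_min (k3.lt_of_ne' c) (sub_pos.2 (k4.lt_of_ne d)))

theorem int_fin {s : ℝ} (hs : s < 1) : ∫⁻ z in box [], eE (-s * Real.log (dd z)) ≠ ∞ := by
  set φ : ℝ → ℝ≥0∞ := fun t => ENNReal.ofReal (t ^ (-s)) + ENNReal.ofReal ((1 - t) ^ (-s))
    with hφ
  have m1 : Measurable fun t : ℝ => ENNReal.ofReal (t ^ (-s)) := by fun_prop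
  have hm : Measurable φ := m1.add (m1.comp (by fun_prop))
  have h1 : ∫⁻ t in Icc (0 : ℝ) 1, φ t < ∞ := by
    have a1 := intervalIntegral.intervalIntegrable_rpow' (a := 0) (b := 1) (r := -s) (by linarith)
    have a2 := (a1.comp_sub_left 1).symm
    simp only [sub_zero, sub_self] at a2
    rw [intervalIntegrable_iff_integrableOn_Icc_of_le zero_le_one] at a1 a2
    rw [hφ, lintegral_add_left m1]
    exact ENNReal.add_lt_top.2 ⟨a1.lintegral_lt_top, a2.lintegral_lt_top⟩
  have h2 : ∫⁻ z in box [], (φ z.re + φ z.im) < ∞ := by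
    have e := Complex.volume_preserving_equiv_real_prod.setLIntegral_comp_preimage_emb
      Complex.measurableEquivRealProd.measurableEmbedding (fun p => φ p.1 + φ p.2)
      (Icc 0 1 ×ˢ Icc 0 1)
    rw [box_nil]
    refine (le_of_eq e).trans_lt ?_
    rw [Measure.volume_eq_prod, ← Measure.prod_restrict, 
      lintegral_add_left (hm.fun_comp measurable_fst),
      lintegral_prod _ (hm.fun_comp measurable_fst).aemeasurable,
      lintegral_prod_symm _ (hm.fun_comp measurable_snd).aemeasurable]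
    simp only [lintegral_const, Measure.restrict_apply_univ, Real.volume_Icc, sub_zero,
      ENNReal.ofReal_one, mul_one]
    exact ENNReal.add_lt_top.2 ⟨h1, h1⟩
  refine (lt_of_le_of_lt (lintegral_mono_ae ?_) h2).ne
  filter_upwards [ae_dd] with z hz
  rw [eE, mul_comm, ← Real.rpow_def_of_pos hz]
  have : dd z = z.re ∨ dd z = 1 - z.re ∨ dd z = z.im ∨ dd z = 1 - z.im := by
    unfold dd
    rcases min_choice (min z.re (1 - z.re)) (min z.im (1 - z.im)) with h | h <;> rw [h]
    · rcases min_choice z.re (1 - z.re) with h | h <;> simp [h]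
    · rcases min_choice z.im (1 - z.im) with h | h <;> simp [h]
  rcases this with h | h | h | h <;> rw [h]
  · exact le_self_add.trans le_self_add
  · exact le_add_self.trans le_self_add
  · exact le_self_add.trans le_add_self
  · exact le_add_self.trans le_add_self

theorem ball_sub (hG : St_GEO1) (S : Dy) (z : ℂ) :
    closedBall (zS S z) (dd z * side S) ⊆ box S := by
  intro w hw
  rw [mem_closedBall, dist_eq_norm] at hw
  have hs := (hG.1 S).1
  have h1 := abs_le.1 ((Complex.abs_re_le_norm _).trans hw)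
  have h2 := abs_le.1 ((Complex.abs_im_le_norm _).trans hw)
  simp only [zS, Complex.sub_re, Complex.add_re, Complex.sub_im, Complex.add_im,
    Complex.re_ofReal_mul, Complex.im_ofReal_mul] at h1 h2
  obtain ⟨a, b, c, d⟩ := dd_le z
  refine ⟨⟨?_, ?_⟩, ?_, ?_⟩ <;> nlinarith [h1.1, h1.2, h2.1, h2.2]

theorem split (hT1 : St_T1) (x : Dy → ℝ) (ι : ℕ) (F : Finset Dy → ℝ≥0∞) :
    ind (nB x = ι) * F (tr x) = ∑ T ∈ trees ι, ind (HasTr x T) * F T := by
  obtain ⟨-, -, -, t4, -, -, -, -, -, -, -, t12, t13, -⟩ := hT1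
  by_cases h : nB x = ι
  · have h1 := t13 x (by rw [h]; exact ENNReal.natCast_ne_top _)
    rw [Finset.sum_eq_single_of_mem (tr x) ((t4 _ _).2 ⟨(t12 _ _ h1).1, by
      have := (t12 _ _ h1).2.2.1
      rw [h] at this
      exact_mod_cast this.symm⟩) fun T _ hne => by
        rw [ind, if_neg fun h' => hne (t12 _ _ h').2.1.symm, zero_mul]]
    simp [ind, h, h1]
  · rw [ind, if_neg h, zero_mul]
    refine (Finset.sum_eq_zero fun T hT => ?_).symm
    rw [ind, if_neg fun h' => h (by rw [(t12 _ _ h').2.2.1, ((t4 _ _).1 hT).2]), zero_mul]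

theorem lvs_sub {T : Finset Dy} (hT : T ≠ ∅) :
    lvs T ⊆ (T ×ˢ (Finset.univ : Finset (Fin 2 × Fin 2))).image fun p => p.2 :: p.1 := by
  intro S hS
  rw [lvs, if_neg hT] at hS
  simp only [Finset.mem_sdiff, Finset.mem_biUnion, Finset.mem_image, Finset.mem_univ,
    true_and] at hS
  obtain ⟨⟨P, hP, d, rfl⟩, -⟩ := hS
  exact Finset.mem_image.2 ⟨(P, d), by simp [hP], rfl⟩

theorem ins_mono {r r' : ℝ} (h0 : 0 ≤ r) (h : r ≤ r') (hG : St_GEO1) (z : ℂ) (A : Dy) :
    ins r z A ≤ ins r' z A := by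
  have : 0 < max ‖z - ctr A‖ (side A) := (hG.1 A).1.trans_le (le_max_right _ _)
  exact Real.posLog_le_posLog (by positivity) (by gcongr)

theorem ins_self (hG : St_GEO1) (z : ℂ) (A : Dy) : ins (side A) z A = 0 := by
  have h := (hG.1 A).1
  have : 0 < max ‖z - ctr A‖ (side A) := h.trans_le (le_max_right _ _)
  rw [ins, Real.posLog_eq_zero_iff, abs_of_pos (by positivity), div_le_one this]
  exact le_max_right _ _

theorem cvx (l c : ℝ) : ConvexOn ℝ univ fun t : ℝ => Real.exp (l * (t - c)) := by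
  refine ⟨convex_univ, fun x _ y _ a b ha hb hab => ?_⟩
  have := convexOn_exp.2 (mem_univ (l * (x - c))) (mem_univ (l * (y - c))) ha hb hab
  simp only [smul_eq_mul] at this ⊢
  refine le_trans (le_of_eq ?_) this
  congr 1
  linear_combination (-l * c) * hab.symm

/-- the local limit bound for the exponential of the fine field -/
theorem main (hG1D : St_G1D) (hG2 : St_G2) (hMOD : St_MOD) (hBMP : St_BMP) (hYV : St_YV)
    (hG : St_GEO1) (hT1 : St_T1) (hT3 : St_T3) (hRUS : St_RUS) (hU : St_U) {γ : ℝ}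
    (hγ : γ ∈ Ioo (0 : ℝ) 2) (M : Model) (hM : box [] ⊆ M.O) {lam : ℝ} (h0 : 0 ≤ lam)
    (h1 : lam ≤ 1) (h2 : lam < γ) : ∃ K C : ℝ, ∀ ι : ℕ, 1 ≤ ι → ∀ z, 0 < dd z →
      ∫⁻ ω, ind (nB (M.X γ 0 ω) = ι) * ∑ S ∈ lvs (tr (M.X γ 0 ω)),
        eE (lam * ω (M.Yv (zS S z) (dd z * side S) - M.eS S) -
          (-lam ^ 2 * Real.log (dd z) + C)) ∂gm ≤ ENNReal.ofReal (K * (ι : ℝ) ^ (-(th γ + 1))) := by
  obtain ⟨C, hC⟩ := hYV
  obtain ⟨φ, hφ⟩ := (hMOD M).2.2.2.2.2.2.2.2.2.2.2.2.2.2.2.1 hM
  have hψ := (hMOD M).2.2.2.2.2.2.2.2.2.2.2.2.2.2.2.2.1 φ hφ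
  have hgr : Gram M.eS (covE M.C0) := by simpa using (hMOD M).2.2.2.2.2.2.1 [] hM
  obtain ⟨K0, hK0⟩ := (hRUS γ hγ).1 lam |C| M.C0 h0 h2
  obtain ⟨K, hK⟩ := core hMOD hT1 hU hγ M hM hφ (th γ) (2 * |C|)
    (4 * (K0 * Real.exp (γ * 1) * Real.exp (γ * 1) ^ th γ)) 8 (by norm_num)
  refine ⟨K, |C|, fun ι hι z hz => ?_⟩
  have hι1 : (1 : ℝ) ≤ ι := by exact_mod_cast hι
  obtain ⟨-, _E, _C, -, -, -, hb⟩ := hBMP
  obtain ⟨-, -, b3, -⟩ := hb M
  obtain ⟨-, -, -, -, -, -, t7, -, t9, -, -, t12, t13, -⟩ := hT1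
  have hsub : ∀ S, box S ⊆ box [] := fun S => (hG.2.2.2.2.1 S []).2 List.nil_suffix
  set h : Dy → HH := fun S => lam • (M.Yv (zS S z) (dd z * side S) - M.eS S) with hh
  set a : ℝ := -lam ^ 2 * Real.log (dd z) + |C| with ha
  have hY := fun S => hC M S (zS S z) (dd z * side S) hM (mul_pos hz (hG.1 S).1) (ball_sub hG S z)
  have hlog : Real.log (dd z) ≤ 0 := Real.log_nonpos hz.le (by linarith [(dd_le z).1, (dd_le z).2.1])
  have hl2 : lam ^ 2 ≤ 1 := pow_le_one₀ h0 h1
  have ha0 : 0 ≤ a := by nlinarith [abs_nonneg C, sq_nonneg lam]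
  have hn : ∀ S, ‖h S‖ ^ 2 ≤ a := by
    intro S
    have k := (hY S).2.1
    rw [mul_comm (dd z), div_mul_cancel_left₀ (hG.1 S).1.ne', Real.log_inv] at k
    rw [hh, norm_smul, mul_pow, Real.norm_eq_abs, sq_abs, mul_comm (dd z)]
    nlinarith [le_abs_self C, abs_nonneg C, sq_nonneg lam]
  have e : ∀ (ω : Om) S, lam * ω (M.Yv (zS S z) (dd z * side S) - M.eS S) = ω (h S) :=
    fun ω S => by rw [hh, map_smul, smul_eq_mul]
  simp only [e]
  have hme : ∀ S, Measurable fun ω : Om => eE (ω (h S) - a) := fun S =>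
    meas_eE.comp ((meas_ev _).sub_const _)
  have hX : Measurable fun ω => sh (M.X γ 0 ω) 1 := hT3.2.2.2.2.2.1.comp
    ((hT3.2.2.2.2.2.2.2.2.2.2.1 M γ 0).1.prodMk measurable_const)
  have hi : ∀ p : (Dy → ℝ) → Prop, MeasurableSet {x | p x} →
      Measurable fun ω => ind (p (sh (M.X γ 0 ω) 1)) := fun p hp =>
    (hT3.2.2.2.2.2.2.2.2.2.2.2.1 Om _ (hX hp)).1
  have hP : ∀ P : Dy, MeasurableSet {x : Dy → ℝ | 0 < x P} := fun P =>
    measurableSet_lt measurable_const (measurable_pi_apply P)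
  have hnB : MeasurableSet {x | (ι : ℝ≥0∞) ≤ nB x} := measurableSet_le measurable_const hT3.1
  have hs : ∀ P : Dy, Measurable fun ω : Om =>
      ∑ d : Fin 2 × Fin 2, eE (ω (h (d :: P)) - a) := fun P =>
    Finset.measurable_sum _ fun d _ => hme _
  have hinj : ∀ T : Finset Dy, Set.InjOn (fun p : Dy × (Fin 2 × Fin 2) => p.2 :: p.1)
      ↑(T ×ˢ (Finset.univ : Finset (Fin 2 × Fin 2))) := fun T p _ p' _ hp =>
    Prod.ext (List.cons.inj hp).2 (List.cons.inj hp).1
  have hub : ∀ T, IsTr T → ∀ S ∈ lvs T, ∀ g : Dy → Fin 2 × Fin 2,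
      (∀ P ∈ two T, g P :: P ∈ lvs T) → ∑ P ∈ two T, |⟪M.ub (g P :: P), h S⟫| ≤ |C| := by
    intro T hT S hS g hg
    have k1 : ∀ S', |⟪M.ub S', h S⟫| ≤ |C| := fun S' => by
      rw [hh, real_inner_smul_right, real_inner_comm, abs_mul, abs_of_nonneg h0]
      exact (mul_le_of_le_one_left (abs_nonneg _) h1).trans
        (((hY S).2.2.2.1 S').trans (le_abs_self _))
    have k2 : ∀ P ∈ two T, P ≠ S.tail → |⟪M.ub (g P :: P), h S⟫| = 0 := fun P hP hne => by
      have n1 : ¬S <:+ g P :: P := fun k => hne (by rw [t9 T hT S hS _ (hg P hP) k]; rfl)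
      have n2 : ¬g P :: P <:+ S := fun k => hne (by rw [← t9 T hT _ (hg P hP) S hS k]; rfl)
      rw [hh, real_inner_smul_right, inner_sub_right, real_inner_comm, (hY S).2.2.2.2.1 _ n1 n2,
        (b3 _ _ n2 n1).2 ((hsub _).trans hM)]
      simp
    by_cases hm : S.tail ∈ two T
    · rw [Finset.sum_eq_single_of_mem _ hm k2]
      exact k1 _
    · rw [Finset.sum_eq_zero fun P hP => k2 P hP fun k => hm (k ▸ hP)]
      exact abs_nonneg _
  have key := hK ι hι (fun T ω => if T = ∅ then 0 else ∑ S ∈ lvs T, eE (ω (h S) - a))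
    (fun ω => ∑' P : Dy, ind (0 < sh (M.X γ 0 ω) 1 P) *
      ∑ d : Fin 2 × Fin 2, eE (ω (h (d :: P)) - a))
    (fun T => by
      by_cases hT : T = ∅
      · simp [hT]
      · simp only [if_neg hT]
        exact Finset.measurable_sum _ fun S _ => hme S)
    (Measurable.tsum fun P => (hi _ (hP P)).mul (hs P))
    (fun T hT ω s L t k1 k2 k3 => ?_) (fun T hT => ?_) ?_
  · refine le_trans (lintegral_mono fun ω => ?_) key
    by_cases k : nB (M.X γ 0 ω) = ι
    · have k1 := (t12 _ _ (t13 (M.X γ 0 ω) (by rw [k]; exact ENNReal.natCast_ne_top _))).2.2.1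
      rw [if_neg fun k2 => by
        rw [k, k2] at k1
        have : ι = 0 := by exact_mod_cast k1
        omega]
    · simp [ind, k]
  · by_cases hT0 : T = ∅
    · simp [hT0]
    have hL : 0 ≤ L := (abs_nonneg _).trans (k2 [])
    rw [if_neg hT0]
    calc _ ≤ ∑ S ∈ lvs T, eE (2 * |C| + L * (2 * |C|)) * eE (ω (h S) - a) := by
          refine Finset.sum_le_sum fun S hS => ?_
          rw [← eE_add]
          refine eE_mono ?_
          simp only [LinearMap.add_apply, LinearMap.smul_apply, LinearMap.sum_apply, dv_apply,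
            smul_eq_mul]
          have j1 : ⟪gr φ, h S⟫ = 0 := by
            rw [hh, real_inner_smul_right, inner_sub_right, hψ, real_inner_comm,
              (hY S).2.2.2.2.2.1 φ hφ, sub_self, mul_zero]
          have j2 : ∑ P ∈ two T, t P * ⟪M.vp T P, h S⟫ ≤ L * (2 * |C|) := by
            calc _ ≤ ∑ P ∈ two T, L * (|⟪M.ub ((pr T P).1 :: P), h S⟫| +
                  |⟪M.ub ((pr T P).2 :: P), h S⟫|) := by
                  refine Finset.sum_le_sum fun P _ => (le_abs_self _).trans ?_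
                  rw [abs_mul, Model.vp, inner_sub_left]
                  exact mul_le_mul (k2 P) (abs_sub _ _) (abs_nonneg _) hL
              _ ≤ _ := by
                  rw [← Finset.mul_sum, Finset.sum_add_distrib]
                  refine mul_le_mul_of_nonneg_left ?_ hL
                  linarith [hub T hT S hS _ fun P hP => (t7 T hT P hP).2.2.1,
                    hub T hT S hS _ fun P hP => (t7 T hT P hP).2.2.2]
          rw [j1]
          linarith [abs_nonneg C]
      _ ≤ _ := by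
          rw [← Finset.mul_sum]
          refine mul_le_mul_right ?_ _
          refine (Finset.sum_le_sum_of_subset (lvs_sub hT0)).trans ?_
          rw [Finset.sum_image (hinj T), Finset.sum_product]
          refine le_trans (Finset.sum_le_sum fun P hP' => ?_) (ENNReal.sum_le_tsum T)
          have k4 : 0 < sh (M.X γ 0 ω) 1 P := by
            have := (k3 P).1 hP' P List.suffix_rfl
            simp only [sh] at this ⊢
            linarith [(abs_le.1 k1).2]
          rw [ind, if_pos k4, one_mul]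
  · have hT0 : T ≠ ∅ := fun k => by
      rw [k] at hT
      simp at hT
      omega
    simp only [if_neg hT0]
    have k1 := sq_le hG1D (lvs T) h (B := Real.sqrt a) fun S => Real.le_sqrt_of_sq_le (hn S)
    rw [Real.sq_sqrt ha0] at k1
    have k2 : ((lvs T).card : ℝ) ≤ 4 * ι := by
      have := (Finset.card_le_card (lvs_sub hT0)).trans Finset.card_image_le
      rw [Finset.card_product, hT] at this
      simp only [Finset.card_univ, Fintype.card_prod, Fintype.card_fin] at this
      exact_mod_cast (by omega : (lvs T).card ≤ 4 * ι)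
    calc _ ≤ ∫⁻ ω, eE (-a) ^ 2 * (∑ S ∈ lvs T, eE |ω (h S)|) ^ 2 ∂gm := by
          refine lintegral_mono fun ω => ?_
          rw [← mul_pow, Finset.mul_sum]
          gcongr with S
          rw [← eE_add]
          exact eE_mono (by linarith [le_abs_self (ω (h S))])
      _ ≤ eE (-a) ^ 2 * ENNReal.ofReal (2 * Real.exp a * (lvs T).card) ^ 2 := by
          rw [lintegral_const_mul' _ _ (ENNReal.pow_ne_top (eE_ne _))]
          gcongr
      _ ≤ _ := by
          rw [← mul_pow, eE, ← ENNReal.ofReal_mul (Real.exp_pos _).le]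
          refine pow_le_pow_left' (ENNReal.ofReal_le_ofReal ?_) 2
          have : Real.exp (-a) * Real.exp a = 1 := by rw [← Real.exp_add]; simp
          calc _ = Real.exp (-a) * Real.exp a * (2 * (lvs T).card) := by ring
            _ ≤ _ := by rw [this]; linarith
  · simp only [← ENNReal.tsum_mul_left, ← mul_assoc, ← ind_and, Finset.mul_sum]
    have hm : ∀ P : Dy, MeasurableSet {x : Dy → ℝ | (ι : ℝ≥0∞) ≤ nB x ∧ 0 < x P} := fun P =>
      hnB.inter (hP P)
    rw [lintegral_tsum fun P => (Finset.measurable_sum _ fun d _ =>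
      (hi _ (hm P)).fun_mul (hme _)).aemeasurable]
    have k1 : ∀ d : Fin 2 × Fin 2, ∑' P : Dy, ∫⁻ ω, ind ((ι : ℝ≥0∞) ≤ nB (sh (M.X γ 0 ω) 1) ∧
        0 < sh (M.X γ 0 ω) 1 P) * eE (ω (h (d :: P)) - a) ∂gm ≤
        ENNReal.ofReal (K0 * Real.exp (γ * 1) * (Real.exp (γ * 1) / ι) ^ th γ) := by
      intro d
      have hf : ∀ P A, ⟪h (d :: P), M.eS A⟫ ≤ |C| + lam * ins (side P) (zS (d :: P) z) A := by
        intro P A
        have j1 := (hY (d :: P)).2.2.1 A
        have j2 := ins_mono (hG.1 (d :: P)).1.le (r' := side P) (pow_le_pow_of_le_one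
          (by norm_num) (by norm_num) (by simp)) hG (zS (d :: P) z) A
        rw [hh, real_inner_smul_left]
        nlinarith [le_abs_self C, abs_nonneg C]
      refine le_trans (ENNReal.tsum_le_tsum fun P => ?_) (hK0 M.eS (fun P => zS (d :: P) z)
        (fun P A => ⟪h (d :: P), M.eS A⟫) hgr ⟨fun P => (hG.2.2.2.2.1 _ _).2
          (List.suffix_cons d P) (ball_sub hG _ z (mem_closedBall_self
            (mul_pos hz (hG.1 _).1).le)), hf⟩ 1 ι zero_le_one hι1)
      calc _ ≤ ∫⁻ ω, ind ((ι : ℝ≥0∞) ≤ nB (sh (M.X γ 0 ω) 1) ∧ 0 < sh (M.X γ 0 ω) 1 P) *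
            eE (ω (h (d :: P)) - ‖h (d :: P)‖ ^ 2 / 2) ∂gm := by
            refine lintegral_mono fun ω => mul_le_mul_right (eE_mono ?_) _
            linarith [hn (d :: P)]
        _ = ∫⁻ ω, ind ((ι : ℝ≥0∞) ≤ nB (sh (M.X γ 0 (ω + dv (h (d :: P)))) 1) ∧
            0 < sh (M.X γ 0 (ω + dv (h (d :: P)))) 1 P) ∂gm := (hG2.2.1 _ _ (hi _ (hm P))).symm
        _ ≤ _ := by
            refine le_trans (lintegral_mono fun ω => ?_) (lintegral_indicator_one_le _)
            have j1 : sh (M.X γ 0 (ω + dv (h (d :: P)))) 1 =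
                addF (XV γ M.eS 1 ω) fun A => ⟪h (d :: P), M.eS A⟫ := by
              funext A
              rw [sh, X_add, dv_apply]
              simp only [Model.X, XV, drift, addF]
              ring
            rw [j1]
            by_cases j2 : (ι : ℝ≥0∞) ≤ nB (addF (XV γ M.eS 1 ω) fun A => ⟪h (d :: P), M.eS A⟫) ∧
                0 < addF (XV γ M.eS 1 ω) (fun A => ⟪h (d :: P), M.eS A⟫) P
            · rw [ind, if_pos j2, indicator_of_mem, Pi.one_apply]
              refine ⟨?_, by rw [ENNReal.ofReal_natCast]; exact j2.1⟩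
              have j3 := hf P P
              have j4 := j2.2
              rw [ins_self hG] at j3
              simp only [addF] at j4
              linarith
            · simp [ind, j2]
    calc _ = ∑ d : Fin 2 × Fin 2, ∑' P : Dy, ∫⁻ ω, ind ((ι : ℝ≥0∞) ≤ nB (sh (M.X γ 0 ω) 1) ∧
          0 < sh (M.X γ 0 ω) 1 P) * eE (ω (h (d :: P)) - a) ∂gm := by
          rw [← Summable.tsum_finsetSum fun _ _ => ENNReal.summable]
          exact tsum_congr fun P => lintegral_finsetSum _ fun d _ => (hi _ (hm P)).fun_mul (hme _)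
      _ ≤ _ := by
          refine (Finset.sum_le_sum fun d _ => k1 d).trans (le_of_eq ?_)
          rw [Finset.sum_const, nsmul_eq_mul, ← ENNReal.ofReal_natCast,
            ← ENNReal.ofReal_mul (by positivity), Real.div_rpow (Real.exp_pos _).le (by positivity),
            Real.rpow_neg (by positivity)]
          congr 1
          simp only [Finset.card_univ, Fintype.card_prod, Fintype.card_fin]
          push_cast
          ring

end H3

open H3 UL in
theorem blk_H3 (hG1 : St_G1) (hG1D : St_G1D) (hG2 : St_G2) (hMOD : St_MOD) (hBMP : St_BMP)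
    (hYV : St_YV) (_hFE : St_FE) (_hEXP2 : St_EXP2) (hGEO1 : St_GEO1) (_hGEO2 : St_GEO2)
    (hT1 : St_T1) (hT3 : St_T3) (hRW1 : St_RW1) (hRUS : St_RUS) (hU : St_U) (hKR : St_KR) :
    St_H3 := by
  intro γ hγ g M hL η hη
  have := hG1.1
  obtain ⟨-, -, -, -, -, -, hb0, hb1, hbγ⟩ := hRW1.2.2 γ hγ
  obtain ⟨lam, hl1, hl2⟩ := exists_between (lt_min hb1 hbγ)
  have hl3 : lam < 1 := hl2.trans_le (min_le_left _ _)
  have hl4 : lam < γ := hl2.trans_le (min_le_right _ _)
  have hl0 : 0 < lam := hb0.trans hl1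
  obtain ⟨K, C, hK⟩ := main hG1D hG2 hMOD hBMP hYV hGEO1 hT1 hT3 hRUS hU hγ M hL.sub hl0.le hl3.le
    hl4
  have hI := int_fin (s := lam ^ 2) (by nlinarith)
  set I := (∫⁻ z in box [], eE (-lam ^ 2 * Real.log (dd z))).toReal with hIdef
  have hI0 : 0 ≤ I := ENNReal.toReal_nonneg
  set W := |K| * Real.exp C * I + 1 with hW
  have hW0 : 0 < W := by positivity
  set m := Real.log (W / η) / (lam - bt γ) with hm
  have hmm : Real.exp (-((lam - bt γ) * m)) = η / W := by
    rw [hm, mul_div_cancel₀ _ (by linarith), Real.exp_neg, Real.exp_log (by positivity), inv_div]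
  refine ⟨Real.exp (bt γ * m), Real.exp_pos _, ?_⟩
  filter_upwards [eventually_ge_atTop 1] with ι hι
  have hι0 : (0 : ℝ) < ι := by exact_mod_cast hι
  obtain ⟨-, hkr, -⟩ := hKR g M hL
  have htr : ∀ T ∈ trees ι, IsTr T := fun T hT => ((hT1.2.2.2.1 ι T).1 hT).1
  have hH : ∀ T, Measurable fun ω => ind (HasTr (M.X γ 0 ω) T) := fun T =>
    (hT3.2.2.2.2.2.2.2.2.2.2.2.1 Om _
      ((hT3.2.2.2.2.2.2.2.2.2.2.1 M γ 0).1 (hT3.2.2.1 T).2.1)).1
  set Φ : Finset Dy → Dy → Om → ℂ → ℝ≥0∞ := fun T S ω z => ind (HasTr (M.X γ 0 ω) T) *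
    eE (lam * (M.kr g T ω (zS S z) - QQ γ * S.length * l2)) with hΦ
  have hΦm : ∀ T ∈ trees ι, ∀ S, Measurable fun p : Om × ℂ => Φ T S p.1 p.2 := by
    intro T hT S
    refine ((hH T).comp measurable_fst).mul (meas_eE.comp ?_)
    have j : Measurable fun p : Om × ℂ => (p.1, zS S p.2) := by unfold zS; fun_prop
    exact (((hkr T (htr T hT)).2.1.comp j).sub_const _).const_mul _
  have hΦs : Measurable fun p : Om × ℂ => ∑ T ∈ trees ι, ∑ S ∈ lvs T, Φ T S p.1 p.2 :=
    Finset.measurable_sum _ fun T hT => Finset.measurable_sum _ fun S _ => hΦm T hT S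
  have hΦω : ∀ z, ∀ T ∈ trees ι, ∀ S, Measurable fun ω => Φ T S ω z := fun z T hT S =>
    (hΦm T hT S).comp (f := fun ω => (ω, z)) measurable_prodMk_right
  have hΦz : ∀ ω, ∀ T ∈ trees ι, ∀ S, Measurable fun z => Φ T S ω z := fun ω T hT S =>
    (hΦm T hT S).comp (f := fun z => (ω, z)) measurable_prodMk_left
  have step1 : ∀ ω, ind (nB (M.X γ 0 ω) = ι) * ∑ S ∈ lvs (tr (M.X γ 0 ω)), ∫⁻ z in box [],
      ENNReal.ofReal (Real.exp (bt γ * (M.kr g (tr (M.X γ 0 ω)) ω (zS S z) -
        QQ γ * S.length * l2)) - Real.exp (bt γ * m)) ≤ ENNReal.ofReal (η / W) *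
      ∫⁻ z in box [], ∑ T ∈ trees ι, ∑ S ∈ lvs T, Φ T S ω z := by
    intro ω
    rw [split hT1 _ ι fun T => ∑ S ∈ lvs T, ∫⁻ z in box [],
      ENNReal.ofReal (Real.exp (bt γ * (M.kr g T ω (zS S z) -
        QQ γ * S.length * l2)) - Real.exp (bt γ * m)),
      lintegral_finsetSum _ fun T hT => Finset.measurable_sum _ fun S _ => hΦz ω T hT S,
      Finset.mul_sum]
    refine Finset.sum_le_sum fun T hT => ?_
    rw [lintegral_finsetSum _ fun S _ => hΦz ω T hT S, Finset.mul_sum, Finset.mul_sum]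
    refine Finset.sum_le_sum fun S _ => ?_
    rw [← lintegral_const_mul' _ _ ENNReal.ofReal_ne_top,
      ← lintegral_const_mul' _ _ (by unfold ind; split_ifs <;> simp)]
    refine lintegral_mono fun z => ?_
    rw [hΦ, mul_left_comm]
    refine mul_le_mul_right ?_ _
    rw [← hmm, ← eE, ← eE_add]
    generalize M.kr g T ω (zS S z) - QQ γ * S.length * l2 = t
    rcases le_total t m with j | j
    · rw [ENNReal.ofReal_of_nonpos (sub_nonpos.2 (Real.exp_le_exp.2 (by gcongr)))]
      exact zero_le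
    · refine (ENNReal.ofReal_le_ofReal (sub_le_self _ (Real.exp_pos _).le)).trans (eE_mono ?_)
      nlinarith
  have step2 : ∀ z, 0 < dd z → ∫⁻ ω, ∑ T ∈ trees ι, ∑ S ∈ lvs T, Φ T S ω z ∂gm ≤
      ENNReal.ofReal (|K| * Real.exp C * (ι : ℝ) ^ (-(th γ + 1))) *
        eE (-lam ^ 2 * Real.log (dd z)) := by
    intro z hz
    obtain ⟨C', hC'⟩ := hYV
    set a := -lam ^ 2 * Real.log (dd z) + C with ha
    have hme : ∀ T S, Measurable fun ω : Om => ind (HasTr (M.X γ 0 ω) T) *
        eE (lam * ω (M.Yv (zS S z) (dd z * side S) - M.eS S) - a) := fun T S =>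
      (hH T).mul (meas_eE.comp (((meas_ev _).const_mul _).sub_const _))
    calc _ ≤ eE a * ∫⁻ ω, ∑ T ∈ trees ι, ∑ S ∈ lvs T, ind (HasTr (M.X γ 0 ω) T) *
          eE (lam * ω (M.Yv (zS S z) (dd z * side S) - M.eS S) - a) ∂gm := by
          rw [lintegral_finsetSum _ fun T hT => Finset.measurable_sum _ fun S _ => hΦω z T hT S,
            lintegral_finsetSum _ fun T hT => Finset.measurable_sum _ fun S _ => hme T S,
            Finset.mul_sum]
          refine Finset.sum_le_sum fun T hT => ?_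
          rw [lintegral_finsetSum _ fun S _ => hΦω z T hT S,
            lintegral_finsetSum _ fun S _ => hme T S, Finset.mul_sum]
          refine Finset.sum_le_sum fun S hS => ?_
          have hbs := ball_sub hGEO1 S z
          have hd := mul_pos hz (hGEO1.1 S).1
          have j := (hkr T (htr T hT)).2.2.2 γ (zS S z) 0 (Submodule.zero_mem _)
            (M.Yv (zS S z) (dd z * side S)) (fun B hB => by
              rw [add_zero, (hC' M S _ _ hL.sub hd hbs).1 B (by
                by_cases k : S <:+ B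
                · exact Or.inl (hT1.2.2.2.2.2.2.2.2.1 T (htr T hT) S hS B hB k ▸ List.suffix_rfl)
                · exact Or.inr k), hL.U, M.bg0 _ (hL.sub ((hGEO1.2.2.2.2.1 S []).2
                  List.nil_suffix (hbs (mem_closedBall_self hd.le)))), sub_zero])
            (fun t => Real.exp (lam * (t - QQ γ * S.length * l2)))
            (cvx _ _) fun t => (Real.exp_pos _).le
          simp only [map_zero, sub_zero] at j
          refine le_trans j ?_
          rw [← lintegral_const_mul' _ _ (eE_ne _)]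
          refine lintegral_mono fun ω => ?_
          by_cases k : HasTr (M.X γ 0 ω) T
          · have k1 := ((hT1.2.2.2.2.2.2.2.2.2.2.1 _ T (htr T hT)).1 k).2 S hS
            simp only [Model.X, drift] at k1
            rw [ind, if_pos k, one_mul, one_mul, ← eE, ← eE_add, map_sub]
            exact eE_mono (by nlinarith)
          · simp [ind, k]
      _ ≤ eE a * ENNReal.ofReal (K * (ι : ℝ) ^ (-(th γ + 1))) := by
          refine mul_le_mul_right (le_trans (le_of_eq (lintegral_congr fun ω => ?_))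
            (hK ι hι z hz)) _
          rw [split hT1 _ ι fun T => ∑ S ∈ lvs T,
            eE (lam * ω (M.Yv (zS S z) (dd z * side S) - M.eS S) - a)]
          simp only [Finset.mul_sum]
      _ ≤ _ := by
          rw [ha, eE_add, mul_assoc, mul_comm]
          refine mul_le_mul_left ?_ _
          rw [eE, ← ENNReal.ofReal_mul (Real.exp_pos _).le]
          refine ENNReal.ofReal_le_ofReal ?_
          calc _ = K * Real.exp C * (ι : ℝ) ^ (-(th γ + 1)) := by ring
            _ ≤ _ := by gcongr; exact le_abs_self _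
  calc _ ≤ ENNReal.ofReal ((ι : ℝ) ^ (th γ + 1)) * (ENNReal.ofReal (η / W) *
        (ENNReal.ofReal (|K| * Real.exp C * (ι : ℝ) ^ (-(th γ + 1))) * ENNReal.ofReal I)) := by
        refine mul_le_mul_right ((lintegral_mono step1).trans ?_) _
        rw [lintegral_const_mul' _ _ ENNReal.ofReal_ne_top, lintegral_lintegral_swap
          hΦs.aemeasurable, hIdef, ENNReal.ofReal_toReal hI]
        refine mul_le_mul_right ?_ _
        rw [← lintegral_const_mul' _ _ ENNReal.ofReal_ne_top]
        exact lintegral_mono_ae (ae_dd.mono step2)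
    _ ≤ _ := by
        rw [← ENNReal.ofReal_mul (by positivity), ← ENNReal.ofReal_mul (by positivity),
          ← ENNReal.ofReal_mul (by positivity)]
        refine ENNReal.ofReal_le_ofReal ?_
        have j : (ι : ℝ) ^ (th γ + 1) * (ι : ℝ) ^ (-(th γ + 1)) = 1 := by
          rw [← Real.rpow_add hι0, add_neg_cancel, Real.rpow_zero]
        calc _ = (ι : ℝ) ^ (th γ + 1) * (ι : ℝ) ^ (-(th γ + 1)) *
              (η * ((|K| * Real.exp C * I) / W)) := by ring
          _ ≤ η := by
              rw [j, one_mul]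
              exact mul_le_of_le_one_right hη.le ((div_le_one hW0).2 (by linarith))

end

end Pool.Agent.Lib.APPS
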