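import Pool.Agent.Lib.APPS.B_H4x
import Pool.Agent.Lib.APPS.B_MBa

/-!
Localisation of the kriging predictor.
-/

namespace Pool.Agent.Lib.APPS

open MeasureTheory ProbabilityTheory Filter Topology Set Metric
open scoped NNReal ENNReal RealInnerProductSpace Classical

noncomputable section

namespace H4

open MB

/-- the integrand for a fixed tree -/
def Gf (g : Met) (M : Model) (γ : ℝ) (T : Finset Dy) (A S : Dy) (p : Om × ℂ) : ℝ≥0∞ :=
  ENNReal.ofReal (min 1 |M.kr g T p.1 (zS (S ++ A) p.2) - QQ γ * A.length * l2 -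
    kloc (QQ γ) (subT T A) (sub (M.X γ 0 p.1) A) (zS S p.2)|)

theorem meas_zS (W : Dy) : Measurable (zS W) := by
  unfold zS; fun_prop

theorem meas_Gf (hKR : St_KR) (hS0 : St_SCR0) {g : Met} {M : Model} (hL : Lnk g M) (γ : ℝ)
    {T : Finset Dy} (hT : IsTr T) (A S : Dy) : Measurable (Gf g M γ T A S) := by
  have h0 := ((hKR g M hL).2.1 T hT).2.1.comp
    (measurable_fst.prodMk ((meas_zS (S ++ A)).comp (measurable_snd (α := Om))))
  have h1 : Measurable fun p : Om × ℂ => M.kr g T p.1 (zS (S ++ A) p.2) := by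
    simpa only [Function.comp_def] using h0
  have h2 : Measurable fun p : Om × ℂ =>
      kloc (QQ γ) (subT T A) (sub (M.X γ 0 p.1) A) (zS S p.2) := by
    unfold kloc
    refine Finset.measurable_sum _ fun B _ => Measurable.mul ?_ ?_
    · exact ((hS0 _ (isTr_subT hT A)).2.2 B).measurable.comp ((meas_zS _).comp measurable_snd)
    · simp only [sub, Model.X, drift]
      exact ((((meas_ev _).comp measurable_fst).add_const _).sub_const _).add_const _
  exact (measurable_const.min ((h1.sub_const _).sub h2).abs).ennreal_ofReal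

theorem meas_has (hT3 : St_T3) (M : Model) (γ : ℝ) (T : Finset Dy) :
    Measurable fun ω => ind (HasTr (M.X γ 0 ω) T) :=
  (hT3.2.2.2.2.2.2.2.2.2.2.2.1 _ _
    ((hT3.2.2.2.2.2.2.2.2.2.2.1 M γ 0).1 (hT3.2.2.1 T).2.1)).1

theorem vol_sq (hG : St_GEO1) {d0 : ℝ} (hd : 0 < d0) : volume (sq d0) ≤ 1 := by
  have h : sq d0 ⊆ box [] := fun z hz => sq_ball hz (mem_closedBall_self hd.le)
  refine (measure_mono h).trans (le_of_eq ?_)
  rw [(hG.2.2.2.1 []).2.1]
  simp [side]

theorem meas_sq (d0 : ℝ) : MeasurableSet (sq d0) :=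
  (Complex.measurable_re measurableSet_Icc).inter (Complex.measurable_im measurableSet_Icc)

theorem jensen (hKR : St_KR) (hS0 : St_SCR0) (hT1 : St_T1) {g : Met} {M : Model} (hL : Lnk g M)
    (γ : ℝ) {T : Finset Dy} (hT : IsTr T) {A : Dy} (hA : A ∈ T) (S : Dy) (z : ℂ) (e : HH)
    (he : ∀ B ∈ lvs T, ⟪e + ∑ B : lvs (subT T A), lamL (subT T A) (zS S z) B • M.eS (B ++ A),
      M.eS B⟫ = g.U B (zS (S ++ A) z)) :
    ∫⁻ ω, ind (HasTr (M.X γ 0 ω) T) * Gf g M γ T A S (ω, z) ∂gm ≤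
      ∫⁻ ω, ind (HasTr (M.X γ 0 ω) T) * ENNReal.ofReal |ω e| ∂gm := by
  refine le_trans (lintegral_mono fun ω => ?_) (((hKR g M hL).2.1 T hT).2.2.2 γ (zS (S ++ A) z) _
    ?_ e he (fun t => |t|) convexOn_univ_norm abs_nonneg)
  · gcongr
    refine ENNReal.ofReal_le_ofReal ((min_le_right _ _).trans (le_of_eq ?_))
    rw [kloc_eq hS0 M γ (isTr_subT hT A)]
    congr 1
    ring
  · refine Submodule.sum_mem _ fun B _ => Submodule.smul_mem _ _ (Submodule.subset_span ?_)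
    exact ⟨_, (lvs_subT hT1 hT hA B).1 B.2, rfl⟩

theorem long_z (hKR : St_KR) (hS0 : St_SCR0) (hT1 : St_T1) (hT3 : St_T3) {g : Met} {M : Model}
    (hL : Lnk g M) (γ : ℝ) (ι n K D : ℕ) (z : ℂ) (ε : Finset Dy → Dy → Dy → HH)
    (he : ∀ T, IsTr T → ∀ A ∈ T, ∀ S, Good K D (subT T A) S → ∀ B ∈ lvs T,
      ⟪ε (subT T A) S A + ∑ B : lvs (subT T A), lamL (subT T A) (zS S z) B • M.eS (B ++ A),
      M.eS B⟫ = g.U B (zS (S ++ A) z)) :
    ∑ T ∈ trees ι, ∑ A ∈ T.filter (fun A => n ≤ A.length), ∑ S ∈ lev (3 * K),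
      ind (Good K D (subT T A) S) *
        ∫⁻ ω, ind (HasTr (M.X γ 0 ω) T) * Gf g M γ T A S (ω, z) ∂gm ≤
    ∑' A : Dy, ind (n ≤ A.length) *
      ∫⁻ ω, ind (nB (M.X γ 0 ω) = ι ∧ A ∈ tr (M.X γ 0 ω)) * ∑ S ∈ lev (3 * K),
        ind (Good K D (tr (sub (M.X γ 0 ω) A)) S) *
          ENNReal.ofReal |ω (ε (tr (sub (M.X γ 0 ω) A)) S A)| ∂gm := by
  have hm : ∀ T (v : HH), Measurable fun ω : Om =>
      ind (HasTr (M.X γ 0 ω) T) * ENNReal.ofReal |ω v| := fun T v =>
    (meas_has hT3 M γ T).mul (meas_ev v).abs.ennreal_ofReal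
  set J : Finset Dy → Dy → ℝ≥0∞ := fun T A => ∑ S ∈ lev (3 * K), ind (Good K D (subT T A) S) *
    ∫⁻ ω, ind (HasTr (M.X γ 0 ω) T) * ENNReal.ofReal |ω (ε (subT T A) S A)| ∂gm with hJ
  calc _ ≤ ∑ T ∈ trees ι, ∑' A : Dy, ind (n ≤ A.length) * (ind (A ∈ T) * J T A) := by
        refine Finset.sum_le_sum fun T hT => ?_
        have hT' := ((hT1.2.2.2.1 ι T).1 hT).1
        refine le_trans (Finset.sum_le_sum fun A hA => ?_) (ENNReal.sum_le_tsum _)
        rw [Finset.mem_filter] at hA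
        simp only [ind, hA.1, hA.2, if_true, one_mul, hJ]
        refine Finset.sum_le_sum fun S _ => ?_
        by_cases hG : Good K D (subT T A) S
        · simp only [hG, if_true, one_mul]
          exact jensen hKR hS0 hT1 hL γ hT' hA.1 S z _ (he T hT' A hA.1 S hG)
        · simp [hG]
    _ = ∑' A : Dy, ind (n ≤ A.length) * ∑ T ∈ trees ι, ind (A ∈ T) * J T A := by
        rw [← Summable.tsum_finsetSum fun _ _ => ENNReal.summable]
        exact tsum_congr fun A => (Finset.mul_sum _ _ _).symm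
    _ = _ := by
        refine tsum_congr fun A => ?_
        congr 1
        have e : ∀ ω : Om, ind (nB (M.X γ 0 ω) = ι ∧ A ∈ tr (M.X γ 0 ω)) * ∑ S ∈ lev (3 * K),
            ind (Good K D (tr (sub (M.X γ 0 ω) A)) S) *
              ENNReal.ofReal |ω (ε (tr (sub (M.X γ 0 ω) A)) S A)| =
            ∑ T ∈ trees ι, ∑ S ∈ lev (3 * K), (ind (A ∈ T) * ind (Good K D (subT T A) S)) *
              (ind (HasTr (M.X γ 0 ω) T) * ENNReal.ofReal |ω (ε (subT T A) S A)|) := by
          intro ω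
          have h1 := decomp hT1 (M.X γ 0 ω) ι fun T => ind (A ∈ T) * ∑ S ∈ lev (3 * K),
            ind (Good K D (subT T A) S) * ENNReal.ofReal |ω (ε (subT T A) S A)|
          refine Eq.trans ?_ (h1.trans ?_)
          · by_cases h2 : nB (M.X γ 0 ω) = ι
            · by_cases h3 : A ∈ tr (M.X γ 0 ω)
              · rw [tr_sub hT1 (by rw [h2]; exact ENNReal.natCast_ne_top ι) h3]
                simp [ind, h2, h3]
              · simp [ind, h3]
            · simp [ind, h2]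
          · refine Finset.sum_congr rfl fun T _ => ?_
            rw [Finset.mul_sum, Finset.mul_sum]
            exact Finset.sum_congr rfl fun S _ => by ring
        rw [lintegral_congr e, lintegral_finsetSum _ fun T _ =>
          Finset.measurable_sum _ fun S _ => (hm T _).const_mul _]
        refine Finset.sum_congr rfl fun T _ => ?_
        rw [lintegral_finsetSum _ fun S _ => (hm T _).const_mul _, hJ, Finset.mul_sum]
        refine Finset.sum_congr rfl fun S _ => ?_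
        rw [lintegral_const_mul _ (hm T _), mul_assoc]

theorem swap_z (hG1 : St_G1) (hKR : St_KR) (hS0 : St_SCR0) (hT1 : St_T1) (hT3 : St_T3) {g : Met}
    {M : Model} (hL : Lnk g M) (γ : ℝ) (ι n K D : ℕ) (d0 : ℝ) :
    ∫⁻ ω, ∑ T ∈ trees ι, ∑ A ∈ T.filter (fun A => n ≤ A.length), ∑ S ∈ lev (3 * K),
      ind (Good K D (subT T A) S) *
        ∫⁻ z in sq d0, ind (HasTr (M.X γ 0 ω) T) * Gf g M γ T A S (ω, z) ∂volume ∂gm =
    ∫⁻ z in sq d0, ∑ T ∈ trees ι, ∑ A ∈ T.filter (fun A => n ≤ A.length), ∑ S ∈ lev (3 * K),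
      ind (Good K D (subT T A) S) *
        ∫⁻ ω, ind (HasTr (M.X γ 0 ω) T) * Gf g M γ T A S (ω, z) ∂gm ∂volume := by
  have : IsProbabilityMeasure gm := hG1.1
  have hm : ∀ T ∈ trees ι, ∀ A S, Measurable fun p : Om × ℂ =>
      ind (HasTr (M.X γ 0 p.1) T) * Gf g M γ T A S p := fun T hT A S =>
    ((meas_has hT3 M γ T).comp measurable_fst).mul
      (meas_Gf hKR hS0 hL γ ((hT1.2.2.2.1 ι T).1 hT).1 A S)
  have h1 : ∀ T ∈ trees ι, ∀ A S, Measurable fun ω : Om => ind (Good K D (subT T A) S) *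
      ∫⁻ z in sq d0, ind (HasTr (M.X γ 0 ω) T) * Gf g M γ T A S (ω, z) ∂volume :=
    fun T hT A S => (hm T hT A S).lintegral_prod_right'.const_mul _
  have h2 : ∀ T ∈ trees ι, ∀ A S, Measurable fun z : ℂ => ind (Good K D (subT T A) S) *
      ∫⁻ ω, ind (HasTr (M.X γ 0 ω) T) * Gf g M γ T A S (ω, z) ∂gm :=
    fun T hT A S => (hm T hT A S).lintegral_prod_left'.const_mul _
  rw [lintegral_finsetSum _ fun T hT => Finset.measurable_sum _ fun A _ =>
      Finset.measurable_sum _ fun S _ => h1 T hT A S,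
    lintegral_finsetSum _ fun T hT => Finset.measurable_sum _ fun A _ =>
      Finset.measurable_sum _ fun S _ => h2 T hT A S]
  refine Finset.sum_congr rfl fun T hT => ?_
  rw [lintegral_finsetSum _ fun A _ => Finset.measurable_sum _ fun S _ => h1 T hT A S,
    lintegral_finsetSum _ fun A _ => Finset.measurable_sum _ fun S _ => h2 T hT A S]
  refine Finset.sum_congr rfl fun A _ => ?_
  rw [lintegral_finsetSum _ fun S _ => h1 T hT A S, lintegral_finsetSum _ fun S _ => h2 T hT A S]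
  refine Finset.sum_congr rfl fun S _ => ?_
  rw [lintegral_const_mul _ (hm T hT A S).lintegral_prod_right',
    lintegral_const_mul _ (hm T hT A S).lintegral_prod_left']
  congr 1
  exact lintegral_lintegral_swap (hm T hT A S).aemeasurable

theorem split (hG : St_GEO1) (hT1 : St_T1) (g : Met) (M : Model) (γ : ℝ) (ι n K D : ℕ) {d0 : ℝ}
    (hd : 0 < d0) (ω : Om) :
    ind (nB (M.X γ 0 ω) = ι) * ∑ A ∈ tr (M.X γ 0 ω), ∑ S ∈ lev (3 * K),
        ind (Good K D (tr (sub (M.X γ 0 ω) A)) S) * ∫⁻ z in sq d0, ENNReal.ofReal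
          (min 1 |M.kr g (tr (M.X γ 0 ω)) ω (zS (S ++ A) z) - QQ γ * A.length * l2 -
            kloc (QQ γ) (tr (sub (M.X γ 0 ω) A)) (sub (M.X γ 0 ω) A) (zS S z)|) ∂volume ≤
      ((((Finset.range n).biUnion lev).card * (lev (3 * K)).card : ℕ) : ℝ≥0∞) *
        ind (nB (M.X γ 0 ω) = ι) +
      ∑ T ∈ trees ι, ∑ A ∈ T.filter (fun A => n ≤ A.length), ∑ S ∈ lev (3 * K),
        ind (Good K D (subT T A) S) *
          ∫⁻ z in sq d0, ind (HasTr (M.X γ 0 ω) T) * Gf g M γ T A S (ω, z) ∂volume := by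
  have h1 := decomp hT1 (M.X γ 0 ω) ι fun T => ∑ A ∈ T.filter (fun A => n ≤ A.length),
    ∑ S ∈ lev (3 * K), ind (Good K D (subT T A) S) * ∫⁻ z in sq d0, Gf g M γ T A S (ω, z) ∂volume
  have h2 : ∑ T ∈ trees ι, ∑ A ∈ T.filter (fun A => n ≤ A.length), ∑ S ∈ lev (3 * K),
        ind (Good K D (subT T A) S) *
          ∫⁻ z in sq d0, ind (HasTr (M.X γ 0 ω) T) * Gf g M γ T A S (ω, z) ∂volume =
      ∑ T ∈ trees ι, ind (HasTr (M.X γ 0 ω) T) * ∑ A ∈ T.filter (fun A => n ≤ A.length),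
        ∑ S ∈ lev (3 * K), ind (Good K D (subT T A) S) *
          ∫⁻ z in sq d0, Gf g M γ T A S (ω, z) ∂volume := by
    refine Finset.sum_congr rfl fun T _ => ?_
    rw [Finset.mul_sum]
    refine Finset.sum_congr rfl fun A _ => ?_
    rw [Finset.mul_sum]
    refine Finset.sum_congr rfl fun S _ => ?_
    rw [lintegral_const_mul' _ _ (ne_top_of_le_ne_top ENNReal.one_ne_top (ind_le_one _))]
    ring
  rw [h2, ← h1, mul_comm _ (ind (nB (M.X γ 0 ω) = ι)), ← mul_add]
  by_cases h3 : nB (M.X γ 0 ω) = ι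
  swap
  · simp [ind, h3]
  gcongr ind _ * ?_
  rw [← Finset.sum_filter_not_add_sum_filter (tr (M.X γ 0 ω)) (fun A => n ≤ A.length)]
  refine add_le_add ?_ (le_of_eq (Finset.sum_congr rfl fun A hA => ?_))
  · calc _ ≤ ∑ _A ∈ (tr (M.X γ 0 ω)).filter (fun A => ¬n ≤ A.length),
          ((lev (3 * K)).card : ℝ≥0∞) := by
          refine Finset.sum_le_sum fun A _ => ?_
          calc _ ≤ ∑ _S ∈ lev (3 * K), (1 : ℝ≥0∞) := by
                refine Finset.sum_le_sum fun S _ => mul_le_one' (ind_le_one _) ?_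
                calc _ ≤ ∫⁻ _z in sq d0, 1 ∂volume := lintegral_mono fun z =>
                      ENNReal.ofReal_le_one.2 (min_le_left _ _)
                  _ ≤ 1 := by rw [setLIntegral_one]; exact vol_sq hG hd
            _ = _ := by simp
      _ ≤ ∑ _A ∈ (Finset.range n).biUnion lev, ((lev (3 * K)).card : ℝ≥0∞) := by
          refine Finset.sum_le_sum_of_subset fun A hA => ?_
          rw [Finset.mem_filter] at hA
          exact Finset.mem_biUnion.2 ⟨A.length, Finset.mem_range.2 (not_le.1 hA.2),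
            (hT1.1 _ _).2 rfl⟩
      _ = _ := by simp
  · rw [tr_sub hT1 (by rw [h3]; exact ENNReal.natCast_ne_top ι) (Finset.mem_filter.1 hA).1]
    rfl

end H4

theorem blk_H4 (hG1 : St_G1) (hP1 : St_P1) (hMOD : St_MOD) (hBMP : St_BMP) (hYV : St_YV)
    (hFE : St_FE) (_hE1 : St_EXP1) (_hE2 : St_EXP2) (hG : St_GEO1) (hT1 : St_T1) (hT3 : St_T3)
    (_hRW : St_RW1) (hUL : St_UL) (hKR : St_KR) (hS0 : St_SCR0) (hS : St_SCR) (hH : St_H4a) :
    St_H4 := by
  intro γ hγ g M hL Cg d0 η hd hη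
  obtain ⟨i0, hi0⟩ := (hMOD M).2.2.2.2.2.2.2.2.2.2.2.2.2.2.1 hL.sub
  have hOk := hi0 i0 le_rfl
  obtain ⟨θ0, C, h0, h1, -, hS⟩ := hS
  obtain ⟨K0, hK0⟩ := hH γ hγ M i0 hOk Cg θ0 (C * Real.sqrt (1 + Real.log (1 / d0))) (η / 2) h0 h1
    (by linarith)
  obtain ⟨K1, hK1⟩ := (hUL γ hγ M hL.sub).1
  refine ⟨K0, fun K hK => ?_⟩
  set N : ℕ := ((Finset.range (i0 + 4)).biUnion lev).card * (lev (3 * K)).card with hN
  have hlim : ∀ᶠ ι : ℕ in atTop, N * K1 / (ι : ℝ) ≤ η / 2 :=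
    (tendsto_const_div_atTop_nhds_zero_nat (N * K1 : ℝ)).eventually (ge_mem_nhds (by linarith))
  filter_upwards [hK0 K hK, hlim, eventually_ge_atTop 1] with ι h2 h3 h4
  have hι : (0 : ℝ) < ι := by exact_mod_cast h4
  have hmi : Measurable fun ω => ind (nB (M.X γ 0 ω) = ι) :=
    (hT3.2.2.2.2.2.2.2.2.2.2.2.1 _ _
      ((hT3.1.comp (hT3.2.2.2.2.2.2.2.2.2.2.1 M γ 0).1) (measurableSet_singleton _))).1
  refine le_trans (mul_le_mul_right (lintegral_mono fun ω =>
    H4.split hG hT1 g M γ ι (i0 + 4) K (Cg * K) hd ω) _) ?_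
  rw [lintegral_add_left (hmi.const_mul _), mul_add, H4.swap_z hG1 hKR hS0 hT1 hT3 hL,
    ← add_halves η, ENNReal.ofReal_add (by linarith) (by linarith)]
  refine add_le_add ?_ ?_
  · have h5 : ∫⁻ ω, ind (nB (M.X γ 0 ω) = ι) ∂gm ≤
        ENNReal.ofReal (K1 * (ι : ℝ) ^ (-(th γ + 2))) := by
      refine le_trans (lintegral_mono fun ω => ?_) (hK1 ι h4 [])
      refine le_mul_of_one_le_right' ?_
      rw [eE, ← ENNReal.ofReal_one]
      exact ENNReal.ofReal_le_ofReal (Real.one_le_exp (abs_nonneg _))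
    rw [lintegral_const_mul _ hmi, ← hN]
    calc ENNReal.ofReal ((ι : ℝ) ^ (th γ + 1)) * ((N : ℝ≥0∞) * ∫⁻ ω, ind (nB (M.X γ 0 ω) = ι) ∂gm)
        ≤ ENNReal.ofReal ((ι : ℝ) ^ (th γ + 1)) * ((N : ℝ≥0∞) *
          ENNReal.ofReal (K1 * (ι : ℝ) ^ (-(th γ + 2)))) := by gcongr
      _ = ENNReal.ofReal (N * K1 / (ι : ℝ)) := by
          rw [← ENNReal.ofReal_natCast N, ← ENNReal.ofReal_mul (Nat.cast_nonneg N),
            ← ENNReal.ofReal_mul (Real.rpow_nonneg hι.le _)]
          congr 1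
          have e : (ι : ℝ) ^ (th γ + 1) * (ι : ℝ) ^ (-(th γ + 2)) = (ι : ℝ)⁻¹ := by
            rw [← Real.rpow_add hι, ← Real.rpow_neg_one]
            congr 1
            ring
          rw [div_eq_mul_inv, ← e]
          ring
      _ ≤ _ := ENNReal.ofReal_le_ofReal h3
  · rw [← lintegral_const_mul' _ _ ENNReal.ofReal_ne_top]
    calc _ ≤ ∫⁻ _z in sq d0, ENNReal.ofReal (η / 2) ∂volume := by
          refine setLIntegral_mono' (H4.meas_sq d0) fun z hz => ?_
          have hz' := H4.sq_ball hz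
          choose φ b1 b2 b3 b4 b5 using fun (τ : Finset Dy) (S A : Dy) (a1 : IsTr τ)
            (a2 : Good K (Cg * K) τ S) => hS K (Cg * K) τ S a1 a2 M A z d0 hL.sub hd hz'
          have h6 := fun (τ : Finset Dy) (S A : Dy) (a1 : IsTr τ) (a2 : Good K (Cg * K) τ S) =>
            H4.exists_eps hP1 hMOD hBMP hYV hFE hG hT1 hS0 hL hOk hd hz' a1 a2
              (b := C * Real.sqrt (1 + Real.log (1 / d0)) * θ0 ^ K) (b1 τ S A a1 a2)
              (b2 τ S A a1 a2) (b3 τ S A a1 a2) (b4 τ S A a1 a2)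
              ((b5 τ S A a1 a2).trans (le_of_eq (mul_right_comm _ _ _)))
          choose! ε hε1 hε2 using h6
          refine le_trans ?_ (h2 ε hε1)
          gcongr
          exact H4.long_z hKR hS0 hT1 hT3 hL γ ι (i0 + 4) K (Cg * K) z ε fun T hT A hA S hGd =>
            hε2 _ S A (H4.isTr_subT hT A) hGd T hT hA rfl
      _ ≤ _ := by
          rw [setLIntegral_const]
          exact mul_le_of_le_one_right' (H4.vol_sq hG hd)

end

end Pool.Agent.Lib.APPS
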