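import Pool.Agent.Lib.APPS.B_H4aa

/-!
Block H4a: the Gaussian estimate behind the localisation of the kriging predictor.
-/

namespace Pool.Agent.Lib.APPS

open MeasureTheory ProbabilityTheory Filter Topology Set Metric
open scoped NNReal ENNReal RealInnerProductSpace Classical

noncomputable section

namespace H4a

/-- the hypotheses on the error vectors -/
def Hyp (M : Model) (i0 K D : ℕ) (δ : ℝ) (ε : Finset Dy → Dy → Dy → HH) : Prop :=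
  ∀ τ S A, IsTr τ → Good K D τ S → ‖ε τ S A‖ ≤ δ ∧
    (∃ ν' : ℝ, ∀ B ∈ lvs τ, ⟪ε τ S A, M.eS (B ++ A)⟫ = ν') ∧
    (∀ φ, LipC φ → (∃ c, ∀ᶠ x in 𝓝ˢ (box A), φ x = c) → ⟪ε τ S A, gr φ⟫ = 0) ∧
    (∀ S', ¬A <:+ S' → ¬S' <:+ A → ⟪ε τ S A, M.ub S'⟫ = 0) ∧
    ∀ i : ℕ, i0 ≤ i → i + 2 ≤ A.length → ⟪ε τ S A, M.eC (ctr A) ((1 / 2 : ℝ) ^ i)⟫ = 0

/-- the tail functional -/
def VV (M : Model) (γ : ℝ) (K D : ℕ) (δ t : ℝ) (ε : Finset Dy → Dy → Dy → HH) (A : Dy)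
    (ω : Om) : ℝ≥0∞ :=
  ∑ τ ∈ TD D, ind (Poss τ (sub (M.X γ 0 ω) A)) *
    ∑ S ∈ lev (3 * K), ind (Good K D τ S) * eE ((|ω (ε τ S A)| - t) / δ)

theorem X_add (M : Model) (γ u : ℝ) (ω ω' : Om) (W : Dy) :
    M.X γ u (ω + ω') W = M.X γ u ω W + ω' (M.eS W) := by
  simp only [Model.X, drift, LinearMap.add_apply]
  ring

theorem poss_shift (M : Model) (γ : ℝ) (τ : Finset Dy) (A : Dy) (h : HH) (c : ℝ)
    (h1 : ∀ B ∈ τ, ⟪h, M.eS (B ++ A)⟫ = c) (h2 : ∀ B ∈ lvs τ, ⟪h, M.eS (B ++ A)⟫ = c) (s : ℝ)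
    (ω : Om) : Poss τ (sub (M.X γ 0 (ω + s • dv h)) A) ↔ Poss τ (sub (M.X γ 0 ω) A) := by
  refine forall₂_congr fun B hB => forall₂_congr fun S hS => ?_
  simp only [sub, X_add, LinearMap.smul_apply, dv_apply, smul_eq_mul, h1 B hB, h2 S hS,
    add_lt_add_iff_right]

theorem meas_P (hT3 : St_T3) (M : Model) (γ : ℝ) (τ : Finset Dy) (A : Dy) :
    MeasurableSet {ω | Poss τ (sub (M.X γ 0 ω) A)} :=
  ((hT3.2.2.2.2.1 A).comp (hT3.2.2.2.2.2.2.2.2.2.2.1 M γ 0).1) (meas_poss τ)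

theorem meas_VV (hT3 : St_T3) (M : Model) (γ : ℝ) (K D : ℕ) (δ t : ℝ)
    (ε : Finset Dy → Dy → Dy → HH) (A : Dy) : Measurable (VV M γ K D δ t ε A) :=
  Finset.measurable_fun_sum _ fun τ _ => (meas_ind (meas_P hT3 M γ τ A)).mul
    (Finset.measurable_fun_sum _ fun _ _ => measurable_const.mul
      (meas_eE.comp (((meas_ev _).abs.sub_const t).div_const δ)))

theorem inner_int (hMOD : St_MOD) (M : Model) {φ : ℂ → ℝ} (hφ : IsPsi M φ) {τ : Finset Dy}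
    (hτ : IsTr τ) (A : Dy) (e : HH) (c : ℝ) (h : ∀ B ∈ lvs τ, ⟪e, M.eS (B ++ A)⟫ = c) :
    ∀ B ∈ τ, ⟪e, M.eS (B ++ A)⟫ = c := by
  obtain ⟨-, -, -, -, -, -, -, -, -, -, -, -, -, m14, -, -, m17, -⟩ := hMOD M
  intro B hB
  have h1 := m17 φ hφ (B ++ A)
  rw [m14 τ hτ B hB A, inner_sum] at h1 ⊢
  simp only [real_inner_smul_right, m17 φ hφ, mul_one] at h1 ⊢
  rw [Finset.sum_congr rfl fun S hS => by rw [h S (Finset.mem_filter.1 hS).1],
    ← Finset.sum_mul, h1, one_mul]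

theorem mom_VV (hG1 : St_G1) (hG1D : St_G1D) (hG2 : St_G2) (hMOD : St_MOD) (hT1 : St_T1)
    (hT3 : St_T3) (M : Model) (γ : ℝ) {φ : ℂ → ℝ} (hφ : IsPsi M φ) {i0 K D : ℕ} {δ t p : ℝ}
    {ε : Finset Dy → Dy → Dy → HH} (hε : Hyp M i0 K D δ ε) (hδ : 0 < δ) (hp : 1 ≤ p) (A : Dy) :
    ∫⁻ ω, VV M γ K D δ t ε A ω ^ p ∂gm ≤ ENNReal.ofReal
      (((4 ^ (D + 1 + 3 * K) : ℕ) : ℝ) ^ 5 * Real.exp (p / 2 - t / δ)) ^ p := by
  refine moment hG1 hG1D hG2 (TD D) (lev (3 * K)) (fun τ ω => Poss τ (sub (M.X γ 0 ω) A))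
    (Good K D) (fun τ S => ε τ S A) _ hδ hp ?_ ?_ (fun ω => (poss_card hT1 D _).trans ?_)
    (fun τ => meas_P hT3 M γ τ A) fun τ hτ S hS => ?_
  · exact le_trans (by norm_num) (Nat.pow_le_pow_right (by norm_num) (by omega : 1 ≤ _))
  · rw [hT1.2.1]; exact Nat.pow_le_pow_right (by norm_num) (by omega)
  · exact Nat.pow_le_pow_right (by norm_num) (by omega)
  · have hτ' := (Finset.mem_filter.1 hτ).2
    obtain ⟨h1, ⟨c, h2⟩, -⟩ := hε τ S A hτ' hS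
    exact ⟨h1, poss_shift M γ τ A _ c (inner_int hMOD M hφ hτ' A _ c h2) h2⟩

/-- the conclusion of block U -/
def UB (M : Model) (γ : ℝ) (φ : ℂ → ℝ) (L K : ℝ) (ι : ℕ) : Prop :=
  ∀ (Pp : Finset Dy → Finset Dy)
    (Y : Finset Dy → Om → ℝ≥0∞) (Yb : Om → ℝ≥0∞) (B : ℝ≥0∞),
    (∀ T ∈ trees ι, Pp T ⊆ two T ∧ 1 / 2 * ι ≤ ((Pp T).card : ℝ)) → (∀ T, Measurable (Y T)) →
    Measurable Yb →
    (∀ T ∈ trees ι, ∀ (ω : Om) (s : ℝ) (t : Dy → ℝ), |s| ≤ 1 → (∀ P, |t P| ≤ L) →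
      HasTr (M.X γ 0 (ω + s • dv (gr φ))) T →
      HasTr (M.X γ 0 (ω + s • dv (gr φ) + ∑ P ∈ Pp T, t P • dv (M.vp T P))) T →
      Y T (ω + s • dv (gr φ) + ∑ P ∈ Pp T, t P • dv (M.vp T P)) ≤ Yb ω) →
    (∀ T ∈ trees ι, ∫⁻ ω, Y T ω ^ 2 ∂gm ≤ B ^ 2) →
    ∫⁻ ω, ind (nB (M.X γ 0 ω) = ι) * Y (tr (M.X γ 0 ω)) ω ∂gm ≤
      ENNReal.ofReal (K / ι) * ∫⁻ ω, ind ((ι : ℝ≥0∞) ≤ nB (sh (M.X γ 0 ω) 1)) * Yb ω ∂gm +
        eE (-3 * ι) * B

/-- the dominating functional -/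
def YB (M : Model) (γ : ℝ) (K D : ℕ) (δ t : ℝ) (ε : Finset Dy → Dy → Dy → HH) (A : Dy)
    (ω : Om) : ℝ≥0∞ :=
  ENNReal.ofReal t * ∑ S ∈ lev (3 * K), ind (0 < M.X γ 0 ω (S.tail ++ A) + 1) +
    ind (0 < M.X γ 0 ω A + 1) * VV M γ K D δ t ε A ω

theorem meas_pos (hT3 : St_T3) (M : Model) (γ : ℝ) (A : Dy) :
    MeasurableSet {ω | 0 < M.X γ 0 ω A + 1} :=
  measurableSet_lt measurable_const
    (((measurable_pi_apply A).comp (hT3.2.2.2.2.2.2.2.2.2.2.1 M γ 0).1).add_const 1)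

theorem isTr_subT {T : Finset Dy} (hT : IsTr T) (A : Dy) : IsTr (subT T A) := by
  rintro B hB C ⟨W, rfl⟩
  rw [mem_subT] at hB ⊢
  exact hT _ hB _ ⟨W, by simp⟩

theorem dom (hMOD : St_MOD) (hG : St_GEO1) (hT1 : St_T1) (M : Model) (γ : ℝ) {φ : ℂ → ℝ}
    (hφ : IsPsi M φ) {i0 K D : ℕ} {δ t : ℝ} {ε : Finset Dy → Dy → Dy → HH}
    (hε : Hyp M i0 K D δ ε) (hK : 1 ≤ K) (hδ : 0 < δ) (hδ1 : δ ≤ 1) (ht : 0 ≤ t) (A : Dy)
    {T : Finset Dy} (hT : IsTr T) (ω : Om) {s : ℝ} (r : Dy → ℝ) (hs : |s| ≤ 1)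
    (h : HasTr (M.X γ 0 (ω + s • dv (gr φ))) T) :
    ind (A ∈ T) * ∑ S ∈ lev (3 * K), ind (Good K D (subT T A) S) * ENNReal.ofReal
      |(ω + s • dv (gr φ) + ∑ P ∈ two T \ (UD (D + 1)).image (· ++ A), r P • dv (M.vp T P))
        (ε (subT T A) S A)| ≤ YB M γ K D δ t ε A ω := by
  by_cases hA : A ∈ T
  swap
  · simp [ind_neg hA]
  by_cases hex : ∃ S, Good K D (subT T A) S
  swap
  · rw [Finset.sum_eq_zero fun S _ => by rw [ind_neg fun hS => hex ⟨S, hS⟩, zero_mul]]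
    simp
  obtain ⟨S0, hS0⟩ := hex
  obtain ⟨-, -, -, -, -, -, -, -, -, -, -, -, -, -, -, -, m17, -⟩ := hMOD M
  have hT1' := hT1
  obtain ⟨t1, -, -, -, -, -, t7, t8, -, -, t11, -⟩ := hT1'
  have hτ := isTr_subT hT A
  have hX : ∀ W, M.X γ 0 (ω + s • dv (gr φ)) W = M.X γ 0 ω W + s := fun W => by
    rw [X_add, LinearMap.smul_apply, dv_apply, m17 φ hφ, smul_eq_mul, mul_one]
  obtain ⟨hp, hn⟩ := (t11 _ T hT).1 h
  simp only [hX] at hp hn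
  have hs1 := (abs_le.1 hs).2
  have hlv : ∀ S ∈ lvs (subT T A), S ++ A ∈ lvs T := by
    intro S hS
    obtain ⟨a, b⟩ := (t8 _ hτ S).1 hS
    refine (t8 T hT _).2 ⟨fun c => a (mem_subT.2 c), fun B hB hne => ?_⟩
    rcases List.suffix_or_suffix_of_suffix hB (List.suffix_append S A) with c | ⟨C, rfl⟩
    · exact hT A hA B c
    · refine mem_subT.1 (b C ?_ fun e => hne (by rw [e]))
      obtain ⟨W, hW⟩ := hB
      exact ⟨W, List.append_cancel_right (by rw [List.append_assoc, hW])⟩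
  have hposs : Poss (subT T A) (sub (M.X γ 0 ω) A) := fun B hB S hS => by
    have := hp _ (mem_subT.1 hB)
    have := hn _ (hlv S hS)
    simp only [sub]
    linarith
  have hmem : subT T A ∈ TD D := Finset.mem_filter.2 ⟨Finset.mem_powerset.2 fun B hB =>
    (mem_UD hT1).2 (Nat.lt_succ_of_le (hS0.2.2.1 B hB)), hτ⟩
  have hev : ∀ S, Good K D (subT T A) S →
      (ω + s • dv (gr φ) + ∑ P ∈ two T \ (UD (D + 1)).image (· ++ A), r P • dv (M.vp T P))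
        (ε (subT T A) S A) = ω (ε (subT T A) S A) := by
    intro S hS
    obtain ⟨-, -, h3, h4, -⟩ := hε _ S A hτ hS
    have e1 : ⟪gr φ, ε (subT T A) S A⟫ = 0 := by
      rw [real_inner_comm]
      exact h3 φ hφ.1 ⟨1, hφ.2.2.1.filter_mono
        (nhdsSet_mono ((hG.2.2.2.2.1 A []).2 List.nil_suffix))⟩
    simp only [LinearMap.add_apply, LinearMap.smul_apply, LinearMap.sum_apply, dv_apply,
      smul_eq_mul, e1, mul_zero, add_zero]
    rw [Finset.sum_eq_zero, add_zero]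
    intro P hP
    obtain ⟨hP1, hP2⟩ := Finset.mem_sdiff.1 hP
    obtain ⟨a, -, b, c⟩ := t7 T hT P hP1
    have key : ∀ d, d :: P ∈ lvs T → ⟪M.ub (d :: P), ε (subT T A) S A⟫ = 0 := by
      intro d hd
      have hd' := ((t8 T hT _).1 hd).1
      rw [real_inner_comm]
      refine h4 _ (fun e => ?_) fun e => hd' (hT A hA _ e)
      rcases List.suffix_cons_iff.1 e with e | ⟨C, rfl⟩
      · exact hd' (e ▸ hA)
      · exact hP2 (Finset.mem_image.2 ⟨C, (mem_UD hT1).2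
          (Nat.lt_succ_of_le (hS.2.2.1 C (mem_subT.2 a))), rfl⟩)
    rw [Model.vp, inner_sub_left, key _ b, key _ c, sub_zero, mul_zero]
  rw [ind_pos hA, one_mul, YB, ind_pos (show 0 < M.X γ 0 ω A + 1 by linarith [hp A hA]), one_mul]
  refine le_trans ?_ (add_le_add_right (Finset.single_le_sum (f := fun τ =>
    ind (Poss τ (sub (M.X γ 0 ω) A)) * ∑ S ∈ lev (3 * K), ind (Good K D τ S) *
      eE ((|ω (ε τ S A)| - t) / δ)) (fun _ _ => zero_le) hmem) _)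
  simp only [ind_pos hposs, one_mul]
  rw [Finset.mul_sum, ← Finset.sum_add_distrib]
  refine Finset.sum_le_sum fun S _ => ?_
  by_cases hS : Good K D (subT T A) S
  swap
  · simp [ind_neg hS]
  have htl : S.tail ∈ subT T A := ((t8 _ hτ S).1 hS.1).2 _ (List.tail_suffix S) fun e => by
    have := congrArg List.length e
    rw [List.length_tail, hS.2.1] at this
    omega
  rw [ind_pos hS, hev S hS, ind_pos (show 0 < M.X γ 0 ω (S.tail ++ A) + 1 by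
    linarith [hp _ (mem_subT.1 htl)]), one_mul, one_mul, mul_one]
  exact abs_le_split _ ht hδ hδ1

theorem sq_bd (hG1D : St_G1D) (hT1 : St_T1) (M : Model) {i0 K D : ℕ} {δ : ℝ}
    {ε : Finset Dy → Dy → Dy → HH} (hε : Hyp M i0 K D δ ε) (hδ1 : δ ≤ 1) (A : Dy) (p : Prop)
    {τ : Finset Dy} (hτ : IsTr τ) :
    ∫⁻ ω, (ind p * ∑ S ∈ lev (3 * K), ind (Good K D τ S) * ENNReal.ofReal |ω (ε τ S A)|) ^ 2 ∂gm ≤
      ENNReal.ofReal ((4 ^ (3 * K)) ^ 2 * (2 * Real.exp 2)) ^ 2 := by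
  have hm : ∀ S, Measurable fun ω : Om => eE (2 * |ω (ε τ S A)|) :=
    fun S => meas_eE.comp ((meas_ev _).abs.const_mul 2)
  have h1 : ∀ ω : Om,
      (ind p * ∑ S ∈ lev (3 * K), ind (Good K D τ S) * ENNReal.ofReal |ω (ε τ S A)|) ^ 2 ≤
      ((4 ^ (3 * K) : ℕ) : ℝ≥0∞) ^ 2 * ∑ S ∈ (lev (3 * K)).filter (Good K D τ),
        eE (2 * |ω (ε τ S A)|) := by
    intro ω
    rw [sum_ind]
    refine (pow_le_pow_left' (mul_le_of_le_one_left' (ind_le p)) 2).trans ?_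
    have := pow_sum ((lev (3 * K)).filter (Good K D τ)) (fun S => ENNReal.ofReal |ω (ε τ S A)|)
      two_pos ((Finset.card_filter_le _ _).trans (hT1.2.1 _).le)
    simp only [ENNReal.rpow_two] at this
    refine this.trans (mul_le_mul_right (Finset.sum_le_sum fun S _ => ?_) _)
    rw [two_mul, eE_add, pow_two]
    have : ENNReal.ofReal |ω (ε τ S A)| ≤ eE |ω (ε τ S A)| :=
      ENNReal.ofReal_le_ofReal (by linarith [Real.add_one_le_exp |ω (ε τ S A)|])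
    exact mul_le_mul' this this
  refine (lintegral_mono h1).trans ?_
  rw [lintegral_const_mul' _ _ (ENNReal.pow_ne_top (ENNReal.natCast_ne_top _)),
    lintegral_finsetSum _ fun S _ => hm S]
  have h2 : ∑ S ∈ (lev (3 * K)).filter (Good K D τ), ∫⁻ ω, eE (2 * |ω (ε τ S A)|) ∂gm ≤
      ((4 ^ (3 * K) : ℕ) : ℝ≥0∞) * (2 * eE 2) := by
    refine (Finset.sum_le_card_nsmul _ _ (2 * eE 2) fun S hS => ?_).trans ?_
    · refine (hG1D.2.2.2.2.2.2 _ 2).trans (mul_le_mul_right (eE_mono ?_) _)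
      have := (hε τ S A hτ (Finset.mem_filter.1 hS).2).1
      nlinarith [norm_nonneg (ε τ S A)]
    · rw [nsmul_eq_mul]
      exact mul_le_mul_left (by exact_mod_cast (Finset.card_filter_le _ _).trans (hT1.2.1 _).le) _
  refine (mul_le_mul_right h2 _).trans ?_
  have h3 : (1 : ℝ≥0∞) ≤ ((4 ^ (3 * K) : ℕ) : ℝ≥0∞) := by
    exact_mod_cast Nat.one_le_pow _ _ (by norm_num)
  have h4 : (1 : ℝ≥0∞) ≤ 2 * eE 2 := by
    have : (1 : ℝ≥0∞) ≤ eE 2 := by simp [eE]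
    exact le_trans (by simp) (mul_le_mul' (one_le_two (α := ℝ≥0∞)) this)
  have h5 : ENNReal.ofReal ((4 ^ (3 * K)) ^ 2 * (2 * Real.exp 2)) =
      ((4 ^ (3 * K) : ℕ) : ℝ≥0∞) ^ 2 * (2 * eE 2) := by
    rw [ENNReal.ofReal_mul (by positivity), ENNReal.ofReal_mul (by norm_num),
      ENNReal.ofReal_pow (by positivity), ENNReal.ofReal_pow (by norm_num)]
    simp [eE]
  rw [h5]
  generalize ((4 ^ (3 * K) : ℕ) : ℝ≥0∞) = n at h3 ⊢
  generalize 2 * eE 2 = c at h4 ⊢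
  calc n ^ 2 * (n * c) = n ^ 2 * (n * c) * (1 * 1) := by simp
    _ ≤ n ^ 2 * (n * c) * (n * c) := by gcongr
    _ = _ := by ring

theorem perA (hG1D : St_G1D) (hMOD : St_MOD) (hG : St_GEO1) (hT1 : St_T1) (hT3 : St_T3)
    (M : Model) (γ : ℝ) {φ : ℂ → ℝ} (hφ : IsPsi M φ) {i0 K D ι : ℕ} {δ t L KU : ℝ}
    {ε : Finset Dy → Dy → Dy → HH} (hε : Hyp M i0 K D δ ε) (hK : 1 ≤ K) (hδ : 0 < δ)
    (hδ1 : δ ≤ 1) (ht : 0 ≤ t) (hU : UB M γ φ L KU ι) (hι : 6 * 4 ^ (D + 1) ≤ ι) (A : Dy) :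
    ∫⁻ ω, ind (nB (M.X γ 0 ω) = ι ∧ A ∈ tr (M.X γ 0 ω)) * ∑ S ∈ lev (3 * K),
        ind (Good K D (tr (sub (M.X γ 0 ω) A)) S) *
          ENNReal.ofReal |ω (ε (tr (sub (M.X γ 0 ω) A)) S A)| ∂gm ≤
      ENNReal.ofReal (KU / ι) * ∫⁻ ω, ind ((ι : ℝ≥0∞) ≤ nB (sh (M.X γ 0 ω) 1)) *
        YB M γ K D δ t ε A ω ∂gm + ind (A ∈ UD ι) *
          (eE (-3 * ι) * ENNReal.ofReal ((4 ^ (3 * K)) ^ 2 * (2 * Real.exp 2))) := by
  have hT1' := hT1
  obtain ⟨-, -, t3, t4, -, t6, -, -, -, -, -, t12, t13, -, t15, -, -, -, t19, -⟩ := hT1'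
  by_cases hA : A ∈ UD ι
  swap
  · refine le_trans (le_of_eq ?_) zero_le
    refine (lintegral_congr fun ω => ?_).trans lintegral_zero
    rw [ind_neg, zero_mul]
    rintro ⟨h1, h2⟩
    have h3 := (t12 _ _ (t13 _ (by rw [h1]; exact ENNReal.natCast_ne_top ι))).2.2.1
    rw [h1] at h3
    have h4 : ι = (tr (M.X γ 0 ω)).card := by exact_mod_cast h3
    exact hA ((mem_UD hT1).2 (h4 ▸ t6 _ (t15 _) A h2))
  rw [ind_pos hA, one_mul]
  refine le_trans (le_of_eq (lintegral_congr fun ω => ?_))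
    (hU (fun T => two T \ (UD (D + 1)).image (· ++ A)) (fun T ω => ind (A ∈ T) *
      ∑ S ∈ lev (3 * K), ind (Good K D (subT T A) S) * ENNReal.ofReal |ω (ε (subT T A) S A)|)
      _ _ (fun T hT => ⟨Finset.sdiff_subset, ?_⟩) (fun T => ?_) ?_
      (fun T hT ω s r hs _ h _ => dom hMOD hG hT1 M γ hφ hε hK hδ hδ1 ht A ((t4 _ _).1 hT).1 ω r
        hs h)
      fun T hT => sq_bd hG1D hT1 M hε hδ1 A _ (isTr_subT ((t4 _ _).1 hT).1 A))
  · rw [ind_and, mul_assoc]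
    by_cases h1 : nB (M.X γ 0 ω) = ι
    swap
    · simp [ind_neg h1]
    by_cases h2 : A ∈ tr (M.X γ 0 ω)
    swap
    · simp [ind_neg h2]
    have h3 : nB (M.X γ 0 ω) ≠ ∞ := by rw [h1]; exact ENNReal.natCast_ne_top ι
    have : tr (sub (M.X γ 0 ω) A) = subT (tr (M.X γ 0 ω)) A := by
      ext B
      rw [mem_subT, t19 _ A h3 ((t13 _ h3 A).1 h2)]
    rw [this]
  · obtain ⟨a, b⟩ := (t4 _ _).1 hT
    have h1 := (t3 T a).2
    have h2 := Finset.le_card_sdiff ((UD (D + 1)).image (· ++ A)) (two T)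
    have h3 := Finset.card_image_le (s := UD (D + 1)) (f := (· ++ A))
    have h4 := card_UD hT1 (D + 1)
    have h5 : ι ≤ 2 * (two T \ (UD (D + 1)).image (· ++ A)).card := by omega
    have h6 : (ι : ℝ) ≤ 2 * ((two T \ (UD (D + 1)).image (· ++ A)).card : ℝ) := by
      exact_mod_cast h5
    linarith
  · exact measurable_const.mul (Finset.measurable_fun_sum _ fun _ _ =>
      measurable_const.mul (meas_ev _).abs.ennreal_ofReal)
  · exact (measurable_const.mul (Finset.measurable_fun_sum _ fun _ _ =>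
      meas_ind (meas_pos hT3 M γ _))).add
      ((meas_ind (meas_pos hT3 M γ _)).mul (meas_VV hT3 M γ K D δ t ε A))

theorem root (hG1 : St_G1) (hG1D : St_G1D) (hG2 : St_G2) (hMOD : St_MOD) (hT1 : St_T1)
    (hT3 : St_T3) (hTL : St_TL) (γ r0 : ℝ) (hr : 1 ≤ r0) : ∃ KT ≥ 0, ∀ (M : Model) (φ : ℂ → ℝ)
    (i0 K D : ℕ) (δ t : ℝ) (ε : Finset Dy → Dy → Dy → HH), IsPsi M φ → M.Ok i0 →
    Hyp M i0 K D δ ε → 0 < δ → ∃ Γ, RootW M γ γ r0 i0
      (KT * (((4 ^ (D + 1 + 3 * K) : ℕ) : ℝ) ^ 5 * Real.exp (2 * r0 / 2 - t / δ))) Γ ∧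
      ∀ R ω, i0 + 2 ≤ R.length → Γ R (M.YV γ 0 R ω, ω) =
        ind (0 < M.X γ 0 ω R + 1) * VV M γ K D δ t ε R ω := by
  obtain ⟨-, -, l3, ⟨B, l4⟩, -⟩ := hTL
  obtain ⟨KT, hKT, l3⟩ := l3 γ γ r0 B (1 - 2 * QQ γ * l2) le_rfl hr
  refine ⟨KT, hKT, fun M φ i0 K D δ t ε hφ hOk hε hδ => ⟨fun R q => ind (i0 + 2 ≤ R.length) *
    (ind (0 < q.1 + q.2 (M.eS R - M.eC (ctr R) (4 * side R)) + (1 - 2 * QQ γ * l2)) *
      VV M γ K D δ t ε R q.2), ⟨fun R => ?_, fun R y i hi hR s ω => ?_, fun R y => ?_⟩,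
    fun R ω hR => ?_⟩⟩
  · exact measurable_const.mul ((meas_ind (measurableSet_lt measurable_const
      ((measurable_fst.add ((meas_ev _).comp measurable_snd)).add_const _))).mul
      ((meas_VV hT3 M γ K D δ t ε R).comp measurable_snd))
  · obtain ⟨-, -, -, -, h5⟩ := l4 γ M i0 R hOk (by omega)
    have e1 : ∀ S, ⟪M.eC (ctr R) ((1 / 2 : ℝ) ^ i), M.eS (S ++ R)⟫ =
        ⟪M.eC (ctr R) ((1 / 2 : ℝ) ^ i), M.eC (ctr R) (4 * side R)⟫ := fun S => by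
      have := h5 S i hR
      rw [real_inner_comm, inner_sub_right] at this
      linarith
    have e2 : ⟪M.eC (ctr R) ((1 / 2 : ℝ) ^ i), M.eS R - M.eC (ctr R) (4 * side R)⟫ = 0 := by
      rw [real_inner_comm]; exact h5 [] i hR
    have e3 : VV M γ K D δ t ε R (ω + s • dv (M.eC (ctr R) ((1 / 2 : ℝ) ^ i))) =
        VV M γ K D δ t ε R ω := by
      refine Finset.sum_congr rfl fun τ hτ => ?_
      rw [propext (poss_shift M γ τ R _ _ (fun S _ => e1 S) (fun S _ => e1 S) s ω)]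
      congr 1
      refine Finset.sum_congr rfl fun S _ => ?_
      by_cases hS : Good K D τ S
      swap
      · simp [ind_neg hS]
      have := (hε τ S R (Finset.mem_filter.1 hτ).2 hS).2.2.2.2 i hi hR
      rw [real_inner_comm] at this
      simp only [LinearMap.add_apply, LinearMap.smul_apply, dv_apply, this, smul_zero, add_zero]
    simp only [e3, LinearMap.add_apply, LinearMap.smul_apply, dv_apply, e2, smul_zero, add_zero]
  · by_cases hR : i0 + 2 ≤ R.length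
    swap
    · simp [ind_neg hR, ENNReal.zero_rpow_of_pos (show 0 < r0 by linarith)]
    simp only [ind_pos hR, one_mul]
    exact l3 _ _ _ (l4 γ M i0 R hOk hR).2.2.2.1 (meas_VV hT3 M γ K D δ t ε R) (by positivity)
      (mom_VV hG1 hG1D hG2 hMOD hT1 hT3 M γ hφ hε hδ (by linarith) R) y
  · have := (l4 γ M i0 R hOk hR).2.2.1 [] 0 ω
    simp only [List.nil_append, List.length_nil, Nat.cast_zero, zero_add] at this
    simp only [ind_pos hR, one_mul, this]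
    congr 3
    ring

end H4a

open H4a in
theorem blk_H4a (hG1 : St_G1) (hG1D : St_G1D) (hG2 : St_G2) (_hG3 : St_G3) (_hP1 : St_P1)
    (hMOD : St_MOD) (_hBMP : St_BMP) (_hFE : St_FE) (hG : St_GEO1) (hT1 : St_T1) (hT3 : St_T3)
    (_hRW1 : St_RW1) (hTL : St_TL) (hRUG : St_RUG) (hRUS : St_RUS) (hU : St_U) : St_H4a := by
  intro γ hγ M i0 hOk Cg θ0 C η hθ hθ1 hη
  have hM : box [] ⊆ M.O := fun z hz => hOk.1 z hz (mem_closedBall_self (by positivity))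
  obtain ⟨-, -, -, -, -, -, m7, -, -, -, -, -, -, -, -, m16, -⟩ := hMOD M
  obtain ⟨φ, hφ⟩ := m16 hM
  obtain ⟨L, KU, ι0, -, hKU, hU⟩ := hU γ hγ M hM φ hφ (1 / 2) (by norm_num)
  obtain ⟨KS, hS⟩ := (hRUS γ hγ).1 0 1 (M.C0 + ([] : Dy).length * l2) le_rfl hγ.1
  obtain ⟨r0, hr0, hR⟩ := (hRUG γ hγ).1 γ 0 hγ.1 le_rfl hγ.1
  obtain ⟨KG, hR⟩ := hR 1 M.C0 i0
  obtain ⟨KT, hKT, hroot⟩ := root hG1 hG1D hG2 hMOD hT1 hT3 hTL γ r0 hr0
  have hsh : ShiftOK 1 0 ctr fun _ _ => 1 := ⟨fun R => (hG.2.2.2.1 R).2.2.1, fun _ _ => by simp⟩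
  set t : ℝ := η / 3 / (KU * (4 * |KS|) + 1) with ht
  have ht0 : 0 < t := by positivity
  have hc : 0 < |C| + 1 := by positivity
  set η' : ℝ := η / 3 / (KU * (|KG| * KT) + 1) with hη'
  have e1 := small_v (5 * (Cg + 3) * Real.log 4) (5 * Real.log 4 + r0) _ t θ0 η' hc ht0 hθ hθ1
    (by positivity)
  have e2 : ∀ᶠ K : ℕ in atTop, (|C| + 1) * θ0 ^ K ≤ 1 := by
    have := (tendsto_pow_atTop_nhds_zero_of_lt_one hθ.le hθ1).const_mul (|C| + 1)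
    rw [mul_zero] at this
    exact (this.eventually (gt_mem_nhds one_pos)).mono fun _ h => h.le
  obtain ⟨K0, hK0⟩ := eventually_atTop.1 (e1.and (e2.and (eventually_ge_atTop 1)))
  refine ⟨K0, fun K hK => ?_⟩
  obtain ⟨a1, a2, a3⟩ := hK0 K hK
  set δ : ℝ := (|C| + 1) * θ0 ^ K with hδ
  have hδ0 : 0 < δ := by positivity
  filter_upwards [eventually_ge_atTop ι0, eventually_ge_atTop (6 * 4 ^ (Cg * K + 1)),
    eventually_ge_atTop 1,
    small_e (th γ + 1) ((4 ^ (3 * K)) ^ 2 * (2 * Real.exp 2)) (η / 3) (by positivity)]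
    with ι b1 b2 b3 b4 ε hε0
  have hε : Hyp M i0 K (Cg * K) δ ε := fun τ S A h1 h2 =>
    ⟨(hε0 τ S A h1 h2).1.trans (mul_le_mul_of_nonneg_right (by linarith [le_abs_self C])
      (by positivity)), (hε0 τ S A h1 h2).2⟩
  have hι : (1 : ℝ) ≤ ι := by exact_mod_cast b3
  obtain ⟨Γ, hΓ, hΓe⟩ := hroot M φ i0 K (Cg * K) δ t ε hφ hOk hε hδ0
  set v : ℝ := ((4 ^ (Cg * K + 1 + 3 * K) : ℕ) : ℝ) ^ 5 * Real.exp (2 * r0 / 2 - t / δ) with hv
  have hv0 : 0 ≤ v := by positivity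
  have hv1 : v ≤ η' := by
    refine le_trans (le_of_eq ?_) a1
    rw [hv, Nat.cast_pow, ← pow_mul, ← Real.exp_log (show (0 : ℝ) < (4 : ℕ) by norm_num),
      ← Real.exp_nat_mul, ← Real.exp_add]
    congr 1
    push_cast
    ring
  have hS := hS (fun S => M.eS (S ++ [])) ctr (fun _ _ => 1) (m7 [] hM) hsh 0 ι le_rfl hι
  have hR := hR M _ 0 ι Γ ctr (fun _ _ => 1) hOk le_rfl (by positivity) hΓ hsh le_rfl hι
  simp only [List.append_nil, mul_zero, Real.exp_zero, mul_one, ENNReal.ofReal_natCast] at hS hR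
  have hE : MeasurableSet {ω | (ι : ℝ≥0∞) ≤ nB (sh (M.X γ 0 ω) 1)} :=
    measurableSet_le measurable_const (hT3.1.comp (hT3.2.2.2.2.2.1.comp
      ((hT3.2.2.2.2.2.2.2.2.2.2.1 M γ 0).1.prodMk measurable_const)))
  obtain ⟨k, hk⟩ : ∃ k, 3 * K = k + 1 := ⟨3 * K - 1, by omega⟩
  set g : Dy → ℝ≥0∞ := fun R => gm {ω | 0 < M.X γ 0 ω R + 1 ∧
    (ι : ℝ≥0∞) ≤ nB (sh (M.X γ 0 ω) 1)} with hg
  set c : ℝ≥0∞ := eE (-3 * ι) * ENNReal.ofReal ((4 ^ (3 * K)) ^ 2 * (2 * Real.exp 2)) with hc'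
  have key : ∀ A : Dy, ind (i0 + 4 ≤ A.length) *
      ∫⁻ ω, ind (nB (M.X γ 0 ω) = ι ∧ A ∈ tr (M.X γ 0 ω)) * ∑ S ∈ lev (3 * K),
        ind (Good K (Cg * K) (tr (sub (M.X γ 0 ω) A)) S) *
          ENNReal.ofReal |ω (ε (tr (sub (M.X γ 0 ω) A)) S A)| ∂gm ≤
      ENNReal.ofReal (KU / ι) * (ENNReal.ofReal t * ∑ S ∈ lev (k + 1), g (S.tail ++ A) +
        ind (i0 + 4 ≤ A.length) * ∫⁻ ω, Γ A (M.YV γ 0 A ω, ω) *
          ind ((ι : ℝ≥0∞) ≤ nB (addF (M.X γ 0 ω) fun _ => 1)) ∂gm) + ind (A ∈ UD ι) * c := by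
    intro A
    by_cases hA : i0 + 4 ≤ A.length
    swap
    · simp [ind_neg hA]
    rw [ind_pos hA, one_mul, one_mul]
    refine (perA hG1D hMOD hG hT1 hT3 M γ hφ hε a3 hδ0 a2 ht0.le (hU ι b1) b2 A).trans
      (add_le_add_left (mul_le_mul_right (le_of_eq ?_) _) _)
    have hm : ∀ S : Dy, Measurable fun ω => ind (0 < M.X γ 0 ω (S.tail ++ A) + 1 ∧
        (ι : ℝ≥0∞) ≤ nB (sh (M.X γ 0 ω) 1)) := fun S => meas_ind ((meas_pos hT3 M γ _).inter hE)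
    simp only [hg, ← hk, hΓe A _ (by omega)]
    have hq : ∀ S : Dy, gm {ω | 0 < M.X γ 0 ω (S.tail ++ A) + 1 ∧
        (ι : ℝ≥0∞) ≤ nB (sh (M.X γ 0 ω) 1)} = _ := fun S =>
      gm_eq (p := fun ω => 0 < M.X γ 0 ω (S.tail ++ A) + 1 ∧
        (ι : ℝ≥0∞) ≤ nB (sh (M.X γ 0 ω) 1)) ((meas_pos hT3 M γ (S.tail ++ A)).inter hE)
    simp only [hq]
    rw [← lintegral_finsetSum _ fun S _ => hm S, ← lintegral_const_mul' _ _ ENNReal.ofReal_ne_top,
      ← lintegral_add_left ((Finset.measurable_fun_sum _ fun S _ => hm S).const_mul _)]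
    refine lintegral_congr fun ω => ?_
    simp only [YB, ind_and, ← Finset.sum_mul]
    change _ = _ + _ * ind ((ι : ℝ≥0∞) ≤ nB (sh (M.X γ 0 ω) 1))
    ring
  have hc1 : ∑' A : Dy, ind (A ∈ UD ι) * c ≤ ENNReal.ofReal (4 ^ ι *
      (Real.exp (-3 * ι) * ((4 ^ (3 * K)) ^ 2 * (2 * Real.exp 2)))) := by
    rw [tsum_eq_sum (s := UD ι) fun A hA => by rw [ind_neg hA, zero_mul],
      Finset.sum_congr rfl fun A hA => by rw [ind_pos hA, one_mul], Finset.sum_const,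
      nsmul_eq_mul, ENNReal.ofReal_mul (by positivity), ENNReal.ofReal_mul (Real.exp_pos _).le]
    refine mul_le_mul_left ?_ _
    rw [ENNReal.ofReal_pow (by norm_num), ENNReal.ofReal_ofNat]
    exact_mod_cast (Nat.le_succ _).trans (card_UD hT1 ι)
  refine (mul_le_mul_right (ENNReal.tsum_le_tsum key) _).trans ?_
  rw [ENNReal.tsum_add, ENNReal.tsum_mul_left, ENNReal.tsum_add, ENNReal.tsum_mul_left]
  have hw : 0 ≤ (1 / ι : ℝ) ^ th γ := by positivity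
  have s1 : ∑' A : Dy, ∑ S ∈ lev (k + 1), g (S.tail ++ A) ≤
      ENNReal.ofReal (4 * |KS| * (1 / ι : ℝ) ^ th γ) := by
    refine (sum_tail hT1 k g).trans ((mul_le_mul_right hS _).trans ?_)
    rw [mul_assoc, ENNReal.ofReal_mul (p := 4) (by norm_num), ENNReal.ofReal_ofNat]
    exact mul_le_mul_right (ENNReal.ofReal_le_ofReal
      (mul_le_mul_of_nonneg_right (le_abs_self _) hw)) _
  have s2 := hR.trans (ENNReal.ofReal_le_ofReal (show _ ≤ |KG| * KT * η' * (1 / ι : ℝ) ^ th γ from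
    mul_le_mul_of_nonneg_right ((mul_le_mul_of_nonneg_right (le_abs_self KG) (by positivity)).trans
      (by rw [mul_assoc |KG|]; gcongr)) hw))
  refine (mul_le_mul_right (add_le_add (mul_le_mul_right
    (add_le_add (mul_le_mul_right s1 _) s2) _) hc1) _).trans ?_
  rw [← ENNReal.ofReal_mul ht0.le, ← ENNReal.ofReal_add (by positivity) (by positivity),
    ← ENNReal.ofReal_mul (by positivity), ← ENNReal.ofReal_add (by positivity) (by positivity),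
    ← ENNReal.ofReal_mul (by positivity)]
  refine ENNReal.ofReal_le_ofReal ?_
  have hι0 : (0 : ℝ) < ι := by linarith
  have f1 : (ι : ℝ) ^ (th γ + 1) * (1 / ι : ℝ) ^ th γ = ι := by
    rw [Real.rpow_add_one hι0.ne', Real.div_rpow zero_le_one hι0.le, Real.one_rpow]
    field_simp
  have f2 : (ι : ℝ) ^ (th γ + 1) * (KU / ι * (t * (4 * |KS| * (1 / ι : ℝ) ^ th γ) +
      |KG| * KT * η' * (1 / ι : ℝ) ^ th γ)) =
      KU * (4 * |KS|) * t + KU * (|KG| * KT) * η' := by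
    calc _ = ((ι : ℝ) ^ (th γ + 1) * (1 / ι : ℝ) ^ th γ) / ι *
          (KU * (4 * |KS|) * t + KU * (|KG| * KT) * η') := by ring
      _ = _ := by rw [f1, div_self hι0.ne', one_mul]
  have f3 : ∀ a : ℝ, 0 ≤ a → a * (η / 3 / (a + 1)) ≤ η / 3 := fun a ha => by
    rw [← mul_div_assoc, div_le_iff₀ (by positivity)]
    nlinarith
  rw [mul_add, f2]
  linarith [f3 (KU * (4 * |KS|)) (by positivity), f3 (KU * (|KG| * KT)) (by positivity)]

end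

end Pool.Agent.Lib.APPS
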