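import Pool.Agent.Lib.APPS.Blue4

/-!
Block H5: leaves that are not good are rare under the Palm measure.
-/

namespace Pool.Agent.Lib.APPS

open MeasureTheory ProbabilityTheory Filter Topology Set Metric
open scoped NNReal ENNReal CompactlySupported BoundedContinuousFunction RealInnerProductSpace
  Classical

noncomputable section

namespace H5

theorem ind_t {p : Prop} (h : p) : ind p = 1 := by simp [ind, h]

theorem ind_f {p : Prop} (h : ¬p) : ind p = 0 := by simp [ind, h]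

theorem ind_le (p : Prop) : ind p ≤ 1 := by
  by_cases h : p
  · rw [ind_t h]
  · rw [ind_f h]; exact zero_le_one

theorem ofReal_indR (p : Prop) : ENNReal.ofReal (indR p) = ind p := by
  by_cases h : p <;> simp [ind, indR, h]

theorem indR_nonneg (p : Prop) : 0 ≤ indR p := by
  by_cases h : p <;> simp [indR, h]

theorem div4 {n : ℕ} {x : ℝ≥0∞} {r : ℝ} (h : 4 ^ n * x ≤ ENNReal.ofReal r) :
    x ≤ ENNReal.ofReal (r / 4 ^ n) := by
  rw [ENNReal.ofReal_div_of_pos (by positivity), ENNReal.ofReal_pow (by norm_num),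
    ENNReal.ofReal_ofNat, ENNReal.le_div_iff_mul_le (Or.inl (by positivity)) (Or.inl (by simp)),
    mul_comm]
  exact h

theorem sum_le {ι : Type} (s : Finset ι) (f : ι → ℝ≥0∞) {r c : ℝ} (hr : 0 ≤ r)
    (hc : (s.card : ℝ) ≤ c) (h : ∀ i ∈ s, f i ≤ ENNReal.ofReal r) :
    ∑ i ∈ s, f i ≤ ENNReal.ofReal (c * r) := by
  refine (Finset.sum_le_card_nsmul s f _ h).trans ?_
  rw [nsmul_eq_mul, ← ENNReal.ofReal_natCast, ← ENNReal.ofReal_mul (Nat.cast_nonneg _)]
  exact ENNReal.ofReal_le_ofReal (mul_le_mul_of_nonneg_right hc hr)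

theorem side_le {A B : Dy} (h : A.length ≤ B.length) : side B ≤ side A :=
  pow_le_pow_of_le_one (by norm_num) (by norm_num) h

theorem ctr_le (hG : St_GEO1) {A B : Dy} (h : A <:+ B) : ‖ctr B - ctr A‖ ≤ 3 / 4 * side A :=
  (hG.2.2.2.1 A).2.2.2.1 _ ((hG.2.2.2.2.1 B A).2 h (hG.2.2.2.1 B).2.2.1)

/-- squares of level `i` near `P` -/
def nb (P : Dy) (i : ℕ) : Finset Dy :=
  (lev i).filter fun V => ‖ctr V - ctr P‖ ≤ 22 * (1 / 2 : ℝ) ^ i

/-- The deterministic case analysis. -/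
theorem cases (hG : St_GEO1) (hT : St_T1) (k D : ℕ) (y : Dy → ℝ) (S : Dy)
    (hS : S.length = 3 * (k + 4)) (hL : Leaf y S) (hB : ¬Good (k + 4) D (tr y) S) :
    0 < y S.tail ∧ ((∃ A ∈ lev (D + 1), 0 < y A) ∨ ¬Loc 0 (anc k S) ∨
      ∃ i ∈ Finset.range (2 * (k + 4) + 1), ∃ B ∈ nb S.tail i, y B ≤ 0) := by
  have hlen : S.tail.length = 3 * k + 11 := by rw [List.length_tail, hS]; omega
  have hanc := hG.2.2.2.2.2.2.2.2.2.2.2.2.2.1
  refine ⟨hL.2 _ (List.tail_suffix S) (fun h => by rw [h] at hlen; omega), ?_⟩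
  by_contra hc
  simp only [not_or, not_exists, not_and, not_not, not_le, not_lt] at hc
  obtain ⟨h1, h2, h3⟩ := hc
  have hD : ∀ A, IntN y A → A.length ≤ D := by
    intro A hA
    by_contra hlt
    have hl : (anc (D + 1) A).length = D + 1 := by rw [(hanc _ _).2]; omega
    exact absurd (hA _ (hanc _ _).1) (not_lt.2 (h1 _ ((hT.1 _ _).2 hl)))
  have hfin : {A | IntN y A}.Finite := by
    refine ((Finset.range (D + 1)).biUnion lev).finite_toSet.subset fun A hA => ?_
    simp only [Finset.coe_biUnion, Finset.coe_range, mem_iUnion, Finset.mem_coe, mem_Iio]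
    exact ⟨A.length, Nat.lt_succ_of_le (hD A hA), (hT.1 _ _).2 rfl⟩
  have hTr : HasTr y (tr y) := by
    intro A
    unfold tr
    rw [dif_pos hfin]
    simp
  refine hB ⟨((hT.2.2.2.2.2.2.2.2.2.2.2.1 y _ hTr).2.2.2 S).1 hL, hS,
    fun A hA => hD A ((hTr A).1 hA), ?_, ?_⟩
  · have hl : (anc k S).length = k := by rw [(hanc _ _).2]; omega
    have hs : side (anc k S) = (1 / 2 : ℝ) ^ k := by unfold side; rw [hl]
    have h0 : anc 0 (anc k S) = [] := by simp [anc]
    unfold Loc at h2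
    rw [h0, hs] at h2
    refine (closedBall_subset_closedBall' ?_).trans (h2.trans interior_subset)
    have := ctr_le hG (hanc k S).1
    rw [hs] at this
    rw [dist_eq_norm, pow_add]
    have hp : 0 < (1 / 2 : ℝ) ^ k := by positivity
    linarith
  · intro B hB1 hB2 hB3
    rw [hTr]
    intro B' hB'
    have hl : B'.length ≤ B.length := hB'.length_le
    refine h3 B'.length (Finset.mem_range.2 (by omega)) B'
      (Finset.mem_filter.2 ⟨(hT.1 _ _).2 rfl, ?_⟩)
    have e1 := ctr_le hG hB'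
    have e2 := ctr_le hG (List.tail_suffix S)
    have e3 : side B ≤ side B' := side_le hl
    have e4 : side S.tail ≤ side B' := side_le (by omega)
    have e5 : ‖ctr B' - ctr S.tail‖ ≤ ‖ctr B - ctr B'‖ + ‖ctr B - ctr S‖ +
        ‖ctr S - ctr S.tail‖ := by
      have : ctr B' - ctr S.tail = -(ctr B - ctr B') + (ctr B - ctr S) + (ctr S - ctr S.tail) := by
        ring
      rw [this]
      refine (norm_add₃_le).trans (le_of_eq ?_)
      rw [norm_neg]
    have e6 := (hG.1 B').1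
    change _ ≤ 22 * side B'
    linarith

theorem card_loc (hG : St_GEO1) (hT : St_T1) (k : ℕ) :
    (((lev (3 * (k + 4))).filter fun S => ¬Loc 0 (anc k S)).card : ℝ) ≤
      4 ^ (2 * k + 12) * (16 * 2 ^ k) := by
  have h1 : ((lev (3 * (k + 4))).filter fun S => ¬Loc 0 (anc k S)).card ≤
      (lev (2 * k + 12) ×ˢ (lev k).filter fun V => ¬Loc 0 V).card := by
    refine Finset.card_le_card_of_injOn (fun S => (S.take (2 * k + 12), S.drop (2 * k + 12)))
      ?_ ?_
    · intro S hS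
      obtain ⟨h1, h2⟩ := Finset.mem_filter.1 (Finset.mem_coe.1 hS)
      have hl := (hT.1 _ _).1 h1
      have e : anc k S = S.drop (2 * k + 12) := by
        unfold anc; congr 1; omega
      rw [e] at h2
      refine Finset.mem_coe.2 (Finset.mem_product.2 ⟨(hT.1 _ _).2 ?_,
        Finset.mem_filter.2 ⟨(hT.1 _ _).2 ?_, h2⟩⟩)
      · simp only [List.length_take]; omega
      · simp only [List.length_drop]; omega
    · intro S _ S' _ h
      have e1 : S.take (2 * k + 12) = S'.take (2 * k + 12) := congrArg Prod.fst h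
      have e2 : S.drop (2 * k + 12) = S'.drop (2 * k + 12) := congrArg Prod.snd h
      rw [← List.take_append_drop (2 * k + 12) S, e1, e2, List.take_append_drop]
  have h2 := hG.2.2.2.2.2.2.2.2.2.2.2.1 0 k
  rw [Finset.card_product, hT.2.1] at h1
  have h3 := h1.trans (Nat.mul_le_mul_left _ h2)
  rw [add_zero] at h3
  exact_mod_cast h3

/-- The dominating functional attached to a square `S`. -/
def HH5 (k D : ℕ) (t : ℝ) (S : Dy) (y : Dy → ℝ) : ℝ≥0∞ :=
  ind (t < y []) + ∑ A ∈ lev (D + 1), ind (0 < y A ∧ y [] ≤ t) +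
    ind (¬Loc 0 (anc k S)) * ind (0 < y S.tail) +
    ∑ i ∈ Finset.range (2 * (k + 4) + 1), ∑ B ∈ nb S.tail i, ind (0 < y S.tail ∧ y B ≤ 0)

theorem point (hG : St_GEO1) (hT : St_T1) (k D : ℕ) (t : ℝ) (y : Dy → ℝ) :
    ind (0 < y []) * ENNReal.ofReal (Bad (k + 4) D y) ≤
      ∑ S ∈ lev (3 * (k + 4)), HH5 k D t S y := by
  refine (mul_le_of_le_one_left' (ind_le _)).trans ?_
  unfold Bad
  rw [ENNReal.ofReal_sum_of_nonneg fun _ _ => indR_nonneg _]
  refine Finset.sum_le_sum fun S hS => ?_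
  rw [ofReal_indR]
  by_cases h : Leaf y S ∧ ¬Good (k + 4) D (tr y) S
  swap
  · rw [ind_f h]; exact zero_le
  rw [ind_t h]
  obtain ⟨h0, hc⟩ := cases hG hT k D y S ((hT.1 _ _).1 hS) h.1 h.2
  unfold HH5
  rcases hc with ⟨A, hA, hA0⟩ | hc | ⟨i, hi, B, hB, hB0⟩
  · refine le_add_right (le_add_right ?_)
    by_cases ht : t < y []
    · exact le_add_right (ind_t ht).ge
    · refine le_add_left ?_
      refine le_trans (ind_t (⟨hA0, not_lt.1 ht⟩ : 0 < y A ∧ y [] ≤ t)).ge ?_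
      exact Finset.single_le_sum (f := fun A => ind (0 < y A ∧ y [] ≤ t))
        (fun _ _ => zero_le) hA
  · refine le_add_right (le_add_left ?_)
    rw [ind_t hc, ind_t h0, one_mul]
  · refine le_add_left ?_
    refine le_trans ?_ (Finset.single_le_sum
      (f := fun i => ∑ B ∈ nb S.tail i, ind (0 < y S.tail ∧ y B ≤ 0)) (fun _ _ => zero_le) hi)
    refine le_trans (ind_t (⟨h0, hB0⟩ : 0 < y S.tail ∧ y B ≤ 0)).ge ?_
    exact Finset.single_le_sum (f := fun B => ind (0 < y S.tail ∧ y B ≤ 0))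
      (fun _ _ => zero_le) hB

theorem m1 (h3 : St_T3) (t : ℝ) (A : Dy) : Measurable fun y : Dy → ℝ => ind (t < y A) :=
  (h3.2.2.2.2.2.2.2.2.2.2.2.1 _ _ (measurableSet_lt measurable_const (measurable_pi_apply A))).1

theorem m2 (h3 : St_T3) (t : ℝ) (A B : Dy) :
    Measurable fun y : Dy → ℝ => ind (0 < y A ∧ y B ≤ t) :=
  (h3.2.2.2.2.2.2.2.2.2.2.2.1 _ (fun y : Dy → ℝ => 0 < y A ∧ y B ≤ t)
    ((measurableSet_lt measurable_const (measurable_pi_apply A)).inter
      (measurableSet_le (measurable_pi_apply B) measurable_const))).1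

theorem palm_sum (hR0 : St_R0) {γ : ℝ} (hγ : γ ∈ Ioo (0 : ℝ) 2) {ι : Type} (s : Finset ι)
    (G : ι → (Dy → ℝ) → ℝ≥0∞) (hm : ∀ i, Measurable (G i)) :
    palm γ (fun y => ∑ i ∈ s, G i y) = ∑ i ∈ s, palm γ (G i) := by
  induction s using Finset.induction_on with
  | empty =>
    have := (hR0 γ hγ).2.2.2.2.2.1 (fun _ => 0) 0 measurable_const
    simpa using this
  | insert i s hi ih =>
    simp only [Finset.sum_insert hi]
    rw [(hR0 γ hγ).2.2.2.2.1 (G i) _ (hm i) (Finset.measurable_sum _ fun j _ => hm j), ih]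

theorem palm_HH (h3 : St_T3) (hR0 : St_R0) {γ : ℝ} (hγ : γ ∈ Ioo (0 : ℝ) 2) (k D : ℕ) (t : ℝ)
    (S : Dy) : Measurable (HH5 k D t S) ∧ palm γ (HH5 k D t S) =
      palm γ (fun y => ind (t < y [])) +
      ∑ A ∈ lev (D + 1), palm γ (fun y => ind (0 < y A ∧ y [] ≤ t)) +
      ind (¬Loc 0 (anc k S)) * palm γ (fun y => ind (0 < y S.tail)) +
      ∑ i ∈ Finset.range (2 * (k + 4) + 1), ∑ B ∈ nb S.tail i,
        palm γ (fun y => ind (0 < y S.tail ∧ y B ≤ 0)) := by
  have a1 := m1 h3 t []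
  have a2 : Measurable fun y : Dy → ℝ => ∑ A ∈ lev (D + 1), ind (0 < y A ∧ y [] ≤ t) :=
    Finset.measurable_sum _ fun A _ => m2 h3 t A []
  have a3 : Measurable fun y : Dy → ℝ => ind (¬Loc 0 (anc k S)) * ind (0 < y S.tail) :=
    (m1 h3 0 _).const_mul _
  have a5 : ∀ i, Measurable fun y : Dy → ℝ =>
      ∑ B ∈ nb S.tail i, ind (0 < y S.tail ∧ y B ≤ 0) := fun i =>
    Finset.measurable_sum _ fun B _ => m2 h3 0 _ B
  have a4 : Measurable fun y : Dy → ℝ => ∑ i ∈ Finset.range (2 * (k + 4) + 1),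
      ∑ B ∈ nb S.tail i, ind (0 < y S.tail ∧ y B ≤ 0) := Finset.measurable_sum _ fun i _ => a5 i
  have hadd := (hR0 γ hγ).2.2.2.2.1
  refine ⟨((a1.add a2).add a3).add a4, ?_⟩
  unfold HH5
  rw [hadd _ _ ((a1.fun_add a2).fun_add a3) a4, hadd _ _ (a1.fun_add a2) a3, hadd _ _ a1 a2,
    palm_sum hR0 hγ _ _ (fun A => m2 h3 t A []), (hR0 γ hγ).2.2.2.2.2.1 _ _ (m1 h3 0 _),
    palm_sum hR0 hγ _ _ a5]
  congr 1
  exact Finset.sum_congr rfl fun i _ => palm_sum hR0 hγ _ _ fun B => m2 h3 0 _ B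

theorem small {c : ℝ} {Cg K : ℕ} (h : 7 ≤ c * Cg) (hc : 0 ≤ c) :
    (4 : ℝ) ^ (3 * K) * Real.exp (-(c * ((Cg * K + 1 : ℕ) : ℝ) * l2)) ≤ (1 / 2) ^ K := by
  have hl : 0 < l2 := Real.log_pos (by norm_num)
  have e2 : Real.exp l2 = 2 := Real.exp_log (by norm_num)
  have e4 : (4 : ℝ) ^ (3 * K) = Real.exp (((6 * K : ℕ) : ℝ) * l2) := by
    rw [Real.exp_nat_mul, e2, show 6 * K = 2 * (3 * K) by ring, pow_mul (2 : ℝ) 2]
    norm_num
  have e1 : (1 / 2 : ℝ) ^ K = Real.exp (-((K : ℝ) * l2)) := by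
    rw [Real.exp_neg, Real.exp_nat_mul, e2, one_div, inv_pow]
  rw [e4, e1, ← Real.exp_add]
  refine Real.exp_le_exp.2 ?_
  push_cast
  have hK : (0 : ℝ) ≤ K := Nat.cast_nonneg K
  have h1 : 7 * ((K : ℝ) * l2) ≤ c * Cg * (K * l2) :=
    mul_le_mul_of_nonneg_right h (by positivity)
  have h2 : 0 ≤ c * l2 := by positivity
  nlinarith

end H5

open H5 in
theorem blk_H5 (_hG1 : St_G1) (_hG3 : St_G3) (_hM0 : St_M0) (_hMOD : St_MOD) (hG : St_GEO1)
    (hT : St_T1) (h3 : St_T3) (hRW : St_RW1) (hR0 : St_R0) (hR : St_R) (hPA : St_PA)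
    (hADM : St_ADM) : St_H5 := by
  intro γ hγ
  have ha : 0 < aa γ := (hRW.2.2 γ hγ).1
  have hγ0 : 0 < γ := hγ.1
  have hl : 0 < l2 := Real.log_pos (by norm_num)
  set a := aa γ with hadef
  obtain ⟨K0, hK0, hp0⟩ := (hR0 γ hγ).2.2.2.1
  obtain ⟨K1, hp1⟩ := (hPA γ hγ).2.2.2.1 22
  rw [← hadef] at hp1
  set K2 := |K1| with hK2
  have hK20 : 0 ≤ K2 := abs_nonneg _
  have hK12 : K1 ≤ K2 := le_abs_self _
  obtain ⟨n1, hn1⟩ := exists_nat_ge (7 / (γ * a / 4))
  obtain ⟨n2, hn2⟩ := exists_nat_ge (7 / (a ^ 2 / 4))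
  have c1 : 7 ≤ γ * a / 4 * ((n1 + n2 : ℕ) : ℝ) := by
    rw [div_le_iff₀ (by positivity)] at hn1
    push_cast
    have : 0 ≤ γ * a / 4 * n2 := by positivity
    linarith
  have c2 : 7 ≤ a ^ 2 / 4 * ((n1 + n2 : ℕ) : ℝ) := by
    rw [div_le_iff₀ (by positivity)] at hn2
    push_cast
    have : 0 ≤ a ^ 2 / 4 * n1 := by positivity
    linarith
  refine ⟨n1 + n2, fun η hη => ?_⟩
  set q : ℝ := Real.exp (-(a ^ 2 * l2 / 2)) with hq
  have hq0 : 0 < q := Real.exp_pos _
  have hq1 : q < 1 := Real.exp_lt_one_iff.2 (by rw [neg_lt_zero]; positivity)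
  have hlim : Tendsto (fun k : ℕ => (65 * K0 + K2) * (1 / 2 : ℝ) ^ k +
      8100 * K2 * (2 * (k * q ^ k) + 9 * q ^ k)) atTop (𝓝 0) := by
    have t1 := tendsto_pow_atTop_nhds_zero_of_lt_one (r := (1 / 2 : ℝ)) (by norm_num) (by norm_num)
    have t2 := tendsto_pow_atTop_nhds_zero_of_lt_one hq0.le hq1
    have t3 := tendsto_self_mul_const_pow_of_lt_one hq0.le hq1
    have := (t1.const_mul (65 * K0 + K2)).add
      (((t3.const_mul 2).add (t2.const_mul 9)).const_mul (8100 * K2))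
    simpa using this
  obtain ⟨k0, hk0⟩ := eventually_atTop.1 (hlim.eventually (ge_mem_nhds hη))
  refine ⟨k0 + 4, fun K hK => ?_⟩
  obtain ⟨k, rfl⟩ : ∃ k, K = k + 4 := ⟨K - 4, by omega⟩
  refine le_trans ?_ (hk0 k (by omega))
  set D := (n1 + n2) * (k + 4) with hD
  set t : ℝ := a * ((D + 1 : ℕ) : ℝ) * l2 / 4 with ht
  have hB : BddM (Bad (k + 4) D) := ((hADM γ hγ).2 (k + 4) D 1 1 one_pos one_pos).2.1
  have hcard : ∀ n, ((lev n).card : ℝ) ≤ 4 ^ n := fun n => by rw [hT.2.1]; push_cast; rfl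
  have hhalf : (1 / 2 : ℝ) ^ (k + 4) ≤ (1 / 2) ^ k :=
    pow_le_pow_of_le_one (by norm_num) (by norm_num) (by omega)
  have hpos : 0 ≤ (1 / 2 : ℝ) ^ k := by positivity
  refine (ENNReal.ofReal_le_ofReal_iff (by positivity)).1 ?_
  refine ((hR γ hγ).2.2.2.2.2.1 _ hB).trans ?_
  refine ((hR0 γ hγ).2.2.2.2.2.2.1 _ _ (point hG hT k D t)).trans ?_
  rw [palm_sum hR0 hγ _ _ fun S => (palm_HH h3 hR0 hγ k D t S).1,
    Finset.sum_congr rfl fun S _ => (palm_HH h3 hR0 hγ k D t S).2]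
  simp only [Finset.sum_add_distrib]
  have b1 : ∑ _S ∈ lev (3 * (k + 4)), palm γ (fun y => ind (t < y [])) ≤
      ENNReal.ofReal (K0 * (1 / 2) ^ k) := by
    refine (sum_le _ _ (by positivity) (hcard _) fun S _ => (hp0 t).le).trans
      (ENNReal.ofReal_le_ofReal ?_)
    have h1 := small (K := k + 4) c1 (by positivity)
    have e : -γ * t = -(γ * a / 4 * (((n1 + n2) * (k + 4) + 1 : ℕ) : ℝ) * l2) := by
      rw [ht]; ring
    rw [e, mul_left_comm]
    exact mul_le_mul_of_nonneg_left (h1.trans hhalf) hK0.le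
  have b2 : ∑ _S ∈ lev (3 * (k + 4)), ∑ A ∈ lev (D + 1),
      palm γ (fun y => ind (0 < y A ∧ y [] ≤ t)) ≤ ENNReal.ofReal (K2 * (1 / 2) ^ k) := by
    have h2 : ∑ A ∈ lev (D + 1), palm γ (fun y => ind (0 < y A ∧ y [] ≤ t)) ≤
        ENNReal.ofReal (4 ^ (D + 1) * (K2 *
          Real.exp (-(a ^ 2 / 4 * ((D + 1 : ℕ) : ℝ) * l2)) / 4 ^ (D + 1))) := by
      refine sum_le _ _ (by positivity) (hcard _) fun A hA => ?_
      have hA' := (hT.1 _ _).1 hA
      have h4 := hp1 A [] t (by simp) (by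
        have := ctr_le hG (List.nil_suffix (l := A))
        have h5 := (hG.1 []).1
        rw [norm_sub_rev]
        linarith)
      rw [hA'] at h4
      refine div4 (h4.trans (ENNReal.ofReal_le_ofReal ?_))
      have e : a * t - a ^ 2 * (((D + 1 : ℕ) : ℝ) - (([] : Dy).length : ℝ)) * l2 / 2 =
          -(a ^ 2 / 4 * ((D + 1 : ℕ) : ℝ) * l2) := by
        rw [ht]; simp only [List.length_nil, Nat.cast_zero]; ring
      rw [e]
      exact mul_le_mul_of_nonneg_right hK12 (Real.exp_pos _).le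
    rw [mul_div_cancel₀ _ (by positivity)] at h2
    refine (sum_le _ _ (by positivity) (hcard _) fun S _ => h2).trans
      (ENNReal.ofReal_le_ofReal ?_)
    have h1 := small (K := k + 4) c2 (by positivity)
    rw [mul_left_comm]
    exact mul_le_mul_of_nonneg_left (h1.trans hhalf) hK20
  have b3 : ∑ S ∈ lev (3 * (k + 4)), ind (¬Loc 0 (anc k S)) *
      palm γ (fun y => ind (0 < y S.tail)) ≤ ENNReal.ofReal (64 * K0 * (1 / 2) ^ k) := by
    have e : ∑ S ∈ lev (3 * (k + 4)), ind (¬Loc 0 (anc k S)) *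
        palm γ (fun y => ind (0 < y S.tail)) =
        ∑ S ∈ (lev (3 * (k + 4))).filter fun S => ¬Loc 0 (anc k S),
          palm γ (fun y => ind (0 < y S.tail)) := by
      rw [Finset.sum_filter]
      refine Finset.sum_congr rfl fun S _ => ?_
      by_cases h : ¬Loc 0 (anc k S)
      · rw [ind_t h, if_pos h, one_mul]
      · rw [ind_f h, if_neg h, zero_mul]
    rw [e]
    refine (sum_le (r := K0 / 4 ^ (3 * k + 11)) _ _ (by positivity) (card_loc hG hT k)
      fun S hS => ?_).trans (ENNReal.ofReal_le_ofReal (le_of_eq ?_))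
    · have hS' := (hT.1 _ _).1 (Finset.mem_filter.1 hS).1
      have hlen : S.tail.length = 3 * k + 11 := by rw [List.length_tail, hS']; omega
      have h4 := (hR0 γ hγ).2.1 (fun y => ind (0 < y [])) S.tail (m1 h3 0 [])
      rw [hp0 0, hlen] at h4
      refine div4 (le_of_eq ?_)
      simpa [sub] using h4
    · have e4 : (4 : ℝ) ^ k = 2 ^ k * 2 ^ k := by rw [← mul_pow]; norm_num
      rw [one_div, inv_pow, show 3 * k + 11 = k + (2 * k + 11) by ring, pow_add (4 : ℝ) k,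
        pow_succ (4 : ℝ) (2 * k + 11), e4]
      field_simp
      norm_num
  have b4 : ∑ S ∈ lev (3 * (k + 4)), ∑ i ∈ Finset.range (2 * (k + 4) + 1), ∑ B ∈ nb S.tail i,
      palm γ (fun y => ind (0 < y S.tail ∧ y B ≤ 0)) ≤
      ENNReal.ofReal (8100 * K2 * (2 * (k * q ^ k) + 9 * q ^ k)) := by
    refine (sum_le (r := (2 * k + 9) * (2025 * (K2 * q ^ k / 4 ^ (3 * k + 11)))) _ _
      (by positivity) (hcard _) fun S hS => ?_).trans (ENNReal.ofReal_le_ofReal (le_of_eq ?_))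
    · have hS' := (hT.1 _ _).1 hS
      have hlen : S.tail.length = 3 * k + 11 := by rw [List.length_tail, hS']; omega
      refine sum_le _ _ (by positivity) (by rw [Finset.card_range]; push_cast; linarith)
        fun i hi => ?_
      have hi' := Finset.mem_range.1 hi
      refine sum_le _ _ (by positivity) ?_ fun B hB => ?_
      · refine (hG.2.2.2.2.2.2.2.2.2.2.1 i (ctr S.tail) 22 (by norm_num)).trans (by norm_num)
      · obtain ⟨hB1, hB2⟩ := Finset.mem_filter.1 hB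
        have hBl := (hT.1 _ _).1 hB1
        have h4 := hp1 S.tail B 0 (by omega) (by unfold side; rw [hBl]; exact hB2)
        rw [hlen, hBl] at h4
        refine div4 (h4.trans (ENNReal.ofReal_le_ofReal ?_))
        refine mul_le_mul hK12 ?_ (Real.exp_pos _).le hK20
        rw [hq, ← Real.exp_nat_mul]
        refine Real.exp_le_exp.2 ?_
        have h5 : (k : ℝ) ≤ ((3 * k + 11 : ℕ) : ℝ) - i := by
          have : (i : ℝ) + k ≤ ((3 * k + 11 : ℕ) : ℝ) := by exact_mod_cast (by omega)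
          linarith
        have h6 : 0 ≤ a ^ 2 * l2 / 2 := by positivity
        have h7 := mul_le_mul_of_nonneg_right h5 h6
        linarith
    · rw [show 3 * (k + 4) = 3 * k + 11 + 1 by ring, pow_succ]
      field_simp
      ring
  refine (add_le_add (add_le_add (add_le_add b1 b2) b3) b4).trans (le_of_eq ?_)
  rw [← ENNReal.ofReal_add (by positivity) (by positivity),
    ← ENNReal.ofReal_add (by positivity) (by positivity),
    ← ENNReal.ofReal_add (by positivity) (by positivity)]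
  congr 1
  ring

end

end Pool.Agent.Lib.APPS
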