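import Pool.Agent.Lib.APPS.Blue2
import Pool.Agent.Lib.APPS.B_FM

/-!
Block JR: a rooted first moment bound with a low square near the root.
-/

namespace Pool.Agent.Lib.APPS

open MeasureTheory ProbabilityTheory Filter Topology Set Metric
open scoped NNReal ENNReal RealInnerProductSpace Classical

noncomputable section

namespace JR

open FM

def xv (M : Model) (V S : Dy) : HH := M.eS (S ++ V) - M.eC (ctr V) (4 * side V)

def NV (γ : ℝ) (M : Model) (V : Dy) (w : ℝ) (ω : Om) : ℝ≥0∞ :=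
  ∑' S : Dy, ind (0 < drift (QQ γ) (fun S => ω (xv M V S)) w S)

def Ps (γ : ℝ) (M : Model) (m W w : ℝ) (V : Dy) (p : ℝ × Om) : ℝ≥0∞ :=
  ind (|p.1 - m| ≤ W) * (1 + eE (-γ * m) * NV γ M V w p.2)

theorem ind_mono {p r : Prop} (h : p → r) : ind p ≤ ind r := by
  by_cases hp : p
  · simp [ind, hp, h hp]
  · simp [ind, hp]

theorem log_side (T : Dy) : Real.log (side T) = -(T.length * l2) := by
  simp only [side, l2, Real.log_pow, one_div, Real.log_inv]
  ring

theorem side_le {B V : Dy} (h : B.length ≤ V.length) : side V ≤ side B :=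
  pow_le_pow_of_le_one (by norm_num) (by norm_num) h

theorem four_side {V : Dy} (h : 2 ≤ V.length) : (1 / 2 : ℝ) ^ (V.length - 2) = 4 * side V := by
  obtain ⟨k, hk⟩ := Nat.exists_eq_add_of_le' h
  rw [side, hk, Nat.add_sub_cancel, pow_add]
  ring

theorem meas_set (γ : ℝ) (M : Model) (V S : Dy) (w : ℝ) :
    MeasurableSet {ω : Om | 0 < drift (QQ γ) (fun S => ω (xv M V S)) w S} :=
  measurableSet_lt measurable_const (((meas_ev _).add_const _).sub_const _)

theorem meas_NV (hT3 : St_T3) (γ : ℝ) (M : Model) (V : Dy) (w : ℝ) : Measurable (NV γ M V w) :=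
  Measurable.tsum fun S => (hT3.2.2.2.2.2.2.2.2.2.2.2.1 _ _ (meas_set γ M V S w)).1

theorem meas_Ps (hT3 : St_T3) (γ : ℝ) (M : Model) (m W w : ℝ) (V : Dy) :
    Measurable (Ps γ M m W w V) := by
  refine Measurable.mul (hT3.2.2.2.2.2.2.2.2.2.2.2.1 _ _ ?_).1
    ((((meas_NV hT3 γ M V w).comp measurable_snd).const_mul _).const_add _)
  exact measurableSet_le (measurable_fst.sub_const _).abs measurable_const

theorem geom (hM : St_MOD) (hFE : St_FE) (hE : St_EXP2) (hG : St_GEO1) (hTL : St_TL) :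
    ∃ D : ℝ, 0 ≤ D ∧ ∀ (M : Model) (i0 : ℕ) (V : Dy), M.Ok i0 → i0 + 2 ≤ V.length →
      (∀ S, ‖xv M V S‖ ^ 2 ≤ D + S.length * l2) ∧
      ∀ B : Dy, B.length ≤ V.length → ‖ctr B - ctr V‖ ≤ 6 * side B →
        ‖M.eS B‖ ^ 2 ≤ M.C0 + B.length * l2 + D ∧
        |⟪M.eS B, M.eC (ctr V) (4 * side V)⟫ - (M.C0 + B.length * l2)| ≤ D ∧
        ∀ S, -D ≤ ⟪M.eS B, xv M V S⟫ := by
  obtain ⟨C, hC0, -, -, hkS, -, hlog⟩ := hE.2.2.2.2.2
  obtain ⟨B0, hB0⟩ := hTL.2.2.2.1
  have h7 : 0 ≤ Real.log 7 := Real.log_nonneg (by norm_num)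
  have hkk : ∀ S, kS S S ≤ C + S.length * l2 := by
    intro S
    have h := hkS S S
    rw [sub_self, norm_zero, max_self, max_eq_right (hG.1 S).1.le, log_side] at h
    linarith [le_of_abs_le h]
  refine ⟨2 * C + Real.log 7, by positivity, fun M i0 V hOk hV => ?_⟩
  have hball := (hB0 1 M i0 V hOk hV).1
  have hsV := (hG.1 V).1
  have hO : ∀ A, box A ⊆ M.O := fun A y hy =>
    hOk.1 y ((hG.2.2.2.2.1 A []).2 List.nil_suffix hy) (mem_closedBall_self (by positivity))
  have hun : ∀ A, unif A M.Oᶜ = 0 := fun A =>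
    measure_mono_null (compl_subset_compl.2 (hO A)) (hFE.2.2.2.2.2.2.2.1 A).2
  have hpu : ∀ A, PFE (unif A) := fun A => (hFE.2.2.2.2.2.2.2.1 A).1
  have hci := hFE.2.2.2.2.2.2.2.2.1 (ctr V) (4 * side V) (by positivity)
  have hco : circ (ctr V) (4 * side V) M.Oᶜ = 0 :=
    measure_mono_null (compl_subset_compl.2 (sphere_subset_closedBall.trans hball)) hci.2.1
  obtain ⟨-, -, -, m4, -, m6, -, m8, -, -, -, m12, -⟩ := hM M
  constructor
  · intro S
    have hb : box V ⊆ closedBall (ctr V) (4 * side V) := fun y hy => by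
      have := (hG.2.2.2.1 V).2.2.2.1 y hy
      rw [mem_closedBall, dist_eq_norm]
      linarith
    have h := m12 (ctr V) (4 * side V) V (by positivity) hb S S
    rw [← real_inner_self_eq_norm_sq]
    change ⟪xv M V S, xv M V S⟫ = _ at h
    rw [h, covE, Real.log_mul (by norm_num) hsV.ne', log_side]
    have h4 : Real.log 4 ≤ Real.log 7 := Real.log_le_log (by norm_num) (by norm_num)
    linarith [hkk S]
  · intro B hB hd
    have hsB := (hG.1 B).1
    have hVB := side_le hB
    have hI : |Ie (circ (ctr V) (4 * side V)) (unif B) - B.length * l2| ≤ C + Real.log 7 ∧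
        Ie (circ (ctr V) (4 * side V)) (unif B) ≤ C + B.length * l2 := by
      rw [m8 _ _ _ (by positivity) (hpu B)]
      have h := hlog (ctr V) (4 * side V) B (by positivity)
      have h1 : side B ≤ max (max ‖ctr V - ctr B‖ (side B)) (4 * side V) :=
        (le_max_right _ _).trans (le_max_left _ _)
      have h2 : max (max ‖ctr V - ctr B‖ (side B)) (4 * side V) ≤ 7 * side B := by
        rw [norm_sub_rev]
        exact max_le (max_le (by linarith) (by linarith)) (by linarith)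
      have h3 := Real.log_le_log hsB h1
      have h4 := Real.log_le_log (hsB.trans_le h1) h2
      rw [Real.log_mul (by norm_num) hsB.ne'] at h4
      rw [log_side] at h3 h4
      obtain ⟨h5, h6⟩ := abs_le.1 h
      exact ⟨abs_le.2 ⟨by linarith, by linarith⟩, by linarith⟩
    refine ⟨?_, ?_, fun S => ?_⟩
    · rw [← real_inner_self_eq_norm_sq, Model.eS, m4 _ _ (hpu B) (hpu B) (hun B) (hun B)]
      have := hkk B
      rw [kS] at this
      linarith
    · rw [real_inner_comm, Model.eS, Model.eC, m4 _ _ hci.1 (hpu B) hco (hun B)]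
      obtain ⟨h5, h6⟩ := abs_le.1 hI.1
      exact abs_le.2 ⟨by linarith, by linarith⟩
    · rw [real_inner_comm, xv, Model.eS, Model.eS, Model.eC,
        m6 _ _ _ (hpu _) hci.1 (hpu B) (hun _) hco]
      have h := hkS (S ++ V) B
      have hc : ‖ctr (S ++ V) - ctr V‖ ≤ 3 / 4 * side V :=
        (hG.2.2.2.1 V).2.2.2.1 _ ((hG.2.2.2.2.1 _ _).2 (List.suffix_append S V)
          (hG.2.2.2.1 (S ++ V)).2.2.1)
      have hs : side (S ++ V) ≤ side V := side_le (by simp)
      have h2 : max ‖ctr (S ++ V) - ctr B‖ (max (side (S ++ V)) (side B)) ≤ 7 * side B := by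
        refine max_le ?_ (max_le (by linarith) (by linarith))
        have := norm_sub_le_norm_sub_add_norm_sub (ctr (S ++ V)) (ctr V) (ctr B)
        rw [norm_sub_rev (ctr V)] at this
        linarith
      have h4 := Real.log_le_log
        (hsB.trans_le ((le_max_right _ _).trans (le_max_right _ _))) h2
      rw [Real.log_mul (by norm_num) hsB.ne', log_side] at h4
      have h5 := (abs_le.1 h).1
      rw [kS] at h5
      linarith [hI.2]

/-- one tilt -/
theorem tilt1 (h2 : St_G2) (hT3 : St_T3) (hTL : St_TL) (γ D K' u m μ0 : ℝ) (ha : 0 < aa γ)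
    (M : Model) (i0 : ℕ) (V B : Dy) (hOk : M.Ok i0) (hV : i0 + 2 ≤ V.length)
    (h1 : ‖M.eS B‖ ^ 2 ≤ M.C0 + B.length * l2 + D)
    (h3 : |⟪M.eS B, M.eC (ctr V) (4 * side V)⟫ - (M.C0 + B.length * l2)| ≤ D)
    (h4 : ∀ S, -D ≤ ⟪M.eS B, xv M V S⟫) :
    ∫⁻ ω, ind (|M.YV γ u V ω - m| ≤ K') * (1 + eE (-γ * m) * posN (M.X γ u ω) V) *
        ind (M.X γ u ω B ≤ μ0) ∂gm ≤
      eE (aa γ * (μ0 - u + QQ γ * B.length * l2) + aa γ ^ 2 * (M.C0 + B.length * l2 + D) / 2) *
        ∫⁻ ω, Ps γ M m (|K'| + aa γ * D) (m + |K'| + aa γ * D - QQ γ * 2 * l2) V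
          (M.YV γ (u - aa γ * (M.C0 + B.length * l2)) V ω, ω) ∂gm := by
  obtain ⟨B0, hB0⟩ := hTL.2.2.2.1
  obtain ⟨-, -, hX, -⟩ := hB0 γ M i0 V hOk hV
  set h : HH := (-aa γ) • M.eS B with hh
  let f : Om → ℝ≥0∞ := fun ω =>
    ind (|M.YV γ u V ω - m| ≤ K') * (1 + eE (-γ * m) * posN (M.X γ u ω) V)
  have hi := hT3.2.2.2.2.2.2.2.2.2.2.2.1
  have hmX := (hT3.2.2.2.2.2.2.2.2.2.2.1 M γ u).1
  have hmY : Measurable (M.YV γ u V) := (hT3.2.2.2.2.2.2.2.2.2.2.1 M γ u).2 _ _
  have hf : Measurable f := by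
    refine Measurable.mul (hi _ _ (measurableSet_le (hmY.sub_const _).abs measurable_const)).1
      ((Measurable.const_mul ?_ _).const_add _)
    exact Measurable.tsum fun S => (hi _ _ (measurableSet_lt measurable_const
      ((measurable_pi_apply _).comp hmX))).1
  have hcm := h2.2.1 h f hf
  have hn : ‖h‖ ^ 2 ≤ aa γ ^ 2 * (M.C0 + B.length * l2 + D) := by
    rw [hh, norm_smul, mul_pow, Real.norm_eq_abs, sq_abs, neg_sq]
    exact mul_le_mul_of_nonneg_left h1 (sq_nonneg _)
  have e1 : ∀ ω : Om, f ω * ind (M.X γ u ω B ≤ μ0) ≤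
      eE (aa γ * (μ0 - u + QQ γ * B.length * l2) + aa γ ^ 2 * (M.C0 + B.length * l2 + D) / 2) *
        (f ω * eE (ω h - ‖h‖ ^ 2 / 2)) := by
    intro ω
    rw [mul_left_comm, ← eE_add]
    refine mul_le_mul_right ?_ _
    by_cases hb : M.X γ u ω B ≤ μ0
    · rw [ind, if_pos hb, ← eE_zero]
      refine eE_mono ?_
      have a1 : ω h = -aa γ * ω (M.eS B) := by rw [hh, map_smul, smul_eq_mul]
      simp only [Model.X, drift] at hb
      rw [a1]
      nlinarith
    · rw [ind, if_neg hb]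
      exact zero_le
  have e2 : ∀ ω : Om, f (ω + dv h) ≤
      Ps γ M m (|K'| + aa γ * D) (m + |K'| + aa γ * D - QQ γ * 2 * l2) V
        (M.YV γ (u - aa γ * (M.C0 + B.length * l2)) V ω, ω) := by
    intro ω
    by_cases hy : |M.YV γ u V (ω + dv h) - m| ≤ K'
    · have hy' := hy.trans (le_abs_self K')
      refine mul_le_mul' (ind_mono fun _ => ?_) (add_le_add_right (mul_le_mul_right ?_ _) _)
      · have a1 : M.YV γ (u - aa γ * (M.C0 + B.length * l2)) V ω - m =
            (M.YV γ u V (ω + dv h) - m) +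
              aa γ * (⟪M.eS B, M.eC (ctr V) (4 * side V)⟫ - (M.C0 + B.length * l2)) := by
          simp only [Model.YV, Model.Y, LinearMap.add_apply, dv_apply, hh, real_inner_smul_left]
          ring
        simp only
        rw [a1]
        refine (abs_add_le _ _).trans (add_le_add hy' ?_)
        rw [abs_mul, abs_of_pos ha]
        exact mul_le_mul_of_nonneg_left h3 ha.le
      · refine ENNReal.tsum_le_tsum fun S => ind_mono fun hS => ?_
        rw [hX] at hS
        change 0 < _ + (ω + dv h) (xv M V S) - _ at hS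
        simp only [LinearMap.add_apply, dv_apply, hh, real_inner_smul_left] at hS
        simp only [drift]
        have a2 := mul_le_mul_of_nonneg_left (h4 S) ha.le
        have a3 := (abs_le.1 hy').2
        rw [hh] at a3
        nlinarith
    · simp only [f]
      rw [ind, if_neg hy, zero_mul]
      exact zero_le
  calc ∫⁻ ω, f ω * ind (M.X γ u ω B ≤ μ0) ∂gm ≤ _ := lintegral_mono e1
    _ = _ := lintegral_const_mul' _ _ (eE_ne_top _)
    _ ≤ _ := by
        rw [← hcm]
        exact mul_le_mul_right (lintegral_mono e2) _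

theorem union (hG : St_GEO1) (hT : St_T1) (V : Dy) (K1 : ℕ) (F : Dy → ℝ≥0∞) (G : ℕ → ℝ≥0∞)
    (h : ∀ B : Dy, B.length ≤ V.length → ‖ctr B - ctr V‖ ≤ 6 * side B → F B ≤ G B.length) :
    ∑' B : Dy, ind (K1 ≤ B.length ∧ B.length ≤ V.length ∧ ‖ctr B - ctr V‖ ≤ 6 * side B) * F B ≤
      ∑' i : ℕ, ind (K1 ≤ i) * (169 * G i) := by
  set s : ℕ → Finset Dy := fun j => (lev j).filter fun B => ‖ctr B - ctr V‖ ≤ 6 * (1 / 2 : ℝ) ^ j
  have hc : ∀ j, ((s j).card : ℝ≥0∞) ≤ 169 := by
    intro j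
    have h1 := hG.2.2.2.2.2.2.2.2.2.2.1 j (ctr V) 6 (by norm_num)
    have h4 : ((s j).card : ℝ) ≤ 169 := h1.trans (by norm_num)
    have h5 : (s j).card ≤ 169 := by exact_mod_cast h4
    exact_mod_cast h5
  calc _ ≤ ∑' B : Dy, ∑' j : ℕ, if B ∈ s j then ind (K1 ≤ j) * G j else 0 := by
        refine ENNReal.tsum_le_tsum fun B => le_trans ?_ (ENNReal.le_tsum B.length)
        by_cases hB : K1 ≤ B.length ∧ B.length ≤ V.length ∧ ‖ctr B - ctr V‖ ≤ 6 * side B
        · have : B ∈ s B.length := Finset.mem_filter.2 ⟨(hT.1 _ _).2 rfl, hB.2.2⟩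
          rw [if_pos this]
          exact mul_le_mul' (ind_mono fun _ => hB.1) (h B hB.2.1 hB.2.2)
        · rw [ind, if_neg hB, zero_mul]
          exact zero_le
    _ = ∑' j : ℕ, ∑' B : Dy, if B ∈ s j then ind (K1 ≤ j) * G j else 0 := ENNReal.tsum_comm
    _ ≤ _ := by
        refine ENNReal.tsum_le_tsum fun j => ?_
        rw [tsum_eq_sum (s := s j) (fun V hV => if_neg hV),
          Finset.sum_congr rfl (fun V hV => if_pos hV), Finset.sum_const, nsmul_eq_mul,
          mul_left_comm]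
        exact mul_le_mul_right (mul_le_mul_left (hc j) _) _

theorem window (lam u m W : ℝ) (hl : 0 ≤ lam) (K2 : ℝ≥0∞) (hK : K2 ≠ ∞) :
    ∫⁻ y, ind (|y - m| ≤ W) * K2 * eE (lam * (u - y)) ≤
      K2 * ENNReal.ofReal (2 * W) * eE (lam * (u - m + W)) := by
  calc _ ≤ ∫⁻ y, (Icc (m - W) (m + W)).indicator (fun _ => K2 * eE (lam * (u - m + W))) y := by
        refine lintegral_mono fun y => ?_
        by_cases hy : |y - m| ≤ W
        · obtain ⟨h1, h2⟩ := abs_le.1 hy
          rw [indicator_of_mem (show y ∈ Icc (m - W) (m + W) from ⟨by linarith, by linarith⟩),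
            ind, if_pos hy, one_mul]
          exact mul_le_mul_right (eE_mono (mul_le_mul_of_nonneg_left (by linarith) hl)) _
        · simp only
          rw [ind, if_neg hy, zero_mul, zero_mul]
          exact zero_le
    _ = _ := by
        rw [lintegral_indicator_const measurableSet_Icc, Real.volume_Icc,
          show m + W - (m - W) = 2 * W by ring, mul_right_comm]

end JR

open JR FM in
theorem blk_JR (hG1 : St_G1) (_hG1D : St_G1D) (hG2 : St_G2) (_hG3 : St_G3) (hM : St_MOD)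
    (hFE : St_FE) (_hE1 : St_EXP1) (hE2 : St_EXP2) (hG : St_GEO1) (hT : St_T1) (hT3 : St_T3)
    (hR : St_RW1) (hFM : St_FM) (hTL : St_TL) (hGV : St_GV) : St_JR := by
  intro γ hγ
  haveI : IsProbabilityMeasure gm := hG1.1
  obtain ⟨ha, -, -, -, -, hQa, -⟩ := hR.2.2 γ hγ
  have hγ0 : 0 < γ := hγ.1
  have hl2 := l2_pos
  obtain ⟨D, hD0, hD⟩ := geom hM hFE hE2 hG hTL
  obtain ⟨KF, cF, -, hKF⟩ := (hFM γ hγ).1
  set c := aa γ ^ 2 * l2 / 2 with hc
  have hc0 : 0 < c := by positivity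
  refine ⟨c, hc0, fun M i0 hOk K' => ?_⟩
  obtain ⟨KG, hKG⟩ := (hGV γ hγ M i0 hOk).1
  set W := |K'| + aa γ * D with hW
  set K2 : ℝ≥0∞ := 1 + ENNReal.ofReal KF * eE (γ * (W - QQ γ * 2 * l2) + γ ^ 2 * D / 2) with hK2
  have hK2t : K2 ≠ ∞ :=
    ENNReal.add_ne_top.2 ⟨ENNReal.one_ne_top, ENNReal.mul_ne_top ENNReal.ofReal_ne_top (eE_ne_top _)⟩
  set K3 : ℝ≥0∞ := 169 * (ENNReal.ofReal (KG * 1) * (K2 * ENNReal.ofReal (2 * W))) *
    eE (aa γ ^ 2 * (M.C0 + D) / 2 - 4 / γ * aa γ * M.C0 + 4 / γ * W) with hK3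
  have hK3t : K3 ≠ ∞ := ENNReal.mul_ne_top (ENNReal.mul_ne_top (by norm_num)
    (ENNReal.mul_ne_top ENNReal.ofReal_ne_top (ENNReal.mul_ne_top hK2t ENNReal.ofReal_ne_top)))
    (eE_ne_top _)
  have hK4t : K3 * ENNReal.ofReal ((1 - Real.exp (-c))⁻¹) ≠ ∞ :=
    ENNReal.mul_ne_top hK3t ENNReal.ofReal_ne_top
  refine ⟨(K3 * ENNReal.ofReal ((1 - Real.exp (-c))⁻¹)).toReal, fun u m μ0 K1 => ?_⟩
  set w := m + |K'| + aa γ * D - QQ γ * 2 * l2 with hw
  have hi := hT3.2.2.2.2.2.2.2.2.2.2.2.1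
  have hmX := (hT3.2.2.2.2.2.2.2.2.2.2.1 M γ u).1
  set E : ℕ → ℝ≥0∞ := fun i =>
    eE (aa γ * (μ0 - u + QQ γ * i * l2) + aa γ ^ 2 * (M.C0 + i * l2 + D) / 2) with hE
  set J : ℕ → Dy → ℝ≥0∞ := fun i V => ∫⁻ ω, Ps γ M m W w V
    (M.YV γ (u - aa γ * (M.C0 + i * l2)) V ω, ω) ∂gm with hJ
  have hJs : ∀ i : ℕ, ∑' V : Dy, ind (i0 + 2 ≤ V.length) * J i V ≤
      ENNReal.ofReal (KG * 1) * (K2 * ENNReal.ofReal (2 * W) *
        eE (4 / γ * (u - aa γ * (M.C0 + i * l2) - m + W))) := by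
    intro i
    have h := hKG (u - aa γ * (M.C0 + i * l2)) 1 (fun _ => True) (Ps γ M m W w)
      (fun y => ind (|y - m| ≤ W) * K2) zero_le_one
      (fun k => by
        rw [one_mul]
        have h1 := @Finset.card_filter_le _ (lev k) (fun _ => True)
          fun _ => Classical.propDecidable True
        rw [hT.2.1 k] at h1
        exact_mod_cast h1)
      (meas_Ps hT3 γ M m W w)
      ((hi _ _ (measurableSet_le (measurable_id.sub_const _).abs measurable_const)).1.mul_const _)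
      (fun V y hV s ω => by
        obtain ⟨B0, hB0⟩ := hTL.2.2.2.1
        have h0 : ∀ S, ⟪M.eC (ctr V) (4 * side V), xv M V S⟫ = 0 := fun S => by
          rw [real_inner_comm, ← four_side (by omega)]
          exact (hB0 γ M i0 V hOk hV).2.2.2.2 S _ (by omega)
        simp only [Ps, NV, LinearMap.add_apply, LinearMap.smul_apply, dv_apply, h0, smul_zero,
          add_zero])
      (fun V y hV _ => by
        simp only [Ps]
        rw [lintegral_const_mul _ (((meas_NV hT3 γ M V w).const_mul _).const_add _),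
          lintegral_add_left measurable_const, lintegral_const_mul _ (meas_NV hT3 γ M V w),
          lintegral_const, measure_univ, mul_one]
        refine mul_le_mul_right (add_le_add_right ?_ _) _
        have h1 : ∫⁻ ω, NV γ M V w ω ∂gm =
            ∑' S : Dy, gm {ω | 0 < drift (QQ γ) (fun S => ω (xv M V S)) w S} := by
          simp only [NV]
          rw [lintegral_tsum fun S => (hi _ _ (meas_set γ M V S w)).1.aemeasurable]
          refine tsum_congr fun S => ?_
          rw [← lintegral_indicator_one (meas_set γ M V S w)]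
          refine lintegral_congr fun ω => ?_
          simp only [ind, indicator, mem_setOf_eq, Pi.one_apply]
        rw [h1]
        refine (mul_le_mul_right (hKF D hD0 (xv M V) (hD M i0 V hOk hV).1 w).1 _).trans ?_
        rw [ENNReal.ofReal_mul' (Real.exp_pos _).le, mul_left_comm]
        refine mul_le_mul_right ?_ _
        change _ * eE _ ≤ _
        rw [← eE_add]
        refine eE_mono (le_of_eq ?_)
        rw [hw, hW]
        ring)
    simp only [and_true] at h
    exact h.trans (mul_le_mul_right (window _ _ m W (by positivity) K2 hK2t) _)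
  have hV : ∀ V : Dy, ind (i0 + 2 ≤ V.length) * ∫⁻ ω, ind (|M.YV γ u V ω - m| ≤ K' ∧ ∃ B : Dy,
      K1 ≤ B.length ∧ B.length ≤ V.length ∧ ‖ctr B - ctr V‖ ≤ 6 * side B ∧ M.X γ u ω B ≤ μ0) *
      (1 + eE (-γ * m) * posN (M.X γ u ω) V) ∂gm ≤
      ∑' i : ℕ, ind (K1 ≤ i) * (169 * E i) * (ind (i0 + 2 ≤ V.length) * J i V) := by
    intro V
    by_cases hV : i0 + 2 ≤ V.length
    swap
    · rw [ind, if_neg hV, zero_mul]
      exact zero_le
    have i1 : ind (i0 + 2 ≤ V.length) = 1 := by rw [ind, if_pos hV]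
    simp only [i1, one_mul]
    have hmY : Measurable (M.YV γ u V) := (hT3.2.2.2.2.2.2.2.2.2.2.1 M γ u).2 _ _
    have hf : ∀ B : Dy, Measurable fun ω => ind (|M.YV γ u V ω - m| ≤ K') *
        (1 + eE (-γ * m) * posN (M.X γ u ω) V) * ind (M.X γ u ω B ≤ μ0) := by
      intro B
      refine Measurable.mul (Measurable.mul
        (hi _ _ (measurableSet_le (hmY.sub_const _).abs measurable_const)).1
        ((Measurable.const_mul ?_ _).const_add _))
        (hi _ _ (measurableSet_le ((measurable_pi_apply _).comp hmX) measurable_const)).1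
      exact Measurable.tsum fun S => (hi _ _ (measurableSet_lt measurable_const
        ((measurable_pi_apply _).comp hmX))).1
    calc _ ≤ ∫⁻ ω, ∑' B : Dy,
          ind (K1 ≤ B.length ∧ B.length ≤ V.length ∧ ‖ctr B - ctr V‖ ≤ 6 * side B) *
            (ind (|M.YV γ u V ω - m| ≤ K') * (1 + eE (-γ * m) * posN (M.X γ u ω) V) *
              ind (M.X γ u ω B ≤ μ0)) ∂gm := by
          refine lintegral_mono fun ω => ?_
          by_cases hb : |M.YV γ u V ω - m| ≤ K' ∧ ∃ B : Dy, K1 ≤ B.length ∧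
            B.length ≤ V.length ∧ ‖ctr B - ctr V‖ ≤ 6 * side B ∧ M.X γ u ω B ≤ μ0
          · obtain ⟨B, b1, b2, b3, b4⟩ := hb.2
            refine le_trans (le_of_eq ?_) (ENNReal.le_tsum B)
            simp only [ind, if_pos hb, if_pos hb.1, if_pos b4, if_pos (And.intro b1 (And.intro b2 b3)),
              one_mul, mul_one]
          · simp only
            rw [ind, if_neg hb, zero_mul]
            exact zero_le
      _ = ∑' B : Dy, ind (K1 ≤ B.length ∧ B.length ≤ V.length ∧ ‖ctr B - ctr V‖ ≤ 6 * side B) *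
            ∫⁻ ω, ind (|M.YV γ u V ω - m| ≤ K') * (1 + eE (-γ * m) * posN (M.X γ u ω) V) *
              ind (M.X γ u ω B ≤ μ0) ∂gm := by
          rw [lintegral_tsum fun B => ((hf B).const_mul _).aemeasurable]
          exact tsum_congr fun B => lintegral_const_mul _ (hf B)
      _ ≤ ∑' i : ℕ, ind (K1 ≤ i) * (169 * (E i * J i V)) := by
          refine union hG hT V K1 _ (fun i => E i * J i V) fun B hB hd => ?_
          obtain ⟨g1, g2, g3⟩ := (hD M i0 V hOk hV).2 B hB hd
          exact tilt1 hG2 hT3 hTL γ D K' u m μ0 ha M i0 V B hOk hV g1 g2 g3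
      _ = _ := by simp only [mul_assoc]
  calc _ ≤ _ := ENNReal.tsum_le_tsum hV
    _ = ∑' i : ℕ, ind (K1 ≤ i) * (169 * E i) * ∑' V : Dy, ind (i0 + 2 ≤ V.length) * J i V := by
        rw [ENNReal.tsum_comm]
        exact tsum_congr fun i => ENNReal.tsum_mul_left
    _ ≤ ∑' i : ℕ, K3 * eE (4 / γ * (u - m) + aa γ * (μ0 - u)) * (ind (K1 ≤ i) * eE (-c * i)) := by
        refine ENNReal.tsum_le_tsum fun i => (mul_le_mul_right (hJs i) _).trans (le_of_eq ?_)
        have e : E i * eE (4 / γ * (u - aa γ * (M.C0 + i * l2) - m + W)) =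
            eE (aa γ ^ 2 * (M.C0 + D) / 2 - 4 / γ * aa γ * M.C0 + 4 / γ * W) *
              eE (4 / γ * (u - m) + aa γ * (μ0 - u)) * eE (-c * i) := by
          simp only [hE]
          rw [← eE_add, ← eE_add, ← eE_add, ← hQa, hc]
          congr 1
          ring
        calc _ = ind (K1 ≤ i) * (169 * (ENNReal.ofReal (KG * 1) * (K2 * ENNReal.ofReal (2 * W)))) *
              (E i * eE (4 / γ * (u - aa γ * (M.C0 + i * l2) - m + W))) := by ring
          _ = _ := by rw [e, hK3]; ring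
    _ ≤ K3 * eE (4 / γ * (u - m) + aa γ * (μ0 - u)) *
        (ENNReal.ofReal ((1 - Real.exp (-c))⁻¹) * eE (-c * K1)) := by
        rw [ENNReal.tsum_mul_left]
        exact mul_le_mul_right (FM.geo hc0 K1) _
    _ = _ := by
        rw [ENNReal.ofReal_mul ENNReal.toReal_nonneg, ENNReal.ofReal_toReal hK4t]
        change _ = _ * eE _
        rw [show 4 / γ * (u - m) + aa γ * (μ0 - u) - c * K1 =
          4 / γ * (u - m) + aa γ * (μ0 - u) + -c * K1 by ring, eE_add _ (-c * K1)]
        ring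

end

end Pool.Agent.Lib.APPS
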