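import Pool.Agent.Lib.APPS.Blue4

/-!
Block KR: elementary properties of the kriging interpolation.
-/

namespace Pool.Agent.Lib.APPS

open MeasureTheory ProbabilityTheory Filter Topology Set Metric
open scoped NNReal ENNReal RealInnerProductSpace Classical

noncomputable section

namespace KR

def cm (g : Met) (𝓛 : Finset Dy) : Matrix 𝓛 𝓛 ℝ := Matrix.of fun A B : 𝓛 => g.cov A B

theorem kr_eq (g : Met) (M : Model) (T : Finset Dy) (ω : Om) (z : ℂ) :
    M.kr g T ω z = ∑ S : lvs T, ∑ S' : lvs T,
      g.U S z * (cm g (lvs T))⁻¹ S S' * ω (M.eS S') := rfl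

theorem cont_U (hE : St_EXP2) (g : Met) (M : Model) (h : Lnk g M) (S : Dy) :
    Continuous (g.U S) := by
  obtain ⟨C, hC, -, hL, -⟩ := hE.2.2.2.2.2
  have h1 : Continuous (potS S) := by
    refine (LipschitzWith.of_dist_le' (K := C / side S) fun z z' => ?_).continuous
    rw [Real.dist_eq, dist_eq_norm]
    exact hL S z z'
  have e : g.U S = fun z => M.C0 + potS S z - M.bg z := funext (h.U S)
  rw [e]
  exact (continuous_const.add h1).sub M.bgc

theorem cov_eq (hM : St_MOD) (g : Met) (M : Model) (h : Lnk g M) (A B : Dy) :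
    g.cov A B = ⟪M.eS A, M.eS B⟫ := by
  have := (hM M).2.2.2.2.2.2.1 [] h.sub A B
  simp only [List.append_nil, List.length_nil, Nat.cast_zero, zero_mul, add_zero] at this
  rw [this, h.cov]

theorem det_unit (hM : St_MOD) (hB : St_BMP) (hG : St_GEO1) (hT : St_T1) (g : Met) (M : Model)
    (h : Lnk g M) (T : Finset Dy) (hTr : IsTr T) : IsUnit (cm g (lvs T)).det := by
  obtain ⟨hbb, E, C, -, -, -, hb⟩ := hB
  obtain ⟨-, -, b3, -, b5, -⟩ := hb M
  have hO : ∀ S, box S ⊆ M.O := fun S => ((hG.2.2.2.2.1 S []).2 List.nil_suffix).trans h.sub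
  have hli : LinearIndependent ℝ fun S : lvs T => M.eS S := by
    rw [Fintype.linearIndependent_iff]
    intro c hc S
    have h1 := congrArg (fun v => ⟪M.ub S, v⟫) hc
    simp only [inner_sum, real_inner_smul_right, inner_zero_right] at h1
    rw [Finset.sum_eq_single S] at h1
    · rw [b5 S S (hO S) List.suffix_rfl, div_self (hG.1 S).1.ne', one_pow, mul_one] at h1
      exact (mul_eq_zero.1 h1).resolve_right hbb.ne'
    · intro A _ hA
      have n1 : ¬(S : Dy) <:+ A := fun hs =>
        hA (Subtype.ext (hT.2.2.2.2.2.2.2.2.1 T hTr _ S.2 _ A.2 hs).symm)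
      have n2 : ¬(A : Dy) <:+ S := fun hs =>
        hA (Subtype.ext (hT.2.2.2.2.2.2.2.2.1 T hTr _ A.2 _ S.2 hs))
      rw [(b3 S A n1 n2).2 (hO S), mul_zero]
    · intro hS
      exact absurd (Finset.mem_univ S) hS
  have e : cm g (lvs T) = Matrix.gram ℝ fun S : lvs T => M.eS S := by
    ext A B
    exact cov_eq hM g M h A B
  rw [e]
  exact isUnit_iff_ne_zero.2 (Matrix.det_gram_ne_zero_iff_linearIndependent.2 hli)

theorem meas_kr (hE : St_EXP2) (g : Met) (M : Model) (h : Lnk g M) (T : Finset Dy) :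
    Measurable fun p : Om × ℂ => M.kr g T p.1 p.2 := by
  simp only [kr_eq]
  refine Finset.measurable_sum _ fun S _ => Finset.measurable_sum _ fun S' _ => ?_
  exact (((cont_U hE g M h S).measurable.comp measurable_snd).mul_const _).mul
    ((meas_ev _).comp measurable_fst)

theorem int_U (hFE : St_FE) (hE : St_EXP2) (hG : St_GEO1) (g : Met) (M : Model) (h : Lnk g M)
    (A S : Dy) : Integrable (g.U A) (unif S) ∧ ∫ z, g.U A z ∂unif S = g.cov A S := by
  obtain ⟨hp, hs⟩ := hFE.2.2.2.2.2.2.2.1 S
  have := hp.2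
  have hae : ∀ᵐ z ∂unif S, z ∈ box S := hs
  have hint : ∀ f : ℂ → ℝ, Continuous f → Integrable f (unif S) := fun f hf => by
    have h1 : IntegrableOn f (box S) (unif S) :=
      hf.continuousOn.integrableOn_compact (hG.2.2.2.1 S).1
    rwa [IntegrableOn, Measure.restrict_eq_self_of_ae_mem hae] at h1
  refine ⟨hint _ (cont_U hE g M h A), ?_⟩
  have e : g.U A =ᵐ[unif S] fun z => M.C0 + potS A z := by
    filter_upwards [hae] with z hz
    rw [h.U, M.bg0 z (h.sub ((hG.2.2.2.2.1 S []).2 List.nil_suffix hz)), sub_zero]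
  have hp' : Integrable (potS A) (unif S) := by
    have h1 := ((hint _ (cont_U hE g M h A)).congr e).sub (integrable_const M.C0)
    exact h1.congr (Eventually.of_forall fun z => by simp)
  rw [integral_congr_ae e, integral_add (integrable_const _) hp', integral_const, probReal_univ,
    one_smul, h.cov, covE, (hE.2.2.2.2.1 A S).1]

end KR

open KR in
theorem blk_KR (_hG1 : St_G1) (hG4 : St_G4) (hM : St_MOD) (hB : St_BMP) (hFE : St_FE)
    (hE : St_EXP2) (hG : St_GEO1) (hT : St_T1) (hT3 : St_T3) : St_KR := by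
  intro g M h
  refine ⟨fun z hz => g.flat.self_of_nhdsSet z hz, fun T hTr => ⟨fun ω => ?_,
    meas_kr hE g M h T, fun ω S hS => ?_, fun γ z w0 hw0 y hy Ξ hΞ hΞ0 => ?_⟩, fun γ => ?_⟩
  · have e : M.kr g T ω = fun z => ∑ S : lvs T, ∑ S' : lvs T,
        g.U S z * (cm g (lvs T))⁻¹ S S' * ω (M.eS S') := funext (kr_eq g M T ω)
    rw [e]
    exact continuous_finsetSum _ fun S _ => continuous_finsetSum _ fun S' _ =>
      ((cont_U hE g M h S).mul continuous_const).mul continuous_const
  · have hi := fun A => int_U hFE hE hG g M h A S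
    have hu := Matrix.mul_nonsing_inv _ (det_unit hM hB hG hT g M h T hTr)
    simp only [kr_eq]
    rw [integral_finsetSum _ fun (A : lvs T) _ => integrable_finsetSum _ fun B _ =>
      ((hi A).1.mul_const _).mul_const _]
    have e : ∀ A : lvs T, ∫ z, ∑ B : lvs T, g.U A z * (cm g (lvs T))⁻¹ A B * ω (M.eS B) ∂unif S =
        ∑ B : lvs T, cm g (lvs T) ⟨S, hS⟩ A * (cm g (lvs T))⁻¹ A B * ω (M.eS B) := by
      intro A
      rw [integral_finsetSum _ fun B _ => ((hi A).1.mul_const _).mul_const _]
      refine Finset.sum_congr rfl fun B _ => ?_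
      rw [integral_mul_const, integral_mul_const, (hi A).2, cov_eq hM g M h, real_inner_comm,
        ← cov_eq hM g M h]
      rfl
    simp only [e]
    rw [Finset.sum_comm]
    simp only [← Finset.sum_mul, ← Matrix.mul_apply, hu, Matrix.one_apply, ite_mul, one_mul,
      zero_mul, Finset.sum_ite_eq, Finset.mem_univ, if_true]
  · set w : HH := ∑ S : lvs T, ∑ S' : lvs T,
      (g.U S z * (cm g (lvs T))⁻¹ S S') • M.eS S' with hw
    have hu := Matrix.nonsing_inv_mul _ (det_unit hM hB hG hT g M h T hTr)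
    have hωw : ∀ ω : Om, M.kr g T ω z - ω w0 = ω (w - w0) := fun ω => by
      rw [map_sub, kr_eq, hw]
      simp only [map_sum, map_smul, smul_eq_mul]
    have hr : range (fun S : lvs T => M.eS S) = M.eS '' ↑(lvs T) := (image_eq_range _ _).symm
    have hmem : w - w0 ∈ Submodule.span ℝ (range fun S : lvs T => M.eS S) := by
      refine Submodule.sub_mem _ (Submodule.sum_mem _ fun S _ => Submodule.sum_mem _ fun S' _ =>
        Submodule.smul_mem _ _ (Submodule.subset_span ⟨S', rfl⟩)) ?_
      rw [hr]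
      exact hw0
    have horth : ∀ B : lvs T, ⟪y - (w - w0), M.eS B⟫ = 0 := by
      intro B
      have e : ⟪w, M.eS B⟫ = g.U B z := by
        rw [hw]
        simp only [sum_inner, real_inner_smul_left, ← cov_eq hM g M h, mul_assoc,
          ← Finset.mul_sum]
        have e2 : ∀ S : lvs T, ∑ S' : lvs T, (cm g (lvs T))⁻¹ S S' * g.cov S' B =
            if S = B then 1 else 0 := fun S => by
          rw [← Matrix.one_apply, ← hu, Matrix.mul_apply]
          rfl
        simp only [e2, mul_ite, mul_one, mul_zero, Finset.sum_ite_eq', Finset.mem_univ, if_true]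
      rw [show y - (w - w0) = y + w0 - w by abel, inner_sub_left, hy B B.2, e, sub_self]
    let lin : Dy → (lvs T → ℝ) → ℝ := fun A t =>
      ∑ S : lvs T, if A <:+ S then (side S / side A) ^ 2 * t S else 0
    let p : (lvs T → ℝ) → Prop := fun t =>
      (∀ A ∈ T, 0 < lin A t + 0 - QQ γ * A.length * l2) ∧
        ∀ S : lvs T, t S + 0 - QQ γ * (S : Dy).length * l2 ≤ 0
    have hlin : ∀ A, Measurable (lin A) := fun A => Finset.measurable_sum _ fun S _ => by
      split_ifs
      · exact (measurable_pi_apply S).const_mul _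
      · exact measurable_const
    have hp : MeasurableSet {t | p t} := by
      simp only [p, setOf_and, setOf_forall]
      refine MeasurableSet.inter (Finset.measurableSet_biInter T fun A _ => ?_)
        (MeasurableSet.iInter fun S => ?_)
      · exact measurableSet_lt measurable_const (((hlin A).add_const _).sub_const _)
      · exact measurableSet_le (((measurable_pi_apply S).add_const _).sub_const _) measurable_const
    have hiff : ∀ ω : Om, HasTr (M.X γ 0 ω) T ↔ p fun S => ω (M.eS S) := by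
      intro ω
      have e : ∀ A ∈ T, lin A (fun S => ω (M.eS S)) = ω (M.eS A) := by
        intro A hA
        have h1 := (hM M).2.2.2.2.2.2.2.2.2.2.2.2.2.1 T hTr A hA []
        simp only [List.append_nil] at h1
        rw [h1, map_sum, Finset.sum_filter, ← Finset.sum_coe_sort (lvs T)]
        simp only [lin, map_smul, smul_eq_mul]
      rw [hT.2.2.2.2.2.2.2.2.2.2.1 _ T hTr]
      refine and_congr (forall₂_congr fun A hA => ?_) ⟨fun h1 S => h1 S S.2, fun h1 S hS => h1 ⟨S, hS⟩⟩
      rw [e A hA]
      rfl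
    have key := hG4.1 (lvs T) (fun S => M.eS S) y (w - w0) hmem horth Ξ hΞ hΞ0
      (fun t => ind (p t)) (hT3.2.2.2.2.2.2.2.2.2.2.2.1 _ _ hp).1
    simp only [hωw, hiff]
    exact key
  · exact hT3.2.2.2.1 (Om × ℂ) ℝ (fun p => M.X γ 0 p.1) (fun T p => M.kr g T p.1 p.2)
      ((hT3.2.2.2.2.2.2.2.2.2.2.1 M γ 0).1.comp measurable_fst) (meas_kr hE g M h)

end

end Pool.Agent.Lib.APPS
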