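import Pool.Agent.Lib.APPS.B_LATb

/-!
Block LAT: the lateral and radial vectors.
-/

namespace Pool.Agent.Lib.APPS

open MeasureTheory ProbabilityTheory Filter Topology Set Metric
open scoped NNReal ENNReal RealInnerProductSpace Classical

noncomputable section

namespace LAT

/-- the point of the cylinder with relative position `u` -/
def TT (w : Cyl) (k : ℕ) (u : ℂ) : Cyl :=
  (w.1 + (1 / 2 : ℝ) ^ k * u.re, w.2 + (((1 / 2 : ℝ) ^ k * u.im : ℝ) : AddCircle (2 * Real.pi)))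

theorem m_TT (w : Cyl) (k : ℕ) : Measurable (TT w k) :=
  ((by fun_prop : Continuous fun u : ℂ => w.1 + (1 / 2 : ℝ) ^ k * u.re).prodMk
    (continuous_const.add ((AddCircle.continuous_mk' _).comp (by fun_prop)))).measurable

theorem moll_eq (θ : Measure ℂ) (w : Cyl) (k : ℕ) : moll θ (w, k) = θ.map (TT w k) := rfl

/-- the exponential map at scale `k` -/
def ps (k : ℕ) (u : ℂ) : ℂ := Complex.exp (-((((1 / 2 : ℝ) ^ k : ℝ) : ℂ) * u))

theorem m_ps (k : ℕ) : Measurable (ps k) := by unfold ps; fun_prop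

theorem eps_pos (k : ℕ) : (0 : ℝ) < (1 / 2) ^ k := by positivity
theorem eps_le (k : ℕ) : (1 / 2 : ℝ) ^ k ≤ 1 := pow_le_one₀ (by norm_num) (by norm_num)

theorem nuP_eq (θ : Measure ℂ) (p : Cyl × ℕ) : nuP θ 0 1 p = (moll θ p).map frC := by
  simp [nuP]

theorem radM_eq (θ : Measure ℂ) (p : Cyl × ℕ) : radM θ 0 1 p = rot (moll θ p) := by
  simp [radM, rot]

theorem frC_TT (hC : St_CYL) (w : Cyl) (k : ℕ) (u : ℂ) : frC (TT w k u) = frC w * ps k u := by
  have := hC.2.2.2.2.2.2.2.1 w ((((1 / 2 : ℝ) ^ k : ℝ) : ℂ) * u)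
  rwa [Complex.re_ofReal_mul, Complex.im_ofReal_mul] at this

theorem frC_ne (hC : St_CYL) (w : Cyl) : frC w ≠ 0 := by
  rw [← norm_ne_zero_iff, hC.2.2.2.2.2.1]
  exact (Real.exp_pos _).ne'

theorem nu_eq (hC : St_CYL) (θ : Measure ℂ) (w : Cyl) (k : ℕ) :
    (moll θ (w, k)).map frC = (θ.map (ps k)).map fun x => 0 + frC w * x := by
  rw [moll_eq, Measure.map_map hC.2.2.1.measurable (m_TT w k),
    Measure.map_map (by fun_prop) (m_ps k)]
  congr 1
  funext u
  simp [frC_TT hC]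

theorem nu_scale (hC : St_CYL) (θ : Measure ℂ) (w w' : Cyl) (k : ℕ) :
    (moll θ (w', k)).map frC = ((moll θ (w, k)).map frC).map fun x => 0 + frC w' / frC w * x := by
  rw [nu_eq hC, nu_eq hC, Measure.map_map (μ := θ.map (ps k)) (by fun_prop) (by fun_prop)]
  congr 1
  funext x
  have := frC_ne hC w
  simp only [Function.comp, zero_add]
  field_simp

theorem rot_scale (hFE : St_FE) (θ : Measure ℂ) [SFinite θ] (w w' : Cyl) (k : ℕ) :
    rot (moll θ (w', k)) =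
      (rot (moll θ (w, k))).map fun x => 0 + ((Real.exp (w.1 - w'.1) : ℝ) : ℂ) * x := by
  have := (pfe_circ hFE one_pos).2
  have e : ∀ w : Cyl, (moll θ (w, k)).prod (circ 0 1) =
      (θ.prod (circ 0 1)).map (Prod.map (TT w k) id) := fun w => by
    rw [← Measure.map_prod_map _ _ (m_TT w k) measurable_id, Measure.map_id, moll_eq]
  rw [rot, rot, e, e, Measure.map_map m_rot ((m_TT _ k).prodMap measurable_id),
    Measure.map_map m_rot ((m_TT _ k).prodMap measurable_id), Measure.map_map (by fun_prop)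
      (m_rot.comp ((m_TT _ k).prodMap measurable_id))]
  congr 1
  funext q
  simp only [Function.comp, Prod.map, TT, id, zero_add]
  rw [← mul_assoc, ← Complex.ofReal_mul, ← Real.exp_add]
  congr 3
  ring

theorem scale_norm (hC : St_CYL) (w w' : Cyl) :
    ‖frC w' / frC w‖ = ‖((Real.exp (w.1 - w'.1) : ℝ) : ℂ)‖ := by
  rw [norm_div, hC.2.2.2.2.2.1, hC.2.2.2.2.2.1, Complex.norm_real,
    Real.norm_of_nonneg (Real.exp_pos _).le, ← Real.exp_sub]
  congr 1
  ring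

section

variable {θ : Measure ℂ} (hθ : IsMoll θ)
include hθ

theorem ae_one : ∀ᵐ u ∂θ, ‖u‖ ≤ 1 := by simpa using ae_ball hθ.supp

theorem moll_prob (p : Cyl × ℕ) : IsProbabilityMeasure (moll θ p) := by
  have := hθ.prob
  exact Measure.isProbabilityMeasure_map (m_TT p.1 p.2).aemeasurable

theorem moll_near (w : Cyl) (k : ℕ) : ∀ᵐ v ∂moll θ (w, k), |v.1 - w.1| ≤ (1 / 2 : ℝ) ^ k := by
  rw [moll_eq, ae_map_iff (m_TT w k).aemeasurable (measurableSet_le (by fun_prop) measurable_const)]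
  refine (ae_one hθ).mono fun u hu => ?_
  simp only [TT, add_sub_cancel_left, abs_mul, abs_of_pos (eps_pos k)]
  exact mul_le_of_le_one_right (eps_pos k).le ((Complex.abs_re_le_norm u).trans hu)

theorem moll_bd (p : Cyl × ℕ) : ∀ᵐ v ∂moll θ p, |v.1| ≤ |p.1.1| + 1 :=
  (moll_near hθ p.1 p.2).mono fun v hv => by
    linarith [abs_sub_abs_le_abs_sub v.1 p.1.1, eps_le p.2]

theorem ps_near (k : ℕ) : ∀ᵐ u ∂θ, ‖ps k u - 1‖ ≤ 2 * (1 / 2 : ℝ) ^ k :=
  (ae_one hθ).mono fun u hu => by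
    have h : ‖-((((1 / 2 : ℝ) ^ k : ℝ) : ℂ) * u)‖ ≤ (1 / 2 : ℝ) ^ k := by
      rw [norm_neg, norm_mul, Complex.norm_real, Real.norm_of_nonneg (eps_pos k).le]
      exact mul_le_of_le_one_right (eps_pos k).le hu
    exact (Complex.norm_exp_sub_one_le (h.trans (eps_le k))).trans (by linarith)

theorem ps_log (k : ℕ) :
    Integrable (fun p : ℂ × ℂ => Real.log ‖ps k p.1 - ps k p.2‖) (θ.prod θ) ∧
      |Ie (θ.map (ps k)) (θ.map (ps k)) - (k * l2 + Ie θ θ)| ≤ 2 * (1 / 2 : ℝ) ^ k := by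
  have := hθ.prob
  have hm : Measurable fun p : ℂ × ℂ => Real.log ‖ps k p.1 - ps k p.2‖ :=
    m_log.comp ((m_ps k).prodMap (m_ps k))
  obtain ⟨h1, h2⟩ := abs_int (θ.prod θ) (f := fun p : ℂ × ℂ =>
      Real.log ‖ps k p.1 - ps k p.2‖ - Real.log ‖p.1 - p.2‖) (hm.sub m_log).aestronglyMeasurable
    (c := -(k * l2)) (ε := 2 * (1 / 2 : ℝ) ^ k) (by
      filter_upwards [Measure.quasiMeasurePreserving_fst.ae (ae_one hθ),
        Measure.quasiMeasurePreserving_snd.ae (ae_one hθ),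
        ae_ne θ θ hθ.noAtoms measurable_id] with p a b c
      have := log_exp_sub a b c (eps_pos k) (eps_le k)
      rw [Real.log_pow, one_div, Real.log_inv, ← one_div] at this
      convert this using 2
      unfold ps l2
      ring)
  have h3 : Integrable (fun p : ℂ × ℂ => Real.log ‖ps k p.1 - ps k p.2‖) (θ.prod θ) :=
    (h1.add hθ.energy).congr (Eventually.of_forall fun x => sub_add_cancel _ _)
  refine ⟨h3, ?_⟩
  rw [integral_sub h3 hθ.energy] at h2
  rw [Ie_map θ θ (m_ps k) (m_ps k), Ie, integral_neg, integral_neg, ← abs_neg]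
  convert h2 using 2
  ring

theorem pfe_ps (k : ℕ) : PFE (θ.map (ps k)) := by
  have := hθ.prob
  have hp : IsProbabilityMeasure (θ.map (ps k)) :=
    Measure.isProbabilityMeasure_map (m_ps k).aemeasurable
  refine ⟨⟨inferInstance, ⟨3, ?_⟩, fun x => ?_,
    (int_map θ θ (m_ps k) (m_ps k)).2 (ps_log hθ k).1⟩, hp⟩
  · have : ∀ᵐ y ∂θ.map (ps k), y ∈ closedBall (0 : ℂ) 3 := by
      refine (ae_map_iff (m_ps k).aemeasurable measurableSet_closedBall).2
        ((ps_near hθ k).mono fun u hu => ?_)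
      have := norm_sub_norm_le (ps k u) 1
      rw [norm_one] at this
      rw [dist_zero_right]
      linarith [eps_le k]
    exact this
  · have : NullSingletonClass θ := ⟨hθ.noAtoms⟩
    rw [Measure.map_apply (m_ps k) (measurableSet_singleton x)]
    refine Set.Countable.measure_zero ?_ θ
    have hε : (((1 / 2 : ℝ) ^ k : ℝ) : ℂ) ≠ 0 := by exact_mod_cast (eps_pos k).ne'
    exact (Complex.countable_preimage_exp.2 (countable_singleton x)).preimage_of_injOn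
      (f := fun u : ℂ => -((((1 / 2 : ℝ) ^ k : ℝ) : ℂ) * u))
      fun a _ b _ h => mul_left_cancel₀ hε (neg_injective h)

theorem pfe_nu (hFE : St_FE) (hC : St_CYL) (p : Cyl × ℕ) : PFE ((moll θ p).map frC) := by
  rw [nu_eq hC θ p.1 p.2]
  exact hFE.2.2.2.2.2.2.2.2.2.2.1 _ 0 _ (frC_ne hC _) (pfe_ps hθ _)

theorem pfe_rm (hFE : St_FE) (hE : St_EXP1) (p : Cyl × ℕ) : PFE (rot (moll θ p)) := by
  have := moll_prob hθ p
  exact pfe_rot hFE hE (moll_bd hθ p)

theorem lat (hFE : St_FE) (hE : St_EXP1) (hC : St_CYL) (p p' : Cyl × ℕ) :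
    latCov θ p p' = Ie ((moll θ p).map frC) ((moll θ p').map frC) -
      Ie (rot (moll θ p)) (rot (moll θ p')) := by
  have := moll_prob hθ p
  have := moll_prob hθ p'
  exact lat_eq hFE hE hC (moll_bd hθ p) (moll_bd hθ p') (pfe_nu hθ hFE hC p).1
    (pfe_nu hθ hFE hC p').1

theorem lat_shift (hFE : St_FE) (hE : St_EXP1) (hC : St_CYL) (w1 w1' w2 w2' : Cyl) (k1 k2 : ℕ)
    (h : frC w2' / frC w2 = frC w1' / frC w1) :
    latCov θ (w1', k1) (w2', k2) = latCov θ (w1, k1) (w2, k2) := by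
  have := hθ.prob
  have h0 : frC w1' / frC w1 ≠ 0 := div_ne_zero (frC_ne hC _) (frC_ne hC _)
  have h1 : ((Real.exp (w1.1 - w1'.1) : ℝ) : ℂ) ≠ 0 := by exact_mod_cast (Real.exp_pos _).ne'
  have h2 : Real.exp (w2.1 - w2'.1) = Real.exp (w1.1 - w1'.1) := by
    have a := scale_norm hC w2 w2'
    rwa [h, scale_norm hC, Complex.norm_real, Complex.norm_real,
      Real.norm_of_nonneg (Real.exp_pos _).le, Real.norm_of_nonneg (Real.exp_pos _).le,
      eq_comm] at a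
  rw [lat hθ hFE hE hC, lat hθ hFE hE hC, nu_scale hC θ w1 w1', nu_scale hC θ w2 w2',
    rot_scale hFE θ w1 w1', rot_scale hFE θ w2 w2', h, h2,
    hFE.2.2.2.2.2.2.2.2.2.2.2 _ _ 0 _ h0 (pfe_nu hθ hFE hC _) (pfe_nu hθ hFE hC _),
    hFE.2.2.2.2.2.2.2.2.2.2.2 _ _ 0 _ h1 (pfe_rm hθ hFE hE _) (pfe_rm hθ hFE hE _),
    scale_norm hC]
  ring

theorem gram (hFE : St_FE) (hE : St_EXP1) (hC : St_CYL) (hMOD : St_MOD) (M : Model) :
    Gram (M.lamV θ) (latCov θ) := by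
  intro p p'
  have := moll_prob hθ p
  have := moll_prob hθ p'
  rw [lat hθ hFE hE hC, Model.lamV, Model.lamV, nuP_eq, nuP_eq, radM_eq, radM_eq]
  exact gram_eq hFE hE hC (moll_bd hθ p) (moll_bd hθ p') hMOD M (pfe_nu hθ hFE hC p)
    (pfe_nu hθ hFE hC p')

theorem orth (hFE : St_FE) (hE : St_EXP1) (hC : St_CYL) (hMOD : St_MOD) (M : Model)
    (p : Cyl × ℕ) (t : ℝ) : ⟪M.lamV θ p, M.radV t⟫ = 0 := by
  have := moll_prob hθ p
  have a := pfe_nu hθ hFE hC p
  have b := pfe_rm hθ hFE hE p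
  have e : ∀ t : ℝ, Ie (circ 0 (Real.exp (-t))) ((moll θ p).map frC) =
      Ie (circ 0 (Real.exp (-t))) (rot (moll θ p)) := fun t => by
    have hm : Measurable fun s : ℝ => -Real.log (max s (Real.exp (-t))) := by fun_prop
    rw [Ie_circ hMOD M t a, Ie_circ hMOD M t b, int_nu hC _ hm, int_rot hFE hm]
  have e0 := e 0
  rw [neg_zero, Real.exp_zero] at e0
  rw [real_inner_comm, Model.lamV, Model.radV, Model.eC, Model.eC, nuP_eq, radM_eq,
    (hMOD M).2.2.2.2.1 _ _ _ _ (pfe_circ hFE (Real.exp_pos _)) (pfe_circ hFE one_pos) a b, e, e0]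
  ring

theorem rad_near (hFE : St_FE) (hE : St_EXP1) (hMOD : St_MOD) (M : Model) (w : Cyl) (k : ℕ) :
    ‖M.e (radM θ 0 1 (w, k)) - M.eC 0 (Real.exp (-w.1))‖ ^ 2 ≤ 3 * (1 / 2 : ℝ) ^ k := by
  have := moll_prob hθ (w, k)
  have b := pfe_rm hθ hFE hE (w, k)
  have c := pfe_circ hFE (Real.exp_pos (-w.1))
  have hm : Measurable fun s : ℝ => -Real.log (max s (Real.exp (-w.1))) := by fun_prop
  have key : ∀ t : ℝ, |t - w.1| ≤ (1 / 2 : ℝ) ^ k →
      |∫ v, min t v.1 ∂moll θ (w, k) - w.1| ≤ (1 / 2 : ℝ) ^ k := fun t ht =>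
    (abs_int _ (Measurable.aestronglyMeasurable (by fun_prop))
      ((moll_near hθ w k).mono fun v hv => by
        rcases min_choice t v.1 with e | e <;> rw [e] <;> assumption)).2
  have h1 := key w.1 (by simp)
  have h2 : |∫ v, ∫ v', min v.1 v'.1 ∂moll θ (w, k) ∂moll θ (w, k) - w.1| ≤ (1 / 2 : ℝ) ^ k := by
    refine (abs_int _ ?_ ((moll_near hθ w k).mono fun v hv => key _ hv)).2
    simp only [← HP_exp]
    exact ((m_HP _).comp (by fun_prop)).aestronglyMeasurable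
  rw [← real_inner_self_eq_norm_sq, radM_eq, Model.eC, (hMOD M).2.2.2.2.1 _ _ _ _ b c b c,
    (hFE.2.2.2.2.1 _ _ b.1 c.1).1, Ie_cc hFE hMOD M, min_self, Ie_circ hMOD M _ b, int_rot hFE hm,
    Ie_rr hFE hE (moll_bd hθ _) (moll_bd hθ _)]
  simp only [log_max_exp, min_comm _ w.1]
  linarith [(abs_le.1 h1).1, (abs_le.1 h2).2]

theorem cont_lam (hFE : St_FE) (hE : St_EXP1) (hC : St_CYL) (hMOD : St_MOD) (M : Model) (k : ℕ) :
    Continuous fun w => M.lamV θ (w, k) := by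
  have := hθ.prob
  refine continuous_iff_continuousAt.2 fun w => ?_
  have h1 : Tendsto (fun w' => frC w' / frC w) (𝓝 w) (𝓝 1) := by
    rw [← div_self (frC_ne hC w)]
    exact (hC.2.2.1.tendsto w).div_const _
  have h2 : Tendsto (fun w' : Cyl => ((Real.exp (w.1 - w'.1) : ℝ) : ℂ)) (𝓝 w) (𝓝 1) := by
    have : Continuous fun w' : Cyl => ((Real.exp (w.1 - w'.1) : ℝ) : ℂ) := by fun_prop
    simpa using this.tendsto w
  have h3 := ((cont hFE hMOD M (pfe_nu hθ hFE hC (w, k))).comp h1).sub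
    ((cont hFE hMOD M (pfe_rm hθ hFE hE (w, k))).comp h2)
  simp only [ContinuousAt, Model.lamV, nuP_eq, radM_eq]
  refine h3.congr fun w' => ?_
  simp only [Function.comp]
  rw [← nu_scale hC, ← rot_scale hFE]

end

end LAT

open LAT in
theorem blk_LAT (_hG1 : St_G1) (hG3 : St_G3) (hMOD : St_MOD) (hFE : St_FE) (hE : St_EXP1)
    (hC : St_CYL) : St_LAT := by
  refine ⟨fun M M' z ρ hρ ι μ μ' h => hG3.2.2.1 ι _ _ fun s t => ?_, fun M s t => ?_,
    fun θ hθ => ⟨⟨⟨by have := hθ.prob; infer_instance, ⟨1, hθ.supp⟩,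
      hθ.noAtoms, hθ.energy⟩, hθ.prob⟩, 3, fun p => ?_, fun z ρ p => ⟨?_, ?_⟩, fun w k => ⟨?_, ?_⟩,
      fun M => ⟨gram hθ hFE hE hC hMOD M, orth hθ hFE hE hC hMOD M, rad_near hθ hFE hE hMOD M,
        cont_lam hθ hFE hE hC hMOD M, fun k w w' => ?_, fun r p p' => ?_⟩⟩⟩
  · have h0 : (ρ : ℂ) ≠ 0 := by exact_mod_cast hρ.ne'
    have hp := fun ν => hFE.2.2.2.2.2.2.2.2.2.2.1 ν z ρ h0
    have hI := fun ν ν' => hFE.2.2.2.2.2.2.2.2.2.2.2 ν ν' z ρ h0
    rw [(hMOD M).2.2.2.2.1 _ _ _ _ (h s).1 (h s).2 (h t).1 (h t).2,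
      (hMOD M').2.2.2.2.1 _ _ _ _ (hp _ (h s).1) (hp _ (h s).2) (hp _ (h t).1) (hp _ (h t).2),
      hI _ _ (h s).1 (h t).1, hI _ _ (h s).1 (h t).2, hI _ _ (h s).2 (h t).1,
      hI _ _ (h s).2 (h t).2]
    ring
  · have hc := fun t : ℝ => pfe_circ hFE (Real.exp_pos (-t))
    have e : M.eC 0 1 = M.eC 0 (Real.exp (-0)) := by rw [neg_zero, Real.exp_zero]
    rw [Model.radV, Model.radV, e]
    simp only [Model.eC]
    rw [(hMOD M).2.2.2.2.1 _ _ _ _ (hc s) (hc 0) (hc t) (hc 0)]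
    simp only [Ie_cc hFE hMOD M, cov2, min_def, abs_eq_max_neg, max_def]
    split_ifs <;> linarith
  · rw [nuP_eq, radM_eq]
    exact ⟨moll_prob hθ p, pfe_nu hθ hFE hC p, pfe_rm hθ hFE hE p⟩
  · rw [nuP_eq, Measure.map_map (by fun_prop) hC.2.2.1.measurable]
    rfl
  · rw [radM_eq, rot, Measure.map_map (by fun_prop) m_rot, radM]
    congr 1
    funext q
    simp only [Function.comp, mul_assoc]
  · have : ∀ᵐ y ∂nuP θ 0 1 (w, k),
        y ∈ closedBall (frC w) (2 * (1 / 2 : ℝ) ^ k * Real.exp (-w.1)) := by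
      rw [nuP_eq, moll_eq, Measure.map_map hC.2.2.1.measurable (m_TT w k)]
      refine (ae_map_iff (hC.2.2.1.measurable.comp (m_TT w k)).aemeasurable
        measurableSet_closedBall).2 ((ps_near hθ k).mono fun u hu => ?_)
      rw [dist_eq_norm, Function.comp, frC_TT hC, ← mul_sub_one, norm_mul,
        hC.2.2.2.2.2.1, mul_comm]
      exact mul_le_mul_of_nonneg_right hu (Real.exp_pos _).le
    exact this
  · have h := (ps_log hθ k).2
    rw [nuP_eq, nu_eq hC, hFE.2.2.2.2.2.2.2.2.2.2.2 _ _ 0 _ (frC_ne hC w) (pfe_ps hθ k)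
      (pfe_ps hθ k), hC.2.2.2.2.2.1, Real.log_exp]
    refine le_trans (le_of_eq ?_) (h.trans (by linarith [eps_pos k]))
    congr 1
    ring
  · rw [← sq_eq_sq₀ (norm_nonneg _) (norm_nonneg _), ← real_inner_self_eq_norm_sq,
      ← real_inner_self_eq_norm_sq, gram hθ hFE hE hC hMOD M, gram hθ hFE hE hC hMOD M]
    exact lat_shift hθ hFE hE hC w' w w' w k k rfl
  · refine lat_shift hθ hFE hE hC p.1 _ p'.1 _ p.2 p'.2 ?_
    have e : ∀ w : Cyl, frC (w.1 + r, w.2) / frC w = Complex.exp (-r) := fun w => by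
      have := hC.2.2.2.2.2.2.2.1 w r
      simp only [Complex.ofReal_re, Complex.ofReal_im, AddCircle.coe_zero, add_zero] at this
      rw [this, mul_div_cancel_left₀ _ (frC_ne hC w)]
    rw [e, e]

end

end Pool.Agent.Lib.APPS
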