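import Pool.Agent.Lib.APPS.Blue3

/-!
Block LAWZ: integrating out the lateral chaos measure.
-/

namespace Pool.Agent.Lib.APPS

open MeasureTheory ProbabilityTheory Filter Topology Set Metric
open scoped NNReal ENNReal CompactlySupported RealInnerProductSpace Classical

noncomputable section

theorem lawz_trans (r : ℝ) (m : Measure Cyl) (hm : IsFiniteMeasureOnCompacts m) :
    IsFiniteMeasureOnCompacts (trans r m) := by
  refine ⟨fun K hK => ?_⟩
  let e : Cyl ≃ₜ Cyl := (Homeomorph.subRight r).prodCongr (Homeomorph.refl _)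
  have he : (fun p : Cyl => ((p.1 - r, p.2) : Cyl)) = e := rfl
  unfold trans
  rw [he, Measure.map_apply e.continuous.measurable hK.measurableSet]
  exact (e.isCompact_preimage.2 hK).measure_lt_top

theorem blk_LAWZ (hBM2 : St_BM2) (hLZ1 : St_LZ1) (hBR0 : St_BR0) (hLZ2 : St_LZ2) : St_LAWZ := by
  intro γ hγ D g
  obtain ⟨h, J, hJ, hJe⟩ := hLZ1 γ g
  obtain ⟨hβ, hP⟩ := hBM2.1 γ D
  have hb : Measurable D.β := hβ.meas
  set s : ℝ → D.Ω → ℕ → ℝ := fun r ω j => ∫ w, h j w ∂trans r (D.nu ω) with hs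
  have hs1 : ∀ r, AEMeasurable (s r) D.P := fun r => (hLZ2 γ hγ D h r).1
  have hs2 : ∀ r, IndepFun D.β (s r) D.P := fun r => (hLZ2 γ hγ D h r).2.1
  have hs3 : ∀ r, D.P.map (s r) = D.P.map (s 0) := fun r =>
    (hLZ2 γ hγ D h r).2.2.trans (hLZ2 γ hγ D h 0).2.2.symm
  have key : ∀ r ω z, Continuous z → J (z, s r ω) = obs g (wgt γ z (trans r (D.nu ω))) :=
    fun r ω z hz => hJe _ z (lawz_trans r _ ((hBR0 γ hγ D).1 ω).1) hz
  have : IsProbabilityMeasure (D.P.map (s 0)) := Measure.isProbabilityMeasure_map (hs1 0)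
  refine ⟨fun r Z hZ hc => ?_, fun Ψ hΨ => ?_⟩
  · refine (hJ.comp_aemeasurable ((hZ.comp hb).aemeasurable.prodMk (hs1 r))).congr ?_
    filter_upwards [hc] with ω hω
    exact key r ω _ hω
  · have hm : Measurable fun p : (ℝ → ℝ) × (ℕ → ℝ) => Ψ (p.1, J p) :=
      hΨ.comp (measurable_fst.prodMk hJ)
    refine ⟨fun z => ∫⁻ t, Ψ (z, J (z, t)) ∂D.P.map (s 0), hm.lintegral_prod_right',
      fun z r hz => ?_, fun r Z ρ hZ hρ hc => ?_⟩
    · have h1 : Measurable fun t : ℕ → ℝ => Ψ (z, J (z, t)) := hm.comp measurable_prodMk_left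
      beta_reduce
      rw [← hs3 r, lintegral_map' h1.aemeasurable (hs1 r)]
      exact lintegral_congr fun ω => by rw [key r ω z hz]
    · have hF : Measurable fun p : PP × (ℕ → ℝ) => ρ p.1 * Ψ (Z p.1, J (Z p.1, p.2)) :=
        (hρ.comp measurable_fst).mul (hm.comp ((hZ.comp measurable_fst).prodMk measurable_snd))
      have hG : Measurable fun b : PP => ρ b * ∫⁻ t, Ψ (Z b, J (Z b, t)) ∂D.P.map (s 0) :=
        hρ.mul (hm.lintegral_prod_right'.comp hZ)
      have e1 := (indepFun_iff_map_prod_eq_prod_map_map hb.aemeasurable (hs1 r)).1 (hs2 r)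
      have e2 := lintegral_map' (μ := D.P) hF.aemeasurable (hb.aemeasurable.prodMk (hs1 r))
      rw [e1, hs3 r, lintegral_prod _ hF.aemeasurable] at e2
      rw [← lintegral_map hG hb]
      refine Eq.trans (lintegral_congr_ae ?_) (e2.symm.trans (lintegral_congr fun b => ?_))
      · filter_upwards [hc] with ω hω
        rw [key r ω _ hω]
      · have h1 : Measurable fun t : ℕ → ℝ => Ψ (Z b, J (Z b, t)) :=
          hm.comp measurable_prodMk_left
        exact lintegral_const_mul (ρ b) h1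

end

end Pool.Agent.Lib.APPS
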