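import Pool.Agent.Lib.APPS.Blue2

/-!
The law of large numbers at the local limit level.
-/

namespace Pool.Agent.Lib.APPS

open MeasureTheory ProbabilityTheory Filter Topology Set Metric
open scoped NNReal ENNReal RealInnerProductSpace Classical

noncomputable section

namespace LL

lemma vp_orth (hB : St_BMP) (hG : St_GEO1) (M : Model) (hM : box [] ⊆ M.O) (T : Finset Dy)
    (P W : Dy) (h1 : ¬(pr T P).1 :: P <:+ W) (h2 : ¬(pr T P).2 :: P <:+ W) :
    ⟪M.vp T P, M.eS W⟫ = 0 := by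
  obtain ⟨-, E, C, -, -, -, hb⟩ := hB
  obtain ⟨-, -, h3, -, h5, -⟩ := hb M
  have hbox : ∀ S, box S ⊆ M.O := fun S => ((hG.2.2.2.2.1 S []).2 List.nil_suffix).trans hM
  rw [Model.vp, inner_sub_left]
  by_cases hW : W <:+ P
  · rw [h5 _ W (hbox _) (hW.trans (List.suffix_cons _ _)),
      h5 _ W (hbox _) (hW.trans (List.suffix_cons _ _))]
    simp [side]
  · have h6 : ∀ d, ¬d :: P <:+ W → ⟪M.ub (d :: P), M.eS W⟫ = 0 := fun d hd =>
      (h3 _ W hd fun h => (List.suffix_cons_iff.1 h).elim (fun e => hd (e ▸ List.suffix_rfl))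
        hW).2 (hbox _)
    rw [h6 _ h1, h6 _ h2, sub_zero]

lemma drop_of {T : Finset Dy} (hT : IsTr T) {A S P : Dy} {d : Fin 2 × Fin 2} {D : ℕ} (hA : A ∈ T)
    (hd : d :: P ∉ T) (hS : S.length ≤ D) (h : d :: P <:+ S ++ A) : ∃ j ≤ D, A = P.drop j := by
  rcases List.suffix_or_suffix_of_suffix h (List.suffix_append S A) with h1 | h1
  · exact absurd (hT A hA _ h1) hd
  · have h2 : A <:+ P := (List.suffix_cons_iff.1 h1).resolve_left fun e => hd (e ▸ hA)
    refine ⟨P.length - A.length, ?_, List.suffix_iff_eq_drop.1 h2⟩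
    have h3 := h.length_le
    simp at h3
    omega

lemma SR_diff {G : (Dy → ℝ) → ℝ} (hG : Mono G) {x y : Dy → ℝ} (h : tr x = tr y) (Z : Finset Dy)
    (hZ : ∀ A ∈ tr x, A ∉ Z → G (sub x A) = G (sub y A)) (R : Dy) :
    |SR G x R - SR G y R| ≤ Z.card := by
  rw [SR, SR, ← h, ← Finset.sum_sub_distrib]
  refine (Finset.abs_sum_le_sum_abs _ _).trans ?_
  have h1 : ∀ A ∈ (tr x).filter fun A => R <:+ A, |G (sub x A) - G (sub y A)| ≤
      if A ∈ Z then (1 : ℝ) else 0 := fun A hA => by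
    split_ifs with h2
    · have h3 := hG.2.1 (sub x A)
      have h4 := hG.2.1 (sub y A)
      rw [abs_le]
      constructor <;> linarith
    · rw [hZ A (Finset.mem_filter.1 hA).1 h2, sub_self, abs_zero]
  refine (Finset.sum_le_sum h1).trans ?_
  rw [Finset.sum_boole]
  exact_mod_cast Finset.card_le_card fun A hA => (Finset.mem_filter.1 hA).2

lemma X_add (M : Model) (γ : ℝ) (ω ω' : Om) (W : Dy) :
    M.X γ 0 (ω + ω') W = M.X γ 0 ω W + ω' (M.eS W) := by
  simp only [Model.X, drift, LinearMap.add_apply]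
  ring

lemma ind_true {p : Prop} (h : p) : ind p = 1 := if_pos h

lemma ind_le (p : Prop) : ind p ≤ 1 := by
  rw [ind]
  split_ifs <;> simp

/-- The statement for monotone functionals of bounded depth. -/
lemma mono (hG1 : St_G1) (hMOD : St_MOD) (hB : St_BMP) (hG : St_GEO1) (hT1 : St_T1) (hT3 : St_T3)
    (hMAC : St_MAC) (hU : St_U) {γ : ℝ} (hγ : γ ∈ Ioo (0 : ℝ) 2) (M : Model) (hM : box [] ⊆ M.O)
    {G : (Dy → ℝ) → ℝ} (hm : Mono G) {D : ℕ}
    (hD : ∀ x y, (∀ S : Dy, S.length ≤ D → x S = y S) → G x = G y) {η : ℝ} (hη : 0 < η) :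
    ∀ᶠ ι : ℕ in atTop, ENNReal.ofReal ((ι : ℝ) ^ (th γ + 2)) *
      gm {ω | nB (M.X γ 0 ω) = ι ∧ ∃ R,
        η * ι < |SR G (M.X γ 0 ω) R - cc γ G / cc γ one * SR one (M.X γ 0 ω) R|} ≤
      ENNReal.ofReal η := by
  have := hG1.1
  obtain ⟨-, -, -, -, -, -, -, -, -, -, -, -, -, -, -, hφ, hψ, -⟩ := hMOD M
  obtain ⟨φ, hφ⟩ := hφ hM
  obtain ⟨-, -, t3, t4, -, -, t7, t8, -, -, -, t12, -, -, -, t16, -⟩ := hT1
  obtain ⟨m1, -, -, -, -, -, -, m8, -, -, m11, m12, -⟩ := hT3
  set η' : ℝ := min (1 / 2) (η / (4 * (D + 1))) with hη'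
  have hη'0 : 0 < η' := lt_min (by norm_num) (by positivity)
  obtain ⟨L, K, ι0, -, hK, hU⟩ := hU γ hγ M hM φ hφ η' hη'0
  set η2 : ℝ := min (η / 2) (η / (2 * (K + 1))) with hη2
  have hη20 : 0 < η2 := lt_min (by positivity) (by positivity)
  have e1 := tendsto_natCast_atTop_atTop.eventually ((hMAC γ hγ M hM).2.1 G hm η2 hη20)
  have e2 := tendsto_natCast_atTop_atTop.eventually
    ((tendsto_rpow_mul_exp_neg_mul_atTop_nhds_zero (th γ + 2) 3 (by norm_num)).eventually
      (ge_mem_nhds (half_pos hη)))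
  have e3 := (tendsto_natCast_atTop_atTop (R := ℝ)).eventually (eventually_ge_atTop (1 / η'))
  filter_upwards [e1, e2, e3, eventually_ge_atTop ι0, eventually_ge_atTop 1] with ι e1 e2 e3 e4 e5
  have hι : (0 : ℝ) < ι := by exact_mod_cast e5
  have hP : ∀ T : Finset Dy, ∃ Z : Finset Dy, T ∈ trees ι → Z ⊆ two T ∧ Z.card = ⌈η' * ι⌉₊ := by
    intro T
    by_cases hT : T ∈ trees ι
    · obtain ⟨h1, h2⟩ := (t4 ι T).1 hT
      have h3 : (2 : ℝ) * ι ≤ 3 * (two T).card := by
        rw [← h2]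
        exact_mod_cast (t3 T h1).2
      have h4 : η' * ι ≤ 1 / 2 * ι := mul_le_mul_of_nonneg_right (min_le_left _ _) hι.le
      obtain ⟨Z, hZ⟩ := Finset.exists_subset_card_eq (s := two T) (n := ⌈η' * ι⌉₊)
        (Nat.ceil_le.2 (by linarith))
      exact ⟨Z, fun _ => hZ⟩
    · exact ⟨∅, fun h => absurd h hT⟩
  choose Pp hP using hP
  set c := cc γ G / cc γ one
  set E := {ω | ENNReal.ofReal ι ≤ nB (sh (M.X γ 0 ω) 1) ∧ ∃ s ∈ Icc (-1 : ℝ) 1, ∃ R,
    η2 * ι < |SR G (sh (M.X γ 0 ω) s) R - c * SR one (sh (M.X γ 0 ω) s) R|}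
  have hX := (m11 M γ 0).1
  have hY : Measurable fun ω => ind (∃ R,
      η * ι < |SR G (M.X γ 0 ω) R - c * SR one (M.X γ 0 ω) R|) := by
    refine (m12 Om _ ?_).1
    rw [Set.ofPred_exists]
    refine MeasurableSet.iUnion fun R => measurableSet_lt measurable_const ?_
    exact (((m8 G R hm.1).comp hX).sub
      (((m8 one R measurable_const).comp hX).const_mul c)).abs
  have key := hU ι e4 Pp (fun _ ω => ind (∃ R,
      η * ι < |SR G (M.X γ 0 ω) R - c * SR one (M.X γ 0 ω) R|))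
    ((toMeasurable gm E).indicator 1) 1
    (fun T hT => ⟨(hP T hT).1, by rw [(hP T hT).2]; exact Nat.le_ceil _⟩) (fun _ => hY)
    (measurable_one.indicator (measurableSet_toMeasurable _ _)) ?_ ?_
  · have k1 : gm {ω | nB (M.X γ 0 ω) = ι ∧ ∃ R,
        η * ι < |SR G (M.X γ 0 ω) R - c * SR one (M.X γ 0 ω) R|} ≤ _ := le_trans
      (meas_le_lintegral₀ (((m12 Om _ ((m1.comp hX) (measurableSet_singleton _))).1.mul
        hY).aemeasurable) fun ω hω => by
          change 1 ≤ ind (nB (M.X γ 0 ω) = ι) * ind _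
          rw [ind_true hω.1, ind_true hω.2, one_mul]) key
    have k2 : ∫⁻ ω, ind ((ι : ℝ≥0∞) ≤ nB (sh (M.X γ 0 ω) 1)) *
        (toMeasurable gm E).indicator 1 ω ∂gm ≤ gm E := by
      rw [← measure_toMeasurable E, ← lintegral_indicator_one (measurableSet_toMeasurable _ _)]
      exact lintegral_mono fun ω => mul_le_of_le_one_left' (ind_le _)
    have k3 : (ι : ℝ) ^ (th γ + 2) * (K / ι) = K * (ι : ℝ) ^ (th γ + 1) := by
      rw [show th γ + 2 = th γ + 1 + 1 by ring, Real.rpow_add_one hι.ne']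
      field_simp
    have k4 : K * η2 ≤ η / 2 := by
      have h1 : η2 * (2 * (K + 1)) ≤ η := (le_div_iff₀ (by positivity)).1 (min_le_right _ _)
      nlinarith
    have k5 : (0 : ℝ) ≤ (ι : ℝ) ^ (th γ + 2) := by positivity
    calc _ ≤ ENNReal.ofReal ((ι : ℝ) ^ (th γ + 2)) *
          (ENNReal.ofReal (K / ι) * gm E + eE (-3 * ι) * 1) := by gcongr; exact k1.trans (by gcongr)
      _ = ENNReal.ofReal K * (ENNReal.ofReal ((ι : ℝ) ^ (th γ + 1)) * gm E) +
          ENNReal.ofReal ((ι : ℝ) ^ (th γ + 2) * Real.exp (-3 * ι)) := by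
        rw [mul_add, ← mul_assoc, ← mul_assoc, ← ENNReal.ofReal_mul k5, k3, ENNReal.ofReal_mul hK,
          mul_one, eE, ← ENNReal.ofReal_mul k5, mul_assoc]
      _ ≤ ENNReal.ofReal K * ENNReal.ofReal η2 + ENNReal.ofReal (η / 2) := by gcongr
      _ ≤ ENNReal.ofReal η := by
        rw [← ENNReal.ofReal_mul hK, ← ENNReal.ofReal_add (by positivity) (by positivity)]
        exact ENNReal.ofReal_le_ofReal (by linarith)
  · intro T hT ω s t hs _ h1 h2
    obtain ⟨hTr, hc⟩ := (t4 ι T).1 hT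
    have h3 : M.X γ 0 (ω + s • dv (gr φ)) = sh (M.X γ 0 ω) s := by
      funext W
      rw [X_add, LinearMap.smul_apply, dv_apply, hψ φ hφ, smul_eq_mul, mul_one, sh]
    set y := M.X γ 0 (ω + s • dv (gr φ) + ∑ P ∈ Pp T, t P • dv (M.vp T P)) with hy
    by_cases h4 : ∃ R, η * ι < |SR G y R - c * SR one y R|
    swap
    · simp only [ind, if_neg h4, zero_le]
    obtain ⟨R, hR⟩ := h4
    suffices hE : ω ∈ E by
      rw [Set.indicator_of_mem (subset_toMeasurable _ _ hE)]
      exact ind_le _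
    rw [h3] at h1
    have h5 : tr y = tr (sh (M.X γ 0 ω) s) := by rw [(t12 _ _ h1).2.1, (t12 _ _ h2).2.1]
    have h6 := SR_diff hm h5 ((Pp T ×ˢ Finset.range (D + 1)).image fun p => p.1.drop p.2)
      (fun A hA hZ => hD _ _ fun S hS => by
        rw [(t12 _ _ h2).2.1] at hA
        simp only [sub]
        rw [hy, X_add, h3, LinearMap.sum_apply, Finset.sum_eq_zero, add_zero]
        intro P hP'
        obtain ⟨-, -, p1, p2⟩ := t7 T hTr P ((hP T hT).1 hP')
        have h7 : ∀ d, d :: P ∈ lvs T → ¬d :: P <:+ S ++ A := fun d hd h => by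
          obtain ⟨j, hj, e⟩ := drop_of hTr hA ((t8 T hTr _).1 hd).1 hS h
          exact hZ (Finset.mem_image.2 ⟨(P, j), Finset.mem_product.2
            ⟨hP', Finset.mem_range.2 (Nat.lt_succ_of_le hj)⟩, e.symm⟩)
        rw [LinearMap.smul_apply, dv_apply, vp_orth hB hG M hM T P _ (h7 _ p1) (h7 _ p2),
          smul_zero]) R
    have h8 : (((Pp T ×ˢ Finset.range (D + 1)).image fun p => p.1.drop p.2).card : ℝ) ≤
        η / 2 * ι := by
      have h9 : (((Pp T ×ˢ Finset.range (D + 1)).image fun p => p.1.drop p.2).card : ℝ) ≤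
          ⌈η' * ι⌉₊ * (D + 1) := by
        rw [← (hP T hT).2]
        have := Finset.card_image_le (s := Pp T ×ˢ Finset.range (D + 1))
          (f := fun p => p.1.drop p.2)
        rw [Finset.card_product, Finset.card_range] at this
        exact_mod_cast this
      have h10 := (Nat.ceil_lt_add_one (mul_pos hη'0 hι).le).le
      have h11 : 1 ≤ η' * ι := by rwa [div_le_iff₀' hη'0] at e3
      have h12 : η' * (4 * (D + 1)) ≤ η := (le_div_iff₀ (by positivity)).1 (min_le_right _ _)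
      have h13 : (⌈η' * ι⌉₊ : ℝ) * (D + 1) ≤ 2 * (η' * ι) * (D + 1) :=
        mul_le_mul_of_nonneg_right (by linarith) (by positivity)
      nlinarith
    have h9 : SR one y R = SR one (sh (M.X γ 0 ω) s) R := by simp only [SR, one, h5]
    refine ⟨?_, s, abs_le.1 hs, R, ?_⟩
    · rw [ENNReal.ofReal_natCast, ← hc, ← (t12 _ _ h1).2.2.1]
      exact t16 _ _ fun S => by simp only [sh]; linarith [(abs_le.1 hs).2]
    · have h10 : η2 * ι ≤ η / 2 * ι := mul_le_mul_of_nonneg_right (min_le_left _ _) hι.le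
      have h11 := abs_sub_le (SR G y R) (SR G (sh (M.X γ 0 ω) s) R) (c * SR one y R)
      rw [h9] at hR h11
      linarith
  · intro T _
    calc _ ≤ ∫⁻ _, 1 ∂gm := lintegral_mono fun ω => pow_le_one₀ (zero_le) (ind_le _)
      _ = 1 ^ 2 := by simp

lemma SR_sum {N : ℕ} (a : Fin N → ℝ) (G : Fin N → (Dy → ℝ) → ℝ) (x : Dy → ℝ) (R : Dy) :
    SR (fun y => ∑ i, a i * G i y) x R = ∑ i, a i * SR (G i) x R := by
  simp only [SR, Finset.mul_sum]
  exact Finset.sum_comm

lemma sum_le {N : ℕ} (a g c : Fin N → ℝ) (e : ℝ) (h : ∀ i, |g i - c i| ≤ e) :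
    |∑ i, a i * g i - ∑ i, a i * c i| ≤ (∑ i, |a i|) * e := by
  rw [← Finset.sum_sub_distrib, Finset.sum_mul]
  refine (Finset.abs_sum_le_sum_abs _ _).trans (Finset.sum_le_sum fun i _ => ?_)
  rw [← mul_sub, abs_mul]
  exact mul_le_mul_of_nonneg_left (h i) (abs_nonneg _)

end LL

open LL in
theorem blk_LL (hG1 : St_G1) (hMOD : St_MOD) (hBMP : St_BMP) (hGEO1 : St_GEO1) (hT1 : St_T1)
    (hT3 : St_T3) (hR : St_R) (hMAC : St_MAC) (hU : St_U) (hLL0 : St_LL0) : St_LL := by
  intro γ hγ M hM F hF η hη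
  have hc := (hR γ hγ).2.2.2.2.2.2
  obtain ⟨D, N, G, a, b, hG, h1, h2, h3⟩ := hLL0 γ hγ F hF (η * cc γ one / 2) (by positivity)
  have ha : 0 ≤ ∑ i, |a i| := Finset.sum_nonneg fun i _ => abs_nonneg _
  have hb : 0 ≤ ∑ i, |b i| := Finset.sum_nonneg fun i _ => abs_nonneg _
  set η1 := η / (2 * (∑ i, |a i| + ∑ i, |b i| + N + 1)) with hη1
  have hη10 : 0 < η1 := by positivity
  have hη11 : η1 * (2 * (∑ i, |a i| + ∑ i, |b i| + N + 1)) = η := by
    rw [hη1]
    field_simp
  have hN : (0 : ℝ) ≤ N := Nat.cast_nonneg N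
  filter_upwards [eventually_all.2 fun i =>
    mono hG1 hMOD hBMP hGEO1 hT1 hT3 hMAC hU hγ M hM (hG i).1 (hG i).2 hη10] with ι hι
  obtain ⟨-, -, -, -, -, -, -, -, -, -, -, t12, t13, -⟩ := hT1
  calc _ ≤ ENNReal.ofReal ((ι : ℝ) ^ (th γ + 2)) * ∑ i, gm {ω | nB (M.X γ 0 ω) = ι ∧ ∃ R,
        η1 * ι < |SR (G i) (M.X γ 0 ω) R - cc γ (G i) / cc γ one * SR one (M.X γ 0 ω) R|} := by
        gcongr
        refine (measure_mono ?_).trans (measure_iUnion_fintype_le _ _)
        rintro ω ⟨k1, R, k2⟩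
        by_contra k3
        simp only [mem_iUnion, Set.mem_ofPred_eq, k1, true_and, not_exists, not_lt] at k3
        set x := M.X γ 0 ω
        have k4 := t13 x (by rw [k1]; exact ENNReal.natCast_ne_top _)
        have k5 : (tr x).card = ι := by exact_mod_cast (t12 _ _ k4).2.2.1.symm.trans k1
        have k6 : ∀ A ∈ (tr x).filter fun A => R <:+ A, 0 < sub x A [] := fun A hA =>
          (k4 A).1 (Finset.mem_filter.1 hA).1 A List.suffix_rfl
        have k7 : ∑ i, a i * SR (G i) x R ≤ SR F x R := by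
          rw [← SR_sum]
          exact Finset.sum_le_sum fun A hA => (h1 _ (k6 A hA)).1
        have k8 : SR F x R ≤ ∑ i, b i * SR (G i) x R := by
          rw [← SR_sum]
          exact Finset.sum_le_sum fun A hA => (h1 _ (k6 A hA)).2
        have k9 : 0 ≤ SR one x R ∧ SR one x R ≤ ι := by
          simp only [SR, one, Finset.sum_const, nsmul_eq_mul, mul_one, ← k5]
          exact ⟨Nat.cast_nonneg _, by exact_mod_cast Finset.card_filter_le _ _⟩
        set s := SR one x R / cc γ one with hs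
        have k10 : ∀ t : ℝ, t / cc γ one * SR one x R = t * s := fun t => by rw [hs]; ring
        have k11 : 0 ≤ s := div_nonneg k9.1 hc.le
        have k12 : η * cc γ one / 2 * s ≤ η / 2 * ι := by
          rw [← k10, show η * cc γ one / 2 / cc γ one = η / 2 by field_simp]
          exact mul_le_mul_of_nonneg_left k9.2 (by positivity)
        have k3' := fun i => k3 i R
        simp only [k10] at k2 k3'
        have k13 := abs_le.1 (sum_le a _ _ _ k3')
        have k14 := abs_le.1 (sum_le b _ _ _ k3')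
        simp only [← mul_assoc, ← Finset.sum_mul] at k13 k14
        have k15 := mul_le_mul_of_nonneg_right h2 k11
        have k16 := mul_le_mul_of_nonneg_right h3 k11
        have hι0 : (0 : ℝ) ≤ ι := Nat.cast_nonneg ι
        have k17 : (∑ i, |a i|) * η1 * ι ≤ η / 2 * ι :=
          mul_le_mul_of_nonneg_right (by nlinarith) hι0
        have k18 : (∑ i, |b i|) * η1 * ι ≤ η / 2 * ι :=
          mul_le_mul_of_nonneg_right (by nlinarith) hι0
        refine absurd k2 (not_lt.2 (abs_le.2 ⟨?_, ?_⟩)) <;> nlinarith [k13.1, k14.2]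
    _ ≤ ∑ _i : Fin N, ENNReal.ofReal η1 := by
        rw [Finset.mul_sum]
        exact Finset.sum_le_sum fun i _ => hι i
    _ ≤ ENNReal.ofReal η := by
        rw [← ENNReal.ofReal_sum_of_nonneg fun _ _ => hη10.le]
        refine ENNReal.ofReal_le_ofReal ?_
        simp only [Finset.sum_const, Finset.card_univ, Fintype.card_fin, nsmul_eq_mul]
        nlinarith

end

end Pool.Agent.Lib.APPS
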