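import Pool.Agent.Lib.APPS.Blue2

/-!
Block LL0: sandwiching an admissible functional between signed sums of monotone functionals.
-/

namespace Pool.Agent.Lib.APPS

open MeasureTheory ProbabilityTheory Filter Topology Set Metric
open scoped NNReal ENNReal CompactlySupported BoundedContinuousFunction RealInnerProductSpace
  Classical

noncomputable section

namespace LL0

def Gen (D : ℕ) : Set ((Dy → ℝ) → ℝ) :=
  {G | Mono G ∧ ∀ x y : Dy → ℝ, (∀ S : Dy, S.length ≤ D → x S = y S) → G x = G y}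

def Sp (D : ℕ) : Submodule ℝ ((Dy → ℝ) → ℝ) := Submodule.span ℝ (Gen D)

theorem gen_mul {D : ℕ} {G H : (Dy → ℝ) → ℝ} (hG : G ∈ Gen D) (hH : H ∈ Gen D) :
    G * H ∈ Gen D := by
  obtain ⟨⟨g1, g2, g3⟩, g4⟩ := hG
  obtain ⟨⟨h1, h2, h3⟩, h4⟩ := hH
  refine ⟨⟨g1.mul h1, fun x => ⟨mul_nonneg (g2 x).1 (h2 x).1, ?_⟩, fun x y hxy => ?_⟩,
    fun x y hxy => ?_⟩
  · exact mul_le_one₀ (g2 x).2 (h2 x).1 (h2 x).2
  · exact mul_le_mul (g3 x y hxy) (h3 x y hxy) (h2 x).1 (g2 y).1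
  · simp only [Pi.mul_apply, g4 x y hxy, h4 x y hxy]

theorem sp_mul {D : ℕ} {G H : (Dy → ℝ) → ℝ} (hG : G ∈ Gen D) (hH : H ∈ Sp D) :
    G * H ∈ Sp D := by
  unfold Sp at hH ⊢
  induction hH using Submodule.span_induction with
  | mem x hx => exact Submodule.subset_span (gen_mul hG hx)
  | zero => simp
  | add x y _ _ hx hy => rw [mul_add]; exact Submodule.add_mem _ hx hy
  | smul a x _ hx => rw [mul_smul_comm]; exact Submodule.smul_mem _ _ hx

theorem sp_meas {D : ℕ} {H : (Dy → ℝ) → ℝ} (hH : H ∈ Sp D) : Measurable H := by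
  unfold Sp at hH
  induction hH using Submodule.span_induction with
  | mem x hx => exact hx.1.1
  | zero => exact measurable_const
  | add x y _ _ hx hy => exact hx.add hy
  | smul a x _ hx => exact hx.const_smul a

theorem gen_one (D : ℕ) : (fun _ => (1 : ℝ)) ∈ Gen D :=
  ⟨⟨measurable_const, fun _ => ⟨zero_le_one, le_rfl⟩, fun _ _ _ => le_rfl⟩, fun _ _ _ => rfl⟩

theorem sp_const (D : ℕ) (c : ℝ) : (fun _ => c) ∈ Sp D := by
  have h : (fun _ : Dy → ℝ => c) = c • (fun _ : Dy → ℝ => (1 : ℝ)) := by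
    funext y; simp
  rw [h]
  exact Submodule.smul_mem _ _ (Submodule.subset_span (gen_one D))

def thr (p : Dy × ℝ) (y : Dy → ℝ) : ℝ := if p.2 ≤ y p.1 then 1 else 0

theorem gen_thr {D : ℕ} (p : Dy × ℝ) (hp : p.1.length ≤ D) : thr p ∈ Gen D := by
  refine ⟨⟨?_, fun x => ?_, fun x y hxy => ?_⟩, fun x y hxy => ?_⟩
  · exact Measurable.ite (measurableSet_le measurable_const (measurable_pi_apply _))
      measurable_const measurable_const
  · unfold thr; split_ifs <;> simp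
  · unfold thr
    by_cases h : p.2 ≤ x p.1
    · rw [if_pos h, if_pos (h.trans (hxy _))]
    · rw [if_neg h]; split_ifs <;> simp
  · unfold thr; rw [hxy _ hp]

def key (P : Finset (Dy × ℝ)) (y : Dy → ℝ) : Finset (Dy × ℝ) := P.filter fun p => p.2 ≤ y p.1

theorem sp_key {D : ℕ} (P : Finset (Dy × ℝ)) (hP : ∀ p ∈ P, p.1.length ≤ D)
    (φ : Finset (Dy × ℝ) → ℝ) : (fun y => φ (key P y)) ∈ Sp D := by
  induction P using Finset.induction_on generalizing φ with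
  | empty => simpa [key] using sp_const D (φ ∅)
  | insert p P hp ih =>
    have hP' : ∀ q ∈ P, q.1.length ≤ D := fun q hq => hP q (Finset.mem_insert_of_mem hq)
    have h1 := ih hP' φ
    have h2 := ih hP' fun k => φ (insert p k)
    have ht := gen_thr p (hP p (Finset.mem_insert_self _ _))
    have e : (fun y => φ (key (insert p P) y)) =
        thr p * (fun y => φ (insert p (key P y))) + (fun y => φ (key P y)) -
          thr p * (fun y => φ (key P y)) := by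
      funext y
      simp only [key, Finset.filter_insert, thr, Pi.sub_apply, Pi.add_apply, Pi.mul_apply]
      split_ifs <;> simp
    rw [e]
    exact Submodule.sub_mem _ (Submodule.add_mem _ (sp_mul ht h2) h1) (sp_mul ht h1)

theorem bdd_add {F G : (Dy → ℝ) → ℝ} (hF : BddM F) (hG : BddM G) : BddM fun y => F y + G y := by
  obtain ⟨f1, B, f2⟩ := hF
  obtain ⟨g1, C, g2⟩ := hG
  exact ⟨f1.add g1, B + C, fun x => ⟨add_nonneg (f2 x).1 (g2 x).1, add_le_add (f2 x).2 (g2 x).2⟩⟩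

theorem bdd_smul {F : (Dy → ℝ) → ℝ} (hF : BddM F) {t : ℝ} (ht : 0 ≤ t) :
    BddM fun y => t * F y := by
  obtain ⟨f1, B, f2⟩ := hF
  exact ⟨f1.const_mul t, t * B, fun x => ⟨mul_nonneg ht (f2 x).1,
    mul_le_mul_of_nonneg_left (f2 x).2 ht⟩⟩

theorem bdd_mono {F : (Dy → ℝ) → ℝ} (hF : Mono F) : BddM F := ⟨hF.1, 1, hF.2.1⟩

theorem cc_sum {γ : ℝ}
    (hadd : ∀ F F', BddM F → BddM F' → cc γ (fun y => F y + F' y) = cc γ F + cc γ F')
    (hsm : ∀ F (t : ℝ), BddM F → 0 ≤ t → cc γ (fun y => t * F y) = t * cc γ F)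
    {ι : Type} (s : Finset ι) (G : ι → (Dy → ℝ) → ℝ) (t : ι → ℝ) (hG : ∀ i, BddM (G i))
    (ht : ∀ i, 0 ≤ t i) :
    BddM (fun y => ∑ i ∈ s, t i * G i y) ∧
      cc γ (fun y => ∑ i ∈ s, t i * G i y) = ∑ i ∈ s, t i * cc γ (G i) := by
  induction s using Finset.induction_on with
  | empty =>
    have h0 : BddM fun _ => (0 : ℝ) := ⟨measurable_const, 0, fun _ => ⟨le_rfl, le_rfl⟩⟩
    refine ⟨by simpa using h0, ?_⟩
    have := hsm _ 0 h0 le_rfl
    simpa using this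
  | insert i s hi ih =>
    simp only [Finset.sum_insert hi]
    exact ⟨bdd_add (bdd_smul (hG i) (ht i)) ih.1, by
      rw [hadd _ _ (bdd_smul (hG i) (ht i)) ih.1, hsm _ _ (hG i) (ht i), ih.2]⟩

theorem cc_signed {γ : ℝ}
    (hadd : ∀ F F', BddM F → BddM F' → cc γ (fun y => F y + F' y) = cc γ F + cc γ F')
    (hsm : ∀ F (t : ℝ), BddM F → 0 ≤ t → cc γ (fun y => t * F y) = t * cc γ F)
    {ι : Type} [Fintype ι] (G : ι → (Dy → ℝ) → ℝ) (a : ι → ℝ) (hG : ∀ i, BddM (G i))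
    (H : (Dy → ℝ) → ℝ) (hH : BddM H) (he : ∀ y, H y = ∑ i, a i * G i y) :
    cc γ H = ∑ i, a i * cc γ (G i) := by
  have hp := cc_sum hadd hsm Finset.univ G (fun i => max (a i) 0) hG fun i => le_max_right _ _
  have hn := cc_sum hadd hsm Finset.univ G (fun i => max (-a i) 0) hG fun i => le_max_right _ _
  have hm : ∀ i, max (a i) 0 = a i + max (-a i) 0 := fun i => by
    rcases le_total (a i) 0 with h | h
    · rw [max_eq_right h, max_eq_left (by linarith)]; ring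
    · rw [max_eq_left h, max_eq_right (by linarith)]; ring
  have e : (fun y => H y + ∑ i, max (-a i) 0 * G i y) = fun y => ∑ i, max (a i) 0 * G i y := by
    funext y
    rw [he y, ← Finset.sum_add_distrib]
    exact Finset.sum_congr rfl fun i _ => by rw [hm i]; ring
  have h1 := hadd _ _ hH hn.1
  rw [e, hp.2, hn.2] at h1
  have h2 : ∑ i, max (a i) 0 * cc γ (G i) =
      ∑ i, a i * cc γ (G i) + ∑ i, max (-a i) 0 * cc γ (G i) := by
    rw [← Finset.sum_add_distrib]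
    exact Finset.sum_congr rfl fun i _ => by rw [hm i]; ring
  linarith

theorem two_rep {D : ℕ} {lo up : (Dy → ℝ) → ℝ} (h1 : lo ∈ Sp D) (h2 : up ∈ Sp D) :
    ∃ (N : ℕ) (G : Fin N → (Dy → ℝ) → ℝ) (a b : Fin N → ℝ), (∀ i, G i ∈ Gen D) ∧
      (∀ y, lo y = ∑ i, a i * G i y) ∧ ∀ y, up y = ∑ i, b i * G i y := by
  obtain ⟨n, f, g, hg⟩ := Submodule.mem_span_set'.1 h1
  obtain ⟨m, f', g', hg'⟩ := Submodule.mem_span_set'.1 h2
  refine ⟨n + m, Fin.append (fun i => (g i).1) (fun i => (g' i).1), Fin.append f 0,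
    Fin.append 0 f', fun i => ?_, fun y => ?_, fun y => ?_⟩
  · refine Fin.addCases (fun j => ?_) (fun j => ?_) i
    · rw [Fin.append_left]; exact (g j).2
    · rw [Fin.append_right]; exact (g' j).2
  · rw [Fin.sum_univ_add, ← hg]
    simp [Finset.sum_apply]
  · rw [Fin.sum_univ_add, ← hg']
    simp [Finset.sum_apply]

/-- the first `N` rationals -/
def rats (N : ℕ) : Finset ℝ :=
  (Finset.range N).image fun n => ((((Denumerable.eqv ℚ).symm n : ℚ) : ℝ))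

theorem ev_rats (q : ℚ) : ∀ᶠ N in atTop, (q : ℝ) ∈ rats N := by
  obtain ⟨n, hn⟩ := (Denumerable.eqv ℚ).symm.surjective q
  filter_upwards [eventually_gt_atTop n] with N hN
  exact Finset.mem_image.2 ⟨_, Finset.mem_range.2 hN, by rw [hn]⟩

theorem ev_nhds (a : ℝ) (t : Set ℝ) (ht : t ∈ 𝓝 a) :
    ∀ᶠ N in atTop, ∀ z : ℝ, (∀ c ∈ rats N, c ≤ z ↔ c ≤ a) → z ∈ t := by
  obtain ⟨l, u, ⟨hl, hu⟩, hs⟩ := mem_nhds_iff_exists_Ioo_subset.1 ht
  obtain ⟨p, hp1, hp2⟩ := exists_rat_btwn hl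
  obtain ⟨q, hq1, hq2⟩ := exists_rat_btwn hu
  filter_upwards [ev_rats p, ev_rats q] with N h1 h2 z hz
  refine hs ⟨hp1.trans_le ((hz _ h1).2 hp2.le), ?_⟩
  have : ¬(q : ℝ) ≤ z := fun h => absurd ((hz _ h2).1 h) (not_le.2 hq1)
  exact (not_le.1 this).trans hq2

def idx (D : ℕ) : Finset Dy := (Finset.range (D + 1)).biUnion lev

def PP' (D N : ℕ) : Finset (Dy × ℝ) := idx D ×ˢ rats N

def loF (F : (Dy → ℝ) → ℝ) (D N : ℕ) (y : Dy → ℝ) : ℝ :=
  sInf (F '' {z | key (PP' D N) z = key (PP' D N) y})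

def upF (F : (Dy → ℝ) → ℝ) (D N : ℕ) (y : Dy → ℝ) : ℝ :=
  sSup (F '' {z | key (PP' D N) z = key (PP' D N) y})

theorem mem_idx (hT1 : St_T1) {D : ℕ} {S : Dy} : S ∈ idx D ↔ S.length ≤ D := by
  simp only [idx, Finset.mem_biUnion, Finset.mem_range, hT1.1]
  constructor
  · rintro ⟨k, hk, rfl⟩; omega
  · intro h; exact ⟨_, by omega, rfl⟩

theorem lo_sp (hT1 : St_T1) (F : (Dy → ℝ) → ℝ) (D N : ℕ) : loF F D N ∈ Sp D :=
  sp_key (PP' D N) (fun _ hp => (mem_idx hT1).1 (Finset.mem_product.1 hp).1)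
    fun k => sInf (F '' {z | key (PP' D N) z = k})

theorem up_sp (hT1 : St_T1) (F : (Dy → ℝ) → ℝ) (D N : ℕ) : upF F D N ∈ Sp D :=
  sp_key (PP' D N) (fun _ hp => (mem_idx hT1).1 (Finset.mem_product.1 hp).1)
    fun k => sSup (F '' {z | key (PP' D N) z = k})

theorem lo_up {F : (Dy → ℝ) → ℝ} {B : ℝ} (hB : ∀ x, 0 ≤ F x ∧ F x ≤ B) (D N : ℕ) (y : Dy → ℝ) :
    0 ≤ loF F D N y ∧ loF F D N y ≤ F y ∧ F y ≤ upF F D N y ∧ upF F D N y ≤ B := by
  have hy : F y ∈ F '' {z | key (PP' D N) z = key (PP' D N) y} := ⟨y, rfl, rfl⟩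
  refine ⟨le_csInf ⟨_, hy⟩ ?_, csInf_le ⟨0, ?_⟩ hy, le_csSup ⟨B, ?_⟩ hy, csSup_le ⟨_, hy⟩ ?_⟩
  · rintro _ ⟨z, -, rfl⟩; exact (hB z).1
  · rintro _ ⟨z, -, rfl⟩; exact (hB z).1
  · rintro _ ⟨z, -, rfl⟩; exact (hB z).2
  · rintro _ ⟨z, -, rfl⟩; exact (hB z).2

theorem osc_tend (hT1 : St_T1) {F : (Dy → ℝ) → ℝ} {B : ℝ} (hB : ∀ x, 0 ≤ F x ∧ F x ≤ B) {D : ℕ}
    (hD : ∀ x y : Dy → ℝ, (∀ S : Dy, S.length ≤ D → x S = y S) → F x = F y) {y : Dy → ℝ}
    (hc : ContinuousAt F y) :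
    Tendsto (fun N => upF F D N y - loF F D N y) atTop (𝓝 0) := by
  rw [Metric.tendsto_nhds]
  intro ε hε
  have h1 : {z | dist (F z) (F y) < ε / 4} ∈ 𝓝 y :=
    (Metric.tendsto_nhds.1 hc) _ (by positivity)
  rw [nhds_pi, Filter.mem_pi] at h1
  obtain ⟨J, -, t, ht, hsub⟩ := h1
  have h2 : ∀ᶠ N in atTop, ∀ S ∈ idx D, ∀ z : ℝ, (∀ c ∈ rats N, c ≤ z ↔ c ≤ y S) → z ∈ t S :=
    (Filter.eventually_all_finset _).2 fun S _ => ev_nhds _ _ (ht S)
  filter_upwards [h2] with N hN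
  have h3 : ∀ z, key (PP' D N) z = key (PP' D N) y → |F z - F y| < ε / 4 := by
    intro z hz
    have e : F z = F fun S => if S.length ≤ D then z S else y S :=
      hD _ _ fun S hS => by rw [if_pos hS]
    rw [e, ← Real.dist_eq]
    refine hsub fun S _ => ?_
    by_cases hS : S.length ≤ D
    · simp only [if_pos hS]
      refine hN S ((mem_idx hT1).2 hS) _ fun c hc' => ?_
      have hm : (S, c) ∈ PP' D N := Finset.mem_product.2 ⟨(mem_idx hT1).2 hS, hc'⟩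
      have := Finset.ext_iff.1 hz (S, c)
      simpa [key, hm] using this
    · simp only [if_neg hS]
      exact mem_of_mem_nhds (ht S)
  have hy : F y ∈ F '' {z | key (PP' D N) z = key (PP' D N) y} := ⟨y, rfl, rfl⟩
  have hu : upF F D N y ≤ F y + ε / 4 := csSup_le ⟨_, hy⟩ (by
    rintro _ ⟨z, hz, rfl⟩; linarith [(abs_lt.1 (h3 z hz)).2])
  have hl : F y - ε / 4 ≤ loF F D N y := le_csInf ⟨_, hy⟩ (by
    rintro _ ⟨z, hz, rfl⟩; linarith [(abs_lt.1 (h3 z hz)).1])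
  have := lo_up hB D N y
  rw [Real.dist_eq, sub_zero, abs_lt]
  constructor <;> linarith [this.2.1, this.2.2.1]

theorem aa_pos {γ : ℝ} (hγ : γ ∈ Ioo (0 : ℝ) 2) : 0 < aa γ := by
  unfold aa QQ
  have h1 : 1 < 2 / γ := by rw [lt_div_iff₀ hγ.1]; linarith [hγ.2]
  linarith [hγ.2]

theorem palm_dct {γ : ℝ} (hγ : γ ∈ Ioo (0 : ℝ) 2) (hT3 : St_T3) [IsProbabilityMeasure (ex 0)]
    (G : ℕ → (Dy → ℝ) → ℝ≥0∞) (Gb : (Dy → ℝ) → ℝ≥0∞) (B : ℝ≥0∞) (hB : B ≠ ∞)
    (hG : ∀ n, Measurable (G n)) (hle : ∀ n y, G n y ≤ Gb y) (hleB : ∀ n y, G n y ≤ B)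
    (hfin : palm γ Gb ≠ ∞)
    (hlim : ∀ᵐ y : ℝ, ∀ᵐ x ∂ex 0, Tendsto (fun n => G n (drift (QQ γ) x y)) atTop (𝓝 0)) :
    Tendsto (fun n => palm γ (G n)) atTop (𝓝 0) := by
  have hd := hT3.2.2.2.2.2.2.1 (QQ γ)
  have hc0 : ENNReal.ofReal (aa γ * l2)⁻¹ ≠ 0 := by
    have : 0 < l2 := Real.log_pos (by norm_num)
    have := aa_pos hγ
    simp only [ne_eq, ENNReal.ofReal_eq_zero, not_le]
    positivity
  have hfin' : ∫⁻ y : ℝ, eE (-γ * y) * ∫⁻ x, Gb (drift (QQ γ) x y) ∂ex 0 ≠ ∞ := by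
    intro h
    apply hfin
    unfold palm
    rw [h, ENNReal.mul_top hc0]
  have hE : Measurable fun y : ℝ => eE (-γ * y) := by
    unfold eE; fun_prop
  have key : Tendsto (fun n => ∫⁻ y : ℝ, eE (-γ * y) * ∫⁻ x, G n (drift (QQ γ) x y) ∂ex 0) atTop
      (𝓝 (∫⁻ _ : ℝ, 0)) := by
    refine tendsto_lintegral_of_dominated_convergence
      (fun y => eE (-γ * y) * ∫⁻ x, Gb (drift (QQ γ) x y) ∂ex 0) (fun n => ?_) (fun n => ?_)
      hfin' ?_
    · exact hE.mul (Measurable.lintegral_prod_left' (μ := ex 0) ((hG n).comp hd))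
    · exact Eventually.of_forall fun y => mul_le_mul_right (lintegral_mono fun x => hle n _) _
    · filter_upwards [hlim] with y hy
      have h1 : Tendsto (fun n => ∫⁻ x, G n (drift (QQ γ) x y) ∂ex 0) atTop
          (𝓝 (∫⁻ _, 0 ∂ex 0)) := by
        refine tendsto_lintegral_of_dominated_convergence (fun _ => B) (fun n => ?_)
          (fun n => Eventually.of_forall fun x => hleB n _) (by simpa using hB) hy
        exact (hG n).comp (hd.comp (measurable_id.prodMk measurable_const))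
      rw [lintegral_zero] at h1
      have h2 := ENNReal.Tendsto.const_mul (a := eE (-γ * y)) h1 (Or.inr ENNReal.ofReal_ne_top)
      simpa using h2
  rw [lintegral_zero] at key
  have h2 := ENNReal.Tendsto.const_mul (a := ENNReal.ofReal (aa γ * l2)⁻¹) key
    (Or.inr ENNReal.ofReal_ne_top)
  simpa [palm] using h2

end LL0

open LL0 in
theorem blk_LL0 (_hG1 : St_G1) (_hG3 : St_G3) (hM0 : St_M0) (hMOD : St_MOD) (hT1 : St_T1)
    (hT3 : St_T3) (hR0 : St_R0) (hR : St_R) : St_LL0 := by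
  intro γ hγ F hF η hη
  obtain ⟨⟨hFm, B, hB⟩, ⟨D, hD⟩, hc⟩ := hF
  obtain ⟨M⟩ := hM0
  have : IsProbabilityMeasure (ex 0) :=
    ((hMOD M).2.2.2.2.2.2.2.2.2.2.2.2.2.2.2.2.2 0 le_rfl).2
  obtain ⟨-, -, hadd, hsm, -, hpal, -⟩ := hR γ hγ
  obtain ⟨hfin, -, -, -, -, -, hmono, -⟩ := hR0 γ hγ
  have hind : Measurable fun y : Dy → ℝ => ind (0 < y []) :=
    (hT3.2.2.2.2.2.2.2.2.2.2.2.1 _ _
      (measurableSet_lt measurable_const (measurable_pi_apply _))).1
  have hind1 : ∀ p : Prop, ind p ≤ 1 := fun p => by unfold ind; split_ifs <;> simp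
  have hlim : Tendsto (fun N => palm γ fun y =>
      ind (0 < y []) * ENNReal.ofReal (upF F D N y - loF F D N y)) atTop (𝓝 0) := by
    have hle : ∀ N y, ENNReal.ofReal (upF F D N y - loF F D N y) ≤ ENNReal.ofReal B :=
      fun N y => ENNReal.ofReal_le_ofReal (by
        have := lo_up hB D N y
        linarith [this.1, this.2.2.2])
    refine palm_dct hγ hT3 _ (fun y => ENNReal.ofReal B * ind (0 < y [])) (ENNReal.ofReal B)
      ENNReal.ofReal_ne_top (fun N => ?_) (fun N y => ?_) (fun N y => ?_) ?_ ?_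
    · exact hind.mul ((sp_meas (up_sp hT1 F D N)).sub (sp_meas (lo_sp hT1 F D N))).ennreal_ofReal
    · rw [mul_comm]; exact mul_le_mul_left (hle N y) _
    · exact (mul_le_mul' (hind1 _) (hle N y)).trans_eq (one_mul _)
    · exact (hfin _ (ENNReal.ofReal B) (hind.const_mul _) ENNReal.ofReal_ne_top
        fun _ => le_rfl).1
    · filter_upwards [hc] with y hy
      filter_upwards [hy] with x hx
      have h1 := ENNReal.tendsto_ofReal (osc_tend hT1 hB hD hx)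
      rw [ENNReal.ofReal_zero] at h1
      have h2 := ENNReal.Tendsto.const_mul (a := ind (0 < drift (QQ γ) x y [])) h1
        (Or.inr (ne_top_of_le_ne_top ENNReal.one_ne_top (hind1 _)))
      simpa using h2
  obtain ⟨N, hN⟩ := (hlim.eventually (gt_mem_nhds (ENNReal.ofReal_pos.2 hη))).exists
  obtain ⟨n, G, a, b, hG, ha, hb⟩ := two_rep (lo_sp hT1 F D N) (up_sp hT1 F D N)
  have hlu := lo_up hB D N
  have mlo := sp_meas (lo_sp hT1 F D N)
  have mup := sp_meas (up_sp hT1 F D N)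
  have blo : BddM (loF F D N) := ⟨mlo, B, fun y => ⟨(hlu y).1, (hlu y).2.1.trans (hB y).2⟩⟩
  have bup : BddM (upF F D N) := ⟨mup, B, fun y => ⟨(hB y).1.trans (hlu y).2.2.1, (hlu y).2.2.2⟩⟩
  have bF : BddM F := ⟨hFm, B, hB⟩
  have b1 : BddM fun y => F y - loF F D N y := ⟨hFm.sub mlo, B, fun y =>
    ⟨by linarith [(hlu y).2.1], by linarith [(hlu y).1, (hB y).2]⟩⟩
  have b2 : BddM fun y => upF F D N y - F y := ⟨mup.sub hFm, B, fun y =>
    ⟨by linarith [(hlu y).2.2.1], by linarith [(hlu y).2.2.2, (hB y).1]⟩⟩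
  have small : ∀ H, BddM H → (∀ y, H y ≤ upF F D N y - loF F D N y) → cc γ H ≤ η := by
    intro H hH hle
    rw [← ENNReal.ofReal_le_ofReal_iff hη.le]
    refine (hpal H hH).trans ((hmono _ _ fun y => ?_).trans hN.le)
    exact mul_le_mul_right (ENNReal.ofReal_le_ofReal (hle y)) _
  have s1 := small _ b1 fun y => by linarith [(hlu y).2.2.1]
  have s2 := small _ b2 fun y => by linarith [(hlu y).2.1]
  have e1 := hadd _ _ blo b1
  have e2 := hadd _ _ bF b2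
  simp only [add_sub_cancel] at e1 e2
  have c1 := cc_signed hadd hsm G a (fun i => bdd_mono (hG i).1) _ blo ha
  have c2 := cc_signed hadd hsm G b (fun i => bdd_mono (hG i).1) _ bup hb
  refine ⟨D, n, G, a, b, hG, fun y _ => ⟨?_, ?_⟩, ?_, ?_⟩
  · rw [← ha]; exact (hlu y).2.1
  · rw [← hb]; exact (hlu y).2.2.1
  · rw [← c2]
    have : cc γ (upF F D N) = cc γ (fun y => upF F D N y) := rfl
    linarith
  · rw [← c1]
    have : cc γ F = cc γ (fun y => F y) := rfl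
    linarith

end

end Pool.Agent.Lib.APPS
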