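import Pool.Agent.Lib.APPS.Blue4

/-!
Block LLE: law of large numbers in expectation on the event of a prescribed size.
-/

namespace Pool.Agent.Lib.APPS

open MeasureTheory ProbabilityTheory Filter Topology Set Metric
open scoped NNReal ENNReal CompactlySupported BoundedContinuousFunction RealInnerProductSpace
  Classical

noncomputable section

theorem lle_card (hT1 : St_T1) {x : Dy → ℝ} {ι : ℕ} (h : nB x = ι) : (tr x).card = ι := by
  have h1 := hT1.2.2.2.2.2.2.2.2.2.2.2.2.1 x (by rw [h]; exact ENNReal.natCast_ne_top ι)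
  have h2 := (hT1.2.2.2.2.2.2.2.2.2.2.2.1 x _ h1).2.2.1
  rw [h] at h2
  exact_mod_cast h2.symm

theorem lle_SR (F : (Dy → ℝ) → ℝ) (x : Dy → ℝ) : SR F x [] = ∑ A ∈ tr x, F (sub x A) := by
  unfold SR
  rw [Finset.filter_true_of_mem fun A _ => List.nil_suffix]

theorem blk_LLE (hG1 : St_G1) (hT1 : St_T1) (hT3 : St_T3) (hRW1 : St_RW1) (_hR : St_R)
    (hUL : St_UL) (hLL : St_LL) : St_LLE := by
  intro γ hγ M hM F hF η hη
  have : IsProbabilityMeasure gm := hG1.1
  have hθ : 0 < th γ := (hRW1.2.2 γ hγ).2.2.1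
  obtain ⟨K, hK⟩ := (hUL γ hγ M hM).1
  obtain ⟨hFm, B, hB⟩ := hF.1
  have hB0 : 0 ≤ B := (hB 0).1.trans (hB 0).2
  set c := cc γ F / cc γ one with hc
  have hX : Measurable (M.X γ 0) := (hT3.2.2.2.2.2.2.2.2.2.2.1 M γ 0).1
  have hE : ∀ ι : ℕ, MeasurableSet {ω | nB (M.X γ 0 ω) = ι} := fun ι =>
    (hT3.1.comp hX) (measurableSet_singleton _)
  have hI : ∀ ι : ℕ, Measurable fun ω => indR (nB (M.X γ 0 ω) = ι) := fun ι =>
    (hT3.2.2.2.2.2.2.2.2.2.2.2.1 _ _ (hE ι)).2
  have hΦm : ∀ Φ : Finset Dy → ℝ, Measurable fun ω => Φ (tr (M.X γ 0 ω)) := fun Φ =>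
    hT3.2.2.2.1 Om ℝ (M.X γ 0) (fun T _ => Φ T) hX fun _ => measurable_const
  have hS : ∀ G, Measurable G → Measurable fun ω => SR G (M.X γ 0 ω) [] := fun G hG =>
    (hT3.2.2.2.2.2.2.2.1 G [] hG).comp hX
  have hI01 : ∀ p : Prop, 0 ≤ indR p ∧ indR p ≤ 1 := fun p => by
    unfold indR; split_ifs <;> simp
  have hint : ∀ (ι : ℕ) (Φ : Finset Dy → ℝ), (∀ T, 0 ≤ Φ T ∧ Φ T ≤ 1) →
      Integrable (fun ω => indR (nB (M.X γ 0 ω) = ι) * Φ (tr (M.X γ 0 ω))) gm := by
    intro ι Φ hΦ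
    refine Integrable.of_bound ((hI ι).mul (hΦm Φ)).aestronglyMeasurable 1
      (Eventually.of_forall fun ω => ?_)
    rw [Real.norm_of_nonneg (mul_nonneg (hI01 _).1 (hΦ _).1)]
    exact mul_le_one₀ (hI01 _).2 (hΦ _).1 (hΦ _).2
  have hind : ∀ (p : Om → Prop), MeasurableSet {ω | p ω} →
      ∫ ω, indR (p ω) ∂gm = gm.real {ω | p ω} := by
    intro p hp
    rw [← integral_indicator_one hp]
    refine integral_congr_ae (Eventually.of_forall fun ω => ?_)
    simp only [indR, indicator, mem_ofPred_eq, Pi.one_apply]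
  have hP : ∀ ι : ℕ, (ι : ℝ) ^ (th γ + 2) * gm.real {ω | nB (M.X γ 0 ω) = ι} ≤ max K 0 := by
    intro ι
    rcases Nat.eq_zero_or_pos ι with rfl | hι
    · rw [Nat.cast_zero, Real.zero_rpow (by linarith), zero_mul]; exact le_max_right _ _
    have hι' : (0 : ℝ) < ι := Nat.cast_pos.2 hι
    have h1 : gm {ω | nB (M.X γ 0 ω) = ι} ≤
        ENNReal.ofReal (max K 0 * (ι : ℝ) ^ (-(th γ + 2))) := by
      refine le_trans ?_ ((hK ι hι []).trans (ENNReal.ofReal_le_ofReal
        (mul_le_mul_of_nonneg_right (le_max_left _ _) (Real.rpow_nonneg hι'.le _))))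
      rw [← lintegral_indicator_one (hE ι)]
      refine lintegral_mono fun ω => ?_
      simp only [ind, indicator, mem_ofPred_eq, Pi.one_apply]
      split_ifs
      · rw [one_mul, eE]
        exact ENNReal.one_le_ofReal.2 (Real.one_le_exp (abs_nonneg _))
      · exact zero_le
    have h2 := ENNReal.toReal_le_of_le_ofReal (by positivity) h1
    calc (ι : ℝ) ^ (th γ + 2) * gm.real {ω | nB (M.X γ 0 ω) = ι}
        ≤ (ι : ℝ) ^ (th γ + 2) * (max K 0 * (ι : ℝ) ^ (-(th γ + 2))) :=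
          mul_le_mul_of_nonneg_left h2 (Real.rpow_nonneg hι'.le _)
      _ = max K 0 := by
          rw [Real.rpow_neg hι'.le]
          field_simp
  have hD : 0 < max K 0 + (B + |c|) + 1 := by positivity
  set η' := η / (max K 0 + (B + |c|) + 1) with hη'
  have hη0 : 0 < η' := div_pos hη hD
  filter_upwards [hLL γ hγ M hM F hF η' hη0, eventually_gt_atTop 0] with ι hι hι0 Φ hΦ
  have hι' : (0 : ℝ) < ι := Nat.cast_pos.2 hι0
  have hSb : ∀ ω, nB (M.X γ 0 ω) = ι → 0 ≤ SR F (M.X γ 0 ω) [] ∧ SR F (M.X γ 0 ω) [] ≤ B * ι ∧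
      SR one (M.X γ 0 ω) [] = ι := by
    intro ω h
    have h1 := lle_card hT1 h
    simp only [lle_SR]
    refine ⟨Finset.sum_nonneg fun A _ => (hB _).1, ?_, by simp [one, h1]⟩
    have := Finset.sum_le_card_nsmul (tr (M.X γ 0 ω)) (fun A => F (sub (M.X γ 0 ω) A)) B
      fun A _ => (hB _).2
    rw [h1, nsmul_eq_mul] at this
    linarith
  have hg : Integrable (fun ω => indR (nB (M.X γ 0 ω) = ι) * Φ (tr (M.X γ 0 ω)) *
      SR F (M.X γ 0 ω) []) gm := by
    refine Integrable.of_bound (((hI ι).mul (hΦm Φ)).mul (hS F hFm)).aestronglyMeasurable (B * ι)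
      (Eventually.of_forall fun ω => ?_)
    by_cases h : nB (M.X γ 0 ω) = ι
    · rw [indR, if_pos h, one_mul, Real.norm_of_nonneg (mul_nonneg (hΦ _).1 (hSb ω h).1)]
      exact (mul_le_of_le_one_left (hSb ω h).1 (hΦ _).2).trans (hSb ω h).2.1
    · rw [indR, if_neg h]; simp; positivity
  refine ⟨hg, ?_, max K 0, fun ι' => ⟨?_, ?_, ?_⟩⟩
  · have hBad : MeasurableSet {ω | nB (M.X γ 0 ω) = ι ∧
        η' * ι < |SR F (M.X γ 0 ω) [] - c * SR one (M.X γ 0 ω) []|} :=
      (hE ι).inter (measurableSet_lt measurable_const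
        (continuous_abs.measurable.comp ((hS F hFm).sub ((hS one measurable_const).const_mul c))))
    have hBP : (ι : ℝ) ^ (th γ + 2) * gm.real {ω | nB (M.X γ 0 ω) = ι ∧
        η' * ι < |SR F (M.X γ 0 ω) [] - c * SR one (M.X γ 0 ω) []|} ≤ η' := by
      have h1 := (mul_le_mul_right (measure_mono (μ := gm) (s := {ω | nB (M.X γ 0 ω) = ι ∧
        η' * ι < |SR F (M.X γ 0 ω) [] - c * SR one (M.X γ 0 ω) []|})
        fun ω h => (⟨h.1, [], h.2⟩ : ω ∈ {ω | nB (M.X γ 0 ω) = ι ∧ ∃ R,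
          η' * ι < |SR F (M.X γ 0 ω) R - c * SR one (M.X γ 0 ω) R|})) _).trans hι
      have h2 := ENNReal.toReal_le_of_le_ofReal hη0.le h1
      rwa [ENNReal.toReal_mul, ENNReal.toReal_ofReal (Real.rpow_nonneg hι'.le _)] at h2
    have i1 : Integrable (fun ω => indR (nB (M.X γ 0 ω) = ι)) gm := by
      simpa [oneT] using hint ι oneT fun _ => ⟨zero_le_one, le_rfl⟩
    have i2 : Integrable (fun ω => indR (nB (M.X γ 0 ω) = ι ∧
        η' * ι < |SR F (M.X γ 0 ω) [] - c * SR one (M.X γ 0 ω) []|)) gm :=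
      Integrable.of_bound (hT3.2.2.2.2.2.2.2.2.2.2.2.1 _ _ hBad).2.aestronglyMeasurable 1
        (Eventually.of_forall fun ω => by
          rw [Real.norm_of_nonneg (hI01 _).1]; exact (hI01 _).2)
    have key : ‖∫ ω, (indR (nB (M.X γ 0 ω) = ι) * Φ (tr (M.X γ 0 ω)) * SR F (M.X γ 0 ω) [] -
        c * ι * (indR (nB (M.X γ 0 ω) = ι) * Φ (tr (M.X γ 0 ω)))) ∂gm‖ ≤
        ∫ ω, (η' * ι * indR (nB (M.X γ 0 ω) = ι) + (B + |c|) * ι * indR (nB (M.X γ 0 ω) = ι ∧
          η' * ι < |SR F (M.X γ 0 ω) [] - c * SR one (M.X γ 0 ω) []|)) ∂gm := by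
      refine norm_integral_le_of_norm_le ((i1.const_mul _).add (i2.const_mul _))
        (Eventually.of_forall fun ω => ?_)
      by_cases h : nB (M.X γ 0 ω) = ι
      · obtain ⟨s1, s2, s3⟩ := hSb ω h
        have e : ‖indR (nB (M.X γ 0 ω) = ι) * Φ (tr (M.X γ 0 ω)) * SR F (M.X γ 0 ω) [] -
            c * ι * (indR (nB (M.X γ 0 ω) = ι) * Φ (tr (M.X γ 0 ω)))‖ ≤
            |SR F (M.X γ 0 ω) [] - c * ι| := by
          rw [indR, if_pos h, one_mul, mul_comm (c * ι), ← mul_sub, Real.norm_eq_abs, abs_mul,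
            abs_of_nonneg (hΦ _).1]
          exact mul_le_of_le_one_left (abs_nonneg _) (hΦ _).2
        refine e.trans ?_
        rw [s3]
        have e1 : indR (nB (M.X γ 0 ω) = ι) = 1 := by rw [indR, if_pos h]
        rw [e1]
        by_cases h' : η' * ι < |SR F (M.X γ 0 ω) [] - c * ι|
        · rw [indR, if_pos ⟨h, h'⟩]
          have h5 : |SR F (M.X γ 0 ω) [] - c * ι| ≤ B * ι + |c| * ι := by
            refine (abs_sub _ _).trans ?_
            rw [abs_of_nonneg s1, abs_mul, abs_of_pos hι']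
            linarith
          nlinarith [mul_pos hη0 hι']
        · rw [indR, if_neg fun hh => h' hh.2]
          linarith [not_lt.1 h']
      · simp [indR, h]
    rw [integral_sub hg ((hint ι Φ hΦ).const_mul _), integral_const_mul,
      integral_add (i1.const_mul _) (i2.const_mul _), integral_const_mul, integral_const_mul,
      hind _ (hE ι), hind _ hBad, Real.norm_eq_abs] at key
    have e : (ι : ℝ) ^ (th γ + 2) = (ι : ℝ) ^ (th γ + 1) * ι := by
      rw [← Real.rpow_add_one hι'.ne']; congr 1; ring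
    have hp : 0 ≤ (ι : ℝ) ^ (th γ + 1) := Real.rpow_nonneg hι'.le _
    have h7 := mul_le_mul_of_nonneg_left key hp
    have h8 := hP ι
    rw [e] at h8 hBP
    unfold Model.aL
    rw [e]
    rw [← abs_of_nonneg hp, ← abs_mul, abs_of_nonneg hp] at h7
    have h9 : η' * (max K 0 + (B + |c|) + 1) = η := div_mul_cancel₀ _ hD.ne'
    have h10 := mul_le_mul_of_nonneg_left h8 hη0.le
    have h11 := mul_le_mul_of_nonneg_left hBP (add_nonneg hB0 (abs_nonneg c))
    refine le_trans (le_of_eq ?_) (h7.trans ?_)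
    · congr 1; ring
    · nlinarith
  · exact mul_nonneg (Real.rpow_nonneg (Nat.cast_nonneg _) _)
      (integral_nonneg fun ω => mul_nonneg (hI01 _).1 (hΦ _).1)
  · refine mul_le_mul_of_nonneg_left (integral_mono (hint ι' Φ hΦ)
      (hint ι' oneT fun _ => ⟨zero_le_one, le_rfl⟩) fun ω => ?_)
      (Real.rpow_nonneg (Nat.cast_nonneg _) _)
    exact mul_le_mul_of_nonneg_left (hΦ _).2 (hI01 _).1
  · unfold Model.aL
    simp only [oneT, mul_one]
    rw [hind _ (hE ι')]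
    exact hP ι'

end

end Pool.Agent.Lib.APPS
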