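import Pool.Agent.Lib.APPS.B_MBWa

/-!
Block MBW: moments of the discretised chaos measure.
-/

namespace Pool.Agent.Lib.APPS

open MeasureTheory ProbabilityTheory Filter Topology Set Metric
open scoped NNReal ENNReal RealInnerProductSpace Classical

noncomputable section

namespace MBW

def vv (M : Model) (L : ℕ) (A : Dy) : HH := M.eC (ctr A) (2 ^ L * side A)

def EW (M : Model) (γ : ℝ) (T : Dy) (L l : ℕ) (ω : Om) : ℝ≥0∞ :=
  ∑ S ∈ lev l, (4⁻¹ : ℝ≥0∞) ^ l * ew γ (vv M L (S ++ T)) ω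

theorem EW_eq (M : Model) (γ : ℝ) (T : Dy) (L l : ℕ) (ω : Om) :
    ENNReal.ofReal (M.Wn γ T L l ω) = EW M γ T L l ω := by
  unfold Model.Wn EW
  rw [ENNReal.ofReal_sum_of_nonneg]
  · refine Finset.sum_congr rfl fun S _ => ?_
    rw [ENNReal.ofReal_mul (by positivity), ENNReal.ofReal_pow (by norm_num)]
    congr 2
    rw [one_div, ENNReal.ofReal_inv_of_pos (by norm_num)]
    norm_num
  · intro S _
    exact mul_nonneg (by positivity) (Real.exp_pos _).le

theorem sum_lev (hT : St_T1) {β : Type} [AddCommMonoid β] (m k : ℕ) (F : Dy → β) :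
    ∑ S ∈ lev (m + k), F S = ∑ A ∈ lev k, ∑ S ∈ lev m, F (S ++ A) := by
  rw [← Finset.sum_product']
  symm
  refine Finset.sum_bij (fun p _ => p.2 ++ p.1) ?_ ?_ ?_ ?_
  · intro p hp
    rw [Finset.mem_product, hT.1, hT.1] at hp
    rw [hT.1, List.length_append, hp.1, hp.2]
  · intro p hp p' hp' h
    rw [Finset.mem_product, hT.1, hT.1] at hp hp'
    have := List.append_inj h (hp.2.trans hp'.2.symm)
    exact Prod.ext this.2 this.1
  · intro S hS
    rw [hT.1] at hS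
    refine ⟨(S.drop m, S.take m), ?_, List.take_append_drop _ _⟩
    rw [Finset.mem_product, hT.1, hT.1]
    simp only [List.length_drop, List.length_take]
    omega
  · intro p _
    rfl

theorem side_app (S A : Dy) : side (S ++ A) = (1 / 2 : ℝ) ^ S.length * side A := by
  unfold side
  rw [List.length_append, pow_add]

theorem log_side (S : Dy) : Real.log (side S) = -(S.length * l2) := by
  unfold side l2
  rw [Real.log_pow, one_div, Real.log_inv]
  ring

theorem l2_pos : 0 < l2 := Real.log_pos (by norm_num)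

theorem ctr_near (hG : St_GEO1) (S A : Dy) : ‖ctr (S ++ A) - ctr A‖ ≤ 3 / 4 * side A := by
  have h1 := (hG.2.2.2.1 (S ++ A)).2.2.1
  have h2 := (hG.2.2.2.2.1 (S ++ A) A).2 (List.suffix_append S A)
  exact (hG.2.2.2.1 A).2.2.2.1 _ (h2 h1)

theorem rad_le (hG : St_GEO1) {L : ℕ} {S : Dy} (A : Dy) (h : L ≤ S.length) :
    2 ^ L * side (S ++ A) ≤ side A := by
  rw [side_app, ← mul_assoc]
  have h0 := (hG.1 A).1
  have : (2 : ℝ) ^ L * (1 / 2) ^ S.length ≤ 1 := by
    rw [one_div, inv_pow, ← div_eq_mul_inv, div_le_one (by positivity)]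
    exact pow_le_pow_right₀ (by norm_num) h
  nlinarith

theorem ball_sub (hG : St_GEO1) (S A : Dy) {r : ℝ} (hr : r ≤ 5 / 4 * side A) :
    closedBall (ctr (S ++ A)) r ⊆ closedBall (ctr A) (2 * side A) := by
  apply closedBall_subset_closedBall'
  rw [dist_eq_norm]
  have := ctr_near hG S A
  linarith

theorem norm_eC (hM : St_MOD) (M : Model) (c : ℂ) (r : ℝ) (hr : 0 < r)
    (h : closedBall c r ⊆ M.O) : ‖M.eC c r‖ ^ 2 = M.C0 - Real.log r := by
  rw [← real_inner_self_eq_norm_sq]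
  exact (hM M).2.2.2.2.2.2.2.2.2.2.1 c r r hr le_rfl h

theorem base (hD : St_G1D) (hM : St_MOD) (hT : St_T1) (hG : St_GEO1) (γ q : ℝ) (hq : 1 ≤ q)
    (L l : ℕ) (hl : L ≤ l) (M : Model) (T : Dy) (hO : closedBall (ctr T) (2 * side T) ⊆ M.O) :
    ∫⁻ ω, EW M γ T L l ω ^ q ∂gm ≤
      eE (γ ^ 2 * q * (q - 1) / 2 * (M.C0 + T.length * l2 + (l - L : ℝ) * l2)) := by
  refine jensen hD (lev l) γ q _ _ hq ?_ (fun S => vv M L (S ++ T)) ?_
  · rw [hT.2.1]
    push_cast
    rw [← mul_pow, ENNReal.mul_inv_cancel (by norm_num) (by norm_num), one_pow]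
  · intro S hS
    rw [hT.1] at hS
    have h0 := (hG.1 (S ++ T)).1
    have h1 := (hG.1 T).1
    have h2 := rad_le hG (L := L) (S := S) T (hS ▸ hl)
    unfold vv
    rw [norm_eC hM M _ _ (by positivity) ((ball_sub hG S T (by linarith)).trans hO),
      Real.log_mul (by positivity) h0.ne', log_side, Real.log_pow, List.length_append, hS]
    push_cast
    unfold l2
    linarith

def cls (A : Dy) : ZMod 8 × ZMod 8 := (((gi A).1 : ZMod 8), ((gi A).2 : ZMod 8))

theorem far8 {a b : ℤ} (h : (a : ZMod 8) = (b : ZMod 8)) (hne : a ≠ b) : (8 : ℝ) ≤ |(a : ℝ) - b| := by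
  have h1 := (ZMod.intCast_eq_intCast_iff_dvd_sub a b 8).1 h
  have h2 : (8 : ℤ) ≤ |a - b| := by
    obtain ⟨t, ht⟩ := h1
    push_cast at ht
    rcases le_or_gt 0 (a - b) with h3 | h3
    · rw [abs_of_nonneg h3]; omega
    · rw [abs_of_neg h3]; omega
  exact_mod_cast h2

theorem sep (hG : St_GEO1) {A A' : Dy} (hl : A.length = A'.length) (hne : A ≠ A')
    (hc : cls A = cls A') : 8 * side A ≤ ‖ctr A - ctr A'‖ := by
  have hs : side A' = side A := by unfold side; rw [hl]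
  have h9 := hG.2.2.2.2.2.2.2.2.1
  have hgi : gi A ≠ gi A' := by
    intro h
    obtain ⟨S, _, hS⟩ := hG.2.2.2.2.2.2.2.2.2.1 A.length (gi A) (h9 A).2
    exact hne ((hS A ⟨rfl, rfl⟩).trans (hS A' ⟨hl.symm, h.symm⟩).symm)
  have e : ctr A - ctr A' = (side A : ℂ) * (zc (gi A) - zc (gi A')) := by
    unfold ctr
    rw [(h9 A).1, (h9 A').1, hs]
    ring
  have h0 := (hG.1 A).1
  rw [e, norm_mul, Complex.norm_real, Real.norm_eq_abs, abs_of_pos h0, mul_comm]
  refine mul_le_mul_of_nonneg_left ?_ h0.le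
  unfold cls at hc
  rw [Prod.mk.injEq] at hc
  by_cases h1 : (gi A).1 = (gi A').1
  · have h2 : (gi A).2 ≠ (gi A').2 := fun h2 => hgi (Prod.ext h1 h2)
    refine (far8 hc.2 h2).trans (le_trans (le_of_eq ?_) (Complex.abs_im_le_norm _))
    simp [zc]
  · refine (far8 hc.1 h1).trans (le_trans (le_of_eq ?_) (Complex.abs_re_le_norm _))
    simp [zc]

theorem ball_null {ν : Measure ℂ} {c c' : ℂ} {r : ℝ} {E : Set ℂ} (hν : ν Eᶜ = 0)
    (hE : E ⊆ closedBall c' r) (hd : 2 * r ≤ ‖c - c'‖) : ν (ball c r) = 0 := by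
  refine measure_mono_null ?_ hν
  intro x hx hxE
  have h1 := hE hxE
  rw [mem_closedBall] at h1
  rw [mem_ball] at hx
  have := dist_triangle_left c c' x
  rw [dist_eq_norm c c'] at this
  linarith

theorem sphere_null {ν : Measure ℂ} {c : ℂ} {r : ℝ} (hν : ν (sphere c r)ᶜ = 0) :
    ν (ball c r) = 0 := by
  refine measure_mono_null ?_ hν
  intro x hx hxE
  rw [mem_ball] at hx
  rw [mem_sphere] at hxE
  linarith

theorem cstep (h1 : St_G1) (hD : St_G1D) (h3 : St_G3) (hR : St_ROS) (hM : St_MOD)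
    (hI : St_DISC) (hF : St_FE) (hT : St_T1) (hG : St_GEO1) (γ q : ℝ) (hq : 1 ≤ q) :
    ∃ C C' : ℝ, 0 ≤ C ∧ ∀ (M : Model) (T : Dy) (L k m : ℕ) (s : Finset Dy), 2 ≤ k → L ≤ m →
      closedBall (ctr T) (2 * side T) ⊆ M.O → s ⊆ lev k →
      (∀ A ∈ s, ∀ A' ∈ s, cls (A ++ T) = cls (A' ++ T)) →
      ∫⁻ ω, (∑ A ∈ s, (4⁻¹ : ℝ≥0∞) ^ k * EW M γ (A ++ T) L m ω) ^ q ∂gm ≤ ENNReal.ofReal C *
        (eE (γ ^ 2 * q * (q - 1) / 2 * (M.C0 + T.length * l2 + k * l2 + C')) +
          ∑ A ∈ s, ∫⁻ ω, ((4⁻¹ : ℝ≥0∞) ^ k * EW M γ (A ++ T) L m ω) ^ q ∂gm) := by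
  obtain ⟨C, hC0, hC⟩ := step h1 hD h3 hR γ q hq
  obtain ⟨D, hD0, hb, hd, -⟩ := hI
  refine ⟨C, (D / 2) ^ 2, hC0, ?_⟩
  intro M T L k m s hk hL hO hs hcl
  have hT0 := (hG.1 T).1
  set ρ : ℝ := (1 / 2 : ℝ) ^ k * side T with hρ
  have hρ0 : 0 < ρ := by positivity
  have hρ1 : 4 * ρ ≤ side T := by
    have : (1 / 2 : ℝ) ^ k ≤ (1 / 2) ^ 2 := pow_le_pow_of_le_one (by norm_num) (by norm_num) hk
    rw [hρ]
    nlinarith
  have hlen : ∀ j : s, (j : Dy).length = k := fun j => (hT.1 _ _).1 (hs j.2)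
  have hlen' : ∀ i : lev m, (i : Dy).length = m := fun i => (hT.1 _ _).1 i.2
  have hside : ∀ j : s, side (j ++ T) = ρ := fun j => by rw [side_app, hlen]
  let c : s → ℂ := fun j => ctr (j ++ T)
  let μ : s → lev m → Measure ℂ := fun j i =>
    circ (ctr (i ++ (j ++ T))) (2 ^ L * side (i ++ (j ++ T)))
  have hr : ∀ A : Dy, 0 < 2 ^ L * side A := fun A => by have := (hG.1 A).1; positivity
  have hμ : ∀ j i, PFE (μ j i) := fun j i => (hF.2.2.2.2.2.2.2.2.1 _ _ (hr _)).1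
  have hμs : ∀ j i, μ j i (closedBall (c j) (4 * ρ / 2))ᶜ = 0 := by
    intro j i
    refine measure_mono_null (compl_subset_compl.2 ?_) (hF.2.2.2.2.2.2.2.2.1 _ _ (hr _)).2.1
    refine sphere_subset_closedBall.trans ?_
    have e : 4 * ρ / 2 = 2 * side (j ++ T) := by rw [hside]; ring
    rw [e]
    apply ball_sub hG
    have := rad_le hG (L := L) (S := i) (j ++ T) (by rw [hlen']; exact hL)
    have := (hG.1 (j ++ T)).1
    linarith
  have hcO : ∀ j, closedBall (c j) (4 * ρ) ⊆ M.O := fun j =>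
    (ball_sub hG j T (by linarith)).trans hO
  have hbal := fun j i => hb (c j) (4 * ρ) (μ j i) (by linarith) (hμ j i) (hμs j i)
  have hdd := fun j i => hd M (c j) (4 * ρ) (μ j i) (by linarith) (hcO j) (hμ j i) (hμs j i)
  have hsep : ∀ j j' : s, j ≠ j' → 2 * (4 * ρ) ≤ ‖c j - c j'‖ := by
    intro j j' hne
    have := sep hG (A := j ++ T) (A' := j' ++ T) (by simp [hlen])
      (fun h => hne (Subtype.ext (List.append_cancel_right h))) (hcl _ j.2 _ j'.2)
    rw [hside] at this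
    linarith
  let h : s → lev m → HH := fun j i => M.e (bal (c j) (4 * ρ) (μ j i))
  let g : s → lev m → HH := fun j i => M.gv (c j) (4 * ρ) (μ j i)
  have hgh : ∀ j i j' i', ⟪g j' i', h j i⟫ = 0 := by
    intro j i j' i'
    refine (hdd j' i').2.2.1 _ (hbal j i).1.1 ?_
    by_cases e : j' = j
    · subst e
      exact sphere_null (hbal j' i).2
    · exact ball_null (hbal j i).2 sphere_subset_closedBall (hsep _ _ e)
  have hgg : ∀ j j', j ≠ j' → ∀ i i', ⟪g j i, g j' i'⟫ = 0 := by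
    intro j j' e i i'
    have a1 : ⟪g j i, M.e (μ j' i')⟫ = 0 :=
      (hdd j i).2.2.1 _ (hμ j' i').1
        (ball_null (hμs j' i') (closedBall_subset_closedBall (by linarith)) (hsep _ _ e))
    have a2 := hgh j' i' j i
    change ⟪g j i, M.e (μ j' i') - h j' i'⟫ = 0
    rw [inner_sub_right, a1, a2, sub_zero]
  have hh : ∀ j i, ‖h j i‖ ^ 2 ≤ M.C0 + T.length * l2 + k * l2 + (D / 2) ^ 2 := by
    intro j i
    have e : h j i = M.qv (c j) (4 * ρ) (μ j i) + M.eC (c j) (4 * ρ) := by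
      simp [h, Model.qv]
    have a1 := (hdd j i).2.2.2.1 (4 * ρ / 2) (by linarith) (hμs j i)
    have a2 : D * (4 * ρ / 2) / (4 * ρ) = D / 2 := by field_simp
    rw [a2] at a1
    have a3 := pow_le_pow_left₀ (norm_nonneg _) a1 2
    have a4 := log_side (j ++ T)
    rw [hside, List.length_append, hlen] at a4
    rw [e, norm_add_sq_real, (hdd j i).2.1, norm_eC hM M _ _ (by linarith) (hcO j),
      Real.log_mul (by norm_num) hρ0.ne', a4]
    have : 0 ≤ Real.log 4 := Real.log_nonneg (by norm_num)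
    push_cast
    linarith
  have hn : (Fintype.card s * Fintype.card (lev m) : ℕ) *
      ((4⁻¹ : ℝ≥0∞) ^ k * (4⁻¹ : ℝ≥0∞) ^ m) ≤ 1 := by
    rw [Fintype.card_coe, Fintype.card_coe, hT.2.1]
    have a1 : s.card ≤ 4 ^ k := (hT.2.1 k) ▸ Finset.card_le_card hs
    calc _ ≤ ((4 ^ k * 4 ^ m : ℕ) : ℝ≥0∞) * ((4⁻¹ : ℝ≥0∞) ^ k * (4⁻¹ : ℝ≥0∞) ^ m) := by gcongr
      _ = (4 * 4⁻¹) ^ k * (4 * 4⁻¹) ^ m := by push_cast; rw [mul_pow, mul_pow]; ring
      _ = 1 := by rw [ENNReal.mul_inv_cancel (by norm_num) (by norm_num), one_pow, one_pow, one_mul]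
  have key := hC s (lev m) _ _ h g hn (fun j i j' i' => by rw [real_inner_comm]; exact hgh _ _ _ _)
    hgg hh
  have e1 : ∀ (j : s) ω, ∑ i, (4⁻¹ : ℝ≥0∞) ^ k * (4⁻¹ : ℝ≥0∞) ^ m * ew γ (h j i + g j i) ω =
      (4⁻¹ : ℝ≥0∞) ^ k * EW M γ (j ++ T) L m ω := by
    intro j ω
    unfold EW
    rw [← Finset.sum_coe_sort (lev m), Finset.mul_sum]
    refine Finset.sum_congr rfl fun i _ => ?_
    have : h j i + g j i = vv M L (i ++ (j ++ T)) := by
      simp [h, g, Model.gv, vv, Model.eC, μ]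
    rw [this, mul_assoc]
  simp_rw [e1] at key
  rw [Finset.sum_coe_sort s fun A => ∫⁻ ω, ((4⁻¹ : ℝ≥0∞) ^ k * EW M γ (A ++ T) L m ω) ^ q ∂gm] at key
  refine le_trans (le_of_eq ?_) key
  congr 1
  funext ω
  rw [Finset.sum_coe_sort s fun A => (4⁻¹ : ℝ≥0∞) ^ k * EW M γ (A ++ T) L m ω]

theorem meas_EW (M : Model) (γ : ℝ) (T : Dy) (L l : ℕ) : Measurable (EW M γ T L l) :=
  Finset.measurable_sum _ fun _ _ => (meas_ew _ _).const_mul _

theorem eE_l2 : eE l2 = 2 := by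
  unfold eE l2
  rw [Real.exp_log (by norm_num)]
  norm_num

theorem eE_nat (t : ℝ) (n : ℕ) : eE (n * t) = eE t ^ n := by
  unfold eE
  rw [Real.exp_nat_mul, ENNReal.ofReal_pow (Real.exp_pos _).le]

theorem four_eq : (4 : ℝ≥0∞) = eE (2 * l2) := by
  have := eE_nat l2 2
  rw [eE_l2] at this
  push_cast at this
  rw [this]
  norm_num

theorem e64 : (64 : ℝ≥0∞) = eE (6 * l2) := by
  have := eE_nat l2 6
  rw [eE_l2] at this
  push_cast at this
  rw [this]
  norm_num

theorem inv_four : (4⁻¹ : ℝ≥0∞) = eE (-(2 * l2)) := by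
  symm
  apply ENNReal.eq_inv_of_mul_eq_one_left
  rw [four_eq, ← eE_add]
  simp [eE]

theorem EW_split (hT : St_T1) (M : Model) (γ : ℝ) (T : Dy) (L m k : ℕ) (ω : Om) :
    EW M γ T L (m + k) ω = ∑ c : ZMod 8 × ZMod 8,
      ∑ A ∈ (lev k).filter (fun A => cls (A ++ T) = c),
        (4⁻¹ : ℝ≥0∞) ^ k * EW M γ (A ++ T) L m ω := by
  rw [Finset.sum_fiberwise (lev k) (fun A => cls (A ++ T))]
  unfold EW
  rw [sum_lev hT]
  refine Finset.sum_congr rfl fun A _ => ?_
  rw [Finset.mul_sum]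
  refine Finset.sum_congr rfl fun S _ => ?_
  rw [List.append_assoc, pow_add]
  ring

theorem main (h1 : St_G1) (hD : St_G1D) (h3 : St_G3) (hR : St_ROS) (hM : St_MOD)
    (hI : St_DISC) (hF : St_FE) (hT : St_T1) (hG : St_GEO1) (γ q : ℝ) (hq : 1 < q)
    (hγ : γ ^ 2 * q < 4) (L : ℕ) : ∃ κ : ℝ, ∀ l, L ≤ l → ∀ (M : Model) (T : Dy),
      closedBall (ctr T) (2 * side T) ⊆ M.O →
      ∫⁻ ω, EW M γ T L l ω ^ q ∂gm ≤
        eE (κ + γ ^ 2 * q * (q - 1) / 2 * (M.C0 + T.length * l2)) := by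
  obtain ⟨C, C', hC0, hC⟩ := cstep h1 hD h3 hR hM hI hF hT hG γ q hq.le
  set β := γ ^ 2 * q * (q - 1) / 2 with hβ
  have hq0 : 0 ≤ q := by linarith
  have hq1 : 0 < q - 1 := by linarith
  have hβ0 : 0 ≤ β := by positivity
  have hl2 := l2_pos
  have hδ : 0 < (2 * q - 2 - β) * l2 := by
    have : 2 * q - 2 - β = (q - 1) * (4 - γ ^ 2 * q) / 2 := by rw [hβ]; ring
    rw [this]
    have : 0 < 4 - γ ^ 2 * q := by linarith
    positivity
  obtain ⟨k0, hk0⟩ := exists_nat_ge ((C + 6 * l2 * (q - 1) + l2) / ((2 * q - 2 - β) * l2))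
  rw [div_le_iff₀ hδ] at hk0
  set k := k0 + 2 with hk
  have hkk : C + 6 * l2 * (q - 1) + l2 ≤ k * ((2 * q - 2 - β) * l2) := by
    rw [hk]
    push_cast
    nlinarith
  set κ := max (β * (k * l2)) (C + 6 * l2 * q + β * (k * l2 + C') + l2) with hκ
  refine ⟨κ, fun l => ?_⟩
  induction l using Nat.strong_induction_on with
  | _ l ih =>
  intro hl M T hO
  by_cases hlk : l < L + k
  · refine (base hD hM hT hG γ q hq.le L l hl M T hO).trans (eE_mono ?_)
    have a1 : (l - L : ℝ) ≤ k := by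
      have : (l : ℝ) ≤ L + k := by exact_mod_cast hlk.le
      linarith
    have a2 : β * ((l - L : ℝ) * l2) ≤ β * (k * l2) := by gcongr
    have a3 : β * (k * l2) ≤ κ := le_max_left _ _
    rw [← hβ]
    linarith
  · obtain ⟨m, rfl⟩ : ∃ m, l = m + k := ⟨l - k, by omega⟩
    have hm : L ≤ m := by omega
    set X := β * (M.C0 + T.length * l2) with hX
    have hT0 := (hG.1 T).1
    have b1 : ∀ A ∈ lev k, ∫⁻ ω, ((4⁻¹ : ℝ≥0∞) ^ k * EW M γ (A ++ T) L m ω) ^ q ∂gm ≤
        eE (κ + X + k * ((β - 2 * q) * l2)) := by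
      intro A hA
      rw [hT.1] at hA
      have hO' : closedBall (ctr (A ++ T)) (2 * side (A ++ T)) ⊆ M.O := by
        refine (ball_sub hG A T ?_).trans hO
        rw [side_app, hA]
        have : (1 / 2 : ℝ) ^ k ≤ (1 / 2) ^ 2 :=
          pow_le_pow_of_le_one (by norm_num) (by norm_num) (by omega)
        nlinarith
      have := ih m (by omega) hm M (A ++ T) hO'
      simp_rw [ENNReal.mul_rpow_of_nonneg _ _ hq0]
      rw [lintegral_const_mul _ ((meas_EW _ _ _ _ _).pow_const _)]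
      refine (mul_le_mul_right this _).trans (le_of_eq ?_)
      rw [inv_four, ← eE_nat, eE_rpow _ _ hq0, ← eE_add, List.length_append, hA]
      congr 1
      rw [hX]
      push_cast
      ring
    have mc : ∀ c : ZMod 8 × ZMod 8, Measurable fun ω =>
        (∑ A ∈ (lev k).filter (fun A => cls (A ++ T) = c),
          (4⁻¹ : ℝ≥0∞) ^ k * EW M γ (A ++ T) L m ω) ^ q := fun c =>
      (Finset.measurable_sum _ fun _ _ => (meas_EW _ _ _ _ _).const_mul _).pow_const _
    have hcard : ((Finset.univ : Finset (ZMod 8 × ZMod 8)).card : ℝ≥0∞) = 64 := by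
      rw [Finset.card_univ, Fintype.card_prod, ZMod.card]
      norm_num
    have hCe : ENNReal.ofReal C ≤ eE C :=
      ENNReal.ofReal_le_ofReal (by linarith [Real.add_one_le_exp C])
    calc ∫⁻ ω, EW M γ T L (m + k) ω ^ q ∂gm
        ≤ ∫⁻ ω, (64 : ℝ≥0∞) ^ (q - 1) * ∑ c : ZMod 8 × ZMod 8,
          (∑ A ∈ (lev k).filter (fun A => cls (A ++ T) = c),
            (4⁻¹ : ℝ≥0∞) ^ k * EW M γ (A ++ T) L m ω) ^ q ∂gm := by
          refine lintegral_mono fun ω => ?_
          rw [EW_split hT, ← hcard]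
          exact ENNReal.rpow_sum_le_const_mul_sum_rpow _ _ hq.le
      _ = (64 : ℝ≥0∞) ^ (q - 1) * ∑ c : ZMod 8 × ZMod 8,
          ∫⁻ ω, (∑ A ∈ (lev k).filter (fun A => cls (A ++ T) = c),
            (4⁻¹ : ℝ≥0∞) ^ k * EW M γ (A ++ T) L m ω) ^ q ∂gm := by
          rw [lintegral_const_mul _ (Finset.measurable_sum _ fun c _ => mc c),
            lintegral_finsetSum _ fun c _ => mc c]
      _ ≤ (64 : ℝ≥0∞) ^ (q - 1) * ∑ c : ZMod 8 × ZMod 8, eE C *
          (eE (X + β * (k * l2 + C')) + ∑ A ∈ (lev k).filter (fun A => cls (A ++ T) = c),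
            eE (κ + X + k * ((β - 2 * q) * l2))) := by
          gcongr with c
          refine (hC M T L k m _ (by omega) hm hO (Finset.filter_subset _ _) ?_).trans ?_
          · intro A hA A' hA'
            rw [(Finset.mem_filter.1 hA).2, (Finset.mem_filter.1 hA').2]
          · gcongr with A hA
            · refine eE_mono (le_of_eq ?_)
              rw [hX]
              ring
            · exact b1 A (Finset.mem_filter.1 hA).1
      _ = eE (C + 6 * l2 * q + β * (k * l2 + C') + X) +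
          eE (κ + X + (C + 6 * l2 * (q - 1) - k * ((2 * q - 2 - β) * l2))) := by
          rw [← Finset.mul_sum, Finset.sum_add_distrib,
            Finset.sum_fiberwise (lev k) (fun A => cls (A ++ T)), Finset.sum_const,
            Finset.sum_const, nsmul_eq_mul, nsmul_eq_mul, hcard, hT.2.1]
          push_cast
          rw [four_eq, ← eE_nat, e64, eE_rpow _ _ hq1.le, mul_add, mul_add]
          simp only [← eE_add]
          congr 2 <;> ring
      _ ≤ eE (κ + X - l2) + eE (κ + X - l2) := by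
          have a3 : C + 6 * l2 * q + β * (k * l2 + C') + l2 ≤ κ := le_max_right _ _
          gcongr <;> apply eE_mono <;> linarith
      _ = eE (κ + X) := by
          rw [← two_mul, ← eE_l2, ← eE_add]
          congr 1
          ring

end MBW

theorem blk_MBW (h1 : St_G1) (hD : St_G1D) (h3 : St_G3) (hR : St_ROS) (hM : St_MOD)
    (hI : St_DISC) (hF : St_FE) (_hE : St_EXP1) (hT : St_T1) (hG : St_GEO1) : St_MBW := by
  intro γ hγ q hq hq4 L
  have h4 : γ ^ 2 * q < 4 := by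
    have : 0 < γ ^ 2 := pow_pos hγ.1 2
    rw [lt_div_iff₀ this] at hq4
    linarith
  rcases eq_or_lt_of_le hq with rfl | hq1
  · refine ⟨1, fun M T l hl hO => ?_⟩
    simp_rw [MBW.EW_eq]
    refine (MBW.base hD hM hT hG γ 1 le_rfl L l hl M T hO).trans (le_of_eq ?_)
    simp [eE]
  · obtain ⟨κ, hκ⟩ := MBW.main h1 hD h3 hR hM hI hF hT hG γ q hq1 h4 L
    refine ⟨Real.exp κ, fun M T l hl hO => ?_⟩
    simp_rw [MBW.EW_eq]
    refine (hκ l hl M T hO).trans (le_of_eq ?_)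
    rw [← Real.exp_add]
    unfold eE
    congr 2
    ring

end

end Pool.Agent.Lib.APPS
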