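import Pool.Agent.Lib.APPS.Blue2
import Pool.Agent.Lib.APPS.B_MBW

/-!
Block LLM: the law of large numbers for spread out mollifiers.
-/

namespace Pool.Agent.Lib.APPS

open MeasureTheory ProbabilityTheory Filter Topology Set Metric
open scoped NNReal ENNReal RealInnerProductSpace Classical

noncomputable section

theorem llm_pos (γ : ℝ) (v : HH) (ω : Om) : 0 < Wk γ v ω := Real.exp_pos _

theorem llm_meas (γ : ℝ) (v : HH) : Measurable (Wk γ v) :=
  Real.measurable_exp.comp (((meas_ev v).const_mul γ).sub_const _)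

theorem llm_ofReal_sum {I : Type} (s : Finset I) (γ : ℝ) (a : I → ℝ) (ha : ∀ i, 0 ≤ a i)
    (v : I → HH) (ω : Om) :
    ∑ i ∈ s, ENNReal.ofReal (a i) * MBW.ew γ (v i) ω =
      ENNReal.ofReal (∑ i ∈ s, a i * Wk γ (v i) ω) := by
  rw [ENNReal.ofReal_sum_of_nonneg fun i _ => mul_nonneg (ha i) (llm_pos _ _ _).le]
  refine Finset.sum_congr rfl fun i _ => ?_
  rw [ENNReal.ofReal_mul (ha i)]
  rfl

/-- fluctuation bound inside one class of well separated groups -/
theorem llm_fluct (h1 : St_G1) (hD : St_G1D) (h3 : St_G3) (hR : St_ROS) (γ q : ℝ) (hq : 1 < q)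
    (hq2 : q ≤ 2) {I K : Type} [Fintype I] [DecidableEq K] (s : Finset K) (κ : I → K) (a : I → ℝ)
    (h g : I → HH) (ha : ∀ i, 0 ≤ a i) (hhg : ∀ i k, κ i ∈ s → κ k ∈ s → ⟪h i, g k⟫ = 0)
    (hgg : ∀ i k, κ i ∈ s → κ k ∈ s → κ i ≠ κ k → ⟪g i, g k⟫ = 0) :
    ∫⁻ ω, ENNReal.ofReal |∑ j ∈ s, ∑ i ∈ Finset.univ.filter (fun i => κ i = j),
        a i * (Wk γ (h i + g i) ω - Wk γ (h i) ω)| ∂gm ≤
      3 * (∑ j ∈ s, ∫⁻ ω, ENNReal.ofReal (∑ i ∈ Finset.univ.filter (fun i => κ i = j),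
        a i * Wk γ (h i + g i) ω) ^ q ∂gm) ^ (1 / q) := by
  obtain ⟨C, hC⟩ := hR q hq.le
  have : IsProbabilityMeasure gm := h1.1
  let h' : I → HH := fun i => if κ i ∈ s then h i else 0
  let g' : s → I → HH := fun j i => if κ i = j then g i else 0
  let Z0 : Om → (I → ℝ) := fun ω i => ω (h' i)
  let Z : s → Om → (I → ℝ) := fun j ω i => ω (g' j i)
  let f : s → (I → ℝ) × (I → ℝ) → ℝ≥0∞ := fun j p =>
    ∑ i ∈ Finset.univ.filter (fun i => κ i = j), ENNReal.ofReal (a i) *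
      (eE (γ * p.1 i - γ ^ 2 * ‖h i‖ ^ 2 / 2) * eE (γ * p.2 i - γ ^ 2 * ‖g i‖ ^ 2 / 2))
  have mZ0 : Measurable Z0 := measurable_pi_lambda _ fun p => meas_ev _
  have mZ : ∀ j, Measurable (Z j) := fun j => measurable_pi_lambda _ fun p => meas_ev _
  have mf : ∀ j, Measurable (f j) := by
    intro j
    refine Finset.measurable_sum _ fun i _ => Measurable.const_mul ?_ _
    refine Measurable.mul (MBW.meas_eE.comp ?_) (MBW.meas_eE.comp ?_) <;> fun_prop
  have o1 : ∀ i (p : s × I), ⟪h' i, g' p.1 p.2⟫ = 0 := by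
    intro i p
    simp only [h', g']
    split_ifs with c1 c2
    · exact hhg _ _ c1 (c2 ▸ p.1.2)
    · exact inner_zero_right _
    · exact inner_zero_left _
    · exact inner_zero_left _
  have o2 : ∀ j j' : s, j ≠ j' → ∀ i k, ⟪g' j i, g' j' k⟫ = 0 := by
    intro j j' hne i k
    simp only [g']
    split_ifs with c1 c2
    · refine hgg _ _ (c1 ▸ j.2) (c2 ▸ j'.2) ?_
      rw [c1, c2]
      exact fun e => hne (Subtype.ext e)
    · exact inner_zero_right _
    · exact inner_zero_left _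
    · exact inner_zero_left _
  have i0 : IndepFun Z0 (fun ω j => Z j ω) gm := by
    have := h3.2.2.2.2.1 I (s × I) h' (fun p => g' p.1 p.2) o1
    exact this.comp measurable_id
      (show Measurable fun (x : s × I → ℝ) (j : s) (i : I) => x (j, i) by fun_prop)
  have i1 : iIndepFun Z gm := h3.2.2.2.2.2.1 s (fun _ => I) g' o2
  have key := (hC Om (I → ℝ) (I → ℝ) s gm Z0 Z f mZ0 mZ mf i0 i1).2 hq hq2
  have e1 : ∀ (j : s) ω, f j (Z0 ω, Z j ω) = ENNReal.ofReal
      (∑ i ∈ Finset.univ.filter (fun i => κ i = j), a i * Wk γ (h i + g i) ω) := by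
    intro j ω
    rw [← llm_ofReal_sum _ γ a ha]
    refine Finset.sum_congr rfl fun i hi => ?_
    have c1 : κ i = j := (Finset.mem_filter.1 hi).2
    have c2 : κ i ∈ s := c1 ▸ j.2
    rw [MBW.ew_add γ _ _ (hhg _ _ c2 c2)]
    simp only [Z0, Z, h', g', if_pos c1, if_pos c2]
  have e2 : ∀ (j : s) ω, ∫⁻ b, f j (Z0 ω, b) ∂gm.map (Z j) = ENNReal.ofReal
      (∑ i ∈ Finset.univ.filter (fun i => κ i = j), a i * Wk γ (h i) ω) := by
    intro j ω
    have mm : Measurable fun b => f j (Z0 ω, b) := (mf j).comp measurable_prodMk_left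
    rw [lintegral_map mm (mZ j), ← llm_ofReal_sum _ γ a ha]
    have e : ∀ ω', f j (Z0 ω, Z j ω') = ∑ i ∈ Finset.univ.filter (fun i => κ i = j),
        ENNReal.ofReal (a i) * (MBW.ew γ (h i) ω * MBW.ew γ (g i) ω') := by
      intro ω'
      refine Finset.sum_congr rfl fun i hi => ?_
      have c1 : κ i = j := (Finset.mem_filter.1 hi).2
      have c2 : κ i ∈ s := c1 ▸ j.2
      simp only [Z0, Z, h', g', if_pos c1, if_pos c2, MBW.ew_eq]
    simp_rw [e]
    rw [lintegral_finsetSum]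
    · refine Finset.sum_congr rfl fun i _ => ?_
      rw [lintegral_const_mul _ ((MBW.meas_ew _ _).const_mul _),
        lintegral_const_mul _ (MBW.meas_ew _ _)]
      have := hD.2.2.2.2.2.1 γ (g i)
      unfold MBW.ew at *
      rw [this, mul_one]
    · intro i _
      exact ((MBW.meas_ew _ _).const_mul _).const_mul _
  have nn : ∀ (j : K) (v : I → HH) ω,
      0 ≤ ∑ i ∈ Finset.univ.filter (fun i => κ i = j), a i * Wk γ (v i) ω :=
    fun j v ω => Finset.sum_nonneg fun i _ => mul_nonneg (ha i) (llm_pos _ _ _).le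
  simp_rw [e1, e2] at key
  rw [Finset.sum_coe_sort s fun j => ∫⁻ ω, ENNReal.ofReal
    (∑ i ∈ Finset.univ.filter (fun i => κ i = j), a i * Wk γ (h i + g i) ω) ^ q ∂gm] at key
  refine le_trans (le_of_eq ?_) key
  congr 1
  funext ω
  rw [← Finset.sum_coe_sort s]
  congr 2
  refine Finset.sum_congr rfl fun j _ => ?_
  rw [ENNReal.toReal_ofReal (nn j (fun i => h i + g i) ω), ENNReal.toReal_ofReal (nn j h ω),
    ← Finset.sum_sub_distrib]
  refine Finset.sum_congr rfl fun i _ => ?_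
  ring

def llm_cl (N : ℕ) (A : Dy) : ℤ × ℤ := ((gi A).1 % N, (gi A).2 % N)

theorem llm_far {N : ℕ} {a b : ℤ} (h : a % N = b % N) (hne : a ≠ b) :
    (N : ℝ) ≤ |(a : ℝ) - b| := by
  have h1 : (N : ℤ) ∣ a - b := (Int.emod_eq_emod_iff_emod_sub_eq_zero.1 h |> Int.dvd_of_emod_eq_zero)
  have h2 : (N : ℤ) ≤ |a - b| := Int.le_of_dvd (abs_pos.2 (sub_ne_zero.2 hne)) ((dvd_abs _ _).2 h1)
  exact_mod_cast h2

theorem llm_sep (hG : St_GEO1) (N : ℕ) {A A' : Dy} (hl : A.length = A'.length) (hne : A ≠ A')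
    (hc : llm_cl N A = llm_cl N A') : N * side A ≤ ‖ctr A - ctr A'‖ := by
  have hs : side A' = side A := by unfold side; rw [hl]
  have h9 := hG.2.2.2.2.2.2.2.2.1
  have hgi : gi A ≠ gi A' := by
    intro h
    obtain ⟨S, _, hS⟩ := hG.2.2.2.2.2.2.2.2.2.1 A.length (gi A) (h9 A).2
    exact hne ((hS A ⟨rfl, rfl⟩).trans (hS A' ⟨hl.symm, h.symm⟩).symm)
  have e : ctr A - ctr A' = (side A : ℂ) * (zc (gi A) - zc (gi A')) := by
    unfold ctr
    rw [(h9 A).1, (h9 A').1, hs]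
    ring
  have h0 := (hG.1 A).1
  rw [e, norm_mul, Complex.norm_real, Real.norm_eq_abs, abs_of_pos h0, mul_comm]
  refine mul_le_mul_of_nonneg_left ?_ h0.le
  unfold llm_cl at hc
  rw [Prod.mk.injEq] at hc
  by_cases h1 : (gi A).1 = (gi A').1
  · have h2 : (gi A).2 ≠ (gi A').2 := fun h2 => hgi (Prod.ext h1 h2)
    refine (llm_far hc.2 h2).trans (le_trans (le_of_eq ?_) (Complex.abs_im_le_norm _))
    simp [zc]
  · refine (llm_far hc.1 h1).trans (le_trans (le_of_eq ?_) (Complex.abs_re_le_norm _))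
    simp [zc]

theorem llm_cl_mem {N : ℕ} (hN : 0 < N) (A : Dy) :
    llm_cl N A ∈ Finset.Ico (0 : ℤ) N ×ˢ Finset.Ico (0 : ℤ) N := by
  have hN' : (0 : ℤ) < N := by exact_mod_cast hN
  unfold llm_cl
  simp only [Finset.mem_product, Finset.mem_Ico]
  exact ⟨⟨Int.emod_nonneg _ hN'.ne', Int.emod_lt_of_pos _ hN'⟩,
    Int.emod_nonneg _ hN'.ne', Int.emod_lt_of_pos _ hN'⟩

theorem llm_take (l : ℕ) (S : Dy) : S.take (S.length - l) ++ anc l S = S :=
  List.take_append_drop _ _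

/-- restriction of a spread out family to a subsquare -/
theorem llm_sub {I : Type} [Fintype I] {T : Dy} {Λ : ℝ} {l l' : ℕ} {a : I → ℝ} {τ : I → Dy}
    {ν : I → Measure ℂ} (h : Spread T Λ l' a τ ν) (hl : l ≤ l') (A : Dy) :
    Spread (I := {i // anc l (τ i) = A}) (A ++ T) Λ (l' - l) (fun i => 4 ^ l * a i)
      (fun i => (τ i).take (l' - l)) (fun i => ν i) := by
  have e : ∀ i : {i // anc l (τ i) = A}, (τ i).take (l' - l) ++ A = τ i := by
    intro i
    have := llm_take l (τ i)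
    rwa [h.len, i.2] at this
  have e' : ∀ i : {i // anc l (τ i) = A}, (τ i).take (l' - l) ++ (A ++ T) = τ i ++ T := by
    intro i
    rw [← List.append_assoc, e]
  refine ⟨fun i => mul_nonneg (by positivity) (h.nonneg i), fun i => ?_, fun i => h.pfe i,
    fun i => ?_, fun i => ?_, fun S => ?_⟩
  · rw [List.length_take, h.len]
    omega
  · rw [e']
    exact h.supp i
  · rw [e']
    exact h.energy i
  · have h1 := h.spread (S ++ A)
    have h2 : ∑ i ∈ Finset.univ.filter (fun i : {i // anc l (τ i) = A} => (τ i).take (l' - l) = S),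
        a i ≤ ∑ i ∈ Finset.univ.filter (fun i => τ i = S ++ A), a i := by
      refine le_trans (le_of_eq (Finset.sum_map _ (Function.Embedding.subtype _) a).symm) ?_
      refine Finset.sum_le_sum_of_subset_of_nonneg ?_ fun i _ _ => h.nonneg i
      intro i hi
      rw [Finset.mem_map] at hi
      obtain ⟨k, hk, rfl⟩ := hi
      rw [Finset.mem_filter] at hk ⊢
      refine ⟨Finset.mem_univ _, ?_⟩
      rw [← hk.2]
      exact (e k).symm
    rw [← Finset.mul_sum]
    have h3 : (4 : ℝ) ^ l * (1 / 4) ^ l' = (1 / 4) ^ (l' - l) := by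
      obtain ⟨m, rfl⟩ := Nat.exists_eq_add_of_le hl
      rw [Nat.add_sub_cancel_left, pow_add, ← mul_assoc, ← mul_pow]
      norm_num
    calc (4 : ℝ) ^ l * _ ≤ 4 ^ l * (Λ * (1 / 4) ^ l') :=
          mul_le_mul_of_nonneg_left (h2.trans h1) (by positivity)
      _ = Λ * (1 / 4) ^ (l' - l) := by rw [← h3]; ring

theorem llm_total (hT : St_T1) {I : Type} [Fintype I] {T : Dy} {Λ : ℝ} {l' : ℕ} {a : I → ℝ}
    {τ : I → Dy} {ν : I → Measure ℂ} (h : Spread T Λ l' a τ ν) : ∑ i, a i ≤ Λ := by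
  rw [← Finset.sum_fiberwise_of_maps_to (s := Finset.univ) (t := lev l') (g := τ)
    (fun i _ => (hT.1 l' (τ i)).2 (h.len i))]
  refine (Finset.sum_le_sum fun S _ => h.spread S).trans (le_of_eq ?_)
  rw [Finset.sum_const, hT.2.1, nsmul_eq_mul]
  push_cast
  rw [mul_left_comm, ← mul_pow]
  norm_num

/-- moment of one group -/
theorem llm_mom (hG : St_GEO1) (hM : St_MBM) (γ : ℝ) (hγ : γ ∈ Ioo (0 : ℝ) 2) (q Λ C : ℝ)
    (hq : 1 ≤ q) (hq4 : q < 4 / γ ^ 2) : ∃ K : ℝ, 0 ≤ K ∧ ∀ (l l' : ℕ), 2 ≤ l → l + 2 ≤ l' →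
      ∀ (M : Model) (T : Dy) (I : Type) [Fintype I] (a : I → ℝ) (τ : I → Dy) (ν : I → Measure ℂ),
      closedBall (ctr T) (2 * side T) ⊆ M.O → M.C0 + T.length * l2 ≤ C → Spread T Λ l' a τ ν →
      ∀ A : Dy, A.length = l →
      ∫⁻ ω, ENNReal.ofReal (∑ i ∈ Finset.univ.filter (fun i => anc l (τ i) = A),
        a i * Wk γ (M.e (ν i)) ω) ^ q ∂gm ≤
        ENNReal.ofReal (K * Real.exp ((γ ^ 2 * q * (q - 1) / 2 - 2 * q) * l2 * l)) := by
  obtain ⟨K, hK⟩ := hM γ hγ q Λ hq hq4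
  refine ⟨max K 0 * Real.exp (γ ^ 2 * q * (q - 1) * C / 2), by positivity, ?_⟩
  intro l l' hl hl' M T I _ a τ ν hO hC hS A hA
  have hT0 := (hG.1 T).1
  have hO' : closedBall (ctr (A ++ T)) (2 * side (A ++ T)) ⊆ M.O := by
    refine (MBW.ball_sub hG A T ?_).trans hO
    have := MBW.rad_le hG (L := 1) (S := A) T (by omega)
    rw [pow_one] at this
    linarith
  have key := hK M (A ++ T) (l' - l) {i // anc l (τ i) = A} _ _ _ (by omega) hO'
    (llm_sub hS (by omega) A)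
  have e : ∀ ω, ENNReal.ofReal (∑ i ∈ Finset.univ.filter (fun i => anc l (τ i) = A),
      a i * Wk γ (M.e (ν i)) ω) ^ q = eE (-(2 * q * l2 * l)) *
      ENNReal.ofReal (∑ i : {i // anc l (τ i) = A}, 4 ^ l * a i * Wk γ (M.e (ν i)) ω) ^ q := by
    intro ω
    have e1 : eE (-(2 * q * l2 * l)) = ENNReal.ofReal ((1 / 4) ^ l) ^ q := by
      rw [show -(2 * q * l2 * l) = (l : ℕ) * -(2 * l2) * q by ring,
        ← MBW.eE_rpow _ _ (by linarith), MBW.eE_nat, ← MBW.inv_four,
        ENNReal.ofReal_pow (by norm_num), one_div, ENNReal.ofReal_inv_of_pos (by norm_num)]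
      norm_num
    rw [e1, ← ENNReal.mul_rpow_of_nonneg _ _ (by linarith),
      ← ENNReal.ofReal_mul (by positivity)]
    congr 2
    rw [Finset.sum_subtype (p := fun i => anc l (τ i) = A) _ (by simp), Finset.mul_sum]
    refine Finset.sum_congr rfl fun i _ => ?_
    rw [← mul_assoc, ← mul_assoc, ← mul_pow]
    norm_num
  simp_rw [e]
  rw [lintegral_const_mul' _ _ (by unfold eE; exact ENNReal.ofReal_ne_top)]
  refine (mul_le_mul_right key _).trans ?_
  unfold eE
  rw [← ENNReal.ofReal_mul (Real.exp_pos _).le]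
  refine ENNReal.ofReal_le_ofReal ?_
  have hb : 0 ≤ γ ^ 2 * q * (q - 1) := by
    have : 0 ≤ q - 1 := by linarith
    positivity
  have e2 : ((A ++ T).length : ℝ) = l + T.length := by
    rw [List.length_append, hA]
    push_cast
    ring
  rw [e2]
  calc Real.exp (-(2 * q * l2 * l)) *
        (K * Real.exp (γ ^ 2 * q * (q - 1) * (M.C0 + (l + T.length) * l2) / 2))
      ≤ Real.exp (-(2 * q * l2 * l)) *
        (max K 0 * Real.exp (γ ^ 2 * q * (q - 1) * (C + l * l2) / 2)) := by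
        have : M.C0 + (l + T.length) * l2 ≤ C + l * l2 := by linarith
        gcongr
        exact le_max_left _ _
    _ = _ := by
        rw [mul_left_comm, ← Real.exp_add, mul_assoc (max K 0), ← Real.exp_add]
        congr 2
        ring

/-- the main estimate for fixed parameters -/
theorem llm_main (h1 : St_G1) (hD : St_G1D) (h3 : St_G3) (h4 : St_G4) (hR : St_ROS)
    (hI : St_DISC) (hG : St_GEO1) (hT : St_T1) (γ q : ℝ) (hγ : 0 ≤ γ) (hq : 1 < q)
    (hq2 : q ≤ 2) : ∃ D : ℝ, 0 ≤ D ∧ ∀ (Λ : ℝ) (L l l' : ℕ), 2 ≤ L → L ≤ l → l + 2 ≤ l' →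
      ∀ (M : Model) (T : Dy) (I : Type) [Fintype I] (a : I → ℝ) (τ : I → Dy) (ν : I → Measure ℂ),
      closedBall (ctr T) (2 * side T) ⊆ M.O → Spread T Λ l' a τ ν → ∀ B : ℝ≥0∞,
      (∀ A : Dy, A.length = l →
        ∫⁻ ω, ENNReal.ofReal (∑ i ∈ Finset.univ.filter (fun i => anc l (τ i) = A),
          a i * Wk γ (M.e (ν i)) ω) ^ q ∂gm ≤ B) →
      ∫⁻ ω, ENNReal.ofReal |∑ i, a i * (Wk γ (M.e (ν i)) ω -
        Wk γ (M.eC (ctr (anc l (τ i) ++ T)) (2 ^ L * side (anc l (τ i) ++ T))) ω)| ∂gm ≤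
        (2 ^ (L + 1) * 2 ^ (L + 1) : ℕ) * (3 * ((4 ^ l : ℕ) * B) ^ (1 / q)) +
          ENNReal.ofReal (D / 2 ^ L * Λ) := by
  obtain ⟨D, hD0, hb, hd, -⟩ := hI
  refine ⟨2 * γ * (D * (5 / 4)), by positivity, ?_⟩
  intro Λ L l l' hL hl hl' M T I _ a τ ν hO hS B hB
  have hT0 := (hG.1 T).1
  set ρ : ℝ := (1 / 2 : ℝ) ^ l * side T with hρ
  have hρ0 : 0 < ρ := by positivity
  let κ : I → Dy := fun i => anc l (τ i)
  have hlen : ∀ i, (κ i).length = l := fun i => by
    rw [(hG.2.2.2.2.2.2.2.2.2.2.2.2.2.1 l (τ i)).2, hS.len]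
    omega
  have hside : ∀ i, side (κ i ++ T) = ρ := fun i => by rw [MBW.side_app, hlen]
  let c : I → ℂ := fun i => ctr (κ i ++ T)
  set r : ℝ := 2 ^ L * ρ with hr
  have h4L : (4 : ℝ) ≤ 2 ^ L := by
    calc (4 : ℝ) = 2 ^ 2 := by norm_num
      _ ≤ 2 ^ L := pow_le_pow_right₀ (by norm_num) hL
  have hr4 : 4 * ρ ≤ r := mul_le_mul_of_nonneg_right h4L hρ0.le
  have hr0 : 0 < r := by linarith
  have hsup : ∀ i, ν i (closedBall (c i) (5 / 4 * ρ))ᶜ = 0 := by
    intro i
    refine measure_mono_null (compl_subset_compl.2 ?_) (hS.supp i)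
    apply closedBall_subset_closedBall'
    have e : τ i ++ T = (τ i).take (l' - l) ++ (κ i ++ T) := by
      have := llm_take l (τ i)
      rw [hS.len] at this
      rw [← List.append_assoc, this]
    have a1 := MBW.ctr_near hG ((τ i).take (l' - l)) (κ i ++ T)
    have a2 := MBW.rad_le hG (L := 2) (S := (τ i).take (l' - l)) (κ i ++ T)
      (by rw [List.length_take, hS.len]; omega)
    rw [← e, hside] at a1 a2
    rw [dist_eq_norm]
    have a3 := (hG.1 (τ i ++ T)).1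
    norm_num at a2
    linarith
  have hsup' : ∀ i, ν i (closedBall (c i) (r / 2))ᶜ = 0 := fun i =>
    measure_mono_null (compl_subset_compl.2 (closedBall_subset_closedBall (by linarith))) (hsup i)
  have hcO : ∀ i, closedBall (c i) r ⊆ M.O := by
    intro i
    refine (MBW.ball_sub hG (κ i) T ?_).trans hO
    have := MBW.rad_le hG (L := L) (S := κ i) T (by rw [hlen]; exact hl)
    rw [hside] at this
    linarith
  have hbal := fun i => hb (c i) r (ν i) hr0 (hS.pfe i) (hsup' i)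
  have hdd := fun i => hd M (c i) r (ν i) hr0 (hcO i) (hS.pfe i) (hsup' i)
  let h : I → HH := fun i => M.e (bal (c i) r (ν i))
  let g : I → HH := fun i => M.gv (c i) r (ν i)
  have hhg : ∀ i, h i + g i = M.e (ν i) := fun i => by simp [h, g, Model.gv]
  set N : ℕ := 2 ^ (L + 1) with hN
  have hN0 : 0 < N := by positivity
  let cl : Dy → ℤ × ℤ := fun A => llm_cl N (A ++ T)
  let s : ℤ × ℤ → Finset Dy := fun z => (lev l).filter fun A => cl A = z
  have hsep : ∀ z i k, κ i ∈ s z → κ k ∈ s z → κ i ≠ κ k → 2 * r ≤ ‖c i - c k‖ := by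
    intro z i k hi hk hne
    have := llm_sep hG N (A := κ i ++ T) (A' := κ k ++ T) (by simp [hlen])
      (fun h => hne (List.append_cancel_right h))
      ((Finset.mem_filter.1 hi).2.trans (Finset.mem_filter.1 hk).2.symm)
    rw [hside, hN] at this
    push_cast at this
    rw [pow_succ] at this
    linarith
  have hgh : ∀ z i k, κ i ∈ s z → κ k ∈ s z → ⟪g k, h i⟫ = 0 := by
    intro z i k hi hk
    refine (hdd k).2.2.1 _ (hbal i).1.1 ?_
    by_cases e : κ k = κ i
    · have e' : c k = c i := by simp only [c, e]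
      rw [e']
      exact MBW.sphere_null (hbal i).2
    · exact MBW.ball_null (hbal i).2 sphere_subset_closedBall (hsep z _ _ hk hi e)
  have hgg : ∀ z i k, κ i ∈ s z → κ k ∈ s z → κ i ≠ κ k → ⟪g i, g k⟫ = 0 := by
    intro z i k hi hk e
    have a1 : ⟪g i, M.e (ν k)⟫ = 0 :=
      (hdd i).2.2.1 _ (hS.pfe k).1
        (MBW.ball_null (hsup' k) (closedBall_subset_closedBall (by linarith)) (hsep z _ _ hi hk e))
    have a2 := hgh z k i hk hi
    change ⟪g i, M.e (ν k) - h k⟫ = 0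
    rw [inner_sub_right, a1, a2, sub_zero]
  let X : ℤ × ℤ → Om → ℝ := fun z ω => ∑ j ∈ s z, ∑ i ∈ Finset.univ.filter (fun i => κ i = j),
    a i * (Wk γ (h i + g i) ω - Wk γ (h i) ω)
  have hX : ∀ z, ∫⁻ ω, ENNReal.ofReal |X z ω| ∂gm ≤ 3 * ((4 ^ l : ℕ) * B) ^ (1 / q) := by
    intro z
    refine (llm_fluct h1 hD h3 hR γ q hq hq2 (s z) κ a h g hS.nonneg
      (fun i k hi hk => by rw [real_inner_comm]; exact hgh z i k hi hk) (hgg z)).trans ?_
    have hq0 : 0 ≤ 1 / q := by positivity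
    gcongr
    simp_rw [hhg]
    calc _ ≤ ∑ _j ∈ s z, B := Finset.sum_le_sum fun j hj =>
          hB j ((hT.1 _ _).1 (Finset.mem_filter.1 hj).1)
      _ = (s z).card * B := by rw [Finset.sum_const, nsmul_eq_mul]
      _ ≤ _ := by
          gcongr
          rw [← hT.2.1]
          exact Finset.card_filter_le _ _
  have mX : ∀ z, Measurable fun ω => ENNReal.ofReal |X z ω| := by
    intro z
    refine ENNReal.measurable_ofReal.comp (Measurable.abs ?_)
    exact Finset.measurable_sum _ fun j _ => Finset.measurable_sum _ fun i _ =>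
      ((llm_meas _ _).sub (llm_meas _ _)).const_mul _
  let Y : I → Om → ℝ := fun i ω => Wk γ (h i) ω - Wk γ (M.eC (c i) r) ω
  have mY : ∀ i, Measurable fun ω => ENNReal.ofReal |Y i ω| := fun i =>
    ENNReal.measurable_ofReal.comp (Measurable.abs ((llm_meas _ _).sub (llm_meas _ _)))
  have hY : ∀ i, ∫⁻ ω, ENNReal.ofReal |Y i ω| ∂gm ≤
      ENNReal.ofReal (2 * γ * (D * (5 / 4)) / 2 ^ L) := by
    intro i
    refine (h4.2.2 γ _ _).trans (ENNReal.ofReal_le_ofReal ?_)
    have a1 := (hdd i).2.2.2.1 (5 / 4 * ρ) (by positivity) (hsup i)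
    have a2 : D * (5 / 4 * ρ) / r = D * (5 / 4) / 2 ^ L := by
      rw [hr]
      field_simp
    rw [a2] at a1
    rw [abs_of_nonneg hγ, mul_div_assoc]
    exact mul_le_mul_of_nonneg_left a1 (by positivity)
  set cs : Finset (ℤ × ℤ) := Finset.Ico (0 : ℤ) N ×ˢ Finset.Ico (0 : ℤ) N with hcs
  have hpt : ∀ ω, ENNReal.ofReal |∑ i, a i * (Wk γ (M.e (ν i)) ω -
      Wk γ (M.eC (ctr (anc l (τ i) ++ T)) (2 ^ L * side (anc l (τ i) ++ T))) ω)| ≤
      ∑ z ∈ cs, ENNReal.ofReal |X z ω| + ∑ i, ENNReal.ofReal (a i) * ENNReal.ofReal |Y i ω| := by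
    intro ω
    have e1 : ∑ z ∈ cs, X z ω = ∑ i, a i * (Wk γ (h i + g i) ω - Wk γ (h i) ω) := by
      rw [Finset.sum_fiberwise_of_maps_to (s := lev l) (t := cs) (g := cl)
        (fun A _ => llm_cl_mem hN0 _)]
      exact Finset.sum_fiberwise_of_maps_to (fun i _ => (hT.1 _ _).2 (hlen i)) _
    have e2 : ∑ i, a i * (Wk γ (M.e (ν i)) ω -
        Wk γ (M.eC (ctr (anc l (τ i) ++ T)) (2 ^ L * side (anc l (τ i) ++ T))) ω) =
        ∑ z ∈ cs, X z ω + ∑ i, a i * Y i ω := by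
      rw [e1, ← Finset.sum_add_distrib]
      refine Finset.sum_congr rfl fun i _ => ?_
      have := hside i
      simp only [κ] at this
      rw [hhg, this]
      simp only [Y, c, κ]
      ring
    have e3 : ∑ z ∈ cs, ENNReal.ofReal |X z ω| +
        ∑ i, ENNReal.ofReal (a i) * ENNReal.ofReal |Y i ω| =
        ENNReal.ofReal (∑ z ∈ cs, |X z ω| + ∑ i, a i * |Y i ω|) := by
      rw [ENNReal.ofReal_add (Finset.sum_nonneg fun _ _ => abs_nonneg _)
        (Finset.sum_nonneg fun i _ => mul_nonneg (hS.nonneg i) (abs_nonneg _)),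
        ENNReal.ofReal_sum_of_nonneg fun _ _ => abs_nonneg _,
        ENNReal.ofReal_sum_of_nonneg fun i _ => mul_nonneg (hS.nonneg i) (abs_nonneg _)]
      congr 1
      refine Finset.sum_congr rfl fun i _ => ?_
      rw [ENNReal.ofReal_mul (hS.nonneg i)]
    rw [e2, e3]
    refine ENNReal.ofReal_le_ofReal ((abs_add_le _ _).trans (add_le_add
      (Finset.abs_sum_le_sum_abs _ _) ((Finset.abs_sum_le_sum_abs _ _).trans (le_of_eq ?_))))
    refine Finset.sum_congr rfl fun i _ => ?_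
    rw [abs_mul, abs_of_nonneg (hS.nonneg i)]
  refine (lintegral_mono hpt).trans ?_
  rw [lintegral_add_left (Finset.measurable_sum _ fun z _ => mX z),
    lintegral_finsetSum _ fun z _ => mX z,
    lintegral_finsetSum _ fun i _ => (mY i).const_mul _]
  refine add_le_add ?_ ?_
  · refine (Finset.sum_le_sum fun z _ => hX z).trans (le_of_eq ?_)
    rw [Finset.sum_const, nsmul_eq_mul, hcs, Finset.card_product]
    simp
  · calc _ ≤ ∑ i, ENNReal.ofReal (2 * γ * (D * (5 / 4)) / 2 ^ L * a i) := by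
          refine Finset.sum_le_sum fun i _ => ?_
          rw [lintegral_const_mul _ (mY i), ENNReal.ofReal_mul (by positivity), mul_comm]
          gcongr
          exact hY i
      _ = ENNReal.ofReal (2 * γ * (D * (5 / 4)) / 2 ^ L * ∑ i, a i) := by
          rw [Finset.mul_sum, ENNReal.ofReal_sum_of_nonneg fun i _ =>
            mul_nonneg (by positivity) (hS.nonneg i)]
      _ ≤ _ := ENNReal.ofReal_le_ofReal
          (mul_le_mul_of_nonneg_left (llm_total hT hS) (by positivity))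

theorem blk_LLM (h1 : St_G1) (hD : St_G1D) (_h2 : St_G2) (h3 : St_G3) (h4 : St_G4)
    (hR : St_ROS) (_hM : St_MOD) (hI : St_DISC) (_hF : St_FE) (_hE : St_EXP1) (hG : St_GEO1)
    (hT : St_T1) (_hW : St_RW1) (hB : St_MBM) : St_LLM := by
  intro γ hγ Λ C η hη
  have hγ0 := hγ.1
  have hγ2 : γ ^ 2 < 4 := by nlinarith [hγ.2]
  have h14 : 1 < 4 / γ ^ 2 := by rw [lt_div_iff₀ (by positivity)]; linarith
  set q : ℝ := min 2 ((1 + 4 / γ ^ 2) / 2) with hqd
  have hq : 1 < q := lt_min (by norm_num) (by linarith)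
  have hq2 : q ≤ 2 := min_le_left _ _
  have hq4 : q < 4 / γ ^ 2 := (min_le_right _ _).trans_lt (by linarith)
  obtain ⟨K, hK0, hK⟩ := llm_mom hG hB γ hγ q Λ C hq.le hq4
  obtain ⟨D, hD0, hmain⟩ := llm_main h1 hD h3 h4 hR hI hG hT γ q hγ0.le hq hq2
  have t1 : Tendsto (fun L : ℕ => D / 2 ^ L * Λ) atTop (𝓝 0) := by
    have := (tendsto_pow_atTop_atTop_of_one_lt (one_lt_two (α := ℝ))).const_div_atTop D
    simpa using this.mul_const Λ
  obtain ⟨L1, hL1⟩ := eventually_atTop.1 (t1.eventually (ge_mem_nhds (half_pos hη)))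
  refine ⟨max L1 2, fun L hL => ?_⟩
  set c : ℝ := (γ ^ 2 * q * (q - 1) / 2 - 2 * q + 2) * l2 with hc
  have hc0 : c < 0 := by
    refine mul_neg_of_neg_of_pos ?_ MBW.l2_pos
    have a1 : γ ^ 2 * q < 4 := by
      rw [lt_div_iff₀ (by positivity)] at hq4
      linarith
    nlinarith
  set N : ℕ := 2 ^ (L + 1) * 2 ^ (L + 1) with hN
  have hN0 : (0 : ℝ) < N := by rw [hN]; positivity
  set δ : ℝ := η / 2 / (N * 3) with hδ
  have hδ0 : 0 < δ := by positivity
  have t2 : Tendsto (fun l : ℕ => K * Real.exp (c * l)) atTop (𝓝 0) := by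
    have := Real.tendsto_exp_atBot.comp
      ((tendsto_natCast_atTop_atTop (R := ℝ)).const_mul_atTop_of_neg hc0)
    simpa using this.const_mul K
  obtain ⟨l1, hl1⟩ := eventually_atTop.1
    (t2.eventually (ge_mem_nhds (Real.rpow_pos_of_pos hδ0 q)))
  refine ⟨max l1 L, le_max_right _ _, fun l hl l' hl' M T I _ a τ ν hO hC hS => ?_⟩
  have hL2 : 2 ≤ L := (le_max_right _ _).trans hL
  have hlL : L ≤ l := (le_max_right _ _).trans hl
  refine (hmain Λ L l l' hL2 hlL hl' M T I a τ ν hO hS _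
    (hK l l' (by omega) hl' M T I a τ ν hO hC hS)).trans ?_
  have e1 : ((4 ^ l : ℕ) : ℝ≥0∞) *
      ENNReal.ofReal (K * Real.exp ((γ ^ 2 * q * (q - 1) / 2 - 2 * q) * l2 * l)) =
      ENNReal.ofReal (K * Real.exp (c * l)) := by
    have a1 : ((4 ^ l : ℕ) : ℝ≥0∞) = eE (l * (2 * l2)) := by
      rw [MBW.eE_nat, ← MBW.four_eq]
      push_cast
      rfl
    rw [a1]
    unfold eE
    rw [← ENNReal.ofReal_mul (Real.exp_pos _).le, mul_left_comm, ← Real.exp_add]
    congr 3
    rw [hc]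
    ring
  have e2 : ENNReal.ofReal (K * Real.exp (c * l)) ^ (1 / q) ≤ ENNReal.ofReal δ := by
    have a1 := hl1 l ((le_max_left _ _).trans hl)
    calc _ ≤ ENNReal.ofReal (δ ^ q) ^ (1 / q) :=
          ENNReal.rpow_le_rpow (ENNReal.ofReal_le_ofReal a1) (by positivity)
      _ = _ := by
          rw [← ENNReal.ofReal_rpow_of_pos hδ0, ← ENNReal.rpow_mul,
            mul_one_div_cancel (by positivity), ENNReal.rpow_one]
  rw [e1]
  calc _ ≤ (N : ℝ≥0∞) * (3 * ENNReal.ofReal δ) + ENNReal.ofReal (η / 2) := by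
        gcongr
        exact hL1 L ((le_max_left _ _).trans hL)
    _ = ENNReal.ofReal (N * (3 * δ) + η / 2) := by
        rw [ENNReal.ofReal_add (by positivity) (by positivity),
          ENNReal.ofReal_mul hN0.le, ENNReal.ofReal_mul (by norm_num), ENNReal.ofReal_natCast]
        norm_num
    _ = _ := by
        congr 1
        rw [hδ]
        field_simp
        ring

end

end Pool.Agent.Lib.APPS
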