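import Pool.Agent.Lib.APPS.B_LLNb

/-!
Law of large numbers for monotone additive functionals.
-/

namespace Pool.Agent.Lib.APPS

open MeasureTheory ProbabilityTheory Filter Topology Set Metric
open scoped NNReal ENNReal RealInnerProductSpace Classical

noncomputable section

namespace LLN

open MB

theorem ball_sub (hGEO1 : St_GEO1) (T T' : Dy) {L : ℕ} (hL : L ≤ T'.length) :
    closedBall (ctr (T' ++ T)) (2 ^ L * side (T' ++ T)) ⊆ closedBall (ctr T) (2 * side T) := by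
  refine closedBall_subset_closedBall' ?_
  have h1 : ctr (T' ++ T) ∈ box T :=
    (hGEO1.2.2.2.2.1 (T' ++ T) T).2 (List.suffix_append T' T) (hGEO1.2.2.2.1 _).2.2.1
  have h2 := (hGEO1.2.2.2.1 T).2.2.2.1 _ h1
  have h3 := (hGEO1.1 T).1
  have h4 : (2 : ℝ) ^ L * side T' ≤ 1 := by
    unfold side
    rw [one_div, inv_pow, ← div_eq_mul_inv, div_le_one (by positivity)]
    exact pow_le_pow_right₀ one_le_two hL
  rw [dist_eq_norm, hGEO1.2.1, ← mul_assoc]
  nlinarith

theorem box_sub (hGEO1 : St_GEO1) (T T' : Dy) :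
    box (T' ++ T) ⊆ closedBall (ctr T) (2 * side T) := by
  intro y hy
  have h1 : y ∈ box T := (hGEO1.2.2.2.2.1 (T' ++ T) T).2 (List.suffix_append T' T) hy
  have h2 := (hGEO1.2.2.2.1 T).2.2.2.1 _ h1
  have h3 := (hGEO1.1 T).1
  rw [mem_closedBall, dist_eq_norm]
  linarith

theorem abs_sum_le {ι : Type} (s : Finset ι) (f : ι → ℝ) :
    ENNReal.ofReal |∑ i ∈ s, f i| ≤ ∑ i ∈ s, ENNReal.ofReal |f i| := by
  rw [← ENNReal.ofReal_sum_of_nonneg fun _ _ => abs_nonneg _]
  exact ENNReal.ofReal_le_ofReal (Finset.abs_sum_le_sum_abs _ _)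

theorem four_pow (l : ℕ) : Real.exp (-(2 * l * l2)) = (1 / 4 : ℝ) ^ l := by
  unfold l2
  rw [show -(2 * (l : ℝ) * Real.log 2) = (l : ℝ) * -((2 : ℕ) * Real.log 2) by push_cast; ring,
    Real.exp_nat_mul, Real.exp_neg, Real.exp_nat_mul, Real.exp_log two_pos]
  norm_num

end LLN

open LLN MB in
theorem blk_LLN (hG1 : St_G1) (hG1D : St_G1D) (_hG2 : St_G2) (hG3 : St_G3) (hCH : St_CH)
    (hROS : St_ROS) (hMOD : St_MOD) (hDISC : St_DISC) (hFE : St_FE) (_hEXP1 : St_EXP1)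
    (hGEO1 : St_GEO1) (hT1 : St_T1) (hT3 : St_T3) (hMB : St_MB) (hRW1 : St_RW1)
    (hH0L : St_H0L) : St_LLN := by
  intro γ hγ F hF C η hη
  have : IsProbabilityMeasure gm := hG1.1
  have hγ2 : 0 < γ ^ 2 := pow_pos hγ.1 2
  have h14 : 1 < 4 / γ ^ 2 := by
    rw [lt_div_iff₀ hγ2]; nlinarith [hγ.1, hγ.2]
  obtain ⟨q, hq1, hq2⟩ := exists_between (lt_min one_lt_two h14)
  have hq2' : q ≤ 2 := (hq2.trans_le (min_le_left _ _)).le
  have hq4 : q < 4 / γ ^ 2 := hq2.trans_le (min_le_right _ _)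
  obtain ⟨-, -, -, -, hgQ, -⟩ := hRW1.2.2 γ hγ
  obtain ⟨εc, hεc, r0, hr0, hcond⟩ := LLN.cond hG1 hG1D hG3 hCH hT1 hT3 hH0L γ hγ hF
    (η / 4 * Real.exp (-(γ ^ 2 * C / 2))) (by positivity)
  obtain ⟨K, hK, δ, hδ, hmom⟩ := mom hMB hRW1 hT3 γ hγ q hq1 hq4 C
  obtain ⟨CD, hCD, -, hD2, hD3⟩ := id hDISC
  obtain ⟨L0, hL0⟩ := pow_unbounded_of_one_lt (max r0 (CD / εc)) (one_lt_two (α := ℝ))
  refine ⟨L0, fun L hL => ?_⟩
  set r : ℝ := 2 ^ L with hr
  have hrL : max r0 (CD / εc) ≤ r := hL0.le.trans (pow_le_pow_right₀ one_le_two hL)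
  have hr0' : r0 ≤ r := (le_max_left _ _).trans hrL
  have hr2 : 2 ≤ r := le_trans hr0 hr0'
  have hrc : CD / r ≤ εc := by
    have h1 : CD / εc ≤ r := (le_max_right _ _).trans hrL
    rw [div_le_iff₀ hεc] at h1
    rw [div_le_iff₀ (by linarith)]
    linarith
  obtain ⟨B, hB, hcond'⟩ := hcond r hr0'
  set n : ℕ := 2 ^ (L + 1) with hn
  have : NeZero n := ⟨by positivity⟩
  have hnr : 2 * r ≤ n := by rw [hn, hr]; push_cast; rw [pow_succ]; linarith
  obtain ⟨l1, hl1⟩ := small ((Fintype.card (ZMod n × ZMod n) : ℕ) * (3 * K ^ (1 / q)))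
    (ENNReal.mul_ne_top (ENNReal.natCast_ne_top _) (ENNReal.mul_ne_top (by norm_num)
      (ENNReal.rpow_ne_top_of_nonneg (by positivity) hK))) (δ * (1 / q)) (η / 4)
    (by positivity) (by positivity)
  refine ⟨max L ⌈l1⌉₊, le_max_left _ _, fun l hl => ?_⟩
  have hLl : L ≤ l := (le_max_left _ _).trans hl
  have hl1' : l1 ≤ l := (Nat.le_ceil l1).trans (by exact_mod_cast (le_max_right _ _).trans hl)
  obtain ⟨v1, hv1⟩ := top hG1 hG1D hMB hRW1 hT1 hT3 γ hγ hF q hq1 hq4 C (η / 4) (by positivity) l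
  obtain ⟨v2, hv2⟩ := small (4 ^ l * B) (ENNReal.mul_ne_top (ENNReal.pow_ne_top (by norm_num)) hB)
    γ (η / 4) hγ.1 (by positivity)
  refine ⟨max v1 v2, fun v hv M T hM hC => ?_⟩
  set u : ℝ := v - QQ γ * l * l2 with hu
  have hlen : ∀ T' ∈ lev l, T'.length = l := fun T' hT' => (hT1.1 l T').1 hT'
  have hball : ∀ T' ∈ lev l, closedBall (ctr (T' ++ T)) (r * side (T' ++ T)) ⊆ M.O :=
    fun T' hT' => (ball_sub hGEO1 T T' (by rw [hlen T' hT']; exact hLl)).trans hM
  have hGram : ∀ T' : Dy, Gram (fun S => M.eS (S ++ T' ++ T)) (covE (C + T'.length * l2)) := by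
    intro T'
    have h1 := (hMOD M).2.2.2.2.2.2.1 (T' ++ T) ((box_sub hGEO1 T T').trans hM)
    have e : M.C0 + ((T' ++ T).length : ℝ) * l2 = C + T'.length * l2 := by
      rw [← hC, List.length_append]; push_cast; ring
    simpa only [e, List.append_assoc] using h1
  set w0 : ℝ := Real.exp (γ ^ 2 * C / 2) * (1 / 4 : ℝ) ^ l with hw0
  set a : Dy → Om → ℝ := fun T' => nn γ F (fun S => M.eS (S ++ T' ++ T)) u v with ha
  set b : Dy → Om → ℝ := fun T' => mm γ F (gR M r (T' ++ T)) (hR M r (T' ++ T)) u v with hb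
  set e : Dy → HH := fun T' => M.eC (ctr (T' ++ T)) (r * side (T' ++ T)) with he
  set s : ZMod n × ZMod n → Finset Dy := fun c => (lev l).filter fun T' => cls n (T' ++ T) = c
    with hs
  have ham : ∀ T', Measurable (a T') := fun T' => meas_nn hT3 γ hF _ _ _
  have hbm : ∀ T', Measurable (b T') := fun T' => meas_mm hG1 hT3 γ hF _ _ _ _
  have h1 := hv1 v (le_trans (le_max_left _ _) hv) (fun S => M.eS (S ++ T)) hGram
  have h2 : ∀ c, ∫⁻ ω, ENNReal.ofReal |∑ T' ∈ s c, (a T' ω - b T' ω)| ∂gm ≤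
      3 * K ^ (1 / q) * eE (-(δ * (1 / q)) * l) := by
    intro c
    have hsep : ∀ j j' : s c, j ≠ j' → SepR r (j.1 ++ T) (j'.1 ++ T) := by
      intro j j' hne
      have h1 := Finset.mem_filter.1 j.2
      have h2 := Finset.mem_filter.1 j'.2
      refine sepR_of_cls hGEO1 hnr ?_ (h1.2.trans h2.2.symm)
        fun h => hne (Subtype.ext (List.append_cancel_right h))
      rw [List.length_append, List.length_append, hlen _ h1.1, hlen _ h2.1]
    have hgeo := fun j j' : s c => geoR hFE hDISC hGEO1 M hr2 (j.1 ++ T) (j'.1 ++ T)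
      (hball _ (Finset.mem_filter.1 j'.2).1)
    have key := ros hG1 hG3 hROS hT1 hT3 γ hF q hq1 hq2' (s c) (fun j => gR M r (j.1 ++ T))
      (fun j => hR M r (j.1 ++ T))
      (fun j j' => (hgeo j j').1 (by
        by_cases h : j = j'
        · exact Or.inl (by rw [h])
        · exact Or.inr (hsep j j' h)))
      (fun j j' hne => (hgeo j j').2 (hsep j j' hne)) u v
    simp only [gR_add_hR, ← List.append_assoc] at key
    have e1 : ∀ ω, ∑ j : s c, (nn γ F (fun S => M.eS (S ++ j.1 ++ T)) u v ω -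
        mm γ F (gR M r (j.1 ++ T)) (hR M r (j.1 ++ T)) u v ω) =
        ∑ T' ∈ s c, (a T' ω - b T' ω) := fun ω =>
      Finset.sum_coe_sort (s c) fun T' => a T' ω - b T' ω
    set I : Dy → ℝ≥0∞ := fun T' =>
      ∫⁻ ω, (eE (-γ * v) * nB (XV γ (fun S => M.eS (S ++ T' ++ T)) u ω)) ^ q ∂gm with hI
    have e2 : ∑ j : s c, ∫⁻ ω, (eE (-γ * v) *
        nB (XV γ (fun S => M.eS (S ++ j.1 ++ T)) u ω)) ^ q ∂gm = ∑ T' ∈ s c, I T' :=
      Finset.sum_coe_sort (s c) I
    simp only [e1, e2] at key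
    refine key.trans ?_
    have h3 : ∀ T' ∈ lev l, 4 ^ l * I T' ≤ K * eE (-δ * l) := fun T' hT' =>
      hmom l _ v (by simpa only [hlen T' hT'] using hGram T')
    have h4 := Finset.sum_le_card_nsmul _ _ _ h3
    rw [← Finset.mul_sum, hT1.2.1 l, nsmul_eq_mul] at h4
    push_cast at h4
    have h5 : ∑ T' ∈ s c, I T' ≤ K * eE (-δ * l) :=
      (Finset.sum_le_sum_of_subset (Finset.filter_subset _ _)).trans
        ((ENNReal.mul_le_mul_iff_right (by positivity) (ENNReal.pow_ne_top (by norm_num))).1 h4)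
    have h6 := ENNReal.rpow_le_rpow h5 (by positivity : 0 ≤ 1 / q)
    rw [ENNReal.mul_rpow_of_nonneg _ _ (by positivity), eE_rpow] at h6
    rw [mul_assoc, show -(δ * (1 / q)) * (l : ℝ) = -δ * l * (1 / q) by ring]
    exact mul_le_mul' le_rfl h6
  have h3 : ∀ T' ∈ lev l, ∫⁻ ω, ENNReal.ofReal |b T' ω - cc γ F * (w0 * Wk γ (e T') ω)| ∂gm ≤
      ENNReal.ofReal (w0 * (η / 4 * Real.exp (-(γ ^ 2 * C / 2)))) + B * eE (-γ * v) := by
    intro T' hT'
    have hpos : 0 < r * side (T' ++ T) := by have := (hGEO1.1 (T' ++ T)).1; positivity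
    obtain ⟨d1, d2, -⟩ := hD3 M (T' ++ T) r hr2 (hball T' hT')
    refine hcond' _ (fun S => M.qv (ctr (T' ++ T)) (r * side (T' ++ T)) (unif (S ++ (T' ++ T))))
      _ (e T') u v w0 d1 ⟨d2.1.trans hrc, fun d S => (d2.2 d S).trans
        (mul_le_mul_of_nonneg_right hrc (Real.sqrt_nonneg _))⟩ (fun S => ?_) (fun S => ?_)
      (by positivity) fun ω => ?_
    · rw [real_inner_comm]
      exact (hD2 M _ _ _ hpos (hball T' hT') (hFE.2.2.2.2.2.2.2.1 _).1
        (supp hFE hGEO1 hr2 (T' ++ T) S)).2.1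
    · simp [hR, Model.qv, he]
    · have hc := (hMOD M).2.2.2.2.2.2.2.2.2.2.1 _ _ _ hpos le_rfl (hball T' hT')
      rw [real_inner_self_eq_norm_sq, Real.log_mul (by positivity) (hGEO1.1 _).1.ne', log_side,
        List.length_append, hlen T' hT', hr, Real.log_pow] at hc
      have hc' : ‖e T'‖ ^ 2 = C + (l - L) * l2 := by
        rw [he, hr, hc, ← hC]; unfold l2; push_cast; ring
      have hrp : r ^ (γ ^ 2 / 2) = Real.exp (L * l2 * (γ ^ 2 / 2)) := by
        rw [Real.rpow_def_of_pos (by positivity), hr, Real.log_pow]; rfl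
      unfold Wk
      rw [hrp, hw0, hc', ← four_pow, ← Real.exp_add, ← Real.exp_add, ← Real.exp_add,
        ← Real.exp_add, hu]
      congr 1
      linear_combination (-(l * l2)) * hgQ
  have hpt : ∀ ω, ENNReal.ofReal |Real.exp (-γ * v) *
      SR F (XV γ (fun S => M.eS (S ++ T)) v ω) [] -
        cc γ F * Real.exp (γ ^ 2 * C / 2) * M.Wn γ T L l ω| ≤
      ENNReal.ofReal |nn γ F (fun S => M.eS (S ++ T)) v v ω - ∑ T' ∈ lev l, a T' ω| +
        (∑ c, ENNReal.ofReal |∑ T' ∈ s c, (a T' ω - b T' ω)| +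
          ∑ T' ∈ lev l, ENNReal.ofReal |b T' ω - cc γ F * (w0 * Wk γ (e T') ω)|) := by
    intro ω
    have e1 : Real.exp (-γ * v) * SR F (XV γ (fun S => M.eS (S ++ T)) v ω) [] -
        cc γ F * Real.exp (γ ^ 2 * C / 2) * M.Wn γ T L l ω =
        (nn γ F (fun S => M.eS (S ++ T)) v v ω - ∑ T' ∈ lev l, a T' ω) +
          (∑ c, ∑ T' ∈ s c, (a T' ω - b T' ω) +
            ∑ T' ∈ lev l, (b T' ω - cc γ F * (w0 * Wk γ (e T') ω))) := by
      rw [Finset.sum_fiberwise, Finset.sum_sub_distrib, Finset.sum_sub_distrib, Model.Wn,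
        Finset.mul_sum]
      have : ∑ T' ∈ lev l, cc γ F * (w0 * Wk γ (e T') ω) = ∑ T' ∈ lev l,
          cc γ F * Real.exp (γ ^ 2 * C / 2) * ((1 / 4 : ℝ) ^ l *
            Wk γ (M.eC (ctr (T' ++ T)) (2 ^ L * side (T' ++ T))) ω) :=
        Finset.sum_congr rfl fun T' _ => by simp only [hw0, he, hr]; ring
      rw [this]
      unfold nn
      ring
    rw [e1]
    refine (ENNReal.ofReal_le_ofReal ((abs_add_le _ _).trans
      (add_le_add le_rfl (abs_add_le _ _)))).trans ?_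
    rw [ENNReal.ofReal_add (abs_nonneg _) (add_nonneg (abs_nonneg _) (abs_nonneg _)),
      ENNReal.ofReal_add (abs_nonneg _) (abs_nonneg _)]
    exact add_le_add le_rfl (add_le_add (abs_sum_le _ _) (abs_sum_le _ _))
  have hm1 : Measurable fun ω => ENNReal.ofReal
      |nn γ F (fun S => M.eS (S ++ T)) v v ω - ∑ T' ∈ lev l, a T' ω| :=
    ENNReal.measurable_ofReal.comp (continuous_abs.measurable.comp
      ((meas_nn hT3 γ hF _ _ _).sub (Finset.measurable_sum _ fun T' _ => ham T')))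
  have hm2 : ∀ c, Measurable fun ω => ENNReal.ofReal |∑ T' ∈ s c, (a T' ω - b T' ω)| := fun c =>
    ENNReal.measurable_ofReal.comp (continuous_abs.measurable.comp
      (Finset.measurable_sum _ fun T' _ => (ham T').sub (hbm T')))
  have hm3 : ∀ T', Measurable fun ω =>
      ENNReal.ofReal |b T' ω - cc γ F * (w0 * Wk γ (e T') ω)| := fun T' =>
    ENNReal.measurable_ofReal.comp (continuous_abs.measurable.comp ((hbm T').sub
      (((Real.measurable_exp.comp (((meas_ev _).const_mul _).sub_const _)).const_mul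
        _).const_mul _)))
  refine (lintegral_mono hpt).trans ?_
  rw [lintegral_add_left hm1, lintegral_add_left (Finset.measurable_sum _ fun c _ => hm2 c),
    lintegral_finsetSum _ fun c _ => hm2 c, lintegral_finsetSum _ fun T' _ => hm3 T']
  have h5 := Finset.sum_le_card_nsmul Finset.univ _ _ fun c _ => h2 c
  rw [Finset.card_univ, nsmul_eq_mul, ← mul_assoc] at h5
  have h6 := Finset.sum_le_card_nsmul _ _ _ h3
  rw [hT1.2.1 l, nsmul_eq_mul, mul_add, ← mul_assoc _ B, ← ENNReal.ofReal_natCast,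
    ← ENNReal.ofReal_mul (Nat.cast_nonneg _), ENNReal.ofReal_natCast] at h6
  have e3 : ((4 ^ l : ℕ) : ℝ) * (w0 * (η / 4 * Real.exp (-(γ ^ 2 * C / 2)))) = η / 4 := by
    rw [hw0, Real.exp_neg, one_div, inv_pow]
    push_cast
    field_simp
  rw [e3] at h6
  push_cast at h6
  refine (add_le_add h1 (add_le_add (h5.trans (hl1 l hl1'))
    (h6.trans (add_le_add le_rfl (hv2 v (le_trans (le_max_right _ _) hv)))))).trans (le_of_eq ?_)
  rw [← ENNReal.ofReal_add (by positivity) (by positivity),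
    ← ENNReal.ofReal_add (by positivity) (by positivity),
    ← ENNReal.ofReal_add (by positivity) (by positivity)]
  congr 1; ring

end

end Pool.Agent.Lib.APPS
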