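import Pool.Agent.Lib.APPS.B_LOCVa

/-!
Local structure around a square.
-/

namespace Pool.Agent.Lib.APPS

open MeasureTheory ProbabilityTheory Filter Topology Set Metric
open scoped NNReal ENNReal RealInnerProductSpace Classical

noncomputable section

namespace LOCV

/-- The model is recentred around `V`. -/
structure Rec (M : Model) (V : Dy) : Prop where
  O : M.O = ball (ctr V) (4 * side V)
  C0 : M.C0 = (2 - V.length) * l2

lemma Rec.C (hG : St_GEO1) (hT1 : St_T1) {M : Model} {V T : Dy} (h : Rec M V) {j : ℕ}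
    (hT : T ∈ clus V j) : M.C0 + T.length * l2 = (2 + j) * l2 := by
  rw [h.C0, (clus_geo hG hT1 hT).1]
  push_cast
  ring

lemma Rec.gram (hMOD : St_MOD) (hG : St_GEO1) (hT1 : St_T1) {M : Model} {V T : Dy} (h : Rec M V)
    {j : ℕ} (hT : T ∈ clus V j) : Gram (fun S => M.eS (S ++ T)) (covE ((2 + j) * l2)) := by
  rw [← h.C hG hT1 hT]
  refine (hMOD M).2.2.2.2.2.2.1 T fun z hz => ?_
  rw [h.O, mem_ball_iff_norm]
  linarith [(clus_geo hG hT1 hT).2.2 z hz, (hG.1 V).1]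

lemma Rec.ball (hG : St_GEO1) (hT1 : St_T1) {M : Model} {V T : Dy} (h : Rec M V) {l : ℕ}
    (hl : 1 ≤ l) (hT : T ∈ clus V l) : closedBall (ctr T) (2 * side T) ⊆ M.O := fun z hz => by
  obtain ⟨-, h1, h2⟩ := clus_geo hG hT1 hT
  have h3 := h2 _ (hG.2.2.2.1 T).2.2.1
  have h4 : (1 / 2 : ℝ) ^ l ≤ (1 / 2) ^ 1 := pow_le_pow_of_le_one (by norm_num) (by norm_num) hl
  have h5 := mul_le_mul_of_nonneg_right h4 (hG.1 V).1.le
  rw [mem_closedBall_iff_norm] at hz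
  rw [h.O, mem_ball_iff_norm]
  linarith [norm_sub_le_norm_sub_add_norm_sub z (ctr T) (ctr V), (hG.1 V).1]

lemma sum_bd (hG : St_GEO1) (hT1 : St_T1) (V : Dy) (j : ℕ) {f : Dy → Om → ℝ≥0∞}
    (hf : ∀ T, Measurable (f T)) {b : ℝ} (hb : 0 ≤ b)
    (h : ∀ T ∈ clus V j, ∫⁻ ω, f T ω ∂gm ≤ ENNReal.ofReal b) :
    ∫⁻ ω, ∑ T ∈ clus V j, f T ω ∂gm ≤ ENNReal.ofReal (16 * 4 ^ j * b) := by
  rw [lintegral_finsetSum _ fun T _ => hf T]
  refine (Finset.sum_le_sum h).trans ?_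
  rw [← ENNReal.ofReal_sum_of_nonneg fun _ _ => hb, Finset.sum_const, nsmul_eq_mul]
  exact ENNReal.ofReal_le_ofReal (mul_le_mul_of_nonneg_right (clus_card hG hT1 V j) hb)

lemma sec {f : ℝ × Om → ℝ≥0∞} (hf : Measurable f) (y : ℝ) : Measurable fun ω => f (y, ω) :=
  hf.comp measurable_prodMk_left

lemma exp_lvl {γ n : ℝ} (hγ : 0 < γ) (hn : 0 < n) : Real.exp (γ * lvl γ n) = n := by
  rw [lvl, mul_div_cancel₀ _ hγ.ne', Real.exp_log hn]

lemma tend_lvl {γ : ℝ} (hγ : 0 < γ) : Tendsto (lvl γ) atTop atTop :=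
  Real.tendsto_log_atTop.atTop_div_const hγ

lemma exp_le {γ n y K' t c : ℝ} (hγ : 0 < γ) (hn : 0 < n) (hc : 0 < c) (hy : |y - lvl γ n| ≤ K')
    {u : ℝ} (hu : u ≤ y + t) : (c * n)⁻¹ * Real.exp (γ * u) ≤ c⁻¹ * Real.exp (γ * (K' + t)) := by
  have h1 : Real.exp (γ * u) ≤ n * Real.exp (γ * (K' + t)) := by
    rw [← exp_lvl hγ hn, ← Real.exp_add, ← mul_add]
    gcongr
    linarith [(abs_le.1 hy).2]
  calc _ ≤ (c * n)⁻¹ * (n * Real.exp (γ * (K' + t))) := by gcongr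
    _ = _ := by field_simp

lemma mom (hMOD : St_MOD) (hG : St_GEO1) (hT1 : St_T1) (hMB : St_MB) {γ q : ℝ}
    (hγ : γ ∈ Ioo (0 : ℝ) 2) (hq : 0 < q) (hq' : q < 4 / γ ^ 2) : ∃ K ≥ 0, ∀ (M : Model) (V T : Dy)
      (j : ℕ) (s y n c K' : ℝ), Rec M V → T ∈ clus V j → 0 < n → 0 < c → |y - lvl γ n| ≤ K' →
      ∫⁻ ω, (ENNReal.ofReal (c * n)⁻¹ * nB (zT γ M j T s y ω)) ^ q ∂gm ≤
        ENNReal.ofReal (K * Real.exp (-(q * Real.log c) + γ * q * (K' + s) -
          (2 + j) * l2 * (γ * q * QQ γ - γ ^ 2 * q ^ 2 / 2))) := by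
  obtain ⟨K, hK⟩ := hMB γ hγ q hq hq'
  refine ⟨|K|, abs_nonneg _, fun M V T j s y n c K' h hT hn hc hy => ?_⟩
  have h0 : 0 < (c * n)⁻¹ := by positivity
  simp only [ENNReal.mul_rpow_of_nonneg _ _ hq.le]
  rw [ENNReal.ofReal_rpow_of_pos h0, lintegral_const_mul' _ _ ENNReal.ofReal_ne_top]
  refine (mul_le_mul_right (hK _ _ (h.gram hMOD hG hT1 hT) _) _).trans ?_
  rw [← ENNReal.ofReal_mul (by positivity)]
  refine ENNReal.ofReal_le_ofReal ?_
  have h1 : Real.log n = γ * lvl γ n := by rw [lvl, mul_div_cancel₀ _ hγ.1.ne']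
  rw [Real.rpow_def_of_pos h0, mul_left_comm, ← Real.exp_add, Real.log_inv,
    Real.log_mul hc.ne' hn.ne', h1, max_eq_left (by have := l2_pos; positivity)]
  refine mul_le_mul (le_abs_self K) (Real.exp_le_exp.2 ?_) (Real.exp_pos _).le (abs_nonneg _)
  nlinarith [mul_le_mul_of_nonneg_left (abs_le.1 hy).2 (mul_pos hγ.1 hq).le]

lemma b1 (hMOD : St_MOD) (hG : St_GEO1) (hT1 : St_T1) (hT3 : St_T3) (hRW1 : St_RW1) (hMB : St_MB)
    {γ q η δ : ℝ} (hγ : γ ∈ Ioo (0 : ℝ) 2) (hq : 1 < q) (hq' : q < 4 / γ ^ 2) (hη : 0 < η)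
    (hδ : 0 < δ) (K' : ℝ) : ∃ l : ℕ, 1 ≤ l ∧ ∀ (M : Model) (V : Dy) (y n : ℝ), Rec M V → 0 < n →
      |y - lvl γ n| ≤ K' → ∫⁻ ω, Z1 γ q (η * n) l M V y ω ∂gm ≤ ENNReal.ofReal δ := by
  obtain ⟨K, hK0, hK⟩ := mom hMOD hG hT1 hMB hγ (zero_lt_one.trans hq) hq'
  set ρ := γ * q * QQ γ - γ ^ 2 * q ^ 2 / 2 with hρ
  have h1 : 2 < ρ := by
    have h2 := (hRW1.2.2 γ hγ).2.2.2.2.1
    have h3 : q * γ ^ 2 < 4 := (lt_div_iff₀ (pow_pos hγ.1 2)).1 hq'
    have h4 : ρ - 2 = (q - 1) * (2 - q * γ ^ 2 / 2) := by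
      rw [hρ]
      linear_combination q * h2
    nlinarith
  have h2 : Real.exp (l2 * (2 - ρ)) < 1 :=
    Real.exp_lt_one_iff.2 (mul_neg_of_pos_of_neg l2_pos (by linarith))
  set A := 16 * K * Real.exp (-(q * Real.log η) + γ * q * (K' + 1) - 2 * l2 * ρ)
  have h3 := ((tendsto_pow_atTop_nhds_zero_of_lt_one (Real.exp_pos _).le h2).const_mul
    A).eventually (ge_mem_nhds (show A * 0 < δ by simpa))
  obtain ⟨l, h4, h5⟩ := (h3.and (eventually_ge_atTop 1)).exists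
  refine ⟨l, h5, fun M V y n h hn hy => (sum_bd hG hT1 V l
    (fun T => sec (meas1 hT3 γ q _ M l T 1) y) (by positivity)
    fun T hT => hK M V T l 1 y n η K' h hT hn hη hy).trans (ENNReal.ofReal_le_ofReal ?_)⟩
  refine le_trans (le_of_eq ?_) h4
  have h6 : (4 : ℝ) = Real.exp (2 * l2) := by
    rw [two_mul, Real.exp_add, l2, Real.exp_log two_pos]
    norm_num
  rw [h6, ← Real.exp_nat_mul, ← Real.exp_nat_mul, mul_assoc 16, mul_left_comm _ K, ← Real.exp_add,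
    mul_assoc (16 * K), ← Real.exp_add, mul_assoc 16]
  congr 3
  ring

lemma b2 (hG1D : St_G1D) (hMOD : St_MOD) (hG : St_GEO1) (hT1 : St_T1) {γ δ : ℝ} (hγ : 0 < γ)
    (hδ : 0 < δ) (K' : ℝ) (l : ℕ) : ∀ᶠ n : ℝ in atTop, ∀ (M : Model) (V : Dy) (y : ℝ), Rec M V →
      |y - lvl γ n| ≤ K' → ∫⁻ ω, Z2 γ l M V y ω ∂gm ≤ ENNReal.ofReal δ := by
  set c : ℕ → ℝ := fun j => 1 + K' + QQ γ * (2 + j) * l2 + ((2 + j) * l2 + kS [] []) / 2 with hc
  set A := ∑ j ∈ Finset.range l, 16 * 4 ^ j * Real.exp (c j) with hA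
  filter_upwards [((Real.tendsto_exp_neg_atTop_nhds_zero.comp (tend_lvl hγ)).const_mul
    A).eventually (ge_mem_nhds (show A * 0 < δ by simpa))] with n hn M V y h hy
  have hm : ∀ j B, Measurable fun ω => eE (1 - zT γ M j B 0 y ω []) := fun j B =>
    sec (meas2 γ M j B) y
  rw [show (fun ω => Z2 γ l M V y ω) = fun ω => ∑ j ∈ Finset.range l, ∑ B ∈ clus V j,
    eE (1 - zT γ M j B 0 y ω []) from rfl,
    lintegral_finsetSum _ fun j _ => Finset.measurable_sum _ fun B _ => hm j B]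
  refine (Finset.sum_le_sum fun j _ => sum_bd hG hT1 V j (hm j)
    (b := Real.exp (c j) * Real.exp (-lvl γ n)) (by positivity) fun B hB => ?_).trans ?_
  · have h1 : ∀ ω : Om, eE (1 - zT γ M j B 0 y ω []) =
        eE (1 - y + QQ γ * (2 + j) * l2) * eE (ω (-M.eS ([] ++ B))) := fun ω => by
      rw [← eE_add, map_neg]
      congr 1
      simp only [zT, XV, drift, List.length_nil, Nat.cast_zero]
      ring
    simp only [h1]
    rw [lintegral_const_mul' (eE _) _ ENNReal.ofReal_ne_top, hG1D.1, ← eE_add, norm_neg,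
      ← real_inner_self_eq_norm_sq, h.gram hMOD hG hT1 hB [] [], ← Real.exp_add]
    refine eE_mono ?_
    simp only [hc, covE]
    linarith [(abs_le.1 hy).1]
  · rw [← ENNReal.ofReal_sum_of_nonneg fun _ _ => by positivity]
    refine ENNReal.ofReal_le_ofReal (le_trans (le_of_eq ?_) hn)
    rw [hA, Finset.sum_mul]
    exact Finset.sum_congr rfl fun j _ => (mul_assoc _ _ _).symm

lemma b3 (hG : St_GEO1) (hT1 : St_T1) (hT3 : St_T3) (hRW1 : St_RW1) (hLLN : St_LLN)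
    {γ δ ε : ℝ} (hγ : γ ∈ Ioo (0 : ℝ) 2) (hδ : 0 < δ) (hε : 0 < ε) (K' : ℝ) {l : ℕ} (hl : 1 ≤ l)
    {𝒮 : Finset ℝ} (h𝒮 : ∀ a ∈ 𝒮, a ∈ Icc (-1 : ℝ) 1) {G : (Dy → ℝ) → ℝ} (hm : Mono G) :
    ∃ L0 : ℕ, ∀ L ≥ L0, ∃ l0 ≥ L, ∀ l' ≥ l0, ∀ᶠ n : ℝ in atTop, ∀ (M : Model) (V : Dy) (y : ℝ),
      Rec M V → |y - lvl γ n| ≤ K' →
      ∫⁻ ω, Z3 γ (ε * n) G 𝒮 l L l' M V y ω ∂gm ≤ ENNReal.ofReal δ := by
  set A := ε⁻¹ * Real.exp (γ * (K' + 1)) with hA
  have hA0 : 0 < A := by positivity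
  set η := δ / ((𝒮.card + 1) * (16 * 4 ^ l * A)) with hη
  have hη0 : 0 < η := by positivity
  obtain ⟨L0, h0⟩ := hLLN γ hγ G hm ((2 + l) * l2) η hη0
  refine ⟨L0, fun L hL => (h0 L hL).imp fun l0 h1 => ⟨h1.1, fun l' hl' => ?_⟩⟩
  obtain ⟨v0, h2⟩ := h1.2 l' hl'
  filter_upwards [(tend_lvl hγ.1).eventually (eventually_ge_atTop
    (v0 + K' + QQ γ * (2 + l) * l2 + 1)), eventually_gt_atTop 0] with n hn hn0 M V y h hy
  have hm' : ∀ T s, Measurable fun ω => ENNReal.ofReal ((ε * n)⁻¹ * |SR G (zT γ M l T s y ω) [] -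
      cc γ G * Real.exp (γ * s) * wT γ M l L l' T y ω|) := fun T s =>
    sec (meas3 hT3 γ (ε * n)⁻¹ hm.1 l L l' M T s) y
  rw [show (fun ω => Z3 γ (ε * n) G 𝒮 l L l' M V y ω) = fun ω => ∑ s ∈ 𝒮, ∑ T ∈ clus V l,
    ENNReal.ofReal ((ε * n)⁻¹ * |SR G (zT γ M l T s y ω) [] -
      cc γ G * Real.exp (γ * s) * wT γ M l L l' T y ω|) from rfl,
    lintegral_finsetSum _ fun s _ => Finset.measurable_sum _ fun T _ => hm' T s]
  refine (Finset.sum_le_sum fun s hs => sum_bd hG hT1 V l (fun T => hm' T s)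
    (b := A * η) (by positivity) fun T hT => ?_).trans ?_
  · set v := y - QQ γ * (2 + l) * l2 + s with hv
    have h3 := h2 v (by linarith [(abs_le.1 hy).1, (h𝒮 s hs).1]) M T (h.ball hG hT1 hl hT)
      (h.C hG hT1 hT)
    have h4 : (ε * n)⁻¹ * Real.exp (γ * v) ≤ A := exp_le hγ.1 hn0 hε hy (by
      have h5 : 0 ≤ QQ γ * (2 + l) * l2 := by
        have := (hRW1.2.2 γ hγ).2.1
        have := l2_pos
        positivity
      linarith [(h𝒮 s hs).2])
    refine le_trans (lintegral_mono fun ω => ?_) ((lintegral_const_mul' (ENNReal.ofReal A) _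
      ENNReal.ofReal_ne_top).le.trans ((mul_le_mul_right h3 _).trans
        (ENNReal.ofReal_mul hA0.le).ge))
    rw [← ENNReal.ofReal_mul hA0.le]
    refine ENNReal.ofReal_le_ofReal (le_trans (le_of_eq ?_)
      (mul_le_mul_of_nonneg_right h4 (abs_nonneg _)))
    rw [mul_assoc (ε * n)⁻¹, ← abs_of_pos (Real.exp_pos (γ * v)), ← abs_mul, mul_sub,
      ← mul_assoc (Real.exp (γ * v)), ← Real.exp_add, show γ * v + -γ * v = 0 by ring, Real.exp_zero, one_mul]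
    congr 3
    rw [wT, hv, mul_add γ _ s, Real.exp_add]
    ring
  · rw [← ENNReal.ofReal_sum_of_nonneg fun _ _ => by positivity, Finset.sum_const, nsmul_eq_mul]
    refine ENNReal.ofReal_le_ofReal ?_
    calc _ ≤ (𝒮.card + 1) * (16 * 4 ^ l * (A * η)) := by gcongr; linarith
      _ = δ := by rw [hη]; field_simp

lemma mean_Wn (hG1D : St_G1D) (hT1 : St_T1) (γ : ℝ) (M : Model) (T : Dy) (L l' : ℕ) :
    ∫⁻ ω, ENNReal.ofReal (M.Wn γ T L l' ω) ∂gm = 1 := by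
  simp only [Model.Wn]
  have h0 : ∀ v ω, 0 ≤ (1 / 4 : ℝ) ^ l' * Wk γ v ω := fun v ω =>
    mul_nonneg (by positivity) (Real.exp_pos _).le
  rw [lintegral_congr fun ω => ENNReal.ofReal_sum_of_nonneg fun _ _ => h0 _ ω,
    lintegral_finsetSum _ fun _ _ => ((meas_Wk _ _).const_mul _).ennreal_ofReal]
  simp only [ENNReal.ofReal_mul (show (0 : ℝ) ≤ (1 / 4) ^ l' by positivity),
    lintegral_const_mul' _ _ ENNReal.ofReal_ne_top, hG1D.2.2.2.2.2.1, mul_one]
  rw [← ENNReal.ofReal_sum_of_nonneg fun _ _ => by positivity, Finset.sum_const, hT1.2.1,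
    nsmul_eq_mul]
  simp

lemma b4 (hG1D : St_G1D) (hG : St_GEO1) (hT1 : St_T1) (hRW1 : St_RW1) {γ δ : ℝ}
    (hγ : γ ∈ Ioo (0 : ℝ) 2) (hδ : 0 < δ) (K' : ℝ) (l : ℕ) : ∃ Λ > 0, ∀ (L l' : ℕ) (M : Model)
      (V : Dy) (y n : ℝ), 0 < n → |y - lvl γ n| ≤ K' →
      ∫⁻ ω, Z4 γ (Λ * n) l L l' M V y ω ∂gm ≤ ENNReal.ofReal δ := by
  set B := Real.exp (γ ^ 2 * ((2 + l) * l2) / 2) with hB
  have hB0 : 0 < B := Real.exp_pos _
  set Λ := 16 * 4 ^ l * (Real.exp (γ * (K' + 0)) * B) / δ with hΛ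
  have hΛ0 : 0 < Λ := by positivity
  refine ⟨Λ, hΛ0, fun L l' M V y n hn hy => (sum_bd hG hT1 V l
    (fun T => sec (meas4 γ _ l L l' M T) y)
    (b := Λ⁻¹ * Real.exp (γ * (K' + 0)) * B) (by positivity) fun T _ => ?_).trans
    (ENNReal.ofReal_le_ofReal (le_of_eq ?_))⟩
  · have h1 := exp_le (t := 0) (u := y - QQ γ * (2 + l) * l2) hγ.1 hn hΛ0 hy (by
      have h5 : 0 ≤ QQ γ * (2 + l) * l2 := by
        have := (hRW1.2.2 γ hγ).2.1
        have := l2_pos
        positivity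
      linarith)
    rw [← mul_one (ENNReal.ofReal _), ← mean_Wn hG1D hT1 γ M T L l',
      ← lintegral_const_mul' _ _ ENNReal.ofReal_ne_top]
    refine lintegral_mono fun ω => ?_
    rw [← ENNReal.ofReal_mul (by positivity)]
    refine ENNReal.ofReal_le_ofReal ?_
    have := Wn_nonneg γ M T L l' ω
    rw [wT, ← mul_assoc, mul_assoc _ B]
    gcongr
  · rw [hΛ]
    field_simp

end LOCV

open LOCV in
theorem blk_LOCV (_hG1 : St_G1) (hG1D : St_G1D) (_hG2 : St_G2) (_hG3 : St_G3) (hMOD : St_MOD)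
    (hFE : St_FE) (hG : St_GEO1) (hT1 : St_T1) (hT3 : St_T3) (hRW1 : St_RW1) (hMB : St_MB)
    (hR : St_R) (hLLN : St_LLN) (hTL : St_TL) (hGV : St_GV) : St_LOCV := by
  intro γ hγ M i0 hOk F hF η η' K' hη hη'
  have hγ0 := hγ.1
  have h4γ : 1 < 4 / γ ^ 2 := (one_lt_div (pow_pos hγ0 2)).2 (by nlinarith [hγ.2])
  obtain ⟨q, hq, hq'⟩ := exists_between h4γ
  obtain ⟨KG, hGV⟩ := (hGV γ hγ M i0 hOk).1
  set A := (|KG| + 1) * ((2 * |K'| + 1) * Real.exp (4 / γ * K')) with hA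
  have hA0 : 0 < A := by positivity
  obtain ⟨K5, -, h5⟩ := mom hMOD hG hT1 hMB hγ (zero_lt_one.trans hq) hq'
  obtain ⟨δ, hδ, hU⟩ := unif_int hq (K5 * Real.exp (-(q * Real.log 1) + γ * q * (K' + 0) -
    (2 + (0 : ℕ)) * l2 * (γ * q * QQ γ - γ ^ 2 * q ^ 2 / 2))) (div_pos hη' hA0)
  have hδ5 : 0 < δ / 5 := by positivity
  obtain ⟨l, hl, h1⟩ := b1 hMOD hG hT1 hT3 hRW1 hMB hγ hq hq' hη hδ5 K'
  obtain ⟨Λ, hΛ, h4⟩ := b4 hG1D hG hT1 hRW1 hγ hδ5 K' l
  have hc := (hR γ hγ).2.1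
  have hc1 : 0 < cc γ F + cc γ one + 1 := by linarith [hc F, hc one]
  set κ := η / (2 * (cc γ F + cc γ one + 1) * Λ) with hκ
  have hκ0 : 0 < κ := by positivity
  obtain ⟨𝒮, h𝒮, hgrid⟩ := LOCV.grid hγ0 hκ0
  have hε : 0 < η / 4 := by positivity
  obtain ⟨L1, h3⟩ := b3 hG hT1 hT3 hRW1 hLLN hγ hδ5 hε K' hl h𝒮 hF
  obtain ⟨L2, h3'⟩ := b3 hG hT1 hT3 hRW1 hLLN hγ hδ5 hε K' hl h𝒮 mono_one
  obtain ⟨l1, hl1, h3⟩ := h3 _ (le_max_left L1 L2)
  obtain ⟨l2', -, h3'⟩ := h3' _ (le_max_right L1 L2)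
  set L := max L1 L2
  set l' := max l1 l2'
  have hL : L ≤ l' := hl1.le.trans (le_max_left _ _)
  choose N hN using fun V : Dy => (hMOD M).2.2.1 (ctr V) (4 * side V) (by linarith [(hG.1 V).1])
  have hRec : ∀ V, Rec (N V) V := fun V => ⟨(hN V).1, (hN V).2.1.trans (log_side V)⟩
  have hNe : ∀ V μ, PFE μ → (N V).e μ = M.e μ - M.eC (ctr V) (4 * side V) := fun V μ hμ => by
    have := hμ.2
    rw [(hN V).2.2.2, probReal_univ, one_smul]
  have hX : ∀ V j, ∀ T ∈ clus V j, ∀ s ω,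
      sub (sh (M.X γ 0 ω) s) T = zT γ (N V) j T s (M.YV γ 0 V ω) ω := fun V j T hT s ω => by
    funext S
    simp only [sub, sh, Model.X, drift, zT, XV, Model.YV, Model.Y, Model.eS, log_side]
    rw [hNe V _ (hFE.2.2.2.2.2.2.2.1 _).1, map_sub, List.length_append, (clus_geo hG hT1 hT).1]
    push_cast
    ring
  refine ⟨l, hl, ?_⟩
  filter_upwards [b2 hG1D hMOD hG hT1 hγ0 hδ5 K' l, h3 l' (le_max_left _ _),
    h3' l' (le_max_right _ _), eventually_gt_atTop 0] with n h2 h3 h3' hn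
  set Z : Dy → ℝ × Om → ℝ≥0∞ := fun V p => Z1 γ q (η * n) l (N V) V p.1 p.2 +
    Z2 γ l (N V) V p.1 p.2 + Z3 γ (η / 4 * n) F 𝒮 l L l' (N V) V p.1 p.2 +
    Z3 γ (η / 4 * n) one 𝒮 l L l' (N V) V p.1 p.2 + Z4 γ (Λ * n) l L l' (N V) V p.1 p.2 with hZ
  have m1 : ∀ V, Measurable fun p : ℝ × Om => Z1 γ q (η * n) l (N V) V p.1 p.2 := fun V =>
    Finset.measurable_sum _ fun T _ => meas1 hT3 γ q _ _ l T 1
  have m2 : ∀ V, Measurable fun p : ℝ × Om => Z2 γ l (N V) V p.1 p.2 := fun V =>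
    Finset.measurable_sum _ fun j _ => Finset.measurable_sum _ fun B _ => meas2 γ _ j B
  have m3 : ∀ V G, Measurable G →
      Measurable fun p : ℝ × Om => Z3 γ (η / 4 * n) G 𝒮 l L l' (N V) V p.1 p.2 := fun V G h =>
    Finset.measurable_sum _ fun s _ => Finset.measurable_sum _ fun T _ =>
      meas3 hT3 γ _ h l L l' _ T s
  have m4 : ∀ V, Measurable fun p : ℝ × Om => Z4 γ (Λ * n) l L l' (N V) V p.1 p.2 := fun V =>
    Finset.measurable_sum _ fun T _ => meas4 γ _ l L l' _ T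
  have mZ : ∀ V, Measurable (Z V) := fun V =>
    ((((m1 V).add (m2 V)).add (m3 V F hF.1)).add (m3 V one measurable_const)).add (m4 V)
  have hB : ∀ V, MeasurableSet {p : ℝ × Om | |p.1 - lvl γ n| ≤ K' ∧ 1 ≤ Z V p} := fun V =>
    (measurableSet_le (measurable_fst.sub_const _).abs measurable_const).inter
      (measurableSet_le measurable_const (mZ V))
  have hY : ∀ V, Measurable fun ω => (M.YV γ 0 V ω, ω) := fun V =>
    ((hT3.2.2.2.2.2.2.2.2.2.2.1 M γ 0).2 _ _).prodMk measurable_id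
  have ma : ∀ V, Measurable fun p : ℝ × Om =>
      ENNReal.ofReal (1 * n)⁻¹ * nB (zT γ (N V) 0 V 0 p.1 p.2) := fun V =>
    (hT3.1.comp (meas_zT γ _ 0 V 0)).const_mul _
  refine ⟨fun V => {ω | |M.YV γ 0 V ω - lvl γ n| ≤ K' ∧ 1 ≤ Z V (M.YV γ 0 V ω, ω)},
    fun V => hY V (hB V), fun V ω _ hy hω => ?_, ?_⟩
  · have k0 : Z V (M.YV γ 0 V ω, ω) < 1 := not_le.1 fun h => hω ⟨hy, h⟩
    simp only [hZ] at k0
    have k4 := le_add_self.trans_lt k0
    have k0 := le_self_add.trans_lt k0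
    have k3' := le_add_self.trans_lt k0
    have k0 := le_self_add.trans_lt k0
    have k3 := le_add_self.trans_lt k0
    have k0 := le_self_add.trans_lt k0
    have k2 := le_add_self.trans_lt k0
    have k1 := fun T => fin_of γ (zero_lt_one.trans hq) (mul_pos hη hn)
      (le_self_add.trans_lt k0) (T := T)
    refine ⟨fun T => wT γ (N V) l L l' T (M.YV γ 0 V ω) ω, fun T => wT_nonneg _ _ _ _ _ _ _ _,
      fun T hT B e1 e2 e3 => ?_, fun T hT => (hX V l T hT 1 ω).symm ▸ k1 T hT, fun s hs => ?_⟩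
    · obtain ⟨j, hj, hB⟩ := anc_mem hT1 hT e1 e2 e3
      have e4 := ((Finset.single_le_sum (f := fun B => eE (1 - zT γ (N V) j B 0 (M.YV γ 0 V ω) ω []))
        (fun _ _ => zero_le) hB).trans (Finset.single_le_sum (f := fun j => ∑ B ∈ clus V j,
          eE (1 - zT γ (N V) j B 0 (M.YV γ 0 V ω) ω [])) (fun _ _ => zero_le)
          (Finset.mem_range.2 hj))).trans_lt k2
      rw [eE, ENNReal.ofReal_lt_one, Real.exp_lt_one_iff, ← hX V j B hB] at e4
      simpa [sub, sh] using e4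
    · obtain ⟨a, ha, b, hb, e1, e2, e3⟩ := hgrid s hs
      have e4 : ∀ G, Mono G → cc γ G ≤ cc γ F + cc γ one + 1 →
          Z3 γ (η / 4 * n) G 𝒮 l L l' (N V) V (M.YV γ 0 V ω) ω < 1 →
          ∑ T ∈ clus V l, |SR G (sub (sh (M.X γ 0 ω) s) T) [] - cc γ G * Real.exp (γ * s) *
            wT γ (N V) l L l' T (M.YV γ 0 V ω) ω| ≤ η * n := fun G e5 e6 e7 => by
        rw [Finset.sum_congr rfl fun T hT => by rw [hX V l T hT]]
        refine (interp hT1 hγ0 (mul_pos hε hn) (mul_pos hΛ hn) hκ0.le e5 (hc G)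
          (fun T hT => ne_top_of_le_ne_top ENNReal.ofReal_ne_top (k1 T hT)) e7 k4 ha hb
          (h𝒮 b hb).2 e1 e2 e3).trans ?_
        calc _ ≤ 2 * (η / 4 * n) + (cc γ F + cc γ one + 1) * κ * (Λ * n) := by gcongr
          _ = η * n := by rw [hκ]; field_simp; ring
      simp only [nN_eq]
      exact ⟨e4 F hF (by linarith [hc one]) k3, e4 one mono_one (by linarith [hc F]) k3'⟩
  have key := hGV 0 1 (fun _ => True)
    (fun V => {p : ℝ × Om | |p.1 - lvl γ n| ≤ K' ∧ 1 ≤ Z V p}.indicator fun p =>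
      1 + ENNReal.ofReal (1 * n)⁻¹ * nB (zT γ (N V) 0 V 0 p.1 p.2))
    ((Icc (lvl γ n - K') (lvl γ n + K')).indicator fun _ => ENNReal.ofReal (η' / A)) zero_le_one
    (fun k => by simp [hT1.2.1]) (fun V => ((ma V).const_add 1).indicator (hB V))
    (measurable_const.indicator measurableSet_Icc) (fun V y hV s ω => ?_) (fun V y _ _ => ?_)
  · have k1 : ∑' V : Dy, ind (i0 + 2 ≤ V.length) * ∫⁻ ω in {ω | |M.YV γ 0 V ω - lvl γ n| ≤ K' ∧
        1 ≤ Z V (M.YV γ 0 V ω, ω)}, (1 + ENNReal.ofReal n⁻¹ * nB (sub (M.X γ 0 ω) V)) ∂gm ≤ _ :=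
      le_trans (le_of_eq (tsum_congr fun V => by
        have hS : MeasurableSet {ω | |M.YV γ 0 V ω - lvl γ n| ≤ K' ∧
          1 ≤ Z V (M.YV γ 0 V ω, ω)} := hY V (hB V)
        rw [and_true, ← lintegral_indicator hS]
        congr 2
        funext ω
        have e : sh (M.X γ 0 ω) 0 = M.X γ 0 ω := funext fun S => add_zero _
        simp only [Set.indicator_apply, Set.mem_ofPred_eq, one_mul,
          ← hX V 0 V (self_mem hG hT1 V) 0 ω, e])) key
    have k2 : ∫⁻ y, (Icc (lvl γ n - K') (lvl γ n + K')).indicator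
        (fun _ => ENNReal.ofReal (η' / A)) y * eE (4 / γ * (0 - y)) ≤
        ENNReal.ofReal (η' / A * Real.exp (4 / γ * (K' - lvl γ n)) * (2 * |K'| + 1)) := by
      calc _ ≤ ∫⁻ y, (Icc (lvl γ n - K') (lvl γ n + K')).indicator
            (fun _ => ENNReal.ofReal (η' / A * Real.exp (4 / γ * (K' - lvl γ n)))) y := by
            refine lintegral_mono fun y => ?_
            by_cases hy : y ∈ Icc (lvl γ n - K') (lvl γ n + K')
            · rw [Set.indicator_of_mem hy, Set.indicator_of_mem hy,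
                ENNReal.ofReal_mul (by positivity)]
              gcongr
              exact eE_mono (mul_le_mul_of_nonneg_left (by linarith [hy.1]) (by positivity))
            · simp [Set.indicator_of_notMem hy]
        _ ≤ _ := by
            rw [lintegral_indicator_const measurableSet_Icc, Real.volume_Icc,
              ← ENNReal.ofReal_mul (by positivity)]
            gcongr
            linarith [le_abs_self K']
    refine (mul_le_mul_right (k1.trans (mul_le_mul' (ENNReal.ofReal_le_ofReal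
      (show KG * 1 ≤ |KG| + 1 by linarith [le_abs_self KG])) k2)) _).trans (le_of_eq ?_)
    rw [← ENNReal.ofReal_mul (by positivity), ← ENNReal.ofReal_mul (by positivity)]
    congr 1
    have e : n ^ (th γ + 1) * Real.exp (4 / γ * (K' - lvl γ n)) = Real.exp (4 / γ * K') := by
      rw [Real.rpow_def_of_pos hn, ← Real.exp_add, th, lvl]
      congr 1
      field_simp
      ring
    calc _ = η' / A * ((|KG| + 1) * ((2 * |K'| + 1) *
          (n ^ (th γ + 1) * Real.exp (4 / γ * (K' - lvl γ n))))) := by ring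
      _ = η' := by rw [e, ← hA, div_mul_cancel₀ _ hA0.ne']
  · have hA : Agr (N V) V (ω + s • dv (M.eC (ctr V) (4 * side V))) ω := fun μ e1 e2 => by
      obtain ⟨B, hTL⟩ := hTL.2.2.2.1
      rw [LinearMap.add_apply, LinearMap.smul_apply, dv_apply, hNe V μ e1, real_inner_comm,
        (hMOD M).2.2.2.2.2.2.2.2.2.1 _ _ _ μ (by linarith [(hG.1 V).1]) le_rfl e1 e2
          (hTL γ M i0 V hOk hV).1, smul_zero, add_zero]
    have e1 := fun j T (hT : T ∈ clus V j) t => hA.zT hFE hG hT1 hT γ t y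
    have e2 := fun T (hT : T ∈ clus V l) => hA.wT hFE hG hT1 hT hL γ y
    have e3 : Z V (y, ω + s • dv (M.eC (ctr V) (4 * side V))) = Z V (y, ω) := by
      simp only [hZ, Z1, Z2, Z3, Z4]
      congr 1
      · congr 1
        · congr 1
          · congr 1
            · exact Finset.sum_congr rfl fun T hT => by rw [e1 l T hT]
            · exact Finset.sum_congr rfl fun j _ => Finset.sum_congr rfl fun T hT => by
                rw [e1 j T hT]
          · exact Finset.sum_congr rfl fun t _ => Finset.sum_congr rfl fun T hT => by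
              rw [e1 l T hT, e2 T hT]
        · exact Finset.sum_congr rfl fun t _ => Finset.sum_congr rfl fun T hT => by
            rw [e1 l T hT, e2 T hT]
      · exact Finset.sum_congr rfl fun T hT => by rw [e2 T hT]
    simp only [Set.indicator_apply, Set.mem_ofPred_eq, e3, e1 0 V (self_mem hG hT1 V)]
  · by_cases hy : |y - lvl γ n| ≤ K'
    swap
    · simp [Set.indicator_apply, hy]
    have hS : MeasurableSet {ω | 1 ≤ Z V (y, ω)} :=
      measurableSet_le measurable_const (sec (mZ V) y)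
    rw [Set.indicator_of_mem (show y ∈ Icc (lvl γ n - K') (lvl γ n + K') from
      ⟨by linarith [(abs_le.1 hy).1], by linarith [(abs_le.1 hy).2]⟩)]
    refine le_trans (le_of_eq ?_) (hU _ _ (sec (ma V) y) hS
      (h5 (N V) V V 0 0 y n 1 K' (hRec V) (self_mem hG hT1 V) hn one_pos hy) ?_)
    · rw [← lintegral_indicator hS]
      simp only [Set.indicator_apply, Set.mem_ofPred_eq, hy, true_and]
    · refine (meas_le_lintegral₀ (sec (mZ V) y).aemeasurable fun ω h => h).trans ?_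
      simp only [hZ]
      rw [lintegral_add_right _ (sec (m4 V) y), lintegral_add_right _
        (sec (m3 V one measurable_const) y), lintegral_add_right _ (sec (m3 V F hF.1) y),
        lintegral_add_right _ (sec (m2 V) y)]
      refine (add_le_add (add_le_add (add_le_add (add_le_add (h1 _ V y n (hRec V) hn hy)
        (h2 _ V y (hRec V) hy)) (h3 _ V y (hRec V) hy)) (h3' _ V y (hRec V) hy))
        (h4 L l' _ V y n hn hy)).trans (le_of_eq ?_)
      rw [← ENNReal.ofReal_add, ← ENNReal.ofReal_add, ← ENNReal.ofReal_add, ← ENNReal.ofReal_add]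
      · congr 1
        ring
      all_goals positivity

end

end Pool.Agent.Lib.APPS
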