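import Pool.Agent.Lib.APPS.B_LOWa

/-!
Block LOW: lower tail bound for the number of internal nodes.
-/

namespace Pool.Agent.Lib.APPS

open MeasureTheory ProbabilityTheory Filter Topology Set Metric
open scoped NNReal ENNReal RealInnerProductSpace Classical

noncomputable section

namespace LOW

/-- the good event at the square `V` -/
def Ev (M : Model) (γ u m n : ℝ) (V : Dy) (ω : Om) : Prop :=
  |M.YV γ u V ω - m| ≤ 1 ∧ IntN (M.X γ u ω) V ∧ ENNReal.ofReal n ≤ nB (sub (M.X γ u ω) V)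

theorem m_win (hT3 : St_T3) (M : Model) (γ u m : ℝ) (V : Dy) :
    MeasurableSet {ω | |M.YV γ u V ω - m| ≤ 1} :=
  measurableSet_le ((m_YV hT3 M γ u V).sub_const m).abs measurable_const

theorem m_Ev (hT3 : St_T3) (M : Model) (γ u m n : ℝ) (V : Dy) :
    MeasurableSet {ω | Ev M γ u m n V ω} := by
  have hX := (hT3.2.2.2.2.2.2.2.2.2.2.1 M γ u).1
  exact (m_win hT3 M γ u m V).inter ((hX (hT3.2.1 V).1).inter
    (measurableSet_le measurable_const (hT3.1.comp ((hT3.2.2.2.2.1 V).comp hX))))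

theorem le_sq (κ N : ℝ≥0∞) (h0 : N ≠ 0) (h1 : N ≠ ∞) : κ ≤ N + N⁻¹ * (κ * κ) := by
  rcases le_total κ N with h | h
  · exact le_add_right h
  · refine le_add_left ?_
    calc κ = N⁻¹ * (N * κ) := by rw [← mul_assoc, ENNReal.inv_mul_cancel h0 h1, one_mul]
      _ ≤ _ := mul_le_mul_right (mul_le_mul_left h _) _

theorem count (hT1 : St_T1) (x Y : Dy → ℝ) (m : ℝ) (n N : ℝ≥0∞) (h0 : N ≠ 0) (h1 : N ≠ ∞)
    (i : ℕ) :
    n * ∑' V : Dy, ind (i + 4 ≤ V.length) *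
        ind (|Y V - m| ≤ 1 ∧ IntN x V ∧ n ≤ nB (sub x V)) ≤
      N * (nB x * ind (n ≤ nB x)) + N⁻¹ * ∑' R : Dy, ind (i + 4 ≤ R.length) *
        ∑ l ∈ Finset.Icc (i + 3) R.length, ∑ l' ∈ Finset.Icc (i + 3) R.length,
          ind (0 < x R ∧ m - 2 < Y (anc l R) ∧ m - 2 < Y (anc l' R)) := by
  have happ := hT1.2.2.2.2.2.2.2.2.2.2.2.2.2.2.2.2.1
  have hsub := hT1.2.2.2.2.2.2.2.2.2.2.2.2.2.2.2.2.2.1
  let G : Dy × ℕ → ℝ≥0∞ := fun p => ind (i + 4 ≤ p.1.length ∧ IntN x p.1 ∧ n ≤ nB x) *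
    ind (p.2 ∈ Finset.Icc (i + 3) p.1.length ∧ m - 2 < Y (anc p.2 p.1))
  let e : Dy × Dy → Dy × ℕ := fun p => (p.2 ++ p.1, p.1.length)
  have he : Function.Injective e := by
    rintro ⟨V, S⟩ ⟨V', S'⟩ h
    simp only [e, Prod.mk.injEq] at h
    obtain ⟨a, b⟩ := List.append_inj' h.1 h.2
    rw [a, b]
  have s1 : n * ∑' V : Dy, ind (i + 4 ≤ V.length) *
      ind (|Y V - m| ≤ 1 ∧ IntN x V ∧ n ≤ nB (sub x V)) ≤ ∑' p : Dy × Dy, G (e p) := by
    rw [← ENNReal.tsum_mul_left, ENNReal.tsum_prod']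
    refine ENNReal.tsum_le_tsum fun V => ?_
    rw [← ind_and]
    by_cases h : i + 4 ≤ V.length ∧ |Y V - m| ≤ 1 ∧ IntN x V ∧ n ≤ nB (sub x V)
    swap
    · rw [ind_neg h, mul_zero]; exact zero_le
    rw [ind_pos h, mul_one]
    obtain ⟨a, b, c, d⟩ := h
    refine d.trans (ENNReal.tsum_le_tsum fun S => ?_)
    simp only [G, e]
    rw [← ind_and]
    refine ind_mono fun hS => ⟨⟨by simp; omega, (happ x V S).2 ⟨c, hS⟩, d.trans (hsub x V c)⟩,
      by simp; omega, ?_⟩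
    have : anc V.length (S ++ V) = V := by simp [anc]
    rw [this]
    linarith [(abs_le.1 b).1]
  refine s1.trans ((ENNReal.tsum_comp_le_tsum_of_injective he G).trans ?_)
  rw [ENNReal.tsum_prod', nB, ← ENNReal.tsum_mul_right, ← ENNReal.tsum_mul_left,
    ← ENNReal.tsum_mul_left, ← ENNReal.tsum_add]
  refine ENNReal.tsum_le_tsum fun R => ?_
  simp only [G]
  rw [ENNReal.tsum_mul_left]
  by_cases h : i + 4 ≤ R.length ∧ IntN x R ∧ n ≤ nB x
  swap
  · rw [ind_neg h, zero_mul]; exact zero_le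
  have hk : ∑' l : ℕ, ind (l ∈ Finset.Icc (i + 3) R.length ∧ m - 2 < Y (anc l R)) =
      ∑ l ∈ Finset.Icc (i + 3) R.length, ind (m - 2 < Y (anc l R)) := by
    rw [tsum_eq_sum (s := Finset.Icc (i + 3) R.length) fun l hl => ind_neg fun h => hl h.1]
    exact Finset.sum_congr rfl fun l hl => by rw [ind_and, ind_pos hl, one_mul]
  have hn : n ≤ ∑' A : Dy, ind (IntN x A) := h.2.2
  rw [ind_pos h, ind_pos h.1, ind_pos h.2.1, ind_pos hn, hk]
  simp only [one_mul, mul_one, ind_and, ind_pos (h.2.1 R List.suffix_rfl)]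
  rw [← Finset.sum_mul_sum]
  exact le_sq _ N h0 h1

theorem stepB (hT1 : St_T1) (hT3 : St_T3) (hRW : St_RW1) (hST4 : St_ST4) {γ : ℝ}
    (hγ : γ ∈ Ioo (0 : ℝ) 2) (M : Model) (i0 : ℕ) (hM : M.Ok i0) (u s c : ℝ) (hc : 0 < c)
    (h : ∀ᶠ n : ℝ in atTop, ENNReal.ofReal (c * n ^ (-(th γ + 1))) ≤
      ∑' V : Dy, ind (i0 + 4 ≤ V.length) * gm {ω | Ev M γ u (Real.log n / γ + s) n V ω}) :
    ∃ c' > 0, ∀ᶠ n : ℝ in atTop, ENNReal.ofReal (c' * n ^ (-th γ)) ≤
      ∫⁻ ω, nB (M.X γ u ω) * ind (ENNReal.ofReal n ≤ nB (M.X γ u ω)) ∂gm := by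
  have hθ : γ * th γ = 2 * aa γ := (hRW.2.2 γ hγ).2.2.2.1
  obtain ⟨K, hK⟩ := (hST4 γ hγ M i0 hM).1
  set B : ℝ := |K| * Real.exp (γ * u - 2 * aa γ * (s - 2 - u)) with hB
  have hB0 : 0 ≤ B := by positivity
  set t : ℝ := 2 * B / c + 1 with ht
  have ht0 : 0 < t := by positivity
  have hBt : B / t ≤ c / 2 := by
    rw [div_le_iff₀ ht0, ht]
    have : c / 2 * (2 * B / c + 1) = B + c / 2 := by field_simp
    linarith
  refine ⟨c / 2 / t, by positivity, ?_⟩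
  filter_upwards [h, eventually_ge_atTop 1] with n h1 hn
  have hn0 : 0 < n := by linarith
  have hw : 0 < n ^ (-th γ) := Real.rpow_pos_of_pos hn0 _
  set m := Real.log n / γ + s with hm
  have hm2 : ∀ (R : Dy) (l l' : ℕ), MeasurableSet {ω | 0 < M.X γ u ω R ∧
      m - 2 < M.YV γ u (anc l R) ω ∧ m - 2 < M.YV γ u (anc l' R) ω} := fun R l l' =>
    (measurableSet_lt measurable_const (m_XR hT3 M γ u R)).inter
      ((measurableSet_lt measurable_const (m_YV hT3 M γ u _)).inter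
        (measurableSet_lt measurable_const (m_YV hT3 M γ u _)))
  have hs : ∀ R : Dy, Measurable fun ω => ∑ l ∈ Finset.Icc (i0 + 3) R.length,
      ∑ l' ∈ Finset.Icc (i0 + 3) R.length, ind (0 < M.X γ u ω R ∧
        m - 2 < M.YV γ u (anc l R) ω ∧ m - 2 < M.YV γ u (anc l' R) ω) := fun R =>
    Finset.measurable_sum _ fun l _ => Finset.measurable_sum _ fun l' _ => m_ind (hm2 R l l')
  have h3 : ENNReal.ofReal n *
      ∑' V : Dy, ind (i0 + 4 ≤ V.length) * gm {ω | Ev M γ u m n V ω} ≤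
      ENNReal.ofReal t * ∫⁻ ω, nB (M.X γ u ω) * ind (ENNReal.ofReal n ≤ nB (M.X γ u ω)) ∂gm +
        (ENNReal.ofReal t)⁻¹ * ∑' R : Dy, ind (i0 + 4 ≤ R.length) *
          ∑ l ∈ Finset.Icc (i0 + 3) R.length, ∑ l' ∈ Finset.Icc (i0 + 3) R.length,
            gm {ω | 0 < M.X γ u ω R ∧ m - 2 < M.YV γ u (anc l R) ω ∧
              m - 2 < M.YV γ u (anc l' R) ω} := by
    have t0 : ENNReal.ofReal t ≠ 0 := by simpa using ht0
    have e1 : ∀ R : Dy, ind (i0 + 4 ≤ R.length) *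
        ∑ l ∈ Finset.Icc (i0 + 3) R.length, ∑ l' ∈ Finset.Icc (i0 + 3) R.length,
          gm {ω | 0 < M.X γ u ω R ∧ m - 2 < M.YV γ u (anc l R) ω ∧
            m - 2 < M.YV γ u (anc l' R) ω} = ∫⁻ ω, ind (i0 + 4 ≤ R.length) *
        ∑ l ∈ Finset.Icc (i0 + 3) R.length, ∑ l' ∈ Finset.Icc (i0 + 3) R.length,
          ind (0 < M.X γ u ω R ∧ m - 2 < M.YV γ u (anc l R) ω ∧
            m - 2 < M.YV γ u (anc l' R) ω) ∂gm := by
      intro R
      rw [lintegral_const_mul _ (hs R), lintegral_finsetSum _ fun l _ =>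
        Finset.measurable_sum _ fun l' _ => m_ind (hm2 R l l')]
      congr 1
      refine Finset.sum_congr rfl fun l _ => ?_
      rw [lintegral_finsetSum _ fun l' _ => m_ind (hm2 R l l')]
      exact Finset.sum_congr rfl fun l' _ => (lint_ind (hm2 R l l')).symm
    have e2 : ∀ V : Dy, ind (i0 + 4 ≤ V.length) * gm {ω | Ev M γ u m n V ω} =
        ∫⁻ ω, ind (i0 + 4 ≤ V.length) * ind (Ev M γ u m n V ω) ∂gm := fun V => by
      rw [lintegral_const_mul _ (m_ind (m_Ev hT3 M γ u m n V)), lint_ind (m_Ev hT3 M γ u m n V)]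
    have e3 : Measurable fun ω => ENNReal.ofReal t *
        (nB (M.X γ u ω) * ind (ENNReal.ofReal n ≤ nB (M.X γ u ω))) :=
      ((hT3.1.comp (hT3.2.2.2.2.2.2.2.2.2.2.1 M γ u).1).mul
        (m_ind (m_set hT3 M γ u _))).const_mul _
    simp only [e1, e2]
    rw [← lintegral_tsum fun R => ((hs R).const_mul _).aemeasurable,
      ← lintegral_tsum fun V => ((m_ind (m_Ev hT3 M γ u m n V)).const_mul _).aemeasurable,
      ← lintegral_const_mul' _ _ ENNReal.ofReal_ne_top,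
      ← lintegral_const_mul' _ _ ENNReal.ofReal_ne_top,
      ← lintegral_const_mul' _ _ (ENNReal.inv_ne_top.2 t0),
      ← lintegral_add_left e3]
    exact lintegral_mono fun ω => count hT1 (M.X γ u ω) (fun V => M.YV γ u V ω) m _ _ t0
      ENNReal.ofReal_ne_top i0
  have h4 : (ENNReal.ofReal t)⁻¹ *
      ENNReal.ofReal (K * Real.exp (γ * u - 2 * aa γ * (m - 2 - u))) ≤
      ENNReal.ofReal (B / t * n ^ (-th γ)) := by
    rw [← ENNReal.ofReal_inv_of_pos ht0, ← ENNReal.ofReal_mul (by positivity)]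
    refine ENNReal.ofReal_le_ofReal ?_
    have e : Real.exp (γ * u - 2 * aa γ * (m - 2 - u)) =
        Real.exp (γ * u - 2 * aa γ * (s - 2 - u)) * n ^ (-th γ) := by
      rw [Real.rpow_def_of_pos hn0, ← Real.exp_add, hm, ← hθ]
      congr 1
      have := hγ.1.ne'
      field_simp
      ring
    rw [e, hB]
    have : 0 ≤ t⁻¹ * (Real.exp (γ * u - 2 * aa γ * (s - 2 - u)) * n ^ (-th γ)) := by positivity
    calc _ = K * (t⁻¹ * (Real.exp (γ * u - 2 * aa γ * (s - 2 - u)) * n ^ (-th γ))) := by ring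
      _ ≤ |K| * (t⁻¹ * (Real.exp (γ * u - 2 * aa γ * (s - 2 - u)) * n ^ (-th γ))) :=
          mul_le_mul_of_nonneg_right (le_abs_self K) this
      _ = _ := by ring
  have h6 : ENNReal.ofReal (c * n ^ (-th γ)) =
      ENNReal.ofReal n * ENNReal.ofReal (c * n ^ (-(th γ + 1))) := by
    rw [← ENNReal.ofReal_mul hn0.le, neg_add, Real.rpow_add hn0, Real.rpow_neg_one]
    congr 1
    field_simp
  have h5 := absorb ht0 (by positivity) (h6.trans_le ((mul_le_mul_right h1 _).trans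
    (h3.trans (add_le_add_right ((mul_le_mul_right (hK u (m - 2)) _).trans h4) _))))
  refine le_trans (ENNReal.ofReal_le_ofReal ?_) h5
  rw [div_mul_eq_mul_div]
  refine div_le_div_of_nonneg_right ?_ ht0.le
  nlinarith

theorem oneV (hG1 : St_G1) (hG3 : St_G3) (hMOD : St_MOD) (hGEO : St_GEO1) (hT1 : St_T1)
    (hT3 : St_T3) (hTL : St_TL) {γ : ℝ} (M : Model) (i0 : ℕ) (hM : M.Ok i0) (u u1 n : ℝ)
    (h : ∀ v, Gram v (covE (Real.log 4)) →
      gm {ω | nB (XV γ v u1 ω) ≤ ENNReal.ofReal n} ≤ ENNReal.ofReal (1 / 2))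
    (V : Dy) (hV : i0 + 2 ≤ V.length) :
    gm {ω | |M.YV γ u V ω - (u1 + 1 + 2 * QQ γ * l2)| ≤ 1} ≤
      2 * gm {ω | Ev M γ u (u1 + 1 + 2 * QQ γ * l2) n V ω} +
      2 * gm {ω | |M.YV γ u V ω - (u1 + 1 + 2 * QQ γ * l2)| ≤ 1 ∧ ∃ B : Dy,
        0 ≤ B.length ∧ B.length ≤ V.length ∧ ‖ctr B - ctr V‖ ≤ 6 * side B ∧ M.X γ u ω B ≤ 0} := by
  have := hG1.1
  obtain ⟨B0, hB0⟩ := hTL.2.2.2.1
  obtain ⟨-, -, hx, -, horth⟩ := hB0 γ M i0 V hM hV
  set m := u1 + 1 + 2 * QQ γ * l2 with hm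
  set v : Dy → HH := fun S => M.eS (S ++ V) - M.eC (ctr V) (4 * side V) with hv
  have hs := (hGEO.1 V).1
  have hgram : Gram v (covE (Real.log 4)) := by
    have := (hMOD M).2.2.2.2.2.2.2.2.2.2.2.1 (ctr V) (4 * side V) V (by positivity)
      (fun y hy => by
        have := (hGEO.2.2.2.1 V).2.2.2.1 y hy
        rw [mem_closedBall, dist_eq_norm]
        linarith)
    rwa [Real.log_mul (by norm_num) hs.ne', side, Real.log_pow, one_div, Real.log_inv, l2,
      show Real.log 4 + V.length * -Real.log 2 + V.length * Real.log 2 = Real.log 4 by ring,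
      ← one_div] at this
  have hr : (1 / 2 : ℝ) ^ (V.length - 2) = 4 * side V := by
    obtain ⟨k, hk⟩ : ∃ k, V.length = k + 2 := ⟨V.length - 2, by omega⟩
    rw [side, hk, Nat.add_sub_cancel, pow_add]
    ring
  have hind := hG3.2.2.2.2.1 Unit Dy (fun _ => M.eC (ctr V) (4 * side V)) v fun _ S => by
    rw [real_inner_comm]
    have := horth S (V.length - 2) (by omega)
    rwa [hr] at this
  have hmul := hind.measure_inter_preimage_eq_mul
    {y : Unit → ℝ | |y () + u + QQ γ * Real.log (4 * side V) - m| ≤ 1}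
    {z : Dy → ℝ | ENNReal.ofReal n ≤ nB (drift (QQ γ) z u1)}
    (measurableSet_le (by fun_prop) measurable_const)
    (measurableSet_le measurable_const (hT3.1.comp ((hT3.2.2.2.2.2.2.1 (QQ γ)).comp
      (measurable_id.prodMk measurable_const))))
  change gm ({ω | |M.YV γ u V ω - m| ≤ 1} ∩ {ω | ENNReal.ofReal n ≤ nB (XV γ v u1 ω)}) =
    gm {ω | |M.YV γ u V ω - m| ≤ 1} * gm {ω | ENNReal.ofReal n ≤ nB (XV γ v u1 ω)} at hmul
  have hhalf : 1 ≤ 2 * gm {ω | ENNReal.ofReal n ≤ nB (XV γ v u1 ω)} := by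
    have a : ENNReal.ofReal 1 ≤ ENNReal.ofReal 1 * gm {ω | ENNReal.ofReal n ≤ nB (XV γ v u1 ω)} +
        ENNReal.ofReal (1 / 2) := by
      rw [ENNReal.ofReal_one, one_mul, ← measure_univ (μ := gm)]
      refine le_trans (measure_mono fun ω _ => le_total (ENNReal.ofReal n) (nB (XV γ v u1 ω)))
        ((measure_union_le _ _).trans (add_le_add_right (h v hgram) _))
    have b := mul_le_mul_right (absorb one_pos (by norm_num) a) 2
    rwa [← ENNReal.ofReal_ofNat 2, ← ENNReal.ofReal_mul (by norm_num),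
      show (2 : ℝ) * ((1 - 1 / 2) / 1) = 1 by norm_num, ENNReal.ofReal_one,
      ENNReal.ofReal_ofNat] at b
  calc _ = gm {ω | |M.YV γ u V ω - m| ≤ 1} * 1 := (mul_one _).symm
    _ ≤ _ := mul_le_mul_right hhalf _
    _ = 2 * _ := by rw [mul_left_comm, ← hmul]
    _ ≤ _ := by
      rw [← mul_add]
      refine mul_le_mul_right (le_trans (measure_mono ?_) (measure_union_le _ _)) 2
      rintro ω ⟨h1, h2⟩
      by_cases hI : IntN (M.X γ u ω) V
      · refine Or.inl ⟨h1, hI, le_trans h2 (hT1.2.2.2.2.2.2.2.2.2.2.2.2.2.2.2.1 _ _ fun S => ?_)⟩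
        have := (abs_le.1 (show |M.YV γ u V ω - m| ≤ 1 from h1)).1
        simp only [sub, hx, XV, drift, hv]
        linarith
      · simp only [IntN, not_forall, not_lt] at hI
        obtain ⟨B, hB, hB'⟩ := hI
        refine Or.inr ⟨h1, B, Nat.zero_le _, hB.length_le, ?_, hB'⟩
        have := (hGEO.2.2.2.1 B).2.2.2.1 _ ((hGEO.2.2.2.2.1 V B).2 hB (hGEO.2.2.2.1 V).2.2.1)
        rw [norm_sub_rev]
        linarith [(hGEO.1 B).1]

theorem stepA (hG1 : St_G1) (hG3 : St_G3) (hMOD : St_MOD) (hGEO : St_GEO1) (hT1 : St_T1)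
    (hT3 : St_T3) (hRW : St_RW1) (hLT0 : St_LT0) (hTL : St_TL) (hGV : St_GV) (hJR : St_JR)
    {γ : ℝ} (hγ : γ ∈ Ioo (0 : ℝ) 2) (M : Model) (i0 : ℕ) (hM : M.Ok (i0 + 2)) :
    ∃ u s c : ℝ, 0 ≤ u ∧ 0 < c ∧ ∀ᶠ n : ℝ in atTop, ENNReal.ofReal (c * n ^ (-(th γ + 1))) ≤
      ∑' V : Dy, ind (i0 + 4 ≤ V.length) * gm {ω | Ev M γ u (Real.log n / γ + s) n V ω} := by
  have ha : 0 < aa γ := (hRW.2.2 γ hγ).1
  obtain ⟨ε, hε, u0, hLT⟩ := hLT0 γ hγ (Real.log 4) (Real.log_nonneg (by norm_num)) (1 / 2)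
    (by norm_num)
  obtain ⟨c, hc, hG⟩ := (hGV γ hγ M _ hM).2
  obtain ⟨c1, -, hJ⟩ := hJR γ hγ
  obtain ⟨C, hC⟩ := hJ M _ hM 1
  obtain ⟨u, hu0, hu⟩ : ∃ u : ℝ, 0 ≤ u ∧ 2 * |C| * Real.exp (-(aa γ * u)) ≤ c / 2 := by
    have h1 : Tendsto (fun u : ℝ => 2 * |C| * Real.exp (-(aa γ * u))) atTop (𝓝 (2 * |C| * 0)) :=
      (Real.tendsto_exp_neg_atTop_nhds_zero.comp (tendsto_id.const_mul_atTop ha)).const_mul _
    rw [mul_zero] at h1
    exact ((eventually_ge_atTop 0).and (h1.eventually (ge_mem_nhds (by positivity)))).exists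
  set s := -Real.log ε / γ + 1 + 2 * QQ γ * l2 with hs
  have hlog : ∀ s' : ℝ, Tendsto (fun n : ℝ => Real.log n / γ + s') atTop atTop := fun s' =>
    tendsto_atTop_add_const_right _ _ (Real.tendsto_log_atTop.atTop_div_const hγ.1)
  refine ⟨u, s, c / 4 * Real.exp (4 / γ * (u - s)), hu0, by positivity, ?_⟩
  filter_upwards [(hlog s).eventually (hG u), (hlog (-Real.log ε / γ)).eventually_ge_atTop u0,
    eventually_gt_atTop 0] with n h1 h2 hn0
  have hγ0 := hγ.1.ne'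
  have hm : Real.log n / γ + s = Real.log n / γ + -Real.log ε / γ + 1 + 2 * QQ γ * l2 := by
    rw [hs]; ring
  have hn : ε * Real.exp (γ * (Real.log n / γ + -Real.log ε / γ)) = n := by
    rw [show γ * (Real.log n / γ + -Real.log ε / γ) = Real.log n - Real.log ε by field_simp; ring,
      Real.exp_sub, Real.exp_log hn0, Real.exp_log hε]
    field_simp
  have h3 := fun V hV => oneV hG1 hG3 hMOD hGEO hT1 hT3 hTL M _ hM u _ n
    (fun v hv => by have := hLT v hv _ h2; rwa [hn] at this) V hV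
  rw [← hm] at h3
  set m := Real.log n / γ + s with hm'
  have h4 : ∑' V : Dy, ind (i0 + 2 + 2 ≤ V.length) * gm {ω | |M.YV γ u V ω - m| ≤ 1} ≤
      ENNReal.ofReal 2 * ∑' V : Dy, ind (i0 + 4 ≤ V.length) * gm {ω | Ev M γ u m n V ω} +
        ENNReal.ofReal (2 * |C| * Real.exp (-(aa γ * u)) * Real.exp (4 / γ * (u - m))) := by
    have e : ENNReal.ofReal (2 * |C| * Real.exp (-(aa γ * u)) * Real.exp (4 / γ * (u - m))) =
        2 * ENNReal.ofReal (|C| * Real.exp (4 / γ * (u - m) + aa γ * (0 - u) - c1 * (0 : ℕ))) := by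
      rw [← ENNReal.ofReal_ofNat 2, ← ENNReal.ofReal_mul (by norm_num), mul_assoc, mul_assoc,
        ← Real.exp_add]
      congr 4
      push_cast
      ring
    rw [e, ENNReal.ofReal_ofNat]
    refine le_trans ?_ (add_le_add_right (mul_le_mul_right ((hC u m 0 0).trans
      (ENNReal.ofReal_le_ofReal (mul_le_mul_of_nonneg_right (le_abs_self C)
        (Real.exp_pos _).le))) 2) _)
    rw [← ENNReal.tsum_mul_left, ← ENNReal.tsum_mul_left, ← ENNReal.tsum_add]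
    refine ENNReal.tsum_le_tsum fun V => ?_
    by_cases hV : i0 + 2 + 2 ≤ V.length
    swap
    · rw [ind_neg hV, zero_mul]; exact zero_le
    rw [ind_pos hV, one_mul, one_mul, one_mul]
    refine (h3 V hV).trans (add_le_add_right (mul_le_mul_right ?_ 2) _)
    rw [← lint_ind]
    · exact lintegral_mono fun ω => le_mul_of_one_le_right' le_self_add
    · refine (m_win hT3 M γ u m V).inter (measurableSet_setOfPred.2 (Measurable.exists fun B => ?_))
      exact measurable_const.and (measurable_const.and (measurable_const.and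
        (measurableSet_setOfPred.1 (measurableSet_le (m_XR hT3 M γ u B) measurable_const))))
  have h5 := absorb two_pos (by positivity) (h1.trans h4)
  refine le_trans (ENNReal.ofReal_le_ofReal ?_) h5
  have e : Real.exp (4 / γ * (u - m)) = Real.exp (4 / γ * (u - s)) * n ^ (-(th γ + 1)) := by
    rw [Real.rpow_def_of_pos hn0, ← Real.exp_add, hm', th]
    congr 1
    field_simp
    ring
  rw [mul_assoc, ← e]
  nlinarith [Real.exp_pos (4 / γ * (u - m))]

end LOW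

theorem blk_LOW (hG1 : St_G1) (_hG1D : St_G1D) (hG2 : St_G2) (hG3 : St_G3) (_hM0 : St_M0)
    (hMOD : St_MOD) (hGEO : St_GEO1) (hT1 : St_T1) (hT3 : St_T3) (hRW : St_RW1) (hLT0 : St_LT0)
    (hTL : St_TL) (hGV : St_GV) (hJR : St_JR) (hST4 : St_ST4) (hRUS : St_RUS) : St_LOW := by
  intro γ hγ M hM
  obtain ⟨i0, hi⟩ := (hMOD M).2.2.2.2.2.2.2.2.2.2.2.2.2.2.1 hM
  obtain ⟨u, s, c, hu, hc, hA⟩ := LOW.stepA hG1 hG3 hMOD hGEO hT1 hT3 hRW hLT0 hTL hGV hJR hγ M i0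
    (hi _ (by omega))
  obtain ⟨c2, hc2, hB⟩ := LOW.stepB hT1 hT3 hRW hST4 hγ M i0 (hi _ le_rfl) u s c hc hA
  obtain ⟨c3, hc3, hC⟩ := LOW.stepC hMOD hGEO hT3 hRW hRUS hγ M hM u c2 hu hc2 hB
  obtain ⟨c4, hc4, hD⟩ := LOW.stepD hG2 hMOD hT3 hRUS hγ M hM u c3 hc3 hC
  refine ⟨c4, hc4, ?_⟩
  filter_upwards [hD, eventually_gt_atTop 0] with n h hn
  refine le_trans ?_ (mul_le_mul_right h _)
  rw [← ENNReal.ofReal_mul (by positivity), Real.rpow_neg hn.le]
  refine ENNReal.ofReal_le_ofReal (le_of_eq ?_)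
  have := (Real.rpow_pos_of_pos hn (th γ + 1)).ne'
  field_simp

end

end Pool.Agent.Lib.APPS
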