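import Pool.Agent.Lib.APPS.Blue3

/-!
Block LS: the drifted two-sided path, tilted by its value at `r` and recentred there, has its
original law.
-/

namespace Pool.Agent.Lib.APPS

open MeasureTheory ProbabilityTheory Filter Topology Set
open scoped NNReal ENNReal RealInnerProductSpace

noncomputable section

theorem blk_LS (_h1 : St_G1) (h2 : St_G2) (h3 : St_G3) (hM0 : St_M0) (hLAT : St_LAT)
    (hBM2 : St_BM2) : St_LS := by
  intro Ω _ P β hβ a r Γ hΓ
  obtain ⟨M⟩ := hM0
  have hG : Gram M.radV cov2 := hLAT.2.1 M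
  set v := M.radV with hv
  have hCG := (hBM2.2.2.2 Ω P β hβ).2.2.2.1
  have hlaw := h3.1 ℝ Ω (fun t ω => twoS (β ω) t) P cov2 hCG v hG
  have hmX : Measurable fun ω t => twoS (β ω) t := measurable_pi_lambda _ hCG.meas
  have hm : ∀ z : ℝ → HH, Measurable fun (ω : Om) t => ω (z t) := fun z =>
    measurable_pi_lambda _ fun t => meas_ev _
  let F0 : (ℝ → ℝ) → ℝ≥0∞ := fun x => Γ fun t => (x (r + t) - a * |r + t|) - (x r - a * |r|)
  let F1 : (ℝ → ℝ) → ℝ≥0∞ := fun x => eE (2 * a * (x r - a * |r|)) * F0 x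
  let F2 : (ℝ → ℝ) → ℝ≥0∞ := fun x => Γ fun t => x t - a * |t|
  have hF0 : Measurable F0 := hΓ.comp (measurable_pi_lambda _ fun t =>
    ((measurable_pi_apply _).sub_const _).sub ((measurable_pi_apply _).sub_const _))
  have hF1 : Measurable F1 := by
    refine Measurable.mul ?_ hF0
    exact (Real.measurable_exp.comp
      (((measurable_pi_apply r).sub_const _).const_mul _)).ennreal_ofReal
  have hF2 : Measurable F2 := hΓ.comp (measurable_pi_lambda _ fun t =>
    (measurable_pi_apply _).sub_const _)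
  have hT : ∀ F : (ℝ → ℝ) → ℝ≥0∞, Measurable F →
      ∫⁻ ω, F (fun t => twoS (β ω) t) ∂P = ∫⁻ ω, F (fun t => ω (v t)) ∂gm := by
    intro F hF
    rw [← lintegral_map hF hmX, hlaw, lintegral_map hF (hm v)]
  change ∫⁻ ω, F1 (fun t => twoS (β ω) t) ∂P = ∫⁻ ω, F2 (fun t => twoS (β ω) t) ∂P
  rw [hT F1 hF1, hT F2 hF2]
  let v' : ℝ → HH := fun t => v (r + t) - v r
  have hg' : ∀ s t, ⟪v' s, v' t⟫ = ⟪v s, v t⟫ := by
    intro s t
    simp only [v', inner_sub_left, inner_sub_right, hG _ _, cov2]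
    have e1 : r + s - (r + t) = s - t := by ring
    have e2 : r + s - r = s := by ring
    have e3 : r - (r + t) = -t := by ring
    rw [e1, e2, e3, abs_neg, sub_self, abs_zero]
    ring
  have hlaw' := h3.2.2.1 ℝ v' v hg'
  have hE : ∫⁻ ω, F2 (fun t => ω (v' t)) ∂gm = ∫⁻ ω, F2 (fun t => ω (v t)) ∂gm := by
    rw [← lintegral_map hF2 (hm v'), hlaw', lintegral_map hF2 (hm v)]
  rw [← hE]
  have hcm := h2.2.1 ((2 * a) • v r) (fun ω => F0 fun t => ω (v t)) (hF0.comp (hm v))
  have hn : ‖(2 * a) • v r‖ ^ 2 = 4 * a ^ 2 * |r| := by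
    rw [norm_smul, mul_pow, Real.norm_eq_abs, sq_abs, ← real_inner_self_eq_norm_sq, hG, cov2,
      sub_self, abs_zero]
    ring
  have e1 : ∀ ω : Om, (F0 fun t => ω (v t)) *
      eE (ω ((2 * a) • v r) - ‖(2 * a) • v r‖ ^ 2 / 2) = F1 fun t => ω (v t) := by
    intro ω
    rw [hn, map_smul, smul_eq_mul, mul_comm]
    simp only [F1]
    congr 2
    ring
  have e2 : ∀ ω : Om, (F0 fun t => (ω + dv ((2 * a) • v r)) (v t)) =
      F2 fun t => ω (v' t) := by
    intro ω
    simp only [F0, F2, v', LinearMap.add_apply, dv_apply, real_inner_smul_left, hG _ _, cov2,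
      map_sub]
    congr 1
    funext t
    have e3 : r - (r + t) = -t := by ring
    rw [e3, abs_neg, sub_self, abs_zero]
    ring
  simp only [e1, e2] at hcm
  exact hcm.symm

end

end Pool.Agent.Lib.APPS
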