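import Pool.Agent.Lib.APPS.Blue4

/-!
Block LT: the local limit theorem from the flux identities.
-/

namespace Pool.Agent.Lib.APPS

open MeasureTheory ProbabilityTheory Filter Topology Set Metric
open scoped NNReal ENNReal Classical

noncomputable section

namespace LTb

theorem near_one {a : ℕ → ℝ} {A c r η ρ : ℝ} (h0 : ∀ ι, 0 ≤ a ι) (hA : ∀ ι, a ι ≤ A)
    (hf : ∃ᶠ ι in atTop, c ≤ a ι) (hr : ∀ᶠ ι in atTop, |r * a (ι + 1) - a ι| ≤ η)
    (hρ : 0 < ρ) (hc : 0 < c) (hη : 2 * η ≤ ρ * c) : |r - 1| ≤ ρ := by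
  obtain ⟨N, hN⟩ := eventually_atTop.1 hr
  have hη0 : 0 ≤ η := le_trans (abs_nonneg _) (hN N le_rfl)
  rw [abs_le]
  constructor
  · by_contra hlt
    push Not at hlt
    have bd : BddAbove (range fun n => a (N + n)) := ⟨A, by rintro _ ⟨n, rfl⟩; exact hA _⟩
    set S := ⨆ n, a (N + n) with hS
    have hle : ∀ n, a (N + n) ≤ S := fun n => le_ciSup bd n
    have S0 : 0 ≤ S := le_trans (h0 _) (hle 0)
    have h1 : S ≤ max (1 - ρ) 0 * S + η := by
      refine ciSup_le fun n => ?_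
      have e1 := (abs_le.1 (hN (N + n) (by omega))).1
      have e2 := hle (n + 1)
      have e3 := h0 (N + n + 1)
      have e4 : r ≤ max (1 - ρ) 0 := le_trans (by linarith) (le_max_left _ _)
      have e5 : r * a (N + n + 1) ≤ max (1 - ρ) 0 * S :=
        le_trans (mul_le_mul_of_nonneg_right e4 e3)
          (mul_le_mul_of_nonneg_left e2 (le_max_right _ _))
      linarith
    obtain ⟨ι, hι, hι'⟩ := (hf.and_eventually (eventually_ge_atTop N)).exists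
    have h2 := hle (ι - N)
    rw [Nat.add_sub_cancel' hι'] at h2
    have h3 : c ≤ S := le_trans hι h2
    rcases le_total (1 - ρ) 0 with h | h
    · rw [max_eq_right h] at h1
      have e1 := (abs_le.1 (hN ι hι')).1
      have e3 := h0 (ι + 1)
      have : r * a (ι + 1) ≤ (1 - ρ) * a (ι + 1) := mul_le_mul_of_nonneg_right (by linarith) e3
      have e2 := hle (ι + 1 - N)
      rw [Nat.add_sub_cancel' (by omega)] at e2
      obtain ⟨κ, hκ, hκ'⟩ := (hf.and_eventually (eventually_ge_atTop (N + 1))).exists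
      have e6 := (abs_le.1 (hN (κ - 1) (by omega))).1
      rw [Nat.sub_add_cancel (by omega)] at e6
      have e7 := h0 (κ - 1)
      have e8 : r * a κ ≤ (1 - ρ) * a κ := mul_le_mul_of_nonneg_right (by linarith) (h0 _)
      have e9 : (1 - ρ) * a κ ≤ (1 - ρ) * c := mul_le_mul_of_nonpos_left hκ h
      nlinarith
    · rw [max_eq_left h] at h1
      nlinarith
  · by_contra hlt
    push Not at hlt
    have hq : (1 + ρ)⁻¹ < 1 := inv_lt_one_of_one_lt₀ (by linarith)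
    have hq0 : 0 ≤ (1 + ρ)⁻¹ := by positivity
    have h1 : ∀ n, a (N + n) - c / 2 ≤ A * (1 + ρ)⁻¹ ^ n := by
      intro n
      induction n with
      | zero => have := hA N; simp only [add_zero, pow_zero, mul_one]; linarith
      | succ n ih =>
        have e1 := (abs_le.1 (hN (N + n) (by omega))).2
        have e3 := h0 (N + n + 1)
        have e4 : (1 + ρ) * a (N + n + 1) ≤ r * a (N + n + 1) :=
          mul_le_mul_of_nonneg_right (by linarith) e3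
        rw [pow_succ, ← mul_assoc, ← div_eq_mul_inv, le_div_iff₀ (by linarith), ← add_assoc]
        nlinarith
    have h2 : Tendsto (fun n => A * (1 + ρ)⁻¹ ^ n) atTop (𝓝 0) := by
      simpa using (tendsto_pow_atTop_nhds_zero_of_lt_one hq0 hq).const_mul A
    obtain ⟨n0, hn0⟩ := eventually_atTop.1 (h2.eventually (gt_mem_nhds (half_pos hc)))
    obtain ⟨ι, hι, hι'⟩ := (hf.and_eventually (eventually_ge_atTop (N + n0))).exists
    have h3 := h1 (ι - N)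
    rw [Nat.add_sub_cancel' (by omega)] at h3
    have := hn0 (ι - N) (by omega)
    linarith

theorem steps {a : ℕ → ℝ} {N : ℕ} {δ : ℝ} (h : ∀ ι ≥ N, |a (ι + 1) - a ι| ≤ δ) {ι : ℕ}
    (hι : N ≤ ι) (i : ℕ) : |a (ι + i) - a ι| ≤ i * δ := by
  induction i with
  | zero => simp
  | succ i ih =>
    have e := h (ι + i) (by omega)
    rw [← add_assoc]
    push_cast
    rw [abs_le] at ih e ⊢
    constructor <;> linarith [ih.1, ih.2, e.1, e.2]

theorem sum_near {a : ℕ → ℝ} {N J : ℕ} {δ : ℝ} {w : ℕ → ℝ} (hw : ∀ i, 0 ≤ w i) (hδ : 0 ≤ δ)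
    (h : ∀ ι ≥ N, |a (ι + 1) - a ι| ≤ δ) {ι : ℕ} (hι : N ≤ ι) :
    |∑ i ∈ Finset.Icc 1 J, w i * a (ι + i) - (∑ i ∈ Finset.Icc 1 J, w i) * a ι| ≤
      (∑ i ∈ Finset.Icc 1 J, w i) * (J * δ) := by
  rw [Finset.sum_mul, Finset.sum_mul, ← Finset.sum_sub_distrib]
  refine le_trans (Finset.abs_sum_le_sum_abs _ _) (Finset.sum_le_sum fun i hi => ?_)
  rw [← mul_sub, abs_mul, abs_of_nonneg (hw i)]
  refine mul_le_mul_of_nonneg_left (le_trans (steps h hι i) ?_) (hw i)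
  exact mul_le_mul_of_nonneg_right (by exact_mod_cast (Finset.mem_Icc.1 hi).2) hδ

theorem cls_one {Λ : ℝ} (h : 0 ≤ Λ) : Cls Λ oneT := by
  refine ⟨fun T => by simp [oneT], fun T T' _ _ hs => ?_⟩
  have : (T.card : ℝ) ≤ T'.card := by exact_mod_cast Finset.card_le_card hs
  simp only [oneT, sub_self, abs_zero]
  exact div_nonneg (mul_nonneg h (by linarith)) (Nat.cast_nonneg _)

theorem adm_one (γ : ℝ) : Adm γ one :=
  ⟨⟨measurable_const, 1, fun _ => by simp [one]⟩, ⟨0, fun _ _ _ => rfl⟩,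
    Eventually.of_forall fun _ => Eventually.of_forall fun _ => continuousAt_const⟩

theorem final {x y u v p q A c c' η : ℝ} (hx : 0 ≤ x) (hxy : x ≤ y) (hA : y ≤ A) (hc' : 0 < c')
    (hy : c' ≤ y) (hc : 0 < c) (hv : c ≤ v) (hq : 0 < q) {W : ℝ} (h1 : |u - W * x| ≤ 3 * η)
    (h2 : |v - W * y| ≤ 3 * η) (h3 : |u * q - v * p| ≤ η) :
    |x / y - p / q| ≤ η * (6 * A / (c' * c) + 1 / (c * q)) := by
  have y0 : 0 < y := lt_of_lt_of_le hc' hy
  have v0 : 0 < v := lt_of_lt_of_le hc hv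
  have η0 : 0 ≤ η := le_trans (abs_nonneg _) h3
  have e : x / y - p / q = (x * (v - W * y) - y * (u - W * x)) / (y * v) +
      (u * q - v * p) / (v * q) := by
    field_simp
    ring
  have b1 : |x * (v - W * y) - y * (u - W * x)| ≤ 6 * A * η := by
    refine le_trans (abs_sub _ _) ?_
    rw [abs_mul, abs_mul, abs_of_nonneg hx, abs_of_pos y0]
    have := mul_le_mul (hxy.trans hA) h2 (abs_nonneg _) (by linarith)
    have := mul_le_mul hA h1 (abs_nonneg _) (by linarith)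
    linarith
  rw [e]
  refine le_trans (abs_add_le _ _) ?_
  rw [abs_div, abs_div, abs_of_pos (mul_pos y0 v0), abs_of_pos (mul_pos v0 hq), mul_add]
  have A0 : 0 ≤ A := by linarith
  refine add_le_add ?_ ?_
  · calc _ ≤ 6 * A * η / (c' * c) :=
          div_le_div₀ (by positivity) b1 (by positivity) (mul_le_mul hy hv hc.le y0.le)
      _ = _ := by ring
  · calc _ ≤ η / (c * q) :=
          div_le_div₀ η0 h3 (by positivity) (mul_le_mul_of_nonneg_right hv hq.le)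
      _ = _ := by ring

end LTb

theorem blk_LT (_hR : St_R) (hPHI : St_PHI) (hMU0 : St_MU0) (hG3W : St_G3W) (hF1 : St_F1)
    (hLLE : St_LLE) (hF2 : St_F2) (hLF1 : St_LF1) : St_LT := by
  intro γ hγ D M hM
  obtain ⟨-, ⟨c, hc, K, hK⟩, hW⟩ := hG3W γ hγ D M hM
  obtain ⟨ι1, hι1⟩ := (hLLE γ hγ M hM one (LTb.adm_one γ) 1 one_pos).exists
  obtain ⟨A, hA⟩ := (hι1 oneT fun T => by simp [oneT]).2.2
  have bd : ∀ {Λ : ℝ} {Φ : Finset Dy → ℝ}, Cls Λ Φ → ∀ ι,
      0 ≤ M.aL γ Φ ι ∧ M.aL γ Φ ι ≤ M.aL γ oneT ι := by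
    intro Λ Φ h ι
    obtain ⟨A', hA'⟩ := (hι1 Φ h.1).2.2
    exact ⟨(hA' ι).1, (hA' ι).2.1⟩
  have A0 : 0 ≤ A := le_trans (hA 0).1 (hA 0).2.2
  -- windows
  have flux : ∀ Λ η : ℝ, 0 < η → ∃ ε ∈ Ioc (0 : ℝ) 1, ∃ (J : ℕ) (w : ℕ → ℝ), (∀ i, 0 ≤ w i) ∧
      ∀ᶠ ι : ℕ in atTop, ∀ Φ, Cls Λ Φ →
        |M.win γ Φ ε ι - ∑ i ∈ Finset.Icc 1 J, w i * M.aL γ Φ (ι + i)| ≤ 2 * η := by
    intro Λ η hη
    obtain ⟨ε0, hε0, h1⟩ := hF1 γ hγ D M hM Λ η hη
    obtain ⟨J, w, hw, h2⟩ := hF2 γ hγ M hM Λ η hη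
    have m0 : 0 < min ε0 1 := lt_min hε0 one_pos
    refine ⟨min ε0 1, ⟨m0, min_le_right _ _⟩, J, w, hw, ?_⟩
    filter_upwards [h1 _ ⟨m0, min_le_left _ _⟩, h2] with ι a b Φ hΦ
    have a' := (a Φ hΦ).2
    have b' := b Φ hΦ (a Φ hΦ).1
    rw [abs_le] at a' b' ⊢
    constructor <;> linarith [a'.1, a'.2, b'.1, b'.2]
  obtain ⟨ε1, hε1, J1, w1, hw1, h1⟩ := flux 0 (c / 4) (by positivity)
  have W1 : 0 ≤ ∑ i ∈ Finset.Icc 1 J1, w1 i := Finset.sum_nonneg fun i _ => hw1 i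
  set c' := c / (2 * (∑ i ∈ Finset.Icc 1 J1, w1 i + 1)) with hc'
  have c'0 : 0 < c' := by positivity
  have win : ∀ᶠ ι : ℕ in atTop, ∃ i ≤ J1, c' ≤ M.aL γ oneT (ι + i) := by
    filter_upwards [h1, hK ε1 hε1] with ι a b
    by_contra hn
    push Not at hn
    have a' := (abs_le.1 (a oneT (LTb.cls_one le_rfl))).2
    have s : ∑ i ∈ Finset.Icc 1 J1, w1 i * M.aL γ oneT (ι + i) ≤
        (∑ i ∈ Finset.Icc 1 J1, w1 i) * c' := by
      rw [Finset.sum_mul]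
      exact Finset.sum_le_sum fun i hi =>
        mul_le_mul_of_nonneg_left (hn i (Finset.mem_Icc.1 hi).2).le (hw1 i)
    have e : 2 * (∑ i ∈ Finset.Icc 1 J1, w1 i + 1) * c' = c := by
      rw [hc']; field_simp
    nlinarith [b.1]
  have freq : ∃ᶠ ι : ℕ in atTop, c' ≤ M.aL γ oneT ι := by
    rw [frequently_atTop]
    intro n
    obtain ⟨ι, ⟨i, -, hi⟩, hι⟩ := (win.and (eventually_ge_atTop n)).exists
    exact ⟨ι + i, by omega, hi⟩
  -- increments
  obtain ⟨w0, hw0, hL⟩ := hLF1 γ hγ M hM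
  have incr : ∀ Λ δ : ℝ, 0 ≤ Λ → 0 < δ → ∃ N : ℕ, ∀ Φ, Cls Λ Φ → ∀ ι ≥ N,
      |M.aL γ Φ (ι + 1) - M.aL γ Φ ι| ≤ δ := by
    intro Λ δ hΛ hδ
    set ρ := δ / (2 * (A + 1)) with hρ
    have ρ0 : 0 < ρ := by positivity
    set η := min (δ / 2) (ρ * c' / 2) with hη
    have η0 : 0 < η := lt_min (by positivity) (by positivity)
    obtain ⟨wp, wm, -, hwm, h⟩ := hL Λ (η * w0) (by positivity)
    have wm0 : 0 < wm := lt_of_lt_of_le hw0 hwm
    have h' : ∀ᶠ ι : ℕ in atTop, ∀ Φ, Cls Λ Φ →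
        |wp / wm * M.aL γ Φ (ι + 1) - M.aL γ Φ ι| ≤ η := by
      filter_upwards [h] with ι a Φ hΦ
      have e : wp / wm * M.aL γ Φ (ι + 1) - M.aL γ Φ ι =
          (wp * M.aL γ Φ (ι + 1) - wm * M.aL γ Φ ι) / wm := by field_simp
      rw [e, abs_div, abs_of_pos wm0, div_le_iff₀ wm0]
      exact le_trans (a Φ hΦ) (mul_le_mul_of_nonneg_left hwm η0.le)
    have r1 : |wp / wm - 1| ≤ ρ := LTb.near_one (a := fun ι => M.aL γ oneT ι)
      (fun ι => (hA ι).1) (fun ι => (hA ι).2.2) freq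
      (h'.mono fun ι a => a oneT (LTb.cls_one hΛ)) ρ0 c'0
      (by have : η ≤ ρ * c' / 2 := min_le_right _ _
          linarith)
    obtain ⟨N, hN⟩ := eventually_atTop.1 h'
    refine ⟨N, fun Φ hΦ ι hι => ?_⟩
    have a := hN ι hι Φ hΦ
    have b := bd hΦ (ι + 1)
    have b2 : |(wp / wm - 1) * M.aL γ Φ (ι + 1)| ≤ ρ * A := by
      rw [abs_mul, abs_of_nonneg b.1]
      exact mul_le_mul r1 (b.2.trans (hA _).2.2) b.1 ρ0.le
    have e : 2 * (A + 1) * ρ = δ := by rw [hρ]; field_simp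
    have : η ≤ δ / 2 := min_le_left _ _
    rw [abs_le] at a b2 ⊢
    constructor <;> nlinarith [a.1, a.2, b2.1, b2.2]
  have low : ∀ᶠ ι : ℕ in atTop, c' / 2 ≤ M.aL γ oneT ι := by
    obtain ⟨N, hN⟩ := incr 0 (c' / (2 * (J1 + 1))) le_rfl (by positivity)
    filter_upwards [win, eventually_ge_atTop N] with ι ⟨i, hi, a⟩ hι
    have b := (abs_le.1 (LTb.steps (hN oneT (LTb.cls_one le_rfl)) hι i)).2
    have e : (i : ℝ) * (c' / (2 * (J1 + 1))) ≤ c' / 2 := by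
      have : (i : ℝ) ≤ J1 + 1 := by exact_mod_cast hi.trans (Nat.le_succ _)
      calc (i : ℝ) * (c' / (2 * (J1 + 1))) ≤ (J1 + 1) * (c' / (2 * (J1 + 1))) :=
            mul_le_mul_of_nonneg_right this (by positivity)
        _ = c' / 2 := by field_simp
    linarith
  refine ⟨⟨c' / 2, by positivity, low⟩, fun tf htf Λ G hΛ hG => ?_⟩
  have hΦ := (hPHI.2.2.2.2.2.2.2 tf htf).2.1 Λ G hΛ hG
  have hΛ' : 0 ≤ 4 * Λ + 4 := by linarith
  have q0 := ((hMU0.2 γ hγ D).2 tf htf).2.2.2.2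
  rw [Metric.tendsto_nhds]
  intro δ hδ
  set B := 6 * A / (c' / 2 * c) + 1 / (c * D.Lz tf one') with hB
  have B0 : 0 ≤ B := by positivity
  set η := δ / (2 * (B + 1)) with hη
  have η0 : 0 < η := by positivity
  obtain ⟨ε, hε, J, w, hw, h2⟩ := flux (4 * Λ + 4) η η0
  have W0 : 0 ≤ ∑ i ∈ Finset.Icc 1 J, w i := Finset.sum_nonneg fun i _ => hw i
  set W := ∑ i ∈ Finset.Icc 1 J, w i with hWd
  obtain ⟨N, hN⟩ := incr (4 * Λ + 4) (η / ((W + 1) * (J + 1))) hΛ' (by positivity)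
  have sm : W * (J * (η / ((W + 1) * (J + 1)))) ≤ η := by
    have J0 : (0 : ℝ) ≤ J := Nat.cast_nonneg _
    calc W * (J * (η / ((W + 1) * (J + 1)))) ≤ (W + 1) * ((J + 1) * (η / ((W + 1) * (J + 1)))) := by
          gcongr <;> linarith
      _ = η := by field_simp
  have h3 := (Metric.tendsto_nhds.1 (hW tf htf Λ G hΛ hG ε hε)) η η0
  filter_upwards [h2, h3, low, hK ε hε, eventually_ge_atTop N] with ι a b l k hι
  have near : ∀ Φ, Cls (4 * Λ + 4) Φ → |M.win γ Φ ε ι - W * M.aL γ Φ ι| ≤ 3 * η := by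
    intro Φ h
    have a' := a Φ h
    have b' := LTb.sum_near (J := J) hw (by positivity) (hN Φ h) hι
    rw [abs_le] at a' b' ⊢
    constructor <;> linarith [a'.1, a'.2, b'.1, b'.2]
  rw [Real.dist_eq, sub_zero] at b
  have := LTb.final (bd hΦ ι).1 (bd hΦ ι).2 (hA ι).2.2 (by positivity) l hc k.1 q0
    (near _ hΦ) (near _ (LTb.cls_one hΛ')) b.le
  rw [Real.dist_eq]
  refine lt_of_le_of_lt this ?_
  have e : 2 * (B + 1) * η = δ := by rw [hη]; field_simp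
  rw [← hB]
  nlinarith

end

end Pool.Agent.Lib.APPS
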