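import Pool.Agent.Lib.APPS.B_LLNb

/-!
Lower tail of the number of internal nodes.
-/

namespace Pool.Agent.Lib.APPS

open MeasureTheory ProbabilityTheory Filter Topology Set Metric
open scoped NNReal ENNReal RealInnerProductSpace Classical

noncomputable section

namespace LT0

open MB LLN

theorem markov {S : Set Om} {F : Om → ℝ≥0∞} (hF : Measurable F) (h : ∀ ω ∈ S, 1 ≤ F ω) :
    gm S ≤ ∫⁻ ω, F ω ∂gm := by
  have := mul_meas_ge_le_lintegral (μ := gm) hF 1
  rw [one_mul] at this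
  exact (measure_mono h).trans this

theorem one_le_eE {t : ℝ} (h : 0 ≤ t) : 1 ≤ eE t := by
  unfold eE
  rw [ENNReal.one_le_ofReal]
  exact Real.one_le_exp h

theorem pz (hG1 : St_G1) (hT1 : St_T1) (hT3 : St_T3) (hR : St_R) (hH0L : St_H0L) (γ : ℝ)
    (hγ : γ ∈ Ioo (0 : ℝ) 2) : ∃ r ≥ (2 : ℝ), ∃ c > (0 : ℝ), ∃ p > (0 : ℝ), ∃ t0 : ℝ, ∀ g,
      Gram g (cov0 r) → ∀ t ≥ t0,
        gm {ω | nB (XV γ g t ω) ≤ ENNReal.ofReal (c * Real.exp (γ * t))} ≤ eE (-p) := by
  have : IsProbabilityMeasure gm := hG1.1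
  have hc : 0 < cc γ one := (hR γ hγ).2.2.2.2.2.2
  have hone : Mono one := ⟨measurable_const, fun _ => ⟨zero_le_one, le_rfl⟩, fun _ _ _ => le_rfl⟩
  obtain ⟨-, h2, h3⟩ := hH0L γ hγ
  obtain ⟨r, hr, h4⟩ := h3 one hone (cc γ one / 2) (by positivity)
  obtain ⟨t0, h5⟩ := h4 r le_rfl
  have h14 : 1 < 4 / γ ^ 2 := by
    rw [lt_div_iff₀ (pow_pos hγ.1 2)]; nlinarith [hγ.1, hγ.2]
  obtain ⟨q, hq1, hq2⟩ := exists_between h14
  obtain ⟨K, hK⟩ := h2 q (by linarith) hq2 r hr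
  have hρ : 0 < r ^ (γ ^ 2 / 2) := Real.rpow_pos_of_pos (by linarith) _
  set m : ℝ := cc γ one / 2 * r ^ (γ ^ 2 / 2) with hm
  have hm0 : 0 < m := by positivity
  obtain ⟨a, ha⟩ := small (ENNReal.ofReal K) ENNReal.ofReal_ne_top (q - 1) (m / 4) (by linarith)
    (by positivity)
  refine ⟨r, hr, m / 2, by positivity, m / 4 * Real.exp (-a), by positivity, t0,
    fun g hg t ht => ?_⟩
  have mN : Measurable fun ω => nB (XV γ g t ω) := hT3.1.comp (meas_XV _ _ _)
  set S := {ω | nB (XV γ g t ω) ≤ ENNReal.ofReal (m / 2 * Real.exp (γ * t))} with hS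
  have hSm : MeasurableSet S := measurableSet_le mN measurable_const
  have h6 : ENNReal.ofReal m ≤ ∫⁻ ω, eE (-γ * t) * nB (XV γ g t ω) ∂gm := by
    have h7 := (abs_le.1 (h5 g hg t ht)).1
    rw [integral_eq_lintegral_of_nonneg_ae (ae_of_all _ fun _ => SR_nonneg hone _)
      ((hT3.2.2.2.2.2.2.2.1 one [] hone.1).comp (meas_XV γ g t)).aestronglyMeasurable] at h7
    rw [lintegral_const_mul _ mN]
    refine (ENNReal.ofReal_le_ofReal (by linarith : m ≤ Real.exp (-γ * t) *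
      (∫⁻ ω, ENNReal.ofReal (SR one (XV γ g t ω) []) ∂gm).toReal)).trans ?_
    rw [ENNReal.ofReal_mul (Real.exp_pos _).le]
    exact mul_le_mul' le_rfl (ENNReal.ofReal_toReal_le.trans
      (lintegral_mono fun ω => SR_le hT1 hone _))
  have mq : Measurable fun ω => nB (XV γ g t ω) ^ q := mN.pow_const _
  have h8 : ∀ ω, eE (-γ * t) * nB (XV γ g t ω) ≤ ENNReal.ofReal (m / 2) +
      (Sᶜ.indicator (fun _ => eE a) ω +
        eE (-(q - 1) * a) * eE (-γ * t * q) * nB (XV γ g t ω) ^ q) := by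
    intro ω
    by_cases h : ω ∈ S
    · refine le_add_right ((mul_le_mul' le_rfl h).trans (le_of_eq ?_))
      rw [eE, ← ENNReal.ofReal_mul (Real.exp_pos _).le, mul_left_comm, ← Real.exp_add]
      simp
    · refine le_add_left ((young _ a q hq1.le).trans (le_of_eq ?_))
      rw [indicator_of_mem (mem_compl h), ENNReal.mul_rpow_of_nonneg _ _ (by linarith), eE_rpow,
        mul_assoc (eE _)]
  have h9 := h6.trans (lintegral_mono h8)
  rw [lintegral_add_left measurable_const, lintegral_const, measure_univ, mul_one,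
    lintegral_add_right _ (mq.const_mul _), lintegral_const_mul _ mq,
    lintegral_indicator_const hSm.compl] at h9
  have h10 : eE (-(q - 1) * a) * eE (-γ * t * q) * ∫⁻ ω, nB (XV γ g t ω) ^ q ∂gm ≤
      ENNReal.ofReal (m / 4) := by
    refine (mul_le_mul' le_rfl (hK g hg t)).trans (le_trans (le_of_eq ?_) (ha a le_rfl))
    rw [mul_comm K, ENNReal.ofReal_mul (Real.exp_pos _).le, ← eE, mul_assoc, ← mul_assoc (eE _)
      (eE (γ * q * t)), ← eE_add, show -γ * t * q + γ * q * t = 0 by ring, mul_comm]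
    simp [eE]
  have h11 : ENNReal.ofReal (m / 4) ≤ eE a * gm Sᶜ := by
    have h12 := h9.trans (add_le_add le_rfl (add_le_add le_rfl h10))
    have e : ENNReal.ofReal m = ENNReal.ofReal (m / 4) + ENNReal.ofReal (m / 2 + m / 4) := by
      rw [← ENNReal.ofReal_add (by positivity) (by positivity)]; congr 1; ring
    rw [e, add_left_comm, ← ENNReal.ofReal_add (p := m / 2) (by positivity) (by positivity)] at h12
    exact (ENNReal.add_le_add_iff_right ENNReal.ofReal_ne_top).1 h12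
  have h13 : ENNReal.ofReal (m / 4 * Real.exp (-a)) ≤ gm Sᶜ := by
    rw [ENNReal.ofReal_mul (by positivity), ← eE]
    refine (mul_le_mul' h11 le_rfl).trans (le_of_eq ?_)
    rw [mul_right_comm, ← eE_add]
    simp [eE]
  rw [← compl_compl S, prob_compl_eq_one_sub hSm.compl]
  refine (tsub_le_tsub_left h13 _).trans ?_
  rw [← ENNReal.ofReal_one, ← ENNReal.ofReal_sub _ (by positivity)]
  exact ENNReal.ofReal_le_ofReal (by linarith [Real.add_one_le_exp (-(m / 4 * Real.exp (-a)))])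

end LT0

open LT0 LLN MB in
theorem blk_LT0 (hG1 : St_G1) (hG1D : St_G1D) (hG3 : St_G3) (hCH : St_CH) (hM0 : St_M0)
    (hMOD : St_MOD) (hDISC : St_DISC) (hFE : St_FE) (_hEXP1 : St_EXP1) (hGEO1 : St_GEO1)
    (hT1 : St_T1) (hT3 : St_T3) (hR : St_R) (hH0L : St_H0L) : St_LT0 := by
  intro γ hγ C hC η hη
  have : IsProbabilityMeasure gm := hG1.1
  obtain ⟨r, hr, c, hc, p, hp, t0, hpz⟩ := pz hG1 hT1 hT3 hR hH0L γ hγ
  obtain ⟨M0⟩ := hM0
  obtain ⟨M, hO, hC0, -⟩ := (hMOD M0).2.2.1 (ctr []) (Real.exp C) (Real.exp_pos _)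
  rw [Real.log_exp] at hC0
  have h1e := Real.one_le_exp hC
  have hd : ∀ T : Dy, ∀ y ∈ box T, ‖y - ctr []‖ ≤ 3 / 4 := fun T y hy => by
    have h1 := (hGEO1.2.2.2.1 []).2.2.2.1 y ((hGEO1.2.2.2.2.1 T []).2 List.nil_suffix hy)
    linarith [(hGEO1.1 []).2]
  have hGram : Gram M.eS (covE C) := by
    have := (hMOD M).2.2.2.2.2.2.1 [] fun y hy => by
      rw [hO, mem_ball, dist_eq_norm]; linarith [hd [] y hy]
    simpa [hC0] using this
  obtain ⟨N0, hN0⟩ := small 1 ENNReal.one_ne_top p (η / 3) hp (by positivity)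
  set n : ℕ := ⌈2 * r⌉₊ with hn
  have hnr : 2 * r ≤ n := Nat.le_ceil _
  have : NeZero n := ⟨(Nat.ceil_pos.2 (by linarith)).ne'⟩
  obtain ⟨k, hk⟩ := pow_unbounded_of_one_lt
    (max ((Fintype.card (ZMod n × ZMod n) * ⌈N0⌉₊ : ℕ) : ℝ) (8 * r)) (one_lt_two (α := ℝ))
  obtain ⟨y, -, hy⟩ := Finset.exists_le_card_fiber_of_mul_le_card_of_maps_to (s := lev k)
    (t := Finset.univ) (f := cls n) (n := ⌈N0⌉₊) (fun _ _ => Finset.mem_univ _)
    Finset.univ_nonempty (by
      rw [hT1.2.1 k, Finset.card_univ]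
      have h1 : ((Fintype.card (ZMod n × ZMod n) * ⌈N0⌉₊ : ℕ) : ℝ) ≤ 4 ^ k :=
        ((le_max_left _ _).trans hk.le).trans (pow_le_pow_left₀ zero_le_two (by norm_num) k)
      exact_mod_cast h1)
  set s := (lev k).filter fun T => cls n T = y with hs
  have hlen : ∀ T ∈ s, T.length = k := fun T hT => (hT1.1 k T).1 (Finset.mem_filter.1 hT).1
  have hball : ∀ T ∈ s, closedBall (ctr T) (r * side T) ⊆ M.O := by
    intro T hT z hz
    have h1 := hd T _ (hGEO1.2.2.2.1 T).2.2.1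
    have h2 : r * side T ≤ 1 / 8 := by
      rw [side, hlen T hT, one_div, inv_pow, ← div_eq_mul_inv, div_le_iff₀ (by positivity)]
      linarith [(le_max_right _ _).trans hk.le]
    rw [mem_closedBall, dist_eq_norm] at hz
    rw [hO, mem_ball, dist_eq_norm]
    linarith [norm_sub_le_norm_sub_add_norm_sub z (ctr T) (ctr [])]
  obtain ⟨CD, -, -, -, hD3⟩ := id hDISC
  obtain ⟨C2, hC2⟩ := (hCH.2.2.2 2).1 (CD / r)
  set e : Dy → HH := fun T => M.eC (ctr T) (r * side T) with he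
  set qq : Dy → Dy → HH := fun T S => M.qv (ctr T) (r * side T) (unif (S ++ T)) with hqq
  set Z : Dy → Om → ℝ := fun T ω => zs fun S => ω (qq T S) with hZ
  have hZm : ∀ T, Measurable (Z T) := fun T => hCH.1.comp (meas_fam _)
  obtain ⟨Mx, hMx⟩ := small (∑ T ∈ s, (eE (‖(-2 : ℝ) • e T‖ ^ 2 / 2) + ENNReal.ofReal C2))
    (ENNReal.sum_ne_top.2 fun _ _ => ENNReal.add_ne_top.2 ⟨eE_ne_top _, ENNReal.ofReal_ne_top⟩)
    1 (η / 3) one_pos (by positivity)
  obtain ⟨u1, hu1⟩ := small (∑ B ∈ upto k, eE (QQ γ * B.length * l2 + ‖-M.eS B‖ ^ 2 / 2))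
    (ENNReal.sum_ne_top.2 fun _ _ => eE_ne_top _) 1 (η / 3) one_pos (by positivity)
  refine ⟨c * Real.exp (-(γ * (QQ γ * k * l2 + Mx))), by positivity,
    max u1 (t0 + (QQ γ * k * l2 + Mx)), fun v hv u hu => ?_⟩
  set t := u - (QQ γ * k * l2 + Mx) with ht
  have hA : ∀ u b, MeasurableSet {y : Dy → ℝ | nB (drift (QQ γ) y u) ≤ b} := fun u b =>
    measurableSet_le (hT3.1.comp (meas_drift _ u)) measurable_const
  have e0 : c * Real.exp (-(γ * (QQ γ * k * l2 + Mx))) * Real.exp (γ * u) =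
      c * Real.exp (γ * t) := by
    rw [mul_assoc, ← Real.exp_add, ht]; congr 2; ring
  have e1 : gm {ω | nB (XV γ v u ω) ≤ ENNReal.ofReal (c * Real.exp (γ * t))} =
      gm {ω | nB (XV γ M.eS u ω) ≤ ENNReal.ofReal (c * Real.exp (γ * t))} := by
    have h1 := hG3.2.2.1 Dy v M.eS fun S S' => (hv S S').trans (hGram S S').symm
    have h2 := congrArg (fun μ : Measure (Dy → ℝ) =>
      μ {y | nB (drift (QQ γ) y u) ≤ ENNReal.ofReal (c * Real.exp (γ * t))}) h1
    simp only [Measure.map_apply (meas_fam _) (hA _ _)] at h2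
    exact h2
  rw [e0, e1]
  set A := {y : Dy → ℝ | nB (drift (QQ γ) y t) ≤ ENNReal.ofReal (c * Real.exp (γ * t))} with hAd
  have hinc : {ω | nB (XV γ M.eS u ω) ≤ ENNReal.ofReal (c * Real.exp (γ * t))} ≤ᵐ[gm]
      ((⋃ B ∈ upto k, {ω | XV γ M.eS u ω B ≤ 0}) ∪ ((⋃ T ∈ s, {ω | ω (e T) - Z T ω < -Mx}) ∪
        ⋂ j ∈ (Finset.univ : Finset s), (fun (ω : Om) S => ω (gR M r j.1 S)) ⁻¹' A) : Set Om) := by
    have h1 : ∀ᵐ ω ∂gm, ∀ T ∈ s, ∀ S, |ω (qq T S)| ≤ Z T ω :=
      (ae_ball_iff s.countable_toSet).2 fun T hT =>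
        hCH.2.2.1 _ _ (hD3 M T r hr (hball T hT)).2.1
    filter_upwards [h1] with ω hω hb
    by_contra hcon
    change ¬(ω ∈ (_ ∪ (_ ∪ _) : Set Om)) at hcon
    simp only [mem_union, mem_iUnion, mem_iInter, mem_setOf_eq, not_or, not_exists, not_forall,
      not_le, not_lt, mem_preimage, hAd] at hcon
    obtain ⟨c1, c2, j, -, c3⟩ := hcon
    have h2 : IntN (XV γ M.eS u ω) j.1 := fun B hB =>
      c1 B (mem_upto hT1 (hB.length_le.trans (hlen _ j.2).le))
    refine absurd (c3.trans_le ((hT1.2.2.2.2.2.2.2.2.2.2.2.2.2.2.2.1 _ _ fun S => ?_).trans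
      (hT1.2.2.2.2.2.2.2.2.2.2.2.2.2.2.2.2.2.1 _ _ h2))) (not_lt.2 hb)
    have e2 : M.eS (S ++ j.1) = gR M r j.1 S + (e j.1 + qq j.1 S) := by
      rw [← gR_add_hR M r]; simp [hR, he, hqq, Model.qv, LLN.hR]
    rw [sub_XV, hlen _ j.2]
    simp only [XV, drift, e2, map_add]
    linarith [(abs_le.1 (hω _ j.2 S)).1, c2 _ j.2]
  refine (measure_mono_ae hinc).trans ((measure_union_le _ _).trans
    ((add_le_add le_rfl (measure_union_le _ _)).trans ?_))
  have i1 : gm (⋃ B ∈ upto k, {ω | XV γ M.eS u ω B ≤ 0}) ≤ ENNReal.ofReal (η / 3) := by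
    refine (measure_biUnion_finset_le _ _).trans
      (le_trans ?_ (hu1 u (le_trans (le_max_left _ _) hu)))
    rw [Finset.sum_mul]
    refine Finset.sum_le_sum fun B _ => ?_
    have hm : Measurable fun ω : Om => eE (ω (-M.eS B)) := meas_eE.comp (meas_ev _)
    refine (markov (hm.const_mul (eE (QQ γ * B.length * l2 - u))) fun ω hω => ?_).trans
      (le_of_eq ?_)
    · rw [← eE_add, map_neg]
      simp only [mem_setOf_eq, XV, drift] at hω
      exact one_le_eE (by linarith)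
    · rw [lintegral_const_mul _ hm, hG1D.1, ← eE_add, ← eE_add]
      congr 1; ring
  have i2 : gm (⋃ T ∈ s, {ω : Om | ω (e T) - Z T ω < -Mx}) ≤ ENNReal.ofReal (η / 3) := by
    refine (measure_biUnion_finset_le _ _).trans (le_trans ?_ (hMx Mx le_rfl))
    rw [Finset.sum_mul]
    refine Finset.sum_le_sum fun T hT => ?_
    have hm : Measurable fun ω : Om => eE (ω ((-2 : ℝ) • e T)) := meas_eE.comp (meas_ev _)
    have hm' : Measurable fun ω : Om => eE (2 * Z T ω) := meas_eE.comp ((hZm T).const_mul _)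
    have hm2 : Measurable fun ω : Om => eE (ω ((-2 : ℝ) • e T)) + eE (2 * Z T ω) := hm.add hm'
    refine (markov (hm2.mul_const (eE (-1 * Mx))) fun ω hω => ?_).trans ?_
    · simp only [mem_setOf_eq] at hω
      rw [add_mul, ← eE_add, ← eE_add, map_smul, smul_eq_mul]
      by_cases h : 0 ≤ 2 * Z T ω + -1 * Mx
      · exact le_add_left (one_le_eE h)
      · exact le_add_right (one_le_eE (by linarith))
    · rw [lintegral_mul_const _ hm2, lintegral_add_left hm, hG1D.1]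
      exact mul_le_mul' (add_le_add le_rfl (hC2 _ (hD3 M T r hr (hball T hT)).2.1)) le_rfl
  have i3 : gm (⋂ j ∈ (Finset.univ : Finset s), (fun (ω : Om) S => ω (gR M r j.1 S)) ⁻¹' A) ≤
      ENNReal.ofReal (η / 3) := by
    have hind := hG3.2.2.2.2.2.1 s (fun _ => Dy) (fun j => gR M r j.1) fun j j' hne =>
      (geoR hFE hDISC hGEO1 M hr j.1 j'.1 (hball _ j'.2)).2 (sepR_of_cls hGEO1 hnr
        ((hlen _ j.2).trans (hlen _ j'.2).symm)
        ((Finset.mem_filter.1 j.2).2.trans (Finset.mem_filter.1 j'.2).2.symm)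
        fun h => hne (Subtype.ext h))
    rw [hind.measure_inter_preimage_eq_mul Finset.univ fun _ _ => hA _ _]
    refine (Finset.prod_le_pow_card _ _ (eE (-p)) fun j _ => hpz _
      (hD3 M j.1 r hr (hball _ j.2)).1 t (by linarith [le_trans (le_max_right _ _) hu])).trans ?_
    rw [Finset.card_univ, Fintype.card_coe, ← ENNReal.rpow_natCast, eE_rpow, ← one_mul (eE _)]
    exact hN0 _ ((Nat.le_ceil N0).trans (by exact_mod_cast hy))
  refine (add_le_add i1 (add_le_add i2 i3)).trans (le_of_eq ?_)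
  rw [← ENNReal.ofReal_add (by positivity) (by positivity),
    ← ENNReal.ofReal_add (by positivity) (by positivity)]
  congr 1; ring

end

end Pool.Agent.Lib.APPS
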