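import Pool.Agent.Lib.APPS.Blue3

/-! Block LZ1: observables of a radially weighted measure are measurable functions of the
weight and of countably many integrals. -/

namespace Pool.Agent.Lib.APPS

open MeasureTheory Filter Topology Set
open scoped NNReal ENNReal CompactlySupported Classical

noncomputable section

namespace LZ1

def ψ : ℕ → C(ℝ, ℝ) := TopologicalSpace.denseSeq C(ℝ, ℝ)

def P (γ : ℝ) (j n : ℕ) (z : ℝ → ℝ) : Prop :=
  ∀ q : ℚ, |(q : ℝ)| < j → |ψ n q - Real.exp (γ * z q)| ≤ 1 / (j + 1)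

lemma meas_P (γ : ℝ) (j n : ℕ) : MeasurableSet {z | P γ j n z} := by
  simp only [P, ofPred_forall]
  refine MeasurableSet.iInter fun q => MeasurableSet.iInter fun _ => ?_
  exact measurableSet_le (by fun_prop) measurable_const

lemma ex_P (γ : ℝ) (j : ℕ) {z : ℝ → ℝ} (hz : Continuous z) : ∃ n, P γ j n z := by
  let E : C(ℝ, ℝ) := ⟨fun t => Real.exp (γ * z t), by fun_prop⟩
  obtain ⟨x, hx, hl⟩ := mem_closure_iff_seq_limit.1 (TopologicalSpace.denseRange_denseSeq C(ℝ, ℝ) E)
  have := (Metric.tendstoUniformlyOn_iff.1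
    (ContinuousMap.tendsto_iff_forall_isCompact_tendstoUniformlyOn.1 hl (Icc (-j : ℝ) j)
      isCompact_Icc) (1 / (j + 1)) (by positivity)).exists
  obtain ⟨i, hi⟩ := this
  obtain ⟨n, hn⟩ := hx i
  refine ⟨n, fun q hq => ?_⟩
  have := hi q ⟨(abs_lt.1 hq).1.le, (abs_lt.1 hq).2.le⟩
  rw [dist_comm, Real.dist_eq, ← hn] at this
  exact this.le

lemma P_real {γ : ℝ} {j n : ℕ} {z : ℝ → ℝ} (hz : Continuous z) (h : P γ j n z) {t : ℝ}
    (ht : |t| < j) : |ψ n t - Real.exp (γ * z t)| ≤ 1 / (j + 1) := by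
  have hc : IsClosed {t : ℝ | |ψ n t - Real.exp (γ * z t)| ≤ 1 / (j + 1)} :=
    isClosed_le (by fun_prop) continuous_const
  have ho : IsOpen {t : ℝ | |t| < j} := isOpen_lt continuous_abs continuous_const
  refine hc.closure_subset_iff.2 ?_
    (Dense.open_subset_closure_inter (Rat.denseRange_cast (𝕜 := ℝ)) ho ht)
  rintro _ ⟨h1, q, rfl⟩
  exact h q h1

lemma ex' (γ : ℝ) (j : ℕ) (z : ℝ → ℝ) : ∃ n, P γ j n z ∨ ¬∃ n, P γ j n z := by
  by_cases h : ∃ n, P γ j n z
  · exact h.imp fun _ => Or.inl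
  · exact ⟨0, Or.inr h⟩

def N (γ : ℝ) (j : ℕ) (z : ℝ → ℝ) : ℕ := Nat.find (ex' γ j z)

lemma meas_N (γ : ℝ) (j : ℕ) : Measurable (N γ j) := by
  refine measurable_find (ex' γ j) fun n => (meas_P γ j n).union ?_
  have : MeasurableSet {z | ∃ n, P γ j n z} := by
    simp only [ofPred_exists]
    exact MeasurableSet.iUnion fun n => meas_P γ j n
  exact this.compl

lemma N_spec (γ : ℝ) (j : ℕ) {z : ℝ → ℝ} (hz : Continuous z) : P γ j (N γ j z) z :=
  (Nat.find_spec (ex' γ j z)).resolve_right fun h => h (ex_P γ j hz)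

def mulR (G : C_c(Cyl, ℝ)) (f : C(ℝ, ℝ)) : C_c(Cyl, ℝ) :=
  ⟨⟨fun w => G w * f w.1, by fun_prop⟩, G.hasCompactSupport.mul_right⟩

lemma integ (G : C_c(Cyl, ℝ)) (m : Measure Cyl) [IsFiniteMeasureOnCompacts m] :
    Integrable G m := (map_continuous G).integrable_of_hasCompactSupport G.hasCompactSupport

lemma conv (γ : ℝ) (G : C_c(Cyl, ℝ)) {T : ℝ} (hT : ∀ w, G w ≠ 0 → |w.1| ≤ T) (m : Measure Cyl)
    [IsFiniteMeasureOnCompacts m] {z : ℝ → ℝ} (hz : Continuous z) :
    Tendsto (fun j => ∫ w, mulR G (ψ (N γ j z)) w ∂m) atTop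
      (𝓝 (∫ w, G w * Real.exp (γ * z w.1) ∂m)) := by
  let E : C(ℝ, ℝ) := ⟨fun t => Real.exp (γ * z t), by fun_prop⟩
  have h0 : Tendsto (fun j : ℕ => (∫ w, |G w| ∂m) * (1 / ((j : ℝ) + 1))) atTop (𝓝 0) := by
    simpa using tendsto_one_div_add_atTop_nhds_zero_nat.const_mul (∫ w, |G w| ∂m)
  rw [tendsto_iff_norm_sub_tendsto_zero]
  refine squeeze_zero' (Eventually.of_forall fun _ => norm_nonneg _) ?_ h0
  filter_upwards [tendsto_natCast_atTop_atTop.eventually_gt_atTop T] with j hj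
  change ‖_ - ∫ w, mulR G E w ∂m‖ ≤ _
  rw [← integral_sub (integ _ m) (integ _ m), ← integral_mul_const]
  refine norm_integral_le_of_norm_le ((integ G m).abs.mul_const _)
    (Eventually.of_forall fun w => ?_)
  change |G w * ψ (N γ j z) w.1 - G w * Real.exp (γ * z w.1)| ≤ _
  rw [← mul_sub, abs_mul]
  by_cases h : G w = 0
  · simp [h]
  · exact mul_le_mul_of_nonneg_left (P_real hz (N_spec γ j hz) ((hT w h).trans_lt hj))
      (abs_nonneg _)

def val (γ : ℝ) (k : ℕ) (x : (ℝ → ℝ) × (ℕ → ℝ)) : ℝ :=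
  limsup (fun j => x.2 (Nat.pair k (N γ j x.1))) atTop

lemma meas_val (γ : ℝ) (k : ℕ) : Measurable (val γ k) := by
  refine Measurable.limsup fun j => ?_
  have : Measurable fun y : (ℕ → ℝ) × ℕ => y.1 (Nat.pair k y.2) :=
    measurable_from_prod_countable_left fun n => measurable_pi_apply (Nat.pair k n)
  exact this.comp (measurable_snd.prodMk ((meas_N γ j).comp measurable_fst))

end LZ1

open LZ1 in
theorem blk_LZ1 (hC : St_CYL) : St_LZ1 := by
  intro γ g
  obtain ⟨-, -, -, -, -, -, -, -, -, -, -, -, hs, -, hf, -, hf', -⟩ := hC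
  choose F hF using hf
  let G : ℕ → C_c(Cyl, ℝ) := fun k => if k % 2 = 0 then g (k / 2) else F (k / 2)
  have G0 : ∀ k, G (2 * k) = g k := fun k => by simp [G]
  have G1 : ∀ k, G (2 * k + 1) = F k := fun k => by
    have : (2 * k + 1) / 2 = k := by omega
    simp [G, this]
  refine ⟨fun j => mulR (G j.unpair.1) (ψ j.unpair.2),
    fun x => (⨆ K, ENNReal.ofReal (val γ (2 * K + 1) x), fun k => val γ (2 * k) x),
    (Measurable.iSup fun K => (meas_val γ _).ennreal_ofReal).prodMk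
      (measurable_pi_lambda _ fun k => meas_val γ _), fun m z hm hz => ?_⟩
  have hv : ∀ k, val γ k (z, fun j => ∫ w, mulR (G j.unpair.1) (ψ j.unpair.2) w ∂m) =
      ∫ w, G k w * Real.exp (γ * z w.1) ∂m := fun k => by
    obtain ⟨T, hT⟩ := (hs (G k)).2.2.2
    simp only [val, Nat.unpair_pair]
    exact (conv γ (G k) hT m hz).limsup_eq
  have hE : Continuous fun w : Cyl => Real.exp (γ * z w.1) := by fun_prop
  refine Prod.ext ?_ (funext fun k => ?_)
  · simp only [hv, G1, obs, wgt, eE]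
    have e : ∀ K, ENNReal.ofReal (∫ w, F K w * Real.exp (γ * z w.1) ∂m) =
        ∫⁻ w, ENNReal.ofReal (F K w * Real.exp (γ * z w.1)) ∂m := fun K =>
      ofReal_integral_eq_lintegral_ofReal
        (integ (mulR (F K) ⟨fun t => Real.exp (γ * z t), by fun_prop⟩) m)
        (Eventually.of_forall fun w => mul_nonneg (by rw [hF]; exact (hf' K w).1)
          (Real.exp_pos _).le)
    simp only [e]
    rw [withDensity_apply _ MeasurableSet.univ, Measure.restrict_univ, ← lintegral_iSup]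
    · refine lintegral_congr fun w => le_antisymm (iSup_le fun K => ENNReal.ofReal_le_ofReal
        (mul_le_of_le_one_left (Real.exp_pos _).le (by rw [hF]; exact (hf' K w).2.1))) ?_
      have hl : 0 < l2 := Real.log_pos one_lt_two
      obtain ⟨K, hK⟩ := exists_nat_ge (|w.1| / l2)
      refine le_iSup_of_le K ?_
      rw [hF, (hf' K w).2.2.1 ((div_le_iff₀ hl).1 hK), one_mul]
    · exact fun K => ((map_continuous (F K)).mul hE).measurable.ennreal_ofReal
    · refine monotone_nat_of_le_succ fun K w => ENNReal.ofReal_le_ofReal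
        (mul_le_mul_of_nonneg_right ?_ (Real.exp_pos _).le)
      rw [hF, hF]
      exact (hf' K w).2.2.2.2
  · simp only [hv, G0, obs, wgt, eE]
    rw [integral_withDensity_eq_integral_toReal_smul hE.measurable.ennreal_ofReal
      (Eventually.of_forall fun _ => ENNReal.ofReal_lt_top)]
    refine integral_congr_ae (Eventually.of_forall fun w => ?_)
    simp only [ENNReal.toReal_ofReal (Real.exp_pos _).le, smul_eq_mul, mul_comm]

end

end Pool.Agent.Lib.APPS
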