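import Pool.Agent.Lib.APPS.Blue3

/-!
Block LZ2: the lateral chaos measure is a stationary functional of the lateral field.
-/

namespace Pool.Agent.Lib.APPS

open MeasureTheory ProbabilityTheory Filter Topology Set Metric
open scoped NNReal ENNReal CompactlySupported BoundedContinuousFunction RealInnerProductSpace
  Classical

noncomputable section

namespace LZ2

theorem ae_small {Ω : Type} [MeasurableSpace Ω] {P : Measure Ω} (i : ℕ) (a b : ℕ → Ω → ℝ)
    (h : ∀ n, i ≤ n → P {ω | (1 / 2 : ℝ) ^ n ≤ dist (a n ω) (b n ω)} ≤ (2⁻¹ : ℝ≥0∞) ^ n) :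
    ∀ᵐ ω ∂P, Tendsto (fun n => dist (a n ω) (b n ω)) atTop (𝓝 0) := by
  have h1 : ∑' n, P {ω | i ≤ n ∧ (1 / 2 : ℝ) ^ n ≤ dist (a n ω) (b n ω)} ≠ ∞ := by
    refine ne_top_of_le_ne_top (b := ∑' n : ℕ, (2⁻¹ : ℝ≥0∞) ^ n) (by simp)
      (ENNReal.tsum_le_tsum fun n => ?_)
    by_cases hn : i ≤ n
    · simpa [hn] using h n hn
    · simp [hn]
  filter_upwards [ae_eventually_notMem h1] with ω hω
  refine squeeze_zero' (Eventually.of_forall fun _ => dist_nonneg) ?_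
    (tendsto_pow_atTop_nhds_zero_of_lt_one (r := (1 / 2 : ℝ)) (by norm_num) (by norm_num))
  filter_upwards [hω, eventually_ge_atTop i] with n h2 h3
  by_contra h4
  exact h2 ⟨h3, (not_le.1 h4).le⟩

theorem ev_small {Ω : Type} [MeasurableSpace Ω] {P : Measure Ω} (F : ℕ → ℕ → Ω → ℝ)
    (s : ℕ → Ω → ℝ) (h : ∀ i, TendstoInMeasure P (F i) atTop (s i)) (n : ℕ) :
    ∃ k, ∀ i, i ≤ n → P {ω | (1 / 2 : ℝ) ^ n ≤ dist (F i k ω) (s i ω)} ≤ (2⁻¹ : ℝ≥0∞) ^ n := by
  have : ∀ᶠ k in atTop, ∀ i ∈ Finset.range (n + 1),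
      P {ω | (1 / 2 : ℝ) ^ n ≤ dist (F i k ω) (s i ω)} ≤ (2⁻¹ : ℝ≥0∞) ^ n := by
    rw [eventually_all_finset]
    intro i _
    exact (tendstoInMeasure_iff_dist.1 (h i) _ (by positivity)).eventually
      (ge_mem_nhds (ENNReal.pow_pos (by simp) n))
  obtain ⟨k, hk⟩ := this.exists
  exact ⟨k, fun i hi => hk i (Finset.mem_range.2 (by omega))⟩

theorem sel0 {Ω : Type} [MeasurableSpace Ω] {P : Measure Ω} (s : ℕ → Ω → ℝ)
    (F : ℕ → ℕ → Ω → ℝ) (G : ℕ → ℕ → ℕ → Ω → ℝ)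
    (hF : ∀ i, TendstoInMeasure P (F i) atTop (s i))
    (hG : ∀ i k, TendstoInMeasure P (G i k) atTop (F i k)) :
    ∃ k l : ℕ → ℕ, ∀ i, ∀ᵐ ω ∂P, Tendsto (fun n => G i (k n) (l n) ω) atTop (𝓝 (s i ω)) := by
  choose k hk using ev_small F s hF
  choose l hl using fun n => ev_small (fun i => G i (k n)) (fun i => F i (k n))
    (fun i => hG i (k n)) n
  refine ⟨k, l, fun i => ?_⟩
  filter_upwards [ae_small i (fun n => F i (k n)) (fun _ => s i) fun n hn => hk n i hn,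
    ae_small i (fun n => G i (k n) (l n)) (fun n => F i (k n)) fun n hn => hl n i hn] with ω h1 h2
  rw [tendsto_iff_dist_tendsto_zero]
  have h3 := h2.add h1
  rw [add_zero] at h3
  exact squeeze_zero (fun _ => dist_nonneg) (fun n => dist_triangle _ _ _) h3

theorem sel {Ω ι : Type} [Countable ι] [Nonempty ι] [MeasurableSpace Ω] {P : Measure Ω}
    (s : ι → Ω → ℝ) (F : ι → ℕ → Ω → ℝ) (G : ι → ℕ → ℕ → Ω → ℝ)
    (hF : ∀ i, TendstoInMeasure P (F i) atTop (s i))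
    (hG : ∀ i k, TendstoInMeasure P (G i k) atTop (F i k)) :
    ∃ k l : ℕ → ℕ, ∀ i, ∀ᵐ ω ∂P, Tendsto (fun n => G i (k n) (l n) ω) atTop (𝓝 (s i ω)) := by
  obtain ⟨e, he⟩ := exists_surjective_nat ι
  obtain ⟨k, l, h⟩ := sel0 (fun i => s (e i)) (fun i => F (e i)) (fun i => G (e i))
    (fun i => hF _) (fun i => hG _)
  refine ⟨k, l, fun i => ?_⟩
  obtain ⟨j, rfl⟩ := he i
  exact h j

theorem tim_of_L1 {Ω : Type} [MeasurableSpace Ω] {P : Measure Ω} (a : ℕ → Ω → ℝ) (b : Ω → ℝ)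
    (ha : ∀ n, Measurable (a n)) (hb : Measurable b)
    (h : Tendsto (fun l => ∫⁻ ω, ENNReal.ofReal |b ω - a l ω| ∂P) atTop (𝓝 0)) :
    TendstoInMeasure P a atTop b := by
  refine tendstoInMeasure_of_ne_top fun ε hε hε' => ?_
  have h1 := ENNReal.Tendsto.div_const h (b := ε) (Or.inr hε.ne')
  rw [ENNReal.zero_div] at h1
  refine tendsto_of_tendsto_of_tendsto_of_le_of_le tendsto_const_nhds h1 (fun _ => zero_le)
    fun l => ?_
  have h2 := meas_ge_le_lintegral_div (μ := P) (f := fun ω => ENNReal.ofReal |b ω - a l ω|)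
    (ENNReal.measurable_ofReal.comp (hb.sub (ha l)).abs).aemeasurable hε.ne' hε'
  refine le_trans (le_of_eq ?_) h2
  congr 1
  ext ω
  simp only [mem_ofPred_eq, edist_dist, Real.dist_eq, abs_sub_comm]

/-- translation of the cylinder -/
def tH (r : ℝ) : Cyl ≃ₜ Cyl := (Homeomorph.subRight r).prodCongr (Homeomorph.refl _)

theorem tH_apply (r : ℝ) (w : Cyl) : tH r w = (w.1 - r, w.2) := rfl

/-- translated test function -/
def tC (r : ℝ) (f : C_c(Cyl, ℝ)) : C_c(Cyl, ℝ) where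
  toFun w := f (tH r w)
  continuous_toFun := f.continuous.comp (tH r).continuous
  hasCompactSupport' := f.hasCompactSupport.comp_homeomorph (tH r)

theorem tC_apply (r : ℝ) (f : C_c(Cyl, ℝ)) (w : Cyl) : tC r f w = f (w.1 - r, w.2) := rfl

theorem int_trans (r : ℝ) (m : Measure Cyl) (g : Cyl → ℝ) :
    ∫ w, g w ∂trans r m = ∫ w, g (w.1 - r, w.2) ∂m :=
  (tH r).measurableEmbedding.integral_map g

theorem trans_zero (m : Measure Cyl) : trans 0 m = m := by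
  unfold trans
  simp

/-- Riemann sum functional of the lateral field -/
def Xi (γ : ℝ) (f : C_c(Cyl, ℝ)) (k l : ℕ) (y : Cyl × ℕ → ℝ) : ℝ :=
  Rie l fun w => ((((1 / 2 : ℝ) ^ k) ^ (γ ^ 2 / 2)) • f) w * Real.exp (γ * y (w, k))

theorem meas_Xi (hR : St_RIEM) (γ : ℝ) (f : C_c(Cyl, ℝ)) (k l : ℕ) :
    Measurable (Xi γ f k l) := by
  obtain ⟨s, hs⟩ := hR.1 ((((1 / 2 : ℝ) ^ k) ^ (γ ^ 2 / 2)) • f) l
  have : Xi γ f k l = fun y => ∑ i ∈ s, (1 / 4 : ℝ) ^ l / ‖xl l i‖ ^ 2 *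
      (((((1 / 2 : ℝ) ^ k) ^ (γ ^ 2 / 2)) • f) (toCyl (xl l i)) *
        Real.exp (γ * y (toCyl (xl l i), k))) := by
    funext y
    exact tsum_eq_sum fun i hi => by simp only [hs i hi, zero_mul, mul_zero]
  rw [this]
  exact Finset.measurable_sum _ fun i _ => measurable_const.mul (measurable_const.mul
    (Real.measurable_exp.comp (measurable_const.mul (measurable_pi_apply _))))

/-- shift of a field on the cylinder -/
def sF (r : ℝ) (y : Cyl × ℕ → ℝ) (p : Cyl × ℕ) : ℝ := y ((p.1.1 + r, p.1.2), p.2)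

theorem meas_sF (r : ℝ) : Measurable (sF r) :=
  measurable_pi_lambda _ fun _ => measurable_pi_apply _

theorem sF_zero (y : Cyl × ℕ → ℝ) : sF 0 y = y := by
  funext p
  simp [sF]

theorem muZ_zero {γ : ℝ} (D : QD γ) (ω : D.Ω) : D.muZ (fun _ _ => 0) ω = D.nu ω := by
  unfold QD.muZ wgt
  simp [eE]

theorem approx (hM0 : St_M0) (hC : St_CYL) (hB : St_BM2) (hQ : St_QV) (hR : St_RIEM)
    (hBR : St_BR0) {γ : ℝ} (hγ : γ ∈ Ioo (0 : ℝ) 2) (D : QD γ) (f : C_c(Cyl, ℝ)) (r : ℝ) :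
    TendstoInMeasure D.P (fun k => D.Ik (fun _ _ => 0) k (tC r f)) atTop
        (fun ω => ∫ w, f w ∂trans r (D.nu ω)) ∧
      ∀ k, TendstoInMeasure D.P (fun l ω => Xi γ f k l (sF r fun p => D.L p ω)) atTop
        (D.Ik (fun _ _ => 0) k (tC r f)) := by
  obtain ⟨M⟩ := hM0
  have := (hB.1 γ D).2
  obtain ⟨h1, -, h3⟩ := (hBR γ hγ D).2 (fun _ _ => 0) measurable_const
    (Eventually.of_forall fun _ => continuous_const) (tC r f)
  refine ⟨?_, fun k => ?_⟩
  · simpa only [muZ_zero, int_trans, tC_apply] using h3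
  have hL : Measurable fun ω p => D.L p ω := measurable_pi_lambda _ D.hq.lat.meas
  refine tim_of_L1 _ _ (fun l => (meas_Xi hR γ f k l).comp ((meas_sF r).comp hL)) (h1 k) ?_
  obtain ⟨q1, q2, q3⟩ := (hQ γ D M).2 0 r k
  have h4 := (hR.2 D.Ω D.P _ q1 q2 q3 ((((1 / 2 : ℝ) ^ k) ^ (γ ^ 2 / 2)) • f)).2
  refine h4.congr fun l => lintegral_congr fun ω => ?_
  congr 3
  · rw [← hC.2.2.2.2.2.2.2.2.2.1 r, int_trans]
    refine integral_congr_ae (Eventually.of_forall fun w => ?_)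
    simp only [tC_apply, CompactlySupportedContinuousMap.smul_apply, smul_eq_mul, zero_mul,
      zero_add, sub_add_cancel]
    ring
  · simp only [Xi, sF, zero_mul, zero_add]

end LZ2

open LZ2 in
theorem blk_LZ2 (_hG1 : St_G1) (hG3 : St_G3) (hM0 : St_M0) (hC : St_CYL) (hB : St_BM2)
    (hLAT : St_LAT) (hQ : St_QV) (hR : St_RIEM) (hBR : St_BR0) : St_LZ2 := by
  intro γ hγ D h r
  have hL : Measurable fun ω p => D.L p ω := measurable_pi_lambda _ D.hq.lat.meas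
  set ρ : Bool → ℝ := fun b => if b then r else 0 with hρ
  obtain ⟨k, l, hkl⟩ := sel (P := D.P) (ι := ℕ × Bool)
    (fun i ω => ∫ w, h i.1 w ∂trans (ρ i.2) (D.nu ω))
    (fun i k => D.Ik (fun _ _ => 0) k (tC (ρ i.2) (h i.1)))
    (fun i k l ω => Xi γ (h i.1) k l (sF (ρ i.2) fun p => D.L p ω))
    (fun i => (approx hM0 hC hB hQ hR hBR hγ D _ _).1)
    (fun i => (approx hM0 hC hB hQ hR hBR hγ D _ _).2)
  set Ξ : (Cyl × ℕ → ℝ) → ℕ → ℝ := fun y j =>
    liminf (fun n => Xi γ (h j) (k n) (l n) y) atTop with hΞ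
  have hΞm : Measurable Ξ :=
    measurable_pi_lambda _ fun j => Measurable.liminf fun n => meas_Xi hR γ _ _ _
  have hae : ∀ b, (fun ω => Ξ (sF (ρ b) fun p => D.L p ω)) =ᵐ[D.P]
      fun ω j => ∫ w, h j w ∂trans (ρ b) (D.nu ω) := by
    intro b
    filter_upwards [ae_all_iff.2 fun j => hkl (j, b)] with ω hω
    funext j
    exact (hω j).liminf_eq
  have e1 := hae true
  have e0 := hae false
  simp only [hρ, if_true] at e1
  simp only [hρ, Bool.false_eq_true, if_false, trans_zero, sF_zero] at e0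
  refine ⟨(hΞm.comp ((meas_sF r).comp hL)).aemeasurable.congr e1, ?_, ?_⟩
  · exact (D.hq.ind₂.comp measurable_id (hΞm.comp (meas_sF r))).congr EventuallyEq.rfl e1
  obtain ⟨M⟩ := hM0
  obtain ⟨-, C, -, -, -, hM⟩ := hLAT.2.2 D.θ D.hθ
  obtain ⟨hg, -, -, -, -, hs⟩ := hM M
  have hlaw := hG3.1 _ _ D.L D.P _ D.hq.lat _ hg
  have hev : ∀ v : Cyl × ℕ → HH, Measurable fun (ω : Om) p => ω (v p) := fun v =>
    measurable_pi_lambda _ fun p => meas_ev _
  have hst : (D.P.map fun ω p => D.L p ω).map (sF r) = D.P.map fun ω p => D.L p ω := by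
    rw [hlaw, Measure.map_map (meas_sF r) (hev _)]
    exact hG3.2.2.1 _ (fun p : Cyl × ℕ => M.lamV D.θ ((p.1.1 + r, p.1.2), p.2)) _ fun s t => by
      rw [hg, hg, hs]
  rw [← Measure.map_congr e1, ← Measure.map_congr e0]
  calc _ = ((D.P.map fun ω p => D.L p ω).map (sF r)).map Ξ := by
        rw [Measure.map_map (meas_sF r) hL, Measure.map_map hΞm ((meas_sF r).comp hL)]
        rfl
    _ = _ := by
        rw [hst, Measure.map_map hΞm hL]
        rfl

end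

end Pool.Agent.Lib.APPS
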