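import Pool.Agent.Lib.APPS.Blue2

/-!
Block MAC: deterministic consequences of the macroscopic structure event.
-/

namespace Pool.Agent.Lib.APPS

open MeasureTheory ProbabilityTheory Filter Topology Set Metric
open scoped NNReal ENNReal Classical

noncomputable section

namespace MAC

theorem suf_of_le {A B T : Dy} (hB : B <:+ T) (hA : A <:+ T) (h : B.length ≤ A.length) :
    B <:+ A := List.suffix_of_suffix_length_le hB hA h

theorem sh_le (x : Dy → ℝ) {s t : ℝ} (h : s ≤ t) (S : Dy) : sh x s S ≤ sh x t S := by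
  unfold sh; linarith

theorem sh_zero (x : Dy → ℝ) : sh x 0 = x := by
  funext S; simp [sh]

theorem intN_mono {x y : Dy → ℝ} (h : ∀ S, x S ≤ y S) {A : Dy} (hA : IntN x A) : IntN y A :=
  fun B hB => lt_of_lt_of_le (hA B hB) (h B)

theorem intN_suf {x : Dy → ℝ} {A B : Dy} (hA : IntN x A) (h : B <:+ A) : IntN x B :=
  fun B' hB' => hA B' (hB'.trans h)

theorem SR_one_nil (x : Dy → ℝ) : SR one x [] = nN x := by
  unfold SR nN one
  simp

theorem SR_nonneg {F : (Dy → ℝ) → ℝ} (hF : ∀ x, 0 ≤ F x ∧ F x ≤ 1) (x : Dy → ℝ) (R : Dy) :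
    0 ≤ SR F x R := Finset.sum_nonneg fun _ _ => (hF _).1

theorem sum_le_card {F : (Dy → ℝ) → ℝ} (hF : ∀ x, 0 ≤ F x ∧ F x ≤ 1) (x : Dy → ℝ)
    (U : Finset Dy) : ∑ A ∈ U, F (sub x A) ≤ (U.card : ℝ) := by
  calc ∑ A ∈ U, F (sub x A) ≤ ∑ _A ∈ U, (1 : ℝ) := Finset.sum_le_sum fun _ _ => (hF _).2
    _ = U.card := by simp

theorem tr_empty {x : Dy → ℝ} (h : ¬0 < x []) : tr x = ∅ := by
  have h0 : {A | IntN x A} = ∅ := by
    ext A
    simp only [Set.mem_ofPred_eq, Set.mem_empty_iff_false, iff_false]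
    intro hA
    exact h (hA [] List.nil_suffix)
  unfold tr
  split_ifs with hf
  · ext A
    simp only [Set.Finite.mem_toFinset, Finset.notMem_empty, iff_false]
    rw [h0]; simp
  · rfl

theorem one_bd : ∀ x, 0 ≤ one x ∧ one x ≤ 1 := fun _ => by simp [one]

theorem mono_one : Mono one :=
  ⟨measurable_const, one_bd, fun _ _ _ => le_rfl⟩

/-- the combinatorial part of the structure event -/
structure Dat (x : Dy → ℝ) (e : ℝ) (K1 : ℕ) (C : Finset Dy) (k : ℕ) (A0 : Dy) : Prop where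
  len0 : A0.length = K1
  lt : K1 < k
  mem : ∀ T ∈ C, T.length = k ∧ A0 <:+ T
  pos : ∀ T ∈ C, ∀ B, B <:+ T → B ≠ T → K1 < B.length → 1 < x B
  fin : nB (sh x 1) ≠ ∞
  out : (((tr (sh x 1)).filter fun A => ∀ T ∈ C, ¬T <:+ A).card : ℝ) ≤ e
  small : ∀ T ∈ C, nB (sub (sh x 1) T) ≤ ENNReal.ofReal e

section
variable (hT : St_T1)
include hT

theorem nB_mono {x y : Dy → ℝ} (h : ∀ S, x S ≤ y S) : nB x ≤ nB y :=
  hT.2.2.2.2.2.2.2.2.2.2.2.2.2.2.2.1 x y h

theorem has {x : Dy → ℝ} (h : nB x ≠ ∞) (A : Dy) : A ∈ tr x ↔ IntN x A :=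
  hT.2.2.2.2.2.2.2.2.2.2.2.2.1 x h A

theorem nB_eq {x : Dy → ℝ} (h : nB x ≠ ∞) : nB x = ENNReal.ofReal (nN x) := by
  have := (hT.2.2.2.2.2.2.2.2.2.2.2.1 x _ (hT.2.2.2.2.2.2.2.2.2.2.2.2.1 x h)).2.2.1
  rw [this, nN, ENNReal.ofReal_natCast]

theorem SR_eq (F : (Dy → ℝ) → ℝ) {x : Dy → ℝ} (h : nB x ≠ ∞) (A : Dy) :
    SR F x A = indR (IntN x A) * SR F (sub x A) [] :=
  hT.2.2.2.2.2.2.2.2.2.2.2.2.2.2.2.2.2.2.2.1 F x A h

theorem nB_sub {x : Dy → ℝ} {A : Dy} (h : IntN x A) : nB (sub x A) ≤ nB x :=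
  hT.2.2.2.2.2.2.2.2.2.2.2.2.2.2.2.2.2.1 x A h

variable {x : Dy → ℝ} {e : ℝ} {K1 : ℕ} {C : Finset Dy} {k : ℕ} {A0 : Dy}

theorem fin_s (D : Dat x e K1 C k A0) {s : ℝ} (hs : s ≤ 1) : nB (sh x s) ≠ ∞ :=
  ne_top_of_le_ne_top D.fin (nB_mono hT (sh_le x hs))

/-- a set of internal nodes avoiding the cluster is small -/
theorem card_out (D : Dat x e K1 C k A0) {s : ℝ} (hs : s ≤ 1) (U : Finset Dy)
    (hU : U ⊆ tr (sh x s)) (hC : ∀ A ∈ U, ∀ T ∈ C, ¬T <:+ A) : (U.card : ℝ) ≤ e := by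
  refine le_trans ?_ D.out
  have : U ⊆ (tr (sh x 1)).filter fun A => ∀ T ∈ C, ¬T <:+ A := by
    intro A hA
    refine Finset.mem_filter.2 ⟨?_, hC A hA⟩
    exact (has hT D.fin A).2 (intN_mono (sh_le x hs) ((has hT (fin_s hT D hs) A).1 (hU hA)))
  exact_mod_cast Finset.card_le_card this

theorem SR_T (D : Dat x e K1 C k A0) (F : (Dy → ℝ) → ℝ) {s : ℝ} (hs : s ∈ Icc (-1 : ℝ) 1)
    (h0 : IntN (sh x s) A0) {T : Dy} (hTC : T ∈ C) :
    SR F (sh x s) T = SR F (sub (sh x s) T) [] := by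
  rw [SR_eq hT F (fin_s hT D hs.2)]
  by_cases h : IntN (sh x s) T
  · simp [indR, h]
  · have hx : ¬0 < sub (sh x s) T [] := by
      intro hx
      apply h
      intro B hB
      by_cases hBT : B = T
      · subst hBT; simpa [sub] using hx
      · by_cases hl : K1 < B.length
        · have := D.pos T hTC B hB hBT hl
          have := hs.1
          unfold sh; linarith
        · exact h0 B (suf_of_le hB (D.mem T hTC).2 (by rw [D.len0]; omega))
    simp [indR, h, SR, tr_empty hx]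

theorem nN_T (D : Dat x e K1 C k A0) {s : ℝ} (hs : s ≤ 1) {T : Dy} (hTC : T ∈ C) (he : 0 ≤ e) :
    nN (sub (sh x s) T) ≤ e := by
  have h1 : nB (sub (sh x s) T) ≤ ENNReal.ofReal e :=
    le_trans (nB_mono hT fun S => sh_le x hs _) (D.small T hTC)
  have h2 : nB (sub (sh x s) T) ≠ ∞ := ne_top_of_le_ne_top ENNReal.ofReal_ne_top h1
  rw [nB_eq hT h2] at h1
  exact (ENNReal.ofReal_le_ofReal_iff he).1 h1

/-- if the top square is cut, the tree is small -/
theorem cut (D : Dat x e K1 C k A0) {F : (Dy → ℝ) → ℝ} (hF : ∀ x, 0 ≤ F x ∧ F x ≤ 1) {s : ℝ}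
    (hs : s ≤ 1) (h0 : ¬IntN (sh x s) A0) (R : Dy) : SR F (sh x s) R ≤ e := by
  refine le_trans (sum_le_card hF _ _) (card_out hT D hs _ (Finset.filter_subset _ _) ?_)
  intro A hA T hTC hTA
  have := (has hT (fin_s hT D hs) A).1 (Finset.mem_filter.1 hA).1
  exact h0 (intN_suf this ((D.mem T hTC).2.trans hTA))

/-- small squares carry little mass -/
theorem deep (D : Dat x e K1 C k A0) {F : (Dy → ℝ) → ℝ} (hF : ∀ x, 0 ≤ F x ∧ F x ≤ 1) {s : ℝ}
    (hs : s ≤ 1) (he : 0 ≤ e) (R : Dy) (hR : k < R.length) : SR F (sh x s) R ≤ e := by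
  by_cases h : ∃ T ∈ C, T <:+ R
  · obtain ⟨T, hTC, hTR⟩ := h
    have h1 : SR F (sh x s) R ≤ SR one (sh x s) T := by
      refine le_trans (sum_le_card hF _ _) ?_
      have : SR one (sh x s) T = (((tr (sh x s)).filter fun A => T <:+ A).card : ℝ) := by
        simp [SR, one]
      rw [this]
      exact_mod_cast Finset.card_le_card fun A hA =>
        Finset.mem_filter.2 ⟨(Finset.mem_filter.1 hA).1, hTR.trans (Finset.mem_filter.1 hA).2⟩
    refine le_trans h1 ?_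
    rw [SR_eq hT one (fin_s hT D hs), SR_one_nil]
    have := nN_T hT D hs hTC he
    unfold indR
    split_ifs
    · simpa using this
    · simpa using he
  · refine le_trans (sum_le_card hF _ _) (card_out hT D hs _ (Finset.filter_subset _ _) ?_)
    intro A hA T hTC hTA
    exact h ⟨T, hTC, suf_of_le hTA (Finset.mem_filter.1 hA).2 (by rw [(D.mem T hTC).1]; omega)⟩

/-- decomposition along the cluster -/
theorem dec (D : Dat x e K1 C k A0) {F : (Dy → ℝ) → ℝ} (hF : ∀ x, 0 ≤ F x ∧ F x ≤ 1) {s : ℝ}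
    (hs : s ∈ Icc (-1 : ℝ) 1) (h0 : IntN (sh x s) A0) (R : Dy) (hR : R.length ≤ k) :
    |SR F (sh x s) R - ∑ T ∈ C.filter (fun T => R <:+ T), SR F (sub (sh x s) T) []| ≤ e := by
  set U := (tr (sh x s)).filter fun A => R <:+ A with hU
  have h1 : SR F (sh x s) R = ∑ A ∈ U.filter (fun A => ∃ T ∈ C, T <:+ A), F (sub (sh x s) A) +
      ∑ A ∈ U.filter (fun A => ¬∃ T ∈ C, T <:+ A), F (sub (sh x s) A) :=
    (Finset.sum_filter_add_sum_filter_not U _ _).symm
  have h2 : U.filter (fun A => ∃ T ∈ C, T <:+ A) =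
      (C.filter fun T => R <:+ T).biUnion fun T => (tr (sh x s)).filter fun A => T <:+ A := by
    ext A
    simp only [hU, Finset.mem_filter, Finset.mem_biUnion]
    constructor
    · rintro ⟨⟨hA, hRA⟩, T, hTC, hTA⟩
      exact ⟨T, ⟨hTC, suf_of_le hRA hTA (by rw [(D.mem T hTC).1]; exact hR)⟩, hA, hTA⟩
    · rintro ⟨T, ⟨hTC, hRT⟩, hA, hTA⟩
      exact ⟨⟨hA, hRT.trans hTA⟩, T, hTC, hTA⟩
  have h3 : ∑ A ∈ U.filter (fun A => ∃ T ∈ C, T <:+ A), F (sub (sh x s) A) =
      ∑ T ∈ C.filter (fun T => R <:+ T), SR F (sub (sh x s) T) [] := by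
    rw [h2, Finset.sum_biUnion]
    · refine Finset.sum_congr rfl fun T hT' => ?_
      rw [← SR_T hT D F hs h0 (Finset.mem_filter.1 hT').1]
      rfl
    · intro T hT1 T' hT2 hne
      rw [Function.onFun, Finset.disjoint_left]
      intro A hA hA'
      have a1 := (D.mem T (Finset.mem_filter.1 hT1).1).1
      have a2 := (D.mem T' (Finset.mem_filter.1 hT2).1).1
      have := suf_of_le (Finset.mem_filter.1 hA).2 (Finset.mem_filter.1 hA').2 (by omega)
      exact hne (this.eq_of_length (by omega))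
  have h4 : ∑ A ∈ U.filter (fun A => ¬∃ T ∈ C, T <:+ A), F (sub (sh x s) A) ≤ e := by
    refine le_trans (sum_le_card hF _ _) (card_out hT D hs.2 _ ?_ ?_)
    · exact (Finset.filter_subset _ _).trans (Finset.filter_subset _ _)
    · intro A hA T hTC hTA
      exact (Finset.mem_filter.1 hA).2 ⟨T, hTC, hTA⟩
  have h5 : 0 ≤ ∑ A ∈ U.filter (fun A => ¬∃ T ∈ C, T <:+ A), F (sub (sh x s) A) :=
    Finset.sum_nonneg fun _ _ => (hF _).1
  rw [h1, h3, abs_le]
  constructor <;> linarith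

end

theorem dat_of {γ : ℝ} {F : (Dy → ℝ) → ℝ} {n η : ℝ} {K1 : ℕ} {x : Dy → ℝ}
    (h : Str γ F n η K1 x) : ∃ (C : Finset Dy) (k : ℕ) (w : Dy → ℝ) (A0 : Dy),
    Dat x (η * n) K1 C k A0 ∧ ∀ s ∈ Icc (-1 : ℝ) 1,
      ∑ T ∈ C, |SR F (sub (sh x s) T) [] - cc γ F * Real.exp (γ * s) * w T| ≤ η * n ∧
      ∑ T ∈ C, |nN (sub (sh x s) T) - cc γ one * Real.exp (γ * s) * w T| ≤ η * n := by
  obtain ⟨C, k, w, A0, h1, h2, h3, h4, h5, h6, h7, h8⟩ := h
  exact ⟨C, k, w, A0, ⟨h1, h2, fun T hT => ⟨(h3 T hT).1, (h3 T hT).2.1⟩, h4, h5, h6, h7⟩, h8⟩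

theorem abs_sub_sum (U C : Finset Dy) (hU : U ⊆ C) (f g : Dy → ℝ) {e : ℝ}
    (h : ∑ T ∈ C, |f T - g T| ≤ e) : |∑ T ∈ U, f T - ∑ T ∈ U, g T| ≤ e := by
  rw [← Finset.sum_sub_distrib]
  refine le_trans (Finset.abs_sum_le_sum_abs _ _) (le_trans ?_ h)
  exact Finset.sum_le_sum_of_subset_of_nonneg hU fun _ _ _ => abs_nonneg _

theorem partB (hT : St_T1) {γ : ℝ} {F : (Dy → ℝ) → ℝ} (hF : ∀ x, 0 ≤ F x ∧ F x ≤ 1)
    (hc1 : 0 < cc γ one) (hc0 : 0 ≤ cc γ F) (hc : cc γ F ≤ cc γ one) {n η : ℝ} {K1 : ℕ}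
    {x : Dy → ℝ} (he : 0 ≤ η * n) (h : Str γ F n η K1 x) {s : ℝ} (hs : s ∈ Icc (-1 : ℝ) 1)
    (R : Dy) :
    |SR F (sh x s) R - cc γ F / cc γ one * SR one (sh x s) R| ≤ 4 * (η * n) := by
  obtain ⟨C, k, w, A0, D, hw⟩ := dat_of h
  set r := cc γ F / cc γ one with hr
  have r0 : 0 ≤ r := div_nonneg hc0 hc1.le
  have r1 : r ≤ 1 := (div_le_one hc1).2 hc
  have small : SR F (sh x s) R ≤ η * n → SR one (sh x s) R ≤ η * n →
      |SR F (sh x s) R - r * SR one (sh x s) R| ≤ 4 * (η * n) := by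
    intro a b
    have a0 := SR_nonneg hF (sh x s) R
    have b0 := SR_nonneg one_bd (sh x s) R
    have c0 : 0 ≤ r * SR one (sh x s) R := mul_nonneg r0 b0
    have c1 : r * SR one (sh x s) R ≤ SR one (sh x s) R := mul_le_of_le_one_left b0 r1
    rw [abs_le]; constructor <;> linarith
  by_cases h0 : IntN (sh x s) A0
  · by_cases hR : R.length ≤ k
    · have d1 := dec hT D hF hs h0 R hR
      have d2 := dec hT D one_bd hs h0 R hR
      simp only [SR_one_nil] at d2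
      have e1 := abs_sub_sum _ C (Finset.filter_subset (fun T => R <:+ T) C) _ _ (hw s hs).1
      have e2 := abs_sub_sum _ C (Finset.filter_subset (fun T => R <:+ T) C) _ _ (hw s hs).2
      rw [← Finset.mul_sum] at e1 e2
      set W := ∑ T ∈ C.filter (fun T => R <:+ T), w T
      set a := ∑ T ∈ C.filter (fun T => R <:+ T), SR F (sub (sh x s) T) []
      set b := ∑ T ∈ C.filter (fun T => R <:+ T), nN (sub (sh x s) T)
      have key : SR F (sh x s) R - r * SR one (sh x s) R =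
          (SR F (sh x s) R - a) + (a - cc γ F * Real.exp (γ * s) * W) -
            r * ((SR one (sh x s) R - b) + (b - cc γ one * Real.exp (γ * s) * W)) := by
        have : r * cc γ one = cc γ F := by rw [hr]; field_simp
        rw [← this]; ring
      have f2 : |(SR one (sh x s) R - b) + (b - cc γ one * Real.exp (γ * s) * W)| ≤
          2 * (η * n) := le_trans (abs_add_le _ _) (by linarith)
      have f3 : |r * ((SR one (sh x s) R - b) + (b - cc γ one * Real.exp (γ * s) * W))| ≤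
          2 * (η * n) := by
        rw [abs_mul, abs_of_nonneg r0]
        exact le_trans (mul_le_of_le_one_left (abs_nonneg _) r1) f2
      rw [key]
      rw [abs_le] at d1 e1 f3 ⊢
      constructor <;> linarith
    · exact small (deep hT D hF hs.2 he R (by omega)) (deep hT D one_bd hs.2 he R (by omega))
  · exact small (cut hT D hF hs.2 h0 R) (cut hT D one_bd hs.2 h0 R)

theorem partA (hT : St_T1) {γ : ℝ} (hγ : γ ∈ Ioo (0 : ℝ) 2) {n η n' η' : ℝ} {K1 : ℕ}
    {x : Dy → ℝ} (he : 0 ≤ η' * n') (hle : (2 + 2 * Real.exp 4) * (η' * n') ≤ η * n)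
    (h : Str γ one n' η' K1 x) : Gro γ K1 n η x := by
  obtain ⟨C, k, w, A0, D, hw⟩ := dat_of h
  refine ⟨D.fin, fun s hs s' hs' hss => ?_⟩
  have hE0 : 0 < Real.exp (γ * (s' - s)) := Real.exp_pos _
  have hE : Real.exp (γ * (s' - s)) ≤ Real.exp 4 := by
    apply Real.exp_le_exp.2
    have := hs.1; have := hs'.2; have := hγ.1; have := hγ.2
    nlinarith
  have h4 : 0 < Real.exp 4 := Real.exp_pos _
  have est : ∀ t ∈ Icc (-1 : ℝ) 1, IntN (sh x t) A0 →
      |nN (sh x t) - cc γ one * Real.exp (γ * t) * ∑ T ∈ C, w T| ≤ 2 * (η' * n') := by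
    intro t ht h0
    have d2 := dec hT D one_bd ht h0 [] (Nat.zero_le _)
    simp only [SR_one_nil, List.nil_suffix, Finset.filter_true] at d2
    have e2 := abs_sub_sum C C subset_rfl _ _ (hw t ht).2
    rw [← Finset.mul_sum] at e2
    rw [abs_le] at d2 e2 ⊢
    constructor <;> linarith
  have nn : ∀ t, 0 ≤ nN (sh x t) := fun t => Nat.cast_nonneg _
  by_cases h0 : IntN (sh x s) A0
  · right
    have a := est s hs h0
    have b := est s' hs' (intN_mono (sh_le x hss) h0)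
    set W := ∑ T ∈ C, w T
    have key : nN (sh x s') - Real.exp (γ * (s' - s)) * nN (sh x s) =
        (nN (sh x s') - cc γ one * Real.exp (γ * s') * W) -
          Real.exp (γ * (s' - s)) * (nN (sh x s) - cc γ one * Real.exp (γ * s) * W) := by
      have : Real.exp (γ * s') = Real.exp (γ * (s' - s)) * Real.exp (γ * s) := by
        rw [← Real.exp_add]; congr 1; ring
      rw [this]; ring
    have f : |Real.exp (γ * (s' - s)) * (nN (sh x s) - cc γ one * Real.exp (γ * s) * W)| ≤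
        Real.exp 4 * (2 * (η' * n')) := by
      rw [abs_mul, abs_of_pos hE0]
      exact mul_le_mul hE a (abs_nonneg _) h4.le
    rw [key]
    rw [abs_le] at b f ⊢
    constructor <;> linarith
  · have a : nN (sh x s) ≤ η' * n' := by
      rw [← SR_one_nil]; exact cut hT D one_bd hs.2 h0 []
    have hp : 0 ≤ Real.exp 4 * (η' * n') := mul_nonneg h4.le he
    by_cases h1 : IntN (sh x s') A0
    · left
      refine ⟨by linarith, ?_⟩
      unfold IntN at h0
      push Not at h0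
      obtain ⟨B, hB, hx⟩ := h0
      exact ⟨B, by rw [← D.len0]; exact hB.length_le, hx, h1 B hB⟩
    · right
      have b : nN (sh x s') ≤ η' * n' := by
        rw [← SR_one_nil]; exact cut hT D one_bd hs'.2 h1 []
      have f : Real.exp (γ * (s' - s)) * nN (sh x s) ≤ Real.exp 4 * (η' * n') :=
        mul_le_mul hE a (nn s) h4.le
      have f0 : 0 ≤ Real.exp (γ * (s' - s)) * nN (sh x s) := mul_nonneg hE0.le (nn s)
      have := nn s'
      rw [abs_le]
      constructor <;> linarith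

theorem partC (hT : St_T1) {γ : ℝ} {n η : ℝ} {K1 K : ℕ} (hK : K ≤ K1) {x : Dy → ℝ}
    (hn : 0 < n) (hη : η < 1) (h : Str γ one n η K1 x) {S : Dy} (hS : S.length ≤ K)
    (hI : IntN x S) (h1 : ENNReal.ofReal n ≤ nB (sub x S))
    (h2 : ENNReal.ofReal n + nB (sub x S) ≤ nB x) : False := by
  obtain ⟨C, k, w, A0, D, -⟩ := dat_of h
  have hf : nB x ≠ ∞ := by
    have := fin_s hT D (s := 0) zero_le_one
    rwa [sh_zero] at this
  have hfs : nB (sub x S) ≠ ∞ := ne_top_of_le_ne_top hf (nB_sub hT hI)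
  have nn : ∀ y, 0 ≤ nN y := fun y => Nat.cast_nonneg _
  rw [nB_eq hT hfs] at h1 h2
  rw [nB_eq hT hf, ← ENNReal.ofReal_add hn.le (nn _)] at h2
  have h1' := (ENNReal.ofReal_le_ofReal_iff (nn _)).1 h1
  have h2' := (ENNReal.ofReal_le_ofReal_iff (nn _)).1 h2
  have hc : (((tr x).filter fun A => S <:+ A).card : ℝ) = nN (sub x S) := by
    have a : SR one x S = (((tr x).filter fun A => S <:+ A).card : ℝ) := by simp [SR, one]
    rw [← a, SR_eq hT one hf, SR_one_nil]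
    simp [indR, hI]
  have hlt : η * n < n := by nlinarith
  by_cases hA : S <:+ A0
  · have a := card_out hT D (s := 0) zero_le_one ((tr x).filter fun A => ¬S <:+ A)
      (by rw [sh_zero]; exact Finset.filter_subset _ _)
      (fun A hA' T hTC hTA =>
        (Finset.mem_filter.1 hA').2 (hA.trans ((D.mem T hTC).2.trans hTA)))
    have b : (((tr x).filter fun A => S <:+ A).card : ℝ) +
        (((tr x).filter fun A => ¬S <:+ A).card : ℝ) = nN x := by
      unfold nN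
      exact_mod_cast Finset.card_filter_add_card_filter_not (s := tr x) (fun A => S <:+ A)
    linarith
  · have a := card_out hT D (s := 0) zero_le_one ((tr x).filter fun A => S <:+ A)
      (by rw [sh_zero]; exact Finset.filter_subset _ _)
      (fun A hA' T hTC hTA => hA (suf_of_le (Finset.mem_filter.1 hA').2
        ((D.mem T hTC).2.trans hTA) (by rw [D.len0]; omega)))
    linarith

theorem scale {p ρ η η' : ℝ} (hρ : 0 < ρ) (hη : η' ≤ η * ρ ^ p) (E E' : ℝ → Set Om)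
    (h : ∀ᶠ n : ℝ in atTop, ENNReal.ofReal (n ^ p) * gm (E n) ≤ ENNReal.ofReal η')
    (hE : ∀ n, 0 < n → E' n ⊆ E (ρ * n)) :
    ∀ᶠ n : ℝ in atTop, ENNReal.ofReal (n ^ p) * gm (E' n) ≤ ENNReal.ofReal η := by
  have ht : Tendsto (fun n : ℝ => ρ * n) atTop atTop := tendsto_id.const_mul_atTop hρ
  filter_upwards [ht.eventually h, eventually_gt_atTop 0] with n h1 hn
  have hp : 0 < ρ ^ p := Real.rpow_pos_of_pos hρ p
  have e1 : ENNReal.ofReal (n ^ p) =
      ENNReal.ofReal (ρ ^ p)⁻¹ * ENNReal.ofReal ((ρ * n) ^ p) := by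
    rw [← ENNReal.ofReal_mul (inv_nonneg.2 hp.le), Real.mul_rpow hρ.le hn.le]
    congr 1
    field_simp
  calc ENNReal.ofReal (n ^ p) * gm (E' n)
      ≤ ENNReal.ofReal (n ^ p) * gm (E (ρ * n)) := by
        gcongr
        exact hE n hn
    _ = ENNReal.ofReal (ρ ^ p)⁻¹ * (ENNReal.ofReal ((ρ * n) ^ p) * gm (E (ρ * n))) := by
        rw [e1, mul_assoc]
    _ ≤ ENNReal.ofReal (ρ ^ p)⁻¹ * ENNReal.ofReal η' := by gcongr
    _ ≤ ENNReal.ofReal η := by
        rw [← ENNReal.ofReal_mul (inv_nonneg.2 hp.le)]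
        apply ENNReal.ofReal_le_ofReal
        rw [inv_mul_le_iff₀ hp]
        linarith

end MAC

theorem blk_MAC (_hG1 : St_G1) (hT1 : St_T1) (_hT3 : St_T3) (_hGEO1 : St_GEO1) (hR : St_R)
    (hSTR : St_STR) : St_MAC := by
  intro γ hγ M hM
  refine ⟨fun ρ η hρ hη => ?_, fun F hF η hη => ?_, fun K1 δ η hδ hη => ?_⟩
  · have h4 : 0 < 2 + 2 * Real.exp 4 := by positivity
    have hp : 0 < ρ ^ (th γ + 1) := Real.rpow_pos_of_pos hρ _
    set η' := min (η * ρ ^ (th γ + 1)) (η / ((2 + 2 * Real.exp 4) * ρ)) with hη'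
    have h0 : 0 < η' := lt_min (by positivity) (by positivity)
    obtain ⟨K1, -, h⟩ := hSTR γ hγ M hM one MAC.mono_one η' h0 0
    refine ⟨K1, MAC.scale hρ (min_le_left _ _) _ _ h fun n hn ω hω => ⟨hω.1, fun hs => hω.2 ?_⟩⟩
    refine MAC.partA hT1 hγ (by positivity) ?_ hs
    have : η' ≤ η / ((2 + 2 * Real.exp 4) * ρ) := min_le_right _ _
    rw [le_div_iff₀ (by positivity)] at this
    nlinarith
  · obtain ⟨K1, -, h⟩ := hSTR γ hγ M hM F hF (η / 4) (by positivity) 0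
    have hb : BddM F := ⟨hF.1, 1, hF.2.1⟩
    have hb1 : BddM one := ⟨measurable_const, 1, MAC.one_bd⟩
    obtain ⟨-, r2, -, -, r5, -, r7⟩ := hR γ hγ
    have hc : cc γ F ≤ cc γ one := r5 F one hb hb1 fun y _ => (hF.2.1 y).2
    refine MAC.scale (ρ := 1) one_pos (by rw [Real.one_rpow]; linarith) _ _ h
      fun n hn ω hω => ?_
    rw [one_mul]
    refine ⟨hω.1, fun hs => ?_⟩
    obtain ⟨s, hs1, R, hlt⟩ := hω.2
    have := MAC.partB hT1 hF.2.1 r7 (r2 F) hc (by positivity) hs hs1 R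
    linarith
  · have hp : 0 < δ ^ (th γ + 1) := Real.rpow_pos_of_pos hδ _
    set η' := min (η * δ ^ (th γ + 1)) (1 / 2) with hη'
    have h0 : 0 < η' := lt_min (by positivity) (by norm_num)
    have h1 : η' < 1 := lt_of_le_of_lt (min_le_right _ _) (by norm_num)
    obtain ⟨K, hK, h⟩ := hSTR γ hγ M hM one MAC.mono_one η' h0 K1
    refine MAC.scale hδ (min_le_left _ _) _ _ h fun n hn ω hω => ?_
    obtain ⟨S, hS, hI, a, b⟩ := hω
    refine ⟨?_, fun hs => MAC.partC hT1 hK (by positivity) h1 hs hS hI a b⟩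
    calc ENNReal.ofReal (δ * n) ≤ nB (M.X γ 0 ω) := le_trans le_self_add b
      _ ≤ nB (sh (M.X γ 0 ω) 1) := MAC.nB_mono hT1 fun S => by unfold sh; linarith

end

end Pool.Agent.Lib.APPS
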