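import Pool.Agent.Lib.APPS.B_MBg

/-!
Moment bound for the number of internal nodes.
-/

namespace Pool.Agent.Lib.APPS

open MeasureTheory ProbabilityTheory Filter Topology Set Metric
open scoped NNReal ENNReal RealInnerProductSpace Classical

noncomputable section

namespace MB

theorem ex_model (hM0 : St_M0) (hMOD : St_MOD) (hGEO1 : St_GEO1) :
    ∃ M : Model, (∀ T, closedBall (ctr T) (2 * side T) ⊆ M.O) ∧ 0 ≤ M.C0 ∧
      ∀ T, Gram (fun S => M.eS (S ++ T)) (covE (M.C0 + T.length * l2)) := by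
  obtain ⟨M0⟩ := hM0
  obtain ⟨M, hO, hC, -, -⟩ := (hMOD M0).2.2.1 (ctr []) 8 (by norm_num)
  have hM : ∀ T, closedBall (ctr T) (2 * side T) ⊆ M.O := by
    intro T y hy
    rw [hO, mem_ball, dist_eq_norm]
    rw [mem_closedBall, dist_eq_norm] at hy
    have h1 : ctr T ∈ box [] :=
      (hGEO1.2.2.2.2.1 T []).2 List.nil_suffix (hGEO1.2.2.2.1 T).2.2.1
    have h2 := (hGEO1.2.2.2.1 []).2.2.2.1 _ h1
    have h3 := (hGEO1.1 T).2
    have h4 := (hGEO1.1 []).2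
    have h5 := norm_add_le (y - ctr T) (ctr T - ctr [])
    rw [show y - ctr T + (ctr T - ctr []) = y - ctr [] by ring] at h5
    linarith
  refine ⟨M, hM, by rw [hC]; exact Real.log_nonneg (by norm_num), fun T => ?_⟩
  refine (hMOD M).2.2.2.2.2.2.1 T (fun y hy => hM T ?_)
  have h2 := (hGEO1.2.2.2.1 T).2.2.2.1 y hy
  have h3 := (hGEO1.1 T).1
  rw [mem_closedBall, dist_eq_norm]
  linarith

theorem ex_k (B : ℝ≥0∞) (hB : B ≠ ∞) (δ : ℝ) (hδ : 0 < δ) :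
    ∃ k : ℕ, 1 ≤ k ∧ 2 * (B * eE (-(k * δ))) ≤ 1 := by
  lift B to ℝ≥0 using hB
  obtain ⟨k, hk⟩ := exists_nat_ge (2 * (B : ℝ) / δ)
  refine ⟨k + 1, by omega, ?_⟩
  have h1 : 2 * (B : ℝ) ≤ Real.exp (((k + 1 : ℕ) : ℝ) * δ) := by
    have h2 := Real.add_one_le_exp (((k + 1 : ℕ) : ℝ) * δ)
    rw [div_le_iff₀ hδ] at hk
    push_cast at h2 ⊢
    nlinarith
  have h3 : (2 : ℝ≥0∞) * B ≤ eE (((k + 1 : ℕ) : ℝ) * δ) := by
    unfold eE
    refine le_trans (le_of_eq ?_) (ENNReal.ofReal_le_ofReal h1)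
    rw [ENNReal.ofReal_mul (by norm_num), ENNReal.ofReal_coe_nnreal]
    simp
  calc 2 * (B * eE (-(((k + 1 : ℕ) : ℝ) * δ))) = (2 * B) * eE (-(((k + 1 : ℕ) : ℝ) * δ)) := by
        rw [mul_assoc]
    _ ≤ eE (((k + 1 : ℕ) : ℝ) * δ) * eE (-(((k + 1 : ℕ) : ℝ) * δ)) := by gcongr
    _ = 1 := by rw [← eE_add, add_neg_cancel]; simp [eE]

theorem four_pow (k : ℕ) : ((4 ^ k : ℕ) : ℝ≥0∞) = eE (2 * k * l2) := by
  unfold eE l2
  have : Real.exp (2 * k * Real.log 2) = ((4 ^ k : ℕ) : ℝ) := by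
    rw [show 2 * (k : ℝ) * Real.log 2 = ((2 * k : ℕ) : ℝ) * Real.log 2 by push_cast; ring,
      Real.exp_nat_mul, Real.exp_log two_pos, pow_mul]
    push_cast
    norm_num
  rw [this, ENNReal.ofReal_natCast]

/-- The bound for one model and exponents larger than one. -/
theorem big (hG1 : St_G1) (hG1D : St_G1D) (hG3 : St_G3) (hROS : St_ROS) (hMOD : St_MOD)
    (hDISC : St_DISC) (hFM : St_FM) (hRW1 : St_RW1) (hT1 : St_T1) (hT3 : St_T3)
    (hGEO1 : St_GEO1) (hFE : St_FE)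
    (γ : ℝ) (hγ : γ ∈ Ioo (0 : ℝ) 2) (q : ℝ) (hq : 1 < q) (hq' : q < 4 / γ ^ 2) (M : Model)
    (hM : ∀ T, closedBall (ctr T) (2 * side T) ⊆ M.O) (hC0 : 0 ≤ M.C0)
    (hGr : ∀ T, Gram (fun S => M.eS (S ++ T)) (covE (M.C0 + T.length * l2))) :
    ∃ K : ℝ≥0∞, K ≠ ∞ ∧ ∀ u : ℝ,
      ∫⁻ ω, nB (drift (QQ γ) (fun S => ω (M.eS S)) u) ^ q ∂gm ≤ K * eE (γ * q * u) := by
  obtain ⟨-, hQ2, -, -, hgQ, -⟩ := hRW1.2.2 γ hγ
  obtain ⟨B, hB, hstep⟩ := step hG1 hG1D hG3 hROS hMOD hDISC hFM hT1 hT3 hGEO1 hFE γ hγ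
    (by linarith) q hq.le M hM hC0
  have hl2 := l2_pos
  have hγ2 : 0 < γ ^ 2 := pow_pos hγ.1 2
  have hδ : 0 < l2 * ((q - 1) * (2 - γ ^ 2 * q / 2)) := by
    rw [lt_div_iff₀ hγ2] at hq'
    have : 0 < 2 - γ ^ 2 * q / 2 := by linarith
    have : 0 < q - 1 := by linarith
    positivity
  obtain ⟨k, hk1, hk⟩ := ex_k B hB _ hδ
  obtain ⟨A, hA, hstep'⟩ := hstep k
  have hGr0 : Gram M.eS (covE M.C0) := by simpa using hGr []
  have hcut : ∀ (D : ℕ) (u : ℝ),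
      ∫⁻ ω, nB (cut D (drift (QQ γ) (fun S => ω (M.eS S)) u)) ^ q ∂gm ≤
        2 * A * eE (γ * q * u) := by
    intro D
    induction D using Nat.strong_induction_on with
    | _ D ih =>
    intro u
    rcases Nat.eq_zero_or_pos D with rfl | hD
    · simp [nB_cut_zero, ENNReal.zero_rpow_of_pos (lt_trans zero_lt_one hq)]
    refine (hstep' D u).trans ?_
    have hT : ∀ T ∈ lev k, ∫⁻ ω, nB (cut (D - k) (drift (QQ γ)
          (fun S => ω (M.eS (S ++ T))) (u - QQ γ * k * l2))) ^ q ∂gm ≤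
        2 * A * eE (γ * q * (u - QQ γ * k * l2) + (γ * q) ^ 2 * (k * l2) / 2) := by
      intro T hT
      have hlen : T.length = k := (hT1.1 k T).1 hT
      have hG := hGr T
      rw [hlen] at hG
      have := conv_up hG1 hG3 (QQ γ) (γ * q) (fun x => nB (cut (D - k) x) ^ q)
        ((hT3.1.comp (meas_cut _)).pow_const _) M.eS (fun S => M.eS (S ++ T)) M.C0
        (M.C0 + k * l2) (le_add_of_nonneg_right (by positivity)) hGr0 hG (2 * A)
        (ih (D - k) (by omega)) (u - QQ γ * k * l2)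
      rwa [add_sub_cancel_left] at this
    have hsum := Finset.sum_le_card_nsmul _ _ _ hT
    rw [hT1.2.1 k, nsmul_eq_mul, four_pow, mul_left_comm, ← eE_add] at hsum
    have e : 2 * k * l2 + (γ * q * (u - QQ γ * k * l2) + (γ * q) ^ 2 * (k * l2) / 2) =
        -(k * (l2 * ((q - 1) * (2 - γ ^ 2 * q / 2)))) + γ * q * u := by
      have : γ * q * (QQ γ * k * l2) = q * (γ * QQ γ) * k * l2 := by ring
      rw [mul_sub, this, hgQ]
      ring
    rw [e, eE_add] at hsum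
    calc A * eE (γ * q * u) + B * ∑ T ∈ lev k, ∫⁻ ω, nB (cut (D - k) (drift (QQ γ)
          (fun S => ω (M.eS (S ++ T))) (u - QQ γ * k * l2))) ^ q ∂gm
        ≤ A * eE (γ * q * u) + B * (2 * A * (eE (-(k * (l2 * ((q - 1) * (2 - γ ^ 2 * q / 2))))) *
          eE (γ * q * u))) := by gcongr
      _ = A * eE (γ * q * u) + (2 * (B * eE (-(k * (l2 * ((q - 1) * (2 - γ ^ 2 * q / 2))))))) *
          (A * eE (γ * q * u)) := by ring
      _ ≤ A * eE (γ * q * u) + 1 * (A * eE (γ * q * u)) := by gcongr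
      _ = 2 * A * eE (γ * q * u) := by ring
  refine ⟨2 * A, ENNReal.mul_ne_top (by norm_num) hA, fun u => ?_⟩
  have hq0 : 0 < q := by linarith
  calc ∫⁻ ω, nB (drift (QQ γ) (fun S => ω (M.eS S)) u) ^ q ∂gm
      ≤ ∫⁻ ω : Om, ⨆ D, nB (cut D (drift (QQ γ) (fun S => ω (M.eS S)) u)) ^ q ∂gm := by
        refine lintegral_mono fun ω => (ENNReal.rpow_le_rpow (nB_le_iSup _) hq0.le).trans ?_
        exact ((ENNReal.orderIsoRpow q hq0).map_iSup _).le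
    _ = ⨆ D, ∫⁻ ω, nB (cut D (drift (QQ γ) (fun S => ω (M.eS S)) u)) ^ q ∂gm := by
        refine lintegral_iSup (fun D => (meas_phi hT3 D _ u M.eS).pow_const _) ?_
        intro D D' h ω
        exact ENNReal.rpow_le_rpow (nB_cut_mono _ h) hq0.le
    _ ≤ _ := iSup_le fun D => hcut D u

end MB

theorem blk_MB (hG1 : St_G1) (hG1D : St_G1D) (hG3 : St_G3) (hROS : St_ROS) (hM0 : St_M0)
    (hMOD : St_MOD) (hDISC : St_DISC) (hFM : St_FM) (hRW1 : St_RW1) (hT1 : St_T1) (hT3 : St_T3)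
    (hGEO1 : St_GEO1) (hFE : St_FE) : St_MB := by
  intro γ hγ q hq hq'
  obtain ⟨M, hM, hC0, hGr⟩ := MB.ex_model hM0 hMOD hGEO1
  have hγ2 : 0 < γ ^ 2 := pow_pos hγ.1 2
  have h14 : 1 < 4 / γ ^ 2 := by
    rw [lt_div_iff₀ hγ2]
    nlinarith [hγ.1, hγ.2]
  obtain ⟨q', hq1, hq2⟩ := exists_between (max_lt hq' h14)
  have hqq : q ≤ q' := ((le_max_left _ _).trans_lt hq1).le
  obtain ⟨K, hK, hbig⟩ := MB.big hG1 hG1D hG3 hROS hMOD hDISC hFM hRW1 hT1 hT3 hGEO1 hFE γ hγ q'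
    ((le_max_right _ _).trans_lt hq1) hq2 M hM hC0 hGr
  have hGr0 : Gram M.eS (covE M.C0) := by simpa using hGr []
  have hΦ : Measurable fun x => nB x ^ q := hT3.1.pow_const _
  have h0 : ∀ u, ∫⁻ ω, nB (drift (QQ γ) (fun S => ω (M.eS S)) u) ^ q ∂gm ≤
      (1 + K) * eE (γ * q * u) := by
    intro u
    have := MB.exp_down hG1 (fun ω => nB (drift (QQ γ) (fun S => ω (M.eS S)) u))
      (hT3.1.comp ((MB.meas_drift _ u).comp (MB.meas_fam M.eS))) q q' (γ * u) hq hqq K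
      (by rw [mul_right_comm]; exact hbig u)
    rwa [mul_right_comm] at this
  have hK' : 2 * (1 + K) ≠ ∞ :=
    ENNReal.mul_ne_top (by norm_num) (ENNReal.add_ne_top.2 ⟨by norm_num, hK⟩)
  refine ⟨(2 * (1 + K)).toReal, fun C v hv u => ?_⟩
  rw [ENNReal.ofReal_mul ENNReal.toReal_nonneg, ENNReal.ofReal_toReal hK']
  change _ ≤ _ * eE _
  have hnn : 0 ≤ γ ^ 2 * q ^ 2 := by positivity
  rcases le_total M.C0 C with h | h
  · refine (MB.conv_up hG1 hG3 (QQ γ) (γ * q) (fun x => nB x ^ q) hΦ M.eS v M.C0 C h hGr0 hv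
      (1 + K) h0 u).trans ?_
    refine mul_le_mul' (le_mul_of_one_le_left' (by norm_num)) (MB.eE_mono ?_)
    have h1 : C - M.C0 ≤ max C 0 := by linarith [le_max_left C 0]
    have h2 := mul_le_mul_of_nonneg_left h1 hnn
    rw [mul_pow]
    linarith
  · refine (MB.conv_down hG3 (QQ γ) (fun x => nB x ^ q) hΦ
      (fun x y hxy => ENNReal.rpow_le_rpow
        (hT1.2.2.2.2.2.2.2.2.2.2.2.2.2.2.2.1 x y hxy) hq.le) v M.eS C M.C0 h hv hGr0 u).trans ?_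
    rw [mul_assoc]
    gcongr
    refine (h0 u).trans (mul_le_mul' le_rfl (MB.eE_mono ?_))
    have h2 := mul_nonneg hnn (le_max_right C 0)
    linarith

end

end Pool.Agent.Lib.APPS
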