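import Pool.Agent.Lib.APPS.Blue1

/-!
Block MBM: moment bound for a spread out family of mollifiers.
-/

namespace Pool.Agent.Lib.APPS

open MeasureTheory ProbabilityTheory Filter Topology Set Metric
open scoped NNReal ENNReal RealInnerProductSpace Classical

theorem mbm_pos (γ : ℝ) (v : HH) (ω : Om) : 0 < Wk γ v ω := Real.exp_pos _

theorem mbm_meas (γ : ℝ) (v : HH) : Measurable (Wk γ v) := by
  unfold Wk
  exact Real.measurable_exp.comp (((meas_ev v).const_mul γ).sub_const _)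

theorem mbm_add (γ : ℝ) {v h : HH} (hvh : ⟪v, h⟫ = 0) (ω : Om) :
    Wk γ (v + h) ω = Wk γ v ω * Wk γ h ω := by
  unfold Wk
  rw [← Real.exp_add, norm_add_sq_real, hvh, map_add]
  congr 1
  ring

theorem mbm_eE_mul (a b : ℝ) : eE a * eE b = eE (a + b) := by
  unfold eE
  rw [← ENNReal.ofReal_mul (Real.exp_pos _).le, Real.exp_add]

theorem mbm_eE_meas (v : HH) (c : ℝ) : Measurable fun ω : Om => eE (ω v - c) := by
  unfold eE
  exact ENNReal.measurable_ofReal.comp (Real.measurable_exp.comp ((meas_ev v).sub_const c))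

theorem mbm_mom (hG1D : St_G1D) (γ s : ℝ) {h w : HH} (hhw : ⟪h, w⟫ = 0) :
    ∫⁻ ω, ENNReal.ofReal (Wk γ h ω * Wk γ w ω ^ s) ∂gm =
      eE (γ ^ 2 * s * (s - 1) * ‖w‖ ^ 2 / 2) := by
  have e : ∀ ω : Om, ENNReal.ofReal (Wk γ h ω * Wk γ w ω ^ s) =
      eE (ω (γ • h + (γ * s) • w)) *
        eE (-(γ ^ 2 * ‖h‖ ^ 2 / 2) - s * γ ^ 2 * ‖w‖ ^ 2 / 2) := by
    intro ω
    rw [mbm_eE_mul]
    unfold Wk eE
    rw [← Real.exp_mul, ← Real.exp_add]
    congr 2
    simp only [map_add, map_smul, smul_eq_mul]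
    ring
  simp_rw [e]
  have hm : Measurable fun ω : Om => eE (ω (γ • h + (γ * s) • w)) := by
    simpa using mbm_eE_meas (γ • h + (γ * s) • w) 0
  rw [lintegral_mul_const _ hm, hG1D.1, mbm_eE_mul]
  congr 1
  rw [norm_add_sq_real, inner_smul_left, inner_smul_right, hhw, norm_smul, norm_smul, mul_pow,
    mul_pow, Real.norm_eq_abs, Real.norm_eq_abs, sq_abs, sq_abs]
  simp only [mul_zero]
  ring

theorem mbm_sum_meas {I : Type} [Fintype I] (γ : ℝ) (a : I → ℝ) (v : I → HH) :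
    Measurable fun ω : Om => ∑ i, a i * Wk γ (v i) ω :=
  Finset.measurable_sum _ fun i _ => (mbm_meas γ (v i)).const_mul _

theorem mbm_fact (hG2 : St_G2) {I : Type} [Fintype I] (γ q : ℝ) (hq : 0 ≤ q) (a : I → ℝ)
    (v : I → HH) (h : HH) (hvh : ∀ i, ⟪v i, h⟫ = 0) :
    ∫⁻ ω, ENNReal.ofReal (∑ i, a i * Wk γ (v i + h) ω) ^ q ∂gm =
      eE (γ ^ 2 * q * (q - 1) * ‖h‖ ^ 2 / 2) *
        ∫⁻ ω, ENNReal.ofReal (∑ i, a i * Wk γ (v i) ω) ^ q ∂gm := by
  set F : Om → ℝ≥0∞ := fun ω => ENNReal.ofReal (∑ i, a i * Wk γ (v i) ω) ^ q with hF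
  have hFm : Measurable F :=
    (ENNReal.measurable_ofReal.comp (mbm_sum_meas γ a v)).pow_const q
  have hinv : ∀ ω, F (ω + dv ((γ * q) • h)) = F ω := by
    intro ω
    simp only [hF]
    congr 3
    funext i
    unfold Wk
    rw [LinearMap.add_apply, dv_apply, inner_smul_left, real_inner_comm, hvh i]
    simp
  have hcm := hG2.2.1 ((γ * q) • h) F hFm
  simp_rw [hinv] at hcm
  have e : ∀ ω : Om, ENNReal.ofReal (∑ i, a i * Wk γ (v i + h) ω) ^ q =
      eE (γ ^ 2 * q * (q - 1) * ‖h‖ ^ 2 / 2) *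
        (F ω * eE (ω ((γ * q) • h) - ‖(γ * q) • h‖ ^ 2 / 2)) := by
    intro ω
    have e1 : ∑ i, a i * Wk γ (v i + h) ω = Wk γ h ω * ∑ i, a i * Wk γ (v i) ω := by
      rw [Finset.mul_sum]
      refine Finset.sum_congr rfl fun i _ => ?_
      rw [mbm_add γ (hvh i)]
      ring
    rw [e1, ENNReal.ofReal_mul (mbm_pos γ h ω).le, ENNReal.mul_rpow_of_nonneg _ _ hq,
      ENNReal.ofReal_rpow_of_pos (mbm_pos γ h ω), mul_comm (F ω), ← mul_assoc, mbm_eE_mul]
    congr 1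
    unfold Wk eE
    rw [← Real.exp_mul]
    congr 2
    rw [norm_smul, mul_pow, Real.norm_eq_abs, sq_abs, map_smul, smul_eq_mul]
    ring
  simp_rw [e]
  have hm : Measurable fun ω : Om => F ω * eE (ω ((γ * q) • h) - ‖(γ * q) • h‖ ^ 2 / 2) :=
    hFm.mul (mbm_eE_meas _ _)
  rw [lintegral_const_mul _ hm, ← hcm]

theorem mbm_geo (hGEO1 : St_GEO1) (S T : Dy) (hS : 2 ≤ S.length) :
    closedBall (ctr (S ++ T)) (4 * side (S ++ T)) ⊆ closedBall (ctr T) (2 * side T) := by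
  obtain ⟨h1, h2, -, h4, h5, -⟩ := hGEO1
  have hc : ctr (S ++ T) ∈ box T :=
    (h5 (S ++ T) T).2 (List.suffix_append S T) (h4 (S ++ T)).2.2.1
  have hd := (h4 T).2.2.2.1 _ hc
  have hs : side S ≤ 1 / 4 := by
    unfold side
    calc (1 / 2 : ℝ) ^ S.length ≤ (1 / 2 : ℝ) ^ 2 :=
          pow_le_pow_of_le_one (by norm_num) (by norm_num) hS
      _ = 1 / 4 := by norm_num
  have hT := (h1 T).1
  refine closedBall_subset_closedBall' ?_
  rw [dist_eq_norm, h2]
  nlinarith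

theorem mbm_supp {ν : Measure ℂ} {A B : Set ℂ} (h : ν Aᶜ = 0) (hAB : A ⊆ B) : ν Bᶜ = 0 :=
  measure_mono_null (compl_subset_compl.2 hAB) h

theorem mbm_Lam {I : Type} [Fintype I] {T : Dy} {Λ : ℝ} {l' : ℕ} {a : I → ℝ} {τ : I → Dy}
    {ν : I → Measure ℂ} (h : Spread T Λ l' a τ ν) : 0 ≤ Λ := by
  have h1 := h.spread []
  have h2 : 0 ≤ ∑ i ∈ Finset.univ.filter (fun i => τ i = []), a i :=
    Finset.sum_nonneg fun i _ => h.nonneg i
  have h3 : (0 : ℝ) < (1 / 4 : ℝ) ^ l' := by positivity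
  exact nonneg_of_mul_nonneg_left (h2.trans h1) h3

theorem mbm_group (hT1 : St_T1) {I : Type} [Fintype I] {T : Dy} {Λ : ℝ} {l' : ℕ} {a : I → ℝ}
    {τ : I → Dy} {ν : I → Measure ℂ} (h : Spread T Λ l' a τ ν) (f : Dy → ℝ) (hf : ∀ S, 0 ≤ f S) :
    ∑ i, a i * f (τ i) ≤ Λ * ∑ S ∈ lev l', (1 / 4 : ℝ) ^ l' * f S := by
  rw [← Finset.sum_fiberwise_of_maps_to (s := Finset.univ) (t := lev l') (g := τ)
    (fun i _ => (hT1.1 l' (τ i)).2 (h.len i)), Finset.mul_sum]
  refine Finset.sum_le_sum fun S _ => ?_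
  have e : ∑ i ∈ Finset.univ.filter (fun i => τ i = S), a i * f (τ i) =
      (∑ i ∈ Finset.univ.filter (fun i => τ i = S), a i) * f S := by
    rw [Finset.sum_mul]
    refine Finset.sum_congr rfl fun i hi => ?_
    rw [(Finset.mem_filter.1 hi).2]
  rw [e, ← mul_assoc]
  exact mul_le_mul_of_nonneg_right (h.spread S) (hf S)

theorem mbm_hold (hG1D : St_G1D) {I : Type} [Fintype I] (γ q s : ℝ) (hq : 1 ≤ q) (hs : q < s)
    (a : I → ℝ) (ha : ∀ i, 0 ≤ a i) (h w : I → HH) (hhw : ∀ i, ⟪h i, w i⟫ = 0) (B : ℝ)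
    (hB : ∀ i, ‖w i‖ ^ 2 ≤ B) :
    ∫⁻ ω, ENNReal.ofReal (∑ i, a i * Wk γ (h i + w i) ω) ^ q ∂gm ≤
      (∫⁻ ω, ENNReal.ofReal (∑ i, a i * Wk γ (h i) ω) ^ (q * (s - 1) / (s - q)) ∂gm) ^
          ((s - q) / s) *
        (ENNReal.ofReal (∑ i, a i) * eE (γ ^ 2 * s * (s - 1) * B / 2)) ^ (q / s) := by
  have hs1 : 1 < s := lt_of_le_of_lt hq hs
  have hs0 : 0 < s := by linarith
  have hsq : 0 < s - q := by linarith
  have hq0 : 0 ≤ q := by linarith
  set Z : Om → ℝ := fun ω => ∑ i, a i * (Wk γ (h i) ω * Wk γ (w i) ω ^ s) with hZ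
  have hZi : ∀ i, Measurable fun ω : Om => a i * (Wk γ (h i) ω * Wk γ (w i) ω ^ s) :=
    fun i => ((mbm_meas γ (h i)).mul ((mbm_meas γ (w i)).pow_const s)).const_mul _
  have hZ0 : ∀ i ω, 0 ≤ a i * (Wk γ (h i) ω * Wk γ (w i) ω ^ s) := fun i ω =>
    mul_nonneg (ha i) (mul_nonneg (mbm_pos _ _ _).le (Real.rpow_nonneg (mbm_pos _ _ _).le _))
  have hZm : Measurable Z := Finset.measurable_sum _ fun i _ => hZi i
  have hpt : ∀ ω : Om, ENNReal.ofReal (∑ i, a i * Wk γ (h i + w i) ω) ^ q ≤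
      (ENNReal.ofReal (∑ i, a i * Wk γ (h i) ω) ^ (q * (s - 1) / (s - q))) ^ ((s - q) / s) *
        ENNReal.ofReal (Z ω) ^ (q / s) := by
    intro ω
    have h1 := Real.inner_le_weight_mul_Lp_of_nonneg Finset.univ hs1.le
      (fun i => a i * Wk γ (h i) ω) (fun i => Wk γ (w i) ω)
      (fun i => mul_nonneg (ha i) (mbm_pos _ _ _).le) (fun i => (mbm_pos _ _ _).le)
    have e1 : ∑ i, a i * Wk γ (h i + w i) ω = ∑ i, a i * Wk γ (h i) ω * Wk γ (w i) ω :=
      Finset.sum_congr rfl fun i _ => by rw [mbm_add γ (hhw i), mul_assoc]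
    have e2 : ∑ i, a i * Wk γ (h i) ω * Wk γ (w i) ω ^ s = Z ω :=
      Finset.sum_congr rfl fun i _ => by rw [mul_assoc]
    rw [e2] at h1
    have hY0 : 0 ≤ ∑ i, a i * Wk γ (h i) ω :=
      Finset.sum_nonneg fun i _ => mul_nonneg (ha i) (mbm_pos _ _ _).le
    have hZ0' : 0 ≤ Z ω := Finset.sum_nonneg fun i _ => hZ0 i ω
    have hi : 0 ≤ 1 - s⁻¹ := by
      have : s⁻¹ ≤ 1 := inv_le_one_of_one_le₀ hs1.le
      linarith
    have hi' : 0 ≤ s⁻¹ := by positivity
    calc ENNReal.ofReal (∑ i, a i * Wk γ (h i + w i) ω) ^ q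
        ≤ ENNReal.ofReal ((∑ i, a i * Wk γ (h i) ω) ^ (1 - s⁻¹) * Z ω ^ s⁻¹) ^ q := by
          rw [e1]
          exact ENNReal.rpow_le_rpow (ENNReal.ofReal_le_ofReal h1) hq0
      _ = _ := by
          rw [ENNReal.ofReal_mul (Real.rpow_nonneg hY0 _), ← ENNReal.ofReal_rpow_of_nonneg hY0 hi,
            ← ENNReal.ofReal_rpow_of_nonneg hZ0' hi', ENNReal.mul_rpow_of_nonneg _ _ hq0,
            ← ENNReal.rpow_mul, ← ENNReal.rpow_mul, ← ENNReal.rpow_mul]
          congr 2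
          · field_simp
          · field_simp
  have hYm : Measurable fun ω : Om =>
      ENNReal.ofReal (∑ i, a i * Wk γ (h i) ω) ^ (q * (s - 1) / (s - q)) :=
    (ENNReal.measurable_ofReal.comp (mbm_sum_meas γ a h)).pow_const _
  have hZb : ∫⁻ ω, ENNReal.ofReal (Z ω) ∂gm ≤
      ENNReal.ofReal (∑ i, a i) * eE (γ ^ 2 * s * (s - 1) * B / 2) := by
    have e : ∀ ω, ENNReal.ofReal (Z ω) =
        ∑ i, ENNReal.ofReal (a i) * ENNReal.ofReal (Wk γ (h i) ω * Wk γ (w i) ω ^ s) := by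
      intro ω
      rw [hZ, ENNReal.ofReal_sum_of_nonneg fun i _ => hZ0 i ω]
      exact Finset.sum_congr rfl fun i _ => ENNReal.ofReal_mul (ha i)
    simp_rw [e]
    have hm : ∀ i, Measurable fun ω : Om => ENNReal.ofReal (Wk γ (h i) ω * Wk γ (w i) ω ^ s) :=
      fun i => ENNReal.measurable_ofReal.comp
        ((mbm_meas γ (h i)).mul ((mbm_meas γ (w i)).pow_const s))
    rw [lintegral_finsetSum _ fun i _ => (hm i).const_mul _,
      ENNReal.ofReal_sum_of_nonneg fun i _ => ha i, Finset.sum_mul]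
    refine Finset.sum_le_sum fun i _ => ?_
    rw [lintegral_const_mul _ (hm i), mbm_mom hG1D γ s (hhw i)]
    refine mul_le_mul_right (ENNReal.ofReal_le_ofReal (Real.exp_le_exp.2 ?_)) _
    have h0 : 0 ≤ γ ^ 2 * s * (s - 1) := by
      have : 0 ≤ s - 1 := by linarith
      positivity
    have := mul_le_mul_of_nonneg_left (hB i) h0
    linarith
  calc _ ≤ _ := lintegral_mono hpt
    _ ≤ _ := ENNReal.lintegral_mul_norm_pow_le hYm.aemeasurable
        (ENNReal.measurable_ofReal.comp hZm).aemeasurable (by positivity) (by positivity)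
        (by field_simp; ring)
    _ ≤ _ := mul_le_mul_right (ENNReal.rpow_le_rpow hZb (by positivity)) _

theorem blk_MBM (_hG1 : St_G1) (hG1D : St_G1D) (hG2 : St_G2) (_hG3 : St_G3) (hMOD : St_MOD)
    (hMBW : St_MBW) (hFE : St_FE) (_hEXP1 : St_EXP1) (hGEO1 : St_GEO1) (hT1 : St_T1) :
    St_MBM := by
  intro γ hγ q Λ hq hq4
  have hγ0 : 0 < γ := hγ.1
  have hq0 : 0 ≤ q := by linarith
  set Bq : ℝ := 4 / γ ^ 2 with hBq
  have hBq0 : 0 < Bq - q := by linarith
  set s : ℝ := q + 1 + q * Bq / (Bq - q) with hsdef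
  have hfr : 0 ≤ q * Bq / (Bq - q) := div_nonneg (mul_nonneg hq0 (by linarith)) hBq0.le
  have hs : q < s := by linarith
  have hsq : 0 < s - q := by linarith
  have hs0 : 0 < s := by linarith
  have hq1 : 1 ≤ q * (s - 1) / (s - q) := by
    rw [le_div_iff₀ hsq]
    nlinarith
  have hq2 : q * (s - 1) / (s - q) < Bq := by
    rw [div_lt_iff₀ hsq]
    have e : s * (Bq - q) = (q + 1) * (Bq - q) + q * Bq := by
      rw [hsdef]
      field_simp
    nlinarith
  set q' : ℝ := q * (s - 1) / (s - q) with hq'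
  obtain ⟨K1, hK1⟩ := hMBW γ hγ q' hq1 hq2 2
  set Bd : ℝ≥0∞ := (ENNReal.ofReal Λ ^ q' *
      ENNReal.ofReal (K1 * Real.exp (γ ^ 2 * q' * (q' - 1) * Real.log 4 / 2))) ^ ((s - q) / s) *
    (ENNReal.ofReal Λ * eE (γ ^ 2 * s * (s - 1) * (Real.log 4 + Λ) / 2)) ^ (q / s) with hBd
  have hBdt : Bd ≠ ∞ := by
    refine ENNReal.mul_ne_top (ENNReal.rpow_ne_top_of_nonneg (by positivity) ?_)
      (ENNReal.rpow_ne_top_of_nonneg (by positivity) ?_)
    · exact ENNReal.mul_ne_top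
        (ENNReal.rpow_ne_top_of_nonneg (by linarith) ENNReal.ofReal_ne_top) ENNReal.ofReal_ne_top
    · exact ENNReal.mul_ne_top ENNReal.ofReal_ne_top ENNReal.ofReal_ne_top
  refine ⟨Bd.toReal, ?_⟩
  intro M T l' I _ a τ ν hl' hO hSp
  have hΛ := mbm_Lam hSp
  have hsT : 0 < side T := (hGEO1.1 T).1
  have hsi : ∀ i, 0 < side (τ i ++ T) := fun i => (hGEO1.1 _).1
  have hgeo : ∀ i, closedBall (ctr (τ i ++ T)) (4 * side (τ i ++ T)) ⊆
      closedBall (ctr T) (2 * side T) := fun i => mbm_geo hGEO1 _ _ (by rw [hSp.len i]; exact hl')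
  have hs4 : ∀ i, ν i (closedBall (ctr (τ i ++ T)) (4 * side (τ i ++ T)))ᶜ = 0 := fun i =>
    mbm_supp (hSp.supp i) (closedBall_subset_closedBall (by linarith [hsi i]))
  have hs2 : ∀ i, ν i (closedBall (ctr T) (2 * side T))ᶜ = 0 := fun i =>
    mbm_supp (hs4 i) (hgeo i)
  have hlog : Real.log (side T) = -(T.length * l2) := by
    unfold side l2
    rw [Real.log_pow, one_div, Real.log_inv]
    ring
  -- factorisation in an arbitrary model
  have hfac : ∀ N : Model, closedBall (ctr T) (2 * side T) ⊆ N.O →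
      ∫⁻ ω, ENNReal.ofReal (∑ i, a i * Wk γ (N.e (ν i)) ω) ^ q ∂gm =
        eE (γ ^ 2 * q * (q - 1) * ‖N.eC (ctr T) (2 * side T)‖ ^ 2 / 2) *
          ∫⁻ ω, ENNReal.ofReal
            (∑ i, a i * Wk γ (N.e (ν i) - N.eC (ctr T) (2 * side T)) ω) ^ q ∂gm := by
    intro N hN
    rw [← mbm_fact hG2 γ q hq0 a (fun i => N.e (ν i) - N.eC (ctr T) (2 * side T))
      (N.eC (ctr T) (2 * side T)) fun i => (hMOD N).2.2.2.2.2.2.2.2.2.1 _ _ _ _ (by positivity)
        le_rfl (hSp.pfe i) (hs2 i) hN]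
    simp only [sub_add_cancel]
  obtain ⟨M', hO', hC', -, he'⟩ := (hMOD M).2.2.1 (ctr T) (4 * side T) (by positivity)
  have hO2 : closedBall (ctr T) (2 * side T) ⊆ M'.O := by
    rw [hO']
    exact closedBall_subset_ball (by linarith)
  have hv : ∀ i, M'.e (ν i) - M'.eC (ctr T) (2 * side T) =
      M.e (ν i) - M.eC (ctr T) (2 * side T) := by
    intro i
    have := (hSp.pfe i).2
    have := (hFE.2.2.2.2.2.2.2.2.1 (ctr T) (2 * side T) (by positivity)).1.2
    unfold Model.eC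
    rw [he', he', probReal_univ, probReal_univ]
    unfold Model.eC
    abel
  have hM' : ∫⁻ ω, ENNReal.ofReal (∑ i, a i * Wk γ (M'.e (ν i)) ω) ^ q ∂gm ≤ Bd := by
    have hh := mbm_hold hG1D γ q s hq hs a hSp.nonneg
      (fun i => M'.eC (ctr (τ i ++ T)) (4 * side (τ i ++ T)))
      (fun i => M'.e (ν i) - M'.eC (ctr (τ i ++ T)) (4 * side (τ i ++ T)))
      (fun i => by
        rw [real_inner_comm]
        exact (hMOD M').2.2.2.2.2.2.2.2.2.1 _ _ _ _ (by linarith [hsi i]) le_rfl (hSp.pfe i)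
          (hs4 i) ((hgeo i).trans hO2))
      (Real.log 4 + Λ)
      (fun i => by
        rw [← real_inner_self_eq_norm_sq, (hMOD M').2.2.2.2.2.2.2.2.1 _ _ _ _
          (by linarith [hsi i]) (hSp.pfe i) (hSp.pfe i) (hs4 i) (hs4 i),
          Real.log_mul (by norm_num) (hsi i).ne']
        linarith [hSp.energy i])
    simp only [add_sub_cancel] at hh
    refine hh.trans (mul_le_mul' (ENNReal.rpow_le_rpow ?_ (by positivity))
      (ENNReal.rpow_le_rpow (mul_le_mul_left (ENNReal.ofReal_le_ofReal ?_) _) (by positivity)))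
    · have hW := hK1 M' T l' hl' hO2
      have hC4 : M'.C0 + T.length * l2 = Real.log 4 := by
        rw [hC', Real.log_mul (by norm_num) hsT.ne', hlog]
        ring
      rw [hC4] at hW
      have hWm : Measurable fun ω : Om => ENNReal.ofReal (M'.Wn γ T 2 l' ω) ^ q' := by
        refine (ENNReal.measurable_ofReal.comp ?_).pow_const _
        unfold Model.Wn
        exact Finset.measurable_sum _ fun S _ => (mbm_meas γ _).const_mul _
      refine le_trans (lintegral_mono fun ω => ?_)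
        ((lintegral_const_mul (ENNReal.ofReal Λ ^ q') hWm).trans_le (mul_le_mul_right hW _))
      rw [← ENNReal.mul_rpow_of_nonneg _ _ (by linarith), ← ENNReal.ofReal_mul hΛ]
      refine ENNReal.rpow_le_rpow (ENNReal.ofReal_le_ofReal ?_) (by linarith)
      have := mbm_group hT1 hSp
        (fun S => Wk γ (M'.eC (ctr (S ++ T)) (4 * side (S ++ T))) ω) fun S => (mbm_pos _ _ _).le
      unfold Model.Wn
      have e4 : (2 : ℝ) ^ 2 = 4 := by norm_num
      rw [e4]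
      exact this
    · have := mbm_group hT1 hSp (fun _ => 1) fun _ => zero_le_one
      simp only [mul_one, Finset.sum_const, hT1.2.1, nsmul_eq_mul] at this
      have e : ((4 ^ l' : ℕ) : ℝ) * (1 / 4 : ℝ) ^ l' = 1 := by
        push_cast
        rw [← mul_pow]
        norm_num
      rwa [e, mul_one] at this
  have hqq : 0 ≤ γ ^ 2 * q * (q - 1) := by
    have : 0 ≤ q - 1 := by linarith
    positivity
  have hcore : ∫⁻ ω, ENNReal.ofReal
      (∑ i, a i * Wk γ (M.e (ν i) - M.eC (ctr T) (2 * side T)) ω) ^ q ∂gm ≤ Bd := by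
    refine le_trans ?_ hM'
    rw [hfac M' hO2]
    simp only [hv]
    refine le_mul_of_one_le_left' ?_
    unfold eE
    rw [ENNReal.one_le_ofReal]
    exact Real.one_le_exp (by positivity)
  rw [hfac M hO, ENNReal.ofReal_mul ENNReal.toReal_nonneg, ENNReal.ofReal_toReal hBdt, mul_comm]
  refine mul_le_mul' hcore (ENNReal.ofReal_le_ofReal (Real.exp_le_exp.2 ?_))
  have hn : ‖M.eC (ctr T) (2 * side T)‖ ^ 2 ≤ M.C0 + T.length * l2 := by
    rw [← real_inner_self_eq_norm_sq, (hMOD M).2.2.2.2.2.2.2.2.2.2.1 _ _ _ (by positivity)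
      le_rfl hO, Real.log_mul (by norm_num) hsT.ne', hlog]
    have : 0 ≤ Real.log 2 := Real.log_nonneg (by norm_num)
    linarith
  have := mul_le_mul_of_nonneg_left hn hqq
  linarith

end Pool.Agent.Lib.APPS
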