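import Pool.Agent.Lib.APPS.Blue1

/-!
Block MBb: moments of the number of internal nodes in the presence of a logarithmic insertion.
-/

namespace Pool.Agent.Lib.APPS

open MeasureTheory ProbabilityTheory Filter Topology Set Metric
open scoped NNReal ENNReal RealInnerProductSpace Classical

noncomputable section

namespace MBb

/-- squares that carry a subtree of the cover -/
def Gd (z : ℂ) (V : Dy) : Prop := V.length = 0 ∨ ‖ctr V - z‖ ≤ 5 * (1 / 2 : ℝ) ^ V.length

theorem side_cons (d : Fin 2 × Fin 2) (S : Dy) : side (d :: S) = side S / 2 := by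
  simp only [side, List.length_cons, pow_succ]; ring

theorem ctr_near (hG : St_GEO1) (B V : Dy) : ‖ctr (B ++ V) - ctr V‖ ≤ 3 / 4 * side V := by
  obtain ⟨-, -, -, h4, h5, -⟩ := hG
  have h1 : box (B ++ V) ⊆ box V := (h5 _ _).2 (List.suffix_append B V)
  exact (h4 V).2.2.2.1 _ (h1 (h4 (B ++ V)).2.2.1)

theorem cover (hG : St_GEO1) (z : ℂ) (A : Dy) :
    ∃ V B : Dy, B ++ V = A ∧ Gd z V ∧ (B = [] ∨ 7 / 4 * side V < ‖ctr V - z‖) := by
  induction A with
  | nil => exact ⟨[], [], rfl, Or.inl rfl, Or.inl rfl⟩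
  | cons d S ih =>
    obtain ⟨V, B, h1, h2, h3⟩ := ih
    by_cases hf : 7 / 4 * side V < ‖ctr V - z‖
    · exact ⟨V, d :: B, by rw [← h1]; rfl, h2, Or.inr hf⟩
    · have hB : B = [] := h3.resolve_right hf
      subst hB
      have hV : V = S := h1
      subst hV
      refine ⟨d :: V, [], rfl, Or.inr ?_, Or.inl rfl⟩
      have h4 := ctr_near hG [d] V
      have h5 : ‖ctr (d :: V) - z‖ ≤ ‖ctr (d :: V) - ctr V‖ + ‖ctr V - z‖ :=
        norm_sub_le_norm_sub_add_norm_sub _ _ _
      have h6 : (1 / 2 : ℝ) ^ (d :: V).length = side V / 2 := side_cons d V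
      have h7 : ‖ctr (d :: V) - ctr V‖ ≤ 3 / 4 * side V := h4
      rw [h6]
      linarith [not_lt.1 hf]

theorem log_side (V : Dy) : Real.log (1 / side V) = V.length * l2 := by
  simp only [side, l2, one_div, inv_pow, inv_inv, Real.log_pow]

theorem ins_le (hG : St_GEO1) (z : ℂ) (A V : Dy) (h : side V ≤ max ‖z - ctr A‖ (side A)) :
    ins 1 z A ≤ V.length * l2 := by
  have hs := (hG.1 V).1
  have hs1 := (hG.1 V).2
  have h1 : 1 / max ‖z - ctr A‖ (side A) ≤ 1 / side V := one_div_le_one_div_of_le hs h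
  have h0 : 0 ≤ 1 / max ‖z - ctr A‖ (side A) := by
    have : 0 < max ‖z - ctr A‖ (side A) := lt_of_lt_of_le hs h
    positivity
  have h2 : (1 : ℝ) ≤ 1 / side V := by rw [le_div_iff₀ hs]; linarith
  unfold ins
  calc Real.posLog (1 / max ‖z - ctr A‖ (side A)) ≤ Real.posLog (1 / side V) :=
        Real.posLog_le_posLog h0 h1
    _ = Real.log (1 / side V) := Real.posLog_eq_log (by rw [abs_of_nonneg (by linarith)]; exact h2)
    _ = V.length * l2 := log_side V

/-- the dominating configuration in the square `V` -/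
def Yv (Q lam : ℝ) (x : Dy → ℝ) (u : ℝ) (V : Dy) : Dy → ℝ :=
  drift Q (fun S => x (S ++ V)) (u - (Q - lam) * V.length * l2)

theorem cover_int (hG : St_GEO1) (Q lam : ℝ) (hlam : 0 ≤ lam) (x : Dy → ℝ) (u : ℝ) (z : ℂ)
    (A : Dy) (hA : IntN (fun A => drift Q x u A + lam * ins 1 z A) A) :
    ∃ p : Dy × Dy, p.2 ++ p.1 = A ∧ Gd z p.1 ∧ IntN (Yv Q lam x u p.1) p.2 := by
  obtain ⟨V, B, h1, h2, h3⟩ := cover hG z A
  refine ⟨(V, B), h1, h2, fun B' hB' => ?_⟩
  have h4 : B' ++ V <:+ A := by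
    obtain ⟨t, ht⟩ := hB'
    exact ⟨t, by rw [← h1, ← List.append_assoc, ht]⟩
  have h5 := hA _ h4
  have h6 : ins 1 z (B' ++ V) ≤ V.length * l2 := by
    apply ins_le hG
    rcases h3 with h3 | h3
    · subst h3
      have : B' = [] := List.suffix_nil.1 hB'
      subst this
      exact le_max_right _ _
    · refine le_trans ?_ (le_max_left _ _)
      have h7 := ctr_near hG B' V
      have h8 : ‖ctr V - z‖ ≤ ‖ctr V - ctr (B' ++ V)‖ + ‖ctr (B' ++ V) - z‖ :=
        norm_sub_le_norm_sub_add_norm_sub _ _ _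
      rw [norm_sub_rev (ctr V) (ctr (B' ++ V)), norm_sub_rev (ctr (B' ++ V)) z] at h8
      linarith
  have h9 := mul_le_mul_of_nonneg_left h6 hlam
  simp only [drift, List.length_append, Nat.cast_add] at h5
  simp only [Yv, drift]
  nlinarith

theorem nB_le (hG : St_GEO1) (Q lam : ℝ) (hlam : 0 ≤ lam) (x : Dy → ℝ) (u : ℝ) (z : ℂ) :
    nB (fun A => drift Q x u A + lam * ins 1 z A) ≤
      ∑' V : Dy, ind (Gd z V) * nB (Yv Q lam x u V) := by
  have h : ∀ A : Dy, ∃ p : Dy × Dy, p.2 ++ p.1 = A ∧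
      ind (IntN (fun A => drift Q x u A + lam * ins 1 z A) A) ≤
        ind (Gd z p.1) * ind (IntN (Yv Q lam x u p.1) p.2) := by
    intro A
    by_cases hA : IntN (fun A => drift Q x u A + lam * ins 1 z A) A
    · obtain ⟨p, h1, h2, h3⟩ := cover_int hG Q lam hlam x u z A hA
      exact ⟨p, h1, by simp [ind, hA, h2, h3]⟩
    · exact ⟨([], A), by simp, by simp [ind, hA]⟩
  choose f hf1 hf2 using h
  have hinj : Function.Injective f := fun A A' h => by rw [← hf1 A, ← hf1 A', h]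
  calc nB (fun A => drift Q x u A + lam * ins 1 z A)
      ≤ ∑' A : Dy, ind (Gd z (f A).1) * ind (IntN (Yv Q lam x u (f A).1) (f A).2) :=
        ENNReal.tsum_le_tsum hf2
    _ ≤ ∑' p : Dy × Dy, ind (Gd z p.1) * ind (IntN (Yv Q lam x u p.1) p.2) :=
        ENNReal.tsum_comp_le_tsum_of_injective hinj
          (fun p : Dy × Dy => ind (Gd z p.1) * ind (IntN (Yv Q lam x u p.1) p.2))
    _ = ∑' V : Dy, ind (Gd z V) * nB (Yv Q lam x u V) := by
        rw [ENNReal.tsum_prod']
        simp only [nB, ENNReal.tsum_mul_left]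

theorem card_le (hG : St_GEO1) (hT : St_T1) (z : ℂ) (j : ℕ) :
    (((lev j).filter (Gd z)).card : ℝ≥0∞) ≤ 121 := by
  have h : ((lev j).filter (Gd z)).card ≤ 121 := by
    rcases Nat.eq_zero_or_pos j with hj | hj
    · subst hj
      exact (Finset.card_filter_le _ _).trans (by rw [hT.2.1]; norm_num)
    · have h1 := hG.2.2.2.2.2.2.2.2.2.2.1 j z 5 (by norm_num)
      have h2 : (lev j).filter (Gd z) ⊆
          (lev j).filter fun V => ‖ctr V - z‖ ≤ 5 * (1 / 2 : ℝ) ^ j := by
        intro V hV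
        rw [Finset.mem_filter] at hV ⊢
        have hl := (hT.1 j V).1 hV.1
        refine ⟨hV.1, ?_⟩
        rcases hV.2 with h | h
        · omega
        · rwa [hl] at h
      have h3 := Finset.card_le_card h2
      have h4 : (((lev j).filter (Gd z)).card : ℝ) ≤ 121 :=
        le_trans (by exact_mod_cast h3) (h1.trans (by norm_num))
      exact_mod_cast h4
  exact_mod_cast h

theorem sum_len (hG : St_GEO1) (hT : St_T1) (z : ℂ) (f : ℕ → ℝ≥0∞) :
    ∑' V : Dy, ind (Gd z V) * f V.length ≤ ∑' j : ℕ, 121 * f j := by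
  calc ∑' V : Dy, ind (Gd z V) * f V.length
      ≤ ∑' V : Dy, ∑' j : ℕ, if V ∈ (lev j).filter (Gd z) then f j else 0 := by
        refine ENNReal.tsum_le_tsum fun V => le_trans ?_ (ENNReal.le_tsum V.length)
        by_cases h : Gd z V
        · have : V ∈ (lev V.length).filter (Gd z) :=
            Finset.mem_filter.2 ⟨(hT.1 _ _).2 rfl, h⟩
          simp [ind, h, this]
        · simp [ind, h]
    _ = ∑' j : ℕ, ∑' V : Dy, if V ∈ (lev j).filter (Gd z) then f j else 0 := ENNReal.tsum_comm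
    _ ≤ ∑' j : ℕ, 121 * f j := by
        refine ENNReal.tsum_le_tsum fun j => ?_
        rw [tsum_eq_sum (s := (lev j).filter (Gd z)) (fun V hV => if_neg hV),
          Finset.sum_congr rfl (fun V hV => if_pos hV), Finset.sum_const, nsmul_eq_mul]
        exact mul_le_mul_left (card_le hG hT z j) _

theorem eE_add (s t : ℝ) : eE (s + t) = eE s * eE t := by
  simp only [eE, Real.exp_add, ENNReal.ofReal_mul (Real.exp_pos s).le]

theorem eE_zero : eE 0 = 1 := by simp [eE]

theorem eE_rpow (s q : ℝ) : eE s ^ q = eE (s * q) := by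
  simp only [eE, ENNReal.ofReal_rpow_of_pos (Real.exp_pos s), Real.exp_mul]

theorem geo_ne (c : ℝ) (hc : 0 < c) : ∑' j : ℕ, 121 * eE (-c * j) ≠ ∞ := by
  have h1 : ∀ j : ℕ, eE (-c * j) = eE (-c) ^ j := fun j => by
    rw [← eE_rpow, ENNReal.rpow_natCast]
  have h2 : eE (-c) < 1 := by
    unfold eE
    rw [ENNReal.ofReal_lt_one]
    exact Real.exp_lt_one_iff.2 (by linarith)
  simp only [h1, ENNReal.tsum_mul_left, ENNReal.tsum_geometric]
  refine ENNReal.mul_ne_top (by norm_num) (ENNReal.inv_ne_top.2 ?_)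
  exact (tsub_pos_of_lt h2).ne'

theorem pow_sum (hG : St_GEO1) (hT : St_T1) (z : ℂ) (q η : ℝ) (hq : 0 < q) (Z : Dy → ℝ≥0∞) :
    (∑' V : Dy, ind (Gd z V) * Z V) ^ q ≤ (∑' j : ℕ, 121 * eE (-η * j)) ^ q *
      ∑' V : Dy, ind (Gd z V) * (eE (η * V.length * q) * Z V ^ q) := by
  set S := ∑' V : Dy, ind (Gd z V) * (eE (η * V.length * q) * Z V ^ q) with hS
  have h1 : ∀ V : Dy, ind (Gd z V) * Z V ≤ ind (Gd z V) * eE (-η * V.length) * S ^ q⁻¹ := by
    intro V
    by_cases h : Gd z V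
    · have h2 : (eE (η * V.length) * Z V) ^ q ≤ S := by
        rw [ENNReal.mul_rpow_of_nonneg _ _ hq.le, eE_rpow]
        refine le_trans ?_ (ENNReal.le_tsum V)
        simp [ind, h]
      have h3 : eE (η * V.length) * Z V ≤ S ^ q⁻¹ := (ENNReal.le_rpow_inv_iff hq).2 h2
      have h4 : Z V = eE (-η * V.length) * (eE (η * V.length) * Z V) := by
        rw [← mul_assoc, ← eE_add, show -η * V.length + η * V.length = 0 by ring, eE_zero, one_mul]
      rw [mul_assoc]
      refine mul_le_mul_right ?_ _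
      rw [h4]
      exact mul_le_mul_right h3 _
    · simp [ind, h]
  have h5 : ∑' V : Dy, ind (Gd z V) * Z V ≤ (∑' j : ℕ, 121 * eE (-η * j)) * S ^ q⁻¹ := by
    refine (ENNReal.tsum_le_tsum h1).trans ?_
    rw [ENNReal.tsum_mul_right]
    exact mul_le_mul_left (sum_len hG hT z fun j => eE (-η * j)) _
  refine (ENNReal.rpow_le_rpow h5 hq.le).trans ?_
  rw [ENNReal.mul_rpow_of_nonneg _ _ hq.le, ENNReal.rpow_inv_rpow hq.ne']

end MBb

open MBb in
theorem blk_MBb (_hG1 : St_G1) (_hG1D : St_G1D) (hMB : St_MB) (_hMOD : St_MOD) (_hM0 : St_M0)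
    (hEXP2 : St_EXP2) (_hRW1 : St_RW1) (hT1 : St_T1) (hT3 : St_T3) (hGEO1 : St_GEO1) :
    St_MBb := by
  intro γ hγ lam q C1 hlam hq hq4 hql
  obtain ⟨K0, hK0⟩ := hMB γ hγ q hq hq4
  have hl2 : 0 < l2 := Real.log_pos one_lt_two
  have hγ0 : 0 < γ := hγ.1
  set η : ℝ := γ * (2 * (QQ γ - lam) - γ * q) * l2 / 4 with hη
  have hη0 : 0 < η := by
    have : 0 < 2 * (QQ γ - lam) - γ * q := by linarith
    positivity
  set W1 : ℝ≥0∞ := (∑' j : ℕ, 121 * eE (-η * j)) ^ q with hW1
  set W2 : ℝ≥0∞ := ∑' j : ℕ, 121 * eE (-(η * q) * j) with hW2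
  have hW1t : W1 ≠ ∞ := ENNReal.rpow_ne_top_of_nonneg hq.le (geo_ne η hη0)
  have hW2t : W2 ≠ ∞ := geo_ne (η * q) (mul_pos hη0 hq)
  set K1 : ℝ := max K0 0 * Real.exp (γ ^ 2 * q ^ 2 * max C1 0 / 2) with hK1
  have hK10 : 0 ≤ K1 := by positivity
  refine ⟨(W1 * W2).toReal * K1, fun C hC v hv u z => ?_⟩
  have hm : ∀ V : Dy, Measurable fun ω : Om => nB (Yv (QQ γ) lam (fun S => ω (v S)) u V) ^ q := by
    intro V
    have h1 : Measurable fun ω : Om => Yv (QQ γ) lam (fun S => ω (v S)) u V :=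
      measurable_pi_lambda _ fun S => ((meas_ev _).add_const _).sub_const _
    exact (hT3.1.comp h1).pow_const q
  have hb : ∀ V : Dy, eE (η * V.length * q) *
      ∫⁻ ω, nB (Yv (QQ γ) lam (fun S => ω (v S)) u V) ^ q ∂gm ≤
      eE (-(η * q) * V.length) * ENNReal.ofReal (K1 * Real.exp (γ * q * u)) := by
    intro V
    have hg : Gram (fun S => v (S ++ V)) (covE (C + V.length * l2)) := by
      intro S S'
      rw [hv, covE, covE, hEXP2.2.1]
      ring
    have h1 := hK0 _ _ hg (u - (QQ γ - lam) * V.length * l2)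
    have hj : (0 : ℝ) ≤ V.length * l2 := by positivity
    have h2 : max (C + V.length * l2) 0 ≤ max C1 0 + V.length * l2 :=
      max_le (by linarith [le_max_left C1 0]) (by linarith [le_max_right C1 0])
    have h3 : K0 * Real.exp (γ * q * (u - (QQ γ - lam) * V.length * l2) +
        γ ^ 2 * q ^ 2 * max (C + V.length * l2) 0 / 2) ≤
        Real.exp (-(2 * η * q) * V.length) * (K1 * Real.exp (γ * q * u)) := by
      have h4 : γ * q * (u - (QQ γ - lam) * V.length * l2) +
          γ ^ 2 * q ^ 2 * max (C + V.length * l2) 0 / 2 ≤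
          -(2 * η * q) * V.length + (γ ^ 2 * q ^ 2 * max C1 0 / 2 + γ * q * u) := by
        have h5 := mul_le_mul_of_nonneg_left h2 (by positivity : 0 ≤ γ ^ 2 * q ^ 2)
        rw [hη]
        nlinarith
      calc _ ≤ max K0 0 * Real.exp (-(2 * η * q) * V.length +
            (γ ^ 2 * q ^ 2 * max C1 0 / 2 + γ * q * u)) :=
            mul_le_mul (le_max_left _ _) (Real.exp_le_exp.2 h4) (Real.exp_pos _).le
              (le_max_right _ _)
        _ = _ := by rw [hK1, Real.exp_add, Real.exp_add]; ring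
    have h6 : ∫⁻ ω, nB (Yv (QQ γ) lam (fun S => ω (v S)) u V) ^ q ∂gm ≤
        eE (-(2 * η * q) * V.length) * ENNReal.ofReal (K1 * Real.exp (γ * q * u)) := by
      refine le_trans h1 ((ENNReal.ofReal_le_ofReal h3).trans ?_)
      rw [ENNReal.ofReal_mul (Real.exp_pos _).le]
      rfl
    refine (mul_le_mul_right h6 _).trans ?_
    rw [← mul_assoc, ← eE_add,
      show η * V.length * q + -(2 * η * q) * V.length = -(η * q) * V.length by ring]
  calc ∫⁻ ω, nB (fun A => drift (QQ γ) (fun S => ω (v S)) u A + lam * ins 1 z A) ^ q ∂gm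
      ≤ ∫⁻ ω, W1 * ∑' V : Dy, ind (Gd z V) *
          (eE (η * V.length * q) * nB (Yv (QQ γ) lam (fun S => ω (v S)) u V) ^ q) ∂gm := by
        refine lintegral_mono fun ω => ?_
        exact (ENNReal.rpow_le_rpow (nB_le hGEO1 _ lam hlam _ u z) hq.le).trans
          (pow_sum hGEO1 hT1 z q η hq _)
    _ = W1 * ∑' V : Dy, ind (Gd z V) * (eE (η * V.length * q) *
          ∫⁻ ω, nB (Yv (QQ γ) lam (fun S => ω (v S)) u V) ^ q ∂gm) := by
        rw [lintegral_const_mul' _ _ hW1t,
          lintegral_tsum fun V => (((hm V).const_mul _).const_mul _).aemeasurable]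
        congr 1
        refine tsum_congr fun V => ?_
        rw [lintegral_const_mul _ ((hm V).const_mul _), lintegral_const_mul _ (hm V)]
    _ ≤ W1 * ∑' V : Dy, ind (Gd z V) * eE (-(η * q) * V.length) *
          ENNReal.ofReal (K1 * Real.exp (γ * q * u)) := by
        refine mul_le_mul_right (ENNReal.tsum_le_tsum fun V => ?_) _
        rw [mul_assoc (ind (Gd z V))]
        exact mul_le_mul_right (hb V) _
    _ ≤ W1 * (W2 * ENNReal.ofReal (K1 * Real.exp (γ * q * u))) := by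
        rw [ENNReal.tsum_mul_right]
        exact mul_le_mul_right
          (mul_le_mul_left (sum_len hGEO1 hT1 z fun j => eE (-(η * q) * j)) _) _
    _ = ENNReal.ofReal ((W1 * W2).toReal * K1 * Real.exp (γ * q * u)) := by
        rw [mul_assoc (W1 * W2).toReal, ENNReal.ofReal_mul ENNReal.toReal_nonneg,
          ENNReal.ofReal_toReal (ENNReal.mul_ne_top hW1t hW2t), mul_assoc W1]

end

end Pool.Agent.Lib.APPS
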