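import Pool.Agent.Lib.APPS.B_MG1a

/-!
Block MG1: curvature density of a smooth metric on the sphere, total mass and potential.
-/

namespace Pool.Agent.Lib.APPS

open MeasureTheory Filter Topology Set Metric
open scoped NNReal ENNReal RealInnerProductSpace

noncomputable section

namespace MG1

lemma circ_prob (c : ℂ) (r : ℝ) : IsProbabilityMeasure (circ c r) := by
  constructor
  have h : 0 < 2 * Real.pi := by positivity
  rw [circ, Measure.smul_apply, Measure.map_apply (measurable_circleMap c r) MeasurableSet.univ]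
  simp only [preimage_univ, MeasurableSet.univ, Measure.restrict_apply, univ_inter,
    Real.volume_Ioc, sub_zero, smul_eq_mul]
  exact ENNReal.inv_mul_cancel (by simpa using Real.pi_pos) ENNReal.ofReal_ne_top

lemma circ_ae (c : ℂ) {r : ℝ} (hr : 0 < r) : ∀ᵐ w ∂circ c r, ‖w - c‖ = r := by
  rw [circ]
  refine Measure.ae_smul_measure ?_ _
  have hm : MeasurableSet {w : ℂ | ‖w - c‖ = r} :=
    (isClosed_eq (by fun_prop) continuous_const).measurableSet
  refine (ae_map_iff (measurable_circleMap c r).aemeasurable hm).2 (ae_of_all _ fun θ => ?_)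
  simp [circleMap_sub_center, abs_of_pos hr]

lemma circ_int {u : ℂ → ℝ} (hu : Continuous u) (c : ℂ) {r : ℝ} (hr : 0 < r) :
    Integrable u (circ c r) := by
  have := circ_prob c r
  obtain ⟨A, hA⟩ := (isCompact_closedBall c r).exists_bound_of_continuousOn hu.continuousOn
  refine (integrable_const A).mono' hu.aestronglyMeasurable ?_
  filter_upwards [circ_ae c hr] with w hw
  exact hA w (mem_closedBall_iff_norm.2 hw.le)

lemma circ_near {u : ℂ → ℝ} (c : ℂ) {r : ℝ} (hr : 0 < r) (hu : Continuous u) {a B : ℝ}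
    (h : ∀ w, ‖w - c‖ = r → |u w - a| ≤ B) : |∫ w, u w ∂circ c r - a| ≤ B := by
  have := circ_prob c r
  have e : ∫ w, u w ∂circ c r - a = ∫ w, (u w - a) ∂circ c r := by
    rw [integral_sub (circ_int hu c hr) (integrable_const a)]; simp
  rw [e]
  have := norm_integral_le_of_norm_le_const (μ := circ c r) (f := fun w => u w - a) (C := B)
    ((circ_ae c hr).mono h)
  simpa using this

lemma int_inner (hP1 : St_P1) {u φ : ℂ → ℝ} (hu : ∃ K, LipschitzWith K u) (hφ : LipC φ) :
    Integrable fun x => ⟪gradient u x, gradient φ x⟫ := by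
  obtain ⟨K, hK⟩ := hu
  obtain ⟨⟨K', hK'⟩, hc⟩ := hφ
  have hm : Measurable fun x => ⟪gradient u x, gradient φ x⟫ :=
    (hP1.2.2.2.2.2.2.1 u).inner (hP1.2.2.2.2.2.2.1 φ)
  have hi : Integrable ((tsupport φ).indicator fun _ => (K : ℝ) * K') :=
    (integrable_indicator_iff (isClosed_tsupport φ).measurableSet).2
      (integrableOn_const hc.isCompact.measure_lt_top.ne)
  refine hi.mono' hm.aestronglyMeasurable (ae_of_all _ fun x => ?_)
  by_cases hx : x ∈ tsupport φ
  · rw [indicator_of_mem hx]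
    refine (norm_inner_le_norm _ _).trans ?_
    have h1 := hP1.2.2.2.2.2.2.2.1 u K hK x
    have h2 := hP1.2.2.2.2.2.2.2.1 φ K' hK' x
    gcongr
  · rw [indicator_of_notMem hx, (notMem_tsupport_iff_eventuallyEq.1 hx).gradient_eq]
    have : gradient (0 : ℂ → ℝ) x = 0 := gradient_fun_const x 0
    simp [this]

lemma lin (hP1 : St_P1) {u v φ : ℂ → ℝ} (hu : ∃ K, LipschitzWith K u)
    (hv : ∃ K, LipschitzWith K v) (hφ : LipC φ) (a b : ℝ) :
    ∫ x, ⟪gradient (fun x => a * u x + b * v x) x, gradient φ x⟫ =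
      (a * ∫ x, ⟪gradient u x, gradient φ x⟫) + b * ∫ x, ⟪gradient v x, gradient φ x⟫ := by
  rw [← integral_const_mul, ← integral_const_mul, ← integral_add
    ((int_inner hP1 hu hφ).const_mul a) ((int_inner hP1 hv hφ).const_mul b)]
  obtain ⟨K, hK⟩ := hu
  obtain ⟨K', hK'⟩ := hv
  refine integral_congr_ae ?_
  filter_upwards [hK.ae_differentiableAt, hK'.ae_differentiableAt] with x h1 h2
  have h3 := ((h1.hasFDerivAt.const_mul a).add (h2.hasFDerivAt.const_mul b)).fderiv
  have h4 : fderiv ℝ (fun x => a * u x + b * v x) x = a • fderiv ℝ u x + b • fderiv ℝ v x := h3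
  simp only [gradient, h4, map_add, map_smul, inner_add_left, real_inner_smul_left]

lemma cut (hP1 : St_P1) {k f : ℂ → ℝ} (hk : LipE k) (hf : LipE f) {c C : ℝ}
    (hd : ∀ x, |f x - c| ≤ C / (1 + ‖x‖)) : ∃ φ : ℕ → ℂ → ℝ, (∀ n, LipC (φ n)) ∧
      (∀ (n : ℕ) x, ‖x‖ ≤ n → φ n x = f x - c) ∧ (∀ n x, |φ n x| ≤ |f x - c|) ∧
      Tendsto (fun n => ∫ x, ⟪gradient k x, gradient (φ n) x⟫) atTop
        (𝓝 (∫ x, ⟪gradient k x, gradient f x⟫)) := by
  obtain ⟨φ, h1, h2, h3, h4⟩ := hP1.2.2.2.2.2.2.2.2.1 f c C hf hd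
  refine ⟨φ, h1, h2, h3, ?_⟩
  have hp : (2 * Real.pi) ≠ 0 := by positivity
  have e : ∀ w, LipE w → ∫ x, ⟪gradient k x, gradient w x⟫ = 2 * Real.pi * ⟪gr k, gr w⟫ :=
    fun w hw => by rw [(hP1.2.2.2.2.1 k w hk hw).2]; field_simp
  rw [e f hf]
  simp only [fun n => e _ (hP1.1 _ (h1 n))]
  exact (tendsto_const_nhds.inner h4).const_mul _

lemma cut_circ {φ : ℕ → ℂ → ℝ} {F : ℂ → ℝ} (h : ∀ (n : ℕ) x, ‖x‖ ≤ n → φ n x = F x) (c : ℂ)
    {r : ℝ} (hr : 0 < r) :
    Tendsto (fun n => ∫ w, φ n w ∂circ c r) atTop (𝓝 (∫ w, F w ∂circ c r)) := by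
  refine tendsto_const_nhds.congr' ?_
  filter_upwards [eventually_ge_atTop ⌈‖c‖ + r⌉₊] with n hn
  refine integral_congr_ae ?_
  filter_upwards [circ_ae c hr] with w hw
  refine (h n w ?_).symm
  have h1 : ‖c‖ + r ≤ n := Nat.ceil_le.1 hn
  have h2 := norm_sub_norm_le w c
  linarith

lemma L_cont (y : ℂ) {δ : ℝ} (hδ : 0 < δ) : Continuous (L y δ) :=
  (L_lip y hδ).choose_spec.continuous

/-- Green identity for two truncated logarithms. -/
lemma green (hP1 : St_P1) (hP2 : St_P2) (hE : St_EXP1) (g : Met) (x x' : ℂ) {δ δ' : ℝ}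
    (hδ : 0 < δ) (hδ' : 0 < δ') :
    ∫ z, (L x δ z - L x' δ' z) * Laplacian.laplacian g.σ z =
      2 * Real.pi * (∫ w, g.σ w ∂circ x δ - ∫ w, g.σ w ∂circ x' δ') := by
  have n1 := norm_nonneg x
  have n2 := norm_nonneg x'
  set R : ℝ := ‖x‖ + δ + ‖x'‖ + δ' with hR
  have hR0 : 0 < R := by positivity
  obtain ⟨hf, C, hC⟩ := good_f hP1 g hR0
  obtain ⟨hh, D, hD⟩ := good_h hP1 x x' hδ hδ'
  obtain ⟨φ, p1, p2, p3, p4⟩ := cut hP1 hf hh hD
  obtain ⟨ψ, q1, q2, q3, q4⟩ := cut hP1 hh hf hC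
  have hσ := (sig_two g).continuous
  have sym : ∫ z, ⟪gradient (fun z => 1 * L x δ z + (-1) * L x' δ' z) z,
      gradient (fun x => (-1 / 2) * g.σ x + (-1) * L 0 R x) z⟫ =
      ∫ z, ⟪gradient (fun x => (-1 / 2) * g.σ x + (-1) * L 0 R x) z,
      gradient (fun z => 1 * L x δ z + (-1) * L x' δ' z) z⟫ :=
    integral_congr_ae (ae_of_all _ fun z => real_inner_comm _ _)
  have a1 : Tendsto (fun n => ∫ z, φ n z * Laplacian.laplacian g.σ z) atTop
      (𝓝 (∫ z, (L x δ z - L x' δ' z) * Laplacian.laplacian g.σ z)) := by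
    refine tendsto_integral_of_dominated_convergence
      (fun z => |D| * ‖Laplacian.laplacian g.σ z‖)
      (fun n => ((p1 n).1.choose_spec.continuous.mul
        (lap_cont (sig_two g))).aestronglyMeasurable)
      ((lap_int g).norm.const_mul _) (fun n => ae_of_all _ fun z => ?_) (ae_of_all _ fun z => ?_)
    · rw [norm_mul]
      refine mul_le_mul_of_nonneg_right (((p3 n z).trans (hD z)).trans ?_) (norm_nonneg _)
      refine (div_le_div_of_nonneg_right (le_abs_self D) (by positivity)).trans ?_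
      exact div_le_self (abs_nonneg _) (by linarith [norm_nonneg z])
    · refine tendsto_const_nhds.congr' ?_
      filter_upwards [eventually_ge_atTop ⌈‖z‖⌉₊] with n hn
      rw [p2 n z (Nat.ceil_le.1 hn)]
      ring
  have big : ∀ (y : ℂ) (d : ℝ), 0 < d → ‖y‖ + d ≤ R → ∫ w, L y d w ∂circ 0 R = Real.log R := by
    intro y d hd hy
    have h1 := (hE.1 y 0 R hR0).2
    rw [sub_zero, max_eq_right (by linarith)] at h1
    rw [← h1]
    refine integral_congr_ae ?_
    filter_upwards [circ_ae 0 hR0] with w hw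
    rw [sub_zero] at hw
    have := norm_sub_norm_le w y
    rw [L, max_eq_left (by linarith), norm_sub_rev]
  have a2 : ∫ w, (1 * L x δ w + (-1) * L x' δ' w - 0) ∂circ 0 R = 0 := by
    simp only [one_mul, neg_mul, sub_zero, ← sub_eq_add_neg]
    rw [integral_sub (circ_int (L_cont x hδ) 0 hR0) (circ_int (L_cont x' hδ') 0 hR0),
      big x δ hδ (by linarith), big x' δ' hδ' (by linarith), sub_self]
  have small : ∀ (y : ℂ) (d : ℝ), 0 < d → ‖y‖ + d ≤ R →
      ∫ w, ((-1 / 2) * g.σ w + (-1) * L 0 R w - -g.τ 0 / 2) ∂circ y d =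
        (-1 / 2) * ∫ w, g.σ w ∂circ y d - (Real.log R + -g.τ 0 / 2) := by
    intro y d hd hy
    have := circ_prob y d
    have : ∫ w, ((-1 / 2) * g.σ w + (-1) * L 0 R w - -g.τ 0 / 2) ∂circ y d =
        ∫ w, ((-1 / 2) * g.σ w - (Real.log R + -g.τ 0 / 2)) ∂circ y d := by
      refine integral_congr_ae ?_
      filter_upwards [circ_ae y hd] with w hw
      have := norm_sub_norm_le w y
      rw [L, sub_zero, max_eq_right (by linarith)]
      ring
    rw [this, integral_sub ((circ_int hσ y hd).const_mul _) (integrable_const _),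
      integral_const_mul]
    simp
  have b1 := (a1.neg.const_mul (-1 / 2)).add
    (((cut_circ p2 0 hR0).const_mul (-(2 * Real.pi))).const_mul (-1))
  have b2 := (((cut_circ q2 x hδ).const_mul (-(2 * Real.pi))).const_mul 1).add
    (((cut_circ q2 x' hδ').const_mul (-(2 * Real.pi))).const_mul (-1))
  have c1 := tendsto_nhds_unique p4 (b1.congr fun n => by
    rw [lin hP1 (sig_lip g) (L_lip 0 hR0) (p1 n), hP2.2 _ _ (sig_two g) (p1 n),
      ← hP2.1 0 R _ hR0 (p1 n)]
    rfl)
  have c2 := tendsto_nhds_unique q4 (b2.congr fun n => by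
    rw [lin hP1 (L_lip x hδ) (L_lip x' hδ') (q1 n), ← hP2.1 x δ _ hδ (q1 n),
      ← hP2.1 x' δ' _ hδ' (q1 n)]
    rfl)
  rw [sym, c1, a2, small x δ hδ (by linarith), small x' δ' hδ' (by linarith)] at c2
  linarith

lemma total (hP1 : St_P1) (hP2 : St_P2) (hE : St_EXP1) (g : Met) :
    ∫ z, Laplacian.laplacian g.σ z = -(4 * Real.pi) := by
  have hσ := (sig_two g).continuous
  obtain ⟨B, hB⟩ := (isCompact_closedBall (0 : ℂ) 1).exists_bound_of_continuousOn
    (tau_two g).continuous.continuousOn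
  set r : ℕ → ℝ := fun n => Real.exp (n + 1) with hr
  have r1 : ∀ n, 1 ≤ r n := fun n => Real.one_le_exp (by positivity)
  have r0 : ∀ n, 0 < r n := fun n => Real.exp_pos _
  have lr : ∀ n, Real.log (r n) = n + 1 := fun n => Real.log_exp _
  have a1 : Tendsto (fun n : ℕ => ∫ z, ((n : ℝ) + 1)⁻¹ *
      ((L 0 (r n) z - L 0 1 z) * Laplacian.laplacian g.σ z)) atTop
      (𝓝 (∫ z, Laplacian.laplacian g.σ z)) := by
    refine tendsto_integral_of_dominated_convergence (fun z => ‖Laplacian.laplacian g.σ z‖)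
      (fun n => (continuous_const.mul (((L_cont 0 (r0 n)).sub (L_cont 0 one_pos)).mul
        (lap_cont (sig_two g)))).aestronglyMeasurable)
      (lap_int g).norm (fun n => ae_of_all _ fun z => ?_) (ae_of_all _ fun z => ?_)
    · have hp : (0 : ℝ) < max ‖z - 0‖ 1 := lt_max_of_lt_right one_pos
      have h1 : L 0 1 z ≤ L 0 (r n) z := Real.log_le_log hp (max_le_max_left _ (r1 n))
      have h2 : L 0 (r n) z ≤ n + 1 + L 0 1 z := by
        rw [← lr n, L, L, ← Real.log_mul (r0 n).ne' hp.ne']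
        refine Real.log_le_log (lt_max_of_lt_right (r0 n)) (max_le ?_ ?_)
        · exact (le_max_left _ 1).trans (le_mul_of_one_le_left hp.le (r1 n))
        · exact le_mul_of_one_le_right (r0 n).le (le_max_right _ _)
      rw [← mul_assoc, norm_mul]
      refine mul_le_of_le_one_left (norm_nonneg _) ?_
      have h3 : (0 : ℝ) < n + 1 := by positivity
      rw [Real.norm_eq_abs, abs_of_nonneg (mul_nonneg (inv_nonneg.2 h3.le) (by linarith)),
        inv_mul_le_iff₀ h3]
      linarith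
    · have t0 : Tendsto (fun n : ℕ => (1 - L 0 1 z * (1 / ((n : ℝ) + 1))) *
          Laplacian.laplacian g.σ z) atTop (𝓝 ((1 - L 0 1 z * 0) * Laplacian.laplacian g.σ z)) :=
        (tendsto_const_nhds.sub
          (tendsto_one_div_add_atTop_nhds_zero_nat.const_mul _)).mul_const _
      rw [mul_zero, sub_zero, one_mul] at t0
      refine t0.congr' ?_
      filter_upwards [eventually_ge_atTop ⌈‖z‖⌉₊] with n hn
      have h1 : ‖z‖ ≤ n := Nat.ceil_le.1 hn
      have h2 : (n : ℝ) + 1 + 1 ≤ r n := Real.add_one_le_exp _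
      have h3 : L 0 (r n) z = n + 1 := by
        rw [L, sub_zero, max_eq_right (by linarith), lr]
      have h4 : (n : ℝ) + 1 ≠ 0 := by positivity
      rw [h3]
      field_simp
  have a2 : ∀ n, |∫ w, g.σ w ∂circ 0 (r n) - -2 * (n + 1)| ≤ B := fun n =>
    circ_near 0 (r0 n) hσ fun w hw => by
      rw [sub_zero] at hw
      have hw0 : w ≠ 0 := norm_pos_iff.1 (hw ▸ r0 n)
      have hm : w⁻¹ ∈ closedBall (0 : ℂ) 1 := by
        rw [mem_closedBall_zero_iff, norm_inv, hw]; exact inv_le_one_of_one_le₀ (r1 n)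
      have : |g.τ w⁻¹| ≤ B := hB _ hm
      rw [sig_eq g hw0, hw, lr]
      convert this using 2
      ring
  set A := ∫ w, g.σ w ∂circ 0 1 with hA
  have a3 : Tendsto (fun n : ℕ => ((n : ℝ) + 1)⁻¹ * (∫ w, g.σ w ∂circ 0 (r n) - -2 * (n + 1) - A))
      atTop (𝓝 0) := by
    have t0 := (tendsto_one_div_add_atTop_nhds_zero_nat (𝕜 := ℝ)).mul_const (B + |A|)
    rw [zero_mul] at t0
    refine squeeze_zero_norm (fun n => ?_) t0
    have h3 : (0 : ℝ) < n + 1 := by positivity
    rw [norm_mul, Real.norm_eq_abs, abs_of_pos (inv_pos.2 h3), one_div, Real.norm_eq_abs]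
    refine mul_le_mul_of_nonneg_left ((abs_sub _ _).trans ?_) (inv_nonneg.2 h3.le)
    linarith [a2 n]
  have a4 := (a3.sub_const 2).const_mul (2 * Real.pi)
  have := tendsto_nhds_unique a1 (a4.congr fun n => by
    have h4 : (n : ℝ) + 1 ≠ 0 := by positivity
    rw [integral_const_mul, green hP1 hP2 hE g 0 0 (r0 n) one_pos, ← hA]
    field_simp
    ring)
  rw [this]
  ring

lemma L_dom (x y : ℂ) {δ : ℝ} (hδ : 0 < δ) (h1 : δ ≤ 1) (hy : y ≠ x) :
    |L x δ y| ≤ |Real.log ‖x - y‖| := by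
  have h0 : 0 < ‖y - x‖ := norm_pos_iff.2 (sub_ne_zero.2 hy)
  rw [L, norm_sub_rev x y]
  rcases le_total δ ‖y - x‖ with h | h
  · rw [max_eq_left h]
  · rw [max_eq_right h, abs_of_nonpos (Real.log_nonpos hδ.le h1),
      abs_of_nonpos (Real.log_nonpos h0.le (h.trans h1))]
    linarith [Real.log_le_log h0 h]

lemma log_int (hE : St_EXP1) (g : Met) (x : ℂ) :
    Integrable fun y => Real.log ‖x - y‖ * Laplacian.laplacian g.σ y := by
  obtain ⟨C, hC⟩ := lap_bound g
  have hC0 : 0 ≤ C := by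
    have := (abs_nonneg _).trans (hC 0)
    simpa using this
  have h1 : IntegrableOn (fun y => Real.log ‖x - y‖) (closedBall x 1) := by
    have := (hE.2.2.2.1 x x 1 one_pos).1
    rw [disc] at this
    exact (integrable_smul_measure (by simp) (by simpa using Real.pi_pos)).1 this
  have h2 := ((integrable_indicator_iff measurableSet_closedBall).2 h1).norm.mul_const C
  have h3 := int_pow (C * (2 + Real.log (1 + ‖x‖))) (r := 5 / 2) (by norm_num)
  have hm : Measurable fun y => Real.log ‖x - y‖ := by fun_prop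
  refine (h2.add h3).mono' (hm.aestronglyMeasurable.mul
    (lap_cont (sig_two g)).aestronglyMeasurable) (ae_of_all _ fun y => ?_)
  have hy : (1 : ℝ) ≤ 1 + ‖y‖ := by linarith [norm_nonneg y]
  have hx : 0 ≤ Real.log (1 + ‖x‖) := Real.log_nonneg (by linarith [norm_nonneg x])
  rw [norm_mul, Pi.add_apply]
  by_cases hb : y ∈ closedBall x 1
  · rw [indicator_of_mem hb]
    refine le_add_of_le_of_nonneg (mul_le_mul_of_nonneg_left ((hC y).trans ?_) (norm_nonneg _))
      (by positivity)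
    exact div_le_self hC0 (one_le_pow₀ hy)
  · refine le_add_of_nonneg_of_le (by positivity) ?_
    rw [mem_closedBall_iff_norm', not_le] at hb
    have e1 : (1 : ℝ) ≤ (1 + ‖y‖) ^ (1 / 2 : ℝ) := Real.one_le_rpow hy (by norm_num)
    have e2 : Real.log (1 + ‖y‖) ≤ (1 + ‖y‖) ^ (1 / 2 : ℝ) / (1 / 2) :=
      Real.log_le_rpow_div (by positivity) (by norm_num)
    have e3 : Real.log ‖x - y‖ ≤ Real.log (1 + ‖x‖) + Real.log (1 + ‖y‖) := by
      rw [← Real.log_mul (by positivity) (by positivity)]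
      refine Real.log_le_log (by linarith) ((norm_sub_le _ _).trans ?_)
      nlinarith [mul_nonneg (norm_nonneg x) (norm_nonneg y)]
    have e4 : ‖Real.log ‖x - y‖‖ ≤ (2 + Real.log (1 + ‖x‖)) * (1 + ‖y‖) ^ (1 / 2 : ℝ) := by
      rw [Real.norm_eq_abs, abs_of_nonneg (Real.log_nonneg hb.le)]
      nlinarith
    have e5 : (1 + ‖y‖) ^ (-(5 / 2) : ℝ) = (1 + ‖y‖) ^ (1 / 2 : ℝ) / (1 + ‖y‖) ^ 3 := by
      rw [← Real.rpow_natCast, ← Real.rpow_sub (by positivity)]
      norm_num
    calc _ ≤ (2 + Real.log (1 + ‖x‖)) * (1 + ‖y‖) ^ (1 / 2 : ℝ) * (C / (1 + ‖y‖) ^ 3) :=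
          mul_le_mul e4 (hC y) (abs_nonneg _) (by positivity)
      _ = _ := by rw [e5]; ring

lemma repr (hP1 : St_P1) (hP2 : St_P2) (hE : St_EXP1) (g : Met) (x x' : ℂ) :
    (∫ y, Real.log ‖x - y‖ * Laplacian.laplacian g.σ y) -
      ∫ y, Real.log ‖x' - y‖ * Laplacian.laplacian g.σ y = 2 * Real.pi * (g.σ x - g.σ x') := by
  set d : ℕ → ℝ := fun n => 1 / ((n : ℝ) + 1) with hd
  have d0 : ∀ n, 0 < d n := fun n => Nat.one_div_pos_of_nat
  have d1 : ∀ n, d n ≤ 1 := fun n => by
    rw [hd]; exact (div_le_one (by positivity)).2 (by linarith [n.cast_nonneg (α := ℝ)])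
  have dt : Tendsto d atTop (𝓝 0) := tendsto_one_div_add_atTop_nhds_zero_nat
  have ne : ∀ v : ℂ, ∀ᵐ y : ℂ, y ≠ v := fun v => by simp [ae_iff]
  have a1 : Tendsto (fun n => ∫ z, (L x (d n) z - L x' (d n) z) * Laplacian.laplacian g.σ z) atTop
      (𝓝 (∫ y, (Real.log ‖x - y‖ * Laplacian.laplacian g.σ y -
        Real.log ‖x' - y‖ * Laplacian.laplacian g.σ y))) := by
    refine tendsto_integral_of_dominated_convergence _
      (fun n => (((L_cont x (d0 n)).sub (L_cont x' (d0 n))).mul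
        (lap_cont (sig_two g))).aestronglyMeasurable)
      ((log_int hE g x).norm.add (log_int hE g x').norm) (fun n => ?_) ?_
    · filter_upwards [ne x, ne x'] with y h1 h2
      rw [Pi.add_apply, norm_mul, norm_mul, norm_mul, ← add_mul]
      refine mul_le_mul_of_nonneg_right ((norm_sub_le _ _).trans ?_) (norm_nonneg _)
      exact add_le_add (L_dom x y (d0 n) (d1 n) h1) (L_dom x' y (d0 n) (d1 n) h2)
    · filter_upwards [ne x, ne x'] with y h1 h2
      refine tendsto_const_nhds.congr' ?_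
      filter_upwards [dt.eventually (gt_mem_nhds (norm_pos_iff.2 (sub_ne_zero.2 h1))),
        dt.eventually (gt_mem_nhds (norm_pos_iff.2 (sub_ne_zero.2 h2)))] with n h3 h4
      rw [L, L, max_eq_left h3.le, max_eq_left h4.le, norm_sub_rev x y, norm_sub_rev x' y]
      ring
  obtain ⟨K, hK⟩ := sig_lip g
  have a2 : ∀ v : ℂ, Tendsto (fun n => ∫ w, g.σ w ∂circ v (d n)) atTop (𝓝 (g.σ v)) := by
    intro v
    rw [tendsto_iff_norm_sub_tendsto_zero]
    have t0 := dt.const_mul (K : ℝ)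
    rw [mul_zero] at t0
    refine squeeze_zero (fun _ => norm_nonneg _) (fun n => ?_) t0
    refine circ_near v (d0 n) hK.continuous fun w hw => ?_
    have := hK.dist_le_mul w v
    rwa [Real.dist_eq, dist_eq_norm, hw] at this
  rw [← integral_sub (log_int hE g x) (log_int hE g x')]
  exact tendsto_nhds_unique a1 ((((a2 x).sub (a2 x')).const_mul _).congr fun n =>
    (green hP1 hP2 hE g x x' (d0 n) (d0 n)).symm)

end MG1

open MG1 in
theorem blk_MG1 (hP1 : St_P1) (hP2 : St_P2) (hE : St_EXP1) : St_MG1 := by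
  intro g
  have hp := Real.pi_pos
  have hk : ∀ z, g.kap z = -Laplacian.laplacian g.σ z / (4 * Real.pi) := fun z => by
    rw [Met.kap, integral_neg, total hP1 hP2 hE g, neg_neg]
  have hk' : g.kap = fun z => (-(4 * Real.pi)⁻¹) * Laplacian.laplacian g.σ z := by
    funext z; rw [hk]; ring
  have h0 : g.σ 0 = 0 := g.flat.self_of_nhdsSet 0 (by simp [box, corner, side])
  obtain ⟨hf, C, hC⟩ := good_f hP1 g one_pos
  have ef : (fun x => (-1 / 2) * g.σ x + (-1) * L 0 1 x) =
      fun x => -g.σ x / 2 - Real.log (max ‖x‖ 1) := by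
    funext x; rw [L, sub_zero]; ring
  have hC' : ∀ x, |-g.σ x / 2 - Real.log (max ‖x‖ 1) - -g.τ 0 / 2| ≤ C / (1 + ‖x‖) := fun x => by
    rw [← congrFun ef x]; exact hC x
  refine ⟨?_, ?_, hk, ?_, fun x => ?_, ⟨2 * |C| + |g.τ 0| + 2, fun z => ?_⟩, ef ▸ hf, C, hC'⟩
  · rw [hk']; exact (lap_int g).const_mul _
  · rw [hk', integral_const_mul, total hP1 hP2 hE g]; field_simp
  · obtain ⟨B, hB⟩ := lap_bound g
    refine ⟨B / (4 * Real.pi), fun z => ?_⟩
    rw [hk, abs_div, abs_neg, abs_of_pos (by positivity : 0 < 4 * Real.pi), div_right_comm]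
    exact div_le_div_of_nonneg_right (hB z) (by positivity)
  · have e : ∀ v : ℂ, ∫ y, Real.log ‖v - y‖ * g.kap y =
        (-(4 * Real.pi)⁻¹) * ∫ y, Real.log ‖v - y‖ * Laplacian.laplacian g.σ y := fun v => by
      rw [← integral_const_mul, hk']
      exact integral_congr_ae (ae_of_all _ fun y => by ring)
    have e0 := e 0
    simp only [zero_sub, norm_neg] at e0
    have h := MG1.repr hP1 hP2 hE g x 0
    simp only [zero_sub, norm_neg, h0, sub_zero] at h
    rw [e, e0, eq_add_of_sub_eq h]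
    field_simp
    ring
  · have hz := norm_nonneg z
    have h1 := (hC' z).trans ((div_le_div_of_nonneg_right (le_abs_self C) (by positivity)).trans
      (div_le_self (abs_nonneg C) (by linarith)))
    have h2 := log_lip one_pos (show 1 ≤ 1 + ‖z‖ by linarith) (le_max_right ‖z‖ 1)
    have h3 : |1 + ‖z‖ - max ‖z‖ 1| ≤ 1 := by
      rw [abs_le]
      rcases le_total ‖z‖ 1 with h | h
      · rw [max_eq_right h]; constructor <;> linarith
      · rw [max_eq_left h]; constructor <;> linarith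
    rw [inv_one, one_mul] at h2
    have h4 := h2.trans h3
    have h5 := le_abs_self (g.τ 0)
    have h6 := neg_abs_le (g.τ 0)
    rw [abs_le] at h1 h4 ⊢
    constructor <;> linarith [h1.1, h1.2, h4.1, h4.2]

end

end Pool.Agent.Lib.APPS
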