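import Pool.Agent.Lib.APPS.Blue1

namespace Pool.Agent.Lib.APPS

open MeasureTheory ProbabilityTheory Filter Topology Set Metric
open scoped NNReal ENNReal

noncomputable section

def mg2_h (u : ℂ) : ℝ := (ball (0 : ℂ) 1).indicator (fun u => |Real.log ‖u‖|) u

theorem mg2_h_int : Integrable mg2_h := by
  unfold mg2_h
  rw [integrable_indicator_iff measurableSet_ball]
  refine integrableOn_ball_of_norm_le_rpow (C := 1) (α := 1) (by simp) (by simp) ?_ ?_
  · refine (ae_restrict_iff' measurableSet_ball).2 (Eventually.of_forall fun u hu => ?_)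
    rw [mem_ball_zero_iff] at hu
    rw [Real.norm_eq_abs, abs_abs, one_mul, Real.rpow_neg_one,
      abs_of_nonpos (Real.log_nonpos (norm_nonneg _) hu.le), ← Real.log_inv]
    exact Real.log_le_self (by positivity)
  · exact (Measurable.aestronglyMeasurable (by fun_prop))

theorem mg2_log_nonneg (u : ℂ) : 0 ≤ Real.log (1 + ‖u‖) :=
  Real.log_nonneg (by linarith [norm_nonneg u])

theorem mg2_bound (w y : ℂ) :
    |Real.log ‖w - y‖| ≤ mg2_h (w - y) + (Real.log (1 + ‖w‖) + Real.log (1 + ‖y‖)) := by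
  have h1 := mg2_log_nonneg w
  have h2 := mg2_log_nonneg y
  unfold mg2_h
  by_cases h : w - y ∈ ball (0 : ℂ) 1
  · rw [indicator_of_mem h]; linarith
  · rw [indicator_of_notMem h, zero_add]
    rw [mem_ball_zero_iff, not_lt] at h
    rw [abs_of_nonneg (Real.log_nonneg h), ← Real.log_mul (by positivity) (by positivity)]
    refine Real.log_le_log (by linarith) ((norm_sub_le _ _).trans ?_)
    nlinarith [norm_nonneg w, norm_nonneg y]

theorem mg2_logk {κ : ℂ → ℝ} (hκ : Integrable κ) {C : ℝ} (hC : ∀ z, |κ z| ≤ C / (1 + ‖z‖) ^ 3) :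
    Integrable fun w => Real.log (1 + ‖w‖) * |κ w| := by
  have hC0 : 0 ≤ C := by simpa using (abs_nonneg _).trans (hC 0)
  have h1 := (integrable_one_add_norm (E := ℂ) (μ := volume) (r := 5 / 2)
    (by simp; norm_num)).const_mul (2 * C)
  refine h1.mono' ((Measurable.aestronglyMeasurable (by fun_prop)).mul
    hκ.abs.aestronglyMeasurable) (Eventually.of_forall fun w => ?_)
  have h0 : 0 < 1 + ‖w‖ := by positivity
  rw [Real.norm_eq_abs, abs_mul, abs_abs, abs_of_nonneg (mg2_log_nonneg w)]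
  have h2 := Real.log_le_rpow_div h0.le (show (0 : ℝ) < 1 / 2 by norm_num)
  have h3 : (1 + ‖w‖) ^ (-(5 / 2 : ℝ)) = (1 + ‖w‖) ^ (1 / 2 : ℝ) / (1 + ‖w‖) ^ 3 := by
    rw [← Real.rpow_natCast, ← Real.rpow_sub h0]; norm_num
  rw [h3]
  calc Real.log (1 + ‖w‖) * |κ w| ≤ ((1 + ‖w‖) ^ (1 / 2 : ℝ) / (1 / 2)) * (C / (1 + ‖w‖) ^ 3) :=
        mul_le_mul h2 (hC w) (abs_nonneg _) (by positivity)
    _ = _ := by ring

theorem mg2_kle {κ : ℂ → ℝ} {C : ℝ} (hC : ∀ z, |κ z| ≤ C / (1 + ‖z‖) ^ 3) (z : ℂ) :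
    |κ z| ≤ C := by
  have hC0 : 0 ≤ C := by simpa using (abs_nonneg _).trans (hC 0)
  exact (hC z).trans (div_le_self hC0 (one_le_pow₀ (by linarith [norm_nonneg z])))

theorem mg2_hnn (u : ℂ) : 0 ≤ mg2_h u := indicator_nonneg (fun _ _ => abs_nonneg _) _

theorem mg2_pt {κ : ℂ → ℝ} (hκ : Integrable κ) {C : ℝ} (hC : ∀ z, |κ z| ≤ C / (1 + ‖z‖) ^ 3)
    (x : ℂ) : Integrable fun y => Real.log ‖x - y‖ * κ y := by
  have h1 := ((mg2_h_int.comp_sub_left x).mul_const C).add
    ((hκ.abs.const_mul (Real.log (1 + ‖x‖))).add (mg2_logk hκ hC))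
  refine h1.mono' ((Measurable.aestronglyMeasurable (by fun_prop)).mul
    hκ.aestronglyMeasurable) (Eventually.of_forall fun y => ?_)
  rw [Real.norm_eq_abs, abs_mul]
  have h2 := mul_le_mul_of_nonneg_right (mg2_bound x y) (abs_nonneg (κ y))
  have h3 := mul_le_mul_of_nonneg_left (mg2_kle hC y) (mg2_hnn (x - y))
  simp only [Pi.add_apply]
  linarith

theorem mg2_prod {κ : ℂ → ℝ} (hκ : Integrable κ) {C : ℝ} (hC : ∀ z, |κ z| ≤ C / (1 + ‖z‖) ^ 3)
    {ν : Measure ℂ} (hν : FE ν) :
    Integrable (fun p : ℂ × ℂ => Real.log ‖p.1 - p.2‖ * κ p.1) (volume.prod ν) := by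
  have := hν.fin
  obtain ⟨r, hr⟩ := hν.bdd
  have h0 : Integrable (fun y : ℂ => Real.log (1 + ‖y‖)) ν := by
    refine (integrable_const (Real.log (1 + r))).mono'
      (Measurable.aestronglyMeasurable (by fun_prop)) ?_
    have : ∀ᵐ y ∂ν, y ∈ closedBall (0 : ℂ) r := hr
    filter_upwards [this] with y hy
    rw [Real.norm_eq_abs, abs_of_nonneg (mg2_log_nonneg y)]
    rw [mem_closedBall_zero_iff] at hy
    exact Real.log_le_log (by positivity) (by linarith)
  have h1 : Integrable (fun p : ℂ × ℂ => mg2_h (p.1 - p.2)) (volume.prod ν) :=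
    ((measurePreserving_sub_prod volume ν).integrable_comp
      (mg2_h_int.comp_fst ν).aestronglyMeasurable).2 (mg2_h_int.comp_fst ν)
  have h2 := (h1.mul_const C).add (((mg2_logk hκ hC).comp_fst ν).add (hκ.abs.mul_prod h0))
  refine h2.mono' ((Measurable.aestronglyMeasurable (by fun_prop)).mul
    (hκ.comp_fst ν).aestronglyMeasurable) (Eventually.of_forall fun p => ?_)
  rw [Real.norm_eq_abs, abs_mul]
  have h2 := mul_le_mul_of_nonneg_right (mg2_bound p.1 p.2) (abs_nonneg (κ p.1))
  have h3 := mul_le_mul_of_nonneg_left (mg2_kle hC p.1) (mg2_hnn (p.1 - p.2))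
  simp only [Pi.add_apply]
  linarith

theorem mg2_conv (S : Dy) (hS : 0 < side S) (hb : MeasurableSet (box S)) (f : ℂ → ℝ)
    (hf : Integrable f (unif S)) :
    Integrable (fun y => f y * (box S).indicator (fun _ => 1 / side S ^ 2) y) ∧
      ∫ y, f y * (box S).indicator (fun _ => 1 / side S ^ 2) y = ∫ y, f y ∂unif S := by
  have h0 : (0 : ℝ) < 1 / side S ^ 2 := by positivity
  have h1 : (fun y => f y * (box S).indicator (fun _ => 1 / side S ^ 2) y) =
      (box S).indicator fun y => f y * (1 / side S ^ 2) := by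
    ext y
    by_cases h : y ∈ box S <;> simp [h]
  unfold unif at hf ⊢
  rw [integrable_smul_measure (by simpa using hS.ne') ENNReal.ofReal_ne_top] at hf
  rw [h1]
  refine ⟨(integrable_indicator_iff hb).2 (hf.mul_const _), ?_⟩
  rw [integral_indicator hb, integral_smul_measure, ENNReal.toReal_ofReal h0.le, integral_mul_const,
    smul_eq_mul, mul_comm]

theorem blk_MG2 (hMG1 : St_MG1) (hFE : St_FE) (hEXP2 : St_EXP2) (hGEO1 : St_GEO1) : St_MG2 := by
  intro g
  obtain ⟨hκ, hκ1, -, ⟨C, hC⟩, hrep, ⟨C', hC'⟩, -, -⟩ := hMG1 g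
  obtain ⟨hmut, -, -, -, -, -, -, hun, -⟩ := hFE
  obtain ⟨-, -, -, hlog, hkS, -⟩ := hEXP2
  obtain ⟨hside, -, -, hbox, hsub, -⟩ := hGEO1
  set L0 := ∫ y, Real.log ‖y‖ * g.kap y with hL0
  have hconv := fun S => mg2_conv S (hside S).1 (hbox S).1.isClosed.measurableSet
  have hσ0 : ∀ S, ∀ᵐ y ∂unif S, g.σ y = 0 := by
    intro S
    have : ∀ᵐ y ∂unif S, y ∈ box S := (hun S).2
    filter_upwards [this] with y hy
    exact g.flat.self_of_nhdsSet y ((hsub S []).2 List.nil_suffix hy)
  have hpot : ∀ S x, g.pot S x = potS S x - g.σ x / 2 + L0 := by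
    intro S x
    unfold Met.pot Met.dens potS
    simp only [mul_sub]
    rw [integral_sub (hconv S _ (hlog S x)).1 (mg2_pt hκ hC x), (hconv S _ (hlog S x)).2, hrep x,
      integral_neg]
    ring
  have hσκ : Integrable fun y => g.σ y / 2 * g.kap y := by
    have h1 := (hκ.abs.const_mul C').add (mg2_logk hκ hC)
    refine h1.mono' (((g.hσ.continuous.div_const 2).aestronglyMeasurable).mul
      hκ.aestronglyMeasurable) (Eventually.of_forall fun y => ?_)
    rw [Real.norm_eq_abs, abs_mul]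
    simp only [Pi.add_apply]
    rw [← add_mul]
    refine mul_le_mul_of_nonneg_right ?_ (abs_nonneg _)
    have h2 := abs_le.1 (hC' y)
    have h3 := mg2_log_nonneg y
    rw [abs_le]
    constructor <;> linarith
  have hpk : ∀ S, Integrable (fun w => potS S w * g.kap w) ∧ ∫ w, potS S w * g.kap w = -L0 := by
    intro S
    have := (hun S).1.2
    have h1 := mg2_prod hκ hC (hun S).1.1
    have h2 : (fun w => potS S w * g.kap w) =
        fun w => -∫ y, Real.log ‖w - y‖ * g.kap w ∂unif S := by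
      ext w
      unfold potS
      rw [integral_mul_const, integral_neg, neg_mul]
    rw [h2]
    refine ⟨h1.integral_prod_left.neg, ?_⟩
    rw [integral_neg, integral_integral_swap (f := fun w y => Real.log ‖w - y‖ * g.kap w) h1]
    congr 1
    have h3 : ∀ᵐ y ∂unif S, ∫ w, Real.log ‖w - y‖ * g.kap w = L0 := by
      filter_upwards [hσ0 S] with y hy
      simp only [norm_sub_rev _ y]
      rw [hrep y, hy]
      ring
    rw [integral_congr_ae h3]
    simp
  have hpk2 : ∀ S, Integrable (fun w => g.pot S w * g.kap w) ∧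
      ∫ w, g.pot S w * g.kap w = -∫ y, g.σ y / 2 * g.kap y := by
    intro S
    simp only [hpot, add_mul, sub_mul]
    have h0 : Integrable fun w => potS S w * g.kap w - g.σ w / 2 * g.kap w := (hpk S).1.sub hσκ
    refine ⟨h0.add (hκ.const_mul L0), ?_⟩
    rw [integral_add h0 (hκ.const_mul L0), integral_sub (hpk S).1 hσκ, (hpk S).2,
      integral_const_mul, hκ1]
    ring
  refine ⟨fun S S' => ?_, fun S z => ?_⟩
  · have := (hun S').1.2
    have := (hun S).1.2
    have h1 : Integrable (potS S) (unif S') :=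
      (hmut _ _ (hun S').1.1 (hun S).1.1).neg.integral_prod_left
    have h2 : g.pot S =ᵐ[unif S'] fun x => potS S x + L0 := by
      filter_upwards [hσ0 S'] with y hy
      rw [hpot, hy]
      ring
    have h3 : Integrable (g.pot S) (unif S') := (h1.add (integrable_const L0)).congr h2.symm
    unfold Met.cov Met.dens covE Met.C0
    simp only [mul_sub]
    rw [integral_sub (hconv S' _ h3).1 (hpk2 S).1, (hconv S' _ h3).2, (hpk2 S).2,
      integral_congr_ae h2, integral_add h1 (integrable_const L0), (hkS S S').1]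
    simp only [integral_const, probReal_univ, smul_eq_mul, one_mul]
    ring
  · unfold Met.U Met.C0
    rw [(hpk2 S).2, hpot]
    ring

end

end Pool.Agent.Lib.APPS
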