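import Pool.Agent.Lib.APPS.Blue1

/-! Block MG3: a model adapted to a smooth metric. -/

namespace Pool.Agent.Lib.APPS

open MeasureTheory ProbabilityTheory Filter Topology Set Metric
open scoped NNReal ENNReal RealInnerProductSpace

noncomputable section

namespace MG3

def LL (x : ℂ) : ℝ := Real.log (max ‖x‖ 1)

def ff (g : Met) (x : ℂ) : ℝ := -g.σ x / 2 - Real.log (max ‖x‖ 1)

lemma LL_cont : Continuous LL :=
  (continuous_norm.max continuous_const).log fun _ =>
    (lt_of_lt_of_le one_pos (le_max_right _ _)).ne'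

lemma LL_nonneg (x : ℂ) : 0 ≤ LL x := Real.log_nonneg (le_max_right _ _)

lemma LL_le (x : ℂ) : LL x ≤ Real.log (1 + ‖x‖) :=
  Real.log_le_log (lt_of_lt_of_le one_pos (le_max_right _ _))
    (max_le (by linarith) (by linarith [norm_nonneg x]))

lemma ff_cont (g : Met) : Continuous (ff g) :=
  (g.hσ.continuous.neg.div_const 2).sub LL_cont

lemma ae_ball {μ : Measure ℂ} (hμ : FE μ) : ∃ r : ℝ, ∀ᵐ x ∂μ, ‖x‖ ≤ r := by
  obtain ⟨r, hr⟩ := hμ.bdd
  refine ⟨r, ?_⟩
  have : ∀ᵐ x ∂μ, x ∈ closedBall (0 : ℂ) r := hr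
  exact this.mono fun x hx => by simpa using hx

lemma int_cont {μ : Measure ℂ} (hμ : FE μ) {h : ℂ → ℝ} (hh : Continuous h) : Integrable h μ := by
  obtain ⟨r, hr⟩ := hμ.bdd
  have := hμ.fin
  have h1 : μ.restrict (closedBall 0 r) = μ := Measure.restrict_eq_self_of_ae_mem hr
  rw [← h1]
  exact hh.continuousOn.integrableOn_compact (isCompact_closedBall 0 r)

lemma LL_diff : ∀ᵐ x : ℂ, DifferentiableAt ℝ LL x := by
  have h0 : ∀ᵐ x : ℂ, x ∉ sphere (0 : ℂ) 1 :=
    measure_eq_zero_iff_ae_notMem.1 (Measure.addHaar_sphere volume 0 1)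
  filter_upwards [h0] with x hx
  have hx1 : ‖x‖ ≠ 1 := by simpa using hx
  rcases hx1.lt_or_gt with h | h
  · have : LL =ᶠ[𝓝 x] fun _ => 0 := by
      filter_upwards [(isOpen_lt continuous_norm continuous_const).mem_nhds h] with y hy
      simp [LL, max_eq_right (le_of_lt hy)]
    exact (differentiableAt_const _).congr_of_eventuallyEq this
  · have : LL =ᶠ[𝓝 x] fun y => Real.log ‖y‖ := by
      filter_upwards [(isOpen_lt continuous_const continuous_norm).mem_nhds h] with y hy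
      simp [LL, max_eq_left (le_of_lt hy)]
    have hx0 : x ≠ 0 := by
      rintro rfl
      norm_num at h
    refine DifferentiableAt.congr_of_eventuallyEq ?_ this
    exact (differentiableAt_id.norm ℝ hx0).log (norm_ne_zero_iff.2 hx0)

lemma grad_ff (g : Met) :
    ∀ᵐ x : ℂ, gradient (ff g) x = -(1 / 2 : ℝ) • gradient g.σ x - gradient LL x := by
  filter_upwards [LL_diff] with x hx
  have h1 : DifferentiableAt ℝ g.σ x := g.hσ.differentiable (by simp) x
  have h2 : HasFDerivAt (ff g) (-(1 / 2 : ℝ) • fderiv ℝ g.σ x - fderiv ℝ LL x) x := by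
    have := (h1.hasFDerivAt.const_smul (-(1 / 2 : ℝ))).sub hx.hasFDerivAt
    refine this.congr_of_eventuallyEq (Eventually.of_forall fun y => ?_)
    simp only [ff, LL, Pi.sub_apply, Pi.smul_apply, smul_eq_mul]
    ring
  simp only [gradient, h2.fderiv, map_sub, map_smul]

lemma int_grad (hP1 : St_P1) {u φ : ℂ → ℝ} (hu : ContDiff ℝ 2 u) (hφ : LipC φ) :
    Integrable fun x => ⟪gradient u x, gradient φ x⟫ := by
  obtain ⟨⟨K, hK⟩, hc⟩ := hφ
  have hgu : Continuous (gradient u) :=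
    (InnerProductSpace.toDual ℝ ℂ).symm.continuous.comp (hu.continuous_fderiv (by simp))
  have hs : Function.support (fun x => ⟪gradient u x, gradient φ x⟫) ⊆ tsupport φ := by
    intro x hx
    by_contra hn
    apply hx
    have : fderiv ℝ φ x = 0 := by
      by_contra h
      exact hn (support_fderiv_subset ℝ (Function.mem_support.2 h))
    simp [gradient, this]
  rw [← integrableOn_iff_integrable_of_support_subset hs]
  have h1 : IntegrableOn (fun x => ‖gradient u x‖ * K) (tsupport φ) :=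
    (hgu.norm.mul continuous_const).continuousOn.integrableOn_compact hc
  refine h1.mono' ?_ (Eventually.of_forall fun x => ?_)
  · exact (hgu.measurable.inner (hP1.2.2.2.2.2.2.1 φ)).aestronglyMeasurable
  · exact (norm_inner_le_norm _ _).trans
      (mul_le_mul_of_nonneg_left (hP1.2.2.2.2.2.2.2.1 φ K hK x) (norm_nonneg _))

/-- Pairing of the background gradient with a test function. -/
lemma key (h1 : St_MG1) (hP1 : St_P1) (hP2 : St_P2) (g : Met) {φ : ℂ → ℝ} (hφ : LipC φ) :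
    ⟪gr (ff g), gr φ⟫ = ∫ x, φ x ∂circ 0 1 - ∫ x, φ x * g.kap x := by
  obtain ⟨-, -, hk, -, -, -, hf, -⟩ := h1 g
  obtain ⟨hi, he⟩ := hP1.2.2.2.2.1 (ff g) φ hf (hP1.1 φ hφ)
  have hσ2 : ContDiff ℝ 2 g.σ := g.hσ.of_le (WithTop.coe_le_coe.2 (le_top : (2 : ℕ∞) ≤ ⊤))
  have hiσ := int_grad hP1 hσ2 hφ
  have hae : ∀ᵐ x : ℂ, ⟪gradient LL x, gradient φ x⟫ =
      -(1 / 2 : ℝ) * ⟪gradient g.σ x, gradient φ x⟫ - ⟪gradient (ff g) x, gradient φ x⟫ := by
    filter_upwards [grad_ff g] with x hx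
    rw [hx, inner_sub_left, real_inner_smul_left]
    ring
  have hL := hP2.1 0 1 φ one_pos hφ
  simp only [sub_zero] at hL
  change ∫ x, ⟪gradient LL x, gradient φ x⟫ = _ at hL
  rw [integral_congr_ae hae, integral_sub (hiσ.const_mul _) hi, integral_const_mul,
    hP2.2 g.σ φ hσ2 hφ] at hL
  have hkk : ∫ x, φ x * g.kap x =
      -(4 * Real.pi)⁻¹ * ∫ x, φ x * Laplacian.laplacian g.σ x := by
    rw [← integral_const_mul]
    refine integral_congr_ae (Eventually.of_forall fun x => ?_)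
    simp only [hk x]
    ring
  have hpi := Real.pi_pos
  have h3 : ∫ x, ⟪gradient (ff g) x, gradient φ x⟫ =
      1 / 2 * (∫ x, φ x * Laplacian.laplacian g.σ x) + 2 * Real.pi * ∫ x, φ x ∂circ 0 1 := by
    linarith
  rw [he, hkk, h3]
  field_simp
  ring

lemma int_log_kap (h1 : St_MG1) (g : Met) :
    Integrable fun y : ℂ => Real.log (1 + ‖y‖) * |g.kap y| := by
  obtain ⟨hi, -, -, ⟨C, hC⟩, -⟩ := h1 g
  have h0 : Integrable fun y : ℂ => (1 + ‖y‖) ^ (-(5 / 2 : ℝ)) :=
    integrable_one_add_norm (by simp; norm_num)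
  refine (h0.const_mul (2 * C)).mono' ?_ (Eventually.of_forall fun y => ?_)
  · exact ((continuous_const.add continuous_norm).measurable.log.aestronglyMeasurable).mul
      hi.abs.aestronglyMeasurable
  · have hp : 0 < 1 + ‖y‖ := by positivity
    have hl : 0 ≤ Real.log (1 + ‖y‖) := Real.log_nonneg (by linarith [norm_nonneg y])
    have h2 : Real.log (1 + ‖y‖) ≤ (1 + ‖y‖) ^ (1 / 2 : ℝ) / (1 / 2) :=
      Real.log_le_rpow_div hp.le (by norm_num)
    rw [Real.norm_of_nonneg (mul_nonneg hl (abs_nonneg _))]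
    have h3 : (1 + ‖y‖) ^ (-(5 / 2 : ℝ)) = (1 + ‖y‖) ^ (1 / 2 : ℝ) / (1 + ‖y‖) ^ 3 := by
      rw [← Real.rpow_natCast, ← Real.rpow_sub hp]
      norm_num
    calc Real.log (1 + ‖y‖) * |g.kap y|
        ≤ ((1 + ‖y‖) ^ (1 / 2 : ℝ) / (1 / 2)) * (C / (1 + ‖y‖) ^ 3) :=
          mul_le_mul h2 (hC y) (abs_nonneg _) (by positivity)
      _ = 2 * C * (1 + ‖y‖) ^ (-(5 / 2 : ℝ)) := by rw [h3]; ring

lemma int_LL_kap (h1 : St_MG1) (g : Met) : Integrable fun y : ℂ => LL y * g.kap y := by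
  refine (int_log_kap h1 g).mono' (LL_cont.aestronglyMeasurable.mul (h1 g).1.aestronglyMeasurable)
    (Eventually.of_forall fun y => ?_)
  rw [norm_mul, Real.norm_of_nonneg (LL_nonneg y), Real.norm_eq_abs]
  exact mul_le_mul_of_nonneg_right (LL_le y) (abs_nonneg _)

lemma ae_circ (hFE : St_FE) : ∀ᵐ x ∂circ 0 1, ‖x‖ = 1 := by
  have : ∀ᵐ x ∂circ 0 1, x ∈ sphere (0 : ℂ) 1 :=
    (hFE.2.2.2.2.2.2.2.2.1 0 1 one_pos).2.1
  exact this.mono fun x hx => by simpa using hx

/-- The mean of the background over the unit circle. -/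
lemma circ_ff (h1 : St_MG1) (hFE : St_FE) (hE : St_EXP1) (g : Met) :
    ∫ x, ff g x ∂circ 0 1 = (∫ y, LL y * g.kap y) - ∫ y, Real.log ‖y‖ * g.kap y := by
  obtain ⟨hi, -, -, -, hrep, -⟩ := h1 g
  have := (hFE.2.2.2.2.2.2.2.2.1 0 1 one_pos).1.2
  have hc := ae_circ hFE
  have hE1 : ∀ y : ℂ, Integrable (fun x => Real.log ‖x - y‖) (circ 0 1) ∧
      ∫ x, Real.log ‖x - y‖ ∂circ 0 1 = LL y := fun y => by
    have := hE.1 y 0 1 one_pos
    simp only [sub_zero] at this
    simp only [norm_sub_rev _ y]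
    exact this
  have hm : AEStronglyMeasurable (fun p : ℂ × ℂ => Real.log ‖p.1 - p.2‖ * g.kap p.2)
      ((circ 0 1).prod volume) :=
    ((measurable_fst.sub measurable_snd).norm.log.aestronglyMeasurable).mul
      hi.aestronglyMeasurable.comp_snd
  have hint : Integrable (fun p : ℂ × ℂ => Real.log ‖p.1 - p.2‖ * g.kap p.2)
      ((circ 0 1).prod volume) := by
    rw [integrable_prod_iff' hm]
    refine ⟨Eventually.of_forall fun y => (hE1 y).1.mul_const (g.kap y), ?_⟩
    refine ((int_log_kap h1 g).const_mul 2).mono' hm.norm.prod_swap.integral_prod_right'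
      (Eventually.of_forall fun y => ?_)
    rw [Real.norm_of_nonneg (integral_nonneg fun x => norm_nonneg _)]
    simp only [norm_mul, integral_mul_const, Real.norm_eq_abs]
    rw [← mul_assoc]
    refine mul_le_mul_of_nonneg_right ?_ (abs_nonneg _)
    have hl : 0 ≤ Real.log (1 + ‖y‖) := Real.log_nonneg (by linarith [norm_nonneg y])
    calc ∫ x, |Real.log ‖x - y‖| ∂circ 0 1
        ≤ ∫ x, (2 * Real.log (1 + ‖y‖) - Real.log ‖x - y‖) ∂circ 0 1 := by
          refine integral_mono_ae (hE1 y).1.abs ((integrable_const _).sub (hE1 y).1) ?_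
          filter_upwards [hc] with x hx
          have h2 : Real.log ‖x - y‖ ≤ Real.log (1 + ‖y‖) := by
            rcases (norm_nonneg (x - y)).eq_or_lt with h | h
            · rw [← h, Real.log_zero]; exact hl
            · exact Real.log_le_log h (by rw [← hx]; exact norm_sub_le _ _)
          rw [abs_le]
          constructor <;> linarith
      _ = 2 * Real.log (1 + ‖y‖) - LL y := by
          rw [integral_sub (integrable_const _) (hE1 y).1, (hE1 y).2]
          simp
      _ ≤ _ := by linarith [LL_nonneg y]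
  have h2 : ∫ x, ff g x ∂circ 0 1 =
      ∫ x, ((∫ y, Real.log ‖x - y‖ * g.kap y) - ∫ y, Real.log ‖y‖ * g.kap y) ∂circ 0 1 := by
    refine integral_congr_ae ?_
    filter_upwards [hc] with x hx
    rw [hrep x]
    simp [ff, hx]
  rw [h2, integral_sub hint.integral_prod_left (integrable_const _),
    integral_integral_swap (f := fun x y => Real.log ‖x - y‖ * g.kap y) hint]
  simp only [integral_mul_const, fun y => (hE1 y).2]
  simp

lemma cut_int {μ : Measure ℂ} (hμ : FE μ) {φ : ℕ → ℂ → ℝ} {f : ℂ → ℝ} {c : ℝ}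
    (hf : Continuous f) (hφ : ∀ (n : ℕ) x, ‖x‖ ≤ n → φ n x = f x - c) :
    Tendsto (fun n => ∫ x, φ n x ∂μ) atTop (𝓝 (∫ x, f x ∂μ - μ.real univ * c)) := by
  obtain ⟨r, hr⟩ := ae_ball hμ
  have := hμ.fin
  refine tendsto_const_nhds.congr' ?_
  filter_upwards [tendsto_natCast_atTop_atTop.eventually_ge_atTop r] with n hn
  have : ∫ x, φ n x ∂μ = ∫ x, (f x - c) ∂μ :=
    integral_congr_ae (hr.mono fun x hx => hφ n x (hx.trans hn))
  rw [this, integral_sub (int_cont hμ hf) (integrable_const _)]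
  simp

/-- The norm of the background gradient. -/
lemma norm_b (h1 : St_MG1) (hP1 : St_P1) (hP2 : St_P2) (hFE : St_FE) (hE : St_EXP1) (g : Met) :
    ⟪gr (ff g), gr (ff g)⟫ = g.C0 + 2 * ∫ x, ff g x ∂circ 0 1 := by
  obtain ⟨hi, hone, -, -, -, -, hf, C, hC⟩ := h1 g
  obtain ⟨φ, hφ, hφ1, hφ2, hφ3⟩ := hP1.2.2.2.2.2.2.2.2.1 (ff g) (-g.τ 0 / 2) C hf hC
  obtain ⟨hcirc, hpr⟩ := (hFE.2.2.2.2.2.2.2.2.1 0 1 one_pos).1
  set c := -g.τ 0 / 2
  have hb : ∀ x, |ff g x - c| ≤ C := fun x => by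
    have h0 : 0 ≤ C / (1 + ‖x‖) := (abs_nonneg _).trans (hC x)
    have hp : 0 < 1 + ‖x‖ := by positivity
    have hC0 : 0 ≤ C := by
      by_contra h
      exact absurd h0 (not_le.2 (div_neg_of_neg_of_pos (not_le.1 h) hp))
    exact (hC x).trans (div_le_self hC0 (by linarith [norm_nonneg x]))
  have t1 : Tendsto (fun n => ⟪gr (ff g), gr (φ n)⟫) atTop (𝓝 ⟪gr (ff g), gr (ff g)⟫) :=
    tendsto_const_nhds.inner hφ3
  have t2 := cut_int hcirc (ff_cont g) hφ1
  have t3 : Tendsto (fun n => ∫ x, φ n x * g.kap x) atTop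
      (𝓝 (∫ x, (ff g x - c) * g.kap x)) := by
    refine tendsto_integral_of_dominated_convergence (fun x => C * |g.kap x|) (fun n => ?_)
      (hi.abs.const_mul C) (fun n => Eventually.of_forall fun x => ?_)
      (Eventually.of_forall fun x => ?_)
    · obtain ⟨K, hK⟩ := (hφ n).1
      exact hK.continuous.aestronglyMeasurable.mul hi.aestronglyMeasurable
    · rw [norm_mul, Real.norm_eq_abs, Real.norm_eq_abs]
      exact mul_le_mul_of_nonneg_right ((hφ2 n x).trans (hb x)) (abs_nonneg _)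
    · refine tendsto_const_nhds.congr' ?_
      filter_upwards [tendsto_natCast_atTop_atTop.eventually_ge_atTop ‖x‖] with n hn
      rw [hφ1 n x hn]
  have t4 := t2.sub t3
  simp only [← key h1 hP1 hP2 g (hφ _)] at t4
  have e1 := tendsto_nhds_unique t1 t4
  have i1 : Integrable fun x => (ff g x - c) * g.kap x :=
    (hi.abs.const_mul C).mono'
      (((ff_cont g).sub continuous_const).aestronglyMeasurable.mul hi.aestronglyMeasurable)
      (Eventually.of_forall fun x => by
        rw [norm_mul, Real.norm_eq_abs, Real.norm_eq_abs]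
        exact mul_le_mul_of_nonneg_right (hb x) (abs_nonneg _))
  have i2 := int_LL_kap h1 g
  have e2 : ∫ y, g.σ y / 2 * g.kap y =
      -(∫ x, (ff g x - c) * g.kap x) - (∫ y, LL y * g.kap y) - c := by
    have : ∀ y, g.σ y / 2 * g.kap y = -((ff g y - c) * g.kap y) - LL y * g.kap y - c * g.kap y := by
      intro y
      simp only [ff, LL]
      ring
    simp only [this]
    have j1 : Integrable fun y => -((ff g y - c) * g.kap y) := i1.neg
    have j2 : Integrable fun y => -((ff g y - c) * g.kap y) - LL y * g.kap y := j1.sub i2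
    rw [integral_sub j2 (hi.const_mul c), integral_sub j1 i2, integral_neg,
      integral_const_mul, hone, mul_one]
  have e3 := circ_ff h1 hFE hE g
  rw [e1, Met.C0, e2]
  simp only [probReal_univ]
  linarith

end MG3

open MG3 in
theorem blk_MG3 (hMG1 : St_MG1) (hMG2 : St_MG2) (hM0 : St_M0) (hMOD : St_MOD) (hP1 : St_P1)
    (hP2 : St_P2) (hFE : St_FE) (hEXP1 : St_EXP1) : St_MG3 := by
  intro g
  obtain ⟨M00⟩ := hM0
  obtain ⟨M, -, hC0, hbg, he⟩ := (hMOD M00).2.2.1 0 1 one_pos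
  obtain ⟨hcirc, hpr⟩ := (hFE.2.2.2.2.2.2.2.2.1 0 1 one_pos).1
  have hbg' : ∀ x, M.bg x = -LL x := fun x => by simp [hbg, LL]
  have hz : M.e (circ 0 1) = 0 := by simp [he, Model.eC]
  have hφ0 : ∀ μ φ, FE μ → LipC φ →
      ⟪M.e μ, gr φ⟫ = ∫ x, φ x ∂μ - μ.real univ * ∫ x, φ x ∂circ 0 1 := by
    intro μ φ hμ hφ
    have := hμ.fin
    have h2 := (hMOD M).2.1 (μ.real univ) (circ 0 1) measureReal_nonneg hcirc
    have h3 := M.ezg μ (ENNReal.ofReal (μ.real univ) • circ 0 1) φ hμ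
      (hFE.2.2.1 _ _ ENNReal.ofReal_ne_top hcirc) (by simp) hφ
    rw [h2, hz, smul_zero, sub_zero, integral_smul_measure,
      ENNReal.toReal_ofReal measureReal_nonneg, smul_eq_mul] at h3
    exact h3
  obtain ⟨-, -, hk, -, -, hgrow, hf, C, hC⟩ := hMG1 g
  have hb0 : ∀ μ, FE μ → ⟪M.e μ, gr (ff g)⟫ =
      ∫ x, ff g x ∂μ - μ.real univ * ∫ x, ff g x ∂circ 0 1 := by
    intro μ hμ
    obtain ⟨φ, hφ, hφ1, -, hφ3⟩ := hP1.2.2.2.2.2.2.2.2.1 (ff g) (-g.τ 0 / 2) C hf hC
    have t1 : Tendsto (fun n => ⟪M.e μ, gr (φ n)⟫) atTop (𝓝 ⟪M.e μ, gr (ff g)⟫) :=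
      tendsto_const_nhds.inner hφ3
    have t2 := (cut_int hμ (ff_cont g) hφ1).sub
      ((cut_int hcirc (ff_cont g) hφ1).const_mul (μ.real univ))
    simp only [← hφ0 μ _ hμ (hφ _)] at t2
    rw [tendsto_nhds_unique t1 t2]
    simp only [probReal_univ]
    ring
  have hsum : ∀ μ, FE μ → ∫ x, ff g x ∂μ = ∫ x, M.bg x ∂μ - ∫ x, g.σ x / 2 ∂μ := by
    intro μ hμ
    rw [← integral_sub (int_cont hμ M.bgc) (int_cont hμ (g.hσ.continuous.div_const 2))]
    refine integral_congr_ae (Eventually.of_forall fun x => ?_)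
    simp only [hbg', ff, LL]
    ring
  have hdiff : ∀ μ ν : Measure ℂ, μ univ = ν univ →
      (M.e μ + μ.real univ • gr (ff g)) - (M.e ν + ν.real univ • gr (ff g)) = M.e μ - M.e ν := by
    intro μ ν h
    have : μ.real univ = ν.real univ := by simp only [Measure.real, h]
    rw [this]
    abel
  refine ⟨{ O := interior {z | g.σ z = 0}
            hO := isOpen_interior
            C0 := g.C0
            bg := fun z => g.σ z / 2
            bgc := g.hσ.continuous.div_const 2
            bg0 := fun x hx => by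
              have : g.σ x = 0 := interior_subset (s := {z | g.σ z = 0}) hx
              simp [this]
            e := fun μ => M.e μ + μ.real univ • gr (ff g)
            ee := ?_
            eg := ?_
            ezc := fun μ ν hμ hν h => by rw [hdiff μ ν h]; exact M.ezc μ ν hμ hν h
            ezg := fun μ ν φ hμ hν h hφ => by rw [hdiff μ ν h]; exact M.ezg μ ν φ hμ hν h hφ },
    ⟨subset_interior_iff_mem_nhdsSet.2 g.flat, (hMG2 g).1, (hMG2 g).2, fun _ => rfl, hgrow⟩⟩
  · intro μ ν hμ hν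
    rw [inner_add_left, inner_add_right, inner_add_right, real_inner_smul_right,
      real_inner_smul_left, real_inner_smul_left, real_inner_smul_right,
      real_inner_comm (M.e ν) (gr (ff g)), hb0 μ hμ, hb0 ν hν, norm_b hMG1 hP1 hP2 hFE hEXP1 g,
      M.ee μ ν hμ hν, hsum μ hμ, hsum ν hν, hC0, Real.log_one]
    ring
  · intro μ φ hμ hφ hs
    have h0 : ∀ x, φ x * g.kap x = 0 := by
      intro x
      by_cases hx : x ∈ tsupport φ
      · have h1 : g.σ =ᶠ[𝓝 x] fun _ => 0 := mem_interior_iff_mem_nhds.1 (hs hx)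
        have h2 := (InnerProductSpace.laplacian_congr_nhds h1).eq_of_nhds
        rw [hk x, h2]
        simp
      · rw [image_eq_zero_of_notMem_tsupport hx, zero_mul]
    rw [inner_add_left, real_inner_smul_left, key hMG1 hP1 hP2 g hφ, hφ0 μ φ hμ hφ]
    simp [h0]

end

end Pool.Agent.Lib.APPS
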