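import Pool.Agent.Lib.APPS.Blue1

/-!
Block MOD: elementary consequences of the axioms of a model.
-/

namespace Pool.Agent.Lib.APPS

open MeasureTheory ProbabilityTheory Filter Topology Set Metric
open scoped NNReal ENNReal CompactlySupported BoundedContinuousFunction RealInnerProductSpace
  Classical

noncomputable section

namespace MOD

theorem integ_cont {μ : Measure ℂ} (h : FE μ) {f : ℂ → ℝ} (hf : Continuous f) :
    Integrable f μ := by
  have := h.fin
  obtain ⟨r, hr⟩ := h.bdd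
  have h1 : μ.restrict (closedBall 0 r) = μ := Measure.restrict_eq_self_of_ae_mem hr
  rw [← h1]
  exact hf.continuousOn.integrableOn_compact (isCompact_closedBall 0 r)

theorem integ_const {μ : Measure ℂ} {s : Set ℂ} (hs : μ sᶜ = 0) {f : ℂ → ℝ} {a : ℝ}
    (hf : ∀ x ∈ s, f x = a) : ∫ x, f x ∂μ = μ.real univ * a := by
  have : f =ᵐ[μ] fun _ => a := by
    have h : ∀ᵐ x ∂μ, x ∈ s := hs
    filter_upwards [h] with x hx using hf x hx
  rw [integral_congr_ae this, integral_const, smul_eq_mul]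

theorem null_mono {μ : Measure ℂ} {s t : Set ℂ} (hs : μ sᶜ = 0) (h : s ⊆ t) : μ tᶜ = 0 :=
  measure_mono_null (compl_subset_compl.2 h) hs

theorem real_one {μ : Measure ℂ} (h : PFE μ) : μ.real univ = 1 := by
  have := h.2
  exact probReal_univ

theorem e_add (hFE : St_FE) (M : Model) (μ ν : Measure ℂ) (hμ : FE μ) (hν : FE ν) :
    M.e (μ + ν) = M.e μ + M.e ν := by
  obtain ⟨-, h2, -, -, -, h6, -⟩ := hFE
  have hs := h2 μ ν hμ hν
  have := hμ.fin
  have := hν.fin
  have key : ∀ ρ, FE ρ → ⟪M.e (μ + ν) - (M.e μ + M.e ν), M.e ρ⟫ = 0 := by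
    intro ρ hρ
    rw [inner_sub_left, inner_add_left, M.ee _ _ hs hρ, M.ee _ _ hμ hρ, M.ee _ _ hν hρ,
      h6 μ ν ρ hμ hν hρ, integral_add_measure (integ_cont hμ M.bgc) (integ_cont hν M.bgc),
      measureReal_add_apply]
    ring
  have : ⟪M.e (μ + ν) - (M.e μ + M.e ν), M.e (μ + ν) - (M.e μ + M.e ν)⟫ = 0 := by
    rw [inner_sub_right, inner_add_right, key _ hs, key _ hμ, key _ hν]
    ring
  exact sub_eq_zero.1 (inner_self_eq_zero.1 this)

theorem e_smul (hFE : St_FE) (M : Model) (t : ℝ) (μ : Measure ℂ) (ht : 0 ≤ t) (hμ : FE μ) :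
    M.e (ENNReal.ofReal t • μ) = t • M.e μ := by
  obtain ⟨-, -, h3, -, -, -, h7, -⟩ := hFE
  have hs := h3 (ENNReal.ofReal t) μ ENNReal.ofReal_ne_top hμ
  have key : ∀ ρ, FE ρ → ⟪M.e (ENNReal.ofReal t • μ) - t • M.e μ, M.e ρ⟫ = 0 := by
    intro ρ hρ
    rw [inner_sub_left, real_inner_smul_left, M.ee _ _ hs hρ, M.ee _ _ hμ hρ,
      h7 t μ ρ ht hμ hρ, integral_smul_measure, measureReal_ennreal_smul_apply,
      ENNReal.toReal_ofReal ht, smul_eq_mul]
    ring
  have : ⟪M.e (ENNReal.ofReal t • μ) - t • M.e μ, M.e (ENNReal.ofReal t • μ) - t • M.e μ⟫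
      = 0 := by
    rw [inner_sub_right, real_inner_smul_right, key _ hs, key _ hμ]
    ring
  exact sub_eq_zero.1 (inner_self_eq_zero.1 this)

theorem e_sum (hFE : St_FE) (M : Model) {ι : Type} (s : Finset ι) (t : ι → ℝ)
    (μ : ι → Measure ℂ) (ht : ∀ i, 0 ≤ t i) (hμ : ∀ i, FE (μ i)) :
    FE (∑ i ∈ s, ENNReal.ofReal (t i) • μ i) ∧
      M.e (∑ i ∈ s, ENNReal.ofReal (t i) • μ i) = ∑ i ∈ s, t i • M.e (μ i) := by
  induction s using Finset.induction_on with
  | empty =>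
    simp only [Finset.sum_empty]
    refine ⟨hFE.2.2.2.1, ?_⟩
    have := e_smul hFE M 0 0 le_rfl hFE.2.2.2.1
    simpa using this
  | insert a s ha ih =>
    rw [Finset.sum_insert ha, Finset.sum_insert ha]
    have h1 := hFE.2.2.1 (ENNReal.ofReal (t a)) (μ a) ENNReal.ofReal_ne_top (hμ a)
    refine ⟨hFE.2.1 _ _ h1 ih.1, ?_⟩
    rw [e_add hFE M _ _ h1 ih.1, ih.2, e_smul hFE M _ _ (ht a) (hμ a)]

theorem pfe_circ (hFE : St_FE) (c : ℂ) {r : ℝ} (hr : 0 < r) : PFE (circ c r) :=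
  (hFE.2.2.2.2.2.2.2.2.1 c r hr).1

theorem circ_supp (hFE : St_FE) (c : ℂ) {r : ℝ} (hr : 0 < r) : circ c r (sphere c r)ᶜ = 0 :=
  (hFE.2.2.2.2.2.2.2.2.1 c r hr).2.1

theorem circ_supp' (hFE : St_FE) (c : ℂ) {r : ℝ} (hr : 0 < r) :
    circ c r (closedBall c r)ᶜ = 0 :=
  null_mono (circ_supp hFE c hr) sphere_subset_closedBall

theorem pfe_unif (hFE : St_FE) (S : Dy) : PFE (unif S) := (hFE.2.2.2.2.2.2.2.1 S).1

theorem unif_supp (hFE : St_FE) (S : Dy) : unif S (box S)ᶜ = 0 := (hFE.2.2.2.2.2.2.2.1 S).2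

theorem Ie_symm (hFE : St_FE) {μ ν : Measure ℂ} (hμ : FE μ) (hν : FE ν) : Ie μ ν = Ie ν μ :=
  (hFE.2.2.2.2.1 μ ν hμ hν).1

theorem Ie_circ (hFE : St_FE) (hE1 : St_EXP1) (c : ℂ) {r : ℝ} (hr : 0 < r) {μ : Measure ℂ}
    (hμ : FE μ) : Ie (circ c r) μ = -∫ y, Real.log (max ‖y - c‖ r) ∂μ := by
  have hc := (pfe_circ hFE c hr).1
  rw [Ie_symm hFE hc hμ, (hFE.2.2.2.2.1 μ _ hμ hc).2, ← integral_neg]
  refine integral_congr_ae (Eventually.of_forall fun x => ?_)
  simp only
  rw [integral_neg, (hE1.1 x c r hr).2]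

theorem Ie_circ_in (hFE : St_FE) (hE1 : St_EXP1) (c : ℂ) {r : ℝ} (hr : 0 < r) {μ : Measure ℂ}
    (hμ : PFE μ) (hs : μ (closedBall c r)ᶜ = 0) : Ie (circ c r) μ = -Real.log r := by
  rw [Ie_circ hFE hE1 c hr hμ.1, integ_const hs (a := Real.log r), real_one hμ, one_mul]
  intro x hx
  rw [mem_closedBall, dist_eq_norm] at hx
  rw [max_eq_right hx]

theorem bg_cont (c : ℂ) (r : ℝ) :
    Continuous fun x : ℂ => -Real.log (max (‖x - c‖ / r) 1) := by
  refine Continuous.neg (Continuous.log (by fun_prop) fun x => ?_)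
  exact (lt_of_lt_of_le one_pos (le_max_right _ _)).ne'

theorem Ie_circ_bg (hFE : St_FE) (hE1 : St_EXP1) (c : ℂ) {r : ℝ} (hr : 0 < r) {μ : Measure ℂ}
    (hμ : FE μ) : Ie (circ c r) μ =
      -(μ.real univ * Real.log r) + ∫ y, -Real.log (max (‖y - c‖ / r) 1) ∂μ := by
  have := hμ.fin
  rw [Ie_circ hFE hE1 c hr hμ, ← integral_neg]
  have h1 : ∀ y : ℂ, -Real.log (max ‖y - c‖ r) =
      -Real.log r + -Real.log (max (‖y - c‖ / r) 1) := by
    intro y
    have h2 : max ‖y - c‖ r = r * max (‖y - c‖ / r) 1 := by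
      rw [mul_max_of_nonneg _ _ hr.le, mul_one, mul_div_cancel₀ _ hr.ne']
    rw [h2, Real.log_mul hr.ne' (lt_of_lt_of_le one_pos (le_max_right _ _)).ne']
    ring
  simp_rw [h1]
  rw [integral_add (integrable_const _) (integ_cont hμ (bg_cont c r)), integral_const,
    smul_eq_mul]
  ring

/-- The model recentred at the circle of centre `c` and radius `r`. -/
def recentre (hFE : St_FE) (hE1 : St_EXP1) (M : Model) (c : ℂ) {r : ℝ} (hr : 0 < r) : Model where
  O := ball c r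
  hO := isOpen_ball
  C0 := Real.log r
  bg := fun x => -Real.log (max (‖x - c‖ / r) 1)
  bgc := bg_cont c r
  bg0 := by
    intro x hx
    rw [mem_ball, dist_eq_norm] at hx
    rw [max_eq_right ((div_le_one hr).2 hx.le), Real.log_one, neg_zero]
  e := fun μ => M.e μ - μ.real univ • M.eC c r
  ee := by
    intro μ ν hμ hν
    have hc := pfe_circ hFE c hr
    have h1 := Ie_circ_bg hFE hE1 c hr hμ
    have h2 := Ie_circ_bg hFE hE1 c hr hν
    have h3 := Ie_circ_in hFE hE1 c hr hc (circ_supp' hFE c hr)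
    unfold Model.eC
    rw [inner_sub_left, inner_sub_right, inner_sub_right, real_inner_smul_left,
      real_inner_smul_left, real_inner_smul_right, real_inner_smul_right,
      M.ee _ _ hμ hν, M.ee _ _ hμ hc.1, M.ee _ _ hc.1 hν, M.ee _ _ hc.1 hc.1,
      Ie_symm hFE hμ hc.1, h1, h2, h3, real_one hc]
    ring
  eg := by
    intro μ φ hμ hφ hs
    have := hμ.fin
    have hc := pfe_circ hFE c hr
    have := hc.2
    have hm : 0 ≤ μ.real univ := measureReal_nonneg
    have hν := hFE.2.2.1 (ENNReal.ofReal (μ.real univ)) _ ENNReal.ofReal_ne_top hc.1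
    have hmass : μ univ = (ENNReal.ofReal (μ.real univ) • circ c r) univ := by
      rw [Measure.smul_apply, measure_univ (μ := circ c r), smul_eq_mul, mul_one,
        ofReal_measureReal]
    have h := M.ezg μ _ φ hμ hν hmass hφ
    rw [e_smul hFE M _ _ hm hc.1, integral_smul_measure,
      integ_const (circ_supp hFE c hr) (a := 0)] at h
    · unfold Model.eC
      rw [h]
      simp
    · intro x hx
      by_contra hne
      have := hs (subset_tsupport φ hne)
      rw [mem_ball] at this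
      rw [mem_sphere] at hx
      exact this.ne hx
  ezc := by
    intro μ ν hμ hν h
    have h' : μ.real univ = ν.real univ := by simp only [Measure.real, h]
    have := M.ezc μ ν hμ hν h
    rw [h', sub_sub_sub_cancel_right]
    exact this
  ezg := by
    intro μ ν φ hμ hν h hφ
    have h' : μ.real univ = ν.real univ := by simp only [Measure.real, h]
    have := M.ezg μ ν φ hμ hν h hφ
    rw [h', sub_sub_sub_cancel_right]
    exact this

theorem bg_zero (M : Model) {μ : Measure ℂ} (h : μ M.Oᶜ = 0) : ∫ x, M.bg x ∂μ = 0 := by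
  rw [integ_const h M.bg0, mul_zero]

theorem i4 (M : Model) (μ ν : Measure ℂ) (hμ : PFE μ) (hν : PFE ν) (h1 : μ M.Oᶜ = 0)
    (h2 : ν M.Oᶜ = 0) : ⟪M.e μ, M.e ν⟫ = M.C0 + Ie μ ν := by
  rw [M.ee _ _ hμ.1 hν.1, bg_zero M h1, bg_zero M h2, real_one hμ, real_one hν]
  ring

theorem i5 (M : Model) (μ μ' ν ν' : Measure ℂ) (hμ : PFE μ) (hμ' : PFE μ') (hν : PFE ν)
    (hν' : PFE ν') :
    ⟪M.e μ - M.e μ', M.e ν - M.e ν'⟫ = Ie μ ν - Ie μ ν' - Ie μ' ν + Ie μ' ν' := by
  rw [inner_sub_left, inner_sub_right, inner_sub_right, M.ee _ _ hμ.1 hν.1, M.ee _ _ hμ.1 hν'.1,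
    M.ee _ _ hμ'.1 hν.1, M.ee _ _ hμ'.1 hν'.1, real_one hμ, real_one hν, real_one hμ',
    real_one hν']
  ring

theorem i6 (M : Model) (μ μ' ν : Measure ℂ) (hμ : PFE μ) (hμ' : PFE μ') (hν : PFE ν)
    (h1 : μ M.Oᶜ = 0) (h2 : μ' M.Oᶜ = 0) : ⟪M.e μ - M.e μ', M.e ν⟫ = Ie μ ν - Ie μ' ν := by
  rw [inner_sub_left, M.ee _ _ hμ.1 hν.1, M.ee _ _ hμ'.1 hν.1, real_one hμ, real_one hν,
    real_one hμ', bg_zero M h1, bg_zero M h2]
  ring

theorem box_app (hG1 : St_GEO1) (S T : Dy) : box (S ++ T) ⊆ box T :=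
  (hG1.2.2.2.2.1 _ _).2 (List.suffix_append S T)

theorem i9 (hFE : St_FE) (hE1 : St_EXP1) (M : Model) (c : ℂ) (r : ℝ) (μ ν : Measure ℂ)
    (hr : 0 < r) (hμ : PFE μ) (hν : PFE ν) (h1 : μ (closedBall c r)ᶜ = 0)
    (h2 : ν (closedBall c r)ᶜ = 0) :
    ⟪M.e μ - M.eC c r, M.e ν - M.eC c r⟫ = Real.log r + Ie μ ν := by
  have hc := pfe_circ hFE c hr
  unfold Model.eC
  rw [i5 M _ _ _ _ hμ hc hν hc, Ie_symm hFE hμ.1 hc.1, Ie_circ_in hFE hE1 c hr hμ h1,
    Ie_circ_in hFE hE1 c hr hν h2, Ie_circ_in hFE hE1 c hr hc (circ_supp' hFE c hr)]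
  ring

theorem i12 (hFE : St_FE) (hE1 : St_EXP1) (hE2 : St_EXP2) (hG1 : St_GEO1) (M : Model) (c : ℂ)
    (r : ℝ) (T : Dy) (hr : 0 < r) (hT : box T ⊆ closedBall c r) :
    Gram (fun S => M.eS (S ++ T) - M.eC c r) (covE (Real.log r + T.length * l2)) := by
  intro S S'
  have h := i9 hFE hE1 M c r _ _ hr (pfe_unif hFE (S ++ T)) (pfe_unif hFE (S' ++ T))
    (null_mono (unif_supp hFE _) ((box_app hG1 S T).trans hT))
    (null_mono (unif_supp hFE _) ((box_app hG1 S' T).trans hT))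
  have h2 := hE2.2.1 S S' T
  unfold kS at h2
  simp only [Model.eS, covE, kS]
  rw [h, h2]
  ring

theorem i15 (hG1 : St_GEO1) (M : Model) (h : box [] ⊆ M.O) : ∃ i0, ∀ i ≥ i0, M.Ok i := by
  obtain ⟨δ, hδ, hsub⟩ := (hG1.2.2.2.1 []).1.exists_cthickening_subset_open M.hO h
  obtain ⟨n, hn⟩ := exists_pow_lt_of_lt_one hδ (by norm_num : (1 / 2 : ℝ) < 1)
  have hl : 0 < l2 := Real.log_pos one_lt_two
  obtain ⟨m, hm⟩ := exists_nat_ge ((1 - M.C0) / l2)
  refine ⟨max n m, fun i hi => ⟨fun z hz => ?_, ?_⟩⟩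
  · have h1 : (1 / 2 : ℝ) ^ i ≤ δ :=
      (pow_le_pow_of_le_one (by norm_num) (by norm_num) ((le_max_left _ _).trans hi)).trans hn.le
    exact ((closedBall_subset_closedBall h1).trans (closedBall_subset_cthickening hz δ)).trans hsub
  · have h1 : (m : ℝ) ≤ i := by exact_mod_cast (le_max_right _ _).trans hi
    rw [div_le_iff₀ hl] at hm
    nlinarith

theorem i16 (hG1 : St_GEO1) (M : Model) (h : box [] ⊆ M.O) : ∃ φ, IsPsi M φ := by
  have hK := (hG1.2.2.2.1 []).1
  have hne : (box []).Nonempty := ⟨_, (hG1.2.2.2.1 []).2.2.1⟩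
  obtain ⟨δ, hδ, hsub⟩ := hK.exists_cthickening_subset_open M.hO h
  let φ : ℂ → ℝ := fun z => max 0 (min 1 (2 - (2 / δ) * infDist z (box [])))
  have hts : tsupport φ ⊆ cthickening δ (box []) := by
    refine closure_minimal (fun z hz => ?_) isClosed_cthickening
    have h1 : 0 < 2 - (2 / δ) * infDist z (box []) := by
      by_contra hn
      apply hz
      exact max_eq_left ((min_le_right _ _).trans (not_lt.1 hn))
    have h2 : infDist z (box []) < δ := by
      have h3 : (2 / δ) * infDist z (box []) < (2 / δ) * δ := by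
        rw [div_mul_cancel₀ _ hδ.ne']
        linarith
      exact lt_of_mul_lt_mul_left h3 (by positivity)
    exact thickening_subset_cthickening _ _ ((mem_thickening_iff_infDist_lt hne).2 h2)
  refine ⟨φ, ⟨⟨(2 / δ).toNNReal, ?_⟩, ?_⟩, hts.trans hsub, ?_, fun z => ⟨le_max_left _ _, ?_⟩⟩
  · refine LipschitzWith.const_max (LipschitzWith.const_min ?_ _) _
    refine LipschitzWith.of_dist_le_mul fun x y => ?_
    have h1 := (lipschitz_infDist_pt (box [])).dist_le_mul x y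
    rw [Real.dist_eq] at h1 ⊢
    rw [Real.coe_toNNReal _ (by positivity)]
    have h2 : 2 - 2 / δ * infDist x (box []) - (2 - 2 / δ * infDist y (box [])) =
        -(2 / δ) * (infDist x (box []) - infDist y (box [])) := by ring
    rw [h2, abs_mul, abs_neg, abs_of_pos (by positivity : 0 < 2 / δ)]
    rw [NNReal.coe_one, one_mul] at h1
    exact mul_le_mul_of_nonneg_left h1 (by positivity)
  · exact (hK.cthickening (r := δ)).of_isClosed_subset (isClosed_tsupport φ) hts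
  · have hnb : thickening (δ / 2) (box []) ∈ 𝓝ˢ (box []) :=
      isOpen_thickening.mem_nhdsSet.2 (self_subset_thickening (by positivity) _)
    filter_upwards [hnb] with z hz
    rw [mem_thickening_iff_infDist_lt hne] at hz
    have h1 : (2 / δ) * infDist z (box []) ≤ (2 / δ) * (δ / 2) :=
      mul_le_mul_of_nonneg_left hz.le (by positivity)
    have h2 : (2 / δ) * (δ / 2) = 1 := by field_simp
    have h3 : min 1 (2 - (2 / δ) * infDist z (box [])) = 1 := min_eq_left (by linarith)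
    show max 0 (min 1 (2 - (2 / δ) * infDist z (box []))) = 1
    rw [h3]
    exact max_eq_right zero_le_one
  · exact max_le zero_le_one (min_le_left _ _)

theorem i17 (hFE : St_FE) (hG1 : St_GEO1) (M : Model) (φ : ℂ → ℝ) (hφ : IsPsi M φ) (S : Dy) :
    ⟪gr φ, M.eS S⟫ = 1 := by
  have hu := pfe_unif hFE S
  unfold Model.eS
  rw [real_inner_comm, M.eg _ φ hu.1 hφ.1 hφ.2.1,
    integ_const (unif_supp hFE S) (a := 1), real_one hu, one_mul]
  intro x hx
  have h1 : x ∈ box [] := (hG1.2.2.2.2.1 S []).2 List.nil_suffix hx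
  exact hφ.2.2.1.self_of_nhdsSet x h1

theorem i18 (hFE : St_FE) (hE1 : St_EXP1) (hE2 : St_EXP2) (hG1 : St_GEO1) (hG : St_G1)
    (M : Model) (C : ℝ) (hC : 0 ≤ C) :
    Gram (gvec (covE C)) (covE C) ∧ IsProbabilityMeasure (ex C) := by
  constructor
  · have hb : box [] ⊆ closedBall (ctr []) (Real.exp C) := by
      intro y hy
      have h1 := (hG1.2.2.2.1 []).2.2.2.1 y hy
      have h2 := (hG1.1 []).2
      have h3 := Real.one_le_exp hC
      rw [mem_closedBall, dist_eq_norm]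
      linarith
    have h := i12 hFE hE1 hE2 hG1 M _ _ [] (Real.exp_pos C) hb
    simp only [Real.log_exp, List.length_nil, Nat.cast_zero, zero_mul, add_zero] at h
    exact Classical.epsilon_spec (p := fun v => Gram v (covE C)) ⟨_, h⟩
  · have : IsProbabilityMeasure gm := hG.1
    unfold ex gl
    exact Measure.isProbabilityMeasure_map
      (measurable_pi_lambda _ fun S => meas_ev _).aemeasurable

end MOD

open MOD in
theorem blk_MOD (_hP1 : St_P1) (hFE : St_FE) (hE1 : St_EXP1) (hE2 : St_EXP2) (hG1 : St_GEO1)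
    (hG2 : St_GEO2) (_hT1 : St_T1) (hG : St_G1) : St_MOD := by
  intro M
  refine ⟨e_add hFE M, fun t μ ht hμ => e_smul hFE M t μ ht hμ,
    fun c r hr => ⟨recentre hFE hE1 M c hr, rfl, rfl, fun _ => rfl, fun _ => rfl⟩,
    i4 M, i5 M, i6 M, ?_, fun c r μ hr hμ => Ie_circ hFE hE1 c hr hμ.1, i9 hFE hE1 M, ?_, ?_,
    i12 hFE hE1 hE2 hG1 M, ?_, ?_, i15 hG1 M, i16 hG1 M, i17 hFE hG1 M,
    i18 hFE hE1 hE2 hG1 hG M⟩
  · intro T hT S S'
    have h := i4 M _ _ (pfe_unif hFE (S ++ T)) (pfe_unif hFE (S' ++ T))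
      (null_mono (unif_supp hFE _) ((box_app hG1 S T).trans hT))
      (null_mono (unif_supp hFE _) ((box_app hG1 S' T).trans hT))
    have h2 := hE2.2.1 S S' T
    unfold kS at h2
    simp only [Model.eS, covE, kS]
    rw [h, h2]
    ring
  · intro c r r' μ hr hrr hμ hs hO
    have hr' := hr.trans_le hrr
    have hc := pfe_circ hFE c hr
    have hc' := pfe_circ hFE c hr'
    have hb : closedBall c r ⊆ closedBall c r' := closedBall_subset_closedBall hrr
    unfold Model.eC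
    rw [i6 M _ _ _ hμ hc hc' (null_mono hs hO) (null_mono (circ_supp' hFE c hr) hO),
      Ie_symm hFE hμ.1 hc'.1, Ie_symm hFE hc.1 hc'.1,
      Ie_circ_in hFE hE1 c hr' hμ (null_mono hs hb),
      Ie_circ_in hFE hE1 c hr' hc (null_mono (circ_supp' hFE c hr) hb), sub_self]
  · intro c r r' hr hrr hO
    have hr' := hr.trans_le hrr
    have hc := pfe_circ hFE c hr
    have hc' := pfe_circ hFE c hr'
    have hb : closedBall c r ⊆ closedBall c r' := closedBall_subset_closedBall hrr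
    unfold Model.eC
    rw [i4 M _ _ hc hc' (null_mono (circ_supp' hFE c hr) (hb.trans hO))
      (null_mono (circ_supp' hFE c hr') hO), Ie_symm hFE hc.1 hc'.1,
      Ie_circ_in hFE hE1 c hr' hc (null_mono (circ_supp' hFE c hr) hb)]
    ring
  · intro B
    have h := (e_sum hFE M Finset.univ (fun _ : Fin 2 × Fin 2 => (1 / 4 : ℝ))
      (fun d => unif (d :: B)) (fun _ => by norm_num) fun d => (pfe_unif hFE _).1).2
    have h4 : ENNReal.ofReal (1 / 4 : ℝ) = (4 : ℝ≥0∞)⁻¹ := by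
      rw [one_div, ENNReal.ofReal_inv_of_pos (by norm_num)]
      simp
    rw [h4, ← hG2.2.2.2.2.2.1 B] at h
    exact h
  · intro T hT B hB A
    have h := (e_sum hFE M ((lvs T).filter fun S => B <:+ S) (fun S => (side S / side B) ^ 2)
      (fun S => unif (S ++ A)) (fun _ => sq_nonneg _) fun S => (pfe_unif hFE _).1).2
    rw [← hG2.2.2.2.2.2.2.1 T hT B hB A] at h
    exact h

end

end Pool.Agent.Lib.APPS
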