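import Pool.Agent.Lib.APPS.Blue3

/-! Block MS: measurability, bounds and linearity of the averaging operators. -/

namespace Pool.Agent.Lib.APPS

open MeasureTheory ProbabilityTheory Filter Topology Set Metric
open scoped NNReal ENNReal CompactlySupported BoundedContinuousFunction Classical

namespace MS

variable {α β δ : Type} [MeasurableSpace α] [MeasurableSpace β] [MeasurableSpace δ]

lemma sfin (m : α → Measure β) (hm : Measurable m) (hf : ∀ x, IsFiniteMeasure (m x)) :
    IsSFiniteKernel (⟨m, hm⟩ : Kernel α β) := by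
  have hu : Measurable fun x => m x univ + 1 :=
    ((Measure.measurable_coe MeasurableSet.univ).comp hm).add_const 1
  have h0 : ∀ x, m x univ + 1 ≠ 0 := fun x => by simp
  have ht : ∀ x, m x univ + 1 ≠ ∞ := fun x => by simp
  let κ : Kernel α β := ⟨fun x => (m x univ + 1)⁻¹ • m x,
    Measure.measurable_of_measurable_coe _ fun s hs => by
      simp only [Measure.smul_apply, smul_eq_mul]
      exact hu.inv.mul ((Measure.measurable_coe hs).comp hm)⟩
  have : IsFiniteKernel κ := ⟨1, ENNReal.one_lt_top, fun x => by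
    change ((m x univ + 1)⁻¹ • m x) univ ≤ 1
    rw [Measure.smul_apply, smul_eq_mul]
    exact (mul_le_mul_right le_self_add _).trans_eq (ENNReal.inv_mul_cancel (h0 x) (ht x))⟩
  have he : (⟨m, hm⟩ : Kernel α β) = κ.withDensity fun x _ => m x univ + 1 := by
    ext1 x
    rw [Kernel.withDensity_apply (f := fun x _ => m x univ + 1) _ (hu.comp measurable_fst),
      withDensity_const]
    change m x = (m x univ + 1) • (m x univ + 1)⁻¹ • m x
    rw [smul_smul, ENNReal.mul_inv_cancel (h0 x) (ht x), one_smul]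
  rw [he]
  exact Kernel.IsSFiniteKernel.withDensity κ fun x _ => ht x

lemma int_meas (m : α → Measure β) (hm : Measurable m) (hf : ∀ x, IsFiniteMeasure (m x))
    (F : α × β → ℝ) (hF : Measurable F) : Measurable fun x => ∫ w, F (x, w) ∂m x := by
  have := sfin m hm hf
  exact (hF.stronglyMeasurable.integral_kernel_prod_right' (κ := ⟨m, hm⟩)).measurable

lemma map_meas (m : α → Measure β) (hm : Measurable m) (hf : ∀ x, IsFiniteMeasure (m x))
    (T : α × β → δ) (hT : Measurable T) : Measurable fun x => (m x).map fun w => T (x, w) := by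
  have := sfin m hm hf
  refine Measure.measurable_of_measurable_coe _ fun s hs => ?_
  have h := Kernel.measurable_kernel_prodMk_left (κ := ⟨m, hm⟩) (hT hs)
  convert h using 2 with x
  exact Measure.map_apply (hT.comp measurable_prodMk_left) hs

lemma shift_meas {a : ℝ} (ha : 0 < a) (m : α → Measure Cyl) (hm : Measurable m)
    (hf : ∀ x, IsFiniteMeasure (m x)) : Measurable fun x => shiftAt a (m x) := by
  have hs : ∀ t : ℝ, MeasurableSet (Ioi t ×ˢ (univ : Set (AddCircle (2 * Real.pi)))) := fun t =>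
    measurableSet_Ioi.prod MeasurableSet.univ
  have hS : ∀ t : ℝ, MeasurableSet {x | ENNReal.ofReal a ≤ m x (Ioi t ×ˢ univ)} := fun t =>
    measurableSet_le measurable_const ((Measure.measurable_coe (hs t)).comp hm)
  have hdown : ∀ x (t t' : ℝ), t' ≤ t → ENNReal.ofReal a ≤ m x (Ioi t ×ˢ univ) →
      ENNReal.ofReal a ≤ m x (Ioi t' ×ˢ univ) := fun x t t' h h' =>
    h'.trans (measure_mono (prod_mono (Ioi_subset_Ioi h) subset_rfl))
  have hb : ∀ x, BddAbove {t : ℝ | ENNReal.ofReal a ≤ m x (Ioi t ×ˢ univ)} := by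
    intro x
    have := hf x
    have h1 := tendsto_measure_iInter_atTop (μ := m x)
      (s := fun t : ℝ => Ioi t ×ˢ (univ : Set (AddCircle (2 * Real.pi))))
      (fun t => (hs t).nullMeasurableSet)
      (fun t t' h => prod_mono (Ioi_subset_Ioi h) subset_rfl) ⟨0, measure_ne_top _ _⟩
    have h2 : ⋂ t : ℝ, Ioi t ×ˢ (univ : Set (AddCircle (2 * Real.pi))) = ∅ :=
      eq_empty_of_forall_notMem fun w hw => lt_irrefl w.1 (mem_iInter.1 hw w.1).1
    rw [h2, measure_empty] at h1
    obtain ⟨t, ht⟩ := (h1.eventually (gt_mem_nhds (ENNReal.ofReal_pos.2 ha))).exists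
    exact ⟨t, fun t' ht' => le_of_not_ge fun h => ht.not_ge (hdown x t' t h ht')⟩
  refine measurable_of_Ioi fun r => ?_
  have : (fun x => shiftAt a (m x)) ⁻¹' Ioi r =
      (⋃ q : ℚ, {_x | r < (q : ℝ)} ∩ {x | ENNReal.ofReal a ≤ m x (Ioi (q : ℝ) ×ˢ univ)}) ∪
      ({_x | r < 0} ∩ ⋂ q : ℚ, {x | ENNReal.ofReal a ≤ m x (Ioi (q : ℝ) ×ˢ univ)}ᶜ) := by
    ext x
    simp only [mem_preimage, mem_Ioi, shiftAt, mem_union, mem_iUnion, mem_inter_iff,
      mem_ofPred_eq, mem_iInter, mem_compl_iff]
    rcases {t : ℝ | ENNReal.ofReal a ≤ m x (Ioi t ×ˢ univ)}.eq_empty_or_nonempty with he | hne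
    · have h1 : ∀ t : ℝ, ¬ENNReal.ofReal a ≤ m x (Ioi t ×ˢ univ) := fun t ht =>
        eq_empty_iff_forall_notMem.1 he t ht
      rw [he, Real.sSup_empty]
      simp only [h1, and_false, exists_false, not_false_eq_true, implies_true, and_true, false_or]
    · rw [lt_csSup_iff (hb x) hne]
      constructor
      · rintro ⟨t, ht, hr⟩
        obtain ⟨q, h1, h2⟩ := exists_rat_btwn hr
        exact Or.inl ⟨q, h1, hdown x t q h2.le ht⟩
      · rintro (⟨q, h1, h2⟩ | ⟨-, h2⟩)
        · exact ⟨q, h2, h1⟩
        · obtain ⟨t, ht⟩ := hne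
          obtain ⟨q, hq⟩ := exists_rat_lt t
          exact (h2 q (hdown x t q hq.le ht)).elim
  rw [this]
  exact (MeasurableSet.iUnion fun q : ℚ => (MeasurableSet.const _).inter (hS q)).union
    ((MeasurableSet.const _).inter (MeasurableSet.iInter fun q : ℚ => (hS q).compl))

variable {k : ℕ} (f : Fin k → C_c(Cyl, ℝ)) (G : (Fin k → ℝ) →ᵇ ℝ)

lemma phi_meas (m : α → Measure Cyl) (hm : Measurable m) (hf : ∀ x, IsFiniteMeasure (m x)) :
    Measurable fun x => PhiT f G (m x) :=
  G.continuous.measurable.comp (measurable_pi_lambda _ fun i =>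
    int_meas m hm hf (fun p => f i p.2) ((map_continuous (f i)).measurable.comp measurable_snd))

lemma in_meas {a : ℝ} (ha : 0 < a) (m : α → Measure Cyl) (hm : Measurable m)
    (hf : ∀ x, IsFiniteMeasure (m x)) : Measurable fun q : α × ℝ => PhiT f G ((m q.1).map
      fun p => (p.1 - shiftAt a (m q.1), p.2 + (q.2 : AddCircle (2 * Real.pi)))) := by
  refine phi_meas f G _ (map_meas (fun q : α × ℝ => m q.1) (hm.comp measurable_fst)
    (fun q => hf q.1) (fun z : (α × ℝ) × Cyl =>
      (z.2.1 - shiftAt a (m z.1.1), z.2.2 + (z.1.2 : AddCircle (2 * Real.pi)))) ?_) fun q => ?_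
  · exact (measurable_snd.fst.sub ((shift_meas ha m hm hf).comp measurable_fst.fst)).prodMk
      (measurable_snd.snd.add (AddCircle.measurable_mk'.comp measurable_fst.snd))
  · have := hf q.1
    infer_instance

lemma rot_meas {a : ℝ} (ha : 0 < a) (m : α → Measure Cyl) (hm : Measurable m)
    (hf : ∀ x, IsFiniteMeasure (m x)) : Measurable fun x => rotAvg a (PhiT f G) (m x) := by
  simp only [rotAvg, intervalIntegral.integral_of_le Real.two_pi_pos.le]
  exact ((in_meas f G ha m hm hf).stronglyMeasurable.integral_prod_right').measurable.const_mul _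

lemma rot_meas' (hc : Measurable toCyl) {a : ℝ} (ha : 0 < a) (ν : α → Measure ℂ)
    (hν : Measurable ν) (hf : ∀ x, IsFiniteMeasure (ν x)) : Measurable fun p : α × ℂ =>
      rotAvg a (PhiT f G) ((ν p.1).map fun w => toCyl (w - p.2)) := by
  refine rot_meas f G ha _ (map_meas (fun p : α × ℂ => ν p.1) (hν.comp measurable_fst)
    (fun p => hf p.1) (fun z : (α × ℂ) × ℂ => toCyl (z.2 - z.1.2))
    (hc.comp (measurable_snd.sub measurable_fst.snd))) fun p => ?_
  have := hf p.1
  infer_instance

lemma rot_abs (a B : ℝ) (Φ : Measure Cyl → ℝ) (h : ∀ m, |Φ m| ≤ B) (m : Measure Cyl) :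
    |rotAvg a Φ m| ≤ B := by
  have h1 := intervalIntegral.norm_integral_le_of_norm_le_const (a := 0) (b := 2 * Real.pi)
    (f := fun s : ℝ => Φ (m.map fun p =>
      (p.1 - shiftAt a m, p.2 + (s : AddCircle (2 * Real.pi))))) (C := B) fun s _ => h _
  have h2 := Real.two_pi_pos
  rw [sub_zero, abs_of_pos h2, Real.norm_eq_abs] at h1
  rw [rotAvg, abs_mul, abs_of_pos (inv_pos.2 h2), inv_mul_le_iff₀ h2]
  exact h1.trans_eq (mul_comm _ _)

end MS

open MS in
theorem blk_MS (hCYL : St_CYL) : St_MS := by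
  intro a ha k f G
  have hc : Measurable toCyl := hCYL.2.2.2.2.1
  have hpi := Real.two_pi_pos
  refine ⟨fun α _ m hm hf => rot_meas f G ha m hm hf, fun α _ ν hν hf =>
    ⟨rot_meas' f G hc ha ν hν hf, ?_⟩, fun hG => ?_, fun G' α β hG' => ?_⟩
  · exact ((Measure.measurable_coe MeasurableSet.univ).comp hν).ennreal_toReal.inv.mul
      (int_meas ν hν hf _ (rot_meas' f G hc ha ν hν hf))
  · have h1 : ∀ m, 0 ≤ rotAvg a (PhiT f G) m ∧ rotAvg a (PhiT f G) m ≤ 1 := fun m =>
      ⟨mul_nonneg (inv_pos.2 hpi).le (intervalIntegral.integral_nonneg hpi.le fun s _ => (hG _).1),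
        (le_abs_self _).trans (rot_abs a 1 _ (fun m => by
          rw [PhiT, abs_of_nonneg (hG _).1]; exact (hG _).2) m)⟩
    refine ⟨h1, fun ν => ⟨mul_nonneg (by positivity) (integral_nonneg fun z => (h1 _).1), ?_⟩⟩
    by_cases hν : ν univ = ∞
    · simp [sampleAvg, hν]
    · have : IsFiniteMeasure ν := ⟨lt_top_iff_ne_top.2 hν⟩
      have h2 := norm_integral_le_of_norm_le_const (μ := ν) (C := 1)
        (f := fun z => rotAvg a (PhiT f G) (ν.map fun w => toCyl (w - z)))
        (ae_of_all _ fun z => by rw [Real.norm_eq_abs, abs_of_nonneg (h1 _).1]; exact (h1 _).2)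
      rw [one_mul] at h2
      refine (mul_le_mul_of_nonneg_left ((le_abs_self _).trans h2) (by positivity)).trans ?_
      exact inv_mul_le_one_of_le₀ le_rfl ENNReal.toReal_nonneg
  · have hB : ∀ m, |PhiT f G m| ≤ ‖G‖ := fun m => G.norm_coe_le_norm _
    have h1 : ∀ m, IsFiniteMeasure m →
        rotAvg a (PhiT f G') m = α * rotAvg a (PhiT f G) m + β := by
      intro m hm
      have h2 := (in_meas f G ha (fun _ : Unit => m) measurable_const fun _ => hm).comp
        (measurable_prodMk_left (x := ()))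
      have h3 : IntervalIntegrable (fun s : ℝ => PhiT f G (m.map fun p =>
          (p.1 - shiftAt a m, p.2 + (s : AddCircle (2 * Real.pi))))) volume 0 (2 * Real.pi) :=
        (intervalIntegrable_const (c := ‖G‖)).mono_fun' h2.aestronglyMeasurable
          (ae_of_all _ fun s => hB _)
      have h4 : ∀ m, PhiT f G' m = α * PhiT f G m + β := fun m => hG' _
      simp only [rotAvg, h4]
      rw [intervalIntegral.integral_add (h3.const_mul α) intervalIntegrable_const,
        intervalIntegral.integral_const_mul, intervalIntegral.integral_const, smul_eq_mul]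
      field_simp
      ring
    refine ⟨h1, fun ν hν hν0 => ?_⟩
    have h2 := (rot_meas' f G hc ha (fun _ : Unit => ν) measurable_const fun _ => hν).comp
      (measurable_prodMk_left (x := ()))
    have h3 : Integrable (fun z => rotAvg a (PhiT f G) (ν.map fun w => toCyl (w - z))) ν :=
      Integrable.of_bound h2.aestronglyMeasurable ‖G‖ (ae_of_all _ fun z => rot_abs a _ _ hB _)
    have h4 : ∀ z, rotAvg a (PhiT f G') (ν.map fun w => toCyl (w - z)) =
        α * rotAvg a (PhiT f G) (ν.map fun w => toCyl (w - z)) + β := fun z =>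
      h1 _ inferInstance
    have h5 : (ν univ).toReal ≠ 0 :=
      ENNReal.toReal_ne_zero.2 ⟨Measure.measure_univ_ne_zero.2 hν0, measure_ne_top _ _⟩
    simp only [sampleAvg, h4]
    rw [integral_add (h3.const_mul α) (integrable_const β), integral_const_mul, integral_const,
      smul_eq_mul, Measure.real]
    field_simp

end Pool.Agent.Lib.APPS
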