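import Pool.Agent.Lib.APPS.B_MT1c

/-!
Localisation of the large scale functional.
-/

namespace Pool.Agent.Lib.APPS

open MeasureTheory ProbabilityTheory Filter Topology Set Metric
open scoped NNReal ENNReal CompactlySupported RealInnerProductSpace Classical

noncomputable section

namespace MT1

theorem meas_ind {α : Type} [MeasurableSpace α] {p : α → Prop} (h : Measurable p) :
    Measurable fun a => ind (p a) :=
  Measurable.ite (measurableSet_setOf.2 h) measurable_const measurable_const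

theorem m_le {α β : Type} [MeasurableSpace α] [TopologicalSpace β] [MeasurableSpace β]
    [LinearOrder β] [OpensMeasurableSpace β] [OrderClosedTopology β] [SecondCountableTopology β]
    {f g : α → β} (hf : Measurable f) (hg : Measurable g) : Measurable fun a => f a ≤ g a :=
  measurableSet_setOf.1 (measurableSet_le hf hg)

theorem m_lt {α : Type} [MeasurableSpace α] {f g : α → ℝ} (hf : Measurable f) (hg : Measurable g) :
    Measurable fun a => f a < g a := measurableSet_setOf.1 (measurableSet_lt hf hg)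

theorem lint_ind {p : Om → Prop} (h : Measurable p) : ∫⁻ ω, ind (p ω) ∂gm = gm {ω | p ω} := by
  rw [← lintegral_indicator_one (measurableSet_setOf.2 h)]
  refine lintegral_congr fun ω => ?_
  by_cases hp : p ω <;> simp [ind, hp]

theorem fin_num {u w E : ℝ≥0∞} {p η : ℝ} (hu : u ≠ ∞) (h1 : u ≤ w + E) (h2 : w ≤ u + E)
    (hp : 0 < p) (hη : 0 ≤ η) (h3 : ENNReal.ofReal p * E ≤ ENNReal.ofReal η) :
    |p * u.toReal - p * w.toReal| ≤ η := by
  have hE : E ≠ ∞ := by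
    rintro rfl
    rw [ENNReal.mul_top (by simpa using hp)] at h3
    exact ENNReal.ofReal_ne_top (top_le_iff.1 h3)
  have hw : w ≠ ∞ := ne_top_of_le_ne_top (ENNReal.add_ne_top.2 ⟨hu, hE⟩) h2
  lift u to ℝ≥0 using hu
  lift w to ℝ≥0 using hw
  lift E to ℝ≥0 using hE
  rw [← ENNReal.ofReal_coe_nnreal, ← ENNReal.ofReal_mul hp.le,
    ENNReal.ofReal_le_ofReal_iff hη] at h3
  have h4 : (u : ℝ) ≤ w + E := by exact_mod_cast h1
  have h5 : (w : ℝ) ≤ u + E := by exact_mod_cast h2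
  simp only [ENNReal.coe_toReal]
  rw [abs_le]
  constructor <;> nlinarith

theorem exp_small (D c η : ℝ) (hc : 0 < c) (hη : 0 < η) :
    ∃ K0 : ℕ, ∀ K ≥ K0, D * Real.exp (-(c * (K : ℕ))) ≤ η := by
  have h1 : Tendsto (fun K : ℕ => D * Real.exp (-(c * K))) atTop (𝓝 (D * 0)) :=
    (Real.tendsto_exp_neg_atTop_nhds_zero.comp
      (tendsto_natCast_atTop_atTop.const_mul_atTop hc)).const_mul D
  rw [mul_zero] at h1
  exact eventually_atTop.1 (h1.eventually (ge_mem_nhds hη))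

theorem meas_locS (hT3 : St_T3) (V R : Dy) (K : ℕ) (f : Cyl → ℝ) :
    Measurable fun x => locS x V R K f :=
  Finset.measurable_sum _ fun U _ => hT3.2.2.2.1 (Dy → ℝ) ℝ (fun x => sub x U)
    (fun T _ => ∑ A ∈ T, if A ++ U = R then 0 else
      f (toCyl (2 ^ (V.length + K + 1) * (ctr (A ++ U) - ctr R))))
    (hT3.2.2.2.2.1 U) fun _ => measurable_const

theorem meas_IV (hT3 : St_T3) {tf : ℕ → C_c(Cyl, ℝ)} {G : (ℕ → ℝ) → ℝ} {χ : ℝ → ℝ} {k0 : ℕ}
    (h : Measurable fun p : ℝ × (ℕ → ℝ) => Th G χ k0 p.1 p.2) (K : ℕ) (n : ℝ) (V : Dy) :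
    Measurable (IV tf G χ k0 K n V) :=
  hT3.2.2.2.1 (Dy → ℝ) ℝ (fun x => sub x V)
    (fun T x => ∑ R ∈ T, Th G χ k0 (locS x V (R ++ V) K (f0 K) / n)
      fun k => locS x V (R ++ V) K (tf k) / n)
    (hT3.2.2.2.2.1 V) fun _ => Finset.measurable_sum _ fun R _ =>
      h.comp (((meas_locS hT3 V (R ++ V) K (f0 K)).div_const n).prodMk
        (measurable_pi_lambda _ fun k => (meas_locS hT3 V (R ++ V) K (tf k)).div_const n))

end MT1

open MT1 in
theorem blk_MT1 (hG1 : St_G1) (hMOD : St_MOD) (hGEO1 : St_GEO1) (hGEO2 : St_GEO2) (hT1 : St_T1)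
    (hT3 : St_T3) (_hRW1 : St_RW1) (_hFM : St_FM) (hMB : St_MB) (_hR : St_R) (_hTL : St_TL)
    (hRUG : St_RUG) (hRUS : St_RUS) (_hGV : St_GV) (hJR : St_JR) (hST : St_ST) (hLOCV : St_LOCV)
    (hCYL : St_CYL) (hPHI : St_PHI) (hTHL : St_THL) : St_MT1 := by
  intro γ hγ M hM tf htf Λ G χ hΛ hG hχ s hs η hη
  have : IsProbabilityMeasure gm := hG1.1
  obtain ⟨C, β0, hC, -, hth⟩ := hTHL Λ χ hΛ hχ
  obtain ⟨⟨Kχ, hχl⟩, hχb, β, hβ⟩ := hχ
  set B : ℝ := max β 0 + 1 with hB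
  have hB1 : 1 ≤ B := by rw [hB]; linarith [le_max_right β 0]
  have hGram : Gram M.eS (covE M.C0) := by simpa using (hMOD M).2.2.2.2.2.2.1 [] hM
  obtain ⟨KR, hKR⟩ := (hRUS γ hγ).2 M.C0
  set D : ℝ := max KR 0 * 2 ^ (th γ + 1) with hD
  have hD0 : 0 ≤ D := by positivity
  set δ : ℝ := min (1 / 10000) (η / 10 / ((C + 2 + 290 * C * B ^ 2) * B * D + 1)) with hδ
  have hδ0 : 0 < δ := lt_min (by norm_num) (by positivity)
  have hδ1 : (C + 2 + 290 * C * B ^ 2) * B * D * δ ≤ η / 10 := by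
    have h1 : δ ≤ η / 10 / ((C + 2 + 290 * C * B ^ 2) * B * D + 1) := min_le_right _ _
    rw [le_div_iff₀ (by positivity)] at h1
    nlinarith
  obtain ⟨k00, hk00⟩ := exists_pow_lt_of_lt_one (by positivity : 0 < η / 10 / (C * B ^ 2 * D + 1))
    (by norm_num : (1 / 2 : ℝ) < 1)
  refine ⟨k00, fun k0 hk0 => ?_⟩
  have hk1 : C * B ^ 2 * D * (1 / 2) ^ k0 ≤ η / 10 := by
    have h1 := (pow_le_pow_of_le_one (by norm_num) (by norm_num) hk0).trans hk00.le
    rw [le_div_iff₀ (by positivity)] at h1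
    nlinarith [pow_pos (by norm_num : (0 : ℝ) < 1 / 2) k0]
  obtain ⟨th1, -, th3, th4, th5, th6⟩ := hth G hG k0
  obtain ⟨K0, hK0⟩ := hST γ hγ M hM 0 1 (1 / 2) δ (η / 10) le_rfl (by norm_num) hδ0 (by positivity)
  refine ⟨max K0 2, fun K hK => ?_⟩
  obtain ⟨K'0, hK'0⟩ := hK0 K (le_trans (le_max_left _ _) hK)
  refine ⟨K'0, fun K' hK' => ?_⟩
  obtain ⟨K10, hK10⟩ := hK'0 K' hK'
  obtain ⟨i0, hi0⟩ := (hMOD M).2.2.2.2.2.2.2.2.2.2.2.2.2.2.1 hM
  have hOk := hi0 i0 le_rfl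
  obtain ⟨c, hc, hJ⟩ := hJR γ hγ
  obtain ⟨CJ, hCJ⟩ := hJ M i0 hOk K'
  obtain ⟨K11, hK11⟩ := exp_small (CJ * Real.exp (aa γ)) c (η / 10) hc (by positivity)
  refine ⟨max (max K10 K11) i0, fun K1 hK1 => ?_⟩
  have hone : Mono one := ⟨measurable_const, fun _ => ⟨zero_le_one, le_rfl⟩, fun _ _ _ => le_rfl⟩
  obtain ⟨l, -, hLV⟩ := hLOCV γ hγ M i0 hOk one hone (1 / 100) (η / 10) K' (by norm_num)
    (by positivity)
  filter_upwards [hK10 K1 (le_trans ((le_max_left _ _).trans (le_max_left _ _)) hK1), hLV,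
    (hRUG γ hγ).2 M hM 0 δ (η / 5 / ((C + 2) * B)) hδ0 (by positivity), eventually_ge_atTop 2,
    eventually_ge_atTop (16 * ((upt l).card : ℝ) / δ)] with n hn3 hn4 hn2 hn hnl
  obtain ⟨Bd, hBdm, hBd1, hBd2⟩ := hn4
  have hn0 : 0 < n := by linarith
  rw [div_le_iff₀ hδ0, mul_comm n] at hnl
  have mX : Measurable (M.X γ 0) := (hT3.2.2.2.2.2.2.2.2.2.2.1 M γ 0).1
  have mY : ∀ V, Measurable (M.YV γ 0 V) := fun V => (hT3.2.2.2.2.2.2.2.2.2.2.1 M γ 0).2 _ _
  have mx : ∀ A, Measurable fun ω => M.X γ 0 ω A := fun A => (measurable_pi_apply A).comp mX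
  have mN : Measurable fun ω => nB (M.X γ 0 ω) := hT3.1.comp mX
  have mS : ∀ V, Measurable fun ω => nB (sub (M.X γ 0 ω) V) := fun V =>
    hT3.1.comp ((hT3.2.2.2.2.1 V).comp mX)
  have mA : ∀ V, Measurable fun ω => |M.YV γ 0 V ω - Real.log n / γ| ≤ K' := fun V =>
    m_le (continuous_abs.measurable.comp ((mY V).sub_const _)) measurable_const
  have hfin : ∀ᵐ ω ∂gm, nB (M.X γ 0 ω) ≠ ∞ := by
    have h4 : (1 : ℝ) < 4 / γ ^ 2 := by
      rw [lt_div_iff₀ (pow_pos hγ.1 2)]; nlinarith [hγ.1, hγ.2]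
    obtain ⟨K2, hK2⟩ := hMB γ hγ 1 one_pos h4
    have h5 := hK2 _ _ hGram 0
    simp only [ENNReal.rpow_one] at h5
    exact (ae_lt_top mN (ne_top_of_le_ne_top ENNReal.ofReal_ne_top h5)).mono fun _ h => h.ne
  set A : Om → ℝ := fun ω => χ (nN (M.X γ 0 ω) / n) * PhiG tf G (tr (M.X γ 0 ω)) *
    indR (ENNReal.ofReal (n / 2) ≤ nB (sh (M.X γ 0 ω) (-s))) with hA
  have hΦ := ((hPHI.2.2.2.2.2.2.2 tf htf).2.1 Λ G hΛ hG).1
  have hA0 : ∀ ω, 0 ≤ A ω ∧ A ω ≤ 1 := fun ω =>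
    ⟨mul_nonneg (mul_nonneg (hχb _).1 (hΦ _).1) (indR_bd _).1,
      mul_le_one₀ (mul_le_one₀ (hχb _).2 (hΦ _).1 (hΦ _).2) (indR_bd _).1 (indR_bd _).2⟩
  have mA' : Measurable A := by
    refine ((hχl.continuous.measurable.comp
      ((hT3.2.2.2.2.2.2.2.2.1.comp mX).div_const n)).mul
      (hT3.2.2.2.1 Om ℝ (M.X γ 0) (fun T _ => PhiG tf G T) mX fun _ => measurable_const)).mul ?_
    exact (hT3.2.2.2.2.2.2.2.2.2.2.2.1 Om _ (measurableSet_le measurable_const
      (hT3.1.comp (hT3.2.2.2.2.2.1.comp (mX.prodMk measurable_const))))).2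
  have mU : Measurable fun ω => ENNReal.ofReal (n * A ω) :=
    ENNReal.measurable_ofReal.comp (mA'.const_mul n)
  set b : Dy → Om → ℝ≥0∞ := fun V ω => ind (Early (M.X γ 0 ω) s K1 V ∧
    |M.YV γ 0 V ω - Real.log n / γ| ≤ K') * ENNReal.ofReal (IV tf G χ k0 K n V (M.X γ 0 ω))
    with hb
  have mb : ∀ V, Measurable (b V) := fun V =>
    (meas_ind ((Measurable.forall fun l => Measurable.imp measurable_const
      (m_lt measurable_const (mx _))).and (mA V))).mul
      (ENNReal.measurable_ofReal.comp ((meas_IV hT3 th1 K n V).comp mX))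
  have mW : Measurable fun ω => ∑' V, ind (Loc K1 V) * b V ω :=
    Measurable.ennreal_tsum fun V => (mb V).const_mul _
  have e1 : M.An γ tf G χ s n = n ^ th γ * (∫⁻ ω, ENNReal.ofReal (n * A ω) ∂gm).toReal := by
    rw [← integral_eq_lintegral_of_nonneg_ae (ae_of_all _ fun ω => mul_nonneg hn0.le (hA0 ω).1)
      (mA'.const_mul n).aestronglyMeasurable, integral_const_mul, ← mul_assoc,
      ← Real.rpow_add_one hn0.ne']
    rfl
  have e2 : M.Idl γ tf G χ s k0 K K' K1 n =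
      n ^ th γ * (∫⁻ ω, ∑' V, ind (Loc K1 V) * b V ω ∂gm).toReal := by
    rw [lintegral_tsum fun V => ((mb V).const_mul _).aemeasurable]
    simp only [lintegral_const_mul _ (mb _)]
    rfl
  set ε : ℝ := (C * (1 / 2) ^ k0 * B + (C + 2) * δ + C * B * (290 * δ) * B) * B with hε
  have hε0 : 0 ≤ ε := by positivity
  set p1 : Om → Prop := fun ω => ENNReal.ofReal (1 / 2 * n) ≤ nB (M.X γ 0 ω) with hp1
  set p2 : Dy → Om → Prop := fun R ω =>
    0 < M.X γ 0 ω R ∧ ENNReal.ofReal (δ * n) ≤ NN (M.X γ 0 ω) R with hp2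
  set p5 : Dy → Om → Prop := fun V ω => |M.YV γ 0 V ω - Real.log n / γ| ≤ K' ∧ ∃ A : Dy,
    K1 ≤ A.length ∧ A.length ≤ V.length ∧ ‖ctr A - ctr V‖ ≤ 6 * side A ∧ M.X γ 0 ω A ≤ 1 with hp5
  have m1 : Measurable p1 := m_le measurable_const mN
  have m2 : ∀ R, Measurable (p2 R) := fun R => (m_lt measurable_const (mx R)).and
    (m_le measurable_const ((((hT3.2.2.2.2.2.2.2.2.2.1 R).2.1).comp mX).add_const _))
  have m5 : ∀ V, Measurable (p5 V) := fun V => (mA V).and (Measurable.exists fun A =>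
    measurable_const.and (measurable_const.and (measurable_const.and
      (m_le (mx A) measurable_const))))
  have mP : ∀ V, Measurable fun ω => posN (M.X γ 0 ω) V := fun V =>
    Measurable.ennreal_tsum fun S => meas_ind (m_lt measurable_const (mx _))
  set f1 : Om → ℝ≥0∞ := fun ω => ENNReal.ofReal (ε * n) * ind (p1 ω) with hf1
  set f2 : Om → ℝ≥0∞ := fun ω => ENNReal.ofReal ((C + 2) * B) * ∑' R, ind (p2 R ω) with hf2
  set f3 : Om → ℝ≥0∞ := fun ω => 2 * (ind (p1 ω) * ∑ R ∈ tr (M.X γ 0 ω),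
    ∑ j ∈ Finset.range (R.length + K + 2), ENNReal.ofReal (min 1 (cnt (M.X γ 0 ω) R j / n)) *
      ind (¬M.Reg γ 0 n δ K K' K1 1 R j ω)) with hf3
  set f4 : Om → ℝ≥0∞ := fun ω => 2 * ∑' V : Dy, ind (i0 + 2 ≤ V.length) *
    (ind (ω ∈ Bd V) * nB (sub (M.X γ 0 ω) V)) with hf4
  set f5 : Om → ℝ≥0∞ := fun ω => 2 * ∑' V : Dy, ind (i0 + 2 ≤ V.length) *
    (ind (p5 V ω) * posN (M.X γ 0 ω) V) with hf5
  have m4' : ∀ V, Measurable fun ω => ind (ω ∈ Bd V) * nB (sub (M.X γ 0 ω) V) := fun V =>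
    (meas_ind (measurableSet_setOf.1 (hBdm V))).mul (mS V)
  have m5' : ∀ V, Measurable fun ω => ind (p5 V ω) * posN (M.X γ 0 ω) V := fun V =>
    (meas_ind (m5 V)).mul (mP V)
  have mf1 : Measurable f1 := (meas_ind m1).const_mul _
  have mf2 : Measurable f2 := (Measurable.ennreal_tsum fun R => meas_ind (m2 R)).const_mul _
  have mf4 : Measurable f4 := (Measurable.ennreal_tsum fun V => (m4' V).const_mul _).const_mul _
  have mf5 : Measurable f5 := (Measurable.ennreal_tsum fun V => (m5' V).const_mul _).const_mul _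
  have hpt : ∀ᵐ ω ∂gm, ENNReal.ofReal (n * A ω) ≤ ∑' V, ind (Loc K1 V) * b V ω +
      (f5 ω + (f1 ω + f2 ω + f4 ω + f3 ω)) ∧ ∑' V, ind (Loc K1 V) * b V ω ≤
        ENNReal.ofReal (n * A ω) + (f5 ω + (f1 ω + f2 ω + f4 ω + f3 ω)) := by
    filter_upwards [hfin] with ω hω
    have h : Hy tf G χ k0 K K1 i0 l n s δ (Real.log n / γ) K' C B γ (M.X γ 0 ω)
        (fun V => M.YV γ 0 V ω) fun V => ω ∈ Bd V :=
      ⟨hT1, hGEO1, hGEO2, hCYL, htf, le_trans (le_max_right _ _) hK,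
        le_trans (le_max_right _ _) hK1, by linarith, hs, hγ, ⟨hδ0.le, min_le_left _ _⟩, hC, hB1,
        hnl, hω, fun t ht => ⟨(hβ t ht).1, by linarith [(hβ t ht).2, le_max_left β 0]⟩,
        th3, th4, th5, th6, fun V h1 h2 h3 => hBd1 V ω h1 h2 h3⟩
    have h1 : ENNReal.ofReal |n * A ω - _| ≤ f1 ω + f2 ω + f4 ω + f3 ω := h.enn hPHI
    obtain ⟨h2, h3⟩ := h.loc_sum
    set z := ∑ V ∈ tr (M.X γ 0 ω), ∑ R ∈ tr (sub (M.X γ 0 ω) V), bb' tf G χ k0 K K1 n s
      (Real.log n / γ) K' (M.X γ 0 ω) (fun V => M.YV γ 0 V ω) V (R ++ V)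
    constructor
    · refine (ENNReal.ofReal_le_ofReal (by linarith [le_abs_self (n * A ω - z)] :
        n * A ω ≤ z + |n * A ω - z|)).trans (ENNReal.ofReal_add_le.trans ?_)
      exact add_le_add h2 (le_add_left h1)
    · refine h3.trans ?_
      rw [add_comm (f5 ω), ← add_assoc]
      refine add_le_add ((ENNReal.ofReal_le_ofReal (by linarith [neg_abs_le (n * A ω - z)] :
        z ≤ n * A ω + |n * A ω - z|)).trans (ENNReal.ofReal_add_le.trans ?_)) le_rfl
      exact add_le_add le_rfl h1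
  have hθ : 0 < n ^ th γ := Real.rpow_pos_of_pos hn0 _
  have e3 : ENNReal.ofReal (n ^ (th γ + 1)) = ENNReal.ofReal (n ^ th γ) * ENNReal.ofReal n := by
    rw [Real.rpow_add_one hn0.ne', ENNReal.ofReal_mul hθ.le]
  have e4 : 2 * ENNReal.ofReal (η / 10) = ENNReal.ofReal (η / 5) := by
    rw [← ENNReal.ofReal_ofNat, ← ENNReal.ofReal_mul zero_le_two]; congr 1; ring
  have i1 : ENNReal.ofReal (n ^ th γ) * ∫⁻ ω, f1 ω ∂gm ≤ ENNReal.ofReal (η / 5) := by
    rw [hf1, lintegral_const_mul _ (meas_ind m1), lint_ind m1]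
    refine (mul_le_mul' le_rfl (mul_le_mul' le_rfl (hKR _ hGram 0 _ (by linarith)))).trans ?_
    rw [← ENNReal.ofReal_mul (by positivity), ← ENNReal.ofReal_mul hθ.le]
    refine ENNReal.ofReal_le_ofReal ?_
    have e5 : (Real.exp (γ * 0) / (1 / 2 * n)) ^ (th γ + 1) = 2 ^ (th γ + 1) / (n ^ th γ * n) := by
      rw [← Real.rpow_add_one hn0.ne', ← Real.div_rpow zero_le_two hn0.le]
      congr 1
      rw [mul_zero, Real.exp_zero]; field_simp
    have e6 : n ^ th γ * (ε * n * (KR * (2 ^ (th γ + 1) / (n ^ th γ * n)))) =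
        ε * (KR * 2 ^ (th γ + 1)) := by field_simp
    have h6 : KR * 2 ^ (th γ + 1) ≤ D :=
      mul_le_mul_of_nonneg_right (le_max_left _ _) (by positivity)
    rw [e5, e6]
    refine (mul_le_mul_of_nonneg_left h6 hε0).trans ?_
    rw [hε]
    linarith
  have i2 : ENNReal.ofReal (n ^ th γ) * ∫⁻ ω, f2 ω ∂gm ≤ ENNReal.ofReal (η / 5) := by
    rw [hf2, lintegral_const_mul' _ _ ENNReal.ofReal_ne_top,
      lintegral_tsum fun R => (meas_ind (m2 R)).aemeasurable, mul_left_comm]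
    simp only [lint_ind (m2 _)]
    refine (mul_le_mul' le_rfl ((mul_le_mul' le_rfl (ENNReal.tsum_le_tsum fun R =>
      le_mul_of_one_le_left' le_add_self)).trans hn2)).trans ?_
    rw [← ENNReal.ofReal_mul (by positivity)]
    exact ENNReal.ofReal_le_ofReal (le_of_eq (by field_simp))
  have i3 : ENNReal.ofReal (n ^ th γ) * ∫⁻ ω, f3 ω ∂gm ≤ ENNReal.ofReal (η / 5) := by
    rw [hf3, lintegral_const_mul' _ _ (by norm_num), mul_left_comm, ← e4]
    exact mul_le_mul' le_rfl hn3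
  have i4 : ENNReal.ofReal (n ^ th γ) * ∫⁻ ω, f4 ω ∂gm ≤ ENNReal.ofReal (η / 5) := by
    rw [hf4, lintegral_const_mul' _ _ (by norm_num), mul_left_comm, ← e4,
      lintegral_tsum fun V => ((m4' V).const_mul _).aemeasurable]
    refine mul_le_mul' le_rfl (le_trans ?_ hBd2)
    rw [e3, mul_assoc, ← ENNReal.tsum_mul_left (a := ENNReal.ofReal n)]
    refine mul_le_mul' le_rfl (ENNReal.tsum_le_tsum fun V => ?_)
    rw [lintegral_const_mul _ (m4' V), mul_left_comm,
      ← lintegral_const_mul' _ _ ENNReal.ofReal_ne_top, ← lintegral_indicator (hBdm V)]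
    refine mul_le_mul' le_rfl (lintegral_mono fun ω => ?_)
    by_cases h : ω ∈ Bd V
    · simp only [ind, h, if_true, one_mul, indicator_of_mem]
      rw [mul_add, ← mul_assoc, ← ENNReal.ofReal_mul hn0.le, mul_inv_cancel₀ hn0.ne',
        ENNReal.ofReal_one, one_mul]
      exact le_add_self
    · simp [ind, h]
  have i5 : ENNReal.ofReal (n ^ th γ) * ∫⁻ ω, f5 ω ∂gm ≤ ENNReal.ofReal (η / 5) := by
    rw [hf5, lintegral_const_mul' _ _ (by norm_num), mul_left_comm, ← e4,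
      lintegral_tsum fun V => ((m5' V).const_mul _).aemeasurable]
    refine mul_le_mul' le_rfl ?_
    have h1 := mul_le_mul' (le_refl (ENNReal.ofReal (n ^ (th γ + 1))))
      (hCJ 0 (Real.log n / γ) 1 K1)
    have hγ0 := hγ.1.ne'
    refine le_trans ?_ (h1.trans ?_)
    · rw [e3, mul_assoc, ← ENNReal.tsum_mul_left (a := ENNReal.ofReal n)]
      refine mul_le_mul' le_rfl (ENNReal.tsum_le_tsum fun V => ?_)
      rw [lintegral_const_mul _ (m5' V), mul_left_comm,
        ← lintegral_const_mul' _ _ ENNReal.ofReal_ne_top]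
      refine mul_le_mul' le_rfl (lintegral_mono fun ω => ?_)
      rw [mul_left_comm]
      refine mul_le_mul' le_rfl ?_
      rw [mul_add, ← mul_assoc, eE, ← ENNReal.ofReal_mul hn0.le,
        show -γ * (Real.log n / γ) = -Real.log n by field_simp, Real.exp_neg, Real.exp_log hn0,
        mul_inv_cancel₀ hn0.ne', ENNReal.ofReal_one, one_mul]
      exact le_add_self
    · rw [← ENNReal.ofReal_mul (by positivity)]
      refine ENNReal.ofReal_le_ofReal (le_trans (le_of_eq ?_)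
        (hK11 K1 (le_trans ((le_max_right _ _).trans (le_max_left _ _)) hK1)))
      rw [Real.rpow_def_of_pos hn0, mul_left_comm, mul_assoc, ← Real.exp_add, ← Real.exp_add]
      congr 2
      unfold th
      field_simp
      ring
  rw [e1, e2]
  refine fin_num (E := ∫⁻ ω, f5 ω + (f1 ω + f2 ω + f4 ω + f3 ω) ∂gm) ?_ ?_ ?_ hθ hη.le ?_
  · refine ne_top_of_le_ne_top (b := ∫⁻ _, ENNReal.ofReal n ∂gm) (by simp)
      (lintegral_mono fun ω => ENNReal.ofReal_le_ofReal (mul_le_of_le_one_right hn0.le (hA0 ω).2))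
  · rw [← lintegral_add_left mW]
    exact lintegral_mono_ae (hpt.mono fun _ h => h.1)
  · rw [← lintegral_add_left mU]
    exact lintegral_mono_ae (hpt.mono fun _ h => h.2)
  · have m12 : Measurable fun ω => f1 ω + f2 ω := mf1.add mf2
    have m124 : Measurable fun ω => f1 ω + f2 ω + f4 ω := m12.add mf4
    rw [lintegral_add_left mf5, lintegral_add_left m124, lintegral_add_left m12,
      lintegral_add_left mf1, mul_add, mul_add, mul_add, mul_add]
    refine (add_le_add i5 (add_le_add (add_le_add (add_le_add i1 i2) i4) i3)).trans (le_of_eq ?_)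
    rw [← ENNReal.ofReal_add (by positivity) (by positivity),
      ← ENNReal.ofReal_add (by positivity) (by positivity),
      ← ENNReal.ofReal_add (by positivity) (by positivity),
      ← ENNReal.ofReal_add (by positivity) (by positivity)]
    congr 1; ring

end

end Pool.Agent.Lib.APPS
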