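import Pool.Agent.Lib.APPS.Blue4

/-!
Block MT2: replacing the local tree functional by its chaos approximation in the unrooted sum.
-/

namespace Pool.Agent.Lib.APPS

open MeasureTheory ProbabilityTheory Filter Topology Set Metric
open scoped NNReal ENNReal CompactlySupported RealInnerProductSpace Classical

noncomputable section

namespace MT2

theorem toReal_close {A B D : ℝ≥0∞} (hD : D ≠ ∞) (h1 : A ≤ B + D) (h2 : B ≤ A + D) :
    |A.toReal - B.toReal| ≤ D.toReal := by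
  by_cases hA : A = ∞
  · have hB : B = ∞ := by
      by_contra hB
      rw [hA, top_le_iff] at h1
      exact ENNReal.add_ne_top.2 ⟨hB, hD⟩ h1
    simp [hA, hB]
  · have hB : B ≠ ∞ := ne_top_of_le_ne_top (ENNReal.add_ne_top.2 ⟨hA, hD⟩) h2
    have e1 := ENNReal.toReal_mono (ENNReal.add_ne_top.2 ⟨hB, hD⟩) h1
    have e2 := ENNReal.toReal_mono (ENNReal.add_ne_top.2 ⟨hA, hD⟩) h2
    rw [ENNReal.toReal_add hB hD] at e1
    rw [ENNReal.toReal_add hA hD] at e2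
    exact abs_le.2 ⟨by linarith, by linarith⟩

theorem ofReal_le (a b : ℝ) : ENNReal.ofReal a ≤ ENNReal.ofReal b + ENNReal.ofReal |a - b| :=
  (ENNReal.ofReal_le_ofReal (by linarith [le_abs_self (a - b)])).trans ENNReal.ofReal_add_le

theorem meas_Th {α : Type} [MeasurableSpace α] {G : (ℕ → ℝ) → ℝ} {χ : ℝ → ℝ} {k0 : ℕ}
    (hTh : Measurable fun p : ℝ × (ℕ → ℝ) => Th G χ k0 p.1 p.2) {f : α → ℝ} {g : α → ℕ → ℝ}
    (hf : Measurable f) (hg : Measurable g) : Measurable fun a => Th G χ k0 (f a) (g a) :=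
  hTh.comp (hf.prodMk hg)

theorem meas_locS (hT3 : St_T3) (V R : Dy) (K : ℕ) (f : Cyl → ℝ) :
    Measurable fun x => locS x V R K f := by
  unfold locS
  refine Finset.measurable_sum _ fun U _ => ?_
  exact hT3.2.2.2.1 (Dy → ℝ) ℝ (fun x => sub x U) (fun T _ => ∑ A ∈ T,
    if A ++ U = R then 0 else f (toCyl (2 ^ (V.length + K + 1) * (ctr (A ++ U) - ctr R))))
    (hT3.2.2.2.2.1 U) fun _ => measurable_const

theorem meas_IV (hT3 : St_T3) (tf : ℕ → C_c(Cyl, ℝ)) (G : (ℕ → ℝ) → ℝ) (χ : ℝ → ℝ) (k0 K : ℕ)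
    (hTh : Measurable fun p : ℝ × (ℕ → ℝ) => Th G χ k0 p.1 p.2) (n : ℝ) (V : Dy) :
    Measurable (IV tf G χ k0 K n V) := by
  refine hT3.2.2.2.1 (Dy → ℝ) ℝ (fun x => sub x V) (fun T x => ∑ R ∈ T,
    Th G χ k0 (locS x V (R ++ V) K (f0 K) / n) fun k => locS x V (R ++ V) K (tf k) / n)
    (hT3.2.2.2.2.1 V) fun T => Finset.measurable_sum _ fun R _ => ?_
  exact meas_Th hTh ((meas_locS hT3 V (R ++ V) K (f0 K)).div_const n)
    (measurable_pi_lambda _ fun k => (meas_locS hT3 V (R ++ V) K (tf k)).div_const n)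

theorem meas_wt (γ c : ℝ) (L l : ℕ) (i : ℤ × ℤ) :
    Measurable fun p : ℝ × (ℤ × ℤ → ℝ) => wt γ c L l p.1 (p.2 i) := by
  unfold wt
  fun_prop

theorem meas_gsum (γ c : ℝ) (K L l : ℕ) (i : ℤ × ℤ) (f : Cyl → ℝ) :
    Measurable fun p : ℝ × (ℤ × ℤ → ℝ) => gsum γ c K L l p.1 p.2 i f :=
  Finset.measurable_sum _ fun i' _ => (meas_wt γ c L l i').mul_const _

theorem meas_Psi (γ c : ℝ) (tf : ℕ → C_c(Cyl, ℝ)) (G : (ℕ → ℝ) → ℝ) (χ : ℝ → ℝ) (k0 K L l : ℕ)
    (hTh : Measurable fun p : ℝ × (ℕ → ℝ) => Th G χ k0 p.1 p.2) :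
    Measurable fun p : ℝ × (ℤ × ℤ → ℝ) => Psi γ c tf G χ k0 K L l p.1 p.2 :=
  Finset.measurable_sum _ fun i _ => (meas_wt γ c L l i).mul (meas_Th hTh
    (meas_gsum γ c K L l i (f0 K))
    (measurable_pi_lambda _ fun k => meas_gsum γ c K L l i (tf k)))

theorem meas_Psi' {α : Type} [MeasurableSpace α] (γ c : ℝ) (tf : ℕ → C_c(Cyl, ℝ))
    (G : (ℕ → ℝ) → ℝ) (χ : ℝ → ℝ) (k0 K L l : ℕ)
    (hTh : Measurable fun p : ℝ × (ℕ → ℝ) => Th G χ k0 p.1 p.2) {f : α → ℝ} {g : α → ℤ × ℤ → ℝ}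
    (hf : Measurable f) (hg : Measurable g) :
    Measurable fun a => Psi γ c tf G χ k0 K L l (f a) (g a) := by
  have h := (meas_Psi γ c tf G χ k0 K L l hTh).comp (hf.prodMk hg)
  simpa only [Function.comp_def] using h

theorem IV_congr (tf : ℕ → C_c(Cyl, ℝ)) (G : (ℕ → ℝ) → ℝ) (χ : ℝ → ℝ) (k0 K : ℕ) (n : ℝ) (V : Dy)
    {x x' : Dy → ℝ} (hV : sub x V = sub x' V) (hU : ∀ U ∈ nbr V, sub x U = sub x' U) :
    IV tf G χ k0 K n V x = IV tf G χ k0 K n V x' := by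
  have h : ∀ R f, locS x V R K f = locS x' V R K f := fun R f =>
    Finset.sum_congr rfl fun U hU' => by rw [hU U hU']
  simp only [IV, h, hV]

theorem gin_sub (l : ℕ) : gin l ⊆ grid l := by
  intro i hi
  simp only [gin, grid, Finset.mem_product, Finset.mem_Ico] at hi ⊢
  have h : (0 : ℤ) < 2 ^ l := by positivity
  rw [pow_succ]
  omega

theorem Psi_congr (γ c : ℝ) (tf : ℕ → C_c(Cyl, ℝ)) (G : (ℕ → ℝ) → ℝ) (χ : ℝ → ℝ) (k0 K L l : ℕ)
    (y : ℝ) {ξ ξ' : ℤ × ℤ → ℝ} (h : ∀ i ∈ grid l, ξ i = ξ' i) :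
    Psi γ c tf G χ k0 K L l y ξ = Psi γ c tf G χ k0 K L l y ξ' := by
  have h1 : ∀ i f, gsum γ c K L l y ξ i f = gsum γ c K L l y ξ' i f := fun i f =>
    Finset.sum_congr rfl fun i' hi' => by rw [h i' (Finset.mem_of_mem_erase hi')]
  simp only [Psi, h1]
  exact Finset.sum_congr rfl fun i hi => by rw [h i (gin_sub l hi)]

theorem coord (l : ℕ) (a : ℤ) (h1 : -2 ^ l ≤ a) (h2 : a < 2 ^ (l + 1)) :
    |(1 / 2 : ℝ) ^ l * (a + 1 / 2) - 1 / 2| ≤ 3 / 2 := by
  have h3 : (-2 ^ l : ℝ) ≤ a := by exact_mod_cast h1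
  have h4 : (a : ℝ) + 1 ≤ 2 ^ (l + 1) := by exact_mod_cast h2
  have hp : (0 : ℝ) < (1 / 2) ^ l := by positivity
  have he : (1 / 2 : ℝ) ^ l * 2 ^ l = 1 := by rw [← mul_pow]; norm_num
  rw [pow_succ] at h4
  have h5 := mul_le_mul_of_nonneg_left h3 hp.le
  have h6 := mul_le_mul_of_nonneg_left h4 hp.le
  exact abs_le.2 ⟨by nlinarith, by nlinarith⟩

theorem ctr_dist (V : Dy) (hs : 0 < side V) (l : ℕ) (i : ℤ × ℤ) (hi : i ∈ grid l) :
    ‖zS V (((1 / 2 : ℝ) ^ l : ℝ) * (zc i + (1 + Complex.I) / 2)) - ctr V‖ ≤ 3 * side V := by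
  simp only [grid, Finset.mem_product, Finset.mem_Ico] at hi
  have e : zS V (((1 / 2 : ℝ) ^ l : ℝ) * (zc i + (1 + Complex.I) / 2)) - ctr V =
      (side V : ℂ) * ((((1 / 2 : ℝ) ^ l * (i.1 + 1 / 2) - 1 / 2 : ℝ) : ℂ) +
        (((1 / 2 : ℝ) ^ l * (i.2 + 1 / 2) - 1 / 2 : ℝ) : ℂ) * Complex.I) := by
    simp only [zS, ctr, zc]
    push_cast
    ring
  rw [e, norm_mul, Complex.norm_real, Real.norm_eq_abs, abs_of_pos hs, mul_comm]
  refine mul_le_mul_of_nonneg_right ((norm_add_le _ _).trans ?_) hs.le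
  rw [norm_mul, Complex.norm_I, mul_one, Complex.norm_real, Complex.norm_real, Real.norm_eq_abs,
    Real.norm_eq_abs]
  linarith [coord l i.1 hi.1.1 hi.1.2, coord l i.2 hi.2.1 hi.2.2]

theorem orth_bV (hMOD : St_MOD) (hFE : St_FE) (hGEO : St_GEO1) (M : Model) (V : Dy)
    (hO : closedBall (ctr V) (4 * side V) ⊆ M.O) (L l : ℕ) (hL : L ≤ l) (i : ℤ × ℤ)
    (hi : i ∈ grid l) : ⟪M.eC (ctr V) (4 * side V), M.bV V L l i⟫ = 0 := by
  have hs := (hGEO.1 V).1
  have hr : (0 : ℝ) < 2 ^ L * (1 / 2) ^ l * side V := by positivity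
  have h1 : (2 : ℝ) ^ L * (1 / 2) ^ l ≤ 1 := by
    rw [one_div, inv_pow, ← div_eq_mul_inv, div_le_one (by positivity)]
    exact pow_le_pow_right₀ (by norm_num) hL
  have hc := hFE.2.2.2.2.2.2.2.2.1
    (zS V (((1 / 2 : ℝ) ^ l : ℝ) * (zc i + (1 + Complex.I) / 2))) _ hr
  rw [real_inner_comm]
  refine (hMOD M).2.2.2.2.2.2.2.2.2.1 _ _ _ _ (by positivity) le_rfl hc.1 ?_ hO
  refine measure_mono_null (compl_subset_compl.2 fun y hy => ?_) hc.2.1
  rw [mem_sphere_iff_norm] at hy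
  rw [mem_closedBall_iff_norm]
  have h2 := norm_sub_le_norm_sub_add_norm_sub y
    (zS V (((1 / 2 : ℝ) ^ l : ℝ) * (zc i + (1 + Complex.I) / 2))) (ctr V)
  have h3 := ctr_dist V hs l i hi
  have h4 := mul_le_mul_of_nonneg_right h1 hs.le
  linarith

theorem orth_eS (hMOD : St_MOD) (hFE : St_FE) (hGEO : St_GEO1) (M : Model) (V : Dy)
    (hO : closedBall (ctr V) (4 * side V) ⊆ M.O) (U : Dy) (h1 : side U = side V)
    (h2 : ‖ctr U - ctr V‖ ≤ 3 / 2 * side V) (S : Dy) :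
    ⟪M.eC (ctr V) (4 * side V), M.eS (S ++ U) - M.eC (ctr V) (4 * side V)⟫ = 0 := by
  have hs := (hGEO.1 V).1
  have hc := hFE.2.2.2.2.2.2.2.1 (S ++ U)
  rw [real_inner_comm]
  refine (hMOD M).2.2.2.2.2.2.2.2.2.1 _ _ _ _ (by positivity) le_rfl hc.1 ?_ hO
  refine measure_mono_null (compl_subset_compl.2 fun y hy => ?_) hc.2
  have hy' : y ∈ box U := (hGEO.2.2.2.2.1 _ _).2 (List.suffix_append S U) hy
  have h3 := (hGEO.2.2.2.1 U).2.2.2.1 y hy'
  rw [mem_closedBall_iff_norm]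
  have h4 := norm_sub_le_norm_sub_add_norm_sub y (ctr U) (ctr V)
  linarith

theorem X_eq (M : Model) (γ : ℝ) (V : Dy) (ω : Om) :
    M.locX γ V (M.YV γ 0 V ω) ω = M.X γ 0 ω := by
  funext A
  simp only [Model.locX, Model.YV, Model.Y, Model.X, drift, map_sub]
  ring

theorem ind_le {p q : Prop} (h : p → q) : ind p ≤ ind q := by
  unfold ind
  by_cases hp : p
  · simp [hp, h hp]
  · simp [hp]

theorem window (γ K' m η' : ℝ) (hγ : 0 < γ) (hη : 0 ≤ η') :
    ∫⁻ y, (ind (|y - m| ≤ K') * ENNReal.ofReal η') * eE (4 / γ * (0 - y)) ≤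
      ENNReal.ofReal (η' * Real.exp (4 / γ * (K' - m)) * (2 * |K'|)) := by
  calc ∫⁻ y, (ind (|y - m| ≤ K') * ENNReal.ofReal η') * eE (4 / γ * (0 - y))
      ≤ ∫⁻ y, (Icc (m - |K'|) (m + |K'|)).indicator
          (fun _ => ENNReal.ofReal (η' * Real.exp (4 / γ * (K' - m)))) y := by
        refine lintegral_mono fun y => ?_
        by_cases hy : |y - m| ≤ K'
        · have h1 := abs_le.1 hy
          have h2 := le_abs_self K'
          rw [indicator_of_mem (show y ∈ Icc (m - |K'|) (m + |K'|) from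
            ⟨by linarith [h1.1], by linarith [h1.2]⟩)]
          simp only [ind, if_pos hy, one_mul, eE]
          rw [← ENNReal.ofReal_mul hη]
          refine ENNReal.ofReal_le_ofReal (mul_le_mul_of_nonneg_left (Real.exp_le_exp.2 ?_) hη)
          exact mul_le_mul_of_nonneg_left (by linarith [h1.1]) (by positivity)
        · simp [ind, hy]
    _ = _ := by
        rw [lintegral_indicator_const measurableSet_Icc, Real.volume_Icc,
          ← ENNReal.ofReal_mul (by positivity)]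
        congr 2
        ring

end MT2

open MT2 in
theorem blk_MT2 (_hG1 : St_G1) (_hG1D : St_G1D) (_hG3 : St_G3) (hMOD : St_MOD) (hFE : St_FE)
    (_hEXP1 : St_EXP1) (hGEO : St_GEO1) (hT1 : St_T1) (hT3 : St_T3) (_hRW1 : St_RW1)
    (_hFM : St_FM) (_hR : St_R) (hTL : St_TL) (hGV : St_GV) (_hCYL : St_CYL) (_hPHI : St_PHI)
    (hTHL : St_THL) (hL : St_MT2L) : St_MT2 := by
  intro γ hγ M i0 hOk tf htf Λ G χ hΛ hG hχ s k0 K K' K1 η hK hi0 hη
  obtain ⟨Kg, hKg⟩ := (hGV γ hγ M i0 hOk).1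
  obtain ⟨_, _, -, -, hTh⟩ := hTHL Λ χ hΛ hχ
  have hTh := (hTh G hG k0).1
  set W := |Kg| * Real.exp (4 / γ * K') * (2 * |K'|) with hW
  have hW0 : 0 ≤ W := by positivity
  have hη' : 0 < η / (W + 1) := by positivity
  obtain ⟨L0, hL0⟩ := hL γ hγ tf htf Λ G χ hΛ hG hχ k0 K K' (η / (W + 1)) hK hη'
  refine ⟨L0, fun L hL1 => ?_⟩
  obtain ⟨l0, hl0, hl1⟩ := hL0 L hL1
  refine ⟨l0, hl0, fun l hl => ?_⟩
  filter_upwards [hl1 l hl, eventually_gt_atTop (0 : ℝ)] with n hn hn0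
  have hbox : box [] ⊆ M.O := fun z hz => hOk.1 z hz (mem_closedBall_self (by positivity))
  obtain ⟨_, hB⟩ := hTL.2.2.2.1
  set m := Real.log n / γ with hm
  let Ψ : Dy → ℝ × Om → ℝ≥0∞ := fun V p => ind (|p.1 - m| ≤ K') * ENNReal.ofReal
    |IV tf G χ k0 K n V (M.locX γ V p.1 p.2) / n -
      Psi γ (cc γ one) tf G χ k0 K L l (p.1 - m) fun i => p.2 (M.bV V L l i)|
  have hind : Measurable fun y : ℝ => ind (|y - m| ≤ K') :=
    (hT3.2.2.2.2.2.2.2.2.2.2.2.1 ℝ (fun y => |y - m| ≤ K')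
      (measurableSet_le (by fun_prop) measurable_const)).1
  have hΨm : ∀ V, Measurable (Ψ V) := by
    intro V
    refine (hind.comp measurable_fst).mul (Measurable.ennreal_ofReal (Measurable.abs ?_))
    refine Measurable.sub (Measurable.div_const ?_ n) ?_
    · have h1 : Measurable fun p : ℝ × Om => M.locX γ V p.1 p.2 :=
        measurable_pi_lambda _ fun A =>
          ((((meas_ev _).comp measurable_snd).add measurable_fst).sub_const _).sub_const _
      exact (meas_IV hT3 tf G χ k0 K hTh n V).comp h1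
    · exact meas_Psi' γ _ tf G χ k0 K L l hTh (measurable_fst.sub_const m)
        (measurable_pi_lambda _ fun i => (meas_ev (M.bV V L l i)).comp measurable_snd)
  have hinv : ∀ V y, i0 + 2 ≤ V.length →
      InvD (M.eC (ctr V) (4 * side V)) fun ω => Ψ V (y, ω) := by
    intro V y hV t ω
    have hO := (hB γ M i0 V hOk hV).1
    have hs := (hGEO.1 V).1
    have hsub : ∀ U, side U = side V → ‖ctr U - ctr V‖ ≤ 3 / 2 * side V →
        sub (M.locX γ V y (ω + t • dv (M.eC (ctr V) (4 * side V)))) U =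
          sub (M.locX γ V y ω) U := by
      intro U h1 h2
      funext S
      simp only [sub, Model.locX, LinearMap.add_apply, LinearMap.smul_apply, dv_apply,
        orth_eS hMOD hFE hGEO M V hO U h1 h2 S, smul_zero, add_zero]
    have e1 := IV_congr tf G χ k0 K n V (hsub V rfl (by simp; positivity)) fun U hU => by
      simp only [nbr, Finset.mem_filter] at hU
      exact hsub U (by rw [side, side, (hT1.1 _ _).1 hU.1]) hU.2
    have e2 := Psi_congr γ (cc γ one) tf G χ k0 K L l (y - m)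
      (ξ := fun i => (ω + t • dv (M.eC (ctr V) (4 * side V))) (M.bV V L l i))
      (ξ' := fun i => ω (M.bV V L l i)) fun i hi => by
        simp only [LinearMap.add_apply, LinearMap.smul_apply, dv_apply,
          orth_bV hMOD hFE hGEO M V hO L l (hl0.trans hl) i hi, smul_zero, add_zero]
    simp only [Ψ, e1, e2]
  have hbd : ∀ V y, i0 + 2 ≤ V.length → Loc K1 V → ∫⁻ ω, Ψ V (y, ω) ∂gm ≤
      ind (|y - m| ≤ K') * ENNReal.ofReal (η / (W + 1)) := by
    intro V y _ hV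
    by_cases hy : |y - m| ≤ K'
    · have h := hn M V K1 hbox hV (y - m) hy
      have e : lvl γ n + (y - m) = y := by rw [lvl, hm]; ring
      rw [e] at h
      simpa only [Ψ, ind, if_pos hy, one_mul] using h
    · simp [Ψ, ind, hy]
  have hcard : ∀ k, (((lev k).filter (Loc K1)).card : ℝ) ≤ 1 * 4 ^ k := by
    intro k
    have := Finset.card_filter_le (lev k) (Loc K1)
    rw [hT1.2.1 k] at this
    rw [one_mul]
    exact_mod_cast this
  have hD := hKg 0 1 (Loc K1) Ψ (fun y => ind (|y - m| ≤ K') * ENNReal.ofReal (η / (W + 1)))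
    zero_le_one hcard hΨm (hind.mul_const _) hinv hbd
  set D := ∑' V : Dy, ind (i0 + 2 ≤ V.length ∧ Loc K1 V) *
    ∫⁻ ω, Ψ V (M.YV γ 0 V ω, ω) ∂gm with hDd
  have hD2 : D ≤ ENNReal.ofReal (|Kg| * (η / (W + 1) * Real.exp (4 / γ * (K' - m)) *
      (2 * |K'|))) := by
    refine hD.trans ?_
    rw [ENNReal.ofReal_mul (abs_nonneg _)]
    exact mul_le_mul' (ENNReal.ofReal_le_ofReal (by rw [mul_one]; exact le_abs_self _))
      (window γ K' m _ hγ.1 hη'.le)
  have hDt : D ≠ ∞ := ne_top_of_le_ne_top ENNReal.ofReal_ne_top hD2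
  have hcmp : ∀ a b : Dy → Om → ℝ, (∀ V ω, |a V ω - b V ω| =
      |IV tf G χ k0 K n V (M.X γ 0 ω) / n - Psi γ (cc γ one) tf G χ k0 K L l (M.YV γ 0 V ω - m)
        fun i => ω (M.bV V L l i)|) →
      ∑' V : Dy, ind (Loc K1 V) * ∫⁻ ω, ind (Early (M.X γ 0 ω) s K1 V ∧ |M.YV γ 0 V ω - m| ≤ K') *
        ENNReal.ofReal (a V ω) ∂gm ≤
      ∑' V : Dy, ind (Loc K1 V) * ∫⁻ ω, ind (Early (M.X γ 0 ω) s K1 V ∧ |M.YV γ 0 V ω - m| ≤ K') *
        ENNReal.ofReal (b V ω) ∂gm + D := by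
    intro a b hab
    rw [hDd, ← ENNReal.tsum_add]
    refine ENNReal.tsum_le_tsum fun V => ?_
    by_cases hV : Loc K1 V
    · have hlen : i0 + 2 ≤ V.length := by
        have := (hGEO.2.2.2.2.2.2.2.2.2.2.2.2.1 K1 V hV).1
        omega
      have hY : Measurable fun ω : Om => Ψ V (M.YV γ 0 V ω, ω) :=
        (hΨm V).comp (((hT3.2.2.2.2.2.2.2.2.2.2.1 M γ 0).2 _ _).prodMk measurable_id)
      simp only [ind, hV, hlen, and_self, if_true, one_mul]
      rw [← lintegral_add_right _ hY]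
      refine lintegral_mono fun ω => ?_
      simp only [Ψ, X_eq, ← hab V ω]
      split_ifs with h1
      · simp only [ind, if_pos h1.2, one_mul]
        exact ofReal_le _ _
      · simp
    · simp [ind, hV]
  have h1 := hcmp (fun V ω => IV tf G χ k0 K n V (M.X γ 0 ω) / n)
    (fun V ω => Psi γ (cc γ one) tf G χ k0 K L l (M.YV γ 0 V ω - m) fun i => ω (M.bV V L l i))
    fun _ _ => rfl
  have h2 := hcmp
    (fun V ω => Psi γ (cc γ one) tf G χ k0 K L l (M.YV γ 0 V ω - m) fun i => ω (M.bV V L l i))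
    (fun V ω => IV tf G χ k0 K n V (M.X γ 0 ω) / n) fun _ _ => abs_sub_comm _ _
  have h3 := toReal_close hDt h1 h2
  have hI : M.Idl γ tf G χ s k0 K K' K1 n = n ^ (th γ + 1) *
      (∑' V : Dy, ind (Loc K1 V) * ∫⁻ ω,
        ind (Early (M.X γ 0 ω) s K1 V ∧ |M.YV γ 0 V ω - m| ≤ K') *
          ENNReal.ofReal (IV tf G χ k0 K n V (M.X γ 0 ω) / n) ∂gm).toReal := by
    have e : ∀ V : Dy, ind (Loc K1 V) * ∫⁻ ω,
        ind (Early (M.X γ 0 ω) s K1 V ∧ |M.YV γ 0 V ω - m| ≤ K') *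
          ENNReal.ofReal (IV tf G χ k0 K n V (M.X γ 0 ω) / n) ∂gm =
        ENNReal.ofReal n⁻¹ * (ind (Loc K1 V) * ∫⁻ ω,
          ind (Early (M.X γ 0 ω) s K1 V ∧ |M.YV γ 0 V ω - m| ≤ K') *
            ENNReal.ofReal (IV tf G χ k0 K n V (M.X γ 0 ω)) ∂gm) := by
      intro V
      rw [mul_left_comm, ← lintegral_const_mul' _ _ ENNReal.ofReal_ne_top]
      congr 1
      refine lintegral_congr fun ω => ?_
      rw [mul_left_comm, ← ENNReal.ofReal_mul (by positivity), div_eq_inv_mul]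
    simp only [e]
    rw [ENNReal.tsum_mul_left, ENNReal.toReal_mul, ENNReal.toReal_ofReal (by positivity),
      Real.rpow_add_one hn0.ne', ← mul_assoc, mul_assoc (n ^ th γ), mul_inv_cancel₀ hn0.ne',
      mul_one]
    rfl
  have hp : 0 < n ^ (th γ + 1) := Real.rpow_pos_of_pos hn0 _
  rw [hI, Model.Jdl, Model.Jg, ← mul_sub, abs_mul, abs_of_pos hp]
  have h4 := h3.trans (ENNReal.toReal_le_of_le_ofReal (by positivity) hD2)
  refine (mul_le_mul_of_nonneg_left h4 hp.le).trans ?_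
  have e : n ^ (th γ + 1) * Real.exp (4 / γ * (K' - m)) = Real.exp (4 / γ * K') := by
    rw [Real.rpow_def_of_pos hn0, ← Real.exp_add, hm, th]
    congr 1
    have := hγ.1.ne'
    field_simp
    ring
  calc n ^ (th γ + 1) * (|Kg| * (η / (W + 1) * Real.exp (4 / γ * (K' - m)) * (2 * |K'|)))
      = η / (W + 1) * (|Kg| * (n ^ (th γ + 1) * Real.exp (4 / γ * (K' - m))) * (2 * |K'|)) := by
        ring
    _ = η / (W + 1) * W := by rw [e]
    _ ≤ η := by
        rw [div_mul_eq_mul_div, div_le_iff₀ (by positivity)]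
        nlinarith

end

end Pool.Agent.Lib.APPS
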