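import Pool.Agent.Lib.APPS.Blue4

/-!
Block MT3: factorisation of the discretised large-scale functional.
-/

namespace Pool.Agent.Lib.APPS

open MeasureTheory ProbabilityTheory Filter Topology Set Metric
open scoped NNReal ENNReal CompactlySupported BoundedContinuousFunction RealInnerProductSpace
  Classical

noncomputable section

namespace MT3

/-- extension by zero of a family indexed by the grid -/
def ext (l : ℕ) (ξ : grid l → ℝ) (i : ℤ × ℤ) : ℝ := if h : i ∈ grid l then ξ ⟨i, h⟩ else 0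

theorem gin_sub (l : ℕ) : gin l ⊆ grid l := by
  intro i hi
  simp only [gin, grid, Finset.mem_product, Finset.mem_Ico] at hi ⊢
  have h2 : (0 : ℤ) < 2 ^ l := by positivity
  have h3 : (2 : ℤ) ^ (l + 1) = 2 * 2 ^ l := by ring
  refine ⟨⟨?_, ?_⟩, ?_, ?_⟩ <;> linarith [hi.1.1, hi.1.2, hi.2.1, hi.2.2]

theorem gsum_congr (γ c : ℝ) (K L l : ℕ) (y : ℝ) (ξ ξ' : ℤ × ℤ → ℝ)
    (h : ∀ i ∈ grid l, ξ i = ξ' i) (i : ℤ × ℤ) (f : Cyl → ℝ) :
    gsum γ c K L l y ξ i f = gsum γ c K L l y ξ' i f := by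
  unfold gsum
  refine Finset.sum_congr rfl fun i' hi' => ?_
  rw [h i' (Finset.mem_of_mem_erase hi')]

theorem Psi_congr (γ c : ℝ) (tf : ℕ → C_c(Cyl, ℝ)) (G : (ℕ → ℝ) → ℝ) (χ : ℝ → ℝ)
    (k0 K L l : ℕ) (y : ℝ) (ξ ξ' : ℤ × ℤ → ℝ) (h : ∀ i ∈ grid l, ξ i = ξ' i) :
    Psi γ c tf G χ k0 K L l y ξ = Psi γ c tf G χ k0 K L l y ξ' := by
  unfold Psi
  refine Finset.sum_congr rfl fun i hi => ?_
  rw [h i (gin_sub l hi), gsum_congr γ c K L l y ξ ξ' h i]
  congr 2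
  funext k
  exact gsum_congr γ c K L l y ξ ξ' h i _

theorem Psi_ext (γ c : ℝ) (tf : ℕ → C_c(Cyl, ℝ)) (G : (ℕ → ℝ) → ℝ) (χ : ℝ → ℝ)
    (k0 K L l : ℕ) (y : ℝ) (ξ : ℤ × ℤ → ℝ) :
    Psi γ c tf G χ k0 K L l y (ext l fun i => ξ i) = Psi γ c tf G χ k0 K L l y ξ := by
  refine Psi_congr γ c tf G χ k0 K L l y _ _ fun i hi => ?_
  simp [ext, hi]

theorem wt_nonneg (γ c : ℝ) (hc : 0 ≤ c) (L l : ℕ) (y ξ : ℝ) : 0 ≤ wt γ c L l y ξ := by
  unfold wt
  positivity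

theorem meas_wt {α : Type*} [MeasurableSpace α] (γ c : ℝ) (L l : ℕ) {y ξ : α → ℝ}
    (hy : Measurable y) (hξ : Measurable ξ) : Measurable fun a => wt γ c L l (y a) (ξ a) := by
  unfold wt
  fun_prop

theorem meas_gsum {α : Type*} [MeasurableSpace α] (γ c : ℝ) (K L l : ℕ) {y : α → ℝ}
    {ξ : α → ℤ × ℤ → ℝ} (hy : Measurable y) (hξ : ∀ i, Measurable fun a => ξ a i)
    (i : ℤ × ℤ) (f : Cyl → ℝ) : Measurable fun a => gsum γ c K L l (y a) (ξ a) i f := by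
  unfold gsum
  refine Finset.measurable_sum _ fun i' _ => ?_
  exact (meas_wt γ c L l hy (hξ i')).mul_const _

theorem meas_Psi {α : Type*} [MeasurableSpace α] (γ c : ℝ) (tf : ℕ → C_c(Cyl, ℝ))
    (G : (ℕ → ℝ) → ℝ) (χ : ℝ → ℝ) (k0 K L l : ℕ)
    (hTh : Measurable fun p : ℝ × (ℕ → ℝ) => Th G χ k0 p.1 p.2) {y : α → ℝ}
    {ξ : α → ℤ × ℤ → ℝ} (hy : Measurable y) (hξ : ∀ i, Measurable fun a => ξ a i) :
    Measurable fun a => Psi γ c tf G χ k0 K L l (y a) (ξ a) := by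
  unfold Psi
  refine Finset.measurable_sum _ fun i _ => ?_
  refine (meas_wt γ c L l hy (hξ i)).mul ?_
  have h1 : Measurable fun a => (gsum γ c K L l (y a) (ξ a) i (f0 K),
      fun k => gsum γ c K L l (y a) (ξ a) i (tf k)) :=
    (meas_gsum γ c K L l hy hξ i _).prodMk
      (measurable_pi_lambda _ fun k => meas_gsum γ c K L l hy hξ i _)
  exact hTh.comp h1

theorem meas_ext (l : ℕ) (i : ℤ × ℤ) : Measurable fun p : ℝ × (grid l → ℝ) => ext l p.2 i := by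
  unfold ext
  by_cases h : i ∈ grid l
  · simp only [h, dite_true]
    exact (measurable_pi_apply _).comp measurable_snd
  · simp only [h, dite_false]
    exact measurable_const

theorem hat_le (hCYL : St_CYL) (K : ℕ) (hK : 2 ≤ K) (w : Cyl) : 0 ≤ hat0 w ∧ hat0 w ≤ f0 K w := by
  obtain ⟨-, -, -, -, -, -, -, -, -, -, -, -, -, -, -, h16, h17, -⟩ := hCYL
  refine ⟨(h16 w).1, ?_⟩
  by_cases h : hat0 w = 0
  · rw [h]; exact (h17 K w).1
  · have h1 := (h16 w).2.2 h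
    have hl : 0 < l2 := Real.log_pos (by norm_num)
    have hK' : (2 : ℝ) ≤ K := by exact_mod_cast hK
    have h2 : |w.1| ≤ K * l2 := by
      rw [abs_le]; constructor <;> nlinarith [h1.1, h1.2]
    rw [(h17 K w).2.2.1 h2]
    exact (h16 w).2.1

theorem Psi_bd (hCYL : St_CYL) (γ c : ℝ) (hc : 0 ≤ c) (tf : ℕ → C_c(Cyl, ℝ)) (htf : IsTF tf)
    (G : (ℕ → ℝ) → ℝ) (χ : ℝ → ℝ) (k0 K L l : ℕ) (hK : 2 ≤ K)
    (h3 : ∀ τ s, 0 ≤ s 0 → 0 ≤ Th G χ k0 τ s ∧ Th G χ k0 τ s ≤ 2 * s 0)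
    (h4 : ∀ τ s, 0 ≤ s 0 → s 0 ≤ τ → Th G χ k0 τ s ≤ 2) (y : ℝ) (ξ : ℤ × ℤ → ℝ) :
    0 ≤ Psi γ c tf G χ k0 K L l y ξ ∧
      Psi γ c tf G χ k0 K L l y ξ ≤ ∑ i ∈ gin l, wt γ c L l y (ξ i) * 2 := by
  have hs : ∀ i, 0 ≤ gsum γ c K L l y ξ i (tf 0) ∧
      gsum γ c K L l y ξ i (tf 0) ≤ gsum γ c K L l y ξ i (f0 K) := by
    intro i
    unfold gsum
    constructor
    · refine Finset.sum_nonneg fun i' _ => mul_nonneg (wt_nonneg γ c hc L l _ _) ?_
      rw [htf.zero]; exact (hat_le hCYL K hK _).1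
    · refine Finset.sum_le_sum fun i' _ => mul_le_mul_of_nonneg_left ?_ (wt_nonneg γ c hc L l _ _)
      rw [htf.zero]; exact (hat_le hCYL K hK _).2
  unfold Psi
  constructor
  · refine Finset.sum_nonneg fun i _ => mul_nonneg (wt_nonneg γ c hc L l _ _) ?_
    exact (h3 _ (fun k => gsum γ c K L l y ξ i (tf k)) (hs i).1).1
  · refine Finset.sum_le_sum fun i _ => mul_le_mul_of_nonneg_left ?_ (wt_nonneg γ c hc L l _ _)
    exact h4 _ (fun k => gsum γ c K L l y ξ i (tf k)) (hs i).1 (hs i).2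

/-- second moment bound -/
theorem L2_bd (hG1D : St_G1D) (γ c : ℝ) (hγ : 0 < γ) (hc : 0 ≤ c) (L l : ℕ) (K' : ℝ)
    (b : ℤ × ℤ → HH) : ∃ B : ℝ, ∀ y, |y| ≤ K' → ∀ P : Om → ℝ, (∀ ω, 0 ≤ P ω) →
      (∀ ω, P ω ≤ ∑ i ∈ gin l, wt γ c L l y (ω (b i)) * 2) →
      ∫⁻ ω, ENNReal.ofReal (P ω) ^ 2 ∂gm ≤ ENNReal.ofReal B := by
  set A : ℝ := c * (4 : ℝ) ^ (-(γ * QQ γ)) * Real.exp (γ * K') * (1 / 4 : ℝ) ^ l *
    (2 ^ L * (1 / 2 : ℝ) ^ l) ^ (γ ^ 2 / 2) * 2 with hA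
  have hA0 : 0 ≤ A := by rw [hA]; positivity
  set N : ℝ := ((gin l).card : ℝ) with hN
  have hN0 : 0 ≤ N := by rw [hN]; positivity
  refine ⟨∑ i ∈ gin l, A ^ 2 * N * Real.exp (‖(2 * γ) • b i‖ ^ 2 / 2), fun y hy P hP0 hP => ?_⟩
  have key : ∀ ω : Om, ENNReal.ofReal (P ω) ^ 2 ≤
      ∑ i ∈ gin l, ENNReal.ofReal (A ^ 2 * N) * eE (ω ((2 * γ) • b i)) := by
    intro ω
    have h1 : P ω ≤ A * ∑ i ∈ gin l, Real.exp (γ * ω (b i)) := by
      refine (hP ω).trans ?_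
      rw [Finset.mul_sum]
      refine Finset.sum_le_sum fun i _ => ?_
      have he : Real.exp (γ * y) ≤ Real.exp (γ * K') :=
        Real.exp_le_exp.2 (mul_le_mul_of_nonneg_left ((le_abs_self y).trans hy) hγ.le)
      have e1 : wt γ c L l y (ω (b i)) * 2 = (c * (4 : ℝ) ^ (-(γ * QQ γ)) * (1 / 4 : ℝ) ^ l *
          (2 ^ L * (1 / 2 : ℝ) ^ l) ^ (γ ^ 2 / 2) * 2 * Real.exp (γ * ω (b i))) *
          Real.exp (γ * y) := by unfold wt; ring
      have e2 : A * Real.exp (γ * ω (b i)) = (c * (4 : ℝ) ^ (-(γ * QQ γ)) * (1 / 4 : ℝ) ^ l *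
          (2 ^ L * (1 / 2 : ℝ) ^ l) ^ (γ ^ 2 / 2) * 2 * Real.exp (γ * ω (b i))) *
          Real.exp (γ * K') := by rw [hA]; ring
      rw [e1, e2]
      exact mul_le_mul_of_nonneg_left he (by positivity)
    have h2 : (∑ i ∈ gin l, Real.exp (γ * ω (b i))) ^ 2 ≤
        N * ∑ i ∈ gin l, Real.exp (γ * ω (b i)) ^ 2 := sq_sum_le_card_mul_sum_sq
    have h3 : P ω ^ 2 ≤ ∑ i ∈ gin l, A ^ 2 * N * Real.exp (ω ((2 * γ) • b i)) := by
      have e : ∀ i, Real.exp (ω ((2 * γ) • b i)) = Real.exp (γ * ω (b i)) ^ 2 := by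
        intro i
        rw [map_smul, smul_eq_mul, ← Real.exp_nat_mul]
        congr 1; push_cast; ring
      simp only [e]
      rw [← Finset.mul_sum]
      calc P ω ^ 2 ≤ (A * ∑ i ∈ gin l, Real.exp (γ * ω (b i))) ^ 2 :=
            pow_le_pow_left₀ (hP0 ω) h1 2
        _ = A ^ 2 * (∑ i ∈ gin l, Real.exp (γ * ω (b i))) ^ 2 := by ring
        _ ≤ A ^ 2 * (N * ∑ i ∈ gin l, Real.exp (γ * ω (b i)) ^ 2) :=
            mul_le_mul_of_nonneg_left h2 (by positivity)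
        _ = _ := by ring
    rw [← ENNReal.ofReal_pow (hP0 ω)]
    refine (ENNReal.ofReal_le_ofReal h3).trans ?_
    rw [ENNReal.ofReal_sum_of_nonneg fun i _ => by positivity]
    refine le_of_eq (Finset.sum_congr rfl fun i _ => ?_)
    rw [ENNReal.ofReal_mul (by positivity)]
    rfl
  refine (lintegral_mono key).trans ?_
  have hm : ∀ v : HH, Measurable fun ω : Om => eE (ω v) := fun v =>
    ENNReal.measurable_ofReal.comp (Real.measurable_exp.comp (meas_ev v))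
  rw [lintegral_finsetSum _ fun i _ => (hm _).const_mul _,
    ENNReal.ofReal_sum_of_nonneg fun i _ => by positivity]
  refine le_of_eq (Finset.sum_congr rfl fun i _ => ?_)
  rw [lintegral_const_mul _ (hm _), hG1D.1,
    ENNReal.ofReal_mul (show 0 ≤ A ^ 2 * N by positivity)]
  rfl

/-- relative position of the cell centre -/
def pt (l : ℕ) (i : ℤ × ℤ) : ℂ := (((1 / 2 : ℝ) ^ l : ℝ) : ℂ) * (zc i + (1 + Complex.I) / 2)

def rd (L l : ℕ) : ℝ := 2 ^ L * (1 / 2 : ℝ) ^ l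

theorem rd_pos (L l : ℕ) : 0 < rd L l := by unfold rd; positivity

theorem rd_le (L l : ℕ) (h : L ≤ l) : rd L l ≤ 1 := by
  unfold rd
  rw [one_div, inv_pow, ← div_eq_mul_inv, div_le_one (by positivity)]
  exact pow_le_pow_right₀ (by norm_num) h

theorem ctr_nil : ctr [] = (1 + Complex.I) / 2 := by
  simp [ctr, corner, side]; ring

theorem pt_near (l : ℕ) (i : ℤ × ℤ) (hi : i ∈ grid l) : ‖pt l i - ctr []‖ ≤ 3 := by
  simp only [grid, Finset.mem_product, Finset.mem_Ico] at hi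
  have hp : (0 : ℝ) < 2 ^ l := by positivity
  have key : ∀ m : ℤ, -2 ^ l ≤ m → m < 2 ^ (l + 1) →
      |(1 / 2 : ℝ) ^ l * ((m : ℝ) + 1 / 2) - 1 / 2| ≤ 3 / 2 := by
    intro m h1 h2
    have h1' : -(2 : ℝ) ^ l ≤ m := by exact_mod_cast h1
    have h2' : (m : ℝ) + 1 ≤ 2 * 2 ^ l := by
      have : m + 1 ≤ 2 * 2 ^ l := by rw [pow_succ] at h2; linarith
      exact_mod_cast this
    have e : (1 / 2 : ℝ) ^ l * ((m : ℝ) + 1 / 2) = ((m : ℝ) + 1 / 2) / 2 ^ l := by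
      rw [one_div, inv_pow]; ring
    rw [e, abs_le]
    constructor
    · have : -1 ≤ ((m : ℝ) + 1 / 2) / 2 ^ l := by
        rw [le_div_iff₀ hp]; linarith
      linarith
    · have : ((m : ℝ) + 1 / 2) / 2 ^ l ≤ 2 := by
        rw [div_le_iff₀ hp]; linarith
      linarith
  have hre : (pt l i - ctr []).re = (1 / 2 : ℝ) ^ l * ((i.1 : ℝ) + 1 / 2) - 1 / 2 := by
    rw [ctr_nil]
    simp only [pt, zc, Complex.sub_re, Complex.re_ofReal_mul]
    simp
  have him : (pt l i - ctr []).im = (1 / 2 : ℝ) ^ l * ((i.2 : ℝ) + 1 / 2) - 1 / 2 := by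
    rw [ctr_nil]
    simp only [pt, zc, Complex.sub_im, Complex.im_ofReal_mul]
    simp
  refine (Complex.norm_le_abs_re_add_abs_im _).trans ?_
  rw [hre, him]
  linarith [key i.1 hi.1.1 hi.1.2, key i.2 hi.2.1 hi.2.2]

theorem bV_eq (M : Model) (V : Dy) (L l : ℕ) (i : ℤ × ℤ) :
    M.bV V L l i = M.e (circ (zS V (pt l i)) (rd L l * side V)) -
      M.e (circ (ctr V) (4 * side V)) := rfl

theorem circ_map (hEXP1 : St_EXP1) (hGEO1 : St_GEO1) (V : Dy) (p : ℂ) (r : ℝ) :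
    circ (zS V p) (r * side V) = (circ p r).map fun x => corner V + ((side V : ℝ) : ℂ) * x := by
  rw [(hEXP1.2.1 p r (corner V) (side V) (hGEO1.1 V).1).1, mul_comm r]
  rfl

theorem ctr_eq (hGEO1 : St_GEO1) (V : Dy) : ctr V = zS V (ctr []) := by
  have := (hGEO1.2.2.1 [] V).2.1
  simpa using this

theorem gram_bV (hMOD : St_MOD) (hFE : St_FE) (hEXP1 : St_EXP1) (hGEO1 : St_GEO1) (M : Model)
    (V : Dy) (L l : ℕ) (i j : ℤ × ℤ) :
    ⟪M.bV V L l i, M.bV V L l j⟫ =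
      Ie (circ (pt l i) (rd L l)) (circ (pt l j) (rd L l)) -
        Ie (circ (pt l i) (rd L l)) (circ (ctr []) 4) -
        Ie (circ (ctr []) 4) (circ (pt l j) (rd L l)) +
        Ie (circ (ctr []) 4) (circ (ctr []) 4) := by
  obtain ⟨-, -, -, -, -, -, -, -, h9, -, h11, h12⟩ := hFE
  have hs := (hGEO1.1 V).1
  have hρ : ((side V : ℝ) : ℂ) ≠ 0 := by exact_mod_cast hs.ne'
  have p1 : ∀ k, PFE (circ (pt l k) (rd L l)) := fun k => (h9 _ _ (rd_pos L l)).1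
  have p2 : PFE (circ (ctr []) 4) := (h9 _ _ (by norm_num)).1
  rw [bV_eq, bV_eq, ctr_eq hGEO1 V, circ_map hEXP1 hGEO1, circ_map hEXP1 hGEO1,
    circ_map hEXP1 hGEO1]
  rw [(hMOD M).2.2.2.2.1 _ _ _ _ (h11 _ _ _ hρ (p1 i)) (h11 _ _ _ hρ p2) (h11 _ _ _ hρ (p1 j))
    (h11 _ _ _ hρ p2), h12 _ _ _ _ hρ (p1 i) (p1 j), h12 _ _ _ _ hρ (p1 i) p2,
    h12 _ _ _ _ hρ p2 (p1 j), h12 _ _ _ _ hρ p2 p2]
  ring

theorem supp_small (hFE : St_FE) (hGEO1 : St_GEO1) (V : Dy) (L l : ℕ) (hL : L ≤ l) (i : ℤ × ℤ)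
    (hi : i ∈ grid l) :
    circ (zS V (pt l i)) (rd L l * side V) (closedBall (ctr V) (4 * side V))ᶜ = 0 := by
  obtain ⟨-, -, -, -, -, -, -, -, h9, -⟩ := hFE
  have hs := (hGEO1.1 V).1
  refine measure_mono_null (compl_subset_compl.2 ?_)
    (h9 _ _ (mul_pos (rd_pos L l) hs)).2.1
  intro x hx
  rw [mem_sphere_iff_norm] at hx
  rw [mem_closedBall_iff_norm]
  have e : zS V (pt l i) - ctr V = ((side V : ℝ) : ℂ) * (pt l i - ctr []) := by
    rw [ctr_eq hGEO1 V]; unfold zS; ring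
  have h1 : ‖zS V (pt l i) - ctr V‖ ≤ 3 * side V := by
    rw [e, norm_mul, Complex.norm_real, Real.norm_eq_abs, abs_of_pos hs, mul_comm]
    exact mul_le_mul_of_nonneg_right (pt_near l i hi) hs.le
  have h2 : rd L l * side V ≤ side V := by
    have := mul_le_mul_of_nonneg_right (rd_le L l hL) hs.le
    linarith
  calc ‖x - ctr V‖ = ‖(x - zS V (pt l i)) + (zS V (pt l i) - ctr V)‖ := by congr 1; ring
    _ ≤ ‖x - zS V (pt l i)‖ + ‖zS V (pt l i) - ctr V‖ := norm_add_le _ _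
    _ ≤ 4 * side V := by rw [hx]; linarith

theorem supp_big (hFE : St_FE) (hGEO1 : St_GEO1) (V : Dy) :
    circ (ctr V) (4 * side V) (closedBall (ctr V) (4 * side V))ᶜ = 0 := by
  obtain ⟨-, -, -, -, -, -, -, -, h9, -⟩ := hFE
  have hs := (hGEO1.1 V).1
  exact measure_mono_null (compl_subset_compl.2 sphere_subset_closedBall)
    (h9 _ _ (by positivity)).2.1

theorem ball_sub (hGEO1 : St_GEO1) (M : Model) (i0 : ℕ) (hM : M.Ok i0) (K1 : ℕ) (V : Dy)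
    (hV : Loc K1 V) : closedBall (ctr V) (4 * side V) ⊆ M.O := by
  intro x hx
  have h1 : x ∈ box (anc K1 V) := interior_subset (hV hx)
  have h2 : x ∈ box [] := (hGEO1.2.2.2.2.1 _ []).2 List.nil_suffix h1
  exact hM.1 x h2 (mem_closedBall_self (by positivity))

/-- averages of a Lipschitz function against two probability measures on a small ball -/
theorem avg_close (f : ℂ → ℝ) (Kf : ℝ) (hK : 0 ≤ Kf) (hf : ∀ z z', |f z - f z'| ≤ Kf * ‖z - z'‖)
    (c : ℂ) (r : ℝ) (μ : Measure ℂ) [IsProbabilityMeasure μ] (hμ : μ (closedBall c r)ᶜ = 0) :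
    |∫ x, f x ∂μ - f c| ≤ Kf * r := by
  have hae : ∀ᵐ x ∂μ, x ∈ closedBall c r := by
    rw [ae_iff]; exact hμ
  have hb : ∀ᵐ x ∂μ, ‖f x - f c‖ ≤ Kf * r := by
    filter_upwards [hae] with x hx
    rw [mem_closedBall_iff_norm] at hx
    exact (hf x c).trans (mul_le_mul_of_nonneg_left hx hK)
  have hc : Continuous f := by
    have : LipschitzWith (Real.toNNReal Kf) f := by
      refine LipschitzWith.of_dist_le_mul fun x y => ?_
      rw [Real.coe_toNNReal _ hK, Real.dist_eq, dist_eq_norm]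
      exact hf x y
    exact this.continuous
  have hi : Integrable (fun x => f x - f c) μ :=
    Integrable.of_bound (hc.sub continuous_const).aestronglyMeasurable _ hb
  have hi2 : Integrable f μ := by
    have := hi.add (integrable_const (f c))
    refine this.congr (Eventually.of_forall fun x => ?_)
    simp
  have e : ∫ x, f x ∂μ - f c = ∫ x, (f x - f c) ∂μ := by
    rw [integral_sub hi2 (integrable_const _)]
    simp
  rw [e]
  have := norm_integral_le_of_norm_le_const hb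
  simpa using this

theorem cross_bd (hMOD : St_MOD) (hFE : St_FE) (hEXP2 : St_EXP2) (hGEO1 : St_GEO1) :
    ∃ C : ℝ, 0 ≤ C ∧ ∀ (M : Model) (V : Dy), closedBall (ctr V) (4 * side V) ⊆ M.O →
      ∀ (L l : ℕ), L ≤ l → ∀ i ∈ grid l, ∀ A : Dy,
        |⟪M.bV V L l i, M.eS A⟫| ≤ C / side A * side V := by
  obtain ⟨-, -, -, -, -, C, hC, -, hlip, -⟩ := hEXP2
  refine ⟨8 * C, by positivity, fun M V hV L l hL i hi A => ?_⟩
  have hFE' := hFE
  obtain ⟨-, -, -, -, h5, -, -, h8, h9, -⟩ := hFE'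
  have hs := (hGEO1.1 V).1
  have hA := (hGEO1.1 A).1
  have p1 : PFE (circ (zS V (pt l i)) (rd L l * side V)) := (h9 _ _ (mul_pos (rd_pos L l) hs)).1
  have p2 : PFE (circ (ctr V) (4 * side V)) := (h9 _ _ (by positivity)).1
  have s1 := supp_small hFE hGEO1 V L l hL i hi
  have s2 := supp_big hFE hGEO1 V
  have o1 := measure_mono_null (compl_subset_compl.2 hV) s1
  have o2 := measure_mono_null (compl_subset_compl.2 hV) s2
  rw [bV_eq, Model.eS, (hMOD M).2.2.2.2.2.1 _ _ _ p1 p2 (h8 A).1 o1 o2,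
    (h5 _ _ p1.1 (h8 A).1.1).2, (h5 _ _ p2.1 (h8 A).1.1).2]
  have := p1.2
  have := p2.2
  have a1 := avg_close (potS A) (C / side A) (by positivity) (hlip A) _ _ _ s1
  have a2 := avg_close (potS A) (C / side A) (by positivity) (hlip A) _ _ _ s2
  change |∫ x, potS A x ∂_ - ∫ x, potS A x ∂_| ≤ _
  rw [abs_le] at a1 a2 ⊢
  have e : 8 * C / side A * side V = 2 * (C / side A * (4 * side V)) := by ring
  rw [e]
  constructor <;> linarith [a1.1, a1.2, a2.1, a2.2]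

end MT3

open MT3 in
theorem blk_MT3 (_hG1 : St_G1) (hG1D : St_G1D) (_hG3 : St_G3) (hMOD : St_MOD) (hFE : St_FE)
    (hEXP1 : St_EXP1) (hEXP2 : St_EXP2) (hGEO1 : St_GEO1) (hR : St_R) (hCYL : St_CYL)
    (_hPHI : St_PHI) (hTHL : St_THL) (hFAC : St_FAC) : St_MT3 := by
  intro γ hγ M i0 hM s K' K1 hK1
  obtain ⟨a, ha0, ha⟩ := hFAC γ hγ M i0 hM s K' K1 hK1
  refine ⟨a, ha0, fun tf htf Λ G χ hΛ hG hχ k0 K L l η hK hL hη => ?_⟩
  obtain ⟨CT, β, -, -, hT⟩ := hTHL Λ χ hΛ hχ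
  obtain ⟨hTm, -, hT3, hT4, -⟩ := hT G hG k0
  have hc : 0 ≤ cc γ one := (hR γ hγ).2.1 one
  obtain ⟨C, hC0, hC⟩ := cross_bd hMOD hFE hEXP2 hGEO1
  obtain ⟨B, hB⟩ := L2_bd hG1D γ (cc γ one) hγ.1 hc L l K' (fun i => M.bV [] L l i)
  have hPb := Psi_bd hCYL γ (cc γ one) hc tf htf G χ k0 K L l hK hT3 hT4
  filter_upwards [ha (grid l) (fun i => M.bV [] L l i) (C * 2 ^ K1) B η hη] with n hn
  have hmψ : Measurable fun p : ℝ × (grid l → ℝ) =>
      ENNReal.ofReal (Psi γ (cc γ one) tf G χ k0 K L l p.1 (ext l p.2)) :=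
    ENNReal.measurable_ofReal.comp
      (meas_Psi γ (cc γ one) tf G χ k0 K L l hTm measurable_fst (meas_ext l))
  have h := hn (fun V i => M.bV V L l i)
    (fun p => ENNReal.ofReal (Psi γ (cc γ one) tf G χ k0 K L l p.1 (ext l p.2))) hmψ ?_ ?_
  · have e1 : ∀ (V : Dy) (y : ℝ) (ω : Om), Psi γ (cc γ one) tf G χ k0 K L l y
        (ext l fun i : grid l => ω (M.bV V L l i)) =
        Psi γ (cc γ one) tf G χ k0 K L l y fun i => ω (M.bV V L l i) := fun V y ω =>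
      Psi_ext γ (cc γ one) tf G χ k0 K L l y fun i => ω (M.bV V L l i)
    simp only [e1] at h
    have e2 : ∀ y : ℝ, (∫⁻ ω, ENNReal.ofReal
        (Psi γ (cc γ one) tf G χ k0 K L l y fun i => ω (M.bV [] L l i)) ∂gm).toReal =
        ∫ ω, Psi γ (cc γ one) tf G χ k0 K L l y (fun i => ω (M.bV [] L l i)) ∂gm := by
      intro y
      rw [integral_eq_lintegral_of_nonneg_ae (Eventually.of_forall fun ω => (hPb y _).1)]
      exact (meas_Psi γ (cc γ one) tf G χ k0 K L l hTm measurable_const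
        fun i => meas_ev _).aestronglyMeasurable
    simp only [e2] at h
    exact h
  · intro V hV
    have hO := ball_sub hGEO1 M i0 hM K1 V hV
    have hs := (hGEO1.1 V).1
    refine ⟨fun i j => ?_, fun i => ?_, fun i l' hl' => ?_⟩
    · rw [gram_bV hMOD hFE hEXP1 hGEO1, gram_bV hMOD hFE hEXP1 hGEO1]
    · have hFE' := hFE
      obtain ⟨-, -, -, -, -, -, -, -, h9, -⟩ := hFE'
      exact (hMOD M).2.2.2.2.2.2.2.2.2.1 (ctr V) (4 * side V) (4 * side V) _ (by positivity)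
        le_rfl (h9 _ _ (mul_pos (rd_pos L l) hs)).1 (supp_small hFE hGEO1 V L l hL i i.2) hO
    · refine (hC M V hO L l hL i i.2 (anc l' V)).trans (mul_le_mul_of_nonneg_right ?_ hs.le)
      have hlen : (anc l' V).length ≤ K1 := by
        rw [(hGEO1.2.2.2.2.2.2.2.2.2.2.2.2.2.1 l' V).2]
        exact (min_le_left _ _).trans hl'
      unfold side
      rw [one_div, inv_pow, div_inv_eq_mul]
      exact mul_le_mul_of_nonneg_left (pow_le_pow_right₀ (by norm_num) hlen) hC0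
  · intro y hy
    refine hB y hy (fun ω => Psi γ (cc γ one) tf G χ k0 K L l y
      (ext l fun i : grid l => ω (M.bV [] L l i))) (fun ω => (hPb y _).1) fun ω => ?_
    rw [Psi_ext γ (cc γ one) tf G χ k0 K L l y fun i => ω (M.bV [] L l i)]
    exact (hPb y _).2

end

end Pool.Agent.Lib.APPS
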