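import Pool.Agent.Lib.APPS.B_MT4ab

/-!
Block MT4a: from the unrooted lattice functional to the rooted one.
-/

namespace Pool.Agent.Lib.APPS

open MeasureTheory ProbabilityTheory Filter Topology Set Metric
open scoped NNReal ENNReal CompactlySupported BoundedContinuousFunction RealInnerProductSpace
  Classical

noncomputable section

namespace MT4a

theorem ind_le_one (p : Prop) : ind p ≤ 1 := by unfold ind; split_ifs <;> simp

theorem sand {a T : ℝ} (ha : 0 ≤ a) (hT : 0 ≤ T) (X : Om → ℝ) (hX : Measurable X)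
    (Φ : ℝ → Om → ℝ≥0∞) (hΦ2 : ∀ y ω, Φ y ω ≤ 2) (Ψ : ℝ → ℝ≥0∞) (δ τ : ℝ≥0∞)
    (h1 : ∀ y, ∫⁻ ω, Φ y ω ∂gm ≤ Ψ y + δ) (h2 : ∀ y, Ψ y ≤ ∫⁻ ω, Φ y ω ∂gm + δ)
    (h3 : ∀ y, eE (-(2 * a) * y) * ∫⁻ ω, ind (T / 4 + |y| / 4 ≤ |X ω|) * 2 ∂gm ≤
      τ * eE (-|y|)) :
    (∫⁻ y, eE (-(2 * a) * y) * ∫⁻ ω, ind (|y - X ω| ≤ T) * Φ y ω ∂gm ≤
      (∫⁻ y in Icc (-(2 * T)) (2 * T), eE (-(2 * a) * y) * Ψ y) +
        (δ * eE (4 * a * T) * ENNReal.ofReal (4 * T) + τ * ∫⁻ y : ℝ, eE (-|y|))) ∧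
    ∫⁻ y in Icc (-(T / 2)) (T / 2), eE (-(2 * a) * y) * Ψ y ≤
      (∫⁻ y, eE (-(2 * a) * y) * ∫⁻ ω, ind (|y - X ω| ≤ T) * Φ y ω ∂gm) +
        (δ * eE (4 * a * T) * ENNReal.ofReal (4 * T) + τ * ∫⁻ y : ℝ, eE (-|y|)) := by
  have m1 : Measurable fun y : ℝ => ind (|y| ≤ 2 * T) * (δ * eE (4 * a * T)) :=
    (meas_ind (measurableSet_le measurable_abs measurable_const)).mul_const _
  have m2 : Measurable fun y : ℝ => eE (-|y|) := meas_eE.comp measurable_abs.neg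
  have he : ∫⁻ y : ℝ, (ind (|y| ≤ 2 * T) * (δ * eE (4 * a * T)) + τ * eE (-|y|)) =
      δ * eE (4 * a * T) * ENNReal.ofReal (4 * T) + τ * ∫⁻ y : ℝ, eE (-|y|) := by
    rw [lintegral_add_left m1, lintegral_const_mul _ m2, ← lint_Icc, setLIntegral_const,
      Real.volume_Icc, show 2 * T - -(2 * T) = 4 * T by ring]
  have hw : ∀ y, |y| ≤ 2 * T → eE (-(2 * a) * y) * δ ≤ δ * eE (4 * a * T) := by
    intro y hy
    rw [mul_comm]
    refine mul_le_mul_right (eE_mono ?_) _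
    nlinarith [neg_le_abs y]
  have mb : ∀ y : ℝ, Measurable fun ω => ind (T / 4 + |y| / 4 ≤ |X ω|) * 2 := fun y =>
    (meas_ind (measurableSet_le measurable_const hX.abs)).mul_const _
  rw [← he, lint_Icc, lint_Icc, ← lintegral_add_right _ (m1.fun_add (m2.const_mul τ)),
    ← lintegral_add_right _ (m1.fun_add (m2.const_mul τ))]
  refine ⟨lintegral_mono fun y => ?_, lintegral_mono fun y => ?_⟩
  · by_cases hy : |y| ≤ 2 * T
    · rw [ind_pos hy, one_mul, one_mul, ← add_assoc]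
      refine le_trans ?_ le_self_add
      refine le_trans ?_ (add_le_add_right (hw y hy) _)
      rw [← mul_add]
      refine mul_le_mul_right (le_trans (lintegral_mono fun ω => ?_) (h1 y)) _
      exact mul_le_of_le_one_left' (ind_le_one _)
    · refine le_trans ?_ (le_trans (h3 y) (le_trans le_add_self le_add_self))
      refine mul_le_mul_right (lintegral_mono fun ω => ?_) _
      by_cases hb : |y - X ω| ≤ T
      · have h4 := abs_sub_abs_le_abs_sub y (X ω)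
        rw [ind_pos hb, ind_pos (by linarith [not_le.1 hy])]
        exact mul_le_mul_right (hΦ2 y ω) _
      · rw [ind_neg hb, zero_mul]; exact zero_le
  · by_cases hy : |y| ≤ T / 2
    · have hy2 : |y| ≤ 2 * T := by linarith
      rw [ind_pos hy, ind_pos hy2, one_mul, one_mul, add_comm (δ * _), ← add_assoc]
      refine le_trans ?_ (add_le_add (add_le_add_right (h3 y) _) (hw y hy2))
      rw [← mul_add, ← mul_add, ← lintegral_add_right _ (mb y)]
      refine mul_le_mul_right ((h2 y).trans (add_le_add_left (lintegral_mono fun ω => ?_) _)) _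
      by_cases hb : |y - X ω| ≤ T
      · rw [ind_pos hb, one_mul]; exact le_self_add
      · have h4 := abs_sub y (X ω)
        rw [ind_neg hb, ind_pos (by linarith [not_le.1 hb]), zero_mul, zero_add, one_mul]
        exact hΦ2 y ω
    · rw [ind_neg hy, zero_mul]; exact zero_le

theorem conv (h1 : St_G1) (p : ℝ) (S : Set ℝ) (F : ℝ → Om → ℝ)
    (hF : Measurable fun q : ℝ × Om => F q.1 q.2) (h0 : ∀ y ω, 0 ≤ F y ω)
    (hfin : ∀ y, ∫⁻ ω, ENNReal.ofReal (F y ω) ∂gm ≠ ∞) :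
    ∫ y in S, Real.exp (p * y) * ∫ ω, F y ω ∂gm =
      (∫⁻ y in S, eE (p * y) * ∫⁻ ω, ENNReal.ofReal (F y ω) ∂gm).toReal := by
  have := h1.1
  have e1 : ∀ y, ∫ ω, F y ω ∂gm = (∫⁻ ω, ENNReal.ofReal (F y ω) ∂gm).toReal := fun y =>
    integral_eq_lintegral_of_nonneg_ae (Eventually.of_forall (h0 y))
      (hF.comp measurable_prodMk_left).aestronglyMeasurable
  have m : Measurable fun y => ∫⁻ ω, ENNReal.ofReal (F y ω) ∂gm :=
    (ENNReal.measurable_ofReal.comp hF).lintegral_prod_right'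
  simp only [e1]
  have m2 : Measurable fun y => Real.exp (p * y) *
      (∫⁻ ω, ENNReal.ofReal (F y ω) ∂gm).toReal :=
    (Real.measurable_exp.comp (measurable_id.const_mul p)).mul m.ennreal_toReal
  rw [integral_eq_lintegral_of_nonneg_ae (Eventually.of_forall fun y => by positivity)
    m2.aestronglyMeasurable]
  congr 1
  refine lintegral_congr fun y => ?_
  rw [ENNReal.ofReal_mul (Real.exp_pos _).le, ENNReal.ofReal_toReal (hfin y)]
  rfl

theorem ThHF {γ : ℝ} (hγ : 0 < γ) (c : ℝ) {tf : ℕ → C_c(Cyl, ℝ)} (G : (ℕ → ℝ) → ℝ) (χ : ℝ → ℝ)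
    {k0 K : ℕ} (ht : TF tf k0 K) (L l : ℕ) (y u : ℝ) (ξ : ℤ × ℤ → ℝ) {i : ℤ × ℤ}
    (hi : i ∈ gin (l + K + 1)) :
    Th G χ k0 (gsum γ c K L (l + K + 1) y ξ i (f0 K))
        (fun k => gsum γ c K L (l + K + 1) y ξ i (tf k)) =
      HF γ c tf G χ k0 K L l (y + u - aa γ * ((K + 3) * l2))
        fun j => ξ (i + j) - u - γ * ((K + 3) * l2) := by
  have key : ∀ g, Sup K g → gsum γ c K L (l + K + 1) y ξ i g =
      c * Real.exp (γ * (y + u - aa γ * ((K + 3) * l2))) *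
        WW γ K L l g fun j => ξ (i + j) - u - γ * ((K + 3) * l2) := by
    intro g hg
    rw [gsum_eq γ c K L l y ξ hi g hg, WW, Finset.mul_sum]
    refine Finset.sum_congr rfl fun j _ => ?_
    have := wt_shift hγ c K L l y u (ξ (i + j) - u - γ * ((K + 3) * l2)) 0
    rw [add_zero, mul_zero, add_zero, show u + (ξ (i + j) - u - γ * ((K + 3) * l2)) +
      γ * ((K + 3) * l2) = ξ (i + j) by ring] at this
    rw [this]; ring
  unfold HF
  rw [key _ ht.f0s]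
  exact Th_congr G χ k0 _ _ _ fun k hk => key _ (ht.tfs k hk)

theorem HF_congr (γ c : ℝ) (tf : ℕ → C_c(Cyl, ℝ)) (G : (ℕ → ℝ) → ℝ) (χ : ℝ → ℝ) (k0 K L l : ℕ)
    (y : ℝ) (ζ ζ' : ℤ × ℤ → ℝ) (h : ∀ j ∈ JJ K l, ζ j = ζ' j) :
    HF γ c tf G χ k0 K L l y ζ = HF γ c tf G χ k0 K L l y ζ' := by
  have key : ∀ g, WW γ K L l g ζ = WW γ K L l g ζ' := fun g =>
    Finset.sum_congr rfl fun j hj => by rw [h j hj]
  simp only [HF, key]

theorem card_gin (l : ℕ) (c : ℝ) (Z : ℝ≥0∞) :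
    ∑ _i ∈ gin l, ENNReal.ofReal (c / 16 * (1 / 4) ^ l) * Z = ENNReal.ofReal (c / 16) * Z := by
  have h1 : (gin l).card = 4 ^ l := by
    have h2 : ((2 : ℤ) ^ l).toNat = 2 ^ l := by
      rw [show (2 : ℤ) ^ l = ((2 ^ l : ℕ) : ℤ) by push_cast; rfl, Int.toNat_natCast]
    rw [gin, Finset.card_product, Int.card_Ico, sub_zero, h2, ← mul_pow]
    norm_num
  rw [Finset.sum_const, h1, nsmul_eq_mul, ← mul_assoc, ← ENNReal.ofReal_natCast,
    ← ENNReal.ofReal_mul (by positivity)]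
  congr 2
  push_cast
  rw [mul_left_comm, ← mul_pow]
  norm_num

section main

variable {γ c : ℝ} {tf : ℕ → C_c(Cyl, ℝ)} {G : (ℕ → ℝ) → ℝ} {χ : ℝ → ℝ} {k0 K L l : ℕ}

/-- the rooted integrand after the first tilt -/
def PhiI (γ c : ℝ) (tf : ℕ → C_c(Cyl, ℝ)) (G : (ℕ → ℝ) → ℝ) (χ : ℝ → ℝ) (k0 K L l : ℕ)
    (M : Model) (i : ℤ × ℤ) (p : ℝ × Om) : ℝ≥0∞ :=
  ENNReal.ofReal (HF γ c tf G χ k0 K L l p.1 fun j => p.2 (zv M K L l i j) + γ * (wj l j).1)

theorem meas_PhiI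
    (hm : Measurable fun p : ℝ × (ℤ × ℤ → ℝ) => HF γ c tf G χ k0 K L l p.1 p.2)
    (M : Model) (i : ℤ × ℤ) : Measurable (PhiI γ c tf G χ k0 K L l M i) :=
  ENNReal.measurable_ofReal.comp (hm.comp (measurable_fst.prodMk
    (measurable_pi_lambda _ fun _ => ((meas_ev _).comp measurable_snd).add_const _)))

theorem meas_Psi (hγ : 0 < γ) (ht : TF tf k0 K)
    (hm : Measurable fun p : ℝ × (ℤ × ℤ → ℝ) => HF γ c tf G χ k0 K L l p.1 p.2) (M : Model) :
    Measurable fun q : ℝ × Om => Psi γ c tf G χ k0 K L (l + K + 1) q.1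
      fun i => q.2 (M.bV [] L (l + K + 1) i) := by
  unfold Psi
  refine Finset.measurable_sum _ fun i hi => ?_
  simp only [fun y ξ => ThHF hγ c G χ ht L l y 0 ξ hi]
  have m1 : ∀ i, Measurable fun q : ℝ × Om => q.2 (M.bV [] L (l + K + 1) i) := fun i =>
    (meas_ev _).comp measurable_snd
  refine Measurable.mul ?_ (hm.comp (((measurable_fst.add_const _).sub_const _).prodMk
    (measurable_pi_lambda _ fun j => ((m1 _).sub_const _).sub_const _)))
  unfold wt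
  have := m1 i
  fun_prop

theorem wt_nonneg (hc : 0 ≤ c) (L l : ℕ) (y ξ : ℝ) : 0 ≤ wt γ c L l y ξ := by
  unfold wt; positivity

theorem Psi_nonneg (hγ : 0 < γ) (hc : 0 ≤ c) (ht : TF tf k0 K)
    (hb : ∀ y ζ, 0 ≤ HF γ c tf G χ k0 K L l y ζ ∧ HF γ c tf G χ k0 K L l y ζ ≤ 2)
    (y : ℝ) (ξ : ℤ × ℤ → ℝ) : 0 ≤ Psi γ c tf G χ k0 K L (l + K + 1) y ξ := by
  refine Finset.sum_nonneg fun i hi => mul_nonneg (wt_nonneg hc _ _ _ _) ?_
  rw [ThHF hγ c G χ ht L l y 0 ξ hi]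
  exact (hb _ _).1

theorem Psi_lint (h2 : St_G2) (hM : St_MOD) (hF : St_FE) (hE : St_EXP1) (hγ : 0 < γ) (hc : 0 ≤ c)
    (ht : TF tf k0 K)
    (hm : Measurable fun p : ℝ × (ℤ × ℤ → ℝ) => HF γ c tf G χ k0 K L l p.1 p.2)
    (hb : ∀ y ζ, 0 ≤ HF γ c tf G χ k0 K L l y ζ ∧ HF γ c tf G χ k0 K L l y ζ ≤ 2)
    (hr : 2 * (2 ^ L * (1 / 2 : ℝ) ^ l) ≤ (1 / 2) ^ (K + 1)) (M : Model) (y : ℝ) :
    ∫⁻ ω, ENNReal.ofReal (Psi γ c tf G χ k0 K L (l + K + 1) y
      fun i => ω (M.bV [] L (l + K + 1) i)) ∂gm =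
      ∑ i ∈ gin (l + K + 1), ENNReal.ofReal (c / 16 * (1 / 4) ^ (l + K + 1)) * (eE (γ * y) *
        ∫⁻ ω, PhiI γ c tf G χ k0 K L l M i
          (y + ω (Gv M K l i) - aa γ * ‖Gv M K l i‖ ^ 2, ω) ∂gm) := by
  simp only [bV_nil]
  set b := bv M L (l + K + 1) with hbdef
  let F : ℤ × ℤ → Om → ℝ≥0∞ := fun i ω => ENNReal.ofReal (HF γ c tf G χ k0 K L l
    (y + 0 - aa γ * ((K + 3) * l2)) fun j => ω (b (i + j)) - 0 - γ * ((K + 3) * l2))
  have mF : ∀ i, Measurable (F i) := fun i =>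
    ENNReal.measurable_ofReal.comp (hm.comp (measurable_const.prodMk
      (measurable_pi_lambda _ fun j => ((meas_ev _).sub_const _).sub_const _)))
  have mE : ∀ i, Measurable fun ω : Om => eE (ω (γ • b i) - ‖γ • b i‖ ^ 2 / 2) := fun i =>
    meas_eE.comp ((meas_ev _).sub_const _)
  calc ∫⁻ ω, ENNReal.ofReal (Psi γ c tf G χ k0 K L (l + K + 1) y fun i => ω (b i)) ∂gm
      = ∫⁻ ω, ∑ i ∈ gin (l + K + 1), ENNReal.ofReal (c / 16 * (1 / 4) ^ (l + K + 1)) *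
          (eE (γ * y) * (F i ω * eE (ω (γ • b i) - ‖γ • b i‖ ^ 2 / 2))) ∂gm := by
        refine lintegral_congr fun ω => ?_
        unfold Psi
        rw [ENNReal.ofReal_sum_of_nonneg fun i hi => mul_nonneg (wt_nonneg hc _ _ _ _)
          (by rw [ThHF hγ c G χ ht L l y 0 _ hi]; exact (hb _ _).1)]
        refine Finset.sum_congr rfl fun i hi => ?_
        rw [ThHF hγ c G χ ht L l y 0 _ hi, wt_pre hγ, ENNReal.ofReal_mul (by positivity),
          ENNReal.ofReal_mul (by positivity), ENNReal.ofReal_mul (p := c / 16 * _) (by positivity),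
          map_smul, smul_eq_mul, norm_smul, mul_pow, Real.norm_eq_abs, sq_abs,
          (geom hM hF hE M hr hi).1]
        simp only [eE, F]
        ring
    _ = _ := by
        rw [lintegral_finsetSum _ fun i _ => (((mF i).fun_mul (mE i)).const_mul _).const_mul _]
        refine Finset.sum_congr rfl fun i hi => ?_
        rw [lintegral_const_mul' _ _ ENNReal.ofReal_ne_top, lintegral_const_mul' _ _ (eE_ne _),
          ← h2.2.1 (γ • b i) (F i) (mF i)]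
        congr 2
        refine lintegral_congr fun ω => ?_
        obtain ⟨-, g2, g3⟩ := geom hM hF hE M hr hi
        simp only [F, PhiI]
        rw [← ThHF hγ c G χ ht L l y 0 (fun i' => (ω + dv (γ • b i)) (b i')) hi,
          ThHF hγ c G χ ht L l y (ω (Gv M K l i)) _ hi, g2]
        congr 1
        refine HF_congr _ _ _ _ _ _ _ _ _ _ _ _ fun j hj => ?_
        rw [LinearMap.add_apply, dv_apply, real_inner_smul_left, (g3 j hj).1, zv_eq, map_sub]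
        ring

/-- the rooted lattice functional -/
def PsiE (γ c : ℝ) (tf : ℕ → C_c(Cyl, ℝ)) (G : (ℕ → ℝ) → ℝ) (χ : ℝ → ℝ) (k0 K L l : ℕ)
    (M : Model) (y : ℝ) : ℝ≥0∞ :=
  ∫⁻ ω, ENNReal.ofReal (HF γ c tf G χ k0 K L l y fun j => ω (z0 M L l j) + s0 γ l j) ∂gm

theorem ofReal_two {x : ℝ} (h : x ≤ 2) : ENNReal.ofReal x ≤ 2 := by
  simpa using ENNReal.ofReal_le_ofReal h

theorem lint_two (h1 : St_G1) {f : Om → ℝ≥0∞} (h : ∀ ω, f ω ≤ 2) : ∫⁻ ω, f ω ∂gm ≤ 2 := by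
  have := h1.1
  simpa using lintegral_mono (μ := gm) h

theorem Elat_eq (h1 : St_G1) (ht : TF tf k0 K)
    (hm : Measurable fun p : ℝ × (ℤ × ℤ → ℝ) => HF γ c tf G χ k0 K L l p.1 p.2)
    (hb : ∀ y ζ, 0 ≤ HF γ c tf G χ k0 K L l y ζ ∧ HF γ c tf G χ k0 K L l y ζ ≤ 2)
    (M : Model) (T : ℝ) : M.Elat γ c tf G χ k0 K T L l =
      (∫⁻ y in Icc (-T) T, eE (-(2 * aa γ) * y) * PsiE γ c tf G χ k0 K L l M y).toReal := by
  unfold PsiE
  rw [← conv h1 _ _ (fun y ω => HF γ c tf G χ k0 K L l y fun j => ω (z0 M L l j) + s0 γ l j)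
    (hm.comp (measurable_fst.prodMk (measurable_pi_lambda _ fun j =>
      ((meas_ev _).comp measurable_snd).add_const _))) (fun y ω => (hb _ _).1)
    fun y => ne_top_of_le_ne_top ENNReal.ofNat_ne_top (lint_two h1 fun ω => ofReal_two (hb _ _).2)]
  unfold Model.Elat
  congr 1
  funext y
  congr 2
  funext ω
  unfold HF
  rw [Wlat_eq M γ K L l _ ht.f0s]
  exact Th_congr G χ k0 _ _ _ fun k hk => by rw [Wlat_eq M γ K L l _ (ht.tfs k hk)]

theorem EE_fin (h1 : St_G1) (ha : 0 ≤ aa γ)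
    (hb : ∀ y ζ, 0 ≤ HF γ c tf G χ k0 K L l y ζ ∧ HF γ c tf G χ k0 K L l y ζ ≤ 2)
    (M : Model) (T : ℝ) :
    ∫⁻ y in Icc (-T) T, eE (-(2 * aa γ) * y) * PsiE γ c tf G χ k0 K L l M y ≠ ∞ := by
  refine ne_top_of_le_ne_top ?_ (setLIntegral_mono' (g := fun _ => eE (2 * aa γ * T) * 2)
    measurableSet_Icc fun y hy => mul_le_mul' (eE_mono (by nlinarith [hy.1]))
      (lint_two h1 fun ω => ofReal_two (hb _ _).2))
  rw [setLIntegral_const, Real.volume_Icc]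
  exact ENNReal.mul_ne_top (ENNReal.mul_ne_top (eE_ne _) ENNReal.ofNat_ne_top)
    ENNReal.ofReal_ne_top

theorem cmp (h1 : St_G1) (hM : St_MOD) (hF : St_FE) (hE : St_EXP1) (hL : St_LAT) (hγ : 0 < γ)
    (ha : 0 ≤ aa γ) {C1 : ℝ} (_hC1 : 0 ≤ C1)
    (hm : Measurable fun p : ℝ × (ℤ × ℤ → ℝ) => HF γ c tf G χ k0 K L l p.1 p.2)
    (hd : ∀ y ζ ζ' (δ : ℝ), 0 ≤ δ → δ ≤ 1 / 4 → (∀ j ∈ JJ K l, |γ * ζ' j - γ * ζ j| ≤ δ) →
      |HF γ c tf G χ k0 K L l y ζ - HF γ c tf G χ k0 K L l y ζ'| ≤ C1 * δ)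
    (hr : 2 * (2 ^ L * (1 / 2 : ℝ) ^ l) ≤ (1 / 2) ^ (K + 1))
    (hδ : 2 * aa γ * γ * (2 ^ L * (1 / 2 : ℝ) ^ l) ≤ 1 / 4) (M : Model) {i : ℤ × ℤ}
    (hi : i ∈ gin (l + K + 1)) (y : ℝ) :
    ∫⁻ ω, PhiI γ c tf G χ k0 K L l M i (y, ω + dv ((2 * aa γ) • Gv M K l i)) ∂gm ≤
      PsiE γ c tf G χ k0 K L l M y +
        ENNReal.ofReal (C1 * (2 * aa γ * γ * (2 ^ L * (1 / 2 : ℝ) ^ l))) ∧
    PsiE γ c tf G χ k0 K L l M y ≤
      ∫⁻ ω, PhiI γ c tf G χ k0 K L l M i (y, ω + dv ((2 * aa γ) • Gv M K l i)) ∂gm +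
        ENNReal.ofReal (C1 * (2 * aa γ * γ * (2 ^ L * (1 / 2 : ℝ) ^ l))) := by
  have := h1.1
  have hlaw : PsiE γ c tf G χ k0 K L l M y = ∫⁻ ω, ENNReal.ofReal
      (HF γ c tf G χ k0 K L l y fun j => ω (zv M K L l i j) + s0 γ l j) ∂gm :=
    law hF hE hL M K L l i (fun ζ => ENNReal.ofReal
      (HF γ c tf G χ k0 K L l y fun j => ζ j + s0 γ l j))
      (ENNReal.measurable_ofReal.comp (hm.comp (measurable_const.prodMk
        (measurable_pi_lambda _ fun j => (measurable_pi_apply j).add_const _))))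
  set δ := 2 * aa γ * γ * (2 ^ L * (1 / 2 : ℝ) ^ l) with hδdef
  have hδ0 : 0 ≤ δ := by positivity
  have key : ∀ ω : Om, |HF γ c tf G χ k0 K L l y (fun j => ω (zv M K L l i j) + s0 γ l j) -
      HF γ c tf G χ k0 K L l y fun j => (ω + dv ((2 * aa γ) • Gv M K l i)) (zv M K L l i j) +
        γ * (wj l j).1| ≤ C1 * δ := by
    intro ω
    refine hd y _ _ δ hδ0 hδ fun j hj => ?_
    have g := ((geom hM hF hE M hr hi).2.2 j hj).2
    rw [LinearMap.add_apply, dv_apply, real_inner_smul_left, s0,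
      show γ * (ω (zv M K L l i j) + 2 * aa γ * ⟪Gv M K l i, zv M K L l i j⟫ + γ * (wj l j).1) -
        γ * (ω (zv M K L l i j) + (γ * (wj l j).1 - 2 * aa γ * max (-(wj l j).1) 0)) =
        2 * aa γ * γ * (⟪Gv M K l i, zv M K L l i j⟫ + max (-(wj l j).1) 0) by ring,
      abs_mul, abs_of_nonneg (show 0 ≤ 2 * aa γ * γ by positivity)]
    exact mul_le_mul_of_nonneg_left g (by positivity)
  have hc : ENNReal.ofReal (C1 * δ) = ∫⁻ _ : Om, ENNReal.ofReal (C1 * δ) ∂gm := by simp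
  rw [hlaw, hc, ← lintegral_add_right _ measurable_const, ← lintegral_add_right _ measurable_const]
  refine ⟨lintegral_mono fun ω => ?_, lintegral_mono fun ω => ?_⟩
  · exact (ENNReal.ofReal_le_ofReal (by linarith [(abs_le.1 (key ω)).1])).trans
      ENNReal.ofReal_add_le
  · exact (ENNReal.ofReal_le_ofReal (by linarith [(abs_le.1 (key ω)).2])).trans
      ENNReal.ofReal_add_le

end main

end MT4a

open Pool.Agent.Lib.APPS.MT4a in
theorem blk_MT4a (h1 : St_G1) (hD : St_G1D) (h2 : St_G2) (_h3 : St_G3) (hM : St_MOD) (hF : St_FE)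
    (hE : St_EXP1) (hR : St_RW1) (hC : St_CYL) (_hP : St_PHI) (hT : St_THL) (hL : St_LAT) :
    St_MT4a := by
  intro γ hγ c hc tf htf Λ G χ hΛ hG hχ k0 K hs η hη
  have ht := mkTF hC htf hs
  have ha : 0 < aa γ := (hR.2.2 γ hγ).1
  have hγ0 := hγ.1
  obtain ⟨C1, hC1, hH⟩ := HF_facts hT hΛ hχ hG ht γ c hc
  set Ir := (∫⁻ y : ℝ, eE (-|y|)).toReal with hIr
  have hIr0 : 0 ≤ Ir := ENNReal.toReal_nonneg
  set c0 := ct (aa γ) ((K + 3) * l2) with hc0
  have t1 : Tendsto (fun T : ℝ => c / 16 * (4 * Real.exp (c0 - T) * Ir)) atTop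
      (𝓝 (c / 16 * (4 * 0 * Ir))) :=
    (((Real.tendsto_exp_atBot.comp (tendsto_atBot_add_const_left _ c0
      tendsto_neg_atTop_atBot)).const_mul 4).mul_const Ir).const_mul _
  rw [mul_zero, zero_mul, mul_zero] at t1
  obtain ⟨K'0, hK'0⟩ := eventually_atTop.1 ((eventually_ge_atTop (0 : ℝ)).and
    (t1.eventually (ge_mem_nhds (half_pos hη))))
  refine ⟨K'0, fun T hT L => ?_⟩
  obtain ⟨hT0, hT1⟩ := hK'0 T hT
  have t2 : ∀ A : ℝ, Tendsto (fun l : ℕ => A * (2 ^ L * (1 / 2 : ℝ) ^ l)) atTop (𝓝 0) := by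
    intro A
    have := ((tendsto_pow_atTop_nhds_zero_of_lt_one (r := (1 / 2 : ℝ)) (by norm_num)
      (by norm_num)).const_mul ((2 : ℝ) ^ L)).const_mul A
    rwa [mul_zero, mul_zero] at this
  obtain ⟨l1, hl1⟩ := eventually_atTop.1
    (((t2 2).eventually (ge_mem_nhds (show (0 : ℝ) < (1 / 2) ^ (K + 1) by positivity))).and
    (((t2 (2 * aa γ * γ)).eventually (ge_mem_nhds (show (0 : ℝ) < 1 / 4 by positivity))).and
    ((t2 (c / 16 * (C1 * (2 * aa γ * γ) * Real.exp (4 * aa γ * T) * (4 * T)))).eventually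
      (ge_mem_nhds (half_pos hη)))))
  refine ⟨l1 + K + 1, fun l' hl' M => ?_⟩
  obtain ⟨l, rfl⟩ : ∃ l, l' = l + K + 1 := ⟨l' - K - 1, by omega⟩
  obtain ⟨hr, hδ, hs3⟩ := hl1 l (by omega)
  rw [show l + K + 1 - K - 1 = l by omega]
  obtain ⟨hm, hb, hd⟩ := hH L l
  set r := (2 ^ L * (1 / 2 : ℝ) ^ l) with hrdef
  have hr0 : 0 ≤ r := by positivity
  set er := C1 * (2 * aa γ * γ * r) * Real.exp (4 * aa γ * T) * (4 * T) +
    4 * Real.exp (c0 - T) * Ir with her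
  have her0 : 0 ≤ er := by positivity
  have herη : c / 16 * er ≤ η := by
    rw [her]; nlinarith
  have hee : ENNReal.ofReal (C1 * (2 * aa γ * γ * r)) * eE (4 * aa γ * T) *
      ENNReal.ofReal (4 * T) + 4 * eE (c0 - T) * ∫⁻ y : ℝ, eE (-|y|) = ENNReal.ofReal er := by
    rw [her, ENNReal.ofReal_add (by positivity) (by positivity),
      ENNReal.ofReal_mul (q := 4 * T) (by positivity),
      ENNReal.ofReal_mul (q := Real.exp _) (by positivity),
      ENNReal.ofReal_mul (q := Ir) (by positivity),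
      ENNReal.ofReal_mul (q := Real.exp _) (by positivity), hIr, ENNReal.ofReal_toReal int_abs]
    simp [eE]
  let P : ℤ × ℤ → ℝ≥0∞ := fun i => ∫⁻ y in Icc (-T) T, eE (-(2 * aa γ) * y) *
    ∫⁻ ω, PhiI γ c tf G χ k0 K L l M i (y + ω (Gv M K l i) - aa γ * ‖Gv M K l i‖ ^ 2, ω) ∂gm
  let EE : ℝ → ℝ≥0∞ := fun T =>
    ∫⁻ y in Icc (-T) T, eE (-(2 * aa γ) * y) * PsiE γ c tf G χ k0 K L l M y
  have hP : ∀ i ∈ gin (l + K + 1), P i ≤ EE (2 * T) + ENNReal.ofReal er ∧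
      EE (T / 2) ≤ P i + ENNReal.ofReal er := by
    intro i hi
    have g2 := (geom hM hF hE M hr hi).2.1
    have hs := sand ha.le hT0 (fun ω => ω (Gv M K l i) + aa γ * ‖Gv M K l i‖ ^ 2)
      ((meas_ev _).add_const _)
      (fun y ω => PhiI γ c tf G χ k0 K L l M i (y, ω + dv ((2 * aa γ) • Gv M K l i)))
      (fun y ω => ofReal_two (hb _ _).2) (PsiE γ c tf G χ k0 K L l M) _ _
      (fun y => (cmp h1 hM hF hE hL hγ0 ha.le hC1 hm hd hr hδ M hi y).1)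
      (fun y => (cmp h1 hM hF hE hL hγ0 ha.le hC1 hm hd hr hδ M hi y).2)
      (tail hD ha.le hT0 (Gv M K l i))
    rw [← subst_tilt h1 h2 (aa γ) T (Gv M K l i) _ (meas_PhiI hm M i)] at hs
    rw [← hee, hc0, ← g2]
    exact hs
  have := h1.1
  have mI : ∀ i, Measurable fun y : ℝ => ∫⁻ ω, PhiI γ c tf G χ k0 K L l M i
      (y + ω (Gv M K l i) - aa γ * ‖Gv M K l i‖ ^ 2, ω) ∂gm := fun i =>
    ((meas_PhiI hm M i).comp (((measurable_fst.add ((meas_ev _).comp measurable_snd)).sub_const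
      _).prodMk measurable_snd)).lintegral_prod_right'
  have hLp : M.Lpar γ c tf G χ k0 K T L (l + K + 1) = (∑ i ∈ gin (l + K + 1),
      ENNReal.ofReal (c / 16 * (1 / 4) ^ (l + K + 1)) * P i).toReal := by
    unfold Model.Lpar
    rw [conv h1 _ _ (fun y ω => Psi γ c tf G χ k0 K L (l + K + 1) y
      fun i => ω (M.bV [] L (l + K + 1) i)) (meas_Psi hγ0 ht hm M)
      (fun y ω => Psi_nonneg hγ0 hc ht hb y _)]
    · congr 1
      simp only [Psi_lint h2 hM hF hE hγ0 hc ht hm hb hr M, Finset.mul_sum]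
      rw [lintegral_finsetSum]
      · refine Finset.sum_congr rfl fun i _ => ?_
        rw [← lintegral_const_mul' _ _ ENNReal.ofReal_ne_top]
        refine lintegral_congr fun y => ?_
        rw [mul_left_comm, ← mul_assoc (eE _), ← eE_add, aa_eq hγ0]
        congr 3
        ring
      · intro i _
        exact (meas_eE.comp (measurable_id.const_mul _)).mul
          (((meas_eE.comp (measurable_id.const_mul _)).mul (mI i)).const_mul _)
    · intro y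
      rw [Psi_lint h2 hM hF hE hγ0 hc ht hm hb hr M]
      exact ENNReal.sum_ne_top.2 fun i _ => ENNReal.mul_ne_top ENNReal.ofReal_ne_top
        (ENNReal.mul_ne_top (eE_ne _) (ne_top_of_le_ne_top ENNReal.ofNat_ne_top
          (lint_two h1 fun ω => ofReal_two (hb _ _).2)))
  have hfin : ∀ T, EE T ≠ ∞ := EE_fin h1 ha.le hb M
  have hc16 : 0 ≤ c / 16 := by positivity
  have hup : ∑ i ∈ gin (l + K + 1), ENNReal.ofReal (c / 16 * (1 / 4) ^ (l + K + 1)) * P i ≤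
      ENNReal.ofReal (c / 16) * (EE (2 * T) + ENNReal.ofReal er) := by
    rw [← card_gin (l + K + 1)]
    exact Finset.sum_le_sum fun i hi => mul_le_mul_right (hP i hi).1 _
  have hlo : ENNReal.ofReal (c / 16) * EE (T / 2) ≤
      ∑ i ∈ gin (l + K + 1), ENNReal.ofReal (c / 16 * (1 / 4) ^ (l + K + 1)) * P i +
        ENNReal.ofReal (c / 16) * ENNReal.ofReal er := by
    rw [← card_gin (l + K + 1), ← card_gin (l + K + 1), ← Finset.sum_add_distrib]
    refine Finset.sum_le_sum fun i hi => ?_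
    rw [← mul_add]
    exact mul_le_mul_right (hP i hi).2 _
  have f1 : ENNReal.ofReal (c / 16) * (EE (2 * T) + ENNReal.ofReal er) ≠ ∞ :=
    ENNReal.mul_ne_top ENNReal.ofReal_ne_top (ENNReal.add_ne_top.2 ⟨hfin _, ENNReal.ofReal_ne_top⟩)
  have f2 := ne_top_of_le_ne_top f1 hup
  have f3 : ENNReal.ofReal (c / 16) * ENNReal.ofReal er ≠ ∞ :=
    ENNReal.mul_ne_top ENNReal.ofReal_ne_top ENNReal.ofReal_ne_top
  have r1 := ENNReal.toReal_mono f1 hup
  have r2 := ENNReal.toReal_mono (ENNReal.add_ne_top.2 ⟨f2, f3⟩) hlo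
  rw [ENNReal.toReal_mul, ENNReal.toReal_add (hfin _) ENNReal.ofReal_ne_top,
    ENNReal.toReal_ofReal hc16, ENNReal.toReal_ofReal her0] at r1
  rw [ENNReal.toReal_add f2 f3, ENNReal.toReal_mul, ENNReal.toReal_mul,
    ENNReal.toReal_ofReal hc16, ENNReal.toReal_ofReal her0] at r2
  rw [hLp, Elat_eq h1 ht hm hb, Elat_eq h1 ht hm hb]
  constructor
  · linarith
  · linarith

end

end Pool.Agent.Lib.APPS
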