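import Pool.Agent.Lib.APPS.Blue4

/-!
Block MT4b: the lattice expression converges to the quantum sphere functional.
-/

namespace Pool.Agent.Lib.APPS

open MeasureTheory ProbabilityTheory Filter Topology Set Metric
open scoped NNReal ENNReal CompactlySupported BoundedContinuousFunction RealInnerProductSpace
  Classical

noncomputable section

namespace MT4b

theorem eE_meas {α : Type*} [MeasurableSpace α] {z : α → ℝ} (hz : Measurable z) :
    Measurable fun a => eE (z a) := (Real.measurable_exp.comp hz).ennreal_ofReal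

theorem wgt_int {γ : ℝ} {z : ℝ → ℝ} (hz : Measurable z) (m : Measure Cyl) (f : Cyl → ℝ) :
    ∫ w, f w ∂wgt γ z m = ∫ w, Real.exp (γ * z w.1) * f w ∂m := by
  unfold wgt
  have m1 : Measurable fun w : Cyl => eE (γ * z w.1) :=
    eE_meas ((hz.comp measurable_fst).const_mul γ)
  rw [integral_withDensity_eq_integral_toReal_smul m1 (ae_of_all _ fun w => by simp [eE])]
  congr 1; ext w
  simp [eE, ENNReal.toReal_ofReal (Real.exp_pos _).le]

def trc (k0 : ℕ) (s : ℕ → ℝ) : ℕ → ℝ := fun k => if k ≤ k0 then s k else 0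

def II (γ : ℝ) (χ : ℝ → ℝ) (A y : ℝ) : ℝ :=
  Real.exp (-(2 * aa γ) * y) * (χ (A * Real.exp (γ * y)) / (A * Real.exp (γ * y)))

theorem cov {γ : ℝ} (hγ : 0 < γ) (h2 : γ * th γ = 2 * aa γ) (χ : ℝ → ℝ) {A : ℝ} (hA : 0 < A) :
    ∫ y, II γ χ A y = A ^ th γ * γ⁻¹ * wn γ χ := by
  have hd : ∀ y ∈ (univ : Set ℝ), HasDerivWithinAt (fun y => A * Real.exp (γ * y))
      (A * (Real.exp (γ * y) * γ)) univ y := fun y _ => by
    have := ((hasDerivAt_id y).const_mul γ).exp.const_mul A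
    exact HasDerivAt.hasDerivWithinAt (by simpa using this)
  have hi : InjOn (fun y => A * Real.exp (γ * y)) univ := fun y _ y' _ h => by
    have := Real.exp_injective (mul_left_cancel₀ hA.ne' h)
    exact mul_left_cancel₀ hγ.ne' this
  have him : (fun y => A * Real.exp (γ * y)) '' univ = Ioi 0 := by
    ext t
    constructor
    · rintro ⟨y, -, rfl⟩; exact mul_pos hA (Real.exp_pos _)
    · intro ht
      refine ⟨Real.log (t / A) / γ, trivial, ?_⟩
      have : γ * (Real.log (t / A) / γ) = Real.log (t / A) := by field_simp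
      simp only [this]
      rw [Real.exp_log (div_pos ht hA)]; field_simp
  have h := integral_image_eq_integral_abs_deriv_smul MeasurableSet.univ hd hi
    (fun t => χ t * t ^ (-th γ - 2))
  rw [him, Measure.restrict_univ] at h
  unfold wn
  rw [h, ← integral_const_mul]
  congr 1; ext y
  have hE := Real.exp_pos (γ * y)
  have hp : 0 < A * Real.exp (γ * y) := mul_pos hA hE
  have e1 : (A * Real.exp (γ * y)) ^ (-th γ - 2) =
      (A ^ th γ)⁻¹ * Real.exp (-(2 * aa γ) * y) / (A * Real.exp (γ * y)) ^ 2 := by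
    rw [Real.rpow_sub hp, Real.rpow_two, Real.mul_rpow hA.le hE.le, Real.rpow_neg hA.le,
      ← Real.exp_mul]
    congr 3; rw [← h2]; ring
  have hAt : 0 < A ^ th γ := Real.rpow_pos_of_pos hA _
  rw [smul_eq_mul, e1, abs_of_pos (by positivity), II]
  field_simp

theorem II_int {γ : ℝ} (hγ : 0 < γ) {χ : ℝ → ℝ} (hχ : Chi χ) {A : ℝ} (hA : 0 < A) :
    Integrable (II γ χ A) := by
  obtain ⟨⟨K, hK⟩, -, β, hβ⟩ := hχ
  have hc := hK.continuous
  refine Continuous.integrable_of_hasCompactSupport ?_ ?_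
  · unfold II
    refine Continuous.mul (by fun_prop) (Continuous.div (by fun_prop) (by fun_prop) fun y => ?_)
    exact (mul_pos hA (Real.exp_pos _)).ne'
  · refine HasCompactSupport.intro
      (isCompact_Icc (a := Real.log (3 / 4 / A) / γ) (b := Real.log (β / A) / γ)) fun y hy => ?_
    by_contra h
    have h1 : χ (A * Real.exp (γ * y)) ≠ 0 := fun h0 => h (by simp [II, h0])
    obtain ⟨h2, h3⟩ := hβ _ h1
    refine hy ⟨?_, ?_⟩
    · rw [div_le_iff₀ hγ, Real.log_le_iff_le_exp (by positivity), div_le_iff₀ hA, mul_comm y,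
        mul_comm]
      exact h2
    · have h4 : 0 < β / A := div_pos (by linarith) hA
      rw [le_div_iff₀ hγ, Real.le_log_iff_exp_le h4, le_div_iff₀ hA, mul_comm y, mul_comm]
      exact h3

theorem II_nn {γ : ℝ} {χ : ℝ → ℝ} (hχ : Chi χ) {A : ℝ} (hA : 0 ≤ A) (y : ℝ) : 0 ≤ II γ χ A y :=
  mul_nonneg (Real.exp_pos _).le (div_nonneg (hχ.2.1 _).1 (by positivity))

theorem wn_nn (γ : ℝ) {χ : ℝ → ℝ} (hχ : Chi χ) : 0 ≤ wn γ χ :=
  setIntegral_nonneg measurableSet_Ioi fun _ ht =>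
    mul_nonneg (hχ.2.1 _).1 (Real.rpow_nonneg (le_of_lt ht) _)

theorem II_meas {γ : ℝ} {χ : ℝ → ℝ} (hχ : Chi χ) (K' : ℝ) :
    Measurable fun A => ∫ y in Icc (-K') K', II γ χ A y := by
  obtain ⟨⟨K, hK⟩, -⟩ := hχ
  have hc := hK.continuous.measurable
  have : Measurable fun p : ℝ × ℝ => II γ χ p.1 p.2 := by
    unfold II
    exact Measurable.mul (by fun_prop) ((hc.comp (by fun_prop)).div (by fun_prop))
  exact (StronglyMeasurable.integral_prod_right' this.stronglyMeasurable).measurable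

theorem Th_scale (G : (ℕ → ℝ) → ℝ) (χ : ℝ → ℝ) (k0 : ℕ) {r : ℝ} (hr : r ≠ 0) (τ : ℝ)
    (s : ℕ → ℝ) : Th G χ k0 (r * τ) (fun k => r * s k) =
      χ (r * τ) / (r * τ) * (s 0 / τ * G (trc k0 fun k => s k / τ)) := by
  unfold Th trc
  simp only [mul_div_mul_left _ _ hr, mul_assoc]

theorem dom {θ s τ m : ℝ} (hθ : 0 < θ) (h0 : 0 ≤ s) (h1 : s ≤ τ) (h2 : τ ≤ m) :
    τ ^ θ * (s / τ) ≤ m ^ θ * (s / m) + s ^ θ := by
  rcases h0.eq_or_lt with rfl | hs
  · simp [Real.zero_rpow hθ.ne']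
  have hτ : 0 < τ := by linarith
  have hm : 0 < m := by linarith
  have e : ∀ t : ℝ, 0 < t → t ^ θ * (s / t) = t ^ (θ - 1) * s := fun t ht => by
    rw [Real.rpow_sub_one ht.ne']; field_simp
  have p1 : 0 ≤ m ^ θ * (s / m) := by positivity
  have p2 : 0 ≤ s ^ θ := by positivity
  rcases le_total 1 θ with h | h
  · have : τ ^ θ * (s / τ) ≤ m ^ θ * (s / m) := by
      rw [e τ hτ, e m hm]
      exact mul_le_mul_of_nonneg_right (Real.rpow_le_rpow hτ.le h2 (by linarith)) hs.le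
    linarith
  · have : τ ^ θ * (s / τ) ≤ s ^ θ := by
      have e2 : s ^ θ = s ^ (θ - 1) * s := by rw [← e s hs]; field_simp
      rw [e τ hτ, e2]
      exact mul_le_mul_of_nonneg_right
        (Real.rpow_le_rpow_of_nonpos hs h1 (by linarith)) hs.le
    linarith

theorem trc_meas (k0 : ℕ) : Measurable (trc k0) :=
  measurable_pi_lambda _ fun k => by
    unfold trc
    by_cases h : k ≤ k0
    · simpa [h] using measurable_pi_apply k
    · simp [h]

theorem trc_cont (k0 : ℕ) : Continuous (trc k0) :=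
  continuous_pi fun k => by
    unfold trc
    by_cases h : k ≤ k0
    · simpa [h] using continuous_apply k
    · simpa [h] using continuous_const

theorem trc_lim (s : ℕ → ℝ) : Tendsto (fun k0 => trc k0 s) atTop (𝓝 s) :=
  tendsto_pi_nhds.2 fun k => tendsto_const_nhds.congr' (by
    filter_upwards [eventually_ge_atTop k] with k0 h
    simp [trc, h])

section lim

variable {Ω : Type*} [MeasurableSpace Ω] {P : Measure Ω} {G : (ℕ → ℝ) → ℝ} {s : Ω → ℕ → ℝ}
  {θ : ℝ}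

theorem part_meas {t : Ω → ℝ} (hs : AEMeasurable s P) (ht : AEMeasurable t P)
    (hG : Measurable G) (k0 : ℕ) :
    AEMeasurable (fun ω => s ω 0 / t ω * G (trc k0 fun k => s ω k / t ω)) P := by
  have h1 : ∀ k, AEMeasurable (fun ω => s ω k / t ω) P := fun k =>
    ((measurable_pi_apply k).comp_aemeasurable hs).div ht
  exact (h1 0).mul ((hG.comp (trc_meas k0)).comp_aemeasurable (aemeasurable_pi_lambda _ h1))

theorem part_bd {t a g : ℝ} (h : 0 ≤ t ^ θ * a) (h0 : 0 ≤ g) (h1 : g ≤ 1) :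
    ‖t ^ θ * (a * g)‖ ≤ t ^ θ * a := by
  rw [← mul_assoc, Real.norm_eq_abs, abs_of_nonneg (mul_nonneg h h0)]
  exact mul_le_of_le_one_right h h1

theorem lim1 {m : Ω → ℝ} (hs : AEMeasurable s P) (hm : AEMeasurable m P) (hG : Continuous G)
    (hG1 : ∀ x, 0 ≤ G x ∧ G x ≤ 1) (h0 : ∀ ω, 0 ≤ s ω 0) (hm0 : ∀ ω, 0 ≤ m ω)
    (hI : Integrable (fun ω => m ω ^ θ * (s ω 0 / m ω)) P) :
    Tendsto (fun k0 => ∫ ω, m ω ^ θ * (s ω 0 / m ω * G (trc k0 fun k => s ω k / m ω)) ∂P) atTop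
      (𝓝 (∫ ω, m ω ^ θ * (s ω 0 / m ω * G fun k => s ω k / m ω) ∂P)) := by
  refine tendsto_integral_filter_of_dominated_convergence _ (Eventually.of_forall fun k0 => ?_)
    (Eventually.of_forall fun k0 => ae_of_all _ fun ω => ?_) hI (ae_of_all _ fun ω => ?_)
  · exact ((hm.pow_const θ).mul (part_meas hs hm hG.measurable k0)).aestronglyMeasurable
  · have := h0 ω; have := hm0 ω
    exact part_bd (by positivity) (hG1 _).1 (hG1 _).2
  · exact ((((hG.tendsto _).comp (trc_lim _)).const_mul _).const_mul _)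

theorem lim2 {m : Ω → ℝ} {τ : ℕ → Ω → ℝ} (hθ : 0 < θ) (hs : AEMeasurable s P)
    (hτ : ∀ K, AEMeasurable (τ K) P) (hG : Continuous G)
    (hG1 : ∀ x, 0 ≤ G x ∧ G x ≤ 1) (h0 : ∀ ω, 0 ≤ s ω 0)
    (hI : Integrable (fun ω => m ω ^ θ * (s ω 0 / m ω) + s ω 0 ^ θ) P)
    (h1 : ∀ᶠ K in atTop, ∀ᵐ ω ∂P, s ω 0 ≤ τ K ω ∧ τ K ω ≤ m ω)
    (h2 : ∀ᵐ ω ∂P, 0 < m ω ∧ Tendsto (fun K => τ K ω) atTop (𝓝 (m ω))) (k0 : ℕ) :
    Tendsto (fun K => ∫ ω, τ K ω ^ θ * (s ω 0 / τ K ω * G (trc k0 fun k => s ω k / τ K ω)) ∂P)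
      atTop (𝓝 (∫ ω, m ω ^ θ * (s ω 0 / m ω * G (trc k0 fun k => s ω k / m ω)) ∂P)) := by
  refine tendsto_integral_filter_of_dominated_convergence _ (Eventually.of_forall fun K => ?_)
    ?_ hI ?_
  · exact (((hτ K).pow_const θ).mul (part_meas hs (hτ K) hG.measurable k0)).aestronglyMeasurable
  · filter_upwards [h1] with K hK
    filter_upwards [hK] with ω hω
    have a1 := h0 ω
    have a2 : 0 ≤ τ K ω := a1.trans hω.1
    exact (part_bd (by positivity) (hG1 _).1 (hG1 _).2).trans (dom hθ a1 hω.1 hω.2)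
  · filter_upwards [h2] with ω hω
    have a1 : ∀ k, Tendsto (fun K => s ω k / τ K ω) atTop (𝓝 (s ω k / m ω)) := fun k =>
      tendsto_const_nhds.div hω.2 hω.1.ne'
    exact (hω.2.rpow_const (Or.inl hω.1.ne')).mul ((a1 0).mul
      (((hG.comp (trc_cont k0)).tendsto _).comp (tendsto_pi_nhds.2 a1)))

theorem lim3 {γ : ℝ} (hγ : 0 < γ) (h2 : γ * th γ = 2 * aa γ) {χ : ℝ → ℝ} (hχ : Chi χ) {c : ℝ}
    (hc : 0 < c) {t b : Ω → ℝ} (hs : AEMeasurable s P) (ht : AEMeasurable t P) (hG : Continuous G)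
    (hG1 : ∀ x, 0 ≤ G x ∧ G x ≤ 1) (h0 : ∀ ω, 0 ≤ s ω 0) (ht0 : ∀ ω, 0 ≤ t ω)
    (hI : Integrable b P) (h1 : ∀ᵐ ω ∂P, t ω ^ th γ * (s ω 0 / t ω) ≤ b ω) (k0 : ℕ) :
    Tendsto (fun K' : ℝ => ∫ ω, (∫ y in Icc (-K') K', II γ χ (c * t ω) y) *
      (s ω 0 / t ω * G (trc k0 fun k => s ω k / t ω)) ∂P) atTop
      (𝓝 (c ^ th γ * γ⁻¹ * wn γ χ *
        ∫ ω, t ω ^ th γ * (s ω 0 / t ω * G (trc k0 fun k => s ω k / t ω)) ∂P)) := by
  rw [← integral_const_mul]
  have hw0 := wn_nn γ hχ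
  refine tendsto_integral_filter_of_dominated_convergence
    (fun ω => c ^ th γ * γ⁻¹ * wn γ χ * b ω) (Eventually.of_forall fun K' => ?_)
    (Eventually.of_forall fun K' => ?_) (hI.const_mul _) (ae_of_all _ fun ω => ?_)
  · exact (((II_meas hχ K').comp_aemeasurable (ht.const_mul c)).mul
      (part_meas hs ht hG.measurable k0)).aestronglyMeasurable
  · filter_upwards [h1] with ω hω
    have a0 := h0 ω
    have a3 : 0 ≤ c ^ th γ * γ⁻¹ * wn γ χ := by positivity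
    refine le_trans ?_ (mul_le_mul_of_nonneg_left hω a3)
    rcases (ht0 ω).eq_or_lt with h | h
    · simp [← h]
    have hA : 0 < c * t ω := mul_pos hc h
    have a1 : ∫ y in Icc (-K') K', II γ χ (c * t ω) y ≤ (c * t ω) ^ th γ * γ⁻¹ * wn γ χ := by
      rw [← cov hγ h2 χ hA]
      exact setIntegral_le_integral (II_int hγ hχ hA) (ae_of_all _ (II_nn hχ hA.le))
    have a2 : 0 ≤ ∫ y in Icc (-K') K', II γ χ (c * t ω) y := integral_nonneg (II_nn hχ hA.le)
    have a4 := hG1 (trc k0 fun k => s ω k / t ω)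
    have a5 : 0 ≤ s ω 0 / t ω := by positivity
    rw [Real.norm_eq_abs, abs_of_nonneg (mul_nonneg a2 (mul_nonneg a5 a4.1))]
    calc _ ≤ (c * t ω) ^ th γ * γ⁻¹ * wn γ χ * (s ω 0 / t ω) :=
          mul_le_mul a1 (mul_le_of_le_one_right a5 a4.2) (mul_nonneg a5 a4.1) (a2.trans a1)
      _ = _ := by rw [Real.mul_rpow hc.le h.le]; ring
  · rcases (ht0 ω).eq_or_lt with h | h
    · simp [← h]
    have hA : 0 < c * t ω := mul_pos hc h
    have a1 := ((aecover_Icc (μ := volume) tendsto_neg_atTop_atBot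
      tendsto_id).integral_tendsto_of_countably_generated (II_int hγ hχ hA)).mul_const
      (s ω 0 / t ω * G (trc k0 fun k => s ω k / t ω))
    rw [cov hγ h2 χ hA, Real.mul_rpow hc.le h.le] at a1
    convert a1 using 2
    · rfl
    · ring

end lim

theorem H_BL {n : ℕ} {T : (Fin n → ℝ) → ℝ} {b : ℝ} {Lp : ℝ≥0} (hb : ∀ v, |T v| ≤ b)
    (hL : LipschitzWith Lp T) {e r : ℝ → ℝ} (he : Continuous e) (hr : Continuous r) (K' : ℝ) :
    ∃ B > 0, ∃ Λ' : ℝ≥0, BL Λ' fun v => (∫ y in Icc (-K') K', e y * T (r y • v)) / B := by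
  obtain ⟨E, hE⟩ := (isCompact_Icc (a := -K') (b := K')).exists_bound_of_continuousOn
    he.continuousOn
  obtain ⟨R, hR⟩ := (isCompact_Icc (a := -K') (b := K')).exists_bound_of_continuousOn
    hr.continuousOn
  have hb0 : 0 ≤ b := (abs_nonneg _).trans (hb 0)
  set μ := volume.real (Icc (-K') K') with hμ
  have hμ0 : 0 ≤ μ := measureReal_nonneg
  have hfin : volume (Icc (-K') K') < ∞ := measure_Icc_lt_top
  have hB : 1 ≤ |E| * b * μ + 1 := le_add_of_nonneg_left (by positivity)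
  have hi : ∀ v, IntegrableOn (fun y => e y * T (r y • v)) (Icc (-K') K') := fun v =>
    (he.mul (hL.continuous.comp (hr.smul continuous_const))).integrableOn_Icc
  refine ⟨|E| * b * μ + 1, by linarith, Real.toNNReal (|E| * (Lp * |R|) * μ),
    LipschitzWith.of_dist_le' fun v v' => ?_, fun v => ?_⟩
  · rw [Real.dist_eq, ← sub_div, abs_div, abs_of_pos (a := _ + 1) (by linarith)]
    refine (div_le_self (abs_nonneg _) hB).trans ?_
    rw [← integral_sub (hi v) (hi v'), ← Real.norm_eq_abs]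
    refine (norm_setIntegral_le_of_norm_le_const (C := |E| * (Lp * (|R| * dist v v'))) hfin
      fun y hy => ?_).trans (le_of_eq (by ring))
    rw [← mul_sub, norm_mul]
    refine mul_le_mul ((hE y hy).trans (le_abs_self _)) ?_ (norm_nonneg _) (abs_nonneg _)
    rw [← dist_eq_norm]
    refine (hL.dist_le_mul _ _).trans (mul_le_mul_of_nonneg_left ?_ Lp.2)
    rw [dist_smul₀]
    exact mul_le_mul_of_nonneg_right ((hR y hy).trans (le_abs_self _)) dist_nonneg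
  · rw [abs_div, abs_of_pos (a := _ + 1) (by linarith), div_le_one (by linarith),
      ← Real.norm_eq_abs]
    refine (norm_setIntegral_le_of_norm_le_const (C := |E| * b) hfin fun y hy => ?_).trans
      (by linarith)
    rw [norm_mul]
    exact mul_le_mul ((hE y hy).trans (le_abs_self _)) (hb _) (norm_nonneg _) (abs_nonneg _)

theorem fub {n : ℕ} {T : (Fin n → ℝ) → ℝ} {b : ℝ} (hb : ∀ v, |T v| ≤ b) (hT : Continuous T)
    {e r : ℝ → ℝ} (he : Continuous e) (hr : Continuous r) (K' : ℝ) {Ω : Type*}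
    [MeasurableSpace Ω] (P : Measure Ω) [IsFiniteMeasure P] {W : Ω → Fin n → ℝ}
    (hW : Measurable W) :
    ∫ y in Icc (-K') K', e y * ∫ ω, T (r y • W ω) ∂P =
      ∫ ω, (∫ y in Icc (-K') K', e y * T (r y • W ω)) ∂P := by
  simp only [← integral_const_mul]
  refine integral_integral_swap ?_
  have h1 : Integrable (fun y => |e y| * b) (volume.restrict (Icc (-K') K')) :=
    (he.abs.mul continuous_const).integrableOn_Icc
  refine (h1.comp_fst P).mono' ?_ (ae_of_all _ fun p => ?_)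
  · exact ((he.measurable.comp measurable_fst).mul (hT.measurable.comp
      ((hr.measurable.comp measurable_fst).smul (hW.comp measurable_snd)))).aestronglyMeasurable
  · simp only [Function.uncurry, norm_mul, Real.norm_eq_abs]
    exact mul_le_mul_of_nonneg_left (hb _) (abs_nonneg _)

def cl (β : ℝ) (k : ℕ) (x : ℝ) : ℝ := max (if k = 0 then 0 else -β) (min β x)

def emb (β : ℝ) (k0 : ℕ) (v : Fin (k0 + 2) → ℝ) (k : ℕ) : ℝ :=
  if h : k ≤ k0 then cl β k (v ⟨k + 1, by omega⟩) else 0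

def Tt (G : (ℕ → ℝ) → ℝ) (χ : ℝ → ℝ) (β : ℝ) (k0 : ℕ) (v : Fin (k0 + 2) → ℝ) : ℝ :=
  Th G χ k0 (v 0) (emb β k0 v)

theorem cl_lip (β : ℝ) (k : ℕ) (x x' : ℝ) : |cl β k x - cl β k x'| ≤ |x - x'| := by
  have := ((LipschitzWith.id.const_min β).const_max (if k = 0 then 0 else -β)).dist_le_mul x x'
  simpa [Real.dist_eq, cl] using this

theorem cl_bd {β : ℝ} (hβ : 0 ≤ β) (k : ℕ) (x : ℝ) : |cl β k x| ≤ β := by
  unfold cl
  rw [abs_le]
  constructor
  · refine le_trans ?_ (le_max_left _ _); split_ifs <;> linarith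
  · refine max_le ?_ (min_le_left _ _); split_ifs <;> linarith

theorem emb_nn (β : ℝ) (k0 : ℕ) (v : Fin (k0 + 2) → ℝ) : 0 ≤ emb β k0 v 0 := by
  simp [emb, cl]

theorem emb_bd {β : ℝ} (hβ : 0 ≤ β) (k0 : ℕ) (v : Fin (k0 + 2) → ℝ) (k : ℕ) :
    |emb β k0 v k| ≤ β := by
  unfold emb; split_ifs
  · exact cl_bd hβ _ _
  · simpa using hβ

theorem emb_lip (β : ℝ) (k0 : ℕ) (v v' : Fin (k0 + 2) → ℝ) (k : ℕ) :
    |emb β k0 v k - emb β k0 v' k| ≤ dist v v' := by
  unfold emb; split_ifs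
  · exact (cl_lip _ _ _ _).trans (by rw [← Real.dist_eq]; exact dist_le_pi_dist v v' _)
  · simp

theorem Tt_eq {G : (ℕ → ℝ) → ℝ} {χ : ℝ → ℝ} {β : ℝ} {k0 : ℕ}
    (h : ∀ τ s, Th G χ k0 τ s ≠ 0 → 3 / 4 ≤ τ ∧ τ ≤ β) (u : ℕ → ℝ) (h0 : 0 ≤ u 1)
    (h1 : u 0 = 0 ∨ ∀ k ≤ k0, |u (k + 1)| ≤ u 0) :
    Tt G χ β k0 (fun i => u i) = Th G χ k0 (u 0) fun k => u (k + 1) := by
  by_cases hc : 3 / 4 ≤ u 0 ∧ u 0 ≤ β
  · have h2 : ∀ k ≤ k0, emb β k0 (fun i => u i) k = u (k + 1) := by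
      intro k hk
      have h3 := abs_le.1 (h1.resolve_left (by linarith [hc.1]) k hk)
      simp only [emb, hk, dif_pos, cl]
      rw [min_eq_right (by linarith [hc.2]), max_eq_right]
      split_ifs with h4
      · subst h4; exact h0
      · linarith [hc.2]
    unfold Tt Th
    rw [h2 0 (Nat.zero_le _)]
    congr 2; ext k
    split_ifs with hk
    · rw [h2 k hk]; rfl
    · rfl
  · have a1 : Tt G χ β k0 (fun i => u i) = 0 := by
      by_contra h5; exact hc (h _ _ h5)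
    have a2 : Th G χ k0 (u 0) (fun k => u (k + 1)) = 0 := by
      by_contra h5; exact hc (h _ _ h5)
    rw [a1, a2]

theorem W_nn (M : Model) (γ : ℝ) (L l : ℕ) {g : Cyl → ℝ} (hg : ∀ w, 0 ≤ g w) (ω : Om) :
    0 ≤ M.Wlat γ L l g ω := by
  refine tsum_nonneg fun i => ?_
  split_ifs
  · exact le_rfl
  · have := hg (toCyl ((((1 / 2 : ℝ) ^ l : ℝ) : ℂ) * zc i)); positivity

theorem W_le (M : Model) (γ : ℝ) (L l : ℕ) (g : Cyl → ℝ) (ω : Om) :
    M.Wlat γ L l g ω = 0 ∨ ∀ f : Cyl → ℝ, (∀ w, |f w| ≤ g w) →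
      |M.Wlat γ L l f ω| ≤ M.Wlat γ L l g ω := by
  unfold Model.Wlat
  by_cases hS : Summable fun i : ℤ × ℤ => if i = 0 then (0 : ℝ) else
    (1 / 4 : ℝ) ^ l * (2 ^ L * (1 / 2 : ℝ) ^ l) ^ (γ ^ 2 / 2) *
      g (toCyl ((((1 / 2 : ℝ) ^ l : ℝ) : ℂ) * zc i)) *
      Real.exp (γ * ω (M.eC ((((1 / 2 : ℝ) ^ l : ℝ) : ℂ) * zc i) (2 ^ L * (1 / 2 : ℝ) ^ l)
        - M.eC 0 1))
  · refine Or.inr fun f hf => ?_
    rw [← Real.norm_eq_abs]
    refine tsum_of_norm_bounded hS.hasSum fun i => ?_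
    split_ifs
    · simp
    · rw [Real.norm_eq_abs, abs_mul, abs_mul, abs_of_pos (Real.exp_pos _),
        abs_of_nonneg (by positivity)]
      exact mul_le_mul_of_nonneg_right (mul_le_mul_of_nonneg_left (hf _) (by positivity))
        (Real.exp_pos _).le
  · exact Or.inl (tsum_eq_zero_of_not_summable hS)

def mh (γ : ℝ) (f : C_c(Cyl, ℝ)) : C_c(Cyl, ℝ) :=
  ⟨⟨fun w => f w * hw γ w, f.continuous.mul (by unfold hw; fun_prop)⟩,
    f.hasCompactSupport.mul_right⟩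

theorem mh_int {γ : ℝ} (D : QD γ) (ω : D.Ω) (h : Measurable (twoS (D.β ω))) (f : C_c(Cyl, ℝ)) :
    ∫ w, mh γ f w ∂D.muZ D.ZQ ω = ∫ w, f w ∂D.mu0 ω := by
  have m1 : Measurable (D.ZQ ω) := h.sub (measurable_id.const_mul _)
  have m2 : Measurable (ydr (aa γ) (D.β ω)) := h.sub (measurable_id.abs.const_mul _)
  unfold QD.muZ QD.mu0
  rw [wgt_int m1, wgt_int m2]
  congr 1; ext w
  have e : γ * ydr (aa γ) (D.β ω) w.1 =
      γ * D.ZQ ω w.1 + (γ ^ 2 * w.1 - 2 * aa γ * γ * max (-w.1) 0) := by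
    unfold ydr QD.ZQ aa
    rcases le_total 0 w.1 with h | h
    · rw [abs_of_nonneg h, max_eq_right (by linarith)]; ring
    · rw [abs_of_nonpos h, max_eq_left (by linarith)]; ring
  rw [e, Real.exp_add]
  show _ * (f w * hw γ w) = _
  unfold hw; ring

end MT4b

open MT4b in
theorem blk_MT4b (hG1 : St_G1) (_hM : St_M0) (hRW : St_RW1) (hC : St_CYL) (hPH : St_PHI)
    (hT : St_THL) (hB : St_BM2) (h0 : St_BR0) (hBR : St_BR) (hMU : St_MU0) : St_MT4b := by
  intro γ hγ D c hc tf htf Λ G χ hΛ hG hχ η hη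
  obtain ⟨C, β, hC0, hβ, hTh⟩ := hT Λ χ hΛ hχ
  obtain ⟨hbp, hP⟩ := hB.1 γ D
  have hgm : IsProbabilityMeasure gm := hG1.1
  obtain ⟨-, -, hθ, h2, -⟩ := hRW.2.2 γ hγ
  have hGc := (hPH.2.2.2.2.2.1 Λ G hG).1
  obtain ⟨-, -, -, -, hjm, -, -, hct, -⟩ := hB.2.2.2 D.Ω D.P D.β hbp
  have htw : ∀ ω, Measurable (twoS (D.β ω)) := fun ω => hjm.comp measurable_prodMk_left
  obtain ⟨hgood, hMU2⟩ := hMU.2 γ hγ D
  obtain ⟨hobs, hI1, hI2, -, -⟩ := hMU2 tf htf
  obtain ⟨-, -, -, -, -, -, -, -, -, -, -, -, c13, -, c15, c16, c17, -⟩ := hC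
  choose F0 hF0 using c15
  let s : D.Ω → ℕ → ℝ := fun ω k => ∫ w, tf k w ∂D.mu0 ω
  let m : D.Ω → ℝ := fun ω => (D.mu0 ω).real univ
  let τ : ℕ → D.Ω → ℝ := fun K ω => ∫ w, F0 K w ∂D.mu0 ω
  have hs : AEMeasurable s D.P := measurable_snd.comp_aemeasurable hobs
  have hm : AEMeasurable m D.P := (measurable_fst.comp_aemeasurable hobs).ennreal_toReal
  have hτ : ∀ K, AEMeasurable (τ K) D.P := fun K =>
    ((h0 γ hγ D).2 (fun ω => ydr (aa γ) (D.β ω)) (hjm.sub (measurable_snd.abs.const_mul _))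
      (hct.mono fun ω hω => hω.1.sub (continuous_abs.const_mul _)) (F0 K)).2.1
  have hs0 : ∀ ω, 0 ≤ s ω 0 := fun ω => integral_nonneg fun w => by
    rw [htf.zero]; exact (c16 w).1
  have hτ0 : ∀ K ω, 0 ≤ τ K ω := fun K ω => integral_nonneg fun w => by
    rw [hF0]; exact (c17 K w).1
  have hm0 : ∀ ω, 0 ≤ m ω := fun ω => measureReal_nonneg
  have hl2 : 0 < l2 := Real.log_pos one_lt_two
  have hK : Tendsto (fun K : ℕ => (K : ℝ) * l2) atTop atTop :=
    tendsto_natCast_atTop_atTop.atTop_mul_const hl2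
  have hsup : ∀ k0, ∀ᶠ K in atTop, SuppK tf k0 K := by
    intro k0
    refine (eventually_ge_atTop 2).and ((eventually_all_finite (finite_le_nat k0)).2 fun k _ => ?_)
    obtain ⟨T, hT⟩ := (c13 (tf k)).2.2.2
    exact (hK.eventually_ge_atTop T).mono fun K h w hw => (hT w hw).trans h
  have hpt : ∀ k0 K, SuppK tf k0 K → ∀ k ≤ k0, ∀ w, |tf k w| ≤ F0 K w := by
    intro k0 K h k hk w
    rw [hF0]
    by_cases hw : tf k w = 0
    · simpa [hw] using (c17 K w).1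
    · rw [(c17 K w).2.2.1 (h.2 k hk w hw)]; exact htf.bd k w
  have hae : ∀ᵐ ω ∂D.P, (0 < m ω ∧ Tendsto (fun K => τ K ω) atTop (𝓝 (m ω))) ∧
      (∀ K, τ K ω ≤ m ω) ∧ ∀ k0 K, SuppK tf k0 K → ∀ k ≤ k0, |s ω k| ≤ τ K ω := by
    filter_upwards [hgood] with ω hω
    have hfin : IsFiniteMeasure (D.mu0 ω) := ⟨hω.1.1.lt_top⟩
    have hi : ∀ f : C_c(Cyl, ℝ), Integrable f (D.mu0 ω) := fun f =>
      f.continuous.integrable_of_hasCompactSupport f.hasCompactSupport
    have e1 : m ω = ∫ _, (1 : ℝ) ∂D.mu0 ω := by simp [m]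
    refine ⟨⟨ENNReal.toReal_pos (hω.1.2.2 univ isOpen_univ univ_nonempty) hω.1.1, ?_⟩,
      fun K => ?_, fun k0 K h k hk => ?_⟩
    · rw [e1]
      refine tendsto_integral_of_dominated_convergence (fun _ => 1) (fun K => (hi _).1)
        (integrable_const _) (fun K => ae_of_all _ fun w => ?_) (ae_of_all _ fun w => ?_)
      · rw [hF0, Real.norm_eq_abs, abs_of_nonneg (c17 K w).1]; exact (c17 K w).2.1
      · refine tendsto_const_nhds.congr' ((hK.eventually_ge_atTop |w.1|).mono fun K h => ?_)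
        simp only [hF0]; exact ((c17 K w).2.2.1 h).symm
    · rw [e1]
      exact integral_mono (hi _) (integrable_const _) fun w => by
        simp only [hF0]; exact (c17 K w).2.1
    · rw [← Real.norm_eq_abs]
      exact norm_integral_le_of_norm_le (hi _) (ae_of_all _ (hpt k0 K h k hk))
  set e0 := Real.exp (-(γ ^ 2 * Ie D.θ D.θ / 2)) with he0
  have he0p : 0 < e0 := Real.exp_pos _
  set cst := (c * e0) ^ th γ * γ⁻¹ * wn γ χ with hcst
  have hI3 : Integrable (fun ω => m ω ^ th γ * (s ω 0 / m ω) + s ω 0 ^ th γ) D.P := hI1.add hI2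
  have t1 := (lim1 hs hm hGc hG.1 hs0 hm0 hI1).const_mul cst
  have eL : ∫ ω, m ω ^ th γ * (s ω 0 / m ω * G fun k => s ω k / m ω) ∂D.P = D.Lz tf G := by
    unfold QD.Lz
    congr 1; ext ω
    rw [mul_assoc]; rfl
  rw [eL] at t1
  obtain ⟨k00, hk00⟩ := Metric.tendsto_atTop.1 t1 (η / 4) (by positivity)
  refine ⟨k00, fun k0 hk0 => ?_⟩
  have t2 := (lim2 hθ hs hτ hGc hG.1 hs0 hI3 ((hsup 0).mono fun K hS => hae.mono fun ω hω =>
    ⟨(le_abs_self _).trans (hω.2.2 0 K hS 0 le_rfl), hω.2.1 K⟩) (hae.mono fun ω hω => hω.1)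
    k0).const_mul cst
  obtain ⟨K0, hK0⟩ := eventually_atTop.1
    ((t2.eventually (Metric.ball_mem_nhds _ (by positivity : 0 < η / 4))).and (hsup k0))
  refine ⟨K0, fun K hKK => ⟨(hK0 K hKK).2, ?_⟩⟩
  obtain ⟨b2, hS⟩ := hK0 K hKK
  have t3 := lim3 hγ.1 h2 hχ (mul_pos hc he0p) hs (hτ K) hGc hG.1 hs0 (hτ0 K) hI3
    (hae.mono fun ω hω => dom hθ (hs0 ω)
      ((le_abs_self _).trans (hω.2.2 k0 K hS 0 (Nat.zero_le _))) (hω.2.1 K)) k0
  obtain ⟨K'0, hK'0⟩ := Metric.tendsto_atTop.1 t3 (η / 4) (by positivity)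
  refine ⟨K'0, fun K' hK' => ?_⟩
  obtain ⟨-, p2, p3, -, -, p6⟩ := hTh G hG k0
  have hβ0 : 0 ≤ β := by linarith
  have hb : ∀ v, |Tt G χ β k0 v| ≤ 2 * β := fun v => by
    have a1 := p3 (v 0) _ (emb_nn β k0 v)
    have a2 := (le_abs_self _).trans (emb_bd hβ0 k0 v 0)
    unfold Tt
    rw [abs_of_nonneg a1.1]; linarith [a1.2]
  have hL : LipschitzWith (Real.toNNReal (C * (1 + β * β))) (Tt G χ β k0) := by
    refine LipschitzWith.of_dist_le' fun v v' => ?_
    have a1 := p6 (v 0) (v' 0) (dist v v') β _ _ (emb_nn β k0 v) (emb_nn β k0 v') hβ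
      (by rw [← Real.dist_eq]; exact dist_le_pi_dist v v' 0)
      fun k _ => ⟨emb_lip β k0 v v' k, emb_bd hβ0 k0 v k, emb_bd hβ0 k0 v' k⟩
    rw [Real.dist_eq]
    refine a1.trans ?_
    rw [mul_assoc C]
    refine mul_le_mul_of_nonneg_left ?_ hC0
    have a2 : min (emb β k0 v 0) (emb β k0 v' 0) ≤ β :=
      (min_le_left _ _).trans ((le_abs_self _).trans (emb_bd hβ0 k0 v 0))
    have a3 := mul_le_mul_of_nonneg_left a2 (mul_nonneg hβ0 (dist_nonneg (x := v) (y := v')))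
    linarith [emb_lip β k0 v v' 0]
  have he : Continuous fun y => Real.exp (-(2 * aa γ) * y) := by fun_prop
  have hr : Continuous fun y => c * Real.exp (γ * y) := by fun_prop
  obtain ⟨B, hB0, Λ', hBL⟩ := H_BL hb hL he hr K'
  let ff : ℕ → C_c(Cyl, ℝ) := fun j => Nat.casesOn j (F0 K) tf
  obtain ⟨L0, hL0⟩ := (hBR γ hγ).2 D (k0 + 2) (fun i => mh γ (ff i)) Λ' (η / 4 / B)
    (by positivity)
  refine ⟨L0, fun L hL' => ?_⟩
  obtain ⟨l0, hl0⟩ := hL0 L hL'
  refine ⟨l0, fun l hl M => ?_⟩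
  have b4 := hl0 l hl M _ hBL
  rw [integral_div, integral_div, ← sub_div, abs_div, abs_of_pos hB0,
    div_le_div_iff_of_pos_right hB0] at b4
  have hhw : ∀ w, 0 < hw γ w := fun w => Real.exp_pos _
  have hWm : Measurable fun ω (i : Fin (k0 + 2)) => M.Wlat γ L l (mh γ (ff i)) ω := by
    refine measurable_pi_lambda _ fun i => (hBR γ hγ).1 M L l _ ?_
    obtain ⟨T, hT⟩ := (c13 (mh γ (ff i))).2.2.2
    refine ⟨Real.exp T, fun x hx h => ?_⟩
    have a1 := (abs_le.1 (hT _ h)).1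
    simp only [toCyl, neg_le_neg_iff] at a1
    exact (Real.log_le_iff_le_exp (norm_pos_iff.2 hx)).1 a1
  have eE1 : M.Elat γ c tf G χ k0 K K' L l = ∫ ω, (∫ y in Icc (-K') K',
      Real.exp (-(2 * aa γ) * y) * Tt G χ β k0 ((c * Real.exp (γ * y)) •
        fun i : Fin (k0 + 2) => M.Wlat γ L l (mh γ (ff i)) ω)) ∂gm := by
    rw [← fub hb hL.continuous he hr K' gm hWm]
    unfold Model.Elat
    congr 1; ext y; congr 2; ext ω
    have a0 : (fun w => f0 K w * hw γ w) = mh γ (ff 0) := by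
      ext w; rw [← hF0]; rfl
    have a1 : 0 < c * Real.exp (γ * y) := by positivity
    rw [a0]
    refine (Tt_eq p2 (fun j => c * Real.exp (γ * y) * M.Wlat γ L l (mh γ (ff j)) ω) ?_ ?_).symm
    · refine mul_nonneg a1.le (W_nn M γ L l (fun w => mul_nonneg ?_ (hhw w).le) ω)
      show 0 ≤ tf 0 w
      rw [htf.zero]; exact (c16 w).1
    · rcases W_le M γ L l (mh γ (ff 0)) ω with h | h
      · left; simp only [h, mul_zero]
      · refine Or.inr fun k hk => ?_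
        rw [abs_mul, abs_of_pos a1]
        refine mul_le_mul_of_nonneg_left (h _ fun w => ?_) a1.le
        show |tf k w * hw γ w| ≤ F0 K w * hw γ w
        rw [abs_mul, abs_of_pos (hhw w)]
        exact mul_le_mul_of_nonneg_right (hpt k0 K hS k hk w) (hhw w).le
  have eE2 : ∫ ω, (∫ y in Icc (-K') K', Real.exp (-(2 * aa γ) * y) *
      Tt G χ β k0 ((c * Real.exp (γ * y)) • fun i : Fin (k0 + 2) =>
        e0 * ∫ w, mh γ (ff i) w ∂D.muZ D.ZQ ω)) ∂D.P =
      ∫ ω, (∫ y in Icc (-K') K', II γ χ (c * e0 * τ K ω) y) *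
        (s ω 0 / τ K ω * G (trc k0 fun k => s ω k / τ K ω)) ∂D.P := by
    refine integral_congr_ae (hae.mono fun ω hω => ?_)
    simp only [mh_int D ω (htw ω)]
    rw [← integral_mul_const]
    congr 1; ext y
    have a1 : 0 < c * Real.exp (γ * y) * e0 := by positivity
    have a2 : ((c * Real.exp (γ * y)) • fun i : Fin (k0 + 2) => e0 * ∫ w, ff i w ∂D.mu0 ω) =
        fun i : Fin (k0 + 2) => c * Real.exp (γ * y) * e0 * ∫ w, ff i w ∂D.mu0 ω := by
      ext i; simp only [Pi.smul_apply, smul_eq_mul]; ring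
    have a3 := Tt_eq p2 (fun j => c * Real.exp (γ * y) * e0 * ∫ w, ff j w ∂D.mu0 ω)
      (mul_nonneg a1.le (hs0 ω)) (Or.inr fun k hk => by
        rw [abs_mul, abs_of_pos a1]
        exact mul_le_mul_of_nonneg_left (hω.2.2 k0 K hS k hk) a1.le)
    have a4 := Th_scale G χ k0 a1.ne' (τ K ω) (s ω)
    have a5 : c * Real.exp (γ * y) * e0 * τ K ω = c * e0 * τ K ω * Real.exp (γ * y) := by ring
    rw [a2, a3]
    refine (congrArg _ a4).trans ?_
    rw [a5, II]; ring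
  rw [eE2, ← eE1] at b4
  have b1 := hk00 k0 hk0
  have b3 := hK'0 K' hK'
  rw [Real.dist_eq, abs_lt] at b1 b2 b3
  rw [abs_le] at b4 ⊢
  constructor <;> linarith [b1.1, b1.2, b2.1, b2.2, b3.1, b3.2, b4.1, b4.2]

end

end Pool.Agent.Lib.APPS
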