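import Pool.Agent.Lib.APPS.Blue4

/-!
Assembly of the macroscopic limit.
-/

namespace Pool.Agent.Lib.APPS

open MeasureTheory ProbabilityTheory Filter Topology Set Metric
open scoped NNReal ENNReal CompactlySupported

noncomputable section

theorem blk_MTC (hMOD : St_MOD) (_hRW1 : St_RW1) (hR : St_R) (_hMU0 : St_MU0) (h1 : St_MT1)
    (h2 : St_MT2) (h3 : St_MT3) (h4a : St_MT4a) (h4b : St_MT4b) : St_MTC := by
  intro γ hγ D M hM tf htf Λ G₁ G₂ χ₁ χ₂ hΛ hG₁ hG₂ hχ₁ hχ₂ s hs η hη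
  have hγ0 := hγ.1
  have hc := (hR γ hγ).2.2.2.2.2.2
  set c := cc γ one with hcdef
  obtain ⟨i0, hi0⟩ := (hMOD M).2.2.2.2.2.2.2.2.2.2.2.2.2.2.1 hM
  have hOk := hi0 i0 le_rfl
  have h3' : ∀ (K' : ℝ) (K1 : ℕ), ∃ a : ℝ → ℝ, (∀ n, 0 ≤ a n) ∧ (i0 ≤ K1 → ∀ Λ G χ, 0 ≤ Λ →
      LipG Λ G → Chi χ → ∀ (k0 K L l : ℕ) (η : ℝ), 2 ≤ K → L ≤ l → 0 < η → ∀ᶠ n : ℝ in atTop,
      |M.Jdl γ tf G χ s k0 K K' K1 L l n - a n * M.Lpar γ c tf G χ k0 K K' L l| ≤ η) := by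
    intro K' K1
    by_cases h : i0 ≤ K1
    · obtain ⟨a, ha, ha'⟩ := h3 γ hγ M i0 hOk s K' K1 h
      exact ⟨a, ha, fun _ => ha' tf htf⟩
    · exact ⟨0, fun _ => le_rfl, fun h' => absurd h' h⟩
  choose a ha ha' using h3'
  set κ0 := (c * Real.exp (-(γ ^ 2 * Ie D.θ D.θ / 2))) ^ th γ * γ⁻¹ with hκ0
  have hκ : 0 < c / 16 * κ0 := by positivity
  set η2 := η * (c / 16 * κ0) / (c / 16 + 1) with hη2
  have hη20 : 0 < η2 := by positivity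
  have hη21 : (c / 16 + 1) * η2 = η * (c / 16 * κ0) := by
    rw [hη2]
    field_simp
  have hη3 : 0 < η / 3 := by positivity
  have key : ∀ G χ, LipG Λ G → Chi χ → ∀ᶠ k0 : ℕ in atTop, ∀ᶠ K : ℕ in atTop,
      ∀ᶠ K' : ℝ in atTop, ∀ᶠ K1 : ℕ in atTop, ∀ᶠ n : ℝ in atTop,
        |M.An γ tf G χ s n - a K' K1 n * (c / 16 * κ0) * D.Lz tf G * wn γ χ| ≤
          η * (1 + a K' K1 n * (c / 16 * κ0)) := by
    intro G χ hG hχ
    obtain ⟨k1, e1⟩ := h1 γ hγ M hM tf htf Λ G χ hΛ hG hχ s hs _ hη3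
    obtain ⟨k2, e2⟩ := h4b γ hγ D c hc tf htf Λ G χ hΛ hG hχ _ hη20
    filter_upwards [eventually_ge_atTop k1, eventually_ge_atTop k2] with k0 f1 f2
    obtain ⟨K1', e1⟩ := e1 k0 f1
    obtain ⟨K2', e2⟩ := e2 k0 f2
    filter_upwards [eventually_ge_atTop K1', eventually_ge_atTop K2'] with K f1 f2
    obtain ⟨x1, e1⟩ := e1 K f1
    obtain ⟨hS, x2, e2⟩ := e2 K f2
    obtain ⟨x3, e3⟩ := h4a γ hγ c hc.le tf htf Λ G χ hΛ hG hχ k0 K hS _ hη20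
    filter_upwards [eventually_ge_atTop x1, eventually_ge_atTop (2 * x2), eventually_ge_atTop x3,
      eventually_ge_atTop 0] with K' f1 f2 f3 f4
    obtain ⟨j1, e1⟩ := e1 K' f1
    obtain ⟨L1, e4⟩ := e2 (K' / 2) (by linarith)
    obtain ⟨L2, e5⟩ := e2 (2 * K') (by linarith)
    filter_upwards [eventually_ge_atTop j1, eventually_ge_atTop i0] with K1 g1 g2
    obtain ⟨L3, e6⟩ := h2 γ hγ M i0 hOk tf htf Λ G χ hΛ hG hχ s k0 K K' K1 _ hS.1 g2 hη3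
    obtain ⟨l1, e4⟩ := e4 (L1 + L2 + L3) (by omega)
    obtain ⟨l2', e5⟩ := e5 (L1 + L2 + L3) (by omega)
    obtain ⟨l3, g3, e6⟩ := e6 (L1 + L2 + L3) (by omega)
    obtain ⟨l4, e3⟩ := e3 K' f3 (L1 + L2 + L3)
    set l := l1 + l2' + l3 + l4 + K + 1 with hl
    have p3 := e3 l (by omega) M
    have p4 := abs_le.1 (e4 (l - K - 1) (by omega) M)
    have p5 := abs_le.1 (e5 (l - K - 1) (by omega) M)
    have p6 : |M.Lpar γ c tf G χ k0 K K' (L1 + L2 + L3) l - c / 16 * κ0 * D.Lz tf G * wn γ χ| ≤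
        η * (c / 16 * κ0) := by
      have q1 := mul_le_mul_of_nonneg_left p4.1 (show 0 ≤ c / 16 by positivity)
      have q2 := mul_le_mul_of_nonneg_left p5.2 (show 0 ≤ c / 16 by positivity)
      rw [abs_le]
      constructor <;> linarith [p3.1, p3.2]
    filter_upwards [e1 K1 g1, e6 l (by omega), ha' K' K1 g2 Λ G χ hΛ hG hχ k0 K (L1 + L2 + L3) l _
      hS.1 (by omega) hη3] with n r1 r2 r3
    rw [abs_le] at p6 r1 r2 r3 ⊢
    have q1 := mul_le_mul_of_nonneg_left p6.1 (ha K' K1 n)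
    have q2 := mul_le_mul_of_nonneg_left p6.2 (ha K' K1 n)
    constructor <;> linarith [r1.1, r1.2, r2.1, r2.2, r3.1, r3.2]
  obtain ⟨k0, e1, e2⟩ := ((key G₁ χ₁ hG₁ hχ₁).and (key G₂ χ₂ hG₂ hχ₂)).exists
  obtain ⟨K, e1, e2⟩ := (e1.and e2).exists
  obtain ⟨K', e1, e2⟩ := (e1.and e2).exists
  obtain ⟨K1, e1, e2⟩ := (e1.and e2).exists
  filter_upwards [e1, e2] with n e1 e2
  exact ⟨_, mul_nonneg (ha K' K1 n) hκ.le, e1, e2⟩

end

end Pool.Agent.Lib.APPS
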