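import Pool.Agent.Lib.APPS.B_MU0a

/-!
Block MU0: moments of the drifted chaos measure.
-/

namespace Pool.Agent.Lib.APPS

open MeasureTheory ProbabilityTheory Filter Topology Set Metric
open scoped NNReal ENNReal CompactlySupported BoundedContinuousFunction RealInnerProductSpace
  Classical

noncomputable section

namespace MU0

theorem bm_exp {Ω : Type} [MeasurableSpace Ω] {P : Measure Ω} {b : Ω → ℝ≥0 → ℝ} (hb : BM1 P b)
    (lam : ℝ) (t : ℝ≥0) : ∫⁻ ω, eE (lam * b ω t) ∂P = eE (t * lam ^ 2 / 2) := by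
  have h1 := hb.bm.toIsPreBrownianReal.hasLaw_eval t
  have h2 : ∫⁻ ω, eE (lam * b ω t) ∂P = ∫⁻ x, eE (lam * x) ∂gaussianReal 0 t :=
    h1.lintegral_comp (f := fun x => eE (lam * x))
      (meas_eE.comp (measurable_id.const_mul lam)).aemeasurable
  rw [h2]
  unfold eE
  rw [← ofReal_integral_eq_lintegral_ofReal (integrable_exp_mul_gaussianReal lam)
    (ae_of_all _ fun x => (Real.exp_pos _).le)]
  have h3 := congrFun (mgf_fun_id_gaussianReal (μ := 0) (v := t)) lam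
  simp only [mgf, zero_mul, zero_add] at h3
  rw [h3]

theorem meas_S0 (hBMX : St_BMX) : Measurable S0 :=
  ((hBMX.1 0).comp measurable_snd).add ((hBMX.1 1).comp measurable_snd)

theorem meas_SS (hBMX : St_BMX) (a : ℝ) (i : Bool × ℕ) : Measurable (SS a i) :=
  (((measurable_pi_apply _).comp (meas_side i.1)).sub_const _).add
    ((hBMX.1 _).comp (meas_side i.1))

theorem bm_side (hBM2 : St_BM2) {Ω : Type} [MeasurableSpace Ω] {P : Measure Ω} {β : Ω → PP}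
    (hβ : BP P β) (σ : Bool) : BM1 P fun ω => side σ (β ω) := by
  cases σ
  · exact (hBM2.2.2.2 Ω P β hβ).2.2.1
  · exact (hBM2.2.2.2 Ω P β hβ).2.1

theorem osc_exp (hBMX : St_BMX) (hBM2 : St_BM2) {Ω : Type} [MeasurableSpace Ω] {P : Measure Ω}
    {β : Ω → PP} (hβ : BP P β) (lam : ℝ) : ∃ C : ℝ≥0∞, C ≠ ∞ ∧ ∀ σ s,
      ∫⁻ ω, eE (lam * oscB (side σ (β ω)) s) ∂P ≤ C := by
  obtain ⟨C1, h1⟩ := (hBMX.2.2 Ω P _ (bm_side hBM2 hβ true)).2.2.2.1 lam
  obtain ⟨C2, h2⟩ := (hBMX.2.2 Ω P _ (bm_side hBM2 hβ false)).2.2.2.1 lam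
  refine ⟨ENNReal.ofReal C1 + ENNReal.ofReal C2, by simp, fun σ s => ?_⟩
  cases σ
  · exact (h2 s).trans le_add_self
  · exact (h1 s).trans le_self_add

theorem S0_exp (hBMX : St_BMX) (hBM2 : St_BM2) {Ω : Type} [MeasurableSpace Ω] {P : Measure Ω}
    {β : Ω → PP} (hβ : BP P β) (lam : ℝ) : ∫⁻ ω, eE (lam * S0 (β ω)) ∂P ≠ ∞ := by
  obtain ⟨C, hC, h⟩ := osc_exp hBMX hBM2 hβ (2 * lam)
  refine ne_top_of_le_ne_top (ENNReal.add_ne_top.2 ⟨hC, hC⟩) ?_
  calc ∫⁻ ω, eE (lam * S0 (β ω)) ∂P ≤ ∫⁻ ω, (eE (2 * lam * oscB (side false (β ω)) 0) +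
        eE (2 * lam * oscB (side false (β ω)) 1)) ∂P := by
        refine lintegral_mono fun ω => ?_
        have := eE_two (lam * oscB (β ω).2 0) (lam * oscB (β ω).2 1)
        simp only [S0, mul_add, mul_assoc, side, Bool.false_eq_true, if_false] at this ⊢
        exact this
    _ = _ := lintegral_add_left (meas_eE.comp ((((hBMX.1 0).comp
        ((meas_side false).comp hβ.meas))).const_mul _)) _
    _ ≤ C + C := add_le_add (h false 0) (h false 1)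

theorem SS_exp (hBMX : St_BMX) (hBM2 : St_BM2) {Ω : Type} [MeasurableSpace Ω] {P : Measure Ω}
    {β : Ω → PP} (hβ : BP P β) {a μ : ℝ} (hμ : 0 < μ) (hμa : μ < 2 * a) (ν : ℝ) :
    ∃ κ > 0, ∃ C : ℝ≥0∞, C ≠ ∞ ∧ ∀ i : Bool × ℕ,
      ∫⁻ ω, eE (μ * SS a i (β ω) + ν * S0 (β ω)) ∂P ≤ C * eE (-κ * i.2) := by
  set p : ℝ := (μ + 2 * a) / (2 * μ) with hp
  have hp1 : 1 < p := by rw [hp, one_lt_div (by positivity)]; linarith
  set q : ℝ := p / (p - 1) with hq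
  have hq1 : 1 < q := by rw [hq, one_lt_div (by linarith)]; linarith
  have hpq : 1 / p + 1 / q = 1 := by
    rw [hq]; field_simp; ring
  set lam : ℝ := p * μ with hlam
  have hlam2 : lam = (μ + 2 * a) / 2 := by rw [hlam, hp]; field_simp
  have hl0 : 0 < lam := by positivity
  have hl1 : lam < 2 * a := by linarith
  set κ : ℝ := lam * (a - lam / 2) / (2 * p) with hκ
  have hκ0 : 0 < κ := by
    rw [hκ]; exact div_pos (mul_pos hl0 (by linarith)) (by linarith)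
  have hκp : 2 * p * κ = lam * (a - lam / 2) := by rw [hκ]; field_simp
  obtain ⟨C1, hC1, h1⟩ := osc_exp hBMX hBM2 hβ (2 * (q * μ))
  have hC2 := S0_exp hBMX hBM2 hβ (2 * (q * ν))
  refine ⟨κ, hκ0, 1 + (C1 + ∫⁻ ω, eE (2 * (q * ν) * S0 (β ω)) ∂P),
    by simp [hC1, hC2], fun i => ?_⟩
  have hn : (0 : ℝ) ≤ i.2 := Nat.cast_nonneg _
  have hmb : Measurable fun ω => eE (lam * side i.1 (β ω) i.2) :=
    meas_eE.comp (((measurable_pi_apply _).comp ((meas_side i.1).comp hβ.meas)).const_mul _)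
  have hmo : Measurable fun ω => eE (2 * (q * μ) * oscB (side i.1 (β ω)) i.2) :=
    meas_eE.comp (((hBMX.1 _).comp ((meas_side i.1).comp hβ.meas)).const_mul _)
  calc ∫⁻ ω, eE (μ * SS a i (β ω) + ν * S0 (β ω)) ∂P
      ≤ ∫⁻ ω, (eE (lam * side i.1 (β ω) i.2) * eE ((p * κ - lam * a) * i.2) +
          (eE (2 * (q * μ) * oscB (side i.1 (β ω)) i.2) + eE (2 * (q * ν) * S0 (β ω))) *
            eE (-κ * i.2)) ∂P := by
        refine lintegral_mono fun ω => ?_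
        have e1 : μ * SS a i (β ω) + ν * S0 (β ω) =
            (μ * (side i.1 (β ω) i.2 - a * i.2) + κ * i.2) +
              (μ * oscB (side i.1 (β ω)) i.2 + ν * S0 (β ω) - κ * i.2) := by
          unfold SS; ring
        rw [e1]
        refine (eE_conv (by linarith) (by linarith) hpq).trans (add_le_add ?_ ?_)
        · rw [← eE_add]
          refine le_of_eq ?_
          congr 1
          rw [hlam]; ring
        · have e2 : q * (μ * oscB (side i.1 (β ω)) i.2 + ν * S0 (β ω) - κ * i.2) =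
              (q * μ * oscB (side i.1 (β ω)) i.2 + q * ν * S0 (β ω)) + -(q * κ) * i.2 := by ring
          rw [e2, eE_add]
          refine mul_le_mul' ?_ (eE_mono ?_)
          · refine (eE_two _ _).trans (le_of_eq ?_)
            congr 2 <;> ring
          · have : κ * i.2 ≤ q * (κ * i.2) := le_mul_of_one_le_left (by positivity) hq1.le
            nlinarith
    _ = eE (((i.2 : ℝ≥0) : ℝ) * lam ^ 2 / 2) * eE ((p * κ - lam * a) * i.2) +
          (∫⁻ ω, eE (2 * (q * μ) * oscB (side i.1 (β ω)) i.2) ∂P +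
            ∫⁻ ω, eE (2 * (q * ν) * S0 (β ω)) ∂P) * eE (-κ * i.2) := by
        rw [lintegral_add_left (hmb.mul_const _), lintegral_mul_const' _ _ (eE_ne_top _),
          lintegral_mul_const' _ _ (eE_ne_top _), lintegral_add_left hmo,
          bm_exp (bm_side hBM2 hβ i.1)]
    _ ≤ _ := by
        rw [add_mul 1, one_mul]
        refine add_le_add ?_ (by gcongr; exact h1 _ _)
        rw [← eE_add]
        refine eE_mono ?_
        push_cast
        have : κ * i.2 ≤ p * (κ * i.2) := le_mul_of_one_le_left (by positivity) hp1.le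
        have e3 : (i.2 : ℝ) * lam ^ 2 / 2 + (p * κ - lam * a) * i.2 =
            (p * κ - lam * (a - lam / 2)) * i.2 := by ring
        rw [e3, ← hκp]
        nlinarith

theorem indep (hLAWZ : St_LAWZ) {γ : ℝ} (hγ : γ ∈ Ioo (0 : ℝ) 2) (D : QD γ)
    (f : C_c(Cyl, ℝ)) (θ r : ℝ) (ρ : PP → ℝ≥0∞) (hρ : Measurable ρ) :
    AEMeasurable (fun ω => ENNReal.ofReal (∫ w, f w ∂trans r (D.nu ω)) ^ θ) D.P ∧
    ∫⁻ ω, ρ (D.β ω) * ENNReal.ofReal (∫ w, f w ∂trans r (D.nu ω)) ^ θ ∂D.P ≤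
      (∫⁻ ω, ρ (D.β ω) ∂D.P) *
        ∫⁻ ω, ENNReal.ofReal (∫ w, f w ∂trans r (D.nu ω)) ^ θ ∂D.P := by
  have hΨ : Measurable fun s : ℝ≥0∞ × (ℕ → ℝ) => ENNReal.ofReal (s.2 0) ^ θ :=
    (ENNReal.measurable_ofReal.comp ((measurable_pi_apply 0).comp measurable_snd)).pow_const θ
  obtain ⟨h1, h2⟩ := hLAWZ γ hγ D fun _ => f
  constructor
  · have := h1 r (fun _ _ => 0) measurable_const (ae_of_all _ fun _ => continuous_const)
    have h3 := hΨ.comp_aemeasurable this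
    simp only [wgt_zero] at h3
    exact h3
  · obtain ⟨Ψb, -, h4, h5⟩ := h2 (fun s => ENNReal.ofReal (s.2.2 0) ^ θ)
      (hΨ.comp measurable_snd)
    have h6 := h5 r (fun _ _ => 0) ρ measurable_const hρ (ae_of_all _ fun _ => continuous_const)
    have h7 := h4 (fun _ => 0) r continuous_const
    simp only [wgt_zero, obs] at h6 h7
    rw [h6, h7]
    exact le_of_eq (lintegral_mul_const _ (hρ.comp (by
      exact (measurable_pi_lambda _ D.hq.meas₁).prodMk (measurable_pi_lambda _ D.hq.meas₂))))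

theorem ydr_cont (hBM2 : St_BM2) {γ : ℝ} (D : QD γ) (a : ℝ) :
    ∀ᵐ ω ∂D.P, Continuous (ydr a (D.β ω)) := by
  have h := (hBM2.2.2.2 D.Ω D.P D.β (hBM2.1 γ D).1).2.2.2.2.2.2.2.1
  filter_upwards [h] with ω hω
  exact hω.1.sub (continuous_const.mul continuous_abs)

theorem hat_le (hCYL : St_CYL) (hBMX : St_BMX) (hBM2 : St_BM2) (hBR0 : St_BR0) (hRW1 : St_RW1)
    {γ : ℝ} (hγ : γ ∈ Ioo (0 : ℝ) 2) (D : QD γ) (f : C_c(Cyl, ℝ)) (hf : ∀ w, f w = hat0 w) :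
    ∀ᵐ ω ∂D.P, ENNReal.ofReal (∫ w, f w ∂D.mu0 ω) ≤
      eE (γ * S0 (D.β ω)) * ENNReal.ofReal (∫ w, f w ∂trans 0 (D.nu ω)) := by
  have hβ := (hBM2.1 γ D).1
  have h0 := (hBMX.2.2 D.Ω D.P _ (bm_side hBM2 hβ false)).2.2.1
  have hhat := hCYL.2.2.2.2.2.2.2.2.2.2.2.2.2.2.2.1
  have ha := (hRW1.2.2 γ hγ).1
  filter_upwards [h0, ydr_cont hBM2 D (aa γ)] with ω h1 h2
  have := ((hBR0 γ hγ D).1 ω).1
  refine ofReal_int_wgt_le γ f (fun w => by rw [hf]; exact (hhat w).1) _ _ h2 _ fun w hw => ?_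
  rw [hf] at hw
  obtain ⟨h3, h4⟩ := (hhat w).2.2 hw
  refine mul_le_mul_of_nonneg_left ?_ hγ.1.le
  refine ydr_le_S0 hBMX.2.1 ha _ (hβ.cont₂ ω) h1 ?_ h4
  have : l2 < 1 := by
    unfold l2
    have := Real.log_two_lt_d9
    linarith
  linarith

theorem th_lt {γ : ℝ} : th γ < 4 / γ ^ 2 := by unfold th; linarith

theorem momC (hRW1 : St_RW1) (hCYL : St_CYL) (hBMX : St_BMX) (hBM2 : St_BM2) (hBR0 : St_BR0)
    (hLAWZ : St_LAWZ) (hNU : St_NU) {γ : ℝ} (hγ : γ ∈ Ioo (0 : ℝ) 2) (D : QD γ)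
    (f : C_c(Cyl, ℝ)) (hf : ∀ w, f w = hat0 w) :
    ∫⁻ ω, ENNReal.ofReal (∫ w, f w ∂D.mu0 ω) ^ th γ ∂D.P ≠ ∞ := by
  have hβ := (hBM2.1 γ D).1
  have hθ := (hRW1.2.2 γ hγ).2.2.1
  have hhat := hCYL.2.2.2.2.2.2.2.2.2.2.2.2.2.2.2.1
  obtain ⟨K, hK⟩ := (hNU γ hγ D).2 (th γ) hθ th_lt f (fun w => by rw [hf]; exact (hhat w).1)
  have h1 := (indep hLAWZ hγ D f (th γ) 0 (fun p => eE (th γ * γ * S0 p))
    (meas_eE.comp ((meas_S0 hBMX).const_mul _))).2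
  refine ne_top_of_le_ne_top (ENNReal.mul_ne_top (S0_exp hBMX hBM2 hβ (th γ * γ))
    (ENNReal.ofReal_ne_top (r := K))) ?_
  refine le_trans ?_ (h1.trans (by gcongr; exact hK 0))
  refine lintegral_mono_ae ?_
  filter_upwards [hat_le hCYL hBMX hBM2 hBR0 hRW1 hγ D f hf] with ω hω
  refine (ENNReal.rpow_le_rpow hω hθ.le).trans (le_of_eq ?_)
  rw [ENNReal.mul_rpow_of_nonneg _ _ hθ.le, eE_rpow, mul_assoc]

theorem momB (hRW1 : St_RW1) (hCYL : St_CYL) (hBMX : St_BMX) (hBM2 : St_BM2) (hBR0 : St_BR0)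
    (hLAWZ : St_LAWZ) (hNU : St_NU) {γ : ℝ} (hγ : γ ∈ Ioo (0 : ℝ) 2) (D : QD γ)
    (f : C_c(Cyl, ℝ)) (hf : ∀ w, f w = hat0 w) (h1θ : 1 < th γ) :
    ∫⁻ ω, D.mu0 ω univ ^ (th γ - 1) * ENNReal.ofReal (∫ w, f w ∂D.mu0 ω) ∂D.P ≠ ∞ := by
  have hβ := (hBM2.1 γ D).1
  obtain ⟨ha, -, hθ, hγθ, -⟩ := hRW1.2.2 γ hγ
  have hhat := hCYL.2.2.2.2.2.2.2.2.2.2.2.2.2.2.2.1
  have hf0 := hCYL.2.2.2.2.2.2.2.2.2.2.2.2.2.2.2.2.1
  obtain ⟨g, hg⟩ := hCYL.2.2.2.2.2.2.2.2.2.2.2.2.2.2.1 2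
  have hg0 : ∀ w, 0 ≤ g w := fun w => by rw [hg]; exact (hf0 2 w).1
  have hg1 : ∀ w : Cyl, |w.1| ≤ 1 → g w = 1 := fun w hw => by
    rw [hg]
    refine (hf0 2 w).2.2.1 (hw.trans ?_)
    unfold l2
    have := Real.log_two_gt_d9
    push_cast
    linarith
  obtain ⟨K, hK⟩ := (hNU γ hγ D).2 (th γ) hθ th_lt f (fun w => by rw [hf]; exact (hhat w).1)
  obtain ⟨K', hK'⟩ := (hNU γ hγ D).2 (th γ) hθ th_lt g hg0
  set s := th γ - 1 with hs
  have hs0 : 0 < s := by linarith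
  have hs1 : s + 1 = th γ := by rw [hs]; ring
  obtain ⟨κ, hκ, C, hC, hSS⟩ := SS_exp hBMX hBM2 hβ (a := aa γ) (μ := s * γ)
    (mul_pos hs0 hγ.1) (by rw [hs]; nlinarith [hγ.1]) γ
  set δ := κ / (2 * s) with hδ
  have hδ0 : 0 < δ := by positivity
  have hδs : s * δ = κ / 2 := by rw [hδ]; field_simp
  set R := (∑' i : Bool × ℕ, eE (-δ * i.2)) ^ s with hR
  have hRt : R ≠ ∞ := ENNReal.rpow_ne_top_of_nonneg hs0.le (tsum_eE2 hδ0)
  set ρ : Bool × ℕ → PP → ℝ≥0∞ := fun i p => eE (s * γ * SS (aa γ) i p + γ * S0 p) with hρ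
  have hρm : ∀ i, Measurable (ρ i) := fun i =>
    meas_eE.comp (((meas_SS hBMX _ i).const_mul _).add ((meas_S0 hBMX).const_mul _))
  set N : Bool × ℕ → D.Ω → ℝ≥0∞ := fun i ω =>
    ENNReal.ofReal (∫ w, g w ∂trans (sh i) (D.nu ω)) with hN
  set N' : D.Ω → ℝ≥0∞ := fun ω => ENNReal.ofReal (∫ w, f w ∂trans 0 (D.nu ω)) with hN'
  have hae : ∀ᵐ ω ∂D.P, D.mu0 ω univ ^ s * ENNReal.ofReal (∫ w, f w ∂D.mu0 ω) ≤
      R * ∑' i : Bool × ℕ, eE (κ / 2 * i.2) *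
        (ρ i (D.β ω) * N i ω ^ th γ + ρ i (D.β ω) * N' ω ^ th γ) := by
    filter_upwards [hat_le hCYL hBMX hBM2 hBR0 hRW1 hγ D f hf] with ω hω
    have := ((hBR0 γ hγ D).1 ω).1
    have h1 := mass_le hBMX.2.1 hγ.1 ha g hg0 hg1 (D.nu ω) (D.β ω) (hβ.cont₁ ω) (hβ.cont₂ ω)
    have h2 := tsum_rpow_le (fun i : Bool × ℕ => eE (γ * SS (aa γ) i (D.β ω)) * N i ω)
      (fun i => eE (-δ * i.2)) (fun i => eE (δ * i.2))
      (fun i => by rw [← eE_add, ← eE_zero]; congr 1; ring) hs0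
    calc D.mu0 ω univ ^ s * ENNReal.ofReal (∫ w, f w ∂D.mu0 ω)
        ≤ (R * ∑' i : Bool × ℕ, (eE (γ * SS (aa γ) i (D.β ω)) * N i ω * eE (δ * i.2)) ^ s) *
          (eE (γ * S0 (D.β ω)) * N' ω) :=
          mul_le_mul' ((ENNReal.rpow_le_rpow h1 hs0.le).trans h2) hω
      _ ≤ _ := by
          rw [mul_assoc, ← ENNReal.tsum_mul_right]
          refine mul_le_mul_right (ENNReal.tsum_le_tsum fun i => ?_) _
          rw [ENNReal.mul_rpow_of_nonneg _ _ hs0.le, ENNReal.mul_rpow_of_nonneg _ _ hs0.le,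
            eE_rpow, eE_rpow, ← mul_add, ← mul_assoc s δ, hδs]
          have h3 := rpow_mul_le (N i ω) (N' ω) hs0
          rw [hs1] at h3
          calc eE (s * (γ * SS (aa γ) i (D.β ω))) * N i ω ^ s * eE (κ / 2 * i.2) *
                (eE (γ * S0 (D.β ω)) * N' ω)
              = eE (κ / 2 * i.2) * (ρ i (D.β ω) * (N i ω ^ s * N' ω)) := by
                simp only [hρ, eE_add, mul_assoc s γ]
                ring
            _ ≤ _ := by gcongr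
  have hI := fun i : Bool × ℕ => indep hLAWZ hγ D g (th γ) (sh i) (ρ i) (hρm i)
  have hI' := fun i : Bool × ℕ => indep hLAWZ hγ D f (th γ) 0 (ρ i) (hρm i)
  have hm1 : ∀ i, AEMeasurable (fun ω => ρ i (D.β ω) * N i ω ^ th γ) D.P := fun i =>
    ((hρm i).comp hβ.meas).aemeasurable.mul (hI i).1
  have hm2 : ∀ i, AEMeasurable (fun ω => ρ i (D.β ω) * N' ω ^ th γ) D.P := fun i =>
    ((hρm i).comp hβ.meas).aemeasurable.mul (hI' i).1
  refine ne_top_of_le_ne_top ?_ (lintegral_mono_ae hae)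
  have hm3 : ∀ i : Bool × ℕ, AEMeasurable (fun ω => eE (κ / 2 * i.2) *
      (ρ i (D.β ω) * N i ω ^ th γ + ρ i (D.β ω) * N' ω ^ th γ)) D.P := fun i =>
    ((hm1 i).add (hm2 i)).const_mul _
  rw [lintegral_const_mul' _ _ hRt, lintegral_tsum hm3]
  refine ENNReal.mul_ne_top hRt (ne_top_of_le_ne_top (ENNReal.mul_ne_top
    (ENNReal.mul_ne_top hC (b := ENNReal.ofReal K' + ENNReal.ofReal K) (by simp))
    (tsum_eE2 (half_pos hκ))) ?_)
  rw [← ENNReal.tsum_mul_left]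
  refine ENNReal.tsum_le_tsum fun i => ?_
  rw [lintegral_const_mul' _ _ (eE_ne_top _), lintegral_add_left' (hm1 i)]
  have e1 : eE (-(κ / 2) * i.2) = eE (κ / 2 * i.2) * eE (-κ * i.2) := by
    rw [← eE_add]; congr 1; ring
  calc eE (κ / 2 * i.2) * (∫⁻ ω, ρ i (D.β ω) * N i ω ^ th γ ∂D.P +
        ∫⁻ ω, ρ i (D.β ω) * N' ω ^ th γ ∂D.P)
      ≤ eE (κ / 2 * i.2) * (C * eE (-κ * i.2) * ENNReal.ofReal K' +
        C * eE (-κ * i.2) * ENNReal.ofReal K) := by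
        refine mul_le_mul_right (add_le_add ?_ ?_) _
        · exact (hI i).2.trans (mul_le_mul' (hSS i) (hK' _))
        · exact (hI' i).2.trans (mul_le_mul' (hSS i) (hK _))
    _ = _ := by rw [e1]; ring

theorem int_pos {m : Measure Cyl} (hm : GoodM m) (f : C_c(Cyl, ℝ)) (hf : ∀ w, f w = hat0 w)
    (hf0 : ∀ w, 0 ≤ f w) : 0 < ∫ w, f w ∂m := by
  have : IsFiniteMeasure m := ⟨lt_top_iff_ne_top.2 hm.1⟩
  rw [integral_pos_iff_support_of_nonneg (f := fun w => f w) hf0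
    (f.continuous.integrable_of_hasCompactSupport f.hasCompactSupport)]
  refine pos_iff_ne_zero.2 (hm.2.2 _ f.continuous.isOpen_support ⟨(-l2, 0), ?_⟩)
  have : l2 ≠ 0 := by
    unfold l2
    have := Real.log_two_gt_d9
    linarith
  simp only [Function.mem_support, hf, hat0]
  rw [neg_div, div_self this]
  simp

end MU0

open MU0 in
theorem blk_MU0 (_hG1 : St_G1) (_hG1D : St_G1D) (_hG3 : St_G3) (_hM0 : St_M0) (hRW1 : St_RW1)
    (hCYL : St_CYL) (hBMX : St_BMX) (hBM2 : St_BM2) (_hLAT : St_LAT) (hREC2 : St_REC2)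
    (hBR0 : St_BR0) (hLAWZ : St_LAWZ) (hNU : St_NU) : St_MU0 := by
  refine ⟨fun γ m z c C hγ hc hm hz hb => good_wgt γ m z c C hγ hc hm hz hb, fun γ hγ D => ?_⟩
  obtain ⟨hβ, hP⟩ := hBM2.1 γ D
  obtain ⟨ha, -, hθ, hγθ, -⟩ := hRW1.2.2 γ hγ
  have hhat := hCYL.2.2.2.2.2.2.2.2.2.2.2.2.2.2.2.1
  have hgood : ∀ᵐ ω ∂D.P, GoodM (D.mu0 ω) ∧ GoodM (D.μ ω) ∧
      ∀ M, GoodM (wgt γ (recY (aa γ) (eps M) (D.β ω)) (D.nu ω)) := by
    filter_upwards [(hNU γ hγ D).1, hREC2 D.Ω D.P D.β hβ (aa γ) ha, ydr_cont hBM2 D (aa γ),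
      (hBM2.2.2.2 D.Ω D.P D.β hβ).2.2.2.2.2.2.2.2.1 (aa γ) ha] with ω h1 h2 h3 h4
    obtain ⟨-, C, hC⟩ := h2
    refine ⟨good_wgt γ _ _ (aa γ / 2) C hγ.1 (half_pos ha) h1 h3 fun t => (hC t).2.1, ?_,
      fun M => good_wgt γ _ _ (aa γ / 2) C hγ.1 (half_pos ha) h1
        ((hBM2.2.2.1 (aa γ) _ (hβ.cont₁ ω) (hβ.cont₂ ω)).2.2 _) fun t => (hC t).2.2 M⟩
    rw [← ((hBR0 γ hγ D).1 ω).2]
    exact good_wgt γ _ _ (aa γ / 2) C hγ.1 (half_pos ha) h1 h4 fun t => (hC t).1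
  refine ⟨hgood, fun tf htf => ?_⟩
  have hf0 : ∀ w, 0 ≤ tf 0 w := fun w => by rw [htf.zero]; exact (hhat w).1
  have hobs : AEMeasurable (fun ω => obs tf (D.mu0 ω)) D.P := by
    have := (hLAWZ γ hγ D tf).1 0 (ydr (aa γ)) (hBM2.2.1.2 _).1 (ydr_cont hBM2 D _)
    simp only [trans_zero] at this
    exact this
  have hmass : AEMeasurable (fun ω => (D.mu0 ω).real univ) D.P := hobs.fst.ennreal_toReal
  have hint : ∀ k, AEMeasurable (fun ω => ∫ w, tf k w ∂D.mu0 ω) D.P := fun k =>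
    (measurable_pi_apply k).comp_aemeasurable hobs.snd
  have hobsn : AEMeasurable (fun ω => obsn tf (D.mu0 ω)) D.P :=
    aemeasurable_pi_lambda _ fun k => (hint k).div hmass
  have hFm : AEMeasurable (fun ω => (D.mu0 ω).real univ ^ th γ * obsn tf (D.mu0 ω) 0) D.P :=
    (hmass.pow_const _).mul ((hint 0).div hmass)
  have hI0 : ∀ ω, 0 ≤ ∫ w, tf 0 w ∂D.mu0 ω := fun ω => integral_nonneg hf0
  have hF0 : ∀ ω, 0 ≤ (D.mu0 ω).real univ ^ th γ * obsn tf (D.mu0 ω) 0 := fun ω =>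
    mul_nonneg (Real.rpow_nonneg measureReal_nonneg _) (div_nonneg (hI0 ω) measureReal_nonneg)
  have hmpos : ∀ m : Measure Cyl, GoodM m → 0 < m.real univ := fun m hm =>
    ENNReal.toReal_pos (hm.2.2 _ isOpen_univ univ_nonempty) hm.1
  have hC := momC hRW1 hCYL hBMX hBM2 hBR0 hLAWZ hNU hγ D (tf 0) htf.zero
  have hCi : Integrable (fun ω => (∫ w, tf 0 w ∂D.mu0 ω) ^ th γ) D.P := by
    refine ⟨((hint 0).pow_const _).aestronglyMeasurable, ?_⟩
    rw [hasFiniteIntegral_iff_ofReal (ae_of_all _ fun ω => Real.rpow_nonneg (hI0 ω) _)]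
    simp only [← ENNReal.ofReal_rpow_of_nonneg (hI0 _) hθ.le]
    exact lt_top_iff_ne_top.2 hC
  have hFeq : ∀ m : Measure Cyl, GoodM m → m.real univ ^ th γ * obsn tf m 0 =
      m.real univ ^ (th γ - 1) * ∫ w, tf 0 w ∂m := by
    intro m hm
    have := hmpos m hm
    rw [Real.rpow_sub_one this.ne', obsn]
    ring
  have hFi : Integrable (fun ω => (D.mu0 ω).real univ ^ th γ * obsn tf (D.mu0 ω) 0) D.P := by
    rcases le_or_gt (th γ) 1 with h1 | h1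
    · refine hCi.mono' hFm.aestronglyMeasurable ?_
      filter_upwards [hgood] with ω hω
      rw [Real.norm_of_nonneg (hF0 ω), hFeq _ hω.1]
      have hp := int_pos hω.1 (tf 0) htf.zero hf0
      have : IsFiniteMeasure (D.mu0 ω) := ⟨lt_top_iff_ne_top.2 hω.1.1⟩
      have hle : ∫ w, tf 0 w ∂D.mu0 ω ≤ (D.mu0 ω).real univ := by
        have := integral_mono (μ := D.mu0 ω) (f := fun w => tf 0 w) (g := fun _ => (1 : ℝ))
          ((tf 0).continuous.integrable_of_hasCompactSupport (tf 0).hasCompactSupport)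
          (integrable_const _) fun w => (le_abs_self _).trans (htf.bd 0 w)
        simpa using this
      have h2 := Real.rpow_le_rpow_of_nonpos hp hle (z := th γ - 1) (by linarith)
      calc (D.mu0 ω).real univ ^ (th γ - 1) * ∫ w, tf 0 w ∂D.mu0 ω
          ≤ (∫ w, tf 0 w ∂D.mu0 ω) ^ (th γ - 1) * ∫ w, tf 0 w ∂D.mu0 ω := by gcongr
        _ = _ := by rw [Real.rpow_sub_one hp.ne']; field_simp
    · have hB := momB hRW1 hCYL hBMX hBM2 hBR0 hLAWZ hNU hγ D (tf 0) htf.zero h1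
      refine ⟨hFm.aestronglyMeasurable, ?_⟩
      rw [hasFiniteIntegral_iff_ofReal (ae_of_all _ hF0)]
      refine lt_of_le_of_lt (lintegral_mono_ae ?_) (lt_top_iff_ne_top.2 hB)
      filter_upwards [hgood] with ω hω
      rw [hFeq _ hω.1, ENNReal.ofReal_mul (Real.rpow_nonneg measureReal_nonneg _),
        ← ENNReal.ofReal_rpow_of_nonneg measureReal_nonneg (by linarith), Measure.real,
        ENNReal.ofReal_toReal hω.1.1]
  have hGi : ∀ G : (ℕ → ℝ) → ℝ, Measurable G → (∀ s, 0 ≤ G s ∧ G s ≤ 1) →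
      Integrable (fun ω => (D.mu0 ω).real univ ^ th γ * obsn tf (D.mu0 ω) 0 *
        G (obsn tf (D.mu0 ω))) D.P := by
    intro G hG hG1
    refine hFi.mono' (hFm.mul (hG.comp_aemeasurable hobsn)).aestronglyMeasurable
      (ae_of_all _ fun ω => ?_)
    rw [Real.norm_of_nonneg (mul_nonneg (hF0 ω) (hG1 _).1)]
    exact mul_le_of_le_one_right (hF0 ω) (hG1 _).2
  have hone : ∀ s, 0 ≤ one' s ∧ one' s ≤ 1 := fun s => ⟨zero_le_one, le_rfl⟩
  refine ⟨hobs, hFi, hCi, fun G hG hG1 => ⟨hGi G hG hG1, ?_, ?_⟩, ?_⟩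
  · exact integral_nonneg fun ω => mul_nonneg (hF0 ω) (hG1 _).1
  · exact integral_mono (hGi G hG hG1) (hGi one' measurable_const hone) fun ω =>
      mul_le_mul_of_nonneg_left (hG1 _).2 (hF0 ω)
  · unfold QD.Lz
    rw [integral_pos_iff_support_of_nonneg (fun ω => mul_nonneg (hF0 ω) (hone _).1)
      (hGi one' measurable_const hone)]
    refine pos_iff_ne_zero.2 fun h0 => ?_
    have h1 : ∀ᵐ ω ∂D.P, False := by
      filter_upwards [hgood, measure_eq_zero_iff_ae_notMem.1 h0] with ω hω h2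
      refine h2 ?_
      simp only [Function.mem_support, one', mul_one]
      exact (mul_pos (Real.rpow_pos_of_pos (hmpos _ hω.1) _)
        (div_pos (int_pos hω.1 (tf 0) htf.zero hf0) (hmpos _ hω.1))).ne'
    exact (ae_neBot.2 (NeZero.ne D.P)).ne (eventually_false_iff_eq_bot.1 h1)

end

end Pool.Agent.Lib.APPS
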