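import Pool.Agent.Lib.APPS.Blue4

namespace Pool.Agent.Lib.APPS

open MeasureTheory ProbabilityTheory Filter Topology Set Metric
open scoped NNReal ENNReal CompactlySupported BoundedContinuousFunction RealInnerProductSpace
  Classical

noncomputable section

namespace MV

theorem piece {α β ι : Type*} [MeasurableSpace α] [MeasurableSpace β] [Countable ι]
    (f : α → ι) (hf : ∀ i, MeasurableSet {a | f a = i}) (g : ι → α → β)
    (hg : ∀ i, Measurable (g i)) : Measurable fun a => g (f a) a := by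
  intro s hs
  have : (fun a => g (f a) a) ⁻¹' s = ⋃ i, {a | f a = i} ∩ g i ⁻¹' s := by
    ext a
    simp only [mem_preimage, mem_iUnion, mem_inter_iff, Set.mem_ofPred_eq]
    constructor
    · intro h; exact ⟨_, rfl, h⟩
    · rintro ⟨i, rfl, h⟩; exact h
  rw [this]
  exact MeasurableSet.iUnion fun i => (hf i).inter (hg i hs)

theorem mem_part (Q : ℝ) (S : Dy) : MeasurableSet {h : Dy → ℝ | S ∈ part Q h} := by
  have hm : ∀ S : Dy, Measurable fun h : Dy → ℝ => Real.exp (h S / Q) * side S := fun S => by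
    have h1 : Measurable fun h : Dy → ℝ => h S := measurable_pi_apply S
    exact (h1.div_const Q).exp.mul_const _
  have : {h : Dy → ℝ | S ∈ part Q h} = {h | Real.exp (h S / Q) * side S ≤ 1} ∩
      ⋂ S' : {S' : Dy // box S ⊂ box S'}, {h | 1 < Real.exp (h S'.1 / Q) * side S'.1} := by
    ext h
    simp only [part, Set.mem_ofPred_eq, mem_inter_iff, mem_iInter, Subtype.forall]
  rw [this]
  exact (measurableSet_le (hm S) measurable_const).inter
    (MeasurableSet.iInter fun S' => measurableSet_lt measurable_const (hm _))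

theorem part_eq (Q : ℝ) (L : Finset Dy) : MeasurableSet {h : Dy → ℝ | part Q h = ↑L} := by
  have : {h : Dy → ℝ | part Q h = ↑L} =
      ⋂ S : Dy, if S ∈ L then {h | S ∈ part Q h} else {h | S ∈ part Q h}ᶜ := by
    ext h
    simp only [Set.mem_ofPred_eq, mem_iInter, Set.ext_iff, Finset.mem_coe]
    refine forall_congr' fun S => ?_
    by_cases hS : S ∈ L <;> simp [hS]
  rw [this]
  refine MeasurableSet.iInter fun S => ?_
  split_ifs
  · exact mem_part Q S
  · exact (mem_part Q S).compl

theorem partF_eq (Q : ℝ) (L : Finset Dy) : MeasurableSet {h : Dy → ℝ | partF Q h = L} := by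
  have hfin : MeasurableSet {h : Dy → ℝ | (part Q h).Finite} := by
    have : {h : Dy → ℝ | (part Q h).Finite} = ⋃ L : Finset Dy, {h | part Q h = ↑L} := by
      ext h
      simp only [Set.mem_ofPred_eq, mem_iUnion]
      constructor
      · intro hf; exact ⟨hf.toFinset, by simp⟩
      · rintro ⟨L, hL⟩; rw [hL]; exact L.finite_toSet
    rw [this]
    exact MeasurableSet.iUnion fun L => part_eq Q L
  have : {h : Dy → ℝ | partF Q h = L} =
      {h | part Q h = ↑L} ∪ (if L = ∅ then {h : Dy → ℝ | (part Q h).Finite}ᶜ else ∅) := by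
    ext h
    simp only [Set.mem_ofPred_eq, mem_union, partF]
    by_cases hf : (part Q h).Finite
    · rw [dif_pos hf]
      constructor
      · intro e; left; rw [← e]; simp
      · rintro (e | e)
        · ext S; simp [e]
        · split_ifs at e
          · exact absurd hf e
          · exact absurd e (notMem_empty _)
    · rw [dif_neg hf]
      constructor
      · intro e; right; rw [if_pos e.symm]; exact hf
      · rintro (e | e)
        · exact absurd (e ▸ L.finite_toSet) hf
        · split_ifs at e with h0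
          · exact h0.symm
          · exact absurd e (notMem_empty _)
  rw [this]
  refine (part_eq Q L).union ?_
  split_ifs
  · exact hfin.compl
  · exact MeasurableSet.empty

variable {g : Met} {M : Model}

theorem U_cont (hE : St_EXP2) (hL : Lnk g M) (S : Dy) : Continuous (g.U S) := by
  obtain ⟨-, -, -, -, -, C, hC0, -, hlip, -⟩ := hE
  have h1 : Continuous (potS S) := by
    refine (LipschitzWith.of_dist_le' (K := C / side S) fun z z' => ?_).continuous
    rw [Real.dist_eq, dist_eq_norm]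
    exact hlip S z z'
  have : g.U S = fun z => M.C0 + potS S z - M.bg z := funext fun z => hL.U S z
  rw [this]
  exact (continuous_const.add h1).sub M.bgc

theorem U_bdd (hE : St_EXP2) (hG : St_GEO1) (hL : Lnk g M) (S : Dy) :
    ∃ B, ∀ z, |g.U S z| ≤ B := by
  obtain ⟨-, -, -, -, -, C, hC0, hp, -⟩ := hE
  obtain ⟨C', hC'⟩ := hL.grow
  obtain ⟨hs0, hs1⟩ := hG.1 S
  set c := ‖ctr S‖ with hc
  have hc0 : 0 ≤ c := norm_nonneg _
  set K := (2 + c) / side S with hK
  have hK1 : 2 + c ≤ K := by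
    rw [hK, le_div_iff₀ hs0]; nlinarith
  refine ⟨|M.C0| + C + C' / 2 + Real.log K, fun z => ?_⟩
  set m := max ‖z - ctr S‖ (side S) with hm
  have hm0 : 0 < m := lt_of_lt_of_le hs0 (le_max_right _ _)
  have hz : 0 < 1 + ‖z‖ := by positivity
  have hz0 : 0 ≤ ‖z‖ := norm_nonneg _
  have h1 : m ≤ K * (1 + ‖z‖) := by
    have : ‖z - ctr S‖ ≤ ‖z‖ + c := norm_sub_le _ _
    refine max_le ?_ ?_ <;> nlinarith
  have h2 : 1 + ‖z‖ ≤ K * m := by
    have h3 : ‖z‖ ≤ ‖z - ctr S‖ + c := by
      calc ‖z‖ = ‖(z - ctr S) + ctr S‖ := by simp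
        _ ≤ _ := norm_add_le _ _
    have h4 : ‖z - ctr S‖ ≤ m := le_max_left _ _
    have h5 : side S ≤ m := le_max_right _ _
    rw [hK, div_mul_eq_mul_div, le_div_iff₀ hs0]
    have h6 : ‖z - ctr S‖ * side S ≤ m := by nlinarith [norm_nonneg (z - ctr S)]
    nlinarith
  have hK0 : 0 < K := by linarith
  have l1 : Real.log m ≤ Real.log K + Real.log (1 + ‖z‖) := by
    rw [← Real.log_mul hK0.ne' hz.ne']; exact Real.log_le_log hm0 h1
  have l2' : Real.log (1 + ‖z‖) ≤ Real.log K + Real.log m := by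
    rw [← Real.log_mul hK0.ne' hm0.ne']; exact Real.log_le_log hz h2
  have a1 := abs_le.1 (hp S z)
  have a2 := abs_le.1 (hC' z)
  rw [hL.U S z, hL.bg z, abs_le]
  constructor <;> linarith [le_abs_self M.C0, neg_abs_le M.C0, a1.1, a1.2, a2.1, a2.2]

theorem krig_bdd (hE : St_EXP2) (hG : St_GEO1) (hL : Lnk g M) (T : Finset Dy) (h : Dy → ℝ) :
    ∃ B, ∀ z, g.krig T h z ≤ B := by
  choose B hB using U_bdd hE hG hL
  refine ⟨∑ S : T, ∑ S' : T,
    B S * |(Matrix.of fun A B : T => g.cov A B)⁻¹ S S' * h S'|, fun z => ?_⟩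
  refine Finset.sum_le_sum fun S _ => Finset.sum_le_sum fun S' _ => ?_
  rw [mul_assoc]
  refine (le_abs_self _).trans ?_
  rw [abs_mul]
  exact mul_le_mul_of_nonneg_right (hB S z) (abs_nonneg _)

theorem krig_meas (hE : St_EXP2) (hL : Lnk g M) (T : Finset Dy) :
    Measurable fun p : (Dy → ℝ) × ℂ => g.krig T p.1 p.2 := by
  unfold Met.krig
  refine Finset.measurable_sum _ fun S _ => Finset.measurable_sum _ fun S' _ => ?_
  exact (((U_cont hE hL S).measurable.comp measurable_snd).mul_const _).mul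
    ((measurable_pi_apply (S' : Dy)).comp measurable_fst)

theorem krig_meas' (hE : St_EXP2) (hL : Lnk g M) (T : Finset Dy) (h : Dy → ℝ) :
    Measurable fun z : ℂ => g.krig T h z := by
  unfold Met.krig
  refine Finset.measurable_sum _ fun S _ => Finset.measurable_sum _ fun S' _ => ?_
  exact ((U_cont hE hL S).measurable.mul_const _).mul_const _

theorem fin_of (hL : Lnk g M) (k : ℂ → ℝ) (B : ℝ) (hB : ∀ z, k z ≤ B) :
    IsFiniteMeasure (volume.withDensity fun z => ENNReal.ofReal (Real.exp (k z + 2 * g.σ z))) := by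
  obtain ⟨C', hC'⟩ := hL.grow
  refine isFiniteMeasure_withDensity (ne_of_lt ?_)
  have hi : Integrable (fun z : ℂ => Real.exp (B + 2 * C') * (1 + ‖z‖) ^ (-(4 : ℝ))) volume :=
    (integrable_one_add_norm (by simp; norm_num)).const_mul _
  refine lt_of_le_of_lt (lintegral_mono fun z => ?_) hi.lintegral_lt_top
  refine ENNReal.ofReal_le_ofReal ?_
  have hz : 0 < 1 + ‖z‖ := by positivity
  rw [Real.rpow_def_of_pos hz, ← Real.exp_add]
  refine Real.exp_le_exp.2 ?_
  have a2 := abs_le.1 (hC' z)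
  linarith [hB z, a2.2]

theorem ne_zero_of (k : ℂ → ℝ) (hk : Measurable k) :
    (volume.withDensity fun z : ℂ => ENNReal.ofReal (Real.exp (k z))) ≠ 0 := by
  intro h
  rw [withDensity_eq_zero_iff hk.exp.ennreal_ofReal.aemeasurable] at h
  have h2 : ∀ᵐ z : ℂ, False := by
    filter_upwards [h] with z hz
    simp only [Pi.zero_apply, ENNReal.ofReal_eq_zero] at hz
    exact absurd hz (not_le.2 (Real.exp_pos _))
  rw [ae_iff] at h2
  simp at h2

theorem meas_wd {α : Type*} [MeasurableSpace α] (F : α × ℂ → ℝ≥0∞) (hF : Measurable F) :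
    Measurable fun a => (volume : Measure ℂ).withDensity fun z => F (a, z) := by
  refine Measure.measurable_of_measurable_coe _ fun s hs => ?_
  simp only [withDensity_apply _ hs]
  exact hF.lintegral_prod_right'

theorem vol_meas (hE : St_EXP2) (hL : Lnk g M) (Q : ℝ) (C : (Dy → ℝ) → ℝ) (hC : Measurable C) :
    Measurable fun h => g.vol Q h (C h) := by
  have hk : Measurable fun p : (Dy → ℝ) × ℂ => g.krig (partF Q p.1) p.1 p.2 :=
    piece (fun p : (Dy → ℝ) × ℂ => partF Q p.1)
      (fun L => measurable_fst (partF_eq Q L)) (fun L p => g.krig L p.1 p.2)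
      (krig_meas hE hL)
  exact meas_wd (fun p : (Dy → ℝ) × ℂ => ENNReal.ofReal
      (Real.exp (2 * (g.krig (partF Q p.1) p.1 p.2 / Q + C p.1) + 2 * g.σ p.2)))
    ((((hk.div_const Q).add (hC.comp measurable_fst)).const_mul 2).add
      ((g.hσ.continuous.measurable.comp measurable_snd).const_mul 2)).exp.ennreal_ofReal

theorem vol_fin (hE : St_EXP2) (hG : St_GEO1) (hL : Lnk g M) (Q : ℝ) (hQ : 0 < Q) (h : Dy → ℝ)
    (C : ℝ) : IsFiniteMeasure (g.vol Q h C) ∧ g.vol Q h C ≠ 0 := by
  obtain ⟨B, hB⟩ := krig_bdd hE hG hL (partF Q h) h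
  refine ⟨fin_of hL _ (2 * (B / Q + C)) fun z => ?_, ne_zero_of _ ?_⟩
  · have := div_le_div_of_nonneg_right (hB z) hQ.le
    linarith
  · have hk : Measurable fun z => g.krig (partF Q h) h z :=
      krig_meas' hE hL _ _
    exact (((hk.div_const Q).add_const C).const_mul 2).add
      (g.hσ.continuous.measurable.const_mul 2)

theorem vol_smul (hE : St_EXP2) (hL : Lnk g M) (Q : ℝ) (h : Dy → ℝ) (C : ℝ) :
    g.vol Q h C = ENNReal.ofReal (Real.exp (2 * C)) • g.vol Q h 0 := by
  have hk : Measurable fun z => g.krig (partF Q h) h z :=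
    krig_meas' hE hL _ _
  unfold Met.vol
  rw [← withDensity_smul]
  · congr 1
    funext z
    simp only [Pi.smul_apply, smul_eq_mul]
    rw [← ENNReal.ofReal_mul (Real.exp_pos _).le, ← Real.exp_add]
    congr 2
    ring
  · exact ((((hk.div_const Q).add_const 0).const_mul 2).add
      (g.hσ.continuous.measurable.const_mul 2)).exp.ennreal_ofReal

theorem norm_id (n V : ℝ) (hn : 0 < n) (hV : 0 < V) :
    Real.exp (2 * (1 / 4 * Real.log n - 3 / 4 * Real.log V)) = Real.sqrt (n / V) * V⁻¹ := by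
  have h1 : Real.sqrt (n / V) = Real.exp ((Real.log n - Real.log V) / 2) := by
    rw [Real.exp_half, Real.exp_sub, Real.exp_log hn, Real.exp_log hV]
  have h2 : V⁻¹ = Real.exp (-Real.log V) := by rw [Real.exp_neg, Real.exp_log hV]
  rw [h1, h2, ← Real.exp_add]
  congr 1
  ring

end MV

open MV in
theorem blk_MV (hE : St_EXP2) (hG : St_GEO1) (hT1 : St_T1) (hT3 : St_T3) (hRW : St_RW1)
    (hKR : St_KR) : St_MV := by
  intro γ hγ g M hL
  obtain ⟨-, hQ2, -, -, -, -, hb0, -⟩ := hRW.2.2 γ hγ
  have hQ : 0 < QQ γ := by linarith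
  refine ⟨fun h => vol_fin hE hG hL _ hQ h _, ?_, fun ω => ⟨?_, ?_⟩, ?_, fun ω hω => ?_⟩
  · refine vol_meas hE hL _ _ ?_
    have h1 : Measurable fun h : Dy → ℝ => ((partF (QQ γ) h).card : ℝ) :=
      piece (fun h : Dy → ℝ => partF (QQ γ) h) (partF_eq _) (fun L _ => (L.card : ℝ))
        fun _ => measurable_const
    have h2 : Measurable fun h : Dy → ℝ => g.vol (QQ γ) h 0 univ :=
      (Measure.measurable_coe MeasurableSet.univ).comp
        (vol_meas hE hL _ (fun _ => 0) measurable_const)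
    exact (h1.log.const_mul _).sub (h2.ennreal_toReal.log.const_mul _)
  · obtain ⟨B, hB⟩ := krig_bdd hE hG hL (lvs (tr (M.X γ 0 ω))) fun S => ω (M.eS S)
    exact fin_of hL _ (bt γ * B) fun z => mul_le_mul_of_nonneg_left (hB z) hb0.le
  · exact withDensity_absolutelyContinuous _ _
  · have hk := (hKR g M hL).2.2 γ
    exact meas_wd (fun p : Om × ℂ => eE (bt γ * M.kr g (tr (M.X γ 0 p.1)) p.1 p.2 + 2 * g.σ p.2))
      ((hk.const_mul _).add
        ((g.hσ.continuous.measurable.comp measurable_snd).const_mul 2)).exp.ennreal_ofReal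
  · obtain ⟨-, -, hcard, -, -, -, -, -, -, -, -, -, hHas, -, hIs, -⟩ := hT1
    have hH := hHas _ hω
    obtain ⟨hp, hpF⟩ := hT3.2.2.2.2.2.2.2.2.2.2.2.2 (QQ γ) (fun S => ω (M.eS S)) _ hQ hH
    have hc := (hcard _ (hIs (M.X γ 0 ω))).1
    refine ⟨?_, by rw [hp, Set.ncard_coe_finset, hc]⟩
    have h0 : g.vol (QQ γ) (fun S => ω (M.eS S)) 0 = M.volT g γ ω := by
      unfold Met.vol Model.volT eE Model.kr bt
      rw [hpF]
      congr 1
      funext z
      congr 2
      ring
    obtain ⟨hfin, hne⟩ := vol_fin hE hG hL _ hQ (fun S => ω (M.eS S)) 0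
    rw [h0] at hfin hne
    unfold Met.volg nvol
    rw [vol_smul hE hL, h0, hpF, hc, smul_smul]
    have hu0 : M.volT g γ ω univ ≠ 0 := fun h => hne (Measure.measure_univ_eq_zero.1 h)
    have huT : M.volT g γ ω univ ≠ ∞ := measure_ne_top _ _
    have hV : 0 < (M.volT g γ ω univ).toReal := ENNReal.toReal_pos hu0 huT
    rw [norm_id _ _ (by positivity) hV, ENNReal.ofReal_mul (Real.sqrt_nonneg _),
      ENNReal.ofReal_inv_of_pos hV, ENNReal.ofReal_toReal huT]
    congr 4
    push_cast
    rfl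

end

end Pool.Agent.Lib.APPS
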