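import Pool.Agent.Lib.APPS.Blue5

/-!
Block NF1: the logarithmic potential of a rectangle.
-/

namespace Pool.Agent.Lib.APPS

open MeasureTheory ProbabilityTheory Filter Topology Set Metric
open scoped NNReal ENNReal

noncomputable section

namespace NF1

theorem lg_symm (s t : ℝ) : lg s t = lg t s := by rw [lg, lg, add_comm]

theorem lg_meas : Measurable fun p : ℝ × ℝ => lg p.1 p.2 := by
  unfold lg
  fun_prop

theorem lg_bd {a b s t : ℝ} (hs : s ∈ Icc 0 a) (ht : t ∈ Icc 0 b) (h0 : s ≠ 0) :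
    |lg s t| ≤ |Real.log s| + Real.log (a ^ 2 + b ^ 2 + 1) := by
  have hs0 : 0 < s := lt_of_le_of_ne hs.1 (Ne.symm h0)
  have h1 : Real.log (s ^ 2) ≤ Real.log (s ^ 2 + t ^ 2) :=
    Real.log_le_log (by positivity) (by nlinarith [sq_nonneg t])
  have h2 : Real.log (s ^ 2 + t ^ 2) ≤ Real.log (a ^ 2 + b ^ 2 + 1) :=
    Real.log_le_log (by positivity) (by nlinarith [hs.1, hs.2, ht.1, ht.2])
  have h3 : 0 ≤ Real.log (a ^ 2 + b ^ 2 + 1) :=
    Real.log_nonneg (by nlinarith [sq_nonneg a, sq_nonneg b])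
  rw [Real.log_pow] at h1
  have h4 := neg_abs_le (Real.log s)
  have h5 := abs_nonneg (Real.log s)
  rw [lg, abs_le]
  push_cast at h1
  constructor <;> linarith

theorem integ (a b : ℝ) (ha : 0 ≤ a) :
    IntegrableOn (fun p : ℝ × ℝ => lg p.1 p.2) (Icc 0 a ×ˢ Icc 0 b) := by
  have h1 : IntegrableOn Real.log (Icc 0 a) :=
    (intervalIntegrable_iff_integrableOn_Icc_of_le ha).1 intervalIntegral.intervalIntegrable_log'
  have h2 : Integrable (fun s => |Real.log s| + Real.log (a ^ 2 + b ^ 2 + 1))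
      (volume.restrict (Icc 0 a)) := h1.abs.add (integrable_const _)
  have h3 := h2.comp_fst (volume.restrict (Icc (0 : ℝ) b))
  rw [Measure.prod_restrict] at h3
  refine Integrable.mono' h3 lg_meas.aestronglyMeasurable ?_
  have h4 : ∀ᵐ p : ℝ × ℝ ∂volume, p.1 ≠ 0 :=
    Measure.quasiMeasurePreserving_fst.ae (Measure.ae_ne volume (0 : ℝ))
  filter_upwards [ae_restrict_mem (measurableSet_Icc.prod measurableSet_Icc), ae_restrict_of_ae h4]
    with p hp h0
  exact lg_bd hp.1 hp.2 h0

theorem FF_eq (a b : ℝ) (ha : 0 ≤ a) (hb : 0 ≤ b) :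
    FF a b = ∫ p in Icc 0 a ×ˢ Icc 0 b, lg p.1 p.2 := by
  rw [FF, Measure.volume_eq_prod, setIntegral_prod _ (integ a b ha),
    intervalIntegral.integral_of_le ha, integral_Icc_eq_integral_Ioc]
  simp_rw [intervalIntegral.integral_of_le hb, integral_Icc_eq_integral_Ioc]

theorem FF_symm (a b : ℝ) (ha : 0 ≤ a) (hb : 0 ≤ b) : FF a b = FF b a := by
  rw [FF_eq a b ha hb, FF_eq b a hb ha, Measure.volume_eq_prod, ← setIntegral_prod_swap]
  simp_rw [Prod.fst_swap, Prod.snd_swap, lg_symm]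

theorem inner_int (a b : ℝ) (ha : 0 ≤ a) (hb : 0 ≤ b) :
    IntervalIntegrable (fun s => ∫ t in (0 : ℝ)..b, lg s t) volume 0 a := by
  have h := integ a b ha
  rw [IntegrableOn, Measure.volume_eq_prod, ← Measure.prod_restrict] at h
  have h1 := h.integral_prod_left
  rw [intervalIntegrable_iff_integrableOn_Icc_of_le ha]
  simp_rw [intervalIntegral.integral_of_le hb, ← integral_Icc_eq_integral_Ioc]
  exact h1

theorem lg_cont {s : ℝ} (hs : 0 < s) : Continuous fun t => lg s t := by
  unfold lg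
  refine continuous_const.mul (Continuous.log (by fun_prop) fun t => ?_)
  positivity

theorem concave_int (f : ℝ → ℝ) (hi : ∀ a, 0 ≤ a → IntervalIntegrable f volume 0 a)
    (hf : ∀ s s', 0 < s → s ≤ s' → f s' ≤ f s) :
    ConcaveOn ℝ (Ici 0) fun a => ∫ s in (0 : ℝ)..a, f s := by
  refine concaveOn_of_slope_anti_adjacent (convex_Ici 0) fun {x y z} hx hz hxy hyz => ?_
  have hx' : 0 ≤ x := hx
  have hy : 0 < y := lt_of_le_of_lt hx' hxy
  have hz' : 0 ≤ z := hz
  rw [intervalIntegral.integral_interval_sub_left (hi z hz') (hi y hy.le),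
    intervalIntegral.integral_interval_sub_left (hi y hy.le) (hi x hx')]
  have h1 : ∫ s in y..z, f s ≤ ∫ _ in y..z, f y :=
    intervalIntegral.integral_mono_on_of_le_Ioo hyz.le ((hi y hy.le).symm.trans (hi z hz'))
      intervalIntegrable_const fun s hs => hf y s hy hs.1.le
  have h2 : ∫ _ in x..y, f y ≤ ∫ s in x..y, f s :=
    intervalIntegral.integral_mono_on_of_le_Ioo hxy.le intervalIntegrable_const
      ((hi x hx').symm.trans (hi y hy.le)) fun s hs => hf s y (lt_of_le_of_lt hx' hs.1) hs.2.le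
  rw [intervalIntegral.integral_const, smul_eq_mul] at h1 h2
  calc _ ≤ f y := by rw [div_le_iff₀ (by linarith)]; linarith
    _ ≤ _ := by rw [le_div_iff₀ (by linarith)]; linarith

theorem item4 (b : ℝ) (hb : 0 ≤ b) : ConcaveOn ℝ (Ici 0) fun a => FF a b := by
  refine concave_int (fun s => ∫ t in (0 : ℝ)..b, lg s t) (fun a ha => inner_int a b ha hb)
    fun s s' hs hss => ?_
  refine intervalIntegral.integral_mono_on hb ((lg_cont (hs.trans_le hss)).intervalIntegrable _ _)
    ((lg_cont hs).intervalIntegrable _ _) fun t _ => ?_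
  have : Real.log (s ^ 2 + t ^ 2) ≤ Real.log (s' ^ 2 + t ^ 2) :=
    Real.log_le_log (by positivity) (by nlinarith)
  unfold lg
  linarith

theorem kk_eq {t : ℝ} (ht : 0 < t) :
    (∫ s in (0 : ℝ)..(1 / 4), lg t s) + (∫ s in (0 : ℝ)..(3 / 4), lg t s) -
      ∫ s in (0 : ℝ)..1, lg t s = ∫ s in (0 : ℝ)..(1 / 4), (lg t s - lg t (s + 3 / 4)) := by
  have hc := lg_cont ht
  have hc' : Continuous fun s => lg t (s + 3 / 4) := hc.comp (by fun_prop)
  rw [intervalIntegral.integral_sub (hc.intervalIntegrable _ _) (hc'.intervalIntegrable _ _),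
    intervalIntegral.integral_comp_add_right (fun s => lg t s),
    show (0 : ℝ) + 3 / 4 = 3 / 4 by norm_num, show (1 : ℝ) / 4 + 3 / 4 = 1 by norm_num,
    ← intervalIntegral.integral_interval_sub_left (a := 0) (b := 1) (c := 3 / 4)
      (hc.intervalIntegrable _ _) (hc.intervalIntegrable _ _)]
  ring

theorem item5 : ConcaveOn ℝ (Ici 0) fun b => FF (1 / 4) b + FF (3 / 4) b - FF 1 b := by
  have h := concave_int (fun t => (∫ s in (0 : ℝ)..(1 / 4), lg t s) +
    (∫ s in (0 : ℝ)..(3 / 4), lg t s) - ∫ s in (0 : ℝ)..1, lg t s)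
    (fun b hb => ((inner_int b _ hb (by norm_num)).add (inner_int b _ hb (by norm_num))).sub
      (inner_int b _ hb (by norm_num))) (by
      intro t t' ht htt
      have ht' := ht.trans_le htt
      rw [kk_eq ht, kk_eq ht']
      refine intervalIntegral.integral_mono_on (by norm_num)
        (((lg_cont ht').sub ((lg_cont ht').comp (by fun_prop))).intervalIntegrable _ _)
        (((lg_cont ht).sub ((lg_cont ht).comp (by fun_prop))).intervalIntegrable _ _)
        fun s hs => ?_
      have h1 : Real.log ((t' ^ 2 + (s + 3 / 4) ^ 2) * (t ^ 2 + s ^ 2)) ≤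
          Real.log ((t ^ 2 + (s + 3 / 4) ^ 2) * (t' ^ 2 + s ^ 2)) := by
        refine Real.log_le_log (by positivity) ?_
        have a1 : 0 ≤ t' ^ 2 - t ^ 2 := by nlinarith
        have a2 : 0 ≤ (s + 3 / 4) ^ 2 - s ^ 2 := by nlinarith [hs.1]
        nlinarith [mul_nonneg a1 a2]
      rw [Real.log_mul (by positivity) (by positivity),
        Real.log_mul (by positivity) (by positivity)] at h1
      unfold lg
      linarith)
  refine h.congr fun b hb => ?_
  have hb' : 0 ≤ b := hb
  simp only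
  rw [FF_symm _ b (by norm_num) hb', FF_symm _ b (by norm_num) hb', FF_symm _ b (by norm_num) hb',
    intervalIntegral.integral_sub ((inner_int b _ hb' (by norm_num)).add
      (inner_int b _ hb' (by norm_num))) (inner_int b _ hb' (by norm_num)),
    intervalIntegral.integral_add (inner_int b _ hb' (by norm_num))
      (inner_int b _ hb' (by norm_num))]
  rfl

theorem ev_iff {x a : ℝ} (h : x ≠ a) : ∀ᶠ a' in 𝓝 a, (x ≤ a' ↔ x ≤ a) := by
  rcases lt_or_gt_of_ne h with h | h
  · filter_upwards [lt_mem_nhds h] with a' ha'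
    exact iff_of_true ha'.le h.le
  · filter_upwards [gt_mem_nhds h] with a' ha'
    exact iff_of_false (not_le.2 ha') (not_le.2 h)

theorem item6 : ContinuousOn (fun p : ℝ × ℝ => FF p.1 p.2) (Ici 0 ×ˢ Ici 0) := by
  intro q hq
  have hq1 : 0 ≤ q.1 := hq.1
  have hm : ∀ a b : ℝ, MeasurableSet (Icc 0 a ×ˢ Icc 0 b) := fun a b =>
    measurableSet_Icc.prod measurableSet_Icc
  have h : ContinuousWithinAt (fun p : ℝ × ℝ => ∫ z, (Icc 0 p.1 ×ˢ Icc 0 p.2).indicator
      (fun z : ℝ × ℝ => lg z.1 z.2) z) (Ici 0 ×ˢ Ici 0) q := by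
    refine continuousWithinAt_of_dominated (bound := (Icc 0 (q.1 + 1) ×ˢ Icc 0 (q.2 + 1)).indicator
      fun z : ℝ × ℝ => ‖lg z.1 z.2‖) ?_ ?_ ?_ ?_
    · exact Eventually.of_forall fun p => (lg_meas.indicator (hm _ _)).aestronglyMeasurable
    · have e1 : ∀ᶠ p : ℝ × ℝ in 𝓝 q, p.1 < q.1 + 1 :=
        continuous_fst.continuousAt.eventually (gt_mem_nhds (lt_add_one _))
      have e2 : ∀ᶠ p : ℝ × ℝ in 𝓝 q, p.2 < q.2 + 1 :=
        continuous_snd.continuousAt.eventually (gt_mem_nhds (lt_add_one _))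
      filter_upwards [nhdsWithin_le_nhds e1, nhdsWithin_le_nhds e2] with p h1 h2
      refine ae_of_all _ fun z => ?_
      rw [norm_indicator_eq_indicator_norm]
      exact indicator_le_indicator_of_subset
        (prod_mono (Icc_subset_Icc_right h1.le) (Icc_subset_Icc_right h2.le))
        (fun _ => norm_nonneg _) z
    · exact (integrable_indicator_iff (hm _ _)).2 (integ _ _ (by linarith)).norm
    · have h4 : ∀ᵐ z : ℝ × ℝ ∂volume, z.1 ≠ q.1 :=
        Measure.quasiMeasurePreserving_fst.ae (Measure.ae_ne volume q.1)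
      have h5 : ∀ᵐ z : ℝ × ℝ ∂volume, z.2 ≠ q.2 :=
        Measure.quasiMeasurePreserving_snd.ae (Measure.ae_ne volume q.2)
      filter_upwards [h4, h5] with z h1 h2
      refine (ContinuousAt.continuousWithinAt ?_)
      refine continuousAt_const.congr (f := fun _ => (Icc 0 q.1 ×ˢ Icc 0 q.2).indicator
        (fun z : ℝ × ℝ => lg z.1 z.2) z) ?_
      filter_upwards [continuous_fst.continuousAt.eventually (ev_iff h1),
        continuous_snd.continuousAt.eventually (ev_iff h2)] with p e1 e2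
      simp only [indicator, mem_prod, mem_Icc, e1, e2]
  have e : ∀ p ∈ (Ici 0 ×ˢ Ici 0 : Set (ℝ × ℝ)), FF p.1 p.2 = ∫ z,
      (Icc 0 p.1 ×ˢ Icc 0 p.2).indicator (fun z : ℝ × ℝ => lg z.1 z.2) z := fun p hp => by
    rw [integral_indicator (hm _ _), FF_eq _ _ hp.1 hp.2]
  exact h.congr e (e q hq)

end NF1

open NF1 in
theorem blk_NF1 : St_NF1 :=
  ⟨fun a b ha hb => ⟨integ a b ha, FF_eq a b ha hb⟩, FF_symm, fun b => by simp [FF], item4, item5,
    item6⟩

end

end Pool.Agent.Lib.APPS
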