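import Pool.Agent.Lib.APPS.Blue5

namespace Pool.Agent.Lib.APPS

open MeasureTheory Set Real

noncomputable section

namespace NF2

lemma d_log (c : ℝ) (hc : 0 < c) (t : ℝ) :
    HasDerivAt (fun t => Real.log (t ^ 2 + c ^ 2)) (2 * t / (t ^ 2 + c ^ 2)) t := by
  have h : HasDerivAt (fun t : ℝ => t ^ 2 + c ^ 2) (2 * t) t := by
    simpa using (hasDerivAt_pow 2 t).add_const (c ^ 2)
  exact h.log (by positivity)

lemma d_atan (c : ℝ) (hc : 0 < c) (t : ℝ) :
    HasDerivAt (fun t => arctan (t / c)) (c / (t ^ 2 + c ^ 2)) t := by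
  have h := ((hasDerivAt_id' t).div_const c).arctan
  refine h.congr_deriv ?_
  field_simp
  ring

lemma inner {s b : ℝ} (hs : 0 < s) (hb : 0 < b) : ∫ t in (0 : ℝ)..b, lg s t =
    -(1 / 2) * (b * Real.log (s ^ 2 + b ^ 2) - 2 * b + π * s - 2 * s * arctan (s / b)) := by
  have h : ∀ t ∈ uIcc (0 : ℝ) b, HasDerivAt
      (fun t => -(1 / 2) * (t * Real.log (t ^ 2 + s ^ 2) - 2 * t + 2 * s * arctan (t / s)))
      (lg s t) t := by
    intro t _
    have h1 := ((((hasDerivAt_id' t).mul (d_log s hs t)).sub ((hasDerivAt_id' t).const_mul 2)).add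
      ((d_atan s hs t).const_mul (2 * s))).const_mul (-(1 / 2))
    refine h1.congr_deriv ?_
    rw [lg, add_comm (s ^ 2)]
    field_simp
    ring
  have hc : Continuous (lg s) :=
    continuous_const.mul (Continuous.log (by fun_prop) fun t => by positivity)
  rw [intervalIntegral.integral_eq_sub_of_hasDerivAt h (hc.intervalIntegrable _ _)]
  have h2 : arctan (b / s) = π / 2 - arctan (s / b) := by
    rw [← arctan_inv_of_pos (div_pos hs hb), inv_div]
  simp only [h2, add_comm (s ^ 2), zero_div, arctan_zero]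
  ring

lemma closed {a b : ℝ} (ha : 0 ≤ a) (hb : 0 < b) : FF a b =
    -(1 / 2) * (b * a * Real.log (a ^ 2 + b ^ 2) - 3 * b * a + π * a ^ 2 / 2 +
      (b ^ 2 - a ^ 2) * arctan (a / b)) := by
  have h : ∀ s ∈ uIcc (0 : ℝ) a, HasDerivAt
      (fun s => -(1 / 2) * (b * (s * Real.log (s ^ 2 + b ^ 2)) - 3 * b * s + π * s ^ 2 / 2 +
        (b ^ 2 - s ^ 2) * arctan (s / b)))
      (-(1 / 2) * (b * Real.log (s ^ 2 + b ^ 2) - 2 * b + π * s - 2 * s * arctan (s / b))) s := by
    intro s _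
    have h1 := (((((((hasDerivAt_id' s).mul (d_log b hb s)).const_mul b).sub
      ((hasDerivAt_id' s).const_mul (3 * b))).add
      (((hasDerivAt_pow 2 s).const_mul π).div_const 2)).add
      (((hasDerivAt_pow 2 s).const_sub (b ^ 2)).mul (d_atan b hb s)))).const_mul (-(1 / 2))
    refine (h1.congr_deriv ?_ :)
    field_simp
    ring
  have hc : Continuous fun s : ℝ =>
      -(1 / 2) * (b * Real.log (s ^ 2 + b ^ 2) - 2 * b + π * s - 2 * s * arctan (s / b)) := by
    have h1 : Continuous fun s : ℝ => Real.log (s ^ 2 + b ^ 2) :=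
      Continuous.log (by fun_prop) fun t => by positivity
    have h2 : Continuous fun s : ℝ => arctan (s / b) := continuous_arctan.comp (by fun_prop)
    fun_prop
  rw [FF, intervalIntegral.integral_congr_ae (Filter.Eventually.of_forall fun s hs =>
    inner (by rw [uIoc_of_le ha] at hs; exact hs.1) hb),
    intervalIntegral.integral_eq_sub_of_hasDerivAt h (hc.intervalIntegrable _ _)]
  simp only [zero_div, arctan_zero]
  ring

lemma atan_le {x : ℝ} (hx : 0 ≤ x) : arctan x ≤ x - x ^ 3 / 3 + x ^ 5 / 5 := by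
  have h1 : arctan x = ∫ t in (0 : ℝ)..x, 1 / (1 + t ^ 2) := by
    rw [integral_one_div_one_add_sq, arctan_zero, sub_zero]
  have h2 : ∫ t in (0 : ℝ)..x, (1 - t ^ 2 + t ^ 4) = x - x ^ 3 / 3 + x ^ 5 / 5 := by
    norm_num [integral_pow]
  rw [h1, ← h2]
  refine intervalIntegral.integral_mono_on hx
    (Continuous.intervalIntegrable (Continuous.div (by fun_prop) (by fun_prop)
      fun t => by positivity) _ _) (Continuous.intervalIntegrable (by fun_prop) _ _) fun t _ => ?_
  rw [div_le_iff₀ (by positivity)]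
  nlinarith [pow_nonneg (sq_nonneg t) 3]

lemma log_le {x c : ℝ} (hx : 0 < x) (hc : 0 ≤ c) (h : x ≤ 1 + c + c ^ 2 / 2 + c ^ 3 / 6) :
    Real.log x ≤ c := by
  rw [Real.log_le_iff_le_exp hx]
  refine h.trans (le_trans (le_of_eq ?_) (Real.sum_le_exp_of_nonneg hc 4))
  simp [Finset.sum_range_succ, Nat.factorial]

end NF2

open NF2 in
theorem blk_NF2 (_h : St_NF1) : St_NF2 := by
  have p1 := Real.pi_gt_d4
  have p2 := Real.pi_lt_d4
  have l2 := Real.log_two_lt_d9
  have l5 : Real.log (5 / 4) ≤ 0.2236 := log_le (by norm_num) (by norm_num) (by norm_num)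
  have l13 : Real.log (16 / 13) ≤ 0.208 := log_le (by norm_num) (by norm_num) (by norm_num)
  have a2 := atan_le (x := 1 / 2) (by norm_num)
  have a5 := atan_le (x := 1 / 5) (by norm_num)
  have b1 : arctan 2 = π / 2 - arctan (1 / 2) := by
    rw [← arctan_inv_of_pos (by norm_num)]; norm_num
  have b2 : arctan (3 / 2) = π / 4 + arctan (1 / 5) := by
    rw [← arctan_one, arctan_add (by norm_num)]; norm_num
  have c1 : Real.log (1 / 2) = -Real.log 2 := by rw [one_div, Real.log_inv]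
  have c2 : Real.log (5 / 16) = Real.log (5 / 4) - 2 * Real.log 2 := by
    rw [show (5 / 16 : ℝ) = 5 / 4 / 2 ^ 2 by norm_num, Real.log_div (by norm_num) (by norm_num),
      Real.log_pow]
    norm_num
  have c3 : Real.log (13 / 16) = -Real.log (16 / 13) := by rw [← Real.log_inv]; norm_num
  have e1 := closed (a := 1) (b := 1) (by norm_num) (by norm_num)
  have e2 := closed (a := 1 / 2) (b := 1) (by norm_num) (by norm_num)
  have e3 := closed (a := 1 / 2) (b := 1 / 2) (by norm_num) (by norm_num)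
  have e4 := closed (a := 1 / 4) (b := 1 / 2) (by norm_num) (by norm_num)
  have e5 := closed (a := 3 / 4) (b := 1 / 2) (by norm_num) (by norm_num)
  have e6 := closed (a := 1) (b := 1 / 2) (by norm_num) (by norm_num)
  rw [show (1 : ℝ) ^ 2 + 1 ^ 2 = 2 by norm_num] at e1
  rw [show (1 / 2 : ℝ) ^ 2 + 1 ^ 2 = 5 / 4 by norm_num, div_one] at e2
  rw [show (1 / 2 : ℝ) ^ 2 + (1 / 2) ^ 2 = 1 / 2 by norm_num, c1] at e3
  rw [show (1 / 4 : ℝ) ^ 2 + (1 / 2) ^ 2 = 5 / 16 by norm_num, c2,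
    show (1 / 4 : ℝ) / (1 / 2) = 1 / 2 by norm_num] at e4
  rw [show (3 / 4 : ℝ) ^ 2 + (1 / 2) ^ 2 = 13 / 16 by norm_num, c3,
    show (3 / 4 : ℝ) / (1 / 2) = 3 / 2 by norm_num, b2] at e5
  rw [show (1 : ℝ) ^ 2 + (1 / 2) ^ 2 = 5 / 4 by norm_num,
    show (1 : ℝ) / (1 / 2) = 2 by norm_num, b1] at e6
  refine ⟨?_, ?_, ?_, ?_⟩
  · rw [e1]; linarith
  · rw [e2]; linarith
  · rw [e3]; linarith
  · rw [e4, e5, e6]; linarith

end

end Pool.Agent.Lib.APPS
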