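import Pool.Agent.Lib.APPS.Blue5

/-!
Block NF3: the logarithmic energy of the unit square.
-/

namespace Pool.Agent.Lib.APPS

open MeasureTheory Filter Topology Set Real

noncomputable section

namespace NF3

theorem d_log (c x : ℝ) (hc : 0 < c) :
    HasDerivAt (fun x : ℝ => Real.log (c ^ 2 + x ^ 2)) (2 * x / (c ^ 2 + x ^ 2)) x := by
  have h : HasDerivAt (fun x : ℝ => c ^ 2 + x ^ 2) (2 * x) x := by
    simpa using (hasDerivAt_pow 2 x).const_add (c ^ 2)
  exact h.log (by positivity)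

theorem d_atan (c x : ℝ) (hc : 0 < c) :
    HasDerivAt (fun x : ℝ => arctan (x / c)) (c / (c ^ 2 + x ^ 2)) x := by
  have h := ((hasDerivAt_id x).div_const c).arctan
  refine h.congr_deriv ?_
  simp only [id]
  field_simp

theorem c_log (c : ℝ) (hc : 0 < c) : Continuous fun x : ℝ => Real.log (c ^ 2 + x ^ 2) :=
  continuous_iff_continuousAt.2 fun x => (d_log c x hc).continuousAt

theorem c_atan (c : ℝ) : Continuous fun x : ℝ => arctan (x / c) :=
  continuous_arctan.comp (continuous_id.div_const c)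

theorem atan_swap {a b : ℝ} (ha : 0 < a) (hb : 0 < b) :
    arctan (a / b) = π / 2 - arctan (b / a) := by
  rw [← arctan_inv_of_pos (div_pos hb ha), inv_div]

theorem inner (s b : ℝ) (hs : 0 < s) : ∫ t in (0 : ℝ)..b, lg s t =
    -(1 / 2) * (b * Real.log (s ^ 2 + b ^ 2) - 2 * b + 2 * s * arctan (b / s)) := by
  have hd : ∀ t ∈ uIcc (0 : ℝ) b, HasDerivAt (fun t : ℝ =>
      -(1 / 2) * (t * Real.log (s ^ 2 + t ^ 2) - 2 * t + 2 * s * arctan (t / s))) (lg s t) t := by
    intro t _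
    have h := ((((hasDerivAt_id t).mul (d_log s t hs)).sub ((hasDerivAt_id t).const_mul 2)).add
      ((d_atan s t hs).const_mul (2 * s))).const_mul (-(1 / 2) : ℝ)
    refine h.congr_deriv ?_
    unfold lg
    simp only [id, Pi.sub_apply, Pi.mul_apply]
    have : s ^ 2 + t ^ 2 ≠ 0 := by positivity
    field_simp
    ring
  have hc : Continuous fun t => lg s t := (c_log s hs).const_mul _
  rw [intervalIntegral.integral_eq_sub_of_hasDerivAt hd (hc.intervalIntegrable _ _)]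
  simp

theorem FF_eq (a b : ℝ) (ha : 0 ≤ a) (hb : 0 < b) : FF a b =
    -(1 / 2) * (a * b * Real.log (b ^ 2 + a ^ 2) - 3 * a * b +
      a ^ 2 * (π / 2 - arctan (a / b)) + b ^ 2 * arctan (a / b)) := by
  have h1 : FF a b = ∫ s in (0 : ℝ)..a, -(1 / 2) * (b * Real.log (b ^ 2 + s ^ 2) - 2 * b +
      2 * s * (π / 2 - arctan (s / b))) := by
    unfold FF
    refine intervalIntegral.integral_congr_ae (Eventually.of_forall fun s hs => ?_)
    rw [uIoc_of_le ha] at hs
    rw [inner s b hs.1, atan_swap hb hs.1, add_comm (s ^ 2)]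
  have hd : ∀ s ∈ uIcc (0 : ℝ) a, HasDerivAt (fun s : ℝ =>
      -(1 / 2) * (s * b * Real.log (b ^ 2 + s ^ 2) - 3 * s * b +
        s ^ 2 * (π / 2 - arctan (s / b)) + b ^ 2 * arctan (s / b)))
      (-(1 / 2) * (b * Real.log (b ^ 2 + s ^ 2) - 2 * b +
        2 * s * (π / 2 - arctan (s / b)))) s := by
    intro s _
    have h := ((((((hasDerivAt_id s).mul_const b).mul (d_log b s hb)).sub
      (((hasDerivAt_id s).const_mul 3).mul_const b)).add
      ((hasDerivAt_pow 2 s).mul ((d_atan b s hb).const_sub (π / 2)))).add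
      ((d_atan b s hb).const_mul (b ^ 2))).const_mul (-(1 / 2) : ℝ)
    refine h.congr_deriv ?_
    simp only [id, Pi.sub_apply, Pi.mul_apply]
    have : b ^ 2 + s ^ 2 ≠ 0 := by positivity
    field_simp
    norm_num
    ring
  have hc : Continuous fun s : ℝ => -(1 / 2) * (b * Real.log (b ^ 2 + s ^ 2) - 2 * b +
      2 * s * (π / 2 - arctan (s / b))) := by
    have := c_log b hb
    have := c_atan b
    fun_prop
  rw [h1, intervalIntegral.integral_eq_sub_of_hasDerivAt hd (hc.intervalIntegrable _ _)]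
  simp

theorem mid (a : ℝ) (ha : 0 < a) : ∫ b in (0 : ℝ)..1, FF a b =
    -(1 / 2) * (Real.log (1 ^ 2 + a ^ 2) * (a / 2 - a ^ 3 / 6) + a ^ 2 / 3 * (a * Real.log a) -
      11 / 6 * a + a ^ 2 * (π / 2 - arctan (a / 1)) + 1 / 3 * arctan (a / 1)) := by
  have h1 : ∫ b in (0 : ℝ)..1, FF a b = ∫ b in (0 : ℝ)..1,
      -(1 / 2) * (a * b * Real.log (a ^ 2 + b ^ 2) - 3 * a * b +
        a ^ 2 * arctan (b / a) + b ^ 2 * (π / 2 - arctan (b / a))) := by
    refine intervalIntegral.integral_congr_ae (Eventually.of_forall fun b hb => ?_)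
    rw [uIoc_of_le zero_le_one] at hb
    rw [FF_eq a b ha.le hb.1, atan_swap ha hb.1, add_comm (b ^ 2)]
    ring
  have hd : ∀ b ∈ uIcc (0 : ℝ) 1, HasDerivAt (fun b : ℝ =>
      -(1 / 2) * (Real.log (a ^ 2 + b ^ 2) * (a / 2 * b ^ 2 - a ^ 3 / 6) - 11 / 6 * a * b ^ 2 +
        a ^ 2 * b * arctan (b / a) + b ^ 3 / 3 * (π / 2 - arctan (b / a))))
      (-(1 / 2) * (a * b * Real.log (a ^ 2 + b ^ 2) - 3 * a * b +
        a ^ 2 * arctan (b / a) + b ^ 2 * (π / 2 - arctan (b / a)))) b := by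
    intro b _
    have h := (((((d_log a b ha).mul
      (((hasDerivAt_pow 2 b).const_mul (a / 2)).sub_const (a ^ 3 / 6))).sub
      ((hasDerivAt_pow 2 b).const_mul (11 / 6 * a))).add
      (((hasDerivAt_id b).const_mul (a ^ 2)).mul (d_atan a b ha))).add
      (((hasDerivAt_pow 3 b).div_const 3).mul ((d_atan a b ha).const_sub (π / 2)))).const_mul
      (-(1 / 2) : ℝ)
    refine h.congr_deriv ?_
    simp only [id, Pi.sub_apply, Pi.mul_apply]
    have : a ^ 2 + b ^ 2 ≠ 0 := by positivity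
    field_simp
    norm_num
    ring
  have hc : Continuous fun b : ℝ => -(1 / 2) * (a * b * Real.log (a ^ 2 + b ^ 2) - 3 * a * b +
        a ^ 2 * arctan (b / a) + b ^ 2 * (π / 2 - arctan (b / a))) := by
    have := c_log a ha
    have := c_atan a
    fun_prop
  rw [h1, intervalIntegral.integral_eq_sub_of_hasDerivAt hd (hc.intervalIntegrable _ _),
    atan_swap one_pos ha]
  have h2 : Real.log (a ^ 2 + 0 ^ 2) = 2 * Real.log a := by simp
  rw [h2, add_comm (a ^ 2)]
  ring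

theorem outer : ∫ a in (0 : ℝ)..1, ∫ b in (0 : ℝ)..1, FF a b =
    25 / 48 - π / 12 - Real.log 2 / 12 := by
  have h1 : ∫ a in (0 : ℝ)..1, ∫ b in (0 : ℝ)..1, FF a b = ∫ a in (0 : ℝ)..1,
      -(1 / 2) * (Real.log (1 ^ 2 + a ^ 2) * (a / 2 - a ^ 3 / 6) + a ^ 2 / 3 * (a * Real.log a) -
        11 / 6 * a + a ^ 2 * (π / 2 - arctan (a / 1)) + 1 / 3 * arctan (a / 1)) := by
    refine intervalIntegral.integral_congr_ae (Eventually.of_forall fun a ha => ?_)
    rw [uIoc_of_le zero_le_one] at ha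
    exact mid a ha.1
  have hd : ∀ a ∈ Ioo (0 : ℝ) 1, HasDerivAt (fun a : ℝ =>
      -(1 / 2) * (Real.log (1 ^ 2 + a ^ 2) * (a ^ 2 / 4 - a ^ 4 / 24 - 1 / 24) +
        a ^ 3 / 12 * (a * Real.log a) - 25 / 24 * a ^ 2 +
        a ^ 3 / 3 * (π / 2 - arctan (a / 1)) + a / 3 * arctan (a / 1)))
      (-(1 / 2) * (Real.log (1 ^ 2 + a ^ 2) * (a / 2 - a ^ 3 / 6) + a ^ 2 / 3 * (a * Real.log a) -
        11 / 6 * a + a ^ 2 * (π / 2 - arctan (a / 1)) + 1 / 3 * arctan (a / 1))) a := by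
    intro a ha
    have h := ((((((d_log 1 a one_pos).mul
      ((((hasDerivAt_pow 2 a).div_const 4).sub ((hasDerivAt_pow 4 a).div_const 24)).sub_const
        (1 / 24))).add
      (((hasDerivAt_pow 3 a).div_const 12).mul
        ((hasDerivAt_id a).mul (Real.hasDerivAt_log ha.1.ne')))).sub
      ((hasDerivAt_pow 2 a).const_mul (25 / 24))).add
      (((hasDerivAt_pow 3 a).div_const 3).mul ((d_atan 1 a one_pos).const_sub (π / 2)))).add
      (((hasDerivAt_id a).div_const 3).mul (d_atan 1 a one_pos))).const_mul (-(1 / 2) : ℝ)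
    refine h.congr_deriv ?_
    simp only [id, Pi.sub_apply, Pi.mul_apply]
    have : (1 : ℝ) ^ 2 + a ^ 2 ≠ 0 := by positivity
    have := ha.1.ne'
    field_simp
    norm_num
    ring
  have k1 := c_log 1 one_pos
  have k2 := c_atan 1
  have k3 := Real.continuous_mul_log
  have hc : Continuous fun a : ℝ =>
      -(1 / 2) * (Real.log (1 ^ 2 + a ^ 2) * (a / 2 - a ^ 3 / 6) + a ^ 2 / 3 * (a * Real.log a) -
        11 / 6 * a + a ^ 2 * (π / 2 - arctan (a / 1)) + 1 / 3 * arctan (a / 1)) := by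
    fun_prop
  have hc' : Continuous fun a : ℝ =>
      -(1 / 2) * (Real.log (1 ^ 2 + a ^ 2) * (a ^ 2 / 4 - a ^ 4 / 24 - 1 / 24) +
        a ^ 3 / 12 * (a * Real.log a) - 25 / 24 * a ^ 2 +
        a ^ 3 / 3 * (π / 2 - arctan (a / 1)) + a / 3 * arctan (a / 1)) := by
    fun_prop
  rw [h1, intervalIntegral.integral_eq_sub_of_hasDerivAt_of_le zero_le_one hc'.continuousOn hd
    (hc.intervalIntegrable _ _)]
  have h2 : (1 : ℝ) ^ 2 + 1 ^ 2 = 2 := by norm_num
  rw [h2]
  simp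
  ring

end NF3

theorem blk_NF3 (_hNF1 : St_NF1) : St_NF3 := by
  unfold St_NF3
  rw [NF3.outer]
  have h1 := Real.pi_gt_d4
  have h2 := Real.pi_lt_d4
  have h3 := Real.log_two_gt_d9
  have h4 := Real.log_two_lt_d9
  constructor <;> linarith

end

end Pool.Agent.Lib.APPS
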