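import Pool.Agent.Lib.APPS.Blue5

/-!
Block NI: the explicit integral of the weight over the unit square.
-/

namespace Pool.Agent.Lib.APPS

open MeasureTheory ProbabilityTheory Filter Topology Set Metric
open scoped NNReal ENNReal

noncomputable section

namespace NI

def w (a m : ℝ) : ℝ :=
  Real.exp (((-Real.log (a * (2 - a / m)) + (a / m * (2 - a / m)) ^ 2) -
    2 * (0.366 + 0.56 * m) + 0.807) / 2 + 2 * (0.318 - 0.115 * m))

theorem WW_eq (z : ℂ) : WW z = w (dmin z) (dmax z) := rfl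

theorem meas_w : Measurable fun p : ℝ × ℝ => w p.1 p.2 := by
  unfold w
  fun_prop

theorem meas_WW : Measurable WW := by
  have h1 : Measurable dxx := by unfold dxx; fun_prop
  have h2 : Measurable dyy := by unfold dyy; fun_prop
  have h3 : Measurable dmin := h1.min h2
  have h4 : Measurable dmax := h1.max h2
  have h5 : Measurable ((fun p : ℝ × ℝ => w p.1 p.2) ∘ fun z : ℂ => (dmin z, dmax z)) :=
    meas_w.comp (h3.prodMk h4)
  exact h5

theorem lint_deriv (F f : ℝ → ℝ) (a b : ℝ) (hab : a ≤ b) (hc : ContinuousOn F (Icc a b))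
    (hd : ∀ x ∈ Ioo a b, HasDerivAt F (f x) x) (hp : ∀ x ∈ Ioo a b, 0 ≤ f x) :
    ∫⁻ x in Ioo a b, ENNReal.ofReal (f x) = ENNReal.ofReal (F b - F a) := by
  have hi : IntegrableOn f (Ioc a b) := intervalIntegral.integrableOn_deriv_of_nonneg hc hd hp
  have hi' : IntervalIntegrable f volume a b :=
    (intervalIntegrable_iff_integrableOn_Ioc_of_le hab).2 hi
  rw [← intervalIntegral.integral_eq_sub_of_hasDerivAt_of_le hab hc hd hi',
    intervalIntegral.integral_of_le hab, integral_Ioc_eq_integral_Ioo,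
    ofReal_integral_eq_lintegral_ofReal (hi.mono_set Ioo_subset_Ioc_self)]
  exact (ae_restrict_iff' measurableSet_Ioo).2 (Eventually.of_forall hp)

theorem exp_half : Real.exp (1 / 2) ≤ 1.649 := by
  have h : Real.exp (1 / 2) * Real.exp (1 / 2) = Real.exp 1 := by
    rw [← Real.exp_add]; norm_num
  have h1 := Real.exp_one_lt_d9
  have h2 := Real.exp_pos (1 / 2)
  nlinarith

theorem exp_chord (z : ℝ) (h0 : 0 ≤ z) (h1 : z ≤ 1) : Real.exp (z / 2) ≤ 1 + 0.649 * z := by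
  have h := convexOn_exp.2 (mem_univ (0 : ℝ)) (mem_univ (1 / 2 : ℝ)) (sub_nonneg.2 h1) h0
    (by ring)
  simp only [smul_eq_mul, mul_zero, zero_add, Real.exp_zero, mul_one] at h
  have e : z * (1 / 2) = z / 2 := by ring
  rw [e] at h
  have := exp_half
  nlinarith

theorem exp_neg_le (z : ℝ) (h0 : 0 ≤ z) : Real.exp (-z) ≤ 1 - z + z ^ 2 / 2 := by
  have h := Real.quadratic_le_exp_of_nonneg h0
  have hp := Real.exp_pos z
  rw [Real.exp_neg, inv_le_iff_one_le_mul₀ hp]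
  have h2 : 0 ≤ 1 - z + z ^ 2 / 2 := by nlinarith [sq_nonneg (z - 1)]
  have h3 := mul_le_mul_of_nonneg_left h h2
  nlinarith [sq_nonneg (z ^ 2)]

theorem exp_c : Real.exp 0.6735 ≤ 1.962 := by
  have h : Real.exp 0.6735 = 2 * Real.exp (-(Real.log 2 - 0.6735)) := by
    rw [neg_sub, Real.exp_sub, Real.exp_log (by norm_num)]; ring
  have h1 := Real.log_two_gt_d9
  have h2 : Real.exp (-(Real.log 2 - 0.6735)) ≤ Real.exp (-0.0196) :=
    Real.exp_le_exp.2 (by linarith)
  have h3 := exp_neg_le 0.0196 (by norm_num)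
  have h4 : Real.exp (-0.0196) ≤ 0.981 := le_trans h3 (by norm_num)
  rw [h]
  linarith

def φ (t : ℝ) : ℝ :=
  1 / Real.sqrt (1 - (1 - t) ^ 2) + 0.649 * (1 - 3 / 2 * (1 - t) ^ 2 + (1 - t) ^ 4 / 2)

def Φ (t : ℝ) : ℝ :=
  -Real.arcsin (1 - t) - 0.649 * ((1 - t) - (1 - t) ^ 3 / 2 + (1 - t) ^ 5 / 10)

theorem Φ_cont : Continuous Φ := by
  unfold Φ
  have := Real.continuous_arcsin
  fun_prop

theorem Φ_deriv (t : ℝ) (h0 : 0 < t) (h1 : t < 1) : HasDerivAt Φ (φ t) t := by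
  have hs : HasDerivAt (fun t : ℝ => 1 - t) (-1) t := by
    simpa using (hasDerivAt_id t).const_sub 1
  have ha := (Real.hasDerivAt_arcsin (x := 1 - t) (by linarith) (by linarith)).comp t hs
  have hp := ((hs.sub ((hs.pow 3).div_const 2)).add ((hs.pow 5).div_const 10)).const_mul
    (0.649 : ℝ)
  have := ha.neg.sub hp
  refine HasDerivAt.congr_deriv (f := Φ) this ?_
  unfold φ
  simp only [Nat.cast_ofNat]
  ring

theorem φ_nonneg (t : ℝ) (h0 : 0 < t) (h1 : t < 1) : 0 ≤ φ t := by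
  unfold φ
  have h2 : 0 ≤ 1 / Real.sqrt (1 - (1 - t) ^ 2) := by positivity
  have h3 : (1 - t) ^ 2 ≤ 1 := by nlinarith
  have h4 : 1 - 3 / 2 * (1 - t) ^ 2 + (1 - t) ^ 4 / 2 =
      (1 - (1 - t) ^ 2) * (1 - (1 - t) ^ 2 / 2) := by ring
  rw [h4]
  have : 0 ≤ (1 - (1 - t) ^ 2) * (1 - (1 - t) ^ 2 / 2) :=
    mul_nonneg (by linarith) (by linarith)
  positivity

theorem Φ_val : Φ 1 - Φ 0 ≤ 1.961 := by
  unfold Φ
  have := Real.pi_lt_d4
  simp only [sub_self, Real.arcsin_zero, sub_zero, Real.arcsin_one]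
  norm_num at this ⊢
  linarith

def cx (x : ℝ) : ℝ := 1.962 * (1 - 0.79 * x + (0.79 * x) ^ 2 / 2)

theorem cx_nonneg (x : ℝ) : 0 ≤ cx x := by
  unfold cx
  nlinarith [sq_nonneg (0.79 * x - 1)]

theorem w_le (x y : ℝ) (hy : 0 < y) (hyx : y < x) :
    w y x ≤ cx x / Real.sqrt x * φ (y / x) := by
  have hx : 0 < x := hy.trans hyx
  set t := y / x with ht
  have ht0 : 0 < t := div_pos hy hx
  have ht1 : t < 1 := (div_lt_one hx).2 hyx
  have hyt : y = x * t := by rw [ht]; field_simp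
  set u := t * (2 - t) with hu
  have hu0 : 0 < u := mul_pos ht0 (by linarith)
  have hu1 : u ≤ 1 := by nlinarith [sq_nonneg (1 - t)]
  have hxu : y * (2 - t) = x * u := by rw [hyt, hu]; ring
  have hsx := Real.sqrt_pos.2 hx
  have hsu := Real.sqrt_pos.2 hu0
  have hl : Real.exp (-Real.log (x * u) / 2) = 1 / (Real.sqrt x * Real.sqrt u) := by
    rw [← Real.sqrt_mul hx.le, Real.sqrt_eq_rpow, Real.rpow_def_of_pos (mul_pos hx hu0), one_div,
      ← Real.exp_neg]
    congr 1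
    ring
  have hw : w y x = Real.exp 0.6735 * Real.exp (-(0.79 * x)) *
      (Real.exp (-Real.log (x * u) / 2) * Real.exp (u ^ 2 / 2)) := by
    unfold w
    rw [← ht, hxu, ← hu, ← Real.exp_add, ← Real.exp_add, ← Real.exp_add]
    congr 1
    ring
  have hφ : φ t = 1 / Real.sqrt u + 0.649 * (u * ((1 + u) / 2)) := by
    unfold φ
    have : 1 - (1 - t) ^ 2 = u := by rw [hu]; ring
    rw [this, hu]
    ring
  have h1 : Real.exp 0.6735 * Real.exp (-(0.79 * x)) ≤ cx x :=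
    mul_le_mul exp_c (exp_neg_le _ (by positivity)) (Real.exp_pos _).le (by norm_num)
  have h2 := exp_chord (u ^ 2) (by positivity) (by nlinarith)
  have hss : Real.sqrt u * Real.sqrt u = u := Real.mul_self_sqrt hu0.le
  have h3 : 1 / Real.sqrt u * Real.exp (u ^ 2 / 2) ≤ φ t := by
    rw [hφ]
    have h4 : 1 / Real.sqrt u * Real.exp (u ^ 2 / 2) ≤ 1 / Real.sqrt u * (1 + 0.649 * u ^ 2) :=
      mul_le_mul_of_nonneg_left h2 (by positivity)
    have h5 : 1 / Real.sqrt u * (1 + 0.649 * u ^ 2) =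
        1 / Real.sqrt u + 0.649 * (u * Real.sqrt u) := by
      have : u ^ 2 = u * Real.sqrt u * Real.sqrt u := by rw [mul_assoc, hss]; ring
      rw [this]
      field_simp
    have h6 : Real.sqrt u ≤ (1 + u) / 2 := by nlinarith [sq_nonneg (Real.sqrt u - 1)]
    have h7 := mul_le_mul_of_nonneg_left h6 hu0.le
    linarith
  rw [hw, hl]
  calc Real.exp 0.6735 * Real.exp (-(0.79 * x)) *
        (1 / (Real.sqrt x * Real.sqrt u) * Real.exp (u ^ 2 / 2))
      = Real.exp 0.6735 * Real.exp (-(0.79 * x)) / Real.sqrt x *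
        (1 / Real.sqrt u * Real.exp (u ^ 2 / 2)) := by field_simp
    _ ≤ cx x / Real.sqrt x * φ t :=
        mul_le_mul (div_le_div_of_nonneg_right h1 hsx.le) h3 (by positivity)
          (div_nonneg (cx_nonneg x) hsx.le)

theorem inner_le (x : ℝ) (hx : 0 < x) :
    ∫⁻ y in Ioo 0 x, ENNReal.ofReal (w y x) ≤ ENNReal.ofReal (1.961 * (cx x * Real.sqrt x)) := by
  have hsx := Real.sqrt_pos.2 hx
  have hc : 0 ≤ cx x / Real.sqrt x := div_nonneg (cx_nonneg x) hsx.le
  have hΦ := Φ_cont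
  have h := lint_deriv (fun y => cx x / Real.sqrt x * (x * Φ (y / x)))
    (fun y => cx x / Real.sqrt x * φ (y / x)) 0 x hx.le (by fun_prop)
    (fun y hy => by
      have h1 := (Φ_deriv (y / x) (div_pos hy.1 hx) ((div_lt_one hx).2 hy.2)).comp y
        ((hasDerivAt_id y).div_const x)
      have h2 := (h1.const_mul x).const_mul (cx x / Real.sqrt x)
      refine HasDerivAt.congr_deriv
        (f := fun y => cx x / Real.sqrt x * (x * Φ (y / x))) h2 ?_
      field_simp)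
    (fun y hy => mul_nonneg hc (φ_nonneg _ (div_pos hy.1 hx) ((div_lt_one hx).2 hy.2)))
  calc ∫⁻ y in Ioo 0 x, ENNReal.ofReal (w y x)
      ≤ ∫⁻ y in Ioo 0 x, ENNReal.ofReal (cx x / Real.sqrt x * φ (y / x)) :=
        setLIntegral_mono' measurableSet_Ioo fun y hy =>
          ENNReal.ofReal_le_ofReal (w_le x y hy.1 hy.2)
    _ = _ := h
    _ ≤ _ := by
        apply ENNReal.ofReal_le_ofReal
        rw [div_self hx.ne', zero_div]
        have hss : Real.sqrt x * Real.sqrt x = x := Real.mul_self_sqrt hx.le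
        have e : cx x / Real.sqrt x * (x * Φ 1) - cx x / Real.sqrt x * (x * Φ 0) =
            (Φ 1 - Φ 0) * (cx x * Real.sqrt x) := by
          have : cx x / Real.sqrt x * x = cx x * Real.sqrt x := by
            rw [div_mul_eq_mul_div, div_eq_iff hsx.ne', mul_assoc, hss]
          rw [← mul_assoc, ← mul_assoc, this]
          ring
        rw [e]
        exact mul_le_mul_of_nonneg_right Φ_val (mul_nonneg (cx_nonneg x) hsx.le)

theorem outer_le : ∫⁻ x in Ioo (0 : ℝ) (1 / 2), ENNReal.ofReal (1.961 * (cx x * Real.sqrt x)) ≤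
    ENNReal.ofReal 0.73 := by
  have h := lint_deriv
    (fun x => 1.961 * 1.962 * (Real.sqrt x *
      (2 / 3 * x - 0.316 * x ^ 2 + 0.79 ^ 2 / 7 * x ^ 3)))
    (fun x => 1.961 * (cx x * Real.sqrt x)) 0 (1 / 2) (by norm_num) (by fun_prop)
    (fun x hx => by
      have hsx := Real.sqrt_pos.2 hx.1
      have hss : Real.sqrt x * Real.sqrt x = x := Real.mul_self_sqrt hx.1.le
      have h1 := Real.hasDerivAt_sqrt hx.1.ne'
      have hi := hasDerivAt_id' x
      have h2 := ((hi.const_mul (2 / 3 : ℝ)).sub ((hi.pow 2).const_mul (0.316 : ℝ))).add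
        ((hi.pow 3).const_mul (0.79 ^ 2 / 7 : ℝ))
      have h3 := (h1.mul h2).const_mul (1.961 * 1.962 : ℝ)
      refine HasDerivAt.congr_deriv (f := fun x => 1.961 * 1.962 * (Real.sqrt x *
        (2 / 3 * x - 0.316 * x ^ 2 + 0.79 ^ 2 / 7 * x ^ 3))) h3 ?_
      simp only [Pi.add_apply, Pi.sub_apply, Pi.pow_apply, Nat.cast_ofNat]
      unfold cx
      generalize Real.sqrt x = s at hsx hss
      subst hss
      field_simp
      ring)
    (fun x hx => mul_nonneg (by norm_num) (mul_nonneg (cx_nonneg x) (Real.sqrt_nonneg x)))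
  rw [h]
  apply ENNReal.ofReal_le_ofReal
  have h2 : Real.sqrt (1 / 2) ≤ 0.7072 := by
    rw [Real.sqrt_le_left (by norm_num)]
    norm_num
  have h3 := Real.sqrt_nonneg (1 / 2)
  generalize Real.sqrt (1 / 2) = s at h2 h3
  norm_num
  linarith

theorem fold (h : ℝ → ℝ≥0∞) :
    ∫⁻ x in Icc (0 : ℝ) 1, h (min x (1 - x)) ≤ 2 * ∫⁻ x in Ioo (0 : ℝ) (1 / 2), h x := by
  have e0 : ∫⁻ x in Icc (0 : ℝ) (1 / 2), h x = ∫⁻ x in Ioo (0 : ℝ) (1 / 2), h x :=
    setLIntegral_congr Ioo_ae_eq_Icc.symm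
  have e1 : ∫⁻ x in Icc (0 : ℝ) (1 / 2), h (min x (1 - x)) = ∫⁻ x in Icc (0 : ℝ) (1 / 2), h x :=
    setLIntegral_congr_fun measurableSet_Icc fun x hx => by
      rw [min_eq_left (by linarith [hx.2])]
  have e2 : ∫⁻ x in Icc (1 / 2 : ℝ) 1, h (min x (1 - x)) = ∫⁻ x in Icc (0 : ℝ) (1 / 2), h x := by
    rw [← lintegral_indicator measurableSet_Icc, ← lintegral_indicator measurableSet_Icc,
      ← lintegral_sub_left_eq_self _ (1 : ℝ)]
    congr 1
    ext x
    by_cases hx : x ∈ Icc (0 : ℝ) (1 / 2)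
    · have : 1 - x ∈ Icc (1 / 2 : ℝ) 1 := ⟨by linarith [hx.2], by linarith [hx.1]⟩
      rw [indicator_of_mem hx, indicator_of_mem this, sub_sub_cancel,
        min_eq_right (by linarith [hx.2])]
    · have : 1 - x ∉ Icc (1 / 2 : ℝ) 1 := fun h' => hx ⟨by linarith [h'.2], by linarith [h'.1]⟩
      rw [indicator_of_notMem hx, indicator_of_notMem this]
  calc ∫⁻ x in Icc (0 : ℝ) 1, h (min x (1 - x))
      ≤ ∫⁻ x in Icc (0 : ℝ) (1 / 2) ∪ Icc (1 / 2 : ℝ) 1, h (min x (1 - x)) :=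
        lintegral_mono_set (Icc_subset_Icc_union_Icc)
    _ ≤ _ := lintegral_union_le _ _ _
    _ = _ := by rw [e1, e2, e0, two_mul]

def H (x y : ℝ) : ℝ≥0∞ := (Ioo 0 x).indicator (fun y => ENNReal.ofReal (w y x)) y

theorem meas_H : Measurable fun p : ℝ × ℝ => H p.1 p.2 := by
  have hs : MeasurableSet {p : ℝ × ℝ | 0 < p.2 ∧ p.2 < p.1} :=
    (measurableSet_lt measurable_const measurable_snd).inter
      (measurableSet_lt measurable_snd measurable_fst)
  have : (fun p : ℝ × ℝ => H p.1 p.2) = {p : ℝ × ℝ | 0 < p.2 ∧ p.2 < p.1}.indicator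
      (fun p => ENNReal.ofReal (w p.2 p.1)) := by
    ext p
    unfold H
    by_cases hp : p.2 ∈ Ioo 0 p.1
    · rw [indicator_of_mem hp, indicator_of_mem (show p ∈ {p : ℝ × ℝ | 0 < p.2 ∧ p.2 < p.1} from hp)]
    · rw [indicator_of_notMem hp,
        indicator_of_notMem (show p ∉ {p : ℝ × ℝ | 0 < p.2 ∧ p.2 < p.1} from hp)]
  rw [this]
  have h5 : Measurable ((fun p : ℝ × ℝ => w p.1 p.2) ∘ Prod.swap) := meas_w.comp measurable_swap
  have h6 : Measurable fun p : ℝ × ℝ => w p.2 p.1 := h5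
  exact h6.ennreal_ofReal.indicator hs

theorem tri_le : ∫⁻ x in Ioo (0 : ℝ) (1 / 2), ∫⁻ y in Ioo (0 : ℝ) (1 / 2), H x y ≤
    ENNReal.ofReal 0.73 := by
  refine le_trans (setLIntegral_mono' measurableSet_Ioo fun x hx => ?_) outer_le
  refine le_trans (setLIntegral_le_lintegral _ _) ?_
  unfold H
  rw [lintegral_indicator measurableSet_Ioo]
  exact inner_le x hx.1

theorem sq_le : ∫⁻ x in Ioo (0 : ℝ) (1 / 2), ∫⁻ y in Ioo (0 : ℝ) (1 / 2),
    ENNReal.ofReal (w (min x y) (max x y)) ≤ 2 * ENNReal.ofReal 0.73 := by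
  have hm := meas_H
  have hm' : Measurable fun p : ℝ × ℝ => H p.2 p.1 := hm.comp measurable_swap
  have h1 : ∀ x ∈ Ioo (0 : ℝ) (1 / 2), ∫⁻ y in Ioo (0 : ℝ) (1 / 2),
      ENNReal.ofReal (w (min x y) (max x y)) ≤
      (∫⁻ y in Ioo (0 : ℝ) (1 / 2), H x y) + ∫⁻ y in Ioo (0 : ℝ) (1 / 2), H y x := by
    intro x hx
    have hmx : Measurable fun y => H x y := hm.comp (measurable_prodMk_left (x := x))
    rw [← lintegral_add_left hmx]
    apply lintegral_mono_ae
    have hne : ∀ᵐ y ∂(volume.restrict (Ioo (0 : ℝ) (1 / 2))), y ≠ x :=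
      ae_restrict_of_ae (by simp [ae_iff])
    filter_upwards [hne, ae_restrict_mem measurableSet_Ioo] with y hy hy'
    rcases lt_or_gt_of_ne hy with h | h
    · rw [min_eq_right h.le, max_eq_left h.le]
      refine le_trans (le_of_eq ?_) le_self_add
      simp only [H]
      rw [indicator_of_mem (show y ∈ Ioo 0 x from ⟨hy'.1, h⟩)]
    · rw [min_eq_left h.le, max_eq_right h.le]
      refine le_trans (le_of_eq ?_) le_add_self
      simp only [H]
      rw [indicator_of_mem (show x ∈ Ioo 0 y from ⟨hx.1, h⟩)]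
  refine le_trans (setLIntegral_mono' measurableSet_Ioo h1) ?_
  rw [lintegral_add_left (hm.lintegral_prod_right'), two_mul]
  refine add_le_add tri_le ?_
  rw [lintegral_lintegral_swap hm'.aemeasurable]
  exact tri_le

end NI

theorem blk_NI : St_NI := by
  refine ⟨NI.meas_WW, ?_⟩
  have hG : Measurable fun p : ℝ × ℝ => ENNReal.ofReal (NI.w (min p.1 p.2) (max p.1 p.2)) :=
    (NI.meas_w.comp ((measurable_fst.min measurable_snd).prodMk
      (measurable_fst.max measurable_snd))).ennreal_ofReal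
  have hd : Measurable fun x : ℝ => min x (1 - x) := by fun_prop
  set G : ℝ × ℝ → ℝ≥0∞ := fun p => ENNReal.ofReal (NI.w (min p.1 p.2) (max p.1 p.2)) with hGd
  have hG' : Measurable fun p : ℝ × ℝ => G (min p.1 (1 - p.1), min p.2 (1 - p.2)) :=
    hG.comp ((hd.comp measurable_fst).prodMk (hd.comp measurable_snd))
  have hbox : box [] = Complex.measurableEquivRealProd ⁻¹' (Icc (0 : ℝ) 1 ×ˢ Icc (0 : ℝ) 1) := by
    ext z
    simp [box, corner, side]
    tauto
  have e1 : ∫⁻ z in box [], ENNReal.ofReal (WW z) =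
      ∫⁻ p in Icc (0 : ℝ) 1 ×ˢ Icc (0 : ℝ) 1, G (min p.1 (1 - p.1), min p.2 (1 - p.2)) := by
    rw [hbox, ← Complex.volume_preserving_equiv_real_prod.setLIntegral_comp_preimage_emb
      Complex.measurableEquivRealProd.measurableEmbedding]
    rfl
  rw [e1, Measure.volume_eq_prod, ← Measure.prod_restrict, lintegral_prod _ hG'.aemeasurable]
  have h2 : ∀ x : ℝ, ∫⁻ y in Icc (0 : ℝ) 1, G (min x (1 - x), min y (1 - y)) ≤
      2 * ∫⁻ y in Ioo (0 : ℝ) (1 / 2), G (min x (1 - x), y) := fun x =>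
    NI.fold (fun y => G (min x (1 - x), y))
  have hK : Measurable fun x : ℝ => ∫⁻ y in Ioo (0 : ℝ) (1 / 2), G (x, y) :=
    hG.lintegral_prod_right'
  calc ∫⁻ x in Icc (0 : ℝ) 1, ∫⁻ y in Icc (0 : ℝ) 1, G (min x (1 - x), min y (1 - y))
      ≤ ∫⁻ x in Icc (0 : ℝ) 1, 2 * ∫⁻ y in Ioo (0 : ℝ) (1 / 2), G (min x (1 - x), y) :=
        lintegral_mono h2
    _ = 2 * ∫⁻ x in Icc (0 : ℝ) 1, ∫⁻ y in Ioo (0 : ℝ) (1 / 2), G (min x (1 - x), y) :=
        lintegral_const_mul _ (hK.comp hd)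
    _ ≤ 2 * (2 * ∫⁻ x in Ioo (0 : ℝ) (1 / 2), ∫⁻ y in Ioo (0 : ℝ) (1 / 2), G (x, y)) := by
        gcongr
        exact NI.fold fun x => ∫⁻ y in Ioo (0 : ℝ) (1 / 2), G (x, y)
    _ ≤ 2 * (2 * (2 * ENNReal.ofReal 0.73)) := by
        gcongr
        exact NI.sq_le
    _ ≤ ENNReal.ofReal 5.85 := by
        have : (2 : ℝ≥0∞) = ENNReal.ofReal 2 := by simp
        rw [this, ← ENNReal.ofReal_mul (by norm_num), ← ENNReal.ofReal_mul (by norm_num),
          ← ENNReal.ofReal_mul (by norm_num)]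
        exact ENNReal.ofReal_le_ofReal (by norm_num)

end

end Pool.Agent.Lib.APPS
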