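import Pool.Agent.Lib.APPS.Blue2
import Pool.Agent.Lib.APPS.B_FM

/-!
Block NMS: a large cluster near a square with a low child.
-/

namespace Pool.Agent.Lib.APPS

open MeasureTheory ProbabilityTheory Filter Topology Set Metric
open scoped NNReal ENNReal RealInnerProductSpace Classical

noncomputable section

namespace NMS

open FM

theorem ind_pos {p : Prop} (h : p) : ind p = 1 := if_pos h
theorem ind_neg {p : Prop} (h : ¬p) : ind p = 0 := if_neg h

theorem ind_mono {p q : Prop} (h : p → q) : ind p ≤ ind q := by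
  by_cases hp : p
  · rw [ind_pos hp, ind_pos (h hp)]
  · rw [ind_neg hp]; exact bot_le

theorem meas_ind {α : Type} [MeasurableSpace α] {p : α → Prop} (h : MeasurableSet {a | p a}) :
    Measurable fun a => ind (p a) := Measurable.ite h measurable_const measurable_const

theorem lint_ind {α : Type} [MeasurableSpace α] (μ : Measure α) {p : α → Prop}
    (h : MeasurableSet {a | p a}) : ∫⁻ a, ind (p a) ∂μ = μ {a | p a} := by
  rw [← lintegral_indicator_one h]
  refine lintegral_congr fun a => ?_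
  by_cases ha : p a <;> simp [ind, ha]

theorem log_side (T : Dy) : Real.log (side T) = -(T.length * l2) := by
  simp only [side, l2, Real.log_pow, one_div, Real.log_inv]
  ring

theorem side_le {B V : Dy} (h : B.length ≤ V.length) : side V ≤ side B :=
  pow_le_pow_of_le_one (by norm_num) (by norm_num) h

def bP (M : Model) (P : Dy) : HH := M.eC (ctr P) (16 * side P)
def xv (M : Model) (P V S : Dy) : HH := M.eS (S ++ V) - bP M P

theorem geom (hM : St_MOD) (hFE : St_FE) (hE : St_EXP2) (hG : St_GEO1) :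
    ∃ C : ℝ, ∀ (M : Model) (i0 : ℕ) (P V : Dy) (d : Fin 2 × Fin 2), M.Ok i0 → i0 + 4 ≤ P.length →
      V.length = P.length → ‖ctr V - ctr P‖ ≤ 9 * side P →
      Gram (xv M P V) (covE (Real.log 16)) ∧ (∀ S, ⟪bP M P, xv M P V S⟫ = 0) ∧
      ‖bP M P‖ ^ 2 = M.C0 + P.length * l2 - Real.log 16 ∧
      ⟪M.eS (d :: P), bP M P⟫ = ‖bP M P‖ ^ 2 ∧
      ‖M.eS (d :: P)‖ ^ 2 ≤ M.C0 + (P.length + 1) * l2 + C ∧
      ∀ S, -C ≤ ⟪M.eS (d :: P), xv M P V S⟫ := by
  obtain ⟨C, hC0, -, -, hkS, -⟩ := hE.2.2.2.2.2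
  refine ⟨C, fun M i0 P V d hOk hP hV hd => ?_⟩
  have hs := (hG.1 P).1
  have hr : 0 < 16 * side P := by positivity
  have hsV : side V = side P := by simp only [side, hV]
  have h0 : ∀ A, box A ⊆ box [] := fun A => (hG.2.2.2.2.1 A []).2 List.nil_suffix
  have hO : ∀ A, box A ⊆ M.O := fun A y hy =>
    hOk.1 y (h0 A hy) (mem_closedBall_self (by positivity))
  have hun : ∀ A, unif A M.Oᶜ = 0 := fun A =>
    measure_mono_null (compl_subset_compl.2 (hO A)) (hFE.2.2.2.2.2.2.2.1 A).2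
  have hpu : ∀ A, PFE (unif A) := fun A => (hFE.2.2.2.2.2.2.2.1 A).1
  have hball : closedBall (ctr P) (16 * side P) ⊆ M.O := by
    refine Subset.trans (closedBall_subset_closedBall ?_) (hOk.1 _ (h0 P (hG.2.2.2.1 P).2.2.1))
    have : side P ≤ (1 / 2 : ℝ) ^ (i0 + 4) := pow_le_pow_of_le_one (by norm_num) (by norm_num) hP
    rw [pow_add] at this
    linarith
  have c1 : ∀ S, ∀ y ∈ box (S ++ V), ‖y - ctr P‖ ≤ 10 * side P := fun S y hy => by
    have h1 := (hG.2.2.2.1 V).2.2.2.1 y ((hG.2.2.2.2.1 _ _).2 (List.suffix_append S V) hy)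
    have h2 := norm_sub_le_norm_sub_add_norm_sub y (ctr V) (ctr P)
    linarith
  have c2 : ∀ y ∈ box (d :: P), ‖y - ctr P‖ ≤ side P := fun y hy => by
    have h1 := (hG.2.2.2.1 P).2.2.2.1 y ((hG.2.2.2.2.1 _ _).2 (List.suffix_cons d P) hy)
    linarith
  have s1 : ∀ S, unif (S ++ V) (closedBall (ctr P) (16 * side P))ᶜ = 0 := fun S =>
    measure_mono_null (compl_subset_compl.2 fun y hy =>
      mem_closedBall_iff_norm.2 ((c1 S y hy).trans (by linarith))) (hFE.2.2.2.2.2.2.2.1 _).2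
  have s2 : unif (d :: P) (closedBall (ctr P) (16 * side P))ᶜ = 0 :=
    measure_mono_null (compl_subset_compl.2 fun y hy =>
      mem_closedBall_iff_norm.2 ((c2 y hy).trans (by linarith))) (hFE.2.2.2.2.2.2.2.1 _).2
  have hl : Real.log (16 * side P) = Real.log 16 - P.length * l2 := by
    rw [Real.log_mul (by norm_num) hs.ne', log_side]; ring
  obtain ⟨-, -, -, m4, -, -, -, -, m9, m10, m11, m12, -⟩ := hM M
  have o1 : ∀ S, ⟪bP M P, xv M P V S⟫ = 0 := fun S => by
    rw [real_inner_comm]; exact m10 _ _ _ _ hr le_rfl (hpu _) (s1 S) hball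
  refine ⟨?_, o1, ?_, ?_, ?_, fun S => ?_⟩
  · have := m12 (ctr P) _ V hr fun y hy =>
      mem_closedBall_iff_norm.2 ((c1 [] y hy).trans (by linarith))
    rwa [hl, hV, sub_add_cancel] at this
  · rw [← real_inner_self_eq_norm_sq, bP, m11 _ _ _ hr le_rfl hball, hl]; ring
  · have := m10 _ _ _ _ hr le_rfl (hpu _) s2 hball
    rw [inner_sub_left, sub_eq_zero] at this
    rw [← real_inner_self_eq_norm_sq]; exact this
  · rw [← real_inner_self_eq_norm_sq, Model.eS, m4 _ _ (hpu _) (hpu _) (hun _) (hun _)]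
    have h := hkS (d :: P) (d :: P)
    rw [sub_self, norm_zero, max_self, max_eq_right (hG.1 _).1.le, log_side, kS,
      List.length_cons, Nat.cast_succ] at h
    linarith [le_of_abs_le h]
  · have e := m9 _ _ _ _ hr (hpu _) (hpu _) s2 (s1 S)
    have e2 : ⟪M.eS (d :: P), xv M P V S⟫ = ⟪M.eS (d :: P) - bP M P, xv M P V S⟫ := by
      rw [inner_sub_left, o1, sub_zero]
    have h2 : max ‖ctr (d :: P) - ctr (S ++ V)‖ (max (side (d :: P)) (side (S ++ V))) ≤
        16 * side P := by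
      have a1 := c1 S _ (hG.2.2.2.1 (S ++ V)).2.2.1
      have a2 := c2 _ (hG.2.2.2.1 (d :: P)).2.2.1
      have a3 := norm_sub_le_norm_sub_add_norm_sub (ctr (d :: P)) (ctr P) (ctr (S ++ V))
      rw [norm_sub_rev (ctr P)] at a3
      have a4 : side (d :: P) ≤ side P := side_le (by simp)
      have a5 : side (S ++ V) ≤ side P := side_le (by simp [hV])
      exact max_le (by linarith) (max_le (by linarith) (by linarith))
    have h4 := Real.log_le_log
      ((hG.1 _).1.trans_le ((le_max_left _ _).trans (le_max_right _ _))) h2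
    have h5 := (abs_le.1 (hkS (d :: P) (S ++ V))).1
    rw [kS] at h5
    rw [e2]
    refine le_trans ?_ e.ge
    linarith

theorem one_sq (hD : St_G1D) (h2 : St_G2) (hT1 : St_T1) (hT3 : St_T3) {γ C K lam u c : ℝ}
    (ha : 0 < aa γ) (M : Model) (P V : Dy) (d : Fin 2 × Fin 2) (hV : V.length = P.length)
    (N : ℝ≥0∞) (h1 : ∀ S, ⟪bP M P, xv M P V S⟫ = 0)
    (h3 : ⟪M.eS (d :: P), bP M P⟫ = ‖bP M P‖ ^ 2)
    (h4 : ‖M.eS (d :: P)‖ ^ 2 ≤ M.C0 + (P.length + 1) * l2 + C)
    (h5 : ∀ S, -C ≤ ⟪M.eS (d :: P), xv M P V S⟫)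
    (h6 : ∀ w, gm {ω | N ≤ nB (XV γ (xv M P V) w ω)} ≤ ENNReal.ofReal K * eE (lam * w)) :
    gm {ω | M.X γ u ω (d :: P) ≤ c ∧ N ≤ nB (sub (M.X γ u ω) V)} ≤ ENNReal.ofReal K *
      eE (aa γ * (c - u + QQ γ * (P.length + 1) * l2) +
        aa γ ^ 2 * (M.C0 + (P.length + 1) * l2 + C) / 2 +
        (lam * (u - QQ γ * P.length * l2 + aa γ * C - aa γ * ‖bP M P‖ ^ 2) +
          lam ^ 2 * ‖bP M P‖ ^ 2 / 2)) := by
  have hX := (hT3.2.2.2.2.2.2.2.2.2.2.1 M γ u).1
  have s1 : MeasurableSet {ω | N ≤ nB (sub (M.X γ u ω) V)} :=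
    measurableSet_le measurable_const (hT3.1.comp ((hT3.2.2.2.2.1 V).comp hX))
  have s2 : MeasurableSet {ω | M.X γ u ω (d :: P) ≤ c ∧ N ≤ nB (sub (M.X γ u ω) V)} :=
    (measurableSet_le ((measurable_pi_apply _).comp hX) measurable_const).inter s1
  set h : HH := (-aa γ) • M.eS (d :: P) with hh
  set w := u - QQ γ * P.length * l2 + aa γ * C - aa γ * ‖bP M P‖ ^ 2 with hw
  set E := aa γ * (c - u + QQ γ * (P.length + 1) * l2) +
    aa γ ^ 2 * (M.C0 + (P.length + 1) * l2 + C) / 2 with hE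
  have hcm := h2.2.1 h _ (meas_ind s1)
  have hn : ‖h‖ ^ 2 ≤ aa γ ^ 2 * (M.C0 + (P.length + 1) * l2 + C) := by
    rw [hh, norm_smul, mul_pow, Real.norm_eq_abs, sq_abs, neg_sq]
    exact mul_le_mul_of_nonneg_left h4 (sq_nonneg _)
  have e1 : ∀ ω : Om, ind (M.X γ u ω (d :: P) ≤ c ∧ N ≤ nB (sub (M.X γ u ω) V)) ≤
      eE E * (ind (N ≤ nB (sub (M.X γ u ω) V)) * eE (ω h - ‖h‖ ^ 2 / 2)) := by
    intro ω
    by_cases hb : M.X γ u ω (d :: P) ≤ c ∧ N ≤ nB (sub (M.X γ u ω) V)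
    · rw [ind_pos hb, ind_pos hb.2, one_mul, ← eE_add, ← eE_zero]
      refine eE_mono ?_
      have a1 : ω h = -aa γ * ω (M.eS (d :: P)) := by rw [hh, map_smul, smul_eq_mul]
      have a2 := hb.1
      simp only [Model.X, drift, List.length_cons, Nat.cast_succ] at a2
      rw [a1, hE]
      nlinarith
    · rw [ind_neg hb]; exact bot_le
  let f : (Unit → ℝ) × Om → ℝ≥0∞ := fun p => ind (N ≤ nB (XV γ (xv M P V) (p.1 () + w) p.2))
  have hf : Measurable f := by
    refine meas_ind (measurableSet_le measurable_const (hT3.1.comp ?_))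
    have m1 : Measurable fun p : (Unit → ℝ) × Om => p.1 () + w := by fun_prop
    exact measurable_pi_lambda _ fun S =>
      (((meas_ev _).comp measurable_snd).add m1).sub_const _
  have e2 : ∀ ω : Om, ind (N ≤ nB (sub (M.X γ u (ω + dv h)) V)) ≤ f (fun _ => ω (bP M P), ω) := by
    intro ω
    refine ind_mono fun k => k.trans (hT1.2.2.2.2.2.2.2.2.2.2.2.2.2.2.2.1 _ _ fun S => ?_)
    have a1 : M.eS (S ++ V) = xv M P V S + bP M P := by rw [xv, sub_add_cancel]
    have a2 := mul_le_mul_of_nonneg_left (h5 S) ha.le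
    simp only [sub, Model.X, XV, drift, a1, LinearMap.add_apply, dv_apply, hh, map_add,
      real_inner_smul_left, h3, List.length_append, Nat.cast_add, hV, hw]
    linarith
  have mix := h2.2.2.2 Unit (fun _ => bP M P) f hf fun t _ s ω => by
    simp only [f, XV, LinearMap.add_apply, LinearMap.smul_apply, dv_apply, h1, smul_zero, add_zero]
  have s3 : ∀ y, MeasurableSet {ω | N ≤ nB (XV γ (xv M P V) y ω)} := fun y =>
    measurableSet_le measurable_const (hT3.1.comp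
      (measurable_pi_lambda _ fun S => ((meas_ev _).add_const _).sub_const _))
  rw [← lint_ind gm s2]
  refine (lintegral_mono e1).trans ?_
  rw [lintegral_const_mul' _ _ (eE_ne_top _), ← hcm, eE_add E, mul_left_comm (ENNReal.ofReal K)]
  refine mul_le_mul_right ((lintegral_mono e2).trans ?_) _
  rw [mix]
  refine (lintegral_mono (g := fun ω => ENNReal.ofReal K * eE (lam * w) * eE (ω (lam • bP M P)))
    fun ω => ?_).trans (le_of_eq ?_)
  · simp only [f]
    rw [lint_ind gm (s3 _), mul_assoc, ← eE_add]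
    refine (h6 _).trans (le_of_eq ?_)
    rw [map_smul, smul_eq_mul]
    congr 2
    ring
  · rw [lintegral_const_mul' _ _ (ENNReal.mul_ne_top ENNReal.ofReal_ne_top (eE_ne_top _)), hD.1,
      mul_assoc, ← eE_add, norm_smul, mul_pow, Real.norm_eq_abs, sq_abs]

theorem pick (hG : St_GEO1) {n : ℝ} (hn : 1 ≤ n) (x : Dy → ℝ) (P : Dy)
    (h : ENNReal.ofReal n ≤ near x P) :
    ∃ V ∈ (lev P.length).filter fun V => ‖ctr V - ctr P‖ ≤ 9 * side P,
      ENNReal.ofReal (max 1 (n / 362)) ≤ nB (sub x V) := by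
  have hc := hG.2.2.2.2.2.2.2.2.2.2.1 P.length (ctr P) 9 (by norm_num)
  by_contra hk
  push Not at hk
  have h1 : near x P ≤ _ := Finset.sum_le_card_nsmul _ _ (ENNReal.ofReal (n / 362)) fun V hV => by
    rcases le_total 1 (n / 362) with k | k
    · exact (max_eq_right k ▸ hk V hV).le
    · have k1 := hk V hV
      rw [max_eq_left k, ENNReal.ofReal_one] at k1
      have : nB (sub x V) = 0 := ENNReal.tsum_eq_zero.2 fun A => ind_neg fun kA =>
        k1.not_ge ((ind_pos kA).ge.trans (ENNReal.le_tsum (f := fun A => ind (IntN _ A)) A))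
      rw [this]; exact bot_le
  rw [nsmul_eq_mul, ← ENNReal.ofReal_natCast, ← ENNReal.ofReal_mul (Nat.cast_nonneg _)] at h1
  have h2 := (ENNReal.ofReal_le_ofReal_iff (by positivity)).1 (h.trans h1)
  have h3 := mul_le_mul_of_nonneg_right hc (show 0 ≤ n / 362 by positivity)
  simp only [side] at h2
  linarith

end NMS

open NMS FM in
theorem blk_NMS (_hG1 : St_G1) (hD : St_G1D) (hG2 : St_G2) (_hG3 : St_G3) (hM : St_MOD)
    (hFE : St_FE) (_hE1 : St_EXP1) (hE2 : St_EXP2) (hG : St_GEO1) (hT1 : St_T1) (hT3 : St_T3)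
    (hR : St_RW1) (hRUS : St_RUS) : St_NMS := by
  intro γ hγ M hO u c η hη
  obtain ⟨ha, -, ht, hta, hQ, hQa, -⟩ := hR.2.2 γ hγ
  have hγ0 := hγ.1
  have hl := l2_pos
  obtain ⟨C, hC⟩ := geom hM hFE hE2 hG
  obtain ⟨i0, hi⟩ := (hM M).2.2.2.2.2.2.2.2.2.2.2.2.2.2.1 hO
  have hOk := hi i0 le_rfl
  obtain ⟨K, hK⟩ := (hRUS γ hγ).2 (Real.log 16)
  set p := th γ + 1 with hp
  set lam := QQ γ + aa γ with hlam
  have hlp : γ * p = lam := by
    rw [hp, hlam, mul_add, hta]; unfold aa; ring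
  have hQ2 : QQ γ ^ 2 = aa γ ^ 2 + 4 := by unfold aa QQ; field_simp; ring
  set c0 := aa γ * (c - u + QQ γ * l2) + aa γ ^ 2 * (M.C0 + l2 + C) / 2 + lam * (u + aa γ * C) +
    (lam ^ 2 / 2 - lam * aa γ) * (M.C0 - Real.log 16) with hc0
  set κ := aa γ ^ 2 * l2 / 2 with hκ
  have hκ0 : 0 < κ := by positivity
  set K2 := 4 * 361 * (|K| * 362 ^ p) * Real.exp c0 * (1 - Real.exp (-κ))⁻¹ with hK2
  have lim : Tendsto (fun k : ℕ => K2 * Real.exp (-κ * k)) atTop (𝓝 (K2 * 0)) :=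
    (Real.tendsto_exp_atBot.comp (tendsto_natCast_atTop_atTop.const_mul_atTop_of_neg
      (show -κ < 0 by linarith))).const_mul _
  obtain ⟨K1, hK1⟩ := eventually_atTop.1 (lim.eventually_le_const (u := η) (by simpa using hη))
  refine ⟨max K1 (i0 + 4), fun n hn => ?_⟩
  set k1 := max K1 (i0 + 4) with hk1
  have n0 : 0 < n := by linarith
  set K3 := |K| * 362 ^ p * n ^ (-p) with hK3
  have K30 : 0 ≤ K3 := by positivity
  have h6 : ∀ v, Gram v (covE (Real.log 16)) → ∀ w,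
      gm {ω | ENNReal.ofReal (max 1 (n / 362)) ≤ nB (XV γ v w ω)} ≤
        ENNReal.ofReal K3 * eE (lam * w) := fun v hv w => by
    refine (hK v hv w _ (le_max_left _ _)).trans ?_
    rw [eE, ← ENNReal.ofReal_mul K30]
    refine ENNReal.ofReal_le_ofReal ?_
    have a1 : (Real.exp (γ * w) / max 1 (n / 362)) ^ p ≤ (Real.exp (γ * w) / (n / 362)) ^ p :=
      Real.rpow_le_rpow (by positivity) (div_le_div_of_nonneg_left (Real.exp_pos _).le
        (by positivity) (le_max_right _ _)) (by linarith)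
    refine (mul_le_mul (le_abs_self K) a1 (by positivity) (abs_nonneg K)).trans (le_of_eq ?_)
    rw [Real.div_rpow (Real.exp_pos _).le (by positivity), Real.div_rpow n0.le (by norm_num),
      ← Real.exp_mul, hK3, Real.rpow_neg n0.le, ← hlp, mul_right_comm γ w p]
    field_simp
  have term : ∀ P : Dy, ind (k1 ≤ P.length) * ∑ d : Fin 2 × Fin 2,
      gm {ω | M.X γ u ω (d :: P) ≤ c ∧ ENNReal.ofReal n ≤ near (M.X γ u ω) P} ≤
      ind (k1 ≤ P.length) * (4 * (361 * (ENNReal.ofReal K3 *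
        eE (c0 - QQ γ ^ 2 / 2 * P.length * l2)))) := by
    intro P
    by_cases hP : k1 ≤ P.length
    swap
    · rw [ind_neg hP, zero_mul, zero_mul]
    refine mul_le_mul_right ((Finset.sum_le_card_nsmul _ _ (361 * (ENNReal.ofReal K3 *
      eE (c0 - QQ γ ^ 2 / 2 * P.length * l2))) fun d _ => ?_).trans (by simp)) _
    set s := (lev P.length).filter fun V => ‖ctr V - ctr P‖ ≤ 9 * side P with hs
    have hc : (s.card : ℝ≥0∞) ≤ 361 := by
      have h1 := hG.2.2.2.2.2.2.2.2.2.2.1 P.length (ctr P) 9 (by norm_num)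
      have h4 : (s.card : ℝ) ≤ 361 := h1.trans (by norm_num)
      have h5 : s.card ≤ 361 := by exact_mod_cast h4
      exact_mod_cast h5
    refine (measure_mono (t := ⋃ V ∈ s, {ω | M.X γ u ω (d :: P) ≤ c ∧
      ENNReal.ofReal (max 1 (n / 362)) ≤ nB (sub (M.X γ u ω) V)}) fun ω hω => ?_).trans
      ((measure_biUnion_finset_le _ _).trans ((Finset.sum_le_card_nsmul _ _
        (ENNReal.ofReal K3 * eE (c0 - QQ γ ^ 2 / 2 * P.length * l2)) fun V hV => ?_).trans ?_))
    · obtain ⟨V, hV, h⟩ := pick hG hn _ P hω.2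
      exact mem_biUnion hV ⟨hω.1, h⟩
    · have hVl := (hT1.1 _ _).1 (Finset.mem_filter.1 hV).1
      obtain ⟨g1, g2, g3, g4, g5, g6⟩ := hC M i0 P V d hOk ((le_max_right _ _).trans hP) hVl
        (Finset.mem_filter.1 hV).2
      refine (one_sq hD hG2 hT1 hT3 ha M P V d hVl _ g2 g4 g5 g6 (h6 _ g1)).trans (le_of_eq ?_)
      congr 2
      rw [g3, hc0, hlam]
      ring
    · rw [nsmul_eq_mul]
      exact mul_le_mul_left hc _
  refine (ENNReal.tsum_le_tsum term).trans ?_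
  rw [sum_len hT1 fun k => ind (k1 ≤ k) * (4 * (361 * (ENNReal.ofReal K3 *
    eE (c0 - QQ γ ^ 2 / 2 * k * l2))))]
  have e : ∀ k : ℕ, 4 ^ k * (ind (k1 ≤ k) * (4 * (361 * (ENNReal.ofReal K3 *
      eE (c0 - QQ γ ^ 2 / 2 * k * l2))))) =
      4 * 361 * ENNReal.ofReal K3 * eE c0 * (ind (k1 ≤ k) * eE (-κ * k)) := fun k => by
    have e1 : (4 : ℝ≥0∞) ^ k = eE (2 * k * l2) := by
      rw [eE, ← four_pow, ENNReal.ofReal_pow (by norm_num)]; norm_num
    have e2 : eE (2 * k * l2) * eE (c0 - QQ γ ^ 2 / 2 * k * l2) = eE c0 * eE (-κ * k) := by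
      rw [← eE_add, ← eE_add, hQ2, hκ]; congr 1; ring
    rw [e1]
    calc _ = ind (k1 ≤ k) * (4 * 361 * ENNReal.ofReal K3) *
          (eE (2 * k * l2) * eE (c0 - QQ γ ^ 2 / 2 * k * l2)) := by ring
      _ = _ := by rw [e2]; ring
  simp only [e]
  rw [ENNReal.tsum_mul_left]
  refine (mul_le_mul_right (geo hκ0 k1) _).trans ?_
  have q0 : 0 ≤ (1 - Real.exp (-κ))⁻¹ :=
    inv_nonneg.2 (sub_nonneg.2 (Real.exp_le_one_iff.2 (by linarith)))
  rw [show (4 * 361 : ℝ≥0∞) = ENNReal.ofReal (4 * 361) by norm_num, eE, eE,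
    ← ENNReal.ofReal_mul (by norm_num), ← ENNReal.ofReal_mul (by positivity),
    ← ENNReal.ofReal_mul q0, ← ENNReal.ofReal_mul (by positivity)]
  refine ENNReal.ofReal_le_ofReal ?_
  have h7 := mul_le_mul_of_nonneg_right (hK1 k1 (le_max_left _ _))
    (Real.rpow_nonneg n0.le (-p))
  refine le_trans (le_of_eq ?_) h7
  rw [hK2, hK3]
  ring

end

end Pool.Agent.Lib.APPS
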