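import Pool.Agent.Lib.APPS.Blue5

/-!
Block NP1: the potential of the unit square.
-/

namespace Pool.Agent.Lib.APPS

open MeasureTheory ProbabilityTheory Filter Topology Set Metric
open scoped NNReal ENNReal RealInnerProductSpace Classical

noncomputable section

namespace NP1

theorem box_int (hGEO : St_GEO1) (S : Dy) {f : ℂ → ℝ} (hf : IntegrableOn f (box S)) :
    ∫ z, f z ∂unif S = (side S ^ 2)⁻¹ * ∫ x in (corner S).re..((corner S).re + side S),
      ∫ y in (corner S).im..((corner S).im + side S), f ⟨x, y⟩ := by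
  have hs := (hGEO.1 S).1
  have hp := Complex.volume_preserving_equiv_real_prod.symm
  have he := Complex.measurableEquivRealProd.symm.measurableEmbedding
  have hb : Complex.measurableEquivRealProd.symm ⁻¹' box S =
      Icc (corner S).re ((corner S).re + side S) ×ˢ Icc (corner S).im ((corner S).im + side S) :=
    rfl
  have h1 := hp.setIntegral_preimage_emb he f (box S)
  have h2 : IntegrableOn (fun x => f (Complex.measurableEquivRealProd.symm x)) _ _ :=
    (hp.integrableOn_comp_preimage he).2 hf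
  rw [hb] at h1 h2
  rw [unif, integral_smul_measure, ENNReal.toReal_ofReal (by positivity), smul_eq_mul, one_div,
    ← h1, Measure.volume_eq_prod, setIntegral_prod _ h2,
    intervalIntegral.integral_of_le (by linarith), integral_Icc_eq_integral_Ioc]
  simp only [intervalIntegral.integral_of_le (show (corner S).im ≤ (corner S).im + side S by
    linarith), integral_Icc_eq_integral_Ioc]
  rfl

theorem split {g : ℝ → ℝ} (hg : ∀ s, g (-s) = g s) {a : ℝ}
    (h1 : IntervalIntegrable g volume 0 a) (h2 : IntervalIntegrable g volume 0 (1 - a)) :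
    ∫ x in (0 : ℝ)..1, g (a - x) = (∫ x in (0 : ℝ)..a, g x) + ∫ x in (0 : ℝ)..(1 - a), g x := by
  have h3 : IntervalIntegrable g volume (a - 1) 0 := by
    have := (IntervalIntegrable.iff_comp_neg (f := g) (a := 0) (b := 1 - a)).1 h2
    simp only [hg, neg_zero, neg_sub] at this
    exact this.symm
  have e := intervalIntegral.integral_comp_neg (a := 0) (b := 1 - a) g
  simp only [hg, neg_zero, neg_sub] at e
  rw [intervalIntegral.integral_comp_sub_left g a, sub_zero, e,
    ← intervalIntegral.integral_add_adjacent_intervals h3 h1, add_comm]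

theorem lg_int (s b : ℝ) : IntervalIntegrable (lg s) volume 0 b := by
  rcases eq_or_ne s 0 with rfl | hs
  · have : lg 0 = fun t => -Real.log t := by
      funext t
      simp only [lg, Real.log_pow, ne_eq, OfNat.ofNat_ne_zero, not_false_eq_true, zero_pow,
        zero_add]
      push_cast
      ring
    rw [this]
    exact intervalIntegral.intervalIntegrable_log'.neg
  · refine Continuous.intervalIntegrable ?_ _ _
    unfold lg
    exact continuous_const.mul (Continuous.log (by fun_prop) fun t => by positivity)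

theorem out_int (hN : St_NF1) {a b : ℝ} (ha : 0 ≤ a) (hb : 0 ≤ b) :
    IntervalIntegrable (fun s => ∫ t in (0 : ℝ)..b, lg s t) volume 0 a := by
  have h := (hN.1 a b ha hb).1
  rw [IntegrableOn, Measure.volume_eq_prod, ← Measure.prod_restrict] at h
  rw [intervalIntegrable_iff_integrableOn_Icc_of_le ha]
  simp only [intervalIntegral.integral_of_le hb, ← integral_Icc_eq_integral_Ioc]
  exact h.integral_prod_left

theorem pot_eq (hE : St_EXP2) (hGEO : St_GEO1) (hN : St_NF1) (z : ℂ) (hz : z ∈ box []) :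
    potS [] z = U2 z.re z.im := by
  obtain ⟨⟨a0, a1⟩, b0, b1⟩ := hz
  simp only [corner, side, Complex.zero_re, Complex.zero_im, List.length_nil, pow_zero,
    zero_add] at a0 a1 b0 b1
  have hI : IntegrableOn (fun y => -Real.log ‖z - y‖) (box []) := by
    have := (hE.2.2.2.1 [] z).neg
    rwa [unif, integrable_smul_measure (by simp [side]) ENNReal.ofReal_ne_top] at this
  have e : ∀ x y : ℝ, -Real.log ‖z - ⟨x, y⟩‖ = lg (z.re - x) (z.im - y) := fun x y => by
    have : ‖z - ⟨x, y⟩‖ ^ 2 = (z.re - x) ^ 2 + (z.im - y) ^ 2 := by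
      rw [Complex.sq_norm, Complex.normSq_apply, Complex.sub_re, Complex.sub_im]
      ring
    rw [lg, ← this, Real.log_pow]
    push_cast
    ring
  have ev : ∀ s t, lg s (-t) = lg s t := fun s t => by simp [lg]
  have ev' : ∀ s t, lg (-s) t = lg s t := fun s t => by simp [lg]
  rw [potS, box_int hGEO [] hI]
  simp only [corner, side, Complex.zero_re, Complex.zero_im, List.length_nil, pow_zero,
    zero_add, one_pow, inv_one, one_mul, e]
  simp only [fun s => split (ev s) (lg_int s z.im) (lg_int s (1 - z.im))]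
  have h := fun a (ha : 0 ≤ a) => (out_int hN ha b0).add (out_int hN ha (sub_nonneg.2 b1))
  rw [split (g := fun s => (∫ t in (0 : ℝ)..z.im, lg s t) + ∫ t in (0 : ℝ)..(1 - z.im), lg s t)
    (fun s => by simp only [ev']) (h _ a0) (h _ (sub_nonneg.2 a1)),
    intervalIntegral.integral_add (out_int hN a0 b0) (out_int hN a0 (sub_nonneg.2 b1)),
    intervalIntegral.integral_add (out_int hN (sub_nonneg.2 a1) b0)
      (out_int hN (sub_nonneg.2 a1) (sub_nonneg.2 b1))]
  simp only [U2, FF]
  ring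

theorem kS_eq (hE : St_EXP2) (hGEO : St_GEO1) (hN : St_NF1) (S : Dy) :
    kS [] S = (side S ^ 2)⁻¹ * ∫ x in (corner S).re..((corner S).re + side S),
      ∫ y in (corner S).im..((corner S).im + side S), U2 x y := by
  have hs := (hGEO.1 S).1
  obtain ⟨C, -, -, hL, -⟩ := hE.2.2.2.2.2
  have hc : Continuous (potS []) :=
    (LipschitzWith.of_dist_le' (K := C / side []) fun z z' => by
      rw [Real.dist_eq, dist_eq_norm]; exact hL [] z z').continuous
  rw [(hE.2.2.2.2.1 [] S).1,
    box_int hGEO S (hc.continuousOn.integrableOn_compact (hGEO.2.2.2.1 S).1)]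
  congr 1
  refine intervalIntegral.integral_congr fun x hx => intervalIntegral.integral_congr fun y hy => ?_
  rw [uIcc_of_le (by linarith)] at hx hy
  exact pot_eq hE hGEO hN ⟨x, y⟩ ((hGEO.2.2.2.2.1 S []).2 List.nil_suffix ⟨hx, hy⟩)

/-- continuous extension of `FF` -/
def Ft (a b : ℝ) : ℝ := FF (max a 0) (max b 0)

/-- continuous extension of `U2` -/
def Ut (x y : ℝ) : ℝ := Ft x y + Ft (1 - x) y + Ft x (1 - y) + Ft (1 - x) (1 - y)

theorem c_Ft (hN : St_NF1) : Continuous (Function.uncurry Ft) :=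
  hN.2.2.2.2.2.comp_continuous (f := fun p : ℝ × ℝ => (max p.1 0, max p.2 0)) (by fun_prop)
    fun p => ⟨mem_Ici.2 (le_max_right _ _), mem_Ici.2 (le_max_right _ _)⟩

theorem c_Ut (hN : St_NF1) : Continuous (Function.uncurry Ut) := by
  have h := c_Ft hN
  exact ((h.add (h.comp (f := fun p : ℝ × ℝ => (1 - p.1, p.2)) (by fun_prop))).add
    (h.comp (f := fun p : ℝ × ℝ => (p.1, 1 - p.2)) (by fun_prop))).add
    (h.comp (f := fun p : ℝ × ℝ => (1 - p.1, 1 - p.2)) (by fun_prop))

theorem congr2 {f g : ℝ → ℝ → ℝ} (h : ∀ x ∈ Icc (0 : ℝ) 1, ∀ y ∈ Icc (0 : ℝ) 1, f x y = g x y)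
    {p q r s : ℝ} (hp : p ∈ Icc (0 : ℝ) 1) (hq : q ∈ Icc (0 : ℝ) 1) (hr : r ∈ Icc (0 : ℝ) 1)
    (hs : s ∈ Icc (0 : ℝ) 1) :
    ∫ x in p..q, ∫ y in r..s, f x y = ∫ x in p..q, ∫ y in r..s, g x y :=
  intervalIntegral.integral_congr fun x hx => intervalIntegral.integral_congr fun y hy =>
    h x (uIcc_subset_Icc hp hq hx) y (uIcc_subset_Icc hr hs hy)

theorem FF_eq : ∀ x ∈ Icc (0 : ℝ) 1, ∀ y ∈ Icc (0 : ℝ) 1, FF x y = Ft x y := fun x hx y hy => by
  rw [Ft, max_eq_left hx.1, max_eq_left hy.1]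

theorem U2_eq : ∀ x ∈ Icc (0 : ℝ) 1, ∀ y ∈ Icc (0 : ℝ) 1, U2 x y = Ut x y := fun x hx y hy => by
  have hx' : 1 - x ∈ Icc (0 : ℝ) 1 := ⟨by linarith [hx.2], by linarith [hx.1]⟩
  have hy' : 1 - y ∈ Icc (0 : ℝ) 1 := ⟨by linarith [hy.2], by linarith [hy.1]⟩
  rw [U2, Ut, FF_eq x hx y hy, FF_eq _ hx' y hy, FF_eq x hx _ hy', FF_eq _ hx' _ hy']

theorem refl_half {g : ℝ → ℝ} (hg : ∀ s, g (1 - s) = g s) :
    ∫ x in (1 / 2 : ℝ)..(1 / 2 + 1 / 2), g x = ∫ x in (0 : ℝ)..(0 + 1 / 2), g x := by
  have := intervalIntegral.integral_comp_sub_left (a := 0) (b := 0 + 1 / 2) g 1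
  simp only [hg] at this
  rw [this]
  norm_num

theorem half {g : ℝ → ℝ} (hg : ∀ s, g (1 - s) = g s) (hc : Continuous g) :
    ∫ x in (0 : ℝ)..1, g x = 2 * ∫ x in (0 : ℝ)..(0 + 1 / 2), g x := by
  rw [← intervalIntegral.integral_add_adjacent_intervals (hc.intervalIntegrable 0 (0 + 1 / 2))
    (hc.intervalIntegrable _ 1), two_mul, ← refl_half hg]
  norm_num

theorem refl_one (g : ℝ → ℝ) : ∫ x in (0 : ℝ)..1, g (1 - x) = ∫ x in (0 : ℝ)..1, g x := by
  rw [intervalIntegral.integral_comp_sub_left g 1]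
  norm_num

theorem kS_nil (hE : St_EXP2) (hGEO : St_GEO1) (hN : St_NF1) :
    kS [] [] = ∫ x in (0 : ℝ)..1, ∫ y in (0 : ℝ)..1, Ut x y := by
  rw [kS_eq hE hGEO hN]
  simp only [corner, side, Complex.zero_re, Complex.zero_im, List.length_nil, pow_zero,
    zero_add, one_pow, inv_one, one_mul]
  exact congr2 U2_eq (by simp) (by simp) (by simp) (by simp)

end NP1

open NP1 in
theorem blk_NP1 (hE : St_EXP2) (hGEO : St_GEO1) (_hFE : St_FE) (hN : St_NF1) : St_NP1 := by
  refine ⟨pot_eq hE hGEO hN, kS_eq hE hGEO hN, ?_, fun d => ?_⟩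
  · have h := c_Ft hN
    have h1 : ∀ x, Continuous (Ft x) := fun x => h.uncurry_left x
    have h2 : ∀ x, Continuous fun y => Ft x (1 - y) := fun x => (h1 x).comp (by fun_prop)
    have hJ : Continuous fun x => ∫ y in (0 : ℝ)..1, Ft x y :=
      intervalIntegral.continuous_parametric_intervalIntegral_of_continuous' h 0 1
    have e : ∀ x, ∫ y in (0 : ℝ)..1, Ut x y =
        2 * (∫ y in (0 : ℝ)..1, Ft x y) + 2 * ∫ y in (0 : ℝ)..1, Ft (1 - x) y := fun x => by
      simp only [Ut]
      have i1 : ∀ x, IntervalIntegrable (fun y => Ft x y) volume 0 1 := fun x =>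
        (h1 x).intervalIntegrable _ _
      have i2 : ∀ x, IntervalIntegrable (fun y => Ft x (1 - y)) volume 0 1 := fun x =>
        (h2 x).intervalIntegrable _ _
      rw [intervalIntegral.integral_add (((i1 _).add (i1 _)).add (i2 _)) (i2 _),
        intervalIntegral.integral_add ((i1 _).add (i1 _)) (i2 _),
        intervalIntegral.integral_add (i1 _) (i1 _), refl_one (Ft x), refl_one (Ft (1 - x))]
      ring
    have hJ' : Continuous fun x : ℝ => ∫ y in (0 : ℝ)..1, Ft (1 - x) y :=
      hJ.comp (f := fun x : ℝ => 1 - x) (by fun_prop)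
    rw [kS_nil hE hGEO hN, congr2 FF_eq (by simp) (by simp) (by simp) (by simp)]
    simp only [e]
    rw [intervalIntegral.integral_add ((hJ.const_mul 2).intervalIntegrable _ _)
      ((hJ'.const_mul 2).intervalIntegrable _ _), intervalIntegral.integral_const_mul,
      intervalIntegral.integral_const_mul, refl_one fun x => ∫ y in (0 : ℝ)..1, Ft x y]
    ring
  · have h := c_Ut hN
    have s1 : ∀ x y, Ut x (1 - y) = Ut x y := fun x y => by simp only [Ut, sub_sub_cancel]; ring
    have s2 : ∀ x y, Ut (1 - x) y = Ut x y := fun x y => by simp only [Ut, sub_sub_cancel]; ring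
    have hJ : Continuous fun x => ∫ y in (0 : ℝ)..(0 + 1 / 2), Ut x y :=
      intervalIntegral.continuous_parametric_intervalIntegral_of_continuous' h 0 _
    have e0 : kS [] [] = 4 * ∫ x in (0 : ℝ)..(0 + 1 / 2), ∫ y in (0 : ℝ)..(0 + 1 / 2), Ut x y := by
      rw [kS_nil hE hGEO hN]
      simp only [fun x => half (s1 x) (h.uncurry_left x)]
      rw [intervalIntegral.integral_const_mul, half (fun x => by simp only [s2]) hJ]
      ring
    have key : ∀ i : Fin 2, ∀ g : ℝ → ℝ, (∀ s, g (1 - s) = g s) →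
        ∫ x in (1 / 2 * (i : ℕ) : ℝ)..(1 / 2 * (i : ℕ) + 1 / 2), g x =
          ∫ x in (0 : ℝ)..(0 + 1 / 2), g x := by
      intro i g hg
      fin_cases i
      · simp
      · simpa using refl_half hg
    have hm : ∀ i : Fin 2, (1 / 2 * (i : ℕ) : ℝ) ∈ Icc (0 : ℝ) 1 ∧
        (1 / 2 * (i : ℕ) + 1 / 2 : ℝ) ∈ Icc (0 : ℝ) 1 := by
      intro i
      fin_cases i <;> norm_num
    have c1 : (corner [d]).re = 1 / 2 * (d.1 : ℕ) := by simp [corner, side]
    have c2 : (corner [d]).im = 1 / 2 * (d.2 : ℕ) := by simp [corner, side]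
    have c3 : side [d] = 1 / 2 := by simp [side]
    rw [kS_eq hE hGEO hN, c1, c2, c3, congr2 U2_eq (hm _).1 (hm _).2 (hm _).1 (hm _).2, e0]
    simp only [fun x => key d.2 _ (s1 x)]
    rw [key d.1 _ fun x => by simp only [s2]]
    norm_num

end

end Pool.Agent.Lib.APPS
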