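import Pool.Agent.Lib.APPS.Blue5
import Pool.Agent.Lib.APPS.B_MBa

/-!
Tilting by the explicit predictor.
-/

namespace Pool.Agent.Lib.APPS

open MeasureTheory ProbabilityTheory Filter Topology Set Metric
open scoped NNReal ENNReal RealInnerProductSpace Classical

noncomputable section

namespace NRb

open MB

theorem sum_cons (G : Dy → ℝ≥0∞) :
    ∑' S : Dy, ind (S ≠ []) * G S = ∑' P : Dy, ∑ d : Fin 2 × Fin 2, G (d :: P) := by
  have hi : Function.Injective fun p : Dy × (Fin 2 × Fin 2) => p.2 :: p.1 := by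
    rintro ⟨P, d⟩ ⟨P', d'⟩ h
    simp only [List.cons.injEq] at h
    exact Prod.ext h.2 h.1
  rw [← hi.tsum_eq (f := fun S => ind (S ≠ []) * G S), ENNReal.tsum_prod']
  · refine tsum_congr fun P => ?_
    rw [tsum_fintype]
    exact Finset.sum_congr rfl fun d _ => by simp [ind]
  · intro S hS
    cases S with
    | nil => simp [ind] at hS
    | cons d P => exact ⟨(P, d), rfl⟩

theorem mem_box {z : ℂ} (hz : 0 < dmin z) : z ∈ box [] := by
  simp only [dmin, dxx, dyy, lt_min_iff] at hz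
  simp only [box, corner, side, List.length_nil, pow_zero, Complex.zero_re, Complex.zero_im,
    zero_add, mem_ofPred_eq, mem_Icc]
  refine ⟨⟨?_, ?_⟩, ?_, ?_⟩ <;> linarith [hz.1.1, hz.1.2, hz.2.1, hz.2.2]

theorem dmax_le (z : ℂ) : dmax z ≤ 1 / 2 := by
  refine max_le ?_ ?_
  · linarith [min_le_left z.re (1 - z.re), min_le_right z.re (1 - z.re),
      show dxx z = min z.re (1 - z.re) from rfl]
  · linarith [min_le_left z.im (1 - z.im), min_le_right z.im (1 - z.im),
      show dyy z = min z.im (1 - z.im) from rfl]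

theorem zS_append (hG : St_GEO1) (S B : Dy) (z : ℂ) : zS (S ++ B) z = zS B (zS S z) := by
  rw [zS, (hG.2.2.1 S B).1, hG.2.1]
  simp only [zS]
  push_cast
  ring

theorem shift_eq (hE : St_EXP2) (hG : St_GEO1) {M : Model} (hv : Gram M.eS (covE M.C0)) (z : ℂ)
    (S B : Dy) (y : HH) (hy : ⟪y, M.eS B⟫ = M.C0 + potS B (zS (S ++ B) z)) :
    ⟪y - M.eS (S ++ B), M.eS B⟫ = potS [] (zS S z) - kS [] S := by
  have h1 := hE.2.2.1 [] B (zS S z)
  have h2 := hE.2.1 S [] B
  rw [List.nil_append] at h1 h2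
  rw [inner_sub_left, hy, hv, covE, zS_append hG, h1, h2, (hE.2.2.2.2.1 S []).2]
  ring

theorem term (hG2 : St_G2) (hT3 : St_T3) (M : Model) (γ u β sb s0 : ℝ) (hβ : 0 ≤ β)
    (d : Fin 2 × Fin 2) (P : Dy) (y : HH)
    (h1 : ∀ B, B <:+ P → ⟪y - M.eS (d :: P), M.eS B⟫ ≤ sb)
    (h2 : ⟪y - M.eS (d :: P), M.eS (d :: P)⟫ = s0) :
    ∫⁻ ω, ind (Leaf (M.X γ u ω) (d :: P)) *
        eE (β * (ω y + u - QQ γ * (d :: P).length * l2)) ∂gm ≤
      eE (β ^ 2 * ‖y - M.eS (d :: P)‖ ^ 2 / 2) *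
        ∫⁻ ω, ind (IntN (M.X γ (u + β * sb) ω) P ∧
          M.X γ (u + β * sb) ω (d :: P) ≤ β * (sb - s0)) *
          eE (β * (M.X γ (u + β * sb) ω (d :: P) - β * (sb - s0))) ∂gm := by
  set q := y - M.eS (d :: P) with hq
  have hX := (hT3.2.2.2.2.2.2.2.2.2.2.1 M γ u).1
  have hf : Measurable fun ω => ind (Leaf (M.X γ u ω) (d :: P)) * eE (β * M.X γ u ω (d :: P)) :=
    (hT3.2.2.2.2.2.2.2.2.2.2.2.1 _ _ (hX (hT3.2.1 (d :: P)).2)).1.mul
      (meas_eE.comp (((measurable_pi_apply (d :: P)).comp hX).const_mul β))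
  have ht := hG2.2.1 (β • q) _ hf
  have hsh : ∀ (ω : Om) B, M.X γ u (ω + dv (β • q)) B = M.X γ u ω B + β * ⟪q, M.eS B⟫ := by
    intro ω B
    simp only [Model.X, drift, LinearMap.add_apply, dv_apply, real_inner_smul_left]
    ring
  have hx' : ∀ (ω : Om) B, M.X γ (u + β * sb) ω B = M.X γ u ω B + β * sb := by
    intro ω B
    simp only [Model.X, drift]
    ring
  calc _ = eE (β ^ 2 * ‖q‖ ^ 2 / 2) * ∫⁻ ω, ind (Leaf (M.X γ u ω) (d :: P)) *
        eE (β * M.X γ u ω (d :: P)) * eE (ω (β • q) - ‖β • q‖ ^ 2 / 2) ∂gm := by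
        rw [← lintegral_const_mul' _ _ (eE_ne_top _)]
        refine lintegral_congr fun ω => ?_
        rw [mul_assoc (ind _), mul_left_comm (eE _), ← eE_add, ← eE_add]
        congr 2
        rw [norm_smul, mul_pow, Real.norm_eq_abs, sq_abs]
        simp only [hq, Model.X, drift, map_smul, map_sub, smul_eq_mul]
        ring
    _ ≤ _ := by
        rw [← ht]
        gcongr with ω
        · refine ind_mono fun h => ⟨fun B hB => ?_, ?_⟩
          · have h3 := h.2 B (hB.trans (List.suffix_cons d P)) fun e => by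
              have := hB.length_le
              rw [e, List.length_cons] at this
              omega
            rw [hsh] at h3
            rw [hx']
            nlinarith [mul_le_mul_of_nonneg_left (h1 B hB) hβ]
          · have h3 := h.1
            rw [hsh, h2] at h3
            rw [hx']
            linarith
        · refine le_of_eq ?_
          rw [hsh, h2, hx']
          congr 1
          ring

end NRb

theorem blk_NRb (_hG1 : St_G1) (hG2 : St_G2) (hMOD : St_MOD) (hE : St_EXP2) (hG : St_GEO1)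
    (_hT1 : St_T1) (hT3 : St_T3) (hRW : St_RW1) (hR : St_R) (hN : St_NU1) (hB : St_BATH) :
    St_NRb := by
  intro γ hγ M hO hC η hη
  have hv : Gram M.eS (covE M.C0) := by
    simpa using (hMOD M).2.2.2.2.2.2.1 [] hO
  obtain ⟨u0, hu0⟩ := hB γ hγ M.C0 hC M.eS hv 1 η hη
  obtain ⟨-, -, -, -, -, -, b0, b1, -⟩ := hRW.2.2 γ hγ
  refine ⟨u0, fun u hu z hz y hy => ?_⟩
  have hzb := NRb.mem_box hz
  obtain ⟨n1, n2⟩ := hN.2 z hzb
  have hm0 : 0 ≤ dmax z := hz.le.trans min_le_max
  have hm1 := NRb.dmax_le z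
  have hs0 : 0 ≤ sb z := by unfold sb; linarith
  have hs1 : sb z ≤ 0.318 := by unfold sb; linarith
  have hz0 : zS [] z = z := by simp [zS, corner, side]
  set s0 := potS [] z - kS [] [] with hs0d
  have a1 : s0 ≤ sb z := by simpa only [hz0] using n2 []
  have a2 : sb z - s0 ≤ 1 := by linarith [hN.1]
  have hΔ : bt γ * (sb z - s0) ∈ Icc (0 : ℝ) 1 :=
    ⟨mul_nonneg b0.le (by linarith), by nlinarith⟩
  have hb := hu0 (u + bt γ * sb z) (by nlinarith [mul_nonneg b0.le hs0]) _ hΔ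
  rw [XV_eS] at hb
  set E := (vP z - 2 * (0.366 + 0.56 * dmax z) + 0.807) / 2 with hE'
  rw [NRb.sum_cons]
  calc _ ≤ ∑' P : Dy, ∑ d : Fin 2 × Fin 2, eE E *
        ∫⁻ ω, ind (IntN (M.X γ (u + bt γ * sb z) ω) P ∧
          M.X γ (u + bt γ * sb z) ω (d :: P) ≤ bt γ * (sb z - s0)) *
          eE (bt γ * (M.X γ (u + bt γ * sb z) ω (d :: P) - bt γ * (sb z - s0))) ∂gm := by
        refine ENNReal.tsum_le_tsum fun P => Finset.sum_le_sum fun d _ => ?_
        refine (NRb.term hG2 hT3 M γ u (bt γ) (sb z) s0 b0.le d P (y (d :: P)) ?_ ?_).trans ?_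
        · rintro B ⟨W, rfl⟩
          have := NRb.shift_eq hE hG hv z (d :: W) B (y (d :: (W ++ B)))
            ((hy _).1 B ⟨d :: W, rfl⟩)
          exact this.le.trans (n2 _)
        · have := NRb.shift_eq hE hG hv z [] (d :: P) (y (d :: P))
            ((hy _).1 _ (List.suffix_refl _))
          rwa [hz0] at this
        · gcongr
          refine MB.eE_mono ?_
          have h1 := (hy (d :: P)).2
          have h2 : bt γ ^ 2 ≤ 1 := by nlinarith
          have h3 := mul_le_mul_of_nonneg_right h2 (sq_nonneg ‖y (d :: P) - M.eS (d :: P)‖)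
          linarith [hN.1]
    _ = eE E * ∑' P : Dy, ∑ d : Fin 2 × Fin 2,
        ∫⁻ ω, ind (IntN (M.X γ (u + bt γ * sb z) ω) P ∧
          M.X γ (u + bt γ * sb z) ω (d :: P) ≤ bt γ * (sb z - s0)) *
          eE (bt γ * (M.X γ (u + bt γ * sb z) ω (d :: P) - bt γ * (sb z - s0))) ∂gm := by
        rw [← ENNReal.tsum_mul_left]
        exact tsum_congr fun P => (Finset.mul_sum _ _ _).symm
    _ ≤ eE E * ENNReal.ofReal (Real.exp (γ * (u + bt γ * sb z) + γ ^ 2 * M.C0 / 2) *
        (2 * cc γ one + η)) := by gcongr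
    _ ≤ _ := by
        rw [eE, ← ENNReal.ofReal_mul (Real.exp_pos _).le, ← mul_assoc]
        refine ENNReal.ofReal_le_ofReal (mul_le_mul_of_nonneg_right ?_
          (by linarith [(hR γ hγ).2.1 one]))
        rw [WW, ← hE', ← Real.exp_add, ← Real.exp_add]
        refine Real.exp_le_exp.2 ?_
        have h1 : γ * bt γ ≤ 2 := by nlinarith [hγ.1, hγ.2]
        nlinarith [mul_le_mul_of_nonneg_right h1 hs0]

end

end Pool.Agent.Lib.APPS
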