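import Pool.Agent.Lib.APPS.B_NUb

/-!
Block NU: the lateral chaos measure is atomless, charges open sets and has moments.
-/

namespace Pool.Agent.Lib.APPS

open MeasureTheory ProbabilityTheory Filter Topology Set Metric
open scoped NNReal ENNReal CompactlySupported BoundedContinuousFunction RealInnerProductSpace
  Classical

noncomputable section

namespace NU

theorem opens (hG1 : St_G1) (hCYL : St_CYL) (hBM2 : St_BM2) (hBR0 : St_BR0) (hBR : St_BR)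
    (hWLB : St_WLB) (hM0 : St_M0) {γ : ℝ} (hγ : γ ∈ Ioo (0 : ℝ) 2) (D : QD γ) :
    ∀ᵐ ω ∂D.P, ∀ U : Set Cyl, IsOpen U → U.Nonempty → D.nu ω U ≠ 0 := by
  obtain ⟨b, hb, -, hB⟩ := TopologicalSpace.exists_countable_basis Cyl
  have h1 : ∀ U ∈ b, ∀ᵐ ω ∂D.P, U.Nonempty → D.nu ω U ≠ 0 := by
    intro U hU
    by_cases hne : U.Nonempty
    · obtain ⟨w, hw⟩ := hne
      obtain ⟨g, hg1, hg0, hgc, hg⟩ := exists_continuous_one_zero_of_isCompact
        (isCompact_singleton (x := w)) (hB.isOpen hU).isClosed_compl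
        (disjoint_compl_right_iff_subset.2 (singleton_subset_iff.2 hw))
      have := posZ hG1 hCYL hBM2 hBR0 hBR hWLB hM0 hγ D ⟨g, hgc⟩ (fun w => (hg w).1)
        ⟨w, by
          have : g w = 1 := hg1 rfl
          show g w ≠ 0
          rw [this]; exact one_ne_zero⟩
      filter_upwards [this] with ω hω _ h0
      refine hω (integral_eq_zero_of_ae ?_)
      have h2 : D.muZ D.ZQ ω U = 0 := withDensity_absolutelyContinuous _ _ h0
      filter_upwards [measure_eq_zero_iff_ae_notMem.1 h2] with v hv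
      exact hg0 hv
    · exact ae_of_all _ fun ω h => absurd h hne
  filter_upwards [(ae_ball_iff hb).2 h1] with ω hω U hU hne h0
  obtain ⟨w, hw⟩ := hne
  obtain ⟨V, hV, hwV, hVU⟩ := hB.exists_subset_of_mem_open hw hU
  exact hω V hV ⟨w, hwV⟩ (measure_mono_null hVU h0)

theorem int_trans (m : Measure Cyl) [IsFiniteMeasureOnCompacts m] (f : C_c(Cyl, ℝ))
    (hf : ∀ w, 0 ≤ f w) (r : ℝ) :
    ∫⁻ w, ENNReal.ofReal (f (w.1 - r, w.2)) ∂m = ENNReal.ofReal (∫ w, f w ∂trans r m) := by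
  have hc : Continuous fun p : Cyl => ((p.1 - r, p.2) : Cyl) := by fun_prop
  rw [trans, integral_map hc.measurable.aemeasurable (map_continuous f).aestronglyMeasurable]
  refine (ofReal_int ((map_continuous f).comp hc) ?_ fun w => hf _).symm
  exact f.hasCompactSupport.comp_homeomorph
    ((Homeomorph.subRight r).prodCongr (Homeomorph.refl _))

theorem sum_fin {c : ℝ} (hc : 0 < c) : ∑' i : ℤ, eE (c - c * |(i : ℝ)|) ≠ ∞ := by
  have h0 : Summable fun n : ℕ => Real.exp (c - c * n) := by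
    refine ((summable_geometric_of_lt_one (Real.exp_pos (-c)).le
      (Real.exp_lt_one_iff.2 (by linarith))).mul_left (Real.exp c)).congr fun n => ?_
    rw [← Real.exp_nat_mul, ← Real.exp_add]
    congr 1
    ring
  have h1 : Summable fun i : ℤ => Real.exp (c - c * |(i : ℝ)|) :=
    Summable.of_nat_of_neg (by simpa using h0) (by simpa using h0)
  unfold eE
  rw [← ENNReal.ofReal_tsum_of_nonneg (fun i => (Real.exp_pos _).le) h1]
  exact ENNReal.ofReal_ne_top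

theorem growth (hG1 : St_G1) (hCYL : St_CYL) (hBM2 : St_BM2) (hBR0 : St_BR0) (hLZ2 : St_LZ2)
    (hBR : St_BR) (hWLB : St_WLB) (hM0 : St_M0) {γ : ℝ} (hγ : γ ∈ Ioo (0 : ℝ) 2) (D : QD γ) :
    ∀ᵐ ω ∂D.P, ∀ c > 0, ∫⁻ w, eE (-c * |w.1|) ∂D.nu ω ≠ ∞ := by
  have h4 : 1 < 4 / γ ^ 2 := by
    rw [one_lt_div (pow_pos hγ.1 2)]
    nlinarith [hγ.1, hγ.2]
  obtain ⟨f, hf⟩ := hCYL.2.2.2.2.2.2.2.2.2.2.2.2.2.2.1 2
  have hp := hCYL.2.2.2.2.2.2.2.2.2.2.2.2.2.2.2.2.1 2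
  have hf0 : ∀ w, 0 ≤ f w := fun w => by rw [hf]; exact (hp w).1
  obtain ⟨K, hK⟩ := mom hG1 hCYL hBM2 hBR0 hLZ2 hBR hWLB hM0 hγ D one_pos h4 f hf0
  simp only [ENNReal.rpow_one] at hK
  have hm : ∀ r : ℝ, AEMeasurable (fun ω => ENNReal.ofReal (∫ w, f w ∂trans r (D.nu ω))) D.P :=
    fun r => ((measurable_pi_apply 0).comp_aemeasurable
      (hLZ2 γ hγ D (fun _ => f) r).1).ennreal_ofReal
  have h1 : ∀ c > 0, ∀ᵐ ω ∂D.P, ∫⁻ w, eE (-c * |w.1|) ∂D.nu ω ≠ ∞ := by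
    intro c hc
    have h2 : ∫⁻ ω, ∑' i : ℤ, eE (c - c * |(i : ℝ)|) *
        ENNReal.ofReal (∫ w, f w ∂trans i (D.nu ω)) ∂D.P ≠ ∞ := by
      rw [lintegral_tsum fun i => (hm _).const_mul _]
      refine ne_top_of_le_ne_top (ENNReal.mul_ne_top (sum_fin hc)
        (ENNReal.ofReal_ne_top (r := K))) ?_
      rw [← ENNReal.tsum_mul_right]
      refine ENNReal.tsum_le_tsum fun i => ?_
      rw [lintegral_const_mul' _ _ (show eE _ ≠ ∞ from ENNReal.ofReal_ne_top)]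
      exact mul_le_mul_right (hK _) _
    filter_upwards [ae_lt_top' (AEMeasurable.tsum fun i => (hm _).const_mul _) h2] with ω hω
    refine ne_top_of_le_ne_top hω.ne ?_
    have := ((hBR0 γ hγ D).1 ω).1
    simp_rw [← int_trans (D.nu ω) f hf0,
      ← lintegral_const_mul' _ _ (show eE _ ≠ ∞ from ENNReal.ofReal_ne_top)]
    rw [← lintegral_tsum fun i => (Measurable.const_mul (Continuous.measurable
      (by fun_prop)).ennreal_ofReal _).aemeasurable]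
    refine lintegral_mono fun w => ?_
    refine le_trans ?_ (ENNReal.le_tsum ⌊w.1⌋)
    have h5 := Int.floor_le w.1
    have h6 := Int.lt_floor_add_one w.1
    have h7 : f (w.1 - (⌊w.1⌋ : ℤ), w.2) = 1 := by
      rw [hf]
      refine (hp _).2.2.1 ?_
      have := Real.log_two_gt_d9
      rw [abs_of_nonneg (by linarith), l2]
      push_cast
      linarith
    rw [h7, ENNReal.ofReal_one, mul_one]
    refine ENNReal.ofReal_le_ofReal (Real.exp_le_exp.2 ?_)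
    have h8 : |((⌊w.1⌋ : ℤ) : ℝ)| ≤ |w.1| + 1 :=
      abs_le.2 ⟨by linarith [neg_abs_le w.1], by linarith [le_abs_self w.1]⟩
    nlinarith
  filter_upwards [ae_all_iff.2 fun n : ℕ => h1 (1 / (n + 1)) (by positivity)] with ω hω c hc
  obtain ⟨n, hn⟩ := exists_nat_one_div_lt hc
  refine ne_top_of_le_ne_top (hω n) (lintegral_mono fun w => ?_)
  refine ENNReal.ofReal_le_ofReal (Real.exp_le_exp.2 ?_)
  nlinarith [abs_nonneg w.1]

theorem bump (hCYL : St_CYL) (K : ℕ) (x0 : ℂ) {r : ℝ} (hr : 0 < r) :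
    ∃ f : C_c(Cyl, ℝ), (∀ w, 0 ≤ f w ∧ f w ≤ 1) ∧
      (∀ x, x ≠ 0 → f (toCyl x) ≠ 0 → ‖x - x0‖ ≤ r ∧ ‖x‖ ≤ Real.exp (K + 1)) ∧
      ∀ w : Cyl, |w.1| ≤ K * l2 → ‖frC w - x0‖ ≤ r / 2 → f w = 1 := by
  obtain ⟨h, hh⟩ := hCYL.2.2.2.2.2.2.2.2.2.2.2.2.2.2.1 K
  have hp := hCYL.2.2.2.2.2.2.2.2.2.2.2.2.2.2.2.2.1 K
  have hc := hCYL.2.2.1
  refine ⟨⟨⟨fun w => max (min (2 - 2 * ‖frC w - x0‖ / r) 1) 0 * h w, by fun_prop⟩,
    h.hasCompactSupport.mul_left⟩, fun w => ?_, fun x hx hne => ?_, fun w h1 h2 => ?_⟩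
  · show 0 ≤ max (min (2 - 2 * ‖frC w - x0‖ / r) 1) 0 * h w ∧
      max (min (2 - 2 * ‖frC w - x0‖ / r) 1) 0 * h w ≤ 1
    rw [hh]
    exact ⟨mul_nonneg (le_max_right _ _) (hp w).1,
      mul_le_one₀ (max_le (min_le_right _ _) zero_le_one) (hp w).1 (hp w).2.1⟩
  · have h1 : max (min (2 - 2 * ‖frC (toCyl x) - x0‖ / r) 1) 0 * h (toCyl x) ≠ 0 := hne
    rw [hCYL.1 x hx, hh] at h1
    constructor
    · by_contra hc
      refine left_ne_zero_of_mul h1 (max_eq_right ((min_le_left _ _).trans ?_))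
      rw [sub_nonpos, le_div_iff₀ hr]
      linarith [not_le.1 hc]
    · have h2 := (abs_lt.1 ((hp _).2.2.2.1 (right_ne_zero_of_mul h1))).1
      have h3 : (toCyl x).1 = -Real.log ‖x‖ := rfl
      rw [h3, l2] at h2
      rw [← Real.exp_log (norm_pos_iff.2 hx)]
      have := Real.log_two_lt_d9
      have h4 : (0 : ℝ) ≤ K + 1 := by positivity
      exact Real.exp_le_exp.2 (by nlinarith)
  · show max (min (2 - 2 * ‖frC w - x0‖ / r) 1) 0 * h w = 1
    rw [hh, (hp w).2.2.1 h1, mul_one, min_eq_right, max_eq_left zero_le_one]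
    have : 2 * ‖frC w - x0‖ / r ≤ 1 := by rw [div_le_one hr]; linarith
    linarith

theorem grid {x : ℂ} {R m : ℕ} (hm : 0 < m) (hx : ‖x‖ ≤ R) :
    ∃ i ∈ Finset.Icc (-(R * m : ℤ)) (R * m) ×ˢ Finset.Icc (-(R * m : ℤ)) (R * m),
      ‖x - zc i / m‖ ≤ 4 / m / 2 := by
  have hm' : (0 : ℝ) < m := by exact_mod_cast hm
  have key : ∀ t : ℝ, |t| ≤ R → ⌊t * m⌋ ∈ Finset.Icc (-(R * m : ℤ)) (R * m) ∧
      |t - (⌊t * m⌋ : ℤ) / m| ≤ 1 / m := by
    intro t ht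
    have h1 := Int.floor_le (t * m)
    have h2 := Int.lt_floor_add_one (t * m)
    have h3 := abs_le.1 ht
    refine ⟨Finset.mem_Icc.2 ⟨Int.le_floor.2 ?_, ?_⟩, ?_⟩
    · push_cast; nlinarith
    · have : ((⌊t * m⌋ : ℤ) : ℝ) ≤ ((R * m : ℤ) : ℝ) := by push_cast; nlinarith
      exact_mod_cast this
    · have : t - (⌊t * m⌋ : ℤ) / m = (t * m - (⌊t * m⌋ : ℤ)) / m := by field_simp
      rw [this, abs_div, abs_of_pos hm']
      exact div_le_div_of_nonneg_right (abs_le.2 ⟨by linarith, by linarith⟩) hm'.le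
  obtain ⟨a1, a2⟩ := key x.re ((Complex.abs_re_le_norm x).trans hx)
  obtain ⟨b1, b2⟩ := key x.im ((Complex.abs_im_le_norm x).trans hx)
  refine ⟨(⌊x.re * m⌋, ⌊x.im * m⌋), Finset.mem_product.2 ⟨a1, b1⟩, ?_⟩
  refine (Complex.norm_le_abs_re_add_abs_im _).trans ?_
  have e1 : (x - zc (⌊x.re * m⌋, ⌊x.im * m⌋) / m).re = x.re - (⌊x.re * m⌋ : ℤ) / m := by
    simp [zc, Complex.div_natCast_re]
  have e2 : (x - zc (⌊x.re * m⌋, ⌊x.im * m⌋) / m).im = x.im - (⌊x.im * m⌋ : ℤ) / m := by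
    simp [zc, Complex.div_natCast_im]
  rw [e1, e2]
  have : 4 / (m : ℝ) / 2 = 1 / m + 1 / m := by ring
  linarith

theorem atomsZ (hG1 : St_G1) (hCYL : St_CYL) (hBM2 : St_BM2) (hBR0 : St_BR0) (hBR : St_BR)
    (hWLB : St_WLB) (hM0 : St_M0) {γ : ℝ} (hγ : γ ∈ Ioo (0 : ℝ) 2) (D : QD γ) (K : ℕ) {δ : ℝ}
    (hδ : 0 < δ) : ∀ᵐ ω ∂D.P, ∀ w : Cyl, |w.1| ≤ K * l2 →
      D.muZ D.ZQ ω {w} < ENNReal.ofReal δ := by
  have h4 : 1 < 4 / γ ^ 2 := by
    rw [one_lt_div (pow_pos hγ.1 2)]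
    nlinarith [hγ.1, hγ.2]
  obtain ⟨q, hq, hq'⟩ := exists_between h4
  have hq0 : 0 ≤ q := by linarith
  obtain ⟨C, ζ, hζ, hC⟩ := (hWLB γ hγ).1 q (Real.exp (K + 1)) hq hq'
  obtain ⟨R, hR⟩ := exists_nat_ge (Real.exp (K + 1))
  have hcd : 0 < (c0 D * δ) ^ q := Real.rpow_pos_of_pos (mul_pos (c0_pos D) hδ) q
  set S := {ω | Continuous (D.ZQ ω) ∧
    ∃ w : Cyl, |w.1| ≤ K * l2 ∧ ENNReal.ofReal δ ≤ D.muZ D.ZQ ω {w}} with hS
  have h1 : ∀ m : ℕ, 0 < m → D.P S ≤ ENNReal.ofReal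
      ((2 * R + 1) ^ 2 * |C| * 4 ^ ζ / (c0 D * δ) ^ q * (m : ℝ) ^ (-(ζ - 2))) := by
    intro m hm
    have hm' : (0 : ℝ) < m := by exact_mod_cast hm
    have hr : (0 : ℝ) < 4 / m := by positivity
    choose f hf1 hf2 hf3 using fun i : ℤ × ℤ => bump hCYL K (zc i / m) hr
    set I := Finset.Icc (-(R * m : ℤ)) (R * m) ×ˢ Finset.Icc (-(R * m : ℤ)) (R * m) with hI
    have hsub : S ⊆ ⋃ i ∈ I, {ω | ENNReal.ofReal ((c0 D * δ) ^ q) ≤
        ENNReal.ofReal (c0 D * XZ D (f i) ω) ^ q} := by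
      rintro ω ⟨hω, w, hw, hδw⟩
      have hx : ‖frC w‖ ≤ R := by
        rw [hCYL.2.2.2.2.2.1]
        refine le_trans (Real.exp_le_exp.2 ?_) hR
        have := Real.log_two_lt_d9
        have h5 := (abs_le.1 hw).1
        rw [l2] at h5
        have h6 : (0 : ℝ) ≤ K := by positivity
        nlinarith
      obtain ⟨i, hi, hxi⟩ := grid hm hx
      refine mem_biUnion hi ?_
      rw [mem_ofPred_eq, ← ENNReal.ofReal_rpow_of_nonneg (mul_pos (c0_pos D) hδ).le hq0,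
        ENNReal.ofReal_mul (c0_pos D).le, ENNReal.ofReal_mul (c0_pos D).le]
      refine ENNReal.rpow_le_rpow (mul_le_mul_right (hδw.trans ?_) _) hq0
      have := ((hBR0 γ hγ D).1 ω).1
      have : IsFiniteMeasureOnCompacts (D.muZ D.ZQ ω) := wgt_fin γ hω _
      rw [XZ, ofReal_int (map_continuous _) (f i).hasCompactSupport fun w => (hf1 i w).1,
        ← lintegral_indicator_one (measurableSet_singleton w)]
      refine lintegral_mono fun v => ?_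
      by_cases hv : v = w
      · subst hv
        simp [hf3 i v hw hxi]
      · simp [hv]
    have hb : ∀ i ∈ I, D.P {ω | ENNReal.ofReal ((c0 D * δ) ^ q) ≤
        ENNReal.ofReal (c0 D * XZ D (f i) ω) ^ q} ≤
        ENNReal.ofReal (|C| * (4 / m) ^ ζ / (c0 D * δ) ^ q) := by
      intro i _
      refine (meas_ge_le_lintegral_div (((xz_meas hBM2 hBR0 hγ D (f i)).const_mul
        _).ennreal_ofReal.pow_const q) (by simpa using hcd) ENNReal.ofReal_ne_top).trans ?_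
      rw [ENNReal.ofReal_div_of_pos hcd]
      refine ENNReal.div_le_div_right ((momZ hG1 hCYL hBM2 hBR0 hBR hM0 hγ D (f i) hq.le
        (hC _ _ (f i) hr (hf1 i) (hf2 i))).trans (ENNReal.ofReal_le_ofReal ?_)) _
      exact mul_le_mul_of_nonneg_right (le_abs_self C) (Real.rpow_nonneg hr.le _)
    refine (measure_mono hsub).trans ((measure_biUnion_finset_le _ _).trans ?_)
    refine (Finset.sum_le_card_nsmul _ _ _ hb).trans ?_
    rw [nsmul_eq_mul, ← ENNReal.ofReal_natCast, ← ENNReal.ofReal_mul (Nat.cast_nonneg _)]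
    refine ENNReal.ofReal_le_ofReal ?_
    have hcard : (I.card : ℝ) ≤ ((2 * R + 1) * m) ^ 2 := by
      have e : (R * m : ℤ) + 1 - -(R * m : ℤ) = ((2 * R * m + 1 : ℕ) : ℤ) := by push_cast; ring
      rw [hI, Finset.card_product, Int.card_Icc, e, Int.toNat_natCast]
      have h7 : (1 : ℝ) ≤ m := by exact_mod_cast hm
      have h8 : ((2 * R * m + 1 : ℕ) : ℝ) ≤ (2 * R + 1) * m := by push_cast; nlinarith
      rw [Nat.cast_mul, pow_two]
      exact mul_le_mul h8 h8 (Nat.cast_nonneg _) (by positivity)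
    refine (mul_le_mul_of_nonneg_right hcard (by positivity)).trans (le_of_eq ?_)
    rw [Real.div_rpow (by norm_num) hm'.le, neg_sub, Real.rpow_sub hm', Real.rpow_two]
    ring
  have h2 : D.P S = 0 := by
    have h3 : Tendsto (fun m : ℕ => ENNReal.ofReal ((2 * R + 1) ^ 2 * |C| * 4 ^ ζ /
        (c0 D * δ) ^ q * (m : ℝ) ^ (-(ζ - 2)))) atTop (𝓝 0) := by
      rw [← ENNReal.ofReal_zero]
      refine ENNReal.tendsto_ofReal ?_
      simpa using ((tendsto_rpow_neg_atTop (by linarith : 0 < ζ - 2)).comp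
        tendsto_natCast_atTop_atTop).const_mul
          ((2 * R + 1) ^ 2 * |C| * 4 ^ ζ / (c0 D * δ) ^ q)
    exact le_antisymm (ge_of_tendsto h3 (eventually_atTop.2 ⟨1, fun m hm => h1 m hm⟩)) zero_le
  filter_upwards [measure_eq_zero_iff_ae_notMem.1 h2, (zq_meas hBM2 D).2] with ω hω hc w hw
  exact not_le.1 fun h => hω ⟨hc, w, hw, h⟩

theorem atoms (hG1 : St_G1) (hCYL : St_CYL) (hBM2 : St_BM2) (hBR0 : St_BR0) (hBR : St_BR)
    (hWLB : St_WLB) (hM0 : St_M0) {γ : ℝ} (hγ : γ ∈ Ioo (0 : ℝ) 2) (D : QD γ) :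
    ∀ᵐ ω ∂D.P, ∀ w : Cyl, D.nu ω {w} = 0 := by
  filter_upwards [ae_all_iff.2 fun K : ℕ => ae_all_iff.2 fun n : ℕ =>
    atomsZ hG1 hCYL hBM2 hBR0 hBR hWLB hM0 hγ D K (δ := 1 / (n + 1)) (by positivity),
    (zq_meas hBM2 D).2] with ω hω hc w
  have hl : 0 < l2 := Real.log_pos one_lt_two
  obtain ⟨K, hK⟩ := exists_nat_ge (|w.1| / l2)
  rw [div_le_iff₀ hl] at hK
  have h1 : D.muZ D.ZQ ω {w} = 0 := by
    have h3 : Tendsto (fun n : ℕ => ENNReal.ofReal (1 / ((n : ℝ) + 1))) atTop (𝓝 0) := by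
      rw [← ENNReal.ofReal_zero]
      exact ENNReal.tendsto_ofReal tendsto_one_div_add_atTop_nhds_zero_nat
    exact le_antisymm (ge_of_tendsto' h3 fun n => (hω K n w hK).le) zero_le
  have h2 := (withDensity_apply_eq_zero (dens_meas γ hc)).1 h1
  refine measure_mono_null (fun v hv => mem_inter ?_ hv) h2
  simpa [eE] using Real.exp_pos _

end NU

theorem blk_NU (hG1 : St_G1) (hCYL : St_CYL) (_hBMX : St_BMX) (hBM2 : St_BM2) (hBR0 : St_BR0)
    (hLZ2 : St_LZ2) (hBR : St_BR) (hWLB : St_WLB) (hM0 : St_M0) : St_NU := by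
  intro γ hγ D
  refine ⟨?_, fun q hq hq' f hf => NU.mom hG1 hCYL hBM2 hBR0 hLZ2 hBR hWLB hM0 hγ D hq hq' f hf⟩
  filter_upwards [NU.atoms hG1 hCYL hBM2 hBR0 hBR hWLB hM0 hγ D,
    NU.opens hG1 hCYL hBM2 hBR0 hBR hWLB hM0 hγ D,
    NU.growth hG1 hCYL hBM2 hBR0 hLZ2 hBR hWLB hM0 hγ D] with ω h1 h2 h3
  exact ⟨h1, h2, h3⟩

end

end Pool.Agent.Lib.APPS
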