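import Pool.Agent.Lib.APPS.Blue5

/-!
Block NU1: explicit bounds for the logarithmic potential of the unit square.
-/

namespace Pool.Agent.Lib.APPS

open MeasureTheory ProbabilityTheory Filter Topology Set Metric
open scoped NNReal ENNReal Classical

noncomputable section

namespace NU1

/-- concave, symmetric about one half, with a small initial increment -/
def Good (g : ℝ → ℝ) : Prop :=
  ConcaveOn ℝ (Icc 0 1) g ∧ (∀ x, g (1 - x) = g x) ∧ g (1 / 4) - g 0 ≤ 0.316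

/-- an interval inside one half of the unit interval -/
def Hf (p h : ℝ) : Prop := (0 ≤ p ∧ p + h ≤ 1 / 2) ∨ (1 / 2 ≤ p ∧ p + h ≤ 1)

theorem cc {s : Set ℝ} {f : ℝ → ℝ} (hf : ConcaveOn ℝ s f) {x y : ℝ} (hx : x ∈ s) (hy : y ∈ s)
    (u v : ℝ) (hu : 0 ≤ u) (hv : 0 ≤ v) (h : u + v = 1) :
    u * f x + v * f y ≤ f (u * x + v * y) := hf.2 hx hy hu hv h

theorem Good.mono {g : ℝ → ℝ} (hg : Good g) : MonotoneOn g (Icc 0 (1 / 2)) := by
  intro a ha b hb hab
  rcases hab.eq_or_lt with h | h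
  · rw [h]
  have h1 : 0 < 1 - 2 * a := by linarith [hb.2]
  have e1 : (1 - a - b) / (1 - 2 * a) + (b - a) / (1 - 2 * a) = 1 := by
    rw [← add_div, div_eq_one_iff_eq h1.ne']
    ring
  have e2 : (1 - a - b) / (1 - 2 * a) * a + (b - a) / (1 - 2 * a) * (1 - a) = b := by
    rw [div_mul_eq_mul_div, div_mul_eq_mul_div, ← add_div, div_eq_iff h1.ne']
    ring
  have := cc hg.1 (x := a) (y := 1 - a) ⟨ha.1, by linarith [ha.2]⟩
    ⟨by linarith [ha.2], by linarith [ha.1]⟩ _ _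
    (div_nonneg (by linarith [hb.2]) h1.le) (div_nonneg (by linarith) h1.le) e1
  rw [hg.2.1, ← add_mul] at this
  rwa [e1, e2, one_mul] at this

theorem Good.int {g : ℝ → ℝ} (hg : Good g) {a b : ℝ} (ha : a ∈ Icc (0 : ℝ) 1)
    (hb : b ∈ Icc (0 : ℝ) 1) : IntervalIntegrable g volume a b := by
  have h1 : IntervalIntegrable g volume 0 (1 / 2) :=
    MonotoneOn.intervalIntegrable (by rw [uIcc_of_le (by norm_num)]; exact hg.mono)
  have h2 := h1.comp_sub_left 1
  simp only [hg.2.1] at h2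
  norm_num at h2
  refine (h1.trans (by simpa using h2.symm)).mono_set ?_
  rw [uIcc_of_le zero_le_one]
  exact uIcc_subset_Icc ha hb

theorem cc_add {g : ℝ → ℝ} (hg : ConcaveOn ℝ (Icc 0 1) g) {a b t : ℝ} (ha : a ∈ Icc (0 : ℝ) 1)
    (hb : b ∈ Icc (0 : ℝ) 1) (ht : t ∈ Icc a b) : g a + g b ≤ g t + g (a + b - t) := by
  rcases (ht.1.trans ht.2).eq_or_lt with h | h
  · have : t = a := le_antisymm (h ▸ ht.2) ht.1
    rw [this, ← h]
    simp
  have h1 : 0 < b - a := by linarith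
  have k1 := div_nonneg (sub_nonneg.2 ht.2) h1.le
  have k2 := div_nonneg (sub_nonneg.2 ht.1) h1.le
  have e1 : (b - t) / (b - a) + (t - a) / (b - a) = 1 := by field_simp; ring
  have j1 := hg.2 ha hb k1 k2 e1
  have j2 := hg.2 ha hb k2 k1 (by rw [add_comm, e1])
  simp only [smul_eq_mul] at j1 j2
  have e2 : (b - t) / (b - a) * a + (t - a) / (b - a) * b = t := by field_simp; ring
  have e3 : (t - a) / (b - a) * a + (b - t) / (b - a) * b = a + b - t := by field_simp; ring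
  rw [e2] at j1
  rw [e3] at j2
  have e4 : g a + g b = ((b - t) / (b - a) + (t - a) / (b - a)) * (g a + g b) := by
    rw [e1, one_mul]
  linarith

theorem one_left {g : ℝ → ℝ} (hg : Good g) {p h ξ : ℝ} (h0 : 0 < h) (h1 : h ≤ 1 / 4)
    (hp : 0 ≤ p) (hq : p + h ≤ 1 / 2) (hξ : ξ ∈ Icc (0 : ℝ) 1) :
    g (p + h * ξ) - h⁻¹ * ∫ t in p..(p + h), g t ≤ 0.158 * ξ := by
  set x := p + h * ξ with hx
  have a1 : p ≤ x := by nlinarith [hξ.1]
  have a2 : x ≤ p + h := by nlinarith [hξ.2]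
  have mp : p ∈ Icc (0 : ℝ) 1 := ⟨hp, by linarith⟩
  have mx : x ∈ Icc (0 : ℝ) 1 := ⟨by linarith, by linarith⟩
  have mq : p + h ∈ Icc (0 : ℝ) 1 := ⟨by linarith, by linarith⟩
  have i1 := hg.int mp mx
  have b1 : (x - p) * (g p + g x) ≤ 2 * ∫ t in p..x, g t := by
    have i2 := (i1.comp_sub_left (p + x)).symm
    have e := intervalIntegral.integral_comp_sub_left (a := p) (b := x) g (p + x)
    simp only [add_sub_cancel_left, add_sub_cancel_right] at i2 e
    have := intervalIntegral.integral_mono_on a1 (intervalIntegrable_const (c := g p + g x))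
      (i1.add i2) fun t ht => cc_add hg.1 mp mx ht
    rw [intervalIntegral.integral_add i1 i2, e, intervalIntegral.integral_const,
      smul_eq_mul] at this
    linarith
  have b2 : (p + h - x) * g x ≤ ∫ t in x..(p + h), g t := by
    have := intervalIntegral.integral_mono_on a2 (intervalIntegrable_const (c := g x))
      (hg.int mx mq) fun t ht =>
        hg.mono ⟨mx.1, by linarith⟩ ⟨mx.1.trans ht.1, ht.2.trans hq⟩ ht.1
    rwa [intervalIntegral.integral_const, smul_eq_mul] at this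
  have b3 : g x - g p ≤ 0.316 := by
    have c1 := cc_add hg.1 (a := 0) (t := p) ⟨le_rfl, zero_le_one⟩ mx ⟨hp, a1⟩
    have c2 := hg.mono (a := 0 + x - p) (b := 1 / 4) ⟨by linarith, by linarith⟩
      ⟨by norm_num, by norm_num⟩ (by linarith)
    linarith [hg.2.2]
  rw [← intervalIntegral.integral_add_adjacent_intervals i1 (hg.int mx mq), sub_le_comm,
    le_inv_mul_iff₀ h0]
  have e1 : x - p = h * ξ := by rw [hx]; ring
  have e2 : p + h - x = h - h * ξ := by rw [hx]; ring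
  rw [e1] at b1
  rw [e2] at b2
  nlinarith [mul_nonneg h0.le hξ.1]

theorem one_d {g : ℝ → ℝ} (hg : Good g) {p h ξ : ℝ} (h0 : 0 < h) (h1 : h ≤ 1 / 4)
    (hp : Hf p h) (hξ : ξ ∈ Icc (0 : ℝ) 1) :
    g (p + h * ξ) - h⁻¹ * ∫ t in p..(p + h), g t ≤ 0.158 * (1 - min ξ (1 - ξ)) := by
  rcases hp with hp | hp
  · linarith [one_left hg h0 h1 hp.1 hp.2 hξ, min_le_right ξ (1 - ξ)]
  · have := one_left hg h0 h1 (p := 1 - (p + h)) (ξ := 1 - ξ) (by linarith) (by linarith)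
      ⟨by linarith [hξ.2], by linarith [hξ.1]⟩
    have e := intervalIntegral.integral_comp_sub_left (a := p) (b := p + h) g 1
    simp only [hg.2.1] at e
    rw [show 1 - (p + h) + h * (1 - ξ) = 1 - (p + h * ξ) by ring, hg.2.1,
      show 1 - (p + h) + h = 1 - p by ring, ← e] at this
    linarith [min_le_left ξ (1 - ξ)]

theorem Hf.mem {p h : ℝ} (hp : Hf p h) (h0 : 0 < h) :
    p ∈ Icc (0 : ℝ) 1 ∧ p + h ∈ Icc (0 : ℝ) 1 := by
  rcases hp with hp | hp <;> refine ⟨⟨?_, ?_⟩, ?_, ?_⟩ <;> linarith [hp.1, hp.2]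

theorem corner_re (d : Fin 2 × Fin 2) (S : Dy) :
    (corner (d :: S)).re = (corner S).re + side S / 2 * (d.1 : ℕ) ∧
      (corner (d :: S)).im = (corner S).im + side S / 2 * (d.2 : ℕ) ∧
      side (d :: S) = side S / 2 := by
  have e : side (d :: S) = side S / 2 := by
    simp only [side, List.length_cons, pow_succ]
    ring
  refine ⟨?_, ?_, e⟩ <;> simp [corner, ← e]

theorem fin01 (a : Fin 2) : ((a : ℕ) : ℝ) = 0 ∨ ((a : ℕ) : ℝ) = 1 := by
  fin_cases a <;> simp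

theorem half : ∀ (S : Dy) (d : Fin 2 × Fin 2),
    Hf (corner (d :: S)).re (side (d :: S)) ∧ Hf (corner (d :: S)).im (side (d :: S))
  | [], d => by
    obtain ⟨e1, e2, e3⟩ := corner_re d []
    rw [e1, e2, e3]
    simp only [corner, side, Hf]
    constructor
    · rcases fin01 d.1 with h | h <;> rw [h] <;> norm_num
    · rcases fin01 d.2 with h | h <;> rw [h] <;> norm_num
  | d' :: S, d => by
    obtain ⟨e1, e2, e3⟩ := corner_re d (d' :: S)
    obtain ⟨k1, k2⟩ := half S d'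
    have hs : 0 < side (d' :: S) := by unfold side; positivity
    rw [e1, e2, e3]
    constructor
    · rcases fin01 d.1 with h | h <;> rw [h] <;>
        exact k1.imp (fun k => ⟨by linarith [k.1], by linarith [k.2]⟩)
          fun k => ⟨by linarith [k.1], by linarith [k.2]⟩
    · rcases fin01 d.2 with h | h <;> rw [h] <;>
        exact k2.imp (fun k => ⟨by linarith [k.1], by linarith [k.2]⟩)
          fun k => ⟨by linarith [k.1], by linarith [k.2]⟩

theorem U2_comm (h1 : St_NF1) {x y : ℝ} (hx : x ∈ Icc (0 : ℝ) 1) (hy : y ∈ Icc (0 : ℝ) 1) :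
    U2 x y = U2 y x := by
  have hx' := sub_nonneg.2 hx.2
  have hy' := sub_nonneg.2 hy.2
  unfold U2
  rw [h1.2.1 x y hx.1 hy.1, h1.2.1 _ y hx' hy.1, h1.2.1 x _ hx.1 hy', h1.2.1 _ _ hx' hy']
  ring

theorem mid {f : ℝ → ℝ} (hf : ConcaveOn ℝ (Ici 0) f) {y : ℝ} (hy : y ∈ Icc (0 : ℝ) 1) :
    f y + f (1 - y) ≤ 2 * f (1 / 2) := by
  have := cc hf (x := y) (y := 1 - y) hy.1 (sub_nonneg.2 hy.2) (1 / 2) (1 / 2)
    (by norm_num) (by norm_num) (by norm_num)
  rw [show 1 / 2 * y + 1 / 2 * (1 - y) = 1 / 2 by ring] at this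
  linarith

theorem good1 (h1 : St_NF1) (h2 : St_NF2) {y : ℝ} (hy : y ∈ Icc (0 : ℝ) 1) :
    Good fun x => U2 x y := by
  refine ⟨⟨convex_Icc _ _, fun a ha b hb s t hs ht hst => ?_⟩, fun x => ?_, ?_⟩
  · have k := fun y hy => (h1.2.2.2.1 y hy).2 ha.1 hb.1 hs ht hst
    have k' := fun y hy => (h1.2.2.2.1 y hy).2 (x := 1 - a) (y := 1 - b) (sub_nonneg.2 ha.2)
      (sub_nonneg.2 hb.2) hs ht hst
    simp only [smul_eq_mul, U2] at k k' ⊢
    rw [show s * (1 - a) + t * (1 - b) = 1 - (s * a + t * b) by linear_combination hst] at k'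
    linarith [k y hy.1, k' y hy.1, k _ (sub_nonneg.2 hy.2), k' _ (sub_nonneg.2 hy.2)]
  · simp only [U2, sub_sub_cancel]
    ring
  · have := mid h1.2.2.2.2.1 hy
    simp only [U2, h1.2.2.1, sub_zero, show (1 : ℝ) - 1 / 4 = 3 / 4 by norm_num]
    linarith [h2.2.2.2]

theorem good2 (h1 : St_NF1) (h2 : St_NF2) {x : ℝ} (hx : x ∈ Icc (0 : ℝ) 1) :
    Good fun y => U2 x y := by
  have g := good1 h1 h2 hx
  refine ⟨g.1.congr fun y hy => U2_comm h1 hy hx, fun y => ?_, ?_⟩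
  · simp only [U2, sub_sub_cancel]
    ring
  · have := g.2.2
    simp only at this ⊢
    rwa [U2_comm h1 hx ⟨by norm_num, by norm_num⟩, U2_comm h1 hx ⟨le_rfl, zero_le_one⟩]

theorem good3 (h1 : St_NF1) (h2 : St_NF2) {q h : ℝ} (h0 : 0 < h) (hq : Hf q h) :
    Good fun x => h⁻¹ * ∫ y in q..(q + h), U2 x y := by
  obtain ⟨m1, m2⟩ := hq.mem h0
  have hi := fun x hx => (good2 h1 h2 (x := x) hx).int m1 m2
  have hm : ∀ y ∈ Icc q (q + h), y ∈ Icc (0 : ℝ) 1 := fun y hy =>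
    ⟨m1.1.trans hy.1, hy.2.trans m2.2⟩
  refine ⟨⟨convex_Icc _ _, fun a ha b hb s t hs ht hst => ?_⟩, fun x => ?_, ?_⟩
  · have := intervalIntegral.integral_mono_on (by linarith : q ≤ q + h)
      (((hi a ha).const_mul s).add ((hi b hb).const_mul t))
      (hi _ (convex_Icc _ _ ha hb hs ht hst)) fun y hy =>
        (good1 h1 h2 (hm y hy)).1.2 ha hb hs ht hst
    rw [intervalIntegral.integral_add ((hi a ha).const_mul s) ((hi b hb).const_mul t),
      intervalIntegral.integral_const_mul, intervalIntegral.integral_const_mul] at this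
    simp only [smul_eq_mul] at this ⊢
    nlinarith [inv_pos.2 h0]
  · have : ∀ y, U2 (1 - x) y = U2 x y := fun y => by
      simp only [U2, sub_sub_cancel]
      ring
    simp only [this]
  · have i1 := hi (1 / 4) ⟨by norm_num, by norm_num⟩
    have i2 := hi 0 ⟨le_rfl, zero_le_one⟩
    have := intervalIntegral.integral_mono_on (by linarith : q ≤ q + h) (i1.sub i2)
      (intervalIntegrable_const (c := (0.316 : ℝ))) fun y hy => (good1 h1 h2 (hm y hy)).2.2
    rw [intervalIntegral.integral_sub i1 i2, intervalIntegral.integral_const, smul_eq_mul,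
      add_sub_cancel_left] at this
    simp only
    rwa [← mul_sub, inv_mul_le_iff₀ h0]

theorem lower (h1 : St_NF1) (h2 : St_NF2) {x y : ℝ} (hx : x ∈ Icc (0 : ℝ) 1)
    (hy : y ∈ Icc (0 : ℝ) 1) : 0.366 + 0.56 * min x (1 - x) ≤ U2 x y := by
  have g := good2 h1 h2 hx
  have k1 := g.1.2 (x := 0) (y := 1) ⟨le_rfl, zero_le_one⟩ ⟨zero_le_one, le_rfl⟩
    (sub_nonneg.2 hy.2) hy.1 (by ring)
  have k2 := g.2.1 0
  simp only [smul_eq_mul, sub_zero, mul_zero, zero_add, mul_one] at k1 k2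
  have k3 : ∀ a ∈ Icc (0 : ℝ) (1 / 2), 0.366 + 0.56 * a ≤ U2 a 0 := by
    intro a ha
    have j := cc (good1 h1 h2 (y := 0) ⟨le_rfl, zero_le_one⟩).1 (x := 0) (y := 1 / 2)
      ⟨le_rfl, zero_le_one⟩ ⟨by norm_num, by norm_num⟩ (1 - 2 * a) (2 * a)
      (by linarith [ha.2]) (by linarith [ha.1]) (by ring)
    have z1 : ∀ b, 0 ≤ b → FF b 0 = 0 := fun b hb => by rw [h1.2.1 b 0 hb le_rfl, h1.2.2.1]
    rw [show (1 - 2 * a) * 0 + 2 * a * (1 / 2) = a by ring] at j
    have e1 : U2 0 0 = FF 1 1 := by simp [U2, h1.2.2.1, z1]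
    have e2 : U2 (1 / 2) 0 = 2 * FF (1 / 2) 1 := by
      rw [U2, show (1 : ℝ) - 1 / 2 = 1 / 2 by norm_num, sub_zero, z1 _ (by norm_num)]
      ring
    rw [e1, e2] at j
    nlinarith [h2.1, h2.2.1, ha.1, ha.2]
  have k4 : 0.366 + 0.56 * min x (1 - x) ≤ U2 x 0 := by
    rcases le_total x (1 - x) with h | h
    · rw [min_eq_left h]
      exact k3 x ⟨hx.1, by linarith⟩
    · rw [min_eq_right h]
      exact (k3 _ ⟨sub_nonneg.2 hx.2, by linarith⟩).trans_eq
        ((good1 h1 h2 (y := 0) ⟨le_rfl, zero_le_one⟩).2.1 x)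
  rw [k2] at k1
  linarith

theorem upper (h1 : St_NF1) (h2 : St_NF2) {x y : ℝ} (hx : x ∈ Icc (0 : ℝ) 1)
    (hy : y ∈ Icc (0 : ℝ) 1) : U2 x y ≤ 1.063 := by
  have k1 := mid (h1.2.2.2.1 y hy.1) hx
  have k2 := mid (h1.2.2.2.1 _ (sub_nonneg.2 hy.2)) hx
  have k3 := mid (h1.2.2.2.1 (1 / 2) (by norm_num)) hy
  rw [h1.2.1 y _ hy.1 (by norm_num), h1.2.1 (1 - y) _ (sub_nonneg.2 hy.2) (by norm_num)] at k3
  unfold U2
  linarith [h2.2.2.1]

end NU1

open NU1 in
theorem blk_NU1 (hGEO1 : St_GEO1) (hNF1 : St_NF1) (hNF2 : St_NF2) (hNF3 : St_NF3)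
    (hNP1 : St_NP1) : St_NU1 := by
  have hb : ∀ z ∈ box [], z.re ∈ Icc (0 : ℝ) 1 ∧ z.im ∈ Icc (0 : ℝ) 1 := fun z hz => by
    simpa [box, corner, side] using hz
  refine ⟨hNP1.2.2.1 ▸ hNF3.2, fun z hz => ⟨?_, fun S => ?_⟩⟩
  · obtain ⟨hx, hy⟩ := hb z hz
    rw [hNP1.1 z hz, dmax]
    rcases max_choice (dxx z) (dyy z) with h | h <;> rw [h]
    · exact lower hNF1 hNF2 hx hy
    · rw [U2_comm hNF1 hx hy]
      exact lower hNF1 hNF2 hy hx
  · obtain ⟨hx, hy⟩ := hb z hz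
    have hw : zS S z ∈ box [] := by
      have := (hGEO1.2.2.1 [] S).2.2
      rw [List.nil_append] at this
      exact (hGEO1.2.2.2.2.1 S []).2 List.nil_suffix (this ▸ mem_image_of_mem _ hz)
    obtain ⟨hx', hy'⟩ := hb _ hw
    have d1 : 0 ≤ dxx z ∧ dxx z ≤ 1 / 2 := ⟨le_min hx.1 (sub_nonneg.2 hx.2), by
      linarith [min_le_left z.re (1 - z.re), min_le_right z.re (1 - z.re), dxx.eq_1 z]⟩
    have d2 : 0 ≤ dyy z ∧ dyy z ≤ 1 / 2 := ⟨le_min hy.1 (sub_nonneg.2 hy.2), by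
      linarith [min_le_left z.im (1 - z.im), min_le_right z.im (1 - z.im), dyy.eq_1 z]⟩
    have d3 : dmax z ≤ 1 / 2 := max_le d1.2 d2.2
    have d4 : dmax z ≤ dxx z + dyy z := max_le (by linarith [d2.1]) (by linarith [d1.1])
    have k0 := upper hNF1 hNF2 hx' hy'
    have k1 := hNF3.1
    rw [← hNP1.2.2.1] at k1
    rw [hNP1.1 _ hw, sb]
    match S with
    | [] => linarith
    | [d] => linarith [hNP1.2.2.2 d]
    | d :: d' :: S =>
      obtain ⟨f1, f2⟩ := half (d' :: S) d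
      have hs := (hGEO1.1 (d :: d' :: S)).1
      have hs4 : side (d :: d' :: S) ≤ 1 / 4 := by
        rw [(corner_re _ _).2.2, (corner_re _ _).2.2]
        linarith [(hGEO1.1 S).2]
      have j1 := one_d (good2 hNF1 hNF2 hx') hs hs4 f2 hy
      have j2 := one_d (good3 hNF1 hNF2 hs f2) hs hs4 f1 hx
      rw [intervalIntegral.integral_const_mul, ← mul_assoc, ← mul_inv, ← pow_two, ← hNP1.2.1] at j2
      simp only [zS, Complex.add_re, Complex.add_im, Complex.re_ofReal_mul,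
        Complex.im_ofReal_mul] at j1 ⊢
      linarith [dxx.eq_1 z, dyy.eq_1 z, d1.1, d2.1]

end

end Pool.Agent.Lib.APPS
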