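import Pool.Agent.Lib.APPS.B_NUMa

/-!
Block NUM: the explicit bound on the volume constant.
-/

namespace Pool.Agent.Lib.APPS

open MeasureTheory ProbabilityTheory Filter Topology Set Metric
open scoped NNReal ENNReal RealInnerProductSpace Classical

noncomputable section

namespace NUM

def gz (γ Mx : ℝ) (A S : Dy) (τ : Finset Dy) (x : Dy → ℝ) (z : ℂ) : ℝ :=
  min Mx (Real.exp (bt γ * (kloc (QQ γ) τ (sub x A) (zS S z) - QQ γ * S.length * l2)))

def TT (γ : ℝ) (K D : ℕ) (Mx : ℝ) (A S : Dy) (τ : Finset Dy) (x : Dy → ℝ) (z : ℂ) : ℝ≥0∞ :=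
  ind (IsTr τ ∧ Good K D τ S) * (ind (Ev A τ x) * ENNReal.ofReal (gz γ Mx A S τ x z))

def HS (γ : ℝ) (K D : ℕ) (Mx : ℝ) (x : Dy → ℝ) (z : ℂ) : ℝ≥0∞ :=
  ∑' A : Dy, ∑ S ∈ lev (3 * K), ∑' τ : Finset Dy, TT γ K D Mx A S τ x z

theorem meas_TT (h0 : St_SCR0) (hT3 : St_T3) (γ : ℝ) (K D : ℕ) (Mx : ℝ) (A S : Dy)
    (τ : Finset Dy) : Measurable fun p : (Dy → ℝ) × ℂ => TT γ K D Mx A S τ p.1 p.2 := by
  by_cases h : IsTr τ ∧ Good K D τ S
  · refine Measurable.const_mul (Measurable.mul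
      ((meas_ind (ev_meas hT3 A τ)).comp measurable_fst) (Measurable.ennreal_ofReal ?_)) _
    refine measurable_const.min (Measurable.exp (Measurable.const_mul
      (Measurable.sub_const ?_ _) _))
    refine Finset.measurable_sum _ fun B _ => Measurable.mul ?_ ?_
    · have hz : Continuous (zS S) := by unfold zS; fun_prop
      exact (((h0 τ h.1).2.2 B).comp hz).measurable.comp measurable_snd
    · exact ((measurable_pi_apply _).comp measurable_fst).add_const _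
  · simp only [TT, ind_neg h, zero_mul]
    exact measurable_const

theorem meas_HS (h0 : St_SCR0) (hT3 : St_T3) (γ : ℝ) (K D : ℕ) (Mx : ℝ) :
    Measurable fun p : (Dy → ℝ) × ℂ => HS γ K D Mx p.1 p.2 :=
  Measurable.tsum fun A => Finset.measurable_sum _ fun S _ =>
    Measurable.tsum fun τ => meas_TT h0 hT3 γ K D Mx A S τ

theorem meas_HS2 (h0 : St_SCR0) (hT3 : St_T3) (γ : ℝ) (K D : ℕ) (Mx : ℝ) (X : Om → Dy → ℝ)
    (hX : Measurable X) : Measurable fun p : Om × ℂ => HS γ K D Mx (X p.1) p.2 := by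
  have h1 : Measurable fun p : Om × ℂ => (X p.1, p.2) :=
    (hX.comp measurable_fst).prodMk measurable_snd
  have h2 := (meas_HS h0 hT3 γ K D Mx).comp h1
  simpa only [Function.comp_def] using h2

theorem ofReal_sum_le {ι : Type} (s : Finset ι) (f : ι → ℝ) :
    ENNReal.ofReal (∑ i ∈ s, f i) ≤ ∑ i ∈ s, ENNReal.ofReal (f i) := by
  induction s using Finset.induction_on with
  | empty => simp
  | insert a s ha ih =>
    rw [Finset.sum_insert ha, Finset.sum_insert ha]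
    exact ENNReal.ofReal_add_le.trans (add_le_add le_rfl ih)

theorem point (h0 : St_SCR0) (hT1 : St_T1) (hT3 : St_T3) (γ : ℝ) (K D : ℕ) {Mx : ℝ}
    (hMx : 0 < Mx) (d0 : ℝ) (x : Dy → ℝ) :
    ENNReal.ofReal (SR (Fv γ K D Mx d0) x []) ≤ ∫⁻ z in sq d0, HS γ K D Mx x z := by
  have hm : ∀ A S τ, Measurable fun z => TT γ K D Mx A S τ x z := fun A S τ =>
    (meas_TT h0 hT3 γ K D Mx A S τ).comp measurable_prodMk_left
  have hm2 : ∀ A S, Measurable fun z => ∑' τ, TT γ K D Mx A S τ x z := fun A S =>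
    Measurable.tsum fun τ => hm A S τ
  obtain ⟨-, -, -, -, -, -, -, -, -, -, -, -, t1, t2, t3, -, -, t4, -⟩ := id hT1
  by_cases hx : nB x = ∞
  · simp [SR, t2 x hx]
  unfold HS SR
  rw [lintegral_tsum fun A => (Finset.measurable_sum _ fun S _ => hm2 A S).aemeasurable]
  refine le_trans ?_ (ENNReal.sum_le_tsum ((tr x).filter fun A => [] <:+ A))
  refine (ofReal_sum_le _ _).trans (Finset.sum_le_sum fun A hA => ?_)
  have hI : IntN x A := (t1 x hx A).1 (Finset.mem_filter.1 hA).1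
  have hE : Ev A (tr (sub x A)) x := ⟨hI, t1 _ (ne_top_of_le_ne_top hx (t4 x A hI))⟩
  rw [lintegral_finsetSum _ fun S _ => hm2 A S]
  refine (ofReal_sum_le _ _).trans (Finset.sum_le_sum fun S _ => ?_)
  by_cases hg : Good K D (tr (sub x A)) S
  · refine le_trans ?_ (lintegral_mono fun z => ENNReal.le_tsum (tr (sub x A)))
    simp only [TT, ind_pos hE, ind_pos (And.intro (t3 _) hg), one_mul, indR, if_pos hg]
    refine (Real.ofReal_le_enorm _).trans ((enorm_integral_le_lintegral_enorm _).trans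
      (lintegral_mono fun z => ?_))
    exact (Real.enorm_eq_ofReal (le_min hMx.le (Real.exp_pos _).le)).le
  · simp [indR, hg]

theorem dmin_pos {d : ℝ} (hd : 0 < d) {z : ℂ} (hz : z ∈ sq d) : 0 < dmin z := by
  obtain ⟨⟨a1, a2⟩, a3, a4⟩ := hz
  exact lt_min (lt_min (by linarith) (by linarith)) (lt_min (by linarith) (by linarith))

theorem fixed (hG4 : St_G4) (hMOD : St_MOD) (hYV : St_YV) (hFE : St_FE) (hG : St_GEO1)
    (hT1 : St_T1) (hT3 : St_T3) (h0 : St_SCR0) (hPRD : St_PRD) {γ : ℝ} (b0 : 0 < bt γ)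
    (b1 : bt γ < 1) (M : Model) (hO : closedBall (ctr []) 3 ⊆ M.O) (hO' : box [] ⊆ M.O)
    {K D : ℕ} (hK : 1 ≤ K) {Mx d δ u : ℝ} (hMx : 0 < Mx) (hd : 0 < d) {z : ℂ} (hz : z ∈ sq d)
    (R1 R2 : ℝ≥0∞)
    (hS : ∀ τ S A, IsTr τ → Good K D τ S → ∃ φ, LipC φ ∧ tsupport φ ⊆ interior (box A) ∧
      (∀ B ∈ lvs τ, ∫ x, φ x ∂unif (B ++ A) = 0) ∧
      (∃ ν' : ℝ, ∀ B ∈ lvs τ, ⟪M.Yv (zS (S ++ A) z) (d * side (S ++ A)) -
        ∑ B' : lvs τ, lamL τ (zS S z) B' • M.eS (B' ++ A), M.eS (B ++ A)⟫ = ν') ∧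
      ‖M.Yv (zS (S ++ A) z) (d * side (S ++ A)) -
        ∑ B : lvs τ, lamL τ (zS S z) B • M.eS (B ++ A) - gr φ‖ ≤ δ)
    (hb : ∀ y : Dy → HH, (∀ S, (∀ B, B <:+ S → ⟪y S, M.eS B⟫ = M.C0 + potS B (zS S z)) ∧
        ‖y S - M.eS S‖ ^ 2 = vP z - 2 * potS [] z + kS [] []) →
      ∑' S : Dy, ind (S ≠ []) * ∫⁻ ω, ind (Leaf (M.X γ u ω) S) *
        eE (bt γ * (ω (y S) + u - QQ γ * S.length * l2)) ∂gm ≤ R1)
    (ha : ∀ ε : Finset Dy → Dy → Dy → HH,
      (∀ τ S A, IsTr τ → Good K D τ S → S ∈ lvs τ ∧ ‖ε τ S A‖ ≤ δ ∧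
        ⟪ε τ S A, M.eC (ctr A) (2 * side A)⟫ = 0 ∧
        ∃ ν' : ℝ, ∀ B ∈ lvs τ, ⟪ε τ S A, M.eS (B ++ A)⟫ = ν') →
      ∑' A : Dy, ∑ S ∈ lev (3 * K), ∑' τ : Finset Dy, ind (IsTr τ ∧ Good K D τ S) *
        ∫⁻ ω, ind (HasTr (sub (M.X γ u ω) A) τ) * ENNReal.ofReal |ω (ε τ S A)| ∂gm ≤ R2) :
    ∫⁻ ω, HS γ K D Mx (M.X γ u ω) z ∂gm ≤ R1 + ENNReal.ofReal Mx * R2 := by
  choose y hy using fun S => hPRD M S z hO' (dmin_pos hd hz)
  choose! φ hφ using hS
  set ε : Finset Dy → Dy → Dy → HH := fun τ S A => M.Yv (zS (S ++ A) z) (d * side (S ++ A)) -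
    ∑ B : lvs τ, lamL τ (zS S z) B • M.eS (B ++ A) - gr (φ τ S A) with hε
  have hX : Measurable (M.X γ u) := (hT3.2.2.2.2.2.2.2.2.2.2.1 M γ u).1
  have hm : ∀ A S τ, Measurable fun ω => TT γ K D Mx A S τ (M.X γ u ω) z := fun A S τ =>
    (meas_TT h0 hT3 γ K D Mx A S τ).comp (hX.prodMk measurable_const)
  have hm2 : ∀ A S, Measurable fun ω => ∑' τ, TT γ K D Mx A S τ (M.X γ u ω) z := fun A S =>
    Measurable.tsum fun τ => hm A S τ
  have hor : ∀ τ S A, IsTr τ → Good K D τ S → ∀ B ∈ fam A τ, ⟪gr (φ τ S A), M.eS B⟫ = 0 :=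
    fun τ S A hτ hg => gr_orth hMOD hFE hG M hO' hτ A (hφ τ S A hτ hg).1 (hφ τ S A hτ hg).2.1
      (hφ τ S A hτ hg).2.2.1
  set W : Dy → Om → ℝ≥0∞ := fun S ω => eE (bt γ * (ω (y S) + u - QQ γ * S.length * l2)) with hW
  have hWm : ∀ S, Measurable (W S) := fun S =>
    ((((meas_ev _).add_const u).sub_const _).const_mul _).exp.ennreal_ofReal
  have hI : ∀ A τ, Measurable fun ω => ind (Ev A τ (M.X γ u ω)) := fun A τ =>
    (meas_ind (ev_meas hT3 A τ)).comp hX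
  have one : ∀ A S τ, ∫⁻ ω, TT γ K D Mx A S τ (M.X γ u ω) z ∂gm ≤
      ∫⁻ ω, ind (IsTr τ ∧ Good K D τ S) * (ind (Ev A τ (M.X γ u ω)) * W (S ++ A) ω) ∂gm +
      ENNReal.ofReal Mx * (ind (IsTr τ ∧ Good K D τ S) *
        ∫⁻ ω, ind (HasTr (sub (M.X γ u ω) A) τ) * ENNReal.ofReal |ω (ε τ S A)| ∂gm) := by
    intro A S τ
    by_cases h : IsTr τ ∧ Good K D τ S
    · simp only [TT, gz, ind_pos h, one_mul, kloc_eq h0 γ M h.1, hW, add_sub_assoc]
      refine local_bd hG4 hT1 hT3 b0 b1 M h.1 A u _ hMx _ _ _ _ ?_ (fun B hB => ?_)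
        (hor τ S A h.1 h.2)
      · refine Submodule.sum_mem _ fun B _ => Submodule.smul_mem _ _ (Submodule.subset_span ?_)
        exact ⟨⟨B ++ A, mem_fam.2 (Or.inr ⟨B, Or.inr B.2, rfl⟩)⟩, rfl⟩
      · obtain ⟨C, hC⟩ := hYV
        have k := fam_ok hT1 h.1 h.2.1 A B hB
        rw [(hy _).1 B k, (hC M (S ++ A) _ _ hO' (mul_pos hd (hG.1 _).1) (ball_sub hG hz _)).1 B k]
    · simp [TT, ind_neg h]
  have p1 := hb y fun S => ⟨fun B hB => (hy S).1 B (Or.inl hB), (hy S).2⟩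
  have p2 := ha ε fun τ S A hτ hg => ⟨hg.1, (hφ τ S A hτ hg).2.2.2.2,
    eps_circ hMOD hFE hG h0 hYV M hO hO' hτ A S hd hz _ (hφ τ S A hτ hg).1 (hφ τ S A hτ hg).2.1, by
      obtain ⟨ν', hν⟩ := (hφ τ S A hτ hg).2.2.2.1
      refine ⟨ν', fun B hB => ?_⟩
      simp only [hε]
      rw [inner_sub_left, hν B hB,
        hor τ S A hτ hg _ (mem_fam.2 (Or.inr ⟨B, Or.inr hB, rfl⟩)), sub_zero]⟩
  unfold HS
  rw [lintegral_tsum fun A => (Finset.measurable_sum _ fun S _ => hm2 A S).aemeasurable]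
  simp only [lintegral_finsetSum _ fun S _ => hm2 _ S,
    lintegral_tsum fun τ => (hm _ _ τ).aemeasurable]
  refine (ENNReal.tsum_le_tsum fun A => Finset.sum_le_sum fun S _ =>
    ENNReal.tsum_le_tsum fun τ => one A S τ).trans ?_
  simp only [ENNReal.tsum_add, Finset.sum_add_distrib, ENNReal.tsum_mul_left, ← Finset.mul_sum]
  refine add_le_add (le_trans ?_ p1) (mul_le_mul_right p2 _)
  refine le_trans (ENNReal.tsum_le_tsum fun A => Finset.sum_le_sum fun S _ => ?_)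
    (sum_pairs hT1 (k := 3 * K) (by omega)
      fun S => ∫⁻ ω, ind (Leaf (M.X γ u ω) S) * W S ω ∂gm)
  have m3 : ∀ τ, Measurable fun ω => ind (IsTr τ ∧ Good K D τ S) *
      (ind (Ev A τ (M.X γ u ω)) * W (S ++ A) ω) := fun τ => ((hI A τ).mul (hWm _)).const_mul _
  rw [← lintegral_tsum fun τ => (m3 τ).aemeasurable]
  exact lintegral_mono fun ω => sum_tau hT1 _ (fun τ h => h.2.1) _ _

end NUM

open NUM in
theorem blk_NUM (hG1 : St_G1) (hG4 : St_G4) (_hP1 : St_P1) (hM0 : St_M0) (hMOD : St_MOD)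
    (_hBMP : St_BMP) (hYV : St_YV) (hFE : St_FE) (_hEXP1 : St_EXP1) (_hEXP2 : St_EXP2)
    (hG : St_GEO1) (_hGEO2 : St_GEO2) (hT1 : St_T1) (hT3 : St_T3) (hRW1 : St_RW1)
    (_hFM : St_FM) (hR : St_R) (h0 : St_SCR0) (hSCR : St_SCR) (hADM : St_ADM) (hNI : St_NI)
    (hPRD : St_PRD) (hNRb : St_NRb) (hNRa : St_NRa) : St_NUM := by
  intro γ hγ Cg Mx d hMx hd η hη
  have : IsProbabilityMeasure gm := hG1.1
  obtain ⟨M0⟩ := hM0
  obtain ⟨M, hMO, hMC, -⟩ := (hMOD M0).2.2.1 (ctr []) 4 (by norm_num)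
  have hO : closedBall (ctr []) 3 ⊆ M.O := hMO ▸ closedBall_subset_ball (by norm_num)
  have hO' : box [] ⊆ M.O := fun y hy => hO (mem_closedBall_iff_norm.2 (by
    have := (hG.2.2.2.1 []).2.2.2.1 y hy
    simp only [side, List.length_nil, pow_zero] at this
    linarith))
  have hC0 : 0 ≤ M.C0 := hMC ▸ Real.log_nonneg (by norm_num)
  have hGr : Gram M.eS (covE M.C0) := by
    simpa using (hMOD M).2.2.2.2.2.2.1 [] hO'
  obtain ⟨-, -, -, -, -, -, b0, b1, -⟩ := hRW1.2.2 γ hγ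
  obtain ⟨θ, C, θ0, θ1, hC, hS⟩ := hSCR
  obtain ⟨K0, hK0⟩ := hNRa γ hγ M hO hC0
  obtain ⟨u0, hu0⟩ := hNRb γ hγ M hO' hC0 (η / 12) (by positivity)
  set s := Real.sqrt (1 + Real.log (1 / d)) with hs
  have hs0 : 0 ≤ s := Real.sqrt_nonneg _
  have lim : Tendsto (fun K : ℕ => Mx * (|K0| * (C * θ ^ K * s))) atTop
      (𝓝 (Mx * (|K0| * (C * 0 * s)))) :=
    ((((tendsto_pow_atTop_nhds_zero_of_lt_one θ0.le θ1).const_mul C).mul_const s).const_mul
      _).const_mul _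
  obtain ⟨K1, hK1⟩ := eventually_atTop.1
    (lim.eventually_le_const (u := η / 2) (by simpa using half_pos hη))
  refine ⟨max K1 1, fun K hK => ?_⟩
  have k1 := hK1 K ((le_max_left _ _).trans hK)
  have k2 : 1 ≤ K := (le_max_right _ _).trans hK
  set δ := C * θ ^ K * s with hδ
  have δ0 : 0 ≤ δ := by positivity
  set F := Fv γ K (Cg * K) Mx d with hF
  have hB : BddM F := ((hADM γ hγ).2 K (Cg * K) Mx d hMx hd).1.1
  obtain ⟨-, hT⟩ := (hR γ hγ).1 F hB M.C0 hC0 M.eS hGr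
  have c0 : 0 ≤ cc γ one := (hR γ hγ).2.1 one
  set e := Real.exp (γ ^ 2 * M.C0 / 2) with he
  have e1 : 1 ≤ e := Real.one_le_exp (by positivity)
  have hX : ∀ u, Measurable (M.X γ u) := fun u => (hT3.2.2.2.2.2.2.2.2.2.2.1 M γ u).1
  have hsq : sq d ⊆ box [] := fun z hz => ball_sub0 hG hz (mem_closedBall_self hd.le)
  have hsm : MeasurableSet (sq d) :=
    (Complex.measurable_re measurableSet_Icc).inter (Complex.measurable_im measurableSet_Icc)
  have main : ∀ u ≥ u0, Real.exp (-γ * u) * ∫ ω, SR F (XV γ M.eS u ω) [] ∂gm ≤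
      5.85 * (e * (2 * cc γ one + η / 12)) + η / 2 := by
    intro u hu
    set R1 := Real.exp (γ * u) * (e * (2 * cc γ one + η / 12)) with hR1
    set R2 := Real.exp (γ * u) * (η / 2) with hR2
    have r1 : 0 ≤ R1 := by positivity
    have r2 : 0 ≤ R2 := by positivity
    have hz : ∀ z ∈ sq d, ∫⁻ ω, HS γ K (Cg * K) Mx (M.X γ u ω) z ∂gm ≤
        ENNReal.ofReal (WW z) * ENNReal.ofReal R1 + ENNReal.ofReal R2 := by
      intro z hz
      refine (fixed hG4 hMOD hYV hFE hG hT1 hT3 h0 hPRD b0 b1 M hO hO' k2 hMx hd hz _ _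
        (fun τ S A hτ hg => hS K (Cg * K) τ S hτ hg M A z d hO' hd (ball_sub0 hG hz))
        (hu0 u hu z (dmin_pos hd hz))
        (fun ε hε => hK0 u δ (3 * K) (fun τ S => Good K (Cg * K) τ S) ε δ0 (by omega) hε)).trans
        (add_le_add (le_of_eq ?_) ?_)
      · have w0 : 0 ≤ WW z := (Real.exp_pos _).le
        rw [← ENNReal.ofReal_mul w0, hR1, he, Real.exp_add (γ * u)]
        congr 1
        ring
      · rw [← ENNReal.ofReal_mul hMx.le]
        refine ENNReal.ofReal_le_ofReal ?_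
        have h1 : Mx * (K0 * δ) ≤ η / 2 :=
          (mul_le_mul_of_nonneg_left (mul_le_mul_of_nonneg_right (le_abs_self K0) δ0)
            hMx.le).trans k1
        have h2 := mul_le_mul_of_nonneg_left h1 (Real.exp_pos (γ * u)).le
        rw [hR2]
        linarith
    have hsw := meas_HS2 h0 hT3 γ K (Cg * K) Mx _ (hX u)
    have tot : ∫⁻ ω, ENNReal.ofReal (SR F (M.X γ u ω) []) ∂gm ≤ ENNReal.ofReal (5.85 * R1 + R2) := by
      refine (lintegral_mono fun ω => point h0 hT1 hT3 γ K _ hMx d _).trans ?_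
      rw [lintegral_lintegral_swap (f := fun ω z => HS γ K (Cg * K) Mx (M.X γ u ω) z)
        hsw.aemeasurable]
      refine (setLIntegral_mono' hsm hz).trans ((lintegral_mono_set hsq).trans ?_)
      rw [lintegral_add_right _ measurable_const, lintegral_mul_const _ hNI.1.ennreal_ofReal,
        setLIntegral_const, (hG.2.2.2.1 []).2.1, ENNReal.ofReal_add (by positivity) r2,
        ENNReal.ofReal_mul (p := 5.85) (by norm_num)]
      refine add_le_add (mul_le_mul_left hNI.2 _) (le_of_eq ?_)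
      simp [side]
    obtain ⟨B, hBd⟩ := hB.2
    have nn : ∀ x, 0 ≤ SR F x [] := fun x => Finset.sum_nonneg fun A _ => (hBd _).1
    have ms : Measurable fun ω => SR F (M.X γ u ω) [] :=
      (hT3.2.2.2.2.2.2.2.1 F [] hB.1).comp (hX u)
    have h3 : ∫ ω, SR F (M.X γ u ω) [] ∂gm ≤ 5.85 * R1 + R2 := by
      rw [integral_eq_lintegral_of_nonneg_ae (Eventually.of_forall fun ω => nn _)
        ms.aestronglyMeasurable]
      exact ENNReal.toReal_le_of_le_ofReal (by positivity) tot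
    rw [XV_eS]
    refine (mul_le_mul_of_nonneg_left h3 (Real.exp_pos _).le).trans (le_of_eq ?_)
    have h4 : Real.exp (-γ * u) * Real.exp (γ * u) = 1 := by
      rw [← Real.exp_add]; simp
    rw [hR1, hR2]
    linear_combination (5.85 * (e * (2 * cc γ one + η / 12)) + η / 2) * h4
  have fin := le_of_tendsto hT (eventually_atTop.2 ⟨u0, main⟩)
  have h6 := mul_le_mul_of_nonneg_right e1 hη.le
  have h7 : 0 ≤ e * η := by positivity
  have h5 : e * cc γ F ≤ e * (11.7 * cc γ one + η) := by linarith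
  exact le_of_mul_le_mul_left h5 (by linarith)

end

end Pool.Agent.Lib.APPS
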