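import Pool.Agent.Lib.APPS.Blue3

/-!
Block OBS: the observables of a measure close to the counting measure of a tree.
-/

namespace Pool.Agent.Lib.APPS

open MeasureTheory ProbabilityTheory Filter Topology Set Metric
open scoped NNReal ENNReal CompactlySupported Classical

noncomputable section

namespace OBS

theorem corner_desc (A : Dy) (n : ℕ) :
    ∃ V : Dy, V.length = A.length + 1 + n ∧ corner V = ctr A := by
  induction n with
  | zero =>
    refine ⟨(1, 1) :: A, by simp, ?_⟩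
    simp only [corner, ctr, side, List.length_cons, pow_succ]
    push_cast
    have h1 : (((1 : Fin 2) : ℕ) : ℂ) = 1 := by simp
    rw [h1]
    ring
  | succ n ih =>
    obtain ⟨V, hV, hc⟩ := ih
    refine ⟨(0, 0) :: V, by simp [hV]; ring, ?_⟩
    simp [corner, hc]

theorem ctr_sub_corner (V : Dy) : ‖ctr V - corner V‖ ≤ side V := by
  have hs : 0 ≤ side V := by unfold side; positivity
  have h1 : ‖(1 : ℂ) + Complex.I‖ ≤ 2 := by
    calc ‖(1 : ℂ) + Complex.I‖ ≤ ‖(1 : ℂ)‖ + ‖Complex.I‖ := norm_add_le _ _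
      _ = 2 := by simp; norm_num
  unfold ctr
  rw [add_sub_cancel_left, norm_mul, Complex.norm_real, Real.norm_eq_abs,
    abs_of_nonneg (by positivity)]
  nlinarith

/-- number of low level nodes with centre in a small ball -/
theorem count_low (hGEO1 : St_GEO1) (hT1 : St_T1) (T : Finset Dy) (L : ℕ) (c : ℂ) (t : ℝ)
    (ht : 0 ≤ t) :
    ((T.filter fun A => A.length < L ∧ ‖ctr A - c‖ ≤ t * (1 / 2 : ℝ) ^ L).card : ℝ) ≤
      (2 * (t + 1) + 1) ^ 2 := by
  obtain ⟨-, -, -, -, -, -, hinj, -, -, -, hcnt, -⟩ := hGEO1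
  choose D hD using corner_desc
  refine le_trans ?_ (hcnt L c (t + 1) (by linarith))
  have : (T.filter fun A => A.length < L ∧ ‖ctr A - c‖ ≤ t * (1 / 2 : ℝ) ^ L).card ≤
      ((lev L).filter fun V => ‖ctr V - c‖ ≤ (t + 1) * (1 / 2 : ℝ) ^ L).card := by
    refine Finset.card_le_card_of_injOn (fun A => D A (L - A.length - 1)) ?_ ?_
    · intro A hA
      simp only [Finset.coe_filter, mem_ofPred_eq] at hA ⊢
      obtain ⟨-, hl, hn⟩ := hA
      have hlen : (D A (L - A.length - 1)).length = L := by rw [(hD A _).1]; omega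
      refine ⟨(hT1.1 L _).2 hlen, ?_⟩
      have h1 := ctr_sub_corner (D A (L - A.length - 1))
      rw [(hD A _).2] at h1
      have h2 : side (D A (L - A.length - 1)) = (1 / 2 : ℝ) ^ L := by unfold side; rw [hlen]
      calc ‖ctr (D A (L - A.length - 1)) - c‖
          = ‖(ctr (D A (L - A.length - 1)) - ctr A) + (ctr A - c)‖ := by ring_nf
        _ ≤ ‖ctr (D A (L - A.length - 1)) - ctr A‖ + ‖ctr A - c‖ := norm_add_le _ _
        _ ≤ (t + 1) * (1 / 2 : ℝ) ^ L := by rw [h2] at h1; linarith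
    · intro A _ B _ hAB
      apply hinj
      rw [← (hD A (L - A.length - 1)).2, ← (hD B (L - B.length - 1)).2]
      exact congrArg corner hAB
  exact_mod_cast this

theorem box_eq_union (hGEO1 : St_GEO1) (hT1 : St_T1) (L : ℕ) :
    box [] = ⋃ V : lev L, box V.1 := by
  obtain ⟨-, -, -, -, hsub, -, -, hcov, -⟩ := hGEO1
  ext y
  simp only [mem_iUnion]
  constructor
  · intro hy
    obtain ⟨S, hS, hy'⟩ := hcov [] L y hy
    exact ⟨⟨S, (hT1.1 L S).2 hS⟩, by simpa using hy'⟩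
  · rintro ⟨V, hV⟩
    exact (hsub V.1 []).2 List.nil_suffix hV

theorem integral_split (hGEO1 : St_GEO1) (hT1 : St_T1) (L : ℕ) (ν : Measure ℂ)
    (hν : ν ≪ volume) (f : ℂ → ℝ) (hf : Integrable f ν) :
    ∫ x in box [], f x ∂ν = ∑ V ∈ lev L, ∫ x in box V, f x ∂ν := by
  have hb := box_eq_union hGEO1 hT1 L
  obtain ⟨-, -, -, hbox, -, hdis, -⟩ := hGEO1
  rw [hb, integral_iUnion_ae (s := fun V : lev L => box V.1)
    (fun V => (hbox V.1).1.measurableSet.nullMeasurableSet) _ hf.integrableOn, tsum_fintype]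
  · exact Finset.sum_coe_sort (lev L) fun V => ∫ x in box V, f x ∂ν
  · intro V W hVW
    have hV := (hT1.1 L V.1).1 V.2
    have hW := (hT1.1 L W.1).1 W.2
    have h1 : ¬V.1 <:+ W.1 := fun h => hVW (Subtype.ext (h.eq_of_length (hV.trans hW.symm)))
    have h2 : ¬W.1 <:+ V.1 := fun h => hVW (Subtype.ext (h.eq_of_length (hW.trans hV.symm)).symm)
    exact hν (hdis V.1 W.1 h1 h2).2

theorem sum_split (hT1 : St_T1) (L : ℕ) (T : Finset Dy) (g : Dy → ℝ) :
    ∑ A ∈ T, g A = ∑ A ∈ T.filter (fun A => A.length < L), g A +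
      ∑ V ∈ lev L, ∑ A ∈ T.filter (fun A => V <:+ A), g A := by
  rw [← Finset.sum_filter_add_sum_filter_not T (fun A => A.length < L)]
  congr 1
  simp only [Finset.sum_filter]
  rw [Finset.sum_comm]
  refine Finset.sum_congr rfl fun A _ => ?_
  by_cases hA : A.length < L
  · rw [if_neg (by simpa using hA)]
    symm
    refine Finset.sum_eq_zero fun V hV => if_neg fun h => ?_
    have := h.length_le
    rw [(hT1.1 L V).1 hV] at this
    omega
  · rw [if_pos hA]
    have hlen : (A.drop (A.length - L)).length = L := by simp; omega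
    rw [Finset.sum_eq_single (A.drop (A.length - L))]
    · rw [if_pos (List.drop_suffix _ _)]
    · intro V hV hne
      refine if_neg fun h => hne ?_
      have hV' := (hT1.1 L V).1 hV
      exact (List.suffix_of_suffix_length_le h (List.drop_suffix _ _)
        (by rw [hV', hlen])).eq_of_length (by rw [hV', hlen])
    · intro h
      exact absurd ((hT1.1 L _).2 hlen) h

/-- the main comparison between the integral and the sum over the tree -/
theorem core (hGEO1 : St_GEO1) (hT1 : St_T1) {cV η δ t : ℝ} (hcV : 0 ≤ cV) (hη : 0 ≤ η)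
    (hδ : 0 ≤ δ) (ht : 0 ≤ t) {T : Finset Dy} {ν : Measure ℂ} (hC : Close cV η T ν) (L : ℕ)
    (c : ℂ) (φ : ℂ → ℝ) (hφc : Continuous φ) (hφb : ∀ x, |φ x| ≤ 1)
    (hφs : ∀ x, φ x ≠ 0 → ‖x - c‖ ≤ t * (1 / 2 : ℝ) ^ L)
    (hφo : ∀ x y, ‖x - y‖ ≤ (1 / 2 : ℝ) ^ L → |φ x - φ y| ≤ δ) :
    |∫ x, φ x ∂ν - cV * ∑ A ∈ T, φ (ctr A)| ≤
      η * T.card + δ * ((cV + η) * T.card + cV * T.card) +
        (2 * (t + 1) + 1) ^ 2 * (η * T.card) + cV * (2 * (t + 1) + 1) ^ 2 := by
  obtain ⟨hfin, hac, hout, hcl⟩ := hC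
  have hint : Integrable φ ν :=
    Integrable.of_bound hφc.aestronglyMeasurable 1 (Eventually.of_forall fun x => hφb x)
  have hcount := count_low hGEO1 hT1 T L c t ht
  have hsp := integral_split hGEO1 hT1 L ν hac φ hint
  have hsp1 := integral_split hGEO1 hT1 L ν hac (fun _ => (1 : ℝ)) (integrable_const _)
  obtain ⟨-, -, -, hbox, hsub, -, -, -, -, -, hcnt, -⟩ := hGEO1
  simp only [integral_const, MeasurableSet.univ, measureReal_restrict_apply, univ_inter,
    smul_eq_mul, mul_one] at hsp1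
  have hN : (0 : ℝ) ≤ T.card := Nat.cast_nonneg _
  -- outside the unit square
  have h1 : |∫ x, φ x ∂ν - ∫ x in box [], φ x ∂ν| ≤ η * T.card := by
    have := norm_integral_sub_setIntegral_le (μ := ν) (f := φ) (C := 1)
      (Eventually.of_forall fun x => hφb x) (hbox []).1.measurableSet hint
    rw [Real.norm_eq_abs, mul_one] at this
    exact this.trans (ENNReal.toReal_le_of_le_ofReal (by positivity) hout)
  -- total mass of the unit square
  have h2 : ν.real (box []) ≤ (cV + η) * T.card := by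
    have := hcl []
    rw [Finset.filter_true_of_mem (fun A _ => List.nil_suffix)] at this
    have := (abs_le.1 this).2
    linarith
  have hside : ∀ V ∈ lev L, ∀ y ∈ box V, ‖y - ctr V‖ ≤ (1 / 2 : ℝ) ^ L := by
    intro V hV y hy
    have h := (hbox V).2.2.2.1 y hy
    have hs : side V = (1 / 2 : ℝ) ^ L := by unfold side; rw [(hT1.1 L V).1 hV]
    rw [hs] at h
    have : (0 : ℝ) ≤ (1 / 2 : ℝ) ^ L := by positivity
    linarith
  -- each square of level L
  have h3 : ∀ V ∈ lev L, |∫ x in box V, φ x ∂ν -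
      cV * ∑ A ∈ T.filter (fun A => V <:+ A), φ (ctr A)| ≤
      δ * ν.real (box V) + δ * (cV * (T.filter (fun A => V <:+ A)).card) +
        (if ‖ctr V - c‖ ≤ (t + 1) * (1 / 2 : ℝ) ^ L then 1 else 0) * (η * T.card) := by
    intro V hV
    have a1 : |∫ x in box V, φ x ∂ν - φ (ctr V) * ν.real (box V)| ≤ δ * ν.real (box V) := by
      have e : ∫ x in box V, φ x ∂ν - φ (ctr V) * ν.real (box V) =
          ∫ x in box V, (φ x - φ (ctr V)) ∂ν := by
        rw [integral_sub hint.integrableOn (integrable_const _)]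
        simp [mul_comm]
      rw [e, ← Real.norm_eq_abs]
      exact norm_setIntegral_le_of_norm_le_const (measure_lt_top _ _)
        fun x hx => hφo x _ (hside V hV x hx)
    have a2 : |∑ A ∈ T.filter (fun A => V <:+ A), φ (ctr A) -
        φ (ctr V) * (T.filter (fun A => V <:+ A)).card| ≤
        δ * (T.filter (fun A => V <:+ A)).card := by
      have e : ∑ A ∈ T.filter (fun A => V <:+ A), φ (ctr A) -
          φ (ctr V) * (T.filter (fun A => V <:+ A)).card =
          ∑ A ∈ T.filter (fun A => V <:+ A), (φ (ctr A) - φ (ctr V)) := by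
        rw [Finset.sum_sub_distrib]
        simp [mul_comm]
      rw [e]
      refine (Finset.abs_sum_le_sum_abs _ _).trans ?_
      refine (Finset.sum_le_card_nsmul _ _ δ fun A hA => ?_).trans (by simp [mul_comm])
      have hA' := (Finset.mem_filter.1 hA).2
      exact hφo _ _ (hside V hV _ ((hsub A V).2 hA' (hbox A).2.2.1))
    have a3 : |φ (ctr V) * (ν.real (box V) - cV * (T.filter (fun A => V <:+ A)).card)| ≤
        (if ‖ctr V - c‖ ≤ (t + 1) * (1 / 2 : ℝ) ^ L then 1 else 0) * (η * T.card) := by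
      rw [abs_mul]
      by_cases h0 : φ (ctr V) = 0
      · rw [h0, abs_zero, zero_mul]
        split_ifs <;> positivity
      · have hn := hφs _ h0
        have : (0 : ℝ) ≤ (1 / 2 : ℝ) ^ L := by positivity
        rw [if_pos (by nlinarith)]
        exact mul_le_mul (hφb _) (hcl V) (abs_nonneg _) zero_le_one
    have e : ∫ x in box V, φ x ∂ν - cV * ∑ A ∈ T.filter (fun A => V <:+ A), φ (ctr A) =
        (∫ x in box V, φ x ∂ν - φ (ctr V) * ν.real (box V)) -
        cV * (∑ A ∈ T.filter (fun A => V <:+ A), φ (ctr A) -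
          φ (ctr V) * (T.filter (fun A => V <:+ A)).card) +
        φ (ctr V) * (ν.real (box V) - cV * (T.filter (fun A => V <:+ A)).card) := by ring
    rw [e]
    refine (abs_add_le _ _).trans (add_le_add ((abs_sub _ _).trans (add_le_add a1 ?_)) a3)
    rw [abs_mul, abs_of_nonneg hcV]
    calc cV * _ ≤ cV * (δ * (T.filter (fun A => V <:+ A)).card) :=
          mul_le_mul_of_nonneg_left a2 hcV
      _ = _ := by ring
  -- low levels
  have h4 : |∑ A ∈ T.filter (fun A => A.length < L), φ (ctr A)| ≤ (2 * (t + 1) + 1) ^ 2 := by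
    refine le_trans ?_ hcount
    have e : ∑ A ∈ T.filter (fun A => A.length < L), φ (ctr A) =
        ∑ A ∈ T.filter (fun A => A.length < L ∧ ‖ctr A - c‖ ≤ t * (1 / 2 : ℝ) ^ L),
          φ (ctr A) := by
      symm
      refine Finset.sum_subset (fun A hA => ?_) fun A hA hA' => ?_
      · simp only [Finset.mem_filter] at hA ⊢
        exact ⟨hA.1, hA.2.1⟩
      · by_contra h0
        simp only [Finset.mem_filter] at hA hA'
        exact hA' ⟨hA.1, hA.2, hφs _ h0⟩
    rw [e]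
    refine (Finset.abs_sum_le_sum_abs _ _).trans ?_
    exact (Finset.sum_le_card_nsmul _ _ 1 fun A _ => hφb _).trans (by simp)
  have h5 : ∑ V ∈ lev L, ((T.filter (fun A => V <:+ A)).card : ℝ) ≤ T.card := by
    have := sum_split hT1 L T fun _ => (1 : ℝ)
    simp only [Finset.sum_const, nsmul_eq_mul, mul_one] at this
    have h0 : (0 : ℝ) ≤ (T.filter (fun A => A.length < L)).card := Nat.cast_nonneg _
    linarith
  have h6 : ∑ V ∈ lev L, (if ‖ctr V - c‖ ≤ (t + 1) * (1 / 2 : ℝ) ^ L then (1 : ℝ) else 0) ≤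
      (2 * (t + 1) + 1) ^ 2 := by
    rw [Finset.sum_boole]
    exact hcnt L c (t + 1) (by linarith)
  have h7 : |∑ V ∈ lev L, ∫ x in box V, φ x ∂ν -
      cV * ∑ V ∈ lev L, ∑ A ∈ T.filter (fun A => V <:+ A), φ (ctr A)| ≤
      δ * ((cV + η) * T.card + cV * T.card) + (2 * (t + 1) + 1) ^ 2 * (η * T.card) := by
    rw [Finset.mul_sum, ← Finset.sum_sub_distrib]
    refine (Finset.abs_sum_le_sum_abs _ _).trans ((Finset.sum_le_sum h3).trans ?_)
    rw [Finset.sum_add_distrib, Finset.sum_add_distrib, ← Finset.mul_sum, ← Finset.mul_sum,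
      ← Finset.mul_sum, ← Finset.sum_mul, ← hsp1]
    have b1 : δ * ν.real (box []) ≤ δ * ((cV + η) * T.card) := mul_le_mul_of_nonneg_left h2 hδ
    have b2 : δ * (cV * ∑ V ∈ lev L, ((T.filter (fun A => V <:+ A)).card : ℝ)) ≤
        δ * (cV * T.card) := mul_le_mul_of_nonneg_left (mul_le_mul_of_nonneg_left h5 hcV) hδ
    have b3 := mul_le_mul_of_nonneg_right h6 (show 0 ≤ η * T.card by positivity)
    linarith
  rw [sum_split hT1 L T]
  have e : ∫ x, φ x ∂ν - cV * (∑ A ∈ T.filter (fun A => A.length < L), φ (ctr A) +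
      ∑ V ∈ lev L, ∑ A ∈ T.filter (fun A => V <:+ A), φ (ctr A)) =
      (∫ x, φ x ∂ν - ∫ x in box [], φ x ∂ν) + (∑ V ∈ lev L, ∫ x in box V, φ x ∂ν -
      cV * ∑ V ∈ lev L, ∑ A ∈ T.filter (fun A => V <:+ A), φ (ctr A)) -
      cV * ∑ A ∈ T.filter (fun A => A.length < L), φ (ctr A) := by rw [hsp]; ring
  rw [e]
  have b4 : |cV * ∑ A ∈ T.filter (fun A => A.length < L), φ (ctr A)| ≤
      cV * (2 * (t + 1) + 1) ^ 2 := by
    rw [abs_mul, abs_of_nonneg hcV]
    exact mul_le_mul_of_nonneg_left h4 hcV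
  refine (abs_sub _ _).trans ?_
  have := abs_add_le (∫ x, φ x ∂ν - ∫ x in box [], φ x ∂ν)
    (∑ V ∈ lev L, ∫ x in box V, φ x ∂ν -
      cV * ∑ V ∈ lev L, ∑ A ∈ T.filter (fun A => V <:+ A), φ (ctr A))
  linarith

theorem mass {cV η : ℝ} (hGEO1 : St_GEO1) (hη : 0 ≤ η) {T : Finset Dy} {ν : Measure ℂ}
    (hC : Close cV η T ν) : |ν.real univ - cV * T.card| ≤ 2 * η * T.card := by
  obtain ⟨hfin, -, hout, hcl⟩ := hC
  have hm : MeasurableSet (box []) := (hGEO1.2.2.2.1 []).1.measurableSet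
  have h0 := hcl []
  rw [Finset.filter_true_of_mem (fun A _ => List.nil_suffix)] at h0
  have h1 : ν.real (box [])ᶜ ≤ η * T.card :=
    ENNReal.toReal_le_of_le_ofReal (by positivity) hout
  have h2 : ν.real (box []) + ν.real (box [])ᶜ = ν.real univ := measureReal_add_measureReal_compl hm
  have h3 : 0 ≤ ν.real (box [])ᶜ := measureReal_nonneg
  have h4 := abs_le.1 h0
  have h5 : (0 : ℝ) ≤ η * T.card := by positivity
  rw [abs_le]
  constructor <;> nlinarith [h4.1, h4.2]

theorem close_mono {cV η η' : ℝ} (h : η ≤ η') {T : Finset Dy} {ν : Measure ℂ}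
    (hC : Close cV η T ν) : Close cV η' T ν := by
  obtain ⟨hfin, hac, hout, hcl⟩ := hC
  have hN : η * T.card ≤ η' * T.card := mul_le_mul_of_nonneg_right h (Nat.cast_nonneg _)
  exact ⟨hfin, hac, hout.trans (ENNReal.ofReal_le_ofReal hN), fun R => (hcl R).trans hN⟩

/-- one test function -/
theorem one_fun (hGEO1 : St_GEO1) (hT1 : St_T1) {cV : ℝ} (hcV : 0 < cV) (f : ℂ → ℝ)
    (hfc : Continuous f) (hfs : HasCompactSupport f) (hfu : UniformContinuous f)
    (hfb : ∀ x, |f x| ≤ 1) {ε : ℝ} (hε : 0 < ε) :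
    ∃ η' > 0, ∃ N0 : ℕ, ∀ (T : Finset Dy) (ν : Measure ℂ), N0 ≤ T.card → Close cV η' T ν →
      ∀ (c : ℂ) (j : ℕ), |(ν.real univ)⁻¹ * ∫ x, f (2 ^ j * (x - c)) ∂ν -
        (T.card : ℝ)⁻¹ * ∑ A ∈ T, f (2 ^ j * (ctr A - c))| ≤ ε := by
  obtain ⟨r, hr⟩ := hfs.isCompact.isBounded.subset_closedBall (0 : ℂ)
  set r2 := max r 0 with hr2
  have hsupp : ∀ x, f x ≠ 0 → ‖x‖ ≤ r2 := fun x hx => by
    have := hr (subset_tsupport f hx)
    rw [mem_closedBall, dist_zero_right] at this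
    exact this.trans (le_max_left _ _)
  obtain ⟨ρ, hρ, hosc⟩ := Metric.uniformContinuous_iff.1 hfu (ε / 15) (by positivity)
  obtain ⟨l1, hl1⟩ := exists_pow_lt_of_lt_one hρ (by norm_num : (1 / 2 : ℝ) < 1)
  set t := r2 * 2 ^ l1 with htdef
  have ht : 0 ≤ t := mul_nonneg (le_max_right _ _) (by positivity)
  set C := (2 * (t + 1) + 1) ^ 2 with hCdef
  have hC0 : 0 ≤ C := by positivity
  obtain ⟨N1, hN1⟩ := exists_nat_ge (6 * C / ε)
  refine ⟨min (cV / 4) (cV * ε / (6 * (3 + C))), by positivity, N1 + 1, ?_⟩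
  intro T ν hN hC c j
  set η := min (cV / 4) (cV * ε / (6 * (3 + C))) with hηdef
  have hη0 : 0 ≤ η := by positivity
  have hη1 : η ≤ cV / 4 := min_le_left _ _
  have hη2 : η * (3 + C) ≤ cV * ε / 6 := by
    have : η ≤ cV * ε / (6 * (3 + C)) := min_le_right _ _
    rw [le_div_iff₀ (by positivity)] at this
    linarith
  have hNr : (N1 : ℝ) + 1 ≤ T.card := by exact_mod_cast hN
  have hN0 : (0 : ℝ) < T.card := by
    have : (0 : ℝ) ≤ N1 := Nat.cast_nonneg _
    linarith
  have hCN : C ≤ ε / 6 * T.card := by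
    rw [div_le_iff₀ hε] at hN1
    nlinarith
  have hpow : (2 : ℝ) ^ j * (1 / 2 : ℝ) ^ (j + l1) = (1 / 2 : ℝ) ^ l1 := by
    rw [pow_add, ← mul_assoc, ← mul_pow]; norm_num
  have hpow2 : (2 : ℝ) ^ l1 * (1 / 2 : ℝ) ^ l1 = 1 := by rw [← mul_pow]; norm_num
  have hn2 : ∀ z : ℂ, ‖(2 : ℂ) ^ j * z‖ = 2 ^ j * ‖z‖ := fun z => by simp
  have hj : (0 : ℝ) < 2 ^ j := by positivity
  have hcore := core hGEO1 hT1 hcV.le hη0 (show 0 ≤ ε / 15 by positivity) ht hC (j + l1) c
    (fun x => f (2 ^ j * (x - c))) (hfc.comp (by fun_prop)) (fun x => hfb _)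
    (fun x hx => by
      have h := hsupp _ hx
      rw [hn2] at h
      have : 2 ^ j * (t * (1 / 2 : ℝ) ^ (j + l1)) = r2 := by
        rw [htdef]
        calc 2 ^ j * (r2 * 2 ^ l1 * (1 / 2 : ℝ) ^ (j + l1))
            = r2 * (2 ^ l1 * (2 ^ j * (1 / 2 : ℝ) ^ (j + l1))) := by ring
          _ = r2 := by rw [hpow, hpow2, mul_one]
      rw [← this] at h
      exact le_of_mul_le_mul_left h hj)
    (fun x y hxy => by
      have : dist ((2 : ℂ) ^ j * (x - c)) (2 ^ j * (y - c)) < ρ := by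
        rw [dist_eq_norm, ← mul_sub, sub_sub_sub_cancel_right, hn2]
        calc 2 ^ j * ‖x - y‖ ≤ 2 ^ j * (1 / 2 : ℝ) ^ (j + l1) :=
              mul_le_mul_of_nonneg_left hxy hj.le
          _ < ρ := by rw [hpow]; exact hl1
      have := hosc this
      rw [Real.dist_eq] at this
      exact this.le)
  have hmass := mass hGEO1 hη0 hC
  set I := ∫ x, f (2 ^ j * (x - c)) ∂ν
  set S := ∑ A ∈ T, f (2 ^ j * (ctr A - c)) with hS
  set m := ν.real univ
  set N : ℝ := (T.card : ℝ) with hNdef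
  have hSb : |S| ≤ N := by
    refine (Finset.abs_sum_le_sum_abs _ _).trans ?_
    exact (Finset.sum_le_card_nsmul _ _ 1 fun A _ => hfb _).trans (by simp [hNdef])
  have hm : cV * N / 2 ≤ m := by
    have := (abs_le.1 hmass).1
    nlinarith
  have hm0 : 0 < m := lt_of_lt_of_le (by positivity) hm
  have e : m⁻¹ * I - N⁻¹ * S = m⁻¹ * ((I - cV * S) - (S / N) * (m - cV * N)) := by
    field_simp
    ring
  have hSN : |S / N| ≤ 1 := by
    rw [abs_div, abs_of_pos hN0, div_le_one hN0]; exact hSb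
  have b1 : |(S / N) * (m - cV * N)| ≤ 2 * η * N := by
    rw [abs_mul]
    calc _ ≤ 1 * (2 * η * N) := mul_le_mul hSN hmass (abs_nonneg _) zero_le_one
      _ = _ := one_mul _
  have b2 : |(I - cV * S) - (S / N) * (m - cV * N)| ≤ ε * (cV * N / 2) := by
    refine (abs_sub _ _).trans ?_
    have c1 : ε / 15 * ((cV + η) * N + cV * N) ≤ cV * ε / 6 * N := by
      have : (cV + η) * N + cV * N ≤ 9 / 4 * cV * N := by nlinarith
      have h' := mul_le_mul_of_nonneg_left this (show 0 ≤ ε / 15 by positivity)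
      have : 0 ≤ cV * ε * N := by positivity
      nlinarith
    have c2 : η * N + C * (η * N) + 2 * η * N ≤ cV * ε / 6 * N := by
      have := mul_le_mul_of_nonneg_right hη2 hN0.le
      nlinarith
    have c3 : cV * C ≤ cV * ε / 6 * N := by
      have := mul_le_mul_of_nonneg_left hCN hcV.le
      nlinarith
    nlinarith
  rw [e, abs_mul, abs_of_pos (inv_pos.2 hm0), inv_mul_le_iff₀ hm0]
  calc _ ≤ ε * (cV * N / 2) := b2
    _ ≤ ε * m := mul_le_mul_of_nonneg_left hm hε.le
    _ = m * ε := mul_comm _ _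

theorem obsP_eq (tf : ℕ → C_c(Cyl, ℝ)) (ν : Measure ℂ) (c : ℂ) (j k : ℕ) :
    obsP tf ((ν univ)⁻¹ • ν) c (2 ^ j) k =
      (ν.real univ)⁻¹ * ∫ x, pb (tf k) (2 ^ j * (x - c)) ∂ν := by
  unfold obsP
  rw [← integral_indicator (measurableSet_singleton c).compl, integral_smul_measure,
    ENNReal.toReal_inv, smul_eq_mul]
  congr 1
  refine integral_congr_ae (Eventually.of_forall fun x => ?_)
  by_cases hx : x = c
  · simp [hx, pb]
  · have h0 : (2 : ℂ) ^ j * (x - c) ≠ 0 := mul_ne_zero (by simp) (sub_ne_zero.2 hx)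
    simp only [pb]
    rw [if_neg h0, indicator_of_mem (by simpa using hx)]
    push_cast
    rfl

theorem sR_eq (hGEO1 : St_GEO1) (tf : ℕ → C_c(Cyl, ℝ)) (T : Finset Dy) (R : Dy) (j k : ℕ) :
    sR tf T R j k = (T.card : ℝ)⁻¹ * ∑ A ∈ T, pb (tf k) (2 ^ j * (ctr A - ctr R)) := by
  have hinj : Function.Injective ctr := hGEO1.2.2.2.2.2.2.1
  unfold sR
  congr 1
  rw [← Finset.sum_erase T (a := R) (by simp [pb])]
  refine Finset.sum_congr rfl fun A hA => ?_
  have h0 : (2 : ℂ) ^ j * (ctr A - ctr R) ≠ 0 :=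
    mul_ne_zero (by simp) (sub_ne_zero.2 fun h => Finset.ne_of_mem_erase hA (hinj h))
  simp only [pb]
  rw [if_neg h0]

end OBS

theorem blk_OBS (hCYL : St_CYL) (hPHI : St_PHI) (hGEO1 : St_GEO1) (_hGEO2 : St_GEO2)
    (hT1 : St_T1) : St_OBS := by
  intro tf htf cV hcV η hη
  obtain ⟨-, -, -, -, -, -, -, -, -, -, -, -, hpb, -⟩ := hCYL
  obtain ⟨k0, hk0⟩ := exists_pow_lt_of_lt_one (show 0 < η / 2 by positivity)
    (by norm_num : (1 / 2 : ℝ) < 1)
  have hb : ∀ k x, |pb (tf k) x| ≤ 1 := fun k x => by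
    unfold pb
    split_ifs
    · simp
    · exact htf.bd k _
  have key : ∀ n : ℕ, ∃ η' > 0, ∃ N0 : ℕ, ∀ (T : Finset Dy) (ν : Measure ℂ), N0 ≤ T.card →
      Close cV η' T ν → ∀ k < n, ∀ (c : ℂ) (j : ℕ),
        |(ν.real univ)⁻¹ * ∫ x, pb (tf k) (2 ^ j * (x - c)) ∂ν -
          (T.card : ℝ)⁻¹ * ∑ A ∈ T, pb (tf k) (2 ^ j * (ctr A - c))| ≤ η / 4 := by
    intro n
    induction n with
    | zero => exact ⟨1, one_pos, 0, fun T ν _ _ k hk => absurd hk (Nat.not_lt_zero _)⟩
    | succ n ih =>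
      obtain ⟨η1, h1, N1, H1⟩ := ih
      obtain ⟨η2, h2, N2, H2⟩ := OBS.one_fun hGEO1 hT1 hcV (pb (tf n)) (hpb _).1 (hpb _).2.1
        (hpb _).2.2.1 (hb n) (show 0 < η / 4 by positivity)
      refine ⟨min η1 η2, lt_min h1 h2, max N1 N2, fun T ν hN hC k hk c j => ?_⟩
      rcases Nat.lt_succ_iff_lt_or_eq.1 hk with hk | rfl
      · exact H1 T ν ((le_max_left _ _).trans hN) (OBS.close_mono (min_le_left _ _) hC) k hk c j
      · exact H2 T ν ((le_max_right _ _).trans hN) (OBS.close_mono (min_le_right _ _) hC) c j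
  obtain ⟨η1, h1, N1, H1⟩ := key (k0 + 1)
  refine ⟨min η1 (η / 2), lt_min h1 (by positivity), N1 + 1, fun T ν _ hN hC => ⟨?_, ?_⟩⟩
  · have hm := OBS.mass hGEO1 (show 0 ≤ η / 2 by positivity)
      (OBS.close_mono (min_le_right _ _) hC)
    have hN0 : (0 : ℝ) < T.card := by exact_mod_cast (show 0 < T.card by omega)
    have e : ν.real univ / T.card - cV = (ν.real univ - cV * T.card) / T.card := by
      field_simp
    rw [e, abs_div, abs_of_pos hN0, div_le_iff₀ hN0]
    linarith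
  · intro R _ j
    have := hPHI.2.2.1 (obsP tf ((ν univ)⁻¹ • ν) (ctr R) (2 ^ j)) (sR tf T R j) k0 (η / 4)
      (by positivity) fun k hk => by
        rw [OBS.obsP_eq, OBS.sR_eq hGEO1]
        exact H1 T ν (by omega) (OBS.close_mono (min_le_left _ _) hC) k (by omega) _ j
    linarith

end

end Pool.Agent.Lib.APPS
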