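import Pool.Agent.Lib.APPS.Blue1

/-! Block P1: gradients of Lipschitz functions as vectors of the Hilbert space. -/

namespace Pool.Agent.Lib.APPS

open MeasureTheory ProbabilityTheory Filter Topology Set Metric
open scoped NNReal ENNReal RealInnerProductSpace

noncomputable section

namespace P1

theorem norm_grad (f : ℂ → ℝ) (x : ℂ) : ‖gradient f x‖ = ‖fderiv ℝ f x‖ := by
  rw [← toDual_gradient, LinearIsometryEquiv.norm_map]

theorem meas (f : ℂ → ℝ) : Measurable (gradient f) :=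
  (InnerProductSpace.toDual ℝ ℂ).symm.continuous.measurable.comp (measurable_fderiv ℝ f)

theorem bound (f : ℂ → ℝ) (K : ℝ≥0) (h : LipschitzWith K f) (x : ℂ) : ‖gradient f x‖ ≤ K := by
  rw [norm_grad]
  exact norm_fderiv_le_of_lipschitz ℝ h

theorem grad_loc {f : ℂ → ℝ} {x : ℂ} {c : ℝ} (h : f =ᶠ[𝓝 x] fun _ => c) : gradient f x = 0 := by
  rw [h.gradient_eq, gradient_fun_const]

theorem grad_off {f : ℂ → ℝ} {x : ℂ} (h : x ∉ tsupport f) : gradient f x = 0 :=
  grad_loc (c := 0) (notMem_tsupport_iff_eventuallyEq.1 h)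

theorem lipE {f : ℂ → ℝ} (h : LipC f) : LipE f := by
  obtain ⟨⟨K, hK⟩, hc⟩ := h
  refine ⟨⟨K, hK⟩, ?_⟩
  have h1 : HasCompactSupport (gradient f) := HasCompactSupport.intro hc fun x hx => grad_off hx
  exact h1.memLp_of_bound (meas f).aestronglyMeasurable K (Eventually.of_forall (bound f K hK))

theorem coe_gr {f : ℂ → ℝ} (h : LipE f) :
    gr f =ᵐ[volume] fun x => (Real.sqrt (2 * Real.pi))⁻¹ • gradient f x := by
  have h1 : MemLp (fun x => (Real.sqrt (2 * Real.pi))⁻¹ • gradient f x) 2 (volume : Measure ℂ) :=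
    h.2.const_smul (Real.sqrt (2 * Real.pi))⁻¹
  rw [gr, dif_pos h1]
  exact h1.coeFn_toLp

theorem grad_add {f g : ℂ → ℝ} (hf : LipE f) (hg : LipE g) :
    gradient (f + g) =ᵐ[volume] fun x => gradient f x + gradient g x := by
  obtain ⟨⟨K, hK⟩, -⟩ := hf
  obtain ⟨⟨L, hL⟩, -⟩ := hg
  filter_upwards [hK.ae_differentiableAt, hL.ae_differentiableAt] with x h1 h2
  simp only [gradient, fderiv_add h1 h2, map_add]

theorem add {f g : ℂ → ℝ} (hf : LipE f) (hg : LipE g) :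
    LipE (f + g) ∧ gr (f + g) = gr f + gr g := by
  have h : LipE (f + g) := by
    refine ⟨?_, (memLp_congr_ae (grad_add hf hg)).2 (hf.2.add hg.2)⟩
    obtain ⟨⟨K, hK⟩, -⟩ := hf
    obtain ⟨⟨L, hL⟩, -⟩ := hg
    exact ⟨_, hK.add hL⟩
  refine ⟨h, Lp.ext ?_⟩
  filter_upwards [coe_gr h, coe_gr hf, coe_gr hg, Lp.coeFn_add (gr f) (gr g), grad_add hf hg]
    with x h1 h2 h3 h4 h5
  rw [h1, h4, Pi.add_apply, h2, h3, h5, smul_add]

theorem grad_smul (c : ℝ) (f : ℂ → ℝ) (x : ℂ) : gradient (c • f) x = c • gradient f x := by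
  simp only [gradient, fderiv_const_smul_field, Pi.smul_apply, map_smul]

theorem lip_smul (c : ℝ) {f : ℂ → ℝ} {K : ℝ≥0} (h : LipschitzWith K f) :
    LipschitzWith (‖c‖₊ * K) (c • f) := (lipschitzWith_smul c).comp h

theorem smul (c : ℝ) {f : ℂ → ℝ} (hf : LipE f) : LipE (c • f) ∧ gr (c • f) = c • gr f := by
  have h : LipE (c • f) := by
    refine ⟨?_, ?_⟩
    · obtain ⟨⟨K, hK⟩, -⟩ := hf
      exact ⟨_, lip_smul c hK⟩
    · simp only [grad_smul]
      exact hf.2.const_smul c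
  refine ⟨h, Lp.ext ?_⟩
  filter_upwards [coe_gr h, coe_gr hf, Lp.coeFn_smul c (gr f)] with x h1 h2 h3
  rw [h1, h3, Pi.smul_apply, h2, grad_smul, smul_comm]

theorem addc (c : ℝ) {f : ℂ → ℝ} (hf : LipE f) :
    LipE (fun x => f x + c) ∧ gr (fun x => f x + c) = gr f := by
  have h1 : gradient (fun x => f x + c) = gradient f := by
    funext x
    simp only [gradient, fderiv_add_const]
  refine ⟨⟨?_, ?_⟩, ?_⟩
  · obtain ⟨⟨K, hK⟩, -⟩ := hf
    exact ⟨K, fun x y => by simpa using hK x y⟩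
  · rw [h1]; exact hf.2
  · unfold gr
    rw [h1]

theorem inn {f g : ℂ → ℝ} (hf : LipE f) (hg : LipE g) :
    Integrable (fun x => ⟪gradient f x, gradient g x⟫) ∧
    ⟪gr f, gr g⟫ = (2 * Real.pi)⁻¹ * ∫ x, ⟪gradient f x, gradient g x⟫ := by
  constructor
  · refine (L2.integrable_inner (𝕜 := ℝ) (hf.2.toLp _) (hg.2.toLp _)).congr ?_
    filter_upwards [hf.2.coeFn_toLp, hg.2.coeFn_toLp] with x h1 h2
    rw [h1, h2]
  · rw [L2.inner_def, ← integral_const_mul]
    refine integral_congr_ae ?_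
    filter_upwards [coe_gr hf, coe_gr hg] with x h1 h2
    rw [h1, h2, real_inner_smul_left, real_inner_smul_right, ← mul_assoc, ← mul_inv,
      Real.mul_self_sqrt (by positivity)]

theorem orth {f g : ℂ → ℝ} (hf : LipE f) (hg : LipE g)
    (h : ∀ x ∈ tsupport g, ∃ c, f =ᶠ[𝓝 x] fun _ => c) : ⟪gr f, gr g⟫ = 0 := by
  have : ∀ x, ⟪gradient f x, gradient g x⟫ = 0 := fun x => by
    by_cases hx : x ∈ tsupport g
    · obtain ⟨c, hc⟩ := h x hx
      rw [grad_loc hc, inner_zero_left]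
    · rw [grad_off hx, inner_zero_right]
  simp only [(inn hf hg).2, this, integral_zero, mul_zero]

/-- The cutoff function. -/
def chi (n : ℕ) (x : ℂ) : ℝ := max 0 (min 1 (2 - ‖x‖ / (n + 1)))

theorem chi_nonneg (n : ℕ) (x : ℂ) : 0 ≤ chi n x := le_max_left _ _

theorem chi_le (n : ℕ) (x : ℂ) : chi n x ≤ 1 := max_le zero_le_one (min_le_left _ _)

theorem chi_one {n : ℕ} {x : ℂ} (h : ‖x‖ ≤ n + 1) : chi n x = 1 := by
  have : ‖x‖ / (n + 1) ≤ 1 := (div_le_one (by positivity)).2 h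
  rw [chi, min_eq_left (by linarith), max_eq_right zero_le_one]

theorem chi_zero {n : ℕ} {x : ℂ} (h : 2 * (n + 1) ≤ ‖x‖) : chi n x = 0 := by
  have : 2 ≤ ‖x‖ / (n + 1) := (le_div_iff₀ (by positivity)).2 h
  exact max_eq_left ((min_le_right _ _).trans (by linarith))

theorem chi_lip (n : ℕ) : LipschitzWith ((n : ℝ≥0) + 1)⁻¹ (chi n) := by
  refine LipschitzWith.const_max (LipschitzWith.const_min ?_ 1) 0
  refine LipschitzWith.of_dist_le_mul fun x y => ?_
  have h := abs_norm_sub_norm_le y x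
  rw [Real.dist_eq, dist_comm, dist_eq_norm,
    show 2 - ‖x‖ / (n + 1) - (2 - ‖y‖ / (n + 1)) = ((n : ℝ) + 1)⁻¹ * (‖y‖ - ‖x‖) by ring,
    abs_mul, abs_of_nonneg (by positivity)]
  push_cast
  gcongr

theorem chi_grad (n : ℕ) (x : ℂ) : ‖fderiv ℝ (chi n) x‖ ≤ 3 / (1 + ‖x‖) := by
  rw [← norm_grad]
  by_cases h : 2 * ((n : ℝ) + 1) < ‖x‖
  · have : chi n =ᶠ[𝓝 x] fun _ => 0 := by
      filter_upwards [(isOpen_lt continuous_const continuous_norm).mem_nhds h] with y hy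
      exact chi_zero (le_of_lt hy)
    rw [grad_loc this, norm_zero]
    positivity
  · refine (bound _ _ (chi_lip n) x).trans ?_
    push_cast
    rw [inv_eq_one_div, div_le_div_iff₀ (by positivity) (by positivity)]
    have : (0 : ℝ) ≤ n := n.cast_nonneg
    linarith [not_lt.1 h]

theorem lip_mul {u v : ℂ → ℝ} {K L : ℝ≥0} {C : ℝ} (hu : LipschitzWith K u)
    (hv : LipschitzWith L v) (bu : ∀ x, |u x| ≤ C) (bv : ∀ x, |v x| ≤ 1) :
    LipschitzWith (C.toNNReal * L + K) fun x => u x * v x := by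
  refine LipschitzWith.of_dist_le_mul fun x y => ?_
  have hC : 0 ≤ C := (abs_nonneg _).trans (bu 0)
  have h1 := hu.dist_le_mul x y
  have h2 := hv.dist_le_mul x y
  rw [Real.dist_eq] at h1 h2 ⊢
  rw [show u x * v x - u y * v y = u x * (v x - v y) + v y * (u x - u y) by ring]
  refine (abs_add_le _ _).trans ?_
  rw [abs_mul, abs_mul]
  push_cast
  rw [Real.coe_toNNReal _ hC, add_mul, mul_assoc]
  refine add_le_add (mul_le_mul (bu x) h2 (abs_nonneg _) hC) ?_
  exact (mul_le_of_le_one_left (abs_nonneg _) (bv y)).trans h1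

theorem cutoff (f : ℂ → ℝ) (c C : ℝ) (hf : LipE f) (hb : ∀ x, |f x - c| ≤ C / (1 + ‖x‖)) :
    ∃ φ : ℕ → ℂ → ℝ, (∀ n, LipC (φ n)) ∧ (∀ (n : ℕ) x, ‖x‖ ≤ n → φ n x = f x - c) ∧
    (∀ n x, |φ n x| ≤ |f x - c|) ∧ Tendsto (fun n => gr (φ n)) atTop (𝓝 (gr f)) := by
  have hC : 0 ≤ C := by simpa using (abs_nonneg _).trans (hb 0)
  have hb' : ∀ x, |f x - c| ≤ C := fun x =>
    (hb x).trans (div_le_self hC (by linarith [norm_nonneg x]))
  have hχ : ∀ n x, |chi n x| ≤ 1 := fun n x => by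
    rw [abs_of_nonneg (chi_nonneg n x)]; exact chi_le n x
  obtain ⟨K, hK⟩ := hf.1
  have hK' : LipschitzWith K fun x => f x - c := fun x y => by simpa using hK x y
  let φ : ℕ → ℂ → ℝ := fun n x => (f x - c) * chi n x
  have hφ : ∀ n, LipC (φ n) := fun n => by
    refine ⟨⟨_, lip_mul hK' (chi_lip n) hb' (hχ n)⟩,
      HasCompactSupport.intro (isCompact_closedBall (0 : ℂ) (2 * (n + 1))) fun x hx => ?_⟩
    rw [mem_closedBall_zero_iff, not_le] at hx
    simp only [φ, chi_zero hx.le, mul_zero]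
  refine ⟨φ, hφ, fun n x hx => ?_, fun n x => ?_, ?_⟩
  · simp only [φ, chi_one (hx.trans (le_add_of_nonneg_right zero_le_one)), mul_one]
  · simp only [φ, abs_mul]
    exact mul_le_of_le_one_right (abs_nonneg _) (hχ n x)
  let h : ℕ → ℂ → ℝ := fun n => φ n + (-1 : ℝ) • f
  have hh : ∀ n, LipE (h n) ∧ gr (h n) = gr (φ n) - gr f := fun n => by
    have h1 := smul (-1) hf
    have h2 := add (lipE (hφ n)) h1.1
    exact ⟨h2.1, by rw [h2.2, h1.2, neg_one_smul, sub_eq_add_neg]⟩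
  have hD : ∀ n, ∀ᵐ x, ‖gradient (h n) x‖ ≤ ‖gradient f x‖ + 3 * C * (1 + ‖x‖) ^ (-2 : ℝ) := by
    intro n
    filter_upwards [hK.ae_differentiableAt, (chi_lip n).ae_differentiableAt] with x h1 h2
    have h3 : HasFDerivAt (h n) ((f x - c) • fderiv ℝ (chi n) x + chi n x • fderiv ℝ f x +
        (-1 : ℝ) • fderiv ℝ f x) x :=
      ((h1.hasFDerivAt.sub_const c).mul h2.hasFDerivAt).add (h1.hasFDerivAt.const_smul (-1))
    rw [norm_grad, norm_grad, h3.fderiv, add_assoc, ← add_smul, add_comm]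
    refine (norm_add_le _ _).trans (add_le_add ?_ ?_)
    · rw [norm_smul]
      refine mul_le_of_le_one_left (norm_nonneg _) ?_
      rw [Real.norm_eq_abs, abs_le]
      constructor <;> linarith [chi_nonneg n x, chi_le n x]
    · rw [norm_smul, Real.norm_eq_abs]
      refine (mul_le_mul (hb x) (chi_grad n x) (norm_nonneg _) (by positivity)).trans_eq ?_
      rw [Real.rpow_neg (by positivity), Real.rpow_two]
      field_simp
  have hI : Integrable fun x : ℂ => 2 * ⟪gradient f x, gradient f x⟫ +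
      2 * (3 * C) ^ 2 * (1 + ‖x‖) ^ (-4 : ℝ) :=
    ((inn hf hf).1.const_mul 2).add
      ((integrable_one_add_norm (by rw [Complex.finrank_real_complex]; norm_num)).const_mul _)
  have hT : Tendsto (fun n => ∫ x, ⟪gradient (h n) x, gradient (h n) x⟫) atTop
      (𝓝 (∫ _ : ℂ, (0 : ℝ))) := by
    refine tendsto_integral_of_dominated_convergence _
      (fun n => (inn (hh n).1 (hh n).1).1.aestronglyMeasurable) hI (fun n => ?_)
      (Eventually.of_forall fun x => ?_)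
    · filter_upwards [hD n] with x hx
      rw [real_inner_self_eq_norm_sq, real_inner_self_eq_norm_sq, Real.norm_eq_abs,
        abs_of_nonneg (by positivity)]
      have e : (1 + ‖x‖) ^ (-4 : ℝ) = ((1 + ‖x‖) ^ (-2 : ℝ)) ^ 2 := by
        rw [← Real.rpow_natCast, ← Real.rpow_mul (by positivity)]
        norm_num
      rw [e]
      refine (pow_le_pow_left₀ (norm_nonneg _) hx 2).trans ?_
      nlinarith [sq_nonneg (‖gradient f x‖ - 3 * C * (1 + ‖x‖) ^ (-2 : ℝ))]
    · refine tendsto_const_nhds.congr' ?_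
      obtain ⟨N, hN⟩ := exists_nat_gt ‖x‖
      filter_upwards [eventually_ge_atTop N] with n hn
      have hx : ‖x‖ < (n : ℝ) + 1 := by
        have : (N : ℝ) ≤ n := by exact_mod_cast hn
        linarith
      have : h n =ᶠ[𝓝 x] fun _ => -c := by
        filter_upwards [(isOpen_lt continuous_norm continuous_const).mem_nhds hx] with y hy
        simp only [h, φ, chi_one (le_of_lt hy), Pi.add_apply, Pi.smul_apply, smul_eq_mul]
        ring
      rw [grad_loc this, inner_zero_left]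
  rw [tendsto_iff_norm_sub_tendsto_zero]
  have h2 := (hT.const_mul (2 * Real.pi)⁻¹).sqrt
  rw [integral_zero, mul_zero, Real.sqrt_zero] at h2
  refine h2.congr fun n => ?_
  rw [← (inn (hh n).1 (hh n).1).2, (hh n).2, real_inner_self_eq_norm_sq,
    Real.sqrt_sq (norm_nonneg _)]

theorem lipC_smul (c : ℝ) {f : ℂ → ℝ} (hf : LipC f) : LipC (c • f) := by
  obtain ⟨⟨K, hK⟩, hc⟩ := hf
  exact ⟨⟨_, lip_smul c hK⟩, hc.smul_left (f := fun _ => c)⟩

/-- The gradients of compactly supported Lipschitz functions. -/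
def W0 : Submodule ℝ HH where
  carrier := gr '' {φ | LipC φ}
  add_mem' := by
    rintro _ _ ⟨f, hf, rfl⟩ ⟨g, hg, rfl⟩
    refine ⟨f + g, ⟨(add (lipE hf) (lipE hg)).1.1, hf.2.add hg.2⟩, (add (lipE hf) (lipE hg)).2⟩
  zero_mem' := by
    have h : LipC 0 := ⟨⟨0, LipschitzWith.const 0⟩, HasCompactSupport.zero⟩
    have := (smul 0 (lipE h)).2
    rw [zero_smul, zero_smul] at this
    exact ⟨0, h, this⟩
  smul_mem' := by
    rintro c _ ⟨f, hf, rfl⟩
    exact ⟨c • f, lipC_smul c hf, (smul c (lipE hf)).2⟩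

theorem dual (v : HH) (hv : v ∈ closure (gr '' {φ | LipC φ})) (B : ℝ) (hB : 0 ≤ B)
    (h : ∀ φ, LipC φ → |⟪v, gr φ⟫| ≤ B * ‖gr φ‖) : ‖v‖ ≤ B := by
  have h1 : IsClosed {w : HH | |⟪v, w⟫| ≤ B * ‖w‖} := isClosed_le (by fun_prop) (by fun_prop)
  have h2 : |⟪v, v⟫| ≤ B * ‖v‖ :=
    closure_minimal (by rintro _ ⟨φ, hφ, rfl⟩; exact h φ hφ) h1 hv
  rw [real_inner_self_eq_norm_sq, abs_of_nonneg (by positivity)] at h2
  by_contra h3
  nlinarith [not_le.1 h3]

end P1

theorem blk_P1 : St_P1 :=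
  ⟨fun _ => P1.lipE, fun _ _ => P1.add, fun c _ => P1.smul c, fun c _ => P1.addc c,
    fun _ _ => P1.inn, fun _ _ => P1.orth, P1.meas, P1.bound, P1.cutoff,
    ⟨P1.W0.topologicalClosure, rfl⟩, P1.dual⟩

end

end Pool.Agent.Lib.APPS
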