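import Pool.Agent.Lib.APPS.Blue1

/-! Block P2: integration by parts against Lipschitz test functions. -/

namespace Pool.Agent.Lib.APPS

open MeasureTheory ProbabilityTheory Filter Topology Set Metric
open scoped NNReal ENNReal RealInnerProductSpace

noncomputable section

namespace P2

theorem ld_off {f : ℂ → ℝ} {x : ℂ} (h : x ∉ tsupport f) (v : ℂ) : lineDeriv ℝ f x v = 0 := by
  rw [(notMem_tsupport_iff_eventuallyEq.1 h).lineDeriv_eq]
  simp [lineDeriv]

theorem ibp {w φ : ℂ → ℝ} (hw : ContDiff ℝ 1 w) (hφ : LipC φ) (v : ℂ) :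
    Integrable (fun x => lineDeriv ℝ φ x v * w x) ∧
      ∫ x, lineDeriv ℝ φ x v * w x = -∫ x, φ x * fderiv ℝ w x v := by
  obtain ⟨⟨K, hK⟩, hc⟩ := hφ
  obtain ⟨R, hR0, hR⟩ : ∃ R : ℝ, 0 < R ∧ tsupport φ ⊆ ball 0 R := by
    obtain ⟨R, hR⟩ := hc.isCompact.isBounded.subset_ball_lt 0 (0 : ℂ)
    exact ⟨R, hR.1, hR.2⟩
  let b : ContDiffBump (0 : ℂ) := ⟨R, R + 1, hR0, by linarith⟩
  have hb : ∀ x ∈ tsupport φ, (fun x => w x * b x) =ᶠ[𝓝 x] w := fun x hx => by
    filter_upwards [b.eventuallyEq_one_of_mem_ball (hR hx)] with z hz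
    rw [hz, Pi.one_apply, mul_one]
  have hW : ContDiff ℝ 1 fun x => w x * b x := hw.mul b.contDiff
  have hWc : HasCompactSupport fun x => w x * b x := b.hasCompactSupport.mul_left
  obtain ⟨L, hL⟩ := ContDiff.lipschitzWith_of_hasCompactSupport hWc hW one_ne_zero
  have e1 : (fun x => lineDeriv ℝ φ x v * w x) = fun x => lineDeriv ℝ φ x v * (w x * b x) := by
    funext x
    by_cases hx : x ∈ tsupport φ
    · rw [show w x * b x = w x from (hb x hx).self_of_nhds]
    · rw [ld_off hx, zero_mul, zero_mul]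
  rw [e1]
  refine ⟨(hW.continuous.integrable_of_hasCompactSupport hWc).mul_of_top_right
    (hK.memLp_lineDeriv v), ?_⟩
  rw [hK.integral_lineDeriv_mul_eq hL hWc v, ← integral_neg]
  refine integral_congr_ae (Eventually.of_forall fun x => ?_)
  by_cases hx : x ∈ tsupport φ
  · simp only [lineDeriv_neg]
    rw [(hb x hx).lineDeriv_eq, (hw.differentiable one_ne_zero x).lineDeriv_eq_fderiv]
    ring
  · simp [image_eq_zero_of_notMem_tsupport hx]

theorem two {u φ : ℂ → ℝ} (hu : ContDiff ℝ 2 u) (hφ : LipC φ) :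
    ∫ x, ⟪gradient u x, gradient φ x⟫ = -∫ x, φ x * Laplacian.laplacian u x := by
  have hd : ContDiff ℝ 1 (fderiv ℝ u) := hu.fderiv_right (by norm_num)
  have hw : ∀ v : ℂ, ContDiff ℝ 1 fun x => fderiv ℝ u x v := fun v =>
    hd.clm_apply contDiff_const
  have h2 : ∀ v x : ℂ, fderiv ℝ (fun x => fderiv ℝ u x v) x v =
      iteratedFDeriv ℝ 2 u x ![v, v] := fun v x => by
    rw [iteratedFDeriv_two_apply, fderiv_clm_apply (hd.differentiable one_ne_zero x)
      (differentiableAt_const v)]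
    simp
  obtain ⟨i1, e1⟩ := ibp (hw 1) hφ 1
  obtain ⟨i2, e2⟩ := ibp (hw Complex.I) hφ Complex.I
  obtain ⟨⟨K, hK⟩, hc⟩ := hφ
  have j : ∀ v : ℂ, Integrable fun x => φ x * fderiv ℝ (fun x => fderiv ℝ u x v) x v := fun v =>
    (hK.continuous.mul (((hw v).continuous_fderiv one_ne_zero).clm_apply
      continuous_const)).integrable_of_hasCompactSupport hc.mul_right
  have e3 : ∫ x, ⟪gradient u x, gradient φ x⟫ = ∫ x, (lineDeriv ℝ φ x 1 * fderiv ℝ u x 1 +
      lineDeriv ℝ φ x Complex.I * fderiv ℝ u x Complex.I) := by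
    refine integral_congr_ae ?_
    filter_upwards [hK.ae_differentiableAt] with x hx
    rw [hx.lineDeriv_eq_fderiv, hx.lineDeriv_eq_fderiv, ← inner_gradient_left,
      ← inner_gradient_left, ← inner_gradient_left, ← inner_gradient_left]
    simp only [Complex.inner, Complex.mul_re, Complex.conj_re, Complex.conj_im, Complex.one_re,
      Complex.one_im, Complex.I_re, Complex.I_im]
    ring
  rw [e3, integral_add i1 i2, e1, e2, ← neg_add, ← integral_add (j 1) (j Complex.I)]
  congr 1
  refine integral_congr_ae (Eventually.of_forall fun x => ?_)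
  simp only [h2, InnerProductSpace.laplacian_eq_iteratedFDeriv_complexPlane]
  ring

theorem grad_log (y : ℂ) {δ : ℝ} (hδ : 0 < δ) {x : ℂ} (hx : δ < ‖x - y‖) (w : ℂ) :
    ⟪gradient (fun x : ℂ => Real.log (max ‖x - y‖ δ)) x, w⟫ = ⟪x - y, w⟫ / ‖x - y‖ ^ 2 := by
  have h0 : 0 < ‖x - y‖ := hδ.trans hx
  have h1 : (fun x : ℂ => Real.log (max ‖x - y‖ δ)) =ᶠ[𝓝 x]
      fun x => 2⁻¹ * Real.log (‖x - y‖ ^ 2) := by
    have : ∀ᶠ z in 𝓝 x, δ < ‖z - y‖ :=
      continuousAt_const.eventually_lt (by fun_prop) hx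
    filter_upwards [this] with z hz
    rw [max_eq_left hz.le, Real.log_pow]
    push_cast
    ring
  have h2 := ((((hasFDerivAt_id x).sub_const y).norm_sq).log (by positivity)).const_mul (2⁻¹ : ℝ)
  rw [inner_gradient_left, h1.fderiv_eq]
  have h3 := h2.fderiv
  simp only [id] at h3
  rw [h3]
  simp only [smul_apply, ContinuousLinearMap.comp_id, innerSL_apply_apply,
    smul_eq_mul, nsmul_eq_mul]
  push_cast
  field_simp

theorem grad_in (y : ℂ) {δ : ℝ} {x : ℂ} (hx : ‖x - y‖ < δ) :
    gradient (fun x : ℂ => Real.log (max ‖x - y‖ δ)) x = 0 := by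
  have h1 : (fun x : ℂ => Real.log (max ‖x - y‖ δ)) =ᶠ[𝓝 x] fun _ => Real.log δ := by
    have : ∀ᶠ z in 𝓝 x, ‖z - y‖ < δ :=
      ContinuousAt.eventually_lt (by fun_prop) continuousAt_const hx
    filter_upwards [this] with z hz
    rw [max_eq_right hz.le]
  rw [h1.gradient_eq, gradient_fun_const]

theorem polar (p : ℝ × ℝ) : Complex.polarCoord.symm p = p.1 • circleMap 0 1 p.2 := by
  rw [Complex.polarCoord_symm_apply, circleMap, Complex.exp_mul_I]
  simp [mul_add]

theorem one (y : ℂ) {δ : ℝ} {φ : ℂ → ℝ} (hδ : 0 < δ) (hφ : LipC φ) :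
    ∫ x, ⟪gradient (fun x : ℂ => Real.log (max ‖x - y‖ δ)) x, gradient φ x⟫ =
      -(2 * Real.pi) * ∫ x, φ x ∂circ y δ := by
  obtain ⟨⟨K, hK⟩, hc⟩ := hφ
  obtain ⟨R, hR0, hR⟩ : ∃ R : ℝ, δ < R ∧ tsupport φ ⊆ ball y R :=
    hc.isCompact.isBounded.subset_ball_lt δ y
  set g : ℝ → ℝ → ℝ := fun θ s => φ (y + s • circleMap 0 1 θ) with hg
  have hn : ∀ θ, ‖circleMap 0 1 θ‖ = 1 := fun θ => by simp
  have hgc : Continuous g.uncurry := by
    have := hK.continuous
    have h2 := continuous_circleMap 0 1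
    show Continuous fun p : ℝ × ℝ => φ (y + p.2 • circleMap 0 1 p.1)
    fun_prop
  have hgl : ∀ θ, LipschitzWith K (g θ) := fun θ => by
    refine LipschitzWith.of_dist_le_mul fun s t => (hK.dist_le_mul _ _).trans (le_of_eq ?_)
    rw [dist_add_left, dist_eq_norm, ← sub_smul, norm_smul, hn, mul_one, dist_eq_norm]
  have hgd : ∀ θ s, lineDeriv ℝ φ (y + s • circleMap 0 1 θ) (circleMap 0 1 θ) = deriv (g θ) s :=
    fun θ s => by
      rw [lineDeriv, ← add_zero s, ← deriv_comp_const_add (g θ) s 0, add_zero]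
      simp only [hg, add_smul, add_assoc]
  have hout : ∀ θ s, R ≤ s → y + s • circleMap 0 1 θ ∉ tsupport φ := fun θ s hs h => by
    have := hR h
    rw [mem_ball, dist_eq_norm, add_sub_cancel_left, norm_smul, hn, mul_one, Real.norm_eq_abs,
      abs_lt] at this
    linarith [this.2]
  let F : ℂ → ℝ := fun x =>
    if δ < ‖x - y‖ then lineDeriv ℝ φ x (x - y) / ‖x - y‖ ^ 2 else 0
  let G : ℝ × ℝ → ℝ := fun p => (Ioc δ R).indicator (deriv (g p.2)) p.1
  have e1 : ∫ x, ⟪gradient (fun x : ℂ => Real.log (max ‖x - y‖ δ)) x, gradient φ x⟫ =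
      ∫ x, F x := by
    refine integral_congr_ae ?_
    have hs : ∀ᵐ x : ℂ, x ∉ sphere y δ :=
      measure_eq_zero_iff_ae_notMem.1 (Measure.addHaar_sphere volume y δ)
    filter_upwards [hK.ae_differentiableAt, hs] with x hx hxs
    simp only [F]
    split_ifs with h
    · rw [grad_log y hδ h, real_inner_comm, inner_gradient_left, hx.lineDeriv_eq_fderiv]
    · rw [grad_in y (lt_of_le_of_ne (not_lt.1 h) fun h' => hxs (mem_sphere_iff_norm.2 h')),
        inner_zero_left]
  have e2 : ∫ x, F x = ∫ p in Ioi (0 : ℝ) ×ˢ Ioo (-Real.pi) Real.pi, G p := by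
    rw [← integral_add_left_eq_self F y, ← Complex.integral_comp_polarCoord_symm]
    refine setIntegral_congr_fun (measurableSet_Ioi.prod measurableSet_Ioo) fun p hp => ?_
    have hp1 : 0 < p.1 := hp.1
    have hnp : ‖p.1 • circleMap 0 1 p.2‖ = p.1 := by
      rw [norm_smul, hn, mul_one, Real.norm_eq_abs, abs_of_pos hp1]
    simp only [F, G, polar, add_sub_cancel_left, hnp, lineDeriv_smul, hgd, smul_eq_mul]
    by_cases h : δ < p.1
    · rw [if_pos h]
      by_cases h' : p.1 ≤ R
      · rw [indicator_of_mem (show p.1 ∈ Ioc δ R from ⟨h, h'⟩)]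
        field_simp
      · rw [indicator_of_notMem fun h2 => h' h2.2, ← hgd, ld_off (hout _ _ (not_le.1 h').le)]
        simp
    · rw [if_neg h, indicator_of_notMem fun h2 => h h2.1, mul_zero]
  have hGm : Measurable G := by
    have h0 : Measurable fun p : ℝ × ℝ => deriv (g p.1) p.2 := measurable_deriv_with_param hgc
    have h1 : Measurable fun p : ℝ × ℝ => deriv (g p.2) p.1 := by
      simpa only [Function.comp_def, Prod.fst_swap, Prod.snd_swap] using h0.comp measurable_swap
    have h2 : G = (Prod.fst ⁻¹' Ioc δ R).indicator fun p : ℝ × ℝ => deriv (g p.2) p.1 := by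
      funext p
      by_cases h : p.1 ∈ Ioc δ R
      · simp only [G]
        rw [indicator_of_mem h, indicator_of_mem (mem_preimage.2 h)]
      · simp only [G]
        rw [indicator_of_notMem h, indicator_of_notMem fun h2 => h (mem_preimage.1 h2)]
    rw [h2]
    exact h1.indicator (measurable_fst measurableSet_Ioc)
  have hGi : Integrable G
      ((volume.restrict (Ioi (0 : ℝ))).prod (volume.restrict (Ioo (-Real.pi) Real.pi))) := by
    have h0 : Integrable ((Ioc δ R).indicator fun _ => (K : ℝ)) (volume : Measure ℝ) :=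
      (integrable_indicator_iff measurableSet_Ioc).2 (integrableOn_const (by simp))
    have h1 := Integrable.mul_prod (h0.restrict (s := Ioi (0 : ℝ)))
      (integrable_const (μ := volume.restrict (Ioo (-Real.pi) Real.pi)) (1 : ℝ))
    refine h1.mono' hGm.aestronglyMeasurable (Eventually.of_forall fun p => ?_)
    simp only [G, mul_one]
    by_cases h : p.1 ∈ Ioc δ R
    · rw [indicator_of_mem h, indicator_of_mem h]
      exact norm_deriv_le_of_lipschitz (hgl _)
    · rw [indicator_of_notMem h, indicator_of_notMem h, norm_zero]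
  have e3 : ∀ θ, ∫ s in Ioi (0 : ℝ), G (s, θ) = -φ (circleMap y δ θ) := fun θ => by
    simp only [G]
    rw [setIntegral_indicator measurableSet_Ioc,
      inter_eq_right.2 (show Ioc δ R ⊆ Ioi 0 from fun s hs => hδ.trans hs.1),
      ← intervalIntegral.integral_of_le hR0.le,
      ((hgl θ).lipschitzOnWith.absolutelyContinuousOnInterval).integral_deriv_eq_sub]
    simp only [hg]
    rw [image_eq_zero_of_notMem_tsupport (hout θ R le_rfl), zero_sub]
    simp [circleMap]
  have hcm : Continuous fun θ => φ (circleMap y δ θ) :=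
    hK.continuous.comp (continuous_circleMap y δ)
  have e4 : ∫ θ in Ioo (-Real.pi) Real.pi, φ (circleMap y δ θ) =
      ∫ θ in Ioc 0 (2 * Real.pi), φ (circleMap y δ θ) := by
    have hp : Function.Periodic (fun θ => φ (circleMap y δ θ)) (2 * Real.pi) :=
      (periodic_circleMap y δ).comp φ
    have h1 := hp.intervalIntegral_add_eq (-Real.pi) 0
    rw [show -Real.pi + 2 * Real.pi = Real.pi by ring, zero_add,
      intervalIntegral.integral_of_le (by linarith [Real.pi_pos]),
      intervalIntegral.integral_of_le (by linarith [Real.pi_pos])] at h1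
    rw [← h1, integral_Ioc_eq_integral_Ioo]
  rw [e1, e2, Measure.volume_eq_prod, ← Measure.prod_restrict, integral_prod_symm G hGi]
  simp only [e3]
  rw [integral_neg, e4, circ, integral_smul_measure, integral_map
    (continuous_circleMap y δ).measurable.aemeasurable hK.continuous.aestronglyMeasurable,
    ENNReal.toReal_inv, ENNReal.toReal_ofReal (by positivity), smul_eq_mul]
  field_simp

end P2

theorem blk_P2 (_hP1 : St_P1) (_hE : St_EXP1) : St_P2 :=
  ⟨fun y _ _ hδ hφ => P2.one y hδ hφ, fun _ _ hu hφ => P2.two hu hφ⟩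

end

end Pool.Agent.Lib.APPS
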