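import Pool.Agent.Lib.APPS.Blue2

/-!
Block PA: small ball and two point estimates for the Palm measure.
-/

namespace Pool.Agent.Lib.APPS

open MeasureTheory ProbabilityTheory Filter Topology Set Metric
open scoped NNReal ENNReal RealInnerProductSpace Classical

noncomputable section

namespace PA

theorem l2_pos : 0 < l2 := Real.log_pos (by norm_num)

theorem eE_add (s t : ℝ) : eE (s + t) = eE s * eE t := by
  simp only [eE, Real.exp_add]; exact ENNReal.ofReal_mul (Real.exp_pos _).le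

theorem eE_ne_top (s : ℝ) : eE s ≠ ∞ := ENNReal.ofReal_ne_top

theorem eE_mono {s t : ℝ} (h : s ≤ t) : eE s ≤ eE t :=
  ENNReal.ofReal_le_ofReal (Real.exp_le_exp.2 h)

theorem meas_eE : Measurable eE := Real.measurable_exp.ennreal_ofReal

theorem ind_mono {p q : Prop} (h : p → q) : ind p ≤ ind q := by
  unfold ind
  by_cases hp : p
  · simp [hp, h hp]
  · simp [hp]

theorem meas_ind {α : Type} [MeasurableSpace α] {p : α → Prop} (h : MeasurableSet {a | p a}) :
    Measurable fun a => ind (p a) := by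
  unfold ind
  exact Measurable.ite h measurable_const measurable_const

theorem lint_ind {α : Type} [MeasurableSpace α] (μ : Measure α) {s : Set α}
    (h : MeasurableSet s) : ∫⁻ a, ind (a ∈ s) ∂μ = μ s := by
  rw [← lintegral_indicator_one h]
  refine lintegral_congr fun a => ?_
  unfold ind
  by_cases ha : a ∈ s <;> simp [ha]

def vv : Dy → HH := gvec (covE 0)

def XX (γ : ℝ) (ω : Om) (S : Dy) : ℝ := ω (vv S) - QQ γ * S.length * l2

theorem meas_fam : Measurable fun (ω : Om) S => ω (vv S) :=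
  measurable_pi_lambda _ fun _ => meas_ev _

theorem palm_le (hG1 : St_G1) (γ : ℝ) (G : (Dy → ℝ) → ℝ≥0∞) (hG : Measurable G)
    (H : Om → ℝ≥0∞) (h : ∀ ω, ∫⁻ y : ℝ, eE (-γ * y) * G (fun S => XX γ ω S + y) ≤ H ω) :
    palm γ G ≤ ENNReal.ofReal (aa γ * l2)⁻¹ * ∫⁻ ω, H ω ∂gm := by
  have : IsProbabilityMeasure gm := hG1.1
  unfold palm
  refine mul_le_mul_right ?_ _
  have hd : ∀ y, Measurable fun x : Dy → ℝ => drift (QQ γ) x y := fun y =>
    measurable_pi_lambda _ fun S => ((measurable_pi_apply S).add_const _).sub_const _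
  have e1 : ∀ y, eE (-γ * y) * ∫⁻ x, G (drift (QQ γ) x y) ∂ex 0 =
      ∫⁻ ω, eE (-γ * y) * G (fun S => XX γ ω S + y) ∂gm := by
    intro y
    rw [lintegral_const_mul' _ _ (eE_ne_top _)]
    congr 1
    have := lintegral_map (μ := gm) (hG.comp (hd y)) meas_fam
    refine Eq.trans this (lintegral_congr fun ω => ?_)
    simp only [Function.comp]
    congr 1
    funext S
    simp only [drift, XX]
    ring
  simp only [e1]
  have hm : Measurable fun p : ℝ × Om => eE (-γ * p.1) * G (fun S => XX γ p.2 S + p.1) := by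
    refine (meas_eE.comp (measurable_fst.const_mul _)).mul (hG.comp ?_)
    exact measurable_pi_lambda _ fun S =>
      (((meas_ev _).comp measurable_snd).sub_const _).add measurable_fst
  rw [lintegral_lintegral_swap hm.aemeasurable]
  exact lintegral_mono h

theorem win (γ a r : ℝ) (hγ : 0 ≤ γ) (p : ℝ → Prop) (q : Prop)
    (h : ∀ y, p y → |a + y| ≤ r ∧ q) :
    ∫⁻ y : ℝ, eE (-γ * y) * ind (p y) ≤ ENNReal.ofReal (2 * r) * (ind q * eE (γ * (a + r))) := by
  have e : ENNReal.ofReal (2 * r) = ∫⁻ y : ℝ, ind (y ∈ Icc (-a - r) (-a + r)) := by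
    rw [lint_ind _ measurableSet_Icc, Real.volume_Icc]; congr 1; ring
  rw [e, ← lintegral_mul_const _ (meas_ind (p := fun y : ℝ => y ∈ Icc (-a - r) (-a + r))
    measurableSet_Icc)]
  refine lintegral_mono fun y => ?_
  by_cases hp : p y
  · obtain ⟨h1, h2⟩ := h y hp
    rw [abs_le] at h1
    have h3 : y ∈ Icc (-a - r) (-a + r) := ⟨by linarith, by linarith⟩
    simp only [ind, hp, h2, h3, if_true, mul_one, one_mul]
    exact eE_mono (by nlinarith)
  · simp [ind, hp]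

theorem tail (γ a : ℝ) (hγ : 0 < γ) (p : ℝ → Prop) (b : ℝ)
    (h : ∀ y, p y → 0 < a + y ∧ 0 ≤ b) :
    ∫⁻ y : ℝ, eE (-γ * y) * ind (p y) ≤ ENNReal.ofReal γ⁻¹ * eE (γ * a + b) := by
  have hi : IntegrableOn (fun y : ℝ => Real.exp (-γ * y)) (Ioi (-a)) :=
    integrableOn_exp_mul_Ioi (by linarith) _
  have e : ∫⁻ y in Ioi (-a), eE (-γ * y) = ENNReal.ofReal γ⁻¹ * eE (γ * a) := by
    unfold eE
    rw [← ofReal_integral_eq_lintegral_ofReal hi (ae_of_all _ fun y => (Real.exp_pos _).le),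
      integral_exp_mul_Ioi (by linarith), ← ENNReal.ofReal_mul (by positivity)]
    congr 1
    rw [show -γ * -a = γ * a by ring]
    field_simp
  rw [eE_add, ← mul_assoc, ← e, ← lintegral_indicator measurableSet_Ioi,
    ← lintegral_mul_const' _ _ (eE_ne_top _)]
  refine lintegral_mono fun y => ?_
  by_cases hp : p y
  · obtain ⟨h1, h2⟩ := h y hp
    have h3 : y ∈ Ioi (-a) := by simp only [mem_Ioi]; linarith
    simp only [ind, hp, if_true, indicator_of_mem h3]
    refine mul_le_mul_right ?_ _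
    have := eE_mono h2
    simpa [eE] using this
  · simp [ind, hp]

theorem nz (hM0 : St_M0) (hMOD : St_MOD) (hB : St_BMP) (hG : St_GEO1) :
    Gram vv (covE 0) ∧ (∀ A, vv A ≠ 0) ∧ ∀ A B, A ≠ B → vv A - vv B ≠ 0 := by
  obtain ⟨M⟩ := hM0
  have h0 : Gram vv (covE 0) :=
    ((hMOD M).2.2.2.2.2.2.2.2.2.2.2.2.2.2.2.2.2 0 le_rfl).1
  obtain ⟨M', hO, hC, -⟩ := (hMOD M).2.2.1 (ctr []) 1 one_pos
  have hb : box [] ⊆ M'.O := by
    intro y hy
    have := (hG.2.2.2.1 []).2.2.2.1 y hy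
    rw [hO, mem_ball, dist_eq_norm]
    simp only [side, List.length_nil, pow_zero] at this
    linarith
  have h1 := (hMOD M').2.2.2.2.2.2.1 [] hb
  simp only [List.append_nil, hC, Real.log_one, List.length_nil, Nat.cast_zero, zero_mul,
    add_zero] at h1
  have h2 : ∀ A B, ⟪vv A, vv B⟫ = ⟪M'.eS A, M'.eS B⟫ := fun A B => by rw [h0, h1]
  obtain ⟨hb0, E, C, hE, -, -, hM⟩ := hB
  refine ⟨h0, fun A hA => ?_, fun A B hAB hz => ?_⟩
  · have h3 := (hM M').2.2.2.2.2.2.2.2 A (((hG.2.2.2.2.1 A []).2 List.nil_suffix).trans hb)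
    rw [← real_inner_self_eq_norm_sq, ← h2, hA, inner_zero_left] at h3
    have : 0 < bb ^ 2 / E := by positivity
    linarith
  · refine (hM M').2.2.2.2.2.2.2.1 hb A B hAB ?_
    rw [← inner_self_eq_zero (𝕜 := ℝ)] at hz ⊢
    simp only [inner_sub_left, inner_sub_right, h2] at hz ⊢
    exact hz

theorem aa_pos {γ : ℝ} (h : γ ∈ Ioo (0 : ℝ) 2) : 0 < aa γ := by
  obtain ⟨h0, h2⟩ := h
  have : aa γ = (4 - γ ^ 2) / (2 * γ) := by unfold aa QQ; field_simp; ring
  rw [this]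
  exact div_pos (by nlinarith) (by linarith)

theorem QQ_pos {γ : ℝ} (h : γ ∈ Ioo (0 : ℝ) 2) : 0 < QQ γ := by
  have := h.1
  unfold QQ; positivity

theorem it1 (hG1 : St_G1) (hD : St_G1D) {γ : ℝ} (h : γ ∈ Ioo (0 : ℝ) 2) :
    ∃ K : ℝ, ∀ lam ∈ Ioc (0 : ℝ) 1, ∀ d,
      palm γ (fun y => ind (|y [d]| ≤ lam)) ≤ ENNReal.ofReal (K * lam) := by
  have ha := aa_pos h
  have hq := QQ_pos h
  have hl := l2_pos
  refine ⟨(aa γ * l2)⁻¹ * (2 * ∑ d : Fin 2 × Fin 2, Real.exp (γ + ‖γ • vv [d]‖ ^ 2 / 2)),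
    fun lam hlam d => ?_⟩
  have hm : Measurable fun y : Dy → ℝ => ind (|y [d]| ≤ lam) :=
    meas_ind (measurableSet_le (measurable_pi_apply _).abs measurable_const)
  refine (palm_le hG1 γ _ hm
    (fun ω => ENNReal.ofReal (2 * lam) * eE γ * eE (ω (γ • vv [d]))) fun ω => ?_).trans ?_
  · refine (win γ (XX γ ω [d]) lam h.1.le _ True fun y hy => ⟨hy, trivial⟩).trans ?_
    rw [mul_assoc, ← eE_add]
    refine mul_le_mul_right ?_ _
    simp only [ind, if_true, one_mul]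
    refine eE_mono ?_
    simp only [XX, map_smul, smul_eq_mul, List.length_singleton, Nat.cast_one]
    have h1 : 0 ≤ γ * (QQ γ * 1 * l2) := by have := h.1; positivity
    nlinarith [h.1, hlam.2]
  · rw [lintegral_const_mul' _ _ (ENNReal.mul_ne_top ENNReal.ofReal_ne_top (eE_ne_top _)),
      hD.1, mul_assoc, ← eE_add, eE, ← ENNReal.ofReal_mul (by linarith [hlam.1]),
      ← ENNReal.ofReal_mul (inv_nonneg.2 (mul_pos ha hl).le)]
    refine ENNReal.ofReal_le_ofReal ?_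
    have h1 : Real.exp (γ + ‖γ • vv [d]‖ ^ 2 / 2) ≤
        ∑ d : Fin 2 × Fin 2, Real.exp (γ + ‖γ • vv [d]‖ ^ 2 / 2) :=
      Finset.single_le_sum (f := fun d : Fin 2 × Fin 2 => Real.exp (γ + ‖γ • vv [d]‖ ^ 2 / 2))
        (fun _ _ => (Real.exp_pos _).le) (Finset.mem_univ d)
    have h2 := mul_le_mul_of_nonneg_left h1 hlam.1.le
    have h3 := inv_nonneg.2 (mul_pos ha hl).le
    rw [mul_assoc (aa γ * l2)⁻¹]
    refine mul_le_mul_of_nonneg_left ?_ h3
    linarith

theorem tilt (hD : St_G1D) (hG2 : St_G2) (g w : HH) (hw : w ≠ 0) (c r : ℝ) :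
    ∫⁻ ω, ind (|ω w + c| ≤ r) * eE (ω g) ∂gm ≤
      eE (‖g‖ ^ 2 / 2) * ENNReal.ofReal (2 * r / ‖w‖) := by
  have hm : Measurable fun ω : Om => ind (|ω w + c| ≤ r) :=
    meas_ind (measurableSet_le ((meas_ev _).add_const _).abs measurable_const)
  have h1 := hG2.2.1 g _ hm
  have e : ∀ ω : Om, ind (|ω w + c| ≤ r) * eE (ω g) =
      eE (‖g‖ ^ 2 / 2) * (ind (|ω w + c| ≤ r) * eE (ω g - ‖g‖ ^ 2 / 2)) := fun ω => by
    rw [mul_left_comm, ← eE_add]; congr 2; ring
  simp only [e]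
  rw [lintegral_const_mul' _ _ (eE_ne_top _), ← h1]
  refine mul_le_mul_right ?_ _
  have h2 := hD.2.2.1 w (-(⟪g, w⟫ + c) - r) (-(⟪g, w⟫ + c) + r) hw
  rw [show -(⟪g, w⟫ + c) + r - (-(⟪g, w⟫ + c) - r) = 2 * r by ring] at h2
  refine le_trans ?_ h2
  rw [← lint_ind gm (s := {ω : Om | ω w ∈ Icc (-(⟪g, w⟫ + c) - r) (-(⟪g, w⟫ + c) + r)})
    (meas_ev w measurableSet_Icc)]
  refine lintegral_mono fun ω => ind_mono fun hh => ?_
  simp only [LinearMap.add_apply, dv_apply, abs_le] at hh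
  exact ⟨by linarith [hh.1], by linarith [hh.2]⟩

theorem it2 (hG1 : St_G1) (hD : St_G1D) (hG2 : St_G2) (hn : ∀ A B, A ≠ B → vv A - vv B ≠ 0)
    {γ : ℝ} (h : γ ∈ Ioo (0 : ℝ) 2) (d : Fin 2 × Fin 2) (B : Dy) (c C η : ℝ) (hB : B ≠ [d])
    (hη : 0 < η) : ∃ lam0 > 0, ∀ lam ∈ Ioc 0 lam0,
    palm γ (fun y => ind (|y [d]| ≤ C * lam ∧ |y B + c| ≤ C * lam)) ≤
      ENNReal.ofReal (η * lam) := by
  have ha := aa_pos h
  have hq := QQ_pos h
  have hl := l2_pos
  have hw := hn B [d] hB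
  have hw0 : 0 < ‖vv B - vv [d]‖ := norm_pos_iff.2 hw
  set K : ℝ := (aa γ * l2)⁻¹ * (2 * |C| * (Real.exp (γ * |C|) * (Real.exp (‖γ • vv [d]‖ ^ 2 / 2) *
    (4 * |C| / ‖vv B - vv [d]‖)))) with hK
  have hK0 : 0 ≤ K := by positivity
  refine ⟨min 1 (η / (K + 1)), lt_min one_pos (by positivity), fun lam hlam => ?_⟩
  have l0 := hlam.1
  have l1 : lam ≤ 1 := hlam.2.trans (min_le_left _ _)
  have l3 : lam * (K + 1) ≤ η := (le_div_iff₀ (by positivity)).1 (hlam.2.trans (min_le_right _ _))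
  have hm : Measurable fun y : Dy → ℝ => ind (|y [d]| ≤ C * lam ∧ |y B + c| ≤ C * lam) :=
    meas_ind ((measurableSet_le (measurable_pi_apply _).abs measurable_const).inter
      (measurableSet_le ((measurable_pi_apply _).add_const _).abs measurable_const))
  have hC : C * lam ≤ |C| * lam := mul_le_mul_of_nonneg_right (le_abs_self C) l0.le
  have hC0 := abs_nonneg C
  refine (palm_le hG1 γ _ hm
    (fun ω => ENNReal.ofReal (2 * (|C| * lam)) * eE (γ * |C|) *
      (ind (|ω (vv B - vv [d]) + (c - QQ γ * B.length * l2 + QQ γ * l2)| ≤ 2 * (|C| * lam)) *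
        eE (ω (γ • vv [d])))) fun ω => ?_).trans ?_
  · refine (win γ (XX γ ω [d]) (|C| * lam) h.1.le _
      (|ω (vv B - vv [d]) + (c - QQ γ * B.length * l2 + QQ γ * l2)| ≤ 2 * (|C| * lam))
      fun y hy => ⟨hy.1.trans hC, ?_⟩).trans ?_
    · obtain ⟨h1, h2⟩ := hy
      simp only [XX, List.length_singleton, Nat.cast_one, abs_le, map_sub] at h1 h2 ⊢
      constructor <;> linarith [h1.1, h1.2, h2.1, h2.2]
    · rw [mul_assoc (ENNReal.ofReal _) (eE _), mul_left_comm (eE _), ← eE_add]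
      refine mul_le_mul_right (mul_le_mul_right (eE_mono ?_) _) _
      simp only [XX, map_smul, smul_eq_mul, List.length_singleton, Nat.cast_one]
      have h1 : 0 ≤ γ * (QQ γ * 1 * l2) := by have := h.1; positivity
      have h2 : γ * (|C| * lam) ≤ γ * |C| :=
        mul_le_mul_of_nonneg_left (by nlinarith) h.1.le
      nlinarith
  · rw [lintegral_const_mul' _ _ (ENNReal.mul_ne_top ENNReal.ofReal_ne_top (eE_ne_top _))]
    refine (mul_le_mul_right (mul_le_mul_right (tilt hD hG2 _ _ hw _ _) _) _).trans ?_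
    unfold eE
    rw [← ENNReal.ofReal_mul (by positivity), ← ENNReal.ofReal_mul (by positivity),
      ← ENNReal.ofReal_mul (by positivity), ← ENNReal.ofReal_mul (by positivity)]
    refine ENNReal.ofReal_le_ofReal ?_
    have e : (aa γ * l2)⁻¹ * (2 * (|C| * lam) * Real.exp (γ * |C|) *
        (Real.exp (‖γ • vv [d]‖ ^ 2 / 2) * (2 * (2 * (|C| * lam)) / ‖vv B - vv [d]‖))) =
        lam * K * lam := by
      rw [hK]; ring
    rw [e]
    exact mul_le_mul_of_nonneg_right (by nlinarith) l0.le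

theorem it3 (hD : St_G1D) (hn : ∀ A, vv A ≠ 0) (Q : ℝ) (𝒞 : Finset ℝ) (y : ℝ) :
    ∀ᵐ x ∂ex 0, ∀ B, drift Q x y B ∉ 𝒞 := by
  rw [ae_all_iff]
  intro B
  have h1 : ∀ c : ℝ, ∀ᵐ x ∂ex 0, drift Q x y B ≠ c := by
    intro c
    have hm : MeasurableSet {x : Dy → ℝ | drift Q x y B = c} :=
      measurableSet_eq_fun (((measurable_pi_apply B).add_const _).sub_const _) measurable_const
    rw [ae_iff]
    simp only [ne_eq, not_not]
    have e : ex 0 {x : Dy → ℝ | drift Q x y B = c} =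
        gm ((fun (ω : Om) S => ω (vv S)) ⁻¹' {x : Dy → ℝ | drift Q x y B = c}) :=
      Measure.map_apply meas_fam hm
    rw [e]
    have h2 := hD.2.2.1 (vv B) (c - y + Q * B.length * l2) (c - y + Q * B.length * l2) (hn B)
    simp only [sub_self, zero_div, ENNReal.ofReal_zero, nonpos_iff_eq_zero] at h2
    refine measure_mono_null (fun ω hω => ?_) h2
    simp only [mem_preimage, mem_ofPred_eq, drift] at hω
    exact ⟨by linarith, by linarith⟩
  have h3 : ∀ᵐ x ∂ex 0, ∀ c ∈ 𝒞, drift Q x y B ≠ c :=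
    (Filter.eventually_all_finset 𝒞).2 fun c _ => h1 c
  filter_upwards [h3] with x hx hc
  exact hx _ hc rfl

theorem log_side (S : Dy) : Real.log (side S) = -(S.length * l2) := by
  unfold side l2
  rw [Real.log_pow, one_div, Real.log_inv]; ring

theorem it4 (hG1 : St_G1) (hD : St_G1D) (hE : St_EXP2) (h0 : Gram vv (covE 0))
    {γ : ℝ} (h : γ ∈ Ioo (0 : ℝ) 2) (ρ : ℝ) : ∃ K : ℝ, ∀ (B B' : Dy) (t : ℝ),
    B'.length ≤ B.length → ‖ctr B' - ctr B‖ ≤ ρ * side B' →
    4 ^ B.length * palm γ (fun y => ind (0 < y B ∧ y B' ≤ t)) ≤ ENNReal.ofReal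
      (K * Real.exp (aa γ * t - aa γ ^ 2 * ((B.length : ℝ) - B'.length) * l2 / 2)) := by
  have ha := aa_pos h
  have hq := QQ_pos h
  have hl := l2_pos
  have hg := h.1
  obtain ⟨C, hC0, -, -, hC, -⟩ := hE.2.2.2.2.2
  set L : ℝ := Real.log (max ρ 1) with hL
  set c0 : ℝ := QQ γ ^ 2 * C / 2 + aa γ * QQ γ * (L + C) + aa γ ^ 2 * C / 2 with hc0
  refine ⟨(aa γ * l2)⁻¹ * γ⁻¹ * Real.exp c0, fun B B' t hlen hd => ?_⟩
  have hs : ∀ S : Dy, 0 < side S := fun S => by unfold side; positivity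
  have hss : side B ≤ side B' := pow_le_pow_of_le_one (by norm_num) (by norm_num) hlen
  have k1 : ∀ S, kS S S ≤ S.length * l2 + C := fun S => by
    have := (abs_le.1 (hC S S)).2
    rw [sub_self, norm_zero, max_self, max_eq_right (hs S).le, log_side] at this
    linarith
  have k2 : B'.length * l2 - L - C ≤ kS B' B := by
    have h1 := (abs_le.1 (hC B' B)).1
    rw [max_eq_left hss] at h1
    have h2 : max ‖ctr B' - ctr B‖ (side B') ≤ max ρ 1 * side B' :=
      max_le (hd.trans (mul_le_mul_of_nonneg_right (le_max_left _ _) (hs _).le))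
        (le_mul_of_one_le_left (hs _).le (le_max_right _ _))
    have h3 := Real.log_le_log (lt_max_of_lt_right (hs B')) h2
    rw [Real.log_mul (lt_max_of_lt_right one_pos).ne' (hs _).ne', log_side] at h3
    linarith
  set g : HH := QQ γ • vv B - aa γ • vv B' with hgd
  have hn : ‖g‖ ^ 2 = QQ γ ^ 2 * kS B B - 2 * (aa γ * QQ γ) * kS B' B + aa γ ^ 2 * kS B' B' := by
    rw [← real_inner_self_eq_norm_sq, hgd]
    simp only [inner_sub_left, inner_sub_right, real_inner_smul_left, real_inner_smul_right]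
    rw [real_inner_comm (vv B') (vv B)]
    simp only [h0 _ _, covE, zero_add]
    ring
  have hm : Measurable fun y : Dy → ℝ => ind (0 < y B ∧ y B' ≤ t) :=
    meas_ind ((measurableSet_lt measurable_const (measurable_pi_apply _)).inter
      (measurableSet_le (measurable_pi_apply _) measurable_const))
  set s : ℝ := aa γ * t - QQ γ ^ 2 * B.length * l2 + aa γ * QQ γ * B'.length * l2 with hsd
  have hp := palm_le hG1 γ _ hm (fun ω => ENNReal.ofReal γ⁻¹ * eE s * eE (ω g)) fun ω => by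
    refine (tail γ (XX γ ω B) hg _ (aa γ * (t - XX γ ω B' + XX γ ω B))
      fun y hy => ⟨hy.1, mul_nonneg ha.le (by linarith [hy.1, hy.2])⟩).trans ?_
    rw [mul_assoc, ← eE_add]
    refine le_of_eq ?_
    congr 2
    simp only [hgd, hsd, XX, map_sub, map_smul, smul_eq_mul, aa]
    ring
  rw [lintegral_const_mul' _ _ (ENNReal.mul_ne_top ENNReal.ofReal_ne_top (eE_ne_top _)),
    hD.1, mul_assoc, ← eE_add] at hp
  refine (mul_le_mul_right hp _).trans ?_
  have e4 : (4 : ℝ≥0∞) ^ B.length = eE (2 * B.length * l2) := by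
    unfold eE l2
    rw [show 2 * (B.length : ℝ) * Real.log 2 = (2 * B.length : ℕ) * Real.log 2 by push_cast; ring,
      Real.exp_nat_mul, Real.exp_log two_pos, pow_mul, ENNReal.ofReal_pow (by norm_num)]
    norm_num
  rw [e4, mul_left_comm, mul_left_comm (eE _), ← eE_add, eE,
    ← ENNReal.ofReal_mul (by positivity), ← ENNReal.ofReal_mul (by positivity)]
  refine ENNReal.ofReal_le_ofReal ?_
  rw [mul_assoc _ (Real.exp c0), mul_assoc _ γ⁻¹, ← Real.exp_add]
  refine mul_le_mul_of_nonneg_left (mul_le_mul_of_nonneg_left (Real.exp_le_exp.2 ?_)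
    (by positivity)) (by positivity)
  have hQ : QQ γ ^ 2 = aa γ ^ 2 + 4 := by unfold aa QQ; field_simp; ring
  have m1 := mul_le_mul_of_nonneg_left (k1 B) (sq_nonneg (QQ γ))
  have m2 := mul_le_mul_of_nonneg_left (k1 B') (sq_nonneg (aa γ))
  have m3 := mul_le_mul_of_nonneg_left k2 (mul_pos ha hq).le
  have m4 : QQ γ ^ 2 * (B.length * l2) = (aa γ ^ 2 + 4) * (B.length * l2) := by rw [hQ]
  rw [hn, hsd, hc0]
  nlinarith

end PA

theorem blk_PA (hG1 : St_G1) (hG1D : St_G1D) (hG2 : St_G2) (_hG3 : St_G3) (hM0 : St_M0)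
    (hMOD : St_MOD) (hBMP : St_BMP) (hEXP2 : St_EXP2) (hGEO1 : St_GEO1) (_hT3 : St_T3)
    (_hR0 : St_R0) : St_PA := by
  obtain ⟨h0, h1, h2⟩ := PA.nz hM0 hMOD hBMP hGEO1
  intro γ h
  refine ⟨PA.it1 hG1 hG1D h, fun d B c C η => PA.it2 hG1 hG1D hG2 h2 h d B c C η,
    PA.it3 hG1D h1 _, PA.it4 hG1 hG1D hEXP2 h0 h, fun F hF hD hC => ⟨hF, hD, ?_⟩⟩
  obtain ⟨𝒞, hc⟩ := hC
  refine Eventually.of_forall fun y => ?_
  filter_upwards [PA.it3 hG1D h1 (QQ γ) 𝒞 y] with x hx
  exact hc _ hx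

end

end Pool.Agent.Lib.APPS
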