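import Pool.Agent.Lib.APPS.Blue3

/-!
Block PHI: the metric on sequences and the Lipschitz property of the tree functionals.
-/

namespace Pool.Agent.Lib.APPS

open MeasureTheory ProbabilityTheory Filter Topology Set Metric
open scoped NNReal ENNReal CompactlySupported Classical

noncomputable section

namespace PHI

theorem t0 (k : ℕ) (x : ℝ) : 0 ≤ (1 / 2 : ℝ) ^ k * min 1 |x| := by positivity

theorem t1 (k : ℕ) (x : ℝ) : (1 / 2 : ℝ) ^ k * min 1 |x| ≤ (1 / 2 : ℝ) ^ k :=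
  mul_le_of_le_one_right (by positivity) (min_le_left _ _)

theorem sm (s s' : ℕ → ℝ) : Summable fun k => (1 / 2 : ℝ) ^ k * min 1 |s k - s' k| :=
  Summable.of_nonneg_of_le (fun k => t0 k _) (fun k => t1 k _) summable_geometric_two

theorem d0 (s s' : ℕ → ℝ) : 0 ≤ dS s s' := tsum_nonneg fun k => t0 k _

theorem dall (s s' : ℕ → ℝ) (δ : ℝ) (h : ∀ k, min 1 |s k - s' k| ≤ δ) : dS s s' ≤ 2 * δ := by
  rw [← tsum_geometric_two, ← tsum_mul_right]
  exact (sm s s').tsum_le_tsum (fun k => mul_le_mul_of_nonneg_left (h k) (by positivity))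
    (summable_geometric_two.mul_right δ)

theorem dtri (s s' s'' : ℕ → ℝ) : dS s s'' ≤ dS s s' + dS s' s'' := by
  unfold dS
  rw [← (sm s s').tsum_add (sm s' s'')]
  refine (sm s s'').tsum_le_tsum (fun k => ?_) ((sm s s').add (sm s' s''))
  rw [← mul_add]
  refine mul_le_mul_of_nonneg_left ?_ (by positivity)
  have h1 := abs_sub_le (s k) (s' k) (s'' k)
  have h2 := abs_nonneg (s k - s' k)
  have h3 := abs_nonneg (s' k - s'' k)
  simp only [min_def]
  split_ifs <;> linarith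

theorem dfin (s s' : ℕ → ℝ) (k0 : ℕ) (δ : ℝ) (hδ : 0 ≤ δ) (h : ∀ k ≤ k0, |s k - s' k| ≤ δ) :
    dS s s' ≤ 2 * δ + (1 / 2 : ℝ) ^ k0 := by
  unfold dS
  rw [← (sm s s').sum_add_tsum_nat_add (k0 + 1)]
  refine add_le_add ?_ ?_
  · calc _ ≤ ∑ k ∈ Finset.range (k0 + 1), (1 / 2 : ℝ) ^ k * δ :=
          Finset.sum_le_sum fun k hk => mul_le_mul_of_nonneg_left ((min_le_right _ _).trans
            (h k (Nat.le_of_lt_succ (Finset.mem_range.1 hk)))) (by positivity)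
      _ ≤ _ := by
          rw [← Finset.sum_mul]
          exact mul_le_mul_of_nonneg_right (sum_geometric_two_le _) hδ
  · calc _ ≤ ∑' k : ℕ, (1 / 2 : ℝ) ^ k * (1 / 2 : ℝ) ^ (k0 + 1) :=
          ((summable_nat_add_iff (k0 + 1)).2 (sm s s')).tsum_le_tsum
            (fun k => (t1 _ _).trans (pow_add _ _ _).le) (summable_geometric_two.mul_right _)
      _ = _ := by rw [tsum_mul_right, tsum_geometric_two]; ring

theorem dcont (s : ℕ → ℝ) : Continuous fun s' => dS s' s :=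
  continuous_tsum (fun k => by fun_prop) summable_geometric_two fun k x => by
    rw [Real.norm_of_nonneg (t0 k _)]; exact t1 k _

theorem dself (s : ℕ → ℝ) : dS s s = 0 := by simp [dS]

theorem dlim (ss : ℕ → ℕ → ℝ) (s : ℕ → ℝ) : Tendsto (fun n => dS (ss n) s) atTop (𝓝 0) ↔
    ∀ k, Tendsto (fun n => ss n k) atTop (𝓝 (s k)) := by
  refine ⟨fun h k => ?_, fun h => ?_⟩
  · refine Metric.tendsto_nhds.2 fun ε hε => ?_
    have hp : 0 < (1 / 2 : ℝ) ^ k * min 1 ε := by positivity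
    filter_upwards [h.eventually (gt_mem_nhds hp)] with n hn
    have h1 := ((sm (ss n) s).le_tsum k fun j _ => t0 j _).trans_lt hn
    have h2 := lt_of_mul_lt_mul_left h1 (by positivity)
    rw [Real.dist_eq]
    by_contra h3
    exact absurd (min_le_min_left 1 (not_lt.1 h3)) (not_le.2 h2)
  · have := ((dcont s).tendsto s).comp (tendsto_pi_nhds.2 h)
    rwa [dself] at this

theorem gcont {Λ : ℝ} {G : (ℕ → ℝ) → ℝ} (h : LipG Λ G) : Continuous G := by
  refine continuous_iff_continuousAt.2 fun s => tendsto_iff_norm_sub_tendsto_zero.2 ?_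
  refine squeeze_zero (fun _ => norm_nonneg _) (fun s' => h.2 s' s) ?_
  have := ((dcont s).tendsto s).const_mul Λ
  rwa [dself, mul_zero] at this

/-- comparison of two normalised sums -/
theorem avg {S S' : Finset Dy} (hS : S ⊆ S') {N N' δ : ℝ} (hN : 0 < N) (h1 : (S.card : ℝ) ≤ N)
    (h2 : (S'.card : ℝ) - S.card = N' - N) {f f' : Dy → ℝ} (hδ : 0 ≤ δ)
    (hf : ∀ A ∈ S', |f' A| ≤ 1) (hd : ∀ A ∈ S, |f A - f' A| ≤ δ) :
    |N⁻¹ * ∑ A ∈ S, f A - N'⁻¹ * ∑ A ∈ S', f' A| ≤ δ + 2 * ((N' - N) / N') := by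
  have c1 : (S.card : ℝ) ≤ S'.card := by exact_mod_cast Finset.card_le_card hS
  have hN' : 0 < N' := by linarith
  have b : ∀ (U : Finset Dy) (g : Dy → ℝ) (c : ℝ), (∀ A ∈ U, |g A| ≤ c) →
      |∑ A ∈ U, g A| ≤ U.card * c := fun U g c h =>
    (Finset.abs_sum_le_sum_abs _ _).trans (by simpa using Finset.sum_le_card_nsmul U _ c h)
  have b1 := b S _ δ hd
  have b2 := b S f' 1 fun A hA => hf A (hS hA)
  have b3 := b (S' \ S) f' 1 fun A hA => hf A (Finset.mem_sdiff.1 hA).1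
  rw [Finset.cast_card_sdiff hS, h2, mul_one] at b3
  rw [Finset.sum_sub_distrib] at b1
  rw [← Finset.sum_sdiff hS]
  set x := ∑ A ∈ S, f A
  set y := ∑ A ∈ S, f' A
  set z := ∑ A ∈ S' \ S, f' A
  have e : N⁻¹ * x - N'⁻¹ * (z + y) = N⁻¹ * (x - y) + (N' - N) / N' * (N⁻¹ * y) - N'⁻¹ * z := by
    field_simp
    ring
  have hρ : 0 ≤ (N' - N) / N' := div_nonneg (by linarith) hN'.le
  have a1 : |N⁻¹ * (x - y)| ≤ δ := by
    rw [abs_mul, abs_of_pos (inv_pos.2 hN), inv_mul_le_iff₀ hN]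
    exact b1.trans (mul_le_mul_of_nonneg_right h1 hδ)
  have a2 : |(N' - N) / N' * (N⁻¹ * y)| ≤ (N' - N) / N' := by
    rw [abs_mul, abs_of_nonneg hρ]
    refine mul_le_of_le_one_right hρ ?_
    rw [abs_mul, abs_of_pos (inv_pos.2 hN), inv_mul_le_iff₀ hN]
    linarith
  have a3 : |N'⁻¹ * z| ≤ (N' - N) / N' := by
    rw [abs_mul, abs_of_pos (inv_pos.2 hN'), div_eq_inv_mul]
    exact mul_le_mul_of_nonneg_left b3 (inv_pos.2 hN').le
  rw [e]
  have a4 := abs_sub (N⁻¹ * (x - y) + (N' - N) / N' * (N⁻¹ * y)) (N'⁻¹ * z)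
  have a5 := abs_add_le (N⁻¹ * (x - y)) ((N' - N) / N' * (N⁻¹ * y))
  linarith

theorem wsum {w g : ℕ → ℝ} {c : ℝ} (h0 : ∀ j, 0 ≤ w j) (h1 : HasSum w 1) (hg : ∀ j, |g j| ≤ c) :
    Summable (fun j => w j * g j) ∧ |∑' j, w j * g j| ≤ c := by
  have b : ∀ j, ‖w j * g j‖ ≤ w j * c := fun j => by
    rw [Real.norm_eq_abs, abs_mul, abs_of_nonneg (h0 j)]
    exact mul_le_mul_of_nonneg_left (hg j) (h0 j)
  refine ⟨Summable.of_norm_bounded (h1.summable.mul_right c) b, ?_⟩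
  have := tsum_of_norm_bounded (h1.mul_right c) b
  rwa [one_mul] at this

def ww (R A : Dy) (j : ℕ) : ℝ := hat0 (toCyl (2 ^ j * (ctr A - ctr R)))

theorem ww0 (hC : St_CYL) (R A : Dy) (j : ℕ) : 0 ≤ ww R A j :=
  (hC.2.2.2.2.2.2.2.2.2.2.2.2.2.2.2.1 _).1

theorem ne0 (hG : St_GEO1) {R A : Dy} (h : A ≠ R) : ctr A - ctr R ≠ 0 :=
  sub_ne_zero.2 fun e => h (hG.2.2.2.2.2.2.1 e)

theorem ww1 (hC : St_CYL) (hG : St_GEO1) {R A : Dy} (h : A ≠ R) : HasSum (ww R A) 1 := by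
  refine hC.2.2.2.2.2.2.2.2.2.2.2.2.2.2.2.2.2.1 _ (ne0 hG h) ?_
  have m : ∀ B : Dy, ‖ctr B - ctr []‖ ≤ 3 / 4 := fun B => by
    have := (hG.2.2.2.1 []).2.2.2.1 _
      ((hG.2.2.2.2.1 B []).2 List.nil_suffix (hG.2.2.2.1 B).2.2.1)
    simpa [side] using this
  have := norm_sub_le_norm_sub_add_norm_sub (ctr A) (ctr []) (ctr R)
  rw [norm_sub_rev (ctr [])] at this
  linarith [m A, m R]

variable {tf : ℕ → C_c(Cyl, ℝ)}

theorem sR0 (h : IsTF tf) (T : Finset Dy) (R : Dy) (j : ℕ) :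
    sR tf T R j 0 = (T.card : ℝ)⁻¹ * ∑ A ∈ T.erase R, ww R A j := by
  simp only [sR, ww, h.zero]

theorem cardE {T : Finset Dy} {R : Dy} (hR : R ∈ T) :
    ((T.erase R).card : ℝ) = T.card - 1 := Finset.cast_card_erase_of_mem hR

theorem cpos {T : Finset Dy} {R : Dy} (hR : R ∈ T) : (1 : ℝ) ≤ T.card := by
  exact_mod_cast Finset.card_pos.2 ⟨R, hR⟩

theorem sR1 (hC : St_CYL) (hG : St_GEO1) (h : IsTF tf) {T : Finset Dy} {R : Dy} (hR : R ∈ T) :
    HasSum (fun j => sR tf T R j 0) (1 - (T.card : ℝ)⁻¹) := by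
  have := (hasSum_sum fun A (hA : A ∈ T.erase R) =>
    ww1 hC hG (Finset.ne_of_mem_erase hA)).mul_left (T.card : ℝ)⁻¹
  simp only [sR0 h]
  have e : 1 - (T.card : ℝ)⁻¹ = (T.card : ℝ)⁻¹ * ∑ _A ∈ T.erase R, (1 : ℝ) := by
    have := cpos hR
    rw [Finset.sum_const, nsmul_eq_mul, cardE hR]
    field_simp
  rw [e]
  exact this

theorem inner (hC : St_CYL) (hG : St_GEO1) (h : IsTF tf) (T : Finset Dy) (R : Dy) {g : ℕ → ℝ}
    (hg : ∀ j, |g j| ≤ 1) : ∑' j, sR tf T R j 0 * g j =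
      (T.card : ℝ)⁻¹ * ∑ A ∈ T.erase R, ∑' j, ww R A j * g j := by
  have := (hasSum_sum fun A (hA : A ∈ T.erase R) => (wsum (ww0 hC R A)
    (ww1 hC hG (Finset.ne_of_mem_erase hA)) hg).1.hasSum).mul_left (T.card : ℝ)⁻¹
  rw [← this.tsum_eq]
  refine tsum_congr fun j => ?_
  rw [sR0 h, mul_assoc, Finset.sum_mul]

theorem cls (hC : St_CYL) (hG : St_GEO1) (h : IsTF tf) {Λ : ℝ} {G : (ℕ → ℝ) → ℝ} (hΛ : 0 ≤ Λ)
    (hL : LipG Λ G) : Cls (4 * Λ + 4) (PhiG tf G) := by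
  have g1 : ∀ s, |G s| ≤ 1 := fun s => by rw [abs_of_nonneg (hL.1 s).1]; exact (hL.1 s).2
  have av : ∀ (S : Finset Dy) (N : ℝ) (f : Dy → ℝ), (S.card : ℝ) ≤ N → (∀ A ∈ S, |f A| ≤ 1) →
      |N⁻¹ * ∑ A ∈ S, f A| ≤ 1 := fun S N f h1 h2 => by
    have h3 : 0 ≤ N := (Nat.cast_nonneg _).trans h1
    rw [abs_mul, abs_of_nonneg (inv_nonneg.2 h3)]
    refine inv_mul_le_one_of_le₀ ((Finset.abs_sum_le_sum_abs _ _).trans ?_) h3
    exact le_trans (by simpa using Finset.sum_le_card_nsmul S _ 1 h2) h1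
  have f1 : ∀ T : Finset Dy, ∀ R ∈ T, |∑' j, sR tf T R j 0 * G (sR tf T R j)| ≤ 1 := by
    intro T R hR
    rw [inner hC hG h T R fun j => g1 _]
    exact av _ _ _ (by rw [cardE hR]; linarith) fun A hA =>
      (wsum (ww0 hC R A) (ww1 hC hG (Finset.ne_of_mem_erase hA)) fun j => g1 _).2
  have p1 : ∀ T, |PhiG tf G T| ≤ 1 := fun T => av _ _ _ le_rfl (f1 T)
  refine ⟨fun T => ⟨mul_nonneg (by positivity) (Finset.sum_nonneg fun R _ => tsum_nonneg
    fun j => mul_nonneg ?_ (hL.1 _).1), (le_abs_self _).trans (p1 T)⟩, fun T T' _ _ hT => ?_⟩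
  · rw [sR0 h]
    exact mul_nonneg (by positivity) (Finset.sum_nonneg fun A _ => ww0 hC R A j)
  rcases T.eq_empty_or_nonempty with rfl | ⟨R0, hR0⟩
  · rcases T'.eq_empty_or_nonempty with rfl | ⟨R0, hR0⟩
    · simp
    · have := cpos hR0
      have e : PhiG tf G ∅ = 0 := by simp [PhiG]
      rw [e, zero_sub, abs_neg, Finset.card_empty, Nat.cast_zero, sub_zero,
        mul_div_cancel_right₀ _ (by linarith)]
      linarith [p1 T']
  have hN : (0 : ℝ) < T.card := by linarith [cpos hR0]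
  have c1 : (T.card : ℝ) ≤ T'.card := by exact_mod_cast Finset.card_le_card hT
  set ρ : ℝ := ((T'.card : ℝ) - T.card) / T'.card with hρ
  have hρ0 : 0 ≤ ρ := div_nonneg (by linarith) (by linarith)
  have hΛρ : 0 ≤ Λ * (2 * (0 + 2 * ρ)) := by positivity
  have av2 : ∀ R ∈ T, ∀ (δ : ℝ) (f f' : Dy → ℝ), 0 ≤ δ → (∀ A ∈ T'.erase R, |f' A| ≤ 1) →
      (∀ A ∈ T.erase R, |f A - f' A| ≤ δ) → |(T.card : ℝ)⁻¹ * ∑ A ∈ T.erase R, f A -
        (T'.card : ℝ)⁻¹ * ∑ A ∈ T'.erase R, f' A| ≤ δ + 2 * ρ := fun R hR δ f f' a1 a2 a3 =>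
    avg (Finset.erase_subset_erase R hT) hN (by rw [cardE hR]; linarith)
      (by rw [cardE hR, cardE (hT hR)]; ring) a1 a2 a3
  have := avg hT hN le_rfl rfl (δ := Λ * (2 * (0 + 2 * ρ)) + 2 * ρ)
    (f := fun R => ∑' j, sR tf T R j 0 * G (sR tf T R j)) (by positivity) (f1 T') fun R hR => by
      rw [inner hC hG h T R fun j => g1 _, inner hC hG h T' R fun j => g1 _]
      refine av2 R hR _ _ _ hΛρ (fun A hA => (wsum (ww0 hC R A)
        (ww1 hC hG (Finset.ne_of_mem_erase hA)) fun j => g1 _).2) fun A hA => ?_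
      have w1 := ww1 hC hG (Finset.ne_of_mem_erase hA)
      rw [← (wsum (ww0 hC R A) w1 fun j => g1 _).1.tsum_sub (wsum (ww0 hC R A) w1 fun j => g1 _).1]
      simp only [← mul_sub]
      refine (wsum (ww0 hC R A) w1 fun j => (hL.2 _ _).trans (mul_le_mul_of_nonneg_left
        (dall _ _ _ fun k => (min_le_right _ _).trans ?_) hΛ)).2
      exact av2 R hR 0 _ _ le_rfl (fun A _ => h.bd _ _) fun A _ => by simp
  refine this.trans (le_of_eq ?_)
  rw [mul_div_assoc, ← hρ]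
  ring

end PHI

open PHI in
theorem blk_PHI (hC : St_CYL) (hG : St_GEO1) : St_PHI := by
  refine ⟨fun s s' => ⟨d0 s s', ?_, ?_, dself s⟩, dtri, dfin,
    fun s s' δ _ h => dall s s' δ fun k => (min_le_right _ _).trans (h k), dlim,
    fun Λ G h => ⟨gcont h, (gcont h).measurable⟩, ⟨fun s => by simp [one'], fun s s' => by
      simp [one']⟩, fun tf h => ⟨fun T R hR => ⟨fun j => ?_, ?_, sR1 hC hG h hR⟩,
      fun Λ G hΛ hL => cls hC hG h hΛ hL, fun T ⟨R0, hR0⟩ => ?_,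
      fun T => by simp [oneT], fun T T' _ _ _ => by simp [oneT]⟩⟩
  · simpa using dall s s' 1 fun k => min_le_left _ _
  · simp only [dS, abs_sub_comm]
  · rw [sR0 h]
    exact mul_nonneg (by positivity) (Finset.sum_nonneg fun A _ => ww0 hC R A j)
  · have e : ∀ᶠ j : ℕ in atTop, ∀ A ∈ T.erase R, ww R A j = 0 := by
      refine (Filter.eventually_all_finset _).2 fun A hA => ?_
      have n0 := ne0 hG (Finset.ne_of_mem_erase hA)
      have l := (tendsto_pow_atTop_nhds_zero_of_lt_one (r := (1 / 2 : ℝ)) (by norm_num)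
        (by norm_num)).const_mul 4
      rw [mul_zero] at l
      filter_upwards [l.eventually (gt_mem_nhds (norm_pos_iff.2 n0))] with j hj
      by_contra h0
      exact absurd (hC.2.2.2.2.2.2.2.2.2.2.2.2.2.2.2.2.2.2.1 _ j n0 h0).2 (not_lt.2 hj.le)
    obtain ⟨J, hJ⟩ := eventually_atTop.1 e
    exact ⟨J, fun j hj => by rw [sR0 h, Finset.sum_eq_zero (hJ j hj), mul_zero]⟩
  · have := cpos hR0
    simp only [PhiG, one', mul_one]
    rw [Finset.sum_congr rfl fun R hR => (sR1 hC hG h hR).tsum_eq, Finset.sum_const, nsmul_eq_mul]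
    field_simp

end

end Pool.Agent.Lib.APPS
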