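import Pool.Agent.Lib.APPS.Blue1

/-! Block POIN: Poincare inequalities on a dyadic square. -/

namespace Pool.Agent.Lib.APPS

open MeasureTheory ProbabilityTheory Filter Topology Set Metric
open scoped NNReal ENNReal RealInnerProductSpace

noncomputable section

namespace POIN

theorem intg {α : Type*} [MeasurableSpace α] (m : Measure α) [IsFiniteMeasure m] {f : α → ℝ}
    (hf : AEStronglyMeasurable f m) (B : ℝ) (hB : ∀ᵐ x ∂m, |f x| ≤ B) : Integrable f m :=
  Integrable.of_bound hf B (by simpa [Real.norm_eq_abs] using hB)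

theorem cs {α : Type*} [MeasurableSpace α] (m : Measure α) [IsFiniteMeasure m] {f : α → ℝ}
    (h1 : Integrable f m) (h2 : Integrable (fun x => f x ^ 2) m) {r : ℝ} (hr : 0 < r)
    (hm : m.real univ = r) : (∫ x, f x ∂m) ^ 2 ≤ r * ∫ x, f x ^ 2 ∂m := by
  set c := ∫ x, f x ∂m with hc
  have h0 : 0 ≤ ∫ x, (r * f x - c) ^ 2 ∂m := integral_nonneg fun x => sq_nonneg _
  have e : (fun x => (r * f x - c) ^ 2) = fun x => (r ^ 2 * f x ^ 2 - 2 * r * c * f x) + c ^ 2 := by
    funext x; ring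
  have i0 : Integrable (fun x => r ^ 2 * f x ^ 2 - 2 * r * c * f x) m :=
    (h2.const_mul _).sub (h1.const_mul _)
  rw [e, integral_add i0 (integrable_const _),
    integral_sub (h2.const_mul _) (h1.const_mul _), integral_const_mul, integral_const_mul,
    integral_const, hm, ← hc, smul_eq_mul] at h0
  have : r * c ^ 2 ≤ r * (r * ∫ x, f x ^ 2 ∂m) := by nlinarith
  exact le_of_mul_le_mul_left this hr

theorem core (μ ν : Measure ℝ) [IsFiniteMeasure μ] [IsFiniteMeasure ν] {s : ℝ} (hs : 0 < s)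
    (hμ : μ.real univ = s) (hν : ν.real univ = s) (I J : Set ℝ) (hI : ∀ᵐ t ∂μ, t ∈ I)
    (hJ : ∀ᵐ t ∂ν, t ∈ J) (F g : ℝ × ℝ → ℝ) (hF : Measurable F) (hg : Measurable g)
    (B : ℝ) (hFB : ∀ p ∈ I, ∀ q ∈ J, |F (p, q)| ≤ B) (K : ℝ) (hg0 : ∀ z, 0 ≤ g z)
    (hgK : ∀ z, g z ≤ K)
    (h1 : ∀ᵐ v ∂ν, ∀ p ∈ I, ∀ q ∈ I, |F (p, v) - F (q, v)| ≤ ∫ t, g (t, v) ∂μ)
    (h2 : ∀ᵐ u ∂μ, ∀ p ∈ J, ∀ q ∈ J, |F (u, p) - F (u, q)| ≤ ∫ t, g (u, t) ∂ν) :
    ∫ x, (F x - (1 / s ^ 2) * ∫ y, F y ∂μ.prod ν) ^ 2 ∂μ.prod ν ≤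
      4 * s ^ 2 * ∫ x, g x ^ 2 ∂μ.prod ν ∧
    ∫ x, |F x - (1 / s ^ 2) * ∫ y, F y ∂μ.prod ν| ∂μ.prod ν ≤
      4 * s * ∫ x, g x ∂μ.prod ν := by
  have hK : 0 ≤ K := (hg0 0).trans (hgK 0)
  have hπ : (μ.prod ν).real univ = s ^ 2 := by
    rw [← univ_prod_univ, Measure.real, Measure.prod_prod, ENNReal.toReal_mul]
    have a : (μ univ).toReal = s := hμ
    have b : (ν univ).toReal = s := hν
    rw [a, b, pow_two]
  have a1 : ∀ {P : ℝ → Prop}, (∀ᵐ t ∂μ, P t) → ∀ᵐ x ∂μ.prod ν, P x.1 := fun h =>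
    (Measure.quasiMeasurePreserving_fst (μ := μ) (ν := ν)).ae h
  have a2 : ∀ {P : ℝ → Prop}, (∀ᵐ t ∂ν, P t) → ∀ᵐ x ∂μ.prod ν, P x.2 := fun h =>
    (Measure.quasiMeasurePreserving_snd (μ := μ) (ν := ν)).ae h
  have hFi : Integrable F (μ.prod ν) := intg _ hF.aestronglyMeasurable B (by
    filter_upwards [a1 hI, a2 hJ] with x h h' using hFB _ h _ h')
  have habs : ∀ z, |g z| ≤ K := fun z => by rw [abs_of_nonneg (hg0 z)]; exact hgK z
  have habs2 : ∀ z, |g z ^ 2| ≤ K ^ 2 := fun z => by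
    rw [abs_of_nonneg (sq_nonneg _)]; exact pow_le_pow_left₀ (hg0 z) (hgK z) 2
  have hgi : Integrable g (μ.prod ν) := intg _ hg.aestronglyMeasurable K (ae_of_all _ habs)
  have hg2i : Integrable (fun x => g x ^ 2) (μ.prod ν) :=
    intg _ (hg.pow_const 2).aestronglyMeasurable (K ^ 2) (ae_of_all _ habs2)
  set G1 : ℝ → ℝ := fun v => ∫ t, g (t, v) ∂μ with hG1
  set G2 : ℝ → ℝ := fun u => ∫ t, g (u, t) ∂ν with hG2
  set T := ∫ x, g x ∂μ.prod ν with hT
  set T2 := ∫ x, g x ^ 2 ∂μ.prod ν with hT2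
  have hT0 : 0 ≤ T := integral_nonneg hg0
  have hG1i : Integrable G1 ν := hgi.integral_prod_right
  have hG2i : Integrable G2 μ := hgi.integral_prod_left
  have eG1 : ∫ v, G1 v ∂ν = T := (integral_prod_symm g hgi).symm
  have eG2 : ∫ u, G2 u ∂μ = T := (integral_prod g hgi).symm
  have hG2i' : Integrable (fun y : ℝ × ℝ => G2 y.1) (μ.prod ν) := hG2i.comp_fst ν
  have hG1i' : Integrable (fun y : ℝ × ℝ => G1 y.2) (μ.prod ν) := hG1i.comp_snd μ
  have key : ∀ᵐ x ∂μ.prod ν, |F x - (1 / s ^ 2) * ∫ y, F y ∂μ.prod ν| ≤ G1 x.2 + T / s := by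
    filter_upwards [a1 hI, a2 hJ, a2 h1] with x hx1 hx2 hx3
    have e : F x - (1 / s ^ 2) * ∫ y, F y ∂μ.prod ν =
        (1 / s ^ 2) * ∫ y, (F x - F y) ∂μ.prod ν := by
      rw [integral_sub (integrable_const _) hFi, integral_const, hπ, smul_eq_mul]
      field_simp
    have b : |∫ y, (F x - F y) ∂μ.prod ν| ≤ ∫ y, (G1 x.2 + G2 y.1) ∂μ.prod ν := by
      rw [← Real.norm_eq_abs]
      refine norm_integral_le_of_norm_le ((integrable_const _).add hG2i') ?_
      filter_upwards [a1 hI, a2 hJ, a1 h2] with y hy1 hy2 hy3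
      rw [Real.norm_eq_abs]
      have p1 := hx3 _ hx1 _ hy1
      have p2 := hy3 _ hx2 _ hy2
      have p3 := abs_sub_le (F (x.1, x.2)) (F (y.1, x.2)) (F (y.1, y.2))
      exact p3.trans (add_le_add p1 p2)
    rw [integral_add (integrable_const _) hG2i', integral_const, hπ, integral_fun_fst, hν, eG2,
      smul_eq_mul, smul_eq_mul] at b
    rw [e, abs_mul, abs_of_pos (by positivity)]
    calc 1 / s ^ 2 * |∫ y, (F x - F y) ∂μ.prod ν| ≤ 1 / s ^ 2 * (s ^ 2 * G1 x.2 + s * T) := by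
          gcongr
      _ = G1 x.2 + T / s := by field_simp
  have hsec : ∀ v, G1 v ^ 2 ≤ s * ∫ t, g (t, v) ^ 2 ∂μ := fun v =>
    cs μ (intg _ (hg.comp measurable_prodMk_right).aestronglyMeasurable K
      (ae_of_all _ fun t => habs _))
      (intg _ ((hg.comp measurable_prodMk_right).pow_const 2).aestronglyMeasurable (K ^ 2)
      (ae_of_all _ fun t => habs2 _)) hs hμ
  have hTT : T ^ 2 ≤ s ^ 2 * T2 := cs _ hgi hg2i (by positivity) hπ
  set H : ℝ → ℝ := fun v => ∫ t, g (t, v) ^ 2 ∂μ with hH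
  have hHi : Integrable H ν := hg2i.integral_prod_right
  have eH : ∫ v, H v ∂ν = T2 := (integral_prod_symm _ hg2i).symm
  have hHi' : Integrable (fun y : ℝ × ℝ => H y.2) (μ.prod ν) := hHi.comp_snd μ
  constructor
  · have b : ∫ x, (F x - (1 / s ^ 2) * ∫ y, F y ∂μ.prod ν) ^ 2 ∂μ.prod ν ≤
        ∫ x, (2 * s * H x.2 + 2 * T2) ∂μ.prod ν := by
      refine integral_mono_of_nonneg (ae_of_all _ fun x => sq_nonneg _)
        ((hHi'.const_mul _).add (integrable_const _)) ?_
      filter_upwards [key] with x hx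
      have c1 : (F x - (1 / s ^ 2) * ∫ y, F y ∂μ.prod ν) ^ 2 ≤ (G1 x.2 + T / s) ^ 2 := by
        rw [← sq_abs]; exact pow_le_pow_left₀ (abs_nonneg _) hx 2
      have c2 := hsec x.2
      have c3 : (T / s) ^ 2 ≤ T2 := by
        rw [div_pow, div_le_iff₀ (by positivity)]; linarith
      nlinarith [sq_nonneg (G1 x.2 - T / s)]
    rw [integral_add (hHi'.const_mul _) (integrable_const _), integral_const_mul, integral_const,
      hπ, integral_fun_snd, hμ, eH, smul_eq_mul, smul_eq_mul] at b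
    nlinarith
  · have b : ∫ x, |F x - (1 / s ^ 2) * ∫ y, F y ∂μ.prod ν| ∂μ.prod ν ≤
        ∫ x, (G1 x.2 + T / s) ∂μ.prod ν :=
      integral_mono_of_nonneg (ae_of_all _ fun x => abs_nonneg _)
        (hG1i'.add (integrable_const _)) key
    rw [integral_add hG1i' (integrable_const _), integral_const,
      hπ, integral_fun_snd, hμ, eG1, smul_eq_mul, smul_eq_mul] at b
    have e : s ^ 2 * (T / s) = s * T := by field_simp
    rw [e] at b
    nlinarith [mul_nonneg hs.le hT0]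

theorem line (φ : ℂ → ℝ) (K : ℝ≥0) (hφ : LipschitzWith K φ) (c w : ℂ) (hw : ‖w‖ = 1)
    (hd : ∀ᵐ t : ℝ, DifferentiableAt ℝ φ (c + t • w)) (a b : ℝ) (p : ℝ) (hp : p ∈ Icc a b)
    (q : ℝ) (hq : q ∈ Icc a b) :
    |φ (c + p • w) - φ (c + q • w)| ≤ ∫ t in Icc a b, ‖gradient φ (c + t • w)‖ := by
  have hl : LipschitzWith 1 (fun t : ℝ => c + t • w) := by
    refine LipschitzWith.of_dist_le_mul fun x y => ?_
    rw [dist_add_left, dist_eq_norm, ← sub_smul, norm_smul, hw, dist_eq_norm]; simp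
  have hf : LipschitzWith (K * 1) (fun t : ℝ => φ (c + t • w)) := hφ.comp hl
  have hac : AbsolutelyContinuousOnInterval (fun t : ℝ => φ (c + t • w)) q p :=
    hf.lipschitzOnWith.absolutelyContinuousOnInterval
  have ng : ∀ x, ‖gradient φ x‖ = ‖fderiv ℝ φ x‖ := fun x => by
    rw [← toDual_gradient, LinearIsometryEquiv.norm_map]
  have hm : Measurable fun t : ℝ => ‖gradient φ (c + t • w)‖ := by
    simp_rw [ng]
    exact ((measurable_fderiv ℝ φ).comp hl.continuous.measurable).norm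
  have hi : IntegrableOn (fun t : ℝ => ‖gradient φ (c + t • w)‖) (Icc a b) :=
    intg _ hm.aestronglyMeasurable K (ae_of_all _ fun t => by
      rw [abs_norm, ng]; exact norm_fderiv_le_of_lipschitz ℝ hφ)
  have hsub : uIoc q p ⊆ Icc a b :=
    uIoc_subset_uIcc.trans (uIcc_subset_Icc hq hp)
  rw [← hac.integral_deriv_eq_sub, ← Real.norm_eq_abs]
  refine intervalIntegral.norm_integral_le_integral_norm_uIoc.trans ?_
  refine le_trans ?_ (setIntegral_mono_set hi (ae_of_all _ fun t => norm_nonneg _)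
    (LE.le.eventuallyLE hsub))
  refine integral_mono_of_nonneg (ae_of_all _ fun t => norm_nonneg _) (hi.mono_set hsub) ?_
  filter_upwards [ae_restrict_of_ae hd] with t ht
  have h1 : HasDerivAt (fun t : ℝ => c + t • w) w t := by
    simpa using ((hasDerivAt_id t).smul_const w).const_add c
  have h2 := ht.hasFDerivAt.comp_hasDerivAt t h1
  have h3 : deriv (fun t : ℝ => φ (c + t • w)) t = fderiv ℝ φ (c + t • w) w := h2.deriv
  rw [h3, ng]
  simpa [hw] using (fderiv ℝ φ (c + t • w)).le_opNorm w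

end POIN

theorem blk_POIN (hG : St_GEO1) (_h : St_EXP2) : St_POIN := by
  refine ⟨4, fun S φ K hφ => ?_⟩
  have hs : 0 < side S := (hG.1 S).1
  set s := side S with hsd
  set I : Set ℝ := Icc (corner S).re ((corner S).re + s) with hI
  set J : Set ℝ := Icc (corner S).im ((corner S).im + s) with hJ
  let e := Complex.measurableEquivRealProd.symm
  have he : MeasurePreserving e volume volume := Complex.volume_preserving_equiv_real_prod.symm _
  have hpre : e ⁻¹' box S = I ×ˢ J := rfl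
  have hint : ∀ f : ℂ → ℝ, ∫ x in box S, f x =
      ∫ x, f (e x) ∂(volume.restrict I).prod (volume.restrict J) := fun f => by
    rw [← he.setIntegral_preimage_emb e.measurableEmbedding, hpre, Measure.prod_restrict]; rfl
  have hu : ∫ y, φ y ∂unif S =
      (1 / s ^ 2) * ∫ x, φ (e x) ∂(volume.restrict I).prod (volume.restrict J) := by
    rw [unif, integral_smul_measure, ENNReal.toReal_ofReal (by positivity), hint, smul_eq_mul]
  have ng : ∀ x, ‖gradient φ x‖ = ‖fderiv ℝ φ x‖ := fun x => by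
    rw [← toDual_gradient, LinearIsometryEquiv.norm_map]
  have hd : ∀ᵐ x ∂(volume : Measure ℝ).prod (volume : Measure ℝ), DifferentiableAt ℝ φ (e x) :=
    he.quasiMeasurePreserving.ae (hφ.ae_differentiableAt (μ := volume))
  have hd1 := Measure.ae_ae_of_ae_prod hd
  have hd2 := Measure.ae_ae_of_ae_prod (Measure.measurePreserving_swap.quasiMeasurePreserving.ae hd)
  have e1 : ∀ t v : ℝ, e (t, v) = (v : ℂ) * Complex.I + t • (1 : ℂ) := fun t v => by
    apply Complex.ext <;> simp [e]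
  have e2 : ∀ t v : ℝ, e (t, v) = (t : ℂ) + v • Complex.I := fun t v => by
    apply Complex.ext <;> simp [e]
  obtain ⟨B, hB⟩ := (hG.2.2.2.1 S).1.exists_bound_of_continuousOn hφ.continuous.continuousOn
  have := POIN.core (volume.restrict I) (volume.restrict J) hs (by simp [hI, hs.le])
    (by simp [hJ, hs.le]) I J (ae_restrict_mem measurableSet_Icc)
    (ae_restrict_mem measurableSet_Icc) (fun x => φ (e x)) (fun x => ‖gradient φ (e x)‖)
    (hφ.continuous.measurable.comp e.measurable)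
    (by simp_rw [ng]; exact ((measurable_fderiv ℝ φ).comp e.measurable).norm) B
    (fun p hp q hq => hB (e (p, q)) ⟨hp, hq⟩) K (fun z => norm_nonneg _)
    (fun z => by rw [ng]; exact norm_fderiv_le_of_lipschitz ℝ hφ)
    (by
      filter_upwards [ae_restrict_of_ae hd2] with v hv p hp q hq
      simp_rw [Prod.swap_prod_mk, e1] at hv ⊢
      exact POIN.line φ K hφ _ 1 norm_one hv _ _ p hp q hq)
    (by
      filter_upwards [ae_restrict_of_ae hd1] with v hv p hp q hq
      simp_rw [e2] at hv ⊢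
      exact POIN.line φ K hφ _ Complex.I Complex.norm_I hv _ _ p hp q hq)
  rw [hu, hint, hint, hint, hint]
  exact this

end

end Pool.Agent.Lib.APPS
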