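import Pool.Agent.Lib.APPS.B_POSa

/-!
Block POS: the intensity of leaves near the threshold is bounded below.
-/

namespace Pool.Agent.Lib.APPS

open MeasureTheory ProbabilityTheory Filter Topology Set Metric
open scoped NNReal ENNReal CompactlySupported BoundedContinuousFunction RealInnerProductSpace
  Classical

noncomputable section

namespace POS

def Pp : II → Dy
  | none => [(1, 0)]
  | some c => [c, (0, 0)]

def Nn : II → Dy
  | none => [(1, 1)]
  | some c => [c, (0, 1)]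

theorem PP_inc : ∀ i j : II, i ≠ j → ¬Pp i <:+ Pp j := by decide
theorem NN_inc : ∀ i j : II, i ≠ j → ¬Nn i <:+ Nn j := by decide
theorem PN_inc : ∀ i j : II, ¬Pp i <:+ Nn j := by decide
theorem NP_inc : ∀ i j : II, ¬Nn i <:+ Pp j := by decide
theorem len_eq : ∀ i : II, (Nn i).length = (Pp i).length := by decide
theorem len_le : ∀ i : II, (Pp i).length ≤ 2 := by decide

theorem inc_app {S S' : Dy} (A : Dy) (h : ¬S <:+ S') : ¬S ++ A <:+ S' ++ A :=
  fun h' => h (List.suffix_append_self_iff.1 h')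

def av (M : Model) (E : ℝ) (A : Dy) (i : II) : HH :=
  (Real.sqrt (2 * E))⁻¹ • (M.ub (Pp i ++ A) - M.ub (Nn i ++ A))

/-- the properties of the resampling directions -/
structure Dir (M : Model) (β : ℝ) (a : Dy → II → HH) : Prop where
  pos : 0 < β
  on : ∀ A, Orthonormal ℝ (a A)
  anc : ∀ A B i, B <:+ A → ⟪a A i, M.eS B⟫ = 0
  own : ∀ A i j, ⟪a A i, M.eS (Pp j ++ A)⟫ = if i = j then β else 0

theorem exists_dir (hBMP : St_BMP) (M : Model) (hM : ∀ S, box S ⊆ M.O) :
    ∃ β a, Dir M β a := by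
  obtain ⟨hb, E, C, hE, -, -, H⟩ := hBMP
  obtain ⟨-, h2, h3, -, h5, -⟩ := H M
  have hs : 0 < Real.sqrt (2 * E) := Real.sqrt_pos.2 (by positivity)
  have hss : Real.sqrt (2 * E) * Real.sqrt (2 * E) = 2 * E := Real.mul_self_sqrt (by positivity)
  refine ⟨(Real.sqrt (2 * E))⁻¹ * bb, av M E, by positivity, fun A => ?_, fun A B i hB => ?_,
    fun A i j => ?_⟩
  · rw [orthonormal_iff_ite]
    intro i j
    have e1 := (h3 _ _ (inc_app A (PN_inc i j)) (inc_app A (NP_inc j i))).1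
    have e2 := (h3 _ _ (inc_app A (NP_inc i j)) (inc_app A (PN_inc j i))).1
    simp only [av, real_inner_smul_left, real_inner_smul_right, inner_sub_left, inner_sub_right,
      e1, e2]
    by_cases hij : i = j
    · subst hij
      rw [if_pos rfl, real_inner_self_eq_norm_sq, real_inner_self_eq_norm_sq, h2, h2]
      field_simp
      nlinarith
    · rw [if_neg hij, (h3 _ _ (inc_app A (PP_inc i j hij)) (inc_app A (PP_inc j i (Ne.symm hij)))).1,
        (h3 _ _ (inc_app A (NN_inc i j hij)) (inc_app A (NN_inc j i (Ne.symm hij)))).1]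
      simp
  · have e1 := h5 (Pp i ++ A) B (hM _) (hB.trans (List.suffix_append _ _))
    have e2 := h5 (Nn i ++ A) B (hM _) (hB.trans (List.suffix_append _ _))
    have e3 : side (Nn i ++ A) = side (Pp i ++ A) := by
      simp only [side, List.length_append, len_eq]
    simp only [av, real_inner_smul_left, inner_sub_left, e1, e2, e3, sub_self, mul_zero]
  · have e2 := (h3 _ _ (inc_app A (NP_inc i j)) (inc_app A (PN_inc j i))).2 (hM _)
    simp only [av, real_inner_smul_left, inner_sub_left, e2, sub_zero]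
    by_cases hij : i = j
    · subst hij
      have hp : side (Pp i ++ A) ≠ 0 := by unfold side; positivity
      rw [if_pos rfl, h5 _ _ (hM _) List.suffix_rfl, div_self hp]
      ring
    · rw [if_neg hij,
        (h3 _ _ (inc_app A (PP_inc i j hij)) (inc_app A (PP_inc j i (Ne.symm hij)))).2 (hM _),
        mul_zero]

theorem vt_nonneg (t : ℝ) : 0 ≤ vt t := le_min zero_le_one (le_max_left _ _)
theorem vt_le (t : ℝ) : vt t ≤ 1 := min_le_left _ _
theorem vt_one {t : ℝ} (h : t ≤ -1) : vt t = 1 :=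
  min_eq_left (le_max_of_le_right (by linarith))
theorem vt_meas : Measurable vt := by unfold vt; fun_prop
theorem indR_nonneg (p : Prop) : 0 ≤ indR p := by unfold indR; split_ifs <;> norm_num
theorem indR_le (p : Prop) : indR p ≤ 1 := by unfold indR; split_ifs <;> norm_num

theorem term_bd (lam : ℝ) (y : Dy → ℝ) (d : D2) :
    0 ≤ indR (y [d] ∈ Ioc (-lam) 0) * vt (y (sib [d])) * ∏ c : D2, vt (y [c, d]) ∧
    indR (y [d] ∈ Ioc (-lam) 0) * vt (y (sib [d])) * ∏ c : D2, vt (y [c, d]) ≤ 1 := by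
  have h1 : 0 ≤ ∏ c : D2, vt (y [c, d]) := Finset.prod_nonneg fun c _ => vt_nonneg _
  have h2 : ∏ c : D2, vt (y [c, d]) ≤ 1 :=
    Finset.prod_le_one (fun c _ => vt_nonneg _) fun c _ => vt_le _
  refine ⟨mul_nonneg (mul_nonneg (indR_nonneg _) (vt_nonneg _)) h1, ?_⟩
  exact mul_le_one₀ (mul_le_one₀ (indR_le _) (vt_nonneg _) (vt_le _)) h1 h2

theorem Fm_bdd (hT3 : St_T3) {lam : ℝ} (hlam : 0 < lam) : BddM (Fm lam) := by
  refine ⟨?_, lam⁻¹ * 4, fun y => ⟨?_, ?_⟩⟩
  · unfold Fm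
    refine Measurable.const_mul (Finset.measurable_sum _ fun d _ => ?_) _
    refine Measurable.mul (Measurable.mul ?_ (vt_meas.comp (measurable_pi_apply _)))
      (Finset.measurable_prod _ fun c _ => vt_meas.comp (measurable_pi_apply _))
    exact (hT3.2.2.2.2.2.2.2.2.2.2.2.1 (Dy → ℝ) (fun y => y [d] ∈ Ioc (-lam) 0)
      (measurableSet_Ioc.preimage (measurable_pi_apply _))).2
  · exact mul_nonneg (by positivity) (Finset.sum_nonneg fun d _ => (term_bd lam y d).1)
  · refine mul_le_mul_of_nonneg_left ?_ (by positivity)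
    refine (Finset.sum_le_sum fun d _ => (term_bd lam y d).2).trans ?_
    simp

theorem Fm_ge (hMOD : St_MOD) (M : Model) (γ u : ℝ) {lam : ℝ} (hlam : 0 < lam) (A : Dy) (ω : Om)
    (h : Ev (QQ γ * l2) lam fun i => M.X γ u ω (Pp i ++ A)) :
    lam⁻¹ ≤ Fm lam (sub (M.X γ u ω) A) := by
  obtain ⟨h1, h2⟩ := h
  have h13 := (hMOD M).2.2.2.2.2.2.2.2.2.2.2.2.1 ((0, 0) :: A)
  have e : M.X γ u ω ((0, 0) :: A) =
      (∑ c : D2, M.X γ u ω (Pp (some c) ++ A)) / 4 + QQ γ * l2 := by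
    simp only [Model.X, drift, Pp, List.cons_append, List.nil_append, List.length_cons]
    rw [h13, map_sum]
    simp only [map_smul, smul_eq_mul, Fintype.sum_prod_type, Fin.sum_univ_two]
    push_cast
    ring
  rw [← e] at h2
  unfold Fm
  refine le_mul_of_one_le_right (by positivity) ?_
  refine le_trans ?_ (Finset.single_le_sum (fun d _ => (term_bd lam _ d).1)
    (Finset.mem_univ ((0, 0) : D2)))
  have a1 : indR (sub (M.X γ u ω) A [(0, 0)] ∈ Ioc (-lam) 0) = 1 := if_pos h2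
  have a2 : vt (sub (M.X γ u ω) A (sib [(0, 0)])) = 1 := vt_one (h1 none)
  have a3 : ∏ c : D2, vt (sub (M.X γ u ω) A [c, (0, 0)]) = 1 :=
    Finset.prod_eq_one fun c _ => vt_one (h1 (some c))
  rw [a1, a2, a3]
  norm_num

/-- the frozen part of the five values -/
def rr (M : Model) (β : ℝ) (a : Dy → II → HH) (γ u : ℝ) (A : Dy) (ω : Om) (i : II) : ℝ :=
  M.X γ u ω (Pp i ++ A) - β * ω (a A i)

theorem X_shift (M : Model) (γ u : ℝ) (ω : Om) (t : II → ℝ) (a : II → HH) (S : Dy) :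
    M.X γ u (ω + ∑ i, t i • dv (a i)) S = M.X γ u ω S + ∑ i, t i * ⟪a i, M.eS S⟫ := by
  simp only [Model.X, drift, LinearMap.add_apply, LinearMap.sum_apply, LinearMap.smul_apply,
    dv_apply, smul_eq_mul]
  ring

theorem node_lb (hG2 : St_G2) (hMOD : St_MOD) (hT3 : St_T3) (M : Model) {β : ℝ}
    {a : Dy → II → HH} (hd : Dir M β a) {γ : ℝ} (hq : 13 / 10 ≤ QQ γ * l2) (L : ℝ) :
    ∃ c > 0, ∀ lam ∈ Ioc (0 : ℝ) 1, ∀ (u : ℝ) (A : Dy),
      ENNReal.ofReal c * gm {ω | IntN (M.X γ u ω) A ∧ ∀ i, |rr M β a γ u A ω i| ≤ L} ≤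
        ∫⁻ ω, ind (IntN (M.X γ u ω) A) * ENNReal.ofReal (Fm lam (sub (M.X γ u ω) A)) ∂gm := by
  obtain ⟨c, hc, hg⟩ := g5 L β (QQ γ * l2) hd.pos hq
  refine ⟨c, hc, fun lam hlam u A => ?_⟩
  have hX : Measurable (M.X γ u) := (hT3.2.2.2.2.2.2.2.2.2.2.1 M γ u).1
  have hI : MeasurableSet {ω | IntN (M.X γ u ω) A} := ((hT3.2.1 A).1).preimage hX
  have hf : Measurable fun ω => ind (IntN (M.X γ u ω) A) *
      ENNReal.ofReal (Fm lam (sub (M.X γ u ω) A)) :=
    (hT3.2.2.2.2.2.2.2.2.2.2.2.1 Om _ hI).1.mul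
      ((Fm_bdd hT3 hlam.1).1.comp ((hT3.2.2.2.2.1 A).comp hX)).ennreal_ofReal
  have hG : MeasurableSet {ω | IntN (M.X γ u ω) A ∧ ∀ i, |rr M β a γ u A ω i| ≤ L} := by
    refine hI.inter (s₂ := {ω | ∀ i, |rr M β a γ u A ω i| ≤ L}) ?_
    rw [setOf_forall]
    refine MeasurableSet.iInter fun i => measurableSet_le ?_ measurable_const
    exact continuous_abs.measurable.comp
      (((measurable_pi_apply _).comp hX).sub ((meas_ev _).const_mul _))
  rw [hG2.2.2.1 II (a A) (hd.on A) _ hf, ← lintegral_indicator_const hG]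
  refine lintegral_mono fun ω => ?_
  by_cases hω : IntN (M.X γ u ω) A ∧ ∀ i, |rr M β a γ u A ω i| ≤ L
  swap
  · rw [indicator_of_notMem (by exact hω)]
    exact zero_le
  rw [indicator_of_mem (by exact hω)]
  have hS : MeasurableSet {ξ : II → ℝ | Ev (QQ γ * l2) lam
      fun i => rr M β a γ u A ω i + β * ξ i} :=
    (meas_Ev _ lam).preimage (f := fun (ξ : II → ℝ) i => rr M β a γ u A ω i + β * ξ i)
      (by fun_prop)
  calc ENNReal.ofReal c = ENNReal.ofReal lam⁻¹ * ENNReal.ofReal (c * lam) := by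
        rw [← ENNReal.ofReal_mul (by have := hlam.1; positivity)]
        congr 1
        have := hlam.1.ne'
        field_simp
    _ ≤ ENNReal.ofReal lam⁻¹ * _ := mul_le_mul_right (hg lam hlam _ hω.2) _
    _ ≤ _ := by
        rw [← lintegral_indicator_const hS]
        refine lintegral_mono fun ξ => ?_
        by_cases hξ : Ev (QQ γ * l2) lam fun i => rr M β a γ u A ω i + β * ξ i
        swap
        · rw [indicator_of_notMem (by exact hξ)]
          exact zero_le
        rw [indicator_of_mem (by exact hξ)]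
        have e1 : IntN (M.X γ u (ω + ∑ i, (ξ i - ω (a A i)) • dv (a A i))) A := by
          intro B hB
          rw [X_shift]
          simp only [hd.anc A B _ hB, mul_zero, Finset.sum_const_zero, add_zero]
          exact hω.1 B hB
        have e2 : (fun i => rr M β a γ u A ω i + β * ξ i) = fun i =>
            M.X γ u (ω + ∑ i, (ξ i - ω (a A i)) • dv (a A i)) (Pp i ++ A) := by
          funext i
          rw [X_shift]
          simp only [hd.own, mul_ite, mul_zero, Finset.sum_ite_eq', Finset.mem_univ, if_true, rr]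
          ring
        rw [e2] at hξ
        have e3 := Fm_ge hMOD M γ u hlam.1 A _ hξ
        simp only [ind, if_pos e1, one_mul]
        exact ENNReal.ofReal_le_ofReal e3

theorem bad_ub (hEXP2 : St_EXP2) (hFM : St_FM) (M : Model) (hG : Gram M.eS (covE 0)) {β : ℝ}
    {a : Dy → II → HH} (hd : Dir M β a) {γ : ℝ} (hγ : γ ∈ Ioo (0 : ℝ) 2)
    (hq : 0 ≤ QQ γ * l2) : ∃ K ≥ 0, ∀ L u : ℝ,
      ∑' A : Dy, gm {ω | IntN (M.X γ u ω) A ∧ ¬∀ i, |rr M β a γ u A ω i| ≤ L} ≤
        ENNReal.ofReal (K * Real.exp (-γ * L) * Real.exp (γ * u)) := by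
  obtain ⟨K, c, -, hK⟩ := (hFM γ hγ).1
  obtain ⟨C, hC⟩ := Finite.exists_le
    (fun i : II => |kS (Pp i) (Pp i)| + 4 * |kS [] (Pp i)| + 4 * |kS [] []|)
  have hC0 : 0 ≤ C := le_trans (by positivity) (hC none)
  have k2 := hEXP2.2.1
  have g1 : ∀ A i, ‖M.eS (Pp i ++ A)‖ ^ 2 = kS (Pp i) (Pp i) + A.length * l2 := by
    intro A i
    rw [← real_inner_self_eq_norm_sq, hG, covE, k2, zero_add]
  have g2 : ∀ A : Dy, ‖M.eS A‖ ^ 2 = kS [] [] + A.length * l2 := by
    intro A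
    have := k2 [] [] A
    simp only [List.nil_append] at this
    rw [← real_inner_self_eq_norm_sq, hG, covE, this, zero_add]
  have g3 : ∀ A i, ⟪M.eS A, M.eS (Pp i ++ A)⟫ = kS [] (Pp i) + A.length * l2 := by
    intro A i
    have := k2 [] (Pp i) A
    simp only [List.nil_append] at this
    rw [hG, covE, this, zero_add]
  have g4 : ∀ A i, ‖a A i‖ = 1 := fun A i => (hd.on A).1 i
  have g5 : ∀ A i, ⟪M.eS (Pp i ++ A), a A i⟫ = β := by
    intro A i
    rw [real_inner_comm, hd.own, if_pos rfl]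
  have g6 : ∀ A i, ⟪M.eS A, a A i⟫ = 0 := by
    intro A i
    rw [real_inner_comm, hd.anc A A i List.suffix_rfl]
  let v : II → Dy → HH := fun i A => M.eS (Pp i ++ A) - β • a A i
  let w : II → Dy → HH := fun i A => (2 : ℝ) • M.eS A - v i A
  have nv : ∀ i A, ‖v i A‖ ^ 2 = kS (Pp i) (Pp i) + A.length * l2 - β ^ 2 := by
    intro i A
    simp only [v]
    rw [norm_sub_sq_real, g1, real_inner_smul_right, g5, norm_smul, g4, Real.norm_eq_abs, mul_one,
      sq_abs]
    ring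
  have hv : ∀ i A, ‖v i A‖ ^ 2 ≤ C + A.length * l2 := by
    intro i A
    have := hC i
    have := le_abs_self (kS (Pp i) (Pp i))
    have := abs_nonneg (kS [] (Pp i))
    have := abs_nonneg (kS [] [])
    rw [nv]
    nlinarith [sq_nonneg β]
  have hw : ∀ i A, ‖w i A‖ ^ 2 ≤ C + A.length * l2 := by
    intro i A
    have := hC i
    have := le_abs_self (kS (Pp i) (Pp i))
    have := neg_abs_le (kS [] (Pp i))
    have := le_abs_self (kS [] [])
    have e : ⟪(2 : ℝ) • M.eS A, v i A⟫ = 2 * (kS [] (Pp i) + A.length * l2) := by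
      simp only [v]
      rw [real_inner_smul_left, inner_sub_right, real_inner_smul_right, g3, g6]
      ring
    simp only [w]
    rw [norm_sub_sq_real, nv, e, norm_smul, mul_pow, g2, Real.norm_eq_abs, sq_abs]
    nlinarith [sq_nonneg β]
  set K' : ℝ := |K| * Real.exp (γ * (2 * (QQ γ * l2)) + γ ^ 2 * C / 2) with hK'
  refine ⟨10 * K', by positivity, fun L u => ?_⟩
  set u' : ℝ := u - L + 2 * (QQ γ * l2) with hu'
  have hb : ∀ z : Dy → HH, (∀ A, ‖z A‖ ^ 2 ≤ C + A.length * l2) →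
      ∑' A : Dy, gm {ω | 0 < drift (QQ γ) (fun S => ω (z S)) u' A} ≤
        ENNReal.ofReal (K' * Real.exp (-γ * L) * Real.exp (γ * u)) := by
    intro z hz
    refine (hK C hC0 z hz u').1.trans (ENNReal.ofReal_le_ofReal ?_)
    rw [hK', mul_assoc, mul_assoc, ← Real.exp_add, ← Real.exp_add]
    refine mul_le_mul (le_abs_self _) (le_of_eq ?_) (by positivity) (abs_nonneg _)
    congr 1
    rw [hu']
    ring
  have hsub : ∀ A : Dy, gm {ω | IntN (M.X γ u ω) A ∧ ¬∀ i, |rr M β a γ u A ω i| ≤ L} ≤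
      ∑ i : II, (gm {ω | 0 < drift (QQ γ) (fun S => ω (v i S)) u' A} +
        gm {ω | 0 < drift (QQ γ) (fun S => ω (w i S)) u' A}) := by
    intro A
    refine le_trans (measure_mono ?_) ((measure_iUnion_fintype_le gm fun i : II =>
      {ω : Om | 0 < drift (QQ γ) (fun S => ω (v i S)) u' A} ∪
        {ω : Om | 0 < drift (QQ γ) (fun S => ω (w i S)) u' A}).trans
      (Finset.sum_le_sum fun i _ => measure_union_le _ _))
    rintro ω ⟨h1, h2⟩
    push Not at h2
    obtain ⟨i, hi⟩ := h2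
    refine mem_iUnion.2 ⟨i, ?_⟩
    have h0 := h1 A List.suffix_rfl
    have hl : (0 : ℝ) ≤ (Pp i).length ∧ ((Pp i).length : ℝ) ≤ 2 :=
      ⟨Nat.cast_nonneg _, by exact_mod_cast len_le i⟩
    have p1 := mul_nonneg hq hl.1
    have p2 := mul_le_mul_of_nonneg_left hl.2 hq
    simp only [rr, Model.X, drift, List.length_append, Nat.cast_add] at hi h0
    simp only [mem_union, mem_setOf_eq, drift, v, w, map_sub, map_smul, smul_eq_mul, hu']
    rcases lt_abs.1 hi with h | h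
    · left; nlinarith
    · right; nlinarith
  refine (ENNReal.tsum_le_tsum hsub).trans ?_
  rw [Summable.tsum_finsetSum fun _ _ => ENNReal.summable]
  calc ∑ i : II, ∑' A : Dy, (gm {ω | 0 < drift (QQ γ) (fun S => ω (v i S)) u' A} +
        gm {ω | 0 < drift (QQ γ) (fun S => ω (w i S)) u' A})
      ≤ ∑ _i : II, (ENNReal.ofReal (K' * Real.exp (-γ * L) * Real.exp (γ * u)) +
          ENNReal.ofReal (K' * Real.exp (-γ * L) * Real.exp (γ * u))) := by
        refine Finset.sum_le_sum fun i _ => ?_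
        rw [ENNReal.tsum_add]
        exact add_le_add (hb _ (hv i)) (hb _ (hw i))
    _ = _ := by
        rw [← ENNReal.ofReal_add (by positivity) (by positivity), Finset.sum_const,
          show (Finset.univ : Finset II).card = 5 by simp, nsmul_eq_mul,
          ← ENNReal.ofReal_natCast, ← ENNReal.ofReal_mul (by positivity)]
        congr 1
        push_cast
        ring

theorem ind_int {p : Om → Prop} (h : MeasurableSet {ω | p ω}) :
    ∫⁻ ω, ind (p ω) ∂gm = gm {ω | p ω} := by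
  rw [← lintegral_indicator_one h]
  refine lintegral_congr fun ω => ?_
  unfold ind
  by_cases hp : p ω
  · rw [if_pos hp, indicator_of_mem (by exact hp)]; rfl
  · rw [if_neg hp, indicator_of_notMem (by exact hp)]

theorem ae_fin (hEXP2 : St_EXP2) (hT3 : St_T3) (hFM : St_FM) {γ : ℝ} (hγ : γ ∈ Ioo (0 : ℝ) 2)
    (M : Model) (hG : Gram M.eS (covE 0)) (u : ℝ) : ∀ᵐ ω ∂gm, nB (M.X γ u ω) ≠ ∞ := by
  obtain ⟨K, c, -, hK⟩ := (hFM γ hγ).1
  have hn : ∀ S : Dy, ‖M.eS S‖ ^ 2 ≤ |kS [] []| + S.length * l2 := by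
    intro S
    have := hEXP2.2.1 [] [] S
    simp only [List.nil_append] at this
    rw [← real_inner_self_eq_norm_sq, hG, covE, this, zero_add]
    linarith [le_abs_self (kS [] [])]
  have h1 := (hK _ (abs_nonneg _) M.eS hn u).1
  have hX : Measurable (M.X γ u) := (hT3.2.2.2.2.2.2.2.2.2.2.1 M γ u).1
  have hI : ∀ A, MeasurableSet {ω | IntN (M.X γ u ω) A} := fun A => ((hT3.2.1 A).1).preimage hX
  have h2 : ∫⁻ ω, nB (M.X γ u ω) ∂gm ≤ ∑' S : Dy, gm {ω | 0 < M.X γ u ω S} := by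
    unfold nB
    rw [lintegral_tsum fun S => ((hT3.2.2.2.2.2.2.2.2.2.2.2.1 Om _ (hI S)).1).aemeasurable]
    refine ENNReal.tsum_le_tsum fun S => ?_
    rw [ind_int (hI S)]
    exact measure_mono fun ω h => h S List.suffix_rfl
  have h3 : ∫⁻ ω, nB (M.X γ u ω) ∂gm ≠ ∞ :=
    ne_top_of_le_ne_top ENNReal.ofReal_ne_top (h2.trans h1)
  filter_upwards [ae_lt_top (hT3.1.comp hX) h3] with ω hω using hω.ne

theorem SR_nonneg {F : (Dy → ℝ) → ℝ} (hF : ∀ y, 0 ≤ F y) (x : Dy → ℝ) : 0 ≤ SR F x [] :=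
  Finset.sum_nonneg fun _ _ => hF _

theorem SR_tsum (hT1 : St_T1) {F : (Dy → ℝ) → ℝ} (hF : ∀ y, 0 ≤ F y) {x : Dy → ℝ}
    (hx : nB x ≠ ∞) : ENNReal.ofReal (SR F x []) =
      ∑' A : Dy, ind (IntN x A) * ENNReal.ofReal (F (sub x A)) := by
  have h1 : HasTr x (tr x) := hT1.2.2.2.2.2.2.2.2.2.2.2.2.1 _ hx
  unfold SR
  rw [Finset.filter_true_of_mem fun A _ => List.nil_suffix,
    ENNReal.ofReal_sum_of_nonneg fun _ _ => hF _, tsum_eq_sum (s := tr x)]
  · refine Finset.sum_congr rfl fun A hA => ?_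
    rw [ind, if_pos ((h1 A).1 hA), one_mul]
  · intro A hA
    rw [ind, if_neg fun h => hA ((h1 A).2 h), zero_mul]

theorem int_SR (hEXP2 : St_EXP2) (hT1 : St_T1) (hT3 : St_T3) (hFM : St_FM) {γ : ℝ}
    (hγ : γ ∈ Ioo (0 : ℝ) 2) (M : Model) (hG : Gram M.eS (covE 0)) (u : ℝ)
    {F : (Dy → ℝ) → ℝ} (hF : BddM F) (hi : Integrable (fun ω => SR F (M.X γ u ω) []) gm) :
    ENNReal.ofReal (∫ ω, SR F (M.X γ u ω) [] ∂gm) =
      ∑' A : Dy, ∫⁻ ω, ind (IntN (M.X γ u ω) A) * ENNReal.ofReal (F (sub (M.X γ u ω) A)) ∂gm := by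
  obtain ⟨hm, B, hB⟩ := hF
  have hX : Measurable (M.X γ u) := (hT3.2.2.2.2.2.2.2.2.2.2.1 M γ u).1
  have hI : ∀ A, MeasurableSet {ω | IntN (M.X γ u ω) A} := fun A => ((hT3.2.1 A).1).preimage hX
  rw [ofReal_integral_eq_lintegral_ofReal hi
    (ae_of_all _ fun ω => SR_nonneg (fun y => (hB y).1) _), ← lintegral_tsum]
  · refine lintegral_congr_ae ?_
    filter_upwards [ae_fin hEXP2 hT3 hFM hγ M hG u] with ω hω
    exact SR_tsum hT1 (fun y => (hB y).1) hω
  · intro A
    exact ((hT3.2.2.2.2.2.2.2.2.2.2.2.1 Om _ (hI A)).1.mul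
      (hm.comp ((hT3.2.2.2.2.1 A).comp hX)).ennreal_ofReal).aemeasurable

theorem Ql2 {γ : ℝ} (hγ : γ ∈ Ioo (0 : ℝ) 2) : 13 / 10 ≤ QQ γ * l2 := by
  have h1 : 2 ≤ QQ γ := by
    have := hγ.1
    unfold QQ
    have e : γ / 2 + 2 / γ - 2 = (γ - 2) ^ 2 / (2 * γ) := by field_simp; ring
    have : 0 ≤ (γ - 2) ^ 2 / (2 * γ) := by positivity
    linarith
  have h2 : 13 / 20 ≤ l2 := by
    have := Real.log_two_gt_d9
    unfold l2
    linarith
  nlinarith

end POS

open POS in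
theorem blk_POS (_hG1 : St_G1) (_hG1D : St_G1D) (hG2 : St_G2) (_hG3 : St_G3) (hM0 : St_M0)
    (hMOD : St_MOD) (hBMP : St_BMP) (hEXP2 : St_EXP2) (hGEO1 : St_GEO1) (hT1 : St_T1)
    (hT3 : St_T3) (hFM : St_FM) (hR : St_R) : St_POS := by
  intro γ hγ
  obtain ⟨M0⟩ := hM0
  obtain ⟨M, hO, hC, -, -⟩ := (hMOD M0).2.2.1 (ctr []) 1 one_pos
  have hb : box [] ⊆ M.O := by
    intro y hy
    have := (hGEO1.2.2.2.1 []).2.2.2.1 y hy
    rw [hO, mem_ball, dist_eq_norm]
    simp only [side, List.length_nil, pow_zero] at this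
    linarith
  have hM : ∀ S, box S ⊆ M.O := fun S => ((hGEO1.2.2.2.2.1 S []).2 List.nil_suffix).trans hb
  have hG : Gram M.eS (covE 0) := by
    have := (hMOD M).2.2.2.2.2.2.1 [] hb
    simpa [hC] using this
  obtain ⟨β, a, hd⟩ := exists_dir hBMP M hM
  have hq := Ql2 hγ
  obtain ⟨K, hK0, hK⟩ := bad_ub hEXP2 hFM M hG hd hγ (by linarith)
  obtain ⟨hlim, -, -, -, -, -, hc1⟩ := hR γ hγ
  obtain ⟨L, hL⟩ : ∃ L : ℝ, K * Real.exp (-γ * L) ≤ cc γ one / 2 := by
    have h1 : Tendsto (fun L : ℝ => K * Real.exp (-γ * L)) atTop (𝓝 (K * 0)) :=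
      (Real.tendsto_exp_atBot.comp
        (tendsto_id.const_mul_atTop_of_neg (neg_lt_zero.2 hγ.1))).const_mul K
    rw [mul_zero] at h1
    exact (h1.eventually (ge_mem_nhds (half_pos hc1))).exists
  obtain ⟨c, hc, hnode⟩ := node_lb hG2 hMOD hT3 M hd hq L
  refine ⟨c * (cc γ one / 2), by positivity, 1, one_pos, fun lam hlam => ?_⟩
  have b1 : BddM one := ⟨measurable_const, 1, fun _ => ⟨zero_le_one, le_rfl⟩⟩
  have bF := Fm_bdd hT3 hlam.1
  obtain ⟨i1, t1⟩ := hlim one b1 0 le_rfl _ hG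
  obtain ⟨iF, tF⟩ := hlim _ bF 0 le_rfl _ hG
  simp only [XV_eS, mul_zero, zero_div, Real.exp_zero, one_mul] at i1 t1 iF tF
  have key : ∀ u, c * (Real.exp (-γ * u) * ∫ ω, SR one (M.X γ u ω) [] ∂gm) ≤
      Real.exp (-γ * u) * (∫ ω, SR (Fm lam) (M.X γ u ω) [] ∂gm) + c * (cc γ one / 2) := by
    intro u
    have hX : Measurable (M.X γ u) := (hT3.2.2.2.2.2.2.2.2.2.2.1 M γ u).1
    have hI : ∀ A, MeasurableSet {ω | IntN (M.X γ u ω) A} := fun A => ((hT3.2.1 A).1).preimage hX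
    have n2 : 0 ≤ ∫ ω, SR (Fm lam) (M.X γ u ω) [] ∂gm :=
      integral_nonneg fun ω => SR_nonneg (fun y => (bF.2.choose_spec y).1) _
    have e1 := int_SR hEXP2 hT1 hT3 hFM hγ M hG u b1 (i1 u)
    have e2 := int_SR hEXP2 hT1 hT3 hFM hγ M hG u bF (iF u)
    have e3 : ENNReal.ofReal (∫ ω, SR one (M.X γ u ω) [] ∂gm) ≤
        ∑' A : Dy, gm {ω | IntN (M.X γ u ω) A ∧ ∀ i, |rr M β a γ u A ω i| ≤ L} +
          ENNReal.ofReal (K * Real.exp (-γ * L) * Real.exp (γ * u)) := by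
      refine le_trans ?_ (add_le_add_right (hK L u) _)
      rw [e1, ← ENNReal.tsum_add]
      refine ENNReal.tsum_le_tsum fun A => ?_
      simp only [one, ENNReal.ofReal_one, mul_one]
      rw [ind_int (hI A)]
      refine le_trans (measure_mono fun ω h => ?_) (measure_union_le _ _)
      by_cases h' : ∀ i, |rr M β a γ u A ω i| ≤ L
      · exact Or.inl ⟨h, h'⟩
      · exact Or.inr ⟨h, h'⟩
    have e4 : ENNReal.ofReal (c * ∫ ω, SR one (M.X γ u ω) [] ∂gm) ≤
        ENNReal.ofReal ((∫ ω, SR (Fm lam) (M.X γ u ω) [] ∂gm) +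
          c * (K * Real.exp (-γ * L) * Real.exp (γ * u))) := by
      rw [ENNReal.ofReal_mul hc.le, ENNReal.ofReal_add n2 (by positivity),
        ENNReal.ofReal_mul hc.le]
      refine (mul_le_mul_right e3 _).trans ?_
      rw [mul_add, e2, ← ENNReal.tsum_mul_left]
      exact add_le_add_left (ENNReal.tsum_le_tsum fun A => hnode lam hlam u A) _
    rw [ENNReal.ofReal_le_ofReal_iff (by positivity)] at e4
    have e5 := mul_le_mul_of_nonneg_left e4 (Real.exp_pos (-γ * u)).le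
    have e6 : Real.exp (-γ * u) * Real.exp (γ * u) = 1 := by
      rw [← Real.exp_add]; simp
    have e7 : Real.exp (-γ * u) * (c * (K * Real.exp (-γ * L) * Real.exp (γ * u))) =
        c * (K * Real.exp (-γ * L)) := by
      linear_combination c * (K * Real.exp (-γ * L)) * e6
    have e8 := mul_le_mul_of_nonneg_left hL hc.le
    rw [mul_add, e7] at e5
    linarith
  have := le_of_tendsto_of_tendsto' (t1.const_mul c) (tF.add_const (c * (cc γ one / 2))) key
  linarith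

end

end Pool.Agent.Lib.APPS
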