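import Pool.Agent.Lib.APPS.Blue1

/-!
Block DISC, part a: the Moebius parametrisation of harmonic measure and the balayage.
-/

namespace Pool.Agent.Lib.APPS

open MeasureTheory ProbabilityTheory Filter Topology Set Metric
open scoped NNReal ENNReal RealInnerProductSpace Classical

noncomputable section

namespace DISC

def mob (c : ℂ) (r : ℝ) (p : ℂ × ℂ) : ℂ :=
  c + r * ((p.2 + (p.1 - c) / r) / (1 + (starRingEnd ℂ) ((p.1 - c) / r) * p.2))

def bk (c : ℂ) (r : ℝ) (x y : ℂ) : ℂ := (r : ℂ) - (x - c) * (starRingEnd ℂ) (y - c) / r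

def Lk (c : ℂ) (r : ℝ) (x y : ℂ) : ℝ := Real.log (max ‖x - y‖ ‖bk c r x y‖)

theorem bal_eq (c : ℂ) (r : ℝ) (μ : Measure ℂ) :
    bal c r μ = (μ.prod (circ 0 1)).map (mob c r) := rfl

theorem Gk_eq (c : ℂ) (r : ℝ) (x y : ℂ) : Gk c r x y = Lk c r x y - Real.log ‖x - y‖ := rfl

theorem meas_conj : Measurable (starRingEnd ℂ) := Complex.continuous_conj.measurable

theorem meas_mob (c : ℂ) (r : ℝ) : Measurable (mob c r) := by
  unfold mob
  refine measurable_const.add (measurable_const.mul (Measurable.div ?_ ?_))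
  · fun_prop
  · exact measurable_const.add ((meas_conj.comp (by fun_prop)).mul measurable_snd)

theorem cont_bk (c : ℂ) (r : ℝ) : Continuous fun p : ℂ × ℂ => bk c r p.1 p.2 := by
  unfold bk
  exact continuous_const.sub (((continuous_fst.sub continuous_const).mul
    (Complex.continuous_conj.comp (continuous_snd.sub continuous_const))).div_const _)

theorem meas_Lk (c : ℂ) (r : ℝ) : Measurable fun p : ℂ × ℂ => Lk c r p.1 p.2 := by
  unfold Lk
  exact Real.measurable_log.comp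
    (((continuous_fst.sub continuous_snd).norm.max (cont_bk c r).norm).measurable)

theorem circ_prob (hFE : St_FE) (c : ℂ) {r : ℝ} (hr : 0 < r) : IsProbabilityMeasure (circ c r) :=
  (hFE.2.2.2.2.2.2.2.2.1 c r hr).1.2

theorem circ_FE (hFE : St_FE) (c : ℂ) {r : ℝ} (hr : 0 < r) : FE (circ c r) :=
  (hFE.2.2.2.2.2.2.2.2.1 c r hr).1.1

theorem circ_sph (hFE : St_FE) (c : ℂ) {r : ℝ} (hr : 0 < r) : circ c r (sphere c r)ᶜ = 0 :=
  (hFE.2.2.2.2.2.2.2.2.1 c r hr).2.1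

theorem circ_ae (hFE : St_FE) : ∀ᵐ ζ ∂circ 0 1, ‖ζ‖ = 1 := by
  have h := circ_sph hFE 0 one_pos
  have h2 : ∀ᵐ ζ ∂circ 0 1, ζ ∈ sphere (0 : ℂ) 1 := h
  filter_upwards [h2] with ζ hζ
  simpa using hζ

theorem ae_ne {μ : Measure ℂ} (h : FE μ) (a : ℂ) : ∀ᵐ x ∂μ, x ≠ a := by
  have := h.noAtoms a
  rw [ae_iff]
  simpa using this

theorem circ_log (hFE : St_FE) (hE1 : St_EXP1) (a b : ℂ) (h : a ≠ 0 ∨ b ≠ 0) :
    (∀ᵐ ζ ∂circ 0 1, a - b * ζ ≠ 0) ∧
    Integrable (fun ζ => Real.log ‖a - b * ζ‖) (circ 0 1) ∧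
    ∫ ζ, Real.log ‖a - b * ζ‖ ∂circ 0 1 = Real.log (max ‖a‖ ‖b‖) := by
  have := circ_prob hFE 0 one_pos
  by_cases hb : b = 0
  · subst hb
    have ha : a ≠ 0 := by simpa using h
    refine ⟨by simpa using ha, by simp, ?_⟩
    simp
  · have hne := ae_ne (circ_FE hFE 0 one_pos) (a / b)
    have hb' : 0 < ‖b‖ := norm_pos_iff.2 hb
    have hfac : ∀ ζ, a - b * ζ = b * (a / b - ζ) := by
      intro ζ; field_simp
    have hae : (fun ζ => Real.log ‖a - b * ζ‖) =ᵐ[circ 0 1]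
        fun ζ => Real.log ‖b‖ + Real.log ‖a / b - ζ‖ := by
      filter_upwards [hne] with ζ hζ
      rw [hfac, norm_mul, Real.log_mul hb'.ne' (norm_ne_zero_iff.2 (sub_ne_zero.2 hζ.symm))]
    obtain ⟨hi, hv⟩ := hE1.1 (a / b) 0 1 one_pos
    refine ⟨?_, ?_, ?_⟩
    · filter_upwards [hne] with ζ hζ
      rw [hfac]
      exact mul_ne_zero hb (sub_ne_zero.2 hζ.symm)
    · exact ((integrable_const _).add hi).congr hae.symm
    · rw [integral_congr_ae hae, integral_add (integrable_const _) hi, hv]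
      simp only [integral_const, probReal_univ, smul_eq_mul, one_mul, sub_zero]
      rw [← Real.log_mul hb'.ne' (by positivity), mul_max_of_nonneg _ _ hb'.le, norm_div,
        mul_div_cancel₀ _ hb'.ne', mul_one]

theorem norm_hat {c y : ℂ} {r : ℝ} (hr : 0 < r) : ‖(y - c) / r‖ = ‖y - c‖ / r := by
  rw [norm_div, Complex.norm_real, Real.norm_of_nonneg hr.le]

theorem den_ne {c y ζ : ℂ} {r : ℝ} (hr : 0 < r) (hy : ‖y - c‖ < r) (hζ : ‖ζ‖ = 1) :
    1 + (starRingEnd ℂ) ((y - c) / r) * ζ ≠ 0 := by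
  intro h
  have h1 : (starRingEnd ℂ) ((y - c) / r) * ζ = -1 := by linear_combination h
  have h2 := congrArg norm h1
  rw [norm_mul, Complex.norm_conj, hζ, norm_hat hr, norm_neg, norm_one, mul_one,
    div_eq_one_iff_eq hr.ne'] at h2
  linarith

theorem sub_mob {c y ζ : ℂ} {r : ℝ} (hr : 0 < r) (hy : ‖y - c‖ < r) (hζ : ‖ζ‖ = 1) (x : ℂ) :
    x - mob c r (y, ζ) =
      ((x - y) - bk c r x y * ζ) / (1 + (starRingEnd ℂ) ((y - c) / r) * ζ) := by
  have hd := den_ne hr hy hζ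
  have hr' : (r : ℂ) ≠ 0 := by exact_mod_cast hr.ne'
  rw [eq_div_iff hd]
  unfold mob bk
  simp only
  have e : (starRingEnd ℂ) ((y - c) / r) = (starRingEnd ℂ) (y - c) / r := by
    rw [map_div₀, Complex.conj_ofReal]
  have h3 : (ζ + (y - c) / r) / (1 + (starRingEnd ℂ) ((y - c) / r) * ζ) *
      (1 + (starRingEnd ℂ) ((y - c) / r) * ζ) = ζ + (y - c) / r := div_mul_cancel₀ _ hd
  have h4 : (r : ℂ) * ((y - c) / r) = y - c := by field_simp
  rw [e] at h3 ⊢
  linear_combination (-(r : ℂ)) * h3 - h4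

theorem mob_sph {c y ζ : ℂ} {r : ℝ} (hr : 0 < r) (hy : ‖y - c‖ < r) (hζ : ‖ζ‖ = 1) :
    ‖mob c r (y, ζ) - c‖ = r := by
  have hd := den_ne hr hy hζ
  unfold mob
  simp only [add_sub_cancel_left]
  have h1 : ζ * (starRingEnd ℂ) ζ = 1 := by
    rw [Complex.mul_conj, Complex.normSq_eq_norm_sq, hζ]; simp
  have h2 : 1 + (starRingEnd ℂ) ((y - c) / r) * ζ = ζ * (starRingEnd ℂ) (ζ + (y - c) / r) := by
    rw [map_add]; linear_combination -h1
  have h3 : ‖1 + (starRingEnd ℂ) ((y - c) / r) * ζ‖ = ‖ζ + (y - c) / r‖ := by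
    rw [h2, norm_mul, hζ, Complex.norm_conj, one_mul]
  rw [norm_mul, norm_div, ← h3, div_self (norm_ne_zero_iff.2 hd), mul_one, Complex.norm_real,
    Real.norm_of_nonneg hr.le]

theorem bk_sq {c : ℂ} {r : ℝ} (hr : 0 < r) (x y : ℂ) :
    ‖bk c r x y‖ ^ 2 - ‖x - y‖ ^ 2 =
      (r ^ 2 - ‖x - c‖ ^ 2) * (r ^ 2 - ‖y - c‖ ^ 2) / r ^ 2 := by
  have e : x - y = (x - c) - (y - c) := by ring
  rw [e]
  unfold bk
  generalize x - c = u
  generalize y - c = v
  have hr' : (r : ℂ) ≠ 0 := by exact_mod_cast hr.ne'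
  have e2 : (r : ℂ) - u * (starRingEnd ℂ) v / r = ((r : ℂ) * r - u * (starRingEnd ℂ) v) / r := by
    field_simp
  rw [e2, norm_div, Complex.norm_real, Real.norm_of_nonneg hr.le, div_pow]
  simp only [← Complex.normSq_eq_norm_sq, Complex.normSq_apply, Complex.sub_re, Complex.sub_im,
    Complex.mul_re, Complex.mul_im, Complex.conj_re, Complex.conj_im, Complex.ofReal_re,
    Complex.ofReal_im]
  field_simp
  ring

theorem Lk_in {c x y : ℂ} {r : ℝ} (hr : 0 < r) (hx : ‖x - c‖ ≤ r) (hy : ‖y - c‖ ≤ r) :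
    Lk c r x y = Real.log ‖bk c r x y‖ := by
  unfold Lk
  rw [max_eq_right]
  have h := bk_sq (c := c) hr x y
  have h1 : 0 ≤ r ^ 2 - ‖x - c‖ ^ 2 := by nlinarith [norm_nonneg (x - c)]
  have h2 : 0 ≤ r ^ 2 - ‖y - c‖ ^ 2 := by nlinarith [norm_nonneg (y - c)]
  have h3 : 0 ≤ (r ^ 2 - ‖x - c‖ ^ 2) * (r ^ 2 - ‖y - c‖ ^ 2) / r ^ 2 := by positivity
  exact (pow_le_pow_iff_left₀ (norm_nonneg _) (norm_nonneg _) two_ne_zero).1 (by linarith)

theorem Lk_out {c x y : ℂ} {r : ℝ} (hr : 0 < r) (hx : r ≤ ‖x - c‖) (hy : ‖y - c‖ ≤ r) :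
    Lk c r x y = Real.log ‖x - y‖ := by
  unfold Lk
  rw [max_eq_left]
  have h := bk_sq (c := c) hr x y
  have h1 : r ^ 2 - ‖x - c‖ ^ 2 ≤ 0 := by nlinarith [norm_nonneg (x - c)]
  have h2 : 0 ≤ r ^ 2 - ‖y - c‖ ^ 2 := by nlinarith [norm_nonneg (y - c)]
  have h3 : (r ^ 2 - ‖x - c‖ ^ 2) * (r ^ 2 - ‖y - c‖ ^ 2) / r ^ 2 ≤ 0 :=
    div_nonpos_of_nonpos_of_nonneg (mul_nonpos_of_nonpos_of_nonneg h1 h2) (by positivity)
  exact (pow_le_pow_iff_left₀ (norm_nonneg _) (norm_nonneg _) two_ne_zero).1 (by linarith)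

theorem norm_cross {c x y : ℂ} {r : ℝ} (hr : 0 < r) :
    ‖(x - c) * (starRingEnd ℂ) (y - c) / r‖ = ‖x - c‖ * ‖y - c‖ / r := by
  rw [norm_div, norm_mul, Complex.norm_conj, Complex.norm_real, Real.norm_of_nonneg hr.le]

theorem max_low {c x y : ℂ} {r : ℝ} (hr : 0 < r) (hy : ‖y - c‖ ≤ r / 2) :
    r / 2 ≤ max ‖x - y‖ ‖bk c r x y‖ := by
  by_cases hx : ‖x - c‖ ≤ r
  · refine le_trans ?_ (le_max_right _ _)
    have h1 := norm_sub_norm_le (r : ℂ) ((x - c) * (starRingEnd ℂ) (y - c) / r)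
    rw [norm_cross hr, Complex.norm_real, Real.norm_of_nonneg hr.le] at h1
    have h2 : ‖x - c‖ * ‖y - c‖ / r ≤ r / 2 := by
      rw [div_le_iff₀ hr]
      nlinarith [norm_nonneg (x - c), norm_nonneg (y - c)]
    unfold bk
    linarith
  · refine le_trans ?_ (le_max_left _ _)
    have h1 := norm_sub_norm_le (x - c) (y - c)
    rw [sub_sub_sub_cancel_right] at h1
    linarith [not_le.1 hx]

theorem max_up {c x y : ℂ} {r : ℝ} (hr : 0 < r) (hy : ‖y - c‖ ≤ r / 2) :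
    max ‖x - y‖ ‖bk c r x y‖ ≤ ‖x - c‖ + r := by
  refine max_le ?_ ?_
  · have h1 := norm_sub_le (x - c) (y - c)
    rw [sub_sub_sub_cancel_right] at h1
    linarith
  · have h1 := norm_sub_le (r : ℂ) ((x - c) * (starRingEnd ℂ) (y - c) / r)
    rw [norm_cross hr, Complex.norm_real, Real.norm_of_nonneg hr.le] at h1
    have h2 : ‖x - c‖ * ‖y - c‖ / r ≤ ‖x - c‖ := by
      rw [div_le_iff₀ hr]
      nlinarith [norm_nonneg (x - c), norm_nonneg (y - c)]
    unfold bk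
    linarith

theorem Lk_low {c x y : ℂ} {r : ℝ} (hr : 0 < r) (hy : ‖y - c‖ ≤ r / 2) :
    Real.log (r / 2) ≤ Lk c r x y :=
  Real.log_le_log (by positivity) (max_low hr hy)

theorem Lk_abs {c x y : ℂ} {r : ℝ} (hr : 0 < r) (hy : ‖y - c‖ ≤ r / 2) :
    |Lk c r x y| ≤ |Real.log (r / 2)| + |Real.log (‖x - c‖ + r)| := by
  have h1 := Lk_low (x := x) hr hy
  have h2 : Lk c r x y ≤ Real.log (‖x - c‖ + r) :=
    Real.log_le_log (lt_of_lt_of_le (by positivity) (max_low hr hy)) (max_up hr hy)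
  rw [abs_le]
  constructor
  · linarith [neg_abs_le (Real.log (r / 2)), abs_nonneg (Real.log (‖x - c‖ + r))]
  · linarith [le_abs_self (Real.log (‖x - c‖ + r)), abs_nonneg (Real.log (r / 2))]

theorem key (hFE : St_FE) (hE1 : St_EXP1) {c y : ℂ} {r : ℝ} (hr : 0 < r) (hy : ‖y - c‖ ≤ r / 2)
    (x : ℂ) :
    (∀ᵐ ζ ∂circ 0 1, mob c r (y, ζ) ≠ x) ∧
    Integrable (fun ζ => Real.log ‖x - mob c r (y, ζ)‖) (circ 0 1) ∧
    ∫ ζ, Real.log ‖x - mob c r (y, ζ)‖ ∂circ 0 1 = Lk c r x y := by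
  have hy' : ‖y - c‖ < r := by linarith
  have hab : x - y ≠ 0 ∨ bk c r x y ≠ 0 := by
    by_contra h
    push Not at h
    have := max_low (x := x) hr hy
    rw [h.1, h.2] at this
    simp at this
    linarith
  obtain ⟨h1, h2, h3⟩ := circ_log hFE hE1 _ _ hab
  obtain ⟨-, h5, h6⟩ := circ_log hFE hE1 1 (-(starRingEnd ℂ) ((y - c) / r)) (Or.inl one_ne_zero)
  have hae : (fun ζ => Real.log ‖x - mob c r (y, ζ)‖) =ᵐ[circ 0 1] fun ζ =>
      Real.log ‖x - y - bk c r x y * ζ‖ - Real.log ‖1 - -(starRingEnd ℂ) ((y - c) / r) * ζ‖ := by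
    filter_upwards [h1, circ_ae hFE] with ζ hζ hζ1
    rw [sub_mob hr hy' hζ1, norm_div, Real.log_div (norm_ne_zero_iff.2 hζ)
      (norm_ne_zero_iff.2 (den_ne hr hy' hζ1)), neg_mul, sub_neg_eq_add]
  refine ⟨?_, (h2.sub h5).congr hae.symm, ?_⟩
  · filter_upwards [h1, circ_ae hFE] with ζ hζ hζ1 h
    have := sub_mob hr hy' hζ1 x
    rw [h, sub_self] at this
    exact div_ne_zero hζ (den_ne hr hy' hζ1) this.symm
  · rw [integral_congr_ae hae, integral_sub h2 h5, h3, h6, norm_neg, Complex.norm_conj,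
      norm_hat hr, norm_one, max_eq_left ((div_le_one hr).2 hy'.le), Real.log_one, sub_zero]
    rfl

theorem ae_ball {μ : Measure ℂ} {c : ℂ} {ρ : ℝ} (h : μ (closedBall c ρ)ᶜ = 0) :
    ∀ᵐ y ∂μ, ‖y - c‖ ≤ ρ := by
  have h2 : ∀ᵐ y ∂μ, y ∈ closedBall c ρ := h
  filter_upwards [h2] with y hy
  rwa [mem_closedBall_iff_norm] at hy

theorem bal_prob (hFE : St_FE) (c : ℂ) (r : ℝ) (μ : Measure ℂ) [IsProbabilityMeasure μ] :
    IsProbabilityMeasure (bal c r μ) := by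
  have := circ_prob hFE 0 one_pos
  rw [bal_eq]
  exact Measure.isProbabilityMeasure_map (meas_mob c r).aemeasurable

theorem bal_ae (hFE : St_FE) {c : ℂ} {r : ℝ} {μ : Measure ℂ} [IsProbabilityMeasure μ]
    {s : Set ℂ} (hs : MeasurableSet s) (h : ∀ᵐ y ∂μ, ∀ᵐ ζ ∂circ 0 1, mob c r (y, ζ) ∈ s) :
    ∀ᵐ z ∂bal c r μ, z ∈ s := by
  have := circ_prob hFE 0 one_pos
  rw [bal_eq]
  refine (ae_map_iff (p := fun z => z ∈ s) (meas_mob c r).aemeasurable hs).2 ?_
  exact (Measure.ae_prod_iff_ae_ae (hs.preimage (meas_mob c r))).2 h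

theorem bal_sph (hFE : St_FE) {c : ℂ} {r : ℝ} {μ : Measure ℂ} [IsProbabilityMeasure μ]
    (hr : 0 < r) (hμ : μ (closedBall c (r / 2))ᶜ = 0) : bal c r μ (sphere c r)ᶜ = 0 := by
  refine bal_ae hFE (s := sphere c r) isClosed_sphere.measurableSet ?_
  filter_upwards [ae_ball hμ] with y hy
  filter_upwards [circ_ae hFE] with ζ hζ
  rw [mem_sphere_iff_norm]
  exact mob_sph hr (by linarith) hζ

theorem bal_ae_norm (hFE : St_FE) {c : ℂ} {r : ℝ} {μ : Measure ℂ} [IsProbabilityMeasure μ]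
    (hr : 0 < r) (hμ : μ (closedBall c (r / 2))ᶜ = 0) : ∀ᵐ z ∂bal c r μ, ‖z - c‖ = r := by
  have h2 : ∀ᵐ z ∂bal c r μ, z ∈ sphere c r := bal_sph hFE hr hμ
  filter_upwards [h2] with z hz
  rwa [mem_sphere_iff_norm] at hz

theorem bal_atom (hFE : St_FE) (hE1 : St_EXP1) {c : ℂ} {r : ℝ} {μ : Measure ℂ}
    [IsProbabilityMeasure μ] (hr : 0 < r) (hμ : μ (closedBall c (r / 2))ᶜ = 0) (x : ℂ) :
    bal c r μ {x} = 0 := by
  have h := bal_ae hFE (c := c) (r := r) (μ := μ) (s := {x}ᶜ)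
    (measurableSet_singleton x).compl (by
      filter_upwards [ae_ball hμ] with y hy
      exact (key hFE hE1 hr hy x).1)
  rw [ae_iff] at h
  simpa using h

theorem abs_log_le {t R : ℝ} (ht : 0 ≤ t) (hR : t ≤ R) :
    |Real.log t| ≤ 2 * |Real.log R| - Real.log t := by
  rcases ht.eq_or_lt with h | h
  · subst h; simp
  · have := Real.log_le_log h hR
    rw [abs_le]
    constructor
    · linarith [abs_nonneg (Real.log R)]
    · linarith [le_abs_self (Real.log R)]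

theorem key_abs (hFE : St_FE) (hE1 : St_EXP1) {c y : ℂ} {r : ℝ} (hr : 0 < r)
    (hy : ‖y - c‖ ≤ r / 2) (x : ℂ) :
    ∫ ζ, ‖Real.log ‖x - mob c r (y, ζ)‖‖ ∂circ 0 1 ≤
      2 * |Real.log (‖x - c‖ + r)| - Real.log (r / 2) := by
  have := circ_prob hFE 0 one_pos
  obtain ⟨-, h2, h3⟩ := key hFE hE1 hr hy x
  have h4 : ∫ ζ, ‖Real.log ‖x - mob c r (y, ζ)‖‖ ∂circ 0 1 ≤
      ∫ ζ, (2 * |Real.log (‖x - c‖ + r)| - Real.log ‖x - mob c r (y, ζ)‖) ∂circ 0 1 := by
    refine integral_mono_ae h2.norm ((integrable_const _).sub h2) ?_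
    filter_upwards [circ_ae hFE] with ζ hζ
    rw [Real.norm_eq_abs]
    refine abs_log_le (norm_nonneg _) ?_
    have h5 := norm_sub_le (x - c) (mob c r (y, ζ) - c)
    rw [sub_sub_sub_cancel_right, mob_sph hr (by linarith) hζ] at h5
    exact h5
  rw [integral_sub (integrable_const _) h2, h3] at h4
  simp only [integral_const, probReal_univ, smul_eq_mul, one_mul] at h4
  linarith [Lk_low (x := x) hr hy]

theorem meas_logsub : Measurable fun p : ℂ × ℂ => Real.log ‖p.1 - p.2‖ :=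
  Real.measurable_log.comp (continuous_fst.sub continuous_snd).norm.measurable

theorem bal_pot (hFE : St_FE) (hE1 : St_EXP1) {c : ℂ} {r : ℝ} {μ : Measure ℂ}
    [IsProbabilityMeasure μ] (hr : 0 < r) (hμ : μ (closedBall c (r / 2))ᶜ = 0) (x : ℂ) :
    Integrable (fun z => Real.log ‖x - z‖) (bal c r μ) ∧
    ∫ z, Real.log ‖x - z‖ ∂bal c r μ = ∫ y, Lk c r x y ∂μ ∧
    ∫ z, ‖Real.log ‖x - z‖‖ ∂bal c r μ ≤ 2 * |Real.log (‖x - c‖ + r)| - Real.log (r / 2) := by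
  have := circ_prob hFE 0 one_pos
  have hm : Measurable fun z : ℂ => Real.log ‖x - z‖ :=
    Real.measurable_log.comp (continuous_const.sub continuous_id).norm.measurable
  have hm2 : Measurable fun p : ℂ × ℂ => Real.log ‖x - mob c r p‖ := hm.comp (meas_mob c r)
  have hb : ∀ᵐ y ∂μ, ‖∫ ζ, ‖Real.log ‖x - mob c r (y, ζ)‖‖ ∂circ 0 1‖ ≤
      2 * |Real.log (‖x - c‖ + r)| - Real.log (r / 2) := by
    filter_upwards [ae_ball hμ] with y hy
    rw [Real.norm_of_nonneg (integral_nonneg fun _ => norm_nonneg _)]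
    exact key_abs hFE hE1 hr hy x
  have hi : Integrable (fun p : ℂ × ℂ => Real.log ‖x - mob c r p‖) (μ.prod (circ 0 1)) := by
    rw [integrable_prod_iff hm2.aestronglyMeasurable]
    refine ⟨?_, ?_⟩
    · filter_upwards [ae_ball hμ] with y hy
      exact (key hFE hE1 hr hy x).2.1
    · exact Integrable.of_bound
        hm2.stronglyMeasurable.norm.integral_prod_right'.aestronglyMeasurable _ hb
  rw [bal_eq]
  refine ⟨?_, ?_, ?_⟩
  · rw [integrable_map_measure hm.aestronglyMeasurable (meas_mob c r).aemeasurable]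
    exact hi
  · rw [integral_map (meas_mob c r).aemeasurable hm.aestronglyMeasurable, integral_prod _ hi]
    refine integral_congr_ae ?_
    filter_upwards [ae_ball hμ] with y hy
    exact (key hFE hE1 hr hy x).2.2
  · rw [integral_map (meas_mob c r).aemeasurable hm.norm.aestronglyMeasurable,
      integral_prod _ hi.norm]
    have := norm_integral_le_of_norm_le_const hb
    simp only [probReal_univ, mul_one] at this
    exact (le_abs_self _).trans this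

theorem bal_PFE (hFE : St_FE) (hE1 : St_EXP1) {c : ℂ} {r : ℝ} {μ : Measure ℂ}
    [IsProbabilityMeasure μ] (hr : 0 < r) (hμ : μ (closedBall c (r / 2))ᶜ = 0) :
    PFE (bal c r μ) := by
  have := bal_prob hFE c r μ
  refine ⟨⟨inferInstance, ⟨‖c‖ + r, ?_⟩, bal_atom hFE hE1 hr hμ, ?_⟩, this⟩
  · refine measure_mono_null (compl_subset_compl.2 fun z hz => ?_) (bal_sph hFE hr hμ)
    rw [mem_sphere_iff_norm] at hz
    rw [mem_closedBall_zero_iff]
    have := norm_add_le c (z - c)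
    rw [add_sub_cancel, hz] at this
    exact this
  · rw [integrable_prod_iff meas_logsub.aestronglyMeasurable]
    refine ⟨Eventually.of_forall fun x => (bal_pot hFE hE1 hr hμ x).1, ?_⟩
    refine Integrable.of_bound
      meas_logsub.stronglyMeasurable.norm.integral_prod_right'.aestronglyMeasurable
      (2 * |Real.log (r + r)| - Real.log (r / 2)) ?_
    filter_upwards [bal_ae_norm hFE hr hμ] with x hx
    rw [Real.norm_of_nonneg (integral_nonneg fun _ => norm_nonneg _)]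
    have := (bal_pot hFE hE1 hr hμ x).2.2
    rwa [hx] at this

/-- energy against a balayage -/
theorem Ie_bal (hFE : St_FE) (hE1 : St_EXP1) {c : ℂ} {r : ℝ} {μ ν : Measure ℂ}
    [IsProbabilityMeasure μ] (hr : 0 < r) (hμ : μ (closedBall c (r / 2))ᶜ = 0) (hν : FE ν) :
    Ie ν (bal c r μ) = ∫ x, ∫ y, -Lk c r x y ∂μ ∂ν := by
  rw [(hFE.2.2.2.2.1 ν _ hν (bal_PFE hFE hE1 hr hμ).1).2]
  refine integral_congr_ae (Eventually.of_forall fun x => ?_)
  simp only [integral_neg]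
  rw [(bal_pot hFE hE1 hr hμ x).2.1]

theorem Ie_bal_out (hFE : St_FE) (hE1 : St_EXP1) {c : ℂ} {r : ℝ} {μ ν : Measure ℂ}
    (hr : 0 < r) (hp : PFE μ) (hμ : μ (closedBall c (r / 2))ᶜ = 0) (hν : FE ν)
    (ho : ν (ball c r) = 0) : Ie ν (bal c r μ) = Ie ν μ := by
  have := hp.2
  rw [Ie_bal hFE hE1 hr hμ hν, (hFE.2.2.2.2.1 ν _ hν hp.1).2]
  have h1 : ∀ᵐ x ∂ν, x ∉ ball c r := measure_eq_zero_iff_ae_notMem.1 ho
  refine integral_congr_ae ?_
  filter_upwards [h1] with x hx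
  refine integral_congr_ae ?_
  filter_upwards [ae_ball hμ] with y hy
  rw [Lk_out hr (not_lt.1 fun h => hx (mem_ball_iff_norm.2 h)) (by linarith)]

end DISC

end

end Pool.Agent.Lib.APPS
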