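import Pool.Agent.Lib.APPS.Blue1

/-! The test vector `Yv`. -/

namespace Pool.Agent.Lib.APPS

open MeasureTheory ProbabilityTheory Filter Topology Set Metric
open scoped NNReal ENNReal RealInnerProductSpace

noncomputable section

namespace YV

/-- potential of the uniform measure on a disc -/
def pD (z : ℂ) (ρ : ℝ) (y : ℂ) : ℝ := ∫ x, -Real.log ‖y - x‖ ∂disc z ρ

theorem pD_eq (hE1 : St_EXP1) {z : ℂ} {ρ : ℝ} (hρ : 0 < ρ) (y : ℂ) :
    pD z ρ y = if ρ ≤ ‖y - z‖ then -Real.log ‖y - z‖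
      else -Real.log ρ + (1 - ‖y - z‖ ^ 2 / ρ ^ 2) / 2 :=
  (hE1.2.2.2.1 y z ρ hρ).2

theorem pfe_disc (hF : St_FE) (z : ℂ) {ρ : ℝ} (hρ : 0 < ρ) : PFE (disc z ρ) :=
  (hF.2.2.2.2.2.2.2.2.1 z ρ hρ).2.2.1

theorem disc_supp (hF : St_FE) (z : ℂ) {ρ : ℝ} (hρ : 0 < ρ) :
    disc z ρ (closedBall z ρ)ᶜ = 0 :=
  (hF.2.2.2.2.2.2.2.2.1 z ρ hρ).2.2.2

theorem pfe_unif (hF : St_FE) (S : Dy) : PFE (unif S) := (hF.2.2.2.2.2.2.2.1 S).1

theorem unif_supp (hF : St_FE) (S : Dy) : unif S (box S)ᶜ = 0 := (hF.2.2.2.2.2.2.2.1 S).2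

theorem ie_disc (hF : St_FE) (z : ℂ) {ρ : ℝ} (hρ : 0 < ρ) {ν : Measure ℂ} (hν : FE ν) :
    Ie (disc z ρ) ν = ∫ y, pD z ρ y ∂ν ∧ Integrable (pD z ρ) ν := by
  have hd := pfe_disc hF z hρ
  have := hν.fin
  have := hd.1.fin
  refine ⟨?_, ?_⟩
  · rw [(hF.2.2.2.2.1 _ _ hd.1 hν).1, (hF.2.2.2.2.1 _ _ hν hd.1).2]; rfl
  · exact (hF.1 _ _ hν hd.1).neg.integral_prod_left

theorem null_of_sub {μ : Measure ℂ} {A B : Set ℂ} (h : μ Aᶜ = 0) (hAB : A ⊆ B) : μ Bᶜ = 0 :=
  measure_mono_null (compl_subset_compl.2 hAB) h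

theorem int_const {μ : Measure ℂ} (hμ : IsProbabilityMeasure μ) {A : Set ℂ} (h : μ Aᶜ = 0)
    {f : ℂ → ℝ} {c : ℝ} (hf : ∀ x ∈ A, f x = c) : ∫ x, f x ∂μ = c := by
  have : ∀ᵐ x ∂μ, f x = c := by
    have h1 : ∀ᵐ x ∂μ, x ∈ A := h
    filter_upwards [h1] with x hx using hf x hx
  rw [integral_congr_ae this]; simp

theorem disc_map (hE1 : St_EXP1) (z : ℂ) (r : ℝ) {ρ : ℝ} (hρ : 0 < ρ) :
    (disc 0 r).map (fun x => z + (ρ : ℂ) * x) = disc z (ρ * r) := by
  simpa using (hE1.2.1 0 r z ρ hρ).2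

theorem ie_scale (hF : St_FE) (hE1 : St_EXP1) (z : ℂ) {r r' ρ : ℝ} (hr : 0 < r) (hr' : 0 < r')
    (hρ : 0 < ρ) :
    Ie (disc z (ρ * r)) (disc z (ρ * r')) = Ie (disc 0 r) (disc 0 r') - Real.log ρ := by
  have h := hF.2.2.2.2.2.2.2.2.2.2.2 (disc 0 r) (disc 0 r') z (ρ : ℂ)
    (by exact_mod_cast hρ.ne') (pfe_disc hF 0 hr) (pfe_disc hF 0 hr')
  rw [disc_map hE1 z r hρ, disc_map hE1 z r' hρ] at h
  rw [h, Complex.norm_real, Real.norm_of_nonneg hρ.le]

/-- the compactly supported part of the potential -/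
def gg (z : ℂ) (ρ : ℝ) (y : ℂ) : ℝ := pD z ρ y + Real.log ‖z - y‖

theorem gg_out (hE1 : St_EXP1) {z : ℂ} {ρ : ℝ} (hρ : 0 < ρ) {y : ℂ} (hy : y ∉ closedBall z ρ) :
    gg z ρ y = 0 := by
  rw [mem_closedBall, dist_eq_norm, not_le] at hy
  rw [gg, pD_eq hE1 hρ, if_pos hy.le, norm_sub_rev z y]; ring

def c0 : ℝ := Ie (disc 0 1) (disc 0 1) - 1 / 2

theorem gg_disc (hF : St_FE) (hE1 : St_EXP1) (z : ℂ) {ρ : ℝ} (hρ : 0 < ρ) :
    ∫ y, gg z ρ y ∂disc z ρ = c0 := by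
  have h1 := ie_disc hF z hρ (pfe_disc hF z hρ).1
  have h2 := hE1.2.2.2.1 z z ρ hρ
  have h3 := ie_scale hF hE1 z one_pos one_pos hρ
  simp only [mul_one] at h3
  have h4 : ∫ y, Real.log ‖z - y‖ ∂disc z ρ = Real.log ρ - 1 / 2 := by
    have h5 := h2.2
    rw [integral_neg, sub_self, norm_zero, if_neg (not_le.2 hρ), zero_pow two_ne_zero,
      zero_div] at h5
    linarith
  unfold gg
  rw [integral_add h1.2 h2.1, ← h1.1, h3, h4, c0]; ring

theorem gg_ball (hF : St_FE) (hE1 : St_EXP1) (z : ℂ) {ρ : ℝ} (hρ : 0 < ρ) :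
    ∫ y in closedBall z ρ, gg z ρ y = Real.pi * ρ ^ 2 * c0 := by
  have h := gg_disc hF hE1 z hρ
  have hp : 0 < Real.pi * ρ ^ 2 := by positivity
  rw [disc, integral_smul_measure, ENNReal.toReal_inv, ENNReal.toReal_ofReal hp.le,
    smul_eq_mul] at h
  rw [← h]; field_simp

theorem gg_unif_sub (hF : St_FE) (hE1 : St_EXP1) (hG : St_GEO1) {z : ℂ} {ρ : ℝ} (hρ : 0 < ρ)
    {B : Dy} (h : closedBall z ρ ⊆ box B) :
    ∫ y, gg z ρ y ∂unif B = 1 / side B ^ 2 * (Real.pi * ρ ^ 2 * c0) := by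
  have hs := (hG.1 B).1
  rw [unif, integral_smul_measure, ENNReal.toReal_ofReal (by positivity), smul_eq_mul,
    setIntegral_eq_of_subset_of_forall_sdiff_eq_zero (hG.2.2.2.1 B).1.measurableSet h
      (fun x hx => gg_out hE1 hρ hx.2), gg_ball hF hE1 z hρ]

theorem gg_unif_disj (hE1 : St_EXP1) (hG : St_GEO1) {z : ℂ} {ρ : ℝ} (hρ : 0 < ρ)
    {S B : Dy} (h : closedBall z ρ ⊆ box S) (h1 : ¬S <:+ B) (h2 : ¬B <:+ S) :
    ∫ y, gg z ρ y ∂unif B = 0 := by
  have h3 := (hG.2.2.2.2.2.1 S B h1 h2).2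
  have h4 : unif B (box S) = 0 := by
    rw [unif, Measure.smul_apply, Measure.restrict_apply (hG.2.2.2.1 S).1.measurableSet, h3,
      smul_zero]
  apply integral_eq_zero_of_ae
  have h5 : ∀ᵐ y ∂unif B, y ∉ box S := measure_eq_zero_iff_ae_notMem.1 h4
  filter_upwards [h5] with y hy using gg_out hE1 hρ fun h' => hy (h h')

theorem pD_le (hE1 : St_EXP1) {z : ℂ} {ρ : ℝ} (hρ : 0 < ρ) (y : ℂ) :
    pD z ρ y ≤ -Real.log (max ‖y - z‖ ρ) + 1 / 2 ∧ -Real.log (max ‖y - z‖ ρ) ≤ pD z ρ y := by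
  rw [pD_eq hE1 hρ]
  split_ifs with h
  · rw [max_eq_left h]; constructor <;> linarith
  · rw [not_le] at h
    rw [max_eq_right h.le]
    have h1 : 0 ≤ ‖y - z‖ ^ 2 / ρ ^ 2 := by positivity
    have h2 : ‖y - z‖ ^ 2 / ρ ^ 2 ≤ 1 := by
      rw [div_le_one (by positivity)]
      exact pow_le_pow_left₀ (norm_nonneg _) h.le 2
    constructor <;> linarith

theorem potY_le (hE1 : St_EXP1) {z : ℂ} {d : ℝ} (hd : 0 < d) {y : ℂ} (hy : y ≠ z) :
    4 / 3 * pD z (d / 2) y - 1 / 3 * pD z d y ≤ -Real.log ‖y - z‖ + 1 := by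
  have h1 := (pD_le hE1 (half_pos hd) (z := z) y).1
  have h2 := (pD_le hE1 hd (z := z) y).2
  have ht : 0 < ‖y - z‖ := norm_pos_iff.2 (sub_ne_zero.2 hy)
  have hm : 0 < max ‖y - z‖ (d / 2) := lt_max_of_lt_left ht
  have h3 : Real.log (max ‖y - z‖ d) ≤ Real.log 2 + Real.log (max ‖y - z‖ (d / 2)) := by
    rw [← Real.log_mul two_ne_zero hm.ne']
    apply Real.log_le_log (lt_max_of_lt_left ht)
    have a1 := le_max_left ‖y - z‖ (d / 2)
    have a2 := le_max_right ‖y - z‖ (d / 2)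
    exact max_le (by linarith) (by linarith)
  have h4 : Real.log ‖y - z‖ ≤ Real.log (max ‖y - z‖ (d / 2)) :=
    Real.log_le_log ht (le_max_left _ _)
  have h5 : Real.log 2 ≤ 1 := by
    have := Real.log_le_sub_one_of_pos (show (0 : ℝ) < 2 by norm_num); linarith
  linarith

theorem log_max_le {s t u : ℝ} (hs : 0 < s) (ht : 0 < t) (hu : u ≤ t + s) :
    Real.log (max u s) - Real.log t ≤ 1 + Real.posLog (s / t) := by
  have hm : 0 < max t s := lt_max_of_lt_left ht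
  have h3 : Real.log (max u s) ≤ Real.log 2 + Real.log (max t s) := by
    rw [← Real.log_mul two_ne_zero hm.ne']
    apply Real.log_le_log (lt_max_of_lt_right hs)
    have a1 := le_max_left t s
    have a2 := le_max_right t s
    exact max_le (by linarith) (by linarith)
  have h5 : Real.log 2 ≤ 1 := by
    have := Real.log_le_sub_one_of_pos (show (0 : ℝ) < 2 by norm_num); linarith
  have h6 : Real.log (max t s) - Real.log t ≤ Real.posLog (s / t) := by
    rcases le_total s t with h | h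
    · rw [max_eq_left h, sub_self]; exact Real.posLog_nonneg
    · rw [max_eq_right h, ← Real.log_div hs.ne' ht.ne', Real.posLog_def]; exact le_max_right _ _
  linarith

end YV

open YV in
theorem blk_YV (_hP : St_P1) (hF : St_FE) (hE1 : St_EXP1) (hE2 : St_EXP2) (hG : St_GEO1)
    (hM : St_MOD) (hB : St_BMP) : St_YV := by
  obtain ⟨-, -, -, hI, hk, C2, hC2, hpot, -, hkS, hins, -⟩ := hE2
  obtain ⟨-, E, C1, -, hC1, hbump, hBM⟩ := hB
  set k0 : ℝ := 16 / 9 * Ie (disc 0 (1 / 2)) (disc 0 (1 / 2)) -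
    4 / 9 * Ie (disc 0 (1 / 2)) (disc 0 1) - 4 / 9 * Ie (disc 0 1) (disc 0 (1 / 2)) +
    1 / 9 * Ie (disc 0 1) (disc 0 1) with hk0
  refine ⟨|k0| + 3 * C2 + 3 * C1 + 2, fun M S z d hO hd hz => ?_⟩
  obtain ⟨-, -, -, hM4, -, hM6, -, hM8, -⟩ := hM M
  obtain ⟨hub, -⟩ := hBM M
  have hk1 := abs_nonneg k0
  have hk2 := le_abs_self k0
  have hbox : ∀ A : Dy, box A ⊆ M.O := fun A =>
    ((hG.2.2.2.2.1 A []).2 List.nil_suffix).trans hO
  have hd2 := half_pos hd
  have hz2 : closedBall z (d / 2) ⊆ box S :=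
    (closedBall_subset_closedBall (half_le_self hd.le)).trans hz
  have p1 := pfe_disc hF z hd2
  have p2 := pfe_disc hF z hd
  have s1 : disc z (d / 2) (box S)ᶜ = 0 := null_of_sub (disc_supp hF z hd2) hz2
  have s2 : disc z d (box S)ᶜ = 0 := null_of_sub (disc_supp hF z hd) hz
  have o1 := null_of_sub s1 (hbox S)
  have o2 := null_of_sub s2 (hbox S)
  have oU : ∀ A, unif A M.Oᶜ = 0 := fun A => null_of_sub (unif_supp hF A) (hbox A)
  have hY : ∀ v : HH, ⟪M.Yv z d, v⟫ =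
      4 / 3 * ⟪M.e (disc z (d / 2)), v⟫ - 1 / 3 * ⟪M.e (disc z d), v⟫ := by
    intro v
    rw [Model.Yv, inner_sub_left, real_inner_smul_left, real_inner_smul_left]
  have hYA : ∀ A, ⟪M.Yv z d, M.eS A⟫ =
      M.C0 + ∫ y, (4 / 3 * pD z (d / 2) y - 1 / 3 * pD z d y) ∂unif A := by
    intro A
    have a1 := ie_disc hF z hd2 (pfe_unif hF A).1
    have a2 := ie_disc hF z hd (pfe_unif hF A).1
    rw [hY, Model.eS, hM4 _ _ p1 (pfe_unif hF A) o1 (oU A), hM4 _ _ p2 (pfe_unif hF A) o2 (oU A),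
      integral_sub (a1.2.const_mul _) (a2.2.const_mul _), integral_const_mul, integral_const_mul,
      a1.1, a2.1]
    ring
  have item1 : ∀ B, (B <:+ S ∨ ¬S <:+ B) → ⟪M.Yv z d, M.eS B⟫ = M.C0 + potS B z := by
    intro B hB
    have a1 := ie_disc hF z hd2 (pfe_unif hF B).1
    have a2 := ie_disc hF z hd (pfe_unif hF B).1
    have e1 : ∀ {ρ : ℝ}, Integrable (pD z ρ) (unif B) →
        ∫ y, pD z ρ y ∂unif B = (∫ y, gg z ρ y ∂unif B) + potS B z := by
      intro ρ h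
      unfold gg potS
      rw [integral_add h (hI B z), integral_neg]; ring
    rw [hYA, integral_sub (a1.2.const_mul _) (a2.2.const_mul _), integral_const_mul,
      integral_const_mul, e1 a1.2, e1 a2.2]
    by_cases hBS : B <:+ S
    · have hsub := (hG.2.2.2.2.1 S B).2 hBS
      rw [gg_unif_sub hF hE1 hG hd2 (hz2.trans hsub), gg_unif_sub hF hE1 hG hd (hz.trans hsub)]
      ring
    · have hSB := hB.resolve_left hBS
      rw [gg_unif_disj hE1 hG hd2 hz2 hSB hBS, gg_unif_disj hE1 hG hd hz hSB hBS]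
      ring
  have hs := (hG.1 S).1
  have hzc : ‖z - ctr S‖ ≤ 3 / 4 * side S :=
    (hG.2.2.2.1 S).2.2.2.1 z (hz (mem_closedBall_self hd.le))
  have hSA : ∀ A, ⟪M.eS S, M.eS A⟫ = M.C0 + kS S A := fun A =>
    hM4 _ _ (pfe_unif hF S) (pfe_unif hF A) (oU S) (oU A)
  have hbd : ∀ S' ν, PFE ν → 0 ≤ ⟪M.e ν, M.ub S'⟫ ∧ ⟪M.e ν, M.ub S'⟫ ≤ C1 := by
    intro S' ν hν
    have := hν.2
    rw [real_inner_comm, hub S' (hbox S') ν hν.1]
    refine ⟨integral_nonneg fun x => ((hbump S').2.1 x).1, ?_⟩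
    have h1 : ‖∫ x, bumpF S' x ∂ν‖ ≤ C1 * ν.real univ :=
      norm_integral_le_of_norm_le_const (Eventually.of_forall fun x => by
        rw [Real.norm_of_nonneg ((hbump S').2.1 x).1]; exact ((hbump S').2.1 x).2)
    rw [probReal_univ, mul_one] at h1
    exact (le_abs_self _).trans h1
  refine ⟨item1, ?_, ?_, ?_, ?_, ?_, ?_⟩
  · have b11 := ie_scale hF hE1 z one_half_pos one_half_pos hd
    have b12 := ie_scale hF hE1 z one_half_pos one_pos hd
    have b21 := ie_scale hF hE1 z one_pos one_half_pos hd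
    have b22 := ie_scale hF hE1 z one_pos one_pos hd
    rw [show d * (1 / 2) = d / 2 by ring] at b11 b12 b21
    rw [mul_one] at b12 b21 b22
    have hYY : ⟪M.Yv z d, M.Yv z d⟫ = M.C0 + k0 - Real.log d := by
      rw [hY, real_inner_comm, hY, real_inner_comm (M.Yv z d), hY, hM4 _ _ p1 p1 o1 o1,
        hM4 _ _ p1 p2 o1 o2, hM4 _ _ p2 p1 o2 o1, hM4 _ _ p2 p2 o2 o2, b11, b12, b21, b22, hk0]
      ring
    have c1 := hpot S z
    have c2 := hkS S S
    rw [max_eq_right (by linarith)] at c1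
    rw [sub_self, norm_zero, max_self, max_eq_right hs.le] at c2
    rw [norm_sub_sq_real, ← real_inner_self_eq_norm_sq, ← real_inner_self_eq_norm_sq, hYY,
      item1 S (Or.inl List.suffix_rfl), hSA, Real.log_div hs.ne' hd.ne']
    have := abs_le.1 c1
    have := abs_le.1 c2
    linarith
  · intro A
    have := (pfe_unif hF A).2
    have a1 := ie_disc hF z hd2 (pfe_unif hF A).1
    have a2 := ie_disc hF z hd (pfe_unif hF A).1
    have a3 : Integrable (potS S) (unif A) := by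
      have := (pfe_unif hF S).2
      exact (hF.1 _ _ (pfe_unif hF A).1 (pfe_unif hF S).1).neg.integral_prod_left
    have a4 := hins (side S) z A hs
    have a5 : ∀ᵐ y ∂unif A, y ≠ z := by
      have := measure_eq_zero_iff_ae_notMem.1 ((pfe_unif hF A).1.noAtoms z)
      filter_upwards [this] with y hy using hy
    have a6 : ∫ y, ((4 / 3 * pD z (d / 2) y - 1 / 3 * pD z d y) - potS S y) ∂unif A ≤
        ∫ y, ((C2 + 2) + Real.posLog (side S / ‖y - z‖)) ∂unif A := by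
      refine integral_mono_ae (((a1.2.const_mul _).sub (a2.2.const_mul _)).sub a3)
        ((integrable_const _).add a4.1) ?_
      filter_upwards [a5] with y hy
      have b1 := potY_le hE1 hd hy
      have b2 := (abs_le.1 (hpot S y)).1
      have b3 : ‖y - ctr S‖ ≤ ‖y - z‖ + side S := by
        have := norm_sub_le_norm_sub_add_norm_sub y z (ctr S)
        linarith
      have b4 := log_max_le hs (norm_pos_iff.2 (sub_ne_zero.2 hy)) b3
      linarith
    have a7 : Integrable (fun y => 4 / 3 * pD z (d / 2) y - 1 / 3 * pD z d y) (unif A) :=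
      (a1.2.const_mul _).sub (a2.2.const_mul _)
    rw [integral_sub a7 a3,
      integral_add (integrable_const _) a4.1, integral_const, probReal_univ, one_smul] at a6
    rw [inner_sub_left, hYA, hSA, (hk S A).1]
    linarith [a4.2]
  · intro S'
    have a1 := hbd S' _ p1
    have a2 := hbd S' _ p2
    have a3 := hbd S' _ (pfe_unif hF S)
    rw [inner_sub_left, hY, Model.eS, abs_le]
    constructor <;> linarith [a1.1, a1.2, a2.1, a2.2, a3.1, a3.2]
  · intro S' h1 h2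
    have hzero : ∀ x ∈ box S, bumpF S' x = 0 := by
      intro x hx
      apply (hbump S').2.2.1
      have hs' := (hG.1 S').1
      by_contra hc
      rw [not_le] at hc
      have b1 : ball (ctr S') (side S' / 2) ⊆ interior (box S') :=
        interior_maximal (ball_subset_closedBall.trans (hG.2.2.2.1 S').2.2.2.2) isOpen_ball
      have b2 : x ∈ ball (ctr S') (side S' / 2) := by
        rw [mem_ball, dist_eq_norm]; linarith
      exact Set.disjoint_left.1 (hG.2.2.2.2.2.1 S' S h2 h1).1 (b1 b2) hx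
    rw [hY, real_inner_comm, hub S' (hbox S') _ p1.1, real_inner_comm, hub S' (hbox S') _ p2.1,
      int_const p1.2 s1 hzero, int_const p2.2 s2 hzero]
    ring
  · intro φ hφ
    have hone : ∀ x ∈ box S, φ x = 1 := fun x hx =>
      hφ.2.2.1.self_of_nhdsSet x ((hG.2.2.2.2.1 S []).2 List.nil_suffix hx)
    rw [hY, M.eg _ _ p1.1 hφ.1 hφ.2.1, M.eg _ _ p2.1 hφ.1 hφ.2.1, int_const p1.2 s1 hone,
      int_const p2.2 s2 hone]
    ring
  · intro c r hr hcr
    have pc := (hF.2.2.2.2.2.2.2.2.1 c r hr).1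
    have hv : ∀ μ, PFE μ → μ (box S)ᶜ = 0 → Ie μ (circ c r) = -Real.log r := by
      intro μ hμ h0
      rw [(hF.2.2.2.2.1 _ _ hμ.1 pc.1).1, hM8 c r μ hr hμ, int_const hμ.2 h0 (c := Real.log r)]
      intro x hx
      have := hcr hx
      rw [mem_closedBall, dist_eq_norm] at this
      rw [max_eq_right this]
    have a1 := hM6 _ _ _ p1 (pfe_unif hF S) pc o1 (oU S)
    have a2 := hM6 _ _ _ p2 (pfe_unif hF S) pc o2 (oU S)
    rw [hv _ p1 s1, hv _ (pfe_unif hF S) (unif_supp hF S), inner_sub_left] at a1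
    rw [hv _ p2 s2, hv _ (pfe_unif hF S) (unif_supp hF S), inner_sub_left] at a2
    rw [inner_sub_left, hY, Model.eS, Model.eC]
    linarith

end

end Pool.Agent.Lib.APPS
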