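import Pool.Agent.Lib.APPS.Blue5
import Pool.Agent.Lib.APPS.B_DISCa
import Pool.Agent.Lib.APPS.B_YV

/-!
Block PRD: the explicit predictor built from harmonic measure on an inscribed disc.
-/

namespace Pool.Agent.Lib.APPS

open MeasureTheory ProbabilityTheory Filter Topology Set Metric
open scoped NNReal ENNReal RealInnerProductSpace

noncomputable section

namespace PRD

open DISC YV

theorem key' (hFE : St_FE) (hE1 : St_EXP1) {c y : ℂ} {r : ℝ} (hr : 0 < r) (hy' : ‖y - c‖ < r)
    (x : ℂ) :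
    (∀ᵐ ζ ∂circ 0 1, mob c r (y, ζ) ≠ x) ∧
    Integrable (fun ζ => Real.log ‖x - mob c r (y, ζ)‖) (circ 0 1) ∧
    ∫ ζ, Real.log ‖x - mob c r (y, ζ)‖ ∂circ 0 1 = Lk c r x y := by
  have hab : x - y ≠ 0 ∨ bk c r x y ≠ 0 := by
    by_contra h
    push Not at h
    have h1 := bk_sq (c := c) hr x y
    rw [h.1, h.2, sub_eq_zero.1 h.1] at h1
    have h2 : 0 < r ^ 2 - ‖y - c‖ ^ 2 := by nlinarith [norm_nonneg (y - c)]
    have h3 : 0 < (r ^ 2 - ‖y - c‖ ^ 2) * (r ^ 2 - ‖y - c‖ ^ 2) / r ^ 2 := by positivity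
    rw [← h1] at h3
    simp at h3
  obtain ⟨h1, h2, h3⟩ := circ_log hFE hE1 _ _ hab
  obtain ⟨-, h5, h6⟩ := circ_log hFE hE1 1 (-(starRingEnd ℂ) ((y - c) / r)) (Or.inl one_ne_zero)
  have hae : (fun ζ => Real.log ‖x - mob c r (y, ζ)‖) =ᵐ[circ 0 1] fun ζ =>
      Real.log ‖x - y - bk c r x y * ζ‖ - Real.log ‖1 - -(starRingEnd ℂ) ((y - c) / r) * ζ‖ := by
    filter_upwards [h1, circ_ae hFE] with ζ hζ hζ1
    rw [sub_mob hr hy' hζ1, norm_div, Real.log_div (norm_ne_zero_iff.2 hζ)
      (norm_ne_zero_iff.2 (den_ne hr hy' hζ1)), neg_mul, sub_neg_eq_add]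
  refine ⟨?_, (h2.sub h5).congr hae.symm, ?_⟩
  · filter_upwards [h1, circ_ae hFE] with ζ hζ hζ1 h
    have := sub_mob hr hy' hζ1 x
    rw [h, sub_self] at this
    exact div_ne_zero hζ (den_ne hr hy' hζ1) this.symm
  · rw [integral_congr_ae hae, integral_sub h2 h5, h3, h6, norm_neg, Complex.norm_conj,
      norm_hat hr, norm_one, max_eq_left ((div_le_one hr).2 hy'.le), Real.log_one, sub_zero]
    rfl

/-- harmonic measure of the disc seen from `w` -/
def hm (c : ℂ) (r : ℝ) (w : ℂ) : Measure ℂ := (circ 0 1).map fun ζ => mob c r (w, ζ)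

theorem meas_m (c : ℂ) (r : ℝ) (w : ℂ) : Measurable fun ζ => mob c r (w, ζ) :=
  (meas_mob c r).comp measurable_prodMk_left

theorem hm_prob (hFE : St_FE) (c : ℂ) (r : ℝ) (w : ℂ) : IsProbabilityMeasure (hm c r w) := by
  have := circ_prob hFE 0 one_pos
  exact Measure.isProbabilityMeasure_map (meas_m c r w).aemeasurable

theorem hm_sph (hFE : St_FE) {c w : ℂ} {r : ℝ} (hr : 0 < r) (hw : ‖w - c‖ < r) :
    ∀ᵐ z ∂hm c r w, z ∈ sphere c r := by
  refine (ae_map_iff (p := fun z => z ∈ sphere c r) (meas_m c r w).aemeasurable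
    isClosed_sphere.measurableSet).2 ?_
  filter_upwards [circ_ae hFE] with ζ hζ
  rw [mem_sphere_iff_norm]
  exact mob_sph hr hw hζ

theorem hm_pot (hFE : St_FE) (hE1 : St_EXP1) {c w : ℂ} {r : ℝ} (hr : 0 < r) (hw : ‖w - c‖ < r)
    (x : ℂ) : Integrable (fun z => Real.log ‖x - z‖) (hm c r w) ∧
      ∫ z, Real.log ‖x - z‖ ∂hm c r w = Lk c r x w := by
  have hl : Measurable fun z : ℂ => Real.log ‖x - z‖ :=
    Real.measurable_log.comp (continuous_const.sub continuous_id).norm.measurable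
  obtain ⟨-, h2, h3⟩ := key' hFE hE1 hr hw x
  unfold hm
  refine ⟨?_, ?_⟩
  · rw [integrable_map_measure hl.aestronglyMeasurable (meas_m c r w).aemeasurable]
    exact h2
  · rw [integral_map (meas_m c r w).aemeasurable hl.aestronglyMeasurable, h3]

theorem hm_PFE (hFE : St_FE) (hE1 : St_EXP1) {c w : ℂ} {r : ℝ} (hr : 0 < r) (hw : ‖w - c‖ < r) :
    PFE (hm c r w) := by
  have := hm_prob hFE c r w
  have hs := hm_sph hFE hr hw
  refine ⟨⟨inferInstance, ⟨‖c‖ + r, ?_⟩, fun x => ?_, ?_⟩, this⟩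
  · refine measure_mono_null (compl_subset_compl.2 fun z hz => ?_) hs
    have hz' : ‖z - c‖ = r := mem_sphere_iff_norm.1 hz
    rw [mem_closedBall_zero_iff]
    have := norm_add_le c (z - c)
    rw [add_sub_cancel, hz'] at this
    exact this
  · have h : ∀ᵐ z ∂hm c r w, z ∈ ({x}ᶜ : Set ℂ) :=
      (ae_map_iff (p := fun z => z ∈ ({x}ᶜ : Set ℂ)) (meas_m c r w).aemeasurable
        (measurableSet_singleton x).compl).2 (key' hFE hE1 hr hw x).1
    rw [ae_iff] at h
    simpa using h
  · rw [integrable_prod_iff meas_logsub.aestronglyMeasurable]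
    refine ⟨Eventually.of_forall fun x => (hm_pot hFE hE1 hr hw x).1, ?_⟩
    refine Integrable.of_bound
      meas_logsub.stronglyMeasurable.norm.integral_prod_right'.aestronglyMeasurable
      (2 * |Real.log (r + r)| - Real.log (r - ‖w - c‖)) ?_
    filter_upwards [hs] with x hx
    have hx' : ‖x - c‖ = r := mem_sphere_iff_norm.1 hx
    rw [Real.norm_of_nonneg (integral_nonneg fun _ => norm_nonneg _)]
    obtain ⟨h2, h3⟩ := hm_pot hFE hE1 hr hw x
    have h4 : ∫ z, ‖Real.log ‖x - z‖‖ ∂hm c r w ≤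
        ∫ z, (2 * |Real.log (r + r)| - Real.log ‖x - z‖) ∂hm c r w := by
      refine integral_mono_ae h2.norm ((integrable_const _).sub h2) ?_
      filter_upwards [hs] with z hz
      rw [Real.norm_eq_abs]
      refine abs_log_le (norm_nonneg _) ?_
      have h5 := norm_sub_le (x - c) (z - c)
      rwa [sub_sub_sub_cancel_right, hx', mem_sphere_iff_norm.1 hz] at h5
    rw [integral_sub (integrable_const _) h2, h3, Lk_out hr hx'.ge hw.le] at h4
    simp only [integral_const, probReal_univ, smul_eq_mul, one_mul] at h4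
    have h6 : r - ‖w - c‖ ≤ ‖x - w‖ := by
      have := norm_sub_norm_le (x - c) (w - c)
      rwa [sub_sub_sub_cancel_right, hx'] at this
    have h7 := Real.log_le_log (by linarith) h6
    linarith

theorem ie_hm (hFE : St_FE) (hE1 : St_EXP1) {c w : ℂ} {r : ℝ} (hr : 0 < r) (hw : ‖w - c‖ < r)
    {ν : Measure ℂ} (hν : FE ν) : Ie (hm c r w) ν = -∫ x, Lk c r x w ∂ν ∧
      Integrable (fun x => Lk c r x w) ν := by
  have hp := hm_PFE hFE hE1 hr hw
  have := hν.fin
  have := hp.1.fin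
  refine ⟨?_, ?_⟩
  · rw [(hFE.2.2.2.2.1 _ _ hp.1 hν).1, (hFE.2.2.2.2.1 _ _ hν hp.1).2, ← integral_neg]
    refine integral_congr_ae (Eventually.of_forall fun x => ?_)
    simp only [integral_neg]
    rw [(hm_pot hFE hE1 hr hw x).2]
  · refine (hFE.1 _ _ hν hp.1).integral_prod_left.congr (Eventually.of_forall fun x => ?_)
    exact (hm_pot hFE hE1 hr hw x).2

theorem disc_sq (hFE : St_FE) (hE1 : St_EXP1) (c : ℂ) {r : ℝ} (hr : 0 < r) :
    ∫ y, ‖y - c‖ ^ 2 ∂disc c r = r ^ 2 / 2 := by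
  have hm1 : Measurable fun y : ℂ => ‖y - c‖ ^ 2 := by fun_prop
  rw [integral_eq_lintegral_of_nonneg_ae (Eventually.of_forall fun y => by positivity)
    hm1.aestronglyMeasurable, hE1.2.2.2.2 c r _ hr hm1.ennreal_ofReal]
  have e1 : ∀ s ∈ Ioc (0 : ℝ) r, ENNReal.ofReal (2 * s / r ^ 2) *
      ∫⁻ x, ENNReal.ofReal (‖x - c‖ ^ 2) ∂circ c s = ENNReal.ofReal (2 / r ^ 2 * s ^ 3) := by
    intro s hs
    have := circ_prob hFE c hs.1
    have h1 : ∀ᵐ x ∂circ c s, x ∈ sphere c s := circ_sph hFE c hs.1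
    rw [lintegral_congr_ae (g := fun _ => ENNReal.ofReal (s ^ 2))
      (h1.mono fun x hx => by simp only; rw [mem_sphere_iff_norm.1 hx]), lintegral_const,
      measure_univ, mul_one, ← ENNReal.ofReal_mul (by have := hs.1; positivity)]
    congr 1
    ring
  rw [setLIntegral_congr_fun measurableSet_Ioc e1, ← ofReal_integral_eq_lintegral_ofReal,
    ← intervalIntegral.integral_of_le hr.le, intervalIntegral.integral_const_mul, integral_pow,
    ENNReal.toReal_ofReal (by simp; positivity)]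
  · field_simp
    ring
  · exact (Continuous.integrableOn_Icc (by fun_prop)).mono_set Ioc_subset_Icc_self
  · refine (ae_restrict_iff' measurableSet_Ioc).2 (Eventually.of_forall fun s hs => ?_)
    have := hs.1
    simp only [Pi.zero_apply]
    positivity

theorem ie_dd (hFE : St_FE) (hE1 : St_EXP1) (c : ℂ) {r : ℝ} (hr : 0 < r) :
    Ie (disc c r) (disc c r) = -Real.log r + 1 / 4 := by
  have hp := pfe_disc hFE c hr
  have := hp.2
  have hb : ∀ᵐ y ∂disc c r, ‖y - c‖ ≤ r := ae_ball (disc_supp hFE c hr)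
  have hi : Integrable (fun y : ℂ => ‖y - c‖ ^ 2) (disc c r) :=
    Integrable.of_bound (by fun_prop) (r ^ 2) (hb.mono fun y hy => by
      rw [Real.norm_of_nonneg (by positivity)]
      exact pow_le_pow_left₀ (norm_nonneg _) hy 2)
  rw [(ie_disc hFE c hr hp.1).1, integral_congr_ae
    (g := fun y => (-Real.log r + 1 / 2) - (1 / (2 * r ^ 2)) * ‖y - c‖ ^ 2) (hb.mono fun y hy => by
      simp only
      rw [pD_eq hE1 hr]
      split_ifs with h
      · rw [le_antisymm hy h]
        field_simp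
        ring
      · field_simp
        ring),
    integral_sub (integrable_const _) (hi.const_mul _), integral_const_mul, disc_sq hFE hE1 c hr]
  simp only [integral_const, probReal_univ, smul_eq_mul, one_mul]
  field_simp
  ring

theorem pred (hM : St_MOD) (hF : St_FE) (hE1 : St_EXP1) (hE2 : St_EXP2) (hG : St_GEO1)
    (M : Model) (S : Dy) (hO : box [] ⊆ M.O) {c w : ℂ} {r : ℝ} (hr : 0 < r) (hw : ‖w - c‖ < r)
    (hz : closedBall c r ⊆ box S) : ∃ y : HH,
    (∀ B, (B <:+ S ∨ ¬S <:+ B) → ⟪y, M.eS B⟫ = M.C0 + potS B w) ∧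
    ⟪y, y⟫ = M.C0 - Real.log (r - ‖w - c‖ ^ 2 / r) + (1 - ‖w - c‖ ^ 2 / r ^ 2) ^ 2 := by
  obtain ⟨-, -, -, hM4, -, -, -, hM8, -⟩ := hM M
  have hI := hE2.2.2.2.1
  have hbox : ∀ A : Dy, box A ⊆ M.O := fun A =>
    ((hG.2.2.2.2.1 A []).2 List.nil_suffix).trans hO
  set lam := 2 * (1 - ‖w - c‖ ^ 2 / r ^ 2) with hlam
  have ph := hm_PFE hF hE1 hr hw
  have pd := pfe_disc hF c hr
  have pc : PFE (circ c r) := (hF.2.2.2.2.2.2.2.2.1 c r hr).1
  have sh : hm c r w (sphere c r)ᶜ = 0 := hm_sph hF hr hw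
  have sd := disc_supp hF c hr
  have sc := circ_sph hF c hr
  have hb := hz.trans (hbox S)
  have oh := null_of_sub sh (sphere_subset_closedBall.trans hb)
  have od := null_of_sub sd hb
  have oc := null_of_sub sc (sphere_subset_closedBall.trans hb)
  have oU : ∀ A, unif A M.Oᶜ = 0 := fun A => null_of_sub (unif_supp hF A) (hbox A)
  have hsym : ∀ μ ν, PFE μ → PFE ν → Ie μ ν = Ie ν μ := fun μ ν h h' =>
    (hF.2.2.2.2.1 _ _ h.1 h'.1).1
  have hc : ∀ μ, PFE μ → μ (closedBall c r)ᶜ = 0 → Ie (circ c r) μ = -Real.log r := by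
    intro μ hμ h0
    rw [hM8 c r μ hr hμ, int_const hμ.2 h0 (c := Real.log r)]
    intro x hx
    rw [max_eq_right (mem_closedBall_iff_norm.1 hx)]
  have ich := hc _ ph (null_of_sub sh sphere_subset_closedBall)
  have icd := hc _ pd sd
  have icc := hc _ pc (null_of_sub sc sphere_subset_closedBall)
  have idd := ie_dd hF hE1 c hr
  have idh : Ie (disc c r) (hm c r w) = -Real.log r := by
    rw [(ie_disc hF c hr ph.1).1, int_const ph.2 sh (c := -Real.log r)]
    intro x hx
    rw [pD_eq hE1 hr, mem_sphere_iff_norm.1 hx, if_pos le_rfl]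
  have ihh : Ie (hm c r w) (hm c r w) = -Real.log (r - ‖w - c‖ ^ 2 / r) := by
    have := ph.2
    have hs := hm_sph hF hr hw
    rw [(ie_hm hF hE1 hr hw ph.1).1, integral_congr_ae (g := fun x => Real.log ‖w - x‖)
      (hs.mono fun x hx => by
        simp only
        rw [Lk_out hr (mem_sphere_iff_norm.1 hx).ge hw.le, norm_sub_rev]),
      (hm_pot hF hE1 hr hw w).2, Lk_in hr hw.le hw.le]
    congr 2
    have h1 : bk c r w w = ((r - ‖w - c‖ ^ 2 / r : ℝ) : ℂ) := by
      rw [bk, Complex.mul_conj, Complex.normSq_eq_norm_sq]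
      push_cast
      ring
    have h2 : 0 ≤ r - ‖w - c‖ ^ 2 / r := by
      rw [sub_nonneg, div_le_iff₀ hr]
      nlinarith [norm_nonneg (w - c)]
    rw [h1, Complex.norm_real, Real.norm_of_nonneg h2]
  have hY : ∀ ν, PFE ν → ν M.Oᶜ = 0 →
      ⟪M.e (hm c r w) + lam • (M.e (disc c r) - M.e (circ c r)), M.e ν⟫ =
      M.C0 + Ie (hm c r w) ν + lam * (Ie (disc c r) ν - Ie (circ c r) ν) := by
    intro ν hν ho
    rw [inner_add_left, real_inner_smul_left, inner_sub_left, hM4 _ _ ph hν oh ho,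
      hM4 _ _ pd hν od ho, hM4 _ _ pc hν oc ho]
    ring
  let g : ℂ → ℝ := fun x => -Lk c r x w + lam * (pD c r x + Real.log (max ‖x - c‖ r)) +
    Real.log ‖w - x‖
  have hg : ∀ ν, PFE ν → Integrable (fun x => Real.log ‖w - x‖) ν →
      Ie (hm c r w) ν + lam * (Ie (disc c r) ν - Ie (circ c r) ν) =
        ∫ x, g x ∂ν - ∫ x, Real.log ‖w - x‖ ∂ν := by
    intro ν hν hi
    have := hν.2
    have := pc.2
    obtain ⟨a1, a2⟩ := ie_hm hF hE1 hr hw hν.1
    obtain ⟨b1, b2⟩ := ie_disc hF c hr hν.1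
    have c2 : Integrable (fun x => Real.log (max ‖x - c‖ r)) ν :=
      (hF.1 _ _ hν.1 pc.1).integral_prod_left.congr
        (Eventually.of_forall fun x => (hE1.1 x c r hr).2)
    have d1 : Integrable (fun x => pD c r x + Real.log (max ‖x - c‖ r)) ν := b2.add c2
    have d2 : Integrable (fun x => -Lk c r x w + lam * (pD c r x + Real.log (max ‖x - c‖ r))) ν :=
      a2.neg.add (d1.const_mul _)
    have d0 : Integrable (fun x => -Lk c r x w) ν := a2.neg
    simp only [g]
    rw [integral_add d2 hi, integral_add d0 (d1.const_mul _), integral_const_mul,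
      integral_add b2 c2, integral_neg, a1, b1, hM8 c r ν hr hν]
    ring
  have g_out : ∀ x, x ∉ closedBall c r → g x = 0 := by
    intro x hx
    rw [mem_closedBall_iff_norm, not_le] at hx
    simp only [g]
    rw [Lk_out hr hx.le hw.le, pD_eq hE1 hr, if_pos hx.le, max_eq_left hx.le, norm_sub_rev w x]
    ring
  have g_disc : ∫ x, g x ∂disc c r = 0 := by
    obtain ⟨a1, a2⟩ := hE1.2.2.2.1 w c r hr
    have h := hg _ pd a1
    rw [integral_neg, if_neg (not_le.2 hw)] at a2
    rw [hsym _ _ ph pd, idh, idd, icd, hlam] at h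
    linarith
  have g_ball : ∫ x in closedBall c r, g x = 0 := by
    have hp : 0 < Real.pi * r ^ 2 := by positivity
    rw [disc, integral_smul_measure, ENNReal.toReal_inv, ENNReal.toReal_ofReal hp.le,
      smul_eq_mul] at g_disc
    exact (mul_eq_zero.1 g_disc).resolve_left (inv_pos.2 hp).ne'
  refine ⟨M.e (hm c r w) + lam • (M.e (disc c r) - M.e (circ c r)), fun B hB => ?_, ?_⟩
  · have g0 : ∫ x, g x ∂unif B = 0 := by
      by_cases hBS : B <:+ S
      · have hsub := hz.trans ((hG.2.2.2.2.1 S B).2 hBS)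
        rw [unif, integral_smul_measure,
          setIntegral_eq_of_subset_of_forall_sdiff_eq_zero (hG.2.2.2.1 B).1.measurableSet hsub
            (fun x hx => g_out x hx.2), g_ball, smul_zero]
      · have h3 := (hG.2.2.2.2.2.1 S B (hB.resolve_left hBS) hBS).2
        have h4 : unif B (box S) = 0 := by
          rw [unif, Measure.smul_apply, Measure.restrict_apply (hG.2.2.2.1 S).1.measurableSet, h3,
            smul_zero]
        apply integral_eq_zero_of_ae
        have h5 : ∀ᵐ y ∂unif B, y ∉ box S := measure_eq_zero_iff_ae_notMem.1 h4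
        filter_upwards [h5] with y hy using g_out y fun h' => hy (hz h')
    rw [Model.eS, hY _ (pfe_unif hF B) (oU B), add_assoc, hg _ (pfe_unif hF B) (hI B w), g0, potS,
      integral_neg]
    ring
  · rw [inner_add_right, real_inner_smul_right, inner_sub_right, hY _ ph oh, hY _ pd od,
      hY _ pc oc, hsym _ _ ph pd, hsym _ _ ph pc, hsym _ _ pd pc, ihh, idh, ich, idd, icd, icc, hlam]
    ring

theorem ball_unit {c : ℂ} {m : ℝ} (h1 : m ≤ c.re) (h2 : c.re ≤ 1 - m) (h3 : m ≤ c.im)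
    (h4 : c.im ≤ 1 - m) : closedBall c m ⊆ box [] := by
  intro x hx
  rw [mem_closedBall_iff_norm] at hx
  have a1 := abs_le.1 ((Complex.abs_re_le_norm (x - c)).trans hx)
  have a2 := abs_le.1 ((Complex.abs_im_le_norm (x - c)).trans hx)
  simp only [Complex.sub_re, Complex.sub_im] at a1 a2
  simp only [box, corner, side, List.length_nil, pow_zero, Complex.zero_re, Complex.zero_im,
    zero_add, mem_ofPred_eq, mem_Icc]
  exact ⟨⟨by linarith [a1.1], by linarith [a1.2]⟩, by linarith [a2.1], by linarith [a2.2]⟩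

theorem geo (z : ℂ) : ∃ c : ℂ, closedBall c (dmax z) ⊆ box [] ∧ ‖z - c‖ = dmax z - dmin z := by
  have x1 : dxx z ≤ z.re := min_le_left _ _
  have x2 : dxx z ≤ 1 - z.re := min_le_right _ _
  have y1 : dyy z ≤ z.im := min_le_left _ _
  have y2 : dyy z ≤ 1 - z.im := min_le_right _ _
  have nr : ∀ t : ℝ, ‖z - (⟨t, z.im⟩ : ℂ)‖ = |z.re - t| := fun t => by
    have : z - (⟨t, z.im⟩ : ℂ) = ((z.re - t : ℝ) : ℂ) := by
      apply Complex.ext <;> simp
    rw [this, Complex.norm_real, Real.norm_eq_abs]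
  have ni : ∀ t : ℝ, ‖z - (⟨z.re, t⟩ : ℂ)‖ = |z.im - t| := fun t => by
    have : z - (⟨z.re, t⟩ : ℂ) = ((z.im - t : ℝ) : ℂ) * Complex.I := by
      apply Complex.ext <;> simp
    rw [this, norm_mul, Complex.norm_I, mul_one, Complex.norm_real, Real.norm_eq_abs]
  unfold dmax dmin
  rcases le_total (dxx z) (dyy z) with h | h
  · rw [max_eq_right h, min_eq_left h]
    rcases min_choice z.re (1 - z.re) with e | e
    · have e' : dxx z = z.re := e
      refine ⟨⟨dyy z, z.im⟩, ball_unit le_rfl (by simp only; linarith) y1 (by simp only; linarith), ?_⟩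
      rw [nr, abs_of_nonpos (by linarith)]
      linarith
    · have e' : dxx z = 1 - z.re := e
      refine ⟨⟨1 - dyy z, z.im⟩, ball_unit (by simp only; linarith) le_rfl y1
        (by simp only; linarith), ?_⟩
      rw [nr, abs_of_nonneg (by linarith)]
      linarith
  · rw [max_eq_left h, min_eq_right h]
    rcases min_choice z.im (1 - z.im) with e | e
    · have e' : dyy z = z.im := e
      refine ⟨⟨z.re, dxx z⟩, ball_unit x1 (by simp only; linarith) le_rfl (by simp only; linarith), ?_⟩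
      rw [ni, abs_of_nonpos (by linarith)]
      linarith
    · have e' : dyy z = 1 - z.im := e
      refine ⟨⟨z.re, 1 - dxx z⟩, ball_unit x1 (by simp only; linarith) (by simp only; linarith)
        le_rfl, ?_⟩
      rw [ni, abs_of_nonneg (by linarith)]
      linarith

end PRD

open PRD in
theorem blk_PRD (hM : St_MOD) (hF : St_FE) (hE1 : St_EXP1) (hE2 : St_EXP2) (hG : St_GEO1) :
    St_PRD := by
  intro M S z hO ha
  obtain ⟨c0, hc0, hn⟩ := geo z
  have hs := (hG.1 S).1
  have ham : dmin z ≤ dmax z := min_le_max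
  have hm0 : 0 < dmax z := ha.trans_le ham
  set a := dmin z with had
  set m := dmax z with hmd
  have hs' : (side S : ℂ) ≠ 0 := by exact_mod_cast hs.ne'
  have e1 : ∀ u v, ‖zS S u - zS S v‖ = ‖u - v‖ * side S := by
    intro u v
    rw [show zS S u - zS S v = (side S : ℂ) * (u - v) by unfold zS; ring, norm_mul,
      Complex.norm_real, Real.norm_of_nonneg hs.le, mul_comm]
  have hw : ‖zS S z - zS S c0‖ = (m - a) * side S := by rw [e1, hn]
  have hz : closedBall (zS S c0) (m * side S) ⊆ box S := by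
    intro p hp
    have hb := (hG.2.2.1 [] S).2.2
    rw [List.nil_append] at hb
    have e : zS S ((p - corner S) / side S) = p := by
      unfold zS
      field_simp
      ring
    rw [hb]
    refine ⟨_, hc0 ?_, e⟩
    rw [mem_closedBall_iff_norm] at hp ⊢
    rw [← e, e1] at hp
    exact le_of_mul_le_mul_right hp hs
  obtain ⟨y, hy1, hy2⟩ := pred hM hF hE1 hE2 hG M S hO (w := zS S z) (mul_pos hm0 hs)
    (by rw [hw]; nlinarith) hz
  refine ⟨y, hy1, ?_⟩
  have hbox : box S ⊆ M.O := ((hG.2.2.2.2.1 S []).2 List.nil_suffix).trans hO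
  have hSS : ⟪M.eS S, M.eS S⟫ = M.C0 + S.length * l2 + kS [] [] := by
    have := (hM M).2.2.2.2.2.2.1 S hbox [] []
    simpa [covE] using this
  have hp := hE2.2.2.1 [] S z
  rw [List.nil_append] at hp
  have hls : Real.log (side S) = -(S.length * l2) := by
    unfold side l2
    rw [Real.log_pow, one_div, Real.log_inv]
    ring
  have h2 : 0 < 2 - a / m := by
    have : a / m ≤ 1 := (div_le_one hm0).2 ham
    linarith
  have f1 : m * side S - ((m - a) * side S) ^ 2 / (m * side S) = a * (2 - a / m) * side S := by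
    field_simp
    ring
  have f2 : 1 - ((m - a) * side S) ^ 2 / (m * side S) ^ 2 = a / m * (2 - a / m) := by
    field_simp
    ring
  rw [hw, f1, f2, Real.log_mul (mul_pos ha h2).ne' hs.ne', hls] at hy2
  rw [norm_sub_sq_real, ← real_inner_self_eq_norm_sq, ← real_inner_self_eq_norm_sq, hy2,
    hy1 S (Or.inl List.suffix_rfl), hSS, hp, vP]
  ring

end

end Pool.Agent.Lib.APPS
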