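import Pool.Agent.Lib.APPS.Blue3

/-!
Block QV: joint law of the radial and lateral parts, and regularity of the exponentials.
-/

namespace Pool.Agent.Lib.APPS

open MeasureTheory ProbabilityTheory Filter Topology Set Metric
open scoped NNReal ENNReal RealInnerProductSpace Classical

noncomputable section

namespace QV

theorem law (hG1 : St_G1) (hG3 : St_G3) (hLAT : St_LAT) (hBM2 : St_BM2) (γ : ℝ) (D : QD γ)
    (M : Model) :
    D.P.map (fun ω => ((fun t => twoS (D.β ω) t, fun p => D.L p ω) : (ℝ → ℝ) × (Cyl × ℕ → ℝ))) =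
      gm.map (fun ω : Om => (fun t => ω (M.radV t), fun p => ω (M.lamV D.θ p))) := by
  obtain ⟨hBP, hP⟩ := hBM2.1 γ D
  have hg : IsProbabilityMeasure gm := hG1.1
  obtain ⟨-, C, -, -, -, hM⟩ := hLAT.2.2 D.θ D.hθ
  obtain ⟨g1, g2, -⟩ := hM M
  have cg := (hBM2.2.2.2 _ _ _ hBP).2.2.2.1
  have i1 : IndepFun (fun ω t => twoS (D.β ω) t) (fun ω p => D.L p ω) D.P :=
    D.hq.ind₂.comp hBM2.2.1.1 measurable_id
  have i2 := hG3.2.2.2.2.1 _ _ M.radV (M.lamV D.θ) fun t p => by rw [real_inner_comm, g2]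
  have m1 : Measurable fun ω t => twoS (D.β ω) t := measurable_pi_lambda _ cg.meas
  have m2 : Measurable fun ω p => D.L p ω := measurable_pi_lambda _ D.hq.lat.meas
  have m3 : Measurable fun (ω : Om) t => ω (M.radV t) := measurable_pi_lambda _ fun _ => meas_ev _
  have m4 : Measurable fun (ω : Om) p => ω (M.lamV D.θ p) :=
    measurable_pi_lambda _ fun _ => meas_ev _
  rw [(indepFun_iff_map_prod_eq_prod_map_map m1.aemeasurable m2.aemeasurable).1 i1,
    (indepFun_iff_map_prod_eq_prod_map_map m3.aemeasurable m4.aemeasurable).1 i2,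
    hG3.1 _ _ _ _ _ cg _ (hLAT.2.1 M), hG3.1 _ _ _ _ _ D.hq.lat _ g1]

theorem rad_cont (hLAT : St_LAT) (M : Model) : Continuous M.radV := by
  have hv := hLAT.2.1 M
  have e : ∀ s t, ‖M.radV s - M.radV t‖ = Real.sqrt |s - t| := by
    intro s t
    rw [← Real.sqrt_sq (norm_nonneg (M.radV s - M.radV t)), norm_sub_sq_real,
      ← real_inner_self_eq_norm_sq, ← real_inner_self_eq_norm_sq, hv, hv, hv]
    congr 1
    simp only [cov2, sub_self, abs_zero]
    ring
  refine continuous_iff_continuousAt.2 fun t => ?_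
  rw [ContinuousAt, tendsto_iff_norm_sub_tendsto_zero]
  simp only [e]
  have : Continuous fun s : ℝ => Real.sqrt |s - t| := by fun_prop
  simpa using this.tendsto t

/-- the exponential read on the pair of processes -/
def Xf (γ c r : ℝ) (k : ℕ) (w : Cyl) (y : (ℝ → ℝ) × (Cyl × ℕ → ℝ)) : ℝ :=
  Real.exp (γ * (c * (y.1 w.1 - QQ γ * w.1) + y.2 ((w.1 + r, w.2), k)))

theorem meas_Xf (γ c r : ℝ) (k : ℕ) (w : Cyl) : Measurable (Xf γ c r k w) := by
  unfold Xf
  fun_prop

def vv (M : Model) (θ : Measure ℂ) (c r : ℝ) (k : ℕ) (w : Cyl) : HH :=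
  c • M.radV w.1 + M.lamV θ ((w.1 + r, w.2), k)

def gg (M : Model) (θ : Measure ℂ) (γ c r : ℝ) (k : ℕ) (w : Cyl) : ℝ :=
  Real.exp (γ ^ 2 * ‖vv M θ c r k w‖ ^ 2 / 2 - γ * c * QQ γ * w.1)

theorem Xf_eq (M : Model) (θ : Measure ℂ) (γ c r : ℝ) (k : ℕ) (w : Cyl) (ω : Om) :
    Xf γ c r k w (fun t => ω (M.radV t), fun p => ω (M.lamV θ p)) =
      gg M θ γ c r k w * Wk γ (vv M θ c r k w) ω := by
  unfold Xf gg Wk
  rw [← Real.exp_add]
  congr 1
  simp only [vv, map_add, map_smul, smul_eq_mul]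
  ring

theorem meas_Wk (γ : ℝ) (v : HH) : Measurable (Wk γ v) := by
  unfold Wk
  exact Real.measurable_exp.comp ((measurable_const.mul (meas_ev v)).sub measurable_const)

end QV

theorem blk_QV (hG1 : St_G1) (hG1D : St_G1D) (hG3 : St_G3) (hG4 : St_G4) (hLAT : St_LAT)
    (hBM2 : St_BM2) : St_QV := by
  intro γ D M
  have hl := QV.law hG1 hG3 hLAT hBM2 γ D M
  refine ⟨hl, fun c r k => ?_⟩
  obtain ⟨hBP, hP⟩ := hBM2.1 γ D
  have cg := (hBM2.2.2.2 _ _ _ hBP).2.2.2.1
  have m1 : Measurable fun ω =>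
      ((fun t => twoS (D.β ω) t, fun p => D.L p ω) : (ℝ → ℝ) × (Cyl × ℕ → ℝ)) :=
    (measurable_pi_lambda _ cg.meas).prodMk (measurable_pi_lambda _ D.hq.lat.meas)
  have m2 : Measurable fun ω : Om =>
      ((fun t => ω (M.radV t), fun p => ω (M.lamV D.θ p)) : (ℝ → ℝ) × (Cyl × ℕ → ℝ)) :=
    (measurable_pi_lambda _ fun _ => meas_ev _).prodMk (measurable_pi_lambda _ fun _ => meas_ev _)
  have tr : ∀ F : (ℝ → ℝ) × (Cyl × ℕ → ℝ) → ℝ≥0∞, Measurable F →
      ∫⁻ ω, F (fun t => twoS (D.β ω) t, fun p => D.L p ω) ∂D.P =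
        ∫⁻ ω : Om, F (fun t => ω (M.radV t), fun p => ω (M.lamV D.θ p)) ∂gm := by
    intro F hF
    rw [← lintegral_map hF m1, ← lintegral_map hF m2, hl]
  have gpos : ∀ w, 0 < QV.gg M D.θ γ c r k w := fun w => Real.exp_pos _
  have wpos : ∀ v ω, 0 < Wk γ v ω := fun v ω => Real.exp_pos _
  refine ⟨?_, fun w => ?_, fun w0 => ?_⟩
  · have j1 := (hBM2.2.2.2 _ _ _ hBP).2.2.2.2.1
    have a1 : Measurable fun q : Cyl × D.Ω => twoS (D.β q.2) q.1.1 :=
      j1.comp (measurable_snd.prodMk measurable_fst.fst)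
    have a2 : Measurable fun q : Cyl × D.Ω => D.L ((q.1.1 + r, q.1.2), k) q.2 :=
      (D.hq.joint k).comp
        (((measurable_fst.fst.add_const r).prodMk measurable_fst.snd).prodMk measurable_snd)
    exact Real.measurable_exp.comp (measurable_const.mul ((measurable_const.mul
      (a1.sub (measurable_const.mul measurable_fst.fst))).add a2))
  · have hm := (QV.meas_Xf γ c r k w).comp m1
    refine ⟨hm.aestronglyMeasurable, ?_⟩
    rw [hasFiniteIntegral_iff_ofReal (Eventually.of_forall fun ω => (Real.exp_pos _).le)]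
    have e := tr (fun y => ENNReal.ofReal (QV.Xf γ c r k w y))
      (QV.meas_Xf γ c r k w).ennreal_ofReal
    refine lt_of_eq_of_lt e ?_
    simp only [QV.Xf_eq, ENNReal.ofReal_mul (gpos w).le]
    rw [lintegral_const_mul' _ _ ENNReal.ofReal_ne_top, hG1D.2.2.2.2.2.1, mul_one]
    exact ENNReal.ofReal_lt_top
  · obtain ⟨-, C, -, -, -, hM⟩ := hLAT.2.2 D.θ D.hθ
    have cl := (hM M).2.2.2.1 k
    have cr := QV.rad_cont hLAT M
    have cv : Continuous (QV.vv M D.θ c r k) :=
      ((cr.comp continuous_fst).const_smul c).add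
        (cl.comp ((continuous_fst.add continuous_const).prodMk continuous_snd))
    have cg' : Continuous (QV.gg M D.θ γ c r k) := by
      unfold QV.gg
      fun_prop
    have hb : Continuous fun w => ENNReal.ofReal (QV.gg M D.θ γ c r k w) *
        ENNReal.ofReal (2 * |γ| * ‖QV.vv M D.θ c r k w - QV.vv M D.θ c r k w0‖) +
        ENNReal.ofReal |QV.gg M D.θ γ c r k w - QV.gg M D.θ γ c r k w0| := by
      simp only [← ENNReal.ofReal_mul (gpos _).le]
      refine (ENNReal.continuous_ofReal.comp ?_).add (ENNReal.continuous_ofReal.comp ?_)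
      · fun_prop
      · fun_prop
    have ht := hb.tendsto w0
    simp only [sub_self, norm_zero, mul_zero, abs_zero, ENNReal.ofReal_zero, add_zero] at ht
    refine tendsto_of_tendsto_of_tendsto_of_le_of_le tendsto_const_nhds ht
      (fun _ => zero_le) fun w => ?_
    have e := tr (fun y => ENNReal.ofReal |QV.Xf γ c r k w y - QV.Xf γ c r k w0 y|)
      ((QV.meas_Xf γ c r k w).sub (QV.meas_Xf γ c r k w0)).abs.ennreal_ofReal
    refine le_of_eq_of_le e ?_
    simp only [QV.Xf_eq]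
    set g := QV.gg M D.θ γ c r k w
    set g0 := QV.gg M D.θ γ c r k w0
    set v := QV.vv M D.θ c r k w
    set v0 := QV.vv M D.θ c r k w0
    have gp : 0 < g := gpos w
    calc ∫⁻ ω, ENNReal.ofReal |g * Wk γ v ω - g0 * Wk γ v0 ω| ∂gm
        ≤ ∫⁻ ω, ENNReal.ofReal g * ENNReal.ofReal |Wk γ v ω - Wk γ v0 ω| +
            ENNReal.ofReal |g - g0| * ENNReal.ofReal (Wk γ v0 ω) ∂gm := by
          refine lintegral_mono fun ω => ?_
          rw [← ENNReal.ofReal_mul gp.le, ← ENNReal.ofReal_mul (abs_nonneg _),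
            ← ENNReal.ofReal_add (by positivity) (mul_nonneg (abs_nonneg _) (wpos _ _).le)]
          apply ENNReal.ofReal_le_ofReal
          have : g * Wk γ v ω - g0 * Wk γ v0 ω =
              g * (Wk γ v ω - Wk γ v0 ω) + (g - g0) * Wk γ v0 ω := by ring
          rw [this]
          refine le_trans (abs_add_le _ _) (le_of_eq ?_)
          rw [abs_mul, abs_mul, abs_of_pos gp, abs_of_pos (wpos _ _)]
      _ = ENNReal.ofReal g * ∫⁻ ω, ENNReal.ofReal |Wk γ v ω - Wk γ v0 ω| ∂gm +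
            ENNReal.ofReal |g - g0| := by
          rw [lintegral_add_right _ ((QV.meas_Wk γ v0).ennreal_ofReal.const_mul _),
            lintegral_const_mul' _ _ ENNReal.ofReal_ne_top,
            lintegral_const_mul' _ _ ENNReal.ofReal_ne_top, hG1D.2.2.2.2.2.1, mul_one]
      _ ≤ _ := by
          gcongr
          exact hG4.2.2 γ v v0

end

end Pool.Agent.Lib.APPS
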