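import Pool.Agent.Lib.APPS.Blue2

/-!
Block R: the renewal limit for sums over internal nodes.
-/

namespace Pool.Agent.Lib.APPS

open MeasureTheory ProbabilityTheory Filter Topology Set Metric
open scoped NNReal ENNReal RealInnerProductSpace Classical

noncomputable section

namespace RR

theorem eE_add (s t : ℝ) : eE (s + t) = eE s * eE t := by
  simp only [eE, Real.exp_add]; exact ENNReal.ofReal_mul (Real.exp_pos _).le

theorem eE_ne_top (s : ℝ) : eE s ≠ ∞ := ENNReal.ofReal_ne_top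

theorem eE_ne_zero (s : ℝ) : eE s ≠ 0 := (ENNReal.ofReal_pos.2 (Real.exp_pos _)).ne'

theorem ind_pos {p : Prop} (h : p) : ind p = 1 := if_pos h
theorem ind_neg {p : Prop} (h : ¬p) : ind p = 0 := if_neg h

theorem ind_mono {p q : Prop} (h : p → q) : ind p ≤ ind q := by
  by_cases hp : p
  · rw [ind_pos hp, ind_pos (h hp)]
  · rw [ind_neg hp]; exact bot_le

theorem meas_ind {α : Type} [MeasurableSpace α] {p : α → Prop} (h : MeasurableSet {a | p a}) :
    Measurable fun a => ind (p a) := Measurable.ite h measurable_const measurable_const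

theorem lint_ind {α : Type} [MeasurableSpace α] (μ : Measure α) {p : α → Prop}
    (h : MeasurableSet {a | p a}) : ∫⁻ a, ind (p a) ∂μ = μ {a | p a} := by
  rw [← lintegral_indicator_one h]
  refine lintegral_congr fun a => ?_
  by_cases ha : p a <;> simp [ind, ha]

theorem meas_XV (γ : ℝ) (v : Dy → HH) (u : ℝ) : Measurable (XV γ v u) :=
  measurable_pi_lambda _ fun _ => ((meas_ev _).add_const _).sub_const _

def SS (f : (Dy → ℝ) → ℝ≥0∞) (x : Dy → ℝ) : ℝ≥0∞ := ∑' A : Dy, ind (IntN x A) * f (sub x A)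

def GG (J : ℕ) (f : (Dy → ℝ) → ℝ≥0∞) (y : Dy → ℝ) : ℝ≥0∞ :=
  ∑ B ∈ lev J, ind (IntN y B) * f (sub y B)

def Er (J : ℕ) (t : ℝ) (x : Dy → ℝ) : ℝ≥0∞ :=
  ∑' i : ℕ, ∑' A : Dy, ind (i + J ≤ A.length) * ind (t < x A ∧ x (A.drop (i + J)) ≤ 0)

theorem reidx (hT1 : St_T1) (J : ℕ) (f : (Dy → ℝ) → ℝ≥0∞) (x : Dy → ℝ) :
    ∑' A : Dy, GG J f (sub x A) = ∑' A : Dy, ind (J ≤ A.length) *
      (ind (IntN (sub x (A.drop J)) (A.take J)) * f (sub x A)) := by
  have hinj : Function.Injective fun p : Dy × lev J => (p.2 : Dy) ++ p.1 := by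
    rintro ⟨A, S, hS⟩ ⟨A', S', hS'⟩ h
    have := List.append_inj h (by rw [(hT1.1 J S).1 hS, (hT1.1 J S').1 hS'])
    exact Prod.ext this.2 (Subtype.ext this.1)
  rw [← hinj.tsum_eq (f := fun A : Dy => ind (J ≤ A.length) *
    (ind (IntN (sub x (A.drop J)) (A.take J)) * f (sub x A))), ENNReal.tsum_prod']
  · refine tsum_congr fun A => ?_
    unfold GG
    rw [← Finset.tsum_subtype]
    refine tsum_congr fun B => ?_
    have h1 := (hT1.1 J B).1 B.2
    have h2 : sub (sub x A) B = sub x (B ++ A) := by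
      funext S; simp only [sub, List.append_assoc]
    rw [List.take_left' h1, List.drop_left' h1, ind_pos (p := J ≤ _) (by simp [h1]), one_mul, h2]
  · intro A hA
    have h1 : J ≤ A.length := by
      by_contra h
      exact hA (by simp only [ind_neg h, zero_mul])
    exact ⟨(A.drop J, ⟨A.take J, (hT1.1 J _).2 (by simp [h1])⟩), List.take_append_drop J A⟩

theorem intN_iff (hT1 : St_T1) (x : Dy → ℝ) (A : Dy) (J : ℕ) :
    IntN x A ↔ IntN x (A.drop J) ∧ IntN (sub x (A.drop J)) (A.take J) := by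
  rw [← hT1.2.2.2.2.2.2.2.2.2.2.2.2.2.2.2.2.1, List.take_append_drop]

theorem upper (hT1 : St_T1) (J : ℕ) {f : (Dy → ℝ) → ℝ≥0∞} {B : ℝ≥0∞} (hB : ∀ y, f y ≤ B)
    (x : Dy → ℝ) :
    SS f x ≤ B * ∑' A : Dy, ind (A.length < J) + ∑' A : Dy, GG J f (sub x A) := by
  rw [reidx hT1, ← ENNReal.tsum_mul_left, ← ENNReal.tsum_add]
  refine ENNReal.tsum_le_tsum fun A => ?_
  by_cases hA : IntN x A
  · rw [ind_pos hA, one_mul]
    rcases lt_or_ge A.length J with h | h
    · rw [ind_pos h, mul_one]; exact (hB _).trans le_self_add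
    · rw [ind_pos h, ind_pos ((intN_iff hT1 x A J).1 hA).2, one_mul, one_mul]; exact le_add_self
  · rw [ind_neg hA, zero_mul]; exact bot_le

theorem err (x : Dy → ℝ) (A : Dy) (J : ℕ) (t : ℝ) (hJ : J ≤ A.length) (ht : t < x A)
    (h : ¬IntN x (A.drop J)) :
    1 ≤ ∑' i : ℕ, ind (i + J ≤ A.length) * ind (t < x A ∧ x (A.drop (i + J)) ≤ 0) := by
  simp only [IntN, not_forall, not_lt] at h
  obtain ⟨B, ⟨P, hP⟩, hB⟩ := h
  have h1 : A.drop (P.length + J) = B := by
    rw [add_comm, ← List.drop_drop, ← hP, List.drop_left]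
  have h2 : P.length + J ≤ A.length := by
    have := congrArg List.length hP
    simp only [List.length_append, List.length_drop] at this
    omega
  refine le_trans ?_ (ENNReal.le_tsum P.length)
  rw [ind_pos h2, h1, ind_pos ⟨ht, hB⟩, one_mul]

theorem lower (hT1 : St_T1) (J : ℕ) {f : (Dy → ℝ) → ℝ≥0∞} {B : ℝ≥0∞} (hB : ∀ y, f y ≤ B)
    (x : Dy → ℝ) : ∑' A : Dy, GG J f (sub x A) ≤ SS f x + B * Er J 0 x := by
  unfold SS Er
  rw [reidx hT1, ENNReal.tsum_comm, ← ENNReal.tsum_mul_left, ← ENNReal.tsum_add]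
  refine ENNReal.tsum_le_tsum fun A => ?_
  by_cases hJ : J ≤ A.length
  swap
  · rw [ind_neg hJ, zero_mul]; exact bot_le
  by_cases hA : IntN (sub x (A.drop J)) (A.take J)
  swap
  · rw [ind_neg hA, zero_mul, mul_zero]; exact bot_le
  rw [ind_pos hJ, ind_pos hA, one_mul, one_mul]
  by_cases h : IntN x (A.drop J)
  · rw [ind_pos ((intN_iff hT1 x A J).2 ⟨h, hA⟩), one_mul]; exact le_self_add
  · have h0 : 0 < x A := by
      have := hA _ (List.suffix_refl _)
      rwa [sub, List.take_append_drop] at this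
    exact ((hB _).trans (le_mul_of_one_le_right' (err x A J 0 hJ h0 h))).trans le_add_self

theorem lower1 (t : ℝ) (x : Dy → ℝ) :
    ∑' A : Dy, ind (t < sub x A []) ≤ SS (fun _ => 1) x + Er 0 t x := by
  unfold SS Er
  rw [ENNReal.tsum_comm, ← ENNReal.tsum_add]
  refine ENNReal.tsum_le_tsum fun A => ?_
  by_cases ht : t < x A
  swap
  · rw [ind_neg (p := t < sub x A []) ht]; exact bot_le
  rw [ind_pos (p := t < sub x A []) ht]
  by_cases h : IntN x A
  · rw [ind_pos h, one_mul]; exact le_self_add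
  · exact (err x A 0 t (Nat.zero_le _) ht h).trans le_add_self

theorem meas_GG (hT3 : St_T3) (J : ℕ) {f : (Dy → ℝ) → ℝ≥0∞} (hf : Measurable f) :
    Measurable (GG J f) :=
  Finset.measurable_sum _ fun B _ => (meas_ind (hT3.2.1 B).1).mul (hf.comp (hT3.2.2.2.2.1 B))

theorem meas_SS (hT3 : St_T3) {f : (Dy → ℝ) → ℝ≥0∞} (hf : Measurable f) : Measurable (SS f) :=
  Measurable.tsum fun B => (meas_ind (hT3.2.1 B).1).mul (hf.comp (hT3.2.2.2.2.1 B))

theorem GG_le (J : ℕ) {f : (Dy → ℝ) → ℝ≥0∞} {B : ℝ≥0∞} (hB : ∀ y, f y ≤ B) (y : Dy → ℝ) :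
    GG J f y ≤ (lev J).card * B * ind (0 < y []) := by
  rw [mul_assoc, ← nsmul_eq_mul]
  refine Finset.sum_le_card_nsmul _ _ _ fun A _ => ?_
  rw [mul_comm]
  exact mul_le_mul' (hB _) (ind_mono fun h => h _ List.nil_suffix)

theorem short_fin (hT1 : St_T1) (J : ℕ) : ∑' A : Dy, ind (A.length < J) ≠ ∞ := by
  rw [tsum_eq_sum (s := (Finset.range J).biUnion lev) fun A hA => ind_neg fun h =>
    hA (Finset.mem_biUnion.2 ⟨_, Finset.mem_range.2 h, (hT1.1 _ A).2 rfl⟩)]
  refine ENNReal.sum_ne_top.2 fun A _ => ?_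
  unfold ind; split_ifs <;> simp

theorem er_bd (hANC : St_ANC) {γ : ℝ} (hγ : γ ∈ Ioo (0 : ℝ) 2) {C : ℝ} (hC : 0 ≤ C) :
    ∃ c > 0, ∃ ε : ℕ → ℝ≥0∞, ε 0 ≠ ∞ ∧ Tendsto ε atTop (𝓝 0) ∧ ∀ v, Gram v (covE C) →
      ∀ (u t : ℝ) (J : ℕ), 0 ≤ t →
        eE (-γ * u) * ∫⁻ ω, Er J t (XV γ v u ω) ∂gm ≤ eE (-γ * t - c * t) * ε J := by
  obtain ⟨c, hc, h⟩ := hANC γ hγ
  obtain ⟨K, hK⟩ := h C hC
  set w : ℕ → ℝ≥0∞ := fun i => ENNReal.ofReal (|K| * Real.exp (-c) ^ i) with hw
  have hs : Summable fun i : ℕ => |K| * Real.exp (-c) ^ i :=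
    (summable_geometric_of_lt_one (Real.exp_pos _).le
      (Real.exp_lt_one_iff.2 (by linarith))).mul_left _
  have hw0 : ∑' i, w i ≠ ∞ := by
    rw [hw, ← ENNReal.ofReal_tsum_of_nonneg (fun i => by positivity) hs]
    exact ENNReal.ofReal_ne_top
  refine ⟨c, hc, fun J => ∑' i, w (i + J), by simpa using hw0,
    ENNReal.tendsto_sum_nat_add w hw0, fun v hv u t J ht => ?_⟩
  have hm : ∀ (A : Dy) (i : ℕ),
      MeasurableSet {ω | t < XV γ v u ω A ∧ XV γ v u ω (A.drop i) ≤ 0} := fun A i =>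
    (measurableSet_lt measurable_const ((measurable_pi_apply _).comp (meas_XV γ v u))).inter
      (measurableSet_le ((measurable_pi_apply _).comp (meas_XV γ v u)) measurable_const)
  unfold Er
  rw [lintegral_tsum fun i =>
      (Measurable.tsum fun A => (meas_ind (hm A _)).const_mul _).aemeasurable,
    ← ENNReal.tsum_mul_left, ← ENNReal.tsum_mul_left]
  refine ENNReal.tsum_le_tsum fun i => ?_
  rw [lintegral_tsum fun A => ((meas_ind (hm A _)).const_mul _).aemeasurable]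
  simp only [lintegral_const_mul _ (meas_ind (hm _ _)), lint_ind _ (hm _ _)]
  refine (mul_le_mul_right (hK v hv u t (i + J) ht) _).trans ?_
  simp only [hw, eE]
  rw [← ENNReal.ofReal_mul (Real.exp_pos _).le, ← ENNReal.ofReal_mul (Real.exp_pos _).le,
    ← Real.exp_nat_mul]
  refine ENNReal.ofReal_le_ofReal ?_
  rw [mul_left_comm, mul_left_comm _ |K|, ← Real.exp_add, ← Real.exp_add]
  refine (mul_le_mul_of_nonneg_right (le_abs_self K) (Real.exp_pos _).le).trans (le_of_eq ?_)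
  congr 2
  ring

theorem lim (hG1 : St_G1) (hT1 : St_T1) (hT3 : St_T3) (hANC : St_ANC) (hR0 : St_R0) {γ : ℝ}
    (hγ : γ ∈ Ioo (0 : ℝ) 2) {f : (Dy → ℝ) → ℝ≥0∞} (hf : Measurable f) {B : ℝ≥0∞} (hB0 : B ≠ ∞)
    (hB : ∀ y, f y ≤ B) : (⨅ J, palm γ (GG J f)) ≠ ∞ ∧ ∀ C ≥ 0, ∀ v, Gram v (covE C) →
      Tendsto (fun u => eE (-γ * u) * ∫⁻ ω, SS f (XV γ v u ω) ∂gm) atTop
        (𝓝 (eE (γ ^ 2 * C / 2) * ⨅ J, palm γ (GG J f))) := by
  have : IsProbabilityMeasure gm := hG1.1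
  have h1 := fun J => (hR0 γ hγ).1 (GG J f) _ (meas_GG hT3 J hf)
    (ENNReal.mul_ne_top (ENNReal.natCast_ne_top _) hB0) (GG_le J hB)
  refine ⟨ne_top_of_le_ne_top (h1 0).1 (iInf_le _ 0), fun C hC v hv => ?_⟩
  obtain ⟨c, hc, ε, -, hε, he⟩ := er_bd hANC hγ hC
  have hm : ∀ J u A, Measurable fun ω => GG J f (sub (XV γ v u ω) A) := fun J u A =>
    (meas_GG hT3 J hf).comp ((hT3.2.2.2.2.1 A).comp (meas_XV γ v u))
  have sw : ∀ J u, ∑' A, ∫⁻ ω, GG J f (sub (XV γ v u ω) A) ∂gm =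
      ∫⁻ ω, ∑' A, GG J f (sub (XV γ v u ω) A) ∂gm := fun J u =>
    (lintegral_tsum fun A => (hm J u A).aemeasurable).symm
  have t0 : Tendsto (fun u : ℝ => eE (-γ * u)) atTop (𝓝 0) := by
    have := ENNReal.tendsto_ofReal (Real.tendsto_exp_atBot.comp
      (tendsto_id.const_mul_atTop_of_neg (show -γ < 0 by linarith [hγ.1])))
    simpa [eE, Function.comp_def] using this
  refine tendsto_order.2 ⟨fun a ha => ?_, fun a ha => ?_⟩
  · have t1 : Tendsto (fun J => a + B * ε J) atTop (𝓝 (a + B * 0)) :=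
      (ENNReal.Tendsto.const_mul hε (Or.inr hB0)).const_add a
    obtain ⟨J, hJ⟩ := (t1.eventually_lt_const (by simpa using ha)).exists
    filter_upwards [((h1 J).2 C hC v hv).eventually_const_lt
      (hJ.trans_le (mul_le_mul_right (iInf_le _ J) _))] with u hu
    refine lt_of_add_lt_add_right (hu.trans_le ?_)
    rw [sw]
    refine (mul_le_mul_right (lintegral_mono fun ω => lower hT1 J hB _) _).trans ?_
    have m1 : Measurable fun ω => SS f (XV γ v u ω) := (meas_SS hT3 hf).comp (meas_XV γ v u)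
    rw [lintegral_add_left m1, lintegral_const_mul' _ _ hB0, mul_add, mul_left_comm]
    refine add_le_add le_rfl (mul_le_mul_right ((he v hv u 0 J le_rfl).trans ?_) _)
    simp [eE]
  · rw [ENNReal.mul_iInf_of_ne (eE_ne_zero _) (eE_ne_top _), gt_iff_lt, iInf_lt_iff] at ha
    obtain ⟨J, hJ⟩ := ha
    have t1 := (ENNReal.Tendsto.mul_const (b := B * ∑' A : Dy, ind (A.length < J)) t0
      (Or.inr (ENNReal.mul_ne_top hB0 (short_fin hT1 J)))).add ((h1 J).2 C hC v hv)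
    filter_upwards [t1.eventually_lt_const (by simpa using hJ)] with u hu
    refine lt_of_le_of_lt ?_ hu
    rw [sw, ← mul_add]
    refine mul_le_mul_right ((lintegral_mono fun ω => upper hT1 J hB _).trans ?_) _
    rw [lintegral_add_left measurable_const, lintegral_const, measure_univ, mul_one]

theorem nB_fin (hT3 : St_T3) (hR0 : St_R0) {γ : ℝ} (hγ : γ ∈ Ioo (0 : ℝ) 2) {C : ℝ} (hC : 0 ≤ C)
    {v : Dy → HH} (hv : Gram v (covE C)) (u : ℝ) : ∫⁻ ω, nB (XV γ v u ω) ∂gm ≠ ∞ := by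
  have hm : Measurable fun y : Dy → ℝ => ind (0 < y []) :=
    meas_ind (measurableSet_lt measurable_const (measurable_pi_apply _))
  obtain ⟨h1, h2⟩ := (hR0 γ hγ).1 _ 1 hm ENNReal.one_ne_top fun y => by rw [one_mul]
  obtain ⟨u', h3, h4⟩ := (((h2 C hC v hv).eventually_lt_const
    (ENNReal.mul_ne_top (eE_ne_top _) h1).lt_top).and (eventually_ge_atTop u)).exists
  refine ne_top_of_le_ne_top (ENNReal.lt_top_of_mul_ne_top_right h3.ne (eE_ne_zero _)).ne ?_
  unfold nB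
  have m1 : ∀ A, Measurable fun ω => ind (IntN (XV γ v u ω) A) := fun A =>
    (meas_ind (hT3.2.1 A).1).comp (meas_XV γ v u)
  rw [lintegral_tsum fun A => (m1 A).aemeasurable]
  refine ENNReal.tsum_le_tsum fun A => lintegral_mono fun ω => ind_mono fun h => ?_
  have := h A (List.suffix_refl _)
  simp only [XV, drift, sub, List.nil_append] at this ⊢
  linarith

theorem SR_eq (hT1 : St_T1) {F : (Dy → ℝ) → ℝ} (h0 : ∀ y, 0 ≤ F y) {x : Dy → ℝ}
    (hx : nB x ≠ ∞) : ENNReal.ofReal (SR F x []) = SS (fun y => ENNReal.ofReal (F y)) x := by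
  have h := hT1.2.2.2.2.2.2.2.2.2.2.2.2.1 x hx
  unfold SR SS
  rw [tsum_eq_sum (s := tr x) fun A hA => by rw [ind_neg fun k => hA ((h A).2 k), zero_mul],
    Finset.filter_true_of_mem fun A _ => List.nil_suffix,
    ENNReal.ofReal_sum_of_nonneg fun A _ => h0 _]
  exact Finset.sum_congr rfl fun A hA => by rw [ind_pos ((h A).1 hA), one_mul]

theorem item1 (hG1 : St_G1) (hT1 : St_T1) (hT3 : St_T3) (hANC : St_ANC) (hR0 : St_R0) {γ : ℝ}
    (hγ : γ ∈ Ioo (0 : ℝ) 2) (F : (Dy → ℝ) → ℝ) (hF : BddM F) (C : ℝ) (hC : 0 ≤ C) (v : Dy → HH)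
    (hv : Gram v (covE C)) : (∀ u, Integrable (fun ω => SR F (XV γ v u ω) []) gm) ∧
    Tendsto (fun u => Real.exp (-γ * u) * ∫ ω, SR F (XV γ v u ω) [] ∂gm) atTop
      (𝓝 (Real.exp (γ ^ 2 * C / 2) * cc γ F)) := by
  obtain ⟨hm, B, hB⟩ := hF
  have hb : ∀ y, ENNReal.ofReal (F y) ≤ ENNReal.ofReal B := fun y =>
    ENNReal.ofReal_le_ofReal (hB y).2
  obtain ⟨h1, h2⟩ := lim hG1 hT1 hT3 hANC hR0 hγ hm.ennreal_ofReal ENNReal.ofReal_ne_top hb
  have nn : ∀ u, 0 ≤ᵐ[gm] fun ω => SR F (XV γ v u ω) [] := fun u =>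
    Eventually.of_forall fun ω => Finset.sum_nonneg fun A _ => (hB _).1
  have ms : ∀ u, AEStronglyMeasurable (fun ω => SR F (XV γ v u ω) []) gm := fun u =>
    ((hT3.2.2.2.2.2.2.2.1 F [] hm).comp (meas_XV γ v u)).aestronglyMeasurable
  have e : ∀ u, ∫⁻ ω, ENNReal.ofReal (SR F (XV γ v u ω) []) ∂gm =
      ∫⁻ ω, SS (fun y => ENNReal.ofReal (F y)) (XV γ v u ω) ∂gm := fun u => by
    refine lintegral_congr_ae ?_
    filter_upwards [ae_lt_top (hT3.1.comp (meas_XV γ v u)) (nB_fin hT3 hR0 hγ hC hv u)] with ω hω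
    exact SR_eq hT1 (fun y => (hB y).1) hω.ne
  refine ⟨fun u => ⟨ms u, (hasFiniteIntegral_iff_ofReal (nn u)).2 ?_⟩, ?_⟩
  · rw [e]
    refine lt_of_le_of_lt (lintegral_mono (g := fun ω => ENNReal.ofReal B * nB (XV γ v u ω))
      fun ω => ?_) ?_
    · simp only [SS, nB, ← ENNReal.tsum_mul_left]
      exact ENNReal.tsum_le_tsum fun A => by rw [mul_comm]; exact mul_le_mul_left (hb _) _
    · rw [lintegral_const_mul' _ _ ENNReal.ofReal_ne_top]
      exact (ENNReal.mul_ne_top ENNReal.ofReal_ne_top (nB_fin hT3 hR0 hγ hC hv u)).lt_top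
  · have := (ENNReal.tendsto_toReal (ENNReal.mul_ne_top (eE_ne_top _) h1)).comp (h2 C hC v hv)
    simp only [Function.comp_def, ENNReal.toReal_mul, eE,
      ENNReal.toReal_ofReal (Real.exp_pos _).le] at this
    simp only [integral_eq_lintegral_of_nonneg_ae (nn _) (ms _), e]
    exact this

theorem pos (hG1 : St_G1) (hT1 : St_T1) (hT3 : St_T3) (hANC : St_ANC) (hR0 : St_R0) {γ : ℝ}
    (hγ : γ ∈ Ioo (0 : ℝ) 2) {v : Dy → HH} (hv : Gram v (covE 0)) : 0 < cc γ one := by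
  obtain ⟨h1, h2⟩ := lim hG1 hT1 hT3 hANC hR0 hγ (f := fun _ => 1) measurable_const
    ENNReal.one_ne_top fun _ => le_rfl
  have e : cc γ one = (⨅ J, palm γ (GG J fun _ => 1)).toReal := by
    simp only [cc, one, ENNReal.ofReal_one]; rfl
  rw [e]
  refine ENNReal.toReal_pos (fun h0 => ?_) h1
  obtain ⟨c, hc, ε, hε, -, he⟩ := er_bd hANC hγ le_rfl
  obtain ⟨K0, hK0, hK⟩ := (hR0 γ hγ).2.2.2.1
  have key : ∀ t ≥ 0, K0 ≤ Real.exp (-c * t) * (ε 0).toReal := by
    intro t ht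
    have hm : Measurable fun y : Dy → ℝ => ind (t < y []) :=
      meas_ind (measurableSet_lt measurable_const (measurable_pi_apply _))
    have h3 := ((hR0 γ hγ).1 _ 1 hm ENNReal.one_ne_top fun y => by
      rw [one_mul]; exact ind_mono fun h => lt_of_le_of_lt ht h).2 0 le_rfl v hv
    have h4 := le_of_tendsto_of_tendsto' h3
      ((h2 0 le_rfl v hv).add_const (eE (-γ * t - c * t) * ε 0)) fun u => by
        have m1 : ∀ A, Measurable fun ω => ind (t < sub (XV γ v u ω) A []) := fun A =>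
          hm.comp ((hT3.2.2.2.2.1 A).comp (meas_XV γ v u))
        have m2 : Measurable fun ω => SS (fun _ => 1) (XV γ v u ω) :=
          (meas_SS hT3 measurable_const).comp (meas_XV γ v u)
        rw [← lintegral_tsum fun A => (m1 A).aemeasurable]
        refine (mul_le_mul_right (lintegral_mono fun ω => lower1 t _) _).trans ?_
        rw [lintegral_add_left m2, mul_add]
        exact add_le_add le_rfl (he v hv u t 0 ht)
    rw [h0, hK] at h4
    simp only [mul_zero, zero_div, eE, Real.exp_zero, ENNReal.ofReal_one, one_mul,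
      zero_add] at h4
    have h5 := ENNReal.toReal_mono (ENNReal.mul_ne_top ENNReal.ofReal_ne_top hε) h4
    rw [ENNReal.toReal_mul, ENNReal.toReal_ofReal (by positivity),
      ENNReal.toReal_ofReal (Real.exp_pos _).le,
      show -γ * t - c * t = -c * t + -γ * t by ring, Real.exp_add, mul_right_comm] at h5
    exact le_of_mul_le_mul_right h5 (Real.exp_pos _)
  have t0 : Tendsto (fun t : ℝ => Real.exp (-c * t) * (ε 0).toReal) atTop (𝓝 (0 * _)) :=
    (Real.tendsto_exp_atBot.comp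
      (tendsto_id.const_mul_atTop_of_neg (show -c < 0 by linarith))).mul_const _
  have := ge_of_tendsto t0 (eventually_atTop.2 ⟨0, key⟩)
  linarith

end RR

open RR in
theorem blk_R (hG1 : St_G1) (_hG3 : St_G3) (hM0 : St_M0) (hMOD : St_MOD) (hT1 : St_T1)
    (hT3 : St_T3) (_hFM : St_FM) (hANC : St_ANC) (hR0 : St_R0) : St_R := by
  intro γ hγ
  obtain ⟨M⟩ := hM0
  have hv := ((hMOD M).2.2.2.2.2.2.2.2.2.2.2.2.2.2.2.2.2 0 le_rfl).1
  have h1 := fun F hF => item1 hG1 hT1 hT3 hANC hR0 hγ F hF 0 le_rfl _ hv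
  simp only [mul_zero, zero_div, Real.exp_zero, one_mul] at h1
  refine ⟨item1 hG1 hT1 hT3 hANC hR0 hγ, fun F => ENNReal.toReal_nonneg, fun F F' hF hF' => ?_,
    fun F t hF ht => ?_, fun F F' hF hF' h => ?_, fun F hF => ?_, pos hG1 hT1 hT3 hANC hR0 hγ hv⟩
  · have hb : BddM fun y => F y + F' y := by
      obtain ⟨m, B, hB⟩ := hF
      obtain ⟨m', B', hB'⟩ := hF'
      exact ⟨m.add m', B + B', fun y =>
        ⟨add_nonneg (hB y).1 (hB' y).1, add_le_add (hB y).2 (hB' y).2⟩⟩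
    refine tendsto_nhds_unique (h1 _ hb).2 (((h1 F hF).2.add (h1 F' hF').2).congr fun u => ?_)
    rw [← mul_add, ← integral_add ((h1 F hF).1 u) ((h1 F' hF').1 u)]
    simp only [SR, Finset.sum_add_distrib]
  · have hb : BddM fun y => t * F y := by
      obtain ⟨m, B, hB⟩ := hF
      exact ⟨m.const_mul t, t * B, fun y =>
        ⟨mul_nonneg ht (hB y).1, mul_le_mul_of_nonneg_left (hB y).2 ht⟩⟩
    refine tendsto_nhds_unique (h1 _ hb).2 (((h1 F hF).2.const_mul t).congr fun u => ?_)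
    rw [mul_left_comm, ← integral_const_mul]
    simp only [SR, Finset.mul_sum]
  · obtain ⟨m', B', hB'⟩ := hF'
    refine ENNReal.toReal_mono (lim hG1 hT1 hT3 hANC hR0 hγ m'.ennreal_ofReal
      ENNReal.ofReal_ne_top fun y => ENNReal.ofReal_le_ofReal (hB' y).2).1
      (iInf_mono fun J => (hR0 γ hγ).2.2.2.2.2.2.1 _ _ fun y => Finset.sum_le_sum fun B _ => ?_)
    by_cases hB : IntN y B
    · exact mul_le_mul_right (ENNReal.ofReal_le_ofReal (h _ (hB B (List.suffix_refl _)))) _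
    · rw [ind_neg hB, zero_mul, zero_mul]
  · refine ENNReal.ofReal_toReal_le.trans ((iInf_le _ 0).trans
      ((hR0 γ hγ).2.2.2.2.2.2.1 _ _ fun y => ?_))
    have e : sub y [] = y := by funext S; simp [sub]
    rw [lev, Finset.sum_singleton, e]
    exact mul_le_mul_left (ind_mono fun k => k _ List.nil_suffix) _

end

end Pool.Agent.Lib.APPS
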