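import Pool.Agent.Lib.APPS.B_MBa

/-!
Moment bound for the number of internal nodes: geometry of the decomposition and recursion step.
-/

namespace Pool.Agent.Lib.APPS

open MeasureTheory ProbabilityTheory Filter Topology Set Metric
open scoped NNReal ENNReal RealInnerProductSpace Classical

noncomputable section

namespace MB

def Sep (T T' : Dy) : Prop := side T = side T' ∧ 4 * side T ≤ ‖ctr T - ctr T'‖

def gT (M : Model) (T S : Dy) : HH := M.gv (ctr T) (2 * side T) (unif (S ++ T))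
def hT (M : Model) (T S : Dy) : HH := M.e (bal (ctr T) (2 * side T) (unif (S ++ T)))

theorem gT_add_hT (M : Model) (T S : Dy) : gT M T S + hT M T S = M.eS (S ++ T) := by
  simp [gT, hT, Model.gv, Model.eS]

theorem unif_supp (hFE : St_FE) (hGEO1 : St_GEO1) (T S : Dy) :
    unif (S ++ T) (closedBall (ctr T) (2 * side T / 2))ᶜ = 0 := by
  refine measure_mono_null (compl_subset_compl.2 fun y hy => ?_) (hFE.2.2.2.2.2.2.2.1 (S ++ T)).2
  have h1 : y ∈ box T := (hGEO1.2.2.2.2.1 (S ++ T) T).2 (List.suffix_append S T) hy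
  have h2 := (hGEO1.2.2.2.1 T).2.2.2.1 y h1
  have h3 := (hGEO1.1 T).1
  rw [mem_closedBall, dist_eq_norm]
  linarith

theorem log_side (T : Dy) : Real.log (side T) = -(T.length * l2) := by
  simp only [side, l2, Real.log_pow, one_div, Real.log_inv]
  ring

theorem l2_pos : 0 < l2 := Real.log_pos one_lt_two

theorem geo (hFE : St_FE) (hMOD : St_MOD) (hDISC : St_DISC) (hGEO1 : St_GEO1) :
    ∃ C2 : ℝ, 0 ≤ C2 ∧ ∀ M : Model, (∀ T, closedBall (ctr T) (2 * side T) ⊆ M.O) →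
      (∀ T T' S S', (T = T' ∨ Sep T T') → ⟪hT M T S, gT M T' S'⟫ = 0) ∧
      (∀ T T' S S', Sep T T' → ⟪gT M T S, gT M T' S'⟫ = 0) ∧
      (∀ T S, ‖gT M T S‖ ^ 2 ≤ C2 + S.length * l2) ∧
      (∀ T S, ‖hT M T S‖ ^ 2 ≤ C2 + 2 * (M.C0 + T.length * l2)) := by
  obtain ⟨C, hC0, hD1, hD2, hD3⟩ := hDISC
  have hl2 := l2_pos
  refine ⟨l2 + C + C ^ 2, by positivity, fun M hM => ?_⟩
  have hs : ∀ T, 0 < 2 * side T := fun T => by have := (hGEO1.1 T).1; positivity
  have hpfe : ∀ S, PFE (unif S) := fun S => (hFE.2.2.2.2.2.2.2.1 S).1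
  have hkey : ∀ T S ν', FE ν' → ν' (ball (ctr T) (2 * side T)) = 0 →
      ⟪gT M T S, M.e ν'⟫ = 0 := fun T S =>
    (hD2 M (ctr T) (2 * side T) (unif (S ++ T)) (hs T) (hM T) (hpfe _)
      (unif_supp hFE hGEO1 T S)).2.2.1
  have hbal := fun T S => hD1 (ctr T) (2 * side T) (unif (S ++ T)) (hs T) (hpfe _)
    (unif_supp hFE hGEO1 T S)
  have hsep : ∀ T T', Sep T T' → ∀ y ∈ ball (ctr T') (2 * side T'),
      y ∉ closedBall (ctr T) (2 * side T) := by
    rintro T T' ⟨h1, h2⟩ y hy hy'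
    rw [mem_ball, dist_eq_norm] at hy
    rw [mem_closedBall, dist_eq_norm] at hy'
    have := norm_sub_le (y - ctr T') (y - ctr T)
    rw [show y - ctr T' - (y - ctr T) = ctr T - ctr T' by ring] at this
    linarith
  have h1 : ∀ T T' S S', (T = T' ∨ Sep T T') → ⟪hT M T S, gT M T' S'⟫ = 0 := by
    intro T T' S S' h
    rw [real_inner_comm]
    refine hkey T' S' _ (hbal T S).1.1 (measure_mono_null ?_ (hbal T S).2)
    intro y hy hy'
    rcases h with rfl | h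
    · rw [mem_ball] at hy
      rw [mem_sphere] at hy'
      exact absurd hy' hy.ne
    · exact hsep T T' h y hy (sphere_subset_closedBall hy')
  refine ⟨h1, fun T T' S S' h => ?_, fun T S => ?_, fun T S => ?_⟩
  · have e1 : gT M T S = M.e (unif (S ++ T)) - hT M T S := rfl
    rw [e1, inner_sub_left, h1 T T' S S' (Or.inr h), sub_zero, real_inner_comm]
    refine hkey T' S' _ (hpfe _).1
      (measure_mono_null ?_ (unif_supp hFE hGEO1 T S))
    intro y hy hy'
    refine hsep T T' h y hy (closedBall_subset_closedBall ?_ hy')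
    have := hs T
    linarith
  · have := (hD3 M T 2 le_rfl (hM T)).2.2.2 S
    have e : Real.log 2 = l2 := rfl
    rw [e] at this
    unfold gT
    nlinarith [sq_nonneg C]
  · have hq := (hD3 M T 2 le_rfl (hM T)).2.2.1 S
    have hc := (hMOD M).2.2.2.2.2.2.2.2.2.2.1 (ctr T) (2 * side T) (2 * side T) (hs T) le_rfl
      (hM T)
    rw [real_inner_self_eq_norm_sq, Real.log_mul two_ne_zero (hGEO1.1 T).1.ne', log_side] at hc
    have e : Real.log 2 = l2 := rfl
    rw [e] at hc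
    have e1 : hT M T S = M.qv (ctr T) (2 * side T) (unif (S ++ T)) + M.eC (ctr T) (2 * side T) := by
      simp [hT, Model.qv]
    have h3 := norm_add_le (M.qv (ctr T) (2 * side T) (unif (S ++ T))) (M.eC (ctr T) (2 * side T))
    rw [← e1] at h3
    have h4 := norm_nonneg (hT M T S)
    have h5 := norm_nonneg (M.qv (ctr T) (2 * side T) (unif (S ++ T)))
    have h6 := norm_nonneg (M.eC (ctr T) (2 * side T))
    set x := ‖hT M T S‖
    set y := ‖M.qv (ctr T) (2 * side T) (unif (S ++ T))‖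
    set z := ‖M.eC (ctr T) (2 * side T)‖
    have h7 : x ^ 2 ≤ (y + z) ^ 2 := pow_le_pow_left₀ h4 h3 2
    have h8 : y ^ 2 ≤ (C / 2) ^ 2 := pow_le_pow_left₀ h5 hq 2
    nlinarith [sq_nonneg (y - z), sq_nonneg C]

def cl (T : Dy) : ZMod 4 × ZMod 4 := (((gi T).1 : ZMod 4), ((gi T).2 : ZMod 4))

theorem int_far {a b : ℤ} (h : (a : ZMod 4) = (b : ZMod 4)) (hne : a ≠ b) :
    (4 : ℝ) ≤ |(a : ℝ) - b| := by
  have h1 := (ZMod.intCast_eq_intCast_iff_dvd_sub a b 4).1 h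
  have h2 : (4 : ℤ) ≤ |a - b| := by
    obtain ⟨c, hc⟩ := h1
    have : (((4 : ℕ) : ℤ)) = 4 := rfl
    rw [this] at hc
    rw [le_abs]
    omega
  exact_mod_cast h2

theorem sep_of_cl (hGEO1 : St_GEO1) {T T' : Dy} (hl : T.length = T'.length) (hc : cl T = cl T')
    (hne : T ≠ T') : Sep T T' := by
  have hs : side T = side T' := by simp [side, hl]
  refine ⟨hs, ?_⟩
  have hpos := (hGEO1.1 T).1
  have e : ctr T - ctr T' = (side T : ℂ) * (zc (gi T) - zc (gi T')) := by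
    simp only [ctr, (hGEO1.2.2.2.2.2.2.2.2.1 T).1, (hGEO1.2.2.2.2.2.2.2.2.1 T').1, ← hs]
    ring
  have hg : gi T ≠ gi T' := by
    intro h
    apply hne
    apply hGEO1.2.2.2.2.2.2.1
    rw [← sub_eq_zero, e, h, sub_self, mul_zero]
  rw [e, norm_mul, Complex.norm_real, Real.norm_eq_abs, abs_of_pos hpos, mul_comm 4]
  refine mul_le_mul_of_nonneg_left ?_ hpos.le
  have hc1 : (((gi T).1 : ℤ) : ZMod 4) = ((gi T').1 : ℤ) := congrArg Prod.fst hc
  have hc2 : (((gi T).2 : ℤ) : ZMod 4) = ((gi T').2 : ℤ) := congrArg Prod.snd hc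
  by_cases h1 : (gi T).1 = (gi T').1
  · have h2 : (gi T).2 ≠ (gi T').2 := fun h2 => hg (Prod.ext h1 h2)
    refine (int_far hc2 h2).trans (le_trans (le_of_eq ?_) (Complex.abs_im_le_norm _))
    simp [zc]
  · refine (int_far hc1 h1).trans (le_trans (le_of_eq ?_) (Complex.abs_re_le_norm _))
    simp [zc]

theorem sub_drift (Q : ℝ) (x : Dy → ℝ) (u : ℝ) (T : Dy) :
    sub (drift Q x u) T = drift Q (fun S => x (S ++ T)) (u - Q * T.length * l2) := by
  funext S
  simp only [sub, drift, List.length_append, Nat.cast_add]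
  ring

theorem meas_phi (hT3 : St_T3) (D : ℕ) (Q u : ℝ) (v : Dy → HH) :
    Measurable fun ω : Om => nB (cut D (drift Q (fun S => ω (v S)) u)) :=
  hT3.1.comp ((meas_cut D).comp ((meas_drift Q u).comp (meas_fam v)))

theorem root_bd (hG1D : St_G1D) (D : ℕ) (Q u a q : ℝ) (ha : 0 ≤ a) (hq : 0 < q) (v : Dy → HH)
    (N : ℝ≥0∞) :
    ∫⁻ ω, (ind (0 < cut D (drift Q (fun S => ω (v S)) u) []) * N) ^ q ∂gm ≤
      N ^ q * eE (‖a • v []‖ ^ 2 / 2) * eE (a * u) := by
  calc ∫⁻ ω, (ind (0 < cut D (drift Q (fun S => ω (v S)) u) []) * N) ^ q ∂gm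
      ≤ ∫⁻ ω : Om, N ^ q * eE (a * u) * eE (ω (a • v [])) ∂gm := by
        refine lintegral_mono fun ω => ?_
        by_cases h : 0 < cut D (drift Q (fun S => ω (v S)) u) []
        · have h' : 0 < ω (v []) + u := by
            by_cases hD : 0 < D
            · simpa [cut, drift, hD] using h
            · simp [cut, hD] at h
          simp only [ind, h, if_true, one_mul]
          rw [mul_assoc, ← eE_add]
          refine le_mul_of_one_le_right' ?_
          rw [map_smul, smul_eq_mul, ← mul_add, add_comm]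
          unfold eE
          rw [ENNReal.one_le_ofReal]
          exact Real.one_le_exp (mul_nonneg ha h'.le)
        · simp only [ind, h, if_false, zero_mul]
          rw [ENNReal.zero_rpow_of_pos hq]
          exact bot_le
    _ = _ := by
        have hm : Measurable fun ω : Om => eE (ω (a • v [])) := meas_eE.comp (meas_ev _)
        rw [lintegral_const_mul _ hm, hG1D.1]
        ring

/-- The recursion step. -/
theorem step (hG1 : St_G1) (hG1D : St_G1D) (hG3 : St_G3) (hROS : St_ROS) (hMOD : St_MOD)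
    (hDISC : St_DISC) (hFM : St_FM) (hT1 : St_T1) (hT3 : St_T3) (hGEO1 : St_GEO1) (hFE : St_FE)
    (γ : ℝ) (hγ : γ ∈ Ioo (0 : ℝ) 2) (hQ : 0 ≤ QQ γ) (q : ℝ) (hq : 1 ≤ q) (M : Model)
    (hM : ∀ T, closedBall (ctr T) (2 * side T) ⊆ M.O) (hC0 : 0 ≤ M.C0) :
    ∃ B : ℝ≥0∞, B ≠ ∞ ∧ ∀ k : ℕ, ∃ A : ℝ≥0∞, A ≠ ∞ ∧ ∀ (D : ℕ) (u : ℝ),
      ∫⁻ ω, nB (cut D (drift (QQ γ) (fun S => ω (M.eS S)) u)) ^ q ∂gm ≤
        A * eE (γ * q * u) + B * ∑ T ∈ lev k, ∫⁻ ω, nB (cut (D - k) (drift (QQ γ)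
          (fun S => ω (M.eS (S ++ T))) (u - QQ γ * k * l2))) ^ q ∂gm := by
  obtain ⟨CR, hCR, hros⟩ := ros_abs hG1 hG3 hROS hFM hT3 γ hγ q hq
  obtain ⟨C2, hC2, hgeo⟩ := geo hFE hMOD hDISC hGEO1
  obtain ⟨g1, g2, g3, g4⟩ := hgeo M hM
  have hl2 := l2_pos
  have hq0 : 0 < q := by linarith
  have hq1 : 0 ≤ q - 1 := by linarith
  have hγq : 0 ≤ γ * q := mul_nonneg hγ.1.le hq0.le
  have hr : ∀ (x : ℝ≥0∞) (p : ℝ), x ≠ ∞ → 0 ≤ p → x ^ p ≠ ∞ := fun x p hx hp =>
    ENNReal.rpow_ne_top_of_nonneg hp hx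
  refine ⟨2 ^ (q - 1) * (16 ^ (q - 1) * CR), ENNReal.mul_ne_top (hr _ _ (by norm_num) hq1)
    (ENNReal.mul_ne_top (hr _ _ (by norm_num) hq1) hCR), fun k => ?_⟩
  obtain ⟨A, hA, hros'⟩ := hros (C2 + 2 * (M.C0 + k * l2))
  have h4k : (4 : ℝ≥0∞) ^ k ≠ ∞ := ENNReal.pow_ne_top (by norm_num)
  refine ⟨2 ^ (q - 1) * ((4 ^ k) ^ q * eE (‖(γ * q) • M.eS []‖ ^ 2 / 2) +
    16 ^ (q - 1) * (16 * (CR * ((4 ^ k) ^ (q - 1) * (4 ^ k * A))))), ?_, fun D u => ?_⟩
  · refine ENNReal.mul_ne_top (hr _ _ (by norm_num) hq1) (ENNReal.add_ne_top.2 ⟨?_, ?_⟩)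
    · exact ENNReal.mul_ne_top (hr _ _ h4k hq0.le) (eE_ne_top _)
    · refine ENNReal.mul_ne_top (hr _ _ (by norm_num) hq1) (ENNReal.mul_ne_top (by norm_num)
        (ENNReal.mul_ne_top hCR (ENNReal.mul_ne_top (hr _ _ h4k hq1)
          (ENNReal.mul_ne_top h4k hA))))
  set u' := u - QQ γ * k * l2 with hu'
  set Y : Dy → Om → ℝ≥0∞ := fun T ω =>
    nB (cut (D - k) (drift (QQ γ) (fun S => ω (M.eS (S ++ T))) u')) with hY
  have hYm : ∀ T, Measurable (Y T) := fun T => meas_phi hT3 _ _ _ fun S => M.eS (S ++ T)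
  set s : ZMod 4 × ZMod 4 → Finset Dy := fun c => (lev k).filter fun T => cl T = c with hs
  have hlen : ∀ T ∈ lev k, T.length = k := fun T hT => (hT1.1 k T).1 hT
  have hcls : ∀ c, ∫⁻ ω, (∑ T ∈ s c, Y T ω) ^ q ∂gm ≤
      CR * ((4 ^ k) ^ (q - 1) * (4 ^ k * (A * eE (γ * q * u))) +
        ∑ T ∈ s c, ∫⁻ ω, Y T ω ^ q ∂gm) := by
    intro c
    have hsep : ∀ j j' : s c, j ≠ j' → Sep j.1 j'.1 := by
      intro j j' hne
      have h1 := Finset.mem_filter.1 j.2
      have h2 := Finset.mem_filter.1 j'.2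
      exact sep_of_cl hGEO1 ((hlen _ h1.1).trans (hlen _ h2.1).symm) (h1.2.trans h2.2.symm)
        fun h => hne (Subtype.ext h)
    have key := hros' (s c) (fun j => gT M j.1) (fun j => hT M j.1)
      (fun j j' S S' => g1 _ _ _ _ (by
        by_cases h : j = j'
        · exact Or.inl (congrArg Subtype.val h)
        · exact Or.inr (hsep j j' h)))
      (fun j j' hne S S' => g2 _ _ _ _ (hsep j j' hne))
      (fun j S => (g3 _ _).trans (by
        have : (0 : ℝ) ≤ k * l2 := by positivity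
        linarith))
      (fun j S => (g4 _ _).trans (by rw [hlen _ (Finset.mem_filter.1 j.2).1])) (D - k) u'
    simp only [gT_add_hT] at key
    have e1 : ∀ ω, ∑ j : s c, nB (cut (D - k) (drift (QQ γ)
        (fun S => ω (M.eS (S ++ j.1))) u')) = ∑ T ∈ s c, Y T ω := fun ω =>
      Finset.sum_coe_sort (s c) fun T => Y T ω
    have e2 : ∑ j : s c, ∫⁻ ω, nB (cut (D - k) (drift (QQ γ)
        (fun S => ω (M.eS (S ++ j.1))) u')) ^ q ∂gm = ∑ T ∈ s c, ∫⁻ ω, Y T ω ^ q ∂gm :=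
      Finset.sum_coe_sort (s c) fun T => ∫⁻ ω, Y T ω ^ q ∂gm
    simp only [e1, e2] at key
    refine key.trans ?_
    have hcard : (Fintype.card (s c) : ℝ≥0∞) ≤ 4 ^ k := by
      rw [Fintype.card_coe]
      have := Finset.card_filter_le (lev k) fun T => cl T = c
      rw [hT1.2.1 k] at this
      exact_mod_cast this
    have hu : eE (γ * q * u') ≤ eE (γ * q * u) := by
      refine eE_mono (mul_le_mul_of_nonneg_left ?_ hγq)
      have : 0 ≤ QQ γ * k * l2 := by positivity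
      linarith
    gcongr
  have hpt : ∀ ω : Om, nB (cut D (drift (QQ γ) (fun S => ω (M.eS S)) u)) ^ q ≤
      2 ^ (q - 1) * ((ind (0 < cut D (drift (QQ γ) (fun S => ω (M.eS S)) u) []) * 4 ^ k) ^ q +
        16 ^ (q - 1) * ∑ c, (∑ T ∈ s c, Y T ω) ^ q) := by
    intro ω
    have h1 := hT1.2.2.2.2.2.2.2.2.2.2.2.2.2.2.2.2.2.2.2.2.1
      (cut D (drift (QQ γ) (fun S => ω (M.eS S)) u)) k
    have h2 : ∑ T ∈ lev k, nB (sub (cut D (drift (QQ γ) (fun S => ω (M.eS S)) u)) T) =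
        ∑ c, ∑ T ∈ s c, Y T ω := by
      rw [Finset.sum_fiberwise]
      refine Finset.sum_congr rfl fun T hT => ?_
      rw [sub_cut, sub_drift, hlen T hT]
    rw [h2] at h1
    refine (ENNReal.rpow_le_rpow h1 hq0.le).trans
      ((ENNReal.rpow_add_le_mul_rpow_add_rpow _ _ hq).trans ?_)
    gcongr
    refine (ENNReal.rpow_sum_le_const_mul_sum_rpow Finset.univ _ hq).trans (le_of_eq ?_)
    congr 2
  have hm1 : Measurable fun ω : Om =>
      (ind (0 < cut D (drift (QQ γ) (fun S => ω (M.eS S)) u) []) * 4 ^ k) ^ q := by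
    refine Measurable.pow_const (Measurable.mul_const ?_ _) _
    refine (hT3.2.2.2.2.2.2.2.2.2.2.2.1 Om _ (measurableSet_lt measurable_const ?_)).1
    exact (measurable_pi_apply []).comp
      ((meas_cut D).comp ((meas_drift _ u).comp (meas_fam M.eS)))
  have hm2 : ∀ c, Measurable fun ω => (∑ T ∈ s c, Y T ω) ^ q := fun c =>
    (Finset.measurable_sum _ fun T _ => hYm T).pow_const _
  calc ∫⁻ ω, nB (cut D (drift (QQ γ) (fun S => ω (M.eS S)) u)) ^ q ∂gm
      ≤ ∫⁻ ω, 2 ^ (q - 1) *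
        ((ind (0 < cut D (drift (QQ γ) (fun S => ω (M.eS S)) u) []) * 4 ^ k) ^ q +
        16 ^ (q - 1) * ∑ c, (∑ T ∈ s c, Y T ω) ^ q) ∂gm := lintegral_mono hpt
    _ = 2 ^ (q - 1) *
        (∫⁻ ω, (ind (0 < cut D (drift (QQ γ) (fun S => ω (M.eS S)) u) []) * 4 ^ k) ^ q ∂gm +
        16 ^ (q - 1) * ∑ c, ∫⁻ ω, (∑ T ∈ s c, Y T ω) ^ q ∂gm) := by
        rw [lintegral_const_mul' _ _ (hr _ _ (by norm_num) hq1), lintegral_add_left hm1,
          lintegral_const_mul' _ _ (hr _ _ (by norm_num) hq1),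
          lintegral_finsetSum _ fun c _ => hm2 c]
    _ ≤ 2 ^ (q - 1) *
        ((4 ^ k) ^ q * eE (‖(γ * q) • M.eS []‖ ^ 2 / 2) * eE (γ * q * u) +
        16 ^ (q - 1) * ∑ c : ZMod 4 × ZMod 4,
          CR * ((4 ^ k) ^ (q - 1) * (4 ^ k * (A * eE (γ * q * u))) +
            ∑ T ∈ s c, ∫⁻ ω, Y T ω ^ q ∂gm)) := by
        gcongr with c
        · exact root_bd hG1D D _ u (γ * q) q hγq hq0 M.eS _
        · exact hcls c
    _ = _ := by
        rw [← Finset.mul_sum, Finset.sum_add_distrib, Finset.sum_fiberwise, Finset.sum_const,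
          Finset.card_univ, nsmul_eq_mul]
        have : ((Fintype.card (ZMod 4 × ZMod 4) : ℕ) : ℝ≥0∞) = 16 := by
          rw [Fintype.card_prod, ZMod.card]; norm_num
        rw [this]
        ring

end MB

end

end Pool.Agent.Lib.APPS
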