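import Pool.Agent.Lib.APPS.Blue2
import Pool.Agent.Lib.APPS.B_MBg
import Pool.Agent.Lib.APPS.B_FM

/-!
Block R0: the renewal limit for local functionals and the elementary rules for `palm`.
-/

namespace Pool.Agent.Lib.APPS

open MeasureTheory ProbabilityTheory Filter Topology Set Metric
open scoped NNReal ENNReal RealInnerProductSpace Classical

noncomputable section

namespace R0

open MB

/-- the mean of `G` at height `y` -/
def gG (Q : ℝ) (G : (Dy → ℝ) → ℝ≥0∞) (y : ℝ) : ℝ≥0∞ := ∫⁻ x, G (drift Q x y) ∂ex 0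

theorem palm_eq (γ : ℝ) (G : (Dy → ℝ) → ℝ≥0∞) : palm γ G =
    ENNReal.ofReal (aa γ * l2)⁻¹ * ∫⁻ y : ℝ, eE (-γ * y) * gG (QQ γ) G y := rfl

theorem meas_drift2 (Q : ℝ) : Measurable fun p : ℝ × (Dy → ℝ) => drift Q p.2 p.1 :=
  measurable_pi_lambda _ fun S => by
    have h : Measurable fun p : ℝ × (Dy → ℝ) => p.2 S :=
      (measurable_pi_apply S).comp measurable_snd
    exact (h.add measurable_fst).sub_const _

theorem meas_gG [IsProbabilityMeasure (ex 0)] (Q : ℝ) {G : (Dy → ℝ) → ℝ≥0∞} (hG : Measurable G) :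
    Measurable (gG Q G) :=
  (hG.comp (meas_drift2 Q)).lintegral_prod_right'

theorem meas_w (γ : ℝ) : Measurable fun y : ℝ => eE (-γ * y) :=
  meas_eE.comp (measurable_id.const_mul _)

theorem meas_wg [IsProbabilityMeasure (ex 0)] (γ Q : ℝ) {G : (Dy → ℝ) → ℝ≥0∞}
    (hG : Measurable G) : Measurable fun y : ℝ => eE (-γ * y) * gG Q G y :=
  (meas_w γ).mul (meas_gG Q hG)

theorem gG_eq (Q : ℝ) {G : (Dy → ℝ) → ℝ≥0∞} (hG : Measurable G) (y : ℝ) :
    gG Q G y = ∫⁻ ω, G (drift Q (fun S => ω (gvec (covE 0) S)) y) ∂gm :=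
  lintegral_map (hG.comp (meas_drift Q y)) (meas_fam _)

theorem conv (hG1 : St_G1) (hG3 : St_G3) (h0 : Gram (gvec (covE 0)) (covE 0)) (Q : ℝ)
    {G : (Dy → ℝ) → ℝ≥0∞} (hG : Measurable G) (v : Dy → HH) (t : ℝ≥0) (hv : Gram v (covE t))
    (u : ℝ) : ∫⁻ ω, G (drift Q (fun S => ω (v S)) u) ∂gm =
      ∫⁻ ξ, gG Q G (u + ξ) ∂gaussianReal 0 t := by
  have : IsProbabilityMeasure gm := hG1.1
  have hconv := hG3.2.2.2.2.2.2 Dy (gvec (covE 0)) v t (fun s s' => by
    rw [hv s s', h0 s s']; simp only [covE]; ring)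
    (fun x => G (drift Q x u)) (hG.comp (meas_drift Q u))
  rw [hconv]
  simp only [drift_shift, gG_eq Q hG]
  have hm : Measurable fun p : Om × ℝ =>
      G (drift Q (fun S => p.1 (gvec (covE 0) S)) (u + p.2)) := by
    refine hG.comp (measurable_pi_lambda _ fun S => ?_)
    exact (((meas_ev _).comp measurable_fst).add (measurable_snd.const_add u)).sub_const _
  rw [lintegral_lintegral_swap hm.aemeasurable]

theorem term (hG1 : St_G1) (hG3 : St_G3) (hE : St_EXP2) (h0 : Gram (gvec (covE 0)) (covE 0))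
    (Q : ℝ) {G : (Dy → ℝ) → ℝ≥0∞} (hG : Measurable G) (v : Dy → HH) (C : ℝ) (hC : 0 ≤ C)
    (hv : Gram v (covE C)) (u : ℝ) (A : Dy) :
    ∫⁻ ω, G (sub (drift Q (fun S => ω (v S)) u) A) ∂gm =
      ∫⁻ ξ, gG Q G (u - Q * A.length * l2 + ξ) ∂gaussianReal 0 (C + A.length * l2).toNNReal := by
  simp only [sub_drift]
  refine conv hG1 hG3 h0 Q hG (fun S => v (S ++ A)) _ (fun S S' => ?_) _
  have := l2_pos
  rw [hv, covE, covE, hE.2.1, Real.coe_toNNReal _ (by positivity)]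
  ring

theorem shift (γ : ℝ) {g : ℝ → ℝ≥0∞} (s : ℝ) :
    ∫⁻ y, eE (-γ * y) * g (y + s) = eE (γ * s) * ∫⁻ y, eE (-γ * y) * g y := by
  rw [← lintegral_add_right_eq_self (fun y => eE (-γ * y) * g y) s,
    ← lintegral_const_mul' _ _ (eE_ne_top _)]
  refine lintegral_congr fun y => ?_
  rw [← mul_assoc, ← eE_add]
  congr 2
  ring

theorem gauss_pd {g : ℝ → ℝ≥0∞} (hg : Measurable g) {s : ℝ} (hs : 0 < s) (c : ℝ) :
    ∫⁻ ξ, g (c + ξ) ∂gaussianReal 0 s.toNNReal = ∫⁻ y, ENNReal.ofReal (pd s (y - c)) * g y := by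
  have hm : Measurable fun ξ => g (c + ξ) := hg.comp (measurable_id.const_add c)
  rw [gaussianReal_of_var_ne_zero _ (by simpa using hs),
    lintegral_withDensity_eq_lintegral_mul _ (measurable_gaussianPDF _ _) hm,
    ← lintegral_add_right_eq_self (fun y => ENNReal.ofReal (pd s (y - c)) * g y) c]
  refine lintegral_congr fun y => ?_
  simp [gaussianPDF, gaussianPDFReal, pd, Real.coe_toNNReal _ hs.le, add_comm]

theorem meas_ind0 (t : ℝ) : Measurable fun y : Dy → ℝ => ind (t < y []) := by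
  unfold ind
  exact Measurable.ite (measurableSet_lt measurable_const (measurable_pi_apply _))
    measurable_const measurable_const

theorem int_pos {γ : ℝ} (hγ : 0 < γ) :
    ∫⁻ y : ℝ, eE (-γ * y) * ind (0 < y) = ENNReal.ofReal γ⁻¹ := by
  have h1 : ∀ y : ℝ, eE (-γ * y) * ind (0 < y) =
      (Ioi (0 : ℝ)).indicator (fun y => ENNReal.ofReal (Real.exp (-γ * y))) y := by
    intro y
    by_cases h : 0 < y
    · rw [indicator_of_mem (mem_Ioi.2 h)]; simp [ind, h, eE]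
    · rw [indicator_of_notMem (fun h' => h (mem_Ioi.1 h'))]; simp [ind, h]
  simp only [h1]
  rw [lintegral_indicator measurableSet_Ioi, ← ofReal_integral_eq_lintegral_ofReal
    (exp_neg_integrableOn_Ioi 0 hγ) (ae_of_all _ fun _ => (Real.exp_pos _).le),
    integral_exp_mul_Ioi (by linarith) 0]
  congr 1
  simp

theorem int0 [IsProbabilityMeasure (ex 0)] (hD : St_G1D) {γ : ℝ} (hγ : 0 < γ) (Q : ℝ) :
    ∫⁻ y : ℝ, eE (-γ * y) * gG Q (fun y => ind (0 < y [])) y =
      eE (‖γ • gvec (covE 0) []‖ ^ 2 / 2) * ENNReal.ofReal γ⁻¹ := by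
  have hm : Measurable fun p : ℝ × (Dy → ℝ) => eE (-γ * p.1) * ind (0 < drift Q p.2 p.1 []) :=
    ((meas_w γ).comp measurable_fst).mul ((meas_ind0 0).comp (meas_drift2 Q))
  have h1 : ∀ y : ℝ, eE (-γ * y) * gG Q (fun y => ind (0 < y [])) y =
      ∫⁻ x, eE (-γ * y) * ind (0 < drift Q x y []) ∂ex 0 := fun y =>
    (lintegral_const_mul' _ _ (eE_ne_top _)).symm
  simp only [h1]
  rw [lintegral_lintegral_swap hm.aemeasurable]
  have h2 : ∀ x : Dy → ℝ, ∫⁻ y : ℝ, eE (-γ * y) * ind (0 < drift Q x y []) =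
      eE (γ * x []) * ENNReal.ofReal γ⁻¹ := by
    intro x
    rw [← int_pos hγ, ← shift γ (g := fun y => ind (0 < y))]
    refine lintegral_congr fun y => ?_
    simp [drift, add_comm]
  simp only [h2]
  have hm2 : Measurable fun x : Dy → ℝ => eE (γ * x []) :=
    meas_eE.comp ((measurable_pi_apply _).const_mul _)
  rw [lintegral_mul_const _ hm2, ← hD.1]
  congr 1
  refine (lintegral_map hm2 (meas_fam _)).trans (lintegral_congr fun ω => ?_)
  simp

theorem pd_neg (v t : ℝ) : pd v (-t) = pd v t := by simp [pd]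

/-- the renewal kernel -/
def Kk (a s t : ℝ) : ℝ≥0∞ := ∑' j : ℕ, ENNReal.ofReal (pd (s + j * l2) (t + a * j * l2))

theorem meas_Kk (a s : ℝ) : Measurable (Kk a s) :=
  Measurable.tsum fun j =>
    ENNReal.measurable_ofReal.comp ((FM.meas_pd _).comp (measurable_id.add_const _))

theorem Kk_le (hR : St_RW1) {a s : ℝ} (ha : 0 < a) (hs : 0 < s) :
    ∃ K : ℝ≥0∞, K ≠ ∞ ∧ ∀ t, Kk a s t ≤ K := by
  obtain ⟨C, hC⟩ := hR.1 a ha s hs
  refine ⟨ENNReal.ofReal |C|, ENNReal.ofReal_ne_top, fun t => ((hC s le_rfl t).1).trans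
    (ENNReal.ofReal_le_ofReal ?_)⟩
  have h1 : 0 ≤ min 1 (Real.exp (-(2 * a) * (t - a * s))) := le_min zero_le_one (Real.exp_pos _).le
  exact (mul_le_mul_of_nonneg_right (le_abs_self C) h1).trans
    (mul_le_of_le_one_right (abs_nonneg _) (min_le_left _ _))

theorem Kk_lim (hR : St_RW1) (h6 : St_RW6) {a s : ℝ} (ha : 0 < a) (hs : 0 < s) (c : ℝ) :
    Tendsto (fun u => Kk a s (c - u)) atTop (𝓝 (ENNReal.ofReal (a * l2)⁻¹)) := by
  obtain ⟨K, hK, hK'⟩ := Kk_le hR ha hs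
  have h1 : ∀ u, Kk a s (c - u) =
      ENNReal.ofReal (∑' j : ℕ, pd (s + j * l2) (u + -c - a * j * l2)) := by
    intro u
    have e : ∀ j : ℕ, pd (s + j * l2) (u + -c - a * j * l2) =
        pd (s + j * l2) (c - u + a * j * l2) := fun j => by
      rw [← pd_neg]; congr 1; ring
    simp only [e]
    refine (ENNReal.ofReal_tsum_of_nonneg (fun j => FM.pd_nonneg _ _) ?_).symm
    have := ENNReal.summable_toReal (ne_top_of_le_ne_top hK (hK' (c - u)))
    simpa only [ENNReal.toReal_ofReal (FM.pd_nonneg _ _)] using this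
  simp only [h1]
  exact ENNReal.tendsto_ofReal
    (((h6 a ha s hs.le).1).comp (tendsto_atTop_add_const_right _ (-c) tendsto_id))

theorem main (hR : St_RW1) (h6 : St_RW6) {γ : ℝ} (hγ : γ ∈ Ioo (0 : ℝ) 2) {g : ℝ → ℝ≥0∞}
    (hg : Measurable g) {B : ℝ≥0∞} (hB : B ≠ ∞) (hgB : ∀ y, g y ≤ B)
    (hint : ∫⁻ y, eE (-γ * y) * g y ≠ ∞) {C : ℝ} (hC : 0 ≤ C) :
    Tendsto (fun u => eE (-γ * u) * ∑' k : ℕ, 4 ^ k *
      ∫⁻ ξ, g (u - QQ γ * k * l2 + ξ) ∂gaussianReal 0 (C + k * l2).toNNReal) atTop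
      (𝓝 (eE (γ ^ 2 * C / 2) * (ENNReal.ofReal (aa γ * l2)⁻¹ * ∫⁻ y, eE (-γ * y) * g y))) := by
  have hl := l2_pos
  have ha := (hR.2.2 γ hγ).1
  have hs : 0 < C + l2 := by linarith
  have hwg : Measurable fun y => eE (-γ * y) * g y := (meas_w γ).mul hg
  have h1 : ∀ (u : ℝ) (j : ℕ), eE (-γ * u) * (4 ^ (j + 1) *
      ∫⁻ ξ, g (u - QQ γ * (j + 1 : ℕ) * l2 + ξ) ∂gaussianReal 0 (C + (j + 1 : ℕ) * l2).toNNReal) =
      eE (γ ^ 2 * C / 2) * ∫⁻ y, eE (-γ * y) * g y * ENNReal.ofReal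
        (pd (C + l2 + j * l2) (y - γ * C + aa γ * l2 - u + aa γ * j * l2)) := by
    intro u j
    rw [gauss_pd hg (by positivity), ← lintegral_const_mul' _ _ (by simp),
      ← lintegral_const_mul' _ _ (eE_ne_top _), ← lintegral_const_mul' _ _ (eE_ne_top _)]
    refine lintegral_congr fun y => ?_
    have h2 := ((hR.2.1 γ hγ) C y u (j + 1)).1
    have h3 : (4 : ℝ≥0∞) ^ (j + 1) *
        ENNReal.ofReal (pd (C + (j + 1 : ℕ) * l2) (y - (u - QQ γ * (j + 1 : ℕ) * l2))) =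
        eE (γ * (u - y) + γ ^ 2 * C / 2) * ENNReal.ofReal
          (pd (C + l2 + j * l2) (y - γ * C + aa γ * l2 - u + aa γ * j * l2)) := by
      rw [show (4 : ℝ≥0∞) ^ (j + 1) = ENNReal.ofReal (4 ^ (j + 1)) by
          rw [ENNReal.ofReal_pow (by norm_num)]; simp,
        ← ENNReal.ofReal_mul (by positivity),
        show y - (u - QQ γ * (j + 1 : ℕ) * l2) = y - u + QQ γ * (j + 1 : ℕ) * l2 by ring, h2, eE,
        ← ENNReal.ofReal_mul (Real.exp_pos _).le]
      congr 3 <;> push_cast <;> ring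
    rw [← mul_assoc (4 ^ (j + 1)), h3]
    have h4 : eE (-γ * u) * eE (γ * (u - y) + γ ^ 2 * C / 2) =
        eE (γ ^ 2 * C / 2) * eE (-γ * y) := by
      rw [← eE_add, ← eE_add]; congr 1; ring
    calc _ = eE (-γ * u) * eE (γ * (u - y) + γ ^ 2 * C / 2) * (g y * ENNReal.ofReal
          (pd (C + l2 + j * l2) (y - γ * C + aa γ * l2 - u + aa γ * j * l2))) := by ring
      _ = _ := by rw [h4]; ring
  have h2 : ∀ u : ℝ, eE (-γ * u) * ∑' k : ℕ, 4 ^ k *
      ∫⁻ ξ, g (u - QQ γ * k * l2 + ξ) ∂gaussianReal 0 (C + k * l2).toNNReal =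
      eE (-γ * u) * ∫⁻ ξ, g (u + ξ) ∂gaussianReal 0 C.toNNReal + eE (γ ^ 2 * C / 2) *
        ∫⁻ y, eE (-γ * y) * g y * Kk (aa γ) (C + l2) (y - γ * C + aa γ * l2 - u) := by
    intro u
    rw [tsum_eq_zero_add' ENNReal.summable, mul_add, ← ENNReal.tsum_mul_left]
    simp only [h1]
    have hj : ∀ j : ℕ, Measurable fun y => eE (-γ * y) * g y * ENNReal.ofReal
        (pd (C + l2 + j * l2) (y - γ * C + aa γ * l2 - u + aa γ * j * l2)) := fun j =>
      hwg.mul (ENNReal.measurable_ofReal.comp ((FM.meas_pd _).comp (by fun_prop)))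
    rw [ENNReal.tsum_mul_left, ← lintegral_tsum fun j => (hj j).aemeasurable]
    simp only [ENNReal.tsum_mul_left]
    simp [Kk]
  simp only [h2]
  have t1 : Tendsto (fun u => eE (-γ * u) * ∫⁻ ξ, g (u + ξ) ∂gaussianReal 0 C.toNNReal) atTop
      (𝓝 0) := by
    have t0 : Tendsto (fun u => eE (-γ * u) * B) atTop (𝓝 0) := by
      have t00 : Tendsto (fun u => eE (-γ * u)) atTop (𝓝 0) := by
        have := ENNReal.tendsto_ofReal (Real.tendsto_exp_atBot.comp
          (tendsto_id.const_mul_atTop_of_neg (show -γ < 0 by linarith [hγ.1])))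
        simpa [eE] using this
      simpa using ENNReal.Tendsto.mul_const t00 (Or.inr hB)
    refine tendsto_of_tendsto_of_tendsto_of_le_of_le tendsto_const_nhds t0 (fun _ => zero_le)
      fun u => mul_le_mul_right ?_ _
    refine (lintegral_mono fun ξ => hgB _).trans ?_
    simp
  obtain ⟨K, hK, hK'⟩ := Kk_le hR ha hs
  have t2 : Tendsto (fun u => ∫⁻ y, eE (-γ * y) * g y *
      Kk (aa γ) (C + l2) (y - γ * C + aa γ * l2 - u)) atTop
      (𝓝 (∫⁻ y, eE (-γ * y) * g y * ENNReal.ofReal (aa γ * l2)⁻¹)) := by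
    refine tendsto_lintegral_filter_of_dominated_convergence (fun y => eE (-γ * y) * g y * K)
      (Eventually.of_forall fun u => hwg.mul ((meas_Kk _ _).comp (by fun_prop)))
      (Eventually.of_forall fun u => ae_of_all _ fun y => mul_le_mul_right (hK' _) _) ?_
      (ae_of_all _ fun y => ENNReal.Tendsto.const_mul (Kk_lim hR h6 ha hs _) (Or.inr
        (ENNReal.mul_ne_top (eE_ne_top _) (ne_top_of_le_ne_top hB (hgB y)))))
    rw [lintegral_mul_const _ hwg]
    exact ENNReal.mul_ne_top hint hK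
  rw [lintegral_mul_const _ hwg, mul_comm _ (ENNReal.ofReal (aa γ * l2)⁻¹)] at t2
  have t3 := t1.add (ENNReal.Tendsto.const_mul t2 (Or.inr (eE_ne_top (γ ^ 2 * C / 2))))
  rwa [zero_add] at t3

end R0

open R0 MB in
theorem blk_R0 (hG1 : St_G1) (hD : St_G1D) (hG3 : St_G3) (hM0 : St_M0) (hMOD : St_MOD)
    (hE : St_EXP2) (hR : St_RW1) (h6 : St_RW6) (hT1 : St_T1) (_hT3 : St_T3) : St_R0 := by
  intro γ hγ
  obtain ⟨M⟩ := hM0
  obtain ⟨h0, hP⟩ := (hMOD M).2.2.2.2.2.2.2.2.2.2.2.2.2.2.2.2.2 0 le_rfl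
  have hl := l2_pos
  have ha := (hR.2.2 γ hγ).1
  have hc : ENNReal.ofReal (aa γ * l2)⁻¹ ≠ ∞ := ENNReal.ofReal_ne_top
  have i3 : ∀ (G : (Dy → ℝ) → ℝ≥0∞) (s : ℝ),
      palm γ (fun y => G (sh y s)) = eE (γ * s) * palm γ G := by
    intro G s
    rw [palm_eq, palm_eq, mul_left_comm, ← shift]
    congr 1
    refine lintegral_congr fun y => ?_
    congr 1
    refine lintegral_congr fun x => ?_
    beta_reduce
    congr 1
    funext S
    simp only [sh, drift]
    ring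
  have i6 : ∀ (G : (Dy → ℝ) → ℝ≥0∞) (c : ℝ≥0∞), Measurable G →
      palm γ (fun y => c * G y) = c * palm γ G := by
    intro G c hG
    rw [palm_eq, palm_eq, mul_left_comm, ← lintegral_const_mul c (meas_wg γ (QQ γ) hG)]
    congr 1
    refine lintegral_congr fun y => ?_
    rw [mul_left_comm]
    congr 1
    exact lintegral_const_mul c (hG.comp (meas_drift _ y))
  have i7 : ∀ G G' : (Dy → ℝ) → ℝ≥0∞, (∀ y, G y ≤ G' y) → palm γ G ≤ palm γ G' :=
    fun G G' h => mul_le_mul_right (lintegral_mono fun y =>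
      mul_le_mul_right (lintegral_mono fun x => h _) _) _
  have p0 : palm γ (fun y => ind (0 < y [])) =
      ENNReal.ofReal ((aa γ * l2)⁻¹ * (Real.exp (‖γ • gvec (covE 0) []‖ ^ 2 / 2) * γ⁻¹)) := by
    rw [palm_eq, int0 hD hγ.1, eE, ← ENNReal.ofReal_mul (Real.exp_pos _).le,
      ← ENNReal.ofReal_mul (by positivity)]
  refine ⟨fun G B hG hB hGB => ?_, fun G B hG => ?_, fun G s _ => i3 G s, ?_,
    fun G G' hG hG' => ?_, i6, i7, fun I _ G hG => ?_⟩
  · have hfin : palm γ G ≠ ∞ := by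
      refine ne_top_of_le_ne_top ?_ (i7 G _ hGB)
      rw [i6 _ B (meas_ind0 0), p0]
      exact ENNReal.mul_ne_top hB ENNReal.ofReal_ne_top
    refine ⟨hfin, fun C hC v hv => ?_⟩
    have hint : ∫⁻ y, eE (-γ * y) * gG (QQ γ) G y ≠ ∞ := by
      intro h
      rw [palm_eq, h, ENNReal.mul_top (ENNReal.ofReal_pos.2 (inv_pos.2 (mul_pos ha hl))).ne'] at hfin
      exact hfin rfl
    have hgB : ∀ y, gG (QQ γ) G y ≤ B := by
      intro y
      refine (lintegral_mono fun x => (hGB _).trans (mul_le_of_le_one_right' (ind_le_one _))).trans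
        ?_
      simp
    have := main hR h6 hγ (meas_gG _ hG) hB hgB hint hC
    rw [← palm_eq] at this
    refine this.congr fun u => ?_
    congr 1
    simp only [XV, term hG1 hG3 hE h0 _ hG v C hC hv]
    exact (FM.sum_len hT1 fun k => ∫⁻ ξ, gG (QQ γ) G (u - QQ γ * k * l2 + ξ)
      ∂gaussianReal 0 (C + k * l2).toNNReal).symm
  · have hs : Measurable fun y : Dy → ℝ => sub y B :=
      measurable_pi_lambda _ fun S => measurable_pi_apply _
    have hg := meas_gG (QQ γ) hG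
    have e1 : ∀ y, eE (-γ * y) * gG (QQ γ) (fun y => G (sub y B)) y =
        ∫⁻ ξ, eE (-γ * y) * gG (QQ γ) G (y + (ξ - QQ γ * B.length * l2))
          ∂gaussianReal 0 (0 + B.length * l2).toNNReal := by
      intro y
      rw [gG_eq _ (G := fun y => G (sub y B)) (hG.comp hs), lintegral_const_mul' _ _ (eE_ne_top _)]
      congr 1
      refine (term hG1 hG3 hE h0 _ hG _ 0 le_rfl h0 y B).trans (lintegral_congr fun ξ => ?_)
      congr 1
      ring
    have hm : Measurable fun p : ℝ × ℝ =>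
        eE (-γ * p.1) * gG (QQ γ) G (p.1 + (p.2 - QQ γ * B.length * l2)) :=
      ((meas_w γ).comp measurable_fst).mul (hg.comp (by fun_prop))
    rw [palm_eq, palm_eq, mul_left_comm]
    congr 1
    simp only [e1]
    rw [lintegral_lintegral_swap hm.aemeasurable]
    simp only [shift, mul_sub, sub_eq_add_neg, mul_add, eE_add]
    have hme : Measurable fun ξ : ℝ => eE (γ * ξ) := meas_eE.comp (measurable_id.const_mul γ)
    rw [lintegral_mul_const _ (hme.mul_const _), lintegral_mul_const _ hme, lint_eE_gauss,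
      ← mul_assoc, ← eE_add, show (4 : ℝ≥0∞) ^ B.length = eE (2 * B.length * l2) by
        rw [eE, ← FM.four_pow, ENNReal.ofReal_pow (by norm_num)]; simp, ← eE_add,
      Real.coe_toNNReal _ (by positivity)]
    have hq := (hR.2.2 γ hγ).2.2.2.2.1
    rw [show 2 * (B.length : ℝ) * l2 + (γ ^ 2 * (0 + B.length * l2) / 2 +
      γ * -(QQ γ * B.length * l2)) = 0 by linear_combination (-(B.length : ℝ) * l2) * hq,
      FM.eE_zero, one_mul]
  · have hγ0 := hγ.1
    refine ⟨(aa γ * l2)⁻¹ * (Real.exp (‖γ • gvec (covE 0) []‖ ^ 2 / 2) * γ⁻¹), by positivity,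
      fun t => ?_⟩
    have := i3 (fun y => ind (0 < y [])) (-t)
    rw [p0, eE, ← ENNReal.ofReal_mul (Real.exp_pos _).le, mul_comm, mul_neg, ← neg_mul] at this
    rw [← this]
    congr 1
    funext y
    simp [sh]
  · rw [palm_eq, palm_eq, palm_eq, ← mul_add,
      ← lintegral_add_left (meas_wg γ (QQ γ) hG)]
    congr 1
    refine lintegral_congr fun y => ?_
    rw [← mul_add]
    congr 1
    exact lintegral_add_left (hG.comp (meas_drift _ y)) _
  · simp only [palm_eq]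
    rw [ENNReal.tsum_mul_left,
      ← lintegral_tsum fun i => (meas_wg γ (QQ γ) (hG i)).aemeasurable]
    congr 1
    refine lintegral_congr fun y => ?_
    rw [ENNReal.tsum_mul_left]
    congr 1
    exact lintegral_tsum fun i => ((hG i).comp (meas_drift _ y)).aemeasurable

end

end Pool.Agent.Lib.APPS
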