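import Pool.Agent.Lib.APPS.Blue3

/-!
Block REC1: the path seen from the first non-positive strict record.
-/

namespace Pool.Agent.Lib.APPS

open MeasureTheory ProbabilityTheory Filter Topology Set Metric
open scoped NNReal ENNReal Classical

noncomputable section

def rec1_y (a : ℝ) (ε : ℝ≥0) (b : ℝ≥0 → ℝ) (j : ℕ) : ℝ := b (j * ε) - a * (j * ε)

def rec1_N (a : ℝ) (ε : ℝ≥0) : Set (ℝ≥0 → ℝ) := {b | ∀ j : ℕ, 0 < j → rec1_y a ε b j < 0}

def rec1_sh (s : ℝ≥0) (b : ℝ≥0 → ℝ) : ℝ≥0 → ℝ := fun t => b (s + t) - b s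

def rec1_A (a : ℝ) (ε : ℝ≥0) (i : ℕ) : Set (ℝ≥0 → ℝ) :=
  {b | rec1_y a ε b i ≤ 0 ∧ ∀ i' : ℕ, i' < i →
    ¬(rec1_y a ε b i' ≤ 0 ∧ ∀ j : ℕ, i' < j → j ≤ i → rec1_y a ε b j < rec1_y a ε b i')}

def rec1_R (a : ℝ) (ε : ℝ≥0) (b : ℝ≥0 → ℝ) : Set ℕ :=
  {i : ℕ | rec1_y a ε b i ≤ 0 ∧ ∀ j : ℕ, i < j → rec1_y a ε b j < rec1_y a ε b i}

theorem rec1_recT (a : ℝ) (ε : ℝ≥0) (b : ℝ≥0 → ℝ) : recT a ε b = sInf (rec1_R a ε b) := rfl

theorem rec1_recB (a : ℝ) (ε : ℝ≥0) (b : ℝ≥0 → ℝ) :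
    recB a ε b = rec1_sh (recT a ε b * ε) b := rfl

theorem rec1_my (a : ℝ) (ε : ℝ≥0) (j : ℕ) : Measurable fun b => rec1_y a ε b j :=
  (measurable_pi_apply _).sub_const _

theorem rec1_mN (a : ℝ) (ε : ℝ≥0) : MeasurableSet (rec1_N a ε) := by
  unfold rec1_N
  simp only [ofPred_forall]
  exact MeasurableSet.iInter fun j => MeasurableSet.iInter fun _ =>
    measurableSet_lt (rec1_my a ε j) measurable_const

theorem rec1_mA (a : ℝ) (ε : ℝ≥0) (i : ℕ) : MeasurableSet (rec1_A a ε i) := by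
  unfold rec1_A
  refine (measurableSet_le (rec1_my a ε i) measurable_const).inter ?_
  change MeasurableSet {b | ∀ i' : ℕ, i' < i → _}
  simp only [ofPred_forall]
  refine MeasurableSet.iInter fun i' => MeasurableSet.iInter fun _ => MeasurableSet.compl ?_
  refine (measurableSet_le (rec1_my a ε i') measurable_const).inter ?_
  change MeasurableSet {b | ∀ j : ℕ, i' < j → _}
  simp only [ofPred_forall]
  exact MeasurableSet.iInter fun j => MeasurableSet.iInter fun _ => MeasurableSet.iInter fun _ =>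
    measurableSet_lt (rec1_my a ε j) (rec1_my a ε i')

theorem rec1_msh (s : ℝ≥0) : Measurable (rec1_sh s) :=
  measurable_pi_lambda _ fun _ => (measurable_pi_apply _).sub (measurable_pi_apply _)

theorem rec1_y_sh (a : ℝ) (ε : ℝ≥0) (b : ℝ≥0 → ℝ) (i j : ℕ) :
    rec1_y a ε (rec1_sh (i * ε) b) j = rec1_y a ε b (i + j) - rec1_y a ε b i := by
  unfold rec1_y rec1_sh
  rw [Nat.cast_add, add_mul]
  push_cast
  ring

theorem rec1_sh_N (a : ℝ) (ε : ℝ≥0) (b : ℝ≥0 → ℝ) (i : ℕ) :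
    rec1_sh (i * ε) b ∈ rec1_N a ε ↔ ∀ j : ℕ, i < j → rec1_y a ε b j < rec1_y a ε b i := by
  unfold rec1_N
  simp only [mem_ofPred_eq, rec1_y_sh, sub_neg]
  constructor
  · intro h j hj
    obtain ⟨m, rfl⟩ := Nat.exists_eq_add_of_le hj.le
    exact h m (by omega)
  · intro h j hj
    exact h _ (by omega)

theorem rec1_iff (a : ℝ) (ε : ℝ≥0) (b : ℝ≥0 → ℝ) (hb : (rec1_R a ε b).Nonempty) (i : ℕ) :
    (b ∈ rec1_A a ε i ∧ rec1_sh (i * ε) b ∈ rec1_N a ε) ↔ i = recT a ε b := by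
  rw [rec1_sh_N, rec1_recT]
  constructor
  · rintro ⟨⟨h1, h2⟩, h3⟩
    refine le_antisymm ?_ (Nat.sInf_le ⟨h1, h3⟩)
    by_contra hlt
    have h4 := Nat.sInf_mem hb
    exact h2 _ (not_le.1 hlt) ⟨h4.1, fun j hj _ => h4.2 j hj⟩
  · intro hi
    have h4 := Nat.sInf_mem hb
    rw [← hi] at h4
    refine ⟨⟨h4.1, fun i' hi' h => ?_⟩, h4.2⟩
    have hlt : i' < sInf (rec1_R a ε b) := hi ▸ hi'
    refine Nat.notMem_of_lt_sInf hlt (show _ ∧ _ from ⟨h.1, fun j hj => ?_⟩)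
    by_cases hji : j ≤ i
    · exact h.2 j hj hji
    · exact (h4.2 j (not_le.1 hji)).trans (h.2 i hi' le_rfl)

theorem rec1_ne (a : ℝ) (ε : ℝ≥0) (b : ℝ≥0 → ℝ)
    (hb : Tendsto (rec1_y a ε b) atTop atBot) : (rec1_R a ε b).Nonempty := by
  by_contra hR
  obtain ⟨n0, h0⟩ := eventually_atTop.1 (hb.eventually (eventually_le_atBot 0))
  have key : ∀ n : ℕ, ∃ j, n ≤ j ∧ n0 ≤ j ∧ rec1_y a ε b n0 ≤ rec1_y a ε b j := by
    intro n
    induction n with
    | zero => exact ⟨n0, Nat.zero_le _, le_rfl, le_rfl⟩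
    | succ n ih =>
      obtain ⟨j, h1, h2, h3⟩ := ih
      have : ¬∀ k : ℕ, j < k → rec1_y a ε b k < rec1_y a ε b j := fun h => hR ⟨j, h0 j h2, h⟩
      push Not at this
      obtain ⟨k, hk, hk'⟩ := this
      exact ⟨k, by omega, by omega, h3.trans hk'⟩
  obtain ⟨n1, h1⟩ := eventually_atTop.1 (hb.eventually (eventually_lt_atBot (rec1_y a ε b n0)))
  obtain ⟨j, hj, -, hj'⟩ := key n1
  exact absurd (h1 j hj) (not_lt.2 hj')

theorem rec1_tend (a : ℝ) (ha : 0 < a) (ε : ℝ≥0) (hε : 0 < ε) (b : ℝ≥0 → ℝ) (C : ℝ)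
    (hb : ∀ t, |b t| ≤ C + a / 2 * t) : Tendsto (rec1_y a ε b) atTop atBot := by
  have hε' : (0 : ℝ) < ε := hε
  have h1 : Tendsto (fun j : ℕ => C + -(a / 2 * ε) * (j : ℝ)) atTop atBot :=
    tendsto_atBot_add_const_left _ _
      (tendsto_natCast_atTop_atTop.const_mul_atTop_of_neg (by
        have : 0 < a / 2 * ε := by positivity
        linarith))
  refine tendsto_atBot_mono (fun j => ?_) h1
  have := (le_abs_self _).trans (hb (j * ε))
  unfold rec1_y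
  push_cast at this
  linarith

theorem rec1_pt (a : ℝ) (ε : ℝ≥0) (b : ℝ≥0 → ℝ) (hb : (rec1_R a ε b).Nonempty)
    (Γ : (ℝ≥0 → ℝ) → ℝ≥0∞) :
    Γ (recB a ε b) = ∑' i : ℕ, (rec1_N a ε).indicator Γ (rec1_sh (i * ε) b) *
      (rec1_A a ε i).indicator 1 b := by
  rw [tsum_eq_single (recT a ε b)]
  · have := (rec1_iff a ε b hb _).2 rfl
    rw [indicator_of_mem this.1, indicator_of_mem this.2, rec1_recB]
    simp
  · intro i hi
    by_cases h1 : b ∈ rec1_A a ε i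
    · rw [indicator_of_notMem (fun h2 => hi ((rec1_iff a ε b hb i).1 ⟨h1, h2⟩)), zero_mul]
    · rw [indicator_of_notMem h1, mul_zero]

theorem rec1_law {Ω : Type} [MeasurableSpace Ω] {P : Measure Ω} [IsProbabilityMeasure P]
    {b : Ω → ℝ≥0 → ℝ} (hb : BM1 P b) (s : ℝ≥0) :
    P.map (fun ω => rec1_sh s (b ω)) = P.map b := by
  have h1 := hb.bm.toIsPreBrownianReal
  have h2 := h1.shift s
  refine (map_eq_iff_forall_finset_map_restrict_eq (X := fun t ω => rec1_sh s (b ω) t)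
    (Y := fun t ω => b ω t) ((rec1_msh s).comp hb.meas).aemeasurable hb.meas.aemeasurable).2 ?_
  intro I
  exact (h2.hasLaw I).map_eq.trans (h1.hasLaw I).map_eq.symm

theorem rec1_term {Ω : Type} [MeasurableSpace Ω] {P : Measure Ω} [IsProbabilityMeasure P]
    {b : Ω → ℝ≥0 → ℝ} (hb : BM1 P b) (a : ℝ) (ε : ℝ≥0) (i : ℕ) (G : (ℝ≥0 → ℝ) → ℝ≥0∞)
    (hG : Measurable G) :
    ∫⁻ ω, G (rec1_sh (i * ε) (b ω)) * (rec1_A a ε i).indicator 1 (b ω) ∂P =
      (∫⁻ ω, G (b ω) ∂P) * ∫⁻ ω, (rec1_A a ε i).indicator 1 (b ω) ∂P := by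
  set s : ℝ≥0 := i * ε with hs
  let ex : (Iic s → ℝ) → ℝ≥0 → ℝ := fun x t => x ⟨min t s, mem_Iic.2 (min_le_right _ _)⟩
  have mex : Measurable ex := measurable_pi_lambda _ fun _ => measurable_pi_apply _
  have mI : Measurable ((rec1_A a ε i).indicator (1 : (ℝ≥0 → ℝ) → ℝ≥0∞)) :=
    measurable_one.indicator (rec1_mA a ε i)
  have h1 := (hb.bm.toIsPreBrownianReal.indepFun_shift s).comp hG (mI.comp mex)
  have e : ∀ c : ℝ≥0 → ℝ, (rec1_A a ε i).indicator (1 : (ℝ≥0 → ℝ) → ℝ≥0∞)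
      (ex fun t : Iic s => c t) = (rec1_A a ε i).indicator 1 c := by
    intro c
    have e1 : ∀ j : ℕ, j ≤ i → rec1_y a ε (ex fun t : Iic s => c t) j = rec1_y a ε c j := by
      intro j hj
      have : (j : ℝ≥0) * ε ≤ s := by
        rw [hs]
        gcongr
      simp only [rec1_y, ex, min_eq_left this]
    have e2 : (ex fun t : Iic s => c t) ∈ rec1_A a ε i ↔ c ∈ rec1_A a ε i := by
      unfold rec1_A
      simp only [mem_ofPred_eq]
      rw [e1 i le_rfl]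
      refine and_congr_right fun _ => forall_congr' fun i' => forall_congr' fun hi' => ?_
      rw [e1 i' hi'.le]
      refine not_congr (and_congr_right fun _ => forall_congr' fun j => forall_congr' fun _ =>
        forall_congr' fun hj => ?_)
      rw [e1 j hj]
    by_cases hc : c ∈ rec1_A a ε i
    · rw [indicator_of_mem hc, indicator_of_mem (e2.2 hc)]
      rfl
    · rw [indicator_of_notMem hc, indicator_of_notMem fun h => hc (e2.1 h)]
  have h2 : IndepFun (fun ω => G (rec1_sh s (b ω)))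
      (fun ω => (rec1_A a ε i).indicator (1 : (ℝ≥0 → ℝ) → ℝ≥0∞) (b ω)) P := by
    have e' : (fun ω => (rec1_A a ε i).indicator (1 : (ℝ≥0 → ℝ) → ℝ≥0∞) (b ω)) =
        ((rec1_A a ε i).indicator 1 ∘ ex) ∘ fun ω (t : Iic s) => b ω t :=
      funext fun ω => (e (b ω)).symm
    rw [e']
    exact h1
  have h3 := lintegral_mul_eq_lintegral_mul_lintegral_of_indepFun
    (hG.comp ((rec1_msh s).comp hb.meas)) (mI.comp hb.meas) h2
  have h4 : ∫⁻ ω, G (rec1_sh s (b ω)) ∂P = ∫⁻ ω, G (b ω) ∂P := by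
    have ms : Measurable fun ω => rec1_sh s (b ω) := (rec1_msh s).comp hb.meas
    rw [← lintegral_map hG ms, ← lintegral_map hG hb.meas, rec1_law hb s]
  rw [← h4]
  exact h3

theorem rec1_one (hX : St_BMX) {Ω : Type} [MeasurableSpace Ω] {P : Measure Ω}
    {b : Ω → ℝ≥0 → ℝ} (hb : BM1 P b) (a : ℝ) (ha : 0 < a) (ε : ℝ≥0) (hε : 0 < ε)
    (hm : Measurable (recB a ε)) : ∃ p : ℝ≥0∞, p ≠ 0 ∧ p ≠ ∞ ∧
      (P.map b).restrict (rec1_N a ε) = p • (P.map b).map (recB a ε) := by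
  obtain ⟨hP, -, -, -, hg, -⟩ := hX.2.2 Ω P b hb
  have hne : ∀ᵐ ω ∂P, (rec1_R a ε (b ω)).Nonempty := by
    filter_upwards [hg] with ω hω
    obtain ⟨C, hC⟩ := hω (a / 2) (by positivity)
    exact rec1_ne a ε _ (rec1_tend a ha ε hε _ C hC)
  set S : ℝ≥0∞ := ∑' i : ℕ, ∫⁻ ω, (rec1_A a ε i).indicator 1 (b ω) ∂P with hS
  have key : ∀ Γ : (ℝ≥0 → ℝ) → ℝ≥0∞, Measurable Γ → ∫⁻ ω, Γ (recB a ε (b ω)) ∂P =
      (∫⁻ ω, (rec1_N a ε).indicator Γ (b ω) ∂P) * S := by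
    intro Γ hΓ
    have mG := hΓ.indicator (rec1_mN a ε)
    rw [lintegral_congr_ae (hne.mono fun ω hω => rec1_pt a ε (b ω) hω Γ), lintegral_tsum, hS,
      ← ENNReal.tsum_mul_left]
    · exact tsum_congr fun i => rec1_term hb a ε i _ mG
    · intro i
      exact ((mG.comp ((rec1_msh _).comp hb.meas)).mul
        ((measurable_one.indicator (rec1_mA a ε i)).comp hb.meas)).aemeasurable
  have h1 := key 1 measurable_one
  simp only [Pi.one_apply, lintegral_one, measure_univ] at h1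
  set p : ℝ≥0∞ := ∫⁻ ω, (rec1_N a ε).indicator 1 (b ω) ∂P with hp
  have hp0 : p ≠ 0 := fun h => by rw [h, zero_mul] at h1; exact one_ne_zero h1
  have hp1 : p ≤ 1 := by
    calc p ≤ ∫⁻ _ω, 1 ∂P := lintegral_mono fun ω => indicator_le_self' (fun _ _ => zero_le) _
      _ = 1 := by simp
  refine ⟨p, hp0, ne_top_of_le_ne_top ENNReal.one_ne_top hp1, ?_⟩
  refine Measure.ext_of_lintegral _ fun Γ hΓ => ?_
  have mΓ : Measurable fun c => Γ (recB a ε c) := hΓ.comp hm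
  rw [lintegral_smul_measure, lintegral_map hΓ hm, lintegral_map mΓ hb.meas,
    ← lintegral_indicator (rec1_mN a ε), lintegral_map (hΓ.indicator (rec1_mN a ε)) hb.meas]
  change _ = p * ∫⁻ ω, Γ (recB a ε (b ω)) ∂P
  rw [key Γ hΓ, mul_left_comm, ← h1, mul_one]

theorem rec1_two (a : ℝ) (ε : ℝ≥0) (hε : 0 < ε) (p : PP) :
    (∀ i : ℤ, i ≠ 0 → ydr a p (i * (ε : ℝ)) < 0) ↔ p ∈ rec1_N a ε ×ˢ rec1_N a ε := by
  have hε' : (0 : ℝ) < ε := hε
  have e0 : ∀ j : ℕ, ((j : ℝ) * ε).toNNReal = j * ε := fun j => by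
    rw [show (j : ℝ) * ε = ((j * ε : ℝ≥0) : ℝ) by push_cast; rfl, Real.toNNReal_coe]
  have e1 : ∀ j : ℕ, ydr a p (((j : ℤ) : ℝ) * (ε : ℝ)) = rec1_y a ε p.1 j := by
    intro j
    have h : (0 : ℝ) ≤ j * ε := by positivity
    unfold ydr twoS rec1_y
    rw [Int.cast_natCast, if_pos h, abs_of_nonneg h, e0]
  have e2 : ∀ j : ℕ, 0 < j → ydr a p (((-j : ℤ) : ℝ) * (ε : ℝ)) = rec1_y a ε p.2 j := by
    intro j hj
    have h : (0 : ℝ) < j * ε := by positivity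
    unfold ydr twoS rec1_y
    rw [Int.cast_neg, Int.cast_natCast, neg_mul, if_neg (by linarith), neg_neg, abs_neg,
      abs_of_pos h, e0]
  constructor
  · intro h
    refine ⟨fun j hj => ?_, fun j hj => ?_⟩
    · rw [← e1]
      exact h _ (by omega)
    · rw [← e2 j hj]
      exact h _ (by omega)
  · rintro ⟨h1, h2⟩ i hi
    obtain ⟨j, rfl | rfl⟩ := Int.eq_nat_or_neg i
    · rw [e1]
      exact h1 j (by omega)
    · rw [e2 j (by omega)]
      exact h2 j (by omega)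

theorem blk_REC1 (_h1 : St_G1) (hX : St_BMX) (h2 : St_BM2) : St_REC1 := by
  intro Ω _ P β hβ a ha ε hε
  obtain ⟨-, ⟨-, hy⟩, -, h4⟩ := h2
  obtain ⟨hP, hb1, hb2, -⟩ := h4 Ω P β hβ
  have my := (hy a).1
  have mr := ((hy a).2 ε).2
  have hm : Measurable (recB a ε) :=
    measurable_fst.comp (mr.comp (measurable_id.prodMk measurable_id))
  obtain ⟨p1, hp1, hp1', e1⟩ := rec1_one hX hb1 a ha ε hε hm
  obtain ⟨p2, hp2, hp2', e2⟩ := rec1_one hX hb2 a ha ε hε hm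
  have hpp : p1 * p2 ≠ ∞ := ENNReal.mul_ne_top hp1' hp2'
  refine ⟨(p1 * p2).toReal, ENNReal.toReal_pos (mul_ne_zero hp1 hp2) hpp, fun Γ hΓ => ?_⟩
  have hlaw : P.map β = (P.map fun ω => (β ω).1).prod (P.map fun ω => (β ω).2) :=
    (indepFun_iff_map_prod_eq_prod_map_map hb1.meas.aemeasurable hb2.meas.aemeasurable).1 hβ.ind
  have mNN := (rec1_mN a ε).prod (rec1_mN a ε)
  have mG : Measurable fun p : PP => Γ (ydr a p) := hΓ.comp my
  have l1 : ∫⁻ ω, ind (∀ i : ℤ, i ≠ 0 → ydr a (β ω) (i * (ε : ℝ)) < 0) * Γ (ydr a (β ω)) ∂P =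
      ∫⁻ p in rec1_N a ε ×ˢ rec1_N a ε, Γ (ydr a p) ∂P.map β := by
    rw [← lintegral_indicator mNN, lintegral_map (mG.indicator mNN) hβ.meas]
    refine lintegral_congr fun ω => ?_
    unfold ind
    by_cases h : β ω ∈ rec1_N a ε ×ˢ rec1_N a ε
    · rw [if_pos ((rec1_two a ε hε _).2 h), indicator_of_mem h, one_mul]
    · rw [if_neg fun h' => h ((rec1_two a ε hε _).1 h'), indicator_of_notMem h, zero_mul]
  have l2 : ∫⁻ ω, Γ (recY a ε (β ω)) ∂P =
      ∫⁻ p, Γ (ydr a p) ∂(P.map β).map (Prod.map (recB a ε) (recB a ε)) := by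
    have mG' : Measurable fun p : PP => Γ (ydr a (Prod.map (recB a ε) (recB a ε) p)) :=
      mG.comp (hm.prodMap hm)
    rw [lintegral_map mG (hm.prodMap hm), lintegral_map mG' hβ.meas]
    rfl
  have := Measure.isProbabilityMeasure_map (μ := P) hb1.meas.aemeasurable
  have := Measure.isProbabilityMeasure_map (μ := P) hb2.meas.aemeasurable
  rw [l1, l2, ENNReal.ofReal_toReal hpp, hlaw, ← Measure.prod_restrict, e1, e2,
    ← Measure.map_prod_map _ _ hm hm, Measure.prod_smul_left, Measure.prod_smul_right, smul_smul,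
    lintegral_smul_measure, smul_eq_mul]

end

end Pool.Agent.Lib.APPS
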