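import Pool.Agent.Lib.APPS.Blue3

/-!
Block REC2: the record-shifted drifted paths converge to the path after the last zero.
-/

namespace Pool.Agent.Lib.APPS

open MeasureTheory ProbabilityTheory Filter Topology Set Metric
open scoped NNReal ENNReal

noncomputable section

namespace REC2

lemma last_argmax (u : ℕ → ℝ) (N : ℕ) : ∀ (d j0 : ℕ), N - j0 ≤ d → j0 < N →
    (∀ j, N ≤ j → u j < u j0) → ∃ i, j0 ≤ i ∧ i < N ∧ ∀ j, i < j → u j < u i := by
  intro d
  induction d with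
  | zero => intro j0 h1 h2; omega
  | succ d ih =>
    intro j0 h1 h2 h3
    by_cases h : ∀ j, j0 < j → u j < u j0
    · exact ⟨j0, le_rfl, h2, h⟩
    · push Not at h
      obtain ⟨j, hj, hu⟩ := h
      have hjN : j < N := by
        by_contra hc
        exact absurd (h3 j (by omega)) (not_lt.2 hu)
      obtain ⟨i, hi1, hi2, hi3⟩ := ih j (by omega) hjN fun k hk => (h3 k hk).trans_le hu
      exact ⟨i, by omega, hi2, hi3⟩

lemma l2_pos : 0 < l2 := Real.log_pos (by norm_num)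

lemma eps_coe (M : ℕ) : (eps M : ℝ) = l2 / (M + 1) := by
  unfold eps
  rw [Real.coe_toNNReal]
  have := l2_pos
  positivity

lemma eps_pos (M : ℕ) : 0 < (eps M : ℝ) := by
  rw [eps_coe]
  have := l2_pos
  positivity

lemma eps_tendsto : Tendsto (fun M => (eps M : ℝ)) atTop (𝓝 0) := by
  simp_rw [eps_coe]
  exact tendsto_const_nhds.div_atTop
    (tendsto_atTop_add_const_right _ _ tendsto_natCast_atTop_atTop)

/-- the first grid point strictly after `t` -/
def nxt (ε t : ℝ≥0) : ℕ := ⌊(t : ℝ) / ε⌋₊ + 1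

lemma nxt_gt {ε : ℝ≥0} (hε : 0 < (ε : ℝ)) (t : ℝ≥0) : (t : ℝ) < (nxt ε t : ℝ) * ε := by
  have := Nat.lt_floor_add_one ((t : ℝ) / ε)
  rw [div_lt_iff₀ hε] at this
  simpa [nxt] using this

lemma nxt_le {ε : ℝ≥0} (hε : 0 < (ε : ℝ)) (t : ℝ≥0) : (nxt ε t : ℝ) * ε ≤ t + ε := by
  have h0 : (0 : ℝ) ≤ (t : ℝ) / ε := by positivity
  have := Nat.floor_le h0
  rw [le_div_iff₀ hε] at this
  simp only [nxt, Nat.cast_add, Nat.cast_one]
  linarith

lemma nxt_tendsto (t : ℝ≥0) :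
    Tendsto (fun M => ((nxt (eps M) t : ℝ≥0) * eps M : ℝ≥0)) atTop (𝓝 t) := by
  rw [← NNReal.tendsto_coe]
  have h1 : Tendsto (fun M => (t : ℝ) + eps M) atTop (𝓝 (t : ℝ)) := by
    simpa using eps_tendsto.const_add (t : ℝ)
  refine tendsto_of_tendsto_of_tendsto_of_le_of_le tendsto_const_nhds h1 ?_ ?_
  · intro M
    simpa using (nxt_gt (eps_pos M) t).le
  · intro M
    simpa using nxt_le (eps_pos M) t

/-- pathwise hypotheses on one side -/
structure Good (a : ℝ) (b : ℝ≥0 → ℝ) : Prop where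
  cont : Continuous b
  zero : b 0 = 0
  grow : ∃ C : ℝ, ∀ t, |b t| ≤ C + a / 2 * t
  nomax : ∀ r r' : ℚ, 0 < r → r < r' →
    ¬((∀ t : ℝ≥0, (r : ℝ) ≤ t → (t : ℝ) ≤ r' → b t - a * t ≤ 0) ∧
      ∃ t : ℝ≥0, (r : ℝ) ≤ t ∧ (t : ℝ) ≤ r' ∧ b t - a * t = 0)

variable {a : ℝ} {b : ℝ≥0 → ℝ}

lemma Good.ycont (h : Good a b) : Continuous fun s : ℝ≥0 => b s - a * s :=
  h.cont.sub (continuous_const.mul NNReal.continuous_coe)

lemma Good.far (h : Good a b) (ha : 0 < a) :
    ∃ R : ℝ≥0, ∀ t : ℝ≥0, R ≤ t → b t - a * t ≤ -1 := by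
  obtain ⟨C, hC⟩ := h.grow
  refine ⟨((C + 1) / (a / 2)).toNNReal, fun t ht => ?_⟩
  have h1 : (C + 1) / (a / 2) ≤ t := Real.toNNReal_le_iff_le_coe.1 ht
  rw [div_le_iff₀ (by positivity)] at h1
  have := (abs_le.1 (hC t)).2
  nlinarith

lemma Good.bdd (h : Good a b) (ha : 0 < a) : BddAbove {s : ℝ≥0 | b s - a * s = 0} := by
  obtain ⟨R, hR⟩ := h.far ha
  refine ⟨R, fun s hs => ?_⟩
  by_contra hc
  have := hR s (not_le.1 hc).le
  have hs' : b s - a * s = 0 := hs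
  linarith

lemma Good.lz (h : Good a b) (ha : 0 < a) : b (lastZero a b) - a * (lastZero a b) = 0 := by
  have hc : IsClosed {s : ℝ≥0 | b s - a * s = 0} := isClosed_eq h.ycont continuous_const
  exact hc.csSup_mem ⟨0, by simp [h.zero]⟩ (h.bdd ha)

lemma Good.neg (h : Good a b) (ha : 0 < a) {t : ℝ≥0} (ht : lastZero a b < t) :
    b t - a * t < 0 := by
  by_contra hc
  have hc' : 0 ≤ b t - a * t := not_lt.1 hc
  obtain ⟨R, hR⟩ := h.far ha
  have h1 := hR (max R t) (le_max_left _ _)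
  have h2 := intermediate_value_Icc' (le_max_right R t) h.ycont.continuousOn
  obtain ⟨s, hs1, hs2⟩ := h2 (show (0 : ℝ) ∈ Icc _ _ from ⟨by linarith, hc'⟩)
  have : s ≤ lastZero a b := le_csSup (h.bdd ha) hs2
  exact absurd (ht.trans_le hs1.1) (not_lt.2 this)

lemma Good.gap (h : Good a b) (ha : 0 < a) {u : ℝ≥0} (hu : lastZero a b < u) :
    ∃ η < (0 : ℝ), ∀ t, u ≤ t → b t - a * t ≤ η := by
  obtain ⟨R, hR⟩ := h.far ha
  obtain ⟨s, hs1, hs2⟩ := (isCompact_Icc (a := u) (b := max R u)).exists_isMaxOn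
    ⟨u, le_rfl, le_max_right _ _⟩ h.ycont.continuousOn
  refine ⟨max (-1) (b s - a * s), max_lt (by norm_num) (h.neg ha (hu.trans_le hs1.1)), ?_⟩
  intro t ht
  by_cases hc : t ≤ max R u
  · exact le_max_of_le_right (hs2 ⟨ht, hc⟩)
  · exact le_max_of_le_left (hR t ((le_max_left _ _).trans (not_le.1 hc).le))

/-- the set of non-positive strict records -/
def RS (a : ℝ) (ε : ℝ≥0) (b : ℝ≥0 → ℝ) : Set ℕ :=
  {i : ℕ | b (i * ε) - a * (i * ε) ≤ 0 ∧
    ∀ j : ℕ, i < j → b (j * ε) - a * (j * ε) < b (i * ε) - a * (i * ε)}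

lemma recT_eq (ε : ℝ≥0) : recT a ε b = sInf (RS a ε b) := rfl

lemma Good.upper (h : Good a b) (ha : 0 < a) {u : ℝ≥0} (hu : lastZero a b < u) :
    ∀ᶠ M in atTop, ∃ i ∈ RS a (eps M) b, (i : ℝ≥0) * eps M < u := by
  obtain ⟨η, hη, hg⟩ := h.gap ha hu
  have h1 := (h.ycont.tendsto _).comp (nxt_tendsto (lastZero a b))
  rw [h.lz ha] at h1
  have h2 := h1.eventually (lt_mem_nhds hη)
  have h3 := (nxt_tendsto (lastZero a b)).eventually (gt_mem_nhds hu)
  filter_upwards [h2, h3] with M hM2 hM3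
  set ε := eps M with hε
  have hε0 : 0 < (ε : ℝ) := eps_pos M
  set j0 := nxt ε (lastZero a b) with hj0
  have hN : ∀ j : ℕ, ⌈(u : ℝ) / ε⌉₊ ≤ j ↔ u ≤ (j : ℝ≥0) * ε := by
    intro j
    rw [Nat.ceil_le, div_le_iff₀ hε0, ← NNReal.coe_le_coe]
    simp
  obtain ⟨i, hi1, hi2, hi3⟩ := last_argmax (fun j : ℕ => b (j * ε) - a * (j * ε))
    ⌈(u : ℝ) / ε⌉₊ _ j0 le_rfl (by
      by_contra hc
      exact absurd ((hN j0).1 (not_lt.1 hc)) (not_le.2 hM3)) (by
      intro j hj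
      have h4 := hg _ ((hN j).1 hj)
      simp only [Function.comp] at hM2
      push_cast at h4 hM2
      linarith)
  refine ⟨i, ⟨?_, hi3⟩, ?_⟩
  · have h5 : lastZero a b < (i : ℝ≥0) * ε := by
      rw [← NNReal.coe_lt_coe]
      have h6 := nxt_gt hε0 (lastZero a b)
      have h7 : (j0 : ℝ) ≤ i := by exact_mod_cast hi1
      push_cast
      nlinarith
    have := (h.neg ha h5).le
    push_cast at this
    exact this
  · by_contra hc
    exact absurd ((hN i).2 (not_lt.1 hc)) (not_le.2 hi2)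

lemma Good.tendsto (h : Good a b) (ha : 0 < a) :
    Tendsto (fun M => ((recT a (eps M) b : ℝ≥0) * eps M : ℝ≥0)) atTop (𝓝 (lastZero a b)) := by
  rw [tendsto_order]
  constructor
  · intro u hu
    by_contra hc
    rw [not_eventually] at hc
    have hne : ∀ᶠ M in atTop, recT a (eps M) b ∈ RS a (eps M) b := by
      filter_upwards [h.upper ha (lt_add_one (lastZero a b))] with M hM
      obtain ⟨i, hi, -⟩ := hM
      exact Nat.sInf_mem ⟨i, hi⟩
    have hle : ∀ t : ℝ≥0, u ≤ t → b t - a * t ≤ 0 := by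
      intro t ht
      have h1 := (h.ycont.tendsto _).comp (nxt_tendsto t)
      refine (isClosed_Iic (a := (0 : ℝ))).mem_of_frequently_of_tendsto ?_ h1
      refine (hc.and_eventually hne).mono fun M hM => ?_
      obtain ⟨hM1, hM2, hM3⟩ := hM
      have hM1' : (recT a (eps M) b : ℝ) * eps M ≤ u := by
        have := not_lt.1 hM1
        exact_mod_cast this
      have h2 := nxt_gt (eps_pos M) t
      have h3 : (u : ℝ) ≤ t := ht
      have h4 : recT a (eps M) b < nxt (eps M) t := by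
        have : (recT a (eps M) b : ℝ) < nxt (eps M) t :=
          lt_of_mul_lt_mul_right (by linarith) (eps_pos M).le
        exact_mod_cast this
      have h5 := hM3 _ h4
      simp only [Function.comp, mem_Iic]
      push_cast
      linarith
    have hu' : (u : ℝ) < lastZero a b := hu
    obtain ⟨r, hr1, hr2⟩ := exists_rat_btwn hu'
    obtain ⟨r', hr'⟩ := exists_rat_gt (lastZero a b : ℝ)
    have hr0 : 0 < r := by
      have : (0 : ℝ) < r := u.2.trans_lt hr1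
      exact_mod_cast this
    have hrr : r < r' := by
      have : (r : ℝ) < r' := hr2.trans hr'
      exact_mod_cast this
    refine h.nomax r r' hr0 hrr ⟨fun t ht _ => hle t ?_, lastZero a b, hr2.le, hr'.le, h.lz ha⟩
    exact NNReal.coe_le_coe.1 (hr1.le.trans ht)
  · intro u hu
    filter_upwards [h.upper ha hu] with M hM
    obtain ⟨i, hi, hi'⟩ := hM
    refine lt_of_le_of_lt ?_ hi'
    have : recT a (eps M) b ≤ i := Nat.sInf_le hi
    gcongr

lemma Good.unif (h : Good a b) (ha : 0 < a) (S : ℝ≥0) {η : ℝ} (hη : 0 < η) :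
    ∀ᶠ M in atTop, ∀ s : ℝ≥0, s ≤ S →
      dist (condNeg a b s) (recB a (eps M) b s - a * s) < η := by
  have hc := h.cont
  have hF : Continuous ↿(fun (u : ℝ≥0) (s : Icc (0 : ℝ≥0) S) =>
      b (u + s.1) - b u - a * (s.1 : ℝ)) := by
    show Continuous fun p : ℝ≥0 × Icc (0 : ℝ≥0) S => b (p.1 + p.2.1) - b p.1 - a * (p.2.1 : ℝ)
    fun_prop
  have h1 := Metric.tendstoUniformly_iff.1 (hF.tendstoUniformly _ (lastZero a b)) η hη
  filter_upwards [(h.tendsto ha).eventually h1] with M hM s hs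
  have h2 := hM ⟨s, zero_le, hs⟩
  have h3 := h.lz ha
  have h4 : condNeg a b s = b (lastZero a b + s) - b (lastZero a b) - a * s := by
    unfold condNeg
    push_cast
    linarith
  rw [h4]
  exact h2

lemma Good.dom (h : Good a b) (ha : 0 < a) : ∃ C : ℝ, ∀ s : ℝ≥0,
    condNeg a b s ≤ C - a / 2 * s ∧ b s - a * s ≤ C - a / 2 * s ∧
      ∀ M, recB a (eps M) b s - a * s ≤ C - a / 2 * s := by
  obtain ⟨C, hC⟩ := h.grow
  obtain ⟨B, hB⟩ := (h.tendsto ha).bddAbove_range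
  have hC0 : 0 ≤ C := by
    have := hC 0
    simpa [h.zero] using this
  have hB0 : 0 ≤ a * B := by positivity
  refine ⟨2 * C + a * B, fun s => ⟨?_, ?_, fun M => ?_⟩⟩
  · have h1 := (abs_le.1 (hC (lastZero a b + s))).2
    have h2 : 0 ≤ a * (lastZero a b : ℝ) := by positivity
    unfold condNeg
    push_cast at h1 ⊢
    nlinarith
  · have h1 := (abs_le.1 (hC s)).2
    linarith
  · have h0 : ((recT a (eps M) b : ℝ≥0) * eps M : ℝ≥0) ≤ B := hB ⟨M, rfl⟩
    unfold recB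
    generalize ((recT a (eps M) b : ℝ≥0) * eps M : ℝ≥0) = T at h0
    have h0' : (T : ℝ) ≤ B := h0
    have h1 := (abs_le.1 (hC (T + s))).2
    have h2 := (abs_le.1 (hC T)).1
    have h3 : a * (T : ℝ) ≤ a * B := by gcongr
    push_cast at h1
    nlinarith

lemma ydr_pos (p : PP) {t : ℝ} (ht : 0 ≤ t) :
    ydr a p t = p.1 t.toNNReal - a * (t.toNNReal : ℝ) ∧ |t| = (t.toNNReal : ℝ) := by
  simp [ydr, twoS, ht, abs_of_nonneg ht]

lemma ydr_neg (p : PP) {t : ℝ} (ht : ¬ 0 ≤ t) :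
    ydr a p t = p.2 (-t).toNNReal - a * ((-t).toNNReal : ℝ) ∧ |t| = ((-t).toNNReal : ℝ) := by
  have h := (not_le.1 ht).le
  have h' : 0 ≤ -t := by linarith
  simp only [ydr, twoS, ht, if_false, Real.coe_toNNReal _ h', abs_of_nonpos h, and_self]

lemma pathwise {p : PP} (h1 : Good a p.1) (h2 : Good a p.2) (ha : 0 < a) :
    (∀ T : ℝ, TendstoUniformlyOn (fun M => recY a (eps M) p) (radP a p) atTop (Icc (-T) T)) ∧
    ∃ C : ℝ, ∀ t, radP a p t ≤ C - a / 2 * |t| ∧ ydr a p t ≤ C - a / 2 * |t| ∧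
      ∀ M, recY a (eps M) p t ≤ C - a / 2 * |t| := by
  constructor
  · intro T
    rw [Metric.tendstoUniformlyOn_iff]
    intro η hη
    filter_upwards [h1.unif ha T.toNNReal hη, h2.unif ha T.toNNReal hη] with M hM1 hM2 t ht
    by_cases h0 : 0 ≤ t
    · rw [recY, (ydr_pos _ h0).1, radP, radial, if_pos h0]
      exact hM1 _ (Real.toNNReal_le_toNNReal ht.2)
    · rw [recY, (ydr_neg _ h0).1, radP, radial, if_neg h0]
      exact hM2 _ (Real.toNNReal_le_toNNReal (by linarith [ht.1]))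
  · obtain ⟨C1, hC1⟩ := h1.dom ha
    obtain ⟨C2, hC2⟩ := h2.dom ha
    refine ⟨max C1 C2, fun t => ?_⟩
    have e1 := le_max_left C1 C2
    have e2 := le_max_right C1 C2
    by_cases h0 : 0 ≤ t
    · obtain ⟨k1, k2, k3⟩ := hC1 t.toNNReal
      rw [radP, radial, if_pos h0, (ydr_pos p h0).1, (ydr_pos (a := a) p h0).2]
      refine ⟨by linarith, by linarith, fun M => ?_⟩
      rw [recY, (ydr_pos _ h0).1]
      linarith [k3 M]
    · obtain ⟨k1, k2, k3⟩ := hC2 (-t).toNNReal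
      rw [radP, radial, if_neg h0, (ydr_neg p h0).1, (ydr_neg (a := a) p h0).2]
      refine ⟨by linarith, by linarith, fun M => ?_⟩
      rw [recY, (ydr_neg _ h0).1]
      linarith [k3 M]

lemma good_ae (hX : St_BMX) {Ω : Type} [MeasurableSpace Ω] {P : Measure Ω}
    {b : Ω → ℝ≥0 → ℝ} (hb : BM1 P b) {a : ℝ} (ha : 0 < a) : ∀ᵐ ω ∂P, Good a (b ω) := by
  obtain ⟨-, -, k0, -, k1, -, k2, -⟩ := hX.2.2 Ω P b hb
  filter_upwards [k0, k1, k2 a] with ω e0 e1 e2
  exact ⟨hb.cont ω, e0, e1 (a / 2) (by positivity), e2⟩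

end REC2

theorem blk_REC2 (hBMX : St_BMX) (hBM2 : St_BM2) : St_REC2 := by
  intro Ω _ P β hβ a ha
  obtain ⟨-, b1, b2, -⟩ := hBM2.2.2.2 Ω P β hβ
  filter_upwards [REC2.good_ae hBMX b1 ha, REC2.good_ae hBMX b2 ha] with ω e1 e2
  exact REC2.pathwise e1 e2 ha

end

end Pool.Agent.Lib.APPS
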