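import Pool.Agent.Lib.APPS.B_BR

/-!
Block RIEM: Riemann sums of processes that are continuous in mean.
-/

namespace Pool.Agent.Lib.APPS

open MeasureTheory ProbabilityTheory Filter Topology Set Metric
open scoped NNReal ENNReal CompactlySupported Classical

noncomputable section

namespace RIEM

/-- index of the lattice cell containing a point -/
def rd (l : ℕ) (x : ℂ) : ℤ × ℤ := (⌊x.re / (1 / 2 : ℝ) ^ l⌋, ⌊x.im / (1 / 2 : ℝ) ^ l⌋)

theorem meas_rd (l : ℕ) : Measurable (rd l) :=
  (Complex.measurable_re.div_const _).floor.prodMk (Complex.measurable_im.div_const _).floor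

theorem fl_close {r : ℝ} (hr : 0 < r) (t : ℝ) : |r * (⌊t / r⌋ + 1 / 2) - t| ≤ r / 2 := by
  have h1 := Int.floor_le (t / r)
  have h2 := Int.lt_floor_add_one (t / r)
  rw [le_div_iff₀ hr] at h1
  rw [div_lt_iff₀ hr] at h2
  rw [abs_le]
  constructor <;> nlinarith

theorem rd_close (l : ℕ) (x : ℂ) : ‖xl l (rd l x) - x‖ ≤ (1 / 2 : ℝ) ^ l := by
  have hr : (0 : ℝ) < (1 / 2 : ℝ) ^ l := by positivity
  have h1 := fl_close hr x.re
  have h2 := fl_close hr x.im
  refine (Complex.norm_le_abs_re_add_abs_im _).trans ?_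
  have e1 : (xl l (rd l x) - x).re = (1 / 2 : ℝ) ^ l * (⌊x.re / (1 / 2 : ℝ) ^ l⌋ + 1 / 2) - x.re := by
    rw [xl, Complex.sub_re, Complex.re_ofReal_mul]
    simp [zc, rd]
  have e2 : (xl l (rd l x) - x).im = (1 / 2 : ℝ) ^ l * (⌊x.im / (1 / 2 : ℝ) ^ l⌋ + 1 / 2) - x.im := by
    rw [xl, Complex.sub_im, Complex.im_ofReal_mul]
    simp [zc, rd]
  rw [e1, e2]
  linarith

theorem vol_cell (l : ℕ) (i : ℤ × ℤ) :
    volume (rd l ⁻¹' {i}) = ENNReal.ofReal ((1 / 4 : ℝ) ^ l) := by
  have hr : (0 : ℝ) < (1 / 2 : ℝ) ^ l := by positivity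
  have h : rd l ⁻¹' {i} = Complex.measurableEquivRealProd ⁻¹'
      (Ico (i.1 * (1 / 2 : ℝ) ^ l) ((i.1 + 1) * (1 / 2 : ℝ) ^ l) ×ˢ
        Ico (i.2 * (1 / 2 : ℝ) ^ l) ((i.2 + 1) * (1 / 2 : ℝ) ^ l)) := by
    ext z
    simp only [mem_preimage, mem_singleton_iff, rd, Prod.ext_iff, Int.floor_eq_iff, le_div_iff₀ hr,
      div_lt_iff₀ hr, mem_prod, mem_Ico, Complex.measurableEquivRealProd_apply]
  rw [h, Complex.volume_preserving_equiv_real_prod.measure_preimage_equiv, Measure.volume_eq_prod,
    Measure.prod_prod, Real.volume_Ico, Real.volume_Ico, ← ENNReal.ofReal_mul (by nlinarith)]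
  congr 1
  rw [show (1 / 4 : ℝ) = 1 / 2 * (1 / 2) by norm_num, mul_pow]
  ring

theorem sum_eq (l : ℕ) (u : ℤ × ℤ → ℝ) (s : Finset (ℤ × ℤ)) (hs : ∀ i ∉ s, u i = 0) :
    Integrable (fun x => u (rd l x)) volume ∧
      ∫ x, u (rd l x) = ∑' i, (1 / 4 : ℝ) ^ l * u i := by
  have e : (fun x => u (rd l x)) = fun x => ∑ i ∈ s, (rd l ⁻¹' {i}).indicator (fun _ => u i) x := by
    funext x
    rw [Finset.sum_eq_single (rd l x)]
    · rw [indicator_of_mem (by simp)]
    · intro i _ hi
      have : x ∉ rd l ⁻¹' {i} := fun h => hi (Eq.symm h)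
      rw [indicator_of_notMem this]
    · intro h
      rw [hs _ h]
      simp
  have m : ∀ i, MeasurableSet (rd l ⁻¹' {i}) := fun i => meas_rd l (measurableSet_singleton i)
  have hi : ∀ i ∈ s, Integrable ((rd l ⁻¹' {i}).indicator fun _ => u i) volume := fun i _ =>
    (integrableOn_const (by rw [vol_cell]; exact ENNReal.ofReal_ne_top)).integrable_indicator (m i)
  rw [e]
  refine ⟨integrable_finsetSum _ hi, ?_⟩
  rw [integral_finsetSum _ hi, tsum_eq_sum (s := s) fun i hi => by rw [hs i hi, mul_zero]]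
  refine Finset.sum_congr rfl fun i _ => ?_
  rw [integral_indicator_const _ (m i), measureReal_def, vol_cell,
    ENNReal.toReal_ofReal (by positivity), smul_eq_mul]

theorem plane {Ω : Type} [MeasurableSpace Ω] (P : Measure Ω) [IsProbabilityMeasure P]
    (H : ℂ → Ω → ℝ) (hm : Measurable fun q : ℂ × Ω => H q.1 q.2) (hi : ∀ x, Integrable (H x) P)
    (hc : Continuous fun x => (hi x).toL1 (H x)) (R : ℝ) (hR : ∀ x ω, R < ‖x‖ → H x ω = 0) :
    (∀ᵐ ω ∂P, Integrable (fun x => H x ω) volume) ∧
      Tendsto (fun l => ∫⁻ ω, ENNReal.ofReal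
        |(∫ x, H x ω) - ∑' i, (1 / 4 : ℝ) ^ l * H (xl l i) ω| ∂P) atTop (𝓝 0) := by
  set Φ : ℂ → (Ω →₁[P] ℝ) := fun x => (hi x).toL1 (H x) with hΦ
  have hn : ∀ x, ∫⁻ ω, ‖H x ω‖ₑ ∂P = ‖Φ x‖ₑ := fun x => (Integrable.enorm_toL1 (hi x)).symm
  have hz : ∀ x, R < ‖x‖ → Φ x = 0 := fun x hx => by
    rw [← enorm_eq_zero, ← hn]
    simp [hR x _ hx]
  obtain ⟨C, hC⟩ := hc.bounded_above_of_compact_support
    (HasCompactSupport.intro (isCompact_closedBall 0 R) fun x hx => hz x (by simpa using hx))
  have hfin : ∀ c : ℝ, ∫⁻ x, (closedBall (0 : ℂ) (R + 1)).indicator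
      (fun _ => ENNReal.ofReal c) x ≠ ∞ := fun c => by
    rw [lintegral_indicator_const measurableSet_closedBall]
    exact ENNReal.mul_ne_top ENNReal.ofReal_ne_top measure_closedBall_lt_top.ne
  have h1 : ∀ᵐ ω ∂P, Integrable (fun x => H x ω) volume := by
    have m : Measurable fun q : Ω × ℂ => ‖H q.2 q.1‖ₑ := (hm.comp measurable_swap).enorm
    have : ∫⁻ ω, ∫⁻ x, ‖H x ω‖ₑ ∂volume ∂P ≠ ∞ := by
      rw [lintegral_lintegral_swap m.aemeasurable]
      refine ne_top_of_le_ne_top (hfin C) (lintegral_mono fun x => ?_)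
      rw [hn]
      by_cases hx : x ∈ closedBall (0 : ℂ) (R + 1)
      · rw [indicator_of_mem hx, ← ofReal_norm]
        exact ENNReal.ofReal_le_ofReal (hC x)
      · rw [hz x (by simp at hx; linarith), enorm_zero]
        exact zero_le
    filter_upwards [ae_lt_top m.lintegral_prod_right' this] with ω hω
    exact ⟨(hm.comp measurable_prodMk_right).aestronglyMeasurable, hω⟩
  refine ⟨h1, ?_⟩
  have m : ∀ l, Measurable fun q : Ω × ℂ => edist (H q.2 q.1) (H (xl l (rd l q.2)) q.1) := fun l =>
    (hm.comp measurable_swap).edist (hm.comp ((((measurable_of_countable (xl l)).comp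
      (meas_rd l)).comp measurable_snd).prodMk measurable_fst))
  have he : ∀ x y, ∫⁻ ω, edist (H x ω) (H y ω) ∂P = edist (Φ x) (Φ y) := fun x y =>
    (Integrable.edist_toL1_toL1 _ _ (hi x) (hi y)).symm
  have h2 := tendsto_lintegral_of_dominated_convergence (μ := (volume : Measure ℂ))
    (F := fun l x => ∫⁻ ω, edist (H x ω) (H (xl l (rd l x)) ω) ∂P) (f := fun _ => 0) _
    (fun l => (m l).lintegral_prod_left') (fun l => ae_of_all _ fun x => ?_) (hfin (C + C))
    (ae_of_all _ fun x => ?_)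
  · rw [lintegral_zero] at h2
    refine tendsto_of_tendsto_of_tendsto_of_le_of_le tendsto_const_nhds h2 (fun _ => zero_le)
      fun l => ?_
    dsimp only
    rw [← lintegral_lintegral_swap (m l).aemeasurable]
    refine lintegral_mono_ae ?_
    filter_upwards [h1] with ω hω
    have hr : (0 : ℝ) < (1 / 2 : ℝ) ^ l := by positivity
    obtain ⟨a1, a2⟩ := sum_eq l (fun i => H (xl l i) ω)
      (BR.fin_lat _ hr ((1 + Complex.I) / 2) R).toFinset fun i hi =>
        hR _ _ (not_le.1 fun e => hi ((Set.Finite.mem_toFinset _).2 e))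
    rw [← a2, ← integral_sub hω a1, ← Real.enorm_eq_ofReal_abs]
    refine (enorm_integral_le_lintegral_enorm _).trans_eq (lintegral_congr fun x => ?_)
    rw [edist_eq_enorm_sub]
  · dsimp only
    rw [he]
    by_cases hx : x ∈ closedBall (0 : ℂ) (R + 1)
    · rw [indicator_of_mem hx, edist_dist, dist_eq_norm]
      exact ENNReal.ofReal_le_ofReal ((norm_sub_le _ _).trans (add_le_add (hC _) (hC _)))
    · have a1 : R + 1 < ‖x‖ := by simpa using hx
      have a2 := rd_close l x
      have a3 : (1 / 2 : ℝ) ^ l ≤ 1 := pow_le_one₀ (by norm_num) (by norm_num)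
      have a4 := norm_sub_norm_le x (xl l (rd l x))
      rw [norm_sub_rev] at a4
      rw [hz x (by linarith), hz _ (by linarith), edist_self]
      exact zero_le
  · simp only [he]
    have a1 : Tendsto (fun l => xl l (rd l x)) atTop (𝓝 x) := by
      rw [tendsto_iff_norm_sub_tendsto_zero]
      exact squeeze_zero (fun _ => norm_nonneg _) (fun l => rd_close l x)
        (tendsto_pow_atTop_nhds_zero_of_lt_one (by norm_num) (by norm_num))
    have := (tendsto_const_nhds (x := Φ x)).edist ((hc.tendsto x).comp a1)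
    rwa [edist_self] at this

end RIEM

open RIEM in
theorem blk_RIEM (hC : St_CYL) : St_RIEM := by
  refine ⟨fun f l => ?_, fun Ω _ P _ X hm hi hc f => ?_⟩
  · obtain ⟨T, hT⟩ := BR.supp hC f
    have hr : (0 : ℝ) < (1 / 2 : ℝ) ^ l := by positivity
    exact ⟨(BR.fin_lat _ hr ((1 + Complex.I) / 2) T).toFinset, fun i hi =>
      by_contra fun e => hi ((Set.Finite.mem_toFinset _).2 (hT _ e))⟩
  obtain ⟨R, hR⟩ := BR.supp hC f
  obtain ⟨T, hT⟩ := (hC.2.2.2.2.2.2.2.2.2.2.2.2.1 f).2.2.2
  obtain ⟨hfr, -, -, hto, mto, hnr, -, -, hvol, -⟩ := hC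
  let a : ℂ → ℝ := fun x => 1 / ‖x‖ ^ 2 * f (toCyl x)
  have ma : Measurable a :=
    (measurable_const.div (measurable_norm.pow_const 2)).mul (f.continuous.measurable.comp mto)
  have hY : Continuous fun w => (hi w).toL1 (X w) := by
    refine continuous_iff_continuousAt.2 fun w0 => tendsto_iff_edist_tendsto_0.2 ?_
    simp only [Integrable.edist_toL1_toL1]
    simpa only [edist_dist, Real.dist_eq] using hc w0
  have hH : ∀ x, Integrable (fun ω => a x • X (toCyl x) ω) P := fun x => (hi _).smul (a x)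
  have hΦ : Continuous fun x => (hH x).toL1 fun ω => a x • X (toCyl x) ω := by
    change Continuous fun x => a x • (hi (toCyl x)).toL1 (X (toCyl x))
    refine continuous_iff_continuousAt.2 fun x => ?_
    by_cases hx : x = 0
    · subst hx
      refine (continuousAt_const (y := (0 : Ω →₁[P] ℝ))).congr ?_
      filter_upwards [ball_mem_nhds (0 : ℂ) (Real.exp_pos (-T))] with y hy
      have : a y = 0 := by
        by_cases h0 : y = 0
        · simp [a, h0]
        · have : f (toCyl y) = 0 := by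
            by_contra e
            rw [mem_ball_zero_iff, ← hfr y h0, hnr, Real.exp_lt_exp] at hy
            have := (le_abs_self _).trans (hT _ e)
            linarith
          simp [a, this]
      rw [this, zero_smul]
    · have ct : ContinuousAt toCyl x := hto.continuousAt (isOpen_compl_singleton.mem_nhds hx)
      refine ContinuousAt.smul (ContinuousAt.mul (continuousAt_const.div
        (continuous_norm.continuousAt.pow 2) (by simpa using hx))
        (f.continuous.continuousAt.comp ct)) (hY.continuousAt.comp ct)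
  obtain ⟨h1, h2⟩ := plane P (fun x ω => a x • X (toCyl x) ω)
    ((ma.comp measurable_fst).smul (hm.comp ((mto.comp measurable_fst).prodMk measurable_snd)))
    hH hΦ R fun x ω hx => by
      have : f (toCyl x) = 0 := by_contra fun e => absurd (hR x e) (not_le.2 hx)
      simp [a, this]
  have md : Measurable fun x : ℂ => ENNReal.ofReal (1 / ‖x‖ ^ 2) :=
    (measurable_const.div (measurable_norm.pow_const 2)).ennreal_ofReal
  have mF : ∀ ω, Measurable fun w => f w * X w ω := fun ω =>
    f.continuous.measurable.mul (hm.comp measurable_prodMk_right)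
  have e : ∀ ω x, (ENNReal.ofReal (1 / ‖x‖ ^ 2)).toReal • (f (toCyl x) * X (toCyl x) ω) =
      a x • X (toCyl x) ω := fun ω x => by
    rw [ENNReal.toReal_ofReal (by positivity), smul_eq_mul, smul_eq_mul, mul_assoc]
  constructor
  · filter_upwards [h1] with ω hω
    rw [hvol, integrable_map_measure (mF ω).aestronglyMeasurable mto.aemeasurable,
      integrable_withDensity_iff_integrable_smul' md (ae_of_all _ fun _ => ENNReal.ofReal_lt_top)]
    simpa only [Function.comp, e] using hω
  · refine h2.congr fun l => lintegral_congr fun ω => ?_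
    rw [hvol, integral_map mto.aemeasurable (mF ω).aestronglyMeasurable,
      integral_withDensity_eq_integral_toReal_smul md (ae_of_all _ fun _ => ENNReal.ofReal_lt_top)]
    simp only [e, Rie]
    congr 3
    refine tsum_congr fun i => ?_
    simp only [a, smul_eq_mul]
    ring

end

end Pool.Agent.Lib.APPS
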