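import Pool.Agent.Lib.APPS.Blue1

/-!
Block ROS: Rosenthal type inequalities for conditionally independent nonnegative summands.
-/

namespace Pool.Agent.Lib.APPS

open MeasureTheory ProbabilityTheory Filter Topology Set
open scoped NNReal ENNReal Classical

noncomputable section

namespace ROS

lemma add_rpow_le (a b : ℝ≥0∞) {p : ℝ} (hp : 0 ≤ p) :
    (a + b) ^ p ≤ 2 ^ p * (a ^ p + b ^ p) := by
  rcases le_total a b with h | h
  · calc (a + b) ^ p ≤ (2 * b) ^ p := by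
          apply ENNReal.rpow_le_rpow _ hp
          rw [two_mul]; gcongr
      _ = 2 ^ p * b ^ p := ENNReal.mul_rpow_of_nonneg _ _ hp
      _ ≤ _ := by gcongr; exact le_add_self
  · calc (a + b) ^ p ≤ (2 * a) ^ p := by
          apply ENNReal.rpow_le_rpow _ hp
          rw [two_mul]; gcongr
      _ = 2 ^ p * a ^ p := ENNReal.mul_rpow_of_nonneg _ _ hp
      _ ≤ _ := by gcongr; exact le_self_add

lemma rpow_succ (x : ℝ≥0∞) {p : ℝ} (hp : 0 ≤ p) : x ^ (p + 1) = x * x ^ p := by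
  rw [ENNReal.rpow_add_of_nonneg _ _ hp zero_le_one, ENNReal.rpow_one, mul_comm]

lemma young (M S d : ℝ≥0∞) (hd0 : d ≠ 0) (hd : d ≠ ∞) {p : ℝ} (hp : 0 ≤ p) :
    M * S ^ p ≤ d⁻¹ * S ^ (p + 1) + d ^ p * M ^ (p + 1) := by
  rcases le_total M (d⁻¹ * S) with h | h
  · calc M * S ^ p ≤ d⁻¹ * S * S ^ p := by gcongr
      _ = d⁻¹ * S ^ (p + 1) := by rw [rpow_succ S hp, mul_assoc]
      _ ≤ _ := le_self_add
  · have h2 : S ≤ d * M := by
      calc S = d * (d⁻¹ * S) := by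
            rw [← mul_assoc, ENNReal.mul_inv_cancel hd0 hd, one_mul]
        _ ≤ d * M := by gcongr
    calc M * S ^ p ≤ M * (d * M) ^ p := by gcongr
      _ = d ^ p * M ^ (p + 1) := by
          rw [ENNReal.mul_rpow_of_nonneg _ _ hp, rpow_succ M hp]; ring
      _ ≤ _ := le_add_self

/-- The constant in the Rosenthal inequality. -/
def cst (p : ℝ) : ℝ≥0∞ := 2 * 2 ^ p + 2 * 2 ^ p * (2 * 2 ^ p) ^ p

lemma two_rpow_ne_top {p : ℝ} (hp : 0 ≤ p) : (2 : ℝ≥0∞) ^ p ≠ ∞ :=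
  ENNReal.rpow_ne_top_of_nonneg hp (by simp)

lemma two_rpow_ne_zero (p : ℝ) : (2 : ℝ≥0∞) ^ p ≠ 0 := by
  simp

lemma cst_ne_top {p : ℝ} (hp : 0 ≤ p) : cst p ≠ ∞ := by
  have h := two_rpow_ne_top hp
  have h2 : (2 : ℝ≥0∞) * 2 ^ p ≠ ∞ := ENNReal.mul_ne_top (by simp) h
  exact ENNReal.add_ne_top.2 ⟨h2, ENNReal.mul_ne_top h2 (ENNReal.rpow_ne_top_of_nonneg hp h2)⟩

lemma cst_ne_zero (p : ℝ) : cst p ≠ 0 := by
  have h := two_rpow_ne_zero p
  intro h0
  rw [cst, add_eq_zero] at h0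
  exact mul_ne_zero (by simp) h h0.1

variable {Ω J : Type} [MeasurableSpace Ω] [Fintype J] {P : Measure Ω} [IsProbabilityMeasure P]

lemma r1 {p : ℝ} (hp : 0 ≤ p) (X : J → Ω → ℝ≥0∞) (hX : ∀ j, Measurable (X j))
    (hi : iIndepFun X P) :
    ∫⁻ ω, (∑ j, X j ω) ^ (p + 1) ∂P ≤ cst p *
      ((∑ j, ∫⁻ ω, X j ω ∂P) ^ (p + 1) + ∑ j, ∫⁻ ω, X j ω ^ (p + 1) ∂P) := by
  set A := ∑ j, ∫⁻ ω, X j ω ^ (p + 1) ∂P with hA
  set M := ∑ j, ∫⁻ ω, X j ω ∂P with hM
  set I := ∫⁻ ω, (∑ j, X j ω) ^ (p + 1) ∂P with hI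
  by_cases hAt : A = ∞
  · rw [hAt, add_top, ENNReal.mul_top (cst_ne_zero p)]; exact le_top
  have hS : Measurable fun ω => ∑ j, X j ω := Finset.measurable_sum _ fun j _ => hX j
  have hXq : ∀ j, Measurable fun ω => X j ω ^ (p + 1) := fun j => (hX j).pow_const _
  have hIt : I ≠ ∞ := by
    have h1 : I ≤ ((Finset.univ : Finset J).card : ℝ≥0∞) ^ (p + 1 - 1) * A := by
      rw [hA, ← lintegral_finsetSum _ fun j _ => hXq j,
        ← lintegral_const_mul _ (Finset.measurable_sum _ fun j _ => hXq j)]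
      exact lintegral_mono fun ω =>
        ENNReal.rpow_sum_le_const_mul_sum_rpow _ _ (by linarith)
    exact ne_top_of_le_ne_top (ENNReal.mul_ne_top
      (ENNReal.rpow_ne_top_of_nonneg (by linarith) (by simp)) hAt) h1
  set c : ℝ≥0∞ := 2 ^ p with hc
  have hct : c ≠ ∞ := two_rpow_ne_top hp
  have hc0 : c ≠ 0 := two_rpow_ne_zero p
  have hd0 : 2 * c ≠ 0 := mul_ne_zero (by simp) hc0
  have hdt : 2 * c ≠ ∞ := ENNReal.mul_ne_top (by simp) hct
  have hR : ∀ i, Measurable fun ω => (∑ j ∈ Finset.univ.erase i, X j ω) ^ p := fun i =>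
    (Finset.measurable_sum _ fun j _ => hX j).pow_const _
  have hpt : ∀ ω, (∑ j, X j ω) ^ (p + 1) ≤
      c * ∑ i, (X i ω ^ (p + 1) + X i ω * (∑ j ∈ Finset.univ.erase i, X j ω) ^ p) := by
    intro ω
    rw [rpow_succ _ hp, Finset.sum_mul, Finset.mul_sum]
    refine Finset.sum_le_sum fun i _ => ?_
    rw [← Finset.add_sum_erase _ _ (Finset.mem_univ i)]
    calc X i ω * (X i ω + ∑ j ∈ Finset.univ.erase i, X j ω) ^ p
        ≤ X i ω * (c * (X i ω ^ p + (∑ j ∈ Finset.univ.erase i, X j ω) ^ p)) := by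
          gcongr; exact add_rpow_le _ _ hp
      _ = _ := by rw [rpow_succ _ hp]; ring
  have hind : ∀ i, ∫⁻ ω, X i ω * (∑ j ∈ Finset.univ.erase i, X j ω) ^ p ∂P ≤
      (∫⁻ ω, X i ω ∂P) * ∫⁻ ω, (∑ j, X j ω) ^ p ∂P := by
    intro i
    have h1 : IndepFun (∑ j ∈ Finset.univ.erase i, X j) (X i) P :=
      hi.indepFun_finsetSum_of_notMem hX (Finset.notMem_erase i _)
    have h2 : IndepFun (X i) (fun ω => (∑ j ∈ Finset.univ.erase i, X j ω) ^ p) P := by
      have h3 := h1.symm.comp measurable_id (measurable_id.pow_const p)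
      have e : (fun ω => (∑ j ∈ Finset.univ.erase i, X j ω) ^ p) =
          (fun x => id x ^ p) ∘ ∑ j ∈ Finset.univ.erase i, X j := by
        ext ω
        simp
      rw [e]
      exact h3
    rw [lintegral_mul_eq_lintegral_mul_lintegral_of_indepFun'' (hX i).aemeasurable
      (hR i).aemeasurable h2]
    gcongr
    exact Finset.erase_subset _ _
  have h1 : I ≤ c * (A + M * ∫⁻ ω, (∑ j, X j ω) ^ p ∂P) := by
    have hm : ∀ i, Measurable fun ω =>
        X i ω ^ (p + 1) + X i ω * (∑ j ∈ Finset.univ.erase i, X j ω) ^ p := fun i =>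
      (hXq i).add ((hX i).mul (hR i))
    calc I ≤ ∫⁻ ω, c * ∑ i, (X i ω ^ (p + 1) +
            X i ω * (∑ j ∈ Finset.univ.erase i, X j ω) ^ p) ∂P := lintegral_mono hpt
      _ = c * ∑ i, ((∫⁻ ω, X i ω ^ (p + 1) ∂P) +
            ∫⁻ ω, X i ω * (∑ j ∈ Finset.univ.erase i, X j ω) ^ p ∂P) := by
          rw [lintegral_const_mul _ (Finset.measurable_sum _ fun j _ => hm j),
            lintegral_finsetSum _ fun j _ => hm j]
          congr 1
          exact Finset.sum_congr rfl fun i _ => lintegral_add_left (hXq i) _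
      _ ≤ _ := by
          rw [Finset.sum_add_distrib, hM, Finset.sum_mul]
          gcongr with i
          exact hind i
  have h2 : M * ∫⁻ ω, (∑ j, X j ω) ^ p ∂P ≤ (2 * c)⁻¹ * I + (2 * c) ^ p * M ^ (p + 1) := by
    rw [← lintegral_const_mul _ (hS.pow_const p)]
    calc ∫⁻ ω, M * (∑ j, X j ω) ^ p ∂P
        ≤ ∫⁻ ω, ((2 * c)⁻¹ * (∑ j, X j ω) ^ (p + 1) + (2 * c) ^ p * M ^ (p + 1)) ∂P :=
          lintegral_mono fun ω => young _ _ _ hd0 hdt hp
      _ = _ := by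
          rw [lintegral_add_right _ measurable_const, lintegral_const_mul _ (hS.pow_const _),
            lintegral_const, measure_univ, mul_one]
  have h3 : c * (2 * c)⁻¹ = 2⁻¹ := by
    rw [ENNReal.mul_inv (Or.inl (by simp)) (Or.inl (by simp)), mul_left_comm,
      ENNReal.mul_inv_cancel hc0 hct, mul_one]
  have h4 : I ≤ (c * A + c * ((2 * c) ^ p * M ^ (p + 1))) + 2⁻¹ * I := by
    calc I ≤ c * (A + ((2 * c)⁻¹ * I + (2 * c) ^ p * M ^ (p + 1))) := h1.trans (by gcongr)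
      _ = _ := by rw [← h3]; ring
  have h5 : 2⁻¹ * I + 2⁻¹ * I = I := by
    rw [← add_mul, ENNReal.inv_two_add_inv_two, one_mul]
  have h6 : 2⁻¹ * I ≤ c * A + c * ((2 * c) ^ p * M ^ (p + 1)) := by
    have ht : 2⁻¹ * I ≠ ∞ := ENNReal.mul_ne_top (by simp) hIt
    apply ENNReal.le_of_add_le_add_right ht
    rw [h5]; exact h4
  calc I = 2 * (2⁻¹ * I) := by
        rw [← mul_assoc, ENNReal.mul_inv_cancel (by simp) (by simp), one_mul]
    _ ≤ 2 * (c * A + c * ((2 * c) ^ p * M ^ (p + 1))) := by gcongr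
    _ = 2 * c * A + 2 * c * (2 * c) ^ p * M ^ (p + 1) := by ring
    _ ≤ cst p * A + cst p * M ^ (p + 1) := by
        gcongr
        · exact le_self_add
        · exact le_add_self
    _ = _ := by ring

lemma r2real {q t : ℝ} (hq1 : 1 ≤ q) (hq2 : q ≤ 2) (ht : 0 < t) (x : J → Ω → ℝ)
    (hx : ∀ j, Measurable (x j)) (h0 : ∀ j ω, 0 ≤ x j ω) (hi : iIndepFun x P)
    (hint : ∀ j, Integrable (fun ω => x j ω ^ q) P)
    (hA : ∑ j, ∫ ω, x j ω ^ q ∂P ≤ t ^ q) :
    (∀ j, Integrable (x j) P) ∧ ∫ ω, |∑ j, (x j ω - ∫ ω', x j ω' ∂P)| ∂P ≤ 3 * t := by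
  set φ : ℝ → ℝ := fun s => if s ≤ t then s else 0 with hφ
  set ψ : ℝ → ℝ := fun s => if s ≤ t then 0 else s with hψ
  have hφm : Measurable φ := Measurable.ite measurableSet_Iic measurable_id measurable_const
  have hψm : Measurable ψ := Measurable.ite measurableSet_Iic measurable_const measurable_id
  have hsum : ∀ s, s = φ s + ψ s := by
    intro s; simp only [hφ, hψ]; split_ifs <;> simp
  have hφb : ∀ s, 0 ≤ s → ‖φ s‖ ≤ t := by
    intro s hs; simp only [hφ]; split_ifs with h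
    · rwa [Real.norm_of_nonneg hs]
    · simpa using ht.le
  have hφ2 : ∀ s, 0 ≤ s → φ s ^ 2 ≤ t ^ (2 - q) * s ^ q := by
    intro s hs; simp only [hφ]; split_ifs with h
    · calc s ^ 2 = s ^ ((2 - q) + q) := by
            rw [sub_add_cancel]; norm_cast
        _ = s ^ (2 - q) * s ^ q := Real.rpow_add_of_nonneg hs (by linarith) (by linarith)
        _ ≤ _ := by gcongr
    · have : 0 ≤ t ^ (2 - q) * s ^ q := by positivity
      simpa using this
  have hψ0 : ∀ s, 0 ≤ s → 0 ≤ ψ s := by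
    intro s hs; simp only [hψ]; split_ifs with h
    · exact le_rfl
    · exact hs
  have hψ1 : ∀ s, 0 ≤ s → ψ s ≤ t ^ (1 - q) * s ^ q := by
    intro s hs; simp only [hψ]; split_ifs with h
    · positivity
    · have hts : t ≤ s := (not_le.1 h).le
      have hs0 : 0 < s := ht.trans_le hts
      calc s = s ^ ((1 - q) + q) := by rw [sub_add_cancel, Real.rpow_one]
        _ = s ^ (1 - q) * s ^ q := Real.rpow_add hs0 _ _
        _ ≤ _ := by
          have := Real.rpow_le_rpow_of_nonpos ht hts (by linarith : 1 - q ≤ 0)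
          gcongr
  have hy2 : ∀ j, MemLp (fun ω => φ (x j ω)) 2 P := fun j =>
    MemLp.of_bound (hφm.comp (hx j)).aestronglyMeasurable t
      (Eventually.of_forall fun ω => hφb _ (h0 j ω))
  have hy1 : ∀ j, Integrable (fun ω => φ (x j ω)) P := fun j => (hy2 j).integrable one_le_two
  have hw1 : ∀ j, Integrable (fun ω => ψ (x j ω)) P := fun j =>
    ((hint j).const_mul (t ^ (1 - q))).mono' (hψm.comp (hx j)).aestronglyMeasurable
      (Eventually.of_forall fun ω => by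
        rw [Real.norm_of_nonneg (hψ0 _ (h0 j ω))]; exact hψ1 _ (h0 j ω))
  have hx1 : ∀ j, Integrable (x j) P := fun j => by
    exact ((hy1 j).add (hw1 j)).congr (Eventually.of_forall fun ω => (hsum _).symm)
  refine ⟨hx1, ?_⟩
  have hEx : ∀ j, ∫ ω', x j ω' ∂P = ∫ ω', φ (x j ω') ∂P + ∫ ω', ψ (x j ω') ∂P := fun j => by
    rw [← integral_add (hy1 j) (hw1 j)]
    exact integral_congr_ae (Eventually.of_forall fun ω => hsum _)
  set Y : Ω → ℝ := ∑ j, fun ω => φ (x j ω) with hY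
  have hY2 : MemLp Y 2 P := memLp_finsetSum' _ fun j _ => hy2 j
  have hEY : ∫ ω, Y ω ∂P = ∑ j, ∫ ω', φ (x j ω') ∂P := by
    rw [← integral_finsetSum _ fun j _ => hy1 j]
    simp [hY]
  have hvar : Var[Y; P] ≤ t ^ 2 := by
    have hi2 : iIndepFun (fun j ω => φ (x j ω)) P := hi.comp (fun _ => φ) fun _ => hφm
    rw [hY, IndepFun.variance_sum (fun j _ => hy2 j) fun i _ j _ hij => hi2.indepFun hij]
    calc ∑ j, Var[fun ω => φ (x j ω); P] ≤ ∑ j, t ^ (2 - q) * ∫ ω, x j ω ^ q ∂P := by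
          refine Finset.sum_le_sum fun j _ => ?_
          refine (variance_le_expectation_sq (hy2 j).aestronglyMeasurable).trans ?_
          rw [← integral_const_mul]
          refine integral_mono (hy2 j).integrable_sq ((hint j).const_mul _) fun ω => ?_
          exact hφ2 _ (h0 j ω)
      _ ≤ t ^ (2 - q) * t ^ q := by rw [← Finset.mul_sum]; gcongr
      _ = t ^ 2 := by rw [← Real.rpow_add ht, sub_add_cancel]; norm_cast
  have hEw : ∑ j, ∫ ω, ψ (x j ω) ∂P ≤ t := by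
    calc ∑ j, ∫ ω, ψ (x j ω) ∂P ≤ ∑ j, t ^ (1 - q) * ∫ ω, x j ω ^ q ∂P := by
          refine Finset.sum_le_sum fun j _ => ?_
          rw [← integral_const_mul]
          exact integral_mono (hw1 j) ((hint j).const_mul _) fun ω => hψ1 _ (h0 j ω)
      _ ≤ t ^ (1 - q) * t ^ q := by rw [← Finset.mul_sum]; gcongr
      _ = t := by rw [← Real.rpow_add ht, sub_add_cancel, Real.rpow_one]
  have hpt : ∀ ω, |∑ j, (x j ω - ∫ ω', x j ω' ∂P)| ≤
      ((2 * t)⁻¹ * (Y ω - ∫ ω', Y ω' ∂P) ^ 2 + ∑ j, ψ (x j ω)) + (t / 2 + t) := by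
    intro ω
    have e1 : ∑ j, (x j ω - ∫ ω', x j ω' ∂P) =
        (Y ω - ∫ ω', Y ω' ∂P) + ∑ j, ψ (x j ω) - ∑ j, ∫ ω', ψ (x j ω') ∂P := by
      rw [hEY, hY, Finset.sum_apply, ← Finset.sum_sub_distrib, ← Finset.sum_add_distrib,
        ← Finset.sum_sub_distrib]
      refine Finset.sum_congr rfl fun j _ => ?_
      rw [hEx j]
      have := hsum (x j ω)
      linarith
    have e2 : 0 ≤ ∑ j, ψ (x j ω) := Finset.sum_nonneg fun j _ => hψ0 _ (h0 j ω)
    have e3 : 0 ≤ ∑ j, ∫ ω', ψ (x j ω') ∂P :=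
      Finset.sum_nonneg fun j _ => integral_nonneg fun ω' => hψ0 _ (h0 j ω')
    rw [e1]
    set u := Y ω - ∫ ω', Y ω' ∂P
    have e4 : |u| ≤ (2 * t)⁻¹ * u ^ 2 + t / 2 := by
      have : (2 * t)⁻¹ * u ^ 2 + t / 2 - |u| = (2 * t)⁻¹ * (|u| - t) ^ 2 := by
        rw [← sq_abs u]; field_simp; ring
      have h2 : 0 ≤ (2 * t)⁻¹ * (|u| - t) ^ 2 := by positivity
      linarith
    have e5 := le_abs_self u
    have e6 := neg_abs_le u
    rw [abs_le]; constructor <;> linarith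
  have hv1 : Integrable (fun ω => (Y ω - ∫ ω', Y ω' ∂P) ^ 2) P :=
    (hY2.sub (memLp_const _)).integrable_sq
  have hs1 : Integrable (fun ω => ∑ j, ψ (x j ω)) P := integrable_finsetSum _ fun j _ => hw1 j
  have hs2 : Integrable (fun ω => (2 * t)⁻¹ * (Y ω - ∫ ω', Y ω' ∂P) ^ 2 + ∑ j, ψ (x j ω)) P :=
    (hv1.const_mul _).add hs1
  calc ∫ ω, |∑ j, (x j ω - ∫ ω', x j ω' ∂P)| ∂P
      ≤ ∫ ω, (((2 * t)⁻¹ * (Y ω - ∫ ω', Y ω' ∂P) ^ 2 + ∑ j, ψ (x j ω)) + (t / 2 + t)) ∂P :=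
        integral_mono_of_nonneg (Eventually.of_forall fun ω => abs_nonneg _)
          (((hv1.const_mul _).add hs1).add (integrable_const _)) (Eventually.of_forall hpt)
    _ = (2 * t)⁻¹ * Var[Y; P] + ∑ j, ∫ ω, ψ (x j ω) ∂P + (t / 2 + t) := by
        rw [integral_add hs2 (integrable_const _),
          integral_add (hv1.const_mul _) hs1, integral_const_mul,
          integral_finsetSum _ fun j _ => hw1 j,
          variance_eq_integral hY2.aestronglyMeasurable.aemeasurable]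
        simp
    _ ≤ (2 * t)⁻¹ * t ^ 2 + t + (t / 2 + t) := by gcongr
    _ = 3 * t := by field_simp; ring

lemma r2 {q : ℝ} (hq1 : 1 ≤ q) (hq2 : q ≤ 2) (X : J → Ω → ℝ≥0∞) (hX : ∀ j, Measurable (X j))
    (hi : iIndepFun X P) :
    ∫⁻ ω, ENNReal.ofReal |∑ j, ((X j ω).toReal - (∫⁻ ω', X j ω' ∂P).toReal)| ∂P ≤
      3 * (∑ j, ∫⁻ ω, X j ω ^ q ∂P) ^ (1 / q) := by
  have hq0 : 0 < q := by linarith
  set A := ∑ j, ∫⁻ ω, X j ω ^ q ∂P with hA
  by_cases hAt : A = ∞
  · rw [hAt, ENNReal.top_rpow_of_pos (by positivity), ENNReal.mul_top (by simp)]; exact le_top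
  have hXq : ∀ j, Measurable fun ω => X j ω ^ q := fun j => (hX j).pow_const _
  have hfin : ∀ j, ∫⁻ ω, X j ω ^ q ∂P ≠ ∞ := fun j =>
    ne_top_of_le_ne_top hAt (Finset.single_le_sum (f := fun j => ∫⁻ ω, X j ω ^ q ∂P)
      (fun _ _ => zero_le) (Finset.mem_univ j))
  have hae : ∀ j, ∀ᵐ ω ∂P, X j ω ^ q < ∞ := fun j => ae_lt_top (hXq j) (hfin j)
  have hae' : ∀ j, ∀ᵐ ω ∂P, X j ω < ∞ := fun j => (hae j).mono fun ω h =>
    (ENNReal.rpow_lt_top_iff_of_pos hq0).1 h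
  have hint : ∀ j, Integrable (fun ω => (X j ω).toReal ^ q) P := fun j => by
    have := integrable_toReal_of_lintegral_ne_top (hXq j).aemeasurable (hfin j)
    simpa only [ENNReal.toReal_rpow] using this
  have hEq : ∀ j, ∫ ω, (X j ω).toReal ^ q ∂P = (∫⁻ ω, X j ω ^ q ∂P).toReal := fun j => by
    rw [← integral_toReal (hXq j).aemeasurable (hae j)]
    simp only [ENNReal.toReal_rpow]
  have hE1 : ∀ j, (∫⁻ ω', X j ω' ∂P).toReal = ∫ ω', (X j ω').toReal ∂P := fun j =>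
    (integral_toReal (hX j).aemeasurable (hae' j)).symm
  have hi2 : iIndepFun (fun j ω => (X j ω).toReal) P :=
    hi.comp (fun _ => ENNReal.toReal) fun _ => ENNReal.measurable_toReal
  have hsumA : ∑ j, ∫ ω, (X j ω).toReal ^ q ∂P = A.toReal := by
    rw [hA, ENNReal.toReal_sum fun j _ => hfin j]
    exact Finset.sum_congr rfl fun j _ => hEq j
  set t0 : ℝ := A.toReal ^ (1 / q) with ht0
  have ht00 : 0 ≤ t0 := by positivity
  have ht0q : t0 ^ q = A.toReal := by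
    rw [ht0, ← Real.rpow_mul ENNReal.toReal_nonneg, one_div_mul_cancel hq0.ne', Real.rpow_one]
  have key : ∀ t, t0 < t → (∀ j, Integrable (fun ω => (X j ω).toReal) P) ∧
      ∫ ω, |∑ j, ((X j ω).toReal - ∫ ω', (X j ω').toReal ∂P)| ∂P ≤ 3 * t := fun t ht =>
    r2real hq1 hq2 (ht00.trans_lt ht) (fun j ω => (X j ω).toReal)
      (fun j => (hX j).ennreal_toReal) (fun _ _ => ENNReal.toReal_nonneg) hi2 hint (by
        rw [hsumA, ← ht0q]
        exact Real.rpow_le_rpow ht00 ht.le hq0.le)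
  have hx1 := (key (t0 + 1) (by linarith)).1
  have hb : ∫ ω, |∑ j, ((X j ω).toReal - ∫ ω', (X j ω').toReal ∂P)| ∂P ≤ 3 * t0 := by
    refine le_of_forall_pos_le_add fun ε hε => ?_
    have := (key (t0 + ε / 3) (by linarith)).2
    linarith
  simp only [hE1]
  have hI : Integrable (fun ω => |∑ j, ((X j ω).toReal - ∫ ω', (X j ω').toReal ∂P)|) P :=
    (integrable_finsetSum _ fun j _ => (hx1 j).sub (integrable_const _)).abs
  rw [← ofReal_integral_eq_lintegral_ofReal hI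
    (Eventually.of_forall fun ω => abs_nonneg _)]
  calc _ ≤ ENNReal.ofReal (3 * t0) := ENNReal.ofReal_le_ofReal hb
    _ = 3 * A ^ (1 / q) := by
      rw [ENNReal.ofReal_mul (by norm_num), ht0, ← ENNReal.ofReal_rpow_of_nonneg
        ENNReal.toReal_nonneg (by positivity), ENNReal.ofReal_toReal hAt]
      simp

lemma jensen {α : Type} [MeasurableSpace α] (ν : Measure α) [IsProbabilityMeasure ν] {q : ℝ}
    (hq : 1 < q) (A : α → ℝ≥0∞) (hA : Measurable A) :
    ∫⁻ a, A a ^ (1 / q) ∂ν ≤ (∫⁻ a, A a ∂ν) ^ (1 / q) := by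
  have hq0 : 0 < q := by linarith
  have h := ENNReal.lintegral_mul_le_Lp_mul_Lq ν (Real.HolderConjugate.conjExponent hq)
    (f := fun a => A a ^ (1 / q)) (g := fun _ => 1) (hA.pow_const _).aemeasurable
    aemeasurable_const
  have e : ∀ a, (A a ^ (1 / q)) ^ q = A a := fun a => by
    rw [← ENNReal.rpow_mul, one_div_mul_cancel hq0.ne', ENNReal.rpow_one]
  simpa only [Pi.mul_apply, mul_one, e, ENNReal.one_rpow, lintegral_const, measure_univ] using h

end ROS

theorem blk_ROS : St_ROS := by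
  intro q hq
  obtain ⟨p, rfl⟩ : ∃ p, q = p + 1 := ⟨q - 1, by ring⟩
  have hp : 0 ≤ p := by linarith
  refine ⟨(ROS.cst p).toReal, ?_⟩
  intro Ω α β J _ _ _ _ P _ Z0 Z f hZ0 hZ hf hi0 hi
  rw [ENNReal.ofReal_toReal (ROS.cst_ne_top hp)]
  set ν := P.map Z0 with hν
  set μ : J → Measure β := fun j => P.map (Z j) with hμ
  have : IsProbabilityMeasure ν := Measure.isProbabilityMeasure_map hZ0.aemeasurable
  have : ∀ j, IsProbabilityMeasure (μ j) := fun j =>
    Measure.isProbabilityMeasure_map (hZ j).aemeasurable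
  have hZm : Measurable fun ω j => Z j ω := measurable_pi_lambda _ hZ
  have hlaw : P.map (fun ω => (Z0 ω, fun j => Z j ω)) = ν.prod (Measure.pi μ) := by
    rw [hi0.map_prod_eq_prod_map_map hZ0.aemeasurable hZm.aemeasurable,
      (iIndepFun_iff_map_fun_eq_pi_map fun j => (hZ j).aemeasurable).1 hi]
  have tr : ∀ F : α × (J → β) → ℝ≥0∞, Measurable F →
      ∫⁻ ω, F (Z0 ω, fun j => Z j ω) ∂P = ∫⁻ a, ∫⁻ b, F (a, b) ∂Measure.pi μ ∂ν := by
    intro F hF
    rw [← lintegral_prod _ hF.aemeasurable, ← hlaw, lintegral_map hF (hZ0.prodMk hZm)]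
  have hg : ∀ j, Measurable fun z : α × (J → β) => f j (z.1, z.2 j) := fun j =>
    (hf j).comp (measurable_fst.prodMk ((measurable_pi_apply j).comp measurable_snd))
  have hfa : ∀ j a, Measurable fun y : β => f j (a, y) := fun j a =>
    (hf j).comp (measurable_const.prodMk measurable_id)
  have hXa : ∀ a j, Measurable fun b : J → β => f j (a, b j) := fun a j =>
    (hfa j a).comp (measurable_pi_apply j)
  have hia : ∀ a, iIndepFun (fun j (b : J → β) => f j (a, b j)) (Measure.pi μ) := fun a =>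
    iIndepFun_pi (X := fun j y => f j (a, y)) fun j => (hfa j a).aemeasurable
  have hm : ∀ a j, ∫⁻ b, f j (a, b j) ∂Measure.pi μ = ∫⁻ y, f j (a, y) ∂μ j := fun a j =>
    (measurePreserving_eval μ j).lintegral_comp (hfa j a)
  have hmm : ∀ j, Measurable fun a => ∫⁻ y, f j (a, y) ∂μ j := fun j =>
    (hf j).lintegral_prod_right'
  have hAj : ∀ j, Measurable fun a => ∫⁻ b, f j (a, b j) ^ (p + 1) ∂Measure.pi μ := fun j =>
    ((hg j).pow_const (p + 1)).lintegral_prod_right'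
  have hA : ∑ j, ∫⁻ ω, f j (Z0 ω, Z j ω) ^ (p + 1) ∂P =
      ∫⁻ a, ∑ j, ∫⁻ b, f j (a, b j) ^ (p + 1) ∂Measure.pi μ ∂ν := by
    rw [lintegral_finsetSum _ fun j _ => hAj j]
    exact Finset.sum_congr rfl fun j _ => tr _ ((hg j).pow_const (p + 1))
  constructor
  · have hMm : Measurable fun a => (∑ j, ∫⁻ y, f j (a, y) ∂μ j) ^ (p + 1) :=
      (Finset.measurable_sum _ fun j _ => hmm j).pow_const _
    have e1 := tr _ ((Finset.measurable_sum Finset.univ fun j _ => hg j).pow_const (p + 1))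
    have e2 : ∫⁻ ω, (∑ j, ∫⁻ b, f j (Z0 ω, b) ∂P.map (Z j)) ^ (p + 1) ∂P =
        ∫⁻ a, (∑ j, ∫⁻ y, f j (a, y) ∂μ j) ^ (p + 1) ∂ν := (lintegral_map hMm hZ0).symm
    have hB : Measurable fun a => (∑ j, ∫⁻ y, f j (a, y) ∂μ j) ^ (p + 1) +
        ∑ j, ∫⁻ b, f j (a, b j) ^ (p + 1) ∂Measure.pi μ :=
      hMm.add (Finset.measurable_sum _ fun j _ => hAj j)
    rw [e1, e2, hA, ← lintegral_add_left hMm, ← lintegral_const_mul _ hB]
    refine lintegral_mono fun a => ?_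
    have := ROS.r1 hp _ (hXa a) (hia a)
    simpa only [hm] using this
  · intro hq1 hq2
    have hF : Measurable fun z : α × (J → β) => ENNReal.ofReal
        |∑ j, ((f j (z.1, z.2 j)).toReal - (∫⁻ y, f j (z.1, y) ∂μ j).toReal)| :=
      (Finset.measurable_sum Finset.univ fun j _ => (hg j).ennreal_toReal.sub
        ((hmm j).comp measurable_fst).ennreal_toReal).abs.ennreal_ofReal
    have e1 := tr _ hF
    have hAm : Measurable fun a => ∑ j, ∫⁻ b, f j (a, b j) ^ (p + 1) ∂Measure.pi μ :=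
      Finset.measurable_sum _ fun j _ => hAj j
    rw [e1, hA]
    refine le_trans ?_ (mul_le_mul_right (ROS.jensen ν hq1 _ hAm) 3)
    rw [← lintegral_const_mul _ (hAm.pow_const _)]
    refine lintegral_mono fun a => ?_
    have := ROS.r2 hq hq2 _ (hXa a) (hia a)
    simpa only [hm] using this

end

end Pool.Agent.Lib.APPS
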