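import Pool.Agent.Lib.APPS.B_RUAa

/-!
Block RUA: rooted moments of annulus counts.
-/

namespace Pool.Agent.Lib.APPS

open MeasureTheory ProbabilityTheory Filter Topology Set Metric
open scoped NNReal ENNReal RealInnerProductSpace

noncomputable section

theorem rua_int_bd (μ : Measure ℂ) [IsProbabilityMeasure μ] (f : ℂ → ℝ) (hf : Measurable f)
    (lo hi : ℝ) (h : ∀ᵐ y ∂μ, lo ≤ f y ∧ f y ≤ hi) : lo ≤ ∫ y, f y ∂μ ∧ ∫ y, f y ∂μ ≤ hi := by
  have hi' : Integrable f μ := Integrable.of_bound hf.aestronglyMeasurable (max |lo| |hi|)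
    (h.mono fun y hy => by
      rw [Real.norm_eq_abs]
      exact abs_le_max_abs_abs hy.1 hy.2)
  constructor
  · simpa using integral_mono_ae (integrable_const lo) hi' (h.mono fun y hy => hy.1)
  · simpa using integral_mono_ae hi' (integrable_const hi) (h.mono fun y hy => hy.2)

theorem rua_ip (hMOD : St_MOD) (hFE : St_FE) (M : Model) (c : ℂ) (r : ℝ) (W : Dy) (hr : 0 < r)
    (hO : closedBall c r ⊆ M.O) (hW : box W ⊆ M.O) :
    ⟪M.eC c r, M.eS W⟫ = M.C0 - ∫ y, Real.log (max ‖y - c‖ r) ∂unif W := by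
  obtain ⟨hu, hu0⟩ := hFE.2.2.2.2.2.2.2.1 W
  obtain ⟨hc, hc0, -⟩ := hFE.2.2.2.2.2.2.2.2.1 c r hr
  have h4 := (hMOD M).2.2.2.1 (circ c r) (unif W) hc hu
    (measure_mono_null (compl_subset_compl.2 (sphere_subset_closedBall.trans hO)) hc0)
    (measure_mono_null (compl_subset_compl.2 hW) hu0)
  have h8 := (hMOD M).2.2.2.2.2.2.2.1 c r (unif W) hr hu
  rw [Model.eC, Model.eS, h4, h8]
  ring

theorem rua_ip_bd (hMOD : St_MOD) (hFE : St_FE) (M : Model) (c : ℂ) (r r1 r2 : ℝ) (W : Dy)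
    (hr : 0 < r) (hO : closedBall c r ⊆ M.O) (hW : box W ⊆ M.O) (hr1 : 0 < r1) (h1 : r1 ≤ r)
    (h2 : r ≤ r2) (h : ∀ y ∈ box W, ‖y - c‖ ≤ r2) :
    M.C0 - Real.log r2 ≤ ⟪M.eC c r, M.eS W⟫ ∧ ⟪M.eC c r, M.eS W⟫ ≤ M.C0 - Real.log r1 := by
  obtain ⟨hu, hu0⟩ := hFE.2.2.2.2.2.2.2.1 W
  have := hu.2
  have hae : ∀ᵐ y ∂unif W, y ∈ box W := mem_ae_iff.2 hu0
  have := rua_int_bd (unif W) (fun y => Real.log (max ‖y - c‖ r)) (by fun_prop) (Real.log r1)
    (Real.log r2) (hae.mono fun y hy =>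
      ⟨Real.log_le_log hr1 (h1.trans (le_max_right _ _)),
        Real.log_le_log (hr.trans_le (le_max_right _ _)) (max_le (h y hy) h2)⟩)
  rw [rua_ip hMOD hFE M c r W hr hO hW]
  constructor <;> linarith [this.1, this.2]

theorem rua_ip_eq (hMOD : St_MOD) (hFE : St_FE) (M : Model) (c : ℂ) (r r' : ℝ) (W : Dy)
    (hr : 0 < r) (hrr : r ≤ r') (hO : closedBall c r' ⊆ M.O) (hW : box W ⊆ M.O)
    (h : ∀ y ∈ box W, r' ≤ ‖y - c‖) : ⟪M.eC c r, M.eS W⟫ = ⟪M.eC c r', M.eS W⟫ := by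
  obtain ⟨hu, hu0⟩ := hFE.2.2.2.2.2.2.2.1 W
  have hae : ∀ᵐ y ∂unif W, y ∈ box W := mem_ae_iff.2 hu0
  rw [rua_ip hMOD hFE M c r W hr ((closedBall_subset_closedBall hrr).trans hO) hW,
    rua_ip hMOD hFE M c r' W (hr.trans_le hrr) hO hW]
  congr 1
  refine integral_congr_ae (hae.mono fun y hy => ?_)
  simp only
  rw [max_eq_left (hrr.trans (h y hy)), max_eq_left (h y hy)]

theorem rua_log (i : ℕ) : Real.log ((1 / 2 : ℝ) ^ i) = -(i * l2) := by
  rw [Real.log_pow, one_div, Real.log_inv, l2]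
  ring

theorem rua_half {i j : ℕ} (h : i ≤ j) : (1 / 2 : ℝ) ^ j ≤ (1 / 2 : ℝ) ^ i :=
  pow_le_pow_of_le_one (by norm_num) (by norm_num) h

theorem rua_ann (hG : St_GEO1) (hT1 : St_T1) {R V : Dy} {l : ℕ} (hV : V ∈ ann R l) :
    V.length = l ∧ ∀ S, ∀ y ∈ box (S ++ V),
      4 * (1 / 2 : ℝ) ^ l ≤ ‖y - ctr R‖ ∧ ‖y - ctr R‖ ≤ 32 * (1 / 2 : ℝ) ^ l := by
  classical
  unfold ann at hV
  rw [Finset.mem_filter] at hV
  exact ⟨(hT1.1 l V).1 hV.1, fun S y hy =>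
    hV.2 y ((hG.2.2.2.2.1 _ _).2 (List.suffix_append S V) hy)⟩

theorem rua_setup (hG : St_GEO1) (M : Model) (i0 : ℕ) (hOk : M.Ok i0) (R : Dy) :
    ctr R ∈ box [] ∧ (∀ W, box W ⊆ M.O) ∧
      ∀ i, i0 ≤ i → closedBall (ctr R) ((1 / 2 : ℝ) ^ i) ⊆ M.O := by
  have hs : ∀ W, box W ⊆ box [] := fun W => (hG.2.2.2.2.1 W []).2 List.nil_suffix
  have hc : ctr R ∈ box [] := hs R (hG.2.2.2.1 R).2.2.1
  refine ⟨hc, fun W z hz => hOk.1 z (hs W hz) (mem_closedBall_self (by positivity)),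
    fun i hi => (closedBall_subset_closedBall (rua_half hi)).trans (hOk.1 _ hc)⟩

theorem rua_rad (M : Model) (γ u : ℝ) (i0 : ℕ) (R : Dy) (ω : Om) (j : ℕ) :
    M.rad γ u R (i0 + j) ω = wk (QQ γ) (fun j => M.eC (ctr R) ((1 / 2 : ℝ) ^ (i0 + j)))
      (u - QQ γ * i0 * l2) ω j := by
  simp only [Model.rad, Model.Y, wk, rua_log]
  push_cast
  ring

theorem rua_exp (γ Q u C0 C1 : ℝ) (i0 k : ℕ) (hγQ : γ * Q = 2 + γ ^ 2 / 2) (hC : C0 ≤ C1) :
    γ * (u - Q * i0 * l2 - Q * k * l2) + γ ^ 2 * (C0 + i0 * l2 + k * l2) / 2 ≤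
      γ * u + γ ^ 2 * C1 / 2 + -2 * ((i0 + k : ℕ) : ℝ) * l2 := by
  have e : γ * (u - Q * i0 * l2 - Q * k * l2) = γ * u - (2 + γ ^ 2 / 2) * (i0 + k) * l2 := by
    rw [← hγQ]; ring
  have e' : γ ^ 2 * C0 ≤ γ ^ 2 * C1 := mul_le_mul_of_nonneg_left hC (sq_nonneg _)
  rw [e]
  push_cast
  nlinarith

theorem rua_part1 (hG2 : St_G2) (hG3 : St_G3) (hMOD : St_MOD) (hFE : St_FE) (hGEO1 : St_GEO1)
    (hGEO2 : St_GEO2) (hT1 : St_T1) (hT3 : St_T3) (hRW1 : St_RW1) (hRW2 : St_RW2) (hMB : St_MB)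
    (hTL : St_TL) (γ : ℝ) (hγ : γ ∈ Ioo (0 : ℝ) 2) (κ p C1 : ℝ) (hκ : 0 < κ) (hp : 0 < p)
    (hp' : p < 4 / γ ^ 2) :
    ∃ K : ℝ, ∀ (M : Model) (i0 : ℕ) (u y : ℝ), M.Ok i0 → M.C0 ≤ C1 →
    ∑' R : Dy, ind (i0 + 4 ≤ R.length) * ∑ l ∈ Finset.Icc (i0 + 5) R.length,
      ∫⁻ ω, eE (γ * M.YV γ u R ω - κ * |M.YV γ u R ω|) *
        ind (M.rad γ u R (l - 5) ω ∈ Ico y (y + 1)) * annN (M.X γ u ω) R l ^ p ∂gm ≤
      ENNReal.ofReal (K * Real.exp (γ * u + γ * p * y - 2 * aa γ * (y - u))) := by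
  obtain ⟨B0, hB0⟩ := hTL.2.2.2.1
  obtain ⟨ha0, hQ2, -, -, hγQ, -⟩ := hRW1.2.2 γ hγ
  have hγ0 : 0 < γ := hγ.1
  have hl2 : 0 < l2 := Real.log_pos (by norm_num)
  obtain ⟨K2, hK2, hmom⟩ := rua_mom hG2 hT1 hT3 hMB γ hγ κ p (3 * l2) (5 * l2) (65 ^ 2) hκ hp hp'
  obtain ⟨Cw, hCw⟩ := (hRW2 (aa γ) ha0 κ hκ).1 1 le_rfl
  set K3 := Real.exp (γ ^ 2 * C1 / 2 + κ * (3 * aa γ * l2)) * K2 *
    Real.exp (γ * p * (1 + 3 * γ * l2 - 5 * QQ γ * l2)) with hK3
  have hK3p : 0 ≤ K3 := by positivity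
  refine ⟨16 * K3 * (max Cw 0 * Real.exp (2 * aa γ * (QQ γ * C1))), fun M i0 u y hOk hC => ?_⟩
  set s := M.C0 + i0 * l2 with hs
  set u0 := u - QQ γ * i0 * l2 with hu0
  set b : ℕ → HH := fun j => M.eC (ctr []) ((1 / 2 : ℝ) ^ (i0 + j)) with hbd
  have hb : IsWk b s := hTL.2.1 M i0 hOk _ (rua_setup hGEO1 M i0 hOk []).1
  set T : ℕ → ℕ → ℝ≥0∞ := fun k j => ∫⁻ ω, eE (-κ * |wk (aa γ) b (u0 + γ * s) ω k|) *
    ind (wk (aa γ) b (u0 + γ * s) ω j ∈ Ico y (y + 1)) ∂gm with hT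
  set A := K3 * Real.exp (γ * u + γ * p * y) with hA
  have hone : ∀ (R : Dy) (k j : ℕ), R.length = i0 + (k + 3) + 2 → j ≤ k →
      ∫⁻ ω, eE (γ * M.YV γ u R ω - κ * |M.YV γ u R ω|) *
        ind (M.rad γ u R (i0 + 5 + j - 5) ω ∈ Ico y (y + 1)) *
          annN (M.X γ u ω) R (i0 + 5 + j) ^ p ∂gm ≤
      ENNReal.ofReal (A * Real.exp (-2 * ((i0 + (k + 3) : ℕ) : ℝ) * l2)) * T k j := by
    intro R k j hk hj
    obtain ⟨-, hY, -⟩ := hB0 γ M i0 R hOk (by omega)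
    obtain ⟨hc, hbox, hball⟩ := rua_setup hGEO1 M i0 hOk R
    have hβ := hTL.2.1 M i0 hOk (ctr R) hc
    set β : ℕ → HH := fun j => M.eC (ctr R) ((1 / 2 : ℝ) ^ (i0 + j)) with hβd
    have hβ' : ∀ i i', ⟪β i, β i'⟫ = s + (min i i' : ℕ) * l2 := hβ
    set e : ann R (i0 + 5 + j) → Dy → HH := fun V S => M.eS (S ++ V.1) with hed
    have r1 : (1 / 2 : ℝ) ^ (i0 + (j + 3)) = 4 * (1 / 2 : ℝ) ^ (i0 + 5 + j) := by ring
    have r2 : (1 / 2 : ℝ) ^ (i0 + j) = 32 * (1 / 2 : ℝ) ^ (i0 + 5 + j) := by ring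
    have he1 : ∀ V S, ⟪β j, e V S⟫ = s + j * l2 := by
      intro V S
      have := rua_ip_bd hMOD hFE M (ctr R) _ _ _ (S ++ V.1) (by positivity)
        (hball (i0 + j) (by omega)) (hbox _) (by positivity) le_rfl le_rfl
        (fun z hz => r2 ▸ ((rua_ann hGEO1 hT1 V.2).2 S z hz).2)
      rw [rua_log] at this
      have e1 := le_antisymm this.2 this.1
      simp only [hβd, hed, e1, hs]
      push_cast
      ring
    have he2 : ∀ V S, ⟪β (k + 3), e V S⟫ = ⟪β (j + 3), e V S⟫ := fun V S =>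
      rua_ip_eq hMOD hFE M (ctr R) _ _ (S ++ V.1) (by positivity) (rua_half (by omega))
        (hball _ (by omega)) (hbox _) (fun z hz => r1 ▸ ((rua_ann hGEO1 hT1 V.2).2 S z hz).1)
    have he3 : ∀ V S, s + j * l2 ≤ ⟪β (j + 3), e V S⟫ ∧
        ⟪β (j + 3), e V S⟫ ≤ s + j * l2 + 3 * l2 := by
      intro V S
      have := rua_ip_bd hMOD hFE M (ctr R) _ _ ((1 / 2 : ℝ) ^ (i0 + j)) (S ++ V.1) (by positivity)
        (hball (i0 + (j + 3)) (by omega)) (hbox _) (by positivity) le_rfl (rua_half (by omega))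
        (fun z hz => r2 ▸ ((rua_ann hGEO1 hT1 V.2).2 S z hz).2)
      rw [rua_log, rua_log] at this
      push_cast at this
      simp only [hβd, hed, hs]
      constructor <;> linarith [this.1, this.2]
    have h1 := rua_one hG2 hG3 hT1 hT3 γ κ p (aa γ) s u0 y j k β b e hγ0 hκ hp rfl ha0.le hj hβ hb
      he1 he2 fun V S => (he3 V S).2
    have h2 := hmom _ (fun V S => e V S - β j) (fun _ => 5 * l2) (β (j + 3) - β j)
      (y + 1 + 3 * γ * l2 - 5 * QQ γ * l2)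
      (by rw [Fintype.card_coe]; exact hGEO2.2.2.2.2.1 R _)
      (fun V => ⟨by
        obtain ⟨hl, hz⟩ := rua_ann hGEO1 hT1 V.2
        have := (hMOD M).2.2.2.2.2.2.2.2.2.2.2.1 (ctr R) ((1 / 2 : ℝ) ^ (i0 + j)) V.1
          (by positivity) (fun z hz' => by
            rw [mem_closedBall_iff_norm, r2]; exact (hz [] z hz').2)
        rw [rua_log, hl] at this
        convert this using 2
        push_cast
        ring, le_rfl⟩)
      (by
        rw [← real_inner_self_eq_norm_sq]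
        simp only [inner_sub_left, inner_sub_right, hβ', min_self, show min (j + 3) j = j by omega,
          show min j (j + 3) = j by omega]
        push_cast
        linarith)
      (fun V S => by
        simp only [inner_sub_left, inner_sub_right, hβ', min_self, show min (j + 3) j = j by omega,
          he1]
        rw [abs_le]
        constructor <;> linarith [(he3 V S).1, (he3 V S).2])
    have hrw : ∀ ω, eE (γ * M.YV γ u R ω - κ * |M.YV γ u R ω|) *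
        ind (M.rad γ u R (i0 + 5 + j - 5) ω ∈ Ico y (y + 1)) *
          annN (M.X γ u ω) R (i0 + 5 + j) ^ p =
        eE (γ * wk (QQ γ) β u0 ω (k + 3) - κ * |wk (QQ γ) β u0 ω (k + 3)|) *
        ind (wk (QQ γ) β u0 ω j ∈ Ico y (y + 1)) *
        (∑ V, nB (XV γ (e V) (u0 - QQ γ * (j + 5) * l2) ω)) ^ p := by
      intro ω
      rw [hY, show R.length - 2 = i0 + (k + 3) by omega, show i0 + 5 + j - 5 = i0 + j by omega,
        rua_rad, rua_rad, annN, ← Finset.sum_coe_sort]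
      congr 2
      refine Finset.sum_congr rfl fun V _ => ?_
      congr 1
      funext S
      simp only [sub, Model.X, XV, drift, hed, List.length_append, (rua_ann hGEO1 hT1 V.2).1, hu0]
      push_cast
      ring
    simp_rw [hrw]
    refine h1.trans ((mul_le_mul_right (mul_le_mul_right h2 _) _).trans ?_)
    rw [mul_comm (∫⁻ ω, _ ∂gm), ← mul_assoc]
    refine mul_le_mul_left ?_ _
    rw [eE, ← ENNReal.ofReal_mul (Real.exp_pos _).le]
    refine ENNReal.ofReal_le_ofReal ?_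
    have c1 := rua_exp γ (QQ γ) u M.C0 C1 i0 (k + 3) hγQ hC
    calc _ ≤ Real.exp (γ * u + γ ^ 2 * C1 / 2 + -2 * ((i0 + (k + 3) : ℕ) : ℝ) * l2 +
            κ * (3 * aa γ * l2)) * (K2 * Real.exp (γ * p * (y + 1 + 3 * γ * l2 - 5 * QQ γ * l2))) :=
          mul_le_mul_of_nonneg_right (Real.exp_le_exp.2 (by linarith)) (by positivity)
      _ = _ := by
          rw [hA, hK3, show γ * p * (y + 1 + 3 * γ * l2 - 5 * QQ γ * l2) =
            γ * p * y + γ * p * (1 + 3 * γ * l2 - 5 * QQ γ * l2) by ring]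
          simp only [Real.exp_add]
          ring
  have hsum := rua_count hT1 i0 A (fun k => ∑ j ∈ Finset.range (k - 2), T (k - 3) j)
    (fun R => ∑ l ∈ Finset.Icc (i0 + 5) R.length,
      ∫⁻ ω, eE (γ * M.YV γ u R ω - κ * |M.YV γ u R ω|) *
        ind (M.rad γ u R (l - 5) ω ∈ Ico y (y + 1)) * annN (M.X γ u ω) R l ^ p ∂gm) (by
    intro R k hk hk2
    rw [← Finset.Ico_add_one_right_eq_Icc, Finset.sum_Ico_eq_sum_range,
      show R.length + 1 - (i0 + 5) = k - 2 by omega, Finset.mul_sum]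
    refine Finset.sum_le_sum fun j hj => ?_
    rw [Finset.mem_range] at hj
    obtain ⟨k', rfl⟩ : ∃ k', k = k' + 3 := ⟨k - 3, by omega⟩
    exact hone R k' j hk (by omega))
  refine hsum.trans ?_
  have hJ : ∑' k : ℕ, ∑ j ∈ Finset.range (k - 2), T (k - 3) j ≤
      ENNReal.ofReal (Cw * min 1 (Real.exp (-(2 * aa γ) * (y - (u0 + γ * s) - aa γ * s)))) := by
    rw [← ENNReal.summable.sum_add_tsum_nat_add' (k := 3)]
    refine le_trans (le_of_eq ?_) (hCw b s (u0 + γ * s) y hOk.2 hb)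
    have z : ∑ i ∈ Finset.range 3, ∑ j ∈ Finset.range (i - 2), T (i - 3) j = 0 := by
      simp [Finset.sum_range_succ]
    rw [z, zero_add]
    refine tsum_congr fun k => ?_
    simp only [ENNReal.rpow_one, Finset.mul_sum, Nat.add_sub_cancel,
      show k + 3 - 2 = k + 1 by omega]
    rw [lintegral_finsetSum]
    intro i _
    exact (tld_eE_meas.comp ((((measurable_pi_apply _).comp (rua_hmw _ b _)).abs).const_mul _)).mul
      (rua_meas_ind (((measurable_pi_apply i).comp (rua_hmw _ b _)) measurableSet_Ico))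
  refine (mul_le_mul_right hJ _).trans ?_
  rw [← ENNReal.ofReal_mul (by positivity)]
  refine ENNReal.ofReal_le_ofReal ?_
  have c1 : Cw * min 1 (Real.exp (-(2 * aa γ) * (y - (u0 + γ * s) - aa γ * s))) ≤
      max Cw 0 * Real.exp (2 * aa γ * (QQ γ * C1) + -(2 * aa γ * (y - u))) := by
    refine mul_le_mul (le_max_left _ _) ((min_le_right _ _).trans (Real.exp_le_exp.2 ?_))
      (by positivity) (le_max_right _ _)
    have e1 : u0 + γ * s + aa γ * s = u + QQ γ * M.C0 := by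
      rw [hu0, hs, aa]; ring
    have e2 : QQ γ * M.C0 ≤ QQ γ * C1 := mul_le_mul_of_nonneg_left hC (by linarith)
    nlinarith
  refine (mul_le_mul_of_nonneg_left c1 (by positivity)).trans (le_of_eq ?_)
  rw [hA, sub_eq_add_neg (γ * u + γ * p * y)]
  simp only [Real.exp_add]
  ring

theorem rua_part2 (hG1 : St_G1) (hG2 : St_G2) (hG3 : St_G3) (hMOD : St_MOD) (hFE : St_FE)
    (hGEO1 : St_GEO1) (hGEO2 : St_GEO2) (hT1 : St_T1) (hT3 : St_T3) (hRW1 : St_RW1)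
    (hRW2 : St_RW2) (hMB : St_MB) (hTL : St_TL) (γ : ℝ) (hγ : γ ∈ Ioo (0 : ℝ) 2) (κ p C1 : ℝ)
    (hκ : 0 < κ) (hp : 0 < p) (hp' : p < 4 / γ ^ 2) (i0 : ℕ) :
    ∃ K : ℝ, ∀ (M : Model) (u : ℝ), M.Ok i0 → M.C0 ≤ C1 →
    ∑' R : Dy, ind (i0 + 4 ≤ R.length) *
      ∫⁻ ω, eE (γ * M.YV γ u R ω - κ * |M.YV γ u R ω|) * fblk (M.X γ u ω) R i0 ^ p ∂gm ≤
      ENNReal.ofReal (K * Real.exp (γ * u + γ * p * u)) := by
  obtain ⟨B0, hB0⟩ := hTL.2.2.2.1
  obtain ⟨ha0, hQ2, -, -, hγQ, -⟩ := hRW1.2.2 γ hγ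
  have hγ0 : 0 < γ := hγ.1
  have hl2 : 0 < l2 := Real.log_pos (by norm_num)
  have hl2' : 1 ≤ 2 * l2 := by
    have := Real.log_two_gt_d9
    rw [l2]
    linarith
  have hmono := hT1.2.2.2.2.2.2.2.2.2.2.2.2.2.2.2.1
  have hprob : IsProbabilityMeasure gm := hG1.1
  set B := |C1| + (i0 + 5) * l2 with hB
  have hi0 : (0 : ℝ) ≤ i0 * l2 := by positivity
  obtain ⟨K2, hK2, hmom⟩ := rua_mom hG2 hT1 hT3 hMB γ hγ κ p B B ((i0 + 5) * 65 ^ 2) hκ hp hp'
  obtain ⟨c, -, Cw, hCw⟩ := (hRW2 (aa γ) ha0 κ hκ).2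
  set K3 := Real.exp (γ ^ 2 * C1 / 2) * K2 * Real.exp (γ * p * (γ * B)) with hK3
  have hK3p : 0 ≤ K3 := by positivity
  refine ⟨16 * K3 * (4 + max Cw 0), fun M u hOk hC => ?_⟩
  have hCa := le_abs_self C1
  have hCa' := abs_nonneg C1
  have hOk2 := hOk.2
  set s := M.C0 + i0 * l2 with hs
  set u0 := u - QQ γ * i0 * l2 with hu0
  set b : ℕ → HH := fun j => M.eC (ctr []) ((1 / 2 : ℝ) ^ (i0 + j)) with hbd
  have hb : IsWk b s := hTL.2.1 M i0 hOk _ (rua_setup hGEO1 M i0 hOk []).1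
  have hb' : ∀ i i', ⟪b i, b i'⟫ = s + (min i i' : ℕ) * l2 := hb
  set J : ℕ → ℝ≥0∞ := fun k =>
    ∫⁻ ω : Om, eE (-κ * |ω (b k - b 2) + (u0 + γ * s) - aa γ * k * l2|) ∂gm with hJd
  set A := K3 * Real.exp (γ * u + γ * p * u) with hA
  have hone : ∀ (R : Dy) (k : ℕ), R.length = i0 + k + 2 → 2 ≤ k →
      ∫⁻ ω, eE (γ * M.YV γ u R ω - κ * |M.YV γ u R ω|) * fblk (M.X γ u ω) R i0 ^ p ∂gm ≤
      ENNReal.ofReal (A * Real.exp (-2 * ((i0 + k : ℕ) : ℝ) * l2)) * J k := by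
    intro R k hk hk2
    obtain ⟨-, hY, -⟩ := hB0 γ M i0 R hOk (by omega)
    obtain ⟨hc, hbox, hball⟩ := rua_setup hGEO1 M i0 hOk R
    have hβ := hTL.2.1 M i0 hOk (ctr R) hc
    set β : ℕ → HH := fun j => M.eC (ctr R) ((1 / 2 : ℝ) ^ (i0 + j)) with hβd
    have hβ' : ∀ i i', ⟪β i, β i'⟫ = s + (min i i' : ℕ) * l2 := hβ
    set I : Finset (Σ _ : ℕ, Dy) := (Finset.range (i0 + 5)).sigma fun l => ann R l with hI
    set e : I → Dy → HH := fun V S => M.eS (S ++ V.1.2) with hed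
    have hV : ∀ V : I, V.1.2.length ≤ i0 + 4 ∧ ∀ S, ∀ y ∈ box (S ++ V.1.2),
        (1 / 2 : ℝ) ^ (i0 + 2) ≤ ‖y - ctr R‖ ∧ ‖y - ctr R‖ ≤ 32 := by
      intro V
      have h0 := Finset.mem_sigma.1 V.2
      rw [Finset.mem_range] at h0
      obtain ⟨hl, hz⟩ := rua_ann hGEO1 hT1 h0.2
      refine ⟨by omega, fun S y hy => ⟨le_trans ?_ (hz S y hy).1, (hz S y hy).2.trans ?_⟩⟩
      · have := rua_half (show V.1.1 ≤ i0 + 4 by omega)
        rw [show (1 / 2 : ℝ) ^ (i0 + 2) = 4 * (1 / 2 : ℝ) ^ (i0 + 4) by ring]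
        linarith
      · have := rua_half (Nat.zero_le V.1.1)
        rw [pow_zero] at this
        linarith
    have he2 : ∀ V S, ⟪β k, e V S⟫ = ⟪β 2, e V S⟫ := fun V S =>
      rua_ip_eq hMOD hFE M (ctr R) _ _ (S ++ V.1.2) (by positivity) (rua_half (by omega))
        (hball _ (by omega)) (hbox _) (fun z hz => ((hV V).2 S z hz).1)
    have he3 : ∀ V S, -B ≤ ⟪β 2, e V S⟫ ∧ ⟪β 2, e V S⟫ ≤ B := by
      intro V S
      have h32 : (1 / 2 : ℝ) ^ (i0 + 2) ≤ 32 := by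
        have := rua_half (Nat.zero_le (i0 + 2))
        rw [pow_zero] at this
        linarith
      have := rua_ip_bd hMOD hFE M (ctr R) _ _ 32 (S ++ V.1.2) (by positivity)
        (hball (i0 + 2) (by omega)) (hbox _) (by positivity) le_rfl h32
        (fun z hz => ((hV V).2 S z hz).2)
      have l32 : Real.log 32 = 5 * l2 := by
        rw [show (32 : ℝ) = 2 ^ 5 by norm_num, Real.log_pow, l2]
        norm_num
      rw [rua_log, l32] at this
      push_cast at this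
      simp only [hβd, hed, hB]
      constructor <;> linarith [this.1, this.2]
    have h1 := rua_two hG2 hG3 hT1 hT3 γ κ p (aa γ) s u0 u B k β b e hγ0 hκ hp rfl hk2 hβ hb
      he2 fun V S => (he3 V S).2
    have h2 := hmom _ e (fun V => M.C0 + V.1.2.length * l2) (β 2) (u + γ * B)
      (by
        rw [Fintype.card_coe, hI, Finset.card_sigma]
        refine (Finset.sum_le_card_nsmul _ _ _ fun l _ => hGEO2.2.2.2.2.1 R l).trans ?_
        simp)
      (fun V => ⟨(hMOD M).2.2.2.2.2.2.1 V.1.2 (hbox _), by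
        have : (V.1.2.length : ℝ) ≤ i0 + 4 := by exact_mod_cast (hV V).1
        rw [hB]
        nlinarith⟩)
      (by
        rw [← real_inner_self_eq_norm_sq, hβ', min_self, hs, hB]
        push_cast
        linarith)
      (fun V S => abs_le.2 (he3 V S))
    have hrw : ∀ ω, eE (γ * M.YV γ u R ω - κ * |M.YV γ u R ω|) * fblk (M.X γ u ω) R i0 ^ p ≤
        eE (γ * wk (QQ γ) β u0 ω k - κ * |wk (QQ γ) β u0 ω k|) *
        (∑ V, nB (XV γ (e V) u ω)) ^ p := by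
      intro ω
      rw [hY, show R.length - 2 = i0 + k by omega, rua_rad]
      refine mul_le_mul_right (ENNReal.rpow_le_rpow ?_ hp.le) _
      simp only [fblk, annN]
      rw [Finset.sum_sigma', ← Finset.sum_coe_sort]
      refine Finset.sum_le_sum fun V _ => hmono _ _ fun S => ?_
      simp only [sub, Model.X, XV, drift, hed, List.length_append]
      have : 0 ≤ QQ γ * V.1.2.length * l2 := by positivity
      push_cast
      linarith
    refine (lintegral_mono hrw).trans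
      (h1.trans ((mul_le_mul_right (mul_le_mul_right h2 _) _).trans ?_))
    rw [mul_comm (∫⁻ ω, _ ∂gm), ← mul_assoc]
    refine mul_le_mul_left ?_ _
    rw [eE, ← ENNReal.ofReal_mul (Real.exp_pos _).le]
    refine ENNReal.ofReal_le_ofReal ?_
    have c1 := rua_exp γ (QQ γ) u M.C0 C1 i0 k hγQ hC
    calc _ ≤ Real.exp (γ * u + γ ^ 2 * C1 / 2 + -2 * ((i0 + k : ℕ) : ℝ) * l2) *
            (K2 * Real.exp (γ * p * (u + γ * B))) :=
          mul_le_mul_of_nonneg_right (Real.exp_le_exp.2 (by linarith)) (by positivity)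
      _ = _ := by
          rw [hA, hK3, mul_add (γ * p)]
          simp only [Real.exp_add]
          ring
  refine (rua_count hT1 i0 A J _ hone).trans ?_
  have hJ : ∑' k : ℕ, J k ≤ ENNReal.ofReal (4 + max Cw 0) := by
    rw [← ENNReal.summable.sum_add_tsum_nat_add' (k := 4),
      ENNReal.ofReal_add (by norm_num) (le_max_right _ _)]
    refine add_le_add ?_ ?_
    · have h1 : ∀ k, J k ≤ 1 := by
        intro k
        calc J k ≤ ∫⁻ _, 1 ∂gm := lintegral_mono fun ω => by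
              have : eE 0 = 1 := by simp [eE]
              rw [← this]
              exact tld_eE_mono (by nlinarith [abs_nonneg (ω (b k - b 2) + (u0 + γ * s) -
                aa γ * k * l2)])
          _ = 1 := by simp
      refine (Finset.sum_le_card_nsmul _ _ _ fun k _ => h1 k).trans ?_
      simp
    · have hw : IsWk (fun i => b (i + 4) - b 2) (2 * l2) := by
        intro i i'
        simp only [inner_sub_left, inner_sub_right, hb', min_self, show min (i + 4) 2 = 2 by omega,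
          show min 2 (i' + 4) = 2 by omega, show min (i + 4) (i' + 4) = min i i' + 4 by omega]
        push_cast
        ring
      refine le_trans (le_of_eq ?_) ((hCw _ _ (u0 + γ * s - 4 * aa γ * l2) 0 hl2' hw).1.trans
        (ENNReal.ofReal_le_ofReal (le_max_left _ _)))
      refine tsum_congr fun k => lintegral_congr fun ω => ?_
      congr 3
      simp only [wk]
      push_cast
      ring
  refine (mul_le_mul_right hJ _).trans (le_of_eq ?_)
  rw [← ENNReal.ofReal_mul (by positivity), hA]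
  congr 1
  ring

theorem blk_RUA (hG1 : St_G1) (_hG1D : St_G1D) (hG2 : St_G2) (hG3 : St_G3) (_hM0 : St_M0)
    (hMOD : St_MOD) (hFE : St_FE) (_hEXP1 : St_EXP1) (_hEXP2 : St_EXP2) (hGEO1 : St_GEO1)
    (hGEO2 : St_GEO2) (hT1 : St_T1) (hT3 : St_T3) (hRW1 : St_RW1) (hRW2 : St_RW2) (hMB : St_MB)
    (hTL : St_TL) : St_RUA := fun γ hγ κ p C1 hκ hp hp' =>
  ⟨rua_part1 hG2 hG3 hMOD hFE hGEO1 hGEO2 hT1 hT3 hRW1 hRW2 hMB hTL γ hγ κ p C1 hκ hp hp',
    rua_part2 hG1 hG2 hG3 hMOD hFE hGEO1 hGEO2 hT1 hT3 hRW1 hRW2 hMB hTL γ hγ κ p C1 hκ hp hp'⟩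

end

end Pool.Agent.Lib.APPS
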