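import Pool.Agent.Lib.APPS.B_RUNa

/-!
Block RUF.
-/

namespace Pool.Agent.Lib.APPS

open MeasureTheory ProbabilityTheory Filter Topology Set Metric
open scoped NNReal ENNReal RealInnerProductSpace Classical

noncomputable section

namespace RUF

open FAR (eE_add eE_mono eE_zero eE_ne_top eE_rpow meas_eE meas_fam ind_mono markov)
open RUN

theorem zero_mem : (0 : ℂ) ∈ box [] := by
  simp [box, corner, side]

theorem RS_mono (M : Model) (γ u : ℝ) (i0 : ℕ) (Γ : Dy → ℝ × Om → ℝ≥0∞)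
    {E E' : Dy → Om → ℝ≥0∞} (h : ∀ R ω, i0 + 4 ≤ R.length → E R ω ≤ E' R ω) :
    M.RS γ u i0 Γ E ≤ M.RS γ u i0 Γ E' := by
  refine ENNReal.tsum_le_tsum fun R => ?_
  by_cases hR : i0 + 4 ≤ R.length
  · exact mul_le_mul_right (lintegral_mono fun ω => mul_le_mul_right (h R ω hR) _) _
  · simp [ind, hR]

theorem RS_add (hT3 : St_T3) (M : Model) (γ u : ℝ) (i0 : ℕ) (Γ : Dy → ℝ × Om → ℝ≥0∞)
    (hΓ : ∀ R, Measurable (Γ R)) (E E' : Dy → Om → ℝ≥0∞) (hE : ∀ R, Measurable (E R)) :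
    M.RS γ u i0 Γ (fun R ω => E R ω + E' R ω) = M.RS γ u i0 Γ E + M.RS γ u i0 Γ E' := by
  unfold Model.RS
  rw [← ENNReal.tsum_add]
  refine tsum_congr fun R => ?_
  have hm : Measurable fun ω => Γ R (M.YV γ u R ω, ω) :=
    (hΓ R).comp (((hT3.2.2.2.2.2.2.2.2.2.2.1 M γ u).2 _ _).prodMk measurable_id)
  have hm2 : Measurable fun ω => Γ R (M.YV γ u R ω, ω) * E R ω := hm.mul (hE R)
  rw [← mul_add, ← lintegral_add_left hm2]
  simp only [mul_add]

theorem RS_mul (M : Model) (γ u : ℝ) (i0 : ℕ) (Γ : Dy → ℝ × Om → ℝ≥0∞) (c : ℝ)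
    (E : Dy → Om → ℝ≥0∞) :
    M.RS γ u i0 Γ (fun R ω => eE c * E R ω) = eE c * M.RS γ u i0 Γ E := by
  unfold Model.RS
  rw [← ENNReal.tsum_mul_left]
  refine tsum_congr fun R => ?_
  rw [mul_left_comm, ← lintegral_const_mul' _ _ (eE_ne_top _)]
  simp only [mul_left_comm]

theorem split16 (v x : ℝ) (hv : 0 ≤ v) :
    ENNReal.ofReal (16 * v * Real.exp x) ≤ ENNReal.ofReal v * eE (16 + x) := by
  rw [ENNReal.ofReal_mul (by positivity), ENNReal.ofReal_mul (by norm_num), eE_add]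
  calc _ = ENNReal.ofReal v * (ENNReal.ofReal 16 * eE x) := by unfold eE; ring
    _ ≤ _ := by gcongr; exact ofReal_le_eE' _

/-- total mass and high excursions of a rooted sum -/
theorem tl (hR : St_RW1) (hR2 : St_RW2) (hT3 : St_T3) (hTL : St_TL) {γ : ℝ}
    (hγ : γ ∈ Ioo (0 : ℝ) 2) {κ : ℝ} (hκ : 0 < κ) (C1 : ℝ) : ∃ K : ℝ, ∀ (M : Model) (i0 : ℕ)
    (r v u : ℝ) (Γ : Dy → ℝ × Om → ℝ≥0∞), M.Ok i0 → M.C0 ≤ C1 → 1 ≤ r → 0 ≤ v →
    RootW M γ κ r i0 v Γ →
    M.RS γ u i0 Γ (fun _ _ => 1) ≤ ENNReal.ofReal v * eE (K + γ * u) ∧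
    ∀ t : ℝ, M.RS γ u i0 Γ (fun R ω => ∑ i ∈ Finset.range (R.length - (i0 + 2) + 1),
      ind (t < M.rw γ u i0 R ω i)) ≤ ENNReal.ofReal v * eE (K + γ * u - 2 * aa γ * (t - u)) := by
  obtain ⟨ha, hQ, -⟩ := hR.2.2 γ hγ
  obtain ⟨c, -, C, hC⟩ := (hR2 (aa γ) ha κ hκ).2
  obtain ⟨L, hL⟩ := ofReal_le_eE C
  refine ⟨16 + γ ^ 2 * C1 / 2 + max C (L + 2 * aa γ * QQ γ * C1),
    fun M i0 r v u Γ hO hC1 hr hv hΓ => ⟨?_, fun t => ?_⟩⟩
  · have hb := hTL.2.1 M i0 hO 0 zero_mem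
    have h1 := hTL.1 γ hγ M i0 κ r v u Γ (fun _ _ => 1) _ hO hr hv hΓ
      ⟨fun _ => measurable_const, fun _ _ _ _ => rfl⟩ hb
    simp only [mul_one] at h1
    refine h1.trans ?_
    have h2 := (hC _ _ (u + γ * M.C0 - aa γ * i0 * l2) 0 hO.2 hb).1
    refine (mul_le_mul' (split16 v _ hv) (h2.trans (ofReal_le_eE' _))).trans ?_
    rw [mul_assoc, ← eE_add]
    refine mul_le_mul_right (eE_mono ?_) _
    have e1 := le_max_left C (L + 2 * aa γ * QQ γ * C1)
    have e3 := mul_le_mul_of_nonneg_left hC1 (sq_nonneg γ)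
    linarith
  · have hb := hTL.2.1 M i0 hO 0 zero_mem
    have hm : ∀ i : ℕ, Measurable fun w : ℕ → ℝ => ind (t < w i) := fun i =>
      (hT3.2.2.2.2.2.2.2.2.2.2.2.1 _ _ (measurableSet_lt measurable_const (measurable_pi_apply i))).1
    have hD : DepLe fun k w => ∑ i ∈ Finset.range (k + 1), ind (t < w i) := by
      refine ⟨fun k => Finset.measurable_sum _ fun i _ => hm i, fun k w w' h => ?_⟩
      refine Finset.sum_congr rfl fun i hi => ?_
      rw [h i (Nat.lt_succ_iff.1 (Finset.mem_range.1 hi))]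
    have h1 := hTL.1 γ hγ M i0 κ r v u Γ _ _ hO hr hv hΓ hD hb
    refine h1.trans ?_
    have h2 := (hC _ _ (u + γ * M.C0 - aa γ * i0 * l2) t hO.2 hb).2.2.1
    set b : ℕ → HH := fun j => M.eC 0 ((1 / 2 : ℝ) ^ (i0 + j)) with hbdef
    set u' := u + γ * M.C0 - aa γ * i0 * l2 with hu'
    have hw : ∀ i, Measurable fun ω => wk (aa γ) b u' ω i := fun i => by
      unfold wk
      exact ((meas_ev _).add_const _).sub_const _
    have h3 : ∑' k : ℕ, ∫⁻ ω, eE (-κ * |wk (aa γ) b u' ω k|) *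
        ∑ i ∈ Finset.range (k + 1), ind (t < wk (aa γ) b u' ω i) ∂gm =
        ∑' k : ℕ, ∑ i ∈ Finset.range (k + 1),
          ∫⁻ ω, eE (-κ * |wk (aa γ) b u' ω k|) * ind (t < wk (aa γ) b u' ω i) ∂gm := by
      refine tsum_congr fun k => ?_
      simp only [Finset.mul_sum]
      refine lintegral_finsetSum _ fun i _ => ?_
      refine (meas_eE.comp (((hw k).abs).const_mul _)).mul ?_
      exact (hT3.2.2.2.2.2.2.2.2.2.2.2.1 _ _ (measurableSet_lt measurable_const (hw i))).1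
    rw [h3]
    refine (mul_le_mul' (split16 v _ hv) (h2.trans (hL _))).trans ?_
    rw [mul_assoc, ← eE_add]
    refine mul_le_mul_right (eE_mono ?_) _
    have e1 := le_max_right C (L + 2 * aa γ * QQ γ * C1)
    have e3 := mul_le_mul_of_nonneg_left hC1 (sq_nonneg γ)
    have e0 : 0 ≤ 2 * aa γ * QQ γ := by positivity
    have e4 := mul_le_mul_of_nonneg_left hC1 e0
    have e5 : -(2 * aa γ) * (t - u' - aa γ * (M.C0 + i0 * l2)) =
        -(2 * aa γ * (t - u)) + 2 * aa γ * QQ γ * M.C0 := by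
      rw [hu']
      have : QQ γ = aa γ + γ := by unfold aa; ring
      rw [this]
      ring
    rw [e5]
    linarith

/-- the first block -/
theorem blk (hR : St_RW1) (hR2 : St_RW2) (hT3 : St_T3) (hTL : St_TL) (hA : St_RUA) {γ : ℝ}
    (hγ : γ ∈ Ioo (0 : ℝ) 2) {κ : ℝ} (hκ : 0 < κ) (C1 : ℝ) (i0 : ℕ) : ∃ K : ℝ, ∀ (M : Model)
    (r lv u m : ℝ) (Γ : Dy → ℝ × Om → ℝ≥0∞), M.Ok i0 → M.C0 ≤ C1 → 2 + 4 * th γ ≤ r →
    RootW M γ κ r i0 (Real.exp lv) Γ →
    M.RS γ u i0 Γ (fun R ω => ind (eE (γ * m) ≤ fblk (M.X γ u ω) R i0)) ≤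
      eE (K + lv + γ * u + γ * (th γ + 1 / 4) * (u - m)) := by
  obtain ⟨ha, hQ, hθ, -⟩ := hR.2.2 γ hγ
  have hγ0 := hγ.1
  obtain ⟨K1, hK1⟩ := tl hR hR2 hT3 hTL hγ hκ C1
  have hp : th γ + 1 / 2 < 4 / γ ^ 2 := by unfold th; linarith
  obtain ⟨K2, hK2⟩ := (hA γ hγ κ (th γ + 1 / 2) C1 hκ (by linarith) hp).2 i0
  obtain ⟨L, hL⟩ := ofReal_le_eE K2
  refine ⟨1 + max K1 L, fun M r lv u m Γ hO hC hr hΓ => ?_⟩
  have hr1 : 1 ≤ r := by linarith
  have e1 := le_max_left K1 L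
  have e2 := le_max_right K1 L
  rcases le_total m u with hmu | hum
  · refine (RS_mono M γ u i0 Γ fun R ω _ => ind_le_one _).trans ?_
    refine (hK1 M i0 r _ u Γ hO hC hr1 (Real.exp_pos _).le hΓ).1.trans ?_
    change eE _ * _ ≤ _
    rw [← eE_add]
    refine eE_mono ?_
    have : 0 ≤ γ * (th γ + 1 / 4) * (u - m) := by
      have : 0 ≤ u - m := by linarith
      positivity
    linarith
  set σ : ℝ := γ * (m - u) / 4 with hσ
  have hσ0 : 0 ≤ σ := by
    have : 0 ≤ m - u := by linarith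
    positivity
  let Γ2 : Dy → ℝ × Om → ℝ≥0∞ := fun R p =>
    eE ((1 - r) * (lv + σ + (γ * p.1 - κ * |p.1|))) * Γ R p ^ r
  have hΓ2 : RootW M γ κ 1 i0 (Real.exp (lv + (1 - r) * σ)) Γ2 := by
    refine ⟨fun R => (meas_eE.comp (by fun_prop)).mul ((hΓ.meas R).pow_const r), ?_, ?_⟩
    · intro R y i h1 h2 s ω
      simp only [Γ2]
      have h3 := hΓ.inv R y i h1 h2 s ω
      simp only at h3
      rw [h3]
    · intro R y
      simp only [Γ2, ENNReal.rpow_one]
      rw [lintegral_const_mul' _ _ (eE_ne_top _)]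
      refine (mul_le_mul_right (hΓ.bd R y) _).trans (le_of_eq ?_)
      rw [← Real.exp_add, ← Real.exp_add]
      change _ * eE _ ^ r = eE _
      rw [eE_rpow, ← eE_add]
      congr 1
      ring
  have hB := (hK1 M i0 1 _ u Γ2 hO hC le_rfl (Real.exp_pos _).le hΓ2).1
  have h1 : ∀ R : Dy, ind (i0 + 4 ≤ R.length) * ∫⁻ ω, Γ R (M.YV γ u R ω, ω) *
      ind (eE (γ * m) ≤ fblk (M.X γ u ω) R i0) ∂gm ≤
      eE (lv + σ + γ * m * -(th γ + 1 / 2)) * (ind (i0 + 4 ≤ R.length) *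
        ∫⁻ ω, eE (γ * M.YV γ u R ω - κ * |M.YV γ u R ω|) *
          fblk (M.X γ u ω) R i0 ^ (th γ + 1 / 2) ∂gm) +
      ind (i0 + 4 ≤ R.length) * ∫⁻ ω, Γ2 R (M.YV γ u R ω, ω) * 1 ∂gm := by
    intro R
    have hm2 : Measurable fun ω => Γ2 R (M.YV γ u R ω, ω) :=
      (hΓ2.meas R).comp (((hT3.2.2.2.2.2.2.2.2.2.2.1 M γ u).2 _ _).prodMk measurable_id)
    rw [mul_left_comm, ← mul_add]
    refine mul_le_mul_right ?_ _
    simp only [mul_one]
    rw [← lintegral_const_mul' _ _ (eE_ne_top _), ← lintegral_add_right _ hm2]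
    refine lintegral_mono fun ω => ?_
    refine (young _ _ (lv + σ + (γ * M.YV γ u R ω - κ * |M.YV γ u R ω|)) r hr1
      (ind_le_one _)).trans (add_le_add_left ?_ _)
    have h2 := markov (N := fblk (M.X γ u ω) R i0) (Real.exp_pos (γ * m))
      (show 0 < th γ + 1 / 2 by linarith)
    rw [← Real.exp_mul] at h2
    calc _ ≤ eE (lv + σ + (γ * M.YV γ u R ω - κ * |M.YV γ u R ω|)) *
          (eE (γ * m * -(th γ + 1 / 2)) * fblk (M.X γ u ω) R i0 ^ (th γ + 1 / 2)) :=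
          mul_le_mul_right h2 _
      _ = _ := by
          rw [← mul_assoc, ← mul_assoc, ← eE_add, ← eE_add]
          congr 2
          ring
  refine (ENNReal.tsum_le_tsum h1).trans ?_
  rw [ENNReal.tsum_add, ENNReal.tsum_mul_left]
  refine (add_le_add (mul_le_mul_right ((hK2 M u hO hC).trans (hL _)) _) hB).trans ?_
  change _ + eE _ * _ ≤ _
  rw [← eE_add, ← eE_add, show 1 + max K1 L + lv + γ * u + γ * (th γ + 1 / 4) * (u - m) =
    1 + (max K1 L + lv + γ * u + γ * (th γ + 1 / 4) * (u - m)) by ring]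
  refine eE_add_le ?_ ?_
  · have : σ + γ * m * -(th γ + 1 / 2) + γ * (th γ + 1 / 2) * u =
        γ * (th γ + 1 / 4) * (u - m) := by rw [hσ]; ring
    linarith
  · have e4 : (1 + 4 * th γ) * σ ≤ (r - 1) * σ := mul_le_mul_of_nonneg_right (by linarith) hσ0
    have e5 : (1 + 4 * th γ) * σ = -(γ * (th γ + 1 / 4) * (u - m)) := by rw [hσ]; ring
    linarith

theorem half (x : ℝ) : eE x = eE (x - l2) + eE (x - l2) := by
  unfold eE l2
  rw [← ENNReal.ofReal_add (Real.exp_pos _).le (Real.exp_pos _).le, Real.exp_sub,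
    Real.exp_log (by norm_num)]
  congr 1
  ring

/-- pointwise splitting of the far count -/
theorem split (M : Model) (γ u t x : ℝ) (i0 : ℕ) (R : Dy) (ω : Om) (hR : i0 + 4 ≤ R.length) :
    ind (eE x ≤ far (M.X γ u ω) R) ≤
      ∑ i ∈ Finset.range (R.length - (i0 + 2) + 1), ind (t < M.rw γ u i0 R ω i) +
      (ind (eE (x - l2) ≤ fblk (M.X γ u ω) R i0) + ind (eE (x - l2) ≤ M.low γ u i0 t R ω)) := by
  by_cases h : ∃ i ∈ Finset.range (R.length - (i0 + 2) + 1), t < M.rw γ u i0 R ω i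
  · obtain ⟨i, hi, h⟩ := h
    refine (ind_le_one _).trans (le_trans ?_ le_self_add)
    refine le_trans ?_ (Finset.single_le_sum
      (f := fun i => ind (t < M.rw γ u i0 R ω i)) (fun _ _ => zero_le) hi)
    simp [ind, h]
  · push Not at h
    refine le_trans ?_ le_add_self
    have h1 : far (M.X γ u ω) R = fblk (M.X γ u ω) R i0 + M.low γ u i0 t R ω := by
      unfold far fblk Model.low
      rw [← Finset.sum_range_add_sum_Ico _ (show i0 + 5 ≤ R.length + 1 by omega)]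
      congr 1
      refine Finset.sum_congr (by ext l; simp) fun l hl => ?_
      obtain ⟨h2, h3⟩ := Finset.mem_Icc.1 hl
      have h4 := h (l - 5 - i0) (Finset.mem_range.2 (by omega))
      unfold Model.rw at h4
      rw [show i0 + (l - 5 - i0) = l - 5 by omega] at h4
      simp [ind, h4]
    by_cases h2 : eE (x - l2) ≤ fblk (M.X γ u ω) R i0
    · refine (ind_le_one _).trans (le_trans ?_ le_self_add)
      simp [ind, h2]
    by_cases h3 : eE (x - l2) ≤ M.low γ u i0 t R ω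
    · refine (ind_le_one _).trans (le_trans ?_ le_add_self)
      simp [ind, h3]
    have h4 : ¬eE x ≤ far (M.X γ u ω) R := by
      rw [h1, half x, not_le]
      exact ENNReal.add_lt_add (not_le.1 h2) (not_le.1 h3)
    simp [ind, h4]

end RUF

open RUN RUF in
open FAR (eE_add eE_mono eE_zero eE_ne_top eE_rpow meas_eE meas_fam ind_mono markov) in
theorem blk_RUF (_hG1 : St_G1) (_hM0 : St_M0) (_hMOD : St_MOD) (_hT1 : St_T1) (hT3 : St_T3)
    (hR : St_RW1) (hR2 : St_RW2) (hTL : St_TL) (hA : St_RUA) (hL : St_RUL) : St_RUF := by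
  intro γ hγ
  obtain ⟨ha, hQ2, hθ, hγθ, -, -, -⟩ := hR.2.2 γ hγ
  have hγ0 := hγ.1
  obtain ⟨q, r1, hθq, hq1, hr1, hL⟩ := hL γ hγ
  refine ⟨max r1 (2 + 4 * th γ), 1 / 4, hr1.trans (le_max_left _ _), by norm_num,
    fun κ hκ C1 i0 => ?_⟩
  obtain ⟨K1, hK1⟩ := tl hR hR2 hT3 hTL hγ hκ C1
  obtain ⟨K2, hK2⟩ := blk hR hR2 hT3 hTL hA hγ hκ C1 i0
  obtain ⟨K3, hK3⟩ := hL κ hκ C1
  obtain ⟨L3, hL3⟩ := ofReal_le_eE K3
  have hl := FM.l2_pos
  set K5 : ℝ := max (max K1 (K2 + (th γ + 1 / 4) * l2)) (L3 + q * l2) with hK5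
  have f1 : K1 ≤ K5 := (le_max_left _ _).trans (le_max_left _ _)
  have f2 : K2 + (th γ + 1 / 4) * l2 ≤ K5 := (le_max_right _ _).trans (le_max_left _ _)
  have f3 : L3 + q * l2 ≤ K5 := le_max_right _ _
  have f4 : 0 ≤ (th γ + 1 / 4) * l2 := by positivity
  refine ⟨Real.exp (2 + K5), fun M v u n r Γ hO hC hr hv hΓ hn => ?_⟩
  have hra : r1 ≤ r := (le_max_left _ _).trans hr
  have hrb : 2 + 4 * th γ ≤ r := (le_max_right _ _).trans hr
  obtain ⟨h1, hA1⟩ := hK1 M i0 r v u Γ hO hC (hr1.trans hra) hv hΓ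
  rcases hv.eq_or_lt with rfl | hv0
  · rw [ENNReal.ofReal_zero, zero_mul] at h1
    refine ⟨h1.trans zero_le, ?_, ?_⟩
    · exact ((RS_mono M γ u i0 Γ fun R ω _ => ind_le_one _).trans h1).trans zero_le
    · exact ((RS_mono M γ u i0 Γ fun R ω _ => ind_le_one _).trans h1).trans zero_le
  obtain ⟨m, rfl⟩ : ∃ m, n = Real.exp (γ * m) :=
    ⟨Real.log n / γ, by rw [mul_div_cancel₀ _ hγ0.ne', Real.exp_log hn]⟩
  obtain ⟨lv, rfl⟩ : ∃ lv, v = Real.exp lv := ⟨Real.log v, (Real.exp_log hv0).symm⟩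
  have hrhs : ∀ p : ℝ, ENNReal.ofReal (Real.exp (2 + K5) * Real.exp lv * Real.exp (γ * u) *
      (Real.exp (γ * u) / Real.exp (γ * m)) ^ p) = eE (2 + K5 + lv + γ * u + γ * p * (u - m)) := by
    intro p
    unfold eE
    congr 1
    rw [← Real.exp_sub, ← Real.exp_mul, ← Real.exp_add, ← Real.exp_add, ← Real.exp_add]
    congr 1
    ring
  have h1' : M.RS γ u i0 Γ (fun _ _ => 1) ≤ eE (K5 + lv + γ * u) := by
    refine h1.trans ?_
    change eE _ * _ ≤ _
    rw [← eE_add]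
    exact eE_mono (by linarith)
  refine ⟨?_, ?_, ?_⟩
  · rw [← Real.exp_add, ← Real.exp_add]
    exact h1'.trans (eE_mono (by linarith))
  · rw [hrhs]
    rcases le_total m u with hmu | hum
    · refine ((RS_mono M γ u i0 Γ fun R ω _ => ind_le_one _).trans h1').trans (eE_mono ?_)
      have : 0 ≤ γ * th γ * (u - m) := by
        have : 0 ≤ u - m := by linarith
        positivity
      linarith
    have hX := (hT3.2.2.2.2.2.2.2.2.2.2.1 M γ u)
    have hind := hT3.2.2.2.2.2.2.2.2.2.2.2.1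
    refine (RS_mono M γ u i0 Γ fun R ω hR => split M γ u m (γ * m) i0 R ω hR).trans ?_
    rw [RS_add hT3 M γ u i0 Γ hΓ.meas, RS_add hT3 M γ u i0 Γ hΓ.meas]
    · have hA2 : M.RS γ u i0 Γ (fun R ω => ∑ i ∈ Finset.range (R.length - (i0 + 2) + 1),
          ind (m < M.rw γ u i0 R ω i)) ≤ eE (1 + (K5 + lv + γ * u + γ * th γ * (u - m))) := by
        refine (hA1 m).trans ?_
        change eE _ * _ ≤ _
        rw [← eE_add, hγθ]
        exact eE_mono (by linarith)
      have hB : M.RS γ u i0 Γ (fun R ω => ind (eE (γ * m - l2) ≤ fblk (M.X γ u ω) R i0)) ≤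
          eE (K2 + (th γ + 1 / 4) * l2 + lv + γ * u + γ * th γ * (u - m)) := by
        have h2 := hK2 M r lv u (m - l2 / γ) Γ hO hC hrb hΓ
        rw [show γ * (m - l2 / γ) = γ * m - l2 by field_simp] at h2
        refine h2.trans (eE_mono ?_)
        have e1 : γ * (th γ + 1 / 4) * (u - (m - l2 / γ)) =
            γ * th γ * (u - m) - γ / 4 * (m - u) + (th γ + 1 / 4) * l2 := by
          field_simp
          ring
        have e2 : 0 ≤ γ / 4 * (m - u) := by
          have : 0 ≤ m - u := by linarith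
          positivity
        linarith
      have hC' : M.RS γ u i0 Γ (fun R ω => ind (eE (γ * m - l2) ≤ M.low γ u i0 m R ω)) ≤
          eE (L3 + q * l2 + lv + γ * u + γ * th γ * (u - m)) := by
        have h2 : ∀ (R : Dy) (ω : Om), ind (eE (γ * m - l2) ≤ M.low γ u i0 m R ω) ≤
            eE ((γ * m - l2) * -q) * M.low γ u i0 m R ω ^ q := by
          intro R ω
          have h3 := markov (N := M.low γ u i0 m R ω) (Real.exp_pos (γ * m - l2))
            (show 0 < q by linarith)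
          rw [← Real.exp_mul] at h3
          exact h3
        refine (RS_mono M γ u i0 Γ fun R ω _ => h2 R ω).trans ?_
        rw [RS_mul]
        have h3 := hK3 M i0 _ u m r Γ hO hC hra (Real.exp_pos lv).le hΓ
        rw [mul_assoc, ← Real.exp_add] at h3
        refine (mul_le_mul_right (h3.trans (hL3 _)) _).trans ?_
        rw [← eE_add, hγθ]
        exact eE_mono (le_of_eq (by ring))
      refine (add_le_add hA2 ((add_le_add hB hC').trans (eE_add_le
        (c := K5 + lv + γ * u + γ * th γ * (u - m)) (by linarith) (by linarith)))).trans ?_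
      refine (eE_add_le le_rfl le_rfl).trans (eE_mono (le_of_eq (by ring)))
    · intro R
      refine (hind _ _ (measurableSet_le measurable_const ?_)).1
      unfold fblk
      exact Finset.measurable_sum _ fun l _ =>
        ((hT3.2.2.2.2.2.2.2.2.2.1 R).2.2 l).comp hX.1
    · intro R
      refine Finset.measurable_sum _ fun i _ => ?_
      exact (hind _ _ (measurableSet_lt measurable_const (hX.2 _ _))).1
  · rw [hrhs]
    exact (hK2 M r lv u m Γ hO hC hrb hΓ).trans (eE_mono (by linarith))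

end

end Pool.Agent.Lib.APPS
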