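import Pool.Agent.Lib.APPS.Blue2

/-!
Block RUG: global rooted upper bound.
-/

namespace Pool.Agent.Lib.APPS

open MeasureTheory ProbabilityTheory Filter Topology Set Metric
open scoped NNReal ENNReal RealInnerProductSpace Classical

noncomputable section

namespace RUG

theorem ind_t {p : Prop} (h : p) : ind p = 1 := if_pos h
theorem ind_f {p : Prop} (h : ¬p) : ind p = 0 := if_neg h

theorem ind_mono {p q : Prop} (h : p → q) : ind p ≤ ind q := by
  by_cases hp : p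
  · rw [ind_t hp, ind_t (h hp)]
  · rw [ind_f hp]; exact zero_le

theorem ind_le (p : Prop) : ind p ≤ 1 := (ind_mono fun _ => trivial).trans (ind_t trivial).le

theorem meas_ind {α : Type} [MeasurableSpace α] {p : α → Prop} (h : MeasurableSet {a | p a}) :
    Measurable fun a => ind (p a) :=
  Measurable.ite h measurable_const measurable_const

theorem prob_eq {p : Om → Prop} (h : MeasurableSet {a | p a}) :
    gm {ω | p ω} = ∫⁻ ω, ind (p ω) ∂gm := by
  rw [← lintegral_indicator_one h]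
  refine lintegral_congr fun ω => ?_
  by_cases hp : p ω <;> simp [ind, hp]

theorem markov {n θ : ℝ} (hn : 0 < n) (hθ : 0 ≤ θ) (N : ℝ≥0∞) :
    ind (ENNReal.ofReal n ≤ N) ≤ ENNReal.ofReal (n ^ (-θ)) * N ^ θ := by
  by_cases h : ENNReal.ofReal n ≤ N
  · refine le_trans (le_of_eq ?_) (mul_le_mul_right (ENNReal.rpow_le_rpow h hθ) _)
    rw [ENNReal.ofReal_rpow_of_pos hn, ← ENNReal.ofReal_mul (by positivity), ← Real.rpow_add hn]
    simp [ind, h]
  · simp [ind, h]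

theorem meas_addF (f : Dy → ℝ) : Measurable fun x : Dy → ℝ => addF x f :=
  measurable_pi_lambda _ fun S => by
    have h : Measurable fun x : Dy → ℝ => x S := measurable_pi_apply S
    exact h.add_const _

theorem nB_mono (hT1 : St_T1) {x y : Dy → ℝ} (h : ∀ S, x S ≤ y S) : nB x ≤ nB y :=
  hT1.2.2.2.2.2.2.2.2.2.2.2.2.2.2.2.1 x y h

theorem RS_mono (M : Model) (γ u : ℝ) (i0 : ℕ) (Γ : Dy → ℝ × Om → ℝ≥0∞) {E E' : Dy → Om → ℝ≥0∞}
    (h : ∀ R ω, E R ω ≤ E' R ω) : M.RS γ u i0 Γ E ≤ M.RS γ u i0 Γ E' :=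
  ENNReal.tsum_le_tsum fun R => mul_le_mul_right
    (lintegral_mono fun ω => mul_le_mul_right (h R ω) _) _

theorem RS_add (hT3 : St_T3) (M : Model) (γ u : ℝ) (i0 : ℕ) {Γ : Dy → ℝ × Om → ℝ≥0∞}
    (hΓ : ∀ R, Measurable (Γ R)) (E : Dy → Om → ℝ≥0∞) {E' : Dy → Om → ℝ≥0∞}
    (h : ∀ R, Measurable (E' R)) :
    M.RS γ u i0 Γ (fun R ω => E R ω + E' R ω) = M.RS γ u i0 Γ E + M.RS γ u i0 Γ E' := by
  have h1 : ∀ R, Measurable fun ω => Γ R (M.YV γ u R ω, ω) * E' R ω := fun R =>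
    ((hΓ R).comp (((hT3.2.2.2.2.2.2.2.2.2.2.1 M γ u).2 _ _).prodMk measurable_id)).mul (h R)
  simp only [Model.RS, mul_add, lintegral_add_right _ (h1 _), ENNReal.tsum_add]

theorem three {a b c : ℝ≥0∞} {n : ℝ} (hn : 0 ≤ n) (h : ENNReal.ofReal n ≤ a + b + c) :
    ENNReal.ofReal (n / 3) ≤ a ∨ ENNReal.ofReal (n / 3) ≤ b ∨ ENNReal.ofReal (n / 3) ≤ c := by
  by_contra h'
  simp only [not_or, not_le] at h'
  refine absurd h (not_le.2 ((ENNReal.add_lt_add (ENNReal.add_lt_add h'.1 h'.2.1)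
    h'.2.2).trans_le (le_of_eq ?_)))
  rw [← ENNReal.ofReal_add (by positivity) (by positivity),
    ← ENNReal.ofReal_add (by positivity) (by positivity)]
  congr 1
  ring

theorem far_le (hG : St_GEO1) (hT1 : St_T1) {c0 lam : ℝ} {z : Dy → ℂ} {f : Dy → Dy → ℝ}
    (hS : ShiftOK c0 lam z f) (M : Model) (γ u : ℝ) (ω : Om) (R : Dy) :
    far (addF (M.X γ u ω) (f R)) R ≤ far (M.X γ (u + max c0 0) ω) R := by
  refine Finset.sum_le_sum fun l hl => Finset.sum_le_sum fun V hV => nB_mono hT1 fun S => ?_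
  have h1 := (Finset.mem_filter.1 hV).2 (ctr (S ++ V))
    ((hG.2.2.2.2.1 _ _).2 (List.suffix_append S V) (hG.2.2.2.1 _).2.2.1)
  have h2 := (hG.2.2.2.1 R).2.2.2.1 _ (hS.1 R)
  have h3 : side R ≤ (1 / 2 : ℝ) ^ l :=
    pow_le_pow_of_le_one (by norm_num) (by norm_num) (Nat.lt_succ_iff.1 (Finset.mem_range.1 hl))
  have h4 := norm_sub_le_norm_sub_add_norm_sub (ctr (S ++ V)) (z R) (ctr R)
  rw [norm_sub_rev (ctr (S ++ V)) (z R)] at h4
  have h5 := (hG.1 R).1
  have h6 : ins (side R) (z R) (S ++ V) = 0 := by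
    have h7 : side R ≤ max ‖z R - ctr (S ++ V)‖ (side (S ++ V)) :=
      le_max_of_le_left (by linarith [h1.1])
    rw [ins, Real.posLog_eq_zero_iff, abs_of_nonneg (div_nonneg h5.le (h5.le.trans h7))]
    exact (div_le_one (h5.trans_le h7)).2 h7
  have h8 := hS.2 R (S ++ V)
  rw [h6] at h8
  simp only [sub, addF, Model.X, drift]
  linarith [le_max_left c0 0]

theorem rootW_shift {M : Model} {γ κ r v c : ℝ} {i0 : ℕ} {Γ : Dy → ℝ × Om → ℝ≥0∞}
    (h : RootW M γ κ r i0 v Γ) (hγ : 0 ≤ γ) (hκ : 0 ≤ κ) (hr : 0 ≤ r) (hv : 0 ≤ v) (hc : 0 ≤ c) :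
    RootW M γ κ r i0 (v * Real.exp (κ * c)) fun R p => Γ R (p.1 - c, p.2) := by
  refine ⟨fun R => (h.meas R).comp ((measurable_fst.sub_const c).prodMk measurable_snd),
    fun R y i h1 h2 => h.inv R (y - c) i h1 h2, fun R y => (h.bd R (y - c)).trans
      (ENNReal.rpow_le_rpow (ENNReal.ofReal_le_ofReal ?_) hr)⟩
  rw [mul_assoc, ← Real.exp_add]
  refine mul_le_mul_of_nonneg_left (Real.exp_le_exp.2 ?_) hv
  have h1 : |y| ≤ |y - c| + c := by
    have := abs_add_le (y - c) c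
    rwa [sub_add_cancel, abs_of_nonneg hc] at this
  nlinarith [mul_le_mul_of_nonneg_left h1 hκ, mul_nonneg hγ hc]

theorem log_le (p b : ℝ) (hp : 0 ≤ p) (hb : 0 < b) :
    ∃ K : ℝ, ∀ x : ℝ, 0 < x → p * Real.log x ≤ b * x + K := by
  refine ⟨-p * Real.log (b / (p + 1)), fun x hx => ?_⟩
  have h0 : 0 < b / (p + 1) := by positivity
  have h1 := Real.log_le_sub_one_of_pos (mul_pos h0 hx)
  rw [Real.log_mul h0.ne' hx.ne'] at h1
  have h2 : p * (b / (p + 1) * x) ≤ b * x := by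
    rw [← mul_assoc]
    refine mul_le_mul_of_nonneg_right ?_ hx.le
    rw [← mul_div_assoc, div_le_iff₀ (by positivity)]
    nlinarith
  nlinarith [mul_le_mul_of_nonneg_left h1 hp]

theorem len_bd (hG : St_GEO1) (hR : St_RW1) (hR2 : St_RW2) (hTL : St_TL) {γ : ℝ}
    (hγ : γ ∈ Ioo (0 : ℝ) 2) {κ : ℝ} (hκ : 0 < κ) (C1 : ℝ) (i0 : ℕ) :
    ∃ K ≥ (0 : ℝ), ∀ (M : Model) (v u n r : ℝ) (Γ : Dy → ℝ × Om → ℝ≥0∞), M.Ok i0 → M.C0 ≤ C1 →
      1 ≤ r → 0 ≤ v → RootW M γ κ r i0 v Γ → 0 ≤ u → Real.exp (γ * u) ≤ n →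
      M.RS γ u i0 Γ (fun R _ => ind (ENNReal.ofReal (n / 3) ≤ 289 * (R.length + 1))) ≤
        ENNReal.ofReal (K * v * Real.exp (γ * u) * (Real.exp (γ * u) / n) ^ th γ) := by
  obtain ⟨ha, hQ, hθ, -, -, -⟩ := hR.2.2 γ hγ
  have hγ0 := hγ.1
  obtain ⟨c, hc, C, hC⟩ := (hR2 (aa γ) ha κ hκ).2
  obtain ⟨K0, hK0⟩ := log_le (c / γ + th γ) (c ^ 2 / 867) (by positivity) (by positivity)
  refine ⟨16 * Real.exp (γ ^ 2 * C1 / 2) *
    (|C| * Real.exp (c * (QQ γ * C1) + c ^ 2 * (i0 + 4) + K0)), by positivity,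
    fun M v u n r Γ hOk hC1 hr hv hΓ hu hn => ?_⟩
  have hn0 : 0 < n := (Real.exp_pos _).trans_le hn
  set k := ⌊n / 867⌋₊ - (i0 + 3) with hk
  have hb := hTL.2.1 M i0 hOk (ctr []) (hG.2.2.2.1 []).2.2.1
  have h1 := hTL.1 γ hγ M i0 κ r v u Γ (fun j _ => ind (k ≤ j)) _ hOk hr hv hΓ
    ⟨fun _ => measurable_const, fun _ _ _ _ => rfl⟩ hb
  have h2 := (hC _ _ (u + γ * M.C0 - aa γ * i0 * l2) 0 hOk.2 hb).2.1 k
  refine (RS_mono M γ u i0 Γ fun R ω => ind_mono fun h => ?_).trans (h1.trans ?_)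
  · have h3 : n / 3 ≤ 289 * ((R.length : ℝ) + 1) := by
      refine (ENNReal.ofReal_le_ofReal_iff (by positivity)).1 (h.trans (le_of_eq ?_))
      rw [ENNReal.ofReal_mul (by norm_num), ENNReal.ofReal_add (by positivity) zero_le_one]
      simp
    have h4 : ⌊n / 867⌋₊ ≤ R.length + 1 := Nat.floor_le_of_le (by push_cast; linarith)
    omega
  simp only [mul_comm _ (ind _),
    lintegral_const_mul' _ _ ((ind_le _).trans_lt ENNReal.one_lt_top).ne]
  refine (mul_le_mul_right h2 _).trans ?_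
  rw [← ENNReal.ofReal_mul (by positivity)]
  refine ENNReal.ofReal_le_ofReal ?_
  have h3 : n / 867 - (i0 + 4) ≤ k := by
    have h4 := Nat.lt_floor_add_one (n / 867)
    have h5 : ((⌊n / 867⌋₊ : ℕ) : ℝ) ≤ (k + (i0 + 3) : ℕ) := by norm_cast; omega
    push_cast at h5
    linarith
  have h4 : γ * u ≤ Real.log n := (Real.le_log_iff_exp_le hn0).2 hn
  have h5 : c * u ≤ c / γ * Real.log n := by
    rw [div_mul_eq_mul_div, le_div_iff₀ hγ0]
    nlinarith
  have h6 := hK0 n hn0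
  have h7 : Real.exp (-(th γ * Real.log n)) ≤ (Real.exp (γ * u) / n) ^ th γ := by
    rw [Real.rpow_def_of_pos (by positivity), Real.log_div (Real.exp_pos _).ne' hn0.ne',
      Real.log_exp]
    exact Real.exp_le_exp.2 (by nlinarith [mul_nonneg (mul_nonneg hγ0.le hu) hθ.le])
  have h8 : c * (u + γ * M.C0 - aa γ * i0 * l2 + aa γ * (M.C0 + i0 * l2)) - c ^ 2 * k ≤
      c * (QQ γ * C1) + c ^ 2 * (i0 + 4) + K0 + -(th γ * Real.log n) := by
    have h9 : u + γ * M.C0 - aa γ * i0 * l2 + aa γ * (M.C0 + i0 * l2) = u + QQ γ * M.C0 := by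
      unfold aa; ring
    have h10 : c * (QQ γ * M.C0) ≤ c * (QQ γ * C1) := by gcongr
    have h11 := mul_le_mul_of_nonneg_left h3 (sq_nonneg c)
    rw [h9]
    nlinarith
  calc _ ≤ 16 * v * Real.exp (γ * u + γ ^ 2 * C1 / 2) * (|C| *
        Real.exp (c * (QQ γ * C1) + c ^ 2 * (i0 + 4) + K0 + -(th γ * Real.log n))) := by
        refine (mul_le_mul_of_nonneg_left
          (mul_le_mul_of_nonneg_right (le_abs_self C) (Real.exp_pos _).le) (by positivity)).trans ?_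
        gcongr
    _ ≤ 16 * v * Real.exp (γ * u + γ ^ 2 * C1 / 2) * (|C| *
        (Real.exp (c * (QQ γ * C1) + c ^ 2 * (i0 + 4) + K0) * (Real.exp (γ * u) / n) ^ th γ)) := by
        rw [Real.exp_add (_ + K0)]
        gcongr
    _ = _ := by rw [Real.exp_add (γ * u)]; ring

theorem part1 (hG : St_GEO1) (hG2 : St_GEO2) (hT1 : St_T1) (hT3 : St_T3) (hR : St_RW1)
    (hR2 : St_RW2) (hTL : St_TL) (hF : St_RUF) (hN : St_RUN) {γ : ℝ} (hγ : γ ∈ Ioo (0 : ℝ) 2)
    (κ lam : ℝ) (hκ : 0 < κ) (hl0 : 0 ≤ lam) (hl : lam < γ) : ∃ r0 : ℝ, 1 ≤ r0 ∧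
    ∀ (c0 C1 : ℝ) (i0 : ℕ), ∃ K : ℝ, ∀ (M : Model) (v u n : ℝ) (Γ : Dy → ℝ × Om → ℝ≥0∞) z f,
      M.Ok i0 → M.C0 ≤ C1 → 0 ≤ v → RootW M γ κ r0 i0 v Γ → ShiftOK c0 lam z f → 0 ≤ u → 1 ≤ n →
      M.RS γ u i0 Γ (fun R ω => ind (ENNReal.ofReal n ≤ nB (addF (M.X γ u ω) (f R)))) ≤
        ENNReal.ofReal (K * v * Real.exp (γ * u) * (Real.exp (γ * u) / n) ^ th γ) := by
  obtain ⟨rF, εF, hrF, -, hF⟩ := hF γ hγ
  obtain ⟨rN, εN, -, hεN, hN⟩ := hN γ hγ κ lam hκ hl0 hl
  have hθ := (hR.2.2 γ hγ).2.2.1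
  have hγ0 := hγ.1
  have hr : 1 ≤ max rF rN := le_max_of_le_left hrF
  refine ⟨max rF rN, hr, fun c0 C1 i0 => ?_⟩
  obtain ⟨KF, hKF⟩ := hF κ hκ C1 i0
  obtain ⟨KN, hKN⟩ := hN c0 C1
  obtain ⟨KL, hKL0, hKL⟩ := len_bd hG hR hR2 hTL hγ hκ C1 i0
  set c := max c0 0 with hc
  have hc0 : 0 ≤ c := le_max_right _ _
  refine ⟨KL + |KF| * Real.exp (κ * c) * Real.exp (γ * c) * (3 * Real.exp (γ * c)) ^ th γ +
    |KN| * 3 ^ th γ, fun M v u n Γ z f hOk hC hv hΓ hS hu hn => ?_⟩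
  have hn0 : 0 < n := by linarith
  have hX := fun u => (hT3.2.2.2.2.2.2.2.2.2.2.1 M γ u).1
  set W := v * Real.exp (γ * u) * (Real.exp (γ * u) / n) ^ th γ with hW
  have hW0 : 0 ≤ W := by positivity
  have e1 := Real.one_le_exp (mul_nonneg hκ.le hc0)
  have e2 := Real.one_le_exp (mul_nonneg hγ0.le hc0)
  have e3 := Real.one_le_exp (mul_nonneg hγ0.le hu)
  by_cases hcase : Real.exp (γ * u) ≤ n / 3
  swap
  · refine (RS_mono M γ u i0 Γ fun R ω => ind_le _).trans ((hKF M v u n _ Γ hOk hC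
      (le_max_left _ _) hv hΓ hn0).1.trans (ENNReal.ofReal_le_ofReal ?_))
    have h1 : 1 ≤ (3 * Real.exp (γ * c)) ^ th γ * (Real.exp (γ * u) / n) ^ th γ := by
      rw [← Real.mul_rpow (by positivity) (by positivity)]
      refine Real.one_le_rpow ?_ hθ.le
      rw [← mul_div_assoc, le_div_iff₀ hn0]
      nlinarith [not_le.1 hcase]
    calc _ ≤ |KF| * 1 * 1 * 1 * (v * Real.exp (γ * u)) := by
          rw [mul_assoc KF, mul_one, mul_one, mul_one]
          gcongr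
          exact le_abs_self _
      _ ≤ |KF| * Real.exp (κ * c) * Real.exp (γ * c) * ((3 * Real.exp (γ * c)) ^ th γ *
          (Real.exp (γ * u) / n) ^ th γ) * (v * Real.exp (γ * u)) := by gcongr
      _ = |KF| * Real.exp (κ * c) * Real.exp (γ * c) * (3 * Real.exp (γ * c)) ^ th γ * W := by
          rw [hW]; ring
      _ ≤ (KL + |KF| * Real.exp (κ * c) * Real.exp (γ * c) * (3 * Real.exp (γ * c)) ^ th γ +
          |KN| * 3 ^ th γ) * W := by
          gcongr
          have : 0 ≤ |KN| * 3 ^ th γ := by positivity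
          linarith
      _ = _ := by rw [hW]; ring
  have h1 := hKL M v u n _ Γ hOk hC hr hv hΓ hu (by linarith)
  have h2 := (hKF M _ (u + c) (n / 3) _ _ hOk hC (le_max_left _ _) (by positivity)
    (rootW_shift hΓ hγ0.le hκ.le (by linarith) hv hc0) (by positivity)).2.1
  have h3 := hKN M i0 v u (n / 3) _ Γ z f hOk hC (le_max_right _ _) hv hΓ hS hu hcase
  have h4 : ∀ R ω, M.YV γ (u + c) R ω - c = M.YV γ u R ω := fun R ω => by
    simp only [Model.YV, Model.Y]; ring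
  simp only [Model.RS, h4] at h2
  have m1 : ∀ R, Measurable fun ω => ind (ENNReal.ofReal (n / 3) ≤ far (M.X γ (u + c) ω) R) :=
    fun R => meas_ind (measurableSet_le measurable_const
      ((hT3.2.2.2.2.2.2.2.2.2.1 R).1.comp (hX _)))
  have m2 : ∀ R, Measurable fun ω =>
      ind (ENNReal.ofReal (n / 3) ≤ near (addF (M.X γ u ω) (f R)) R) :=
    fun R => meas_ind (measurableSet_le measurable_const
      ((hT3.2.2.2.2.2.2.2.2.2.1 R).2.1.comp ((meas_addF _).comp (hX _))))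
  refine (RS_mono M γ u i0 Γ (E' := fun R ω => ind (ENNReal.ofReal (n / 3) ≤ 289 * (R.length + 1)) +
    ind (ENNReal.ofReal (n / 3) ≤ far (M.X γ (u + c) ω) R) +
    ind (ENNReal.ofReal (n / 3) ≤ near (addF (M.X γ u ω) (f R)) R)) fun R ω => ?_).trans ?_
  · by_cases h : ENNReal.ofReal n ≤ nB (addF (M.X γ u ω) (f R))
    · rw [ind_t h]
      rcases three hn0.le (h.trans (hG2.1 _ R)) with h' | h' | h'
      · exact (ind_t h').ge.trans (le_self_add.trans le_self_add)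
      · exact (ind_t (h'.trans (far_le hG hT1 hS M γ u ω R))).ge.trans
          (le_add_self.trans le_self_add)
      · exact (ind_t h').ge.trans le_add_self
    · rw [ind_f h]; exact zero_le
  rw [RS_add hT3 M γ u i0 hΓ.meas _ m2, RS_add hT3 M γ u i0 hΓ.meas _ m1]
  have q2 : KF * (v * Real.exp (κ * c)) * Real.exp (γ * (u + c)) *
      (Real.exp (γ * (u + c)) / (n / 3)) ^ th γ ≤
      |KF| * Real.exp (κ * c) * Real.exp (γ * c) * (3 * Real.exp (γ * c)) ^ th γ * W := by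
    rw [mul_add γ, Real.exp_add, show Real.exp (γ * u) * Real.exp (γ * c) / (n / 3) =
      3 * Real.exp (γ * c) * (Real.exp (γ * u) / n) by field_simp,
      Real.mul_rpow (by positivity) (by positivity), mul_assoc KF, mul_assoc KF]
    refine (mul_le_mul_of_nonneg_right (le_abs_self _) (by positivity)).trans (le_of_eq ?_)
    rw [hW]; ring
  have q3 : KN * v * Real.exp (γ * u) * (Real.exp (γ * u) / (n / 3)) ^ th γ * (n / 3) ^ (-εN) ≤
      |KN| * 3 ^ th γ * W := by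
    rw [show Real.exp (γ * u) / (n / 3) = 3 * (Real.exp (γ * u) / n) by field_simp,
      Real.mul_rpow (by positivity) (by positivity), mul_assoc KN, mul_assoc KN, mul_assoc KN]
    refine (mul_le_mul_of_nonneg_right (le_abs_self _) (by positivity)).trans ?_
    have := Real.rpow_le_one_of_one_le_of_nonpos (e3.trans hcase) (neg_nonpos.2 hεN.le)
    calc _ ≤ |KN| * (v * Real.exp (γ * u) * (3 ^ th γ * (Real.exp (γ * u) / n) ^ th γ) * 1) := by
          gcongr
      _ = _ := by rw [hW]; ring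
  refine (add_le_add (add_le_add h1 (h2.trans (ENNReal.ofReal_le_ofReal q2)))
    (h3.trans (ENNReal.ofReal_le_ofReal q3))).trans (le_of_eq ?_)
  rw [← ENNReal.ofReal_add (by positivity) (by positivity),
    ← ENNReal.ofReal_add (by positivity) (by positivity), hW]
  congr 1
  ring

theorem short1 (hMOD : St_MOD) (hG : St_GEO1) (hT3 : St_T3) (hR : St_RW1) (hMB : St_MB) {γ : ℝ}
    (hγ : γ ∈ Ioo (0 : ℝ) 2) (M : Model) (hM : box [] ⊆ M.O) (u : ℝ) (V : Dy) {δ : ℝ}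
    (hδ : 0 < δ) : Tendsto (fun n : ℝ => ENNReal.ofReal (n ^ th γ) *
      gm {ω | ENNReal.ofReal (δ * n) ≤ nB (sub (M.X γ u ω) V)}) atTop (𝓝 0) := by
  have hθ := (hR.2.2 γ hγ).2.2.1
  obtain ⟨K, hK⟩ := hMB γ hγ (th γ + 1 / 2) (by positivity) (by unfold th; linarith)
  have h1 := hK _ _ ((hMOD M).2.2.2.2.2.2.1 V (((hG.2.2.2.2.1 V []).2 List.nil_suffix).trans hM))
    (u - QQ γ * V.length * l2)
  have h2 : ∀ ω : Om, drift (QQ γ) (fun S => ω (M.eS (S ++ V))) (u - QQ γ * V.length * l2) =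
      sub (M.X γ u ω) V := fun ω => by
    funext S
    simp only [drift, sub, Model.X, List.length_append, Nat.cast_add]
    ring
  simp only [h2] at h1
  generalize K * Real.exp _ = K' at h1
  have h3 : Tendsto (fun n : ℝ => ENNReal.ofReal (δ ^ (-(th γ + 1 / 2)) * K' * n ^ (-(1 / 2 : ℝ))))
      atTop (𝓝 0) := by
    have := ENNReal.tendsto_ofReal ((tendsto_rpow_neg_atTop (y := 1 / 2) (by norm_num)).const_mul
      (δ ^ (-(th γ + 1 / 2)) * K'))
    simpa using this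
  refine tendsto_of_tendsto_of_tendsto_of_le_of_le' tendsto_const_nhds h3
    (Eventually.of_forall fun _ => zero_le) ?_
  filter_upwards [eventually_gt_atTop 0] with n hn
  rw [prob_eq (p := fun ω => ENNReal.ofReal (δ * n) ≤ nB (sub (M.X γ u ω) V))
    (measurableSet_le measurable_const (hT3.1.comp ((hT3.2.2.2.2.1 V).comp
    (hT3.2.2.2.2.2.2.2.2.2.2.1 M γ u).1)))]
  refine (mul_le_mul_right (lintegral_mono fun ω => markov (θ := th γ + 1 / 2) (mul_pos hδ hn)
    (by positivity) _) _).trans ?_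
  rw [lintegral_const_mul' _ _ ENNReal.ofReal_ne_top]
  refine (mul_le_mul_right (mul_le_mul_right h1 _) _).trans (le_of_eq ?_)
  rw [← ENNReal.ofReal_mul (by positivity), ← ENNReal.ofReal_mul (by positivity),
    Real.mul_rpow hδ.le hn.le, show -(1 / 2 : ℝ) = th γ + -(th γ + 1 / 2) by ring,
    Real.rpow_add hn]
  congr 1
  ring

theorem half {a : ℝ≥0∞} {t L : ℝ} {l : ℕ} (hL : (l : ℝ) + 1 ≤ L) (ht : 289 * L < t / 2)
    (h : ENNReal.ofReal t ≤ a + 289 * (l + 1)) : ENNReal.ofReal (t / 2) < a := by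
  by_contra h'
  have h0 : (0 : ℝ) ≤ 289 * (l + 1) := by positivity
  have h1 : (289 * (l + 1) : ℝ≥0∞) = ENNReal.ofReal (289 * (l + 1)) := by
    rw [ENNReal.ofReal_mul (by norm_num), ENNReal.ofReal_add (by positivity) zero_le_one]
    simp
  have h2 := h.trans (add_le_add_left (not_lt.1 h') _)
  rw [h1, ← ENNReal.ofReal_add (by linarith) h0,
    ENNReal.ofReal_le_ofReal_iff (by linarith)] at h2
  linarith

theorem short2 (hMOD : St_MOD) (hG : St_GEO1) (hT3 : St_T3) (hR : St_RW1) (hMB : St_MB) {γ : ℝ}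
    (hγ : γ ∈ Ioo (0 : ℝ) 2) (M : Model) (hM : box [] ⊆ M.O) (u : ℝ) (R : Dy) {δ : ℝ}
    (hδ : 0 < δ) : Tendsto (fun n : ℝ => ENNReal.ofReal (n ^ th γ) * (((R.length : ℝ≥0∞) + 1) *
      gm {ω | 0 < M.X γ u ω R ∧ ENNReal.ofReal (δ * n) ≤ NN (M.X γ u ω) R})) atTop (𝓝 0) := by
  set s := (lev R.length).filter fun V => ‖ctr V - ctr R‖ ≤ 9 * side R with hs
  have h1 := ENNReal.Tendsto.const_mul (a := (R.length : ℝ≥0∞) + 1) (tendsto_finsetSum s
    fun V _ => short1 hMOD hG hT3 hR hMB hγ M hM u V (δ := δ / 2 / (s.card + 1)) (by positivity))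
    (Or.inr (by finiteness))
  simp only [Finset.sum_const_zero, mul_zero] at h1
  refine tendsto_of_tendsto_of_tendsto_of_le_of_le' tendsto_const_nhds h1
    (Eventually.of_forall fun _ => zero_le) ?_
  filter_upwards [eventually_gt_atTop (289 * ((R.length : ℝ) + 1) * 2 / δ)] with n hn
  rw [div_lt_iff₀ hδ] at hn
  have hn0 : 0 < n := by
    by_contra h
    have : (0 : ℝ) < 289 * ((R.length : ℝ) + 1) * 2 := by positivity
    nlinarith [not_lt.1 h]
  rw [mul_left_comm, ← Finset.mul_sum]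
  refine mul_le_mul_right (mul_le_mul_right (le_trans (measure_mono fun ω hω => ?_)
    (measure_biUnion_finset_le s _)) _) _
  have h2 := half le_rfl (by linarith) hω.2
  by_contra h
  simp only [mem_iUnion, mem_ofPred_eq, not_exists, not_le] at h
  refine absurd h2 (not_lt.2 ((Finset.sum_le_card_nsmul s _ _ fun V hV => (h V hV).le).trans ?_))
  rw [nsmul_eq_mul, ← ENNReal.ofReal_natCast, ← ENNReal.ofReal_mul (by positivity)]
  refine ENNReal.ofReal_le_ofReal ?_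
  calc _ ≤ ((s.card : ℝ) + 1) * (δ / 2 / (s.card + 1) * n) := by gcongr; linarith
    _ = _ := by field_simp

theorem long (hMOD : St_MOD) (hE : St_EXP2) (hFM : St_FM) {γ : ℝ}
    (hγ : γ ∈ Ioo (0 : ℝ) 2) (M : Model) (hM : box [] ⊆ M.O) (u : ℝ) {β : ℝ} (hβ : 0 < β) :
    Tendsto (fun n : ℝ => ENNReal.ofReal (n ^ th γ) * ∑' R : Dy, ∑' j : ℕ,
      ind (max j ⌊n ^ β⌋₊ ≤ R.length) * gm {ω | 0 < M.X γ u ω R}) atTop (𝓝 0) := by
  obtain ⟨K, c, hc, hK⟩ := (hFM γ hγ).1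
  have h1 := (hK (max (M.C0 + kS [] []) 0) (le_max_right _ _) M.eS (fun S => by
    have h2 := (hMOD M).2.2.2.2.2.2.1 [] hM S S
    have h3 := hE.2.1 [] [] S
    simp only [List.append_nil, List.nil_append, covE, List.length_nil, Nat.cast_zero, zero_mul,
      add_zero] at h2 h3
    rw [← real_inner_self_eq_norm_sq, h2, h3]
    linarith [le_max_left (M.C0 + kS [] []) 0]) u).2
  generalize QQ γ ^ 2 * max (M.C0 + kS [] []) 0 / 2 = B at h1
  set K' := |K| * Real.exp (QQ γ * u + B + c / 2) * (1 - Real.exp (-(c / 2)))⁻¹ with hK'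
  have h3 : Tendsto (fun n : ℝ => ENNReal.ofReal (K' * ((n ^ β) ^ (th γ / β) *
      Real.exp (-(c / 2) * n ^ β)))) atTop (𝓝 0) := by
    have := ENNReal.tendsto_ofReal (((tendsto_rpow_mul_exp_neg_mul_atTop_nhds_zero (th γ / β)
      (c / 2) (by positivity)).comp (tendsto_rpow_atTop hβ)).const_mul K')
    simpa using this
  refine tendsto_of_tendsto_of_tendsto_of_le_of_le' tendsto_const_nhds h3
    (Eventually.of_forall fun _ => zero_le) ?_
  filter_upwards [eventually_gt_atTop 0] with n hn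
  have hq0 := (Real.exp_pos (-(c / 2))).le
  have hq1 : Real.exp (-(c / 2)) < 1 := Real.exp_lt_one_iff.2 (by linarith)
  rw [ENNReal.tsum_comm]
  refine (mul_le_mul_right (ENNReal.tsum_le_tsum (g := fun j : ℕ => ENNReal.ofReal
    (|K| * Real.exp (QQ γ * u + B + c / 2) * Real.exp (-(c / 2) * n ^ β) *
      Real.exp (-(c / 2)) ^ j)) fun j => (h1 _).trans (ENNReal.ofReal_le_ofReal ?_)) _).trans
    (le_of_eq ?_)
  · rw [← Real.exp_nat_mul, mul_assoc, mul_assoc, ← Real.exp_add, ← Real.exp_add]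
    refine mul_le_mul (le_abs_self _) (Real.exp_le_exp.2 ?_) (Real.exp_pos _).le (abs_nonneg _)
    have a1 : (j : ℝ) ≤ (max j ⌊n ^ β⌋₊ : ℕ) := by exact_mod_cast le_max_left _ _
    have a2 : (⌊n ^ β⌋₊ : ℝ) ≤ (max j ⌊n ^ β⌋₊ : ℕ) := by exact_mod_cast le_max_right _ _
    have a3 := Nat.lt_floor_add_one (n ^ β)
    nlinarith
  · rw [← ENNReal.ofReal_tsum_of_nonneg (fun _ => by positivity)
      ((summable_geometric_of_lt_one hq0 hq1).mul_left _), tsum_mul_left,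
      tsum_geometric_of_lt_one hq0 hq1, ← ENNReal.ofReal_mul (by positivity),
      ← Real.rpow_mul hn.le, mul_div_cancel₀ _ hβ.ne', hK']
    congr 1
    ring

theorem part2 (hMOD : St_MOD) (hE : St_EXP2) (hG : St_GEO1) (hT1 : St_T1) (hT3 : St_T3)
    (hR : St_RW1) (hFM : St_FM) (hMB : St_MB) (hTL : St_TL) (hN : St_RUN) {γ : ℝ}
    (hγ : γ ∈ Ioo (0 : ℝ) 2) (M : Model) (hM : box [] ⊆ M.O) {u δ : ℝ} (hu : 0 ≤ u) (hδ : 0 < δ) :
    Tendsto (fun n : ℝ => ENNReal.ofReal (n ^ th γ) * ∑' R : Dy, ((R.length : ℝ≥0∞) + 1) *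
      gm {ω | 0 < M.X γ u ω R ∧ ENNReal.ofReal (δ * n) ≤ NN (M.X γ u ω) R}) atTop (𝓝 0) := by
  obtain ⟨i0, hi0⟩ := (hMOD M).2.2.2.2.2.2.2.2.2.2.2.2.2.2.1 hM
  have hOk := hi0 i0 le_rfl
  obtain ⟨r0, ε, hr0, hε, hN⟩ := hN γ hγ γ 0 hγ.1 le_rfl hγ.1
  obtain ⟨K, hK⟩ := hN 0 M.C0
  obtain ⟨v, hv, hΓ⟩ := hTL.2.2.2.2 γ hγ γ r0 0 le_rfl hr0
  obtain ⟨Γ, hΓ1, hΓ2⟩ := hΓ M i0 hOk
  have hX := (hT3.2.2.2.2.2.2.2.2.2.2.1 M γ u).1
  set β := min (ε / 2) (1 / 2) with hβ
  have hβ0 : 0 < β := by positivity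
  set U := (Finset.range (i0 + 4)).biUnion lev with hU
  have t1 := tendsto_finsetSum U fun R _ => short2 hMOD hG hT3 hR hMB hγ M hM u R hδ
  have t3 := long hMOD hE hFM hγ M hM u hβ0
  set K' := K * v * Real.exp (γ * u) * (Real.exp (γ * u) / (δ / 2)) ^ th γ * (δ / 2) ^ (-ε)
    with hK'
  have t2 : Tendsto (fun n : ℝ => ENNReal.ofReal (K' * n ^ (-(ε - β)))) atTop (𝓝 0) := by
    have := ENNReal.tendsto_ofReal ((tendsto_rpow_neg_atTop (y := ε - β)
      (by linarith [min_le_left (ε / 2) (1 / 2)])).const_mul K')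
    simpa using this
  have t4 := (t1.add t2).add t3
  simp only [Finset.sum_const_zero, add_zero] at t4
  refine tendsto_of_tendsto_of_tendsto_of_le_of_le' tendsto_const_nhds t4
    (Eventually.of_forall fun _ => zero_le) ?_
  filter_upwards [eventually_ge_atTop 1, eventually_ge_atTop (Real.exp (γ * u) / (δ / 2)),
    (tendsto_rpow_atTop (y := 1 / 2) (by norm_num)).eventually_gt_atTop (289 * 2 / δ)]
    with n n1 n2 n3
  have hn : 0 < n := by linarith
  have n4 : 289 * n ^ β < δ * n / 2 := by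
    have a1 : n ^ β ≤ n ^ (1 / 2 : ℝ) := Real.rpow_le_rpow_of_exponent_le n1 (min_le_right _ _)
    have a2 : n ^ (1 / 2 : ℝ) * n ^ (1 / 2 : ℝ) = n := by rw [← Real.rpow_add hn]; norm_num
    have a3 : 0 < n ^ (1 / 2 : ℝ) := by positivity
    rw [div_lt_iff₀ hδ] at n3
    nlinarith
  have h1 := hK M i0 v u (δ / 2 * n) r0 Γ ctr (fun _ _ => 0) hOk le_rfl le_rfl hv hΓ1
    ⟨fun R => (hG.2.2.2.1 R).2.2.1, fun _ _ => by simp⟩ hu
    (by rwa [div_le_iff₀ (by positivity), mul_comm n] at n2)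
  have e0 : ∀ x : Dy → ℝ, addF x (fun _ => 0) = x := fun x => by funext A; simp [addF]
  simp only [e0] at h1
  calc _ ≤ ENNReal.ofReal (n ^ th γ) * ∑' R : Dy, (ind (R ∈ U) * (((R.length : ℝ≥0∞) + 1) *
        gm {ω | 0 < M.X γ u ω R ∧ ENNReal.ofReal (δ * n) ≤ NN (M.X γ u ω) R}) +
        ENNReal.ofReal (n ^ β) * (ind (i0 + 4 ≤ R.length) * ∫⁻ ω, Γ R (M.YV γ u R ω, ω) *
          ind (ENNReal.ofReal (δ / 2 * n) ≤ near (M.X γ u ω) R) ∂gm) +
        ∑' j : ℕ, ind (max j ⌊n ^ β⌋₊ ≤ R.length) * gm {ω | 0 < M.X γ u ω R}) := by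
        refine mul_le_mul_right (ENNReal.tsum_le_tsum fun R => ?_) _
        by_cases c1 : R.length < i0 + 4
        · rw [ind_t (Finset.mem_biUnion.2 ⟨_, Finset.mem_range.2 c1, (hT1.1 _ _).2 rfl⟩), one_mul]
          exact le_self_add.trans le_self_add
        by_cases c2 : (R.length : ℝ) + 1 ≤ n ^ β
        · refine le_trans ?_ (le_add_self.trans le_self_add)
          rw [ind_t (not_lt.1 c1), one_mul]
          refine mul_le_mul' ?_ ?_
          · refine le_trans (le_of_eq ?_) (ENNReal.ofReal_le_ofReal c2)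
            rw [ENNReal.ofReal_add (by positivity) zero_le_one]
            simp
          · refine (measure_mono (t := {ω | 0 < M.X γ u ω R ∧
              ENNReal.ofReal (δ / 2 * n) ≤ near (M.X γ u ω) R}) fun ω hω => ⟨hω.1, ?_⟩).trans ?_
            · rw [show δ / 2 * n = δ * n / 2 by ring]
              exact (half c2 n4 hω.2).le
            rw [prob_eq (p := fun ω => 0 < M.X γ u ω R ∧
              ENNReal.ofReal (δ / 2 * n) ≤ near (M.X γ u ω) R) ((measurableSet_lt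
              measurable_const ((measurable_pi_apply R).comp hX)).inter (measurableSet_le
              measurable_const ((hT3.2.2.2.2.2.2.2.2.2.1 R).2.1.comp hX)))]
            refine lintegral_mono fun ω => ?_
            rw [hΓ2 R u ω (by omega), add_zero]
            by_cases c3 : 0 < M.X γ u ω R
            · rw [ind_t c3, one_mul]
              exact ind_mono fun h => h.2
            · rw [ind_f fun h => c3 h.1]
              exact zero_le
        · refine le_trans ?_ le_add_self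
          rw [ENNReal.tsum_mul_right]
          refine mul_le_mul' ?_ (measure_mono fun ω hω => hω.1)
          have a1 : ⌊n ^ β⌋₊ ≤ R.length := Nat.lt_succ_iff.1 ((Nat.floor_lt (by positivity)).2
            (by push_cast; exact not_le.1 c2))
          refine le_trans (le_of_eq ?_) (ENNReal.sum_le_tsum (Finset.range (R.length + 1)))
          rw [Finset.sum_congr rfl fun j hj => ind_t (max_le
            (Nat.lt_succ_iff.1 (Finset.mem_range.1 hj)) a1)]
          simp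
    _ ≤ _ := by
        rw [ENNReal.tsum_add, ENNReal.tsum_add, mul_add, mul_add, ENNReal.tsum_mul_left,
          tsum_eq_sum (s := U) fun R hR' => by rw [ind_f hR', zero_mul], Finset.mul_sum]
        refine add_le_add_left (add_le_add (Finset.sum_le_sum fun R _ => mul_le_mul_right
          (mul_le_of_le_one_left' (ind_le _)) _)
          ((mul_le_mul_right (mul_le_mul_right h1 _) _).trans (le_of_eq ?_))) _
        rw [← ENNReal.ofReal_mul (by positivity), ← ENNReal.ofReal_mul (by positivity), hK',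
          ← div_div (Real.exp _), Real.div_rpow (by positivity) hn.le,
          Real.mul_rpow (by positivity) hn.le, neg_sub, Real.rpow_sub hn, Real.rpow_neg hn.le]
        congr 1
        field_simp

end RUG

open RUG in
theorem blk_RUG (_hG1 : St_G1) (_hD : St_G1D) (_hG3 : St_G3) (_hM0 : St_M0) (hMOD : St_MOD)
    (hE : St_EXP2) (hG : St_GEO1) (hG2 : St_GEO2) (hT1 : St_T1) (hT3 : St_T3) (hR : St_RW1)
    (hR2 : St_RW2) (hFM : St_FM) (hMB : St_MB) (hTL : St_TL) (hF : St_RUF) (hN : St_RUN) :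
    St_RUG := by
  intro γ hγ
  refine ⟨part1 hG hG2 hT1 hT3 hR hR2 hTL hF hN hγ, fun M hM u δ η hδ hη => ?_⟩
  filter_upwards [ENNReal.tendsto_nhds_zero.1 (part2 hMOD hE hG hT1 hT3 hR hFM hMB hTL hN hγ M hM
    (le_max_right u 0) hδ) _ (ENNReal.ofReal_pos.2 hη)] with n hn
  refine le_trans (mul_le_mul_right (ENNReal.tsum_le_tsum fun R => mul_le_mul_right
    (measure_mono fun ω hω => ?_) _) _) hn
  have h : ∀ S, M.X γ u ω S ≤ M.X γ (max u 0) ω S := fun S => by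
    simp only [Model.X, drift]
    linarith [le_max_left u 0]
  exact ⟨hω.1.trans_le (h R), hω.2.trans (add_le_add_left
    (Finset.sum_le_sum fun V _ => nB_mono hT1 fun S => h _) _)⟩

end

end Pool.Agent.Lib.APPS
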