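import Pool.Agent.Lib.APPS.Blue2

/-!
Block RUL: moment bound for the annuli seen from low radial values.
-/

namespace Pool.Agent.Lib.APPS

open MeasureTheory ProbabilityTheory Filter Topology Set Metric
open scoped NNReal ENNReal RealInnerProductSpace

noncomputable section

theorem rul_eE_add (s t : ℝ) : eE (s + t) = eE s * eE t := by
  rw [eE, eE, eE, Real.exp_add, ENNReal.ofReal_mul (Real.exp_pos _).le]

theorem rul_eE_mono {s t : ℝ} (h : s ≤ t) : eE s ≤ eE t :=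
  ENNReal.ofReal_le_ofReal (Real.exp_le_exp.2 h)

theorem rul_eE_ne (t : ℝ) : eE t ≠ ∞ := ENNReal.ofReal_ne_top

theorem rul_eE_zero : eE 0 = 1 := by simp [eE]

theorem rul_eE_meas : Measurable eE := Real.measurable_exp.ennreal_ofReal

theorem rul_eE_rpow (s p : ℝ) : eE s ^ p = eE (s * p) := by
  rw [eE, eE, ENNReal.ofReal_rpow_of_pos (Real.exp_pos _), ← Real.exp_mul]

theorem rul_ind01 (p : Prop) : ind p = 0 ∨ ind p = 1 := by
  by_cases h : p <;> simp [ind, h]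

theorem rul_root {A m : ℝ≥0∞} {r : ℝ} (hr : 0 < r) (h : A ^ r ≤ m) : A ≤ m ^ (1 / r) := by
  calc A = (A ^ r) ^ (1 / r) := by
        rw [← ENNReal.rpow_mul, mul_one_div_cancel hr.ne', ENNReal.rpow_one]
    _ ≤ m ^ (1 / r) := ENNReal.rpow_le_rpow h (by positivity)

theorem rul_unroot (m : ℝ≥0∞) {r : ℝ} (hr : 0 < r) : (m ^ (1 / r)) ^ r = m := by
  rw [← ENNReal.rpow_mul, one_div_mul_cancel hr.ne', ENNReal.rpow_one]

theorem rul_young (A B C : ℝ≥0∞) (r s : ℝ) (hr : 0 < r) (hs : 0 < s)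
    (h : 1 / r + 1 / r + 1 / s = 1) : A * B * C ≤ A ^ r + B ^ r + C ^ s := by
  have hA : A ≤ (A ^ r + B ^ r + C ^ s) ^ (1 / r) :=
    rul_root hr (le_add_right le_self_add)
  have hB : B ≤ (A ^ r + B ^ r + C ^ s) ^ (1 / r) :=
    rul_root hr (le_add_right le_add_self)
  have hC : C ≤ (A ^ r + B ^ r + C ^ s) ^ (1 / s) := rul_root hs le_add_self
  calc A * B * C ≤ (A ^ r + B ^ r + C ^ s) ^ (1 / r) * (A ^ r + B ^ r + C ^ s) ^ (1 / r) *
        (A ^ r + B ^ r + C ^ s) ^ (1 / s) := by gcongr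
    _ = A ^ r + B ^ r + C ^ s := by
      rw [← ENNReal.rpow_add_of_nonneg _ _ (by positivity) (by positivity),
        ← ENNReal.rpow_add_of_nonneg _ _ (by positivity) (by positivity), h, ENNReal.rpow_one]

theorem rul_sum_pow (s : Finset ℕ) (I a : ℕ → ℝ≥0∞) (hI : ∀ l, I l = 0 ∨ I l = 1) (q : ℝ)
    (hq : 0 < q) :
    (∑ l ∈ s, I l * a l) ^ q ≤ (∑ l ∈ s, I l) ^ q * ∑ l ∈ s, I l * a l ^ q := by
  have h1 : ∑ l ∈ s, I l * a l ≤ (∑ l ∈ s, I l) * (∑ l ∈ s, I l * a l ^ q) ^ (1 / q) := by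
    rw [Finset.sum_mul]
    refine Finset.sum_le_sum fun l hl => ?_
    rcases hI l with h | h
    · simp [h]
    · refine mul_le_mul_right (rul_root hq ?_) _
      have := Finset.single_le_sum (f := fun l => I l * a l ^ q) (fun _ _ => zero_le) hl
      simpa [h] using this
  calc _ ≤ ((∑ l ∈ s, I l) * (∑ l ∈ s, I l * a l ^ q) ^ (1 / q)) ^ q :=
        ENNReal.rpow_le_rpow h1 hq.le
    _ = _ := by rw [ENNReal.mul_rpow_of_nonneg _ _ hq.le, rul_unroot _ hq]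

theorem rul_tsum_pow (m : ℕ → ℝ≥0∞) (δ q : ℝ) (hq : 0 < q) :
    (∑' j, m j) ^ q ≤ (∑' j : ℕ, eE (-δ * j)) ^ q * ∑' j : ℕ, eE (δ * j * q) * m j ^ q := by
  have h1 : ∑' j, m j ≤
      (∑' j : ℕ, eE (-δ * j)) * (∑' j : ℕ, eE (δ * j * q) * m j ^ q) ^ (1 / q) := by
    rw [← ENNReal.tsum_mul_right]
    refine ENNReal.tsum_le_tsum fun j => ?_
    have h2 : eE (δ * j) * m j ≤ (∑' j : ℕ, eE (δ * j * q) * m j ^ q) ^ (1 / q) := by
      refine rul_root hq ?_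
      rw [ENNReal.mul_rpow_of_nonneg _ _ hq.le, rul_eE_rpow]
      exact ENNReal.le_tsum (f := fun j : ℕ => eE (δ * j * q) * m j ^ q) j
    calc m j = eE (-δ * j) * (eE (δ * j) * m j) := by
          rw [← mul_assoc, ← rul_eE_add, show -δ * j + δ * j = 0 by ring, rul_eE_zero, one_mul]
      _ ≤ _ := mul_le_mul_right h2 _
  calc _ ≤ ((∑' j : ℕ, eE (-δ * j)) * (∑' j : ℕ, eE (δ * j * q) * m j ^ q) ^ (1 / q)) ^ q :=
        ENNReal.rpow_le_rpow h1 hq.le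
    _ = _ := by rw [ENNReal.mul_rpow_of_nonneg _ _ hq.le, rul_unroot _ hq]

theorem rul_geo (c : ℝ) (hc : 0 < c) : ∑' j : ℕ, eE (-c * j) ≠ ∞ := by
  have h : ∀ j : ℕ, eE (-c * j) = eE (-c) ^ j := by
    intro j
    rw [← ENNReal.rpow_natCast, rul_eE_rpow]
  simp only [h, ENNReal.tsum_geometric]
  rw [ENNReal.inv_ne_top]
  have : eE (-c) < 1 := by
    rw [eE, ENNReal.ofReal_lt_one]
    exact Real.exp_lt_one_iff.2 (by linarith)
  exact (tsub_pos_of_lt this).ne'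

theorem rul_low (s : Finset ℕ) (ρ : ℕ → ℝ) (a : ℕ → ℝ≥0∞) (t : ℝ) :
    ∑ l ∈ s, ind (ρ l ≤ t) * a l ≤
      ∑' j : ℕ, ∑ l ∈ s, ind (ρ l ∈ Ico (t - j) (t - j + 1)) * a l := by
  rw [Summable.tsum_finsetSum fun _ _ => ENNReal.summable]
  refine Finset.sum_le_sum fun l _ => ?_
  by_cases h : ρ l ≤ t
  · refine le_trans ?_ (ENNReal.le_tsum ⌈t - ρ l⌉₊)
    have h1 := Nat.le_ceil (t - ρ l)
    have h2 := Nat.ceil_lt_add_one (show 0 ≤ t - ρ l by linarith)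
    have h3 : ρ l ∈ Ico (t - (⌈t - ρ l⌉₊ : ℕ)) (t - (⌈t - ρ l⌉₊ : ℕ) + 1) :=
      ⟨by linarith, by linarith⟩
    simp only [ind, h, h3, if_true, le_refl]
  · simp [ind, h]

theorem rul_pt (s : Finset ℕ) (I a : ℕ → ℝ≥0∞) (hI : ∀ l, I l = 0 ∨ I l = 1) (G Θ : ℝ≥0∞)
    (lv w z q r0 r σ : ℝ) (hq : 0 < q) (hr0 : 0 < r0) (hr : r0 ≤ r) (hσ : 0 < σ)
    (h : 1 / r0 + 1 / r0 + 1 / σ = 1) (hΘ : ∑ l ∈ s, I l ≤ Θ) :
    G * (∑ l ∈ s, I l * a l) ^ q ≤ eE (lv + z) *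
      (eE w * (2 + (G * eE (-w - lv)) ^ r) * Θ ^ (q * r0 + 1) +
        eE (-(z * σ)) * ∑ l ∈ s, eE w * I l * a l ^ (q * σ)) := by
  set A := G * eE (-w - lv) with hA
  have hA1 : A ^ r0 ≤ 1 + A ^ r := by
    rcases le_total A 1 with h1 | h1
    · exact le_add_right (ENNReal.rpow_le_one h1 hr0.le)
    · exact le_add_left (ENNReal.rpow_le_rpow_of_exponent_le h1 hr)
  have key : ∀ l ∈ s, G * (Θ ^ q * (I l * a l ^ q)) ≤ eE (lv + z) *
      (eE w * (2 + A ^ r) * (Θ ^ (q * r0) * I l) +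
        eE (-(z * σ)) * (eE w * I l * a l ^ (q * σ))) := by
    intro l hl
    rcases hI l with h0 | h1
    · simp [h0]
    have hΘ1 : 1 ≤ Θ ^ (q * r0) := by
      have : (1 : ℝ≥0∞) ≤ Θ := by
        refine le_trans ?_ hΘ
        rw [← h1]
        exact Finset.single_le_sum (f := I) (fun _ _ => zero_le) hl
      exact ENNReal.one_le_rpow this (by positivity)
    have e1 : G * (Θ ^ q * (I l * a l ^ q)) =
        eE (lv + z) * (eE w * (A * Θ ^ q * (a l ^ q * eE (-z)))) := by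
      have e2 : eE (lv + z) * eE w * eE (-w - lv) * eE (-z) = 1 := by
        rw [← rul_eE_add, ← rul_eE_add, ← rul_eE_add,
          show lv + z + w + (-w - lv) + -z = 0 by ring, rul_eE_zero]
      rw [h1, hA]
      calc G * (Θ ^ q * (1 * a l ^ q)) =
          (eE (lv + z) * eE w * eE (-w - lv) * eE (-z)) * (G * (Θ ^ q * (1 * a l ^ q))) := by
            rw [e2]; ring
        _ = _ := by ring
    rw [e1, h1]
    refine mul_le_mul_right ?_ _
    have hy := rul_young A (Θ ^ q) (a l ^ q * eE (-z)) r0 σ hr0 hσ h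
    rw [← ENNReal.rpow_mul, ENNReal.mul_rpow_of_nonneg _ _ hσ.le, ← ENNReal.rpow_mul,
      rul_eE_rpow] at hy
    have h2 : A ^ r0 + Θ ^ (q * r0) ≤ (2 + A ^ r) * Θ ^ (q * r0) := by
      calc A ^ r0 + Θ ^ (q * r0) ≤ (1 + A ^ r) * Θ ^ (q * r0) + Θ ^ (q * r0) := by
            gcongr
            exact hA1.trans (le_mul_of_one_le_right' hΘ1)
        _ = _ := by ring
    calc eE w * (A * Θ ^ q * (a l ^ q * eE (-z)))
        ≤ eE w * ((2 + A ^ r) * Θ ^ (q * r0) + a l ^ (q * σ) * eE (-z * σ)) := by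
          refine mul_le_mul_right (hy.trans ?_) _
          gcongr
      _ = _ := by rw [neg_mul]; ring
  calc G * (∑ l ∈ s, I l * a l) ^ q ≤ G * (Θ ^ q * ∑ l ∈ s, I l * a l ^ q) := by
        refine mul_le_mul_right ((rul_sum_pow s I a hI q hq).trans ?_) _
        gcongr
    _ = ∑ l ∈ s, G * (Θ ^ q * (I l * a l ^ q)) := by rw [Finset.mul_sum, Finset.mul_sum]
    _ ≤ ∑ l ∈ s, eE (lv + z) * (eE w * (2 + A ^ r) * (Θ ^ (q * r0) * I l) +
        eE (-(z * σ)) * (eE w * I l * a l ^ (q * σ))) := Finset.sum_le_sum key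
    _ = eE (lv + z) * (eE w * (2 + A ^ r) * (Θ ^ (q * r0) * ∑ l ∈ s, I l) +
        eE (-(z * σ)) * ∑ l ∈ s, eE w * I l * a l ^ (q * σ)) := by
        rw [← Finset.mul_sum, Finset.sum_add_distrib, ← Finset.mul_sum, ← Finset.mul_sum,
          ← Finset.mul_sum]
    _ ≤ _ := by
        rw [ENNReal.rpow_add_of_nonneg _ _ (by positivity) zero_le_one, ENNReal.rpow_one]
        gcongr

theorem rul_win (len i0 : ℕ) (ρ : ℕ → ℝ) (y : ℝ) :
    ∑ l ∈ Finset.Icc (i0 + 5) len, ind (ρ (l - 5) ∈ Ico y (y + 1)) ≤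
      ∑ i ∈ Finset.range (len - (i0 + 2) + 1), ind (ρ (i0 + i) ∈ Ico y (y + 1)) := by
  have h1 : ∑ l ∈ Finset.Icc (i0 + 5) len, ind (ρ (l - 5) ∈ Ico y (y + 1)) =
      ∑ i ∈ (Finset.Icc (i0 + 5) len).image (fun l => l - (i0 + 5)),
        ind (ρ (i0 + i) ∈ Ico y (y + 1)) := by
    rw [Finset.sum_image]
    · refine Finset.sum_congr rfl fun l hl => ?_
      have := (Finset.mem_Icc.1 hl).1
      rw [show i0 + (l - (i0 + 5)) = l - 5 by omega]
    · intro l hl l' hl' e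
      have h1 := (Finset.mem_Icc.1 (Finset.mem_coe.1 hl)).1
      have h2 := (Finset.mem_Icc.1 (Finset.mem_coe.1 hl')).1
      simp only at e
      omega
  rw [h1]
  refine Finset.sum_le_sum_of_subset fun i hi => ?_
  obtain ⟨l, hl, rfl⟩ := Finset.mem_image.1 hi
  have := Finset.mem_Icc.1 hl
  rw [Finset.mem_range]
  omega

theorem rul_dep (hT3 : St_T3) (y p : ℝ) : DepLe fun k (w : ℕ → ℝ) =>
    (∑ i ∈ Finset.range (k + 1), ind (w i ∈ Ico y (y + 1))) ^ p := by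
  refine ⟨fun k => ?_, fun k w w' h => ?_⟩
  · refine Measurable.pow_const (Finset.measurable_sum _ fun i _ => ?_) _
    exact (hT3.2.2.2.2.2.2.2.2.2.2.2.1 _ _ (measurable_pi_apply i measurableSet_Ico)).1
  · simp only
    congr 1
    refine Finset.sum_congr rfl fun i hi => ?_
    rw [h i (Nat.lt_succ_iff.1 (Finset.mem_range.1 hi))]

theorem rul_root2 (h1 : St_G1) (M : Model) (γ κ r v : ℝ) (i0 : ℕ) (Γ : Dy → ℝ × Om → ℝ≥0∞)
    (hv : 0 < v) (hr : 0 < r) (hΓ : RootW M γ κ r i0 v Γ) :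
    RootW M γ κ 1 i0 3 fun R p => eE (γ * p.1 - κ * |p.1|) *
      (2 + (Γ R p * eE (-(γ * p.1 - κ * |p.1|) - Real.log v)) ^ r) := by
  have : IsProbabilityMeasure gm := h1.1
  have hw : Measurable fun p : ℝ × Om => γ * p.1 - κ * |p.1| :=
    (measurable_fst.const_mul _).sub (measurable_fst.abs.const_mul _)
  refine ⟨fun R => ?_, fun R y i hi hi' s ω => ?_, fun R y => ?_⟩
  · exact (rul_eE_meas.comp hw).mul (measurable_const.add
      (((hΓ.meas R).mul (rul_eE_meas.comp (hw.neg.sub measurable_const))).pow_const _))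
  · have := hΓ.inv R y i hi hi' s ω
    simp only at this ⊢
    rw [this]
  · have hm : Measurable fun ω : Om => Γ R (y, ω) ^ r :=
      ((hΓ.meas R).comp measurable_prodMk_left).pow_const _
    have hb := hΓ.bd R y
    have e1 : ENNReal.ofReal (v * Real.exp (γ * y - κ * |y|)) =
        eE (Real.log v + (γ * y - κ * |y|)) := by
      rw [eE, Real.exp_add, Real.exp_log hv]
    rw [e1] at hb
    simp only [ENNReal.rpow_one, ENNReal.mul_rpow_of_nonneg _ _ hr.le]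
    rw [lintegral_const_mul' _ _ (rul_eE_ne _),
      lintegral_add_left measurable_const, lintegral_mul_const _ hm, lintegral_const,
      measure_univ, mul_one]
    have h2 : (∫⁻ ω, Γ R (y, ω) ^ r ∂gm) * eE (-(γ * y - κ * |y|) - Real.log v) ^ r ≤ 1 := by
      refine (mul_le_mul_left hb _).trans ?_
      rw [← ENNReal.mul_rpow_of_nonneg _ _ hr.le, ← rul_eE_add,
        show Real.log v + (γ * y - κ * |y|) + (-(γ * y - κ * |y|) - Real.log v) = 0 by ring,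
        rul_eE_zero, ENNReal.one_rpow]
    calc _ ≤ eE (γ * y - κ * |y|) * (2 + 1) := by gcongr
      _ = _ := by
        rw [mul_comm (3 : ℝ), ENNReal.ofReal_mul (Real.exp_pos _).le, eE]
        norm_num

theorem blk_RUL (h1 : St_G1) (_hM0 : St_M0) (_hM : St_MOD) (_hT1 : St_T1) (hT3 : St_T3)
    (hRW1 : St_RW1) (hRW2 : St_RW2) (hTL : St_TL) (hRUA : St_RUA) : St_RUL := by
  intro γ hγ
  obtain ⟨ha, hQ, hth, hγth, -⟩ := hRW1.2.2 γ hγ
  have hγ0 := hγ.1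
  have hg1 : 1 < 4 / γ ^ 2 := by
    rw [one_lt_div (by positivity)]; nlinarith [hγ.1, hγ.2]
  have hg2 : th γ < 4 / γ ^ 2 := by rw [th]; linarith
  obtain ⟨q, hq1, hq2⟩ := exists_between (max_lt hg2 hg1)
  have hqθ : th γ < q := (le_max_left _ _).trans_lt hq1
  have hq : 1 < q := (le_max_right _ _).trans_lt hq1
  have hq0 : 0 < q := by linarith
  obtain ⟨p, hp1, hp2⟩ := exists_between hq2
  set σ := p / q with hσdef
  have hσ1 : 1 < σ := by rw [hσdef, one_lt_div hq0]; exact hp1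
  have hqσ : q * σ = p := by rw [hσdef]; field_simp
  set r0 := 2 * σ / (σ - 1) with hr0def
  have hs1 : 0 < σ - 1 := by linarith
  have hr01 : 1 ≤ r0 := by rw [hr0def, one_le_div hs1]; linarith
  have hr0 : 0 < r0 := by linarith
  have hsum : 1 / r0 + 1 / r0 + 1 / σ = 1 := by
    rw [hr0def]; field_simp; ring
  refine ⟨q, r0, hqθ, hq, hr01, fun κ hκ C1 => ?_⟩
  obtain ⟨C2, hC2⟩ := (hRW2 _ ha κ hκ).1 (q * r0 + 1) (by nlinarith [mul_pos hq0 hr0])
  obtain ⟨K3, hK3⟩ := (hRUA γ hγ κ p C1 hκ (by linarith) hp2).1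
  set c := γ * (q - th γ) / 2 with hc
  have hc0 : 0 < c := by rw [hc]; exact div_pos (mul_pos hγ0 (by linarith)) two_pos
  set δ := c / q with hδ
  have hδ0 : 0 < δ := div_pos hc0 hq0
  have hδq : δ * q = c := by rw [hδ]; field_simp
  set Cs : ℝ≥0∞ := 48 * eE (γ ^ 2 * C1 / 2 + 2 * aa γ * (QQ γ * C1)) * ENNReal.ofReal C2 +
    ENNReal.ofReal K3 with hCs
  have hCs' : Cs ≠ ∞ := by
    refine ENNReal.add_ne_top.2 ⟨?_, ENNReal.ofReal_ne_top⟩
    exact ENNReal.mul_ne_top (ENNReal.mul_ne_top (by norm_num) (rul_eE_ne _)) ENNReal.ofReal_ne_top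
  set Ct : ℝ≥0∞ := (∑' j : ℕ, eE (-δ * j)) ^ q * (∑' j : ℕ, eE (-c * j)) * Cs with hCt
  have hCt' : Ct ≠ ∞ :=
    ENNReal.mul_ne_top (ENNReal.mul_ne_top
      (ENNReal.rpow_ne_top_of_nonneg hq0.le (rul_geo δ hδ0)) (rul_geo c hc0)) hCs'
  refine ⟨Ct.toReal, fun M i0 v u t r Γ hOk hC1 hr hv hΓ => ?_⟩
  have hz : (0 : ℂ) ∈ box [] := by simp [box, corner, side]
  have hb := hTL.2.1 M i0 hOk 0 hz
  set b : ℕ → HH := fun j => M.eC 0 ((1 / 2 : ℝ) ^ (i0 + j))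
  rcases hv.eq_or_lt with rfl | hv
  · have h0 := hTL.1 γ hγ M i0 κ r 0 u Γ (fun _ _ => ∞) b hOk (hr01.trans hr) le_rfl hΓ
      ⟨fun _ => measurable_const, fun _ _ _ _ => rfl⟩ hb
    simp only [mul_zero, zero_mul, ENNReal.ofReal_zero] at h0 ⊢
    refine le_trans ?_ h0
    refine ENNReal.tsum_le_tsum fun R => mul_le_mul_right (lintegral_mono fun ω => ?_) _
    exact mul_le_mul_right le_top _
  have hΓ2 := rul_root2 h1 M γ κ r v i0 Γ hv (by linarith) hΓ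
  set Γ2 : Dy → ℝ × Om → ℝ≥0∞ := fun R p => eE (γ * p.1 - κ * |p.1|) *
      (2 + (Γ R p * eE (-(γ * p.1 - κ * |p.1|) - Real.log v)) ^ r) with hΓ2def
  set Θ : ℝ → ℕ → (ℕ → ℝ) → ℝ≥0∞ := fun y k w =>
    (∑ i ∈ Finset.range (k + 1), ind (w i ∈ Ico y (y + 1))) ^ (q * r0 + 1) with hΘdef
  set T1 : ℝ → Dy → Om → ℝ≥0∞ := fun y R ω =>
    Γ2 R (M.YV γ u R ω, ω) * Θ y (R.length - (i0 + 2)) (M.rw γ u i0 R ω) with hT1def
  set T3 : ℝ → Dy → ℕ → Om → ℝ≥0∞ := fun y R l ω =>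
    eE (γ * M.YV γ u R ω - κ * |M.YV γ u R ω|) *
      ind (M.rad γ u R (l - 5) ω ∈ Ico y (y + 1)) * annN (M.X γ u ω) R l ^ p with hT3def
  have mY : ∀ c r, Measurable (M.Y γ u c r) := (hT3.2.2.2.2.2.2.2.2.2.2.1 M γ u).2
  have mX : Measurable (M.X γ u) := (hT3.2.2.2.2.2.2.2.2.2.2.1 M γ u).1
  have m1 : ∀ y R, Measurable (T1 y R) := by
    intro y R
    refine ((hΓ2.meas R).comp ((mY _ _).prodMk measurable_id)).mul ?_
    exact ((rul_dep hT3 y _).1 _).comp (measurable_pi_lambda _ fun j => mY _ _)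
  have m3 : ∀ y R l, Measurable (T3 y R l) := by
    intro y R l
    refine Measurable.mul (Measurable.mul ?_ ?_) ?_
    · exact rul_eE_meas.comp (((mY _ _).const_mul _).sub ((mY _ _).abs.const_mul _))
    · exact (hT3.2.2.2.2.2.2.2.2.2.2.2.1 _ _ (mY _ _ measurableSet_Ico)).1
    · exact (((hT3.2.2.2.2.2.2.2.2.2.1 R).2.2 l).comp mX).pow_const _
  -- bounds for a fixed window
  have b1 : ∀ y : ℝ, ∑' R : Dy, ind (i0 + 4 ≤ R.length) * ∫⁻ ω, T1 y R ω ∂gm ≤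
      48 * eE (γ ^ 2 * C1 / 2 + 2 * aa γ * (QQ γ * C1)) * ENNReal.ofReal C2 *
        eE (γ * u - 2 * aa γ * (y - u)) := by
    intro y
    have h2 := hTL.1 γ hγ M i0 κ 1 3 u Γ2 (Θ y) b hOk le_rfl (by norm_num) hΓ2
      (rul_dep hT3 y _) hb
    have h3 := hC2 b (M.C0 + i0 * l2) (u + γ * M.C0 - aa γ * i0 * l2) y hOk.2 hb
    refine h2.trans ((mul_le_mul_right h3 _).trans ?_)
    have h4 : ENNReal.ofReal (C2 * min 1 (Real.exp (-(2 * aa γ) *
        (y - (u + γ * M.C0 - aa γ * i0 * l2) - aa γ * (M.C0 + i0 * l2))))) ≤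
        ENNReal.ofReal C2 * eE (-(2 * aa γ) *
          (y - (u + γ * M.C0 - aa γ * i0 * l2) - aa γ * (M.C0 + i0 * l2))) := by
      rw [ENNReal.ofReal_mul' (le_min zero_le_one (Real.exp_pos _).le)]
      exact mul_le_mul_right (ENNReal.ofReal_le_ofReal (min_le_right _ _)) _
    have h5 : ENNReal.ofReal (16 * 3 * Real.exp (γ * u + γ ^ 2 * M.C0 / 2)) =
        48 * eE (γ * u + γ ^ 2 * M.C0 / 2) := by
      rw [ENNReal.ofReal_mul (by norm_num), eE]; norm_num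
    rw [h5]
    refine (mul_le_mul_right h4 _).trans ?_
    have h6 : eE (γ * u + γ ^ 2 * M.C0 / 2) * eE (-(2 * aa γ) *
          (y - (u + γ * M.C0 - aa γ * i0 * l2) - aa γ * (M.C0 + i0 * l2))) ≤
        eE (γ ^ 2 * C1 / 2 + 2 * aa γ * (QQ γ * C1)) * eE (γ * u - 2 * aa γ * (y - u)) := by
      rw [← rul_eE_add, ← rul_eE_add]
      refine rul_eE_mono ?_
      have e : QQ γ = aa γ + γ := by rw [aa]; ring
      have i1 : γ ^ 2 * M.C0 ≤ γ ^ 2 * C1 := mul_le_mul_of_nonneg_left hC1 (by positivity)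
      have i2 : aa γ * (aa γ + γ) * M.C0 ≤ aa γ * (aa γ + γ) * C1 :=
        mul_le_mul_of_nonneg_left hC1 (by positivity)
      rw [e]; nlinarith
    calc _ = 48 * ENNReal.ofReal C2 * (eE (γ * u + γ ^ 2 * M.C0 / 2) * eE (-(2 * aa γ) *
          (y - (u + γ * M.C0 - aa γ * i0 * l2) - aa γ * (M.C0 + i0 * l2)))) := by ring
      _ ≤ 48 * ENNReal.ofReal C2 * (eE (γ ^ 2 * C1 / 2 + 2 * aa γ * (QQ γ * C1)) *
          eE (γ * u - 2 * aa γ * (y - u))) := mul_le_mul_right h6 _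
      _ = _ := by ring
  have b3 : ∀ y : ℝ, eE (-(γ * q * y * σ)) * ∑' R : Dy, ind (i0 + 4 ≤ R.length) *
      ∑ l ∈ Finset.Icc (i0 + 5) R.length, ∫⁻ ω, T3 y R l ω ∂gm ≤
      ENNReal.ofReal K3 * eE (γ * u - 2 * aa γ * (y - u)) := by
    intro y
    refine (mul_le_mul_right (hK3 M i0 u y hOk hC1) _).trans (le_of_eq ?_)
    rw [ENNReal.ofReal_mul' (Real.exp_pos _).le, mul_left_comm]
    congr 1
    change eE _ * eE _ = _
    rw [← rul_eE_add, ← hqσ]
    congr 1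
    ring
  -- pointwise bound
  have pt : ∀ R ω, Γ R (M.YV γ u R ω, ω) * M.low γ u i0 t R ω ^ q ≤
      (∑' j : ℕ, eE (-δ * j)) ^ q * ∑' j : ℕ, eE (δ * j * q) *
        (eE (Real.log v + γ * q * (t - j)) * (T1 (t - j) R ω +
          eE (-(γ * q * (t - j) * σ)) * ∑ l ∈ Finset.Icc (i0 + 5) R.length, T3 (t - j) R l ω)) := by
    intro R ω
    have h2 := rul_low (Finset.Icc (i0 + 5) R.length) (fun l => M.rad γ u R (l - 5) ω)
      (fun l => annN (M.X γ u ω) R l) t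
    have h3 := (ENNReal.rpow_le_rpow h2 hq0.le).trans (rul_tsum_pow _ δ q hq0)
    refine (mul_le_mul_right h3 _).trans ?_
    rw [mul_left_comm, ← ENNReal.tsum_mul_left]
    refine mul_le_mul_right (ENNReal.tsum_le_tsum fun j => ?_) _
    rw [mul_left_comm]
    refine mul_le_mul_right ?_ _
    have h4 := rul_pt (Finset.Icc (i0 + 5) R.length)
      (fun l => ind (M.rad γ u R (l - 5) ω ∈ Ico (t - j) (t - j + 1)))
      (fun l => annN (M.X γ u ω) R l) (fun _ => rul_ind01 _) (Γ R (M.YV γ u R ω, ω)) _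
      (Real.log v) (γ * M.YV γ u R ω - κ * |M.YV γ u R ω|) (γ * q * (t - j)) q r0 r σ hq0 hr0 hr
      (by linarith) hsum (rul_win R.length i0 (fun i => M.rad γ u R i ω) (t - j))
    rw [hqσ] at h4
    exact h4
  have int : ∀ R : Dy, ∫⁻ ω, Γ R (M.YV γ u R ω, ω) * M.low γ u i0 t R ω ^ q ∂gm ≤
      (∑' j : ℕ, eE (-δ * j)) ^ q * ∑' j : ℕ, eE (δ * j * q) *
        (eE (Real.log v + γ * q * (t - j)) * (∫⁻ ω, T1 (t - j) R ω ∂gm +
          eE (-(γ * q * (t - j) * σ)) *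
            ∑ l ∈ Finset.Icc (i0 + 5) R.length, ∫⁻ ω, T3 (t - j) R l ω ∂gm)) := by
    intro R
    have mS : ∀ j : ℕ, Measurable fun ω => ∑ l ∈ Finset.Icc (i0 + 5) R.length,
        T3 (t - j) R l ω := fun j => Finset.measurable_sum _ fun l _ => m3 _ _ _
    have mA : ∀ j : ℕ, Measurable fun ω => T1 (t - j) R ω +
        eE (-(γ * q * (t - j) * σ)) * ∑ l ∈ Finset.Icc (i0 + 5) R.length, T3 (t - j) R l ω :=
      fun j => (m1 _ _).add ((mS j).const_mul _)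
    refine (lintegral_mono (pt R)).trans (le_of_eq ?_)
    rw [lintegral_const_mul' _ _ (ENNReal.rpow_ne_top_of_nonneg hq0.le (rul_geo δ hδ0)),
      lintegral_tsum fun j => (((mA j).const_mul _).const_mul _).aemeasurable]
    congr 1
    refine tsum_congr fun j => ?_
    rw [lintegral_const_mul' _ _ (rul_eE_ne _), lintegral_const_mul' _ _ (rul_eE_ne _),
      lintegral_add_left (m1 _ _), lintegral_const_mul' _ _ (rul_eE_ne _),
      lintegral_finsetSum _ fun l _ => m3 _ _ _]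
  have fin : ∀ j : ℕ, ∑' R : Dy, ind (i0 + 4 ≤ R.length) * (eE (δ * j * q) *
        (eE (Real.log v + γ * q * (t - j)) * (∫⁻ ω, T1 (t - j) R ω ∂gm +
          eE (-(γ * q * (t - j) * σ)) *
            ∑ l ∈ Finset.Icc (i0 + 5) R.length, ∫⁻ ω, T3 (t - j) R l ω ∂gm))) ≤
      eE (-c * j) * (Cs * eE (Real.log v + (γ * u + γ * q * t - 2 * aa γ * (t - u)))) := by
    intro j
    have e1 : ∀ R : Dy, ind (i0 + 4 ≤ R.length) * (eE (δ * j * q) *
        (eE (Real.log v + γ * q * (t - j)) * (∫⁻ ω, T1 (t - j) R ω ∂gm +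
          eE (-(γ * q * (t - j) * σ)) *
            ∑ l ∈ Finset.Icc (i0 + 5) R.length, ∫⁻ ω, T3 (t - j) R l ω ∂gm))) =
        eE (δ * j * q) * eE (Real.log v + γ * q * (t - j)) *
          (ind (i0 + 4 ≤ R.length) * ∫⁻ ω, T1 (t - j) R ω ∂gm +
          eE (-(γ * q * (t - j) * σ)) * (ind (i0 + 4 ≤ R.length) *
            ∑ l ∈ Finset.Icc (i0 + 5) R.length, ∫⁻ ω, T3 (t - j) R l ω ∂gm)) := by
      intro R; ring
    simp only [e1]
    rw [ENNReal.tsum_mul_left, ENNReal.tsum_add, ENNReal.tsum_mul_left]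
    refine (mul_le_mul_right (add_le_add (b1 _) (b3 _)) _).trans (le_of_eq ?_)
    rw [← add_mul, ← hCs, mul_left_comm, mul_left_comm (eE (-c * j)), ← rul_eE_add, ← rul_eE_add,
      ← rul_eE_add]
    congr 2
    have e2 : δ * j * q = c * j := by rw [← hδq]; ring
    rw [e2, hc, ← hγth]
    ring
  calc M.RS γ u i0 Γ (fun R ω => M.low γ u i0 t R ω ^ q)
      ≤ ∑' R : Dy, ind (i0 + 4 ≤ R.length) * ((∑' j : ℕ, eE (-δ * j)) ^ q *
        ∑' j : ℕ, eE (δ * j * q) *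
        (eE (Real.log v + γ * q * (t - j)) * (∫⁻ ω, T1 (t - j) R ω ∂gm +
          eE (-(γ * q * (t - j) * σ)) *
            ∑ l ∈ Finset.Icc (i0 + 5) R.length, ∫⁻ ω, T3 (t - j) R l ω ∂gm))) :=
        ENNReal.tsum_le_tsum fun R => mul_le_mul_right (int R) _
    _ = (∑' j : ℕ, eE (-δ * j)) ^ q * ∑' j : ℕ, ∑' R : Dy, ind (i0 + 4 ≤ R.length) *
        (eE (δ * j * q) * (eE (Real.log v + γ * q * (t - j)) * (∫⁻ ω, T1 (t - j) R ω ∂gm +
          eE (-(γ * q * (t - j) * σ)) *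
            ∑ l ∈ Finset.Icc (i0 + 5) R.length, ∫⁻ ω, T3 (t - j) R l ω ∂gm))) := by
        rw [ENNReal.tsum_comm, ← ENNReal.tsum_mul_left]
        refine tsum_congr fun R => ?_
        rw [mul_left_comm, ENNReal.tsum_mul_left]
    _ ≤ (∑' j : ℕ, eE (-δ * j)) ^ q * ∑' j : ℕ, eE (-c * j) *
        (Cs * eE (Real.log v + (γ * u + γ * q * t - 2 * aa γ * (t - u)))) :=
        mul_le_mul_right (ENNReal.tsum_le_tsum fin) _
    _ = Ct * eE (Real.log v + (γ * u + γ * q * t - 2 * aa γ * (t - u))) := by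
        rw [ENNReal.tsum_mul_right, hCt]; ring
    _ = _ := by
        rw [mul_assoc Ct.toReal, ENNReal.ofReal_mul ENNReal.toReal_nonneg, ENNReal.ofReal_toReal hCt', eE,
          Real.exp_add, Real.exp_log hv]

end

end Pool.Agent.Lib.APPS
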