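import Pool.Agent.Lib.APPS.B_RUNa

/-!
Block RUN.
-/

namespace Pool.Agent.Lib.APPS

open MeasureTheory ProbabilityTheory Filter Topology Set Metric
open scoped NNReal ENNReal RealInnerProductSpace Classical

noncomputable section

namespace RUN

open FAR (eE_add eE_mono eE_zero eE_ne_top eE_rpow meas_eE meas_fam ind_mono markov)

/-- total mass of a rooted sum -/
theorem tl1 (hR : St_RW1) (hR2 : St_RW2) (hG : St_GEO1) (hTL : St_TL) {γ : ℝ}
    (hγ : γ ∈ Ioo (0 : ℝ) 2) {κ : ℝ} (hκ : 0 < κ) : ∃ K : ℝ, ∀ (M : Model) (i0 : ℕ) (r v u : ℝ)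
    (Γ : Dy → ℝ × Om → ℝ≥0∞), M.Ok i0 → 1 ≤ r → 0 ≤ v → RootW M γ κ r i0 v Γ →
    M.RS γ u i0 Γ (fun _ _ => 1) ≤ ENNReal.ofReal v * eE (K + γ * u + γ ^ 2 * M.C0 / 2) := by
  obtain ⟨c, -, C, hC⟩ := (hR2 (aa γ) (hR.2.2 γ hγ).1 κ hκ).2
  refine ⟨16 + C, fun M i0 r v u Γ hO hr hv hΓ => ?_⟩
  have hb := hTL.2.1 M i0 hO (ctr []) (hG.2.2.2.1 []).2.2.1
  have h1 := hTL.1 γ hγ M i0 κ r v u Γ (fun _ _ => 1) _ hO hr hv hΓ
    ⟨fun _ => measurable_const, fun _ _ _ _ => rfl⟩ hb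
  simp only [mul_one] at h1
  refine h1.trans ?_
  have h2 := (hC _ _ (u + γ * M.C0 - aa γ * i0 * l2) 0 hO.2 hb).1
  have h3 : ENNReal.ofReal (16 * v * Real.exp (γ * u + γ ^ 2 * M.C0 / 2)) =
      ENNReal.ofReal v * (ENNReal.ofReal 16 * eE (γ * u + γ ^ 2 * M.C0 / 2)) := by
    rw [ENNReal.ofReal_mul (by positivity), ENNReal.ofReal_mul (by norm_num)]
    unfold eE
    ring
  rw [h3, mul_assoc]
  refine mul_le_mul_right ?_ _
  calc _ ≤ eE 16 * eE (γ * u + γ ^ 2 * M.C0 / 2) * eE C := by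
        gcongr
        · exact ofReal_le_eE' _
        · exact h2.trans (ofReal_le_eE' _)
    _ = _ := by rw [← eE_add, ← eE_add]; congr 1; ring

theorem ins_scale (hG : St_GEO1) (V S : Dy) (z : ℂ) :
    ins (side V) z (S ++ V) = ins 1 ((z - corner V) / (side V : ℂ)) S := by
  have h0 := (hG.1 V).1
  have h0' : (side V : ℂ) ≠ 0 := by exact_mod_cast h0.ne'
  unfold ins
  congr 1
  have h1 : z - ctr (S ++ V) = (side V : ℂ) * ((z - corner V) / (side V : ℂ) - ctr S) := by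
    rw [(hG.2.2.1 S V).2.1, zS]
    field_simp
    ring
  rw [h1, norm_mul, Complex.norm_real, Real.norm_of_nonneg h0.le, hG.2.1, mul_comm (side S),
    ← mul_max_of_nonneg _ _ h0.le, div_mul_eq_div_div, div_self h0.ne']

theorem l2_le_one : l2 ≤ 1 := by
  have := Real.log_two_lt_d9
  unfold l2
  linarith

theorem log_half_pow (j : ℕ) : Real.log ((1 / 2 : ℝ) ^ j) = -(j * l2) := by
  rw [Real.log_pow, one_div, Real.log_inv, l2]
  ring

/-- geometry of the vectors around the root -/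
theorem geo (hMOD : St_MOD) (hFE : St_FE) (hG : St_GEO1) (M : Model) (i0 : ℕ) (hO : M.Ok i0)
    (R : Dy) (hR : i0 + 4 ≤ R.length) :
    ‖M.eC (ctr R) ((1 / 2 : ℝ) ^ (R.length - 4))‖ ^ 2 = M.C0 + (R.length - 4 : ℕ) * l2 ∧
    ‖M.eC (ctr R) (4 * side R) - M.eC (ctr R) ((1 / 2 : ℝ) ^ (R.length - 4))‖ ^ 2 ≤ 2 ∧
    ⟪M.eC (ctr R) ((1 / 2 : ℝ) ^ (R.length - 4)),
      M.eC (ctr R) (4 * side R) - M.eC (ctr R) ((1 / 2 : ℝ) ^ (R.length - 4))⟫ = 0 ∧
    Real.log (4 * side R) = -((R.length - 4 : ℕ) * l2) - 2 * l2 ∧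
    ∀ V : Dy, V.length = R.length → ‖ctr V - ctr R‖ ≤ 9 * side R →
      Gram (fun S => M.eS (S ++ V) - M.eC (ctr R) ((1 / 2 : ℝ) ^ (R.length - 4))) (covE (4 * l2)) ∧
      ∀ S, ⟪M.eC (ctr R) ((1 / 2 : ℝ) ^ (R.length - 4)),
        M.eS (S ++ V) - M.eC (ctr R) ((1 / 2 : ℝ) ^ (R.length - 4))⟫ = 0 := by
  obtain ⟨-, -, -, -, -, -, -, -, -, h10, h11, h12, -⟩ := hMOD M
  obtain ⟨j, hj⟩ : ∃ j, R.length = j + 4 := ⟨R.length - 4, by omega⟩
  have hj' : R.length - 4 = j := by omega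
  rw [hj']
  set ρ : ℝ := (1 / 2 : ℝ) ^ j with hρ
  have hρ0 : 0 < ρ := by positivity
  have hs : side R = ρ / 16 := by
    rw [side, hj, pow_add]; norm_num; ring
  have hs4 : 4 * side R = (1 / 2 : ℝ) ^ (j + 2) := by
    rw [hs, pow_add]; ring
  have hlog : Real.log ρ = -(j * l2) := log_half_pow j
  have hlog4 : Real.log (4 * side R) = -(j * l2) - 2 * l2 := by
    rw [hs4, log_half_pow]; push_cast; ring
  have hc : ctr R ∈ box [] := (hG.2.2.2.2.1 R []).2 List.nil_suffix (hG.2.2.2.1 R).2.2.1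
  have hB : closedBall (ctr R) ρ ⊆ M.O :=
    (closedBall_subset_closedBall (pow_le_pow_of_le_one (by norm_num) (by norm_num)
      (by omega))).trans (hO.1 _ hc)
  have h4 : 4 * side R ≤ ρ := by rw [hs]; linarith
  have h40 : 0 < 4 * side R := by rw [hs]; linarith
  have ebb := h11 (ctr R) ρ ρ hρ0 le_rfl hB
  have eab := h11 (ctr R) (4 * side R) ρ h40 h4 hB
  have eaa := h11 (ctr R) (4 * side R) (4 * side R) h40 le_rfl
    ((closedBall_subset_closedBall h4).trans hB)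
  refine ⟨?_, ?_, ?_, hlog4, fun V hV hVR => ?_⟩
  · rw [← real_inner_self_eq_norm_sq, ebb, hlog]; ring
  · rw [norm_sub_sq_real, ← real_inner_self_eq_norm_sq, ← real_inner_self_eq_norm_sq, eaa, eab, ebb,
      hlog, hlog4]
    have := l2_le_one
    linarith
  · rw [inner_sub_right, real_inner_comm, eab, ebb, sub_self]
  · have hsV : side V = side R := by rw [side, side, hV]
    have hbox : box V ⊆ closedBall (ctr R) ρ := by
      intro y hy
      have h2 := (hG.2.2.2.1 V).2.2.2.1 y hy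
      rw [mem_closedBall, dist_eq_norm]
      have h3 := norm_add_le (y - ctr V) (ctr V - ctr R)
      rw [sub_add_sub_cancel] at h3
      rw [hsV, hs] at h2
      rw [hs] at hVR
      linarith
    constructor
    · have := h12 (ctr R) ρ V hρ0 hbox
      rwa [hlog, hV, hj, show -((j : ℝ) * l2) + ((j + 4 : ℕ) : ℝ) * l2 = 4 * l2 by
        push_cast; ring] at this
    · intro S
      rw [real_inner_comm]
      refine h10 (ctr R) ρ ρ (unif (S ++ V)) hρ0 le_rfl (hFE.2.2.2.2.2.2.2.1 _).1 ?_ hB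
      refine measure_mono_null (compl_subset_compl.2 ?_) (hFE.2.2.2.2.2.2.2.1 (S ++ V)).2
      exact ((hG.2.2.2.2.1 _ _).2 (List.suffix_append S V)).trans hbox

/-- estimate at one root -/
theorem root (hG1 : St_G1) (hD : St_G1D) (hG3 : St_G3) (hMOD : St_MOD) (hFE : St_FE)
    (hG : St_GEO1) (hT1 : St_T1) (hT3 : St_T3) (hMB : St_MBb) {γ : ℝ} (hγ : γ ∈ Ioo (0 : ℝ) 2)
    (κ lam q β c0 : ℝ) (hκ : 0 < κ) (hlam : 0 ≤ lam) (hq : 0 < q) (hq1 : q < 4 / γ ^ 2)
    (hq2 : γ * q < 2 * (QQ γ - lam)) (hβ : 0 < β) (hβq : β < γ * q) :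
    ∃ K : ℝ, ∀ (M : Model) (i0 : ℕ) (u m : ℝ) (z : ℂ) (f : Dy → ℝ) (R : Dy), M.Ok i0 →
      i0 + 4 ≤ R.length → (∀ A, f A ≤ c0 + lam * ins (side R) z A) →
      ∫⁻ ω, eE (γ * M.YV γ u R ω - κ * |M.YV γ u R ω|) *
        ind (ENNReal.ofReal (Real.exp (γ * m)) ≤ near (addF (M.X γ u ω) f) R) ∂gm ≤
      eE K * ∫⁻ ω, eE (γ * (ω (M.eC (ctr R) ((1 / 2 : ℝ) ^ (R.length - 4))) + u -
          QQ γ * (R.length - 4 : ℕ) * l2)) *
        (fun t => eE (-κ * |t| + min 0 (β * (t - m))))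
          (ω (M.eC (ctr R) ((1 / 2 : ℝ) ^ (R.length - 4))) + u -
            QQ γ * (R.length - 4 : ℕ) * l2) ∂gm := by
  obtain ⟨K0, hK0⟩ := hMB γ hγ lam q (4 * l2) hlam hq hq1 hq2
  obtain ⟨K1, hK1⟩ := loc hD hT3 γ q β lam (γ + κ) K0 hq hβ hβq
  have hl := FM.l2_pos
  have hQ : 0 < QQ γ := by
    have := hγ.1
    unfold QQ
    positivity
  set c1 : ℝ := c0 - 4 * QQ γ * l2 with hc1
  set c2 : ℝ := Real.log 400 / γ with hc2
  refine ⟨361 + (κ * (2 * QQ γ * l2) + K1 + β * |c1 + c2|), fun M i0 u m z f R hO hR hf => ?_⟩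
  obtain ⟨-, hDn, hDb, hlog, hV⟩ := geo hMOD hFE hG M i0 hO R hR
  set j := R.length - 4 with hj
  have hjR : (R.length : ℝ) = j + 4 := by
    rw [hj]; push_cast [Nat.cast_sub (by omega : 4 ≤ R.length)]; ring
  set b := M.eC (ctr R) ((1 / 2 : ℝ) ^ j) with hb
  set D := M.eC (ctr R) (4 * side R) - b with hD'
  set s := (lev R.length).filter fun V => ‖ctr V - ctr R‖ ≤ 9 * side R with hs
  have hcard : s.card ≤ 361 := by
    have := hG.2.2.2.2.2.2.2.2.2.2.1 R.length (ctr R) 9 (by norm_num)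
    have h2 : (s.card : ℝ) ≤ 361 := by
      refine le_trans (le_of_eq ?_) (this.trans (by norm_num))
      rfl
    exact_mod_cast h2
  let zV : Dy → ℂ := fun V => (z - corner V) / (side V : ℂ)
  let w : Dy → Option Dy → HH := fun V o => o.elim D fun S => M.eS (S ++ V) - b
  let F : Dy → (Unit → ℝ) × (Option Dy → ℝ) → ℝ≥0∞ := fun V p =>
    eE (γ * (p.1 () + u - QQ γ * j * l2) - κ * |p.1 () + u - QQ γ * j * l2| +
      κ * (2 * QQ γ * l2)) * (eE ((γ + κ) * |p.2 none|) *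
      ind (eE (γ * (m - c2)) ≤ nB (cfg (QQ γ) lam (zV V) (fun S => p.2 (some S))
        (p.1 () + u - QQ γ * j * l2 + c1))))
  have hF : ∀ V, Measurable (F V) := by
    intro V
    refine (meas_eE.comp (by fun_prop)).mul ((meas_eE.comp (by fun_prop)).mul ?_)
    refine (hT3.2.2.2.2.2.2.2.2.2.2.2.1 _ _ ?_).1
    exact measurableSet_le measurable_const
      (hT3.1.comp (meas_cfg _ _ _ (by fun_prop) (by fun_prop)))
  have hn : ENNReal.ofReal (Real.exp (γ * m) / 400) = eE (γ * (m - c2)) := by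
    unfold eE
    congr 1
    rw [mul_sub, hc2, mul_div_cancel₀ _ hγ.1.ne', Real.exp_sub, Real.exp_log (by norm_num)]
  have h1 : ∀ ω : Om, eE (γ * M.YV γ u R ω - κ * |M.YV γ u R ω|) *
      ind (ENNReal.ofReal (Real.exp (γ * m)) ≤ near (addF (M.X γ u ω) f) R) ≤
      ∑ V ∈ s, F V (fun _ => ω b, fun o => ω (w V o)) := by
    intro ω
    have hY : M.YV γ u R ω = (ω b + u - QQ γ * j * l2) + ω D - 2 * QQ γ * l2 := by
      unfold Model.YV Model.Y
      rw [hlog, hD', map_sub]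
      ring
    have h2 : eE (γ * M.YV γ u R ω - κ * |M.YV γ u R ω|) ≤
        eE (γ * (ω b + u - QQ γ * j * l2) - κ * |ω b + u - QQ γ * j * l2| +
          κ * (2 * QQ γ * l2)) * eE ((γ + κ) * |ω D|) := by
      rw [← eE_add, hY]
      refine eE_mono ?_
      set y := ω b + u - QQ γ * j * l2
      have e0 : 0 ≤ 2 * QQ γ * l2 := by positivity
      have e1 : |y| ≤ |y + ω D - 2 * QQ γ * l2| + |ω D| + 2 * QQ γ * l2 := by
        rw [abs_le]
        have := le_abs_self (y + ω D - 2 * QQ γ * l2)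
        have := neg_abs_le (y + ω D - 2 * QQ γ * l2)
        have := le_abs_self (ω D)
        have := neg_abs_le (ω D)
        constructor <;> linarith
      have e2 := le_abs_self (ω D)
      nlinarith [mul_le_mul_of_nonneg_left e1 hκ.le, mul_le_mul_of_nonneg_left e2 hγ.1.le,
        mul_nonneg hγ.1.le e0]
    have h3 := pigeon s hcard (fun V => nB (sub (addF (M.X γ u ω) f) V)) (Real.exp_pos (γ * m))
    rw [hn] at h3
    refine (mul_le_mul' h2 h3).trans ?_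
    rw [Finset.mul_sum]
    refine Finset.sum_le_sum fun V hVs => ?_
    rw [mul_assoc]
    refine mul_le_mul_right (mul_le_mul_right (ind_mono fun h => h.trans ?_) _) _
    refine hT1.2.2.2.2.2.2.2.2.2.2.2.2.2.2.2.1 _ _ fun S => ?_
    have hVl : V.length = R.length := (hT1.1 _ _).1 (Finset.mem_filter.1 hVs).1
    have hsV : side V = side R := by rw [side, side, hVl]
    have e1 := hf (S ++ V)
    rw [← hsV, ins_scale hG] at e1
    simp only [sub, addF, Model.X, drift, cfg, w, zV, Option.elim, map_sub, List.length_append,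
      hVl, Nat.cast_add, hjR, hc1]
    linarith
  have h4 : ∀ V ∈ s, ∫⁻ ω, F V (fun _ => ω b, fun o => ω (w V o)) ∂gm ≤
      eE (κ * (2 * QQ γ * l2) + K1 + β * |c1 + c2|) *
        ∫⁻ ω, eE (γ * (ω b + u - QQ γ * j * l2)) *
          eE (-κ * |ω b + u - QQ γ * j * l2| + min 0 (β * (ω b + u - QQ γ * j * l2 - m))) ∂gm := by
    intro V hVs
    have hVl : V.length = R.length := (hT1.1 _ _).1 (Finset.mem_filter.1 hVs).1
    obtain ⟨hGr, hor⟩ := hV V hVl (Finset.mem_filter.1 hVs).2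
    have ho : ∀ (_ : Unit) (o : Option Dy), ⟪b, w V o⟫ = 0 := by
      rintro _ (_ | S)
      · exact hDb
      · exact hor S
    rw [FAR.indep hG1 hG3 (w V) (fun _ : Unit => b) ho (F V) (hF V),
      ← lintegral_const_mul' _ _ (eE_ne_top _)]
    refine lintegral_mono fun ω => ?_
    simp only [F]
    rw [lintegral_const_mul' _ _ (eE_ne_top _)]
    set y := ω b + u - QQ γ * j * l2
    have e1 := hK1 (fun S => M.eS (S ++ V) - b) D (zV V) (y + c1) (m - c2) hDn
      (hK0 _ le_rfl _ hGr (y + c1) (zV V))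
    refine (mul_le_mul_right e1 _).trans ?_
    rw [← eE_add, ← eE_add, ← eE_add]
    refine eE_mono ?_
    have e2 : min 0 (β * (y + c1 - (m - c2))) ≤ min 0 (β * (y - m)) + β * |c1 + c2| := by
      have e3 := mul_le_mul_of_nonneg_left (le_abs_self (c1 + c2)) hβ.le
      have e4 := mul_nonneg hβ.le (abs_nonneg (c1 + c2))
      rcases le_total 0 (β * (y - m)) with h | h
      · rw [min_eq_left h]
        exact (min_le_left _ _).trans (by linarith)
      · rw [min_eq_right h]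
        exact (min_le_right _ _).trans (by nlinarith)
    linarith
  calc _ ≤ ∫⁻ ω, ∑ V ∈ s, F V (fun _ => ω b, fun o => ω (w V o)) ∂gm := lintegral_mono h1
    _ = ∑ V ∈ s, ∫⁻ ω, F V (fun _ => ω b, fun o => ω (w V o)) ∂gm := by
        refine lintegral_finsetSum _ fun V _ => (hF V).comp ?_
        exact (meas_fam fun _ : Unit => b).prodMk (meas_fam (w V))
    _ ≤ _ := by
        refine (Finset.sum_le_card_nsmul _ _ _ h4).trans ?_
        refine (nsmul_le_nsmul_left zero_le hcard).trans ?_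
        rw [nsmul_eq_mul, eE_add 361, mul_assoc (eE 361)]
        have := ofReal_le_eE' 361
        rw [ENNReal.ofReal_ofNat] at this
        have h5 : ((361 : ℕ) : ℝ≥0∞) ≤ eE 361 := by exact_mod_cast this
        exact mul_le_mul_left h5 _

end RUN

open RUN in
open FAR (eE_add eE_mono eE_zero eE_ne_top eE_rpow meas_eE meas_fam ind_mono markov) in
theorem blk_RUN (hG1 : St_G1) (hD : St_G1D) (_hG2 : St_G2) (hG3 : St_G3) (_hM0 : St_M0)
    (hMOD : St_MOD) (hFE : St_FE) (_hE1 : St_EXP1) (_hE2 : St_EXP2) (hG : St_GEO1) (hT1 : St_T1)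
    (hT3 : St_T3) (hR : St_RW1) (hR2 : St_RW2) (hMB : St_MBb) (hTL : St_TL) : St_RUN := by
  intro γ hγ κ lam hκ hlam hlγ
  obtain ⟨ha, hQ2, hθ, hγθ, -, -, -⟩ := hR.2.2 γ hγ
  have hγ0 := hγ.1
  set δ : ℝ := min (1 / 2) ((γ - lam) / γ) with hδ
  have hδ0 : 0 < δ := lt_min (by norm_num) (div_pos (by linarith) hγ0)
  have hδ1 : δ ≤ 1 / 2 := min_le_left _ _
  have hδ2 : γ * δ ≤ γ - lam := by
    have := min_le_right (1 / 2) ((γ - lam) / γ)
    rw [← hδ, le_div_iff₀ hγ0] at this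
    linarith
  set k : ℝ := min (κ / 2) (γ * δ / 2) with hk
  have hk0 : 0 < k := lt_min (by linarith) (by positivity)
  have hk1 : k ≤ κ / 2 := min_le_left _ _
  have hk2 : k ≤ γ * δ / 2 := min_le_right _ _
  refine ⟨2 + 4 * aa γ / k, k / (2 * γ), by have := div_pos (by linarith : 0 < 4 * aa γ) hk0; linarith,
    by positivity, fun c0 C1 => ?_⟩
  have hq1 : th γ + δ < 4 / γ ^ 2 := by unfold th; linarith
  have hq2 : γ * (th γ + δ) < 2 * (QQ γ - lam) := by
    rw [mul_add, hγθ]; unfold aa; linarith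
  obtain ⟨K1, hK1⟩ := tl1 hR hR2 hG hTL hγ hκ
  obtain ⟨K2, hK2⟩ := root hG1 hD hG3 hMOD hFE hG hT1 hT3 hMB hγ κ lam (th γ + δ)
    (2 * aa γ + γ * δ / 2) c0 hκ hlam (by linarith) hq1 hq2 (by positivity)
    (by rw [mul_add, hγθ]; nlinarith)
  obtain ⟨K3, hK3⟩ := levsum hD hR hT1 hγ
  obtain ⟨K4, hK4⟩ := le_eE_of_ne (FM.int_abs (half_pos hκ))
  set K5 : ℝ := max (K1 + γ ^ 2 * C1 / 2)
    (K2 + K3 + γ ^ 2 * C1 / 2 + 2 * aa γ * QQ γ * max C1 0 + K4) with hK5
  refine ⟨Real.exp (1 + K5), fun M i0 v u n r Γ z f hO hC hr hv hΓ hS hu hn => ?_⟩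
  have hr1 : 1 ≤ r := by have := div_pos (by linarith : 0 < 4 * aa γ) hk0; linarith
  rcases hv.eq_or_lt with rfl | hv0
  · have h1 := hK1 M i0 r 0 u Γ hO hr1 le_rfl hΓ
    rw [ENNReal.ofReal_zero, zero_mul] at h1
    refine le_trans (le_trans ?_ h1) zero_le
    refine ENNReal.tsum_le_tsum fun R => mul_le_mul_right (lintegral_mono fun ω => ?_) _
    exact mul_le_mul_right (ind_le_one _) _
  have hn0 : 0 < n := (Real.exp_pos _).trans_le hn
  obtain ⟨m, rfl⟩ : ∃ m, n = Real.exp (γ * m) :=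
    ⟨Real.log n / γ, by rw [mul_div_cancel₀ _ hγ0.ne', Real.exp_log hn0]⟩
  obtain ⟨lv, rfl⟩ : ∃ lv, v = Real.exp lv := ⟨Real.log v, (Real.exp_log hv0).symm⟩
  have hum : u ≤ m := le_of_mul_le_mul_left (Real.exp_le_exp.1 hn) hγ0
  have hm : 0 ≤ m := hu.trans hum
  have hrhs : ENNReal.ofReal (Real.exp (1 + K5) * Real.exp lv * Real.exp (γ * u) *
      (Real.exp (γ * u) / Real.exp (γ * m)) ^ th γ * Real.exp (γ * m) ^ (-(k / (2 * γ)))) =
      eE (1 + (K5 + lv + γ * u + 2 * aa γ * (u - m) - k * m / 2)) := by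
    unfold eE
    congr 1
    rw [← Real.exp_sub, ← Real.exp_mul, ← Real.exp_mul, ← Real.exp_add, ← Real.exp_add,
      ← Real.exp_add, ← Real.exp_add, ← hγθ]
    congr 1
    field_simp
    ring
  rw [hrhs]
  let Γ2 : Dy → ℝ × Om → ℝ≥0∞ := fun R p =>
    eE ((1 - r) * (lv + k * m / 2 + (γ * p.1 - κ * |p.1|))) * Γ R p ^ r
  have hΓ2 : RootW M γ κ 1 i0 (Real.exp (lv + (1 - r) * (k * m / 2))) Γ2 := by
    refine ⟨fun R => (meas_eE.comp (by fun_prop)).mul ((hΓ.meas R).pow_const r), ?_, ?_⟩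
    · intro R y i h1 h2 s ω
      simp only [Γ2]
      have h3 := hΓ.inv R y i h1 h2 s ω
      simp only at h3
      rw [h3]
    · intro R y
      simp only [Γ2, ENNReal.rpow_one]
      rw [lintegral_const_mul' _ _ (eE_ne_top _)]
      refine (mul_le_mul_right (hΓ.bd R y) _).trans (le_of_eq ?_)
      rw [← Real.exp_add, ← Real.exp_add]
      change _ * eE _ ^ r = eE _
      rw [eE_rpow, ← eE_add]
      congr 1
      ring
  have hB := hK1 M i0 1 _ u Γ2 hO le_rfl (Real.exp_pos _).le hΓ2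
  let g : ℝ → ℝ≥0∞ := fun t => eE (-κ * |t| + min 0 ((2 * aa γ + γ * δ / 2) * (t - m)))
  have hg : Measurable g := meas_eE.comp (by fun_prop)
  have hA := hK3 M.C0 u i0 (fun R => M.eC (ctr R) ((1 / 2 : ℝ) ^ (R.length - 4))) g hg hO.2
    fun R hR => (geo hMOD hFE hG M i0 hO R hR).1
  have hI : ∫⁻ t, g t * eE (min 0 (-(2 * aa γ) * (t - u - QQ γ * M.C0))) ≤
      eE (2 * aa γ * QQ γ * max C1 0 + (2 * aa γ * (u - m) - k * m)) * eE K4 := by
    refine le_trans ?_ (mul_le_mul_right hK4 _)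
    rw [← lintegral_const_mul' _ _ (eE_ne_top _)]
    refine lintegral_mono fun t => ?_
    simp only [g]
    rw [← eE_add, ← eE_add]
    refine eE_mono ?_
    have e1 := expo κ (2 * aa γ + γ * δ / 2) (aa γ) k u m t hκ ha hk0 hk1 (by linarith) hu hum
    have e2 : min 0 (-(2 * aa γ) * (t - u - QQ γ * M.C0)) ≤
        min 0 (-(2 * aa γ) * (t - u)) + 2 * aa γ * QQ γ * max C1 0 := by
      have e0 : 0 ≤ 2 * aa γ * QQ γ := by positivity
      have e3 := mul_le_mul_of_nonneg_left (hC.trans (le_max_left C1 0)) e0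
      have e4 := mul_nonneg e0 (le_max_right C1 0)
      rcases le_total 0 (-(2 * aa γ) * (t - u)) with h | h
      · rw [min_eq_left h]
        exact (min_le_left _ _).trans (by linarith)
      · rw [min_eq_right h]
        exact (min_le_right _ _).trans (by nlinarith)
    linarith
  have h1 : ∀ R : Dy, ind (i0 + 4 ≤ R.length) * ∫⁻ ω, Γ R (M.YV γ u R ω, ω) *
      ind (ENNReal.ofReal (Real.exp (γ * m)) ≤ near (addF (M.X γ u ω) (f R)) R) ∂gm ≤
      eE (lv + k * m / 2 + K2) * (ind (i0 + 4 ≤ R.length) *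
        ∫⁻ ω, eE (γ * (ω (M.eC (ctr R) ((1 / 2 : ℝ) ^ (R.length - 4))) + u -
          QQ γ * (R.length - 4 : ℕ) * l2)) *
        g (ω (M.eC (ctr R) ((1 / 2 : ℝ) ^ (R.length - 4))) + u -
            QQ γ * (R.length - 4 : ℕ) * l2) ∂gm) +
      ind (i0 + 4 ≤ R.length) * ∫⁻ ω, Γ2 R (M.YV γ u R ω, ω) * 1 ∂gm := by
    intro R
    by_cases hR : i0 + 4 ≤ R.length
    swap
    · simp [ind, hR]
    have hi : ind (i0 + 4 ≤ R.length) = 1 := by simp [ind, hR]
    simp only [hi, one_mul, mul_one]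
    have hm2 : Measurable fun ω => Γ2 R (M.YV γ u R ω, ω) :=
      (hΓ2.meas R).comp (((hT3.2.2.2.2.2.2.2.2.2.2.1 M γ u).2 _ _).prodMk measurable_id)
    calc _ ≤ ∫⁻ ω, eE (lv + k * m / 2) * (eE (γ * M.YV γ u R ω - κ * |M.YV γ u R ω|) *
          ind (ENNReal.ofReal (Real.exp (γ * m)) ≤ near (addF (M.X γ u ω) (f R)) R)) +
          Γ2 R (M.YV γ u R ω, ω) ∂gm := by
          refine lintegral_mono fun ω => ?_
          rw [← mul_assoc, ← eE_add]
          exact young _ _ _ r hr1 (ind_le_one _)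
      _ ≤ _ := by
          rw [lintegral_add_right _ hm2, lintegral_const_mul' _ _ (eE_ne_top _), eE_add _ K2,
            mul_assoc]
          refine add_le_add_left (mul_le_mul_right ?_ _) _
          exact hK2 M i0 u m (z R) (f R) R hO hR (hS.2 R)
  refine (ENNReal.tsum_le_tsum h1).trans ?_
  rw [ENNReal.tsum_add, ENNReal.tsum_mul_left]
  refine (add_le_add (mul_le_mul_right (hA.trans (mul_le_mul_right hI _)) _) hB).trans ?_
  change _ + eE _ * _ ≤ _
  rw [← eE_add, ← eE_add, ← eE_add, ← eE_add]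
  have e1 : K1 + γ ^ 2 * C1 / 2 ≤ K5 := le_max_left _ _
  have e2 : K2 + K3 + γ ^ 2 * C1 / 2 + 2 * aa γ * QQ γ * max C1 0 + K4 ≤ K5 := le_max_right _ _
  have e3 := mul_le_mul_of_nonneg_left hC (sq_nonneg γ)
  refine eE_add_le (by linarith) ?_
  have e4 : (1 + 4 * aa γ / k) * (k * m / 2) ≤ (r - 1) * (k * m / 2) :=
    mul_le_mul_of_nonneg_right (by linarith) (by positivity)
  have e5 : (1 + 4 * aa γ / k) * (k * m / 2) = k * m / 2 + 2 * aa γ * m := by
    field_simp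
    ring
  nlinarith [mul_nonneg ha.le hu]

end

end Pool.Agent.Lib.APPS
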