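import Pool.Agent.Lib.APPS.Blue1

/-! Block RW1: Green bounds for the Gaussian walk with drift, and the constants. -/

namespace Pool.Agent.Lib.APPS

open Set Finset
open scoped ENNReal Classical

namespace RW1

lemma l2_pos : 0 < l2 := Real.log_pos one_lt_two

lemma pd_nonneg (v t : ℝ) : 0 ≤ pd v t := by unfold pd; positivity

lemma pd_tilt (v s lam : ℝ) :
    pd v s = Real.exp (-lam * s + lam ^ 2 * v / 2) * pd v (s - lam * v) := by
  unfold pd
  rcases le_or_gt v 0 with h | h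
  · rw [Real.sqrt_eq_zero_of_nonpos (by nlinarith [Real.pi_pos])]
    simp
  · rw [mul_left_comm, ← Real.exp_add]
    congr 2
    field_simp
    ring

lemma pd_neg (v t : ℝ) : pd v (-t) = pd v t := by simp [pd]

lemma pd_refl (v t a : ℝ) : pd v (t + a * v) = Real.exp (-(2 * a) * t) * pd v (-t + a * v) := by
  rw [pd_tilt v (t + a * v) (2 * a), ← pd_neg v (-t + a * v)]
  congr 2 <;> ring

lemma tsum_le {f : ℕ → ℝ} {B : ℝ} (h0 : ∀ k, 0 ≤ f k) (h : ∀ n, ∑ k ∈ range n, f k ≤ B) :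
    ∑' k, ENNReal.ofReal (f k) ≤ ENNReal.ofReal B := by
  rw [ENNReal.tsum_eq_iSup_nat]
  refine iSup_le fun n => ?_
  rw [← ENNReal.ofReal_sum_of_nonneg fun k _ => h0 k]
  exact ENNReal.ofReal_le_ofReal (h n)

/-- the logistic function -/
noncomputable def G (u : ℝ) : ℝ := 1 - (1 + Real.exp u)⁻¹

lemma G_nonneg (u : ℝ) : 0 ≤ G u :=
  sub_nonneg.2 (inv_le_one_of_one_le₀ (by linarith [Real.exp_pos u]))

lemma G_le (u : ℝ) : G u ≤ 1 := sub_le_self _ (by positivity)

lemma G_mono {x y : ℝ} (h : x ≤ y) : G x ≤ G y := by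
  unfold G
  gcongr

lemma G_step {x y δ : ℝ} (h0 : 0 ≤ δ) (h1 : δ ≤ 1) (h : x + δ ≤ y) :
    δ * Real.exp (-x ^ 2 / 2) ≤ 24 * (G y - G x) := by
  have e1 : Real.exp (-x ^ 2 / 2) ≤ 2 * Real.exp (-|x|) := by
    have a : -x ^ 2 / 2 ≤ 1 / 2 + -|x| := by nlinarith [sq_nonneg (|x| - 1), sq_abs x]
    have b : Real.exp (1 / 2) ≤ 2 := by
      have := Real.exp_one_lt_d9
      have c : Real.exp (1 / 2) * Real.exp (1 / 2) = Real.exp 1 := by rw [← Real.exp_add]; norm_num
      nlinarith [Real.exp_pos (1 / 2)]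
    refine (Real.exp_le_exp.2 a).trans ?_
    rw [Real.exp_add]
    gcongr
  obtain ⟨E, hE⟩ : ∃ E, E = Real.exp x := ⟨_, rfl⟩
  have E0 : 0 < E := hE ▸ Real.exp_pos x
  have e2 : Real.exp (-|x|) * (1 + E) ^ 2 ≤ 4 * E := by
    rcases le_total 0 x with hx | hx
    · have : 1 ≤ E := hE ▸ Real.one_le_exp hx
      rw [abs_of_nonneg hx, Real.exp_neg, ← hE, inv_mul_le_iff₀ E0]
      nlinarith
    · have : E ≤ 1 := hE ▸ Real.exp_le_one_iff.2 hx
      rw [abs_of_nonpos hx, neg_neg, ← hE]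
      nlinarith [mul_nonneg E0.le (sub_nonneg.2 this), mul_pos E0 E0]
  obtain ⟨D, hD⟩ : ∃ D, D = Real.exp δ := ⟨_, rfl⟩
  have D1 : δ + 1 ≤ D := hD ▸ Real.add_one_le_exp δ
  have D3 : D ≤ 3 := hD ▸ (Real.exp_le_exp.2 h1).trans (by linarith [Real.exp_one_lt_d9])
  have e3 : G (x + δ) - G x = E * (D - 1) / ((1 + E) * (1 + E * D)) := by
    have : 0 < 1 + E * D := by nlinarith
    rw [G, G, Real.exp_add, ← hE, ← hD]
    field_simp
    ring
  have e4 : E * δ / (3 * (1 + E) ^ 2) ≤ G (x + δ) - G x := by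
    rw [e3]
    have D0 : 0 < D := by linarith
    refine div_le_div₀ (by nlinarith) (by nlinarith) (by positivity) ?_
    nlinarith [mul_le_mul_of_nonneg_left D3 E0.le]
  have e5 : δ * Real.exp (-|x|) ≤ 12 * (E * δ / (3 * (1 + E) ^ 2)) := by
    rw [← mul_div_assoc, le_div_iff₀ (by positivity)]
    nlinarith [mul_le_mul_of_nonneg_left e2 h0]
  have e6 := G_mono h
  nlinarith [mul_le_mul_of_nonneg_left e1 h0]

lemma sqrt_step {v l η s0 : ℝ} (h0 : 0 < s0) (hv : s0 ≤ v) (η0 : 0 ≤ η) (η1 : η ≤ s0)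
    (η2 : 3 * η ≤ l) : √v + η / √v ≤ √(v + l) := by
  have v0 : 0 < v := h0.trans_le hv
  have r0 : 0 < √v := Real.sqrt_pos.2 v0
  refine Real.le_sqrt_of_sq_le ?_
  have e : (√v + η / √v) ^ 2 = v + 2 * η + η ^ 2 / v := by
    rw [add_sq, div_pow, Real.sq_sqrt v0.le]
    field_simp
  have : η ^ 2 / v ≤ η := by
    rw [div_le_iff₀ v0]
    nlinarith
  linarith

lemma green {a s0 : ℝ} (ha : 0 < a) (h0 : 0 < s0) : ∃ C : ℝ, 0 ≤ C ∧ ∀ s ≥ s0, ∀ (t : ℝ) (n : ℕ),
    ∑ k ∈ range n, pd (s + k * l2) (t + a * (s + k * l2)) ≤ C := by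
  have hl := l2_pos
  obtain ⟨η', p0, p1, p2⟩ : ∃ η' : ℝ, 0 < η' ∧ η' ≤ s0 ∧ 3 * η' ≤ l2 :=
    ⟨min s0 (l2 / 3), by positivity, min_le_left _ _, by linarith [min_le_right s0 (l2 / 3)]⟩
  obtain ⟨η, q0, q1, q2⟩ : ∃ η : ℝ, 0 < η ∧ η ≤ a * η' ∧ η ≤ √s0 :=
    ⟨min (a * η') √s0, by positivity, min_le_left _ _, min_le_right _ _⟩
  refine ⟨24 / η, by positivity, fun s hs t n => ?_⟩
  wlog ht : t ≤ 0 generalizing t
  · refine le_trans (sum_le_sum fun k _ => ?_) (this 0 le_rfl)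
    have v0 : 0 < s + k * l2 := by have : 0 < s := h0.trans_le hs; positivity
    unfold pd
    refine mul_le_mul_of_nonneg_left (Real.exp_le_exp.2 (div_le_div_of_nonneg_right ?_
      (by positivity))) (by positivity)
    nlinarith [mul_pos ha v0, not_le.1 ht]
  let u : ℕ → ℝ := fun k => a * √(s + k * l2) + t / √(s + k * l2)
  have key : ∀ k : ℕ, pd (s + k * l2) (t + a * (s + k * l2)) ≤ 24 / η * (G (u (k + 1)) - G (u k)) := by
    intro k
    have hv : s0 ≤ s + k * l2 := hs.trans (le_add_of_nonneg_right (by positivity))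
    have e : s + ((k + 1 : ℕ) : ℝ) * l2 = s + k * l2 + l2 := by push_cast; ring
    simp only [u, e]
    generalize s + k * l2 = v at hv
    have v0 : 0 < v := h0.trans_le hv
    have r0 : 0 < √v := Real.sqrt_pos.2 v0
    have r1 : √s0 ≤ √v := Real.sqrt_le_sqrt hv
    have a1 := sqrt_step h0 hv p0.le p1 p2
    have a2 : t / √v ≤ t / √(v + l2) := by
      rw [← neg_le_neg_iff, ← neg_div, ← neg_div]
      exact div_le_div_of_nonneg_left (by linarith) r0 (Real.sqrt_le_sqrt (by linarith))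
    have a3 : η / √v ≤ a * (η' / √v) := by rw [← mul_div_assoc]; gcongr
    have a4 := G_step (x := a * √v + t / √v) (y := a * √(v + l2) + t / √(v + l2)) (δ := η / √v)
      (by positivity) (by rw [div_le_one r0]; linarith)
      (by nlinarith [mul_le_mul_of_nonneg_left a1 ha.le])
    have a5 : -(t + a * v) ^ 2 / (2 * v) = -(a * √v + t / √v) ^ 2 / 2 := by
      obtain ⟨r, hr⟩ : ∃ r, r = √v := ⟨_, rfl⟩
      have : v = r ^ 2 := by rw [hr, Real.sq_sqrt v0.le]
      rw [← hr] at r0 ⊢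
      rw [this]
      field_simp
      ring
    have a6 : (√(2 * Real.pi * v))⁻¹ ≤ (√v)⁻¹ :=
      inv_anti₀ r0 (Real.sqrt_le_sqrt (by nlinarith [Real.pi_gt_three]))
    rw [pd, a5, div_mul_eq_mul_div, le_div_iff₀ q0]
    refine le_trans ?_ a4
    rw [mul_right_comm, div_eq_mul_inv η, mul_comm η]
    gcongr
  refine (sum_le_sum fun k _ => key k).trans ?_
  rw [← mul_sum, sum_range_sub fun k => G (u k)]
  exact mul_le_of_le_one_right (by positivity) (by linarith [G_le (u n), G_nonneg (u 0)])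

lemma tail {a s0 : ℝ} (ha : 0 < a) (h0 : 0 < s0) : ∃ C : ℝ, 0 ≤ C ∧ ∀ s ≥ s0, ∀ (t : ℝ) (K n : ℕ),
    ∑ k ∈ range n, (if K ≤ k then pd (s + k * l2) (t + a * (s + k * l2)) else 0) ≤
      C * Real.exp (-a * t - a ^ 2 * K * l2 / 2) := by
  have hl := l2_pos
  obtain ⟨r, hr⟩ : ∃ r, r = Real.exp (-(a ^ 2 * l2 / 2)) := ⟨_, rfl⟩
  have r0 : 0 < r := hr ▸ Real.exp_pos _
  have r1 : r < 1 := hr ▸ Real.exp_lt_one_iff.2 (neg_lt_zero.2 (by positivity))
  have hp : ∀ (t : ℝ) (k : ℕ), Real.exp (-a * t - a ^ 2 * k * l2 / 2) = Real.exp (-a * t) * r ^ k := by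
    intro t k
    rw [hr, ← Real.exp_nat_mul, ← Real.exp_add]
    congr 1
    ring
  refine ⟨(√s0)⁻¹ / (1 - r), div_nonneg (by positivity) (by linarith), fun s hs t K n => ?_⟩
  have key : ∀ k : ℕ, pd (s + k * l2) (t + a * (s + k * l2)) ≤
      (√s0)⁻¹ * Real.exp (-a * t) * r ^ k := by
    intro k
    have s1 : 0 < s := h0.trans_le hs
    have hv : s0 ≤ s + k * l2 := hs.trans (le_add_of_nonneg_right (by positivity))
    have v0 : 0 < s + k * l2 := h0.trans_le hv
    rw [pd, mul_assoc (√s0)⁻¹, ← hp]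
    refine mul_le_mul (inv_anti₀ (Real.sqrt_pos.2 h0)
      (Real.sqrt_le_sqrt (by nlinarith [Real.pi_gt_three]))) (Real.exp_le_exp.2 ?_)
      (Real.exp_pos _).le (by positivity)
    rw [div_le_iff₀ (by positivity)]
    nlinarith [sq_nonneg t, mul_pos (mul_pos (pow_pos ha 2) s1) v0]
  rw [← sum_filter, show (range n).filter (fun k => K ≤ k) = Finset.Ico K n by
    ext k; simp [and_comm]]
  refine (sum_le_sum fun k _ => key k).trans ?_
  rw [← mul_sum, hp]
  refine (mul_le_mul_of_nonneg_left (geom_sum_Ico_le_of_lt_one r0.le r1) (by positivity)).trans_eq ?_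
  ring

end RW1

open RW1 in
theorem blk_RW1 : St_RW1 := by
  refine ⟨fun a ha s0 h0 => ?_, fun γ hγ C t u k => ?_, fun γ hγ => ?_⟩
  · obtain ⟨C1, c1, h1⟩ := green ha h0
    obtain ⟨C2, c2, h2⟩ := tail ha h0
    refine ⟨C1 + C2, fun s hs t => ?_⟩
    have e : ∀ k : ℕ, t + a * k * l2 = (t - a * s) + a * (s + k * l2) := fun k => by ring
    simp only [e]
    generalize t - a * s = t'
    refine ⟨tsum_le (fun _ => pd_nonneg _ _) fun n => ?_, fun K => ?_⟩
    · rw [mul_min_of_nonneg _ _ (by linarith)]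
      refine le_min (by linarith [h1 s hs t' n]) ?_
      simp only [pd_refl _ t', ← mul_sum]
      rw [mul_comm]
      gcongr
      linarith [h1 s hs (-t') n]
    · refine le_trans (le_of_eq (tsum_congr fun k => ?_)) (tsum_le (f := fun k =>
        if K ≤ k then pd (s + k * l2) (t' + a * (s + k * l2)) else 0) (fun k => ?_) fun n =>
          (h2 s hs t' K n).trans ?_)
      · unfold ind
        split_ifs <;> simp
      · split_ifs
        · exact pd_nonneg _ _
        · exact le_rfl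
      · gcongr
        linarith
  · have g0 : γ ≠ 0 := hγ.1.ne'
    have e4 : (4 : ℝ) ^ k = Real.exp (2 * k * l2) := by
      rw [show 2 * (k : ℝ) * l2 = k * (2 * l2) by ring, Real.exp_nat_mul, l2,
        show 2 * Real.log 2 = Real.log 4 by
          rw [show (4 : ℝ) = 2 ^ 2 by norm_num, Real.log_pow]; norm_num, Real.exp_log (by norm_num)]
    constructor
    · rw [e4, pd_tilt _ _ γ, ← mul_assoc, ← Real.exp_add]
      congr 2
      · unfold QQ; field_simp; ring
      · unfold aa; ring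
    · rw [e4, pd_tilt _ _ (4 / γ), ← mul_assoc, ← Real.exp_add]
      congr 2
      · unfold QQ; field_simp; ring
      · unfold aa QQ; field_simp; ring
  · obtain ⟨g0, g2⟩ := hγ
    have q : QQ γ = (γ ^ 2 + 4) / (2 * γ) := by unfold QQ; field_simp; ring
    have q2 : 2 < QQ γ := by
      rw [q, lt_div_iff₀ (by positivity)]
      nlinarith [sq_pos_of_pos (sub_pos.2 g2)]
    have q3 : γ * QQ γ = 2 + γ ^ 2 / 2 := by unfold QQ; field_simp; ring
    refine ⟨?_, q2, ?_, ?_, q3, ?_, ?_, ?_, ?_⟩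
    · rw [aa, q, sub_pos, lt_div_iff₀ (by positivity)]
      nlinarith
    · rw [th, sub_pos, lt_div_iff₀ (by positivity)]
      nlinarith
    · unfold th aa QQ; field_simp; ring
    · unfold aa QQ; field_simp; ring
    · unfold bt; positivity
    · rw [bt, div_lt_one (by linarith)]; exact q2
    · rw [bt, div_lt_iff₀ (by linarith), q3]
      nlinarith

end Pool.Agent.Lib.APPS
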