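import Pool.Agent.Lib.APPS.B_RW2a

/-!
Random walk block RW2: Kac moment bound and Chernoff type bounds.
-/

namespace Pool.Agent.Lib.APPS

open MeasureTheory ProbabilityTheory Filter Topology Set Metric
open scoped NNReal ENNReal RealInnerProductSpace Classical

noncomputable section

namespace RW2

theorem meas_ek (κ : ℝ) : Measurable fun x : ℝ => eE (-κ * |x|) :=
  meas_eE.comp (by fun_prop)

/-- uniform Green bound for the weight `exp (-κ |x|)` -/
def GB (a κ : ℝ) (C : ℝ≥0∞) : Prop :=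
  ∀ (b : ℕ → HH) (s u : ℝ), 0 ≤ s → IsWk b s →
    ∑' k : ℕ, ∫⁻ ω, eE (-κ * |wk a b u ω k|) ∂gm ≤ C

theorem gb (h1 : St_G1) (hD : St_G1D) (hR : St_RW1) {a κ : ℝ} (ha : 0 < a) (hκ : 0 < κ) :
    ∃ C, C ≠ ∞ ∧ GB a κ C := by
  obtain ⟨C, hC, h⟩ := green hD hR ha
  refine ⟨1 + C * ∫⁻ x : ℝ, eE (-κ * |x|),
    ENNReal.add_ne_top.2 ⟨ENNReal.one_ne_top, ENNReal.mul_ne_top hC (lap_fin hκ)⟩, ?_⟩
  intro b s u hs hb
  refine green0 h1 h b s u hs hb _ (meas_ek κ) fun x => eE_le_one ?_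
  have := abs_nonneg x
  nlinarith

theorem visits (h1 : St_G1) (hD : St_G1D) (hR : St_RW1) {a : ℝ} (ha : 0 < a) :
    ∃ C : ℝ≥0∞, C ≠ ∞ ∧ ∀ (b : ℕ → HH) (s u y : ℝ), IsWk b s →
      (0 ≤ s → ∑' i, ∫⁻ ω, ind (wk a b u ω i ∈ Ico y (y + 1)) ∂gm ≤ 1 + C) ∧
      (l2 ≤ s → ∑' i, ∫⁻ ω, ind (wk a b u ω i ∈ Ico y (y + 1)) ∂gm ≤
        C * ENNReal.ofReal (min 1 (Real.exp (-(2 * a) * (y - u - a * s))))) := by
  obtain ⟨C, hC, h⟩ := green hD hR ha
  refine ⟨C, hC, fun b s u y hb => ?_⟩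
  have hm : Measurable fun x : ℝ => ind (x ∈ Ico y (y + 1)) := meas_ind measurableSet_Ico
  have hv : ∫⁻ x : ℝ, ind (x ∈ Ico y (y + 1)) = 1 := by
    have : (fun x : ℝ => ind (x ∈ Ico y (y + 1))) = (Ico y (y + 1)).indicator 1 := by
      funext x
      by_cases hx : x ∈ Ico y (y + 1)
      · rw [ind_pos hx, indicator_of_mem hx]; rfl
      · rw [ind_neg hx, indicator_of_notMem hx]
    rw [this, lintegral_indicator_one measurableSet_Ico]
    simp
  refine ⟨fun hs => ?_, fun hs => ?_⟩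
  · have := green0 h1 h b s u hs hb _ hm fun x => ind_le _
    rwa [hv, mul_one] at this
  · refine (h b s u hs hb _ hm).trans ?_
    gcongr
    calc _ ≤ ∫⁻ x : ℝ, ENNReal.ofReal (min 1 (Real.exp (-(2 * a) * (y - u - a * s)))) *
          ind (x ∈ Ico y (y + 1)) := by
          refine lintegral_mono fun x => ?_
          by_cases hx : x ∈ Ico y (y + 1)
          · refine mul_le_mul_left (ENNReal.ofReal_le_ofReal (min_le_min_left _
              (Real.exp_le_exp.2 ?_))) _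
            nlinarith [hx.1]
          · simp only [ind_neg hx, mul_zero, le_refl]
      _ = _ := by rw [lintegral_const_mul' _ _ ENNReal.ofReal_ne_top, hv, mul_one]

theorem green2 (hD : St_G1D) (hR : St_RW1) {a : ℝ} (ha : 0 < a) :
    ∃ C : ℝ≥0∞, C ≠ ∞ ∧ ∀ (b : ℕ → HH) (s u r M : ℝ), l2 ≤ s → IsWk b s →
      ∀ φ : ℝ → ℝ≥0∞, Measurable φ → (∀ x, φ x ≤ eE (2 * a * x + M - a * |x - r|)) →
      ∑' i, ∫⁻ ω, φ (wk a b u ω i) ∂gm ≤ C * eE (2 * a * (u + a * s) + M) := by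
  obtain ⟨C, hC, h⟩ := green hD hR ha
  refine ⟨C * ∫⁻ x : ℝ, eE (-a * |x|), ENNReal.mul_ne_top hC (lap_fin ha), ?_⟩
  intro b s u r M hs hb φ hφ hle
  refine (h b s u hs hb φ hφ).trans ?_
  rw [mul_assoc]
  gcongr
  rw [← lintegral_sub_right_eq_self (fun x : ℝ => eE (-a * |x|)) r,
    ← lintegral_mul_const' _ _ (eE_ne _)]
  refine lintegral_mono fun x => ?_
  calc _ ≤ eE (-(2 * a) * (x - u - a * s)) * eE (2 * a * x + M - a * |x - r|) :=
        mul_le_mul' (ENNReal.ofReal_le_ofReal (min_le_right _ _)) (hle x)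
    _ = _ := by
        rw [← eE_add, ← eE_add]
        congr 1
        ring

theorem pow_step (A x : ℝ≥0∞) (m : ℕ) :
    (A + x) ^ (m + 1) ≤ A ^ (m + 1) + (m + 1) * x * (A + x) ^ m := by
  induction m with
  | zero => simp
  | succ m ih =>
    have hA : A ^ (m + 1) ≤ (A + x) ^ (m + 1) := by gcongr; exact le_self_add
    calc (A + x) ^ (m + 1 + 1) = (A + x) * (A + x) ^ (m + 1) := by ring
      _ ≤ (A + x) * (A ^ (m + 1) + (m + 1) * x * (A + x) ^ m) := by gcongr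
      _ = A ^ (m + 1 + 1) + (x * A ^ (m + 1) + (m + 1) * x * (A + x) ^ (m + 1)) := by ring
      _ ≤ A ^ (m + 1 + 1) + (x * (A + x) ^ (m + 1) + (m + 1) * x * (A + x) ^ (m + 1)) := by
          gcongr
      _ = _ := by push_cast; ring

theorem tele (c : ℝ≥0∞) (m k : ℕ) (x : ℕ → ℝ≥0∞) :
    (c + ∑ j ∈ Finset.range k, x j) ^ (m + 1) ≤ c ^ (m + 1) + (m + 1) *
      ∑ i ∈ Finset.range k, x i * (c + ∑ j ∈ Finset.range (k - i), x (i + j)) ^ m := by
  induction k generalizing x with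
  | zero => simp
  | succ k ih =>
    have e1 : c + ∑ j ∈ Finset.range (k + 1), x j =
        (c + ∑ j ∈ Finset.range k, x (j + 1)) + x 0 := by
      rw [Finset.sum_range_succ', add_assoc]
    have e2 : ∑ i ∈ Finset.range (k + 1),
        x i * (c + ∑ j ∈ Finset.range (k + 1 - i), x (i + j)) ^ m =
        ∑ i ∈ Finset.range k, x (i + 1) * (c + ∑ j ∈ Finset.range (k - i), x (i + j + 1)) ^ m +
          x 0 * ((c + ∑ j ∈ Finset.range k, x (j + 1)) + x 0) ^ m := by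
      rw [Finset.sum_range_succ', ← e1]
      congr 1
      · refine Finset.sum_congr rfl fun i _ => ?_
        have : k + 1 - (i + 1) = k - i := by omega
        rw [this]
        congr 3
        refine Finset.sum_congr rfl fun j _ => ?_
        congr 1
        omega
      · simp
    rw [e1, e2]
    refine (pow_step _ _ m).trans ?_
    refine (add_le_add_left (ih fun j => x (j + 1)) _).trans (le_of_eq ?_)
    ring

/-- number of visits to `[y, y+1)` up to time `k` -/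
def nv (y : ℝ) (x : ℕ → ℝ) (k : ℕ) : ℝ≥0∞ := ∑ i ∈ Finset.range (k + 1), ind (x i ∈ Ico y (y + 1))

theorem meas_i (y : ℝ) (i : ℕ) : Measurable fun x : ℕ → ℝ => ind (x i ∈ Ico y (y + 1)) :=
  meas_ind (measurable_pi_apply i measurableSet_Ico)

theorem meas_nv (y : ℝ) (k : ℕ) : Measurable fun x => nv y x k :=
  Finset.measurable_sum _ fun i _ => meas_i y i

def PM (a κ : ℝ) (m : ℕ) (C : ℝ≥0∞) : Prop :=
  ∀ (b : ℕ → HH) (s u y : ℝ), 0 ≤ s → IsWk b s →
    ∑' k : ℕ, ∫⁻ ω, eE (-κ * |wk a b u ω k|) * (1 + nv y (wk a b u ω) k) ^ m ∂gm ≤ C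

theorem kac_step (h1 : St_G1) (h3 : St_G3) {a κ : ℝ} {m : ℕ} {C : ℝ≥0∞} (hC : C ≠ ∞)
    (h : PM a κ m C) {b : ℕ → HH} {s : ℝ} (hb : IsWk b s) (u y : ℝ) {c : ℝ≥0∞} (hc : c ≤ 1) :
    ∑' k : ℕ, ∫⁻ ω, eE (-κ * |wk a b u ω k|) * (c + nv y (wk a b u ω) k) ^ (m + 1) ∂gm ≤
      c ^ (m + 1) * ∑' k : ℕ, ∫⁻ ω, eE (-κ * |wk a b u ω k|) ∂gm +
        (m + 1) * C * ∑' i, ∫⁻ ω, ind (wk a b u ω i ∈ Ico y (y + 1)) ∂gm := by
  set Φ : ℕ → (ℕ → ℝ) → ℝ≥0∞ := fun d x =>
    ind (x 0 ∈ Ico y (y + 1)) * (eE (-κ * |x d|) * (1 + nv y x d) ^ m) with hΦ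
  have mΦ : ∀ d, Measurable (Φ d) := fun d =>
    (meas_i y 0).mul (((meas_ek κ).comp (measurable_pi_apply d)).mul
      (((meas_nv y d).const_add 1).pow_const m))
  have m1 : ∀ i, Measurable fun ω => fun j => wk a b u ω (i + j) := fun i =>
    measurable_pi_lambda _ fun j => meas_wk1 _ _ _ _
  have hc' : c ^ (m + 1) ≠ ∞ := ENNReal.pow_ne_top (ne_top_of_le_ne_top ENNReal.one_ne_top hc)
  have hm' : ((m : ℝ≥0∞) + 1) ≠ ∞ := by simp
  have s1 : ∀ k : ℕ, ∫⁻ ω, eE (-κ * |wk a b u ω k|) * (c + nv y (wk a b u ω) k) ^ (m + 1) ∂gm ≤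
      c ^ (m + 1) * ∫⁻ ω, eE (-κ * |wk a b u ω k|) ∂gm + (m + 1) *
        ∑ i ∈ Finset.range (k + 1), ∫⁻ ω, Φ (k - i) (fun j => wk a b u ω (i + j)) ∂gm := by
    intro k
    rw [← lintegral_finsetSum (f := fun i ω => Φ (k - i) fun j => wk a b u ω (i + j)) _
      (fun i _ => (mΦ _).comp (m1 i)), ← lintegral_const_mul' _ _ hc',
      ← lintegral_const_mul' _ _ hm', ← lintegral_add_left
        (f := fun ω => c ^ (m + 1) * eE (-κ * |wk a b u ω k|))
        (((meas_ek κ).comp (meas_wk1 a b u k)).const_mul _)]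
    refine lintegral_mono fun ω => ?_
    refine (mul_le_mul_right (tele c m (k + 1) fun i => ind (wk a b u ω i ∈ Ico y (y + 1)))
      _).trans ?_
    rw [mul_add, mul_comm _ (c ^ (m + 1)), mul_left_comm, Finset.mul_sum]
    gcongr with i hi
    have hik : i ≤ k := by simpa [Nat.lt_succ_iff] using hi
    have e1 : i + (k - i) = k := by omega
    have e2 : k + 1 - i = k - i + 1 := by omega
    simp only [hΦ, e1, e2, add_zero, nv]
    rw [mul_left_comm]
    gcongr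
  refine (ENNReal.tsum_le_tsum s1).trans ?_
  rw [ENNReal.tsum_add, ENNReal.tsum_mul_left, ENNReal.tsum_mul_left, mul_assoc]
  gcongr
  rw [swap fun i k => ∫⁻ ω, Φ (k - i) (fun j => wk a b u ω (i + j)) ∂gm, ← ENNReal.tsum_mul_left]
  refine ENNReal.tsum_le_tsum fun i => ?_
  simp only [Nat.add_sub_cancel_left]
  rw [← lintegral_const_mul' _ _ hC]
  refine restart' h1 h3 hb i mΦ (φ := fun w => C * ind (w ∈ Ico y (y + 1)))
    ((meas_ind measurableSet_Ico).const_mul _) ?_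
  intro b0 h0 w
  simp only [hΦ, wk_zero h0]
  by_cases hw : w ∈ Ico y (y + 1)
  · simp only [ind_pos hw, one_mul, mul_one]
    exact h b0 0 w y le_rfl h0
  · simp only [ind_neg hw, zero_mul, lintegral_zero, tsum_zero, zero_le]

theorem pm (h1 : St_G1) (hD : St_G1D) (h3 : St_G3) (hR : St_RW1) {a κ : ℝ} (ha : 0 < a)
    (hκ : 0 < κ) (m : ℕ) : ∃ C, C ≠ ∞ ∧ PM a κ m C := by
  obtain ⟨B, hB, hb⟩ := gb h1 hD hR ha hκ
  obtain ⟨V, hV, hv⟩ := visits h1 hD hR ha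
  induction m with
  | zero =>
    refine ⟨B, hB, fun b s u y hs h => ?_⟩
    simpa using hb b s u hs h
  | succ m ih =>
    obtain ⟨C, hC, h⟩ := ih
    refine ⟨B + (m + 1) * C * (1 + V), by finiteness, fun b s u y hs hw => ?_⟩
    refine (kac_step h1 h3 hC h hw u y le_rfl).trans ?_
    rw [one_pow, one_mul]
    gcongr
    · exact hb b s u hs hw
    · exact (hv b s u y hw).1 hs

theorem nv_rpow (y : ℝ) (x : ℕ → ℝ) (k : ℕ) {p : ℝ} (hp : 1 ≤ p) :
    nv y x k ^ p ≤ (0 + nv y x k) ^ (⌈p⌉₊ + 1) := by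
  rw [zero_add]
  by_cases h0 : nv y x k = 0
  · rw [h0, ENNReal.zero_rpow_of_pos (by linarith)]
    exact zero_le
  · obtain ⟨i, hi, hne⟩ := Finset.exists_ne_zero_of_sum_ne_zero h0
    have hx : x i ∈ Ico y (y + 1) := by
      by_contra hc
      exact hne (ind_neg hc)
    have h1 : 1 ≤ nv y x k := by
      rw [← ind_pos hx]
      exact Finset.single_le_sum (f := fun i => ind (x i ∈ Ico y (y + 1)))
        (fun _ _ => zero_le) hi
    rw [← ENNReal.rpow_natCast]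
    refine ENNReal.rpow_le_rpow_of_exponent_le h1 ?_
    push_cast
    linarith [Nat.le_ceil p]

theorem partA (h1 : St_G1) (hD : St_G1D) (h3 : St_G3) (hR : St_RW1) {a κ : ℝ} (ha : 0 < a)
    (hκ : 0 < κ) (p : ℝ) (hp : 1 ≤ p) : ∃ C : ℝ, ∀ (b : ℕ → HH) (s u y : ℝ), 1 ≤ s → IsWk b s →
    ∑' k : ℕ, ∫⁻ ω, eE (-κ * |wk a b u ω k|) *
      (∑ i ∈ Finset.range (k + 1), ind (wk a b u ω i ∈ Ico y (y + 1))) ^ p ∂gm ≤
      ENNReal.ofReal (C * min 1 (Real.exp (-(2 * a) * (y - u - a * s)))) := by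
  obtain ⟨V, hV, hv⟩ := visits h1 hD hR ha
  obtain ⟨C, hC, h⟩ := pm h1 hD h3 hR ha hκ ⌈p⌉₊
  have hf : ((⌈p⌉₊ : ℝ≥0∞) + 1) * C * V ≠ ∞ := by finiteness
  refine ⟨(((⌈p⌉₊ : ℝ≥0∞) + 1) * C * V).toReal, fun b s u y hs hb => ?_⟩
  rw [ENNReal.ofReal_mul ENNReal.toReal_nonneg, ENNReal.ofReal_toReal hf]
  calc _ ≤ ∑' k : ℕ, ∫⁻ ω, eE (-κ * |wk a b u ω k|) *
        (0 + nv y (wk a b u ω) k) ^ (⌈p⌉₊ + 1) ∂gm :=
        ENNReal.tsum_le_tsum fun k => lintegral_mono fun ω =>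
          mul_le_mul_right (nv_rpow y _ k hp) _
    _ ≤ _ := kac_step h1 h3 hC h hb u y zero_le
    _ ≤ _ := by
        rw [zero_pow (Nat.succ_ne_zero _), zero_mul, zero_add, mul_assoc _ V]
        gcongr
        exact (hv b s u y hb).2 (l2_le.trans hs)

/-- after time `i` only the Green constant is lost -/
theorem after (h1 : St_G1) (h3 : St_G3) {a κ : ℝ} {B : ℝ≥0∞} (hB : B ≠ ∞) (h : GB a κ B)
    {b : ℕ → HH} {s : ℝ} (hb : IsWk b s) (u t : ℝ) (i : ℕ) :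
    ∑' d, ∫⁻ ω, eE (-κ * |wk a b u ω (i + d)|) * ind (t < wk a b u ω i) ∂gm ≤
      B * ∫⁻ ω, ind (t < wk a b u ω i) ∂gm := by
  rw [← lintegral_const_mul' _ _ hB]
  have mi : Measurable fun w : ℝ => ind (t < w) := meas_ind measurableSet_Ioi
  refine restart' h1 h3 hb i (Φ := fun d x => eE (-κ * |x d|) * ind (t < x 0))
    (fun d => ((meas_ek κ).comp (measurable_pi_apply d)).mul (mi.comp (measurable_pi_apply 0)))
    (φ := fun w => B * ind (t < w)) (mi.const_mul _) ?_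
  intro b0 h0 w
  simp only [wk_zero h0]
  by_cases hw : t < w
  · simp only [ind_pos hw, mul_one]
    exact h b0 0 w le_rfl h0
  · simp [ind_neg hw]

theorem chern (hD : St_G1D) {a : ℝ} {b : ℕ → HH} (hb : IsWk b 0) (w t lam : ℝ) (hl : 0 ≤ lam)
    (j : ℕ) : ∫⁻ ω, ind (t < wk a b w ω j) ∂gm ≤
      eE (lam * (w - t) + (lam ^ 2 / 2 - lam * a) * j * l2) := by
  calc _ ≤ ∫⁻ ω, eE (lam * wk a b w ω j + -(lam * t)) ∂gm := by
        refine lintegral_mono fun ω => ?_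
        by_cases h : t < wk a b w ω j
        · rw [ind_pos h]
          exact one_le_eE (by nlinarith)
        · simp [ind_neg h]
    _ = _ := by
        rw [mgf hD hb]
        congr 1
        ring

theorem geo_tail {ρ : ℝ} (hρ : 0 < ρ) (A : ℝ) (K : ℕ) (f : ℕ → ℝ≥0∞)
    (h : ∀ k : ℕ, f k ≤ eE (A - 2 * ρ * k)) :
    ∑' k, ind (K ≤ k) * f k ≤ (∑' k : ℕ, eE (-ρ * k)) * eE (A - ρ * K) := by
  rw [← ENNReal.tsum_mul_right]
  refine ENNReal.tsum_le_tsum fun k => ?_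
  by_cases hk : K ≤ k
  · rw [ind_pos hk, one_mul, ← eE_add]
    refine (h k).trans (eE_mono ?_)
    have : (K : ℝ) ≤ k := by exact_mod_cast hk
    nlinarith
  · simp [ind_neg hk]

theorem partB2 (hD : St_G1D) {a κ c : ℝ} (hc : 0 < c) (hcκ : c ≤ κ) (hc2 : c ≤ 2 * a)
    (hc3 : 3 * c ≤ a * l2) {b : ℕ → HH} {s : ℝ} (hs : 0 ≤ s) (hb : IsWk b s) (u : ℝ) (K : ℕ) :
    ∑' k : ℕ, ind (K ≤ k) * ∫⁻ ω, eE (-κ * |wk a b u ω k|) ∂gm ≤
      (∑' k : ℕ, eE (-(c ^ 2) * k)) * eE (c * (u + a * s) - c ^ 2 * K) := by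
  refine geo_tail (by positivity) _ K _ fun k => ?_
  calc _ ≤ ∫⁻ ω, eE (c * wk a b u ω k + 0) ∂gm := by
        refine lintegral_mono fun ω => eE_mono ?_
        have h1 := neg_abs_le (wk a b u ω k)
        have h2 := abs_nonneg (wk a b u ω k)
        nlinarith
    _ ≤ _ := by
        rw [mgf hD hb]
        refine eE_mono ?_
        have hk : (0 : ℝ) ≤ k := Nat.cast_nonneg _
        have h1 : c * s * c ≤ c * s * (2 * a) := by gcongr
        have h2 : c * k * (3 * c) ≤ c * k * (a * l2) := by gcongr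
        have h3 : c ^ 2 * k * l2 ≤ c ^ 2 * k * 1 := by gcongr; exact l2_le
        have h4 : 0 ≤ c ^ 2 * k := by positivity
        nlinarith

/-- weighted Green bound -/
def G2 (a : ℝ) (C : ℝ≥0∞) : Prop :=
  ∀ (b : ℕ → HH) (s u r M : ℝ), l2 ≤ s → IsWk b s →
    ∀ φ : ℝ → ℝ≥0∞, Measurable φ → (∀ x, φ x ≤ eE (2 * a * x + M - a * |x - r|)) →
    ∑' i, ∫⁻ ω, φ (wk a b u ω i) ∂gm ≤ C * eE (2 * a * (u + a * s) + M)

theorem partB3 (h1 : St_G1) (h3 : St_G3) {a κ : ℝ} (ha : 0 < a) {B C : ℝ≥0∞} (hB : B ≠ ∞)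
    (h : GB a κ B) (hG : G2 a C) {b : ℕ → HH} {s : ℝ} (hs : l2 ≤ s) (hb : IsWk b s) (u t : ℝ) :
    ∑' k : ℕ, ∑ i ∈ Finset.range (k + 1),
      ∫⁻ ω, eE (-κ * |wk a b u ω k|) * ind (t < wk a b u ω i) ∂gm ≤
      B * C * eE (-(2 * a) * (t - u - a * s)) := by
  rw [swap fun i k => ∫⁻ ω, eE (-κ * |wk a b u ω k|) * ind (t < wk a b u ω i) ∂gm]
  refine (ENNReal.tsum_le_tsum fun i => after h1 h3 hB h hb u t i).trans ?_
  rw [ENNReal.tsum_mul_left, mul_assoc]
  gcongr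
  refine (hG b s u t (-(2 * a * t)) hs hb (fun w => ind (t < w)) (meas_ind measurableSet_Ioi)
    fun x => ?_).trans (le_of_eq ?_)
  · by_cases hx : t < x
    · rw [ind_pos hx, abs_of_pos (by linarith)]
      exact one_le_eE (by nlinarith)
    · simp only [ind_neg hx, zero_le]
  · congr 2
    ring

theorem partB4 (h1 : St_G1) (hD : St_G1D) (h3 : St_G3) {a κ c : ℝ} (ha : 0 < a) (hc : 0 < c)
    (hc4 : 4 * c ≤ a ^ 2 * l2) {B C : ℝ≥0∞} (hB : B ≠ ∞)
    (h : GB a κ B) (hG : G2 a C) {b : ℕ → HH} {s : ℝ} (hs : l2 ≤ s) (hb : IsWk b s) (u t : ℝ)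
    (D : ℕ) : ∑' k : ℕ, ∑ i' ∈ Finset.range (k + 1), ∑ i ∈ Finset.range (k + 1),
      ∫⁻ ω, eE (-κ * |wk a b u ω k|) *
        ind (i + D ≤ i' ∧ t < wk a b u ω i ∧ t < wk a b u ω i') ∂gm ≤
      B * (∑' k : ℕ, eE (-c * k)) * C * eE (-(2 * a) * (t - u - a * s) - c * D) := by
  set S := ∑' k : ℕ, eE (-c * k) with hS
  have hS' : S ≠ ∞ := geo_fin hc
  have mi : Measurable fun w : ℝ => ind (t < w) := meas_ind measurableSet_Ioi
  set Φ : ℕ → (ℕ → ℝ) → ℝ≥0∞ := fun d x => ∑ j ∈ Finset.range (d + 1),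
    ind (D ≤ j) * ind (t < x 0) * (eE (-κ * |x d|) * ind (t < x j)) with hΦ
  have mt : ∀ d j, Measurable fun x : ℕ → ℝ =>
      ind (D ≤ j) * ind (t < x 0) * (eE (-κ * |x d|) * ind (t < x j)) := fun d j =>
    ((mi.comp (measurable_pi_apply 0)).const_mul _).mul
      (((meas_ek κ).comp (measurable_pi_apply d)).mul (mi.comp (measurable_pi_apply j)))
  have mΦ : ∀ d, Measurable (Φ d) := fun d => Finset.measurable_sum _ fun j _ => mt d j
  have m1 : ∀ i, Measurable fun ω => fun j => wk a b u ω (i + j) := fun i =>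
    measurable_pi_lambda _ fun j => meas_wk1 _ _ _ _
  simp only [fun k => Finset.sum_comm (s := Finset.range (k + 1)) (t := Finset.range (k + 1))
    (f := fun i' i => ∫⁻ ω, eE (-κ * |wk a b u ω k|) *
        ind (i + D ≤ i' ∧ t < wk a b u ω i ∧ t < wk a b u ω i') ∂gm)]
  rw [swap fun i k => ∑ i' ∈ Finset.range (k + 1), ∫⁻ ω, eE (-κ * |wk a b u ω k|) *
        ind (i + D ≤ i' ∧ t < wk a b u ω i ∧ t < wk a b u ω i') ∂gm]
  have s1 : ∀ i d, ∑ i' ∈ Finset.range (i + d + 1), ∫⁻ ω, eE (-κ * |wk a b u ω (i + d)|) *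
        ind (i + D ≤ i' ∧ t < wk a b u ω i ∧ t < wk a b u ω i') ∂gm =
      ∫⁻ ω, Φ d (fun j => wk a b u ω (i + j)) ∂gm := by
    intro i d
    rw [add_assoc, Finset.sum_range_add, Finset.sum_eq_zero, zero_add]
    · simp only [hΦ]
      rw [lintegral_finsetSum (f := fun j ω => ind (D ≤ j) * ind (t < wk a b u ω (i + 0)) *
        (eE (-κ * |wk a b u ω (i + d)|) * ind (t < wk a b u ω (i + j)))) _
        fun j _ => (mt d j).comp (m1 i)]
      refine Finset.sum_congr rfl fun j _ => lintegral_congr fun ω => ?_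
      rw [add_zero]
      by_cases e1 : D ≤ j <;> by_cases e2 : t < wk a b u ω i <;>
        by_cases e3 : t < wk a b u ω (i + j) <;> simp [ind, e1, e2, e3]
    · intro j hj
      have : ¬i + D ≤ j := by
        have := Finset.mem_range.1 hj
        omega
      simp [ind, this]
  simp only [s1]
  have mφ : Measurable fun w : ℝ => ind (t < w) * eE (a * (w - t) - c * D) :=
    mi.mul (meas_eE.comp (by fun_prop))
  have s2 : ∀ i, ∑' d, ∫⁻ ω, Φ d (fun j => wk a b u ω (i + j)) ∂gm ≤ B * S *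
      ∫⁻ ω, ind (t < wk a b u ω i) * eE (a * (wk a b u ω i - t) - c * D) ∂gm := by
    intro i
    rw [← lintegral_const_mul' _ _ (ENNReal.mul_ne_top hB hS')]
    refine restart' h1 h3 hb i mΦ
      (φ := fun w => B * S * (ind (t < w) * eE (a * (w - t) - c * D))) (mφ.const_mul _) ?_
    intro b0 h0 w
    have e1 : ∀ d, ∫⁻ ω, Φ d (wk a b0 w ω) ∂gm = ∑ j ∈ Finset.range (d + 1), ind (D ≤ j) *
        ind (t < w) * ∫⁻ ω, eE (-κ * |wk a b0 w ω d|) * ind (t < wk a b0 w ω j) ∂gm := by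
      intro d
      simp only [hΦ]
      rw [lintegral_finsetSum (f := fun j ω => ind (D ≤ j) * ind (t < wk a b0 w ω 0) *
        (eE (-κ * |wk a b0 w ω d|) * ind (t < wk a b0 w ω j))) _
        fun j _ => (mt d j).comp (meas_wk a b0 w)]
      refine Finset.sum_congr rfl fun j _ => ?_
      simp only [wk_zero h0]
      exact lintegral_const_mul' _ _ (ENNReal.mul_ne_top
        (ne_top_of_le_ne_top ENNReal.one_ne_top (ind_le _))
        (ne_top_of_le_ne_top ENNReal.one_ne_top (ind_le _)))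
    simp only [e1]
    rw [swap fun j d => ind (D ≤ j) *
        ind (t < w) * ∫⁻ ω, eE (-κ * |wk a b0 w ω d|) * ind (t < wk a b0 w ω j) ∂gm]
    simp only [ENNReal.tsum_mul_left]
    calc _ ≤ ∑' j, B * ind (t < w) * (ind (D ≤ j) * ∫⁻ ω, ind (t < wk a b0 w ω j) ∂gm) := by
          refine ENNReal.tsum_le_tsum fun j => ?_
          refine (mul_le_mul_right (after h1 h3 hB h h0 w t j) _).trans (le_of_eq ?_)
          ring
      _ ≤ B * ind (t < w) * (S * eE (a * (w - t) - c * D)) := by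
          rw [ENNReal.tsum_mul_left]
          gcongr
          refine geo_tail hc _ D _ fun k => (chern hD h0 w t a ha.le k).trans (eE_mono ?_)
          have hk : (0 : ℝ) ≤ k := Nat.cast_nonneg _
          have := mul_le_mul_of_nonneg_right hc4 hk
          nlinarith
      _ = _ := by ring
  refine (ENNReal.tsum_le_tsum s2).trans ?_
  rw [ENNReal.tsum_mul_left, mul_assoc _ C]
  gcongr
  refine (hG b s u t (-(2 * a * t) - c * D) hs hb _ mφ fun x => ?_).trans (le_of_eq ?_)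
  · by_cases hx : t < x
    · rw [ind_pos hx, abs_of_pos (by linarith), one_mul]
      exact eE_mono (le_of_eq (by ring))
    · simp only [ind_neg hx, zero_mul, zero_le]
  · congr 2
    ring

theorem partB5 (h1 : St_G1) (hD : St_G1D) (h3 : St_G3) {a κ : ℝ} (ha : 0 < a)
    {B C : ℝ≥0∞} (hB : B ≠ ∞)
    (h : GB a κ B) (hG : G2 a C) {b : ℕ → HH} {s : ℝ} (hs : l2 ≤ s) (hb : IsWk b s) (u t : ℝ)
    (d : ℕ) (K' : ℝ) : ∑' k : ℕ, ∑ i ∈ Finset.range (k + 1),
      ∫⁻ ω, eE (-κ * |wk a b u ω k|) *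
        ind (i + d ≤ k ∧ wk a b u ω i < t - K' ∧ t < wk a b u ω (i + d)) ∂gm ≤
      B * C * eE (-(2 * a) * (t - u - a * s) + 3 / 2 * a ^ 2 * l2 * d - a * K') := by
  have mi : Measurable fun w : ℝ => ind (t < w) := meas_ind measurableSet_Ioi
  have mj : Measurable fun w : ℝ => ind (w < t - K') := meas_ind measurableSet_Iio
  set Φ : ℕ → (ℕ → ℝ) → ℝ≥0∞ := fun e x =>
    ind (x 0 < t - K') * (eE (-κ * |x (d + e)|) * ind (t < x d)) with hΦ
  have mΦ : ∀ e, Measurable (Φ e) := fun e => (mj.comp (measurable_pi_apply 0)).mul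
      (((meas_ek κ).comp (measurable_pi_apply _)).mul (mi.comp (measurable_pi_apply d)))
  rw [swap fun i k => ∫⁻ ω, eE (-κ * |wk a b u ω k|) *
        ind (i + d ≤ k ∧ wk a b u ω i < t - K' ∧ t < wk a b u ω (i + d)) ∂gm]
  have mφ : Measurable fun w : ℝ =>
      ind (w < t - K') * eE (3 * a * (w - t) + 3 / 2 * a ^ 2 * l2 * d) :=
    mj.mul (meas_eE.comp (by fun_prop))
  have s2 : ∀ i, ∑' e, ∫⁻ ω, eE (-κ * |wk a b u ω (i + e)|) *
        ind (i + d ≤ i + e ∧ wk a b u ω i < t - K' ∧ t < wk a b u ω (i + d)) ∂gm ≤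
      B * ∫⁻ ω, ind (wk a b u ω i < t - K') *
        eE (3 * a * (wk a b u ω i - t) + 3 / 2 * a ^ 2 * l2 * d) ∂gm := by
    intro i
    have e1 : ∀ e, ∫⁻ ω, eE (-κ * |wk a b u ω (i + e)|) *
        ind (i + d ≤ i + e ∧ wk a b u ω i < t - K' ∧ t < wk a b u ω (i + d)) ∂gm =
        ind (d ≤ e) * ∫⁻ ω, ind (wk a b u ω i < t - K') *
          (eE (-κ * |wk a b u ω (i + e)|) * ind (t < wk a b u ω (i + d))) ∂gm := by
      intro e
      rw [← lintegral_const_mul' _ _ (ne_top_of_le_ne_top ENNReal.one_ne_top (ind_le _))]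
      refine lintegral_congr fun ω => ?_
      by_cases e1 : d ≤ e <;> by_cases e2 : wk a b u ω i < t - K' <;>
        by_cases e3 : t < wk a b u ω (i + d) <;> simp [ind, e1, e2, e3]
    simp only [e1]
    rw [shift d fun e => ∫⁻ ω, ind (wk a b u ω i < t - K') *
          (eE (-κ * |wk a b u ω (i + e)|) * ind (t < wk a b u ω (i + d))) ∂gm,
      ← lintegral_const_mul' _ _ hB]
    refine restart' h1 h3 hb i mΦ (φ := fun w => B * (ind (w < t - K') *
      eE (3 * a * (w - t) + 3 / 2 * a ^ 2 * l2 * d))) (mφ.const_mul _) ?_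
    intro b0 h0 w
    simp only [hΦ, wk_zero h0]
    by_cases hw : w < t - K'
    · simp only [ind_pos hw, one_mul]
      refine (after h1 h3 hB h h0 w t d).trans ?_
      gcongr
      refine (chern hD h0 w t (3 * a) (by positivity) d).trans (eE_mono (le_of_eq ?_))
      ring
    · simp only [ind_neg hw, zero_mul, lintegral_zero, tsum_zero, zero_le]
  refine (ENNReal.tsum_le_tsum s2).trans ?_
  rw [ENNReal.tsum_mul_left, mul_assoc _ C]
  gcongr
  refine (hG b s u (t - K') (-(2 * a * t) + 3 / 2 * a ^ 2 * l2 * d - a * K') hs hb _ mφ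
    fun x => ?_).trans (le_of_eq ?_)
  · by_cases hx : x < t - K'
    · rw [ind_pos hx, abs_of_neg (by linarith), one_mul]
      exact eE_mono (le_of_eq (by ring))
    · simp only [ind_neg hx, zero_mul, zero_le]
  · congr 2
    ring

end RW2

open RW2 in
theorem blk_RW2 (h1 : St_G1) (hD : St_G1D) (_h2 : St_G2) (h3 : St_G3) (hR : St_RW1) :
    St_RW2 := by
  intro a ha κ hκ
  refine ⟨partA h1 hD h3 hR ha hκ, ?_⟩
  obtain ⟨B, hB, hb⟩ := gb h1 hD hR ha hκ
  obtain ⟨G, hG, hg⟩ := green2 hD hR ha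
  have hl := l2_pos
  obtain ⟨c, hc, c1, c2, c3, c4⟩ : ∃ c : ℝ, 0 < c ∧ c ≤ κ ∧ c ≤ 2 * a ∧ 3 * c ≤ a * l2 ∧
      4 * c ≤ a ^ 2 * l2 := by
    refine ⟨min (min κ (2 * a)) (min (a * l2 / 3) (a ^ 2 * l2 / 4)), by positivity,
      (min_le_left _ _).trans (min_le_left _ _), (min_le_left _ _).trans (min_le_right _ _),
      ?_, ?_⟩
    · have := (min_le_right (min κ (2 * a)) (min (a * l2 / 3) (a ^ 2 * l2 / 4))).trans
        (min_le_left _ _)
      linarith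
    · have := (min_le_right (min κ (2 * a)) (min (a * l2 / 3) (a ^ 2 * l2 / 4))).trans
        (min_le_right _ _)
      linarith
  have f2 : ∑' k : ℕ, eE (-(c ^ 2) * k) ≠ ∞ := geo_fin (by positivity)
  have f4 : ∑' k : ℕ, eE (-c * k) ≠ ∞ := geo_fin hc
  have p1 := ENNReal.toReal_nonneg (a := B)
  have p2 := ENNReal.toReal_nonneg (a := ∑' k : ℕ, eE (-(c ^ 2) * k))
  have p3 := ENNReal.toReal_nonneg (a := B * G)
  have p4 := ENNReal.toReal_nonneg (a := B * (∑' k : ℕ, eE (-c * k)) * G)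
  have p5 : 0 ≤ 3 / 2 * a ^ 2 * l2 := by positivity
  refine ⟨c, hc, B.toReal + (∑' k : ℕ, eE (-(c ^ 2) * k)).toReal + (B * G).toReal +
    (B * (∑' k : ℕ, eE (-c * k)) * G).toReal + 3 / 2 * a ^ 2 * l2, fun b s u t hs hw => ?_⟩
  have hs' : l2 ≤ s := l2_le.trans hs
  refine ⟨?_, fun K => ?_, ?_, fun D => ?_, fun d K' => ?_⟩
  · refine (hb b s u (by linarith) hw).trans ?_
    refine (ENNReal.ofReal_toReal hB).symm.le.trans (ENNReal.ofReal_le_ofReal ?_)
    linarith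
  · exact (partB2 hD hc c1 c2 c3 (by linarith) hw u K).trans (conv f2 (by linarith) le_rfl)
  · exact (partB3 h1 h3 ha hB hb hg hs' hw u t).trans
      (conv (ENNReal.mul_ne_top hB hG) (by linarith) le_rfl)
  · exact (partB4 h1 hD h3 ha hc c4 hB hb hg hs' hw u t D).trans
      (conv (ENNReal.mul_ne_top (ENNReal.mul_ne_top hB f4) hG) (by linarith) le_rfl)
  · refine (partB5 h1 hD h3 ha hB hb hg hs' hw u t d K').trans
      (conv (ENNReal.mul_ne_top hB hG) (by linarith) ?_)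
    have hd : (0 : ℝ) ≤ d := Nat.cast_nonneg _
    gcongr
    linarith

end

end Pool.Agent.Lib.APPS
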