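import Pool.Agent.Lib.APPS.Blue1

/-!
Block RW6: renewal limit for the Green function of a Gaussian walk with drift.
-/

namespace Pool.Agent.Lib.APPS

open MeasureTheory ProbabilityTheory Filter Topology Set
open scoped NNReal ENNReal

noncomputable section

namespace RW6

lemma pd_nonneg (v t : ℝ) : 0 ≤ pd v t := by
  unfold pd; positivity

lemma pd_scale (v y t : ℝ) (ht : 0 < t) :
    Real.sqrt t * pd v (-y) = pd (v / t) (y / Real.sqrt t) := by
  have hs : 0 < Real.sqrt t := Real.sqrt_pos.2 ht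
  unfold pd
  have h1 : Real.sqrt (2 * Real.pi * (v / t)) = Real.sqrt (2 * Real.pi * v) / Real.sqrt t := by
    rw [← mul_div_assoc, Real.sqrt_div' _ ht.le]
  have h2 : -(y / Real.sqrt t) ^ 2 / (2 * (v / t)) = -(-y) ^ 2 / (2 * v) := by
    rw [div_pow, Real.sq_sqrt ht.le]
    by_cases hv : v = 0
    · simp [hv]
    · field_simp
  rw [h1, h2, inv_div, div_eq_mul_inv (Real.sqrt t), mul_assoc (Real.sqrt t)]

/-- index of the cell containing `x` -/
def kk (h t x : ℝ) : ℕ := ⌊(t + x * Real.sqrt t) / h⌋₊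

lemma kk_bounds (h t x : ℝ) (hh : 0 < h) (h0 : 0 ≤ t + x * Real.sqrt t) :
    h * kk h t x ≤ t + x * Real.sqrt t ∧ t + x * Real.sqrt t < h * kk h t x + h := by
  have h1 : ((kk h t x : ℕ) : ℝ) ≤ (t + x * Real.sqrt t) / h := Nat.floor_le (by positivity)
  have h2 : (t + x * Real.sqrt t) / h < (kk h t x : ℕ) + 1 := Nat.lt_floor_add_one _
  rw [le_div_iff₀ hh] at h1
  rw [div_lt_iff₀ hh] at h2
  constructor <;> linarith

/-- step function -/
def FF (h t : ℝ) (g : ℕ → ℝ) (x : ℝ) : ℝ :=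
  if 0 ≤ t + x * Real.sqrt t then Real.sqrt t * g (kk h t x) else 0

lemma FF_meas (h t : ℝ) (g : ℕ → ℝ) : Measurable (FF h t g) := by
  unfold FF
  refine Measurable.ite (measurableSet_le measurable_const (by fun_prop)) ?_ measurable_const
  refine measurable_const.mul ((measurable_from_nat (f := g)).comp ?_)
  unfold kk
  exact Nat.measurable_floor.comp (by fun_prop)

lemma FF_hasSum (h t : ℝ) (g : ℕ → ℝ) (hh : 0 < h) (ht : 0 < t)
    (hi : Integrable (FF h t g)) : HasSum (fun k => h * g k) (∫ x, FF h t g x) := by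
  have hs : 0 < Real.sqrt t := Real.sqrt_pos.2 ht
  set C : ℕ → Set ℝ := fun k => Ico ((h * k - t) / Real.sqrt t) ((h * k + h - t) / Real.sqrt t)
    with hC
  have hmem : ∀ k x, x ∈ C k ↔ 0 ≤ t + x * Real.sqrt t ∧ kk h t x = k := by
    intro k x
    simp only [hC, mem_Ico]
    rw [div_le_iff₀ hs, lt_div_iff₀ hs]
    constructor
    · rintro ⟨h1, h2⟩
      have hk : (0 : ℝ) ≤ h * k := by positivity
      have h0 : 0 ≤ t + x * Real.sqrt t := by linarith
      refine ⟨h0, ?_⟩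
      unfold kk
      rw [Nat.floor_eq_iff (by positivity), le_div_iff₀ hh, div_lt_iff₀ hh]
      constructor <;> linarith
    · rintro ⟨h0, rfl⟩
      obtain ⟨h1, h2⟩ := kk_bounds h t x hh h0
      constructor <;> linarith
  have hdis : Pairwise (Function.onFun Disjoint C) := by
    intro i j hij
    refine Set.disjoint_left.2 fun x hx hx' => hij ?_
    rw [← ((hmem i x).1 hx).2, ((hmem j x).1 hx').2]
  have key := hasSum_integral_iUnion (f := FF h t g) (μ := volume) (s := C)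
    (fun k => measurableSet_Ico) hdis hi.integrableOn
  have e1 : ∫ x in ⋃ k, C k, FF h t g x = ∫ x, FF h t g x := by
    refine setIntegral_eq_integral_of_forall_compl_eq_zero fun x hx => ?_
    unfold FF
    rw [if_neg]
    intro h0
    exact hx (mem_iUnion.2 ⟨_, (hmem _ x).2 ⟨h0, rfl⟩⟩)
  have e2 : ∀ k, ∫ x in C k, FF h t g x = h * g k := by
    intro k
    rw [setIntegral_congr_fun (g := fun _ => Real.sqrt t * g k) measurableSet_Ico]
    · rw [setIntegral_const, smul_eq_mul, Real.volume_real_Ico_of_le]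
      · field_simp
        ring
      · exact div_le_div_of_nonneg_right (by linarith) hs.le
    · intro x hx
      obtain ⟨h0, hk⟩ := (hmem k x).1 hx
      simp only [FF, if_pos h0, hk]
  rw [e1] at key
  simpa only [e2] using key

lemma poly_exp (z : ℝ) (hz : 0 ≤ z) : Real.exp (-z) * (1 + z + z ^ 2) ≤ 2 := by
  have h := Real.quadratic_le_exp_of_nonneg hz
  have h2 : Real.exp (-z) * Real.exp z = 1 := by rw [← Real.exp_add]; simp
  have h3 : 0 < Real.exp (-z) := Real.exp_pos _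
  nlinarith [mul_le_mul_of_nonneg_left h h3.le, mul_nonneg h3.le hz]

lemma aux_x (h t x y z r : ℝ) (ht : 1 ≤ t) (hzy : y ^ 2 = 2 * (r * t) * z)
    (hx : |x * Real.sqrt t - y| ≤ h) : 1 + x ^ 2 ≤ (1 + 2 * h ^ 2) + 4 * z * r := by
  have ht0 : 0 < t := by linarith
  have h0 : (x * Real.sqrt t - y) ^ 2 ≤ h ^ 2 := sq_le_sq' (abs_le.1 hx).1 (abs_le.1 hx).2
  have h1 : (x * Real.sqrt t) ^ 2 ≤ 2 * y ^ 2 + 2 * h ^ 2 := by
    nlinarith [sq_nonneg (x * Real.sqrt t - 2 * y)]
  rw [mul_pow, Real.sq_sqrt ht0.le, hzy] at h1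
  have h4 : h ^ 2 * 1 ≤ h ^ 2 * t := mul_le_mul_of_nonneg_left ht (sq_nonneg h)
  have h2 : x ^ 2 * t ≤ (4 * z * r + 2 * h ^ 2) * t := by linarith
  have h3 := le_of_mul_le_mul_right h2 ht0
  linarith

lemma aux_low (a s t y z r : ℝ) (ha : 0 < a) (hs : 0 ≤ s) (ht : 1 ≤ t) (hr0 : 0 < r)
    (hz0 : 0 ≤ z) (hzy : y ^ 2 = 2 * (r * t) * z) (hrel : a * (r * t) = a * s + y + t) :
    r⁻¹ ≤ 2 * a + 8 * z := by
  have ht0 : 0 < t := by linarith
  rw [inv_le_iff_one_le_mul₀ hr0]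
  have hzr := mul_nonneg hz0 hr0.le
  have har := mul_pos ha hr0
  by_cases hc : 1 ≤ 2 * a * r
  · linarith
  · push Not at hc
    have h0 : 2 * a * r * t ≤ 1 * t := mul_le_mul_of_nonneg_right hc.le ht0.le
    have h1 : t / 2 ≤ -y := by linarith [mul_nonneg ha.le hs]
    have h2 : (t / 2) ^ 2 ≤ (-y) ^ 2 := pow_le_pow_left₀ (by positivity) h1 2
    rw [neg_sq, hzy] at h2
    have h5 : t * 1 ≤ t * t := mul_le_mul_of_nonneg_left ht ht0.le
    have h3 : 1 * t ≤ (8 * z * r) * t := by linarith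
    have h4 := le_of_mul_le_mul_right h3 ht0
    linarith

lemma aux_up (a s t y z r : ℝ) (ha : 0 < a) (hs : 0 ≤ s) (ht : 1 ≤ t) (hr0 : 0 < r)
    (hz0 : 0 ≤ z) (hzy : y ^ 2 = 2 * (r * t) * z) (hrel : a * (r * t) = a * s + y + t) :
    r ≤ 2 * (1 + a * s) / a + 8 * z / a ^ 2 := by
  have ht0 : 0 < t := by linarith
  have hB0 : 0 ≤ 2 * (1 + a * s) / a := by positivity
  by_cases hc : r ≤ 2 * (1 + a * s) / a
  · have : 0 ≤ 8 * z / a ^ 2 := by positivity
    linarith
  · push Not at hc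
    rw [div_lt_iff₀ ha] at hc
    have h5 : a * s * 1 ≤ a * s * t := mul_le_mul_of_nonneg_left ht (mul_nonneg ha.le hs)
    have h6 : 2 * (1 + a * s) * t ≤ r * a * t := mul_le_mul_of_nonneg_right hc.le ht0.le
    have h1 : a * r * t / 2 ≤ y := by linarith
    have h2 : (a * r * t / 2) ^ 2 ≤ y ^ 2 := pow_le_pow_left₀ (by positivity) h1 2
    rw [hzy] at h2
    have h7 : (a ^ 2 * r) * (r * t) * 1 ≤ (a ^ 2 * r) * (r * t) * t :=
      mul_le_mul_of_nonneg_left ht (by positivity)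
    have h3 : (a ^ 2 * r) * (r * t) ≤ (8 * z) * (r * t) := by linarith
    have h4 := le_of_mul_le_mul_right h3 (by positivity)
    have h8 : r ≤ 8 * z / a ^ 2 := by
      rw [le_div_iff₀ (by positivity)]; linarith
    linarith

lemma aux_poly (a A B E z r : ℝ) (ha : 0 < a) (hA0 : 0 ≤ A) (hB0 : 0 ≤ B) (hE : 0 ≤ E)
    (hz0 : 0 ≤ z) (hr0 : 0 < r) (hlow : r⁻¹ ≤ 2 * a + 8 * z) (hup : r ≤ B + E * z) :
    (1 + r⁻¹) * (A + 4 * z * r) ≤ (A * (9 + 2 * a) + 4 * (B + 1) + 4 * E) * (1 + z + z ^ 2) := by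
  have e : (1 + r⁻¹) * (A + 4 * z * r) = A + A * r⁻¹ + 4 * z * r + 4 * z := by
    field_simp
    ring
  have h1 : A * r⁻¹ ≤ A * (2 * a + 8 * z) := mul_le_mul_of_nonneg_left hlow hA0
  have h2 : 4 * z * r ≤ 4 * z * (B + E * z) := mul_le_mul_of_nonneg_left hup (by positivity)
  have h4 : 0 ≤ z ^ 2 := sq_nonneg z
  rw [e]
  linarith [mul_nonneg hA0 hz0, mul_nonneg hA0 h4, mul_nonneg hB0 h4,
    mul_nonneg hE hz0, mul_nonneg (mul_nonneg hA0 ha.le) hz0,
    mul_nonneg (mul_nonneg hA0 ha.le) h4]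

lemma aux_pre (t r : ℝ) (ht0 : 0 < t) (hr0 : 0 < r) :
    Real.sqrt t * (Real.sqrt (2 * Real.pi * (r * t)))⁻¹ ≤ 1 + r⁻¹ := by
  rw [← div_eq_mul_inv, ← Real.sqrt_div ht0.le]
  have h1 : t / (2 * Real.pi * (r * t)) ≤ r⁻¹ := by
    rw [show r⁻¹ = t / (r * t) by field_simp]
    refine div_le_div_of_nonneg_left ht0.le (by positivity) ?_
    nlinarith [Real.pi_gt_three, mul_pos hr0 ht0]
  have h2 : 0 ≤ r⁻¹ := by positivity
  refine Real.sqrt_le_iff.2 ⟨by positivity, ?_⟩
  nlinarith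

lemma dom (a s h : ℝ) (ha : 0 < a) (hs : 0 ≤ s) : ∃ C : ℝ, 0 ≤ C ∧ ∀ t v y x : ℝ, 1 ≤ t →
    0 ≤ v → a * v = a * s + y + t → |x * Real.sqrt t - y| ≤ h →
    Real.sqrt t * pd v (-y) ≤ C * (1 + x ^ 2)⁻¹ := by
  obtain ⟨D, hD⟩ : ∃ D : ℝ, D = (1 + 2 * h ^ 2) * (9 + 2 * a) + 4 * (2 * (1 + a * s) / a + 1) +
    4 * (8 / a ^ 2) := ⟨_, rfl⟩
  have hD0 : 0 ≤ D := by rw [hD]; positivity
  refine ⟨2 * D, by positivity, fun t v y x ht hv hrel hx => ?_⟩
  have ht0 : 0 < t := by linarith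
  have hx1 : 0 < 1 + x ^ 2 := by positivity
  rcases hv.eq_or_lt with rfl | hv
  · simp only [pd, mul_zero, Real.sqrt_zero, inv_zero, zero_mul]
    positivity
  rw [← div_eq_mul_inv, le_div_iff₀ hx1]
  obtain ⟨r, hr0, rfl⟩ : ∃ r : ℝ, 0 < r ∧ v = r * t := ⟨v / t, by positivity, by field_simp⟩
  obtain ⟨z, hz⟩ : ∃ z : ℝ, z = y ^ 2 / (2 * (r * t)) := ⟨_, rfl⟩
  have hz0 : 0 ≤ z := by rw [hz]; positivity
  have hzy : y ^ 2 = 2 * (r * t) * z := by rw [hz]; field_simp
  have hpre := aux_pre t r ht0 hr0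
  have hx2 := aux_x h t x y z r ht hzy hx
  have hlow := aux_low a s t y z r ha hs ht hr0 hz0 hzy hrel
  have hup := aux_up a s t y z r ha hs ht hr0 hz0 hzy hrel
  have hpoly := aux_poly a (1 + 2 * h ^ 2) (2 * (1 + a * s) / a) (8 / a ^ 2) z r ha
    (by positivity) (by positivity) (by positivity) hz0 hr0 hlow
    (hup.trans_eq (by ring))
  rw [← hD] at hpoly
  have he : 0 < Real.exp (-z) := Real.exp_pos _
  have e3 : pd (r * t) (-y) = (Real.sqrt (2 * Real.pi * (r * t)))⁻¹ * Real.exp (-z) := by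
    unfold pd
    rw [hz, neg_sq, neg_div]
  rw [e3, ← mul_assoc]
  calc Real.sqrt t * (Real.sqrt (2 * Real.pi * (r * t)))⁻¹ * Real.exp (-z) * (1 + x ^ 2)
      ≤ (1 + r⁻¹) * Real.exp (-z) * ((1 + 2 * h ^ 2) + 4 * z * r) := by gcongr
    _ = Real.exp (-z) * ((1 + r⁻¹) * ((1 + 2 * h ^ 2) + 4 * z * r)) := by ring
    _ ≤ Real.exp (-z) * (D * (1 + z + z ^ 2)) := mul_le_mul_of_nonneg_left hpoly he.le
    _ = D * (Real.exp (-z) * (1 + z + z ^ 2)) := by ring
    _ ≤ D * 2 := mul_le_mul_of_nonneg_left (poly_exp z hz0) hD0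
    _ = 2 * D := by ring

lemma ev_nonneg (x : ℝ) : ∀ᶠ t : ℝ in atTop, 0 ≤ t + x * Real.sqrt t := by
  filter_upwards [Real.tendsto_sqrt_atTop.eventually_ge_atTop |x|, eventually_ge_atTop 0]
    with t h1 h2
  have h3 := Real.mul_self_sqrt h2
  have h4 := neg_abs_le x
  nlinarith [Real.sqrt_nonneg t]

lemma y_lim (h x : ℝ) (hh : 0 < h) :
    Tendsto (fun t : ℝ => (h * kk h t x - t) / Real.sqrt t) atTop (𝓝 x) := by
  have h1 : Tendsto (fun t : ℝ => x - h / Real.sqrt t) atTop (𝓝 x) := by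
    have := (tendsto_const_nhds (x := h)).div_atTop Real.tendsto_sqrt_atTop
    simpa using (tendsto_const_nhds (x := x)).sub this
  refine tendsto_of_tendsto_of_tendsto_of_le_of_le' h1 tendsto_const_nhds ?_ ?_
  · filter_upwards [ev_nonneg x, eventually_gt_atTop 0] with t h0 ht
    have hs : 0 < Real.sqrt t := Real.sqrt_pos.2 ht
    obtain ⟨-, h2⟩ := kk_bounds h t x hh h0
    rw [le_div_iff₀ hs, sub_mul, div_mul_cancel₀ _ hs.ne']
    linarith
  · filter_upwards [ev_nonneg x, eventually_gt_atTop 0] with t h0 ht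
    have hs : 0 < Real.sqrt t := Real.sqrt_pos.2 ht
    obtain ⟨h2, -⟩ := kk_bounds h t x hh h0
    rw [div_le_iff₀ hs]
    linarith

lemma y_lim0 (h x : ℝ) (hh : 0 < h) :
    Tendsto (fun t : ℝ => (h * kk h t x - t) / t) atTop (𝓝 0) := by
  have h1 := (y_lim h x hh).div_atTop Real.tendsto_sqrt_atTop
  refine h1.congr' ?_
  filter_upwards [eventually_gt_atTop 0] with t ht
  rw [div_div, Real.mul_self_sqrt ht.le]

lemma pd_cont (v x : ℝ) (hv : 0 < v) : ContinuousAt (fun p : ℝ × ℝ => pd p.1 p.2) (v, x) := by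
  unfold pd
  refine ContinuousAt.mul (ContinuousAt.inv₀ (by fun_prop) ?_) ?_
  · exact (Real.sqrt_pos.2 (by positivity)).ne'
  · refine Real.continuous_exp.continuousAt.comp (ContinuousAt.div (by fun_prop) (by fun_prop) ?_)
    positivity

lemma pd_int (v : ℝ) (hv : 0 < v) : ∫ x, pd v x = 1 := by
  have h1 : ∀ x, pd v x = (Real.sqrt (2 * Real.pi * v))⁻¹ * Real.exp (-(2 * v)⁻¹ * x ^ 2) := by
    intro x
    unfold pd
    congr 2
    ring
  simp only [h1]
  rw [integral_const_mul, integral_gaussian, div_inv_eq_mul,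
    show Real.pi * (2 * v) = 2 * Real.pi * v by ring]
  exact inv_mul_cancel₀ (Real.sqrt_pos.2 (by positivity)).ne'

lemma main (a s L c : ℝ) (ha : 0 < a) (hs : 0 ≤ s) (hL : 0 < L) (w : ℝ → ℕ → ℝ)
    (hw : ∀ t k, 0 ≤ w t k ∧ w t k ≤ 1)
    (hc : ∀ x, ∀ᶠ t in atTop, w t (kk (a * L) t x) = c) :
    (∀ t, 1 ≤ t → Summable fun k : ℕ => w t k * pd (s + k * L) (t - a * k * L)) ∧
    Tendsto (fun t : ℝ => ∑' k : ℕ, w t k * pd (s + k * L) (t - a * k * L)) atTop
      (𝓝 ((a * L)⁻¹ * c)) := by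
  set h : ℝ := a * L with hh
  have hh0 : 0 < h := by positivity
  set g : ℝ → ℕ → ℝ := fun t k => w t k * pd (s + k * L) (t - a * k * L) with hg
  obtain ⟨C, hC0, hC⟩ := dom a s h ha hs
  have ey : ∀ (t : ℝ) (k : ℕ), t - a * k * L = -(h * k - t) := fun t k => by rw [hh]; ring
  have hbd : ∀ t, 1 ≤ t → ∀ x, ‖FF h t (g t) x‖ ≤ C * (1 + x ^ 2)⁻¹ := by
    intro t ht x
    unfold FF
    split_ifs with h0
    · obtain ⟨h1, h2⟩ := kk_bounds h t x hh0 h0
      have h3 := hC t (s + kk h t x * L) (h * kk h t x - t) x ht (by positivity)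
        (by rw [hh]; ring) (abs_le.2 ⟨by linarith, by linarith⟩)
      have h4 := pd_nonneg (s + kk h t x * L) (-(h * kk h t x - t))
      obtain ⟨h5, h6⟩ := hw t (kk h t x)
      simp only [hg, ey]
      rw [Real.norm_of_nonneg (by positivity)]
      refine le_trans ?_ h3
      exact mul_le_mul_of_nonneg_left (mul_le_of_le_one_left h4 h6) (Real.sqrt_nonneg t)
    · rw [norm_zero]; positivity
  have hI : Integrable (fun x : ℝ => C * (1 + x ^ 2)⁻¹) := integrable_inv_one_add_sq.const_mul C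
  have hsum : ∀ t, 1 ≤ t → HasSum (g t) (h⁻¹ * ∫ x, FF h t (g t) x) := by
    intro t ht
    have h1 := FF_hasSum h t (g t) hh0 (by linarith)
      (hI.mono' (FF_meas h t (g t)).aestronglyMeasurable (Eventually.of_forall (hbd t ht)))
    have h2 := h1.mul_left h⁻¹
    simpa only [inv_mul_cancel_left₀ hh0.ne'] using h2
  refine ⟨fun t ht => (hsum t ht).summable, ?_⟩
  have hlim : Tendsto (fun t => ∫ x, FF h t (g t) x) atTop (𝓝 (∫ x, c * pd a⁻¹ x)) := by
    refine tendsto_integral_filter_of_dominated_convergence (fun x => C * (1 + x ^ 2)⁻¹)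
      (Eventually.of_forall fun t => (FF_meas h t (g t)).aestronglyMeasurable) ?_ hI
      (Eventually.of_forall fun x => ?_)
    · filter_upwards [eventually_ge_atTop 1] with t ht
      exact Eventually.of_forall (hbd t ht)
    · have hv : Tendsto (fun t : ℝ => (s + kk h t x * L) / t) atTop (𝓝 a⁻¹) := by
        have h1 : Tendsto (fun t : ℝ => s / t + a⁻¹ * ((h * kk h t x - t) / t + 1)) atTop
            (𝓝 (0 + a⁻¹ * (0 + 1))) :=
          ((tendsto_const_nhds (x := s)).div_atTop tendsto_id).add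
            (((y_lim0 h x hh0).add tendsto_const_nhds).const_mul _)
        simp only [zero_add, mul_one] at h1
        refine h1.congr' ?_
        filter_upwards [eventually_gt_atTop 0] with t ht
        rw [hh]
        field_simp
        ring
      have h2 := ((pd_cont a⁻¹ x (by positivity)).tendsto.comp
        (hv.prodMk_nhds (y_lim h x hh0))).const_mul c
      refine h2.congr' ?_
      filter_upwards [ev_nonneg x, eventually_gt_atTop 0, hc x] with t h0 ht hct
      simp only [FF, if_pos h0, hg, ey, hct, Function.comp]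
      rw [← pd_scale _ _ _ ht]
      ring
  rw [integral_const_mul, pd_int _ (by positivity), mul_one] at hlim
  refine (hlim.const_mul h⁻¹).congr' ?_
  filter_upwards [eventually_ge_atTop 1] with t ht
  exact (hsum t ht).tsum_eq.symm

end RW6

theorem blk_RW6 (_hRW1 : St_RW1) : St_RW6 := by
  intro a ha s hs
  have hL : 0 < l2 := Real.log_pos one_lt_two
  constructor
  · have h := (RW6.main a s l2 1 ha hs hL (fun _ _ => 1) (fun _ _ => ⟨zero_le_one, le_rfl⟩)
      (fun _ => Eventually.of_forall fun _ => rfl)).2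
    simpa only [one_mul, mul_one] using h
  · intro ε hε
    have hw : ∀ (t : ℝ) (k : ℕ), 0 ≤ indR (ε * t < |a * k * l2 - t|) ∧
        indR (ε * t < |a * k * l2 - t|) ≤ 1 := by
      intro t k
      unfold indR
      split_ifs <;> simp
    obtain ⟨h1, h2⟩ := RW6.main a s l2 0 ha hs hL
      (fun t k => indR (ε * t < |a * k * l2 - t|)) hw (fun x => by
        have h3 := (RW6.y_lim0 (a * l2) x (by positivity)).abs
        rw [abs_zero] at h3
        filter_upwards [h3.eventually (ge_mem_nhds hε), eventually_gt_atTop 0] with t h4 ht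
        rw [abs_div, abs_of_pos ht, div_le_iff₀ ht] at h4
        unfold indR
        rw [if_neg]
        rw [show a * (RW6.kk (a * l2) t x : ℝ) * l2 = a * l2 * RW6.kk (a * l2) t x by ring]
        linarith)
    have h5 := ENNReal.tendsto_ofReal h2
    rw [mul_zero, ENNReal.ofReal_zero] at h5
    refine h5.congr' ?_
    filter_upwards [eventually_ge_atTop 1] with t ht
    rw [ENNReal.ofReal_tsum_of_nonneg
      (fun k => mul_nonneg (hw t k).1 (RW6.pd_nonneg _ _)) (h1 t ht)]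
    refine tsum_congr fun k => ?_
    unfold ind indR
    split_ifs <;> simp

end

end Pool.Agent.Lib.APPS
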