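import Pool.Agent.Lib.APPS.B_SCRa

/-!
Block SCR: screening estimate for the kriging residual.
-/

namespace Pool.Agent.Lib.APPS

open MeasureTheory ProbabilityTheory Filter Topology Set Metric
open scoped NNReal ENNReal RealInnerProductSpace Classical

noncomputable section

namespace SCR

theorem zS_zS (hG : St_GEO1) (S A : Dy) (z : ℂ) : zS (S ++ A) z = zS A (zS S z) := by
  rw [zS, (hG.2.2.1 S A).1, hG.2.1 S A]
  simp only [zS]
  push_cast
  ring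

theorem norm_zS (hG : St_GEO1) (A : Dy) (x y : ℂ) : ‖zS A x - zS A y‖ = side A * ‖x - y‖ := by
  have : zS A x - zS A y = (side A : ℂ) * (x - y) := by simp only [zS]; ring
  rw [this, norm_mul, Complex.norm_real, Real.norm_eq_abs, abs_of_pos (hG.1 A).1]

theorem zS_surj (hG : St_GEO1) (A : Dy) (x : ℂ) : ∃ y, zS A y = x := by
  refine ⟨(x - corner A) / side A, ?_⟩
  have : (side A : ℂ) ≠ 0 := by exact_mod_cast (hG.1 A).1.ne'
  simp only [zS]
  field_simp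
  ring

theorem ball_sub (hG : St_GEO1) {T : Dy} {z : ℂ} {d : ℝ} (h : closedBall z d ⊆ box T) (A : Dy) :
    closedBall (zS A z) (d * side A) ⊆ box (T ++ A) := by
  intro x hx
  obtain ⟨y, rfl⟩ := zS_surj hG A x
  rw [mem_closedBall, dist_eq_norm, norm_zS hG, mul_comm] at hx
  rw [(hG.2.2.1 T A).2.2]
  refine mem_image_of_mem _ (h ?_)
  rw [mem_closedBall, dist_eq_norm]
  exact le_of_mul_le_mul_right hx (hG.1 A).1

theorem d_le {z : ℂ} {d : ℝ} (hd : 0 < d) (h : closedBall z d ⊆ box []) : d ≤ 1 := by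
  have h1 := (h (show z + d ∈ closedBall z d by simp [abs_of_pos hd])).1
  have h2 := (h (mem_closedBall_self hd.le)).1
  simp only [corner, side, List.length_nil, pow_zero, Complex.zero_re, Complex.add_re,
    Complex.ofReal_re, mem_Icc, zero_add] at h1 h2
  linarith [h1.2, h2.1]

theorem suffix_cancel {B B' A : Dy} (h : B ++ A <:+ B' ++ A) : B <:+ B' := by
  obtain ⟨t, ht⟩ := h
  rw [← List.append_assoc] at ht
  exact ⟨t, List.append_cancel_right ht⟩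

/-- the conclusion of the block SCR1 -/
def Cut (C : ℝ) (τ : Finset Dy) (A : Dy) (f : ℂ → ℝ) (c : ℂ) (r : ℝ) (ψ : ℂ → ℝ) : Prop :=
  LipE ψ ∧ (∀ x, ‖x - c‖ ≤ 3 * r / 4 → ψ x = 0) ∧
    (∀ x, 9 * r / 4 ≤ ‖x - c‖ → ψ x = f x) ∧ (∀ B ∈ lvs τ, ∫ x, ψ x ∂unif (B ++ A) = 0) ∧
    ∫ x in {x | 3 * r / 4 ≤ ‖x - c‖ ∧ ‖x - c‖ ≤ 9 * r / 4}, ‖gradient ψ x‖ ^ 2 ≤
      C * ∫ x in {x | 3 * r / 4 ≤ ‖x - c‖ ∧ ‖x - c‖ ≤ 9 * r / 4}, ‖gradient f x‖ ^ 2

theorem step (hG : St_GEO1) (hG2 : St_GEO2) (hT : St_T1) (h1 : St_SCR1) :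
    ∃ C : ℝ, 0 ≤ C ∧ ∀ (K D : ℕ) (τ : Finset Dy) (S : Dy), IsTr τ → Good K D τ S →
      ∀ (A : Dy) (f : ℂ → ℝ), LipE f → (∀ B ∈ lvs τ, ∫ x, f x ∂unif (B ++ A) = 0) →
      ∀ l : ℕ, K ≤ l → l ≤ 2 * K →
        ∃ ψ, Cut C τ A f (ctr (S ++ A)) (8 * (1 / 2 : ℝ) ^ l * side A) ψ := by
  obtain ⟨C, hC0, hC⟩ := h1
  refine ⟨C, hC0, fun K D τ S hτ hS A f hf h0 l hl hl' => ?_⟩
  obtain ⟨-, -, -, hball, hin⟩ := hS
  have hA := (hG.1 A).1
  have hlv := hT.2.2.2.2.2.2.2.1 τ hτ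
  have hc : ctr (S ++ A) = zS A (ctr S) := (hG.2.2.1 S A).2.1
  have hp : (1 / 2 : ℝ) ^ l ≤ (1 / 2 : ℝ) ^ K :=
    pow_le_pow_of_le_one (by norm_num) (by norm_num) hl
  have hp0 : 0 < (1 / 2 : ℝ) ^ l := by positivity
  refine (hC ((lvs τ).image (· ++ A)) f (ctr (S ++ A))
    (8 * (1 / 2 : ℝ) ^ l * side A) (by positivity) hf ?_ ?_ ?_ ?_).imp
    fun ψ ⟨a1, a2, a3, a4, a5⟩ =>
      ⟨a1, a2, a3, fun B hB => a4 _ (Finset.mem_image_of_mem _ hB), a5⟩
  · intro B0 hB0 B1 hB1 h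
    obtain ⟨B, hB, rfl⟩ := Finset.mem_image.1 hB0
    obtain ⟨B', hB', rfl⟩ := Finset.mem_image.1 hB1
    rw [hT.2.2.2.2.2.2.2.2.1 τ hτ B hB B' hB' (suffix_cancel h)]
  · intro x _ hx
    obtain ⟨y, rfl⟩ := zS_surj hG A x
    rw [hc, norm_zS hG] at hx
    have hy : y ∈ box [] := by
      refine hball ?_
      rw [mem_closedBall, dist_eq_norm]
      have : side A * ‖y - ctr S‖ ≤ side A * (32 * (1 / 2 : ℝ) ^ K) := by nlinarith
      exact le_of_mul_le_mul_left this hA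
    obtain ⟨B, hB, hyB⟩ := hG2.2.2.2.2.2.2.2.2 τ hτ y hy
    refine ⟨B ++ A, Finset.mem_image_of_mem _ hB, ?_⟩
    rw [(hG.2.2.1 B A).2.2]
    exact mem_image_of_mem _ hyB
  · rintro B0 hB0 ⟨x, hx, -, hx'⟩
    obtain ⟨B, hB, rfl⟩ := Finset.mem_image.1 hB0
    rw [(hG.2.2.1 B A).2.2] at hx
    obtain ⟨y, hy, rfl⟩ := hx
    rw [hc, norm_zS hG] at hx'
    have hy' : ‖y - ctr S‖ ≤ 16 * (1 / 2 : ℝ) ^ l := by
      have : side A * ‖y - ctr S‖ ≤ side A * (16 * (1 / 2 : ℝ) ^ l) := by linarith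
      exact le_of_mul_le_mul_left this hA
    have hlen : l ≤ B.length := by
      by_contra hn
      obtain ⟨S', hS', hyS⟩ := hG.2.2.2.2.2.2.2.1 B (l - B.length) y hy
      have e : (S' ++ B).length = l := by rw [List.length_append, hS']; omega
      have e' : side (S' ++ B) = (1 / 2 : ℝ) ^ l := by rw [side, e]
      have h3 := (hG.2.2.2.1 (S' ++ B)).2.2.2.1 y hyS
      have h4 : S' ++ B ∈ τ := by
        refine hin _ (e ▸ hl) (e ▸ hl') ?_
        have := norm_sub_le_norm_sub_add_norm_sub (ctr (S' ++ B)) y (ctr S)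
        rw [norm_sub_rev (ctr (S' ++ B)) y] at this
        rw [e'] at h3 ⊢
        linarith
      exact ((hlv B).1 hB).1 (hτ _ h4 B (List.suffix_append _ _))
    rw [hG.2.1 B A]
    have : side B ≤ (1 / 2 : ℝ) ^ l := pow_le_pow_of_le_one (by norm_num) (by norm_num) hlen
    nlinarith
  · intro B0 hB0
    obtain ⟨B, hB, rfl⟩ := Finset.mem_image.1 hB0
    exact h0 B hB

theorem cut_dec {C : ℝ} {τ : Finset Dy} {A : Dy} {f ψ : ℂ → ℝ} {c : ℂ} {r c0 C0 : ℝ}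
    (h : Cut C τ A f c r ψ) (hd : ∀ x, |f x - c0| ≤ C0 / (1 + ‖x‖)) :
    ∃ C1 : ℝ, ∀ x, |ψ x - c0| ≤ C1 / (1 + ‖x‖) := by
  obtain ⟨⟨⟨K, hK⟩, -⟩, -, h1, -⟩ := h
  have hc : Continuous fun x => |ψ x - c0| * (1 + ‖x‖) := by
    have := hK.continuous
    fun_prop
  obtain ⟨B, hB⟩ := (isCompact_closedBall c (9 * r / 4)).exists_bound_of_continuousOn
    hc.continuousOn
  refine ⟨max C0 B, fun x => ?_⟩
  by_cases hx : 9 * r / 4 ≤ ‖x - c‖
  · rw [h1 x hx]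
    refine (hd x).trans ?_
    gcongr
    exact le_max_left _ _
  · rw [le_div_iff₀ (by positivity)]
    have := hB x (by rw [mem_closedBall, dist_eq_norm]; exact (not_le.1 hx).le)
    exact (le_abs_self _).trans (this.trans (le_max_right _ _))

theorem iter (hP : St_P1) (hF : St_FE) (hG : St_GEO1) (hG2 : St_GEO2) (hT : St_T1)
    (h1 : St_SCR1) :
    ∃ C : ℝ, 0 ≤ C ∧ ∀ (K D : ℕ) (τ : Finset Dy) (S : Dy), IsTr τ → Good K D τ S →
      ∀ (A : Dy) (f : ℂ → ℝ) (c0 C0 : ℝ), LipE f → (∀ x, |f x - c0| ≤ C0 / (1 + ‖x‖)) →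
      (∀ B ∈ lvs τ, ∫ x, f x ∂unif (B ++ A) = 0) →
      (∀ (ψ : ℂ → ℝ) (C1 : ℝ), LipE ψ → (∀ x, |ψ x - c0| ≤ C1 / (1 + ‖x‖)) →
        (∀ x ∈ box (S ++ A), ψ x = 0) → (∀ B ∈ lvs τ, ∫ x, ψ x ∂unif (B ++ A) = 0) →
        ⟪gr f, gr ψ⟫ = 0) →
      ∃ φ, LipC φ ∧ tsupport φ ⊆ interior (box A) ∧
        (∀ B ∈ lvs τ, ∫ x, φ x ∂unif (B ++ A) = 0) ∧
        ‖gr f - gr φ‖ ^ 2 ≤ (1 + C) * ((1 + C) / (3 + C)) ^ (K / 2) * ‖gr f‖ ^ 2 := by
  obtain ⟨C, hC0, hC⟩ := step hG hG2 hT h1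
  refine ⟨C, hC0, fun K D τ S hτ hS A f c0 C0 hf hd h0 horth => ?_⟩
  have hA := (hG.1 A).1
  have hst := hC K D τ S hτ hS A f hf h0
  obtain ⟨-, hlen, -, hball, -⟩ := hS
  set θ := (1 + C) / (3 + C) with hθ
  have hθ0 : 0 ≤ θ := by positivity
  have dec : ∀ l : ℕ, K ≤ l → l ≤ 2 * K →
      ext f (ctr (S ++ A)) (3 * (8 * (1 / 2 : ℝ) ^ l * side A)) ≤
        θ * ext f (ctr (S ++ A)) (3 * (8 * (1 / 2 : ℝ) ^ l * side A) / 4) := by
    intro l hl hl'
    obtain ⟨ψ, hψ⟩ := hst l hl hl'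
    obtain ⟨C1, hC1⟩ := cut_dec hψ hd
    obtain ⟨a1, a2, a3, a4, a5⟩ := hψ
    refine (core hP hf a1 (by positivity) hC0 a2 a3 a5).1 (horth ψ C1 a1 hC1 (fun x hx => ?_) a4)
    refine a2 x (((hG.2.2.2.1 (S ++ A)).2.2.2.1 x hx).trans ?_)
    rw [hG.2.1 S A]
    have : side S ≤ (1 / 2 : ℝ) ^ l :=
      pow_le_pow_of_le_one (by norm_num) (by norm_num) (by omega)
    have : 0 < (1 / 2 : ℝ) ^ l := by positivity
    nlinarith
  have ind : ∀ j l : ℕ, K ≤ l → l + 2 * j ≤ 2 * K →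
      ext f (ctr (S ++ A)) (3 * (8 * (1 / 2 : ℝ) ^ l * side A) / 4) ≤
        θ ^ j * (2 * Real.pi * ‖gr f‖ ^ 2) := by
    intro j
    induction j with
    | zero => intro l _ _; simpa using ext_le hP hf _ _
    | succ j ih =>
      intro l hl hl'
      have e : 3 * (8 * (1 / 2 : ℝ) ^ l * side A) / 4 =
          3 * (8 * (1 / 2 : ℝ) ^ (l + 2) * side A) := by ring
      rw [e]
      refine (dec (l + 2) (by omega) (by omega)).trans ?_
      rw [pow_succ' θ, mul_assoc θ]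
      exact mul_le_mul_of_nonneg_left (ih (l + 2) (by omega) (by omega)) hθ0
  obtain ⟨ψ, a1, a2, a3, a4, a5⟩ := hst K le_rfl (by omega)
  have b1 := hP.2.2.1 (-1) ψ a1
  have b2 := hP.2.1 f _ hf b1.1
  have hp0 : 0 < (1 / 2 : ℝ) ^ K := by positivity
  have hsupp : tsupport (f + (-1 : ℝ) • ψ) ⊆
      closedBall (ctr (S ++ A)) (9 * (8 * (1 / 2 : ℝ) ^ K * side A) / 4) := by
    refine closure_minimal (fun x hx => ?_) isClosed_closedBall
    by_contra hn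
    rw [mem_closedBall, dist_eq_norm, not_le] at hn
    exact hx (by simp [a3 x hn.le])
  refine ⟨f + (-1 : ℝ) • ψ, ⟨b2.1.1, (isCompact_closedBall _ _).of_isClosed_subset
    (isClosed_tsupport _) hsupp⟩, hsupp.trans ?_, fun B hB => ?_, ?_⟩
  · have h2 := ball_sub hG hball A
    rw [List.nil_append, ← (hG.2.2.1 S A).2.1] at h2
    refine (closedBall_subset_ball ?_).trans (interior_maximal (ball_subset_closedBall.trans h2)
      isOpen_ball)
    nlinarith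
  · obtain ⟨⟨K1, hK1⟩, -⟩ := hf
    obtain ⟨⟨K2, hK2⟩, -⟩ := a1
    have hB' := (hF.2.2.2.2.2.2.2.1 (B ++ A)).1.1
    simp only [Pi.add_apply, Pi.smul_apply, smul_eq_mul]
    rw [integral_add (int_cont hB' hK1.continuous) ((int_cont hB' hK2.continuous).const_mul _),
      integral_const_mul, h0 B hB, a4 B hB]
    simp
  · have e : gr f - gr (f + (-1 : ℝ) • ψ) = gr ψ := by rw [b2.2, b1.2]; simp
    rw [e]
    have c1 := (core hP hf a1 (by positivity) hC0 a2 a3 a5).2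
    have c2 := ind (K / 2) K le_rfl (by omega)
    have c3 : 2 * Real.pi * ‖gr ψ‖ ^ 2 ≤
        2 * Real.pi * ((1 + C) * θ ^ (K / 2) * ‖gr f‖ ^ 2) := by
      refine c1.trans ((mul_le_mul_of_nonneg_left c2 (by linarith)).trans_eq ?_)
      ring
    exact le_of_mul_le_mul_left c3 (by positivity)

end SCR

open SCR in
theorem blk_SCR (hP : St_P1) (hF : St_FE) (_hE1 : St_EXP1) (hE : St_EXP2) (hG : St_GEO1)
    (hG2 : St_GEO2) (hT : St_T1) (hM : St_MOD) (hY : St_YV) (hGR : St_GR) (h0 : St_SCR0)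
    (h1 : St_SCR1) : St_SCR := by
  obtain ⟨C, hC0, hC⟩ := iter hP hF hG hG2 hT h1
  obtain ⟨CY, hCY⟩ := hY
  set θ := (1 + C) / (3 + C) with hθ
  have hθ0 : 0 < θ := by positivity
  have hθ1 : θ < 1 := by rw [hθ, div_lt_one (by linarith)]; linarith
  set t := Real.sqrt (Real.sqrt θ) with ht
  have ht0 : 0 < t := Real.sqrt_pos.2 (Real.sqrt_pos.2 hθ0)
  have ht1 : t < 1 := by
    rw [ht, Real.sqrt_lt' one_pos, one_pow, Real.sqrt_lt' one_pos, one_pow]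
    exact hθ1
  have ht4 : t ^ 4 = θ := by
    rw [show t ^ 4 = (t ^ 2) ^ 2 by ring, ht, Real.sq_sqrt (Real.sqrt_nonneg _),
      Real.sq_sqrt hθ0.le]
  refine ⟨t, Real.sqrt ((1 + C) * max 1 CY) / t, ht0, ht1, by positivity,
    fun K D τ S hτ hS M A z d hO hd hz => ?_⟩
  obtain ⟨s1, s2, -⟩ := h0 τ hτ
  have hSl : S ∈ lvs τ := hS.1
  set w := zS S z with hw
  set z' := zS (S ++ A) z with hz'
  set d' := d * side (S ++ A) with hd'
  have hd0 : 0 < d' := mul_pos hd (hG.1 _).1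
  have hb : closedBall z' d' ⊆ box (S ++ A) := by
    simpa using ball_sub hG hz (S ++ A)
  obtain ⟨y1, y2, -⟩ := hCY M (S ++ A) z' d' hO hd0 hb
  have hAO : box A ⊆ M.O := ((hG.2.2.2.2.1 A []).2 List.nil_suffix).trans hO
  have hGr := (hM M).2.2.2.2.2.2.1 A hAO
  set V := M.Yv z' d' - ∑ B : lvs τ, lamL τ w B • M.eS (B ++ A) with hV
  have hin : ∀ B ∈ lvs τ, ⟪V, M.eS (B ++ A)⟫ = -nuL τ w := by
    intro B hB
    have e1 : ⟪M.Yv z' d', M.eS (B ++ A)⟫ = M.C0 + (potS B w + A.length * l2) := by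
      rw [y1, hz', zS_zS hG, hE.2.2.1]
      by_cases h : S ++ A <:+ B ++ A
      · left
        rw [hT.2.2.2.2.2.2.2.2.1 τ hτ S hSl B hB (suffix_cancel h)]
      · exact Or.inr h
    have e2 : ∀ B' : lvs τ, ⟪lamL τ w B' • M.eS (B' ++ A), M.eS (B ++ A)⟫ =
        (M.C0 + A.length * l2) * lamL τ w B' + lamL τ w B' * kS B' B := by
      intro B'
      rw [real_inner_smul_left, hGr B' B, covE]
      ring
    rw [hV, inner_sub_left, sum_inner, e1, Finset.sum_congr rfl fun B' _ => e2 B',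
      Finset.sum_add_distrib, ← Finset.mul_sum, s1 w, s2 w ⟨B, hB⟩]
    ring
  have hnorm : ‖V‖ ^ 2 ≤ max 1 CY * (1 + Real.log (1 / d)) := by
    have e1 : ⟪V, (∑ B : lvs τ, lamL τ w B • M.eS (B ++ A)) - M.eS (S ++ A)⟫ = 0 := by
      rw [inner_sub_right, inner_sum, hin S hSl, Finset.sum_congr rfl fun (B : lvs τ) _ =>
        show ⟪V, lamL τ w B • M.eS (B ++ A)⟫ = -nuL τ w * lamL τ w B by
          rw [real_inner_smul_right, hin B B.2, mul_comm], ← Finset.mul_sum, s1 w]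
      ring
    have e2 : M.Yv z' d' - M.eS (S ++ A) =
        V + ((∑ B : lvs τ, lamL τ w B • M.eS (B ++ A)) - M.eS (S ++ A)) := by
      rw [hV]; abel
    have e3 : side (S ++ A) / d' = 1 / d := by
      have := (hG.1 (S ++ A)).1
      rw [hd']
      field_simp
    rw [e2, norm_add_sq_real, e1, e3] at y2
    have e4 : 0 ≤ Real.log (1 / d) :=
      Real.log_nonneg (by rw [le_div_iff₀ hd, one_mul]; exact d_le hd hz)
    have e5 := le_max_left 1 CY
    have e6 := le_max_right 1 CY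
    nlinarith [sq_nonneg ‖(∑ B : lvs τ, lamL τ w B • M.eS (B ++ A)) - M.eS (S ++ A)‖]
  have pu : ∀ B, PFE (unif B) := fun B => (hF.2.2.2.2.2.2.2.1 B).1
  have q1 := hF.2.2.2.2.2.2.2.2.1 z' (d' / 2) (by positivity)
  have q2 := hF.2.2.2.2.2.2.2.2.1 z' d' hd0
  have hdec : V = (4 / 3 : ℝ) • (M.e (disc z' (d' / 2)) - M.e (unif (S ++ A))) +
      (-1 / 3 : ℝ) • (M.e (disc z' d') - M.e (unif (S ++ A))) +
      ∑ B : lvs τ, (-lamL τ w B) • (M.e (unif (B ++ A)) - M.e (unif (S ++ A))) := by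
    simp only [smul_sub, Finset.sum_sub_distrib, neg_smul, Finset.sum_neg_distrib,
      ← Finset.sum_smul, s1 w, hV, Model.Yv, Model.eS]
    module
  have hnice : Nice V := by
    have np : ∀ {μ : Measure ℂ}, Dens μ → PFE μ → Nice (M.e μ - M.e (unif (S ++ A))) := by
      intro μ a b
      have := b.2
      have := (pu (S ++ A)).2
      exact nice_pair hF hM hGR M a (dens_unif hG _)
    rw [hdec]
    have n1 := np (dens_disc z' (half_pos hd0)) q1.2.2.1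
    exact ((n1.smul hP _).add hP ((np (dens_disc z' hd0) q2.2.2.1).smul hP _)).add hP
      (Nice.sum hP _ n1 fun B => (np (dens_unif hG _) (pu _)).smul hP _)
  obtain ⟨f, hf, ⟨C0, hf0⟩, hVf⟩ := hnice
  set c := ∫ x, f x ∂unif (S ++ A) with hc
  obtain ⟨K0, hK0⟩ := hf.1
  have g1 := hP.2.2.2.1 (-c) f hf
  have hav : ∀ B ∈ lvs τ, ∫ x, (f x + -c) ∂unif (B ++ A) = 0 := by
    intro B hB
    have p := (pu (B ++ A)).2
    have e := pair_dec hP M (pu (B ++ A)) (pu (S ++ A)) hf (c := 0) (C := C0) (by simpa using hf0)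
    rw [← hVf, real_inner_comm, inner_sub_right] at e
    have e1 := hin B hB
    have e2 := hin S hSl
    simp only [Model.eS] at e1 e2
    rw [e1, e2, sub_self] at e
    rw [integral_add (int_cont (pu _).1 hK0.continuous) (integrable_const _)]
    simp only [integral_const, probReal_univ, smul_eq_mul, one_mul]
    linarith
  obtain ⟨φ, k1, k2, k3, k4⟩ := hC K D τ S hτ hS A (fun x => f x + -c) (-c) C0 g1.1
    (by simpa using hf0) hav (fun ψ C1 a1 a2 a3 a4 => by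
      have z0 : ∀ {μ : Measure ℂ} {s : Set ℂ}, μ sᶜ = 0 → s ⊆ box (S ++ A) →
          ∫ x, ψ x ∂μ = 0 := by
        intro μ s hs hs'
        have hs1 : ∀ᵐ x ∂μ, x ∈ s := hs
        refine integral_eq_zero_of_ae ?_
        filter_upwards [hs1] with x hx
        exact a3 x (hs' hx)
      rw [g1.2, ← hVf, hdec, inner_add_left, inner_add_left, sum_inner, Finset.sum_eq_zero,
        real_inner_smul_left, real_inner_smul_left, pair_dec hP M q1.2.2.1 (pu _) a1 a2,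
        pair_dec hP M q2.2.2.1 (pu _) a1 a2, a4 S hSl, z0 q2.2.2.2 hb,
        z0 q1.2.2.2 ((closedBall_subset_closedBall (by linarith)).trans hb)]
      · simp
      · intro B _
        rw [real_inner_smul_left, pair_dec hP M (pu _) (pu _) a1 a2, a4 S hSl, a4 B B.2]
        simp)
  refine ⟨φ, k1, k2, k3, ⟨_, hin⟩, ?_⟩
  rw [g1.2, ← hVf] at k4
  have e4 : 0 ≤ Real.log (1 / d) :=
    Real.log_nonneg (by rw [le_div_iff₀ hd, one_mul]; exact d_le hd hz)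
  refine abs_le_of_sq_le_sq' ?_ (by positivity) |>.2
  rw [mul_pow, mul_pow, div_pow, Real.sq_sqrt (show 0 ≤ (1 + C) * max 1 CY by positivity),
    Real.sq_sqrt (show 0 ≤ 1 + Real.log (1 / d) by positivity)]
  refine k4.trans ?_
  have e5 : θ ^ (K / 2) ≤ (t ^ K) ^ 2 / t ^ 2 := by
    rw [le_div_iff₀ (by positivity), ← ht4, ← pow_mul, ← pow_mul, ← pow_add]
    exact pow_le_pow_of_le_one ht0.le ht1.le (by omega)
  calc (1 + C) * θ ^ (K / 2) * ‖V‖ ^ 2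
      ≤ (1 + C) * ((t ^ K) ^ 2 / t ^ 2) * (max 1 CY * (1 + Real.log (1 / d))) := by gcongr
    _ = _ := by ring

end

end Pool.Agent.Lib.APPS
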