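import Pool.Agent.Lib.APPS.Blue4

/-!
Block SCR0: the local kriging weights.
-/

namespace Pool.Agent.Lib.APPS

open MeasureTheory ProbabilityTheory Filter Topology Set Metric
open scoped NNReal ENNReal RealInnerProductSpace Classical

noncomputable section

theorem scr0_posDef (hM0 : St_M0) (hMOD : St_MOD) (hBMP : St_BMP) (hGEO : St_GEO1) (hT1 : St_T1)
    {τ : Finset Dy} (hτ : IsTr τ) : (Matrix.of fun A B : lvs τ => kS A B).PosDef := by
  obtain ⟨M0⟩ := hM0
  obtain ⟨M, hO, hC, -⟩ := (hMOD M0).2.2.1 (ctr []) 1 one_pos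
  have h0 : box [] ⊆ M.O := fun y hy => by
    have := (hGEO.2.2.2.1 []).2.2.2.1 y hy
    rw [hO, mem_ball, dist_eq_norm]
    simp only [side, List.length_nil, pow_zero] at this
    linarith
  have hS : ∀ S, box S ⊆ M.O := fun S => ((hGEO.2.2.2.2.1 S []).2 List.nil_suffix).trans h0
  have hg := (hMOD M).2.2.2.2.2.2.1 [] h0
  obtain ⟨hb, E, C, -, -, -, hB⟩ := hBMP
  obtain ⟨-, -, h3, -, h5, -⟩ := hB M
  have e : (Matrix.of fun A B : lvs τ => kS A B) = Matrix.gram ℝ fun A : lvs τ => M.eS A := by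
    ext A B
    have := hg A B
    simp only [List.append_nil, covE, hC, Real.log_one, List.length_nil, Nat.cast_zero,
      zero_mul, zero_add] at this
    rw [Matrix.gram_apply, this, Matrix.of_apply]
  rw [e, Matrix.posDef_gram_iff_linearIndependent, Fintype.linearIndependent_iff]
  intro g hg0 A
  have h := congrArg (fun v => ⟪M.ub A, v⟫) hg0
  simp only [inner_sum, inner_smul_right, inner_zero_right] at h
  rw [Finset.sum_eq_single A (fun B _ hB => ?_) (fun h => (h (Finset.mem_univ A)).elim),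
    h5 _ _ (hS A) List.suffix_rfl, div_self (hGEO.1 _).1.ne'] at h
  · simpa [hb.ne'] using h
  · have hl := hT1.2.2.2.2.2.2.2.2.1 τ hτ
    rw [(h3 A B (fun h => hB (Subtype.ext (hl _ A.2 _ B.2 h)).symm)
      (fun h => hB (Subtype.ext (hl _ B.2 _ A.2 h)))).2 (hS A), mul_zero]

theorem blk_SCR0 (hM0 : St_M0) (hMOD : St_MOD) (hBMP : St_BMP) (hE : St_EXP2) (hGEO : St_GEO1)
    (hT1 : St_T1) : St_SCR0 := by
  intro τ hτ
  have hP := scr0_posDef hM0 hMOD hBMP hGEO hT1 hτ
  have hG : (Gi τ).PosDef := hP.inv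
  have hne : Nonempty (lvs τ) := by
    have := (hT1.2.2.1 τ hτ).1
    exact (Finset.card_pos.1 (by omega)).to_subtype
  have hs : 0 < ∑ A : lvs τ, ∑ B : lvs τ, Gi τ A B := by
    have := hG.dotProduct_mulVec_pos (x := fun _ => 1) (fun h => by
      simpa using congrFun h (Classical.arbitrary _))
    simpa [dotProduct, Matrix.mulVec] using this
  have hsym : ∀ A B, Gi τ A B = Gi τ B A := fun A B => by
    simpa using (hG.isHermitian.apply B A)
  have hmul : Gi τ * (Matrix.of fun A B : lvs τ => kS A B) = 1 :=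
    Matrix.nonsing_inv_mul _ ((Matrix.isUnit_iff_isUnit_det _).1 hP.isUnit)
  obtain ⟨C, -, -, hL, -⟩ := hE.2.2.2.2.2
  have hc : ∀ B, Continuous (potS B) := fun B =>
    (LipschitzWith.of_dist_le' (K := C / side B) fun z z' => by
      rw [Real.dist_eq, dist_eq_norm]; exact hL B z z').continuous
  refine ⟨fun z => ?_, fun z B => ?_, fun A => ?_⟩
  · simp only [lamL, mul_add, Finset.sum_add_distrib, ← Finset.sum_mul]
    rw [nuL, mul_div_cancel₀ _ hs.ne']
    ring
  · simp only [lamL, Finset.sum_mul]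
    rw [Finset.sum_comm]
    have : ∀ D : lvs τ, ∑ A : lvs τ, Gi τ A D * (potS D z + nuL τ z) * kS A B =
        (1 : Matrix (lvs τ) (lvs τ) ℝ) D B * (potS D z + nuL τ z) := fun D => by
      rw [← hmul, Matrix.mul_apply, Finset.sum_mul]
      refine Finset.sum_congr rfl fun A _ => ?_
      rw [hsym A D, Matrix.of_apply]
      ring
    simp only [this]
    simp [Matrix.one_apply]
  · unfold lamL nuL
    fun_prop

end

end Pool.Agent.Lib.APPS
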