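import Pool.Agent.Lib.APPS.Blue4

/-!
Block SCR1: cut-off preserving the vanishing of the leaf averages.
-/

namespace Pool.Agent.Lib.APPS

open MeasureTheory ProbabilityTheory Filter Topology Set Metric
open scoped NNReal ENNReal RealInnerProductSpace Classical

noncomputable section

namespace SCR1

def chi (c : ℂ) (r : ℝ) (x : ℂ) : ℝ := max 0 (min 1 (‖x - c‖ / r - 1))

theorem chi_mem (c : ℂ) (r : ℝ) (x : ℂ) : 0 ≤ chi c r x ∧ chi c r x ≤ 1 :=
  ⟨le_max_left _ _, max_le zero_le_one (min_le_left _ _)⟩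

theorem chi_zero {c : ℂ} {r : ℝ} (hr : 0 < r) {x : ℂ} (h : ‖x - c‖ ≤ r) : chi c r x = 0 := by
  have : ‖x - c‖ / r ≤ 1 := (div_le_one hr).2 h
  exact max_eq_left ((min_le_right _ _).trans (by linarith))

theorem chi_one {c : ℂ} {r : ℝ} (hr : 0 < r) {x : ℂ} (h : 2 * r ≤ ‖x - c‖) : chi c r x = 1 := by
  have : 2 ≤ ‖x - c‖ / r := (le_div_iff₀ hr).2 h
  unfold chi
  rw [min_eq_left (by linarith), max_eq_right zero_le_one]

theorem chi_sub (c : ℂ) {r : ℝ} (hr : 0 < r) (x y : ℂ) :
    |chi c r x - chi c r y| ≤ r⁻¹ * dist x y := by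
  have h1 := abs_max_sub_max_le_max (0 : ℝ) (min 1 (‖x - c‖ / r - 1)) 0 (min 1 (‖y - c‖ / r - 1))
  have h2 := abs_min_sub_min_le_max (1 : ℝ) (‖x - c‖ / r - 1) 1 (‖y - c‖ / r - 1)
  have h3 : |‖x - c‖ / r - 1 - (‖y - c‖ / r - 1)| ≤ r⁻¹ * dist x y := by
    rw [show ‖x - c‖ / r - 1 - (‖y - c‖ / r - 1) = r⁻¹ * (‖x - c‖ - ‖y - c‖) by ring, abs_mul,
      abs_of_pos (inv_pos.2 hr)]
    refine mul_le_mul_of_nonneg_left ?_ (inv_pos.2 hr).le
    have := abs_norm_sub_norm_le (x - c) (y - c)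
    rwa [sub_sub_sub_cancel_right, ← dist_eq_norm x y] at this
  simp only [sub_self, abs_zero] at h1 h2
  have h4 : 0 ≤ r⁻¹ * dist x y := by positivity
  exact h1.trans (max_le h4 (h2.trans (max_le h4 h3)))

theorem chi_lip (c : ℂ) {r : ℝ} (hr : 0 < r) : LipschitzWith r⁻¹.toNNReal (chi c r) :=
  LipschitzWith.of_dist_le_mul fun x y => by
    rw [Real.dist_eq, Real.coe_toNNReal _ (inv_pos.2 hr).le]; exact chi_sub c hr x y

theorem cut_lipC (c : ℂ) {r : ℝ} (hr : 0 < r) {f : ℂ → ℝ} {K : ℝ≥0} (hf : LipschitzWith K f) :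
    LipC fun x => (1 - chi c r x) * f x := by
  obtain ⟨M, hM⟩ := (isCompact_closedBall c (2 * r)).exists_bound_of_continuousOn
    hf.continuous.continuousOn
  have hM0 : 0 ≤ M := (norm_nonneg _).trans (hM c (mem_closedBall_self (by linarith)))
  have key : ∀ x y, ‖y - c‖ ≤ 2 * r →
      |(1 - chi c r x) * f x - (1 - chi c r y) * f y| ≤ (K + r⁻¹ * M) * dist x y := by
    intro x y hy
    have h1 : |f y| ≤ M := hM y (mem_closedBall_iff_norm.2 hy)
    have h2 : |f x - f y| ≤ K * dist x y := hf.dist_le_mul x y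
    have h3 := chi_sub c hr x y
    have h4 : |1 - chi c r x| ≤ 1 := abs_le.2 ⟨by linarith [(chi_mem c r x).2],
      by linarith [(chi_mem c r x).1]⟩
    rw [show (1 - chi c r x) * f x - (1 - chi c r y) * f y =
      (1 - chi c r x) * (f x - f y) - (chi c r x - chi c r y) * f y by ring]
    refine (abs_sub _ _).trans ?_
    rw [abs_mul, abs_mul]
    have h5 := mul_le_mul h4 h2 (abs_nonneg _) zero_le_one
    have h6 := mul_le_mul h3 h1 (abs_nonneg _) (by positivity)
    linarith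
  have hK : 0 ≤ K + r⁻¹ * M := by positivity
  refine ⟨⟨(K + r⁻¹ * M).toNNReal, LipschitzWith.of_dist_le_mul fun x y => ?_⟩, ?_⟩
  · rw [Real.dist_eq, Real.coe_toNNReal _ hK]
    by_cases hy : ‖y - c‖ ≤ 2 * r
    · exact key x y hy
    by_cases hx : ‖x - c‖ ≤ 2 * r
    · rw [abs_sub_comm, dist_comm]; exact key y x hx
    rw [chi_one hr (not_le.1 hx).le, chi_one hr (not_le.1 hy).le]
    simp only [sub_self, zero_mul, abs_zero]
    positivity
  · refine HasCompactSupport.intro (isCompact_closedBall c (2 * r)) fun x hx => ?_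
    rw [mem_closedBall_iff_norm] at hx
    rw [chi_one hr (not_le.1 hx).le, sub_self, zero_mul]

theorem norm_grad (f : ℂ → ℝ) (x : ℂ) : ‖gradient f x‖ = ‖fderiv ℝ f x‖ := by
  simp [gradient]

theorem lipE_sum (hP : St_P1) (s : Finset Dy) (F : Dy → ℂ → ℝ) (g : ℂ → ℝ) (hg : LipE g)
    (h : ∀ B ∈ s, LipE (F B)) : LipE (g + ∑ B ∈ s, F B) := by
  induction s using Finset.induction_on with
  | empty => simpa using hg
  | insert a s ha ih =>
    rw [Finset.sum_insert ha, add_left_comm]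
    exact (hP.2.1 _ _ (h a (Finset.mem_insert_self _ _))
      (ih fun B hB => h B (Finset.mem_insert_of_mem hB))).1

theorem int_unif (B : Dy) (u : ℂ → ℝ) :
    ∫ x, u x ∂unif B = (side B ^ 2)⁻¹ * ∫ x in box B, u x := by
  unfold unif
  rw [integral_smul_measure, ENNReal.toReal_ofReal (by positivity), one_div, smul_eq_mul]

theorem intg (hG : St_GEO1) (B : Dy) {u : ℂ → ℝ} (hu : Continuous u) : Integrable u (unif B) :=
  Integrable.smul_measure (hu.continuousOn.integrableOn_compact (hG.2.2.2.1 B).1)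
    ENNReal.ofReal_ne_top

theorem congr_unif (hG : St_GEO1) (B : Dy) {u v : ℂ → ℝ} (h : ∀ x ∈ box B, u x = v x) :
    ∫ x, u x ∂unif B = ∫ x, v x ∂unif B := by
  rw [int_unif, int_unif, setIntegral_congr_fun (hG.2.2.2.1 B).1.measurableSet h]

theorem sq_avg (hG : St_GEO1) (hFE : St_FE) (B : Dy) {u v : ℂ → ℝ} (hu : Continuous u)
    (hv : Continuous v) (h : ∀ x, u x ^ 2 ≤ v x ^ 2) :
    (∫ x, u x ∂unif B) ^ 2 ≤ ∫ x, v x ^ 2 ∂unif B := by
  have : IsProbabilityMeasure (unif B) := (hFE.2.2.2.2.2.2.2.1 B).1.2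
  set m := ∫ x, u x ∂unif B with hm
  have h1 : Integrable (fun x => 2 * m * u x) (unif B) := (intg hG B hu).const_mul _
  have h2 : ∫ x, (2 * m * u x - m ^ 2) ∂unif B ≤ ∫ x, v x ^ 2 ∂unif B :=
    integral_mono (h1.sub (integrable_const _)) (intg hG B (hv.pow 2)) fun x => by
      nlinarith [h x, sq_nonneg (u x - m)]
  rw [integral_sub h1 (integrable_const _), integral_const_mul, ← hm] at h2
  simp only [integral_const, probReal_univ, smul_eq_mul, one_mul] at h2
  linarith

theorem convex_box (B : Dy) : Convex ℝ (box B) :=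
  ((convex_Icc _ _).linear_preimage Complex.reLm).inter
    ((convex_Icc _ _).linear_preimage Complex.imLm)

theorem side_or (B : Dy) (c : ℂ) {r : ℝ} (hr : 0 < r)
    (h : ¬∃ x ∈ box B, r ≤ ‖x - c‖ ∧ ‖x - c‖ ≤ 2 * r) :
    (∀ x ∈ box B, ‖x - c‖ ≤ r) ∨ ∀ x ∈ box B, 2 * r ≤ ‖x - c‖ := by
  by_contra hc
  push Not at hc
  obtain ⟨⟨x, hx, hx'⟩, y, hy, hy'⟩ := hc
  have hy2 : ‖y - c‖ ≤ r := by
    by_contra h2
    exact h ⟨y, hy, (not_le.1 h2).le, hy'.le⟩
  have hc : ContinuousOn (fun z : ℂ => ‖z - c‖) (box B) := by fun_prop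
  obtain ⟨z, hz, hz'⟩ := (convex_box B).isPreconnected.intermediate_value hy hx hc ⟨hy2, hx'.le⟩
  exact h ⟨z, hz, hz'.ge, by simp only at hz'; linarith⟩

theorem one_box (hG : St_GEO1) (𝓜 : Finset Dy) (h : ∀ B ∈ 𝓜, ∀ B' ∈ 𝓜, B <:+ B' → B = B') :
    ∀ᵐ x : ℂ, ∀ B ∈ 𝓜, ∀ B' ∈ 𝓜, x ∈ box B → x ∈ box B' → B' = B := by
  refine (Filter.eventually_all_finset 𝓜).2 fun B hB =>
    (Filter.eventually_all_finset 𝓜).2 fun B' hB' => ?_
  by_cases e : B' = B
  · exact Eventually.of_forall fun _ _ _ => e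
  · have := (hG.2.2.2.2.2.1 B B' (fun k => e (h B hB B' hB' k).symm)
      (fun k => e (h B' hB' B hB k))).2
    filter_upwards [measure_eq_zero_iff_ae_notMem.1 this] with x hx h1 h2
    exact (hx ⟨h1, h2⟩).elim

theorem sum_le (hG : St_GEO1) (𝓜 : Finset Dy) (h : ∀ B ∈ 𝓜, ∀ B' ∈ 𝓜, B <:+ B' → B = B')
    (A : Set ℂ) (hA : MeasurableSet A) (hs : ∀ B ∈ 𝓜, box B ⊆ A) (F : ℂ → ℝ) (hF : Integrable F)
    (h0 : ∀ x, 0 ≤ F x) : ∑ B ∈ 𝓜, ∫ x in box B, F x ≤ ∫ x in A, F x := by
  have hm : ∀ B, MeasurableSet (box B) := fun B => (hG.2.2.2.1 B).1.measurableSet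
  simp only [← integral_indicator (hm _), ← integral_indicator hA]
  rw [← integral_finsetSum _ fun B _ => hF.indicator (hm B)]
  refine integral_mono_ae (integrable_finsetSum _ fun B _ => hF.indicator (hm B))
    (hF.indicator hA) ?_
  filter_upwards [one_box hG 𝓜 h] with x hx
  by_cases hb : ∃ B ∈ 𝓜, x ∈ box B
  · obtain ⟨B, hB, hxB⟩ := hb
    rw [Finset.sum_eq_single_of_mem B hB fun B' hB' e =>
      indicator_of_notMem (fun k => e (hx B hB B' hB' hxB k)) _, indicator_of_mem hxB,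
      indicator_of_mem (hs B hB hxB)]
  · rw [Finset.sum_eq_zero fun B hB => indicator_of_notMem (fun k => hb ⟨B, hB, k⟩) _]
    exact indicator_nonneg (fun _ _ => h0 _) _

theorem far_ctr (hG : St_GEO1) {B : Dy} {x : ℂ} (hx : x ∉ interior (box B)) :
    side B / 4 < ‖x - ctr B‖ := by
  have hs := (hG.1 B).1
  by_contra h
  refine hx (interior_mono (hG.2.2.2.1 B).2.2.2.2 (ball_subset_interior_closedBall ?_))
  rw [mem_ball_iff_norm]
  linarith [not_lt.1 h]

theorem fd_zero {u : ℂ → ℝ} {x : ℂ} {a : ℝ} (h : ∀ᶠ y in 𝓝 x, u y = a) : fderiv ℝ u x = 0 := by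
  have : u =ᶠ[𝓝 x] fun _ => a := h
  rw [this.fderiv_eq]; simp

end SCR1

open SCR1 in
theorem blk_SCR1 (hP : St_P1) (hB : St_BMP) (hPO : St_POIN) (hFE : St_FE) (hG : St_GEO1) :
    St_SCR1 := by
  obtain ⟨hbb, E0, Cb, -, hCb, hb, -⟩ := hB
  obtain ⟨Cp, hp⟩ := hPO
  refine ⟨3 + (3 * |Cp| + 3 * Cb ^ 2 * (|Cp| / bb ^ 2)), by positivity,
    fun 𝓛 f c r hr hf hinc hcov hside hav => ?_⟩
  obtain ⟨K, hK⟩ := hf.1
  set 𝓜 := 𝓛.filter fun B => ∃ x ∈ box B, r ≤ ‖x - c‖ ∧ ‖x - c‖ ≤ 2 * r with h𝓜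
  set h : ℂ → ℝ := fun x => (1 - chi c r x) * f x with hh
  have hhC : LipC h := cut_lipC c hr hK
  have hhc : Continuous h := hhC.1.choose_spec.continuous
  set a : Dy → ℝ := fun B => (∫ x, h x ∂unif B) / bb with ha
  set ψ : ℂ → ℝ := fun x => chi c r x * f x + ∑ B ∈ 𝓜, a B * bumpF B x with hψ
  have hm : ∀ B, MeasurableSet (box B) := fun B => (hG.2.2.2.1 B).1.measurableSet
  have hinc' : ∀ B ∈ 𝓜, ∀ B' ∈ 𝓜, B <:+ B' → B = B' := fun B hB B' hB' =>
    hinc B (Finset.mem_filter.1 hB).1 B' (Finset.mem_filter.1 hB').1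
  have hs8 : ∀ B ∈ 𝓜, side B ≤ r / 8 := fun B hB =>
    hside B (Finset.mem_filter.1 hB).1 (Finset.mem_filter.1 hB).2
  have hin : ∀ B ∈ 𝓜, ∀ x ∈ box B, 3 * r / 4 < ‖x - c‖ ∧ ‖x - c‖ < 9 * r / 4 := by
    intro B hB x hx
    obtain ⟨y, hy, h1, h2⟩ := (Finset.mem_filter.1 hB).2
    have h3 := (hG.2.2.2.1 B).2.2.2.1 x hx
    have h4 := (hG.2.2.2.1 B).2.2.2.1 y hy
    have h5 := hs8 B hB
    have h6 : ‖x - y‖ ≤ ‖x - ctr B‖ + ‖y - ctr B‖ := by
      simpa using norm_sub_le (x - ctr B) (y - ctr B)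
    have h7 := abs_le.1 (abs_norm_sub_norm_le (x - c) (y - c))
    rw [sub_sub_sub_cancel_right] at h7
    constructor <;> linarith [h7.1, h7.2]
  have hb0 : ∀ B x, x ∉ box B → bumpF B x = 0 := fun B x hx =>
    (hb B).2.2.1 x (far_ctr hG fun k => hx (interior_subset k)).le
  have hbc : ∀ B, Continuous (bumpF B) := fun B => (hb B).2.2.2.1.continuous
  have hcc := (chi_lip c hr).continuous
  refine ⟨ψ, ?_, fun x hx => ?_, fun x hx => ?_, fun B hB => ?_, ?_⟩
  · have e : ψ = (f + (-1 : ℝ) • h) + ∑ B ∈ 𝓜, a B • bumpF B := by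
      funext x
      simp only [hψ, hh, Pi.add_apply, Pi.smul_apply, smul_eq_mul, Finset.sum_apply]
      ring
    rw [e]
    exact lipE_sum hP _ _ _ (hP.2.1 _ _ hf (hP.2.2.1 _ _ (hP.1 _ hhC)).1).1
      fun B _ => (hP.2.2.1 _ _ (hP.1 _ (hb B).1)).1
  · simp only [hψ]
    rw [chi_zero hr (by linarith), zero_mul, zero_add]
    refine Finset.sum_eq_zero fun B hB => ?_
    rw [hb0 B x fun k => by linarith [(hin B hB x k).1], mul_zero]
  · simp only [hψ]
    rw [chi_one hr (by linarith), one_mul, Finset.sum_eq_zero fun B hB => ?_, add_zero]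
    rw [hb0 B x fun k => by linarith [(hin B hB x k).2], mul_zero]
  · have e1 : ∫ x, chi c r x * f x ∂unif B = -∫ x, h x ∂unif B := by
      have : ∀ x, chi c r x * f x = f x - h x := fun x => by simp only [hh]; ring
      simp only [this]
      rw [integral_sub (intg hG B hK.continuous) (intg hG B hhc), hav B hB, zero_sub]
    have e2 : ∀ B' ∈ 𝓜, B' ≠ B → ∫ x, a B' * bumpF B' x ∂unif B = 0 := by
      intro B' hB' e
      have hL := (Finset.mem_filter.1 hB').1
      have hd := (hG.2.2.2.2.2.1 B' B (fun k => e (hinc B' hL B hB k))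
        (fun k => e (hinc B hB B' hL k).symm)).1
      rw [congr_unif hG B (v := fun _ => 0) fun x hx => ?_, integral_zero]
      rw [(hb B').2.2.1 x (far_ctr hG fun k => hd.ne_of_mem k hx rfl).le, mul_zero]
    have c1 : Continuous fun x => chi c r x * f x := hcc.mul hK.continuous
    have c2 : Continuous fun x => ∑ B ∈ 𝓜, a B * bumpF B x :=
      continuous_finsetSum _ fun B' _ => (hbc B').const_mul _
    simp only [hψ]
    rw [integral_add (intg hG B c1) (intg hG B c2),
      integral_finsetSum _ fun B' _ => intg hG B ((hbc B').const_mul _), e1]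
    by_cases hBM : B ∈ 𝓜
    · rw [Finset.sum_eq_single_of_mem B hBM e2, integral_const_mul, (hb B).2.2.2.2]
      simp only [ha]
      field_simp
      ring
    · rw [Finset.sum_eq_zero fun B' hB' => e2 B' hB' fun k => hBM (k ▸ hB'), add_zero,
        neg_eq_zero]
      rcases side_or B c hr (fun k => hBM (Finset.mem_filter.2 ⟨hB, k⟩)) with k | k
      · rw [congr_unif hG B (v := f) fun x hx => ?_, hav B hB]
        simp only [hh]
        rw [chi_zero hr (k x hx), sub_zero, one_mul]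
      · rw [congr_unif hG B (v := fun _ => 0) fun x hx => ?_, integral_zero]
        simp only [hh]
        rw [chi_one hr (k x hx), sub_self, zero_mul]
  · set A : Set ℂ := {x | 3 * r / 4 ≤ ‖x - c‖ ∧ ‖x - c‖ ≤ 9 * r / 4} with hA
    have hnm : Measurable fun x : ℂ => ‖x - c‖ := by fun_prop
    have hAm : MeasurableSet A :=
      (measurableSet_le measurable_const hnm).inter (measurableSet_le hnm measurable_const)
    have hsub : ∀ B ∈ 𝓜, box B ⊆ A := fun B hB x hx => ⟨(hin B hB x hx).1.le, (hin B hB x hx).2.le⟩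
    have hI : Integrable fun x => ‖gradient f x‖ ^ 2 :=
      (memLp_two_iff_integrable_sq_norm hf.2.1).1 hf.2
    set G : Dy → ℂ → ℝ := fun B x => 3 * r⁻¹ ^ 2 * f x ^ 2 + 3 * (a B * (Cb / side B)) ^ 2 with hGd
    have hGc : ∀ B, Continuous (G B) := fun B =>
      ((hK.continuous.pow 2).const_mul _).add continuous_const
    have hGi : ∀ B, IntegrableOn (G B) (box B) := fun B =>
      (hGc B).continuousOn.integrableOn_compact (hG.2.2.2.1 B).1
    have hGI : ∀ B, Integrable ((box B).indicator (G B)) := fun B =>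
      (integrable_indicator_iff (hm B)).2 (hGi B)
    have hpt : ∀ᵐ x : ℂ, ‖gradient ψ x‖ ^ 2 ≤
        3 * ‖gradient f x‖ ^ 2 + ∑ B ∈ 𝓜, (box B).indicator (G B) x := by
      have d3 : ∀ᵐ x : ℂ, ∀ B ∈ 𝓜, DifferentiableAt ℝ (bumpF B) x :=
        (Filter.eventually_all_finset 𝓜).2 fun B _ => (hb B).2.2.2.1.ae_differentiableAt
      filter_upwards [one_box hG 𝓜 hinc', hK.ae_differentiableAt,
        (chi_lip c hr).ae_differentiableAt, d3] with x hx d1 d2 d3
      have hd : HasFDerivAt ψ (chi c r x • fderiv ℝ f x + f x • fderiv ℝ (chi c r) x +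
          ∑ B ∈ 𝓜, a B • fderiv ℝ (bumpF B) x) x :=
        (d2.hasFDerivAt.mul d1.hasFDerivAt).add
          (HasFDerivAt.fun_sum fun B hB => (d3 B hB).hasFDerivAt.const_mul (a B))
      have z0 : ∀ B, x ∉ box B → fderiv ℝ (bumpF B) x = 0 := fun B k =>
        fd_zero (a := 0) (by
          filter_upwards [(hG.2.2.2.1 B).1.isClosed.isOpen_compl.mem_nhds k] with y hy
          exact hb0 B y hy)
      have n1 : ‖chi c r x • fderiv ℝ f x‖ ≤ ‖fderiv ℝ f x‖ := by
        rw [norm_smul, Real.norm_of_nonneg (chi_mem c r x).1]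
        exact mul_le_of_le_one_left (norm_nonneg _) (chi_mem c r x).2
      rw [norm_grad, norm_grad, hd.fderiv]
      by_cases hbx : ∃ B ∈ 𝓜, x ∈ box B
      · obtain ⟨B, hB, hxB⟩ := hbx
        rw [Finset.sum_eq_single_of_mem B hB fun B' hB' e => by
            rw [z0 B' fun k => e (hx B hB B' hB' hxB k), smul_zero],
          Finset.sum_eq_single_of_mem B hB fun B' hB' e =>
            indicator_of_notMem (fun k => e (hx B hB B' hB' hxB k)) _, indicator_of_mem hxB]
        have n2 : ‖f x • fderiv ℝ (chi c r) x‖ ≤ |f x| * r⁻¹ := by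
          rw [norm_smul]
          refine mul_le_mul_of_nonneg_left ?_ (norm_nonneg _)
          have := norm_fderiv_le_of_lipschitz ℝ (x₀ := x) (chi_lip c hr)
          rwa [Real.coe_toNNReal _ (inv_pos.2 hr).le] at this
        have n3 : ‖a B • fderiv ℝ (bumpF B) x‖ ≤ |a B| * (Cb / side B) := by
          rw [norm_smul]
          refine mul_le_mul_of_nonneg_left ?_ (norm_nonneg _)
          have := norm_fderiv_le_of_lipschitz ℝ (x₀ := x) (hb B).2.2.2.1
          rwa [Real.coe_toNNReal _ (div_pos hCb (hG.1 B).1).le] at this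
        have n4 := (norm_add₃_le (a := chi c r x • fderiv ℝ f x) (b := f x • fderiv ℝ (chi c r) x)
          (c := a B • fderiv ℝ (bumpF B) x)).trans (add_le_add_three n1 n2 n3)
        refine (pow_le_pow_left₀ (norm_nonneg _) n4 2).trans ?_
        have e : G B x = 3 * (|f x| * r⁻¹) ^ 2 + 3 * (|a B| * (Cb / side B)) ^ 2 := by
          simp only [hGd, mul_pow, sq_abs]; ring
        rw [e]
        nlinarith [sq_nonneg (‖fderiv ℝ f x‖ - |f x| * r⁻¹),
          sq_nonneg (‖fderiv ℝ f x‖ - |a B| * (Cb / side B)),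
          sq_nonneg (|f x| * r⁻¹ - |a B| * (Cb / side B))]
      · have z1 : fderiv ℝ (chi c r) x = 0 := by
          have cn : Continuous fun y : ℂ => ‖y - c‖ := by fun_prop
          rcases lt_or_ge ‖x - c‖ r with k | k
          · refine fd_zero (a := 0) ?_
            filter_upwards [cn.continuousAt.eventually_lt continuousAt_const k] with y hy
            exact chi_zero hr hy.le
          rcases lt_or_ge (2 * r) ‖x - c‖ with k' | k'
          · refine fd_zero (a := 1) ?_
            filter_upwards [continuousAt_const.eventually_lt cn.continuousAt k'] with y hy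
            exact chi_one hr hy.le
          obtain ⟨B, hB, hxB⟩ := hcov x k k'
          exact (hbx ⟨B, Finset.mem_filter.2 ⟨hB, x, hxB, k, k'⟩, hxB⟩).elim
        rw [Finset.sum_eq_zero fun B hB => by rw [z0 B fun k => hbx ⟨B, hB, k⟩, smul_zero],
          Finset.sum_eq_zero fun B hB => indicator_of_notMem (fun k => hbx ⟨B, hB, k⟩) _, z1,
          smul_zero, add_zero, add_zero, add_zero]
        nlinarith [pow_le_pow_left₀ (norm_nonneg _) n1 2, sq_nonneg ‖fderiv ℝ f x‖]
    have hS := sum_le hG 𝓜 hinc' A hAm hsub _ hI fun x => sq_nonneg _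
    have hone : ∀ B ∈ 𝓜, ∫ x in A, (box B).indicator (G B) x ≤
        (3 * |Cp| + 3 * Cb ^ 2 * (|Cp| / bb ^ 2)) * ∫ x in box B, ‖gradient f x‖ ^ 2 := by
      intro B hB
      have hs := (hG.1 B).1
      have hL := (Finset.mem_filter.1 hB).1
      set E := ∫ x in box B, ‖gradient f x‖ ^ 2 with hE
      have hE0 : 0 ≤ E := integral_nonneg fun x => sq_nonneg _
      have p1 := (hp B f K hK).1
      simp only [hav B hL, sub_zero] at p1
      have p2 : ∫ x in box B, f x ^ 2 ≤ |Cp| * side B ^ 2 * E :=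
        p1.trans (mul_le_mul_of_nonneg_right (mul_le_mul_of_nonneg_right (le_abs_self _)
          (sq_nonneg _)) hE0)
      have p3 := sq_avg hG hFE B hhc hK.continuous fun x => by
        simp only [hh, mul_pow]
        exact mul_le_of_le_one_left (sq_nonneg _)
          (by nlinarith [(chi_mem c r x).1, (chi_mem c r x).2])
      rw [int_unif B fun x => f x ^ 2] at p3
      have p4 : (∫ x, h x ∂unif B) ^ 2 ≤ |Cp| * E := by
        refine p3.trans ((mul_le_mul_of_nonneg_left p2 (by positivity)).trans (le_of_eq ?_))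
        field_simp
      have p5 : a B ^ 2 ≤ |Cp| / bb ^ 2 * E := by
        simp only [ha, div_pow]
        rw [div_mul_eq_mul_div]
        exact div_le_div_of_nonneg_right p4 (sq_nonneg _)
      have i1 : IntegrableOn (fun x => f x ^ 2) (box B) :=
        (hK.continuous.pow 2).continuousOn.integrableOn_compact (hG.2.2.2.1 B).1
      have hv : (volume : Measure ℂ).real (box B) = side B ^ 2 := by
        rw [Measure.real, (hG.2.2.2.1 B).2.1, ENNReal.toReal_ofReal (sq_nonneg _)]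
      rw [setIntegral_indicator (hm B), inter_eq_right.2 (hsub B hB)]
      simp only [hGd]
      rw [integral_add (i1.const_mul _) (continuous_const.continuousOn.integrableOn_compact
        (hG.2.2.2.1 B).1), integral_const_mul, setIntegral_const, hv, smul_eq_mul]
      have q1 : side B ^ 2 * (3 * (a B * (Cb / side B)) ^ 2) = 3 * Cb ^ 2 * a B ^ 2 := by
        field_simp
      have q2 : r⁻¹ ^ 2 * side B ^ 2 ≤ 1 := by
        rw [← mul_pow]
        refine pow_le_one₀ (by positivity) ?_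
        rw [inv_mul_le_iff₀ hr]
        linarith [hs8 B hB]
      have q3 := mul_le_mul_of_nonneg_left p2 (sq_nonneg r⁻¹)
      have q4 := mul_le_mul_of_nonneg_right q2 (mul_nonneg (abs_nonneg Cp) hE0)
      have q5 := mul_le_mul_of_nonneg_left p5 (sq_nonneg Cb)
      rw [q1]
      nlinarith
    have i2 : Integrable (fun x => 3 * ‖gradient f x‖ ^ 2) (volume.restrict A) :=
      (hI.const_mul 3).restrict
    have i3 : Integrable (fun x => ∑ B ∈ 𝓜, (box B).indicator (G B) x) (volume.restrict A) :=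
      integrable_finsetSum _ fun B _ => (hGI B).restrict
    refine (integral_mono_of_nonneg (Eventually.of_forall fun x => sq_nonneg _) (i2.add i3)
      (ae_restrict_of_ae hpt)).trans ?_
    simp only [Pi.add_apply]
    rw [integral_add i2 i3, integral_finsetSum _ fun B _ => (hGI B).restrict, integral_const_mul,
      add_mul]
    refine add_le_add le_rfl ((Finset.sum_le_sum hone).trans ?_)
    rw [← Finset.mul_sum]
    exact mul_le_mul_of_nonneg_left hS (by positivity)

end

end Pool.Agent.Lib.APPS
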