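import Pool.Agent.Lib.APPS.Blue1

/-!
Block SI: the surface integral does not depend on the direction and the window.
-/

namespace Pool.Agent.Lib.APPS

open MeasureTheory ProbabilityTheory Filter Topology Set Metric
open scoped NNReal ENNReal RealInnerProductSpace Classical

noncomputable section

theorem si_dv_smul (s : ℝ) (h : HH) : dv (s • h) = s • dv h := by
  unfold dv; exact map_smul _ _ _

theorem si_dv_sub (h k : HH) : dv (h - k) = dv h - dv k := by
  unfold dv; exact map_sub _ _ _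

/-- projection killing the `e`-coordinate -/
def si_pr (e : HH) (ω : Om) : Om := ω + (-(ω e) / ‖e‖ ^ 2) • dv e

theorem si_pr_meas (e : HH) : Measurable (si_pr e) :=
  meas_shift e measurable_id (((meas_ev e).neg).div_const _)

theorem si_pr_apply (e : HH) (ω : Om) (v : HH) :
    si_pr e ω v = ω v + -(ω e) / ‖e‖ ^ 2 * ⟪e, v⟫ := by
  simp [si_pr]

theorem si_pr_inv (e : HH) (he : e ≠ 0) (s : ℝ) (ω : Om) :
    si_pr e (ω + s • dv e) = si_pr e ω := by
  have hN : ‖e‖ ^ 2 ≠ 0 := pow_ne_zero _ (norm_ne_zero_iff.2 he)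
  ext v
  simp only [si_pr_apply, LinearMap.add_apply, LinearMap.smul_apply, smul_eq_mul, dv_apply,
    real_inner_self_eq_norm_sq]
  field_simp
  ring

theorem si_pr_add (e h : HH) (hh : ⟪h, e⟫ = 0) (ω : Om) :
    si_pr e (ω + dv h) = si_pr e ω + dv h := by
  ext v
  simp only [si_pr_apply, LinearMap.add_apply, dv_apply, hh]
  ring

theorem si_ind_meas {α : Type*} [MeasurableSpace α] {s : α → ℝ} (hs : Measurable s) (lo hi : ℝ) :
    Measurable fun a => ind (s a ∈ Ioc lo hi) := by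
  unfold ind
  exact Measurable.ite (hs measurableSet_Ioc) measurable_const measurable_const

/-- the integrand of `surf` -/
def si_F (e w : HH) (c lo hi : ℝ) (G : Om → ℝ≥0∞) (ω : Om) : ℝ≥0∞ :=
  G (ω - ((ω e + c) / ⟪w, e⟫) • dv w) *
    (ind ((ω e + c) / ⟪w, e⟫ ∈ Ioc lo hi) *
      ENNReal.ofReal (Real.exp ((ω e + c) / ⟪w, e⟫ * ω w - ((ω e + c) / ⟪w, e⟫) ^ 2 * ‖w‖ ^ 2 / 2)
        / ((hi - lo) * ⟪w, e⟫)))

theorem si_F_meas (e w : HH) (c lo hi : ℝ) {G : Om → ℝ≥0∞} (hG : Measurable G) :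
    Measurable (si_F e w c lo hi G) := by
  have hs : Measurable fun ω : Om => (ω e + c) / ⟪w, e⟫ :=
    ((meas_ev e).add_const c).div_const _
  refine Measurable.mul ?_ ((si_ind_meas hs lo hi).mul ?_)
  · have : Measurable fun ω : Om => ω + (-((ω e + c) / ⟪w, e⟫)) • dv w :=
      meas_shift w measurable_id hs.neg
    have h2 : (fun ω : Om => G (ω - ((ω e + c) / ⟪w, e⟫) • dv w)) =
        G ∘ fun ω : Om => ω + (-((ω e + c) / ⟪w, e⟫)) • dv w := by
      funext ω
      simp only [Function.comp]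
      congr 1
      ext v
      simp only [LinearMap.add_apply, LinearMap.sub_apply, LinearMap.smul_apply, smul_eq_mul]
      ring
    rw [h2]
    exact hG.comp this
  · refine ENNReal.measurable_ofReal.comp (Measurable.div_const ?_ _)
    refine Real.measurable_exp.comp ?_
    exact (hs.mul (meas_ev w)).sub (((hs.pow_const 2).mul_const _).div_const _)

/-- the inner integral for a fixed value `t` of the coordinate -/
theorem si_inner (h2 : St_G2) (e w : HH) (c lo hi : ℝ) {G : Om → ℝ≥0∞} (hG : Measurable G)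
    (hw : 0 < ⟪w, e⟫) (t : ℝ) :
    ∫⁻ ω, si_F e w c lo hi G (si_pr e ω + (t / ‖e‖ ^ 2) • dv e) ∂gm =
      (∫⁻ ω, G (si_pr e ω + (-c / ‖e‖ ^ 2) • dv e) ∂gm) *
        (ind ((t + c) / ⟪w, e⟫ ∈ Ioc lo hi) *
          ENNReal.ofReal (Real.exp ((t ^ 2 - c ^ 2) / (2 * ‖e‖ ^ 2)) / ((hi - lo) * ⟪w, e⟫))) := by
  have he : e ≠ 0 := by
    rintro rfl
    simp at hw
  have hN : ‖e‖ ^ 2 ≠ 0 := pow_ne_zero _ (norm_ne_zero_iff.2 he)
  set β := ⟪w, e⟫ with hβ
  have hβ0 : β ≠ 0 := hw.ne'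
  have hβ' : ⟪e, w⟫ = β := real_inner_comm _ _
  set s := (t + c) / β with hs
  set h : HH := s • (w - (β / ‖e‖ ^ 2) • e) with hh
  have hhe : ⟪h, e⟫ = 0 := by
    rw [hh, real_inner_smul_left, inner_sub_left, real_inner_smul_left,
      real_inner_self_eq_norm_sq, ← hβ]
    field_simp
    ring
  have hnh : ‖h‖ ^ 2 = s ^ 2 * (‖w‖ ^ 2 - β ^ 2 / ‖e‖ ^ 2) := by
    rw [hh, norm_smul, mul_pow, Real.norm_eq_abs, sq_abs, norm_sub_sq_real, real_inner_smul_right,
      ← hβ, norm_smul, mul_pow, Real.norm_eq_abs, sq_abs]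
    field_simp
    ring
  let f : Om → ℝ≥0∞ := fun ω => G (si_pr e ω + (-c / ‖e‖ ^ 2) • dv e + (-1 : ℝ) • dv h)
  have hf : Measurable f :=
    hG.comp (meas_shift h (meas_shift e (si_pr_meas e) measurable_const) measurable_const)
  have hcm := h2.2.1 h f hf
  have hl : ∀ ω, f (ω + dv h) = G (si_pr e ω + (-c / ‖e‖ ^ 2) • dv e) := by
    intro ω
    simp only [f]
    rw [si_pr_add e h hhe]
    congr 1
    ext v
    simp only [LinearMap.add_apply, LinearMap.smul_apply, smul_eq_mul]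
    ring
  simp only [hl] at hcm
  have hme : Measurable fun ω : Om => f ω * eE (ω h - ‖h‖ ^ 2 / 2) := by
    refine hf.mul ?_
    unfold eE
    exact ENNReal.measurable_ofReal.comp
      (Real.measurable_exp.comp ((meas_ev h).sub_const _))
  rw [hcm, ← lintegral_mul_const _ hme]
  refine lintegral_congr fun ω => ?_
  have e1 : (si_pr e ω + (t / ‖e‖ ^ 2) • dv e) e = t := by
    simp only [LinearMap.add_apply, si_pr_apply, LinearMap.smul_apply, smul_eq_mul, dv_apply,
      real_inner_self_eq_norm_sq]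
    field_simp
    ring
  have e2 : (si_pr e ω + (t / ‖e‖ ^ 2) • dv e) w =
      ω w - ω e * β / ‖e‖ ^ 2 + t * β / ‖e‖ ^ 2 := by
    simp only [LinearMap.add_apply, si_pr_apply, LinearMap.smul_apply, smul_eq_mul, dv_apply, hβ']
    field_simp
    ring
  have e3 : ω h = s * (ω w - β / ‖e‖ ^ 2 * ω e) := by
    rw [hh, map_smul, map_sub, map_smul]
    simp only [smul_eq_mul]
  have hst : s * β = t + c := by
    rw [hs]; field_simp
  have e4 : si_pr e ω + (t / ‖e‖ ^ 2) • dv e - s • dv w =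
      si_pr e ω + (-c / ‖e‖ ^ 2) • dv e + (-1 : ℝ) • dv h := by
    rw [hh, si_dv_smul, si_dv_sub, si_dv_smul]
    have : t = s * β - c := by linarith
    ext v
    simp only [LinearMap.add_apply, LinearMap.sub_apply, LinearMap.smul_apply, smul_eq_mul]
    rw [this]
    field_simp
    ring
  unfold si_F
  rw [e1, e2, ← hβ, ← hs, e4]
  simp only [f]
  rw [mul_assoc]
  congr 1
  rw [mul_left_comm]
  congr 1
  unfold eE
  rw [← ENNReal.ofReal_mul (Real.exp_pos _).le, ← mul_div_assoc, ← Real.exp_add]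
  congr 3
  rw [e3, hnh]
  have : t = s * β - c := by linarith
  have h3 : t ^ 2 - c ^ 2 = 2 * (s * β) * t - (s * β) ^ 2 := by
    rw [hst]; ring
  rw [h3]
  field_simp
  ring

theorem si_main (h1D : St_G1D) (h2 : St_G2) (e w : HH) (c lo hi : ℝ) {G : Om → ℝ≥0∞}
    (hG : Measurable G) (hw : 0 < ⟪w, e⟫) (hlo : lo < hi) :
    surf e w c lo hi G = (∫⁻ ω, G (si_pr e ω + (-c / ‖e‖ ^ 2) • dv e) ∂gm) *
      ENNReal.ofReal (pd (‖e‖ ^ 2) c) := by
  have he : e ≠ 0 := by
    rintro rfl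
    simp at hw
  have hN : ‖e‖ ^ 2 ≠ 0 := pow_ne_zero _ (norm_ne_zero_iff.2 he)
  have hF := si_F_meas e w c lo hi hG
  let f : (Unit → ℝ) × Om → ℝ≥0∞ := fun p =>
    si_F e w c lo hi G (si_pr e p.2 + (p.1 () / ‖e‖ ^ 2) • dv e)
  have hf : Measurable f :=
    hF.comp (meas_shift e ((si_pr_meas e).comp measurable_snd)
      (((measurable_pi_apply ()).comp measurable_fst).div_const _))
  have hinv : ∀ t (_ : Unit), InvD e fun ω => f (t, ω) := by
    intro t _ s ω
    simp only [f]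
    rw [si_pr_inv e he]
  have hmix := h2.2.2.2 Unit (fun _ => e) f hf hinv
  have hid : ∀ ω : Om, f (fun _ => ω e, ω) = si_F e w c lo hi G ω := by
    intro ω
    simp only [f]
    congr 1
    ext v
    simp only [LinearMap.add_apply, si_pr_apply, LinearMap.smul_apply, smul_eq_mul, dv_apply]
    ring
  simp only [hid] at hmix
  have hs : surf e w c lo hi G = ∫⁻ ω, si_F e w c lo hi G ω ∂gm := rfl
  rw [hs, hmix]
  simp only [f, si_inner h2 e w c lo hi hG hw]
  set I := ∫⁻ ω, G (si_pr e ω + (-c / ‖e‖ ^ 2) • dv e) ∂gm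
  set β := ⟪w, e⟫ with hβ
  have hm : Measurable fun t : ℝ => I * (ind ((t + c) / β ∈ Ioc lo hi) *
      ENNReal.ofReal (Real.exp ((t ^ 2 - c ^ 2) / (2 * ‖e‖ ^ 2)) / ((hi - lo) * β))) := by
    refine Measurable.const_mul (Measurable.mul ?_ ?_) _
    · exact si_ind_meas ((measurable_id.add_const c).div_const β) lo hi
    · refine ENNReal.measurable_ofReal.comp (Measurable.div_const ?_ _)
      exact Real.measurable_exp.comp (((measurable_id.pow_const 2).sub_const _).div_const _)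
  rw [h1D.2.2.2.1 e _ he hm]
  have hD : 0 < (hi - lo) * β := mul_pos (sub_pos.2 hlo) hw
  have hpd : ∀ t : ℝ, 0 ≤ pd (‖e‖ ^ 2) t := fun t =>
    mul_nonneg (inv_nonneg.2 (Real.sqrt_nonneg _)) (Real.exp_pos _).le
  have hpt : ∀ t : ℝ, ENNReal.ofReal (pd (‖e‖ ^ 2) t) * (I * (ind ((t + c) / β ∈ Ioc lo hi) *
      ENNReal.ofReal (Real.exp ((t ^ 2 - c ^ 2) / (2 * ‖e‖ ^ 2)) / ((hi - lo) * β)))) =
      (Ioc (lo * β - c) (hi * β - c)).indicator
        (fun _ => I * ENNReal.ofReal (pd (‖e‖ ^ 2) c / ((hi - lo) * β))) t := by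
    intro t
    have hiff : (t + c) / β ∈ Ioc lo hi ↔ t ∈ Ioc (lo * β - c) (hi * β - c) := by
      simp only [mem_Ioc, lt_div_iff₀ hw, div_le_iff₀ hw]
      constructor <;> rintro ⟨a, b⟩ <;> constructor <;> linarith
    by_cases ht : t ∈ Ioc (lo * β - c) (hi * β - c)
    · rw [indicator_of_mem ht, ind, if_pos (hiff.2 ht), one_mul, mul_left_comm,
        ← ENNReal.ofReal_mul (hpd t)]
      congr 2
      unfold pd
      rw [← mul_div_assoc, mul_assoc, ← Real.exp_add]
      congr 3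
      field_simp
      ring
    · rw [indicator_of_notMem ht, ind, if_neg (fun h => ht (hiff.1 h))]
      simp
  simp only [hpt]
  rw [lintegral_indicator_const measurableSet_Ioc, Real.volume_Ioc, mul_assoc,
    ← ENNReal.ofReal_mul (div_nonneg (hpd c) hD.le)]
  congr 2
  have : hi * β - c - (lo * β - c) = (hi - lo) * β := by ring
  rw [this]
  exact div_mul_cancel₀ _ hD.ne'

theorem blk_SI (_h1 : St_G1) (h1D : St_G1D) (h2 : St_G2) : St_SI := by
  intro e w w' c lo hi lo' hi' G hG hw hw' hl hl'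
  rw [si_main h1D h2 e w c lo hi hG hw hl, si_main h1D h2 e w' c lo' hi' hG hw' hl']

end

end Pool.Agent.Lib.APPS
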