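import Pool.Agent.Lib.APPS.B_STb

/-!
Block ST: structure of the typical rooted pair.
-/

namespace Pool.Agent.Lib.APPS

open MeasureTheory ProbabilityTheory Filter Topology Set Metric
open scoped NNReal ENNReal CompactlySupported BoundedContinuousFunction RealInnerProductSpace
  Classical

noncomputable section

namespace ST

theorem meas_win (M : Model) (γ u m K' : ℝ) (V : Dy) :
    MeasurableSet {ω | |M.YV γ u V ω - m| ≤ K'} :=
  measurableSet_le ((meas_YV M γ u V).sub_const m).abs measurable_const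

theorem meas_Marg (M : Model) (γ u μ0 : ℝ) (K1 : ℕ) (V : Dy) :
    MeasurableSet {ω | Marg (M.X γ u ω) K1 μ0 V} := by
  unfold Marg
  refine measurableSet_setOfPred.2 (Measurable.forall fun B => measurable_const.imp
    (measurable_const.imp (measurable_const.imp ?_)))
  exact measurableSet_setOfPred.1 (measurableSet_lt measurable_const
    ((measurable_pi_apply B).comp (meas_X M γ u)))

theorem eE_cancel (t : ℝ) : eE t * eE (-t) = 1 := by
  unfold eE
  rw [← ENNReal.ofReal_mul (Real.exp_pos _).le, ← Real.exp_add]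
  simp

theorem bF (hR : St_RW1) (hJ : St_JR) {γ : ℝ} (hγ : γ ∈ Ioo (0 : ℝ) 2) (M : Model) (i0 : ℕ)
    (hO : M.Ok i0) (u μ0 K' η : ℝ) (hη : 0 < η) :
    ∀ᶠ K1 : ℕ in atTop, ∀ (K : ℕ) (n : ℝ), 0 < n →
      ENNReal.ofReal (n ^ th γ) * ∫⁻ ω, SP (M.X γ u) K
      (fun R j ω => K + i0 + 4 ≤ j ∧ |M.YV γ u (anc (j - K - 1) R) ω - lvl γ n| ≤ K' ∧
        ¬Marg (M.X γ u ω) K1 μ0 (anc (j - K - 1) R)) ω ∂gm ≤ ENNReal.ofReal η := by
  obtain ⟨c, hc, hJ⟩ := hJ γ hγ
  obtain ⟨C, hC⟩ := hJ M i0 hO K'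
  filter_upwards [tendsto_natCast_atTop_atTop.eventually
    (small C (4 / γ * u + aa γ * (μ0 - u)) c η hc hη)] with K1 hs K n hn
  set m := lvl γ n with hm
  refine fin_bd (b := Real.exp (γ * m) *
    (C * Real.exp (4 / γ * (u - m) + aa γ * (μ0 - u) - c * K1))) (by positivity) ?_ ?_ hs
  · have hq : ∀ V : Dy, MeasurableSet {ω | |M.YV γ u V ω - m| ≤ K' ∧ ∃ B : Dy,
        K1 ≤ B.length ∧ B.length ≤ V.length ∧ ‖ctr B - ctr V‖ ≤ 6 * side B ∧
          M.X γ u ω B ≤ μ0} := by
      intro V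
      refine (meas_win M γ u m K' V).inter (measurableSet_setOfPred.2 (Measurable.exists fun B =>
        measurable_const.and (measurable_const.and (measurable_const.and ?_))))
      exact measurableSet_setOfPred.1 (measurableSet_le
        ((measurable_pi_apply B).comp (meas_X M γ u)) measurable_const)
    refine (lint_unroot (meas_X M γ u) K _ (fun V ω => i0 + 2 ≤ V.length ∧
      (|M.YV γ u V ω - m| ≤ K' ∧ ∃ B : Dy, K1 ≤ B.length ∧ B.length ≤ V.length ∧
        ‖ctr B - ctr V‖ ≤ 6 * side B ∧ M.X γ u ω B ≤ μ0))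
      (fun V => (MeasurableSet.const _).inter (hq V)) ?_).trans ?_
    · rintro R j ω hj ⟨h1, h2, h3⟩
      refine ⟨by omega, by rw [anc_len _ _ (by omega)]; omega, h2, ?_⟩
      unfold Marg at h3
      push Not at h3
      obtain ⟨B, b1, b2, b3, b4⟩ := h3
      exact ⟨B, b1.le, b2, b3, b4⟩
    · rw [ENNReal.ofReal_mul (Real.exp_pos _).le]
      refine le_trans ?_ (mul_le_mul_right (hC u m μ0 K1) _)
      rw [← ENNReal.tsum_mul_left]
      refine ENNReal.tsum_le_tsum fun V => ?_
      by_cases hV : i0 + 2 ≤ V.length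
      · rw [ind_pos hV, one_mul, ← lintegral_const_mul' _ _ ENNReal.ofReal_ne_top]
        refine lintegral_mono fun ω => ?_
        rw [ind_and, ind_pos hV, one_mul, mul_left_comm]
        refine mul_le_mul_right ?_ _
        calc posN (M.X γ u ω) V = eE (γ * m) * (eE (-γ * m) * posN (M.X γ u ω) V) := by
              rw [← mul_assoc, neg_mul, eE_cancel, one_mul]
          _ ≤ _ := mul_le_mul_right le_add_self _
      · refine le_trans (le_of_eq ?_) zero_le
        simp only [ind_and, ind_neg hV, zero_mul, lintegral_zero]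
  · rw [pow_th hR hγ hn, ← hm, aa_eq hγ]
    have : Real.exp ((4 / γ - γ) * m) * Real.exp (γ * m) *
        Real.exp (4 / γ * (u - m) + aa γ * (μ0 - u) - c * K1) =
        Real.exp (4 / γ * u + aa γ * (μ0 - u) - c * K1) := by
      rw [← Real.exp_add, ← Real.exp_add]; congr 1; ring
    rw [← this]; ring

/-- local vectors -/
def lv (M : Model) (V S : Dy) : HH := M.eS (S ++ V) - M.eC (ctr V) (4 * side V)

theorem norm_lv (hM : St_MOD) (hG : St_GEO1) (M : Model) (V S : Dy) :
    ‖lv M V S‖ ^ 2 ≤ max (2 * l2 + kS [] []) 0 + S.length * l2 := by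
  have hs := (hG.1 V).1
  have h := (hM M).2.2.2.2.2.2.2.2.2.2.2.1 (ctr V) (4 * side V) V (by positivity) (fun y hy => by
    have := (hG.2.2.2.1 V).2.2.2.1 y hy
    rw [mem_closedBall, dist_eq_norm]
    linarith) S S
  simp only [covE] at h
  rw [← real_inner_self_eq_norm_sq, lv, h, kS_diag hG, log_side]
  linarith [le_max_left (2 * l2 + kS [] []) 0]

theorem half_pow (V : Dy) (h : 2 ≤ V.length) : (1 / 2 : ℝ) ^ (V.length - 2) = 4 * side V := by
  unfold side
  obtain ⟨k, hk⟩ := Nat.exists_eq_add_of_le h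
  rw [hk, Nat.add_sub_cancel_left, pow_add]
  ring

theorem bG (hM : St_MOD) (hG : St_GEO1) (hT1 : St_T1) (hR : St_RW1) (hF : St_FM) (hTL : St_TL)
    (hGV : St_GV) {γ : ℝ} (hγ : γ ∈ Ioo (0 : ℝ) 2) (M : Model) (i0 : ℕ)
    (hO : M.Ok i0) (u K' η : ℝ) (hη : 0 < η) (K1 : ℕ) :
    ∀ᶠ K3 : ℕ in atTop, ∀ (K : ℕ) (n : ℝ), 0 < n →
      ENNReal.ofReal (n ^ th γ) * ∫⁻ ω, SP (M.X γ u) K
      (fun R j ω => K + K3 + i0 + 4 ≤ j ∧ |M.YV γ u (anc (j - K - 1) R) ω - lvl γ n| ≤ K' ∧
        ¬Loc K1 (anc (j - K - 1) R)) ω ∂gm ≤ ENNReal.ofReal η := by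
  obtain ⟨KG, hKG⟩ := (hGV γ hγ M i0 hO).1
  obtain ⟨KF, c, -, hKF⟩ := (hF γ hγ).1
  obtain ⟨B, hB⟩ := hTL.2.2.2.1
  have hQ : 0 < QQ γ := by linarith [(hR.2.2 γ hγ).2.1]
  set C := max (2 * l2 + kS [] []) 0 with hC
  set Cs := max KG 0 * (16 * 2 ^ K1) * max KF 0 * max (2 * K') 0 *
    Real.exp (γ * K' + γ ^ 2 * C / 2 + 4 / γ * (u + K')) with hCs
  have ht : Tendsto (fun k : ℕ => Cs * (1 / 2 : ℝ) ^ k) atTop (𝓝 (Cs * 0)) :=
    (tendsto_pow_atTop_nhds_zero_of_lt_one (by norm_num) (by norm_num)).const_mul Cs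
  rw [mul_zero] at ht
  filter_upwards [ht.eventually (ge_mem_nhds hη)] with K3 hs K n hn
  set m := lvl γ n with hm
  set A := max KF 0 * Real.exp (γ * (m + K') + γ ^ 2 * C / 2) with hA
  set ζ : ℝ := 16 * 2 ^ K1 * (1 / 2 : ℝ) ^ K3 with hζ
  refine fin_bd (b := max KG 0 * ζ * (A * Real.exp (4 / γ * (u - m + K')) * max (2 * K') 0))
    (by positivity) ?_ ?_ hs
  · refine (lint_unroot (meas_X M γ u) K _ (fun V ω =>
      (i0 + 2 ≤ V.length ∧ (¬Loc K1 V ∧ K3 ≤ V.length)) ∧ |M.YV γ u V ω - m| ≤ K')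
      (fun V => (MeasurableSet.const _).inter (meas_win M γ u m K' V)) ?_).trans ?_
    · rintro R j ω hj ⟨h1, h2, h3⟩
      have hl := anc_len (j - K - 1) R (by omega)
      exact ⟨by omega, ⟨by omega, h3, by omega⟩, h2⟩
    have hw : MeasurableSet {y : ℝ | |y - m| ≤ K'} :=
      measurableSet_le (measurable_id.sub_const m).abs measurable_const
    have hev : ∀ (V S : Dy), MeasurableSet {p : ℝ × Om |
        0 < drift (QQ γ) (fun S => p.2 (lv M V S)) (p.1 - 2 * QQ γ * l2) S} := fun V S =>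
      measurableSet_lt measurable_const
        ((((meas_ev (lv M V S)).comp measurable_snd).add (measurable_fst.sub_const _)).sub_const _)
    have key := hKG u ζ (fun V => ¬Loc K1 V ∧ K3 ≤ V.length)
      (fun V p => ind (|p.1 - m| ≤ K') * ∑' S : Dy,
        ind (0 < drift (QQ γ) (fun S => p.2 (lv M V S)) (p.1 - 2 * QQ γ * l2) S))
      (fun y => ind (|y - m| ≤ K') * ENNReal.ofReal A) (by positivity) ?_ ?_ ?_ ?_ ?_
    · refine le_trans (le_of_eq ?_) (key.trans ?_)
      · refine tsum_congr fun V => ?_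
        by_cases hV : i0 + 2 ≤ V.length ∧ (¬Loc K1 V ∧ K3 ≤ V.length)
        · rw [ind_pos hV, one_mul]
          refine lintegral_congr fun ω => ?_
          rw [ind_and, ind_pos hV, one_mul]
          congr 1
          refine tsum_congr fun S => ?_
          rw [(hB γ M i0 V hO hV.1).2.2.1 S u ω]
          congr 2
          simp only [drift, lv]
          ring
        · simp only [ind_and (_ ∧ _), ind_neg hV, zero_mul, lintegral_zero]
      · rw [ENNReal.ofReal_mul (p := max KG 0 * ζ) (by positivity)]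
        refine mul_le_mul' (ENNReal.ofReal_le_ofReal
          (mul_le_mul_of_nonneg_right (le_max_left _ _) (by positivity))) ?_
        calc ∫⁻ y, ind (|y - m| ≤ K') * ENNReal.ofReal A * eE (4 / γ * (u - y))
            ≤ ∫⁻ y, (Icc (m - K') (m + K')).indicator
                (fun _ => ENNReal.ofReal (A * Real.exp (4 / γ * (u - m + K')))) y := by
              refine lintegral_mono fun y => ?_
              by_cases hy : |y - m| ≤ K'
              · have hy' := abs_le.1 hy
                rw [ind_pos hy, one_mul, indicator_of_mem (show y ∈ Icc (m - K') (m + K') from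
                  ⟨by linarith [hy'.1], by linarith [hy'.2]⟩),
                  ENNReal.ofReal_mul (p := A) (by positivity)]
                refine mul_le_mul_right (ENNReal.ofReal_le_ofReal (Real.exp_le_exp.2 ?_)) _
                exact mul_le_mul_of_nonneg_left (by linarith [hy'.1]) (div_pos four_pos hγ.1).le
              · rw [ind_neg hy, zero_mul, zero_mul]; exact zero_le
          _ ≤ _ := by
              rw [lintegral_indicator_const measurableSet_Icc, Real.volume_Icc,
                ENNReal.ofReal_mul (p := A * Real.exp (4 / γ * (u - m + K'))) (by positivity)]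
              exact mul_le_mul_right (ENNReal.ofReal_le_ofReal
                (le_trans (le_of_eq (by ring)) (le_max_left _ _))) _
    · intro k
      by_cases hk : K3 ≤ k
      · refine le_trans (b := ((16 * 2 ^ (k + K1) : ℕ) : ℝ)) ?_ ?_
        · refine Nat.cast_le.2 (le_trans (Finset.card_le_card fun V hV => ?_)
            (hG.2.2.2.2.2.2.2.2.2.2.2.1 K1 k))
          simp only [Finset.mem_filter] at hV ⊢
          exact ⟨hV.1, hV.2.1⟩
        · obtain ⟨d, rfl⟩ := Nat.exists_eq_add_of_le hk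
          have h4 : (4 : ℝ) ^ (K3 + d) = 2 ^ K3 * 2 ^ d * (2 ^ K3 * 2 ^ d) := by
            rw [← pow_add, ← mul_pow]; norm_num
          have h5 : (1 / 2 : ℝ) ^ K3 * 2 ^ K3 = 1 := by rw [← mul_pow]; norm_num
          have h6 : (1 : ℝ) ≤ 2 ^ d := one_le_pow₀ (by norm_num)
          push_cast
          rw [h4, hζ, pow_add, pow_add]
          calc (16 : ℝ) * (2 ^ K3 * 2 ^ d * 2 ^ K1) = 16 * (2 ^ K3 * 2 ^ d * 2 ^ K1) * 1 * 1 := by
                ring
            _ ≤ 16 * (2 ^ K3 * 2 ^ d * 2 ^ K1) * ((1 / 2 : ℝ) ^ K3 * 2 ^ K3) * 2 ^ d := by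
                rw [h5]; gcongr
            _ = _ := by ring
      · refine le_trans (b := ((0 : ℕ) : ℝ)) (Nat.cast_le.2 (le_of_eq (Finset.card_eq_zero.2
          (Finset.eq_empty_of_forall_notMem fun V hV => hk ?_)))) (by rw [Nat.cast_zero]; positivity)
        simp only [Finset.mem_filter] at hV
        rw [← (hT1.1 k V).1 hV.1]
        exact hV.2.2
    · intro V
      exact ((meas_ind hw).comp measurable_fst).mul
        (Measurable.ennreal_tsum fun S => meas_ind (hev V S))
    · exact (meas_ind hw).mul_const _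
    · intro V y hV s ω
      have h0 : ∀ S, (ω + s • dv (M.eC (ctr V) (4 * side V))) (lv M V S) = ω (lv M V S) := by
        intro S
        have h1 := (hB γ M i0 V hO hV).2.2.2.2 S (V.length - 2) (by omega)
        rw [half_pow V (by omega)] at h1
        rw [LinearMap.add_apply, LinearMap.smul_apply, dv_apply, real_inner_comm, lv, h1]
        simp
      simp only [h0]
    · intro V y hV _
      have hev' : ∀ S : Dy, MeasurableSet {ω : Om |
          0 < drift (QQ γ) (fun S => ω (lv M V S)) (y - 2 * QQ γ * l2) S} := fun S =>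
        measurable_prodMk_left (hev V S)
      simp only []
      by_cases hy : |y - m| ≤ K'
      · simp only [ind_pos hy, one_mul]
        rw [lintegral_tsum fun S => (meas_ind (hev' S)).aemeasurable]
        simp only [fun S => lint_ind (hev' S)]
        refine ((hKF C (le_max_right _ _) (lv M V) (norm_lv hM hG M V) _).1).trans
          (ENNReal.ofReal_le_ofReal ?_)
        refine mul_le_mul (le_max_left _ _) (Real.exp_le_exp.2 ?_) (Real.exp_pos _).le
          (le_max_right _ _)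
        have h1 := (abs_le.1 hy).2
        have h2 : 0 < QQ γ * l2 := mul_pos hQ l2_pos
        have h3 : y - 2 * QQ γ * l2 ≤ m + K' := by linarith
        linarith [mul_le_mul_of_nonneg_left h3 hγ.1.le]
      · simp only [ind_neg hy, zero_mul, lintegral_zero, le_refl]
  · rw [pow_th hR hγ hn, ← hm, aa_eq hγ, hCs, hA, hζ]
    have : Real.exp ((4 / γ - γ) * m) * Real.exp (γ * (m + K') + γ ^ 2 * C / 2) *
        Real.exp (4 / γ * (u - m + K')) =
        Real.exp (γ * K' + γ ^ 2 * C / 2 + 4 / γ * (u + K')) := by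
      rw [← Real.exp_add, ← Real.exp_add]; congr 1; ring
    rw [← this]; ring

theorem pair (c : ℝ≥0∞) (hc : c ≤ 1) (H Rg pC pA pB pD pE pF pG : Prop)
    (h : H → ¬Rg → pC ∨ pA ∨ pB ∨ pD ∨ pE ∨ pF ∨ pG) :
    c * ind (¬Rg) ≤ c * ind (¬H) +
      (ind pC + (ind pA + (ind pB + (ind pD + (ind pE + (ind pF + ind pG)))))) := by
  by_cases hH : H
  · by_cases hRg : Rg
    · rw [ind_neg (not_not.2 hRg), mul_zero]; exact zero_le
    · refine le_trans ?_ le_add_self
      rw [ind_pos hRg, mul_one]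
      refine hc.trans (le_trans (le_of_eq (ind_pos (h hH hRg)).symm) ?_)
      refine (ind_or _ _).trans (add_le_add_right ?_ _)
      refine (ind_or _ _).trans (add_le_add_right ?_ _)
      refine (ind_or _ _).trans (add_le_add_right ?_ _)
      refine (ind_or _ _).trans (add_le_add_right ?_ _)
      refine (ind_or _ _).trans (add_le_add_right ?_ _)
      exact ind_or _ _
  · refine le_trans ?_ le_self_add
    rw [ind_pos hH]
    exact mul_le_mul_right (ind_le_one _) _

end ST

open Pool.Agent.Lib.APPS.ST in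
theorem blk_ST (_hG1 : St_G1) (_hG1D : St_G1D) (_hG2 : St_G2) (_hG3 : St_G3) (_hM0 : St_M0)
    (hM : St_MOD) (hG : St_GEO1) (hT1 : St_T1) (hT3 : St_T3) (hR : St_RW1) (hF : St_FM)
    (hTL : St_TL) (hGV : St_GV) (hJ : St_JR) (h4 : St_ST4) (h2 : St_ST2) (h3 : St_ST3) :
    St_ST := by
  intro γ hγ M hb u μ0 ρ δ η hu hρ hδ hη
  obtain ⟨i0, hi0⟩ := (hM M).2.2.2.2.2.2.2.2.2.2.2.2.2.2.1 hb
  have hO := hi0 i0 le_rfl
  have h8 : 0 < η / 8 := by positivity
  obtain ⟨t0, ht0⟩ := h2 γ hγ M i0 hO u ρ (η / 8) hu hρ h8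
  obtain ⟨K0, hK0⟩ := h3 γ hγ M i0 hO u δ (η / 8) t0 hu hδ h8
  refine ⟨K0, fun K hK => ?_⟩
  obtain ⟨K'0, hK'0⟩ := eventually_atTop.1 ((bD hR h4 hγ M i0 hO u t0 _ h8).and
    (bE hR h4 hγ M i0 hO u t0 _ h8 K))
  refine ⟨K'0, fun K' hK' => ?_⟩
  obtain ⟨hD, hE⟩ := hK'0 K' hK'
  obtain ⟨K10, hK10⟩ := eventually_atTop.1 (bF hR hJ hγ M i0 hO u μ0 K' _ h8)
  refine ⟨K10, fun K1 hK1 => ?_⟩
  have hFF := hK10 K1 hK1
  obtain ⟨K3, hGG⟩ := (bG hM hG hT1 hR hF hTL hGV hγ M i0 hO u K' _ h8 K1).exists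
  filter_upwards [eventually_gt_atTop 0, ht0 K, hK0 K hK,
    bA hR h4 hγ M i0 hO u t0 _ h8 K (K + K3 + i0 + 4),
    bB hM hG hF hγ M hb i0 u t0 δ _ hδ h8 K] with n hn e0 eC eA eB
  have eD := hD K n hn
  have eE' := hE n hn
  have eF := hFF K n hn
  have eG := hGG K n hn
  have hX := meas_X M γ u
  have hH := meas_High M γ u i0 (lvl γ n - t0)
  have mC : Measurable (SP (M.X γ u) K fun R j ω => M.High γ u i0 (lvl γ n - t0) R j ω ∧
      δ * n < outN (M.X γ u ω) R j K) :=
    meas_SP' hT3 hX K (fun T R j ω => M.High γ u i0 (lvl γ n - t0) R j ω ∧ δ * n <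
      ((T.filter fun A => ¬((1 / 2 : ℝ) ^ (j + K) ≤ ‖ctr A - ctr R‖ ∧
        ‖ctr A - ctr R‖ ≤ 2 ^ K * (1 / 2 : ℝ) ^ j)).card : ℝ))
      fun T R j => (hH R j).inter (MeasurableSet.const _)
  have mA := meas_SP hT3 hX K (fun R j ω => M.High γ u i0 (lvl γ n - t0) R j ω ∧
    j ≤ K + K3 + i0 + 4) fun R j => (hH R j).inter (MeasurableSet.const _)
  have mB := meas_SP hT3 hX K (fun R j ω => M.High γ u i0 (lvl γ n - t0) R j ω ∧
    δ * n < j) fun R j => (hH R j).inter (MeasurableSet.const _)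
  have mD := meas_SP hT3 hX K (fun R j ω => M.High γ u i0 (lvl γ n - t0) R j ω ∧
    K + i0 + 4 ≤ j ∧ lvl γ n + K' < M.YV γ u (anc (j - K - 1) R) ω) fun R j =>
      (hH R j).inter ((MeasurableSet.const _).inter
        (measurableSet_lt measurable_const (meas_YV M γ u _)))
  have mE := meas_SP hT3 hX K (fun R j ω => M.High γ u i0 (lvl γ n - t0) R j ω ∧
    K + i0 + 4 ≤ j ∧ M.YV γ u (anc (j - K - 1) R) ω < lvl γ n - K') fun R j =>
      (hH R j).inter ((MeasurableSet.const _).inter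
        (measurableSet_lt (meas_YV M γ u _) measurable_const))
  have mF := meas_SP hT3 hX K (fun R j ω => K + i0 + 4 ≤ j ∧
    |M.YV γ u (anc (j - K - 1) R) ω - lvl γ n| ≤ K' ∧
      ¬Marg (M.X γ u ω) K1 μ0 (anc (j - K - 1) R)) fun R j =>
      (MeasurableSet.const _).inter ((meas_win M γ u _ K' _).inter
        (meas_Marg M γ u μ0 K1 _).compl)
  have mG := meas_SP hT3 hX K (fun R j ω => K + K3 + i0 + 4 ≤ j ∧
    |M.YV γ u (anc (j - K - 1) R) ω - lvl γ n| ≤ K' ∧ ¬Loc K1 (anc (j - K - 1) R)) fun R j =>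
      (MeasurableSet.const _).inter ((meas_win M γ u _ K' _).inter (MeasurableSet.const _))
  have hsum := add_le_add e0 (add_le_add eC (add_le_add eA (add_le_add eB (add_le_add eD
    (add_le_add eE' (add_le_add eF eG))))))
  refine le_trans ?_ (hsum.trans (le_of_eq ?_))
  · simp only [← mul_add]
    refine mul_le_mul_right ?_ _
    rw [← lintegral_add_right _ mG, ← lintegral_add_left mE, ← lintegral_add_left mD,
      ← lintegral_add_left mB, ← lintegral_add_left mA]
    refine le_trans ?_ (add_le_add_right (le_of_eq (lintegral_add_left mC _)) _)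
    refine le_trans ?_ (le_of_eq (lintegral_add_right _ (mC.fun_add (mA.fun_add (mB.fun_add
      (mD.fun_add (mE.fun_add (mF.fun_add mG))))))))
    refine lintegral_mono fun ω => ?_
    refine le_trans ?_ (add_le_add_right (mul_le_of_le_one_left' (ind_le_one
      (ENNReal.ofReal (ρ * n) ≤ nB (M.X γ u ω)))) _)
    rw [← mul_add]
    refine mul_le_mul_right ?_ _
    simp only [SP, ← Finset.sum_add_distrib]
    refine Finset.sum_le_sum fun R _ => Finset.sum_le_sum fun j hj => ?_
    rw [Finset.mem_range] at hj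
    refine pair _ (ENNReal.ofReal_le_one.2 (min_le_left _ _)) _ _ _ _ _ _ _ _ _ fun hHi hRg => ?_
    by_cases c1 : δ * n < outN (M.X γ u ω) R j K
    · exact Or.inl ⟨hHi, c1⟩
    by_cases c2 : j ≤ K + K3 + i0 + 4
    · exact Or.inr (Or.inl ⟨hHi, c2⟩)
    by_cases c3 : δ * n < j
    · exact Or.inr (Or.inr (Or.inl ⟨hHi, c3⟩))
    by_cases c4 : lvl γ n + K' < M.YV γ u (anc (j - K - 1) R) ω
    · exact Or.inr (Or.inr (Or.inr (Or.inl ⟨hHi, by omega, c4⟩)))
    by_cases c5 : M.YV γ u (anc (j - K - 1) R) ω < lvl γ n - K'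
    · exact Or.inr (Or.inr (Or.inr (Or.inr (Or.inl ⟨hHi, by omega, c5⟩))))
    have hw : |M.YV γ u (anc (j - K - 1) R) ω - lvl γ n| ≤ K' :=
      abs_le.2 ⟨by linarith [not_lt.1 c5], by linarith [not_lt.1 c4]⟩
    by_cases c6 : Marg (M.X γ u ω) K1 μ0 (anc (j - K - 1) R)
    · refine Or.inr (Or.inr (Or.inr (Or.inr (Or.inr (Or.inr ⟨by omega, hw, fun c7 => hRg ?_⟩)))))
      exact ⟨by omega, by omega, not_lt.1 c3, not_lt.1 c1, hw, c6, c7⟩
    · exact Or.inr (Or.inr (Or.inr (Or.inr (Or.inr (Or.inl ⟨by omega, hw, c6⟩)))))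
  · have h0 := h8.le
    rw [← ENNReal.ofReal_add h0 h0, ← ENNReal.ofReal_add h0 (by positivity),
      ← ENNReal.ofReal_add h0 (by positivity), ← ENNReal.ofReal_add h0 (by positivity),
      ← ENNReal.ofReal_add h0 (by positivity), ← ENNReal.ofReal_add h0 (by positivity),
      ← ENNReal.ofReal_add h0 (by positivity)]
    congr 1
    ring

end

end Pool.Agent.Lib.APPS
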