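import Pool.Agent.Lib.APPS.B_ST2a

/-! Block ST2: scales at which the radial walk is low carry few squares. -/

namespace Pool.Agent.Lib.APPS

open MeasureTheory ProbabilityTheory Filter Topology Set Metric
open scoped NNReal ENNReal Classical

noncomputable section

namespace ST2

lemma lint_ind {p : Om → Prop} (h : MeasurableSet {ω | p ω}) :
    ∫⁻ ω, ind (p ω) ∂gm = gm {ω | p ω} := by
  rw [← lintegral_indicator_one h]
  refine lintegral_congr fun ω => ?_
  by_cases hp : p ω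
  · rw [ind_pos hp, indicator_of_mem (show ω ∈ {ω | p ω} from hp), Pi.one_apply]
  · rw [ind_neg hp, indicator_of_notMem (show ω ∉ {ω | p ω} from hp)]

lemma short_ne (N : ℕ) : ∑' R : Dy, ind (R.length < N) ≠ ∞ := by
  rw [tsum_eq_sum (s := (List.finite_length_lt (Fin 2 × Fin 2) N).toFinset)
    fun R hR => ind_neg (by simpa using hR)]
  exact ENNReal.sum_ne_top.2 fun R _ => ((ind_le_one _).trans_lt ENNReal.one_lt_top).ne

lemma vanish (θ s C B η : ℝ) (hs : 0 < s) (hB : 0 < B) (hη : 0 < η) :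
    ∀ᶠ n : ℝ in atTop, n ^ θ * (C * (B / n) ^ (θ + s)) ≤ η := by
  have h := (tendsto_rpow_neg_atTop hs).const_mul (C * B ^ (θ + s))
  rw [mul_zero] at h
  filter_upwards [h.eventually (gt_mem_nhds hη), eventually_gt_atTop 0] with n h1 hn
  refine le_trans (le_of_eq ?_) h1.le
  rw [Real.div_rpow hB.le hn.le, Real.rpow_add hn, Real.rpow_neg hn.le]
  have := (Real.rpow_pos_of_pos hn θ).ne'
  have := (Real.rpow_pos_of_pos hn s).ne'
  field_simp

lemma mul_le {a c b η : ℝ} {y : ℝ≥0∞} (ha : 0 ≤ a) (hc : 0 ≤ c) (hy : y ≤ ENNReal.ofReal b)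
    (h : a * (c * b) ≤ η) : ENNReal.ofReal a * (ENNReal.ofReal c * y) ≤ ENNReal.ofReal η := by
  refine (mul_le_mul_right (mul_le_mul_right hy _) _).trans ?_
  rw [← ENNReal.ofReal_mul hc, ← ENNReal.ofReal_mul ha]
  exact ENNReal.ofReal_le_ofReal h

lemma int_le (hT1 : St_T1) (hG : St_GEO2) (hT3 : St_T3) (M : Model) (γ u : ℝ) (i0 : ℕ)
    (t ρ : ℝ) {ε n q : ℝ} (hε : 0 < ε) (hn : 0 < n) (hq : 1 < q) (K : ℕ) :
    ∫⁻ ω, ind (ENNReal.ofReal (ρ * n) ≤ nB (M.X γ u ω)) * ∑ R ∈ tr (M.X γ u ω),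
      ∑ j ∈ Finset.range (R.length + K + 2), ENNReal.ofReal (min 1 (cnt (M.X γ u ω) R j / n)) *
        ind (¬M.High γ u i0 t R j ω) ∂gm ≤
    (∑' R : Dy, ind (R.length < i0 + 4)) * (i0 + K + 6) *
      gm {ω | ENNReal.ofReal (ρ * n) ≤ nB (M.X γ u ω)} +
    ENNReal.ofReal ((3 * i0 + 15) * ε) *
      ∑' R : Dy, gm {ω | 0 < M.X γ u ω R ∧ ENNReal.ofReal (ρ * n) ≤ nB (M.X γ u ω)} +
    (i0 + 3) * ∑' R : Dy, ind (i0 + 4 ≤ R.length) * ∫⁻ ω, ind (0 < M.X γ u ω R) *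
      ind (ENNReal.ofReal (ε * n) ≤ fblk (M.X γ u ω) R i0) ∂gm +
    ENNReal.ofReal (3 * (ε / (ε * n) ^ q)) * ∑' R : Dy, ind (i0 + 4 ≤ R.length) *
      ∫⁻ ω, ind (0 < M.X γ u ω R) * M.low γ u i0 t R ω ^ q ∂gm +
    (K + 2) * ∑' R : Dy, ((R.length : ℝ≥0∞) + 1) *
      gm {ω | 0 < M.X γ u ω R ∧ ENNReal.ofReal (ε * n) ≤ NN (M.X γ u ω) R} := by
  obtain ⟨mB, -, -, -, -, -, -, -, -, mA, mX, mI, -⟩ := hT3
  obtain ⟨hX, hY⟩ := mX M γ u
  have m0 : ∀ R, MeasurableSet {ω | 0 < M.X γ u ω R} := fun R =>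
    measurableSet_lt measurable_const ((measurable_pi_apply R).comp hX)
  have m1 : MeasurableSet {ω | ENNReal.ofReal (ρ * n) ≤ nB (M.X γ u ω)} :=
    measurableSet_le measurable_const (mB.comp hX)
  have m2 : ∀ R, MeasurableSet {ω | 0 < M.X γ u ω R ∧ ENNReal.ofReal (ρ * n) ≤ nB (M.X γ u ω)} :=
    fun R => (m0 R).inter m1
  have m3 : ∀ R, Measurable fun ω => ind (0 < M.X γ u ω R) *
      ind (ENNReal.ofReal (ε * n) ≤ fblk (M.X γ u ω) R i0) := fun R =>
    (mI _ _ (m0 R)).1.mul (mI _ _ (measurableSet_le measurable_const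
      (Finset.measurable_sum _ fun l _ => ((mA R).2.2 l).comp hX))).1
  have m4 : ∀ R, Measurable fun ω => ind (0 < M.X γ u ω R) * M.low γ u i0 t R ω ^ q := fun R =>
    (mI _ _ (m0 R)).1.mul ((Finset.measurable_sum _ fun l _ =>
      (mI _ _ (measurableSet_le (hY _ _) measurable_const)).1.mul
        (((mA R).2.2 l).comp hX)).pow_const q)
  have m5 : ∀ R, MeasurableSet
      {ω | 0 < M.X γ u ω R ∧ ENNReal.ofReal (ε * n) ≤ NN (M.X γ u ω) R} := fun R =>
    (m0 R).inter (measurableSet_le measurable_const (((mA R).2.1.comp hX).add_const _))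
  have n1 := (mI _ _ m1).1
  have n2 := fun R => (mI _ _ (m2 R)).1
  have n5 := fun R => (mI _ _ (m5 R)).1
  refine le_trans (lintegral_mono (g := fun ω => ∑' R : Dy,
    (ind (R.length < i0 + 4) * (i0 + K + 6) * ind (ENNReal.ofReal (ρ * n) ≤ nB (M.X γ u ω)) +
    ENNReal.ofReal ((3 * i0 + 15) * ε) *
      ind (0 < M.X γ u ω R ∧ ENNReal.ofReal (ρ * n) ≤ nB (M.X γ u ω)) +
    (i0 + 3) * (ind (i0 + 4 ≤ R.length) * (ind (0 < M.X γ u ω R) *
      ind (ENNReal.ofReal (ε * n) ≤ fblk (M.X γ u ω) R i0))) +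
    ENNReal.ofReal (3 * (ε / (ε * n) ^ q)) * (ind (i0 + 4 ≤ R.length) *
      (ind (0 < M.X γ u ω R) * M.low γ u i0 t R ω ^ q)) +
    (K + 2) * (((R.length : ℝ≥0∞) + 1) *
      ind (0 < M.X γ u ω R ∧ ENNReal.ofReal (ε * n) ≤ NN (M.X γ u ω) R)))) fun ω => ?_) ?_
  · by_cases hE : ENNReal.ofReal (ρ * n) ≤ nB (M.X γ u ω)
    swap
    · simp only [ind_neg hE, zero_mul, zero_le]
    simp only
    rw [ind_pos hE, one_mul]
    refine le_trans (Finset.sum_le_sum fun R hR => ?_) (ENNReal.sum_le_tsum _)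
    have hR0 : 0 < M.X γ u ω R := by
      by_cases h : nB (M.X γ u ω) = ∞
      · rw [hT1.2.2.2.2.2.2.2.2.2.2.2.2.2.1 _ h] at hR
        simp at hR
      · exact (hT1.2.2.2.2.2.2.2.2.2.2.2.2.1 _ h R).1 hR R (List.suffix_refl R)
    by_cases c : R.length < i0 + 4
    · rw [ind_pos c, one_mul, mul_one]
      refine le_add_right (le_add_right (le_add_right (le_add_right
        ((Finset.sum_le_card_nsmul _ _ 1 fun j _ => ?_).trans ?_))))
      · exact mul_le_one' (ENNReal.ofReal_le_one.2 (min_le_left _ _)) (ind_le_one _)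
      · rw [Finset.card_range, nsmul_one]
        exact_mod_cast (by omega : R.length + K + 2 ≤ i0 + K + 6)
    · refine (root_le M γ u i0 t R ω hT1 hG hε hn hq K).trans (le_of_eq ?_)
      simp only [ind_neg c, ind_pos (not_lt.1 c), hR0, hE, true_and, ind_pos trivial, zero_mul,
        one_mul, mul_one, zero_add]
  · refine le_of_eq ((lintegral_tsum fun R => (((((n1.const_mul _).fun_add
      ((n2 R).const_mul _)).fun_add (((m3 R).const_mul _).const_mul _)).fun_add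
      (((m4 R).const_mul _).const_mul _)).fun_add
      (((n5 R).const_mul _).const_mul _)).aemeasurable).trans ?_)
    rw [← ENNReal.tsum_mul_right, ← ENNReal.tsum_mul_right, ← ENNReal.tsum_mul_left,
      ← ENNReal.tsum_mul_left, ← ENNReal.tsum_mul_left, ← ENNReal.tsum_mul_left,
      ← ENNReal.tsum_add, ← ENNReal.tsum_add, ← ENNReal.tsum_add, ← ENNReal.tsum_add]
    refine tsum_congr fun R => ?_
    rw [lintegral_add_right _ (((n5 R).const_mul _).const_mul _),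
      lintegral_add_right _ (((m4 R).const_mul _).const_mul _),
      lintegral_add_right _ (((m3 R).const_mul _).const_mul _),
      lintegral_add_right _ ((n2 R).const_mul _), lintegral_const_mul _ n1,
      lintegral_const_mul _ (n2 R), lintegral_const_mul _ ((m3 R).const_mul _),
      lintegral_const_mul _ (m3 R), lintegral_const_mul _ ((m4 R).const_mul _),
      lintegral_const_mul _ (m4 R), lintegral_const_mul _ ((n5 R).const_mul _),
      lintegral_const_mul _ (n5 R), lint_ind m1, lint_ind (m2 R), lint_ind (m5 R)]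

end ST2

open ST2 in
theorem blk_ST2 (_hG1 : St_G1) (_hM0 : St_M0) (hMOD : St_MOD) (hGEO1 : St_GEO1)
    (hGEO2 : St_GEO2) (hT1 : St_T1) (hT3 : St_T3) (hRW1 : St_RW1) (hTL : St_TL) (hRUL : St_RUL)
    (hRUF : St_RUF) (hRUG : St_RUG) (hRUS : St_RUS) : St_ST2 := by
  intro γ hγ M i0 hM u ρ η hu hρ hη
  have hγ0 := hγ.1
  have hθa := (hRW1.2.2 γ hγ).2.2.2.1
  have hbox : box [] ⊆ M.O := fun z hz => hM.1 z hz (mem_closedBall_self (by positivity))
  have hGram : Gram M.eS (covE M.C0) := by simpa using (hMOD M).2.2.2.2.2.2.1 [] hbox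
  obtain ⟨K1, hK1⟩ := (hRUS γ hγ).1 0 0 M.C0 le_rfl hγ0
  have h1 := hK1 M.eS ctr (fun _ _ => 0) hGram
    ⟨fun R => (hGEO1.2.2.2.1 R).2.2.1, fun R A => by simp⟩ u
  have hadd : ∀ x : Dy → ℝ, addF x (fun _ => 0) = x := fun x => funext fun A => add_zero _
  simp only [XV_eS, hadd, add_zero] at h1
  obtain ⟨K5, hK5⟩ := (hRUS γ hγ).2 M.C0
  have h5 := hK5 M.eS hGram u
  simp only [XV_eS] at h5
  obtain ⟨q, r0, hθq, hq, hr0, hL⟩ := hRUL γ hγ
  obtain ⟨r1, s, hr1, hs, hF⟩ := hRUF γ hγ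
  obtain ⟨K2, hK2⟩ := hL γ hγ0 M.C0
  obtain ⟨K3, hK3⟩ := hF γ hγ0 M.C0 i0
  obtain ⟨v, hv, hΓ⟩ := hTL.2.2.2.2 γ hγ γ (max r0 r1) 0 le_rfl (le_max_of_le_left hr0)
  obtain ⟨Γ, hΓ1, hΓ2⟩ := hΓ M i0 hM
  have hRS : ∀ E, M.RS γ u i0 Γ E = ∑' R : Dy, ind (i0 + 4 ≤ R.length) *
      ∫⁻ ω, ind (0 < M.X γ u ω R) * E R ω ∂gm := by
    intro E
    refine tsum_congr fun R => ?_
    by_cases c : i0 + 4 ≤ R.length
    · simp only [hΓ2 R u _ (by omega), add_zero]
    · simp only [ind_neg c, zero_mul]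
  set e := Real.exp (γ * u) with he
  have he0 : 0 < e := Real.exp_pos _
  set A1 := (3 * i0 + 15) * (K1 * e * (e / ρ) ^ th γ) with hA1
  obtain ⟨ε, hε, hε1⟩ : ∃ ε > 0, ε * A1 ≤ η / 5 := by
    refine ⟨η / 5 / (|A1| + 1), by positivity, ?_⟩
    rw [div_mul_eq_mul_div, div_le_iff₀ (by positivity)]
    exact mul_le_mul_of_nonneg_left (by linarith [le_abs_self A1]) (by positivity)
  obtain ⟨K0, hK0⟩ : ∃ K0 : ℝ, 3 * (ε / ε ^ q) * (K2 * v * Real.exp (γ * u + 2 * aa γ * u)) *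
      Real.exp (-(γ * (q - th γ) * K0)) ≤ η / 5 := by
    have h := (Real.tendsto_exp_neg_atTop_nhds_zero.comp (tendsto_id.const_mul_atTop
      (mul_pos hγ0 (sub_pos.2 hθq)))).const_mul
      (3 * (ε / ε ^ q) * (K2 * v * Real.exp (γ * u + 2 * aa γ * u)))
    rw [mul_zero] at h
    obtain ⟨K0, h⟩ := (h.eventually (gt_mem_nhds (by positivity : 0 < η / 5))).exists
    exact ⟨K0, h.le⟩
  refine ⟨K0, fun K => ?_⟩
  set Cs := (∑' R : Dy, ind (R.length < i0 + 4)) * (i0 + K + 6) with hCs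
  have hCs' : Cs ≠ ∞ := ENNReal.mul_ne_top (short_ne _) (by finiteness)
  filter_upwards [eventually_gt_atTop 0, (tendsto_id.const_mul_atTop hρ).eventually_ge_atTop 1,
    vanish (th γ) 1 (Cs.toReal * K5) (e / ρ) (η / 5) one_pos (by positivity) (by positivity),
    vanish (th γ) s ((i0 + 3) * (K3 * v * e)) (e / ε) (η / 5) hs (by positivity) (by positivity),
    (hRUG γ hγ).2 M hbox u ε (η / 5 / (K + 2)) hε (by positivity)] with n hn hρn v1 v3 v5
  have hnθ : 0 < n ^ th γ := Real.rpow_pos_of_pos hn _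
  refine (mul_le_mul_right (int_le hT1 hGEO2 hT3 M γ u i0 _ ρ hε hn hq K) _).trans ?_
  rw [← hRS, ← hRS, ← hCs]
  simp only [mul_add (ENNReal.ofReal (n ^ th γ))]
  have e5 : ENNReal.ofReal η = ENNReal.ofReal (η / 5) + ENNReal.ofReal (η / 5) +
      ENNReal.ofReal (η / 5) + ENNReal.ofReal (η / 5) + ENNReal.ofReal (η / 5) := by
    rw [← ENNReal.ofReal_add, ← ENNReal.ofReal_add, ← ENNReal.ofReal_add, ← ENNReal.ofReal_add]
    · congr 1; ring
    all_goals positivity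
  rw [e5]
  refine add_le_add (add_le_add (add_le_add (add_le_add ?_ ?_) ?_) ?_) ?_
  · rw [← ENNReal.ofReal_toReal hCs']
    refine mul_le hnθ.le ENNReal.toReal_nonneg (h5 (ρ * n) hρn) ?_
    rwa [← mul_assoc Cs.toReal, ← div_div]
  · refine mul_le hnθ.le (by positivity) (h1 (ρ * n) hu hρn) (le_trans (le_of_eq ?_) hε1)
    rw [← div_div, Real.div_rpow (by positivity) hn.le, hA1]
    field_simp
  · rw [show ((i0 : ℝ≥0∞) + 3) = ENNReal.ofReal (i0 + 3) by
      exact_mod_cast (ENNReal.ofReal_natCast (i0 + 3)).symm]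
    refine mul_le hnθ.le (by positivity) (hK3 M v u (ε * n) _ Γ hM le_rfl (le_max_right _ _) hv
      hΓ1 (by positivity)).2.2 ?_
    rwa [← mul_assoc ((i0 : ℝ) + 3), ← div_div]
  · refine mul_le hnθ.le (by positivity) (hK2 M i0 v u _ _ Γ hM le_rfl (le_max_left _ _) hv hΓ1)
      (le_trans (le_of_eq ?_) hK0)
    have e1 : Real.exp (γ * u + γ * q * (lvl γ n - K0) - 2 * aa γ * (lvl γ n - K0 - u)) =
        Real.exp (γ * u + 2 * aa γ * u) * Real.exp (-(γ * (q - th γ) * K0)) *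
          (n ^ q / n ^ th γ) := by
      rw [Real.rpow_def_of_pos hn, Real.rpow_def_of_pos hn, ← Real.exp_sub, ← Real.exp_add,
        ← Real.exp_add, ← hθa, lvl]
      congr 1
      field_simp
      ring
    have := (Real.rpow_pos_of_pos hn q).ne'
    have := (Real.rpow_pos_of_pos hε q).ne'
    rw [e1, Real.mul_rpow hε.le hn.le]
    field_simp
  · rw [mul_left_comm]
    refine (mul_le_mul_right v5 _).trans (le_of_eq ?_)
    rw [show ((K : ℝ≥0∞) + 2) = ENNReal.ofReal (K + 2) by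
      exact_mod_cast (ENNReal.ofReal_natCast (K + 2)).symm, ← ENNReal.ofReal_mul (by positivity)]
    congr 1
    field_simp

end

end Pool.Agent.Lib.APPS
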