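import Pool.Agent.Lib.APPS.B_ST3a

/-!
Block ST3: high radii with much mass outside the window.
-/

namespace Pool.Agent.Lib.APPS

open MeasureTheory ProbabilityTheory Filter Topology Set Metric
open scoped NNReal ENNReal RealInnerProductSpace Classical

noncomputable section

namespace ST3

def SS (i0 : ℕ) (g : Dy → Om → ℝ≥0∞) : ℝ≥0∞ :=
  ∑' R : Dy, ind (i0 + 4 ≤ R.length) * ∫⁻ ω, g R ω ∂gm

theorem SS_add (i0 : ℕ) (g g' : Dy → Om → ℝ≥0∞) (hg : ∀ R, Measurable (g R)) :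
    SS i0 (fun R ω => g R ω + g' R ω) = SS i0 g + SS i0 g' := by
  simp only [SS]
  rw [← ENNReal.tsum_add]
  refine tsum_congr fun R => ?_
  rw [lintegral_add_left (hg R), mul_add]

theorem SS_mul (i0 : ℕ) (c : ℝ) (g : Dy → Om → ℝ≥0∞) :
    SS i0 (fun R ω => ENNReal.ofReal c * g R ω) = ENNReal.ofReal c * SS i0 g := by
  simp only [SS]
  rw [← ENNReal.tsum_mul_left]
  refine tsum_congr fun R => ?_
  rw [lintegral_const_mul' _ _ ENNReal.ofReal_ne_top, mul_left_comm]

theorem SS_congr (i0 : ℕ) (g g' : Dy → Om → ℝ≥0∞)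
    (h : ∀ R : Dy, i0 + 4 ≤ R.length → ∀ ω, g R ω = g' R ω) : SS i0 g = SS i0 g' := by
  refine tsum_congr fun R => ?_
  by_cases c : i0 + 4 ≤ R.length
  · simp only [h R c]
  · simp [ind_neg c]

theorem meas_ind {p : Om → Prop} (h : MeasurableSet {ω | p ω}) : Measurable fun ω => ind (p ω) :=
  Measurable.ite h measurable_const measurable_const

theorem lint_ind {p : Om → Prop} (h : MeasurableSet {ω | p ω}) :
    ∫⁻ ω, ind (p ω) ∂gm = gm {ω | p ω} := by
  rw [← lintegral_indicator_one h]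
  refine lintegral_congr fun ω => ?_
  by_cases c : p ω
  · rw [ind_pos c, indicator_of_mem (show ω ∈ {ω | p ω} from c)]; rfl
  · rw [ind_neg c, indicator_of_notMem (show ω ∉ {ω | p ω} from c)]

theorem le_SS (i0 : ℕ) (x : Om → Dy → ℝ) (F g : Dy → Om → ℝ≥0∞) (hg : ∀ R, Measurable (g R))
    (h : ∀ ω, ∀ R ∈ tr (x ω), F R ω ≤ ind (i0 + 4 ≤ R.length) * g R ω) :
    ∫⁻ ω, ∑ R ∈ tr (x ω), F R ω ∂gm ≤ SS i0 g := by
  calc ∫⁻ ω, ∑ R ∈ tr (x ω), F R ω ∂gm
      ≤ ∫⁻ ω, ∑' R : Dy, ind (i0 + 4 ≤ R.length) * g R ω ∂gm :=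
        lintegral_mono fun ω => (Finset.sum_le_sum (h ω)).trans (ENNReal.sum_le_tsum _)
    _ = SS i0 g := by
        rw [lintegral_tsum fun R => ((hg R).const_mul _).aemeasurable]
        refine tsum_congr fun R => ?_
        rw [lintegral_const_mul _ (hg R)]

theorem small (C c η : ℝ) (hc : 0 < c) (hη : 0 < η) :
    ∀ᶠ s : ℝ in atTop, C * Real.exp (-c * s) ≤ η := by
  have h1 : Tendsto (fun s : ℝ => -c * s) atTop atBot :=
    tendsto_id.const_mul_atTop_of_neg (by linarith)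
  have h2 := (Real.tendsto_exp_atBot.comp h1).const_mul C
  rw [mul_zero] at h2
  exact h2.eventually (ge_mem_nhds hη)

theorem fin_le {a b c η : ℝ} {S : ℝ≥0∞} (ha : 0 ≤ a) (hb : 0 ≤ b) (hS : S ≤ ENNReal.ofReal c)
    (h : a * (b * c) ≤ η) : ENNReal.ofReal a * (ENNReal.ofReal b * S) ≤ ENNReal.ofReal η := by
  refine (mul_le_mul_right (mul_le_mul_right hS _) _).trans ?_
  rw [← ENNReal.ofReal_mul hb, ← ENNReal.ofReal_mul ha]
  exact ENNReal.ofReal_le_ofReal h

end ST3

open ST3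

theorem blk_ST3 (_h1 : St_G1) (_hM0 : St_M0) (_hM : St_MOD) (hG : St_GEO1) (hG2 : St_GEO2)
    (_hT1 : St_T1) (hT3 : St_T3) (hR : St_RW1) (hTL : St_TL) (hRUL : St_RUL) (hRUF : St_RUF)
    (hRUG : St_RUG) (h4 : St_ST4) : St_ST3 := by
  intro γ hγ M i0 hOk u δ η K0 hu hδ hη
  obtain ⟨ha, -, hθ, hγθ, -⟩ := hR.2.2 γ hγ
  have hγ0 : 0 < γ := hγ.1
  have hbox : box [] ⊆ M.O := fun z hz => hOk.1 z hz (mem_closedBall_self (by positivity))
  obtain ⟨c, hc, K4, hK4⟩ := (h4 γ hγ M i0 hOk).2.2.2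
  obtain ⟨q, r1, hθq, hq1, hr1, hL⟩ := hRUL γ hγ
  obtain ⟨KL, hL⟩ := hL γ hγ0 M.C0
  obtain ⟨r2, ε', hr2, hε', hF⟩ := hRUF γ hγ
  obtain ⟨KF, hF⟩ := hF γ hγ0 M.C0 i0
  obtain ⟨v, hv, hΓ⟩ := hTL.2.2.2.2 γ hγ γ (max r1 r2) 0 le_rfl (le_max_of_le_left hr1)
  obtain ⟨Γ, hΓ, hΓe⟩ := hΓ M i0 hOk
  set δ' := δ / 3 with hδ'
  have hδ0 : 0 < δ' := by positivity
  have hη5 : 0 < η / 5 := by positivity
  -- choice of `ε`
  set A4 := |K4| * Real.exp (γ * u + 2 * aa γ * u + 2 * aa γ * K0) with hA4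
  have hA40 : 0 ≤ A4 := by positivity
  set ε := η / 5 / (6 * (A4 + 1)) with hε
  have hε0 : 0 < ε := by positivity
  have hεA : 6 * ε * A4 ≤ η / 5 := by
    have : 6 * ε * (A4 + 1) = η / 5 := by rw [hε]; field_simp
    nlinarith
  -- choice of `K0'`
  have hcq : 0 < γ * q - 2 * aa γ := by rw [← hγθ]; nlinarith
  obtain ⟨K0', hK0a, hK0b⟩ := ((small (3 / ε * δ' ^ (-q) *
    (KL * v * Real.exp (γ * u + 2 * aa γ * u))) _ _ hcq hη5).and (eventually_ge_atTop K0)).exists
  -- choice of `D`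
  obtain ⟨D, hD⟩ := ((tendsto_natCast_atTop_atTop (R := ℝ)).eventually
    (small (6 * (K4 * Real.exp (γ * u + 2 * aa γ * u + 2 * aa γ * K0'))) c _ hc hη5)).exists
  refine ⟨D + 1, fun K hK => ?_⟩
  have ev1 := (hRUG γ hγ).2 M hbox u δ' (η / 5 / (3 / ε)) hδ0 (by positivity)
  have ev2 := Real.tendsto_log_atTop.eventually (small (3 / ε * (KF * v * Real.exp (γ * u) *
    (Real.exp (γ * u) / δ') ^ (th γ + ε'))) ε' _ hε' hη5)
  filter_upwards [ev1, ev2, eventually_gt_atTop 0] with n e1 e2 hn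
  set m := lvl γ n with hm
  have hlog : Real.log n = γ * m := by rw [hm, lvl]; field_simp
  have hpow : ∀ s : ℝ, n ^ s = Real.exp (γ * m * s) := fun s => by
    rw [Real.rpow_def_of_pos hn, hlog]
  have hnθ : n ^ th γ = Real.exp (2 * aa γ * m) := by
    rw [hpow, ← hγθ]; congr 1; ring
  have hn0 : 0 ≤ n ^ th γ := by positivity
  -- measurability
  obtain ⟨hmX, hmY⟩ := hT3.2.2.2.2.2.2.2.2.2.2.1 M γ u
  have hmN := hT3.2.2.2.2.2.2.2.2.2.1
  have mX : ∀ R, MeasurableSet {ω | 0 < M.X γ u ω R} := fun R =>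
    measurableSet_lt measurable_const ((measurable_pi_apply R).comp hmX)
  have mr : ∀ R h, Measurable (M.rad γ u R h) := fun R h => hmY _ _
  have mNN : ∀ R, Measurable fun ω => NN (M.X γ u ω) R := fun R =>
    ((hmN R).2.1.comp hmX).add_const _
  have mF : ∀ R, Measurable fun ω => fblk (M.X γ u ω) R i0 := fun R =>
    Finset.measurable_sum _ fun l _ => ((hmN R).2.2 l).comp hmX
  have mL : ∀ t R, Measurable (M.low γ u i0 t R) := fun t R =>
    Finset.measurable_sum _ fun l _ =>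
      (meas_ind (measurableSet_le (mr R _) measurable_const)).mul (((hmN R).2.2 l).comp hmX)
  have mP : ∀ (R : Dy) (D h h' : ℕ) (t : ℝ), MeasurableSet {ω | 0 < M.X γ u ω R ∧ h + D ≤ h' ∧
      t < M.rad γ u R h ω ∧ t < M.rad γ u R h' ω} := fun R D h h' t =>
    (mX R).inter ((MeasurableSet.const _).inter
      ((measurableSet_lt measurable_const (mr R h)).inter
        (measurableSet_lt measurable_const (mr R h'))))
  have m1 : ∀ R, MeasurableSet {ω | 0 < M.X γ u ω R ∧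
      ENNReal.ofReal (δ' * n) ≤ NN (M.X γ u ω) R} := fun R =>
    (mX R).inter (measurableSet_le measurable_const (mNN R))
  let g1 : Dy → Om → ℝ≥0∞ := fun R ω =>
    ind (0 < M.X γ u ω R ∧ ENNReal.ofReal (δ' * n) ≤ NN (M.X γ u ω) R)
  let g2 : Dy → Om → ℝ≥0∞ := fun R ω =>
    ind (0 < M.X γ u ω R) * ind (ENNReal.ofReal (δ' * n) ≤ fblk (M.X γ u ω) R i0)
  let g3 : Dy → Om → ℝ≥0∞ := fun R ω =>
    ind (0 < M.X γ u ω R) * M.low γ u i0 (m - K0') R ω ^ q
  let g4 : ℕ → ℝ → Dy → Om → ℝ≥0∞ := fun D t R ω =>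
    ∑ h ∈ Finset.Icc i0 (R.length - 2), ∑ h' ∈ Finset.Icc i0 (R.length - 2),
      ind (0 < M.X γ u ω R ∧ h + D ≤ h' ∧ t < M.rad γ u R h ω ∧ t < M.rad γ u R h' ω)
  have mg1 : ∀ R, Measurable (g1 R) := fun R => meas_ind (m1 R)
  have mg2 : ∀ R, Measurable (g2 R) := fun R =>
    (meas_ind (mX R)).mul (meas_ind (measurableSet_le measurable_const (mF R)))
  have mg3 : ∀ R, Measurable (g3 R) := fun R => (meas_ind (mX R)).mul ((mL _ R).pow_const _)
  have mg4 : ∀ D t R, Measurable (g4 D t R) := fun D t R =>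
    Finset.measurable_sum _ fun h _ => Finset.measurable_sum _ fun h' _ => meas_ind (mP R D h h' t)
  -- the five bounds
  have b1 : ENNReal.ofReal (n ^ th γ) * (ENNReal.ofReal (3 / ε) * SS i0 g1) ≤
      ENNReal.ofReal (η / 5) := by
    rw [mul_left_comm]
    have : ENNReal.ofReal (n ^ th γ) * SS i0 g1 ≤ ENNReal.ofReal (η / 5 / (3 / ε)) := by
      refine le_trans (mul_le_mul_right (ENNReal.tsum_le_tsum fun R => ?_) _) e1
      rw [lint_ind (m1 R)]
      exact mul_le_mul_left ((ind_le_one _).trans le_add_self) _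
    refine (mul_le_mul_right this _).trans (le_of_eq ?_)
    rw [← ENNReal.ofReal_mul (by positivity)]
    congr 1
    field_simp
  have hRS : ∀ E : Dy → Om → ℝ≥0∞,
      SS i0 (fun R ω => ind (0 < M.X γ u ω R) * E R ω) = M.RS γ u i0 Γ E := fun E =>
    SS_congr i0 _ (fun R ω => Γ R (M.YV γ u R ω, ω) * E R ω) fun R hR ω => by
      rw [hΓe R u ω (by omega), add_zero]
  have b2 : ENNReal.ofReal (n ^ th γ) * (ENNReal.ofReal (3 / ε) * SS i0 g2) ≤
      ENNReal.ofReal (η / 5) := by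
    have := (hF M v u (δ' * n) _ Γ hOk le_rfl (le_max_right _ _) hv hΓ (by positivity)).2.2
    rw [← hRS] at this
    refine fin_le hn0 (by positivity) this (le_trans (le_of_eq ?_) e2)
    rw [← div_div, Real.div_rpow (by positivity) hn.le, hpow (th γ + ε'), hpow (th γ), hlog,
      show γ * m * (th γ + ε') = γ * m * th γ + ε' * (γ * m) by ring, Real.exp_add, neg_mul,
      Real.exp_neg]
    field_simp
  have b3 : ENNReal.ofReal (n ^ th γ) *
      (ENNReal.ofReal (3 / ε * (δ' * n) ^ (-q)) * SS i0 g3) ≤ ENNReal.ofReal (η / 5) := by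
    have := hL M i0 v u (m - K0') _ Γ hOk le_rfl (le_max_left _ _) hv hΓ
    rw [← hRS] at this
    refine fin_le hn0 (by positivity) this (le_trans (le_of_eq ?_) hK0a)
    rw [Real.mul_rpow hδ0.le hn.le, hnθ, hpow (-q)]
    have e : Real.exp (2 * aa γ * m) * Real.exp (γ * m * -q) *
        Real.exp (γ * u + γ * q * (m - K0') - 2 * aa γ * (m - K0' - u)) =
        Real.exp (γ * u + 2 * aa γ * u) * Real.exp (-(γ * q - 2 * aa γ) * K0') := by
      rw [← Real.exp_add, ← Real.exp_add, ← Real.exp_add]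
      congr 1
      ring
    linear_combination (3 / ε * δ' ^ (-q) * KL * v) * e
  have hP : ∀ D t, SS i0 (g4 D t) ≤
      ENNReal.ofReal (K4 * Real.exp (γ * u - 2 * aa γ * (t - u) - c * D)) := by
    intro D t
    refine le_trans (le_of_eq (tsum_congr fun R => ?_)) (hK4 u t D)
    congr 1
    simp only [g4]
    rw [lintegral_finsetSum _ fun h _ =>
      Finset.measurable_sum _ fun h' _ => meas_ind (mP R D h h' t)]
    refine Finset.sum_congr rfl fun h _ => ?_
    rw [lintegral_finsetSum _ fun h' _ => meas_ind (mP R D h h' t)]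
    exact Finset.sum_congr rfl fun h' _ => lint_ind (mP R D h h' t)
  have b4 : ENNReal.ofReal (n ^ th γ) * (ENNReal.ofReal (6 * ε) * SS i0 (g4 0 (m - K0))) ≤
      ENNReal.ofReal (η / 5) := by
    refine fin_le hn0 (by positivity) (hP 0 _) (le_trans ?_ hεA)
    rw [hnθ, hA4]
    have e : Real.exp (2 * aa γ * m) *
        Real.exp (γ * u - 2 * aa γ * (m - K0 - u) - c * (0 : ℕ)) =
        Real.exp (γ * u + 2 * aa γ * u + 2 * aa γ * K0) := by
      rw [← Real.exp_add]
      congr 1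
      push_cast
      ring
    rw [← e]
    have h1 := le_abs_self K4
    have h2 : 0 ≤ 6 * ε * (Real.exp (2 * aa γ * m) *
        Real.exp (γ * u - 2 * aa γ * (m - K0 - u) - c * (0 : ℕ))) := by positivity
    have := mul_le_mul_of_nonneg_right h1 h2
    linarith
  have b5 : ENNReal.ofReal (n ^ th γ) * (ENNReal.ofReal 6 * SS i0 (g4 D (m - K0'))) ≤
      ENNReal.ofReal (η / 5) := by
    refine fin_le hn0 (by positivity) (hP D _) (le_trans (le_of_eq ?_) hD)
    rw [hnθ]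
    have e : Real.exp (2 * aa γ * m) * Real.exp (γ * u - 2 * aa γ * (m - K0' - u) - c * D) =
        Real.exp (γ * u + 2 * aa γ * u + 2 * aa γ * K0') * Real.exp (-c * D) := by
      rw [← Real.exp_add, ← Real.exp_add]
      congr 1
      ring
    linear_combination (6 * K4) * e
  -- assembly
  have main := le_SS i0 (M.X γ u) (fun R ω => ∑ j ∈ Finset.range (R.length + K + 2),
      ind (M.High γ u i0 (m - K0) R j ω ∧ δ * n < outN (M.X γ u ω) R j K))
    (fun R ω => ENNReal.ofReal (3 / ε) * g1 R ω + (ENNReal.ofReal (3 / ε) * g2 R ω +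
      (ENNReal.ofReal (3 / ε * (δ' * n) ^ (-q)) * g3 R ω +
      (ENNReal.ofReal (6 * ε) * g4 0 (m - K0) R ω + ENNReal.ofReal 6 * g4 D (m - K0') R ω))))
    (fun R => ((mg1 R).const_mul _).add (((mg2 R).const_mul _).add (((mg3 R).const_mul _).add
      (((mg4 _ _ R).const_mul _).add ((mg4 _ _ R).const_mul _))))) (by
      intro ω R hR
      have hX : 0 < M.X γ u ω R := intN_of_mem hR R (List.suffix_refl R)
      have hd := det hG hG2 (M.X γ u ω) R (fun h => M.rad γ u R h ω) i0 D K (m - K0) (m - K0')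
        (δ * n) ε (by linarith) hε0 hK (Finset.range (R.length + K + 2))
      refine le_trans hd (mul_le_mul_right ?_ _)
      have hs := split3 (δ' * n) q (by positivity) (by linarith) (NN (M.X γ u ω) R)
        (fblk (M.X γ u ω) R i0) (M.low γ u i0 (m - K0') R ω)
      rw [show 3 * (δ' * n) = δ * n by rw [hδ']; ring] at hs
      refine le_trans (add_le_add (add_le_add (mul_le_mul_right hs _) le_rfl) le_rfl)
        (le_of_eq ?_)
      simp only [g1, g2, g3, g4, pp, hX, true_and, ind_pos trivial, one_mul]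
      rw [ENNReal.ofReal_mul (show 0 ≤ 3 / ε by positivity), ENNReal.ofReal_ofNat 6]
      ring)
  rw [SS_add _ _ _ fun R => (mg1 R).const_mul _, SS_add _ _ _ fun R => (mg2 R).const_mul _,
    SS_add _ _ _ fun R => (mg3 R).const_mul _, SS_add _ _ _ fun R => (mg4 _ _ R).const_mul _,
    SS_mul, SS_mul, SS_mul, SS_mul, SS_mul] at main
  refine (mul_le_mul_right main _).trans ?_
  rw [mul_add, mul_add, mul_add, mul_add]
  refine (add_le_add b1 (add_le_add b2 (add_le_add b3 (add_le_add b4 b5)))).trans (le_of_eq ?_)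
  rw [← ENNReal.ofReal_add hη5.le hη5.le, ← ENNReal.ofReal_add hη5.le (by positivity),
    ← ENNReal.ofReal_add hη5.le (by positivity), ← ENNReal.ofReal_add hη5.le (by positivity)]
  congr 1
  ring

end

end Pool.Agent.Lib.APPS
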