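import Pool.Agent.Lib.APPS.B_ST4a

/-!
Block ST4: rooted bounds for high circle averages along the ancestors of a square.
-/

namespace Pool.Agent.Lib.APPS

open MeasureTheory ProbabilityTheory Filter Topology Set Metric
open scoped NNReal ENNReal RealInnerProductSpace Classical

noncomputable section

namespace ST4

open RW2

variable {γ : ℝ} {M : Model} {i0 : ℕ} {b : ℕ → HH}

theorem partD (hT3 : St_T3) (hRW1 : St_RW1) (hRW : St_RW2) (hTLD : St_TLD)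
    (hγ : γ ∈ Ioo (0 : ℝ) 2) (hM : M.Ok i0) (hb : IsWk b (M.C0 + i0 * l2)) :
    ∃ c > 0, ∃ K : ℝ, ∀ (u t : ℝ) (D : ℕ), ∑' R : Dy, ind (i0 + 4 ≤ R.length) *
    ∑ h ∈ Finset.Icc i0 (R.length - 2), ∑ h' ∈ Finset.Icc i0 (R.length - 2),
      gm {ω | 0 < M.X γ u ω R ∧ h + D ≤ h' ∧ t < M.rad γ u R h ω ∧ t < M.rad γ u R h' ω} ≤
      ENNReal.ofReal (K * Real.exp (γ * u - 2 * aa γ * (t - u) - c * D)) := by
  have ha := (hRW1.2.2 γ hγ).1
  obtain ⟨c, hc, C, hC, C', -, hw⟩ := walk hRW ha hγ.1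
  obtain ⟨K, hK, he⟩ := engine hT3 hTLD hγ M i0 hM hb 0
  refine ⟨c, hc, (K * C * eE (2 * aa γ * (γ + aa γ) * M.C0)).toReal, fun u t D => ?_⟩
  have e1 := he u (ℕ × ℕ) Unit (fun x _ => ind (x.1 + D ≤ x.2)) (fun _ _ _ => 0)
    (fun x _ => x.1) (fun x _ => x.2) (fun _ _ => Ioi t) (fun _ _ => Ioi t) (fun _ _ => Ioi t)
    (fun _ _ => Ioi t) (fun R x => {ω | (i0 + x.1 ≤ R.length - 2 ∧ i0 + x.2 ≤ R.length - 2) ∧
      0 < M.X γ u ω R ∧ i0 + x.1 + D ≤ i0 + x.2 ∧ t < M.rad γ u R (i0 + x.1) ω ∧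
        t < M.rad γ u R (i0 + x.2) ω})
    (fun _ _ => ⟨db_zero M i0 le_rfl, fat_Ioi (by simp), fat_Ioi (by simp)⟩)
    (fun R x hR ω ⟨⟨a1, a2⟩, a3, a4, a5, a6⟩ => ⟨a3, (), by
      rw [ind_pos (by omega), map_zero, eE_zero, mul_one], by omega, by omega, a5, a6⟩)
  simp only [tsum_fintype, Finset.univ_unique, Finset.sum_singleton] at e1
  refine le_trans ?_ (e1.trans ?_)
  · refine ENNReal.tsum_le_tsum fun R => mul_le_mul' le_rfl (icc2 _ _ _ _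
      fun j j' h1 h2 => measure_mono fun ω hω => ?_)
    exact ⟨⟨h1, h2⟩, hω⟩
  refine (mul_le_mul' le_rfl ((hw b _ _ hM.2 hb).2.2.1 t D)).trans (fin hK hC (le_of_eq ?_))
  ring

theorem partC (hGEO : St_GEO1) (hT3 : St_T3) (hRW1 : St_RW1) (hRW : St_RW2) (hTL : St_TL)
    (hTLD : St_TLD) (hγ : γ ∈ Ioo (0 : ℝ) 2) (hM : M.Ok i0) (hb : IsWk b (M.C0 + i0 * l2))
    (lam u : ℝ) (J0 : ℕ) (hl : 0 ≤ lam) : ∃ K : ℝ, ∀ t : ℝ, ∑' R : Dy, ind (i0 + 4 ≤ R.length) *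
    gm {ω | 0 < M.X γ u ω R ∧ ∃ h : ℕ, i0 ≤ h ∧ h ≤ J0 ∧ h + 2 ≤ R.length ∧
      t < M.rad γ u R h ω} ≤ ENNReal.ofReal (K * Real.exp (-lam * t)) := by
  obtain ⟨ha, hQ, -⟩ := hRW1.2.2 γ hγ
  obtain ⟨c, hc, C, hC, C', -, hw⟩ := walk hRW ha hγ.1
  set N : ℝ := M.C0 + i0 * l2 + J0 * l2 with hN
  obtain ⟨K, hK, he⟩ := engine hT3 hTLD hγ M i0 hM hb (lam * N)
  have hC1 : ((J0 + 1 : ℕ) : ℝ≥0∞) * C ≠ ∞ := ENNReal.mul_ne_top (ENNReal.natCast_ne_top _) hC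
  refine ⟨(K * (((J0 + 1 : ℕ) : ℝ≥0∞) * C) * eE (γ * u + lam * u)).toReal, fun t => ?_⟩
  have hd : ∀ y : Fin (J0 + 1), DB M i0 N fun R => M.eC (ctr R) ((1 / 2 : ℝ) ^ (i0 + y)) := by
    intro y R _
    have h1 := hTL.2.1 M i0 hM _ (ctr_mem hGEO R)
    have h2 : ((y : ℕ) : ℝ) ≤ J0 := by exact_mod_cast Nat.le_of_lt_succ y.2
    have h3 := mul_le_mul_of_nonneg_right h2 l2_pos.le
    have h4 := hM.2
    have h5 : 0 ≤ (J0 : ℝ) * l2 := mul_nonneg (Nat.cast_nonneg _) l2_pos.le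
    refine ⟨?_, fun i hi _ => ?_⟩
    · refine (pow_le_pow_iff_left₀ (norm_nonneg _) (by linarith) two_ne_zero).1 ?_
      rw [norm_sq h1 y]
      nlinarith
    · obtain ⟨i, rfl⟩ := Nat.exists_eq_add_of_le hi
      have h6 : ((min (y : ℕ) i : ℕ) : ℝ) ≤ (y : ℕ) := by exact_mod_cast min_le_left _ _
      have h7 := mul_le_mul_of_nonneg_right h6 l2_pos.le
      have h8 : 0 ≤ ((min (y : ℕ) i : ℕ) : ℝ) * l2 := mul_nonneg (Nat.cast_nonneg _) l2_pos.le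
      rw [h1 y i, abs_le]
      constructor <;> linarith
  have e1 := he u Unit (Fin (J0 + 1)) (fun _ _ => eE (lam * (u - t)))
    (fun _ y R => lam • M.eC (ctr R) ((1 / 2 : ℝ) ^ (i0 + y))) (fun _ _ => 0) (fun _ _ => 0)
    (fun _ _ => univ) (fun _ _ => univ) (fun _ _ => univ) (fun _ _ => univ)
    (fun R _ => {ω | 0 < M.X γ u ω R ∧ ∃ h : ℕ, i0 ≤ h ∧ h ≤ J0 ∧ h + 2 ≤ R.length ∧
      t < M.rad γ u R h ω})
    (fun _ y => ⟨(hd y).smul lam (by rw [abs_of_nonneg hl]), fat_univ _, fat_univ _⟩)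
    (fun R _ hR ω ⟨a1, h, a2, a3, a4, a5⟩ => ⟨a1, ⟨h - i0, by omega⟩, by
      rw [← eE_add, map_smul, smul_eq_mul, ← mul_add]
      refine one_le_eE (mul_nonneg hl ?_)
      have b1 : Real.log ((1 / 2 : ℝ) ^ h) ≤ 0 :=
        Real.log_nonpos (by positivity) (pow_le_one₀ (by norm_num) (by norm_num))
      have b2 := mul_nonpos_of_nonneg_of_nonpos (show 0 ≤ QQ γ by linarith) b1
      simp only [Nat.add_sub_cancel' a2]
      unfold Model.rad Model.Y at a5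
      linarith, by omega, by omega, trivial, trivial⟩)
  simp only [tsum_fintype, Finset.univ_unique, Finset.sum_singleton, Finset.sum_const,
    Finset.card_univ, Fintype.card_fin, nsmul_eq_mul, Finset.card_singleton, Nat.cast_one,
    one_mul] at e1
  refine e1.trans (le_trans (mul_le_mul' le_rfl ?_) (fin hK hC1 (y := lam * (u - t)) (le_of_eq ?_)))
  · rw [mul_assoc _ C, mul_comm C]
    exact mul_le_mul' le_rfl (mul_le_mul' le_rfl (hw b _ _ hM.2 hb).1)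
  · ring

theorem tw_symm (j j' : ℕ) (S : Set ℝ) : tw j j' S S = tw j' j S S := by
  funext k w
  unfold tw
  congr 1
  exact propext ⟨fun h => ⟨h.2.1, h.1, h.2.2.2, h.2.2.1⟩, fun h => ⟨h.2.1, h.1, h.2.2.2, h.2.2.1⟩⟩

theorem sym_sum (g : ℕ → ℕ → ℝ≥0∞) (h : ∀ i j, g i j = g j i) :
    ∑' x : ℕ × ℕ, g x.1 x.2 ≤ 2 * ∑' x : ℕ × ℕ, ind (x.1 + 0 ≤ x.2) * g x.1 x.2 := by
  have e := (Equiv.prodComm ℕ ℕ).tsum_eq fun x : ℕ × ℕ => ind (x.1 + 0 ≤ x.2) * g x.1 x.2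
  rw [two_mul]
  nth_rewrite 2 [← e]
  rw [← ENNReal.tsum_add]
  refine ENNReal.tsum_le_tsum fun x => ?_
  rcases le_total x.1 x.2 with h1 | h1
  · rw [ind_pos (p := x.1 + 0 ≤ x.2) h1, one_mul]
    exact le_self_add
  · simp only [Equiv.prodComm_apply, Prod.fst_swap, Prod.snd_swap]
    rw [ind_pos (p := x.2 + 0 ≤ x.1) h1, one_mul, h x.2]
    exact le_add_self

theorem partA (hMOD : St_MOD) (hFE : St_FE) (hGEO : St_GEO1) (hT3 : St_T3) (hRW1 : St_RW1)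
    (hRW : St_RW2) (hTLD : St_TLD) (hγ : γ ∈ Ioo (0 : ℝ) 2) (hM : M.Ok i0)
    (hb : IsWk b (M.C0 + i0 * l2)) :
    ∃ K : ℝ, ∀ u t : ℝ, ∑' R : Dy, ind (i0 + 4 ≤ R.length) *
    ∑ l ∈ Finset.Icc (i0 + 3) R.length, ∑ l' ∈ Finset.Icc (i0 + 3) R.length,
      gm {ω | 0 < M.X γ u ω R ∧ t < M.YV γ u (anc l R) ω ∧ t < M.YV γ u (anc l' R) ω} ≤
      ENNReal.ofReal (K * Real.exp (γ * u - 2 * aa γ * (t - u))) := by
  obtain ⟨ha, hQ, -⟩ := hRW1.2.2 γ hγ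
  obtain ⟨c, hc, C, hC, C', -, hw⟩ := walk hRW ha hγ.1
  set lam : ℝ := 2 * aa γ + 1 with hlam
  have hl : 0 ≤ lam := by linarith
  obtain ⟨K, hK, he⟩ := engine hT3 hTLD hγ M i0 hM hb (lam * 4)
  set G : ℝ≥0∞ := ∑' y : ℕ × Fin 3, eE (-1 * y.1) with hG
  have hG1 : G ≠ ∞ := by
    rw [hG, ENNReal.tsum_prod']
    simp only [tsum_fintype, Finset.sum_const, Finset.card_univ, Fintype.card_fin, nsmul_eq_mul]
    rw [ENNReal.tsum_mul_left]
    exact ENNReal.mul_ne_top (ENNReal.natCast_ne_top _) (geo_fin one_pos)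
  have hC1 : G * (2 * C) ≠ ∞ := ENNReal.mul_ne_top hG1 (ENNReal.mul_ne_top (by norm_num) hC)
  refine ⟨(K * (G * (2 * C)) *
    eE (lam + 2 * aa γ * (lam * 4) + 2 * aa γ * (γ + aa γ) * M.C0)).toReal, fun u t => ?_⟩
  have hQl : 0 ≤ QQ γ * l2 := mul_nonneg (by linarith) l2_pos.le
  have e1 := he u (ℕ × ℕ) (ℕ × Fin 3) (fun _ y => eE (-lam * (y.1 - 1)))
    (fun x y => ![fun _ => 0, fun R => lam • Dv M (i0 + 3 + x.1) R,
      fun R => lam • Dv M (i0 + 3 + x.2) R] y.2)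
    (fun x _ => x.1) (fun x _ => x.2) (fun _ y => Ioi (t - y.1)) (fun _ y => Ioi (t - y.1))
    (fun _ y => Ioi (t - y.1 - lam * 4)) (fun _ y => Ioi (t - y.1 - lam * 4))
    (fun R x => {ω | (i0 + 3 + x.1 ≤ R.length ∧ i0 + 3 + x.2 ≤ R.length) ∧
      0 < M.X γ u ω R ∧ t < M.YV γ u (anc (i0 + 3 + x.1) R) ω ∧
        t < M.YV γ u (anc (i0 + 3 + x.2) R) ω})
    (fun x ⟨s, τ⟩ => ⟨by
      fin_cases τ
      · exact db_zero M i0 (by linarith)
      · exact (db_Dv hMOD hFE hGEO hM x.1).smul lam (by rw [abs_of_nonneg hl])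
      · exact (db_Dv hMOD hFE hGEO hM x.2).smul lam (by rw [abs_of_nonneg hl]),
      fat_Ioi (by simp), fat_Ioi (by simp)⟩)
    (by
      rintro R ⟨j, j'⟩ hR ω ⟨⟨a1, a2⟩, a3, a4, a5⟩
      simp only at a1 a2 a4 a5
      refine ⟨a3, ?_⟩
      have r1 : i0 + 3 + j = i0 + j + 3 := by ring
      have r2 : i0 + 3 + j' = i0 + j' + 3 := by ring
      rw [r1, yv_eq hGEO M γ u _ R (by omega), ← r1] at a4
      rw [r2, yv_eq hGEO M γ u _ R (by omega), ← r2] at a5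
      set x := ω (Dv M (i0 + 3 + j) R) with hx
      set x' := ω (Dv M (i0 + 3 + j') R) with hx'
      have b1 := Nat.le_ceil (max x x')
      have b2 := le_max_left x x'
      have b3 := le_max_right x x'
      have fin : ∀ τ : Fin 3, 1 ≤ eE (-lam * ((⌈max x x'⌉₊ : ℝ) - 1)) * eE (ω (![fun _ => 0,
          fun R => lam • Dv M (i0 + 3 + j) R, fun R => lam • Dv M (i0 + 3 + j') R] τ R)) →
          ∃ y : ℕ × Fin 3, 1 ≤ eE (-lam * ((y.1 : ℝ) - 1)) * eE (ω (![fun _ => 0,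
          fun R => lam • Dv M (i0 + 3 + j) R, fun R => lam • Dv M (i0 + 3 + j') R] y.2 R)) ∧
          j + (i0 + 2) ≤ R.length ∧ j' + (i0 + 2) ≤ R.length ∧
          M.rad γ u R (i0 + j) ω ∈ Ioi (t - y.1) ∧ M.rad γ u R (i0 + j') ω ∈ Ioi (t - y.1) :=
        fun τ h => ⟨(⌈max x x'⌉₊, τ), h, by omega, by omega, by
          simp only [mem_Ioi]; linarith, by simp only [mem_Ioi]; linarith⟩
      by_cases h0 : max x x' ≤ 0
      · refine fin 0 ?_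
        rw [← eE_add, Nat.ceil_eq_zero.2 h0]
        refine one_le_eE ?_
        simpa using hl
      · have b4 := Nat.ceil_lt_add_one (le_of_lt (not_le.1 h0))
        rcases max_cases x x' with h | h
        · refine fin 1 ?_
          rw [← eE_add]
          refine one_le_eE ?_
          have : 0 ≤ lam * (x - ((⌈max x x'⌉₊ : ℝ) - 1)) := mul_nonneg hl (by linarith [h.1])
          simp only [Matrix.cons_val_one, Matrix.cons_val_zero, map_smul, smul_eq_mul, ← hx]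
          linarith
        · refine fin 2 ?_
          rw [← eE_add]
          refine one_le_eE ?_
          have : 0 ≤ lam * (x' - ((⌈max x x'⌉₊ : ℝ) - 1)) := mul_nonneg hl (by linarith [h.1])
          simp only [Matrix.cons_val, map_smul, smul_eq_mul, ← hx']
          linarith)
  refine le_trans ?_ (e1.trans ?_)
  · refine ENNReal.tsum_le_tsum fun R => mul_le_mul' le_rfl (icc2 _ _ _ _
      fun j j' h1 h2 => measure_mono fun ω hω => ?_)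
    exact ⟨⟨h1, h2⟩, hω⟩
  set u' := u + γ * M.C0 - aa γ * i0 * l2 with hu'
  refine le_trans (mul_le_mul' le_rfl ?_) (fin hK hC1 (y := lam + -(2 * aa γ) *
    (t - lam * 4 - u' - aa γ * (M.C0 + i0 * l2))) (le_of_eq ?_))
  · rw [ENNReal.tsum_comm, hG, mul_assoc, ← ENNReal.tsum_mul_right]
    refine ENNReal.tsum_le_tsum fun y => ?_
    rw [ENNReal.tsum_mul_left]
    have h1 := (sym_sum (fun i j => W (aa γ) γ b u' i j (Ioi (t - y.1 - lam * 4))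
      (Ioi (t - y.1 - lam * 4))) fun i j => by simp only [W, tw_symm i j]).trans
      (mul_le_mul' le_rfl ((hw b _ _ hM.2 hb).2.2.1 (t - y.1 - lam * 4) 0))
    refine (mul_le_mul' le_rfl h1).trans (le_of_eq ?_)
    rw [← mul_assoc 2, mul_left_comm, ← eE_add, mul_left_comm, ← eE_add]
    congr 2
    rw [hlam]
    push_cast
    ring
  · rw [hu']
    ring

theorem partB (hMOD : St_MOD) (hFE : St_FE) (hGEO : St_GEO1) (hT3 : St_T3) (hRW1 : St_RW1)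
    (hRW : St_RW2) (hTLD : St_TLD) (hγ : γ ∈ Ioo (0 : ℝ) 2) (hM : M.Ok i0)
    (hb : IsWk b (M.C0 + i0 * l2)) :
    ∃ c > 0, ∀ D : ℕ, ∃ K : ℝ, ∀ u t K' : ℝ, ∑' R : Dy, ind (i0 + 4 ≤ R.length) *
    ∑ l ∈ Finset.Icc (i0 + 3) R.length,
      gm {ω | 0 < M.X γ u ω R ∧ M.YV γ u (anc l R) ω < t - K' ∧ ∃ h : ℕ, l ≤ h + 3 ∧ h ≤ l + D ∧
        h + 2 ≤ R.length ∧ t < M.rad γ u R h ω} ≤
      ENNReal.ofReal (K * Real.exp (γ * u - 2 * aa γ * (t - u) - c * K')) := by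
  obtain ⟨ha, hQ, -⟩ := hRW1.2.2 γ hγ
  obtain ⟨c, hc, C, hC, C', hC', hw⟩ := walk hRW ha hγ.1
  set B : ℝ := aa γ * 4 with hB
  have hB0 : 0 ≤ B := by linarith
  obtain ⟨K, hK, he⟩ := engine hT3 hTLD hγ M i0 hM hb B
  refine ⟨aa γ / 2, by linarith, fun D => ?_⟩
  have hC1 : ((Fintype.card (Fin (D + 4) × Bool) : ℕ) : ℝ≥0∞) * C ≠ ∞ :=
    ENNReal.mul_ne_top (ENNReal.natCast_ne_top _) hC
  set E : ℝ := C' * (D + 4) + aa γ * (QQ γ * l2 + 2 * B) with hE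
  refine ⟨(K * (((Fintype.card (Fin (D + 4) × Bool) : ℕ) : ℝ≥0∞) * C) *
    eE (E + 2 * aa γ * B + 2 * aa γ * (γ + aa γ) * M.C0)).toReal, fun u t K' => ?_⟩
  have hQl : 0 ≤ QQ γ * l2 := mul_nonneg (by linarith) l2_pos.le
  have e1 := he u ℕ (Fin (D + 4) × Bool) (fun _ y => cond y.2 1 (eE (-aa γ * (K' / 2))))
    (fun x y => cond y.2 (fun _ => 0) fun R => (-aa γ) • Dv M (i0 + 3 + x) R)
    (fun x _ => x) (fun x y => x + y.1) (fun _ y => cond y.2 (Iio (t - K' / 2 + QQ γ * l2)) univ)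
    (fun _ _ => Ioi t) (fun _ y => cond y.2 (Iio (t - B - (K' / 2 - QQ γ * l2 - 2 * B))) univ)
    (fun _ _ => Ioi (t - B))
    (fun R x => {ω | i0 + 3 + x ≤ R.length ∧ 0 < M.X γ u ω R ∧
      M.YV γ u (anc (i0 + 3 + x) R) ω < t - K' ∧ ∃ h : ℕ, i0 + 3 + x ≤ h + 3 ∧
        h ≤ i0 + 3 + x + D ∧ h + 2 ≤ R.length ∧ t < M.rad γ u R h ω})
    (by
      rintro x ⟨e, _ | _⟩
      · exact ⟨(db_Dv hMOD hFE hGEO hM x).smul _ (by rw [abs_neg, abs_of_pos ha]), fat_univ _,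
          fat_Ioi (by simp)⟩
      · exact ⟨db_zero M i0 hB0, fat_Iio (by linarith), fat_Ioi (by simp)⟩)
    (by
      rintro R j hR ω ⟨a1, a2, a3, h, a4, a5, a6, a7⟩
      refine ⟨a2, ?_⟩
      have r1 : i0 + 3 + j = i0 + j + 3 := by ring
      rw [r1, yv_eq hGEO M γ u _ R (by omega), ← r1] at a3
      obtain ⟨e, rfl⟩ : ∃ e, h = i0 + (j + e) := ⟨h - (i0 + j), by omega⟩
      by_cases h0 : M.rad γ u R (i0 + j) ω < t - K' / 2 + QQ γ * l2
      · exact ⟨(⟨e, by omega⟩, true), by simp [eE_zero], by omega, by simp only; omega, h0, a7⟩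
      · refine ⟨(⟨e, by omega⟩, false), ?_, by omega, by simp only; omega, trivial, a7⟩
        simp only [cond_false, map_smul, smul_eq_mul]
        rw [← eE_add, ← mul_add]
        exact one_le_eE (mul_nonneg_of_nonpos_of_nonpos (by linarith) (by linarith)))
  refine le_trans ?_ (e1.trans ?_)
  · refine ENNReal.tsum_le_tsum fun R => mul_le_mul' le_rfl (icc1 _ _ _ _
      fun j h1 => measure_mono fun ω hω => ?_)
    exact ⟨h1, hω⟩
  set u' := u + γ * M.C0 - aa γ * i0 * l2 with hu'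
  refine le_trans (mul_le_mul' le_rfl ?_) (fin hK hC1 (y := -(2 * aa γ) *
    (t - B - u' - aa γ * (M.C0 + i0 * l2)) + E - aa γ * (K' / 2)) (le_of_eq ?_))
  · rw [ENNReal.tsum_comm, tsum_fintype, mul_assoc, ← nsmul_eq_mul, ← Finset.card_univ]
    refine Finset.sum_le_card_nsmul _ _ _ ?_
    rintro ⟨e, _ | _⟩ -
    · simp only [cond_false]
      rw [ENNReal.tsum_mul_left]
      refine (mul_le_mul' le_rfl ((hw b _ _ hM.2 hb).2.1 (t - B) e)).trans ?_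
      rw [mul_left_comm, ← eE_add]
      refine mul_le_mul' le_rfl (eE_mono ?_)
      have : 0 ≤ E := by positivity
      linarith
    · simp only [cond_true, one_mul]
      refine ((hw b _ _ hM.2 hb).2.2.2 (t - B) _ e).trans (mul_le_mul' le_rfl (eE_mono ?_))
      have h1 : ((e : ℕ) : ℝ) ≤ D + 4 := by exact_mod_cast e.2.le
      have := mul_le_mul_of_nonneg_left h1 hC'
      rw [hE]
      linarith
  · rw [hu']
    ring

end ST4

theorem blk_ST4 (_hG1 : St_G1) (_hM0 : St_M0) (hMOD : St_MOD) (hFE : St_FE) (_hEXP1 : St_EXP1)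
    (hGEO : St_GEO1) (_hT1 : St_T1) (hT3 : St_T3) (hRW1 : St_RW1) (hRW : St_RW2) (hTL : St_TL)
    (hTLD : St_TLD) : St_ST4 := by
  intro γ hγ M i0 hM
  have hb := hTL.2.1 M i0 hM _ (ST4.ctr_mem hGEO [])
  exact ⟨ST4.partA hMOD hFE hGEO hT3 hRW1 hRW hTLD hγ hM hb,
    ST4.partB hMOD hFE hGEO hT3 hRW1 hRW hTLD hγ hM hb,
    ST4.partC hGEO hT3 hRW1 hRW hTL hTLD hγ hM hb, ST4.partD hT3 hRW1 hRW hTLD hγ hM hb⟩

end

end Pool.Agent.Lib.APPS
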