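import Pool.Agent.Lib.APPS.B_STRa

/-! Block STR: the macroscopic structure of large trees. -/

namespace Pool.Agent.Lib.APPS

open MeasureTheory ProbabilityTheory Filter Topology Set Metric
open scoped NNReal ENNReal Classical

noncomputable section

namespace STR

theorem mtr (h3 : St_T3) {g : Om → Dy → ℝ} (hg : Measurable g) (Φ : Finset Dy → ℝ) :
    Measurable fun a => Φ (tr (g a)) :=
  h3.2.2.2.1 Om ℝ g (fun T _ => Φ T) hg fun _ => measurable_const

theorem mle {β : Type} [TopologicalSpace β] [MeasurableSpace β] [OpensMeasurableSpace β]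
    [PartialOrder β] [OrderClosedTopology β] [SecondCountableTopology β] {f g : Om → β}
    (hf : Measurable f) (hg : Measurable g) : Measurable fun a => f a ≤ g a :=
  measurableSet_setOf.1 (measurableSet_le hf hg)

theorem mlt {f g : Om → ℝ} (hf : Measurable f) (hg : Measurable g) :
    Measurable fun a => f a < g a :=
  measurableSet_setOf.1 (measurableSet_lt hf hg)

theorem mind (h3 : St_T3) {p : Om → Prop} (h : Measurable p) : Measurable fun a => ind (p a) :=
  (h3.2.2.2.2.2.2.2.2.2.2.2.1 Om p (measurableSet_setOf.2 h)).1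

theorem mreg (h3 : St_T3) (M : Model) (γ u n δ : ℝ) (K : ℕ) (K' : ℝ) (K1 : ℕ) (μ0 : ℝ) (R : Dy)
    (j : ℕ) : Measurable fun ω => M.Reg γ u n δ K K' K1 μ0 R j ω := by
  obtain ⟨hX, hY⟩ := h3.2.2.2.2.2.2.2.2.2.2.1 M γ u
  have h1 : Measurable fun ω => outN (M.X γ u ω) R j K := by
    unfold outN
    exact mtr h3 hX fun T => ((@Finset.filter _ _ _ T).card : ℝ)
  unfold Model.Reg Marg
  refine measurable_const.and (measurable_const.and (measurable_const.and
    ((mle h1 measurable_const).and ((mle ?_ measurable_const).and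
      (Measurable.and ?_ measurable_const)))))
  · exact continuous_abs.measurable.comp ((hY _ _).sub_const _)
  · exact Measurable.forall fun B => measurable_const.imp (measurable_const.imp
      (measurable_const.imp (mlt measurable_const ((measurable_pi_apply B).comp hX))))

theorem lint_ind {p : Om → Prop} (h : Measurable p) : ∫⁻ ω, ind (p ω) ∂gm = gm {ω | p ω} := by
  rw [← lintegral_indicator_one (measurableSet_setOf.2 h)]
  refine lintegral_congr fun ω => ?_
  by_cases hp : p ω <;> simp [ind, hp, indicator]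

theorem markov {f : Om → ℝ≥0∞} (hf : Measurable f) {n c θ η : ℝ} (hn : 0 < n) (hc : 0 < c)
    (h : ENNReal.ofReal (n ^ θ) * ∫⁻ ω, f ω ∂gm ≤ ENNReal.ofReal (η / c)) :
    ENNReal.ofReal (n ^ (θ + 1)) * gm {ω | ENNReal.ofReal (n / c) ≤ f ω} ≤ ENNReal.ofReal η := by
  have e : n ^ (θ + 1) = c * (n ^ θ * (n / c)) := by
    rw [Real.rpow_add_one hn.ne']
    field_simp
  rw [e, ENNReal.ofReal_mul hc.le, ENNReal.ofReal_mul (by positivity), mul_assoc, mul_assoc]
  calc _ ≤ ENNReal.ofReal c * ENNReal.ofReal (η / c) := by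
        refine mul_le_mul_right (le_trans ?_ h) _
        exact mul_le_mul_right (mul_meas_ge_le_lintegral hf _) _
    _ = _ := by
        rw [← ENNReal.ofReal_mul hc.le]
        congr 1
        field_simp

end STR

open STR

theorem blk_STR (_hG1 : St_G1) (_hM0 : St_M0) (hMOD : St_MOD) (hG : St_GEO1) (hH : St_GEO2)
    (hT : St_T1) (h3 : St_T3) (hRW : St_RW1) (_hR : St_R) (hRUG : St_RUG) (hRUS : St_RUS)
    (hST : St_ST) (hLOC : St_LOCV) : St_STR := by
  intro γ hγ M hM F hF η hη K1m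
  have hθ : 0 < th γ := (hRW.2.2 γ hγ).2.2.1
  obtain ⟨i0, hi0⟩ := (hMOD M).2.2.2.2.2.2.2.2.2.2.2.2.2.2.1 hM
  obtain ⟨Ka, hKa⟩ := (hRUS γ hγ).2 (M.C0 + (([] : Dy).length : ℕ) * l2)
  have hgram := (hMOD M).2.2.2.2.2.2.1 [] hM
  simp only [List.append_nil] at hgram
  set L : ℝ := Real.exp (γ * 1) * (1 + 4 * |Ka| / η) with hLd
  have he : 1 ≤ Real.exp (γ * 1) := Real.one_le_exp (by linarith [hγ.1])
  have hq : 1 ≤ 1 + 4 * |Ka| / η := le_add_of_nonneg_right (by positivity)
  have hL : 1 ≤ L := one_le_mul_of_one_le_of_one_le he hq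
  obtain ⟨K, hK⟩ := hST γ hγ M hM 1 2 1 (η / 600) (η / 4 / (4 * L)) zero_le_one one_pos
    (by positivity) (by positivity)
  obtain ⟨K', hK'⟩ := hK K le_rfl
  obtain ⟨K10, hK1⟩ := hK' K' le_rfl
  obtain ⟨l, -, hl⟩ := hLOC γ hγ M i0 (hi0 i0 le_rfl) F hF η (η / 4) (K' + 1) hη (by positivity)
  refine ⟨max (max K10 K1m) i0, (le_max_right _ _).trans (le_max_left _ _), ?_⟩
  set K1 := max (max K10 K1m) i0 with hK1d
  filter_upwards [hK1 K1 ((le_max_left _ _).trans (le_max_left _ _)), hl,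
    (hRUG γ hγ).2 M hM 1 (1 / 10) (η / 4 / 2) (by norm_num) (by positivity),
    eventually_ge_atTop 1, eventually_ge_atTop (2 * mid l / η)] with n n1 n2 n3 n4 n5
  obtain ⟨Bd, b1, b2, b3⟩ := n2
  have hn : 0 < n := by linarith
  have hX := (h3.2.2.2.2.2.2.2.2.2.2.1 M γ 1).1
  have hsh : ∀ ω, sh (M.X γ 0 ω) 1 = M.X γ 1 ω := fun ω => by
    funext S
    simp only [sh, Model.X, drift]
    ring
  set f2 : Om → ℝ≥0∞ := fun ω => ∑' R : Dy,
    ind (0 < M.X γ 1 ω R ∧ ENNReal.ofReal (1 / 10 * n) ≤ NN (M.X γ 1 ω) R) with hf2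
  set f3 : Om → ℝ≥0∞ := fun ω => ind (ENNReal.ofReal (1 * n) ≤ nB (M.X γ 1 ω)) *
    ∑ R ∈ tr (M.X γ 1 ω), ∑ j ∈ Finset.range (R.length + K + 2),
      ENNReal.ofReal (min 1 (cnt (M.X γ 1 ω) R j / n)) *
        ind (¬M.Reg γ 1 n (η / 600) K K' K1 2 R j ω) with hf3
  have m2 : ∀ R : Dy, Measurable fun ω =>
      0 < M.X γ 1 ω R ∧ ENNReal.ofReal (1 / 10 * n) ≤ NN (M.X γ 1 ω) R := fun R =>
    (mlt measurable_const ((measurable_pi_apply R).comp hX)).and (mle measurable_const
      ((((h3.2.2.2.2.2.2.2.2.2.1 R).2.1).comp hX).add_const _))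
  have m3 : Measurable f3 := by
    refine (mind h3 (mle measurable_const (h3.1.comp hX))).mul ?_
    refine h3.2.2.2.1 Om ℝ≥0∞ (M.X γ 1) (fun T ω => ∑ R ∈ T,
      ∑ j ∈ Finset.range (R.length + K + 2), ENNReal.ofReal (min 1 (cnt (M.X γ 1 ω) R j / n)) *
        ind (¬M.Reg γ 1 n (η / 600) K K' K1 2 R j ω)) hX fun T => ?_
    refine Finset.measurable_sum _ fun R _ => Finset.measurable_sum _ fun j _ => ?_
    have h1 : Measurable fun ω => cnt (M.X γ 1 ω) R j := by
      unfold cnt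
      exact mtr h3 hX fun T => ((@Finset.filter _ _ _ T).card : ℝ)
    exact (measurable_const.min (h1.div_const n)).ennreal_ofReal.mul
      (mind h3 (mreg h3 M γ 1 n _ K K' K1 2 R j).not)
  have p1 : ENNReal.ofReal (n ^ (th γ + 1)) *
      gm {ω | ENNReal.ofReal (L * n) ≤ nB (M.X γ 1 ω)} ≤ ENNReal.ofReal (η / 4) := by
    refine (mul_le_mul_right (hKa M.eS hgram 1 (L * n) (by nlinarith)) _).trans ?_
    rw [← ENNReal.ofReal_mul (by positivity)]
    refine ENNReal.ofReal_le_ofReal ?_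
    have e1 : Real.exp (γ * 1) / (L * n) = (1 + 4 * |Ka| / η)⁻¹ / n := by
      rw [hLd]
      field_simp
    have h0 : 0 < (1 + 4 * |Ka| / η)⁻¹ := by positivity
    have h1 : (1 + 4 * |Ka| / η)⁻¹ ^ (th γ + 1) ≤ (1 + 4 * |Ka| / η)⁻¹ := by
      simpa using Real.rpow_le_rpow_of_exponent_ge h0 (inv_le_one_of_one_le₀ hq)
        (show (1 : ℝ) ≤ th γ + 1 by linarith)
    have h2 : 0 < n ^ (th γ + 1) := by positivity
    rw [e1, Real.div_rpow h0.le hn.le, mul_comm, mul_assoc, div_mul_cancel₀ _ h2.ne']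
    calc _ ≤ |Ka| * (1 + 4 * |Ka| / η)⁻¹ :=
          (mul_le_mul_of_nonneg_right (le_abs_self _) (by positivity)).trans
            (mul_le_mul_of_nonneg_left h1 (abs_nonneg _))
      _ ≤ η / 4 := by
          rw [← div_eq_mul_inv, div_le_iff₀ (by positivity)]
          have : η / 4 * (1 + 4 * |Ka| / η) = η / 4 + |Ka| := by field_simp
          linarith
  have p2 : ENNReal.ofReal (n ^ (th γ + 1)) * gm {ω | ENNReal.ofReal (n / 2) ≤ f2 ω} ≤
      ENNReal.ofReal (η / 4) := by
    refine markov (Measurable.ennreal_tsum fun R => mind h3 (m2 R)) hn two_pos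
      (le_trans (mul_le_mul_right ?_ _) n3)
    rw [lintegral_tsum fun R => (mind h3 (m2 R)).aemeasurable]
    refine ENNReal.tsum_le_tsum fun R => ?_
    rw [lint_ind (m2 R)]
    exact le_mul_of_one_le_left zero_le le_add_self
  have p3 : ENNReal.ofReal (n ^ (th γ + 1)) * gm {ω | ENNReal.ofReal (n / (4 * L)) ≤ f3 ω} ≤
      ENNReal.ofReal (η / 4) := markov m3 hn (by positivity) n1
  have p4 : ENNReal.ofReal (n ^ (th γ + 1)) * gm (⋃ V : Dy, {ω | i0 + 2 ≤ V.length ∧ ω ∈ Bd V}) ≤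
      ENNReal.ofReal (η / 4) := by
    refine le_trans (mul_le_mul_right ((measure_iUnion_le _).trans
      (ENNReal.tsum_le_tsum fun V => ?_)) _) b3
    by_cases hV : i0 + 2 ≤ V.length
    · rw [ind_of hV, one_mul]
      refine le_trans ?_ (lintegral_mono fun ω => le_self_add)
      rw [setLIntegral_one]
      exact measure_mono fun ω hω => hω.2
    · simp [hV]
  have hsub : {ω | ENNReal.ofReal n ≤ nB (sh (M.X γ 0 ω) 1) ∧ ¬Str γ F n η K1 (M.X γ 0 ω)} ⊆
      ({ω | ENNReal.ofReal (L * n) ≤ nB (M.X γ 1 ω)} ∪ {ω | ENNReal.ofReal (n / 2) ≤ f2 ω}) ∪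
      ({ω | ENNReal.ofReal (n / (4 * L)) ≤ f3 ω} ∪
        ⋃ V : Dy, {ω | i0 + 2 ≤ V.length ∧ ω ∈ Bd V}) := by
    rintro ω ⟨h1, h2⟩
    by_contra hc
    simp only [mem_union, mem_setOf_eq, mem_iUnion, not_or, not_le, not_exists, not_and] at hc
    obtain ⟨⟨c1, c2⟩, c3, c4⟩ := hc
    rw [hsh] at h1
    have hreg : ∃ R j, M.Reg γ 1 n (η / 600) K K' K1 2 R j ω := by
      by_contra hr
      push Not at hr
      refine c3.not_ge ((big hG hH hT K hn hL h1 c1 c2).trans (le_of_eq ?_))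
      simp only [hf3]
      rw [ind_of (by rwa [one_mul]), one_mul]
      refine Finset.sum_congr rfl fun R _ => Finset.sum_congr rfl fun j _ => ?_
      rw [ind_of (hr R j), mul_one]
    obtain ⟨R, j, r1, r2, r3, r4, r5, r6, r7⟩ := hreg
    have hlen : i0 + 2 ≤ (anc (j - K - 1) R).length := by
      have := (hG.2.2.2.2.2.2.2.2.2.2.2.2.1 K1 _ r7).1
      have := le_max_right (max K10 K1m) i0
      omega
    have hY : |M.YV γ 0 (anc (j - K - 1) R) ω - lvl γ n| ≤ K' + 1 := by
      have e : M.YV γ 0 (anc (j - K - 1) R) ω - lvl γ n =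
          M.YV γ 1 (anc (j - K - 1) R) ω - Real.log n / γ - 1 := by
        simp only [Model.YV, Model.Y, lvl]
        ring
      rw [e, abs_le]
      rw [abs_le] at r5
      constructor <;> linarith [r5.1, r5.2]
    refine h2 (str_of hG hT (by rw [hsh]; exact c1.ne_top) (by rwa [hsh]) r7
      (b2 _ ω hlen hY (c4 _ hlen)) fun Z hZ => ?_)
    rw [hsh] at hZ
    have h4 := outside hG hH hT _ R j K l r1 r2 Z hZ
    rw [div_le_iff₀ hη] at n5
    nlinarith [mul_pos hη hn]
  refine (mul_le_mul_right ((measure_mono hsub).trans ((measure_union_le _ _).trans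
    (add_le_add (measure_union_le _ _) (measure_union_le _ _)))) _).trans ?_
  rw [mul_add, mul_add, mul_add]
  refine (add_le_add (add_le_add p1 p2) (add_le_add p3 p4)).trans (le_of_eq ?_)
  rw [← ENNReal.ofReal_add (by positivity) (by positivity),
    ← ENNReal.ofReal_add (by positivity) (by positivity)]
  congr 1
  ring

end

end Pool.Agent.Lib.APPS
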