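import Pool.Agent.Lib.APPS.Blue1

namespace Pool.Agent.Lib.APPS

open MeasureTheory ProbabilityTheory Filter Topology Set Metric
open scoped NNReal ENNReal Classical

noncomputable section

namespace T3

theorem m_ind {α : Type*} [MeasurableSpace α] (p : α → Prop) (hp : MeasurableSet {a | p a}) :
    Measurable fun a => ind (p a) := by
  unfold ind
  exact Measurable.ite hp measurable_const measurable_const

theorem m_indR {α : Type*} [MeasurableSpace α] (p : α → Prop) (hp : MeasurableSet {a | p a}) :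
    Measurable fun a => indR (p a) := by
  unfold indR
  exact Measurable.ite hp measurable_const measurable_const

theorem m_pos (B : Dy) : MeasurableSet {x : Dy → ℝ | 0 < x B} :=
  measurableSet_lt measurable_const (measurable_pi_apply B)

theorem m_IntN (A : Dy) : MeasurableSet {x : Dy → ℝ | IntN x A} := by
  have : {x : Dy → ℝ | IntN x A} = ⋂ B : Dy, ⋂ _ : B <:+ A, {x | 0 < x B} := by
    ext x; simp [IntN]
  rw [this]
  exact MeasurableSet.iInter fun B => MeasurableSet.iInter fun _ => m_pos B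

theorem m_Leaf (A : Dy) : MeasurableSet {x : Dy → ℝ | Leaf x A} := by
  have : {x : Dy → ℝ | Leaf x A} = {x | x A ≤ 0} ∩
      ⋂ B : Dy, ⋂ _ : B <:+ A, ⋂ _ : B ≠ A, {x | 0 < x B} := by
    ext x; simp [Leaf]
  rw [this]
  exact (measurableSet_le (measurable_pi_apply A) measurable_const).inter
    (MeasurableSet.iInter fun B => MeasurableSet.iInter fun _ =>
      MeasurableSet.iInter fun _ => m_pos B)

theorem m_nB : Measurable nB := by
  unfold nB
  exact Measurable.ennreal_tsum fun A => m_ind _ (m_IntN A)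

theorem m_HasTr (T : Finset Dy) : MeasurableSet {x : Dy → ℝ | HasTr x T} := by
  have : {x : Dy → ℝ | HasTr x T} = (⋂ A : Dy, ⋂ _ : A ∈ T, {x | IntN x A}) ∩
      ⋂ A : Dy, ⋂ _ : A ∉ T, {x | IntN x A}ᶜ := by
    ext x
    simp only [HasTr, mem_setOf_eq, mem_inter_iff, mem_iInter, mem_compl_iff]
    constructor
    · intro h
      exact ⟨fun A hA => (h A).1 hA, fun A hA hI => hA ((h A).2 hI)⟩
    · rintro ⟨h1, h2⟩ A
      exact ⟨h1 A, fun hI => by_contra fun hA => h2 A hA hI⟩
  rw [this]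
  exact (MeasurableSet.iInter fun A => MeasurableSet.iInter fun _ => m_IntN A).inter
    (MeasurableSet.iInter fun A => MeasurableSet.iInter fun _ => (m_IntN A).compl)

theorem tr_eq_iff (x : Dy → ℝ) (T : Finset Dy) :
    tr x = T ↔ HasTr x T ∨ (T = ∅ ∧ ¬∃ T', HasTr x T') := by
  unfold tr
  split_ifs with h
  · have h0 : HasTr x h.toFinset := fun A => by simp
    constructor
    · rintro rfl; exact Or.inl h0
    · rintro (h1 | ⟨-, h1⟩)
      · ext A; rw [h0 A, h1 A]
      · exact absurd ⟨_, h0⟩ h1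
  · have h0 : ¬∃ T', HasTr x T' := by
      rintro ⟨T', hT'⟩
      apply h
      refine T'.finite_toSet.subset fun A hA => ?_
      exact (hT' A).2 hA
    constructor
    · rintro rfl; exact Or.inr ⟨rfl, h0⟩
    · rintro (h1 | ⟨h1, -⟩)
      · exact absurd ⟨_, h1⟩ h0
      · exact h1.symm

theorem m_tr (T : Finset Dy) : MeasurableSet {x : Dy → ℝ | tr x = T} := by
  have : {x : Dy → ℝ | tr x = T} = {x | HasTr x T} ∪
      ((⋂ _ : T = ∅, univ)ᶜᶜ ∩ {_x | T = ∅} ∩ (⋃ T' : Finset Dy, {x | HasTr x T'})ᶜ) := by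
    ext x
    simp only [tr_eq_iff, mem_setOf_eq, mem_union, mem_inter_iff, compl_compl, mem_iInter,
      mem_univ, implies_true, true_and, mem_compl_iff, mem_iUnion]
  rw [this]
  refine (m_HasTr T).union (MeasurableSet.inter (MeasurableSet.inter ?_ ?_) ?_)
  · exact (MeasurableSet.iInter fun _ => MeasurableSet.univ).compl.compl
  · exact MeasurableSet.const _
  · exact (MeasurableSet.iUnion fun T' => m_HasTr T').compl

theorem m_sub (A : Dy) : Measurable fun x : Dy → ℝ => sub x A :=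
  measurable_pi_lambda _ fun S => measurable_pi_apply (S ++ A)

theorem m_sh : Measurable fun p : (Dy → ℝ) × ℝ => sh p.1 p.2 :=
  measurable_pi_lambda _ fun S => ((measurable_pi_apply S).comp measurable_fst).add measurable_snd

theorem m_drift (Q : ℝ) : Measurable fun p : (Dy → ℝ) × ℝ => drift Q p.1 p.2 :=
  measurable_pi_lambda _ fun S =>
    (((measurable_pi_apply S).comp measurable_fst).add measurable_snd).sub measurable_const

theorem ex_iff (hT : St_T1) (x : Dy → ℝ) (T : Finset Dy) :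
    (∃ s ∈ Icc (-1 : ℝ) 1, HasTr (sh x s) T) ↔ HasTr (sh x 1) T ∨
      ∃ S0 : Dy, (-1 ≤ -x S0 ∧ -x S0 ≤ 1) ∧ HasTr (sh x (-x S0)) T := by
  obtain ⟨-, -, -, -, -, -, -, -, -, -, h11, h12, -⟩ := hT
  constructor
  · rintro ⟨s, hs, h⟩
    have hI : IsTr T := (h12 _ _ h).1
    obtain ⟨ha, hb⟩ := (h11 _ _ hI).1 h
    simp only [sh] at ha hb
    by_cases h1 : ∀ S ∈ lvs T, x S + 1 ≤ 0
    · left
      refine (h11 _ _ hI).2 ⟨fun A hA => ?_, fun S hS => h1 S hS⟩
      have := ha A hA
      have := hs.2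
      simp only [sh]; linarith
    · right
      push Not at h1
      obtain ⟨S1, hS1, hx1⟩ := h1
      obtain ⟨S0, hS0, hmax⟩ := (lvs T).exists_max_image x ⟨S1, hS1⟩
      have e1 := hb S0 hS0
      have e2 := hmax S1 hS1
      have e3 := hs.1
      refine ⟨S0, ⟨by linarith, by linarith⟩, (h11 _ _ hI).2 ⟨fun A hA => ?_, fun S hS => ?_⟩⟩
      · have := ha A hA
        simp only [sh]; linarith
      · have := hmax S hS
        simp only [sh]; linarith
  · rintro (h | ⟨S0, h0, h⟩)
    · exact ⟨1, ⟨by norm_num, le_rfl⟩, h⟩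
    · exact ⟨_, h0, h⟩

theorem m_ex (hT : St_T1) (T : Finset Dy) :
    MeasurableSet {x : Dy → ℝ | ∃ s ∈ Icc (-1 : ℝ) 1, HasTr (sh x s) T} := by
  have : {x : Dy → ℝ | ∃ s ∈ Icc (-1 : ℝ) 1, HasTr (sh x s) T} =
      (fun x => sh x 1) ⁻¹' {y | HasTr y T} ∪ ⋃ S0 : Dy,
        ({x | -1 ≤ -x S0} ∩ {x | -x S0 ≤ 1}) ∩ (fun x => sh x (-x S0)) ⁻¹' {y | HasTr y T} := by
    ext x
    rw [mem_setOf_eq, ex_iff hT]
    simp only [mem_union, mem_preimage, mem_setOf_eq, mem_iUnion, mem_inter_iff]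
  rw [this]
  have m1 : Measurable fun x : Dy → ℝ => sh x 1 :=
    m_sh.comp (measurable_id.prodMk measurable_const)
  refine (m1 (m_HasTr T)).union (MeasurableSet.iUnion fun S0 => ?_)
  have m2 : Measurable fun x : Dy → ℝ => -x S0 := (measurable_pi_apply S0).neg
  have m3 : Measurable fun x : Dy → ℝ => sh x (-x S0) := m_sh.comp (measurable_id.prodMk m2)
  exact ((measurableSet_le measurable_const m2).inter
    (measurableSet_le m2 measurable_const)).inter (m3 (m_HasTr T))

theorem m_piece {α β : Type*} [MeasurableSpace α] [MeasurableSpace β] (g : α → Dy → ℝ)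
    (f : Finset Dy → α → β) (hg : Measurable g) (hf : ∀ T, Measurable (f T)) :
    Measurable fun a => f (tr (g a)) a := by
  intro s hs
  have : (fun a => f (tr (g a)) a) ⁻¹' s =
      ⋃ T : Finset Dy, g ⁻¹' {x | tr x = T} ∩ f T ⁻¹' s := by
    ext a
    simp only [mem_preimage, mem_iUnion, mem_inter_iff, mem_setOf_eq]
    constructor
    · intro h; exact ⟨_, rfl, h⟩
    · rintro ⟨T, rfl, h⟩; exact h
  rw [this]
  exact MeasurableSet.iUnion fun T => (hg (m_tr T)).inter (hf T hs)

theorem m_SR (F : (Dy → ℝ) → ℝ) (R : Dy) (hF : Measurable F) :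
    Measurable fun x => SR F x R := by
  unfold SR
  exact m_piece (fun x => x) (fun T x => ∑ A ∈ T.filter fun A => R <:+ A, F (sub x A))
    measurable_id fun T => Finset.measurable_sum _ fun A _ => hF.comp (m_sub A)

theorem m_nN : Measurable nN := by
  unfold nN
  exact m_piece (fun x => x) (fun T _ => (T.card : ℝ)) measurable_id fun _ => measurable_const

theorem m_annN (R : Dy) (l : ℕ) : Measurable fun x => annN x R l := by
  unfold annN
  exact Finset.measurable_sum _ fun V _ => m_nB.comp (m_sub V)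

theorem m_far (R : Dy) : Measurable fun x => far x R := by
  unfold far
  exact Finset.measurable_sum _ fun l _ => m_annN R l

theorem m_near (R : Dy) : Measurable fun x => near x R := by
  unfold near
  exact Finset.measurable_sum _ fun V _ => m_nB.comp (m_sub V)

theorem m_X (M : Model) (γ u : ℝ) : Measurable (M.X γ u) := by
  unfold Model.X
  exact measurable_pi_lambda _ fun S =>
    ((meas_ev (M.eS S)).add measurable_const).sub measurable_const

theorem m_Y (M : Model) (γ u : ℝ) (c : ℂ) (r : ℝ) : Measurable (M.Y γ u c r) := by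
  unfold Model.Y
  exact ((meas_ev (M.eC c r)).add measurable_const).add measurable_const

theorem le_iff (Q : ℝ) (hQ : 0 < Q) (h : Dy → ℝ) (S : Dy) :
    Real.exp (h S / Q) * side S ≤ 1 ↔ drift Q h 0 S ≤ 0 := by
  have e : side S = Real.exp (-(S.length * l2)) := by
    unfold side l2
    rw [Real.exp_neg, Real.exp_nat_mul, Real.exp_log (by norm_num), one_div, inv_pow]
  rw [e, ← Real.exp_add, Real.exp_le_one_iff]
  unfold drift
  have : h S / Q + -(S.length * l2) = (h S + 0 - Q * S.length * l2) / Q := by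
    field_simp; ring
  rw [this, div_nonpos_iff]
  constructor
  · rintro (⟨-, h2⟩ | ⟨h1, -⟩)
    · exact absurd h2 (not_le.2 hQ)
    · exact h1
  · intro h1; exact Or.inr ⟨h1, hQ.le⟩

theorem part_eq (hT : St_T1) (hG : St_GEO1) (Q : ℝ) (h : Dy → ℝ) (T : Finset Dy) (hQ : 0 < Q)
    (hH : HasTr (drift Q h 0) T) : part Q h = ↑(lvs T) := by
  obtain ⟨-, -, -, -, -, -, -, -, -, -, -, h12, -⟩ := hT
  obtain ⟨-, -, -, -, g5, -⟩ := hG
  ext S
  rw [Finset.mem_coe, ← (h12 _ _ hH).2.2.2 S]
  unfold part Leaf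
  rw [mem_setOf_eq, le_iff Q hQ]
  refine and_congr Iff.rfl (forall_congr' fun B => ?_)
  have e1 : 1 < Real.exp (h B / Q) * side B ↔ 0 < drift Q h 0 B := by
    rw [← not_le, le_iff Q hQ, not_le]
  have e2 : box S ⊂ box B ↔ B <:+ S ∧ B ≠ S := by
    rw [ssubset_def, g5, g5]
    refine and_congr_right fun hB => ⟨fun h1 h2 => h1 (h2 ▸ List.suffix_refl _), fun h1 h2 => ?_⟩
    exact h1 (hB.eq_of_length_le h2.length_le)
  rw [e1, e2, and_imp]

end T3

theorem blk_T3 (hT : St_T1) (hG : St_GEO1) : St_T3 := by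
  refine ⟨T3.m_nB, fun A => ⟨T3.m_IntN A, T3.m_Leaf A⟩,
    fun T => ⟨T3.m_tr T, T3.m_HasTr T, T3.m_ex hT T⟩,
    fun α β _ _ g f hg hf => T3.m_piece g f hg hf, T3.m_sub, T3.m_sh, T3.m_drift, T3.m_SR,
    T3.m_nN, fun R => ⟨T3.m_far R, T3.m_near R, T3.m_annN R⟩,
    fun M γ u => ⟨T3.m_X M γ u, T3.m_Y M γ u⟩,
    fun α _ p hp => ⟨T3.m_ind p hp, T3.m_indR p hp⟩, fun Q h T hQ hH => ?_⟩
  have e := T3.part_eq hT hG Q h T hQ hH
  refine ⟨e, ?_⟩
  unfold partF
  have hf : (part Q h).Finite := e ▸ (lvs T).finite_toSet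
  rw [dif_pos hf]
  ext S
  rw [Set.Finite.mem_toFinset, e, Finset.mem_coe]

end

end Pool.Agent.Lib.APPS
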