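import Pool.Agent.Lib.APPS.Blue3

/-!
Block TF: a countable convergence determining family of test functions on the cylinder.
-/

namespace Pool.Agent.Lib.APPS

open MeasureTheory ProbabilityTheory Filter Topology Set Metric
open scoped NNReal ENNReal CompactlySupported BoundedContinuousFunction

noncomputable section

def tf_clip (t : ℝ) : ℝ := max (-1) (min 1 t)

theorem tf_clip_abs (t : ℝ) : |tf_clip t| ≤ 1 :=
  abs_le.2 ⟨le_max_left _ _, max_le (by norm_num) (min_le_left _ _)⟩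

theorem tf_clip_sub (t s : ℝ) (hs : |s| ≤ 1) : |tf_clip t - s| ≤ |t - s| := by
  obtain ⟨h1, h2⟩ := abs_le.1 hs
  have h3 := le_abs_self (t - s)
  have h4 := neg_abs_le (t - s)
  have h5 := abs_nonneg (t - s)
  unfold tf_clip
  rw [abs_le]
  rcases le_total 1 t with a | a
  · rw [min_eq_left a, max_eq_right (by norm_num)]
    constructor <;> linarith
  · rw [min_eq_right a]
    rcases le_total (-1) t with b | b
    · rw [max_eq_right b]; constructor <;> linarith
    · rw [max_eq_left b]; constructor <;> linarith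

def tf_mk (g : C(Cyl, ℝ)) (h : C_c(Cyl, ℝ)) : C_c(Cyl, ℝ) where
  toFun w := tf_clip (g w) * h w
  continuous_toFun :=
    (continuous_const.max (continuous_const.min g.continuous)).mul (map_continuous h)
  hasCompactSupport' := h.hasCompactSupport.mul_left

theorem tf_int (m : Measure Cyl) (hm : m univ ≤ 1) {f : Cyl → ℝ} (hf : Continuous f) {C : ℝ}
    (hC : ∀ w, |f w| ≤ C) : Integrable f m := by
  have : IsFiniteMeasure m := ⟨lt_of_le_of_lt hm ENNReal.one_lt_top⟩
  exact (integrable_const C).mono' hf.aestronglyMeasurable (ae_of_all _ hC)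

theorem tf_real_le (m : Measure Cyl) (hm : m univ ≤ 1) : m.real univ ≤ 1 := by
  have := ENNReal.toReal_mono ENNReal.one_ne_top hm
  simpa [Measure.real] using this

theorem tf_sub_le (m : Measure Cyl) (hm : m univ ≤ 1) {f g : Cyl → ℝ} (hf : Integrable f m)
    (hg : Integrable g m) {ε : ℝ} (hε : 0 ≤ ε) (h : ∀ w, |f w - g w| ≤ ε) :
    |∫ w, f w ∂m - ∫ w, g w ∂m| ≤ ε := by
  have : IsFiniteMeasure m := ⟨lt_of_le_of_lt hm ENNReal.one_lt_top⟩
  rw [← integral_sub hf hg]
  have h1 := norm_integral_le_of_norm_le_const (μ := m) (f := fun w => f w - g w) (C := ε)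
    (ae_of_all _ h)
  rw [Real.norm_eq_abs] at h1
  exact h1.trans (mul_le_of_le_one_right hε (tf_real_le m hm))

theorem tf_approx (f : C(Cyl, ℝ)) (hf : ∀ w, |f w| ≤ 1) (h : C_c(Cyl, ℝ)) (hh : ∀ w, |h w| ≤ 1)
    (ε : ℝ) (hε : 0 < ε) :
    ∃ i, ∀ w, |tf_mk (TopologicalSpace.denseSeq C(Cyl, ℝ) i) h w - f w * h w| ≤ ε := by
  obtain ⟨x, hx, hlim⟩ := mem_closure_iff_seq_limit.1
    (TopologicalSpace.denseRange_denseSeq C(Cyl, ℝ) f)
  have h1 := ContinuousMap.tendsto_iff_forall_isCompact_tendstoUniformlyOn.1 hlim _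
    h.hasCompactSupport
  obtain ⟨n, hn⟩ := (Metric.tendstoUniformlyOn_iff.1 h1 ε hε).exists
  obtain ⟨i, hi⟩ := hx n
  refine ⟨i, fun w => ?_⟩
  change |tf_clip (TopologicalSpace.denseSeq C(Cyl, ℝ) i w) * h w - f w * h w| ≤ ε
  rw [hi, ← sub_mul, abs_mul]
  by_cases hw : w ∈ tsupport h
  · have h2 := hn w hw
    rw [dist_comm, Real.dist_eq] at h2
    have h3 := tf_clip_sub (x n w) (f w) (hf w)
    exact (mul_le_of_le_one_right (abs_nonneg _) (hh w)).trans (h3.trans h2.le)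
  · rw [image_eq_zero_of_notMem_tsupport hw]
    simpa using hε.le

theorem blk_TF (hC : St_CYL) : St_TF := by
  obtain ⟨-, -, -, -, -, -, -, -, -, -, -, -, -, ⟨h0, hh0⟩, hK, hhat, hf0, -⟩ := hC
  choose χ hχ using hK
  have hχ0 : ∀ K w, 0 ≤ χ K w := fun K w => by rw [hχ]; exact (hf0 K w).1
  have hχ1 : ∀ K w, χ K w ≤ 1 := fun K w => by rw [hχ]; exact (hf0 K w).2.1
  have hχa : ∀ K w, |χ K w| ≤ 1 := fun K w => by rw [abs_of_nonneg (hχ0 K w)]; exact hχ1 K w
  let tf : ℕ → C_c(Cyl, ℝ) := fun k => Nat.casesOn k h0 fun k =>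
    tf_mk (TopologicalSpace.denseSeq C(Cyl, ℝ) k.unpair.1) (χ k.unpair.2)
  have hbd : ∀ k w, |tf k w| ≤ 1 := by
    intro k w
    cases k with
    | zero =>
      change |h0 w| ≤ 1
      rw [hh0, abs_of_nonneg (hhat w).1]; exact (hhat w).2.1
    | succ k =>
      change |tf_clip _ * χ _ w| ≤ 1
      rw [abs_mul]
      exact mul_le_one₀ (tf_clip_abs _) (abs_nonneg _) (hχa _ w)
  refine ⟨tf, fun w => hh0 w, hbd, fun m ms hm hms hconv => ?_⟩
  have hm1 : m univ ≤ 1 := measure_univ.le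
  have hint : ∀ (f : C(Cyl, ℝ)), (∀ w, |f w| ≤ 1) → ∀ K, ∀ μ : Measure Cyl, μ univ ≤ 1 →
      Integrable (fun w => f w * χ K w) μ := fun f hf K μ hμ =>
    tf_int μ hμ (f := fun w => f w * χ K w) (f.continuous.mul (map_continuous (χ K))) (C := 1)
      fun w => by rw [abs_mul]; exact mul_le_one₀ (hf w) (abs_nonneg _) (hχa K w)
  -- step 1: compactly supported products
  have step1 : ∀ (f : C(Cyl, ℝ)), (∀ w, |f w| ≤ 1) → ∀ K,
      Tendsto (fun n => ∫ w, f w * χ K w ∂ms n) atTop (𝓝 (∫ w, f w * χ K w ∂m)) := by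
    intro f hf K
    rw [Metric.tendsto_nhds]
    intro ε hε
    obtain ⟨i, hi⟩ := tf_approx f hf (χ K) (hχa K) (ε / 4) (by positivity)
    have e : tf (Nat.pair i K + 1) = tf_mk (TopologicalSpace.denseSeq C(Cyl, ℝ) i) (χ K) := by
      simp only [tf, Nat.unpair_pair]
    rw [← e] at hi
    have hcl : ∀ μ : Measure Cyl, μ univ ≤ 1 →
        |∫ w, tf (Nat.pair i K + 1) w ∂μ - ∫ w, f w * χ K w ∂μ| ≤ ε / 4 := fun μ hμ =>
      tf_sub_le μ hμ (tf_int μ hμ (map_continuous (tf (Nat.pair i K + 1)))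
        (hbd (Nat.pair i K + 1))) (hint f hf K μ hμ)
        (show 0 ≤ ε / 4 by positivity) hi
    filter_upwards [Metric.tendsto_nhds.1 (hconv (Nat.pair i K + 1)) (ε / 4) (by positivity)]
      with n hn
    rw [Real.dist_eq] at hn ⊢
    have a1 := abs_le.1 (hcl _ (hms n))
    have a2 := abs_le.1 (hcl _ hm1)
    have a3 := abs_lt.1 hn
    rw [abs_lt]
    constructor <;> linarith [a1.1, a1.2, a2.1, a2.2, a3.1, a3.2]
  -- step 2: tightness
  have step2 : Tendsto (fun K => ∫ w, χ K w ∂m) atTop (𝓝 1) := by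
    have := tendsto_integral_of_dominated_convergence (μ := m) (F := fun K w => χ K w)
      (f := fun _ => (1 : ℝ)) (fun _ => 1)
      (fun K => (map_continuous (χ K)).aestronglyMeasurable) (integrable_const _)
      (fun K => ae_of_all _ (hχa K)) (ae_of_all _ fun w => by
        refine tendsto_const_nhds.congr' ?_
        have hl : 0 < l2 := Real.log_pos (by norm_num)
        filter_upwards [(tendsto_natCast_atTop_atTop (R := ℝ)).eventually_ge_atTop (|w.1| / l2)]
          with K hK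
        rw [hχ, (hf0 K w).2.2.1 ((div_le_iff₀ hl).1 hK)])
    simpa using this
  have cut : ∀ (f : C(Cyl, ℝ)), (∀ w, |f w| ≤ 1) → ∀ K, ∀ μ : Measure Cyl, μ univ ≤ 1 →
      |∫ w, f w ∂μ - ∫ w, f w * χ K w ∂μ| ≤ 1 - ∫ w, χ K w ∂μ := by
    intro f hf K μ hμ
    have : IsFiniteMeasure μ := ⟨lt_of_le_of_lt hμ ENNReal.one_lt_top⟩
    have i1 := tf_int μ hμ f.continuous hf
    have i2 := hint f hf K μ hμ
    have i3 := tf_int μ hμ (map_continuous (χ K)) (hχa K)
    rw [← integral_sub i1 i2]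
    calc |∫ w, f w - f w * χ K w ∂μ| ≤ ∫ w, 1 - χ K w ∂μ := by
          have i4 : Integrable (fun w => 1 - χ K w) μ := (integrable_const _).sub i3
          rw [← Real.norm_eq_abs]
          refine norm_integral_le_of_norm_le i4 (ae_of_all _ fun w => ?_)
          rw [Real.norm_eq_abs, ← mul_one_sub, abs_mul, abs_of_nonneg (sub_nonneg.2 (hχ1 K w))]
          exact mul_le_of_le_one_left (sub_nonneg.2 (hχ1 K w)) (hf w)
      _ ≤ _ := by
          rw [integral_sub (integrable_const _) i3, integral_const, smul_eq_mul, mul_one]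
          linarith [tf_real_le μ hμ]
  have step3 : ∀ (f : C(Cyl, ℝ)), (∀ w, |f w| ≤ 1) →
      Tendsto (fun n => ∫ w, f w ∂ms n) atTop (𝓝 (∫ w, f w ∂m)) := by
    intro f hf
    rw [Metric.tendsto_nhds]
    intro ε hε
    obtain ⟨K, hK⟩ := (Metric.tendsto_nhds.1 step2 (ε / 4) (by positivity)).exists
    have s1 := step1 1 (fun w => by simp) K
    simp only [ContinuousMap.one_apply, one_mul] at s1
    filter_upwards [Metric.tendsto_nhds.1 (step1 f hf K) (ε / 4) (by positivity),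
      Metric.tendsto_nhds.1 s1 (ε / 4) (by positivity)] with n h1 h2
    rw [Real.dist_eq] at h1 h2 hK ⊢
    have a1 := abs_le.1 (cut f hf K _ (hms n))
    have a2 := abs_le.1 (cut f hf K _ hm1)
    have a3 := abs_lt.1 h1
    have a4 := abs_lt.1 h2
    have a5 := abs_lt.1 hK
    rw [abs_lt]
    constructor <;> linarith [a1.1, a1.2, a2.1, a2.2, a3.1, a3.2, a4.1, a4.2, a5.1, a5.2]
  intro f
  have hc : 0 < ‖f‖ + 1 := by positivity
  have := (step3 ((‖f‖ + 1)⁻¹ • f.toContinuousMap) fun w => by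
    change |(‖f‖ + 1)⁻¹ * f w| ≤ 1
    rw [abs_mul, abs_of_pos (inv_pos.2 hc), inv_mul_le_iff₀ hc]
    have := f.norm_coe_le_norm w
    rw [Real.norm_eq_abs] at this
    linarith).const_mul (‖f‖ + 1)
  have e : ∀ μ : Measure Cyl, (‖f‖ + 1) * ∫ w, ((‖f‖ + 1)⁻¹ • f.toContinuousMap) w ∂μ =
      ∫ w, f w ∂μ := by
    intro μ
    change (‖f‖ + 1) * ∫ w, (‖f‖ + 1)⁻¹ * f w ∂μ = _
    rw [integral_const_mul, mul_inv_cancel_left₀ hc.ne']
  simpa only [e] using this

end

end Pool.Agent.Lib.APPS
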