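import Pool.Agent.Lib.APPS.Blue4

/-!
Block THL: Lipschitz properties of the local functional.
-/

namespace Pool.Agent.Lib.APPS

open MeasureTheory ProbabilityTheory Filter Topology Set Metric
open scoped NNReal ENNReal RealInnerProductSpace

noncomputable section

namespace THL

theorem th_eq (G : (ℕ → ℝ) → ℝ) (χ : ℝ → ℝ) (k0 : ℕ) (τ : ℝ) (s : ℕ → ℝ) :
    Th G χ k0 τ s = s 0 * (χ τ / τ ^ 2 * G fun k => if k ≤ k0 then s k / τ else 0) := by
  unfold Th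
  ring

theorem phi_bd {χ : ℝ → ℝ} (h01 : ∀ t, 0 ≤ χ t ∧ χ t ≤ 1) (h34 : ∀ t, χ t ≠ 0 → 3 / 4 ≤ t)
    (τ : ℝ) : 0 ≤ χ τ / τ ^ 2 ∧ χ τ / τ ^ 2 ≤ 2 := by
  refine ⟨div_nonneg (h01 τ).1 (sq_nonneg _), ?_⟩
  by_cases h : χ τ = 0
  · simp [h]
  · have := h34 τ h
    rw [div_le_iff₀ (by positivity)]
    nlinarith [(h01 τ).2]

theorem phi_lip0 {χ : ℝ → ℝ} {K : ℝ} (hK : ∀ t t', |χ t - χ t'| ≤ K * |t - t'|)
    (h34 : ∀ t, χ t ≠ 0 → 3 / 4 ≤ t) (hK0 : 0 ≤ K) (τ τ' : ℝ) (h' : χ τ' = 0) :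
    |χ τ / τ ^ 2 - χ τ' / τ' ^ 2| ≤ (2 * K + 5) * |τ - τ'| := by
  have a0 := abs_nonneg (τ - τ')
  by_cases h : χ τ = 0
  · simp only [h, h', zero_div, sub_self, abs_zero]
    positivity
  · have h1 := h34 τ h
    have h2 := hK τ τ'
    rw [h', sub_zero] at h2
    rw [h', zero_div, sub_zero, abs_div, abs_of_nonneg (sq_nonneg τ), div_le_iff₀ (by positivity)]
    have h3 : 1 / 2 ≤ τ ^ 2 := by nlinarith
    have h4 : 0 ≤ K * |τ - τ'| := by positivity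
    nlinarith [mul_le_mul_of_nonneg_left h3 h4, mul_nonneg a0 (sq_nonneg τ)]

theorem phi_lip {χ : ℝ → ℝ} {K : ℝ} (hK : ∀ t t', |χ t - χ t'| ≤ K * |t - t'|)
    (h01 : ∀ t, 0 ≤ χ t ∧ χ t ≤ 1) (h34 : ∀ t, χ t ≠ 0 → 3 / 4 ≤ t) (hK0 : 0 ≤ K) (τ τ' : ℝ) :
    |χ τ / τ ^ 2 - χ τ' / τ' ^ 2| ≤ (2 * K + 5) * |τ - τ'| := by
  by_cases h' : χ τ' = 0
  · exact phi_lip0 hK h34 hK0 τ τ' h'
  by_cases h : χ τ = 0
  · rw [abs_sub_comm, abs_sub_comm τ]
    exact phi_lip0 hK h34 hK0 τ' τ h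
  have h1 := h34 τ h
  have h2 := h34 τ' h'
  have p1 : 0 < τ := by linarith
  have p2 : 0 < τ' := by linarith
  set a := τ⁻¹ with ha
  set b := τ'⁻¹ with hb
  have a0 : 0 < a := inv_pos.2 p1
  have b0 : 0 < b := inv_pos.2 p2
  have a1 : a ≤ 4 / 3 := by
    rw [ha, inv_le_comm₀ p1 (by norm_num)]; linarith
  have b1 : b ≤ 4 / 3 := by
    rw [hb, inv_le_comm₀ p2 (by norm_num)]; linarith
  have e : χ τ / τ ^ 2 - χ τ' / τ' ^ 2 =
      (χ τ - χ τ') * a ^ 2 + χ τ' * ((a + b) * (a * b)) * (τ' - τ) := by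
    rw [ha, hb]
    field_simp
    ring
  have c1 : a ^ 2 ≤ 2 := by nlinarith
  have c2 : a * b ≤ 16 / 9 := by nlinarith
  have c3 : (a + b) * (a * b) ≤ 5 := by nlinarith [mul_pos a0 b0]
  have c4 : χ τ' * ((a + b) * (a * b)) ≤ 5 := by
    have : 0 ≤ (a + b) * (a * b) := by positivity
    nlinarith [(h01 τ').1, (h01 τ').2]
  have c5 : 0 ≤ χ τ' * ((a + b) * (a * b)) := mul_nonneg (h01 τ').1 (by positivity)
  have d0 := abs_nonneg (τ - τ')
  rw [e]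
  refine (abs_add_le _ _).trans ?_
  rw [abs_mul, abs_mul, abs_of_nonneg (sq_nonneg a), abs_of_nonneg c5, abs_sub_comm τ' τ]
  have c6 : |χ τ - χ τ'| * a ^ 2 ≤ K * |τ - τ'| * 2 :=
    mul_le_mul (hK τ τ') c1 (sq_nonneg _) (by positivity)
  nlinarith [mul_le_mul_of_nonneg_right c4 d0]

theorem quot {τ τ' δ B x x' : ℝ} (h1 : 3 / 4 ≤ τ) (h2 : 3 / 4 ≤ τ') (hB : 1 ≤ B)
    (hτ : |τ - τ'| ≤ δ) (hx : |x - x'| ≤ δ) (hx' : |x'| ≤ B) :
    |x / τ - x' / τ'| ≤ 4 * B * δ := by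
  have p1 : 0 < τ := by linarith
  have p2 : 0 < τ' := by linarith
  have hδ : 0 ≤ δ := (abs_nonneg _).trans hτ
  set a := τ⁻¹ with ha
  set b := τ'⁻¹ with hb
  have a0 : 0 < a := inv_pos.2 p1
  have b0 : 0 < b := inv_pos.2 p2
  have a1 : a ≤ 4 / 3 := by
    rw [ha, inv_le_comm₀ p1 (by norm_num)]; linarith
  have b1 : b ≤ 4 / 3 := by
    rw [hb, inv_le_comm₀ p2 (by norm_num)]; linarith
  have e : x / τ - x' / τ' = (x - x') * a + x' * (τ' - τ) * (a * b) := by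
    rw [ha, hb]
    field_simp
    ring
  have c2 : a * b ≤ 2 := by nlinarith
  rw [e]
  refine (abs_add_le _ _).trans ?_
  rw [abs_mul, abs_mul, abs_mul, abs_of_pos a0, abs_of_pos (mul_pos a0 b0), abs_sub_comm τ' τ]
  have c3 : |x - x'| * a ≤ δ * (4 / 3) := mul_le_mul hx a1 a0.le hδ
  have c4 : |x'| * |τ - τ'| ≤ B * δ := mul_le_mul hx' hτ (abs_nonneg _) (by linarith)
  have c5 : |x'| * |τ - τ'| * (a * b) ≤ B * δ * 2 :=
    mul_le_mul c4 c2 (mul_pos a0 b0).le (by positivity)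
  nlinarith

theorem prod_diff {p p' g g' A D : ℝ} (hp : 0 ≤ p ∧ p ≤ 2) (hp' : 0 ≤ p' ∧ p' ≤ 2)
    (hg : 0 ≤ g ∧ g ≤ 1) (hg' : 0 ≤ g' ∧ g' ≤ 1) (hA : |p - p'| ≤ A) (hD0 : 0 ≤ D)
    (hD : p ≠ 0 → p' ≠ 0 → |g - g'| ≤ D) : |p * g - p' * g'| ≤ A + 2 * D := by
  by_cases h : p = 0
  · rw [h, zero_sub, abs_neg, abs_of_nonneg hp'.1] at hA
    rw [h, zero_mul, zero_sub, abs_neg, abs_of_nonneg (mul_nonneg hp'.1 hg'.1)]
    nlinarith [hp'.1, hg'.2]
  by_cases h' : p' = 0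
  · rw [h', sub_zero, abs_of_nonneg hp.1] at hA
    rw [h', zero_mul, sub_zero, abs_of_nonneg (mul_nonneg hp.1 hg.1)]
    nlinarith [hp.1, hg.2]
  have h1 := hD h h'
  rw [show p * g - p' * g' = (p - p') * g + p' * (g - g') by ring]
  refine (abs_add_le _ _).trans ?_
  rw [abs_mul, abs_mul, abs_of_nonneg hg.1, abs_of_nonneg hp'.1]
  have c1 : |p - p'| * g ≤ A * 1 := mul_le_mul hA hg.2 hg.1 ((abs_nonneg _).trans hA)
  have c2 : p' * |g - g'| ≤ 2 * D := mul_le_mul hp'.2 h1 (abs_nonneg _) (by norm_num)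
  linarith

theorem fin_diff {x x' q q' E : ℝ} (hx : 0 ≤ x) (hq' : 0 ≤ q' ∧ q' ≤ 2) (hE : |q - q'| ≤ E) :
    |x * q - x' * q'| ≤ 2 * |x - x'| + E * x := by
  rw [show x * q - x' * q' = (x - x') * q' + x * (q - q') by ring]
  refine (abs_add_le _ _).trans ?_
  rw [abs_mul, abs_mul, abs_of_nonneg hq'.1, abs_of_nonneg hx]
  have c1 : |x - x'| * q' ≤ |x - x'| * 2 := mul_le_mul_of_nonneg_left hq'.2 (abs_nonneg _)
  have c2 : x * |q - q'| ≤ x * E := mul_le_mul_of_nonneg_left hE hx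
  linarith

end THL

open THL in
theorem blk_THL (hP : St_PHI) : St_THL := by
  intro Λ χ hΛ hχ
  obtain ⟨⟨K, hK⟩, h01, β, hβ⟩ := hχ
  have hK' : ∀ t t', |χ t - χ t'| ≤ K * |t - t'| := fun t t' => by
    have := hK.dist_le_mul t t'
    rwa [Real.dist_eq, Real.dist_eq] at this
  have h34 : ∀ t, χ t ≠ 0 → 3 / 4 ≤ t := fun t h => (hβ t h).1
  have hK0 : (0 : ℝ) ≤ K := K.coe_nonneg
  refine ⟨2 * K + 5 + 16 * Λ, max β 1, by positivity, le_max_right _ _, fun G hG k0 => ?_⟩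
  have hq : ∀ (τ : ℝ) (w : ℕ → ℝ), 0 ≤ χ τ / τ ^ 2 * G w ∧ χ τ / τ ^ 2 * G w ≤ 2 := by
    intro τ w
    have h1 := phi_bd h01 h34 τ
    have h2 := hG.1 w
    exact ⟨mul_nonneg h1.1 h2.1, by nlinarith [h1.1, h1.2, h2.1, h2.2]⟩
  refine ⟨?_, fun τ s h => ?_, fun τ s hs => ?_, fun τ s hs hsτ => ?_, fun τ s hs => ?_, ?_⟩
  · have hGm := (hP.2.2.2.2.2.1 Λ G hG).2
    have hχm : Measurable χ := hK.continuous.measurable
    have hw : Measurable fun (p : ℝ × (ℕ → ℝ)) (k : ℕ) => if k ≤ k0 then p.2 k / p.1 else 0 := by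
      refine measurable_pi_lambda _ fun k => ?_
      by_cases hk : k ≤ k0
      · simp only [if_pos hk]; fun_prop
      · simp only [if_neg hk]; fun_prop
    unfold Th
    exact (((hχm.comp measurable_fst).div measurable_fst).mul (by fun_prop)).mul (hGm.comp hw)
  · have h0 : χ τ ≠ 0 := by
      intro h0
      apply h
      simp [Th, h0]
    exact ⟨(hβ τ h0).1, (hβ τ h0).2.trans (le_max_left _ _)⟩
  · rw [th_eq]
    have := hq τ fun k => if k ≤ k0 then s k / τ else 0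
    exact ⟨mul_nonneg hs this.1, by nlinarith [this.2]⟩
  · by_cases h0 : χ τ = 0
    · simp [Th, h0]
    · have h1 := h34 τ h0
      have p1 : 0 < τ := by linarith
      have a1 : χ τ / τ ≤ 2 := by
        rw [div_le_iff₀ p1]; linarith [(h01 τ).2]
      have a2 : s 0 / τ ≤ 1 := (div_le_one p1).2 hsτ
      have a3 := hG.1 fun k => if k ≤ k0 then s k / τ else 0
      unfold Th
      calc _ ≤ (2 : ℝ) * 1 * 1 :=
            mul_le_mul (mul_le_mul a1 a2 (div_nonneg hs p1.le) (by norm_num)) a3.2 a3.1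
              (by norm_num)
        _ = 2 := by norm_num
  · have h1 := hG.2 (fun k => if k ≤ k0 then s k / τ else 0) fun k => s k / τ
    have h2 := hP.2.2.1 (fun k => if k ≤ k0 then s k / τ else 0) (fun k => s k / τ) k0 0 le_rfl
      fun k hk => by simp [hk]
    have h3 := phi_bd h01 h34 τ
    have h4 := h1.trans (mul_le_mul_of_nonneg_left h2 hΛ)
    rw [th_eq, show χ τ / τ * (s 0 / τ) * G (fun k => s k / τ) =
      s 0 * (χ τ / τ ^ 2 * G fun k => s k / τ) by ring, ← mul_sub, ← mul_sub, abs_mul, abs_mul,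
      abs_of_nonneg hs, abs_of_nonneg h3.1, mul_comm]
    refine mul_le_mul_of_nonneg_right ?_ hs
    have h5 := mul_le_mul h3.2 h4 (abs_nonneg _) (by norm_num)
    have h6 : (0 : ℝ) ≤ (1 / 2) ^ k0 := by positivity
    nlinarith [mul_nonneg hΛ h6, mul_nonneg hK0 h6]
  · intro τ τ' δ B s s' hs hs' hB hτ hss
    have hδ : 0 ≤ δ := (abs_nonneg _).trans hτ
    have hBδ : δ ≤ B * δ := by nlinarith
    have hE : |χ τ / τ ^ 2 * G (fun k => if k ≤ k0 then s k / τ else 0) -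
        χ τ' / τ' ^ 2 * G fun k => if k ≤ k0 then s' k / τ' else 0| ≤
        (2 * K + 5 + 16 * Λ) * (B * δ) := by
      refine (prod_diff (A := (2 * K + 5) * (B * δ)) (D := Λ * (2 * (4 * B * δ)))
        (phi_bd h01 h34 τ) (phi_bd h01 h34 τ') (hG.1 _) (hG.1 _) ?_ (by positivity) ?_).trans
        (le_of_eq (by ring))
      · exact (phi_lip hK' h01 h34 hK0 τ τ').trans
          (mul_le_mul_of_nonneg_left (hτ.trans hBδ) (by positivity))
      · intro h h'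
        have g1 : χ τ ≠ 0 := fun h0 => h (by simp [h0])
        have g2 : χ τ' ≠ 0 := fun h0 => h' (by simp [h0])
        refine (hG.2 _ _).trans (mul_le_mul_of_nonneg_left
          (hP.2.2.2.1 _ _ _ (by positivity) fun k => ?_) hΛ)
        by_cases hk : k ≤ k0
        · simp only [if_pos hk]
          exact quot (h34 τ g1) (h34 τ' g2) hB hτ (hss k hk).1 (hss k hk).2.2
        · simp only [if_neg hk, sub_self, abs_zero]
          positivity
    have hC : (2 : ℝ) ≤ 2 * K + 5 + 16 * Λ := by linarith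
    have a0 := abs_nonneg (s 0 - s' 0)
    rw [th_eq, th_eq]
    rcases le_total (s 0) (s' 0) with h | h
    · rw [min_eq_left h]
      refine (fin_diff hs (hq τ' _) hE).trans ?_
      nlinarith [mul_le_mul_of_nonneg_right hC a0]
    · rw [min_eq_right h, abs_sub_comm]
      rw [abs_sub_comm] at hE
      refine (fin_diff hs' (hq τ _) hE).trans ?_
      rw [abs_sub_comm (s' 0)]
      nlinarith [mul_le_mul_of_nonneg_right hC a0]

end

end Pool.Agent.Lib.APPS
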