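import Pool.Agent.Lib.APPS.Blue2

/-!
Block TL: rooted tilting.
-/

namespace Pool.Agent.Lib.APPS

open MeasureTheory ProbabilityTheory Filter Topology Set Metric
open scoped NNReal ENNReal RealInnerProductSpace

noncomputable section

namespace TL

theorem eE_add (s t : ℝ) : eE (s + t) = eE s * eE t := by
  rw [eE, eE, eE, Real.exp_add, ENNReal.ofReal_mul (Real.exp_pos _).le]

theorem eE_mono {s t : ℝ} (h : s ≤ t) : eE s ≤ eE t :=
  ENNReal.ofReal_le_ofReal (Real.exp_le_exp.2 h)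

theorem eE_ne (t : ℝ) : eE t ≠ ∞ := ENNReal.ofReal_ne_top

theorem eE_meas : Measurable eE := Real.measurable_exp.ennreal_ofReal

theorem eE_rpow (t r : ℝ) (hr : 0 ≤ r) : eE t ^ r = eE (r * t) := by
  rw [eE, eE, ENNReal.ofReal_rpow_of_nonneg (Real.exp_pos _).le hr, ← Real.exp_mul, mul_comm]

theorem count (hT1 : St_T1) (n : ℕ) : ∑' R : Dy, ind (R.length = n) = 4 ^ n := by
  rw [tsum_eq_sum (s := lev n)]
  · rw [Finset.sum_congr rfl (g := fun _ => (1 : ℝ≥0∞))]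
    · simp [hT1.2.1 n]
    · intro R hR
      simp [ind, (hT1.1 n R).1 hR]
  · intro R hR
    have : ¬R.length = n := fun h => hR ((hT1.1 n R).2 h)
    simp [ind, this]

theorem four (m : ℕ) (A : ℝ) :
    (4 : ℝ≥0∞) ^ (m + 2) * ENNReal.ofReal (A * Real.exp (-2 * m * l2)) =
      ENNReal.ofReal (16 * A) := by
  have h4 : (4 : ℝ≥0∞) ^ (m + 2) = ENNReal.ofReal (4 ^ (m + 2)) := by
    rw [ENNReal.ofReal_pow (by norm_num)]; simp
  rw [h4, ← ENNReal.ofReal_mul (by positivity)]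
  congr 1
  have e : Real.exp (-2 * m * l2) * 4 ^ m = 1 := by
    have h2 : (4 : ℝ) = Real.exp (2 * l2) := by
      rw [l2, show (2 : ℝ) * Real.log 2 = Real.log 2 + Real.log 2 by ring, Real.exp_add,
        Real.exp_log (by norm_num)]
      norm_num
    rw [h2, ← Real.exp_nat_mul, ← Real.exp_add]
    rw [show -2 * (m : ℝ) * l2 + m * (2 * l2) = 0 by ring, Real.exp_zero]
  rw [pow_add]
  linear_combination (16 * A) * e

/-- first moment bounded by a higher moment -/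
theorem l1_le {Ω : Type*} [MeasurableSpace Ω] (P : Measure Ω) [IsProbabilityMeasure P]
    (f : Ω → ℝ≥0∞) (hf : Measurable f) (r : ℝ) (hr : 1 ≤ r) (A : ℝ≥0∞)
    (h : ∫⁻ ω, f ω ^ r ∂P ≤ A ^ r) : ∫⁻ ω, f ω ∂P ≤ A := by
  rcases hr.eq_or_lt with rfl | hr1
  · simpa using h
  · have hpq := Real.HolderConjugate.conjExponent hr1
    have h1 := ENNReal.lintegral_mul_le_Lp_mul_Lq P hpq hf.aemeasurable
      (g := fun _ => 1) aemeasurable_const
    simp only [Pi.mul_apply, mul_one, ENNReal.one_rpow, lintegral_const, measure_univ] at h1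
    refine h1.trans ?_
    have h0 : (0 : ℝ) < r := by linarith
    calc (∫⁻ ω, f ω ^ r ∂P) ^ (1 / r) ≤ (A ^ r) ^ (1 / r) :=
          ENNReal.rpow_le_rpow h (by positivity)
      _ = A := by rw [← ENNReal.rpow_mul, mul_one_div_cancel h0.ne', ENNReal.rpow_one]

theorem meas_wk (a : ℝ) (β : ℕ → HH) (u : ℝ) : Measurable fun ω : Om => wk a β u ω :=
  measurable_pi_lambda _ fun _ => ((meas_ev _).add_const _).sub_const _

/-- one tilt -/
theorem tilt (h2 : St_G2) (h3 : St_G3) (γ κ Q a s u0 u1 : ℝ) (k : ℕ)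
    (β b : ℕ → HH) (Θ : ℕ → (ℕ → ℝ) → ℝ≥0∞)
    (hβ : IsWk β s) (hb : IsWk b s) (hΘ : DepLe Θ) (ha : a = Q - γ) (hu : u1 = u0 + γ * s) :
    ∫⁻ ω, eE (γ * wk Q β u0 ω k - κ * |wk Q β u0 ω k|) * Θ k (wk Q β u0 ω) ∂gm =
      eE (γ * (u0 - Q * k * l2) + γ ^ 2 * (s + k * l2) / 2) *
        ∫⁻ ω, eE (-κ * |wk a b u1 ω k|) * Θ k (wk a b u1 ω) ∂gm := by
  set h : HH := γ • β k with hh
  let f : Om → ℝ≥0∞ := fun ω => eE (-κ * |wk Q β u0 ω k|) * Θ k (wk Q β u0 ω)
  have hf : Measurable f :=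
    (eE_meas.comp ((((measurable_pi_apply k).comp (meas_wk Q β u0)).abs).const_mul _)).mul
      ((hΘ.1 k).comp (meas_wk Q β u0))
  have hcm := h2.2.1 h f hf
  have hn : ‖h‖ ^ 2 = γ ^ 2 * (s + k * l2) := by
    rw [hh, norm_smul, mul_pow, Real.norm_eq_abs, sq_abs, ← real_inner_self_eq_norm_sq, hβ k k]
    simp
  have e1 : ∀ ω : Om, eE (γ * wk Q β u0 ω k - κ * |wk Q β u0 ω k|) * Θ k (wk Q β u0 ω) =
      eE (γ * (u0 - Q * k * l2) + γ ^ 2 * (s + k * l2) / 2) *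
        (f ω * eE (ω h - ‖h‖ ^ 2 / 2)) := by
    intro ω
    have a1 : ω h = γ * ω (β k) := by rw [hh, map_smul, smul_eq_mul]
    simp only [f]
    rw [mul_right_comm (eE (-κ * |wk Q β u0 ω k|)), ← mul_assoc, ← eE_add, ← eE_add, a1, hn]
    congr 2
    simp only [wk]
    ring
  have hsh : ∀ (ω : Om), ∀ j ≤ k, wk Q β u0 (ω + dv h) j = wk a β u1 ω j := by
    intro ω j hj
    have c1 : ⟪h, β j⟫ = γ * (s + j * l2) := by
      rw [hh, real_inner_smul_left, hβ k j]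
      simp only [min_eq_right hj]
    simp only [wk, LinearMap.add_apply, dv_apply, c1, ha, hu]
    ring
  have e2 : ∀ ω : Om, f (ω + dv h) = eE (-κ * |wk a β u1 ω k|) * Θ k (wk a β u1 ω) := by
    intro ω
    simp only [f]
    rw [hΘ.2 k _ _ (hsh ω), hsh ω k le_rfl]
  let g : (ℕ → ℝ) → ℝ≥0∞ := fun x =>
    eE (-κ * |x k + u1 - a * k * l2|) * Θ k fun j => x j + u1 - a * j * l2
  have hg : Measurable g := by
    have m1 : Measurable fun x : ℕ → ℝ => -κ * |x k + u1 - a * k * l2| := by fun_prop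
    have m2 : Measurable fun (x : ℕ → ℝ) (j : ℕ) => x j + u1 - a * j * l2 := by fun_prop
    exact (eE_meas.comp m1).mul ((hΘ.1 k).comp m2)
  have hm : ∀ z : ℕ → HH, Measurable fun (ω : Om) t => ω (z t) := fun z =>
    measurable_pi_lambda _ fun t => meas_ev _
  have hlaw := h3.2.2.1 ℕ β b fun i j => by rw [hβ i j, hb i j]
  have e3 : ∫⁻ ω, eE (-κ * |wk a β u1 ω k|) * Θ k (wk a β u1 ω) ∂gm =
      ∫⁻ ω, eE (-κ * |wk a b u1 ω k|) * Θ k (wk a b u1 ω) ∂gm := by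
    change ∫⁻ ω, g (fun t => ω (β t)) ∂gm = ∫⁻ ω, g (fun t => ω (b t)) ∂gm
    rw [← lintegral_map hg (hm β), ← lintegral_map hg (hm b), hlaw]
  simp_rw [e1]
  rw [lintegral_const_mul' _ _ (eE_ne _), ← hcm, ← e3]
  simp_rw [e2]

/-- integrate the root weight out -/
theorem mix (h1 : St_G1) (h2 : St_G2) (Q u0 r0 : ℝ) (k : ℕ) (β : ℕ → HH)
    (Θ : ℕ → (ℕ → ℝ) → ℝ≥0∞) (G : ℝ × Om → ℝ≥0∞) (H : ℝ → ℝ≥0∞) (hr : 1 ≤ r0) (hΘ : DepLe Θ)
    (hG : Measurable G) (hI : ∀ y, ∀ j ≤ k, InvD (β j) fun ω => G (y, ω))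
    (hb : ∀ y, ∫⁻ ω, G (y, ω) ^ r0 ∂gm ≤ H y ^ r0) :
    ∫⁻ ω, G (wk Q β u0 ω k, ω) * Θ k (wk Q β u0 ω) ∂gm ≤
      ∫⁻ ω, H (wk Q β u0 ω k) * Θ k (wk Q β u0 ω) ∂gm := by
  have := h1.1
  let W : (Fin (k + 1) → ℝ) → ℕ → ℝ := fun t j =>
    (if h : j < k + 1 then t ⟨j, h⟩ else 0) + u0 - Q * j * l2
  have hW : Measurable W := by
    refine measurable_pi_lambda _ fun j => ?_
    by_cases h : j < k + 1
    · simp only [W, dif_pos h]; fun_prop
    · simp only [W, dif_neg h]; fun_prop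
  have hWw : ∀ (ω : Om), ∀ j ≤ k, W (fun i : Fin (k + 1) => ω (β i)) j = wk Q β u0 ω j := by
    intro ω j hj
    simp only [W, dif_pos (Nat.lt_succ_of_le hj), wk]
  let f : (Fin (k + 1) → ℝ) × Om → ℝ≥0∞ := fun p => G (W p.1 k, p.2) * Θ k (W p.1)
  have hf : Measurable f :=
    (hG.comp ((((measurable_pi_apply k).comp hW).comp measurable_fst).prodMk
      measurable_snd)).mul (((hΘ.1 k).comp hW).comp measurable_fst)
  have hfI : ∀ t (i : Fin (k + 1)), InvD (β i) fun ω => f (t, ω) := by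
    intro t i s ω
    simp only [f]
    rw [show G (W t k, ω + s • dv (β i)) = G (W t k, ω) from
      hI (W t k) i (Nat.le_of_lt_succ i.2) s ω]
  have hm := h2.2.2.2 (Fin (k + 1)) (fun i => β i) f hf hfI
  have e1 : ∀ ω' ω : Om, f (fun i : Fin (k + 1) => ω' (β i), ω) =
      G (wk Q β u0 ω' k, ω) * Θ k (wk Q β u0 ω') := by
    intro ω' ω
    simp only [f]
    rw [hWw ω' k le_rfl, hΘ.2 k _ _ (hWw ω')]
  simp_rw [e1] at hm
  rw [hm]
  refine lintegral_mono fun ω' => ?_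
  have hGy : Measurable fun ω => G (wk Q β u0 ω' k, ω) := hG.comp measurable_prodMk_left
  rw [lintegral_mul_const _ hGy]
  exact mul_le_mul_left (l1_le gm _ hGy r0 hr _ (hb _)) _

theorem side4 {V : Dy} {k : ℕ} (hV : V.length = k + 2) : 4 * side V = (1 / 2 : ℝ) ^ k := by
  rw [side, hV, pow_add]; ring

theorem item2 (hM : St_MOD) (M : Model) (i0 : ℕ) (hOk : M.Ok i0) (z : ℂ) (hz : z ∈ box []) :
    IsWk (fun j => M.eC z ((1 / 2 : ℝ) ^ (i0 + j))) (M.C0 + i0 * l2) := by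
  obtain ⟨-, -, -, -, -, -, -, -, -, -, h11, -⟩ := hM M
  have key : ∀ i j : ℕ, i ≤ j → ⟪M.eC z ((1 / 2 : ℝ) ^ (i0 + j)), M.eC z ((1 / 2 : ℝ) ^ (i0 + i))⟫ =
      M.C0 + i0 * l2 + i * l2 := by
    intro i j hij
    rw [h11 z _ _ (by positivity)
      (pow_le_pow_of_le_one (by norm_num) (by norm_num) (by omega))
      ((closedBall_subset_closedBall
        (pow_le_pow_of_le_one (by norm_num) (by norm_num) (by omega))).trans (hOk.1 z hz)),
      Real.log_pow, one_div, Real.log_inv, l2]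
    push_cast
    ring
  intro i j
  rcases le_total i j with h | h
  · simp only
    rw [real_inner_comm, key i j h, min_eq_left h]
  · simp only
    rw [key j i h, min_eq_right h]

theorem ind_le (γ κ y x c : ℝ) (hκγ : κ ≤ γ) :
    ind (0 < y + x + c) ≤ eE (γ * y - κ * |y| + |γ + κ| * |c|) * eE (|γ + κ| * |x|) := by
  by_cases h : 0 < y + x + c
  · have h1 : ind (0 < y + x + c) = eE 0 := by simp [ind, h, eE]
    rw [h1, ← eE_add]
    refine eE_mono ?_
    have a1 := abs_nonneg (γ + κ)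
    have a2 := abs_nonneg c
    have a3 := abs_nonneg x
    rcases le_total 0 y with hy | hy
    · rw [abs_of_nonneg hy]
      have := mul_nonneg (sub_nonneg.2 hκγ) hy
      nlinarith
    · rw [abs_of_nonpos hy]
      have b1 : -y ≤ |x| + |c| := by linarith [le_abs_self x, le_abs_self c]
      have b2 : (γ + κ) * -y ≤ |γ + κ| * (|x| + |c|) :=
        mul_le_mul (le_abs_self _) b1 (by linarith) a1
      nlinarith
  · simp [ind, h]

theorem item3 (h1D : St_G1D) (γ κ r0 B c : ℝ) (hκγ : κ ≤ γ) (hr : 1 ≤ r0) :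
    ∃ K ≥ 0, ∀ (w : HH) (V : Om → ℝ≥0∞) (v' : ℝ), ‖w‖ ≤ B →
    Measurable V → 0 ≤ v' → ∫⁻ ω, V ω ^ (2 * r0) ∂gm ≤ ENNReal.ofReal v' ^ (2 * r0) → ∀ y : ℝ,
    ∫⁻ ω, (ind (0 < y + ω w + c) * V ω) ^ r0 ∂gm ≤
      ENNReal.ofReal (K * v' * Real.exp (γ * y - κ * |y|)) ^ r0 := by
  set lam := |γ + κ| with hlam
  have hl : 0 ≤ lam := abs_nonneg _
  have hr0 : 0 ≤ r0 := by linarith
  refine ⟨Real.exp (lam * |c| + 1 + r0 * lam ^ 2 * B ^ 2), (Real.exp_pos _).le, ?_⟩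
  intro w V v' hw hV hv hint y
  have hE : Measurable fun ω : Om => eE (r0 * (lam * |ω w|)) :=
    eE_meas.comp (((meas_ev w).abs.const_mul _).const_mul _)
  have hpq : (2 : ℝ).HolderConjugate 2 := Real.HolderConjugate.two_two
  have hcs := ENNReal.lintegral_mul_le_Lp_mul_Lq gm hpq hE.aemeasurable
    (g := fun ω => V ω ^ r0) (hV.pow_const _).aemeasurable
  have a1 : (∫⁻ ω, eE (r0 * (lam * |ω w|)) ^ (2 : ℝ) ∂gm) ^ (1 / 2 : ℝ) ≤
      eE (r0 * (1 + r0 * lam ^ 2 * B ^ 2)) := by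
    have b1 : ∀ ω : Om, eE (r0 * (lam * |ω w|)) ^ (2 : ℝ) = eE (2 * r0 * lam * |ω w|) := by
      intro ω
      rw [eE_rpow _ _ (by norm_num)]
      congr 1
      ring
    simp_rw [b1]
    have b2 := h1D.2.2.2.2.2.2 w (2 * r0 * lam)
    have b3 : (2 : ℝ≥0∞) ≤ eE (2 * r0) := by
      rw [eE, show (2 : ℝ≥0∞) = ENNReal.ofReal 2 by simp]
      exact ENNReal.ofReal_le_ofReal (by linarith [Real.add_one_le_exp (2 * r0)])
    have b4 : ‖w‖ ^ 2 ≤ B ^ 2 := pow_le_pow_left₀ (norm_nonneg _) hw 2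
    have b5 : (2 * r0 * lam) ^ 2 * ‖w‖ ^ 2 ≤ (2 * r0 * lam) ^ 2 * B ^ 2 :=
      mul_le_mul_of_nonneg_left b4 (sq_nonneg _)
    calc _ ≤ (eE (2 * r0) * eE ((2 * r0 * lam) ^ 2 * B ^ 2 / 2)) ^ (1 / 2 : ℝ) := by
          refine ENNReal.rpow_le_rpow (b2.trans (mul_le_mul' b3 (eE_mono ?_))) (by norm_num)
          linarith
      _ = _ := by
          rw [← eE_add, eE_rpow _ _ (by norm_num)]
          congr 1
          ring
  have a2 : (∫⁻ ω, (V ω ^ r0) ^ (2 : ℝ) ∂gm) ^ (1 / 2 : ℝ) ≤ ENNReal.ofReal v' ^ r0 := by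
    have b1 : ∀ ω : Om, (V ω ^ r0) ^ (2 : ℝ) = V ω ^ (2 * r0) := by
      intro ω
      rw [← ENNReal.rpow_mul, mul_comm]
    simp_rw [b1]
    calc _ ≤ (ENNReal.ofReal v' ^ (2 * r0)) ^ (1 / 2 : ℝ) :=
          ENNReal.rpow_le_rpow hint (by norm_num)
      _ = _ := by
          rw [← ENNReal.rpow_mul]
          congr 1
          ring
  calc ∫⁻ ω, (ind (0 < y + ω w + c) * V ω) ^ r0 ∂gm
      ≤ ∫⁻ ω, eE (r0 * (γ * y - κ * |y| + lam * |c|)) *
          (eE (r0 * (lam * |ω w|)) * V ω ^ r0) ∂gm := by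
        refine lintegral_mono fun ω => ?_
        rw [← mul_assoc, ← eE_rpow _ _ hr0, ← eE_rpow _ _ hr0, ← ENNReal.mul_rpow_of_nonneg _ _ hr0,
          ← ENNReal.mul_rpow_of_nonneg _ _ hr0]
        exact ENNReal.rpow_le_rpow (mul_le_mul_left (ind_le γ κ y (ω w) c hκγ) _) hr0
    _ ≤ eE (r0 * (γ * y - κ * |y| + lam * |c|)) *
          (eE (r0 * (1 + r0 * lam ^ 2 * B ^ 2)) * ENNReal.ofReal v' ^ r0) := by
        rw [lintegral_const_mul' _ _ (eE_ne _)]
        exact mul_le_mul_right (hcs.trans (mul_le_mul' a1 a2)) _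
    _ = _ := by
        rw [← mul_assoc, ← eE_rpow _ _ hr0, ← eE_rpow _ _ hr0, ← ENNReal.mul_rpow_of_nonneg _ _ hr0,
          ← ENNReal.mul_rpow_of_nonneg _ _ hr0, ← eE_add, eE,
          ← ENNReal.ofReal_mul (Real.exp_pos _).le, mul_right_comm _ v', ← Real.exp_add]
        congr 4
        ring

theorem item4 (hM : St_MOD) (hFE : St_FE) (hG : St_GEO1) :
    ∃ B : ℝ, ∀ γ (M : Model) (i0 : ℕ) (R : Dy), M.Ok i0 → i0 + 2 ≤ R.length →
    closedBall (ctr R) (4 * side R) ⊆ M.O ∧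
    (∀ u ω, M.YV γ u R ω = M.rad γ u R (R.length - 2) ω) ∧
    (∀ S u ω, M.X γ u ω (S ++ R) = M.YV γ u R ω + ω (M.eS (S ++ R) - M.eC (ctr R) (4 * side R))
      - QQ γ * (S.length + 2) * l2) ∧
    ‖M.eS R - M.eC (ctr R) (4 * side R)‖ ≤ B ∧
    ∀ S (i : ℕ), i + 2 ≤ R.length →
      ⟪M.eS (S ++ R) - M.eC (ctr R) (4 * side R), M.eC (ctr R) ((1 / 2 : ℝ) ^ i)⟫ = 0 := by
  refine ⟨Real.sqrt (2 * l2 + kS [] []), fun γ M i0 R hOk hR => ?_⟩
  obtain ⟨-, -, -, -, -, -, -, -, -, h10, -, h12, -⟩ := hM M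
  obtain ⟨k, hk⟩ : ∃ k, R.length = k + 2 := ⟨R.length - 2, by omega⟩
  have h4 := side4 hk
  have hs := (hG.1 R).1
  have hc : ctr R ∈ box [] :=
    (hG.2.2.2.2.1 R []).2 List.nil_suffix (hG.2.2.2.1 R).2.2.1
  have hsub : closedBall (ctr R) (4 * side R) ⊆ M.O := by
    rw [h4]
    exact (closedBall_subset_closedBall
      (pow_le_pow_of_le_one (by norm_num) (by norm_num) (by omega))).trans (hOk.1 _ hc)
  have hbox : box R ⊆ closedBall (ctr R) (4 * side R) := by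
    intro y hy
    have := (hG.2.2.2.1 R).2.2.2.1 y hy
    rw [mem_closedBall, dist_eq_norm]
    linarith
  have hlog : Real.log (4 * side R) = -(k * l2) := by
    rw [h4, Real.log_pow, one_div, Real.log_inv, l2]
    ring
  refine ⟨hsub, fun u ω => ?_, fun S u ω => ?_, ?_, fun S i hi => ?_⟩
  · rw [Model.YV, Model.rad, h4, hk, Nat.add_sub_cancel]
  · simp only [Model.X, drift, Model.YV, Model.Y, hlog, map_sub, List.length_append, hk]
    push_cast
    ring
  · have h := h12 (ctr R) (4 * side R) R (by positivity) hbox [] []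
    simp only [List.nil_append, real_inner_self_eq_norm_sq, covE, hlog, hk] at h
    refine Real.le_sqrt_of_sq_le (le_of_eq ?_)
    rw [h]
    push_cast
    ring
  · have hu := hFE.2.2.2.2.2.2.2.1 (S ++ R)
    refine h10 (ctr R) (4 * side R) _ (unif (S ++ R)) (by positivity) ?_ hu.1 ?_ hsub
    · rw [h4]
      exact pow_le_pow_of_le_one (by norm_num) (by norm_num) (by omega)
    · refine measure_mono_null (compl_subset_compl.2 ?_) hu.2
      exact ((hG.2.2.2.2.1 _ _).2 (List.suffix_append S R)).trans hbox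

end TL

open TL in
theorem blk_TL (h1 : St_G1) (h1D : St_G1D) (h2 : St_G2) (h3 : St_G3) (hM : St_MOD) (hFE : St_FE)
    (_hE1 : St_EXP1) (_hE2 : St_EXP2) (hG : St_GEO1) (hT1 : St_T1) (hT3 : St_T3) (hR : St_RW1) :
    St_TL := by
  obtain ⟨B0, hB0⟩ := item4 hM hFE hG
  refine ⟨?_, item2 hM, item3 h1D, ⟨B0, hB0⟩, ?_⟩
  · intro γ hγ M i0 κ r0 v u Γ Θ b hOk hr hv hΓ hΘ hb
    obtain ⟨-, -, -, -, hγQ, -⟩ := hR.2.2 γ hγ
    set u1 := u + γ * M.C0 - aa γ * i0 * l2 with hu1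
    set J : ℕ → ℝ≥0∞ := fun k => ∫⁻ ω, eE (-κ * |wk (aa γ) b u1 ω k|) *
      Θ k (wk (aa γ) b u1 ω) ∂gm with hJ
    set A := v * Real.exp (γ * u + γ ^ 2 * M.C0 / 2) with hA
    have hone : ∀ (R : Dy) (k : ℕ), R.length = i0 + k + 2 →
        ∫⁻ ω, Γ R (M.YV γ u R ω, ω) * Θ k (M.rw γ u i0 R ω) ∂gm ≤
          ENNReal.ofReal (A * Real.exp (-2 * ((i0 + k : ℕ) : ℝ) * l2)) * J k := by
      intro R k hk
      obtain ⟨-, hY, -⟩ := hB0 γ M i0 R hOk (by omega)
      have hc : ctr R ∈ box [] :=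
        (hG.2.2.2.2.1 R []).2 List.nil_suffix (hG.2.2.2.1 R).2.2.1
      have hβ := item2 hM M i0 hOk (ctr R) hc
      set β : ℕ → HH := fun j => M.eC (ctr R) ((1 / 2 : ℝ) ^ (i0 + j)) with hβd
      set u0 := u - QQ γ * i0 * l2 with hu0
      have hrw : ∀ ω, M.rw γ u i0 R ω = wk (QQ γ) β u0 ω := by
        intro ω
        funext j
        simp only [Model.rw, Model.rad, Model.Y, wk, hβd, hu0, Real.log_pow, one_div,
          Real.log_inv, l2]
        push_cast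
        ring
      have hYY : ∀ ω, M.YV γ u R ω = wk (QQ γ) β u0 ω k := by
        intro ω
        rw [hY, show R.length - 2 = i0 + k by omega, ← hrw]
        rfl
      simp_rw [hrw, hYY]
      refine (mix h1 h2 (QQ γ) u0 r0 k β Θ (Γ R)
        (fun y => ENNReal.ofReal (v * Real.exp (γ * y - κ * |y|))) hr hΘ (hΓ.meas R)
        (fun y j hj => hΓ.inv R y (i0 + j) (by omega) (by omega)) (hΓ.bd R)).trans (le_of_eq ?_)
      have e : ∀ ω : Om, ENNReal.ofReal (v * Real.exp (γ * wk (QQ γ) β u0 ω k -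
          κ * |wk (QQ γ) β u0 ω k|)) * Θ k (wk (QQ γ) β u0 ω) = ENNReal.ofReal v *
          (eE (γ * wk (QQ γ) β u0 ω k - κ * |wk (QQ γ) β u0 ω k|) * Θ k (wk (QQ γ) β u0 ω)) := by
        intro ω
        rw [ENNReal.ofReal_mul hv, mul_assoc, eE]
      simp_rw [e]
      rw [lintegral_const_mul' _ _ ENNReal.ofReal_ne_top,
        tilt h2 h3 γ κ (QQ γ) (aa γ) (M.C0 + i0 * l2) u0 u1 k β b Θ hβ hb hΘ rfl
          (by rw [hu1, hu0, aa]; ring), ← mul_assoc, eE, ← ENNReal.ofReal_mul hv, hA, mul_assoc v,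
        ← Real.exp_add]
      congr 4
      have e : γ * (u0 - QQ γ * k * l2) = γ * u - (2 + γ ^ 2 / 2) * (i0 + k) * l2 := by
        rw [hu0, ← hγQ]; ring
      rw [e]
      push_cast
      ring
    calc M.RS γ u i0 Γ (fun R ω => Θ (R.length - (i0 + 2)) (M.rw γ u i0 R ω))
        ≤ ∑' R : Dy, ∑' k : ℕ, ind (R.length = i0 + k + 2) *
            (ENNReal.ofReal (A * Real.exp (-2 * ((i0 + k : ℕ) : ℝ) * l2)) * J k) := by
          refine ENNReal.tsum_le_tsum fun R => ?_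
          by_cases hR4 : i0 + 4 ≤ R.length
          · refine le_trans ?_ (ENNReal.le_tsum (R.length - (i0 + 2)))
            have e : R.length = i0 + (R.length - (i0 + 2)) + 2 := by omega
            have i1 : ind (i0 + 4 ≤ R.length) = 1 := by simp [ind, hR4]
            have i2 : ind (R.length = i0 + (R.length - (i0 + 2)) + 2) = 1 := by
              rw [ind, if_pos e]
            rw [i1, i2, one_mul, one_mul]
            exact hone R _ e
          · simp [ind, hR4]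
      _ = ∑' k : ℕ, ENNReal.ofReal (16 * A) * J k := by
          rw [ENNReal.tsum_comm]
          refine tsum_congr fun k => ?_
          rw [ENNReal.tsum_mul_right, count hT1, ← mul_assoc, four]
      _ = _ := by
          rw [ENNReal.tsum_mul_left, hA, mul_assoc 16]
  · intro γ _ κ r0 c hκγ hr
    have := h1.1
    obtain ⟨K, hK, hKb⟩ := item3 h1D γ κ r0 B0 (c - QQ γ * 2 * l2) hκγ hr
    refine ⟨K, hK, fun M i0 hOk => ?_⟩
    refine ⟨fun R p => if i0 + 2 ≤ R.length then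
      ind (0 < p.1 + p.2 (M.eS R - M.eC (ctr R) (4 * side R)) + (c - QQ γ * 2 * l2)) else 0,
      ⟨fun R => ?_, fun R y i hi hiR s ω => ?_, fun R y => ?_⟩, fun R u ω hR2 => ?_⟩
    · by_cases hR2 : i0 + 2 ≤ R.length
      · simp only [if_pos hR2]
        refine (hT3.2.2.2.2.2.2.2.2.2.2.2.1 (ℝ × Om) _ ?_).1
        exact measurableSet_lt measurable_const
          ((measurable_fst.add ((meas_ev _).comp measurable_snd)).add_const _)
      · simp only [if_neg hR2]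
        exact measurable_const
    · have hR2 : i0 + 2 ≤ R.length := by omega
      have h0 := (hB0 γ M i0 R hOk hR2).2.2.2.2 [] i hiR
      rw [List.nil_append, real_inner_comm] at h0
      simp only [if_pos hR2, LinearMap.add_apply, LinearMap.smul_apply, dv_apply, h0, smul_zero,
        add_zero]
    · by_cases hR2 : i0 + 2 ≤ R.length
      · have := hKb _ (fun _ => 1) 1 (hB0 γ M i0 R hOk hR2).2.2.2.1 measurable_const zero_le_one
          (by simp) y
        simpa only [if_pos hR2, mul_one] using this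
      · simp only [if_neg hR2]
        rw [ENNReal.zero_rpow_of_pos (by linarith)]
        simp
    · have e := (hB0 γ M i0 R hOk hR2).2.2.1 [] u ω
      rw [List.nil_append] at e
      simp only [if_pos hR2, e, List.length_nil, Nat.cast_zero, zero_add]
      congr 2
      ring

end

end Pool.Agent.Lib.APPS
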