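import Pool.Agent.Lib.APPS.Blue2

/-!
Block TLD: rooted tilting with an extra bounded drift.
-/

namespace Pool.Agent.Lib.APPS

open MeasureTheory ProbabilityTheory Filter Topology Set Metric
open scoped NNReal ENNReal RealInnerProductSpace

noncomputable section

theorem tld_eE_add (s t : ℝ) : eE (s + t) = eE s * eE t := by
  rw [eE, eE, eE, Real.exp_add, ENNReal.ofReal_mul (Real.exp_pos _).le]

theorem tld_eE_mono {s t : ℝ} (h : s ≤ t) : eE s ≤ eE t :=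
  ENNReal.ofReal_le_ofReal (Real.exp_le_exp.2 h)

theorem tld_eE_ne (t : ℝ) : eE t ≠ ∞ := ENNReal.ofReal_ne_top

theorem tld_eE_meas : Measurable eE := Real.measurable_exp.ennreal_ofReal

theorem tld_count (hT1 : St_T1) (n : ℕ) : ∑' R : Dy, ind (R.length = n) = 4 ^ n := by
  rw [tsum_eq_sum (s := lev n)]
  · rw [Finset.sum_congr rfl (g := fun _ => (1 : ℝ≥0∞))]
    · simp [hT1.2.1 n]
    · intro R hR
      simp [ind, (hT1.1 n R).1 hR]
  · intro R hR
    have : ¬R.length = n := fun h => hR ((hT1.1 n R).2 h)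
    simp [ind, this]

theorem tld_four (m : ℕ) (A : ℝ) :
    (4 : ℝ≥0∞) ^ (m + 2) * ENNReal.ofReal (A * Real.exp (-2 * m * l2)) =
      ENNReal.ofReal (16 * A) := by
  have h4 : (4 : ℝ≥0∞) ^ (m + 2) = ENNReal.ofReal (4 ^ (m + 2)) := by
    rw [ENNReal.ofReal_pow (by norm_num)]; simp
  rw [h4, ← ENNReal.ofReal_mul (by positivity)]
  congr 1
  have e : Real.exp (-2 * m * l2) * 4 ^ m = 1 := by
    have h2 : (4 : ℝ) = Real.exp (2 * l2) := by
      rw [l2, show (2 : ℝ) * Real.log 2 = Real.log 2 + Real.log 2 by ring, Real.exp_add,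
        Real.exp_log (by norm_num)]
      norm_num
    rw [h2, ← Real.exp_nat_mul, ← Real.exp_add]
    rw [show -2 * (m : ℝ) * l2 + m * (2 * l2) = 0 by ring, Real.exp_zero]
  rw [pow_add]
  linear_combination (16 * A) * e

theorem tld_ind (γ κ Y x c : ℝ) (hκ : 0 < κ) (hκγ : κ ≤ γ) (hc : 0 ≤ c) :
    ind (0 < Y + x - c) ≤
      eE (γ * Y - κ * |Y| + (γ + κ) * x) + eE (γ * Y - κ * |Y| + (γ - κ) * x) := by
  by_cases h : 0 < Y + x - c
  · have h1 : ind (0 < Y + x - c) = eE 0 := by simp [ind, h, eE]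
    rw [h1]
    rcases le_total 0 x with hx | hx
    · refine le_trans (tld_eE_mono ?_) le_self_add
      rcases le_total 0 Y with hY | hY
      · rw [abs_of_nonneg hY]; nlinarith
      · rw [abs_of_nonpos hY]; nlinarith
    · refine le_trans (tld_eE_mono ?_) le_add_self
      have hY : 0 ≤ Y := by linarith
      rw [abs_of_nonneg hY]; nlinarith
  · simp [ind, h]

/-- one tilt -/
theorem tld_tilt (h2 : St_G2) (h3 : St_G3) (γ κ B B0 μ Q a s u0 u1 : ℝ) (k : ℕ)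
    (β b : ℕ → HH) (ξ d : HH) (Θ Θb : ℕ → (ℕ → ℝ) → ℝ≥0∞) (hγ : 0 < γ) (hκ : 0 < κ)
    (hβ : IsWk β s) (hb : IsWk b s) (hΘ : DepLe Θ) (hΘb : ∀ k, Measurable (Θb k))
    (hd : ‖d‖ ≤ B) (hdβ : ∀ j ≤ k, |⟪d, β j⟫| ≤ B) (hξ : ‖ξ‖ ≤ B0)
    (hξβ : ∀ j ≤ k, ⟪ξ, β j⟫ = 0) (hμ : |μ| ≤ 2 * γ) (ha : a = Q - γ) (hu : u1 = u0 + γ * s)
    (hle : ∀ k w s, (∀ j, |s j| ≤ B) → Θ k (w + s) ≤ Θb k w) :
    ∫⁻ ω, eE (γ * wk Q β u0 ω k - κ * |wk Q β u0 ω k| + μ * ω ξ) * eE (ω d) *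
        Θ k (wk Q β u0 ω) ∂gm ≤
      eE (γ * (u0 - Q * k * l2) + γ ^ 2 * (s + k * l2) / 2 + γ * B + (2 * γ * B0 + B) ^ 2 / 2 +
        κ * B) * ∫⁻ ω, eE (-κ * |wk a b u1 ω k|) * Θb k (wk a b u1 ω) ∂gm := by
  have hB : 0 ≤ B := (norm_nonneg _).trans hd
  have hB0 : 0 ≤ B0 := (norm_nonneg _).trans hξ
  set h : HH := γ • β k + (μ • ξ + d) with hh
  have hmw : ∀ (a : ℝ) (β : ℕ → HH) (u : ℝ), Measurable fun ω : Om => wk a β u ω := fun a β u =>
    measurable_pi_lambda _ fun j => ((meas_ev _).add_const _).sub_const _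
  let f : Om → ℝ≥0∞ := fun ω => eE (-κ * |wk Q β u0 ω k|) * Θ k (wk Q β u0 ω)
  have hf : Measurable f :=
    (tld_eE_meas.comp ((((measurable_pi_apply k).comp (hmw Q β u0)).abs).const_mul _)).mul
      ((hΘ.1 k).comp (hmw Q β u0))
  have hcm := h2.2.1 h f hf
  have e1 : ∀ ω : Om, eE (γ * wk Q β u0 ω k - κ * |wk Q β u0 ω k| + μ * ω ξ) * eE (ω d) *
      Θ k (wk Q β u0 ω) =
      eE (γ * (u0 - Q * k * l2) + ‖h‖ ^ 2 / 2) * (f ω * eE (ω h - ‖h‖ ^ 2 / 2)) := by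
    intro ω
    have a1 : ω h = γ * ω (β k) + (μ * ω ξ + ω d) := by
      rw [hh, map_add, map_add, map_smul, map_smul, smul_eq_mul, smul_eq_mul]
    simp only [f]
    rw [mul_right_comm (eE (-κ * |wk Q β u0 ω k|)), ← mul_assoc, ← tld_eE_add, ← tld_eE_add,
      ← tld_eE_add, a1]
    congr 2
    simp only [wk]
    ring
  have hn : ‖h‖ ^ 2 ≤ γ ^ 2 * (s + k * l2) + 2 * γ * B + (2 * γ * B0 + B) ^ 2 := by
    rw [hh, norm_add_sq_real]
    have b1 : ‖γ • β k‖ ^ 2 = γ ^ 2 * (s + k * l2) := by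
      rw [norm_smul, mul_pow, Real.norm_eq_abs, sq_abs, ← real_inner_self_eq_norm_sq, hβ k k]
      simp
    have b2 : ⟪γ • β k, μ • ξ + d⟫ ≤ γ * B := by
      rw [real_inner_smul_left, inner_add_right, real_inner_smul_right, real_inner_comm ξ,
        real_inner_comm d, hξβ k le_rfl, mul_zero, zero_add]
      exact mul_le_mul_of_nonneg_left (le_of_abs_le (hdβ k le_rfl)) hγ.le
    have b3 : ‖μ • ξ + d‖ ≤ 2 * γ * B0 + B := by
      refine (norm_add_le _ _).trans (add_le_add ?_ hd)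
      rw [norm_smul, Real.norm_eq_abs]
      exact mul_le_mul hμ hξ (norm_nonneg _) (by positivity)
    have b4 : ‖μ • ξ + d‖ ^ 2 ≤ (2 * γ * B0 + B) ^ 2 := pow_le_pow_left₀ (norm_nonneg _) b3 2
    linarith
  let sj : ℕ → ℝ := fun j => if j ≤ k then ⟪d, β j⟫ else 0
  have hsj : ∀ j, |sj j| ≤ B := by
    intro j
    by_cases hj : j ≤ k
    · simp only [sj, if_pos hj]; exact hdβ j hj
    · simp only [sj, if_neg hj]; simpa using hB
  have hsh : ∀ (ω : Om), ∀ j ≤ k, wk Q β u0 (ω + dv h) j = (wk a β u1 ω + sj) j := by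
    intro ω j hj
    have c1 : ⟪h, β j⟫ = γ * (s + j * l2) + ⟪d, β j⟫ := by
      rw [hh, inner_add_left, inner_add_left, real_inner_smul_left, real_inner_smul_left,
        hξβ j hj, hβ k j]
      simp only [min_eq_right hj]
      ring
    simp only [wk, Pi.add_apply, LinearMap.add_apply, dv_apply, c1, sj, if_pos hj, ha, hu]
    ring
  have e2 : ∀ ω : Om, f (ω + dv h) ≤
      eE (κ * B) * (eE (-κ * |wk a β u1 ω k|) * Θb k (wk a β u1 ω)) := by
    intro ω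
    simp only [f]
    rw [hΘ.2 k _ _ (hsh ω), hsh ω k le_rfl, ← mul_assoc, ← tld_eE_add]
    refine mul_le_mul' (tld_eE_mono ?_) (hle k _ _ hsj)
    have c2 : |wk a β u1 ω k| ≤ |(wk a β u1 ω + sj) k| + B := by
      have := abs_sub (wk a β u1 ω k + sj k) (sj k)
      rw [add_sub_cancel_right] at this
      have := hsj k
      simp only [Pi.add_apply]
      linarith
    nlinarith
  let g : (ℕ → ℝ) → ℝ≥0∞ := fun x =>
    eE (-κ * |x k + u1 - a * k * l2|) * Θb k fun j => x j + u1 - a * j * l2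
  have hg : Measurable g := by
    have m1 : Measurable fun x : ℕ → ℝ => -κ * |x k + u1 - a * k * l2| := by fun_prop
    have m2 : Measurable fun (x : ℕ → ℝ) (j : ℕ) => x j + u1 - a * j * l2 := by fun_prop
    exact (tld_eE_meas.comp m1).mul ((hΘb k).comp m2)
  have hm : ∀ z : ℕ → HH, Measurable fun (ω : Om) t => ω (z t) := fun z =>
    measurable_pi_lambda _ fun t => meas_ev _
  have hlaw := h3.2.2.1 ℕ β b fun i j => by rw [hβ i j, hb i j]
  have e3 : ∫⁻ ω, eE (-κ * |wk a β u1 ω k|) * Θb k (wk a β u1 ω) ∂gm =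
      ∫⁻ ω, eE (-κ * |wk a b u1 ω k|) * Θb k (wk a b u1 ω) ∂gm := by
    change ∫⁻ ω, g (fun t => ω (β t)) ∂gm = ∫⁻ ω, g (fun t => ω (b t)) ∂gm
    rw [← lintegral_map hg (hm β), ← lintegral_map hg (hm b), hlaw]
  simp_rw [e1]
  rw [lintegral_const_mul' _ _ (tld_eE_ne _), ← hcm, ← e3]
  calc eE (γ * (u0 - Q * k * l2) + ‖h‖ ^ 2 / 2) * ∫⁻ ω, f (ω + dv h) ∂gm
      ≤ eE (γ * (u0 - Q * k * l2) + γ ^ 2 * (s + k * l2) / 2 + γ * B +
          (2 * γ * B0 + B) ^ 2 / 2) *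
        ∫⁻ ω, eE (κ * B) * (eE (-κ * |wk a β u1 ω k|) * Θb k (wk a β u1 ω)) ∂gm :=
        mul_le_mul' (tld_eE_mono (by linarith)) (lintegral_mono e2)
    _ = _ := by
        rw [lintegral_const_mul' _ _ (tld_eE_ne _), ← mul_assoc, ← tld_eE_add]

theorem blk_TLD (_h1 : St_G1) (_h1D : St_G1D) (h2 : St_G2) (h3 : St_G3) (_hM : St_MOD)
    (hG : St_GEO1) (hT1 : St_T1) (_hT3 : St_T3) (hR : St_RW1) (hTL : St_TL) : St_TLD := by
  intro γ hγ κ B C1 hκ hκγ
  obtain ⟨B0, hB0⟩ := hTL.2.2.2.1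
  obtain ⟨-, hQ2, -, -, hγQ, -⟩ := hR.2.2 γ hγ
  have hγ0 : 0 < γ := hγ.1
  have hl2 : 0 < l2 := Real.log_pos (by norm_num)
  set K0 := γ ^ 2 * C1 / 2 + γ * B + (2 * γ * B0 + B) ^ 2 / 2 + κ * B with hK0
  refine ⟨16 * (2 * Real.exp K0), fun M i0 u d Θ Θb b hOk hC hb hΘ hΘb hd hle => ?_⟩
  set u1 := u + γ * M.C0 - aa γ * i0 * l2 with hu1
  set J : ℕ → ℝ≥0∞ := fun k => ∫⁻ ω, eE (-κ * |wk (aa γ) b u1 ω k|) *
    Θb k (wk (aa γ) b u1 ω) ∂gm with hJ
  set A := 2 * Real.exp K0 * Real.exp (γ * u) with hA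
  have hone : ∀ (R : Dy) (k : ℕ), R.length = i0 + k + 2 → 2 ≤ k →
      ∫⁻ ω, ind (0 < M.X γ u ω R) * eE (ω (d R)) * Θ k (M.rw γ u i0 R ω) ∂gm ≤
        ENNReal.ofReal (A * Real.exp (-2 * ((i0 + k : ℕ) : ℝ) * l2)) * J k := by
    intro R k hk hk2
    obtain ⟨-, hY, hX, hξ, hξβ⟩ := hB0 γ M i0 R hOk (by omega)
    obtain ⟨hd1, hd2⟩ := hd R (by omega)
    have hc : ctr R ∈ box [] :=
      (hG.2.2.2.2.1 R []).2 List.nil_suffix (hG.2.2.2.1 R).2.2.1
    have hβ := hTL.2.1 M i0 hOk (ctr R) hc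
    set β : ℕ → HH := fun j => M.eC (ctr R) ((1 / 2 : ℝ) ^ (i0 + j)) with hβd
    set ξ : HH := M.eS R - M.eC (ctr R) (4 * side R) with hξd
    set u0 := u - QQ γ * i0 * l2 with hu0
    have hrw : ∀ ω, M.rw γ u i0 R ω = wk (QQ γ) β u0 ω := by
      intro ω
      funext j
      simp only [Model.rw, Model.rad, Model.Y, wk, hβd, hu0, Real.log_pow, one_div,
        Real.log_inv, l2]
      push_cast
      ring
    have hXX : ∀ ω, M.X γ u ω R = wk (QQ γ) β u0 ω k + ω ξ - QQ γ * 2 * l2 := by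
      intro ω
      have e := hX [] u ω
      rw [List.nil_append, hY, show R.length - 2 = i0 + k by omega] at e
      rw [e, ← hrw]
      simp [Model.rw, hξd]
    have hT : ∀ μ : ℝ, |μ| ≤ 2 * γ →
        ∫⁻ ω, eE (γ * wk (QQ γ) β u0 ω k - κ * |wk (QQ γ) β u0 ω k| + μ * ω ξ) * eE (ω (d R)) *
          Θ k (wk (QQ γ) β u0 ω) ∂gm ≤
        eE (K0 + γ * u + -2 * ((i0 + k : ℕ) : ℝ) * l2) * J k := by
      intro μ hμ
      have := tld_tilt h2 h3 γ κ B B0 μ (QQ γ) (aa γ) (M.C0 + i0 * l2) u0 u1 k β b ξ (d R) Θ Θb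
        hγ0 hκ hβ hb hΘ hΘb hd1 (fun j hj => hd2 (i0 + j) (by omega) (by omega)) hξ
        (fun j hj => hξβ [] (i0 + j) (by omega)) hμ rfl
        (by rw [hu1, hu0, aa]; ring) hle
      refine this.trans (mul_le_mul_left (tld_eE_mono ?_) _)
      have e : γ * (u0 - QQ γ * k * l2) = γ * u - (2 + γ ^ 2 / 2) * (i0 + k) * l2 := by
        rw [hu0, ← hγQ]; ring
      have e' : γ ^ 2 * M.C0 ≤ γ ^ 2 * C1 := mul_le_mul_of_nonneg_left hC (sq_nonneg _)
      rw [e, hK0]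
      push_cast
      nlinarith
    have hmw : Measurable fun ω : Om => wk (QQ γ) β u0 ω :=
      measurable_pi_lambda _ fun j => ((meas_ev _).add_const _).sub_const _
    have hmk : Measurable fun ω : Om => wk (QQ γ) β u0 ω k := (measurable_pi_apply k).comp hmw
    have hm1 : Measurable fun ω : Om =>
        eE (γ * wk (QQ γ) β u0 ω k - κ * |wk (QQ γ) β u0 ω k| + (γ + κ) * ω ξ) * eE (ω (d R)) *
          Θ k (wk (QQ γ) β u0 ω) :=
      ((tld_eE_meas.comp (((hmk.const_mul _).sub (hmk.abs.const_mul _)).add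
        ((meas_ev _).const_mul _))).mul (tld_eE_meas.comp (meas_ev _))).mul ((hΘ.1 k).comp hmw)
    calc ∫⁻ ω, ind (0 < M.X γ u ω R) * eE (ω (d R)) * Θ k (M.rw γ u i0 R ω) ∂gm
        ≤ ∫⁻ ω, (eE (γ * wk (QQ γ) β u0 ω k - κ * |wk (QQ γ) β u0 ω k| + (γ + κ) * ω ξ) *
            eE (ω (d R)) * Θ k (wk (QQ γ) β u0 ω) +
          eE (γ * wk (QQ γ) β u0 ω k - κ * |wk (QQ γ) β u0 ω k| + (γ - κ) * ω ξ) *
            eE (ω (d R)) * Θ k (wk (QQ γ) β u0 ω)) ∂gm := by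
          refine lintegral_mono fun ω => ?_
          simp only
          rw [hrw, hXX, ← add_mul, ← add_mul]
          exact mul_le_mul_left (mul_le_mul_left
            (tld_ind γ κ _ _ _ hκ hκγ (by positivity)) _) _
      _ ≤ eE (K0 + γ * u + -2 * ((i0 + k : ℕ) : ℝ) * l2) * J k +
          eE (K0 + γ * u + -2 * ((i0 + k : ℕ) : ℝ) * l2) * J k := by
          rw [lintegral_add_left hm1]
          exact add_le_add (hT _ (by rw [abs_of_nonneg (by linarith)]; linarith))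
            (hT _ (by rw [abs_of_nonneg (by linarith)]; linarith))
      _ = _ := by
          rw [← add_mul, eE, ← ENNReal.ofReal_add (Real.exp_pos _).le (Real.exp_pos _).le,
            Real.exp_add, Real.exp_add, hA]
          congr 2
          ring
  calc ∑' R : Dy, ind (i0 + 4 ≤ R.length) * ∫⁻ ω, ind (0 < M.X γ u ω R) * eE (ω (d R)) *
        Θ (R.length - (i0 + 2)) (M.rw γ u i0 R ω) ∂gm
      ≤ ∑' R : Dy, ∑' k : ℕ, ind (R.length = i0 + k + 2) *
          (ENNReal.ofReal (A * Real.exp (-2 * ((i0 + k : ℕ) : ℝ) * l2)) * J k) := by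
        refine ENNReal.tsum_le_tsum fun R => ?_
        by_cases hR4 : i0 + 4 ≤ R.length
        · refine le_trans ?_ (ENNReal.le_tsum (R.length - (i0 + 2)))
          have e : R.length = i0 + (R.length - (i0 + 2)) + 2 := by omega
          have i1 : ind (i0 + 4 ≤ R.length) = 1 := by simp [ind, hR4]
          have i2 : ind (R.length = i0 + (R.length - (i0 + 2)) + 2) = 1 := by
            rw [ind, if_pos e]
          rw [i1, i2, one_mul, one_mul]
          exact hone R _ e (by omega)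
        · simp [ind, hR4]
    _ = ∑' k : ℕ, ENNReal.ofReal (16 * A) * J k := by
        rw [ENNReal.tsum_comm]
        refine tsum_congr fun k => ?_
        rw [ENNReal.tsum_mul_right, tld_count hT1, ← mul_assoc, tld_four]
    _ = _ := by
        rw [ENNReal.tsum_mul_left, hA, mul_assoc 16]

end

end Pool.Agent.Lib.APPS
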