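import Pool.Agent.Lib.APPS.B_Ua

/-!
Block U: unfolding along the global shift.
-/

namespace Pool.Agent.Lib.APPS

open MeasureTheory ProbabilityTheory Filter Topology Set Metric
open scoped NNReal ENNReal RealInnerProductSpace Classical

noncomputable section

namespace U

theorem sum_le_uniq {α : Type*} (s : Finset α) (f : α → ℝ≥0∞) (b : ℝ≥0∞) (h1 : ∀ a ∈ s, f a ≤ b)
    (h2 : ∀ a ∈ s, ∀ a' ∈ s, f a ≠ 0 → f a' ≠ 0 → a = a') : ∑ a ∈ s, f a ≤ b := by
  by_cases h : ∃ a ∈ s, f a ≠ 0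
  · obtain ⟨a, ha, h0⟩ := h
    rw [Finset.sum_eq_single_of_mem a ha fun a' ha' hne =>
      by_contra fun e => hne (h2 a' ha' a ha e h0)]
    exact h1 a ha
  · push Not at h
    rw [Finset.sum_eq_zero h]
    exact zero_le

theorem ind_mul_ne {p : Prop} {y : ℝ≥0∞} (h : ind p * y ≠ 0) : p :=
  by_contra fun e => h (by rw [ind_neg e, zero_mul])

structure Geo (M : Model) (T : Finset Dy) (ρ : ℝ) : Prop where
  pos : 0 < ρ
  bb0 : 0 < bb
  h1 : ∀ P ∈ two T, ∀ A ∈ T, ⟪M.vp T P, M.eS A⟫ = 0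
  h2 : ∀ P ∈ two T, ∀ P' ∈ two T, ⟪M.vp T P, M.eS (l1 T P')⟫ = (if P = P' then bb else 0) ∧
      ⟪M.vp T P, M.eS (l2' T P')⟫ = (if P = P' then -bb else 0) ∧
      ⟪M.vp T P, M.vp T P'⟫ = if P = P' then ρ ^ 2 else 0
  h3 : ∀ P ∈ two T, ∀ S ∈ lvs T, S ≠ l1 T P → S ≠ l2' T P → ⟪M.vp T P, M.eS S⟫ = 0
  lf : ∀ P ∈ two T, l1 T P ∈ lvs T ∧ l2' T P ∈ lvs T
  ht : ∀ x, HasTr x T ↔ (∀ A ∈ T, 0 < x A) ∧ ∀ S ∈ lvs T, x S ≤ 0

def av (M : Model) (T : Finset Dy) (ρ : ℝ) (G : Finset Dy) (i : G) : HH := ρ⁻¹ • M.vp T i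

def zz (M : Model) (T : Finset Dy) (ρ : ℝ) (P : Dy) (ω : Om) : ℝ := ω (M.vp T P) / ρ

def hi (γ : ℝ) (M : Model) (T : Finset Dy) (ρ : ℝ) (P : Dy) (ω : Om) : ℝ :=
  zz M T ρ P ω - ρ / bb * M.X γ 0 ω (l1 T P)

def lo (γ : ℝ) (M : Model) (T : Finset Dy) (ρ : ℝ) (P : Dy) (ω : Om) : ℝ :=
  zz M T ρ P ω + ρ / bb * M.X γ 0 ω (l2' T P)

def sc (M : Model) (T : Finset Dy) (ρ : ℝ) (G : Finset Dy) (ω : Om) (ξ : G → ℝ) (P : Dy) : ℝ :=
  (if h : P ∈ G then ξ ⟨P, h⟩ - zz M T ρ P ω else 0) / ρ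

variable {γ : ℝ} {M : Model} {T : Finset Dy} {ρ : ℝ} {G : Finset Dy}

theorem av_on (g : Geo M T ρ) (hG : G ⊆ two T) : Orthonormal ℝ (av M T ρ G) := by
  rw [orthonormal_iff_ite]
  intro i j
  rw [av, av, real_inner_smul_left, real_inner_smul_right, (g.h2 _ (hG i.2) _ (hG j.2)).2.2]
  by_cases h : i = j
  · subst h
    have := g.pos.ne'
    simp only [if_true]
    field_simp
  · simp [h, Subtype.ext_iff.not.1 h]

theorem Rs_eq {F : Finset Dy} (hF : G ⊆ F) (ω : Om) (ξ : G → ℝ) :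
    Rs (av M T ρ G) ω ξ = ω + ∑ P ∈ F, sc M T ρ G ω ξ P • dv (M.vp T P) := by
  rw [Rs, ← Finset.sum_subset hF fun P _ hP => by simp [sc, hP], ← Finset.sum_coe_sort G]
  congr 1
  refine Finset.sum_congr rfl fun i _ => ?_
  simp only [av, sc, zz, dv, map_smul, smul_smul, i.2, dif_pos, smul_eq_mul]
  congr 1
  ring

theorem Rs_ev (ω : Om) (ξ : G → ℝ) (v : HH) :
    Rs (av M T ρ G) ω ξ v = ω v + ∑ P ∈ G, sc M T ρ G ω ξ P * ⟪M.vp T P, v⟫ := by
  rw [Rs_eq subset_rfl]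
  simp [LinearMap.sum_apply]

theorem X_ev (ω : Om) (ξ : G → ℝ) (A : Dy) : M.X γ 0 (Rs (av M T ρ G) ω ξ) A =
    M.X γ 0 ω A + ∑ P ∈ G, sc M T ρ G ω ξ P * ⟪M.vp T P, M.eS A⟫ := by
  simp only [Model.X, drift, Rs_ev]
  ring

theorem sum_sc (hG : G ⊆ two T) (ω : Om) (ξ : G → ℝ) (P : Dy) (v : HH) (c : ℝ)
    (h : ∀ P' ∈ two T, ⟪M.vp T P', v⟫ = if P' = P then c else 0) :
    ∑ P' ∈ G, sc M T ρ G ω ξ P' * ⟪M.vp T P', v⟫ = sc M T ρ G ω ξ P * c := by
  rw [Finset.sum_eq_single P]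
  · by_cases hP : P ∈ G
    · rw [h P (hG hP), if_pos rfl]
    · simp [sc, hP]
  · intro P' hP' hne
    rw [h P' (hG hP'), if_neg hne, mul_zero]
  · intro hP
    simp [sc, hP]

theorem inv_hi (g : Geo M T ρ) (hG : G ⊆ two T) (ω : Om) (ξ : G → ℝ) {P : Dy} (hP : P ∈ two T) :
    hi γ M T ρ P (Rs (av M T ρ G) ω ξ) = hi γ M T ρ P ω ∧
      lo γ M T ρ P (Rs (av M T ρ G) ω ξ) = lo γ M T ρ P ω := by
  have h1 := g.pos.ne'
  have h2 := g.bb0.ne'
  simp only [hi, lo, zz, X_ev, Rs_ev]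
  rw [sum_sc hG ω ξ P _ _ fun P' hP' => (g.h2 P' hP' P hP).1,
    sum_sc hG ω ξ P _ _ fun P' hP' => (g.h2 P' hP' P hP).2.1,
    sum_sc hG ω ξ P _ _ fun P' hP' => (g.h2 P' hP' P hP).2.2]
  constructor <;> field_simp <;> ring

theorem zz_Rs (g : Geo M T ρ) (hG : G ⊆ two T) (ω : Om) (ξ : G → ℝ) (i : G) :
    zz M T ρ i (Rs (av M T ρ G) ω ξ) = ξ i := by
  rw [← Rs_a (av_on g hG) ω ξ i, av, map_smul, zz, smul_eq_mul, div_eq_inv_mul]

theorem hi_eq (g : Geo M T ρ) (hG : G ⊆ two T) (ω : Om) (ξ : G → ℝ) (i : G) :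
    hi γ M T ρ i ω = ξ i - ρ / bb * M.X γ 0 (Rs (av M T ρ G) ω ξ) (l1 T i) ∧
      lo γ M T ρ i ω = ξ i + ρ / bb * M.X γ 0 (Rs (av M T ρ G) ω ξ) (l2' T i) := by
  rw [← (inv_hi g hG ω ξ (hG i.2)).1, ← (inv_hi g hG ω ξ (hG i.2)).2, hi, lo, zz_Rs g hG]
  exact ⟨rfl, rfl⟩

theorem box_eq (g : Geo M T ρ) (hG : G ⊆ two T) (ω : Om) (ξ0 : G → ℝ)
    (h0 : HasTr (M.X γ 0 (Rs (av M T ρ G) ω ξ0)) T) :
    {ξ | HasTr (M.X γ 0 (Rs (av M T ρ G) ω ξ)) T} =
      Set.pi univ fun i : G => Icc (lo γ M T ρ i ω) (hi γ M T ρ i ω) := by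
  have hκ : 0 < ρ / bb := div_pos g.pos g.bb0
  ext ξ
  simp only [mem_ofPred_eq, g.ht, Set.mem_pi, mem_univ, true_imp_iff, mem_Icc]
  rw [g.ht] at h0
  constructor
  · rintro ⟨-, h⟩ i
    rw [(hi_eq g hG ω ξ i).1, (hi_eq g hG ω ξ i).2]
    have a1 := h _ (g.lf _ (hG i.2)).1
    have a2 := h _ (g.lf _ (hG i.2)).2
    constructor <;> nlinarith
  · intro h
    refine ⟨fun A hA => ?_, fun S hS => ?_⟩
    · have := h0.1 A hA
      rw [X_ev, Finset.sum_eq_zero fun P hP => by rw [g.h1 P (hG hP) A hA, mul_zero]] at this ⊢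
      exact this
    · by_cases e : ∃ P ∈ G, S = l1 T P ∨ S = l2' T P
      · obtain ⟨P, hP, e⟩ := e
        have := h ⟨P, hP⟩
        rw [(hi_eq g hG ω ξ ⟨P, hP⟩).1, (hi_eq g hG ω ξ ⟨P, hP⟩).2] at this
        obtain ⟨a1, a2⟩ := this
        dsimp only at a1 a2
        rcases e with rfl | rfl
        · by_contra hc
          have := mul_pos hκ (not_le.1 hc)
          linarith
        · by_contra hc
          have := mul_pos hκ (not_le.1 hc)
          linarith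
      · push Not at e
        have := h0.2 S hS
        rw [X_ev, Finset.sum_eq_zero fun P hP => by
          rw [g.h3 P (hG hP) S hS (e P hP).1 (e P hP).2, mul_zero]] at this ⊢
        exact this

theorem meas_X (hT3 : St_T3) (A : Dy) : Measurable fun ω => M.X γ 0 ω A :=
  (measurable_pi_apply A).comp (hT3.2.2.2.2.2.2.2.2.2.2.1 M γ 0).1

theorem meas_hi (hT3 : St_T3) (P : Dy) :
    Measurable (hi γ M T ρ P) ∧ Measurable (lo γ M T ρ P) :=
  ⟨((meas_ev _).div_const _).sub ((meas_X hT3 _).const_mul _),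
    ((meas_ev _).div_const _).add ((meas_X hT3 _).const_mul _)⟩

theorem tree (hG2 : St_G2) (hG4 : St_G4) (hT3 : St_T3) (γ : ℝ) (M : Model) (ψ : HH)
    (hψ : ∀ S, ⟪ψ, M.eS S⟫ = 1) (η : ℝ) (hη : 0 < η) (L0 ρ : ℝ) (hρ : 0 < ρ) (hb : 0 < bb) :
    ∃ L K : ℝ, 0 ≤ L ∧ 0 ≤ K ∧ ∀ ι : ℕ, 1 ≤ ι → ∀ T, Geo M T ρ → ∀ Pp ⊆ two T,
      η * ι ≤ (Pp.card : ℝ) → ∀ Y Yb : Om → ℝ≥0∞, Measurable Y → Measurable Yb →
      (∀ (ω : Om) (s : ℝ) (t : Dy → ℝ), |s| ≤ 1 → (∀ P, |t P| ≤ L) →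
        HasTr (M.X γ 0 (ω + s • dv ψ)) T →
        HasTr (M.X γ 0 (ω + s • dv ψ + ∑ P ∈ Pp, t P • dv (M.vp T P))) T →
        Y (ω + s • dv ψ + ∑ P ∈ Pp, t P • dv (M.vp T P)) ≤ Yb ω) →
      ∃ f : Om → ℝ≥0∞, Measurable f ∧ (∀ ω, HasTr (M.X γ 0 ω) T →
        ¬Pp.card ≤ 2 * (Pp.filter fun P => M.BadP γ L0 T P ω).card → Y ω ≤ f ω) ∧
        ∫⁻ ω, f ω ∂gm ≤ ENNReal.ofReal (K / ι) *
          ∫⁻ ω, ind (∃ s ∈ Icc (-1 : ℝ) 1, HasTr (sh (M.X γ 0 ω) s) T) * Yb ω ∂gm := by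
  have hκ : 0 < ρ / bb := div_pos hρ hb
  set L1 := |L0| / ρ + ρ / bb * |L0| with hL1
  have hL1' : 0 ≤ L1 := by positivity
  obtain ⟨c, hc0, hc⟩ := gaussP L1 (ρ / bb * η / 2) (by positivity)
  have hψ0 : ψ ≠ 0 := fun e => by simpa [e] using hψ []
  obtain ⟨C, hC⟩ := hG4.2.1 ψ hψ0
  refine ⟨2 * L1 / ρ, c * max C 0, by positivity, by positivity,
    fun ι hι T g Pp hPp hcard Y Yb hY hYb h3 => ?_⟩
  have hι' : (0 : ℝ) < ι := by exact_mod_cast hι
  let good : Dy → Om → Prop := fun P ω => -L1 ≤ lo γ M T ρ P ω ∧ hi γ M T ρ P ω ≤ L1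
  let Gs : Finset Dy → Om → Prop := fun G ω => ∀ P, P ∈ Pp → (good P ω ↔ P ∈ G)
  let H : Om → Prop := fun ω => HasTr (M.X γ 0 ω) T
  let W : Om → Prop := fun ω => ∃ P, P ∈ Pp ∧ -(1 / (ι : ℝ)) < M.X γ 0 ω (l1 T P)
  let F : Finset (Finset Dy) := Pp.powerset.filter fun G => η * ι / 2 ≤ (G.card : ℝ)
  have hF : ∀ G ∈ F, G ⊆ Pp ∧ η * ι / 2 ≤ (G.card : ℝ) := fun G hG => by
    simpa [F] using hG
  have mX := (hT3.2.2.2.2.2.2.2.2.2.2.1 M γ 0).1
  have mG : ∀ G, Measurable (Gs G) := fun G =>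
    Measurable.forall fun P => Measurable.imp measurable_const (Measurable.iff
      (Measurable.and
        (measurableSet_setOfPred.1 (measurableSet_le measurable_const (meas_hi hT3 P).2))
        (measurableSet_setOfPred.1 (measurableSet_le (meas_hi hT3 P).1 measurable_const)))
      measurable_const)
  have mH : Measurable H := (measurableSet_setOfPred.1 (hT3.2.2.1 T).2.1).comp mX
  have mW : Measurable W := Measurable.exists fun P => Measurable.and measurable_const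
    (measurableSet_setOfPred.1 (measurableSet_lt measurable_const (meas_X hT3 _)))
  have key : ∀ G ∈ F, ∃ Y0 : Om → ℝ≥0∞, Measurable Y0 ∧
      (∀ ω b, (∀ ξ, H (Rs (av M T ρ G) ω ξ) → Y (Rs (av M T ρ G) ω ξ) ≤ b) → Y0 ω ≤ b) ∧
      ∫⁻ ω, ind (Gs G ω ∧ H ω) * Y ω ∂gm ≤
        ENNReal.ofReal c * ∫⁻ ω, ind (Gs G ω ∧ H ω ∧ W ω) * Y0 ω ∂gm := by
    intro G hG
    obtain ⟨hGP, hGc⟩ := hF G hG
    have hG2' : G ⊆ two T := hGP.trans hPp
    refine resample hG2 (av_on g hG2') (Gs G) H W Y (mG G) mH mW hY (fun ω ξ => ?_) _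
      ENNReal.ofReal_ne_top fun ω hω => ?_
    · refine forall_congr' fun P => imp_congr_right fun hP => ?_
      simp only [good, (inv_hi g hG2' ω ξ (hPp hP)).1, (inv_hi g hG2' ω ξ (hPp hP)).2]
    · by_cases ex : ∃ ξ0, H (Rs (av M T ρ G) ω ξ0)
      · obtain ⟨ξ0, h0⟩ := ex
        have e := box_eq g hG2' ω ξ0 h0
        refine hc G (fun i => lo γ M T ρ i ω) (fun i => hi γ M T ρ i ω) (ρ / bb * (1 / ι)) _ _
          (fun i => (hω i (hGP i.2)).2 i.2) (by positivity) ?_ e fun ξ hξ => ?_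
        · rw [Fintype.card_coe]
          calc ρ / bb * η / 2 = ρ / bb * (1 / ι) * (η * ι / 2) := by field_simp
            _ ≤ _ := by gcongr
        · by_cases hW : W (Rs (av M T ρ G) ω ξ)
          · exact Or.inl ⟨hξ, hW⟩
          · refine Or.inr fun i _ => ⟨((e.subset hξ) i trivial).1, ?_⟩
            have h1 : M.X γ 0 (Rs (av M T ρ G) ω ξ) (l1 T i) ≤ -(1 / (ι : ℝ)) :=
              not_lt.1 fun h => hW ⟨i, hGP i.2, h⟩
            have h2 := mul_le_mul_of_nonneg_left h1 hκ.le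
            change ξ i ≤ hi γ M T ρ i ω - _
            rw [(hi_eq g hG2' ω ξ i).1]
            linarith
      · push Not at ex
        rw [show {ξ | H (Rs (av M T ρ G) ω ξ)} = ∅ from eq_empty_of_forall_notMem ex, measure_empty]
        exact zero_le
  choose! Y0 hY0 hY0b hY0i using key
  have hsh : ∀ (ω : Om) (s : ℝ), M.X γ 0 (ω + s • dv ψ) = sh (M.X γ 0 ω) s := fun ω s => by
    funext A
    simp only [Model.X, drift, sh, LinearMap.add_apply, LinearMap.smul_apply, dv_apply, hψ,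
      smul_eq_mul]
    ring
  refine ⟨fun ω => ∑ G ∈ F, ind (Gs G ω ∧ H ω) * Y ω,
    Finset.measurable_sum _ fun G _ => (meas_ind ((mG G).and mH)).mul hY, fun ω hω hB => ?_, ?_⟩
  · have hl := ((g.ht _).1 hω).2
    have hsub : Pp.filter (fun P => ¬M.BadP γ L0 T P ω) ⊆ Pp.filter fun P => good P ω := by
      intro P hP
      obtain ⟨hP, hb⟩ := Finset.mem_filter.1 hP
      refine Finset.mem_filter.2 ⟨hP, ?_⟩
      simp only [Model.BadP, not_or, not_lt] at hb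
      obtain ⟨b1, b2, b3⟩ := hb
      have a0 := le_abs_self L0
      have a1 : -|L0| ≤ M.X γ 0 ω (l1 T P) := le_trans (by linarith) b1
      have a2 : -|L0| ≤ M.X γ 0 ω (l2' T P) := le_trans (by linarith) b2
      have a3 := abs_le.1 (b3.trans a0)
      have a4 : zz M T ρ P ω ≤ |L0| / ρ := div_le_div_of_nonneg_right a3.2 hρ.le
      have a5 : -|L0| / ρ ≤ zz M T ρ P ω := div_le_div_of_nonneg_right a3.1 hρ.le
      have a6 := mul_le_mul_of_nonneg_left a1 hκ.le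
      have a7 := mul_le_mul_of_nonneg_left a2 hκ.le
      rw [neg_div] at a5
      constructor
      · rw [lo]; linarith
      · rw [hi]; linarith
    have hmem : Pp.filter (fun P => good P ω) ∈ F := by
      refine Finset.mem_filter.2 ⟨Finset.mem_powerset.2 (Finset.filter_subset _ _), ?_⟩
      have c1 := Finset.card_le_card hsub
      have c2 := Finset.card_filter_add_card_filter_not (s := Pp) fun P => M.BadP γ L0 T P ω
      have c3 : Pp.card ≤ 2 * (Pp.filter fun P => good P ω).card := by omega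
      have c4 : (Pp.card : ℝ) ≤ 2 * (Pp.filter fun P => good P ω).card := by exact_mod_cast c3
      linarith
    refine le_trans ?_ (Finset.single_le_sum (f := fun G => ind (Gs G ω ∧ H ω) * Y ω)
      (fun _ _ => zero_le) hmem)
    rw [ind_pos ⟨fun P hP => by simp [hP], hω⟩, one_mul]
  · have m1 : ∀ G ∈ F, Measurable fun ω => ind (Gs G ω ∧ H ω ∧ W ω) * Y0 G ω := fun G hG =>
      (meas_ind ((mG G).and (mH.and mW))).mul (hY0 G hG)
    have m2 : Measurable fun ω =>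
        ind (∃ s ∈ Icc (-1 : ℝ) 1, HasTr (sh (M.X γ 0 ω) s) T) * Yb ω :=
      (meas_ind ((measurableSet_setOfPred.1 (hT3.2.2.1 T).2.2).comp mX)).mul hYb
    have h4 := hC (1 / ι) (fun ω => ∑ G ∈ F, ind (Gs G ω ∧ H ω ∧ W ω) * Y0 G ω) _ (by positivity)
      (Finset.measurable_sum _ m1) m2 (fun ω s s' h h' => ?_) (fun ω s hs => ?_)
    · have m3 : ∀ G ∈ F, Measurable fun ω => ind (Gs G ω ∧ H ω) * Y ω := fun G _ =>
        (meas_ind ((mG G).and mH)).mul hY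
      refine (lintegral_finsetSum _ m3).trans_le ?_
      refine (Finset.sum_le_sum hY0i).trans ?_
      rw [← Finset.mul_sum, ← lintegral_finsetSum _ m1]
      refine (mul_le_mul_right h4 _).trans ?_
      rw [← mul_assoc, ← ENNReal.ofReal_mul hc0]
      refine mul_le_mul_left (ENNReal.ofReal_le_ofReal ?_) _
      rw [mul_div_assoc, mul_one_div]
      gcongr
      exact le_max_left _ _
    · obtain ⟨G, -, hG⟩ := Finset.exists_ne_zero_of_sum_ne_zero h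
      obtain ⟨G', -, hG'⟩ := Finset.exists_ne_zero_of_sum_ne_zero h'
      obtain ⟨-, a1, P, hP, a2⟩ := ind_mul_ne hG
      obtain ⟨-, b1, P', hP', b2⟩ := ind_mul_ne hG'
      have a3 := ((g.ht _).1 a1).2 _ (g.lf _ (hPp hP')).1
      have b3 := ((g.ht _).1 b1).2 _ (g.lf _ (hPp hP)).1
      rw [hsh] at a2 b2 a3 b3
      simp only [sh] at a2 b2 a3 b3
      rw [abs_le]
      constructor <;> linarith
    · refine sum_le_uniq _ _ _ (fun G hG => ?_) fun G hG G' hG' h h' => ?_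
      · by_cases h : Gs G (ω + s • dv ψ) ∧ H (ω + s • dv ψ) ∧ W (ω + s • dv ψ)
        swap
        · rw [ind_neg h, zero_mul]
          exact zero_le
        obtain ⟨hGP, -⟩ := hF G hG
        have hG2' : G ⊆ two T := hGP.trans hPp
        rw [ind_pos h, one_mul, ind_pos ⟨s, abs_le.1 hs, by rw [← hsh]; exact h.2.1⟩, one_mul]
        refine hY0b G hG _ _ fun ξ hξ => ?_
        have hξ' := (box_eq g hG2' _ ξ hξ).subset hξ
        simp only [H] at hξ
        rw [Rs_eq hGP] at hξ ⊢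
        refine h3 ω s _ hs (fun P => ?_) h.2.1 hξ
        rw [sc, abs_div, abs_of_pos hρ]
        refine div_le_div_of_nonneg_right ?_ hρ.le
        split_ifs with hP
        · obtain ⟨a1, a2⟩ := hξ' ⟨P, hP⟩ trivial
          obtain ⟨a3, a4⟩ := (h.1 P (hGP hP)).2 hP
          have a5 := mul_le_mul_of_nonneg_left
            (((g.ht _).1 h.2.1).2 _ (g.lf _ (hG2' hP)).1) hκ.le
          have a6 := mul_le_mul_of_nonneg_left
            (((g.ht _).1 h.2.1).2 _ (g.lf _ (hG2' hP)).2) hκ.le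
          dsimp only at a1 a2
          have a7 := a1.trans' a3
          have a8 := a2.trans a4
          rw [lo] at a3
          rw [hi] at a4
          rw [abs_le]
          constructor <;> linarith
        · rw [abs_zero]
          positivity
      · have a := (ind_mul_ne h).1
        have a' := (ind_mul_ne h').1
        ext P
        constructor
        · exact fun hP => (a' P ((hF G hG).1 hP)).1 ((a P ((hF G hG).1 hP)).2 hP)
        · exact fun hP => (a P ((hF G' hG').1 hP)).1 ((a' P ((hF G' hG').1 hP)).2 hP)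

theorem cs (s : Set Om) (Y : Om → ℝ≥0∞) (hY : Measurable Y) (e B : ℝ≥0∞) (hs : gm s ≤ e ^ 2)
    (hB : ∫⁻ ω, Y ω ^ 2 ∂gm ≤ B ^ 2) :
    ∫⁻ ω, ind (ω ∈ toMeasurable gm s) * Y ω ∂gm ≤ e * B := by
  have key : ∀ x y : ℝ≥0∞, x ≤ y ^ 2 → x ^ (1 / 2 : ℝ) ≤ y := fun x y h => by
    refine (ENNReal.rpow_le_rpow h (by norm_num)).trans_eq ?_
    rw [← ENNReal.rpow_natCast, ← ENNReal.rpow_mul]
    norm_num
  have m : Measurable fun ω => ω ∈ toMeasurable gm s :=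
    measurableSet_setOfPred.1 (measurableSet_toMeasurable gm s)
  refine (ENNReal.lintegral_mul_le_Lp_mul_Lq gm Real.HolderConjugate.two_two
    (meas_ind m).aemeasurable hY.aemeasurable).trans (mul_le_mul' (key _ _ ?_) (key _ _ ?_))
  · refine le_trans (le_of_eq ?_) hs
    rw [← measure_toMeasurable s, ← ofPred_mem_eq (s := toMeasurable gm s), ← lint_ind gm m]
    refine lintegral_congr fun ω => ?_
    by_cases h : ω ∈ toMeasurable gm s <;> simp [ind, h]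
  · simpa only [ENNReal.rpow_two] using hB

theorem card_exp (ι n : ℕ) (h : n ≤ 16 ^ ι) : (n : ℝ≥0∞) * eE (-6 * ι) ≤ eE (-3 * ι) := by
  rw [eE, eE, ← ENNReal.ofReal_natCast, ← ENNReal.ofReal_mul (by positivity)]
  refine ENNReal.ofReal_le_ofReal ?_
  have h1 : (16 : ℝ) ≤ Real.exp 3 := by
    have := Real.exp_one_gt_d9
    have e : Real.exp 3 = Real.exp 1 ^ 3 := by rw [← Real.exp_nat_mul]; norm_num
    rw [e]
    calc (16 : ℝ) ≤ 2.7 ^ 3 := by norm_num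
      _ ≤ _ := by gcongr; linarith
  have h2 : (n : ℝ) ≤ Real.exp (3 * ι) := by
    rw [mul_comm, Real.exp_nat_mul]
    calc (n : ℝ) ≤ 16 ^ ι := by exact_mod_cast h
      _ ≤ _ := by gcongr
  calc (n : ℝ) * Real.exp (-6 * ι) ≤ Real.exp (3 * ι) * Real.exp (-6 * ι) := by gcongr
    _ = _ := by rw [← Real.exp_add]; congr 1; ring

end U

open U in
theorem blk_U (_hG1 : St_G1) (_hG1D : St_G1D) (hG2 : St_G2) (hG4 : St_G4) (hMOD : St_MOD)
    (hB : St_BMP) (hT1 : St_T1) (hT3 : St_T3) (hUE : St_UE) : St_U := by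
  intro γ hγ M hO φ hφ η hη
  obtain ⟨L0, ι0, hU⟩ := hUE γ hγ η hη
  obtain ⟨ρ, hρ, hgeo⟩ := geo hT1 hB
  obtain ⟨L, K, hL, hK, ht⟩ := tree hG2 hG4 hT3 γ M (gr φ)
    ((hMOD M).2.2.2.2.2.2.2.2.2.2.2.2.2.2.2.2.1 φ hφ) η hη L0 ρ hρ hB.1
  obtain ⟨-, -, -, htr, hcard, -, htwo, -, -, -, hht, hof, hfin, -, -, hmono, -⟩ := hT1
  refine ⟨L, K, max ι0 1, hL, hK, fun ι hι Pp Y Yb B hP hY hYb h3 h4 => ?_⟩
  have key : ∀ T ∈ trees ι, ∃ f : Om → ℝ≥0∞, Measurable f ∧ (∀ ω, HasTr (M.X γ 0 ω) T →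
      ¬(Pp T).card ≤ 2 * ((Pp T).filter fun P => M.BadP γ L0 T P ω).card → Y T ω ≤ f ω) ∧
      ∫⁻ ω, f ω ∂gm ≤ ENNReal.ofReal (K / ι) *
        ∫⁻ ω, ind (∃ s ∈ Icc (-1 : ℝ) 1, HasTr (sh (M.X γ 0 ω) s) T) * Yb ω ∂gm := by
    intro T hT
    have hT' := ((htr ι T).1 hT).1
    obtain ⟨g1, g2, g3⟩ := hgeo M hO T hT'
    exact ht ι ((le_max_right _ _).trans hι) T ⟨hρ, hB.1, g1, g2, g3,
      fun P hP => (htwo T hT' P hP).2.2, fun x => hht x T hT'⟩ (Pp T) (hP T hT).1 (hP T hT).2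
      (Y T) Yb (hY T) hYb (h3 T hT)
  choose! f hf hf1 hf2 using key
  let Bad : Finset Dy → Set Om := fun T => {ω | HasTr (M.X γ 0 ω) T ∧
    (Pp T).card ≤ 2 * ((Pp T).filter fun P => M.BadP γ L0 T P ω).card}
  have m1 : ∀ T, Measurable fun ω => ind (ω ∈ toMeasurable gm (Bad T)) * Y T ω := fun T =>
    (meas_ind (measurableSet_setOfPred.1 (measurableSet_toMeasurable gm _))).mul (hY T)
  have m2 : ∀ T, Measurable fun ω =>
      ind (∃ s ∈ Icc (-1 : ℝ) 1, HasTr (sh (M.X γ 0 ω) s) T) * Yb ω := fun T =>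
    (meas_ind ((measurableSet_setOfPred.1 (hT3.2.2.1 T).2.2).comp
      (hT3.2.2.2.2.2.2.2.2.2.2.1 M γ 0).1)).mul hYb
  calc ∫⁻ ω, ind (nB (M.X γ 0 ω) = ι) * Y (tr (M.X γ 0 ω)) ω ∂gm
      ≤ ∫⁻ ω, ∑ T ∈ trees ι, (f T ω + ind (ω ∈ toMeasurable gm (Bad T)) * Y T ω) ∂gm := by
        refine lintegral_mono fun ω => ?_
        by_cases h : nB (M.X γ 0 ω) = ι
        swap
        · rw [ind_neg h, zero_mul]
          exact zero_le
        have h1 := hfin _ (by rw [h]; exact ENNReal.natCast_ne_top ι)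
        obtain ⟨a1, -, a2, -⟩ := hof _ _ h1
        have hT : tr (M.X γ 0 ω) ∈ trees ι :=
          (htr _ _).2 ⟨a1, by exact_mod_cast a2.symm.trans h⟩
        refine le_trans ?_ (Finset.single_le_sum
          (f := fun T => f T ω + ind (ω ∈ toMeasurable gm (Bad T)) * Y T ω) (fun _ _ => zero_le) hT)
        rw [ind_pos h, one_mul]
        by_cases hb : ω ∈ Bad (tr (M.X γ 0 ω))
        · rw [ind_pos (subset_toMeasurable _ _ hb), one_mul]
          exact le_add_self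
        · exact (hf1 _ hT ω h1 fun e => hb ⟨h1, e⟩).trans le_self_add
    _ = ∑ T ∈ trees ι, (∫⁻ ω, f T ω ∂gm +
          ∫⁻ ω, ind (ω ∈ toMeasurable gm (Bad T)) * Y T ω ∂gm) := by
        have m3 : ∀ T ∈ trees ι, Measurable fun ω =>
            f T ω + ind (ω ∈ toMeasurable gm (Bad T)) * Y T ω := fun T hT => (hf T hT).add (m1 T)
        rw [lintegral_finsetSum _ m3]
        exact Finset.sum_congr rfl fun T hT => lintegral_add_left (hf T hT) _
    _ ≤ ∑ T ∈ trees ι, (ENNReal.ofReal (K / ι) *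
          ∫⁻ ω, ind (∃ s ∈ Icc (-1 : ℝ) 1, HasTr (sh (M.X γ 0 ω) s) T) * Yb ω ∂gm +
          eE (-6 * ι) * B) := by
        refine Finset.sum_le_sum fun T hT => add_le_add (hf2 T hT) (cs _ _ (hY T) _ _ ?_ (h4 T hT))
        refine (hU M hO ι ((le_max_left _ _).trans hι) T hT (Pp T) (hP T hT).1
          (hP T hT).2).trans_eq ?_
        rw [eE, eE, ← ENNReal.ofReal_pow (Real.exp_pos _).le, ← Real.exp_nat_mul]
        congr 2
        push_cast
        ring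
    _ ≤ _ := by
        rw [Finset.sum_add_distrib, ← Finset.mul_sum, ← lintegral_finsetSum _ fun T _ => m2 T,
          Finset.sum_const, nsmul_eq_mul, ← mul_assoc]
        refine add_le_add (mul_le_mul_right (lintegral_mono fun ω => ?_) _)
          (mul_le_mul_left (card_exp ι _ (hcard ι)) _)
        have mono : ∀ s s' : ℝ, s ≤ s' → ∀ S, sh (M.X γ 0 ω) s S ≤ sh (M.X γ 0 ω) s' S :=
          fun s s' h S => by simp only [sh]; linarith
        refine sum_le_uniq _ _ _ (fun T hT => ?_) fun T hT T' hT' h h' => ?_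
        · by_cases h : ∃ s ∈ Icc (-1 : ℝ) 1, HasTr (sh (M.X γ 0 ω) s) T
          swap
          · rw [ind_neg h, zero_mul]
            exact zero_le
          rw [ind_pos h]
          obtain ⟨s, hs, h⟩ := h
          have := hmono _ _ (mono s 1 hs.2)
          rw [(hof _ _ h).2.2.1, ((htr _ _).1 hT).2] at this
          rw [ind_pos this]
        · obtain ⟨s, -, a⟩ := ind_mul_ne h
          obtain ⟨s', -, a'⟩ := ind_mul_ne h'
          have c := ((htr _ _).1 hT).2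
          have c' := ((htr _ _).1 hT').2
          rcases le_total s s' with e | e
          · exact Finset.eq_of_subset_of_card_le (fun A hA => (a' A).2 fun B hB =>
              ((a A).1 hA B hB).trans_le (mono s s' e B)) (by omega)
          · exact (Finset.eq_of_subset_of_card_le (fun A hA => (a A).2 fun B hB =>
              ((a' A).1 hA B hB).trans_le (mono s' s e B)) (by omega)).symm

end

end Pool.Agent.Lib.APPS
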