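import Pool.Agent.Lib.APPS.Blue2

/-!
Block UB.
-/

namespace Pool.Agent.Lib.APPS

open MeasureTheory ProbabilityTheory Filter Topology Set Metric
open scoped NNReal ENNReal CompactlySupported BoundedContinuousFunction RealInnerProductSpace
  Classical

noncomputable section

namespace UB

theorem int_unif (hGEO1 : St_GEO1) (S : Dy) (f : ℂ → ℝ) :
    ∫ x, f x ∂unif S = 1 / side S ^ 2 * ∫ x in box S, f x := by
  have := (hGEO1.1 S).1
  unfold unif
  rw [integral_smul_measure, ENNReal.toReal_ofReal (by positivity), smul_eq_mul]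

theorem int_box (hGEO1 : St_GEO1) (S : Dy) (f : ℂ → ℝ) :
    ∫ x in box S, f x = side S ^ 2 * ∫ x, f x ∂unif S := by
  have := (hGEO1.1 S).1
  rw [int_unif hGEO1]; field_simp

theorem leaves (hFE : St_FE) (hGEO1 : St_GEO1) (hGEO2 : St_GEO2) (T : Finset Dy) (hT : IsTr T)
    (P : Dy) (hP : P ∈ T) (g : ℂ → ℝ) (hg : Measurable g) (B : ℝ) (hB : ∀ x, |g x| ≤ B) :
    ∫ x in box P, g x = ∑ L ∈ (lvs T).filter (fun S => P <:+ S), ∫ x in box L, g x := by
  have h := hGEO2.2.2.2.2.2.2.1 T hT P hP []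
  simp only [List.append_nil] at h
  have hi : ∀ S, Integrable g (unif S) := fun S => by
    have := (hFE.2.2.2.2.2.2.2.1 S).1.2
    exact Integrable.of_bound hg.aestronglyMeasurable B (ae_of_all _ hB)
  rw [int_box hGEO1, h, integral_finsetSum_measure fun L _ =>
    (hi L).smul_measure ENNReal.ofReal_ne_top, Finset.mul_sum]
  refine Finset.sum_congr rfl fun L _ => ?_
  rw [integral_smul_measure, ENNReal.toReal_ofReal (by positivity), smul_eq_mul, int_box hGEO1]
  have := (hGEO1.1 P).1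
  field_simp

theorem geo_sum (T : Finset Dy) (L : Dy) :
    ∑ P ∈ T.filter (fun P => P <:+ L), 1 / side P ≤ 2 / side L := by
  have e : ∀ P : Dy, 1 / side P = 2 ^ P.length := fun P => by
    unfold side; rw [one_div, one_div, inv_pow, inv_inv]
  have hinj : InjOn (fun P : Dy => P.length) ↑(T.filter (fun P => P <:+ L)) := by
    intro P hP P' hP' h
    have h1 := (Finset.mem_filter.1 hP).2
    have h2 := (Finset.mem_filter.1 hP').2
    exact (List.suffix_of_suffix_length_le h1 h2 (le_of_eq h)).eq_of_length h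
  have h1 : ∑ P ∈ T.filter (fun P => P <:+ L), 1 / side P =
      ∑ j ∈ (T.filter (fun P => P <:+ L)).image (fun P : Dy => P.length), (2 : ℝ) ^ j := by
    rw [Finset.sum_image hinj]; exact Finset.sum_congr rfl fun P _ => e P
  rw [h1]
  have h2 : (T.filter (fun P => P <:+ L)).image (fun P : Dy => P.length) ⊆
      Finset.range (L.length + 1) := by
    intro j hj
    obtain ⟨P, hP, rfl⟩ := Finset.mem_image.1 hj
    exact Finset.mem_range.2 (Nat.lt_succ_of_le (Finset.mem_filter.1 hP).2.length_le)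
  refine (Finset.sum_le_sum_of_subset_of_nonneg h2 fun _ _ _ => by positivity).trans ?_
  rw [geom_sum_eq (by norm_num), div_eq_mul_one_div 2, e L, pow_succ]
  norm_num
  linarith

theorem lvs_mem {T : Finset Dy} (hT : T ≠ ∅) {S : Dy} (hS : S ∈ lvs T) :
    ∃ P ∈ T, ∃ d, S = d :: P := by
  unfold lvs at hS
  rw [if_neg hT] at hS
  obtain ⟨P, hP, h⟩ := Finset.mem_biUnion.1 (Finset.mem_sdiff.1 hS).1
  obtain ⟨d, -, rfl⟩ := Finset.mem_image.1 h
  exact ⟨P, hP, d, rfl⟩

theorem tail_sum {T : Finset Dy} (hT : T ≠ ∅) {𝓢 : Finset Dy} (h𝓢 : 𝓢 ⊆ lvs T) (f : Dy → ℝ)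
    (hf : ∀ P, 0 ≤ f P) : ∑ S ∈ 𝓢, f S.tail ≤ 4 * ∑ P ∈ T, f P := by
  have hm : ∀ S ∈ 𝓢, S.tail ∈ T := fun S hS => by
    obtain ⟨P, hP, d, rfl⟩ := lvs_mem hT (h𝓢 hS); exact hP
  rw [← Finset.sum_fiberwise_of_maps_to hm, Finset.mul_sum]
  refine Finset.sum_le_sum fun P _ => ?_
  have h1 : ∑ S ∈ 𝓢.filter (fun S => S.tail = P), f S.tail =
      (𝓢.filter (fun S => S.tail = P)).card * f P := by
    rw [Finset.sum_congr rfl fun S hS => by rw [(Finset.mem_filter.1 hS).2], Finset.sum_const,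
      nsmul_eq_mul]
  rw [h1]
  refine mul_le_mul_of_nonneg_right ?_ (hf P)
  have h2 : 𝓢.filter (fun S => S.tail = P) ⊆ Finset.univ.image fun d : Fin 2 × Fin 2 => d :: P := by
    intro S hS
    obtain ⟨hS1, hS2⟩ := Finset.mem_filter.1 hS
    obtain ⟨P', -, d, rfl⟩ := lvs_mem hT (h𝓢 hS1)
    exact Finset.mem_image.2 ⟨d, Finset.mem_univ _, by rw [← hS2]; rfl⟩
  have h3 := (Finset.card_le_card h2).trans Finset.card_image_le
  have h4 : (𝓢.filter (fun S => S.tail = P)).card ≤ 4 := by simpa using h3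
  exact_mod_cast h4

theorem step (hFE : St_FE) (hGEO1 : St_GEO1) (φ : ℂ → ℝ) (hφ : Continuous φ) (d : Fin 2 × Fin 2)
    (P : Dy) : |∫ x, φ x ∂unif P - ∫ x, φ x ∂unif (d :: P)| ≤
      4 / side P ^ 2 * ∫ x in box P, |φ x - ∫ y, φ y ∂unif P| := by
  set m := ∫ y, φ y ∂unif P with hm
  have hp := (hFE.2.2.2.2.2.2.2.1 (d :: P)).1.2
  have hsub : box (d :: P) ⊆ box P := (hGEO1.2.2.2.2.1 _ _).2 (List.suffix_cons d P)
  have hc : Continuous fun x => |φ x - m| := (hφ.sub continuous_const).abs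
  have hiP : IntegrableOn (fun x => |φ x - m|) (box P) :=
    hc.continuousOn.integrableOn_compact (hGEO1.2.2.2.1 P).1
  have hi : Integrable φ (unif (d :: P)) := by
    unfold unif
    exact (hφ.continuousOn.integrableOn_compact (hGEO1.2.2.2.1 _).1).smul_measure
      ENNReal.ofReal_ne_top
  have h1 : m - ∫ x, φ x ∂unif (d :: P) = -∫ x, (φ x - m) ∂unif (d :: P) := by
    rw [integral_sub hi (integrable_const _), integral_const]; simp
  rw [h1, abs_neg]
  refine (abs_integral_le_integral_abs).trans ?_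
  rw [int_unif hGEO1]
  have hs : side (d :: P) = side P / 2 := by unfold side; rw [List.length_cons, pow_succ]; ring
  have hP := (hGEO1.1 P).1
  have e : 1 / side (d :: P) ^ 2 = 4 / side P ^ 2 := by rw [hs]; field_simp; norm_num
  rw [e]
  refine mul_le_mul_of_nonneg_left ?_ (by positivity)
  exact setIntegral_mono_set hiP (ae_of_all _ fun x => abs_nonneg _) hsub.eventuallyLE

theorem amgm (hGEO1 : St_GEO1) (g : ℂ → ℝ) (hg : Measurable g) (B : ℝ) (hB : ∀ x, |g x| ≤ B)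
    (L : Dy) (t : ℝ) (ht : 0 < t) :
    2 / side L * ∫ x in box L, g x ≤ t + (∫ x in box L, g x ^ 2) / t := by
  have hL := (hGEO1.1 L).1
  have hv := (hGEO1.2.2.2.1 L).2.1
  have : IsFiniteMeasure (volume.restrict (box L)) :=
    ⟨by rw [Measure.restrict_apply_univ, hv]; exact ENNReal.ofReal_lt_top⟩
  have hi : Integrable g (volume.restrict (box L)) :=
    Integrable.of_bound hg.aestronglyMeasurable B (ae_of_all _ hB)
  have hi2 : Integrable (fun x => g x ^ 2) (volume.restrict (box L)) :=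
    Integrable.of_bound (hg.pow_const 2).aestronglyMeasurable (B ^ 2) (ae_of_all _ fun x => by
      rw [Real.norm_eq_abs, abs_pow]; exact pow_le_pow_left₀ (abs_nonneg _) (hB x) 2)
  have h1 : ∫ x in box L, 2 / side L * g x ≤ ∫ x in box L, (t / side L ^ 2 + g x ^ 2 / t) := by
    refine integral_mono (hi.const_mul _) ((integrable_const _).add (hi2.div_const _)) fun x => ?_
    have : t / side L ^ 2 + g x ^ 2 / t - 2 / side L * g x = (t / side L - g x) ^ 2 / t := by
      field_simp; ring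
    have h2 : 0 ≤ (t / side L - g x) ^ 2 / t := by positivity
    change 2 / side L * g x ≤ t / side L ^ 2 + g x ^ 2 / t
    linarith
  rw [integral_const_mul, integral_add (integrable_const _) (hi2.div_const _), integral_const,
    integral_div, Measure.real, Measure.restrict_apply_univ, hv,
    ENNReal.toReal_ofReal (by positivity), smul_eq_mul] at h1
  have e : side L ^ 2 * (t / side L ^ 2) = t := by field_simp
  rwa [e] at h1

end UB

open UB in
theorem blk_UB (hP1 : St_P1) (hFE : St_FE) (_hEXP2 : St_EXP2) (hGEO1 : St_GEO1)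
    (hGEO2 : St_GEO2) (_hT1 : St_T1) (hPOIN : St_POIN) : St_UB := by
  obtain ⟨C, hC⟩ := hPOIN
  refine ⟨(16 * |C| * (1 + 2 * Real.pi)) ^ 2, fun M T hT hT0 𝓢 h𝓢 => ?_⟩
  have hU := hFE.2.2.2.2.2.2.2.1
  obtain ⟨W, hW⟩ := hP1.2.2.2.2.2.2.2.2.2.1
  have huniv : ∀ S S' : Dy, unif S univ = unif S' univ := fun S S' => by
    have := (hU S).1.2; have := (hU S').1.2
    rw [measure_univ, measure_univ]
  have hmem : ∑ S ∈ 𝓢, (M.eS S.tail - M.eS S) ∈ closure (gr '' {φ | LipC φ}) := by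
    rw [← hW]
    refine W.sum_mem fun S _ => ?_
    rw [← SetLike.mem_coe, hW]
    exact M.ezc _ _ (hU _).1.1 (hU _).1.1 (huniv _ _)
  set N : ℝ := ((lvs T).card : ℝ) with hN
  have hnil : ([] : Dy) ∈ T := by
    obtain ⟨A, hA⟩ := Finset.nonempty_iff_ne_empty.2 hT0
    exact hT A hA [] List.nil_suffix
  have hN0 : 0 ≤ N := Nat.cast_nonneg _
  have hpi := Real.pi_pos
  have key := hP1.2.2.2.2.2.2.2.2.2.2 _ hmem (16 * |C| * (1 + 2 * Real.pi) * Real.sqrt N)
    (by positivity) ?_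
  · calc _ ≤ (16 * |C| * (1 + 2 * Real.pi) * Real.sqrt N) ^ 2 :=
          pow_le_pow_left₀ (norm_nonneg _) key 2
      _ = _ := by rw [mul_pow, Real.sq_sqrt hN0]
  intro φ hφ
  obtain ⟨K, hK⟩ := hφ.1
  set g : ℂ → ℝ := fun x => ‖gradient φ x‖ with hg
  have hgm : Measurable g := (hP1.2.2.2.2.2.2.1 φ).norm
  have hgB : ∀ x, |g x| ≤ K := fun x => by
    rw [hg, abs_norm]; exact hP1.2.2.2.2.2.2.2.1 φ K hK x
  have hg2B : ∀ x, |g x ^ 2| ≤ (K : ℝ) ^ 2 := fun x => by
    rw [abs_pow]; exact pow_le_pow_left₀ (abs_nonneg _) (hgB x) 2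
  have ha : ∀ P, 0 ≤ ∫ x in box P, g x := fun P => integral_nonneg fun x => norm_nonneg _
  have hE := hP1.1 φ hφ
  obtain ⟨hI, hI2⟩ := hP1.2.2.2.2.1 φ φ hE hE
  simp only [real_inner_self_eq_norm_sq] at hI hI2
  have htot : ∑ L ∈ lvs T, ∫ x in box L, g x ^ 2 ≤ 2 * Real.pi * ‖gr φ‖ ^ 2 := by
    have h1 := leaves hFE hGEO1 hGEO2 T hT [] hnil (fun x => g x ^ 2) (hgm.pow_const 2) _ hg2B
    rw [Finset.filter_true_of_mem fun S _ => List.nil_suffix] at h1
    rw [← h1, hI2, ← mul_assoc, mul_inv_cancel₀ (by positivity), one_mul]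
    exact setIntegral_le_integral hI (ae_of_all _ fun x => sq_nonneg _)
  have h1 : |⟪∑ S ∈ 𝓢, (M.eS S.tail - M.eS S), gr φ⟫| ≤
      ∑ S ∈ 𝓢, 4 * |C| * (1 / side S.tail * ∫ x in box S.tail, g x) := by
    rw [sum_inner]
    refine (Finset.abs_sum_le_sum_abs _ _).trans (Finset.sum_le_sum fun S hS => ?_)
    obtain ⟨P, -, d, rfl⟩ := lvs_mem hT0 (h𝓢 hS)
    have e := M.ezg (unif P) (unif (d :: P)) φ (hU _).1.1 (hU _).1.1 (huniv _ _) hφ
    change |⟪M.e (unif P) - M.e (unif (d :: P)), gr φ⟫| ≤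
      4 * |C| * (1 / side P * ∫ x in box P, g x)
    rw [e]
    refine (step hFE hGEO1 φ hK.continuous d P).trans ?_
    have hP := (hGEO1.1 P).1
    have h2 : ∫ x in box P, |φ x - ∫ y, φ y ∂unif P| ≤ |C| * side P * ∫ x in box P, g x :=
      (hC P φ K hK).2.trans (mul_le_mul_of_nonneg_right
        (mul_le_mul_of_nonneg_right (le_abs_self C) hP.le) (ha P))
    calc _ ≤ 4 / side P ^ 2 * (|C| * side P * ∫ x in box P, g x) :=
          mul_le_mul_of_nonneg_left h2 (by positivity)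
      _ = _ := by field_simp
  have h2 : ∑ S ∈ 𝓢, 4 * |C| * (1 / side S.tail * ∫ x in box S.tail, g x) ≤
      16 * |C| * ∑ P ∈ T, 1 / side P * ∫ x in box P, g x := by
    rw [← Finset.mul_sum]
    have := tail_sum hT0 h𝓢 (fun P => 1 / side P * ∫ x in box P, g x) fun P =>
      mul_nonneg (by have := (hGEO1.1 P).1; positivity) (ha P)
    calc _ ≤ 4 * |C| * (4 * ∑ P ∈ T, 1 / side P * ∫ x in box P, g x) :=
          mul_le_mul_of_nonneg_left this (by positivity)
      _ = _ := by ring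
  have h3 : ∑ P ∈ T, 1 / side P * ∫ x in box P, g x ≤
      ∑ L ∈ lvs T, 2 / side L * ∫ x in box L, g x := by
    calc _ = ∑ P ∈ T, ∑ L ∈ lvs T, if P <:+ L then 1 / side P * ∫ x in box L, g x else 0 := by
          refine Finset.sum_congr rfl fun P hP => ?_
          rw [leaves hFE hGEO1 hGEO2 T hT P hP g hgm _ hgB, Finset.mul_sum, Finset.sum_filter]
      _ = ∑ L ∈ lvs T, ∑ P ∈ T, if P <:+ L then 1 / side P * ∫ x in box L, g x else 0 :=
          Finset.sum_comm
      _ ≤ _ := by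
          refine Finset.sum_le_sum fun L _ => ?_
          rw [← Finset.sum_filter, ← Finset.sum_mul]
          exact mul_le_mul_of_nonneg_right (geo_sum T L) (ha L)
  by_cases h0 : gr φ = 0
  · rw [h0, inner_zero_right, abs_zero, norm_zero, mul_zero]
  by_cases hN1 : N = 0
  · have : 𝓢 = ∅ := Finset.subset_empty.1 (by
      rw [← Finset.card_eq_zero.1 (Nat.cast_eq_zero.1 hN1)]; exact h𝓢)
    rw [this, Finset.sum_empty, inner_zero_left, abs_zero]; positivity
  have hG : 0 < ‖gr φ‖ := norm_pos_iff.2 h0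
  have hs : 0 < Real.sqrt N := Real.sqrt_pos.2 (lt_of_le_of_ne hN0 (Ne.symm hN1))
  have ht : 0 < ‖gr φ‖ / Real.sqrt N := by positivity
  have h4 : ∑ L ∈ lvs T, 2 / side L * ∫ x in box L, g x ≤
      (1 + 2 * Real.pi) * Real.sqrt N * ‖gr φ‖ := by
    refine (Finset.sum_le_sum fun L _ => amgm hGEO1 g hgm _ hgB L _ ht).trans ?_
    rw [Finset.sum_add_distrib, Finset.sum_const, nsmul_eq_mul, ← Finset.sum_div, ← hN]
    have h5 := div_le_div_of_nonneg_right htot ht.le
    have e1 : N * (‖gr φ‖ / Real.sqrt N) = Real.sqrt N * ‖gr φ‖ := by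
      conv_lhs => rw [← Real.mul_self_sqrt hN0]
      rw [Real.sqrt_mul_self hs.le]
      field_simp
    have e2 : 2 * Real.pi * ‖gr φ‖ ^ 2 / (‖gr φ‖ / Real.sqrt N) =
        2 * Real.pi * Real.sqrt N * ‖gr φ‖ := by field_simp
    rw [e1]; rw [e2] at h5
    nlinarith
  calc _ ≤ 16 * |C| * ((1 + 2 * Real.pi) * Real.sqrt N * ‖gr φ‖) :=
        h1.trans (h2.trans (mul_le_mul_of_nonneg_left (h3.trans h4) (by positivity)))
    _ = _ := by ring

end

end Pool.Agent.Lib.APPS
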