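import Pool.Agent.Lib.APPS.Blue2

/-! Block UE: few pairs of leaves are atypical. -/

namespace Pool.Agent.Lib.APPS

open MeasureTheory ProbabilityTheory Filter Topology Set Metric
open scoped NNReal ENNReal RealInnerProductSpace Classical

namespace UE

lemma chern (h : St_G1D) (v : HH) (t B : ℝ) (hB : ‖v‖ ^ 2 ≤ B) :
    gm {ω | t ≤ ω v} ≤ eE (-t + B / 2) := by
  have hm : Measurable fun ω : Om => eE (ω v) :=
    ENNReal.measurable_ofReal.comp (Real.measurable_exp.comp (meas_ev v))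
  have h1 := mul_meas_ge_le_lintegral (μ := gm) hm (eE t)
  rw [h.1] at h1
  have h2 : gm {ω | t ≤ ω v} ≤ gm {ω | eE t ≤ eE (ω v)} :=
    measure_mono fun ω hω => ENNReal.ofReal_le_ofReal (Real.exp_le_exp.2 hω)
  calc gm {ω | t ≤ ω v} = eE (-t) * (eE t * gm {ω | t ≤ ω v}) := by
        rw [← mul_assoc, eE, eE, ← ENNReal.ofReal_mul (Real.exp_pos _).le, ← Real.exp_add]
        simp
    _ ≤ eE (-t) * eE (‖v‖ ^ 2 / 2) := by
        gcongr
        exact le_trans (by gcongr) h1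
    _ ≤ _ := by
        rw [eE, eE, eE, ← ENNReal.ofReal_mul (Real.exp_pos _).le, ← Real.exp_add]
        exact ENNReal.ofReal_le_ofReal (Real.exp_le_exp.2 (by linarith))

lemma union (h : St_G1D) (Pp : Finset Dy) (w : Dy → HH) (L N B : ℝ) (hL : 0 ≤ L)
    (hB : ∀ Q ⊆ Pp, ‖∑ P ∈ Q, w P‖ ^ 2 ≤ B) :
    gm {ω | N ≤ ((Pp.filter fun P => L ≤ ω (w P)).card : ℝ)} ≤
      2 ^ Pp.card * eE (-(L * N) + B / 2) := by
  have h1 : {ω : Om | N ≤ ((Pp.filter fun P => L ≤ ω (w P)).card : ℝ)} ⊆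
      ⋃ Q ∈ Pp.powerset, {ω : Om | L * N ≤ ω (∑ P ∈ Q, w P)} := by
    intro ω hω
    simp only [mem_iUnion]
    refine ⟨Pp.filter fun P => L ≤ ω (w P), Finset.mem_powerset.2 (Finset.filter_subset _ _), ?_⟩
    change L * N ≤ ω _
    rw [map_sum]
    refine le_trans ?_ (Finset.card_nsmul_le_sum _ _ L fun P hP => (Finset.mem_filter.1 hP).2)
    rw [nsmul_eq_mul, mul_comm]
    exact mul_le_mul_of_nonneg_right hω hL
  refine (measure_mono h1).trans ((measure_biUnion_finset_le _ _).trans ?_)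
  refine (Finset.sum_le_card_nsmul _ _ _ fun Q hQ =>
    chern h _ _ B (hB Q (Finset.mem_powerset.1 hQ))).trans_eq ?_
  rw [Finset.card_powerset, nsmul_eq_mul]
  push_cast
  rfl

lemma orth {I : Type} (Q : Finset I) (u : I → HH) (E : ℝ) (hE : ∀ i, ‖u i‖ ^ 2 = E)
    (ho : ∀ i ∈ Q, ∀ j ∈ Q, i ≠ j → ⟪u i, u j⟫ = 0) : ‖∑ i ∈ Q, u i‖ ^ 2 = Q.card * E := by
  rw [← real_inner_self_eq_norm_sq, sum_inner, ← nsmul_eq_mul, ← Finset.sum_const]
  refine Finset.sum_congr rfl fun i hi => ?_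
  rw [inner_sum, Finset.sum_eq_single_of_mem i hi fun j hj hji => ho i hi j hj hji.symm,
    real_inner_self_eq_norm_sq, hE]

end UE

open UE in
theorem blk_UE (_hG1 : St_G1) (hG1D : St_G1D) (_hMOD : St_MOD) (hBMP : St_BMP) (hT1 : St_T1)
    (hRW1 : St_RW1) (hUB : St_UB) : St_UE := by
  intro γ hγ η hη
  obtain ⟨C, hC⟩ := hUB
  obtain ⟨-, E, C', hE, -, -, hM⟩ := hBMP
  obtain ⟨-, -, hcard, htrees, -, -, hpr, -, hlv, -, hHas, -⟩ := hT1
  have hQ : 0 ≤ QQ γ * l2 :=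
    mul_nonneg (by linarith [(hRW1.2.2 γ hγ).2.1]) (Real.log_nonneg one_le_two)
  set B := 4 * |C| + 4 * E with hB
  have hB0 : 0 ≤ B := by positivity
  set L := 8 * (B / 2 + 15) / η with hL
  have hL0 : 0 ≤ L := by positivity
  refine ⟨L + QQ γ * l2, 1, fun M _ ι hι T hT Pp hPp hη' => ?_⟩
  obtain ⟨hTr, hTc⟩ := (htrees ι T).1 hT
  obtain ⟨-, hub, ho, -⟩ := hM M
  have hι' : (1 : ℝ) ≤ ι := by exact_mod_cast hι
  have hT0 : T ≠ ∅ := by
    rintro rfl
    simp at hTc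
    omega
  have hPc : Pp.card ≤ ι := hTc ▸ Finset.card_le_card (hPp.trans (Finset.filter_subset _ _))
  have hA : ∀ d : Dy → Fin 2 × Fin 2, (∀ P ∈ Pp, d P :: P ∈ lvs T) → ∀ Q ⊆ Pp,
      ‖∑ P ∈ Q, (M.eS P - M.eS (d P :: P))‖ ^ 2 ≤ B * ι := by
    intro d hd Q hQ
    have := hC M T hTr hT0 (Q.image fun P => d P :: P) fun S hS => by
      obtain ⟨P, hP, rfl⟩ := Finset.mem_image.1 hS
      exact hd P (hQ hP)
    rw [Finset.sum_image fun P _ P' _ h => (List.cons.inj h).2, (hcard T hTr).1, hTc] at this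
    simp only [List.tail_cons] at this
    refine this.trans ?_
    push_cast
    have h1 := le_abs_self C
    have h2 := abs_nonneg C
    nlinarith
  have hU : ∀ d : Dy → Fin 2 × Fin 2, (∀ P ∈ Pp, d P :: P ∈ lvs T) → ∀ Q ⊆ Pp,
      ‖∑ P ∈ Q, M.ub (d P :: P)‖ ^ 2 ≤ ι * E := by
    intro d hd Q hQ
    rw [orth Q _ E (fun P => hub _) fun P hP P' hP' hne => (ho _ _
      (fun h => hne (List.cons.inj (hlv T hTr _ (hd P (hQ hP)) _ (hd P' (hQ hP')) h)).2)
      (fun h => hne (List.cons.inj (hlv T hTr _ (hd P' (hQ hP')) _ (hd P (hQ hP)) h)).2.symm)).1]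
    gcongr
    exact (Finset.card_le_card hQ).trans hPc
  have h1 : ∀ P ∈ Pp, (pr T P).1 :: P ∈ lvs T := fun P hP => (hpr T hTr P (hPp hP)).2.2.1
  have h2 : ∀ P ∈ Pp, (pr T P).2 :: P ∈ lvs T := fun P hP => (hpr T hTr P (hPp hP)).2.2.2
  have hV : ∀ Q ⊆ Pp, ‖∑ P ∈ Q, M.vp T P‖ ^ 2 ≤ B * ι := by
    intro Q hQ
    have a1 := hU _ h1 Q hQ
    have a2 := hU _ h2 Q hQ
    simp only [Model.vp, Finset.sum_sub_distrib]
    have a3 := norm_sub_le (∑ P ∈ Q, M.ub ((pr T P).1 :: P)) (∑ P ∈ Q, M.ub ((pr T P).2 :: P))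
    have a4 := pow_le_pow_left₀ (norm_nonneg _) a3 2
    have h2 := abs_nonneg C
    nlinarith [sq_nonneg (‖∑ P ∈ Q, M.ub ((pr T P).1 :: P)‖ - ‖∑ P ∈ Q, M.ub ((pr T P).2 :: P)‖)]
  let w : Fin 4 → Dy → HH := ![fun P => M.eS P - M.eS ((pr T P).1 :: P),
    fun P => M.eS P - M.eS ((pr T P).2 :: P), fun P => M.vp T P, fun P => -M.vp T P]
  have hw : ∀ i, ∀ Q ⊆ Pp, ‖∑ P ∈ Q, w i P‖ ^ 2 ≤ B * ι := by
    intro i Q hQ
    fin_cases i
    · exact hA _ h1 Q hQ
    · exact hA _ h2 Q hQ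
    · exact hV Q hQ
    · simpa [w] using hV Q hQ
  have hsub : {ω | HasTr (M.X γ 0 ω) T ∧ Pp.card ≤
      2 * (Pp.filter fun P => M.BadP γ (L + QQ γ * l2) T P ω).card} ⊆
      ⋃ i, {ω : Om | η * ι / 8 ≤ ((Pp.filter fun P => L ≤ ω (w i P)).card : ℝ)} := by
    rintro ω ⟨hH, hc⟩
    have hpos := ((hHas _ T hTr).1 hH).1
    have hb : (Pp.filter fun P => M.BadP γ (L + QQ γ * l2) T P ω) ⊆
        Finset.univ.biUnion fun i => Pp.filter fun P => L ≤ ω (w i P) := by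
      intro P hP
      obtain ⟨hP, hbad⟩ := Finset.mem_filter.1 hP
      have hp := hpos P (hpr T hTr P (hPp hP)).1
      simp only [Finset.mem_biUnion, Finset.mem_univ, true_and, Finset.mem_filter, hP]
      simp only [Model.BadP, Model.X, drift, List.length_cons] at hbad hp
      push_cast at hbad
      rcases hbad with h | h | h
      · refine ⟨0, ?_⟩
        change L ≤ ω (_ - _)
        rw [map_sub]
        linarith
      · refine ⟨1, ?_⟩
        change L ≤ ω (_ - _)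
        rw [map_sub]
        linarith
      · rcases lt_abs.1 h with h | h
        · exact ⟨2, by change L ≤ ω (M.vp T P); linarith⟩
        · refine ⟨3, ?_⟩
          change L ≤ ω (-_)
          rw [map_neg]
          linarith
    have hb' := (Finset.card_le_card hb).trans Finset.card_biUnion_le
    by_contra hn
    simp only [mem_iUnion, mem_ofPred_eq, not_exists, not_le] at hn
    have a1 : (Pp.card : ℝ) ≤ 2 * ∑ i, ((Pp.filter fun P => L ≤ ω (w i P)).card : ℝ) := by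
      exact_mod_cast hc.trans (Nat.mul_le_mul_left 2 hb')
    rw [Fin.sum_univ_four] at a1
    linarith [hn 0, hn 1, hn 2, hn 3]
  refine (measure_mono hsub).trans ((measure_iUnion_fintype_le _ _).trans ?_)
  refine (Finset.sum_le_card_nsmul _ _ _ fun i _ =>
    union hG1D Pp (w i) L _ _ hL0 (hw i)).trans ?_
  have e1 : -(L * (η * ι / 8)) + B * ι / 2 = -15 * ι := by
    rw [hL]
    field_simp
    ring
  have e2 : (4 : ℝ) * 2 ^ Pp.card ≤ Real.exp (3 * ι) := by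
    have b1 : (2 : ℝ) ≤ Real.exp 1 := by linarith [Real.add_one_le_exp (1 : ℝ)]
    calc (4 : ℝ) * 2 ^ Pp.card = 2 ^ (2 + Pp.card) := by ring
      _ ≤ 2 ^ (3 * ι) := pow_le_pow_right₀ one_le_two (by omega)
      _ ≤ Real.exp 1 ^ (3 * ι) := by gcongr
      _ = _ := by rw [← Real.exp_nat_mul]; push_cast; ring_nf
  rw [e1, Finset.card_univ, Fintype.card_fin, nsmul_eq_mul, ← mul_assoc]
  calc _ = ENNReal.ofReal (4 * 2 ^ Pp.card * Real.exp (-15 * ι)) := by
        rw [ENNReal.ofReal_mul (by positivity), ENNReal.ofReal_mul (by positivity),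
          ENNReal.ofReal_pow (by positivity)]
        simp [eE]
    _ ≤ _ := ENNReal.ofReal_le_ofReal (by
        rw [show (-12 : ℝ) * ι = 3 * ι + -15 * ι by ring, Real.exp_add]
        gcongr)

end Pool.Agent.Lib.APPS
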