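import Pool.Agent.Lib.APPS.Blue4

/-!
Block VOL: the limiting volume constant.
-/

namespace Pool.Agent.Lib.APPS

open MeasureTheory ProbabilityTheory Filter Topology Set Metric
open scoped NNReal ENNReal CompactlySupported BoundedContinuousFunction RealInnerProductSpace
  Classical

noncomputable section

namespace VOL

/-- two small exceptional sets cannot cover an event of larger mass -/
theorem common (P : Measure Om) [IsProbabilityMeasure P] (E : Set Om) (B1 B2 : Om → Prop)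
    (w c η1 η2 : ℝ) (hw : 0 ≤ w) (h1 : 0 ≤ η1) (h2 : 0 ≤ η2) (hc : η1 + η2 < c)
    (hE : c ≤ w * P.real E)
    (hB1 : ENNReal.ofReal w * P {ω | ω ∈ E ∧ B1 ω} ≤ ENNReal.ofReal η1)
    (hB2 : ENNReal.ofReal w * P {ω | ω ∈ E ∧ B2 ω} ≤ ENNReal.ofReal η2) :
    ∃ ω ∈ E, ¬B1 ω ∧ ¬B2 ω := by
  by_contra hcon
  have hsub : E ⊆ {ω | ω ∈ E ∧ B1 ω} ∪ {ω | ω ∈ E ∧ B2 ω} := by
    intro ω hω
    by_cases hb : B1 ω
    · exact Or.inl ⟨hω, hb⟩
    · by_cases hb2 : B2 ω
      · exact Or.inr ⟨hω, hb2⟩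
      · exact absurd ⟨ω, hω, hb, hb2⟩ hcon
  have h3 : ENNReal.ofReal w * P E ≤ ENNReal.ofReal (η1 + η2) := by
    calc ENNReal.ofReal w * P E
        ≤ ENNReal.ofReal w * (P {ω | ω ∈ E ∧ B1 ω} + P {ω | ω ∈ E ∧ B2 ω}) := by
          gcongr
          exact (measure_mono hsub).trans (measure_union_le _ _)
      _ ≤ ENNReal.ofReal η1 + ENNReal.ofReal η2 := by
          rw [mul_add]; exact add_le_add hB1 hB2
      _ = ENNReal.ofReal (η1 + η2) := (ENNReal.ofReal_add h1 h2).symm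
  have h4 : ENNReal.ofReal w * P E = ENNReal.ofReal (w * P.real E) := by
    rw [ENNReal.ofReal_mul hw, Measure.real, ENNReal.ofReal_toReal (measure_ne_top _ _)]
  rw [h4, ENNReal.ofReal_le_ofReal_iff (by linarith)] at h3
  linarith

theorem aL_one (hT3 : St_T3) (M : Model) (γ : ℝ) (n : ℕ) :
    M.aL γ oneT n = (n : ℝ) ^ (th γ + 2) * gm.real {ω | nB (M.X γ 0 ω) = n} := by
  obtain ⟨hnB, -, -, -, -, -, -, -, -, -, hX, -, -⟩ := hT3
  have hm : MeasurableSet {ω | nB (M.X γ 0 ω) = n} :=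
    (hnB.comp (hX M γ 0).1) (measurableSet_singleton (n : ℝ≥0∞))
  unfold Model.aL
  congr 1
  rw [← integral_indicator_one hm]
  congr 1
  funext ω
  by_cases h : nB (M.X γ 0 ω) = n
  · simp [indR, oneT, h, Set.indicator]
  · simp [indR, oneT, h, Set.indicator]

theorem card_tr (hT1 : St_T1) (x : Dy → ℝ) (n : ℕ) (h : nB x = n) : (tr x).card = n := by
  obtain ⟨-, -, -, -, -, -, -, -, -, -, -, h12, h13, -⟩ := hT1
  have h1 := (h12 x _ (h13 x (by rw [h]; exact ENNReal.natCast_ne_top n))).2.2.1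
  rw [h] at h1
  exact_mod_cast h1.symm

theorem SR_one_le (hT1 : St_T1) (x : Dy → ℝ) (n : ℕ) (h : nB x = n) (R : Dy) :
    0 ≤ SR one x R ∧ SR one x R ≤ n := by
  have hc := card_tr hT1 x n h
  unfold SR one
  rw [Finset.sum_const, nsmul_eq_mul, mul_one]
  refine ⟨Nat.cast_nonneg _, ?_⟩
  rw [← hc]
  exact_mod_cast Finset.card_filter_le _ _

theorem SR_one_nil (hT1 : St_T1) (x : Dy → ℝ) (n : ℕ) (h : nB x = n) : SR one x [] = n := by
  have hc := card_tr hT1 x n h
  unfold SR one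
  rw [Finset.sum_const, nsmul_eq_mul, mul_one, Finset.filter_true_of_mem, hc]
  intro A _
  exact List.nil_suffix

theorem side_sq (S : Dy) : side S ^ 2 = Real.exp (-(2 * (S.length * l2))) := by
  have h : side S = Real.exp (-(S.length * l2)) := by
    unfold side l2
    rw [Real.exp_neg, Real.exp_nat_mul, Real.exp_log (by norm_num), one_div, inv_pow]
  rw [h, ← Real.exp_nat_mul]
  congr 1
  push_cast
  ring

/-- Jensen bound for the volume of a leaf -/
theorem leaf_vol (hFE : St_FE) (hT1 : St_T1) (hRW1 : St_RW1) (hKR : St_KR) (hGEO : St_GEO1)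
    (γ : ℝ) (hγ : γ ∈ Ioo (0 : ℝ) 2) (g : Met) (M : Model) (hL : Lnk g M) (ω : Om) (S : Dy)
    (hS : S ∈ lvs (tr (M.X γ 0 ω))) :
    ENNReal.ofReal (Real.exp (bt γ * M.X γ 0 ω S)) ≤ M.volT g γ ω (box S) := by
  obtain ⟨hσ, hk, -⟩ := hKR g M hL
  have hTr : IsTr (tr (M.X γ 0 ω)) := by
    obtain ⟨-, -, -, -, -, -, -, -, -, -, -, -, -, -, h15, -⟩ := hT1
    exact h15 _
  obtain ⟨hcont, -, havg, -⟩ := hk _ hTr
  obtain ⟨hside, -, -, hbox, hsub, -⟩ := hGEO
  obtain ⟨-, -, -, -, -, -, -, hun, -⟩ := hFE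
  have : IsProbabilityMeasure (unif S) := (hun S).1.2
  have hQ : 2 < QQ γ := (hRW1.2.2 γ hγ).2.1
  set k : ℂ → ℝ := M.kr g (tr (M.X γ 0 ω)) ω with hkdef
  have hkc : Continuous k := hcont ω
  have hcpt : IsCompact (box S) := (hbox S).1
  have hms : MeasurableSet (box S) := hcpt.measurableSet
  have hs0 : 0 < side S := (hside S).1
  have hint : ∀ f : ℂ → ℝ, Continuous f → Integrable f (unif S) := by
    intro f hf
    unfold unif
    exact Integrable.smul_measure (hf.continuousOn.integrableOn_compact hcpt) ENNReal.ofReal_ne_top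
  set a : ℝ := bt γ * ω (M.eS S) with ha
  have hc2 : Continuous fun z => Real.exp (bt γ * k z) :=
    Real.continuous_exp.comp (continuous_const.mul hkc)
  have hJ : Real.exp a ≤ ∫ z, Real.exp (bt γ * k z) ∂unif S := by
    have h1 : ∫ z, Real.exp a * (1 + bt γ * k z - a) ∂unif S = Real.exp a := by
      rw [integral_const_mul, integral_sub, integral_add, integral_const_mul, havg ω S hS]
      · simp [ha]
      · exact integrable_const _
      · exact (hint _ hkc).const_mul _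
      · exact (integrable_const _).add ((hint _ hkc).const_mul _)
      · exact integrable_const _
    rw [← h1]
    refine integral_mono ?_ (hint _ hc2) ?_
    · exact hint _ (by fun_prop)
    · intro z
      have h2 := Real.add_one_le_exp (bt γ * k z - a)
      have h3 : Real.exp (bt γ * k z) = Real.exp a * Real.exp (bt γ * k z - a) := by
        rw [← Real.exp_add]; congr 1; ring
      show Real.exp a * (1 + bt γ * k z - a) ≤ Real.exp (bt γ * k z)
      rw [h3]
      exact mul_le_mul_of_nonneg_left (by linarith) (Real.exp_pos _).le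
  have hvol : M.volT g γ ω (box S) = ∫⁻ z in box S, eE (bt γ * k z) := by
    unfold Model.volT
    rw [withDensity_apply _ hms]
    refine setLIntegral_congr_fun hms ?_
    intro z hz
    have : g.σ z = 0 := hσ z ((hsub S []).2 List.nil_suffix hz)
    simp only [this, mul_zero, add_zero]
    rfl
  have hun2 : ∫⁻ z, eE (bt γ * k z) ∂unif S =
      ENNReal.ofReal (1 / side S ^ 2) * ∫⁻ z in box S, eE (bt γ * k z) := by
    unfold unif
    rw [lintegral_smul_measure, smul_eq_mul]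
  have hun3 : ENNReal.ofReal (Real.exp a) ≤ ∫⁻ z, eE (bt γ * k z) ∂unif S := by
    unfold eE
    rw [← ofReal_integral_eq_lintegral_ofReal (hint _ hc2)
      (Eventually.of_forall fun z => (Real.exp_pos _).le)]
    exact ENNReal.ofReal_le_ofReal hJ
  have hx : Real.exp (bt γ * M.X γ 0 ω S) = side S ^ 2 * Real.exp a := by
    rw [side_sq, ← Real.exp_add]
    congr 1
    have hb : bt γ * QQ γ = 2 := by
      unfold bt; field_simp
    simp only [Model.X, drift, ha]
    linear_combination (-(S.length * l2)) * hb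
  rw [hx, hvol, ENNReal.ofReal_mul (by positivity)]
  calc ENNReal.ofReal (side S ^ 2) * ENNReal.ofReal (Real.exp a)
      ≤ ENNReal.ofReal (side S ^ 2) *
        (ENNReal.ofReal (1 / side S ^ 2) * ∫⁻ z in box S, eE (bt γ * k z)) := by
        rw [← hun2]; gcongr
    _ = ∫⁻ z in box S, eE (bt γ * k z) := by
        rw [← mul_assoc, ← ENNReal.ofReal_mul (by positivity)]
        have : side S ^ 2 * (1 / side S ^ 2) = 1 := by field_simp
        rw [this, ENNReal.ofReal_one, one_mul]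

theorem vt_mem (t : ℝ) : 0 ≤ vt t ∧ vt t ≤ 1 :=
  ⟨le_min zero_le_one (le_max_left _ _), min_le_left _ _⟩

/-- lower bound of the volume by the near-threshold leaves -/
theorem vol_lower (hFE : St_FE) (hT1 : St_T1) (hRW1 : St_RW1) (hKR : St_KR) (hMV : St_MV)
    (hGEO : St_GEO1) (γ : ℝ) (hγ : γ ∈ Ioo (0 : ℝ) 2) (g : Met) (M : Model) (hL : Lnk g M)
    (lam : ℝ) (hlam : 0 < lam) (ω : Om) :
    lam * Real.exp (-(bt γ * lam)) * SR (Fm lam) (M.X γ 0 ω) [] ≤
      (M.volT g γ ω).real (box []) := by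
  set x := M.X γ 0 ω with hx
  set T := tr x with hT
  set ν := M.volT g γ ω with hν
  obtain ⟨hfin, hac⟩ := (hMV γ hγ g M hL).2.2.1 ω
  have hβ : 0 < bt γ := (hRW1.2.2 γ hγ).2.2.2.2.2.2.1
  have hleaf := leaf_vol hFE hT1 hRW1 hKR hGEO γ hγ g M hL ω
  obtain ⟨-, -, -, -, -, -, -, h8, h9, -, -, -, h13, h14, h15, -⟩ := hT1
  have hTr : IsTr T := h15 x
  obtain ⟨-, -, -, hbox, hsub, hdis, -⟩ := hGEO
  by_cases hinf : nB x = ∞
  · have : T = ∅ := h14 x hinf
    have h0 : SR (Fm lam) x [] = 0 := by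
      unfold SR; rw [← hT, this]; simp
    rw [h0, mul_zero]
    exact measureReal_nonneg
  have hHas : HasTr x T := h13 x hinf
  let I : Finset (Dy × (Fin 2 × Fin 2)) :=
    (T ×ˢ Finset.univ).filter fun p => x (p.2 :: p.1) ∈ Ioc (-lam) 0
  have hI : ∀ p ∈ I, p.2 :: p.1 ∈ lvs T ∧ -lam < x (p.2 :: p.1) := by
    intro p hp
    simp only [I, Finset.mem_filter, Finset.mem_product, Finset.mem_univ, and_true] at hp
    refine ⟨(h8 T hTr _).2 ⟨?_, ?_⟩, hp.2.1⟩
    · intro hmem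
      have := (hHas _).1 hmem _ List.suffix_rfl
      linarith [hp.2.2]
    · intro B hB hne
      rcases List.suffix_cons_iff.1 hB with h | h
      · exact absurd h hne
      · exact hTr _ hp.1 B h
  have h1 : lam * SR (Fm lam) x [] ≤ I.card := by
    unfold SR
    rw [Finset.filter_true_of_mem (fun A _ => List.nil_suffix), ← hT, Finset.mul_sum]
    have h2 : (I.card : ℝ) = ∑ A ∈ T, ∑ d : Fin 2 × Fin 2, indR (x (d :: A) ∈ Ioc (-lam) 0) := by
      rw [← Finset.sum_product (f := fun p : Dy × (Fin 2 × Fin 2) =>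
        indR (x (p.2 :: p.1) ∈ Ioc (-lam) 0))]
      simp only [I, Finset.card_filter, indR]
      push_cast
      refine Finset.sum_congr rfl fun p _ => ?_
      split_ifs <;> simp
    rw [h2]
    refine Finset.sum_le_sum fun A _ => ?_
    unfold Fm
    rw [← mul_assoc, mul_inv_cancel₀ hlam.ne', one_mul]
    refine Finset.sum_le_sum fun d _ => ?_
    have hi : 0 ≤ indR (sub x A [d] ∈ Ioc (-lam) 0) := by
      unfold indR; split_ifs <;> norm_num
    have hv := vt_mem (sub x A (sib [d]))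
    have hp0 : 0 ≤ ∏ c : Fin 2 × Fin 2, vt (sub x A [c, d]) :=
      Finset.prod_nonneg fun c _ => (vt_mem _).1
    have hp1 : ∏ c : Fin 2 × Fin 2, vt (sub x A [c, d]) ≤ 1 :=
      Finset.prod_le_one (fun c _ => (vt_mem _).1) fun c _ => (vt_mem _).2
    calc indR (sub x A [d] ∈ Ioc (-lam) 0) * vt (sub x A (sib [d])) *
          ∏ c : Fin 2 × Fin 2, vt (sub x A [c, d])
        ≤ indR (sub x A [d] ∈ Ioc (-lam) 0) * 1 * 1 := by
          gcongr
          · exact hv.2
      _ = indR (x (d :: A) ∈ Ioc (-lam) 0) := by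
          rw [mul_one, mul_one]; rfl
  have h3 : ∑ p ∈ I, ν (box (p.2 :: p.1)) ≤ ν (box []) := by
    rw [← measure_biUnion_finset₀]
    · refine measure_mono (Set.iUnion₂_subset fun p _ => (hsub _ []).2 List.nil_suffix)
    · intro p hp q hq hne
      have hp' := (hI p hp).1
      have hq' := (hI q hq).1
      have hne' : p.2 :: p.1 ≠ q.2 :: q.1 := by
        intro h
        apply hne
        rw [List.cons.injEq] at h
        exact Prod.ext h.2 h.1
      refine hac (hdis _ _ ?_ ?_).2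
      · intro h; exact hne' (h9 T hTr _ hp' _ hq' h)
      · intro h; exact hne' (h9 T hTr _ hq' _ hp' h).symm
    · intro p _
      exact (hbox _).1.measurableSet.nullMeasurableSet
  have h4 : ENNReal.ofReal (I.card * Real.exp (-(bt γ * lam))) ≤ ν (box []) := by
    refine le_trans ?_ h3
    have : ENNReal.ofReal (I.card * Real.exp (-(bt γ * lam))) =
        ∑ _p ∈ I, ENNReal.ofReal (Real.exp (-(bt γ * lam))) := by
      rw [Finset.sum_const, nsmul_eq_mul, ENNReal.ofReal_mul (Nat.cast_nonneg _),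
        ENNReal.ofReal_natCast]
    rw [this]
    refine Finset.sum_le_sum fun p hp => le_trans ?_ (hleaf _ (hI p hp).1)
    refine ENNReal.ofReal_le_ofReal (Real.exp_le_exp.2 ?_)
    have := (hI p hp).2
    nlinarith
  have h5 : I.card * Real.exp (-(bt γ * lam)) ≤ ν.real (box []) := by
    rw [Measure.real]
    exact (ENNReal.ofReal_le_iff_le_toReal (measure_ne_top _ _)).1 h4
  have he := Real.exp_pos (-(bt γ * lam))
  nlinarith

/-- the approximation property with constant `c` and tolerance `η` -/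
def Ap (γ : ℝ) (g : Met) (M : Model) (c η : ℝ) : Prop :=
  ∀ᶠ n : ℕ in atTop, ENNReal.ofReal ((n : ℝ) ^ (th γ + 2)) *
    gm {ω | nB (M.X γ 0 ω) = n ∧ (ENNReal.ofReal (η * n) < M.volT g γ ω (box [])ᶜ ∨
      ∃ R, η * n < |(M.volT g γ ω).real (box R) - c * SR one (M.X γ 0 ω) R|)} ≤ ENNReal.ofReal η

end VOL

open VOL in
theorem blk_VOL (hG1 : St_G1) (hFE : St_FE) (hT1 : St_T1) (hT3 : St_T3) (hRW1 : St_RW1)
    (hR : St_R) (hPOS : St_POS) (hLL : St_LL) (hADM : St_ADM) (hLT : St_LT) (hKR : St_KR)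
    (hMV : St_MV) (hVOL1 : St_VOL1) (hGEO : St_GEO1) : St_VOL := by
  intro γ hγ D g M hL
  have : IsProbabilityMeasure gm := hG1.1
  obtain ⟨c0, hc0, hlow⟩ := (hLT γ hγ D M hL.sub).1
  obtain ⟨Cg, hV⟩ := hVOL1 γ hγ g M hL
  have hc1 : 0 < cc γ one := (hR γ hγ).2.2.2.2.2.2
  have hlow' : ∀ᶠ n : ℕ in atTop, 1 ≤ n ∧
      c0 ≤ (n : ℝ) ^ (th γ + 2) * gm.real {ω | nB (M.X γ 0 ω) = n} := by
    filter_upwards [hlow, eventually_ge_atTop 1] with n h1 h2
    exact ⟨h2, by rw [← aL_one hT3]; exact h1⟩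
  have hpair : ∀ c η c' η', 0 < η → η ≤ c0 / 3 → 0 < η' → η' ≤ c0 / 3 → Ap γ g M c η →
      Ap γ g M c' η' → c - η ≤ c' + η' := by
    intro c η c' η' h1 h2 h3 h4 hA hA'
    obtain ⟨n, ⟨hn1, hn⟩, hb1, hb2⟩ := (hlow'.and (hA.and hA')).exists
    obtain ⟨ω, hω, hg1, hg2⟩ := common gm {ω | nB (M.X γ 0 ω) = n} _ _ _ c0 η η'
      (by positivity) h1.le h3.le (by linarith) hn hb1 hb2
    have hω' : nB (M.X γ 0 ω) = n := hω
    push Not at hg1 hg2
    have e1 := hg1.2 []
    have e2 := hg2.2 []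
    rw [SR_one_nil hT1 _ n hω'] at e1 e2
    have hnp : (0 : ℝ) < n := by exact_mod_cast hn1
    have e3 := (abs_le.1 e1).1
    have e4 := (abs_le.1 e2).2
    have : (c - η) * n ≤ (c' + η') * n := by nlinarith
    exact le_of_mul_le_mul_right this hnp
  have hex : ∀ η > 0, ∃ Mx > 0, ∃ d0 > 0, ∃ K0 : ℕ, ∀ K ≥ K0,
      Ap γ g M (cc γ (Fv γ K (Cg * K) Mx d0) / cc γ one) η := hV
  let 𝒮 : Set ℝ := {t | ∃ c η, 0 < η ∧ η ≤ c0 / 3 ∧ Ap γ g M c η ∧ t = c - η}
  have hne : 𝒮.Nonempty := by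
    obtain ⟨Mx, -, d0, -, K0, hK⟩ := hex (c0 / 3) (by positivity)
    exact ⟨_, _, _, by positivity, le_rfl, hK K0 le_rfl, rfl⟩
  have hub : ∀ c η, 0 < η → η ≤ c0 / 3 → Ap γ g M c η → ∀ t ∈ 𝒮, t ≤ c + η := by
    rintro c η h1 h2 hA t ⟨c', η', h3, h4, hA', rfl⟩
    exact hpair _ _ _ _ h3 h4 h1 h2 hA' hA
  have hbdd : BddAbove 𝒮 := by
    obtain ⟨t, c, η, h1, h2, hA, -⟩ := hne
    exact ⟨c + η, fun t ht => hub c η h1 h2 hA t ht⟩
  have hcl : ∀ c η, 0 < η → η ≤ c0 / 3 → Ap γ g M c η →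
      c - η ≤ sSup 𝒮 ∧ sSup 𝒮 ≤ c + η := fun c η h1 h2 hA =>
    ⟨le_csSup hbdd ⟨c, η, h1, h2, hA, rfl⟩, csSup_le hne (hub c η h1 h2 hA)⟩
  refine ⟨sSup 𝒮, ?_, ?_, ?_⟩
  · obtain ⟨w0, hw0, lam, hlam, hw⟩ := hPOS γ hγ
    have hw' : w0 ≤ cc γ (Fm lam) := hw lam ⟨hlam, le_rfl⟩
    set κ : ℝ := lam * Real.exp (-(bt γ * lam)) with hκ
    have hκ0 : 0 < κ := by positivity
    set u : ℝ := w0 / cc γ one with hu
    have hu0 : 0 < u := by positivity
    set η1 : ℝ := min (c0 / 3) (u / 2) with hη1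
    have hη10 : 0 < η1 := lt_min (by positivity) (by positivity)
    set η2 : ℝ := min (c0 / 3) (κ * u / 8) with hη2
    have hη20 : 0 < η2 := lt_min (by positivity) (by positivity)
    obtain ⟨Mx, -, d0, -, K0, hK⟩ := hex η2 hη20
    have hA := hK K0 le_rfl
    set c := cc γ (Fv γ K0 (Cg * K0) Mx d0) / cc γ one with hc
    have hB := hLL γ hγ M hL.sub (Fm lam) ((hADM γ hγ).1 lam hlam).1 η1 hη10
    obtain ⟨n, ⟨hn1, hn⟩, hb1, hb2⟩ := (hlow'.and (hB.and hA)).exists
    have hm1 : η1 ≤ c0 / 3 := min_le_left _ _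
    have hm2 : η2 ≤ c0 / 3 := min_le_left _ _
    obtain ⟨ω, hω, hg1, hg2⟩ := common gm {ω | nB (M.X γ 0 ω) = n} _ _ _ c0 η1 η2
      (by positivity) hη10.le hη20.le (by linarith) hn hb1 hb2
    have hω' : nB (M.X γ 0 ω) = n := hω
    push Not at hg1 hg2
    have e1 := hg1 []
    have e2 := hg2.2 []
    rw [SR_one_nil hT1 _ n hω'] at e1 e2
    have hnp : (0 : ℝ) < n := by exact_mod_cast hn1
    have e3 := (abs_le.1 e1).1
    have e4 := (abs_le.1 e2).2
    have e5 := vol_lower hFE hT1 hRW1 hKR hMV hGEO γ hγ g M hL lam hlam ω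
    have e6 : u ≤ cc γ (Fm lam) / cc γ one := by
      rw [hu]; gcongr
    have e7 : η1 ≤ u / 2 := min_le_right _ _
    have e8 : η2 ≤ κ * u / 8 := min_le_right _ _
    have e9 : u / 2 * n ≤ SR (Fm lam) (M.X γ 0 ω) [] := by nlinarith
    have e10 : κ * (u / 2 * n) ≤ (c + η2) * n := by
      have := mul_le_mul_of_nonneg_left e9 hκ0.le
      nlinarith
    have e11 : κ * (u / 2) ≤ c + η2 := by
      refine le_of_mul_le_mul_right ?_ hnp
      linarith
    have e12 := (hcl c η2 hη20 hm2 hA).1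
    have e13 : 0 < κ * u := by positivity
    linarith
  · intro B hB
    refine le_of_forall_pos_le_add fun ε hε => ?_
    set η : ℝ := min (c0 / 3) (ε / 2) with hη
    have hη0 : 0 < η := lt_min (by positivity) (by positivity)
    obtain ⟨Mx, hMx, d0, hd0, K0, hK⟩ := hex η hη0
    obtain ⟨K1, hK1⟩ := hB Cg Mx d0 hMx hd0 (ε / 2 * cc γ one) (by positivity)
    have hA := hK (max K0 K1) (le_max_left _ _)
    have h1 := hK1 (max K0 K1) (le_max_right _ _)
    have h2 := (hcl _ η hη0 (min_le_left _ _) hA).2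
    have h3 : cc γ (Fv γ (max K0 K1) (Cg * max K0 K1) Mx d0) / cc γ one ≤ B + ε / 2 := by
      rw [div_le_iff₀ hc1]; linarith
    have h4 : η ≤ ε / 2 := min_le_right _ _
    linarith
  · intro ε hε
    set η : ℝ := min (c0 / 3) (ε / 2) with hη
    have hη0 : 0 < η := lt_min (by positivity) (by positivity)
    have h4 : η ≤ ε / 2 := min_le_right _ _
    obtain ⟨Mx, -, d0, -, K0, hK⟩ := hex η hη0
    have hA := hK K0 le_rfl
    set c := cc γ (Fv γ K0 (Cg * K0) Mx d0) / cc γ one with hc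
    obtain ⟨h1, h2⟩ := hcl c η hη0 (min_le_left _ _) hA
    filter_upwards [hA] with n hn
    refine le_trans ?_ (hn.trans (ENNReal.ofReal_le_ofReal (by linarith)))
    refine mul_le_mul_right (measure_mono ?_) _
    intro ω
    have hn0 : (0 : ℝ) ≤ n := Nat.cast_nonneg n
    rintro ⟨hω, hb | ⟨R, hb⟩⟩
    · refine ⟨hω, Or.inl (lt_of_le_of_lt (ENNReal.ofReal_le_ofReal ?_) hb)⟩
      nlinarith
    · refine ⟨hω, Or.inr ⟨R, ?_⟩⟩
      obtain ⟨s0, s1⟩ := SR_one_le hT1 _ n hω R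
      have h5 : |(c - sSup 𝒮) * SR one (M.X γ 0 ω) R| ≤ η * n := by
        rw [abs_mul, abs_of_nonneg s0]
        exact mul_le_mul (abs_le.2 ⟨by linarith, by linarith⟩) s1 s0 hη0.le
      have h6 := abs_add_le ((M.volT g γ ω).real (box R) - c * SR one (M.X γ 0 ω) R)
        ((c - sSup 𝒮) * SR one (M.X γ 0 ω) R)
      have h7 : (M.volT g γ ω).real (box R) - c * SR one (M.X γ 0 ω) R +
          (c - sSup 𝒮) * SR one (M.X γ 0 ω) R =
          (M.volT g γ ω).real (box R) - sSup 𝒮 * SR one (M.X γ 0 ω) R := by ring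
      rw [h7] at h6
      nlinarith

end

end Pool.Agent.Lib.APPS
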