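import Pool.Agent.Lib.APPS.B_VOL1b

/-!
Block VOL1: approximation of the volume by a local functional.
-/

namespace Pool.Agent.Lib.APPS

open MeasureTheory ProbabilityTheory Filter Topology Set Metric
open scoped NNReal ENNReal CompactlySupported BoundedContinuousFunction RealInnerProductSpace
  Classical

noncomputable section

namespace VOL1

theorem meas_exc (hT3 : St_T3) {g : Met} {M : Model} {γ : ℝ}
    (hκ : Measurable fun p : Om × ℂ => M.kr g (tr (M.X γ 0 p.1)) p.1 p.2) (Mx : ℝ) :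
    Measurable fun ω => ∑ S ∈ lvs (tr (M.X γ 0 ω)),
      exc (bt γ) (QQ γ) Mx (M.kr g (tr (M.X γ 0 ω)) ω) S := by
  have hX := (hT3.2.2.2.2.2.2.2.2.2.2.1 M γ 0).1
  refine hT3.2.2.2.1 Om ℝ≥0∞ (M.X γ 0) (fun T ω => ∑ S ∈ lvs T,
    exc (bt γ) (QQ γ) Mx (M.kr g (tr (M.X γ 0 ω)) ω) S) hX fun T => ?_
  refine Finset.measurable_sum _ fun S _ => ?_
  unfold exc
  refine Measurable.lintegral_prod_right' (f := fun p : Om × ℂ => ENNReal.ofReal
    (Real.exp (bt γ * (M.kr g (tr (M.X γ 0 p.1)) p.1 (zS S p.2) - QQ γ * S.length * l2)) - Mx)) ?_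
  have h1 : Measurable fun p : Om × ℂ => M.kr g (tr (M.X γ 0 p.1)) p.1 (zS S p.2) :=
    hκ.comp (measurable_fst.prodMk ((cont_zS S).measurable.comp measurable_snd))
  exact ENNReal.measurable_ofReal.comp
    ((Real.measurable_exp.comp ((h1.sub_const _).const_mul _)).sub_const _)

theorem meas_lerr (hT3 : St_T3) (hp : ∀ S, Continuous (potS S)) {g : Met} {M : Model} {γ : ℝ}
    (hκ : Measurable fun p : Om × ℂ => M.kr g (tr (M.X γ 0 p.1)) p.1 p.2) (d0 : ℝ) (K D : ℕ) :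
    Measurable fun ω => ∑ A ∈ tr (M.X γ 0 ω), ∑ S ∈ lev (3 * K),
      lerr (QQ γ) d0 K D (M.kr g (tr (M.X γ 0 ω)) ω) (M.X γ 0 ω) A S := by
  have hX := (hT3.2.2.2.2.2.2.2.2.2.2.1 M γ 0).1
  refine hT3.2.2.2.1 Om ℝ≥0∞ (M.X γ 0) (fun T ω => ∑ A ∈ T, ∑ S ∈ lev (3 * K),
    lerr (QQ γ) d0 K D (M.kr g (tr (M.X γ 0 ω)) ω) (M.X γ 0 ω) A S) hX fun T => ?_
  refine Finset.measurable_sum _ fun A _ => Finset.measurable_sum _ fun S _ => ?_
  have hY : Measurable fun ω => sub (M.X γ 0 ω) A := (hT3.2.2.2.2.1 A).comp hX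
  refine hT3.2.2.2.1 Om ℝ≥0∞ (fun ω => sub (M.X γ 0 ω) A) (fun τ ω =>
    ind (Good K D τ S) * ∫⁻ z in sq d0, ENNReal.ofReal
      (min 1 |M.kr g (tr (M.X γ 0 ω)) ω (zS (S ++ A) z) - QQ γ * A.length * l2 -
        kloc (QQ γ) τ (sub (M.X γ 0 ω) A) (zS S z)|)) hY fun τ => ?_
  refine Measurable.const_mul ?_ _
  refine Measurable.lintegral_prod_right' (f := fun p : Om × ℂ => ENNReal.ofReal
    (min 1 |M.kr g (tr (M.X γ 0 p.1)) p.1 (zS (S ++ A) p.2) - QQ γ * A.length * l2 -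
        kloc (QQ γ) τ (sub (M.X γ 0 p.1) A) (zS S p.2)|)) ?_
  have h1 : Measurable fun p : Om × ℂ => M.kr g (tr (M.X γ 0 p.1)) p.1 (zS (S ++ A) p.2) :=
    hκ.comp (measurable_fst.prodMk ((cont_zS _).measurable.comp measurable_snd))
  have h2 : Measurable fun p : Om × ℂ => kloc (QQ γ) τ (sub (M.X γ 0 p.1) A) (zS S p.2) := by
    unfold kloc
    refine Finset.measurable_sum _ fun B _ => Measurable.mul ?_ ?_
    · exact ((cont_lamL hp τ B).comp (cont_zS S)).measurable.comp measurable_snd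
    · exact (((measurable_pi_apply _).comp hY).comp measurable_fst).add_const _
  exact ENNReal.measurable_ofReal.comp
    (measurable_const.min (continuous_abs.measurable.comp ((h1.sub_const _).sub h2)))

end VOL1

open VOL1 in
theorem blk_VOL1 (_hG1 : St_G1) (_hFE : St_FE) (hEXP2 : St_EXP2) (hGEO1 : St_GEO1)
    (hGEO2 : St_GEO2) (hT1 : St_T1) (hT3 : St_T3) (hRW1 : St_RW1) (hR : St_R) (_hUL : St_UL)
    (hLL : St_LL) (hADM : St_ADM) (hKR : St_KR) (hMV : St_MV) (hH5 : St_H5) (hH0 : St_H0)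
    (hH3 : St_H3) (hH4 : St_H4) : St_VOL1 := by
  intro γ hγ g M hL
  obtain ⟨Cg, h5⟩ := hH5 γ hγ
  refine ⟨Cg, fun η hη => ?_⟩
  obtain ⟨-, hQ, -, -, -, -, hβ, hβ1, -⟩ := hRW1.2.2 γ hγ
  have hβQ : bt γ * QQ γ = 2 := by unfold bt; field_simp
  have hc1 := (hR γ hγ).2.2.2.2.2.2
  have hcc := (hR γ hγ).2.1
  set ε := η / 7 with hε
  have hε0 : 0 < ε := by positivity
  obtain ⟨Mx, hM, h3⟩ := hH3 γ hγ g M hL (ε * ε) (by positivity)
  set d0 := ε / (16 * Mx) with hd0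
  have hd : 0 < d0 := by positivity
  have hdM : 16 * d0 * Mx = ε := by rw [hd0]; field_simp
  obtain ⟨K5, h5⟩ := h5 (ε * cc γ one / Mx) (by positivity)
  obtain ⟨K4, h4⟩ := hH4 γ hγ g M hL Cg d0 (ε / Mx * ε) hd (by positivity)
  refine ⟨Mx, hM, d0, hd, max 1 (max K4 K5), fun K hK => ?_⟩
  have hK1 : 1 ≤ K := le_trans (le_max_left _ _) hK
  have hK4 : K4 ≤ K := le_trans ((le_max_left _ _).trans (le_max_right _ _)) hK
  have hK5 : K5 ≤ K := le_trans ((le_max_right _ _).trans (le_max_right _ _)) hK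
  obtain ⟨hA1, hA2⟩ := (hADM γ hγ).2 K (Cg * K) Mx d0 hM hd
  obtain ⟨hσ, hkr, hκ⟩ := hKR g M hL
  have hp := cont_potS hGEO1 hEXP2
  have hX := (hT3.2.2.2.2.2.2.2.2.2.2.1 M γ 0).1
  filter_upwards [h3, h4 K hK4, hH0 γ hγ g M hL (ε * ε) (by positivity),
    hLL γ hγ M hL.sub _ hA1 ε hε0, hLL γ hγ M hL.sub _ hA2 (min ε (ε / Mx)) (by positivity),
    eventually_ge_atTop 1,
    tendsto_natCast_atTop_atTop.eventually_ge_atTop (Mx * (nsh (3 * K) + 1) / ε : ℝ)]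
    with n n3 n4 n0 nF nBd n1 nl
  have hn0 : (1 : ℝ) ≤ n := by exact_mod_cast n1
  have hpm : MeasurableSet {ω | nB (M.X γ 0 ω) = n} :=
    (hT3.1.comp hX) (measurableSet_singleton _)
  have m3 := markov hpm (meas_exc hT3 (hκ γ) Mx) hε0 n1 n3
  have m4 := markov hpm (meas_lerr hT3 hp (hκ γ) d0 K (Cg * K)) (by positivity) n1 n4
  have m0 := markov hpm ((Measure.measurable_coe (hGEO1.2.2.2.1 []).1.measurableSet.compl).comp
    (hMV γ hγ g M hL).2.2.2.1) hε0 n1 n0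
  have mB := nBd.trans (ENNReal.ofReal_le_ofReal (min_le_left _ _))
  have hsum := add_le_add (add_le_add (add_le_add (add_le_add m0 m3) m4) nF) mB
  simp only [← mul_add] at hsum
  refine le_trans (mul_le_mul_right ?_ _) (hsum.trans ?_)
  swap
  · rw [← ENNReal.ofReal_add hε0.le hε0.le, ← ENNReal.ofReal_add (by linarith) hε0.le,
      ← ENNReal.ofReal_add (by linarith) hε0.le, ← ENNReal.ofReal_add (by linarith) hε0.le]
    exact ENNReal.ofReal_le_ofReal (by linarith)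
  refine le_trans (measure_mono ?_) ((measure_union_le _ _).trans (add_le_add
    ((measure_union_le _ _).trans (add_le_add ((measure_union_le _ _).trans
      (add_le_add (measure_union_le _ _) le_rfl)) le_rfl)) le_rfl))
  rintro ω ⟨hn, hω⟩
  by_contra hc
  simp only [mem_union, mem_ofPred_eq, hn, true_and, not_or, not_lt, not_exists,
    Function.comp] at hc
  obtain ⟨⟨⟨⟨c0, c3⟩, c4⟩, cF⟩, cB⟩ := hc
  have hεη : ε * n ≤ η * n := mul_le_mul_of_nonneg_right (by linarith) (by linarith)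
  rcases hω with hω | ⟨R, hω⟩
  · exact absurd (c0.trans (ENNReal.ofReal_le_ofReal hεη)) (not_le.2 hω)
  refine absurd hω (not_lt.2 ?_)
  have hfin : nB (M.X γ 0 ω) ≠ ∞ := by rw [hn]; exact ENNReal.natCast_ne_top n
  have hTr : IsTr (tr (M.X γ 0 ω)) := hT1.2.2.2.2.2.2.2.2.2.2.2.2.2.2.1 _
  have hcard : (tr (M.X γ 0 ω)).card = n := by
    have := (hT1.2.2.2.2.2.2.2.2.2.2.2.1 _ _ (hT1.2.2.2.2.2.2.2.2.2.2.2.2.1 _ hfin)).2.2.1
    rw [hn] at this
    exact_mod_cast this.symm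
  have hvol : (M.volT g γ ω).real (box R) =
      (∫⁻ z in box R, eE (bt γ * M.kr g (tr (M.X γ 0 ω)) ω z)).toReal := by
    have hmb : MeasurableSet (box R) := (hGEO1.2.2.2.1 R).1.measurableSet
    unfold Model.volT
    rw [Measure.real, withDensity_apply _ hmb]
    congr 1
    refine setLIntegral_congr_fun hmb fun z hz => ?_
    have : z ∈ box [] := (hGEO1.2.2.2.2.1 R []).2 List.nil_suffix hz
    simp only [hσ z this, mul_zero, add_zero]
  obtain ⟨d1, d2⟩ := det hEXP2 hGEO1 hGEO2 hT1 hβ hβ1 hβQ hfin ((hkr _ hTr).1 ω) hK1 hM hd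
    (by positivity) (by positivity) c3 c4 R
  have hl : Mx * (nsh (3 * K) + 1) ≤ ε * n := by
    rw [div_le_iff₀ hε0] at nl
    linarith
  have hnsh : (0 : ℝ) ≤ Mx * nsh (3 * K) := by positivity
  have hεn : ε ≤ ε * n := le_mul_of_one_le_right hε0.le hn0
  rw [hvol]
  by_cases hRT : R ∈ tr (M.X γ 0 ω)
  · have e1 := d1 hRT
    have e2 := cF R
    have e3 := (abs_le.1 (cB R)).2
    have e4 : SR one (M.X γ 0 ω) R ≤ n := by rw [← hcard]; exact SR_one_le _ _
    have e5 : cc γ (Bad K (Cg * K)) / cc γ one ≤ ε / Mx := by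
      rw [div_le_iff₀ hc1]
      refine (h5 K hK5).trans (le_of_eq ?_)
      ring
    have e6 : cc γ (Bad K (Cg * K)) / cc γ one * SR one (M.X γ 0 ω) R ≤ ε / Mx * n :=
      (mul_le_mul_of_nonneg_left e4 (div_nonneg (hcc _) hc1.le)).trans
        (mul_le_mul_of_nonneg_right e5 (by linarith))
    have e7 : min ε (ε / Mx) * n ≤ ε / Mx * n :=
      mul_le_mul_of_nonneg_right (min_le_right _ _) (by linarith)
    have e8 : Mx * SR (Bad K (Cg * K)) (M.X γ 0 ω) R ≤ Mx * (2 * (ε / Mx * n)) :=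
      mul_le_mul_of_nonneg_left (by linarith) hM.le
    have e9 : Mx * (ε / Mx * n) = ε * n := by field_simp
    have e10 : 4 * d0 * Mx * (3 * (n : ℝ) + 1) ≤ ε * n := by
      rw [← hdM]
      have : 0 ≤ d0 * Mx := by positivity
      nlinarith
    rw [hcard] at e1
    have := abs_sub_le ((∫⁻ z in box R, eE (bt γ * M.kr g (tr (M.X γ 0 ω)) ω z)).toReal)
      (SR (Fv γ K (Cg * K) Mx d0) (M.X γ 0 ω) R)
      (cc γ (Fv γ K (Cg * K) Mx d0) / cc γ one * SR one (M.X γ 0 ω) R)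
    have e11 : η * n = 7 * (ε * n) := by rw [hε]; ring
    nlinarith
  · obtain ⟨e1, e2⟩ := d2 hRT
    rw [e2, mul_zero, sub_zero, abs_of_nonneg ENNReal.toReal_nonneg]
    have e11 : η * n = 7 * (ε * n) := by rw [hε]; ring
    nlinarith

end

end Pool.Agent.Lib.APPS
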