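import Pool.Agent.Lib.APPS.B_WILa

/-!
Block WIL: Williams type decomposition for the area measure.
-/

namespace Pool.Agent.Lib.APPS

open MeasureTheory ProbabilityTheory Filter Topology Set Metric
open scoped NNReal ENNReal CompactlySupported BoundedContinuousFunction RealInnerProductSpace
  Classical

noncomputable section

namespace WIL

theorem eps_pos (M : ℕ) : 0 < eps M := by
  unfold eps
  have : 0 < l2 := Real.log_pos (by norm_num)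
  exact Real.toNNReal_pos.2 (by positivity)

theorem ydr_cont (hBM2 : St_BM2) {γ : ℝ} (D : QD γ) (a : ℝ) :
    ∀ᵐ ω ∂D.P, Continuous (ydr a (D.β ω)) ∧ ydr a (D.β ω) 0 = 0 := by
  have h := (hBM2.2.2.2 D.Ω D.P D.β (hBM2.1 γ D).1).2.2.2.2.2.2.2.1
  filter_upwards [h] with ω hω
  refine ⟨?_, by simp [ydr, hω.2.1]⟩
  have := hω.1
  unfold ydr
  fun_prop

def Ps (θ ε : ℝ) (n : ℕ) (H : (ℕ → ℝ) → ℝ) (q : (ℝ → ℝ) × (ℝ≥0∞ × (ℕ → ℝ))) : ℝ≥0∞ :=
  ind (Neg ε q.1) * (ENNReal.ofReal (Wt θ n H q.2) * ENNReal.ofReal (q.2.2 0 / q.2.1.toReal))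

theorem meas_Ps (θ ε : ℝ) (n : ℕ) {H : (ℕ → ℝ) → ℝ} (hH : Measurable H) :
    Measurable (Ps θ ε n H) :=
  ((meas_neg ε).comp measurable_fst).mul
    (((meas_Wt θ n hH).comp measurable_snd).ennreal_ofReal.mul
      (((measurable_pi_apply 0).comp meas_nrm).comp measurable_snd).ennreal_ofReal)

/-- change of root -/
theorem ident (hBM2 : St_BM2) (hLS : St_LS) (hLAWZ : St_LAWZ) {γ : ℝ} (hγ : γ ∈ Ioo (0 : ℝ) 2)
    (D : QD γ) (g : ℕ → C_c(Cyl, ℝ)) (r : ℝ) {Ψ : (ℝ → ℝ) × (ℝ≥0∞ × (ℕ → ℝ)) → ℝ≥0∞}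
    (hΨ : Measurable Ψ) :
    ∫⁻ ω, eE (2 * aa γ * ydr (aa γ) (D.β ω) r) *
      Ψ (fun t => ydr (aa γ) (D.β ω) (r + t) - ydr (aa γ) (D.β ω) r,
        obs g (wgt γ (fun t => ydr (aa γ) (D.β ω) (r + t) - ydr (aa γ) (D.β ω) r)
          (trans r (D.nu ω)))) ∂D.P =
      ∫⁻ ω, Ψ (ydr (aa γ) (D.β ω), obs g (D.mu0 ω)) ∂D.P := by
  obtain ⟨Ψb, hm, -, hb⟩ := (hLAWZ γ hγ D g).2 Ψ hΨ
  have hy : Measurable (ydr (aa γ)) := (hBM2.2.1.2 (aa γ)).1
  have hyt : ∀ t, Measurable fun p => ydr (aa γ) p t := fun t => (measurable_pi_apply t).comp hy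
  have hc := ydr_cont hBM2 D (aa γ)
  have h1 := hb r (fun p t => ydr (aa γ) p (r + t) - ydr (aa γ) p r)
    (fun p => eE (2 * aa γ * ydr (aa γ) p r))
    (measurable_pi_lambda _ fun t => (hyt _).sub (hyt _))
    (by have := hyt r; unfold eE; fun_prop)
    (by
      filter_upwards [hc] with ω hω
      have := hω.1
      fun_prop)
  have h2 := hLS D.Ω D.P D.β (hBM2.1 γ D).1 (aa γ) r Ψb hm
  have h3 := hb 0 (ydr (aa γ)) (fun _ => 1) hy measurable_const (hc.mono fun ω hω => hω.1)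
  simp only [one_mul, trans_zero] at h3
  rw [h1, h2, ← h3]
  rfl

/-- records -/
theorem recid (hBM2 : St_BM2) (hREC1 : St_REC1) (hLAWZ : St_LAWZ) {γ : ℝ}
    (hγ : γ ∈ Ioo (0 : ℝ) 2) (ha : 0 < aa γ) (D : QD γ) (g : ℕ → C_c(Cyl, ℝ)) (M : ℕ) :
    ∃ p : ℝ≥0∞, ∀ W : ℝ≥0∞ × (ℕ → ℝ) → ℝ≥0∞, Measurable W →
      ∫⁻ ω, ind (Neg (eps M) (ydr (aa γ) (D.β ω))) * W (obs g (D.mu0 ω)) ∂D.P =
        p * ∫⁻ ω, W (obs g (wgt γ (recY (aa γ) (eps M) (D.β ω)) (D.nu ω))) ∂D.P := by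
  have hBP := (hBM2.1 γ D).1
  obtain ⟨p, -, hp⟩ := hREC1 D.Ω D.P D.β hBP (aa γ) ha (eps M) (eps_pos M)
  refine ⟨ENNReal.ofReal p, fun W hW => ?_⟩
  obtain ⟨Ψb, hm, -, hb⟩ := (hLAWZ γ hγ D g).2 (fun q => W q.2) (hW.comp measurable_snd)
  have hy : Measurable (ydr (aa γ)) := (hBM2.2.1.2 (aa γ)).1
  have hc := ydr_cont hBM2 D (aa γ)
  have h1 := hb 0 (ydr (aa γ)) (fun p => ind (Neg (eps M) (ydr (aa γ) p))) hy
    ((meas_neg _).comp hy) (hc.mono fun ω hω => hω.1)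
  have h3 := hb 0 (recY (aa γ) (eps M)) (fun _ => 1) ((hBM2.2.1.2 (aa γ)).2 _).1 measurable_const
    (Eventually.of_forall fun ω =>
      (hBM2.2.2.1 (aa γ) (D.β ω) (hBP.cont₁ ω) (hBP.cont₂ ω)).2.2 _)
  simp only [one_mul, trans_zero] at h1 h3
  rw [h3, ← hp Ψb hm]
  exact h1

def FH {γ : ℝ} (D : QD γ) (tf : ℕ → C_c(Cyl, ℝ)) (H : (ℕ → ℝ) → ℝ) (ω : D.Ω) : ℝ :=
  (D.mu0 ω).real univ ^ th γ * obsn tf (D.mu0 ω) 0 * H (obsn tf (D.mu0 ω))

theorem obsn0 (hCYL : St_CYL) {tf : ℕ → C_c(Cyl, ℝ)} (htf : IsTF tf) (m : Measure Cyl) :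
    0 ≤ obsn tf m 0 :=
  div_nonneg (integral_nonneg fun w => by
    simp only [htf.zero, Pi.zero_apply]
    exact (hCYL.2.2.2.2.2.2.2.2.2.2.2.2.2.2.2.1 w).1) measureReal_nonneg

theorem FH_nonneg (hCYL : St_CYL) {γ : ℝ} (D : QD γ) {tf : ℕ → C_c(Cyl, ℝ)} (htf : IsTF tf)
    {H : (ℕ → ℝ) → ℝ} (hH : ∀ s, 0 ≤ H s ∧ H s ≤ 1) (ω : D.Ω) : 0 ≤ FH D tf H ω :=
  mul_nonneg (mul_nonneg (Real.rpow_nonneg measureReal_nonneg _) (obsn0 hCYL htf _)) (hH _).1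

/-- the two-sided bound at mesh `eps M` -/
theorem mesh (hRW1 : St_RW1) (hCYL : St_CYL) (hBM2 : St_BM2) (hLS : St_LS) (hREC1 : St_REC1)
    (hREC2 : St_REC2) (hLAWZ : St_LAWZ) (hMU0 : St_MU0) {γ : ℝ} (hγ : γ ∈ Ioo (0 : ℝ) 2)
    (D : QD γ) {tf : ℕ → C_c(Cyl, ℝ)} (htf : IsTF tf) (M : ℕ) :
    ∃ κ : ℝ≥0∞, ∀ (H : (ℕ → ℝ) → ℝ) (n : ℕ), Measurable H → (∀ s, 0 ≤ H s ∧ H s ≤ 1) →
      (∀ m r, GoodM m → H (obsn tf (trans r m)) = H (obsn tf m)) →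
      ∫⁻ ω, ENNReal.ofReal (FH D tf H ω * cut n ((D.mu0 ω).real univ)) ∂D.P ≤
        κ * ∫⁻ ω, ENNReal.ofReal
          (Wt (th γ) n H (obs tf (wgt γ (recY (aa γ) (eps M) (D.β ω)) (D.nu ω)))) ∂D.P ∧
      κ * ∫⁻ ω, ENNReal.ofReal
          (Wt (th γ) n H (obs tf (wgt γ (recY (aa γ) (eps M) (D.β ω)) (D.nu ω)))) ∂D.P ≤
        ∫⁻ ω, ENNReal.ofReal (FH D tf H ω) ∂D.P := by
  obtain ⟨ha, -, hθ, hγθ, -⟩ := hRW1.2.2 γ hγ
  obtain ⟨p, hp⟩ := recid hBM2 hREC1 hLAWZ hγ ha D tf M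
  refine ⟨(M + 1) * p, fun H n hH hH1 hinv => ?_⟩
  have hBP := (hBM2.1 γ D).1
  have hβ : Measurable D.β := hBP.meas
  have hy : Measurable (ydr (aa γ)) := (hBM2.2.1.2 (aa γ)).1
  have hyt : ∀ t, Measurable fun ω => ydr (aa γ) (D.β ω) t := fun t =>
    ((measurable_pi_apply t).comp hy).comp hβ
  have hc := ydr_cont hBM2 D (aa γ)
  have hgood := (hMU0.2 γ hγ D).1
  have hobs : ∀ g, AEMeasurable (fun ω => obs g (D.mu0 ω)) D.P := fun g => by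
    have := (hLAWZ γ hγ D g).1 0 (ydr (aa γ)) hy (hc.mono fun ω hω => hω.1)
    simp only [trans_zero] at this
    exact this
  set ε : ℝ := (eps M : ℝ) with hε
  have hε0 : 0 < ε := eps_pos M
  -- the terms of the sum over roots
  let U : D.Ω → ℝ → ℝ≥0∞ := fun ω y =>
    ENNReal.ofReal (FH D tf H ω * cut n (Real.exp (-γ * y) * (D.mu0 ω).real univ))
  let A : ℤ → D.Ω → ℝ≥0∞ := fun i ω =>
    ind (Neg ε fun t => ydr (aa γ) (D.β ω) (i * ε + t) - ydr (aa γ) (D.β ω) (i * ε)) *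
      U ω (ydr (aa γ) (D.β ω) (i * ε))
  have hmass : AEMeasurable (fun ω => (D.mu0 ω).real univ) D.P :=
    (hobs tf).fst.ennreal_toReal
  have hnr : AEMeasurable (fun ω => obsn tf (D.mu0 ω)) D.P :=
    meas_nrm.comp_aemeasurable (hobs tf)
  have hFH : AEMeasurable (FH D tf H) D.P :=
    ((hmass.pow_const _).mul ((measurable_pi_apply 0).comp_aemeasurable hnr)).mul
      (hH.comp_aemeasurable hnr)
  have hA : ∀ i, AEMeasurable (A i) D.P := by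
    intro i
    refine AEMeasurable.mul ((meas_neg ε).comp
      (measurable_pi_lambda _ fun t => (hyt _).sub (hyt _))).aemeasurable ?_
    refine (hFH.mul ((cut_cont n).measurable.comp_aemeasurable
      (AEMeasurable.mul ?_ hmass))).ennreal_ofReal
    exact (Real.measurable_exp.comp ((hyt _).const_mul _)).aemeasurable
  have hAi : ∀ i : ℤ, ∫⁻ ω, A i ω ∂D.P = ∫⁻ ω, ind (Neg ε (ydr (aa γ) (D.β ω))) *
      ENNReal.ofReal (Wt (th γ) n H (obs tf (D.mu0 ω))) *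
        ENNReal.ofReal (obsn (sg tf (i * ε)) (D.mu0 ω) 0) ∂D.P := by
    intro i
    have h := ident hBM2 hLS hLAWZ hγ D (sg tf (i * ε)) (i * ε) (meas_Ps (th γ) ε n hH)
    refine Eq.trans (lintegral_congr_ae ?_) (h.trans (lintegral_congr_ae ?_))
    · filter_upwards [hc] with ω hω
      obtain ⟨e1, e2⟩ := shift_facts γ (i * ε) tf (D.nu ω) hω.1.measurable
      simp only [A, U, Ps]
      rw [mul_left_comm]
      congr 1
      rw [Wt_obs]
      change _ = _ * (_ * ENNReal.ofReal (obsn (sg tf (i * ε)) _ 0))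
      rw [e1, e2, eE, ← ENNReal.ofReal_mul (by
        refine mul_nonneg (mul_nonneg (Real.rpow_nonneg ?_ _) (cut_nonneg _ _)) (hH1 _).1
        exact mul_nonneg (Real.exp_pos _).le measureReal_nonneg),
        ← ENNReal.ofReal_mul (Real.exp_pos _).le]
      congr 1
      rw [Real.mul_rpow (Real.exp_pos _).le measureReal_nonneg, ← Real.exp_mul]
      have e3 : Real.exp (2 * aa γ * ydr (aa γ) (D.β ω) (i * ε)) *
          Real.exp (-γ * ydr (aa γ) (D.β ω) (i * ε) * th γ) = 1 := by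
        rw [← Real.exp_add, ← hγθ, ← Real.exp_zero]; congr 1; ring
      unfold FH QD.mu0
      linear_combination (-(wgt γ (ydr (aa γ) (D.β ω)) (D.nu ω)).real univ ^ th γ *
        cut n (Real.exp (-γ * ydr (aa γ) (D.β ω) (i * ε)) *
          (wgt γ (ydr (aa γ) (D.β ω)) (D.nu ω)).real univ) *
        H (obsn tf (wgt γ (ydr (aa γ) (D.β ω)) (D.nu ω))) *
        obsn tf (wgt γ (ydr (aa γ) (D.β ω)) (D.nu ω)) 0) * e3
    · filter_upwards [hgood] with ω hω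
      simp only [Ps]
      rw [Wt_obs, Wt_obs, mul_assoc (ind _)]
      change _ * (_ * ENNReal.ofReal (obsn (sg tf (i * ε)) _ 0)) = _
      rw [obsn_sg tf (i * ε) (D.mu0 ω), hinv _ _ hω.1]
  have hW : AEMeasurable (fun ω => ind (Neg ε (ydr (aa γ) (D.β ω))) *
      ENNReal.ofReal (Wt (th γ) n H (obs tf (D.mu0 ω)))) D.P :=
    (((meas_neg ε).comp hy).comp hβ).aemeasurable.mul
      ((meas_Wt _ n hH).comp_aemeasurable (hobs tf)).ennreal_ofReal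
  have hsum : ∫⁻ ω, ∑' i : ℤ, A i ω ∂D.P = (M + 1) * p * ∫⁻ ω, ENNReal.ofReal
      (Wt (th γ) n H (obs tf (wgt γ (recY (aa γ) (eps M) (D.β ω)) (D.nu ω)))) ∂D.P := by
    rw [lintegral_tsum hA]
    simp only [hAi]
    have hm : ∀ i : ℤ, AEMeasurable (fun ω => ind (Neg ε (ydr (aa γ) (D.β ω))) *
        ENNReal.ofReal (Wt (th γ) n H (obs tf (D.mu0 ω))) *
          ENNReal.ofReal (obsn (sg tf (i * ε)) (D.mu0 ω) 0)) D.P := fun i =>
      hW.mul (((measurable_pi_apply 0).comp meas_nrm).comp_aemeasurable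
        (hobs (sg tf (i * ε)))).ennreal_ofReal
    rw [← lintegral_tsum hm, mul_assoc,
      ← hp (fun o => ENNReal.ofReal (Wt (th γ) n H o)) (meas_Wt _ n hH).ennreal_ofReal,
      ← lintegral_const_mul'' _ hW]
    refine lintegral_congr_ae ?_
    filter_upwards [hgood] with ω hω
    rw [ENNReal.tsum_mul_left, mul_comm]
    congr 1
    exact sum_hat hCYL htf M hω.1
  have hb : ∀ᵐ ω ∂D.P, ENNReal.ofReal (FH D tf H ω * cut n ((D.mu0 ω).real univ)) ≤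
      ∑' i : ℤ, A i ω ∧ ∑' i : ℤ, A i ω ≤ ENNReal.ofReal (FH D tf H ω) := by
    have hne := (hBM2.2.2.2 D.Ω D.P D.β hBP).2.2.2.2.2.2.2.2.2.1 (aa γ) (eps M) (eps_pos M)
    filter_upwards [hc, hne, hREC2 D.Ω D.P D.β hBP (aa γ) ha] with ω h1 h2 h3
    obtain ⟨-, C, hC⟩ := h3
    have hF := FH_nonneg hCYL D htf hH1 ω
    refine sum_bounds hε0 (half_pos ha) (fun t => (hC t).2.1) h1.2 h2 (U ω) _ _ (fun y hy0 => ?_)
      fun y => ?_
    · refine ENNReal.ofReal_le_ofReal (mul_le_mul_of_nonneg_left (cut_anti n ?_) hF)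
      refine mul_le_of_le_one_left measureReal_nonneg (Real.exp_le_one_iff.2 ?_)
      nlinarith [hγ.1]
    · exact ENNReal.ofReal_le_ofReal (mul_le_of_le_one_right hF (cut_le _ _))
  rw [← hsum]
  exact ⟨lintegral_mono_ae (hb.mono fun _ h => h.1), lintegral_mono_ae (hb.mono fun _ h => h.2)⟩

/-- convergence of the record measures -/
theorem reclim (hRW1 : St_RW1) (hBM2 : St_BM2) (hREC2 : St_REC2) (hBR0 : St_BR0) (hNU : St_NU)
    {γ : ℝ} (hγ : γ ∈ Ioo (0 : ℝ) 2) (D : QD γ) :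
    ∀ᵐ ω ∂D.P, WC (fun M => wgt γ (recY (aa γ) (eps M) (D.β ω)) (D.nu ω)) (D.μ ω) := by
  have ha := (hRW1.2.2 γ hγ).1
  have hBP := (hBM2.1 γ D).1
  filter_upwards [hREC2 D.Ω D.P D.β hBP (aa γ) ha, (hNU γ hγ D).1] with ω h1 h2
  obtain ⟨hu, C, hC⟩ := h1
  have h3 := hBM2.2.2.1 (aa γ) (D.β ω) (hBP.cont₁ ω) (hBP.cont₂ ω)
  have h4 := wc_wgt hγ.1 (half_pos ha) h2 (fun M => (h3.2.2 _).measurable) h3.1
    (fun M t => (hC t).2.2 M) fun t => (hu |t|).tendsto_at ⟨neg_abs_le t, le_abs_self t⟩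
  rwa [((hBR0 γ hγ D).1 ω).2] at h4

theorem cut_lim {Ω : Type} [MeasurableSpace Ω] (P : Measure Ω) {F x : Ω → ℝ}
    (hF : AEMeasurable F P) (hx : AEMeasurable x P) (h0 : ∀ ω, 0 ≤ F ω) :
    Tendsto (fun n : ℕ => ∫⁻ ω, ENNReal.ofReal (F ω * cut n (x ω)) ∂P) atTop
      (𝓝 (∫⁻ ω, ENNReal.ofReal (F ω) ∂P)) := by
  refine lintegral_tendsto_of_tendsto_of_monotone
    (fun n => (hF.mul ((cut_cont n).measurable.comp_aemeasurable hx)).ennreal_ofReal)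
    (Eventually.of_forall fun ω n m h => ENNReal.ofReal_le_ofReal
      (mul_le_mul_of_nonneg_left (cut_mono _ h) (h0 ω)))
    (Eventually.of_forall fun ω => tendsto_const_nhds.congr' ?_)
  filter_upwards [cut_ev (x ω)] with n hn
  rw [hn, mul_one]

end WIL

open WIL in
theorem blk_WIL (_hG1 : St_G1) (hRW1 : St_RW1) (hCYL : St_CYL) (_hPHI : St_PHI) (hBM2 : St_BM2)
    (hLS : St_LS) (hREC1 : St_REC1) (hREC2 : St_REC2) (hBR0 : St_BR0) (hLAWZ : St_LAWZ)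
    (hNU : St_NU) (hMU0 : St_MU0) : St_WIL := by
  intro γ hγ D tf htf
  obtain ⟨ha, -, hθ, -⟩ := hRW1.2.2 γ hγ
  obtain ⟨hBP, hP⟩ := hBM2.1 γ D
  choose κs hκs using mesh hRW1 hCYL hBM2 hLS hREC1 hREC2 hLAWZ hMU0 hγ D htf
  obtain ⟨κ, φ, hφ, hκ⟩ := CompactSpace.tendsto_subseq κs
  have hwc := reclim hRW1 hBM2 hREC2 hBR0 hNU hγ D
  obtain ⟨hgood, hmu⟩ := hMU0.2 γ hγ D
  obtain ⟨hobs0, -, -, hint, hLz⟩ := hmu tf htf
  have hobs : ∀ M, AEMeasurable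
      (fun ω => obs tf (wgt γ (recY (aa γ) (eps M) (D.β ω)) (D.nu ω))) D.P := fun M => by
    have := (hLAWZ γ hγ D tf).1 0 (recY (aa γ) (eps M)) ((hBM2.2.1.2 (aa γ)).2 _).1
      (Eventually.of_forall fun ω =>
        (hBM2.2.2.1 (aa γ) (D.β ω) (hBP.cont₁ ω) (hBP.cont₂ ω)).2.2 _)
    simpa only [trans_zero] using this
  have hmass : Measurable fun ω => (D.μ ω).real univ :=
    ((Measure.measurable_coe MeasurableSet.univ).comp D.hq.measμ).ennreal_toReal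
  have hmass0 : AEMeasurable (fun ω => (D.mu0 ω).real univ) D.P := hobs0.fst.ennreal_toReal
  let Ok : ((ℕ → ℝ) → ℝ) → Prop := fun H => Measurable H ∧ (∀ s, 0 ≤ H s ∧ H s ≤ 1) ∧
    (∀ m r, GoodM m → H (obsn tf (trans r m)) = H (obsn tf m)) ∧
    ∀ (ms : ℕ → Measure Cyl) m, (∀ n, GoodM (ms n)) → GoodM m → WC ms m →
      Tendsto (fun n => H (obsn tf (ms n))) atTop (𝓝 (H (obsn tf m)))
  have ok1 : Ok one' := ⟨measurable_const, fun _ => ⟨zero_le_one, le_rfl⟩, fun _ _ _ => rfl,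
    fun _ _ _ _ _ => tendsto_const_nhds⟩
  let G : ((ℕ → ℝ) → ℝ) → D.Ω → ℝ := fun H ω => (D.μ ω).real univ ^ th γ * H (obsn tf (D.μ ω))
  have hG0 : ∀ H, Ok H → ∀ ω, 0 ≤ G H ω := fun H h ω =>
    mul_nonneg (Real.rpow_nonneg measureReal_nonneg _) (h.2.1 _).1
  have hHl : ∀ H, Ok H → ∀ᵐ ω ∂D.P, Tendsto
      (fun M => H (obsn tf (wgt γ (recY (aa γ) (eps M) (D.β ω)) (D.nu ω)))) atTop
      (𝓝 (H (obsn tf (D.μ ω)))) := fun H h => by
    filter_upwards [hgood, hwc] with ω h1 h2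
    exact h.2.2.2 _ _ h1.2.2 h1.2.1 h2
  have hGm : ∀ H, Ok H → AEMeasurable (G H) D.P := fun H h =>
    (hmass.pow_const _).aemeasurable.mul (aemeasurable_of_tendsto_metrizable_ae' (fun M =>
      h.1.comp_aemeasurable (meas_nrm.comp_aemeasurable (hobs M))) (hHl H h))
  let R : ((ℕ → ℝ) → ℝ) → ℕ → ℝ≥0∞ := fun H n =>
    ∫⁻ ω, ENNReal.ofReal (G H ω * cut n ((D.μ ω).real univ)) ∂D.P
  have hWb : ∀ H, Ok H → ∀ n m, Wt (th γ) n H (obs tf m) ≤ (n + 1 : ℝ) ^ th γ := by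
    intro H h n m
    rw [Wt_obs]
    exact (mul_le_of_le_one_right (mul_nonneg (Real.rpow_nonneg measureReal_nonneg _)
      (cut_nonneg _ _)) (h.2.1 _).2).trans (cut_bd n hθ.le measureReal_nonneg)
  have hRfin : ∀ H, Ok H → ∀ n, R H n ≠ ∞ := by
    intro H h n
    refine ne_top_of_le_ne_top (b := ∫⁻ _, ENNReal.ofReal ((n + 1 : ℝ) ^ th γ) ∂D.P) (by simp)
      (lintegral_mono fun ω => ENNReal.ofReal_le_ofReal ?_)
    have := hWb H h n (D.μ ω)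
    rw [Wt_obs] at this
    simp only [G]
    linarith
  have hRl : ∀ H, Ok H → ∀ n, Tendsto (fun M => ∫⁻ ω, ENNReal.ofReal
      (Wt (th γ) n H (obs tf (wgt γ (recY (aa γ) (eps M) (D.β ω)) (D.nu ω)))) ∂D.P) atTop
      (𝓝 (R H n)) := by
    intro H h n
    refine tendsto_lintegral_of_dominated_convergence'
      (fun _ => ENNReal.ofReal ((n + 1 : ℝ) ^ th γ))
      (fun M => ((meas_Wt _ n h.1).comp_aemeasurable (hobs M)).ennreal_ofReal)
      (fun M => Eventually.of_forall fun ω => ENNReal.ofReal_le_ofReal (hWb H h n _)) (by simp) ?_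
    filter_upwards [hwc, hHl H h] with ω h1 h2
    refine ENNReal.tendsto_ofReal ?_
    have h3 := wc_mass h1
    have h4 := ((h3.rpow_const (Or.inr hθ.le)).mul (((cut_cont n).tendsto _).comp h3)).mul h2
    simp only [Wt_obs, G]
    rw [mul_right_comm]
    exact h4
  have hF0 : ∀ H, Ok H → ∀ ω, 0 ≤ FH D tf H ω := fun H h => FH_nonneg hCYL D htf h.2.1
  have hFi : ∀ H, Ok H → Integrable (FH D tf H) D.P := fun H h => (hint H h.1 h.2.1).1
  have hA : ∀ H, Ok H → ∫⁻ ω, ENNReal.ofReal (FH D tf H ω) ∂D.P = ENNReal.ofReal (D.Lz tf H) :=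
    fun H h => (ofReal_integral_eq_lintegral_ofReal (hFi H h)
      (Eventually.of_forall (hF0 H h))).symm
  have hlim : ∀ H, Ok H → ∀ n, R H n ≠ 0 ∨ κ ≠ ∞ →
      ∫⁻ ω, ENNReal.ofReal (FH D tf H ω * cut n ((D.mu0 ω).real univ)) ∂D.P ≤ κ * R H n ∧
        κ * R H n ≤ ENNReal.ofReal (D.Lz tf H) := by
    intro H h n hn
    have ht := ENNReal.Tendsto.mul hκ (Or.inr (hRfin H h n))
      ((hRl H h n).comp hφ.tendsto_atTop) hn
    rw [← hA H h]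
    exact ⟨ge_of_tendsto' ht fun M => (hκs (φ M) H n h.1 h.2.1 h.2.2.1).1,
      le_of_tendsto' ht fun M => (hκs (φ M) H n h.1 h.2.1 h.2.2.1).2⟩
  have hRn : ∀ H, Ok H → Tendsto (R H) atTop (𝓝 (∫⁻ ω, ENNReal.ofReal (G H ω) ∂D.P)) :=
    fun H h => cut_lim D.P (hGm H h) hmass.aemeasurable (hG0 H h)
  have hAn : ∀ H, Ok H → Tendsto (fun n : ℕ =>
      ∫⁻ ω, ENNReal.ofReal (FH D tf H ω * cut n ((D.mu0 ω).real univ)) ∂D.P) atTop
      (𝓝 (ENNReal.ofReal (D.Lz tf H))) := fun H h => by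
    rw [← hA H h]
    exact cut_lim D.P (hFi H h).aemeasurable hmass0 (hF0 H h)
  have hpos : ∫⁻ ω, ENNReal.ofReal (G one' ω) ∂D.P ≠ 0 := by
    intro h0
    rw [lintegral_eq_zero_iff' (hGm _ ok1).ennreal_ofReal] at h0
    have : ∀ᵐ ω ∂D.P, False := by
      filter_upwards [h0, hgood] with ω h1 h2
      have h3 : 0 < (D.μ ω).real univ :=
        ENNReal.toReal_pos (h2.2.1.2.2 _ isOpen_univ univ_nonempty) h2.2.1.1
      simp only [Pi.zero_apply, ENNReal.ofReal_eq_zero, G, one', mul_one] at h1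
      exact absurd h1 (not_le.2 (Real.rpow_pos_of_pos h3 _))
    exact this.exists.elim fun _ h => h
  have hκt : κ ≠ ∞ := by
    obtain ⟨n, hn⟩ := ((hRn _ ok1).eventually_ne hpos).exists
    intro h
    have := (hlim _ ok1 n (Or.inl hn)).2
    rw [h, ENNReal.top_mul hn] at this
    exact absurd (top_le_iff.1 this) ENNReal.ofReal_ne_top
  have hκ0 : κ ≠ 0 := by
    obtain ⟨n, hn⟩ := ((hAn _ ok1).eventually_ne (ENNReal.ofReal_pos.2 hLz).ne').exists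
    intro h
    have := (hlim _ ok1 n (Or.inr hκt)).1
    rw [h, zero_mul] at this
    exact hn (le_antisymm this zero_le)
  have hmain : ∀ H, Ok H →
      ENNReal.ofReal (D.Lz tf H) = κ * ∫⁻ ω, ENNReal.ofReal (G H ω) ∂D.P := by
    intro H h
    have ht := ENNReal.Tendsto.const_mul (a := κ) (hRn H h) (Or.inr hκt)
    exact le_antisymm
      (le_of_tendsto_of_tendsto' (hAn H h) ht fun n => (hlim H h n (Or.inr hκt)).1)
      (le_of_tendsto' ht fun n => (hlim H h n (Or.inr hκt)).2)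
  refine ⟨κ.toReal, ENNReal.toReal_pos hκ0 hκt, ?_, fun H h1 h2 h3 h4 => ?_⟩
  · have h := hmain _ ok1
    refine ⟨(hmass.pow_const _).aestronglyMeasurable, ?_⟩
    rw [hasFiniteIntegral_iff_ofReal
      (Eventually.of_forall fun ω => Real.rpow_nonneg measureReal_nonneg _)]
    simp only [G, one', mul_one] at h
    rw [lt_top_iff_ne_top]
    intro ht
    rw [ht, ENNReal.mul_top hκ0] at h
    exact ENNReal.ofReal_ne_top h
  · have ok : Ok H := ⟨h1, h2, h3, h4⟩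
    have h := congrArg ENNReal.toReal (hmain H ok)
    rw [ENNReal.toReal_ofReal (hint H h1 h2).2.1, ENNReal.toReal_mul,
      ← integral_eq_lintegral_of_nonneg_ae (Eventually.of_forall (hG0 H ok))
        (hGm H ok).aestronglyMeasurable] at h
    exact h

end

end Pool.Agent.Lib.APPS
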