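import Pool.Agent.Lib.APPS.B_ADM
import Pool.Agent.Lib.APPS.B_ANC
import Pool.Agent.Lib.APPS.B_BATH
import Pool.Agent.Lib.APPS.B_BM2
import Pool.Agent.Lib.APPS.B_BMP
import Pool.Agent.Lib.APPS.B_BMX
import Pool.Agent.Lib.APPS.B_BR
import Pool.Agent.Lib.APPS.B_BR0
import Pool.Agent.Lib.APPS.B_BRa
import Pool.Agent.Lib.APPS.B_BRb
import Pool.Agent.Lib.APPS.B_CH
import Pool.Agent.Lib.APPS.B_CR
import Pool.Agent.Lib.APPS.B_CR2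
import Pool.Agent.Lib.APPS.B_CYL
import Pool.Agent.Lib.APPS.B_DISC
import Pool.Agent.Lib.APPS.B_ENV
import Pool.Agent.Lib.APPS.B_EXP1
import Pool.Agent.Lib.APPS.B_EXP2
import Pool.Agent.Lib.APPS.B_F1
import Pool.Agent.Lib.APPS.B_F2
import Pool.Agent.Lib.APPS.B_F2E
import Pool.Agent.Lib.APPS.B_F2T
import Pool.Agent.Lib.APPS.B_FA
import Pool.Agent.Lib.APPS.B_FA1
import Pool.Agent.Lib.APPS.B_FA2
import Pool.Agent.Lib.APPS.B_FAC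
import Pool.Agent.Lib.APPS.B_FAR
import Pool.Agent.Lib.APPS.B_FE
import Pool.Agent.Lib.APPS.B_FIN
import Pool.Agent.Lib.APPS.B_FM
import Pool.Agent.Lib.APPS.B_G1
import Pool.Agent.Lib.APPS.B_G1D
import Pool.Agent.Lib.APPS.B_G2
import Pool.Agent.Lib.APPS.B_G3
import Pool.Agent.Lib.APPS.B_G3W
import Pool.Agent.Lib.APPS.B_G4
import Pool.Agent.Lib.APPS.B_G5
import Pool.Agent.Lib.APPS.B_GEO1
import Pool.Agent.Lib.APPS.B_GEO2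
import Pool.Agent.Lib.APPS.B_GR
import Pool.Agent.Lib.APPS.B_GV
import Pool.Agent.Lib.APPS.B_H0
import Pool.Agent.Lib.APPS.B_H0L
import Pool.Agent.Lib.APPS.B_H3
import Pool.Agent.Lib.APPS.B_H4
import Pool.Agent.Lib.APPS.B_H4a
import Pool.Agent.Lib.APPS.B_H5
import Pool.Agent.Lib.APPS.B_JR
import Pool.Agent.Lib.APPS.B_KR
import Pool.Agent.Lib.APPS.B_LAT
import Pool.Agent.Lib.APPS.B_LAWZ
import Pool.Agent.Lib.APPS.B_LF1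
import Pool.Agent.Lib.APPS.B_LL
import Pool.Agent.Lib.APPS.B_LL0
import Pool.Agent.Lib.APPS.B_LLE
import Pool.Agent.Lib.APPS.B_LLM
import Pool.Agent.Lib.APPS.B_LLN
import Pool.Agent.Lib.APPS.B_LOCV
import Pool.Agent.Lib.APPS.B_LOW
import Pool.Agent.Lib.APPS.B_LS
import Pool.Agent.Lib.APPS.B_LT
import Pool.Agent.Lib.APPS.B_LT0
import Pool.Agent.Lib.APPS.B_LZ1
import Pool.Agent.Lib.APPS.B_LZ2
import Pool.Agent.Lib.APPS.B_M0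
import Pool.Agent.Lib.APPS.B_MAC
import Pool.Agent.Lib.APPS.B_MB
import Pool.Agent.Lib.APPS.B_MBM
import Pool.Agent.Lib.APPS.B_MBW
import Pool.Agent.Lib.APPS.B_MBb
import Pool.Agent.Lib.APPS.B_MG1
import Pool.Agent.Lib.APPS.B_MG2
import Pool.Agent.Lib.APPS.B_MG3
import Pool.Agent.Lib.APPS.B_MOD
import Pool.Agent.Lib.APPS.B_MS
import Pool.Agent.Lib.APPS.B_MT1
import Pool.Agent.Lib.APPS.B_MT2
import Pool.Agent.Lib.APPS.B_MT2L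
import Pool.Agent.Lib.APPS.B_MT3
import Pool.Agent.Lib.APPS.B_MT4a
import Pool.Agent.Lib.APPS.B_MT4b
import Pool.Agent.Lib.APPS.B_MTC
import Pool.Agent.Lib.APPS.B_MU0
import Pool.Agent.Lib.APPS.B_MV
import Pool.Agent.Lib.APPS.B_NF1
import Pool.Agent.Lib.APPS.B_NF2
import Pool.Agent.Lib.APPS.B_NF3
import Pool.Agent.Lib.APPS.B_NI
import Pool.Agent.Lib.APPS.B_NMS
import Pool.Agent.Lib.APPS.B_NP1
import Pool.Agent.Lib.APPS.B_NRa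
import Pool.Agent.Lib.APPS.B_NRb
import Pool.Agent.Lib.APPS.B_NU
import Pool.Agent.Lib.APPS.B_NU1
import Pool.Agent.Lib.APPS.B_NUM
import Pool.Agent.Lib.APPS.B_OBS
import Pool.Agent.Lib.APPS.B_P1
import Pool.Agent.Lib.APPS.B_P2
import Pool.Agent.Lib.APPS.B_PA
import Pool.Agent.Lib.APPS.B_PHI
import Pool.Agent.Lib.APPS.B_POIN
import Pool.Agent.Lib.APPS.B_POS
import Pool.Agent.Lib.APPS.B_PRD
import Pool.Agent.Lib.APPS.B_PRJ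
import Pool.Agent.Lib.APPS.B_QV
import Pool.Agent.Lib.APPS.B_R
import Pool.Agent.Lib.APPS.B_R0
import Pool.Agent.Lib.APPS.B_REC1
import Pool.Agent.Lib.APPS.B_REC2
import Pool.Agent.Lib.APPS.B_RIEM
import Pool.Agent.Lib.APPS.B_ROS
import Pool.Agent.Lib.APPS.B_RUA
import Pool.Agent.Lib.APPS.B_RUF
import Pool.Agent.Lib.APPS.B_RUG
import Pool.Agent.Lib.APPS.B_RUL
import Pool.Agent.Lib.APPS.B_RUN
import Pool.Agent.Lib.APPS.B_RUS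
import Pool.Agent.Lib.APPS.B_RW1
import Pool.Agent.Lib.APPS.B_RW2
import Pool.Agent.Lib.APPS.B_RW6
import Pool.Agent.Lib.APPS.B_SCR
import Pool.Agent.Lib.APPS.B_SCR0
import Pool.Agent.Lib.APPS.B_SCR1
import Pool.Agent.Lib.APPS.B_SI
import Pool.Agent.Lib.APPS.B_ST
import Pool.Agent.Lib.APPS.B_ST2
import Pool.Agent.Lib.APPS.B_ST3
import Pool.Agent.Lib.APPS.B_ST4
import Pool.Agent.Lib.APPS.B_STR
import Pool.Agent.Lib.APPS.B_T1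
import Pool.Agent.Lib.APPS.B_T3
import Pool.Agent.Lib.APPS.B_TF
import Pool.Agent.Lib.APPS.B_THL
import Pool.Agent.Lib.APPS.B_TL
import Pool.Agent.Lib.APPS.B_TLD
import Pool.Agent.Lib.APPS.B_U
import Pool.Agent.Lib.APPS.B_UB
import Pool.Agent.Lib.APPS.B_UE
import Pool.Agent.Lib.APPS.B_UL
import Pool.Agent.Lib.APPS.B_VOL
import Pool.Agent.Lib.APPS.B_VOL1
import Pool.Agent.Lib.APPS.B_WIL
import Pool.Agent.Lib.APPS.B_WLB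
import Pool.Agent.Lib.APPS.B_YV

namespace Pool.Agent.Lib.APPS

theorem st_G1 : St_G1 :=
  blk_G1 
theorem st_G2 : St_G2 :=
  blk_G2 st_G1
theorem st_G1D : St_G1D :=
  blk_G1D st_G1 st_G2
theorem st_G3 : St_G3 :=
  blk_G3 st_G1 st_G2
theorem st_G4 : St_G4 :=
  blk_G4 st_G1 st_G1D st_G2 st_G3
theorem st_SI : St_SI :=
  blk_SI st_G1 st_G1D st_G2
theorem st_CH : St_CH :=
  blk_CH st_G1 st_G1D
theorem st_ROS : St_ROS :=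
  blk_ROS 
theorem st_P1 : St_P1 :=
  blk_P1 
theorem st_EXP1 : St_EXP1 :=
  blk_EXP1 
theorem st_P2 : St_P2 :=
  blk_P2 st_P1 st_EXP1
theorem st_T1 : St_T1 :=
  blk_T1 
theorem st_GEO1 : St_GEO1 :=
  blk_GEO1 st_T1
theorem st_FE : St_FE :=
  blk_FE st_EXP1 st_GEO1
theorem st_EXP2 : St_EXP2 :=
  blk_EXP2 st_EXP1 st_GEO1 st_FE
theorem st_M0 : St_M0 :=
  blk_M0 st_P1 st_P2 st_FE st_EXP1
theorem st_GEO2 : St_GEO2 :=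
  blk_GEO2 st_T1 st_GEO1
theorem st_MOD : St_MOD :=
  blk_MOD st_P1 st_FE st_EXP1 st_EXP2 st_GEO1 st_GEO2 st_T1 st_G1
theorem st_BMP : St_BMP :=
  blk_BMP st_P1 st_FE st_EXP1 st_EXP2 st_GEO1 st_MOD
theorem st_YV : St_YV :=
  blk_YV st_P1 st_FE st_EXP1 st_EXP2 st_GEO1 st_MOD st_BMP
theorem st_POIN : St_POIN :=
  blk_POIN st_GEO1 st_EXP2
theorem st_GR : St_GR :=
  blk_GR st_P1 st_P2 st_FE st_EXP1 st_MOD
theorem st_DISC : St_DISC :=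
  blk_DISC st_FE st_EXP1 st_EXP2 st_GEO1 st_MOD
theorem st_MG1 : St_MG1 :=
  blk_MG1 st_P1 st_P2 st_EXP1
theorem st_MG2 : St_MG2 :=
  blk_MG2 st_MG1 st_FE st_EXP2 st_GEO1
theorem st_MG3 : St_MG3 :=
  blk_MG3 st_MG1 st_MG2 st_M0 st_MOD st_P1 st_P2 st_FE st_EXP1
theorem st_T3 : St_T3 :=
  blk_T3 st_T1 st_GEO1
theorem st_RW1 : St_RW1 :=
  blk_RW1 
theorem st_RW6 : St_RW6 :=
  blk_RW6 st_RW1
theorem st_RW2 : St_RW2 :=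
  blk_RW2 st_G1 st_G1D st_G2 st_G3 st_RW1
theorem st_FM : St_FM :=
  blk_FM st_G1 st_G1D st_RW1 st_T1
theorem st_MB : St_MB :=
  blk_MB st_G1 st_G1D st_G3 st_ROS st_M0 st_MOD st_DISC st_FM st_RW1 st_T1 st_T3 st_GEO1 st_FE
theorem st_MBb : St_MBb :=
  blk_MBb st_G1 st_G1D st_MB st_MOD st_M0 st_EXP2 st_RW1 st_T1 st_T3 st_GEO1
theorem st_MBW : St_MBW :=
  blk_MBW st_G1 st_G1D st_G3 st_ROS st_MOD st_DISC st_FE st_EXP1 st_T1 st_GEO1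
theorem st_MBM : St_MBM :=
  blk_MBM st_G1 st_G1D st_G2 st_G3 st_MOD st_MBW st_FE st_EXP1 st_GEO1 st_T1
theorem st_G5 : St_G5 :=
  blk_G5 st_G1 st_G1D st_G2
theorem st_ANC : St_ANC :=
  blk_ANC st_G1 st_G1D st_G2 st_EXP2 st_RW1 st_T1 st_GEO1
theorem st_R0 : St_R0 :=
  blk_R0 st_G1 st_G1D st_G3 st_M0 st_MOD st_EXP2 st_RW1 st_RW6 st_T1 st_T3
theorem st_R : St_R :=
  blk_R st_G1 st_G3 st_M0 st_MOD st_T1 st_T3 st_FM st_ANC st_R0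
theorem st_PA : St_PA :=
  blk_PA st_G1 st_G1D st_G2 st_G3 st_M0 st_MOD st_BMP st_EXP2 st_GEO1 st_T3 st_R0
theorem st_H0L : St_H0L :=
  blk_H0L st_G1 st_G1D st_G2 st_G3 st_CH st_M0 st_MOD st_DISC st_T1 st_T3 st_FM st_MB st_R
theorem st_LLN : St_LLN :=
  blk_LLN st_G1 st_G1D st_G2 st_G3 st_CH st_ROS st_MOD st_DISC st_FE st_EXP1 st_GEO1 st_T1 st_T3 st_MB st_RW1 st_H0L
theorem st_LLM : St_LLM :=
  blk_LLM st_G1 st_G1D st_G2 st_G3 st_G4 st_ROS st_MOD st_DISC st_FE st_EXP1 st_GEO1 st_T1 st_RW1 st_MBM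
theorem st_LT0 : St_LT0 :=
  blk_LT0 st_G1 st_G1D st_G3 st_CH st_M0 st_MOD st_DISC st_FE st_EXP1 st_GEO1 st_T1 st_T3 st_R st_H0L
theorem st_POS : St_POS :=
  blk_POS st_G1 st_G1D st_G2 st_G3 st_M0 st_MOD st_BMP st_EXP2 st_GEO1 st_T1 st_T3 st_FM st_R
theorem st_TL : St_TL :=
  blk_TL st_G1 st_G1D st_G2 st_G3 st_MOD st_FE st_EXP1 st_EXP2 st_GEO1 st_T1 st_T3 st_RW1
theorem st_TLD : St_TLD :=
  blk_TLD st_G1 st_G1D st_G2 st_G3 st_MOD st_GEO1 st_T1 st_T3 st_RW1 st_TL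
theorem st_RUA : St_RUA :=
  blk_RUA st_G1 st_G1D st_G2 st_G3 st_M0 st_MOD st_FE st_EXP1 st_EXP2 st_GEO1 st_GEO2 st_T1 st_T3 st_RW1 st_RW2 st_MB st_TL
theorem st_RUL : St_RUL :=
  blk_RUL st_G1 st_M0 st_MOD st_T1 st_T3 st_RW1 st_RW2 st_TL st_RUA
theorem st_RUF : St_RUF :=
  blk_RUF st_G1 st_M0 st_MOD st_T1 st_T3 st_RW1 st_RW2 st_TL st_RUA st_RUL
theorem st_RUN : St_RUN :=
  blk_RUN st_G1 st_G1D st_G2 st_G3 st_M0 st_MOD st_FE st_EXP1 st_EXP2 st_GEO1 st_T1 st_T3 st_RW1 st_RW2 st_MBb st_TL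
theorem st_RUG : St_RUG :=
  blk_RUG st_G1 st_G1D st_G3 st_M0 st_MOD st_EXP2 st_GEO1 st_GEO2 st_T1 st_T3 st_RW1 st_RW2 st_FM st_MB st_TL st_RUF st_RUN
theorem st_RUS : St_RUS :=
  blk_RUS st_G1 st_G1D st_G2 st_G3 st_M0 st_MOD st_EXP2 st_GEO1 st_T1 st_T3 st_RW1 st_MBb st_TL st_RUG
theorem st_NMS : St_NMS :=
  blk_NMS st_G1 st_G1D st_G2 st_G3 st_MOD st_FE st_EXP1 st_EXP2 st_GEO1 st_T1 st_T3 st_RW1 st_RUS
theorem st_FAR : St_FAR :=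
  blk_FAR st_G1 st_G1D st_G2 st_G3 st_CH st_MOD st_DISC st_FE st_EXP1 st_GEO1 st_T1 st_T3 st_RW1 st_H0L st_TL st_RUF
theorem st_GV : St_GV :=
  blk_GV st_G1 st_G1D st_G2 st_MOD st_FE st_GEO1 st_T1 st_T3 st_RW1 st_RW6 st_TL
theorem st_JR : St_JR :=
  blk_JR st_G1 st_G1D st_G2 st_G3 st_MOD st_FE st_EXP1 st_EXP2 st_GEO1 st_T1 st_T3 st_RW1 st_FM st_TL st_GV
theorem st_ST4 : St_ST4 :=
  blk_ST4 st_G1 st_M0 st_MOD st_FE st_EXP1 st_GEO1 st_T1 st_T3 st_RW1 st_RW2 st_TL st_TLD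
theorem st_ST2 : St_ST2 :=
  blk_ST2 st_G1 st_M0 st_MOD st_GEO1 st_GEO2 st_T1 st_T3 st_RW1 st_TL st_RUL st_RUF st_RUG st_RUS
theorem st_ST3 : St_ST3 :=
  blk_ST3 st_G1 st_M0 st_MOD st_GEO1 st_GEO2 st_T1 st_T3 st_RW1 st_TL st_RUL st_RUF st_RUG st_ST4
theorem st_ST : St_ST :=
  blk_ST st_G1 st_G1D st_G2 st_G3 st_M0 st_MOD st_GEO1 st_T1 st_T3 st_RW1 st_FM st_TL st_GV st_JR st_ST4 st_ST2 st_ST3
theorem st_LOCV : St_LOCV :=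
  blk_LOCV st_G1 st_G1D st_G2 st_G3 st_MOD st_FE st_GEO1 st_T1 st_T3 st_RW1 st_MB st_R st_LLN st_TL st_GV
theorem st_STR : St_STR :=
  blk_STR st_G1 st_M0 st_MOD st_GEO1 st_GEO2 st_T1 st_T3 st_RW1 st_R st_RUG st_RUS st_ST st_LOCV
theorem st_MAC : St_MAC :=
  blk_MAC st_G1 st_T1 st_T3 st_GEO1 st_R st_STR
theorem st_LOW : St_LOW :=
  blk_LOW st_G1 st_G1D st_G2 st_G3 st_M0 st_MOD st_GEO1 st_T1 st_T3 st_RW1 st_LT0 st_TL st_GV st_JR st_ST4 st_RUS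
theorem st_UB : St_UB :=
  blk_UB st_P1 st_FE st_EXP2 st_GEO1 st_GEO2 st_T1 st_POIN
theorem st_UE : St_UE :=
  blk_UE st_G1 st_G1D st_MOD st_BMP st_T1 st_RW1 st_UB
theorem st_U : St_U :=
  blk_U st_G1 st_G1D st_G2 st_G4 st_MOD st_BMP st_T1 st_T3 st_UE
theorem st_UL : St_UL :=
  blk_UL st_G1 st_G1D st_G2 st_MOD st_BMP st_GEO1 st_GEO2 st_T1 st_T3 st_RW1 st_RUS st_U
theorem st_LL0 : St_LL0 :=
  blk_LL0 st_G1 st_G3 st_M0 st_MOD st_T1 st_T3 st_R0 st_R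
theorem st_LL : St_LL :=
  blk_LL st_G1 st_MOD st_BMP st_GEO1 st_T1 st_T3 st_R st_MAC st_U st_LL0
theorem st_CYL : St_CYL :=
  blk_CYL st_EXP1
theorem st_TF : St_TF :=
  blk_TF st_CYL
theorem st_PHI : St_PHI :=
  blk_PHI st_CYL st_GEO1
theorem st_ENV : St_ENV :=
  blk_ENV st_PHI
theorem st_MS : St_MS :=
  blk_MS st_CYL
theorem st_CR : St_CR :=
  blk_CR st_CYL st_PHI st_MS
theorem st_CR2 : St_CR2 :=
  blk_CR2 st_CYL st_PHI st_MS st_CR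
theorem st_OBS : St_OBS :=
  blk_OBS st_CYL st_PHI st_GEO1 st_GEO2 st_T1
theorem st_FA1 : St_FA1 :=
  blk_FA1 st_CYL st_PHI st_ENV st_MS st_CR st_OBS st_GEO1
theorem st_BMX : St_BMX :=
  blk_BMX st_G1 st_G1D st_G3 st_CH st_M0 st_MOD st_FE st_EXP1 st_GEO1
theorem st_BM2 : St_BM2 :=
  blk_BM2 st_G1 st_G1D st_G3 st_BMX
theorem st_LAT : St_LAT :=
  blk_LAT st_G1 st_G3 st_MOD st_FE st_EXP1 st_CYL
theorem st_LS : St_LS :=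
  blk_LS st_G1 st_G2 st_G3 st_M0 st_LAT st_BM2
theorem st_REC1 : St_REC1 :=
  blk_REC1 st_G1 st_BMX st_BM2
theorem st_REC2 : St_REC2 :=
  blk_REC2 st_BMX st_BM2
theorem st_LZ1 : St_LZ1 :=
  blk_LZ1 st_CYL
theorem st_QV : St_QV :=
  blk_QV st_G1 st_G1D st_G3 st_G4 st_LAT st_BM2
theorem st_RIEM : St_RIEM :=
  blk_RIEM st_CYL
theorem st_BR0 : St_BR0 :=
  blk_BR0 st_G1 st_G1D st_G3 st_M0 st_CYL st_BM2 st_LAT st_QV st_RIEM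
theorem st_LZ2 : St_LZ2 :=
  blk_LZ2 st_G1 st_G3 st_M0 st_CYL st_BM2 st_LAT st_QV st_RIEM st_BR0
theorem st_LAWZ : St_LAWZ :=
  blk_LAWZ st_BM2 st_LZ1 st_BR0 st_LZ2
theorem st_BRa : St_BRa :=
  blk_BRa st_G1 st_M0 st_CYL st_BM2 st_LAT st_QV st_RIEM
theorem st_BRb : St_BRb :=
  blk_BRb st_G1 st_G1D st_G3 st_G4 st_M0 st_MOD st_FE st_EXP1 st_GEO1 st_T1 st_CYL st_LAT st_LLM
theorem st_BR : St_BR :=
  blk_BR st_G1 st_M0 st_CYL st_BM2 st_BR0 st_BRa st_BRb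
theorem st_WLB : St_WLB :=
  blk_WLB st_G1 st_G1D st_G3 st_M0 st_MOD st_FE st_EXP1 st_GEO1 st_T1 st_T3 st_CYL st_LAT st_MBM st_R st_LLN st_LT0 st_G2 st_MB
theorem st_NU : St_NU :=
  blk_NU st_G1 st_CYL st_BMX st_BM2 st_BR0 st_LZ2 st_BR st_WLB st_M0
theorem st_MU0 : St_MU0 :=
  blk_MU0 st_G1 st_G1D st_G3 st_M0 st_RW1 st_CYL st_BMX st_BM2 st_LAT st_REC2 st_BR0 st_LAWZ st_NU
theorem st_WIL : St_WIL :=
  blk_WIL st_G1 st_RW1 st_CYL st_PHI st_BM2 st_LS st_REC1 st_REC2 st_BR0 st_LAWZ st_NU st_MU0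
theorem st_FA2 : St_FA2 :=
  blk_FA2 st_RW1 st_CYL st_PHI st_ENV st_MS st_CR st_CR2 st_BM2 st_MU0 st_WIL
theorem st_THL : St_THL :=
  blk_THL st_PHI
theorem st_MT1 : St_MT1 :=
  blk_MT1 st_G1 st_MOD st_GEO1 st_GEO2 st_T1 st_T3 st_RW1 st_FM st_MB st_R st_TL st_RUG st_RUS st_GV st_JR st_ST st_LOCV st_CYL st_PHI st_THL
theorem st_MT2L : St_MT2L :=
  blk_MT2L st_G1 st_G1D st_G3 st_MOD st_FE st_EXP1 st_GEO1 st_T1 st_T3 st_RW1 st_MB st_MBM st_R st_LLN st_CYL st_PHI st_THL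
theorem st_MT2 : St_MT2 :=
  blk_MT2 st_G1 st_G1D st_G3 st_MOD st_FE st_EXP1 st_GEO1 st_T1 st_T3 st_RW1 st_FM st_R st_TL st_GV st_CYL st_PHI st_THL st_MT2L
theorem st_PRJ : St_PRJ :=
  blk_PRJ 
theorem st_FAC : St_FAC :=
  blk_FAC st_G1 st_G1D st_G2 st_G3 st_MOD st_BMP st_FE st_EXP1 st_EXP2 st_GEO1 st_T1 st_T3 st_RW1 st_RW6 st_TL st_PRJ
theorem st_MT3 : St_MT3 :=
  blk_MT3 st_G1 st_G1D st_G3 st_MOD st_FE st_EXP1 st_EXP2 st_GEO1 st_R st_CYL st_PHI st_THL st_FAC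
theorem st_MT4a : St_MT4a :=
  blk_MT4a st_G1 st_G1D st_G2 st_G3 st_MOD st_FE st_EXP1 st_RW1 st_CYL st_PHI st_THL st_LAT
theorem st_MT4b : St_MT4b :=
  blk_MT4b st_G1 st_M0 st_RW1 st_CYL st_PHI st_THL st_BM2 st_BR0 st_BR st_MU0
theorem st_MTC : St_MTC :=
  blk_MTC st_MOD st_RW1 st_R st_MU0 st_MT1 st_MT2 st_MT3 st_MT4a st_MT4b
theorem st_G3W : St_G3W :=
  blk_G3W st_G1 st_G4 st_MOD st_T1 st_T3 st_RW1 st_RUS st_MAC st_LOW st_UL st_TF st_PHI st_MU0 st_MTC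
theorem st_F1 : St_F1 :=
  blk_F1 st_G1 st_G1D st_G2 st_MOD st_BMP st_T1 st_T3 st_RW1 st_SI st_RUS st_MAC st_UL st_G3W
theorem st_F2E : St_F2E :=
  blk_F2E st_G1 st_G1D st_G2 st_MOD st_BMP st_GEO2 st_T1 st_T3 st_RW1 st_SI st_FM st_RUS st_NMS st_FAR st_MAC st_U st_UL
theorem st_F2T : St_F2T :=
  blk_F2T st_G1 st_MOD st_BMP st_T1 st_T3 st_RW1 st_G5 st_UL
theorem st_LLE : St_LLE :=
  blk_LLE st_G1 st_T1 st_T3 st_RW1 st_R st_UL st_LL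
theorem st_F2 : St_F2 :=
  blk_F2 st_G1 st_G1D st_MOD st_BMP st_T1 st_T3 st_RW1 st_SI st_R0 st_R st_PA st_F2E st_F2T st_LLE
theorem st_SCR0 : St_SCR0 :=
  blk_SCR0 st_M0 st_MOD st_BMP st_EXP2 st_GEO1 st_T1
theorem st_ADM : St_ADM :=
  blk_ADM st_T1 st_T3 st_GEO1 st_EXP2 st_PA st_SCR0
theorem st_LF1 : St_LF1 :=
  blk_LF1 st_G1 st_G1D st_MOD st_BMP st_T1 st_T3 st_RW1 st_SI st_R st_PA st_POS st_F2T st_LLE st_ADM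
theorem st_LT : St_LT :=
  blk_LT st_R st_PHI st_MU0 st_G3W st_F1 st_LLE st_F2 st_LF1
theorem st_KR : St_KR :=
  blk_KR st_G1 st_G4 st_MOD st_BMP st_FE st_EXP2 st_GEO1 st_T1 st_T3
theorem st_MV : St_MV :=
  blk_MV st_EXP2 st_GEO1 st_T1 st_T3 st_RW1 st_KR
theorem st_SCR1 : St_SCR1 :=
  blk_SCR1 st_P1 st_BMP st_POIN st_FE st_GEO1
theorem st_SCR : St_SCR :=
  blk_SCR st_P1 st_FE st_EXP1 st_EXP2 st_GEO1 st_GEO2 st_T1 st_MOD st_YV st_GR st_SCR0 st_SCR1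
theorem st_H5 : St_H5 :=
  blk_H5 st_G1 st_G3 st_M0 st_MOD st_GEO1 st_T1 st_T3 st_RW1 st_R0 st_R st_PA st_ADM
theorem st_H0 : St_H0 :=
  blk_H0 st_G1 st_G1D st_G2 st_MOD st_BMP st_FE st_EXP1 st_EXP2 st_GEO1 st_T1 st_T3 st_RW1 st_MBb st_U st_KR
theorem st_H3 : St_H3 :=
  blk_H3 st_G1 st_G1D st_G2 st_MOD st_BMP st_YV st_FE st_EXP2 st_GEO1 st_GEO2 st_T1 st_T3 st_RW1 st_RUS st_U st_KR
theorem st_H4a : St_H4a :=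
  blk_H4a st_G1 st_G1D st_G2 st_G3 st_P1 st_MOD st_BMP st_FE st_GEO1 st_T1 st_T3 st_RW1 st_TL st_RUG st_RUS st_U
theorem st_H4 : St_H4 :=
  blk_H4 st_G1 st_P1 st_MOD st_BMP st_YV st_FE st_EXP1 st_EXP2 st_GEO1 st_T1 st_T3 st_RW1 st_UL st_KR st_SCR0 st_SCR st_H4a
theorem st_VOL1 : St_VOL1 :=
  blk_VOL1 st_G1 st_FE st_EXP2 st_GEO1 st_GEO2 st_T1 st_T3 st_RW1 st_R st_UL st_LL st_ADM st_KR st_MV st_H5 st_H0 st_H3 st_H4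
theorem st_VOL : St_VOL :=
  blk_VOL st_G1 st_FE st_T1 st_T3 st_RW1 st_R st_POS st_LL st_ADM st_LT st_KR st_MV st_VOL1 st_GEO1
theorem st_FA : St_FA :=
  blk_FA st_G1 st_T1 st_T3 st_RW1 st_TF st_PHI st_ENV st_MS st_FA1 st_MU0 st_FA2 st_LT st_MV st_LLE
theorem st_FIN : St_FIN :=
  blk_FIN st_G1 st_G3 st_MOD st_T1 st_T3 st_RW1 st_FM st_MS st_FA2 st_LT st_MV st_FA st_TF
theorem st_NF1 : St_NF1 :=
  blk_NF1 
theorem st_NF2 : St_NF2 :=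
  blk_NF2 st_NF1
theorem st_NF3 : St_NF3 :=
  blk_NF3 st_NF1
theorem st_NP1 : St_NP1 :=
  blk_NP1 st_EXP2 st_GEO1 st_FE st_NF1
theorem st_NU1 : St_NU1 :=
  blk_NU1 st_GEO1 st_NF1 st_NF2 st_NF3 st_NP1
theorem st_NI : St_NI :=
  blk_NI 
theorem st_PRD : St_PRD :=
  blk_PRD st_MOD st_FE st_EXP1 st_EXP2 st_GEO1
theorem st_BATH : St_BATH :=
  blk_BATH st_G1 st_M0 st_MOD st_T1 st_T3 st_RW1 st_FM st_R
theorem st_NRb : St_NRb :=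
  blk_NRb st_G1 st_G2 st_MOD st_EXP2 st_GEO1 st_T1 st_T3 st_RW1 st_R st_NU1 st_BATH
theorem st_NRa : St_NRa :=
  blk_NRa st_G1 st_G1D st_G2 st_G3 st_P1 st_MOD st_FE st_EXP2 st_GEO1 st_T1 st_T3 st_FM
theorem st_NUM : St_NUM :=
  blk_NUM st_G1 st_G4 st_P1 st_M0 st_MOD st_BMP st_YV st_FE st_EXP1 st_EXP2 st_GEO1 st_GEO2 st_T1 st_T3 st_RW1 st_FM st_R st_SCR0 st_SCR st_ADM st_NI st_PRD st_NRb st_NRa

end Pool.Agent.Lib.APPS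

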