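import Pool.Agent.Lib.APPS.Blue4

/-!
Block ADM: admissibility of the local functionals.
-/

namespace Pool.Agent.Lib.APPS

open MeasureTheory ProbabilityTheory Filter Topology Set Metric
open scoped NNReal ENNReal Classical

noncomputable section

namespace ADM

theorem i01 (p : Prop) : 0 ≤ indR p ∧ indR p ≤ 1 := by
  unfold indR
  split_ifs <;> norm_num

theorem vt01 (t : ℝ) : 0 ≤ vt t ∧ vt t ≤ 1 :=
  ⟨le_min zero_le_one (le_max_left _ _), min_le_left _ _⟩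

theorem vtc : Continuous vt := by
  unfold vt
  fun_prop

/-- the common shape of the two threshold functionals -/
def FF (lam a b : ℝ) (y : Dy → ℝ) : ℝ :=
  lam⁻¹ * ∑ d : Fin 2 × Fin 2, indR (y [d] ∈ Ioc a b) * vt (y (sib [d])) *
    ∏ c : Fin 2 × Fin 2, vt (y [c, d])

theorem ff (hT3 : St_T3) (hPA : St_PA) {γ : ℝ} (hγ : γ ∈ Ioo (0 : ℝ) 2) {lam : ℝ} (hl : 0 < lam)
    (a b : ℝ) : Adm γ (FF lam a b) := by
  have c1 : ∀ d : Fin 2 × Fin 2, Continuous fun y : Dy → ℝ => vt (y (sib [d])) := fun d =>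
    vtc.comp (continuous_apply _)
  have c2 : ∀ d : Fin 2 × Fin 2, Continuous fun y : Dy → ℝ =>
      ∏ c : Fin 2 × Fin 2, vt (y [c, d]) := fun d =>
    continuous_finsetProd _ fun c _ => vtc.comp (continuous_apply _)
  refine (hPA γ hγ).2.2.2.2 _ ⟨?_, lam⁻¹ * ∑ _d : Fin 2 × Fin 2, 1, fun x => ⟨?_, ?_⟩⟩
    ⟨2, fun x y h => ?_⟩ ⟨{a, b}, fun y hy => ?_⟩
  · refine (Finset.measurable_sum _ fun d _ => (Measurable.mul ?_ (c1 d).measurable).mul
      (c2 d).measurable).const_mul _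
    exact (hT3.2.2.2.2.2.2.2.2.2.2.2.1 _ _ (measurable_pi_apply [d] measurableSet_Ioc)).2
  · exact mul_nonneg (inv_nonneg.2 hl.le) (Finset.sum_nonneg fun d _ => mul_nonneg
      (mul_nonneg (i01 _).1 (vt01 _).1) (Finset.prod_nonneg fun c _ => (vt01 _).1))
  · exact mul_le_mul_of_nonneg_left (Finset.sum_le_sum fun d _ => mul_le_one₀
      (mul_le_one₀ (i01 _).2 (vt01 _).1 (vt01 _).2) (Finset.prod_nonneg fun c _ => (vt01 _).1)
      (Finset.prod_le_one (fun c _ => (vt01 _).1) fun c _ => (vt01 _).2)) (inv_nonneg.2 hl.le)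
  · unfold FF
    congr 1
    refine Finset.sum_congr rfl fun d _ => ?_
    rw [h [d] (by simp), h (sib [d]) (by simp [sib]),
      Finset.prod_congr rfl fun c _ => by rw [h [c, d] (by simp)]]
  · refine (tendsto_finsetSum _ fun d _ => (Tendsto.mul ?_ (c1 d).continuousAt).mul
      (c2 d).continuousAt).const_mul _
    have h1 : y [d] ≠ a ∧ y [d] ≠ b := by simpa [not_or] using hy [d]
    have ct : Tendsto (fun x : Dy → ℝ => x [d]) (𝓝 y) (𝓝 (y [d])) :=
      (continuous_apply _).continuousAt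
    have e1 : ∀ᶠ x : Dy → ℝ in 𝓝 y, (a < y [d] ↔ a < x [d]) := by
      rcases lt_or_gt_of_ne h1.1 with h | h
      · exact (ct.eventually (gt_mem_nhds h)).mono fun x hx => iff_of_false h.not_gt hx.not_gt
      · exact (ct.eventually (lt_mem_nhds h)).mono fun x hx => iff_of_true h hx
    have e2 : ∀ᶠ x : Dy → ℝ in 𝓝 y, (y [d] ≤ b ↔ x [d] ≤ b) := by
      rcases lt_or_gt_of_ne h1.2 with h | h
      · exact (ct.eventually (gt_mem_nhds h)).mono fun x hx => iff_of_true h.le hx.le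
      · exact (ct.eventually (lt_mem_nhds h)).mono fun x hx => iff_of_false h.not_ge hx.not_ge
    refine tendsto_const_nhds.congr' ?_
    filter_upwards [e1, e2] with x a1 a2
    rw [mem_Ioc, mem_Ioc, a1, a2]

def Same (n : ℕ) (x y : Dy → ℝ) : Prop := ∀ S : Dy, S.length ≤ n → (0 < x S ↔ 0 < y S)

theorem same_ev (n : ℕ) {y : Dy → ℝ} (hy : ∀ B, y B ∉ ({0} : Finset ℝ)) :
    ∀ᶠ x in 𝓝 y, Same n x y := by
  refine (eventually_all_finite (List.finite_length_le (Fin 2 × Fin 2) n)).2 fun S _ => ?_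
  have ct : Tendsto (fun x : Dy → ℝ => x S) (𝓝 y) (𝓝 (y S)) := (continuous_apply _).continuousAt
  have h1 : y S ≠ 0 := by simpa using hy S
  rcases lt_or_gt_of_ne h1 with h | h
  · exact (ct.eventually (gt_mem_nhds h)).mono fun x hx => iff_of_false hx.not_gt h.not_gt
  · exact (ct.eventually (lt_mem_nhds h)).mono fun x hx => iff_of_true hx h

theorem lv_len {τ : Finset Dy} {D : ℕ} (h : ∀ A ∈ τ, A.length ≤ D) {B : Dy} (hB : B ∈ lvs τ) :
    B.length ≤ D + 1 := by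
  unfold lvs at hB
  split_ifs at hB with h0
  · rw [Finset.mem_singleton.1 hB]
    simp
  · obtain ⟨S, hS, h1⟩ := Finset.mem_biUnion.1 (Finset.mem_sdiff.1 hB).1
    obtain ⟨d, -, rfl⟩ := Finset.mem_image.1 h1
    simpa using h S hS

theorem key (hT1 : St_T1) (hG : St_GEO1) {K D n : ℕ} (hn : D + 1 ≤ n) {S : Dy} {x y : Dy → ℝ}
    (h : Same n x y) (hg : Good K D (tr y) S) : tr x = tr y := by
  obtain ⟨-, -, -, -, -, -, -, -, -, -, t1, t2, t3, t4, t5, -⟩ := hT1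
  have hf : nB y ≠ ∞ := by
    intro h0
    obtain ⟨g1, g2, -, g3, -⟩ := hg
    rw [t4 y h0, lvs, if_pos rfl, Finset.mem_singleton] at g1
    subst g1
    obtain rfl : K = 0 := by simp at g2; omega
    have m : ctr [] + 1 ∈ closedBall (ctr []) (32 * (1 / 2 : ℝ) ^ 0) := by simp
    have := (hG.2.2.2.1 []).2.2.2.1 _ (g3 m)
    norm_num [side] at this
  have a := (t1 y _ (t5 y)).1 (t3 y hf)
  refine (t2 x _ ((t1 x _ (t5 y)).2 ⟨fun A hA => ?_, fun B hB => ?_⟩)).2.1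
  · exact (h A ((hg.2.2.1 A hA).trans (by omega))).2 (a.1 A hA)
  · exact not_lt.1 fun h0 => (a.2 B hB).not_gt ((h B ((lv_len hg.2.2.1 hB).trans hn)).1 h0)

theorem key2 (hT1 : St_T1) (hG : St_GEO1) {K D n : ℕ} (hn : D + 1 ≤ n) (S : Dy) {x y : Dy → ℝ}
    (h : Same n x y) : Good K D (tr x) S ↔ Good K D (tr y) S :=
  ⟨fun g => by rwa [key hT1 hG hn (fun B hB => (h B hB).symm) g],
    fun g => by rwa [key hT1 hG hn h g]⟩

theorem bad_eq (hT1 : St_T1) (hG : St_GEO1) {K D : ℕ} {x y : Dy → ℝ}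
    (h : Same (D + 1 + 3 * K) x y) : Bad K D x = Bad K D y := by
  refine Finset.sum_congr rfl fun S hS => ?_
  have hS' := (hT1.1 _ _).1 hS
  have e : Leaf x S ↔ Leaf y S := by
    unfold Leaf
    rw [← not_lt, ← not_lt, h S (by omega)]
    refine and_congr_right fun _ => forall_congr' fun B => forall_congr' fun hB => ?_
    rw [h B (hB.length_le.trans (by omega))]
  rw [e, key2 hT1 hG (by omega) S h]

theorem bad (hT1 : St_T1) (hT3 : St_T3) (hG : St_GEO1) (hPA : St_PA) {γ : ℝ}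
    (hγ : γ ∈ Ioo (0 : ℝ) 2) (K D : ℕ) : Adm γ (Bad K D) := by
  refine (hPA γ hγ).2.2.2.2 _ ⟨?_, ∑ _S ∈ lev (3 * K), 1, fun x =>
    ⟨Finset.sum_nonneg fun S _ => (i01 _).1, Finset.sum_le_sum fun S _ => (i01 _).2⟩⟩
    ⟨D + 1 + 3 * K, fun x y h => bad_eq hT1 hG fun S hS => by rw [h S hS]⟩ ⟨{0}, fun y hy => ?_⟩
  · exact Finset.measurable_sum _ fun S _ => hT3.2.2.2.1 _ _ id
      (fun T y => indR (Leaf y S ∧ ¬Good K D T S)) measurable_id fun T =>
        (hT3.2.2.2.2.2.2.2.2.2.2.2.1 _ _ ((hT3.2.1 S).2.inter (MeasurableSet.const _))).2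
  · exact tendsto_const_nhds.congr' ((same_ev _ hy).mono fun x hx => (bad_eq hT1 hG hx).symm)

def II (γ Mx d0 : ℝ) (τ : Finset Dy) (S : Dy) (y : Dy → ℝ) : ℝ := ∫ z in sq d0,
  min Mx (Real.exp (bt γ * (kloc (QQ γ) τ y (zS S z) - QQ γ * S.length * l2)))

theorem sq_fin (hG : St_GEO1) {d0 : ℝ} (h : 0 < d0) : volume (sq d0) < ∞ := by
  refine (measure_mono fun z hz => ?_).trans_lt (hG.2.2.2.1 []).1.measure_lt_top
  obtain ⟨⟨a1, a2⟩, a3, a4⟩ := hz
  simp only [box, corner, side, mem_setOf_eq, mem_Icc, Complex.zero_re, Complex.zero_im,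
    List.length_nil, pow_zero]
  refine ⟨⟨?_, ?_⟩, ?_, ?_⟩ <;> linarith

theorem nb {Mx : ℝ} (h : 0 < Mx) (t : ℝ) : ‖min Mx (Real.exp t)‖ ≤ Mx := by
  rw [Real.norm_of_nonneg (le_min h.le (Real.exp_pos t).le)]
  exact min_le_left _ _

theorem ii_cont (hG : St_GEO1) (hE : St_EXP2) (γ : ℝ) {Mx d0 : ℝ} (h1 : 0 < Mx) (h2 : 0 < d0)
    (τ : Finset Dy) (S : Dy) : Continuous (II γ Mx d0 τ S) := by
  have pc : ∀ B, Continuous (potS B) := fun B => by
    obtain ⟨C, -, -, h, -⟩ := hE.2.2.2.2.2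
    exact (LipschitzWith.of_dist_le' (K := C / side B) fun z z' => by
      rw [Real.dist_eq, dist_eq_norm]; exact h B z z').continuous
  have : IsFiniteMeasure (volume.restrict (sq d0)) := isFiniteMeasure_restrict.2 (sq_fin hG h2).ne
  refine continuous_of_dominated (bound := fun _ => Mx) (fun y => ?_)
    (fun y => Eventually.of_forall fun z => nb h1 _) (integrable_const _)
    (Eventually.of_forall fun z => ?_)
  · refine Continuous.aestronglyMeasurable ?_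
    unfold kloc lamL nuL zS
    fun_prop
  · unfold kloc
    fun_prop

theorem fv_eq (hT1 : St_T1) (hG : St_GEO1) (γ Mx d0 : ℝ) {K D : ℕ} {x y : Dy → ℝ}
    (h : Same (D + 1) x y) : Fv γ K D Mx d0 x =
      ∑ S ∈ lev (3 * K), indR (Good K D (tr y) S) * II γ Mx d0 (tr y) S x := by
  refine Finset.sum_congr rfl fun S _ => ?_
  by_cases g : Good K D (tr y) S
  · rw [key hT1 hG le_rfl h g]
    rfl
  · rw [key2 hT1 hG le_rfl S h, indR, if_neg g, zero_mul, zero_mul]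

theorem fv (hT1 : St_T1) (hT3 : St_T3) (hG : St_GEO1) (hE : St_EXP2) (hPA : St_PA) {γ : ℝ}
    (hγ : γ ∈ Ioo (0 : ℝ) 2) (K D : ℕ) {Mx d0 : ℝ} (h1 : 0 < Mx) (h2 : 0 < d0) :
    Adm γ (Fv γ K D Mx d0) := by
  have c : ∀ τ, Continuous fun x => ∑ S ∈ lev (3 * K), indR (Good K D τ S) * II γ Mx d0 τ S x :=
    fun τ => continuous_finsetSum _ fun S _ => continuous_const.mul (ii_cont hG hE γ h1 h2 τ S)
  have i0 : ∀ τ S x, 0 ≤ II γ Mx d0 τ S x := fun τ S x =>
    integral_nonneg fun z => le_min h1.le (Real.exp_pos _).le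
  refine (hPA γ hγ).2.2.2.2 _ ⟨?_, ∑ _S ∈ lev (3 * K), 1 * (Mx * volume.real (sq d0)), fun x =>
    ⟨Finset.sum_nonneg fun S _ => mul_nonneg (i01 _).1 (i0 _ S x), Finset.sum_le_sum fun S _ =>
      mul_le_mul (i01 _).2 ((le_abs_self _).trans ?_) (i0 _ S x) zero_le_one⟩⟩
    ⟨D + 1, fun x y h => ?_⟩ ⟨{0}, fun y hy => ?_⟩
  · exact hT3.2.2.2.1 _ _ id (fun τ x => ∑ S ∈ lev (3 * K), indR (Good K D τ S) *
      II γ Mx d0 τ S x) measurable_id fun τ => (c τ).measurable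
  · exact norm_setIntegral_le_of_norm_le_const (sq_fin hG h2) fun z _ => nb h1 _
  · rw [fv_eq hT1 hG γ Mx d0 (y := y) fun S hS => by rw [h S hS]]
    refine Finset.sum_congr rfl fun S _ => ?_
    by_cases g : Good K D (tr y) S
    · have e : ∀ z, kloc (QQ γ) (tr y) x z = kloc (QQ γ) (tr y) y z := fun z =>
        Finset.sum_congr rfl fun A _ => by rw [h A (lv_len g.2.2.1 A.2)]
      simp only [II, e]
    · rw [indR, if_neg g, zero_mul, zero_mul]
  · exact (c (tr y)).continuousAt.congr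
      ((same_ev _ hy).mono fun x hx => (fv_eq hT1 hG γ Mx d0 hx).symm)

end ADM

open ADM in
theorem blk_ADM (hT1 : St_T1) (hT3 : St_T3) (hG : St_GEO1) (hE : St_EXP2) (hPA : St_PA)
    (_hS : St_SCR0) : St_ADM := fun _ hγ =>
  ⟨fun lam hl => ⟨ff hT3 hPA hγ hl (-lam) 0, ff hT3 hPA hγ hl 0 lam⟩,
    fun K D _ _ h1 h2 => ⟨fv hT1 hT3 hG hE hPA hγ K D h1 h2, bad hT1 hT3 hG hPA hγ K D⟩⟩

end

end Pool.Agent.Lib.APPS
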