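import Pool.Agent.Lib.APPS.Blue3

/-! Block BRb, elementary lemmas. -/

namespace Pool.Agent.Lib.APPS

open MeasureTheory ProbabilityTheory Filter Topology Set Metric
open scoped NNReal ENNReal CompactlySupported BoundedContinuousFunction RealInnerProductSpace
  Classical

noncomputable section

namespace BRb

/-! ### words -/

theorem sum_lev (hT : St_T1) (m n : ℕ) (f : Dy → ℝ) :
    ∑ S ∈ lev (m + n), f S = ∑ V ∈ lev n, ∑ A ∈ lev m, f (A ++ V) := by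
  have h1 := hT.1
  rw [← Finset.sum_product' (lev n) (lev m) (fun V A => f (A ++ V))]
  symm
  refine Finset.sum_nbij' (fun p => p.2 ++ p.1) (fun S => (S.drop m, S.take m)) ?_ ?_ ?_ ?_ ?_
  · rintro ⟨V, A⟩ h
    simp only [Finset.mem_product, h1] at h
    simp only [h1, List.length_append, h.1, h.2]
  · intro S h
    simp only [h1] at h
    simp only [Finset.mem_product, h1, List.length_drop, List.length_take, h]
    omega
  · rintro ⟨V, A⟩ h
    simp only [Finset.mem_product, h1] at h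
    simp [← h.2]
  · intro S _
    simp
  · intro p _; rfl

theorem anc_app (A V : Dy) : anc V.length (A ++ V) = V := by
  simp [anc]

theorem anc_anc {n k : ℕ} (S : Dy) (h1 : n ≤ k) (h2 : k ≤ S.length) :
    anc n (anc k S) = anc n S := by
  unfold anc
  rw [List.drop_drop, List.length_drop]
  congr 1
  omega

theorem ctr_eq (hG : St_GEO1) (S : Dy) : ctr S = xl S.length (gi S) := by
  have h := (hG.2.2.2.2.2.2.2.2.1 S).1
  unfold ctr xl
  rw [h]; unfold side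
  push_cast; ring

theorem reidx (hT : St_T1) (hG : St_GEO1) (n : ℕ) (o : ℤ × ℤ) (f : ℤ × ℤ → ℝ)
    (hf : ∀ i, i + o ∉ gin n → f i = 0) :
    ∑' i, f i = ∑ S ∈ lev n, f (gi S - o) := by
  have h1 := hT.1
  have hu := hG.2.2.2.2.2.2.2.2.2.1
  have hm := fun S => (hG.2.2.2.2.2.2.2.2.1 S).2
  rw [← Finset.sum_image (s := lev n) (g := fun S => gi S - o) (f := f)]
  · refine tsum_eq_sum fun i hi => hf i fun h => hi ?_
    obtain ⟨S, ⟨hS, e⟩, -⟩ := hu n _ h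
    exact Finset.mem_image.2 ⟨S, (h1 _ _).2 hS, by rw [e]; simp⟩
  · intro S hS S' hS' e
    have e' : gi S = gi S' := by simpa using e
    have l1 := (h1 _ _).1 hS
    have l2' := (h1 _ _).1 hS'
    obtain ⟨U, -, hU⟩ := hu n (gi S) (l1 ▸ hm S)
    rw [hU S ⟨l1, rfl⟩, hU S' ⟨l2', e'.symm⟩]

/-! ### the affine picture -/

def zz (n : ℕ) : ℂ := ((1 / 2 + (1 / 2 : ℝ) ^ (n + 1) : ℝ) : ℂ) * (1 + Complex.I)

def xx (J n : ℕ) (c : ℂ) : ℂ := (c - zz n) / (((1 / 2 : ℝ) ^ J : ℝ) : ℂ)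

theorem rho_ne (J : ℕ) : ((((1 / 2 : ℝ) ^ J : ℝ)) : ℂ) ≠ 0 := by
  exact_mod_cast (by positivity : ((1 / 2 : ℝ) ^ J) ≠ 0)

theorem zz_xx (J n : ℕ) (c : ℂ) : zz n + (((1 / 2 : ℝ) ^ J : ℝ) : ℂ) * xx J n c = c := by
  unfold xx
  have := rho_ne J
  field_simp
  ring

theorem xx_coarse (l J0 : ℕ) (i : ℤ × ℤ) :
    xx (J0 + 1) (l + (J0 + 1)) (xl (l + (J0 + 1)) i) =
      (((1 / 2 : ℝ) ^ l : ℝ) : ℂ) * zc (i - (2 ^ (l + J0), 2 ^ (l + J0))) := by
  unfold xx zz xl zc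
  simp only [Prod.fst_sub, Prod.snd_sub]
  push_cast
  have h2 : (2 : ℂ) ^ l ≠ 0 := pow_ne_zero _ two_ne_zero
  have h3 : (2 : ℂ) ^ J0 ≠ 0 := pow_ne_zero _ two_ne_zero
  simp only [one_div, inv_pow, pow_add, pow_one]
  field_simp
  ring

theorem xx_fine (l m J0 : ℕ) (i : ℤ × ℤ) :
    xx (J0 + 1) (l + (J0 + 1)) (xl (l + 1 + m + (J0 + 1)) i) =
      xl (l + 1 + m) (i - (2 ^ (l + 1 + m + J0) + 2 ^ m, 2 ^ (l + 1 + m + J0) + 2 ^ m)) := by
  unfold xx zz xl zc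
  simp only [Prod.fst_sub, Prod.snd_sub]
  push_cast
  have h2 : (2 : ℂ) ^ l ≠ 0 := pow_ne_zero _ two_ne_zero
  have h3 : (2 : ℂ) ^ J0 ≠ 0 := pow_ne_zero _ two_ne_zero
  have h4 : (2 : ℂ) ^ m ≠ 0 := pow_ne_zero _ two_ne_zero
  simp only [one_div, inv_pow, pow_add, pow_one]
  field_simp
  ring

theorem xl_re (n : ℕ) (i : ℤ × ℤ) : (xl n i).re = (1 / 2 : ℝ) ^ n * (i.1 + 1 / 2) := by
  unfold xl zc
  rw [Complex.re_ofReal_mul]
  simp

theorem xl_im (n : ℕ) (i : ℤ × ℤ) : (xl n i).im = (1 / 2 : ℝ) ^ n * (i.2 + 1 / 2) := by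
  unfold xl zc
  rw [Complex.im_ofReal_mul]
  simp

theorem xl_ne (n : ℕ) (i : ℤ × ℤ) : xl n i ≠ 0 := by
  intro h
  have h1 := xl_re n i
  rw [h, Complex.zero_re] at h1
  have h2 : (i.1 : ℝ) + 1 / 2 = 0 := by
    rcases mul_eq_zero.1 h1.symm with h | h
    · exact absurd h (by positivity)
    · exact h
  have h3 : ((2 * i.1 + 1 : ℤ) : ℝ) = 0 := by push_cast; linarith
  have h4 : 2 * i.1 + 1 = 0 := by exact_mod_cast h3
  omega

theorem zz_re (n : ℕ) : (zz n).re = 1 / 2 + (1 / 2 : ℝ) ^ (n + 1) := by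
  unfold zz; rw [Complex.re_ofReal_mul]; simp

theorem zz_im (n : ℕ) : (zz n).im = 1 / 2 + (1 / 2 : ℝ) ^ (n + 1) := by
  unfold zz; rw [Complex.im_ofReal_mul]; simp

theorem coord_far (n n' : ℕ) (a : ℤ) (h : ¬(0 ≤ a ∧ a < 2 ^ n)) :
    1 / 4 ≤ |(1 / 2 : ℝ) ^ n * (a + 1 / 2) - (1 / 2 + (1 / 2 : ℝ) ^ (n' + 1 + 1))| := by
  have p1 : (0 : ℝ) < (1 / 2 : ℝ) ^ n := by positivity
  have p2 : (0 : ℝ) < (1 / 2 : ℝ) ^ (n' + 1 + 1) := by positivity
  have p3 : (1 / 2 : ℝ) ^ (n' + 1 + 1) ≤ 1 / 4 := by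
    have : (1 / 2 : ℝ) ^ n' ≤ 1 := pow_le_one₀ (by norm_num) (by norm_num)
    rw [pow_succ, pow_succ]; linarith
  rcases lt_or_ge a 0 with ha | ha
  · have : (a : ℝ) + 1 ≤ 0 := by exact_mod_cast (by omega : a + 1 ≤ 0)
    have : (1 / 2 : ℝ) ^ n * (a + 1 / 2) ≤ 0 := mul_nonpos_of_nonneg_of_nonpos p1.le (by linarith)
    rw [le_abs]; right; linarith
  · have h' : (2 : ℤ) ^ n ≤ a := by
      by_contra h'; exact h ⟨ha, by omega⟩
    have h'' : (2 : ℝ) ^ n ≤ a := by exact_mod_cast h'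
    have e : (1 / 2 : ℝ) ^ n * 2 ^ n = 1 := by rw [← mul_pow]; norm_num
    have : (1 / 2 : ℝ) ^ n * 2 ^ n ≤ (1 / 2 : ℝ) ^ n * (a + 1 / 2) :=
      mul_le_mul_of_nonneg_left (by linarith) p1.le
    rw [le_abs]; left; linarith

theorem norm_xx (J n : ℕ) (c : ℂ) : ‖xx J n c‖ = 2 ^ J * ‖c - zz n‖ := by
  unfold xx
  rw [norm_div, Complex.norm_real, Real.norm_eq_abs, abs_of_pos (by positivity)]
  simp only [one_div, inv_pow]
  field_simp

theorem xx_sub (J n : ℕ) (c c' : ℂ) : ‖xx J n c - xx J n c'‖ = 2 ^ J * ‖c - c'‖ := by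
  unfold xx
  rw [← sub_div, norm_div, Complex.norm_real, Real.norm_eq_abs, abs_of_pos (by positivity)]
  simp only [one_div, inv_pow, sub_sub_sub_cancel_right]
  field_simp

theorem xx_far (J n n' : ℕ) (i : ℤ × ℤ) (h : i ∉ gin n) :
    2 ^ J / 4 ≤ ‖xx J (n' + 1) (xl n i)‖ := by
  rw [norm_xx]
  have : 1 / 4 ≤ ‖xl n i - zz (n' + 1)‖ := by
    simp only [gin, Finset.mem_product, Finset.mem_Ico, not_and_or (a := 0 ≤ i.1 ∧ _)] at h
    rcases h with h | h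
    · refine le_trans ?_ (Complex.abs_re_le_norm _)
      rw [Complex.sub_re, xl_re, zz_re]; exact coord_far n n' _ h
    · refine le_trans ?_ (Complex.abs_im_le_norm _)
      rw [Complex.sub_im, xl_im, zz_im]; exact coord_far n n' _ h
  have p : (0 : ℝ) < 2 ^ J := by positivity
  nlinarith

theorem zz_near (n : ℕ) : ‖zz n - ctr []‖ ≤ 1 := by
  have e : zz n - ctr [] = (((1 / 2 : ℝ) ^ (n + 1) : ℝ) : ℂ) * (1 + Complex.I) := by
    unfold zz ctr corner side; push_cast; simp; ring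
  rw [e, norm_mul, Complex.norm_real, Real.norm_eq_abs, abs_of_pos (by positivity)]
  have h1 : ‖(1 + Complex.I : ℂ)‖ ≤ 2 := by
    refine (norm_add_le _ _).trans ?_; simp; norm_num
  have h2 : (1 / 2 : ℝ) ^ (n + 1) ≤ 1 / 2 := by
    have : (1 / 2 : ℝ) ^ n ≤ 1 := pow_le_one₀ (by norm_num) (by norm_num)
    rw [pow_succ]; linarith
  have h3 : (0 : ℝ) ≤ (1 / 2 : ℝ) ^ (n + 1) := by positivity
  nlinarith [norm_nonneg (1 + Complex.I : ℂ)]

/-! ### the L1 functional -/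

def N1 (f : Om → ℝ) : ℝ≥0∞ := ∫⁻ ω, ENNReal.ofReal |f ω| ∂gm

theorem N1_add {f g : Om → ℝ} (hf : Measurable f) :
    N1 (fun ω => f ω + g ω) ≤ N1 f + N1 g := by
  unfold N1
  rw [← lintegral_add_left (by fun_prop)]
  refine lintegral_mono fun ω => ?_
  rw [← ENNReal.ofReal_add (abs_nonneg _) (abs_nonneg _)]
  exact ENNReal.ofReal_le_ofReal (abs_add_le _ _)

theorem N1_mul (c : ℝ) (f : Om → ℝ) :
    N1 (fun ω => c * f ω) = ENNReal.ofReal |c| * N1 f := by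
  unfold N1
  rw [← lintegral_const_mul' _ _ ENNReal.ofReal_ne_top]
  refine lintegral_congr fun ω => ?_
  rw [abs_mul, ENNReal.ofReal_mul (abs_nonneg _)]

theorem N1_sum {ι : Type} (s : Finset ι) (f : ι → Om → ℝ) (b : ι → ℝ) (hb : ∀ i ∈ s, 0 ≤ b i)
    (hf : ∀ i ∈ s, Measurable (f i)) (h : ∀ i ∈ s, N1 (f i) ≤ ENNReal.ofReal (b i)) :
    N1 (fun ω => ∑ i ∈ s, f i ω) ≤ ENNReal.ofReal (∑ i ∈ s, b i) := by
  induction s using Finset.induction_on with
  | empty => simp [N1]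
  | insert a s ha ih =>
    simp only [Finset.sum_insert ha]
    refine (N1_add (hf a (by simp))).trans ?_
    rw [ENNReal.ofReal_add (hb a (by simp)) (Finset.sum_nonneg fun i hi => hb i (by simp [hi]))]
    exact add_le_add (h a (by simp)) (ih (fun i hi => hb i (by simp [hi]))
      (fun i hi => hf i (by simp [hi])) fun i hi => h i (by simp [hi]))

theorem meas_Wk (γ : ℝ) (v : HH) : Measurable (Wk γ v) := by
  unfold Wk
  exact (((meas_ev v).const_mul γ).sub_const _).exp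

theorem N1_Wk (hD : St_G1D) (γ : ℝ) (v : HH) : N1 (Wk γ v) = 1 := by
  rw [← hD.2.2.2.2.2.1 γ v]
  refine lintegral_congr fun ω => ?_
  rw [abs_of_pos (by unfold Wk; positivity)]

theorem markov {f : Om → ℝ} (hf : Measurable f) {a b : ℝ} (hb : 0 < b)
    (h : N1 f ≤ ENNReal.ofReal a) : gm {ω | b ≤ |f ω|} ≤ ENNReal.ofReal (a / b) := by
  have h1 := meas_ge_le_lintegral_div (μ := gm) (f := fun ω => ENNReal.ofReal |f ω|)
    (by fun_prop) (ε := ENNReal.ofReal b) (by simpa using hb) ENNReal.ofReal_ne_top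
  rw [ENNReal.ofReal_div_of_pos hb]
  refine le_trans (measure_mono fun ω hω => ?_) (h1.trans (ENNReal.div_le_div_right h _))
  exact ENNReal.ofReal_le_ofReal hω

theorem prod_prob {ξ D : Om → ℝ} (hξ : Measurable ξ) (hD : Measurable D) {a κ η : ℝ}
    (ha : 0 < a) (hκ : 0 < κ) (hη : 0 < η) (h1 : N1 ξ ≤ ENNReal.ofReal a)
    (h2 : N1 D ≤ ENNReal.ofReal (η ^ 3 / (4 * a * κ))) :
    gm {ω | η < |ξ ω * κ * D ω|} ≤ ENNReal.ofReal η := by
  have m1 := markov hξ (b := 2 * a / η) (by positivity) h1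
  have m2 := markov hD (b := η ^ 2 / (2 * a * κ)) (by positivity) h2
  have e1 : a / (2 * a / η) = η / 2 := by field_simp
  have e2 : η ^ 3 / (4 * a * κ) / (η ^ 2 / (2 * a * κ)) = η / 2 := by field_simp; ring
  rw [e1] at m1; rw [e2] at m2
  have hs : {ω | η < |ξ ω * κ * D ω|} ⊆
      {ω | 2 * a / η ≤ |ξ ω|} ∪ {ω | η ^ 2 / (2 * a * κ) ≤ |D ω|} := by
    intro ω hω
    by_contra hc
    simp only [mem_union, mem_ofPred_eq, not_or, not_le] at hc hω
    rw [abs_mul, abs_mul, abs_of_pos hκ] at hω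
    have : |ξ ω| * κ * |D ω| ≤ 2 * a / η * κ * (η ^ 2 / (2 * a * κ)) := by
      gcongr
      · exact hc.1.le
      · exact hc.2.le
    have e : 2 * a / η * κ * (η ^ 2 / (2 * a * κ)) = η := by field_simp
    linarith
  refine (measure_mono hs).trans ((measure_union_le _ _).trans ?_)
  refine (add_le_add m1 m2).trans ?_
  rw [← ENNReal.ofReal_add (by positivity) (by positivity)]
  exact le_of_eq (by congr 1; ring)

/-! ### exponential identities -/

theorem half_pow (k : ℕ) (s : ℝ) : ((1 / 2 : ℝ) ^ k) ^ s = Real.exp (-(k * l2) * s) := by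
  rw [Real.rpow_def_of_pos (by positivity), Real.log_pow]
  congr 2
  unfold l2
  rw [one_div, Real.log_inv]; ring

theorem term_fine {γ : ℝ} (hγ : γ ≠ 0) (t I E a G α β ν r nn : ℝ) (k : ℕ) :
    a / Real.exp (-t) ^ 2 * (G * (((1 / 2 : ℝ) ^ k) ^ (γ ^ 2 / 2) *
      Real.exp (γ * ((α - β) - QQ γ * t + (ν - r))))) =
    Real.exp (-γ * β) * Real.exp (γ ^ 2 * (E + I) / 2) * (a * G *
      (Real.exp (γ ^ 2 / 2 * (nn - (E + k * l2 + t + I))) *
        Real.exp (γ * (ν + (α - r)) - γ ^ 2 * nn / 2))) := by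
  rw [half_pow, div_eq_mul_inv, ← Real.exp_nat_mul, ← Real.exp_neg]
  have : ∀ A B C D E' F H : ℝ, A + B + C = D + E' + F + H →
      a * Real.exp A * (G * (Real.exp B * Real.exp C)) =
        Real.exp D * Real.exp E' * (a * G * (Real.exp F * Real.exp H)) := by
    intro A B C D E' F H h
    have : Real.exp A * Real.exp B * Real.exp C =
        Real.exp D * Real.exp E' * Real.exp F * Real.exp H := by
      simp only [← Real.exp_add, h]
    linear_combination a * G * this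
  apply this
  unfold QQ
  field_simp
  push_cast
  ring

theorem term_coarse (γ I E a G α β R : ℝ) (hR : 0 < R) :
    Real.exp (γ ^ 2 * I / 2) * (a * R ^ (γ ^ 2 / 2) * G * Real.exp (γ * (α - β))) =
    Real.exp (-γ * β) * Real.exp (γ ^ 2 * (E + I) / 2) * (a * G *
      Real.exp (γ * α - γ ^ 2 * (E - Real.log R) / 2)) := by
  rw [Real.rpow_def_of_pos hR]
  have : ∀ A B C D E' F : ℝ, A + B + C = D + E' + F →
      Real.exp A * (a * Real.exp B * G * Real.exp C) =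
        Real.exp D * Real.exp E' * (a * G * Real.exp F) := by
    intro A B C D E' F h
    have : Real.exp A * Real.exp B * Real.exp C = Real.exp D * Real.exp E' * Real.exp F := by
      simp only [← Real.exp_add, h]
    linear_combination a * G * this
  apply this
  ring

/-- the error at mollification level `k` -/
def bk (C K : ℝ) (k : ℕ) : ℝ :=
  2 * (Real.sqrt (C * (1 / 2) ^ k) * (k + K + Real.sqrt (C * (1 / 2) ^ k)) + C * (1 / 2) ^ k)

theorem bk_tendsto (C K : ℝ) (hC : 0 ≤ C) : Tendsto (bk C K) atTop (𝓝 0) := by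
  have hr0 : 0 ≤ Real.sqrt (1 / 2) := Real.sqrt_nonneg _
  have hr1 : Real.sqrt (1 / 2) < 1 := by
    rw [Real.sqrt_lt' one_pos]; norm_num
  have e : ∀ k : ℕ, Real.sqrt (C * (1 / 2) ^ k) = Real.sqrt C * Real.sqrt (1 / 2) ^ k := by
    intro k
    rw [Real.sqrt_mul hC]
    congr 1
    rw [Real.sqrt_eq_iff_mul_self_eq (by positivity) (by positivity), ← mul_pow,
      Real.mul_self_sqrt (by norm_num)]
  have t1 := tendsto_pow_atTop_nhds_zero_of_lt_one hr0 hr1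
  have t2 := tendsto_self_mul_const_pow_of_lt_one hr0 hr1
  have t3 := tendsto_pow_atTop_nhds_zero_of_lt_one (r := (1 / 2 : ℝ)) (by norm_num) (by norm_num)
  have t4 := (((t2.const_mul (Real.sqrt C)).add ((t1.const_mul (Real.sqrt C)).mul
    ((t1.const_mul (Real.sqrt C)).const_add K))).add (t3.const_mul C)).const_mul 2
  simp only [mul_zero, add_zero, zero_mul] at t4
  refine t4.congr fun k => ?_
  unfold bk
  rw [e]; ring

/-- replacing a vector by a nearby one in a Wick exponential -/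
theorem N1_repl (hD : St_G1D) (h4 : St_G4) {γ : ℝ} (hγ : γ ∈ Ioo (0 : ℝ) 2) (u d : HH)
    (C K n0 : ℝ) (k : ℕ) (hK : 1 ≤ K) (hd : ‖d‖ ^ 2 ≤ C * (1 / 2) ^ k)
    (hu : |‖u‖ ^ 2 - n0| ≤ C * (1 / 2) ^ k) (hu' : 1 + ‖u‖ ^ 2 ≤ k + K) (hb : bk C K k ≤ 1) :
    N1 (fun ω => Real.exp (γ ^ 2 / 2 * (‖u + d‖ ^ 2 - n0)) * Wk γ (u + d) ω - Wk γ u ω) ≤
      ENNReal.ofReal (4 * bk C K k) := by
  set s := Real.sqrt (C * (1 / 2) ^ k) with hs
  have hs0 : 0 ≤ s := Real.sqrt_nonneg _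
  have hds : ‖d‖ ≤ s := Real.le_sqrt_of_sq_le hd
  have hC : 0 ≤ C * (1 / 2) ^ k := (abs_nonneg _).trans hu
  have hk : (0 : ℝ) ≤ k := Nat.cast_nonneg k
  have e1 : ‖u + d‖ ^ 2 = ‖u‖ ^ 2 + 2 * ⟪u, d⟫ + ‖d‖ ^ 2 := norm_add_sq_real u d
  have e2 : |⟪u, d⟫| ≤ ‖u‖ * ‖d‖ := abs_real_inner_le_norm u d
  have e3 : 2 * ‖u‖ ≤ k + K := by nlinarith [sq_nonneg (‖u‖ - 1)]
  have e4 : 2 * |⟪u, d⟫| + ‖d‖ ^ 2 ≤ s * (k + K + s) := by
    have a1 : 2 * (‖u‖ * ‖d‖) ≤ (k + K) * s := by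
      calc 2 * (‖u‖ * ‖d‖) = 2 * ‖u‖ * ‖d‖ := by ring
        _ ≤ (k + K) * s := mul_le_mul e3 hds (norm_nonneg _) (by linarith)
    have a2 : ‖d‖ ^ 2 ≤ s * s := by nlinarith [norm_nonneg d]
    nlinarith
  have e5 : |‖u + d‖ ^ 2 - n0| ≤ s * (k + K + s) + C * (1 / 2) ^ k := by
    rw [e1, abs_le]
    have a1 := abs_le.1 hu
    have a2 := le_abs_self ⟪u, d⟫
    have a3 := neg_abs_le ⟪u, d⟫
    constructor <;> nlinarith [sq_nonneg ‖d‖]
  have g1 : γ ^ 2 / 2 ≤ 2 := by nlinarith [hγ.1, hγ.2]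
  have e6 : |γ ^ 2 / 2 * (‖u + d‖ ^ 2 - n0)| ≤ bk C K k := by
    rw [abs_mul, abs_of_nonneg (by positivity : 0 ≤ γ ^ 2 / 2)]
    unfold bk
    exact mul_le_mul g1 e5 (abs_nonneg _) (by norm_num)
  have e7 := Real.abs_exp_sub_one_le (e6.trans hb)
  have e8 : 2 * |γ| * ‖u + d - u‖ ≤ 2 * bk C K k := by
    rw [add_sub_cancel_left, abs_of_pos hγ.1]
    have : s * 1 ≤ s * (k + K + s) := mul_le_mul_of_nonneg_left (by linarith) hs0
    have : γ * ‖d‖ ≤ 2 * s := mul_le_mul hγ.2.le hds (norm_nonneg _) (by norm_num)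
    unfold bk; rw [← hs]; linarith
  have hb0 : 0 ≤ bk C K k := (abs_nonneg _).trans e6
  have split : (fun ω => Real.exp (γ ^ 2 / 2 * (‖u + d‖ ^ 2 - n0)) * Wk γ (u + d) ω - Wk γ u ω) =
      fun ω => (Real.exp (γ ^ 2 / 2 * (‖u + d‖ ^ 2 - n0)) - 1) * Wk γ (u + d) ω +
        (Wk γ (u + d) ω - Wk γ u ω) := by
    funext ω; ring
  rw [split]
  refine (N1_add ((meas_Wk _ _).const_mul _)).trans ?_
  rw [N1_mul, N1_Wk hD, mul_one, show 4 * bk C K k = 2 * bk C K k + 2 * bk C K k by ring,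
    ENNReal.ofReal_add (by positivity) (by positivity)]
  refine add_le_add (ENNReal.ofReal_le_ofReal (e7.trans (by linarith))) ?_
  exact (h4.2.2 γ _ _).trans (ENNReal.ofReal_le_ofReal e8)

end BRb

end

end Pool.Agent.Lib.APPS
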