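import Pool.Agent.Lib.APPS.B_BRba

/-! Block BRb, estimates in the recentred model. -/

namespace Pool.Agent.Lib.APPS

open MeasureTheory ProbabilityTheory Filter Topology Set Metric
open scoped NNReal ENNReal CompactlySupported BoundedContinuousFunction RealInnerProductSpace
  Classical

noncomputable section

namespace BRb

def mp (J n : ℕ) (μ : Measure ℂ) : Measure ℂ :=
  μ.map fun x => zz n + (((1 / 2 : ℝ) ^ J : ℝ) : ℂ) * x

theorem log_rho (J : ℕ) : Real.log ‖((((1 / 2 : ℝ) ^ J : ℝ)) : ℂ)‖ = -(J * l2) := by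
  rw [Complex.norm_real, Real.norm_eq_abs, abs_of_pos (by positivity), Real.log_pow]
  unfold l2
  rw [one_div, Real.log_inv]; ring

theorem pfe_mp (hF : St_FE) (J n : ℕ) {μ : Measure ℂ} (h : PFE μ) : PFE (mp J n μ) :=
  hF.2.2.2.2.2.2.2.2.2.2.1 μ _ _ (rho_ne J) h

theorem Ie_mp (hF : St_FE) (J n : ℕ) {μ ν : Measure ℂ} (h : PFE μ) (h' : PFE ν) :
    Ie (mp J n μ) (mp J n ν) = Ie μ ν + J * l2 := by
  have := hF.2.2.2.2.2.2.2.2.2.2.2 μ ν (zz n) _ (rho_ne J) h h'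
  rw [log_rho] at this
  unfold mp; rw [this]; ring

theorem norm_mp (hF : St_FE) (hM : St_MOD) (M : Model) (J n : ℕ) {μ ν : Measure ℂ} (h : PFE μ)
    (h' : PFE ν) : ‖M.e (mp J n μ) - M.e (mp J n ν)‖ ^ 2 = ‖M.e μ - M.e ν‖ ^ 2 := by
  have h5 := (hM M).2.2.2.2.1
  rw [← real_inner_self_eq_norm_sq, ← real_inner_self_eq_norm_sq,
    h5 _ _ _ _ (pfe_mp hF J n h) (pfe_mp hF J n h') (pfe_mp hF J n h) (pfe_mp hF J n h'),
    h5 _ _ _ _ h h' h h', Ie_mp hF J n h h, Ie_mp hF J n h h', Ie_mp hF J n h' h,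
    Ie_mp hF J n h' h']
  ring

theorem supp_mp (J n : ℕ) {μ : Measure ℂ} {c : ℂ} {r r' : ℝ}
    (h : μ (closedBall (xx J n c) r)ᶜ = 0) (hr : (1 / 2 : ℝ) ^ J * r ≤ r') :
    mp J n μ (closedBall c r')ᶜ = 0 := by
  unfold mp
  rw [Measure.map_apply (by fun_prop) isClosed_closedBall.measurableSet.compl]
  refine measure_mono_null (fun y hy => ?_) h
  intro hy'
  apply hy
  rw [mem_closedBall, dist_eq_norm] at hy' ⊢
  have e : zz n + (((1 / 2 : ℝ) ^ J : ℝ) : ℂ) * y - c =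
      (((1 / 2 : ℝ) ^ J : ℝ) : ℂ) * (y - xx J n c) := by
    conv_lhs => rw [← zz_xx J n c]
    ring
  rw [e, norm_mul, Complex.norm_real, Real.norm_eq_abs, abs_of_pos (by positivity)]
  exact (mul_le_mul_of_nonneg_left hy' (by positivity)).trans hr

theorem circ_mp (hE : St_EXP1) (J n : ℕ) (c : ℂ) (r : ℝ) :
    mp J n (circ (xx J n c) r) = circ c ((1 / 2 : ℝ) ^ J * r) := by
  unfold mp
  rw [(hE.2.1 _ r (zz n) _ (by positivity : (0 : ℝ) < (1 / 2) ^ J)).1, zz_xx]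

theorem circ_mp0 (hE : St_EXP1) (J n : ℕ) :
    mp J n (circ 0 1) = circ (zz n) ((1 / 2 : ℝ) ^ J) := by
  unfold mp
  rw [(hE.2.1 _ 1 (zz n) _ (by positivity : (0 : ℝ) < (1 / 2) ^ J)).1]
  simp

theorem ctr_near (hG : St_GEO1) {S S' : Dy} (h : S' <:+ S) :
    ‖ctr S - ctr S'‖ ≤ 3 / 4 * side S' :=
  (hG.2.2.2.1 S').2.2.2.1 _ ((hG.2.2.2.2.1 S S').2 h (hG.2.2.2.1 S).2.2.1)

theorem ball_sub (hG : St_GEO1) (S : Dy) {r : ℝ} (hr : r ≤ 1) :
    closedBall (ctr S) r ⊆ ball (ctr []) 4 := by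
  have h := ctr_near hG (S := S) (S' := []) (by simp)
  have h1 := (hG.1 []).2
  refine closedBall_subset_ball' ?_
  rw [dist_eq_norm]; linarith

/-- the data attached to a mollifier -/
structure LatD (θ : Measure ℂ) (C : ℝ) : Prop where
  C0 : 0 ≤ C
  pfe : ∀ p, PFE (nuP θ 0 1 p) ∧ PFE (radM θ 0 1 p)
  supp : ∀ (w : Cyl) (k : ℕ),
    nuP θ 0 1 (w, k) (closedBall (frC w) (2 * (1 / 2 : ℝ) ^ k * Real.exp (-w.1)))ᶜ = 0
  en : ∀ (w : Cyl) (k : ℕ),
    |Ie (nuP θ 0 1 (w, k)) (nuP θ 0 1 (w, k)) - (k * l2 + w.1 + Ie θ θ)| ≤ C * (1 / 2 : ℝ) ^ k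
  rad : ∀ (M : Model) (w : Cyl) (k : ℕ),
    ‖M.e (radM θ 0 1 (w, k)) - M.eC 0 (Real.exp (-w.1))‖ ^ 2 ≤ C * (1 / 2 : ℝ) ^ k

/-- the data attached to the test function -/
structure GD (G : ℂ → ℝ) (B T : ℝ) (J : ℕ) : Prop where
  nn : ∀ y, 0 ≤ G y
  le : ∀ y, G y ≤ B
  hT : ∀ y, G y ≠ 0 → y ≠ 0 ∧ |(toCyl y).1| ≤ T
  hJ : 4 * Real.exp T < 2 ^ J

def wS (J n : ℕ) (S : Dy) : Cyl := toCyl (xx J n (ctr S))
def nuS (θ : Measure ℂ) (J n k : ℕ) (S : Dy) : Measure ℂ := mp J n (nuP θ 0 1 (wS J n S, k))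
def dS' (M : Model) (θ : Measure ℂ) (J n k : ℕ) (S : Dy) : HH :=
  M.e (mp J n (circ 0 (Real.exp (-(wS J n S).1)))) - M.e (mp J n (radM θ 0 1 (wS J n S, k)))

theorem nuS_supp (hC : St_CYL) {θ : Measure ℂ} {C : ℝ} (hL : LatD θ C) {G : ℂ → ℝ} {B T : ℝ}
    {J : ℕ} (hg : GD G B T J) (n k : ℕ) (S : Dy) (h : G (xx J n (ctr S)) ≠ 0) :
    nuS θ J n k S (closedBall (ctr S) ((1 / 2 : ℝ) ^ k / 2))ᶜ = 0 := by
  obtain ⟨h0, hT⟩ := hg.hT _ h
  have h1 := hL.supp (wS J n S) k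
  unfold wS at h1
  rw [hC.1 _ h0] at h1
  refine supp_mp J n h1 ?_
  have h2 : Real.exp (-(toCyl (xx J n (ctr S))).1) ≤ Real.exp T :=
    Real.exp_le_exp.2 (by linarith [neg_abs_le (toCyl (xx J n (ctr S))).1])
  have h3 : (1 / 2 : ℝ) ^ J * 2 ^ J = 1 := by rw [← mul_pow]; norm_num
  have h4 := hg.hJ
  have p1 : (0 : ℝ) < (1 / 2) ^ J := by positivity
  have p2 : (0 : ℝ) < (1 / 2) ^ k := by positivity
  have h5 : (1 / 2 : ℝ) ^ J * Real.exp (-(toCyl (xx J n (ctr S))).1) ≤ 1 / 4 := by nlinarith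
  nlinarith

theorem nuS_en (hF : St_FE) {θ : Measure ℂ} {C : ℝ} (hL : LatD θ C) (J n k : ℕ) (S : Dy) :
    |Ie (nuS θ J n k S) (nuS θ J n k S) - (J * l2 + k * l2 + (wS J n S).1 + Ie θ θ)| ≤
      C * (1 / 2 : ℝ) ^ k := by
  unfold nuS
  rw [Ie_mp hF J n (hL.pfe _).1 (hL.pfe _).1]
  convert hL.en (wS J n S) k using 2
  ring

theorem l2_bd : 0 ≤ l2 ∧ l2 ≤ 1 := by
  unfold l2
  refine ⟨Real.log_nonneg (by norm_num), ?_⟩
  linarith [Real.log_le_sub_one_of_pos (show (0 : ℝ) < 2 by norm_num)]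

theorem quarter (a b : ℕ) : (4 : ℝ) ^ (a + b) * (1 / 4) ^ a = 4 ^ b := by
  rw [pow_add, mul_right_comm, ← mul_pow]; norm_num

theorem D1_bd (hD : St_G1D) (h4 : St_G4) (hM : St_MOD) (hF : St_FE) (hG : St_GEO1) (hT : St_T1)
    (hC : St_CYL) {γ : ℝ} (hγ : γ ∈ Ioo (0 : ℝ) 2) {θ : Measure ℂ} {C : ℝ} (hL : LatD θ C)
    {G : ℂ → ℝ} {B T : ℝ} {J : ℕ} (hg : GD G B T J) (M : Model) (hO : M.O = ball (ctr []) 4)
    (h0 : M.C0 = Real.log 4) (n k l' : ℕ) (K : ℝ) (hK : 1 ≤ K)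
    (hK' : 1 + (Real.log 4 + J * l2) + T + Ie θ θ + C ≤ K) (hb : bk C K k ≤ 1) :
    N1 (fun ω => ∑ S ∈ lev (l' + J), (1 / 4 : ℝ) ^ l' * G (xx J n (ctr S)) *
      (Real.exp (γ ^ 2 / 2 * (‖M.e (nuS θ J n k S) + dS' M θ J n k S‖ ^ 2 -
          ((Real.log 4 + J * l2) + k * l2 + (wS J n S).1 + Ie θ θ))) *
        Wk γ (M.e (nuS θ J n k S) + dS' M θ J n k S) ω - Wk γ (M.e (nuS θ J n k S)) ω)) ≤
      ENNReal.ofReal (4 ^ J * B * (4 * bk C K k)) := by
  have hB : 0 ≤ B := (hg.nn 0).trans (hg.le 0)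
  have hb0 : 0 ≤ bk C K k := by
    unfold bk; have := hL.C0; positivity
  refine (N1_sum _ _ (fun _ => (1 / 4 : ℝ) ^ l' * B * (4 * bk C K k)) (fun _ _ => by positivity)
    (fun S _ => (((meas_Wk _ _).const_mul _).sub (meas_Wk _ _)).const_mul _) fun S _ => ?_).trans ?_
  · rw [N1_mul]
    by_cases h : G (xx J n (ctr S)) = 0
    · simp [h]
    have p1 : (1 / 2 : ℝ) ^ k ≤ 1 := pow_le_one₀ (by norm_num) (by norm_num)
    have hp : PFE (nuS θ J n k S) := pfe_mp hF J n (hL.pfe (wS J n S, k)).1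
    have hs : nuS θ J n k S M.Oᶜ = 0 := by
      refine measure_mono_null (compl_subset_compl.2 ?_) (nuS_supp hC hL hg n k S h)
      rw [hO]; exact ball_sub hG S (by linarith)
    have hn : ‖M.e (nuS θ J n k S)‖ ^ 2 = Real.log 4 + Ie (nuS θ J n k S) (nuS θ J n k S) := by
      rw [← real_inner_self_eq_norm_sq, (hM M).2.2.2.1 _ _ hp hp hs hs, h0]
    have he := nuS_en hF hL J n k S
    have hd : ‖dS' M θ J n k S‖ ^ 2 ≤ C * (1 / 2) ^ k := by
      unfold dS'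
      rw [norm_mp hF hM M J n (hF.2.2.2.2.2.2.2.2.1 _ _ (Real.exp_pos _)).1 (hL.pfe _).2,
        norm_sub_rev]
      exact hL.rad M _ k
    have ht : (wS J n S).1 ≤ T := (le_abs_self _).trans (hg.hT _ h).2
    have r := N1_repl hD h4 hγ (M.e (nuS θ J n k S)) (dS' M θ J n k S) C K
      ((Real.log 4 + J * l2) + k * l2 + (wS J n S).1 + Ie θ θ) k hK hd
      (by rw [hn]; convert he using 2; ring)
      (by
        have a1 := (abs_le.1 he).2
        have a2 : C * (1 / 2 : ℝ) ^ k ≤ C := mul_le_of_le_one_right hL.C0 p1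
        have a3 : (k : ℝ) * l2 ≤ k := mul_le_of_le_one_right (Nat.cast_nonneg k) l2_bd.2
        rw [hn]; linarith) hb
    rw [ENNReal.ofReal_mul (by positivity)]
    refine mul_le_mul' (ENNReal.ofReal_le_ofReal ?_) r
    rw [abs_of_nonneg (mul_nonneg (by positivity) (hg.nn _))]
    exact mul_le_mul_of_nonneg_left (hg.le _) (by positivity)
  · rw [Finset.sum_const, hT.2.1, nsmul_eq_mul]
    refine le_of_eq (congrArg _ ?_)
    push_cast
    rw [← quarter l' J]; ring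

theorem spread (hF : St_FE) (hG : St_GEO1) (hT : St_T1) (hC : St_CYL) {θ : Measure ℂ} {C : ℝ}
    (hL : LatD θ C) {G : ℂ → ℝ} {B T : ℝ} {J : ℕ} (hg : GD G B T J) (n k l' : ℕ) (Λ : ℝ)
    (hk : k ≤ l' + J) (h1 : 4 ^ J * B ≤ Λ) (h2 : J * l2 + T + Ie θ θ + C ≤ Λ) :
    Spread (I := ↥((lev (l' + J)).filter fun S => G (xx J n (ctr S)) ≠ 0)) [] Λ k
      (fun S => (1 / 4 : ℝ) ^ l' * G (xx J n (ctr S))) (fun S => anc k S)
      (fun S => nuS θ J n k S) := by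
  have hB : 0 ≤ B := (hg.nn 0).trans (hg.le 0)
  have hlen : ∀ S : ↥((lev (l' + J)).filter fun S => G (xx J n (ctr S)) ≠ 0),
      (anc k (S : Dy)).length = k := by
    intro S
    rw [(hG.2.2.2.2.2.2.2.2.2.2.2.2.2.1 k S).2, (hT.1 _ _).1 (Finset.mem_filter.1 S.2).1]
    omega
  refine ⟨fun S => mul_nonneg (by positivity) (hg.nn _), hlen,
    fun S => pfe_mp hF J n (hL.pfe _).1, fun S => ?_, fun S => ?_, fun U => ?_⟩
  · refine measure_mono_null (compl_subset_compl.2 ?_)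
      (nuS_supp hC hL hg n k S (Finset.mem_filter.1 S.2).2)
    rw [List.append_nil]
    refine closedBall_subset_closedBall' ?_
    have := ctr_near hG (hG.2.2.2.2.2.2.2.2.2.2.2.2.2.1 k S).1
    have e : side (anc k (S : Dy)) = (1 / 2 : ℝ) ^ k := by unfold side; rw [hlen]
    have p : (0 : ℝ) < (1 / 2) ^ k := by positivity
    rw [dist_eq_norm]; rw [e] at this ⊢; linarith
  · have a1 := (abs_le.1 (nuS_en hF hL J n k S)).2
    have p1 : (1 / 2 : ℝ) ^ k ≤ 1 := pow_le_one₀ (by norm_num) (by norm_num)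
    have a2 : C * (1 / 2 : ℝ) ^ k ≤ C := mul_le_of_le_one_right hL.C0 p1
    have ht : (wS J n S).1 ≤ T := (le_abs_self _).trans (hg.hT _ (Finset.mem_filter.1 S.2).2).2
    have e : -Real.log (side (anc k (S : Dy) ++ [])) = k * l2 := by
      rw [List.append_nil]; unfold side l2
      rw [hlen, Real.log_pow, one_div, Real.log_inv]; ring
    rw [e]; linarith
  · obtain ⟨m, hm⟩ : ∃ m, l' + J = m + k := ⟨l' + J - k, by omega⟩
    calc _ = ∑ S : ↥((lev (l' + J)).filter fun S => G (xx J n (ctr S)) ≠ 0),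
          (fun S : Dy => if anc k S = U then (1 / 4 : ℝ) ^ l' * G (xx J n (ctr S)) else 0) S := by
          rw [Finset.sum_filter]
      _ = ∑ S ∈ (lev (l' + J)).filter fun S => G (xx J n (ctr S)) ≠ 0,
          if anc k S = U then (1 / 4 : ℝ) ^ l' * G (xx J n (ctr S)) else 0 :=
          Finset.sum_coe_sort _
            (fun S : Dy => if anc k S = U then (1 / 4 : ℝ) ^ l' * G (xx J n (ctr S)) else 0)
      _ ≤ ∑ S ∈ lev (l' + J), if anc k S = U then (1 / 4 : ℝ) ^ l' * B else 0 := by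
          refine (Finset.sum_le_sum fun S _ => ?_).trans
            (Finset.sum_le_sum_of_subset_of_nonneg (Finset.filter_subset _ _) fun S _ _ => ?_)
          · split_ifs
            · exact mul_le_mul_of_nonneg_left (hg.le _) (by positivity)
            · exact le_rfl
          · split_ifs
            · positivity
            · exact le_rfl
      _ = ∑ V ∈ lev k, if V = U then 4 ^ m * ((1 / 4 : ℝ) ^ l' * B) else 0 := by
          rw [hm, sum_lev hT]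
          refine Finset.sum_congr rfl fun V hV => ?_
          have hV' := (hT.1 _ _).1 hV
          have : ∀ A, anc k (A ++ V) = V := fun A => hV' ▸ anc_app A V
          simp only [this]
          rw [Finset.sum_const, hT.2.1]
          split_ifs <;> simp
      _ ≤ 4 ^ m * ((1 / 4 : ℝ) ^ l' * B) := by
          rw [Finset.sum_ite_eq']
          split_ifs
          · exact le_rfl
          · positivity
      _ = 4 ^ J * B * (1 / 4 : ℝ) ^ k := by
          have a := quarter l' J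
          have b := quarter k m
          rw [hm] at a; rw [add_comm] at b
          rw [← a, ← b]; ring
      _ ≤ _ := mul_le_mul_of_nonneg_right h1 (by positivity)

theorem D3_bd (hD : St_G1D) (hG : St_GEO1) (hT : St_T1) (γ : ℝ) {G : ℂ → ℝ} (J l m : ℕ)
    (W : Dy → HH) (ε : ℝ) (hε : 0 ≤ ε)
    (hu : ∀ y y', ‖y - y'‖ ≤ (1 / 2 : ℝ) ^ l → |G y - G y'| ≤ ε) :
    N1 (fun ω => ∑ S ∈ lev (l + m + J), (1 / 4 : ℝ) ^ (l + m) * G (xx J (l + J) (ctr S)) *
        Wk γ (W (anc (l + J) S)) ω -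
      ∑ V ∈ lev (l + J), (1 / 4 : ℝ) ^ l * G (xx J (l + J) (ctr V)) * Wk γ (W V) ω) ≤
      ENNReal.ofReal (4 ^ J * ε) := by
  have e : (fun ω => ∑ S ∈ lev (l + m + J), (1 / 4 : ℝ) ^ (l + m) * G (xx J (l + J) (ctr S)) *
        Wk γ (W (anc (l + J) S)) ω -
      ∑ V ∈ lev (l + J), (1 / 4 : ℝ) ^ l * G (xx J (l + J) (ctr V)) * Wk γ (W V) ω) =
      fun ω => ∑ V ∈ lev (l + J), (∑ A ∈ lev m, (1 / 4 : ℝ) ^ (l + m) *
        (G (xx J (l + J) (ctr (A ++ V))) - G (xx J (l + J) (ctr V)))) * Wk γ (W V) ω := by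
    funext ω
    rw [show l + m + J = m + (l + J) by ring, sum_lev hT, ← Finset.sum_sub_distrib]
    refine Finset.sum_congr rfl fun V hV => ?_
    have hV' := (hT.1 _ _).1 hV
    have : ∀ A, anc (l + J) (A ++ V) = V := fun A => hV' ▸ anc_app A V
    simp only [this, mul_sub, Finset.sum_sub_distrib, Finset.sum_const, hT.2.1, nsmul_eq_mul,
      sub_mul, Finset.sum_mul]
    congr 1
    push_cast
    have : (4 : ℝ) ^ m * (1 / 4) ^ m = 1 := by rw [← mul_pow]; norm_num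
    rw [pow_add]
    linear_combination (-(1 / 4 : ℝ) ^ l * G (xx J (l + J) (ctr V)) * Wk γ (W V) ω) * this
  rw [e]
  refine (N1_sum _ _ (fun _ => (1 / 4 : ℝ) ^ l * ε) (fun _ _ => by positivity)
    (fun V _ => (meas_Wk _ _).const_mul _) fun V hV => ?_).trans ?_
  · rw [N1_mul, N1_Wk hD, mul_one]
    refine ENNReal.ofReal_le_ofReal ((Finset.abs_sum_le_sum_abs _ _).trans ?_)
    refine (Finset.sum_le_card_nsmul _ _ ((1 / 4 : ℝ) ^ (l + m) * ε) fun A _ => ?_).trans ?_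
    · rw [abs_mul, abs_of_pos (by positivity)]
      refine mul_le_mul_of_nonneg_left (hu _ _ ?_) (by positivity)
      rw [xx_sub]
      have h1 := ctr_near hG (S := A ++ V) (S' := V) (List.suffix_append A V)
      have h2 : side V = (1 / 2 : ℝ) ^ l * (1 / 2) ^ J := by
        unfold side; rw [(hT.1 _ _).1 hV, pow_add]
      have h3 : (2 : ℝ) ^ J * (1 / 2) ^ J = 1 := by rw [← mul_pow]; norm_num
      have p1 : (0 : ℝ) < (1 / 2) ^ l := by positivity
      calc _ ≤ 2 ^ J * (3 / 4 * side V) := mul_le_mul_of_nonneg_left h1 (by positivity)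
        _ = 3 / 4 * (1 / 2) ^ l * (2 ^ J * (1 / 2) ^ J) := by rw [h2]; ring
        _ ≤ _ := by rw [h3]; linarith
    · rw [hT.2.1, nsmul_eq_mul]
      push_cast
      have : (4 : ℝ) ^ m * (1 / 4) ^ m = 1 := by rw [← mul_pow]; norm_num
      rw [pow_add]
      exact le_of_eq (by linear_combination ((1 / 4 : ℝ) ^ l * ε) * this)
  · rw [Finset.sum_const, hT.2.1, nsmul_eq_mul]
    refine le_of_eq (congrArg _ ?_)
    push_cast
    rw [← quarter l J]; ring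

end BRb

end

end Pool.Agent.Lib.APPS
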