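import Pool.Agent.Lib.APPS.Defs2
import Pool.Agent.Lib.APPS.B_NU
import Pool.Agent.Lib.APPS.B_LAT

/-! The measures of the theorem charge no vertical circle, so the translation is exact. -/

namespace Pool.Agent.Lib.APPS

open MeasureTheory ProbabilityTheory Filter Topology Set Metric
open scoped NNReal ENNReal CompactlySupported RealInnerProductSpace Classical

noncomputable section

namespace CIRC

theorem int_le {α : Type} [MeasurableSpace α] (μ : Measure α) [IsProbabilityMeasure μ] {f : α → ℝ}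
    {C : ℝ} (hC : 0 ≤ C) (h : ∀ᵐ x ∂μ, f x ≤ C) : ∫ x, f x ∂μ ≤ C := by
  by_cases hf : Integrable f μ
  · simpa using integral_mono_ae hf (integrable_const C) h
  · rwa [integral_undef hf]

theorem var_bd (hFE : St_FE) (hE : St_EXP1) (hC : St_CYL) (hL : St_LAT) {θ : Measure ℂ}
    (hθ : IsMoll θ) : ∃ C : ℝ, ∀ w k, latCov θ (w, k) (w, k) ≤ k * l2 + C := by
  obtain ⟨-, C, -, -, h3, -⟩ := hL.2.2 θ hθ
  refine ⟨Ie θ θ + |C| + 1, fun w k => ?_⟩
  have := LAT.moll_prob hθ (w, k)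
  have h1 := (abs_le.1 (h3 w k).2).2
  have h2 : C * (1 / 2 : ℝ) ^ k ≤ |C| :=
    (mul_le_mul_of_nonneg_right (le_abs_self C) (LAT.eps_pos k).le).trans
      (mul_le_of_le_one_right (abs_nonneg C) (LAT.eps_le k))
  have hn : ∀ᵐ v ∂moll θ (w, k), |v.1 - w.1| ≤ 1 :=
    (LAT.moll_near hθ w k).mono fun v hv => hv.trans (LAT.eps_le k)
  have h6 := (LAT.abs_int (moll θ (w, k)) (f := fun v => ∫ v', min v.1 v'.1 ∂moll θ (w, k))
    (c := w.1) (ε := 1) ((by fun_prop : Measurable fun p : Cyl × Cyl =>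
      min p.1.1 p.2.1).stronglyMeasurable.integral_prod_right'.aestronglyMeasurable)
    (hn.mono fun v hv => (LAT.abs_int (moll θ (w, k)) (f := fun v' => min v.1 v'.1) (c := w.1)
      (ε := 1) (Measurable.aestronglyMeasurable (by fun_prop)) (hn.mono fun v' hv' => by
        rcases min_choice v.1 v'.1 with e | e <;> rw [e] <;> assumption)).2)).2
  rw [LAT.lat hθ hFE hE hC, LAT.Ie_rr hFE hE (LAT.moll_bd hθ _) (LAT.moll_bd hθ _), ← LAT.nuP_eq]
  linarith [(abs_le.1 h6).1]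

theorem near (hC : St_CYL) {θ : Measure ℂ} (hθ : IsMoll θ) {T : ℝ} {w : Cyl} (hw : |w.1| ≤ T)
    (k : ℕ) : ∀ᵐ v ∂moll θ (w, k),
      ‖frC v - frC w‖ ≤ Real.exp T * (2 * (1 / 2 : ℝ) ^ k) ∧ -v.1 ≤ T + 1 := by
  have h1 : ∀ᵐ v ∂moll θ (w, k), ‖frC v - frC w‖ ≤ Real.exp T * (2 * (1 / 2 : ℝ) ^ k) := by
    have hf := hC.2.2.1.measurable
    rw [LAT.moll_eq, ae_map_iff (LAT.m_TT w k).aemeasurable
      (measurableSet_le (by fun_prop) measurable_const)]
    filter_upwards [LAT.ps_near hθ k] with u hu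
    rw [LAT.frC_TT hC, ← mul_sub_one, norm_mul, hC.2.2.2.2.2.1]
    exact mul_le_mul (Real.exp_le_exp.2 ((neg_le_abs _).trans hw)) hu (norm_nonneg _)
      (Real.exp_pos _).le
  filter_upwards [h1, LAT.moll_bd hθ (w, k)] with v a b
  exact ⟨a, (neg_le_abs _).trans (b.trans (by simpa using hw))⟩

theorem off_bd (hC : St_CYL) {θ : Measure ℂ} (hθ : IsMoll θ) {T δ : ℝ} (hδ : 0 < δ) :
    ∃ C : ℝ, ∀ᶠ k in atTop, ∀ w w' : Cyl, |w.1| ≤ T → |w'.1| ≤ T → δ ≤ ‖frC w - frC w'‖ →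
      latCov θ (w, k) (w', k) ≤ C := by
  refine ⟨|Real.log (δ / 2)| + |T + 1|, ?_⟩
  have h0 : Tendsto (fun k : ℕ => Real.exp T * (2 * (1 / 2 : ℝ) ^ k)) atTop (𝓝 0) := by
    simpa using ((tendsto_pow_atTop_nhds_zero_of_lt_one (by norm_num : (0 : ℝ) ≤ 1 / 2)
      (by norm_num)).const_mul 2).const_mul (Real.exp T)
  filter_upwards [h0.eventually (gt_mem_nhds (by positivity : 0 < δ / 4))] with k hk w w' hw hw' hd
  have := LAT.moll_prob hθ (w, k)
  have := LAT.moll_prob hθ (w', k)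
  refine int_le _ (by positivity) ((near hC hθ hw k).mono fun v hv =>
    int_le _ (by positivity) ((near hC hθ hw' k).mono fun v' hv' => ?_))
  have h1 : δ / 2 ≤ ‖frC v - frC v'‖ := by
    have h2 := norm_sub_le_norm_sub_add_norm_sub (frC w) (frC v) (frC w')
    have h3 := norm_sub_le_norm_sub_add_norm_sub (frC v) (frC v') (frC w')
    rw [norm_sub_rev (frC w) (frC v)] at h2
    linarith [hv.1, hv'.1]
  have h4 := Real.log_le_log (by positivity) h1
  have h5 : -min v.1 v'.1 ≤ T + 1 := by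
    rcases min_choice v.1 v'.1 with e | e <;> rw [e]
    exacts [hv.2, hv'.2]
  linarith [neg_abs_le (Real.log (δ / 2)), le_abs_self (T + 1)]

theorem exp_mom (hG1D : St_G1D) (hG3 : St_G3) (hL : St_LAT) (hM0 : St_M0) {γ : ℝ} (D : QD γ)
    (p p' : Cyl × ℕ) : ∫⁻ ω, eE (γ * (D.L p ω + D.L p' ω)) ∂D.P =
      eE (γ ^ 2 / 2 * (latCov D.θ p p + 2 * latCov D.θ p p' + latCov D.θ p' p')) := by
  obtain ⟨M⟩ := hM0
  obtain ⟨-, C, -, -, -, h4⟩ := hL.2.2 D.θ D.hθ
  have hg := (h4 M).1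
  have h1 := hG3.1 _ _ _ _ _ D.hq.lat _ hg
  have hm : Measurable fun x : Cyl × ℕ → ℝ => eE (γ * (x p + x p')) := by
    unfold eE; fun_prop
  have h2 := lintegral_map (μ := D.P) hm (measurable_pi_lambda _ D.hq.lat.meas)
  rw [← h2, h1, lintegral_map hm (measurable_pi_lambda _ fun t => meas_ev _)]
  have h3 := hG1D.1 (γ • (M.lamV D.θ p + M.lamV D.θ p'))
  simp only [map_smul, map_add, smul_eq_mul] at h3
  rw [h3, norm_smul, mul_pow, Real.norm_eq_abs, sq_abs, norm_add_sq_real,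
    ← real_inner_self_eq_norm_sq, ← real_inner_self_eq_norm_sq, hg, hg, hg]
  congr 1
  ring

/-- second moment bound for test functions with separated supports -/
theorem mom2 (hG1D : St_G1D) (hG3 : St_G3) (hFE : St_FE) (hE : St_EXP1) (hC : St_CYL) (hL : St_LAT)
    (hM0 : St_M0) (hBM2 : St_BM2) (hBR0 : St_BR0) {γ : ℝ} (hγ : γ ∈ Ioo (0 : ℝ) 2) (D : QD γ)
    (T : ℝ) {δ : ℝ} (hδ : 0 < δ) : ∃ C : ℝ, ∀ f g : C_c(Cyl, ℝ), (∀ w, 0 ≤ f w) → (∀ w, 0 ≤ g w) →
      (∀ w w', f w ≠ 0 → g w' ≠ 0 → |w.1| ≤ T ∧ |w'.1| ≤ T ∧ δ ≤ ‖frC w - frC w'‖) →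
      AEMeasurable (fun ω => (∫⁻ w, ENNReal.ofReal (f w) ∂D.nu ω) *
        ∫⁻ w, ENNReal.ofReal (g w) ∂D.nu ω) D.P ∧
      ∫⁻ ω, (∫⁻ w, ENNReal.ofReal (f w) ∂D.nu ω) * ∫⁻ w, ENNReal.ofReal (g w) ∂D.nu ω ∂D.P ≤
        eE C * ((∫⁻ w, ENNReal.ofReal (f w) ∂cylVol) * ∫⁻ w, ENNReal.ofReal (g w) ∂cylVol) := by
  obtain ⟨C1, h1⟩ := var_bd hFE hE hC hL D.hθ
  obtain ⟨C2, h2⟩ := off_bd hC D.hθ (T := T) hδ
  refine ⟨γ ^ 2 * (C1 + C2), fun f g hf hg hs => ?_⟩
  have hP := (hBM2.1 γ D).2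
  have hσ := hC.2.2.2.2.2.2.2.2.2.2.2.1
  have hb := (hBR0 γ hγ D).2 (fun _ _ => 0) measurable_const (ae_of_all _ fun _ => continuous_const)
  have e0 : ∀ ω, D.muZ (fun _ _ => 0) ω = D.nu ω := fun ω => by simp [QD.muZ, wgt, eE]
  simp only [e0] at hb
  have e1 : ∀ (f : C_c(Cyl, ℝ)), (∀ w, 0 ≤ f w) → ∀ ω,
      ∫⁻ w, ENNReal.ofReal (f w) ∂D.nu ω = ENNReal.ofReal (∫ w, f w ∂D.nu ω) := fun f hf ω => by
    have := ((hBR0 γ hγ D).1 ω).1
    exact (NU.ofReal_int (map_continuous f) f.hasCompactSupport hf).symm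
  simp only [e1 f hf, e1 g hg]
  refine ⟨(hb f).2.1.ennreal_ofReal.mul (hb g).2.1.ennreal_ofReal, ?_⟩
  obtain ⟨n1, hn1, a1⟩ := (hb f).2.2.exists_seq_tendsto_ae
  obtain ⟨n2, hn2, a2⟩ := ((hb g).2.2.comp hn1.tendsto_atTop).exists_seq_tendsto_ae
  set F : ℕ → D.Ω → ℝ≥0∞ := fun k ω => ENNReal.ofReal (D.Ik (fun _ _ => 0) k f ω) *
    ENNReal.ofReal (D.Ik (fun _ _ => 0) k g ω) with hF
  have hlim : ∀ᵐ ω ∂D.P, ENNReal.ofReal (∫ w, f w ∂D.nu ω) * ENNReal.ofReal (∫ w, g w ∂D.nu ω) =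
      liminf (fun i => F (n1 (n2 i)) ω) atTop := by
    filter_upwards [a1, a2] with ω b1 b2
    exact (ENNReal.Tendsto.mul (ENNReal.tendsto_ofReal (b1.comp hn2.tendsto_atTop))
      (Or.inr ENNReal.ofReal_ne_top) (ENNReal.tendsto_ofReal b2)
      (Or.inr ENNReal.ofReal_ne_top)).liminf_eq.symm
  rw [lintegral_congr_ae hlim]
  refine (lintegral_liminf_le fun i => ((hb f).1 _).ennreal_ofReal.mul
    ((hb g).1 _).ennreal_ofReal).trans (liminf_le_of_frequently_le' (Eventually.frequently ?_))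
  filter_upwards [(hn1.comp hn2).tendsto_atTop.eventually h2] with i hk
  set k := n1 (n2 i)
  set a : C_c(Cyl, ℝ) → Cyl → D.Ω → ℝ≥0∞ := fun f w ω =>
    ENNReal.ofReal (f w) * eE (γ * D.L (w, k) ω - γ ^ 2 / 2 * (k * l2)) with ha
  have hm : ∀ f, Measurable fun q : Cyl × D.Ω => a f q.1 q.2 := fun f => by
    have := D.hq.joint k
    have := (map_continuous f).measurable
    simp only [ha, eE]
    fun_prop
  have hI : ∀ f : C_c(Cyl, ℝ), (∀ w, 0 ≤ f w) → ∀ ω,
      ENNReal.ofReal (D.Ik (fun _ _ => 0) k f ω) ≤ ∫⁻ w, a f w ω ∂cylVol := fun f hf ω => by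
    refine (Real.ofReal_le_enorm _).trans ((enorm_integral_le_lintegral_enorm _).trans_eq
      (lintegral_congr fun w => ?_))
    rw [Real.enorm_eq_ofReal (mul_nonneg (hf w) (by positivity)), ENNReal.ofReal_mul (hf w),
      Real.rpow_def_of_pos (by positivity), ← Real.exp_add, Real.log_pow, one_div, Real.log_inv]
    simp only [ha, eE, l2]
    congr 3
    ring
  calc ∫⁻ ω, F k ω ∂D.P
      ≤ ∫⁻ ω, ∫⁻ z, a f z.1 ω * a g z.2 ω ∂(cylVol.prod cylVol) ∂D.P := by
        refine lintegral_mono fun ω => ?_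
        rw [lintegral_prod_mul (f := fun w => a f w ω) (g := fun w => a g w ω)
          ((hm f).comp measurable_prodMk_right).aemeasurable
          ((hm g).comp measurable_prodMk_right).aemeasurable]
        exact mul_le_mul' (hI f hf ω) (hI g hg ω)
    _ = ∫⁻ z, ∫⁻ ω, a f z.1 ω * a g z.2 ω ∂D.P ∂(cylVol.prod cylVol) :=
        lintegral_lintegral_swap (((hm f).comp (measurable_snd.fst.prodMk measurable_fst)).mul
          ((hm g).comp (measurable_snd.snd.prodMk measurable_fst))).aemeasurable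
    _ ≤ ∫⁻ z, eE (γ ^ 2 * (C1 + C2)) * (ENNReal.ofReal (f z.1) * ENNReal.ofReal (g z.2))
          ∂(cylVol.prod cylVol) := by
        refine lintegral_mono fun z => ?_
        by_cases hz : f z.1 = 0 ∨ g z.2 = 0
        · rcases hz with hz | hz <;> simp [ha, hz]
        rw [not_or] at hz
        obtain ⟨s1, s2, s3⟩ := hs _ _ hz.1 hz.2
        have e2 : ∀ ω, a f z.1 ω * a g z.2 ω = (ENNReal.ofReal (f z.1) * ENNReal.ofReal (g z.2) *
            eE (-(γ ^ 2 * (k * l2)))) * eE (γ * (D.L (z.1, k) ω + D.L (z.2, k) ω)) := fun ω => by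
          simp only [ha, eE]
          rw [mul_mul_mul_comm, mul_assoc (_ * _), ← ENNReal.ofReal_mul (Real.exp_pos _).le,
            ← ENNReal.ofReal_mul (Real.exp_pos _).le, ← Real.exp_add, ← Real.exp_add]
          congr 3
          ring
        simp only [e2]
        rw [lintegral_const_mul' _ _ (ENNReal.mul_ne_top (ENNReal.mul_ne_top ENNReal.ofReal_ne_top
          ENNReal.ofReal_ne_top) (show eE _ ≠ ∞ from ENNReal.ofReal_ne_top)), exp_mom hG1D hG3 hL hM0, mul_assoc,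
          mul_comm (eE (γ ^ 2 * (C1 + C2)))]
        refine mul_le_mul_right ?_ _
        simp only [eE]
        rw [← ENNReal.ofReal_mul (Real.exp_pos _).le, ← Real.exp_add]
        refine ENNReal.ofReal_le_ofReal (Real.exp_le_exp.2 ?_)
        have h3 : latCov D.θ (z.1, k) (z.2, k) ≤ C2 := hk _ _ s1 s2 s3
        nlinarith [h1 z.1 k, h1 z.2 k, sq_nonneg γ]
    _ = _ := by
        rw [lintegral_const_mul' _ _ (show eE _ ≠ ∞ from ENNReal.ofReal_ne_top), lintegral_prod_mul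
          (map_continuous f).measurable.ennreal_ofReal.aemeasurable
          (map_continuous g).measurable.ennreal_ofReal.aemeasurable]

/-- bump function of the horizontal coordinate -/
def st (n : ℕ) (j : ℤ) : C(Cyl, ℝ) := ⟨fun w => max 0 (2 - |((n : ℝ) + 1) * w.1 - j|), by fun_prop⟩

theorem st_int (n : ℕ) (j : ℤ) {f : Cyl → ℝ} (hf : ∀ w, 0 ≤ f w ∧ f w ≤ 1) :
    ∫⁻ w, ENNReal.ofReal (st n j w * f w) ∂cylVol ≤ ENNReal.ofReal (16 * Real.pi / (n + 1)) := by
  have hn : (0 : ℝ) < (n : ℝ) + 1 := by positivity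
  have hm : MeasurableSet (Icc (((j : ℝ) - 2) / (n + 1)) ((j + 2) / (n + 1)) ×ˢ
      (univ : Set (AddCircle (2 * Real.pi)))) := measurableSet_Icc.prod MeasurableSet.univ
  refine (lintegral_mono (g := (Icc (((j : ℝ) - 2) / (n + 1)) ((j + 2) / (n + 1)) ×ˢ univ).indicator
    fun _ => ENNReal.ofReal 2) fun w => ?_).trans ?_
  · by_cases hw : w ∈ Icc (((j : ℝ) - 2) / (n + 1)) ((j + 2) / (n + 1)) ×ˢ
        (univ : Set (AddCircle (2 * Real.pi)))
    · rw [indicator_of_mem hw]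
      refine ENNReal.ofReal_le_ofReal ((mul_le_of_le_one_right (le_max_left _ _) (hf w).2).trans ?_)
      exact max_le zero_le_two (sub_le_self _ (abs_nonneg _))
    · have : st n j w = 0 := by
        refine max_eq_left (sub_nonpos.2 (le_of_not_gt fun h => hw ⟨⟨?_, ?_⟩, mem_univ _⟩))
        · rw [div_le_iff₀ hn]; linarith [(abs_lt.1 h).1]
        · rw [le_div_iff₀ hn]; linarith [(abs_lt.1 h).2]
      simp [this]
  · rw [lintegral_indicator_const hm, cylVol, Measure.prod_prod, Real.volume_Icc,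
      Measure.map_apply (f := fun s : ℝ => (s : AddCircle (2 * Real.pi)))
        (AddCircle.continuous_mk' _).measurable MeasurableSet.univ, preimage_univ,
      Measure.restrict_apply_univ, Real.volume_Ioc, ← ENNReal.ofReal_mul (by
        rw [← sub_div]; exact div_nonneg (by linarith) hn.le), ← ENNReal.ofReal_mul zero_le_two]
    refine ENNReal.ofReal_le_ofReal (le_of_eq ?_)
    field_simp
    ring

theorem pair0 (hG1D : St_G1D) (hG3 : St_G3) (hFE : St_FE) (hE : St_EXP1) (hC : St_CYL) (hL : St_LAT)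
    (hM0 : St_M0) (hBM2 : St_BM2) (hBR0 : St_BR0) {γ : ℝ} (hγ : γ ∈ Ioo (0 : ℝ) 2) (D : QD γ)
    {δ : ℝ} (hδ : 0 < δ) (f g : C_c(Cyl, ℝ)) (hf : ∀ w, 0 ≤ f w ∧ f w ≤ 1)
    (hg : ∀ w, 0 ≤ g w ∧ g w ≤ 1) (hs : ∀ w w', f w ≠ 0 → g w' ≠ 0 → δ ≤ ‖frC w - frC w'‖) :
    ∀ᵐ ω ∂D.P, ∀ t : ℝ, (∫⁻ w in {t} ×ˢ univ, ENNReal.ofReal (f w) ∂D.nu ω) *
      ∫⁻ w in {t} ×ˢ univ, ENNReal.ofReal (g w) ∂D.nu ω = 0 := by
  obtain ⟨T1, hT1⟩ := (hC.2.2.2.2.2.2.2.2.2.2.2.2.1 f).2.2.2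
  obtain ⟨T2, hT2⟩ := (hC.2.2.2.2.2.2.2.2.2.2.2.2.1 g).2.2.2
  obtain ⟨T, hT⟩ := exists_nat_ge (max T1 T2)
  obtain ⟨C, hC'⟩ := mom2 hG1D hG3 hFE hE hC hL hM0 hBM2 hBR0 hγ D T hδ
  set I : ℕ → Finset ℤ := fun n => Finset.Icc (-((n + 1) * T : ℤ)) ((n + 1) * T) with hI
  set S : ℕ → D.Ω → ℝ≥0∞ := fun n ω => ∑ j ∈ I n,
    (∫⁻ w, ENNReal.ofReal ((st n j • f) w) ∂D.nu ω) *
      ∫⁻ w, ENNReal.ofReal ((st n j • g) w) ∂D.nu ω with hS
  have hb := fun n j => hC' (st n j • f) (st n j • g)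
    (fun w => mul_nonneg (le_max_left _ _) (hf w).1) (fun w => mul_nonneg (le_max_left _ _) (hg w).1)
    fun w w' a b => ⟨(hT1 w (right_ne_zero_of_mul a)).trans ((le_max_left _ _).trans hT),
      (hT2 w' (right_ne_zero_of_mul b)).trans ((le_max_right _ _).trans hT),
      hs w w' (right_ne_zero_of_mul a) (right_ne_zero_of_mul b)⟩
  have hm : ∀ n, AEMeasurable (S n) D.P := fun n =>
    Finset.aemeasurable_fun_sum _ fun j _ => (hb n j).1
  have h1 : ∀ n : ℕ, ∫⁻ ω, S n ω ∂D.P ≤ ENNReal.ofReal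
      ((2 * T + 1) * Real.exp C * (16 * Real.pi) ^ 2 * (1 / ((n : ℝ) + 1))) := fun n => by
    have hn : (0 : ℝ) < (n : ℝ) + 1 := by positivity
    rw [lintegral_finsetSum' _ fun j _ => (hb n j).1]
    refine (Finset.sum_le_card_nsmul _ _ _ fun j _ => (hb n j).2.trans
      (mul_le_mul_right (mul_le_mul' (st_int n j hf) (st_int n j hg)) _)).trans ?_
    have e : ((n + 1) * T : ℤ) + 1 - -((n + 1) * T : ℤ) = ((2 * ((n + 1) * T) + 1 : ℕ) : ℤ) := by
      push_cast; ring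
    rw [nsmul_eq_mul, hI, Int.card_Icc, e, Int.toNat_natCast, eE, ← ENNReal.ofReal_natCast,
      ← ENNReal.ofReal_mul (by positivity), ← ENNReal.ofReal_mul (by positivity),
      ← ENNReal.ofReal_mul (by positivity)]
    refine ENNReal.ofReal_le_ofReal ?_
    have h2 : ((2 * ((n + 1) * T) + 1 : ℕ) : ℝ) ≤ (2 * T + 1) * (n + 1) := by
      push_cast; nlinarith [n.cast_nonneg (α := ℝ)]
    refine (mul_le_mul_of_nonneg_right h2 (by positivity)).trans (le_of_eq ?_)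
    field_simp
  have h2 : ∫⁻ ω, ⨅ n, S n ω ∂D.P = 0 := by
    have h3 := ENNReal.tendsto_ofReal ((tendsto_one_div_add_atTop_nhds_zero_nat (𝕜 := ℝ)).const_mul
      ((2 * T + 1) * Real.exp C * (16 * Real.pi) ^ 2))
    rw [mul_zero, ENNReal.ofReal_zero] at h3
    exact le_antisymm (ge_of_tendsto' h3 fun n =>
      (lintegral_mono fun ω => iInf_le _ n).trans (h1 n)) zero_le
  filter_upwards [(lintegral_eq_zero_iff' (AEMeasurable.iInf hm)).1 h2] with ω hω t
  have hmt : MeasurableSet (({t} : Set ℝ) ×ˢ (univ : Set (AddCircle (2 * Real.pi)))) :=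
    (measurableSet_singleton t).prod MeasurableSet.univ
  by_cases ht : |t| ≤ T
  · refine le_antisymm (le_trans (le_iInf fun n => ?_) (le_of_eq hω)) zero_le
    have hn : (0 : ℝ) < (n : ℝ) + 1 := by positivity
    have a1 := Int.floor_le (((n : ℝ) + 1) * t)
    have a2 := Int.lt_floor_add_one (((n : ℝ) + 1) * t)
    have hj : ⌊((n : ℝ) + 1) * t⌋ ∈ I n := by
      refine Finset.mem_Icc.2 ⟨Int.le_floor.2 ?_, ?_⟩
      · push_cast; nlinarith [(abs_le.1 ht).1]
      · have : ((⌊((n : ℝ) + 1) * t⌋ : ℤ) : ℝ) ≤ (((n + 1) * T : ℤ) : ℝ) := by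
          push_cast; nlinarith [(abs_le.1 ht).2]
        exact_mod_cast this
    have key : ∀ f : C_c(Cyl, ℝ), (∀ w, 0 ≤ f w ∧ f w ≤ 1) →
        ∫⁻ w in {t} ×ˢ univ, ENNReal.ofReal (f w) ∂D.nu ω ≤
          ∫⁻ w, ENNReal.ofReal ((st n ⌊((n : ℝ) + 1) * t⌋ • f) w) ∂D.nu ω := fun f hf => by
      refine (setLIntegral_mono' hmt fun w hw => ENNReal.ofReal_le_ofReal ?_).trans
        (setLIntegral_le_lintegral _ _)
      refine le_mul_of_one_le_left (hf w).1 (le_max_of_le_right ?_)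
      have hw1 : w.1 = t := hw.1
      rw [hw1, abs_of_nonneg (by linarith)]
      linarith
    exact (mul_le_mul' (key f hf) (key g hg)).trans (Finset.single_le_sum
      (f := fun j => (∫⁻ w, ENNReal.ofReal ((st n j • f) w) ∂D.nu ω) *
        ∫⁻ w, ENNReal.ofReal ((st n j • g) w) ∂D.nu ω) (fun _ _ => zero_le) hj)
  · rw [setLIntegral_congr_fun hmt (g := fun _ => 0) fun w hw => ?_, lintegral_zero, zero_mul]
    have hw1 : w.1 = t := hw.1
    have : f w = 0 := by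
      by_contra h
      exact ht (hw1 ▸ (hT1 w h).trans ((le_max_left _ _).trans hT))
    simp [this]

/-- the lateral chaos measure charges no vertical circle -/
theorem no_circ (hG1D : St_G1D) (hG3 : St_G3) (hFE : St_FE) (hE : St_EXP1) (hC : St_CYL)
    (hL : St_LAT) (hM0 : St_M0) (hBM2 : St_BM2) (hBR0 : St_BR0) (hNU : St_NU) {γ : ℝ}
    (hγ : γ ∈ Ioo (0 : ℝ) 2) (D : QD γ) : ∀ᵐ ω ∂D.P, ∀ t : ℝ, D.nu ω ({t} ×ˢ univ) = 0 := by
  set u := TopologicalSpace.denseSeq ℂ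
  have hr : ∀ m : ℕ, (0 : ℝ) < 1 / ((m : ℝ) + 1) := fun m => by positivity
  choose f f1 f2 f3 using fun p : ℕ × ℕ × ℕ => NU.bump hC p.1 (u p.2.1) (hr p.2.2)
  have f4 : ∀ p w, f p w ≠ 0 → ‖frC w - u p.2.1‖ ≤ 1 / ((p.2.2 : ℝ) + 1) := fun p w hw =>
    (f2 p (frC w) (LAT.frC_ne hC w) (by rwa [hC.2.1])).1
  have h1 : ∀ K i i' m : ℕ, ∀ᵐ ω ∂D.P, 3 * (1 / ((m : ℝ) + 1)) ≤ ‖u i - u i'‖ → ∀ t : ℝ,
      (∫⁻ w in {t} ×ˢ univ, ENNReal.ofReal (f (K, i, m) w) ∂D.nu ω) *
        ∫⁻ w in {t} ×ˢ univ, ENNReal.ofReal (f (K, i', m) w) ∂D.nu ω = 0 := fun K i i' m => by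
    by_cases hd : 3 * (1 / ((m : ℝ) + 1)) ≤ ‖u i - u i'‖
    · refine (pair0 hG1D hG3 hFE hE hC hL hM0 hBM2 hBR0 hγ D (hr m) _ _ (f1 _) (f1 _)
        fun w w' a b => ?_).mono fun ω h _ => h
      have b1 := f4 _ w a
      have b2 := f4 _ w' b
      have b3 := norm_sub_le_norm_sub_add_norm_sub (u i) (frC w) (u i')
      have b4 := norm_sub_le_norm_sub_add_norm_sub (frC w) (frC w') (u i')
      rw [norm_sub_rev (u i) (frC w)] at b3
      simp only at b1 b2
      linarith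
    · exact ae_of_all _ fun ω h => absurd h hd
  filter_upwards [ae_all_iff.2 fun K => ae_all_iff.2 fun i => ae_all_iff.2 fun i' =>
    ae_all_iff.2 fun m => h1 K i i' m, (hNU γ hγ D).1] with ω hω hn t
  set A : Set Cyl := {t} ×ˢ univ with hA
  have hcl : IsClosed A := isClosed_singleton.prod isClosed_univ
  set lam := (D.nu ω).restrict A with hlam
  by_contra h0
  have hsub : lam.support ⊆ A :=
    Measure.support_subset_of_isClosed hcl (ae_restrict_mem hcl.measurableSet)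
  have hpos : ∀ s : Set Cyl, lam sᶜ = 0 → (s ∩ lam.support).Nonempty := fun s hs =>
    Measure.nonempty_inter_support_of_pos (pos_iff_ne_zero.2 fun h => h0 (by
      rw [← Measure.restrict_apply_univ, ← union_compl_self s]
      exact measure_union_null h hs))
  obtain ⟨w, -, hw⟩ := hpos univ (by simp)
  obtain ⟨w', hne, hw'⟩ := hpos {w}ᶜ (by
    rw [compl_compl]
    exact le_antisymm ((Measure.restrict_apply_le _ _).trans (hn.1 w).le) zero_le)
  have hd : 0 < ‖frC w - frC w'‖ := norm_pos_iff.2 (sub_ne_zero.2 fun h => hne (by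
    rw [mem_singleton_iff, ← hC.2.1 w', ← h, hC.2.1]))
  obtain ⟨m, hm⟩ := exists_nat_one_div_lt (show 0 < ‖frC w - frC w'‖ / 4 by positivity)
  have hl : 0 < l2 := Real.log_pos one_lt_two
  obtain ⟨K, hK⟩ := exists_nat_ge (|t| / l2)
  rw [div_le_iff₀ hl] at hK
  have key : ∀ v ∈ lam.support, ∃ i, ‖frC v - u i‖ < 1 / ((m : ℝ) + 1) / 2 ∧
      ∫⁻ x in A, ENNReal.ofReal (f (K, i, m) x) ∂D.nu ω ≠ 0 := fun v hv => by
    obtain ⟨i, hi⟩ := (TopologicalSpace.denseRange_denseSeq ℂ).exists_dist_lt (frC v)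
      (half_pos (hr m))
    rw [dist_eq_norm] at hi
    refine ⟨i, hi, fun h => ?_⟩
    have c1 : f (K, i, m) v = 1 := f3 (K, i, m) v (by rw [show v.1 = t from (hsub hv).1]; exact hK) hi.le
    have c2 := (lintegral_eq_zero_iff (map_continuous _).measurable.ennreal_ofReal).1 h
    refine ((Measure.mem_support_iff_forall v).1 hv {x | 0 < f (K, i, m) x}
      ((isOpen_lt continuous_const (map_continuous _)).mem_nhds (by simp [c1]))).ne' ?_
    refine measure_mono_null (fun x hx => ?_) (ae_iff.1 c2)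
    simpa using hx
  obtain ⟨i, hi, h2⟩ := key w hw
  obtain ⟨i', hi', h2'⟩ := key w' hw'
  refine mul_ne_zero h2 h2' (hω K i i' m ?_ t)
  have b3 := norm_sub_le_norm_sub_add_norm_sub (frC w) (u i) (frC w')
  have b4 := norm_sub_le_norm_sub_add_norm_sub (u i) (u i') (frC w')
  rw [norm_sub_rev (u i') (frC w')] at b4
  linarith

theorem exact_of (m : Measure Cyl) [IsFiniteMeasure m] (hc : ∀ t, m ({t} ×ˢ univ) = 0) :
    Exact m := by
  intro a ha hV
  set ν : Measure ℝ := m.map Prod.fst with hν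
  have hI : ∀ s : Set ℝ, MeasurableSet s → m (s ×ˢ univ) = ν s := fun s hs => by
    rw [hν, Measure.map_apply measurable_fst hs]; congr 1; ext p; simp
  have hfin : IsFiniteMeasure ν := by rw [hν]; infer_instance
  have hu : ν univ = m univ := by rw [hν, Measure.map_apply measurable_fst MeasurableSet.univ]; rfl
  have hna : NullSingletonClass ν := ⟨fun t => by rw [← hI _ (measurableSet_singleton t)]; exact hc t⟩
  set T : Set ℝ := {t | ENNReal.ofReal a ≤ m (Ioi t ×ˢ univ)} with hT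
  have hT' : ∀ t, t ∈ T ↔ ENNReal.ofReal a ≤ ν (Ioi t) := by
    intro t; simp [hT, hI _ measurableSet_Ioi]
  have hne : T.Nonempty := by
    have h1 := (tendsto_measure_Ici_atBot ν).eventually (lt_mem_nhds (hu ▸ hV))
    obtain ⟨t, ht⟩ := h1.exists
    exact ⟨t, by rw [hT', measure_congr (Ioi_ae_eq_Ici (μ := ν) (a := t))]; exact ht.le⟩
  have hbd : BddAbove T := by
    have h1 : Tendsto (fun n : ℕ => ν (Ici (n : ℝ))) atTop (𝓝 (ν (⋂ n : ℕ, Ici (n : ℝ)))) :=
      tendsto_measure_iInter_atTop (fun n => measurableSet_Ici.nullMeasurableSet)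
        (fun i j hij => Ici_subset_Ici.2 (by exact_mod_cast hij)) ⟨0, measure_ne_top _ _⟩
    have h2 : (⋂ n : ℕ, Ici (n : ℝ)) = ∅ := by
      ext x; simp only [mem_iInter, mem_Ici, mem_empty_iff_false, iff_false, not_forall, not_le]
      exact exists_nat_gt x
    rw [h2, measure_empty] at h1
    obtain ⟨n, hn⟩ := (h1.eventually (gt_mem_nhds (ENNReal.ofReal_pos.2 ha))).exists
    refine ⟨n, fun t ht => le_of_not_gt fun hlt => ?_⟩
    rw [hT'] at ht
    exact absurd (lt_of_le_of_lt (le_trans ht (measure_mono fun x hx => (hlt.trans hx).le)) hn) (lt_irrefl _)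
  have hs : shiftAt a m = sSup T := rfl
  have hm : Measurable fun p : Cyl => (p.1 - shiftAt a m, p.2) := by fun_prop
  rw [Measure.map_apply hm (measurableSet_Ioi.prod MeasurableSet.univ)]
  have hpre : (fun p : Cyl => (p.1 - shiftAt a m, p.2)) ⁻¹' (Ioi 0 ×ˢ univ) = Ioi (sSup T) ×ˢ univ := by
    ext p; simp [hs]
  rw [hpre, hI _ measurableSet_Ioi]
  apply le_antisymm
  · have h1 : Ioi (sSup T) = ⋃ n : ℕ, Ioi (sSup T + 1 / ((n : ℝ) + 1)) := by
      ext x; simp only [mem_Ioi, mem_iUnion]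
      constructor
      · intro hx
        obtain ⟨n, hn⟩ := exists_nat_one_div_lt (sub_pos.2 hx)
        exact ⟨n, by linarith⟩
      · rintro ⟨n, hn⟩
        have : (0:ℝ) < 1 / ((n : ℝ) + 1) := by positivity
        linarith
    rw [h1, Monotone.measure_iUnion]
    · refine iSup_le fun n => le_of_not_gt fun hlt => ?_
      have hmem : sSup T + 1 / ((n : ℝ) + 1) ∈ T := (hT' _).2 hlt.le
      have := le_csSup hbd hmem
      have h3 : (0:ℝ) < 1 / ((n : ℝ) + 1) := by positivity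
      linarith
    · intro i j hij
      exact Ioi_subset_Ioi (by gcongr)
  · rw [measure_congr (Ioi_ae_eq_Ici (μ := ν) (a := sSup T))]
    have h1 : Ici (sSup T) = ⋂ n : ℕ, Ioi (sSup T - 1 / ((n : ℝ) + 1)) := by
      ext x; simp only [mem_Ici, mem_iInter, mem_Ioi]
      constructor
      · intro hx n
        have : (0:ℝ) < 1 / ((n : ℝ) + 1) := by positivity
        linarith
      · intro hx
        by_contra hlt
        obtain ⟨n, hn⟩ := exists_nat_one_div_lt (sub_pos.2 (not_le.1 hlt))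
        have := hx n
        linarith
    rw [h1, Antitone.measure_iInter]
    · refine le_iInf fun n => ?_
      have h3 : (0:ℝ) < 1 / ((n : ℝ) + 1) := by positivity
      obtain ⟨t, ht, hlt⟩ := exists_lt_of_lt_csSup hne (by linarith : sSup T - 1 / ((n : ℝ) + 1) < sSup T)
      rw [hT'] at ht
      exact le_trans ht (measure_mono (Ioi_subset_Ioi hlt.le))
    · intro i j hij
      exact Ioi_subset_Ioi (by gcongr)
    · exact fun n => measurableSet_Ioi.nullMeasurableSet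
    · exact ⟨0, measure_ne_top _ _⟩

theorem vol_fin (h1 : St_MG1) (g : Met) {k : ℂ → ℝ} (hk : ∃ B, ∀ z, |k z| ≤ B) (Q C : ℝ) :
    IsFiniteMeasure ((volume : Measure ℂ).withDensity fun z =>
      ENNReal.ofReal (Real.exp (2 * (k z / Q + C) + 2 * g.σ z))) := by
  obtain ⟨B, hB⟩ := hk
  obtain ⟨-, -, -, -, -, ⟨E, hE⟩, -⟩ := h1 g
  have hi : Integrable fun x : ℂ => (1 + ‖x‖) ^ (-(4 : ℝ)) :=
    integrable_one_add_norm (by rw [Complex.finrank_real_complex]; norm_num)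
  refine isFiniteMeasure_withDensity (ne_top_of_le_ne_top
    (hi.const_mul (Real.exp (2 * (B / |Q| + C) + 2 * E))).lintegral_lt_top.ne
    (lintegral_mono fun z => ENNReal.ofReal_le_ofReal ?_))
  rw [Real.rpow_def_of_pos (by positivity), ← Real.exp_add]
  refine Real.exp_le_exp.2 ?_
  have h2 : k z / Q ≤ B / |Q| := (le_abs_self _).trans (by
    rw [abs_div]; exact div_le_div_of_nonneg_right (hB z) (abs_nonneg _))
  linarith [(abs_le.1 (hE z)).2]

theorem exact_map (hC : St_CYL) (ν : Measure ℂ) [IsFiniteMeasure ν] (hν : ν ≪ volume) (z : ℂ) :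
    Exact (ν.map fun w => toCyl (w - z)) := by
  have hm : Measurable fun w : ℂ => toCyl (w - z) :=
    hC.2.2.2.2.1.comp (measurable_id.sub measurable_const)
  refine exact_of _ fun t => ?_
  rw [Measure.map_apply hm ((measurableSet_singleton t).prod MeasurableSet.univ)]
  refine hν (measure_mono_null (t := sphere z (Real.exp (-t)) ∪ {z}) (fun w hw => ?_)
    (measure_union_null (Measure.addHaar_sphere _ _ _) (measure_singleton z)))
  by_cases h : w = z
  · exact Or.inr h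
  · have h2 : -Real.log ‖w - z‖ = t := hw.1
    refine Or.inl ?_
    rw [mem_sphere_iff_norm, ← h2, neg_neg, Real.exp_log (norm_pos_iff.2 (sub_ne_zero.2 h))]

end CIRC

end

end Pool.Agent.Lib.APPS
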