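import Pool.Agent.Lib.APPS.Blue3

/-!
Block CR2: continuity of the sampled rotational average at good measures.
-/

namespace Pool.Agent.Lib.APPS

open MeasureTheory ProbabilityTheory Filter Topology Set Metric
open scoped NNReal ENNReal CompactlySupported BoundedContinuousFunction RealInnerProductSpace
  Classical

noncomputable section

namespace CR2

/-- Lipschitz upper envelope of the tail of a sequence of functions -/
def env (h : ℕ → ℂ → ℝ) (N : ℕ) (x : ℂ) : ℝ :=
  ⨆ p : ℕ × ℂ, (h (N + p.1) p.2 - N * dist x p.2)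

theorem env_bdd {h : ℕ → ℂ → ℝ} {C : ℝ} (hb : ∀ n x, |h n x| ≤ C) (N : ℕ) (x : ℂ) :
    BddAbove (range fun p : ℕ × ℂ => h (N + p.1) p.2 - N * dist x p.2) := by
  refine ⟨C, ?_⟩
  rintro _ ⟨p, rfl⟩
  have h1 := (abs_le.1 (hb (N + p.1) p.2)).2
  have h2 : 0 ≤ (N : ℝ) * dist x p.2 := by positivity
  simp only
  linarith

theorem le_env {h : ℕ → ℂ → ℝ} {C : ℝ} (hb : ∀ n x, |h n x| ≤ C) {N n : ℕ} (hn : N ≤ n)
    (x : ℂ) : h n x ≤ env h N x := by
  have := le_ciSup (env_bdd hb N x) (n - N, x)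
  simpa [env, Nat.add_sub_cancel' hn] using this

theorem env_le {h : ℕ → ℂ → ℝ} {C : ℝ} (hb : ∀ n x, |h n x| ≤ C) (N : ℕ) (x : ℂ) :
    env h N x ≤ C := by
  refine ciSup_le fun p => ?_
  have h1 := (abs_le.1 (hb (N + p.1) p.2)).2
  have h2 : 0 ≤ (N : ℝ) * dist x p.2 := by positivity
  linarith

theorem env_abs {h : ℕ → ℂ → ℝ} {C : ℝ} (hb : ∀ n x, |h n x| ≤ C) (N : ℕ) (x : ℂ) :
    |env h N x| ≤ C :=
  abs_le.2 ⟨((abs_le.1 (hb N x)).1).trans (le_env hb le_rfl x), env_le hb N x⟩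

theorem env_sub {h : ℕ → ℂ → ℝ} {C : ℝ} (hb : ∀ n x, |h n x| ≤ C) (N : ℕ) (x y : ℂ) :
    env h N x ≤ env h N y + N * dist x y := by
  refine ciSup_le fun p => ?_
  have h1 := le_ciSup (env_bdd hb N y) p
  have h2 : dist y p.2 ≤ dist x y + dist x p.2 := by
    rw [dist_comm x y]; exact dist_triangle _ _ _
  have h3 : (N : ℝ) * dist y p.2 ≤ N * (dist x y + dist x p.2) :=
    mul_le_mul_of_nonneg_left h2 (Nat.cast_nonneg N)
  unfold env
  linarith

theorem env_cont {h : ℕ → ℂ → ℝ} {C : ℝ} (hb : ∀ n x, |h n x| ≤ C) (N : ℕ) :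
    Continuous (env h N) := by
  refine (LipschitzWith.of_le_add_mul (N : ℝ≥0) fun x y => ?_).continuous
  simpa using env_sub hb N x y

theorem env_tendsto {h : ℕ → ℂ → ℝ} {C : ℝ} (hb : ∀ n x, |h n x| ≤ C) {x : ℂ} {v : ℝ}
    (hc : Tendsto (fun p : ℕ × ℂ => h p.1 p.2) (atTop ×ˢ 𝓝 x) (𝓝 v)) :
    Tendsto (fun N => env h N x) atTop (𝓝 v) := by
  have h1 : Tendsto (fun N => h N x) atTop (𝓝 v) :=
    hc.comp (tendsto_id.prodMk (tendsto_const_nhds (x := x)))
  have hv : |v| ≤ C := le_of_tendsto' h1.abs fun N => hb N x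
  rw [tendsto_order]
  constructor
  · intro b hbv
    filter_upwards [(tendsto_order.1 h1).1 b hbv] with N hN
    exact hN.trans_le (le_env hb le_rfl x)
  · intro b hbv
    obtain ⟨b', hb1, hb2⟩ := exists_between hbv
    have h2 := (tendsto_order.1 hc).2 b' hb1
    rw [eventually_prod_iff] at h2
    obtain ⟨pa, hpa, pb, hpb, hab⟩ := h2
    obtain ⟨N0, hN0⟩ := eventually_atTop.1 hpa
    obtain ⟨δ, hδ, hδ'⟩ := Metric.eventually_nhds_iff.1 hpb
    have h3 : ∀ᶠ N : ℕ in atTop, 2 * C / δ ≤ N :=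
      tendsto_natCast_atTop_atTop.eventually_ge_atTop _
    filter_upwards [h3, eventually_ge_atTop N0] with N hN hN'
    refine lt_of_le_of_lt (ciSup_le fun p => ?_) hb2
    by_cases hp : dist p.2 x < δ
    · have h4 := hab (hN0 (N + p.1) (by omega)) (hδ' hp)
      have h2 : 0 ≤ (N : ℝ) * dist x p.2 := by positivity
      simp only at h4
      linarith
    · rw [not_lt, dist_comm] at hp
      have h4 := (abs_le.1 (hb (N + p.1) p.2)).2
      have h5 : 2 * C ≤ N * δ := by rwa [div_le_iff₀ hδ] at hN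
      have h6 : (N : ℝ) * δ ≤ N * dist x p.2 := mul_le_mul_of_nonneg_left hp (Nat.cast_nonneg N)
      have h7 := (abs_le.1 hv).1
      linarith

/-- weak convergence of finite measures on the plane -/
def WP (νs : ℕ → Measure ℂ) (ν : Measure ℂ) : Prop :=
  ∀ φ : ℂ →ᵇ ℝ, Tendsto (fun n => ∫ x, φ x ∂νs n) atTop (𝓝 (∫ x, φ x ∂ν))

theorem integrable_bdd {α : Type} [MeasurableSpace α] {ν : Measure α} [IsFiniteMeasure ν]
    {h : α → ℝ} {C : ℝ} (hm : Measurable h) (hb : ∀ x, |h x| ≤ C) : Integrable h ν :=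
  Integrable.of_bound hm.aestronglyMeasurable C (ae_of_all _ hb)

theorem ccm_up {νs : ℕ → Measure ℂ} {ν : Measure ℂ} (hf : ∀ n, IsFiniteMeasure (νs n))
    [IsFiniteMeasure ν] (hw : WP νs ν) {h : ℕ → ℂ → ℝ} {g : ℂ → ℝ} {C : ℝ}
    (hb : ∀ n x, |h n x| ≤ C) (hm : ∀ n, Measurable (h n))
    (hc : ∀ᵐ x ∂ν, Tendsto (fun p : ℕ × ℂ => h p.1 p.2) (atTop ×ˢ 𝓝 x) (𝓝 (g x)))
    {b : ℝ} (hlt : ∫ x, g x ∂ν < b) : ∀ᶠ n in atTop, ∫ x, h n x ∂νs n < b := by
  have h1 : Tendsto (fun N => ∫ x, env h N x ∂ν) atTop (𝓝 (∫ x, g x ∂ν)) := by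
    refine tendsto_integral_of_dominated_convergence (fun _ => C)
      (fun N => (env_cont hb N).aestronglyMeasurable) (integrable_const C)
      (fun N => ae_of_all _ fun x => env_abs hb N x) ?_
    filter_upwards [hc] with x hx using env_tendsto hb hx
  obtain ⟨N, hN⟩ := ((tendsto_order.1 h1).2 b hlt).exists
  let φ : ℂ →ᵇ ℝ := BoundedContinuousFunction.ofNormedAddCommGroup (env h N) (env_cont hb N) C
    (env_abs hb N)
  have h2 := (tendsto_order.1 (hw φ)).2 b hN
  filter_upwards [h2, eventually_ge_atTop N] with n hn hn'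
  refine lt_of_le_of_lt ?_ hn
  have := hf n
  exact integral_mono (integrable_bdd (hm n) (hb n))
    (integrable_bdd (env_cont hb N).measurable (env_abs hb N)) fun x => le_env hb hn' x

/-- continuous convergence almost everywhere and weak convergence give convergence of
integrals -/
theorem ccm {νs : ℕ → Measure ℂ} {ν : Measure ℂ} (hf : ∀ n, IsFiniteMeasure (νs n))
    [IsFiniteMeasure ν] (hw : WP νs ν) {h : ℕ → ℂ → ℝ} {g : ℂ → ℝ} {C : ℝ}
    (hb : ∀ n x, |h n x| ≤ C) (hm : ∀ n, Measurable (h n))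
    (hc : ∀ᵐ x ∂ν, Tendsto (fun p : ℕ × ℂ => h p.1 p.2) (atTop ×ˢ 𝓝 x) (𝓝 (g x))) :
    Tendsto (fun n => ∫ x, h n x ∂νs n) atTop (𝓝 (∫ x, g x ∂ν)) := by
  rw [tendsto_order]
  constructor
  · intro b hbv
    have := ccm_up hf hw (h := fun n x => -h n x) (g := fun x => -g x) (C := C)
      (fun n x => by simpa using hb n x) (fun n => (hm n).neg)
      (by filter_upwards [hc] with x hx using hx.neg) (b := -b)
      (by rw [integral_neg]; linarith)
    filter_upwards [this] with n hn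
    rw [integral_neg] at hn
    linarith
  · intro b hbv
    exact ccm_up hf hw hb hm hc hbv

theorem rot_abs (a : ℝ) {k : ℕ} (f : Fin k → C_c(Cyl, ℝ)) (G : (Fin k → ℝ) →ᵇ ℝ)
    (m : Measure Cyl) : |rotAvg a (PhiT f G) m| ≤ ‖G‖ := by
  have hpi : 0 < 2 * Real.pi := by positivity
  have h1 := intervalIntegral.norm_integral_le_of_norm_le_const (a := 0) (b := 2 * Real.pi)
    (C := ‖G‖) (f := fun s : ℝ => PhiT f G
      (m.map fun p => (p.1 - shiftAt a m, p.2 + (s : AddCircle (2 * Real.pi)))))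
    (fun s _ => G.norm_coe_le_norm _)
  rw [sub_zero, abs_of_pos hpi, Real.norm_eq_abs] at h1
  unfold rotAvg
  rw [abs_mul, abs_of_pos (inv_pos.2 hpi), inv_mul_le_iff₀ hpi]
  linarith

/-- the limit measure in the plane -/
def mtl (V : ℝ) (m : Measure Cyl) : Measure ℂ := (ENNReal.ofReal V • nrm m).map frC

section

variable (hC : St_CYL)
include hC

theorem frC_ne (w : Cyl) : frC w ≠ 0 := by
  rw [← norm_ne_zero_iff, hC.2.2.2.2.2.1]
  exact (Real.exp_pos _).ne'

theorem meas_cen (z : ℂ) : Measurable fun w : ℂ => toCyl (w - z) :=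
  hC.2.2.2.2.1.comp (measurable_id.sub_const z)

omit hC in
theorem nrm_univ {m : Measure Cyl} (hm : GoodM m) : nrm m univ = 1 := by
  unfold nrm
  rw [Measure.smul_apply, smul_eq_mul]
  exact ENNReal.inv_mul_cancel (hm.2.2 univ isOpen_univ univ_nonempty) hm.1

theorem mt_univ {m : Measure Cyl} (hm : GoodM m) (V : ℝ) : mtl V m univ = ENNReal.ofReal V := by
  unfold mtl
  rw [Measure.map_apply hC.2.2.1.measurable MeasurableSet.univ, preimage_univ,
    Measure.smul_apply, nrm_univ hm, smul_eq_mul, mul_one]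

theorem mt_fin {m : Measure Cyl} (hm : GoodM m) (V : ℝ) : IsFiniteMeasure (mtl V m) :=
  ⟨by rw [mt_univ hC hm]; exact ENNReal.ofReal_lt_top⟩

theorem mt_atom {m : Measure Cyl} (hm : GoodM m) (V : ℝ) (x : ℂ) : mtl V m {x} = 0 := by
  unfold mtl nrm
  rw [Measure.map_apply hC.2.2.1.measurable (measurableSet_singleton x), Measure.smul_apply,
    Measure.smul_apply]
  have : m (frC ⁻¹' {x}) = 0 := by
    refine measure_mono_null (fun w hw => ?_) (hm.2.1 (toCyl x))
    rw [mem_preimage, mem_singleton_iff] at hw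
    rw [mem_singleton_iff, ← hw, hC.2.1]
  simp [this]

theorem mt_int {m : Measure Cyl} (V : ℝ) (hV : 0 ≤ V) {φ : ℂ → ℝ} (hφ : Measurable φ) :
    ∫ x, φ x ∂mtl V m = V * ∫ w, φ (frC w) ∂nrm m := by
  unfold mtl
  rw [integral_map hC.2.2.1.measurable.aemeasurable hφ.aestronglyMeasurable, integral_smul_measure,
    ENNReal.toReal_ofReal hV, smul_eq_mul]

theorem good_cen {m : Measure Cyl} (hm : GoodM m) {V : ℝ} (hV : 0 < V) (z : ℂ) :
    GoodM ((mtl V m).map fun w => toCyl (w - z)) := by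
  refine ⟨?_, fun w => ?_, fun U hU hne => ?_⟩
  · rw [Measure.map_apply (meas_cen hC z) MeasurableSet.univ, preimage_univ, mt_univ hC hm]
    exact ENNReal.ofReal_ne_top
  · rw [Measure.map_apply (meas_cen hC z) (measurableSet_singleton w)]
    refine measure_mono_null (t := {z} ∪ {z + frC w}) (fun x hx => ?_)
      (measure_union_null (mt_atom hC hm V _) (mt_atom hC hm V _))
    rw [mem_preimage, mem_singleton_iff] at hx
    by_cases hxz : x - z = 0
    · left; exact sub_eq_zero.1 hxz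
    · right
      rw [mem_singleton_iff, ← hx, hC.1 _ hxz]
      ring
  · rw [Measure.map_apply (meas_cen hC z) hU.measurableSet]
    unfold mtl nrm
    rw [Measure.map_apply hC.2.2.1.measurable (meas_cen hC z hU.measurableSet),
      Measure.smul_apply, Measure.smul_apply, smul_eq_mul, smul_eq_mul]
    have hW : IsOpen ((fun w => frC w - z) ⁻¹' ({0}ᶜ ∩ toCyl ⁻¹' U)) :=
      (hC.2.2.2.1.isOpen_inter_preimage isOpen_compl_singleton hU).preimage
        (hC.2.2.1.sub continuous_const)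
    have hu : ∃ u ∈ U, u ≠ toCyl (-z) := by
      by_contra hcon
      push Not at hcon
      exact hm.2.2 U hU hne (measure_mono_null (fun u hu => hcon u hu) (hm.2.1 (toCyl (-z))))
    obtain ⟨u, huU, hu⟩ := hu
    have hx : z + frC u ≠ 0 := by
      intro h0
      apply hu
      rw [← hC.2.1 u]
      congr 1
      linear_combination h0
    have hne' : ((fun w => frC w - z) ⁻¹' ({0}ᶜ ∩ toCyl ⁻¹' U)).Nonempty := by
      refine ⟨toCyl (z + frC u), ?_⟩
      rw [mem_preimage, hC.1 _ hx, add_sub_cancel_left]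
      exact ⟨frC_ne hC u, by rw [mem_preimage, hC.2.1]; exact huU⟩
    have h1 : m (frC ⁻¹' ((fun w => toCyl (w - z)) ⁻¹' U)) ≠ 0 := fun h0 =>
      hm.2.2 _ hW hne' (measure_mono_null (fun w hw => hw.2) h0)
    refine mul_ne_zero ?_ (mul_ne_zero (ENNReal.inv_ne_zero.2 hm.1) h1)
    simpa using hV

/-- rescaled measure -/
def pu (ν : Measure ℂ) (c : ℂ) (ρ : ℝ) : Measure ℂ := ν.map fun x => ρ * (x - c)

/-- normalised rescaled measure seen on the cylinder -/
def cy (ν : Measure ℂ) (c : ℂ) (ρ : ℝ) : Measure Cyl :=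
  (((ν univ)⁻¹ • ν).restrict {c}ᶜ).map fun x => toCyl (ρ * (x - c))

omit hC in
theorem meas_aff (c : ℂ) (ρ : ℝ) : Measurable fun x : ℂ => (ρ : ℂ) * (x - c) :=
  (measurable_id.sub_const c).const_mul _

omit hC in
theorem pu_fin (ν : Measure ℂ) [IsFiniteMeasure ν] (c : ℂ) (ρ : ℝ) :
    IsFiniteMeasure (pu ν c ρ) := by
  unfold pu; infer_instance

omit hC in
theorem pu_int (ν : Measure ℂ) (c : ℂ) (ρ : ℝ) {φ : ℂ → ℝ} (hφ : Measurable φ) :
    ∫ x, φ x ∂pu ν c ρ = ∫ x, φ (ρ * (x - c)) ∂ν :=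
  integral_map (meas_aff c ρ).aemeasurable hφ.aestronglyMeasurable

theorem cy_int (ν : Measure ℂ) (c : ℂ) (ρ : ℝ) {F : Cyl → ℝ} (hF : Continuous F) :
    ∫ w, F w ∂cy ν c ρ = ∫ x in {c}ᶜ, F (toCyl (ρ * (x - c))) ∂((ν univ)⁻¹ • ν) :=
  integral_map (hC.2.2.2.2.1.comp (meas_aff c ρ)).aemeasurable hF.aestronglyMeasurable

theorem cy_univ (ν : Measure ℂ) (c : ℂ) (ρ : ℝ) : cy ν c ρ univ ≤ 1 := by
  unfold cy
  have hm : Measurable fun x : ℂ => toCyl (ρ * (x - c)) := hC.2.2.2.2.1.comp (meas_aff c ρ)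
  rw [Measure.map_apply hm MeasurableSet.univ, preimage_univ]
  refine (Measure.restrict_le_self _).trans ?_
  rw [Measure.smul_apply, smul_eq_mul]
  exact ENNReal.inv_mul_le_one _

theorem pu_split (ν : Measure ℂ) [IsFiniteMeasure ν] (h0 : ν univ ≠ 0) (c : ℂ) {ρ : ℝ}
    (hρ : 0 < ρ) (φ : ℂ →ᵇ ℝ) :
    ∫ x, φ x ∂pu ν c ρ = ν.real univ *
      (∫ w, φ (frC w) ∂cy ν c ρ + φ 0 * (1 - ∫ _w, (1 : ℝ) ∂cy ν c ρ)) := by
  have hP : IsProbabilityMeasure ((ν univ)⁻¹ • ν) := ⟨by
    rw [Measure.smul_apply, smul_eq_mul]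
    exact ENNReal.inv_mul_cancel h0 (measure_ne_top _ _)⟩
  have hφ : Measurable fun x : ℂ => φ (ρ * (x - c)) := φ.continuous.measurable.comp (meas_aff c ρ)
  have hint : Integrable (fun x : ℂ => φ (ρ * (x - c))) ((ν univ)⁻¹ • ν) :=
    integrable_bdd hφ (C := ‖φ‖) fun x => φ.norm_coe_le_norm _
  rw [pu_int ν c ρ φ.continuous.measurable,
    cy_int hC ν c ρ (F := fun w => φ (frC w)) (φ.continuous.comp hC.2.2.1),
    cy_int hC ν c ρ (F := fun _ => (1 : ℝ)) continuous_const]
  have h1 : ∫ x in {c}ᶜ, φ (frC (toCyl (ρ * (x - c)))) ∂((ν univ)⁻¹ • ν) =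
      ∫ x in {c}ᶜ, φ (ρ * (x - c)) ∂((ν univ)⁻¹ • ν) := by
    refine setIntegral_congr_fun (measurableSet_singleton c).compl fun x hx => ?_
    rw [hC.1]
    exact mul_ne_zero (by exact_mod_cast hρ.ne') (sub_ne_zero.2 hx)
  have h2 := integral_add_compl (measurableSet_singleton c) hint
  have h3 : ∫ x in {c}, φ (ρ * (x - c)) ∂((ν univ)⁻¹ • ν) =
      φ 0 * ((ν univ)⁻¹ • ν).real {c} := by
    rw [integral_singleton]
    simp [mul_comm]
  have h4 : ∫ _x in ({c}ᶜ : Set ℂ), (1 : ℝ) ∂((ν univ)⁻¹ • ν) =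
      1 - ((ν univ)⁻¹ • ν).real {c} := by
    rw [setIntegral_const, smul_eq_mul, mul_one, probReal_compl_eq_one_sub
      (measurableSet_singleton c)]
  have h5 : ∫ x, φ (ρ * (x - c)) ∂ν =
      ν.real univ * ∫ x, φ (ρ * (x - c)) ∂((ν univ)⁻¹ • ν) := by
    rw [integral_smul_measure, smul_eq_mul, ← mul_assoc, ENNReal.toReal_inv, Measure.real,
      mul_inv_cancel₀ (ENNReal.toReal_ne_zero.2 ⟨h0, measure_ne_top _ _⟩), one_mul]
  rw [h1, h4, h5, ← h2, h3]
  ring

theorem wp_pu {tf : ℕ → C_c(Cyl, ℝ)} (htf : IsTF tf) {m : Measure Cyl} (hm : GoodM m) {V : ℝ}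
    (hV : 0 < V) {νs : ℕ → Measure ℂ} {cs : ℕ → ℂ} {ρs : ℕ → ℝ}
    (hf : ∀ n, IsFiniteMeasure (νs n)) (hρ : ∀ n, 0 < ρs n)
    (hmass : Tendsto (fun n => (νs n).real univ) atTop (𝓝 V))
    (hobs : ∀ k, Tendsto (fun n => obsP tf ((νs n univ)⁻¹ • νs n) (cs n) (ρs n) k) atTop
      (𝓝 (obsn tf m k))) :
    WP (fun n => pu (νs n) (cs n) (ρs n)) (mtl V m) := by
  have hP : IsProbabilityMeasure (nrm m) := ⟨nrm_univ hm⟩
  have hdet := htf.det (nrm m) (fun n => cy (νs n) (cs n) (ρs n)) hP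
    (fun n => cy_univ hC _ _ _) (fun k => by
      have h1 : ∫ w, tf k w ∂nrm m = obsn tf m k := by
        unfold nrm obsn
        rw [integral_smul_measure, smul_eq_mul, ENNReal.toReal_inv, Measure.real,
          div_eq_inv_mul]
      rw [h1]
      refine (hobs k).congr fun n => ?_
      exact (cy_int hC _ _ _ (F := fun w => tf k w) (tf k).continuous).symm)
  intro φ
  have h1 := hdet (φ.compContinuous ⟨frC, hC.2.2.1⟩)
  have h2 := hdet 1
  have h3 := hmass.mul (h1.add ((h2.const_sub 1).const_mul (φ 0)))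
  rw [mt_int hC V hV.le φ.continuous.measurable]
  simp only [BoundedContinuousFunction.compContinuous_apply, ContinuousMap.coe_mk,
    BoundedContinuousFunction.coe_one, Pi.one_apply] at h3
  rw [integral_const (μ := nrm m), probReal_univ, smul_eq_mul, mul_one, sub_self, mul_zero,
    add_zero] at h3
  refine h3.congr' ?_
  filter_upwards [(tendsto_order.1 hmass).1 0 hV] with n hn
  have := hf n
  refine (pu_split hC (νs n) ?_ (cs n) (hρ n) φ).symm
  intro h0
  rw [Measure.real, h0] at hn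
  simp at hn

theorem rot_cen (hR : St_CR) {a : ℝ} (ha : 0 < a) {k : ℕ} (f : Fin k → C_c(Cyl, ℝ))
    (G : (Fin k → ℝ) →ᵇ ℝ) {m : Measure Cyl} (hm : GoodM m) {V : ℝ} (hV : a < V)
    {νs : ℕ → Measure ℂ} {cs : ℕ → ℂ} {ρs : ℕ → ℝ}
    (hf : ∀ n, IsFiniteMeasure (νs n)) (hρ : ∀ n, 0 < ρs n)
    (hmass : Tendsto (fun n => (νs n).real univ) atTop (𝓝 V))
    (hw : WP (fun n => pu (νs n) (cs n) (ρs n)) (mtl V m)) {zs : ℕ → ℂ} {z : ℂ}
    (hz : Tendsto zs atTop (𝓝 z)) :
    Tendsto (fun n => rotAvg a (PhiT f G)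
        ((νs n).map fun w => toCyl (w - (cs n + zs n / ρs n)))) atTop
      (𝓝 (rotAvg a (PhiT f G) ((mtl V m).map fun w => toCyl (w - z)))) := by
  obtain ⟨hR1, hR2, -⟩ := hR a ha k f G
  have hfin := mt_fin hC hm V
  have htr : ∀ r : ℝ, Measurable fun p : Cyl => ((p.1 - r, p.2) : Cyl) := fun r =>
    (measurable_fst.sub_const r).prodMk measurable_snd
  have hT := hC.2.2.2.2.1
  have key := hR2 (fun n => trans (Real.log (ρs n))
      ((νs n).map fun w => toCyl (w - (cs n + zs n / ρs n))))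
    ((mtl V m).map fun w => toCyl (w - z))
    (fun n => by have := hf n; unfold trans; infer_instance)
    (good_cen hC hm (ha.trans hV) z)
    (by
      rw [Measure.map_apply (meas_cen hC z) MeasurableSet.univ, preimage_univ, mt_univ hC hm]
      exact (ENNReal.ofReal_lt_ofReal_iff (ha.trans hV)).2 hV)
    (fun F => by
      have hFm := F.continuous.measurable
      have hd : ∀ n, Measurable fun y : ℂ => (y - zs n) / (ρs n : ℂ) := fun n =>
        (measurable_id.sub_const _).div_const _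
      have hmeas : ∀ n, Measurable fun y : ℂ => F ((toCyl ((y - zs n) / ρs n)).1 -
          Real.log (ρs n), (toCyl ((y - zs n) / ρs n)).2) := fun n =>
        hFm.comp ((htr _).comp (hT.comp (hd n)))
      have := ccm (fun n => by have := hf n; exact pu_fin (νs n) (cs n) (ρs n)) hw
        (h := fun n y => F ((toCyl ((y - zs n) / ρs n)).1 - Real.log (ρs n),
          (toCyl ((y - zs n) / ρs n)).2)) (g := fun y => F (toCyl (y - z))) (C := ‖F‖)
        (fun n y => F.norm_coe_le_norm _) hmeas (by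
          have h0 : ∀ᵐ y ∂mtl V m, y ≠ z := by
            rw [ae_iff]
            simpa using mt_atom hC hm V z
          filter_upwards [h0] with y hy
          have hy' : y - z ≠ 0 := sub_ne_zero.2 hy
          have h1 : Tendsto (fun p : ℕ × ℂ => p.2 - zs p.1) (atTop ×ˢ 𝓝 y) (𝓝 (y - z)) :=
            tendsto_snd.sub (hz.comp tendsto_fst)
          have h2 : ContinuousAt toCyl (y - z) :=
            hC.2.2.2.1.continuousAt (isOpen_compl_singleton.mem_nhds hy')
          refine ((F.continuous.tendsto _).comp (h2.tendsto.comp h1)).congr' ?_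
          filter_upwards [h1.eventually_ne hy'] with p hp
          have hρ' : (ρs p.1 : ℂ) ≠ 0 := by exact_mod_cast (hρ p.1).ne'
          rw [← hC.2.2.2.2.2.2.1 _ _ (hρ p.1) (div_ne_zero hp hρ'), mul_div_cancel₀ _ hρ']
          rfl)
      rw [integral_map (meas_cen hC z).aemeasurable hFm.aestronglyMeasurable]
      refine this.congr fun n => ?_
      have hρ' : (ρs n : ℂ) ≠ 0 := by exact_mod_cast (hρ n).ne'
      rw [pu_int _ _ _ (hmeas n)]
      unfold trans
      rw [integral_map (htr _).aemeasurable hFm.aestronglyMeasurable,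
        integral_map (f := fun p : Cyl => F (p.1 - Real.log (ρs n), p.2))
          (meas_cen hC _).aemeasurable (hFm.comp (htr _)).aestronglyMeasurable]
      refine integral_congr_ae (ae_of_all _ fun w => ?_)
      have : (ρs n * (w - cs n) - zs n) / (ρs n : ℂ) = w - (cs n + zs n / ρs n) := by
        field_simp
        ring
      simp only [this])
  refine key.congr' ?_
  filter_upwards [(tendsto_order.1 hmass).1 a hV] with n hn
  have := hf n
  refine hR1 _ _ inferInstance ?_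
  rw [Measure.map_apply (meas_cen hC _) MeasurableSet.univ, preimage_univ]
  exact (ENNReal.ofReal_lt_iff_lt_toReal ha.le (measure_ne_top _ _)).2 hn

end

end CR2

open CR2 in
theorem blk_CR2 (hC : St_CYL) (hP : St_PHI) (hM : St_MS) (hR : St_CR) : St_CR2 := by
  intro a ha k f G tf htf V hV m hm
  have hV0 : 0 < V := ha.trans hV
  have hfin := mt_fin hC hm V
  have hreal : (mtl V m).real univ = V := by
    rw [Measure.real, mt_univ hC hm, ENNReal.toReal_ofReal hV0.le]
  refine ⟨sampleAvg a (PhiT f G) (mtl V m), ⟨mtl V m, 0, 1, hfin, one_pos, ?_⟩, ?_⟩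
  · rw [hreal]
    congr 2
    funext j
    have hT : Measurable fun x : ℂ => tf j (toCyl x) :=
      (tf j).continuous.measurable.comp hC.2.2.2.2.1
    unfold obsP obsn
    have h0 : ((mtl V m univ)⁻¹ • mtl V m).restrict {0}ᶜ = (mtl V m univ)⁻¹ • mtl V m := by
      refine Measure.restrict_eq_self_of_ae_mem ?_
      rw [ae_iff]
      simp [mt_atom hC hm V 0]
    rw [h0]
    simp only [Complex.ofReal_one, one_mul, sub_zero]
    rw [integral_smul_measure, mt_int hC V hV0.le hT, mt_univ hC hm, ENNReal.toReal_inv,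
      ENNReal.toReal_ofReal hV0.le, smul_eq_mul, ← mul_assoc, inv_mul_cancel₀ hV0.ne', one_mul]
    simp only [hC.2.1]
    unfold nrm
    rw [integral_smul_measure, smul_eq_mul, ENNReal.toReal_inv, Measure.real, div_eq_inv_mul]
  · intro t ht hmass hd
    choose νs cs ρs hf hρ hteq using ht
    have e1 : ∀ n, (t n).1 = sampleAvg a (PhiT f G) (νs n) := fun n => by rw [hteq n]
    have e2 : ∀ n, (t n).2.1 = (νs n).real univ := fun n => by rw [hteq n]
    have e3 : ∀ n, (t n).2.2 = obsP tf ((νs n univ)⁻¹ • νs n) (cs n) (ρs n) := fun n => by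
      rw [hteq n]
    simp only [e1, e2, e3] at hmass hd ⊢
    have hobs := (hP.2.2.2.2.1 _ _).1 hd
    have hw := wp_pu hC htf hm hV0 hf hρ hmass hobs
    have hmeas : ∀ n, Measurable fun y : ℂ => rotAvg a (PhiT f G)
        ((νs n).map fun w => toCyl (w - (cs n + y / ρs n))) := fun n => by
      have h1 := ((hM a ha k f G).2.1 Unit (fun _ => νs n) measurable_const fun _ => hf n).1
      exact h1.comp (f := fun y : ℂ => ((), cs n + y / ρs n))
        (measurable_const.prodMk ((measurable_id.div_const _).const_add _))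
    have key := ccm (fun n => by have := hf n; exact pu_fin (νs n) (cs n) (ρs n)) hw
      (h := fun n y => rotAvg a (PhiT f G) ((νs n).map fun w => toCyl (w - (cs n + y / ρs n))))
      (g := fun z => rotAvg a (PhiT f G) ((mtl V m).map fun w => toCyl (w - z))) (C := ‖G‖)
      (fun n y => rot_abs a f G _) hmeas (ae_of_all _ fun z => by
        refine tendsto_iff_seq_tendsto.2 fun p hp => ?_
        have hp1 : Tendsto (fun j => (p j).1) atTop atTop := tendsto_fst.comp hp
        have hp2 : Tendsto (fun j => (p j).2) atTop (𝓝 z) := tendsto_snd.comp hp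
        exact rot_cen hC hR ha f G hm hV (νs := fun j => νs (p j).1) (cs := fun j => cs (p j).1)
          (ρs := fun j => ρs (p j).1) (fun j => hf _) (fun j => hρ _) (hmass.comp hp1)
          (fun φ => (hw φ).comp hp1) hp2)
    have h2 := (hmass.inv₀ hV0.ne').mul key
    unfold sampleAvg
    have h3 : (mtl V m univ).toReal = V := hreal
    rw [h3]
    refine h2.congr fun n => ?_
    rw [pu_int _ _ _ (hmeas n)]
    congr 1
    refine integral_congr_ae (ae_of_all _ fun z => ?_)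
    have hρ' : (ρs n : ℂ) ≠ 0 := by exact_mod_cast (hρ n).ne'
    have : cs n + ρs n * (z - cs n) / (ρs n : ℂ) = z := by
      field_simp
      ring
    simp only [this]

end

end Pool.Agent.Lib.APPS
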