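import Pool.Agent.Lib.APPS.Blue6

/-!
Continuous modification of the canonical Gaussian process with Brownian covariance.
-/

namespace Pool.Agent.Lib.APPS

open MeasureTheory ProbabilityTheory Filter Topology Set Metric
open scoped NNReal ENNReal RealInnerProductSpace Classical

noncomputable section

namespace EX1

/-- dyadic point -/
def pt (n j : ℕ) : ℝ≥0 := (j : ℝ≥0) / 2 ^ n

/-- dyadic index -/
def ix (n : ℕ) (t : ℝ≥0) : ℕ := ⌊(2 : ℝ) ^ n * (t : ℝ)⌋₊

/-- control of the dyadic increments from level `m` on -/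
def Ctl (x : ℝ≥0 → ℝ) (m : ℕ) : Prop :=
  ∀ n ≥ m, ∀ j < (n + 1) * 2 ^ n, |x (pt n (j + 1)) - x (pt n j)| ≤ (9 / 10 : ℝ) ^ n

lemma pt_coe (n j : ℕ) : ((pt n j : ℝ≥0) : ℝ) = (j : ℝ) / 2 ^ n := by
  simp [pt]

lemma pt_two (n j : ℕ) : pt (n + 1) (2 * j) = pt n j := by
  apply NNReal.eq
  rw [pt_coe, pt_coe, pow_succ]
  push_cast
  field_simp

lemma ix_le (n : ℕ) (t : ℝ≥0) : (ix n t : ℝ) ≤ 2 ^ n * (t : ℝ) :=
  Nat.floor_le (by positivity)

lemma lt_ix (n : ℕ) (t : ℝ≥0) : 2 ^ n * (t : ℝ) < (ix n t : ℝ) + 1 :=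
  Nat.lt_floor_add_one _

lemma ix_lt (n : ℕ) (t : ℝ≥0) (ht : (t : ℝ) < n + 1) : ix n t < (n + 1) * 2 ^ n := by
  have h1 := ix_le n t
  have h2 : (0 : ℝ) < 2 ^ n := by positivity
  have : (ix n t : ℝ) < ((n + 1) * 2 ^ n : ℕ) := by
    push_cast
    nlinarith
  exact_mod_cast this

lemma adj {x : ℝ≥0 → ℝ} {m : ℕ} (h : Ctl x m) {n : ℕ} (hn : m ≤ n) {i j : ℕ} (h1 : i ≤ j)
    (h2 : j ≤ i + 1) (h3 : i < (n + 1) * 2 ^ n) :
    |x (pt n j) - x (pt n i)| ≤ (9 / 10 : ℝ) ^ n := by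
  rcases Nat.eq_or_lt_of_le h1 with h4 | h4
  · subst h4
    simp only [sub_self, abs_zero]
    positivity
  · have : j = i + 1 := by omega
    subst this
    exact h n hn i h3

lemma step {x : ℝ≥0 → ℝ} {m : ℕ} (h : Ctl x m) {n : ℕ} (hn : m ≤ n) (t : ℝ≥0)
    (ht : (t : ℝ) < n + 1) :
    |x (pt (n + 1) (ix (n + 1) t)) - x (pt n (ix n t))| ≤ (9 / 10 : ℝ) ^ n := by
  have a1 := ix_le n t
  have a2 := lt_ix n t
  have a3 := ix_le (n + 1) t
  have a4 := lt_ix (n + 1) t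
  rw [pow_succ] at a3 a4
  have b1 : 2 * ix n t ≤ ix (n + 1) t := by
    have : ((2 * ix n t : ℕ) : ℝ) < ((ix (n + 1) t + 1 : ℕ) : ℝ) := by
      push_cast
      nlinarith
    have := Nat.cast_lt.1 this
    omega
  have b2 : ix (n + 1) t ≤ 2 * ix n t + 1 := by
    have : ((ix (n + 1) t : ℕ) : ℝ) < ((2 * ix n t + 2 : ℕ) : ℝ) := by
      push_cast
      nlinarith
    have := Nat.cast_lt.1 this
    omega
  have b3 : 2 * ix n t < (n + 1 + 1) * 2 ^ (n + 1) := by
    have := ix_lt n t ht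
    rw [pow_succ]
    nlinarith [Nat.zero_le (2 ^ n)]
  have := adj h (n := n + 1) (by omega) b1 b2 b3
  rw [pt_two] at this
  refine this.trans ?_
  rw [pow_succ]
  have : (0 : ℝ) < (9 / 10) ^ n := by positivity
  nlinarith

/-- the limit along dyadic approximations -/
def lm (x : ℝ≥0 → ℝ) (t : ℝ≥0) : ℝ := limUnder atTop fun n => x (pt n (ix n t))

lemma lm_spec {x : ℝ≥0 → ℝ} {m : ℕ} (h : Ctl x m) {n : ℕ} (hn : m ≤ n) (t : ℝ≥0)
    (ht : (t : ℝ) < n + 1) :
    Tendsto (fun k => x (pt k (ix k t))) atTop (𝓝 (lm x t)) ∧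
      |x (pt n (ix n t)) - lm x t| ≤ 10 * (9 / 10 : ℝ) ^ n := by
  set u : ℕ → ℝ := fun k => x (pt (k + n) (ix (k + n) t)) with hu
  have hd : ∀ k, dist (u k) (u (k + 1)) ≤ (9 / 10 : ℝ) ^ n * (9 / 10) ^ k := by
    intro k
    have := step h (n := k + n) (by omega) t (by push_cast; linarith [Nat.cast_nonneg (α := ℝ) k])
    rw [dist_comm, Real.dist_eq, ← pow_add, add_comm n k]
    simp only [hu]
    rw [show k + 1 + n = k + n + 1 by omega]
    exact this
  have hc : CauchySeq u := cauchySeq_of_le_geometric _ _ (by norm_num) hd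
  obtain ⟨l, hl⟩ := cauchySeq_tendsto_of_complete hc
  have h1 : Tendsto (fun k => x (pt k (ix k t))) atTop (𝓝 l) :=
    (tendsto_add_atTop_iff_nat n).1 hl
  have h2 : lm x t = l := h1.limUnder_eq
  rw [h2]
  refine ⟨h1, ?_⟩
  have := dist_le_of_le_geometric_of_tendsto₀ _ _ (by norm_num) hd hl
  rw [Real.dist_eq] at this
  simp only [hu, zero_add] at this
  refine this.trans (le_of_eq ?_)
  ring

lemma lm_tendsto {x : ℝ≥0 → ℝ} {m : ℕ} (h : Ctl x m) (t : ℝ≥0) :
    Tendsto (fun k => x (pt k (ix k t))) atTop (𝓝 (lm x t)) := by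
  obtain ⟨N, hN⟩ := exists_nat_gt (t : ℝ)
  refine (lm_spec h (n := m + N) (by omega) t ?_).1
  push_cast
  linarith [Nat.cast_nonneg (α := ℝ) m]

lemma lm_close {x : ℝ≥0 → ℝ} {m : ℕ} (h : Ctl x m) {n : ℕ} (hn : m ≤ n) (s t : ℝ≥0)
    (hst : s ≤ t) (ht : (t : ℝ) < n + 1) (hd : (t : ℝ) - s < (1 / 2) ^ n) :
    |lm x t - lm x s| ≤ 21 * (9 / 10 : ℝ) ^ n := by
  have hs : (s : ℝ) < n + 1 := lt_of_le_of_lt (by exact_mod_cast hst) ht
  have e1 := (lm_spec h hn t ht).2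
  have e2 := (lm_spec h hn s hs).2
  have b1 : ix n s ≤ ix n t := by
    apply Nat.floor_le_floor
    have : (s : ℝ) ≤ t := by exact_mod_cast hst
    gcongr
  have b2 : ix n t ≤ ix n s + 1 := by
    have a1 := ix_le n t
    have a2 := lt_ix n s
    have a3 : (2 : ℝ) ^ n * ((t : ℝ) - s) < 1 := by
      have h2 : (0 : ℝ) < 2 ^ n := by positivity
      calc (2 : ℝ) ^ n * ((t : ℝ) - s) < 2 ^ n * (1 / 2) ^ n := by gcongr
        _ = 1 := by rw [← mul_pow]; norm_num
    have : ((ix n t : ℕ) : ℝ) < ((ix n s + 2 : ℕ) : ℝ) := by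
      push_cast
      nlinarith
    have := Nat.cast_lt.1 this
    omega
  have e3 := adj h hn b1 b2 (ix_lt n s hs)
  rw [abs_le] at e1 e2 e3 ⊢
  constructor <;> linarith [e1.1, e1.2, e2.1, e2.2, e3.1, e3.2]

lemma lm_cont {x : ℝ≥0 → ℝ} {m : ℕ} (h : Ctl x m) : Continuous (lm x) := by
  rw [Metric.continuous_iff]
  intro t ε hε
  obtain ⟨N, hN⟩ := exists_nat_gt (t : ℝ)
  have hl : Tendsto (fun n : ℕ => 21 * (9 / 10 : ℝ) ^ n) atTop (𝓝 (21 * 0)) :=
    (tendsto_pow_atTop_nhds_zero_of_lt_one (by norm_num) (by norm_num)).const_mul _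
  rw [mul_zero] at hl
  obtain ⟨n, hn1, hn2⟩ := ((hl.eventually (gt_mem_nhds hε)).and
    (eventually_ge_atTop (m + N))).exists
  have hNn : (N : ℝ) ≤ n := by exact_mod_cast (by omega : N ≤ n)
  refine ⟨(1 / 2) ^ n, by positivity, fun s hs => ?_⟩
  have hp : (1 / 2 : ℝ) ^ n ≤ 1 := pow_le_one₀ (by norm_num) (by norm_num)
  rw [NNReal.dist_eq, abs_lt] at hs
  rw [Real.dist_eq]
  rcases le_total s t with hst | hst
  · rw [abs_sub_comm]
    exact (lm_close h (by omega) s t hst (by linarith) (by linarith [hs.1])).trans_lt hn1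
  · exact (lm_close h (by omega) t s hst (by linarith [hs.2]) hs.2).trans_lt hn1

lemma tail (hD : St_G1D) (w : HH) (n : ℕ) (hw : ‖w‖ ^ 2 ≤ (1 / 2 : ℝ) ^ n) :
    gm {ω : Om | (9 / 10 : ℝ) ^ n < |ω w|} ≤
      ENNReal.ofReal (2 * Real.exp 1 * 5040 * (1 / 5) ^ n) := by
  set lam : ℝ := (7 / 5) ^ n with hlam
  have hl0 : 0 < lam := by positivity
  have h7 := hD.2.2.2.2.2.2 w lam
  have hm : Measurable fun ω : Om => eE (lam * |ω w|) :=
    (Real.measurable_exp.comp ((meas_ev w).abs.const_mul _)).ennreal_ofReal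
  have hsub : {ω : Om | (9 / 10 : ℝ) ^ n < |ω w|} ⊆
      {ω : Om | eE (lam * (9 / 10) ^ n) ≤ eE (lam * |ω w|)} := by
    intro ω hω
    simp only [mem_ofPred_eq, eE] at hω ⊢
    apply ENNReal.ofReal_le_ofReal
    apply Real.exp_le_exp.2
    exact mul_le_mul_of_nonneg_left hω.le hl0.le
  have hpos : 0 < Real.exp (lam * (9 / 10) ^ n) := Real.exp_pos _
  have h1 := meas_ge_le_lintegral_div (μ := gm) hm.aemeasurable (ε := eE (lam * (9 / 10) ^ n))
    (by simp [eE, hpos]) (by simp [eE])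
  refine (measure_mono hsub).trans (h1.trans ?_)
  have h2 : lam ^ 2 * ‖w‖ ^ 2 / 2 ≤ 1 := by
    have : lam ^ 2 * (1 / 2) ^ n ≤ 1 := by
      rw [hlam, ← pow_mul, mul_comm n 2, pow_mul, ← mul_pow]
      exact pow_le_one₀ (by norm_num) (by norm_num)
    have h3 : lam ^ 2 * ‖w‖ ^ 2 ≤ lam ^ 2 * (1 / 2) ^ n := by gcongr
    linarith
  have h4 : ∫⁻ ω, eE (lam * |ω w|) ∂gm ≤ ENNReal.ofReal (2 * Real.exp 1) := by
    refine h7.trans ?_
    rw [ENNReal.ofReal_mul (by norm_num), eE]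
    simp only [ENNReal.ofReal_ofNat]
    gcongr
  have h5 : (5 : ℝ) ^ n / 5040 ≤ Real.exp (lam * (9 / 10) ^ n) := by
    have := Real.pow_div_factorial_le_exp (lam * (9 / 10) ^ n) (by positivity) 7
    refine le_trans ?_ this
    have h6 : (5 : ℝ) ^ n ≤ (lam * (9 / 10) ^ n) ^ 7 := by
      rw [hlam, ← mul_pow, ← pow_mul, mul_comm n 7, pow_mul]
      exact pow_le_pow_left₀ (by norm_num) (by norm_num) n
    have : ((Nat.factorial 7 : ℕ) : ℝ) = 5040 := by norm_num [Nat.factorial]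
    rw [this]
    gcongr
  calc (∫⁻ ω, eE (lam * |ω w|) ∂gm) / eE (lam * (9 / 10) ^ n)
      ≤ ENNReal.ofReal (2 * Real.exp 1) / ENNReal.ofReal ((5 : ℝ) ^ n / 5040) := by
        apply ENNReal.div_le_div h4
        exact ENNReal.ofReal_le_ofReal h5
    _ = ENNReal.ofReal (2 * Real.exp 1 / ((5 : ℝ) ^ n / 5040)) := by
        exact (ENNReal.ofReal_div_of_pos (by positivity)).symm
    _ = _ := by
        congr 1
        rw [one_div, inv_pow]
        field_simp

lemma nrm {v : ℝ≥0 → HH} (hv : Gram v fun s t => min (s : ℝ) t) (s t : ℝ≥0) (hst : s ≤ t) :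
    ‖v t - v s‖ ^ 2 = (t : ℝ) - s := by
  have h : (s : ℝ) ≤ t := by exact_mod_cast hst
  rw [← real_inner_self_eq_norm_sq, inner_sub_left, inner_sub_right, inner_sub_right,
    hv t t, hv t s, hv s t, hv s s]
  simp only [min_self, min_eq_left h, min_eq_right h]
  ring

lemma sum_ne {a : ℕ → ℝ≥0∞} (C q : ℝ) (hq0 : 0 ≤ q) (hq : q < 1)
    (h : ∀ n, a n ≤ ENNReal.ofReal (C * q ^ n)) : ∑' n, a n ≠ ∞ := by
  have hs : Summable fun n : ℕ => C * q ^ n :=
    (summable_geometric_of_lt_one hq0 hq).mul_left C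
  exact ne_top_of_le_ne_top hs.tsum_ofReal_ne_top (ENNReal.tsum_le_tsum h)

lemma good_ae (hD : St_G1D) {v : ℝ≥0 → HH} (hv : Gram v fun s t => min (s : ℝ) t) :
    ∀ᵐ ω ∂gm, ∃ m, Ctl (fun s => (ω : Om) (v s)) m := by
  set Bad : ℕ → Set Om := fun n => ⋃ j ∈ Finset.range ((n + 1) * 2 ^ n),
    {ω : Om | (9 / 10 : ℝ) ^ n < |ω (v (pt n (j + 1)) - v (pt n j))|} with hBad
  have hb : ∀ n, gm (Bad n) ≤ ENNReal.ofReal (2 * Real.exp 1 * 5040 * (4 / 5) ^ n) := by
    intro n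
    refine (measure_biUnion_finset_le _ _).trans ?_
    have h1 : ∀ j ∈ Finset.range ((n + 1) * 2 ^ n),
        gm {ω : Om | (9 / 10 : ℝ) ^ n < |ω (v (pt n (j + 1)) - v (pt n j))|} ≤
          ENNReal.ofReal (2 * Real.exp 1 * 5040 * (1 / 5) ^ n) := by
      intro j _
      apply tail hD
      have hle : pt n j ≤ pt n (j + 1) := by
        rw [← NNReal.coe_le_coe, pt_coe, pt_coe]
        push_cast
        gcongr
        linarith
      rw [nrm hv _ _ hle, pt_coe, pt_coe, one_div, inv_pow]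
      push_cast
      apply le_of_eq
      field_simp
      ring
    refine (Finset.sum_le_card_nsmul _ _ _ h1).trans ?_
    rw [Finset.card_range, nsmul_eq_mul, ← ENNReal.ofReal_natCast,
      ← ENNReal.ofReal_mul (Nat.cast_nonneg _)]
    apply ENNReal.ofReal_le_ofReal
    have h2 : (((n + 1) * 2 ^ n : ℕ) : ℝ) ≤ 4 ^ n := by
      have : (n + 1) * 2 ^ n ≤ 4 ^ n := by
        have h3 : n + 1 ≤ 2 ^ n := Nat.lt_two_pow_self
        calc (n + 1) * 2 ^ n ≤ 2 ^ n * 2 ^ n := Nat.mul_le_mul_right _ h3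
          _ = 4 ^ n := by rw [← mul_pow]; norm_num
      exact_mod_cast this
    calc (((n + 1) * 2 ^ n : ℕ) : ℝ) * (2 * Real.exp 1 * 5040 * (1 / 5) ^ n)
        ≤ 4 ^ n * (2 * Real.exp 1 * 5040 * (1 / 5) ^ n) := by gcongr
      _ = 2 * Real.exp 1 * 5040 * (4 ^ n * (1 / 5) ^ n) := by ring
      _ = _ := by rw [← mul_pow]; norm_num
  have := ae_eventually_notMem (μ := gm) (sum_ne _ _ (by norm_num) (by norm_num) hb)
  filter_upwards [this] with ω hω
  obtain ⟨m, hm⟩ := eventually_atTop.1 hω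
  refine ⟨m, fun n hn j hj => ?_⟩
  have h1 := hm n hn
  simp only [hBad, mem_iUnion, mem_ofPred_eq, not_exists, not_lt, Finset.mem_range] at h1
  have h2 := h1 j hj
  rwa [map_sub] at h2

lemma good_meas (v : ℝ≥0 → HH) :
    MeasurableSet {ω : Om | ∃ m, Ctl (fun s => ω (v s)) m} := by
  simp only [Ctl, ofPred_exists, ofPred_forall]
  refine MeasurableSet.iUnion fun m => MeasurableSet.iInter fun n =>
    MeasurableSet.iInter fun _ => MeasurableSet.iInter fun j => MeasurableSet.iInter fun _ => ?_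
  exact measurableSet_le ((meas_ev _).sub (meas_ev _)).abs measurable_const

lemma conv_ae (hD : St_G1D) {v : ℝ≥0 → HH} (hv : Gram v fun s t => min (s : ℝ) t) (t : ℝ≥0) :
    ∀ᵐ ω ∂gm, Tendsto (fun n => (ω : Om) (v (pt n (ix n t)))) atTop (𝓝 (ω (v t))) := by
  have hb : ∀ n, gm {ω : Om | (9 / 10 : ℝ) ^ n < |ω (v t - v (pt n (ix n t)))|} ≤
      ENNReal.ofReal (2 * Real.exp 1 * 5040 * (1 / 5) ^ n) := by
    intro n
    apply tail hD
    have h2 : (0 : ℝ) < 2 ^ n := by positivity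
    have a1 := ix_le n t
    have a2 := lt_ix n t
    have hle : pt n (ix n t) ≤ t := by
      rw [← NNReal.coe_le_coe, pt_coe, div_le_iff₀ h2]
      linarith
    rw [nrm hv _ _ hle, pt_coe, one_div, inv_pow, sub_le_iff_le_add, inv_eq_one_div,
      ← add_div, le_div_iff₀ h2]
    linarith
  have := ae_eventually_notMem (μ := gm) (sum_ne _ _ (by norm_num) (by norm_num) hb)
  filter_upwards [this] with ω hω
  rw [tendsto_iff_dist_tendsto_zero]
  refine squeeze_zero' (Eventually.of_forall fun _ => dist_nonneg) ?_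
    (tendsto_pow_atTop_nhds_zero_of_lt_one (r := (9 / 10 : ℝ)) (by norm_num) (by norm_num))
  filter_upwards [hω] with n hn
  simp only [not_lt, map_sub] at hn
  rwa [dist_comm, Real.dist_eq]

end EX1

open EX1 in
theorem blk_EX1 (_hG1 : St_G1) (hD : St_G1D) (h3 : St_G3) : St_EX1 := by
  intro v hv
  set Good : Set Om := {ω : Om | ∃ m, Ctl (fun s => ω (v s)) m} with hGood
  set y : Om → ℝ≥0 → ℝ := fun ω s => Good.indicator (fun ω : Om => ω (v s)) ω with hy
  have hyc : ∀ ω, ∃ m, Ctl (y ω) m := by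
    intro ω
    by_cases hω : ω ∈ Good
    · obtain ⟨m, hm⟩ := id hω
      refine ⟨m, ?_⟩
      have : y ω = fun s => ω (v s) := by
        funext s
        simp only [hy, indicator_of_mem hω]
      rwa [this]
    · refine ⟨0, fun n _ j _ => ?_⟩
      simp only [hy, indicator_of_notMem hω, sub_self, abs_zero]
      positivity
  have hae : ∀ t, ∀ᵐ ω ∂gm, lm (y ω) t = ω (v t) := by
    intro t
    filter_upwards [good_ae hD hv, conv_ae hD hv t] with ω h1 h2
    have hω : ω ∈ Good := h1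
    obtain ⟨m, hm⟩ := hyc ω
    have h4 := lm_tendsto hm t
    refine tendsto_nhds_unique h4 ?_
    simpa only [hy, indicator_of_mem hω] using h2
  have hcont : ∀ ω, Continuous (lm (y ω)) := fun ω => by
    obtain ⟨m, hm⟩ := hyc ω
    exact lm_cont hm
  refine ⟨fun ω => lm (y ω), ⟨⟨?_, Eventually.of_forall hcont⟩, ?_, hcont⟩, hae⟩
  · have hcg := h3.2.1 ℝ≥0 v _ hv
    have hp : IsPreBrownianReal (fun t (ω : Om) => ω (v t)) gm := by
      refine hcg.gauss.isPreBrownianReal_of_covariance hcg.mean fun s t hst => ?_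
      rw [hcg.cov s t]
      exact min_eq_left (by exact_mod_cast hst)
    exact hp.congr fun t => (hae t).mono fun ω h => h.symm
  · refine measurable_pi_lambda _ fun t => ?_
    refine measurable_of_tendsto_metrizable (f := fun n ω => y ω (pt n (ix n t)))
      (fun n => (meas_ev _).indicator (good_meas v)) ?_
    rw [tendsto_pi_nhds]
    intro ω
    obtain ⟨m, hm⟩ := hyc ω
    exact lm_tendsto hm t

end

end Pool.Agent.Lib.APPS
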