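import Pool.Agent.Lib.APPS.Blue6

namespace Pool.Agent.Lib.APPS

open MeasureTheory ProbabilityTheory Filter Topology Set Metric
open scoped NNReal ENNReal Classical

theorem ex2_mom (hD : St_G1D) (u : HH) (r : ℝ) (hr : 0 < r) (hu : ‖u‖ ≤ r) :
    ∫⁻ ω : Om, ENNReal.ofReal |ω u| ∂gm ≤ ENNReal.ofReal r * (2 * eE (1 / 2)) := by
  have h := hD.2.2.2.2.2.2 u r⁻¹
  have h1 : eE (r⁻¹ ^ 2 * ‖u‖ ^ 2 / 2) ≤ eE (1 / 2) := by
    unfold eE
    apply ENNReal.ofReal_le_ofReal
    apply Real.exp_le_exp.2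
    have : r⁻¹ * ‖u‖ ≤ 1 := by
      rw [inv_mul_le_iff₀ hr]; simpa using hu
    have h0 : 0 ≤ r⁻¹ * ‖u‖ := by positivity
    have : (r⁻¹ * ‖u‖) ^ 2 ≤ 1 := by nlinarith
    rw [mul_pow] at this
    linarith
  calc ∫⁻ ω : Om, ENNReal.ofReal |ω u| ∂gm
      ≤ ∫⁻ ω : Om, ENNReal.ofReal r * eE (r⁻¹ * |ω u|) ∂gm := by
        apply lintegral_mono
        intro ω
        dsimp only
        unfold eE
        rw [← ENNReal.ofReal_mul hr.le]
        apply ENNReal.ofReal_le_ofReal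
        have h2 := Real.add_one_le_exp (r⁻¹ * |ω u|)
        have h3 : r * (r⁻¹ * |ω u|) = |ω u| := by field_simp
        nlinarith
    _ = ENNReal.ofReal r * ∫⁻ ω : Om, eE (r⁻¹ * |ω u|) ∂gm :=
        lintegral_const_mul' _ _ ENNReal.ofReal_ne_top
    _ ≤ _ := by
        gcongr
        exact h.trans (by gcongr)

theorem ex2_ae (hD : St_G1D) (u : ℕ → HH) (hu : ∀ n, ‖u n‖ ≤ (1 / 2 : ℝ) ^ n) :
    ∀ᵐ ω : Om ∂gm, Tendsto (fun n => ω (u n)) atTop (𝓝 0) := by
  have hm : ∀ n, Measurable fun ω : Om => ENNReal.ofReal |ω (u n)| := fun n =>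
    ENNReal.measurable_ofReal.comp (meas_ev (u n)).abs
  have h1 : ∫⁻ ω : Om, ∑' n, ENNReal.ofReal |ω (u n)| ∂gm ≠ ∞ := by
    rw [lintegral_tsum fun n => (hm n).aemeasurable]
    refine ne_top_of_le_ne_top ?_ (ENNReal.tsum_le_tsum fun n =>
      ex2_mom hD (u n) ((1 / 2 : ℝ) ^ n) (by positivity) (hu n))
    rw [ENNReal.tsum_mul_right]
    apply ENNReal.mul_ne_top
    · rw [← ENNReal.ofReal_tsum_of_nonneg (fun n => by positivity) summable_geometric_two]
      exact ENNReal.ofReal_ne_top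
    · exact ENNReal.mul_ne_top (by simp) ENNReal.ofReal_ne_top
  filter_upwards [ae_lt_top (Measurable.ennreal_tsum hm) h1] with ω hω
  have h2 := ENNReal.tendsto_atTop_zero_of_tsum_ne_top hω.ne
  have h3 := (ENNReal.tendsto_toReal ENNReal.zero_ne_top).comp h2
  rw [tendsto_zero_iff_abs_tendsto_zero]
  refine h3.congr fun n => ?_
  simp [Function.comp]

theorem blk_EX2 (_h1 : St_G1) (hD : St_G1D) : St_EX2 := by
  intro v hv
  let s : ℕ → Cyl := TopologicalSpace.denseSeq Cyl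
  have hs : DenseRange s := TopologicalSpace.denseRange_denseSeq Cyl
  have hex : ∀ (n : ℕ) (w : Cyl), ∃ j, ‖v (s j) - v w‖ < (1 / 2 : ℝ) ^ n := by
    intro n w
    have ho : IsOpen {z : Cyl | ‖v z - v w‖ < (1 / 2 : ℝ) ^ n} :=
      isOpen_lt (by fun_prop) continuous_const
    have hne : ({z : Cyl | ‖v z - v w‖ < (1 / 2 : ℝ) ^ n}).Nonempty :=
      ⟨w, by simp⟩
    exact hs.exists_mem_open ho hne
  have hj : ∀ n, Measurable fun w : Cyl => Nat.find (hex n w) := fun n =>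
    measurable_find (hex n) fun k =>
      (isOpen_lt (by fun_prop) continuous_const :
        IsOpen {w : Cyl | ‖v (s k) - v w‖ < (1 / 2 : ℝ) ^ n}).measurableSet
  have hg : Measurable fun q : ℕ × Om => q.2 (v (s q.1)) :=
    measurable_from_prod_countable_right fun j => meas_ev (v (s j))
  have hA : ∀ n, Measurable fun q : Cyl × Om => q.2 (v (s (Nat.find (hex n q.1)))) := fun n =>
    hg.comp (((hj n).comp measurable_fst).prodMk measurable_snd)
  refine ⟨fun w ω => limsup (fun n => ω (v (s (Nat.find (hex n w))))) atTop,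
    Measurable.limsup hA, fun w => ?_⟩
  filter_upwards [ex2_ae hD (fun n => v (s (Nat.find (hex n w))) - v w)
    fun n => (Nat.find_spec (hex n w)).le] with ω hω
  apply Tendsto.limsup_eq
  have h2 := hω.add_const (ω (v w))
  simp only [map_sub, sub_add_cancel, zero_add] at h2
  exact h2

end Pool.Agent.Lib.APPS
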