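import Pool.Agent.Lib.APPS.Blue6

/-!
Block EX3: regular versions of the radial and lateral parts of the field of a model.
-/

namespace Pool.Agent.Lib.APPS

open MeasureTheory ProbabilityTheory Filter Topology Set Metric
open scoped NNReal ENNReal RealInnerProductSpace Classical

theorem ex3_cov_pos (s t : ℝ≥0) : cov2 s t = min (s : ℝ) t := by
  unfold cov2
  rw [abs_of_nonneg s.coe_nonneg, abs_of_nonneg t.coe_nonneg]
  rcases le_total (s : ℝ) t with h | h
  · rw [min_eq_left h, abs_of_nonpos (by linarith)]; ring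
  · rw [min_eq_right h, abs_of_nonneg (by linarith)]; ring

theorem ex3_cov_neg (s t : ℝ≥0) : cov2 (-s) (-t) = min (s : ℝ) t := by
  rw [← ex3_cov_pos]
  unfold cov2
  rw [abs_neg, abs_neg, show -(s : ℝ) - -(t : ℝ) = -((s : ℝ) - t) by ring, abs_neg]

theorem ex3_cov_mix (s t : ℝ≥0) : cov2 s (-t) = 0 := by
  unfold cov2
  rw [abs_neg, abs_of_nonneg s.coe_nonneg, abs_of_nonneg t.coe_nonneg, sub_neg_eq_add,
    abs_of_nonneg (add_nonneg s.coe_nonneg t.coe_nonneg)]
  ring

theorem ex3_cg {T Ω : Type} [MeasurableSpace Ω] {X Y : T → Ω → ℝ} {P : Measure Ω}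
    {c : T → T → ℝ} (h : CG X P c) (hm : ∀ t, Measurable (Y t)) (he : ∀ t, X t =ᵐ[P] Y t) :
    CG Y P c where
  gauss := h.gauss.congr he
  meas := hm
  mean t := by rw [← integral_congr_ae (he t)]; exact h.mean t
  cov s t := by
    rw [← h.cov s t]
    unfold covariance
    rw [integral_congr_ae (he s), integral_congr_ae (he t)]
    refine integral_congr_ae ?_
    filter_upwards [he s, he t] with ω h1 h2
    rw [h1, h2]

theorem blk_EX3 (_hG1 : St_G1) (hG3 : St_G3) (hLAT : St_LAT) (hEX1 : St_EX1) (hEX2 : St_EX2) :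
    St_EX3 := by
  intro θ hθ M
  obtain ⟨-, C, -, -, -, hM⟩ := hLAT.2.2 θ hθ
  obtain ⟨hgram, horth, -, hcont, -, -⟩ := hM M
  have hrad := hLAT.2.1 M
  obtain ⟨b1, hb1, he1⟩ := hEX1 (fun t => M.radV t) fun s t => by
    rw [hrad, ex3_cov_pos]
  obtain ⟨b2, hb2, he2⟩ := hEX1 (fun t => M.radV (-t)) fun s t => by
    rw [hrad, ex3_cov_neg]
  choose L hLm hLe using fun k : ℕ => hEX2 (fun w => M.lamV θ (w, k)) (hcont k)
  have hLe' : ∀ p : Cyl × ℕ, (fun ω : Om => ω (M.lamV θ p)) =ᵐ[gm] fun ω => L p.2 p.1 ω :=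
    fun p => (hLe p.2 p.1).mono fun ω h => h.symm
  refine ⟨fun ω => (b1 ω, b2 ω), fun p ω => L p.2 p.1 ω, ⟨⟨hb1.bm, hb2.bm,
    hb1.meas.prodMk hb2.meas, hb1.cont, hb2.cont, ?_⟩, ?_, hLm, fun p => hLe p.2 p.1⟩, ?_, ?_⟩
  · have h := hG3.2.2.2.2.1 ℝ≥0 ℝ≥0 (fun t => M.radV t) (fun t => M.radV (-t)) fun s t => by
      rw [hrad, ex3_cov_mix]
    exact IndepFun.process_congr (X := fun (t : ℝ≥0) (ω : Om) => ω (M.radV t))
      (Y := fun (t : ℝ≥0) (ω : Om) => ω (M.radV (-t))) (X' := fun t ω => b1 ω t)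
      (Y' := fun t ω => b2 ω t) h (fun t => (he1 t).mono fun ω h => h.symm)
      fun t => (he2 t).mono fun ω h => h.symm
  · intro t
    unfold twoS
    by_cases ht : 0 ≤ t
    · filter_upwards [he1 t.toNNReal] with ω h
      rw [if_pos ht, h, Real.coe_toNNReal t ht]
    · filter_upwards [he2 (-t).toNNReal] with ω h
      rw [if_neg ht, h, Real.coe_toNNReal (-t) (by linarith), neg_neg]
  · refine ex3_cg (hG3.2.1 _ (M.lamV θ) (latCov θ) hgram) (fun p => ?_) hLe'
    exact (hLm p.2).comp (measurable_const.prodMk measurable_id)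
  · let v : ℝ≥0 ⊕ ℝ≥0 → HH := Sum.elim (fun t => M.radV t) fun t => M.radV (-t)
    have h := hG3.2.2.2.2.1 (ℝ≥0 ⊕ ℝ≥0) (Cyl × ℕ) v (M.lamV θ) fun i p => by
      rw [real_inner_comm]
      rcases i with t | t
      · exact horth p t
      · exact horth p (-t)
    have h2 := IndepFun.process_congr (X := fun (i : ℝ≥0 ⊕ ℝ≥0) (ω : Om) => ω (v i))
      (Y := fun (p : Cyl × ℕ) (ω : Om) => ω (M.lamV θ p))
      (X' := fun i ω => Sum.elim (b1 ω) (b2 ω) i) (Y' := fun p ω => L p.2 p.1 ω) h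
      (fun i => by
        rcases i with t | t
        · exact (he1 t).mono fun ω h => h.symm
        · exact (he2 t).mono fun ω h => h.symm) hLe'
    have hφ : Measurable fun f : ℝ≥0 ⊕ ℝ≥0 → ℝ =>
        ((fun t => f (Sum.inl t), fun t => f (Sum.inr t)) : PP) :=
      (measurable_pi_lambda _ fun t => measurable_pi_apply _).prodMk
        (measurable_pi_lambda _ fun t => measurable_pi_apply _)
    exact h2.comp hφ measurable_id

end Pool.Agent.Lib.APPS
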