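import Pool.Agent.Lib.APPS.Blue6
import Pool.Agent.Lib.APPS.B_QV

/-!
Block EX4: the regularized measures of a model are Cauchy in probability.
-/

namespace Pool.Agent.Lib.APPS

open MeasureTheory ProbabilityTheory Filter Topology Set Metric
open scoped NNReal ENNReal RealInnerProductSpace Classical CompactlySupported

noncomputable section

namespace EX4

theorem tri {Ω : Type} [MeasurableSpace Ω] {P : Measure Ω} {x y z : Ω → ℝ} {η : ℝ} (hη : 0 < η)
    (h : ∀ᵐ ω ∂P, |x ω| ≤ |y ω| + |z ω|) (hy : P {ω | η / 2 < |y ω|} ≤ ENNReal.ofReal (η / 2))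
    (hz : P {ω | η / 2 < |z ω|} ≤ ENNReal.ofReal (η / 2)) :
    P {ω | η < |x ω|} ≤ ENNReal.ofReal η := by
  calc P {ω | η < |x ω|} ≤ P ({ω | η / 2 < |y ω|} ∪ {ω | η / 2 < |z ω|}) := by
        refine measure_mono_ae (h.mono fun ω h (hx : η < |x ω|) => ?_)
        by_contra hn
        have h1 : ¬ η / 2 < |y ω| := fun h => hn (Or.inl h)
        have h2 : ¬ η / 2 < |z ω| := fun h => hn (Or.inr h)
        linarith
    _ ≤ ENNReal.ofReal (η / 2) + ENNReal.ofReal (η / 2) :=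
        (measure_union_le _ _).trans (add_le_add hy hz)
    _ = ENNReal.ofReal η := by
        rw [← ENNReal.ofReal_add (by positivity) (by positivity), add_halves]

/-- eventually close in probability to a fixed variable -/
def App {Ω : Type} [MeasurableSpace Ω] (P : Measure Ω) (a : ℕ → Ω → ℝ) : Prop :=
  ∀ η > 0, ∃ (W : Ω → ℝ) (k0 : ℕ), ∀ k ≥ k0, P {ω | η < |a k ω - W ω|} ≤ ENNReal.ofReal η

theorem App.cau {Ω : Type} [MeasurableSpace Ω] {P : Measure Ω} {a : ℕ → Ω → ℝ} (h : App P a) :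
    CauP P a := fun η hη => by
  obtain ⟨W, k0, h⟩ := h (η / 2) (by positivity)
  refine ⟨k0, fun k hk k' hk' => tri hη (Eventually.of_forall fun ω => ?_) (h k hk) (h k' hk')⟩
  exact (le_of_eq (by congr 1; ring)).trans (abs_sub _ _)

theorem App.sub {Ω : Type} [MeasurableSpace Ω] {P : Measure Ω} {a b c : ℕ → Ω → ℝ} (ha : App P a)
    (hb : App P b) (h : ∀ k, ∀ᵐ ω ∂P, c k ω = a k ω - b k ω) : App P c := fun η hη => by
  obtain ⟨W, k0, h0⟩ := ha (η / 2) (by positivity)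
  obtain ⟨W', k1, h1⟩ := hb (η / 2) (by positivity)
  refine ⟨fun ω => W ω - W' ω, max k0 k1, fun k hk => tri hη ((h k).mono fun ω e => ?_)
    (h0 k (le_of_max_le_left hk)) (h1 k (le_of_max_le_right hk))⟩
  rw [e]
  exact (le_of_eq (by congr 1; ring)).trans (abs_sub _ _)

theorem l1cont (hG1D : St_G1D) (hG4 : St_G4) (γ : ℝ) {c : Cyl → ℝ} {v : Cyl → HH}
    (hc : Continuous c) (hv : Continuous v) (c0 : ∀ w, 0 < c w) {X : Cyl → Om → ℝ}
    (hX : ∀ w, ∀ᵐ ω ∂gm, X w ω = c w * Wk γ (v w) ω) (w0 : Cyl) :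
    Tendsto (fun w => ∫⁻ ω, ENNReal.ofReal |X w ω - X w0 ω| ∂gm) (𝓝 w0) (𝓝 0) := by
  have wpos : ∀ v ω, 0 < Wk γ v ω := fun v ω => Real.exp_pos _
  have hb : Continuous fun w => ENNReal.ofReal (c w) *
      ENNReal.ofReal (2 * |γ| * ‖v w - v w0‖) + ENNReal.ofReal |c w - c w0| := by
    simp only [← ENNReal.ofReal_mul (c0 _).le]
    refine (ENNReal.continuous_ofReal.comp ?_).add (ENNReal.continuous_ofReal.comp ?_)
    · fun_prop
    · fun_prop
  have ht := hb.tendsto w0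
  simp only [sub_self, norm_zero, mul_zero, abs_zero, ENNReal.ofReal_zero, add_zero] at ht
  refine tendsto_of_tendsto_of_tendsto_of_le_of_le tendsto_const_nhds ht
    (fun _ => zero_le) fun w => ?_
  have gp := c0 w
  calc ∫⁻ ω, ENNReal.ofReal |X w ω - X w0 ω| ∂gm
      ≤ ∫⁻ ω, ENNReal.ofReal (c w) * ENNReal.ofReal |Wk γ (v w) ω - Wk γ (v w0) ω| +
          ENNReal.ofReal |c w - c w0| * ENNReal.ofReal (Wk γ (v w0) ω) ∂gm := by
        refine lintegral_mono_ae ?_
        filter_upwards [hX w, hX w0] with ω e e0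
        rw [e, e0, ← ENNReal.ofReal_mul gp.le, ← ENNReal.ofReal_mul (abs_nonneg _),
          ← ENNReal.ofReal_add (by positivity) (mul_nonneg (abs_nonneg _) (wpos _ _).le)]
        apply ENNReal.ofReal_le_ofReal
        have : c w * Wk γ (v w) ω - c w0 * Wk γ (v w0) ω =
            c w * (Wk γ (v w) ω - Wk γ (v w0) ω) + (c w - c w0) * Wk γ (v w0) ω := by ring
        rw [this]
        refine le_trans (abs_add_le _ _) (le_of_eq ?_)
        rw [abs_mul, abs_mul, abs_of_pos gp, abs_of_pos (wpos _ _)]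
    _ = ENNReal.ofReal (c w) * ∫⁻ ω, ENNReal.ofReal |Wk γ (v w) ω - Wk γ (v w0) ω| ∂gm +
          ENNReal.ofReal |c w - c w0| := by
        rw [lintegral_add_right _ ((QV.meas_Wk γ (v w0)).ennreal_ofReal.const_mul _),
          lintegral_const_mul' _ _ ENNReal.ofReal_ne_top,
          lintegral_const_mul' _ _ ENNReal.ofReal_ne_top, hG1D.2.2.2.2.2.1, mul_one]
    _ ≤ _ := by
        gcongr
        exact hG4.2.2 γ _ _

theorem markov {Ω : Type} [MeasurableSpace Ω] {P : Measure Ω} {x : Ω → ℝ} (hx : Measurable x)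
    {η : ℝ} (hη : 0 < η) (h : ∫⁻ ω, ENNReal.ofReal |x ω| ∂P ≤ ENNReal.ofReal (η * η)) :
    P {ω | η < |x ω|} ≤ ENNReal.ofReal η := by
  have h0 : ENNReal.ofReal η ≠ 0 := by simpa using hη
  calc P {ω | η < |x ω|} ≤ P {ω | ENNReal.ofReal η ≤ ENNReal.ofReal |x ω|} :=
        measure_mono fun ω (h : η < |x ω|) => ENNReal.ofReal_le_ofReal h.le
    _ ≤ (∫⁻ ω, ENNReal.ofReal |x ω| ∂P) / ENNReal.ofReal η :=
        meas_ge_le_lintegral_div hx.abs.ennreal_ofReal.aemeasurable h0 ENNReal.ofReal_ne_top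
    _ ≤ ENNReal.ofReal η := by
        rw [ENNReal.ofReal_mul hη.le] at h
        exact ENNReal.div_le_of_le_mul h

end EX4

theorem blk_EX4 (hG1 : St_G1) (hG1D : St_G1D) (_hG3 : St_G3) (hG4 : St_G4) (hCYL : St_CYL)
    (hBM2 : St_BM2) (hLAT : St_LAT) (hRIEM : St_RIEM) (hBRb : St_BRb) : St_EX4 := by
  intro γ hγ θ hθ M β L H
  have hg : IsProbabilityMeasure gm := hG1.1
  have hs : SigmaFinite cylVol := hCYL.2.2.2.2.2.2.2.2.2.2.2.1
  have ms : ∀ k, Measurable fun q : Cyl × Om => xZ γ β L k q.1 q.2 := fun k => by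
    have j1 := (hBM2.2.2.2 _ _ _ H.bp).2.2.2.2.1
    have a1 : Measurable fun q : Cyl × Om => twoS (β q.2) q.1.1 :=
      j1.comp (measurable_snd.prodMk measurable_fst.fst)
    exact measurable_const.mul (Real.measurable_exp.comp (measurable_const.mul
      ((a1.sub (measurable_const.mul measurable_fst.fst)).add (H.joint k))))
  have e1 : ∀ k w, ∀ᵐ ω ∂gm, xZ γ β L k w ω = ((1 / 2 : ℝ) ^ k) ^ (γ ^ 2 / 2) *
      Real.exp (γ * (ω (M.radV w.1) - QQ γ * w.1 + ω (M.lamV θ (w, k)))) := fun k w => by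
    filter_upwards [H.rad w.1, H.lat (w, k)] with ω a b
    rw [xZ, a, b]
  have R := fun k => by
    let v : Cyl → HH := fun w => M.radV w.1 + M.lamV θ (w, k)
    let c : Cyl → ℝ := fun w => ((1 / 2 : ℝ) ^ k) ^ (γ ^ 2 / 2) *
      Real.exp (γ ^ 2 * ‖v w‖ ^ 2 / 2 - γ * QQ γ * w.1)
    have c0 : ∀ w, 0 < c w := fun w => by positivity
    have e2 : ∀ w, ∀ᵐ ω ∂gm, xZ γ β L k w ω = c w * Wk γ (v w) ω := fun w =>
      (e1 k w).mono fun ω e => by
        rw [e, mul_assoc, Wk, ← Real.exp_add]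
        congr 2
        simp only [v, map_add]
        ring
    have cv : Continuous v := by
      obtain ⟨-, C, -, -, -, hM⟩ := hLAT.2.2 θ hθ
      exact ((QV.rad_cont hLAT M).comp continuous_fst).add ((hM M).2.2.2.1 k)
    have cc : Continuous c := by fun_prop
    refine hRIEM.2 Om gm (xZ γ β L k) (ms k) (fun w => ?_) (EX4.l1cont hG1D hG4 γ cc cv c0 e2)
    refine (integrable_congr (e2 w)).2 (Integrable.const_mul
      ⟨(QV.meas_Wk γ _).aestronglyMeasurable, ?_⟩ _)
    rw [hasFiniteIntegral_iff_ofReal (f := Wk γ (v w))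
      (Eventually.of_forall fun ω => (Real.exp_pos _).le),
      hG1D.2.2.2.2.2.1]
    exact ENNReal.one_lt_top
  refine ⟨⟨ms, fun k w ω => by unfold xZ; positivity, fun k f => (R k f).1⟩, fun f => ?_⟩
  have key : ∀ g : C_c(Cyl, ℝ), (∀ w, 0 ≤ g w) →
      EX4.App gm fun k ω => ∫ w, g w * xZ γ β L k w ω ∂cylVol := fun g g0 η hη => by
    obtain ⟨L0, h⟩ := hBRb γ hγ θ hθ g g0 (η / 2) (by positivity)
    obtain ⟨l0, h⟩ := h L0 le_rfl
    obtain ⟨k0, h⟩ := h l0 le_rfl
    refine ⟨fun ω => Real.exp (γ ^ 2 * Ie θ θ / 2) * M.Wlat γ L0 l0 g ω, k0, fun k hk => ?_⟩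
    obtain ⟨l1, h⟩ := h k hk
    obtain ⟨l, h1, h2⟩ := ((eventually_ge_atTop l1).and ((R k g).2.eventually
      (ge_mem_nhds (show 0 < ENNReal.ofReal (η / 2 * (η / 2)) by
        rw [ENNReal.ofReal_pos]; positivity)))).exists
    obtain ⟨s, hs⟩ := hRIEM.1 g l
    have m1 : Measurable fun ω => ∫ w, g w * xZ γ β L k w ω ∂cylVol :=
      (StronglyMeasurable.integral_prod_left' (f := fun q : Cyl × Om => g q.1 * xZ γ β L k q.1 q.2)
        ((g.continuous.measurable.comp measurable_fst).mul (ms k)).stronglyMeasurable).measurable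
    have m2 : Measurable fun ω => Rie l fun w => g w * xZ γ β L k w ω := by
      have : ∀ ω, (Rie l fun w => g w * xZ γ β L k w ω) = ∑ i ∈ s, (1 / 4 : ℝ) ^ l /
          ‖xl l i‖ ^ 2 * (g (toCyl (xl l i)) * xZ γ β L k (toCyl (xl l i)) ω) := fun ω =>
        tsum_eq_sum fun i hi => by simp only [hs i hi, zero_mul, mul_zero]
      simp only [this]
      exact Finset.measurable_sum _ fun i _ => measurable_const.mul
        (measurable_const.mul ((ms k).comp measurable_prodMk_left))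
    refine EX4.tri hη ?_ (EX4.markov (m1.sub m2) (by positivity) h2) (h l h1 M)
    filter_upwards [ae_all_iff.2 fun i : ℤ × ℤ => e1 k (toCyl (xl l i))] with ω e
    have : (Rie l fun w => g w * xZ γ β L k w ω) = M.Rs γ θ k l g ω := by
      simp only [Model.Rs, Rie, e]
    rw [← this]
    exact abs_sub_le _ _ _
  refine ((key (f ⊔ 0) fun w => le_sup_right).sub (key (-f ⊔ 0) fun w => le_sup_right)
    fun k => ?_).cau
  filter_upwards [(R k (f ⊔ 0)).1, (R k (-f ⊔ 0)).1] with ω a b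
  rw [← integral_sub a b]
  refine integral_congr_ae (Eventually.of_forall fun w => ?_)
  change f w * _ = max (f w) 0 * _ - max (-f w) 0 * _
  rw [← sub_mul, max_zero_sub_max_neg_zero_eq_self]

end

end Pool.Agent.Lib.APPS
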