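import Pool.Agent.Lib.APPS.Blue6

namespace Pool.Agent.Lib.APPS

open MeasureTheory ProbabilityTheory Filter Topology Set Metric
open scoped NNReal ENNReal CompactlySupported Classical

namespace EX5

theorem sub_seq {Ω : Type} [MeasurableSpace Ω] (P : Measure Ω) (a : ℕ → ℕ → Ω → ℝ)
    (h : ∀ j, CauP P (a j)) :
    ∃ κ : ℕ → ℕ, Tendsto κ atTop atTop ∧
      ∀ᵐ ω ∂P, ∀ j, ∃ l, Tendsto (fun i => a j (κ i) ω) atTop (𝓝 l) := by
  have h1 : ∀ j i : ℕ, ∃ k0 : ℕ, ∀ k ≥ k0, ∀ k' ≥ k0,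
      P {ω | (1 / 2 : ℝ) ^ i < |a j k ω - a j k' ω|} ≤ ENNReal.ofReal ((1 / 2 : ℝ) ^ i) :=
    fun j i => h j _ (by positivity)
  choose k0 hk0 using h1
  set κ : ℕ → ℕ := fun i =>
    i + ∑ i' ∈ Finset.range (i + 1), ∑ j ∈ Finset.range (i + 1), k0 j i' with hκ
  have hge : ∀ j i m, j ≤ m → i ≤ m → k0 j i ≤ κ m := by
    intro j i m hj hi
    have e1 : k0 j i ≤ ∑ j' ∈ Finset.range (m + 1), k0 j' i :=
      Finset.single_le_sum (f := fun j' => k0 j' i) (fun _ _ => Nat.zero_le _)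
        (Finset.mem_range.2 (by omega))
    have e2 : ∑ j' ∈ Finset.range (m + 1), k0 j' i ≤
        ∑ i' ∈ Finset.range (m + 1), ∑ j' ∈ Finset.range (m + 1), k0 j' i' :=
      Finset.single_le_sum (f := fun i' => ∑ j' ∈ Finset.range (m + 1), k0 j' i')
        (fun _ _ => Nat.zero_le _) (Finset.mem_range.2 (by omega))
    simp only [hκ]
    omega
  refine ⟨κ, tendsto_atTop_mono (fun i => Nat.le_add_right i _) tendsto_id, ?_⟩
  rw [ae_all_iff]
  intro j
  set s : ℕ → Set Ω := fun i =>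
    {ω | (1 / 2 : ℝ) ^ (i + j) < |a j (κ (i + j)) ω - a j (κ (i + j + 1)) ω|} with hs
  have hsum : (∑' i, P (s i)) ≠ ∞ := by
    have hle : ∀ i, P (s i) ≤ ENNReal.ofReal ((1 / 2 : ℝ) ^ i) := by
      intro i
      refine (hk0 j (i + j) _ (hge _ _ _ (by omega) le_rfl) _
        (hge _ _ _ (by omega) (by omega))).trans (ENNReal.ofReal_le_ofReal ?_)
      exact pow_le_pow_of_le_one (by norm_num) (by norm_num) (by omega)
    refine ne_top_of_le_ne_top ?_ (ENNReal.tsum_le_tsum hle)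
    rw [← ENNReal.ofReal_tsum_of_nonneg (fun _ => by positivity)
      summable_geometric_two]
    exact ENNReal.ofReal_ne_top
  filter_upwards [ae_eventually_notMem hsum] with ω hω
  obtain ⟨N, hN⟩ := eventually_atTop.1 hω
  have hc : CauchySeq fun i => a j (κ (i + (N + j))) ω := by
    refine cauchySeq_of_le_geometric (1 / 2 : ℝ) 1 (by norm_num) fun n => ?_
    have := hN (n + N) (by omega)
    simp only [hs, mem_ofPred_eq, not_lt] at this
    rw [Real.dist_eq, one_mul]
    have e1 : n + (N + j) = n + N + j := by omega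
    have e2 : n + 1 + (N + j) = n + N + j + 1 := by omega
    rw [e1, e2]
    exact this.trans (pow_le_pow_of_le_one (by norm_num) (by norm_num) (by omega))
  obtain ⟨l, hl⟩ := cauchySeq_tendsto_of_complete hc
  exact ⟨l, (tendsto_add_atTop_iff_nat (f := fun i => a j (κ i) ω) (N + j)).1 hl⟩

theorem full_seq {Ω : Type} [MeasurableSpace Ω] (P : Measure Ω) [IsProbabilityMeasure P]
    (a : ℕ → Ω → ℝ) (l : Ω → ℝ) (hm : ∀ k, Measurable (a k)) (h : CauP P a) (κ : ℕ → ℕ)
    (hκ : Tendsto κ atTop atTop)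
    (hl : ∀ᵐ ω ∂P, Tendsto (fun i => a (κ i) ω) atTop (𝓝 (l ω))) :
    TendstoInMeasure P a atTop l := by
  have h0 : TendstoInMeasure P (fun i => a (κ i)) atTop l :=
    tendstoInMeasure_of_tendsto_ae (fun i => (hm _).aestronglyMeasurable) hl
  rw [tendstoInMeasure_iff_dist] at h0 ⊢
  intro ε hε
  rw [ENNReal.tendsto_atTop_zero]
  intro δ hδ
  obtain ⟨d, hd0, hd⟩ : ∃ d : ℝ, 0 < d ∧ ENNReal.ofReal d + ENNReal.ofReal d ≤ δ := by
    by_cases hδ' : δ = ∞
    · exact ⟨1, one_pos, by simp [hδ']⟩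
    · refine ⟨δ.toReal / 2, half_pos (ENNReal.toReal_pos hδ.ne' hδ'), ?_⟩
      rw [← ENNReal.ofReal_add (by positivity) (by positivity), add_halves,
        ENNReal.ofReal_toReal hδ']
  obtain ⟨k0, hk0⟩ := h (min d (ε / 3)) (lt_min hd0 (by positivity))
  refine ⟨k0, fun k hk => ?_⟩
  have h1 := ENNReal.tendsto_atTop_zero.1 (h0 (ε / 2) (by positivity)) (ENNReal.ofReal d)
    (ENNReal.ofReal_pos.2 hd0)
  obtain ⟨N, hN⟩ := h1
  obtain ⟨M, hM⟩ := eventually_atTop.1 (hκ.eventually_ge_atTop k0)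
  set i := max N M
  have hA := hk0 k hk (κ i) (hM i (le_max_right _ _))
  have hB := hN i (le_max_left _ _)
  have hsub : {ω | ε ≤ dist (a k ω) (l ω)} ⊆
      {ω | min d (ε / 3) < |a k ω - a (κ i) ω|} ∪ {ω | ε / 2 ≤ dist (a (κ i) ω) (l ω)} := by
    intro ω hω
    by_contra hn
    simp only [mem_union, mem_ofPred_eq, not_or, not_lt, not_le] at hn hω
    have t := dist_triangle (a k ω) (a (κ i) ω) (l ω)
    rw [Real.dist_eq (a k ω) (a (κ i) ω)] at t
    have := min_le_right d (ε / 3)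
    linarith [hn.1, hn.2]
  refine (measure_mono hsub).trans ((measure_union_le _ _).trans (le_trans ?_ hd))
  exact add_le_add (hA.trans (ENNReal.ofReal_le_ofReal (min_le_left _ _))) hB

end EX5

open EX5 in
theorem blk_EX5 (hC : St_CYL) (h5a : St_EX5a) (h5b : St_EX5b) : St_EX5 := by
  intro Ω _ P _ X hD hCau
  obtain ⟨F, hF⟩ := h5a
  obtain ⟨-, -, -, -, -, -, -, -, -, -, -, hsf, -, -, hh, -, hf0, -⟩ := hC
  choose h hh using hh
  set I : C_c(Cyl, ℝ) → ℕ → Ω → ℝ := fun f k ω => ∫ w, f w * X k w ω ∂cylVol with hI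
  have hjm : ∀ (f : C_c(Cyl, ℝ)) k, Measurable fun q : Cyl × Ω => f q.1 * X k q.1 q.2 :=
    fun f k => ((map_continuous f).measurable.comp measurable_fst).mul (hD.meas k)
  have hIm : ∀ f k, Measurable (I f k) := fun f k =>
    ((hjm f k).stronglyMeasurable.integral_prod_left' (μ := cylVol)).measurable
  obtain ⟨κ, hκ, hconv⟩ := sub_seq P (fun j => I (F j)) fun j => hCau (F j)
  set J : ℕ → ℕ → Ω → ℝ≥0∞ := fun k K ω =>
    ∫⁻ w, ENNReal.ofReal (h K w * X k w ω) ∂cylVol with hJ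
  have hJm : ∀ k K, Measurable (J k K) := fun k K =>
    (hjm (h K) k).ennreal_ofReal.lintegral_prod_left'
  set Ω0 : Set Ω := {ω | ∀ k K, J k K ω < ∞} ∩
    {ω | ∀ j, ∃ l, Tendsto (fun i => I (F j) (κ i) ω) atTop (𝓝 l)} with hΩ0
  have hΩm : MeasurableSet Ω0 := by
    refine MeasurableSet.inter ?_ ?_
    · simp only [ofPred_forall]
      exact MeasurableSet.iInter fun k => MeasurableSet.iInter fun K =>
        measurableSet_lt (hJm k K) measurable_const
    · simp only [ofPred_forall]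
      exact MeasurableSet.iInter fun j =>
        StronglyMeasurable.measurableSet_exists_tendsto
          (f := fun i => I (F j) (κ i)) fun i => (hIm _ _).stronglyMeasurable
  have hΩae : ∀ᵐ ω ∂P, ω ∈ Ω0 := by
    have h1 : ∀ᵐ ω ∂P, ∀ k K, J k K ω < ∞ := by
      rw [ae_all_iff]
      intro k
      rw [ae_all_iff]
      intro K
      filter_upwards [hD.int k (h K)] with ω hω
      exact hω.lintegral_lt_top
    filter_upwards [h1, hconv] with ω h1 h2
    exact ⟨h1, h2⟩
  have hXm : ∀ k ω, Measurable fun w => X k w ω := fun k ω =>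
    (hD.meas k).comp (measurable_id.prodMk measurable_const)
  set ms : Ω → ℕ → Measure Cyl := fun ω i =>
    cylVol.withDensity fun w => ENNReal.ofReal (X (κ i) w ω) with hms
  have hint : ∀ ω i (f : C_c(Cyl, ℝ)), ∫ w, f w ∂ms ω i = I f (κ i) ω := by
    intro ω i f
    simp only [hms, hI]
    rw [integral_withDensity_eq_integral_toReal_smul (hXm _ ω).ennreal_ofReal
      (Eventually.of_forall fun _ => ENNReal.ofReal_lt_top)]
    refine integral_congr_ae (Eventually.of_forall fun w => ?_)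
    simp only [ENNReal.toReal_ofReal (hD.nonneg _ _ _), smul_eq_mul, mul_comm]
  have hfc : ∀ ω ∈ Ω0, ∀ i, IsFiniteMeasureOnCompacts (ms ω i) := by
    intro ω hω i
    refine ⟨fun {S} hS => ?_⟩
    obtain ⟨C, hC⟩ := (hS.image (continuous_fst.abs)).bddAbove
    have hl2 : 0 < l2 := Real.log_pos (by norm_num)
    obtain ⟨K, hK⟩ := exists_nat_ge (C / l2)
    have hK' : C ≤ K * l2 := by rwa [div_le_iff₀ hl2] at hK
    refine lt_of_le_of_lt ?_ (hω.1 (κ i) K)
    simp only [hms, hJ]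
    rw [withDensity_apply _ hS.measurableSet]
    refine le_trans ?_ (setLIntegral_le_lintegral S _)
    refine setLIntegral_mono' hS.measurableSet fun w hw => ?_
    have : h K w = 1 := by
      rw [hh]
      exact (hf0 K w).2.2.1 ((hC (mem_image_of_mem _ hw)).trans hK')
    rw [this, one_mul]
  have hex : ∀ ω, ∃ m : Measure Cyl, IsFiniteMeasureOnCompacts m ∧
      ∀ f : C_c(Cyl, ℝ), Tendsto (fun i => Ω0.indicator (I f (κ i)) ω) atTop
        (𝓝 (∫ w, f w ∂m)) := by
    intro ω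
    by_cases hω : ω ∈ Ω0
    · obtain ⟨m, hm1, hm2⟩ := hF (ms ω) (hfc ω hω) (fun j => by
        simp only [hint]
        exact hω.2 j)
      refine ⟨m, hm1, fun f => ?_⟩
      have := hm2 f
      simp only [hint] at this
      simpa only [indicator_of_mem hω] using this
    · refine ⟨0, inferInstance, fun f => ?_⟩
      simp only [indicator_of_notMem hω, integral_zero_measure]
      exact tendsto_const_nhds
  choose ν hν1 hν2 using hex
  refine ⟨ν, h5b Ω ν hν1 fun f => ?_, hν1, fun f => ?_⟩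
  · exact measurable_of_tendsto_metrizable (f := fun i => Ω0.indicator (I f (κ i)))
      (fun i => (hIm f _).indicator hΩm) (tendsto_pi_nhds.2 fun ω => hν2 ω f)
  · refine full_seq P (I f) _ (hIm f) (hCau f) κ hκ ?_
    filter_upwards [hΩae] with ω hω
    simpa only [indicator_of_mem hω] using hν2 ω f

end Pool.Agent.Lib.APPS
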