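import Pool.Agent.Lib.APPS.Blue6

namespace Pool.Agent.Lib.APPS

open MeasureTheory ProbabilityTheory Filter Topology Set Metric
open scoped NNReal ENNReal CompactlySupported

noncomputable section

namespace EX5a

def mk (g : C(Cyl, ℝ)) (h : C_c(Cyl, ℝ)) : C_c(Cyl, ℝ) where
  toFun w := g w * h w
  continuous_toFun := g.continuous.mul (map_continuous h)
  hasCompactSupport' := h.hasCompactSupport.mul_left

theorem approx (f : C(Cyl, ℝ)) (h : C_c(Cyl, ℝ)) (hh : ∀ w, 0 ≤ h w) (ε : ℝ) (hε : 0 < ε) :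
    ∃ i, ∀ w, |mk (TopologicalSpace.denseSeq C(Cyl, ℝ) i) h w - f w * h w| ≤ ε * h w := by
  obtain ⟨x, hx, hlim⟩ := mem_closure_iff_seq_limit.1
    (TopologicalSpace.denseRange_denseSeq C(Cyl, ℝ) f)
  have h1 := ContinuousMap.tendsto_iff_forall_isCompact_tendstoUniformlyOn.1 hlim _
    h.hasCompactSupport
  obtain ⟨n, hn⟩ := (Metric.tendstoUniformlyOn_iff.1 h1 ε hε).exists
  obtain ⟨i, hi⟩ := hx n
  refine ⟨i, fun w => ?_⟩
  change |TopologicalSpace.denseSeq C(Cyl, ℝ) i w * h w - f w * h w| ≤ ε * h w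
  rw [hi, ← sub_mul, abs_mul, abs_of_nonneg (hh w)]
  by_cases hw : w ∈ tsupport h
  · have h2 := hn w hw
    rw [dist_comm, Real.dist_eq] at h2
    exact mul_le_mul_of_nonneg_right h2.le (hh w)
  · rw [image_eq_zero_of_notMem_tsupport hw]; simp

theorem close (m : Measure Cyl) [IsFiniteMeasureOnCompacts m] (f g h : C_c(Cyl, ℝ)) (ε : ℝ)
    (hb : ∀ w, |g w - f w| ≤ ε * h w) :
    |∫ w, g w ∂m - ∫ w, f w ∂m| ≤ ε * ∫ w, h w ∂m := by
  rw [← integral_sub g.integrable f.integrable, ← integral_const_mul]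
  refine abs_integral_le_integral_abs.trans (integral_mono ?_ ?_ hb)
  · exact (g.integrable.sub f.integrable).abs
  · exact h.integrable.const_mul ε

theorem cauchy (a b : ℕ → ℝ) (L : ℝ) (hb : Tendsto b atTop (𝓝 L))
    (h : ∀ ε > 0, ∃ (c : ℕ → ℝ) (l : ℝ), Tendsto c atTop (𝓝 l) ∧ ∀ n, |c n - a n| ≤ ε * b n) :
    ∃ l, Tendsto a atTop (𝓝 l) := by
  refine cauchySeq_tendsto_of_complete (Metric.cauchySeq_iff'.2 fun ε hε => ?_)
  have hL : 0 < |L| + 1 := by positivity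
  obtain ⟨c, l, hc, hca⟩ := h (ε / 4 / (|L| + 1)) (by positivity)
  obtain ⟨N1, hN1⟩ := Metric.tendsto_atTop.1 hb 1 one_pos
  obtain ⟨N2, hN2⟩ := Metric.tendsto_atTop.1 hc (ε / 4) (by positivity)
  have key : ∀ n ≥ max N1 N2, |a n - l| < ε / 2 := fun n hn => by
    have e1 := hN1 n (le_of_max_le_left hn)
    have e2 := hN2 n (le_of_max_le_right hn)
    rw [Real.dist_eq] at e1 e2
    have e3 : b n ≤ |L| + 1 := by linarith [(abs_lt.1 e1).2, le_abs_self L]
    have e4 : ε / 4 / (|L| + 1) * b n ≤ ε / 4 := by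
      calc _ ≤ ε / 4 / (|L| + 1) * (|L| + 1) := mul_le_mul_of_nonneg_left e3 (by positivity)
        _ = ε / 4 := by field_simp
    have e5 := abs_le.1 ((hca n).trans e4)
    have e6 := abs_lt.1 e2
    rw [abs_lt]; constructor <;> linarith [e5.1, e5.2, e6.1, e6.2]
  refine ⟨max N1 N2, fun n hn => ?_⟩
  have e1 := abs_lt.1 (key n hn)
  have e2 := abs_lt.1 (key _ le_rfl)
  rw [Real.dist_eq, abs_lt]; constructor <;> linarith [e1.1, e1.2, e2.1, e2.2]

end EX5a

theorem blk_EX5a (hC : St_CYL) : St_EX5a := by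
  obtain ⟨-, -, -, -, -, -, -, -, -, -, -, -, hsup, -, hχ, -, hf0, -⟩ := hC
  choose χ hχ using hχ
  let F : ℕ → C_c(Cyl, ℝ) := fun j =>
    if j.unpair.1 = 0 then χ j.unpair.2
    else EX5a.mk (TopologicalSpace.denseSeq C(Cyl, ℝ) (j.unpair.1 - 1)) (χ j.unpair.2)
  refine ⟨F, fun ms hms hconv => ?_⟩
  have hall : ∀ f : C_c(Cyl, ℝ), ∃ l, Tendsto (fun n => ∫ w, f w ∂ms n) atTop (𝓝 l) := by
    intro f
    obtain ⟨T, hT⟩ := (hsup f).2.2.2
    have hl2 : 0 < l2 := Real.log_pos one_lt_two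
    obtain ⟨K, hK⟩ := exists_nat_ge (T / l2)
    have hfK : ∀ w, f w * χ K w = f w := fun w => by
      by_cases hw : f w = 0
      · rw [hw, zero_mul]
      · rw [hχ, (hf0 K w).2.2.1 ((hT w hw).trans ((div_le_iff₀ hl2).1 hK)), mul_one]
    obtain ⟨L, hL⟩ := hconv (Nat.pair 0 K)
    have e0 : F (Nat.pair 0 K) = χ K := by simp only [F, Nat.unpair_pair, if_true]
    rw [e0] at hL
    refine EX5a.cauchy _ _ L hL fun ε hε => ?_
    obtain ⟨i, hi⟩ := EX5a.approx ⟨f, map_continuous f⟩ (χ K)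
      (fun w => by rw [hχ]; exact (hf0 K w).1) ε hε
    obtain ⟨l, hl⟩ := hconv (Nat.pair (i + 1) K)
    have e1 : F (Nat.pair (i + 1) K) =
        EX5a.mk (TopologicalSpace.denseSeq C(Cyl, ℝ) i) (χ K) := by
      simp only [F, Nat.unpair_pair, Nat.succ_ne_zero, if_false, Nat.add_sub_cancel]
    rw [e1] at hl
    refine ⟨_, l, hl, fun n => ?_⟩
    have := hms n
    refine EX5a.close (ms n) f _ (χ K) ε fun w => ?_
    have := hi w
    rwa [show (⟨f, map_continuous f⟩ : C(Cyl, ℝ)) w * χ K w = f w from hfK w] at this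
  choose Λ hΛ using hall
  let Λ0 : C_c(Cyl, ℝ) →ₗ[ℝ] ℝ :=
    { toFun := Λ
      map_add' := fun f g => by
        refine tendsto_nhds_unique (hΛ (f + g)) (((hΛ f).add (hΛ g)).congr fun n => ?_)
        have := hms n
        exact (integral_add' f.integrable g.integrable).symm
      map_smul' := fun c f => by
        refine tendsto_nhds_unique (hΛ (c • f)) (((hΛ f).const_mul c).congr fun n => ?_)
        exact (integral_smul c f).symm }
  let Λ1 : C_c(Cyl, ℝ) →ₚ[ℝ] ℝ := PositiveLinearMap.mk₀ Λ0 fun f hf =>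
    ge_of_tendsto' (hΛ f) fun n => integral_nonneg hf
  refine ⟨RealRMK.rieszMeasure Λ1, inferInstance, fun f => ?_⟩
  rw [RealRMK.integral_rieszMeasure]
  exact hΛ f

end

end Pool.Agent.Lib.APPS
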