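import Pool.Agent.Lib.APPS.Blue6

/-!
Block EX5b: measurability of a family of Radon measures from its integrals.
-/

namespace Pool.Agent.Lib.APPS

open MeasureTheory ProbabilityTheory Filter Topology Set Metric
open scoped NNReal ENNReal CompactlySupported

noncomputable section

namespace EX5b

/-- bump functions decreasing to the indicator of `C` -/
def bump (C : Set Cyl) (n : ℕ) (w : Cyl) : ℝ := max 0 (1 - (n + 1) * infDist w C)

theorem bump_cont (C : Set Cyl) (n : ℕ) : Continuous (bump C n) := by
  unfold bump
  exact continuous_const.max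
    (continuous_const.sub (continuous_const.mul (continuous_infDist_pt C)))

theorem bump_bd (C : Set Cyl) (n : ℕ) (w : Cyl) : 0 ≤ bump C n w ∧ bump C n w ≤ bump C 0 w := by
  refine ⟨le_max_left _ _, max_le_max le_rfl ?_⟩
  have := infDist_nonneg (x := w) (s := C)
  have h : (0 : ℝ) ≤ n := Nat.cast_nonneg n
  push_cast
  nlinarith

theorem bump_supp {C : Set Cyl} (hC : IsCompact C) (hne : C.Nonempty) (n : ℕ) :
    HasCompactSupport (bump C n) := by
  have : Fact (0 < 2 * Real.pi) := ⟨Real.two_pi_pos⟩
  refine HasCompactSupport.intro (hC.cthickening (r := 1)) fun w hw => ?_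
  by_contra h
  refine hw (thickening_subset_cthickening 1 C ((mem_thickening_iff_infDist_lt hne).2 ?_))
  by_contra h1
  refine h (le_antisymm ((bump_bd C n w).2.trans ?_) (bump_bd C n w).1)
  refine max_le le_rfl ?_
  push_cast
  linarith [not_lt.1 h1]

theorem bump_lim {C : Set Cyl} (hC : IsCompact C) (hne : C.Nonempty) (w : Cyl) :
    Tendsto (fun n => bump C n w) atTop (𝓝 (C.indicator 1 w)) := by
  by_cases hw : w ∈ C
  · simp [bump, infDist_zero_of_mem hw, hw]
  · have h := (hC.isClosed.notMem_iff_infDist_pos hne).1 hw
    rw [indicator_of_notMem hw]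
    refine tendsto_const_nhds.congr' ?_
    obtain ⟨N, hN⟩ := exists_nat_ge (1 / infDist w C)
    filter_upwards [eventually_ge_atTop N] with n hn
    have h1 : (N : ℝ) ≤ n := by exact_mod_cast hn
    rw [div_le_iff₀ h] at hN
    refine (max_eq_left ?_).symm
    nlinarith

theorem meas_cpt {α : Type} [MeasurableSpace α] (ν : α → Measure Cyl)
    (h1 : ∀ x, IsFiniteMeasureOnCompacts (ν x))
    (h2 : ∀ f : C_c(Cyl, ℝ), Measurable fun x => ∫ w, f w ∂ν x) {C : Set Cyl}
    (hC : IsCompact C) : Measurable fun x => ν x C := by
  rcases C.eq_empty_or_nonempty with rfl | hne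
  · simp
  have h3 : Measurable fun x => (ν x C).toReal := by
    refine measurable_of_tendsto_metrizable
      (f := fun n x => ∫ w, bump C n w ∂ν x)
      (fun n => h2 ⟨⟨bump C n, bump_cont C n⟩, bump_supp hC hne n⟩) ?_
    refine tendsto_pi_nhds.2 fun x => ?_
    have := h1 x
    have h4 : (ν x C).toReal = ∫ w, C.indicator (1 : Cyl → ℝ) w ∂ν x := by
      rw [integral_indicator_one hC.measurableSet]
      rfl
    rw [h4]
    refine tendsto_integral_of_dominated_convergence (bump C 0)
      (fun n => (bump_cont C n).aestronglyMeasurable)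
      ((bump_cont C 0).integrable_of_hasCompactSupport (bump_supp hC hne 0))
      (fun n => Eventually.of_forall fun w => ?_) (Eventually.of_forall (bump_lim hC hne))
    rw [Real.norm_of_nonneg (bump_bd C n w).1]
    exact (bump_bd C n w).2
  have h5 : (fun x => ν x C) = fun x => ENNReal.ofReal (ν x C).toReal := by
    funext x
    have := h1 x
    rw [ENNReal.ofReal_toReal hC.measure_lt_top.ne]
  rw [h5]
  exact ENNReal.measurable_ofReal.comp h3

end EX5b

open EX5b in
theorem blk_EX5b (_hC : St_CYL) : St_EX5b := by
  intro α _ ν h1 h2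
  have : Fact (0 < 2 * Real.pi) := ⟨Real.two_pi_pos⟩
  have hK : ∀ n : ℕ, IsCompact (closedBall (0 : Cyl) n) := fun n => isCompact_closedBall _ _
  have h3 : ∀ n : ℕ, Measurable fun x => (ν x).restrict (closedBall (0 : Cyl) n) := by
    intro n
    have : ∀ x, IsFiniteMeasure ((ν x).restrict (closedBall (0 : Cyl) n)) := fun x => by
      have := h1 x
      exact isFiniteMeasure_restrict.2 (hK n).measure_lt_top.ne
    refine Measurable.measure_of_isPiSystem (S := {s | IsClosed s}) ?_ isPiSystem_isClosed
      (fun s hs => ?_) ?_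
    · rw [← borel_eq_generateFrom_isClosed]
      exact BorelSpace.measurable_eq
    · have hs' : IsClosed s := hs
      simp only [Measure.restrict_apply hs'.measurableSet]
      exact meas_cpt ν h1 h2 ((hK n).inter_left hs')
    · simp only [Measure.restrict_apply_univ]
      exact meas_cpt ν h1 h2 (hK n)
  refine Measure.measurable_of_measurable_coe _ fun A hA => ?_
  have h4 : (fun x => ν x A) = fun x => ⨆ n : ℕ, (ν x).restrict (closedBall (0 : Cyl) n) A := by
    funext x
    simp only [Measure.restrict_apply hA]
    rw [← Monotone.measure_iUnion, ← inter_iUnion, iUnion_closedBall_nat, inter_univ]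
    exact fun m n hmn => inter_subset_inter_right _
      (closedBall_subset_closedBall (by exact_mod_cast hmn))
  rw [h4]
  exact Measurable.iSup fun n => (Measure.measurable_coe hA).comp (h3 n)

end

end Pool.Agent.Lib.APPS
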