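import Pool.Agent.Lib.APPS.Blue6
import Pool.Agent.Lib.APPS.B_BR0

/-!
Block EX6: changing the radial part keeps the approximating measures Cauchy in probability.
-/

namespace Pool.Agent.Lib.APPS

open MeasureTheory ProbabilityTheory Filter Topology Set Metric
open scoped NNReal ENNReal CompactlySupported BoundedContinuousFunction RealInnerProductSpace

noncomputable section

namespace EX6

theorem cauP_of_tendsto {Ω : Type} [MeasurableSpace Ω] {P : Measure Ω} {a : ℕ → Ω → ℝ}
    {b : Ω → ℝ} (h : TendstoInMeasure P a atTop b) : CauP P a := by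
  intro η hη
  have h2 := tendstoInMeasure_iff_dist.1 h (η / 2) (by positivity)
  have h3 : (0 : ℝ≥0∞) < ENNReal.ofReal (η / 2) := ENNReal.ofReal_pos.2 (by positivity)
  obtain ⟨k0, hk0⟩ := eventually_atTop.1 (h2.eventually (gt_mem_nhds h3))
  refine ⟨k0, fun k hk k' hk' => ?_⟩
  calc P {ω | η < |a k ω - a k' ω|}
      ≤ P ({x | η / 2 ≤ dist (a k x) (b x)} ∪ {x | η / 2 ≤ dist (a k' x) (b x)}) := by
        refine measure_mono fun ω hω => ?_
        by_contra hc
        simp only [mem_union, mem_ofPred_eq, not_or, not_le, Real.dist_eq] at hc hω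
        obtain ⟨c1, c2⟩ := hc
        rw [abs_lt] at c1 c2
        have : |a k ω - a k' ω| < η := by rw [abs_lt]; constructor <;> linarith
        linarith
    _ ≤ P {x | η / 2 ≤ dist (a k x) (b x)} + P {x | η / 2 ≤ dist (a k' x) (b x)} :=
        measure_union_le _ _
    _ ≤ ENNReal.ofReal (η / 2) + ENNReal.ofReal (η / 2) :=
        add_le_add (hk0 k hk).le (hk0 k' hk').le
    _ = ENNReal.ofReal η := by
        rw [← ENNReal.ofReal_add (by positivity) (by positivity)]; congr 1; ring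

theorem exp_close' {γ : ℝ} {g z R : ℝ → ℝ} {r : ℕ → ℝ → ℝ} {T G : ℝ}
    (hg : ∀ t, g t = Real.exp (γ * (R t - z t))) (hG : ∀ t, |t| ≤ T → |g t| ≤ G)
    (hr : ∀ ε > 0, ∀ᶠ k in atTop, ∀ t, |t| ≤ T → |r k t - R t| ≤ ε) :
    ∀ ε > 0, ∀ᶠ k in atTop, ∀ t, |t| ≤ T → |Real.exp (γ * (r k t - z t)) - g t| ≤ ε := by
  have h := BR0.exp_close (γ := -γ) (g := g) (z := z) (R := R) (r := r) (T := T) (G := G)
    (fun t => by rw [hg]; congr 1; ring) hG hr
  intro ε hε
  filter_upwards [h ε hε] with k hk t ht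
  have e : γ * (r k t - z t) = -γ * (z t - r k t) := by ring
  rw [e]; exact hk t ht

end EX6

open BR0 EX6 in
theorem blk_EX6 (hC : St_CYL) (hB : St_BM2) : St_EX6 := by
  intro γ hγ θ hθ Ω _ P β L ν hbp hL hD hν hlim
  have hB4 := hB.2.2.2 Ω P β hbp
  have : IsProbabilityMeasure P := hB4.1
  have : SigmaFinite cylVol := hC.2.2.2.2.2.2.2.2.2.2.2.1
  have := hθ.prob
  have hRj : Measurable fun p : Ω × ℝ => radP (aa γ) (β p.1) p.2 := hB4.2.2.2.2.2.1 (aa γ)
  have hRm : ∀ ω, Measurable (radP (aa γ) (β ω)) := fun ω =>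
    hRj.comp (measurable_const.prodMk measurable_id)
  have ha : 0 < aa γ := by
    have h0 := hγ.1; have h2 := hγ.2
    have : aa γ = (4 - γ ^ 2) / (2 * γ) := by unfold aa QQ; field_simp; ring
    rw [this]; apply div_pos <;> nlinarith
  have hRc := hB4.2.2.2.2.2.2.2.2.1 (aa γ) ha
  have hZc : ∀ᵐ ω ∂P, Continuous fun t => twoS (β ω) t - QQ γ * t := by
    filter_upwards [hB4.2.2.2.2.2.2.2.1] with ω hω
    exact hω.1.sub (by fun_prop)
  have hx : ∀ k w ω, xR γ θ β L k w ω = Real.exp (γ * (rs θ (radP (aa γ) (β ω)) k w.1 -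
      (twoS (β ω) w.1 - QQ γ * w.1))) * xZ γ β L k w ω := by
    intro k w ω
    unfold xR xZ
    rw [moll_int (hRm ω), mul_left_comm, ← Real.exp_add]
    congr 2; ring
  have hrs : ∀ k, Measurable fun q : Cyl × Ω => rs θ (radP (aa γ) (β q.2)) k q.1.1 := by
    intro k
    have h1 : Measurable fun p : (Cyl × Ω) × ℂ =>
        radP (aa γ) (β p.1.2) (p.1.1.1 + (1 / 2 : ℝ) ^ k * p.2.re) :=
      hRj.comp ((measurable_snd.comp measurable_fst).prodMk (by fun_prop))
    exact (StronglyMeasurable.integral_prod_right' h1.stronglyMeasurable).measurable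
  have hxm : ∀ k, Measurable fun q : Cyl × Ω => xR γ θ β L k q.1 q.2 := by
    intro k
    have h1 : (fun q : Cyl × Ω => xR γ θ β L k q.1 q.2) = fun q => ((1 / 2 : ℝ) ^ k) ^ (γ ^ 2 / 2) *
        Real.exp (γ * (rs θ (radP (aa γ) (β q.2)) k q.1.1 + L (q.1, k) q.2)) := by
      ext q; unfold xR; rw [moll_int (hRm q.2)]
    rw [h1]
    exact (Real.measurable_exp.comp (((hrs k).add (hL k)).const_mul γ)).const_mul _
  have hzm : ∀ k ω, Measurable fun w => xZ γ β L k w ω := fun k ω =>
    (hD.meas k).comp (measurable_id.prodMk measurable_const)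
  refine ⟨⟨hxm, fun k w ω => by unfold xR; positivity, fun k f => ?_⟩, fun f => ?_⟩
  · obtain ⟨T, hT⟩ := (hC.2.2.2.2.2.2.2.2.2.2.2.2.1 f).2.2.2
    let fa : C_c(Cyl, ℝ) := ⟨⟨fun w => |f w|, f.continuous.abs⟩,
      f.hasCompactSupport.comp_left (g := fun x : ℝ => |x|) abs_zero⟩
    filter_upwards [hD.int k fa, hRc, hZc] with ω hI hr hz
    obtain ⟨C, hC'⟩ := rs_bd hθ hr T k
    obtain ⟨C2, hC2⟩ := (isCompact_Icc (a := -T) (b := T)).exists_bound_of_continuousOn
      hz.continuousOn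
    have h2 := (integ_mul (a := fun w : Cyl => Real.exp (γ * (rs θ (radP (aa γ) (β ω)) k w.1 -
      (twoS (β ω) w.1 - QQ γ * w.1)))) (B := Real.exp (|γ| * (C + C2)))
      (f := f) f.continuous.measurable (hzm k ω)
      (Real.measurable_exp.comp ((((rs_meas hr.measurable k).comp measurable_fst).sub
        (hz.measurable.comp measurable_fst)).const_mul γ))
      (fun w => hD.nonneg k w ω) hI fun w hw => by
        rw [abs_of_nonneg (Real.exp_pos _).le]
        refine Real.exp_le_exp.2 ((le_abs_self _).trans ?_)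
        rw [abs_mul]
        refine mul_le_mul_of_nonneg_left ((abs_sub _ _).trans ?_) (abs_nonneg _)
        exact add_le_add (hC' _ (hT w hw)) (hC2 _ (abs_le.1 (hT w hw)))).1
    refine h2.congr (ae_of_all _ fun w => ?_)
    simp only [hx]; ring
  have hIk : ∀ k, Measurable fun ω => ∫ w, f w * xR γ θ β L k w ω ∂cylVol := by
    intro k
    have h3 : Measurable fun p : Ω × Cyl => f p.2 * xR γ θ β L k p.2 p.1 :=
      (f.continuous.measurable.comp measurable_snd).mul ((hxm k).comp measurable_swap)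
    exact (StronglyMeasurable.integral_prod_right' h3.stronglyMeasurable).measurable
  refine cauP_of_tendsto (b := fun ω => ∫ w, Real.exp (γ * (radP (aa γ) (β ω) w.1 -
    (twoS (β ω) w.1 - QQ γ * w.1))) * f w ∂ν ω) ?_
  rw [exists_seq_tendstoInMeasure_atTop_iff fun k => (hIk k).aestronglyMeasurable]
  intro ns hns
  obtain ⟨T, hT⟩ := (hC.2.2.2.2.2.2.2.2.2.2.2.2.1 f).2.2.2
  obtain ⟨q, hqc, hqd⟩ := dense_fam T
  let fa : C_c(Cyl, ℝ) := ⟨⟨fun w => |f w|, f.continuous.abs⟩,
    f.hasCompactSupport.comp_left (g := fun x : ℝ => |x|) abs_zero⟩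
  let fq : ℕ → C_c(Cyl, ℝ) := fun j => ⟨⟨fun w => q j w.1 * f w,
    ((hqc j).comp continuous_fst).mul f.continuous⟩, f.hasCompactSupport.mul_left⟩
  let h : ℕ → C_c(Cyl, ℝ) := fun j => Nat.casesOn j fa fq
  obtain ⟨ns', hns', hae⟩ := diag fun j => (hlim (h j)).comp hns.tendsto_atTop
  refine ⟨ns', hns', ?_⟩
  have hint : ∀ᵐ ω ∂P, ∀ k, Integrable (fun w => fa w * xZ γ β L k w ω) cylVol :=
    ae_all_iff.2 fun k => hD.int k fa
  filter_upwards [hae, hint, hZc, hRc] with ω hω hI hz hr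
  have := hν ω
  set R := radP (aa γ) (β ω) with hRdef
  set Z : ℝ → ℝ := fun t => twoS (β ω) t - QQ γ * t with hZdef
  have hrm : ∀ k, Measurable fun w : Cyl => rs θ R k w.1 := fun k =>
    (rs_meas hr.measurable k).comp measurable_fst
  have hfm : Measurable f := f.continuous.measurable
  have hgc : Continuous fun t => Real.exp (γ * (R t - Z t)) := by fun_prop
  obtain ⟨G, hG⟩ := (isCompact_Icc (a := -T) (b := T)).exists_bound_of_continuousOn
    hgc.continuousOn
  have hG' : ∀ t, |t| ≤ T → |Real.exp (γ * (R t - Z t))| ≤ G := fun t ht =>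
    hG t (abs_le.1 ht)
  have hcl := exp_close' (γ := γ) (z := Z) (fun t => rfl) hG' (rs_close hθ hr T)
  have key := det (m := cylVol) (μ := ν ω) (f := f)
    (g := fun w => Real.exp (γ * (R w.1 - Z w.1)))
    (ρ := fun i w => xZ γ β L (ns (ns' i)) w ω)
    (e := fun i w => Real.exp (γ * (rs θ R (ns (ns' i)) w.1 - Z w.1)))
    (q := fun j w => q j w.1) (G := G) hfm (hgc.measurable.comp measurable_fst)
    (fun i => hzm _ ω)
    (fun i => Real.measurable_exp.comp
      (((hrm _).sub (hz.measurable.comp measurable_fst)).const_mul γ))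
    (fun j => (hqc j).measurable.comp measurable_fst) (fun i w => hD.nonneg _ w ω)
    (fun i => hI _)
    (f.continuous.integrable_of_hasCompactSupport f.hasCompactSupport)
    (fun w hw => hG' _ (hT w hw))
    (fun ε hε => ((hns.comp hns').tendsto_atTop.eventually (hcl ε hε)).mono
      fun i hi w hw => hi _ (hT w hw))
    (fun ε hε => (hqd _ hgc ε hε).imp fun j hj w hw => hj _ (hT w hw))
    (fun j => hω (j + 1)) (hω 0)
  refine key.congr fun i => ?_
  congr 1; ext w
  rw [hx]; ring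

end

end Pool.Agent.Lib.APPS
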