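import Pool.Agent.Lib.APPS.Blue6

/-!
Block EXM: an admissible metric, a mollifier and a Gaussian field exist.
-/

namespace Pool.Agent.Lib.APPS

open MeasureTheory ProbabilityTheory Filter Topology Set Metric
open scoped NNReal ENNReal RealInnerProductSpace Classical

noncomputable section

namespace EXM

def chi (s : ℝ) : ℝ := Real.smoothTransition (s - 9)

def sg (z : ℂ) : ℝ := -(chi (‖z‖ ^ 2) * Real.log (‖z‖ ^ 2))

def tu (w : ℂ) : ℝ := -((1 - chi ((‖w‖ ^ 2)⁻¹)) * Real.log (‖w‖ ^ 2))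

theorem chi_sm : ContDiff ℝ ((⊤ : ℕ∞) : WithTop ℕ∞) chi :=
  Real.smoothTransition.contDiff.comp (contDiff_id.sub contDiff_const)

theorem nsq : ContDiff ℝ ((⊤ : ℕ∞) : WithTop ℕ∞) fun z : ℂ => ‖z‖ ^ 2 := contDiff_norm_sq ℝ

theorem sg_zero {z : ℂ} (h : ‖z‖ < 3) : sg z = 0 := by
  have : chi (‖z‖ ^ 2) = 0 :=
    Real.smoothTransition.zero_of_nonpos (by nlinarith [norm_nonneg z])
  simp [sg, this]

theorem tu_zero {w : ℂ} (h : ‖w‖ < 1 / 4) : tu w = 0 := by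
  rcases eq_or_ne w 0 with rfl | h0
  · simp [tu]
  have hp : 0 < ‖w‖ := norm_pos_iff.2 h0
  have h1 : (16 : ℝ) ≤ (‖w‖ ^ 2)⁻¹ := by
    rw [le_inv_comm₀ (by norm_num) (by positivity)]
    nlinarith
  have : chi ((‖w‖ ^ 2)⁻¹) = 1 := Real.smoothTransition.one_of_one_le (by linarith)
  simp [tu, this]

theorem sg_sm : ContDiff ℝ ((⊤ : ℕ∞) : WithTop ℕ∞) sg := by
  rw [contDiff_iff_contDiffAt]
  intro z
  rcases eq_or_ne z 0 with rfl | h0
  · refine (contDiffAt_const (c := (0 : ℝ))).congr_of_eventuallyEq ?_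
    filter_upwards [ball_mem_nhds (0 : ℂ) (by norm_num : (0 : ℝ) < 3)] with z hz
    exact sg_zero (by simpa using hz)
  · have hp : ‖z‖ ^ 2 ≠ 0 := pow_ne_zero _ (norm_ne_zero_iff.2 h0)
    exact ((chi_sm.comp nsq).contDiffAt.mul (nsq.contDiffAt.log hp)).neg

theorem tu_sm : ContDiff ℝ ((⊤ : ℕ∞) : WithTop ℕ∞) tu := by
  rw [contDiff_iff_contDiffAt]
  intro z
  rcases eq_or_ne z 0 with rfl | h0
  · refine (contDiffAt_const (c := (0 : ℝ))).congr_of_eventuallyEq ?_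
    filter_upwards [ball_mem_nhds (0 : ℂ) (by norm_num : (0 : ℝ) < 1 / 4)] with z hz
    exact tu_zero (by simpa using hz)
  · have hp : ‖z‖ ^ 2 ≠ 0 := pow_ne_zero _ (norm_ne_zero_iff.2 h0)
    exact ((contDiffAt_const.sub (chi_sm.contDiffAt.comp z (nsq.contDiffAt.inv hp))).mul
      (nsq.contDiffAt.log hp)).neg

theorem box_sub : box [] ⊆ ball (0 : ℂ) 3 := by
  rintro z ⟨⟨h1, h2⟩, h3, h4⟩
  simp only [corner, side, Complex.zero_re, Complex.zero_im, List.length_nil, pow_zero,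
    zero_add] at h1 h2 h3 h4
  rw [mem_ball_zero_iff]
  have := Complex.norm_le_abs_re_add_abs_im z
  rw [abs_of_nonneg h1, abs_of_nonneg h3] at this
  linarith

def met : Met where
  σ := sg
  τ := tu
  hσ := sg_sm
  hτ := tu_sm
  inf w _ := by
    simp only [tu, sg, norm_inv, inv_pow, Real.log_inv, Real.log_pow]
    push_cast
    ring
  flat := by
    filter_upwards [isOpen_ball.mem_nhdsSet.2 box_sub] with z hz
    exact sg_zero (by simpa using hz)

end EXM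

theorem blk_EXM (hG3 : St_G3) (hFE : St_FE) (hMOD : St_MOD) (hMG : St_MG3) : St_EXM := by
  refine ⟨⟨EXM.met⟩, ?_, fun g => ?_⟩
  · obtain ⟨⟨h1, h2⟩, h3, -⟩ := hFE.2.2.2.2.2.2.2.2.1 0 1 one_pos
    exact ⟨h2, h1.noAtoms, measure_mono_null (compl_subset_compl.2 sphere_subset_closedBall) h3,
      h1.energy⟩
  · obtain ⟨M, hM⟩ := hMG g
    have h := (hMOD M).2.2.2.2.2.2.1 [] hM.sub
    refine ⟨Om, inferInstance, gm, fun S ω => ω (M.eS (S ++ [])), hG3.2.1 Dy _ _ fun S S' => ?_⟩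
    rw [h S S', hM.cov]
    simp

end

end Pool.Agent.Lib.APPS
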