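import Pool.Agent.Lib.APPS.Blue6

/-!
Block EXQ: existence of the quantum sphere data.
-/

namespace Pool.Agent.Lib.APPS

open MeasureTheory ProbabilityTheory Filter Topology Set Metric
open scoped NNReal ENNReal CompactlySupported BoundedContinuousFunction RealInnerProductSpace
  Classical

noncomputable section

theorem blk_EXQ (hG1 : St_G1) (hM0 : St_M0) (h3 : St_EX3) (h4 : St_EX4) (h5 : St_EX5)
    (h6 : St_EX6) : St_EXQ := by
  intro γ hγ θ hθ
  obtain ⟨M⟩ := hM0
  obtain ⟨β, L, hpre, hcg, hind⟩ := h3 θ hθ M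
  have hP : IsProbabilityMeasure gm := hG1.1
  obtain ⟨hd, hc⟩ := h4 γ hγ θ hθ M β L hpre
  obtain ⟨ν, -, hνf, hν⟩ := h5 Om gm (xZ γ β L) hd hc
  obtain ⟨hd', hc'⟩ := h6 γ hγ θ hθ Om gm β L ν hpre.bp hpre.joint hd hνf hν
  obtain ⟨μ, hμm, hμf, hμ⟩ := h5 Om gm (xR γ θ β L) hd' hc'
  refine ⟨Om, inferInstance, gm, fun t ω => (β ω).1 t, fun t ω => (β ω).2 t, L, μ, ?_⟩
  exact
    { bm₁ := hpre.bp.bm₁
      bm₂ := hpre.bp.bm₂
      meas₁ := fun t => (measurable_pi_apply t).comp (measurable_fst.comp hpre.bp.meas)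
      meas₂ := fun t => (measurable_pi_apply t).comp (measurable_snd.comp hpre.bp.meas)
      cont₁ := hpre.bp.cont₁
      cont₂ := hpre.bp.cont₂
      lat := hcg
      joint := hpre.joint
      ind₁ := hpre.bp.ind
      ind₂ := hind
      measμ := hμm
      fin := hμf
      lim := hμ }

end

end Pool.Agent.Lib.APPS
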