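import Pool.Agent.Lib.APPS.B_FM
import Pool.Agent.Lib.APPS.B_FAR

/-!
Block RUN, analytic helpers.
-/

namespace Pool.Agent.Lib.APPS

open MeasureTheory ProbabilityTheory Filter Topology Set Metric
open scoped NNReal ENNReal RealInnerProductSpace Classical

noncomputable section

namespace RUN

open FAR (eE_add eE_mono eE_zero eE_ne_top eE_rpow meas_eE meas_fam ind_mono markov)

theorem eE_ne_zero (s : ℝ) : eE s ≠ 0 := by
  unfold eE
  exact (ENNReal.ofReal_pos.2 (Real.exp_pos _)).ne'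

theorem ind_le_one (p : Prop) : ind p ≤ 1 := by
  unfold ind
  split_ifs <;> simp

theorem ofReal_le_eE (K : ℝ) : ∃ L : ℝ, ∀ x, ENNReal.ofReal (K * Real.exp x) ≤ eE (L + x) := by
  refine ⟨K, fun x => ?_⟩
  unfold eE
  refine ENNReal.ofReal_le_ofReal ?_
  rw [Real.exp_add]
  have := Real.add_one_le_exp K
  exact mul_le_mul_of_nonneg_right (by linarith) (Real.exp_pos _).le

theorem ofReal_le_eE' (K : ℝ) : ENNReal.ofReal K ≤ eE K := by
  unfold eE
  refine ENNReal.ofReal_le_ofReal ?_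
  have := Real.add_one_le_exp K
  linarith

theorem le_eE_of_ne {X : ℝ≥0∞} (h : X ≠ ∞) : ∃ L : ℝ, X ≤ eE L :=
  ⟨X.toReal, (ENNReal.ofReal_toReal h).symm.le.trans (ofReal_le_eE' _)⟩

theorem two_le_eE : (2 : ℝ≥0∞) ≤ eE 1 := by
  unfold eE
  rw [← ENNReal.ofReal_ofNat]
  refine ENNReal.ofReal_le_ofReal ?_
  have := Real.add_one_le_exp 1
  linarith

theorem eE_add_le {a b c : ℝ} (ha : a ≤ c) (hb : b ≤ c) : eE a + eE b ≤ eE (1 + c) := by
  calc eE a + eE b ≤ eE c + eE c := add_le_add (eE_mono ha) (eE_mono hb)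
    _ = 2 * eE c := (two_mul _).symm
    _ ≤ eE 1 * eE c := mul_le_mul_left two_le_eE _
    _ = _ := (eE_add _ _).symm

theorem young (G E : ℝ≥0∞) (l r : ℝ) (hr : 1 ≤ r) (hE : E ≤ 1) :
    G * E ≤ eE l * E + eE ((1 - r) * l) * G ^ r := by
  rcases le_total G (eE l) with h | h
  · exact (mul_le_mul_left h _).trans le_self_add
  · refine le_trans ?_ le_add_self
    have h1 : G * E ≤ G := by simpa using mul_le_mul_right hE G
    refine h1.trans ?_
    have h2 : eE l ^ (r - 1) ≤ G ^ (r - 1) := ENNReal.rpow_le_rpow h (by linarith)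
    have h3 : G ^ r = G ^ (r - 1) * G := by
      have := ENNReal.rpow_add_of_nonneg (x := G) (r - 1) 1 (by linarith) zero_le_one
      rw [sub_add_cancel, ENNReal.rpow_one] at this
      exact this
    calc G = eE ((1 - r) * l) * (eE l ^ (r - 1) * G) := by
          rw [eE_rpow, ← mul_assoc, ← eE_add, show (1 - r) * l + l * (r - 1) = 0 by ring, eE_zero,
            one_mul]
      _ ≤ eE ((1 - r) * l) * (G ^ (r - 1) * G) := by gcongr
      _ = _ := by rw [h3]

theorem pigeon (s : Finset Dy) (hs : s.card ≤ 361) (N : Dy → ℝ≥0∞) {n : ℝ} (hn : 0 < n) :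
    ind (ENNReal.ofReal n ≤ ∑ V ∈ s, N V) ≤ ∑ V ∈ s, ind (ENNReal.ofReal (n / 400) ≤ N V) := by
  by_cases h : ∃ V ∈ s, ENNReal.ofReal (n / 400) ≤ N V
  · obtain ⟨V, hV, h⟩ := h
    refine (ind_le_one _).trans (le_trans ?_ (Finset.single_le_sum
      (f := fun V => ind (ENNReal.ofReal (n / 400) ≤ N V)) (fun _ _ => zero_le) hV))
    simp [ind, h]
  · push Not at h
    have h1 : ∑ V ∈ s, N V ≤ ENNReal.ofReal (361 * (n / 400)) := by
      calc ∑ V ∈ s, N V ≤ s.card • ENNReal.ofReal (n / 400) :=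
            Finset.sum_le_card_nsmul _ _ _ fun V hV => (h V hV).le
        _ ≤ 361 • ENNReal.ofReal (n / 400) := nsmul_le_nsmul_left zero_le hs
        _ = _ := by
            rw [nsmul_eq_mul, ENNReal.ofReal_mul (by norm_num)]
            norm_num
    have h2 : ENNReal.ofReal (361 * (n / 400)) < ENNReal.ofReal n :=
      (ENNReal.ofReal_lt_ofReal_iff hn).2 (by linarith)
    have h3 : ¬ENNReal.ofReal n ≤ ∑ V ∈ s, N V := not_le.2 (h1.trans_lt h2)
    simp [ind, h3]

/-- the local configuration -/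
def cfg (Q lam : ℝ) (z : ℂ) (x : Dy → ℝ) (y : ℝ) : Dy → ℝ :=
  fun A => drift Q x y A + lam * ins 1 z A

theorem meas_cfg {α : Type} [MeasurableSpace α] (Q lam : ℝ) (z : ℂ) {x : α → Dy → ℝ} {y : α → ℝ}
    (hx : Measurable x) (hy : Measurable y) : Measurable fun a => cfg Q lam z (x a) (y a) := by
  refine measurable_pi_lambda _ fun A => ?_
  unfold cfg drift
  exact ((((measurable_pi_apply A).comp hx).add hy).sub measurable_const).add measurable_const

/-- local estimate -/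
theorem loc (hD : St_G1D) (hT3 : St_T3) (γ q β lam μ K0 : ℝ) (hq : 0 < q) (hβ : 0 < β)
    (hβq : β < γ * q) : ∃ K : ℝ, ∀ (w : Dy → HH) (D : HH) (z : ℂ) (y m : ℝ), ‖D‖ ^ 2 ≤ 2 →
    (∫⁻ ω, nB (cfg (QQ γ) lam z (fun S => ω (w S)) y) ^ q ∂gm ≤
      ENNReal.ofReal (K0 * Real.exp (γ * q * y))) →
    ∫⁻ ω, eE (μ * |ω D|) * ind (eE (γ * m) ≤ nB (cfg (QQ γ) lam z (fun S => ω (w S)) y)) ∂gm ≤
      eE (K + min 0 (β * (y - m))) := by
  obtain ⟨L, hL⟩ := ofReal_le_eE K0
  set ρ : ℝ := γ * q / (γ * q - β) with hρ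
  have hd : 0 < γ * q - β := by linarith
  have hρ1 : 1 ≤ ρ := by rw [hρ, le_div_iff₀ hd]; linarith
  have hρ2 : (1 - ρ) * -(γ * q - β) = β := by rw [hρ]; field_simp; ring
  have hZ : ∀ (D : HH) (t : ℝ), ‖D‖ ^ 2 ≤ 2 → ∫⁻ ω, eE (t * |ω D|) ∂gm ≤ eE (1 + t ^ 2) := by
    intro D t hDn
    refine (hD.2.2.2.2.2.2 D t).trans ?_
    rw [eE_add]
    refine mul_le_mul' two_le_eE (eE_mono ?_)
    nlinarith [sq_nonneg t]
  refine ⟨1 + max (max L (1 + (μ * ρ) ^ 2)) (μ ^ 2), fun w D z y m hDn hK => ?_⟩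
  rcases le_total 0 (β * (y - m)) with h | h
  · rw [min_eq_left h, add_zero]
    calc _ ≤ ∫⁻ ω, eE (μ * |ω D|) ∂gm := by
          refine lintegral_mono fun ω => ?_
          simpa using mul_le_mul_right (ind_le_one _) (eE (μ * |ω D|))
      _ ≤ eE (1 + μ ^ 2) := hZ D μ hDn
      _ ≤ _ := eE_mono (by gcongr; exact le_max_right _ _)
  · rw [min_eq_right h]
    have hN : Measurable fun ω : Om => nB (cfg (QQ γ) lam z (fun S => ω (w S)) y) ^ q :=
      (hT3.1.comp (meas_cfg _ _ _ (meas_fam w) measurable_const)).pow_const q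
    have h1 : ∀ ω : Om, eE (μ * |ω D|) *
        ind (eE (γ * m) ≤ nB (cfg (QQ γ) lam z (fun S => ω (w S)) y)) ≤
        eE (-(γ * q - β) * (y - m) - γ * q * m) *
          nB (cfg (QQ γ) lam z (fun S => ω (w S)) y) ^ q +
        eE (β * (y - m)) * eE (μ * ρ * |ω D|) := by
      intro ω
      refine (young _ _ (-(γ * q - β) * (y - m)) ρ hρ1 (ind_le_one _)).trans (add_le_add ?_ ?_)
      · have h2 := markov (N := nB (cfg (QQ γ) lam z (fun S => ω (w S)) y))
          (Real.exp_pos (γ * m)) hq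
        rw [← Real.exp_mul] at h2
        calc _ ≤ eE (-(γ * q - β) * (y - m)) * (eE (γ * m * -q) *
              nB (cfg (QQ γ) lam z (fun S => ω (w S)) y) ^ q) := mul_le_mul_right h2 _
          _ = _ := by rw [← mul_assoc, ← eE_add]; congr 2; ring
      · rw [eE_rpow, ← mul_assoc, hρ2]
        refine le_of_eq ?_
        congr 2
        ring
    calc _ ≤ ∫⁻ ω, eE (-(γ * q - β) * (y - m) - γ * q * m) *
          nB (cfg (QQ γ) lam z (fun S => ω (w S)) y) ^ q +
          eE (β * (y - m)) * eE (μ * ρ * |ω D|) ∂gm := lintegral_mono h1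
      _ = eE (-(γ * q - β) * (y - m) - γ * q * m) *
          ∫⁻ ω, nB (cfg (QQ γ) lam z (fun S => ω (w S)) y) ^ q ∂gm +
          eE (β * (y - m)) * ∫⁻ ω, eE (μ * ρ * |ω D|) ∂gm := by
          rw [lintegral_add_left (hN.const_mul _), lintegral_const_mul' _ _ (eE_ne_top _),
            lintegral_const_mul' _ _ (eE_ne_top _)]
      _ ≤ eE (-(γ * q - β) * (y - m) - γ * q * m) * eE (L + γ * q * y) +
          eE (β * (y - m)) * eE (1 + (μ * ρ) ^ 2) :=
          add_le_add (mul_le_mul_right (hK.trans (hL _)) _) (mul_le_mul_right (hZ D _ hDn) _)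
      _ ≤ _ := by
          rw [← eE_add, ← eE_add, add_assoc]
          have e1 : L ≤ max (max L (1 + (μ * ρ) ^ 2)) (μ ^ 2) :=
            (le_max_left _ _).trans (le_max_left _ _)
          have e2 : 1 + (μ * ρ) ^ 2 ≤ max (max L (1 + (μ * ρ) ^ 2)) (μ ^ 2) :=
            (le_max_right _ _).trans (le_max_left _ _)
          refine eE_add_le ?_ ?_ <;> nlinarith

/-- sum over all levels of a one dimensional Gaussian expectation -/
theorem levsum (hD : St_G1D) (hR : St_RW1) (hT : St_T1) {γ : ℝ} (hγ : γ ∈ Ioo (0 : ℝ) 2) :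
    ∃ K : ℝ, ∀ (C0 u : ℝ) (i0 : ℕ) (b : Dy → HH) (g : ℝ → ℝ≥0∞), Measurable g →
    1 ≤ C0 + i0 * l2 →
    (∀ R, i0 + 4 ≤ R.length → ‖b R‖ ^ 2 = C0 + (R.length - 4 : ℕ) * l2) →
    ∑' R : Dy, ind (i0 + 4 ≤ R.length) *
      ∫⁻ ω, eE (γ * (ω (b R) + u - QQ γ * (R.length - 4 : ℕ) * l2)) *
        g (ω (b R) + u - QQ γ * (R.length - 4 : ℕ) * l2) ∂gm ≤
      eE (K + γ * u + γ ^ 2 * C0 / 2) *
        ∫⁻ t, g t * eE (min 0 (-(2 * aa γ) * (t - u - QQ γ * C0))) := by
  obtain ⟨C, hC⟩ := hR.1 (aa γ) (hR.2.2 γ hγ).1 1 one_pos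
  obtain ⟨L, hL⟩ := ofReal_le_eE C
  have hl := FM.l2_pos
  refine ⟨256 + L, fun C0 u i0 b g hg hs hb => ?_⟩
  set F : ℕ → ℝ≥0∞ := fun j => ∫⁻ t, ENNReal.ofReal (pd (C0 + j * l2) (t - u + QQ γ * j * l2)) *
    (eE (γ * t) * g t) with hF
  have h1 : ∀ R : Dy, ind (i0 + 4 ≤ R.length) *
      ∫⁻ ω, eE (γ * (ω (b R) + u - QQ γ * (R.length - 4 : ℕ) * l2)) *
        g (ω (b R) + u - QQ γ * (R.length - 4 : ℕ) * l2) ∂gm =
      ind (i0 + 4 ≤ R.length) * F (R.length - 4) := by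
    intro R
    by_cases h : i0 + 4 ≤ R.length
    · congr 1
      set j := R.length - 4 with hj
      have hij : (i0 : ℝ) ≤ j := by exact_mod_cast (by omega : i0 ≤ j)
      have hb0 : b R ≠ 0 := by
        intro h0
        have := hb R h
        rw [h0, norm_zero] at this
        nlinarith
      have hf : Measurable fun t : ℝ => eE (γ * (t + u - QQ γ * j * l2)) *
          g (t + u - QQ γ * j * l2) :=
        (meas_eE.comp (by fun_prop)).mul (hg.comp (by fun_prop))
      rw [hD.2.2.2.1 (b R) _ hb0 hf, hb R h, hF,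
        ← lintegral_add_right_eq_self _ (-u + QQ γ * j * l2)]
      refine lintegral_congr fun t => ?_
      have e1 : t + (-u + QQ γ * j * l2) + u - QQ γ * j * l2 = t := by ring
      have e2 : t + (-u + QQ γ * j * l2) = t - u + QQ γ * j * l2 := by ring
      rw [e1, e2]
    · simp [ind, h]
  simp_rw [h1]
  rw [FM.sum_len hT (fun k => ind (i0 + 4 ≤ k) * F (k - 4))]
  have h2 : ∑' k : ℕ, 4 ^ k * (ind (i0 + 4 ≤ k) * F (k - 4)) =
      ∑' k : ℕ, 4 ^ (k + (i0 + 4)) * F (k + i0) := by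
    rw [← ENNReal.summable.sum_add_tsum_nat_add' (k := i0 + 4), Finset.sum_eq_zero, zero_add]
    · refine tsum_congr fun k => ?_
      have e1 : k + (i0 + 4) - 4 = k + i0 := by omega
      simp [ind, e1]
    · intro k hk
      have : ¬i0 + 4 ≤ k := by simpa using hk
      simp [ind, this]
  rw [h2]
  have h3 : ∀ k : ℕ, 4 ^ (k + (i0 + 4)) * F (k + i0) =
      ∫⁻ t, 256 * eE (γ * u + γ ^ 2 * C0 / 2) * g t * ENNReal.ofReal
        (pd (C0 + i0 * l2 + k * l2) (t - u - γ * C0 + aa γ * i0 * l2 + aa γ * k * l2)) := by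
    intro k
    rw [hF, ← lintegral_const_mul' _ _ (by simp)]
    refine lintegral_congr fun t => ?_
    have e1 := (hR.2.1 γ hγ C0 t u (k + i0)).1
    have e2 : (4 : ℝ≥0∞) ^ (k + (i0 + 4)) = 256 * ENNReal.ofReal (4 ^ (k + i0)) := by
      rw [ENNReal.ofReal_pow (by norm_num), ← add_assoc, pow_add]
      norm_num [mul_comm]
    have e3 : C0 + ((k + i0 : ℕ) : ℝ) * l2 = C0 + i0 * l2 + k * l2 := by push_cast; ring
    have e4 : t - u - γ * C0 + aa γ * ((k + i0 : ℕ) : ℝ) * l2 =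
        t - u - γ * C0 + aa γ * i0 * l2 + aa γ * k * l2 := by push_cast; ring
    have e5 : eE (γ * (u - t) + γ ^ 2 * C0 / 2) * eE (γ * t) = eE (γ * u + γ ^ 2 * C0 / 2) := by
      rw [← eE_add]; congr 1; ring
    rw [e2, mul_assoc, ← mul_assoc (ENNReal.ofReal _), ← ENNReal.ofReal_mul (by positivity), e1,
      ENNReal.ofReal_mul (Real.exp_pos _).le, e3, e4, ← e5]
    change 256 * (eE _ * _ * _) = _
    ring
  simp_rw [h3]
  rw [← lintegral_tsum, ← lintegral_const_mul' _ _ (eE_ne_top _)]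
  · refine lintegral_mono fun t => ?_
    rw [ENNReal.tsum_mul_left]
    have e1 := (hC _ hs (t - u - γ * C0 + aa γ * i0 * l2)).1
    have e2 : min 1 (Real.exp (-(2 * aa γ) * (t - u - γ * C0 + aa γ * i0 * l2 -
        aa γ * (C0 + i0 * l2)))) = Real.exp (min 0 (-(2 * aa γ) * (t - u - QQ γ * C0))) := by
      rw [Real.exp_monotone.map_min, Real.exp_zero]
      congr 2
      unfold aa
      ring
    rw [e2] at e1
    have e3 : (256 : ℝ≥0∞) ≤ eE 256 := by
      have := ofReal_le_eE' 256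
      rwa [ENNReal.ofReal_ofNat] at this
    calc _ ≤ eE 256 * eE (γ * u + γ ^ 2 * C0 / 2) * g t *
          eE (L + min 0 (-(2 * aa γ) * (t - u - QQ γ * C0))) := by
          gcongr
          exact e1.trans (hL _)
      _ = _ := by
          rw [show 256 + L + γ * u + γ ^ 2 * C0 / 2 = 256 + (γ * u + γ ^ 2 * C0 / 2) + L by ring,
            eE_add, eE_add, eE_add (256 + _), eE_add 256, eE_add (γ * u)]
          ring
  · intro k
    refine Measurable.aemeasurable ?_
    refine (measurable_const.mul hg).mul ?_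
    exact ENNReal.measurable_ofReal.comp ((FM.meas_pd _).comp (by fun_prop))

/-- the one dimensional exponent inequality -/
theorem expo (κ β a k u m t : ℝ) (hκ : 0 < κ) (ha : 0 < a) (hk : 0 < k) (hk1 : k ≤ κ / 2)
    (hk2 : k ≤ β - 2 * a) (hu : 0 ≤ u) (hum : u ≤ m) :
    -κ * |t| + min 0 (β * (t - m)) + min 0 (-(2 * a) * (t - u)) ≤
      -(κ / 2) * |t| + (2 * a * (u - m) - k * m) := by
  have e1 := min_le_left 0 (β * (t - m))
  have e2 := min_le_right 0 (β * (t - m))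
  have e3 := min_le_left 0 (-(2 * a) * (t - u))
  have e4 := min_le_right 0 (-(2 * a) * (t - u))
  rcases le_total 0 t with h | h
  · rw [abs_of_nonneg h]
    rcases le_total m t with h' | h'
    · nlinarith [mul_le_mul_of_nonneg_left h' ha.le, mul_le_mul_of_nonneg_left h' hk.le,
        mul_le_mul_of_nonneg_right hk1 h]
    · nlinarith [mul_le_mul_of_nonneg_right hk1 h,
        mul_le_mul_of_nonneg_right hk2 (sub_nonneg.2 h')]
  · rw [abs_of_nonpos h]
    have hm : 0 ≤ m := hu.trans hum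
    nlinarith [mul_le_mul_of_nonneg_right hk2 hm, mul_nonneg ha.le hu,
      mul_nonneg hκ.le (neg_nonneg.2 h), mul_nonneg (by linarith : 0 ≤ β) (neg_nonneg.2 h)]

end RUN

end

end Pool.Agent.Lib.APPS
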