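import Pool.Agent.Lib.APPS.Blue4
import Pool.Agent.Lib.APPS.B_RUNa

/-!
Block F1, deterministic part.
-/

namespace Pool.Agent.Lib.APPS

open MeasureTheory ProbabilityTheory Filter Topology Set Metric
open scoped NNReal ENNReal RealInnerProductSpace Classical

noncomputable section

namespace F1

open FAR (eE_add eE_mono eE_zero eE_ne_top eE_rpow meas_eE meas_fam ind_mono markov)
open RUN (ind_le_one)

theorem ind_pos {p : Prop} (h : p) : ind p = 1 := by simp [ind, h]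
theorem ind_neg {p : Prop} (h : ¬p) : ind p = 0 := by simp [ind, h]

/-- left limit of the number of internal nodes -/
def Nm (x : Dy → ℝ) (t : ℝ) : ℝ≥0∞ := ∑' A : Dy, ind (∀ B, B <:+ A → t ≤ x B)

theorem tsum_suf (f : Dy → ℝ≥0∞) (S : Dy) :
    ∑' A, ind (S <:+ A) * f A = ∑' B, f (B ++ S) := by
  have hinj : Function.Injective fun B : Dy => B ++ S := fun _ _ h => List.append_cancel_right h
  rw [← hinj.tsum_eq (f := fun A => ind (S <:+ A) * f A)]
  · refine tsum_congr fun B => ?_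
    rw [ind_pos (List.suffix_append B S), one_mul]
  · intro A hA
    by_contra h
    refine hA ?_
    have : ¬S <:+ A := fun ⟨B, hB⟩ => h ⟨B, hB⟩
    simp [ind_neg this]

theorem tsum_list (f : Dy → ℝ≥0∞) :
    ∑' A, f A = f [] + ∑ d : Fin 2 × Fin 2, ∑' B, f (B ++ [d]) := by
  have h1 : ∀ A : Dy, f A = ind (A = []) * f A + ∑ d : Fin 2 × Fin 2, ind ([d] <:+ A) * f A := by
    intro A
    rcases List.eq_nil_or_concat A with rfl | ⟨B, d, rfl⟩
    · simp [ind]
    · rw [List.concat_eq_append, ind_neg (by simp), zero_mul, zero_add, Finset.sum_eq_single d,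
        ind_pos (List.suffix_append B [d]), one_mul]
      · intro e _ he
        rw [ind_neg, zero_mul]
        rintro ⟨C, hC⟩
        exact he (by simpa using (List.append_inj' hC rfl).2)
      · simp
  rw [tsum_congr h1, ENNReal.tsum_add, tsum_eq_single [] (fun A hA => by rw [ind_neg hA, zero_mul]),
    ind_pos rfl, one_mul, Summable.tsum_finsetSum fun _ _ => ENNReal.summable]
  simp_rw [tsum_suf]

theorem open_eq (hT : St_T1) (y : Dy → ℝ) (S : Dy) (h : Leaf y S) :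
    nB y + xi y S = ∑' A : Dy, ind (∀ B, B <:+ A → B ≠ S → 0 < y B) := by
  set z := Function.update y S 1 with hz
  have hP : ∀ A : Dy, (∀ B, B <:+ A → B ≠ S → 0 < y B) ↔ IntN z A := by
    intro A
    refine ⟨fun h1 B hB => ?_, fun h1 B hB hBS => ?_⟩
    · by_cases hBS : B = S
      · rw [hBS, hz, Function.update_self]; exact one_pos
      · rw [hz, Function.update_of_ne hBS]; exact h1 B hB hBS
    · have := h1 B hB
      rwa [hz, Function.update_of_ne hBS] at this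
  simp_rw [hP]
  have h1 : ∀ A : Dy, ind (IntN z A) = ind (IntN y A) + ind (S <:+ A) * ind (IntN z A) := by
    intro A
    by_cases hS : S <:+ A
    · rw [ind_neg (p := IntN y A) fun h2 => absurd (h2 S hS) (not_lt.2 h.1), ind_pos hS]
      simp
    · rw [ind_neg hS, zero_mul, add_zero, ← hP]
      congr 1
      exact propext ⟨fun h2 B hB => h2 B hB fun h3 => hS (h3 ▸ hB), fun h2 B hB _ => h2 B hB⟩
  have hS : IntN z S := (hP S).1 h.2
  rw [tsum_congr h1, ENNReal.tsum_add, tsum_suf, tsum_list fun B => ind (IntN z (B ++ S)),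
    List.nil_append, ind_pos hS]
  unfold xi
  congr 2
  refine Finset.sum_congr rfl fun d _ => ?_
  unfold nB
  refine tsum_congr fun B => ?_
  congr 1
  have h2 : sub z (d :: S) = sub y (d :: S) := by
    funext C
    unfold sub
    rw [hz, Function.update_of_ne]
    intro h3
    have := congrArg List.length h3
    simp at this
    omega
  rw [List.append_assoc, List.singleton_append, hT.2.2.2.2.2.2.2.2.2.2.2.2.2.2.2.2.1, h2]
  refine propext ⟨fun h3 => ⟨?_, h3⟩, fun h3 => h3.2⟩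
  intro C hC
  rcases List.suffix_cons_iff.1 hC with rfl | hC
  · have := h3 [] List.nil_suffix
    rw [← h2] at this
    exact this
  · exact hS C hC

theorem open_Nm (hT : St_T1) {x : Dy → ℝ} (hx : Function.Injective x) (S : Dy)
    (h : Leaf (sh x (-x S)) S) : nB (sh x (-x S)) + xi (sh x (-x S)) S = Nm x (x S) := by
  rw [open_eq hT _ S h]
  refine tsum_congr fun A => ?_
  congr 1
  refine propext (forall₂_congr fun B _ => ?_)
  unfold sh
  constructor
  · intro h1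
    by_cases hB : B = S
    · rw [hB]
    · linarith [h1 hB]
  · intro h1 hB
    have := lt_of_le_of_ne h1 fun h2 => hB (hx h2).symm
    linarith

theorem Nm_le {x : Dy → ℝ} {s t : ℝ} (h : s < t) : Nm x t ≤ nB (sh x (-s)) :=
  ENNReal.tsum_le_tsum fun _ => ind_mono fun h1 B hB => by
    have := h1 B hB
    unfold sh
    linarith

theorem sh_zero (x : Dy → ℝ) : sh x 0 = x := by
  funext A
  simp [sh]

theorem nB_sh (hT : St_T1) (x : Dy → ℝ) {s t : ℝ} (h : s ≤ t) : nB (sh x s) ≤ nB (sh x t) :=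
  hT.2.2.2.2.2.2.2.2.2.2.2.2.2.2.2.1 _ _ fun S => by unfold sh; linarith

theorem uniq (hT : St_T1) {x : Dy → ℝ} (hx : Function.Injective x) {n : ℕ} {S S' : Dy}
    (h : Cross n S (sh x (-x S))) (h' : Cross n S' (sh x (-x S'))) : S = S' := by
  by_contra hne
  have key : ∀ {A B : Dy}, Cross n A (sh x (-x A)) → Cross n B (sh x (-x B)) → ¬x A < x B := by
    intro A B hA hB hlt
    have h1 := hB.2.2.1
    rw [open_Nm hT hx B hB.1] at h1
    exact absurd ((h1.trans_le (Nm_le hlt)).trans_le hA.2.1) (lt_irrefl _)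
  rcases lt_or_gt_of_ne (hx.ne hne) with h1 | h1
  · exact key h h' h1
  · exact key h' h h1

theorem exi (hT : St_T1) {x : Dy → ℝ} (hx : Function.Injective x) {n : ℕ} {ε : ℝ}
    (hf : nB x ≠ ∞) (h0 : (n : ℝ≥0∞) < nB x) (hε : nB (sh x (-ε)) ≤ n) :
    ∃ S, x S ∈ Ioc 0 ε ∧ Leaf (sh x (-x S)) S ∧ nB (sh x (-x S)) ≤ n ∧
      (n : ℝ≥0∞) < nB (sh x (-x S)) + xi (sh x (-x S)) S := by
  have hT0 := hT.2.2.2.2.2.2.2.2.2.2.2.2.1 x hf
  set V : Finset ℝ := (insert 0 ((tr x).image x)).filter fun t => (n : ℝ≥0∞) < nB (sh x (-t))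
    with hV
  have hV0 : (0 : ℝ) ∈ V := by
    rw [hV, Finset.mem_filter, neg_zero, sh_zero]
    exact ⟨Finset.mem_insert_self _ _, h0⟩
  obtain ⟨t0, ht0, hmax⟩ := V.exists_max_image id ⟨0, hV0⟩
  have ht00 : 0 ≤ t0 := hmax 0 hV0
  have hn0 : (n : ℝ≥0∞) < nB (sh x (-t0)) := (Finset.mem_filter.1 ht0).2
  set T0 := (tr x).filter fun A => ∀ B, B <:+ A → t0 < x B with hT0'
  have hmem : ∀ A, (∀ B, B <:+ A → t0 < x B) → A ∈ T0 := fun A hA =>
    Finset.mem_filter.2 ⟨(hT0 A).2 fun B hB => ht00.trans_lt (hA B hB), hA⟩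
  have hne : T0.Nonempty := by
    by_contra hne
    have : nB (sh x (-t0)) = 0 := by
      refine ENNReal.tsum_eq_zero.2 fun A => ind_neg fun hA => hne ⟨A, hmem A fun B hB => ?_⟩
      have := hA B hB
      unfold sh at this
      linarith
    rw [this] at hn0
    exact absurd hn0 (not_lt.2 zero_le)
  obtain ⟨S, hS, hmin⟩ := T0.exists_min_image x hne
  have hS1 := (Finset.mem_filter.1 hS).2
  have hS2 : t0 < x S := hS1 S (List.suffix_refl S)
  have hL : Leaf (sh x (-x S)) S := by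
    refine ⟨by simp [sh], fun B hB hBS => ?_⟩
    have h1 := hmin B (hmem B fun C hC => hS1 C (hC.trans hB))
    have := lt_of_le_of_ne h1 fun h2 => hBS (hx h2).symm
    unfold sh
    linarith
  have hNm : (n : ℝ≥0∞) < Nm x (x S) := by
    refine hn0.trans_le (ENNReal.tsum_le_tsum fun A => ind_mono fun hA B hB => ?_)
    refine hmin B (hmem B fun C hC => ?_)
    have := hA C (hC.trans hB)
    unfold sh at this
    linarith
  refine ⟨S, ⟨ht00.trans_lt hS2, ?_⟩, hL, ?_, by rwa [open_Nm hT hx S hL]⟩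
  · by_contra h
    exact absurd ((hNm.trans_le (Nm_le (not_le.1 h))).trans_le hε) (lt_irrefl _)
  · by_contra h
    have : x S ∈ V := Finset.mem_filter.2 ⟨Finset.mem_insert_of_mem
      (Finset.mem_image_of_mem x (Finset.mem_filter.1 hS).1), not_le.1 h⟩
    exact absurd (hmax _ this) (not_le.2 hS2)

/-- summand of the flux -/
def tm (Φ : Finset Dy → ℝ) (n : ℕ) (ε σ p : ℝ) (x : Dy → ℝ) (S : Dy) : ℝ≥0∞ :=
  ind (Cross n S (sh x (-x S))) * ENNReal.ofReal (Φ (tr (sh x (-x S)))) *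
    (ind (x S ∈ Ioc 0 ε) * eE (x S * p - x S ^ 2 * σ / 2))

def Zf (Φ : Finset Dy → ℝ) (n : ℕ) (ε σ p : ℝ) (x : Dy → ℝ) : ℝ≥0∞ := ∑' S, tm Φ n ε σ p x S

def Wf (γ : ℝ) (Φ : Finset Dy → ℝ) (n : ℕ) (ε : ℝ) (x : Dy → ℝ) : ℝ≥0∞ :=
  ind ((n : ℝ≥0∞) < nB x ∧ nB x ≤ ENNReal.ofReal (Real.exp (γ * ε) * n)) *
    ENNReal.ofReal (Φ (tr x))

theorem Zf_zero {Φ : Finset Dy → ℝ} {n : ℕ} {ε σ p : ℝ} {x : Dy → ℝ}
    (h : ¬∃ S, x S ∈ Ioc 0 ε ∧ Cross n S (sh x (-x S))) : Zf Φ n ε σ p x = 0 := by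
  refine ENNReal.tsum_eq_zero.2 fun S => ?_
  unfold tm
  by_cases h1 : x S ∈ Ioc 0 ε
  · rw [ind_neg fun h2 => h ⟨S, h1, h2⟩]; simp
  · rw [ind_neg h1]; simp

theorem Zf_eq (hT : St_T1) {x : Dy → ℝ} (hx : Function.Injective x) {Φ : Finset Dy → ℝ} {n : ℕ}
    {ε σ p : ℝ} {S : Dy} (h1 : x S ∈ Ioc 0 ε) (h2 : Cross n S (sh x (-x S)))
    (hΦ : ∀ T, 0 ≤ Φ T) : Zf Φ n ε σ p x =
      ENNReal.ofReal (Φ (tr (sh x (-x S))) * Real.exp (x S * p - x S ^ 2 * σ / 2)) := by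
  unfold Zf
  rw [tsum_eq_single S]
  · unfold tm
    rw [ind_pos h1, ind_pos h2, one_mul, one_mul, ENNReal.ofReal_mul (hΦ _)]
    rfl
  · intro S' hS'
    unfold tm
    rw [ind_neg fun h3 => hS' (uniq hT hx h3 h2)]
    simp

theorem cross_lt (hT : St_T1) {x : Dy → ℝ} (hx : Function.Injective x) {n : ℕ} {S : Dy}
    (h1 : 0 < x S) (h2 : Cross n S (sh x (-x S))) : (n : ℝ≥0∞) < nB x := by
  have h3 := h2.2.2.1
  rw [open_Nm hT hx S h2.1] at h3
  have h4 := Nm_le (x := x) h1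
  rw [neg_zero, sh_zero] at h4
  exact h3.trans_le h4

theorem dens {t ε σ p : ℝ} (ht : t ∈ Ioc 0 ε) (hε : ε ≤ 1) (hσ : 0 ≤ σ) :
    Real.exp (t * p - t ^ 2 * σ / 2) ≤ Real.exp |p| ∧
    |Real.exp (t * p - t ^ 2 * σ / 2) - 1| ≤ ε * (1 + σ / 2) * Real.exp |p| := by
  obtain ⟨h0, h1⟩ := ht
  have ha := abs_nonneg p
  have e1 : t * p ≤ ε * |p| :=
    (mul_le_mul_of_nonneg_left (le_abs_self p) h0.le).trans (mul_le_mul_of_nonneg_right h1 ha)
  have e2 : -(ε * |p|) ≤ t * p := by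
    have := mul_le_mul_of_nonneg_left (neg_abs_le p) h0.le
    nlinarith
  have e3 : 0 ≤ t ^ 2 * σ / 2 := by positivity
  have e4 : t ^ 2 * σ / 2 ≤ ε * (σ / 2) := by
    have : t ^ 2 ≤ ε := by nlinarith
    nlinarith
  have e5 : Real.exp (t * p - t ^ 2 * σ / 2) ≤ Real.exp (ε * |p|) := Real.exp_le_exp.2 (by linarith)
  have e6 : Real.exp (ε * |p|) ≤ (1 - ε) + ε * Real.exp |p| := by
    have := convexOn_exp.2 (mem_univ 0) (mem_univ |p|) (by linarith : 0 ≤ 1 - ε)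
      (by linarith : 0 ≤ ε) (by ring)
    simpa using this
  have e7 := Real.add_one_le_exp |p|
  have e8 := Real.add_one_le_exp (t * p - t ^ 2 * σ / 2)
  have e9 : 0 ≤ ε := by linarith
  refine ⟨e5.trans (Real.exp_le_exp.2 (by nlinarith)), abs_le.2 ⟨?_, ?_⟩⟩
  · nlinarith [mul_le_mul_of_nonneg_left e7 e9, mul_nonneg (mul_nonneg e9 hσ) ha,
      mul_le_mul_of_nonneg_left e7 (mul_nonneg e9 hσ)]
  · nlinarith [mul_nonneg (mul_nonneg e9 hσ) (Real.exp_pos |p|).le]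

theorem one_le_eE (p : ℝ) : 1 ≤ eE |p| := by
  rw [← eE_zero]
  exact eE_mono (abs_nonneg p)

theorem pt_off (hT : St_T1) {x : Dy → ℝ} (hx : Function.Injective x) {Φ : Finset Dy → ℝ} {n : ℕ}
    {γ ε σ p : ℝ} (hΦ : ∀ T, 0 ≤ Φ T ∧ Φ T ≤ 1) (hε : ε ≤ 1) (hσ : 0 ≤ σ) :
    Zf Φ n ε σ p x ≤ ind ((n : ℝ≥0∞) < nB x) * eE |p| ∧
      Wf γ Φ n ε x ≤ ind ((n : ℝ≥0∞) < nB x) * eE |p| := by
  constructor
  · by_cases h : ∃ S, x S ∈ Ioc 0 ε ∧ Cross n S (sh x (-x S))
    · obtain ⟨S, h1, h2⟩ := h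
      rw [Zf_eq hT hx h1 h2 fun T => (hΦ T).1, ind_pos (cross_lt hT hx h1.1 h2), one_mul]
      refine ENNReal.ofReal_le_ofReal ?_
      have := (dens (p := p) h1 hε hσ).1
      nlinarith [(hΦ (tr (sh x (-x S)))).2, Real.exp_pos (x S * p - x S ^ 2 * σ / 2)]
    · rw [Zf_zero h]; exact zero_le
  · refine mul_le_mul' (ind_mono fun h => h.1) (le_trans ?_ (one_le_eE p))
    exact ENNReal.ofReal_le_one.2 (hΦ _).2

/-- window event -/
def Ev (n : ℕ) (lo hi : ℝ) (x : Dy → ℝ) : Prop :=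
  (n : ℝ≥0∞) < nB x ∧ ENNReal.ofReal lo ≤ nB x ∧ nB x ≤ ENNReal.ofReal hi

def Rf (γ η δ : ℝ) (n : ℕ) (ε p : ℝ) (x : Dy → ℝ) : ℝ≥0∞ :=
  ENNReal.ofReal δ * (ind (Ev n n ((Real.exp (γ * ε) + η) * n) x) * eE |p|) +
    ind (Ev n ((Real.exp (γ * ε) - η) * n) ((Real.exp (γ * ε) + η) * n) x) * eE |p| +
    ind ((n : ℝ≥0∞) < nB x ∧ nB x ≤ ENNReal.ofReal (Real.exp (γ * ε) * n) ∧
      2 * nB (sh x (-ε)) < n)

theorem pt_on (hT : St_T1) {x : Dy → ℝ} (hx : Function.Injective x) {Φ : Finset Dy → ℝ} {n : ℕ}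
    {γ ε σ p η Λ : ℝ} {K1 : ℕ} (hΦ : Cls Λ Φ) (hγ : 0 < γ) (hε0 : 0 < ε) (hε : ε ≤ 1) (hσ : 0 ≤ σ)
    (hη0 : 0 < η) (hη : η ≤ ε) (hη' : η < 1 / 2) (hn : 1 ≤ n) (hG : Gro γ K1 n η x) :
    Zf Φ n ε σ p x ≤ Wf γ Φ n ε x + Rf γ η (ε * (1 + σ / 2) + |Λ| * ((γ + 1) * ε)) n ε p x ∧
    Wf γ Φ n ε x ≤ Zf Φ n ε σ p x + Rf γ η (ε * (1 + σ / 2) + |Λ| * ((γ + 1) * ε)) n ε p x := by
  have hn' : (1 : ℝ) ≤ n := by exact_mod_cast hn
  have hfin : ∀ s ≤ 1, nB (sh x s) ≠ ∞ := fun s hs => ne_top_of_le_ne_top hG.1 (nB_sh hT x hs)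
  have hH : ∀ s ≤ 1, HasTr (sh x s) (tr (sh x s)) := fun s hs =>
    hT.2.2.2.2.2.2.2.2.2.2.2.2.1 _ (hfin s hs)
  have hc : ∀ s ≤ 1, nB (sh x s) = ENNReal.ofReal (nN (sh x s)) := by
    intro s hs
    rw [(hT.2.2.2.2.2.2.2.2.2.2.2.1 _ _ (hH s hs)).2.2.1, nN, ENNReal.ofReal_natCast]
  have hc0 : nB x = ENNReal.ofReal (nN x) := by
    have := hc 0 zero_le_one
    rwa [sh_zero] at this
  have hN : ∀ y, 0 ≤ nN y := fun y => Nat.cast_nonneg _
  have hgro : ∀ t ∈ Ioc 0 ε, (n : ℝ) ≤ 2 * nN (sh x (-t)) →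
      |nN x - Real.exp (γ * t) * nN (sh x (-t))| ≤ η * n := by
    intro t ht h2
    rcases hG.2 (-t) ⟨by linarith [ht.2], by linarith [ht.1]⟩ 0 ⟨by norm_num, by norm_num⟩
      (by linarith [ht.1]) with h | h
    · nlinarith [h.1]
    · rwa [sh_zero, zero_sub, neg_neg] at h
  have hcast : ((n : ℕ) : ℝ≥0∞) = ENNReal.ofReal n := (ENNReal.ofReal_natCast n).symm
  have he1 : 1 ≤ Real.exp (γ * ε) := Real.one_le_exp (by positivity)
  set δ := ε * (1 + σ / 2) + |Λ| * ((γ + 1) * ε) with hδ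
  have hR1 : ENNReal.ofReal δ * (ind (Ev n n ((Real.exp (γ * ε) + η) * n) x) * eE |p|) ≤
      Rf γ η δ n ε p x := le_self_add.trans le_self_add
  have hR2 : ind (Ev n ((Real.exp (γ * ε) - η) * n) ((Real.exp (γ * ε) + η) * n) x) * eE |p| ≤
      Rf γ η δ n ε p x := le_add_self.trans le_self_add
  have hR3 : ind ((n : ℝ≥0∞) < nB x ∧ nB x ≤ ENNReal.ofReal (Real.exp (γ * ε) * n) ∧
      2 * nB (sh x (-ε)) < n) ≤ Rf γ η δ n ε p x := le_add_self
  have hW1 : Wf γ Φ n ε x ≤ 1 :=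
    mul_le_one' (ind_le_one _) (ENNReal.ofReal_le_one.2 (hΦ.1 _).2)
  by_cases h : ∃ S, x S ∈ Ioc 0 ε ∧ Cross n S (sh x (-x S))
  · obtain ⟨S, h1, h2⟩ := h
    have hlt := cross_lt hT hx h1.1 h2
    have hs1 : -x S ≤ 1 := by linarith [h1.1]
    have e1 : nN (sh x (-x S)) ≤ n := by
      have := h2.2.1
      rwa [hc _ hs1, hcast, ENNReal.ofReal_le_ofReal_iff (by positivity)] at this
    have e2 : (n : ℝ) ≤ 2 * nN (sh x (-x S)) := by
      have := h2.2.2.2
      rwa [hc _ hs1, hcast, ← ENNReal.ofReal_ofNat, ← ENNReal.ofReal_mul (by norm_num),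
        ENNReal.ofReal_le_ofReal_iff (by linarith [hN (sh x (-x S))])] at this
    have e3 : (n : ℝ) < nN x := by
      have := hlt
      rwa [hc0, hcast, ENNReal.ofReal_lt_ofReal_iff_of_nonneg (by positivity)] at this
    have e4 := abs_le.1 (hgro _ h1 e2)
    have e5 : Real.exp (γ * x S) ≤ Real.exp (γ * ε) :=
      Real.exp_le_exp.2 (mul_le_mul_of_nonneg_left h1.2 hγ.le)
    have e6 : nN x ≤ (Real.exp (γ * ε) + η) * n := by
      nlinarith [mul_le_mul e5 e1 (hN _) (Real.exp_pos _).le]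
    have e6' : nB x ≤ ENNReal.ofReal ((Real.exp (γ * ε) + η) * n) := by
      rw [hc0]; exact ENNReal.ofReal_le_ofReal e6
    by_cases hw : nB x ≤ ENNReal.ofReal (Real.exp (γ * ε) * n)
    · have hsub : tr (sh x (-x S)) ⊆ tr x := by
        intro A hA
        have h3 := hH 0 zero_le_one
        rw [sh_zero] at h3
        refine (h3 A).2 fun B hB => ?_
        have := (hH _ hs1 A).1 hA B hB
        unfold sh at this
        linarith [h1.1]
      have e7 := hΦ.2 _ _ (hT.2.2.2.2.2.2.2.2.2.2.2.2.2.2.1 _)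
        (hT.2.2.2.2.2.2.2.2.2.2.2.2.2.2.1 _) hsub
      change _ ≤ Λ * (nN x - nN (sh x (-x S))) / nN x at e7
      have e8 : nN x - nN (sh x (-x S)) ≤ (γ + 1) * ε * nN x := by
        have f1 : Real.exp (γ * x S) * (1 - γ * ε) ≤ 1 := by
          have := Real.add_one_le_exp (-(γ * x S))
          have f2 : Real.exp (γ * x S) * Real.exp (-(γ * x S)) = 1 := by
            rw [← Real.exp_add]; simp
          have f3 : 1 - γ * ε ≤ Real.exp (-(γ * x S)) := by nlinarith [h1.2]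
          nlinarith [Real.exp_pos (γ * x S)]
        have f4 : nN x - η * n ≤ Real.exp (γ * x S) * nN (sh x (-x S)) := by linarith [e4.2]
        have f5 : η * n ≤ ε * nN x := mul_le_mul hη e3.le (by positivity) hε0.le
        rcases le_total (γ * ε) 1 with f6 | f6
        · have f7 := mul_le_mul_of_nonneg_right f4 (sub_nonneg.2 f6)
          have f8 := mul_le_mul_of_nonneg_right f1 (hN (sh x (-x S)))
          have f9 : 0 ≤ η * n * (γ * ε) := by positivity
          nlinarith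
        · nlinarith [hN (sh x (-x S)), hN x, mul_nonneg hε0.le (hN x)]
      have e9 : |Φ (tr (sh x (-x S))) - Φ (tr x)| ≤ |Λ| * ((γ + 1) * ε) := by
        refine e7.trans ?_
        have f0 : 0 < nN x := by linarith
        have f1 : 0 ≤ nN x - nN (sh x (-x S)) := by linarith
        rw [div_le_iff₀ f0]
        calc _ ≤ |Λ| * (nN x - nN (sh x (-x S))) := mul_le_mul_of_nonneg_right (le_abs_self Λ) f1
          _ ≤ |Λ| * ((γ + 1) * ε * nN x) := mul_le_mul_of_nonneg_left e8 (abs_nonneg Λ)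
          _ = _ := by ring
      have e10 := (dens (p := p) h1 hε hσ).2
      set D := Real.exp (x S * p - x S ^ 2 * σ / 2)
      have e11 : |Φ (tr (sh x (-x S))) * D - Φ (tr x)| ≤ δ * Real.exp |p| := by
        have f1 : Φ (tr (sh x (-x S))) * D - Φ (tr x) =
            Φ (tr (sh x (-x S))) * (D - 1) + (Φ (tr (sh x (-x S))) - Φ (tr x)) := by ring
        have f2 : |Φ (tr (sh x (-x S))) * (D - 1)| ≤ |D - 1| := by
          rw [abs_mul, abs_of_nonneg (hΦ.1 _).1]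
          exact mul_le_of_le_one_left (abs_nonneg _) (hΦ.1 _).2
        have f3 : 1 ≤ Real.exp |p| := Real.one_le_exp (abs_nonneg p)
        have f4 : 0 ≤ |Λ| * ((γ + 1) * ε) := by positivity
        rw [f1]
        refine (abs_add_le _ _).trans ?_
        rw [hδ]
        nlinarith [mul_le_mul_of_nonneg_left f3 f4]
      have hδ0 : 0 ≤ δ := by positivity
      have hEv : Ev n n ((Real.exp (γ * ε) + η) * n) x := ⟨hlt, hcast ▸ hlt.le, e6'⟩
      rw [ind_pos hEv, one_mul] at hR1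
      have hR1' : ENNReal.ofReal (δ * Real.exp |p|) ≤ Rf γ η δ n ε p x := by
        rw [ENNReal.ofReal_mul hδ0]; exact hR1
      have hWe : Wf γ Φ n ε x = ENNReal.ofReal (Φ (tr x)) := by
        unfold Wf
        rw [ind_pos ⟨hlt, hw⟩, one_mul]
      rw [Zf_eq hT hx h1 h2 fun T => (hΦ.1 T).1, hWe]
      have := abs_le.1 e11
      constructor
      · refine le_trans ?_ (add_le_add_right hR1' _)
        refine le_trans (ENNReal.ofReal_le_ofReal ?_) ENNReal.ofReal_add_le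
        linarith [this.2]
      · refine le_trans ?_ (add_le_add_right hR1' _)
        refine le_trans (ENNReal.ofReal_le_ofReal ?_) ENNReal.ofReal_add_le
        linarith [this.1]
    · have hWe : Wf γ Φ n ε x = 0 := by
        unfold Wf
        rw [ind_neg fun h3 => hw h3.2, zero_mul]
      have hEv : Ev n ((Real.exp (γ * ε) - η) * n) ((Real.exp (γ * ε) + η) * n) x :=
        ⟨hlt, le_trans (ENNReal.ofReal_le_ofReal (by nlinarith)) (not_le.1 hw).le, e6'⟩
      rw [ind_pos hEv, one_mul] at hR2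
      rw [hWe]
      refine ⟨?_, zero_le⟩
      have := (pt_off (γ := γ) (n := n) (p := p) hT hx hΦ.1 hε hσ).1
      rw [ind_pos hlt, one_mul] at this
      exact (this.trans hR2).trans le_add_self
  · rw [Zf_zero h]
    refine ⟨zero_le, ?_⟩
    rw [zero_add]
    by_cases hw : (n : ℝ≥0∞) < nB x ∧ nB x ≤ ENNReal.ofReal (Real.exp (γ * ε) * n)
    swap
    · unfold Wf
      rw [ind_neg hw, zero_mul]
      exact zero_le
    refine hW1.trans ?_
    by_cases h3 : nB (sh x (-ε)) ≤ n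
    · obtain ⟨S, h4, h5, h6, h7⟩ := exi hT hx (hc0 ▸ ENNReal.ofReal_ne_top) hw.1 h3
      have h8 : 2 * nB (sh x (-x S)) < n := not_le.1 fun h9 => h ⟨S, h4, h5, h6, h7, h9⟩
      have h9 : 2 * nB (sh x (-ε)) < n :=
        (mul_le_mul_right (nB_sh hT x (by linarith [h4.2])) _).trans_lt h8
      rwa [ind_pos ⟨hw.1, hw.2, h9⟩] at hR3
    · have e1 : (n : ℝ) < nN (sh x (-ε)) := by
        have := not_le.1 h3
        rwa [hc _ (by linarith), hcast, ENNReal.ofReal_lt_ofReal_iff_of_nonneg (by positivity)]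
          at this
      have e2 := abs_le.1 (hgro ε ⟨hε0, le_rfl⟩ (by linarith))
      have hEv : Ev n ((Real.exp (γ * ε) - η) * n) ((Real.exp (γ * ε) + η) * n) x := by
        refine ⟨hw.1, ?_, hw.2.trans (ENNReal.ofReal_le_ofReal (by nlinarith))⟩
        rw [hc0]
        refine ENNReal.ofReal_le_ofReal ?_
        nlinarith [e2.1, mul_le_mul_of_nonneg_left e1.le (Real.exp_pos (γ * ε)).le]
      rw [ind_pos hEv, one_mul] at hR2
      exact (one_le_eE p).trans hR2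

end F1

end

end Pool.Agent.Lib.APPS
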