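import Pool.Agent.Lib.APPS.Blue4
import Pool.Agent.Lib.APPS.B_UL
import Pool.Agent.Lib.APPS.B_GEO1

/-! Block F2E, part a: from the surface integral to a volume integral. -/

namespace Pool.Agent.Lib.APPS

open MeasureTheory ProbabilityTheory Filter Topology Set Metric
open scoped NNReal ENNReal RealInnerProductSpace Classical

namespace F2E

open UL

lemma ind_pos {p : Prop} (h : p) : ind p = 1 := if_pos h

lemma ind_neg {p : Prop} (h : ¬p) : ind p = 0 := if_neg h

lemma suf_sum (f : Dy → ℝ≥0∞) (S : Dy) : ∑' A, ind (S <:+ A) * f A = ∑' B, f (B ++ S) := by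
  rw [← (List.append_left_injective S).tsum_eq (f := fun A => ind (S <:+ A) * f A)]
  · exact tsum_congr fun B => by rw [ind_pos (List.suffix_append B S), one_mul]
  · intro A hA
    by_contra h
    exact hA (by simp only; rw [ind_neg (p := S <:+ A) fun h' => h h', zero_mul])

lemma xi_le (hT1 : St_T1) (y : Dy → ℝ) (h : 0 < y []) :
    1 + ∑ d : Fin 2 × Fin 2, nB (sub y [d]) ≤ nB y := by
  have t17 := hT1.2.2.2.2.2.2.2.2.2.2.2.2.2.2.2.2.1
  have h0 : IntN y [] := fun B hB => by rwa [List.suffix_nil.1 hB]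
  calc _ ≤ ∑' A : Dy, ind (A = []) +
        ∑ d : Fin 2 × Fin 2, ∑' A : Dy, ind ([d] <:+ A) * ind (IntN y A) := by
        refine add_le_add (le_trans (ind_pos rfl).ge (ENNReal.le_tsum ([] : Dy))) ?_
        refine Finset.sum_le_sum fun d _ => ?_
        rw [suf_sum]
        refine ENNReal.tsum_le_tsum fun B => ind_mono fun hB => (t17 y [d] B).2 ⟨?_, hB⟩
        intro B' hB'
        rcases List.suffix_cons_iff.1 hB' with rfl | h'
        · exact hB [] List.nil_suffix
        · exact h0 B' h'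
    _ = ∑' A : Dy, (ind (A = []) +
        ∑ d : Fin 2 × Fin 2, ind ([d] <:+ A) * ind (IntN y A)) := by
        rw [ENNReal.tsum_add, Summable.tsum_finsetSum fun _ _ => ENNReal.summable]
    _ ≤ _ := by
        refine ENNReal.tsum_le_tsum fun A => ?_
        rcases List.eq_nil_or_concat' A with rfl | ⟨B, d0, rfl⟩
        · simp [ind, h0]
        · rw [ind_neg (by simp), zero_add, Finset.sum_eq_single d0, ind_pos (List.suffix_append _ _),
            one_mul]
          · intro d _ hd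
            rw [ind_neg, zero_mul]
            rintro ⟨B', h'⟩
            exact hd (List.cons.inj (List.append_inj_right' h' rfl)).1
          · simp

lemma split (hT1 : St_T1) {x y : Dy → ℝ} {S : Dy} (hle : ∀ B, y B ≤ x B) (hl : Leaf y S)
    (h0 : 0 < x S) (he : ∀ B, ¬S <:+ B → ¬B <:+ S → y B = x B) :
    IntN x S ∧ nB y + nB (sub x S) = nB x := by
  have t17 := hT1.2.2.2.2.2.2.2.2.2.2.2.2.2.2.2.2.1
  have hI : IntN x S := fun B hB => by
    by_cases h : B = S
    · rwa [h]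
    · exact (hl.2 B hB h).trans_le (hle B)
  refine ⟨hI, ?_⟩
  have h1 : nB (sub x S) = ∑' A, ind (S <:+ A) * ind (IntN x A) := by
    rw [suf_sum]
    exact tsum_congr fun B => by rw [t17]; simp [hI]
  rw [h1, nB, nB, ← ENNReal.tsum_add]
  refine tsum_congr fun A => ?_
  by_cases hA : S <:+ A
  · rw [ind_neg fun h => (h S hA).not_ge hl.1, ind_pos hA, zero_add, one_mul]
  · rw [ind_neg hA, zero_mul, add_zero]
    congr 1
    refine propext ⟨fun h B hB => (h B hB).trans_le (hle B), fun h B hB => ?_⟩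
    by_cases h2 : B <:+ S
    · exact hl.2 B h2 fun e => hA (e ▸ hB)
    · rw [he B (fun h3 => hA (h3.trans hB)) h2]
      exact h B hB

/-- the event after resampling along the bump direction -/
def Ev (n J : ℕ) (S : Dy) (x : Dy → ℝ) : Prop :=
  S ≠ [] ∧ IntN x S ∧ x S ≤ 1 ∧ (J : ℝ≥0∞) < nB (sub (sh x 1) S.tail) ∧ (n : ℝ≥0∞) < nB x ∧
    ∃ N0 : ℝ≥0∞, N0 + nB (sub x S) = nB x ∧ N0 ≤ n ∧ (n : ℝ≥0∞) ≤ 2 * N0

lemma ev_of (hT1 : St_T1) {x y : Dy → ℝ} {S : Dy} {n J : ℕ} (hn : 1 ≤ n) (hle : ∀ B, y B ≤ x B)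
    (h0 : 0 < x S) (h1 : x S ≤ 1) (he : ∀ B, ¬S <:+ B → ¬B <:+ S → y B = x B)
    (h : Cross n S y ∧ (S = [] ∨ (J : ℝ≥0∞) < nB (sub (sh y 1) S.tail))) : Ev n J S x := by
  have hmon := hT1.2.2.2.2.2.2.2.2.2.2.2.2.2.2.2.1
  obtain ⟨⟨c1, c2, c3, c4⟩, h⟩ := h
  have hS : S ≠ [] := by
    rintro rfl
    have : nB y = 0 := by
      rw [nB, ENNReal.tsum_eq_zero]
      exact fun A => ind_neg fun h => (h [] List.nil_suffix).not_ge c1.1
    rw [this, mul_zero, nonpos_iff_eq_zero, Nat.cast_eq_zero] at c4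
    omega
  obtain ⟨hI, hs⟩ := split hT1 hle c1 h0 he
  refine ⟨hS, hI, h1, (h.resolve_left hS).trans_le (hmon _ _ fun B => ?_), c3.trans_le ?_,
    nB y, hs, c2, c4⟩
  · simp only [sub, sh]
    linarith [hle (B ++ S.tail)]
  · rw [← hs]
    refine add_le_add_right (le_trans ?_ (xi_le hT1 (sub x S) h0)) _
    refine add_le_add_right (Finset.sum_le_sum fun d _ => hmon _ _ fun B => ?_) _
    simp only [sub, List.append_assoc, List.singleton_append]
    exact hle _

lemma meas_G (hT3 : St_T3) (n J : ℕ) (S : Dy) : MeasurableSet {x : Dy → ℝ | Cross n S x ∧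
    (S = [] ∨ (J : ℝ≥0∞) < nB (sub (sh x 1) S.tail))} := by
  obtain ⟨m1, m2, -, -, m5, m6, -⟩ := hT3
  have hx : Measurable fun x => xi x S :=
    (Finset.measurable_sum _ fun d _ => m1.comp (m5 _)).const_add 1
  exact ((m2 S).2.inter ((measurableSet_le m1 measurable_const).inter
    ((measurableSet_lt measurable_const (m1.add hx)).inter
      (measurableSet_le measurable_const (m1.const_mul 2))))).inter
    ((MeasurableSet.const _).union (measurableSet_lt measurable_const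
      (m1.comp ((m5 _).comp (m6.comp (measurable_id.prodMk measurable_const))))))

theorem sf_le (hBMP : St_BMP) (hT1 : St_T1) (hT3 : St_T3) (hSI : St_SI) (γ : ℝ) (M : Model)
    (hM : box [] ⊆ M.O) : ∃ c : ℝ, 0 < c ∧ ∀ n J : ℕ, 1 ≤ n → ∀ S : Dy,
      M.sf γ S (fun ω => ind (Cross n S (M.X γ 0 ω) ∧
        (S = [] ∨ (J : ℝ≥0∞) < nB (sub (sh (M.X γ 0 ω) 1) S.tail)))) ≤
      ENNReal.ofReal c * ∫⁻ ω, ind (Ev n J S (M.X γ 0 ω)) * eE |ω (M.ub S)| ∂gm := by
  obtain ⟨hbb, E, C, hE, hC, -, hb⟩ := hBMP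
  obtain ⟨-, -, b3, -, b5, b6, -, -, b9⟩ := hb M
  have hsub : ∀ S, box S ⊆ M.O := fun S => (GEO1.box_sub List.nil_suffix).trans hM
  have hub : ∀ S, ⟪M.ub S, M.eS S⟫ = bb := fun S => by
    rw [b5 S S (hsub S) List.suffix_rfl, div_self (GEO1.side_pos S).ne', one_pow, mul_one]
  have hτ : (0 : ℝ) < 1 / (bb + 1) := by positivity
  refine ⟨1 / (1 / (bb + 1) * bb), by positivity, fun n J hn S => ?_⟩
  have hG : Measurable fun ω => ind (Cross n S (M.X γ 0 ω) ∧
      (S = [] ∨ (J : ℝ≥0∞) < nB (sub (sh (M.X γ 0 ω) 1) S.tail))) :=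
    (hT3.2.2.2.2.2.2.2.2.2.2.2.1 Om _
    ((hT3.2.2.2.2.2.2.2.2.2.2.1 M γ 0).1 (meas_G hT3 n J S))).1
  rw [Model.sf, hSI _ _ (M.ub S) _ 0 1 0 (1 / (bb + 1)) _ hG (by
    rw [real_inner_self_eq_norm_sq]
    exact lt_of_lt_of_le (by positivity) (b9 S (hsub S))) (by rw [hub]; exact hbb) one_pos hτ,
    surf, ← lintegral_const_mul' _ _ ENNReal.ofReal_ne_top]
  refine lintegral_mono fun ω => ?_
  simp only [hub, sub_zero]
  have hx : ω (M.eS S) + -(QQ γ * S.length * l2) = M.X γ 0 ω S := by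
    simp only [Model.X, drift]
    ring
  rw [hx]
  set t := M.X γ 0 ω S / bb with ht
  by_cases h1 : t ∈ Ioc 0 (1 / (bb + 1))
  swap
  · rw [ind_neg h1, zero_mul, mul_zero]
    exact zero_le
  have hy : ∀ B, M.X γ 0 (ω - t • dv (M.ub S)) B = M.X γ 0 ω B - t * ⟪M.ub S, M.eS B⟫ := fun B => by
    simp only [Model.X, drift, LinearMap.sub_apply, LinearMap.smul_apply, dv_apply, smul_eq_mul]
    ring
  have ht1 : t ≤ 1 := h1.2.trans ((div_le_one (by positivity)).2 (by linarith))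
  rw [ind_pos h1, one_mul, mul_left_comm]
  refine mul_le_mul' (ind_mono (ev_of hT1 hn (fun B => ?_) ?_ ?_ fun B k1 k2 => ?_)) ?_
  · rw [hy]
    linarith [mul_nonneg h1.1.le (b6 S B (hsub S)).1]
  · exact (div_pos_iff_of_pos_right hbb).1 h1.1
  · have := h1.2
    rw [ht, div_le_div_iff₀ hbb (by positivity)] at this
    have h2 := (div_pos_iff_of_pos_right hbb).1 h1.1
    nlinarith
  · rw [hy, (b3 S B k1 k2).2 (hsub S), mul_zero, sub_zero]
  · rw [eE, ← ENNReal.ofReal_mul (by positivity), one_div_mul_eq_div (1 / (bb + 1) * bb)]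
    refine ENNReal.ofReal_le_ofReal (div_le_div_of_nonneg_right (Real.exp_le_exp.2 ?_)
      (by positivity))
    have := mul_le_mul_of_nonneg_left (le_abs_self (ω (M.ub S))) h1.1.le
    have := mul_le_of_le_one_left (abs_nonneg (ω (M.ub S))) ht1
    have : 0 ≤ t ^ 2 * ‖M.ub S‖ ^ 2 / 2 := by positivity
    linarith

end F2E

end Pool.Agent.Lib.APPS
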