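import Pool.Agent.Lib.APPS.B_F2Ea

/-! Block F2E, part b: tilting and the bound for late squares. -/

namespace Pool.Agent.Lib.APPS

open MeasureTheory ProbabilityTheory Filter Topology Set Metric
open scoped NNReal ENNReal RealInnerProductSpace Classical

namespace F2E

open UL

lemma X_sh (M : Model) (γ u : ℝ) (ω : Om) : sh (M.X γ 0 ω) u = M.X γ u ω := by
  funext S
  simp only [sh, Model.X, drift]
  ring

lemma ind_le (p : Om → Prop) : ∫⁻ ω, ind (p ω) ∂gm ≤ gm {ω | p ω} :=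
  le_trans (le_of_eq (lintegral_congr fun ω => by simp [ind, Set.indicator_apply]))
    (lintegral_indicator_one_le _)

lemma meas_ind (hT3 : St_T3) (M : Model) (γ : ℝ) {p : (Dy → ℝ) → Prop}
    (hp : MeasurableSet {x | p x}) : Measurable fun ω => ind (p (M.X γ 0 ω)) :=
  (hT3.2.2.2.2.2.2.2.2.2.2.2.1 Om _ ((hT3.2.2.2.2.2.2.2.2.2.2.1 M γ 0).1 hp)).1

lemma tilt2 (hG2 : St_G2) (hT3 : St_T3) (M : Model) (γ : ℝ) {B : ℝ} {w : HH} (h1 : ‖w‖ ≤ B)
    (h2 : ∀ A, |⟪w, M.eS A⟫| ≤ B) (p q : (Dy → ℝ) → Prop) (hp : MeasurableSet {x | p x})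
    (hm : ∀ x y, (∀ S, |x S - y S| ≤ B) → p x → q y) :
    ∫⁻ ω, ind (p (M.X γ 0 ω)) * eE |ω w| ∂gm ≤
      2 * eE (B ^ 2 / 2) * gm {ω | q (M.X γ 0 ω)} := by
  have hf := meas_ind hT3 M γ hp
  have key : ∀ v : HH, ‖v‖ ≤ B → (∀ A, |⟪v, M.eS A⟫| ≤ B) →
      ∫⁻ ω, ind (p (M.X γ 0 ω)) * eE (ω v) ∂gm ≤
        eE (B ^ 2 / 2) * gm {ω | q (M.X γ 0 ω)} := by
    intro v h1 h2
    calc _ ≤ ∫⁻ ω, eE (B ^ 2 / 2) * (ind (p (M.X γ 0 ω)) * eE (ω v - ‖v‖ ^ 2 / 2)) ∂gm := by
          refine lintegral_mono fun ω => ?_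
          rw [mul_left_comm, ← eE_add]
          gcongr
          exact eE_mono (by nlinarith [norm_nonneg v])
      _ = eE (B ^ 2 / 2) * ∫⁻ ω, ind (p (M.X γ 0 (ω + dv v))) ∂gm := by
          rw [lintegral_const_mul' _ _ (eE_ne _), hG2.2.1 v _ hf]
      _ ≤ _ := by
          gcongr
          refine le_trans (lintegral_mono fun ω => ind_mono (hm _ _ fun S => ?_)) (ind_le _)
          rw [X_add, dv_apply, add_sub_cancel_left]
          exact h2 S
  calc _ ≤ ∫⁻ ω, (ind (p (M.X γ 0 ω)) * eE (ω w) + ind (p (M.X γ 0 ω)) * eE (ω (-w))) ∂gm := by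
        refine lintegral_mono fun ω => ?_
        rw [← mul_add, map_neg]
        gcongr
        rcases abs_choice (ω w) with e | e <;> rw [e]
        exacts [le_self_add, le_add_self]
    _ ≤ _ := by
        rw [lintegral_add_left (hf.fun_mul (meas_eE.fun_comp (meas_ev w))), mul_assoc, two_mul]
        exact add_le_add (key w h1 h2)
          (key (-w) (by rw [norm_neg]; exact h1) fun A => by rw [inner_neg_left, abs_neg]; exact h2 A)

lemma cons_sum (g : Dy → ℝ≥0∞) (K : ℕ) : ∑' S : Dy, ind (K < S.length) * g S =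
    ∑' P : Dy, ind (K ≤ P.length) * ∑ d : Fin 2 × Fin 2, g (d :: P) := by
  have hi : Function.Injective fun p : Dy × (Fin 2 × Fin 2) => p.2 :: p.1 := fun p p' h =>
    Prod.ext (List.cons.inj h).2 (List.cons.inj h).1
  rw [← hi.tsum_eq (f := fun S => ind (K < S.length) * g S), ENNReal.tsum_prod']
  · refine tsum_congr fun P => ?_
    rw [tsum_fintype, Finset.mul_sum]
    simp only [List.length_cons, Nat.lt_succ_iff]
  · rintro (_ | ⟨d, P⟩) h
    · exact (h (by simp [ind])).elim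
    · exact ⟨(P, d), rfl⟩

/-- the late event -/
def Vq (c n z : ℝ) (S : Dy) (x : Dy → ℝ) : Prop :=
  ENNReal.ofReal n ≤ nB (sh x c) ∧ x S ≤ c ∧ ENNReal.ofReal z ≤ nB (sub (sh x c) S.tail)

lemma meas_sh (hT3 : St_T3) (c : ℝ) : Measurable fun x => sh x c :=
  hT3.2.2.2.2.2.1.comp (measurable_id.prodMk measurable_const)

lemma meas_Vq (hT3 : St_T3) (c n z : ℝ) (S : Dy) : MeasurableSet {x | Vq c n z S x} :=
  (measurableSet_le measurable_const (hT3.1.comp (meas_sh hT3 c))).inter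
    ((measurableSet_le (measurable_pi_apply S) measurable_const).inter
      (measurableSet_le measurable_const (hT3.1.comp ((hT3.2.2.2.2.1 _).comp (meas_sh hT3 c)))))

lemma three {n : ℝ} (hn : 0 ≤ n) {a b c : ℝ≥0∞} (h : ENNReal.ofReal n ≤ a + b + c) :
    ENNReal.ofReal (n / 3) ≤ a ∨ ENNReal.ofReal (n / 3) ≤ b ∨ ENNReal.ofReal (n / 3) ≤ c := by
  by_contra hc
  simp only [not_or, not_le] at hc
  refine (ENNReal.add_lt_add (ENNReal.add_lt_add hc.1 hc.2.1) hc.2.2).not_ge (le_trans ?_ h)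
  rw [← ENNReal.ofReal_add (by positivity) (by positivity),
    ← ENNReal.ofReal_add (by positivity) (by positivity)]
  exact ENNReal.ofReal_le_ofReal (by linarith)

theorem late (hG2 : St_G2) (hMOD : St_MOD) (hGEO2 : St_GEO2) (hT1 : St_T1) (hT3 : St_T3)
    (hFM : St_FM) (hNMS : St_NMS) (hFAR : St_FAR) {γ : ℝ} (hγ : γ ∈ Ioo (0 : ℝ) 2) (M : Model)
    (hM : box [] ⊆ M.O) {φ : ℂ → ℝ} {B : ℝ} (hB : ∀ S, Ok M φ B (M.ub S)) (c : ℝ) :
    ∃ q A : ℝ, 1 < q ∧ 0 ≤ A ∧ ∀ ε > 0, ∃ K1 : ℕ, ∀ᶠ n : ℝ in atTop, ∀ z > 0,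
      ENNReal.ofReal (n ^ (th γ + 1)) * ∑' S : Dy, ind (K1 < S.length) *
        ∫⁻ ω, ind (Vq c n z S (M.X γ 0 ω)) * eE |ω (M.ub S)| ∂gm ≤
      ENNReal.ofReal (A * n * z ^ (-q) + ε) := by
  have hmon := hT1.2.2.2.2.2.2.2.2.2.2.2.2.2.2.2.1
  obtain ⟨q, hq, hF⟩ := hFAR γ hγ
  obtain ⟨i0, hi0⟩ := (hMOD M).2.2.2.2.2.2.2.2.2.2.2.2.2.2.1 hM
  set u := c + B with hu
  obtain ⟨KF, hF⟩ := hF M i0 (hi0 i0 le_rfl) u (2 * u)
  obtain ⟨Kt, ct, hct, hT⟩ := (hFM γ hγ).1
  have hT := fun k => (hT |M.C0 + kS [] []| (abs_nonneg _) M.eS (fun S => by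
    have := (hMOD M).2.2.2.2.2.2.1 S ((GEO1.box_sub List.nil_suffix).trans hM) [] []
    simp only [List.nil_append, real_inner_self_eq_norm_sq, covE] at this
    linarith [le_abs_self (M.C0 + kS [] [])]) u).2 k
  set c2 := 2 * Real.exp (B ^ 2 / 2) with hc2
  have hc20 : 0 < c2 := by positivity
  refine ⟨q, c2 * |KF| * 3 ^ th γ, hq, by positivity, fun ε hε => ?_⟩
  obtain ⟨K1, hN⟩ := hNMS γ hγ M hM u (2 * u) (ε / 2 / (c2 * 3 ^ (th γ + 1))) (by positivity)
  refine ⟨max K1 (i0 + 4), ?_⟩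
  set C3 := c2 * (4 * |Kt| * Real.exp (QQ γ * u + QQ γ ^ 2 * |M.C0 + kS [] []| / 2 + 2 * ct))
  have hev := ((tendsto_rpow_mul_exp_neg_mul_atTop_nhds_zero (th γ + 1) (ct / 867)
    (by positivity)).const_mul C3).eventually (gt_mem_nhds (a := ε / 2) (by simpa using hε))
  filter_upwards [hev, eventually_ge_atTop 3] with n hn hn3 z hz
  have hn0 : 0 < n := by linarith
  set k := ⌊n / 867 - 1⌋₊ with hk
  have h1 : ∀ S : Dy, ∫⁻ ω, ind (Vq c n z S (M.X γ 0 ω)) * eE |ω (M.ub S)| ∂gm ≤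
      ENNReal.ofReal c2 * gm {ω | ENNReal.ofReal n ≤ nB (M.X γ u ω) ∧ M.X γ u ω S ≤ 2 * u ∧
        ENNReal.ofReal z ≤ nB (sub (M.X γ u ω) S.tail)} := fun S => by
    refine (tilt2 hG2 hT3 M γ (hB S).nrm (hB S).eS _ (Vq u n z S) (meas_Vq hT3 c n z S)
      fun x y h hp => ?_).trans ?_
    · have h' : ∀ S, sh x c S ≤ sh y u S := fun S => by
        simp only [sh]
        linarith [(abs_le.1 (h S)).2]
      exact ⟨hp.1.trans (hmon _ _ h'), by linarith [(abs_le.1 (h S)).1, hp.2.1],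
        hp.2.2.trans (hmon _ _ fun B => h' _)⟩
    · rw [hc2, ENNReal.ofReal_mul (by norm_num), ENNReal.ofReal_ofNat, eE]
      refine mul_le_mul_right (measure_mono fun ω hω => ?_) _
      simp only [Vq, X_sh, mem_ofPred_eq] at hω ⊢
      refine ⟨hω.1, ?_, hω.2.2⟩
      rw [← X_sh, sh]
      linarith [hω.2.1]
  have h2 : ∀ (P : Dy) (d : Fin 2 × Fin 2),
      gm {ω | ENNReal.ofReal n ≤ nB (M.X γ u ω) ∧ M.X γ u ω (d :: P) ≤ 2 * u ∧
        ENNReal.ofReal z ≤ nB (sub (M.X γ u ω) (d :: P).tail)} ≤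
      gm {ω | M.X γ u ω (d :: P) ≤ 2 * u ∧ ENNReal.ofReal z ≤ nB (sub (M.X γ u ω) P) ∧
        ENNReal.ofReal (n / 3) ≤ far (M.X γ u ω) P} +
      gm {ω | M.X γ u ω (d :: P) ≤ 2 * u ∧ ENNReal.ofReal (n / 3) ≤ near (M.X γ u ω) P} +
      ind (k ≤ P.length) * gm {ω | 0 < drift (QQ γ) (fun S => ω (M.eS S)) u P} := by
    intro P d
    by_cases hP : k ≤ P.length
    · rw [ind_pos hP, one_mul]
      refine le_trans (measure_mono fun ω hω => ?_) le_add_self
      by_contra hc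
      have : nB (sub (M.X γ u ω) P) = 0 := by
        rw [nB, ENNReal.tsum_eq_zero]
        exact fun A => ind_neg fun h => hc (h [] List.nil_suffix)
      have h3 := hω.2.2
      rw [List.tail_cons, this, nonpos_iff_eq_zero, ENNReal.ofReal_eq_zero] at h3
      exact h3.not_gt hz
    · refine le_trans (le_trans (measure_mono fun ω hω => ?_) (measure_union_le _ _)) le_self_add
      rcases three hn0.le (hω.1.trans (hGEO2.1 _ P)) with h | h | h
      · refine (hP (Nat.floor_le_of_le ?_)).elim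
        rw [← ENNReal.ofReal_natCast, ← ENNReal.ofReal_one, ← ENNReal.ofReal_add (by positivity)
          zero_le_one, ← ENNReal.ofReal_ofNat, ← ENNReal.ofReal_mul (by norm_num),
          ENNReal.ofReal_le_ofReal_iff (by positivity)] at h
        linarith
      · exact Or.inl ⟨hω.2.1, hω.2.2, h⟩
      · exact Or.inr ⟨hω.2.1, h⟩
  have h3 : ∑' S : Dy, ind (max K1 (i0 + 4) < S.length) *
      ∫⁻ ω, ind (Vq c n z S (M.X γ 0 ω)) * eE |ω (M.ub S)| ∂gm ≤ ENNReal.ofReal c2 *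
      (ENNReal.ofReal (|KF| * z ^ (-q) * (n / 3) ^ (-th γ)) +
        ENNReal.ofReal (ε / 2 / (c2 * 3 ^ (th γ + 1)) * (n / 3) ^ (-(th γ + 1))) +
        4 * ENNReal.ofReal (|Kt| * Real.exp (QQ γ * u + QQ γ ^ 2 * |M.C0 + kS [] []| / 2 -
          ct * k))) := by
    refine (ENNReal.tsum_le_tsum fun S => mul_le_mul_right (h1 S) _).trans ?_
    simp only [mul_left_comm _ (ENNReal.ofReal c2)]
    rw [ENNReal.tsum_mul_left, cons_sum]
    refine mul_le_mul_right ((ENNReal.tsum_le_tsum fun P => mul_le_mul_right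
      (Finset.sum_le_sum fun d _ => h2 P d) _).trans ?_) _
    simp only [Finset.sum_add_distrib, mul_add, ENNReal.tsum_add]
    refine add_le_add (add_le_add ?_ ?_) ?_
    · refine le_trans (ENNReal.tsum_le_tsum fun P => mul_le_mul_left (ind_mono fun h =>
        (le_max_right _ _).trans h) _) ((hF z (n / 3) hz (by positivity)).trans
        (ENNReal.ofReal_le_ofReal ?_))
      gcongr
      exact le_abs_self _
    · exact le_trans (ENNReal.tsum_le_tsum fun P => mul_le_mul_left (ind_mono fun h =>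
        (le_max_left _ _).trans h) _) (hN (n / 3) (by linarith))
    · refine le_trans (ENNReal.tsum_le_tsum fun P => mul_le_of_le_one_left zero_le
        ((ind_mono fun _ => trivial).trans (ind_pos trivial).le)) ?_
      simp only [Finset.sum_const, Finset.card_univ, Fintype.card_prod, Fintype.card_fin,
        nsmul_eq_mul]
      rw [ENNReal.tsum_mul_left]
      refine mul_le_mul' (by norm_num) ((hT k).trans (ENNReal.ofReal_le_ofReal ?_))
      gcongr
      exact le_abs_self _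
  refine (mul_le_mul_right h3 _).trans ?_
  rw [show (4 : ℝ≥0∞) = ENNReal.ofReal 4 by simp, ← ENNReal.ofReal_mul (by norm_num),
    ← ENNReal.ofReal_add (by positivity) (by positivity),
    ← ENNReal.ofReal_add (by positivity) (by positivity), ← ENNReal.ofReal_mul hc20.le,
    ← ENNReal.ofReal_mul (by positivity)]
  refine ENNReal.ofReal_le_ofReal ?_
  have e1 : ∀ a : ℝ, n ^ a * (n / 3) ^ (-a) = 3 ^ a := fun a => by
    rw [Real.rpow_neg (by positivity), Real.div_rpow hn0.le (by norm_num)]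
    have : 0 < n ^ a := by positivity
    field_simp
  have e2 : n ^ (th γ + 1) * (c2 * (|KF| * z ^ (-q) * (n / 3) ^ (-th γ))) =
      c2 * |KF| * 3 ^ th γ * n * z ^ (-q) := by
    rw [Real.rpow_add_one hn0.ne', ← e1]
    ring
  have e3 : n ^ (th γ + 1) * (c2 * (ε / 2 / (c2 * 3 ^ (th γ + 1)) * (n / 3) ^ (-(th γ + 1)))) =
      ε / 2 := by
    rw [mul_left_comm, mul_left_comm (n ^ _), e1]
    have : (0 : ℝ) < 3 ^ (th γ + 1) := by positivity
    field_simp
  have e4 : n ^ (th γ + 1) * (c2 * (4 * (|Kt| * Real.exp (QQ γ * u +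
      QQ γ ^ 2 * |M.C0 + kS [] []| / 2 - ct * k)))) ≤
      C3 * (n ^ (th γ + 1) * Real.exp (-(ct / 867) * n)) := by
    have h4 : n / 867 - 1 < k + 1 := Nat.lt_floor_add_one _
    calc _ ≤ n ^ (th γ + 1) * (c2 * (4 * (|Kt| * Real.exp ((QQ γ * u +
          QQ γ ^ 2 * |M.C0 + kS [] []| / 2 + 2 * ct) + -(ct / 867) * n)))) := by
          gcongr _ * (_ * (_ * (_ * Real.exp ?_)))
          nlinarith
      _ = _ := by
          rw [Real.exp_add]
          ring
  rw [mul_add, mul_add, mul_add, mul_add, e2, e3]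
  linarith

end F2E

end Pool.Agent.Lib.APPS
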