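import Pool.Agent.Lib.APPS.B_F2Eb

/-! Block F2E, part c: local limit bound for late squares, and early squares. -/

namespace Pool.Agent.Lib.APPS

open MeasureTheory ProbabilityTheory Filter Topology Set Metric
open scoped NNReal ENNReal RealInnerProductSpace Classical

namespace F2E

open UL

lemma vp_eS (hB : St_BMP) (hG2 : St_GEO2) (hT1 : St_T1) (M : Model) (hM : box [] ⊆ M.O) :
    ∃ B, 0 ≤ B ∧ ∀ T, IsTr T → ∀ A, ∑ P ∈ two T, |⟪M.vp T P, M.eS A⟫| ≤ B := by
  obtain ⟨hbb, E, C, hE, hC, -, hb⟩ := hB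
  obtain ⟨-, -, h3, -, h5, h6, -⟩ := hb M
  obtain ⟨-, -, -, -, -, -, t7, t8, t9, t10, -⟩ := hT1
  have hsub : ∀ S, box S ⊆ M.O := fun S => (GEO1.box_sub List.nil_suffix).trans hM
  have hl : ∀ T, IsTr T → ∀ S, ∑ W ∈ lvs T, |⟪M.ub W, M.eS S⟫| ≤ bb + C := by
    intro T hT S
    by_cases hS : S ∈ T
    · rw [← Finset.sum_filter_of_ne (p := fun W => S <:+ W) fun W hW hne => by
        by_contra h
        exact hne (by rw [(h3 W S (fun h' => ((t8 T hT W).1 hW).1 (hT S hS W h')) h).2 (hsub W),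
          abs_zero])]
      rw [Finset.sum_congr rfl fun W hW => by
        rw [h5 W S (hsub W) (Finset.mem_filter.1 hW).2, abs_of_nonneg (by positivity)]]
      simp only [div_pow, ← Finset.mul_sum, ← Finset.sum_div]
      rw [hG2.2.2.2.2.2.2.2.1 T hT S hS, div_self (pow_pos (GEO1.side_pos S) 2).ne', mul_one]
      linarith
    · obtain ⟨W0, hW0, h⟩ := t10 T hT S hS
      rw [Finset.sum_eq_single_of_mem W0 hW0 fun W hW hne => by
        rw [(h3 W S (fun h' => hne ((List.suffix_or_suffix_of_suffix h' h).elim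
          (t9 T hT W hW W0 hW0) fun h'' => (t9 T hT W0 hW0 W hW h'').symm))
          fun h' => hne (t9 T hT W0 hW0 W hW (h.trans h')).symm).2 (hsub W), abs_zero],
        abs_of_nonneg (h6 W0 S (hsub W0)).1]
      linarith [(h6 W0 S (hsub W0)).2]
  have hi : ∀ T, IsTr T → ∀ S, ∀ g : Dy → Fin 2 × Fin 2, (∀ P ∈ two T, g P :: P ∈ lvs T) →
      ∑ P ∈ two T, |⟪M.ub (g P :: P), M.eS S⟫| ≤ bb + C := by
    intro T hT S g hg
    refine le_trans ?_ (hl T hT S)
    rw [← Finset.sum_image (s := two T) (g := fun P => g P :: P)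
      (f := fun W => |⟪M.ub W, M.eS S⟫|) fun P _ P' _ h => (List.cons.inj h).2]
    exact Finset.sum_le_sum_of_subset_of_nonneg (Finset.image_subset_iff.2 hg)
      fun _ _ _ => abs_nonneg _
  refine ⟨2 * (bb + C), by positivity, fun T hT S => ?_⟩
  simp only [Model.vp, inner_sub_left]
  refine (Finset.sum_le_sum fun P _ => abs_sub _ _).trans ?_
  rw [Finset.sum_add_distrib]
  linarith [hi T hT S (fun P => (pr T P).1) fun P hP => (t7 T hT P hP).2.2.1,
    hi T hT S (fun P => (pr T P).2) fun P hP => (t7 T hT P hP).2.2.2]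

/-- the condition on a single square -/
def Cq (c z : ℝ) (S : Dy) (x : Dy → ℝ) : Prop :=
  x S ≤ c ∧ ENNReal.ofReal z ≤ nB (sub (sh x c) S.tail)

lemma meas_Cq (hT3 : St_T3) (c z : ℝ) (S : Dy) : MeasurableSet {x | Cq c z S x} :=
  (measurableSet_le (measurable_pi_apply S) measurable_const).inter
    (measurableSet_le measurable_const (hT3.1.comp ((hT3.2.2.2.2.1 _).comp (meas_sh hT3 c))))

lemma meas_Mq (hT3 : St_T3) (ι : ℕ) (z : ℝ) (S : Dy) :
    MeasurableSet {x | nB x = ι ∧ IntN x S ∧ Cq 1 z S x} :=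
  (hT3.1 (measurableSet_singleton _)).inter ((hT3.2.1 S).1.inter (meas_Cq hT3 1 z S))

theorem mid (hG1D : St_G1D) (hMOD : St_MOD) (hBMP : St_BMP) (hGEO2 : St_GEO2) (hT1 : St_T1)
    (hT3 : St_T3) (hU : St_U) {γ : ℝ} (hγ : γ ∈ Ioo (0 : ℝ) 2) (M : Model)
    (hM : box [] ⊆ M.O) {φ : ℂ → ℝ} (hφ : IsPsi M φ) {B : ℝ} (hB : ∀ S, Ok M φ B (M.ub S)) :
    ∃ (c K K2 : ℝ) (ι0 : ℕ), 1 ≤ c ∧ 0 ≤ K ∧ 0 ≤ K2 ∧ ∀ ι ≥ ι0, ∀ (K1 : ℕ) (n z : ℝ), n ≤ ι →
      ∑' S : Dy, ind (K1 < S.length) * ∫⁻ ω, ind (nB (M.X γ 0 ω) = ι ∧ IntN (M.X γ 0 ω) S ∧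
        Cq 1 z S (M.X γ 0 ω)) * eE |ω (M.ub S)| ∂gm ≤
      ENNReal.ofReal (K / ι) * ∑' S : Dy, ind (K1 < S.length) *
        ∫⁻ ω, ind (Vq c n z S (M.X γ 0 ω)) * eE |ω (M.ub S)| ∂gm +
      eE (-3 * ι) * ENNReal.ofReal (K2 * ι) := by
  obtain ⟨B', hB', hv⟩ := vp_eS hBMP hGEO2 hT1 M hM
  obtain ⟨-, -, -, -, -, -, -, -, -, -, -, -, -, -, -, -, hψ, -⟩ := hMOD M
  obtain ⟨-, -, t3, t4, -, -, -, -, -, -, -, -, t13, -, -, t16, -⟩ := hT1
  obtain ⟨L, K, ι0, hL, hK, hU⟩ := hU γ hγ M hM φ hφ (2 / 3) (by norm_num)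
  have hLB := mul_nonneg hL hB'
  refine ⟨2 + L * B', K * Real.exp (B + L * B), 2 * Real.exp (B ^ 2), ι0, by linarith,
    by positivity, by positivity, fun ι hι K1 n z hn => ?_⟩
  have hm : ∀ c S, Measurable fun ω : Om =>
      ind (K1 < List.length S) * (ind (Cq c z S (M.X γ 0 ω)) * eE |ω (M.ub S)|) := fun c S =>
    ((meas_ind hT3 M γ (meas_Cq hT3 c z S)).mul (meas_abs _)).const_mul _
  have hne : ∀ p : Prop, ind p ≠ ∞ := fun p => by
    by_cases h : p <;> simp [ind, h]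
  have hle : ∀ p : Prop, ind p ≤ 1 := fun p => by
    by_cases h : p <;> simp [ind, h]
  have := hU ι hι two
    (fun T ω => ∑ S ∈ T, ind (K1 < S.length) * (ind (Cq 1 z S (M.X γ 0 ω)) * eE |ω (M.ub S)|))
    (fun ω => eE (B + L * B) * ∑' S : Dy, ind (K1 < S.length) *
      (ind (Cq (2 + L * B') z S (M.X γ 0 ω)) * eE |ω (M.ub S)|))
    (ENNReal.ofReal (2 * Real.exp (B ^ 2) * ι)) (fun T hT => ⟨subset_rfl, ?_⟩)
    (fun T => Finset.measurable_sum _ fun S _ => hm 1 S)
    ((Measurable.tsum fun S => hm _ S).const_mul _) (fun T hT ω s t hs ht _ _ => ?_) fun T hT => ?_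
  · refine le_trans ?_ (this.trans (add_le_add_left ?_ _))
    · simp only [← lintegral_const_mul' _ _ (hne _)]
      rw [← lintegral_tsum fun S => (((meas_ind hT3 M γ (meas_Mq hT3 ι z S)).fun_mul
        (meas_abs _)).const_mul _).aemeasurable]
      refine lintegral_mono fun ω => ?_
      by_cases h : nB (M.X γ 0 ω) = ι
      · have hH := t13 (M.X γ 0 ω) (by rw [h]; exact ENNReal.natCast_ne_top _)
        rw [ind_pos h, one_mul, tsum_eq_sum (s := tr (M.X γ 0 ω)) fun S hS => by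
          rw [ind_neg (p := _ ∧ _) fun h' => hS ((hH S).2 h'.2.1), zero_mul, mul_zero]]
        exact Finset.sum_le_sum fun S _ =>
          mul_le_mul_right (mul_le_mul_left (ind_mono fun h' => h'.2.2) _) _
      · simp [ind, h]
    · rw [mul_div_right_comm, ENNReal.ofReal_mul' (Real.exp_pos _).le, mul_assoc]
      refine mul_le_mul_right ?_ _
      simp only [mul_left_comm _ (eE (B + L * B))]
      rw [lintegral_const_mul' _ _ (eE_ne _)]
      refine mul_le_mul_right ?_ _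
      simp only [← lintegral_const_mul' _ _ (hne _)]
      rw [← lintegral_tsum fun S => (((meas_ind hT3 M γ (meas_Vq hT3 _ n z S)).fun_mul
        (meas_abs _)).const_mul _).aemeasurable]
      refine lintegral_mono fun ω => ?_
      rw [← ENNReal.tsum_mul_left]
      refine ENNReal.tsum_le_tsum fun S => ?_
      rw [mul_left_comm, ← mul_assoc (ind (_ ≤ _)), ← ind_and]
      refine mul_le_mul_right (mul_le_mul_left (ind_mono fun h => ⟨?_, h.2⟩) _) _
      refine le_trans ?_ (h.1.trans (t16 _ _ fun W => ?_))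
      · rw [← ENNReal.ofReal_natCast]
        exact ENNReal.ofReal_le_ofReal hn
      · simp only [sh]
        linarith
  · obtain ⟨k1, k2⟩ := (t4 ι T).1 hT
    have k3 : (2 : ℝ) * ι ≤ 3 * (two T).card := by
      rw [← k2]
      exact_mod_cast (t3 T k1).2
    linarith
  · have k1 := ((t4 ι T).1 hT).1
    refine le_trans ?_ (mul_le_mul_right (ENNReal.sum_le_tsum T) _)
    rw [Finset.mul_sum]
    refine Finset.sum_le_sum fun S _ => ?_
    rw [mul_left_comm (eE (B + L * B)), mul_left_comm (eE (B + L * B))]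
    have hX : ∀ W, |M.X γ 0 (ω + s • dv (gr φ) + ∑ P ∈ two T, t P • dv (M.vp T P)) W -
        M.X γ 0 ω W| ≤ 1 + L * B' := fun W => by
      rw [X_add, X_add, add_assoc, add_sub_cancel_left]
      simp only [LinearMap.smul_apply, LinearMap.sum_apply, dv_apply, smul_eq_mul, hψ φ hφ,
        mul_one]
      refine (abs_add_le _ _).trans (add_le_add hs ((Finset.abs_sum_le_sum_abs _ _).trans ?_))
      refine le_trans ?_ (mul_le_mul_of_nonneg_left (hv T k1 W) hL)
      rw [Finset.mul_sum]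
      refine Finset.sum_le_sum fun P _ => ?_
      rw [abs_mul]
      exact mul_le_mul_of_nonneg_right (ht P) (abs_nonneg _)
    refine mul_le_mul_right (mul_le_mul' (ind_mono fun h => ⟨?_, h.2.trans (t16 _ _ fun W => ?_)⟩)
      ((hB S).shift k1 ω hs ht)) _
    · linarith [h.1, (abs_le.1 (hX S)).1]
    · simp only [sub, sh]
      linarith [(abs_le.1 (hX (W ++ S.tail))).2]
  · have k1 := sq_le hG1D T M.ub fun S => (hB S).nrm
    rw [((t4 ι T).1 hT).2] at k1
    refine le_trans (lintegral_mono fun ω => ?_) k1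
    gcongr with S
    exact (mul_le_of_le_one_left zero_le (hle _)).trans (mul_le_of_le_one_left zero_le (hle _))

lemma nat_of (hT1 : St_T1) {x : Dy → ℝ} {n m : ℕ} (h1 : (n : ℝ≥0∞) < nB x)
    (h2 : nB x ≤ n + m) : ∃ j ∈ Finset.Icc 1 m, nB x = (n + j : ℕ) := by
  have h3 := (hT1.2.2.2.2.2.2.2.2.2.2.2.1 x _ (hT1.2.2.2.2.2.2.2.2.2.2.2.2.1 x
    (ne_top_of_le_ne_top (by finiteness) h2))).2.2.1
  rw [h3] at h1 h2 ⊢
  norm_cast at h1 h2 ⊢
  exact ⟨(tr x).card - n, Finset.mem_Icc.2 ⟨by omega, by omega⟩, by omega⟩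

theorem early (hG2 : St_G2) (hMOD : St_MOD) (hT1 : St_T1) (hT3 : St_T3) (hRW1 : St_RW1)
    (hRUS : St_RUS) (hMAC : St_MAC) (hUL : St_UL) {γ : ℝ} (hγ : γ ∈ Ioo (0 : ℝ) 2) (M : Model)
    (hM : box [] ⊆ M.O) {φ : ℂ → ℝ} {B : ℝ} (hB : ∀ S, Ok M φ B (M.ub S)) (K1 : ℕ) (ε : ℝ)
    (hε : 0 < ε) : ∀ᶠ n : ℕ in atTop, ∀ J : ℕ,
      ENNReal.ofReal ((n : ℝ) ^ (th γ + 1)) * ∑' S : Dy, ind (S.length ≤ K1) *
        ∫⁻ ω, ind (Ev n J S (M.X γ 0 ω)) * eE |ω (M.ub S)| ∂gm ≤ ENNReal.ofReal ε := by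
  have hθ := (hRW1.2.2 γ hγ).2.2.1
  have hmon := hT1.2.2.2.2.2.2.2.2.2.2.2.2.2.2.2.1
  have hgr : Gram M.eS (covE M.C0) := by simpa using (hMOD M).2.2.2.2.2.2.1 [] hM
  obtain ⟨K, hK⟩ := (hUL γ hγ M hM).1
  obtain ⟨K0, h0⟩ := (hRUS γ hγ).2 M.C0
  set F := (Finset.range (K1 + 1)).biUnion lev with hF
  set e := ε / (3 * (F.card + 1)) with he
  have he0 : 0 < e := by positivity
  set δ := min (1 / 2) (e / (|K| + 1)) with hδ
  have hδ0 : 0 < δ := by positivity
  set c3 := 2 * Real.exp ((2 * B) ^ 2 / 2) * (|K0| * Real.exp (γ * (2 * B)) ^ (th γ + 1))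
  have hc3 : 0 ≤ c3 := by positivity
  set Mx := (c3 + 1) / e with hMx
  have hMx0 : 0 < Mx := by positivity
  filter_upwards [tendsto_natCast_atTop_atTop.eventually
    ((hMAC γ hγ M hM).2.2 K1 δ (e / Mx) hδ0 (by positivity)), eventually_ge_atTop 1] with n hn hn1 J
  have hn1' : (1 : ℝ) ≤ n := by exact_mod_cast hn1
  set a := (n : ℝ) ^ (th γ + 1) with ha
  have ha0 : 0 < a := by positivity
  generalize hBn : {ω | ∃ S : Dy, S.length ≤ K1 ∧ IntN (M.X γ 0 ω) S ∧
      ENNReal.ofReal (δ * n) ≤ nB (sub (M.X γ 0 ω) S) ∧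
      ENNReal.ofReal (δ * n) + nB (sub (M.X γ 0 ω) S) ≤ nB (M.X γ 0 ω)} = Bn at hn
  have hnB : MeasurableSet {x | ENNReal.ofReal n ≤ nB x} :=
    measurableSet_le measurable_const hT3.1
  have hN : ∀ ι : ℕ, MeasurableSet {x | nB x = ι} := fun ι => hT3.1 (measurableSet_singleton _)
  have key : ∀ S : Dy, S.length ≤ K1 → ENNReal.ofReal a *
      ∫⁻ ω, ind (Ev n J S (M.X γ 0 ω)) * eE |ω (M.ub S)| ∂gm ≤ ENNReal.ofReal (3 * e) := by
    intro S hS
    have m1 : ∀ j : ℕ, Measurable fun ω : Om =>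
        ind (nB (M.X γ 0 ω) = (n + j : ℕ)) * eE |ω (M.ub S)| := fun j =>
      (meas_ind hT3 M γ (hN _)).mul (meas_abs _)
    have m2 : Measurable fun ω : Om =>
        ind (ENNReal.ofReal n ≤ nB (M.X γ 0 ω)) * eE |ω ((2 : ℝ) • M.ub S)| :=
      (meas_ind hT3 M γ hnB).mul (meas_abs _)
    have k1 : ∫⁻ ω, ind (Ev n J S (M.X γ 0 ω)) * eE |ω (M.ub S)| ∂gm ≤
        ∑ j ∈ Finset.Icc 1 ⌊δ * n⌋₊,
          ∫⁻ ω, ind (nB (M.X γ 0 ω) = (n + j : ℕ)) * eE |ω (M.ub S)| ∂gm +
        ENNReal.ofReal Mx⁻¹ * ∫⁻ ω, ind (ENNReal.ofReal n ≤ nB (M.X γ 0 ω)) *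
          eE |ω ((2 : ℝ) • M.ub S)| ∂gm + ENNReal.ofReal Mx * gm Bn := by
      refine le_trans ?_ (add_le_add_right (mul_le_mul_right (ind_le (· ∈ Bn)) _) _)
      rw [← lintegral_finsetSum _ fun j _ => m1 j, ← lintegral_const_mul' _ _ ENNReal.ofReal_ne_top,
        ← lintegral_const_mul' _ _ ENNReal.ofReal_ne_top,
        ← lintegral_add_left (Finset.measurable_sum _ fun j _ => m1 j),
        ← lintegral_add_left ((Finset.measurable_sum _ fun j _ => m1 j).fun_add (m2.const_mul _))]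
      refine lintegral_mono fun ω => ?_
      by_cases hE : Ev n J S (M.X γ 0 ω)
      swap
      · rw [ind_neg hE, zero_mul]
        exact zero_le
      obtain ⟨-, e1, -, -, e2, N0, e3, e4, e5⟩ := id hE
      rw [ind_pos hE, one_mul]
      by_cases hx : nB (sub (M.X γ 0 ω) S) ≤ ENNReal.ofReal (δ * n)
      · have hfin : nB (sub (M.X γ 0 ω) S) ≤ ⌊δ * n⌋₊ := by
          have h3 := (hT1.2.2.2.2.2.2.2.2.2.2.2.1 _ _ (hT1.2.2.2.2.2.2.2.2.2.2.2.2.1 _
            (ne_top_of_le_ne_top ENNReal.ofReal_ne_top hx))).2.2.1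
          rw [h3] at hx ⊢
          rw [← ENNReal.ofReal_natCast, ENNReal.ofReal_le_ofReal_iff (by positivity)] at hx
          exact_mod_cast Nat.le_floor hx
        obtain ⟨j, hj, hj'⟩ := nat_of hT1 e2 (e3 ▸ add_le_add e4 hfin)
        refine le_trans ?_ (le_self_add.trans le_self_add)
        refine le_trans ?_ (Finset.single_le_sum (f := fun j : ℕ =>
          ind (nB (M.X γ 0 ω) = (n + j : ℕ)) * eE |ω (M.ub S)|) (fun _ _ => zero_le) hj)
        simp only
        rw [ind_pos hj', one_mul]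
      · have hω : ω ∈ Bn := by
          rw [← hBn]
          refine ⟨S, hS, e1, (not_le.1 hx).le, e3 ▸ add_le_add_left ?_ _⟩
          refine (ENNReal.mul_le_mul_iff_right (a := 2) two_ne_zero (by simp)).1 (le_trans ?_ e5)
          rw [← ENNReal.ofReal_natCast, ← ENNReal.ofReal_ofNat, ← ENNReal.ofReal_mul (by norm_num)]
          exact ENNReal.ofReal_le_ofReal (by nlinarith [min_le_left (1 / 2) (e / (|K| + 1))])
        rw [add_assoc, ind_pos hω, ind_pos (by rw [ENNReal.ofReal_natCast]; exact e2.le), one_mul,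
          mul_one, eE, eE, ← ENNReal.ofReal_mul (by positivity),
          ← ENNReal.ofReal_add (by positivity) hMx0.le]
        refine le_trans (ENNReal.ofReal_le_ofReal ?_) le_add_self
        rw [map_smul, smul_eq_mul, abs_mul, abs_two, two_mul, Real.exp_add]
        have := Real.exp_pos |ω (M.ub S)|
        generalize Real.exp |ω (M.ub S)| = y at this ⊢
        have h3 : Mx⁻¹ * (y * y) + Mx - y = Mx⁻¹ * ((y - Mx) ^ 2 + Mx * y) := by
          field_simp
          ring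
        have h4 : 0 ≤ Mx⁻¹ * ((y - Mx) ^ 2 + Mx * y) := by positivity
        linarith
    refine (mul_le_mul_right k1 _).trans ?_
    rw [mul_add, mul_add, show 3 * e = e + e + e by ring,
      ENNReal.ofReal_add (by positivity) he0.le, ENNReal.ofReal_add he0.le he0.le]
    refine add_le_add (add_le_add ?_ ?_) ?_
    · refine (mul_le_mul_right (Finset.sum_le_card_nsmul _ _
        (ENNReal.ofReal (|K| * (n : ℝ) ^ (-(th γ + 2)))) fun j _ => (hK _ (by omega) S).trans
          (ENNReal.ofReal_le_ofReal ?_)) _).trans ?_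
      · refine mul_le_mul (le_abs_self _) (Real.rpow_le_rpow_of_nonpos (by linarith) ?_
          (by linarith)) (by positivity) (abs_nonneg _)
        exact_mod_cast Nat.le_add_right n j
      · rw [Nat.card_Icc, Nat.add_sub_cancel, nsmul_eq_mul, ← ENNReal.ofReal_natCast,
          ← ENNReal.ofReal_mul (by positivity), ← ENNReal.ofReal_mul ha0.le]
        refine ENNReal.ofReal_le_ofReal ?_
        have h1 : a * n * (n : ℝ) ^ (-(th γ + 2)) = 1 := by
          rw [ha, ← Real.rpow_add_one (by positivity), ← Real.rpow_add (by positivity),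
            show th γ + 1 + 1 + -(th γ + 2) = 0 by ring, Real.rpow_zero]
        have h2 : δ * (|K| + 1) ≤ e := (le_div_iff₀ (by positivity)).1 (min_le_right _ _)
        calc _ ≤ a * (δ * n * (|K| * (n : ℝ) ^ (-(th γ + 2)))) := by
              gcongr
              exact Nat.floor_le (by positivity)
          _ = δ * |K| * (a * n * (n : ℝ) ^ (-(th γ + 2))) := by ring
          _ ≤ _ := by rw [h1]; linarith
    · have k2 := tilt2 hG2 hT3 M γ (B := 2 * B) (w := (2 : ℝ) • M.ub S) (by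
        rw [norm_smul, Real.norm_two]; linarith [(hB S).nrm]) (fun A => by
        rw [real_inner_smul_left, abs_mul, abs_two]; linarith [(hB S).eS A]) _
        (fun y => ENNReal.ofReal n ≤ nB (sh y (2 * B))) hnB fun x y h hp =>
          hp.trans (hmon _ _ fun W => by simp only [sh]; linarith [(abs_le.1 (h W)).2])
      simp only [X_sh] at k2
      have k3 := h0 M.eS hgr (2 * B) n hn1'
      rw [XV_eS] at k3
      refine (mul_le_mul_right (mul_le_mul_right (k2.trans (mul_le_mul_right (k3.trans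
        (ENNReal.ofReal_le_ofReal (mul_le_mul_of_nonneg_right (le_abs_self _)
          (by positivity)))) _)) _) _).trans ?_
      rw [eE, show (2 : ℝ≥0∞) = ENNReal.ofReal 2 by simp, ← ENNReal.ofReal_mul (by norm_num),
        ← ENNReal.ofReal_mul (by positivity), ← ENNReal.ofReal_mul (by positivity),
        ← ENNReal.ofReal_mul ha0.le]
      refine ENNReal.ofReal_le_ofReal ?_
      rw [Real.div_rpow (Real.exp_pos _).le (by positivity), ← ha]
      calc _ = c3 / (c3 + 1) * e := by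
            rw [hMx]
            simp only [c3]
            field_simp
        _ ≤ _ := mul_le_of_le_one_left he0.le ((div_le_one (by positivity)).2 (by linarith))
    · rw [mul_left_comm]
      refine (mul_le_mul_right hn _).trans ?_
      rw [← ENNReal.ofReal_mul hMx0.le, mul_div_cancel₀ _ hMx0.ne']
  rw [← ENNReal.tsum_mul_left, tsum_eq_sum (s := F) fun S hS => by
    rw [ind_neg fun h => hS (Finset.mem_biUnion.2 ⟨S.length, Finset.mem_range.2 (by omega),
      (hT1.1 _ _).2 rfl⟩), zero_mul, mul_zero]]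
  refine (Finset.sum_le_card_nsmul _ _ (ENNReal.ofReal (3 * e)) fun S _ => ?_).trans ?_
  · by_cases h : S.length ≤ K1
    · rw [ind_pos h, one_mul]
      exact key S h
    · rw [ind_neg h, zero_mul, mul_zero]
      exact zero_le
  · rw [nsmul_eq_mul, ← ENNReal.ofReal_natCast, ← ENNReal.ofReal_mul (by positivity)]
    refine ENNReal.ofReal_le_ofReal ?_
    calc _ = F.card / (F.card + 1) * ε := by
          rw [he]
          field_simp
      _ ≤ _ := mul_le_of_le_one_left hε.le ((div_le_one (by positivity)).2 (by linarith))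

end F2E

end Pool.Agent.Lib.APPS
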