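import Pool.Agent.Lib.APPS.Blue4

/-!
Block F2, deterministic part: effect of closing one leaf on the tree.
-/

namespace Pool.Agent.Lib.APPS

open MeasureTheory ProbabilityTheory Filter Topology Set Metric
open scoped NNReal ENNReal RealInnerProductSpace Classical

noncomputable section

namespace F2

theorem ind_t {p : Prop} (h : p) : ind p = 1 := if_pos h
theorem ind_f {p : Prop} (h : ¬p) : ind p = 0 := if_neg h

theorem ind_mono {p q : Prop} (h : p → q) : ind p ≤ ind q := by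
  by_cases hp : p
  · rw [ind_t hp, ind_t (h hp)]
  · rw [ind_f hp]; exact zero_le

theorem ind_iff {p q : Prop} (h : p ↔ q) : ind p = ind q := by rw [propext h]

theorem intN_nil {x : Dy → ℝ} : IntN x [] ↔ 0 < x [] :=
  ⟨fun h => h [] (List.suffix_refl _), fun h B hB => by rw [List.suffix_nil.1 hB]; exact h⟩

theorem intN_cons {x : Dy → ℝ} {d : Fin 2 × Fin 2} {A : Dy} :
    IntN x (d :: A) ↔ 0 < x (d :: A) ∧ IntN x A := by
  constructor
  · intro h
    exact ⟨h _ (List.suffix_refl _), fun B hB => h B (hB.trans (List.suffix_cons _ _))⟩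
  · rintro ⟨h1, h2⟩ B hB
    rcases List.suffix_cons_iff.1 hB with rfl | hB
    exacts [h1, h2 B hB]

theorem len_lt (hT : St_T1) {y : Dy → ℝ} {J : ℕ} (h : nB y ≤ J) {A : Dy} (hA : IntN y A) :
    A.length < J := by
  obtain ⟨-, -, -, -, -, h6, -, -, -, -, -, h12, h13, -⟩ := hT
  have h1 := h13 y (ne_top_of_le_ne_top (ENNReal.natCast_ne_top J) h)
  obtain ⟨h2, -, h3, -⟩ := h12 y _ h1
  rw [h3] at h
  exact (h6 _ h2 A ((h1 A).2 hA)).trans_le (by exact_mod_cast h)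

theorem nB_congr {y y' : Dy → ℝ} (h : ∀ A, IntN y A ↔ IntN y' A) : nB y = nB y' :=
  tsum_congr fun A => ind_iff (h A)

theorem nB_sign (hT : St_T1) {y y' : Dy → ℝ} {J : ℕ} (h : nB y ≤ J)
    (hs : ∀ B : Dy, B.length ≤ J → (0 < y B ↔ 0 < y' B)) : nB y' = nB y := by
  refine (nB_congr fun A => ?_).symm
  induction A with
  | nil => rw [intN_nil, intN_nil]; exact hs [] (by simp)
  | cons d A ih =>
    rw [intN_cons, intN_cons, ← ih]
    exact and_congr_left fun hA => hs _ (by simpa using len_lt hT h hA)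

theorem nB_le_iff (hT : St_T1) {y y' : Dy → ℝ} {J : ℕ}
    (hs : ∀ B : Dy, B.length ≤ J → (0 < y B ↔ 0 < y' B)) : nB y ≤ J ↔ nB y' ≤ J :=
  ⟨fun h => (nB_sign hT h hs).trans_le h,
    fun h => (nB_sign hT h fun B hB => (hs B hB).symm).trans_le h⟩

theorem tsum_below (hT : St_T1) (x : Dy → ℝ) (P : Dy) :
    ∑' A : Dy, ind (P <:+ A ∧ IntN x A) = ind (IntN x P) * nB (sub x P) := by
  have h16 := hT.2.2.2.2.2.2.2.2.2.2.2.2.2.2.2.2.1
  rw [← (List.append_left_injective P).tsum_eq (f := fun A => ind (P <:+ A ∧ IntN x A)), nB,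
    ← ENNReal.tsum_mul_left]
  · refine tsum_congr fun B => ?_
    by_cases h1 : IntN x P
    · rw [ind_t h1, one_mul]
      exact ind_iff (by simp [h16, h1])
    · rw [ind_f h1, zero_mul, ind_f fun h => h1 ((h16 _ _ _).1 h.2).1]
  · intro A hA
    by_contra h
    refine hA (ind_f fun h' => h ?_)
    obtain ⟨B, rfl⟩ := h'.1
    exact ⟨B, rfl⟩

theorem nB_split (hT : St_T1) (x : Dy → ℝ) (P : Dy) :
    nB x = ∑' A : Dy, ind (¬P <:+ A ∧ IntN x A) + ind (IntN x P) * nB (sub x P) := by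
  rw [← tsum_below hT, ← ENNReal.tsum_add]
  refine tsum_congr fun A => ?_
  by_cases h : P <:+ A <;> simp [ind, h]

theorem nB_zero {y : Dy → ℝ} (h : ¬0 < y []) : nB y = 0 :=
  ENNReal.tsum_eq_zero.2 fun _ => ind_f fun h' => h (h' [] List.nil_suffix)

theorem sub_sub (x : Dy → ℝ) (A B : Dy) : sub (sub x A) B = sub x (B ++ A) := by
  funext S
  simp [sub]

theorem nB_sub_cons (hT : St_T1) {x : Dy → ℝ} {P : Dy} (h : 0 < x P) (d : Fin 2 × Fin 2) :
    nB (sub x (d :: P)) ≤ nB (sub x P) := by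
  by_cases h1 : 0 < x (d :: P)
  · have := hT.2.2.2.2.2.2.2.2.2.2.2.2.2.2.2.2.2.1 (sub x P) [d]
      (intN_cons.2 ⟨h1, intN_nil.2 h⟩)
    rwa [sub_sub] at this
  · rw [nB_zero (y := sub x (d :: P)) h1]
    exact zero_le

theorem nB_rec (hT : St_T1) {x : Dy → ℝ} {S : Dy} (h : 0 < x S) : nB (sub x S) = xi x S := by
  have h1 : ∀ c : Fin 2 × Fin 2, nB (sub x (c :: S)) =
      ∑' A : Dy, ind ([c] <:+ A ∧ IntN (sub x S) A) := by
    intro c
    rw [tsum_below hT, sub_sub]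
    by_cases h2 : 0 < x (c :: S)
    · rw [ind_t (p := IntN (sub x S) [c]) (intN_cons.2 ⟨h2, intN_nil.2 h⟩), one_mul]
      rfl
    · rw [nB_zero (y := sub x (c :: S)) h2, nB_zero (y := sub x ([c] ++ S)) h2, mul_zero]
  have h0 : (1 : ℝ≥0∞) = ∑' A : Dy, ind (A = []) := by
    rw [tsum_eq_single [] fun A hA => ind_f hA, ind_t rfl]
  rw [xi, h0]
  simp only [h1]
  rw [← Summable.tsum_finsetSum fun _ _ => ENNReal.summable, ← ENNReal.tsum_add]
  refine tsum_congr fun A => ?_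
  rcases List.eq_nil_or_concat A with rfl | ⟨B, c, rfl⟩
  · rw [ind_t (intN_nil.2 h), ind_t rfl, Finset.sum_eq_zero fun c _ => ind_f (by simp), add_zero]
  · rw [List.concat_eq_append, ind_f (p := B ++ [c] = []) (by simp), zero_add,
      Finset.sum_eq_single c]
    · exact ind_iff (by simp)
    · intro c' _ hc
      refine ind_f fun h' => hc ?_
      obtain ⟨B', hB'⟩ := h'.1
      simpa using (List.append_inj' hB' rfl).2
    · simp

theorem nB_mono (hT : St_T1) {x y : Dy → ℝ} (h : ∀ S, x S ≤ y S) : nB x ≤ nB y :=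
  hT.2.2.2.2.2.2.2.2.2.2.2.2.2.2.2.1 x y h

theorem nB_cmp (hT : St_T1) {x x' : Dy → ℝ} {P : Dy}
    (ha : ∀ B, (P <:+ B → B = P) → x' B = x B) : nB x ≤ nB x' + nB (sub x P) := by
  rw [nB_split hT x P]
  refine add_le_add (ENNReal.tsum_le_tsum fun A => ind_mono fun h B hB => ?_)
    (mul_le_of_le_one_left' (ind_mono (q := True) (fun _ => trivial) |>.trans (ind_t trivial).le))
  rw [ha B fun h' => absurd (h'.trans hB) h.1]
  exact h.2 B hB

theorem sgn {a a' δ : ℝ} (h : δ < |a|) (h' : |a' - a| ≤ δ) : 0 < a ↔ 0 < a' := by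
  rw [abs_le] at h'
  rcases lt_abs.1 h with h | h <;> constructor <;> intro <;> linarith [h'.1, h'.2]

/-- robustness of the signs -/
def Rob (J : ℕ) (δ : ℝ) (d : Fin 2 × Fin 2) (y : Dy → ℝ) : Prop :=
  ∀ B : Dy, B.length ≤ J + 2 → B ≠ [d] → δ < |y B| ∧ δ < |y B + 1|

/-- the perturbation closing the leaf `d :: P` -/
structure Pert (x x' : Dy → ℝ) (P : Dy) (d : Fin 2 × Fin 2) (δ : ℝ) : Prop where
  out : ∀ B, (P <:+ B → B = P) → x' B = x B
  near : ∀ B, |x' B - x B| ≤ δ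
  small : δ ≤ 3 / 4
  zero : x' (d :: P) = 0
  pos : 0 < x (d :: P)

theorem Pert.intP {x x' : Dy → ℝ} {P : Dy} {d : Fin 2 × Fin 2} {δ : ℝ} (h : Pert x x' P d δ) :
    IntN x P ↔ IntN x' P :=
  forall_congr' fun B => forall_congr' fun hB => by
    rw [h.out B fun h' => hB.eq_of_length_le h'.length_le]

theorem Pert.rob0 (hT : St_T1) {x x' : Dy → ℝ} {P : Dy} {d : Fin 2 × Fin 2} {δ : ℝ}
    (h : Pert x x' P d δ) {J : ℕ} (hr : Rob J δ d (sub x P)) :
    nB (sub (sh x 1) P) ≤ J ↔ nB (sub (sh x' 1) P) ≤ J := by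
  refine nB_le_iff hT fun B hB => ?_
  by_cases hd : B = [d]
  · subst hd
    have h1 := h.zero
    have h2 := h.pos
    simp only [sub, sh, List.singleton_append]
    constructor <;> intro <;> linarith
  · exact sgn (hr B (by omega) hd).2 (by simpa [sub, sh] using h.near (B ++ P))

theorem Pert.rob (hT : St_T1) {x x' : Dy → ℝ} {P : Dy} {d : Fin 2 × Fin 2} {δ : ℝ}
    (h : Pert x x' P d δ) {J : ℕ} (hr : Rob J δ d (sub x P)) (hP : IntN x P)
    (hJ : nB (sub (sh x 1) P) ≤ J) :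
    nB x = nB x' + xi x (d :: P) ∧ xi x' (d :: P) = xi x (d :: P) ∧ xi x (d :: P) ≤ J ∧
      ∀ A, IntN x' A → IntN x A := by
  have h16 := hT.2.2.2.2.2.2.2.2.2.2.2.2.2.2.2.2.1
  have hP0 := hP P (List.suffix_refl _)
  have hJ' : nB (sub x P) ≤ J :=
    (nB_mono hT fun S => by simp [sub, sh]).trans hJ
  have hn : ¬IntN x' (d :: P) := fun h' => by
    have := (intN_cons.1 h').1
    rw [h.zero] at this
    exact lt_irrefl _ this
  have h1 : ∀ A, ¬d :: P <:+ A → (IntN x A ↔ IntN x' A) := by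
    intro A
    induction A with
    | nil =>
      intro _
      rw [intN_nil, intN_nil, h.out [] fun h' => (List.suffix_nil.1 h').symm]
    | cons c A ih =>
      intro hA
      rw [intN_cons, intN_cons, ← ih fun h' => hA (h'.trans (List.suffix_cons _ _))]
      refine and_congr_left fun hA' => ?_
      by_cases hp : P <:+ A
      · obtain ⟨B, rfl⟩ := hp
        have h2 := len_lt hT hJ' ((h16 _ _ _).1 hA').2
        refine sgn (hr (c :: B) (by simp; omega) fun h3 => hA ?_).1 (h.near _)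
        rw [← List.cons_append, h3]
        exact List.suffix_refl _
      · rw [h.out _ fun h' => ((List.suffix_cons_iff.1 h').resolve_right hp).symm]
  have h2 : xi x (d :: P) ≤ J := by
    rw [← nB_rec hT h.pos]
    exact (nB_sub_cons hT hP0 d).trans hJ'
  refine ⟨?_, ?_, h2, fun A hA => ?_⟩
  · rw [nB_split hT x (d :: P), nB_split hT x' (d :: P), ind_f hn, zero_mul, add_zero,
      ind_t (intN_cons.2 ⟨h.pos, hP⟩), one_mul, nB_rec hT h.pos]
    congr 1
    exact tsum_congr fun A => ind_iff (and_congr_right (h1 A))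
  · unfold xi
    congr 1
    refine Finset.sum_congr rfl fun c _ => nB_sign hT (J := J)
      ((nB_sub_cons hT h.pos c).trans ((nB_sub_cons hT hP0 d).trans hJ')) fun B hB => ?_
    have h3 := (hr (B ++ [c, d]) (by simp; omega) fun h4 => by
      simpa using congrArg List.length h4).1
    simp only [sub, List.append_assoc, List.cons_append, List.nil_append] at h3 ⊢
    exact sgn h3 (h.near _)
  · exact (h1 A fun h' => hn fun B hB => hA B (hB.trans h')).2 hA

theorem sib_cons (d : Fin 2 × Fin 2) (P : Dy) : sib (d :: P) = (d.1 + 1, d.2) :: P := rfl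

theorem five (hT : St_T1) {x z : Dy → ℝ} {P : Dy} {d : Fin 2 × Fin 2} {J : ℕ}
    (hz : ∀ S, x S + 1 / 4 ≤ z S) (hP : 0 < z P) (hd : 0 < z (d :: P)) (hJ : nB (sub z P) ≤ J) :
    ∑ c : Fin 2 × Fin 2, nB (sub (sh x (1 / 4)) (c :: d :: P)) +
      nB (sub (sh x (1 / 4)) (sib (d :: P))) ≤ (5 * J + 1 : ℕ) := by
  have h1 : ∀ A, nB (sub (sh x (1 / 4)) A) ≤ nB (sub z A) := fun A => nB_mono hT fun S => hz _
  calc _ ≤ ∑ _c : Fin 2 × Fin 2, (J : ℝ≥0∞) + J :=
        add_le_add (Finset.sum_le_sum fun c _ => (h1 _).trans ((nB_sub_cons hT hd c).trans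
          ((nB_sub_cons hT hP d).trans hJ))) ((h1 _).trans ((nB_sub_cons hT hP _).trans hJ))
    _ ≤ _ := by
        simp only [Finset.sum_const, Finset.card_univ, Fintype.card_prod, Fintype.card_fin,
          nsmul_eq_mul]
        norm_cast
        omega

/-- the local condition of the main functionals -/
def pF (J : ℕ) (μ : ℝ) (i : ℕ) (d : Fin 2 × Fin 2) (y : Dy → ℝ) : Prop :=
  (0 < y [] ∧ y [d] ∈ Ioc 0 μ) ∧ (i : ℝ≥0∞) ≤ xi y [d] ∧ nB (sh y 1) ≤ J

def pD (μ : ℝ) (d : Fin 2 × Fin 2) (y : Dy → ℝ) : Prop := |y [d]| ≤ μ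

def pE (J : ℕ) (δ : ℝ) (d : Fin 2 × Fin 2) (y : Dy → ℝ) : Prop := |y [d]| ≤ δ ∧ ¬Rob J δ d y

theorem xi_sub (x : Dy → ℝ) (P : Dy) (d : Fin 2 × Fin 2) : xi (sub x P) [d] = xi x (d :: P) := by
  simp [xi, sub_sub]

def cG (J n : ℕ) (S : Dy) (x : Dy → ℝ) : Prop :=
  Cross n S x ∧ ¬(S = [] ∨ (J : ℝ≥0∞) < nB (sub (sh x 1) S.tail))

def cH (J n : ℕ) (μ : ℝ) (P : Dy) (d : Fin 2 × Fin 2) (x : Dy → ℝ) : Prop :=
  ∃ i ∈ Finset.Icc 1 J, nB x = (n + i : ℕ) ∧ IntN x P ∧ pF J μ i d (sub x P)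

theorem side_G (hT : St_T1) {x x' : Dy → ℝ} {P : Dy} {d : Fin 2 × Fin 2} {δ : ℝ}
    (h : Pert x x' P d δ) {J n : ℕ} (hg : cG J n (d :: P) x') :
    IntN x P ∧ (n : ℝ≥0∞) ≤ nB x + (5 * J + 1 : ℕ) ∧ nB x ≤ n + (5 * J + 1 : ℕ) ∧
      ∑ c : Fin 2 × Fin 2, nB (sub (sh x (1 / 4)) (c :: d :: P)) +
        nB (sub (sh x (1 / 4)) (sib (d :: P))) ≤ (5 * J + 1 : ℕ) := by
  obtain ⟨⟨h1, h2, h3, -⟩, h4⟩ := hg
  have hJ : nB (sub (sh x' 1) P) ≤ J := not_lt.1 fun h' => h4 (Or.inr h')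
  have hP' : IntN x' P := fun B hB => h1.2 B (hB.trans (List.suffix_cons _ _)) fun h' => by
    have := hB.length_le
    simp [h'] at this
  have hP0 := hP' P (List.suffix_refl _)
  have hz : ∀ S, x S + 1 / 4 ≤ sh x' 1 S := fun S => by
    have := abs_le.1 (h.near S)
    simp only [sh]
    linarith [h.small]
  have hd : 0 < sh x' 1 (d :: P) := by simp [sh, h.zero]
  have hp : 0 < sh x' 1 P := by simp only [sh]; linarith
  refine ⟨h.intP.2 hP', ?_, ?_, five hT hz hp hd hJ⟩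
  · have h5 : nB x' ≤ nB x + J := (nB_cmp hT fun B hB => (h.out B hB).symm).trans
      (add_le_add_right ((nB_mono hT fun S => by simp [sub, sh]).trans hJ) _)
    have h6 : xi x' (d :: P) ≤ 1 + ∑ _c : Fin 2 × Fin 2, (J : ℝ≥0∞) :=
      add_le_add_right (Finset.sum_le_sum fun c _ => (nB_mono hT fun S => by
        simp [sub, sh]).trans ((nB_sub_cons hT hd c).trans ((nB_sub_cons hT hp d).trans hJ))) _
    refine h3.le.trans ((add_le_add h5 h6).trans (le_of_eq ?_))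
    simp only [Finset.sum_const, Finset.card_univ, Fintype.card_prod, Fintype.card_fin,
      nsmul_eq_mul]
    push_cast
    ring
  · refine (nB_cmp hT h.out).trans (add_le_add h2 ?_)
    refine ((nB_mono hT fun S => ?_).trans hJ).trans (by norm_cast; omega)
    have := hz (S ++ P)
    simp only [sub]
    linarith

theorem side_H (hT : St_T1) {x : Dy → ℝ} {P : Dy} {d : Fin 2 × Fin 2} {μ : ℝ} {J n : ℕ}
    (hh : cH J n μ P d x) :
    IntN x P ∧ (n : ℝ≥0∞) ≤ nB x + (5 * J + 1 : ℕ) ∧ nB x ≤ n + (5 * J + 1 : ℕ) ∧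
      ∑ c : Fin 2 × Fin 2, nB (sub (sh x (1 / 4)) (c :: d :: P)) +
        nB (sub (sh x (1 / 4)) (sib (d :: P))) ≤ (5 * J + 1 : ℕ) := by
  obtain ⟨i, hi, h1, h2, h3, -, h5⟩ := hh
  rw [Finset.mem_Icc] at hi
  have hP0 := h2 P (List.suffix_refl _)
  have hd : 0 < x (d :: P) := h3.2.1
  refine ⟨h2, ?_, ?_, five hT (z := sh x 1) (fun S => by simp only [sh]; linarith)
    (by simp only [sh]; linarith) (by simp only [sh]; linarith) h5⟩ <;>
  · rw [h1]
    norm_cast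
    omega

theorem rob_iff (hT : St_T1) {x x' : Dy → ℝ} {P : Dy} {d : Fin 2 × Fin 2} {δ μ : ℝ}
    (h : Pert x x' P d δ) {J n : ℕ} (hr : Rob J δ d (sub x P)) (hμ : x (d :: P) ≤ μ)
    (hn : 2 * J ≤ n) (hn1 : 1 ≤ n) (hc : cG J n (d :: P) x' ∨ cH J n μ P d x) :
    cG J n (d :: P) x' ∧ cH J n μ P d x ∧ ∀ Λ Φ, Cls Λ Φ →
      |Φ (tr x') - Φ (tr x)| ≤ |Λ| * J / n := by
  have hP : IntN x P := hc.elim (fun h' => (side_G hT h h').1) fun h' => (side_H hT h').1
  have hJ : nB (sub (sh x 1) P) ≤ J := by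
    rcases hc with h' | ⟨i, -, -, -, -, -, h'⟩
    · exact (h.rob0 hT hr).2 (not_lt.1 fun h'' => h'.2 (Or.inr h''))
    · exact h'
  have hfin : nB x ≠ ∞ := ne_top_of_le_ne_top (by finiteness)
    (hc.elim (fun h' => (side_G hT h h').2.2.1) fun h' => (side_H hT h').2.2.1)
  obtain ⟨e1, e2, e3, e4⟩ := h.rob hT hr hP hJ
  have hfin' : nB x' ≠ ∞ := ne_top_of_le_ne_top hfin (e1 ▸ le_self_add)
  obtain ⟨-, -, -, -, -, -, -, -, -, -, -, h12, h13, -⟩ := id hT
  have t1 := h13 x hfin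
  have t2 := h13 x' hfin'
  obtain ⟨u1, -, u2, -⟩ := h12 x _ t1
  obtain ⟨v1, -, v2, -⟩ := h12 x' _ t2
  have hsub : tr x' ⊆ tr x := fun A hA => (t1 A).2 (e4 A ((t2 A).1 hA))
  set a := (tr x).card
  set b := (tr x').card
  obtain ⟨k, hk⟩ : ∃ k : ℕ, xi x (d :: P) = k := by
    refine ⟨a - b, ?_⟩
    rw [u2, v2] at e1
    rw [ENNReal.natCast_sub, e1, ENNReal.add_sub_cancel_left (ENNReal.natCast_ne_top b)]
  rw [hk] at e2 e3
  rw [hk, u2, v2] at e1
  have e1' : a = b + k := by exact_mod_cast e1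
  have e3' : k ≤ J := by exact_mod_cast e3
  have key : b ≤ n ∧ n < a := by
    rcases hc with ⟨⟨-, h2, h3, -⟩, -⟩ | ⟨i, hi, h1, -, -, h2, -⟩
    · rw [v2] at h2
      rw [v2, e2] at h3
      exact ⟨by exact_mod_cast h2, by rw [e1']; exact_mod_cast h3⟩
    · rw [Finset.mem_Icc] at hi
      rw [u2] at h1
      rw [xi_sub, hk] at h2
      have h1' : a = n + i := by exact_mod_cast h1
      have h2' : i ≤ k := by exact_mod_cast h2
      omega
  refine ⟨⟨⟨⟨h.zero.le, fun B hB hB' => ?_⟩, ?_, ?_, ?_⟩, ?_⟩,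
    ⟨a - n, Finset.mem_Icc.2 (by omega), ?_, hP, ⟨hP P (List.suffix_refl _), h.pos, hμ⟩, ?_, hJ⟩,
    fun Λ Φ hΦ => ?_⟩
  · exact h.intP.1 hP B ((List.suffix_cons_iff.1 hB).resolve_left hB')
  · rw [v2]; exact_mod_cast key.1
  · rw [v2, e2]; norm_cast; omega
  · rw [v2]; norm_cast; omega
  · rintro (h' | h')
    · simp at h'
    · exact absurd ((h.rob0 hT hr).1 hJ) (not_le.2 h')
  · rw [u2]; norm_cast; omega
  · rw [xi_sub, hk]; norm_cast; omega
  · refine (hΦ.2 _ _ v1 u1 hsub).trans ?_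
    have p1 : ((a : ℝ) - b) = k := by rw [e1']; push_cast; ring
    have p2 : (n : ℝ) ≤ a := by exact_mod_cast key.2.le
    have p3 : (k : ℝ) ≤ J := by exact_mod_cast e3'
    have p4 : (0 : ℝ) < n := by exact_mod_cast hn1
    change Λ * ((a : ℝ) - b) / a ≤ _
    rw [p1]
    calc Λ * k / a ≤ |Λ| * k / a := by gcongr; exact le_abs_self _
      _ ≤ _ := by gcongr

end F2

end

end Pool.Agent.Lib.APPS
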