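import Pool.Agent.Lib.APPS.B_F2a

/-!
Block F2: local functionals determined by finitely many comparisons, and the pointwise estimate.
-/

namespace Pool.Agent.Lib.APPS

open MeasureTheory ProbabilityTheory Filter Topology Set Metric
open scoped NNReal ENNReal RealInnerProductSpace Classical

noncomputable section

namespace F2

abbrev Dg := Fin 2 × Fin 2

def Sg (D : ℕ) (𝒞 : Finset ℝ) (y y' : Dy → ℝ) : Prop :=
  ∀ B : Dy, B.length ≤ D → ∀ c ∈ 𝒞, (c < y B ↔ c < y' B) ∧ (y B < c ↔ y' B < c)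

def SgP (p : Dg → (Dy → ℝ) → Prop) : Prop :=
  ∃ D 𝒞, ∀ d y y', Sg D 𝒞 y y' → p d y → p d y'

def UU (D : ℕ) : Finset Dy := (Finset.range (D + 1)).biUnion lev

theorem mem_UU (hT : St_T1) {D : ℕ} {B : Dy} : B ∈ UU D ↔ B.length ≤ D := by
  simp only [UU, Finset.mem_biUnion, Finset.mem_range, hT.1]
  exact ⟨fun ⟨k, h1, h2⟩ => by omega, fun h => ⟨_, by omega, rfl⟩⟩

theorem SgP.meas (hT : St_T1) {p : Dg → (Dy → ℝ) → Prop} (h : SgP p) (d : Dg) :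
    MeasurableSet {y | p d y} := by
  obtain ⟨D, 𝒞, h⟩ := h
  set σ : (Dy → ℝ) → ↥(UU D) × ↥𝒞 → Prop × Prop :=
    fun y q => (q.2.1 < y q.1.1, y q.1.1 < q.2.1) with hσ
  have h1 : Measurable σ := measurable_pi_lambda _ fun q => Measurable.prodMk
    (measurableSet_setOfPred.1 (measurableSet_lt measurable_const (measurable_pi_apply _)))
    (measurableSet_setOfPred.1 (measurableSet_lt (measurable_pi_apply _) measurable_const))
  have h2 : {y | p d y} = σ ⁻¹' (σ '' {y | p d y}) := by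
    refine Subset.antisymm (subset_preimage_image _ _) ?_
    rintro y' ⟨y, hy, he⟩
    refine h d y y' (fun B hB c hc => ?_) hy
    have := congrFun he (⟨B, (mem_UU hT).2 hB⟩, ⟨c, hc⟩)
    simp only [hσ, Prod.mk.injEq, eq_iff_iff] at this
    exact this
  rw [h2]
  exact h1 (Set.toFinite _).measurableSet

def Fn (μ : ℝ) (p : Dg → (Dy → ℝ) → Prop) (y : Dy → ℝ) : ℝ := μ⁻¹ * ∑ d, indR (p d y)

theorem indR_nonneg (p : Prop) : 0 ≤ indR p := by unfold indR; split_ifs <;> norm_num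
theorem indR_le (p : Prop) : indR p ≤ 1 := by unfold indR; split_ifs <;> norm_num
theorem ofReal_indR (p : Prop) : ENNReal.ofReal (indR p) = ind p := by
  unfold indR ind; split_ifs <;> simp

theorem Fn_nonneg {μ : ℝ} (hμ : 0 < μ) (p : Dg → (Dy → ℝ) → Prop) (y : Dy → ℝ) : 0 ≤ Fn μ p y :=
  mul_nonneg (inv_nonneg.2 hμ.le) (Finset.sum_nonneg fun _ _ => indR_nonneg _)

theorem ofReal_Fn {μ : ℝ} (hμ : 0 < μ) (p : Dg → (Dy → ℝ) → Prop) (y : Dy → ℝ) :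
    ENNReal.ofReal (Fn μ p y) = ENNReal.ofReal μ⁻¹ * ∑ d, ind (p d y) := by
  rw [Fn, ENNReal.ofReal_mul (inv_nonneg.2 hμ.le),
    ENNReal.ofReal_sum_of_nonneg fun _ _ => indR_nonneg _]
  simp only [ofReal_indR]

theorem SgP.bdd (hT : St_T1) (hT3 : St_T3) {p : Dg → (Dy → ℝ) → Prop} (h : SgP p) {μ : ℝ}
    (hμ : 0 < μ) : BddM (Fn μ p) :=
  ⟨measurable_const.mul (Finset.measurable_sum _ fun d _ =>
    (hT3.2.2.2.2.2.2.2.2.2.2.2.1 _ _ (h.meas hT d)).2), μ⁻¹ * ∑ _d : Dg, 1, fun y =>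
    ⟨Fn_nonneg hμ p y, mul_le_mul_of_nonneg_left (Finset.sum_le_sum fun _ _ => indR_le _)
      (inv_nonneg.2 hμ.le)⟩⟩

theorem SgP.adm (hT : St_T1) (hT3 : St_T3) (hPA : St_PA) {γ : ℝ} (hγ : γ ∈ Ioo (0 : ℝ) 2)
    {p : Dg → (Dy → ℝ) → Prop} (h : SgP p) {μ : ℝ} (hμ : 0 < μ) : Adm γ (Fn μ p) := by
  have hb := h.bdd hT hT3 hμ
  obtain ⟨D, 𝒞, h⟩ := h
  have h1 : ∀ y y', Sg D 𝒞 y y' → Fn μ p y = Fn μ p y' := by
    intro y y' hs
    have : ∀ d, p d y ↔ p d y' := fun d => ⟨h d y y' hs, h d y' y fun B hB c hc =>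
      ⟨(hs B hB c hc).1.symm, (hs B hB c hc).2.symm⟩⟩
    simp only [Fn, this]
  refine (hPA γ hγ).2.2.2.2 _ hb ⟨D, fun x y hxy => h1 x y fun B hB c _ => by
    rw [hxy B hB]; exact ⟨Iff.rfl, Iff.rfl⟩⟩ ⟨𝒞, fun y hy => ?_⟩
  refine (continuousAt_const (y := Fn μ p y)).congr ?_
  have : ∀ᶠ y' in 𝓝 y, ∀ B ∈ UU D, ∀ c ∈ 𝒞,
      (c < y B ↔ c < y' B) ∧ (y B < c ↔ y' B < c) := by
    simp only [eventually_all_finset]
    intro B _ c hc
    have hc' : y B ≠ c := fun h' => hy B (h' ▸ hc)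
    have ht : Tendsto (fun y' : Dy → ℝ => y' B) (𝓝 y) (𝓝 (y B)) := (continuous_apply B).tendsto y
    rcases lt_or_gt_of_ne hc' with h2 | h2
    · filter_upwards [ht.eventually (gt_mem_nhds h2)] with y' h3
      exact ⟨iff_of_false h2.not_gt h3.not_gt, iff_of_true h2 h3⟩
    · filter_upwards [ht.eventually (lt_mem_nhds h2)] with y' h3
      exact ⟨iff_of_true h2 h3, iff_of_false h2.not_gt h3.not_gt⟩
  filter_upwards [this] with y' hy'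
  exact h1 y y' fun B hB => hy' B ((mem_UU hT).2 hB)

theorem abs_sg {a a' e δ : ℝ} (h1 : δ - e < a ↔ δ - e < a') (h2 : a < -δ - e ↔ a' < -δ - e) :
    δ < |a + e| ↔ δ < |a' + e| := by
  rw [lt_abs, lt_abs, ← sub_lt_iff_lt_add, ← sub_lt_iff_lt_add, h1, lt_neg, lt_neg (b := a' + e),
    ← lt_sub_iff_add_lt, ← lt_sub_iff_add_lt, h2]

theorem sg_D (μ : ℝ) : SgP (pD μ) := by
  refine ⟨1, {μ - 0, -μ - 0}, fun d y y' hs h => ?_⟩
  have := abs_sg (hs [d] le_rfl (μ - 0) (by simp)).1 (hs [d] le_rfl (-μ - 0) (by simp)).2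
  simp only [add_zero] at this
  exact not_lt.1 fun h' => not_lt.2 h (this.2 h')

theorem sg_E (J : ℕ) (δ : ℝ) : SgP (pE J δ) := by
  refine ⟨J + 2, {δ - 0, -δ - 0, δ - 1, -δ - 1}, fun d y y' hs h => ?_⟩
  have h0 : ∀ B : Dy, B.length ≤ J + 2 → (δ < |y B| ↔ δ < |y' B|) := fun B hB => by
    simpa using abs_sg (hs B hB (δ - 0) (by simp)).1 (hs B hB (-δ - 0) (by simp)).2
  refine ⟨not_lt.1 fun h' => not_lt.2 h.1 ((h0 _ (by simp)).2 h'), fun h' => h.2 fun B hB hd => ?_⟩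
  exact ⟨(h0 B hB).2 (h' B hB hd).1,
    (abs_sg (hs B hB (δ - 1) (by simp)).1 (hs B hB (-δ - 1) (by simp)).2).2 (h' B hB hd).2⟩

theorem sg_F (hT : St_T1) (J : ℕ) (μ : ℝ) (i : ℕ) : SgP (pF J μ i) := by
  refine ⟨J + 1, {0, μ, -1}, fun d y y' hs h => ?_⟩
  obtain ⟨⟨h1, h2, h3⟩, h4, h5⟩ := h
  have h2' := (hs [d] (by simp) 0 (by simp)).1.1 h2
  refine ⟨⟨(hs [] (by simp) 0 (by simp)).1.1 h1, h2',
    not_lt.1 fun h' => not_lt.2 h3 ((hs [d] (by simp) μ (by simp)).1.2 h')⟩, ?_,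
    (nB_le_iff hT fun B hB => ?_).1 h5⟩
  · rw [← nB_rec hT h2] at h4
    rw [← nB_rec hT h2', nB_sign hT (y := sub y [d]) (y' := sub y' [d]) (J := J) ((nB_sub_cons hT h1 d).trans
      ((nB_mono hT fun S => by simp [sub, sh]).trans h5)) fun B hB =>
      (hs (B ++ [d]) (by simpa using hB) 0 (by simp)).1]
    exact h4
  · have := (hs B (by omega) (-1) (by simp)).1
    simp only [sh]
    constructor <;> intro h' <;> [have := this.1 (by linarith); have := this.2 (by linarith)] <;>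
      linarith

theorem cc_le (hT : St_T1) (hT3 : St_T3) (hR0 : St_R0) (hR : St_R) {γ : ℝ}
    (hγ : γ ∈ Ioo (0 : ℝ) 2) {p : Dg → (Dy → ℝ) → Prop} (h : SgP p) {μ : ℝ} (hμ : 0 < μ) :
    ENNReal.ofReal (cc γ (Fn μ p)) ≤
      ∑ d, ENNReal.ofReal μ⁻¹ * palm γ fun y => ind (p d y) := by
  have hm := fun d => (hT3.2.2.2.2.2.2.2.2.2.2.2.1 _ _ (h.meas hT d)).1
  obtain ⟨-, -, -, -, -, h6, h7, h8⟩ := hR0 γ hγ
  refine ((hR γ hγ).2.2.2.2.2.1 _ (h.bdd hT hT3 hμ)).trans ((h7 _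
    (fun y => ENNReal.ofReal μ⁻¹ * ∑' d, ind (p d y)) fun y => ?_).trans (le_of_eq ?_))
  · rw [tsum_fintype, ofReal_Fn hμ]
    exact mul_le_of_le_one_left' ((ind_mono fun _ => trivial).trans (ind_t trivial).le)
  · rw [h6 _ _ (Measurable.tsum hm), h8 _ _ hm, tsum_fintype, Finset.mul_sum]

theorem cc_D (hT : St_T1) (hT3 : St_T3) (hR0 : St_R0) (hR : St_R) (hPA : St_PA) {γ : ℝ}
    (hγ : γ ∈ Ioo (0 : ℝ) 2) : ∃ K : ℝ, 0 ≤ K ∧ ∀ μ ∈ Ioc (0 : ℝ) 1, cc γ (Fn μ (pD μ)) ≤ K := by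
  obtain ⟨K, hK⟩ := (hPA γ hγ).1
  refine ⟨∑ _d : Dg, |K|, by positivity, fun μ hμ => ?_⟩
  refine (ENNReal.ofReal_le_ofReal_iff (by positivity)).1
    ((cc_le hT hT3 hR0 hR hγ (sg_D μ) hμ.1).trans ?_)
  rw [ENNReal.ofReal_sum_of_nonneg fun _ _ => abs_nonneg _]
  refine Finset.sum_le_sum fun d _ => (mul_le_mul_right (hK μ hμ d) _).trans ?_
  rw [← ENNReal.ofReal_mul (inv_nonneg.2 hμ.1.le), mul_comm K, inv_mul_cancel_left₀ hμ.1.ne']
  exact ENNReal.ofReal_le_ofReal (le_abs_self _)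

theorem cc_E (hT : St_T1) (hT3 : St_T3) (hR0 : St_R0) (hR : St_R) (hPA : St_PA) {γ : ℝ}
    (hγ : γ ∈ Ioo (0 : ℝ) 2) (J : ℕ) (C : ℝ) {η : ℝ} (hη : 0 < η) :
    ∀ᶠ μ in 𝓝[>] (0 : ℝ), cc γ (Fn μ (pE J (C * μ))) ≤ η := by
  obtain ⟨-, -, -, -, -, -, h7, h8⟩ := hR0 γ hγ
  set G : ℝ → (d : Dg) → ↥((UU (J + 2)).erase [d]) × Bool → (Dy → ℝ) → ℝ≥0∞ := fun μ d q y =>
    ind (|y [d]| ≤ C * μ ∧ |y q.1.1 + if q.2 then 1 else 0| ≤ C * μ) with hG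
  have h1 : ∀ d q, Tendsto (fun μ => ENNReal.ofReal μ⁻¹ * palm γ (G μ d q)) (𝓝[>] 0) (𝓝 0) := by
    intro d q
    refine ENNReal.tendsto_nhds_zero.2 fun ε hε => ?_
    obtain ⟨ε', -, h2, h3⟩ := ENNReal.lt_iff_exists_real_btwn.1 hε
    obtain ⟨l, hl, h4⟩ := (hPA γ hγ).2.1 d q.1.1 (if q.2 then 1 else 0) C ε'
      (Finset.ne_of_mem_erase q.1.2) (ENNReal.ofReal_pos.1 h2)
    filter_upwards [Ioc_mem_nhdsGT hl] with μ hμ
    refine (mul_le_mul_right (h4 μ hμ) _).trans (le_trans (le_of_eq ?_) h3.le)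
    rw [← ENNReal.ofReal_mul (inv_nonneg.2 hμ.1.le), mul_comm ε', inv_mul_cancel_left₀ hμ.1.ne']
  have h2 := tendsto_finsetSum Finset.univ fun d _ => tendsto_finsetSum Finset.univ
    fun q _ => h1 d q
  simp only [Finset.sum_const_zero] at h2
  filter_upwards [ENNReal.tendsto_nhds_zero.1 h2 _ (ENNReal.ofReal_pos.2 hη),
    self_mem_nhdsWithin] with μ h3 hμ
  refine (ENNReal.ofReal_le_ofReal_iff hη.le).1
    ((cc_le hT hT3 hR0 hR hγ (sg_E J _) hμ).trans (le_trans (Finset.sum_le_sum fun d _ => ?_) h3))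
  rw [← Finset.mul_sum, ← tsum_fintype (L := SummationFilter.unconditional _), ← h8 _ _ fun q => (hT3.2.2.2.2.2.2.2.2.2.2.2.1 _ _ ?_).1]
  · refine mul_le_mul_right (h7 _ _ fun y => ?_) _
    by_cases hp : pE J (C * μ) d y
    · obtain ⟨h4, h5⟩ := id hp
      simp only [Rob, not_forall, not_and_or, not_lt] at h5
      obtain ⟨B, hB, hd, h5⟩ := h5
      have hB' := Finset.mem_erase.2 ⟨hd, (mem_UU hT).2 hB⟩
      rw [ind_t hp]
      rcases h5 with h5 | h5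
      · exact le_trans (ind_t ⟨h4, by simpa using h5⟩).ge (ENNReal.le_tsum (⟨B, hB'⟩, false))
      · exact le_trans (ind_t ⟨h4, by simpa using h5⟩).ge (ENNReal.le_tsum (⟨B, hB'⟩, true))
    · rw [ind_f hp]
      exact zero_le
  · exact (measurableSet_le (measurable_pi_apply _).abs measurable_const).inter
      (measurableSet_le ((measurable_pi_apply _).add_const _).abs measurable_const)

/-- rooted sums over internal nodes at fixed tree size -/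
def tm (m : ℕ) (Φ : Finset Dy → ℝ) (p : Dg → (Dy → ℝ) → Prop) (P : Dy) (d : Dg) (x : Dy → ℝ) :
    ℝ≥0∞ :=
  ind (nB x = m ∧ IntN x P ∧ p d (sub x P)) * ENNReal.ofReal (Φ (tr x))

theorem meas_Phi (hT3 : St_T3) (Φ : Finset Dy → ℝ) :
    Measurable fun x => ENNReal.ofReal (Φ (tr x)) :=
  hT3.2.2.2.1 _ _ id (fun T _ => ENNReal.ofReal (Φ T)) measurable_id fun _ => measurable_const

theorem meas_tm (hT : St_T1) (hT3 : St_T3) (m : ℕ) (Φ : Finset Dy → ℝ)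
    {p : Dg → (Dy → ℝ) → Prop} (h : SgP p) (P : Dy) (d : Dg) : Measurable (tm m Φ p P d) :=
  (hT3.2.2.2.2.2.2.2.2.2.2.2.1 _ _ ((hT3.1 (measurableSet_singleton _)).inter
    ((hT3.2.1 P).1.inter (hT3.2.2.2.2.1 P (h.meas hT d))))).1.mul (meas_Phi hT3 Φ)

def Tm (M : Model) (γ : ℝ) (m : ℕ) (Φ : Finset Dy → ℝ) (p : Dg → (Dy → ℝ) → Prop) : ℝ≥0∞ :=
  ∑' P : Dy, ∑ d, ∫⁻ ω, tm m Φ p P d (M.X γ 0 ω) ∂gm

theorem link (hT : St_T1) (hT3 : St_T3) (hPA : St_PA) (hL : St_LLE) {γ : ℝ}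
    (hγ : γ ∈ Ioo (0 : ℝ) 2) (M : Model) (hM : box [] ⊆ M.O) {p : Dg → (Dy → ℝ) → Prop}
    (h : SgP p) {μ η : ℝ} (hμ : 0 < μ) (hη : 0 < η) :
    ∀ᶠ m : ℕ in atTop, ∀ Φ : Finset Dy → ℝ, (∀ T, 0 ≤ Φ T ∧ Φ T ≤ 1) → ∃ r : ℝ, 0 ≤ r ∧
      ENNReal.ofReal μ⁻¹ * Tm M γ m Φ p = ENNReal.ofReal r ∧
      |(m : ℝ) ^ (th γ + 1) * r - cc γ (Fn μ p) / cc γ one * M.aL γ Φ m| ≤ η := by
  filter_upwards [hL γ hγ M hM _ (h.adm hT hT3 hPA hγ hμ) η hη] with m hm Φ hΦ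
  obtain ⟨h1, h2, -⟩ := hm Φ hΦ
  have h0 : ∀ x, 0 ≤ indR (nB x = m) * Φ (tr x) * SR (Fn μ p) x [] := fun x =>
    mul_nonneg (mul_nonneg (indR_nonneg _) (hΦ _).1)
      (Finset.sum_nonneg fun _ _ => Fn_nonneg hμ _ _)
  refine ⟨_, integral_nonneg fun ω => h0 _, ?_, h2⟩
  have hX := (hT3.2.2.2.2.2.2.2.2.2.2.1 M γ 0).1
  have hm' : ∀ P d, Measurable fun ω => tm m Φ p P d (M.X γ 0 ω) :=
    fun P d => (meas_tm hT hT3 m Φ h P d).comp hX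
  rw [ofReal_integral_eq_lintegral_ofReal h1 (Eventually.of_forall fun ω => h0 _), Tm]
  simp only [← lintegral_finsetSum _ fun d _ => hm' _ d]
  rw [← lintegral_tsum fun P => (Finset.measurable_sum _ fun d _ => hm' P d).aemeasurable,
    ← lintegral_const_mul' _ _ ENNReal.ofReal_ne_top]
  refine lintegral_congr fun ω => ?_
  generalize M.X γ 0 ω = x
  by_cases hx : nB x = m
  · have h3 := hT.2.2.2.2.2.2.2.2.2.2.2.2.1 x (hx ▸ ENNReal.natCast_ne_top m)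
    rw [tsum_eq_sum (s := tr x) fun P hP => Finset.sum_eq_zero fun d _ => by
        rw [tm, ind_f fun h' => hP ((h3 P).2 h'.2.1), zero_mul],
      indR, if_pos hx, one_mul, ENNReal.ofReal_mul (hΦ _).1, SR,
      Finset.filter_true_of_mem fun A _ => List.nil_suffix,
      ENNReal.ofReal_sum_of_nonneg fun _ _ => Fn_nonneg hμ _ _, Finset.mul_sum, Finset.mul_sum]
    refine Finset.sum_congr rfl fun P hP => ?_
    rw [ofReal_Fn hμ, mul_left_comm, Finset.mul_sum (a := ENNReal.ofReal (Φ _))]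
    congr 1
    refine Finset.sum_congr rfl fun d _ => ?_
    rw [tm, mul_comm, ind_iff (q := p d (sub x P)) (by simp [hx, (h3 P).1 hP])]
  · simp [tm, ind, indR, hx]

theorem two_sided {a b e : ℝ} {E : ℝ≥0∞} (h : |a - b| ≤ e) (hE : ENNReal.ofReal e ≤ E) :
    ENNReal.ofReal a ≤ ENNReal.ofReal b + E ∧ ENNReal.ofReal b ≤ ENNReal.ofReal a + E := by
  rw [abs_le] at h
  constructor <;>
  · refine le_trans ?_ (add_le_add_right hE _)
    exact (ENNReal.ofReal_le_ofReal (by linarith [h.1, h.2])).trans ENNReal.ofReal_add_le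

/-- error term -/
def er (J n : ℕ) (μ δ Mx η : ℝ) (P : Dy) (d : Dg) (x : Dy → ℝ) (s : ℝ) : ℝ≥0∞ :=
  ind (IntN x P ∧ |x (d :: P)| ≤ μ ∧ (n : ℝ≥0∞) ≤ nB x + (5 * J + 1 : ℕ) ∧
    nB x ≤ n + (5 * J + 1 : ℕ) ∧
    ∑ c : Fin 2 × Fin 2, nB (sub (sh x (1 / 4)) (c :: d :: P)) +
      nB (sub (sh x (1 / 4)) (sib (d :: P))) ≤ (5 * J + 1 : ℕ) ∧ Mx ≤ s) * eE s +
  ∑ m ∈ Finset.Icc (n - (5 * J + 1)) (n + (5 * J + 1)),
    (tm m oneT (pE J δ) P d x + ENNReal.ofReal η * tm m oneT (pD μ) P d x)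

theorem sum_tm (J n : ℕ) (μ : ℝ) (Φ : Finset Dy → ℝ) (P : Dy) (d : Dg) (x : Dy → ℝ) :
    ∑ i ∈ Finset.Icc 1 J, tm (n + i) Φ (pF J μ i) P d x =
      ind (cH J n μ P d x) * ENNReal.ofReal (Φ (tr x)) := by
  by_cases h : cH J n μ P d x
  · obtain ⟨i, hi, h1⟩ := id h
    rw [ind_t h, Finset.sum_eq_single_of_mem i hi, tm, ind_t h1]
    intro j _ hj
    rw [tm, ind_f, zero_mul]
    intro h2
    have := h1.1.symm.trans h2.1
    exact hj (by norm_cast at this; omega)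
  · rw [ind_f h, zero_mul]
    exact Finset.sum_eq_zero fun i hi => by rw [tm, ind_f fun h' => h ⟨i, hi, h'⟩, zero_mul]

theorem pointwise (hT : St_T1) {x x' : Dy → ℝ} {P : Dy} {d : Dg} {δ μ Mx η ρ s Λ : ℝ}
    {Φ : Finset Dy → ℝ} {J n : ℕ} (h : Pert x x' P d δ) (hμ : x (d :: P) ≤ μ) (hδ : μ ≤ δ)
    (hn : 2 * J ≤ n) (hn1 : 1 ≤ n) (hΦ : Cls Λ Φ) (hΛ : |Λ| * J / n ≤ η / 2) (hρ0 : 0 ≤ ρ)
    (hs : 0 ≤ s) (hρ1 : ρ ≤ Real.exp s) (hρ2 : s < Mx → |ρ - 1| ≤ η / 2) :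
    ind (cG J n (d :: P) x') * ENNReal.ofReal (Φ (tr x')) * ENNReal.ofReal ρ ≤
      ∑ i ∈ Finset.Icc 1 J, tm (n + i) Φ (pF J μ i) P d x + er J n μ δ Mx η P d x s ∧
    ∑ i ∈ Finset.Icc 1 J, tm (n + i) Φ (pF J μ i) P d x ≤
      ind (cG J n (d :: P) x') * ENNReal.ofReal (Φ (tr x')) * ENNReal.ofReal ρ +
        er J n μ δ Mx η P d x s := by
  rw [sum_tm]
  by_cases hc : cG J n (d :: P) x' ∨ cH J n μ P d x
  swap
  · rw [ind_f fun h' => hc (Or.inl h'), ind_f fun h' => hc (Or.inr h')]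
    simp
  obtain ⟨s1, s2, s3, s4⟩ := hc.elim (side_G hT h) (side_H hT)
  have habs : |x (d :: P)| ≤ μ := by rwa [abs_of_pos h.pos]
  have hη : 0 ≤ η := by
    have : 0 ≤ |Λ| * J / n := by positivity
    linarith
  rw [← ofReal_indR, ← ofReal_indR, ← ENNReal.ofReal_mul (indR_nonneg _),
    ← ENNReal.ofReal_mul (indR_nonneg _), ← ENNReal.ofReal_mul
      (mul_nonneg (indR_nonneg _) (hΦ.1 _).1)]
  have a0 := mul_nonneg (indR_nonneg (cG J n (d :: P) x')) (hΦ.1 (tr x')).1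
  have a1 := mul_le_one₀ (indR_le (cG J n (d :: P) x')) (hΦ.1 (tr x')).1 (hΦ.1 (tr x')).2
  have b0 := mul_nonneg (indR_nonneg (cH J n μ P d x)) (hΦ.1 (tr x)).1
  have b1 := mul_le_one₀ (indR_le (cH J n μ P d x)) (hΦ.1 (tr x)).1 (hΦ.1 (tr x)).2
  have a2 := mul_nonneg a0 hρ0
  have a3 := mul_le_of_le_one_left hρ0 a1
  by_cases hM : Mx ≤ s
  · refine two_sided (e := Real.exp s) (abs_le.2 ⟨?_, ?_⟩) (le_trans ?_ le_self_add)
    · linarith [Real.one_le_exp hs]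
    · linarith
    · rw [ind_t ⟨s1, habs, s2, s3, s4, hM⟩, one_mul, eE]
  have hρ := hρ2 (not_le.1 hM)
  obtain ⟨m, hm⟩ : ∃ m : ℕ, nB x = m :=
    ⟨_, (hT.2.2.2.2.2.2.2.2.2.2.2.1 x _ (hT.2.2.2.2.2.2.2.2.2.2.2.2.1 x
      (ne_top_of_le_ne_top (by finiteness) s3))).2.2.1⟩
  have hmm : m ∈ Finset.Icc (n - (5 * J + 1)) (n + (5 * J + 1)) := by
    rw [hm] at s2 s3
    norm_cast at s2 s3
    rw [Finset.mem_Icc]
    omega
  have hle : tm m oneT (pE J δ) P d x + ENNReal.ofReal η * tm m oneT (pD μ) P d x ≤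
      er J n μ δ Mx η P d x s := le_trans (Finset.single_le_sum (f := fun m =>
        tm m oneT (pE J δ) P d x + ENNReal.ofReal η * tm m oneT (pD μ) P d x)
        (fun _ _ => zero_le) hmm) le_add_self
  rw [tm, tm, ind_t (p := nB x = m ∧ IntN x P ∧ pD μ d (sub x P)) ⟨hm, s1, habs⟩, oneT,
    ENNReal.ofReal_one, mul_one, mul_one, mul_one] at hle
  by_cases hr : Rob J δ d (sub x P)
  · obtain ⟨r1, r2, r3⟩ := rob_iff hT h hr hμ hn hn1 hc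
    refine two_sided (e := η) ?_ (le_add_self.trans hle)
    rw [indR, indR, if_pos r1, if_pos r2, one_mul, one_mul,
      show Φ (tr x') * ρ - Φ (tr x) = Φ (tr x') * (ρ - 1) + (Φ (tr x') - Φ (tr x)) by ring]
    refine (abs_add_le _ _).trans ?_
    rw [abs_mul, abs_of_nonneg (hΦ.1 _).1]
    have := mul_le_of_le_one_left (abs_nonneg (ρ - 1)) (hΦ.1 (tr x')).2
    linarith [r3 Λ Φ hΦ]
  · rw [ind_t ⟨hm, s1, habs.trans hδ, hr⟩, ← ENNReal.ofReal_one,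
      ← ENNReal.ofReal_add zero_le_one hη] at hle
    refine two_sided (abs_le.2 ⟨?_, ?_⟩) hle <;> linarith [(abs_le.1 hρ).2]

end F2

end

end Pool.Agent.Lib.APPS
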