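import Pool.Agent.Lib.APPS.B_FACc

/-!
Block FAC: asymptotic factorisation of the unrooted sums.
-/

namespace Pool.Agent.Lib.APPS

open MeasureTheory ProbabilityTheory Filter Topology Set Metric
open scoped NNReal ENNReal RealInnerProductSpace Classical

noncomputable section

namespace FAC

def PP' (M : Model) (γ m : ℝ) (k : ℕ) (y : ℝ) : ℝ≥0∞ :=
  ENNReal.ofReal (pd (M.C0 + k * l2) (m + QQ γ * k * l2 + y))

def piV (M : Model) (γ s : ℝ) (K1 : ℕ) (m : ℝ) (V : Dy) : ℝ≥0∞ :=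
  gm {ω | Ev M γ s K1 V (m + QQ γ * (V.length - 2 : ℕ) * l2) ω}

def aE (M : Model) (γ s : ℝ) (K1 : ℕ) (m : ℝ) : ℝ≥0∞ :=
  eE (4 / γ * m) * ∑' V : Dy, ind (Loc K1 V) * (PP' M γ m (V.length - 2) 0 * piV M γ s K1 m V)

theorem PP'_meas (M : Model) (γ m : ℝ) (k : ℕ) : Measurable (PP' M γ m k) := by
  unfold PP' pd
  fun_prop

theorem wle (hRW1 : St_RW1) {γ : ℝ} (hγ : γ ∈ Ioo (0 : ℝ) 2) (M : Model) (m : ℝ) (i0 j : ℕ)
    {K' y : ℝ} (hy : |y| ≤ |K'|) :
    eE (4 / γ * m) * (ENNReal.ofReal (4 ^ (i0 + j + 2)) * PP' M γ m (i0 + j) y) ≤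
      ENNReal.ofReal (16 * Real.exp (8 * M.C0 / γ ^ 2)) * eE (4 / γ * |K'|) * ENNReal.ofReal
        (pd (M.C0 + i0 * l2 + j * l2)
          (m - 4 / γ * M.C0 - aa γ * i0 * l2 + y - aa γ * j * l2)) := by
  rw [PP', key hRW1 hγ]
  gcongr
  refine eE_mono ?_
  have h1 : 0 < 4 / γ := by have := hγ.1; positivity
  have := neg_abs_le y
  nlinarith

theorem errsum (hRW1 : St_RW1) {γ : ℝ} (hγ : γ ∈ Ioo (0 : ℝ) 2) (M : Model) (m : ℝ) (i0 : ℕ)
    {K' y ε : ℝ} (hy : |y| ≤ K') {C1 z c1 c2 c3 : ℝ≥0∞}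
    (h1 : ∀ x : ℝ, ∑' j : ℕ, ENNReal.ofReal (pd (M.C0 + i0 * l2 + j * l2) (x - aa γ * j * l2)) ≤ C1)
    (h2 : ∀ y, |y| ≤ K' → ∑' j : ℕ, ind (¬|m - 4 / γ * M.C0 - aa γ * i0 * l2 - aa γ * j * l2| ≤
        ε * (m - 4 / γ * M.C0 - aa γ * i0 * l2)) * ENNReal.ofReal (pd (M.C0 + i0 * l2 + j * l2)
          (m - 4 / γ * M.C0 - aa γ * i0 * l2 + y - aa γ * j * l2)) ≤ z) :
    ∑' j : ℕ, eE (4 / γ * m) * (ENNReal.ofReal (4 ^ (i0 + j + 2)) *
      (PP' M γ m (i0 + j) 0 * c1 + ind (¬|m - 4 / γ * M.C0 - aa γ * (i0 + j : ℕ) * l2| ≤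
        ε * (m - 4 / γ * M.C0 - aa γ * i0 * l2)) *
        (PP' M γ m (i0 + j) y * c2 + PP' M γ m (i0 + j) 0 * c3))) ≤
      ENNReal.ofReal (16 * Real.exp (8 * M.C0 / γ ^ 2)) * eE (4 / γ * |K'|) *
        (C1 * c1 + (z * c2 + z * c3)) := by
  set A := ENNReal.ofReal (16 * Real.exp (8 * M.C0 / γ ^ 2)) * eE (4 / γ * |K'|) with hA
  set W : ℕ → ℝ → ℝ≥0∞ := fun j y => ENNReal.ofReal (pd (M.C0 + i0 * l2 + j * l2)
          (m - 4 / γ * M.C0 - aa γ * i0 * l2 + y - aa γ * j * l2)) with hW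
  set T : ℕ → ℝ≥0∞ := fun j => ind (¬|m - 4 / γ * M.C0 - aa γ * i0 * l2 - aa γ * j * l2| ≤
        ε * (m - 4 / γ * M.C0 - aa γ * i0 * l2)) with hT
  have h0 : |(0 : ℝ)| ≤ K' := by rw [abs_zero]; exact (abs_nonneg _).trans hy
  calc _ ≤ ∑' j : ℕ, A * (W j 0 * c1 + (T j * W j y * c2 + T j * W j 0 * c3)) := by
        refine ENNReal.tsum_le_tsum fun j => ?_
        have e : m - 4 / γ * M.C0 - aa γ * (i0 + j : ℕ) * l2 =
            m - 4 / γ * M.C0 - aa γ * i0 * l2 - aa γ * j * l2 := by push_cast; ring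
        have a0 := wle hRW1 hγ M m i0 j (h0.trans (le_abs_self K'))
        have a1 := wle hRW1 hγ M m i0 j (hy.trans (le_abs_self K'))
        rw [e]
        calc _ = eE (4 / γ * m) * (ENNReal.ofReal (4 ^ (i0 + j + 2)) * PP' M γ m (i0 + j) 0) * c1 +
              (T j * (eE (4 / γ * m) *
                (ENNReal.ofReal (4 ^ (i0 + j + 2)) * PP' M γ m (i0 + j) y)) * c2 +
              T j * (eE (4 / γ * m) *
                (ENNReal.ofReal (4 ^ (i0 + j + 2)) * PP' M γ m (i0 + j) 0)) * c3) := by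
                simp only [hT]
                ring
          _ ≤ A * W j 0 * c1 + (T j * (A * W j y) * c2 + T j * (A * W j 0) * c3) := by gcongr
          _ = _ := by ring
    _ ≤ _ := by
        rw [ENNReal.tsum_mul_left, ENNReal.tsum_add, ENNReal.tsum_add, ENNReal.tsum_mul_right,
          ENNReal.tsum_mul_right, ENNReal.tsum_mul_right]
        gcongr
        · exact h1 _
        · exact h2 y hy
        · exact h2 0 h0

theorem main (hG1 : St_G1) (hG1D : St_G1D) (hG2 : St_G2) (hG3 : St_G3) (hMOD : St_MOD)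
    (hBMP : St_BMP) (hFE : St_FE) (hEXP2 : St_EXP2) (hGEO1 : St_GEO1)
    (hT1 : St_T1) (hRW1 : St_RW1) (hRW6 : St_RW6) (hPRJ : St_PRJ) {γ : ℝ}
    (hγ : γ ∈ Ioo (0 : ℝ) 2) (M : Model) {i0 : ℕ} (hM : M.Ok i0) (s K' : ℝ) {K1 : ℕ}
    (hK : i0 ≤ K1) (ι : Type) [Fintype ι] (b0 : ι → HH) (Cb B : ℝ) {η : ℝ} (hη : 0 < η) :
    ∀ᶠ m : ℝ in atTop, ∀ (b : Dy → ι → HH) (ψ : ℝ × (ι → ℝ) → ℝ≥0∞), Measurable ψ →
      (∀ V, Loc K1 V → (∀ i j, ⟪b V i, b V j⟫ = ⟪b0 i, b0 j⟫) ∧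
        (∀ i, ⟪b V i, M.eC (ctr V) (4 * side V)⟫ = 0) ∧
        ∀ i, ∀ l ≤ K1, |⟪b V i, M.eS (anc l V)⟫| ≤ Cb * side V) →
      (∀ y, |y| ≤ K' → ∫⁻ ω, ψ (y, fun i => ω (b0 i)) ^ 2 ∂gm ≤ ENNReal.ofReal B) →
      |(eE (4 / γ * m) * ∑' V : Dy, ind (Loc K1 V) * ∫⁻ ω,
          ind (Early (M.X γ 0 ω) s K1 V ∧ |M.YV γ 0 V ω - m| ≤ K') *
            ψ (M.YV γ 0 V ω - m, fun i => ω (b V i)) ∂gm).toReal -
        (aE M γ s K1 m).toReal * ∫ y in Icc (-K') K', Real.exp (-(4 / γ) * y) *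
          (∫⁻ ω, ψ (y, fun i => ω (b0 i)) ∂gm).toReal| ≤ η := by
  have := hG1.1
  obtain ⟨ha, -, -, -, -, hQa, -⟩ := hRW1.2.2 γ hγ
  have hl2 := l2_pos
  have hg : 0 < 4 / γ := by have := hγ.1; positivity
  have hB0 : 0 ≤ max B 0 := le_max_right _ _
  set B1 := ENNReal.ofReal (max B 0 + 1) with hB1
  set H := eE (4 / γ * |K'|) with hH
  set A := ENNReal.ofReal (16 * Real.exp (8 * M.C0 / γ ^ 2)) * H with hA
  have hB1' : B1 ≠ ∞ := ENNReal.ofReal_ne_top
  have hH' : H ≠ ∞ := eE_ne _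
  have hA' : A ≠ ∞ := ENNReal.mul_ne_top ENNReal.ofReal_ne_top hH'
  have hvol : volume (Icc (-K') K') ≠ ∞ := measure_Icc_lt_top.ne
  obtain ⟨C1, hC1⟩ := sum1 hRW1 ha hM.2
  obtain ⟨ζ, hζ, hζ1, hΛ⟩ := small (Λ := A * (ENNReal.ofReal C1 * (H * (1 + B1)) +
    (B1 + H * B1)) * volume (Icc (-K') K')) (by finiteness) hη
  obtain ⟨ε, hε, hε1, hrat⟩ := ratio ha hζ hζ1 (4 / γ) K'
  obtain ⟨k0, hk0⟩ := eventually_atTop.1
    (perV hG1 hG1D hG3 hMOD hBMP hFE hEXP2 hGEO1 hPRJ M hM γ s K' K1 ι b0 Cb hB0 hζ)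
  have tτ : Tendsto (fun m : ℝ => m - 4 / γ * M.C0 - aa γ * i0 * l2) atTop atTop :=
    tendsto_atTop_add_const_right _ _ (tendsto_atTop_add_const_right _ _ tendsto_id)
  filter_upwards [tτ.eventually hrat, tτ.eventually (sum2 hRW6 ha hM.2 hε hζ K'),
    tτ.eventually_ge_atTop (2 * aa γ * (k0 * l2))] with m hrat hs2 hτ
  intro b ψ hψ hb hB
  set τ := m - 4 / γ * M.C0 - aa γ * i0 * l2 with hτd
  have hψy : ∀ y, Measurable fun x : ι → ℝ => ψ (y, x) := fun y =>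
    hψ.comp (measurable_const.prodMk measurable_id)
  have hB' : ∀ y, |y| ≤ K' →
      ∫⁻ ω, ψ (y, fun i => ω (b0 i)) ^ 2 ∂gm ≤ ENNReal.ofReal (max B 0) := fun y hy =>
    (hB y hy).trans (ENNReal.ofReal_le_ofReal (le_max_left _ _))
  set R : ℝ → ℝ≥0∞ := fun y => ∫⁻ ω, ψ (y, fun i => ω (b0 i)) ∂gm with hR
  have hRm : Measurable R :=
    (hψ.comp (measurable_fst.prodMk ((meas_vec b0).comp measurable_snd))).lintegral_prod_right'
  have hR1 : ∀ y, |y| ≤ K' → R y ≤ B1 := fun y hy =>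
    l1_le hG1 ((hψy y).comp (meas_vec b0)) hB0 (hB' y hy)
  have hexp : ∀ y, |y| ≤ K' → eE (-(4 / γ) * y) ≤ H := by
    intro y hy
    refine eE_mono ?_
    have := neg_abs_le y
    have := le_abs_self K'
    nlinarith
  set F : Dy → ℝ → ℝ≥0∞ := fun V y => ∫⁻ ω, ind (Ev M γ s K1 V
    (m + QQ γ * (V.length - 2 : ℕ) * l2 + y) ω) * ψ (y, fun i => ω (b V i)) ∂gm with hF
  set err : ℕ → ℝ → ℝ≥0∞ := fun k y =>
    PP' M γ m k 0 * (H * (ENNReal.ofReal ζ + ENNReal.ofReal ζ * B1)) +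
      ind (¬|m - 4 / γ * M.C0 - aa γ * k * l2| ≤ ε * τ) *
        (PP' M γ m k y * B1 + PP' M γ m k 0 * (H * B1)) with herr
  have herm : ∀ k, Measurable (err k) := fun k =>
    ((((PP'_meas M γ m k).mul_const _).add_const _).const_mul _).const_add _
  have hlen : ∀ V, Loc K1 V → i0 ≤ V.length - 2 ∧ V.length = V.length - 2 + 2 ∧
      K1 ≤ V.length := by
    intro V hV
    have := (hGEO1.2.2.2.2.2.2.2.2.2.2.2.2.1 K1 V hV).1
    omega
  have hpt : ∀ V, Loc K1 V → ∀ y ∈ Icc (-K') K',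
      PP' M γ m (V.length - 2) y * F V y ≤ PP' M γ m (V.length - 2) 0 * eE (-(4 / γ) * y) *
        (piV M γ s K1 m V * R y) + err (V.length - 2) y ∧
      PP' M γ m (V.length - 2) 0 * eE (-(4 / γ) * y) * (piV M γ s K1 m V * R y) ≤
        PP' M γ m (V.length - 2) y * F V y + err (V.length - 2) y := by
    intro V hV y hy
    have hy' : |y| ≤ K' := abs_le.2 hy
    obtain ⟨hk, hl, -⟩ := hlen V hV
    have hF1 : F V y ≤ B1 := by
      refine le_trans ?_ (hR1 y hy')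
      simp only [hR, hF]
      rw [← same hG3 (hb V hV).1 (hψy y)]
      exact lintegral_mono fun ω => mul_le_of_le_one_left' (ind_le_one _)
    set k := V.length - 2 with hkd
    by_cases ht : |m - 4 / γ * M.C0 - aa γ * k * l2| ≤ ε * τ
    · have hk' : (i0 : ℝ) ≤ k := by exact_mod_cast hk
      have ht' := (abs_le.1 ht).2
      have hτ0 : 0 ≤ τ := le_trans (by positivity) hτ
      have h1 : τ / 2 ≤ aa γ * ((k - i0) * l2) := by
        have : ε * τ ≤ 1 / 2 * τ := by gcongr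
        nlinarith
      have h2 : k0 ≤ k := by
        have h3 : aa γ * (k0 * l2) ≤ aa γ * ((k - i0) * l2) := by linarith
        have h4 := le_of_mul_le_mul_right (le_of_mul_le_mul_left h3 ha) hl2
        have h5 : (k0 : ℝ) ≤ k := by linarith [Nat.cast_nonneg (α := ℝ) i0]
        exact_mod_cast h5
      have h6 : τ / (2 * aa γ) ≤ M.C0 + k * l2 := by
        rw [div_le_iff₀ (by positivity)]
        have := hM.2
        nlinarith
      have h7 := hrat (M.C0 + k * l2) _ y h6 ht hy'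
      have e : m - 4 / γ * M.C0 - aa γ * k * l2 + 4 / γ * (M.C0 + k * l2) =
          m + QQ γ * k * l2 := by rw [← hQa]; ring
      rw [e] at h7
      have h8 := hk0 k h2 V hl (b V) (hb V hV).1 (hb V hV).2.1 (hb V hV).2.2 _ (hψy y) (hB' y hy')
        (m + QQ γ * k * l2) y hy'
      have h9 := two h7.1 h7.2 h8.1 h8.2 hF1
      have h10 : ENNReal.ofReal (pd (M.C0 + k * l2) (m + QQ γ * k * l2)) * eE (-(4 / γ) * y) *
          (ENNReal.ofReal ζ + ENNReal.ofReal ζ * B1) ≤ err k y := by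
        simp only [herr, PP', add_zero]
        refine le_add_right ?_
        rw [mul_assoc]
        gcongr
        exact hexp y hy'
      simp only [PP', add_zero]
      exact ⟨h9.1.trans (add_le_add_right h10 _), h9.2.trans (add_le_add_right h10 _)⟩
    · have h1 : ind (¬|m - 4 / γ * M.C0 - aa γ * k * l2| ≤ ε * τ) = 1 := by
        rw [ind, if_pos ht]
      simp only [herr, h1, one_mul]
      constructor
      · refine le_add_left (le_add_left (le_add_right ?_))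
        gcongr
      · refine le_add_left (le_add_left (le_add_left ?_))
        rw [mul_assoc]
        gcongr
        · exact hexp y hy'
        · exact (mul_le_of_le_one_left' prob_le_one).trans (hR1 y hy')
  set I := ∫⁻ y in Icc (-K') K', eE (-(4 / γ) * y) * R y with hI
  have hIm : Measurable fun y => eE (-(4 / γ) * y) * R y :=
    (eE_meas.comp (measurable_id.const_mul _)).mul hRm
  have hI' : I ≠ ∞ := by
    refine ne_top_of_le_ne_top (b := H * B1 * volume (Icc (-K') K')) (by finiteness) ?_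
    rw [← setLIntegral_const]
    exact setLIntegral_mono' measurableSet_Icc fun y hy =>
      mul_le_mul' (hexp y (abs_le.2 hy)) (hR1 y (abs_le.2 hy))
  have hIr : ∫ y in Icc (-K') K', Real.exp (-(4 / γ) * y) * (R y).toReal = I.toReal := by
    rw [integral_eq_lintegral_of_nonneg_ae (Eventually.of_forall fun y => by positivity)
      (Measurable.aestronglyMeasurable (by fun_prop))]
    congr 1
    refine setLIntegral_congr_fun measurableSet_Icc fun y hy => ?_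
    rw [ENNReal.ofReal_mul (Real.exp_pos _).le,
      ENNReal.ofReal_toReal (ne_top_of_le_ne_top hB1' (hR1 y (abs_le.2 hy))), eE]
  set T : Dy → ℝ≥0∞ := fun V => ∫⁻ ω,
    ind (Early (M.X γ 0 ω) s K1 V ∧ |M.YV γ 0 V ω - m| ≤ K') *
      ψ (M.YV γ 0 V ω - m, fun i => ω (b V i)) ∂gm with hT
  set E : ℕ → ℝ≥0∞ := fun k => ∫⁻ y in Icc (-K') K', err k y with hE
  have hV : ∀ V, ind (Loc K1 V) * T V ≤
      ind (Loc K1 V) * (PP' M γ m (V.length - 2) 0 * piV M γ s K1 m V) * I +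
        ind (Loc K1 V) * E (V.length - 2) ∧
      ind (Loc K1 V) * (PP' M γ m (V.length - 2) 0 * piV M γ s K1 m V) * I ≤
        ind (Loc K1 V) * T V + ind (Loc K1 V) * E (V.length - 2) := by
    intro V
    by_cases h : Loc K1 V
    · obtain ⟨hk, hl, hK1⟩ := hlen V h
      have e1 : T V = ∫⁻ y in Icc (-K') K', PP' M γ m (V.length - 2) y * F V y :=
        term hG1 hG1D hG2 hMOD hGEO1 M hM γ s K' m hk hl hK1 (b V) (hb V h).2.1 ψ hψ
      have e2 : PP' M γ m (V.length - 2) 0 * piV M γ s K1 m V * I = ∫⁻ y in Icc (-K') K',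
          PP' M γ m (V.length - 2) 0 * eE (-(4 / γ) * y) * (piV M γ s K1 m V * R y) := by
        rw [hI, ← lintegral_const_mul _ hIm]
        refine lintegral_congr fun y => ?_
        ring
      simp only [ind, if_pos h, one_mul]
      rw [e1, e2, hE]
      simp only
      rw [← lintegral_add_right _ (herm _), ← lintegral_add_right _ (herm _)]
      exact ⟨setLIntegral_mono' measurableSet_Icc fun y hy => (hpt V h y hy).1,
        setLIntegral_mono' measurableSet_Icc fun y hy => (hpt V h y hy).2⟩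
    · simp [ind, h]
  have hEs : eE (4 / γ * m) * ∑' V : Dy, ind (Loc K1 V) * E (V.length - 2) ≤
      ENNReal.ofReal η := by
    refine le_trans ?_ hΛ
    calc _ ≤ eE (4 / γ * m) * ∑' j : ℕ, ENNReal.ofReal (4 ^ (i0 + j + 2)) * E (i0 + j) :=
          mul_le_mul_right (sumlev hT1 hGEO1 hK E) _
      _ = ∫⁻ y in Icc (-K') K', ∑' j : ℕ,
            eE (4 / γ * m) * (ENNReal.ofReal (4 ^ (i0 + j + 2)) * err (i0 + j) y) := by
          rw [lintegral_tsum fun j => (((herm _).const_mul _).const_mul _).aemeasurable,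
            ← ENNReal.tsum_mul_left]
          refine tsum_congr fun j => ?_
          rw [lintegral_const_mul _ ((herm _).const_mul _), lintegral_const_mul _ (herm _)]
      _ ≤ ∫⁻ _ in Icc (-K') K', A * (ENNReal.ofReal C1 *
            (H * (ENNReal.ofReal ζ + ENNReal.ofReal ζ * B1)) +
            (ENNReal.ofReal ζ * B1 + ENNReal.ofReal ζ * (H * B1))) :=
          setLIntegral_mono' measurableSet_Icc fun y hy =>
            errsum hRW1 hγ M m i0 (abs_le.2 hy) hC1 hs2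
      _ = _ := by
          rw [setLIntegral_const]
          ring
  have haE : aE M γ s K1 m ≠ ∞ := by
    refine ne_top_of_le_ne_top (b := A * ENNReal.ofReal C1) (by finiteness) ?_
    calc _ ≤ eE (4 / γ * m) * ∑' V : Dy, ind (Loc K1 V) * PP' M γ m (V.length - 2) 0 := by
          rw [aE]
          gcongr with V
          exact mul_le_of_le_one_right' prob_le_one
      _ ≤ eE (4 / γ * m) * ∑' j : ℕ, ENNReal.ofReal (4 ^ (i0 + j + 2)) * PP' M γ m (i0 + j) 0 :=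
          mul_le_mul_right (sumlev hT1 hGEO1 hK fun k => PP' M γ m k 0) _
      _ ≤ _ := by
          rw [← ENNReal.tsum_mul_left]
          refine (ENNReal.tsum_le_tsum fun j =>
            wle hRW1 hγ M m i0 j (K' := K') (y := 0) (by simp)).trans ?_
          rw [ENNReal.tsum_mul_left]
          exact mul_le_mul_right (hC1 _) _
  have hZ : aE M γ s K1 m * I = eE (4 / γ * m) *
      ∑' V : Dy, ind (Loc K1 V) * (PP' M γ m (V.length - 2) 0 * piV M γ s K1 m V) * I := by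
    rw [aE, ENNReal.tsum_mul_right, mul_assoc]
  rw [hIr, ← ENNReal.toReal_mul]
  refine fin hη.le ?_ ?_ (ENNReal.mul_ne_top haE hI')
  · rw [hZ]
    refine le_trans ?_ (add_le_add_right hEs _)
    rw [← mul_add, ← ENNReal.tsum_add]
    exact mul_le_mul_right (ENNReal.tsum_le_tsum fun V => (hV V).1) _
  · rw [hZ]
    refine le_trans ?_ (add_le_add_right hEs _)
    rw [← mul_add, ← ENNReal.tsum_add]
    exact mul_le_mul_right (ENNReal.tsum_le_tsum fun V => (hV V).2) _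

end FAC

open FAC in
theorem blk_FAC (hG1 : St_G1) (hG1D : St_G1D) (hG2 : St_G2) (hG3 : St_G3) (hMOD : St_MOD)
    (hBMP : St_BMP) (hFE : St_FE) (_hEXP1 : St_EXP1) (hEXP2 : St_EXP2) (hGEO1 : St_GEO1)
    (hT1 : St_T1) (_hT3 : St_T3) (hRW1 : St_RW1) (hRW6 : St_RW6) (_hTL : St_TL) (hPRJ : St_PRJ) :
    St_FAC := by
  intro γ hγ M i0 hM s K' K1 hK
  refine ⟨fun n => (aE M γ s K1 (Real.log n / γ)).toReal, fun n => ENNReal.toReal_nonneg,
    fun ι _ b0 Cb B η hη => ?_⟩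
  have t1 : Tendsto (fun n : ℝ => Real.log n / γ) atTop atTop :=
    Real.tendsto_log_atTop.atTop_div_const hγ.1
  filter_upwards [t1.eventually
    (main hG1 hG1D hG2 hG3 hMOD hBMP hFE hEXP2 hGEO1 hT1 hRW1 hRW6 hPRJ hγ M hM s K' hK ι b0 Cb B
      hη), eventually_gt_atTop 0] with n hn h0 b ψ hψ hb hB
  have e : n ^ (th γ + 1) = (eE (4 / γ * (Real.log n / γ))).toReal := by
    rw [eE, ENNReal.toReal_ofReal (Real.exp_pos _).le, Real.rpow_def_of_pos h0, th]
    congr 1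
    ring
  rw [Model.Jg, e, ← ENNReal.toReal_mul]
  exact hn b ψ hψ hb hB

end

end Pool.Agent.Lib.APPS
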