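import Pool.Agent.Lib.APPS.Blue4

/-!
Block FAC, first part: Gaussian factorisation estimates.
-/

namespace Pool.Agent.Lib.APPS

open MeasureTheory ProbabilityTheory Filter Topology Set Metric
open scoped NNReal ENNReal RealInnerProductSpace Classical

noncomputable section

namespace FAC

theorem eE_add (a b : ℝ) : eE (a + b) = eE a * eE b := by
  unfold eE
  rw [Real.exp_add, ENNReal.ofReal_mul (Real.exp_pos a).le]

theorem eE_mono {a b : ℝ} (h : a ≤ b) : eE a ≤ eE b :=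
  ENNReal.ofReal_le_ofReal (Real.exp_le_exp.2 h)

theorem eE_zero : eE 0 = 1 := by simp [eE]

theorem eE_ne (t : ℝ) : eE t ≠ ∞ := ENNReal.ofReal_ne_top

theorem eE_meas : Measurable eE := Real.measurable_exp.ennreal_ofReal

theorem ind_meas {α : Type*} [MeasurableSpace α] {p : α → Prop} (h : MeasurableSet {a | p a}) :
    Measurable fun a => ind (p a) := by
  unfold ind
  exact Measurable.ite h measurable_const measurable_const

theorem lint_ind {p : Om → Prop} (h : MeasurableSet {a | p a}) :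
    ∫⁻ ω, ind (p ω) ∂gm = gm {ω | p ω} := by
  rw [← lintegral_indicator_one h]
  refine lintegral_congr fun ω => ?_
  simp [ind, indicator]

theorem ind_le_one (p : Prop) : ind p ≤ 1 := by
  unfold ind
  split_ifs <;> simp

theorem ind_le_add {p q r : Prop} (h : ¬r → p → q) : ind p ≤ ind q + ind r := by
  by_cases hp : p
  · by_cases hr : r
    · simp [ind, hp, hr]
    · simp [ind, hp, h hr hp]
  · simp [ind, hp]

theorem amgm (x : ℝ≥0∞) {ε : ℝ} (hε : 0 < ε) (p : Prop) :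
    ind p * x ≤ ENNReal.ofReal ε * x ^ 2 + ENNReal.ofReal ε⁻¹ * ind p := by
  by_cases hp : p
  · simp only [ind, if_pos hp, one_mul, mul_one]
    rcases le_total x (ENNReal.ofReal ε⁻¹) with h | h
    · exact le_add_left h
    · refine le_add_right ?_
      have h1 : (1 : ℝ≥0∞) ≤ ENNReal.ofReal ε * x := by
        calc (1 : ℝ≥0∞) = ENNReal.ofReal ε * ENNReal.ofReal ε⁻¹ := by
              rw [← ENNReal.ofReal_mul hε.le, mul_inv_cancel₀ hε.ne', ENNReal.ofReal_one]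
          _ ≤ _ := by gcongr
      calc x = 1 * x := (one_mul x).symm
        _ ≤ ENNReal.ofReal ε * x * x := by gcongr
        _ = _ := by ring
  · simp [ind, hp]

theorem bad_le {p : Om → Prop} (hp : MeasurableSet {a | p a}) {g : Om → ℝ≥0∞}
    (hg : Measurable g) {ε : ℝ} (hε : 0 < ε) :
    ∫⁻ ω, ind (p ω) * g ω ∂gm ≤
      ENNReal.ofReal ε * ∫⁻ ω, g ω ^ 2 ∂gm + ENNReal.ofReal ε⁻¹ * gm {ω | p ω} := by
  refine (lintegral_mono fun ω => amgm (g ω) hε (p ω)).trans (le_of_eq ?_)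
  rw [lintegral_add_left ((hg.pow_const 2).const_mul _), lintegral_const_mul _ (hg.pow_const 2),
    lintegral_const_mul _ (ind_meas hp), lint_ind hp]

theorem l1_le (hG1 : St_G1) {g : Om → ℝ≥0∞} (hg : Measurable g) {B : ℝ} (hB : 0 ≤ B)
    (h2 : ∫⁻ ω, g ω ^ 2 ∂gm ≤ ENNReal.ofReal B) : ∫⁻ ω, g ω ∂gm ≤ ENNReal.ofReal (B + 1) := by
  have := hG1.1
  have h := bad_le (p := fun _ => True) (by simp) hg one_pos
  simp only [ind, if_true, one_mul, ENNReal.ofReal_one, inv_one, ofPred_true, measure_univ] at h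
  rw [ENNReal.ofReal_add hB zero_le_one, ENNReal.ofReal_one]
  exact h.trans (by gcongr)

theorem swap (hG1 : St_G1) {A A0 A' Bd : Om → Prop} (hA : MeasurableSet {a | A a})
    (hA' : MeasurableSet {a | A' a})
    (hBd : MeasurableSet {a | Bd a}) {g : Om → ℝ≥0∞} (hg : Measurable g) {B ε : ℝ} (hB : 0 ≤ B)
    (hε : 0 < ε) (hε1 : ε ≤ 1) (h2 : ∫⁻ ω, g ω ^ 2 ∂gm ≤ ENNReal.ofReal B)
    (hP : gm {ω | Bd ω} ≤ ENNReal.ofReal (ε ^ 2))
    (hI : ∫⁻ ω, ind (A' ω) * g ω ∂gm = gm {ω | A' ω} * ∫⁻ ω, g ω ∂gm)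
    (h1 : ∀ ω, ¬Bd ω → (A ω ↔ A' ω) ∧ (A0 ω ↔ A' ω)) :
    ∫⁻ ω, ind (A ω) * g ω ∂gm ≤
        gm {ω | A0 ω} * ∫⁻ ω, g ω ∂gm + ENNReal.ofReal (2 * ε * (B + 1)) ∧
      gm {ω | A0 ω} * ∫⁻ ω, g ω ∂gm ≤
        ∫⁻ ω, ind (A ω) * g ω ∂gm + ENNReal.ofReal (2 * ε * (B + 1)) := by
  have hl1 := l1_le hG1 hg hB h2
  have hb : ∫⁻ ω, ind (Bd ω) * g ω ∂gm ≤ ENNReal.ofReal (ε * (B + 1)) := by
    refine (bad_le hBd hg hε).trans ?_
    calc _ ≤ ENNReal.ofReal ε * ENNReal.ofReal B +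
          ENNReal.ofReal ε⁻¹ * ENNReal.ofReal (ε ^ 2) := by gcongr
      _ = _ := by
          rw [← ENNReal.ofReal_mul hε.le, ← ENNReal.ofReal_mul (by positivity),
            ← ENNReal.ofReal_add (by positivity) (by positivity)]
          congr 1
          field_simp
  have hb' : gm {ω | Bd ω} * ∫⁻ ω, g ω ∂gm ≤ ENNReal.ofReal (ε * (B + 1)) := by
    calc _ ≤ ENNReal.ofReal (ε ^ 2) * ENNReal.ofReal (B + 1) := by gcongr
      _ ≤ _ := by
          rw [← ENNReal.ofReal_mul (by positivity)]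
          refine ENNReal.ofReal_le_ofReal ?_
          have : ε ^ 2 ≤ ε := by nlinarith
          gcongr
  have hs : ENNReal.ofReal (2 * ε * (B + 1)) =
      ENNReal.ofReal (ε * (B + 1)) + ENNReal.ofReal (ε * (B + 1)) := by
    rw [← ENNReal.ofReal_add (by positivity) (by positivity)]
    congr 1
    ring
  have hc : ∀ {X Y : Om → Prop}, MeasurableSet {a | Y a} → (∀ ω, ¬Bd ω → X ω → Y ω) →
      ∫⁻ ω, ind (X ω) * g ω ∂gm ≤
        ∫⁻ ω, ind (Y ω) * g ω ∂gm + ∫⁻ ω, ind (Bd ω) * g ω ∂gm := by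
    intro X Y hY h
    rw [← lintegral_add_left (f := fun ω => ind (Y ω) * g ω) ((ind_meas hY).mul hg)]
    refine lintegral_mono fun ω => ?_
    rw [← add_mul]
    exact mul_le_mul_left (ind_le_add (h ω)) _
  have hd : ∀ {X Y : Om → Prop}, (∀ ω, ¬Bd ω → X ω → Y ω) →
      gm {ω | X ω} ≤ gm {ω | Y ω} + gm {ω | Bd ω} := by
    intro X Y h
    refine (measure_mono fun ω hω => ?_).trans (measure_union_le _ _)
    by_cases hb : Bd ω
    · exact Or.inr hb
    · exact Or.inl (h ω hb hω)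
  rw [hs]
  constructor
  · calc _ ≤ ∫⁻ ω, ind (A' ω) * g ω ∂gm + ∫⁻ ω, ind (Bd ω) * g ω ∂gm :=
          hc hA' fun ω h => (h1 ω h).1.1
      _ ≤ (gm {ω | A0 ω} + gm {ω | Bd ω}) * ∫⁻ ω, g ω ∂gm + ENNReal.ofReal (ε * (B + 1)) := by
          rw [hI]
          gcongr
          exact hd fun ω h => (h1 ω h).2.2
      _ ≤ _ := by
          rw [add_mul, add_assoc]
          gcongr
  · calc _ ≤ (gm {ω | A' ω} + gm {ω | Bd ω}) * ∫⁻ ω, g ω ∂gm := by
          gcongr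
          exact hd fun ω h => (h1 ω h).2.1
      _ ≤ ∫⁻ ω, ind (A' ω) * g ω ∂gm + ENNReal.ofReal (ε * (B + 1)) := by
          rw [add_mul, hI]
          gcongr
      _ ≤ ∫⁻ ω, ind (A ω) * g ω ∂gm + ∫⁻ ω, ind (Bd ω) * g ω ∂gm +
            ENNReal.ofReal (ε * (B + 1)) := by
          gcongr
          exact hc hA fun ω h => (h1 ω h).1.2
      _ ≤ _ := by
          rw [add_assoc]
          gcongr

theorem markov (hD : St_G1D) (p : HH) {lam τ : ℝ} (hl : 0 ≤ lam) :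
    gm {ω | τ ≤ |ω p|} ≤ eE (-(lam * τ)) * (2 * eE (lam ^ 2 * ‖p‖ ^ 2 / 2)) := by
  have hm : MeasurableSet {ω : Om | τ ≤ |ω p|} :=
    measurableSet_le measurable_const (meas_ev p).abs
  rw [← lint_ind hm]
  refine le_trans ?_ (mul_le_mul_right (hD.2.2.2.2.2.2 p lam) _)
  rw [← lintegral_const_mul' _ _ (eE_ne _)]
  refine lintegral_mono fun ω => ?_
  by_cases h : τ ≤ |ω p|
  · rw [ind, if_pos h, ← eE_add, ← eE_zero]
    refine eE_mono ?_
    nlinarith
  · simp [ind, h]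

theorem bad1 (hD : St_G1D) {ρ ε : ℝ} (hρ : 0 < ρ) (hε : 0 < ε) : ∃ κ0 > 0,
    ∀ (r p : HH) (c κ : ℝ), ρ ≤ ‖r‖ → ‖p‖ ≤ κ0 → κ ≤ κ0 →
      gm {ω | |c + ω r| ≤ κ + |ω p|} ≤ ENNReal.ofReal ε := by
  set τ := ε * ρ / 8 with hτ
  have hτ0 : 0 < τ := by positivity
  set lam := 12 / (ε * τ) with hlam
  have hl0 : 0 < lam := by positivity
  refine ⟨min τ lam⁻¹, by positivity, fun r p c κ hr hp hκ => ?_⟩
  have hr0 : r ≠ 0 := by
    intro h
    rw [h, norm_zero] at hr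
    linarith
  have hκτ : κ ≤ τ := hκ.trans (min_le_left _ _)
  have hp1 : lam * ‖p‖ ≤ 1 := by
    have := hp.trans (min_le_right _ _)
    calc lam * ‖p‖ ≤ lam * lam⁻¹ := by gcongr
      _ = 1 := mul_inv_cancel₀ hl0.ne'
  have hsub : {ω : Om | |c + ω r| ≤ κ + |ω p|} ⊆
      {ω : Om | ω r ∈ Icc (-c - 2 * τ) (-c + 2 * τ)} ∪ {ω | τ ≤ |ω p|} := by
    intro ω hω
    by_cases h : τ ≤ |ω p|
    · exact Or.inr h
    · left
      have h1 : |c + ω r| ≤ κ + |ω p| := hω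
      have h2 := abs_le.1 h1
      push Not at h
      exact ⟨by linarith [h2.1], by linarith [h2.2]⟩
  refine (measure_mono hsub).trans ((measure_union_le _ _).trans ?_)
  have e1 : gm {ω : Om | ω r ∈ Icc (-c - 2 * τ) (-c + 2 * τ)} ≤ ENNReal.ofReal (ε / 2) := by
    refine (hD.2.2.1 r _ _ hr0).trans (ENNReal.ofReal_le_ofReal ?_)
    rw [div_le_iff₀ (hρ.trans_le hr)]
    have : ε * ρ ≤ ε * ‖r‖ := by gcongr
    rw [hτ]
    linarith
  have e2 : gm {ω : Om | τ ≤ |ω p|} ≤ ENNReal.ofReal (ε / 2) := by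
    refine (markov hD p hl0.le).trans ?_
    have h1 : Real.exp (-(lam * τ)) ≤ ε / 12 := by
      have h2 : lam * τ = 12 / ε := by rw [hlam]; field_simp
      rw [h2, Real.exp_neg, inv_le_comm₀ (Real.exp_pos _) (by positivity), inv_div]
      linarith [Real.add_one_le_exp (12 / ε)]
    have h3 : Real.exp (lam ^ 2 * ‖p‖ ^ 2 / 2) ≤ 3 := by
      have h4 : lam ^ 2 * ‖p‖ ^ 2 / 2 ≤ 1 := by
        have h5 : 0 ≤ lam * ‖p‖ := by positivity
        rw [← mul_pow]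
        nlinarith
      exact (Real.exp_le_exp.2 h4).trans (Real.exp_one_lt_d9.le.trans (by norm_num))
    calc _ ≤ ENNReal.ofReal (ε / 12) * (2 * ENNReal.ofReal 3) := by
          gcongr
          · exact ENNReal.ofReal_le_ofReal h1
          · exact ENNReal.ofReal_le_ofReal h3
      _ = _ := by
          rw [← ENNReal.ofReal_ofNat 2, ← ENNReal.ofReal_mul (by norm_num),
            ← ENNReal.ofReal_mul (by positivity)]
          congr 1
          ring
  calc _ ≤ ENNReal.ofReal (ε / 2) + ENNReal.ofReal (ε / 2) := add_le_add e1 e2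
    _ = _ := by rw [← ENNReal.ofReal_add (by positivity) (by positivity), add_halves]

theorem badK (hD : St_G1D) (K1 : ℕ) {ρ ε : ℝ} (hρ : 0 < ρ) (hε : 0 < ε) : ∃ κ0 > 0,
    ∀ (r p : ℕ → HH) (c : ℕ → ℝ), (∀ l ≤ K1, ρ ≤ ‖r l‖ ∧ ‖p l‖ ≤ κ0) →
      gm {ω | ∃ l ≤ K1, |c l + ω (r l)| ≤ κ0 + |ω (p l)|} ≤ ENNReal.ofReal ε := by
  obtain ⟨κ0, hκ, h⟩ := bad1 hD hρ (show 0 < ε / (K1 + 1) by positivity)
  refine ⟨κ0, hκ, fun r p c hh => ?_⟩
  have e : {ω : Om | ∃ l ≤ K1, |c l + ω (r l)| ≤ κ0 + |ω (p l)|} =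
      ⋃ l ∈ Finset.range (K1 + 1), {ω : Om | |c l + ω (r l)| ≤ κ0 + |ω (p l)|} := by
    ext ω
    simp
  rw [e]
  refine (measure_biUnion_finset_le _ _).trans ?_
  refine (Finset.sum_le_card_nsmul _ _ (ENNReal.ofReal (ε / (K1 + 1))) fun l hl => ?_).trans ?_
  · have hl' : l ≤ K1 := Nat.lt_succ_iff.1 (Finset.mem_range.1 hl)
    exact h _ _ _ _ (hh l hl').1 (hh l hl').2 le_rfl
  · rw [Finset.card_range, nsmul_eq_mul, ← ENNReal.ofReal_natCast,
      ← ENNReal.ofReal_mul (by positivity)]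
    refine ENNReal.ofReal_le_ofReal (le_of_eq ?_)
    push_cast
    field_simp

theorem meas_all (K1 : ℕ) (c : ℕ → ℝ) (v : ℕ → HH) :
    MeasurableSet {ω : Om | ∀ l ≤ K1, 0 < c l + ω (v l)} := by
  simp only [ofPred_forall]
  exact MeasurableSet.iInter fun l => MeasurableSet.iInter fun _ =>
    measurableSet_lt measurable_const ((meas_ev _).const_add _)

theorem meas_vec {ι : Type} (b : ι → HH) : Measurable fun (ω : Om) i => ω (b i) :=
  measurable_pi_lambda _ fun i => meas_ev (b i)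

theorem core (hG1 : St_G1) (hD : St_G1D) (hG3 : St_G3) (K1 : ℕ) {ρ B ε : ℝ} (hρ : 0 < ρ)
    (hB : 0 ≤ B) (hε : 0 < ε) : ∃ κ0 > 0, ∀ (ι : Type) (b : ι → HH) (p r : ℕ → HH)
    (c d : ℕ → ℝ) (g : (ι → ℝ) → ℝ≥0∞), Measurable g →
    (∀ l ≤ K1, ρ ≤ ‖r l‖ ∧ ‖p l‖ ≤ κ0 ∧ |d l| ≤ κ0 ∧ ∀ i, ⟪b i, r l⟫ = 0) →
    ∫⁻ ω, g (fun i => ω (b i)) ^ 2 ∂gm ≤ ENNReal.ofReal B →
    ∫⁻ ω, ind (∀ l ≤ K1, 0 < c l + d l + ω (p l + r l)) * g (fun i => ω (b i)) ∂gm ≤
        gm {ω | ∀ l ≤ K1, 0 < c l + ω (p l + r l)} * ∫⁻ ω, g (fun i => ω (b i)) ∂gm +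
          ENNReal.ofReal ε ∧
      gm {ω | ∀ l ≤ K1, 0 < c l + ω (p l + r l)} * ∫⁻ ω, g (fun i => ω (b i)) ∂gm ≤
        ∫⁻ ω, ind (∀ l ≤ K1, 0 < c l + d l + ω (p l + r l)) * g (fun i => ω (b i)) ∂gm +
          ENNReal.ofReal ε := by
  set ε1 := min 1 (ε / (2 * (B + 1))) with hε1
  have h0 : 0 < ε1 := by positivity
  have h1 : 2 * ε1 * (B + 1) ≤ ε := by
    have : ε1 ≤ ε / (2 * (B + 1)) := min_le_right _ _
    rw [le_div_iff₀ (by positivity)] at this
    linarith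
  obtain ⟨κ0, hκ, hbad⟩ := badK hD K1 hρ (show 0 < ε1 ^ 2 by positivity)
  refine ⟨κ0, hκ, fun ι b p r c d g hg hh h2 => ?_⟩
  have hgm : Measurable fun ω : Om => g fun i => ω (b i) := hg.comp (meas_vec b)
  have hBd : MeasurableSet {ω : Om | ∃ l ≤ K1, |c l + ω (r l)| ≤ κ0 + |ω (p l)|} := by
    simp only [ofPred_exists, ofPred_and]
    exact MeasurableSet.iUnion fun l => (MeasurableSet.const _).inter
      (measurableSet_le ((meas_ev _).const_add _).abs ((meas_ev _).abs.const_add _))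
  have hI : ∫⁻ ω, ind (∀ l ≤ K1, 0 < c l + ω (r l)) * g (fun i => ω (b i)) ∂gm =
      gm {ω | ∀ l ≤ K1, 0 < c l + ω (r l)} * ∫⁻ ω, g (fun i => ω (b i)) ∂gm := by
    have hi := hG3.2.2.2.2.1 {l : ℕ // l ≤ K1} ι (fun l => r l) b fun l i => by
      rw [real_inner_comm]; exact (hh l l.2).2.2.2 i
    have hf : Measurable fun x : {l : ℕ // l ≤ K1} → ℝ => ind (∀ l, 0 < c l.1 + x l) := by
      refine ind_meas ?_
      simp only [ofPred_forall]
      exact MeasurableSet.iInter fun l =>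
        measurableSet_lt measurable_const ((measurable_pi_apply l).const_add _)
    have hi2 := hi.comp hf hg
    have e : ∀ ω : Om, ind (∀ l ≤ K1, 0 < c l + ω (r l)) =
        ind (∀ l : {l : ℕ // l ≤ K1}, 0 < c l.1 + ω (r l)) := fun ω => by
      rw [Subtype.forall]
    rw [← lint_ind (meas_all K1 c r)]
    simp_rw [e]
    exact lintegral_mul_eq_lintegral_mul_lintegral_of_indepFun (hf.comp (meas_vec _)) hgm hi2
  have key := swap hG1 (A := fun ω => ∀ l ≤ K1, 0 < c l + d l + ω (p l + r l))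
    (A0 := fun ω => ∀ l ≤ K1, 0 < c l + ω (p l + r l))
    (meas_all K1 (fun l => c l + d l) fun l => p l + r l)
    (meas_all K1 c r) hBd hgm hB h0 (min_le_left _ _) h2
    (hbad r p c fun l hl => ⟨(hh l hl).1, (hh l hl).2.1⟩) hI (by
      intro ω hω
      push Not at hω
      have h3 : ∀ l ≤ K1, (0 < c l + d l + ω (p l + r l) ↔ 0 < c l + ω (r l)) ∧
          (0 < c l + ω (p l + r l) ↔ 0 < c l + ω (r l)) := by
        intro l hl
        have h4 := hω l hl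
        have h5 := abs_le.1 (hh l hl).2.2.1
        have h6 := le_abs_self (ω (p l))
        have h7 := neg_abs_le (ω (p l))
        rw [map_add]
        rcases lt_abs.1 h4 with h8 | h8
        · exact ⟨⟨fun _ => by linarith, fun _ => by linarith⟩,
            ⟨fun _ => by linarith, fun _ => by linarith⟩⟩
        · exact ⟨⟨fun _ => by linarith, fun _ => by linarith⟩,
            ⟨fun _ => by linarith, fun _ => by linarith⟩⟩
      exact ⟨⟨fun h l hl => (h3 l hl).1.1 (h l hl), fun h l hl => (h3 l hl).1.2 (h l hl)⟩,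
        ⟨fun h l hl => (h3 l hl).2.1 (h l hl), fun h l hl => (h3 l hl).2.2 (h l hl)⟩⟩)
  have h4 := ENNReal.ofReal_le_ofReal h1
  exact ⟨key.1.trans (by gcongr), key.2.trans (by gcongr)⟩

end FAC

end

end Pool.Agent.Lib.APPS
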