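import Pool.Agent.Lib.APPS.B_FACa

/-!
Block FAC, second part: geometry and the estimate for one square.
-/

namespace Pool.Agent.Lib.APPS

open MeasureTheory ProbabilityTheory Filter Topology Set Metric
open scoped NNReal ENNReal RealInnerProductSpace Classical

noncomputable section

namespace FAC

theorem l2_pos : 0 < l2 := Real.log_pos (by norm_num)

theorem pd_nonneg (v t : ℝ) : 0 ≤ pd v t := by unfold pd; positivity

theorem pd_neg (v t : ℝ) : pd v (-t) = pd v t := by unfold pd; rw [neg_sq]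

theorem side4 {V : Dy} {k : ℕ} (hV : V.length = k + 2) : 4 * side V = (1 / 2 : ℝ) ^ k := by
  rw [side, hV, pow_add]; ring

theorem YV_eq (M : Model) (γ u : ℝ) {V : Dy} {k : ℕ} (hV : V.length = k + 2) (ω : Om) :
    M.YV γ u V ω = ω (M.eC (ctr V) (4 * side V)) + (u - QQ γ * k * l2) := by
  rw [Model.YV, Model.Y, side4 hV, Real.log_pow, one_div, Real.log_inv, l2]
  ring

theorem ball_sub (hGEO1 : St_GEO1) (M : Model) {i0 : ℕ} (hM : M.Ok i0) {V : Dy}
    {k : ℕ} (hk : i0 ≤ k) (hV : V.length = k + 2) : closedBall (ctr V) (4 * side V) ⊆ M.O := by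
  have hc : ctr V ∈ box [] :=
    (hGEO1.2.2.2.2.1 V []).2 List.nil_suffix (hGEO1.2.2.2.1 V).2.2.1
  rw [side4 hV]
  exact (closedBall_subset_closedBall
      (pow_le_pow_of_le_one (by norm_num) (by norm_num) hk)).trans (hM.1 _ hc)

theorem nrm (hMOD : St_MOD) (hGEO1 : St_GEO1) (M : Model) {i0 : ℕ} (hM : M.Ok i0) {V : Dy}
    {k : ℕ} (hk : i0 ≤ k) (hV : V.length = k + 2) :
    ‖M.eC (ctr V) (4 * side V)‖ ^ 2 = M.C0 + k * l2 := by
  obtain ⟨-, -, -, -, -, -, -, -, -, -, h11, -⟩ := hMOD M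
  have hsub := ball_sub hGEO1 M hM hk hV
  rw [side4 hV] at hsub
  rw [side4 hV, ← real_inner_self_eq_norm_sq, h11 _ _ _ (by positivity) le_rfl hsub,
    Real.log_pow, one_div, Real.log_inv, l2]
  ring

theorem one_le (M : Model) {i0 : ℕ} (hM : M.Ok i0) {k : ℕ} (hk : i0 ≤ k) :
    1 ≤ M.C0 + k * l2 := by
  have hk' : (i0 : ℝ) ≤ k := by exact_mod_cast hk
  have := hM.2
  nlinarith [l2_pos]

theorem law (hG1D : St_G1D) (hMOD : St_MOD) (hGEO1 : St_GEO1) (M : Model) {i0 : ℕ}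
    (hM : M.Ok i0) (γ u : ℝ) {V : Dy} {k : ℕ} (hk : i0 ≤ k) (hV : V.length = k + 2)
    (f : ℝ → ℝ≥0∞) (hf : Measurable f) :
    ∫⁻ ω, f (M.YV γ u V ω) ∂gm =
      ∫⁻ y, ENNReal.ofReal (pd (M.C0 + k * l2) (y - u + QQ γ * k * l2)) * f y := by
  have hn := nrm hMOD hGEO1 M hM hk hV
  have hpos := one_le M hM hk
  have hne : M.eC (ctr V) (4 * side V) ≠ 0 := by
    intro h
    rw [h, norm_zero] at hn
    nlinarith
  simp_rw [YV_eq M γ u hV]
  rw [hG1D.2.2.2.1 _ (fun t => f (t + (u - QQ γ * k * l2))) hne (hf.comp (by fun_prop)), hn,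
    ← lintegral_add_right_eq_self _ (-(u - QQ γ * k * l2))]
  refine lintegral_congr fun y => ?_
  congr 3
  · ring
  · ring

theorem mix (hG2 : St_G2) (M : Model) (γ u : ℝ) {V : Dy} {k : ℕ} (hV : V.length = k + 2)
    (Ψ : ℝ × Om → ℝ≥0∞) (hΨ : Measurable Ψ)
    (hI : ∀ y, InvD (M.eC (ctr V) (4 * side V)) fun ω => Ψ (y, ω)) :
    ∫⁻ ω, Ψ (M.YV γ u V ω, ω) ∂gm = ∫⁻ ω', ∫⁻ ω, Ψ (M.YV γ u V ω', ω) ∂gm ∂gm := by
  simp_rw [YV_eq M γ u hV]
  exact hG2.2.2.2 Unit (fun _ => M.eC (ctr V) (4 * side V))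
    (fun p => Ψ (p.1 () + (u - QQ γ * k * l2), p.2)) (hΨ.comp (by fun_prop))
    fun t _ => hI (t () + (u - QQ γ * k * l2))

def cV (M : Model) (V : Dy) : HH := M.eC (ctr V) (4 * side V)

def al (M : Model) (V : Dy) (l : ℕ) : ℝ := ⟪M.eS (anc l V), cV M V⟫ / ‖cV M V‖ ^ 2

def ep (M : Model) (V : Dy) (l : ℕ) : HH := M.eS (anc l V) - al M V l • cV M V

def Ev (M : Model) (γ s : ℝ) (K1 : ℕ) (V : Dy) (t : ℝ) (ω : Om) : Prop :=
  ∀ l ≤ K1, 0 < al M V l * t - QQ γ * l * l2 - s + ω (ep M V l)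

theorem ep_orth (M : Model) (V : Dy) (l : ℕ) (h : ‖cV M V‖ ^ 2 ≠ 0) : ⟪cV M V, ep M V l⟫ = 0 := by
  rw [ep, inner_sub_right, inner_smul_right, real_inner_self_eq_norm_sq, al,
    div_mul_cancel₀ _ h, real_inner_comm, sub_self]

theorem meas_Ev (M : Model) (γ s : ℝ) (K1 : ℕ) (V : Dy) :
    MeasurableSet {p : ℝ × Om | Ev M γ s K1 V p.1 p.2} := by
  simp only [Ev, ofPred_forall]
  refine MeasurableSet.iInter fun l => MeasurableSet.iInter fun _ =>
    measurableSet_lt measurable_const ?_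
  exact (((measurable_fst.const_mul _).sub_const _).sub_const _).add
    ((meas_ev _).comp measurable_snd)

theorem term (hG1 : St_G1) (hG1D : St_G1D) (hG2 : St_G2) (hMOD : St_MOD) (hGEO1 : St_GEO1)
    (M : Model) {i0 : ℕ} (hM : M.Ok i0) (γ s K' m : ℝ) {K1 : ℕ} {V : Dy} {k : ℕ} (hk : i0 ≤ k)
    (hV : V.length = k + 2) (hK : K1 ≤ V.length) {ι : Type} (b : ι → HH)
    (hb : ∀ i, ⟪b i, cV M V⟫ = 0) (ψ : ℝ × (ι → ℝ) → ℝ≥0∞) (hψ : Measurable ψ) :
    ∫⁻ ω, ind (Early (M.X γ 0 ω) s K1 V ∧ |M.YV γ 0 V ω - m| ≤ K') *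
        ψ (M.YV γ 0 V ω - m, fun i => ω (b i)) ∂gm =
      ∫⁻ y in Icc (-K') K', ENNReal.ofReal (pd (M.C0 + k * l2) (m + QQ γ * k * l2 + y)) *
        ∫⁻ ω, ind (Ev M γ s K1 V (m + QQ γ * k * l2 + y) ω) * ψ (y, fun i => ω (b i)) ∂gm := by
  have := hG1.1
  have hn : ‖cV M V‖ ^ 2 ≠ 0 := by
    have h1 := nrm hMOD hGEO1 M hM hk hV
    have h2 := one_le M hM hk
    rw [cV, h1]
    linarith
  set Ψ : ℝ × Om → ℝ≥0∞ := fun p => ind (|p.1 - m| ≤ K') *
    (ind (Ev M γ s K1 V (p.1 + QQ γ * k * l2) p.2) * ψ (p.1 - m, fun i => p.2 (b i))) with hΨ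
  have hm : Measurable Ψ := by
    refine (ind_meas (measurableSet_le (by fun_prop) measurable_const)).mul
      ((ind_meas ?_).mul (hψ.comp ((measurable_fst.sub_const m).prodMk
        ((meas_vec b).comp measurable_snd))))
    exact ((measurable_fst.add_const _).prodMk measurable_snd) (meas_Ev M γ s K1 V)
  have e1 : ∀ ω, ind (Early (M.X γ 0 ω) s K1 V ∧ |M.YV γ 0 V ω - m| ≤ K') *
      ψ (M.YV γ 0 V ω - m, fun i => ω (b i)) = Ψ (M.YV γ 0 V ω, ω) := by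
    intro ω
    have h1 : Early (M.X γ 0 ω) s K1 V ↔ Ev M γ s K1 V (M.YV γ 0 V ω + QQ γ * k * l2) ω := by
      refine forall_congr' fun l => forall_congr' fun hl => ?_
      have h2 : (anc l V).length = l := by
        rw [(hGEO1.2.2.2.2.2.2.2.2.2.2.2.2.2.1 l V).2]
        omega
      simp only [Model.X, drift, h2, YV_eq M γ 0 hV, ep, map_sub, map_smul, smul_eq_mul, cV]
      constructor <;> intro h <;> linarith
    rw [h1, hΨ]
    by_cases h3 : |M.YV γ 0 V ω - m| ≤ K' <;>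
      by_cases h4 : Ev M γ s K1 V (M.YV γ 0 V ω + QQ γ * k * l2) ω <;> simp [ind, h3, h4]
  simp_rw [e1]
  rw [mix hG2 M γ 0 hV Ψ hm, law hG1D hMOD hGEO1 M hM γ 0 hk hV (fun y => ∫⁻ ω, Ψ (y, ω) ∂gm)
    hm.lintegral_prod_right', ← lintegral_add_left_eq_self _ m,
    ← lintegral_indicator measurableSet_Icc]
  · refine lintegral_congr fun y => ?_
    by_cases hy : y ∈ Icc (-K') K'
    · have h1 : |y| ≤ K' := abs_le.2 hy
      rw [indicator_of_mem hy]
      have h2 : ind (|y| ≤ K') = 1 := by simp [ind, h1]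
      simp only [hΨ, add_sub_cancel_left, h2, one_mul, sub_zero]
      rw [add_right_comm m y]
    · have h1 : ¬|y| ≤ K' := fun h => hy (abs_le.1 h)
      rw [indicator_of_notMem hy]
      simp [hΨ, ind, h1]
  · intro y t ω
    have h1 : ∀ i, (ω + t • dv (M.eC (ctr V) (4 * side V))) (b i) = ω (b i) := by
      intro i
      have := hb i
      rw [real_inner_comm, cV] at this
      simp [this]
    have h2 : ∀ l, (ω + t • dv (M.eC (ctr V) (4 * side V))) (ep M V l) = ω (ep M V l) := by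
      intro l
      have := ep_orth M V l hn
      rw [cV] at this
      simp [this]
    simp only [hΨ, Ev, h1, h2]

theorem box_sub (hGEO1 : St_GEO1) (M : Model) {i0 : ℕ} (hM : M.Ok i0) (A : Dy) : box A ⊆ M.O :=
  fun z hz => hM.1 z ((hGEO1.2.2.2.2.1 A []).2 List.nil_suffix hz)
    (mem_closedBall_self (by positivity))

theorem geo (hMOD : St_MOD) (hFE : St_FE) (hEXP2 : St_EXP2) (hGEO1 : St_GEO1)
    (M : Model) {i0 : ℕ} (hM : M.Ok i0) (K1 : ℕ) : ∃ D ≥ 0, ∀ (V : Dy) (k : ℕ), i0 ≤ k →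
      V.length = k + 2 → ∀ l ≤ K1, |⟪M.eS (anc l V), cV M V⟫| ≤ D := by
  obtain ⟨C, hC, -, -, -, -, hE⟩ := hEXP2.2.2.2.2.2
  obtain ⟨-, -, -, h4, -, -, -, h8, -⟩ := hMOD M
  have hl2 := l2_pos
  refine ⟨|M.C0| + C + K1 * l2 + 3, by positivity, fun V k hk hV l hl => ?_⟩
  set A := anc l V with hA
  have hsV := hGEO1.1 V
  have hsA := hGEO1.1 A
  have hr : 0 < 4 * side V := by linarith [hsV.1]
  have hu := hFE.2.2.2.2.2.2.2.1 A
  have hc := hFE.2.2.2.2.2.2.2.2.1 (ctr V) _ hr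
  have e1 : ⟪M.eS A, cV M V⟫ =
      M.C0 - ∫ y, Real.log (max ‖y - ctr V‖ (4 * side V)) ∂unif A := by
    rw [real_inner_comm, cV, Model.eC, Model.eS, h4 _ _ hc.1 hu.1, h8 _ _ _ hr hu.1]
    · ring
    · exact measure_mono_null (compl_subset_compl.2
        (sphere_subset_closedBall.trans (ball_sub hGEO1 M hM hk hV))) hc.2.1
    · exact measure_mono_null (compl_subset_compl.2 (box_sub hGEO1 M hM A)) hu.2
  have h1 := abs_le.1 (hE (ctr V) _ A hr)
  set X := max (max ‖ctr V - ctr A‖ (side A)) (4 * side V) with hX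
  have hanc := hGEO1.2.2.2.2.2.2.2.2.2.2.2.2.2.1 l V
  have hX4 : X ≤ 4 := by
    have h2 : ctr V ∈ box A := (hGEO1.2.2.2.2.1 V A).2 hanc.1 (hGEO1.2.2.2.1 V).2.2.1
    have h3 := (hGEO1.2.2.2.1 A).2.2.2.1 _ h2
    refine max_le (max_le ?_ ?_) ?_ <;> linarith [hsV.2, hsA.2]
  have hX0 : (1 / 2 : ℝ) ^ K1 ≤ X := by
    refine le_trans ?_ ((le_max_right _ _).trans (le_max_left _ _))
    rw [side]
    refine pow_le_pow_of_le_one (by norm_num) (by norm_num) ?_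
    rw [hanc.2]
    omega
  have h5 : Real.log X ≤ 3 := by
    have := Real.log_le_sub_one_of_pos (lt_of_lt_of_le (by positivity) hX0)
    linarith
  have h6 : -(K1 * l2) ≤ Real.log X := by
    have := Real.log_le_log (by positivity) hX0
    rwa [Real.log_pow, one_div, Real.log_inv, ← l2, mul_neg] at this
  have h7 := le_abs_self M.C0
  have h9 := neg_abs_le M.C0
  have h10 : 0 ≤ (K1 : ℝ) * l2 := by positivity
  rw [e1, abs_le]
  constructor <;> linarith [h1.1, h1.2]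

theorem same (hG3 : St_G3) {ι : Type} {b b0 : ι → HH} (h : ∀ i j, ⟪b i, b j⟫ = ⟪b0 i, b0 j⟫)
    {g : (ι → ℝ) → ℝ≥0∞} (hg : Measurable g) :
    ∫⁻ ω, g (fun i => ω (b i)) ∂gm = ∫⁻ ω, g (fun i => ω (b0 i)) ∂gm := by
  rw [← lintegral_map hg (meas_vec b), ← lintegral_map hg (meas_vec b0), hG3.2.2.1 ι b b0 h]

theorem perV (hG1 : St_G1) (hG1D : St_G1D) (hG3 : St_G3) (hMOD : St_MOD) (hBMP : St_BMP)
    (hFE : St_FE) (hEXP2 : St_EXP2) (hGEO1 : St_GEO1) (hPRJ : St_PRJ)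
    (M : Model) {i0 : ℕ} (hM : M.Ok i0) (γ s K' : ℝ) (K1 : ℕ) (ι : Type) [Fintype ι]
    (b0 : ι → HH) (Cb : ℝ) {B ε : ℝ} (hB : 0 ≤ B) (hε : 0 < ε) :
    ∀ᶠ k : ℕ in atTop, ∀ V : Dy, V.length = k + 2 → ∀ b : ι → HH,
      (∀ i j, ⟪b i, b j⟫ = ⟪b0 i, b0 j⟫) → (∀ i, ⟪b i, cV M V⟫ = 0) →
      (∀ i, ∀ l ≤ K1, |⟪b i, M.eS (anc l V)⟫| ≤ Cb * side V) →
      ∀ g : (ι → ℝ) → ℝ≥0∞, Measurable g →
      ∫⁻ ω, g (fun i => ω (b0 i)) ^ 2 ∂gm ≤ ENNReal.ofReal B → ∀ t y : ℝ, |y| ≤ K' →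
      ∫⁻ ω, ind (Ev M γ s K1 V (t + y) ω) * g (fun i => ω (b i)) ∂gm ≤
          gm {ω | Ev M γ s K1 V t ω} * ∫⁻ ω, g (fun i => ω (b0 i)) ∂gm + ENNReal.ofReal ε ∧
        gm {ω | Ev M γ s K1 V t ω} * ∫⁻ ω, g (fun i => ω (b0 i)) ∂gm ≤
          ∫⁻ ω, ind (Ev M γ s K1 V (t + y) ω) * g (fun i => ω (b i)) ∂gm + ENNReal.ofReal ε := by
  obtain ⟨hbb, E, C, hE, -, -, hmod⟩ := hBMP
  have hlow := (hmod M).2.2.2.2.2.2.2.2
  obtain ⟨D, hD, hgeo⟩ := geo hMOD hFE hEXP2 hGEO1 M hM K1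
  obtain ⟨Cp, hCp, hprj⟩ := hPRJ ι b0
  set ρ := Real.sqrt (bb ^ 2 / E) with hρ
  have hρ0 : 0 < ρ := Real.sqrt_pos.2 (by positivity)
  obtain ⟨κ0, hκ, hcore⟩ := core hG1 hG1D hG3 K1 (show 0 < ρ / 2 by positivity) hB hε
  have hl2 := l2_pos
  have t1 : Tendsto (fun k : ℕ => M.C0 + k * l2) atTop atTop :=
    tendsto_atTop_add_const_left _ _ (tendsto_natCast_atTop_atTop.atTop_mul_const hl2)
  have t2 : Tendsto (fun k : ℕ => Cp * (|Cb| * (1 / 2 : ℝ) ^ k)) atTop (𝓝 0) := by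
    have := ((tendsto_pow_atTop_nhds_zero_of_lt_one (r := (1 / 2 : ℝ)) (by norm_num)
      (by norm_num)).const_mul |Cb|).const_mul Cp
    simpa using this
  filter_upwards [eventually_ge_atTop i0, t1.eventually_ge_atTop ((4 * D / ρ) ^ 2),
    t1.eventually_ge_atTop (D * |K'| / κ0),
    t2.eventually (ge_mem_nhds (show 0 < min κ0 (ρ / 4) by positivity))] with k hk h1 h2 h3
  intro V hV b hgram horth hsm g hg hg2 t y hy
  have hn : ‖cV M V‖ ^ 2 = M.C0 + k * l2 := nrm hMOD hGEO1 M hM hk hV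
  have hn1 := one_le M hM hk
  have hc0 : 0 < ‖cV M V‖ := by
    rcases (norm_nonneg (cV M V)).lt_or_eq with h | h
    · exact h
    · rw [← h] at hn
      nlinarith
  have hp : ∀ l, ∃ p : HH, l ≤ K1 → ‖p‖ ≤ min κ0 (ρ / 4) ∧ ∀ i, ⟪b i, ep M V l - p⟫ = 0 := by
    intro l
    by_cases hl : l ≤ K1
    · obtain ⟨p, -, hp1, hp2⟩ := hprj b hgram (ep M V l) (|Cb| * (1 / 2 : ℝ) ^ k) (by positivity)
        (fun i => by
          rw [ep, inner_sub_right, inner_smul_right, horth i, mul_zero, sub_zero]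
          refine (hsm i l hl).trans ?_
          have h4 := side4 hV
          have h5 := (hGEO1.1 V).1
          calc Cb * side V ≤ |Cb| * side V := by gcongr; exact le_abs_self _
            _ ≤ _ := by gcongr; linarith)
      exact ⟨p, fun _ => ⟨hp1.trans h3, hp2⟩⟩
    · exact ⟨0, fun h => absurd h hl⟩
  choose p hp using hp
  have hal : ∀ l ≤ K1, |al M V l| ≤ D / ‖cV M V‖ ^ 2 := by
    intro l hl
    rw [al, abs_div, abs_of_pos (a := ‖cV M V‖ ^ 2) (by positivity)]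
    gcongr
    exact hgeo V k hk hV l hl
  have key := hcore ι b p (fun l => ep M V l - p l)
    (fun l => al M V l * t - QQ γ * l * l2 - s) (fun l => al M V l * y) g hg (by
      intro l hl
      refine ⟨?_, (hp l hl).1.trans (min_le_left _ _), ?_, (hp l hl).2⟩
      · have h4 : ρ ≤ ‖M.eS (anc l V)‖ :=
          Real.sqrt_le_iff.2 ⟨norm_nonneg _, hlow _ (box_sub hGEO1 M hM _)⟩
        have h5 : ‖al M V l • cV M V‖ ≤ ρ / 4 := by
          rw [norm_smul, Real.norm_eq_abs]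
          have h6 : 4 * D / ρ ≤ ‖cV M V‖ :=
            (pow_le_pow_iff_left₀ (by positivity) hc0.le two_ne_zero).1 (by rw [hn]; exact h1)
          rw [div_le_iff₀ hρ0] at h6
          calc _ ≤ D / ‖cV M V‖ ^ 2 * ‖cV M V‖ := by gcongr; exact hal l hl
            _ = D / ‖cV M V‖ := by field_simp
            _ ≤ _ := by rw [div_le_iff₀ hc0]; linarith
        have h7 := (hp l hl).1.trans (min_le_right _ _)
        have h8 : M.eS (anc l V) = ep M V l - p l + (al M V l • cV M V + p l) := by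
          rw [ep]; abel
        have h9 := norm_add_le (ep M V l - p l) (al M V l • cV M V + p l)
        have h10 := norm_add_le (al M V l • cV M V) (p l)
        rw [← h8] at h9
        linarith
      · rw [abs_mul]
        rw [div_le_iff₀ hκ, ← hn] at h2
        calc _ ≤ D / ‖cV M V‖ ^ 2 * |K'| :=
              mul_le_mul (hal l hl) (hy.trans (le_abs_self _)) (abs_nonneg _) (by positivity)
          _ = D * |K'| / ‖cV M V‖ ^ 2 := by ring
          _ ≤ _ := by rw [div_le_iff₀ (by positivity)]; linarith)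
    (by rw [same hG3 hgram (hg.pow_const 2)]; exact hg2)
  rw [same hG3 hgram hg] at key
  simp only [add_sub_cancel] at key
  have e : ∀ ω, Ev M γ s K1 V (t + y) ω ↔ ∀ l ≤ K1,
      0 < al M V l * t - QQ γ * l * l2 - s + al M V l * y + ω (ep M V l) := by
    intro ω
    refine forall_congr' fun l => forall_congr' fun _ => ?_
    constructor <;> intro h <;> linarith
  simp_rw [e]
  exact key

end FAC

end

end Pool.Agent.Lib.APPS
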