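import Pool.Agent.Lib.APPS.B_FACb

/-!
Block FAC, third part: level sums and density ratios.
-/

namespace Pool.Agent.Lib.APPS

open MeasureTheory ProbabilityTheory Filter Topology Set Metric
open scoped NNReal ENNReal RealInnerProductSpace Classical

noncomputable section

namespace FAC

theorem levs (hT1 : St_T1) (n0 : ℕ) (F : Dy → ℝ≥0∞) :
    ∑' V : Dy, ind (n0 ≤ V.length) * F V = ∑' j : ℕ, ∑ V ∈ lev (n0 + j), F V := by
  have h1 : ∀ V : Dy, ind (n0 ≤ V.length) * F V = ∑' j : ℕ, ind (V.length = n0 + j) * F V := by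
    intro V
    by_cases h : n0 ≤ V.length
    · rw [tsum_eq_single (V.length - n0)]
      · have : V.length = n0 + (V.length - n0) := by omega
        simp only [ind, if_pos h, if_pos this]
      · intro j hj
        have : ¬V.length = n0 + j := by omega
        simp [ind, this]
    · have : ∀ j : ℕ, ¬V.length = n0 + j := fun j => by omega
      simp [ind, h, this]
  simp_rw [h1]
  rw [ENNReal.tsum_comm]
  refine tsum_congr fun j => ?_
  rw [tsum_eq_sum (s := lev (n0 + j))]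
  · refine Finset.sum_congr rfl fun V hV => ?_
    simp [ind, (hT1.1 _ V).1 hV]
  · intro V hV
    have : ¬V.length = n0 + j := fun h => hV ((hT1.1 _ V).2 h)
    simp [ind, this]

theorem sumlev (hT1 : St_T1) (hGEO1 : St_GEO1) {i0 K1 : ℕ} (hK : i0 ≤ K1) (g : ℕ → ℝ≥0∞) :
    ∑' V : Dy, ind (Loc K1 V) * g (V.length - 2) ≤
      ∑' j : ℕ, ENNReal.ofReal (4 ^ (i0 + j + 2)) * g (i0 + j) := by
  calc _ ≤ ∑' V : Dy, ind (i0 + 2 ≤ V.length) * g (V.length - 2) := by
        refine ENNReal.tsum_le_tsum fun V => ?_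
        by_cases h : Loc K1 V
        · have := (hGEO1.2.2.2.2.2.2.2.2.2.2.2.2.1 K1 V h).1
          have h2 : i0 + 2 ≤ V.length := by omega
          simp [ind, h, h2]
        · simp [ind, h]
    _ = _ := by
        rw [levs hT1]
        refine tsum_congr fun j => ?_
        rw [Finset.sum_congr rfl (g := fun _ => g (i0 + j))]
        · rw [Finset.sum_const, nsmul_eq_mul, hT1.2.1, ← ENNReal.ofReal_natCast]
          congr 2
          push_cast
          ring
        · intro V hV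
          rw [(hT1.1 _ V).1 hV]
          congr 1
          omega

theorem key (hRW1 : St_RW1) {γ : ℝ} (hγ : γ ∈ Ioo (0 : ℝ) 2) (C m y : ℝ) (i0 j : ℕ) :
    eE (4 / γ * m) * (ENNReal.ofReal (4 ^ (i0 + j + 2)) * ENNReal.ofReal
      (pd (C + (i0 + j : ℕ) * l2) (m + QQ γ * (i0 + j : ℕ) * l2 + y))) =
      ENNReal.ofReal (16 * Real.exp (8 * C / γ ^ 2)) * eE (-(4 / γ) * y) * ENNReal.ofReal
        (pd (C + i0 * l2 + j * l2) (m - 4 / γ * C - aa γ * i0 * l2 + y - aa γ * j * l2)) := by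
  have h := (hRW1.2.1 γ hγ C (m + y) 0 (i0 + j)).2
  have e0 : m + QQ γ * ((i0 + j : ℕ) : ℝ) * l2 + y =
      m + y - 0 + QQ γ * ((i0 + j : ℕ) : ℝ) * l2 := by ring
  have e1 : C + ((i0 + j : ℕ) : ℝ) * l2 = C + i0 * l2 + j * l2 := by push_cast; ring
  have e2 : m + y - 0 - 4 / γ * C - aa γ * ((i0 + j : ℕ) : ℝ) * l2 =
      m - 4 / γ * C - aa γ * i0 * l2 + y - aa γ * j * l2 := by push_cast; ring
  unfold eE
  rw [← ENNReal.ofReal_mul (by positivity), ← ENNReal.ofReal_mul (by positivity),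
    ← ENNReal.ofReal_mul (by positivity), ← ENNReal.ofReal_mul (by positivity), pow_add _ _ 2,
    mul_right_comm _ (4 ^ 2 : ℝ), e0, h, e2, e1]
  congr 1
  have e3 : Real.exp (4 / γ * m) * Real.exp (4 / γ * (0 - (m + y)) + 8 * C / γ ^ 2) =
      Real.exp (8 * C / γ ^ 2) * Real.exp (-(4 / γ) * y) := by
    rw [← Real.exp_add, ← Real.exp_add]
    congr 1
    ring
  generalize pd _ _ = P
  linear_combination 16 * P * e3

theorem sum1 (hRW1 : St_RW1) {a s : ℝ} (ha : 0 < a) (hs : 1 ≤ s) : ∃ C : ℝ, ∀ x : ℝ,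
    ∑' j : ℕ, ENNReal.ofReal (pd (s + j * l2) (x - a * j * l2)) ≤ ENNReal.ofReal C := by
  obtain ⟨C, hC⟩ := hRW1.1 a ha 1 one_pos
  refine ⟨max C 0, fun x => ?_⟩
  have h1 := (hC s hs (-x)).1
  refine le_trans (le_of_eq (tsum_congr fun j => ?_)) (h1.trans (ENNReal.ofReal_le_ofReal ?_))
  · rw [← pd_neg]
    congr 2
    ring
  · calc C * min 1 _ ≤ max C 0 * min 1 _ :=
          mul_le_mul_of_nonneg_right (le_max_left _ _) (le_min zero_le_one (Real.exp_pos _).le)
      _ ≤ max C 0 * 1 := mul_le_mul_of_nonneg_left (min_le_left _ _) (le_max_right _ _)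
      _ = max C 0 := mul_one _

theorem sum2 (hRW6 : St_RW6) {a s ε ζ : ℝ} (ha : 0 < a) (hs : 1 ≤ s) (hε : 0 < ε) (hζ : 0 < ζ)
    (K' : ℝ) : ∀ᶠ τ : ℝ in atTop, ∀ y, |y| ≤ K' →
      ∑' j : ℕ, ind (¬|τ - a * j * l2| ≤ ε * τ) *
        ENNReal.ofReal (pd (s + j * l2) (τ + y - a * j * l2)) ≤ ENNReal.ofReal ζ := by
  have h := ((hRW6 a ha s (by linarith)).2 (ε / 2) (by positivity)).eventually
    (ge_mem_nhds (ENNReal.ofReal_pos.2 hζ))
  obtain ⟨T, hT⟩ := eventually_atTop.1 h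
  filter_upwards [eventually_ge_atTop (T + K'), eventually_ge_atTop ((1 + ε / 2) * K' / (ε / 2))]
    with τ h1 h2 y hy
  have hy' := abs_le.1 hy
  refine le_trans (ENNReal.tsum_le_tsum fun j => ?_) (hT (τ + y) (by linarith [hy'.1]))
  by_cases h3 : |τ - a * j * l2| ≤ ε * τ
  · simp [ind, h3]
  · have h4 : ε / 2 * (τ + y) < |a * j * l2 - (τ + y)| := by
      rw [div_le_iff₀ (by positivity)] at h2
      push Not at h3
      have h5 : |τ - a * j * l2| ≤ |a * j * l2 - (τ + y)| + |y| := by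
        have := abs_add_le (a * j * l2 - (τ + y)) y
        rwa [show a * j * l2 - (τ + y) + y = -(τ - a * j * l2) by ring, abs_neg] at this
      nlinarith [hy'.2]
    simp [ind, h3, h4]

theorem pd_shift {s : ℝ} (hs : 0 < s) (g x y : ℝ) : pd s (x + g * s + y) =
    pd s (x + g * s) * Real.exp (-g * y) * Real.exp (-(x * y / s + y ^ 2 / (2 * s))) := by
  unfold pd
  rw [mul_assoc _ (Real.exp (-g * y)), mul_assoc _ (Real.exp (-(x + g * s) ^ 2 / (2 * s))),
    ← Real.exp_add, ← Real.exp_add]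
  congr 2
  field_simp
  ring

theorem ratio {a ζ : ℝ} (ha : 0 < a) (hζ : 0 < ζ) (hζ1 : ζ ≤ 1) (g K' : ℝ) :
    ∃ ε > 0, ε ≤ 1 / 2 ∧ ∀ᶠ τ : ℝ in atTop, ∀ s x y : ℝ, τ / (2 * a) ≤ s → |x| ≤ ε * τ →
      |y| ≤ K' →
      ENNReal.ofReal (pd s (x + g * s + y)) ≤ ENNReal.ofReal (pd s (x + g * s)) * eE (-g * y) +
        ENNReal.ofReal ζ * (ENNReal.ofReal (pd s (x + g * s)) * eE (-g * y)) ∧
      ENNReal.ofReal (pd s (x + g * s)) * eE (-g * y) ≤ ENNReal.ofReal (pd s (x + g * s + y)) +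
        ENNReal.ofReal ζ * (ENNReal.ofReal (pd s (x + g * s)) * eE (-g * y)) := by
  refine ⟨min (1 / 2) (ζ / (8 * a * (|K'| + 1))), by positivity, min_le_left _ _, ?_⟩
  filter_upwards [eventually_gt_atTop 0, eventually_ge_atTop (4 * a * K' ^ 2 / ζ)]
    with τ h0 h1 s x y hs hx hy
  have hs0 : 0 < s := lt_of_lt_of_le (by positivity) hs
  have hK : |y| ≤ |K'| := hy.trans (le_abs_self _)
  rw [div_le_iff₀ (by positivity)] at hs h1
  have h2 : |x * y / s| ≤ ζ / 4 := by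
    rw [abs_div, abs_mul, abs_of_pos hs0, div_le_iff₀ hs0]
    have h3 : |x| ≤ ζ / (8 * a * (|K'| + 1)) * τ :=
      hx.trans (mul_le_mul_of_nonneg_right (min_le_right _ _) h0.le)
    calc |x| * |y| ≤ ζ / (8 * a * (|K'| + 1)) * (s * (2 * a)) * (|K'| + 1) := by
          refine mul_le_mul (h3.trans ?_) (by linarith) (abs_nonneg _) (by positivity)
          gcongr
      _ = _ := by field_simp; ring
  have h4 : y ^ 2 / (2 * s) ≤ ζ / 4 := by
    rw [div_le_iff₀ (by positivity)]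
    have h5 : y ^ 2 ≤ K' ^ 2 := sq_le_sq.2 hK
    have h6 : τ * ζ ≤ s * (2 * a) * ζ := by gcongr
    have h7 : a * y ^ 2 ≤ a * (ζ / 4 * (2 * s)) := by nlinarith
    exact le_of_mul_le_mul_left h7 ha
  have h8 : |-(x * y / s + y ^ 2 / (2 * s))| ≤ ζ / 2 := by
    rw [abs_neg]
    refine (abs_add_le _ _).trans ?_
    rw [abs_of_nonneg (a := y ^ 2 / (2 * s)) (by positivity)]
    linarith
  have h9 := abs_le.1 ((Real.abs_exp_sub_one_le (h8.trans (by linarith))).trans
    (show 2 * |-(x * y / s + y ^ 2 / (2 * s))| ≤ ζ by linarith))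
  have hp := pd_nonneg s (x + g * s)
  have hu : 0 ≤ pd s (x + g * s) * Real.exp (-g * y) := by positivity
  rw [pd_shift hs0, eE, ← ENNReal.ofReal_mul hp, ← ENNReal.ofReal_mul hζ.le,
    ← ENNReal.ofReal_add hu (by positivity), ← ENNReal.ofReal_add (by positivity) (by positivity)]
  constructor <;> refine ENNReal.ofReal_le_ofReal ?_ <;> nlinarith [h9.1, h9.2]

theorem two {u u' F G e d b : ℝ≥0∞} (h1 : u' ≤ u + d * u) (h2 : u ≤ u' + d * u)
    (h3 : F ≤ G + e) (h4 : G ≤ F + e) (h5 : F ≤ b) :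
    u' * F ≤ u * G + u * (e + d * b) ∧ u * G ≤ u' * F + u * (e + d * b) := by
  constructor
  · calc u' * F ≤ (u + d * u) * F := by gcongr
      _ = u * F + d * u * F := by ring
      _ ≤ u * (G + e) + d * u * b := by gcongr
      _ = _ := by ring
  · calc u * G ≤ u * (F + e) := by gcongr
      _ = u * F + u * e := by ring
      _ ≤ (u' + d * u) * F + u * e := by gcongr
      _ = u' * F + (u * e + d * u * F) := by ring
      _ ≤ u' * F + (u * e + d * u * b) := by gcongr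
      _ = _ := by ring

theorem fin {x z : ℝ≥0∞} {η : ℝ} (hη : 0 ≤ η) (h1 : x ≤ z + ENNReal.ofReal η)
    (h2 : z ≤ x + ENNReal.ofReal η) (hz : z ≠ ∞) : |x.toReal - z.toReal| ≤ η := by
  have hx : x ≠ ∞ := ne_top_of_le_ne_top (by finiteness) h1
  have h3 := ENNReal.toReal_mono (by finiteness) h1
  have h4 := ENNReal.toReal_mono (by finiteness) h2
  rw [ENNReal.toReal_add (by assumption) ENNReal.ofReal_ne_top, ENNReal.toReal_ofReal hη] at h3 h4
  rw [abs_le]
  constructor <;> linarith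

theorem small {Λ : ℝ≥0∞} (hΛ : Λ ≠ ∞) {η : ℝ} (hη : 0 < η) :
    ∃ ζ > 0, ζ ≤ 1 ∧ ENNReal.ofReal ζ * Λ ≤ ENNReal.ofReal η := by
  have h0 := ENNReal.toReal_nonneg (a := Λ)
  refine ⟨min 1 (η / (Λ.toReal + 1)), by positivity, min_le_left _ _, ?_⟩
  rw [← ENNReal.ofReal_toReal hΛ, ← ENNReal.ofReal_mul (by positivity),
    ENNReal.toReal_ofReal h0]
  refine ENNReal.ofReal_le_ofReal ?_
  calc _ ≤ η / (Λ.toReal + 1) * (Λ.toReal + 1) := by
        gcongr
        · exact min_le_right _ _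
        · linarith
    _ = η := by field_simp

end FAC

end

end Pool.Agent.Lib.APPS
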