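import Pool.Agent.Lib.APPS.Blue4

/-!
Block G3W, part a: trapezoids, window weights and elementary probability bounds.
-/

namespace Pool.Agent.Lib.APPS

open MeasureTheory ProbabilityTheory Filter Topology Set Metric
open scoped NNReal ENNReal CompactlySupported RealInnerProductSpace Classical

noncomputable section

def g3w_tz (p q ζ t : ℝ) : ℝ := max 0 (min 1 (min ((t - p) / ζ) ((q - t) / ζ)))

theorem g3w_tz_ne {p q ζ t : ℝ} (hζ : 0 < ζ) (h : g3w_tz p q ζ t ≠ 0) : p < t ∧ t < q := by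
  unfold g3w_tz at h
  have h1 : 0 < min 1 (min ((t - p) / ζ) ((q - t) / ζ)) := by
    by_contra hc
    exact h (max_eq_left (not_lt.1 hc))
  rw [lt_min_iff, lt_min_iff, div_pos_iff_of_pos_right hζ, div_pos_iff_of_pos_right hζ] at h1
  constructor <;> linarith [h1.2.1, h1.2.2]

theorem g3w_tz_one {p q ζ t : ℝ} (hζ : 0 < ζ) (h1 : p + ζ ≤ t) (h2 : t + ζ ≤ q) :
    g3w_tz p q ζ t = 1 := by
  unfold g3w_tz
  rw [min_eq_left, max_eq_right zero_le_one]
  refine le_min ?_ ?_ <;> rw [le_div_iff₀ hζ] <;> linarith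

theorem g3w_tz_chi {p q ζ : ℝ} (hζ : 0 < ζ) (hp : 3 / 4 ≤ p) : Chi (g3w_tz p q ζ) := by
  refine ⟨?_, fun t => ⟨le_max_left _ _, max_le zero_le_one (min_le_left _ _)⟩, q, fun t h => ?_⟩
  · have h1 : LipschitzWith (ζ⁻¹).toNNReal fun t : ℝ => (t - p) / ζ := by
      refine LipschitzWith.of_dist_le_mul fun s t => le_of_eq ?_
      rw [Real.dist_eq, Real.dist_eq, Real.coe_toNNReal _ (by positivity), ← sub_div, abs_div,
        abs_of_pos hζ, sub_sub_sub_cancel_right]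
      ring
    have h2 : LipschitzWith (ζ⁻¹).toNNReal fun t : ℝ => (q - t) / ζ := by
      refine LipschitzWith.of_dist_le_mul fun s t => le_of_eq ?_
      rw [Real.dist_eq, Real.dist_eq, Real.coe_toNNReal _ (by positivity), ← sub_div, abs_div,
        abs_of_pos hζ, sub_sub_sub_cancel_left, abs_sub_comm]
      ring
    exact ⟨_, ((h1.min h2).const_min 1).const_max 0⟩
  · have := g3w_tz_ne hζ h
    constructor <;> linarith [this.1, this.2]

theorem g3w_int_ind {p q c : ℝ} (hp : 0 < p) (hpq : p ≤ q) :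
    IntegrableOn ((Icc p q).indicator fun _ => c) (Ioi (0 : ℝ)) ∧
      ∫ t in Ioi (0 : ℝ), (Icc p q).indicator (fun _ => c) t = (q - p) * c := by
  refine ⟨((integrable_indicator_iff measurableSet_Icc).2
    (integrableOn_const (by simp))).integrableOn, ?_⟩
  have hs : Icc p q ⊆ Ioi (0 : ℝ) := fun t ht => hp.trans_le ht.1
  rw [setIntegral_indicator measurableSet_Icc, inter_eq_self_of_subset_right hs]
  simp [hpq]

theorem g3w_wn_bd {γ : ℝ} (hθ : 0 < th γ) {χ : ℝ → ℝ} (hχ : Chi χ) {p q : ℝ} (hp : 3 / 4 ≤ p)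
    (h : ∀ t, χ t ≠ 0 → p ≤ t ∧ t ≤ q) (t : ℝ) :
    ‖χ t * t ^ (-th γ - 2)‖ ≤ (Icc p q).indicator (fun _ => (3 / 4 : ℝ) ^ (-th γ - 2)) t := by
  by_cases h0 : χ t = 0
  · rw [h0, zero_mul, norm_zero]
    exact indicator_nonneg (fun _ _ => by positivity) _
  · have h1 := h t h0
    have h2 : 0 < t := by linarith [h1.1]
    rw [indicator_of_mem (show t ∈ Icc p q from h1), Real.norm_of_nonneg
      (mul_nonneg (hχ.2.1 t).1 (by positivity))]
    calc χ t * t ^ (-th γ - 2) ≤ 1 * (3 / 4 : ℝ) ^ (-th γ - 2) :=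
          mul_le_mul (hχ.2.1 t).2
            (Real.rpow_le_rpow_of_nonpos (by norm_num) (hp.trans h1.1) (by linarith))
            (by positivity) zero_le_one
      _ = _ := one_mul _

theorem g3w_wn_int {γ : ℝ} (hθ : 0 < th γ) {χ : ℝ → ℝ} (hχ : Chi χ) :
    IntegrableOn (fun t => χ t * t ^ (-th γ - 2)) (Ioi (0 : ℝ)) := by
  obtain ⟨β, hβ⟩ := hχ.2.2
  obtain ⟨K, hK⟩ := hχ.1
  have h := g3w_wn_bd hθ hχ (p := 3 / 4) (q := max β (3 / 4)) le_rfl
    fun t ht => ⟨(hβ t ht).1, (hβ t ht).2.trans (le_max_left _ _)⟩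
  refine Integrable.mono' (g3w_int_ind (by norm_num) (le_max_right _ _)).1 ?_ (ae_of_all _ h)
  exact (hK.continuous.measurable.mul (measurable_id.pow_const _)).aestronglyMeasurable

theorem g3w_wn_le {γ : ℝ} (hθ : 0 < th γ) {χ : ℝ → ℝ} (hχ : Chi χ) {p q : ℝ} (hp : 3 / 4 ≤ p)
    (hpq : p ≤ q) (h : ∀ t, χ t ≠ 0 → p ≤ t ∧ t ≤ q) :
    wn γ χ ≤ (q - p) * (3 / 4 : ℝ) ^ (-th γ - 2) := by
  have h1 := g3w_int_ind (c := (3 / 4 : ℝ) ^ (-th γ - 2)) (by linarith : 0 < p) hpq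
  rw [← h1.2]
  exact integral_mono (g3w_wn_int hθ hχ) h1.1 fun t =>
    (le_abs_self _).trans (g3w_wn_bd hθ hχ hp h t)

theorem g3w_wn_ge {γ : ℝ} (hθ : 0 < th γ) {χ : ℝ → ℝ} (hχ : Chi χ) {p q : ℝ} (hp : 0 < p)
    (hpq : p ≤ q) (h : ∀ t, p ≤ t → t ≤ q → χ t = 1) :
    (q - p) * q ^ (-th γ - 2) ≤ wn γ χ := by
  have h1 := g3w_int_ind (c := q ^ (-th γ - 2)) hp hpq
  rw [← h1.2]
  refine setIntegral_mono_on h1.1 (g3w_wn_int hθ hχ) measurableSet_Ioi fun t ht => ?_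
  have ht' : 0 < t := ht
  by_cases h2 : t ∈ Icc p q
  · rw [indicator_of_mem h2, h t h2.1 h2.2, one_mul]
    exact Real.rpow_le_rpow_of_nonpos ht' h2.2 (by linarith)
  · rw [indicator_of_notMem h2]
    exact mul_nonneg (hχ.2.1 t).1 (by positivity)

theorem g3w_wn_nn {γ : ℝ} {χ : ℝ → ℝ} (hχ : Chi χ) : 0 ≤ wn γ χ :=
  setIntegral_nonneg measurableSet_Ioi fun t ht =>
    mul_nonneg (hχ.2.1 t).1 (Real.rpow_nonneg (le_of_lt ht) _)

theorem g3w_abs {Ω : Type} [MeasurableSpace Ω] (P : Measure Ω) [IsFiniteMeasure P] (f : Ω → ℝ)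
    (E : Set Ω) (c : ℝ) (hc : 0 ≤ c) (h1 : ∀ ω, |f ω| ≤ c) (h2 : ∀ ω, f ω ≠ 0 → ω ∈ E) :
    |∫ ω, f ω ∂P| ≤ c * P.real E := by
  refine (norm_integral_le_lintegral_norm f).trans ?_
  have h3 : ∫⁻ ω, ENNReal.ofReal ‖f ω‖ ∂P ≤ ENNReal.ofReal c * P E := by
    refine le_trans (lintegral_mono fun ω => ?_) (lintegral_indicator_const_le E _)
    by_cases h : ω ∈ E
    · rw [indicator_of_mem h]
      exact ENNReal.ofReal_le_ofReal (h1 ω)
    · have : f ω = 0 := by_contra fun h' => h (h2 ω h')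
      simp [this]
  refine (ENNReal.toReal_mono (ENNReal.mul_ne_top ENNReal.ofReal_ne_top (measure_ne_top _ _))
    h3).trans (le_of_eq ?_)
  rw [ENNReal.toReal_mul, ENNReal.toReal_ofReal hc]
  rfl

theorem g3w_low {Ω : Type} [MeasurableSpace Ω] (P : Measure Ω) [IsFiniteMeasure P] (f : Ω → ℝ)
    (E : Set Ω) (c : ℝ) (hc : 0 ≤ c) (hf : Integrable f P) (h1 : ∀ ω, 0 ≤ f ω)
    (h2 : ∀ ω ∈ E, c ≤ f ω) : c * P.real E ≤ ∫ ω, f ω ∂P :=
  (mul_le_mul_of_nonneg_left (measureReal_mono (fun ω hω => h2 ω hω)) hc).trans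
    (mul_meas_ge_le_integral_of_nonneg (ae_of_all _ h1) hf c)

theorem g3w_conv {Ω : Type} [MeasurableSpace Ω] (P : Measure Ω) [IsFiniteMeasure P] (E : Set Ω)
    {a b : ℝ} (ha : 0 ≤ a) (hb : 0 ≤ b) :
    ENNReal.ofReal a * P E ≤ ENNReal.ofReal b ↔ a * P.real E ≤ b := by
  rw [← ENNReal.ofReal_le_ofReal_iff hb, ENNReal.ofReal_mul ha, ofReal_measureReal]

theorem g3w_conv' {Ω : Type} [MeasurableSpace Ω] (P : Measure Ω) [IsFiniteMeasure P] (E : Set Ω)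
    {a b : ℝ} (ha : 0 ≤ a) (h : ENNReal.ofReal b ≤ ENNReal.ofReal a * P E) :
    b ≤ a * P.real E := by
  rwa [← ofReal_measureReal, ← ENNReal.ofReal_mul ha,
    ENNReal.ofReal_le_ofReal_iff (mul_nonneg ha measureReal_nonneg)] at h

theorem g3w_indR (p : Prop) : 0 ≤ indR p ∧ indR p ≤ 1 := by
  unfold indR
  split_ifs <;> norm_num

theorem g3w_indR_pos {p : Prop} (h : p) : indR p = 1 := if_pos h
theorem g3w_indR_neg {p : Prop} (h : ¬p) : indR p = 0 := if_neg h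

theorem g3w_nN0 (x : Dy → ℝ) : 0 ≤ nN x := Nat.cast_nonneg _

theorem g3w_fin (hT : St_T1) (x : Dy → ℝ) (h : nB x ≠ ∞) : nB x = ENNReal.ofReal (nN x) := by
  obtain ⟨-, -, -, -, -, -, -, -, -, -, -, h12, h13, -⟩ := hT
  rw [(h12 x _ (h13 x h)).2.2.1, nN, ENNReal.ofReal_natCast]

theorem g3w_pos (hT : St_T1) (x : Dy → ℝ) (h : 0 < nN x) : nB x = ENNReal.ofReal (nN x) := by
  refine g3w_fin hT x fun h' => ?_
  obtain ⟨-, -, -, -, -, -, -, -, -, -, -, -, -, h14, -⟩ := hT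
  rw [nN, h14 x h'] at h
  simp at h

theorem g3w_mono (hT : St_T1) (x : Dy → ℝ) {s s' : ℝ} (h : s ≤ s') :
    nB (sh x s) ≤ nB (sh x s') := by
  obtain ⟨-, -, -, -, -, -, -, -, -, -, -, -, -, -, -, h16, -⟩ := hT
  exact h16 _ _ fun S => by unfold sh; linarith

theorem g3w_sh0 (x : Dy → ℝ) : sh x 0 = x := funext fun _ => add_zero _

theorem g3w_mX (h3 : St_T3) (M : Model) (γ : ℝ) : Measurable (M.X γ 0) :=
  (h3.2.2.2.2.2.2.2.2.2.2.1 M γ 0).1

theorem g3w_mB (h3 : St_T3) (M : Model) (γ s : ℝ) : Measurable fun ω => nB (sh (M.X γ 0 ω) s) :=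
  h3.1.comp (h3.2.2.2.2.2.1.comp ((g3w_mX h3 M γ).prodMk measurable_const))

theorem g3w_mB0 (h3 : St_T3) (M : Model) (γ : ℝ) : Measurable fun ω => nB (M.X γ 0 ω) :=
  h3.1.comp (g3w_mX h3 M γ)

theorem g3w_mI (h3 : St_T3) (p : Om → Prop) (hp : MeasurableSet {a | p a}) :
    (Measurable fun a => ind (p a)) ∧ Measurable fun a => indR (p a) :=
  h3.2.2.2.2.2.2.2.2.2.2.2.1 Om p hp

theorem g3w_mP (h3 : St_T3) (M : Model) (γ : ℝ) (Φ : Finset Dy → ℝ) :
    Measurable fun ω => Φ (tr (M.X γ 0 ω)) :=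
  h3.2.2.2.1 Om ℝ (M.X γ 0) (fun T _ => Φ T) (g3w_mX h3 M γ) fun _ => measurable_const

theorem g3w_lind {p : Om → Prop} (hp : MeasurableSet {a | p a}) :
    ∫⁻ ω, ind (p ω) ∂gm = gm {a | p a} := by
  rw [← lintegral_indicator_one hp]
  refine lintegral_congr fun ω => ?_
  unfold ind
  by_cases h : p ω
  · rw [if_pos h, indicator_of_mem (show ω ∈ {a | p a} from h)]
    rfl
  · rw [if_neg h, indicator_of_notMem (show ω ∉ {a | p a} from h)]

/-- probability of a window for the number of internal nodes -/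
theorem g3w_ramp (h1 : St_G1) (hT : St_T1) (h3 : St_T3) (hU : St_UL) {γ : ℝ}
    (hγ : γ ∈ Ioo (0 : ℝ) 2) (hθ : 0 < th γ) (M : Model) (hM : box [] ⊆ M.O) :
    ∃ K : ℝ, 0 ≤ K ∧ ∀ α β n : ℝ, 3 / 4 ≤ α → α ≤ β → 2 ≤ n →
      n ^ (th γ + 1) * gm.real {ω | α * n ≤ nN (M.X γ 0 ω) ∧ nN (M.X γ 0 ω) ≤ β * n} ≤
        K * (β - α + 1 / n) := by
  have : IsProbabilityMeasure gm := h1.1
  obtain ⟨K, hK⟩ := (hU γ hγ M hM).1
  refine ⟨max K 0 * (3 / 4 : ℝ) ^ (-(th γ + 2)), by positivity, fun α β n hα hαβ hn => ?_⟩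
  have hn0 : 0 < n := by linarith
  have hαn : 3 / 4 * n ≤ α * n := mul_le_mul_of_nonneg_right hα hn0.le
  have hβn : α * n ≤ β * n := mul_le_mul_of_nonneg_right hαβ hn0.le
  set b : ℝ := max K 0 * (3 / 4 * n) ^ (-(th γ + 2)) with hb
  have hb0 : 0 ≤ b := by positivity
  have hj : ∀ j ∈ Finset.Icc ⌈α * n⌉₊ ⌊β * n⌋₊, gm.real {ω | nB (M.X γ 0 ω) = j} ≤ b := by
    intro j hj
    have a1 : 3 / 4 * n ≤ j := hαn.trans (Nat.ceil_le.1 (Finset.mem_Icc.1 hj).1)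
    have a2 : 1 ≤ j := by
      have : (1 : ℝ) ≤ j := by linarith
      exact_mod_cast this
    have a3 : gm {ω | nB (M.X γ 0 ω) = j} ≤ ENNReal.ofReal b := by
      have mj : MeasurableSet {ω | nB (M.X γ 0 ω) = j} :=
        g3w_mB0 h3 M γ (measurableSet_singleton (j : ℝ≥0∞))
      rw [← g3w_lind mj]
      refine le_trans (lintegral_mono fun ω => ?_) ((hK j a2 []).trans ?_)
      · refine le_mul_of_one_le_right' ?_
        exact ENNReal.one_le_ofReal.2 (Real.one_le_exp (abs_nonneg _))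
      · refine ENNReal.ofReal_le_ofReal (mul_le_mul (le_max_left _ _)
          (Real.rpow_le_rpow_of_nonpos (by positivity) a1 (by linarith)) (by positivity)
          (le_max_right _ _))
    exact ENNReal.toReal_le_of_le_ofReal hb0 a3
  have hsub : {ω | α * n ≤ nN (M.X γ 0 ω) ∧ nN (M.X γ 0 ω) ≤ β * n} ⊆
      ⋃ j ∈ Finset.Icc ⌈α * n⌉₊ ⌊β * n⌋₊, {ω | nB (M.X γ 0 ω) = j} := by
    intro ω hω
    simp only [mem_iUnion]
    refine ⟨(tr (M.X γ 0 ω)).card, Finset.mem_Icc.2 ⟨Nat.ceil_le.2 hω.1, Nat.le_floor hω.2⟩, ?_⟩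
    have := g3w_pos hT (M.X γ 0 ω) (by linarith [hω.1])
    rw [nN, ENNReal.ofReal_natCast] at this
    exact this
  have hcard : ((Finset.Icc ⌈α * n⌉₊ ⌊β * n⌋₊).card : ℝ) ≤ (β - α) * n + 1 := by
    rw [Nat.card_Icc]
    have a1 := Nat.le_ceil (α * n)
    have a2 := Nat.floor_le (show 0 ≤ β * n by linarith)
    by_cases h : ⌈α * n⌉₊ ≤ ⌊β * n⌋₊ + 1
    · rw [Nat.cast_sub h]
      push_cast
      linarith
    · rw [Nat.sub_eq_zero_of_le (not_le.1 h).le]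
      push_cast
      linarith
  have hP : gm.real {ω | α * n ≤ nN (M.X γ 0 ω) ∧ nN (M.X γ 0 ω) ≤ β * n} ≤
      ((β - α) * n + 1) * b := by
    refine (measureReal_mono hsub (measure_ne_top _ _)).trans
      ((measureReal_biUnion_finset_le _ _).trans ?_)
    refine (Finset.sum_le_sum hj).trans ?_
    rw [Finset.sum_const, nsmul_eq_mul]
    exact mul_le_mul_of_nonneg_right hcard hb0
  refine (mul_le_mul_of_nonneg_left hP (by positivity)).trans (le_of_eq ?_)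
  have e : n ^ (th γ + 1) * n ^ (-(th γ + 2)) = 1 / n := by
    rw [← Real.rpow_add hn0, show th γ + 1 + -(th γ + 2) = -1 by ring, Real.rpow_neg_one, one_div]
  rw [hb, Real.mul_rpow (by norm_num) hn0.le]
  calc _ = max K 0 * (3 / 4 : ℝ) ^ (-(th γ + 2)) * (((β - α) * n + 1) *
        (n ^ (th γ + 1) * n ^ (-(th γ + 2)))) := by ring
    _ = _ := by
        rw [e]
        congr 1
        field_simp

theorem g3w_tail (h1 : St_G1) (hMOD : St_MOD) (hR : St_RUS) {γ : ℝ} (hγ : γ ∈ Ioo (0 : ℝ) 2)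
    (M : Model) (hM : box [] ⊆ M.O) :
    ∃ K : ℝ, 0 ≤ K ∧ ∀ u ρ n : ℝ, 0 < ρ → 0 < n → 1 ≤ ρ * n →
      n ^ (th γ + 1) * gm.real {ω | ENNReal.ofReal (ρ * n) ≤ nB (sh (M.X γ 0 ω) u)} ≤
        K * (Real.exp (γ * u) / ρ) ^ (th γ + 1) := by
  have : IsProbabilityMeasure gm := h1.1
  have hG : Gram M.eS (covE M.C0) := by
    simpa using (hMOD M).2.2.2.2.2.2.1 [] hM
  obtain ⟨K, hK⟩ := (hR γ hγ).2 M.C0
  refine ⟨max K 0, le_max_right _ _, fun u ρ n hρ hn h => ?_⟩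
  have a1 := hK _ hG u (ρ * n) h
  have e : ∀ ω, XV γ M.eS u ω = sh (M.X γ 0 ω) u := by
    intro ω
    funext S
    simp only [XV, drift, sh, Model.X]
    ring
  simp_rw [e] at a1
  have a2 : gm.real {ω | ENNReal.ofReal (ρ * n) ≤ nB (sh (M.X γ 0 ω) u)} ≤
      max K 0 * (Real.exp (γ * u) / (ρ * n)) ^ (th γ + 1) :=
    ENNReal.toReal_le_of_le_ofReal (by positivity) (a1.trans (ENNReal.ofReal_le_ofReal
      (mul_le_mul_of_nonneg_right (le_max_left _ _) (by positivity))))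
  refine (mul_le_mul_of_nonneg_left a2 (by positivity)).trans (le_of_eq ?_)
  rw [mul_left_comm, ← Real.mul_rpow hn.le (by positivity)]
  congr 2
  field_simp

/-- small shifts rarely destroy a large tree -/
theorem g3w_drop (h1 : St_G1) (h4 : St_G4) (hMOD : St_MOD) (hT : St_T1) (h3 : St_T3)
    (hR : St_RUS) (hMAC : St_MAC) {γ : ℝ} (hγ : γ ∈ Ioo (0 : ℝ) 2) (M : Model)
    (hM : box [] ⊆ M.O) (η : ℝ) (hη : 0 < η) : ∃ s0 : ℝ, 0 < s0 ∧ s0 ≤ 1 / 20 ∧
      ∀ᶠ n : ℝ in atTop, n ^ (th γ + 1) * gm.real {ω | 3 / 4 * n ≤ nN (M.X γ 0 ω) ∧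
        nB (sh (M.X γ 0 ω) (-s0)) < ENNReal.ofReal (n / 2)} ≤ η := by
  have : IsProbabilityMeasure gm := h1.1
  obtain ⟨K, hK0, hK⟩ := g3w_tail h1 hMOD hR hγ M hM
  obtain ⟨-, -, -, -, -, -, -, -, -, -, -, -, -, -, -, hφ, hψ, -⟩ := hMOD M
  obtain ⟨φ, hφ⟩ := hφ hM
  have hψ := hψ φ hφ
  have hne : gr φ ≠ 0 := fun h => by
    have := hψ []
    rw [h, inner_zero_left] at this
    exact zero_ne_one this
  obtain ⟨C, hC⟩ := h4.2.1 _ hne
  have hsh : ∀ (ω : Om) (s : ℝ), M.X γ 0 (ω + s • dv (gr φ)) = sh (M.X γ 0 ω) s := by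
    intro ω s
    funext S
    simp only [drift, sh, Model.X, LinearMap.add_apply, LinearMap.smul_apply, dv_apply, hψ,
      smul_eq_mul]
    ring
  set η1 : ℝ := min (η / 2) (1 / 10) with hη1
  have hη10 : 0 < η1 := lt_min (by positivity) (by norm_num)
  obtain ⟨K1, hK1⟩ := (hMAC γ hγ M hM).1 (3 / 4) η1 (by norm_num) hη10
  set F : Finset Dy := (Finset.range (K1 + 1)).biUnion lev with hF
  set A : ℝ := F.card * (max C 0 * (K * (Real.exp (γ * 1) / (3 / 4)) ^ (th γ + 1))) + 1 with hA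
  have hA0 : 0 < A := by positivity
  set s0 : ℝ := min (1 / 20) (η / 2 / A) with hs0
  have hs00 : 0 < s0 := lt_min (by norm_num) (by positivity)
  have hs01 : s0 ≤ 1 / 20 := min_le_left _ _
  refine ⟨s0, hs00, hs01, ?_⟩
  filter_upwards [hK1, eventually_ge_atTop 2] with n hn hn2
  have hn0 : 0 < n := by linarith
  rw [g3w_conv gm _ (by positivity) hη10.le] at hn
  have hsub : {ω | 3 / 4 * n ≤ nN (M.X γ 0 ω) ∧
      nB (sh (M.X γ 0 ω) (-s0)) < ENNReal.ofReal (n / 2)} ⊆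
      {ω | ENNReal.ofReal (3 / 4 * n) ≤ nB (sh (M.X γ 0 ω) 1) ∧ ¬Gro γ K1 n η1 (M.X γ 0 ω)} ∪
      ⋃ B ∈ F, {ω | ENNReal.ofReal (3 / 4 * n) ≤ nB (M.X γ 0 ω) ∧
        0 < M.X γ 0 ω B ∧ M.X γ 0 ω B ≤ s0} := by
    intro ω hω
    have a1 : ENNReal.ofReal (3 / 4 * n) ≤ nB (M.X γ 0 ω) := by
      rw [g3w_pos hT _ (by linarith [hω.1])]
      exact ENNReal.ofReal_le_ofReal hω.1
    by_cases hg : Gro γ K1 n η1 (M.X γ 0 ω)
    · right
      rcases hg.2 (-s0) ⟨by linarith, by linarith⟩ 0 ⟨by norm_num, by norm_num⟩ (by linarith) with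
        ⟨-, B, hB, b1, b2⟩ | hc
      · simp only [mem_iUnion]
        refine ⟨B, Finset.mem_biUnion.2 ⟨B.length, Finset.mem_range.2 (by omega),
          (hT.1 _ _).2 rfl⟩, a1, by linarith, by linarith⟩
      · exfalso
        rw [g3w_sh0] at hc
        have a2 := hω.2
        rw [g3w_fin hT _ a2.ne_top, ENNReal.ofReal_lt_ofReal_iff (by positivity)] at a2
        have a3 : Real.exp (γ * (0 - -s0)) ≤ 10 / 9 := by
          have b1 : γ * (0 - -s0) ≤ 1 / 10 := by nlinarith [hγ.1, hγ.2]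
          refine (Real.exp_le_exp.2 b1).trans ?_
          refine (Real.exp_bound_div_one_sub_of_interval (by norm_num) (by norm_num)).trans ?_
          norm_num
        have a4 := mul_le_mul a3 a2.le (g3w_nN0 _) (by norm_num)
        have a5 : η1 * n ≤ 1 / 10 * n := mul_le_mul_of_nonneg_right (min_le_right _ _) hn0.le
        linarith [hω.1, (abs_le.1 hc).2]
    · left
      exact ⟨a1.trans ((le_of_eq (by rw [g3w_sh0])).trans (g3w_mono hT _ zero_le_one)), hg⟩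
  have hB : ∀ B ∈ F, n ^ (th γ + 1) * gm.real {ω | ENNReal.ofReal (3 / 4 * n) ≤ nB (M.X γ 0 ω) ∧
      0 < M.X γ 0 ω B ∧ M.X γ 0 ω B ≤ s0} ≤
      s0 * (max C 0 * (K * (Real.exp (γ * 1) / (3 / 4)) ^ (th γ + 1))) := by
    intro B _
    have mB : Measurable fun ω => M.X γ 0 ω B := (measurable_pi_apply B).comp (g3w_mX h3 M γ)
    have m1 : MeasurableSet {ω | ENNReal.ofReal (3 / 4 * n) ≤ nB (M.X γ 0 ω) ∧
        0 < M.X γ 0 ω B ∧ M.X γ 0 ω B ≤ s0} :=
      (measurableSet_le measurable_const (g3w_mB0 h3 M γ)).inter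
        ((measurableSet_lt measurable_const mB).inter (measurableSet_le mB measurable_const))
    have m2 : MeasurableSet {ω | ENNReal.ofReal (3 / 4 * n) ≤ nB (sh (M.X γ 0 ω) 1)} :=
      measurableSet_le measurable_const (g3w_mB h3 M γ 1)
    have a1 := hC s0 _ _ hs00 (g3w_mI h3 _ m1).1 (g3w_mI h3 _ m2).1 (by
      intro ω s s' b1 b2
      unfold ind at b1 b2
      rw [hsh] at b1 b2
      have c1 := by_contra fun h => b1 (if_neg h)
      have c2 := by_contra fun h => b2 (if_neg h)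
      unfold sh at c1 c2
      rw [abs_le]
      constructor <;> linarith [c1.2.1, c1.2.2, c2.2.1, c2.2.2]) (by
      intro ω s hs
      unfold ind
      rw [hsh]
      split_ifs with c1 c2
      · exact le_rfl
      · exact absurd (c1.1.trans (g3w_mono hT _ (abs_le.1 hs).2)) c2
      · exact zero_le
      · exact le_rfl)
    rw [g3w_lind m1, g3w_lind m2] at a1
    have a2 : gm.real {ω | ENNReal.ofReal (3 / 4 * n) ≤ nB (M.X γ 0 ω) ∧
        0 < M.X γ 0 ω B ∧ M.X γ 0 ω B ≤ s0} ≤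
        max C 0 * s0 * gm.real {ω | ENNReal.ofReal (3 / 4 * n) ≤ nB (sh (M.X γ 0 ω) 1)} := by
      refine g3w_conv' gm _ (by positivity) ?_
      rw [ofReal_measureReal]
      refine a1.trans ?_
      gcongr
      exact le_max_left _ _
    have a3 := hK 1 (3 / 4) n (by norm_num) hn0 (by linarith)
    calc _ ≤ n ^ (th γ + 1) * (max C 0 * s0 *
          gm.real {ω | ENNReal.ofReal (3 / 4 * n) ≤ nB (sh (M.X γ 0 ω) 1)}) :=
          mul_le_mul_of_nonneg_left a2 (by positivity)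
      _ = s0 * (max C 0 * (n ^ (th γ + 1) *
          gm.real {ω | ENNReal.ofReal (3 / 4 * n) ≤ nB (sh (M.X γ 0 ω) 1)})) := by ring
      _ ≤ _ := by gcongr
  have hfin : s0 * A ≤ η / 2 := by
    have : s0 ≤ η / 2 / A := min_le_right _ _
    rwa [le_div_iff₀ hA0] at this
  calc _ ≤ n ^ (th γ + 1) * (gm.real {ω | ENNReal.ofReal (3 / 4 * n) ≤ nB (sh (M.X γ 0 ω) 1) ∧
          ¬Gro γ K1 n η1 (M.X γ 0 ω)} + ∑ B ∈ F, gm.real {ω | ENNReal.ofReal (3 / 4 * n) ≤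
          nB (M.X γ 0 ω) ∧ 0 < M.X γ 0 ω B ∧ M.X γ 0 ω B ≤ s0}) := by
        refine mul_le_mul_of_nonneg_left ?_ (by positivity)
        refine (measureReal_mono hsub (measure_ne_top _ _)).trans
          ((measureReal_union_le _ _).trans ?_)
        exact add_le_add le_rfl (measureReal_biUnion_finset_le _ _)
    _ ≤ η1 + ∑ _B ∈ F, s0 * (max C 0 * (K * (Real.exp (γ * 1) / (3 / 4)) ^ (th γ + 1))) := by
        rw [mul_add, Finset.mul_sum]
        exact add_le_add hn (Finset.sum_le_sum hB)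
    _ ≤ η := by
        rw [Finset.sum_const, nsmul_eq_mul]
        have : η1 ≤ η / 2 := min_le_left _ _
        rw [hA] at hfin
        nlinarith

end

end Pool.Agent.Lib.APPS
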