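import Pool.Agent.Lib.APPS.Blue1

/-!
Block GEO2: covering bounds for dyadic trees and additivity of the uniform measures.
-/

namespace Pool.Agent.Lib.APPS

open MeasureTheory ProbabilityTheory Filter Topology Set Metric
open scoped NNReal ENNReal Classical

noncomputable section

namespace GEO2

theorem ind_pos {p : Prop} (h : p) : ind p = 1 := by unfold ind; exact if_pos h

theorem ind_neg {p : Prop} (h : ¬p) : ind p = 0 := by unfold ind; exact if_neg h

theorem ind_mono {p q : Prop} (h : p → q) : ind p ≤ ind q := by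
  by_cases hp : p
  · rw [ind_pos hp, ind_pos (h hp)]
  · rw [ind_neg hp]; exact zero_le

theorem ind_le_sum {ι : Type} (F : Finset ι) (p : Prop) (q : ι → Prop)
    (h : p → ∃ i ∈ F, q i) : ind p ≤ ∑ i ∈ F, ind (q i) := by
  by_cases hp : p
  · obtain ⟨i, hi, hq⟩ := h hp
    calc ind p ≤ ind (q i) := ind_mono fun _ => hq
      _ ≤ ∑ i ∈ F, ind (q i) :=
        Finset.single_le_sum (f := fun i => ind (q i)) (fun _ _ => zero_le) hi
  · rw [ind_neg hp]; exact zero_le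

theorem tsum_ind_mem (F : Finset Dy) : ∑' A : Dy, ind (A ∈ F) = F.card := by
  rw [tsum_eq_sum (s := F) fun A hA => ind_neg hA]
  rw [Finset.sum_congr rfl fun A hA => ind_pos hA]
  simp

theorem tsum_fin {ι : Type} (F : Finset ι) (f : ι → Dy → ℝ≥0∞) :
    ∑' A : Dy, ∑ i ∈ F, f i A = ∑ i ∈ F, ∑' A : Dy, f i A :=
  Summable.tsum_finsetSum fun _ _ => ENNReal.summable

theorem under (hT : St_T1) (x : Dy → ℝ) (V : Dy) :
    ∑' A : Dy, ind (V <:+ A ∧ IntN x A) ≤ nB (sub x V) := by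
  obtain ⟨-, -, -, -, -, -, -, -, -, -, -, -, -, -, -, -, happ, -⟩ := hT
  have hinj : Function.Injective fun B : Dy => B ++ V := fun B B' h => List.append_cancel_right h
  have hs : Function.support (fun A : Dy => ind (V <:+ A ∧ IntN x A)) ⊆
      range fun B : Dy => B ++ V := by
    intro A hA
    by_contra hn
    apply hA
    apply ind_neg
    rintro ⟨⟨B, hB⟩, -⟩
    exact hn ⟨B, hB⟩
  rw [← hinj.tsum_eq hs]
  unfold nB
  exact ENNReal.tsum_le_tsum fun B => ind_mono fun h => ((happ x V B).1 h.2).2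

theorem cover (hT : St_T1) (x : Dy → ℝ) (F : Finset Dy) (p : Dy → Prop)
    (h : ∀ A, p A → IntN x A ∧ ∃ V ∈ F, V <:+ A) :
    ∑' A : Dy, ind (p A) ≤ ∑ V ∈ F, nB (sub x V) := by
  calc ∑' A : Dy, ind (p A) ≤ ∑' A : Dy, ∑ V ∈ F, ind (V <:+ A ∧ IntN x A) := by
        refine ENNReal.tsum_le_tsum fun A => ind_le_sum F _ _ fun hp => ?_
        obtain ⟨h1, V, hV, h2⟩ := h A hp
        exact ⟨V, hV, h2, h1⟩
    _ = ∑ V ∈ F, ∑' A : Dy, ind (V <:+ A ∧ IntN x A) := tsum_fin F _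
    _ ≤ _ := Finset.sum_le_sum fun V _ => under hT x V

theorem ctr_close (hG : St_GEO1) {V A : Dy} (h : V <:+ A) : ‖ctr A - ctr V‖ ≤ 3 / 4 * side V := by
  obtain ⟨-, -, -, hbox, hsub, -⟩ := hG
  exact (hbox V).2.2.2.1 _ ((hsub A V).2 h (hbox A).2.2.1)

theorem item2 (hT : St_T1) (hG : St_GEO1) (x : Dy → ℝ) (R : Dy) (l : ℕ) :
    ∑' A : Dy, ind (IntN x A ∧ l ≤ A.length ∧
      8 * (1 / 2 : ℝ) ^ l < ‖ctr A - ctr R‖ ∧ ‖ctr A - ctr R‖ ≤ 16 * (1 / 2 : ℝ) ^ l) ≤
      annN x R l := by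
  refine cover hT x (ann R l) _ ?_
  rintro A ⟨h1, h2, h3, h4⟩
  have hG' := hG
  obtain ⟨-, -, -, hbox, -, -, -, -, -, -, -, -, -, hanc, -⟩ := hG'
  have hl : (anc l A).length = l := by rw [(hanc l A).2]; exact min_eq_left h2
  refine ⟨h1, anc l A, ?_, (hanc l A).1⟩
  unfold ann
  rw [Finset.mem_filter]
  refine ⟨(hT.1 l _).2 hl, fun y hy => ?_⟩
  have hs : side (anc l A) = (1 / 2 : ℝ) ^ l := by unfold side; rw [hl]
  have a1 := (hbox (anc l A)).2.2.2.1 y hy
  have a2 := ctr_close hG (hanc l A).1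
  rw [hs] at a1 a2
  have hp : (0 : ℝ) < (1 / 2 : ℝ) ^ l := by positivity
  have t1 : ‖y - ctr A‖ ≤ ‖y - ctr (anc l A)‖ + ‖ctr A - ctr (anc l A)‖ := by
    calc ‖y - ctr A‖ = ‖(y - ctr (anc l A)) - (ctr A - ctr (anc l A))‖ := by congr 1; ring
      _ ≤ _ := norm_sub_le _ _
  have t2 : ‖y - ctr R‖ ≤ ‖y - ctr A‖ + ‖ctr A - ctr R‖ := by
    calc ‖y - ctr R‖ = ‖(y - ctr A) + (ctr A - ctr R)‖ := by congr 1; ring
      _ ≤ _ := norm_add_le _ _
  have t3 : ‖ctr A - ctr R‖ ≤ ‖y - ctr R‖ + ‖y - ctr A‖ := by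
    calc ‖ctr A - ctr R‖ = ‖(y - ctr R) - (y - ctr A)‖ := by congr 1; ring
      _ ≤ _ := norm_sub_le _ _
  constructor <;> linarith

theorem item3 (hT : St_T1) (hG : St_GEO1) (x : Dy → ℝ) (R : Dy) :
    ∑' A : Dy, ind (IntN x A ∧ R.length ≤ A.length ∧ ‖ctr A - ctr R‖ ≤ 8 * side R) ≤
      near x R := by
  refine cover hT x _ _ ?_
  rintro A ⟨h1, h2, h3⟩
  have hG' := hG
  obtain ⟨hside, -, -, -, -, -, -, -, -, -, -, -, -, hanc, -⟩ := hG'
  have hl : (anc R.length A).length = R.length := by rw [(hanc _ A).2]; exact min_eq_left h2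
  refine ⟨h1, anc R.length A, ?_, (hanc _ A).1⟩
  rw [Finset.mem_filter]
  refine ⟨(hT.1 _ _).2 hl, ?_⟩
  have hs : side (anc R.length A) = side R := by unfold side; rw [hl]
  have a2 := ctr_close hG (hanc R.length A).1
  rw [hs] at a2
  have hp := (hside R).1
  have t1 : ‖ctr (anc R.length A) - ctr R‖ ≤
      ‖ctr A - ctr R‖ + ‖ctr A - ctr (anc R.length A)‖ := by
    calc ‖ctr (anc R.length A) - ctr R‖
        = ‖(ctr A - ctr R) - (ctr A - ctr (anc R.length A))‖ := by congr 1; ring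
      _ ≤ _ := norm_sub_le _ _
  linarith

theorem item4 (hT : St_T1) (hG : St_GEO1) (R : Dy) :
    ∑' A : Dy, ind (A.length ≤ R.length ∧ ‖ctr A - ctr R‖ ≤ 8 * side A) ≤
      289 * (R.length + 1) := by
  obtain ⟨-, -, -, -, -, -, -, -, -, -, hcnt, -⟩ := hG
  calc ∑' A : Dy, ind (A.length ≤ R.length ∧ ‖ctr A - ctr R‖ ≤ 8 * side A)
      ≤ ∑' A : Dy, ∑ l ∈ Finset.range (R.length + 1),
          ind (A ∈ (lev l).filter fun V => ‖ctr V - ctr R‖ ≤ 8 * (1 / 2 : ℝ) ^ l) := by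
        refine ENNReal.tsum_le_tsum fun A => ind_le_sum _ _ _ fun hp => ?_
        refine ⟨A.length, Finset.mem_range.2 (Nat.lt_succ_of_le hp.1), ?_⟩
        rw [Finset.mem_filter]
        exact ⟨(hT.1 _ _).2 rfl, hp.2⟩
    _ = ∑ l ∈ Finset.range (R.length + 1), ∑' A : Dy,
          ind (A ∈ (lev l).filter fun V => ‖ctr V - ctr R‖ ≤ 8 * (1 / 2 : ℝ) ^ l) :=
        tsum_fin _ _
    _ ≤ ∑ l ∈ Finset.range (R.length + 1), (289 : ℝ≥0∞) := by
        refine Finset.sum_le_sum fun l _ => ?_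
        rw [tsum_ind_mem]
        have h := hcnt l (ctr R) 8 (by norm_num)
        have h' : ((lev l).filter fun V => ‖ctr V - ctr R‖ ≤ 8 * (1 / 2 : ℝ) ^ l).card ≤ 289 := by
          have : (((lev l).filter fun V => ‖ctr V - ctr R‖ ≤ 8 * (1 / 2 : ℝ) ^ l).card : ℝ) ≤
              (289 : ℕ) := by
            refine h.trans ?_
            norm_num
          exact_mod_cast this
        exact_mod_cast h'
    _ = 289 * (R.length + 1) := by
        rw [Finset.sum_const, Finset.card_range, nsmul_eq_mul, mul_comm]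
        push_cast
        rfl

theorem item1 (hT : St_T1) (hG : St_GEO1) (x : Dy → ℝ) (R : Dy) :
    nB x ≤ 289 * (R.length + 1) + far x R + near x R := by
  have key : ∀ A : Dy, ind (IntN x A) ≤
      ind (A.length ≤ R.length ∧ ‖ctr A - ctr R‖ ≤ 8 * side A) +
      ∑ l ∈ Finset.range (R.length + 1), ind (IntN x A ∧ l ≤ A.length ∧
        8 * (1 / 2 : ℝ) ^ l < ‖ctr A - ctr R‖ ∧ ‖ctr A - ctr R‖ ≤ 16 * (1 / 2 : ℝ) ^ l) +
      ind (IntN x A ∧ R.length ≤ A.length ∧ ‖ctr A - ctr R‖ ≤ 8 * side R) := by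
    intro A
    by_cases hA : IntN x A
    swap
    · rw [ind_neg hA]; exact zero_le
    by_cases h1 : A.length ≤ R.length ∧ ‖ctr A - ctr R‖ ≤ 8 * side A
    · rw [ind_pos hA, ind_pos h1, add_assoc]; exact le_self_add
    by_cases h3 : R.length ≤ A.length ∧ ‖ctr A - ctr R‖ ≤ 8 * side R
    · rw [ind_pos hA, ind_pos (p := IntN x A ∧ _) ⟨hA, h3⟩]; exact le_add_self
    refine le_trans ?_ (le_self_add)
    refine le_trans ?_ (le_add_self)
    refine ind_le_sum _ _ _ fun _ => ?_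
    have hm : 8 * (1 / 2 : ℝ) ^ (min A.length R.length) < ‖ctr A - ctr R‖ := by
      rcases le_total A.length R.length with h | h
      · rw [min_eq_left h]
        by_contra hc
        exact h1 ⟨h, not_lt.1 hc⟩
      · rw [min_eq_right h]
        by_contra hc
        exact h3 ⟨h, not_lt.1 hc⟩
    have hex : ∃ l : ℕ, 8 * (1 / 2 : ℝ) ^ l < ‖ctr A - ctr R‖ := ⟨_, hm⟩
    have hle : Nat.find hex ≤ min A.length R.length := Nat.find_min' hex hm
    refine ⟨Nat.find hex, Finset.mem_range.2 (Nat.lt_succ_of_le (hle.trans (min_le_right _ _))),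
      hA, hle.trans (min_le_left _ _), Nat.find_spec hex, ?_⟩
    have h0 : Nat.find hex ≠ 0 := by
      intro h0
      have hs := Nat.find_spec hex
      rw [h0] at hs
      have a1 := ctr_close hG (List.nil_suffix (l := A))
      have a2 := ctr_close hG (List.nil_suffix (l := R))
      have hs0 : side [] = 1 := by simp [side]
      rw [hs0] at a1 a2
      have t1 : ‖ctr A - ctr R‖ ≤ ‖ctr A - ctr []‖ + ‖ctr R - ctr []‖ := by
        calc ‖ctr A - ctr R‖ = ‖(ctr A - ctr []) - (ctr R - ctr [])‖ := by congr 1; ring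
          _ ≤ _ := norm_sub_le _ _
      norm_num at hs
      linarith
    obtain ⟨m, hm'⟩ := Nat.exists_eq_succ_of_ne_zero h0
    have hmin := Nat.find_min hex (m := m) (by omega)
    rw [hm', pow_succ]
    have := not_lt.1 hmin
    linarith
  calc nB x ≤ ∑' A : Dy, (ind (A.length ≤ R.length ∧ ‖ctr A - ctr R‖ ≤ 8 * side A) +
      ∑ l ∈ Finset.range (R.length + 1), ind (IntN x A ∧ l ≤ A.length ∧
        8 * (1 / 2 : ℝ) ^ l < ‖ctr A - ctr R‖ ∧ ‖ctr A - ctr R‖ ≤ 16 * (1 / 2 : ℝ) ^ l) +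
      ind (IntN x A ∧ R.length ≤ A.length ∧ ‖ctr A - ctr R‖ ≤ 8 * side R)) :=
        ENNReal.tsum_le_tsum key
    _ ≤ _ := by
        rw [ENNReal.tsum_add, ENNReal.tsum_add, tsum_fin]
        refine add_le_add (add_le_add (item4 hT hG R) ?_) (item3 hT hG x R)
        exact Finset.sum_le_sum fun l _ => item2 hT hG x R l

theorem item5 (hG : St_GEO1) (R : Dy) (l : ℕ) : (ann R l).card ≤ 65 ^ 2 := by
  obtain ⟨-, -, -, hbox, -, -, -, -, -, -, hcnt, -⟩ := hG
  have h := hcnt l (ctr R) 32 (by norm_num)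
  have hs : ann R l ⊆ (lev l).filter fun V => ‖ctr V - ctr R‖ ≤ 32 * (1 / 2 : ℝ) ^ l := by
    intro V hV
    unfold ann at hV
    rw [Finset.mem_filter] at hV ⊢
    exact ⟨hV.1, (hV.2 _ (hbox V).2.2.1).2⟩
  refine (Finset.card_le_card hs).trans ?_
  have : (((lev l).filter fun V => ‖ctr V - ctr R‖ ≤ 32 * (1 / 2 : ℝ) ^ l).card : ℝ) ≤
      (65 ^ 2 : ℕ) := by
    refine h.trans ?_
    norm_num
  exact_mod_cast this

theorem restrict_split (hG : St_GEO1) {ι : Type} (F : Finset ι) (w : ι → Dy) (V : Dy)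
    (hinc : ∀ i ∈ F, ∀ j ∈ F, w i <:+ w j → i = j) (hsub : ∀ i ∈ F, V <:+ w i)
    (hcov : ∀ y ∈ box V, ∃ i ∈ F, y ∈ box (w i)) :
    (volume : Measure ℂ).restrict (box V) = ∑ i ∈ F, volume.restrict (box (w i)) := by
  obtain ⟨-, -, -, hbox, hss, hdis, -⟩ := hG
  ext s hs
  rw [Measure.restrict_apply hs, Measure.finsetSum_apply]
  have hU : s ∩ box V = ⋃ i ∈ F, s ∩ box (w i) := by
    ext y
    simp only [mem_inter_iff, mem_iUnion, exists_prop]
    constructor
    · rintro ⟨h1, h2⟩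
      obtain ⟨i, hi, h3⟩ := hcov y h2
      exact ⟨i, hi, h1, h3⟩
    · rintro ⟨i, hi, h1, h3⟩
      exact ⟨h1, (hss _ _).2 (hsub i hi) h3⟩
  rw [hU, measure_biUnion_finset₀]
  · exact Finset.sum_congr rfl fun i _ => (Measure.restrict_apply hs).symm
  · intro i hi j hj hij
    have h0 := (hdis (w i) (w j) (fun h => hij (hinc i hi j hj h))
      (fun h => hij (hinc j hj i hi h).symm)).2
    exact measure_mono_null (fun y hy => mem_inter hy.1.2 hy.2.2) h0
  · intro i _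
    exact (hs.inter (hbox (w i)).1.measurableSet).nullMeasurableSet

theorem item6 (hG : St_GEO1) (B : Dy) :
    unif B = ∑ d : Fin 2 × Fin 2, (4 : ℝ≥0∞)⁻¹ • unif (d :: B) := by
  have hG' := hG
  obtain ⟨hside, -, -, -, -, -, -, hcov, -⟩ := hG'
  have h := restrict_split hG Finset.univ (fun d : Fin 2 × Fin 2 => d :: B) B
    (fun i _ j _ h => by
      have := h.eq_of_length (by simp)
      exact (List.cons.inj this).1)
    (fun i _ => List.suffix_cons _ _)
    (fun y hy => by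
      obtain ⟨S, hS, h⟩ := hcov B 1 y hy
      obtain ⟨d, rfl⟩ := List.length_eq_one_iff.1 hS
      exact ⟨d, Finset.mem_univ _, h⟩)
  unfold unif
  rw [h, Finset.smul_sum]
  refine Finset.sum_congr rfl fun d _ => ?_
  rw [smul_smul]
  congr 1
  have hp := (hside B).1
  have hs : side (d :: B) = side B / 2 := by
    unfold side; rw [List.length_cons, pow_succ]; ring
  have e4 : (4 : ℝ≥0∞)⁻¹ = ENNReal.ofReal (1 / 4) := by
    rw [one_div, ENNReal.ofReal_inv_of_pos (by norm_num)]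
    norm_num
  rw [hs, e4, ← ENNReal.ofReal_mul (by norm_num)]
  congr 1
  field_simp
  norm_num

theorem leaf_cover (hT : St_T1) (hG : St_GEO1) (T : Finset Dy) (hI : IsTr T) (B A : Dy)
    (y : ℂ) (hy : y ∈ box (B ++ A)) :
    ∃ S ∈ lvs T, (S <:+ B ∨ B <:+ S) ∧ y ∈ box (S ++ A) := by
  obtain ⟨-, -, -, -, -, hlen, -, -, -, hex, -⟩ := hT
  obtain ⟨-, -, -, -, hss, -, -, hcov, -⟩ := hG
  obtain ⟨S0, hS0, h⟩ := hcov (B ++ A) T.card y hy
  have hW : S0 ++ B ∉ T := by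
    intro hW
    have := hlen T hI _ hW
    rw [List.length_append] at this
    omega
  obtain ⟨S, hS, hSW⟩ := hex T hI _ hW
  refine ⟨S, hS, List.suffix_or_suffix_of_suffix hSW (List.suffix_append _ _), ?_⟩
  refine (hss _ _).2 ?_ h
  obtain ⟨C, hC⟩ := hSW
  exact ⟨C, by rw [← List.append_assoc, hC, List.append_assoc]⟩

theorem leaf_split (hT : St_T1) (hG : St_GEO1) (T : Finset Dy) (hI : IsTr T) (B : Dy)
    (hB : B ∈ T) (A : Dy) : (volume : Measure ℂ).restrict (box (B ++ A)) =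
      ∑ S ∈ (lvs T).filter (fun S => B <:+ S), volume.restrict (box (S ++ A)) := by
  have hT' := hT
  obtain ⟨-, -, -, -, -, -, -, hlv, hinc, -⟩ := hT'
  refine restrict_split hG _ (fun S => S ++ A) (B ++ A) ?_ ?_ ?_
  · intro i hi j hj h
    rw [Finset.mem_filter] at hi hj
    refine hinc T hI i hi.1 j hj.1 ?_
    obtain ⟨C, hC⟩ := h
    refine ⟨C, ?_⟩
    rw [← List.append_assoc] at hC
    exact List.append_cancel_right hC
  · intro i hi
    rw [Finset.mem_filter] at hi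
    obtain ⟨C, hC⟩ := hi.2
    exact ⟨C, by rw [← List.append_assoc, hC]⟩
  · intro y hy
    obtain ⟨S, hS, h1, h2⟩ := leaf_cover hT hG T hI B A y hy
    refine ⟨S, ?_, h2⟩
    rw [Finset.mem_filter]
    refine ⟨hS, h1.resolve_left fun h => ?_⟩
    exact ((hlv T hI S).1 hS).1 (hI B hB S h)

theorem item7 (hT : St_T1) (hG : St_GEO1) (T : Finset Dy) (hI : IsTr T) (B : Dy)
    (hB : B ∈ T) (A : Dy) : unif (B ++ A) = ∑ S ∈ (lvs T).filter (fun S => B <:+ S),
      ENNReal.ofReal ((side S / side B) ^ 2) • unif (S ++ A) := by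
  have hG' := hG
  obtain ⟨hside, happ, -⟩ := hG'
  unfold unif
  rw [leaf_split hT hG T hI B hB A, Finset.smul_sum]
  refine Finset.sum_congr rfl fun S _ => ?_
  rw [smul_smul, ← ENNReal.ofReal_mul (sq_nonneg _), happ, happ]
  congr 2
  have h1 := (hside S).1
  have h2 := (hside B).1
  have h3 := (hside A).1
  field_simp

theorem item8 (hT : St_T1) (hG : St_GEO1) (T : Finset Dy) (hI : IsTr T) (B : Dy)
    (hB : B ∈ T) : ∑ S ∈ (lvs T).filter (fun S => B <:+ S), side S ^ 2 = side B ^ 2 := by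
  have hG' := hG
  obtain ⟨-, -, -, hbox, -⟩ := hG'
  have h := congrArg (fun m : Measure ℂ => m univ) (leaf_split hT hG T hI B hB [])
  simp only [List.append_nil, Measure.finsetSum_apply, Measure.restrict_apply_univ] at h
  rw [(hbox B).2.1, Finset.sum_congr rfl fun S _ => (hbox S).2.1,
    ← ENNReal.ofReal_sum_of_nonneg fun S _ => sq_nonneg _] at h
  exact ((ENNReal.ofReal_eq_ofReal_iff (sq_nonneg _)
    (Finset.sum_nonneg fun S _ => sq_nonneg _)).1 h).symm

theorem item9 (hT : St_T1) (hG : St_GEO1) (T : Finset Dy) (hI : IsTr T) (y : ℂ)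
    (hy : y ∈ box []) : ∃ S ∈ lvs T, y ∈ box S := by
  obtain ⟨S, hS, -, h⟩ := leaf_cover hT hG T hI [] [] y (by simpa using hy)
  exact ⟨S, hS, by simpa using h⟩

end GEO2

theorem blk_GEO2 (hT : St_T1) (hG : St_GEO1) : St_GEO2 :=
  ⟨GEO2.item1 hT hG, fun x R l _ => GEO2.item2 hT hG x R l, GEO2.item3 hT hG, GEO2.item4 hT hG,
    GEO2.item5 hG, GEO2.item6 hG, GEO2.item7 hT hG, GEO2.item8 hT hG, GEO2.item9 hT hG⟩

end

end Pool.Agent.Lib.APPS
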