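import Pool.Agent.Lib.APPS.Blue4

/-!
Block H0, part a: deterministic estimates (integrable weight, the representing vector).
-/

namespace Pool.Agent.Lib.APPS

open MeasureTheory ProbabilityTheory Filter Topology Set Metric
open scoped NNReal ENNReal RealInnerProductSpace Classical

noncomputable section

namespace H0

def rr (z : ℂ) : ℝ := min (infDist z (box []) / 2) 1

def gg (s t : ℝ) : ℝ := (ball (0 : ℝ) 2).indicator (fun t => (|t| / 2) ^ (-s)) t

def HW (s t : ℝ) : ℝ := (1 + ‖t‖) ^ (-(2 - s)) + gg s t + gg s (t - 1)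

lemma gg_nonneg (s t : ℝ) : 0 ≤ gg s t :=
  Set.indicator_nonneg (fun _ _ => by positivity) _

lemma gg_int {s : ℝ} (hs : s < 1) : Integrable (gg s) := by
  unfold gg
  rw [integrable_indicator_iff measurableSet_ball]
  refine integrableOn_ball_of_norm_le_rpow (E := ℝ) (by simp) (C := 2 ^ s) (α := s)
    (by simpa using hs) (ae_of_all _ fun t => ?_) (Measurable.aestronglyMeasurable (by fun_prop))
  rw [Real.norm_eq_abs, Real.norm_eq_abs, abs_of_nonneg (by positivity),
    Real.div_rpow (abs_nonneg _) (by norm_num), Real.rpow_neg (by norm_num : (0 : ℝ) ≤ 2),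
    div_inv_eq_mul, mul_comm]

lemma HW_int {s : ℝ} (hs : s < 1) : Integrable (HW s) := by
  unfold HW
  refine (Integrable.add ?_ (gg_int hs)).add ((gg_int hs).comp_sub_right 1)
  exact integrable_one_add_norm (E := ℝ) (by simp; linarith)

lemma HW_nonneg (s t : ℝ) : 0 ≤ HW s t := by
  have := gg_nonneg s t
  have := gg_nonneg s (t - 1)
  unfold HW
  positivity

lemma W_fin {s : ℝ} (hs : s < 1) :
    ∫⁻ z : ℂ, ENNReal.ofReal (HW s z.re) * ENNReal.ofReal (HW s z.im) ≠ ∞ := by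
  have hm : AEMeasurable (fun t => ENNReal.ofReal (HW s t)) (volume : Measure ℝ) :=
    (HW_int hs).aemeasurable.ennreal_ofReal
  have h1 := Complex.volume_preserving_equiv_real_prod.lintegral_comp_emb
    Complex.measurableEquivRealProd.measurableEmbedding
    fun p : ℝ × ℝ => ENNReal.ofReal (HW s p.1) * ENNReal.ofReal (HW s p.2)
  have h2 : ∫⁻ t, ENNReal.ofReal (HW s t) ≠ ∞ := (HW_int hs).lintegral_lt_top.ne
  have h3 := lintegral_prod_mul hm hm
  rw [← Measure.volume_eq_prod] at h3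
  have h4 : ∫⁻ z : ℂ, ENNReal.ofReal (HW s z.re) * ENNReal.ofReal (HW s z.im) =
      (∫⁻ t, ENNReal.ofReal (HW s t)) * ∫⁻ t, ENNReal.ofReal (HW s t) := h1.trans h3
  rw [h4]
  exact ENNReal.mul_ne_top h2 h2

lemma mem_box0 {w : ℂ} : w ∈ box [] ↔ (0 ≤ w.re ∧ w.re ≤ 1) ∧ 0 ≤ w.im ∧ w.im ≤ 1 := by
  simp [box, corner, side]

lemma box0_ne : (box []).Nonempty := ⟨0, by simp [mem_box0]⟩

lemma norm_box0 {w : ℂ} (h : w ∈ box []) : ‖w‖ ≤ 2 := by
  rw [mem_box0] at h
  have := Complex.norm_le_abs_re_add_abs_im w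
  rw [abs_of_nonneg h.1.1, abs_of_nonneg h.2.1] at this
  linarith [h.1.2, h.2.2]

lemma rr_le_one (z : ℂ) : rr z ≤ 1 := min_le_right _ _

lemma rr_gg {s t : ℝ} (hs : 0 ≤ s) {z : ℂ} (ht : t ≠ 0) (h : |t| ≤ infDist z (box [])) :
    rr z ^ (-s) ≤ 1 + gg s t := by
  have h0 : 0 < |t| := abs_pos.2 ht
  by_cases h2 : |t| < 2
  · have : gg s t = (|t| / 2) ^ (-s) := Set.indicator_of_mem (by simpa using h2) _
    rw [this]
    have h3 : |t| / 2 ≤ rr z := le_min (by linarith) (by linarith)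
    have := Real.rpow_le_rpow_of_nonpos (by positivity) h3 (by linarith : -s ≤ 0)
    linarith
  · have : rr z = 1 := min_eq_right (by linarith [not_lt.1 h2])
    rw [this, Real.one_rpow]
    linarith [gg_nonneg s t]

lemma le_inf {z : ℂ} {a : ℝ} (h : ∀ w ∈ box [], a ≤ ‖z - w‖) : a ≤ infDist z (box []) := by
  rw [le_infDist box0_ne]
  intro w hw
  rw [dist_eq_norm]
  exact h w hw

lemma W_le {s : ℝ} (hs0 : 0 ≤ s) (hs : s < 1) {z : ℂ} (hz : z ∉ box []) :
    rr z ^ (-s) * (1 + ‖z‖) ^ (-(4 - 2 * s)) ≤ HW s z.re * HW s z.im := by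
  set a := (1 + ‖z.re‖) ^ (-(2 - s)) with ha
  set b := (1 + ‖z.im‖) ^ (-(2 - s)) with hb
  have ha0 : 0 ≤ a := by positivity
  have hb0 : 0 ≤ b := by positivity
  have ha1 : a ≤ 1 := Real.rpow_le_one_of_one_le_of_nonpos (by simp) (by linarith)
  have hb1 : b ≤ 1 := Real.rpow_le_one_of_one_le_of_nonpos (by simp) (by linarith)
  have h1 : (1 + ‖z‖) ^ (-(4 - 2 * s)) ≤ a * b := by
    rw [show -(4 - 2 * s) = -(2 - s) + -(2 - s) by ring, Real.rpow_add (by positivity)]
    refine mul_le_mul ?_ ?_ (by positivity) ha0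
    · exact Real.rpow_le_rpow_of_nonpos (by positivity)
        (by simpa using Complex.abs_re_le_norm z) (by linarith)
    · exact Real.rpow_le_rpow_of_nonpos (by positivity)
        (by simpa using Complex.abs_im_le_norm z) (by linarith)
  have g1 := gg_nonneg s z.re
  have g2 := gg_nonneg s (z.re - 1)
  have g3 := gg_nonneg s z.im
  have g4 := gg_nonneg s (z.im - 1)
  have hre : ∀ w : ℂ, |z.re - w.re| ≤ ‖z - w‖ := fun w => by
    simpa using Complex.abs_re_le_norm (z - w)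
  have him : ∀ w : ℂ, |z.im - w.im| ≤ ‖z - w‖ := fun w => by
    simpa using Complex.abs_im_le_norm (z - w)
  have hr0 : 0 ≤ rr z ^ (-s) := Real.rpow_nonneg (le_min (by
    have := infDist_nonneg (x := z) (s := box [])
    linarith) zero_le_one) _
  have key : rr z ^ (-s) ≤ 1 + gg s z.re + gg s (z.re - 1) ∨
      rr z ^ (-s) ≤ 1 + gg s z.im + gg s (z.im - 1) := by
    rw [mem_box0] at hz
    by_cases k1 : z.re < 0
    · left
      refine (rr_gg hs0 k1.ne (le_inf fun w hw => le_trans ?_ (hre w))).trans (by linarith)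
      have := (mem_box0.1 hw).1.1
      rw [abs_of_neg k1, abs_of_neg (by linarith)]
      linarith
    by_cases k2 : 1 < z.re
    · left
      refine (rr_gg (t := z.re - 1) hs0 (by linarith)
        (le_inf fun w hw => le_trans ?_ (hre w))).trans (by linarith)
      have := (mem_box0.1 hw).1.2
      rw [abs_of_pos (by linarith), abs_of_pos (by linarith)]
      linarith
    by_cases k3 : z.im < 0
    · right
      refine (rr_gg hs0 k3.ne (le_inf fun w hw => le_trans ?_ (him w))).trans (by linarith)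
      have := (mem_box0.1 hw).2.1
      rw [abs_of_neg k3, abs_of_neg (by linarith)]
      linarith
    have k4 : 1 < z.im := by
      by_contra k4
      exact hz ⟨⟨not_lt.1 k1, not_lt.1 k2⟩, not_lt.1 k3, not_lt.1 k4⟩
    right
    refine (rr_gg (t := z.im - 1) hs0 (by linarith)
      (le_inf fun w hw => le_trans ?_ (him w))).trans (by linarith)
    have := (mem_box0.1 hw).2.2
    rw [abs_of_pos (by linarith), abs_of_pos (by linarith)]
    linarith
  have e1 : HW s z.re = a + gg s z.re + gg s (z.re - 1) := rfl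
  have e2 : HW s z.im = b + gg s z.im + gg s (z.im - 1) := rfl
  rw [e1, e2]
  refine (mul_le_mul_of_nonneg_left h1 hr0).trans ?_
  rcases key with k | k
  · calc _ ≤ ((1 + gg s z.re + gg s (z.re - 1)) * a) * b := by
          rw [← mul_assoc]
          gcongr
      _ ≤ _ := mul_le_mul (by nlinarith) (by linarith) hb0 (by linarith)
  · calc _ ≤ a * ((1 + gg s z.im + gg s (z.im - 1)) * b) := by
          rw [mul_left_comm]
          gcongr
      _ ≤ _ := mul_le_mul (by linarith) (by nlinarith) (by positivity) (by linarith)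

lemma log_step {a b : ℝ} (ha : 0 ≤ a) (hb : 0 ≤ b) (h : a ≤ b + 1) :
    Real.log (1 + a) ≤ Real.log (1 + b) + 1 := by
  have h1 : Real.log (1 + a) ≤ Real.log (2 * (1 + b)) :=
    Real.log_le_log (by linarith) (by linarith)
  rw [Real.log_mul (by norm_num) (by linarith)] at h1
  have := Real.log_le_sub_one_of_pos (by norm_num : (0 : ℝ) < 2)
  linarith

/-- a vector representing the kriging covariances at the point `z` -/
structure YOk (g : Met) (M : Model) (φ : ℂ → ℝ) (C : ℝ) (z : ℂ) (y : HH) : Prop where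
  eS : ∀ B, ⟪y, M.eS B⟫ = g.U B z
  ub : ∀ S, ⟪M.ub S, y⟫ = 0
  psi : |⟪gr φ, y⟫| ≤ C
  nrm : ‖y‖ ^ 2 ≤ C - Real.log (rr z) + 2 * Real.log (1 + ‖z‖)

lemma rr_pos (hG : St_GEO1) {z : ℂ} (hz : z ∉ box []) : 0 < rr z := by
  have := ((hG.2.2.2.1 []).1.isClosed.notMem_iff_infDist_pos box0_ne).1 hz
  exact lt_min (by linarith) one_pos

lemma exists_Y (hMOD : St_MOD) (hB : St_BMP) (hFE : St_FE) (hG : St_GEO1) {g : Met} {M : Model}
    (hL : Lnk g M) {φ : ℂ → ℝ} (hφ : IsPsi M φ) :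
    ∃ C : ℝ, ∀ z, z ∉ box [] → ∃ y, YOk g M φ C z y := by
  obtain ⟨Cg, hCg⟩ := hL.grow
  obtain ⟨-, -, -, -, -, -, -, m8, -, -, -, -, -, -, -, -, hψ, -⟩ := hMOD M
  obtain ⟨-, E, C, -, -, b0, hb⟩ := hB
  obtain ⟨b1, -, -, -, -, -, b7, -⟩ := hb M
  obtain ⟨-, -, -, -, -, -, -, f8, f9, -⟩ := hFE
  have hsub : ∀ S, box S ⊆ box [] := fun S => (hG.2.2.2.2.1 S []).2 List.nil_suffix
  have hCg0 : 0 ≤ Cg := (abs_nonneg _).trans (hCg 0)
  set ψ := gr φ with hψdef
  refine ⟨|M.C0| + Cg + 3 + 2 * (Cg + 1) + (Cg + 1) * ‖ψ‖ ^ 2 + (Cg + 1) ^ 2 * ‖ψ‖ ^ 2,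
    fun z hz => ?_⟩
  have hr := rr_pos hG hz
  have hr1 := rr_le_one z
  have hrd : rr z ≤ infDist z (box []) / 2 := min_le_left _ _
  set r := rr z with hrdef
  obtain ⟨⟨hfe, hpr⟩, hsph, -⟩ := f9 z r hr
  have hae : ∀ᵐ w ∂circ z r, ‖w - z‖ = r := by
    have : ∀ᵐ w ∂circ z r, w ∈ sphere z r := mem_ae_iff.2 hsph
    simpa only [mem_sphere_iff_norm] using this
  have hbgw : ∀ w, |M.bg w + Real.log (1 + ‖w‖)| ≤ Cg / 2 := fun w => by
    rw [hL.bg, abs_le]
    have := abs_le.1 (hCg w)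
    constructor <;> linarith
  have hbd : ∀ᵐ w ∂circ z r, ‖M.bg w + Real.log (1 + ‖z‖)‖ ≤ Cg / 2 + 1 := by
    filter_upwards [hae] with w hw
    have k1 := log_step (norm_nonneg w) (norm_nonneg z) (by linarith [norm_sub_norm_le w z])
    have k2 := log_step (norm_nonneg z) (norm_nonneg w) (by
      linarith [norm_sub_norm_le z w, norm_sub_rev z w])
    have := abs_le.1 (hbgw w)
    rw [Real.norm_eq_abs, abs_le]
    constructor <;> linarith
  have hint1 : Integrable (fun w => M.bg w + Real.log (1 + ‖z‖)) (circ z r) :=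
    Integrable.of_bound (M.bgc.add continuous_const).aestronglyMeasurable _ hbd
  have hint : Integrable M.bg (circ z r) :=
    (hint1.sub (integrable_const (Real.log (1 + ‖z‖)))).congr (ae_of_all _ fun w => by simp)
  set I := ∫ w, M.bg w ∂circ z r with hI
  have hIb : |I + Real.log (1 + ‖z‖)| ≤ Cg / 2 + 1 := by
    have := norm_integral_le_of_norm_le_const hbd
    rw [integral_add hint (integrable_const _)] at this
    simpa using this
  have hc : |I - M.bg z| ≤ Cg + 1 := by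
    have k1 := abs_le.1 hIb
    have k2 := abs_le.1 (hbgw z)
    rw [abs_le]
    constructor <;> linarith
  set c := I - M.bg z with hcdef
  have hfar : ∀ w ∈ box [], 2 * r ≤ ‖w - z‖ := fun w hw => by
    have := infDist_le_dist_of_mem (x := z) hw
    rw [dist_eq_norm, norm_sub_rev] at this
    linarith
  have h1 : ∀ B, ⟪M.eC z r, M.eS B⟫ = M.C0 + potS B z - I := fun B => by
    obtain ⟨⟨k1, k2⟩, k3⟩ := f8 B
    have k4 : ∀ᵐ w ∂unif B, w ∈ box B := mem_ae_iff.2 k3
    have k5 : ∫ w, M.bg w ∂unif B = 0 := by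
      refine integral_eq_zero_of_ae ?_
      filter_upwards [k4] with w hw
      exact M.bg0 w (hL.sub (hsub B hw))
    have k6 : Ie (circ z r) (unif B) = potS B z := by
      rw [m8 z r _ hr ⟨k1, k2⟩, potS, ← integral_neg]
      refine integral_congr_ae ?_
      filter_upwards [k4] with w hw
      rw [max_eq_left (by linarith [hfar w (hsub B hw)]), norm_sub_rev]
    rw [Model.eC, Model.eS, M.ee _ _ hfe k1, k5, k6]
    simp [hI]
  have h2 : |⟪M.eC z r, ψ⟫| ≤ 1 := by
    rw [Model.eC, hψdef, M.eg _ _ hfe hφ.1 hφ.2.1]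
    have := norm_integral_le_of_norm_le_const (μ := circ z r) (f := φ) (C := 1)
      (ae_of_all _ fun w => by
        rw [Real.norm_eq_abs, abs_of_nonneg (hφ.2.2.2 w).1]
        exact (hφ.2.2.2 w).2)
    simpa using this
  have h3 : ‖M.eC z r‖ ^ 2 = M.C0 - Real.log r - 2 * I := by
    have k6 : Ie (circ z r) (circ z r) = -Real.log r := by
      rw [m8 z r _ hr ⟨hfe, hpr⟩]
      congr 1
      rw [integral_congr_ae (g := fun _ => Real.log r)]
      · simp
      · filter_upwards [hae] with w hw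
        rw [hw, max_self]
    rw [← real_inner_self_eq_norm_sq, Model.eC, M.ee _ _ hfe hfe, k6]
    simp only [probReal_univ, ← hI]
    ring
  have hn : 0 ≤ ‖ψ‖ ^ 2 := by positivity
  refine ⟨M.eC z r + c • ψ, fun B => ?_, fun S => ?_, ?_, ?_⟩
  · rw [inner_add_left, real_inner_smul_left, h1, hψ φ hφ, hL.U]
    ring
  · have k1 : ⟪M.ub S, ψ⟫ = 0 :=
      b7 S φ hφ.1 ⟨1, fun x hx => hφ.2.2.1.self_of_nhdsSet x (hsub S hx)⟩
    have k2 : ⟪M.ub S, M.eC z r⟫ = 0 := by
      rw [Model.eC, b1 S ((hsub S).trans hL.sub) _ hfe]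
      refine integral_eq_zero_of_ae ?_
      filter_upwards [hae] with w hw
      refine (b0 S).2.2.1 w ?_
      by_contra hcon
      have k3 : w ∈ box S := (hG.2.2.2.1 S).2.2.2.2 (by
        rw [mem_closedBall_iff_norm]
        linarith [not_le.1 hcon, (hG.1 S).1])
      linarith [hfar w (hsub S k3)]
    rw [inner_add_right, real_inner_smul_right, k1, k2]
    ring
  · rw [inner_add_right, real_inner_smul_right, real_inner_self_eq_norm_sq, real_inner_comm]
    have k1 : |c * ‖ψ‖ ^ 2| ≤ (Cg + 1) * ‖ψ‖ ^ 2 := by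
      rw [abs_mul, abs_of_nonneg hn]
      gcongr
    have k2 : 0 ≤ (Cg + 1) ^ 2 * ‖ψ‖ ^ 2 := by positivity
    linarith [abs_add_le ⟪M.eC z r, ψ⟫ (c * ‖ψ‖ ^ 2), abs_nonneg M.C0]
  · rw [norm_add_sq_real, real_inner_smul_right, norm_smul, mul_pow, h3, Real.norm_eq_abs]
    have k1 : c * ⟪M.eC z r, ψ⟫ ≤ Cg + 1 := by
      refine (le_abs_self _).trans ?_
      rw [abs_mul]
      exact (mul_le_of_le_one_right (abs_nonneg _) h2).trans hc
    have k2 : |c| ^ 2 * ‖ψ‖ ^ 2 ≤ (Cg + 1) ^ 2 * ‖ψ‖ ^ 2 := by gcongr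
    have k3 : 0 ≤ (Cg + 1) * ‖ψ‖ ^ 2 := by positivity
    linarith [(abs_le.1 hIb).1, le_abs_self M.C0]

lemma U_le (hE : St_EXP2) (hG : St_GEO1) {g : Met} {M : Model} (hL : Lnk g M) :
    ∃ C : ℝ, ∀ z A, g.U A z ≤ C + ins 1 z A := by
  obtain ⟨Cg, hCg⟩ := hL.grow
  obtain ⟨-, -, -, -, -, C, -, e1, -⟩ := hE
  refine ⟨M.C0 + C + Cg / 2 + Real.log 4, fun z A => ?_⟩
  have h1 := (abs_le.1 (e1 A z)).2
  have h2 := (abs_le.1 (hCg z)).1
  have h3 : ‖ctr A‖ ≤ 2 := norm_box0
    ((hG.2.2.2.2.1 A []).2 List.nil_suffix (hG.2.2.2.1 A).2.2.1)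
  have h4 : ‖z‖ ≤ ‖z - ctr A‖ + 2 := by linarith [norm_sub_norm_le z (ctr A)]
  rw [hL.U, hL.bg, ins]
  set m := max ‖z - ctr A‖ (side A) with hm
  have hm0 : 0 < m := lt_max_of_lt_right (hG.1 A).1
  have h5 : ‖z - ctr A‖ ≤ m := le_max_left _ _
  have key : Real.log (1 + ‖z‖) - Real.log m ≤ Real.log 4 + Real.posLog (1 / m) := by
    by_cases k : 1 ≤ m
    · have : Real.log (1 + ‖z‖) ≤ Real.log (4 * m) :=
        Real.log_le_log (by positivity) (by linarith)
      rw [Real.log_mul (by norm_num) hm0.ne'] at this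
      linarith [Real.posLog_nonneg (x := 1 / m)]
    · have k1 : Real.log (1 + ‖z‖) ≤ Real.log 4 :=
        Real.log_le_log (by positivity) (by linarith [not_le.1 k])
      have k2 : Real.log (1 / m) ≤ Real.posLog (1 / m) := le_max_right _ _
      rw [one_div, Real.log_inv] at k2
      rw [one_div]
      linarith
  linarith

end H0

end

end Pool.Agent.Lib.APPS
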