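import Pool.Agent.Lib.APPS.Blue4

/-!
Auxiliary lemmas for block H4a: counting of nested trees and a moment bound.
-/

namespace Pool.Agent.Lib.APPS

open MeasureTheory ProbabilityTheory Filter Topology Set Metric
open scoped NNReal ENNReal RealInnerProductSpace Classical

noncomputable section

namespace H4a

theorem eE_add (s t : ℝ) : eE (s + t) = eE s * eE t := by
  unfold eE; rw [Real.exp_add, ENNReal.ofReal_mul (Real.exp_pos _).le]

theorem eE_mono {s t : ℝ} (h : s ≤ t) : eE s ≤ eE t :=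
  ENNReal.ofReal_le_ofReal (Real.exp_le_exp.2 h)

theorem eE_ne (s : ℝ) : eE s ≠ ∞ := ENNReal.ofReal_ne_top

theorem eE_rpow (s p : ℝ) : eE s ^ p = eE (s * p) := by
  unfold eE
  rw [ENNReal.ofReal_rpow_of_pos (Real.exp_pos _), ← Real.exp_mul]

theorem meas_eE : Measurable eE := ENNReal.measurable_ofReal.comp Real.measurable_exp

theorem ind_pos {p : Prop} (h : p) : ind p = 1 := by simp [ind, h]

theorem ind_neg {p : Prop} (h : ¬p) : ind p = 0 := by simp [ind, h]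

theorem ind_mono {p r : Prop} (h : p → r) : ind p ≤ ind r := by
  by_cases hp : p
  · simp [ind, hp, h hp]
  · simp [ind, hp]

theorem ind_and (p r : Prop) : ind (p ∧ r) = ind p * ind r := by
  by_cases hp : p <;> by_cases hr : r <;> simp [ind, hp, hr]

theorem ind_le (p : Prop) : ind p ≤ 1 := by
  by_cases hp : p <;> simp [ind, hp]

theorem ind_ne (p : Prop) : ind p ≠ ∞ := ne_top_of_le_ne_top ENNReal.one_ne_top (ind_le p)

theorem meas_ind {α : Type*} [MeasurableSpace α] {p : α → Prop} (h : MeasurableSet {a | p a}) :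
    Measurable fun a => ind (p a) := Measurable.ite h measurable_const measurable_const

theorem gm_eq {p : Om → Prop} (hp : MeasurableSet {ω | p ω}) :
    gm {ω | p ω} = ∫⁻ ω, ind (p ω) ∂gm := by
  rw [← lintegral_indicator_one hp]
  congr 1

theorem sum_ind {α : Type*} (s : Finset α) (p : α → Prop) (f : α → ℝ≥0∞) :
    ∑ a ∈ s, ind (p a) * f a = ∑ a ∈ s.filter p, f a := by
  rw [Finset.sum_filter]
  refine Finset.sum_congr rfl fun a _ => ?_
  by_cases h : p a <;> simp [ind, h]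

/-- squares of depth less than `n` -/
def UD (n : ℕ) : Finset Dy := (Finset.range n).biUnion lev

theorem mem_UD (hT1 : St_T1) {n : ℕ} {S : Dy} : S ∈ UD n ↔ S.length < n := by
  simp only [UD, Finset.mem_biUnion, Finset.mem_range, hT1.1]
  exact ⟨fun ⟨_, h, e⟩ => e ▸ h, fun h => ⟨_, h, rfl⟩⟩

theorem card_UD (hT1 : St_T1) (n : ℕ) : (UD n).card + 1 ≤ 4 ^ n := by
  have h : ∀ n, ∑ k ∈ Finset.range n, 4 ^ k + 1 ≤ 4 ^ n := by
    intro n
    induction n with
    | zero => simp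
    | succ n ih => rw [Finset.sum_range_succ, pow_succ]; omega
  refine le_trans ?_ (h n)
  have := Finset.card_biUnion_le (s := Finset.range n) (t := lev)
  simp only [hT1.2.1] at this
  exact Nat.add_le_add_right this 1

/-- trees of depth at most `D` -/
def TD (D : ℕ) : Finset (Finset Dy) := (UD (D + 1)).powerset.filter IsTr

/-- the tree `τ` is the tree of some translate of `x` -/
def Poss (τ : Finset Dy) (x : Dy → ℝ) : Prop := ∀ B ∈ τ, ∀ S ∈ lvs τ, x S < x B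

theorem poss_nested (hT1 : St_T1) {τ τ' : Finset Dy} {x : Dy → ℝ} (h : IsTr τ) (h' : IsTr τ')
    (p : Poss τ x) (p' : Poss τ' x) : τ ⊆ τ' ∨ τ' ⊆ τ := by
  obtain ⟨-, -, -, -, -, -, -, -, -, t10, -⟩ := hT1
  by_contra hc
  rw [not_or, Finset.not_subset, Finset.not_subset] at hc
  obtain ⟨⟨A, hA, hA'⟩, ⟨B, hB, hB'⟩⟩ := hc
  obtain ⟨S', hS', e'⟩ := t10 τ' h' A hA'
  obtain ⟨S, hS, e⟩ := t10 τ h B hB'
  exact lt_asymm (p S' (h A hA S' e') S hS) (p' S (h' B hB S e) S' hS')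

theorem poss_card (hT1 : St_T1) (D : ℕ) (x : Dy → ℝ) :
    ((TD D).filter fun τ => Poss τ x).card ≤ 4 ^ (D + 1) := by
  refine le_trans ?_ (card_UD hT1 (D + 1))
  rw [← Finset.card_range ((UD (D + 1)).card + 1)]
  refine Finset.card_le_card_of_injOn Finset.card (fun τ hτ => ?_) fun τ hτ τ' hτ' e => ?_
  · simp only [TD, Finset.coe_filter, Finset.mem_filter, Finset.mem_powerset, mem_ofPred_eq] at hτ
    exact Finset.mem_coe.2 (Finset.mem_range.2 (Nat.lt_succ_of_le (Finset.card_le_card hτ.1.1)))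
  · simp only [TD, Finset.coe_filter, Finset.mem_filter, Finset.mem_powerset,
      mem_ofPred_eq] at hτ hτ'
    rcases poss_nested hT1 hτ.1.2 hτ'.1.2 hτ.2 hτ'.2 with h | h
    · exact Finset.eq_of_subset_of_card_le h e.ge
    · exact (Finset.eq_of_subset_of_card_le h e.le).symm

theorem meas_poss (τ : Finset Dy) : MeasurableSet {x | Poss τ x} := by
  have : {x | Poss τ x} = ⋂ B ∈ τ, ⋂ S ∈ lvs τ, {x : Dy → ℝ | x S < x B} := by
    ext x; simp [Poss]
  rw [this]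
  exact Finset.measurableSet_biInter _ fun B _ => Finset.measurableSet_biInter _ fun S _ =>
    measurableSet_lt (measurable_pi_apply S) (measurable_pi_apply B)

theorem pow_sum {α : Type*} (s : Finset α) (f : α → ℝ≥0∞) {p : ℝ} (hp : 0 < p) {n : ℕ}
    (hn : s.card ≤ n) : (∑ a ∈ s, f a) ^ p ≤ (n : ℝ≥0∞) ^ p * ∑ a ∈ s, f a ^ p := by
  rcases s.eq_empty_or_nonempty with rfl | hs
  · simp [ENNReal.zero_rpow_of_pos hp]
  obtain ⟨a, ha, hm⟩ := s.exists_max_image f hs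
  calc (∑ a ∈ s, f a) ^ p ≤ ((n : ℝ≥0∞) * f a) ^ p := by
        refine ENNReal.rpow_le_rpow ((Finset.sum_le_card_nsmul _ _ _ hm).trans ?_) hp.le
        rw [nsmul_eq_mul]
        exact mul_le_mul_left (by exact_mod_cast hn) _
    _ = (n : ℝ≥0∞) ^ p * f a ^ p := ENNReal.mul_rpow_of_nonneg _ _ hp.le
    _ ≤ _ := mul_le_mul_right (Finset.single_le_sum (f := fun a => f a ^ p)
        (fun _ _ => zero_le) ha) _

theorem one_term (hG1D : St_G1D) (hG2 : St_G2) (P : Om → Prop) (hm : MeasurableSet {ω | P ω})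
    (e : HH) {δ t p : ℝ} (hδ : 0 < δ) (he : ‖e‖ ≤ δ)
    (hi : ∀ (s : ℝ) ω, P (ω + s • dv e) ↔ P ω) :
    ∫⁻ ω, ind (P ω) * eE ((|ω e| - t) / δ * p) ∂gm ≤
      2 * eE ((p / 2 - t / δ) * p) * ∫⁻ ω, ind (P ω) ∂gm := by
  have hg : Measurable fun z : ℝ => eE ((|z| - t) / δ * p) :=
    meas_eE.comp (((measurable_abs.sub_const t).div_const δ).mul_const p)
  have h := hG2.2.2.2 Unit (fun _ => e) (fun q => ind (P q.2) * eE ((|q.1 ()| - t) / δ * p))
    (((meas_ind hm).comp measurable_snd).mul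
      (hg.comp ((measurable_pi_apply ()).comp measurable_fst)))
    (fun _ _ s ω => by simp only [hi])
  simp only at h
  rw [h]
  simp_rw [lintegral_mul_const _ (meas_ind hm)]
  have hg' : Measurable fun ω : Om => eE ((|ω e| - t) / δ * p) := hg.comp (meas_ev e)
  rw [lintegral_const_mul _ hg', mul_comm]
  refine mul_le_mul_left ?_ _
  have e1 : ∀ ω : Om, eE ((|ω e| - t) / δ * p) = eE (-(t / δ * p)) * eE (p / δ * |ω e|) := by
    intro ω; rw [← eE_add]; congr 1; ring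
  simp_rw [e1]
  rw [lintegral_const_mul' _ _ (eE_ne _)]
  refine (mul_le_mul_right (hG1D.2.2.2.2.2.2 e (p / δ)) _).trans ?_
  rw [mul_left_comm, ← eE_add]
  refine mul_le_mul_right (eE_mono ?_) _
  have h1 : (‖e‖ / δ) ^ 2 ≤ 1 := pow_le_one₀ (by positivity) ((div_le_one hδ).2 he)
  have h2 : (p / δ) ^ 2 * ‖e‖ ^ 2 = p ^ 2 * (‖e‖ / δ) ^ 2 := by ring
  rw [h2]
  nlinarith [sq_nonneg p]

theorem moment (hG1 : St_G1) (hG1D : St_G1D) (hG2 : St_G2) {I J : Type} (𝒯 : Finset I)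
    (𝒮 : Finset J) (P : I → Om → Prop) (G : I → J → Prop) (e : I → J → HH) (n : ℕ) {δ t p : ℝ}
    (hδ : 0 < δ) (hp : 1 ≤ p) (hn : 2 ≤ n) (h𝒮 : 𝒮.card ≤ n)
    (hc : ∀ ω, (𝒯.filter fun i => P i ω).card ≤ n) (hm : ∀ i, MeasurableSet {ω | P i ω})
    (hG : ∀ i ∈ 𝒯, ∀ j, G i j → ‖e i j‖ ≤ δ ∧ ∀ (s : ℝ) ω, P i (ω + s • dv (e i j)) ↔ P i ω) :
    ∫⁻ ω, (∑ i ∈ 𝒯, ind (P i ω) * ∑ j ∈ 𝒮, ind (G i j) * eE ((|ω (e i j)| - t) / δ)) ^ p ∂gm ≤
      ENNReal.ofReal ((n : ℝ) ^ 5 * Real.exp (p / 2 - t / δ)) ^ p := by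
  have := hG1.1
  have hp0 : 0 < p := by linarith
  have hnp : (n : ℝ≥0∞) ^ p ≠ ∞ := ENNReal.rpow_ne_top_of_nonneg hp0.le (ENNReal.natCast_ne_top n)
  have hg : ∀ i j, Measurable fun ω : Om => ind (P i ω) * eE ((|ω (e i j)| - t) / δ * p) :=
    fun i j => (meas_ind (hm i)).mul (meas_eE.comp
      ((((meas_ev _).abs.sub_const t).div_const δ).mul_const p))
  have h1 : ∀ ω : Om,
      (∑ i ∈ 𝒯, ind (P i ω) * ∑ j ∈ 𝒮, ind (G i j) * eE ((|ω (e i j)| - t) / δ)) ^ p ≤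
      (n : ℝ≥0∞) ^ p * (n : ℝ≥0∞) ^ p * ∑ i ∈ 𝒯, ∑ j ∈ 𝒮.filter (G i),
        ind (P i ω) * eE ((|ω (e i j)| - t) / δ * p) := by
    intro ω
    rw [sum_ind]
    refine (pow_sum _ _ hp0 (hc ω)).trans ?_
    rw [mul_assoc]
    refine mul_le_mul_right ?_ _
    simp_rw [← Finset.mul_sum]
    rw [sum_ind, Finset.mul_sum]
    refine Finset.sum_le_sum fun i _ => ?_
    rw [sum_ind]
    refine (pow_sum _ _ hp0 ((Finset.card_filter_le _ _).trans h𝒮)).trans ?_
    simp_rw [eE_rpow]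
    exact le_rfl
  refine (lintegral_mono h1).trans ?_
  rw [lintegral_const_mul' _ _ (ENNReal.mul_ne_top hnp hnp),
    lintegral_finsetSum _ fun i _ => Finset.measurable_fun_sum _ fun j _ => hg i j]
  have h2 : ∀ i ∈ 𝒯, ∫⁻ ω, ∑ j ∈ 𝒮.filter (G i), ind (P i ω) * eE ((|ω (e i j)| - t) / δ * p) ∂gm ≤
      n * (2 * eE ((p / 2 - t / δ) * p)) * ∫⁻ ω, ind (P i ω) ∂gm := by
    intro i hi
    rw [lintegral_finsetSum _ fun j _ => hg i j]
    refine (Finset.sum_le_card_nsmul _ _ _ fun j hj => one_term hG1D hG2 (P i) (hm i) (e i j) hδ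
      (hG i hi j (Finset.mem_filter.1 hj).2).1 (hG i hi j (Finset.mem_filter.1 hj).2).2).trans ?_
    rw [nsmul_eq_mul, ← mul_assoc]
    refine mul_le_mul_left (mul_le_mul_left ?_ _) _
    exact_mod_cast (Finset.card_filter_le _ _).trans h𝒮
  have h3 : ∑ i ∈ 𝒯, ∫⁻ ω, ind (P i ω) ∂gm ≤ n := by
    rw [← lintegral_finsetSum _ fun i _ => meas_ind (hm i)]
    refine (lintegral_mono (g := fun _ => (n : ℝ≥0∞)) fun ω => ?_).trans (by simp)
    have := sum_ind 𝒯 (fun i => P i ω) fun _ => 1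
    simp only [mul_one, Finset.sum_const, nsmul_eq_mul] at this
    simp only [this]
    exact_mod_cast hc ω
  have h4 : (n : ℝ≥0∞) ≤ (n : ℝ≥0∞) ^ p := by
    conv_lhs => rw [← ENNReal.rpow_one (n : ℝ≥0∞)]
    exact ENNReal.rpow_le_rpow_of_exponent_le (by exact_mod_cast (by omega : 1 ≤ n)) hp
  have h5 : (2 : ℝ≥0∞) ≤ (n : ℝ≥0∞) ^ p := le_trans (by exact_mod_cast hn) h4
  refine (mul_le_mul_right ((Finset.sum_le_sum h2).trans
    ((Finset.mul_sum _ _ _).symm.le.trans (mul_le_mul_right h3 _))) _).trans ?_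
  rw [ENNReal.ofReal_mul (by positivity), ENNReal.mul_rpow_of_nonneg _ _ hp0.le,
    ENNReal.ofReal_pow (by positivity), ENNReal.ofReal_natCast, ← ENNReal.rpow_natCast,
    ← ENNReal.rpow_mul, mul_comm ((5 : ℕ) : ℝ) p, ENNReal.rpow_mul, ENNReal.rpow_natCast]
  change _ ≤ _ * eE _ ^ p
  rw [eE_rpow]
  calc _ ≤ (n : ℝ≥0∞) ^ p * (n : ℝ≥0∞) ^ p * ((n : ℝ≥0∞) ^ p * ((n : ℝ≥0∞) ^ p *
        eE ((p / 2 - t / δ) * p)) * (n : ℝ≥0∞) ^ p) := by gcongr
    _ = _ := by ring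

theorem sum_tail (hT1 : St_T1) (k : ℕ) (g : Dy → ℝ≥0∞) :
    ∑' A : Dy, ∑ S ∈ lev (k + 1), g (S.tail ++ A) ≤ 4 * ∑' R : Dy, g R := by
  let f : Dy × {S // S ∈ lev (k + 1)} → (Fin 2 × Fin 2) × Dy :=
    fun q => (q.2.1.headD (0, 0), q.2.1.tail ++ q.1)
  have hf : Function.Injective f := by
    rintro ⟨A, S, hS⟩ ⟨A', S', hS'⟩ h
    rw [hT1.1] at hS hS'
    obtain ⟨d, S, rfl⟩ := List.exists_cons_of_length_eq_add_one hS
    obtain ⟨d', S', rfl⟩ := List.exists_cons_of_length_eq_add_one hS'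
    simp only [f, List.headD_cons, List.tail_cons, Prod.mk.injEq] at h
    simp only [List.length_cons, Nat.add_right_cancel_iff] at hS hS'
    obtain ⟨e1, e2⟩ := List.append_inj h.2 (hS.trans hS'.symm)
    simp [h.1, e1, e2]
  have h := ENNReal.tsum_comp_le_tsum_of_injective hf fun q => g q.2
  rw [ENNReal.tsum_prod', ENNReal.tsum_prod'] at h
  refine le_trans (le_of_eq (tsum_congr fun A => ?_)) (h.trans (by simp))
  exact (Finset.tsum_subtype (lev (k + 1)) fun S => g (S.tail ++ A)).symm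

theorem abs_le_split (z : ℝ) {t δ : ℝ} (ht : 0 ≤ t) (hδ : 0 < δ) (hδ1 : δ ≤ 1) :
    ENNReal.ofReal |z| ≤ ENNReal.ofReal t + eE ((|z| - t) / δ) := by
  rw [eE, ← ENNReal.ofReal_add ht (Real.exp_pos _).le]
  refine ENNReal.ofReal_le_ofReal ?_
  rcases le_or_gt |z| t with h | h
  · linarith [Real.exp_pos ((|z| - t) / δ)]
  · have h1 : |z| - t ≤ (|z| - t) / δ := by
      rw [le_div_iff₀ hδ]; nlinarith
    linarith [Real.add_one_le_exp ((|z| - t) / δ)]

theorem mem_subT {T : Finset Dy} {A B : Dy} : B ∈ subT T A ↔ B ++ A ∈ T := by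
  simp only [subT, Finset.mem_image, Finset.mem_filter]
  constructor
  · rintro ⟨W, ⟨hW, C, rfl⟩, rfl⟩
    simpa using hW
  · intro h
    exact ⟨_, ⟨h, List.suffix_append _ _⟩, by simp⟩

theorem small_v (a b c t θ η : ℝ) (hc : 0 < c) (ht : 0 < t) (hθ : 0 < θ) (hθ1 : θ < 1)
    (hη : 0 < η) : ∀ᶠ K : ℕ in atTop, Real.exp (a * K + b - t / (c * θ ^ K)) ≤ η := by
  have h1 : 1 < θ⁻¹ := (one_lt_inv₀ hθ).2 hθ1
  have h2 := tendsto_pow_const_div_const_pow_of_one_lt 1 h1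
  have h3 := tendsto_pow_const_div_const_pow_of_one_lt 0 h1
  have h4 := (h2.const_mul a).add (h3.const_mul (b - Real.log η))
  simp only [mul_zero, add_zero] at h4
  filter_upwards [h4.eventually (gt_mem_nhds (div_pos ht hc))] with K hK
  rw [← Real.exp_log hη]
  refine Real.exp_le_exp.2 ?_
  have hp : 0 < θ ^ K := pow_pos hθ K
  simp only [pow_one, pow_zero, inv_pow, div_inv_eq_mul] at hK
  have : a * K + b - Real.log η ≤ t / (c * θ ^ K) := by
    rw [← div_div, le_div_iff₀ hp]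
    nlinarith
  linarith

theorem small_e (a B η : ℝ) (hη : 0 < η) :
    ∀ᶠ ι : ℕ in atTop, (ι : ℝ) ^ a * ((4 : ℝ) ^ ι * (Real.exp (-3 * ι) * B)) ≤ η := by
  have h1 := (tendsto_rpow_mul_exp_neg_mul_atTop_nhds_zero a 1 one_pos).comp
    tendsto_natCast_atTop_atTop (α := ℕ)
  have h2 := h1.mul_const |B|
  rw [zero_mul] at h2
  filter_upwards [h2.eventually (gt_mem_nhds hη)] with ι hι
  refine le_trans ?_ hι.le
  simp only [Function.comp]
  rw [mul_assoc]
  refine mul_le_mul_of_nonneg_left ?_ (Real.rpow_nonneg (Nat.cast_nonneg _) _)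
  have h4 : (4 : ℝ) ^ ι ≤ Real.exp (2 * ι) := by
    rw [mul_comm, Real.exp_nat_mul]
    refine pow_le_pow_left₀ (by norm_num) ?_ _
    have := Real.add_one_le_exp 1
    have e2 : Real.exp 2 = Real.exp 1 * Real.exp 1 := by rw [← Real.exp_add]; norm_num
    nlinarith
  calc (4 : ℝ) ^ ι * (Real.exp (-3 * ι) * B) ≤ Real.exp (2 * ι) * (Real.exp (-3 * ι) * |B|) := by
        refine le_trans (mul_le_mul_of_nonneg_left (mul_le_mul_of_nonneg_left (le_abs_self B)
          (Real.exp_pos _).le) (by positivity)) ?_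
        gcongr
    _ = _ := by rw [← mul_assoc, ← Real.exp_add]; congr 2; ring

end H4a

end

end Pool.Agent.Lib.APPS
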