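import Pool.Agent.Lib.APPS.Blue4

/-!
Localisation of the kriging predictor: tree and vector lemmas.
-/

namespace Pool.Agent.Lib.APPS

open MeasureTheory ProbabilityTheory Filter Topology Set Metric
open scoped NNReal ENNReal RealInnerProductSpace Classical

noncomputable section

namespace H4

theorem mem_subT (T : Finset Dy) (A B : Dy) : B ∈ subT T A ↔ B ++ A ∈ T := by
  simp only [subT, Finset.mem_image, Finset.mem_filter]
  constructor
  · rintro ⟨W, ⟨hW, ⟨V, rfl⟩⟩, rfl⟩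
    simpa using hW
  · intro h
    exact ⟨B ++ A, ⟨h, List.suffix_append B A⟩, by simp⟩

theorem isTr_subT {T : Finset Dy} (hT : IsTr T) (A : Dy) : IsTr (subT T A) := by
  intro B hB B' hB'
  rw [mem_subT] at hB ⊢
  obtain ⟨V, rfl⟩ := hB'
  exact hT _ hB _ ⟨V, by simp⟩

theorem lvs_subT (hT1 : St_T1) {T : Finset Dy} (hT : IsTr T) {A : Dy} (hA : A ∈ T) (B : Dy) :
    B ∈ lvs (subT T A) ↔ B ++ A ∈ lvs T := by
  have h8 := hT1.2.2.2.2.2.2.2.1
  rw [h8 _ (isTr_subT hT A), h8 _ hT, mem_subT]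
  refine and_congr_right fun _ => ⟨fun h W hW hne => ?_, fun h W hW hne => ?_⟩
  · rcases List.suffix_or_suffix_of_suffix hW (List.suffix_append B A) with h1 | h1
    · exact hT _ hA _ h1
    · obtain ⟨V, rfl⟩ := h1
      obtain ⟨U, hU⟩ := hW
      rw [← List.append_assoc, List.append_cancel_right_eq] at hU
      exact (mem_subT _ _ _).1 (h V ⟨U, hU⟩ fun e => hne (by rw [e]))
  · rw [mem_subT]
    obtain ⟨U, rfl⟩ := hW
    refine h _ ⟨U, by simp⟩ fun e => hne ?_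
    exact (List.append_cancel_right e)

theorem tr_sub (hT1 : St_T1) {x : Dy → ℝ} (hx : nB x ≠ ∞) {A : Dy} (hA : A ∈ tr x) :
    tr (sub x A) = subT (tr x) A := by
  obtain ⟨-, -, -, -, -, -, -, -, -, -, -, -, h13, -, -, -, -, -, h19, -⟩ := hT1
  ext B
  rw [mem_subT]
  exact h19 x A hx ((h13 x hx A).1 hA) B

theorem decomp (hT1 : St_T1) (x : Dy → ℝ) (ι : ℕ) (F : Finset Dy → ℝ≥0∞) :
    ind (nB x = ι) * F (tr x) = ∑ T ∈ trees ι, ind (HasTr x T) * F T := by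
  obtain ⟨-, -, -, h4, -, -, -, -, -, -, -, h12, h13, -⟩ := hT1
  by_cases hx : nB x = ι
  · have h1 := h13 x (by rw [hx]; exact ENNReal.natCast_ne_top ι)
    obtain ⟨h2, -, h3, -⟩ := h12 x _ h1
    rw [Finset.sum_eq_single (tr x)]
    · simp [ind, hx, h1]
    · intro T _ hne
      have : ¬HasTr x T := fun h => hne (h12 x T h).2.1.symm
      simp [ind, this]
    · intro h
      exact absurd ((h4 ι _).2 ⟨h2, by rw [hx] at h3; exact_mod_cast h3.symm⟩) h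
  · rw [Finset.sum_eq_zero]
    · simp [ind, hx]
    · intro T hT
      have : ¬HasTr x T := fun h => hx (by rw [(h12 x T h).2.2.1, ((h4 ι T).1 hT).2])
      simp [ind, this]

theorem box_sub (hG : St_GEO1) (S : Dy) : box S ⊆ box [] := (hG.2.2.2.2.1 S []).2 List.nil_suffix

theorem ball_sub (hG : St_GEO1) {z : ℂ} {d : ℝ} (h : closedBall z d ⊆ box []) (W : Dy) :
    closedBall (zS W z) (d * side W) ⊆ box W := by
  intro y hy
  have hs := (hG.1 W).1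
  have hs' : (side W : ℂ) ≠ 0 := by exact_mod_cast hs.ne'
  have e := (hG.2.2.1 [] W).2.2
  rw [List.nil_append] at e
  rw [e]
  refine ⟨(y - corner W) / side W, h ?_, by simp only [zS]; field_simp; ring⟩
  rw [mem_closedBall, dist_eq_norm] at hy ⊢
  have e2 : (y - corner W) / side W - z = (y - zS W z) / side W := by
    simp only [zS]; field_simp; ring
  rw [e2, norm_div, Complex.norm_real, Real.norm_of_nonneg hs.le, div_le_iff₀ hs]
  exact hy

theorem sq_ball {d0 : ℝ} {z : ℂ} (hz : z ∈ sq d0) : closedBall z d0 ⊆ box [] := by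
  intro y hy
  rw [mem_closedBall, dist_eq_norm] at hy
  have h1 := abs_le.1 ((Complex.abs_re_le_norm (y - z)).trans hy)
  have h2 := abs_le.1 ((Complex.abs_im_le_norm (y - z)).trans hy)
  simp only [Complex.sub_re, Complex.sub_im] at h1 h2
  obtain ⟨⟨a1, a2⟩, a3, a4⟩ := hz
  simp only [box, corner, side, List.length_nil, pow_zero, Complex.zero_re, Complex.zero_im,
    zero_add, mem_ofPred_eq, mem_Icc]
  refine ⟨⟨?_, ?_⟩, ?_, ?_⟩ <;> linarith [h1.1, h1.2, h2.1, h2.2]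

theorem int_const {μ : Measure ℂ} (hμ : PFE μ) {s : Set ℂ} (hs : μ sᶜ = 0) {φ : ℂ → ℝ} {c : ℝ}
    (h : ∀ x ∈ s, φ x = c) : ∫ x, φ x ∂μ = c := by
  have := hμ.2
  have h1 : ∀ᵐ x ∂μ, x ∈ s := hs
  rw [integral_congr_ae (g := fun _ => c) (h1.mono h)]
  simp

/-- zero mass combinations supported in `box A` -/
theorem comb_zero (hFE : St_FE) (hG : St_GEO1) (M : Model) {z : ℂ} {d : ℝ} (hd : 0 < d)
    (hz : closedBall z d ⊆ box []) (S A : Dy) (τ : Finset Dy) (lam : lvs τ → ℝ)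
    (hl : ∑ B, lam B = 1) (v : HH) (c : ℝ)
    (hv : ∀ μ, PFE μ → μ (box A)ᶜ = 0 → ⟪M.e μ, v⟫ = c) :
    ⟪M.Yv (zS (S ++ A) z) (d * side (S ++ A)) - ∑ B : lvs τ, lam B • M.eS (B ++ A), v⟫ = 0 := by
  have hs := (hG.1 (S ++ A)).1
  have hb : ∀ W, box (W ++ A) ⊆ box A := fun W =>
    (hG.2.2.2.2.1 _ _).2 (List.suffix_append W A)
  have hdisc : ∀ ρ, 0 < ρ → ρ ≤ d * side (S ++ A) → ⟪M.e (disc (zS (S ++ A) z) ρ), v⟫ = c := by
    intro ρ h0 h1
    obtain ⟨-, -, h2, h3⟩ := hFE.2.2.2.2.2.2.2.2.1 (zS (S ++ A) z) ρ h0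
    exact hv _ h2 (measure_mono_null (compl_subset_compl.2 ((closedBall_subset_closedBall h1).trans
      ((ball_sub hG hz _).trans (hb S)))) h3)
  have hu : ∀ W, ⟪M.eS (W ++ A), v⟫ = c := fun W =>
    hv _ (hFE.2.2.2.2.2.2.2.1 _).1
      (measure_mono_null (compl_subset_compl.2 (hb W)) (hFE.2.2.2.2.2.2.2.1 _).2)
  have hp := mul_pos hd hs
  rw [Model.Yv, inner_sub_left, inner_sub_left, sum_inner, real_inner_smul_left,
    real_inner_smul_left, hdisc _ (by linarith) (by linarith), hdisc _ hp le_rfl]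
  simp only [real_inner_smul_left, hu, ← Finset.sum_mul, hl]
  ring

theorem exists_eps (hP1 : St_P1) (hMOD : St_MOD) (hBMP : St_BMP) (hYV : St_YV) (hFE : St_FE)
    (hG : St_GEO1) (hT1 : St_T1) (hS0 : St_SCR0) {g : Met} {M : Model} (hL : Lnk g M) {i0 : ℕ}
    (hOk : M.Ok i0) {z : ℂ} {d : ℝ} (hd : 0 < d) (hz : closedBall z d ⊆ box []) {K D : ℕ}
    {τ : Finset Dy} {S A : Dy} (hτ : IsTr τ) (hGood : Good K D τ S) {b : ℝ} {φ : ℂ → ℝ}
    (h1 : LipC φ) (h2 : tsupport φ ⊆ interior (box A))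
    (h3 : ∀ B ∈ lvs τ, ∫ x, φ x ∂unif (B ++ A) = 0)
    (h4 : ∃ ν' : ℝ, ∀ B ∈ lvs τ, ⟪M.Yv (zS (S ++ A) z) (d * side (S ++ A)) -
        ∑ B' : lvs τ, lamL τ (zS S z) B' • M.eS (B' ++ A), M.eS (B ++ A)⟫ = ν')
    (h5 : ‖M.Yv (zS (S ++ A) z) (d * side (S ++ A)) -
        ∑ B : lvs τ, lamL τ (zS S z) B • M.eS (B ++ A) - gr φ‖ ≤ b) :
    ∃ e : HH, (‖e‖ ≤ b ∧ (∃ ν' : ℝ, ∀ B ∈ lvs τ, ⟪e, M.eS (B ++ A)⟫ = ν') ∧
        (∀ φ, LipC φ → (∃ c, ∀ᶠ x in 𝓝ˢ (box A), φ x = c) → ⟪e, gr φ⟫ = 0) ∧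
        (∀ S', ¬A <:+ S' → ¬S' <:+ A → ⟪e, M.ub S'⟫ = 0) ∧
        ∀ i : ℕ, i0 ≤ i → i + 2 ≤ A.length → ⟪e, M.eC (ctr A) ((1 / 2 : ℝ) ^ i)⟫ = 0) ∧
      ∀ T, IsTr T → A ∈ T → τ = subT T A → ∀ B ∈ lvs T,
        ⟪e + ∑ B : lvs τ, lamL τ (zS S z) B • M.eS (B ++ A), M.eS B⟫ = g.U B (zS (S ++ A) z) := by
  have hl := (hS0 τ hτ).1 (zS S z)
  have hO : ∀ W, box W ⊆ M.O := fun W => (box_sub hG W).trans hL.sub
  have hφO : tsupport φ ⊆ M.O := h2.trans (interior_subset.trans (hO A))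
  have hU := hFE.2.2.2.2.2.2.2.1
  have heg : ∀ W, ⟪gr φ, M.eS W⟫ = ∫ x, φ x ∂unif W := fun W => by
    rw [real_inner_comm]; exact M.eg _ φ (hU W).1.1 h1 hφO
  have hφ0 : ∀ W, ¬A <:+ W → ¬W <:+ A → ∀ x ∈ box W, φ x = 0 := by
    intro W a1 a2 x hx
    by_contra hne
    exact Set.disjoint_left.1 (hG.2.2.2.2.2.1 A W a1 a2).1 (h2 (subset_tsupport _ hne)) hx
  refine ⟨_, ⟨h5, ?_, fun ψ hψ ⟨c, hc⟩ => ?_, fun S' a1 a2 => ?_, fun i a1 a2 => ?_⟩,
    fun T hT hA e B hB => ?_⟩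
  · obtain ⟨ν', h⟩ := h4
    exact ⟨ν', fun B hB => by rw [inner_sub_left, h B hB, heg, h3 B hB, sub_zero]⟩
  · rw [inner_sub_left, comb_zero hFE hG M hd hz S A τ _ hl _ ⟪M.eS A, gr ψ⟫, real_inner_comm,
      hP1.2.2.2.2.2.1 ψ φ (hP1.1 ψ hψ) (hP1.1 φ h1), sub_zero]
    · intro x hx
      exact ⟨c, (eventually_nhdsSet_iff_forall.1 hc) x (interior_subset (h2 hx))⟩
    · intro μ hμ hμA
      have hc' : ∀ x ∈ box A, ψ x = c := fun x hx =>
        ((eventually_nhdsSet_iff_forall.1 hc) x hx).self_of_nhds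
      have h6 := M.ezg μ (unif A) ψ hμ.1 (hU A).1.1
        (by have := hμ.2; have := (hU A).1.2; simp) hψ
      rw [int_const hμ hμA hc', int_const (hU A).1 (hU A).2 hc', sub_self, inner_sub_left] at h6
      exact sub_eq_zero.1 h6
  · obtain ⟨-, E, C, -, -, hb1, hb2⟩ := hBMP
    rw [inner_sub_left, comb_zero hFE hG M hd hz S A τ _ hl _ 0, real_inner_comm,
      (hb2 M).2.2.2.2.2.2.1 S' φ h1 ⟨0, hφ0 S' a1 a2⟩, sub_zero]
    intro μ hμ hμA
    rw [real_inner_comm, (hb2 M).1 S' (hO S') μ hμ.1]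
    refine int_const hμ hμA fun x hx => (hb1 S').2.2.1 x ?_
    by_contra hlt
    have hs := (hG.1 S').1
    refine Set.disjoint_left.1 (hG.2.2.2.2.2.1 S' A a2 a1).1 ?_ hx
    refine interior_mono (hG.2.2.2.1 S').2.2.2.2 (ball_subset_interior_closedBall ?_)
    rw [mem_ball, dist_eq_norm]
    linarith [not_le.1 hlt]
  · have hr : (0 : ℝ) < (1 / 2) ^ i := by positivity
    have hs := (hG.1 A).1
    have hside : 4 * side A ≤ (1 / 2 : ℝ) ^ i := by
      have : side A ≤ (1 / 2 : ℝ) ^ (i + 2) := pow_le_pow_of_le_one (by norm_num) (by norm_num) a2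
      rw [pow_add] at this
      linarith
    have hbO : closedBall (ctr A) ((1 / 2 : ℝ) ^ i) ⊆ M.O :=
      (closedBall_subset_closedBall (pow_le_pow_of_le_one (by norm_num) (by norm_num) a1)).trans
        (hOk.1 _ (box_sub hG A (hG.2.2.2.1 A).2.2.1))
    obtain ⟨c1, c2, -⟩ := hFE.2.2.2.2.2.2.2.2.1 (ctr A) _ hr
    rw [inner_sub_left, comb_zero hFE hG M hd hz S A τ _ hl _
      ⟪M.eC (ctr A) ((1 / 2 : ℝ) ^ i), M.eC (ctr A) ((1 / 2 : ℝ) ^ i)⟫, real_inner_comm,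
      Model.eC, M.eg _ φ c1.1 h1 hφO, int_const c1 c2 (c := 0), sub_zero]
    · intro x hx
      by_contra hne
      have h6 := (hG.2.2.2.1 A).2.2.2.1 x (interior_subset (h2 (subset_tsupport _ hne)))
      rw [mem_sphere, dist_eq_norm] at hx
      linarith
    · intro μ hμ hμA
      have h6 := (hMOD M).2.2.2.2.2.2.2.2.2.1 (ctr A) _ _ μ hr le_rfl hμ
        (measure_mono_null (compl_subset_compl.2 fun y hy => ?_) hμA) hbO
      · rw [inner_sub_left] at h6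
        exact sub_eq_zero.1 h6
      · rw [mem_closedBall, dist_eq_norm]
        linarith [(hG.2.2.2.1 A).2.2.2.1 y hy]
  · subst e
    have hSA : S ++ A ∈ lvs T := (lvs_subT hT1 hT hA S).1 hGood.1
    obtain ⟨C, hY⟩ := hYV
    have hball := ball_sub hG hz (S ++ A)
    have hp := mul_pos hd (hG.1 (S ++ A)).1
    have h6 := (hY M (S ++ A) _ _ hL.sub hp hball).1 B (by
      by_cases h : S ++ A <:+ B
      · exact Or.inl (hT1.2.2.2.2.2.2.2.2.1 T hT _ hSA _ hB h ▸ List.suffix_refl _)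
      · exact Or.inr h)
    have h7 : ∫ x, φ x ∂unif B = 0 := by
      by_cases h : A <:+ B
      · obtain ⟨W, rfl⟩ := h
        exact h3 W ((lvs_subT hT1 hT hA W).2 hB)
      · refine int_const (hU B).1 (hU B).2 (hφ0 B h fun h' => ?_)
        exact ((hT1.2.2.2.2.2.2.2.1 T hT B).1 hB).1 (hT A hA B h')
    rw [sub_right_comm, sub_add_cancel, inner_sub_left, h6, heg, h7, hL.U,
      M.bg0 _ (hO _ (hball (mem_closedBall_self hp.le)))]

theorem kloc_eq (hS0 : St_SCR0) (M : Model) (γ : ℝ) {τ : Finset Dy} (hτ : IsTr τ) (A : Dy)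
    (z : ℂ) (ω : Om) :
    kloc (QQ γ) τ (sub (M.X γ 0 ω) A) z =
      ω (∑ B : lvs τ, lamL τ z B • M.eS (B ++ A)) - QQ γ * A.length * l2 := by
  have hl := (hS0 τ hτ).1 z
  simp only [kloc, sub, Model.X, drift, map_sum, map_smul, smul_eq_mul, List.length_append,
    Nat.cast_add]
  conv_rhs => rw [← one_mul (QQ γ * A.length * l2), ← hl, Finset.sum_mul, ← Finset.sum_sub_distrib]
  exact Finset.sum_congr rfl fun B _ => by ring

end H4

end

end Pool.Agent.Lib.APPS
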