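import Pool.Agent.Lib.APPS.Blue3

/-!
Block LAT, analytic helper lemmas.
-/

namespace Pool.Agent.Lib.APPS

open MeasureTheory ProbabilityTheory Filter Topology Set Metric
open scoped NNReal ENNReal RealInnerProductSpace Classical

noncomputable section

namespace LAT

theorem log_near {z : ℂ} {δ : ℝ} (h : ‖z - 1‖ ≤ δ) (hδ : δ ≤ 1 / 2) :
    |Real.log ‖z‖| ≤ 2 * δ := by
  have h0 : 0 ≤ δ := (norm_nonneg _).trans h
  have h1 : |‖z‖ - 1| ≤ δ := by
    have := abs_norm_sub_norm_le z 1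
    rw [norm_one] at this
    exact this.trans h
  obtain ⟨a, b⟩ := abs_le.1 h1
  have hz : 0 < ‖z‖ := by linarith
  rw [abs_le]
  constructor
  · have := Real.one_sub_inv_le_log_of_pos hz
    have e : ‖z‖⁻¹ ≤ 1 + 2 * δ := by
      rw [inv_le_iff_one_le_mul₀ hz]
      nlinarith
    linarith
  · linarith [Real.log_le_sub_one_of_pos hz]

theorem log_sinh {x : ℂ} (h0 : x ≠ 0) (h1 : ‖x‖ ≤ 1) :
    Complex.exp x - Complex.exp (-x) ≠ 0 ∧
      |Real.log ‖Complex.exp x - Complex.exp (-x)‖ - Real.log ‖2 * x‖| ≤ ‖x‖ := by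
  have a := Complex.exp_bound h1 (n := 3) (by norm_num)
  have b := Complex.exp_bound (x := -x) (by rwa [norm_neg]) (n := 3) (by norm_num)
  simp only [Finset.sum_range_succ, Finset.range_zero, Finset.sum_empty, Nat.factorial,
    norm_neg] at a b
  have hx : 0 < ‖x‖ := norm_pos_iff.2 h0
  have c : ‖Complex.exp x - Complex.exp (-x) - 2 * x‖ ≤ ‖x‖ / 2 * ‖2 * x‖ := by
    refine le_trans (le_of_eq ?_) ((norm_sub_le_of_le a b).trans ?_)
    · congr 1
      push_cast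
      ring
    · rw [norm_mul, Complex.norm_two]
      have : ‖x‖ ^ 3 ≤ ‖x‖ ^ 2 := pow_le_pow_of_le_one hx.le h1 (by norm_num)
      push_cast
      nlinarith
  have h2 : (2 * x) ≠ 0 := mul_ne_zero two_ne_zero h0
  have h2' : 0 < ‖2 * x‖ := norm_pos_iff.2 h2
  have d : ‖(Complex.exp x - Complex.exp (-x)) / (2 * x) - 1‖ ≤ ‖x‖ / 2 := by
    rw [div_sub_one h2, norm_div, div_le_iff₀ h2']
    exact c
  have hne : Complex.exp x - Complex.exp (-x) ≠ 0 := by
    intro h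
    rw [h] at d
    simp at d
    linarith
  refine ⟨hne, ?_⟩
  have e := log_near d (by linarith)
  rw [norm_div, Real.log_div (norm_ne_zero_iff.2 hne) h2'.ne'] at e
  linarith

theorem log_exp_sub {u u' : ℂ} {ε : ℝ} (hu : ‖u‖ ≤ 1) (hu' : ‖u'‖ ≤ 1) (hne : u ≠ u')
    (h0 : 0 < ε) (h1 : ε ≤ 1) :
    |Real.log ‖Complex.exp (-(ε * u)) - Complex.exp (-(ε * u'))‖ -
      (Real.log ε + Real.log ‖u - u'‖)| ≤ 2 * ε := by
  set x : ℂ := ε * (u' - u) / 2 with hx
  set y : ℂ := -(ε * (u + u') / 2) with hy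
  have hε : (ε : ℂ) ≠ 0 := by exact_mod_cast h0.ne'
  have hd : u' - u ≠ 0 := sub_ne_zero.2 hne.symm
  have hn : ∀ z : ℂ, ‖z‖ ≤ 2 → ‖(ε : ℂ) * z / 2‖ ≤ ε := fun z hz => by
    rw [norm_div, norm_mul, Complex.norm_real, Real.norm_of_nonneg h0.le, Complex.norm_two]
    nlinarith
  have hx1 : ‖x‖ ≤ ε := hn _ ((norm_sub_le _ _).trans (by linarith))
  have hy1 : ‖y‖ ≤ ε := by
    rw [hy, norm_neg]; exact hn _ ((norm_add_le _ _).trans (by linarith))
  obtain ⟨a, b⟩ := log_sinh (x := x) (div_ne_zero (mul_ne_zero hε hd) two_ne_zero) (hx1.trans h1)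
  have e : Complex.exp (-(ε * u)) - Complex.exp (-(ε * u')) =
      Complex.exp y * (Complex.exp x - Complex.exp (-x)) := by
    rw [mul_sub, ← Complex.exp_add, ← Complex.exp_add]
    congr 2 <;> simp only [hx, hy] <;> ring
  have e2 : Real.log ‖2 * x‖ = Real.log ε + Real.log ‖u - u'‖ := by
    rw [show 2 * x = ε * (u' - u) by rw [hx]; ring, norm_mul, Complex.norm_real,
      Real.norm_of_nonneg h0.le, Real.log_mul h0.ne' (norm_ne_zero_iff.2 hd), norm_sub_rev]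
  rw [e, norm_mul, Real.log_mul (norm_ne_zero_iff.2 (Complex.exp_ne_zero _))
    (norm_ne_zero_iff.2 a), Complex.norm_exp, Real.log_exp, ← e2, add_sub_assoc]
  have := Complex.abs_re_le_norm y
  exact (abs_add_le _ _).trans (by linarith)

/-- integrability on a product from one-sided bounds -/
theorem int_prod {α β : Type} [MeasurableSpace α] [MeasurableSpace β] (μ : Measure α)
    (ν : Measure β) [IsFiniteMeasure μ] [IsProbabilityMeasure ν] (f : α × β → ℝ)
    (hf : Measurable f) (C B : ℝ) (h : ∀ᵐ a ∂μ, Integrable (fun b => f (a, b)) ν ∧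
      (∀ᵐ b ∂ν, f (a, b) ≤ C) ∧ -B ≤ ∫ b, f (a, b) ∂ν) : Integrable f (μ.prod ν) := by
  rw [integrable_prod_iff hf.aestronglyMeasurable]
  refine ⟨h.mono fun a ha => ha.1, ?_⟩
  refine Integrable.of_bound hf.norm.stronglyMeasurable.integral_prod_right'.aestronglyMeasurable
    (2 * |C| + B) (h.mono fun a ha => ?_)
  rw [Real.norm_of_nonneg (integral_nonneg fun _ => norm_nonneg _)]
  have : ∫ b, ‖f (a, b)‖ ∂ν ≤ ∫ b, (2 * |C| - f (a, b)) ∂ν := by
    refine integral_mono_ae ha.1.norm ((integrable_const _).sub ha.1) (ha.2.1.mono fun b hb => ?_)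
    have := le_abs_self C
    have := abs_nonneg C
    simp only [Real.norm_eq_abs]
    rw [abs_le]
    constructor <;> linarith
  rw [integral_sub (integrable_const _) ha.1] at this
  simp only [integral_const, probReal_univ, smul_eq_mul, one_mul] at this
  linarith [ha.2.2]

theorem ae_ne {α : Type} [MeasurableSpace α] (μ : Measure α) (ν : Measure ℂ) [SFinite ν]
    (hν : ∀ x, ν {x} = 0) {g : α → ℂ} (hg : Measurable g) :
    ∀ᵐ p ∂μ.prod ν, g p.1 ≠ p.2 := by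
  rw [Measure.ae_prod_iff_ae_ae]
  · refine Eventually.of_forall fun a => ?_
    rw [ae_iff]
    simpa using hν (g a)
  · exact (measurableSet_eq_fun (hg.comp measurable_fst) measurable_snd).compl

theorem ae_ball {μ : Measure ℂ} {c : ℂ} {r : ℝ} (h : μ (closedBall c r)ᶜ = 0) :
    ∀ᵐ x ∂μ, ‖x - c‖ ≤ r := by
  have : ∀ᵐ x ∂μ, x ∈ closedBall c r := h
  simpa [dist_eq_norm] using this

theorem m_log : Measurable fun p : ℂ × ℂ => Real.log ‖p.1 - p.2‖ := by fun_prop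

theorem Ie_map {α β : Type} [MeasurableSpace α] [MeasurableSpace β] (μ : Measure α)
    (ν : Measure β) [SFinite μ] [SFinite ν] {f : α → ℂ} {g : β → ℂ} (hf : Measurable f)
    (hg : Measurable g) :
    Ie (μ.map f) (ν.map g) = ∫ p, -Real.log ‖f p.1 - g p.2‖ ∂μ.prod ν := by
  rw [Ie, Measure.map_prod_map _ _ hf hg]
  exact integral_map (hf.prodMap hg).aemeasurable m_log.neg.aestronglyMeasurable

theorem int_map {α β : Type} [MeasurableSpace α] [MeasurableSpace β] (μ : Measure α)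
    (ν : Measure β) [SFinite μ] [SFinite ν] {f : α → ℂ} {g : β → ℂ} (hf : Measurable f)
    (hg : Measurable g) :
    Integrable (fun p : ℂ × ℂ => Real.log ‖p.1 - p.2‖) ((μ.map f).prod (ν.map g)) ↔
      Integrable (fun p : α × β => Real.log ‖f p.1 - g p.2‖) (μ.prod ν) := by
  rw [Measure.map_prod_map _ _ hf hg, integrable_map_measure m_log.aestronglyMeasurable
    (hf.prodMap hg).aemeasurable]
  rfl

theorem log_max_lip {s s' δ : ℝ} (hδ : 0 < δ) :
    Real.log (max s δ) ≤ Real.log (max s' δ) + |s - s'| / δ := by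
  have a : 0 < max s δ := lt_max_of_lt_right hδ
  have b : 0 < max s' δ := lt_max_of_lt_right hδ
  have c := Real.log_le_sub_one_of_pos (div_pos a b)
  rw [Real.log_div a.ne' b.ne', div_sub_one b.ne'] at c
  have d : (max s δ - max s' δ) / max s' δ ≤ |s - s'| / δ :=
    (div_le_div_of_nonneg_right ((le_abs_self _).trans (abs_max_sub_max_le_abs _ _ _)) b.le).trans
      (div_le_div_of_nonneg_left (abs_nonneg _) hδ (le_max_right _ _))
  linarith

theorem lsc (hFE : St_FE) {μ : Measure ℂ} (hμ : PFE μ) {η : ℝ} (hη : 0 < η) :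
    ∀ᶠ a : ℂ in 𝓝 1, Ie μ μ - η ≤ Ie (μ.map fun x => 0 + a * x) μ := by
  have := hμ.2
  obtain ⟨r, hr⟩ := hμ.1.bdd
  have hne := ae_ne μ μ hμ.1.noAtoms measurable_id
  have hm : ∀ δ : ℝ, Measurable fun p : ℂ × ℂ => -Real.log (max ‖p.1 - p.2‖ δ) := by fun_prop
  have hb : ∀ δ : ℝ, 0 < δ → δ ≤ 1 → ∀ᵐ p : ℂ × ℂ ∂μ.prod μ,
      ‖-Real.log (max ‖p.1 - p.2‖ δ)‖ ≤ ‖Real.log ‖p.1 - p.2‖‖ := fun δ h0 h1 =>
    hne.mono fun p hp => by
      have hp' : 0 < ‖p.1 - p.2‖ := norm_pos_iff.2 (sub_ne_zero.2 hp)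
      rw [norm_neg]
      rcases le_total δ ‖p.1 - p.2‖ with h | h
      · rw [max_eq_left h]
      · rw [max_eq_right h, Real.norm_eq_abs, Real.norm_eq_abs, abs_of_nonpos (Real.log_nonpos h0.le h1),
          abs_of_nonpos (Real.log_nonpos hp'.le (h.trans h1))]
        linarith [Real.log_le_log hp' h]
  have hδ : ∀ n : ℕ, (0 : ℝ) < 1 / ((n : ℝ) + 1) ∧ 1 / ((n : ℝ) + 1) ≤ 1 := fun n =>
    ⟨by positivity, by rw [div_le_one (by positivity)]; linarith [(Nat.cast_nonneg n : (0 : ℝ) ≤ n)]⟩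
  have hlim : Tendsto (fun n : ℕ => ∫ p : ℂ × ℂ, -Real.log (max ‖p.1 - p.2‖ (1 / ((n : ℝ) + 1)))
      ∂μ.prod μ) atTop (𝓝 (Ie μ μ)) := by
    refine tendsto_integral_of_dominated_convergence _ (fun n => (hm _).aestronglyMeasurable)
      hμ.1.energy.norm (fun n => hb _ (hδ n).1 (hδ n).2) (hne.mono fun p hp => ?_)
    have hp' : 0 < ‖p.1 - p.2‖ := norm_pos_iff.2 (sub_ne_zero.2 hp)
    refine tendsto_const_nhds.congr' ?_
    filter_upwards [tendsto_one_div_add_atTop_nhds_zero_nat.eventually (ge_mem_nhds hp')] with n hn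
    rw [max_eq_left hn]
  obtain ⟨n, hn⟩ := (hlim.eventually (le_mem_nhds (show Ie μ μ - η / 2 < Ie μ μ by linarith))).exists
  obtain ⟨h0, h1⟩ := hδ n
  set δ : ℝ := 1 / ((n : ℝ) + 1)
  have hc : Tendsto (fun a : ℂ => ‖a - 1‖ * |r| / δ) (𝓝 1) (𝓝 (‖(1 : ℂ) - 1‖ * |r| / δ)) :=
    Continuous.tendsto (by fun_prop) _
  simp only [sub_self, norm_zero, zero_mul, zero_div] at hc
  filter_upwards [hc.eventually (ge_mem_nhds (half_pos hη)), eventually_ne_nhds one_ne_zero]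
    with a ha ha0
  have hmf : Measurable fun x : ℂ => 0 + a * x := by fun_prop
  have hI := hFE.1 _ _ (hFE.2.2.2.2.2.2.2.2.2.2.1 μ 0 a ha0 hμ).1 hμ.1
  have e := Ie_map μ μ hmf measurable_id
  rw [Measure.map_id] at e
  have hI' := (int_map μ μ hmf measurable_id).1 (by rwa [Measure.map_id])
  have hJ : Integrable (fun p : ℂ × ℂ => -Real.log (max ‖p.1 - p.2‖ δ)) (μ.prod μ) :=
    hμ.1.energy.norm.mono' (hm δ).aestronglyMeasurable (hb δ h0 h1)
  have key : ∫ p : ℂ × ℂ, (-Real.log (max ‖p.1 - p.2‖ δ) - η / 2) ∂μ.prod μ ≤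
      ∫ p : ℂ × ℂ, -Real.log ‖0 + a * p.1 - id p.2‖ ∂μ.prod μ := by
    refine integral_mono_ae (hJ.sub (integrable_const _)) hI'.neg ?_
    filter_upwards [ae_ne μ μ hμ.1.noAtoms hmf,
      Measure.quasiMeasurePreserving_fst.ae (ae_ball hr)] with p hp hp1
    have h2 := Real.log_le_log (norm_pos_iff.2 (sub_ne_zero.2 hp)) (le_max_left _ δ)
    have h3 := log_max_lip (s := ‖0 + a * p.1 - p.2‖) (s' := ‖p.1 - p.2‖) h0
    have h4 : |‖0 + a * p.1 - p.2‖ - ‖p.1 - p.2‖| / δ ≤ ‖a - 1‖ * |r| / δ := by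
      refine div_le_div_of_nonneg_right ((abs_norm_sub_norm_le _ _).trans ?_) h0.le
      rw [show 0 + a * p.1 - p.2 - (p.1 - p.2) = (a - 1) * p.1 by ring, norm_mul]
      rw [sub_zero] at hp1
      exact mul_le_mul_of_nonneg_left (hp1.trans (le_abs_self r)) (norm_nonneg _)
    simp only [id]
    linarith
  rw [integral_sub hJ (integrable_const _)] at key
  simp only [integral_const, probReal_univ, smul_eq_mul, one_mul] at key
  rw [e]
  linarith

theorem cont (hFE : St_FE) (hMOD : St_MOD) (M : Model) {μ : Measure ℂ} (hμ : PFE μ) :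
    Tendsto (fun a : ℂ => M.e (μ.map fun x => 0 + a * x)) (𝓝 1) (𝓝 (M.e μ)) := by
  rw [Metric.tendsto_nhds]
  intro ε hε
  have hc : Tendsto (fun a : ℂ => -Real.log ‖a‖) (𝓝 1) (𝓝 (-Real.log ‖(1 : ℂ)‖)) :=
    (continuous_norm.continuousAt.log (by simp)).neg
  simp only [norm_one, Real.log_one, neg_zero] at hc
  filter_upwards [lsc hFE hμ (show 0 < ε ^ 2 / 4 by positivity), eventually_ne_nhds one_ne_zero,
    hc.eventually (gt_mem_nhds (show 0 < ε ^ 2 / 2 by positivity))] with a h1 h0 h2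
  have hp := hFE.2.2.2.2.2.2.2.2.2.2.1 μ 0 a h0 hμ
  have e := (hMOD M).2.2.2.2.1 _ _ _ _ hp hμ hp hμ
  rw [real_inner_self_eq_norm_sq, hFE.2.2.2.2.2.2.2.2.2.2.2 μ μ 0 a h0 hμ hμ,
    (hFE.2.2.2.2.1 μ _ hμ.1 hp.1).1] at e
  rw [dist_eq_norm]
  refine lt_of_pow_lt_pow_left₀ 2 hε.le ?_
  linarith

end LAT

end

end Pool.Agent.Lib.APPS
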