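import Pool.Agent.Lib.APPS.B_LATa

/-!
Block LAT, rotational averages.
-/

namespace Pool.Agent.Lib.APPS

open MeasureTheory ProbabilityTheory Filter Topology Set Metric
open scoped NNReal ENNReal RealInnerProductSpace Classical

noncomputable section

namespace LAT

/-- rotational average of a measure on the cylinder, seen in the plane -/
def rot (m : Measure Cyl) : Measure ℂ :=
  (m.prod (circ 0 1)).map fun q => ((Real.exp (-q.1.1) : ℝ) : ℂ) * q.2

/-- radial potential -/
def HP (m : Measure Cyl) (s : ℝ) : ℝ := ∫ v, -Real.log (max s (Real.exp (-v.1))) ∂m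

theorem m_rot : Measurable fun q : Cyl × ℂ => ((Real.exp (-q.1.1) : ℝ) : ℂ) * q.2 := by fun_prop

theorem abs_int {α : Type} [MeasurableSpace α] (μ : Measure α) [IsProbabilityMeasure μ]
    {f : α → ℝ} (hf : AEStronglyMeasurable f μ) {c ε : ℝ} (h : ∀ᵐ x ∂μ, |f x - c| ≤ ε) :
    Integrable f μ ∧ |∫ x, f x ∂μ - c| ≤ ε := by
  have h1 : Integrable (fun x => f x - c) μ :=
    Integrable.of_bound (hf.sub aestronglyMeasurable_const) ε h
  have h2 : Integrable f μ :=
    (h1.add (integrable_const c)).congr (Eventually.of_forall fun x => sub_add_cancel _ _)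
  refine ⟨h2, ?_⟩
  have := norm_integral_le_of_norm_le_const (μ := μ) (f := fun x => f x - c) h
  rw [integral_sub h2 (integrable_const _)] at this
  simpa using this

theorem log_max_exp (s t : ℝ) : -Real.log (max (Real.exp (-s)) (Real.exp (-t))) = min s t := by
  rcases le_total s t with h | h
  · rw [max_eq_left (Real.exp_le_exp.2 (by linarith)), Real.log_exp, min_eq_left h, neg_neg]
  · rw [max_eq_right (Real.exp_le_exp.2 (by linarith)), Real.log_exp, min_eq_right h, neg_neg]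

theorem HP_exp (m : Measure Cyl) (t : ℝ) : HP m (Real.exp (-t)) = ∫ v, min t v.1 ∂m := by
  simp only [HP, log_max_exp]

theorem m_HP (m : Measure Cyl) [SFinite m] : Measurable (HP m) := by
  have : Measurable fun p : ℝ × Cyl => -Real.log (max p.1 (Real.exp (-p.2.1))) := by fun_prop
  exact this.stronglyMeasurable.integral_prod_right'.measurable

theorem ae_circ (hFE : St_FE) {r : ℝ} (hr : 0 < r) : ∀ᵐ ζ ∂circ 0 r, ‖ζ‖ = r := by
  have : ∀ᵐ x ∂circ 0 r, x ∈ sphere (0 : ℂ) r := (hFE.2.2.2.2.2.2.2.2.1 0 r hr).2.1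
  simpa using this

theorem pfe_circ (hFE : St_FE) {r : ℝ} (hr : 0 < r) : PFE (circ 0 r) :=
  (hFE.2.2.2.2.2.2.2.2.1 0 r hr).1

theorem circ_log (hE : St_EXP1) (x : ℂ) {r : ℝ} (hr : 0 < r) :
    Integrable (fun ζ : ℂ => Real.log ‖x - r * ζ‖) (circ 0 1) ∧
      ∫ ζ, Real.log ‖x - r * ζ‖ ∂circ 0 1 = Real.log (max ‖x‖ r) := by
  have h1 := hE.1 x 0 r hr
  have h2 := (hE.2.1 0 1 0 r hr).1
  simp only [zero_add, mul_zero, mul_one] at h2
  have hm : Measurable fun ζ : ℂ => (r : ℂ) * ζ := by fun_prop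
  have hl : Measurable fun y : ℂ => Real.log ‖x - y‖ := by fun_prop
  rw [← h2, integrable_map_measure hl.aestronglyMeasurable hm.aemeasurable,
    integral_map hm.aemeasurable hl.aestronglyMeasurable, sub_zero] at h1
  exact h1

section

variable (hFE : St_FE) (hE : St_EXP1) {m : Measure Cyl} [IsProbabilityMeasure m] {B : ℝ}
  (hB : ∀ᵐ v ∂m, |v.1| ≤ B)

include hFE in
theorem int_rot {h : ℝ → ℝ} (hh : Measurable h) :
    ∫ x, h ‖x‖ ∂rot m = ∫ v, h (Real.exp (-v.1)) ∂m := by
  have := (pfe_circ hFE one_pos).2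
  have hn : Measurable fun x : ℂ => h ‖x‖ := hh.comp measurable_norm
  rw [rot, integral_map m_rot.aemeasurable hn.aestronglyMeasurable]
  have e := integral_fun_fst (μ := m) (ν := circ 0 1) fun v : Cyl => h (Real.exp (-v.1))
  rw [probReal_univ, one_smul] at e
  rw [← e]
  refine integral_congr_ae ?_
  filter_upwards [Measure.quasiMeasurePreserving_snd.ae (ae_circ hFE one_pos)] with q hq
  simp only [norm_mul, hq, Complex.norm_real, Real.norm_of_nonneg (Real.exp_pos _).le, mul_one]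

include hFE hE hB in
theorem pot (x : ℂ) : Integrable (fun y => Real.log ‖x - y‖) (rot m) ∧
    ∫ y, -Real.log ‖x - y‖ ∂rot m = HP m ‖x‖ ∧ HP m ‖x‖ ≤ B := by
  have := (pfe_circ hFE one_pos).2
  have hl : Measurable fun y : ℂ => Real.log ‖x - y‖ := by fun_prop
  have hlow : ∀ᵐ v ∂m, -B ≤ Real.log (max ‖x‖ (Real.exp (-v.1))) := hB.mono fun v hv => by
    have := Real.log_le_log (Real.exp_pos (-v.1)) (le_max_right ‖x‖ _)
    rw [Real.log_exp] at this
    linarith [(abs_le.1 hv).2]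
  have hI : Integrable (fun q : Cyl × ℂ => Real.log ‖x - ((Real.exp (-q.1.1) : ℝ) : ℂ) * q.2‖)
      (m.prod (circ 0 1)) := by
    refine int_prod m _ _ (hl.comp m_rot) (‖x‖ + Real.exp B) B ?_
    filter_upwards [hB, hlow] with v hv hv'
    have h1 := circ_log hE x (Real.exp_pos (-v.1))
    refine ⟨h1.1, (ae_circ hFE one_pos).mono fun ζ hζ => ?_, h1.2 ▸ hv'⟩
    refine (Real.log_le_self (norm_nonneg _)).trans ((norm_sub_le _ _).trans ?_)
    simp only [norm_mul, hζ, Complex.norm_real, Real.norm_of_nonneg (Real.exp_pos _).le, mul_one]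
    linarith [Real.exp_le_exp.2 (show -v.1 ≤ B by linarith [(abs_le.1 hv).1])]
  have hJ := hI.integral_prod_left
  simp only [(circ_log hE x (Real.exp_pos _)).2] at hJ
  refine ⟨(integrable_map_measure hl.aestronglyMeasurable m_rot.aemeasurable).2 hI, ?_, ?_⟩
  · rw [integral_neg, rot, integral_map m_rot.aemeasurable hl.aestronglyMeasurable,
      integral_prod _ hI, HP, integral_neg]
    simp only [(circ_log hE x (Real.exp_pos _)).2]
  · have := integral_mono_ae hJ.neg (integrable_const B) (hlow.mono fun v hv => by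
      simp only [Pi.neg_apply]; linarith)
    simpa [HP] using this

include hFE hE hB in
theorem pfe_rot : PFE (rot m) := by
  have hc := pfe_circ hFE one_pos
  have := hc.2
  have hp : IsProbabilityMeasure (rot m) := Measure.isProbabilityMeasure_map m_rot.aemeasurable
  have hb : ∀ᵐ y ∂rot m, ‖y‖ ≤ Real.exp B := by
    rw [rot, ae_map_iff m_rot.aemeasurable (measurableSet_le measurable_norm measurable_const)]
    filter_upwards [Measure.quasiMeasurePreserving_snd.ae (ae_circ hFE one_pos),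
      Measure.quasiMeasurePreserving_fst.ae hB] with q hq hq'
    simp only [norm_mul, hq, Complex.norm_real, Real.norm_of_nonneg (Real.exp_pos _).le, mul_one]
    exact Real.exp_le_exp.2 (by linarith [(abs_le.1 hq').1])
  refine ⟨⟨inferInstance, ⟨Real.exp B, ?_⟩, fun x => ?_, ?_⟩, hp⟩
  · have : ∀ᵐ y ∂rot m, y ∈ closedBall (0 : ℂ) (Real.exp B) := by simpa using hb
    exact this
  · rw [rot, Measure.map_apply m_rot (measurableSet_singleton x),
      Measure.measure_prod_null (m_rot (measurableSet_singleton x))]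
    refine Eventually.of_forall fun v => measure_mono_null (fun ζ hζ => ?_)
      (hc.1.noAtoms (x / ((Real.exp (-v.1) : ℝ) : ℂ)))
    have h0 : ((Real.exp (-v.1) : ℝ) : ℂ) ≠ 0 := by exact_mod_cast (Real.exp_pos _).ne'
    have h1 : ((Real.exp (-v.1) : ℝ) : ℂ) * ζ = x := hζ
    rw [mem_singleton_iff, ← h1, mul_div_cancel_left₀ _ h0]
  · refine int_prod _ _ _ m_log (2 * Real.exp B) B (hb.mono fun x hx => ?_)
    obtain ⟨a, b, c⟩ := pot hFE hE hB x
    refine ⟨a, hb.mono fun y hy => (Real.log_le_self (norm_nonneg _)).trans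
      ((norm_sub_le _ _).trans (by linarith)), ?_⟩
    rw [integral_neg] at b
    linarith

include hFE hE hB in
theorem Ie_rot {μ : Measure ℂ} (hμ : FE μ) : Ie μ (rot m) = ∫ x, HP m ‖x‖ ∂μ := by
  rw [(hFE.2.2.2.2.1 μ _ hμ (pfe_rot hFE hE hB).1).2]
  simp only [(pot hFE hE hB _).2.1]

end

theorem int_nu (hC : St_CYL) (m : Measure Cyl) {h : ℝ → ℝ} (hh : Measurable h) :
    ∫ x, h ‖x‖ ∂m.map frC = ∫ v, h (Real.exp (-v.1)) ∂m := by
  have hn : Measurable fun x : ℂ => h ‖x‖ := hh.comp measurable_norm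
  rw [integral_map hC.2.2.1.measurable.aemeasurable hn.aestronglyMeasurable]
  simp only [hC.2.2.2.2.2.1]

theorem Ie_circ (hMOD : St_MOD) (M : Model) (t : ℝ) {μ : Measure ℂ} (hμ : PFE μ) :
    Ie (circ 0 (Real.exp (-t))) μ = ∫ y, -Real.log (max ‖y‖ (Real.exp (-t))) ∂μ := by
  rw [(hMOD M).2.2.2.2.2.2.2.1 0 _ μ (Real.exp_pos _) hμ, integral_neg]
  simp only [sub_zero]

theorem Ie_cc (hFE : St_FE) (hMOD : St_MOD) (M : Model) (s t : ℝ) :
    Ie (circ 0 (Real.exp (-s))) (circ 0 (Real.exp (-t))) = min s t := by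
  have hc := pfe_circ hFE (Real.exp_pos (-t))
  have := hc.2
  rw [Ie_circ hMOD M s hc, integral_congr_ae (g := fun _ => min s t)
    ((ae_circ hFE (Real.exp_pos (-t))).mono fun y hy => by
      simp only [hy, log_max_exp, min_comm])]
  simp

section

variable (hFE : St_FE) (hE : St_EXP1) (hC : St_CYL) {m m' : Measure Cyl} [IsProbabilityMeasure m]
  [IsProbabilityMeasure m'] {B B' : ℝ} (hB : ∀ᵐ v ∂m, |v.1| ≤ B) (hB' : ∀ᵐ v ∂m', |v.1| ≤ B')

include hFE hE hB hB' in
theorem Ie_rr : Ie (rot m) (rot m') = ∫ v, ∫ v', min v.1 v'.1 ∂m' ∂m := by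
  rw [Ie_rot hFE hE hB' (pfe_rot hFE hE hB).1, int_rot hFE (m_HP m')]
  simp only [HP_exp]

include hFE hE hC hB hB' in
theorem Ie_nr (h : FE (m.map frC)) : Ie (m.map frC) (rot m') = Ie (rot m) (rot m') := by
  rw [Ie_rot hFE hE hB' h, int_nu hC m (m_HP m'), Ie_rr hFE hE hB hB']
  simp only [HP_exp]

include hFE hE hC hB hB' in
theorem lat_eq (h : FE (m.map frC)) (h' : FE (m'.map frC)) :
    ∫ w, ∫ w', (-Real.log ‖frC w - frC w'‖ - min w.1 w'.1) ∂m' ∂m =
      Ie (m.map frC) (m'.map frC) - Ie (rot m) (rot m') := by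
  have hf := hC.2.2.1.measurable
  have h1 := ((int_map m m' hf hf).1 (hFE.1 _ _ h h')).neg
  have h2 : Integrable (fun p : Cyl × Cyl => min p.1.1 p.2.1) (m.prod m') := by
    refine Integrable.of_bound (Measurable.aestronglyMeasurable (by fun_prop)) (max B B') ?_
    filter_upwards [Measure.quasiMeasurePreserving_fst.ae hB,
      Measure.quasiMeasurePreserving_snd.ae hB'] with p a b
    rcases min_choice p.1.1 p.2.1 with e | e <;> rw [e]
    exacts [le_max_of_le_left a, le_max_of_le_right b]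
  have e := integral_prod _ (h1.sub h2)
  rw [Ie_map m m' hf hf, Ie_rr hFE hE hB hB', ← integral_prod _ h2]
  exact e.symm.trans (integral_sub h1 h2)

include hFE hE hC hB hB' in
theorem gram_eq (hMOD : St_MOD) (M : Model) (h : PFE (m.map frC)) (h' : PFE (m'.map frC)) :
    ⟪M.e (m.map frC) - M.e (rot m), M.e (m'.map frC) - M.e (rot m')⟫ =
      Ie (m.map frC) (m'.map frC) - Ie (rot m) (rot m') := by
  have a := pfe_rot hFE hE hB
  have a' := pfe_rot hFE hE hB'
  rw [(hMOD M).2.2.2.2.1 _ _ _ _ h a h' a', Ie_nr hFE hE hC hB hB' h.1,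
    (hFE.2.2.2.2.1 _ _ a.1 h'.1).1, Ie_nr hFE hE hC hB' hB h'.1, (hFE.2.2.2.2.1 _ _ a'.1 a.1).1]
  ring

end

end LAT

end

end Pool.Agent.Lib.APPS
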