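import Pool.Agent.Lib.APPS.B_LF1a

/-!
Block LF1: one step balance of the local limit weights.
-/

namespace Pool.Agent.Lib.APPS

open MeasureTheory ProbabilityTheory Filter Topology Set Metric
open scoped NNReal ENNReal CompactlySupported BoundedContinuousFunction RealInnerProductSpace
  Classical

noncomputable section

namespace LF1

def ps (I : Set ℝ) (d : Fin 2 × Fin 2) (y : Dy → ℝ) : ℝ :=
  indR (y [d] ∈ I) * vt (y (sib [d])) * ∏ c : Fin 2 × Fin 2, vt (y [c, d])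

def Fw (I : Set ℝ) (lam : ℝ) (y : Dy → ℝ) : ℝ := lam⁻¹ * ∑ d, ps I d y

def pD (lam : ℝ) (d : Fin 2 × Fin 2) (y : Dy → ℝ) : ℝ := indR (|y [d]| ≤ lam)

def Dl (lam : ℝ) (y : Dy → ℝ) : ℝ := lam⁻¹ * ∑ d, pD lam d y

theorem ps_nonneg (I : Set ℝ) (d : Fin 2 × Fin 2) (y : Dy → ℝ) : 0 ≤ ps I d y :=
  mul_nonneg (mul_nonneg (indR_nonneg _) (vt_nonneg _)) (Finset.prod_nonneg fun _ _ => vt_nonneg _)

theorem ps_sub (I : Set ℝ) (d : Fin 2 × Fin 2) (P : Dy) (x : Dy → ℝ) :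
    ps I d (sub x P) = indR (x (d :: P) ∈ I) * VV x (d :: P) := by
  unfold ps VV
  rw [mul_assoc]
  rfl

theorem meas_indR (hT3 : St_T3) {α : Type} [MeasurableSpace α] {p : α → Prop}
    (h : MeasurableSet {a | p a}) : Measurable fun a => indR (p a) :=
  (hT3.2.2.2.2.2.2.2.2.2.2.2.1 α p h).2

theorem ps_meas (hT3 : St_T3) {I : Set ℝ} (hI : MeasurableSet I) (d : Fin 2 × Fin 2) :
    Measurable (ps I d) := by
  unfold ps
  exact ((meas_indR hT3 (measurable_pi_apply [d] hI)).mul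
    (vt_cont.measurable.comp (measurable_pi_apply _))).mul
    (Finset.measurable_prod _ fun c _ => vt_cont.measurable.comp (measurable_pi_apply _))

theorem pD_meas (hT3 : St_T3) (lam : ℝ) (d : Fin 2 × Fin 2) : Measurable (pD lam d) :=
  meas_indR hT3 (measurableSet_le (measurable_pi_apply [d]).abs measurable_const)

theorem meas_w (hT3 : St_T3) (Φ : Finset Dy → ℝ) (n : ℕ) (P : Dy) :
    Measurable fun x : Dy → ℝ => indR (IntN x P ∧ nB x = n) * Φ (tr x) :=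
  (meas_indR hT3 ((hT3.2.1 P).1.inter (hT3.1 (measurableSet_singleton _)))).mul
    (hT3.2.2.2.1 _ _ id (fun T _ => Φ T) measurable_id fun _ => measurable_const)

theorem GG_meas (hT3 : St_T3) (Φ : Finset Dy → ℝ) (n : ℕ) (d : Fin 2 × Fin 2) (P : Dy) :
    Measurable (GG Φ n d P) :=
  (meas_w hT3 Φ n P).mul (VV_meas _)

theorem meas_X (hT3 : St_T3) (M : Model) (γ : ℝ) : Measurable (M.X γ 0) :=
  (hT3.2.2.2.2.2.2.2.2.2.2.1 M γ 0).1

theorem sum_pt (hT : St_T1) (x : Dy → ℝ) (n : ℕ) {φ c : ℝ} (hφ : 0 ≤ φ) (hc : 0 ≤ c)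
    {ψ : Fin 2 × Fin 2 → (Dy → ℝ) → ℝ} (h0 : ∀ d y, 0 ≤ ψ d y) :
    ∑' P : Dy, ∑ d, ENNReal.ofReal (indR (IntN x P ∧ nB x = n) * φ * (c * ψ d (sub x P))) =
      ENNReal.ofReal (indR (nB x = n) * φ * SR (fun y => c * ∑ d, ψ d y) x []) := by
  by_cases hn : nB x = n
  · have hx := hT.2.2.2.2.2.2.2.2.2.2.2.2.1 x (by rw [hn]; exact ENNReal.natCast_ne_top _)
    rw [tsum_eq_sum (s := tr x) fun P hP => by
      simp [indR_neg fun h : IntN x P ∧ nB x = n => hP ((hx P).2 h.1)]]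
    unfold SR
    rw [Finset.filter_true_of_mem fun A _ => List.nil_suffix, Finset.mul_sum,
      ENNReal.ofReal_sum_of_nonneg fun A _ => mul_nonneg (mul_nonneg (indR_nonneg _) hφ)
        (mul_nonneg hc (Finset.sum_nonneg fun d _ => h0 d _))]
    refine Finset.sum_congr rfl fun P hP => ?_
    rw [← ENNReal.ofReal_sum_of_nonneg fun d _ => mul_nonneg (mul_nonneg (indR_nonneg _) hφ)
      (mul_nonneg hc (h0 d _)), indR_pos hn, indR_pos ⟨(hx P).1 hP, hn⟩, ← Finset.mul_sum,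
      ← Finset.mul_sum]
  · simp [indR_neg hn, indR_neg fun h : IntN x _ ∧ nB x = n => hn h.2]

theorem SR_nonneg {F : (Dy → ℝ) → ℝ} (hF : ∀ y, 0 ≤ F y) (x : Dy → ℝ) (R : Dy) :
    0 ≤ SR F x R := Finset.sum_nonneg fun _ _ => hF _

theorem sumSR (hT : St_T1) (hT3 : St_T3) (M : Model) (γ : ℝ) (n : ℕ) {Φ : Finset Dy → ℝ}
    (hΦ : ∀ T, 0 ≤ Φ T) {c : ℝ} (hc : 0 ≤ c) {ψ : Fin 2 × Fin 2 → (Dy → ℝ) → ℝ}
    (h0 : ∀ d y, 0 ≤ ψ d y) (hm : ∀ d, Measurable (ψ d))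
    (hint : Integrable (fun ω => indR (nB (M.X γ 0 ω) = n) * Φ (tr (M.X γ 0 ω)) *
      SR (fun y => c * ∑ d, ψ d y) (M.X γ 0 ω) []) gm) :
    ∑' P : Dy, ∑ d, ∫⁻ ω, ENNReal.ofReal (indR (IntN (M.X γ 0 ω) P ∧ nB (M.X γ 0 ω) = n) *
        Φ (tr (M.X γ 0 ω)) * (c * ψ d (sub (M.X γ 0 ω) P))) ∂gm =
      ENNReal.ofReal (∫ ω, indR (nB (M.X γ 0 ω) = n) * Φ (tr (M.X γ 0 ω)) *
        SR (fun y => c * ∑ d, ψ d y) (M.X γ 0 ω) [] ∂gm) := by
  have hmeas : ∀ P d, Measurable fun ω => ENNReal.ofReal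
      (indR (IntN (M.X γ 0 ω) P ∧ nB (M.X γ 0 ω) = n) *
        Φ (tr (M.X γ 0 ω)) * (c * ψ d (sub (M.X γ 0 ω) P))) := fun P d =>
    (((meas_w hT3 Φ n P).mul (((hm d).comp (hT3.2.2.2.2.1 P)).const_mul c)).comp
      (meas_X hT3 M γ)).ennreal_ofReal
  rw [ofReal_integral_eq_lintegral_ofReal hint (ae_of_all _ fun ω =>
    mul_nonneg (mul_nonneg (indR_nonneg _) (hΦ _))
      (SR_nonneg (fun y => mul_nonneg hc (Finset.sum_nonneg fun d _ => h0 d _)) _ _))]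
  simp_rw [← fun P => lintegral_finsetSum (μ := gm) Finset.univ fun d _ => hmeas P d]
  rw [← lintegral_tsum fun P =>
    (Finset.measurable_sum Finset.univ fun d _ => hmeas P d).aemeasurable]
  exact lintegral_congr fun ω => sum_pt hT _ n (hΦ _) hc h0

theorem lint_le {a b e T : Om → ℝ} {ε c : ℝ} (hε : 0 ≤ ε) (hc : 0 ≤ c) (hb : Measurable b)
    (he : Measurable e) (h : ∀ ω, a ω ≤ b ω + ε * e ω + c * T ω) :
    ∫⁻ ω, ENNReal.ofReal (a ω) ∂gm ≤ ∫⁻ ω, ENNReal.ofReal (b ω) ∂gm +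
      ENNReal.ofReal ε * ∫⁻ ω, ENNReal.ofReal (e ω) ∂gm +
      ENNReal.ofReal c * ∫⁻ ω, ENNReal.ofReal (T ω) ∂gm := by
  rw [← lintegral_const_mul' _ _ ENNReal.ofReal_ne_top,
    ← lintegral_const_mul' _ _ ENNReal.ofReal_ne_top, ← lintegral_add_left hb.ennreal_ofReal,
    ← lintegral_add_left (f := fun ω => ENNReal.ofReal (b ω) +
      ENNReal.ofReal ε * ENNReal.ofReal (e ω))
      (hb.ennreal_ofReal.add (he.ennreal_ofReal.const_mul _))]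
  refine lintegral_mono fun ω => ?_
  refine (ENNReal.ofReal_le_ofReal (h ω)).trans (ENNReal.ofReal_add_le.trans ?_)
  rw [ENNReal.ofReal_mul hc]
  refine add_le_add (ENNReal.ofReal_add_le.trans ?_) le_rfl
  rw [ENNReal.ofReal_mul hε]

/-- side condition of the tail estimate -/
def Cnd (M : Model) (γ lam Mx : ℝ) (n : ℕ) (d : Fin 2 × Fin 2) (P : Dy) (ω : Om) : Prop :=
  IntN (M.X γ 0 ω) P ∧ |M.X γ 0 ω (d :: P)| ≤ lam ∧
    (n : ℝ≥0∞) ≤ nB (M.X γ 0 ω) + (1 : ℕ) ∧ nB (M.X γ 0 ω) ≤ n + (1 : ℕ) ∧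
    ∑ c : Fin 2 × Fin 2, nB (sub (sh (M.X γ 0 ω) (1 / 4)) (c :: d :: P)) +
      nB (sub (sh (M.X γ 0 ω) (1 / 4)) (sib (d :: P))) ≤ (1 : ℕ) ∧
    Mx ≤ |ω (M.vs (d :: P))|

/-- the integrand of the surface integral -/
def aI (M : Model) (γ : ℝ) (Φ : Finset Dy → ℝ) (n : ℕ) (lo hi : ℝ) (d : Fin 2 × Fin 2) (P : Dy)
    (ω : Om) : ℝ :=
  GG Φ n d P (M.X γ 0 (ω + (-(M.X γ 0 ω (d :: P) / bb)) • dv (M.vs (d :: P)))) *
    (indR (M.X γ 0 ω (d :: P) ∈ Ioc lo hi) *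
      (Real.exp (M.X γ 0 ω (d :: P) / bb * ω (M.vs (d :: P)) -
        (M.X γ 0 ω (d :: P) / bb) ^ 2 * ‖M.vs (d :: P)‖ ^ 2 / 2) / (hi - lo)))

theorem aI_meas (hT3 : St_T3) (M : Model) (γ : ℝ) (Φ : Finset Dy → ℝ) (n : ℕ) (lo hi : ℝ)
    (d : Fin 2 × Fin 2) (P : Dy) : Measurable (aI M γ Φ n lo hi d P) := by
  have hx : Measurable fun ω => M.X γ 0 ω (d :: P) :=
    (measurable_pi_apply _).comp (meas_X hT3 M γ)
  have ht : Measurable fun ω => M.X γ 0 ω (d :: P) / bb := hx.div_const _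
  unfold aI
  refine ((GG_meas hT3 Φ n d P).comp ((meas_X hT3 M γ).comp
    (meas_shift _ measurable_id ht.neg))).mul ((meas_indR hT3 (hx measurableSet_Ioc)).mul ?_)
  exact (((ht.mul (meas_ev _)).sub (((ht.pow_const 2).mul_const _).div_const _)).exp).div_const _

theorem surf_eq {M : Model} {γ Λ : ℝ} {Φ : Finset Dy → ℝ} (hΦ : Cls Λ Φ) (n : ℕ) (lo hi : ℝ)
    {d : Fin 2 × Fin 2} {P : Dy} (hbb : 0 < bb) (h1 : ⟪M.vs (d :: P), M.eS (d :: P)⟫ = bb) :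
    surf (M.eS (d :: P)) (M.vs (d :: P)) (-(QQ γ * (d :: P).length * l2)) (lo / bb) (hi / bb)
        (fun ω => ENNReal.ofReal (GG Φ n d P (M.X γ 0 ω))) =
      ∫⁻ ω, ENNReal.ofReal (aI M γ Φ n lo hi d P ω) ∂gm := by
  unfold surf aI
  refine lintegral_congr fun ω => ?_
  have e1 : ω (M.eS (d :: P)) + -(QQ γ * (d :: P).length * l2) = M.X γ 0 ω (d :: P) := by
    simp only [Model.X, drift]; ring
  have e2 : (hi / bb - lo / bb) * bb = hi - lo := by field_simp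
  have e3 : (M.X γ 0 ω (d :: P) / bb ∈ Ioc (lo / bb) (hi / bb)) =
      (M.X γ 0 ω (d :: P) ∈ Ioc lo hi) := by
    rw [mem_Ioc, mem_Ioc, div_lt_div_iff_of_pos_right hbb, div_le_div_iff_of_pos_right hbb]
  have e4 : ∀ (t : ℝ) (w : HH), ω - t • dv w = ω + (-t) • dv w := fun t w =>
    LinearMap.ext fun v => by
      simp only [LinearMap.add_apply, LinearMap.sub_apply, LinearMap.smul_apply, smul_eq_mul]
      ring
  rw [h1, e1, e2, e3, e4, ENNReal.ofReal_mul (GG_nonneg hΦ _ _ _ _),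
    ENNReal.ofReal_mul (indR_nonneg _), ofReal_indR]

theorem X_shift (M : Model) (γ s : ℝ) (w : HH) (ω : Om) (B : Dy) :
    M.X γ 0 (ω + s • dv w) B = M.X γ 0 ω B + s * ⟪w, M.eS B⟫ := by
  simp only [Model.X, drift, LinearMap.add_apply, LinearMap.smul_apply, dv_apply, smul_eq_mul]
  ring

theorem pt (hT : St_T1) {M : Model} {γ Λ : ℝ} {Φ : Finset Dy → ℝ} (hΦ : Cls Λ Φ) (ι : ℕ)
    {lo hi lam E C Mx ε : ℝ} {j : ℕ} {d : Fin 2 × Fin 2} {P : Dy} (hbb : 0 < bb)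
    (hE : 0 < E) (hC : 0 < C)
    (h1 : ⟪M.vs (d :: P), M.eS (d :: P)⟫ = bb) (h2 : ‖M.vs (d :: P)‖ ^ 2 ≤ 4 * E)
    (h3 : ∀ B, |⟪M.vs (d :: P), M.eS B⟫| ≤ C)
    (h4 : ∀ B, ¬d :: P <:+ B → ¬sib (d :: P) <:+ B → ⟪M.vs (d :: P), M.eS B⟫ = 0)
    (hlam : 0 < lam) (hj : (j = 0 ∧ lo = -lam ∧ hi = 0) ∨ (j = 1 ∧ lo = 0 ∧ hi = lam))
    (p1 : lam / bb ≤ 1) (p2 : lam / bb * C ≤ 1 / 4) (p3 : lam / bb * (|Mx| + 2 * E) ≤ 1)
    (p4 : 10 * (lam / bb * C) + |Λ| / (ι + 1) + 2 * (lam / bb * (|Mx| + 2 * E)) ≤ ε) (ω : Om) :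
    |aI M γ Φ ι lo hi d P ω - indR (IntN (M.X γ 0 ω) P ∧ nB (M.X γ 0 ω) = (ι + j : ℕ)) *
        Φ (tr (M.X γ 0 ω)) * (lam⁻¹ * ps (Ioc lo hi) d (sub (M.X γ 0 ω) P))| ≤
      ε * (indR (IntN (M.X γ 0 ω) P ∧ nB (M.X γ 0 ω) = (ι + j : ℕ)) *
        oneT (tr (M.X γ 0 ω)) * (lam⁻¹ * pD lam d (sub (M.X γ 0 ω) P))) +
      lam⁻¹ * (indR (Cnd M γ lam Mx ι d P ω) * Real.exp |ω (M.vs (d :: P))|) := by
  have hhl : hi - lo = lam := by rcases hj with ⟨-, rfl, rfl⟩ | ⟨-, rfl, rfl⟩ <;> ring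
  have hτ : 0 < lam / bb := div_pos hlam hbb
  have hε : 0 ≤ ε := le_trans (by positivity) p4
  have hli : 0 < lam⁻¹ := inv_pos.2 hlam
  have r1 : 0 ≤ ε * (indR (IntN (M.X γ 0 ω) P ∧ nB (M.X γ 0 ω) = (ι + j : ℕ)) *
      oneT (tr (M.X γ 0 ω)) * (lam⁻¹ * pD lam d (sub (M.X γ 0 ω) P))) :=
    mul_nonneg hε (mul_nonneg (mul_nonneg (indR_nonneg _) zero_le_one)
      (mul_nonneg hli.le (indR_nonneg _)))
  have r2 : 0 ≤ lam⁻¹ * (indR (Cnd M γ lam Mx ι d P ω) * Real.exp |ω (M.vs (d :: P))|) :=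
    mul_nonneg hli.le (mul_nonneg (indR_nonneg _) (Real.exp_pos _).le)
  unfold aI
  rw [ps_sub, hhl]
  set x := M.X γ 0 ω with hx
  set t := x (d :: P) / bb with ht
  set w := M.vs (d :: P) with hw
  set y := M.X γ 0 (ω + (-t) • dv w) with hy
  set f := Real.exp (t * ω w - t ^ 2 * ‖w‖ ^ 2 / 2) with hf
  by_cases hW : x (d :: P) ∈ Ioc lo hi
  swap
  · rw [indR_neg hW]
    simp only [zero_mul, mul_zero, sub_self, abs_zero]
    positivity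
  have e : GG Φ ι d P y * (indR (x (d :: P) ∈ Ioc lo hi) * (f / lam)) -
      indR (IntN x P ∧ nB x = (ι + j : ℕ)) * Φ (tr x) *
        (lam⁻¹ * (indR (x (d :: P) ∈ Ioc lo hi) * VV x (d :: P))) =
      lam⁻¹ * (GG Φ ι d P y * f - GG Φ (ι + j) d P x) := by
    rw [indR_pos hW]
    unfold GG
    ring
  rw [e, abs_mul, abs_of_pos hli]
  by_cases hne : GG Φ ι d P y ≠ 0 ∨ GG Φ (ι + j) d P x ≠ 0
  swap
  · push Not at hne
    rw [hne.1, hne.2]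
    simp only [zero_mul, mul_zero, sub_self, abs_zero]
    positivity
  have hxl : |x (d :: P)| ≤ lam := by
    rw [abs_le]
    rcases hj with ⟨-, rfl, rfl⟩ | ⟨-, rfl, rfl⟩
    · exact ⟨hW.1.le, hW.2.trans hlam.le⟩
    · exact ⟨by linarith [hW.1], hW.2⟩
  have htl : |t| ≤ lam / bb := by
    rw [ht, abs_div, abs_of_pos hbb]
    exact div_le_div_of_nonneg_right hxl hbb.le
  have hyB : ∀ B, y B = x B + -t * ⟪w, M.eS B⟫ := fun B => X_shift M γ _ w ω B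
  obtain ⟨c1, c2, c3⟩ := det3 hT (x := x) (y := y) (d := d) (P := P) p2
    (fun B => by
      rw [hyB, add_sub_cancel_left, abs_mul, abs_neg]
      exact mul_le_mul htl (h3 B) (abs_nonneg _) hτ.le)
    (fun B a b => by rw [hyB, h4 B a b]; ring)
    (by rw [hyB, h1, ht]; field_simp; linarith) (j := j)
    (by
      rcases hj with ⟨rfl, rfl, rfl⟩ | ⟨rfl, rfl, rfl⟩
      · exact Or.inl ⟨rfl, hW.2⟩
      · exact Or.inr ⟨rfl, hW.1⟩) ι hΦ hne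
  have g0 := GG_nonneg hΦ ι d P y
  have g1 := GG_le_one hΦ ι d P y
  have k0 := GG_nonneg hΦ (ι + j) d P x
  have k1 := GG_le_one hΦ (ι + j) d P x
  have hta : |t * ω w| ≤ lam / bb * |ω w| := by
    rw [abs_mul]; exact mul_le_mul_of_nonneg_right htl (abs_nonneg _)
  have hq0 : 0 ≤ t ^ 2 * ‖w‖ ^ 2 / 2 := by positivity
  by_cases hM : Mx ≤ |ω w|
  · have hc : Cnd M γ lam Mx ι d P ω := by
      have hj1 : j ≤ 1 := by rcases hj with ⟨rfl, -⟩ | ⟨rfl, -⟩ <;> omega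
      refine ⟨c1.1, hxl, ?_, ?_, ?_, hM⟩
      · rw [← hx, c1.2]; exact_mod_cast (by omega : ι ≤ ι + j + 1)
      · rw [← hx, c1.2]; exact_mod_cast (by omega : ι + j ≤ ι + 1)
      · rw [← hx, nB_sub_zero (by unfold sh; linarith [c2.1]),
          Finset.sum_eq_zero fun c _ => nB_sub_zero (by unfold sh; linarith [c2.2 c])]
        simp
    rw [indR_pos hc, one_mul]
    have f1 : f ≤ Real.exp |ω w| := by
      refine Real.exp_le_exp.2 ?_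
      have := mul_le_of_le_one_left (abs_nonneg (ω w)) p1
      linarith [le_abs_self (t * ω w)]
    have f2 : 1 ≤ Real.exp |ω w| := Real.one_le_exp (abs_nonneg _)
    have f0 : 0 < f := Real.exp_pos _
    have f3 : |GG Φ ι d P y * f - GG Φ (ι + j) d P x| ≤ Real.exp |ω w| := by
      have f4 := mul_le_of_le_one_left f0.le g1
      have f5 := mul_nonneg g0 f0.le
      rw [abs_le]
      constructor <;> linarith
    linarith [mul_le_mul_of_nonneg_left f3 hli.le]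
  · have hs : |t * ω w - t ^ 2 * ‖w‖ ^ 2 / 2| ≤ lam / bb * (|Mx| + 2 * E) := by
      have a1 : lam / bb * |ω w| ≤ lam / bb * |Mx| :=
        mul_le_mul_of_nonneg_left ((not_le.1 hM).le.trans (le_abs_self _)) hτ.le
      have a2 : t ^ 2 ≤ lam / bb := by
        rw [← sq_abs, pow_two]
        exact (mul_le_of_le_one_right (abs_nonneg t) (htl.trans p1)).trans htl
      have a3 : t ^ 2 * ‖w‖ ^ 2 ≤ lam / bb * (4 * E) :=
        mul_le_mul a2 h2 (by positivity) hτ.le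
      refine (abs_sub _ _).trans ?_
      rw [abs_of_nonneg hq0]
      linarith
    have f1 : |f - 1| ≤ 2 * (lam / bb * (|Mx| + 2 * E)) :=
      (Real.abs_exp_sub_one_le (hs.trans p3)).trans (by linarith)
    have f3 : |GG Φ ι d P y * f - GG Φ (ι + j) d P x| ≤ ε := by
      have e2 : GG Φ ι d P y * f - GG Φ (ι + j) d P x =
          GG Φ ι d P y * (f - 1) + (GG Φ ι d P y - GG Φ (ι + j) d P x) := by ring
      rw [e2]
      refine (abs_add_le _ _).trans ?_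
      rw [abs_mul, abs_of_nonneg g0]
      have := mul_le_of_le_one_left (abs_nonneg (f - 1)) g1
      linarith
    have e3 : pD lam d (sub x P) = 1 := indR_pos hxl
    rw [indR_pos c1, e3]
    simp only [oneT, one_mul, mul_one]
    have := mul_le_mul_of_nonneg_left f3 hli.le
    linarith

/-- total surface integral -/
def AA (M : Model) (γ : ℝ) (Φ : Finset Dy → ℝ) (n : ℕ) (lo hi : ℝ) : ℝ≥0∞ :=
  ∑' P : Dy, ∑ d, ∫⁻ ω, ENNReal.ofReal (aI M γ Φ n lo hi d P ω) ∂gm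

def EI (M : Model) (γ : ℝ) (Φ : Finset Dy → ℝ) (n : ℕ) (F : (Dy → ℝ) → ℝ) (ω : Om) : ℝ :=
  indR (nB (M.X γ 0 ω) = n) * Φ (tr (M.X γ 0 ω)) * SR F (M.X γ 0 ω) []

def TT (M : Model) (γ lam Mx : ℝ) (n : ℕ) : ℝ≥0∞ :=
  ∑' P : Dy, ∑ d, ∫⁻ ω, ind (Cnd M γ lam Mx n d P ω) * eE |ω (M.vs (d :: P))| ∂gm

theorem sum_le {a b e T : Dy → Fin 2 × Fin 2 → ℝ≥0∞} {ε c : ℝ≥0∞}
    (h : ∀ P d, a P d ≤ b P d + ε * e P d + c * T P d) :
    ∑' P, ∑ d, a P d ≤ ∑' P, ∑ d, b P d + ε * ∑' P, ∑ d, e P d + c * ∑' P, ∑ d, T P d := by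
  rw [← ENNReal.tsum_mul_left, ← ENNReal.tsum_mul_left, ← ENNReal.tsum_add, ← ENNReal.tsum_add]
  refine ENNReal.tsum_le_tsum fun P => ?_
  rw [Finset.mul_sum, Finset.mul_sum, ← Finset.sum_add_distrib, ← Finset.sum_add_distrib]
  exact Finset.sum_le_sum fun d _ => h P d

theorem win (hT : St_T1) (hT3 : St_T3) {M : Model} {γ Λ : ℝ} {Φ : Finset Dy → ℝ} (hΦ : Cls Λ Φ)
    (ι : ℕ) {lo hi lam E C Mx ε : ℝ} {j : ℕ} (hbb : 0 < bb) (hE : 0 < E) (hC : 0 < C)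
    (hv : ∀ d P, ⟪M.vs (d :: P), M.eS (d :: P)⟫ = bb ∧ ‖M.vs (d :: P)‖ ^ 2 ≤ 4 * E ∧
      (∀ B, |⟪M.vs (d :: P), M.eS B⟫| ≤ C) ∧
      ∀ B, ¬d :: P <:+ B → ¬sib (d :: P) <:+ B → ⟪M.vs (d :: P), M.eS B⟫ = 0)
    (hlam : 0 < lam) (hj : (j = 0 ∧ lo = -lam ∧ hi = 0) ∨ (j = 1 ∧ lo = 0 ∧ hi = lam))
    (p1 : lam / bb ≤ 1) (p2 : lam / bb * C ≤ 1 / 4) (p3 : lam / bb * (|Mx| + 2 * E) ≤ 1)
    (p4 : 10 * (lam / bb * C) + |Λ| / (ι + 1) + 2 * (lam / bb * (|Mx| + 2 * E)) ≤ ε)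
    (i1 : Integrable (EI M γ Φ (ι + j) (Fw (Ioc lo hi) lam)) gm)
    (i2 : Integrable (EI M γ oneT (ι + j) (Dl lam)) gm) :
    AA M γ Φ ι lo hi ≤ ENNReal.ofReal (∫ ω, EI M γ Φ (ι + j) (Fw (Ioc lo hi) lam) ω ∂gm) +
        ENNReal.ofReal ε * ENNReal.ofReal (∫ ω, EI M γ oneT (ι + j) (Dl lam) ω ∂gm) +
        ENNReal.ofReal lam⁻¹ * TT M γ lam Mx ι ∧
      ENNReal.ofReal (∫ ω, EI M γ Φ (ι + j) (Fw (Ioc lo hi) lam) ω ∂gm) ≤ AA M γ Φ ι lo hi +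
        ENNReal.ofReal ε * ENNReal.ofReal (∫ ω, EI M γ oneT (ι + j) (Dl lam) ω ∂gm) +
        ENNReal.ofReal lam⁻¹ * TT M γ lam Mx ι := by
  have hli : 0 ≤ lam⁻¹ := (inv_pos.2 hlam).le
  have hτ : 0 < lam / bb := div_pos hlam hbb
  have hε : 0 ≤ ε := le_trans (by positivity) p4
  have s1 := sumSR hT hT3 M γ (ι + j) (fun T => (hΦ.1 T).1) hli (ps_nonneg (Ioc lo hi))
    (ps_meas hT3 measurableSet_Ioc) i1
  have s2 := sumSR hT hT3 M γ (ι + j) (Φ := oneT) (fun T => zero_le_one) hli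
    (ψ := pD lam) (fun d y => indR_nonneg _) (pD_meas hT3 lam) i2
  have s3 : TT M γ lam Mx ι = ∑' P : Dy, ∑ d, ∫⁻ ω, ENNReal.ofReal
      (indR (Cnd M γ lam Mx ι d P ω) * Real.exp |ω (M.vs (d :: P))|) ∂gm := by
    unfold TT eE
    simp only [ENNReal.ofReal_mul (indR_nonneg _), ofReal_indR]
  have m1 : ∀ (Ψ : Finset Dy → ℝ) (ψ : (Dy → ℝ) → ℝ), Measurable ψ → ∀ P, Measurable fun ω =>
      indR (IntN (M.X γ 0 ω) P ∧ nB (M.X γ 0 ω) = (ι + j : ℕ)) *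
        Ψ (tr (M.X γ 0 ω)) * (lam⁻¹ * ψ (sub (M.X γ 0 ω) P)) := fun Ψ ψ hψ P =>
    ((meas_w hT3 Ψ _ P).mul ((hψ.comp (hT3.2.2.2.2.1 P)).const_mul _)).comp (meas_X hT3 M γ)
  have key := fun d P ω => abs_le.1 (pt hT hΦ ι (γ := γ) hbb hE hC (hv d P).1 (hv d P).2.1
    (hv d P).2.2.1 (hv d P).2.2.2 hlam hj p1 p2 p3 p4 ω)
  unfold EI Fw Dl
  rw [← s1, ← s2, s3]
  unfold AA
  constructor
  · refine sum_le fun P d => lint_le hε hli (m1 _ _ (ps_meas hT3 measurableSet_Ioc d) P)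
      (m1 _ _ (pD_meas hT3 lam d) P) fun ω => ?_
    linarith [(key d P ω).2]
  · refine sum_le fun P d => lint_le hε hli (aI_meas hT3 M γ Φ ι lo hi d P)
      (m1 _ _ (pD_meas hT3 lam d) P) fun ω => ?_
    linarith [(key d P ω).1]

theorem AA_eq (hS : St_SI) (hT3 : St_T3) {M : Model} {γ Λ : ℝ} {Φ : Finset Dy → ℝ}
    (hΦ : Cls Λ Φ) (n : ℕ) {lam : ℝ} (hbb : 0 < bb) (hlam : 0 < lam)
    (hv : ∀ d P, ⟪M.vs (d :: P), M.eS (d :: P)⟫ = bb) :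
    AA M γ Φ n (-lam) 0 = AA M γ Φ n 0 lam := by
  unfold AA
  refine tsum_congr fun P => Finset.sum_congr rfl fun d _ => ?_
  rw [← surf_eq hΦ n _ _ hbb (hv d P), ← surf_eq hΦ n _ _ hbb (hv d P)]
  refine hS _ _ _ _ _ _ _ _ _ (((GG_meas hT3 Φ n d P).comp (meas_X hT3 M γ)).ennreal_ofReal)
    (by rw [hv]; exact hbb) (by rw [hv]; exact hbb) ?_ ?_
  · exact div_lt_div_of_pos_right (by linarith) hbb
  · exact div_lt_div_of_pos_right hlam hbb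

theorem to_real {x y e e' p ε η lam : ℝ} {A T : ℝ≥0∞} (hy : 0 ≤ y) (he : 0 ≤ e) (he' : 0 ≤ e')
    (hp : 0 ≤ p) (hε : 0 ≤ ε) (hη : 0 ≤ η) (hlam : 0 < lam)
    (h1 : ENNReal.ofReal x ≤ A + ENNReal.ofReal ε * ENNReal.ofReal e + ENNReal.ofReal lam⁻¹ * T)
    (h2 : A ≤ ENNReal.ofReal y + ENNReal.ofReal ε * ENNReal.ofReal e' + ENNReal.ofReal lam⁻¹ * T)
    (hT : ENNReal.ofReal p * T ≤ ENNReal.ofReal (η * lam)) :
    p * x ≤ p * y + ε * (p * e) + ε * (p * e') + 2 * η := by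
  have hli : 0 ≤ lam⁻¹ := (inv_pos.2 hlam).le
  have h3 : ENNReal.ofReal p * (ENNReal.ofReal lam⁻¹ * T) ≤ ENNReal.ofReal η := by
    rw [mul_left_comm]
    refine (mul_le_mul_right hT _).trans ?_
    rw [← ENNReal.ofReal_mul hli]
    refine le_of_eq (congrArg _ ?_)
    field_simp
  have h4 : ENNReal.ofReal (p * x) ≤
      ENNReal.ofReal (p * y + ε * (p * e') + η + ε * (p * e) + η) := by
    rw [ENNReal.ofReal_mul hp]
    refine (mul_le_mul_right (h1.trans (add_le_add (add_le_add h2 le_rfl) le_rfl)) _).trans ?_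
    rw [ENNReal.ofReal_add (by positivity) hη, ENNReal.ofReal_add (by positivity) (by positivity),
      ENNReal.ofReal_add (by positivity) hη, ENNReal.ofReal_add (by positivity) (by positivity),
      mul_add, mul_add, mul_add, mul_add, ENNReal.ofReal_mul hp, ENNReal.ofReal_mul hε,
      ENNReal.ofReal_mul hε, ENNReal.ofReal_mul hp, ENNReal.ofReal_mul hp,
      mul_left_comm (ENNReal.ofReal ε), mul_left_comm (ENNReal.ofReal ε)]
    gcongr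
  have := (ENNReal.ofReal_le_ofReal_iff (by positivity)).1 h4
  linarith

theorem pD_bdd (hT3 : St_T3) (lam : ℝ) (s : Finset (Fin 2 × Fin 2)) :
    BddM fun y => ∑ d ∈ s, pD lam d y :=
  ⟨Finset.measurable_sum _ fun d _ => pD_meas hT3 lam d, s.card, fun y =>
    ⟨Finset.sum_nonneg fun _ _ => indR_nonneg _, by
      simpa using Finset.sum_le_card_nsmul s (fun d => pD lam d y) 1 fun _ _ => indR_le_one _⟩⟩

theorem Dl_adm (hT3 : St_T3) (hPA : St_PA) {γ : ℝ} (hγ : γ ∈ Ioo (0 : ℝ) 2) {lam : ℝ}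
    (hlam : 0 < lam) : Adm γ (Dl lam) := by
  obtain ⟨hm, B, hB⟩ := pD_bdd hT3 lam Finset.univ
  have hli : 0 ≤ lam⁻¹ := (inv_pos.2 hlam).le
  refine (hPA γ hγ).2.2.2.2 _ ⟨hm.const_mul _, lam⁻¹ * B, fun y =>
    ⟨mul_nonneg hli (hB y).1, mul_le_mul_of_nonneg_left (hB y).2 hli⟩⟩ ⟨1, fun x y h => ?_⟩
    ⟨{lam, -lam}, fun y hy => ?_⟩
  · unfold Dl pD
    simp only [h [_] le_rfl]
  · refine continuousAt_const.mul (tendsto_finsetSum _ fun d _ => ?_)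
    have h1 := hy [d]
    simp only [Finset.mem_insert, Finset.mem_singleton, not_or] at h1
    have hc : Continuous fun z : Dy → ℝ => |z [d]| := (continuous_apply _).abs
    refine tendsto_const_nhds.congr' ?_
    rcases lt_trichotomy |y [d]| lam with h | h | h
    · filter_upwards [hc.continuousAt.eventually_lt continuousAt_const h] with z hz
      unfold pD
      rw [indR_pos h.le, indR_pos hz.le]
    · rcases (abs_eq hlam.le).1 h with h | h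
      · exact absurd h h1.1
      · exact absurd h h1.2
    · filter_upwards [continuousAt_const.eventually_lt hc.continuousAt h] with z hz
      unfold pD
      rw [indR_neg (not_le.2 h), indR_neg (not_le.2 hz)]

theorem Dl_cc (hT3 : St_T3) (hR : St_R) (hPA : St_PA) {γ : ℝ} (hγ : γ ∈ Ioo (0 : ℝ) 2) :
    ∃ K : ℝ, 0 ≤ K ∧ ∀ lam ∈ Ioc (0 : ℝ) 1, cc γ (Dl lam) ≤ K := by
  obtain ⟨K, hK⟩ := (hPA γ hγ).1
  obtain ⟨-, -, r3, r4, -, r6, -⟩ := hR γ hγ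
  refine ⟨4 * max K 0, by positivity, fun lam hlam => ?_⟩
  have hli : 0 ≤ lam⁻¹ := (inv_pos.2 hlam.1).le
  have h1 : ∀ d, BddM (pD lam d) := fun d =>
    ⟨pD_meas hT3 lam d, 1, fun y => ⟨indR_nonneg _, indR_le_one _⟩⟩
  have h2 : ∀ d, cc γ (pD lam d) ≤ max K 0 * lam := fun d => by
    refine (ENNReal.ofReal_le_ofReal_iff (mul_nonneg (le_max_right _ _) hlam.1.le)).1
      ((r6 _ (h1 d)).trans (le_trans ?_ ((hK lam hlam d).trans (ENNReal.ofReal_le_ofReal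
        (mul_le_mul_of_nonneg_right (le_max_left _ _) hlam.1.le)))))
    unfold palm
    refine mul_le_mul_right (lintegral_mono fun y => mul_le_mul_right
      (lintegral_mono fun x => ?_) _) _
    simp only [pD, ofReal_indR]
    refine mul_le_of_le_one_left' ?_
    unfold ind
    split_ifs <;> simp
  have h3 : ∀ s : Finset (Fin 2 × Fin 2),
      cc γ (fun y => ∑ d ∈ s, pD lam d y) ≤ s.card * (max K 0 * lam) := fun s => by
    induction s using Finset.induction_on with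
    | empty =>
      have := r4 _ 0 (h1 (0, 0)) le_rfl
      simp only [zero_mul] at this
      simp [this]
    | insert d s hd ih =>
      simp only [Finset.sum_insert hd]
      rw [r3 _ _ (h1 d) (pD_bdd hT3 lam s), Finset.card_insert_of_notMem hd]
      push_cast
      linarith [h2 d]
  have h4 := r4 _ lam⁻¹ (pD_bdd hT3 lam Finset.univ) hli
  unfold Dl
  rw [h4]
  refine (mul_le_mul_of_nonneg_left (h3 _) hli).trans (le_of_eq ?_)
  have := hlam.1.ne'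
  simp only [Finset.card_univ, Fintype.card_prod, Fintype.card_fin]
  push_cast
  field_simp

theorem EI_nonneg (M : Model) (γ : ℝ) {Φ : Finset Dy → ℝ} (hΦ : ∀ T, 0 ≤ Φ T) (n : ℕ)
    {F : (Dy → ℝ) → ℝ} (hF : ∀ y, 0 ≤ F y) : 0 ≤ ∫ ω, EI M γ Φ n F ω ∂gm :=
  integral_nonneg fun _ => mul_nonneg (mul_nonneg (indR_nonneg _) (hΦ _)) (SR_nonneg hF _ _)

end LF1

open LF1 in
theorem blk_LF1 (_hG1 : St_G1) (_hG1D : St_G1D) (_hMOD : St_MOD) (hB : St_BMP) (hT : St_T1)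
    (hT3 : St_T3) (hRW : St_RW1) (hS : St_SI) (hR : St_R) (hPA : St_PA) (hPOS : St_POS)
    (hF2T : St_F2T) (hL : St_LLE) (hA : St_ADM) : St_LF1 := by
  intro γ hγ M hO
  have hbb := hB.1
  obtain ⟨E, C, hE, hC, hv⟩ := vs_facts hB
  replace hv := hv M hO
  obtain ⟨w0, hw0, lam0, hlam0, hpos⟩ := hPOS γ hγ
  have hc1 : 0 < cc γ one := (hR γ hγ).2.2.2.2.2.2
  have hcc : ∀ F, 0 ≤ cc γ F := (hR γ hγ).2.1
  obtain ⟨K, hK0, hK⟩ := Dl_cc hT3 hR hPA hγ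
  have hone : ∀ T, 0 ≤ oneT T ∧ oneT T ≤ 1 := fun _ => ⟨zero_le_one, le_rfl⟩
  obtain ⟨A, hA0, hAb⟩ : ∃ A : ℝ, 0 ≤ A ∧ ∀ n, M.aL γ oneT n ≤ A := by
    obtain ⟨ι, hι⟩ := (hL γ hγ M hO _ ((hA γ hγ).1 1 one_pos).1 1 one_pos).exists
    obtain ⟨-, -, A, hA⟩ := hι oneT hone
    exact ⟨A, (hA 0).1.trans (hA 0).2.2, fun n => (hA n).2.2⟩
  refine ⟨w0 / cc γ one, div_pos hw0 hc1, fun Λ η hη => ?_⟩
  obtain ⟨η1, hη1, hη7⟩ : ∃ η1 : ℝ, 0 < η1 ∧ 7 * η1 = η := ⟨η / 7, by positivity, by ring⟩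
  obtain ⟨Mx, hMx⟩ := hF2T γ hγ M hO 1 η1 hη1
  obtain ⟨K', hK'0, hK'⟩ : ∃ K' : ℝ, 0 < K' ∧ K / cc γ one * A + η1 = K' :=
    ⟨_, by positivity, rfl⟩
  obtain ⟨ε, hε, hεK⟩ : ∃ ε : ℝ, 0 < ε ∧ ε * K' = η1 :=
    ⟨η1 / K', by positivity, by field_simp⟩
  obtain ⟨lam, hlam, q0, q1, p1, p2, p3, p4⟩ : ∃ lam : ℝ, 0 < lam ∧ lam ≤ lam0 ∧ lam ≤ 1 ∧
      lam / bb ≤ 1 ∧ lam / bb * C ≤ 1 / 4 ∧ lam / bb * (|Mx| + 2 * E) ≤ 1 ∧
      10 * (lam / bb * C) + 2 * (lam / bb * (|Mx| + 2 * E)) ≤ ε / 2 := by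
    have t0 : Tendsto (fun l : ℝ => l) (𝓝[>] 0) (𝓝 0) := tendsto_id.mono_left nhdsWithin_le_nhds
    have t1 : Tendsto (fun l : ℝ => l / bb) (𝓝[>] 0) (𝓝 0) := by simpa using t0.div_const bb
    have t2 : ∀ c : ℝ, Tendsto (fun l : ℝ => l / bb * c) (𝓝[>] 0) (𝓝 0) := fun c => by
      simpa using t1.mul_const c
    have t3 : Tendsto (fun l : ℝ => 10 * (l / bb * C) + 2 * (l / bb * (|Mx| + 2 * E)))
        (𝓝[>] 0) (𝓝 0) := by simpa using ((t2 C).const_mul 10).add ((t2 _).const_mul 2)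
    obtain ⟨l, hl⟩ := (eventually_mem_nhdsWithin.and ((t0.eventually_le_const hlam0).and
      ((t0.eventually_le_const one_pos).and ((t1.eventually_le_const one_pos).and
      (((t2 C).eventually_le_const (by norm_num : (0 : ℝ) < 1 / 4)).and
      (((t2 _).eventually_le_const one_pos).and
      (t3.eventually_le_const (half_pos hε)))))))).exists
    exact ⟨l, hl⟩
  obtain ⟨aM, aP⟩ := (hA γ hγ).1 lam hlam
  have aD := Dl_adm hT3 hPA hγ hlam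
  have hwp : 0 ≤ cc γ (Fp lam) / cc γ one := div_nonneg (hcc _) hc1.le
  refine ⟨cc γ (Fp lam) / cc γ one, cc γ (Fm lam) / cc γ one, hwp,
    div_le_div_of_nonneg_right (hpos lam ⟨hlam, q0⟩) hc1.le, ?_⟩
  set wp := cc γ (Fp lam) / cc γ one
  set wm := cc γ (Fm lam) / cc γ one
  have hs : Tendsto (fun n : ℕ => n + 1) atTop atTop := tendsto_add_atTop_nat 1
  have hth : 0 < th γ := (hRW.2.2 γ hγ).2.2.1
  have u1 : Tendsto (fun n : ℕ => |Λ| / ((n : ℝ) + 1)) atTop (𝓝 0) :=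
    tendsto_const_nhds.div_atTop (tendsto_natCast_atTop_atTop.atTop_add tendsto_const_nhds)
  have u2 : Tendsto (fun n : ℕ => (1 - ((n : ℝ) / (n + 1)) ^ (th γ + 1)) * (wp * A + η1)) atTop
      (𝓝 0) := by
    have := (((tendsto_natCast_div_add_atTop (1 : ℝ)).rpow_const (p := th γ + 1)
      (Or.inl one_ne_zero)).const_sub 1).mul_const (wp * A + η1)
    simpa using this
  filter_upwards [hMx, hL γ hγ M hO _ aM η1 hη1, hs.eventually (hL γ hγ M hO _ aP η1 hη1),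
    hL γ hγ M hO _ aD η1 hη1, hs.eventually (hL γ hγ M hO _ aD η1 hη1),
    u1.eventually_le_const (half_pos hε), u2.eventually_le_const hη1]
    with ι b1 b2 b3 b4 b5 b6 b7 Φ hΦ
  obtain ⟨i2, c2, A', hA'⟩ := b2 Φ hΦ.1
  obtain ⟨i3, c3, -⟩ := b3 Φ hΦ.1
  obtain ⟨i4, c4, -⟩ := b4 oneT hone
  obtain ⟨i5, c5, -⟩ := b5 oneT hone
  have p4' : 10 * (lam / bb * C) + |Λ| / (ι + 1) + 2 * (lam / bb * (|Mx| + 2 * E)) ≤ ε := by
    linarith
  have wm1 := win hT hT3 hΦ ι (γ := γ) (j := 0) hbb hE hC hv hlam (Or.inl ⟨rfl, rfl, rfl⟩)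
    p1 p2 p3 p4' i2 i4
  have wp1 := win hT hT3 hΦ ι (γ := γ) (j := 1) hbb hE hC hv hlam (Or.inr ⟨rfl, rfl, rfl⟩)
    p1 p2 p3 p4' i3 i5
  rw [AA_eq hS hT3 hΦ ι hbb hlam fun d P => (hv d P).1] at wm1
  have hT' : ENNReal.ofReal ((ι : ℝ) ^ (th γ + 1)) * TT M γ lam Mx ι ≤
      ENNReal.ofReal (η1 * lam) := b1 lam ⟨hlam, q1⟩
  have hli : 0 ≤ lam⁻¹ := (inv_pos.2 hlam).le
  have nF : ∀ I y, 0 ≤ Fw I lam y := fun I y =>
    mul_nonneg hli (Finset.sum_nonneg fun d _ => ps_nonneg I d y)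
  have nD : ∀ y, 0 ≤ Dl lam y := fun y =>
    mul_nonneg hli (Finset.sum_nonneg fun d _ => indR_nonneg _)
  change |(ι : ℝ) ^ (th γ + 1) * ∫ ω, EI M γ Φ (ι + 0) (Fw (Ioc (-lam) 0) lam) ω ∂gm -
    wm * M.aL γ Φ ι| ≤ η1 at c2
  change |((ι + 1 : ℕ) : ℝ) ^ (th γ + 1) * ∫ ω, EI M γ Φ (ι + 1) (Fw (Ioc 0 lam) lam) ω ∂gm -
    wp * M.aL γ Φ (ι + 1)| ≤ η1 at c3
  change |(ι : ℝ) ^ (th γ + 1) * ∫ ω, EI M γ oneT (ι + 0) (Dl lam) ω ∂gm -
    cc γ (Dl lam) / cc γ one * M.aL γ oneT ι| ≤ η1 at c4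
  change |((ι + 1 : ℕ) : ℝ) ^ (th γ + 1) * ∫ ω, EI M γ oneT (ι + 1) (Dl lam) ω ∂gm -
    cc γ (Dl lam) / cc γ one * M.aL γ oneT (ι + 1)| ≤ η1 at c5
  have n1 := EI_nonneg M γ (fun T => (hΦ.1 T).1) (ι + 0) (nF (Ioc (-lam) 0))
  have n2 := EI_nonneg M γ (fun T => (hΦ.1 T).1) (ι + 1) (nF (Ioc 0 lam))
  have n3 := EI_nonneg M γ (fun T => (hone T).1) (ι + 0) nD
  have n4 := EI_nonneg M γ (fun T => (hone T).1) (ι + 1) nD
  have hp : 0 ≤ (ι : ℝ) ^ (th γ + 1) := by positivity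
  have k1 := to_real n1 n4 n3 hp hε.le hη1.le hlam wp1.2 wm1.1 hT'
  have k2 := to_real n2 n3 n4 hp hε.le hη1.le hlam wm1.2 wp1.1 hT'
  generalize ∫ ω, EI M γ Φ (ι + 0) (Fw (Ioc (-lam) 0) lam) ω ∂gm = Bm at *
  generalize ∫ ω, EI M γ Φ (ι + 1) (Fw (Ioc 0 lam) lam) ω ∂gm = Bp at *
  generalize ∫ ω, EI M γ oneT (ι + 0) (Dl lam) ω ∂gm = em at *
  generalize ∫ ω, EI M γ oneT (ι + 1) (Dl lam) ω ∂gm = ep at *
  push_cast at c3 c5
  have hr : (ι : ℝ) ^ (th γ + 1) =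
      ((ι : ℝ) / (ι + 1)) ^ (th γ + 1) * ((ι : ℝ) + 1) ^ (th γ + 1) := by
    rw [← Real.mul_rpow (by positivity) (by positivity), div_mul_cancel₀ _ (by positivity)]
  have hr0 : 0 ≤ ((ι : ℝ) / (ι + 1)) ^ (th γ + 1) := by positivity
  have hr1 : ((ι : ℝ) / (ι + 1)) ^ (th γ + 1) ≤ 1 :=
    Real.rpow_le_one (by positivity) (div_le_one_of_le₀ (by linarith) (by positivity))
      (by linarith)
  have hq : 0 ≤ ((ι : ℝ) + 1) ^ (th γ + 1) := by positivity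
  generalize ((ι : ℝ) / (ι + 1)) ^ (th γ + 1) = r at *
  generalize ((ι : ℝ) + 1) ^ (th γ + 1) = q at *
  generalize (ι : ℝ) ^ (th γ + 1) = p at *
  have hD : ∀ n, cc γ (Dl lam) / cc γ one * M.aL γ oneT n ≤ K / cc γ one * A := fun n =>
    mul_le_mul (div_le_div_of_nonneg_right (hK lam ⟨hlam, q1⟩) hc1.le) (hAb n)
      ((hA' n).1.trans (hA' n).2.1) (div_nonneg hK0 hc1.le)
  have d1 : p * em ≤ K' := by linarith [(abs_le.1 c4).2, hD ι]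
  have d2 : p * ep ≤ K' := by
    have : r * (q * ep) ≤ q * ep := mul_le_of_le_one_left (mul_nonneg hq n4) hr1
    rw [hr, mul_assoc]
    linarith [(abs_le.1 c5).2, hD (ι + 1)]
  have d3 : ε * (p * em) ≤ η1 := by rw [← hεK]; exact mul_le_mul_of_nonneg_left d1 hε.le
  have d4 : ε * (p * ep) ≤ η1 := by rw [← hεK]; exact mul_le_mul_of_nonneg_left d2 hε.le
  have d5 : q * Bp ≤ wp * A + η1 := by
    have : wp * M.aL γ Φ (ι + 1) ≤ wp * A :=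
      mul_le_mul_of_nonneg_left ((hA' _).2.1.trans (hAb _)) hwp
    linarith [(abs_le.1 c3).2]
  have d6 : q * Bp - p * Bp = (1 - r) * (q * Bp) := by rw [hr]; ring
  have d7 : (1 - r) * (q * Bp) ≤ η1 :=
    (mul_le_mul_of_nonneg_left d5 (sub_nonneg.2 hr1)).trans b7
  have d8 : 0 ≤ (1 - r) * (q * Bp) := mul_nonneg (sub_nonneg.2 hr1) (mul_nonneg hq n2)
  rw [abs_le] at c2 c3 ⊢
  constructor <;> linarith [c2.1, c2.2, c3.1, c3.2]

end

end Pool.Agent.Lib.APPS
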