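import Pool.Agent.Lib.APPS.Blue4

/-!
Block LF1, deterministic part.
-/

namespace Pool.Agent.Lib.APPS

open MeasureTheory ProbabilityTheory Filter Topology Set Metric
open scoped NNReal ENNReal CompactlySupported BoundedContinuousFunction RealInnerProductSpace
  Classical

noncomputable section

namespace LF1

theorem vt_nonneg (t : ℝ) : 0 ≤ vt t := le_min zero_le_one (le_max_left _ _)

theorem vt_le_one (t : ℝ) : vt t ≤ 1 := min_le_left _ _

theorem vt_ne {t : ℝ} (h : vt t ≠ 0) : t < -1 / 2 := by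
  by_contra hc
  apply h
  unfold vt
  rw [max_eq_left (by linarith)]
  simp

theorem vt_lip (s t : ℝ) : |vt s - vt t| ≤ 2 * |s - t| := by
  unfold vt
  refine (abs_min_sub_min_le_max _ _ _ _).trans (max_le (by simp) ?_)
  refine (abs_max_sub_max_le_max _ _ _ _).trans (max_le (by simp) ?_)
  have : -2 * s - 1 - (-2 * t - 1) = -2 * (s - t) := by ring
  rw [this, abs_mul]
  norm_num

theorem vt_cont : Continuous vt := by
  unfold vt
  fun_prop

theorem prod_lip {ι : Type} (s : Finset ι) (a b : ι → ℝ) (ha : ∀ i, 0 ≤ a i ∧ a i ≤ 1)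
    (hb : ∀ i, 0 ≤ b i ∧ b i ≤ 1) :
    |∏ i ∈ s, a i - ∏ i ∈ s, b i| ≤ ∑ i ∈ s, |a i - b i| := by
  induction s using Finset.induction_on with
  | empty => simp
  | insert i s hi ih =>
    rw [Finset.prod_insert hi, Finset.prod_insert hi, Finset.sum_insert hi]
    have h1 : 0 ≤ ∏ j ∈ s, b j := Finset.prod_nonneg fun j _ => (hb j).1
    have h2 : ∏ j ∈ s, b j ≤ 1 := Finset.prod_le_one (fun j _ => (hb j).1) fun j _ => (hb j).2
    have e : a i * ∏ j ∈ s, a j - b i * ∏ j ∈ s, b j =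
        a i * (∏ j ∈ s, a j - ∏ j ∈ s, b j) + (a i - b i) * ∏ j ∈ s, b j := by ring
    rw [e]
    refine (abs_add_le _ _).trans ?_
    rw [abs_mul, abs_mul, abs_of_nonneg (ha i).1, abs_of_nonneg h1]
    have h3 := mul_le_of_le_one_left (abs_nonneg (∏ j ∈ s, a j - ∏ j ∈ s, b j)) (ha i).2
    have h4 := mul_le_of_le_one_right (abs_nonneg (a i - b i)) h2
    linarith

/-- robust closure weight -/
def VV (x : Dy → ℝ) (S : Dy) : ℝ := vt (x (sib S)) * ∏ c : Fin 2 × Fin 2, vt (x (c :: S))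

theorem VV_nonneg (x : Dy → ℝ) (S : Dy) : 0 ≤ VV x S :=
  mul_nonneg (vt_nonneg _) (Finset.prod_nonneg fun _ _ => vt_nonneg _)

theorem VV_le_one (x : Dy → ℝ) (S : Dy) : VV x S ≤ 1 :=
  mul_le_one₀ (vt_le_one _) (Finset.prod_nonneg fun _ _ => vt_nonneg _)
    (Finset.prod_le_one (fun _ _ => vt_nonneg _) fun _ _ => vt_le_one _)

theorem VV_ne {x : Dy → ℝ} {S : Dy} (h : VV x S ≠ 0) :
    x (sib S) < -1 / 2 ∧ ∀ c, x (c :: S) < -1 / 2 := by
  unfold VV at h
  refine ⟨vt_ne (left_ne_zero_of_mul h), fun c => vt_ne ?_⟩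
  exact Finset.prod_ne_zero_iff.1 (right_ne_zero_of_mul h) c (Finset.mem_univ c)

theorem VV_lip {x y : Dy → ℝ} {κ : ℝ} (h : ∀ B, |x B - y B| ≤ κ) (S : Dy) :
    |VV x S - VV y S| ≤ 10 * κ := by
  unfold VV
  set p := ∏ c : Fin 2 × Fin 2, vt (x (c :: S))
  set q := ∏ c : Fin 2 × Fin 2, vt (y (c :: S))
  have h1 : |p - q| ≤ 8 * κ := by
    refine (prod_lip _ _ _ (fun _ => ⟨vt_nonneg _, vt_le_one _⟩)
      fun _ => ⟨vt_nonneg _, vt_le_one _⟩).trans ?_
    refine (Finset.sum_le_sum (g := fun _ => 2 * κ) fun c _ => (vt_lip _ _).trans ?_).trans ?_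
    · linarith [h (c :: S)]
    · simp; linarith
  have hq0 : 0 ≤ q := Finset.prod_nonneg fun _ _ => vt_nonneg _
  have hq1 : q ≤ 1 := Finset.prod_le_one (fun _ _ => vt_nonneg _) fun _ _ => vt_le_one _
  have h2 : |vt (x (sib S)) - vt (y (sib S))| ≤ 2 * κ := (vt_lip _ _).trans (by linarith [h (sib S)])
  have e : vt (x (sib S)) * p - vt (y (sib S)) * q =
      vt (x (sib S)) * (p - q) + (vt (x (sib S)) - vt (y (sib S))) * q := by ring
  rw [e]
  refine (abs_add_le _ _).trans ?_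
  rw [abs_mul, abs_mul, abs_of_nonneg (vt_nonneg _), abs_of_nonneg hq0]
  have h3 := mul_le_of_le_one_left (abs_nonneg (p - q)) (vt_le_one (x (sib S)))
  have h4 := mul_le_of_le_one_right (abs_nonneg (vt (x (sib S)) - vt (y (sib S)))) hq1
  linarith

theorem VV_meas (S : Dy) : Measurable fun x : Dy → ℝ => VV x S := by
  unfold VV
  exact (vt_cont.measurable.comp (measurable_pi_apply _)).mul
    (Finset.measurable_prod _ fun c _ => vt_cont.measurable.comp (measurable_pi_apply _))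

theorem suffix_step {S A : Dy} (h : S <:+ A) (hne : A ≠ S) : ∃ c, c :: S <:+ A := by
  obtain ⟨l, rfl⟩ := h
  rcases List.eq_nil_or_concat l with rfl | ⟨l', c, rfl⟩
  · simp at hne
  · exact ⟨c, l', by simp⟩

theorem intN_cons (x : Dy → ℝ) (d : Fin 2 × Fin 2) (P : Dy) :
    IntN x (d :: P) ↔ IntN x P ∧ 0 < x (d :: P) := by
  constructor
  · intro h
    exact ⟨fun B hB => h B (hB.trans (List.suffix_cons d P)), h _ List.suffix_rfl⟩
  · rintro ⟨h1, h2⟩ B hB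
    rcases List.suffix_cons_iff.1 hB with rfl | hB
    · exact h2
    · exact h1 B hB

theorem nB_sub_zero {y : Dy → ℝ} {A : Dy} (h : y A ≤ 0) : nB (sub y A) = 0 := by
  unfold nB
  refine ENNReal.tsum_eq_zero.2 fun B => ?_
  unfold ind
  rw [if_neg]
  intro hB
  have := hB [] List.nil_suffix
  simp only [sub, List.nil_append] at this
  linarith

theorem intN_iff {x y : Dy → ℝ} {S : Dy}
    (hxy : ∀ B, ¬S <:+ B → ¬sib S <:+ B → x B = y B)
    (hx : x (sib S) ≤ 0 ∧ ∀ c, x (c :: S) ≤ 0) (hy : y (sib S) ≤ 0 ∧ ∀ c, y (c :: S) ≤ 0)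
    {A : Dy} (hA : A ≠ S) : IntN x A ↔ IntN y A := by
  by_cases h1 : sib S <:+ A
  · exact ⟨fun h => absurd (h _ h1) (not_lt.2 hx.1), fun h => absurd (h _ h1) (not_lt.2 hy.1)⟩
  by_cases h2 : S <:+ A
  · obtain ⟨c, hc⟩ := suffix_step h2 hA
    exact ⟨fun h => absurd (h _ hc) (not_lt.2 (hx.2 c)),
      fun h => absurd (h _ hc) (not_lt.2 (hy.2 c))⟩
  have : ∀ B, B <:+ A → x B = y B := fun B hB =>
    hxy B (fun h => h2 (h.trans hB)) fun h => h1 (h.trans hB)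
  exact ⟨fun h B hB => this B hB ▸ h B hB, fun h B hB => (this B hB).symm ▸ h B hB⟩

theorem nB_succ {x y : Dy → ℝ} {S : Dy} (h : ∀ A, A ≠ S → (IntN x A ↔ IntN y A))
    (hx : IntN x S) (hy : ¬IntN y S) : nB x = nB y + 1 := by
  unfold nB
  rw [ENNReal.tsum_eq_add_tsum_ite (f := fun A => ind (IntN x A)) S,
    ENNReal.tsum_eq_add_tsum_ite (f := fun A => ind (IntN y A)) S]
  have e1 : ind (IntN x S) = 1 := if_pos hx
  have e2 : ind (IntN y S) = 0 := if_neg hy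
  rw [e1, e2, zero_add, add_comm]
  congr 1
  refine tsum_congr fun A => ?_
  split_ifs with hA
  · rfl
  · rw [propext (h A hA)]

/-- comparison of the trees on the two sides of the projection -/
theorem det2 (hT : St_T1) {x y : Dy → ℝ} {d : Fin 2 × Fin 2} {P : Dy}
    (h : ∀ A, A ≠ d :: P → (IntN x A ↔ IntN y A)) (hy : y (d :: P) ≤ 0) {j : ℕ}
    (hj : (j = 0 ∧ x (d :: P) ≤ 0) ∨ (j = 1 ∧ 0 < x (d :: P))) (ι : ℕ) {Λ : ℝ}
    {Φ : Finset Dy → ℝ} (hΦ : Cls Λ Φ) :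
    ((IntN y P ∧ nB y = ι) ↔ (IntN x P ∧ nB x = ((ι + j : ℕ) : ℝ≥0∞))) ∧
      (IntN x P ∧ nB x = ((ι + j : ℕ) : ℝ≥0∞) → |Φ (tr y) - Φ (tr x)| ≤ |Λ| / (ι + 1)) := by
  obtain ⟨-, -, -, -, -, -, -, -, -, -, -, hHT, hfin, -, hIs, -⟩ := hT
  have hP : IntN x P ↔ IntN y P := h P (List.cons_ne_self d P).symm
  have hyS : ¬IntN y (d :: P) := fun hh => absurd (hh _ List.suffix_rfl) (not_lt.2 hy)
  rcases hj with ⟨rfl, hx⟩ | ⟨rfl, hx⟩
  · have hall : ∀ A, IntN x A ↔ IntN y A := fun A => by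
      by_cases hA : A = d :: P
      · subst hA
        exact ⟨fun hh => absurd (hh _ List.suffix_rfl) (not_lt.2 hx), fun hh => absurd hh hyS⟩
      · exact h A hA
    have e : IntN x = IntN y := funext fun A => propext (hall A)
    have e1 : nB x = nB y := by unfold nB; rw [e]
    have e2 : tr x = tr y := by unfold tr; rw [e]
    rw [e1, e2, hP]
    refine ⟨by simp, fun _ => ?_⟩
    rw [sub_self, abs_zero]
    positivity
  · have key : IntN x P → nB x = nB y + 1 := fun hh =>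
      nB_succ h ((intN_cons x d P).2 ⟨hh, hx⟩) hyS
    have hiff : (IntN y P ∧ nB y = ι) ↔ (IntN x P ∧ nB x = ((ι + 1 : ℕ) : ℝ≥0∞)) := by
      constructor
      · rintro ⟨h1, h2⟩
        exact ⟨hP.2 h1, by rw [key (hP.2 h1), h2]; push_cast; rfl⟩
      · rintro ⟨h1, h2⟩
        refine ⟨hP.1 h1, ?_⟩
        rw [key h1] at h2
        push_cast at h2
        exact (ENNReal.add_left_inj ENNReal.one_ne_top).1 h2
    refine ⟨hiff, fun hh => ?_⟩
    obtain ⟨-, hy2⟩ := hiff.2 hh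
    have hx1 := hfin x (by rw [hh.2]; exact ENNReal.natCast_ne_top _)
    have hy1 := hfin y (by rw [hy2]; exact ENNReal.natCast_ne_top _)
    have hsub : tr y ⊆ tr x := fun A hA => by
      have hA' := (hy1 A).1 hA
      refine (hx1 A).2 ((h A ?_).2 hA')
      rintro rfl
      exact hyS hA'
    have c1 : (tr x).card = ι + 1 := by
      have := (hHT x _ hx1).2.2.1
      rw [hh.2] at this
      exact_mod_cast this.symm
    have c2 : (tr y).card = ι := by
      have := (hHT y _ hy1).2.2.1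
      rw [hy2] at this
      exact_mod_cast this.symm
    refine (hΦ.2 _ _ (hIs y) (hIs x) hsub).trans ?_
    rw [c1, c2]
    push_cast
    rw [add_sub_cancel_left, mul_one]
    exact div_le_div_of_nonneg_right (le_abs_self _) (by positivity)

theorem indR_nonneg (p : Prop) : 0 ≤ indR p := by unfold indR; split_ifs <;> norm_num

theorem indR_le_one (p : Prop) : indR p ≤ 1 := by unfold indR; split_ifs <;> norm_num

theorem indR_pos {p : Prop} (h : p) : indR p = 1 := if_pos h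

theorem indR_neg {p : Prop} (h : ¬p) : indR p = 0 := if_neg h

theorem ofReal_indR (p : Prop) : ENNReal.ofReal (indR p) = ind p := by
  unfold indR ind; split_ifs <;> simp

/-- the weighted indicator -/
def GG (Φ : Finset Dy → ℝ) (n : ℕ) (d : Fin 2 × Fin 2) (P : Dy) (x : Dy → ℝ) : ℝ :=
  indR (IntN x P ∧ nB x = n) * Φ (tr x) * VV x (d :: P)

theorem GG_nonneg {Λ : ℝ} {Φ : Finset Dy → ℝ} (hΦ : Cls Λ Φ) (n : ℕ) (d : Fin 2 × Fin 2) (P : Dy)
    (x : Dy → ℝ) : 0 ≤ GG Φ n d P x :=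
  mul_nonneg (mul_nonneg (indR_nonneg _) (hΦ.1 _).1) (VV_nonneg _ _)

theorem GG_le_one {Λ : ℝ} {Φ : Finset Dy → ℝ} (hΦ : Cls Λ Φ) (n : ℕ) (d : Fin 2 × Fin 2) (P : Dy)
    (x : Dy → ℝ) : GG Φ n d P x ≤ 1 :=
  mul_le_one₀ (mul_le_one₀ (indR_le_one _) (hΦ.1 _).1 (hΦ.1 _).2) (VV_nonneg _ _) (VV_le_one _ _)

theorem det3 (hT : St_T1) {x y : Dy → ℝ} {d : Fin 2 × Fin 2} {P : Dy} {κ : ℝ} (hκ : κ ≤ 1 / 4)
    (hb : ∀ B, |y B - x B| ≤ κ)
    (hxy : ∀ B, ¬d :: P <:+ B → ¬sib (d :: P) <:+ B → x B = y B) (hy : y (d :: P) ≤ 0) {j : ℕ}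
    (hj : (j = 0 ∧ x (d :: P) ≤ 0) ∨ (j = 1 ∧ 0 < x (d :: P))) (ι : ℕ) {Λ : ℝ}
    {Φ : Finset Dy → ℝ} (hΦ : Cls Λ Φ) (hne : GG Φ ι d P y ≠ 0 ∨ GG Φ (ι + j) d P x ≠ 0) :
    (IntN x P ∧ nB x = ((ι + j : ℕ) : ℝ≥0∞)) ∧
      (x (sib (d :: P)) ≤ -1 / 4 ∧ ∀ c, x (c :: d :: P) ≤ -1 / 4) ∧
      |GG Φ ι d P y - GG Φ (ι + j) d P x| ≤ 10 * κ + |Λ| / (ι + 1) := by
  have hV : VV y (d :: P) ≠ 0 ∨ VV x (d :: P) ≠ 0 :=
    hne.imp (fun h => right_ne_zero_of_mul h) fun h => right_ne_zero_of_mul h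
  have hneg : (x (sib (d :: P)) ≤ -1 / 4 ∧ ∀ c, x (c :: d :: P) ≤ -1 / 4) ∧
      (y (sib (d :: P)) ≤ -1 / 4 ∧ ∀ c, y (c :: d :: P) ≤ -1 / 4) := by
    rcases hV with hV | hV
    · obtain ⟨h1, h2⟩ := VV_ne hV
      exact ⟨⟨by linarith [(abs_le.1 (hb (sib (d :: P)))).1],
        fun c => by linarith [(abs_le.1 (hb (c :: d :: P))).1, h2 c]⟩,
        by linarith, fun c => by linarith [h2 c]⟩
    · obtain ⟨h1, h2⟩ := VV_ne hV
      exact ⟨⟨by linarith, fun c => by linarith [h2 c]⟩,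
        by linarith [(abs_le.1 (hb (sib (d :: P)))).2],
        fun c => by linarith [(abs_le.1 (hb (c :: d :: P))).2, h2 c]⟩
  have hI : ∀ A, A ≠ d :: P → (IntN x A ↔ IntN y A) := fun A hA =>
    intN_iff hxy ⟨by linarith [hneg.1.1], fun c => by linarith [hneg.1.2 c]⟩
      ⟨by linarith [hneg.2.1], fun c => by linarith [hneg.2.2 c]⟩ hA
  obtain ⟨h1, h2⟩ := det2 hT hI hy hj ι hΦ
  have hx : IntN x P ∧ nB x = ((ι + j : ℕ) : ℝ≥0∞) := by
    by_contra hc
    rcases hne with hne | hne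
    · exact hne (by unfold GG; rw [indR_neg fun hh => hc (h1.1 hh)]; ring)
    · exact hne (by unfold GG; rw [indR_neg hc]; ring)
  refine ⟨hx, hneg.1, ?_⟩
  unfold GG
  rw [indR_pos hx, indR_pos (h1.2 hx), one_mul, one_mul]
  have e : Φ (tr y) * VV y (d :: P) - Φ (tr x) * VV x (d :: P) =
      Φ (tr y) * (VV y (d :: P) - VV x (d :: P)) + (Φ (tr y) - Φ (tr x)) * VV x (d :: P) := by
    ring
  rw [e]
  refine (abs_add_le _ _).trans ?_
  rw [abs_mul, abs_mul, abs_of_nonneg (hΦ.1 _).1, abs_of_nonneg (VV_nonneg _ _)]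
  have h3 := mul_le_of_le_one_left (abs_nonneg (VV y (d :: P) - VV x (d :: P))) (hΦ.1 (tr y)).2
  have h4 := mul_le_of_le_one_right (abs_nonneg (Φ (tr y) - Φ (tr x))) (VV_le_one x (d :: P))
  linarith [VV_lip hb (d :: P), h2 hx]

theorem box_cons (d : Fin 2 × Fin 2) (S : Dy) : box (d :: S) ⊆ box S := by
  intro z hz
  have hs : side (d :: S) = side S / 2 := by
    unfold side; rw [List.length_cons, pow_succ]; ring
  have h0 : 0 < side S := by unfold side; positivity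
  have h1 : ((d.1 : ℕ) : ℝ) ≤ 1 := by exact_mod_cast Nat.lt_succ_iff.1 d.1.2
  have h2 : ((d.2 : ℕ) : ℝ) ≤ 1 := by exact_mod_cast Nat.lt_succ_iff.1 d.2.2
  have h1' : (0 : ℝ) ≤ ((d.1 : ℕ) : ℝ) := Nat.cast_nonneg _
  have h2' : (0 : ℝ) ≤ ((d.2 : ℕ) : ℝ) := Nat.cast_nonneg _
  have hre : (corner (d :: S)).re = (corner S).re + side S / 2 * ((d.1 : ℕ) : ℝ) := by
    simp [corner, hs]
  have him : (corner (d :: S)).im = (corner S).im + side S / 2 * ((d.2 : ℕ) : ℝ) := by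
    simp [corner, hs]
  obtain ⟨⟨a1, a2⟩, a3, a4⟩ := hz
  rw [hre] at a1 a2
  rw [him] at a3 a4
  rw [hs] at a2 a4
  refine ⟨⟨?_, ?_⟩, ?_, ?_⟩ <;> nlinarith

theorem box_sub (S : Dy) : box S ⊆ box [] := by
  induction S with
  | nil => exact Subset.rfl
  | cons d S ih => exact (box_cons d S).trans ih

theorem sib_ne (d : Fin 2 × Fin 2) (P : Dy) : sib (d :: P) ≠ d :: P := by
  intro h
  have h1 : d.1 + 1 = d.1 := congrArg Prod.fst (List.cons.inj h).1
  revert h1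
  generalize d.1 = a
  decide +revert

theorem not_suf_of_len {A B : Dy} (h : A.length = B.length) (hne : A ≠ B) : ¬A <:+ B :=
  fun hs => hne (hs.eq_of_length h)

/-- the properties of the direction `vs` -/
theorem vs_facts (hB : St_BMP) : ∃ E C : ℝ, 0 < E ∧ 0 < C ∧ ∀ M : Model, box [] ⊆ M.O →
    ∀ d P, ⟪M.vs (d :: P), M.eS (d :: P)⟫ = bb ∧ ‖M.vs (d :: P)‖ ^ 2 ≤ 4 * E ∧
      (∀ B, |⟪M.vs (d :: P), M.eS B⟫| ≤ C) ∧
      ∀ B, ¬d :: P <:+ B → ¬sib (d :: P) <:+ B → ⟪M.vs (d :: P), M.eS B⟫ = 0 := by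
  obtain ⟨-, E, C, hE, hC, -, hM⟩ := hB
  refine ⟨E, C, hE, hC, fun M hO d P => ?_⟩
  obtain ⟨-, h2, h3, -, h5, h6, -⟩ := hM M
  have hb : ∀ S, box S ⊆ M.O := fun S => (box_sub S).trans hO
  have hlen : (sib (d :: P)).length = (d :: P).length := rfl
  have hside : side (sib (d :: P)) = side (d :: P) := rfl
  have hs0 : side (d :: P) ≠ 0 := by unfold side; positivity
  unfold Model.vs
  refine ⟨?_, ?_, fun B => ?_, fun B h1 h1' => ?_⟩
  · rw [inner_sub_left, h5 _ _ (hb _) List.suffix_rfl,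
      (h3 _ _ (not_suf_of_len hlen (sib_ne d P)) (not_suf_of_len hlen.symm (sib_ne d P).symm)).2
        (hb _), div_self hs0]
    ring
  · have a1 := norm_sub_le (M.ub (d :: P)) (M.ub (sib (d :: P)))
    have a2 := h2 (d :: P)
    have a3 := h2 (sib (d :: P))
    have a4 := pow_le_pow_left₀ (norm_nonneg _) a1 2
    nlinarith [sq_nonneg (‖M.ub (d :: P)‖ - ‖M.ub (sib (d :: P))‖)]
  · rw [inner_sub_left]
    have a1 := h6 (d :: P) B (hb _)
    have a2 := h6 (sib (d :: P)) B (hb _)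
    rw [abs_le]
    constructor <;> linarith
  · rw [inner_sub_left]
    by_cases hBS : B <:+ d :: P
    · have hBP : B <:+ P := by
        rcases List.suffix_cons_iff.1 hBS with rfl | h
        · exact absurd List.suffix_rfl h1
        · exact h
      have hBs : B <:+ sib (d :: P) := hBP.trans (List.suffix_cons _ P)
      rw [h5 _ _ (hb _) hBS, h5 _ _ (hb _) hBs, hside, sub_self]
    · have hBs : ¬B <:+ sib (d :: P) := fun h => by
        rcases List.suffix_cons_iff.1 h with h | h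
        · exact h1' (h ▸ List.suffix_rfl)
        · exact hBS (h.trans (List.suffix_cons d P))
      rw [(h3 _ _ h1 hBS).2 (hb _), (h3 _ _ h1' hBs).2 (hb _), sub_self]

end LF1

end

end Pool.Agent.Lib.APPS
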