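import Pool.Agent.Lib.APPS.Blue2
import Pool.Agent.Lib.APPS.B_MBg

/-!
Law of large numbers: deterministic lemmas, removal of the top of the tree, fluctuation bound.
-/

namespace Pool.Agent.Lib.APPS

open MeasureTheory ProbabilityTheory Filter Topology Set Metric
open scoped NNReal ENNReal RealInnerProductSpace Classical

noncomputable section

namespace LLN

open MB

theorem SR_nil (F : (Dy → ℝ) → ℝ) (x : Dy → ℝ) : SR F x [] = ∑ A ∈ tr x, F (sub x A) := by
  unfold SR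
  rw [Finset.filter_true_of_mem fun A _ => List.nil_suffix]

theorem SR_nonneg {F : (Dy → ℝ) → ℝ} (hF : Mono F) (x : Dy → ℝ) : 0 ≤ SR F x [] := by
  rw [SR_nil]; exact Finset.sum_nonneg fun A _ => (hF.2.1 _).1

theorem SR_le (hT1 : St_T1) {F : (Dy → ℝ) → ℝ} (hF : Mono F) (x : Dy → ℝ) :
    ENNReal.ofReal (SR F x []) ≤ nB x := by
  obtain ⟨-, -, -, -, -, -, -, -, -, -, -, t12, t13, -⟩ := hT1
  by_cases h : nB x = ∞
  · rw [h]; exact le_top
  rw [(t12 x _ (t13 x h)).2.2.1, SR_nil, ← ENNReal.ofReal_natCast]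
  refine ENNReal.ofReal_le_ofReal ?_
  refine (Finset.sum_le_card_nsmul _ _ 1 fun A _ => (hF.2.1 _).2).trans ?_
  simp

theorem SR_mono (hT1 : St_T1) {F : (Dy → ℝ) → ℝ} (hF : Mono F) {x y : Dy → ℝ}
    (hxy : ∀ S, x S ≤ y S) (hy : nB y ≠ ∞) : SR F x [] ≤ SR F y [] := by
  obtain ⟨-, -, -, -, -, -, -, -, -, -, -, -, t13, -, -, t16, -⟩ := hT1
  have hx : nB x ≠ ∞ := ne_top_of_le_ne_top hy (t16 x y hxy)
  rw [SR_nil, SR_nil]
  refine le_trans (Finset.sum_le_sum fun A _ => hF.2.2 (sub x A) (sub y A) fun S => hxy _) ?_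
  refine Finset.sum_le_sum_of_subset_of_nonneg (fun A hA => ?_) fun A _ _ => (hF.2.1 _).1
  rw [t13 y hy A]
  exact fun B hB => ((t13 x hx A).1 hA B hB).trans_le (hxy B)

/-- squares of level at most `l` -/
def upto (l : ℕ) : Finset Dy := (Finset.range (l + 1)).biUnion lev

theorem mem_upto (hT1 : St_T1) {l : ℕ} {A : Dy} (h : A.length ≤ l) : A ∈ upto l :=
  Finset.mem_biUnion.2 ⟨A.length, Finset.mem_range.2 (by omega), (hT1.1 _ _).2 rfl⟩

theorem top_pt (hT1 : St_T1) {F : (Dy → ℝ) → ℝ} (hF : Mono F) (x : Dy → ℝ) (l : ℕ)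
    (hx : nB x ≠ ∞) :
    ENNReal.ofReal |SR F x [] - ∑ T ∈ lev l, SR F (sub x T) []| ≤
      (upto l).card + ∑ T ∈ lev l, ind (¬IntN x T) * nB (sub x T) := by
  have hT1' := hT1
  obtain ⟨-, -, -, -, -, -, -, -, -, -, -, -, -, -, -, -, -, -, -, t20, -, t22⟩ := hT1'
  have h1 : 0 ≤ ∑ A ∈ (tr x).filter (fun A => A.length < l), F (sub x A) :=
    Finset.sum_nonneg fun A _ => (hF.2.1 _).1
  have h2 : ∑ A ∈ (tr x).filter (fun A => A.length < l), F (sub x A) ≤ (upto l).card := by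
    refine (Finset.sum_le_card_nsmul _ _ 1 fun A _ => (hF.2.1 _).2).trans ?_
    rw [nsmul_eq_mul, mul_one]
    have h0 : ((tr x).filter (fun A => A.length < l)).card ≤ (upto l).card :=
      Finset.card_le_card fun A hA => mem_upto hT1 (le_of_lt (Finset.mem_filter.1 hA).2)
    exact_mod_cast h0
  have h3 : ∑ T ∈ lev l, SR F (sub x T) [] - ∑ T ∈ lev l, SR F x T =
      ∑ T ∈ lev l, indR (¬IntN x T) * SR F (sub x T) [] := by
    rw [← Finset.sum_sub_distrib]
    refine Finset.sum_congr rfl fun T _ => ?_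
    rw [t20 F x T hx]
    by_cases h : IntN x T <;> simp [indR, h]
  have h4 : ∀ T, 0 ≤ indR (¬IntN x T) * SR F (sub x T) [] := fun T =>
    mul_nonneg (by unfold indR; split_ifs <;> norm_num) (SR_nonneg hF _)
  have h5 : 0 ≤ ∑ T ∈ lev l, indR (¬IntN x T) * SR F (sub x T) [] :=
    Finset.sum_nonneg fun T _ => h4 T
  have h6 : |SR F x [] - ∑ T ∈ lev l, SR F (sub x T) []| ≤
      (upto l).card + ∑ T ∈ lev l, indR (¬IntN x T) * SR F (sub x T) [] := by
    rw [t22 F x l hx, abs_le]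
    constructor <;> linarith
  refine (ENNReal.ofReal_le_ofReal h6).trans ?_
  rw [ENNReal.ofReal_add (Nat.cast_nonneg _) h5, ENNReal.ofReal_natCast,
    ENNReal.ofReal_sum_of_nonneg fun T _ => h4 T]
  gcongr with T
  by_cases h : IntN x T
  · simp [indR, h]
  · simpa [indR, ind, h] using SR_le hT1 hF (sub x T)

theorem young (y : ℝ≥0∞) (a q : ℝ) (hq : 1 ≤ q) : y ≤ eE a + eE (-(q - 1) * a) * y ^ q := by
  by_cases hy : y ≤ eE a
  · exact hy.trans le_self_add
  · refine le_trans ?_ le_add_self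
    push Not at hy
    have hy0 : y ≠ 0 := ne_of_gt (lt_of_le_of_lt bot_le hy)
    by_cases hyt : y = ∞
    · rw [hyt, ENNReal.top_rpow_of_pos (by linarith), ENNReal.mul_top (eE_ne_zero _)]
    · have h1 : y ^ q = y * y ^ (q - 1) := by
        conv_lhs => rw [show q = 1 + (q - 1) by ring]
        rw [ENNReal.rpow_add _ _ hy0 hyt, ENNReal.rpow_one]
      have h2 : eE (a * (q - 1)) ≤ y ^ (q - 1) := by
        rw [← eE_rpow]
        exact ENNReal.rpow_le_rpow hy.le (sub_nonneg.2 hq)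
      calc y = eE (-(q - 1) * a) * (y * eE (a * (q - 1))) := by
            rw [mul_left_comm, ← eE_add, show -(q - 1) * a + a * (q - 1) = 0 by ring]
            simp [eE]
        _ ≤ eE (-(q - 1) * a) * y ^ q := by rw [h1]; gcongr

theorem small (B : ℝ≥0∞) (hB : B ≠ ∞) (δ η : ℝ) (hδ : 0 < δ) (hη : 0 < η) :
    ∃ v0 : ℝ, ∀ v ≥ v0, B * eE (-δ * v) ≤ ENNReal.ofReal η := by
  lift B to ℝ≥0 using hB
  refine ⟨B / (η * δ), fun v hv => ?_⟩
  unfold eE
  rw [← ENNReal.ofReal_coe_nnreal, ← ENNReal.ofReal_mul B.coe_nonneg]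
  refine ENNReal.ofReal_le_ofReal ?_
  have h1 := Real.add_one_le_exp (δ * v)
  rw [ge_iff_le, div_le_iff₀ (by positivity)] at hv
  rw [neg_mul, Real.exp_neg, ← div_eq_mul_inv, div_le_iff₀ (Real.exp_pos _)]
  nlinarith

theorem meas_XV (γ : ℝ) (w : Dy → HH) (u : ℝ) : Measurable (XV γ w u) :=
  (meas_drift _ u).comp (meas_fam w)

theorem sub_XV (γ : ℝ) (w : Dy → HH) (u : ℝ) (ω : Om) (T : Dy) :
    sub (XV γ w u ω) T = XV γ (fun S => w (S ++ T)) (u - QQ γ * T.length * l2) ω :=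
  sub_drift _ _ _ _

/-- normalised additive functional -/
def nn (γ : ℝ) (F : (Dy → ℝ) → ℝ) (w : Dy → HH) (u v : ℝ) (ω : Om) : ℝ :=
  Real.exp (-γ * v) * SR F (XV γ w u ω) []

/-- its conditional mean -/
def mm (γ : ℝ) (F : (Dy → ℝ) → ℝ) (g h : Dy → HH) (u v : ℝ) (ω : Om) : ℝ :=
  (∫⁻ ω', ENNReal.ofReal (Real.exp (-γ * v) *
    SR F (drift (QQ γ) (fun S => ω' (g S) + ω (h S)) u) []) ∂gm).toReal

theorem meas_nn (hT3 : St_T3) (γ : ℝ) {F : (Dy → ℝ) → ℝ} (hF : Mono F) (w : Dy → HH) (u v : ℝ) :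
    Measurable (nn γ F w u v) :=
  ((hT3.2.2.2.2.2.2.2.1 F [] hF.1).comp (meas_XV γ w u)).const_mul _

theorem meas_mm (hG1 : St_G1) (hT3 : St_T3) (γ : ℝ) {F : (Dy → ℝ) → ℝ} (hF : Mono F)
    (g h : Dy → HH) (u v : ℝ) : Measurable (mm γ F g h u v) := by
  have : IsProbabilityMeasure gm := hG1.1
  refine Measurable.ennreal_toReal ?_
  refine Measurable.lintegral_prod_right' (f := fun p : Om × Om => ENNReal.ofReal
    (Real.exp (-γ * v) * SR F (drift (QQ γ) (fun S => p.2 (g S) + p.1 (h S)) u) [])) ?_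
  refine ENNReal.measurable_ofReal.comp (Measurable.const_mul ?_ _)
  refine (hT3.2.2.2.2.2.2.2.1 F [] hF.1).comp ((meas_drift _ u).comp ?_)
  exact measurable_pi_lambda _ fun S =>
    ((meas_ev _).comp measurable_snd).add ((meas_ev _).comp measurable_fst)

/-- normalised moment bound at level `l` -/
theorem mom (hMB : St_MB) (hRW1 : St_RW1) (hT3 : St_T3) (γ : ℝ) (hγ : γ ∈ Ioo (0 : ℝ) 2) (q : ℝ)
    (hq : 1 < q) (hq' : q < 4 / γ ^ 2) (C : ℝ) : ∃ K : ℝ≥0∞, K ≠ ∞ ∧ ∃ δ > 0,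
      ∀ (l : ℕ) (w : Dy → HH) (v : ℝ), Gram w (covE (C + l * l2)) →
        4 ^ l * ∫⁻ ω, (eE (-γ * v) * nB (XV γ w (v - QQ γ * l * l2) ω)) ^ q ∂gm ≤
          K * eE (-δ * l) := by
  obtain ⟨K, hK⟩ := hMB γ hγ q (by linarith) hq'
  obtain ⟨-, -, -, -, hgQ, -⟩ := hRW1.2.2 γ hγ
  have hl2 := l2_pos
  have hγ2 : 0 < γ ^ 2 := pow_pos hγ.1 2
  have hδ : 0 < l2 * ((q - 1) * (2 - γ ^ 2 * q / 2)) := by
    rw [lt_div_iff₀ hγ2] at hq'
    have : 0 < 2 - γ ^ 2 * q / 2 := by linarith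
    have : 0 < q - 1 := by linarith
    positivity
  refine ⟨ENNReal.ofReal (max K 0) * eE (γ ^ 2 * q ^ 2 * max C 0 / 2),
    ENNReal.mul_ne_top ENNReal.ofReal_ne_top (eE_ne_top _), _, hδ, fun l w v hw => ?_⟩
  have h1 := hK _ w hw (v - QQ γ * l * l2)
  have h4 : (4 : ℝ≥0∞) ^ l = eE (2 * l * l2) := by
    unfold eE l2
    have : Real.exp (2 * l * Real.log 2) = ((4 ^ l : ℕ) : ℝ) := by
      rw [show 2 * (l : ℝ) * Real.log 2 = ((2 * l : ℕ) : ℝ) * Real.log 2 by push_cast; ring,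
        Real.exp_nat_mul, Real.exp_log two_pos, pow_mul]
      push_cast
      norm_num
    rw [this, ENNReal.ofReal_natCast]
    push_cast
    rfl
  have hm : Measurable fun ω => nB (XV γ w (v - QQ γ * l * l2) ω) ^ q :=
    (hT3.1.comp (meas_XV _ _ _)).pow_const _
  simp only [ENNReal.mul_rpow_of_nonneg _ _ (by linarith : (0 : ℝ) ≤ q)]
  rw [lintegral_const_mul _ hm, eE_rpow, h4]
  have h2 : ∫⁻ ω, nB (XV γ w (v - QQ γ * l * l2) ω) ^ q ∂gm ≤ ENNReal.ofReal (max K 0) *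
      eE (γ * q * (v - QQ γ * l * l2) + γ ^ 2 * q ^ 2 * (max C 0 + l * l2) / 2) := by
    refine h1.trans ?_
    unfold eE
    rw [← ENNReal.ofReal_mul (le_max_right _ _)]
    refine ENNReal.ofReal_le_ofReal (mul_le_mul (le_max_left _ _) (Real.exp_le_exp.2 ?_)
      (Real.exp_pos _).le (le_max_right _ _))
    have h5 : max (C + l * l2) 0 ≤ max C 0 + l * l2 := by
      have : (0 : ℝ) ≤ l * l2 := by positivity
      exact max_le (by linarith [le_max_left C 0]) (by linarith [le_max_right C 0])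
    have h6 := mul_le_mul_of_nonneg_left h5 (by positivity : 0 ≤ γ ^ 2 * q ^ 2)
    linarith
  refine (mul_le_mul' le_rfl (mul_le_mul' le_rfl h2)).trans (le_of_eq ?_)
  rw [mul_left_comm (eE _) (ENNReal.ofReal _), mul_left_comm, ← eE_add, ← eE_add,
    mul_assoc (ENNReal.ofReal _), ← eE_add]
  congr 2
  have : γ * q * (v - QQ γ * l * l2) = γ * q * v - q * (γ * QQ γ) * l * l2 := by ring
  rw [this, hgQ]
  ring

/-- removing the top of the tree -/
theorem top (hG1 : St_G1) (hG1D : St_G1D) (hMB : St_MB) (hRW1 : St_RW1) (hT1 : St_T1)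
    (hT3 : St_T3) (γ : ℝ) (hγ : γ ∈ Ioo (0 : ℝ) 2) {F : (Dy → ℝ) → ℝ} (hF : Mono F) (q : ℝ)
    (hq : 1 < q) (hq' : q < 4 / γ ^ 2) (C η : ℝ) (hη : 0 < η) (l : ℕ) :
    ∃ v0 : ℝ, ∀ v ≥ v0, ∀ w : Dy → HH,
      (∀ T : Dy, Gram (fun S => w (S ++ T)) (covE (C + T.length * l2))) →
      ∫⁻ ω, ENNReal.ofReal |nn γ F w v v ω - ∑ T ∈ lev l,
        nn γ F (fun S => w (S ++ T)) (v - QQ γ * l * l2) v ω| ∂gm ≤ ENNReal.ofReal η := by
  have : IsProbabilityMeasure gm := hG1.1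
  obtain ⟨K, hK, δ, hδ, hmom⟩ := mom hMB hRW1 hT3 γ hγ q hq hq' C
  obtain ⟨K0, hK0⟩ := hMB γ hγ q (by linarith) hq'
  obtain ⟨a, ha⟩ := small (K * eE (-δ * l)) (ENNReal.mul_ne_top hK (eE_ne_top _)) (q - 1) (η / 3)
    (by linarith) (by positivity)
  set D : ℝ≥0∞ := ∑ B ∈ upto l, eE (QQ γ * B.length * l2 + (C + kS B B) / 2) with hD
  have hDt : D ≠ ∞ := ENNReal.sum_ne_top.2 fun B _ => eE_ne_top _
  obtain ⟨v1, hv1⟩ := small (4 ^ l * eE a * D) (ENNReal.mul_ne_top (ENNReal.mul_ne_top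
    (ENNReal.pow_ne_top (by norm_num)) (eE_ne_top _)) hDt) 1 (η / 3) one_pos (by positivity)
  obtain ⟨v2, hv2⟩ := small (upto l).card (ENNReal.natCast_ne_top _) γ (η / 3) hγ.1
    (by positivity)
  refine ⟨max v1 v2, fun v hv w hw => ?_⟩
  have hw0 : Gram w (covE C) := by simpa using hw []
  have hfin : ∀ᵐ ω ∂gm, nB (XV γ w v ω) ≠ ∞ := by
    have hm : Measurable fun ω => nB (XV γ w v ω) ^ q := (hT3.1.comp (meas_XV _ _ _)).pow_const _
    filter_upwards [ae_lt_top hm (ne_top_of_le_ne_top ENNReal.ofReal_ne_top (hK0 C w hw0 v))]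
      with ω hω
    intro h
    rw [h, ENNReal.top_rpow_of_pos (by linarith)] at hω
    exact lt_irrefl _ hω
  have hlen : ∀ T ∈ lev l, T.length = l := fun T hT => (hT1.1 l T).1 hT
  set Y : Dy → Om → ℝ≥0∞ := fun T ω =>
    (eE (-γ * v) * nB (XV γ (fun S => w (S ++ T)) (v - QQ γ * l * l2) ω)) ^ q with hY
  set E : Om → ℝ≥0∞ := fun ω => ∑ B ∈ upto l, eE (-XV γ w v ω B) with hE
  have hYm : ∀ T, Measurable (Y T) := fun T =>
    ((hT3.1.comp (meas_XV _ _ _)).const_mul _).pow_const _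
  have hEm0 : ∀ B, Measurable fun ω => eE (-XV γ w v ω B) := fun B =>
    meas_eE.comp ((measurable_pi_apply B).comp (meas_XV γ w v)).neg
  have hEm : Measurable E := Finset.measurable_sum _ fun B _ => hEm0 B
  have hpt : ∀ᵐ ω ∂gm, ENNReal.ofReal |nn γ F w v v ω - ∑ T ∈ lev l,
        nn γ F (fun S => w (S ++ T)) (v - QQ γ * l * l2) v ω| ≤
      (upto l).card * eE (-γ * v) + ∑ T ∈ lev l, (eE a * E ω + eE (-(q - 1) * a) * Y T ω) := by
    filter_upwards [hfin] with ω hω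
    have e1 : nn γ F w v v ω - ∑ T ∈ lev l, nn γ F (fun S => w (S ++ T)) (v - QQ γ * l * l2) v ω =
        Real.exp (-γ * v) * (SR F (XV γ w v ω) [] - ∑ T ∈ lev l, SR F (sub (XV γ w v ω) T) []) := by
      rw [mul_sub, Finset.mul_sum]
      congr 1
      refine Finset.sum_congr rfl fun T hT => ?_
      rw [sub_XV, hlen T hT]; rfl
    rw [e1, abs_mul, abs_of_pos (Real.exp_pos _), ENNReal.ofReal_mul (Real.exp_pos _).le]
    refine (mul_le_mul' le_rfl (top_pt hT1 hF _ l hω)).trans ?_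
    rw [mul_add, mul_comm, Finset.mul_sum]
    refine add_le_add le_rfl (Finset.sum_le_sum fun T hT => ?_)
    by_cases h : IntN (XV γ w v ω) T
    · simp [ind, h]
    · have h1 : 1 ≤ E ω := by
        simp only [IntN, not_forall, not_lt] at h
        obtain ⟨B, hB, hB'⟩ := h
        refine le_trans ?_ (Finset.single_le_sum (f := fun B => eE (-XV γ w v ω B))
          (fun _ _ => bot_le) (mem_upto hT1 (hB.length_le.trans (hlen T hT).le)))
        refine le_trans (le_of_eq ?_) (eE_mono (neg_nonneg.2 hB'))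
        simp [eE]
      simp only [ind, h, not_false_eq_true, if_true, one_mul]
      rw [sub_XV, hlen T hT]
      refine (young _ a q hq.le).trans (add_le_add (le_mul_of_one_le_right' h1) le_rfl)
  have hEi : ∫⁻ ω, E ω ∂gm = D * eE (-1 * v) := by
    rw [hE, lintegral_finsetSum _ fun B _ => hEm0 B, hD, Finset.sum_mul]
    refine Finset.sum_congr rfl fun B _ => ?_
    have e1 : ∀ ω : Om, eE (-XV γ w v ω B) = eE (QQ γ * B.length * l2 - v) * eE (ω (-w B)) := by
      intro ω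
      rw [← eE_add, map_neg]
      congr 1
      simp only [XV, drift]; ring
    have hm : Measurable fun ω : Om => eE (ω (-w B)) := meas_eE.comp (meas_ev _)
    simp only [e1]
    rw [lintegral_const_mul _ hm, hG1D.1, ← eE_add, ← eE_add, norm_neg,
      ← real_inner_self_eq_norm_sq, hw0 B B]
    congr 1
    simp only [covE]; ring
  refine (lintegral_mono_ae hpt).trans ?_
  have hsm : ∀ T, Measurable fun ω => eE a * E ω + eE (-(q - 1) * a) * Y T ω := fun T =>
    (hEm.const_mul _).add ((hYm T).const_mul _)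
  rw [lintegral_add_left measurable_const, lintegral_const, measure_univ, mul_one,
    lintegral_finsetSum _ fun T _ => hsm T]
  have h3 : ∀ T ∈ lev l, 4 ^ l * ∫⁻ ω, (eE a * E ω + eE (-(q - 1) * a) * Y T ω) ∂gm ≤
      ENNReal.ofReal (η / 3) + ENNReal.ofReal (η / 3) := by
    intro T hT
    rw [lintegral_add_left (hEm.const_mul _), lintegral_const_mul _ hEm,
      lintegral_const_mul _ (hYm T), hEi, mul_add]
    refine add_le_add (le_trans (le_of_eq (by ring)) (hv1 v (le_trans (le_max_left _ _) hv))) ?_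
    have h4 := hmom l (fun S => w (S ++ T)) v (by simpa [hlen T hT] using hw T)
    rw [mul_left_comm, mul_comm]
    exact (mul_le_mul' h4 le_rfl).trans (ha a le_rfl)
  have h5 : ∑ T ∈ lev l, ∫⁻ ω, (eE a * E ω + eE (-(q - 1) * a) * Y T ω) ∂gm ≤
      ENNReal.ofReal (η / 3) + ENNReal.ofReal (η / 3) := by
    have h6 := Finset.sum_le_card_nsmul _ _ _ h3
    rw [← Finset.mul_sum, hT1.2.1 l, nsmul_eq_mul] at h6
    push_cast at h6
    exact (ENNReal.mul_le_mul_iff_right (by positivity) (ENNReal.pow_ne_top (by norm_num))).1 h6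
  refine (add_le_add (hv2 v (le_trans (le_max_right _ _) hv)) h5).trans (le_of_eq ?_)
  rw [← ENNReal.ofReal_add (by positivity) (by positivity),
    ← ENNReal.ofReal_add (by positivity) (by positivity)]
  congr 1; ring

/-- fluctuations around the conditional means -/
theorem ros (hG1 : St_G1) (hG3 : St_G3) (hROS : St_ROS) (hT1 : St_T1) (hT3 : St_T3) (γ : ℝ)
    {F : (Dy → ℝ) → ℝ} (hF : Mono F) (q : ℝ) (hq : 1 < q) (hq2 : q ≤ 2) (J : Type) [Fintype J]
    (g h : J → Dy → HH) (hhg : ∀ j j' S S', ⟪h j S, g j' S'⟫ = 0)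
    (hgg : ∀ j j', j ≠ j' → ∀ S S', ⟪g j S, g j' S'⟫ = 0) (u v : ℝ) :
    ∫⁻ ω, ENNReal.ofReal |∑ j, (nn γ F (fun S => g j S + h j S) u v ω -
        mm γ F (g j) (h j) u v ω)| ∂gm ≤
      3 * (∑ j, ∫⁻ ω, (eE (-γ * v) * nB (XV γ (fun S => g j S + h j S) u ω)) ^ q ∂gm) ^ (1 / q) := by
  have : IsProbabilityMeasure gm := hG1.1
  obtain ⟨CR, hCR⟩ := hROS q hq.le
  set f : J → (J × Dy → ℝ) × (Dy → ℝ) → ℝ≥0∞ := fun j p => ENNReal.ofReal (Real.exp (-γ * v) *
    SR F (drift (QQ γ) (fun S => p.2 S + p.1 (j, S)) u) []) with hf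
  have hfm : ∀ j, Measurable (f j) := by
    intro j
    refine ENNReal.measurable_ofReal.comp (Measurable.const_mul ?_ _)
    refine (hT3.2.2.2.2.2.2.2.1 F [] hF.1).comp ((meas_drift _ u).comp ?_)
    exact measurable_pi_lambda _ fun S =>
      ((measurable_pi_apply S).comp measurable_snd).add
        ((measurable_pi_apply (j, S)).comp measurable_fst)
  set Z0 : Om → (J × Dy → ℝ) := fun ω p => ω (h p.1 p.2) with hZ0
  set Z : J → Om → (Dy → ℝ) := fun j ω S => ω (g j S) with hZ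
  have hZ0m : Measurable Z0 := meas_fam fun p : J × Dy => h p.1 p.2
  have hZm : ∀ j, Measurable (Z j) := fun j => meas_fam (g j)
  have hind1 : IndepFun Z0 (fun ω j => Z j ω) gm := by
    have h1 := hG3.2.2.2.2.1 (J × Dy) (J × Dy) (fun p => h p.1 p.2) (fun p => g p.1 p.2)
      (fun p p' => hhg _ _ _ _)
    have h2 : Measurable fun (y : J × Dy → ℝ) (j : J) (S : Dy) => y (j, S) :=
      measurable_pi_lambda _ fun j => measurable_pi_lambda _ fun S => measurable_pi_apply _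
    exact h1.comp measurable_id h2
  have hind2 : iIndepFun Z gm := hG3.2.2.2.2.2.1 J (fun _ => Dy) g hgg
  have key := (hCR Om (J × Dy → ℝ) (Dy → ℝ) J gm Z0 Z f hZ0m hZm hfm hind1 hind2).2 hq hq2
  have hfe : ∀ j ω, f j (Z0 ω, Z j ω) =
      ENNReal.ofReal (nn γ F (fun S => g j S + h j S) u v ω) := by
    intro j ω
    simp only [hf, hZ0, hZ, nn, XV, map_add]
  have hnn : ∀ j ω, 0 ≤ nn γ F (fun S => g j S + h j S) u v ω := fun j ω =>
    mul_nonneg (Real.exp_pos _).le (SR_nonneg hF _)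
  have hcm : ∀ j ω, (∫⁻ b, f j (Z0 ω, b) ∂gm.map (Z j)).toReal = mm γ F (g j) (h j) u v ω := by
    intro j ω
    have hfm' : Measurable fun b => f j (Z0 ω, b) := (hfm j).comp measurable_prodMk_left
    rw [lintegral_map hfm' (hZm j)]
    rfl
  simp only [hfe, hcm, ENNReal.toReal_ofReal (hnn _ _)] at key
  refine key.trans ?_
  gcongr with j ω
  unfold nn
  rw [ENNReal.ofReal_mul (Real.exp_pos _).le]
  exact mul_le_mul' le_rfl (SR_le hT1 hF _)

end LLN

end

end Pool.Agent.Lib.APPS
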