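import Pool.Agent.Lib.APPS.B_LLNa

/-!
Law of large numbers: conditional means and geometry.
-/

namespace Pool.Agent.Lib.APPS

open MeasureTheory ProbabilityTheory Filter Topology Set Metric
open scoped NNReal ENNReal RealInnerProductSpace Classical

noncomputable section

namespace LLN

open MB

theorem det (φ : ℝ → ℝ) (γ K ρ c ε t0 t Z m : ℝ) (hγ : 0 ≤ γ) (hK : 0 ≤ K) (hρ : 0 ≤ ρ)
    (hc : 0 ≤ c) (hε : 0 ≤ ε) (hZ : 0 ≤ Z) (hm : 0 ≤ m)
    (h1 : ∀ s, φ s ≤ K * ρ * Real.exp (γ * s))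
    (h2 : ∀ s ≥ t0, |Real.exp (-γ * s) * φ s - c * ρ| ≤ ε * ρ)
    (h3 : φ (t - Z) ≤ m) (h4 : m ≤ φ (t + Z)) :
    |m - c * (ρ * Real.exp (γ * t))| ≤
      ρ * Real.exp (γ * t) * (c * (Real.exp (γ * Z) - 1) + ε * Real.exp (γ * Z)) +
        ρ * Real.exp (γ * t0) * (K + c) * Real.exp (2 * γ * Z) := by
  have hx : 1 ≤ Real.exp (γ * Z) := Real.one_le_exp (mul_nonneg hγ hZ)
  have hA : 0 ≤ ρ * Real.exp (γ * t) := mul_nonneg hρ (Real.exp_pos _).le
  have hB : 0 ≤ ρ * Real.exp (γ * t0) := mul_nonneg hρ (Real.exp_pos _).le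
  have hP : 0 ≤ c * (Real.exp (γ * Z) - 1) + ε * Real.exp (γ * Z) :=
    add_nonneg (mul_nonneg hc (sub_nonneg.2 hx)) (mul_nonneg hε (Real.exp_pos _).le)
  have hs : ∀ s ≥ t0, |φ s - c * ρ * Real.exp (γ * s)| ≤ ε * ρ * Real.exp (γ * s) := by
    intro s hs
    have e0 : Real.exp (-γ * s) * Real.exp (γ * s) = 1 := by rw [← Real.exp_add]; simp
    have e : φ s - c * ρ * Real.exp (γ * s) =
        (Real.exp (-γ * s) * φ s - c * ρ) * Real.exp (γ * s) := by
      linear_combination (-φ s) * e0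
    rw [e, abs_mul, abs_of_pos (Real.exp_pos _)]
    exact mul_le_mul_of_nonneg_right (h2 s hs) (Real.exp_pos _).le
  by_cases h : t0 ≤ t - Z
  · refine le_trans ?_ (le_add_of_nonneg_right (by positivity))
    have h5 := (abs_le.1 (hs (t - Z) h)).1
    have h6 := (abs_le.1 (hs (t + Z) (by linarith))).2
    rw [mul_add, Real.exp_add] at h6
    rw [mul_sub, sub_eq_add_neg (γ * t), Real.exp_add] at h5
    have h8 : Real.exp (-(γ * Z)) ≤ Real.exp (γ * Z) :=
      Real.exp_le_exp.2 (by nlinarith [mul_nonneg hγ hZ])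
    have h9 : 2 - Real.exp (γ * Z) ≤ Real.exp (-(γ * Z)) := by
      linarith [Real.add_one_le_exp (γ * Z), Real.add_one_le_exp (-(γ * Z))]
    have h10 := mul_le_mul_of_nonneg_left h8 (mul_nonneg hε hA)
    have h11 := mul_le_mul_of_nonneg_left h9 (mul_nonneg hc hA)
    rw [abs_le]
    constructor <;> nlinarith
  · push Not at h
    refine le_trans ?_ (le_add_of_nonneg_left (mul_nonneg hA hP))
    have h5 : Real.exp (γ * (t + Z)) ≤ Real.exp (γ * t0) * Real.exp (2 * γ * Z) := by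
      rw [← Real.exp_add]
      exact Real.exp_le_exp.2 (by nlinarith)
    have h6 : Real.exp (γ * t) ≤ Real.exp (γ * t0) * Real.exp (2 * γ * Z) :=
      le_trans (Real.exp_le_exp.2 (by nlinarith)) h5
    have h7 := mul_le_mul_of_nonneg_left h5 (mul_nonneg hK hρ)
    have h8 := mul_le_mul_of_nonneg_left h6 (mul_nonneg hc hρ)
    have h9 := h1 (t + Z)
    have h10 := mul_nonneg hc hA
    rw [abs_le]
    constructor <;> nlinarith

/-- the conditional mean is close to the chaos weight -/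
theorem cond (hG1 : St_G1) (hG1D : St_G1D) (hG3 : St_G3) (hCH : St_CH) (hT1 : St_T1)
    (hT3 : St_T3) (hH0L : St_H0L) (γ : ℝ) (hγ : γ ∈ Ioo (0 : ℝ) 2) {F : (Dy → ℝ) → ℝ}
    (hF : Mono F) (η : ℝ) (hη : 0 < η) :
    ∃ εc > 0, ∃ r0 ≥ 2, ∀ r ≥ r0, ∃ B : ℝ≥0∞, B ≠ ∞ ∧ ∀ (g q h : Dy → HH) (e : HH) (u v w : ℝ),
      Gram g (cov0 r) → ChainH q εc → (∀ S, ⟪e, q S⟫ = 0) → (∀ S, h S = e + q S) → 0 ≤ w →
      (∀ ω : Om, Real.exp (-γ * v) * (r ^ (γ ^ 2 / 2) * Real.exp (γ * (ω e + u))) =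
        w * Wk γ e ω) →
      ∫⁻ ω, ENNReal.ofReal |mm γ F g h u v ω - cc γ F * (w * Wk γ e ω)| ∂gm ≤
        ENNReal.ofReal (w * η) + B * eE (-γ * v) := by
  have : IsProbabilityMeasure gm := hG1.1
  obtain ⟨⟨K, hK⟩, -, h3⟩ := hH0L γ hγ
  have hc : 0 ≤ cc γ F := ENNReal.toReal_nonneg
  set c := cc γ F with hcdef
  set η' : ℝ := min 1 (η / (2 * (c + 1))) with hη'
  have hη'0 : 0 < η' := lt_min one_pos (by positivity)
  have hη'1 : η' ≤ 1 := min_le_left _ _
  have hη'2 : c * η' ≤ η / 2 := by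
    have h1 : η' ≤ η / (2 * (c + 1)) := min_le_right _ _
    rw [le_div_iff₀ (by positivity)] at h1
    nlinarith
  obtain ⟨εc, hεc, hch1⟩ := (hCH.2.2.2 γ).2 η' hη'0
  obtain ⟨C2, hch2⟩ := (hCH.2.2.2 (2 * γ)).1 εc
  obtain ⟨r0, hr0, h4⟩ := h3 F hF (η / 4) (by positivity)
  refine ⟨εc, hεc, r0, hr0, fun r hr => ?_⟩
  obtain ⟨t0, h5⟩ := h4 r hr
  have hr2 : 2 ≤ r := le_trans hr0 hr
  set ρ : ℝ := r ^ (γ ^ 2 / 2) with hρ
  have hρ0 : 0 ≤ ρ := Real.rpow_nonneg (by linarith) _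
  set D : ℝ := ρ * Real.exp (γ * t0) * (max K 0 + c) with hD
  have hD0 : 0 ≤ D := by positivity
  refine ⟨ENNReal.ofReal D * ENNReal.ofReal C2,
    ENNReal.mul_ne_top ENNReal.ofReal_ne_top ENNReal.ofReal_ne_top,
    fun g q h e u v w hg hq he hh hw hW => ?_⟩
  have hXm : ∀ s, Measurable fun ω' : Om => SR F (XV γ g s ω') [] := fun s =>
    (hT3.2.2.2.2.2.2.2.1 F [] hF.1).comp (meas_XV γ g s)
  set Φ : ℝ → ℝ≥0∞ := fun s => ∫⁻ ω', ENNReal.ofReal (SR F (XV γ g s ω') []) ∂gm with hΦ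
  have hfin : ∀ s, ∀ᵐ ω' ∂gm, nB (XV γ g s ω') ≠ ∞ := fun s =>
    (ae_lt_top (hT3.1.comp (meas_XV _ _ _))
      (ne_top_of_le_ne_top ENNReal.ofReal_ne_top (hK r hr2 g hg s))).mono fun _ h => h.ne
  have hΦ1 : ∀ s, Φ s ≤ ENNReal.ofReal (max K 0 * ρ * Real.exp (γ * s)) := fun s =>
    ((lintegral_mono fun ω' => SR_le hT1 hF _).trans (hK r hr2 g hg s)).trans
      (ENNReal.ofReal_le_ofReal (by gcongr; exact le_max_left _ _))
  have hΦt : ∀ s, Φ s ≠ ∞ := fun s => ne_top_of_le_ne_top ENNReal.ofReal_ne_top (hΦ1 s)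
  have hΦ2 : ∀ s, ∫ ω', SR F (XV γ g s ω') [] ∂gm = (Φ s).toReal := fun s =>
    integral_eq_lintegral_of_nonneg_ae (ae_of_all _ fun _ => SR_nonneg hF _)
      (hXm s).aestronglyMeasurable
  set Z : Om → ℝ := fun ω => zs fun S => ω (q S) with hZ
  have hZm : Measurable Z := hCH.1.comp (meas_fam q)
  have hZ0 : ∀ ω, 0 ≤ Z ω := fun ω => hCH.2.1 _
  set P : ℝ → ℝ := fun z => c * (Real.exp (γ * z) - 1) + η / 4 * Real.exp (γ * z) with hP
  have hPm : Measurable P := by rw [hP]; fun_prop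
  have hP0 : ∀ ω, 0 ≤ P (Z ω) := fun ω =>
    add_nonneg (mul_nonneg hc (sub_nonneg.2 (Real.one_le_exp (mul_nonneg hγ.1.le (hZ0 ω)))))
      (by positivity)
  have hpt : ∀ᵐ ω ∂gm, ENNReal.ofReal |mm γ F g h u v ω - c * (w * Wk γ e ω)| ≤
      ENNReal.ofReal w * (ENNReal.ofReal (Wk γ e ω) * ENNReal.ofReal (P (Z ω))) +
        ENNReal.ofReal D * eE (-γ * v) * eE (2 * γ * Z ω) := by
    filter_upwards [hCH.2.2.1 q εc hq] with ω hω
    set m : ℝ≥0∞ := ∫⁻ ω', ENNReal.ofReal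
      (SR F (drift (QQ γ) (fun S => ω' (g S) + ω (h S)) u) []) ∂gm with hm
    have hup : ∀ (ω' : Om) S, drift (QQ γ) (fun S => ω' (g S) + ω (h S)) u S ≤
        XV γ g (ω e + u + Z ω) ω' S := by
      intro ω' S
      simp only [drift, XV, hh, map_add]
      linarith [(abs_le.1 (hω S)).2]
    have hlo : ∀ (ω' : Om) S, XV γ g (ω e + u - Z ω) ω' S ≤
        drift (QQ γ) (fun S => ω' (g S) + ω (h S)) u S := by
      intro ω' S
      simp only [drift, XV, hh, map_add]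
      linarith [(abs_le.1 (hω S)).1]
    have hm1 : m ≤ Φ (ω e + u + Z ω) := lintegral_mono_ae
      ((hfin _).mono fun ω' hω' => ENNReal.ofReal_le_ofReal (SR_mono hT1 hF (hup ω') hω'))
    have hm2 : Φ (ω e + u - Z ω) ≤ m := lintegral_mono_ae
      ((hfin (ω e + u + Z ω)).mono fun ω' hω' => ENNReal.ofReal_le_ofReal (SR_mono hT1 hF (hlo ω')
        (ne_top_of_le_ne_top hω' (hT1.2.2.2.2.2.2.2.2.2.2.2.2.2.2.2.1 _ _ (hup ω')))))
    have hmt : m ≠ ∞ := ne_top_of_le_ne_top (hΦt _) hm1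
    have e1 : mm γ F g h u v ω = Real.exp (-γ * v) * m.toReal := by
      unfold mm
      simp only [ENNReal.ofReal_mul (Real.exp_pos _).le]
      rw [lintegral_const_mul' _ _ ENNReal.ofReal_ne_top, ENNReal.toReal_mul,
        ENNReal.toReal_ofReal (Real.exp_pos _).le]
    have key := det (fun s => (Φ s).toReal) γ (max K 0) ρ c (η / 4) t0 (ω e + u) (Z ω) m.toReal
      hγ.1.le (le_max_right _ _) hρ0 hc (by positivity) (hZ0 ω) ENNReal.toReal_nonneg
      (fun s => ENNReal.toReal_le_of_le_ofReal (by positivity) (hΦ1 s))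
      (fun s hs => by rw [← hΦ2]; exact h5 g hg s hs)
      (ENNReal.toReal_mono hmt hm2) (ENNReal.toReal_mono (hΦt _) hm1)
    have hWk : 0 ≤ Wk γ e ω := (Real.exp_pos _).le
    unfold eE
    rw [← ENNReal.ofReal_mul hWk, ← ENNReal.ofReal_mul hw, ← ENNReal.ofReal_mul hD0,
      ← ENNReal.ofReal_mul (by positivity),
      ← ENNReal.ofReal_add (mul_nonneg hw (mul_nonneg hWk (hP0 ω))) (by positivity)]
    refine ENNReal.ofReal_le_ofReal ?_
    rw [← mul_assoc w, ← hW ω, e1, mul_left_comm c, ← mul_sub, abs_mul,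
      abs_of_pos (Real.exp_pos _)]
    refine (mul_le_mul_of_nonneg_left key (Real.exp_pos _).le).trans (le_of_eq ?_)
    simp only [hP, hD]
    ring
  have hWm : Measurable fun ω : Om => ENNReal.ofReal (Wk γ e ω) :=
    ENNReal.measurable_ofReal.comp (Real.measurable_exp.comp
      (((meas_ev e).const_mul _).sub_const _))
  have hPZ : Measurable fun ω => ENNReal.ofReal (P (Z ω)) :=
    ENNReal.measurable_ofReal.comp (hPm.comp hZm)
  have hind : IndepFun (fun ω : Om => ENNReal.ofReal (Wk γ e ω))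
      (fun ω => ENNReal.ofReal (P (Z ω))) gm := by
    have h1 := hG3.2.2.2.2.1 Unit Dy (fun _ => e) q fun _ S => he S
    have h2 : Measurable fun y : Unit → ℝ =>
        ENNReal.ofReal (Real.exp (γ * y () - γ ^ 2 * ‖e‖ ^ 2 / 2)) := by fun_prop
    exact h1.comp h2 (ENNReal.measurable_ofReal.comp (hPm.comp hCH.1))
  have hE : ∀ lam, Measurable fun ω => eE (lam * Z ω) := fun lam =>
    meas_eE.comp (hZm.const_mul _)
  have hPi : ∫⁻ ω, ENNReal.ofReal (P (Z ω)) ∂gm ≤ ENNReal.ofReal η := by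
    have h1 : ∫⁻ ω, ENNReal.ofReal (P (Z ω)) ∂gm + ENNReal.ofReal c =
        ENNReal.ofReal (c + η / 4) * ∫⁻ ω, eE (γ * Z ω) ∂gm := by
      rw [← lintegral_const_mul _ (hE γ), ← mul_one (ENNReal.ofReal c),
        ← measure_univ (μ := gm), ← lintegral_const, ← lintegral_add_left hPZ]
      refine lintegral_congr fun ω => ?_
      unfold eE
      rw [← ENNReal.ofReal_add (hP0 ω) hc, ← ENNReal.ofReal_mul (by positivity)]
      congr 1
      simp only [hP]; ring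
    have h2 : ENNReal.ofReal (c + η / 4) * ∫⁻ ω, eE (γ * Z ω) ∂gm ≤
        ENNReal.ofReal η + ENNReal.ofReal c := by
      refine (mul_le_mul' le_rfl (hch1 q hq)).trans ?_
      rw [← ENNReal.ofReal_mul (by positivity), ← ENNReal.ofReal_add hη.le hc]
      exact ENNReal.ofReal_le_ofReal (by nlinarith)
    rw [← h1] at h2
    exact (ENNReal.add_le_add_iff_right ENNReal.ofReal_ne_top).1 h2
  refine (lintegral_mono_ae hpt).trans ?_
  have hmul : Measurable fun ω : Om => ENNReal.ofReal (Wk γ e ω) * ENNReal.ofReal (P (Z ω)) :=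
    hWm.mul hPZ
  rw [lintegral_add_left (hmul.const_mul _), lintegral_const_mul _ hmul,
    lintegral_const_mul _ (hE _),
    lintegral_mul_eq_lintegral_mul_lintegral_of_indepFun'' hWm.aemeasurable hPZ.aemeasurable hind,
    hG1D.2.2.2.2.2.1, one_mul, ENNReal.ofReal_mul hw, mul_right_comm]
  gcongr
  exact hch2 q hq

def gR (M : Model) (r : ℝ) (T S : Dy) : HH := M.gv (ctr T) (r * side T) (unif (S ++ T))
def hR (M : Model) (r : ℝ) (T S : Dy) : HH := M.e (bal (ctr T) (r * side T) (unif (S ++ T)))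

def SepR (r : ℝ) (T T' : Dy) : Prop := side T = side T' ∧ 2 * r * side T ≤ ‖ctr T - ctr T'‖

theorem gR_add_hR (M : Model) (r : ℝ) (T S : Dy) : gR M r T S + hR M r T S = M.eS (S ++ T) := by
  simp [gR, hR, Model.gv, Model.eS]

theorem supp (hFE : St_FE) (hGEO1 : St_GEO1) {r : ℝ} (hr : 2 ≤ r) (T S : Dy) :
    unif (S ++ T) (closedBall (ctr T) (r * side T / 2))ᶜ = 0 := by
  refine measure_mono_null (compl_subset_compl.2 (closedBall_subset_closedBall ?_))
    (unif_supp hFE hGEO1 T S)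
  have := (hGEO1.1 T).1
  gcongr

theorem geoR (hFE : St_FE) (hDISC : St_DISC) (hGEO1 : St_GEO1) (M : Model) {r : ℝ} (hr : 2 ≤ r)
    (T T' : Dy) (hM : closedBall (ctr T') (r * side T') ⊆ M.O) :
    ((T = T' ∨ SepR r T T') → ∀ S S', ⟪hR M r T S, gR M r T' S'⟫ = 0) ∧
      (SepR r T T' → ∀ S S', ⟪gR M r T S, gR M r T' S'⟫ = 0) := by
  obtain ⟨C, hC0, hD1, hD2, hD3⟩ := hDISC
  have hs : ∀ T, 0 < r * side T := fun T => by have := (hGEO1.1 T).1; positivity
  have hpfe : ∀ S, PFE (unif S) := fun S => (hFE.2.2.2.2.2.2.2.1 S).1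
  have hkey : ∀ S ν', FE ν' → ν' (ball (ctr T') (r * side T')) = 0 →
      ⟪gR M r T' S, M.e ν'⟫ = 0 := fun S =>
    (hD2 M (ctr T') (r * side T') (unif (S ++ T')) (hs T') hM (hpfe _)
      (supp hFE hGEO1 hr T' S)).2.2.1
  have hbal := fun S => hD1 (ctr T) (r * side T) (unif (S ++ T)) (hs T) (hpfe _)
    (supp hFE hGEO1 hr T S)
  have hsep : SepR r T T' → ∀ y ∈ ball (ctr T') (r * side T'),
      y ∉ closedBall (ctr T) (r * side T) := by
    rintro ⟨h1, h2⟩ y hy hy'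
    rw [mem_ball, dist_eq_norm] at hy
    rw [mem_closedBall, dist_eq_norm] at hy'
    have := norm_sub_le (y - ctr T') (y - ctr T)
    rw [show y - ctr T' - (y - ctr T) = ctr T - ctr T' by ring] at this
    rw [← h1] at hy
    linarith
  have h1 : (T = T' ∨ SepR r T T') → ∀ S S', ⟪hR M r T S, gR M r T' S'⟫ = 0 := by
    intro h S S'
    rw [real_inner_comm]
    refine hkey S' _ (hbal S).1.1 (measure_mono_null ?_ (hbal S).2)
    intro y hy hy'
    rcases h with rfl | h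
    · rw [mem_ball] at hy
      rw [mem_sphere] at hy'
      exact absurd hy' hy.ne
    · exact hsep h y hy (sphere_subset_closedBall hy')
  refine ⟨h1, fun h S S' => ?_⟩
  have e1 : gR M r T S = M.e (unif (S ++ T)) - hR M r T S := rfl
  rw [e1, inner_sub_left, h1 (Or.inr h), sub_zero, real_inner_comm]
  refine hkey S' _ (hpfe _).1 (measure_mono_null ?_ (supp hFE hGEO1 hr T S))
  intro y hy hy'
  refine hsep h y hy (closedBall_subset_closedBall ?_ hy')
  have := hs T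
  linarith

def cls (n : ℕ) (T : Dy) : ZMod n × ZMod n := (((gi T).1 : ZMod n), ((gi T).2 : ZMod n))

theorem int_farn {n : ℕ} {a b : ℤ} (h : (a : ZMod n) = (b : ZMod n)) (hne : a ≠ b) :
    (n : ℝ) ≤ |(a : ℝ) - b| := by
  have h1 := (ZMod.intCast_eq_intCast_iff_dvd_sub a b n).1 h
  have h2 : (n : ℤ) ≤ |b - a| :=
    Int.le_of_dvd (abs_pos.2 (sub_ne_zero.2 hne.symm)) ((dvd_abs _ _).2 h1)
  rw [abs_sub_comm] at h2
  exact_mod_cast h2

theorem sepR_of_cls (hGEO1 : St_GEO1) {n : ℕ} {r : ℝ} (hn : 2 * r ≤ n) {T T' : Dy}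
    (hl : T.length = T'.length) (hc : cls n T = cls n T') (hne : T ≠ T') : SepR r T T' := by
  have hs : side T = side T' := by simp [side, hl]
  refine ⟨hs, ?_⟩
  have hpos := (hGEO1.1 T).1
  have e : ctr T - ctr T' = (side T : ℂ) * (zc (gi T) - zc (gi T')) := by
    simp only [ctr, (hGEO1.2.2.2.2.2.2.2.2.1 T).1, (hGEO1.2.2.2.2.2.2.2.2.1 T').1, ← hs]
    ring
  have hg : gi T ≠ gi T' := by
    intro h
    apply hne
    apply hGEO1.2.2.2.2.2.2.1
    rw [← sub_eq_zero, e, h, sub_self, mul_zero]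
  rw [e, norm_mul, Complex.norm_real, Real.norm_eq_abs, abs_of_pos hpos, mul_comm (2 * r)]
  refine mul_le_mul_of_nonneg_left (hn.trans ?_) hpos.le
  have hc1 : (((gi T).1 : ℤ) : ZMod n) = ((gi T').1 : ℤ) := congrArg Prod.fst hc
  have hc2 : (((gi T).2 : ℤ) : ZMod n) = ((gi T').2 : ℤ) := congrArg Prod.snd hc
  by_cases h1 : (gi T).1 = (gi T').1
  · have h2 : (gi T).2 ≠ (gi T').2 := fun h2 => hg (Prod.ext h1 h2)
    refine (int_farn hc2 h2).trans (le_trans (le_of_eq ?_) (Complex.abs_im_le_norm _))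
    simp [zc]
  · refine (int_farn hc1 h1).trans (le_trans (le_of_eq ?_) (Complex.abs_re_le_norm _))
    simp [zc]

end LLN

end

end Pool.Agent.Lib.APPS
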