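import Pool.Agent.Lib.APPS.Blue2

/-!
Local structure around a square: definitions, geometry and the deterministic part.
-/

namespace Pool.Agent.Lib.APPS

open MeasureTheory ProbabilityTheory Filter Topology Set Metric
open scoped NNReal ENNReal RealInnerProductSpace Classical

noncomputable section

namespace LOCV

lemma eE_mono {s t : ℝ} (h : s ≤ t) : eE s ≤ eE t :=
  ENNReal.ofReal_le_ofReal (Real.exp_le_exp.2 h)

lemma eE_add (s t : ℝ) : eE (s + t) = eE s * eE t := by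
  rw [eE, eE, eE, Real.exp_add, ENNReal.ofReal_mul (Real.exp_pos _).le]

lemma meas_eE : Measurable eE := ENNReal.measurable_ofReal.comp Real.measurable_exp

lemma l2_pos : 0 < l2 := Real.log_pos one_lt_two

lemma log_side (V : Dy) : Real.log (4 * side V) = (2 - V.length) * l2 := by
  rw [side, Real.log_mul (by norm_num) (by positivity), Real.log_pow, one_div, Real.log_inv,
    show (4 : ℝ) = 2 ^ 2 by norm_num, Real.log_pow, l2]
  push_cast
  ring

def zT (γ : ℝ) (M : Model) (j : ℕ) (T : Dy) (s y : ℝ) (ω : Om) : Dy → ℝ :=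
  XV γ (fun S => M.eS (S ++ T)) (y - QQ γ * (2 + j) * l2 + s) ω

def wT (γ : ℝ) (M : Model) (l L l' : ℕ) (T : Dy) (y : ℝ) (ω : Om) : ℝ :=
  Real.exp (γ * (y - QQ γ * (2 + l) * l2)) *
    (Real.exp (γ ^ 2 * ((2 + l) * l2) / 2) * M.Wn γ T L l' ω)

def Z1 (γ q c : ℝ) (l : ℕ) (M : Model) (V : Dy) (y : ℝ) (ω : Om) : ℝ≥0∞ :=
  ∑ T ∈ clus V l, (ENNReal.ofReal c⁻¹ * nB (zT γ M l T 1 y ω)) ^ q

def Z2 (γ : ℝ) (l : ℕ) (M : Model) (V : Dy) (y : ℝ) (ω : Om) : ℝ≥0∞ :=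
  ∑ j ∈ Finset.range l, ∑ B ∈ clus V j, eE (1 - zT γ M j B 0 y ω [])

def Z3 (γ c : ℝ) (G : (Dy → ℝ) → ℝ) (𝒮 : Finset ℝ) (l L l' : ℕ) (M : Model) (V : Dy) (y : ℝ)
    (ω : Om) : ℝ≥0∞ :=
  ∑ s ∈ 𝒮, ∑ T ∈ clus V l, ENNReal.ofReal (c⁻¹ *
    |SR G (zT γ M l T s y ω) [] - cc γ G * Real.exp (γ * s) * wT γ M l L l' T y ω|)

def Z4 (γ c : ℝ) (l L l' : ℕ) (M : Model) (V : Dy) (y : ℝ) (ω : Om) : ℝ≥0∞ :=
  ∑ T ∈ clus V l, ENNReal.ofReal (c⁻¹ * wT γ M l L l' T y ω)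

lemma Wn_nonneg (γ : ℝ) (M : Model) (T : Dy) (L l' : ℕ) (ω : Om) : 0 ≤ M.Wn γ T L l' ω :=
  Finset.sum_nonneg fun _ _ => mul_nonneg (by positivity) (Real.exp_pos _).le

lemma wT_nonneg (γ : ℝ) (M : Model) (l L l' : ℕ) (T : Dy) (y : ℝ) (ω : Om) :
    0 ≤ wT γ M l L l' T y ω :=
  mul_nonneg (Real.exp_pos _).le (mul_nonneg (Real.exp_pos _).le (Wn_nonneg _ _ _ _ _ _))

/-! ### Measurability -/

lemma meas_zT (γ : ℝ) (M : Model) (j : ℕ) (T : Dy) (s : ℝ) :
    Measurable fun p : ℝ × Om => zT γ M j T s p.1 p.2 :=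
  measurable_pi_lambda _ fun S => (((meas_ev (M.eS (S ++ T))).comp measurable_snd).add
    ((measurable_fst.sub_const _).add_const _)).sub_const _

lemma meas_Wk (γ : ℝ) (v : HH) : Measurable (Wk γ v) :=
  Real.measurable_exp.comp (((meas_ev v).const_mul γ).sub_const _)

lemma meas_Wn (γ : ℝ) (M : Model) (T : Dy) (L l' : ℕ) : Measurable (M.Wn γ T L l') :=
  Finset.measurable_sum _ fun _ _ => (meas_Wk _ _).const_mul _

lemma meas_wT (γ : ℝ) (M : Model) (l L l' : ℕ) (T : Dy) :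
    Measurable fun p : ℝ × Om => wT γ M l L l' T p.1 p.2 :=
  (Real.measurable_exp.comp ((measurable_fst.sub_const _).const_mul γ)).mul
    (((meas_Wn γ M T L l').comp measurable_snd).const_mul _)

lemma meas1 (hT3 : St_T3) (γ q : ℝ) (c : ℝ≥0∞) (M : Model) (j : ℕ) (T : Dy) (s : ℝ) :
    Measurable fun p : ℝ × Om => (c * nB (zT γ M j T s p.1 p.2)) ^ q :=
  ((hT3.1.comp (meas_zT γ M j T s)).const_mul c).pow_const q

lemma meas2 (γ : ℝ) (M : Model) (j : ℕ) (B : Dy) :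
    Measurable fun p : ℝ × Om => eE (1 - zT γ M j B 0 p.1 p.2 []) :=
  meas_eE.comp (((measurable_pi_apply []).comp (meas_zT γ M j B 0)).const_sub 1)

lemma meas3 (hT3 : St_T3) (γ c : ℝ) {G : (Dy → ℝ) → ℝ} (hG : Measurable G) (l L l' : ℕ)
    (M : Model) (T : Dy) (s : ℝ) : Measurable fun p : ℝ × Om => ENNReal.ofReal (c *
      |SR G (zT γ M l T s p.1 p.2) [] - cc γ G * Real.exp (γ * s) * wT γ M l L l' T p.1 p.2|) :=
  ((((hT3.2.2.2.2.2.2.2.1 G [] hG).comp (meas_zT γ M l T s)).sub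
    ((meas_wT γ M l L l' T).const_mul _)).abs.const_mul c).ennreal_ofReal

lemma meas4 (γ c : ℝ) (l L l' : ℕ) (M : Model) (T : Dy) :
    Measurable fun p : ℝ × Om => ENNReal.ofReal (c * wT γ M l L l' T p.1 p.2) :=
  ((meas_wT γ M l L l' T).const_mul c).ennreal_ofReal

/-! ### Geometry -/

lemma clus_geo (hG : St_GEO1) (hT1 : St_T1) {V T : Dy} {j : ℕ} (h : T ∈ clus V j) :
    T.length = j + V.length ∧ side T = (1 / 2) ^ j * side V ∧
      ∀ z ∈ box T, ‖z - ctr V‖ ≤ 9 / 4 * side V := by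
  simp only [clus, Finset.mem_biUnion, Finset.mem_image, nbr, Finset.mem_filter] at h
  obtain ⟨U, ⟨h1, h2⟩, S, h3, rfl⟩ := h
  rw [hT1.1] at h1 h3
  refine ⟨by rw [List.length_append, h1, h3], by rw [side, List.length_append, h1, h3, pow_add]; rfl,
    fun z hz => ?_⟩
  have h4 := (hG.2.2.2.1 U).2.2.2.1 z ((hG.2.2.2.2.1 _ U).2 (List.suffix_append S U) hz)
  have h5 : side U = side V := by rw [side, side, h1]
  have h6 := norm_sub_le_norm_sub_add_norm_sub z (ctr U) (ctr V)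
  linarith

lemma self_mem (hG : St_GEO1) (hT1 : St_T1) (V : Dy) : V ∈ clus V 0 := by
  simp only [clus, Finset.mem_biUnion, Finset.mem_image, nbr, Finset.mem_filter]
  refine ⟨V, ⟨(hT1.1 _ _).2 rfl, ?_⟩, [], (hT1.1 _ _).2 rfl, rfl⟩
  have := (hG.1 V).1
  simp only [sub_self, norm_zero]
  positivity

lemma anc_mem (hT1 : St_T1) {V T B : Dy} {l : ℕ} (h : T ∈ clus V l) (h1 : B <:+ T) (h2 : B ≠ T)
    (h3 : V.length ≤ B.length) : ∃ j < l, B ∈ clus V j := by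
  simp only [clus, Finset.mem_biUnion, Finset.mem_image] at h ⊢
  obtain ⟨U, hU, S, hS, rfl⟩ := h
  have h4 : U.length = V.length := (hT1.1 _ _).1 (Finset.mem_filter.1 hU).1
  obtain ⟨S', rfl⟩ := List.suffix_of_suffix_length_le (List.suffix_append S U) h1 (h4 ▸ h3)
  refine ⟨S'.length, ?_, U, hU, S', (hT1.1 _ _).2 rfl, rfl⟩
  have h5 := h1.length_le
  have h6 : (S' ++ U).length ≠ (S ++ U).length := fun e => h2 (h1.eq_of_length e)
  rw [hT1.1] at hS
  simp only [List.length_append] at h5 h6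
  omega

lemma clus_card (hG : St_GEO1) (hT1 : St_T1) (V : Dy) (j : ℕ) :
    ((clus V j).card : ℝ) ≤ 16 * 4 ^ j := by
  have h1 : ((nbr V).card : ℝ) ≤ 16 := by
    have := hG.2.2.2.2.2.2.2.2.2.2.1 V.length (ctr V) (3 / 2) (by norm_num)
    exact this.trans (by norm_num)
  have h2 : (clus V j).card ≤ (nbr V).card * 4 ^ j :=
    Finset.card_biUnion_le_card_mul _ _ _ fun U _ => Finset.card_image_le.trans (hT1.2.1 j).le
  calc _ ≤ ((nbr V).card : ℝ) * 4 ^ j := by exact_mod_cast h2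
    _ ≤ _ := by gcongr

/-- Agreement on the vectors localised near `V`. -/
def Agr (M : Model) (V : Dy) (ω ω' : Om) : Prop :=
  ∀ μ, PFE μ → μ (closedBall (ctr V) (4 * side V))ᶜ = 0 → ω (M.e μ) = ω' (M.e μ)

lemma Agr.zT (hFE : St_FE) (hG : St_GEO1) (hT1 : St_T1) {M : Model} {V T : Dy} {ω ω' : Om}
    (h : Agr M V ω ω') {j : ℕ} (hT : T ∈ clus V j) (γ s y : ℝ) :
    zT γ M j T s y ω = zT γ M j T s y ω' := by
  funext S
  have h1 := hFE.2.2.2.2.2.2.2.1 (S ++ T)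
  simp only [LOCV.zT, XV, drift, Model.eS]
  rw [h _ h1.1 (measure_mono_null (compl_subset_compl.2 fun z hz => ?_) h1.2)]
  have := (clus_geo hG hT1 hT).2.2 z ((hG.2.2.2.2.1 _ T).2 (List.suffix_append S T) hz)
  rw [mem_closedBall_iff_norm]
  linarith [(hG.1 V).1]

lemma Agr.wT (hFE : St_FE) (hG : St_GEO1) (hT1 : St_T1) {M : Model} {V T : Dy} {ω ω' : Om}
    (h : Agr M V ω ω') {l L l' : ℕ} (hT : T ∈ clus V l) (hL : L ≤ l') (γ y : ℝ) :
    wT γ M l L l' T y ω = wT γ M l L l' T y ω' := by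
  simp only [LOCV.wT, Model.Wn]
  congr 2
  refine Finset.sum_congr rfl fun S hS => ?_
  have h0 := (hG.1 (S ++ T)).1
  have h1 := hFE.2.2.2.2.2.2.2.2.1 (ctr (S ++ T)) (2 ^ L * side (S ++ T)) (by positivity)
  simp only [Wk, Model.eC]
  rw [h _ h1.1 (measure_mono_null (compl_subset_compl.2 fun z hz => ?_) h1.2.1)]
  obtain ⟨-, h2, h3⟩ := clus_geo hG hT1 hT
  have h4 := h3 _ ((hG.2.2.2.2.1 _ T).2 (List.suffix_append S T) (hG.2.2.2.1 (S ++ T)).2.2.1)
  have h5 : 2 ^ L * side (S ++ T) ≤ side V := by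
    have h6 : (2 : ℝ) ^ L * side S ≤ 1 := by
      rw [side, (hT1.1 _ _).1 hS, one_div, inv_pow, ← div_eq_mul_inv, div_le_one (by positivity)]
      exact pow_le_pow_right₀ one_le_two hL
    have h7 : (1 / 2 : ℝ) ^ l ≤ 1 := pow_le_one₀ (by norm_num) (by norm_num)
    rw [hG.2.1, ← mul_assoc, h2]
    exact (mul_le_of_le_one_left (h2 ▸ (hG.1 T).1.le) h6).trans
      (mul_le_of_le_one_left (hG.1 V).1.le h7)
  rw [mem_sphere_iff_norm] at hz
  rw [mem_closedBall_iff_norm]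
  have h8 := norm_sub_le_norm_sub_add_norm_sub z (ctr (S ++ T)) (ctr V)
  linarith [(hG.1 V).1]

/-! ### The deterministic part -/

lemma grid {γ κ : ℝ} (hγ : 0 < γ) (hκ : 0 < κ) : ∃ 𝒮 : Finset ℝ, (∀ a ∈ 𝒮, a ∈ Icc (-1 : ℝ) 1) ∧
    ∀ s ∈ Icc (-1 : ℝ) 1, ∃ a ∈ 𝒮, ∃ b ∈ 𝒮, a ≤ s ∧ s ≤ b ∧
      Real.exp (γ * b) - Real.exp (γ * a) ≤ κ := by
  set e := κ / (2 * γ * Real.exp γ) with he
  have he0 : 0 < e := by positivity
  obtain ⟨t, h1, h2, h3⟩ := finite_cover_balls_of_compact (isCompact_Icc (a := (-1 : ℝ)) (b := 1))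
    he0
  refine ⟨h2.toFinset.image (fun x => max (x - e) (-1)) ∪ h2.toFinset.image fun x => min (x + e) 1,
    fun a ha => ?_, fun s hs => ?_⟩
  · simp only [Finset.mem_union, Finset.mem_image, Set.Finite.mem_toFinset] at ha
    rcases ha with ⟨x, hx, rfl⟩ | ⟨x, hx, rfl⟩
    · exact ⟨le_max_right _ _, max_le (by linarith [(h1 hx).2]) (by norm_num)⟩
    · exact ⟨le_min (by linarith [(h1 hx).1]) (by norm_num), min_le_right _ _⟩
  · obtain ⟨x, hx, h4⟩ := mem_iUnion₂.1 (h3 hs)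
    rw [mem_ball, Real.dist_eq, abs_lt] at h4
    refine ⟨_, Finset.mem_union_left _ (Finset.mem_image_of_mem _ (h2.mem_toFinset.2 hx)), _,
      Finset.mem_union_right _ (Finset.mem_image_of_mem _ (h2.mem_toFinset.2 hx)),
      max_le (by linarith) hs.1, le_min (by linarith) hs.2, ?_⟩
    set a := max (x - e) (-1)
    set b := min (x + e) 1
    have h5 : b - a ≤ 2 * e := by linarith [le_max_left (x - e) (-1), min_le_left (x + e) 1]
    have h6 : Real.exp (γ * b) ≤ Real.exp γ :=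
      Real.exp_le_exp.2 (mul_le_of_le_one_right hγ.le (min_le_right _ _))
    have h7 : Real.exp (γ * a) = Real.exp (γ * b) * Real.exp (γ * a - γ * b) := by
      rw [← Real.exp_add]
      congr 1
      ring
    have h8 := Real.add_one_le_exp (γ * a - γ * b)
    have h9 : Real.exp γ * (γ * (2 * e)) = κ := by
      rw [he]
      field_simp
    have h10 := Real.exp_pos (γ * b)
    have h11 : γ * (b - a) ≤ γ * (2 * e) := by gcongr
    have h12 : Real.exp (γ * b) * (γ * (2 * e)) ≤ Real.exp γ * (γ * (2 * e)) := by gcongr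
    nlinarith

lemma SR_mono (hT1 : St_T1) {G : (Dy → ℝ) → ℝ} (hG : Mono G) {x x' : Dy → ℝ}
    (h : ∀ S, x S ≤ x' S) (hf : nB x' ≠ ∞) : SR G x [] ≤ SR G x' [] := by
  obtain ⟨-, -, -, -, -, -, -, -, -, -, -, -, t13, -, -, t16, -⟩ := hT1
  have h1 := t13 x' hf
  have h2 := t13 x (ne_top_of_le_ne_top hf (t16 x x' h))
  simp only [SR, List.nil_suffix, Finset.filter_true]
  refine (Finset.sum_le_sum fun A _ => hG.2.2 _ (sub x' A) fun S => h _).trans
    (Finset.sum_le_sum_of_subset_of_nonneg (fun A hA => ?_) fun A _ _ => (hG.2.1 _).1)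
  exact (h1 A).2 fun B hB => ((h2 A).1 hA B hB).trans_le (h B)

lemma sum_lt {I : Type} {s : Finset I} {f : I → ℝ} {c : ℝ} (hc : 0 < c) (hf : ∀ i, 0 ≤ f i)
    (h : ∑ i ∈ s, ENNReal.ofReal (c⁻¹ * f i) < 1) : ∑ i ∈ s, f i ≤ c := by
  rw [← ENNReal.ofReal_sum_of_nonneg fun i _ => mul_nonneg (by positivity) (hf i),
    ENNReal.ofReal_lt_one, ← Finset.mul_sum, inv_mul_lt_iff₀ hc, mul_one] at h
  exact h.le

lemma fin_of (γ : ℝ) {q c : ℝ} (hq : 0 < q) (hc : 0 < c) {l : ℕ} {M : Model} {V : Dy} {y : ℝ}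
    {ω : Om} (h : Z1 γ q c l M V y ω < 1) {T : Dy} (hT : T ∈ clus V l) :
    nB (zT γ M l T 1 y ω) ≤ ENNReal.ofReal c := by
  have h1 := (Finset.single_le_sum (f := fun T => (ENNReal.ofReal c⁻¹ * nB (zT γ M l T 1 y ω)) ^ q)
    (fun _ _ => zero_le) hT).trans_lt h
  by_contra h2
  refine absurd h1 (not_lt.2 (ENNReal.one_le_rpow ?_ hq))
  calc (1 : ℝ≥0∞) = ENNReal.ofReal c⁻¹ * ENNReal.ofReal c := by
        rw [← ENNReal.ofReal_mul (by positivity), inv_mul_cancel₀ hc.ne', ENNReal.ofReal_one]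
    _ ≤ _ := by gcongr; exact (not_le.1 h2).le

lemma interp (hT1 : St_T1) {γ c c' κ : ℝ} (hγ : 0 < γ) (hc : 0 < c) (hc' : 0 < c') (hκ : 0 ≤ κ)
    {G : (Dy → ℝ) → ℝ} (hG : Mono G) (h0 : 0 ≤ cc γ G) {𝒮 : Finset ℝ} {l L l' : ℕ} {M : Model}
    {V : Dy} {y : ℝ} {ω : Om} (hf : ∀ T ∈ clus V l, nB (zT γ M l T 1 y ω) ≠ ∞)
    (h3 : Z3 γ c G 𝒮 l L l' M V y ω < 1) (h4 : Z4 γ c' l L l' M V y ω < 1) {s a b : ℝ}
    (ha : a ∈ 𝒮) (hb : b ∈ 𝒮) (hb1 : b ≤ 1) (h1 : a ≤ s) (h2 : s ≤ b)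
    (h5 : Real.exp (γ * b) - Real.exp (γ * a) ≤ κ) :
    ∑ T ∈ clus V l, |SR G (zT γ M l T s y ω) [] -
      cc γ G * Real.exp (γ * s) * wT γ M l L l' T y ω| ≤ 2 * c + cc γ G * κ * c' := by
  have k1 : ∀ t ∈ 𝒮, ∑ T ∈ clus V l, |SR G (zT γ M l T t y ω) [] -
      cc γ G * Real.exp (γ * t) * wT γ M l L l' T y ω| ≤ c := fun t ht =>
    sum_lt hc (fun _ => abs_nonneg _) ((Finset.single_le_sum (f := fun s => ∑ T ∈ clus V l,
      ENNReal.ofReal (c⁻¹ * |SR G (zT γ M l T s y ω) [] -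
        cc γ G * Real.exp (γ * s) * wT γ M l L l' T y ω|)) (fun _ _ => zero_le) ht).trans_lt h3)
  have k2 := sum_lt hc' (fun T => wT_nonneg γ M l L l' T y ω) h4
  have k3 : ∀ T t t', t ≤ t' → ∀ S, zT γ M l T t y ω S ≤ zT γ M l T t' y ω S := fun T t t' h S => by
    simp only [zT, XV, drift]
    linarith
  have k4 : ∀ T ∈ clus V l, ∀ t t', t ≤ t' → t' ≤ 1 →
      SR G (zT γ M l T t y ω) [] ≤ SR G (zT γ M l T t' y ω) [] := fun T hT t t' h h' =>
    SR_mono hT1 hG (k3 T t t' h) (ne_top_of_le_ne_top (hf T hT)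
      (hT1.2.2.2.2.2.2.2.2.2.2.2.2.2.2.2.1 _ _ (k3 T t' 1 h')))
  have k5 : Real.exp (γ * a) ≤ Real.exp (γ * s) := by gcongr
  have k6 : Real.exp (γ * s) ≤ Real.exp (γ * b) := by gcongr
  calc _ ≤ ∑ T ∈ clus V l, (|SR G (zT γ M l T a y ω) [] -
        cc γ G * Real.exp (γ * a) * wT γ M l L l' T y ω| + |SR G (zT γ M l T b y ω) [] -
        cc γ G * Real.exp (γ * b) * wT γ M l L l' T y ω| + cc γ G * κ * wT γ M l L l' T y ω) := by
        refine Finset.sum_le_sum fun T hT => ?_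
        have e1 := k4 T hT a s h1 (h2.trans hb1)
        have e2 := k4 T hT s b h2 hb1
        have e3 := mul_nonneg h0 (wT_nonneg γ M l L l' T y ω)
        have e4 := mul_le_mul_of_nonneg_left (show Real.exp (γ * s) - Real.exp (γ * a) ≤ κ by
          linarith) e3
        have e5 := mul_le_mul_of_nonneg_left (show Real.exp (γ * b) - Real.exp (γ * s) ≤ κ by
          linarith) e3
        generalize SR G (zT γ M l T a y ω) [] = A at *
        generalize SR G (zT γ M l T b y ω) [] = B at *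
        rw [abs_le]
        constructor
        · linarith [neg_abs_le (A - cc γ G * Real.exp (γ * a) * wT γ M l L l' T y ω),
            abs_nonneg (B - cc γ G * Real.exp (γ * b) * wT γ M l L l' T y ω)]
        · linarith [le_abs_self (B - cc γ G * Real.exp (γ * b) * wT γ M l L l' T y ω),
            abs_nonneg (A - cc γ G * Real.exp (γ * a) * wT γ M l L l' T y ω)]
    _ ≤ _ := by
        rw [Finset.sum_add_distrib, Finset.sum_add_distrib, ← Finset.mul_sum]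
        linarith [k1 a ha, k1 b hb, mul_le_mul_of_nonneg_left k2 (mul_nonneg h0 hκ)]

lemma mono_one : Mono one := ⟨measurable_const, fun _ => ⟨zero_le_one, le_rfl⟩, fun _ _ _ => le_rfl⟩

lemma nN_eq (x : Dy → ℝ) : nN x = SR one x [] := by simp [nN, SR, one]

/-- Uniform integrability. -/
lemma unif_int {q : ℝ} (hq : 1 < q) (K : ℝ) {δ' : ℝ} (hδ' : 0 < δ') :
    ∃ δ > 0, ∀ (a : Om → ℝ≥0∞) (S : Set Om), Measurable a → MeasurableSet S →
      ∫⁻ ω, a ω ^ q ∂gm ≤ ENNReal.ofReal K → gm S ≤ ENNReal.ofReal δ →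
      ∫⁻ ω in S, (1 + a ω) ∂gm ≤ ENNReal.ofReal δ' := by
  have h1 := ((tendsto_rpow_neg_atTop (sub_pos.2 hq)).mul_const K).eventually
    (ge_mem_nhds (show 0 * K < δ' / 2 by linarith))
  obtain ⟨t, ht, ht0⟩ := (h1.and (eventually_gt_atTop 0)).exists
  refine ⟨δ' / 2 / (1 + t), by positivity, fun a S ha hS h2 h3 => ?_⟩
  have h4 : ∀ z : ℝ≥0∞, 1 + z ≤ ENNReal.ofReal (1 + t) + ENNReal.ofReal (t ^ (-(q - 1))) * z ^ q := by
    intro z
    rw [ENNReal.ofReal_add zero_le_one ht0.le, ENNReal.ofReal_one, add_assoc]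
    gcongr
    rcases le_total z (ENNReal.ofReal t) with h | h
    · exact h.trans le_self_add
    refine le_trans ?_ le_add_self
    calc z = ENNReal.ofReal (t ^ (-(q - 1))) * (ENNReal.ofReal t ^ (q - 1) * z) := by
          rw [ENNReal.ofReal_rpow_of_pos ht0, ← mul_assoc, ← ENNReal.ofReal_mul (by positivity),
            ← Real.rpow_add ht0]
          simp
      _ ≤ ENNReal.ofReal (t ^ (-(q - 1))) * (z ^ (q - 1) * z ^ (1 : ℝ)) := by
          rw [ENNReal.rpow_one]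
          gcongr
      _ = _ := by
          rw [← ENNReal.rpow_add_of_nonneg _ _ (by linarith) zero_le_one]
          congr 2
          ring
  calc _ ≤ ∫⁻ ω in S, (ENNReal.ofReal (1 + t) + ENNReal.ofReal (t ^ (-(q - 1))) * a ω ^ q) ∂gm :=
        lintegral_mono fun ω => h4 _
    _ ≤ ENNReal.ofReal (1 + t) * ENNReal.ofReal (δ' / 2 / (1 + t)) +
        ENNReal.ofReal (t ^ (-(q - 1))) * ENNReal.ofReal K := by
        rw [lintegral_add_left measurable_const, setLIntegral_const,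
          lintegral_const_mul _ (ha.pow_const q)]
        gcongr
        exact (setLIntegral_le_lintegral _ _).trans h2
    _ ≤ _ := by
        rw [← ENNReal.ofReal_mul (by positivity), ← ENNReal.ofReal_mul (by positivity),
          mul_div_cancel₀ _ (by positivity), ← add_halves δ',
          ENNReal.ofReal_add (by positivity) (by positivity), add_halves]
        gcongr

end LOCV

end

end Pool.Agent.Lib.APPS
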