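import Pool.Agent.Lib.APPS.Blue2

/-!
Block LOW, helper steps B, C, D.
-/

namespace Pool.Agent.Lib.APPS

open MeasureTheory ProbabilityTheory Filter Topology Set Metric
open scoped NNReal ENNReal RealInnerProductSpace Classical

noncomputable section

namespace LOW

theorem ind_pos {p : Prop} (h : p) : ind p = 1 := if_pos h
theorem ind_neg {p : Prop} (h : ¬p) : ind p = 0 := if_neg h

theorem ind_mono {p r : Prop} (h : p → r) : ind p ≤ ind r := by
  by_cases hp : p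
  · rw [ind_pos hp, ind_pos (h hp)]
  · rw [ind_neg hp]; exact zero_le

theorem ind_and (p r : Prop) : ind (p ∧ r) = ind p * ind r := by
  by_cases hp : p <;> by_cases hr : r <;> simp [ind, hp, hr]

theorem m_ind {p : Om → Prop} (hp : MeasurableSet {ω | p ω}) : Measurable fun ω => ind (p ω) :=
  Measurable.ite hp measurable_const measurable_const

theorem lint_ind {p : Om → Prop} (hp : MeasurableSet {ω | p ω}) :
    ∫⁻ ω, ind (p ω) ∂gm = gm {ω | p ω} := by
  rw [← lintegral_indicator_one hp]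
  refine lintegral_congr fun ω => ?_
  by_cases h : p ω <;> simp [ind, h, Set.indicator]

theorem absorb {P : ℝ≥0∞} {α β t : ℝ} (ht : 0 < t) (hβ : 0 ≤ β)
    (h : ENNReal.ofReal α ≤ ENNReal.ofReal t * P + ENNReal.ofReal β) :
    ENNReal.ofReal ((α - β) / t) ≤ P := by
  have h1 : ENNReal.ofReal (α - β) ≤ ENNReal.ofReal t * P := by
    rw [ENNReal.ofReal_sub _ hβ]
    exact tsub_le_iff_right.2 h
  rw [ENNReal.ofReal_div_of_pos ht]
  exact ENNReal.div_le_of_le_mul' h1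

theorem m_set (hT3 : St_T3) (M : Model) (γ u : ℝ) (n : ℝ≥0∞) :
    MeasurableSet {ω | n ≤ nB (M.X γ u ω)} :=
  measurableSet_le measurable_const (hT3.1.comp (hT3.2.2.2.2.2.2.2.2.2.2.1 M γ u).1)

theorem m_XR (hT3 : St_T3) (M : Model) (γ u : ℝ) (R : Dy) : Measurable fun ω => M.X γ u ω R :=
  (measurable_pi_apply R).comp (hT3.2.2.2.2.2.2.2.2.2.2.1 M γ u).1

theorem m_YV (hT3 : St_T3) (M : Model) (γ u : ℝ) (V : Dy) : Measurable (M.YV γ u V) :=
  (hT3.2.2.2.2.2.2.2.2.2.2.1 M γ u).2 _ _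

theorem gramM (hMOD : St_MOD) (M : Model) (hM : box [] ⊆ M.O) : Gram M.eS (covE M.C0) := by
  have := (hMOD M).2.2.2.2.2.2.1 [] hM
  simpa using this

theorem stepD (hG2 : St_G2) (hMOD : St_MOD) (hT3 : St_T3) (hRUS : St_RUS) {γ : ℝ}
    (hγ : γ ∈ Ioo (0 : ℝ) 2) (M : Model) (hM : box [] ⊆ M.O) (u c : ℝ) (hc : 0 < c)
    (h : ∀ᶠ n : ℝ in atTop, ENNReal.ofReal (c * n ^ (-(th γ + 1))) ≤
      gm {ω | ENNReal.ofReal n ≤ nB (M.X γ u ω)}) :
    ∃ c' > 0, ∀ᶠ n : ℝ in atTop, ENNReal.ofReal (c' * n ^ (-(th γ + 1))) ≤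
      gm {ω | ENNReal.ofReal n ≤ nB (M.X γ 0 ω)} := by
  obtain ⟨φ, hφ⟩ := (hMOD M).2.2.2.2.2.2.2.2.2.2.2.2.2.2.2.1 hM
  have hψ := (hMOD M).2.2.2.2.2.2.2.2.2.2.2.2.2.2.2.2.1 φ hφ
  have hX : ∀ (s : ℝ) (ω : Om), M.X γ 0 (ω + dv (s • gr φ)) = M.X γ s ω := by
    intro s ω
    funext S
    simp [Model.X, drift, inner_smul_left, hψ]
  have tilt : ∀ (s : ℝ) (n : ℝ≥0∞), gm {ω | n ≤ nB (M.X γ s ω)} =
      ∫⁻ ω, ind (n ≤ nB (M.X γ 0 ω)) * eE (ω (s • gr φ) - ‖s • gr φ‖ ^ 2 / 2) ∂gm := by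
    intro s n
    rw [← hG2.2.1 _ _ (m_ind (m_set hT3 M γ 0 n)), ← lint_ind (m_set hT3 M γ s n)]
    simp only [hX]
  obtain ⟨K, hK⟩ := (hRUS γ hγ).2 M.C0
  set N : ℝ := ‖u • gr φ‖ ^ 2 with hN
  set B : ℝ := Real.exp N * (|K| * Real.exp (γ * (2 * u)) ^ (th γ + 1)) with hB
  have hB0 : 0 ≤ B := by positivity
  set t : ℝ := 2 * B / c + 1 with ht
  have ht0 : 0 < t := by positivity
  have hBt : B / t ≤ c / 2 := by
    rw [div_le_iff₀ ht0, ht]
    have : c / 2 * (2 * B / c + 1) = B + c / 2 := by field_simp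
    linarith
  refine ⟨c / 2 / t, by positivity, ?_⟩
  filter_upwards [h, eventually_ge_atTop 1] with n h1 hn
  have hn0 : 0 < n := by linarith
  have hw : 0 < n ^ (-(th γ + 1)) := Real.rpow_pos_of_pos hn0 _
  have h2 := hK M.eS (gramM hMOD M hM) (2 * u) n hn
  rw [XV_eS] at h2
  have h3 : gm {ω | ENNReal.ofReal n ≤ nB (M.X γ u ω)} ≤
      ENNReal.ofReal t * gm {ω | ENNReal.ofReal n ≤ nB (M.X γ 0 ω)} +
        ENNReal.ofReal (Real.exp N / t) * gm {ω | ENNReal.ofReal n ≤ nB (M.X γ (2 * u) ω)} := by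
    rw [tilt u, tilt (2 * u), ← lint_ind (m_set hT3 M γ 0 _),
      ← lintegral_const_mul' _ _ ENNReal.ofReal_ne_top,
      ← lintegral_const_mul' _ _ ENNReal.ofReal_ne_top,
      ← lintegral_add_left ((m_ind (m_set hT3 M γ 0 _)).const_mul _)]
    refine lintegral_mono fun ω => ?_
    rw [mul_comm (ENNReal.ofReal t), mul_left_comm, ← mul_add]
    refine mul_le_mul_right ?_ _
    unfold eE
    rw [← ENNReal.ofReal_mul (by positivity), ← ENNReal.ofReal_add ht0.le (by positivity)]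
    refine ENNReal.ofReal_le_ofReal ?_
    have e1 : ‖(2 * u) • gr φ‖ ^ 2 = 4 * N := by
      rw [hN, mul_smul, norm_smul, mul_pow]; norm_num
    have e2 : ω ((2 * u) • gr φ) = 2 * ω (u • gr φ) := by
      rw [mul_smul, map_smul, smul_eq_mul]
    rw [e1, e2, ← hN]
    set y := Real.exp (ω (u • gr φ) - N / 2) with hy
    have e3 : Real.exp N / t * Real.exp (2 * ω (u • gr φ) - 4 * N / 2) = y * y / t := by
      rw [div_mul_eq_mul_div, hy, ← Real.exp_add, ← Real.exp_add]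
      congr 2
      ring
    rw [e3]
    have : y ≤ t + y * y / t := by
      rw [← sub_nonneg]
      have : t + y * y / t - y = ((t - y / 2) ^ 2 + 3 / 4 * y ^ 2) / t := by field_simp; ring
      rw [this]
      positivity
    exact this
  have h4 : ENNReal.ofReal (Real.exp N / t) * gm {ω | ENNReal.ofReal n ≤ nB (M.X γ (2 * u) ω)} ≤
      ENNReal.ofReal (B / t * n ^ (-(th γ + 1))) := by
    refine (mul_le_mul_right h2 _).trans ?_
    rw [← ENNReal.ofReal_mul (by positivity)]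
    refine ENNReal.ofReal_le_ofReal ?_
    rw [Real.div_rpow (Real.exp_pos _).le hn0.le, Real.rpow_neg hn0.le, hB]
    have : 0 ≤ Real.exp N / t * (Real.exp (γ * (2 * u)) ^ (th γ + 1) / n ^ (th γ + 1)) := by
      positivity
    calc _ = K * (Real.exp N / t * (Real.exp (γ * (2 * u)) ^ (th γ + 1) / n ^ (th γ + 1))) := by
          ring
      _ ≤ |K| * (Real.exp N / t * (Real.exp (γ * (2 * u)) ^ (th γ + 1) / n ^ (th γ + 1))) :=
          mul_le_mul_of_nonneg_right (le_abs_self K) this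
      _ = _ := by ring
  have h5 := absorb ht0 (by positivity) (h1.trans (h3.trans (add_le_add_right h4 _)))
  refine le_trans (ENNReal.ofReal_le_ofReal ?_) h5
  rw [div_mul_eq_mul_div]
  refine div_le_div_of_nonneg_right ?_ ht0.le
  nlinarith

theorem stepC (hMOD : St_MOD) (hGEO : St_GEO1) (hT3 : St_T3) (hRW : St_RW1) (hRUS : St_RUS)
    {γ : ℝ} (hγ : γ ∈ Ioo (0 : ℝ) 2) (M : Model) (hM : box [] ⊆ M.O) (u c : ℝ) (hu : 0 ≤ u)
    (hc : 0 < c) (h : ∀ᶠ n : ℝ in atTop, ENNReal.ofReal (c * n ^ (-th γ)) ≤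
      ∫⁻ ω, nB (M.X γ u ω) * ind (ENNReal.ofReal n ≤ nB (M.X γ u ω)) ∂gm) :
    ∃ c' > 0, ∀ᶠ n : ℝ in atTop, ENNReal.ofReal (c' * n ^ (-(th γ + 1))) ≤
      gm {ω | ENNReal.ofReal n ≤ nB (M.X γ u ω)} := by
  have hθ : 0 < th γ := (hRW.2.2 γ hγ).2.2.1
  obtain ⟨K, hK⟩ := (hRUS γ hγ).1 0 0 M.C0 le_rfl hγ.1
  replace hK := hK M.eS ctr (fun _ _ => 0) (gramM hMOD M hM)
    ⟨fun R => (hGEO.2.2.2.1 R).2.2.1, fun R A => by simp⟩ u
  set B : ℝ := |K| * Real.exp (γ * u) * Real.exp (γ * u) ^ th γ with hB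
  have hB0 : 0 ≤ B := by positivity
  obtain ⟨L, hL1, hL⟩ : ∃ L : ℝ, 1 ≤ L ∧ B * L ^ (-th γ) ≤ c / 2 := by
    have h1 : Tendsto (fun L : ℝ => B * L ^ (-th γ)) atTop (𝓝 (B * 0)) :=
      (tendsto_rpow_neg_atTop hθ).const_mul B
    rw [mul_zero] at h1
    exact ((eventually_ge_atTop 1).and (h1.eventually (ge_mem_nhds (by positivity)))).exists
  have hL0 : 0 < L := by linarith
  refine ⟨c / 2 / L, by positivity, ?_⟩
  filter_upwards [h, eventually_ge_atTop 1] with n h1 hn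
  have hn0 : 0 < n := by linarith
  have hw : 0 < n ^ (-th γ) := Real.rpow_pos_of_pos hn0 _
  have h2 := hK (L * n) hu (by nlinarith)
  have ha : ∀ x : Dy → ℝ, addF x (fun _ => 0) = x := fun x => funext fun A => add_zero _
  simp only [XV_eS, ha, add_zero] at h2
  have hm : ∀ R, MeasurableSet {ω | 0 < M.X γ u ω R ∧ ENNReal.ofReal (L * n) ≤ nB (M.X γ u ω)} :=
    fun R => (measurableSet_lt measurable_const (m_XR hT3 M γ u R)).inter (m_set hT3 M γ u _)
  have h3 : ∫⁻ ω, nB (M.X γ u ω) * ind (ENNReal.ofReal n ≤ nB (M.X γ u ω)) ∂gm ≤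
      ENNReal.ofReal (L * n) * gm {ω | ENNReal.ofReal n ≤ nB (M.X γ u ω)} +
        ∑' R : Dy, gm {ω | 0 < M.X γ u ω R ∧ ENNReal.ofReal (L * n) ≤ nB (M.X γ u ω)} := by
    simp only [← lint_ind (hm _)]
    rw [← lint_ind (m_set hT3 M γ u _), ← lintegral_const_mul' _ _ ENNReal.ofReal_ne_top,
      ← lintegral_tsum fun R => (m_ind (hm R)).aemeasurable,
      ← lintegral_add_left ((m_ind (m_set hT3 M γ u _)).const_mul _)]
    refine lintegral_mono fun ω => ?_
    rcases le_total (ENNReal.ofReal (L * n)) (nB (M.X γ u ω)) with hle | hle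
    · refine le_add_left ?_
      calc _ ≤ nB (M.X γ u ω) * 1 := mul_le_mul_right ((ind_mono fun _ => trivial).trans
            (ind_pos trivial).le) _
        _ ≤ _ := by
          rw [mul_one]
          exact ENNReal.tsum_le_tsum fun R => ind_mono fun hR => ⟨hR R List.suffix_rfl, hle⟩
    · exact le_add_right (mul_le_mul_left hle _)
  have h4 : ENNReal.ofReal (K * Real.exp (γ * u) * (Real.exp (γ * u) / (L * n)) ^ th γ) ≤
      ENNReal.ofReal (B * L ^ (-th γ) * n ^ (-th γ)) := by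
    refine ENNReal.ofReal_le_ofReal ?_
    rw [Real.div_rpow (Real.exp_pos _).le (by positivity), Real.mul_rpow hL0.le hn0.le,
      Real.rpow_neg hn0.le, Real.rpow_neg hL0.le, hB]
    have : 0 ≤ Real.exp (γ * u) * (Real.exp (γ * u) ^ th γ / (L ^ th γ * n ^ th γ)) := by
      positivity
    calc _ = K * (Real.exp (γ * u) * (Real.exp (γ * u) ^ th γ / (L ^ th γ * n ^ th γ))) := by
          ring
      _ ≤ |K| * (Real.exp (γ * u) * (Real.exp (γ * u) ^ th γ / (L ^ th γ * n ^ th γ))) :=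
          mul_le_mul_of_nonneg_right (le_abs_self K) this
      _ = _ := by ring
  have h5 := absorb (by positivity) (by positivity)
    (h1.trans (h3.trans (add_le_add_right (h2.trans h4) _)))
  refine le_trans (ENNReal.ofReal_le_ofReal ?_) h5
  rw [neg_add, Real.rpow_add hn0, Real.rpow_neg_one, le_div_iff₀ (by positivity)]
  have : c / 2 / L * (n ^ (-th γ) * n⁻¹) * (L * n) = c / 2 * n ^ (-th γ) := by field_simp
  rw [this]
  nlinarith

end LOW

end

end Pool.Agent.Lib.APPS
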