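import Pool.Agent.Lib.APPS.B_M0a

/-! Block M0: existence of a model. -/

namespace Pool.Agent.Lib.APPS

open MeasureTheory ProbabilityTheory Filter Topology Set Metric
open scoped NNReal ENNReal RealInnerProductSpace

noncomputable section

namespace M0

theorem fe_ae {μ : Measure ℂ} (h : FE μ) : ∃ r : ℝ, 0 ≤ r ∧ ∀ᵐ x ∂μ, ‖x‖ ≤ r := by
  obtain ⟨r, hr⟩ := h.bdd
  refine ⟨max r 0, le_max_right _ _, ?_⟩
  have : ∀ᵐ x ∂μ, x ∈ closedBall (0 : ℂ) r := hr
  filter_upwards [this] with x hx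
  exact (mem_closedBall_zero_iff.1 hx).trans (le_max_left _ _)

theorem fe_int {E : Type*} [NormedAddCommGroup E] {μ : Measure ℂ} (h : FE μ) {f : ℂ → E}
    (hf : Continuous f) : Integrable f μ := by
  have := h.fin
  obtain ⟨r, -, hr⟩ := fe_ae h
  obtain ⟨B, hB⟩ := (isCompact_closedBall (0 : ℂ) r).exists_bound_of_continuousOn hf.continuousOn
  refine (integrable_const B).mono' hf.aestronglyMeasurable ?_
  filter_upwards [hr] with x hx using hB x (mem_closedBall_zero_iff.2 hx)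

theorem circ_pfe (hFE : St_FE) (y : ℂ) {δ : ℝ} (hδ : 0 < δ) : PFE (circ y δ) :=
  (hFE.2.2.2.2.2.2.2.2.1 y δ hδ).1

theorem circ_ae (hFE : St_FE) (y : ℂ) {δ : ℝ} (hδ : 0 < δ) : ∀ᵐ x ∂circ y δ, ‖x - y‖ = δ := by
  have : ∀ᵐ x ∂circ y δ, x ∈ sphere y δ := (hFE.2.2.2.2.2.2.2.2.1 y δ hδ).2.1
  filter_upwards [this] with x hx using mem_sphere_iff_norm.1 hx

theorem circ_close (hFE : St_FE) (y : ℂ) {δ : ℝ} (hδ : 0 < δ) {f g : ℂ → ℝ} (hf : Continuous f)
    (hg : Continuous g) {C : ℝ} (h : ∀ x, ‖x - y‖ = δ → |f x - g x| ≤ C) :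
    |∫ x, f x ∂circ y δ - ∫ x, g x ∂circ y δ| ≤ C := by
  obtain ⟨h1, h2⟩ := circ_pfe hFE y hδ
  rw [← integral_sub (fe_int h1 hf) (fe_int h1 hg), ← Real.norm_eq_abs]
  refine (norm_integral_le_of_norm_le_const (C := C) ?_).trans (by simp)
  filter_upwards [circ_ae hFE y hδ] with x hx using h x hx

theorem circ_lip (hFE : St_FE) (y : ℂ) {δ : ℝ} (hδ : 0 < δ) {f : ℂ → ℝ} {K : ℝ≥0}
    (hf : LipschitzWith K f) : |∫ x, f x ∂circ y δ - f y| ≤ K * δ := by
  obtain ⟨h1, h2⟩ := circ_pfe hFE y hδ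
  have := circ_close hFE y hδ hf.continuous (continuous_const (y := f y)) (C := K * δ)
    fun x hx => by
      have := hf.dist_le_mul x y
      rwa [Real.dist_eq, dist_eq_norm, hx] at this
  simpa using this

def gk (δ : ℝ) (y : ℂ) : HH := gr (kk δ y)

def AA (δ : ℝ) (y : ℂ) (δ' : ℝ) (y' : ℂ) : ℝ := ∫ x, lm y' δ' x ∂circ y δ

theorem AA_eq (hFE : St_FE) (hE : St_EXP1) {δ δ' : ℝ} (hδ : 0 < δ) (hδ' : 0 < δ') (y y' : ℂ) :
    AA δ y δ' y' = -Ie (circ y δ) (circ y' δ') := by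
  rw [(hFE.2.2.2.2.1 _ _ (circ_pfe hFE y hδ).1 (circ_pfe hFE y' hδ').1).2, ← integral_neg]
  refine integral_congr_ae (Eventually.of_forall fun x => ?_)
  simp only
  rw [integral_neg, neg_neg, (hE.1 x y' δ' hδ').2, lm]

theorem AA_symm (hFE : St_FE) (hE : St_EXP1) {δ δ' : ℝ} (hδ : 0 < δ) (hδ' : 0 < δ') (y y' : ℂ) :
    AA δ y δ' y' = AA δ' y' δ y := by
  rw [AA_eq hFE hE hδ hδ', AA_eq hFE hE hδ' hδ,
    (hFE.2.2.2.2.1 _ _ (circ_pfe hFE y hδ).1 (circ_pfe hFE y' hδ').1).1]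

theorem AA_one (hFE : St_FE) : AA 1 0 1 0 = 0 := by
  rw [AA, ← integral_zero ℂ ℝ (μ := circ 0 1)]
  refine integral_congr_ae ?_
  filter_upwards [circ_ae hFE 0 one_pos] with x hx
  simp only [lm, hx, max_self, Real.log_one]

theorem gk_mem (hP1 : St_P1) {δ : ℝ} (hδ : 0 < δ) (y : ℂ) :
    gk δ y ∈ closure (gr '' {φ | LipC φ}) := by
  obtain ⟨C, hC⟩ := kk_decay hδ y
  obtain ⟨φ, h1, -, -, h4⟩ := hP1.2.2.2.2.2.2.2.2.1 _ 0 C (kk_lipE hP1 hδ y) hC
  exact mem_closure_of_tendsto h4 (Eventually.of_forall fun n => ⟨φ n, h1 n, rfl⟩)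

theorem gram_pt (hP1 : St_P1) (hP2 : St_P2) (hFE : St_FE) (hE : St_EXP1) {δ δ' : ℝ} (hδ : 0 < δ)
    (hδ' : 0 < δ') (y y' : ℂ) :
    ⟪gk δ y, gk δ' y'⟫ = -AA δ y δ' y' + AA δ y 1 0 + AA δ' y' 1 0 := by
  obtain ⟨C, hC⟩ := kk_decay hδ' y'
  obtain ⟨φ, h1, h2, -, h4⟩ := hP1.2.2.2.2.2.2.2.2.1 _ 0 C (kk_lipE hP1 hδ' y') hC
  have t1 : Tendsto (fun n => ⟪gk δ y, gr (φ n)⟫) atTop (𝓝 ⟪gk δ y, gk δ' y'⟫) :=
    tendsto_const_nhds.inner h4
  have t2 : ∀ᶠ n : ℕ in atTop, ⟪gk δ y, gr (φ n)⟫ =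
      ∫ x, kk δ' y' x ∂circ y δ - ∫ x, kk δ' y' x ∂circ 0 1 := by
    filter_upwards [tendsto_natCast_atTop_atTop.eventually_ge_atTop (‖y‖ + δ + 1)] with n hn
    have hy := norm_nonneg y
    rw [gk, kk_test hP1 hP2 hδ y (h1 n)]
    congr 1
    · refine integral_congr_ae ?_
      filter_upwards [circ_ae hFE y hδ] with x hx
      have := norm_sub_norm_le x y
      rw [h2 n x (by linarith), sub_zero]
    · refine integral_congr_ae ?_
      filter_upwards [circ_ae hFE 0 one_pos] with x hx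
      rw [sub_zero] at hx
      rw [h2 n x (by linarith), sub_zero]
  rw [tendsto_nhds_unique t1 (tendsto_const_nhds.congr' (EventuallyEq.symm t2))]
  simp only [kk]
  rw [integral_sub (fe_int (circ_pfe hFE y hδ).1 (lm_cont one_pos 0))
      (fe_int (circ_pfe hFE y hδ).1 (lm_cont hδ' y')),
    integral_sub (fe_int (circ_pfe hFE 0 one_pos).1 (lm_cont one_pos 0))
      (fe_int (circ_pfe hFE 0 one_pos).1 (lm_cont hδ' y'))]
  have e1 := AA_one hFE
  have e2 := AA_symm hFE hE one_pos hδ' 0 y'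
  simp only [AA] at e1 e2 ⊢
  rw [e1, e2]
  ring

theorem AA_sub (hFE : St_FE) {δ : ℝ} (hδ : 0 < δ) (z y y' : ℂ) :
    |AA δ z δ y - AA δ z δ y'| ≤ ‖y - y'‖ / δ :=
  circ_close hFE z hδ (lm_cont hδ y) (lm_cont hδ y') fun x _ => by
    have := lm_sub hδ y y' x x
    rwa [sub_sub_sub_cancel_left, norm_sub_rev] at this

theorem gk_cont (hP1 : St_P1) (hP2 : St_P2) (hFE : St_FE) (hE : St_EXP1) {δ : ℝ} (hδ : 0 < δ) :
    Continuous (gk δ) := by
  have key : ∀ y y', ‖gk δ y - gk δ y'‖ ≤ Real.sqrt (2 * (‖y - y'‖ / δ)) := fun y y' => by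
    refine Real.le_sqrt_of_sq_le ?_
    rw [← real_inner_self_eq_norm_sq, inner_sub_left, inner_sub_right, inner_sub_right]
    simp only [gram_pt hP1 hP2 hFE hE hδ hδ]
    have a1 := abs_le.1 (AA_sub hFE hδ y y y')
    have a2 := abs_le.1 (AA_sub hFE hδ y' y y')
    linarith [a1.1, a2.2]
  refine continuous_iff_continuousAt.2 fun y => ?_
  rw [ContinuousAt, tendsto_iff_norm_sub_tendsto_zero]
  refine squeeze_zero (fun _ => norm_nonneg _) (fun y' => key y' y) ?_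
  have : Continuous fun y' : ℂ => Real.sqrt (2 * (‖y' - y‖ / δ)) := by fun_prop
  simpa using this.tendsto y

theorem AA_far (hFE : St_FE) (hE : St_EXP1) {δ δ' : ℝ} (hδ : 0 < δ) (hδ' : 0 < δ') (y y' : ℂ)
    (h : δ + δ' ≤ ‖y - y'‖) : AA δ y δ' y' = Real.log ‖y - y'‖ := by
  have e := (hE.1 y' y δ hδ).2
  rw [norm_sub_rev y' y, max_eq_left (by linarith)] at e
  rw [← e, AA]
  refine integral_congr_ae ?_
  filter_upwards [circ_ae hFE y hδ] with x hx
  have h1 : ‖y - y'‖ ≤ ‖x - y‖ + ‖x - y'‖ := by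
    have := norm_sub_le (x - y') (x - y)
    rw [sub_sub_sub_cancel_left] at this
    linarith
  rw [lm, max_eq_left (by linarith), norm_sub_rev]

theorem AA_bd (hFE : St_FE) (hE : St_EXP1) {δ δ' : ℝ} (hδ : 0 < δ) (hδ' : 0 < δ') (h1 : δ ≤ 1)
    (h1' : δ' ≤ 1) (y y' : ℂ) (h : y ≠ y') :
    |AA δ y δ' y'| ≤ |Real.log ‖y - y'‖| + (‖y - y'‖ + 1) := by
  obtain ⟨hf, hp⟩ := circ_pfe hFE y hδ
  have hn : 0 < ‖y - y'‖ := norm_pos_iff.2 (sub_ne_zero.2 h)
  have lo : Real.log ‖y - y'‖ ≤ AA δ y δ' y' := by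
    have e := hE.1 y' y δ hδ
    refine (Real.log_le_log hn ?_ |>.trans e.2.ge).trans ?_
    · rw [norm_sub_rev]; exact le_max_left _ _
    refine integral_mono_ae e.1 (fe_int hf (lm_cont hδ' y')) ?_
    have : ∀ᵐ x ∂circ y δ, x ≠ y' := by
      have h0 := hf.noAtoms y'
      exact (compl_mem_ae_iff.2 h0 : {y'}ᶜ ∈ ae (circ y δ))
    filter_upwards [this] with x hx
    rw [lm, norm_sub_rev y' x]
    exact Real.log_le_log (norm_pos_iff.2 (sub_ne_zero.2 hx)) (le_max_left _ _)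
  have hi : AA δ y δ' y' ≤ ‖y - y'‖ + 1 := by
    calc AA δ y δ' y' ≤ ∫ _, (‖y - y'‖ + 1) ∂circ y δ := by
          refine integral_mono_ae (fe_int hf (lm_cont hδ' y')) (integrable_const _) ?_
          filter_upwards [circ_ae hFE y hδ] with x hx
          have h2 : ‖x - y'‖ ≤ ‖x - y‖ + ‖y - y'‖ := by
            have := norm_add_le (x - y) (y - y')
            rwa [sub_add_sub_cancel] at this
          have h3 : 0 < max ‖x - y'‖ δ' := hδ'.trans_le (le_max_right _ _)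
          have h4 : max ‖x - y'‖ δ' ≤ ‖y - y'‖ + 1 := max_le (by linarith) (by linarith)
          have := Real.log_le_sub_one_of_pos h3
          rw [lm]
          linarith
      _ = ‖y - y'‖ + 1 := by simp
  rw [abs_le]
  constructor
  · linarith [neg_abs_le (Real.log ‖y - y'‖)]
  · linarith [abs_nonneg (Real.log ‖y - y'‖)]

theorem AA_base (hFE : St_FE) {δ : ℝ} (hδ : 0 < δ) (y : ℂ) : |AA δ y 1 0 - lm 0 1 y| ≤ δ := by
  have := circ_lip hFE y hδ (lm_lip one_pos 0)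
  simpa [AA] using this

def dd (n : ℕ) : ℝ := 1 / ((n : ℝ) + 1)

theorem dd_pos (n : ℕ) : 0 < dd n := Nat.one_div_pos_of_nat

theorem dd_le (n : ℕ) : dd n ≤ 1 := by
  rw [dd, div_le_one (by positivity)]
  linarith [(Nat.cast_nonneg n : (0 : ℝ) ≤ n)]

theorem dd_lim : Tendsto dd atTop (𝓝 0) := tendsto_one_div_add_atTop_nhds_zero_nat

def EE (n : ℕ) (μ : Measure ℂ) : HH := ∫ y, gk (dd n) y ∂μ

def HI (μ ν : Measure ℂ) : ℝ :=
  Ie μ ν + μ.real univ * ∫ x, lm 0 1 x ∂ν + ν.real univ * ∫ x, lm 0 1 x ∂μ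

theorem base_lim (hFE : St_FE) (y : ℂ) :
    Tendsto (fun n => AA (dd n) y 1 0) atTop (𝓝 (lm 0 1 y)) := by
  rw [tendsto_iff_norm_sub_tendsto_zero]
  exact squeeze_zero (fun _ => norm_nonneg _) (fun n => AA_base hFE (dd_pos n) y) dd_lim

theorem gram_lim (hP1 : St_P1) (hP2 : St_P2) (hFE : St_FE) (hE : St_EXP1) {μ ν : Measure ℂ}
    (hμ : FE μ) (hν : FE ν) :
    Tendsto (fun p : ℕ × ℕ => ⟪EE p.1 μ, EE p.2 ν⟫) atTop (𝓝 (HI μ ν)) := by
  have := hμ.fin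
  have := hν.fin
  have hc := fun n => gk_cont hP1 hP2 hFE hE (dd_pos n)
  have e1 : ∀ p : ℕ × ℕ, ⟪EE p.1 μ, EE p.2 ν⟫ =
      ∫ z : ℂ × ℂ, ⟪gk (dd p.1) z.1, gk (dd p.2) z.2⟫ ∂μ.prod ν := fun p =>
    (integral_prod_bilin (innerSL ℝ) (fe_int hμ (hc p.1)) (fe_int hν (hc p.2))).symm
  have i0 := hFE.1 μ ν hμ hν
  have i1 : Integrable (fun z : ℂ × ℂ => lm 0 1 z.1) (μ.prod ν) :=
    (fe_int hμ (lm_cont one_pos 0)).comp_fst ν
  have i2 : Integrable (fun z : ℂ × ℂ => lm 0 1 z.2) (μ.prod ν) :=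
    (fe_int hν (lm_cont one_pos 0)).comp_snd μ
  have i3 : Integrable (fun z : ℂ × ℂ => ‖z.1‖) (μ.prod ν) :=
    (fe_int hμ continuous_norm).comp_fst ν
  have i4 : Integrable (fun z : ℂ × ℂ => ‖z.2‖) (μ.prod ν) :=
    (fe_int hν continuous_norm).comp_snd μ
  have e2 : HI μ ν = ∫ z : ℂ × ℂ, (-Real.log ‖z.1 - z.2‖ + lm 0 1 z.1 + lm 0 1 z.2) ∂μ.prod ν := by
    have i5 : Integrable (fun z : ℂ × ℂ => -Real.log ‖z.1 - z.2‖) (μ.prod ν) := i0.neg
    have i6 : Integrable (fun z : ℂ × ℂ => -Real.log ‖z.1 - z.2‖ + lm 0 1 z.1) (μ.prod ν) :=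
      i5.add i1
    rw [integral_add i6 i2, integral_add i5 i1,
      integral_fun_fst (lm 0 1), integral_fun_snd (lm 0 1), HI, Ie, smul_eq_mul, smul_eq_mul]
    ring
  have hd : ∀ᵐ z ∂μ.prod ν, z.1 ≠ z.2 := by
    rw [Measure.ae_prod_iff_ae_ae (p := fun z : ℂ × ℂ => z.1 ≠ z.2)
      (isClosed_eq continuous_fst continuous_snd).measurableSet.compl]
    refine Eventually.of_forall fun x => ?_
    filter_upwards [(compl_mem_ae_iff.2 (hν.noAtoms x) : {x}ᶜ ∈ ae ν)] with y hy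
    exact fun h => hy h.symm
  simp only [e1, e2]
  refine tendsto_integral_filter_of_dominated_convergence
    (fun z => |Real.log ‖z.1 - z.2‖| + (‖z.1‖ + ‖z.2‖ + 1) + (|lm 0 1 z.1| + 1) +
      (|lm 0 1 z.2| + 1)) (Eventually.of_forall fun p => ?_) (Eventually.of_forall fun p => ?_)
    ?_ ?_
  · exact (((hc p.1).comp continuous_fst).inner
      ((hc p.2).comp continuous_snd)).aestronglyMeasurable
  · filter_upwards [hd] with z hz
    rw [gram_pt hP1 hP2 hFE hE (dd_pos _) (dd_pos _), Real.norm_eq_abs]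
    have a1 := abs_le.1 (AA_bd hFE hE (dd_pos p.1) (dd_pos p.2) (dd_le _) (dd_le _) _ _ hz)
    have a2 := abs_le.1 (AA_base hFE (dd_pos p.1) z.1)
    have a3 := abs_le.1 (AA_base hFE (dd_pos p.2) z.2)
    have a4 := norm_sub_le z.1 z.2
    have := dd_le p.1
    have := dd_le p.2
    rw [abs_le]
    constructor
    · linarith [a1.2, a2.1, a3.1, neg_abs_le (lm 0 1 z.1), neg_abs_le (lm 0 1 z.2)]
    · linarith [a1.1, a2.2, a3.2, le_abs_self (lm 0 1 z.1), le_abs_self (lm 0 1 z.2)]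
  · exact ((i0.abs.add ((i3.add i4).add (integrable_const 1))).add
      (i1.abs.add (integrable_const 1))).add (i2.abs.add (integrable_const 1))
  · filter_upwards [hd] with z hz
    simp only [gram_pt hP1 hP2 hFE hE (dd_pos _) (dd_pos _)]
    have t1 : Tendsto (fun p : ℕ × ℕ => p.1) atTop atTop := by
      rw [← prod_atTop_atTop_eq]; exact tendsto_fst
    have t2 : Tendsto (fun p : ℕ × ℕ => p.2) atTop atTop := by
      rw [← prod_atTop_atTop_eq]; exact tendsto_snd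
    refine (Tendsto.add (Tendsto.neg ?_) ((base_lim hFE z.1).comp t1)).add
      ((base_lim hFE z.2).comp t2)
    have hn : 0 < ‖z.1 - z.2‖ := norm_pos_iff.2 (sub_ne_zero.2 hz)
    have t3 : Tendsto (fun p : ℕ × ℕ => dd p.1 + dd p.2) atTop (𝓝 (0 + 0)) :=
      (dd_lim.comp t1).add (dd_lim.comp t2)
    rw [add_zero] at t3
    refine tendsto_const_nhds.congr' ?_
    filter_upwards [t3.eventually (gt_mem_nhds hn)] with p hp
    exact (AA_far hFE hE (dd_pos _) (dd_pos _) _ _ hp.le).symm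

theorem diag : Tendsto (fun n : ℕ => (n, n)) atTop atTop := by
  rw [← prod_atTop_atTop_eq]; exact tendsto_id.prodMk tendsto_id

def ee (μ : Measure ℂ) : HH := limUnder atTop fun n => EE n μ

theorem EE_lim (hP1 : St_P1) (hP2 : St_P2) (hFE : St_FE) (hE : St_EXP1) {μ : Measure ℂ}
    (hμ : FE μ) : Tendsto (fun n => EE n μ) atTop (𝓝 (ee μ)) := by
  refine CauchySeq.tendsto_limUnder ?_
  rw [cauchySeq_iff_tendsto_dist_atTop_0]
  have g := gram_lim hP1 hP2 hFE hE hμ hμ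
  have t1 : Tendsto (fun p : ℕ × ℕ => p.1) atTop atTop := by
    rw [← prod_atTop_atTop_eq]; exact tendsto_fst
  have t2 : Tendsto (fun p : ℕ × ℕ => p.2) atTop atTop := by
    rw [← prod_atTop_atTop_eq]; exact tendsto_snd
  have t := (((g.comp (diag.comp t1)).sub (g.const_mul 2)).add (g.comp (diag.comp t2))).sqrt
  rw [show HI μ μ - 2 * HI μ μ + HI μ μ = 0 by ring, Real.sqrt_zero] at t
  refine t.congr fun p => ?_
  simp only [Function.comp]
  rw [real_inner_self_eq_norm_sq, real_inner_self_eq_norm_sq, ← norm_sub_sq_real,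
    Real.sqrt_sq (norm_nonneg _), dist_eq_norm]

theorem ee_ee (hP1 : St_P1) (hP2 : St_P2) (hFE : St_FE) (hE : St_EXP1) {μ ν : Measure ℂ}
    (hμ : FE μ) (hν : FE ν) : ⟪ee μ, ee ν⟫ = HI μ ν := by
  have t1 : Tendsto (fun n => ⟪EE n μ, EE n ν⟫) atTop (𝓝 ⟪ee μ, ee ν⟫) :=
    (EE_lim hP1 hP2 hFE hE hμ).inner (EE_lim hP1 hP2 hFE hE hν)
  have t2 := (gram_lim hP1 hP2 hFE hE hμ hν).comp diag
  simp only [Function.comp_def] at t2
  exact tendsto_nhds_unique t1 t2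

theorem ee_test (hP1 : St_P1) (hP2 : St_P2) (hFE : St_FE) (hE : St_EXP1) {μ : Measure ℂ}
    (hμ : FE μ) {φ : ℂ → ℝ} (hφ : LipC φ) :
    ⟪ee μ, gr φ⟫ = ∫ x, φ x ∂μ - μ.real univ * ∫ x, φ x ∂circ 0 1 := by
  have := hμ.fin
  obtain ⟨K, hK⟩ := hφ.1
  have t1 : Tendsto (fun n => ⟪EE n μ, gr φ⟫) atTop (𝓝 ⟪ee μ, gr φ⟫) :=
    (EE_lim hP1 hP2 hFE hE hμ).inner tendsto_const_nhds
  refine tendsto_nhds_unique t1 ?_
  rw [tendsto_iff_norm_sub_tendsto_zero]
  have t2 : Tendsto (fun n => K * dd n * μ.real univ) atTop (𝓝 (K * 0 * μ.real univ)) :=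
    (dd_lim.const_mul _).mul_const _
  rw [mul_zero, zero_mul] at t2
  refine squeeze_zero (fun _ => norm_nonneg _) (fun n => ?_) t2
  have hc := gk_cont hP1 hP2 hFE hE (dd_pos n)
  have i1 : Integrable (fun y => ⟪gr φ, gk (dd n) y⟫) μ :=
    fe_int hμ (continuous_const.inner hc)
  have i2 : Integrable (fun y => φ y - ∫ x, φ x ∂circ 0 1) μ :=
    (fe_int hμ hK.continuous).sub (integrable_const _)
  have e : ∫ x, φ x ∂μ - μ.real univ * ∫ x, φ x ∂circ 0 1 =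
      ∫ y, (φ y - ∫ x, φ x ∂circ 0 1) ∂μ := by
    rw [integral_sub (fe_int hμ hK.continuous) (integrable_const _), integral_const, smul_eq_mul]
  rw [e, real_inner_comm, EE, ← integral_inner (fe_int hμ hc), ← integral_sub i1 i2]
  refine norm_integral_le_of_norm_le_const (Eventually.of_forall fun y => ?_)
  rw [real_inner_comm, gk, kk_test hP1 hP2 (dd_pos n) y hφ, sub_sub_sub_cancel_right,
    Real.norm_eq_abs]
  exact circ_lip hFE y (dd_pos n) hK

theorem ee_mem (hP1 : St_P1) (hP2 : St_P2) (hFE : St_FE) (hE : St_EXP1) {W : Submodule ℝ HH}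
    (hW : (W : Set HH) = closure (gr '' {φ | LipC φ})) {μ : Measure ℂ} (hμ : FE μ) :
    ee μ ∈ W := by
  have hcl : IsClosed (W : Set HH) := hW ▸ isClosed_closure
  refine hcl.mem_of_tendsto (EE_lim hP1 hP2 hFE hE hμ) (Eventually.of_forall fun n => ?_)
  have h1 : Wᗮᗮ = W := by
    rw [Submodule.orthogonal_orthogonal_eq_closure, hcl.submodule_topologicalClosure_eq]
  rw [SetLike.mem_coe, ← h1, Submodule.mem_orthogonal]
  intro v hv
  rw [EE, ← integral_inner (fe_int hμ (gk_cont hP1 hP2 hFE hE (dd_pos n)))]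
  have : ∀ y, ⟪v, gk (dd n) y⟫ = 0 := fun y =>
    Submodule.inner_left_of_mem_orthogonal
      (show gk (dd n) y ∈ (W : Set HH) from hW ▸ gk_mem hP1 (dd_pos n) y) hv
  simp only [this, integral_zero]

end M0

open M0 in
theorem blk_M0 (hP1 : St_P1) (hP2 : St_P2) (hFE : St_FE) (hE : St_EXP1) : St_M0 := by
  obtain ⟨W, hW⟩ := hP1.2.2.2.2.2.2.2.2.2.1
  refine ⟨{ O := ∅
            hO := isOpen_empty
            C0 := 0
            bg := fun x => -lm 0 1 x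
            bgc := (lm_cont one_pos 0).neg
            bg0 := fun x hx => absurd hx (notMem_empty x)
            e := ee
            ee := fun μ ν hμ hν => ?_
            eg := fun μ φ hμ hφ hs => ?_
            ezc := fun μ ν hμ hν _ => ?_
            ezg := fun μ ν φ hμ hν h hφ => ?_ }⟩
  · rw [ee_ee hP1 hP2 hFE hE hμ hν, HI, integral_neg, integral_neg]
    ring
  · have h0 : φ = 0 := tsupport_eq_empty_iff.1 (subset_empty_iff.1 hs)
    rw [ee_test hP1 hP2 hFE hE hμ hφ, h0]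
    simp
  · rw [← hW]
    exact W.sub_mem (ee_mem hP1 hP2 hFE hE hW hμ) (ee_mem hP1 hP2 hFE hE hW hν)
  · rw [inner_sub_left, ee_test hP1 hP2 hFE hE hμ hφ, ee_test hP1 hP2 hFE hE hν hφ,
      measureReal_def, measureReal_def, h]
    ring

end

end Pool.Agent.Lib.APPS
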