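import Pool.Agent.Lib.APPS.Blue1

/-! Block M0, part a: the regularised logarithmic kernels. -/

namespace Pool.Agent.Lib.APPS

open MeasureTheory ProbabilityTheory Filter Topology Set Metric
open scoped NNReal ENNReal RealInnerProductSpace

noncomputable section

namespace M0

def lm (y : ℂ) (δ : ℝ) (x : ℂ) : ℝ := Real.log (max ‖x - y‖ δ)

def kk (δ : ℝ) (y : ℂ) (x : ℂ) : ℝ := lm 0 1 x - lm y δ x

theorem log_sub_le1 {a b δ : ℝ} (hδ : 0 < δ) (ha : δ ≤ a) (hb : δ ≤ b) :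
    Real.log a - Real.log b ≤ |a - b| / δ := by
  have ha0 : 0 < a := hδ.trans_le ha
  have hb0 : 0 < b := hδ.trans_le hb
  rw [← Real.log_div ha0.ne' hb0.ne']
  refine (Real.log_le_sub_one_of_pos (div_pos ha0 hb0)).trans ?_
  have h1 : a / b - 1 = (a - b) / b := by field_simp
  rw [h1]
  calc (a - b) / b ≤ |a - b| / b := by gcongr; exact le_abs_self _
    _ ≤ |a - b| / δ := by gcongr

theorem log_sub_le {a b δ : ℝ} (hδ : 0 < δ) (ha : δ ≤ a) (hb : δ ≤ b) :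
    |Real.log a - Real.log b| ≤ |a - b| / δ := by
  rw [abs_le]
  constructor
  · have := log_sub_le1 hδ hb ha
    rw [abs_sub_comm] at this
    linarith
  · exact log_sub_le1 hδ ha hb

theorem lm_sub {δ : ℝ} (hδ : 0 < δ) (y y' x x' : ℂ) :
    |lm y δ x - lm y' δ x'| ≤ ‖(x - y) - (x' - y')‖ / δ := by
  refine (log_sub_le hδ (le_max_right _ _) (le_max_right _ _)).trans ?_
  gcongr
  exact (abs_max_sub_max_le_abs _ _ _).trans (abs_norm_sub_norm_le _ _)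

theorem lm_lip {δ : ℝ} (hδ : 0 < δ) (y : ℂ) : LipschitzWith (δ⁻¹).toNNReal (lm y δ) := by
  refine LipschitzWith.of_dist_le' fun x x' => ?_
  have := lm_sub hδ y y x x'
  rw [sub_sub_sub_cancel_right] at this
  rw [Real.dist_eq, dist_eq_norm, ← div_eq_inv_mul]
  exact this

theorem lm_cont {δ : ℝ} (hδ : 0 < δ) (y : ℂ) : Continuous (lm y δ) := (lm_lip hδ y).continuous

theorem kk_lip {δ : ℝ} (hδ : 0 < δ) (y : ℂ) : ∃ K, LipschitzWith K (kk δ y) :=
  ⟨_, (lm_lip one_pos 0).sub (lm_lip hδ y)⟩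

theorem kk_cont {δ : ℝ} (hδ : 0 < δ) (y : ℂ) : Continuous (kk δ y) :=
  (kk_lip hδ y).choose_spec.continuous

theorem kk_far {δ : ℝ} (hδ : 0 < δ) (y x : ℂ) (h : ‖y‖ + δ + 1 ≤ ‖x‖) :
    kk δ y x = Real.log ‖x‖ - Real.log ‖x - y‖ := by
  have h1 : ‖x‖ - ‖y‖ ≤ ‖x - y‖ := norm_sub_norm_le x y
  have h2 := norm_nonneg y
  rw [kk, lm, lm, sub_zero, max_eq_left (by linarith), max_eq_left (by linarith)]

theorem far_sub1 (y x x' : ℂ) (hx : x ≠ 0) (hx' : x' ≠ 0) (hy : x - y ≠ 0) (hy' : x' - y ≠ 0) :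
    (Real.log ‖x‖ - Real.log ‖x - y‖) - (Real.log ‖x'‖ - Real.log ‖x' - y‖) ≤
      ‖y‖ * ‖x - x'‖ / (‖x - y‖ * ‖x'‖) := by
  have h1 := norm_pos_iff.2 hx
  have h2 := norm_pos_iff.2 hx'
  have h3 := norm_pos_iff.2 hy
  have h4 := norm_pos_iff.2 hy'
  have e1 : (Real.log ‖x‖ - Real.log ‖x - y‖) - (Real.log ‖x'‖ - Real.log ‖x' - y‖) =
      Real.log (‖x‖ * ‖x' - y‖ / (‖x - y‖ * ‖x'‖)) := by
    rw [Real.log_div (by positivity) (by positivity), Real.log_mul h1.ne' h4.ne',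
      Real.log_mul h3.ne' h2.ne']
    ring
  rw [e1]
  refine (Real.log_le_sub_one_of_pos (by positivity)).trans ?_
  have e2 : x * (x' - y) = (x - y) * x' + y * (x' - x) := by ring
  have e3 : ‖x‖ * ‖x' - y‖ ≤ ‖x - y‖ * ‖x'‖ + ‖y‖ * ‖x - x'‖ := by
    rw [← norm_mul, e2, norm_sub_rev x x', ← norm_mul, ← norm_mul]
    exact norm_add_le _ _
  rw [sub_le_iff_le_add, div_le_iff₀ (by positivity), add_mul, div_mul_cancel₀ _ (by positivity)]
  linarith

theorem norm_grad (f : ℂ → ℝ) (x : ℂ) : ‖gradient f x‖ = ‖fderiv ℝ f x‖ := by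
  rw [← toDual_gradient, LinearIsometryEquiv.norm_map]

theorem grad_far {δ : ℝ} (hδ : 0 < δ) (y x : ℂ) (h : 2 * (2 * ‖y‖ + δ + 1) ≤ ‖x‖) :
    ‖gradient (kk δ y) x‖ ≤ 8 * ‖y‖ / ‖x‖ ^ 2 := by
  have hy := norm_nonneg y
  have hx : 0 < ‖x‖ := by linarith
  rw [norm_grad]
  refine norm_fderiv_le_of_lip' ℝ (by positivity) ?_
  have hb : ∀ z : ℂ, ‖x‖ / 2 ≤ ‖z‖ → ‖x‖ / 4 ≤ ‖z - y‖ := fun z hz => by
    have := norm_sub_norm_le z y
    linarith
  have key : ∀ z z' : ℂ, ‖x‖ / 2 ≤ ‖z‖ → ‖x‖ / 2 ≤ ‖z'‖ →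
      kk δ y z - kk δ y z' ≤ 8 * ‖y‖ / ‖x‖ ^ 2 * ‖z - z'‖ := fun z z' hz hz' => by
    rw [kk_far hδ y z (by linarith), kk_far hδ y z' (by linarith)]
    have a1 := hb z hz
    have a2 := hb z' hz'
    refine (far_sub1 y z z' (norm_pos_iff.1 (by linarith)) (norm_pos_iff.1 (by linarith))
      (norm_pos_iff.1 (by linarith)) (norm_pos_iff.1 (by linarith))).trans ?_
    calc ‖y‖ * ‖z - z'‖ / (‖z - y‖ * ‖z'‖) ≤ ‖y‖ * ‖z - z'‖ / (‖x‖ / 4 * (‖x‖ / 2)) := by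
          gcongr
      _ = 8 * ‖y‖ / ‖x‖ ^ 2 * ‖z - z'‖ := by field_simp; ring
  have hev : ∀ᶠ z in 𝓝 x, ‖x‖ / 2 < ‖z‖ :=
    continuous_norm.continuousAt.eventually (lt_mem_nhds (by linarith))
  filter_upwards [hev] with z hz
  rw [Real.norm_eq_abs, abs_le]
  constructor
  · have := key x z (by linarith) hz.le
    rw [norm_sub_rev] at this
    linarith
  · exact key z x hz.le (by linarith)

theorem kk_lipE (hP1 : St_P1) {δ : ℝ} (hδ : 0 < δ) (y : ℂ) : LipE (kk δ y) := by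
  obtain ⟨K, hK⟩ := kk_lip hδ y
  refine ⟨⟨K, hK⟩, ?_⟩
  have hm : Measurable (gradient (kk δ y)) := hP1.2.2.2.2.2.2.1 _
  have hb := hP1.2.2.2.2.2.2.2.1 _ K hK
  rw [memLp_two_iff_integrable_sq_norm hm.aestronglyMeasurable]
  set R := 2 * (2 * ‖y‖ + δ + 1) with hR
  have hy := norm_nonneg y
  have hR1 : 2 ≤ R := by linarith
  set C := K * (1 + R) ^ 2 + 32 * ‖y‖ with hC
  have hg : ∀ x, ‖gradient (kk δ y) x‖ ≤ C / (1 + ‖x‖) ^ 2 := fun x => by
    have hx := norm_nonneg x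
    rw [le_div_iff₀ (by positivity)]
    rcases le_total ‖x‖ R with h | h
    · calc ‖gradient (kk δ y) x‖ * (1 + ‖x‖) ^ 2 ≤ K * (1 + R) ^ 2 := by
            gcongr; exact hb x
        _ ≤ C := by rw [hC]; linarith
    · have h2 := grad_far hδ y x h
      have hx0 : 0 < ‖x‖ := by linarith
      calc ‖gradient (kk δ y) x‖ * (1 + ‖x‖) ^ 2 ≤ 8 * ‖y‖ / ‖x‖ ^ 2 * (2 * ‖x‖) ^ 2 := by
            gcongr; linarith
        _ = 32 * ‖y‖ := by field_simp; ring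
        _ ≤ C := by
            rw [hC]
            have : (0 : ℝ) ≤ K * (1 + R) ^ 2 := by positivity
            linarith
  have hi : Integrable (fun x : ℂ => C ^ 2 * (1 + ‖x‖) ^ (-(4 : ℝ))) volume :=
    (integrable_one_add_norm (by rw [Complex.finrank_real_complex]; norm_num)).const_mul _
  refine hi.mono' (hm.norm.pow_const 2).aestronglyMeasurable (Eventually.of_forall fun x => ?_)
  have hx := norm_nonneg x
  rw [Real.norm_eq_abs, abs_of_nonneg (by positivity), Real.rpow_neg (by positivity)]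
  calc ‖gradient (kk δ y) x‖ ^ 2 ≤ (C / (1 + ‖x‖) ^ 2) ^ 2 := by gcongr; exact hg x
    _ = C ^ 2 * ((1 + ‖x‖) ^ (4 : ℝ))⁻¹ := by
        rw [show (4 : ℝ) = ((4 : ℕ) : ℝ) by norm_num, Real.rpow_natCast]
        field_simp

theorem kk_decay {δ : ℝ} (hδ : 0 < δ) (y : ℂ) :
    ∃ C, ∀ x, |kk δ y x - 0| ≤ C / (1 + ‖x‖) := by
  set R := 2 * ‖y‖ + δ + 1 with hR
  have hy := norm_nonneg y
  obtain ⟨B, hB⟩ := (isCompact_closedBall (0 : ℂ) R).exists_bound_of_continuousOn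
    (kk_cont hδ y).continuousOn
  have hB0 : 0 ≤ B := (norm_nonneg _).trans (hB 0 (mem_closedBall_self (by linarith)))
  refine ⟨B * (1 + R) + 4 * ‖y‖, fun x => ?_⟩
  have hx := norm_nonneg x
  rw [sub_zero, le_div_iff₀ (by positivity)]
  rcases le_total ‖x‖ R with h | h
  · have := hB x (mem_closedBall_zero_iff.2 h)
    rw [Real.norm_eq_abs] at this
    calc |kk δ y x| * (1 + ‖x‖) ≤ B * (1 + R) := by gcongr
      _ ≤ _ := by linarith
  · have hx0 : 0 < ‖x‖ := by linarith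
    rw [kk_far hδ y x (by linarith)]
    have h1 := norm_sub_norm_le x y
    have h2 := log_sub_le (a := ‖x‖) (b := ‖x - y‖) (δ := ‖x‖ / 2) (by linarith) (by linarith)
      (by linarith)
    have h3 : |‖x‖ - ‖x - y‖| ≤ ‖y‖ := by
      have := abs_norm_sub_norm_le x (x - y)
      rwa [sub_sub_cancel] at this
    calc |Real.log ‖x‖ - Real.log ‖x - y‖| * (1 + ‖x‖) ≤ ‖y‖ / (‖x‖ / 2) * (2 * ‖x‖) := by
          gcongr
          · exact h2.trans (by gcongr)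
          · linarith
      _ = 4 * ‖y‖ := by field_simp; ring
      _ ≤ _ := by
          have : 0 ≤ B * (1 + R) := by positivity
          linarith

theorem int_grad (hP1 : St_P1) {φ : ℂ → ℝ} (hφ : LipC φ) : Integrable (gradient φ) := by
  obtain ⟨⟨K, hK⟩, hc⟩ := hφ
  have h1 : HasCompactSupport (gradient φ) := HasCompactSupport.intro hc fun x hx => by
    rw [(notMem_tsupport_iff_eventuallyEq.1 hx).gradient_eq]
    exact gradient_fun_const x 0
  rw [← memLp_one_iff_integrable]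
  exact h1.memLp_of_bound (hP1.2.2.2.2.2.2.1 φ).aestronglyMeasurable K
    (Eventually.of_forall (hP1.2.2.2.2.2.2.2.1 φ K hK))

theorem int_inner (hP1 : St_P1) {f φ : ℂ → ℝ} {K : ℝ≥0} (hf : LipschitzWith K f) (hφ : LipC φ) :
    Integrable fun x => ⟪gradient f x, gradient φ x⟫ := by
  refine ((int_grad hP1 hφ).norm.const_mul K).mono' ?_ (Eventually.of_forall fun x => ?_)
  · exact ((hP1.2.2.2.2.2.2.1 f).inner (hP1.2.2.2.2.2.2.1 φ)).aestronglyMeasurable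
  · refine (norm_inner_le_norm _ _).trans ?_
    gcongr
    exact hP1.2.2.2.2.2.2.2.1 f K hf x

theorem kk_test (hP1 : St_P1) (hP2 : St_P2) {δ : ℝ} (hδ : 0 < δ) (y : ℂ) {φ : ℂ → ℝ}
    (hφ : LipC φ) :
    ⟪gr (kk δ y), gr φ⟫ = ∫ x, φ x ∂circ y δ - ∫ x, φ x ∂circ 0 1 := by
  rw [(hP1.2.2.2.2.1 _ _ (kk_lipE hP1 hδ y) (hP1.1 φ hφ)).2]
  have e : ∫ x, ⟪gradient (kk δ y) x, gradient φ x⟫ =
      ∫ x, (⟪gradient (lm 0 1) x, gradient φ x⟫ - ⟪gradient (lm y δ) x, gradient φ x⟫) := by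
    refine integral_congr_ae ?_
    filter_upwards [(lm_lip one_pos 0).ae_differentiableAt, (lm_lip hδ y).ae_differentiableAt]
      with x h1 h2
    have : kk δ y = lm 0 1 - lm y δ := rfl
    rw [← inner_sub_left, this]
    simp only [gradient, fderiv_sub h1 h2, map_sub]
  rw [e, integral_sub (int_inner hP1 (lm_lip one_pos 0) hφ) (int_inner hP1 (lm_lip hδ y) hφ)]
  have h1 := hP2.1 0 1 φ one_pos hφ
  have h2 := hP2.1 y δ φ hδ hφ
  change ∫ x, ⟪gradient (lm 0 1) x, gradient φ x⟫ = _ at h1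
  change ∫ x, ⟪gradient (lm y δ) x, gradient φ x⟫ = _ at h2
  rw [h1, h2]
  have := Real.pi_pos
  field_simp
  ring

end M0

end

end Pool.Agent.Lib.APPS
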