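import Pool.Agent.Lib.APPS.Blue1

/-!
Gaussian part of block MBW.
-/

namespace Pool.Agent.Lib.APPS

open MeasureTheory ProbabilityTheory Filter Topology Set Metric
open scoped NNReal ENNReal RealInnerProductSpace Classical

noncomputable section

namespace MBW

def ew (γ : ℝ) (v : HH) (ω : Om) : ℝ≥0∞ := ENNReal.ofReal (Wk γ v ω)

theorem meas_ew (γ : ℝ) (v : HH) : Measurable (ew γ v) :=
  ENNReal.measurable_ofReal.comp (Real.measurable_exp.comp
    (((meas_ev v).const_mul γ).sub_const _))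

theorem eE_add (s t : ℝ) : eE (s + t) = eE s * eE t := by
  unfold eE
  rw [Real.exp_add, ENNReal.ofReal_mul (Real.exp_pos _).le]

theorem eE_mono {s t : ℝ} (h : s ≤ t) : eE s ≤ eE t :=
  ENNReal.ofReal_le_ofReal (Real.exp_le_exp.2 h)

theorem meas_eE : Measurable eE := by
  unfold eE
  fun_prop

theorem ew_eq (γ : ℝ) (v : HH) (ω : Om) : ew γ v ω = eE (γ * ω v - γ ^ 2 * ‖v‖ ^ 2 / 2) := rfl

theorem eE_rpow (t q : ℝ) (hq : 0 ≤ q) : eE t ^ q = eE (t * q) := by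
  unfold eE
  rw [ENNReal.ofReal_rpow_of_nonneg (Real.exp_pos _).le hq, Real.exp_mul]

theorem ew_pow (hD : St_G1D) (γ q : ℝ) (hq : 0 ≤ q) (v : HH) :
    ∫⁻ ω, ew γ v ω ^ q ∂gm = eE (γ ^ 2 * q * (q - 1) / 2 * ‖v‖ ^ 2) := by
  have h : ∀ ω, ew γ v ω ^ q = ew (γ * q) v ω * eE (γ ^ 2 * q * (q - 1) / 2 * ‖v‖ ^ 2) := by
    intro ω
    rw [ew_eq, ew_eq, eE_rpow _ _ hq, ← eE_add]
    congr 1
    ring
  simp_rw [h]
  rw [lintegral_mul_const _ (meas_ew _ _)]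
  have := hD.2.2.2.2.2.1 (γ * q) v
  unfold ew
  rw [this, one_mul]

theorem jensen (hD : St_G1D) {I : Type} (s : Finset I) (γ q B : ℝ) (a : ℝ≥0∞) (hq : 1 ≤ q)
    (hn : s.card * a ≤ 1) (v : I → HH) (hv : ∀ i ∈ s, ‖v i‖ ^ 2 ≤ B) :
    ∫⁻ ω, (∑ i ∈ s, a * ew γ (v i) ω) ^ q ∂gm ≤ eE (γ ^ 2 * q * (q - 1) / 2 * B) := by
  have hq0 : 0 ≤ q := by linarith
  have hb : 0 ≤ γ ^ 2 * q * (q - 1) / 2 := by
    have : 0 ≤ q - 1 := by linarith
    positivity
  calc ∫⁻ ω, (∑ i ∈ s, a * ew γ (v i) ω) ^ q ∂gm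
      ≤ ∫⁻ ω, (s.card : ℝ≥0∞) ^ (q - 1) * ∑ i ∈ s, a ^ q * ew γ (v i) ω ^ q ∂gm := by
        refine lintegral_mono fun ω => ?_
        refine (ENNReal.rpow_sum_le_const_mul_sum_rpow s _ hq).trans (le_of_eq ?_)
        simp_rw [ENNReal.mul_rpow_of_nonneg _ _ hq0]
    _ = (s.card : ℝ≥0∞) ^ (q - 1) * ∑ i ∈ s, a ^ q * ∫⁻ ω, ew γ (v i) ω ^ q ∂gm := by
        rw [lintegral_const_mul, lintegral_finsetSum]
        · congr 1
          refine Finset.sum_congr rfl fun i _ => ?_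
          rw [lintegral_const_mul]
          exact (meas_ew _ _).pow_const _
        · intro i _
          exact ((meas_ew _ _).pow_const _).const_mul _
        · exact Finset.measurable_sum _ fun i _ => ((meas_ew _ _).pow_const _).const_mul _
    _ ≤ (s.card : ℝ≥0∞) ^ (q - 1) * ∑ _i ∈ s, a ^ q * eE (γ ^ 2 * q * (q - 1) / 2 * B) := by
        gcongr with i hi
        rw [ew_pow hD γ q hq0]
        exact eE_mono (mul_le_mul_of_nonneg_left (hv i hi) hb)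
    _ = (s.card * a) ^ q * eE (γ ^ 2 * q * (q - 1) / 2 * B) := by
        rw [Finset.sum_const, nsmul_eq_mul, ENNReal.mul_rpow_of_nonneg _ _ hq0]
        have : (s.card : ℝ≥0∞) ^ q = (s.card : ℝ≥0∞) ^ (q - 1) * s.card := by
          conv_lhs => rw [show q = (q - 1) + 1 by ring]
          rw [ENNReal.rpow_add_of_nonneg _ _ (by linarith) zero_le_one, ENNReal.rpow_one]
        rw [this]
        ring
    _ ≤ 1 * eE (γ ^ 2 * q * (q - 1) / 2 * B) := by
        gcongr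
        exact ENNReal.rpow_le_one hn hq0
    _ = _ := one_mul _

theorem ew_add (γ : ℝ) (h g : HH) (hg : ⟪h, g⟫ = 0) (ω : Om) :
    ew γ (h + g) ω = eE (γ * ω h - γ ^ 2 * ‖h‖ ^ 2 / 2) * eE (γ * ω g - γ ^ 2 * ‖g‖ ^ 2 / 2) := by
  rw [ew_eq, ← eE_add, norm_add_sq_real, hg, map_add]
  congr 1
  ring

theorem step (h1 : St_G1) (hD : St_G1D) (h3 : St_G3) (hR : St_ROS) (γ q : ℝ) (hq : 1 ≤ q) :
    ∃ C : ℝ, 0 ≤ C ∧ ∀ (J I : Type) [Fintype J] [Fintype I] (a : ℝ≥0∞) (B : ℝ)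
      (h g : J → I → HH), (Fintype.card J * Fintype.card I : ℕ) * a ≤ 1 →
      (∀ j i j' i', ⟪h j i, g j' i'⟫ = 0) → (∀ j j', j ≠ j' → ∀ i i', ⟪g j i, g j' i'⟫ = 0) →
      (∀ j i, ‖h j i‖ ^ 2 ≤ B) →
      ∫⁻ ω, (∑ j, ∑ i, a * ew γ (h j i + g j i) ω) ^ q ∂gm ≤ ENNReal.ofReal C *
        (eE (γ ^ 2 * q * (q - 1) / 2 * B) +
          ∑ j, ∫⁻ ω, (∑ i, a * ew γ (h j i + g j i) ω) ^ q ∂gm) := by
  obtain ⟨C, hC⟩ := hR q hq
  refine ⟨max C 0, le_max_right _ _, ?_⟩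
  intro J I _ _ a B h g hn hhg hgg hB
  have : IsProbabilityMeasure gm := h1.1
  let Z0 : Om → (J × I → ℝ) := fun ω p => ω (h p.1 p.2)
  let Z : J → Om → (I → ℝ) := fun j ω i => ω (g j i)
  let f : J → (J × I → ℝ) × (I → ℝ) → ℝ≥0∞ := fun j p =>
    ∑ i, a * (eE (γ * p.1 (j, i) - γ ^ 2 * ‖h j i‖ ^ 2 / 2) *
      eE (γ * p.2 i - γ ^ 2 * ‖g j i‖ ^ 2 / 2))
  have mZ0 : Measurable Z0 := measurable_pi_lambda _ fun p => meas_ev _
  have mZ : ∀ j, Measurable (Z j) := fun j => measurable_pi_lambda _ fun p => meas_ev _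
  have mf : ∀ j, Measurable (f j) := by
    intro j
    refine Finset.measurable_sum _ fun i _ => Measurable.const_mul ?_ _
    refine Measurable.mul (meas_eE.comp ?_) (meas_eE.comp ?_) <;> fun_prop
  have i0 : IndepFun Z0 (fun ω j => Z j ω) gm := by
    have := h3.2.2.2.2.1 (J × I) (J × I) (fun p => h p.1 p.2) (fun p => g p.1 p.2)
      fun p p' => hhg _ _ _ _
    exact this.comp measurable_id
      (show Measurable fun (x : J × I → ℝ) (j : J) (i : I) => x (j, i) by fun_prop)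
  have i1 : iIndepFun Z gm := h3.2.2.2.2.2.1 J (fun _ => I) g hgg
  have key := (hC Om (J × I → ℝ) (I → ℝ) J gm Z0 Z f mZ0 mZ mf i0 i1).1
  have e1 : ∀ j ω, f j (Z0 ω, Z j ω) = ∑ i, a * ew γ (h j i + g j i) ω := by
    intro j ω
    refine Finset.sum_congr rfl fun i _ => ?_
    rw [ew_add γ _ _ (hhg _ _ _ _)]
  have e2 : ∀ j ω, ∫⁻ b, f j (Z0 ω, b) ∂gm.map (Z j) = ∑ i, a * ew γ (h j i) ω := by
    intro j ω
    have mm : Measurable fun b => f j (Z0 ω, b) := (mf j).comp measurable_prodMk_left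
    rw [lintegral_map mm (mZ j)]
    change ∫⁻ ω', ∑ i, a * (ew γ (h j i) ω * ew γ (g j i) ω') ∂gm = _
    rw [lintegral_finsetSum]
    · refine Finset.sum_congr rfl fun i _ => ?_
      rw [lintegral_const_mul _ ((meas_ew _ _).const_mul _), lintegral_const_mul _ (meas_ew _ _)]
      have := hD.2.2.2.2.2.1 γ (g j i)
      unfold ew at *
      rw [this, mul_one]
    · intro i _
      exact ((meas_ew _ _).const_mul _).const_mul _
  simp_rw [e1, e2] at key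
  refine key.trans ?_
  gcongr
  · exact le_max_left _ _
  · have := jensen hD (Finset.univ : Finset (J × I)) γ q B a hq
      (by simpa [Finset.card_univ] using hn) (fun p => h p.1 p.2) fun p _ => hB _ _
    simpa [Fintype.sum_prod_type] using this

end MBW

end

end Pool.Agent.Lib.APPS
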