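import Pool.Agent.Lib.APPS.Blue1

/-!
Block MG1, part a: pointwise estimates for a smooth metric on the sphere.
-/

namespace Pool.Agent.Lib.APPS

open MeasureTheory Filter Topology Set Metric
open scoped NNReal ENNReal RealInnerProductSpace

noncomputable section

namespace MG1

/-- truncated logarithm -/
def L (y : ℂ) (δ : ℝ) (x : ℂ) : ℝ := Real.log (max ‖x - y‖ δ)

lemma log_lip {a b δ : ℝ} (hδ : 0 < δ) (ha : δ ≤ a) (hb : δ ≤ b) :
    |Real.log a - Real.log b| ≤ δ⁻¹ * |a - b| := by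
  have key : ∀ s t : ℝ, δ ≤ s → δ ≤ t → Real.log s - Real.log t ≤ δ⁻¹ * |s - t| := by
    intro s t hs ht
    have hs0 : 0 < s := hδ.trans_le hs
    have ht0 : 0 < t := hδ.trans_le ht
    rw [← Real.log_div hs0.ne' ht0.ne']
    have h1 := Real.log_le_sub_one_of_pos (div_pos hs0 ht0)
    have h2 : s / t - 1 = t⁻¹ * (s - t) := by field_simp
    have h3 : t⁻¹ * (s - t) ≤ t⁻¹ * |s - t| :=
      mul_le_mul_of_nonneg_left (le_abs_self _) (inv_nonneg.2 ht0.le)
    have h4 : t⁻¹ * |s - t| ≤ δ⁻¹ * |s - t| :=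
      mul_le_mul_of_nonneg_right (inv_anti₀ hδ ht) (abs_nonneg _)
    linarith
  rw [abs_sub_le_iff]
  exact ⟨key a b ha hb, by rw [abs_sub_comm]; exact key b a hb ha⟩

lemma L_le (y : ℂ) {δ : ℝ} (hδ : 0 < δ) (x x' : ℂ) :
    |L y δ x - L y δ x'| ≤ δ⁻¹ * ‖x - x'‖ := by
  refine (log_lip hδ (le_max_right _ _) (le_max_right _ _)).trans ?_
  refine mul_le_mul_of_nonneg_left ?_ (inv_nonneg.2 hδ.le)
  refine (abs_max_sub_max_le_abs _ _ _).trans ?_
  have := abs_norm_sub_norm_le (x - y) (x' - y)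
  simpa using this

lemma L_lip (y : ℂ) {δ : ℝ} (hδ : 0 < δ) : ∃ K, LipschitzWith K (L y δ) :=
  ⟨Real.toNNReal δ⁻¹, LipschitzWith.of_dist_le' fun x x' => by
    rw [Real.dist_eq, dist_eq_norm]; exact L_le y hδ x x'⟩

lemma lip_comb {u v : ℂ → ℝ} (hu : ∃ K, LipschitzWith K u) (hv : ∃ K, LipschitzWith K v)
    (a b : ℝ) : ∃ K, LipschitzWith K (fun x => a * u x + b * v x) := by
  obtain ⟨K, hK⟩ := hu
  obtain ⟨K', hK'⟩ := hv
  refine ⟨Real.toNNReal (|a| * K + |b| * K'), LipschitzWith.of_dist_le' fun x x' => ?_⟩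
  have h1 := hK.dist_le_mul x x'
  have h2 := hK'.dist_le_mul x x'
  rw [Real.dist_eq] at *
  have e : a * u x + b * v x - (a * u x' + b * v x') = a * (u x - u x') + b * (v x - v x') := by
    ring
  rw [e]
  refine (abs_add_le _ _).trans ?_
  rw [abs_mul, abs_mul]
  have := mul_le_mul_of_nonneg_left h1 (abs_nonneg a)
  have := mul_le_mul_of_nonneg_left h2 (abs_nonneg b)
  nlinarith

lemma norm_inv_sub {z w : ℂ} (hz : z ≠ 0) (hw : w ≠ 0) :
    ‖z⁻¹ - w⁻¹‖ = ‖z - w‖ / (‖z‖ * ‖w‖) := by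
  rw [inv_sub_inv hz hw, norm_div, norm_mul, norm_sub_rev]

lemma int_pow (C : ℝ) {r : ℝ} (hr : 2 < r) :
    Integrable (fun z : ℂ => C * (1 + ‖z‖) ^ (-r)) :=
  (integrable_one_add_norm (E := ℂ) (by simpa using hr)).const_mul C

lemma int_nat (C : ℝ) {k : ℕ} (hk : 2 < k) :
    Integrable (fun z : ℂ => C / (1 + ‖z‖) ^ k) := by
  refine (int_pow C (r := k) (by exact_mod_cast hk)).congr (ae_of_all _ fun z => ?_)
  have : (0 : ℝ) ≤ 1 + ‖z‖ := by positivity
  simp only [Real.rpow_neg this, Real.rpow_natCast, div_eq_mul_inv]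

/-- a bound `C / ‖z‖ ^ k` far away and a uniform bound nearby combine -/
lemma glue {u : ℂ → ℝ} {R A B : ℝ} (k : ℕ) (hR : 1 ≤ R) (h1 : ∀ z, ‖z‖ ≤ R → u z ≤ A)
    (h2 : ∀ z, R < ‖z‖ → u z ≤ B / ‖z‖ ^ k) : ∃ C, ∀ z, u z ≤ C / (1 + ‖z‖) ^ k := by
  refine ⟨max (|A| * (1 + R) ^ k) (|B| * 2 ^ k), fun z => ?_⟩
  have hz : (0 : ℝ) < (1 + ‖z‖) ^ k := by positivity
  rw [le_div_iff₀ hz]
  rcases le_or_gt ‖z‖ R with h | h
  · refine le_trans ?_ (le_max_left _ _)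
    have : (1 + ‖z‖) ^ k ≤ (1 + R) ^ k := by gcongr
    calc u z * (1 + ‖z‖) ^ k ≤ |A| * (1 + ‖z‖) ^ k :=
          mul_le_mul_of_nonneg_right ((h1 z h).trans (le_abs_self _)) hz.le
      _ ≤ _ := mul_le_mul_of_nonneg_left this (abs_nonneg _)
  · refine le_trans ?_ (le_max_right _ _)
    have h0 : 0 < ‖z‖ := by linarith
    have h3 : (1 + ‖z‖) ^ k ≤ (2 * ‖z‖) ^ k := by gcongr; linarith
    have h4 : u z ≤ |B| / ‖z‖ ^ k :=
      (h2 z h).trans (div_le_div_of_nonneg_right (le_abs_self _) (by positivity))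
    calc u z * (1 + ‖z‖) ^ k ≤ |B| / ‖z‖ ^ k * (1 + ‖z‖) ^ k :=
          mul_le_mul_of_nonneg_right h4 hz.le
      _ ≤ |B| / ‖z‖ ^ k * (2 * ‖z‖) ^ k := mul_le_mul_of_nonneg_left h3 (by positivity)
      _ = _ := by rw [mul_pow]; field_simp

lemma norm_grad (f : ℂ → ℝ) (z : ℂ) : ‖gradient f z‖ = ‖fderiv ℝ f z‖ := by
  simp [gradient]

lemma good (hP1 : St_P1) {f F : ℂ → ℝ} (hf : ∃ K, LipschitzWith K f) (hF : ContDiffAt ℝ 1 F 0)
    {R : ℝ} (he : ∀ z, R < ‖z‖ → f z = F z⁻¹) :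
    LipE f ∧ ∃ C, ∀ x, |f x - F 0| ≤ C / (1 + ‖x‖) := by
  obtain ⟨K, hK⟩ := hf
  obtain ⟨K', t, ht, hK'⟩ := hF.exists_lipschitzOnWith
  obtain ⟨ε, hε, hb⟩ := Metric.mem_nhds_iff.1 ht
  set S : ℝ := max (max R 1) ε⁻¹ with hS
  have hS1 : 1 ≤ S := (le_max_right _ _).trans (le_max_left _ _)
  have hSR : R ≤ S := (le_max_left _ _).trans (le_max_left _ _)
  have hin : ∀ z : ℂ, S < ‖z‖ → z⁻¹ ∈ t := by
    intro z hz
    apply hb
    rw [mem_ball_zero_iff, norm_inv]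
    have h0 : 0 < ‖z‖ := by linarith
    exact inv_lt_of_inv_lt₀ hε ((le_max_right _ _).trans_lt hz)
  have h0t : (0 : ℂ) ∈ t := hb (mem_ball_self hε)
  constructor
  · refine ⟨⟨K, hK⟩, ?_⟩
    obtain ⟨C, hC⟩ := glue (u := fun z => ‖gradient f z‖) (R := S) (A := K) (B := 2 * K') 2 hS1
      (fun z _ => hP1.2.2.2.2.2.2.2.1 f K hK z) (fun z hz => by
        have h0 : 0 < ‖z‖ := by linarith
        rw [norm_grad]
        refine norm_fderiv_le_of_lip' ℝ (by positivity) ?_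
        have o1 : ∀ᶠ w in 𝓝 z, S < ‖w‖ := continuous_norm.continuousAt.eventually (lt_mem_nhds hz)
        have o2 : ∀ᶠ w in 𝓝 z, ‖z‖ / 2 < ‖w‖ :=
          continuous_norm.continuousAt.eventually (lt_mem_nhds (by linarith))
        filter_upwards [o1, o2] with w h1 h2
        have hw0 : 0 < ‖w‖ := by linarith
        rw [he w (hSR.trans_lt h1), he z (hSR.trans_lt hz)]
        have h3 := hK'.dist_le_mul _ (hin w h1) _ (hin z hz)
        rw [dist_eq_norm, dist_eq_norm, norm_inv_sub (norm_pos_iff.1 hw0) (norm_pos_iff.1 h0)] at h3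
        refine h3.trans ?_
        have h4 : ‖w - z‖ / (‖w‖ * ‖z‖) ≤ ‖w - z‖ / (‖z‖ / 2 * ‖z‖) := by gcongr
        calc (K' : ℝ) * (‖w - z‖ / (‖w‖ * ‖z‖)) ≤ K' * (‖w - z‖ / (‖z‖ / 2 * ‖z‖)) := by gcongr
          _ = _ := by field_simp)
    have hm : AEStronglyMeasurable (fun x => gradient f x) volume :=
      (hP1.2.2.2.2.2.2.1 f).aestronglyMeasurable
    rw [memLp_two_iff_integrable_sq_norm hm]
    refine (int_nat (C ^ 2) (k := 4) (by norm_num)).mono' (hm.norm.pow 2) (ae_of_all _ fun z => ?_)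
    have h1 := hC z
    have h2 : C ^ 2 / (1 + ‖z‖) ^ 4 = (C / (1 + ‖z‖) ^ 2) ^ 2 := by rw [div_pow]; ring
    rw [Real.norm_eq_abs, abs_of_nonneg (by positivity), h2]
    gcongr
  · obtain ⟨C, hC⟩ := glue (u := fun z => |f z - F 0|) (R := S) (A := K * S + |f 0 - F 0|)
      (B := K') 1 hS1 (fun z hz => by
        have h1 := hK.dist_le_mul z 0
        rw [Real.dist_eq, dist_zero_right] at h1
        have h2 : (K : ℝ) * ‖z‖ ≤ K * S := by gcongr
        have h3 := abs_sub_le (f z) (f 0) (F 0)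
        linarith) (fun z hz => by
        have h3 := hK'.dist_le_mul _ (hin z hz) _ h0t
        rw [Real.dist_eq, dist_zero_right, norm_inv] at h3
        rw [he z (hSR.trans_lt hz), pow_one, div_eq_mul_inv]
        exact h3)
    exact ⟨C, fun x => by simpa using hC x⟩

lemma sig_eq (g : Met) {z : ℂ} (hz : z ≠ 0) : g.σ z = g.τ z⁻¹ - 2 * Real.log ‖z‖ := by
  have := g.inf z⁻¹ (inv_ne_zero hz)
  rw [inv_inv, norm_inv, Real.log_inv] at this
  linarith

lemma sig_two (g : Met) : ContDiff ℝ 2 g.σ :=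
  g.hσ.of_le (WithTop.coe_le_coe.2 (le_top : (2 : ℕ∞) ≤ ⊤))

lemma tau_two (g : Met) : ContDiff ℝ 2 g.τ :=
  g.hτ.of_le (WithTop.coe_le_coe.2 (le_top : (2 : ℕ∞) ≤ ⊤))

lemma sig_lip (g : Met) : ∃ K, LipschitzWith K g.σ := by
  obtain ⟨K, hK⟩ := (sig_two g).contDiffOn.exists_lipschitzOnWith (s := closedBall 0 2)
    two_ne_zero (convex_closedBall _ _) (isCompact_closedBall _ _)
  obtain ⟨K', hK'⟩ := (tau_two g).contDiffOn.exists_lipschitzOnWith (s := closedBall 0 1)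
    two_ne_zero (convex_closedBall _ _) (isCompact_closedBall _ _)
  refine ⟨K + K' + 2, lipschitzWith_of_nnnorm_fderiv_le
    ((sig_two g).differentiable two_ne_zero) fun z => ?_⟩
  have : ‖fderiv ℝ g.σ z‖ ≤ K + K' + 2 := by
    rcases lt_or_ge ‖z‖ 2 with h | h
    · have := norm_fderiv_le_of_lipschitzOn ℝ
        (closedBall_mem_nhds_of_mem (mem_ball_zero_iff.2 h)) hK
      have h2 := K'.2
      linarith
    · refine norm_fderiv_le_of_lip' ℝ (by positivity) ?_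
      have o1 : ∀ᶠ w in 𝓝 z, 1 < ‖w‖ :=
        continuous_norm.continuousAt.eventually (lt_mem_nhds (by linarith))
      filter_upwards [o1] with w hw
      have hz0 : z ≠ 0 := norm_pos_iff.1 (by linarith)
      have hw0 : w ≠ 0 := norm_pos_iff.1 (by linarith)
      have m : ∀ v : ℂ, 1 ≤ ‖v‖ → v⁻¹ ∈ closedBall (0 : ℂ) 1 := fun v hv => by
        rw [mem_closedBall_zero_iff, norm_inv]; exact inv_le_one_of_one_le₀ hv
      have h3 := hK'.dist_le_mul _ (m w hw.le) _ (m z (by linarith))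
      rw [Real.dist_eq, dist_eq_norm, norm_inv_sub hw0 hz0] at h3
      have h4 : ‖w - z‖ / (‖w‖ * ‖z‖) ≤ ‖w - z‖ :=
        div_le_self (norm_nonneg _) (by nlinarith)
      have h5 := log_lip one_pos hw.le (show 1 ≤ ‖z‖ by linarith)
      have h6 := abs_norm_sub_norm_le w z
      rw [sig_eq g hw0, sig_eq g hz0, Real.norm_eq_abs]
      have e : g.τ w⁻¹ - 2 * Real.log ‖w‖ - (g.τ z⁻¹ - 2 * Real.log ‖z‖) =
          (g.τ w⁻¹ - g.τ z⁻¹) - 2 * (Real.log ‖w‖ - Real.log ‖z‖) := by ring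
      rw [e]
      refine (abs_sub _ _).trans ?_
      rw [abs_mul, abs_two]
      have h7 : (K' : ℝ) * (‖w - z‖ / (‖w‖ * ‖z‖)) ≤ K' * ‖w - z‖ := by gcongr
      have h8 : 0 ≤ (K : ℝ) * ‖w - z‖ := by positivity
      rw [inv_one, one_mul] at h5
      nlinarith
  exact_mod_cast this

lemma lap_le (u : ℂ → ℝ) (z : ℂ) : |Laplacian.laplacian u z| ≤ 2 * ‖iteratedFDeriv ℝ 2 u z‖ := by
  rw [InnerProductSpace.laplacian_eq_iteratedFDeriv_complexPlane]
  have h1 := (iteratedFDeriv ℝ 2 u z).le_opNorm ![1, 1]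
  have h2 := (iteratedFDeriv ℝ 2 u z).le_opNorm ![Complex.I, Complex.I]
  simp only [Fin.prod_univ_two, Matrix.cons_val_zero, Matrix.cons_val_one, norm_one,
    Complex.norm_I, mul_one, Real.norm_eq_abs] at h1 h2
  refine (abs_add_le _ _).trans ?_
  linarith

lemma lap_cont {u : ℂ → ℝ} (hu : ContDiff ℝ 2 u) : Continuous (Laplacian.laplacian u) := by
  rw [InnerProductSpace.laplacian_eq_iteratedFDeriv_complexPlane]
  have h := hu.continuous_iteratedFDeriv (m := 2) le_rfl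
  fun_prop

lemma inv_bound (i : ℕ) {z : ℂ} (hz : z ≠ 0) :
    ‖iteratedFDeriv ℝ i (fun w : ℂ => w⁻¹) z‖ = i.factorial / ‖z‖ ^ (i + 1) := by
  have h : ContDiffAt ℂ i (fun w : ℂ => w⁻¹) z := contDiffAt_inv ℂ hz
  rw [← h.restrictScalars_iteratedFDeriv (𝕜 := ℝ)]
  simp only [Function.comp_apply, ContinuousMultilinearMap.norm_restrictScalars]
  rw [norm_iteratedFDeriv_eq_norm_iteratedDeriv, iteratedDeriv_eq_iterate]
  have := iter_deriv_inv i z
  rw [show (fun w : ℂ => w⁻¹) = Inv.inv from rfl, this]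
  have e : (-1 - i : ℤ) = -((i + 1 : ℕ) : ℤ) := by push_cast; ring
  rw [e, zpow_neg, zpow_natCast]
  simp [div_eq_mul_inv]

lemma lap_far (g : Met) : ∃ B, ∀ z : ℂ, 1 < ‖z‖ → |Laplacian.laplacian g.σ z| ≤ B / ‖z‖ ^ 3 := by
  have hb : ∀ i : ℕ, i ≤ 2 → ∃ C, ∀ w ∈ closedBall (0 : ℂ) 1, ‖iteratedFDeriv ℝ i g.τ w‖ ≤ C :=
    fun i hi => (isCompact_closedBall _ _).exists_bound_of_continuousOn
      ((tau_two g).continuous_iteratedFDeriv (by exact_mod_cast hi)).continuousOn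
  obtain ⟨C0, h0⟩ := hb 0 (by norm_num)
  obtain ⟨C1, h1⟩ := hb 1 (by norm_num)
  obtain ⟨C2, h2⟩ := hb 2 le_rfl
  set C := max C0 (max C1 C2) with hC
  refine ⟨8 * C, fun z hz => ?_⟩
  have hn : 0 < ‖z‖ := by linarith
  have hz0 : z ≠ 0 := norm_pos_iff.1 hn
  have hcomp : ContDiffAt ℝ 2 (g.τ ∘ fun w : ℂ => w⁻¹) z :=
    (tau_two g).contDiffAt.comp z ((contDiffAt_inv ℂ hz0).restrict_scalars ℝ)
  have hh : InnerProductSpace.HarmonicAt (fun w : ℂ => Real.log ‖w‖) z :=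
    AnalyticAt.harmonicAt_log_norm (f := fun w => w) analyticAt_id hz0
  have e1 : g.σ =ᶠ[𝓝 z] (g.τ ∘ fun w : ℂ => w⁻¹) - (2 : ℝ) • fun w : ℂ => Real.log ‖w‖ := by
    filter_upwards [isOpen_ne.mem_nhds hz0] with w hw
    simp [sig_eq g hw]
  have e2 : Laplacian.laplacian g.σ z = Laplacian.laplacian (g.τ ∘ fun w : ℂ => w⁻¹) z := by
    rw [(InnerProductSpace.laplacian_congr_nhds e1).eq_of_nhds,
      hcomp.laplacian_sub (hh.const_smul (c := (2 : ℝ))).1, InnerProductSpace.laplacian_smul _ hh.1,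
      hh.2.eq_of_nhds]
    simp
  have hm : z⁻¹ ∈ closedBall (0 : ℂ) 1 := by
    rw [mem_closedBall_zero_iff, norm_inv]; exact inv_le_one_of_one_le₀ hz.le
  have ho : IsOpen ({0}ᶜ : Set ℂ) := isOpen_compl_singleton
  have key := norm_iteratedFDerivWithin_comp_le (𝕜 := ℝ) (g := g.τ) (f := fun w : ℂ => w⁻¹)
    (n := 2) (s := {0}ᶜ) (t := univ) (x := z) (N := 2) (tau_two g).contDiffOn
    (fun w hw => ((contDiffAt_inv ℂ hw).restrict_scalars ℝ).contDiffWithinAt) le_rfl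
    uniqueDiffOn_univ ho.uniqueDiffOn (mapsTo_univ _ _) hz0 (C := C)
    (D := Real.sqrt (2 / ‖z‖ ^ 3)) (fun i hi => by
      rw [iteratedFDerivWithin_univ]
      interval_cases i
      · exact (h0 _ hm).trans (le_max_left _ _)
      · exact (h1 _ hm).trans ((le_max_left _ _).trans (le_max_right _ _))
      · exact (h2 _ hm).trans ((le_max_right _ _).trans (le_max_right _ _))) (fun i hi hi' => by
      rw [iteratedFDerivWithin_of_isOpen i ho hz0, inv_bound i hz0]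
      interval_cases i
      · rw [pow_one]
        apply Real.le_sqrt_of_sq_le
        rw [div_pow, div_le_div_iff₀ (by positivity) (by positivity)]
        have : ‖z‖ ^ 3 ≤ ‖z‖ ^ 4 := pow_le_pow_right₀ hz.le (by norm_num)
        have : 0 ≤ ‖z‖ ^ 4 := by positivity
        simp only [Nat.factorial, Nat.succ_eq_add_one]
        norm_num
        nlinarith
      · rw [Real.sq_sqrt (by positivity)]
        simp)
  rw [iteratedFDerivWithin_of_isOpen 2 ho hz0, Real.sq_sqrt (by positivity)] at key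
  rw [e2]
  refine (lap_le _ z).trans ?_
  calc _ ≤ 2 * ((Nat.factorial 2 : ℝ) * C * (2 / ‖z‖ ^ 3)) := by gcongr
    _ = _ := by simp only [Nat.factorial_two]; push_cast; ring

lemma lap_bound (g : Met) : ∃ C, ∀ z : ℂ, |Laplacian.laplacian g.σ z| ≤ C / (1 + ‖z‖) ^ 3 := by
  obtain ⟨B, hB⟩ := lap_far g
  obtain ⟨A, hA⟩ := (isCompact_closedBall (0 : ℂ) 1).exists_bound_of_continuousOn
    (lap_cont (sig_two g)).continuousOn
  exact glue 3 le_rfl (fun z hz => hA z (mem_closedBall_zero_iff.2 hz)) hB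

lemma lap_int (g : Met) : Integrable (Laplacian.laplacian g.σ) := by
  obtain ⟨C, hC⟩ := lap_bound g
  exact (int_nat C (k := 3) (by norm_num)).mono' (lap_cont (sig_two g)).aestronglyMeasurable
    (ae_of_all _ hC)

lemma good_f (hP1 : St_P1) (g : Met) {R : ℝ} (hR : 0 < R) :
    LipE (fun x => (-1 / 2) * g.σ x + (-1) * L 0 R x) ∧
      ∃ C, ∀ x, |(-1 / 2) * g.σ x + (-1) * L 0 R x - -g.τ 0 / 2| ≤ C / (1 + ‖x‖) := by
  refine good hP1 (F := fun w => -g.τ w / 2) (lip_comb (sig_lip g) (L_lip 0 hR) _ _)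
    ?_ (R := R) fun z hz => ?_
  · have := ((tau_two g).of_le (show (1 : WithTop ℕ∞) ≤ 2 by norm_num)).contDiffAt (x := 0)
    exact this.neg.div_const 2
  · have hz0 : z ≠ 0 := norm_pos_iff.1 (by linarith)
    simp only [L, sub_zero, max_eq_left hz.le, sig_eq g hz0]
    ring

lemma good_h (hP1 : St_P1) (x x' : ℂ) {δ δ' : ℝ} (hδ : 0 < δ) (hδ' : 0 < δ') :
    LipE (fun z => 1 * L x δ z + (-1) * L x' δ' z) ∧
      ∃ C, ∀ z, |1 * L x δ z + (-1) * L x' δ' z - 0| ≤ C / (1 + ‖z‖) := by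
  have cd : ∀ y : ℂ, ContDiffAt ℝ 1 (fun w : ℂ => Real.log ‖1 - y * w‖) 0 := fun y =>
    (AnalyticAt.harmonicAt_log_norm (f := fun w => 1 - y * w) (by fun_prop) (by simp)).1.of_le
      (by norm_num)
  have far : ∀ (y z : ℂ) (d : ℝ), 0 < d → ‖y‖ + d < ‖z‖ →
      L y d z = Real.log ‖1 - y * z⁻¹‖ + Real.log ‖z‖ := by
    intro y z d hd hz
    have h1 : d ≤ ‖z - y‖ := by have := norm_sub_norm_le z y; linarith
    have hz0 : z ≠ 0 := norm_pos_iff.1 (by have := norm_nonneg y; linarith)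
    have h2 : z - y = (1 - y * z⁻¹) * z := by field_simp
    have h3 : ‖z - y‖ ≠ 0 := by linarith
    rw [L, max_eq_left h1]
    rw [h2, norm_mul] at h3 ⊢
    exact Real.log_mul (left_ne_zero_of_mul h3) (right_ne_zero_of_mul h3)
  have := good hP1 (F := fun w => Real.log ‖1 - x * w‖ - Real.log ‖1 - x' * w‖)
    (lip_comb (L_lip x hδ) (L_lip x' hδ') 1 (-1)) ((cd x).sub (cd x'))
    (R := ‖x‖ + δ + ‖x'‖ + δ') fun z hz => by
      have := norm_nonneg x
      have := norm_nonneg x'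
      rw [far x z δ hδ (by linarith), far x' z δ' hδ' (by linarith)]
      ring
  simpa using this

end MG1

end

end Pool.Agent.Lib.APPS
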