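import Pool.Agent.Lib.APPS.Defs2
import Pool.Agent.Lib.APPS.B_P1
import Pool.Agent.Lib.APPS.B_GR
import Pool.Agent.Lib.APPS.B_MG3
import Pool.Agent.Lib.APPS.B_KR

/-! The kriging formula is the solution of the minimal-energy problem. -/

namespace Pool.Agent.Lib.APPS

open MeasureTheory ProbabilityTheory Filter Topology Set Metric
open scoped NNReal ENNReal RealInnerProductSpace Classical

noncomputable section

namespace MIN

theorem FinE.lipE {f : ℂ → ℝ} (h : FinE f) : LipE f := ⟨h.1, h.2.2⟩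

theorem energy_eq (hP : St_P1) {f : ℂ → ℝ} (h : LipE f) :
    dirE f = 2 * Real.pi * ‖gr f‖ ^ 2 := by
  have h1 := (hP.2.2.2.2.1 f f h h).2
  simp only [real_inner_self_eq_norm_sq] at h1
  have := Real.pi_pos
  rw [h1, dirE]
  field_simp

theorem cut_lipC {f : ℂ → ℝ} (hf : FinE f) (n : ℕ) : LipC fun x => f x * P1.chi n x := by
  obtain ⟨⟨K, hK⟩, ⟨B, hB⟩, -⟩ := hf
  have hχ : ∀ x, |P1.chi n x| ≤ 1 := fun x => by
    rw [abs_of_nonneg (P1.chi_nonneg n x)]; exact P1.chi_le n x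
  refine ⟨⟨_, P1.lip_mul hK (P1.chi_lip n) hB hχ⟩,
    HasCompactSupport.intro (isCompact_closedBall (0 : ℂ) (2 * (n + 1))) fun x hx => ?_⟩
  rw [mem_closedBall_zero_iff, not_le] at hx
  simp only [P1.chi_zero hx.le, mul_zero]

theorem cut_bdd (hP : St_P1) {f : ℂ → ℝ} (hf : FinE f) :
    ∃ C : ℝ, ∀ n : ℕ, ‖gr fun x => f x * P1.chi n x‖ ≤ C := by
  obtain ⟨K, hK⟩ := hf.1
  obtain ⟨B, hB⟩ := hf.2.1
  have hE : Integrable fun x => ‖gradient f x‖ ^ 2 := by
    simpa only [real_inner_self_eq_norm_sq] using (hP.2.2.2.2.1 f f (FinE.lipE hf) (FinE.lipE hf)).1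
  refine ⟨Real.sqrt ((2 * dirE f + 2 * B ^ 2 * (4 * Real.pi)) / (2 * Real.pi)), fun n => ?_⟩
  have hpi := Real.pi_pos
  refine Real.le_sqrt_of_sq_le ?_
  have hL := hP.1 _ (cut_lipC hf n)
  rw [le_div_iff₀ (by positivity), mul_comm, ← energy_eq hP hL]
  set D : Set ℂ := closedBall 0 (2 * ((n : ℝ) + 1)) with hD
  have hI : Integrable (D.indicator fun _ : ℂ => 2 * B ^ 2 * (((n : ℝ) + 1)⁻¹) ^ 2) :=
    (integrable_indicator_iff measurableSet_closedBall).2
      (integrableOn_const measure_closedBall_lt_top.ne)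
  have hb : ∀ᵐ x : ℂ, ‖gradient (fun x => f x * P1.chi n x) x‖ ^ 2 ≤ 2 * ‖gradient f x‖ ^ 2 +
      D.indicator (fun _ : ℂ => 2 * B ^ 2 * (((n : ℝ) + 1)⁻¹) ^ 2) x := by
    filter_upwards [hK.ae_differentiableAt, (P1.chi_lip n).ae_differentiableAt] with x h1 h2
    have h3 := (h1.hasFDerivAt.mul h2.hasFDerivAt).fderiv
    have h4 : ‖gradient (fun x => f x * P1.chi n x) x‖ ≤
        B * ‖gradient (P1.chi n) x‖ + ‖gradient f x‖ := by
      rw [P1.norm_grad, P1.norm_grad, P1.norm_grad]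
      refine (congrArg norm h3).trans_le ((norm_add_le _ _).trans (add_le_add ?_ ?_))
      · rw [norm_smul]
        exact mul_le_mul_of_nonneg_right (hB x) (norm_nonneg _)
      · rw [norm_smul, Real.norm_of_nonneg (P1.chi_nonneg n x)]
        exact mul_le_of_le_one_left (norm_nonneg _) (P1.chi_le n x)
    have h5 := pow_le_pow_left₀ (norm_nonneg _) h4 2
    by_cases hx : x ∈ D
    · rw [indicator_of_mem hx]
      have h6 := P1.bound _ _ (P1.chi_lip n) x
      push_cast at h6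
      have h7 := pow_le_pow_left₀ (norm_nonneg _) h6 2
      have h8 := mul_le_mul_of_nonneg_left h7 (sq_nonneg B)
      nlinarith [sq_nonneg (B * ‖gradient (P1.chi n) x‖ - ‖gradient f x‖)]
    · rw [indicator_of_notMem hx]
      rw [hD, mem_closedBall_zero_iff, not_le] at hx
      have : P1.chi n =ᶠ[𝓝 x] fun _ => 0 := by
        filter_upwards [(isOpen_lt continuous_const continuous_norm).mem_nhds hx] with y hy
        exact P1.chi_zero (le_of_lt hy)
      rw [P1.grad_loc this, norm_zero, mul_zero, zero_add] at h5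
      nlinarith [sq_nonneg ‖gradient f x‖]
  refine (integral_mono_of_nonneg (ae_of_all _ fun x => sq_nonneg _) ((hE.const_mul 2).add hI)
    hb).trans (le_of_eq ?_)
  rw [integral_add' (hE.const_mul 2) hI, integral_const_mul, integral_indicator_const _
    measurableSet_closedBall, measureReal_def, Complex.volume_closedBall]
  have hn : (0 : ℝ) < (n : ℝ) + 1 := by positivity
  simp only [dirE, ENNReal.toReal_mul, ENNReal.toReal_pow, ENNReal.coe_toReal, NNReal.coe_real_pi,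
    ENNReal.toReal_ofReal (by positivity : (0 : ℝ) ≤ 2 * ((n : ℝ) + 1)), smul_eq_mul]
  field_simp
  ring

theorem cut_weak (hP : St_P1) {f : ℂ → ℝ} (hf : FinE f) {v : HH}
    (hv : v ∈ closure (gr '' {φ | LipC φ})) :
    Tendsto (fun n : ℕ => ⟪v, gr fun x => f x * P1.chi n x⟫) atTop (𝓝 ⟪v, gr f⟫) := by
  obtain ⟨C, hC⟩ := cut_bdd hP hf
  have hC0 : 0 ≤ C := (norm_nonneg _).trans (hC 0)
  rw [Metric.tendsto_atTop]
  intro ε hε
  obtain ⟨_, ⟨ψ, hψ, rfl⟩, hd⟩ := Metric.mem_closure_iff.1 hv (ε / (C + ‖gr f‖ + 1)) (by positivity)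
  obtain ⟨R, hR⟩ := hψ.2.isCompact.isBounded.subset_closedBall (0 : ℂ)
  obtain ⟨N, hN⟩ := exists_nat_gt R
  refine ⟨N, fun n hn => ?_⟩
  have hL := hP.1 _ (cut_lipC hf n)
  have h1 := hP.2.2.1 (-1) f (FinE.lipE hf)
  have h2 := hP.2.1 _ _ hL h1.1
  have h3 := hP.2.2.2.2.2.1 _ ψ h2.1 (hP.1 ψ hψ) fun x hx => ⟨0, by
    have hx' : ‖x‖ < (n : ℝ) + 1 := by
      have h4 := mem_closedBall_zero_iff.1 (hR hx)
      have : (N : ℝ) ≤ n := by exact_mod_cast hn
      linarith
    filter_upwards [(isOpen_lt continuous_norm continuous_const).mem_nhds hx'] with y hy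
    simp [P1.chi_one (le_of_lt hy)]⟩
  rw [h2.2, h1.2, neg_one_smul, ← sub_eq_add_neg, real_inner_comm] at h3
  rw [Real.dist_eq, ← inner_sub_right, ← sub_zero ⟪v, _⟫, ← h3, ← inner_sub_left]
  refine (abs_real_inner_le_norm _ _).trans_lt ?_
  rw [dist_eq_norm, lt_div_iff₀ (by positivity)] at hd
  refine lt_of_le_of_lt (mul_le_mul_of_nonneg_left ?_ (norm_nonneg _)) hd
  linarith [norm_sub_le (gr fun x => f x * P1.chi n x) (gr f), hC n]

theorem extend (hP : St_P1) {v : HH} (hv : v ∈ closure (gr '' {φ | LipC φ})) {ρ : ℂ → ℝ}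
    (hρ : Integrable ρ) (h : ∀ φ, LipC φ → ⟪v, gr φ⟫ = ∫ z, φ z * ρ z) {f : ℂ → ℝ} (hf : FinE f) :
    ⟪v, gr f⟫ = ∫ z, f z * ρ z := by
  refine tendsto_nhds_unique (cut_weak hP hf hv) ?_
  simp only [fun n => h _ (cut_lipC hf n)]
  obtain ⟨B, hB⟩ := hf.2.1
  refine tendsto_integral_of_dominated_convergence (fun x => B * |ρ x|) (fun n => ?_)
    (hρ.abs.const_mul B) (fun n => ae_of_all _ fun x => ?_) (ae_of_all _ fun x => ?_)
  · obtain ⟨K, hK⟩ := (cut_lipC hf n).1
    exact hK.continuous.aestronglyMeasurable.mul hρ.aestronglyMeasurable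
  · rw [norm_mul, norm_mul, Real.norm_of_nonneg (P1.chi_nonneg n x), Real.norm_eq_abs,
      Real.norm_eq_abs]
    exact mul_le_mul_of_nonneg_right
      ((mul_le_of_le_one_right (abs_nonneg _) (P1.chi_le n x)).trans (hB x)) (abs_nonneg _)
  · refine tendsto_const_nhds.congr' ?_
    filter_upwards [tendsto_natCast_atTop_atTop.eventually_ge_atTop ‖x‖] with n hn
    rw [P1.chi_one (hn.trans (le_add_of_nonneg_right zero_le_one)), mul_one]

/-- a Lipschitz function with vanishing gradient is constant -/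
theorem const_of (hPO : St_POIN) (hG : St_GEO1) {F : ℂ → ℝ} {K : ℝ≥0} (hK : LipschitzWith K F)
    (h0 : ∀ᵐ x : ℂ, gradient F x = 0) (x : ℂ) : F x = F 0 := by
  obtain ⟨C, hC⟩ := hPO
  set R : ℝ := 4 * ‖x‖ + 1 with hR
  have hR0 : 0 < R := by positivity
  set φ : ℂ → ℝ := fun y => F (R • (y - ctr [])) with hφ
  have hl : LipschitzWith (K * ‖R‖₊) φ := by
    refine LipschitzWith.of_dist_le_mul fun a b => (hK.dist_le_mul _ _).trans_eq ?_
    rw [dist_smul₀, dist_sub_right]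
    push_cast
    ring
  have hg : ∀ᵐ y : ℂ, gradient φ y = 0 := by
    have q1 := (Measure.quasiMeasurePreserving_smul (volume : Measure ℂ) hR0.ne').ae h0
    have q2 := (measurePreserving_sub_right (volume : Measure ℂ) (ctr [])).quasiMeasurePreserving.ae q1
    filter_upwards [q2] with y hy
    have e : fderiv ℝ φ y = R • fderiv ℝ F (R • (y - ctr [])) := by
      rw [← fderiv_comp_smul, ← fderiv_comp_sub]
    have hy' : fderiv ℝ F (R • (y - ctr [])) = 0 := by
      rw [← norm_eq_zero, ← P1.norm_grad, hy, norm_zero]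
    rw [← norm_eq_zero, P1.norm_grad, e, hy', smul_zero, norm_zero]
  have h1 := (hC [] φ _ hl).2
  rw [integral_congr_ae (f := fun x => ‖gradient φ x‖) (g := fun _ => (0 : ℝ))
    (ae_restrict_of_ae (hg.mono fun y hy => by simp [hy])), integral_zero, mul_zero] at h1
  set c := ∫ y, φ y ∂unif []
  have hc : Continuous fun y => |φ y - c| := (hl.continuous.sub continuous_const).abs
  have h2 := (setIntegral_eq_zero_iff_of_nonneg_ae (ae_of_all _ fun y => abs_nonneg _)
    (hc.continuousOn.integrableOn_compact (hG.2.2.2.1 []).1)).1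
    (le_antisymm h1 (integral_nonneg fun y => abs_nonneg _))
  have hsub : ball (ctr []) (1 / 2) ⊆ box [] := by
    have := (hG.2.2.2.1 []).2.2.2.2
    simp only [side, List.length_nil, pow_zero] at this
    exact ball_subset_closedBall.trans this
  have h3 := Measure.eqOn_open_of_ae_eq (ae_restrict_of_ae_restrict_of_subset hsub h2) isOpen_ball
    hc.continuousOn continuousOn_const
  have h4 : ∀ y ∈ ball (ctr []) (1 / 2), φ y = c := fun y hy => by
    simpa [sub_eq_zero] using h3 hy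
  have e1 := h4 (ctr []) (mem_ball_self (by norm_num))
  have e2 := h4 (ctr [] + R⁻¹ • x) (by
    rw [mem_ball_iff_norm, add_sub_cancel_left, norm_smul, Real.norm_of_nonneg (by positivity),
      inv_mul_lt_iff₀ hR0]
    linarith [norm_nonneg x])
  simp only [hφ, add_sub_cancel_left, smul_inv_smul₀ hR0.ne', sub_self, smul_zero] at e1 e2
  rw [e1, e2]

def rS (S : Dy) : ℂ → ℝ := (box S).indicator fun _ => 1 / side S ^ 2
def rD : ℂ → ℝ := (closedBall (0 : ℂ) 1).indicator fun _ => 1 / Real.pi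

theorem rho_ind {A : Set ℂ} (hA : IsCompact A) {c : ℝ} :
    ∃ R, ∀ R' ≥ R, GR.Rho (A.indicator fun _ => c) |c| R' := by
  obtain ⟨R, hR⟩ := hA.isBounded.subset_closedBall (0 : ℂ)
  refine ⟨max R 1, fun R' h => ⟨measurable_const.indicator hA.measurableSet, fun x => ?_,
    one_pos.trans_le ((le_max_right _ _).trans h), fun x hx => indicator_of_notMem (fun h' => ?_) _⟩⟩
  · by_cases hx : x ∈ A <;> simp [hx]
  · exact absurd (mem_closedBall_zero_iff.1 (hR h')) (not_le.2 (((le_max_left _ _).trans h).trans_lt hx))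

theorem int_rS (hG : St_GEO1) (S : Dy) (f : ℂ → ℝ) : ∫ z, f z * rS S z = ∫ z, f z ∂unif S := by
  have hs := (hG.1 S).1
  rw [unif, integral_smul_measure, ENNReal.toReal_ofReal (by positivity),
    ← integral_indicator (hG.2.2.2.1 S).1.measurableSet, ← integral_smul]
  refine integral_congr_ae (ae_of_all _ fun z => ?_)
  by_cases hz : z ∈ box S <;> simp [rS, hz, mul_comm]

theorem int_rD (f : ℂ → ℝ) : ∫ z, f z * rD z = ∫ z, f z ∂disc 0 1 := by
  have hs := Real.pi_pos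
  rw [disc, integral_smul_measure, ENNReal.toReal_inv, ENNReal.toReal_ofReal (by positivity),
    ← integral_indicator measurableSet_closedBall, ← integral_smul]
  refine integral_congr_ae (ae_of_all _ fun z => ?_)
  by_cases hz : z ∈ closedBall (0 : ℂ) 1 <;> simp [rD, hz, mul_comm]

/-- the potential of a square, corrected at infinity -/
theorem pot_LL (hP : St_P1) (hP2 : St_P2) (hF : St_FE) (hE : St_EXP1) (hG : St_GEO1) (S : Dy) :
    LipE (potS S + MG3.LL) ∧ (∃ B, ∀ z, |(potS S + MG3.LL) z| ≤ B) ∧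
    gr (potS S + MG3.LL) ∈ closure (gr '' {φ | LipC φ}) ∧
    ∀ φ, LipC φ → ⟪gr (potS S + MG3.LL), gr φ⟫ = ∫ z, φ z ∂unif S - ∫ z, φ z ∂circ 0 1 := by
  obtain ⟨R1, h1⟩ := rho_ind (hG.2.2.2.1 S).1 (c := 1 / side S ^ 2)
  obtain ⟨R2, h2⟩ := rho_ind (isCompact_closedBall (0 : ℂ) 1) (c := 1 / Real.pi)
  have r1 : GR.Rho (rS S) _ _ := h1 _ (le_max_left R1 R2)
  have r2 : GR.Rho rD _ _ := h2 _ (le_max_right R1 R2)
  have r3 : GR.Rho (fun z => rS S z - rD z) (|1 / side S ^ 2| + |1 / Real.pi|) (max R1 R2) :=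
    ⟨r1.meas.sub r2.meas, fun x => (abs_sub _ _).trans (add_le_add (r1.bd x) (r2.bd x)), r1.pos,
      fun x hx => by rw [r1.supp x hx, r2.supp x hx, sub_self]⟩
  have p1 := (hF.2.2.2.2.2.2.2.1 S).1.2
  have p2 := (hF.2.2.2.2.2.2.2.2.1 0 1 one_pos).2.2.1.2
  have h0 : ∫ z, (rS S z - rD z) = 0 := by
    have a1 := int_rS hG S fun _ => 1
    have a2 := int_rD fun _ => 1
    simp only [one_mul, integral_const, probReal_univ, smul_eq_mul] at a1 a2
    rw [integral_sub r1.int r2.int, a1, a2, sub_self]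
  have e1 : GR.fP (rS S) = potS S := funext fun z => int_rS hG S _
  have hLL : LipschitzWith (1⁻¹ : ℝ).toNNReal MG3.LL := GR.Ld_lipW one_pos
  obtain ⟨K1, hK1⟩ := r1.fP_lip hE
  obtain ⟨K2, hK2⟩ := r2.fP_lip hE
  have hw : LipC (GR.fP rD + MG3.LL) := by
    refine ⟨⟨_, hK2.add hLL⟩, HasCompactSupport.intro (isCompact_closedBall (0 : ℂ) 1) fun x hx => ?_⟩
    rw [mem_closedBall_zero_iff, not_le] at hx
    have := (hE.2.2.2.1 x 0 1 one_pos).2
    rw [sub_zero, if_pos hx.le, ← int_rD] at this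
    simp only [Pi.add_apply, GR.fP, this, MG3.LL, max_eq_left hx.le, neg_add_cancel]
  have e2 : potS S + MG3.LL = GR.fP (fun z => rS S z - rD z) + (GR.fP rD + MG3.LL) := by
    funext z
    have a1 : Integrable fun y => -(Real.log ‖z - y‖ * rS S y) := (r1.logint hE z).neg
    have a2 : Integrable fun y => -(Real.log ‖z - y‖ * rD y) := (r2.logint hE z).neg
    simp only [← e1, Pi.add_apply, GR.fP, mul_sub, neg_mul]
    rw [integral_sub a1 a2]
    ring
  have hL := r3.lipE hP hE h0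
  obtain ⟨C, hC⟩ := r3.decay hE h0
  have hs := hP.2.1 _ _ hL (hP.1 _ hw)
  rw [← e2] at hs
  refine ⟨hs.1, ?_, ?_, fun φ hφ => ?_⟩
  · obtain ⟨K, hK⟩ := hw.1
    obtain ⟨B, hB⟩ := hK.continuous.bounded_above_of_compact_support hw.2
    refine ⟨|C| + B, fun z => ?_⟩
    rw [e2]
    refine (abs_add_le _ _).trans (add_le_add ((hC z).trans ?_) (hB z))
    exact (div_le_div_of_nonneg_right (le_abs_self C) (by positivity)).trans
      (div_le_self (abs_nonneg _) (by linarith [norm_nonneg z]))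
  · obtain ⟨W, hW⟩ := hP.2.2.2.2.2.2.2.2.2.1
    obtain ⟨φ, hφ, -, -, ht⟩ := hP.2.2.2.2.2.2.2.2.1 _ 0 C hL (by simpa using hC)
    rw [hs.2, ← hW]
    refine W.add_mem ?_ ?_ <;> rw [← SetLike.mem_coe, hW]
    · exact mem_closure_of_tendsto ht (Eventually.of_forall fun n => ⟨φ n, hφ n, rfl⟩)
    · exact subset_closure ⟨_, hw, rfl⟩
  · have hi : ∀ {u : ℂ → ℝ} {K : ℝ≥0}, LipschitzWith K u →
        Integrable fun x => ⟪gradient u x, gradient φ x⟫ := fun {u K} hu =>
      ((GR.grad_int hP hφ).norm.const_mul K).mono'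
        ((P1.meas u).inner (P1.meas φ)).aestronglyMeasurable (ae_of_all _ fun x =>
          (norm_inner_le_norm _ _).trans
            (mul_le_mul_of_nonneg_right (P1.bound u K hu x) (norm_nonneg _)))
    have a1 := r1.pair hP hP2 hF hE hφ
    have a2 := hP2.1 0 1 φ one_pos hφ
    simp only [sub_zero] at a2
    change ∫ x, ⟪gradient MG3.LL x, gradient φ x⟫ = _ at a2
    have a3 : ∀ᵐ x : ℂ, ⟪gradient (potS S + MG3.LL) x, gradient φ x⟫ =
        ⟪gradient (GR.fP (rS S)) x, gradient φ x⟫ + ⟪gradient MG3.LL x, gradient φ x⟫ := by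
      filter_upwards [hK1.ae_differentiableAt, hLL.ae_differentiableAt] with x d1 d2
      rw [GR.inner_grad, GR.inner_grad, GR.inner_grad, ← e1, fderiv_add d1 d2]
      rfl
    rw [(hP.2.2.2.2.1 _ _ hs.1 (hP.1 φ hφ)).2, integral_congr_ae a3, integral_add (hi hK1) (hi hLL),
      a1, a2, int_rS hG]
    have := Real.pi_pos
    field_simp
    ring

theorem int_dens (h1 : St_MG1) (hG : St_GEO1) (g : Met) (S : Dy) : Integrable (g.dens S) := by
  obtain ⟨R, hR⟩ := rho_ind (hG.2.2.2.1 S).1 (c := 1 / side S ^ 2)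
  exact (hR R le_rfl).int.sub (h1 g).1

theorem int_fin {f ρ : ℂ → ℝ} (hf : FinE f) (hρ : Integrable ρ) : Integrable fun z => f z * ρ z := by
  obtain ⟨⟨K, hK⟩, ⟨B, hB⟩, -⟩ := hf
  exact hρ.bdd_mul hK.continuous.aestronglyMeasurable (ae_of_all _ hB)

theorem pair_dens (h1 : St_MG1) (hG : St_GEO1) (g : Met) (S : Dy) {f : ℂ → ℝ} (hf : FinE f) :
    ∫ z, f z * g.dens S z = ∫ z, f z ∂unif S - ∫ z, f z * g.kap z := by
  obtain ⟨R, hR⟩ := rho_ind (hG.2.2.2.1 S).1 (c := 1 / side S ^ 2)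
  rw [← int_rS hG, ← integral_sub (int_fin (ρ := rS S) hf (hR R le_rfl).int) (int_fin hf (h1 g).1)]
  simp only [Met.dens, mul_sub, rS]

theorem finE_of_lipC (hP : St_P1) {φ : ℂ → ℝ} (h : LipC φ) : FinE φ := by
  obtain ⟨K, hK⟩ := h.1
  exact ⟨h.1, hK.continuous.bounded_above_of_compact_support h.2, (hP.1 φ h).2⟩

/-- the normalised Green potential represents the pairing with `dens S` -/
theorem U_rep (hP : St_P1) (hP2 : St_P2) (hF : St_FE) (hE : St_EXP1) (hG : St_GEO1)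
    (h1 : St_MG1) (h2 : St_MG2) (g : Met) (S : Dy) :
    FinE (g.U S) ∧ ∀ f, FinE f → ⟪gr (g.U S), gr f⟫ = ∫ z, f z * g.dens S z := by
  obtain ⟨a1, ⟨B, a2⟩, a3, a4⟩ := pot_LL hP hP2 hF hE hG S
  obtain ⟨-, -, -, -, -, -, hf, C, hC⟩ := h1 g
  change LipE (MG3.ff g) at hf
  have e : g.U S = fun z => ((potS S + MG3.LL) + MG3.ff g) z + g.C0 := by
    funext z
    simp only [(h2 g).2 S z, Pi.add_apply, MG3.ff, MG3.LL]
    ring
  have b1 := hP.2.1 _ _ a1 hf
  have b2 := hP.2.2.2.1 g.C0 _ b1.1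
  rw [← e, b1.2] at b2
  refine ⟨⟨b2.1.1, ⟨B + (|C| + |-g.τ 0 / 2|) + |g.C0|, fun z => ?_⟩, b2.1.2⟩, fun f hf' => ?_⟩
  · have c1 : |MG3.ff g z - -g.τ 0 / 2| ≤ |C| := (hC z).trans
      ((div_le_div_of_nonneg_right (le_abs_self C) (by positivity)).trans
        (div_le_self (abs_nonneg _) (by linarith [norm_nonneg z])))
    have c2 := abs_sub_abs_le_abs_sub (MG3.ff g z) (-g.τ 0 / 2)
    rw [e]
    exact (abs_add_le _ _).trans (add_le_add ((abs_add_le _ _).trans
      (add_le_add (a2 z) (by linarith))) le_rfl)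
  · refine extend hP ?_ (int_dens h1 hG g S) (fun φ hφ => ?_) hf'
    · obtain ⟨W, hW⟩ := hP.2.2.2.2.2.2.2.2.2.1
      obtain ⟨φ, hφ, -, -, ht⟩ := hP.2.2.2.2.2.2.2.2.1 _ _ C hf hC
      rw [b2.2, ← hW]
      refine W.add_mem ?_ ?_ <;> rw [← SetLike.mem_coe, hW]
      · exact a3
      · exact mem_closure_of_tendsto ht (Eventually.of_forall fun n => ⟨φ n, hφ n, rfl⟩)
    · rw [b2.2, inner_add_left, a4 φ hφ, MG3.key h1 hP hP2 g hφ,
        pair_dens h1 hG g S (finE_of_lipC hP hφ)]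
      ring

theorem finE_sum (hP : St_P1) {ι : Type} (s : Finset ι) (a : ι → ℝ) {u : ι → ℂ → ℝ}
    (hu : ∀ i, FinE (u i)) :
    FinE (∑ i ∈ s, a i • u i) ∧ gr (∑ i ∈ s, a i • u i) = ∑ i ∈ s, a i • gr (u i) := by
  induction s using Finset.induction_on with
  | empty =>
    have h := hP.2.2.1 0 0 (hP.1 0 ⟨⟨0, LipschitzWith.const 0⟩, HasCompactSupport.zero⟩)
    rw [zero_smul, zero_smul] at h
    exact ⟨⟨h.1.1, ⟨0, fun z => by simp⟩, h.1.2⟩, h.2⟩
  | insert i s hi ih =>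
    rw [Finset.sum_insert hi, Finset.sum_insert hi]
    have h1 := hP.2.2.1 (a i) _ (FinE.lipE (hu i))
    have h2 := hP.2.1 _ _ h1.1 (FinE.lipE ih.1)
    obtain ⟨B, hB⟩ := (hu i).2.1
    obtain ⟨B', hB'⟩ := ih.1.2.1
    refine ⟨⟨h2.1.1, ⟨|a i| * B + B', fun z => (abs_add_le _ _).trans (add_le_add ?_ (hB' z))⟩,
      h2.1.2⟩, by rw [h2.2, h1.2, ih.2]⟩
    rw [Pi.smul_apply, smul_eq_mul, abs_mul]
    exact mul_le_mul_of_nonneg_left (hB z) (abs_nonneg _)

theorem anti (hG : St_GEO1) (Q : ℝ) (h : Dy → ℝ) {S A : Dy} (hS : S ∈ partF Q h)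
    (hA : A ∈ partF Q h) (hs : S <:+ A) : A = S := by
  unfold partF at hS hA
  split_ifs at hS hA with hf
  · rw [Set.Finite.mem_toFinset] at hS hA
    by_contra hne
    have h1 : box A ⊂ box S := ⟨(hG.2.2.2.2.1 A S).2 hs, fun h' =>
      hne (((hG.2.2.2.2.1 S A).1 h').eq_of_length_le hs.length_le)⟩
    exact absurd (hA.2 S h1) (not_lt.2 hS.1)
  · simp at hS

theorem det_unit (hM : St_MOD) (hB : St_BMP) (hG : St_GEO1) (g : Met) (M : Model)
    (h : Lnk g M) (T : Finset Dy) (hT : ∀ S ∈ T, ∀ A ∈ T, S <:+ A → A = S) :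
    IsUnit (KR.cm g T).det := by
  obtain ⟨hbb, E, C, -, -, -, hb⟩ := hB
  obtain ⟨-, -, b3, -, b5, -⟩ := hb M
  have hO : ∀ S, box S ⊆ M.O := fun S => ((hG.2.2.2.2.1 S []).2 List.nil_suffix).trans h.sub
  have hli : LinearIndependent ℝ fun S : T => M.eS S := by
    rw [Fintype.linearIndependent_iff]
    intro c hc S
    have h1 := congrArg (fun v => ⟪M.ub S, v⟫) hc
    simp only [inner_sum, real_inner_smul_right, inner_zero_right] at h1
    rw [Finset.sum_eq_single S] at h1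
    · rw [b5 S S (hO S) List.suffix_rfl, div_self (hG.1 S).1.ne', one_pow, mul_one] at h1
      exact (mul_eq_zero.1 h1).resolve_right hbb.ne'
    · intro A _ hA
      rw [(b3 S A (fun hs => hA (Subtype.ext (hT _ S.2 _ A.2 hs)))
        fun hs => hA (Subtype.ext (hT _ A.2 _ S.2 hs).symm)).2 (hO S), mul_zero]
    · intro hS
      exact absurd (Finset.mem_univ S) hS
  have e : KR.cm g T = Matrix.gram ℝ fun S : T => M.eS S := by
    ext A B
    exact KR.cov_eq hM g M h A B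
  rw [e]
  exact isUnit_iff_ne_zero.2 (Matrix.det_gram_ne_zero_iff_linearIndependent.2 hli)

theorem U_kap (h1 : St_MG1) (g : Met) (S : Dy) (hU : FinE (g.U S)) :
    ∫ z, g.U S z * g.kap z = 0 := by
  obtain ⟨hi, hone, -⟩ := h1 g
  have i1 := int_fin hU hi
  set c := ∫ w, g.pot S w * g.kap w with hc
  have e : ∫ w, g.pot S w * g.kap w = ∫ w, (g.U S w * g.kap w + c * g.kap w) := by
    refine integral_congr_ae (ae_of_all _ fun w => ?_)
    simp only [Met.U, ← hc]
    ring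
  rw [integral_add i1 (hi.const_mul c), integral_const_mul, hone, ← hc] at e
  linarith

theorem main (hP : St_P1) (hP2 : St_P2) (hF : St_FE) (hE : St_EXP1) (hE2 : St_EXP2) (hG : St_GEO1)
    (h1 : St_MG1) (h2 : St_MG2) (h3 : St_MG3) (hM : St_MOD) (hB : St_BMP) (hPO : St_POIN)
    (g : Met) (T : Finset Dy) (hT : ∀ S ∈ T, ∀ A ∈ T, S <:+ A → A = S) (h : Dy → ℝ) (f : ℂ → ℝ) :
    g.IsMin T h f ↔ f = g.krig T h := by
  obtain ⟨M, hL⟩ := h3 g
  have hU := U_rep hP hP2 hF hE hG h1 h2 g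
  set a : T → ℝ := fun S => ∑ S' : T, (KR.cm g T)⁻¹ S S' * h S' with ha
  have e : g.krig T h = ∑ S : T, a S • g.U S := by
    funext z
    simp only [Met.krig, ha, Finset.sum_apply, Pi.smul_apply, smul_eq_mul, Finset.sum_mul]
    refine Finset.sum_congr rfl fun S _ => Finset.sum_congr rfl fun S' _ => ?_
    change _ * (KR.cm g T)⁻¹ S S' * _ = _
    ring
  obtain ⟨k1, k2⟩ := finE_sum hP Finset.univ a fun S : T => (hU S).1
  rw [← e] at k1 k2
  have hs : ∀ ρ : ℂ → ℝ, Integrable ρ →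
      ∫ z, g.krig T h z * ρ z = ∑ S : T, a S * ∫ z, g.U S z * ρ z := fun ρ hρ => by
    simp only [e, Finset.sum_apply, Pi.smul_apply, smul_eq_mul, Finset.sum_mul, mul_assoc]
    rw [integral_finsetSum _ fun (S : T) _ => (int_fin (hU S).1 hρ).const_mul _]
    simp only [integral_const_mul]
  have k3 : ∀ S ∈ T, ∫ z, g.krig T h z * g.dens S z = h S := fun S hS => by
    have hu := Matrix.mul_nonsing_inv _ (det_unit hM hB hG g M hL T hT)
    have c1 : ∀ A : T, ∫ z, g.U A z * g.dens S z = KR.cm g T ⟨S, hS⟩ A := fun A => by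
      rw [pair_dens h1 hG g S (hU A).1, U_kap h1 g A (hU A).1, sub_zero,
        (KR.int_U hF hE2 hG g M hL A S).2, KR.cov_eq hM g M hL, real_inner_comm,
        ← KR.cov_eq hM g M hL]
      rfl
    rw [hs _ (int_dens h1 hG g S)]
    simp only [c1, ha, Finset.sum_mul]
    rw [Finset.sum_comm]
    have c2 : ∀ B : T, ∑ A : T, (KR.cm g T)⁻¹ A B * h B * KR.cm g T ⟨S, hS⟩ A =
        (KR.cm g T * (KR.cm g T)⁻¹) ⟨S, hS⟩ B * h B := fun B => by
      rw [Matrix.mul_apply, Finset.sum_mul]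
      exact Finset.sum_congr rfl fun A _ => by ring
    simp only [c2, hu, Matrix.one_apply, ite_mul, one_mul, zero_mul, Finset.sum_ite_eq,
      Finset.mem_univ, if_true]
  have k4 : ∫ z, g.krig T h z * g.kap z = 0 := by
    rw [hs _ (h1 g).1]
    simp [fun S : T => U_kap h1 g S (hU S).1]
  have k5 : ∀ f', FinE f' → (∀ S ∈ T, ∫ z, f' z * g.dens S z = h S) →
      ⟪gr (g.krig T h), gr f'⟫ = ∑ S : T, a S * h S := fun f' hf' hp => by
    rw [k2, sum_inner]
    exact Finset.sum_congr rfl fun S _ => by rw [real_inner_smul_left, (hU S).2 f' hf', hp S S.2]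
  have k6 : ∀ f', FinE f' → (∀ S ∈ T, ∫ z, f' z * g.dens S z = h S) → dirE f' =
      dirE (g.krig T h) + 2 * Real.pi * ‖gr f' - gr (g.krig T h)‖ ^ 2 := fun f' hf' hp => by
    rw [energy_eq hP (FinE.lipE hf'), energy_eq hP (FinE.lipE k1), norm_sub_sq_real,
      real_inner_comm, k5 f' hf' hp, ← k5 _ k1 k3, real_inner_self_eq_norm_sq]
    ring
  have hpi := Real.pi_pos
  refine ⟨fun hf => ?_, fun hf => hf ▸ ⟨k1, k3, k4, fun f' hf' hp => ?_⟩⟩
  · have m1 := hf.2.2.2 _ k1 k3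
    rw [k6 f hf.1 hf.2.1] at m1
    have m2 := hP.2.2.1 (-1) _ (FinE.lipE k1)
    have m3 := hP.2.1 _ _ (FinE.lipE hf.1) m2.1
    rw [m2.2, neg_one_smul, neg_one_smul, ← sub_eq_add_neg, ← sub_eq_add_neg] at m3
    have m4 := energy_eq hP m3.1
    rw [m3.2, le_antisymm (by linarith : 2 * Real.pi * ‖gr f - gr (g.krig T h)‖ ^ 2 ≤ 0)
      (by positivity)] at m4
    have m5 := (integral_eq_zero_iff_of_nonneg (fun z => sq_nonneg _) (by
      simpa only [real_inner_self_eq_norm_sq] using (hP.2.2.2.2.1 _ _ m3.1 m3.1).1)).1 m4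
    obtain ⟨K, hK⟩ := m3.1.1
    have m6 := const_of hPO hG hK (m5.mono fun z hz => by simpa using hz)
    have m7 : ∫ z, (f z * g.kap z - g.krig T h z * g.kap z) =
        ∫ z, (f - g.krig T h) 0 * g.kap z :=
      integral_congr_ae (ae_of_all _ fun z => by simp only [← m6 z, Pi.sub_apply]; ring)
    rw [integral_sub (int_fin hf.1 (h1 g).1) (int_fin k1 (h1 g).1), hf.2.2.1, k4,
      integral_const_mul, (h1 g).2.1, sub_self, mul_one] at m7
    funext z
    exact sub_eq_zero.1 ((m6 z).trans m7.symm)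
  · rw [k6 f' hf' hp]
    exact le_add_of_nonneg_right (by positivity)

end MIN

end

end Pool.Agent.Lib.APPS
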