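import Pool.Agent.Lib.APPS.Blue4

/-!
Localisation of the large scale functional: combinatorial and geometric lemmas.
-/

namespace Pool.Agent.Lib.APPS

open MeasureTheory ProbabilityTheory Filter Topology Set Metric
open scoped NNReal ENNReal CompactlySupported RealInnerProductSpace Classical

noncomputable section

namespace MT1

theorem tr_int {y : Dy → ℝ} {A : Dy} (h : A ∈ tr y) : IntN y A := by
  unfold tr at h
  split_ifs at h with hf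
  · simpa using h
  · simp at h

theorem int_tr (hT1 : St_T1) {x : Dy → ℝ} (hx : nB x ≠ ∞) {A : Dy} (h : IntN x A) : A ∈ tr x :=
  (hT1.2.2.2.2.2.2.2.2.2.2.2.2.1 x hx A).2 h

theorem nB_eq (hT1 : St_T1) {x : Dy → ℝ} (hx : nB x ≠ ∞) : nB x = (tr x).card :=
  (hT1.2.2.2.2.2.2.2.2.2.2.2.1 x _ (hT1.2.2.2.2.2.2.2.2.2.2.2.2.1 x hx)).2.2.1

theorem card_le_tsum (𝒜 : Finset Dy) (p : Dy → Prop) (h : ∀ A ∈ 𝒜, p A) :
    (𝒜.card : ℝ≥0∞) ≤ ∑' A, ind (p A) := by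
  refine le_trans (le_of_eq ?_) (ENNReal.sum_le_tsum 𝒜)
  rw [Finset.sum_congr rfl fun A hA => (show ind (p A) = 1 by simp [ind, h A hA])]
  simp

theorem card_le_nB (y : Dy → ℝ) : ((tr y).card : ℝ≥0∞) ≤ nB y :=
  card_le_tsum _ _ fun _ h => tr_int h

theorem mem_sub (hT1 : St_T1) {x : Dy → ℝ} {U : Dy} (hx : nB x ≠ ∞)
    (hU : ∀ B, B <:+ U → B ≠ U → 0 < x B) (A : Dy) : A ∈ tr (sub x U) ↔ A ++ U ∈ tr x := by
  obtain ⟨-, -, -, -, -, -, -, -, -, -, -, -, -, -, -, -, t17, -, t19, -⟩ := hT1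
  by_cases h : IntN x U
  · exact t19 x U hx h A
  · constructor
    · intro hA
      refine absurd (fun B hB => ?_) h
      by_cases hBU : B = U
      · rw [hBU]; simpa [sub] using tr_int hA [] List.nil_suffix
      · exact hU B hB hBU
    · exact fun hA => absurd ((t17 x U A).1 (tr_int hA)).1 h

theorem sum_sub (hT1 : St_T1) {x : Dy → ℝ} {U : Dy} (hx : nB x ≠ ∞)
    (hU : ∀ B, B <:+ U → B ≠ U → 0 < x B) (g : Dy → ℝ) :
    ∑ A ∈ tr (sub x U), g (A ++ U) = ∑ A ∈ (tr x).filter (fun A => U <:+ A), g A := by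
  refine Finset.sum_bij (fun A _ => A ++ U) (fun A hA => ?_) (fun A _ A' _ h => ?_)
    (fun A hA => ?_) fun _ _ => rfl
  · exact Finset.mem_filter.2 ⟨(mem_sub hT1 hx hU A).1 hA, List.suffix_append _ _⟩
  · exact List.append_cancel_right h
  · obtain ⟨h1, B, rfl⟩ := Finset.mem_filter.1 hA
    exact ⟨B, (mem_sub hT1 hx hU B).2 h1, rfl⟩

theorem suf_eq {U U' A : Dy} (h : U <:+ A) (h' : U' <:+ A) (hl : U.length = U'.length) : U = U' :=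
  (List.suffix_of_suffix_length_le h h' hl.le).eq_of_length hl

theorem sum_fib (T 𝒰 : Finset Dy) (k : ℕ) (h : ∀ U ∈ 𝒰, U.length = k) (g : Dy → ℝ) :
    ∑ U ∈ 𝒰, ∑ A ∈ T.filter (fun A => U <:+ A), g A =
      ∑ A ∈ T.filter (fun A => ∃ U ∈ 𝒰, U <:+ A), g A := by
  rw [← Finset.sum_biUnion]
  · congr 1
    ext A
    simp only [Finset.mem_biUnion, Finset.mem_filter]
    constructor
    · rintro ⟨U, h1, h2, h3⟩; exact ⟨h2, U, h1, h3⟩
    · rintro ⟨h2, U, h1, h3⟩; exact ⟨U, h1, h2, h3⟩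
  · intro U hU U' hU' hne
    refine Finset.disjoint_left.2 fun A hA hA' => hne ?_
    exact suf_eq (Finset.mem_filter.1 hA).2 (Finset.mem_filter.1 hA').2
      ((h U hU).trans (h U' hU').symm)

theorem sum_loc (hT1 : St_T1) {x : Dy → ℝ} (hx : nB x ≠ ∞) (𝒰 : Finset Dy) (k : ℕ)
    (h : ∀ U ∈ 𝒰, U.length = k) (hU : ∀ U ∈ 𝒰, ∀ B, B <:+ U → B ≠ U → 0 < x B) (g : Dy → ℝ) :
    ∑ U ∈ 𝒰, ∑ A ∈ tr (sub x U), g (A ++ U) =
      ∑ A ∈ (tr x).filter (fun A => ∃ U ∈ 𝒰, U <:+ A), g A := by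
  rw [← sum_fib _ _ k h]
  exact Finset.sum_congr rfl fun U hU' => sum_sub hT1 hx (hU U hU') g

theorem anc_suf (l : ℕ) (A : Dy) : anc l A <:+ A := List.drop_suffix _ _

theorem anc_len {l : ℕ} {A : Dy} (h : l ≤ A.length) : (anc l A).length = l := by
  simp only [anc, List.length_drop]; omega

theorem anc_eq {V R : Dy} (h : V <:+ R) : anc V.length R = V :=
  suf_eq (anc_suf _ _) h (anc_len h.length_le)

theorem reindex (hT1 : St_T1) {x : Dy → ℝ} (hx : nB x ≠ ∞) (g : Dy → Dy → ℝ) :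
    ∑ R ∈ tr x, ∑ i ∈ Finset.range (R.length + 1), g (anc i R) R =
      ∑ V ∈ tr x, ∑ R ∈ tr (sub x V), g V (R ++ V) := by
  have h1 : ∀ V ∈ tr x, ∑ R ∈ tr (sub x V), g V (R ++ V) =
      ∑ R ∈ tr x, if V <:+ R then g V R else 0 := fun V hV => by
    rw [sum_sub hT1 hx (fun B hB _ => tr_int hV B hB) (g V), Finset.sum_filter]
  rw [Finset.sum_congr rfl h1, Finset.sum_comm]
  refine Finset.sum_congr rfl fun R hR => ?_
  rw [← Finset.sum_filter]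
  refine Finset.sum_bij (fun i _ => anc i R) (fun i _ => ?_) (fun i hi i' hi' h => ?_)
    (fun V hV => ?_) fun _ _ => rfl
  · exact Finset.mem_filter.2 ⟨int_tr hT1 hx fun B hB => tr_int hR B (hB.trans (anc_suf _ _)),
      anc_suf _ _⟩
  · have h1 := anc_len (Nat.lt_succ_iff.1 (Finset.mem_range.1 hi))
    have h2 := anc_len (Nat.lt_succ_iff.1 (Finset.mem_range.1 hi'))
    rw [← h1, ← h2]
    exact congrArg List.length h
  · have h := (Finset.mem_filter.1 hV).2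
    exact ⟨V.length, Finset.mem_range.2 (Nat.lt_succ_iff.2 h.length_le), anc_eq h⟩

theorem shift_sum (K L J : ℕ) (hJ : L + K + 2 ≤ J) (h : ℕ → ℝ) :
    ∑ j ∈ Finset.range J, (if K + 1 ≤ j ∧ j ≤ L + K + 1 then h (j - K - 1) else 0) =
      ∑ i ∈ Finset.range (L + 1), h i := by
  rw [← Finset.sum_filter]
  refine Finset.sum_bij' (fun j _ => j - K - 1) (fun i _ => i + K + 1) ?_ ?_ ?_ ?_ ?_
  · intro j hj
    simp only [Finset.mem_filter, Finset.mem_range] at hj ⊢; omega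
  · intro i hi
    simp only [Finset.mem_filter, Finset.mem_range] at hi ⊢; omega
  · intro j hj
    simp only [Finset.mem_filter, Finset.mem_range] at hj ⊢; omega
  · intro i _; omega
  · intro _ _; rfl

theorem sum_le_of {𝒜 𝓑 : Finset Dy} {f g : Dy → ℝ} (h1 : ∀ A ∈ 𝒜, f A ≤ g A)
    (h2 : ∀ A ∈ 𝒜, f A ≠ 0 → A ∈ 𝓑) (h3 : ∀ A, 0 ≤ g A) : ∑ A ∈ 𝒜, f A ≤ ∑ A ∈ 𝓑, g A := by
  rw [← Finset.sum_filter_ne_zero]
  refine (Finset.sum_le_sum fun A hA => h1 A (Finset.mem_filter.1 hA).1).trans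
    (Finset.sum_le_sum_of_subset_of_nonneg (fun A hA => ?_) fun A _ _ => h3 A)
  exact h2 A (Finset.mem_filter.1 hA).1 (Finset.mem_filter.1 hA).2

theorem sum_le_card {𝒜 𝓑 : Finset Dy} {f : Dy → ℝ} (h1 : ∀ A ∈ 𝒜, f A ≤ 1)
    (h2 : ∀ A ∈ 𝒜, f A ≠ 0 → A ∈ 𝓑) : ∑ A ∈ 𝒜, f A ≤ 𝓑.card := by
  simpa using sum_le_of (g := fun _ => 1) h1 h2 fun _ => zero_le_one

/-- position of `A` seen from `R` at scale `j` -/
def hz (j : ℕ) (R A : Dy) : Cyl := toCyl (2 ^ j * (ctr A - ctr R))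

def SS (f : Cyl → ℝ) (𝒜 : Finset Dy) (R : Dy) (j : ℕ) : ℝ := ∑ A ∈ 𝒜, f (hz j R A)

theorem ctr_dist (hGEO1 : St_GEO1) {V R : Dy} (h : V <:+ R) : ‖ctr R - ctr V‖ ≤ 3 / 4 * side V :=
  (hGEO1.2.2.2.1 V).2.2.2.1 _ ((hGEO1.2.2.2.2.1 R V).2 h (hGEO1.2.2.2.1 R).2.2.1)

theorem side_le {A B : Dy} (h : A.length ≤ B.length) : side B ≤ side A :=
  pow_le_pow_of_le_one (by norm_num) (by norm_num) h

theorem tri (a b c : ℂ) : ‖a - c‖ ≤ ‖a - b‖ + ‖b - c‖ := norm_sub_le_norm_sub_add_norm_sub a b c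

theorem hat_sum (hGEO1 : St_GEO1) (hCYL : St_CYL) (𝒜 : Finset Dy) (R : Dy) (hR : R ∉ 𝒜) (J : ℕ) :
    ∑ j ∈ Finset.range J, SS hat0 𝒜 R j ≤ 𝒜.card := by
  obtain ⟨-, -, -, -, -, -, -, -, -, -, -, -, -, -, -, c1, -, c3, -⟩ := hCYL
  unfold SS
  rw [Finset.sum_comm]
  refine sum_le_card (fun A hA => ?_) fun A hA _ => hA
  have hne : ctr A - ctr R ≠ 0 := fun h =>
    hR (hGEO1.2.2.2.2.2.2.1 (sub_eq_zero.1 h) ▸ hA)
  have h1 := ctr_dist hGEO1 (List.nil_suffix (l := A))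
  have h2 := ctr_dist hGEO1 (List.nil_suffix (l := R))
  have h3 := tri (ctr A) (ctr []) (ctr R)
  rw [norm_sub_rev (ctr [])] at h3
  have h4 := (hGEO1.1 []).2
  exact sum_le_hasSum _ (fun j _ => (c1 _).1) (c3 _ hne (by linarith))

theorem hat_supp (hGEO1 : St_GEO1) (hCYL : St_CYL) {R A : Dy} {j : ℕ} (hA : A ≠ R)
    (h : hat0 (hz j R A) ≠ 0) :
    (1 / 2 : ℝ) ^ j < ‖ctr A - ctr R‖ ∧ ‖ctr A - ctr R‖ < 4 * (1 / 2 : ℝ) ^ j :=
  hCYL.2.2.2.2.2.2.2.2.2.2.2.2.2.2.2.2.2.2.1 _ j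
    (fun h => hA (hGEO1.2.2.2.2.2.2.1 (sub_eq_zero.1 h))) h

theorem hat_bd (hCYL : St_CYL) (w : Cyl) : 0 ≤ hat0 w ∧ hat0 w ≤ 1 :=
  ⟨(hCYL.2.2.2.2.2.2.2.2.2.2.2.2.2.2.2.1 w).1, (hCYL.2.2.2.2.2.2.2.2.2.2.2.2.2.2.2.1 w).2.1⟩

theorem f0_bd (hCYL : St_CYL) (K : ℕ) (w : Cyl) : 0 ≤ f0 K w ∧ f0 K w ≤ 1 :=
  ⟨(hCYL.2.2.2.2.2.2.2.2.2.2.2.2.2.2.2.2.1 K w).1,
    (hCYL.2.2.2.2.2.2.2.2.2.2.2.2.2.2.2.2.1 K w).2.1⟩

theorem hat_le_f0 (hCYL : St_CYL) {K : ℕ} (hK : 2 ≤ K) (w : Cyl) : hat0 w ≤ f0 K w := by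
  by_cases h : hat0 w = 0
  · rw [h]; exact (f0_bd hCYL K w).1
  · obtain ⟨h1, h2⟩ := (hCYL.2.2.2.2.2.2.2.2.2.2.2.2.2.2.2.1 w).2.2 h
    have hl : 0 < l2 := Real.log_pos one_lt_two
    have hK' : (2 : ℝ) ≤ K := by exact_mod_cast hK
    rw [(hCYL.2.2.2.2.2.2.2.2.2.2.2.2.2.2.2.2.1 K w).2.2.1 (abs_le.2 ⟨by nlinarith, by nlinarith⟩)]
    exact (hat_bd hCYL w).2

theorem SS_le_cnt (hGEO1 : St_GEO1) (hCYL : St_CYL) (x : Dy → ℝ) (R : Dy) (j : ℕ) :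
    SS hat0 ((tr x).erase R) R j ≤ cnt x R j := by
  refine sum_le_card (fun A _ => (hat_bd hCYL _).2) fun A hA h => ?_
  have h1 := hat_supp hGEO1 hCYL (Finset.mem_erase.1 hA).1 h
  exact Finset.mem_filter.2 ⟨(Finset.mem_erase.1 hA).2, h1.1.le, h1.2.le⟩

theorem f0_win (hCYL : St_CYL) {K j : ℕ} {R A : Dy}
    (h1 : (1 / 2 : ℝ) ^ (j + K) ≤ ‖ctr A - ctr R‖) (h2 : ‖ctr A - ctr R‖ ≤ 2 ^ K * (1 / 2 : ℝ) ^ j) :
    f0 K (hz j R A) = 1 := by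
  refine (hCYL.2.2.2.2.2.2.2.2.2.2.2.2.2.2.2.2.1 K _).2.2.1 ?_
  have e : ‖(2 : ℂ) ^ j * (ctr A - ctr R)‖ = 2 ^ j * ‖ctr A - ctr R‖ := by simp
  have e1 : (2 : ℝ) ^ j * (1 / 2) ^ j = 1 := by rw [← mul_pow]; simp
  have e2 : (K : ℝ) * l2 = Real.log (2 ^ K) := by rw [Real.log_pow]; rfl
  have hp : (0 : ℝ) < 2 ^ j := by positivity
  have h3 : ((2 : ℝ) ^ K)⁻¹ ≤ 2 ^ j * ‖ctr A - ctr R‖ := by
    have := mul_le_mul_of_nonneg_left h1 hp.le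
    rwa [pow_add, ← mul_assoc, e1, one_mul, one_div, inv_pow] at this
  have h4 : 2 ^ j * ‖ctr A - ctr R‖ ≤ 2 ^ K := by
    have := mul_le_mul_of_nonneg_left h2 hp.le
    rwa [mul_left_comm, e1, mul_one] at this
  have h0 : (0 : ℝ) < (2 ^ K)⁻¹ := by positivity
  simp only [hz, toCyl]
  rw [e, abs_neg, e2, abs_le, ← Real.log_inv]
  exact ⟨Real.log_le_log h0 h3, Real.log_le_log (h0.trans_le h3) h4⟩

theorem geo1 (hGEO1 : St_GEO1) {V R A : Dy} (h : V <:+ R) (hA : ‖ctr A - ctr R‖ ≤ side V / 2) :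
    (∃ U ∈ nbr V, U <:+ A) ∨ (A.length ≤ V.length ∧ ‖ctr A - ctr V‖ ≤ 8 * side A ∧
      ‖ctr A - ctr R‖ ≤ 8 * side A) := by
  have h1 := ctr_dist hGEO1 h
  have h2 := tri (ctr A) (ctr R) (ctr V)
  have h3 := (hGEO1.1 V).1
  by_cases hl : V.length ≤ A.length
  · refine Or.inl ⟨_, hGEO1.2.2.2.2.2.2.2.2.2.2.2.2.2.2 V A hl ?_ ?_, anc_suf _ _⟩
    · linarith [Complex.abs_re_le_norm (ctr A - ctr V)]
    · linarith [Complex.abs_im_le_norm (ctr A - ctr V)]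
  · have h4 := side_le (not_le.1 hl).le
    exact Or.inr ⟨(not_le.1 hl).le, by linarith, by linarith⟩

theorem nbr_len (hT1 : St_T1) {V U : Dy} (h : U ∈ nbr V) : U.length = V.length :=
  (hT1.1 _ _).1 (Finset.mem_filter.1 h).1

theorem nbr_card (hGEO1 : St_GEO1) (V : Dy) : ((nbr V).card : ℝ) ≤ 16 := by
  have := hGEO1.2.2.2.2.2.2.2.2.2.2.1 V.length (ctr V) (3 / 2) (by norm_num)
  exact le_trans this (by norm_num)

theorem anc_pos (hT1 : St_T1) (hGEO1 : St_GEO1) {x : Dy → ℝ} {s : ℝ} {K1 : ℕ} {V : Dy}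
    (hs : s ≤ 1) (hL : Loc K1 V) (hE : Early x s K1 V) (hM : Marg x K1 1 V) {U : Dy}
    (hU : U ∈ nbr V) {B : Dy} (hB : B <:+ U) : s < x B := by
  obtain ⟨h1, h2⟩ := hGEO1.2.2.2.2.2.2.2.2.2.2.2.2.1 K1 V hL
  have h3 := nbr_len hT1 hU
  by_cases hl : B.length ≤ K1
  · have h4 : B <:+ anc K1 U := List.suffix_of_suffix_length_le hB (anc_suf _ _)
      (by rw [anc_len (by omega)]; exact hl)
    rw [h2 U hU] at h4
    rw [← anc_eq (h4.trans (anc_suf _ _))]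
    exact hE _ hl
  · have h4 : B.length ≤ V.length := h3 ▸ hB.length_le
    refine lt_of_le_of_lt hs (hM B (not_le.1 hl) h4 ?_)
    have h5 := ctr_dist hGEO1 hB
    have h6 := (Finset.mem_filter.1 hU).2
    have h7 := tri (ctr B) (ctr U) (ctr V)
    rw [norm_sub_rev (ctr B) (ctr U)] at h7
    have h8 := side_le h4
    have h9 := (hGEO1.1 B).1
    linarith

theorem not_early (hGEO1 : St_GEO1) {x : Dy → ℝ} {s : ℝ} {K1 : ℕ} {V : Dy}
    (hL : Loc K1 V) (hE : ¬Early x s K1 V) {A : Dy} (hA : IntN (sh x (-s)) A) :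
    ¬∃ U ∈ nbr V, U <:+ A := by
  rintro ⟨U, hU, hUA⟩
  obtain ⟨h1, h2⟩ := hGEO1.2.2.2.2.2.2.2.2.2.2.2.2.1 K1 V hL
  refine hE fun l hl => ?_
  have h4 : anc l V <:+ anc K1 V := List.suffix_of_suffix_length_le (anc_suf _ _) (anc_suf _ _)
    (by rw [anc_len (by omega), anc_len (by omega)]; exact hl)
  rw [← h2 U hU] at h4
  have := hA _ ((h4.trans (anc_suf _ _)).trans hUA)
  simp only [sh] at this
  linarith

theorem self_nbr (hT1 : St_T1) (hGEO1 : St_GEO1) (V : Dy) : V ∈ nbr V :=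
  Finset.mem_filter.2 ⟨(hT1.1 _ _).2 rfl, by
    have := (hGEO1.1 V).1
    rw [sub_self, norm_zero]; positivity⟩

/-- nodes of the tree below a neighbour of `V` -/
def Dn (V A : Dy) : Prop := ∃ U ∈ nbr V, U <:+ A

theorem locS_eq (hT1 : St_T1) {x : Dy → ℝ} (hx : nB x ≠ ∞) {V : Dy}
    (hU : ∀ U ∈ nbr V, ∀ B, B <:+ U → 0 < x B) (R : Dy) (K : ℕ) (f : Cyl → ℝ) :
    locS x V R K f = SS f (((tr x).erase R).filter (Dn V)) R (V.length + K + 1) := by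
  unfold locS SS
  rw [sum_loc hT1 hx (nbr V) V.length (fun U h => nbr_len hT1 h) (fun U h B hB _ => hU U h B hB)
    fun A => if A = R then 0 else f (toCyl (2 ^ (V.length + K + 1) * (ctr A - ctr R))),
    Finset.filter_erase, ← Finset.filter_ne', Finset.sum_filter (fun A => A ≠ R)]
  refine Finset.sum_congr (Finset.filter_congr fun _ _ => Iff.rfl) fun A _ => ?_
  by_cases h : A = R <;> simp [h, hz]

/-- nodes close to `R` -/
def Nr (T : Finset Dy) (R : Dy) : Finset Dy :=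
  (T.erase R).filter fun A => (A.length ≤ R.length ∧ ‖ctr A - ctr R‖ ≤ 8 * side A) ∨
    (R.length ≤ A.length ∧ ‖ctr A - ctr R‖ ≤ 8 * side R)

theorem Nr_card (hGEO2 : St_GEO2) (x : Dy → ℝ) (R : Dy) : ((Nr (tr x) R).card : ℝ≥0∞) ≤ NN x R := by
  unfold Nr NN
  rw [Finset.filter_or, add_comm]
  refine le_trans (Nat.cast_le.2 (Finset.card_union_le _ _)) ?_
  rw [Nat.cast_add]
  refine add_le_add ?_ ?_
  · exact (card_le_tsum _ _ fun A hA => (Finset.mem_filter.1 hA).2).trans (hGEO2.2.2.2.1 R)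
  · refine (card_le_tsum _ _ fun A hA => ?_).trans (hGEO2.2.2.1 x R)
    exact ⟨tr_int (Finset.mem_erase.1 (Finset.mem_filter.1 hA).1).2, (Finset.mem_filter.1 hA).2⟩

/-- nodes of the tree that are not seen by the local functional -/
def Bad (T : Finset Dy) (V R : Dy) (K : ℕ) : Finset Dy :=
  T.filter fun A => ¬(Dn V A ∧ (1 / 2 : ℝ) ^ (V.length + K + 1 + K) ≤ ‖ctr A - ctr R‖ ∧
    ‖ctr A - ctr R‖ ≤ 2 ^ K * (1 / 2 : ℝ) ^ (V.length + K + 1))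

theorem half_side (V : Dy) (K : ℕ) : 2 ^ K * (1 / 2 : ℝ) ^ (V.length + K + 1) = side V / 2 := by
  have e1 : (2 : ℝ) ^ K * (1 / 2) ^ K = 1 := by rw [← mul_pow]; simp
  unfold side
  rw [pow_succ, pow_add]
  linear_combination ((1 / 2) ^ V.length / 2) * e1

theorem Bad_card (hGEO1 : St_GEO1) (hGEO2 : St_GEO2) (x : Dy → ℝ) {V R : Dy} (h : V <:+ R)
    (K : ℕ) : ((Bad (tr x) V R K).card : ℝ) ≤
      outN x R (V.length + K + 1) K + 289 * (V.length + 1) := by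
  set 𝒮 := (tr x).filter fun A => A.length ≤ V.length ∧ ‖ctr A - ctr V‖ ≤ 8 * side A with h𝒮
  have h1 : (𝒮.card : ℝ≥0∞) ≤ 289 * (V.length + 1) :=
    (card_le_tsum _ _ fun A hA => (Finset.mem_filter.1 hA).2).trans (hGEO2.2.2.2.1 V)
  have h2 : (𝒮.card : ℝ) ≤ 289 * (V.length + 1) := by
    have : 𝒮.card ≤ 289 * (V.length + 1) := by exact_mod_cast h1
    exact_mod_cast this
  refine le_trans ?_ (add_le_add le_rfl h2)
  unfold outN
  rw [← Nat.cast_add, Nat.cast_le]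
  refine le_trans (Finset.card_le_card fun A hA => ?_) (Finset.card_union_le _ _)
  obtain ⟨h3, h4⟩ := Finset.mem_filter.1 hA
  rw [Finset.mem_union, h𝒮, Finset.mem_filter, Finset.mem_filter]
  by_contra hc
  simp only [not_or, not_and_or, not_not, h3, not_true, false_or] at hc
  have h5 := hc.1.2
  rw [half_side] at h5
  rcases geo1 hGEO1 h h5 with h6 | h6
  · exact h4 ⟨h6, hc.1⟩
  · rcases hc.2 with h7 | h7
    · exact h7 h6.1
    · exact h7 h6.2.1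

end MT1

end

end Pool.Agent.Lib.APPS
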