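import Pool.Agent.Lib.APPS.B_MT1a

/-!
Localisation of the large scale functional: comparison for one root and one scale.
-/

namespace Pool.Agent.Lib.APPS

open MeasureTheory ProbabilityTheory Filter Topology Set Metric
open scoped NNReal ENNReal CompactlySupported RealInnerProductSpace Classical

noncomputable section

namespace MT1

def upt (l : ℕ) : Finset Dy := (Finset.range l).biUnion lev

def Gd (x Y : Dy → ℝ) (s m K' : ℝ) (K1 : ℕ) (V : Dy) : Prop :=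
  Loc K1 V ∧ (Early x s K1 V ∧ |Y V - m| ≤ K') ∧ Marg x K1 1 V

def RegD (x Y : Dy → ℝ) (m n δ : ℝ) (K : ℕ) (K' : ℝ) (K1 : ℕ) (R : Dy) (j : ℕ) : Prop :=
  K + 1 ≤ j ∧ j ≤ R.length + K + 1 ∧ (j : ℝ) ≤ δ * n ∧ outN x R j K ≤ δ * n ∧
    |Y (anc (j - K - 1) R) - m| ≤ K' ∧ Marg x K1 1 (anc (j - K - 1) R) ∧ Loc K1 (anc (j - K - 1) R)

def aT (tf : ℕ → C_c(Cyl, ℝ)) (G : (ℕ → ℝ) → ℝ) (χ : ℝ → ℝ) (k0 : ℕ) (n : ℝ) (T : Finset Dy)
    (R : Dy) (j : ℕ) : ℝ :=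
  Th G χ k0 (T.card / n) fun k => SS (tf k) (T.erase R) R j / n

def bL (tf : ℕ → C_c(Cyl, ℝ)) (G : (ℕ → ℝ) → ℝ) (χ : ℝ → ℝ) (k0 K : ℕ) (n : ℝ) (x : Dy → ℝ)
    (V R : Dy) : ℝ :=
  Th G χ k0 (locS x V R K (f0 K) / n) fun k => locS x V R K (tf k) / n

structure Hy (tf : ℕ → C_c(Cyl, ℝ)) (G : (ℕ → ℝ) → ℝ) (χ : ℝ → ℝ) (k0 K K1 i0 l : ℕ)
    (n s δ m K' C B γ : ℝ) (x Y : Dy → ℝ) (Bd : Dy → Prop) : Prop where
  t1 : St_T1
  g1 : St_GEO1
  g2 : St_GEO2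
  cy : St_CYL
  tf : IsTF tf
  hK : 2 ≤ K
  hi : i0 ≤ K1
  hn : 1 ≤ n
  hs : s ∈ Icc (0 : ℝ) (1 / 20)
  hγ : γ ∈ Ioo (0 : ℝ) 2
  hδ : 0 ≤ δ ∧ δ ≤ 1 / 10000
  hC : 0 ≤ C
  hB : 1 ≤ B
  hl : 16 * ((upt l).card : ℝ) ≤ δ * n
  hx : nB x ≠ ∞
  chi : ∀ t, χ t ≠ 0 → 3 / 4 ≤ t ∧ t + 1 ≤ B
  th3 : ∀ τ s, 0 ≤ s 0 → 0 ≤ Th G χ k0 τ s ∧ Th G χ k0 τ s ≤ 2 * s 0
  th4 : ∀ τ s, 0 ≤ s 0 → s 0 ≤ τ → Th G χ k0 τ s ≤ 2
  th5 : ∀ τ s, 0 ≤ s 0 → |Th G χ k0 τ s - χ τ / τ * (s 0 / τ) * G fun k => s k / τ| ≤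
      C * (1 / 2 : ℝ) ^ k0 * s 0
  th6 : ∀ (τ τ' δ B : ℝ) (s s' : ℕ → ℝ), 0 ≤ s 0 → 0 ≤ s' 0 → 1 ≤ B → |τ - τ'| ≤ δ →
      (∀ k ≤ k0, |s k - s' k| ≤ δ ∧ |s k| ≤ B ∧ |s' k| ≤ B) →
      |Th G χ k0 τ s - Th G χ k0 τ' s'| ≤ C * (|s 0 - s' 0| + B * δ * min (s 0) (s' 0))
  lg : ∀ V : Dy, i0 + 2 ≤ V.length → |Y V - m| ≤ K' → ¬Bd V → LocGood γ one n (1 / 100) l V x

variable {tf : ℕ → C_c(Cyl, ℝ)} {G : (ℕ → ℝ) → ℝ} {χ : ℝ → ℝ} {k0 K K1 i0 l : ℕ}
  {n s δ m K' C B γ : ℝ} {x Y : Dy → ℝ} {Bd : Dy → Prop}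

theorem Th_zero {τ : ℝ} (h : χ τ = 0) (s : ℕ → ℝ) : Th G χ k0 τ s = 0 := by simp [Th, h]

theorem SS_nonneg {f : Cyl → ℝ} (h : ∀ w, 0 ≤ f w) (𝒜 : Finset Dy) (R : Dy) (j : ℕ) :
    0 ≤ SS f 𝒜 R j := Finset.sum_nonneg fun _ _ => h _

theorem SS_abs {f : Cyl → ℝ} (h : ∀ w, |f w| ≤ 1) {𝒜 𝓑 : Finset Dy} (hs : 𝒜 ⊆ 𝓑) (R : Dy)
    (j : ℕ) : |SS f 𝒜 R j| ≤ 𝓑.card :=
  (Finset.abs_sum_le_sum_abs _ _).trans (sum_le_card (fun _ _ => h _) fun _ hA _ => hs hA)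

theorem SS_split (f : Cyl → ℝ) (𝒜 : Finset Dy) (p : Dy → Prop) (R : Dy) (j : ℕ) :
    SS f 𝒜 R j - SS f (𝒜.filter p) R j = SS f (𝒜.filter fun A => ¬p A) R j := by
  unfold SS
  rw [← Finset.sum_filter_add_sum_filter_not 𝒜 p]; ring

theorem sh_le {x : Dy → ℝ} {s : ℝ} (hs : 0 ≤ s) (S : Dy) : sh x (-s) S ≤ x S := by
  simp only [sh]; linarith

theorem Hy.fin (h : Hy tf G χ k0 K K1 i0 l n s δ m K' C B γ x Y Bd) : nB (sh x (-s)) ≠ ∞ :=
  ne_top_of_le_ne_top h.hx (h.t1.2.2.2.2.2.2.2.2.2.2.2.2.2.2.2.1 _ _ (sh_le h.hs.1))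

theorem Hy.gate_iff (h : Hy tf G χ k0 K K1 i0 l n s δ m K' C B γ x Y Bd) :
    ENNReal.ofReal (n / 2) ≤ nB (sh x (-s)) ↔ n / 2 ≤ (tr (sh x (-s))).card := by
  rw [nB_eq h.t1 h.fin, ← ENNReal.ofReal_natCast, ENNReal.ofReal_le_ofReal_iff (Nat.cast_nonneg _)]

theorem Hy.nogate (h : Hy tf G χ k0 K K1 i0 l n s δ m K' C B γ x Y Bd) {V R : Dy}
    (hL : Loc K1 V) (hE : ¬Early x s K1 V) (hb : ((Bad (tr x) V R K).card : ℝ) ≤ 290 * δ * n) :
    ¬ENNReal.ofReal (n / 2) ≤ nB (sh x (-s)) := by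
  rw [h.gate_iff, not_le]
  have h1 : tr (sh x (-s)) ⊆ Bad (tr x) V R K := fun A hA =>
    Finset.mem_filter.2 ⟨int_tr h.t1 h.hx fun B hB => (tr_int hA B hB).trans_le (sh_le h.hs.1 B),
      fun h2 => not_early h.g1 hL hE (tr_int hA) h2.1⟩
  have h2 : ((tr (sh x (-s))).card : ℝ) ≤ (Bad (tr x) V R K).card :=
    Nat.cast_le.2 (Finset.card_le_card h1)
  nlinarith [h.hδ.2, h.hn]

theorem Hy.gate (h : Hy tf G χ k0 K K1 i0 l n s δ m K' C B γ x Y Bd) {V R : Dy}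
    (hG : Gd x Y s m K' K1 V) (hB : ¬Bd V) (hN : 3 / 4 * n ≤ (tr x).card)
    (hb : ((Bad (tr x) V R K).card : ℝ) ≤ 290 * δ * n) :
    ENNReal.ofReal (n / 2) ≤ nB (sh x (-s)) := by
  obtain ⟨hL, ⟨hE, hY⟩, hM⟩ := hG
  have hlen := (h.g1.2.2.2.2.2.2.2.2.2.2.2.2.1 K1 V hL).1
  obtain ⟨w, hw, h1, -, h2⟩ := h.lg V (by have := h.hi; omega) hY hB
  have hs := h.hs
  have h3 := (h2 0 ⟨by norm_num, by norm_num⟩).2
  have h4 := (h2 (-s) ⟨by linarith [hs.2], by linarith [hs.1]⟩).2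
  have e0 : sh x 0 = x := funext fun S => add_zero _
  rw [e0, mul_zero, Real.exp_zero] at h3
  have hcl : ∀ T ∈ clus V l, T.length = l + V.length := by
    intro T hT
    obtain ⟨U, hU, hT⟩ := Finset.mem_biUnion.1 hT
    obtain ⟨T', hT', rfl⟩ := Finset.mem_image.1 hT
    rw [List.length_append, (h.t1.1 _ _).1 hT', nbr_len h.t1 hU]
  have hanc : ∀ T ∈ clus V l, ∀ A, A <:+ T → A ≠ T → s < x A := by
    intro T hT A hA hne
    by_cases hl : V.length ≤ A.length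
    · linarith [h1 T hT A hA hne hl, hs.2]
    · obtain ⟨U, hU, hT⟩ := Finset.mem_biUnion.1 hT
      obtain ⟨T', -, rfl⟩ := Finset.mem_image.1 hT
      refine anc_pos h.t1 h.g1 (by linarith [hs.2]) hL hE hM hU
        (List.suffix_of_suffix_length_le hA (List.suffix_append _ _) ?_)
      rw [nbr_len h.t1 hU]; omega
  have h5 := sum_loc h.t1 h.hx (clus V l) _ hcl
    (fun T hT A hA hne => hs.1.trans_lt (hanc T hT A hA hne)) fun _ => 1
  have h6 := sum_loc h.t1 h.fin (clus V l) _ hcl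
    (fun T hT A hA hne => by simp only [sh]; linarith [hanc T hT A hA hne]) fun _ => 1
  simp only [Finset.sum_const, nsmul_eq_mul, mul_one] at h5 h6
  have h7 : (((tr (sh x (-s))).filter fun A => ∃ U ∈ clus V l, U <:+ A).card : ℝ) ≤
      (tr (sh x (-s))).card := Nat.cast_le.2 (Finset.card_filter_le _ _)
  have h8 : tr x ⊆ ((tr x).filter fun A => ∃ U ∈ clus V l, U <:+ A) ∪ (Bad (tr x) V R K ∪
      (nbr V).biUnion fun U => (upt l).image fun T => T ++ U) := by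
    intro A hA
    simp only [Finset.mem_union]
    by_cases hD : Dn V A
    · obtain ⟨U, hU, A', rfl⟩ := hD
      by_cases hl : l ≤ A'.length
      · refine Or.inl (Finset.mem_filter.2 ⟨hA, anc l A' ++ U, Finset.mem_biUnion.2 ⟨U, hU,
          Finset.mem_image.2 ⟨_, (h.t1.1 _ _).2 (anc_len hl), rfl⟩⟩, ?_⟩)
        obtain ⟨t, ht⟩ := anc_suf l A'
        exact ⟨t, by rw [← List.append_assoc, ht]⟩
      · exact Or.inr (Or.inr (Finset.mem_biUnion.2 ⟨U, hU, Finset.mem_image.2 ⟨A',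
          Finset.mem_biUnion.2 ⟨_, Finset.mem_range.2 (not_le.1 hl), (h.t1.1 _ _).2 rfl⟩, rfl⟩⟩))
    · exact Or.inr (Or.inl (Finset.mem_filter.2 ⟨hA, fun h2 => hD h2.1⟩))
  have h9 : ((nbr V).biUnion fun U => (upt l).image fun T => T ++ U).card ≤
      (nbr V).card * (upt l).card :=
    Finset.card_biUnion_le_card_mul _ _ _ fun _ _ => Finset.card_image_le
  have h10 := (Finset.card_le_card h8).trans ((Finset.card_union_le _ _).trans
    (Nat.add_le_add_left ((Finset.card_union_le _ _).trans (Nat.add_le_add_left h9 _)) _))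
  have h11 : ((tr x).card : ℝ) ≤ ((tr x).filter fun A => ∃ U ∈ clus V l, U <:+ A).card +
      ((Bad (tr x) V R K).card + (nbr V).card * (upt l).card) := by exact_mod_cast h10
  have h12 := mul_le_mul_of_nonneg_right (nbr_card h.g1 V) (Nat.cast_nonneg (α := ℝ) (upt l).card)
  have h13 := (Finset.abs_sum_le_sum_abs _ _).trans h3
  have h14 := (Finset.abs_sum_le_sum_abs _ _).trans h4
  rw [Finset.sum_sub_distrib] at h13 h14
  simp only [nN, mul_one] at h13 h14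
  have e1 : ∑ T ∈ clus V l, cc γ one * Real.exp (γ * -s) * w T =
      Real.exp (γ * -s) * ∑ T ∈ clus V l, cc γ one * w T := by
    rw [Finset.mul_sum]; exact Finset.sum_congr rfl fun _ _ => by ring
  rw [e1, h6] at h14
  rw [h5] at h13
  have h15 : 9 / 10 ≤ Real.exp (γ * -s) := by
    have := Real.add_one_le_exp (γ * -s)
    nlinarith [h.hγ.1, h.hγ.2, hs.1, hs.2]
  have h16 : 0 ≤ ∑ T ∈ clus V l, cc γ one * w T :=
    Finset.sum_nonneg fun T _ => mul_nonneg ENNReal.toReal_nonneg (hw T)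
  have h17 := mul_le_mul_of_nonneg_right h15 h16
  rw [h.gate_iff]
  have h18 := mul_le_mul_of_nonneg_right h.hδ.2 (by linarith [h.hn] : 0 ≤ n)
  linarith [(abs_le.1 h13).2, (abs_le.1 h14).1, h.hl, h.hn]

theorem Hy.loc (h : Hy tf G χ k0 K K1 i0 l n s δ m K' C B γ x Y Bd) {V : Dy}
    (hG : Gd x Y s m K' K1 V) (R : Dy) (f : Cyl → ℝ) :
    locS x V R K f = SS f (((tr x).erase R).filter (Dn V)) R (V.length + K + 1) :=
  locS_eq h.t1 h.hx (fun _ hU _ hB => h.hs.1.trans_lt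
    (anc_pos h.t1 h.g1 (by linarith [h.hs.2]) hG.1 hG.2.1.1 hG.2.2 hU hB)) R K f

theorem Hy.tf0 (h : Hy tf G χ k0 K K1 i0 l n s δ m K' C B γ x Y Bd) : (tf 0 : Cyl → ℝ) = hat0 :=
  funext h.tf.zero

theorem Hy.aT_bd (h : Hy tf G χ k0 K K1 i0 l n s δ m K' C B γ x Y Bd) (R : Dy) (j : ℕ) :
    0 ≤ aT tf G χ k0 n (tr x) R j ∧
      aT tf G χ k0 n (tr x) R j ≤ 2 * (SS hat0 ((tr x).erase R) R j / n) ∧
      aT tf G χ k0 n (tr x) R j ≤ 2 := by
  have hn : 0 < n := by linarith [h.hn]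
  have h0 : 0 ≤ SS (tf 0) ((tr x).erase R) R j / n := by
    rw [h.tf0]; exact div_nonneg (SS_nonneg (fun w => (hat_bd h.cy w).1) _ _ _) hn.le
  refine ⟨(h.th3 _ _ h0).1, by rw [← h.tf0]; exact (h.th3 _ _ h0).2, h.th4 _ _ h0 ?_⟩
  exact div_le_div_of_nonneg_right ((le_abs_self _).trans
    (SS_abs (h.tf.bd 0) (Finset.erase_subset _ _) _ _)) hn.le

theorem bL_bd (hCYL : St_CYL) (htf : IsTF tf) (hK : 2 ≤ K) (hn : 0 < n)
    (th3 : ∀ τ s, 0 ≤ s 0 → 0 ≤ Th G χ k0 τ s ∧ Th G χ k0 τ s ≤ 2 * s 0)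
    (th4 : ∀ τ s, 0 ≤ s 0 → s 0 ≤ τ → Th G χ k0 τ s ≤ 2) (x : Dy → ℝ) (V R : Dy) :
    0 ≤ bL tf G χ k0 K n x V R ∧ bL tf G χ k0 K n x V R ≤ 2 * (locS x V R K hat0 / n) ∧
      bL tf G χ k0 K n x V R ≤ 2 := by
  have e : (tf 0 : Cyl → ℝ) = hat0 := funext htf.zero
  have h0 : 0 ≤ locS x V R K (tf 0) / n := by
    rw [e]
    refine div_nonneg (Finset.sum_nonneg fun _ _ => Finset.sum_nonneg fun _ _ => ?_) hn.le
    split_ifs
    exacts [le_rfl, (hat_bd hCYL _).1]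
  refine ⟨(th3 _ _ h0).1, by rw [← e]; exact (th3 _ _ h0).2, th4 _ _ h0 ?_⟩
  rw [e]
  refine div_le_div_of_nonneg_right
    (Finset.sum_le_sum fun _ _ => Finset.sum_le_sum fun _ _ => ?_) hn.le
  split_ifs
  exacts [le_rfl, hat_le_f0 hCYL hK _]

theorem Hy.tau_le (h : Hy tf G χ k0 K K1 i0 l n s δ m K' C B γ x Y Bd) {V : Dy}
    (hG : Gd x Y s m K' K1 V) (R : Dy) : locS x V R K (f0 K) ≤ (tr x).card := by
  rw [h.loc hG]
  exact sum_le_card (fun _ _ => (f0_bd h.cy _ _).2) fun _ hA _ =>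
    Finset.mem_of_mem_erase (Finset.mem_filter.1 hA).1

theorem Hy.le_tau (h : Hy tf G χ k0 K K1 i0 l n s δ m K' C B γ x Y Bd) {V : Dy}
    (hG : Gd x Y s m K' K1 V) (R : Dy) :
    ((tr x).card : ℝ) ≤ locS x V R K (f0 K) + (Bad (tr x) V R K).card := by
  rw [h.loc hG, Bad, ← Finset.card_filter_add_card_filter_not (s := tr x) fun A => Dn V A ∧
    (1 / 2 : ℝ) ^ (V.length + K + 1 + K) ≤ ‖ctr A - ctr R‖ ∧
      ‖ctr A - ctr R‖ ≤ 2 ^ K * (1 / 2 : ℝ) ^ (V.length + K + 1), Nat.cast_add]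
  refine add_le_add ?_ le_rfl
  rw [Finset.card_eq_sum_ones, Nat.cast_sum]
  refine sum_le_of (fun A hA => ?_) (fun A hA _ => ?_) fun _ => (f0_bd h.cy _ _).1
  · obtain ⟨-, -, h1, h2⟩ := Finset.mem_filter.1 hA
    rw [f0_win h.cy h1 h2]; simp
  · obtain ⟨h0, h3, h1, -⟩ := Finset.mem_filter.1 hA
    refine Finset.mem_filter.2 ⟨Finset.mem_erase.2 ⟨?_, h0⟩, h3⟩
    rintro rfl
    rw [sub_self, norm_zero] at h1
    exact absurd h1 (not_le.2 (by positivity))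

theorem Hy.main (h : Hy tf G χ k0 K K1 i0 l n s δ m K' C B γ x Y Bd) {V R : Dy} (hV : V <:+ R)
    (hG : Gd x Y s m K' K1 V) (hb : ((Bad (tr x) V R K).card : ℝ) ≤ 290 * δ * n) :
    |aT tf G χ k0 n (tr x) R (V.length + K + 1) - bL tf G χ k0 K n x V R| ≤
      indR ((tr x).card / n ≤ B) * ((C + 2) * (SS hat0 (Nr (tr x) R) R (V.length + K + 1) / n) +
        C * B * (290 * δ) * (SS hat0 ((tr x).erase R) R (V.length + K + 1) / n)) := by
  have hn : 0 < n := by linarith [h.hn]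
  have h1 := h.tau_le hG R
  have h2 := h.le_tau hG R
  have hτ : |((tr x).card : ℝ) / n - locS x V R K (f0 K) / n| ≤ 290 * δ := by
    rw [← sub_div, abs_div, abs_of_pos hn, div_le_iff₀ hn, abs_of_nonneg (by linarith)]
    linarith
  by_cases hB : ((tr x).card : ℝ) / n ≤ B
  swap
  · have h3 : χ ((tr x).card / n) = 0 := by
      by_contra h3
      linarith [(h.chi _ h3).2]
    have h4 : χ (locS x V R K (f0 K) / n) = 0 := by
      by_contra h4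
      linarith [(h.chi _ h4).2, (abs_le.1 hτ).2, h.hδ.2]
    simp [aT, bL, Th_zero h3, Th_zero h4, indR, hB]
  set j := V.length + K + 1 with hj
  set E := (tr x).erase R with hE
  have hE' : E ⊆ tr x := Finset.erase_subset _ _
  have hp := fun 𝒜 => SS_nonneg (fun w => (hat_bd h.cy w).1) 𝒜 R j
  have key := h.th6 ((tr x).card / n) (locS x V R K (f0 K) / n) (290 * δ) B
    (fun k => SS (tf k) E R j / n) (fun k => locS x V R K (tf k) / n)
    (by rw [h.tf0]; exact div_nonneg (hp _) hn.le)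
    (by rw [h.tf0, h.loc hG]; exact div_nonneg (hp _) hn.le) h.hB hτ (fun k _ => by
      rw [h.loc hG, ← sub_div, SS_split, abs_div, abs_div, abs_div, abs_of_pos hn]
      refine ⟨?_, ?_, ?_⟩
      · rw [div_le_iff₀ hn]
        refine (SS_abs (h.tf.bd k) (fun A hA => ?_) _ _).trans hb
        exact Finset.mem_filter.2 ⟨hE' (Finset.mem_filter.1 hA).1,
          fun h2 => (Finset.mem_filter.1 hA).2 h2.1⟩
      · exact (div_le_div_of_nonneg_right (SS_abs (h.tf.bd k) hE' _ _) hn.le).trans hB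
      · exact (div_le_div_of_nonneg_right (SS_abs (h.tf.bd k)
          ((Finset.filter_subset _ _).trans hE') _ _) hn.le).trans hB)
  refine key.trans ?_
  simp only [indR, hB, if_true, one_mul]
  rw [h.tf0, h.loc hG, ← sub_div, SS_split, abs_of_nonneg (div_nonneg (hp _) hn.le)]
  have h5 : SS hat0 (E.filter fun A => ¬Dn V A) R j ≤ SS hat0 (Nr (tr x) R) R j := by
    refine sum_le_of (fun _ _ => le_rfl) (fun A hA h0 => ?_) fun _ => (hat_bd h.cy _).1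
    obtain ⟨h6, h7⟩ := Finset.mem_filter.1 hA
    have h8 := (hat_supp h.g1 h.cy (Finset.mem_erase.1 h6).1 h0).2
    have h9 : (4 : ℝ) ≤ 2 ^ K := le_trans (by norm_num) (pow_le_pow_right₀ one_le_two h.hK)
    have h10 := mul_le_mul_of_nonneg_right h9 (by positivity : 0 ≤ (1 / 2 : ℝ) ^ j)
    rw [hj, half_side] at h10
    rcases geo1 h.g1 hV (h8.le.trans h10) with h11 | h11
    · exact absurd h11 h7
    · exact Finset.mem_filter.2 ⟨h6, Or.inl ⟨h11.1.trans hV.length_le, h11.2.2⟩⟩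
  have h6 := div_le_div_of_nonneg_right h5 hn.le
  have h7 := div_nonneg (hp (Nr (tr x) R)) hn.le
  have h8 := mul_le_mul_of_nonneg_left (min_le_left (SS hat0 E R j / n)
    (SS hat0 (E.filter (Dn V)) R j / n)) (by have := h.hB; have := h.hδ.1; positivity :
      0 ≤ B * (290 * δ))
  nlinarith [mul_le_mul_of_nonneg_left h6 h.hC, mul_le_mul_of_nonneg_left h8 h.hC]

theorem indR_bd (p : Prop) : 0 ≤ indR p ∧ indR p ≤ 1 := by
  unfold indR; split_ifs <;> norm_num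

/-- the matched local term -/
def bb' (tf : ℕ → C_c(Cyl, ℝ)) (G : (ℕ → ℝ) → ℝ) (χ : ℝ → ℝ) (k0 K K1 : ℕ) (n s m K' : ℝ)
    (x Y : Dy → ℝ) (V R : Dy) : ℝ :=
  if Gd x Y s m K' K1 V then bL tf G χ k0 K n x V R else 0

theorem Hy.pair (h : Hy tf G χ k0 K K1 i0 l n s δ m K' C B γ x Y Bd)
    (hN : 3 / 4 * n ≤ (tr x).card) (R : Dy) (j : ℕ) :
    |indR (ENNReal.ofReal (n / 2) ≤ nB (sh x (-s))) * aT tf G χ k0 n (tr x) R j -
      (if K + 1 ≤ j ∧ j ≤ R.length + K + 1 then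
        bb' tf G χ k0 K K1 n s m K' x Y (anc (j - K - 1) R) R else 0)| ≤
      indR ((tr x).card / n ≤ B) * ((C + 2) * (SS hat0 (Nr (tr x) R) R j / n) +
        C * B * (290 * δ) * (SS hat0 ((tr x).erase R) R j / n)) +
      2 * (if j < R.length + K + 2 then
        min 1 (cnt x R j / n) * indR (¬RegD x Y m n δ K K' K1 R j) else 0) +
      2 * (if K + 1 ≤ j ∧ j ≤ R.length + K + 1 then
        indR (Bd (anc (j - K - 1) R) ∧ i0 + 2 ≤ (anc (j - K - 1) R).length) else 0) := by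
  have hn : 0 < n := by linarith [h.hn]
  have hp := fun 𝒜 => div_nonneg (SS_nonneg (fun w => (hat_bd h.cy w).1) 𝒜 R j) hn.le
  obtain ⟨a1, a2, a3⟩ := h.aT_bd R j
  have hg := indR_bd (ENNReal.ofReal (n / 2) ≤ nB (sh x (-s)))
  have a4 := mul_nonneg hg.1 a1
  have a5 := mul_le_of_le_one_left a1 hg.2
  have hC := h.hC
  have hB := h.hB
  have hδ := h.hδ.1
  have hcnt := div_le_div_of_nonneg_right (SS_le_cnt h.g1 h.cy x R j) hn.le
  have p1 : 0 ≤ indR ((tr x).card / n ≤ B) * ((C + 2) * (SS hat0 (Nr (tr x) R) R j / n) +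
      C * B * (290 * δ) * (SS hat0 ((tr x).erase R) R j / n)) :=
    mul_nonneg (indR_bd _).1 (add_nonneg (mul_nonneg (by positivity) (hp _))
      (mul_nonneg (by positivity) (hp _)))
  have p2 : 0 ≤ (if j < R.length + K + 2 then
      min 1 (cnt x R j / n) * indR (¬RegD x Y m n δ K K' K1 R j) else 0) := by
    split_ifs
    exacts [mul_nonneg (le_min zero_le_one ((hp _).trans hcnt)) (indR_bd _).1, le_rfl]
  have p3 : 0 ≤ (if K + 1 ≤ j ∧ j ≤ R.length + K + 1 then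
      indR (Bd (anc (j - K - 1) R) ∧ i0 + 2 ≤ (anc (j - K - 1) R).length) else 0) := by
    split_ifs
    exacts [(indR_bd _).1, le_rfl]
  set V := anc (j - K - 1) R with hV
  set b := (if K + 1 ≤ j ∧ j ≤ R.length + K + 1 then
    bb' tf G χ k0 K K1 n s m K' x Y V R else 0) with hb
  have hlen : K + 1 ≤ j ∧ j ≤ R.length + K + 1 → V.length + K + 1 = j := fun hj => by
    rw [hV, anc_len (by omega)]; omega
  have hbb : 0 ≤ b ∧ b ≤ 2 * (SS hat0 ((tr x).erase R) R j / n) ∧ b ≤ 2 := by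
    have h0 := hp ((tr x).erase R)
    rw [hb, bb']
    split_ifs with h1 h2
    · obtain ⟨b1, b2, b3⟩ := bL_bd h.cy h.tf h.hK hn h.th3 h.th4 x V R
      refine ⟨b1, b2.trans ?_, b3⟩
      rw [h.loc h2, hlen h1]
      gcongr
      exact Finset.sum_le_sum_of_subset_of_nonneg (Finset.filter_subset _ _)
        fun _ _ _ => (hat_bd h.cy _).1
    all_goals exact ⟨le_rfl, by positivity, by norm_num⟩
  obtain ⟨b1, b2, b3⟩ := hbb
  by_cases hj : j < R.length + K + 2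
  swap
  · rw [hb, if_neg (by omega), sub_zero, abs_of_nonneg a4]
    refine le_trans ?_ (le_add_of_le_of_nonneg (le_add_of_nonneg_right (by linarith))
      (by linarith))
    by_cases hτ : ((tr x).card : ℝ) / n ≤ B
    · have h5 : SS hat0 ((tr x).erase R) R j ≤ SS hat0 (Nr (tr x) R) R j := by
        refine sum_le_of (fun _ _ => le_rfl) (fun A hA h0 => ?_) fun _ => (hat_bd h.cy _).1
        have h8 := (hat_supp h.g1 h.cy (Finset.mem_erase.1 hA).1 h0).2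
        have h9 : (1 / 2 : ℝ) ^ j ≤ side R :=
          pow_le_pow_of_le_one (by norm_num) (by norm_num) (by omega)
        have h10 := (h.g1.1 R).1
        refine Finset.mem_filter.2 ⟨hA, ?_⟩
        rcases le_total A.length R.length with h11 | h11
        · exact Or.inl ⟨h11, by linarith [side_le h11]⟩
        · exact Or.inr ⟨h11, by linarith⟩
      have h6 := div_le_div_of_nonneg_right h5 hn.le
      simp only [indR, hτ, if_true, one_mul] at a5 ⊢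
      nlinarith [mul_nonneg hC (hp (Nr (tr x) R)),
        mul_nonneg (by positivity : 0 ≤ C * B * (290 * δ)) (hp ((tr x).erase R))]
    · have h3 : χ ((tr x).card / n) = 0 := by
        by_contra h3
        linarith [(h.chi _ h3).2]
      rw [aT, Th_zero h3, mul_zero]
      exact p1
  by_cases hR : RegD x Y m n δ K K' K1 R j
  swap
  · refine le_trans ?_ (le_add_of_le_of_nonneg (le_add_of_nonneg_left p1) (by linarith))
    simp only [hj, if_true, indR, hR, not_false_eq_true, mul_one] at a4 a5 ⊢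
    rw [mul_min_of_nonneg _ _ zero_le_two, le_min_iff, abs_le, abs_le]
    refine ⟨⟨?_, ?_⟩, ?_, ?_⟩ <;> linarith
  obtain ⟨r1, r2, r3, r4, r5, r6, r7⟩ := hR
  have hl := hlen ⟨r1, r2⟩
  have hbad : ((Bad (tr x) V R K).card : ℝ) ≤ 290 * δ * n := by
    have h1 := Bad_card h.g1 h.g2 x (anc_suf (j - K - 1) R) K
    have h2 : (V.length : ℝ) + 1 ≤ j := by exact_mod_cast (by omega : V.length + 1 ≤ j)
    rw [← hV, hl] at h1
    linarith
  by_cases hBd : Bd V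
  · refine le_trans ?_ (le_add_of_nonneg_left (by linarith))
    have h1 := (h.g1.2.2.2.2.2.2.2.2.2.2.2.2.1 K1 V r7).1
    have h2 : i0 + 2 ≤ V.length := by have := h.hi; omega
    rw [if_pos ⟨r1, r2⟩, show indR (Bd V ∧ i0 + 2 ≤ V.length) = 1 by simp [indR, hBd, h2], abs_le]
    constructor <;> linarith
  refine le_trans ?_ (le_add_of_le_of_nonneg (le_add_of_nonneg_right (by linarith)) (by linarith))
  by_cases hE : Early x s K1 V
  · have hG : Gd x Y s m K' K1 V := ⟨r7, ⟨hE, r5⟩, r6⟩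
    have := h.main (anc_suf (j - K - 1) R) hG hbad
    rw [← hV, hl] at this
    rwa [hb, if_pos ⟨r1, r2⟩, bb', if_pos hG,
      show indR (ENNReal.ofReal (n / 2) ≤ nB (sh x (-s))) = 1 by
        simp [indR, h.gate hG hBd hN hbad], one_mul]
  · rw [hb, if_pos ⟨r1, r2⟩, bb', if_neg fun hG => hE hG.2.1.1,
      show indR (ENNReal.ofReal (n / 2) ≤ nB (sh x (-s))) = 0 by
        simp only [indR, h.nogate r7 hE hbad, if_false]]
    simpa using p1

end MT1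

end

end Pool.Agent.Lib.APPS
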