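import Pool.Agent.Lib.APPS.B_MT1b

/-!
Localisation of the large scale functional: the deterministic comparison.
-/

namespace Pool.Agent.Lib.APPS

open MeasureTheory ProbabilityTheory Filter Topology Set Metric
open scoped NNReal ENNReal CompactlySupported RealInnerProductSpace Classical

noncomputable section

namespace MT1

variable {tf : ℕ → C_c(Cyl, ℝ)} {G : (ℕ → ℝ) → ℝ} {χ : ℝ → ℝ} {k0 K K1 i0 l : ℕ}
  {n s δ m K' C B γ : ℝ} {x Y : Dy → ℝ} {Bd : Dy → Prop}

theorem Hy.row (h : Hy tf G χ k0 K K1 i0 l n s δ m K' C B γ x Y Bd) (hPHI : St_PHI)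
    (hN : 3 / 4 * n ≤ (tr x).card) {R : Dy} (hR : R ∈ tr x) :
    |indR (ENNReal.ofReal (n / 2) ≤ nB (sh x (-s))) * (χ ((tr x).card / n) / ((tr x).card / n) *
        ∑' j : ℕ, sR tf (tr x) R j 0 * G (sR tf (tr x) R j)) -
      ∑ i ∈ Finset.range (R.length + 1), bb' tf G χ k0 K K1 n s m K' x Y (anc i R) R| ≤
      indR ((tr x).card / n ≤ B) * (C * (1 / 2) ^ k0 * B + (C + 2) * δ + C * B * (290 * δ) * B +
        (C + 2) * B * indR (ENNReal.ofReal (δ * n) ≤ NN x R)) +
      2 * ∑ j ∈ Finset.range (R.length + K + 2),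
        min 1 (cnt x R j / n) * indR (¬RegD x Y m n δ K K' K1 R j) +
      2 * ∑ i ∈ Finset.range (R.length + 1), indR (Bd (anc i R) ∧ i0 + 2 ≤ (anc i R).length) := by
  have hn : 0 < n := by linarith [h.hn]
  have hN0 : (0 : ℝ) < (tr x).card := by linarith
  obtain ⟨J0, hJ0⟩ := ((hPHI.2.2.2.2.2.2.2 tf h.tf).1 (tr x) R hR).2.1
  set J := max J0 (R.length + K + 2) with hJ
  have hJ1 : R.length + K + 2 ≤ J := le_max_right _ _
  set g := indR (ENNReal.ofReal (n / 2) ≤ nB (sh x (-s))) with hg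
  set τ : ℝ := (tr x).card / n with hτ
  set I := indR (τ ≤ B) with hI
  set E := (tr x).erase R with hE
  have hgb : 0 ≤ g ∧ g ≤ 1 := indR_bd _
  have hp := fun 𝒜 j => div_nonneg (SS_nonneg (fun w => (hat_bd h.cy w).1) 𝒜 R j) hn.le
  have e1 : ∀ j k, sR tf (tr x) R j k = SS (tf k) E R j / n / τ := fun j k => by
    simp only [sR, SS, hz, hτ, hE]; field_simp
  have h1 : ∀ j, |g * (χ τ / τ * (sR tf (tr x) R j 0 * G (sR tf (tr x) R j))) -
      g * aT tf G χ k0 n (tr x) R j| ≤ I * (C * (1 / 2) ^ k0 * (SS hat0 E R j / n)) := by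
    intro j
    by_cases hB : τ ≤ B
    · have h2 := h.th5 τ (fun k => SS (tf k) E R j / n) (by rw [h.tf0]; exact hp _ _)
      rw [← mul_sub, abs_mul, abs_of_nonneg hgb.1, abs_sub_comm, funext (e1 j), ← mul_assoc,
        show I = 1 by simp [hI, indR, hB], one_mul, ← h.tf0]
      exact (mul_le_of_le_one_left (abs_nonneg _) hgb.2).trans h2
    · have h3 : χ τ = 0 := by
        by_contra h3
        linarith [(h.chi _ h3).2]
      simp [aT, ← hτ, Th_zero h3, h3, hI, indR, hB]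
  rw [tsum_eq_sum (s := Finset.range J) fun j hj => by
      rw [hJ0 j (le_trans (le_max_left _ _) (not_lt.1 fun h => hj (Finset.mem_range.2 h))),
        zero_mul],
    ← shift_sum K R.length J hJ1 fun i => bb' tf G χ k0 K K1 n s m K' x Y (anc i R) R,
    ← shift_sum K R.length J hJ1 fun i => indR (Bd (anc i R) ∧ i0 + 2 ≤ (anc i R).length),
    Finset.mul_sum, Finset.mul_sum, ← Finset.sum_sub_distrib]
  refine (Finset.abs_sum_le_sum_abs _ _).trans ((Finset.sum_le_sum fun j _ =>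
    (abs_sub_le _ (g * aT tf G χ k0 n (tr x) R j) _).trans
      (add_le_add (h1 j) (h.pair hN R j))).trans ?_)
  have e2 : ∑ j ∈ Finset.range J, (if j < R.length + K + 2 then
      min 1 (cnt x R j / n) * indR (¬RegD x Y m n δ K K' K1 R j) else 0) =
      ∑ j ∈ Finset.range (R.length + K + 2),
        min 1 (cnt x R j / n) * indR (¬RegD x Y m n δ K K' K1 R j) := by
    rw [← Finset.sum_filter]
    congr 1
    ext j
    simp only [Finset.mem_filter, Finset.mem_range]
    omega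
  simp only [Finset.sum_add_distrib, ← Finset.mul_sum, ← Finset.sum_div, e2]
  rw [← add_assoc, ← add_assoc, ← mul_add]
  refine add_le_add (add_le_add ?_ le_rfl) le_rfl
  by_cases hB : τ ≤ B
  swap
  · simp [hI, indR, hB]
  refine mul_le_mul_of_nonneg_left ?_ (indR_bd _).1
  have h3 : (∑ j ∈ Finset.range J, SS hat0 E R j) / n ≤ B :=
    (div_le_div_of_nonneg_right ((hat_sum h.g1 h.cy E R (Finset.notMem_erase _ _) J).trans
      (Nat.cast_le.2 (Finset.card_le_card (Finset.erase_subset _ _)))) hn.le).trans hB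
  have h4 : (∑ j ∈ Finset.range J, SS hat0 (Nr (tr x) R) R j) / n ≤
      δ + B * indR (ENNReal.ofReal (δ * n) ≤ NN x R) := by
    refine (div_le_div_of_nonneg_right (hat_sum h.g1 h.cy _ R
      (fun h => Finset.notMem_erase _ _ (Finset.mem_filter.1 h).1) J) hn.le).trans ?_
    by_cases h5 : ENNReal.ofReal (δ * n) ≤ NN x R
    · simp only [indR, h5, if_true, mul_one]
      refine le_add_of_nonneg_of_le h.hδ.1 (le_trans (div_le_div_of_nonneg_right
        (Nat.cast_le.2 (Finset.card_le_card ?_)) hn.le) hB)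
      exact (Finset.filter_subset _ _).trans (Finset.erase_subset _ _)
    · simp only [indR, h5, if_false, mul_zero, add_zero]
      have h6 := (Nr_card h.g2 x R).trans (not_le.1 h5).le
      rw [← ENNReal.ofReal_natCast,
        ENNReal.ofReal_le_ofReal_iff (mul_nonneg h.hδ.1 hn.le)] at h6
      rwa [div_le_iff₀ hn]
  have hC := h.hC
  have hB1 := h.hB
  have hδ := h.hδ.1
  have h5 := mul_le_mul_of_nonneg_left h3 (by positivity : 0 ≤ C * (1 / 2) ^ k0)
  have h6 := mul_le_mul_of_nonneg_left h3 (by positivity : 0 ≤ C * B * (290 * δ))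
  have h7 := mul_le_mul_of_nonneg_left h4 (by positivity : 0 ≤ C + 2)
  linarith

theorem Hy.sum (h : Hy tf G χ k0 K K1 i0 l n s δ m K' C B γ x Y Bd) (hPHI : St_PHI) :
    |n * (χ (nN x / n) * PhiG tf G (tr x) * indR (ENNReal.ofReal (n / 2) ≤ nB (sh x (-s)))) -
      ∑ V ∈ tr x, ∑ R ∈ tr (sub x V), bb' tf G χ k0 K K1 n s m K' x Y V (R ++ V)| ≤
      indR (1 / 2 * n ≤ (tr x).card) *
        ((C * (1 / 2) ^ k0 * B + (C + 2) * δ + C * B * (290 * δ) * B) * B * n) +
      (C + 2) * B * ∑ R ∈ tr x, indR (ENNReal.ofReal (δ * n) ≤ NN x R) +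
      2 * (indR (1 / 2 * n ≤ (tr x).card) * ∑ R ∈ tr x, ∑ j ∈ Finset.range (R.length + K + 2),
        min 1 (cnt x R j / n) * indR (¬RegD x Y m n δ K K' K1 R j)) +
      2 * ∑ V ∈ tr x, indR (Bd V ∧ i0 + 2 ≤ V.length) * (tr (sub x V)).card := by
  have hn : 0 < n := by linarith [h.hn]
  have hC := h.hC
  have hB1 := h.hB
  have hδ := h.hδ.1
  set ε := C * (1 / 2) ^ k0 * B + (C + 2) * δ + C * B * (290 * δ) * B with hε
  have hε0 : 0 ≤ ε := by positivity
  by_cases hN : 3 / 4 * n ≤ (tr x).card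
  swap
  · have h0 : ∀ t : ℝ, t ≤ (tr x).card → χ (t / n) = 0 := fun t ht => by
      by_contra h3
      have := (h.chi _ h3).1
      rw [le_div_iff₀ hn] at this
      exact hN (this.trans ht)
    have h1 : ∀ V R, bb' tf G χ k0 K K1 n s m K' x Y V R = 0 := fun V R => by
      unfold bb'
      split_ifs with hG
      exacts [Th_zero (h0 _ (h.tau_le hG R)) _, rfl]
    simp only [nN, h0 _ le_rfl, h1, zero_mul, mul_zero, Finset.sum_const_zero, sub_zero, abs_zero]
    refine add_nonneg (add_nonneg (add_nonneg (mul_nonneg (indR_bd _).1 (by positivity))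
      (mul_nonneg (by positivity) (Finset.sum_nonneg fun _ _ => (indR_bd _).1)))
      (mul_nonneg zero_le_two (mul_nonneg (indR_bd _).1 (Finset.sum_nonneg fun _ _ =>
        Finset.sum_nonneg fun _ _ => mul_nonneg (le_min zero_le_one
          (div_nonneg (Nat.cast_nonneg _) hn.le)) (indR_bd _).1))))
      (mul_nonneg zero_le_two (Finset.sum_nonneg fun _ _ =>
        mul_nonneg (indR_bd _).1 (Nat.cast_nonneg _)))
  have hN0 : (0 : ℝ) < (tr x).card := by linarith
  have e0 : indR (1 / 2 * n ≤ (tr x).card) = 1 := by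
    simp only [indR]; rw [if_pos (by linarith)]
  have e1 : n * (χ (nN x / n) * PhiG tf G (tr x) *
      indR (ENNReal.ofReal (n / 2) ≤ nB (sh x (-s)))) = ∑ R ∈ tr x,
        indR (ENNReal.ofReal (n / 2) ≤ nB (sh x (-s))) * (χ ((tr x).card / n) /
          ((tr x).card / n) * ∑' j : ℕ, sR tf (tr x) R j 0 * G (sR tf (tr x) R j)) := by
    rw [← Finset.mul_sum, ← Finset.mul_sum, PhiG, nN]
    field_simp
  have e2 : ∑ V ∈ tr x, indR (Bd V ∧ i0 + 2 ≤ V.length) * (tr (sub x V)).card =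
      ∑ R ∈ tr x, ∑ i ∈ Finset.range (R.length + 1),
        indR (Bd (anc i R) ∧ i0 + 2 ≤ (anc i R).length) := by
    rw [reindex h.t1 h.hx fun V _ => indR (Bd V ∧ i0 + 2 ≤ V.length)]
    simp only [Finset.sum_const, nsmul_eq_mul, mul_comm]
  rw [e0, e1, e2, ← reindex h.t1 h.hx, ← Finset.sum_sub_distrib, one_mul, one_mul]
  refine (Finset.abs_sum_le_sum_abs _ _).trans
    ((Finset.sum_le_sum fun R hR => h.row hPHI hN hR).trans ?_)
  simp only [Finset.sum_add_distrib, ← Finset.mul_sum, Finset.sum_const, nsmul_eq_mul, ← hε]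
  refine add_le_add (add_le_add ?_ le_rfl) le_rfl
  have h1 : 0 ≤ (C + 2) * B * ∑ R ∈ tr x, indR (ENNReal.ofReal (δ * n) ≤ NN x R) :=
    mul_nonneg (by positivity) (Finset.sum_nonneg fun _ _ => (indR_bd _).1)
  by_cases hB : ((tr x).card : ℝ) / n ≤ B
  · rw [show indR (((tr x).card : ℝ) / n ≤ B) = 1 by simp [indR, hB], one_mul]
    rw [div_le_iff₀ hn] at hB
    nlinarith [mul_le_mul_of_nonneg_left hB hε0]
  · rw [show indR (((tr x).card : ℝ) / n ≤ B) = 0 by simp [indR, hB], zero_mul]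
    positivity

theorem ofReal_indR (p : Prop) : ENNReal.ofReal (indR p) = ind p := by
  unfold indR ind; split_ifs <;> simp

theorem ind_le {p q : Prop} (h : p → q) : ind p ≤ ind q := by
  unfold ind; split_ifs with h1 h2 <;> simp_all

theorem Hy.enn (h : Hy tf G χ k0 K K1 i0 l n s δ m K' C B γ x Y Bd) (hPHI : St_PHI) :
    ENNReal.ofReal |n * (χ (nN x / n) * PhiG tf G (tr x) *
      indR (ENNReal.ofReal (n / 2) ≤ nB (sh x (-s)))) -
      ∑ V ∈ tr x, ∑ R ∈ tr (sub x V), bb' tf G χ k0 K K1 n s m K' x Y V (R ++ V)| ≤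
      ENNReal.ofReal ((C * (1 / 2) ^ k0 * B + (C + 2) * δ + C * B * (290 * δ) * B) * B * n) *
        ind (ENNReal.ofReal (1 / 2 * n) ≤ nB x) +
      ENNReal.ofReal ((C + 2) * B) * ∑' R, ind (0 < x R ∧ ENNReal.ofReal (δ * n) ≤ NN x R) +
      2 * ∑' V : Dy, ind (i0 + 2 ≤ V.length) * (ind (Bd V) * nB (sub x V)) +
      2 * (ind (ENNReal.ofReal (1 / 2 * n) ≤ nB x) * ∑ R ∈ tr x,
        ∑ j ∈ Finset.range (R.length + K + 2), ENNReal.ofReal (min 1 (cnt x R j / n)) *
          ind (¬RegD x Y m n δ K K' K1 R j)) := by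
  have hn : 0 < n := by linarith [h.hn]
  have hC := h.hC
  have hB1 := h.hB
  have e0 : ENNReal.ofReal (indR (1 / 2 * n ≤ (tr x).card)) =
      ind (ENNReal.ofReal (1 / 2 * n) ≤ nB x) := by
    rw [ofReal_indR, nB_eq h.t1 h.hx, ← ENNReal.ofReal_natCast,
      ENNReal.ofReal_le_ofReal_iff (Nat.cast_nonneg _)]
  have hm : ∀ R j, 0 ≤ min 1 (cnt x R j / n) := fun R j =>
    le_min zero_le_one (div_nonneg (Nat.cast_nonneg _) hn.le)
  refine (ENNReal.ofReal_le_ofReal (h.sum hPHI)).trans ?_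
  rw [add_right_comm]
  refine ENNReal.ofReal_add_le.trans (add_le_add (ENNReal.ofReal_add_le.trans (add_le_add
    (ENNReal.ofReal_add_le.trans (add_le_add ?_ ?_)) ?_)) ?_)
  · rw [ENNReal.ofReal_mul (indR_bd _).1, e0, mul_comm]
  · rw [ENNReal.ofReal_mul (by positivity), ENNReal.ofReal_sum_of_nonneg fun _ _ => (indR_bd _).1]
    refine mul_le_mul' le_rfl (le_trans (Finset.sum_le_sum fun R hR => ?_)
      (ENNReal.sum_le_tsum (tr x)))
    rw [ofReal_indR]
    exact ind_le fun h1 => ⟨tr_int hR R (List.suffix_refl _), h1⟩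
  · rw [ENNReal.ofReal_mul zero_le_two, ENNReal.ofReal_ofNat, ENNReal.ofReal_sum_of_nonneg
      fun _ _ => mul_nonneg (indR_bd _).1 (Nat.cast_nonneg _)]
    refine mul_le_mul' le_rfl (le_trans (Finset.sum_le_sum fun V _ => ?_)
      (ENNReal.sum_le_tsum (tr x)))
    rw [ENNReal.ofReal_mul (indR_bd _).1, ofReal_indR, ENNReal.ofReal_natCast, ← mul_assoc]
    refine mul_le_mul' ?_ (card_le_nB _)
    unfold ind; split_ifs <;> simp_all
  · rw [ENNReal.ofReal_mul zero_le_two, ENNReal.ofReal_ofNat, ENNReal.ofReal_mul (indR_bd _).1, e0,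
      ENNReal.ofReal_sum_of_nonneg fun _ _ => Finset.sum_nonneg fun _ _ =>
        mul_nonneg (hm _ _) (indR_bd _).1]
    refine le_of_eq ?_
    congr 2
    refine Finset.sum_congr rfl fun R _ => ?_
    rw [ENNReal.ofReal_sum_of_nonneg fun _ _ => mul_nonneg (hm _ _) (indR_bd _).1]
    exact Finset.sum_congr rfl fun j _ => by rw [ENNReal.ofReal_mul (hm _ _), ofReal_indR]

theorem nB_le_posN (x : Dy → ℝ) (V : Dy) : nB (sub x V) ≤ posN x V :=
  ENNReal.tsum_le_tsum fun S => ind_le fun h => h S (List.suffix_refl _)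

theorem Hy.loc_sum (h : Hy tf G χ k0 K K1 i0 l n s δ m K' C B γ x Y Bd) :
    ENNReal.ofReal (∑ V ∈ tr x, ∑ R ∈ tr (sub x V), bb' tf G χ k0 K K1 n s m K' x Y V (R ++ V)) ≤
      ∑' V, ind (Loc K1 V) * (ind (Early x s K1 V ∧ |Y V - m| ≤ K') *
        ENNReal.ofReal (IV tf G χ k0 K n V x)) ∧
    ∑' V, ind (Loc K1 V) * (ind (Early x s K1 V ∧ |Y V - m| ≤ K') *
        ENNReal.ofReal (IV tf G χ k0 K n V x)) ≤
      ENNReal.ofReal (∑ V ∈ tr x, ∑ R ∈ tr (sub x V), bb' tf G χ k0 K K1 n s m K' x Y V (R ++ V)) +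
      2 * ∑' V : Dy, ind (i0 + 2 ≤ V.length) * (ind (|Y V - m| ≤ K' ∧ ∃ A : Dy, K1 ≤ A.length ∧
        A.length ≤ V.length ∧ ‖ctr A - ctr V‖ ≤ 6 * side A ∧ x A ≤ 1) * posN x V) := by
  have hn : 0 < n := by linarith [h.hn]
  have hb := bL_bd h.cy h.tf h.hK hn h.th3 h.th4 x
  have e1 : ∀ V, ∑ R ∈ tr (sub x V), bb' tf G χ k0 K K1 n s m K' x Y V (R ++ V) =
      if Gd x Y s m K' K1 V then IV tf G χ k0 K n V x else 0 := fun V => by
    unfold bb'
    split_ifs
    exacts [rfl, Finset.sum_const_zero]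
  have h0 : ∀ V, 0 ≤ if Gd x Y s m K' K1 V then IV tf G χ k0 K n V x else 0 := fun V => by
    split_ifs
    exacts [Finset.sum_nonneg fun R _ => (hb V _).1, le_rfl]
  simp only [e1]
  rw [ENNReal.ofReal_sum_of_nonneg fun V _ => h0 V]
  constructor
  · refine le_trans (Finset.sum_le_sum fun V _ => ?_) (ENNReal.sum_le_tsum (tr x))
    split_ifs with hG
    · simp [ind, hG.1, hG.2.1]
    · simp
  · have e2 : ∑' V, ENNReal.ofReal (if Gd x Y s m K' K1 V then IV tf G χ k0 K n V x else 0) =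
        ∑ V ∈ tr x, ENNReal.ofReal (if Gd x Y s m K' K1 V then IV tf G χ k0 K n V x else 0) :=
      tsum_eq_sum fun V hV => by
        rw [if_neg fun hG => hV (int_tr h.t1 h.hx fun A hA => h.hs.1.trans_lt
          (anc_pos h.t1 h.g1 (by linarith [h.hs.2]) hG.1 hG.2.1.1 hG.2.2
            (self_nbr h.t1 h.g1 V) hA)), ENNReal.ofReal_zero]
    rw [← e2, ← ENNReal.tsum_mul_left, ← ENNReal.tsum_add]
    refine ENNReal.tsum_le_tsum fun V => ?_
    by_cases h1 : Loc K1 V
    swap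
    · simp [ind, h1]
    by_cases h2 : Early x s K1 V ∧ |Y V - m| ≤ K'
    swap
    · simp only [ind, h2, if_false, zero_mul, mul_zero, zero_le]
    by_cases h3 : Marg x K1 1 V
    · rw [if_pos ⟨h1, h2, h3⟩]
      refine le_add_right ?_
      simp [ind, h1, h2]
    · refine le_add_left ?_
      have h4 := (h.g1.2.2.2.2.2.2.2.2.2.2.2.2.1 K1 V h1).1
      have h5 : i0 + 2 ≤ V.length := by have := h.hi; omega
      have h6 : |Y V - m| ≤ K' ∧ ∃ A : Dy, K1 ≤ A.length ∧
          A.length ≤ V.length ∧ ‖ctr A - ctr V‖ ≤ 6 * side A ∧ x A ≤ 1 := by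
        simp only [Marg, not_forall, not_lt] at h3
        obtain ⟨A, a1, a2, a3, a4⟩ := h3
        exact ⟨h2.2, A, a1.le, a2, a3, a4⟩
      simp only [ind, h1, h2, h5, h6, if_true, and_self, one_mul]
      refine le_trans ?_ (mul_le_mul' le_rfl ((card_le_nB _).trans (nB_le_posN x V)))
      rw [← ENNReal.ofReal_natCast, ← ENNReal.ofReal_ofNat, ← ENNReal.ofReal_mul zero_le_two]
      refine ENNReal.ofReal_le_ofReal
        ((Finset.sum_le_card_nsmul _ _ 2 fun R _ => (hb V _).2.2).trans ?_)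
      rw [nsmul_eq_mul, mul_comm]

end MT1

end

end Pool.Agent.Lib.APPS
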