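import Pool.Agent.Lib.APPS.B_MT2Ld

/-!
Block MT2L: the local functional is close in mean to the lattice functional.
-/

namespace Pool.Agent.Lib.APPS

open MeasureTheory ProbabilityTheory Filter Topology Set Metric
open scoped NNReal ENNReal CompactlySupported RealInnerProductSpace Classical

noncomputable section

namespace MT2L

open GEO1

theorem osc {g : ℂ → ℝ} (hg : UniformContinuous g) (a : ℝ) {ε : ℝ} (hε : 0 < ε) :
    ∀ᶠ l : ℕ in atTop, ∀ z z', ‖z - z'‖ ≤ 2 * (a * (1 / 2 : ℝ) ^ l) → |g z - g z'| ≤ ε := by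
  obtain ⟨δ, hδ, h⟩ := Metric.uniformContinuous_iff.1 hg ε hε
  have := (((tendsto_pow_atTop_nhds_zero_of_lt_one (r := (1 / 2 : ℝ)) (by norm_num)
    (by norm_num)).const_mul a).const_mul 2).eventually_lt_const (u := δ) (by simpa using hδ)
  filter_upwards [this] with l hl z z' hz
  exact (h (a := z) (b := z') (by rw [dist_eq_norm]; linarith)).le

theorem hyp (hC : St_CYL) (hTH : St_THL) {tf : ℕ → C_c(Cyl, ℝ)} (htf : IsTF tf) {Λ : ℝ}
    {G : (ℕ → ℝ) → ℝ} {χ : ℝ → ℝ} (hΛ : 0 ≤ Λ) (hG : LipG Λ G) (hχ : Chi χ) (k0 : ℕ) {K : ℕ}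
    (hK : 2 ≤ K) : ∃ C, 0 ≤ C ∧ ∀ ε > 0, ∃ l ≥ 1, Hyp (Th G χ k0) (pb (f0 K))
      (fun k => pb (tf k)) k0 C (2 ^ (K + 1) * (1 / 2 : ℝ) ^ l) ε := by
  obtain ⟨C, β, C0, -, hTh⟩ := hTH Λ χ hΛ hχ
  obtain ⟨-, -, b1, b2, -, b3⟩ := hTh G hG k0
  obtain ⟨-, -, -, -, -, -, -, -, -, -, -, -, c1, -, c2, c3, c4, -⟩ := hC
  refine ⟨C, C0, fun ε hε => ?_⟩
  obtain ⟨h, hh⟩ := c2 K
  have u0 : UniformContinuous (pb (f0 K)) := by
    rw [← funext hh]
    exact (c1 h).2.2.1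
  have u1 := (Filter.eventually_all_finset (Finset.range (k0 + 1))).2 fun k _ =>
    osc (c1 (tf k)).2.2.1 (2 ^ (K + 1)) hε
  obtain ⟨l, h1, h2, h3⟩ := ((eventually_ge_atTop 1).and
    ((osc u0 (2 ^ (K + 1)) hε).and u1)).exists
  refine ⟨l, h1, C0, by positivity, hε.le, b1, b2, b3, fun z => ?_, fun k z => ?_, fun z => ?_, h2,
    fun k hk => h3 k (Finset.mem_range.2 (Nat.lt_succ_of_le hk))⟩
  · unfold pb
    split_ifs
    · simp
    · rw [abs_of_nonneg (c4 K _).1]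
      exact (c4 K _).2.1
  · unfold pb
    split_ifs
    · simp
    · exact htf.bd k _
  · unfold pb
    split_ifs
    · simp
    · rw [htf.zero]
      refine ⟨(c3 _).1, ?_⟩
      by_cases e : hat0 (toCyl z) = 0
      · rw [e]
        exact (c4 K _).1
      · obtain ⟨a1, a2⟩ := (c3 _).2.2 e
        have : (2 : ℝ) * l2 ≤ K * l2 := mul_le_mul_of_nonneg_right (by exact_mod_cast hK) l2_pos.le
        rw [(c4 K _).2.2.1 (abs_le.2 ⟨by linarith, by linarith [l2_pos]⟩)]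
        exact (c3 _).2.1

theorem int_sum {ι : Type*} (s : Finset ι) (f : ι → Om → ℝ≥0∞) (hf : ∀ i, Measurable (f i))
    {k r : ℝ} (hk : (s.card : ℝ) ≤ k) (hr : 0 ≤ r)
    (h : ∀ i ∈ s, ∫⁻ ω, f i ω ∂gm ≤ ENNReal.ofReal r) :
    ∫⁻ ω, ∑ i ∈ s, f i ω ∂gm ≤ ENNReal.ofReal (k * r) := by
  rw [lintegral_finsetSum _ fun i _ => hf i]
  exact sum_le _ _ hk hr h

theorem int_mul {c r : ℝ} (hc : 0 ≤ c) {f : Om → ℝ≥0∞} (h : ∫⁻ ω, f ω ∂gm ≤ ENNReal.ofReal r) :
    ∫⁻ ω, ENNReal.ofReal c * f ω ∂gm ≤ ENNReal.ofReal (c * r) := by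
  rw [lintegral_const_mul' _ _ ENNReal.ofReal_ne_top, ENNReal.ofReal_mul hc]
  exact mul_le_mul_right h _

theorem meas_loc (M : Model) (γ : ℝ) (V : Dy) (y : ℝ) : Measurable (M.locX γ V y) :=
  measurable_pi_lambda _ fun _ => (((meas_ev _).add_const _).sub_const _).sub_const _

theorem wt_nonneg {c : ℝ} (hc : 0 ≤ c) (γ : ℝ) (L l : ℕ) (y ξ : ℝ) : 0 ≤ wt γ c L l y ξ := by
  unfold wt
  positivity

theorem meas_wt (γ c : ℝ) (L l : ℕ) (y : ℝ) : Measurable (wt γ c L l y) := by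
  unfold wt
  fun_prop

end MT2L

open MT2L in
theorem blk_MT2L (hG1 : St_G1) (hG1D : St_G1D) (_ : St_G3) (hMOD : St_MOD) (hFE : St_FE)
    (_ : St_EXP1) (_ : St_GEO1) (hT1 : St_T1) (hT3 : St_T3) (hRW : St_RW1) (hMB : St_MB)
    (_ : St_MBM) (hR : St_R) (hLLN : St_LLN) (hC : St_CYL) (_ : St_PHI) (hTH : St_THL) :
    St_MT2L := by
  intro γ hγ tf htf Λ G χ hΛ hG hχ k0 K K' η hK hη
  have := hG1.1
  obtain ⟨C, C0, hH⟩ := hyp hC hTH htf hΛ hG hχ k0 hK
  obtain ⟨q, hq, hmom⟩ := mom hMOD hT1 hMB hγ K'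
  obtain ⟨K0, hK0⟩ := hmom 0
  obtain ⟨p, hp, hui⟩ := ui hq K0 (η := η / 5 / 64) (by positivity)
  obtain ⟨b, hb, hti⟩ := tight (zero_lt_one.trans hq) K0 (p := p / 32) (by positivity)
  obtain ⟨C2, hC2, C20⟩ : ∃ C2, (2 + 2 * C) * (3 + 2 * (16 * b)) ^ 3 = C2 ∧ 0 < C2 :=
    ⟨_, rfl, by positivity⟩
  obtain ⟨l1, hl1, H⟩ := hH (η / 5 / (C2 * 3 * (16 * b + 1))) (by positivity)
  obtain ⟨K1, hK1⟩ := hmom l1
  obtain ⟨p', hp', hui'⟩ := ui hq K1 (η := η / 5 / (32 * 4 ^ l1)) (by positivity)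
  obtain ⟨L0, hL0⟩ := lln hMOD hFE hT1 hRW hLLN hγ K' hl1
    (η := η / 5 / ((C2 + 2 + 4 * (16 * b)) * 16 * 4 ^ l1)) (by positivity)
  refine ⟨L0, fun L hL => ?_⟩
  obtain ⟨l0, hl0, hl01, hl⟩ := hL0 L hL
  refine ⟨l0, hl0, fun l hl' => ?_⟩
  have t1 := ((tendsto_const_nhds (x := (((Finset.range l1).biUnion lev).card : ℝ))).div_atTop
    (tendsto_id (α := ℝ))).const_mul (C2 * 16)
  filter_upwards [hl l hl', low hG1D hMOD hT1 hγ.1 K' l1 (p := min (p / 2) p') (by positivity),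
    eventually_gt_atTop 0, t1.eventually_le_const (u := η / 5) (by simpa using hη)]
    with n h1 h2 hn h3 M V J _ hV y hy
  replace h1 := h1 M V y hy
  replace h2 := h2 M V y hy
  have hcard : ((lev l1).card : ℝ) ≤ 4 ^ l1 := by
    rw [hT1.2.1]
    push_cast
    rfl
  set x := M.locX γ V (lvl γ n + y) with hx
  have mx : Measurable x := meas_loc _ _ _ _
  have ms : ∀ W, Measurable fun ω => sub (x ω) W := fun W => (hT3.2.2.2.2.1 W).comp mx
  have ma : ∀ W, Measurable fun ω => nB (sub (x ω) W) / ENNReal.ofReal n := fun W =>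
    (hT3.1.comp (ms W)).div_const _
  set E2 := ⋃ U ∈ nbr V, ⋃ B ∈ (Finset.range (l1 + 1)).biUnion lev, {ω | x ω (B ++ U) ≤ 0}
    with hE2
  have m2 : MeasurableSet E2 := Finset.measurableSet_biUnion _ fun U _ =>
    Finset.measurableSet_biUnion _ fun B _ =>
      measurableSet_le ((measurable_pi_apply _).comp mx) measurable_const
  set E1 := E2 ∪ ⋃ U ∈ nbr V, {ω | ENNReal.ofReal b < nB (sub (x ω) U) / ENNReal.ofReal n}
    with hE1
  have m1 : MeasurableSet E1 := m2.union (Finset.measurableSet_biUnion _ fun U _ =>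
    measurableSet_lt measurable_const (ma U))
  have p1 : gm E1 ≤ ENNReal.ofReal p := by
    refine (measure_union_le _ _).trans ((add_le_add (h2.trans
      (ENNReal.ofReal_le_ofReal (min_le_left _ _))) ((measure_biUnion_finset_le _ _).trans
      (sum_le _ _ (card_nbr hT1 V) (r := p / 32) (by positivity) fun U hU =>
        hti _ (ma U) (hK0 n hn M V U hU [] rfl y hy)))).trans_eq ?_)
    rw [← ENNReal.ofReal_add (by positivity) (by positivity)]
    congr 1
    ring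
  have p2 : gm E2 ≤ ENNReal.ofReal p' := h2.trans (ENNReal.ofReal_le_ofReal (min_le_right _ _))
  set w : Om → Dy → Dy → ℝ := fun ω U S => wt γ (cc γ one) L l y (ω (M.bV V L l (ix V U S)))
  have md : ∀ U T, Measurable fun ω => ENNReal.ofReal
      |SR one (sub (x ω) (T ++ U)) [] / n - cu (fun _ => lev l) (w ω) U T| := fun U T => by
    refine ENNReal.measurable_ofReal.comp (continuous_abs.measurable.comp (Measurable.sub
      (((hT3.2.2.2.2.2.2.2.1 one [] measurable_const).comp (ms _)).div_const n) ?_))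
    exact Finset.measurable_sum _ fun S _ => (meas_wt _ _ _ _ _).comp (meas_ev _)
  have i2 : ∫⁻ ω, ENNReal.ofReal ((C2 + 2 + 4 * (16 * b)) * ∑ U ∈ nbr V, ∑ T ∈ lev l1,
      |SR one (sub (x ω) (T ++ U)) [] / n - cu (fun _ => lev l) (w ω) U T|) ∂gm ≤
      ENNReal.ofReal (η / 5) := by
    have c0 : 0 < C2 + 2 + 4 * (16 * b) := by linarith
    have := int_mul c0.le (int_sum (nbr V) _ (fun U => Finset.measurable_sum _ fun T _ => md U T)
      (card_nbr hT1 V) (by positivity) fun U hU => int_sum (lev l1) _ (md U) hcard (by positivity)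
        (h1 U hU))
    refine le_trans (le_of_eq (lintegral_congr fun ω => ?_)) (this.trans_eq ?_)
    · rw [ENNReal.ofReal_mul c0.le, ENNReal.ofReal_sum_of_nonneg fun _ _ =>
        Finset.sum_nonneg fun _ _ => abs_nonneg _]
      congr 1
      exact Finset.sum_congr rfl fun U _ => ENNReal.ofReal_sum_of_nonneg fun _ _ => abs_nonneg _
    · congr 1
      field_simp
  have i3 : ∫⁻ ω, ind (ω ∈ E1) * (4 * ∑ U ∈ nbr V, nB (sub (x ω) U) / ENNReal.ofReal n) ∂gm ≤
      ENNReal.ofReal (η / 5) := by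
    have := int_mul (c := 4) (by norm_num) (int_sum (nbr V) _
      (fun U => (meas_ind m1).mul (ma U)) (card_nbr hT1 V) (by positivity) fun U hU =>
        hui _ E1 m1 (hK0 n hn M V U hU [] rfl y hy) p1)
    refine le_trans (le_of_eq (lintegral_congr fun ω => ?_)) (this.trans_eq ?_)
    · simp only [Pi.mul_apply, ← Finset.mul_sum]
      rw [ENNReal.ofReal_ofNat, mul_left_comm]
    · congr 1
      ring
  have i4 : ∫⁻ ω, ind (ω ∈ E2) * (2 * ∑ U ∈ nbr V, ∑ T ∈ lev l1,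
      nB (sub (x ω) (T ++ U)) / ENNReal.ofReal n) ∂gm ≤ ENNReal.ofReal (η / 5) := by
    have := int_mul (c := 2) (by norm_num) (int_sum (nbr V) _
      (fun U => Finset.measurable_sum _ fun T _ => (meas_ind m2).mul (ma (T ++ U)))
      (card_nbr hT1 V) (by positivity) fun U hU => int_sum (lev l1) _
        (fun T => (meas_ind m2).mul (ma (T ++ U))) hcard (by positivity) fun T hT =>
          hui' _ E2 m2 (hK1 n hn M V U hU T ((hT1.1 _ _).1 hT) y hy) p2)
    refine le_trans (le_of_eq (lintegral_congr fun ω => ?_)) (this.trans_eq ?_)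
    · simp only [Pi.mul_apply, ← Finset.mul_sum]
      rw [ENNReal.ofReal_ofNat, mul_left_comm]
    · congr 1
      field_simp
      norm_num
  have m3 : Measurable fun ω =>
      ind (ω ∈ E1) * (4 * ∑ U ∈ nbr V, nB (sub (x ω) U) / ENNReal.ofReal n) :=
    (meas_ind m1).mul ((Finset.measurable_sum _ fun U _ => ma U).const_mul _)
  have m4 : Measurable fun ω => ind (ω ∈ E2) * (2 * ∑ U ∈ nbr V, ∑ T ∈ lev l1,
      nB (sub (x ω) (T ++ U)) / ENNReal.ofReal n) :=
    (meas_ind m2).mul ((Finset.measurable_sum _ fun U _ =>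
      Finset.measurable_sum _ fun T _ => ma _).const_mul _)
  have key := fun ω : Om => pt (t' := fun _ => lev l) (w' := w ω) hT1 H (self_nbr hT1 V)
    (card_nbr hT1 V) (fun _ _ => wt_nonneg ((hR γ hγ).2.1 _) _ _ _ _ _) l1 (pos_close hT1 V K l1)
    (fun _ A hA => by rw [(hT1.1 _ _).1 hA]; omega) (x ω) hn hb.le (ω ∈ E1) (ω ∈ E2)
    (fun h U hU => not_lt.1 fun e => h (Or.inr (mem_iUnion₂.2 ⟨U, hU, e⟩)))
    (fun h U hU B hB => not_le.1 fun e => h (mem_iUnion₂.2 ⟨U, hU, mem_iUnion₂.2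
      ⟨B, Finset.mem_biUnion.2 ⟨_, Finset.mem_range.2 (Nat.lt_succ_of_le hB),
        (hT1.1 _ _).2 rfl⟩, e⟩⟩)) Or.inl
  simp only [iv_eq, psi_eq hT1 hV]
  refine (lintegral_mono key).trans ?_
  rw [lintegral_add_right _ m4, lintegral_add_right _ m3, lintegral_add_left measurable_const,
    lintegral_const, measure_univ, mul_one, hC2]
  refine (add_le_add (add_le_add (add_le_add (ENNReal.ofReal_le_ofReal (q := 2 * (η / 5)) ?_) i2)
    i3) i4).trans_eq ?_
  · have e : C2 * (3 * (η / 5 / (C2 * 3 * (16 * b + 1)) * (16 * b + 1))) = η / 5 := by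
      field_simp
    simp only [id] at h3
    rw [mul_add, e]
    linarith
  · rw [← ENNReal.ofReal_add (by positivity) (by positivity), ← ENNReal.ofReal_add (by positivity)
      (by positivity), ← ENNReal.ofReal_add (by positivity) (by positivity)]
    congr 1
    ring

end

end Pool.Agent.Lib.APPS
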