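import Pool.Agent.Lib.APPS.Blue4

/-!
Block MT2L, helpers: comparison of weighted point systems.
-/

namespace Pool.Agent.Lib.APPS

open MeasureTheory ProbabilityTheory Filter Topology Set Metric
open scoped NNReal ENNReal Classical

noncomputable section

namespace MT2L

/-- weighted sum seen from `z` -/
def Sg (N : Finset Dy) (t : Dy → Finset Dy) (w : Dy → Dy → ℝ) (p : Dy → Dy → ℂ) (f : ℂ → ℝ)
    (z : ℂ) : ℝ :=
  ∑ U ∈ N, ∑ A ∈ t U, w U A * f (p U A - z)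

/-- total mass -/
def ms (N : Finset Dy) (t : Dy → Finset Dy) (w : Dy → Dy → ℝ) : ℝ := ∑ U ∈ N, ∑ A ∈ t U, w U A

/-- the rooted functional -/
def Fg (Θ : ℝ → (ℕ → ℝ) → ℝ) (g : ℂ → ℝ) (f : ℕ → ℂ → ℝ) (N : Finset Dy) (V : Dy)
    (t : Dy → Finset Dy) (w : Dy → Dy → ℝ) (p : Dy → Dy → ℂ) : ℝ :=
  ∑ R ∈ t V, w V R * Θ (Sg N t w p g (p V R)) fun k => Sg N t w p (f k) (p V R)

/-- coarse masses -/
def cu (t : Dy → Finset Dy) (w : Dy → Dy → ℝ) (U T : Dy) : ℝ :=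
  ∑ A ∈ (t U).filter fun A => T <:+ A, w U A

structure Hyp (Θ : ℝ → (ℕ → ℝ) → ℝ) (g : ℂ → ℝ) (f : ℕ → ℂ → ℝ) (k0 : ℕ) (C ρ ε : ℝ) : Prop where
  C0 : 0 ≤ C
  r0 : 0 ≤ ρ
  e0 : 0 ≤ ε
  bd : ∀ τ s, 0 ≤ s 0 → 0 ≤ Θ τ s ∧ Θ τ s ≤ 2 * s 0
  bd2 : ∀ τ s, 0 ≤ s 0 → s 0 ≤ τ → Θ τ s ≤ 2
  lip : ∀ (τ τ' δ B : ℝ) (s s' : ℕ → ℝ), 0 ≤ s 0 → 0 ≤ s' 0 → 1 ≤ B → |τ - τ'| ≤ δ →
      (∀ k ≤ k0, |s k - s' k| ≤ δ ∧ |s k| ≤ B ∧ |s' k| ≤ B) →
      |Θ τ s - Θ τ' s'| ≤ C * (|s 0 - s' 0| + B * δ * min (s 0) (s' 0))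
  g1 : ∀ z, |g z| ≤ 1
  f1 : ∀ k z, |f k z| ≤ 1
  f0 : ∀ z, 0 ≤ f 0 z ∧ f 0 z ≤ g z
  gu : ∀ z z', ‖z - z'‖ ≤ 2 * ρ → |g z - g z'| ≤ ε
  fu : ∀ k ≤ k0, ∀ z z', ‖z - z'‖ ≤ 2 * ρ → |f k z - f k z'| ≤ ε

variable {Θ : ℝ → (ℕ → ℝ) → ℝ} {g : ℂ → ℝ} {f : ℕ → ℂ → ℝ} {k0 : ℕ} {C ρ ε : ℝ} {N : Finset Dy}
  {V : Dy} {t t' : Dy → Finset Dy} {w w' : Dy → Dy → ℝ} {p p' : Dy → Dy → ℂ}

theorem ms_nonneg (hw : ∀ U A, 0 ≤ w U A) : 0 ≤ ms N t w :=
  Finset.sum_nonneg fun U _ => Finset.sum_nonneg fun A _ => hw U A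

theorem ms_mono (h : ∀ U A, w U A ≤ w' U A) : ms N t w ≤ ms N t w' :=
  Finset.sum_le_sum fun U _ => Finset.sum_le_sum fun A _ => h U A

theorem ms_add : ms N t (fun U A => w U A + w' U A) = ms N t w + ms N t w' := by
  simp only [ms, Finset.sum_add_distrib]

theorem ms_root (hV : V ∈ N) (hw : ∀ U A, 0 ≤ w U A) : ∑ R ∈ t V, w V R ≤ ms N t w :=
  Finset.single_le_sum (f := fun U => ∑ A ∈ t U, w U A)
    (fun U _ => Finset.sum_nonneg fun A _ => hw U A) hV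

theorem Sg_abs (hw : ∀ U A, 0 ≤ w U A) {h : ℂ → ℝ} (h1 : ∀ z, |h z| ≤ 1) (z : ℂ) :
    |Sg N t w p h z| ≤ ms N t w := by
  refine (Finset.abs_sum_le_sum_abs _ _).trans (Finset.sum_le_sum fun U _ => ?_)
  refine (Finset.abs_sum_le_sum_abs _ _).trans (Finset.sum_le_sum fun A _ => ?_)
  rw [abs_mul, abs_of_nonneg (hw U A)]
  exact mul_le_of_le_one_right (hw U A) (h1 _)

theorem Sg_nonneg (hw : ∀ U A, 0 ≤ w U A) {h : ℂ → ℝ} (h0 : ∀ z, 0 ≤ h z) (z : ℂ) :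
    0 ≤ Sg N t w p h z :=
  Finset.sum_nonneg fun U _ => Finset.sum_nonneg fun A _ => mul_nonneg (hw U A) (h0 _)

theorem Sg_sub (hw' : ∀ U A, 0 ≤ w' U A) {h : ℂ → ℝ} (h1 : ∀ z, |h z| ≤ 1)
    (hu : ∀ z z', ‖z - z'‖ ≤ 2 * ρ → |h z - h z'| ≤ ε)
    (hp : ∀ U ∈ N, ∀ A, w' U A ≠ 0 → ‖p U A - p' U A‖ ≤ ρ) {z z' : ℂ} (hz : ‖z - z'‖ ≤ ρ) :
    |Sg N t w p h z - Sg N t w' p' h z'| ≤
      ms N t (fun U A => |w U A - w' U A|) + ε * ms N t w' := by
  simp only [Sg, ms, Finset.mul_sum, ← Finset.sum_sub_distrib, ← Finset.sum_add_distrib]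
  refine (Finset.abs_sum_le_sum_abs _ _).trans (Finset.sum_le_sum fun U hU => ?_)
  refine (Finset.abs_sum_le_sum_abs _ _).trans (Finset.sum_le_sum fun A _ => ?_)
  have e : w U A * h (p U A - z) - w' U A * h (p' U A - z') =
      (w U A - w' U A) * h (p U A - z) + w' U A * (h (p U A - z) - h (p' U A - z')) := by ring
  rw [e]
  refine (abs_add_le _ _).trans (add_le_add ?_ ?_)
  · rw [abs_mul]
    exact mul_le_of_le_one_right (abs_nonneg _) (h1 _)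
  · by_cases h0 : w' U A = 0
    · simp [h0]
    · rw [abs_mul, abs_of_nonneg (hw' U A), mul_comm]
      refine mul_le_mul_of_nonneg_right (hu _ _ ?_) (hw' U A)
      rw [show p U A - z - (p' U A - z') = (p U A - p' U A) - (z - z') by ring]
      exact (norm_sub_le _ _).trans (by linarith [hp U hU A h0])

theorem Fg_bd (H : Hyp Θ g f k0 C ρ ε) (hV : V ∈ N) (hw : ∀ U A, 0 ≤ w U A) :
    0 ≤ Fg Θ g f N V t w p ∧ Fg Θ g f N V t w p ≤ 2 * ms N t w := by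
  have h0 : ∀ z, 0 ≤ Sg N t w p (f 0) z := Sg_nonneg hw fun z => (H.f0 z).1
  refine ⟨Finset.sum_nonneg fun R _ => mul_nonneg (hw V R) (H.bd _ _ (h0 _)).1, ?_⟩
  refine le_trans ?_ (mul_le_mul_of_nonneg_left (ms_root hV hw) zero_le_two)
  rw [Finset.mul_sum]
  refine Finset.sum_le_sum fun R _ => ?_
  rw [mul_comm]
  refine mul_le_mul_of_nonneg_right (H.bd2 _ _ (h0 _) ?_) (hw V R)
  exact Finset.sum_le_sum fun U _ => Finset.sum_le_sum fun A _ =>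
    mul_le_mul_of_nonneg_left (H.f0 _).2 (hw U A)

theorem pert (H : Hyp Θ g f k0 C ρ ε) (hV : V ∈ N) (hw : ∀ U A, 0 ≤ w U A)
    (hw' : ∀ U A, 0 ≤ w' U A) (hp : ∀ U ∈ N, ∀ A, w' U A ≠ 0 → ‖p U A - p' U A‖ ≤ ρ) {B : ℝ}
    (hB : 1 + ms N t w + ms N t w' ≤ B) :
    |Fg Θ g f N V t w p - Fg Θ g f N V t w' p'| ≤
      (2 + 2 * C) * B ^ 3 * (ms N t (fun U A => |w U A - w' U A|) + ε * ms N t w') := by
  have m0 : 0 ≤ ms N t w := ms_nonneg hw
  have m0' : 0 ≤ ms N t w' := ms_nonneg hw'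
  have D0 : 0 ≤ ms N t fun U A => |w U A - w' U A| := ms_nonneg fun _ _ => abs_nonneg _
  have hC := H.C0
  have hε := H.e0
  set δ := (ms N t fun U A => |w U A - w' U A|) + ε * ms N t w' with hδ
  have δ0 : 0 ≤ δ := by positivity
  have B1 : 1 ≤ B := by linarith
  have key : ∀ R, |w V R * Θ (Sg N t w p g (p V R)) (fun k => Sg N t w p (f k) (p V R)) -
      w' V R * Θ (Sg N t w' p' g (p' V R)) fun k => Sg N t w' p' (f k) (p' V R)| ≤
      2 * B * |w V R - w' V R| + C * (δ + B * δ * B) * w' V R := by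
    intro R
    have h0 : 0 ≤ Sg N t w p (f 0) (p V R) := Sg_nonneg hw (fun z => (H.f0 z).1) _
    have h0' : 0 ≤ Sg N t w' p' (f 0) (p' V R) := Sg_nonneg hw' (fun z => (H.f0 z).1) _
    obtain ⟨a1, a2⟩ := H.bd (Sg N t w p g (p V R)) (fun k => Sg N t w p (f k) (p V R)) h0
    have a3 := (le_abs_self _).trans (Sg_abs (N := N) (t := t) (p := p) hw (H.f1 0) (p V R))
    set θ := Θ (Sg N t w p g (p V R)) fun k => Sg N t w p (f k) (p V R)
    set θ' := Θ (Sg N t w' p' g (p' V R)) fun k => Sg N t w' p' (f k) (p' V R)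
    rw [show w V R * θ - w' V R * θ' = (w V R - w' V R) * θ + w' V R * (θ - θ') by ring]
    refine (abs_add_le _ _).trans (add_le_add ?_ ?_)
    · rw [abs_mul, abs_of_nonneg a1, mul_comm]
      exact mul_le_mul_of_nonneg_right (by linarith) (abs_nonneg _)
    · by_cases e : w' V R = 0
      · simp [e]
      rw [abs_mul, abs_of_nonneg (hw' V R), mul_comm]
      refine mul_le_mul_of_nonneg_right ?_ (hw' V R)
      have hz := hp V hV R e
      refine (H.lip _ _ δ B _ _ h0 h0' B1 (Sg_sub hw' H.g1 H.gu hp hz) fun k hk =>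
        ⟨Sg_sub hw' (H.f1 k) (H.fu k hk) hp hz, (Sg_abs hw (H.f1 k) _).trans (by linarith),
          (Sg_abs hw' (H.f1 k) _).trans (by linarith)⟩).trans ?_
      refine mul_le_mul_of_nonneg_left (add_le_add
        (Sg_sub hw' (H.f1 0) (H.fu 0 (Nat.zero_le _)) hp hz) ?_) hC
      exact mul_le_mul_of_nonneg_left ((min_le_left _ _).trans (by linarith)) (by positivity)
  rw [Fg, Fg, ← Finset.sum_sub_distrib]
  refine (Finset.abs_sum_le_sum_abs _ _).trans ((Finset.sum_le_sum fun R _ => key R).trans ?_)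
  rw [Finset.sum_add_distrib, ← Finset.mul_sum, ← Finset.mul_sum]
  have b1 : ∑ R ∈ t V, |w V R - w' V R| ≤ δ :=
    (ms_root (w := fun U A => |w U A - w' U A|) hV fun _ _ => abs_nonneg _).trans
      (le_add_of_nonneg_right (by positivity))
  have b2 : ∑ R ∈ t V, w' V R ≤ B := (ms_root hV hw').trans (by linarith)
  have b3 : B ≤ B ^ 3 := le_self_pow₀ B1 (by norm_num)
  calc _ ≤ 2 * B * δ + C * (δ + B * δ * B) * B := by gcongr
    _ = (2 * B + C * (B + B ^ 3)) * δ := by ring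
    _ ≤ (2 * B ^ 3 + C * (B ^ 3 + B ^ 3)) * δ := by gcongr
    _ = _ := by ring

theorem suf_iff {l : ℕ} {T A : Dy} (hT : T.length = l) : T <:+ A ↔ l ≤ A.length ∧ anc l A = T := by
  constructor
  · rintro ⟨B, rfl⟩
    simp [anc, hT]
  · rintro ⟨-, rfl⟩
    exact List.drop_suffix _ _

theorem agg (hT1 : St_T1) (l : ℕ) (s : Finset Dy) (v h : Dy → ℝ) :
    ∑ A ∈ s, (if l ≤ A.length then v A else 0) * h (anc l A) =
      ∑ T ∈ lev l, (∑ A ∈ s.filter fun A => T <:+ A, v A) * h T := by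
  simp only [Finset.sum_filter, Finset.sum_mul]
  rw [Finset.sum_comm]
  refine Finset.sum_congr rfl fun A _ => ?_
  split_ifs with hA
  · have hm : anc l A ∈ lev l := (hT1.1 _ _).2 (by simp [anc]; omega)
    rw [Finset.sum_eq_single_of_mem _ hm, if_pos (show anc l A <:+ A from List.drop_suffix _ _)]
    intro T hT hne
    rw [if_neg fun e => hne ((suf_iff ((hT1.1 _ _).1 hT)).1 e).2.symm, zero_mul]
  · rw [zero_mul, Finset.sum_eq_zero]
    intro T hT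
    rw [if_neg fun e => hA ((suf_iff ((hT1.1 _ _).1 hT)).1 e).1, zero_mul]

theorem cu_nonneg (hw : ∀ U A, 0 ≤ w U A) (U T : Dy) : 0 ≤ cu t w U T :=
  Finset.sum_nonneg fun A _ => hw U A

theorem ms_cu (hT1 : St_T1) (l : ℕ) : ms N (fun _ => lev l) (cu t w) =
    ms N t fun U A => if l ≤ A.length then w U A else 0 := by
  refine Finset.sum_congr rfl fun U _ => ?_
  simpa only [mul_one, cu] using (agg hT1 l (t U) (w U) fun _ => 1).symm

theorem ms_cu_le (hT1 : St_T1) (l : ℕ) (hw : ∀ U A, 0 ≤ w U A) :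
    ms N (fun _ => lev l) (cu t w) ≤ ms N t w := by
  rw [ms_cu hT1]
  refine ms_mono fun U A => ?_
  split_ifs
  exacts [le_rfl, hw U A]

theorem coarse (hT1 : St_T1) (H : Hyp Θ g f k0 C ρ ε) (hV : V ∈ N) (hw : ∀ U A, 0 ≤ w U A)
    (l : ℕ) (hp : ∀ U ∈ N, ∀ A : Dy, l ≤ A.length → ‖p U A - p U (anc l A)‖ ≤ ρ) {B : ℝ}
    (hB : 1 + 2 * ms N t w ≤ B) :
    |Fg Θ g f N V t w p - Fg Θ g f N V (fun _ => lev l) (cu t w) p| ≤ (2 + 2 * C) * B ^ 3 *
      (ms N t (fun U A => if l ≤ A.length then 0 else w U A) + ε * ms N t w) := by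
  have hw' : ∀ U A : Dy, 0 ≤ if l ≤ A.length then w U A else 0 := fun U A => by
    split_ifs
    exacts [hw U A, le_rfl]
  have hm := ms_cu_le (N := N) (t := t) hT1 l hw
  rw [ms_cu hT1] at hm
  have m0 : 0 ≤ ms N t w := ms_nonneg hw
  have h := pert (t := t) (p := p) (p' := fun U A => p U (anc l A)) H hV hw hw'
    (fun U hU A h => hp U hU A (by_contra fun e => h (if_neg e))) (B := B) (by linarith)
  have eS : ∀ h z, Sg N t (fun U A => if l ≤ A.length then w U A else 0)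
      (fun U A => p U (anc l A)) h z = Sg N (fun _ => lev l) (cu t w) p h z := fun h z =>
    Finset.sum_congr rfl fun U _ => agg hT1 l (t U) (w U) fun T => h (p U T - z)
  have eF : Fg Θ g f N V t (fun U A => if l ≤ A.length then w U A else 0)
      (fun U A => p U (anc l A)) = Fg Θ g f N V (fun _ => lev l) (cu t w) p := by
    simp only [Fg, eS]
    exact agg hT1 l (t V) (w V) fun T => Θ (Sg N (fun _ => lev l) (cu t w) p g (p V T))
      fun k => Sg N (fun _ => lev l) (cu t w) p (f k) (p V T)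
  rw [eF] at h
  have hC := H.C0
  refine h.trans (mul_le_mul_of_nonneg_left (add_le_add (le_of_eq ?_)
    (mul_le_mul_of_nonneg_left hm H.e0)) (mul_nonneg (by positivity) (pow_nonneg (by linarith) _)))
  congr 1
  funext U A
  split_ifs
  · simp
  · simp [abs_of_nonneg (hw U A)]

theorem det (hT1 : St_T1) (H : Hyp Θ g f k0 C ρ ε) (hV : V ∈ N) (hw : ∀ U A, 0 ≤ w U A)
    (hw' : ∀ U A, 0 ≤ w' U A) (l : ℕ)
    (hp : ∀ U ∈ N, ∀ A : Dy, l ≤ A.length → ‖p U A - p U (anc l A)‖ ≤ ρ)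
    (ht' : ∀ U, ∀ A ∈ t' U, l ≤ A.length) {B : ℝ} (hB : ms N t w ≤ B)
    (hD : ms N (fun _ => lev l) (fun U T => |cu t w U T - cu t' w' U T|) ≤ 1) :
    |Fg Θ g f N V t w p - Fg Θ g f N V t' w' p| ≤ (2 + 2 * C) * (3 + 2 * B) ^ 3 *
      (ms N t (fun U A => if l ≤ A.length then 0 else w U A) +
        ms N (fun _ => lev l) (fun U T => |cu t w U T - cu t' w' U T|) + 3 * (ε * (B + 1))) := by
  have h1 := ms_cu_le (N := N) (t := t) hT1 l hw
  have h2 : ms N (fun _ => lev l) (cu t' w') = ms N t' w' := by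
    rw [ms_cu hT1]
    exact Finset.sum_congr rfl fun U _ => Finset.sum_congr rfl fun A hA => if_pos (ht' U A hA)
  have h3 : ms N (fun _ => lev l) (cu t' w') ≤ ms N (fun _ => lev l) (cu t w) +
      ms N (fun _ => lev l) (fun U T => |cu t w U T - cu t' w' U T|) := by
    rw [← ms_add]
    exact ms_mono fun U T => by linarith [neg_abs_le (cu t w U T - cu t' w' U T)]
  have h4 : ms N t' (fun U A => if l ≤ A.length then 0 else w' U A) = 0 :=
    Finset.sum_eq_zero fun U _ => Finset.sum_eq_zero fun A hA => if_pos (ht' U A hA)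
  have m0 : 0 ≤ ms N t w := ms_nonneg hw
  have a1 := coarse (t := t) hT1 H hV hw l hp (B := 3 + 2 * B) (by linarith)
  have a2 := coarse (t := t') hT1 H hV hw' l hp (B := 3 + 2 * B) (by linarith)
  have a3 := pert (t := fun _ => lev l) (p := p) (p' := p) H hV (cu_nonneg (t := t) hw)
    (cu_nonneg (t := t') hw') (fun U _ A _ => by simpa using H.r0) (B := 3 + 2 * B) (by linarith)
  rw [h4, zero_add] at a2
  have hC := H.C0
  have c0 : 0 ≤ (2 + 2 * C) * (3 + 2 * B) ^ 3 :=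
    mul_nonneg (by positivity) (pow_nonneg (by linarith) _)
  have e1 : ε * ms N t w ≤ ε * (B + 1) := mul_le_mul_of_nonneg_left (by linarith) H.e0
  have e2 : ε * ms N t' w' ≤ ε * (B + 1) := mul_le_mul_of_nonneg_left (by linarith) H.e0
  rw [h2] at a3
  have b1 := mul_le_mul_of_nonneg_left e1 c0
  have b2 := mul_le_mul_of_nonneg_left e2 c0
  rw [abs_le] at a1 a2 a3 ⊢
  constructor <;> nlinarith [a1.1, a1.2, a2.1, a2.2, a3.1, a3.2]

end MT2L

end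

end Pool.Agent.Lib.APPS
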