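import Pool.Agent.Lib.APPS.B_MT2La
import Pool.Agent.Lib.APPS.B_GEO1

/-!
Block MT2L, helpers: the two functionals as weighted point systems.
-/

namespace Pool.Agent.Lib.APPS

open MeasureTheory ProbabilityTheory Filter Topology Set Metric
open scoped NNReal ENNReal CompactlySupported RealInnerProductSpace Classical

noncomputable section

namespace MT2L

open GEO1

/-- rescaled centres -/
def pos (V : Dy) (K : ℕ) (U A : Dy) : ℂ := 2 ^ (V.length + K + 1) * ctr (A ++ U)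

/-- lattice index of a square relative to `V` -/
def ix (V U S : Dy) : ℤ × ℤ :=
  ((gi (S ++ U)).1 - 2 ^ S.length * (gi V).1, (gi (S ++ U)).2 - 2 ^ S.length * (gi V).2)

theorem side_app {V U : Dy} (h : U.length = V.length) (S : Dy) :
    side (S ++ U) = (1 / 2 : ℝ) ^ S.length * side V := by
  rw [side_append, side_of_len h]
  rfl

theorem ctr_ix {V U : Dy} (h : U.length = V.length) (S : Dy) : ctr (S ++ U) =
    zS V (((1 / 2 : ℝ) ^ S.length : ℝ) * (zc (ix V U S) + (1 + Complex.I) / 2)) := by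
  have e : (1 / 2 : ℝ) ^ S.length * 2 ^ S.length = 1 := by rw [← mul_pow]; norm_num
  apply Complex.ext
  · rw [ctr_re, corner_re, zS_re, corner_re, side_app h, Complex.re_ofReal_mul]
    have : (zc (ix V U S) + (1 + Complex.I) / 2).re =
        (gi (S ++ U)).1 - 2 ^ S.length * (gi V).1 + 1 / 2 := by
      simp only [zc, ix, Complex.add_re, Complex.intCast_re, Complex.mul_re, Complex.I_re,
        Complex.intCast_im, Complex.I_im, Complex.div_ofNat_re, Complex.one_re]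
      push_cast
      ring
    rw [this]
    linear_combination (side V * (gi V).1) * e
  · rw [ctr_im, corner_im, zS_im, corner_im, side_app h, Complex.im_ofReal_mul]
    have : (zc (ix V U S) + (1 + Complex.I) / 2).im =
        (gi (S ++ U)).2 - 2 ^ S.length * (gi V).2 + 1 / 2 := by
      simp only [zc, ix, Complex.add_im, Complex.intCast_re, Complex.mul_im, Complex.I_re,
        Complex.intCast_im, Complex.I_im, Complex.div_ofNat_im, Complex.one_im]
      push_cast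
      ring
    rw [this]
    linear_combination (side V * (gi V).2) * e

theorem nbr_len (hT1 : St_T1) {V U : Dy} (h : U ∈ nbr V) :
    U.length = V.length ∧ ‖ctr U - ctr V‖ ≤ 3 / 2 * side V :=
  ⟨(hT1.1 _ _).1 (Finset.mem_filter.1 h).1, (Finset.mem_filter.1 h).2⟩

theorem mem_nbr (hT1 : St_T1) {V U : Dy} : U ∈ nbr V ↔ U.length = V.length ∧
    |(gi U).1 - (gi V).1| ≤ 1 ∧ |(gi U).2 - (gi V).2| ≤ 1 := by
  have hs := side_pos V
  have e : U.length = V.length → (ctr U - ctr V).re = side V * (((gi U).1 - (gi V).1 : ℤ) : ℝ) ∧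
      (ctr U - ctr V).im = side V * (((gi U).2 - (gi V).2 : ℤ) : ℝ) := fun h => by
    rw [Complex.sub_re, Complex.sub_im, ctr_re, ctr_re, ctr_im, ctr_im, corner_re, corner_re,
      corner_im, corner_im, side_of_len h]
    push_cast
    constructor <;> ring
  have k1 : ∀ d : ℤ, |side V * (d : ℝ)| ≤ 3 / 2 * side V → |d| ≤ 1 := fun d h => by
    rw [abs_mul, abs_of_pos hs] at h
    have : ((|d| : ℤ) : ℝ) < 2 := by
      push_cast
      nlinarith
    have : |d| < 2 := by exact_mod_cast this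
    omega
  have k2 : ∀ d : ℤ, |d| ≤ 1 → |side V * (d : ℝ)| < 3 / 2 * side V := fun d h => by
    rw [abs_mul, abs_of_pos hs]
    have : |(d : ℝ)| ≤ 1 := by exact_mod_cast h
    nlinarith
  constructor
  · intro h
    obtain ⟨h1, h2⟩ := nbr_len hT1 h
    exact ⟨h1, k1 _ ((e h1).1 ▸ (Complex.abs_re_le_norm _).trans h2),
      k1 _ ((e h1).2 ▸ (Complex.abs_im_le_norm _).trans h2)⟩
  · rintro ⟨h1, h2, h3⟩
    have := anc_nbr hT1 V U h1.ge ((e h1).1 ▸ k2 _ h2) ((e h1).2 ▸ k2 _ h3)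
    simpa [anc, h1] using this

theorem self_nbr (hT1 : St_T1) (V : Dy) : V ∈ nbr V := (mem_nbr hT1).2 (by simp)

theorem card_nbr (hT1 : St_T1) (V : Dy) : ((nbr V).card : ℝ) ≤ 16 := by
  have := card_near hT1 V.length (ctr V) (3 / 2) (by norm_num)
  exact this.trans (by norm_num)

theorem loc_gi {K1 : ℕ} {V : Dy} (h : Loc K1 V) : (1 ≤ (gi V).1 ∧ (gi V).1 + 2 ≤ 2 ^ V.length) ∧
    1 ≤ (gi V).2 ∧ (gi V).2 + 2 ≤ 2 ^ V.length := by
  have hs := side_pos V
  have e := side_mul_pow V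
  have m : ∀ z : ℂ, ‖z‖ ≤ 4 * side V → ctr V + z ∈ box [] := fun z hz =>
    box_sub List.nil_suffix (interior_subset (h (by simpa using hz)))
  have n1 : ‖((2 * side V : ℝ) : ℂ)‖ ≤ 4 * side V := by
    rw [Complex.norm_real, Real.norm_eq_abs, abs_of_pos (by linarith)]
    linarith
  have n2 : ‖((2 * side V : ℝ) : ℂ) * Complex.I‖ ≤ 4 * side V := by
    rw [norm_mul, Complex.norm_I, mul_one]
    exact n1
  have a1 := (mem_box.1 (m _ n1)).1.2
  have a2 := (mem_box.1 (m _ (norm_neg ((2 * side V : ℝ) : ℂ) ▸ n1))).1.1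
  have a3 := (mem_box.1 (m _ n2)).2.2
  have a4 := (mem_box.1 (m _ (norm_neg (((2 * side V : ℝ) : ℂ) * Complex.I) ▸ n2))).2.1
  simp only [Complex.add_re, Complex.add_im, Complex.neg_re, Complex.neg_im, Complex.ofReal_re,
    Complex.mul_im, Complex.I_im, Complex.I_re, Complex.ofReal_im, ctr_re, ctr_im, corner_re,
    corner_im, side_nil, gi, mul_one, mul_zero, add_zero, Int.cast_zero,
    zero_add] at a1 a2 a3 a4
  have b1 : (1 : ℝ) ≤ (gi V).1 := by nlinarith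
  have b2 : ((gi V).1 : ℝ) + 2 ≤ 2 ^ V.length := by nlinarith
  have b3 : (1 : ℝ) ≤ (gi V).2 := by nlinarith
  have b4 : ((gi V).2 : ℝ) + 2 ≤ 2 ^ V.length := by nlinarith
  exact ⟨⟨by exact_mod_cast b1, by exact_mod_cast b2⟩, by exact_mod_cast b3, by exact_mod_cast b4⟩

theorem int1 {P a b s : ℤ} (hP : 0 < P) (hs : 0 ≤ s ∧ s < P) :
    (-P ≤ P * a + s - P * b ∧ P * a + s - P * b < P * 2) ↔ |a - b| ≤ 1 := by
  rw [abs_le]
  constructor
  · rintro ⟨h1, h2⟩
    constructor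
    · by_contra h
      have : a - b ≤ -2 := by omega
      nlinarith [hs.2]
    · by_contra h
      have : 2 ≤ a - b := by omega
      nlinarith [hs.1]
  · rintro ⟨h1, h2⟩
    constructor <;> nlinarith [hs.1, hs.2]

theorem ix_mem (hT1 : St_T1) {V U S : Dy} (h : U.length = V.length) :
    ix V U S ∈ grid S.length ↔ U ∈ nbr V := by
  have hP : (0 : ℤ) < 2 ^ S.length := by positivity
  rw [mem_nbr hT1, ← int1 hP (gi_bd S).1, ← int1 hP (gi_bd S).2]
  simp only [grid, ix, Finset.mem_product, Finset.mem_Ico, (gi_append S U).1, (gi_append S U).2,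
    pow_succ, h, true_and]

theorem sum_grid (hT1 : St_T1) {K1 : ℕ} {V : Dy} (h : Loc K1 V) (l : ℕ) (F : ℤ × ℤ → ℝ) :
    ∑ U ∈ nbr V, ∑ S ∈ lev l, F (ix V U S) = ∑ i ∈ grid l, F i := by
  rw [← Finset.sum_product']
  refine Finset.sum_nbij (fun q => ix V q.1 q.2) ?_ ?_ ?_ fun _ _ => rfl
  · rintro ⟨U, S⟩ hq
    obtain ⟨hU, hS⟩ := Finset.mem_product.1 hq
    rw [← (hT1.1 _ _).1 hS]
    exact (ix_mem hT1 (nbr_len hT1 hU).1).2 hU
  · rintro ⟨U, S⟩ hq ⟨U', S'⟩ hq' e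
    obtain ⟨hU, hS⟩ := Finset.mem_product.1 hq
    obtain ⟨hU', hS'⟩ := Finset.mem_product.1 hq'
    have a1 := (hT1.1 _ _).1 hS
    have a2 := (hT1.1 _ _).1 hS'
    have a3 := (nbr_len hT1 hU).1
    have a4 := (nbr_len hT1 hU').1
    dsimp only at a1 a2 a3 a4
    simp only [ix, Prod.mk.injEq, a1, a2, sub_left_inj] at e
    have := gi_inj (S ++ U) (S' ++ U') (by simp [a1, a2, a3, a4]) (Prod.ext e.1 e.2)
    obtain ⟨rfl, rfl⟩ := List.append_inj this (a1.trans a2.symm)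
    rfl
  · intro i hi
    have hP : (0 : ℤ) < 2 ^ l := by positivity
    obtain ⟨⟨b1, b2⟩, b3, b4⟩ := loc_gi h
    have hi' := hi
    simp only [grid, Finset.coe_product, Set.mem_prod, Finset.mem_coe, Finset.mem_Ico,
      pow_succ] at hi'
    obtain ⟨⟨c1, c2⟩, c3, c4⟩ := hi'
    obtain ⟨W, hW, e⟩ := gi_surj (l + V.length) (i.1 + 2 ^ l * (gi V).1, i.2 + 2 ^ l * (gi V).2)
      (mem_gin.2 (by
        rw [pow_add]
        refine ⟨⟨?_, ?_⟩, ?_, ?_⟩ <;> dsimp only <;> nlinarith))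
    have a1 : (W.take l).length = l := by simp [hW]
    have a2 : (W.drop l).length = V.length := by simp [hW]
    have e2 : ix V (W.drop l) (W.take l) = i := by
      simp [ix, a1, e]
    refine ⟨(W.drop l, W.take l), Finset.mem_coe.2 (Finset.mem_product.2
      ⟨(ix_mem hT1 (S := W.take l) a2).1 ?_, (hT1.1 _ _).2 a1⟩), e2⟩
    rw [e2, a1]
    exact hi

theorem sum_gin (hT1 : St_T1) (V : Dy) (l : ℕ) (F : ℤ × ℤ → ℝ) :
    ∑ S ∈ lev l, F (ix V V S) = ∑ i ∈ gin l, F i := by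
  have e : ∀ S, ix V V S = gi S := fun S => by
    simp [ix, (gi_append S V).1, (gi_append S V).2]
  simp only [e]
  refine Finset.sum_nbij gi (fun S hS => ?_) (fun S hS S' hS' => gi_inj S S' ?_) (fun i hi => ?_)
    fun _ _ => rfl
  · rw [← (hT1.1 _ _).1 hS]
    exact mem_gin.2 (gi_bd S)
  · exact ((hT1.1 _ _).1 hS).trans ((hT1.1 _ _).1 hS').symm
  · obtain ⟨S, h1, h2⟩ := gi_surj l i hi
    exact ⟨S, (hT1.1 _ _).2 h1, h2⟩

theorem zc_inj {i j : ℤ × ℤ} (e : zc i = zc j) : i = j := by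
  have a1 := congrArg Complex.re e
  have a2 := congrArg Complex.im e
  simp only [zc, Complex.add_re, Complex.intCast_re, Complex.mul_re, Complex.I_re, mul_zero,
    Complex.intCast_im, Complex.I_im, mul_one, sub_self, add_zero, Int.cast_inj, Complex.add_im,
    Complex.mul_im, zero_add] at a1 a2
  exact Prod.ext a1 a2

theorem gsum_eq (hT1 : St_T1) {K1 : ℕ} {V : Dy} (h : Loc K1 V) (γ c : ℝ) (K L l : ℕ) (y : ℝ)
    (ξ : ℤ × ℤ → ℝ) {R : Dy} (hR : R ∈ lev l) (f : Cyl → ℝ) :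
    gsum γ c K L l y ξ (ix V V R) f = Sg (nbr V) (fun _ => lev l)
      (fun U S => wt γ c L l y (ξ (ix V U S))) (pos V K) (pb f) (pos V K V R) := by
  have e : gsum γ c K L l y ξ (ix V V R) f = ∑ i ∈ grid l, wt γ c L l y (ξ i) *
      pb f (((2 ^ (K + 1) * (1 / 2 : ℝ) ^ l : ℝ) : ℂ) * (zc i - zc (ix V V R))) := by
    rw [gsum, ← Finset.sum_erase (grid l) (a := ix V V R) (by simp [pb])]
    refine Finset.sum_congr rfl fun i hi => ?_
    rw [pb, if_neg (mul_ne_zero (Complex.ofReal_ne_zero.2 (by positivity))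
      (sub_ne_zero.2 fun e => Finset.ne_of_mem_erase hi (zc_inj e)))]
  rw [e, ← sum_grid hT1 h]
  refine Finset.sum_congr rfl fun U hU => Finset.sum_congr rfl fun S hS => ?_
  congr 2
  have e2 : (side V : ℂ) * 2 ^ V.length = 1 := by exact_mod_cast side_mul_pow V
  rw [pos, pos, ctr_ix (nbr_len hT1 hU).1, ctr_ix rfl, (hT1.1 _ _).1 hS, (hT1.1 _ _).1 hR, zS, zS]
  push_cast
  linear_combination (-(2 ^ (K + 1) * (1 / 2 : ℂ) ^ l * (zc (ix V U S) - zc (ix V V R)))) * e2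

theorem psi_eq (hT1 : St_T1) {K1 : ℕ} {V : Dy} (h : Loc K1 V) (γ c : ℝ) (tf : ℕ → C_c(Cyl, ℝ))
    (G : (ℕ → ℝ) → ℝ) (χ : ℝ → ℝ) (k0 K L l : ℕ) (y : ℝ) (ξ : ℤ × ℤ → ℝ) :
    Psi γ c tf G χ k0 K L l y ξ = Fg (Th G χ k0) (pb (f0 K)) (fun k => pb (tf k)) (nbr V) V
      (fun _ => lev l) (fun U S => wt γ c L l y (ξ (ix V U S))) (pos V K) := by
  rw [Psi, ← sum_gin hT1 V]
  refine Finset.sum_congr rfl fun R hR => ?_
  simp only [gsum_eq hT1 h γ c K L l y ξ hR]

theorem locS_eq (x : Dy → ℝ) (V R : Dy) (K : ℕ) (n : ℝ) (f : Cyl → ℝ) :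
    locS x V (R ++ V) K f / n = Sg (nbr V) (fun U => tr (sub x U)) (fun _ _ => 1 / n) (pos V K)
      (pb f) (pos V K V R) := by
  simp only [locS, Sg, Finset.sum_div]
  refine Finset.sum_congr rfl fun U _ => Finset.sum_congr rfl fun A _ => ?_
  rw [pos, pos, ← mul_sub, pb]
  by_cases e : A ++ U = R ++ V
  · simp [e]
  · rw [if_neg e, if_neg (mul_ne_zero (pow_ne_zero _ two_ne_zero)
      (sub_ne_zero.2 fun h => e (ctr_inj h)))]
    ring

theorem iv_eq (tf : ℕ → C_c(Cyl, ℝ)) (G : (ℕ → ℝ) → ℝ) (χ : ℝ → ℝ) (k0 K : ℕ) (n : ℝ) (V : Dy)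
    (x : Dy → ℝ) : IV tf G χ k0 K n V x / n = Fg (Th G χ k0) (pb (f0 K)) (fun k => pb (tf k))
      (nbr V) V (fun U => tr (sub x U)) (fun _ _ => 1 / n) (pos V K) := by
  simp only [IV, Fg, locS_eq, Finset.sum_div]
  exact Finset.sum_congr rfl fun R _ => by ring

theorem pos_close (hT1 : St_T1) (V : Dy) (K l : ℕ) : ∀ U ∈ nbr V, ∀ A : Dy, l ≤ A.length →
    ‖pos V K U A - pos V K U (anc l A)‖ ≤ 2 ^ (K + 1) * (1 / 2 : ℝ) ^ l := by
  intro U hU A hA
  have h1 : anc l A ++ U <:+ A ++ U := by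
    obtain ⟨B, hB⟩ := anc_suffix l A
    exact ⟨B, by rw [← List.append_assoc, hB]⟩
  have h2 := box_dist _ _ (box_sub h1 (ctr_mem _))
  rw [side_app (nbr_len hT1 hU).1, anc_len, min_eq_left hA] at h2
  have e := side_mul_pow V
  rw [pos, pos, ← mul_sub, norm_mul, norm_pow, Complex.norm_ofNat]
  calc _ ≤ (2 : ℝ) ^ (V.length + K + 1) * (3 / 4 * ((1 / 2 : ℝ) ^ l * side V)) := by gcongr
    _ = 3 / 4 * (2 ^ (K + 1) * (1 / 2 : ℝ) ^ l) := by
      linear_combination (3 / 4 * (2 ^ (K + 1) * (1 / 2 : ℝ) ^ l)) * e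
    _ ≤ _ := by
      have : (0 : ℝ) ≤ 2 ^ (K + 1) * (1 / 2 : ℝ) ^ l := by positivity
      linarith

theorem cu_lev (hT1 : St_T1) (w : Dy → Dy → ℝ) (U T : Dy) (l : ℕ) :
    cu (fun _ => lev (l + T.length)) w U T = ∑ S ∈ lev l, w U (S ++ T) := by
  refine (Finset.sum_nbij (· ++ T) (fun S hS => ?_) (fun S _ S' _ e => List.append_cancel_right e)
    (fun A hA => ?_) fun _ _ => rfl).symm
  · exact Finset.mem_filter.2 ⟨(hT1.1 _ _).2 (by simp [(hT1.1 _ _).1 hS]), List.suffix_append _ _⟩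
  · obtain ⟨h1, S, rfl⟩ := Finset.mem_filter.1 hA
    exact ⟨S, (hT1.1 _ _).2 (by simpa using (hT1.1 _ _).1 h1), rfl⟩

theorem log4 : Real.log 4 = 2 * l2 := by
  rw [show (4 : ℝ) = 2 ^ 2 by norm_num, Real.log_pow, l2]
  norm_num

theorem log_side (V : Dy) : Real.log (side V) = -(V.length * l2) := by
  rw [side, Real.log_pow, one_div, Real.log_inv, l2]
  ring

theorem wt_eq {γ : ℝ} (hQ : γ * QQ γ = 2 + γ ^ 2 / 2) (c : ℝ) (L l l1 : ℕ) (y ξ : ℝ) :
    wt γ c L (l + l1) y ξ = Real.exp (γ * y - γ * QQ γ * (Real.log 4 + l1 * l2)) *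
      (c * Real.exp (γ ^ 2 * (Real.log 4 + l1 * l2) / 2) * ((1 / 4 : ℝ) ^ l *
        Real.exp (γ * ξ - γ ^ 2 * (Real.log 4 + (l + l1) * l2 - L * l2) / 2))) := by
  have e1 : ∀ k : ℕ, (1 / 4 : ℝ) ^ k = Real.exp (-(k * Real.log 4)) := fun k => by
    rw [Real.exp_neg, Real.exp_nat_mul, Real.exp_log (by norm_num), one_div, inv_pow]
  have e2 : Real.log (2 ^ L * (1 / 2 : ℝ) ^ (l + l1)) = L * l2 - (l + l1) * l2 := by
    rw [Real.log_mul (by positivity) (by positivity), Real.log_pow, Real.log_pow, one_div,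
      Real.log_inv, l2]
    push_cast
    ring
  rw [wt, Real.rpow_def_of_pos (by norm_num), Real.rpow_def_of_pos (by positivity), e1, e1, e2,
    log4, mul_left_comm _ (c * _), mul_assoc c, mul_assoc c, mul_assoc c, mul_assoc c, mul_assoc c]
  simp only [← Real.exp_add]
  congr 2
  push_cast
  linear_combination (l1 * l2) * hQ

end MT2L

end

end Pool.Agent.Lib.APPS
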