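import Pool.Agent.Lib.APPS.B_MT2Lb

/-!
Block MT2L, helpers: pointwise bound and moment lemmas.
-/

namespace Pool.Agent.Lib.APPS

open MeasureTheory ProbabilityTheory Filter Topology Set Metric
open scoped NNReal ENNReal CompactlySupported RealInnerProductSpace Classical

noncomputable section

namespace MT2L

theorem ind_pos {p : Prop} (h : p) : ind p = 1 := by simp [ind, h]

theorem ind_neg {p : Prop} (h : ¬p) : ind p = 0 := by simp [ind, h]

theorem meas_ind {E : Set Om} (h : MeasurableSet E) : Measurable fun a => ind (a ∈ E) :=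
  Measurable.ite h measurable_const measurable_const

theorem lint_ind {E : Set Om} (h : MeasurableSet E) : ∫⁻ a, ind (a ∈ E) ∂gm = gm E := by
  rw [← lintegral_indicator_one h]
  refine lintegral_congr fun a => ?_
  by_cases hp : a ∈ E <;> simp [ind, hp]

theorem one_le_pow' {b r : ℝ} (hb : 0 < b) (hr : 0 ≤ r) {a : ℝ≥0∞} (h : ENNReal.ofReal b ≤ a) :
    1 ≤ ENNReal.ofReal (b ^ (-r)) * a ^ r := by
  refine le_trans (le_of_eq ?_) (mul_le_mul_right (ENNReal.rpow_le_rpow h hr) _)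
  rw [ENNReal.ofReal_rpow_of_pos hb, ← ENNReal.ofReal_mul (by positivity), ← Real.rpow_add hb]
  simp

theorem small (K : ℝ) {r η : ℝ} (hr : 0 < r) (hη : 0 < η) : ∃ b > 0, b ^ (-r) * K ≤ η := by
  have := ((tendsto_rpow_neg_atTop hr).mul_const K).eventually_le_const (u := η) (by simpa using hη)
  obtain ⟨b, h1, h2⟩ := ((eventually_gt_atTop 0).and this).exists
  exact ⟨b, h1, h2⟩

theorem tight {q : ℝ} (hq : 0 < q) (K : ℝ) {p : ℝ} (hp : 0 < p) : ∃ b > 0, ∀ a : Om → ℝ≥0∞,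
    Measurable a → ∫⁻ ω, a ω ^ q ∂gm ≤ ENNReal.ofReal K →
      gm {ω | ENNReal.ofReal b < a ω} ≤ ENNReal.ofReal p := by
  obtain ⟨b, hb, h⟩ := small K hq hp
  refine ⟨b, hb, fun a ha hK => ?_⟩
  rw [← lint_ind (measurableSet_lt measurable_const ha)]
  calc _ ≤ ∫⁻ ω, ENNReal.ofReal (b ^ (-q)) * a ω ^ q ∂gm := by
        refine lintegral_mono fun ω => ?_
        by_cases e : ω ∈ {ω | ENNReal.ofReal b < a ω}
        · rw [ind_pos e]
          exact one_le_pow' hb hq.le (le_of_lt (show ENNReal.ofReal b < a ω from e))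
        · rw [ind_neg e]
          exact zero_le
    _ ≤ ENNReal.ofReal (b ^ (-q)) * ENNReal.ofReal K := by
        rw [lintegral_const_mul' _ _ ENNReal.ofReal_ne_top]
        exact mul_le_mul_right hK _
    _ ≤ _ := by
        rw [← ENNReal.ofReal_mul (by positivity)]
        exact ENNReal.ofReal_le_ofReal h

theorem ui {q : ℝ} (hq : 1 < q) (K : ℝ) {η : ℝ} (hη : 0 < η) : ∃ p > 0, ∀ (a : Om → ℝ≥0∞)
    (E : Set Om), MeasurableSet E → ∫⁻ ω, a ω ^ q ∂gm ≤ ENNReal.ofReal K →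
      gm E ≤ ENNReal.ofReal p → ∫⁻ ω, ind (ω ∈ E) * a ω ∂gm ≤ ENNReal.ofReal η := by
  obtain ⟨b, hb, h⟩ := small K (sub_pos.2 hq) (half_pos hη)
  refine ⟨η / 2 / b, by positivity, fun a E hE hK hp => ?_⟩
  calc _ ≤ ∫⁻ ω, (ENNReal.ofReal b * ind (ω ∈ E) +
          ENNReal.ofReal (b ^ (-(q - 1))) * a ω ^ q) ∂gm := by
        refine lintegral_mono fun ω => ?_
        by_cases e : ω ∈ E
        swap
        · rw [ind_neg e, zero_mul]
          exact zero_le
        rw [ind_pos e, one_mul, mul_one]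
        rcases le_total (a ω) (ENNReal.ofReal b) with h1 | h1
        · exact h1.trans le_self_add
        · refine le_trans ?_ le_add_self
          have := mul_le_mul_left (one_le_pow' hb (sub_pos.2 hq).le h1) (a ω)
          rw [one_mul, mul_assoc] at this
          refine this.trans_eq ?_
          congr 1
          conv_rhs => rw [show q = q - 1 + 1 by ring,
            ENNReal.rpow_add_of_nonneg _ _ (sub_pos.2 hq).le zero_le_one, ENNReal.rpow_one]
    _ ≤ ENNReal.ofReal b * ENNReal.ofReal (η / 2 / b) +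
          ENNReal.ofReal (b ^ (-(q - 1))) * ENNReal.ofReal K := by
        rw [lintegral_add_left ((meas_ind hE).const_mul _),
          lintegral_const_mul' _ _ ENNReal.ofReal_ne_top,
          lintegral_const_mul' _ _ ENNReal.ofReal_ne_top, lint_ind hE]
        gcongr
    _ ≤ _ := by
        rw [← ENNReal.ofReal_mul hb.le, ← ENNReal.ofReal_mul (by positivity),
          mul_div_cancel₀ _ hb.ne']
        refine (add_le_add le_rfl (ENNReal.ofReal_le_ofReal h)).trans_eq ?_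
        rw [← ENNReal.ofReal_add (by positivity) (by positivity), add_halves]

theorem sum_le {ι : Type*} (s : Finset ι) (f : ι → ℝ≥0∞) {k r : ℝ} (hk : (s.card : ℝ) ≤ k)
    (hr : 0 ≤ r) (h : ∀ i ∈ s, f i ≤ ENNReal.ofReal r) : ∑ i ∈ s, f i ≤ ENNReal.ofReal (k * r) := by
  refine (Finset.sum_le_card_nsmul _ _ _ h).trans ?_
  rw [nsmul_eq_mul, ← ENNReal.ofReal_natCast, ← ENNReal.ofReal_mul (Nat.cast_nonneg _)]
  exact ENNReal.ofReal_le_ofReal (mul_le_mul_of_nonneg_right hk hr)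

theorem sub_sub (x : Dy → ℝ) (U T : Dy) : sub (sub x U) T = sub x (T ++ U) := by
  funext S
  simp [sub]

theorem SR_one (y : Dy → ℝ) : SR one y [] = (tr y).card := by
  simp [SR, one]

theorem card_le_nB (hT1 : St_T1) (y : Dy → ℝ) {n : ℝ} (hn : 0 < n) :
    ENNReal.ofReal ((tr y).card / n) ≤ nB y / ENNReal.ofReal n := by
  obtain ⟨-, -, -, -, -, -, -, -, -, -, -, hof, hfin, -⟩ := hT1
  rw [ENNReal.ofReal_div_of_pos hn, ENNReal.ofReal_natCast]
  refine ENNReal.div_le_div_right ?_ _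
  by_cases h : nB y = ∞
  · rw [h]
    exact le_top
  · exact (hof _ _ (hfin y h)).2.2.1.ge

theorem pt {Θ : ℝ → (ℕ → ℝ) → ℝ} {g : ℂ → ℝ} {f : ℕ → ℂ → ℝ} {k0 : ℕ} {C ρ ε : ℝ} {N : Finset Dy}
    {V : Dy} {t' : Dy → Finset Dy} {w' : Dy → Dy → ℝ} {p : Dy → Dy → ℂ} (hT1 : St_T1)
    (H : Hyp Θ g f k0 C ρ ε) (hV : V ∈ N) (hN : (N.card : ℝ) ≤ 16) (hw' : ∀ U A, 0 ≤ w' U A)
    (l : ℕ) (hp : ∀ U ∈ N, ∀ A : Dy, l ≤ A.length → ‖p U A - p U (anc l A)‖ ≤ ρ)
    (ht' : ∀ U, ∀ A ∈ t' U, l ≤ A.length) (x : Dy → ℝ) {n b : ℝ} (hn : 0 < n) (hb : 0 ≤ b)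
    (E1 E2 : Prop) (h1 : ¬E1 → ∀ U ∈ N, nB (sub x U) / ENNReal.ofReal n ≤ ENNReal.ofReal b)
    (h2 : ¬E2 → ∀ U ∈ N, ∀ B : Dy, B.length ≤ l → 0 < x (B ++ U)) (h12 : E2 → E1) :
    ENNReal.ofReal |Fg Θ g f N V (fun U => tr (sub x U)) (fun _ _ => 1 / n) p -
      Fg Θ g f N V t' w' p| ≤
      ENNReal.ofReal ((2 + 2 * C) * (3 + 2 * (16 * b)) ^ 3 *
        (16 * (((Finset.range l).biUnion lev).card / n) + 3 * (ε * (16 * b + 1)))) +
      ENNReal.ofReal (((2 + 2 * C) * (3 + 2 * (16 * b)) ^ 3 + 2 + 4 * (16 * b)) *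
        ∑ U ∈ N, ∑ T ∈ lev l, |SR one (sub x (T ++ U)) [] / n - cu t' w' U T|) +
      ind E1 * (4 * ∑ U ∈ N, nB (sub x U) / ENNReal.ofReal n) +
      ind E2 * (2 * ∑ U ∈ N, ∑ T ∈ lev l, nB (sub x (T ++ U)) / ENNReal.ofReal n) := by
  have hC := H.C0
  have hε := H.e0
  have hw : ∀ U A : Dy, 0 ≤ (fun _ _ : Dy => 1 / n) U A := fun _ _ => by positivity
  set C2 := (2 + 2 * C) * (3 + 2 * (16 * b)) ^ 3 with hC2
  have C20 : 0 ≤ C2 := by positivity
  set D := ∑ U ∈ N, ∑ T ∈ lev l, |SR one (sub x (T ++ U)) [] / n - cu t' w' U T| with hD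
  have D0 : 0 ≤ D := Finset.sum_nonneg fun _ _ => Finset.sum_nonneg fun _ _ => abs_nonneg _
  set m := ms N (fun U => tr (sub x U)) fun _ _ => 1 / n with hm
  set mt := ms N (fun _ => lev l) fun U T => SR one (sub x (T ++ U)) [] / n with hmt
  have m0 : 0 ≤ m := ms_nonneg hw
  have mt0 : 0 ≤ mt := ms_nonneg fun U T => by
    rw [SR_one]
    exact div_nonneg (Nat.cast_nonneg _) hn.le
  have em : m = ∑ U ∈ N, ((tr (sub x U)).card : ℝ) / n :=
    Finset.sum_congr rfl fun U _ => by simp [div_eq_mul_inv]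
  have hA : ENNReal.ofReal m ≤ ∑ U ∈ N, nB (sub x U) / ENNReal.ofReal n := by
    rw [em, ENNReal.ofReal_sum_of_nonneg fun _ _ => div_nonneg (Nat.cast_nonneg _) hn.le]
    exact Finset.sum_le_sum fun U _ => card_le_nB hT1 _ hn
  have hAt : ENNReal.ofReal mt ≤ ∑ U ∈ N, ∑ T ∈ lev l, nB (sub x (T ++ U)) / ENNReal.ofReal n := by
    simp only [hmt, ms, SR_one]
    rw [ENNReal.ofReal_sum_of_nonneg fun _ _ =>
      Finset.sum_nonneg fun _ _ => div_nonneg (Nat.cast_nonneg _) hn.le]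
    refine Finset.sum_le_sum fun U _ => ?_
    rw [ENNReal.ofReal_sum_of_nonneg fun _ _ => div_nonneg (Nat.cast_nonneg _) hn.le]
    exact Finset.sum_le_sum fun T _ => card_le_nB hT1 _ hn
  have hm' : ms N t' w' ≤ mt + D := by
    have h2 : ms N (fun _ => lev l) (cu t' w') = ms N t' w' := by
      rw [ms_cu hT1]
      exact Finset.sum_congr rfl fun U _ => Finset.sum_congr rfl fun A hA => if_pos (ht' U A hA)
    rw [← h2]
    refine le_of_le_of_eq (ms_mono fun U T => ?_) (ms_add (w' := fun U T =>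
      |SR one (sub x (T ++ U)) [] / n - cu t' w' U T|))
    linarith [neg_abs_le (SR one (sub x (T ++ U)) [] / n - cu t' w' U T)]
  obtain ⟨a1, a2⟩ := Fg_bd (t := fun U => tr (sub x U)) (p := p) H hV hw
  obtain ⟨a3, a4⟩ := Fg_bd (t := t') (p := p) H hV hw'
  set NB := ((((Finset.range l).biUnion lev).card : ℝ) / n) with hNB
  have NB0 : 0 ≤ NB := div_nonneg (Nat.cast_nonneg _) hn.le
  set Z := |Fg Θ g f N V (fun U => tr (sub x U)) (fun _ _ => 1 / n) p - Fg Θ g f N V t' w' p|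
  have hZ : Z ≤ 2 * m + 2 * mt + 2 * D := abs_le.2 ⟨by linarith, by linarith⟩
  have c1 : 2 * D ≤ (C2 + 2 + 4 * (16 * b)) * D := mul_le_mul_of_nonneg_right (by linarith) D0
  have o4 : ENNReal.ofReal (4 * m) ≤ 4 * ∑ U ∈ N, nB (sub x U) / ENNReal.ofReal n := by
    rw [ENNReal.ofReal_mul (by norm_num), ENNReal.ofReal_ofNat]
    exact mul_le_mul_right hA _
  by_cases e2 : E2
  · rw [ind_pos e2, ind_pos (h12 e2), one_mul, one_mul]
    calc ENNReal.ofReal Z
        ≤ ENNReal.ofReal ((C2 + 2 + 4 * (16 * b)) * D + 4 * m + 2 * mt) :=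
          ENNReal.ofReal_le_ofReal (by linarith)
      _ ≤ _ := by
          refine ENNReal.ofReal_add_le.trans (add_le_add (ENNReal.ofReal_add_le.trans
            (add_le_add le_add_self o4)) ?_)
          rw [ENNReal.ofReal_mul (by norm_num), ENNReal.ofReal_ofNat]
          exact mul_le_mul_right hAt _
  refine le_trans ?_ le_self_add
  have hcu : (∀ U ∈ N, nB (sub x U) ≠ ∞) → ∀ U ∈ N, ∀ T ∈ lev l,
      cu (fun U => tr (sub x U)) (fun _ _ => 1 / n) U T = SR one (sub x (T ++ U)) [] / n := by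
    intro hf U hU T hT
    have hI : IntN (sub x U) T := fun B hB =>
      h2 e2 U hU B (hB.length_le.trans ((hT1.1 _ _).1 hT).le)
    have := hT1.2.2.2.2.2.2.2.2.2.2.2.2.2.2.2.2.2.2.2.1 one _ T (hf U hU)
    rw [sub_sub, indR, if_pos hI, one_mul] at this
    rw [← this]
    simp [cu, SR, one, div_eq_mul_inv]
  have hmt' : (∀ U ∈ N, nB (sub x U) ≠ ∞) → mt ≤ m := fun hf =>
    le_of_eq_of_le (Finset.sum_congr rfl fun U hU => Finset.sum_congr rfl fun T hT =>
      (hcu hf U hU T hT).symm) (ms_cu_le hT1 l hw)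
  by_cases e1 : E1
  · rw [ind_pos e1, one_mul]
    by_cases hf : ∀ U ∈ N, nB (sub x U) ≠ ∞
    · have := hmt' hf
      calc ENNReal.ofReal Z ≤ ENNReal.ofReal ((C2 + 2 + 4 * (16 * b)) * D + 4 * m) :=
            ENNReal.ofReal_le_ofReal (by linarith)
        _ ≤ _ := ENNReal.ofReal_add_le.trans (add_le_add le_add_self o4)
    · push Not at hf
      obtain ⟨U, hU, hf⟩ := hf
      have : ∑ U ∈ N, nB (sub x U) / ENNReal.ofReal n = ∞ :=
        ENNReal.sum_eq_top.2 ⟨U, hU, by rw [hf, ENNReal.top_div_of_ne_top ENNReal.ofReal_ne_top]⟩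
      rw [this, ENNReal.mul_top (by norm_num), add_top]
      exact le_top
  refine le_trans ?_ le_self_add
  have hf : ∀ U ∈ N, nB (sub x U) ≠ ∞ := fun U hU e => by
    have := h1 e1 U hU
    rw [e, ENNReal.top_div_of_ne_top ENNReal.ofReal_ne_top] at this
    exact absurd this (not_le.2 ENNReal.ofReal_lt_top)
  have hmb : m ≤ 16 * b :=
    (ENNReal.ofReal_le_ofReal_iff (by linarith)).1 (hA.trans (sum_le _ _ hN hb (h1 e1)))
  have := hmt' hf
  have c0 : 0 ≤ C2 * (16 * NB + 3 * (ε * (16 * b + 1))) := by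
    clear_value C2 NB
    positivity
  have c2 : 0 ≤ (2 + 4 * (16 * b)) * D := mul_nonneg (by linarith) D0
  have c3 : 0 ≤ C2 * D := mul_nonneg C20 D0
  rw [← ENNReal.ofReal_add c0 (by linarith)]
  refine ENNReal.ofReal_le_ofReal ?_
  rcases le_total D 1 with hD1 | hD1
  · have eD : ms N (fun _ => lev l) (fun U T =>
        |cu (fun U => tr (sub x U)) (fun _ _ => 1 / n) U T - cu t' w' U T|) = D :=
      Finset.sum_congr rfl fun U hU => Finset.sum_congr rfl fun T hT => by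
        dsimp only
        rw [hcu hf U hU T hT]
    have h3 := det hT1 H hV hw hw' l hp ht' hmb (eD ▸ hD1)
    rw [eD] at h3
    have h4 : ms N (fun U => tr (sub x U)) (fun _ A => if l ≤ A.length then 0 else 1 / n) ≤
        16 * NB := by
      refine (Finset.sum_le_card_nsmul _ _ NB fun U _ => ?_).trans ?_
      · rw [Finset.sum_ite, Finset.sum_const_zero, zero_add, Finset.sum_const, nsmul_eq_mul,
          mul_one_div]
        refine div_le_div_of_nonneg_right (Nat.cast_le.2 (Finset.card_le_card fun A hA => ?_)) hn.le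
        exact Finset.mem_biUnion.2 ⟨A.length, Finset.mem_range.2
          (not_le.1 (Finset.mem_filter.1 hA).2), (hT1.1 _ _).2 rfl⟩
      · rw [nsmul_eq_mul]
        exact mul_le_mul_of_nonneg_right hN NB0
    have h5 := mul_le_mul_of_nonneg_left h4 C20
    refine h3.trans ?_
    linarith
  · have h3 : 16 * b ≤ 16 * b * D := le_mul_of_one_le_right (by linarith) hD1
    linarith

end MT2L

end

end Pool.Agent.Lib.APPS
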