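import Pool.Agent.Lib.APPS.B_MT2Lc

/-!
Block MT2L, helpers: the probabilistic inputs.
-/

namespace Pool.Agent.Lib.APPS

open MeasureTheory ProbabilityTheory Filter Topology Set Metric
open scoped NNReal ENNReal CompactlySupported RealInnerProductSpace Classical

noncomputable section

namespace MT2L

open GEO1

/-- recentred square vectors -/
def vv (M : Model) (V W : Dy) : Dy → HH := fun S => M.eS (S ++ W) - M.eC (ctr V) (4 * side V)

theorem log_four (V : Dy) : Real.log (4 * side V) = Real.log 4 - V.length * l2 := by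
  rw [Real.log_mul (by norm_num) (side_pos V).ne', log_side]
  ring

theorem sub_loc (M : Model) (γ y : ℝ) {V U : Dy} (h : U.length = V.length) (T : Dy) (ω : Om) :
    sub (M.locX γ V y ω) (T ++ U) =
      XV γ (vv M V (T ++ U)) (y - QQ γ * (Real.log 4 + T.length * l2)) ω := by
  funext S
  simp only [sub, Model.locX, XV, drift, vv, log_four, List.length_append, h]
  push_cast
  ring

theorem box_near (hT1 : St_T1) {V U : Dy} (h : U ∈ nbr V) (T : Dy) {z : ℂ}
    (hz : z ∈ box (T ++ U)) : ‖z - ctr V‖ ≤ 9 / 4 * side V := by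
  obtain ⟨h1, h2⟩ := nbr_len hT1 h
  have h3 := box_dist _ _ (box_sub (List.suffix_append T U) hz)
  rw [side_of_len h1] at h3
  have := norm_add_le (z - ctr U) (ctr U - ctr V)
  rw [sub_add_sub_cancel] at this
  linarith

theorem ball_in (hT1 : St_T1) {V U : Dy} (h : U ∈ nbr V) (T : Dy) {r : ℝ} (hr : r ≤ side V) :
    closedBall (ctr (T ++ U)) r ⊆ ball (ctr V) (4 * side V) := by
  intro z hz
  have h1 := box_near hT1 h T (ctr_mem _)
  rw [mem_closedBall, dist_eq_norm] at hz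
  rw [mem_ball, dist_eq_norm]
  have := norm_add_le (z - ctr (T ++ U)) (ctr (T ++ U) - ctr V)
  rw [sub_add_sub_cancel] at this
  linarith [side_pos V]

theorem gram (hMOD : St_MOD) (hT1 : St_T1) (M : Model) {V U : Dy} (h : U ∈ nbr V) (T : Dy) :
    Gram (vv M V (T ++ U)) (covE (Real.log 4 + T.length * l2)) := by
  have hs := side_pos V
  have := (hMOD M).2.2.2.2.2.2.2.2.2.2.2.1 (ctr V) (4 * side V) (T ++ U) (by positivity)
    fun z hz => by
      rw [mem_closedBall, dist_eq_norm]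
      linarith [box_near hT1 h T hz]
  rw [log_four, List.length_append, (nbr_len hT1 h).1, Nat.cast_add, add_mul,
    show ∀ a b c : ℝ, a - b + (c + b) = a + c from fun a b c => by ring] at this
  exact this

theorem exp_lvl {γ n : ℝ} (hγ : 0 < γ) (hn : 0 < n) : Real.exp (γ * lvl γ n) = n := by
  rw [lvl, mul_div_cancel₀ _ hγ.ne', Real.exp_log hn]

theorem mom (hMOD : St_MOD) (hT1 : St_T1) (hMB : St_MB) {γ : ℝ} (hγ : γ ∈ Ioo (0 : ℝ) 2)
    (K' : ℝ) : ∃ q : ℝ, 1 < q ∧ ∀ j : ℕ, ∃ K : ℝ, ∀ n > 0, ∀ (M : Model) (V : Dy), ∀ U ∈ nbr V,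
      ∀ T : Dy, T.length = j → ∀ y, |y| ≤ K' → ∫⁻ ω, (nB (sub (M.locX γ V (lvl γ n + y) ω)
        (T ++ U)) / ENNReal.ofReal n) ^ q ∂gm ≤ ENNReal.ofReal K := by
  have h0 := hγ.1
  have h1 : 1 < 4 / γ ^ 2 := by
    rw [one_lt_div (by positivity)]
    nlinarith [hγ.2]
  set q := (1 + 4 / γ ^ 2) / 2 with hq
  have q1 : 1 < q := by linarith
  obtain ⟨K, hK⟩ := hMB γ hγ q (by linarith) (by linarith)
  refine ⟨q, q1, fun j => ⟨max K 0 * Real.exp (γ * q * (K' - QQ γ * (Real.log 4 + j * l2)) +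
    γ ^ 2 * q ^ 2 * max (Real.log 4 + j * l2) 0 / 2), fun n hn M V U hU T hT y hy => ?_⟩⟩
  have h2 := hK _ _ (gram hMOD hT1 M hU T) (lvl γ n + y - QQ γ * (Real.log 4 + T.length * l2))
  have hnq : 0 < n ^ q := Real.rpow_pos_of_pos hn q
  simp only [sub_loc M γ _ (nbr_len hT1 hU).1, XV,
    ENNReal.div_rpow_of_nonneg _ _ (by linarith : 0 ≤ q), ENNReal.ofReal_rpow_of_pos hn]
  simp only [ENNReal.div_eq_inv_mul]
  rw [lintegral_const_mul' _ _ (ENNReal.inv_ne_top.2 (ENNReal.ofReal_pos.2 hnq).ne'),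
    ← ENNReal.div_eq_inv_mul]
  refine (ENNReal.div_le_div_right h2 _).trans ?_
  rw [← ENNReal.ofReal_div_of_pos hnq, hT]
  refine ENNReal.ofReal_le_ofReal ?_
  have e : n ^ q = Real.exp (γ * lvl γ n * q) := by rw [Real.exp_mul, exp_lvl h0 hn]
  rw [e, mul_div_assoc, ← Real.exp_sub]
  refine mul_le_mul (le_max_left _ _) (Real.exp_le_exp.2 ?_) (Real.exp_pos _).le (le_max_right _ _)
  have := mul_le_mul_of_nonneg_left (le_abs_self y |>.trans hy) (show 0 ≤ γ * q by positivity)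
  linarith

theorem neg1 (hG : St_G1D) (v : HH) (u : ℝ) :
    gm {ω | ω v + u ≤ 0} ≤ ENNReal.ofReal (Real.exp (-u + ‖v‖ ^ 2 / 2)) := by
  have m : MeasurableSet {ω : Om | ω v + u ≤ 0} :=
    measurableSet_le ((meas_ev v).add_const u) measurable_const
  rw [← lint_ind m]
  calc _ ≤ ∫⁻ ω, ENNReal.ofReal (Real.exp (-u)) * eE (ω (-v)) ∂gm := by
        refine lintegral_mono fun ω => ?_
        by_cases e : ω ∈ {ω : Om | ω v + u ≤ 0}
        · rw [ind_pos e, eE, ← ENNReal.ofReal_mul (Real.exp_pos _).le, ← Real.exp_add, map_neg,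
            ENNReal.one_le_ofReal]
          exact Real.one_le_exp (by linarith [show ω v + u ≤ 0 from e])
        · rw [ind_neg e]
          exact zero_le
    _ = _ := by
        rw [lintegral_const_mul' _ _ ENNReal.ofReal_ne_top, hG.1, eE,
          ← ENNReal.ofReal_mul (Real.exp_pos _).le, ← Real.exp_add, norm_neg]

theorem l2_pos : 0 < l2 := Real.log_pos one_lt_two

theorem tend_lvl {γ : ℝ} (hγ : 0 < γ) : Tendsto (lvl γ) atTop atTop :=
  Real.tendsto_log_atTop.atTop_div_const hγ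

theorem low (hG : St_G1D) (hMOD : St_MOD) (hT1 : St_T1) {γ : ℝ} (hγ : 0 < γ) (K' : ℝ) (l : ℕ)
    {p : ℝ} (hp : 0 < p) : ∀ᶠ n : ℝ in atTop, ∀ (M : Model) (V : Dy) (y : ℝ), |y| ≤ K' →
      gm (⋃ U ∈ nbr V, ⋃ B ∈ (Finset.range (l + 1)).biUnion lev,
        {ω | M.locX γ V (lvl γ n + y) ω (B ++ U) ≤ 0}) ≤ ENNReal.ofReal p := by
  have hQ : 0 ≤ QQ γ := by
    unfold QQ
    positivity
  set c : ℝ := (((Finset.range (l + 1)).biUnion lev).card : ℝ)
  set a := K' + QQ γ * (Real.log 4 + l * l2) + (Real.log 4 + l * l2 + kS [] []) / 2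
  have h1 : Tendsto (fun n => 16 * (c * Real.exp (-lvl γ n + a))) atTop (𝓝 (16 * (c * 0))) :=
    ((Real.tendsto_exp_atBot.comp ((tendsto_neg_atTop_atBot.comp (tend_lvl hγ)).atBot_add
      tendsto_const_nhds)).const_mul c).const_mul 16
  filter_upwards [h1.eventually_le_const (u := p) (by simpa using hp)] with n hn M V y hy
  refine le_trans ?_ (ENNReal.ofReal_le_ofReal hn)
  refine (measure_biUnion_finset_le _ _).trans (sum_le _ _ (card_nbr hT1 V)
    (mul_nonneg (Nat.cast_nonneg _) (Real.exp_pos _).le) fun U hU => ?_)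
  refine (measure_biUnion_finset_le _ _).trans (sum_le _ _ le_rfl (Real.exp_pos _).le
    fun B hB => ?_)
  obtain ⟨k, hk, hB⟩ := Finset.mem_biUnion.1 hB
  have hk' : (B.length : ℝ) ≤ l := by
    rw [(hT1.1 _ _).1 hB]
    exact_mod_cast Nat.lt_succ_iff.1 (Finset.mem_range.1 hk)
  have e : ∀ ω : Om, M.locX γ V (lvl γ n + y) ω (B ++ U) = ω (vv M V (B ++ U) []) +
      (lvl γ n + y - QQ γ * (Real.log 4 + B.length * l2)) := fun ω => by
    have := congrFun (sub_loc M γ (lvl γ n + y) (nbr_len hT1 hU).1 B ω) []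
    simpa [sub, XV, drift] using this
  simp only [e]
  refine (neg1 hG _ _).trans (ENNReal.ofReal_le_ofReal (Real.exp_le_exp.2 ?_))
  rw [← real_inner_self_eq_norm_sq, gram hMOD hT1 M hU B, covE]
  have h2 := mul_le_mul_of_nonneg_right hk' l2_pos.le
  have h3 := mul_le_mul_of_nonneg_left h2 hQ
  have := neg_abs_le y
  simp only [a]
  linarith

theorem lln (hMOD : St_MOD) (hFE : St_FE) (hT1 : St_T1) (hRW : St_RW1) (hLLN : St_LLN) {γ : ℝ}
    (hγ : γ ∈ Ioo (0 : ℝ) 2) (K' : ℝ) {l1 : ℕ} (hl1 : 1 ≤ l1) {η : ℝ} (hη : 0 < η) :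
    ∃ L0 : ℕ, ∀ L ≥ L0, ∃ l0 ≥ L, l1 ≤ l0 ∧ ∀ l ≥ l0, ∀ᶠ n : ℝ in atTop, ∀ (M : Model) (V : Dy)
      (y : ℝ), |y| ≤ K' → ∀ U ∈ nbr V, ∀ T ∈ lev l1, ∫⁻ ω, ENNReal.ofReal
        |SR one (sub (M.locX γ V (lvl γ n + y) ω) (T ++ U)) [] / n - cu (fun _ => lev l)
          (fun U S => wt γ (cc γ one) L l y (ω (M.bV V L l (ix V U S)))) U T| ∂gm ≤
        ENNReal.ofReal η := by
  have hQ := (hRW.2.2 γ hγ).2.2.2.2.1
  set C := Real.log 4 + l1 * l2 with hC
  set A0 := Real.exp (γ * K' - γ * QQ γ * C)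
  have hA0 : 0 < A0 := Real.exp_pos _
  obtain ⟨L0, hL0⟩ := hLLN γ hγ one ⟨measurable_const, fun _ => ⟨zero_le_one, le_rfl⟩,
    fun _ _ _ => le_rfl⟩ C (η / A0) (by positivity)
  refine ⟨L0, fun L hL => ?_⟩
  obtain ⟨l0, hl0, h⟩ := hL0 L hL
  refine ⟨l0 + l1, by omega, by omega, fun l hl => ?_⟩
  obtain ⟨l, rfl⟩ : ∃ l', l = l' + l1 := ⟨l - l1, by omega⟩
  obtain ⟨v0, h⟩ := h l (by omega)
  filter_upwards [(tend_lvl hγ.1).eventually_ge_atTop (v0 + K' + QQ γ * C), eventually_gt_atTop 0]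
    with n hn hn0 M V y hy U hU T hT
  have hT := (hT1.1 _ _).1 hT
  have hs := side_pos V
  have hU1 := (nbr_len hT1 hU).1
  obtain ⟨M', hO, hC0, -, he⟩ := (hMOD M).2.2.1 (ctr V) (4 * side V) (by positivity)
  have h1 := h (lvl γ n + y - QQ γ * C) (by linarith [neg_abs_le y]) M' (T ++ U) (by
    rw [hO]
    refine ball_in hT1 hU T ?_
    rw [side_app hU1, hT]
    have : (1 / 2 : ℝ) ^ l1 ≤ (1 / 2) ^ 1 := pow_le_pow_of_le_one (by norm_num) (by norm_num) hl1
    nlinarith) (by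
    rw [hC0, log_four, List.length_append, hU1, hT]
    push_cast
    ring)
  have e1 : (fun S => M'.eS (S ++ (T ++ U))) = vv M V (T ++ U) := by
    funext S
    have := (hFE.2.2.2.2.2.2.2.1 (S ++ (T ++ U))).1.2
    rw [Model.eS, he, probReal_univ, one_smul]
    rfl
  have e2 : ∀ S ∈ lev l, ∀ ω : Om, Wk γ (M'.eC (ctr (S ++ (T ++ U))) (2 ^ L * side (S ++ (T ++ U))))
      ω = Real.exp (γ * ω (M.bV V L (l + l1) (ix V U (S ++ T))) -
        γ ^ 2 * (Real.log 4 + (l + l1) * l2 - L * l2) / 2) := fun S hS ω => by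
    have hS : (S ++ T).length = l + l1 := by rw [List.length_append, (hT1.1 _ _).1 hS, hT]
    rw [← List.append_assoc, side_app hU1, hS, ← mul_assoc]
    have hr : 0 < 2 ^ L * (1 / 2 : ℝ) ^ (l + l1) * side V := by positivity
    have hr1 : 2 ^ L * (1 / 2 : ℝ) ^ (l + l1) * side V ≤ side V := by
      refine mul_le_of_le_one_left hs.le ?_
      rw [one_div, inv_pow, ← div_eq_mul_inv, div_le_one (by positivity)]
      exact pow_le_pow_right₀ one_le_two (by omega)
    have e3 := (hMOD M').2.2.2.2.2.2.2.2.2.2.1 _ _ _ hr le_rfl (hO ▸ ball_in hT1 hU (S ++ T) hr1)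
    rw [Wk, ← real_inner_self_eq_norm_sq, e3, hC0, log_four, Real.log_mul (by positivity) hs.ne',
      log_side, Real.log_mul (by positivity) (by positivity), Real.log_pow, Real.log_pow, one_div,
      Real.log_inv]
    have := (hFE.2.2.2.2.2.2.2.2.1 (ctr (S ++ T ++ U)) _ hr).1.2
    rw [Model.eC, he, one_div] at *
    rw [probReal_univ, one_smul, Model.bV, ctr_ix hU1, hS, one_div]
    congr 1
    simp only [l2, Model.eC]
    push_cast
    ring
  calc _ ≤ ∫⁻ ω, ENNReal.ofReal A0 * ENNReal.ofReal |Real.exp (-γ * (lvl γ n + y - QQ γ * C)) *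
        SR one (XV γ (fun S => M'.eS (S ++ (T ++ U))) (lvl γ n + y - QQ γ * C) ω) [] -
        cc γ one * Real.exp (γ ^ 2 * C / 2) * M'.Wn γ (T ++ U) L l ω| ∂gm := by
        refine lintegral_mono fun ω => ?_
        rw [← ENNReal.ofReal_mul hA0.le]
        refine ENNReal.ofReal_le_ofReal ?_
        have e4 : Real.exp (γ * y - γ * QQ γ * C) * Real.exp (-γ * (lvl γ n + y - QQ γ * C)) =
            n⁻¹ := by
          rw [← Real.exp_add, ← exp_lvl hγ.1 hn0, ← Real.exp_neg, exp_lvl hγ.1 hn0]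
          congr 1
          ring
        have e5 := cu_lev hT1 (fun U S => wt γ (cc γ one) L (l + l1) y
          (ω (M.bV V L (l + l1) (ix V U S)))) U T l
        rw [hT] at e5
        have e6 : M'.Wn γ (T ++ U) L l ω = ∑ S ∈ lev l, (1 / 4 : ℝ) ^ l *
            Real.exp (γ * ω (M.bV V L (l + l1) (ix V U (S ++ T))) -
              γ ^ 2 * (Real.log 4 + (l + l1) * l2 - L * l2) / 2) :=
          Finset.sum_congr rfl fun S hS => by rw [e2 S hS ω]
        rw [e5, sub_loc M γ _ hU1, hT, e1, e6]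
        simp only [wt_eq hQ, ← Finset.mul_sum, ← hC]
        rw [div_eq_inv_mul, ← e4, mul_assoc, ← mul_sub, abs_mul, abs_of_pos (Real.exp_pos _)]
        refine mul_le_mul_of_nonneg_right (Real.exp_le_exp.2 ?_) (abs_nonneg _)
        linarith [mul_le_mul_of_nonneg_left (le_abs_self y |>.trans hy) hγ.1.le]
    _ ≤ _ := by
        rw [lintegral_const_mul' _ _ ENNReal.ofReal_ne_top]
        refine (mul_le_mul_right h1 _).trans_eq ?_
        rw [← ENNReal.ofReal_mul hA0.le, mul_div_cancel₀ _ hA0.ne']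

end MT2L

end

end Pool.Agent.Lib.APPS
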