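import Pool.Agent.Lib.APPS.Blue4

/-!
Block MT4a, deterministic part.
-/

namespace Pool.Agent.Lib.APPS

open MeasureTheory ProbabilityTheory Filter Topology Set Metric
open scoped NNReal ENNReal CompactlySupported BoundedContinuousFunction RealInnerProductSpace
  Classical

noncomputable section

namespace MT4a

theorem l2_pos : 0 < l2 := Real.log_pos (by norm_num)

theorem exp_l2 (n : ℕ) : Real.exp (n * l2) = 2 ^ n := by
  rw [Real.exp_nat_mul, l2, Real.exp_log (by norm_num)]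

theorem exp_nl2 (n : ℕ) : Real.exp (-(n * l2)) = (1 / 2) ^ n := by
  rw [Real.exp_neg, exp_l2, one_div, inv_pow]

theorem e4 (t : ℝ) : (4 : ℝ) ^ t = Real.exp (2 * l2 * t) := by
  rw [Real.rpow_def_of_pos (by norm_num), show (4 : ℝ) = 2 ^ 2 by norm_num, Real.log_pow]
  rfl

theorem q4 (n : ℕ) : (1 / 4 : ℝ) ^ n = Real.exp (-(2 * n * l2)) := by
  rw [show -(2 * n * l2) = -(n * l2) + -(n * l2) by ring, Real.exp_add, exp_nl2, ← mul_pow]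
  norm_num

theorem rr_eq (L n : ℕ) : (2 ^ L * (1 / 2) ^ n : ℝ) = Real.exp ((L - n) * l2) := by
  rw [show ((L : ℝ) - n) * l2 = L * l2 + -(n * l2) by ring, Real.exp_add, exp_l2, exp_nl2]

theorem er (L n : ℕ) (t : ℝ) : (2 ^ L * (1 / 2) ^ n : ℝ) ^ t = Real.exp ((L - n) * l2 * t) := by
  rw [rr_eq, ← Real.exp_mul]

theorem gQ {γ : ℝ} (hγ : 0 < γ) : γ * QQ γ = 2 + γ ^ 2 / 2 := by
  unfold QQ; field_simp; ring

theorem ga {γ : ℝ} (hγ : 0 < γ) : γ * aa γ = 2 - γ ^ 2 / 2 := by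
  unfold aa QQ; field_simp; ring

theorem aa_eq {γ : ℝ} (hγ : 0 < γ) : 2 * aa γ = 4 / γ - γ := by
  unfold aa QQ; field_simp; ring

def xj (l : ℕ) (j : ℤ × ℤ) : ℂ := (((1 / 2 : ℝ) ^ l : ℝ) : ℂ) * zc j

def wj (l : ℕ) (j : ℤ × ℤ) : Cyl := toCyl (xj l j)

def JJ (K l : ℕ) : Finset (ℤ × ℤ) :=
  (Finset.Icc (-2 ^ (l + K + 1)) (2 ^ (l + K + 1)) ×ˢ
    Finset.Icc (-2 ^ (l + K + 1)) (2 ^ (l + K + 1))).filter
    fun j => j ≠ 0 ∧ |(wj l j).1| ≤ (K + 1) * l2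

theorem zc_re (j : ℤ × ℤ) : (zc j).re = j.1 := by simp [zc]
theorem zc_im (j : ℤ × ℤ) : (zc j).im = j.2 := by simp [zc]
theorem zc_add (i j : ℤ × ℤ) : zc (i + j) = zc i + zc j := by
  simp only [zc, Prod.fst_add, Prod.snd_add]; push_cast; ring

theorem zc_ne {j : ℤ × ℤ} (h : j ≠ 0) : zc j ≠ 0 := by
  intro h0
  apply h
  have h1 := zc_re j
  have h2 := zc_im j
  rw [h0] at h1 h2
  simp only [Complex.zero_re, Complex.zero_im] at h1 h2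
  ext
  · exact_mod_cast h1.symm
  · exact_mod_cast h2.symm

theorem norm_xj (l : ℕ) (j : ℤ × ℤ) : ‖xj l j‖ = (1 / 2) ^ l * ‖zc j‖ := by
  rw [xj, norm_mul, Complex.norm_real, Real.norm_of_nonneg (by positivity)]

theorem xj_pos (l : ℕ) {j : ℤ × ℤ} (h : j ≠ 0) : 0 < ‖xj l j‖ := by
  rw [norm_xj]
  exact mul_pos (by positivity) (norm_pos_iff.2 (zc_ne h))

theorem wj_fst (l : ℕ) (j : ℤ × ℤ) : (wj l j).1 = -Real.log ‖xj l j‖ := rfl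

theorem xj_bd {K l : ℕ} {j : ℤ × ℤ} (h : j ≠ 0) (hw : |(wj l j).1| ≤ (K + 1) * l2) :
    (1 / 2) ^ (K + 1) ≤ ‖xj l j‖ ∧ ‖xj l j‖ ≤ 2 ^ (K + 1) := by
  rw [wj_fst, abs_neg, abs_le] at hw
  have h0 := xj_pos l h
  constructor
  · rw [← exp_nl2, ← Real.exp_log h0]
    exact Real.exp_le_exp.2 (by push_cast; linarith [hw.1])
  · rw [← exp_l2, ← Real.exp_log h0]
    exact Real.exp_le_exp.2 (by push_cast; linarith [hw.2])

theorem zc_bd {K l : ℕ} {j : ℤ × ℤ} (h : j ≠ 0) (hw : |(wj l j).1| ≤ (K + 1) * l2) :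
    |j.1| ≤ 2 ^ (l + K + 1) ∧ |j.2| ≤ 2 ^ (l + K + 1) := by
  have h1 := (xj_bd h hw).2
  rw [norm_xj] at h1
  have h2 : ‖zc j‖ ≤ 2 ^ (l + K + 1) := by
    have h3 : (2 : ℝ) ^ l * (1 / 2) ^ l = 1 := by rw [← mul_pow]; norm_num
    calc ‖zc j‖ = 2 ^ l * ((1 / 2) ^ l * ‖zc j‖) := by rw [← mul_assoc, h3, one_mul]
      _ ≤ 2 ^ l * 2 ^ (K + 1) := by gcongr
      _ = _ := by rw [← pow_add, add_assoc]
  have h4 := (Complex.abs_re_le_norm (zc j)).trans h2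
  have h5 := (Complex.abs_im_le_norm (zc j)).trans h2
  rw [zc_re] at h4
  rw [zc_im] at h5
  exact ⟨by exact_mod_cast h4, by exact_mod_cast h5⟩

theorem mem_JJ {K l : ℕ} {j : ℤ × ℤ} : j ∈ JJ K l ↔ j ≠ 0 ∧ |(wj l j).1| ≤ (K + 1) * l2 := by
  unfold JJ
  rw [Finset.mem_filter]
  refine ⟨fun h => h.2, fun h => ⟨?_, h⟩⟩
  obtain ⟨h1, h2⟩ := zc_bd h.1 h.2
  rw [Finset.mem_product, Finset.mem_Icc, Finset.mem_Icc]
  exact ⟨abs_le.1 h1, abs_le.1 h2⟩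

theorem add_mem_grid {K l : ℕ} {i j : ℤ × ℤ} (hi : i ∈ gin (l + K + 1)) (hj : j ∈ JJ K l) :
    i + j ∈ grid (l + K + 1) := by
  rw [mem_JJ] at hj
  obtain ⟨h1, h2⟩ := zc_bd hj.1 hj.2
  rw [abs_le] at h1 h2
  simp only [gin, grid, Finset.mem_product, Finset.mem_Ico, Prod.fst_add, Prod.snd_add] at hi ⊢
  rw [pow_succ (2 : ℤ) (l + K + 1)]
  omega

theorem gin_sub {l : ℕ} {i : ℤ × ℤ} (hi : i ∈ gin l) : i ∈ grid l := by
  simp only [gin, grid, Finset.mem_product, Finset.mem_Ico] at hi ⊢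
  rw [pow_succ (2 : ℤ) l]
  have : (0 : ℤ) < 2 ^ l := by positivity
  omega

def AA (γ : ℝ) (L l : ℕ) : ℝ := (1 / 4 : ℝ) ^ l * (2 ^ L * (1 / 2 : ℝ) ^ l) ^ (γ ^ 2 / 2)

theorem AA_nonneg (γ : ℝ) (L l : ℕ) : 0 ≤ AA γ L l := by unfold AA; positivity

def WW (γ : ℝ) (K L l : ℕ) (g : Cyl → ℝ) (ζ : ℤ × ℤ → ℝ) : ℝ :=
  ∑ j ∈ JJ K l, AA γ L l * g (wj l j) * Real.exp (γ * ζ j)

def HF (γ c : ℝ) (tf : ℕ → C_c(Cyl, ℝ)) (G : (ℕ → ℝ) → ℝ) (χ : ℝ → ℝ) (k0 K L l : ℕ) (y : ℝ)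
    (ζ : ℤ × ℤ → ℝ) : ℝ :=
  Th G χ k0 (c * Real.exp (γ * y) * WW γ K L l (f0 K) ζ)
    fun k => c * Real.exp (γ * y) * WW γ K L l (tf k) ζ

theorem Th_congr (G : (ℕ → ℝ) → ℝ) (χ : ℝ → ℝ) (k0 : ℕ) (τ : ℝ) (s s' : ℕ → ℝ)
    (h : ∀ k ≤ k0, s k = s' k) : Th G χ k0 τ s = Th G χ k0 τ s' := by
  unfold Th
  rw [h 0 (Nat.zero_le _)]
  congr 2
  funext k
  split_ifs with hk
  · rw [h k hk]
  · rfl

def s0 (γ : ℝ) (l : ℕ) (j : ℤ × ℤ) : ℝ := γ * (wj l j).1 - 2 * aa γ * max (-(wj l j).1) 0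

def z0 (M : Model) (L l : ℕ) (j : ℤ × ℤ) : HH :=
  M.eC (xj l j) (2 ^ L * (1 / 2 : ℝ) ^ l) - M.eC 0 1

def Sup (K : ℕ) (g : Cyl → ℝ) : Prop := ∀ w, g w ≠ 0 → |w.1| ≤ (K + 1) * l2

theorem Wlat_eq (M : Model) (γ : ℝ) (K L l : ℕ) (g : Cyl → ℝ) (hg : Sup K g) (ω : Om) :
    M.Wlat γ L l (fun w => g w * hw γ w) ω =
      WW γ K L l g fun j => ω (z0 M L l j) + s0 γ l j := by
  unfold Model.Wlat WW
  rw [tsum_eq_sum (s := JJ K l)]
  · refine Finset.sum_congr rfl fun j hj => ?_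
    rw [if_neg (mem_JJ.1 hj).1, mul_add, Real.exp_add]
    have : hw γ (wj l j) = Real.exp (γ * s0 γ l j) := by
      unfold hw s0; congr 1; ring
    change AA γ L l * (g (wj l j) * hw γ (wj l j)) * Real.exp (γ * ω (z0 M L l j)) = _
    rw [this]; ring
  · intro j hj
    split_ifs with h0
    · rfl
    · have : g (wj l j) = 0 := by
        by_contra hne
        exact hj (mem_JJ.2 ⟨h0, hg _ hne⟩)
      change AA γ L l * (g (wj l j) * hw γ (wj l j)) * _ = _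
      rw [this]; ring

theorem scale_eq (K l : ℕ) (i j : ℤ × ℤ) :
    ((2 ^ (K + 1) * (1 / 2 : ℝ) ^ (l + K + 1) : ℝ) : ℂ) * (zc (i + j) - zc i) = xj l j := by
  have : (2 ^ (K + 1) * (1 / 2 : ℝ) ^ (l + K + 1) : ℝ) = (1 / 2) ^ l := by
    rw [add_assoc, pow_add (1 / 2 : ℝ) l, mul_left_comm, ← mul_pow]; norm_num
  rw [this, zc_add, add_sub_cancel_left, xj]

theorem gsum_eq (γ c : ℝ) (K L l : ℕ) (y : ℝ) (ξ : ℤ × ℤ → ℝ) {i : ℤ × ℤ}
    (hi : i ∈ gin (l + K + 1)) (g : Cyl → ℝ) (hg : Sup K g) :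
    gsum γ c K L (l + K + 1) y ξ i g =
      ∑ j ∈ JJ K l, wt γ c L (l + K + 1) y (ξ (i + j)) * g (wj l j) := by
  unfold gsum
  rw [← Finset.sum_subset (s₁ := (JJ K l).image fun j => i + j), Finset.sum_image]
  · refine Finset.sum_congr rfl fun j _ => ?_
    rw [scale_eq]; rfl
  · intro a _ b _ hab
    exact add_left_cancel hab
  · intro i' hi'
    rw [Finset.mem_image] at hi'
    obtain ⟨j, hj, rfl⟩ := hi'
    rw [Finset.mem_erase]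
    exact ⟨fun h => (mem_JJ.1 hj).1 (add_eq_left.1 h), add_mem_grid hi hj⟩
  · intro i' hi' hn
    obtain ⟨j, rfl⟩ : ∃ j, i' = i + j := ⟨i' - i, by abel⟩
    rw [scale_eq]
    have : g (wj l j) = 0 := by
      by_contra hne
      refine hn (Finset.mem_image.2 ⟨j, mem_JJ.2 ⟨fun h => ?_, hg _ hne⟩, rfl⟩)
      rw [h, add_zero] at hi'
      exact (Finset.mem_erase.1 hi').1 rfl
    change _ * g (wj l j) = 0
    rw [this, mul_zero]

theorem wt_shift {γ : ℝ} (hγ : 0 < γ) (c : ℝ) (K L l : ℕ) (y u v w : ℝ) :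
    wt γ c L (l + K + 1) y (u + v + γ * ((K + 3) * l2 + w)) =
      c * Real.exp (γ * (y + u - aa γ * ((K + 3) * l2))) *
        (AA γ L l * Real.exp (γ * (v + γ * w))) := by
  unfold wt AA
  rw [e4, q4, q4, er, er]
  simp only [mul_assoc, ← Real.exp_add]
  congr 2
  have h1 := gQ hγ
  have h2 := ga hγ
  push_cast
  linear_combination (-2 * l2) * h1 + ((K + 3) * l2) * h2

theorem wt_pre {γ : ℝ} (hγ : 0 < γ) (c : ℝ) (L l : ℕ) (y ξ : ℝ) :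
    wt γ c L l y ξ = c / 16 * (1 / 4) ^ l * Real.exp (γ * y) *
      Real.exp (γ * ξ - γ ^ 2 * (2 * l2 - (L - l) * l2) / 2) := by
  unfold wt
  have h16 : c / 16 = c * Real.exp (-(4 * l2)) := by
    have := exp_nl2 4
    push_cast at this
    rw [this]; ring
  rw [e4, q4, er, h16]
  simp only [mul_assoc, ← Real.exp_add]
  congr 2
  have h1 := gQ hγ
  linear_combination (-2 * l2) * h1

theorem WW_abs (γ : ℝ) (K L l : ℕ) (g f : Cyl → ℝ) (h : ∀ w, |g w| ≤ f w) (ζ : ℤ × ℤ → ℝ) :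
    |WW γ K L l g ζ| ≤ WW γ K L l f ζ := by
  unfold WW
  refine (Finset.abs_sum_le_sum_abs _ _).trans (Finset.sum_le_sum fun j _ => ?_)
  rw [abs_mul, abs_mul, abs_of_nonneg (AA_nonneg γ L l), abs_of_pos (Real.exp_pos _)]
  have := AA_nonneg γ L l
  have := h (wj l j)
  gcongr

theorem WW_nonneg (γ : ℝ) (K L l : ℕ) (g : Cyl → ℝ) (h : ∀ w, 0 ≤ g w) (ζ : ℤ × ℤ → ℝ) :
    0 ≤ WW γ K L l g ζ :=
  Finset.sum_nonneg fun _ _ => mul_nonneg (mul_nonneg (AA_nonneg γ L l) (h _)) (Real.exp_pos _).le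

theorem WW_diff (γ : ℝ) (K L l : ℕ) (g f : Cyl → ℝ) (h : ∀ w, |g w| ≤ f w) (ζ ζ' : ℤ × ℤ → ℝ)
    (δ : ℝ) (hδ : δ ≤ 1) (hz : ∀ j ∈ JJ K l, |γ * ζ' j - γ * ζ j| ≤ δ) :
    |WW γ K L l g ζ - WW γ K L l g ζ'| ≤ 2 * δ * WW γ K L l f ζ := by
  unfold WW
  rw [← Finset.sum_sub_distrib, Finset.mul_sum]
  refine (Finset.abs_sum_le_sum_abs _ _).trans (Finset.sum_le_sum fun j hj => ?_)
  have h1 : AA γ L l * g (wj l j) * Real.exp (γ * ζ j) -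
      AA γ L l * g (wj l j) * Real.exp (γ * ζ' j) =
      -(AA γ L l * g (wj l j) * Real.exp (γ * ζ j) * (Real.exp (γ * ζ' j - γ * ζ j) - 1)) := by
    rw [Real.exp_sub]; field_simp; ring
  have h2 := Real.abs_exp_sub_one_le ((hz j hj).trans hδ)
  have h3 := AA_nonneg γ L l
  have h4 := h (wj l j)
  have h5 := hz j hj
  have h6 : 0 ≤ f (wj l j) := (abs_nonneg _).trans h4
  rw [h1, abs_neg, abs_mul, abs_mul, abs_mul, abs_of_nonneg h3, abs_of_pos (Real.exp_pos _)]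
  calc AA γ L l * |g (wj l j)| * Real.exp (γ * ζ j) * |Real.exp (γ * ζ' j - γ * ζ j) - 1|
      ≤ AA γ L l * f (wj l j) * Real.exp (γ * ζ j) * (2 * δ) := by
        gcongr
        linarith
    _ = _ := by ring

theorem meas_WW (γ : ℝ) (K L l : ℕ) (g : Cyl → ℝ) : Measurable (WW γ K L l g) := by
  unfold WW
  fun_prop

/-- the facts on the test functions which are used -/
structure TF (tf : ℕ → C_c(Cyl, ℝ)) (k0 K : ℕ) : Prop where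
  f0s : Sup K (f0 K)
  f0n : ∀ w, 0 ≤ f0 K w
  tfs : ∀ k ≤ k0, Sup K (tf k)
  tfb : ∀ k ≤ k0, ∀ w, |tf k w| ≤ f0 K w
  tf0 : ∀ w, 0 ≤ tf 0 w

theorem mkTF (hC : St_CYL) {tf : ℕ → C_c(Cyl, ℝ)} (htf : IsTF tf) {k0 K : ℕ}
    (hs : SuppK tf k0 K) : TF tf k0 K := by
  have h1 := hC.2.2.2.2.2.2.2.2.2.2.2.2.2.2.2.1
  have h2 := hC.2.2.2.2.2.2.2.2.2.2.2.2.2.2.2.2.1 K
  refine ⟨fun w hw => ((h2 w).2.2.2.1 hw).le, fun w => (h2 w).1, fun k hk w hw => ?_,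
    fun k hk w => ?_, fun w => by rw [htf.zero]; exact (h1 w).1⟩
  · have := hs.2 k hk w hw
    nlinarith [l2_pos]
  · by_cases hw : tf k w = 0
    · rw [hw, abs_zero]; exact (h2 w).1
    · rw [(h2 w).2.2.1 (hs.2 k hk w hw)]; exact htf.bd k w

/-- the properties of `HF` -/
theorem HF_facts (hT : St_THL) {Λ : ℝ} {χ : ℝ → ℝ} (hΛ : 0 ≤ Λ) (hχ : Chi χ)
    {G : (ℕ → ℝ) → ℝ} (hG : LipG Λ G) {tf : ℕ → C_c(Cyl, ℝ)} {k0 K : ℕ} (ht : TF tf k0 K)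
    (γ c : ℝ) (hc : 0 ≤ c) : ∃ C1 : ℝ, 0 ≤ C1 ∧ ∀ L l : ℕ,
    (Measurable fun p : ℝ × (ℤ × ℤ → ℝ) => HF γ c tf G χ k0 K L l p.1 p.2) ∧
    (∀ y ζ, 0 ≤ HF γ c tf G χ k0 K L l y ζ ∧ HF γ c tf G χ k0 K L l y ζ ≤ 2) ∧
    ∀ y ζ ζ' (δ : ℝ), 0 ≤ δ → δ ≤ 1 / 4 → (∀ j ∈ JJ K l, |γ * ζ' j - γ * ζ j| ≤ δ) →
      |HF γ c tf G χ k0 K L l y ζ - HF γ c tf G χ k0 K L l y ζ'| ≤ C1 * δ := by
  obtain ⟨C, β, hC, hβ, h⟩ := hT Λ χ hΛ hχ
  obtain ⟨hm, hsup, hb1, hb2, -, hlip⟩ := h G hG k0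
  refine ⟨C * (4 * β + 36 * β ^ 3), by positivity, fun L l => ⟨?_, fun y ζ => ?_, ?_⟩⟩
  · have he : Measurable fun p : ℝ × (ℤ × ℤ → ℝ) => c * Real.exp (γ * p.1) :=
      (Real.measurable_exp.comp (measurable_fst.const_mul γ)).const_mul c
    exact hm.comp ((he.mul ((meas_WW γ K L l _).comp measurable_snd)).prodMk
      (measurable_pi_lambda _ fun k => he.mul ((meas_WW γ K L l _).comp measurable_snd)))
  · have he : 0 ≤ c * Real.exp (γ * y) := by positivity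
    have h0 : 0 ≤ c * Real.exp (γ * y) * WW γ K L l (tf 0) ζ :=
      mul_nonneg he (WW_nonneg γ K L l _ ht.tf0 ζ)
    refine ⟨(hb1 _ _ h0).1, hb2 _ _ h0 ?_⟩
    exact mul_le_mul_of_nonneg_left ((le_abs_self _).trans
      (WW_abs γ K L l _ _ (ht.tfb 0 (Nat.zero_le _)) ζ)) he
  · intro y ζ ζ' δ hδ0 hδ hz
    set e := c * Real.exp (γ * y) with he
    have he0 : 0 ≤ e := by positivity
    have hf : ∀ w, |f0 K w| ≤ f0 K w := fun w => (abs_of_nonneg (ht.f0n w)).le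
    have hd : ∀ g : Cyl → ℝ, (∀ w, |g w| ≤ f0 K w) →
        |e * WW γ K L l g ζ - e * WW γ K L l g ζ'| ≤ 2 * δ * (e * WW γ K L l (f0 K) ζ) := by
      intro g hg
      rw [← mul_sub, abs_mul, abs_of_nonneg he0, mul_left_comm]
      exact mul_le_mul_of_nonneg_left (WW_diff γ K L l g _ hg ζ ζ' δ (by linarith) hz) he0
    have ha : ∀ g : Cyl → ℝ, (∀ w, |g w| ≤ f0 K w) → ∀ ξ,
        |e * WW γ K L l g ξ| ≤ e * WW γ K L l (f0 K) ξ := by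
      intro g hg ξ
      rw [abs_mul, abs_of_nonneg he0]
      exact mul_le_mul_of_nonneg_left (WW_abs γ K L l g _ hg ξ) he0
    have hτ0 : 0 ≤ e * WW γ K L l (f0 K) ζ := mul_nonneg he0 (WW_nonneg γ K L l _ ht.f0n ζ)
    have hτ := abs_le.1 (hd _ hf)
    unfold HF
    rw [← he]
    by_cases hβ2 : e * WW γ K L l (f0 K) ζ ≤ 2 * β
    · have hδ2 : 2 * δ * (e * WW γ K L l (f0 K) ζ) ≤ 4 * β * δ := by nlinarith
      have hτ' : e * WW γ K L l (f0 K) ζ' ≤ 3 * β := by nlinarith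
      have h0 : 0 ≤ e * WW γ K L l (tf 0) ζ := mul_nonneg he0 (WW_nonneg γ K L l _ ht.tf0 ζ)
      have h0' : 0 ≤ e * WW γ K L l (tf 0) ζ' := mul_nonneg he0 (WW_nonneg γ K L l _ ht.tf0 ζ')
      have key := hlip (e * WW γ K L l (f0 K) ζ) (e * WW γ K L l (f0 K) ζ') (4 * β * δ) (3 * β)
        (fun k => e * WW γ K L l (tf k) ζ) (fun k => e * WW γ K L l (tf k) ζ') h0 h0'
        (by linarith) ((hd _ hf).trans hδ2) fun k hk => ⟨(hd _ (ht.tfb k hk)).trans hδ2,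
          (ha _ (ht.tfb k hk) ζ).trans (by linarith), (ha _ (ht.tfb k hk) ζ').trans hτ'⟩
      refine key.trans ?_
      rw [mul_assoc C]
      refine mul_le_mul_of_nonneg_left ?_ hC
      have h1 := (hd _ (ht.tfb 0 (Nat.zero_le _))).trans hδ2
      have h2 : min (e * WW γ K L l (tf 0) ζ) (e * WW γ K L l (tf 0) ζ') ≤ 3 * β :=
        (min_le_right _ _).trans ((le_abs_self _).trans
          ((ha _ (ht.tfb 0 (Nat.zero_le _)) ζ').trans hτ'))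
      have h3 : 3 * β * (4 * β * δ) * min (e * WW γ K L l (tf 0) ζ) (e * WW γ K L l (tf 0) ζ') ≤
          3 * β * (4 * β * δ) * (3 * β) := mul_le_mul_of_nonneg_left h2 (by positivity)
      nlinarith
    · have h1 : Th G χ k0 (e * WW γ K L l (f0 K) ζ) (fun k => e * WW γ K L l (tf k) ζ) = 0 := by
        by_contra hne
        linarith [(hsup _ _ hne).2]
      have h2 : Th G χ k0 (e * WW γ K L l (f0 K) ζ') (fun k => e * WW γ K L l (tf k) ζ') = 0 := by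
        by_contra hne
        have := (hsup _ _ hne).2
        nlinarith
      rw [h1, h2, sub_zero, abs_zero]
      positivity

end MT4a

end

end Pool.Agent.Lib.APPS
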