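import Pool.Agent.Lib.APPS.B_MT4aa

/-!
Block MT4a, inner products and Gaussian computations.
-/

namespace Pool.Agent.Lib.APPS

open MeasureTheory ProbabilityTheory Filter Topology Set Metric
open scoped NNReal ENNReal CompactlySupported BoundedContinuousFunction RealInnerProductSpace
  Classical

noncomputable section

namespace MT4a

theorem ae_sph (hF : St_FE) (z : ℂ) {r : ℝ} (hr : 0 < r) : ∀ᵐ v ∂circ z r, ‖v - z‖ = r := by
  have h := (hF.2.2.2.2.2.2.2.2.1 z r hr).2.1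
  rw [ae_iff]
  refine measure_mono_null (fun v hv => ?_) h
  rw [mem_compl_iff, mem_sphere, dist_eq_norm]
  exact hv

theorem pfe (hF : St_FE) (z : ℂ) {r : ℝ} (hr : 0 < r) : PFE (circ z r) :=
  (hF.2.2.2.2.2.2.2.2.1 z r hr).1

theorem I1 (hF : St_FE) (z : ℂ) {s : ℝ} (hs : 0 < s) :
    ∫ v, Real.log (max ‖v - z‖ s) ∂circ z s = Real.log s := by
  have := (pfe hF z hs).2
  rw [integral_congr_ae (g := fun _ => Real.log s)]
  · simp
  · filter_upwards [ae_sph hF z hs] with v hv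
    rw [hv, max_self]

theorem I2 (hF : St_FE) (hE : St_EXP1) (z z' : ℂ) {r : ℝ} (hr : 0 < r) (h : 2 * r ≤ ‖z' - z‖) :
    ∫ v, Real.log (max ‖v - z‖ r) ∂circ z' r = Real.log ‖z' - z‖ := by
  rw [integral_congr_ae (g := fun v => Real.log ‖z - v‖), (hE.1 z z' r hr).2, norm_sub_rev,
    max_eq_left (by linarith)]
  filter_upwards [ae_sph hF z' hr] with v hv
  have h1 : ‖z' - z‖ ≤ ‖v - z'‖ + ‖v - z‖ := by
    have := norm_sub_le (v - z) (v - z')
    rw [show v - z - (v - z') = z' - z by ring] at this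
    linarith
  rw [max_eq_left (by linarith), norm_sub_rev]

theorem log_lip {a b ρ : ℝ} (hρ : 0 < ρ) (ha : ρ ≤ a) (hb : ρ ≤ b) :
    |Real.log a - Real.log b| ≤ |a - b| / ρ := by
  have key : ∀ a b : ℝ, ρ ≤ a → ρ ≤ b → Real.log a - Real.log b ≤ |a - b| / ρ := by
    intro a b ha hb
    have ha0 : 0 < a := hρ.trans_le ha
    have hb0 : 0 < b := hρ.trans_le hb
    rw [← Real.log_div ha0.ne' hb0.ne']
    refine (Real.log_le_sub_one_of_pos (div_pos ha0 hb0)).trans ?_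
    rw [div_sub_one hb0.ne']
    calc (a - b) / b ≤ |a - b| / b := by gcongr; exact le_abs_self _
      _ ≤ |a - b| / ρ := by gcongr
  rw [abs_le]
  refine ⟨?_, key a b ha hb⟩
  have := key b a hb ha
  rw [abs_sub_comm] at this
  linarith

theorem I3 (hF : St_FE) (z z' : ℂ) {r ρ : ℝ} (hr : 0 < r) (hρ : 0 < ρ) :
    |∫ v, Real.log (max ‖v - z‖ ρ) ∂circ z' r - Real.log (max ‖z' - z‖ ρ)| ≤ r / ρ := by
  have := (pfe hF z' hr).2
  have hb : ∀ᵐ v ∂circ z' r,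
      ‖Real.log (max ‖v - z‖ ρ) - Real.log (max ‖z' - z‖ ρ)‖ ≤ r / ρ := by
    filter_upwards [ae_sph hF z' hr] with v hv
    refine (log_lip hρ (le_max_right _ _) (le_max_right _ _)).trans ?_
    gcongr
    refine (abs_max_sub_max_le_abs _ _ _).trans ((abs_norm_sub_norm_le _ _).trans ?_)
    rw [show v - z - (z' - z) = v - z' by ring, hv]
  have hm : Measurable fun v : ℂ => Real.log (max ‖v - z‖ ρ) := by fun_prop
  have hi : Integrable (fun v : ℂ => Real.log (max ‖v - z‖ ρ) - Real.log (max ‖z' - z‖ ρ))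
      (circ z' r) := Integrable.of_bound (hm.sub_const _).aestronglyMeasurable _ hb
  have hi' : Integrable (fun v : ℂ => Real.log (max ‖v - z‖ ρ)) (circ z' r) := by
    refine (hi.add (integrable_const (Real.log (max ‖z' - z‖ ρ)))).congr
      (Eventually.of_forall fun v => ?_)
    simp only [Pi.add_apply, sub_add_cancel]
  have h := norm_integral_le_of_norm_le_const hb
  rw [integral_sub hi' (integrable_const _)] at h
  simpa using h

theorem inn (hM : St_MOD) (hF : St_FE) (M : Model) (z z' : ℂ) {s s' : ℝ} (hz : ‖z - ctr []‖ ≤ 3)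
    (hz' : ‖z' - ctr []‖ ≤ 3) (hs : 0 < s) (hs1 : s ≤ 1) (hs' : 0 < s') (hs1' : s' ≤ 1) :
    ⟪M.eC z s - M.eC (ctr []) 4, M.eC z' s' - M.eC (ctr []) 4⟫ =
      2 * l2 - ∫ v, Real.log (max ‖v - z‖ s) ∂circ z' s' := by
  have hsup : ∀ (z : ℂ) (s : ℝ), ‖z - ctr []‖ ≤ 3 → 0 < s → s ≤ 1 →
      circ z s (closedBall (ctr []) 4)ᶜ = 0 := by
    intro z s hz hs hs1
    refine measure_mono_null (compl_subset_compl.2 fun v hv' => ?_)
      (hF.2.2.2.2.2.2.2.2.1 z s hs).2.1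
    rw [mem_sphere, dist_eq_norm] at hv'
    rw [mem_closedBall, dist_eq_norm]
    have := norm_add_le (v - z) (z - ctr [])
    rw [show v - z + (z - ctr []) = v - ctr [] by ring] at this
    linarith
  have h1 := (hM M).2.2.2.2.2.2.2.2.1 (ctr []) 4 (circ z s) (circ z' s') (by norm_num)
    (pfe hF z hs) (pfe hF z' hs') (hsup z s hz hs hs1) (hsup z' s' hz' hs' hs1')
  rw [(hM M).2.2.2.2.2.2.2.1 z s _ hs (pfe hF z' hs'), show (4 : ℝ) = 2 ^ 2 by norm_num,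
    Real.log_pow] at h1
  rw [show (4 : ℝ) = 2 ^ 2 by norm_num]
  exact h1

theorem xl_bd {l : ℕ} {i : ℤ × ℤ} (hi : i ∈ grid l) : ‖xl l i - ctr []‖ ≤ 3 := by
  simp only [grid, Finset.mem_product, Finset.mem_Ico] at hi
  have h3 : (1 / 2 : ℝ) ^ l * 2 ^ l = 1 := by rw [← mul_pow]; norm_num
  have h0 : (0 : ℝ) < (1 / 2) ^ l := by positivity
  have key : ∀ a : ℤ, -2 ^ l ≤ a → a < 2 ^ (l + 1) →
      |(1 / 2 : ℝ) ^ l * (a + 1 / 2) - 1 / 2| ≤ 3 / 2 := by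
    intro a h1 h2
    have h1' : -(2 : ℝ) ^ l ≤ a := by exact_mod_cast h1
    have h2' : (a : ℝ) + 1 ≤ 2 ^ l * 2 := by
      rw [← pow_succ]; exact_mod_cast h2
    rw [abs_le]
    constructor <;> nlinarith
  have hre : (xl l i - ctr []).re = (1 / 2 : ℝ) ^ l * (i.1 + 1 / 2) - 1 / 2 := by
    rw [xl, Complex.sub_re, Complex.re_ofReal_mul, Complex.add_re, zc_re]
    simp [ctr, corner, side]
  have him : (xl l i - ctr []).im = (1 / 2 : ℝ) ^ l * (i.2 + 1 / 2) - 1 / 2 := by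
    rw [xl, Complex.sub_im, Complex.im_ofReal_mul, Complex.add_im, zc_im]
    simp [ctr, corner, side]
  refine (Complex.norm_le_abs_re_add_abs_im _).trans ?_
  rw [hre, him]
  linarith [key i.1 hi.1.1 hi.1.2, key i.2 hi.2.1 hi.2.2]

theorem xl_add (K l : ℕ) (i j : ℤ × ℤ) :
    xl (l + K + 1) (i + j) = xl (l + K + 1) i + (((1 / 2 : ℝ) ^ (K + 1) : ℝ) : ℂ) * xj l j := by
  unfold xl xj
  rw [zc_add, add_assoc l, pow_add]
  push_cast
  ring

theorem xl_dist (K l : ℕ) (i j : ℤ × ℤ) :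
    ‖xl (l + K + 1) (i + j) - xl (l + K + 1) i‖ = (1 / 2 : ℝ) ^ (K + 1) * ‖xj l j‖ := by
  rw [xl_add, add_sub_cancel_left, norm_mul, Complex.norm_real,
    Real.norm_of_nonneg (by positivity)]

def bv (M : Model) (L l : ℕ) (i : ℤ × ℤ) : HH :=
  M.eC (xl l i) (2 ^ L * (1 / 2 : ℝ) ^ l) - M.eC (ctr []) 4

theorem bV_nil (M : Model) (L l : ℕ) (i : ℤ × ℤ) : M.bV [] L l i = bv M L l i := by
  simp only [Model.bV, bv, zS, corner, side, xl, List.length_nil, pow_zero, mul_one,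
    Complex.ofReal_one, one_mul, zero_add]

def Gv (M : Model) (K l : ℕ) (i : ℤ × ℤ) : HH :=
  M.eC (xl (l + K + 1) i) ((1 / 2 : ℝ) ^ (K + 1)) - M.eC (ctr []) 4

def zv (M : Model) (K L l : ℕ) (i j : ℤ × ℤ) : HH :=
  M.eC (xl (l + K + 1) (i + j)) (2 ^ L * (1 / 2 : ℝ) ^ (l + K + 1)) -
    M.eC (xl (l + K + 1) i) ((1 / 2 : ℝ) ^ (K + 1))

theorem zv_eq (M : Model) (K L l : ℕ) (i j : ℤ × ℤ) :
    zv M K L l i j = bv M L (l + K + 1) (i + j) - Gv M K l i := by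
  unfold zv bv Gv; abel

theorem log_half (n : ℕ) : Real.log ((1 / 2 : ℝ) ^ n) = -(n * l2) := by
  rw [← exp_nl2, Real.log_exp]

theorem r_split (K L l : ℕ) : (2 ^ L * (1 / 2 : ℝ) ^ (l + K + 1)) =
    (1 / 2 : ℝ) ^ (K + 1) * (2 ^ L * (1 / 2 : ℝ) ^ l) := by
  rw [add_assoc, pow_add]; ring

theorem geom (hM : St_MOD) (hF : St_FE) (hE : St_EXP1) (M : Model) {K L l : ℕ}
    (hr : 2 * (2 ^ L * (1 / 2 : ℝ) ^ l) ≤ (1 / 2) ^ (K + 1)) {i : ℤ × ℤ}
    (hi : i ∈ gin (l + K + 1)) :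
    ‖bv M L (l + K + 1) i‖ ^ 2 = 2 * l2 - (L - (l + K + 1 : ℕ)) * l2 ∧
    ‖Gv M K l i‖ ^ 2 = (K + 3) * l2 ∧ ∀ j ∈ JJ K l,
      ⟪bv M L (l + K + 1) i, bv M L (l + K + 1) (i + j)⟫ = (K + 3) * l2 + (wj l j).1 ∧
      |⟪Gv M K l i, zv M K L l i j⟫ + max (-(wj l j).1) 0| ≤ 2 ^ L * (1 / 2 : ℝ) ^ l := by
  have hρ0 : (0 : ℝ) < (1 / 2) ^ (K + 1) := by positivity
  have hρ1 : (1 / 2 : ℝ) ^ (K + 1) ≤ 1 := pow_le_one₀ (by norm_num) (by norm_num)
  have hr'0 : (0 : ℝ) < 2 ^ L * (1 / 2 : ℝ) ^ l := by positivity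
  have hr0 : (0 : ℝ) < 2 ^ L * (1 / 2 : ℝ) ^ (l + K + 1) := by positivity
  have hr1 : (2 ^ L * (1 / 2 : ℝ) ^ (l + K + 1)) ≤ 1 := by
    rw [r_split]; nlinarith
  have hz := xl_bd (gin_sub hi)
  have hG : ⟪Gv M K l i, Gv M K l i⟫ = (K + 3) * l2 := by
    rw [Gv, inn hM hF M _ _ hz hz hρ0 hρ1 hρ0 hρ1, I1 hF _ hρ0, log_half]
    push_cast; ring
  refine ⟨?_, by rw [← real_inner_self_eq_norm_sq, hG], fun j hj => ⟨?_, ?_⟩⟩
  · rw [← real_inner_self_eq_norm_sq, bv, inn hM hF M _ _ hz hz hr0 hr1 hr0 hr1, I1 hF _ hr0,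
      rr_eq, Real.log_exp]
  · have hz' := xl_bd (add_mem_grid hi hj)
    rw [mem_JJ] at hj
    have hx := xj_bd hj.1 hj.2
    rw [bv, bv, inn hM hF M _ _ hz hz' hr0 hr1 hr0 hr1, I2 hF hE _ _ hr0, xl_dist,
      Real.log_mul hρ0.ne' (xj_pos l hj.1).ne', log_half, wj_fst]
    · push_cast; ring
    · rw [xl_dist, r_split]
      nlinarith [hx.1]
  · have hz' := xl_bd (add_mem_grid hi hj)
    rw [mem_JJ] at hj
    have hx0 := xj_pos l hj.1
    have h3 := I3 hF (xl (l + K + 1) i) (xl (l + K + 1) (i + j)) hr0 hρ0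
    have h4 : Real.log (max ‖xl (l + K + 1) (i + j) - xl (l + K + 1) i‖ ((1 / 2) ^ (K + 1))) =
        -((K + 1 : ℕ) * l2) + max (-(wj l j).1) 0 := by
      rw [xl_dist, wj_fst, neg_neg]
      rcases le_total ‖xj l j‖ 1 with h | h
      · rw [max_eq_right (by nlinarith), max_eq_right (Real.log_nonpos hx0.le h), log_half,
          add_zero]
      · rw [max_eq_left (by nlinarith), max_eq_left (Real.log_nonneg h),
          Real.log_mul hρ0.ne' hx0.ne', log_half]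
    rw [h4, r_split, mul_div_cancel_left₀ _ hρ0.ne', ← r_split] at h3
    rw [zv_eq, inner_sub_right, hG, Gv, bv, inn hM hF M _ _ hz hz' hρ0 hρ1 hr0 hr1, abs_le] at *
    push_cast at h3
    constructor <;> linarith [h3.1, h3.2]

theorem law (hF : St_FE) (hE : St_EXP1) (hL : St_LAT) (M : Model) (K L l : ℕ) (i : ℤ × ℤ)
    (f : (ℤ × ℤ → ℝ) → ℝ≥0∞) (hf : Measurable f) :
    ∫⁻ ω, f (fun j => ω (z0 M L l j)) ∂gm = ∫⁻ ω, f (fun j => ω (zv M K L l i j)) ∂gm := by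
  have hρ0 : (0 : ℝ) < (1 / 2) ^ (K + 1) := by positivity
  have hr'0 : (0 : ℝ) < 2 ^ L * (1 / 2 : ℝ) ^ l := by positivity
  have h := hL.1 M M (xl (l + K + 1) i) _ hρ0 (ℤ × ℤ)
    (fun j => circ (xj l j) (2 ^ L * (1 / 2 : ℝ) ^ l)) (fun _ => circ 0 1)
    fun j => ⟨pfe hF _ hr'0, pfe hF _ one_pos⟩
  simp only [fun c r => (hE.2.1 c r (xl (l + K + 1) i) _ hρ0).1, mul_zero, add_zero, mul_one,
    ← xl_add, ← r_split] at h
  have m1 : Measurable fun (ω : Om) j => ω (z0 M L l j) :=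
    measurable_pi_lambda _ fun j => meas_ev _
  have m2 : Measurable fun (ω : Om) j => ω (zv M K L l i j) :=
    measurable_pi_lambda _ fun j => meas_ev _
  rw [← lintegral_map hf m1, ← lintegral_map hf m2]
  congr 1

/-! Gaussian lemmas -/

theorem eE_add (s t : ℝ) : eE (s + t) = eE s * eE t := by
  unfold eE; rw [Real.exp_add, ENNReal.ofReal_mul (Real.exp_pos _).le]

theorem eE_mono {s t : ℝ} (h : s ≤ t) : eE s ≤ eE t :=
  ENNReal.ofReal_le_ofReal (Real.exp_le_exp.2 h)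

theorem eE_ne (s : ℝ) : eE s ≠ ∞ := ENNReal.ofReal_ne_top

theorem meas_eE : Measurable eE := ENNReal.measurable_ofReal.comp Real.measurable_exp

theorem ind_pos {p : Prop} (h : p) : ind p = 1 := by unfold ind; exact if_pos h

theorem ind_neg {p : Prop} (h : ¬p) : ind p = 0 := by unfold ind; exact if_neg h

theorem meas_ind {α : Type*} [MeasurableSpace α] {p : α → Prop}
    (h : MeasurableSet {x | p x}) : Measurable fun a => ind (p a) := by
  unfold ind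
  exact Measurable.ite h measurable_const measurable_const

theorem lint_Icc (T : ℝ) (f : ℝ → ℝ≥0∞) :
    ∫⁻ y in Icc (-T) T, f y = ∫⁻ y, ind (|y| ≤ T) * f y := by
  rw [← lintegral_indicator measurableSet_Icc]
  refine lintegral_congr fun y => ?_
  by_cases h : |y| ≤ T
  · rw [ind_pos h, one_mul, indicator_of_mem (show y ∈ Icc (-T) T from abs_le.1 h)]
  · rw [ind_neg h, zero_mul, indicator_of_notMem (show y ∉ Icc (-T) T from
      fun h' => h (abs_le.2 h'))]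

theorem meas_add_dv (h : HH) : Measurable fun ω : Om => ω + dv h := by
  rw [meas_Om]; intro v
  exact (meas_ev v).add_const _

theorem subst_tilt (h1 : St_G1) (h2 : St_G2) (a T : ℝ) (G : HH) (Φ : ℝ × Om → ℝ≥0∞)
    (hΦ : Measurable Φ) :
    ∫⁻ y in Icc (-T) T, eE (-(2 * a) * y) * ∫⁻ ω, Φ (y + ω G - a * ‖G‖ ^ 2, ω) ∂gm =
      ∫⁻ y, eE (-(2 * a) * y) * ∫⁻ ω, ind (|y - (ω G + a * ‖G‖ ^ 2)| ≤ T) *
        Φ (y, ω + dv ((2 * a) • G)) ∂gm := by
  have := h1.1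
  have mG : Measurable fun p : ℝ × Om => p.2 G := (meas_ev G).comp measurable_snd
  have mA : Measurable fun p : ℝ × Om => ind (|p.1| ≤ T) * (eE (-(2 * a) * p.1) *
      Φ (p.1 + p.2 G - a * ‖G‖ ^ 2, p.2)) :=
    (meas_ind (measurableSet_le measurable_fst.abs measurable_const)).mul
      ((meas_eE.comp (measurable_fst.const_mul _)).mul
        (hΦ.comp (((measurable_fst.add mG).sub_const _).prodMk measurable_snd)))
  have mI : Measurable fun p : ℝ × Om => ind (|p.1 - (p.2 G - a * ‖G‖ ^ 2)| ≤ T) * Φ p :=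
    (meas_ind (measurableSet_le (measurable_fst.sub (mG.sub_const _)).abs measurable_const)).mul hΦ
  have mB : Measurable fun p : ℝ × Om => eE (-(2 * a) * p.1) *
      (ind (|p.1 - (p.2 G - a * ‖G‖ ^ 2)| ≤ T) * Φ p *
        eE (p.2 ((2 * a) • G) - ‖(2 * a) • G‖ ^ 2 / 2)) :=
    (meas_eE.comp (measurable_fst.const_mul _)).mul (mI.mul
      (meas_eE.comp (((meas_ev _).comp measurable_snd).sub_const _)))
  calc ∫⁻ y in Icc (-T) T, eE (-(2 * a) * y) * ∫⁻ ω, Φ (y + ω G - a * ‖G‖ ^ 2, ω) ∂gm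
      = ∫⁻ y, ∫⁻ ω, ind (|y| ≤ T) * (eE (-(2 * a) * y) *
          Φ (y + ω G - a * ‖G‖ ^ 2, ω)) ∂gm := by
        rw [lint_Icc]
        refine lintegral_congr fun y => ?_
        rw [lintegral_const_mul' _ _ (by unfold ind; split_ifs <;> simp),
          lintegral_const_mul' _ _ (eE_ne _)]
    _ = ∫⁻ ω, (∫⁻ y, ind (|y| ≤ T) * (eE (-(2 * a) * y) *
          Φ (y + ω G - a * ‖G‖ ^ 2, ω))) ∂gm := lintegral_lintegral_swap mA.aemeasurable
    _ = ∫⁻ ω, (∫⁻ y, eE (-(2 * a) * y) * (ind (|y - (ω G - a * ‖G‖ ^ 2)| ≤ T) * Φ (y, ω) *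
          eE (ω ((2 * a) • G) - ‖(2 * a) • G‖ ^ 2 / 2))) ∂gm := by
        refine lintegral_congr fun ω => ?_
        rw [← lintegral_sub_right_eq_self _ (ω G - a * ‖G‖ ^ 2)]
        refine lintegral_congr fun y => ?_
        have e1 : y - (ω G - a * ‖G‖ ^ 2) + ω G - a * ‖G‖ ^ 2 = y := by ring
        have e2 : eE (-(2 * a) * (y - (ω G - a * ‖G‖ ^ 2))) =
            eE (-(2 * a) * y) * eE (ω ((2 * a) • G) - ‖(2 * a) • G‖ ^ 2 / 2) := by
          rw [← eE_add, map_smul, smul_eq_mul, norm_smul, mul_pow, Real.norm_eq_abs, sq_abs]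
          congr 1; ring
        rw [e1, e2]; ring
    _ = ∫⁻ y, ∫⁻ ω, eE (-(2 * a) * y) * (ind (|y - (ω G - a * ‖G‖ ^ 2)| ≤ T) * Φ (y, ω) *
          eE (ω ((2 * a) • G) - ‖(2 * a) • G‖ ^ 2 / 2)) ∂gm :=
        (lintegral_lintegral_swap mB.aemeasurable).symm
    _ = _ := by
        refine lintegral_congr fun y => ?_
        rw [lintegral_const_mul' _ _ (eE_ne _)]
        congr 1
        rw [← h2.2.1 ((2 * a) • G) (fun ω => ind (|y - (ω G - a * ‖G‖ ^ 2)| ≤ T) * Φ (y, ω))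
          (mI.comp measurable_prodMk_left)]
        refine lintegral_congr fun ω => ?_
        have e3 : (ω + dv ((2 * a) • G)) G - a * ‖G‖ ^ 2 = ω G + a * ‖G‖ ^ 2 := by
          rw [LinearMap.add_apply, dv_apply, real_inner_smul_left, real_inner_self_eq_norm_sq]
          ring
        rw [e3]

theorem int_abs : ∫⁻ y : ℝ, eE (-|y|) ≠ ∞ := by
  have h1 : IntegrableOn (fun y : ℝ => Real.exp (-|y|)) (Ioi 0) := by
    refine (integrableOn_exp_neg_Ioi 0).congr_fun (fun y hy => ?_) measurableSet_Ioi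
    simp only [abs_of_pos (mem_Ioi.1 hy)]
  have h2 : IntegrableOn (fun y : ℝ => Real.exp (-|y|)) (Iic 0) := by
    refine (integrableOn_exp_Iic 0).congr_fun (fun y hy => ?_) measurableSet_Iic
    simp only [abs_of_nonpos (mem_Iic.1 hy), neg_neg]
  have h3 : Integrable (fun y : ℝ => Real.exp (-|y|)) := by
    have := h2.union h1
    rwa [Iic_union_Ioi, integrableOn_univ] at this
  exact h3.lintegral_lt_top.ne

/-- the constant in the Gaussian tail -/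
def ct (a g : ℝ) : ℝ := 4 * (2 * a + 1) * (a * g) + (4 * (2 * a + 1)) ^ 2 * g / 2

theorem tail (hD : St_G1D) {a T : ℝ} (ha : 0 ≤ a) (hT : 0 ≤ T) (G : HH) (y : ℝ) :
    eE (-(2 * a) * y) * ∫⁻ ω, ind (T / 4 + |y| / 4 ≤ |ω G + a * ‖G‖ ^ 2|) * 2 ∂gm ≤
      4 * eE (ct a (‖G‖ ^ 2) - T) * eE (-|y|) := by
  have h := hD.2.2.2.2.2.2 G (4 * (2 * a + 1))
  calc eE (-(2 * a) * y) * ∫⁻ ω, ind (T / 4 + |y| / 4 ≤ |ω G + a * ‖G‖ ^ 2|) * 2 ∂gm
      ≤ eE (2 * a * |y|) * ∫⁻ ω, (2 * eE (4 * (2 * a + 1) * (a * ‖G‖ ^ 2) -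
          (2 * a + 1) * (T + |y|))) * eE (4 * (2 * a + 1) * |ω G|) ∂gm := by
        refine mul_le_mul' (eE_mono ?_) (lintegral_mono fun ω => ?_)
        · nlinarith [neg_le_abs y]
        · by_cases hb : T / 4 + |y| / 4 ≤ |ω G + a * ‖G‖ ^ 2|
          · rw [ind_pos hb, one_mul, mul_assoc, ← eE_add]
            refine le_mul_of_one_le_right' (le_trans (le_of_eq (by simp [eE])) (eE_mono
              (s := 0) ?_))
            have h1 := abs_add_le (ω G) (a * ‖G‖ ^ 2)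
            rw [abs_of_nonneg (show 0 ≤ a * ‖G‖ ^ 2 by positivity)] at h1
            nlinarith
          · rw [ind_neg hb, zero_mul]; exact zero_le
    _ ≤ eE (2 * a * |y|) * ((2 * eE (4 * (2 * a + 1) * (a * ‖G‖ ^ 2) -
          (2 * a + 1) * (T + |y|))) * (2 * eE ((4 * (2 * a + 1)) ^ 2 * ‖G‖ ^ 2 / 2))) := by
        rw [lintegral_const_mul' _ _ (ENNReal.mul_ne_top (by simp) (eE_ne _))]
        gcongr
    _ = 4 * (eE (2 * a * |y|) * eE (4 * (2 * a + 1) * (a * ‖G‖ ^ 2) -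
          (2 * a + 1) * (T + |y|)) * eE ((4 * (2 * a + 1)) ^ 2 * ‖G‖ ^ 2 / 2)) := by ring
    _ ≤ _ := by
        rw [mul_assoc (4 : ℝ≥0∞), ← eE_add, ← eE_add, ← eE_add]
        refine mul_le_mul_right (eE_mono ?_) _
        unfold ct
        nlinarith

end MT4a

end

end Pool.Agent.Lib.APPS
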