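import Pool.Agent.Lib.APPS.Blue3

/-!
Deterministic lemmas for block MU0.
-/

namespace Pool.Agent.Lib.APPS

open MeasureTheory ProbabilityTheory Filter Topology Set Metric
open scoped NNReal ENNReal CompactlySupported BoundedContinuousFunction RealInnerProductSpace
  Classical

noncomputable section

namespace MU0

theorem eE_add (s t : ℝ) : eE (s + t) = eE s * eE t := by
  unfold eE
  rw [Real.exp_add, ENNReal.ofReal_mul (Real.exp_pos _).le]

theorem eE_mono {s t : ℝ} (h : s ≤ t) : eE s ≤ eE t :=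
  ENNReal.ofReal_le_ofReal (Real.exp_le_exp.2 h)

theorem eE_ne_zero (s : ℝ) : eE s ≠ 0 := by
  unfold eE
  simp [Real.exp_pos]

theorem eE_ne_top (s : ℝ) : eE s ≠ ∞ := ENNReal.ofReal_ne_top

theorem eE_zero : eE 0 = 1 := by simp [eE]

theorem eE_rpow (s p : ℝ) : eE s ^ p = eE (p * s) := by
  unfold eE
  rw [ENNReal.ofReal_rpow_of_pos (Real.exp_pos _), ← Real.exp_mul, mul_comm]

theorem meas_eE : Measurable eE :=
  ENNReal.measurable_ofReal.comp Real.measurable_exp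

theorem eE_conv {p q u v : ℝ} (hp : 0 < p) (hq : 0 < q) (h : 1 / p + 1 / q = 1) :
    eE (u + v) ≤ eE (p * u) + eE (q * v) := by
  rcases le_total (p * u) (q * v) with h1 | h1
  · refine le_trans (eE_mono ?_) le_add_self
    have h2 : u ≤ 1 / p * (q * v) := by
      rw [one_div, ← div_eq_inv_mul, le_div_iff₀ hp]; linarith
    have h3 : v = 1 / q * (q * v) := by field_simp
    have h4 : q * v = (1 / p + 1 / q) * (q * v) := by rw [h, one_mul]
    nlinarith
  · refine le_trans (eE_mono ?_) le_self_add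
    have h2 : v ≤ 1 / q * (p * u) := by
      rw [one_div, ← div_eq_inv_mul, le_div_iff₀ hq]; linarith
    have h3 : u = 1 / p * (p * u) := by field_simp
    have h4 : p * u = (1 / p + 1 / q) * (p * u) := by rw [h, one_mul]
    nlinarith

theorem eE_two (u v : ℝ) : eE (u + v) ≤ eE (2 * u) + eE (2 * v) :=
  eE_conv (by norm_num) (by norm_num) (by norm_num)

theorem tsum_eE {κ : ℝ} (hκ : 0 < κ) : ∑' n : ℕ, eE (-κ * n) ≠ ∞ := by
  have h : ∀ n : ℕ, eE (-κ * n) = eE (-κ) ^ n := by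
    intro n
    rw [← ENNReal.rpow_natCast, eE_rpow, mul_comm]
  simp only [h, ENNReal.tsum_geometric]
  refine ENNReal.inv_ne_top.2 (tsub_pos_of_lt ?_).ne'
  unfold eE
  rw [ENNReal.ofReal_lt_one]
  exact Real.exp_lt_one_iff.2 (by linarith)

theorem tsum_eE2 {κ : ℝ} (hκ : 0 < κ) : ∑' i : Bool × ℕ, eE (-κ * i.2) ≠ ∞ := by
  rw [ENNReal.tsum_prod', tsum_bool]
  exact ENNReal.add_ne_top.2 ⟨tsum_eE hκ, tsum_eE hκ⟩

theorem tsum_rpow_le {ι : Type} (a r : ι → ℝ≥0∞) (r' : ι → ℝ≥0∞) (hr : ∀ i, r i * r' i = 1)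
    {s : ℝ} (hs : 0 < s) :
    (∑' i, a i) ^ s ≤ (∑' i, r i) ^ s * ∑' i, (a i * r' i) ^ s := by
  set W := ∑' i, (a i * r' i) ^ s with hW
  have h1 : ∀ i, a i ≤ r i * W ^ s⁻¹ := by
    intro i
    have h2 : (a i * r' i) ^ s ≤ W := ENNReal.le_tsum (f := fun i => (a i * r' i) ^ s) i
    have h3 : a i * r' i ≤ W ^ s⁻¹ := (ENNReal.le_rpow_inv_iff hs).2 h2
    calc a i = r i * (a i * r' i) := by rw [mul_left_comm, hr, mul_one]
      _ ≤ r i * W ^ s⁻¹ := by gcongr
  have h4 : ∑' i, a i ≤ (∑' i, r i) * W ^ s⁻¹ := by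
    rw [← ENNReal.tsum_mul_right]
    exact ENNReal.tsum_le_tsum h1
  calc (∑' i, a i) ^ s ≤ ((∑' i, r i) * W ^ s⁻¹) ^ s := ENNReal.rpow_le_rpow h4 hs.le
    _ = (∑' i, r i) ^ s * W := by
      rw [ENNReal.mul_rpow_of_nonneg _ _ hs.le, ENNReal.rpow_inv_rpow hs.ne']

theorem rpow_mul_le (x y : ℝ≥0∞) {s : ℝ} (hs : 0 < s) :
    x ^ s * y ≤ x ^ (s + 1) + y ^ (s + 1) := by
  rcases le_total x y with h | h
  · refine le_trans ?_ le_add_self
    rw [ENNReal.rpow_add_of_nonneg _ _ hs.le zero_le_one, ENNReal.rpow_one]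
    gcongr
  · refine le_trans ?_ le_self_add
    rw [ENNReal.rpow_add_of_nonneg _ _ hs.le zero_le_one, ENNReal.rpow_one]
    gcongr

theorem trans_zero (m : Measure Cyl) : trans 0 m = m := by
  unfold trans
  simp

theorem wgt_zero (γ : ℝ) (m : Measure Cyl) : wgt γ (fun _ => 0) m = m := by
  unfold wgt
  simp only [mul_zero, eE_zero]
  exact withDensity_one

theorem good_wgt (γ : ℝ) (m : Measure Cyl) (z : ℝ → ℝ) (c C : ℝ) (hγ : 0 < γ) (hc : 0 < c)
    (hm : NiceM m) (hz : Continuous z) (hb : ∀ t, z t ≤ C - c * |t|) : GoodM (wgt γ z m) := by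
  have hmeas : Measurable fun w : Cyl => eE (γ * z w.1) :=
    meas_eE.comp ((hz.measurable.comp measurable_fst).const_mul γ)
  refine ⟨?_, ?_, ?_⟩
  · unfold wgt
    rw [withDensity_apply _ MeasurableSet.univ, Measure.restrict_univ]
    refine ne_top_of_le_ne_top (ENNReal.mul_ne_top (eE_ne_top (γ * C))
      (hm.2.2 (γ * c) (mul_pos hγ hc))) ?_
    rw [← lintegral_const_mul' _ _ (eE_ne_top _)]
    refine lintegral_mono fun w => ?_
    rw [← eE_add]
    refine eE_mono ?_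
    have := mul_le_mul_of_nonneg_left (hb w.1) hγ.le
    nlinarith
  · intro w
    exact withDensity_absolutelyContinuous _ _ (hm.1 w)
  · intro U hU hne h0
    unfold wgt at h0
    rw [withDensity_apply_eq_zero hmeas] at h0
    refine hm.2.1 U hU hne ?_
    have : {w : Cyl | eE (γ * z w.1) ≠ 0} ∩ U = U := by
      ext w; simp [eE_ne_zero]
    rwa [this] at h0

theorem ofReal_int_trans (f : C_c(Cyl, ℝ)) (hf : ∀ w, 0 ≤ f w) (m : Measure Cyl)
    [IsFiniteMeasureOnCompacts m] (r : ℝ) :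
    ENNReal.ofReal (∫ w, f w ∂trans r m) = ∫⁻ w, ENNReal.ofReal (f (w.1 - r, w.2)) ∂m := by
  have hφ : Measurable fun p : Cyl => ((p.1 - r, p.2) : Cyl) := by fun_prop
  unfold trans
  rw [integral_map (f := fun w => f w) hφ.aemeasurable f.continuous.aestronglyMeasurable]
  refine ofReal_integral_eq_lintegral_ofReal ?_ (ae_of_all _ fun w => hf _)
  have hc : Continuous fun p : Cyl => f ((p.1 - r, p.2) : Cyl) := by fun_prop
  refine hc.integrable_of_hasCompactSupport ?_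
  have := f.hasCompactSupport.comp_homeomorph (Homeomorph.subRight (((r, 0) : Cyl)))
  have he : (fun p : Cyl => f ((p.1 - r, p.2) : Cyl)) =
      (f : Cyl → ℝ) ∘ (Homeomorph.subRight (((r, 0) : Cyl))) := by
    funext p
    simp only [Function.comp]
    congr 1
    ext <;> simp
  rw [he]
  exact this

/-- integral of a nonnegative test function against a weighted measure -/
theorem ofReal_int_wgt_le (γ : ℝ) (f : C_c(Cyl, ℝ)) (hf : ∀ w, 0 ≤ f w) (m : Measure Cyl)
    [IsFiniteMeasureOnCompacts m] (z : ℝ → ℝ) (hz : Continuous z) (S : ℝ)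
    (hS : ∀ w, f w ≠ 0 → γ * z w.1 ≤ S) :
    ENNReal.ofReal (∫ w, f w ∂wgt γ z m) ≤ eE S * ENNReal.ofReal (∫ w, f w ∂trans 0 m) := by
  have hmeas : Measurable fun w : Cyl => eE (γ * z w.1) :=
    meas_eE.comp ((hz.measurable.comp measurable_fst).const_mul γ)
  have hfm : Measurable fun w : Cyl => ENNReal.ofReal (f w) :=
    ENNReal.measurable_ofReal.comp f.continuous.measurable
  rw [ofReal_int_trans f hf m 0]
  calc ENNReal.ofReal (∫ w, f w ∂wgt γ z m) ≤ ∫⁻ w, ENNReal.ofReal (f w) ∂wgt γ z m := by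
        rw [integral_eq_lintegral_of_nonneg_ae (ae_of_all _ hf)
          f.continuous.aestronglyMeasurable]
        exact ENNReal.ofReal_toReal_le
    _ = ∫⁻ w, eE (γ * z w.1) * ENNReal.ofReal (f w) ∂m := by
        unfold wgt
        rw [lintegral_withDensity_eq_lintegral_mul _ hmeas hfm]
        rfl
    _ ≤ ∫⁻ w, eE S * ENNReal.ofReal (f (w.1 - 0, w.2)) ∂m := by
        refine lintegral_mono fun w => ?_
        simp only [sub_zero, Prod.mk.eta]
        by_cases h : f w = 0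
        · simp [h]
        · exact mul_le_mul_left (eE_mono (hS w h)) _
    _ = _ := by rw [lintegral_const_mul' _ _ (eE_ne_top _)]

def side (σ : Bool) (p : PP) : ℝ≥0 → ℝ := if σ then p.1 else p.2

def sh (i : Bool × ℕ) : ℝ := if i.1 then (i.2 : ℝ) else -(i.2 : ℝ)

def SS (a : ℝ) (i : Bool × ℕ) (p : PP) : ℝ :=
  side i.1 p i.2 - a * i.2 + oscB (side i.1 p) i.2

def S0 (p : PP) : ℝ := oscB p.2 0 + oscB p.2 1

theorem meas_side (σ : Bool) : Measurable (side σ) := by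
  cases σ
  · exact measurable_snd
  · exact measurable_fst

theorem mass_le (hosc : ∀ b : ℝ≥0 → ℝ, Continuous b → ∀ s t : ℝ≥0, t ≤ 1 →
      |b (s + t) - b s| ≤ oscB b s)
    {γ a : ℝ} (hγ : 0 < γ) (ha : 0 < a) (f : C_c(Cyl, ℝ)) (hf : ∀ w, 0 ≤ f w)
    (hf1 : ∀ w : Cyl, |w.1| ≤ 1 → f w = 1) (m : Measure Cyl) [IsFiniteMeasureOnCompacts m]
    (p : PP) (h1 : Continuous p.1) (h2 : Continuous p.2) :
    wgt γ (ydr a p) m univ ≤
      ∑' i : Bool × ℕ, eE (γ * SS a i p) * ENNReal.ofReal (∫ w, f w ∂trans (sh i) m) := by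
  unfold wgt
  rw [withDensity_apply _ MeasurableSet.univ, Measure.restrict_univ]
  have hfm : ∀ r : ℝ, Measurable fun w : Cyl => ENNReal.ofReal (f (w.1 - r, w.2)) := fun r =>
    ENNReal.measurable_ofReal.comp (f.continuous.measurable.comp (by fun_prop))
  simp only [ofReal_int_trans f hf m]
  simp only [← lintegral_const_mul' _ _ (eE_ne_top _)]
  rw [← lintegral_tsum fun i => ((hfm _).const_mul _).aemeasurable]
  refine lintegral_mono fun w => ?_
  have key : ∀ (b : ℝ≥0 → ℝ), Continuous b → ∀ t : ℝ, 0 ≤ t →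
      b t.toNNReal - a * t ≤ b (⌊t⌋₊ : ℕ) - a * (⌊t⌋₊ : ℕ) + oscB b (⌊t⌋₊ : ℕ) := by
    intro b hb t ht
    have hfl : ((⌊t⌋₊ : ℕ) : ℝ) ≤ t := Nat.floor_le ht
    have hfl2 : t < (⌊t⌋₊ : ℕ) + 1 := Nat.lt_floor_add_one t
    have h3 := hosc b hb (⌊t⌋₊ : ℕ) (t - ⌊t⌋₊).toNNReal (by
      rw [Real.toNNReal_le_iff_le_coe]; push_cast; linarith)
    have h4 : ((⌊t⌋₊ : ℕ) : ℝ≥0) + (t - ⌊t⌋₊).toNNReal = t.toNNReal := by
      ext
      push_cast
      rw [Real.coe_toNNReal _ (by linarith), Real.coe_toNNReal _ ht]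
      ring
    rw [h4] at h3
    have := (abs_le.1 h3).2
    nlinarith
  by_cases ht : 0 ≤ w.1
  · refine le_trans ?_ (ENNReal.le_tsum (true, ⌊w.1⌋₊))
    have hfl : ((⌊w.1⌋₊ : ℕ) : ℝ) ≤ w.1 := Nat.floor_le ht
    have hfl2 : w.1 < (⌊w.1⌋₊ : ℕ) + 1 := Nat.lt_floor_add_one _
    rw [hf1 _ (by simp only [sh, if_true]; rw [abs_le]; constructor <;> linarith)]
    simp only [ENNReal.ofReal_one, mul_one]
    refine eE_mono (mul_le_mul_of_nonneg_left ?_ hγ.le)
    have := key p.1 h1 w.1 ht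
    simp only [ydr, twoS, if_pos ht, SS, side, if_true, abs_of_nonneg ht]
    exact this
  · have ht' : 0 ≤ -w.1 := by linarith
    refine le_trans ?_ (ENNReal.le_tsum (false, ⌊-w.1⌋₊))
    have hfl : ((⌊-w.1⌋₊ : ℕ) : ℝ) ≤ -w.1 := Nat.floor_le ht'
    have hfl2 : -w.1 < (⌊-w.1⌋₊ : ℕ) + 1 := Nat.lt_floor_add_one _
    rw [hf1 _ (by
      simp only [sh, Bool.false_eq_true, if_false]; rw [abs_le]; constructor <;> linarith)]
    simp only [ENNReal.ofReal_one, mul_one]
    refine eE_mono (mul_le_mul_of_nonneg_left ?_ hγ.le)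
    have := key p.2 h2 (-w.1) ht'
    simp only [ydr, twoS, if_neg ht, SS, side, Bool.false_eq_true, if_false,
      abs_of_neg (not_le.1 ht)]
    exact this

theorem ydr_le_S0 (hosc : ∀ b : ℝ≥0 → ℝ, Continuous b → ∀ s t : ℝ≥0, t ≤ 1 →
      |b (s + t) - b s| ≤ oscB b s) {a : ℝ} (ha : 0 < a) (p : PP) (h2 : Continuous p.2)
    (h0 : p.2 0 = 0) {t : ℝ} (ht1 : -2 ≤ t) (ht2 : t < 0) : ydr a p t ≤ S0 p := by
  have hn : ∀ s, 0 ≤ oscB p.2 s := fun s => ENNReal.toReal_nonneg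
  have h3 : p.2 (-t).toNNReal ≤ S0 p := by
    unfold S0
    by_cases h : -t ≤ 1
    · have := hosc p.2 h2 0 (-t).toNNReal (by rw [Real.toNNReal_le_iff_le_coe]; exact_mod_cast h)
      rw [zero_add, h0, sub_zero] at this
      have := (abs_le.1 this).2
      linarith [hn 1]
    · have h5 := hosc p.2 h2 0 1 le_rfl
      rw [zero_add, h0, sub_zero] at h5
      have h6 := hosc p.2 h2 1 (-t - 1).toNNReal (by
        rw [Real.toNNReal_le_iff_le_coe]; push_cast; linarith)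
      have h4 : (1 : ℝ≥0) + (-t - 1).toNNReal = (-t).toNNReal := by
        ext
        push_cast
        rw [Real.coe_toNNReal _ (by linarith), Real.coe_toNNReal _ (by linarith)]
        ring
      rw [h4] at h6
      linarith [(abs_le.1 h5).2, (abs_le.1 h6).2]
  simp only [ydr, twoS, if_neg (not_le.2 ht2)]
  have := mul_nonneg ha.le (abs_nonneg t)
  linarith

end MU0

end

end Pool.Agent.Lib.APPS
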