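import Pool.Agent.Lib.APPS.Blue5
import Pool.Agent.Lib.APPS.B_H4aa

/-!
Block NRa: first moment of the error terms of the local predictor.
-/

namespace Pool.Agent.Lib.APPS

open MeasureTheory ProbabilityTheory Filter Topology Set Metric
open scoped NNReal ENNReal RealInnerProductSpace Classical

noncomputable section

namespace NRa

open H4a

theorem X_add (M : Model) (γ u : ℝ) (ω ω' : Om) (W : Dy) :
    M.X γ u (ω + ω') W = M.X γ u ω W + ω' (M.eS W) := by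
  simp only [Model.X, drift, LinearMap.add_apply]
  ring

theorem meas_P (hT3 : St_T3) (M : Model) (γ u : ℝ) (τ : Finset Dy) (A : Dy) :
    MeasurableSet {ω | HasTr (sub (M.X γ u ω) A) τ} :=
  ((hT3.2.2.2.2.1 A).comp (hT3.2.2.2.2.2.2.2.2.2.2.1 M γ u).1) (hT3.2.2.1 τ).2.1

theorem meas_pos (hT3 : St_T3) (M : Model) (γ u : ℝ) (A : Dy) :
    MeasurableSet {ω | 0 < M.X γ u ω A} :=
  measurableSet_lt measurable_const
    ((measurable_pi_apply A).comp (hT3.2.2.2.2.2.2.2.2.2.2.1 M γ u).1)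

/-- first absolute moment on an event invariant in the direction `e` -/
theorem abs_term (hG1D : St_G1D) (hG2 : St_G2) (P : Om → Prop) (hm : MeasurableSet {ω | P ω})
    (e : HH) {r : ℝ} (he : ‖e‖ ≤ r) (hi : ∀ (s : ℝ) ω, P (ω + s • dv e) ↔ P ω) :
    ∫⁻ ω, ind (P ω) * ENNReal.ofReal |ω e| ∂gm ≤
      ENNReal.ofReal (6 * r) * ∫⁻ ω, ind (P ω) ∂gm := by
  rcases ((norm_nonneg e).trans he).eq_or_lt with h0 | hr
  · have : e = 0 := norm_le_zero_iff.1 (h0 ▸ he)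
    simp [this]
  have h := one_term hG1D hG2 P hm e (t := 0) (p := 1) hr he hi
  have h1 : ∀ ω : Om, ind (P ω) * ENNReal.ofReal |ω e| ≤
      ENNReal.ofReal r * (ind (P ω) * eE ((|ω e| - 0) / r * 1)) := by
    intro ω
    rw [mul_left_comm]
    refine mul_le_mul_right ?_ _
    rw [eE, ← ENNReal.ofReal_mul hr.le]
    refine ENNReal.ofReal_le_ofReal ?_
    have h2 := Real.add_one_le_exp ((|ω e| - 0) / r * 1)
    have h3 : |ω e| = r * ((|ω e| - 0) / r * 1) := by field_simp; ring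
    nlinarith
  refine (lintegral_mono h1).trans ?_
  rw [lintegral_const_mul' _ _ ENNReal.ofReal_ne_top]
  refine (mul_le_mul_right h _).trans ?_
  rw [← mul_assoc]
  refine mul_le_mul_left ?_ _
  have h2 : (2 : ℝ≥0∞) = ENNReal.ofReal 2 := by simp
  rw [h2, eE, ← ENNReal.ofReal_mul (by norm_num), ← ENNReal.ofReal_mul hr.le]
  refine ENNReal.ofReal_le_ofReal ?_
  have h3 : Real.exp ((1 / 2 - 0 / r) * 1) ≤ 3 := by
    refine le_trans (Real.exp_le_exp.2 (by rw [zero_div]; norm_num : _ ≤ (1 : ℝ))) ?_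
    linarith [Real.exp_one_lt_d9]
  nlinarith

/-- two-sided exponential weight -/
def WG (g : HH) (ω : Om) : ℝ≥0∞ := eE (ω g) + eE (ω (-g))

theorem meas_WG (g : HH) : Measurable (WG g) :=
  (meas_eE.comp (meas_ev g)).add (meas_eE.comp (meas_ev (-g)))

theorem WG_eq (g : HH) (ω : Om) :
    WG g ω = ENNReal.ofReal (Real.exp (ω g) + Real.exp (-ω g)) := by
  rw [WG, map_neg, ENNReal.ofReal_add (Real.exp_pos _).le (Real.exp_pos _).le]
  rfl

theorem one_le_WG (g : HH) (ω : Om) : 1 ≤ WG g ω := by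
  rw [WG_eq, ← ENNReal.ofReal_one]
  refine ENNReal.ofReal_le_ofReal ?_
  linarith [Real.add_one_le_exp (ω g), Real.add_one_le_exp (-ω g)]

theorem abs_le_WG (g : HH) (ω : Om) : ENNReal.ofReal |ω g| ≤ WG g ω := by
  rw [WG_eq]
  refine ENNReal.ofReal_le_ofReal (abs_le.2 ⟨?_, ?_⟩) <;>
    linarith [Real.add_one_le_exp (ω g), Real.add_one_le_exp (-ω g), Real.exp_pos (ω g),
      Real.exp_pos (-ω g)]

theorem inner_int (hMOD : St_MOD) (M : Model) {τ : Finset Dy} (hτ : IsTr τ) (A : Dy) (e : HH)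
    (h : ∀ B ∈ lvs τ, ⟪e, M.eS (B ++ A)⟫ = 0) : ∀ B ∈ τ, ⟪e, M.eS (B ++ A)⟫ = 0 := by
  obtain ⟨-, -, -, -, -, -, -, -, -, -, -, -, -, m14, -⟩ := hMOD M
  intro B hB
  rw [m14 τ hτ B hB A, inner_sum]
  refine Finset.sum_eq_zero fun S hS => ?_
  rw [real_inner_smul_right, h S (Finset.mem_filter.1 hS).1, mul_zero]

theorem norm_loc (hMOD : St_MOD) (hG : St_GEO1) (M : Model) (A : Dy) :
    ‖M.eS A - M.eC (ctr A) (2 * side A)‖ ≤ Real.sqrt (l2 + kS [] []) := by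
  obtain ⟨-, -, -, -, -, -, -, -, -, -, -, m12, -⟩ := hMOD M
  have hs := (hG.1 A).1
  have h := m12 (ctr A) (2 * side A) A (by positivity) (fun y hy => by
    have := (hG.2.2.2.1 A).2.2.2.1 y hy
    rw [mem_closedBall, dist_eq_norm]; linarith) [] []
  simp only [List.nil_append, real_inner_self_eq_norm_sq, covE] at h
  refine Real.le_sqrt_of_sq_le (le_of_eq ?_)
  rw [h, Real.log_mul (by norm_num) hs.ne', side, Real.log_pow, one_div, Real.log_inv, l2]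
  ring

theorem tail_mem (hT1 : St_T1) {τ : Finset Dy} (hτ : IsTr τ) {S : Dy} (hS : S ∈ lvs τ)
    (hl : 1 ≤ S.length) : S.tail ∈ τ := by
  obtain ⟨-, -, -, -, -, -, -, t8, -⟩ := hT1
  refine ((t8 τ hτ S).1 hS).2 _ (List.tail_suffix S) fun e => ?_
  have := congrArg List.length e
  rw [List.length_tail] at this
  omega

/-- the estimate for one triple -/
theorem single (hG1D : St_G1D) (hG2 : St_G2) (hMOD : St_MOD) (hG : St_GEO1) (hT1 : St_T1)
    (hT3 : St_T3) (M : Model) (γ u : ℝ) {g : HH} (hg : ∀ S, ⟪g, M.eS S⟫ = 1) {δ : ℝ}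
    (hδ : 0 ≤ δ) {τ : Finset Dy} (hτ : IsTr τ) (h0 : [] ∈ τ) (A : Dy) {e : HH} (he : ‖e‖ ≤ δ)
    (hc : ⟪e, M.eC (ctr A) (2 * side A)⟫ = 0) {ν : ℝ}
    (hν : ∀ B ∈ lvs τ, ⟪e, M.eS (B ++ A)⟫ = ν) :
    ∫⁻ ω, ind (HasTr (sub (M.X γ u ω) A) τ) * ENNReal.ofReal |ω e| ∂gm ≤
      ENNReal.ofReal ((6 * (1 + Real.sqrt (l2 + kS [] []) * ‖g‖) + Real.sqrt (l2 + kS [] [])) * δ) *
        ∫⁻ ω, ind (HasTr (sub (M.X γ u ω) A) τ) * WG g ω ∂gm := by
  set b := Real.sqrt (l2 + kS [] []) with hb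
  have hb0 : 0 ≤ b := Real.sqrt_nonneg _
  have h1 : ∀ B ∈ lvs τ, ⟪e - ν • g, M.eS (B ++ A)⟫ = 0 := fun B hB => by
    rw [inner_sub_left, real_inner_smul_left, hν B hB, hg, mul_one, sub_self]
  have h2 := inner_int hMOD M hτ A _ h1
  have h3 : |ν| ≤ b * δ := by
    have h4 := h2 [] h0
    rw [List.nil_append, inner_sub_left, real_inner_smul_left, hg, mul_one, sub_eq_zero] at h4
    have h5 : ν = ⟪e, M.eS A - M.eC (ctr A) (2 * side A)⟫ := by
      rw [inner_sub_right, hc, h4, sub_zero]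
    rw [h5, mul_comm b]
    exact (abs_real_inner_le_norm _ _).trans
      (mul_le_mul he (norm_loc hMOD hG M A) (norm_nonneg _) hδ)
  have h4 : ‖e - ν • g‖ ≤ (1 + b * ‖g‖) * δ := by
    refine (norm_sub_le _ _).trans ?_
    rw [norm_smul, Real.norm_eq_abs]
    nlinarith [norm_nonneg g]
  have hm := meas_P hT3 M γ u τ A
  obtain ⟨-, -, -, -, -, -, -, -, -, -, t11, -⟩ := hT1
  have h5 := abs_term hG1D hG2 (fun ω => HasTr (sub (M.X γ u ω) A) τ) hm (e - ν • g) h4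
    fun s ω => by
      rw [t11 _ τ hτ, t11 _ τ hτ]
      refine and_congr (forall₂_congr fun B hB => ?_) (forall₂_congr fun B hB => ?_)
      · simp only [sub, X_add, LinearMap.smul_apply, dv_apply, smul_eq_mul, h2 B hB, mul_zero,
          add_zero]
      · simp only [sub, X_add, LinearMap.smul_apply, dv_apply, smul_eq_mul, h1 B hB, mul_zero,
          add_zero]
  have h6 : ∀ ω : Om, ind (HasTr (sub (M.X γ u ω) A) τ) * ENNReal.ofReal |ω e| ≤
      ind (HasTr (sub (M.X γ u ω) A) τ) * ENNReal.ofReal |ω (e - ν • g)| +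
        ENNReal.ofReal (b * δ) * (ind (HasTr (sub (M.X γ u ω) A) τ) * WG g ω) := by
    intro ω
    rw [mul_left_comm, ← mul_add]
    refine mul_le_mul_right ?_ _
    refine le_trans ?_ (add_le_add_right (mul_le_mul_right (abs_le_WG g ω) _) _)
    rw [← ENNReal.ofReal_mul (by positivity), ← ENNReal.ofReal_add (abs_nonneg _) (by positivity)]
    refine ENNReal.ofReal_le_ofReal ?_
    have e1 : ω e = ω (e - ν • g) + ν * ω g := by
      rw [map_sub, map_smul, smul_eq_mul]; ring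
    calc |ω e| = |ω (e - ν • g) + ν * ω g| := by rw [← e1]
      _ ≤ |ω (e - ν • g)| + |ν * ω g| := abs_add_le _ _
      _ ≤ _ := by
        rw [abs_mul]
        exact add_le_add_right (mul_le_mul_of_nonneg_right h3 (abs_nonneg _)) _
  refine (lintegral_mono h6).trans ?_
  have hm1 : Measurable fun ω : Om =>
      ind (HasTr (sub (M.X γ u ω) A) τ) * ENNReal.ofReal |ω (e - ν • g)| :=
    (meas_ind hm).mul (ENNReal.measurable_ofReal.comp (meas_ev _).abs)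
  rw [lintegral_add_left hm1, lintegral_const_mul' _ _ ENNReal.ofReal_ne_top]
  have h7 : ∫⁻ ω, ind (HasTr (sub (M.X γ u ω) A) τ) ∂gm ≤
      ∫⁻ ω, ind (HasTr (sub (M.X γ u ω) A) τ) * WG g ω ∂gm :=
    lintegral_mono fun ω => le_mul_of_one_le_right' (one_le_WG g ω)
  refine (add_le_add_left (h5.trans (mul_le_mul_right h7 _)) _).trans (le_of_eq ?_)
  rw [← add_mul, ← ENNReal.ofReal_add (by positivity) (by positivity)]
  congr 2
  ring

theorem sum_tr (hT1 : St_T1) (Gd : Finset Dy → Prop) (S : Dy) (hl : 1 ≤ S.length)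
    (hG : ∀ τ, IsTr τ → Gd τ → S ∈ lvs τ) (x : Dy → ℝ) :
    ∑' τ : Finset Dy, ind (IsTr τ ∧ Gd τ) * ind (HasTr x τ) ≤ ind (0 < x S.tail) := by
  have hT1' := hT1
  obtain ⟨-, -, -, -, -, -, -, -, -, -, -, t12, -⟩ := hT1'
  rw [tsum_eq_single (tr x) fun τ hτ => by
    rw [ind_neg (p := HasTr x τ) fun h => hτ (t12 x τ h).2.1.symm, mul_zero]]
  rw [← ind_and]
  refine ind_mono fun h => ?_
  have := tail_mem hT1 h.1.1 (hG _ h.1.1 h.1.2) hl
  exact (h.2 _).1 this _ (List.suffix_refl _)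

theorem tilt (hG2 : St_G2) (hT3 : St_T3) (M : Model) (γ u : ℝ) (h : HH) (P : Dy)
    (hh : ⟪h, M.eS P⟫ ≤ 1) :
    ∫⁻ ω, ind (0 < M.X γ u ω P) * eE (ω h) ∂gm ≤
      eE (‖h‖ ^ 2 / 2) * gm {ω | 0 < M.X γ (u + 1) ω P} := by
  have h1 := hG2.2.1 h (fun ω => ind (0 < M.X γ u ω P)) (meas_ind (meas_pos hT3 M γ u P))
  have e1 : ∀ ω : Om, ind (0 < M.X γ u ω P) * eE (ω h) =
      eE (‖h‖ ^ 2 / 2) * (ind (0 < M.X γ u ω P) * eE (ω h - ‖h‖ ^ 2 / 2)) := by
    intro ω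
    rw [mul_left_comm, ← eE_add]
    congr 2
    ring
  simp_rw [e1]
  rw [lintegral_const_mul' _ _ (eE_ne _), ← h1, gm_eq (meas_pos hT3 M γ (u + 1) P)]
  refine mul_le_mul_right (lintegral_mono fun ω => ind_mono fun hp => ?_) _
  rw [X_add, dv_apply] at hp
  have e2 : M.X γ (u + 1) ω P = M.X γ u ω P + 1 := by
    simp only [Model.X, drift]; ring
  linarith

theorem tiltW (hG2 : St_G2) (hT3 : St_T3) (M : Model) (γ u : ℝ) {g : HH}
    (hg : ∀ S, ⟪g, M.eS S⟫ = 1) (P : Dy) :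
    ∫⁻ ω, ind (0 < M.X γ u ω P) * WG g ω ∂gm ≤
      2 * eE (‖g‖ ^ 2 / 2) * gm {ω | 0 < M.X γ (u + 1) ω P} := by
  have h1 := tilt hG2 hT3 M γ u g P (hg P).le
  have h2 := tilt hG2 hT3 M γ u (-g) P (by rw [inner_neg_left, hg]; norm_num)
  rw [norm_neg] at h2
  simp only [WG, mul_add]
  have hm1 : Measurable fun ω : Om => ind (0 < M.X γ u ω P) * eE (ω g) :=
    (meas_ind (meas_pos hT3 M γ u P)).mul (meas_eE.comp (meas_ev _))
  rw [lintegral_add_left hm1, two_mul, add_mul]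
  exact add_le_add h1 h2

end NRa

open H4a NRa in
theorem blk_NRa (_hG1 : St_G1) (hG1D : St_G1D) (hG2 : St_G2) (_hG3 : St_G3) (_hP1 : St_P1)
    (hMOD : St_MOD) (_hFE : St_FE) (hEXP2 : St_EXP2) (hG : St_GEO1) (hT1 : St_T1) (hT3 : St_T3)
    (hFM : St_FM) : St_NRa := by
  intro γ hγ M hO hC0
  have hbox : box [] ⊆ M.O := fun y hy => hO (by
    have h1 := (hG.2.2.2.1 []).2.2.2.1 y hy
    have h2 := (hG.1 []).2
    rw [mem_closedBall, dist_eq_norm]; linarith)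
  obtain ⟨-, -, -, -, -, -, m7, -, -, -, -, -, -, -, -, m16, m17, -⟩ := hMOD M
  obtain ⟨φ, hφ⟩ := m16 hbox
  have hg := m17 φ hφ
  set g := gr φ
  obtain ⟨K, c, -, hK⟩ := (hFM γ hγ).1
  have hn : ∀ S, ‖M.eS S‖ ^ 2 ≤ |M.C0 + kS [] []| + S.length * l2 := by
    intro S
    have h1 := m7 [] hbox S S
    have h2 := hEXP2.2.1 [] [] S
    simp only [List.append_nil, real_inner_self_eq_norm_sq, covE, List.length_nil, Nat.cast_zero,
      zero_mul, add_zero] at h1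
    simp only [List.nil_append] at h2
    rw [h1, h2]
    linarith [le_abs_self (M.C0 + kS [] [])]
  set b := Real.sqrt (l2 + kS [] []) with hb
  have hb0 : 0 ≤ b := Real.sqrt_nonneg _
  set c1 := 6 * (1 + b * ‖g‖) + b with hc1
  have hc10 : 0 ≤ c1 := by positivity
  refine ⟨c1 * (2 * Real.exp (‖g‖ ^ 2 / 2)) * 4 *
    (|K| * Real.exp (γ + γ ^ 2 * |M.C0 + kS [] []| / 2)), fun u δ k Gd ε hδ hk hε => ?_⟩
  obtain ⟨k, rfl⟩ : ∃ k', k = k' + 1 := ⟨k - 1, by omega⟩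
  have hF := (hK _ (abs_nonneg _) M.eS hn (u + 1)).1
  have key : ∀ A : Dy, ∀ S ∈ lev (k + 1), ∑' τ : Finset Dy, ind (IsTr τ ∧ Gd τ S) *
      ∫⁻ ω, ind (HasTr (sub (M.X γ u ω) A) τ) * ENNReal.ofReal |ω (ε τ S A)| ∂gm ≤
      ENNReal.ofReal (c1 * δ) * (2 * eE (‖g‖ ^ 2 / 2)) *
        gm {ω | 0 < M.X γ (u + 1) ω (S.tail ++ A)} := by
    intro A S hS
    have hl : 1 ≤ S.length := by rw [(hT1.1 _ _).1 hS]; omega
    have hm : ∀ τ : Finset Dy, Measurable fun ω : Om =>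
        ind (IsTr τ ∧ Gd τ S) * ind (HasTr (sub (M.X γ u ω) A) τ) * WG g ω := fun τ =>
      (measurable_const.mul (meas_ind (meas_P hT3 M γ u τ A))).mul (meas_WG g)
    have h1 : ∀ τ : Finset Dy, ind (IsTr τ ∧ Gd τ S) *
        ∫⁻ ω, ind (HasTr (sub (M.X γ u ω) A) τ) * ENNReal.ofReal |ω (ε τ S A)| ∂gm ≤
        ENNReal.ofReal (c1 * δ) * ∫⁻ ω, ind (IsTr τ ∧ Gd τ S) *
          ind (HasTr (sub (M.X γ u ω) A) τ) * WG g ω ∂gm := by
      intro τ
      by_cases h : IsTr τ ∧ Gd τ S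
      · obtain ⟨a1, a2, a3, ν, a4⟩ := hε τ S A h.1 h.2
        simp only [ind_pos h, one_mul]
        exact single hG1D hG2 hMOD hG hT1 hT3 M γ u hg hδ h.1
          (h.1 _ (tail_mem hT1 h.1 a1 hl) _ List.nil_suffix) A a2 a3 a4
      · simp [ind_neg h]
    refine (ENNReal.tsum_le_tsum h1).trans ?_
    rw [ENNReal.tsum_mul_left, ← lintegral_tsum fun τ => (hm τ).aemeasurable, mul_assoc]
    refine mul_le_mul_right (le_trans (lintegral_mono fun ω => ?_)
      (tiltW hG2 hT3 M γ u hg (S.tail ++ A))) _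
    rw [ENNReal.tsum_mul_right]
    exact mul_le_mul_left (sum_tr hT1 (fun τ => Gd τ S) S hl
      (fun τ h1 h2 => (hε τ S A h1 h2).1) _) _
  refine (ENNReal.tsum_le_tsum fun A => Finset.sum_le_sum (key A)).trans ?_
  simp_rw [← Finset.mul_sum]
  rw [ENNReal.tsum_mul_left]
  refine (mul_le_mul_right ((sum_tail hT1 k fun P => gm {ω | 0 < M.X γ (u + 1) ω P}).trans
    (mul_le_mul_right hF _)) _).trans ?_
  have h2 : ∀ t : ℝ, 2 * eE t = ENNReal.ofReal (2 * Real.exp t) := fun t => by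
    rw [ENNReal.ofReal_mul (by norm_num), eE]; simp
  have h4 : ∀ t : ℝ, 4 * ENNReal.ofReal t = ENNReal.ofReal (4 * t) := fun t => by
    rw [ENNReal.ofReal_mul (by norm_num)]; simp
  rw [h2, h4, ← ENNReal.ofReal_mul (by positivity), ← ENNReal.ofReal_mul (by positivity)]
  refine ENNReal.ofReal_le_ofReal ?_
  have e1 : Real.exp (γ * (u + 1) + γ ^ 2 * |M.C0 + kS [] []| / 2) =
      Real.exp (γ + γ ^ 2 * |M.C0 + kS [] []| / 2) * Real.exp (γ * u) := by
    rw [← Real.exp_add]; congr 1; ring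
  rw [e1]
  have h5 : K * (Real.exp (γ + γ ^ 2 * |M.C0 + kS [] []| / 2) * Real.exp (γ * u)) ≤
      |K| * (Real.exp (γ + γ ^ 2 * |M.C0 + kS [] []| / 2) * Real.exp (γ * u)) :=
    mul_le_mul_of_nonneg_right (le_abs_self K) (by positivity)
  calc _ ≤ c1 * δ * (2 * Real.exp (‖g‖ ^ 2 / 2)) * (4 * (|K| *
        (Real.exp (γ + γ ^ 2 * |M.C0 + kS [] []| / 2) * Real.exp (γ * u)))) := by gcongr
    _ = _ := by ring

end

end Pool.Agent.Lib.APPS
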