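import Pool.Agent.Lib.APPS.Blue5

/-!
Block NUM, first part: the bound for one node, one tree, one leaf and one point.
-/

namespace Pool.Agent.Lib.APPS

open MeasureTheory ProbabilityTheory Filter Topology Set Metric
open scoped NNReal ENNReal RealInnerProductSpace Classical

noncomputable section

namespace NUM

theorem meas_ind {α : Type} [MeasurableSpace α] {p : α → Prop} (h : MeasurableSet {a | p a}) :
    Measurable fun a => ind (p a) := by
  unfold ind
  exact Measurable.ite h measurable_const measurable_const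

theorem ind_mono {p q : Prop} (h : p → q) : ind p ≤ ind q := by
  unfold ind
  by_cases hp : p
  · simp [hp, h hp]
  · simp [hp]

theorem ind_pos {p : Prop} (h : p) : ind p = 1 := if_pos h
theorem ind_neg {p : Prop} (h : ¬p) : ind p = 0 := if_neg h

theorem jen (hG4 : St_G4) (I : Finset Dy) (e : Dy → HH) (E : (Dy → ℝ) → Prop)
    (hE : MeasurableSet {x | E x}) (hloc : ∀ x x', (∀ B ∈ I, x B = x' B) → E x → E x')
    (y w : HH) (hw : w ∈ Submodule.span ℝ (range fun i : I => e i))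
    (hyw : ∀ B ∈ I, ⟪y - w, e B⟫ = 0) (Ξ : ℝ → ℝ) (hc : ConvexOn ℝ univ Ξ) (h0 : ∀ t, 0 ≤ Ξ t) :
    ∫⁻ ω, ind (E fun B => ω (e B)) * ENNReal.ofReal (Ξ (ω w)) ∂gm ≤
      ∫⁻ ω, ind (E fun B => ω (e B)) * ENNReal.ofReal (Ξ (ω y)) ∂gm := by
  let ex : (I → ℝ) → Dy → ℝ := fun t B => if h : B ∈ I then t ⟨B, h⟩ else 0
  have hex : Measurable ex := measurable_pi_lambda _ fun B => by
    by_cases h : B ∈ I
    · simp only [ex, dif_pos h]; exact measurable_pi_apply _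
    · simp only [ex, dif_neg h]; exact measurable_const
  have key := hG4.1 I (fun i => e i) y w hw (fun i => hyw i i.2) Ξ hc h0
    (fun t => ind (E (ex t))) ((meas_ind hE).comp hex)
  have e1 : ∀ ω : Om, E (ex fun i : I => ω (e i)) ↔ E fun B => ω (e B) := fun ω =>
    ⟨hloc _ _ fun B hB => by simp only [ex, dif_pos hB],
      hloc _ _ fun B hB => by simp only [ex, dif_pos hB]⟩
  simpa only [e1] using key

theorem min_exp {M β : ℝ} (hM : 0 < M) (h0 : 0 < β) (h1 : β < 1) (a b : ℝ) :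
    min M (Real.exp (β * a)) ≤ Real.exp (β * b) + M * |a - b| := by
  have hb := Real.exp_pos (β * b)
  rcases le_total a b with h | h
  · refine (min_le_right _ _).trans ((Real.exp_le_exp.2 (by nlinarith)).trans
      (le_add_of_nonneg_right (by positivity)))
  · rw [abs_of_nonneg (by linarith)]
    have hm : 0 ≤ min M (Real.exp (β * a)) := le_min hM.le (Real.exp_pos _).le
    have e : Real.exp (β * b) = Real.exp (β * a) * Real.exp (-(β * (a - b))) := by
      rw [← Real.exp_add]; congr 1; ring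
    have h2 := Real.add_one_le_exp (-(β * (a - b)))
    have h3 : min M (Real.exp (β * a)) * Real.exp (-(β * (a - b))) ≤ Real.exp (β * b) :=
      e ▸ mul_le_mul_of_nonneg_right (min_le_right _ _) (Real.exp_pos _).le
    have h4 := mul_le_mul_of_nonneg_left h2 hm
    have h5 : β * (a - b) ≤ a - b := by nlinarith
    have h6 := mul_le_mul (min_le_left M (Real.exp (β * a))) h5 (by nlinarith) hM.le
    linarith

theorem cvx (β c : ℝ) : ConvexOn ℝ univ fun t : ℝ => Real.exp (β * (t + c)) := by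
  refine ⟨convex_univ, fun x _ y _ a b ha hb hab => ?_⟩
  have := convexOn_exp.2 (mem_univ (β * (x + c))) (mem_univ (β * (y + c))) ha hb hab
  simp only [smul_eq_mul] at this ⊢
  refine le_trans (le_of_eq ?_) this
  congr 1
  have : b = 1 - a := by linarith
  rw [this]; ring

def fam (A : Dy) (τ : Finset Dy) : Finset Dy :=
  A.tails.toFinset ∪ (τ ∪ lvs τ).image (· ++ A)

theorem mem_fam {A : Dy} {τ : Finset Dy} {B : Dy} :
    B ∈ fam A τ ↔ B <:+ A ∨ ∃ B0, (B0 ∈ τ ∨ B0 ∈ lvs τ) ∧ B0 ++ A = B := by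
  simp only [fam, Finset.mem_union, List.mem_toFinset, List.mem_tails, Finset.mem_image]

theorem int_unif (B : Dy) (u : ℂ → ℝ) :
    ∫ x, u x ∂unif B = (side B ^ 2)⁻¹ * ∫ x in box B, u x := by
  unfold unif
  rw [integral_smul_measure, ENNReal.toReal_ofReal (by positivity), one_div, smul_eq_mul]

theorem nil_mem {τ : Finset Dy} (hτ : IsTr τ) : [] ∈ τ ∨ [] ∈ lvs τ := by
  rcases τ.eq_empty_or_nonempty with h | ⟨B, hB⟩
  · right; simp [h, lvs]
  · exact Or.inl (hτ B hB _ List.nil_suffix)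

theorem gr_orth (hMOD : St_MOD) (hFE : St_FE) (hG : St_GEO1) (M : Model) (hO : box [] ⊆ M.O)
    {τ : Finset Dy} (hτ : IsTr τ) (A : Dy) {φ : ℂ → ℝ} (h1 : LipC φ)
    (h2 : tsupport φ ⊆ interior (box A)) (h3 : ∀ B ∈ lvs τ, ∫ x, φ x ∂unif (B ++ A) = 0) :
    ∀ B ∈ fam A τ, ⟪gr φ, M.eS B⟫ = 0 := by
  have hsub : ∀ B, B <:+ A → tsupport φ ⊆ box B := fun B hB =>
    h2.trans (interior_subset.trans ((hG.2.2.2.2.1 A B).2 hB))
  have eg : ∀ B, ⟪gr φ, M.eS B⟫ = ∫ x, φ x ∂unif B := fun B => by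
    rw [real_inner_comm]
    exact M.eg _ φ (hFE.2.2.2.2.2.2.2.1 B).1.1 h1 ((hsub [] List.nil_suffix).trans hO)
  have k1 : ∀ B0, (B0 ∈ τ ∨ B0 ∈ lvs τ) → ⟪gr φ, M.eS (B0 ++ A)⟫ = 0 := by
    rintro B0 (h | h)
    · rw [(hMOD M).2.2.2.2.2.2.2.2.2.2.2.2.2.1 τ hτ B0 h A, inner_sum]
      refine Finset.sum_eq_zero fun S hS => ?_
      rw [real_inner_smul_right, eg, h3 S (Finset.mem_filter.1 hS).1, mul_zero]
    · rw [eg, h3 B0 h]
  have k2 : ∀ B, B <:+ A → ∫ x in box B, φ x = ∫ x, φ x := fun B hB =>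
    setIntegral_eq_integral_of_forall_compl_eq_zero fun x hx =>
      image_eq_zero_of_notMem_tsupport fun k => hx (hsub B hB k)
  intro B hB
  rcases mem_fam.1 hB with h | ⟨B0, h, rfl⟩
  · have k3 := k1 [] (nil_mem hτ)
    rw [List.nil_append, eg, int_unif, k2 A (List.suffix_refl _)] at k3
    have hs := (hG.1 A).1
    rw [eg, int_unif, k2 B h, (mul_eq_zero.1 k3).resolve_left (by positivity), mul_zero]
  · exact k1 B0 h

theorem fam_ok (hT1 : St_T1) {τ : Finset Dy} (hτ : IsTr τ) {S : Dy} (hS : S ∈ lvs τ) (A : Dy) :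
    ∀ B ∈ fam A τ, B <:+ S ++ A ∨ ¬S ++ A <:+ B := by
  intro B hB
  rcases mem_fam.1 hB with h | ⟨B0, h, rfl⟩
  · exact Or.inl (List.suffix_append_of_suffix h)
  · by_cases k : S <:+ B0
    · rcases h with h | h
      · exact (((hT1.2.2.2.2.2.2.2.1 τ hτ S).1 hS).1 (hτ B0 h S k)).elim
      · rw [hT1.2.2.2.2.2.2.2.2.1 τ hτ S hS B0 h k]
        exact Or.inl (List.suffix_refl _)
    · exact Or.inr fun k' => k (List.suffix_append_self_iff.1 k')

/-- the event that `A` is internal and that the tree below `A` is `τ` -/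
def Ev (A : Dy) (τ : Finset Dy) (x : Dy → ℝ) : Prop := IntN x A ∧ HasTr (sub x A) τ

theorem ev_loc (hT1 : St_T1) {τ : Finset Dy} (hτ : IsTr τ) (A : Dy) (x x' : Dy → ℝ)
    (h : ∀ B ∈ fam A τ, x B = x' B) (hx : Ev A τ x) : Ev A τ x' := by
  refine ⟨fun B hB => ?_, ?_⟩
  · rw [← h B (mem_fam.2 (Or.inl hB))]; exact hx.1 B hB
  · have k := (hT1.2.2.2.2.2.2.2.2.2.2.1 _ τ hτ).1 hx.2
    refine (hT1.2.2.2.2.2.2.2.2.2.2.1 _ τ hτ).2 ⟨fun B hB => ?_, fun B hB => ?_⟩
    · have := k.1 B hB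
      simp only [sub] at this ⊢
      rwa [← h _ (mem_fam.2 (Or.inr ⟨B, Or.inl hB, rfl⟩))]
    · have := k.2 B hB
      simp only [sub] at this ⊢
      rwa [← h _ (mem_fam.2 (Or.inr ⟨B, Or.inr hB, rfl⟩))]

theorem ev_meas (hT3 : St_T3) (A : Dy) (τ : Finset Dy) : MeasurableSet {x | Ev A τ x} :=
  (hT3.2.1 A).1.inter (hT3.2.2.2.2.1 A (hT3.2.2.1 τ).2.1)

theorem meas_drift (Q u : ℝ) : Measurable fun x : Dy → ℝ => drift Q x u :=
  measurable_pi_lambda _ fun S => ((measurable_pi_apply S).add_const _).sub_const _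

theorem local_bd (hG4 : St_G4) (hT1 : St_T1) (hT3 : St_T3) {γ : ℝ} (h0 : 0 < bt γ)
    (h1 : bt γ < 1) (M : Model) {τ : Finset Dy} (hτ : IsTr τ) (A : Dy) (u c : ℝ) {Mx : ℝ}
    (hMx : 0 < Mx) (Y w g y : HH)
    (hw : w ∈ Submodule.span ℝ (range fun i : fam A τ => M.eS i))
    (hy : ∀ B ∈ fam A τ, ⟪y, M.eS B⟫ = ⟪Y, M.eS B⟫) (hg : ∀ B ∈ fam A τ, ⟪g, M.eS B⟫ = 0) :
    ∫⁻ ω, ind (Ev A τ (M.X γ u ω)) * ENNReal.ofReal (min Mx (Real.exp (bt γ * (ω w + c)))) ∂gm ≤
      ∫⁻ ω, ind (Ev A τ (M.X γ u ω)) * eE (bt γ * (ω y + c)) ∂gm +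
      ENNReal.ofReal Mx * ∫⁻ ω, ind (HasTr (sub (M.X γ u ω) A) τ) *
        ENNReal.ofReal |ω (Y - w - g)| ∂gm := by
  set U := Submodule.span ℝ (range fun i : fam A τ => M.eS i) with hU
  have : FiniteDimensional ℝ U := FiniteDimensional.span_of_finite ℝ (finite_range _)
  obtain ⟨p, hp, q, hq, hY⟩ := U.exists_add_mem_mem_orthogonal Y
  have hq' : ∀ B ∈ fam A τ, ⟪Y - p, M.eS B⟫ = 0 := fun B hB => by
    rw [hY, add_sub_cancel_left]
    have hm : M.eS B ∈ U := Submodule.subset_span ⟨⟨B, hB⟩, rfl⟩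
    exact Submodule.inner_left_of_mem_orthogonal hm hq
  have hE : MeasurableSet {x | Ev A τ (drift (QQ γ) x u)} := meas_drift _ _ (ev_meas hT3 A τ)
  have hloc : ∀ x x', (∀ B ∈ fam A τ, x B = x' B) → Ev A τ (drift (QQ γ) x u) →
      Ev A τ (drift (QQ γ) x' u) := fun x x' h =>
    ev_loc hT1 hτ A _ _ fun B hB => by simp only [drift, h B hB]
  have j1 := jen hG4 (fam A τ) M.eS _ hE hloc y p hp (fun B hB => by
    rw [inner_sub_left, hy B hB, ← inner_sub_left, hq' B hB]) _ (cvx (bt γ) c)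
    fun t => (Real.exp_pos _).le
  have j2 := jen hG4 (fam A τ) M.eS _ hE hloc (Y - w - g) (p - w) (U.sub_mem hp hw)
    (fun B hB => by
      rw [show Y - w - g - (p - w) = Y - p - g by abel, inner_sub_left, hq' B hB, hg B hB,
        sub_zero]) _ convexOn_univ_norm fun t => norm_nonneg t
  have hI : Measurable fun ω => ind (Ev A τ (M.X γ u ω)) :=
    (meas_ind (ev_meas hT3 A τ)).comp (hT3.2.2.2.2.2.2.2.2.2.2.1 M γ u).1
  have m1 : Measurable fun ω : Om => ind (Ev A τ (M.X γ u ω)) *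
      ENNReal.ofReal (Real.exp (bt γ * (ω p + c))) :=
    hI.mul (((meas_ev p).add_const c).const_mul _).exp.ennreal_ofReal
  refine le_trans (lintegral_mono (g := fun ω => ind (Ev A τ (M.X γ u ω)) *
    ENNReal.ofReal (Real.exp (bt γ * (ω p + c))) + ENNReal.ofReal Mx *
      (ind (Ev A τ (M.X γ u ω)) * ENNReal.ofReal ‖ω (p - w)‖)) fun ω => ?_) ?_
  · beta_reduce
    rw [mul_left_comm, ← mul_add, ← ENNReal.ofReal_mul hMx.le,
      ← ENNReal.ofReal_add (by positivity) (by positivity)]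
    refine mul_le_mul_right (ENNReal.ofReal_le_ofReal ?_) _
    have := min_exp hMx h0 h1 (ω w + c) (ω p + c)
    rwa [add_sub_add_right_eq_sub, abs_sub_comm, ← map_sub] at this
  · rw [lintegral_add_left m1, lintegral_const_mul' _ _ ENNReal.ofReal_ne_top]
    refine add_le_add j1 (mul_le_mul_right (j2.trans (lintegral_mono fun ω => ?_)) _)
    exact mul_le_mul_left (ind_mono fun k => k.2) _

theorem kloc_eq (h0 : St_SCR0) (γ : ℝ) (M : Model) {τ : Finset Dy} (hτ : IsTr τ) (A S : Dy)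
    (u : ℝ) (z : ℂ) (ω : Om) :
    kloc (QQ γ) τ (sub (M.X γ u ω) A) z - QQ γ * S.length * l2 =
      ω (∑ B : lvs τ, lamL τ z B • M.eS (B ++ A)) + (u - QQ γ * (S ++ A).length * l2) := by
  have h1 := (h0 τ hτ).1 z
  have e : ∀ B : lvs τ, lamL τ z B * (sub (M.X γ u ω) A B + QQ γ * (B : Dy).length * l2) =
      lamL τ z B * ω (M.eS (B ++ A)) + lamL τ z B * (u - QQ γ * A.length * l2) := fun B => by
    simp only [sub, Model.X, drift, List.length_append, Nat.cast_add]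
    ring
  simp only [kloc, e, Finset.sum_add_distrib, ← Finset.sum_mul, h1, map_sum, map_smul,
    smul_eq_mul, List.length_append, Nat.cast_add]
  ring

theorem ball_sub (hG : St_GEO1) {d : ℝ} {z : ℂ} (hz : z ∈ sq d) (S : Dy) :
    closedBall (zS S z) (d * side S) ⊆ box S := by
  intro y hy
  have hs := (hG.1 S).1
  rw [mem_closedBall_iff_norm] at hy
  have h1 := abs_le.1 ((Complex.abs_re_le_norm _).trans hy)
  have h2 := abs_le.1 ((Complex.abs_im_le_norm _).trans hy)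
  simp only [zS, Complex.sub_re, Complex.add_re, Complex.re_ofReal_mul, Complex.sub_im,
    Complex.add_im, Complex.im_ofReal_mul] at h1 h2
  obtain ⟨⟨a1, a2⟩, a3, a4⟩ := hz
  refine ⟨⟨?_, ?_⟩, ?_, ?_⟩ <;> nlinarith [h1.1, h1.2, h2.1, h2.2]

theorem ball_sub0 (hG : St_GEO1) {d : ℝ} {z : ℂ} (hz : z ∈ sq d) : closedBall z d ⊆ box [] := by
  simpa [zS, corner, side] using ball_sub hG hz []

theorem eps_circ (hMOD : St_MOD) (hFE : St_FE) (hG : St_GEO1) (h0 : St_SCR0) (hYV : St_YV)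
    (M : Model) (hO : closedBall (ctr []) 3 ⊆ M.O) (hO' : box [] ⊆ M.O) {τ : Finset Dy}
    (hτ : IsTr τ) (A S : Dy) {d : ℝ} (hd : 0 < d) {z : ℂ} (hz : z ∈ sq d) (z' : ℂ) {φ : ℂ → ℝ}
    (h1 : LipC φ) (h2 : tsupport φ ⊆ interior (box A)) :
    ⟪M.Yv (zS (S ++ A) z) (d * side (S ++ A)) - ∑ B : lvs τ, lamL τ z' B • M.eS (B ++ A) - gr φ,
      M.eC (ctr A) (2 * side A)⟫ = 0 := by
  obtain ⟨hs, hs1⟩ := hG.1 A
  have hA : box A ⊆ closedBall (ctr A) (2 * side A) := fun y hy =>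
    mem_closedBall_iff_norm.2 (((hG.2.2.2.1 A).2.2.2.1 y hy).trans (by linarith))
  have hB : ∀ B, box (B ++ A) ⊆ closedBall (ctr A) (2 * side A) := fun B =>
    ((hG.2.2.2.2.1 _ _).2 (List.suffix_append B A)).trans hA
  have hA0 : box A ⊆ box [] := (hG.2.2.2.2.1 _ _).2 List.nil_suffix
  have hb : closedBall (ctr A) (2 * side A) ⊆ M.O := by
    refine Subset.trans (closedBall_subset_closedBall' ?_) hO
    have := (hG.2.2.2.1 []).2.2.2.1 _ (hA0 (hG.2.2.2.1 A).2.2.1)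
    simp only [side, List.length_nil, pow_zero] at this
    rw [dist_eq_norm]
    linarith
  have k1 : ∀ B, ⟪M.eS (B ++ A), M.eC (ctr A) (2 * side A)⟫ =
      ⟪M.eC (ctr A) (2 * side A), M.eC (ctr A) (2 * side A)⟫ := fun B => by
    have := (hMOD M).2.2.2.2.2.2.2.2.2.1 (ctr A) _ _ (unif (B ++ A)) (by positivity) le_rfl
      (hFE.2.2.2.2.2.2.2.1 _).1 (measure_mono_null (compl_subset_compl.2 (hB B))
        (hFE.2.2.2.2.2.2.2.1 _).2) hb
    rwa [inner_sub_left, sub_eq_zero] at this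
  obtain ⟨C, hC⟩ := hYV
  have k2 := (hC M (S ++ A) _ _ hO' (mul_pos hd (hG.1 _).1) (ball_sub hG hz _)).2.2.2.2.2.2
    (ctr A) _ (by positivity) (hB S)
  rw [inner_sub_left, sub_eq_zero, k1] at k2
  have hc := hFE.2.2.2.2.2.2.2.2.1 (ctr A) (2 * side A) (by positivity)
  have k3 : ⟪gr φ, M.eC (ctr A) (2 * side A)⟫ = 0 := by
    rw [real_inner_comm]
    refine (M.eg _ φ hc.1.1 h1 (h2.trans (interior_subset.trans (hA0.trans hO')))).trans ?_
    refine integral_eq_zero_of_ae ?_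
    filter_upwards [measure_eq_zero_iff_ae_notMem.1 hc.2.1] with x hx
    refine image_eq_zero_of_notMem_tsupport fun k => ?_
    have h3 := (hG.2.2.2.1 A).2.2.2.1 x (interior_subset (h2 k))
    rw [notMem_compl_iff, mem_sphere_iff_norm] at hx
    linarith
  rw [inner_sub_left, inner_sub_left, k2, k3, sum_inner]
  simp only [real_inner_smul_left, k1, ← Finset.sum_mul, (h0 τ hτ).1 z']
  ring

theorem leaf_of (hT1 : St_T1) {τ : Finset Dy} {A S : Dy} (hS : S ∈ lvs τ) {x : Dy → ℝ}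
    (h : Ev A τ x) : Leaf x (S ++ A) := by
  have k := ((hT1.2.2.2.2.2.2.2.2.2.2.2.1 _ τ h.2).2.2.2 S).2 hS
  refine ⟨k.1, fun B hB hne => ?_⟩
  rcases List.suffix_or_suffix_of_suffix hB (List.suffix_append S A) with h1 | ⟨B0, rfl⟩
  · exact h.1 B h1
  · exact k.2 B0 (List.suffix_append_self_iff.1 hB) fun e => hne (by rw [e])

theorem sum_tau (hT1 : St_T1) (Gd : Finset Dy → Prop) {A S : Dy} (hS : ∀ τ, Gd τ → S ∈ lvs τ)
    (x : Dy → ℝ) (c : ℝ≥0∞) :
    ∑' τ : Finset Dy, ind (Gd τ) * (ind (Ev A τ x) * c) ≤ ind (Leaf x (S ++ A)) * c := by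
  rw [tsum_eq_single (tr (sub x A)) fun τ hτ => by
    rw [ind_neg (p := Ev A τ x) fun k => hτ (hT1.2.2.2.2.2.2.2.2.2.2.2.1 _ τ k.2).2.1.symm,
      zero_mul, mul_zero]]
  by_cases h1 : Gd (tr (sub x A))
  · rw [ind_pos h1, one_mul]
    exact mul_le_mul_left (ind_mono fun k => leaf_of hT1 (hS _ h1) k) _
  · rw [ind_neg h1, zero_mul]; exact bot_le

theorem sum_pairs (hT1 : St_T1) {k : ℕ} (hk : 1 ≤ k) (f : Dy → ℝ≥0∞) :
    ∑' A : Dy, ∑ S ∈ lev k, f (S ++ A) ≤ ∑' S : Dy, ind (S ≠ []) * f S := by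
  have hinj : Function.Injective fun p : Dy × lev k => (p.2 : Dy) ++ p.1 := by
    rintro ⟨A, S, hS⟩ ⟨A', S', hS'⟩ h
    have := List.append_inj h (by rw [(hT1.1 k S).1 hS, (hT1.1 k S').1 hS'])
    exact Prod.ext this.2 (Subtype.ext this.1)
  refine le_trans (le_of_eq ?_)
    (ENNReal.tsum_comp_le_tsum_of_injective hinj fun S => ind (S ≠ []) * f S)
  rw [ENNReal.tsum_prod']
  refine tsum_congr fun A => ?_
  rw [← Finset.tsum_subtype]
  refine tsum_congr fun S => ?_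
  rw [ind_pos, one_mul]
  intro e
  have h1 := (hT1.1 k S).1 S.2
  have h2 := congrArg List.length e
  simp only [List.length_append, List.length_nil] at h2
  omega

end NUM

end

end Pool.Agent.Lib.APPS
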