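import Pool.Agent.Lib.APPS.Blue3

/-!
Transfer of lattice chaos estimates to the measure `muZ ZQ`.
-/

namespace Pool.Agent.Lib.APPS

open MeasureTheory ProbabilityTheory Filter Topology Set Metric
open scoped NNReal ENNReal CompactlySupported BoundedContinuousFunction RealInnerProductSpace
  Classical

noncomputable section

namespace NU

def c0 {γ : ℝ} (D : QD γ) : ℝ := Real.exp (-(γ ^ 2 * Ie D.θ D.θ / 2))

def XZ {γ : ℝ} (D : QD γ) (f : Cyl → ℝ) (ω : D.Ω) : ℝ := ∫ w, f w ∂D.muZ D.ZQ ω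

theorem c0_pos {γ : ℝ} (D : QD γ) : 0 < c0 D := Real.exp_pos _

theorem supp_ball (hCYL : St_CYL) (f : C_c(Cyl, ℝ)) :
    ∃ T : ℝ, 0 < T ∧ ∀ x, x ≠ 0 → f (toCyl x) ≠ 0 → ‖x‖ ≤ T := by
  obtain ⟨T, hT⟩ := (hCYL.2.2.2.2.2.2.2.2.2.2.2.2.1 f).2.2.2
  refine ⟨Real.exp T, Real.exp_pos _, fun x hx h => ?_⟩
  have h1 := (abs_le.1 (hT _ h)).1
  have h2 : (toCyl x).1 = -Real.log ‖x‖ := rfl
  rw [h2] at h1
  rw [← Real.exp_log (norm_pos_iff.2 hx)]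
  exact Real.exp_le_exp.2 (by linarith)

theorem zq_meas (hBM2 : St_BM2) {γ : ℝ} (D : QD γ) :
    (Measurable fun p : D.Ω × ℝ => D.ZQ p.1 p.2) ∧ ∀ᵐ ω ∂D.P, Continuous (D.ZQ ω) := by
  have h := hBM2.2.2.2 D.Ω D.P D.β (hBM2.1 γ D).1
  refine ⟨h.2.2.2.2.1.sub (measurable_snd.const_mul _), ?_⟩
  filter_upwards [h.2.2.2.2.2.2.2.1] with ω hω
  exact hω.1.sub (continuous_const.mul continuous_id)

theorem xz_meas (hBM2 : St_BM2) (hBR0 : St_BR0) {γ : ℝ} (hγ : γ ∈ Ioo (0 : ℝ) 2) (D : QD γ)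
    (f : C_c(Cyl, ℝ)) : AEMeasurable (XZ D f) D.P :=
  ((hBR0 γ hγ D).2 D.ZQ (zq_meas hBM2 D).1 (zq_meas hBM2 D).2 f).2.1

theorem lint_eq {Ω : Type*} [MeasurableSpace Ω] (P : Measure Ω) [IsProbabilityMeasure P]
    {g : Ω → ℝ} (hg : AEMeasurable g P) (h01 : ∀ ω, 0 ≤ g ω ∧ g ω ≤ 1) :
    ∫⁻ ω, ENNReal.ofReal (g ω) ∂P = ENNReal.ofReal (∫ ω, g ω ∂P) := by
  refine (ofReal_integral_eq_lintegral_ofReal ?_ (ae_of_all _ fun ω => (h01 ω).1)).symm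
  refine Integrable.mono' (integrable_const (1 : ℝ)) hg.aestronglyMeasurable
    (ae_of_all _ fun ω => ?_)
  rw [Real.norm_eq_abs, abs_of_nonneg (h01 ω).1]
  exact (h01 ω).2

theorem port (hG1 : St_G1) (hCYL : St_CYL) (hBM2 : St_BM2) (hBR0 : St_BR0) (hBR : St_BR)
    (hM0 : St_M0) {γ : ℝ} (hγ : γ ∈ Ioo (0 : ℝ) 2) (D : QD γ) (f : C_c(Cyl, ℝ)) {φ : ℝ → ℝ}
    {Λ : ℝ≥0} (hφ : LipschitzWith Λ φ) (h01 : ∀ t, 0 ≤ φ t ∧ φ t ≤ 1) {B : ℝ≥0∞}
    (hB : ∃ L0 : ℕ, ∀ L ≥ L0, ∃ l0 : ℕ, ∀ l ≥ l0, ∀ M : Model,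
      ∫⁻ ω, ENNReal.ofReal (φ (M.Wlat γ L l f ω)) ∂gm ≤ B) :
    ∫⁻ ω, ENNReal.ofReal (φ (c0 D * XZ D f ω)) ∂D.P ≤ B := by
  have := (hBM2.1 γ D).2
  have : IsProbabilityMeasure gm := hG1.1
  obtain ⟨M⟩ := hM0
  obtain ⟨L0, hL0⟩ := hB
  refine ENNReal.le_of_forall_pos_le_add fun η hη _ => ?_
  obtain ⟨L1, hL1⟩ := (hBR γ hγ).2 D 1 (fun _ => f) Λ η (by exact_mod_cast hη)
  obtain ⟨l0, hl0⟩ := hL0 (max L0 L1) (le_max_left _ _)
  obtain ⟨l1, hl1⟩ := hL1 (max L0 L1) (le_max_right _ _)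
  have hBL : BL Λ fun s : Fin 1 → ℝ => φ (s 0) := by
    refine ⟨?_, fun s => ?_⟩
    · have := hφ.comp (LipschitzWith.eval (α := fun _ : Fin 1 => ℝ) 0)
      rw [mul_one] at this
      exact this
    · rw [abs_of_nonneg (h01 _).1]; exact (h01 _).2
  have h1 := hl1 (max l0 l1) (le_max_right _ _) M _ hBL
  have h2 := hl0 (max l0 l1) (le_max_left _ _) M
  obtain ⟨T, -, hT⟩ := supp_ball hCYL f
  have hW : Measurable (M.Wlat γ (max L0 L1) (max l0 l1) f) := (hBR γ hγ).1 M _ _ f ⟨T, hT⟩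
  have hm := hφ.continuous.measurable
  rw [lint_eq gm (g := fun ω => φ (M.Wlat γ (max L0 L1) (max l0 l1) f ω))
    (hm.comp hW).aemeasurable fun ω => h01 _] at h2
  rw [lint_eq D.P (g := fun ω => φ (c0 D * XZ D f ω))
    (hm.comp_aemeasurable ((xz_meas hBM2 hBR0 hγ D f).const_mul _)) fun ω => h01 _]
  have h3 := (abs_le.1 h1).1
  calc ENNReal.ofReal (∫ ω, φ (c0 D * XZ D f ω) ∂D.P)
      ≤ ENNReal.ofReal (∫ ω, φ (M.Wlat γ (max L0 L1) (max l0 l1) f ω) ∂gm + η) := by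
        apply ENNReal.ofReal_le_ofReal
        have : ∫ ω, φ (c0 D * XZ D f ω) ∂D.P = ∫ ω, φ (Real.exp (-(γ ^ 2 * Ie D.θ D.θ / 2)) *
          ∫ w, f w ∂D.muZ D.ZQ ω) ∂D.P := rfl
        linarith
    _ ≤ _ := ENNReal.ofReal_add_le
    _ ≤ B + η := by
        rw [ENNReal.ofReal_coe_nnreal]
        exact add_le_add h2 le_rfl

theorem lipPow {q N : ℝ} (hq : 1 ≤ q) (hN : 0 < N) :
    ∃ Λ : ℝ≥0, LipschitzWith Λ fun t : ℝ => (min (max t 0) N) ^ q / N ^ q := by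
  have h1 : ContDiff ℝ (1 : ℕ) fun x : ℝ => x ^ q / N ^ q :=
    (Real.contDiff_rpow_const_of_le (by simpa using hq)).div_const _
  obtain ⟨K, hK⟩ := h1.contDiffOn.exists_lipschitzOnWith (s := Icc 0 N) (by simp)
    (convex_Icc _ _) isCompact_Icc
  have h2 : LipschitzWith 1 fun t : ℝ => min (max t 0) N :=
    (LipschitzWith.id.max_const 0).min_const N
  refine ⟨K * 1, ?_⟩
  rw [← lipschitzOnWith_univ]
  exact hK.comp h2.lipschitzOnWith fun t _ => ⟨le_min (le_max_right _ _) hN.le, min_le_right _ _⟩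

theorem sup_pow {q : ℝ} (hq : 0 ≤ q) (t : ℝ) :
    ENNReal.ofReal t ^ q ≤ ⨆ n : ℕ, ENNReal.ofReal ((min (max t 0) (n + 1)) ^ q) := by
  obtain ⟨n, hn⟩ := exists_nat_ge (max t 0)
  refine le_iSup_of_le n (le_of_eq ?_)
  rw [min_eq_left (by linarith), ← ENNReal.ofReal_rpow_of_nonneg (le_max_right _ _) hq]
  congr 1
  rcases le_total t 0 with h | h
  · rw [max_eq_right h, ENNReal.ofReal_of_nonpos h, ENNReal.ofReal_zero]
  · rw [max_eq_left h]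

theorem momZ (hG1 : St_G1) (hCYL : St_CYL) (hBM2 : St_BM2) (hBR0 : St_BR0) (hBR : St_BR)
    (hM0 : St_M0) {γ : ℝ} (hγ : γ ∈ Ioo (0 : ℝ) 2) (D : QD γ) (f : C_c(Cyl, ℝ)) {q : ℝ}
    (hq : 1 ≤ q) {B : ℝ≥0∞}
    (hB : ∀ L : ℕ, ∃ l0 : ℕ, ∀ l ≥ l0, ∀ M : Model,
      ∫⁻ ω, ENNReal.ofReal (M.Wlat γ L l f ω) ^ q ∂gm ≤ B) :
    ∫⁻ ω, ENNReal.ofReal (c0 D * XZ D f ω) ^ q ∂D.P ≤ B := by
  have hq0 : 0 ≤ q := by linarith
  have hX := (xz_meas hBM2 hBR0 hγ D f).const_mul (c0 D)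
  refine (lintegral_mono fun ω => sup_pow hq0 _).trans ?_
  rw [lintegral_iSup']
  · refine iSup_le fun n => ?_
    have hN : (0 : ℝ) < n + 1 := by positivity
    have hNq : (0 : ℝ) < (n + 1 : ℝ) ^ q := Real.rpow_pos_of_pos hN q
    obtain ⟨Λ, hΛ⟩ := lipPow hq hN
    have h0 : ∀ t : ℝ, 0 ≤ min (max t 0) (n + 1 : ℝ) := fun t => le_min (le_max_right _ _) hN.le
    have hc : ENNReal.ofReal ((n + 1 : ℝ) ^ q) ≠ 0 := by simpa using hNq
    have key := port hG1 hCYL hBM2 hBR0 hBR hM0 hγ D f hΛ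
      (fun t => ⟨div_nonneg (Real.rpow_nonneg (h0 t) _) hNq.le,
        (div_le_one hNq).2 (Real.rpow_le_rpow (h0 t) (min_le_right _ _) hq0)⟩)
      (B := (ENNReal.ofReal ((n + 1 : ℝ) ^ q))⁻¹ * B) ⟨0, fun L _ => by
        obtain ⟨l0, hl0⟩ := hB L
        refine ⟨l0, fun l hl M => ?_⟩
        refine le_trans ?_ (mul_le_mul_right (hl0 l hl M) _)
        rw [← lintegral_const_mul' _ _ (ENNReal.inv_ne_top.2 hc)]
        refine lintegral_mono fun ω => ?_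
        rw [ENNReal.ofReal_div_of_pos hNq, div_eq_mul_inv, mul_comm]
        refine mul_le_mul_right ?_ _
        rw [← ENNReal.ofReal_rpow_of_nonneg (h0 _) hq0]
        refine ENNReal.rpow_le_rpow ?_ hq0
        refine (ENNReal.ofReal_le_ofReal (min_le_left _ _)).trans (le_of_eq ?_)
        rcases le_total (M.Wlat γ L l f ω) 0 with h | h
        · rw [max_eq_right h, ENNReal.ofReal_of_nonpos h, ENNReal.ofReal_zero]
        · rw [max_eq_left h]⟩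
    calc ∫⁻ ω, ENNReal.ofReal ((min (max (c0 D * XZ D f ω) 0) (n + 1)) ^ q) ∂D.P
        = ENNReal.ofReal ((n + 1 : ℝ) ^ q) * ∫⁻ ω, ENNReal.ofReal
            ((min (max (c0 D * XZ D f ω) 0) (n + 1)) ^ q / (n + 1 : ℝ) ^ q) ∂D.P := by
          rw [← lintegral_const_mul' _ _ ENNReal.ofReal_ne_top]
          refine lintegral_congr fun ω => ?_
          rw [← ENNReal.ofReal_mul hNq.le, mul_div_cancel₀ _ hNq.ne']
      _ ≤ ENNReal.ofReal ((n + 1 : ℝ) ^ q) * ((ENNReal.ofReal ((n + 1 : ℝ) ^ q))⁻¹ * B) :=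
          mul_le_mul_right key _
      _ = B := by rw [← mul_assoc, ENNReal.mul_inv_cancel hc ENNReal.ofReal_ne_top, one_mul]
  · intro n
    exact (((hX.max aemeasurable_const).min aemeasurable_const).pow_const q).ennreal_ofReal
  · refine ae_of_all _ fun ω => fun a b hab => ENNReal.ofReal_le_ofReal ?_
    refine Real.rpow_le_rpow (le_min (le_max_right _ _) (by positivity)) ?_ hq0
    have : (a : ℝ) ≤ b := by exact_mod_cast hab
    exact min_le_min le_rfl (by linarith)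

theorem posZ (hG1 : St_G1) (hCYL : St_CYL) (hBM2 : St_BM2) (hBR0 : St_BR0) (hBR : St_BR)
    (hWLB : St_WLB) (hM0 : St_M0) {γ : ℝ} (hγ : γ ∈ Ioo (0 : ℝ) 2) (D : QD γ) (f : C_c(Cyl, ℝ))
    (hf : ∀ w, 0 ≤ f w) (hne : ∃ w, f w ≠ 0) : ∀ᵐ ω ∂D.P, XZ D f ω ≠ 0 := by
  rw [ae_iff]
  refine le_antisymm (ENNReal.le_of_forall_pos_le_add fun η hη _ => ?_) zero_le
  rw [zero_add]
  obtain ⟨ε, hε, L0, hL0⟩ := (hWLB γ hγ).2 f hf hne η (by exact_mod_cast hη)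
  have hφ : LipschitzWith ‖ε⁻¹‖₊ fun t : ℝ => max (min (1 - ε⁻¹ * t) 1) 0 := by
    refine (LipschitzWith.min_const ?_ 1).max_const 0
    refine LipschitzWith.of_dist_le_mul fun a b => le_of_eq ?_
    rw [Real.dist_eq, Real.dist_eq, coe_nnnorm, Real.norm_eq_abs, ← abs_mul, ← abs_neg]
    congr 1
    ring
  have h01 : ∀ t : ℝ, 0 ≤ max (min (1 - ε⁻¹ * t) 1) 0 ∧ max (min (1 - ε⁻¹ * t) 1) 0 ≤ 1 :=
    fun t => ⟨le_max_right _ _, max_le (min_le_right _ _) zero_le_one⟩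
  obtain ⟨T, -, hT⟩ := supp_ball hCYL f
  have key := port hG1 hCYL hBM2 hBR0 hBR hM0 hγ D f hφ h01 (B := η) ⟨L0, fun L hL => by
    obtain ⟨l0, hl0⟩ := hL0 L hL
    refine ⟨l0, fun l hl M => ?_⟩
    have h1 := hl0 l hl M
    rw [ENNReal.ofReal_coe_nnreal] at h1
    refine le_trans ?_ h1
    have hW : Measurable (M.Wlat γ L l f) := (hBR γ hγ).1 M _ _ f ⟨T, hT⟩
    rw [← lintegral_indicator_one (measurableSet_le hW measurable_const)]
    refine lintegral_mono fun ω => ?_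
    by_cases h : M.Wlat γ L l f ω ≤ ε
    · rw [indicator_of_mem (show ω ∈ {ω | M.Wlat γ L l f ω ≤ ε} from h)]
      exact ENNReal.ofReal_le_one.2 (h01 _).2
    · have : 1 - ε⁻¹ * M.Wlat γ L l f ω ≤ 0 := by
        rw [sub_nonpos, ← div_eq_inv_mul, le_div_iff₀ hε]
        linarith [not_le.1 h]
      rw [max_eq_right ((min_le_left _ _).trans this), ENNReal.ofReal_zero]
      exact zero_le⟩
  refine le_trans ?_ key
  have hm : AEMeasurable (fun ω => ENNReal.ofReal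
      (max (min (1 - ε⁻¹ * (c0 D * XZ D f ω)) 1) 0)) D.P :=
    (hφ.continuous.measurable.comp_aemeasurable
      ((xz_meas hBM2 hBR0 hγ D f).const_mul _)).ennreal_ofReal
  have h2 := mul_meas_ge_le_lintegral₀ hm 1
  rw [one_mul] at h2
  refine le_trans (measure_mono fun ω hω => ?_) h2
  have : XZ D f ω = 0 := not_not.1 hω
  simp [this]

end NU

end

end Pool.Agent.Lib.APPS
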