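import Pool.Agent.Lib.APPS.B_NUa

/-!
Moments of the lateral chaos measure.
-/

namespace Pool.Agent.Lib.APPS

open MeasureTheory ProbabilityTheory Filter Topology Set Metric
open scoped NNReal ENNReal CompactlySupported BoundedContinuousFunction RealInnerProductSpace
  Classical

noncomputable section

namespace NU

theorem ofReal_int {m : Measure Cyl} [IsFiniteMeasureOnCompacts m] {f : Cyl → ℝ}
    (hc : Continuous f) (hs : HasCompactSupport f) (hf : ∀ w, 0 ≤ f w) :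
    ENNReal.ofReal (∫ w, f w ∂m) = ∫⁻ w, ENNReal.ofReal (f w) ∂m :=
  ofReal_integral_eq_lintegral_ofReal (hc.integrable_of_hasCompactSupport hs) (ae_of_all _ hf)

theorem wgt_fin (γ : ℝ) {z : ℝ → ℝ} (hz : Continuous z) (m : Measure Cyl)
    [IsFiniteMeasureOnCompacts m] : IsFiniteMeasureOnCompacts (wgt γ z m) := by
  have : IsLocallyFiniteMeasure (wgt γ z m) :=
    IsLocallyFiniteMeasure.withDensity_ofReal (f := fun w : Cyl => Real.exp (γ * z w.1))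
      (by fun_prop)
  infer_instance

theorem dens_meas (γ : ℝ) {z : ℝ → ℝ} (hz : Continuous z) :
    Measurable fun w : Cyl => eE (γ * z w.1) :=
  (by fun_prop : Continuous fun w : Cyl => Real.exp (γ * z w.1)).measurable.ennreal_ofReal

theorem lower (γ : ℝ) {z : ℝ → ℝ} (hz : Continuous z) (m : Measure Cyl)
    [IsFiniteMeasureOnCompacts m] (f : C_c(Cyl, ℝ)) (hf : ∀ w, 0 ≤ f w) {a : ℝ}
    (ha : ∀ w, f w ≠ 0 → a ≤ γ * z w.1) :
    eE a * ENNReal.ofReal (∫ w, f w ∂m) ≤ ENNReal.ofReal (∫ w, f w ∂wgt γ z m) := by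
  have := wgt_fin γ hz m
  rw [ofReal_int (map_continuous f) f.hasCompactSupport hf,
    ofReal_int (map_continuous f) f.hasCompactSupport hf, wgt,
    lintegral_withDensity_eq_lintegral_mul _ (dens_meas γ hz)
      (map_continuous f).measurable.ennreal_ofReal,
    ← lintegral_const_mul' _ _ (show eE a ≠ ∞ from ENNReal.ofReal_ne_top)]
  refine lintegral_mono fun w => ?_
  by_cases h : f w = 0
  · simp [h]
  · exact mul_le_mul_left (ENNReal.ofReal_le_ofReal (Real.exp_le_exp.2 (ha w h))) _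

theorem trans_zero (m : Measure Cyl) : trans 0 m = m := by
  simp [trans]

/-- rational lower bound event -/
def Ev (n : ℕ) (T : ℝ) : Set PP := {p | ∀ q : ℚ, |(q : ℝ)| < T → -(n : ℝ) ≤ twoS p q}

theorem ev_meas (hBM2 : St_BM2) (n : ℕ) (T : ℝ) : MeasurableSet (Ev n T) := by
  have : Ev n T = ⋂ q : ℚ, {p | |(q : ℝ)| < T → -(n : ℝ) ≤ twoS p q} := by
    ext p; simp [Ev]
  rw [this]
  refine MeasurableSet.iInter fun q => ?_
  by_cases h : |(q : ℝ)| < T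
  · simp only [h, forall_true_left]
    exact measurableSet_le measurable_const ((measurable_pi_apply _).comp hBM2.2.1.1)
  · simp [h]

theorem ev_all {p : PP} (hp : Continuous (twoS p)) {n : ℕ} {T : ℝ} (h : p ∈ Ev n T) {t : ℝ}
    (ht : |t| < T) : -(n : ℝ) ≤ twoS p t := by
  by_contra hc
  have ho : IsOpen ({s : ℝ | |s| < T} ∩ {s | twoS p s < -(n : ℝ)}) :=
    (isOpen_lt continuous_abs continuous_const).inter (isOpen_lt hp continuous_const)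
  obtain ⟨q, hq⟩ := Rat.denseRange_cast.exists_mem_open ho ⟨t, ht, not_le.1 hc⟩
  exact absurd (h q hq.1) (not_le.2 hq.2)

theorem ev_pos (hBM2 : St_BM2) {γ : ℝ} (D : QD γ) (T : ℝ) :
    ∃ n : ℕ, D.P (D.β ⁻¹' Ev n T) ≠ 0 := by
  have := (hBM2.1 γ D).2
  have h := hBM2.2.2.2 D.Ω D.P D.β (hBM2.1 γ D).1
  by_contra hc
  push Not at hc
  have h1 : ∀ᵐ ω ∂D.P, ∀ n : ℕ, ω ∉ D.β ⁻¹' Ev n T :=
    ae_all_iff.2 fun n => measure_eq_zero_iff_ae_notMem.1 (hc n)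
  obtain ⟨ω, hω, hω'⟩ := (h1.and h.2.2.2.2.2.2.2.1).exists
  obtain ⟨C, hC⟩ := hω'.2.2 1 one_pos
  obtain ⟨n, hn⟩ := exists_nat_ge (C + T)
  refine hω n fun q hq => ?_
  have := (abs_le.1 (hC q)).1
  linarith

theorem momNu (hG1 : St_G1) (hCYL : St_CYL) (hBM2 : St_BM2) (hBR0 : St_BR0) (hLZ2 : St_LZ2)
    (hBR : St_BR) (hWLB : St_WLB) (hM0 : St_M0) {γ : ℝ} (hγ : γ ∈ Ioo (0 : ℝ) 2) (D : QD γ)
    (f : C_c(Cyl, ℝ)) (hf : ∀ w, 0 ≤ f w ∧ f w ≤ 1) {q : ℝ} (hq : 1 < q) (hq' : q < 4 / γ ^ 2) :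
    ∫⁻ ω, ENNReal.ofReal (∫ w, f w ∂D.nu ω) ^ q ∂D.P ≠ ∞ := by
  have hq0 : 0 ≤ q := by linarith
  obtain ⟨R, hR, hRf⟩ := supp_ball hCYL f
  obtain ⟨K, ζ, -, hK⟩ := (hWLB γ hγ).1 q R hq hq'
  have h1 := momZ hG1 hCYL hBM2 hBR0 hBR hM0 hγ D f hq.le
    (hK 0 R f hR hf fun x hx h => ⟨by simpa using hRf x hx h, hRf x hx h⟩)
  obtain ⟨T, hT⟩ := (hCYL.2.2.2.2.2.2.2.2.2.2.2.2.1 f).2.2.2
  obtain ⟨n, hn⟩ := ev_pos hBM2 D (T + 1)
  obtain ⟨hm, hi, -⟩ := hLZ2 γ hγ D (fun _ => f) 0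
  simp only [trans_zero] at hm hi
  have hβ : Measurable D.β := (hBM2.1 γ D).1.meas
  have hψ : Measurable fun s : ℕ → ℝ => ENNReal.ofReal (s 0) ^ q :=
    (measurable_pi_apply 0).ennreal_ofReal.pow_const q
  have hχ : Measurable ((Ev n (T + 1)).indicator fun _ => (1 : ℝ≥0∞)) :=
    measurable_const.indicator (ev_meas hBM2 _ _)
  have h2 := lintegral_mul_eq_lintegral_mul_lintegral_of_indepFun''
    (hχ.comp hβ).aemeasurable (hψ.comp_aemeasurable hm) (hi.comp hχ hψ)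
  have h3 : ∫⁻ ω, (((Ev n (T + 1)).indicator fun _ => (1 : ℝ≥0∞)) ∘ D.β) ω ∂D.P =
      D.P (D.β ⁻¹' Ev n (T + 1)) := by
    rw [← lintegral_indicator_one (hβ (ev_meas hBM2 _ _))]
    rfl
  rw [h3] at h2
  set a : ℝ := γ * (-(n : ℝ) - |QQ γ| * T) with ha
  have hc : ENNReal.ofReal (c0 D) * eE a ≠ 0 :=
    mul_ne_zero (by simpa using c0_pos D) (by simpa [eE] using Real.exp_pos a)
  have hc' : ENNReal.ofReal (c0 D) * eE a ≠ ∞ :=
    ENNReal.mul_ne_top ENNReal.ofReal_ne_top ENNReal.ofReal_ne_top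
  have h4 : (ENNReal.ofReal (c0 D) * eE a) ^ q * (D.P (D.β ⁻¹' Ev n (T + 1)) *
      ∫⁻ ω, ENNReal.ofReal (∫ w, f w ∂D.nu ω) ^ q ∂D.P) ≤ ENNReal.ofReal (K * R ^ ζ) := by
    refine le_trans ?_ h1
    erw [← h2]
    rw [← lintegral_const_mul' _ _ (ENNReal.rpow_ne_top_of_nonneg hq0 hc')]
    refine lintegral_mono_ae ?_
    have h := hBM2.2.2.2 D.Ω D.P D.β (hBM2.1 γ D).1
    filter_upwards [(zq_meas hBM2 D).2, h.2.2.2.2.2.2.2.1] with ω hω hω'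
    by_cases he : D.β ω ∈ Ev n (T + 1)
    · simp only [Function.comp_apply, indicator_of_mem he, one_mul]
      rw [← ENNReal.mul_rpow_of_nonneg _ _ hq0, ENNReal.ofReal_mul (c0_pos D).le, mul_assoc]
      refine ENNReal.rpow_le_rpow (mul_le_mul_right ?_ _) hq0
      have := ((hBR0 γ hγ D).1 ω).1
      refine lower γ hω (D.nu ω) f (fun w => (hf w).1) fun w hw => ?_
      refine mul_le_mul_of_nonneg_left ?_ hγ.1.le
      have h5 := ev_all hω'.1 he (t := w.1) (by linarith [hT w hw])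
      have h6 : QQ γ * w.1 ≤ |QQ γ| * T :=
        (le_abs_self _).trans (by
          rw [abs_mul]; exact mul_le_mul_of_nonneg_left (hT w hw) (abs_nonneg _))
      simp only [QD.ZQ]
      linarith
    · simp [indicator_of_notMem he]
  intro hI
  rw [hI, ENNReal.mul_top hn, ENNReal.mul_top (ENNReal.rpow_pos (pos_iff_ne_zero.2 hc) hc').ne']
    at h4
  exact ENNReal.ofReal_ne_top (top_le_iff.1 h4)

theorem momNu' (hG1 : St_G1) (hCYL : St_CYL) (hBM2 : St_BM2) (hBR0 : St_BR0) (hLZ2 : St_LZ2)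
    (hBR : St_BR) (hWLB : St_WLB) (hM0 : St_M0) {γ : ℝ} (hγ : γ ∈ Ioo (0 : ℝ) 2) (D : QD γ)
    (f : C_c(Cyl, ℝ)) (hf : ∀ w, 0 ≤ f w) {q : ℝ} (hq : 0 < q) (hq' : q < 4 / γ ^ 2) :
    ∫⁻ ω, ENNReal.ofReal (∫ w, f w ∂D.nu ω) ^ q ∂D.P ≠ ∞ := by
  have := (hBM2.1 γ D).2
  have h4 : 1 < 4 / γ ^ 2 := by
    rw [one_lt_div (pow_pos hγ.1 2)]
    nlinarith [hγ.1, hγ.2]
  obtain ⟨p, hp1, hp2⟩ := exists_between (max_lt hq' h4)
  have hp := (le_max_right _ _).trans_lt hp1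
  have hqp := (le_max_left _ _).trans_lt hp1
  obtain ⟨C, hC⟩ := (map_continuous f).bounded_above_of_compact_support f.hasCompactSupport
  have hC1 : 0 < |C| + 1 := by positivity
  have h1 := momNu hG1 hCYL hBM2 hBR0 hLZ2 hBR hWLB hM0 hγ D ((|C| + 1)⁻¹ • f) (fun w => by
    have h2 := hC w
    rw [Real.norm_eq_abs, abs_of_nonneg (hf w)] at h2
    show 0 ≤ (|C| + 1)⁻¹ * f w ∧ (|C| + 1)⁻¹ * f w ≤ 1
    refine ⟨mul_nonneg (inv_nonneg.2 hC1.le) (hf w), ?_⟩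
    rw [← div_eq_inv_mul, div_le_one hC1]
    linarith [le_abs_self C]) hp hp2
  have hp0 : 0 ≤ p := by linarith
  refine ne_top_of_le_ne_top (b := 1 + ENNReal.ofReal (|C| + 1) ^ p *
    ∫⁻ ω, ENNReal.ofReal (∫ w, ((|C| + 1)⁻¹ • f) w ∂D.nu ω) ^ p ∂D.P)
    (ENNReal.add_ne_top.2 ⟨ENNReal.one_ne_top, ENNReal.mul_ne_top
      (ENNReal.rpow_ne_top_of_nonneg hp0 ENNReal.ofReal_ne_top) h1⟩) ?_
  rw [← lintegral_const_mul' _ _ (ENNReal.rpow_ne_top_of_nonneg hp0 ENNReal.ofReal_ne_top)]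
  calc _ ≤ ∫⁻ ω, 1 + ENNReal.ofReal (|C| + 1) ^ p *
        ENNReal.ofReal (∫ w, ((|C| + 1)⁻¹ • f) w ∂D.nu ω) ^ p ∂D.P := by
        refine lintegral_mono fun ω => ?_
        have e : ∫ w, ((|C| + 1)⁻¹ • f) w ∂D.nu ω = (|C| + 1)⁻¹ * ∫ w, f w ∂D.nu ω := by
          rw [← integral_const_mul]; rfl
        rw [e, ← ENNReal.mul_rpow_of_nonneg _ _ hp0, ← ENNReal.ofReal_mul hC1.le,
          mul_inv_cancel_left₀ hC1.ne']
        rcases le_total (ENNReal.ofReal (∫ w, f w ∂D.nu ω)) 1 with h | h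
        · exact (ENNReal.rpow_le_one h hq.le).trans le_self_add
        · exact (ENNReal.rpow_le_rpow_of_exponent_le h hqp.le).trans le_add_self
    _ = _ := by rw [lintegral_add_left measurable_const, lintegral_const, measure_univ, one_mul]

theorem mom (hG1 : St_G1) (hCYL : St_CYL) (hBM2 : St_BM2) (hBR0 : St_BR0) (hLZ2 : St_LZ2)
    (hBR : St_BR) (hWLB : St_WLB) (hM0 : St_M0) {γ : ℝ} (hγ : γ ∈ Ioo (0 : ℝ) 2) (D : QD γ)
    {q : ℝ} (hq : 0 < q) (hq' : q < 4 / γ ^ 2) (f : C_c(Cyl, ℝ)) (hf : ∀ w, 0 ≤ f w) :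
    ∃ K : ℝ, ∀ r,
      ∫⁻ ω, ENNReal.ofReal (∫ w, f w ∂trans r (D.nu ω)) ^ q ∂D.P ≤ ENNReal.ofReal K := by
  have h1 := momNu' hG1 hCYL hBM2 hBR0 hLZ2 hBR hWLB hM0 hγ D f hf hq hq'
  refine ⟨_, fun r => le_of_eq (Eq.trans ?_ (ENNReal.ofReal_toReal h1).symm)⟩
  have hψ : Measurable fun s : ℕ → ℝ => ENNReal.ofReal (s 0) ^ q :=
    (measurable_pi_apply 0).ennreal_ofReal.pow_const q
  obtain ⟨hm, -, he⟩ := hLZ2 γ hγ D (fun _ => f) r
  obtain ⟨hm0, -, -⟩ := hLZ2 γ hγ D (fun _ => f) 0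
  simp only [trans_zero] at hm0
  have e1 := lintegral_map' (hψ.aemeasurable) hm
  have e2 := lintegral_map' (hψ.aemeasurable) hm0
  rw [he] at e1
  exact e1.symm.trans e2

end NU

end

end Pool.Agent.Lib.APPS
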