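import Pool.Agent.Lib.APPS.Blue2

/-!
Block POS, first half: a finite-dimensional Gaussian lower bound.
-/

namespace Pool.Agent.Lib.APPS

open MeasureTheory ProbabilityTheory Filter Topology Set Metric
open scoped NNReal ENNReal CompactlySupported BoundedContinuousFunction RealInnerProductSpace
  Classical

noncomputable section

namespace POS

abbrev D2 := Fin 2 × Fin 2
abbrev II := Option D2

theorem g1 (M R β : ℝ) (hβ : 0 < β) : ∃ c > 0, ∀ r l h : ℝ, |r| ≤ M → -R ≤ l → l ≤ h → h ≤ R →
    ENNReal.ofReal (c * (h - l)) ≤ gaussianReal 0 1 {t | r + β * t ∈ Ioc l h} := by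
  set T : ℝ := (R + M) / β with hT
  refine ⟨(Real.sqrt (2 * Real.pi))⁻¹ * Real.exp (-T ^ 2 / 2) / β, by positivity, ?_⟩
  intro r l h hr hl hlh hh
  have hs : {t | r + β * t ∈ Ioc l h} = Ioc ((l - r) / β) ((h - r) / β) := by
    ext t
    simp only [mem_setOf_eq, mem_Ioc, div_lt_iff₀ hβ, le_div_iff₀ hβ]
    constructor <;> rintro ⟨h1, h2⟩ <;> constructor <;> linarith
  rw [hs, gaussianReal_apply 0 one_ne_zero]
  have hr' := abs_le.1 hr
  calc ENNReal.ofReal ((Real.sqrt (2 * Real.pi))⁻¹ * Real.exp (-T ^ 2 / 2) / β * (h - l))
      = ENNReal.ofReal ((Real.sqrt (2 * Real.pi))⁻¹ * Real.exp (-T ^ 2 / 2)) *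
          volume (Ioc ((l - r) / β) ((h - r) / β)) := by
        rw [Real.volume_Ioc, ← ENNReal.ofReal_mul (by positivity)]
        congr 1
        field_simp
        ring
    _ = ∫⁻ _ in Ioc ((l - r) / β) ((h - r) / β),
          ENNReal.ofReal ((Real.sqrt (2 * Real.pi))⁻¹ * Real.exp (-T ^ 2 / 2)) := by
        rw [setLIntegral_const]
    _ ≤ _ := by
        refine setLIntegral_mono' measurableSet_Ioc fun t ht => ?_
        rw [gaussianPDF, gaussianPDFReal]
        refine ENNReal.ofReal_le_ofReal ?_
        simp only [NNReal.coe_one, mul_one, sub_zero]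
        refine mul_le_mul_of_nonneg_left (Real.exp_le_exp.2 ?_) (by positivity)
        have h1 : -T ≤ t := by
          refine le_trans ?_ ht.1.le
          rw [hT, ← neg_div]
          exact div_le_div_of_nonneg_right (by linarith [hr'.2]) hβ.le
        have h2 : t ≤ T := by
          refine ht.2.trans ?_
          exact div_le_div_of_nonneg_right (by linarith [hr'.1]) hβ.le
        have h3 : t ^ 2 ≤ T ^ 2 := sq_le_sq' h1 h2
        linarith

/-- the target event in terms of the five values -/
def Ev (q lam : ℝ) (z : II → ℝ) : Prop :=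
  (∀ i, z i ≤ -1) ∧ (∑ c : D2, z (some c)) / 4 + q ∈ Ioc (-lam) 0

theorem meas_Ev (q lam : ℝ) : MeasurableSet {z : II → ℝ | Ev q lam z} := by
  unfold Ev
  refine MeasurableSet.inter (s₁ := {z : II → ℝ | ∀ i, z i ≤ -1})
    (s₂ := {z : II → ℝ | (∑ c : D2, z (some c)) / 4 + q ∈ Ioc (-lam) 0}) ?_ ?_
  · rw [setOf_forall]
    exact MeasurableSet.iInter fun i => measurableSet_le (measurable_pi_apply i) measurable_const
  · exact measurableSet_Ioc.preimage (by fun_prop)

theorem g5 (M β q : ℝ) (hβ : 0 < β) (hq : 13 / 10 ≤ q) : ∃ c > 0, ∀ lam ∈ Ioc (0 : ℝ) 1,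
    ∀ r : II → ℝ, (∀ i, |r i| ≤ M) → ENNReal.ofReal (c * lam) ≤
      (Measure.pi fun _ : II => gaussianReal 0 1) {ξ | Ev q lam fun i => r i + β * ξ i} := by
  obtain ⟨c, hc, hg⟩ := g1 M (q + 4) β hβ
  refine ⟨c * 4 * (c * (1 / 10)) ^ 5, by positivity, ?_⟩
  intro lam hlam r hr
  set i0 : II := some (0, 0) with hi0
  let I : II → Set ℝ := fun i => {t | r i + β * t ∈ Ioc (-q - 1 / 10) (-q)}
  have hI : ∀ i, MeasurableSet (I i) := fun i => measurableSet_Ioc.preimage (by fun_prop)
  have hB : MeasurableSet (Set.pi univ I) := MeasurableSet.univ_pi hI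
  have hS : MeasurableSet {ξ : II → ℝ | Ev q lam fun i => r i + β * ξ i} :=
    (meas_Ev q lam).preimage (f := fun (ξ : II → ℝ) i => r i + β * ξ i) (by fun_prop)
  have h1 : ENNReal.ofReal ((c * (1 / 10)) ^ 5) ≤
      (Measure.pi fun _ : II => gaussianReal 0 1) (Set.pi univ I) := by
    rw [Measure.pi_pi, ENNReal.ofReal_pow (by positivity)]
    have : (5 : ℕ) = (Finset.univ : Finset II).card := by simp
    rw [this, ← Finset.prod_const]
    refine Finset.prod_le_prod' fun i _ => ?_
    have := hg (r i) (-q - 1 / 10) (-q) (hr i) (by linarith) (by linarith) (by linarith)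
    rwa [show -q - (-q - 1 / 10) = 1 / 10 by ring] at this
  have h2 : ∫⁻ ξ, ENNReal.ofReal (c * 4 * lam) * (Set.pi univ I).indicator 1 ξ
        ∂(Measure.pi fun _ : II => gaussianReal 0 1) ≤
      ∫⁻ ξ, {ξ : II → ℝ | Ev q lam fun i => r i + β * ξ i}.indicator 1 ξ
        ∂(Measure.pi fun _ : II => gaussianReal 0 1) := by
    refine lintegral_le_of_lmarginal_le {i0}
      ((measurable_one.indicator hB).const_mul _) (measurable_one.indicator hS) ?_
    rw [lmarginal_singleton, lmarginal_singleton]
    intro ξ
    simp only
    by_cases hξ : ∀ i, i ≠ i0 → ξ i ∈ I i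
    · set σ : ℝ := (r (some (0, 1)) + β * ξ (some (0, 1))) + (r (some (1, 0)) + β * ξ (some (1, 0)))
        + (r (some (1, 1)) + β * ξ (some (1, 1))) with hσ
      have a1 := hξ (some (0, 1)) (by decide)
      have a2 := hξ (some (1, 0)) (by decide)
      have a3 := hξ (some (1, 1)) (by decide)
      simp only [I, mem_setOf_eq, mem_Ioc] at a1 a2 a3
      have hl := hg (r i0) (-4 * q - 4 * lam - σ) (-4 * q - σ) (hr i0)
        (by linarith [hlam.2, a1.2, a2.2, a3.2]) (by linarith [hlam.1])
        (by linarith [a1.1, a2.1, a3.1])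
      rw [show c * (-4 * q - σ - (-4 * q - 4 * lam - σ)) = c * 4 * lam by ring] at hl
      calc ∫⁻ t, ENNReal.ofReal (c * 4 * lam) *
              (Set.pi univ I).indicator 1 (Function.update ξ i0 t) ∂gaussianReal 0 1
          ≤ ∫⁻ _, ENNReal.ofReal (c * 4 * lam) ∂gaussianReal 0 1 := by
            refine lintegral_mono fun t => ?_
            refine mul_le_of_le_one_right' ?_
            exact indicator_le_self' (fun _ _ => zero_le_one) _
        _ = ENNReal.ofReal (c * 4 * lam) := by simp
        _ ≤ _ := hl
        _ ≤ _ := by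
            have hm : MeasurableSet {t | r i0 + β * t ∈ Ioc (-4 * q - 4 * lam - σ) (-4 * q - σ)} :=
              measurableSet_Ioc.preimage (f := fun t => r i0 + β * t) (by fun_prop)
            rw [← lintegral_indicator_one hm]
            refine lintegral_mono fun t => ?_
            by_cases ht : r i0 + β * t ∈ Ioc (-4 * q - 4 * lam - σ) (-4 * q - σ)
            · rw [indicator_of_mem (by exact ht), indicator_of_mem]
              · simp
              · refine ⟨fun i => ?_, ?_⟩
                · by_cases hi : i = i0
                  · subst hi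
                    simp only [Function.update_self]
                    linarith [ht.2, a1.1, a2.1, a3.1]
                  · simp only [Function.update_of_ne hi]
                    have := (hξ i hi).2
                    linarith
                · have e : ∑ c : D2, (r (some c) + β * Function.update ξ i0 t (some c)) =
                      r i0 + β * t + σ := by
                    rw [Fintype.sum_prod_type, Fin.sum_univ_two, Fin.sum_univ_two,
                      Fin.sum_univ_two, ← hi0, Function.update_self,
                      Function.update_of_ne (by decide), Function.update_of_ne (by decide),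
                      Function.update_of_ne (by decide), hσ]
                    ring
                  simp only [e]
                  constructor <;> linarith [ht.1, ht.2]
            · rw [indicator_of_notMem (by exact ht)]
              exact zero_le
    · have : ∀ t, (Set.pi univ I).indicator (1 : (II → ℝ) → ℝ≥0∞) (Function.update ξ i0 t) = 0 := by
        intro t
        refine indicator_of_notMem (fun h => hξ fun i hi => ?_) _
        have := h i (mem_univ _)
        rwa [Function.update_of_ne hi] at this
      simp [this]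
  rw [lintegral_const_mul _ (measurable_one.indicator hB), lintegral_indicator_one hB,
    lintegral_indicator_one hS] at h2
  refine le_trans ?_ h2
  rw [show c * 4 * (c * (1 / 10)) ^ 5 * lam = c * 4 * lam * (c * (1 / 10)) ^ 5 by ring,
    ENNReal.ofReal_mul (by have := hlam.1; positivity)]
  exact mul_le_mul_right h1 _

end POS

end

end Pool.Agent.Lib.APPS
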