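import Pool.Agent.Lib.APPS.Blue4

/-!
Block PRJ: projections onto finite families with a prescribed Gram matrix.
-/

namespace Pool.Agent.Lib.APPS

open MeasureTheory Set
open scoped RealInnerProductSpace Classical

noncomputable section

namespace PRJ

theorem exists_rep {ι : Type} [Fintype ι] (L : (ι → ℝ) →ₗ[ℝ] HH) :
    ∃ C : ℝ, 0 ≤ C ∧ ∀ x, ∃ x', L x' = L x ∧ ‖x'‖ ≤ C * ‖L x‖ := by
  obtain ⟨g, hg⟩ := L.rangeRestrict.exists_rightInverse_of_surjective L.range_rangeRestrict
  refine ⟨‖LinearMap.toContinuousLinearMap g‖, ContinuousLinearMap.opNorm_nonneg _, fun x => ?_⟩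
  refine ⟨g (L.rangeRestrict x), ?_, ?_⟩
  · have := congrArg Subtype.val (LinearMap.congr_fun hg (L.rangeRestrict x))
    simpa using this
  · exact (LinearMap.toContinuousLinearMap g).le_opNorm (L.rangeRestrict x)

theorem norm_comb {ι : Type} [Fintype ι] (b b0 : ι → HH)
    (h : ∀ i j, ⟪b i, b j⟫ = ⟪b0 i, b0 j⟫) (x : ι → ℝ) :
    ‖Fintype.linearCombination ℝ b x‖ = ‖Fintype.linearCombination ℝ b0 x‖ := by
  have : ‖Fintype.linearCombination ℝ b x‖ ^ 2 = ‖Fintype.linearCombination ℝ b0 x‖ ^ 2 := by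
    rw [← real_inner_self_eq_norm_sq, ← real_inner_self_eq_norm_sq]
    simp only [Fintype.linearCombination_apply, sum_inner, inner_sum, real_inner_smul_left,
      real_inner_smul_right, h]
  exact (pow_left_inj₀ (norm_nonneg _) (norm_nonneg _) two_ne_zero).1 this

end PRJ

theorem blk_PRJ : St_PRJ := by
  intro ι _ b0
  obtain ⟨C, hC, hrep⟩ := PRJ.exists_rep (Fintype.linearCombination ℝ b0)
  refine ⟨Fintype.card ι * C, by positivity, fun b hb e δ hδ he => ?_⟩
  set W := Submodule.span ℝ (range b) with hW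
  have : FiniteDimensional ℝ W := FiniteDimensional.span_of_finite ℝ (finite_range b)
  have hperp : ∀ w ∈ W, ⟪w, e - W.starProjection e⟫ = 0 := fun w hw =>
    (W.sub_starProjection_mem_orthogonal e) w hw
  have hpW : W.starProjection e ∈ W := W.starProjection_apply_mem e
  refine ⟨W.starProjection e, hpW, ?_, fun i => hperp _ (Submodule.subset_span ⟨i, rfl⟩)⟩
  set p := W.starProjection e
  obtain ⟨x, hx⟩ : ∃ x, Fintype.linearCombination ℝ b x = p := by
    have : p ∈ LinearMap.range (Fintype.linearCombination ℝ b) := by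
      rw [Fintype.range_linearCombination]; exact hpW
    exact this
  obtain ⟨x', hx', hn⟩ := hrep x
  have h0 : Fintype.linearCombination ℝ b x' = p := by
    have := PRJ.norm_comb b b0 hb (x' - x)
    rw [map_sub, map_sub, hx', sub_self, norm_zero, norm_eq_zero, sub_eq_zero] at this
    rw [this, hx]
  rw [← PRJ.norm_comb b b0 hb x, hx] at hn
  have h1 : ‖p‖ ^ 2 = ⟪p, e⟫ := by
    have := hperp p hpW
    rw [inner_sub_right, real_inner_self_eq_norm_sq] at this
    linarith
  have h2 : ⟪p, e⟫ ≤ Fintype.card ι * (‖x'‖ * δ) := by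
    rw [← h0, Fintype.linearCombination_apply, sum_inner]
    refine (Finset.sum_le_card_nsmul _ _ (‖x'‖ * δ) fun i _ => ?_).trans (by simp)
    rw [real_inner_smul_left]
    refine (le_abs_self _).trans ?_
    rw [abs_mul]
    exact mul_le_mul (norm_le_pi_norm x' i) (he i) (abs_nonneg _) (norm_nonneg _)
  have h3 : ‖p‖ * ‖p‖ ≤ Fintype.card ι * C * δ * ‖p‖ := by
    have : (Fintype.card ι : ℝ) * (‖x'‖ * δ) ≤ Fintype.card ι * (C * ‖p‖ * δ) :=
      mul_le_mul_of_nonneg_left (mul_le_mul_of_nonneg_right hn hδ) (Nat.cast_nonneg _)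
    nlinarith
  rcases (norm_nonneg p).eq_or_lt with h | h
  · rw [← h]; positivity
  · exact le_of_mul_le_mul_right h3 h

end

end Pool.Agent.Lib.APPS
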