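import Pool.Agent.Lib.APPS.B_TLD

/-!
Block RUA, part a: abstract tilting, splitting and moment lemmas.
-/

namespace Pool.Agent.Lib.APPS

open MeasureTheory ProbabilityTheory Filter Topology Set Metric
open scoped NNReal ENNReal RealInnerProductSpace

noncomputable section

theorem rua_hm {T : Type} (z : T → HH) : Measurable fun (ω : Om) t => ω (z t) :=
  measurable_pi_lambda _ fun _ => meas_ev _

/-- tilt, then split into two independent factors -/
theorem rua_split (h2 : St_G2) (h3 : St_G3) {ι τ : Type} (h : HH) (A : ι → HH) (B : τ → HH)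
    (hAB : ∀ i k, ⟪A i, B k⟫ = 0) (f : Om → ℝ≥0∞) (hf : Measurable f) (F : (ι → ℝ) → ℝ≥0∞)
    (G : (τ → ℝ) → ℝ≥0∞) (hF : Measurable F) (hG : Measurable G)
    (hle : ∀ ω : Om, f (ω + dv h) ≤ F (fun i => ω (A i)) * G (fun k => ω (B k))) :
    ∫⁻ ω, f ω * eE (ω h - ‖h‖ ^ 2 / 2) ∂gm ≤
      (∫⁻ ω, F (fun i => ω (A i)) ∂gm) * ∫⁻ ω, G (fun k => ω (B k)) ∂gm := by
  rw [← h2.2.1 h f hf]
  have hi := (h3.2.2.2.2.1 ι τ A B hAB).comp hF hG
  exact (lintegral_mono hle).trans (lintegral_mul_eq_lintegral_mul_lintegral_of_indepFun''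
    (hF.comp (rua_hm A)).aemeasurable (hG.comp (rua_hm B)).aemeasurable hi).le

theorem rua_sum_rpow {ι : Type} [Fintype ι] (x : ι → ℝ≥0∞) (p : ℝ) (hp : 0 < p) (n : ℕ)
    (hn : Fintype.card ι ≤ n) : (∑ i, x i) ^ p ≤ (n : ℝ≥0∞) ^ p * ∑ i, x i ^ p := by
  rcases isEmpty_or_nonempty ι with hι | hι
  · simp [ENNReal.zero_rpow_of_pos hp]
  · obtain ⟨i0, -, hi0⟩ := Finset.exists_max_image Finset.univ x Finset.univ_nonempty
    have h1 : ∑ i, x i ≤ n * x i0 := by
      refine (Finset.sum_le_card_nsmul _ _ _ hi0).trans ?_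
      rw [nsmul_eq_mul, Finset.card_univ]
      exact mul_le_mul_left (by exact_mod_cast hn) _
    calc (∑ i, x i) ^ p ≤ (n * x i0) ^ p := ENNReal.rpow_le_rpow h1 hp.le
      _ = (n : ℝ≥0∞) ^ p * x i0 ^ p := ENNReal.mul_rpow_of_nonneg _ _ hp.le
      _ ≤ _ := mul_le_mul_right (Finset.single_le_sum (f := fun i => x i ^ p)
          (fun _ _ => zero_le) (Finset.mem_univ i0)) _

theorem rua_measXV (hT3 : St_T3) (γ : ℝ) (g : Dy → HH) (t : ℝ) :
    Measurable fun ω => nB (XV γ g t ω) :=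
  hT3.1.comp (measurable_pi_lambda _ fun _ => ((meas_ev _).add_const _).sub_const _)

/-- moments of a finite family of node counts with an exponential weight -/
theorem rua_mom (h2 : St_G2) (hT1 : St_T1) (hT3 : St_T3) (hMB : St_MB) (γ : ℝ)
    (hγ : γ ∈ Ioo (0 : ℝ) 2) (κ p B C : ℝ) (n : ℕ) (hκ : 0 < κ) (hp : 0 < p)
    (hp' : p < 4 / γ ^ 2) :
    ∃ K : ℝ, 0 ≤ K ∧ ∀ (ι : Type) [Fintype ι] (g : ι → Dy → HH) (Cv : ι → ℝ) (d : HH) (t : ℝ),
      Fintype.card ι ≤ n → (∀ V, Gram (g V) (covE (Cv V)) ∧ Cv V ≤ C) → ‖d‖ ^ 2 ≤ B →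
      (∀ V S, |⟪d, g V S⟫| ≤ B) →
      ∫⁻ ω, eE (κ * |ω d|) * (∑ V, nB (XV γ (g V) t ω)) ^ p ∂gm ≤
        ENNReal.ofReal (K * Real.exp (γ * p * t)) := by
  obtain ⟨K0, hK0⟩ := hMB γ hγ p hp hp'
  have hγ0 : 0 < γ := hγ.1
  have hmono := hT1.2.2.2.2.2.2.2.2.2.2.2.2.2.2.2.1
  set K1 : ℝ := (n : ℝ) ^ p * (n * (max K0 0 * Real.exp (γ ^ 2 * p ^ 2 * max C 0 / 2))) with hK1
  have hK1p : 0 ≤ K1 := by positivity
  refine ⟨2 * (Real.exp (κ ^ 2 * B / 2) * (K1 * Real.exp (γ * p * (κ * B)))), by positivity,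
    fun ι _ g Cv d t hn hg hd hdg => ?_⟩
  have hB : 0 ≤ B := (sq_nonneg _).trans hd
  have hmN : ∀ t, Measurable fun ω => (∑ V, nB (XV γ (g V) t ω)) ^ p := fun t =>
    (Finset.measurable_sum _ fun V _ => rua_measXV hT3 γ (g V) t).pow_const _
  have s1 : ∀ t, ∫⁻ ω, (∑ V, nB (XV γ (g V) t ω)) ^ p ∂gm ≤
      ENNReal.ofReal (K1 * Real.exp (γ * p * t)) := by
    intro t
    have a1 : ∀ V, ∫⁻ ω, nB (XV γ (g V) t ω) ^ p ∂gm ≤ ENNReal.ofReal
        (max K0 0 * Real.exp (γ ^ 2 * p ^ 2 * max C 0 / 2) * Real.exp (γ * p * t)) := by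
      intro V
      refine (hK0 (Cv V) (g V) (hg V).1 t).trans (ENNReal.ofReal_le_ofReal ?_)
      rw [mul_assoc (max K0 0), ← Real.exp_add]
      refine mul_le_mul (le_max_left _ _) (Real.exp_le_exp.2 ?_) (Real.exp_pos _).le
        (le_max_right _ _)
      have : max (Cv V) 0 ≤ max C 0 := max_le_max (hg V).2 le_rfl
      have h0 : 0 ≤ γ ^ 2 * p ^ 2 := by positivity
      nlinarith
    calc ∫⁻ ω, (∑ V, nB (XV γ (g V) t ω)) ^ p ∂gm
        ≤ ∫⁻ ω, (n : ℝ≥0∞) ^ p * ∑ V, nB (XV γ (g V) t ω) ^ p ∂gm :=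
          lintegral_mono fun ω => rua_sum_rpow _ p hp n hn
      _ = (n : ℝ≥0∞) ^ p * ∑ V, ∫⁻ ω, nB (XV γ (g V) t ω) ^ p ∂gm := by
          rw [lintegral_const_mul _ (Finset.measurable_sum _ fun V _ =>
            (rua_measXV hT3 γ (g V) t).pow_const _), lintegral_finsetSum _ fun V _ =>
            (rua_measXV hT3 γ (g V) t).pow_const _]
      _ ≤ (n : ℝ≥0∞) ^ p * (n * ENNReal.ofReal (max K0 0 *
            Real.exp (γ ^ 2 * p ^ 2 * max C 0 / 2) * Real.exp (γ * p * t))) := by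
          refine mul_le_mul_right ((Finset.sum_le_card_nsmul _ _ _ fun V _ => a1 V).trans ?_) _
          rw [nsmul_eq_mul, Finset.card_univ]
          exact mul_le_mul_left (by exact_mod_cast hn) _
      _ = _ := by
          rw [← ENNReal.ofReal_natCast, ENNReal.ofReal_rpow_of_nonneg (by positivity) hp.le,
            ← ENNReal.ofReal_mul (by positivity), ← ENNReal.ofReal_mul (by positivity), hK1]
          congr 1
          ring
  have s2 : ∀ μ : ℝ, |μ| = κ → ∫⁻ ω, eE (μ * ω d) * (∑ V, nB (XV γ (g V) t ω)) ^ p ∂gm ≤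
      ENNReal.ofReal (Real.exp (κ ^ 2 * B / 2) * (K1 * Real.exp (γ * p * (κ * B))) *
        Real.exp (γ * p * t)) := by
    intro μ hμ
    have hcm := h2.2.1 (μ • d) _ (hmN t)
    have e1 : ∀ ω : Om, eE (μ * ω d) * (∑ V, nB (XV γ (g V) t ω)) ^ p =
        eE (‖μ • d‖ ^ 2 / 2) * ((∑ V, nB (XV γ (g V) t ω)) ^ p *
          eE (ω (μ • d) - ‖μ • d‖ ^ 2 / 2)) := by
      intro ω
      rw [mul_left_comm, ← tld_eE_add, map_smul, smul_eq_mul, mul_comm]
      congr 2
      ring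
    simp_rw [e1]
    rw [lintegral_const_mul' _ _ (tld_eE_ne _), ← hcm]
    have e2 : ∀ ω : Om, (∑ V, nB (XV γ (g V) t (ω + dv (μ • d)))) ^ p ≤
        (∑ V, nB (XV γ (g V) (t + κ * B) ω)) ^ p := by
      intro ω
      refine ENNReal.rpow_le_rpow (Finset.sum_le_sum fun V _ => hmono _ _ fun S => ?_) hp.le
      have c1 : ⟪μ • d, g V S⟫ ≤ κ * B := by
        rw [real_inner_smul_left]
        refine (le_abs_self _).trans ?_
        rw [abs_mul, hμ]
        exact mul_le_mul_of_nonneg_left (hdg V S) hκ.le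
      simp only [XV, drift, LinearMap.add_apply, dv_apply]
      linarith
    have e3 : ‖μ • d‖ ^ 2 / 2 ≤ κ ^ 2 * B / 2 := by
      rw [norm_smul, mul_pow, Real.norm_eq_abs, hμ]
      have := mul_le_mul_of_nonneg_left hd (sq_nonneg κ)
      linarith
    refine (mul_le_mul' (tld_eE_mono e3) ((lintegral_mono e2).trans (s1 _))).trans (le_of_eq ?_)
    rw [eE, ← ENNReal.ofReal_mul (Real.exp_pos _).le, mul_add, Real.exp_add]
    congr 1
    ring
  calc ∫⁻ ω, eE (κ * |ω d|) * (∑ V, nB (XV γ (g V) t ω)) ^ p ∂gm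
      ≤ ∫⁻ ω, (eE (κ * ω d) * (∑ V, nB (XV γ (g V) t ω)) ^ p +
          eE (-κ * ω d) * (∑ V, nB (XV γ (g V) t ω)) ^ p) ∂gm := by
        refine lintegral_mono fun ω => ?_
        simp only
        rw [← add_mul]
        refine mul_le_mul_left ?_ _
        rcases le_total 0 (ω d) with h | h
        · rw [abs_of_nonneg h]; exact le_self_add
        · rw [abs_of_nonpos h, show κ * -ω d = -κ * ω d by ring]; exact le_add_self
    _ ≤ _ := by
        have hm1 : Measurable fun ω : Om => eE (κ * ω d) * (∑ V, nB (XV γ (g V) t ω)) ^ p :=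
          (tld_eE_meas.comp ((meas_ev _).const_mul _)).mul (hmN t)
        rw [lintegral_add_left hm1]
        refine (add_le_add (s2 κ (abs_of_pos hκ)) (s2 (-κ) (by rw [abs_neg, abs_of_pos hκ]))).trans
          (le_of_eq ?_)
        rw [← ENNReal.ofReal_add (by positivity) (by positivity)]
        congr 1
        ring

theorem rua_count (hT1 : St_T1) (i0 : ℕ) (A : ℝ) (J : ℕ → ℝ≥0∞) (F : Dy → ℝ≥0∞)
    (h : ∀ (R : Dy) (k : ℕ), R.length = i0 + k + 2 → 2 ≤ k →
      F R ≤ ENNReal.ofReal (A * Real.exp (-2 * ((i0 + k : ℕ) : ℝ) * l2)) * J k) :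
    ∑' R : Dy, ind (i0 + 4 ≤ R.length) * F R ≤ ENNReal.ofReal (16 * A) * ∑' k, J k := by
  calc ∑' R : Dy, ind (i0 + 4 ≤ R.length) * F R
      ≤ ∑' R : Dy, ∑' k : ℕ, ind (R.length = i0 + k + 2) *
          (ENNReal.ofReal (A * Real.exp (-2 * ((i0 + k : ℕ) : ℝ) * l2)) * J k) := by
        refine ENNReal.tsum_le_tsum fun R => ?_
        by_cases hR4 : i0 + 4 ≤ R.length
        · refine le_trans ?_ (ENNReal.le_tsum (R.length - (i0 + 2)))
          have e : R.length = i0 + (R.length - (i0 + 2)) + 2 := by omega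
          have i1 : ind (i0 + 4 ≤ R.length) = 1 := by simp [ind, hR4]
          have i2 : ind (R.length = i0 + (R.length - (i0 + 2)) + 2) = 1 := by
            rw [ind, if_pos e]
          rw [i1, i2, one_mul, one_mul]
          exact h R _ e (by omega)
        · simp [ind, hR4]
    _ = ∑' k : ℕ, ENNReal.ofReal (16 * A) * J k := by
        rw [ENNReal.tsum_comm]
        refine tsum_congr fun k => ?_
        rw [ENNReal.tsum_mul_right, tld_count hT1, ← mul_assoc, tld_four]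
    _ = _ := ENNReal.tsum_mul_left

theorem rua_meas_ind {α : Type} [MeasurableSpace α] {q : α → Prop} (h : MeasurableSet {a | q a}) :
    Measurable fun a => ind (q a) := by
  unfold ind
  exact Measurable.ite h measurable_const measurable_const

theorem rua_hmw (a : ℝ) (β : ℕ → HH) (u : ℝ) : Measurable fun ω : Om => wk a β u ω :=
  measurable_pi_lambda _ fun _ => ((meas_ev _).add_const _).sub_const _

theorem rua_measG (hT3 : St_T3) {ι : Type} [Fintype ι] (κ p Q t : ℝ) :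
    Measurable fun x : Option (ι × Dy) → ℝ => eE (κ * |x none|) *
      (∑ V : ι, nB (drift Q (fun S => x (some (V, S))) t)) ^ p := by
  refine (tld_eE_meas.comp ((measurable_pi_apply none).abs.const_mul _)).mul
    ((Finset.measurable_sum _ fun V _ => hT3.1.comp ?_).pow_const _)
  exact measurable_pi_lambda _ fun S => ((measurable_pi_apply _).add_const _).sub_const _

theorem rua_tilt (γ κ Q s u0 : ℝ) (β : ℕ → HH) (hβ : IsWk β s) (k : ℕ) (ω : Om) (Z : ℝ≥0∞) :
    eE (γ * wk Q β u0 ω k - κ * |wk Q β u0 ω k|) * Z =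
      eE (γ * (u0 - Q * k * l2) + γ ^ 2 * (s + k * l2) / 2) *
        (eE (-κ * |wk Q β u0 ω k|) * Z * eE (ω (γ • β k) - ‖γ • β k‖ ^ 2 / 2)) := by
  have b1 : ‖γ • β k‖ ^ 2 = γ ^ 2 * (s + k * l2) := by
    rw [norm_smul, mul_pow, Real.norm_eq_abs, sq_abs, ← real_inner_self_eq_norm_sq, hβ k k]
    simp
  rw [mul_right_comm (eE (-κ * |wk Q β u0 ω k|)), ← mul_assoc, ← tld_eE_add, ← tld_eE_add, b1,
    map_smul, smul_eq_mul]
  congr 2
  simp only [wk]
  ring

theorem rua_shift (γ Q a s u0 : ℝ) (β : ℕ → HH) (hβ : IsWk β s) (ha : a = Q - γ) (k j : ℕ)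
    (hj : j ≤ k) (ω : Om) :
    wk Q β u0 (ω + dv (γ • β k)) j = wk a β (u0 + γ * s) ω j := by
  have c1 : ⟪γ • β k, β j⟫ = γ * (s + j * l2) := by
    rw [real_inner_smul_left, hβ k j]
    simp only [min_eq_right hj]
  simp only [wk, LinearMap.add_apply, dv_apply, c1, ha]
  ring

/-- one annulus -/
theorem rua_one (h2 : St_G2) (h3 : St_G3) (hT1 : St_T1) (hT3 : St_T3) (γ κ p a s u0 y : ℝ)
    (j k : ℕ) (β b : ℕ → HH) {ι : Type} [Fintype ι] (e : ι → Dy → HH) (hγ : 0 < γ) (hκ : 0 < κ)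
    (hp : 0 < p) (ha : a = QQ γ - γ) (ha0 : 0 ≤ a) (hjk : j ≤ k) (hβ : IsWk β s) (hb : IsWk b s)
    (he1 : ∀ V S, ⟪β j, e V S⟫ = s + j * l2)
    (he2 : ∀ V S, ⟪β (k + 3), e V S⟫ = ⟪β (j + 3), e V S⟫)
    (he3 : ∀ V S, ⟪β (j + 3), e V S⟫ ≤ s + j * l2 + 3 * l2) :
    ∫⁻ ω, eE (γ * wk (QQ γ) β u0 ω (k + 3) - κ * |wk (QQ γ) β u0 ω (k + 3)|) *
        ind (wk (QQ γ) β u0 ω j ∈ Ico y (y + 1)) *
        (∑ V, nB (XV γ (e V) (u0 - QQ γ * (j + 5) * l2) ω)) ^ p ∂gm ≤
      eE (γ * (u0 - QQ γ * (k + 3 : ℕ) * l2) + γ ^ 2 * (s + (k + 3 : ℕ) * l2) / 2 +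
          κ * (3 * a * l2)) *
        ((∫⁻ ω, eE (-κ * |wk a b (u0 + γ * s) ω k|) *
            ind (wk a b (u0 + γ * s) ω j ∈ Ico y (y + 1)) ∂gm) *
          ∫⁻ ω, eE (κ * |ω (β (j + 3) - β j)|) * (∑ V, nB (XV γ (fun S => e V S - β j)
            (y + 1 + 3 * γ * l2 - 5 * QQ γ * l2) ω)) ^ p ∂gm) := by
  have hl2 : 0 < l2 := Real.log_pos (by norm_num)
  have hmono := hT1.2.2.2.2.2.2.2.2.2.2.2.2.2.2.2.1
  set u1 := u0 + γ * s with hu1
  set t := y + 1 + 3 * γ * l2 - 5 * QQ γ * l2 with ht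
  let f : Om → ℝ≥0∞ := fun ω => eE (-κ * |wk (QQ γ) β u0 ω (k + 3)|) *
    (ind (wk (QQ γ) β u0 ω j ∈ Ico y (y + 1)) *
      (∑ V, nB (XV γ (e V) (u0 - QQ γ * (j + 5) * l2) ω)) ^ p)
  have hf : Measurable f :=
    (tld_eE_meas.comp ((((measurable_pi_apply _).comp (rua_hmw _ β u0)).abs).const_mul _)).mul
      ((rua_meas_ind (((measurable_pi_apply j).comp (rua_hmw _ β u0)) measurableSet_Ico)).mul
        ((Finset.measurable_sum _ fun V _ => rua_measXV hT3 γ (e V) _).pow_const _))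
  let A : Bool → HH := fun i => cond i (β j) (β j + (β (k + 3) - β (j + 3)))
  let A' : Bool → HH := fun i => cond i (b j) (b k)
  let B : Option (ι × Dy) → HH := fun o => o.elim (β (j + 3) - β j) fun q => e q.1 q.2 - β j
  let F : (Bool → ℝ) → ℝ≥0∞ := fun x => eE (-κ * |x false + u1 - a * k * l2|) *
    ind (x true + u1 - a * j * l2 ∈ Ico y (y + 1))
  let G : (Option (ι × Dy) → ℝ) → ℝ≥0∞ := fun x => eE (κ * (3 * a * l2)) * (eE (κ * |x none|) *
      (∑ V : ι, nB (drift (QQ γ) (fun S => x (some (V, S))) t)) ^ p)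
  have hF : Measurable F := by
    have m1 : Measurable fun x : Bool → ℝ => -κ * |x false + u1 - a * k * l2| := by fun_prop
    have m2 : Measurable fun x : Bool → ℝ => x true + u1 - a * j * l2 := by fun_prop
    exact (tld_eE_meas.comp m1).mul (rua_meas_ind (m2 measurableSet_Ico))
  have hG : Measurable G := (rua_measG hT3 κ p (QQ γ) t).const_mul _
  have hβ' : ∀ i i', ⟪β i, β i'⟫ = s + (min i i' : ℕ) * l2 := hβ
  have hb' : ∀ i i', ⟪b i, b i'⟫ = s + (min i i' : ℕ) * l2 := hb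
  have m1 : min j (j + 3) = j := by omega
  have m2 : min (k + 3) (j + 3) = j + 3 := by omega
  have m3 : min (k + 3) j = j := by omega
  have m4 : min (j + 3) j = j := by omega
  have m5 : min j (k + 3) = j := by omega
  have m6 : min (j + 3) (k + 3) = j + 3 := by omega
  have m7 : min j k = j := by omega
  have m8 : min k j = j := by omega
  have hAB : ∀ i o, ⟪A i, B o⟫ = 0 := by
    intro i o
    rcases o with _ | ⟨V, S⟩ <;> cases i <;>
      simp only [A, B, cond_true, cond_false, Option.elim, inner_add_left, inner_sub_left,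
        inner_sub_right, he1, he2, hβ', m1, m2, m3, m4, min_self] <;> ring
  have hle : ∀ ω : Om, f (ω + dv (γ • β (k + 3))) ≤
      F (fun i => ω (A i)) * G (fun o => ω (B o)) := by
    intro ω
    simp only [f, F, G, A, B, cond_true, cond_false, Option.elim]
    rw [rua_shift γ _ a s u0 β hβ ha _ _ le_rfl, rua_shift γ _ a s u0 β hβ ha _ j (by omega),
      ← hu1]
    by_cases hy : wk a β u1 ω j ∈ Ico y (y + 1)
    swap
    · simp [ind, hy]
    have hy' : ω (β j) + u1 - a * j * l2 ∈ Ico y (y + 1) := hy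
    have i1 : ind (wk a β u1 ω j ∈ Ico y (y + 1)) = 1 := by simp only [ind, if_pos hy]
    have i2 : ind (ω (β j) + u1 - a * j * l2 ∈ Ico y (y + 1)) = 1 := by simp only [ind, if_pos hy']
    rw [i1, i2, one_mul, mul_one, ← mul_assoc, ← mul_assoc, ← tld_eE_add, ← tld_eE_add]
    refine mul_le_mul' (tld_eE_mono ?_) (ENNReal.rpow_le_rpow
      (Finset.sum_le_sum fun V _ => hmono _ _ fun S => ?_) hp.le)
    · have c1 : ω (β j + (β (k + 3) - β (j + 3))) + u1 - a * k * l2 =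
          wk a β u1 ω (k + 3) - ω (β (j + 3) - β j) + 3 * a * l2 := by
        simp only [wk, map_add, map_sub]
        push_cast
        ring
      have c2 : |wk a β u1 ω (k + 3) - ω (β (j + 3) - β j) + 3 * a * l2| ≤
          |wk a β u1 ω (k + 3)| + |ω (β (j + 3) - β j)| + 3 * a * l2 := by
        refine (abs_add_le _ _).trans (add_le_add (abs_sub _ _) (abs_of_nonneg ?_).le)
        positivity
      rw [c1]
      nlinarith
    · have c1 : ⟪γ • β (k + 3), e V S⟫ ≤ γ * (s + j * l2 + 3 * l2) := by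
        rw [real_inner_smul_left, he2]
        exact mul_le_mul_of_nonneg_left (he3 V S) hγ.le
      have c2 := hy'.2
      simp only [XV, drift, LinearMap.add_apply, dv_apply, map_sub]
      rw [ht]
      rw [hu1, ha] at c2
      nlinarith
  have hs := rua_split h2 h3 (γ • β (k + 3)) A B hAB f hf F G hF hG hle
  have hlaw := h3.2.2.1 Bool A A' (by
    intro i i'
    cases i <;> cases i' <;>
      simp only [A, A', cond_true, cond_false, inner_add_left, inner_add_right, inner_sub_left,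
        inner_sub_right, hβ', hb', m1, m2, m3, m4, m5, m6, m7, m8, min_self] <;> push_cast <;> ring)
  have e3 : ∫⁻ ω, F (fun i => ω (A i)) ∂gm = ∫⁻ ω, F (fun i => ω (A' i)) ∂gm := by
    rw [← lintegral_map hF (rua_hm A), ← lintegral_map hF (rua_hm A'), hlaw]
  rw [e3] at hs
  simp_rw [mul_assoc (eE _) (ind _), rua_tilt γ κ _ s u0 β hβ]
  rw [lintegral_const_mul' _ _ (tld_eE_ne _), tld_eE_add _ (κ * (3 * a * l2)), mul_assoc (eE _)]
  refine mul_le_mul_right (hs.trans (le_of_eq ?_)) _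
  simp only [G]
  rw [lintegral_const_mul' _ _ (tld_eE_ne _), mul_left_comm]
  rfl

/-- the first block -/
theorem rua_two (h2 : St_G2) (h3 : St_G3) (hT1 : St_T1) (hT3 : St_T3) (γ κ p a s u0 u D : ℝ)
    (k : ℕ) (β b : ℕ → HH) {ι : Type} [Fintype ι] (e : ι → Dy → HH) (hγ : 0 < γ) (hκ : 0 < κ)
    (hp : 0 < p) (ha : a = QQ γ - γ) (hk : 2 ≤ k) (hβ : IsWk β s) (hb : IsWk b s)
    (he2 : ∀ V S, ⟪β k, e V S⟫ = ⟪β 2, e V S⟫) (he3 : ∀ V S, ⟪β 2, e V S⟫ ≤ D) :
    ∫⁻ ω, eE (γ * wk (QQ γ) β u0 ω k - κ * |wk (QQ γ) β u0 ω k|) *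
        (∑ V, nB (XV γ (e V) u ω)) ^ p ∂gm ≤
      eE (γ * (u0 - QQ γ * k * l2) + γ ^ 2 * (s + k * l2) / 2) *
        ((∫⁻ ω, eE (-κ * |ω (b k - b 2) + (u0 + γ * s) - a * k * l2|) ∂gm) *
          ∫⁻ ω, eE (κ * |ω (β 2)|) * (∑ V, nB (XV γ (e V) (u + γ * D) ω)) ^ p ∂gm) := by
  have hmono := hT1.2.2.2.2.2.2.2.2.2.2.2.2.2.2.2.1
  set u1 := u0 + γ * s with hu1
  let f : Om → ℝ≥0∞ := fun ω => eE (-κ * |wk (QQ γ) β u0 ω k|) *
      (∑ V, nB (XV γ (e V) u ω)) ^ p
  have hf : Measurable f :=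
    (tld_eE_meas.comp ((((measurable_pi_apply _).comp (rua_hmw _ β u0)).abs).const_mul _)).mul
      ((Finset.measurable_sum _ fun V _ => rua_measXV hT3 γ (e V) _).pow_const _)
  let A : Unit → HH := fun _ => β k - β 2
  let A' : Unit → HH := fun _ => b k - b 2
  let B : Option (ι × Dy) → HH := fun o => o.elim (β 2) fun q => e q.1 q.2
  let F : (Unit → ℝ) → ℝ≥0∞ := fun x => eE (-κ * |x () + u1 - a * k * l2|)
  let G : (Option (ι × Dy) → ℝ) → ℝ≥0∞ := fun x => eE (κ * |x none|) *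
      (∑ V : ι, nB (drift (QQ γ) (fun S => x (some (V, S))) (u + γ * D))) ^ p
  have hF : Measurable F := by
    have m1 : Measurable fun x : Unit → ℝ => -κ * |x () + u1 - a * k * l2| := by fun_prop
    exact tld_eE_meas.comp m1
  have hG : Measurable G := rua_measG hT3 κ p (QQ γ) _
  have hβ' : ∀ i i', ⟪β i, β i'⟫ = s + (min i i' : ℕ) * l2 := hβ
  have hb' : ∀ i i', ⟪b i, b i'⟫ = s + (min i i' : ℕ) * l2 := hb
  have m1 : min k 2 = 2 := by omega
  have hAB : ∀ i o, ⟪A i, B o⟫ = 0 := by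
    intro i o
    rcases o with _ | ⟨V, S⟩ <;>
      simp only [A, B, Option.elim, inner_sub_left, he2, hβ', m1, min_self] <;> ring
  have hle : ∀ ω : Om, f (ω + dv (γ • β k)) ≤ F (fun i => ω (A i)) * G (fun o => ω (B o)) := by
    intro ω
    simp only [f, F, G, A, B, Option.elim]
    rw [rua_shift γ _ a s u0 β hβ ha _ _ le_rfl, ← hu1, ← mul_assoc, ← tld_eE_add]
    refine mul_le_mul' (tld_eE_mono ?_) (ENNReal.rpow_le_rpow
      (Finset.sum_le_sum fun V _ => hmono _ _ fun S => ?_) hp.le)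
    · have c1 : ω (β k - β 2) + u1 - a * k * l2 = wk a β u1 ω k - ω (β 2) := by
        simp only [wk, map_sub]
        ring
      have c2 := abs_sub (wk a β u1 ω k) (ω (β 2))
      rw [c1]
      nlinarith
    · have c1 : ⟪γ • β k, e V S⟫ ≤ γ * D := by
        rw [real_inner_smul_left, he2]
        exact mul_le_mul_of_nonneg_left (he3 V S) hγ.le
      simp only [XV, drift, LinearMap.add_apply, dv_apply]
      linarith
  have hs := rua_split h2 h3 (γ • β k) A B hAB f hf F G hF hG hle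
  have hlaw := h3.2.2.1 Unit A A' (by
    intro i i'
    simp only [A, A', inner_sub_left, inner_sub_right, hβ', hb'])
  have e3 : ∫⁻ ω, F (fun i => ω (A i)) ∂gm = ∫⁻ ω, F (fun i => ω (A' i)) ∂gm := by
    rw [← lintegral_map hF (rua_hm A), ← lintegral_map hF (rua_hm A'), hlaw]
  rw [e3] at hs
  simp_rw [rua_tilt γ κ _ s u0 β hβ]
  rw [lintegral_const_mul' _ _ (tld_eE_ne _)]
  exact mul_le_mul_right hs _

end

end Pool.Agent.Lib.APPS
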