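import Pool.Agent.Lib.APPS.Blue2
import Pool.Agent.Lib.APPS.B_MBg
import Pool.Agent.Lib.APPS.B_FM

/-!
Block RUS: rooted upper bound for all roots and the tail bound for the number of squares.
-/

namespace Pool.Agent.Lib.APPS

open MeasureTheory ProbabilityTheory Filter Topology Set Metric
open scoped NNReal ENNReal RealInnerProductSpace Classical

noncomputable section

namespace RUS

open MB

theorem meas_ind {α : Type} [MeasurableSpace α] {p : α → Prop} (h : MeasurableSet {a | p a}) :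
    Measurable fun a => ind (p a) := by
  unfold ind
  exact Measurable.ite h measurable_const measurable_const

theorem prob_eq {p : Om → Prop} (h : MeasurableSet {a | p a}) :
    gm {ω | p ω} = ∫⁻ ω, ind (p ω) ∂gm := by
  rw [← lintegral_indicator_one h]
  refine lintegral_congr fun ω => ?_
  by_cases hp : p ω <;> simp [ind, hp]

theorem ind_and (p r : Prop) : ind (p ∧ r) = ind p * ind r := by
  by_cases hp : p <;> by_cases hr : r <;> simp [ind, hp, hr]

theorem markov {n θ : ℝ} (hn : 0 < n) (hθ : 0 ≤ θ) (N : ℝ≥0∞) :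
    ind (ENNReal.ofReal n ≤ N) ≤ ENNReal.ofReal (n ^ (-θ)) * N ^ θ := by
  by_cases h : ENNReal.ofReal n ≤ N
  · refine le_trans (le_of_eq ?_) (mul_le_mul_right (ENNReal.rpow_le_rpow h hθ) _)
    rw [ENNReal.ofReal_rpow_of_pos hn, ← ENNReal.ofReal_mul (by positivity), ← Real.rpow_add hn]
    simp [ind, h]
  · simp [ind, h]

theorem meas_addF (f : Dy → ℝ) : Measurable fun x : Dy → ℝ => addF x f :=
  measurable_pi_lambda _ fun S => by
    have h : Measurable fun x : Dy → ℝ => x S := measurable_pi_apply S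
    exact h.add_const _

theorem meas_XV (γ : ℝ) (v : Dy → HH) (u : ℝ) : Measurable (XV γ v u) :=
  (meas_drift _ u).comp (meas_fam v)

theorem nB_mono (hT1 : St_T1) (x y : Dy → ℝ) (h : ∀ S, x S ≤ y S) : nB x ≤ nB y :=
  hT1.2.2.2.2.2.2.2.2.2.2.2.2.2.2.2.1 x y h

theorem exists_model (hM0 : St_M0) (hMOD : St_MOD) (hG : St_GEO1) {C : ℝ} (hC : 1 ≤ C) :
    ∃ M : Model, M.Ok 0 ∧ M.C0 = C ∧ Gram M.eS (covE C) := by
  obtain ⟨M0⟩ := hM0
  obtain ⟨M, h1, h2, -, -⟩ := (hMOD M0).2.2.1 (ctr []) (Real.exp C) (Real.exp_pos C)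
  rw [Real.log_exp] at h2
  have hb : ∀ z ∈ box [], closedBall z ((1 / 2 : ℝ) ^ 0) ⊆ M.O := by
    intro z hz y hy
    have h3 := (hG.2.2.2.1 []).2.2.2.1 z hz
    rw [h1, mem_ball, dist_eq_norm]
    rw [mem_closedBall, dist_eq_norm] at hy
    have h4 : ‖y - ctr []‖ ≤ ‖y - z‖ + ‖z - ctr []‖ := norm_sub_le_norm_sub_add_norm_sub _ _ _
    have h5 := Real.add_one_le_exp C
    simp only [side, List.length_nil, pow_zero] at h3 hy
    linarith
  refine ⟨M, ⟨hb, by simp [h2, hC]⟩, h2, ?_⟩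
  have := (hMOD M).2.2.2.2.2.2.1 [] fun z hz => hb z hz (mem_closedBall_self (by positivity))
  simpa [h2] using this

theorem ins_le (hG : St_GEO1) (R : Dy) (z : ℂ) (A : Dy) : ins (side R) z A ≤ ins 1 z A := by
  have h1 : 0 < max ‖z - ctr A‖ (side A) := lt_max_of_lt_right (hG.1 A).1
  exact Real.posLog_le_posLog (div_nonneg (hG.1 R).1.le h1.le)
    (div_le_div_of_nonneg_right (hG.1 R).2 h1.le)

theorem part1 (hG3 : St_G3) (hM0 : St_M0) (hMOD : St_MOD) (hG : St_GEO1) (hT1 : St_T1)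
    (hT3 : St_T3) (hR : St_RW1) (hMBb : St_MBb) (hTL : St_TL) (hRUG : St_RUG) {γ : ℝ}
    (hγ : γ ∈ Ioo (0 : ℝ) 2) (lam c0 C : ℝ) (hl0 : 0 ≤ lam) (hl : lam < γ) :
    ∃ K : ℝ, 0 ≤ K ∧ ∀ v z f, Gram v (covE C) → ShiftOK c0 lam z f →
    ∀ u n : ℝ, 0 ≤ u → 1 ≤ n →
      ∑' R : Dy, gm {ω | 0 < XV γ v u ω R + c0 ∧
        ENNReal.ofReal n ≤ nB (addF (XV γ v u ω) (f R))} ≤
        ENNReal.ofReal (K * Real.exp (γ * u) * (Real.exp (γ * u) / n) ^ th γ) := by
  obtain ⟨ha, -, hθ, hγθ, -⟩ := hR.2.2 γ hγ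
  obtain ⟨M, hOk, hC0, hGr⟩ := exists_model hM0 hMOD hG (le_max_right C 1)
  obtain ⟨r0, hr0, hK⟩ := (hRUG γ hγ).1 γ lam hγ.1 hl0 hl
  obtain ⟨K1, hK1⟩ := hK c0 (max C 1) 0
  obtain ⟨v0, hv0, hΓ⟩ := hTL.2.2.2.2 γ hγ γ r0 c0 le_rfl hr0
  obtain ⟨Γ, hΓ1, hΓ2⟩ := hΓ M 0 hOk
  obtain ⟨K2, hK2⟩ := hMBb γ hγ lam (th γ) (max C 1) hl0 hθ (by unfold th; linarith)
    (by rw [hγθ]; unfold aa; linarith)
  have hN : ∑' R : Dy, ind (R.length < 4) = 85 := by
    rw [FM.sum_len hT1 fun k => ind (k < 4), tsum_eq_sum (s := Finset.range 4)]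
    · simp [Finset.sum_range_succ, ind]; norm_num
    · intro k hk
      simp only [Finset.mem_range] at hk
      simp [ind, hk]
  refine ⟨2 * (|K1| * v0 + 85 * (|K2| * Real.exp (γ * th γ * c0))), by positivity,
    fun v z f hv hS u n hu hn => ?_⟩
  have hn0 : 0 < n := by linarith
  set W := Real.exp (γ * u) * (Real.exp (γ * u) / n) ^ th γ with hW
  have hW0 : 0 ≤ W := by positivity
  have hm1 : ∀ R : Dy, MeasurableSet {x : Dy → ℝ | 0 < x R + c0} := fun R =>
    measurableSet_lt measurable_const ((measurable_pi_apply R).add_const _)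
  have hm2 : ∀ R : Dy, MeasurableSet {x : Dy → ℝ | ENNReal.ofReal n ≤ nB (addF x (f R))} :=
    fun R => measurableSet_le measurable_const (hT3.1.comp (meas_addF _))
  set T : Dy → ℝ≥0∞ := fun R => ∫⁻ ω, ind (0 < M.X γ u ω R + c0) *
    ind (ENNReal.ofReal n ≤ nB (addF (M.X γ u ω) (f R))) ∂gm with hT
  have h1 : ∀ R : Dy, gm {ω | 0 < XV γ v u ω R + c0 ∧
      ENNReal.ofReal n ≤ nB (addF (XV γ v u ω) (f R))} ≤ 2 * T R := by
    intro R
    rw [prob_eq (p := fun ω => 0 < XV γ v u ω R + c0 ∧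
      ENNReal.ofReal n ≤ nB (addF (XV γ v u ω) (f R))) (meas_XV γ v u ((hm1 R).inter (hm2 R)))]
    simp only [ind_and]
    exact conv_down hG3 (QQ γ)
      (fun x => ind (0 < x R + c0) * ind (ENNReal.ofReal n ≤ nB (addF x (f R))))
      ((meas_ind (hm1 R)).mul (meas_ind (hm2 R)))
      (fun x y h => mul_le_mul' (ind_mono fun h' => by linarith [h R])
        (ind_mono fun h' => h'.trans (nB_mono hT1 _ _ fun S => by
          simp only [addF]; linarith [h S])))
      v M.eS C (max C 1) (le_max_left _ _) hv hGr u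
  have h2 : ∑' R : Dy, ind (0 + 4 ≤ R.length) * T R ≤ ENNReal.ofReal (|K1| * v0 * W) := by
    have := hK1 M v0 u n Γ z f hOk hC0.le hv0 hΓ1 hS hu hn
    refine le_trans (le_of_eq ?_) (this.trans (ENNReal.ofReal_le_ofReal ?_))
    · refine tsum_congr fun R => ?_
      by_cases hR4 : 0 + 4 ≤ R.length
      · simp only [hT, hΓ2 R u _ (by omega)]
      · simp [ind, hR4]
    · rw [mul_assoc (K1 * v0), ← hW]
      gcongr
      exact le_abs_self _
  have h3 : ∀ R : Dy, T R ≤ ENNReal.ofReal (|K2| * Real.exp (γ * th γ * c0) * W) := by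
    intro R
    have h4 := hK2 (max C 1) le_rfl M.eS hGr (u + c0) (z R)
    calc T R ≤ ∫⁻ ω, ENNReal.ofReal (n ^ (-th γ)) * nB (fun A =>
          drift (QQ γ) (fun S => ω (M.eS S)) (u + c0) A + lam * ins 1 (z R) A) ^ th γ ∂gm := by
          refine lintegral_mono fun ω => (mul_le_of_le_one_left' (ind_le_one _)).trans
            ((markov hn0 hθ.le _).trans (mul_le_mul_right (ENNReal.rpow_le_rpow
              (nB_mono hT1 _ _ fun A => ?_) hθ.le) _))
          have h5 := hS.2 R A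
          have h6 := mul_le_mul_of_nonneg_left (ins_le hG R (z R) A) hl0
          simp only [addF, Model.X, drift]
          linarith
      _ ≤ ENNReal.ofReal (n ^ (-th γ)) * ENNReal.ofReal (K2 * Real.exp (γ * th γ * (u + c0))) := by
          rw [lintegral_const_mul' _ _ ENNReal.ofReal_ne_top]
          exact mul_le_mul_right h4 _
      _ ≤ _ := by
          rw [← ENNReal.ofReal_mul (by positivity)]
          refine ENNReal.ofReal_le_ofReal ?_
          have e : n ^ (-th γ) * (|K2| * Real.exp (γ * th γ * (u + c0))) =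
              |K2| * Real.exp (γ * th γ * c0) * (1 * (Real.exp (γ * u) / n) ^ th γ) := by
            rw [Real.div_rpow (Real.exp_pos _).le hn0.le, ← Real.exp_mul, Real.rpow_neg hn0.le,
              mul_add, Real.exp_add, show γ * th γ * u = γ * u * th γ by ring]
            ring
          calc _ ≤ n ^ (-th γ) * (|K2| * Real.exp (γ * th γ * (u + c0))) := by
                gcongr; exact le_abs_self _
            _ ≤ _ := by
                rw [e, hW]
                gcongr
                exact Real.one_le_exp (mul_nonneg hγ.1.le hu)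
  calc _ ≤ ∑' R : Dy, 2 * (ind (0 + 4 ≤ R.length) * T R +
        ind (R.length < 4) * ENNReal.ofReal (|K2| * Real.exp (γ * th γ * c0) * W)) := by
        refine ENNReal.tsum_le_tsum fun R => (h1 R).trans (mul_le_mul_right ?_ _)
        by_cases hR4 : 0 + 4 ≤ R.length
        · refine le_trans (le_of_eq ?_) le_self_add
          rw [ind, if_pos hR4, one_mul]
        · refine le_trans ?_ le_add_self
          rw [ind, if_pos (by omega), one_mul]
          exact h3 R
    _ ≤ 2 * (ENNReal.ofReal (|K1| * v0 * W) +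
        85 * ENNReal.ofReal (|K2| * Real.exp (γ * th γ * c0) * W)) := by
        rw [ENNReal.tsum_mul_left, ENNReal.tsum_add, ENNReal.tsum_mul_right, hN]
        gcongr
    _ = _ := by
        rw [show (85 : ℝ≥0∞) = ENNReal.ofReal 85 by simp, show (2 : ℝ≥0∞) = ENNReal.ofReal 2 by simp,
          ← ENNReal.ofReal_mul (by norm_num), ← ENNReal.ofReal_add (by positivity) (by positivity),
          ← ENNReal.ofReal_mul (by norm_num), mul_assoc _ (Real.exp (γ * u)), ← hW]
        congr 1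
        ring

theorem pos_u (hG : St_GEO1) (hT3 : St_T3) {γ K : ℝ} (hK : 0 ≤ K) (v : Dy → HH) (u n : ℝ)
    (hn : 1 ≤ n)
    (h : ∑' R : Dy, gm {ω | 0 < XV γ v u ω R + 0 ∧
        ENNReal.ofReal n ≤ nB (addF (XV γ v u ω) ((fun _ _ => 0 : Dy → Dy → ℝ) R))} ≤
        ENNReal.ofReal (K * Real.exp (γ * u) * (Real.exp (γ * u) / n) ^ th γ)) :
    gm {ω | ENNReal.ofReal n ≤ nB (XV γ v u ω)} ≤
      ENNReal.ofReal (K * (Real.exp (γ * u) / n) ^ (th γ + 1)) := by
  have hn0 : 0 < n := by linarith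
  have e0 : ∀ x : Dy → ℝ, addF x (fun _ => 0) = x := fun x => by funext A; simp [addF]
  simp only [e0, add_zero] at h
  have hm2 : MeasurableSet {ω | ENNReal.ofReal n ≤ nB (XV γ v u ω)} :=
    measurableSet_le measurable_const (hT3.1.comp (meas_XV γ v u))
  have hm : ∀ R : Dy, MeasurableSet {ω | 0 < XV γ v u ω R ∧
      ENNReal.ofReal n ≤ nB (XV γ v u ω)} := fun R =>
    (measurableSet_lt measurable_const ((measurable_pi_apply R).comp (meas_XV γ v u))).inter hm2
  simp only [prob_eq (hm _)] at h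
  rw [← lintegral_tsum fun R => (meas_ind (hm R)).aemeasurable] at h
  have h1 : ENNReal.ofReal n * gm {ω | ENNReal.ofReal n ≤ nB (XV γ v u ω)} ≤
      ENNReal.ofReal (K * Real.exp (γ * u) * (Real.exp (γ * u) / n) ^ th γ) := by
    refine le_trans ?_ h
    rw [prob_eq hm2, ← lintegral_const_mul' _ _ ENNReal.ofReal_ne_top]
    refine lintegral_mono fun ω => ?_
    by_cases hc : ENNReal.ofReal n ≤ nB (XV γ v u ω)
    · rw [ind, if_pos hc, mul_one]
      exact hc.trans (ENNReal.tsum_le_tsum fun R =>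
        ind_mono fun h' => ⟨h' R (List.suffix_refl R), hc⟩)
    · simp [ind, hc]
  have h2 : ENNReal.ofReal (K * Real.exp (γ * u) * (Real.exp (γ * u) / n) ^ th γ) =
      ENNReal.ofReal n * ENNReal.ofReal (K * (Real.exp (γ * u) / n) ^ (th γ + 1)) := by
    rw [← ENNReal.ofReal_mul hn0.le, Real.rpow_add_one (by positivity)]
    congr 1
    field_simp
  rw [h2] at h1
  exact (ENNReal.mul_le_mul_iff_right (ENNReal.ofReal_pos.2 hn0).ne' ENNReal.ofReal_ne_top).1 h1

end RUS

open RUS MB in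
theorem blk_RUS (_hG1 : St_G1) (_hD : St_G1D) (hG2 : St_G2) (hG3 : St_G3) (hM0 : St_M0)
    (hMOD : St_MOD) (hE : St_EXP2) (hG : St_GEO1) (hT1 : St_T1) (hT3 : St_T3) (hR : St_RW1)
    (hMBb : St_MBb) (hTL : St_TL) (hRUG : St_RUG) : St_RUS := by
  intro γ hγ
  refine ⟨fun lam c0 C h0 h1 => ?_, fun C => ?_⟩
  · obtain ⟨K, -, hK⟩ := part1 hG3 hM0 hMOD hG hT1 hT3 hR hMBb hTL hRUG hγ lam c0 C h0 h1
    exact ⟨K, hK⟩
  obtain ⟨K, hK0, hK⟩ := part1 hG3 hM0 hMOD hG hT1 hT3 hR hMBb hTL hRUG hγ 0 0 C le_rfl hγ.1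
  have hpos : ∀ v, Gram v (covE C) → ∀ u n : ℝ, 0 ≤ u → 1 ≤ n →
      gm {ω | ENNReal.ofReal n ≤ nB (XV γ v u ω)} ≤
        ENNReal.ofReal (K * (Real.exp (γ * u) / n) ^ (th γ + 1)) := fun v hv u n hu hn =>
    pos_u hG hT3 hK0 v u n hn (hK v ctr (fun _ _ => 0) hv
      ⟨fun R => (hG.2.2.2.1 R).2.2.1, fun R A => by simp⟩ u n hu hn)
  obtain ⟨CE, -, -, -, hCE, -⟩ := hE.2.2.2.2.2
  have hγ0 := hγ.1
  set l := γ * (th γ + 1) with hl
  have hθ := (hR.2.2 γ hγ).2.2.1
  have hl0 : 0 ≤ l := by positivity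
  set u0 := max (l * (C + CE)) 0 with hu0
  set K' := Real.exp (l ^ 2 * (C + kS [] []) / 2 + l * u0) * K with hK'
  refine ⟨max K K', fun v hv u n hn => ?_⟩
  have hn0 : 0 < n := by linarith
  rcases le_or_gt 0 u with hu | hu
  · exact (hpos v hv u n hu hn).trans (ENNReal.ofReal_le_ofReal
      (mul_le_mul_of_nonneg_right (le_max_left _ _) (by positivity)))
  have hm : ∀ u, MeasurableSet {ω | ENNReal.ofReal n ≤ nB (XV γ v u ω)} := fun u =>
    measurableSet_le measurable_const (hT3.1.comp (meas_XV γ v u))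
  have hcm := hG2.2.1 (l • v []) _ (meas_ind (hm u))
  have hnorm : ‖l • v []‖ ^ 2 = l ^ 2 * (C + kS [] []) := by
    rw [norm_smul, mul_pow, Real.norm_eq_abs, sq_abs, ← real_inner_self_eq_norm_sq, hv, covE]
  have hks : ∀ S, kS [] S ≤ CE := by
    intro S
    have h1 := (abs_le.1 (hCE [] S)).2
    have h2 : 0 ≤ Real.log (max ‖ctr [] - ctr S‖ (max (side []) (side S))) :=
      Real.log_nonneg (le_max_of_le_right (le_max_of_le_left (by simp [side])))
    linarith
  calc gm {ω | ENNReal.ofReal n ≤ nB (XV γ v u ω)}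
      ≤ ∫⁻ ω, eE (l * u + ‖l • v []‖ ^ 2 / 2) * (ind (ENNReal.ofReal n ≤ nB (XV γ v u ω)) *
          eE (ω (l • v []) - ‖l • v []‖ ^ 2 / 2)) ∂gm := by
        rw [prob_eq (hm u)]
        refine lintegral_mono fun ω => ?_
        by_cases hc : ENNReal.ofReal n ≤ nB (XV γ v u ω)
        · have h0 : 0 < XV γ v u ω [] := by
            by_contra h
            have : nB (XV γ v u ω) = 0 := ENNReal.tsum_eq_zero.2 fun A => by
              rw [ind, if_neg fun h' => h (h' [] List.nil_suffix)]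
            rw [this] at hc
            exact absurd (ENNReal.ofReal_pos.2 hn0) (not_lt.2 hc)
          simp only [XV, drift, List.length_nil, Nat.cast_zero, mul_zero, zero_mul,
            sub_zero] at h0
          rw [ind, if_pos hc, one_mul, ← eE_add, ← FM.eE_zero]
          refine eE_mono ?_
          rw [map_smul, smul_eq_mul]
          nlinarith
        · simp [ind, hc]
    _ ≤ eE (l * u + ‖l • v []‖ ^ 2 / 2) * gm {ω | ENNReal.ofReal n ≤ nB (XV γ v u0 ω)} := by
        rw [lintegral_const_mul' _ _ (eE_ne_top _), ← hcm, prob_eq (hm u0)]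
        refine mul_le_mul_right (lintegral_mono fun ω => ind_mono fun h =>
          h.trans (nB_mono hT1 _ _ fun S => ?_)) _
        have h1 := mul_le_mul_of_nonneg_left (hks S) hl0
        have h2 : l * (C + CE) ≤ u0 := le_max_left _ _
        simp only [XV, drift, LinearMap.add_apply, dv_apply, real_inner_smul_left, hv [] S, covE]
        linarith
    _ ≤ eE (l * u + ‖l • v []‖ ^ 2 / 2) *
        ENNReal.ofReal (K * (Real.exp (γ * u0) / n) ^ (th γ + 1)) :=
        mul_le_mul_right (hpos v hv u0 n (le_max_right _ _) hn) _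
    _ ≤ _ := by
        rw [eE, ← ENNReal.ofReal_mul (Real.exp_pos _).le]
        refine ENNReal.ofReal_le_ofReal (le_trans (le_of_eq ?_)
          (mul_le_mul_of_nonneg_right (le_max_right _ _) (by positivity)))
        rw [hK', hnorm, Real.div_rpow (Real.exp_pos _).le hn0.le,
          Real.div_rpow (Real.exp_pos _).le hn0.le, ← Real.exp_mul, ← Real.exp_mul, Real.exp_add,
          Real.exp_add, show γ * u0 * (th γ + 1) = l * u0 by rw [hl]; ring,
          show γ * u * (th γ + 1) = l * u by rw [hl]; ring]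
        ring

end

end Pool.Agent.Lib.APPS
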