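import Pool.Agent.Lib.APPS.Blue4
import Pool.Agent.Lib.APPS.B_GR
import Pool.Agent.Lib.APPS.B_P1

/-!
Block SCR, analytic helpers.
-/

namespace Pool.Agent.Lib.APPS

open MeasureTheory ProbabilityTheory Filter Topology Set Metric
open scoped NNReal ENNReal RealInnerProductSpace Classical

noncomputable section

namespace SCR

open GR

/-- measures with a bounded, compactly supported density -/
def Dens (μ : Measure ℂ) : Prop :=
  ∃ (ρ : ℂ → ℝ) (B R : ℝ), Rho ρ B R ∧ (∀ x, 0 ≤ ρ x) ∧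
    μ = volume.withDensity fun x => ENNReal.ofReal (ρ x)

theorem dens_of {a : ℝ} (ha : 0 ≤ a) {s : Set ℂ} (hs : IsCompact s) :
    Dens (ENNReal.ofReal a • volume.restrict s) := by
  obtain ⟨R, hR⟩ := hs.isBounded.subset_closedBall 0
  have hm := hs.isClosed.measurableSet
  refine ⟨s.indicator fun _ => a, a, max R 1,
    ⟨measurable_const.indicator hm, fun x => ?_, lt_max_of_lt_right one_pos, fun x hx => ?_⟩,
    fun x => indicator_nonneg (fun _ _ => ha) x, ?_⟩
  · by_cases h : x ∈ s <;> simp [h, abs_of_nonneg ha, ha]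
  · refine indicator_of_notMem (fun h => ?_) _
    have := mem_closedBall_zero_iff.1 (hR h)
    linarith [le_max_left R 1]
  · have : (fun x => ENNReal.ofReal (s.indicator (fun _ => a) x)) =
        s.indicator fun _ => ENNReal.ofReal a := by
      funext x
      by_cases h : x ∈ s <;> simp [h]
    rw [this, withDensity_indicator hm, withDensity_const]

theorem dens_unif (hG : St_GEO1) (S : Dy) : Dens (unif S) :=
  dens_of (by positivity) (hG.2.2.2.1 S).1

theorem dens_disc (c : ℂ) {r : ℝ} (hr : 0 < r) : Dens (disc c r) := by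
  unfold disc
  rw [← ENNReal.ofReal_inv_of_pos (by positivity)]
  exact dens_of (by positivity) (isCompact_closedBall _ _)

/-- gradients of decaying potentials -/
def Nice (v : HH) : Prop :=
  ∃ f, LipE f ∧ (∃ C : ℝ, ∀ x : ℂ, |f x| ≤ C / (1 + ‖x‖)) ∧ v = gr f

theorem Nice.add (hP : St_P1) {v w : HH} (hv : Nice v) (hw : Nice w) : Nice (v + w) := by
  obtain ⟨f, hf, ⟨C, hC⟩, rfl⟩ := hv
  obtain ⟨g, hg, ⟨D, hD⟩, rfl⟩ := hw
  refine ⟨f + g, (hP.2.1 f g hf hg).1, ⟨C + D, fun x => ?_⟩, (hP.2.1 f g hf hg).2.symm⟩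
  rw [add_div]
  exact (abs_add_le _ _).trans (add_le_add (hC x) (hD x))

theorem Nice.smul (hP : St_P1) (t : ℝ) {v : HH} (hv : Nice v) : Nice (t • v) := by
  obtain ⟨f, hf, ⟨C, hC⟩, rfl⟩ := hv
  refine ⟨t • f, (hP.2.2.1 t f hf).1, ⟨|t| * C, fun x => ?_⟩, (hP.2.2.1 t f hf).2.symm⟩
  rw [Pi.smul_apply, smul_eq_mul, abs_mul, mul_div_assoc]
  gcongr
  exact hC x

theorem Nice.sum (hP : St_P1) {ι : Type} (s : Finset ι) {v : ι → HH} {w : HH} (hw : Nice w)
    (hv : ∀ i, Nice (v i)) : Nice (∑ i ∈ s, v i) := by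
  induction s using Finset.induction_on with
  | empty => simpa using hw.smul hP 0
  | insert a s ha ih => rw [Finset.sum_insert ha]; exact (hv a).add hP ih

theorem nice_pair (hF : St_FE) (hM : St_MOD) (hGR : St_GR) (M : Model) {μ ν : Measure ℂ}
    (hμ : Dens μ) (hν : Dens ν) [IsProbabilityMeasure μ] [IsProbabilityMeasure ν] :
    Nice (M.e μ - M.e ν) := by
  obtain ⟨ρ1, B1, R1, h1, p1, e1⟩ := hμ
  obtain ⟨ρ2, B2, R2, h2, p2, e2⟩ := hν
  have i1 : ∫ x, ρ1 x = 1 := by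
    have := h1.wint fun _ => 1
    rw [← e1] at this
    simpa [max_eq_left (p1 _)] using this.symm
  have i2 : ∫ x, ρ2 x = 1 := by
    have := h2.wint fun _ => 1
    rw [← e2] at this
    simpa [max_eq_left (p2 _)] using this.symm
  have hd : Rho (fun x => ρ1 x - ρ2 x) (B1 + B2) (max R1 R2) :=
    ⟨h1.meas.sub h2.meas, fun x => (abs_sub _ _).trans (add_le_add (h1.bd x) (h2.bd x)),
      lt_max_of_lt_left h1.pos, fun x hx => by
        rw [h1.supp x ((le_max_left _ _).trans_lt hx), h2.supp x ((le_max_right _ _).trans_lt hx),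
          sub_zero]⟩
  have hm : Rho (fun x => min (ρ1 x) (ρ2 x)) B1 R1 :=
    ⟨h1.meas.min h2.meas, fun x => by
      rw [abs_of_nonneg (le_min (p1 x) (p2 x))]
      exact (min_le_left _ _).trans ((le_abs_self _).trans (h1.bd x)), h1.pos, fun x hx => by
        rw [h1.supp x hx, min_eq_left (p2 x)]⟩
  obtain ⟨k1, k2, k3⟩ := hGR (fun x => ρ1 x - ρ2 x) hd.meas ⟨_, hd.bd⟩ ⟨_, hd.supp⟩
    (by rw [integral_sub h1.int h2.int, i1, i2, sub_self])
  refine ⟨_, k1, k2, ?_⟩
  rw [← k3 M]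
  have a1 : μ = (volume.withDensity fun x => ENNReal.ofReal (ρ1 x - ρ2 x)) +
      volume.withDensity fun x => ENNReal.ofReal (min (ρ1 x) (ρ2 x)) := by
    rw [e1, ← withDensity_add_left hd.meas.ennreal_ofReal]
    congr 1
    funext x
    rcases le_total (ρ1 x) (ρ2 x) with h | h
    · simp only [Pi.add_apply, min_eq_left h]
      rw [ENNReal.ofReal_of_nonpos (sub_nonpos.2 h), zero_add]
    · simp only [Pi.add_apply, min_eq_right h]
      rw [← ENNReal.ofReal_add (sub_nonneg.2 h) (p2 x), sub_add_cancel]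
  have a2 : ν = (volume.withDensity fun x => ENNReal.ofReal (-(ρ1 x - ρ2 x))) +
      volume.withDensity fun x => ENNReal.ofReal (min (ρ1 x) (ρ2 x)) := by
    rw [e2, ← withDensity_add_left hd.neg.meas.ennreal_ofReal]
    congr 1
    funext x
    rcases le_total (ρ1 x) (ρ2 x) with h | h
    · simp only [Pi.add_apply, min_eq_left h]
      rw [← ENNReal.ofReal_add (by linarith) (p1 x)]
      congr 1; ring
    · simp only [Pi.add_apply, min_eq_right h]
      rw [ENNReal.ofReal_of_nonpos (show -(ρ1 x - ρ2 x) ≤ 0 by linarith), zero_add]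
  rw [a1, a2, (hM M).1 _ _ (hd.fe hF) (hm.fe hF), (hM M).1 _ _ (hd.neg.fe hF) (hm.fe hF)]
  abel

theorem int_cont {μ : Measure ℂ} (hμ : FE μ) {g : ℂ → ℝ} (hg : Continuous g) : Integrable g μ := by
  obtain ⟨r, hr⟩ := hμ.bdd
  have := hμ.fin
  have h1 : IntegrableOn g (closedBall 0 r) μ :=
    hg.continuousOn.integrableOn_compact (isCompact_closedBall _ _)
  have hr' : ∀ᵐ x ∂μ, x ∈ closedBall (0 : ℂ) r := hr
  rwa [IntegrableOn, Measure.restrict_eq_self_of_ae_mem hr'] at h1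

theorem pair_dec (hP : St_P1) (M : Model) {μ ν : Measure ℂ} (hμ : PFE μ) (hν : PFE ν)
    {g : ℂ → ℝ} (hg : LipE g) {c C : ℝ} (hd : ∀ x, |g x - c| ≤ C / (1 + ‖x‖)) :
    ⟪M.e μ - M.e ν, gr g⟫ = ∫ x, g x ∂μ - ∫ x, g x ∂ν := by
  obtain ⟨φ, hφ, he, -, ht⟩ := hP.2.2.2.2.2.2.2.2.1 g c C hg hd
  have p1 := hμ.2
  have p2 := hν.2
  obtain ⟨K, hK⟩ := hg.1
  have key : ∀ {m : Measure ℂ}, PFE m → ∀ᶠ n : ℕ in atTop, ∫ x, φ n x ∂m = ∫ x, g x ∂m - c := by
    intro m hm
    have p := hm.2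
    obtain ⟨r, hr⟩ := hm.1.bdd
    obtain ⟨N, hN⟩ := exists_nat_ge r
    filter_upwards [eventually_ge_atTop N] with n hn
    have : ∫ x, φ n x ∂m = ∫ x, (g x - c) ∂m := by
      refine integral_congr_ae ?_
      have hr' : ∀ᵐ x ∂m, x ∈ closedBall (0 : ℂ) r := hr
      filter_upwards [hr'] with x hx
      refine he n x ((mem_closedBall_zero_iff.1 hx).trans (hN.trans ?_))
      exact_mod_cast hn
    rw [this, integral_sub (int_cont hm.1 hK.continuous) (integrable_const _)]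
    simp
  have t1 : Tendsto (fun n => ⟪M.e μ - M.e ν, gr (φ n)⟫) atTop (𝓝 ⟪M.e μ - M.e ν, gr g⟫) :=
    tendsto_const_nhds.inner ht
  refine tendsto_nhds_unique t1 (tendsto_const_nhds.congr' ?_)
  filter_upwards [key hμ, key hν] with n h1 h2
  rw [M.ezg _ _ _ hμ.1 hν.1 (by simp) (hφ n), h1, h2]
  ring

/-- exterior energy -/
def ext (f : ℂ → ℝ) (c : ℂ) (t : ℝ) : ℝ := ∫ x in {x | t ≤ ‖x - c‖}, ‖gradient f x‖ ^ 2

theorem sq_int (hP : St_P1) {f : ℂ → ℝ} (hf : LipE f) :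
    Integrable (fun x => ‖gradient f x‖ ^ 2) ∧
      ‖gr f‖ ^ 2 = (2 * Real.pi)⁻¹ * ∫ x, ‖gradient f x‖ ^ 2 := by
  have := hP.2.2.2.2.1 f f hf hf
  simpa only [real_inner_self_eq_norm_sq] using this

theorem ext_le (hP : St_P1) {f : ℂ → ℝ} (hf : LipE f) (c : ℂ) (t : ℝ) :
    ext f c t ≤ 2 * Real.pi * ‖gr f‖ ^ 2 := by
  obtain ⟨h1, h2⟩ := sq_int hP hf
  rw [h2, ← mul_assoc, mul_inv_cancel₀ (by positivity), one_mul]
  exact setIntegral_le_integral h1 (ae_of_all _ fun x => by positivity)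

theorem core (hP : St_P1) {f ψ : ℂ → ℝ} (hf : LipE f) (hψ : LipE ψ) {c : ℂ} {r C : ℝ}
    (hr : 0 < r) (hC : 0 ≤ C) (h0 : ∀ x, ‖x - c‖ ≤ 3 * r / 4 → ψ x = 0)
    (h1 : ∀ x, 9 * r / 4 ≤ ‖x - c‖ → ψ x = f x)
    (hE : ∫ x in {x | 3 * r / 4 ≤ ‖x - c‖ ∧ ‖x - c‖ ≤ 9 * r / 4}, ‖gradient ψ x‖ ^ 2 ≤
      C * ∫ x in {x | 3 * r / 4 ≤ ‖x - c‖ ∧ ‖x - c‖ ≤ 9 * r / 4}, ‖gradient f x‖ ^ 2) :
    (⟪gr f, gr ψ⟫ = 0 → ext f c (3 * r) ≤ (1 + C) / (3 + C) * ext f c (3 * r / 4)) ∧
      2 * Real.pi * ‖gr ψ‖ ^ 2 ≤ (1 + C) * ext f c (3 * r / 4) := by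
  have hc : Continuous fun x : ℂ => ‖x - c‖ := by fun_prop
  set N := {x : ℂ | 3 * r / 4 ≤ ‖x - c‖ ∧ ‖x - c‖ ≤ 9 * r / 4} with hN
  set O := {x : ℂ | 9 * r / 4 < ‖x - c‖} with hO
  have mN : MeasurableSet N :=
    (measurableSet_le measurable_const hc.measurable).inter
      (measurableSet_le hc.measurable measurable_const)
  have mO : MeasurableSet O := measurableSet_lt measurable_const hc.measurable
  have gO : ∀ x ∈ O, gradient ψ x = gradient f x := by
    intro x hx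
    refine Filter.EventuallyEq.gradient_eq ?_
    filter_upwards [(isOpen_lt continuous_const hc).mem_nhds hx] with y hy
    exact h1 y (le_of_lt hy)
  have gI : ∀ x, x ∉ N → x ∉ O → gradient ψ x = 0 := by
    intro x hx hx'
    have h2 : ‖x - c‖ < 3 * r / 4 := by
      by_contra h
      exact hx ⟨not_lt.1 h, not_lt.1 hx'⟩
    refine P1.grad_loc (c := 0) ?_
    filter_upwards [(isOpen_lt hc continuous_const).mem_nhds h2] with y hy
    exact h0 y (le_of_lt hy)
  have dis : ∀ x ∈ N, x ∉ O := fun x hx hx' => absurd hx.2 (not_le.2 hx')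
  obtain ⟨if1, -⟩ := sq_int hP hf
  obtain ⟨ip1, ip2⟩ := sq_int hP hψ
  obtain ⟨ii1, ii2⟩ := hP.2.2.2.2.1 f ψ hf hψ
  have split : ∀ h : ℂ → ℝ, Integrable h → (∀ x ∈ O, h x = ‖gradient f x‖ ^ 2) →
      (∀ x, x ∉ N → x ∉ O → h x = 0) →
      ∫ x, h x = (∫ x in N, h x) + ∫ x in O, ‖gradient f x‖ ^ 2 := by
    intro h hi ho hz
    rw [← integral_indicator mN, ← integral_indicator mO,
      ← integral_add (hi.indicator mN) (if1.indicator mO)]
    congr 1
    funext x
    by_cases a : x ∈ N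
    · simp [a, dis x a]
    · by_cases b : x ∈ O
      · simp [a, b, ho x b]
      · simp [a, b, hz x a b]
  have s1 := split _ ii1 (fun x hx => by rw [gO x hx, real_inner_self_eq_norm_sq])
    (fun x a b => by rw [gI x a b, inner_zero_right])
  have s2 := split _ ip1 (fun x hx => by rw [gO x hx]) (fun x a b => by simp [gI x a b])
  have s3 : ext f c (3 * r / 4) =
      (∫ x in N, ‖gradient f x‖ ^ 2) + ∫ x in O, ‖gradient f x‖ ^ 2 := by
    rw [ext, ← setIntegral_union (disjoint_left.2 dis) mO if1.integrableOn if1.integrableOn]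
    congr 2
    ext x
    simp only [hN, hO, mem_ofPred_eq, mem_union]
    constructor
    · intro h
      by_cases a : ‖x - c‖ ≤ 9 * r / 4
      · exact Or.inl ⟨h, a⟩
      · exact Or.inr (not_le.1 a)
    · rintro (h | h)
      · exact h.1
      · linarith
  have s4 : ext f c (3 * r) ≤ ∫ x in O, ‖gradient f x‖ ^ 2 := by
    refine setIntegral_mono_set if1.integrableOn (ae_of_all _ fun x => by positivity)
      (LE.le.eventuallyLE fun x hx => ?_)
    simp only [hO, mem_ofPred_eq] at hx ⊢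
    linarith
  have n1 : 0 ≤ ∫ x in N, ‖gradient f x‖ ^ 2 := integral_nonneg fun x => by positivity
  have n2 : 0 ≤ ∫ x in O, ‖gradient f x‖ ^ 2 := integral_nonneg fun x => by positivity
  constructor
  · intro hz
    have z1 : ∫ x, ⟪gradient f x, gradient ψ x⟫ = 0 := by
      rw [hz] at ii2
      have : (2 * Real.pi)⁻¹ ≠ 0 := by positivity
      exact (mul_eq_zero.1 ii2.symm).resolve_left this
    have z2 : -∫ x in N, ⟪gradient f x, gradient ψ x⟫ ≤
        ((∫ x in N, ‖gradient f x‖ ^ 2) + ∫ x in N, ‖gradient ψ x‖ ^ 2) / 2 := by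
      rw [← integral_neg, ← integral_add if1.integrableOn ip1.integrableOn, ← integral_div]
      refine integral_mono ii1.integrableOn.neg
        ((if1.integrableOn.add ip1.integrableOn).div_const 2) fun x => ?_
      have a := abs_real_inner_le_norm (gradient f x) (gradient ψ x)
      have b := neg_abs_le ⟪gradient f x, gradient ψ x⟫
      simp only
      nlinarith [sq_nonneg (‖gradient f x‖ - ‖gradient ψ x‖)]
    rw [s3, div_mul_eq_mul_div, le_div_iff₀ (by linarith)]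
    nlinarith
  · rw [ip2, ← mul_assoc, mul_inv_cancel₀ (by positivity), one_mul, s2, s3]
    nlinarith

end SCR

end

end Pool.Agent.Lib.APPS
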