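import Pool.Agent.Lib.APPS.Blue2

/-! Block ST2, deterministic part. -/

namespace Pool.Agent.Lib.APPS

open MeasureTheory ProbabilityTheory Filter Topology Set Metric
open scoped NNReal ENNReal Classical

noncomputable section

namespace ST2

theorem ind_pos {p : Prop} (h : p) : ind p = 1 := by unfold ind; exact if_pos h

theorem ind_neg {p : Prop} (h : ¬p) : ind p = 0 := by unfold ind; exact if_neg h

theorem ind_mono {p q : Prop} (h : p → q) : ind p ≤ ind q := by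
  by_cases hp : p
  · rw [ind_pos hp, ind_pos (h hp)]
  · rw [ind_neg hp]; exact zero_le

theorem ind_le_one (p : Prop) : ind p ≤ 1 := by
  by_cases hp : p
  · rw [ind_pos hp]
  · rw [ind_neg hp]; exact zero_le

/-- the dyadic distance range of index `l` -/
def Rg (R : Dy) (l : ℕ) (A : Dy) : Prop :=
  8 * (1 / 2 : ℝ) ^ l < ‖ctr A - ctr R‖ ∧ ‖ctr A - ctr R‖ ≤ 16 * (1 / 2 : ℝ) ^ l

/-- squares which are close to `R` at their own scale -/
def Cl (x : Dy → ℝ) (R A : Dy) : Prop :=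
  (IntN x A ∧ R.length ≤ A.length ∧ ‖ctr A - ctr R‖ ≤ 8 * side R) ∨
    (A.length ≤ R.length ∧ ‖ctr A - ctr R‖ ≤ 8 * side A)

def cN (x : Dy → ℝ) (R : Dy) (l : ℕ) : ℝ≥0∞ := ∑' A : Dy, ind (IntN x A ∧ Rg R l A)

def bN (x : Dy → ℝ) (R : Dy) (l : ℕ) : ℝ≥0∞ := ∑' A : Dy, ind (Cl x R A ∧ Rg R l A)

lemma half_le {a b : ℕ} (h : a + 1 ≤ b) : 16 * (1 / 2 : ℝ) ^ b ≤ 8 * (1 / 2 : ℝ) ^ a := by
  have := pow_le_pow_of_le_one (by norm_num : (0 : ℝ) ≤ 1 / 2) (by norm_num) h
  rw [pow_succ] at this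
  linarith

lemma Rg_unique {R A : Dy} {l l' : ℕ} (h : Rg R l A) (h' : Rg R l' A) : l = l' := by
  by_contra hne
  rcases Nat.lt_or_gt_of_ne hne with e | e
  · linarith [half_le (Nat.succ_le_of_lt e), h.1, h'.2]
  · linarith [half_le (Nat.succ_le_of_lt e), h'.1, h.2]

lemma cnt_le (hT : St_T1) (x : Dy → ℝ) (R : Dy) (j : ℕ) :
    ENNReal.ofReal (cnt x R j) ≤ cN x R (j + 2) + cN x R (j + 3) + cN x R (j + 4) := by
  have hI : ∀ A ∈ tr x, IntN x A := by
    intro A hA
    by_cases h : nB x = ∞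
    · rw [hT.2.2.2.2.2.2.2.2.2.2.2.2.2.1 x h] at hA
      simp at hA
    · exact (hT.2.2.2.2.2.2.2.2.2.2.2.2.1 x h A).1 hA
  unfold cnt cN
  rw [ENNReal.ofReal_natCast, ← ENNReal.tsum_add, ← ENNReal.tsum_add, Finset.card_eq_sum_ones,
    Nat.cast_sum]
  refine le_trans (Finset.sum_le_sum fun A hA => ?_) (ENNReal.sum_le_tsum _)
  obtain ⟨h1, h2, h3⟩ := Finset.mem_filter.1 hA
  have h4 := hI A h1
  have hp : 0 < (1 / 2 : ℝ) ^ j := by positivity
  rw [Nat.cast_one]
  by_cases c1 : 2 * (1 / 2 : ℝ) ^ j < ‖ctr A - ctr R‖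
  · rw [ind_pos (p := IntN x A ∧ Rg R (j + 2) A)
      ⟨h4, by rw [pow_add]; linarith, by rw [pow_add]; linarith⟩, add_assoc]
    exact le_self_add
  by_cases c2 : (1 / 2 : ℝ) ^ j < ‖ctr A - ctr R‖
  · rw [ind_pos (p := IntN x A ∧ Rg R (j + 3) A)
      ⟨h4, by rw [pow_add]; linarith, by rw [pow_add]; linarith⟩]
    exact le_add_right le_add_self
  · rw [ind_pos (p := IntN x A ∧ Rg R (j + 4) A)
      ⟨h4, by rw [pow_add]; linarith, by rw [pow_add]; linarith⟩]
    exact le_add_self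

lemma cN_le (hG : St_GEO2) (x : Dy → ℝ) (R : Dy) (l : ℕ) :
    cN x R l ≤ ind (l ≤ R.length) * annN x R l + bN x R l := by
  have h1 : ∑' A : Dy, ind (l ≤ R.length ∧ IntN x A ∧ l ≤ A.length ∧ Rg R l A) ≤
      ind (l ≤ R.length) * annN x R l := by
    by_cases h : l ≤ R.length
    · rw [ind_pos h, one_mul]
      exact le_trans (ENNReal.tsum_le_tsum fun A => ind_mono fun h => h.2) (hG.2.1 x R l h)
    · simp [ind_neg (fun h' : l ≤ R.length ∧ _ => h h'.1)]
  refine le_trans ?_ (add_le_add_left h1 _)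
  unfold cN bN
  rw [← ENNReal.tsum_add]
  refine ENNReal.tsum_le_tsum fun A => ?_
  by_cases h : IntN x A ∧ Rg R l A
  · rw [ind_pos h]
    by_cases c : l ≤ R.length ∧ l ≤ A.length
    · rw [ind_pos (p := l ≤ R.length ∧ _) ⟨c.1, h.1, c.2, h.2⟩]
      exact le_self_add
    · rw [ind_pos (p := Cl x R A ∧ _) ⟨?_, h.2⟩]
      · exact le_add_self
      by_cases c' : A.length ≤ R.length
      · exact Or.inr ⟨c', h.2.2.trans (half_le (by omega))⟩
      · exact Or.inl ⟨h.1, by omega, h.2.2.trans (half_le (by omega))⟩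
  · rw [ind_neg h]
    exact zero_le

lemma sum_bN (hG : St_GEO2) (x : Dy → ℝ) (R : Dy) (s : Finset ℕ) (a : ℕ) :
    ∑ j ∈ s, bN x R (j + a) ≤ NN x R := by
  unfold bN
  rw [← Summable.tsum_finsetSum fun _ _ => ENNReal.summable]
  refine le_trans (ENNReal.tsum_le_tsum fun A => ?_)
    (le_trans (le_of_eq ENNReal.tsum_add) (add_le_add (hG.2.2.1 x R) (hG.2.2.2.1 R)))
  by_cases h : ∃ j ∈ s, Cl x R A ∧ Rg R (j + a) A
  · obtain ⟨j, hj, h1, h2⟩ := h
    rw [Finset.sum_eq_single j (fun i _ hi => ind_neg fun h => hi (by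
      have := Rg_unique h.2 h2
      omega)) (fun h => absurd hj h), ind_pos ⟨h1, h2⟩]
    rcases h1 with h1 | h1
    · rw [ind_pos h1]; exact le_self_add
    · rw [ind_pos h1]; exact le_add_self
  · rw [Finset.sum_eq_zero fun j hj => ind_neg fun h' => h ⟨j, hj, h'⟩]
    exact zero_le

variable (M : Model) (γ u : ℝ) (i0 : ℕ) (t : ℝ) (R : Dy) (ω : Om)

def gN (l : ℕ) : ℝ≥0∞ :=
  if l ∈ Finset.Icc (i0 + 5) R.length then
    ind (M.rad γ u R (l - 5) ω ≤ t) * annN (M.X γ u ω) R l else 0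

lemma sum_gN (s : Finset ℕ) (a : ℕ) :
    ∑ j ∈ s, gN M γ u i0 t R ω (j + a) ≤ M.low γ u i0 t R ω := by
  rw [← Finset.sum_image (s := s) (g := fun j => j + a) (f := gN M γ u i0 t R ω)
    (fun i _ j _ h => by simpa using h)]
  unfold gN Model.low
  rw [← Finset.sum_filter]
  exact Finset.sum_le_sum_of_subset fun l hl => (Finset.mem_filter.1 hl).2

lemma cN_low (hG : St_GEO2) {j l : ℕ} (h1 : j + 2 ≤ l) (h2 : l ≤ j + 4)
    (hH : ¬M.High γ u i0 t R j ω) :
    cN (M.X γ u ω) R l ≤ ind (j < i0 + 3) * fblk (M.X γ u ω) R i0 + gN M γ u i0 t R ω l +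
      bN (M.X γ u ω) R l := by
  refine (cN_le hG _ R l).trans (add_le_add_left ?_ _)
  by_cases c1 : l ≤ R.length
  · rw [ind_pos c1, one_mul]
    by_cases c2 : l < i0 + 5
    · rw [ind_pos (show j < i0 + 3 by omega), one_mul]
      exact le_add_right (Finset.single_le_sum (f := fun l => annN (M.X γ u ω) R l)
        (fun _ _ => zero_le) (Finset.mem_range.2 c2))
    · have c3 : M.rad γ u R (l - 5) ω ≤ t := by
        by_contra h
        exact hH ⟨l - 5, by omega, by omega, by omega, by omega, not_le.1 h⟩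
      rw [gN, if_pos (Finset.mem_Icc.2 ⟨by omega, c1⟩), ind_pos c3, one_mul]
      exact le_add_self
  · rw [ind_neg c1, zero_mul]
    exact zero_le

lemma small_or {y : ℝ≥0∞} {ε n : ℝ} (hε : 0 < ε) (hn : 0 < n)
    (h : ¬ENNReal.ofReal (ε * n) ≤ y) : y / ENNReal.ofReal n ≤ ENNReal.ofReal ε := by
  rw [ENNReal.div_le_iff (by simpa using hn) ENNReal.ofReal_ne_top, ← ENNReal.ofReal_mul hε.le]
  exact (not_le.1 h).le

lemma pow_bound {y : ℝ≥0∞} {ε n q : ℝ} (hε : 0 < ε) (hn : 0 < n) (hq : 1 < q) :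
    y / ENNReal.ofReal n ≤ ENNReal.ofReal ε + ENNReal.ofReal (ε / (ε * n) ^ q) * y ^ q := by
  by_cases h : ENNReal.ofReal (ε * n) ≤ y
  · refine le_add_left ?_
    have hp : 0 < ε * n := mul_pos hε hn
    have h0 : ENNReal.ofReal (ε * n) ≠ 0 := by simpa using hp
    have h1 : 1 ≤ y / ENNReal.ofReal (ε * n) := by
      rw [ENNReal.le_div_iff_mul_le (Or.inl h0) (Or.inl ENNReal.ofReal_ne_top), one_mul]
      exact h
    have h2 := ENNReal.rpow_le_rpow_of_exponent_le h1 hq.le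
    rw [ENNReal.rpow_one, ENNReal.div_rpow_of_nonneg _ _ (by linarith),
      ENNReal.ofReal_rpow_of_pos hp] at h2
    have h3 : y / ENNReal.ofReal n = ENNReal.ofReal ε * (y / ENNReal.ofReal (ε * n)) := by
      rw [ENNReal.ofReal_mul hε.le, ← mul_div_assoc,
        ENNReal.mul_div_mul_left _ _ (by simpa using hε) ENNReal.ofReal_ne_top]
    rw [h3, ENNReal.ofReal_div_of_pos (Real.rpow_pos_of_pos hp q)]
    refine (mul_le_mul_right h2 _).trans (le_of_eq ?_)
    simp only [div_eq_mul_inv]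
    ring
  · exact le_add_right (small_or hε hn h)

lemma term_le (hT : St_T1) (hG : St_GEO2) {ε n : ℝ} (hε : 0 < ε) (hn : 0 < n) (j : ℕ) :
    ENNReal.ofReal (min 1 (cnt (M.X γ u ω) R j / n)) * ind (¬M.High γ u i0 t R j ω) ≤
      ind (j < i0 + 3) * (3 * ENNReal.ofReal ε +
        ind (ENNReal.ofReal (ε * n) ≤ fblk (M.X γ u ω) R i0)) +
      (gN M γ u i0 t R ω (j + 2) + gN M γ u i0 t R ω (j + 3) + gN M γ u i0 t R ω (j + 4) +
        (bN (M.X γ u ω) R (j + 2) + bN (M.X γ u ω) R (j + 3) + bN (M.X γ u ω) R (j + 4))) /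
        ENNReal.ofReal n := by
  by_cases hH : M.High γ u i0 t R j ω
  · rw [ind_neg (not_not.2 hH), mul_zero]
    exact zero_le
  rw [ind_pos hH, mul_one]
  by_cases c : j < i0 + 3 ∧ ENNReal.ofReal (ε * n) ≤ fblk (M.X γ u ω) R i0
  · rw [ind_pos c.1, ind_pos c.2, one_mul]
    refine le_add_right (le_add_left ?_)
    exact ENNReal.ofReal_le_one.2 (min_le_left _ _)
  have h1 : ind (j < i0 + 3) * fblk (M.X γ u ω) R i0 / ENNReal.ofReal n ≤
      ind (j < i0 + 3) * ENNReal.ofReal ε := by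
    by_cases c1 : j < i0 + 3
    · rw [ind_pos c1, one_mul, one_mul]
      exact small_or hε hn fun h => c ⟨c1, h⟩
    · simp [ind_neg c1]
  have h2 := (cnt_le hT (M.X γ u ω) R j).trans (add_le_add (add_le_add
    (cN_low M γ u i0 t R ω hG (l := j + 2) le_rfl (by omega) hH)
    (cN_low M γ u i0 t R ω hG (l := j + 3) (by omega) (by omega) hH))
    (cN_low M γ u i0 t R ω hG (l := j + 4) (by omega) le_rfl hH))
  refine (ENNReal.ofReal_le_ofReal (min_le_right _ _)).trans ?_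
  rw [ENNReal.ofReal_div_of_pos hn]
  refine (ENNReal.div_le_div_right h2 _).trans ?_
  simp only [div_eq_mul_inv] at h1 ⊢
  refine le_trans (le_of_eq ?_) (add_le_add_left (le_trans (mul_le_mul_right h1 3)
    (le_trans ?_ (mul_le_mul_right le_self_add _))) _)
  · ring
  · exact le_of_eq (by ring)

/-- the deterministic bound for one root -/
lemma root_le (hT : St_T1) (hG : St_GEO2) {ε n q : ℝ} (hε : 0 < ε) (hn : 0 < n) (hq : 1 < q)
    (K : ℕ) :
    ∑ j ∈ Finset.range (R.length + K + 2), ENNReal.ofReal (min 1 (cnt (M.X γ u ω) R j / n)) *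
      ind (¬M.High γ u i0 t R j ω) ≤
      ENNReal.ofReal ((3 * i0 + 15) * ε) +
      (i0 + 3) * ind (ENNReal.ofReal (ε * n) ≤ fblk (M.X γ u ω) R i0) +
      ENNReal.ofReal (3 * (ε / (ε * n) ^ q)) * M.low γ u i0 t R ω ^ q +
      (K + 2) * ((R.length + 1) * ind (ENNReal.ofReal (ε * n) ≤ NN (M.X γ u ω) R)) := by
  by_cases c : ENNReal.ofReal (ε * n) ≤ NN (M.X γ u ω) R
  · refine le_add_left ?_
    rw [ind_pos c, mul_one]
    refine (Finset.sum_le_card_nsmul _ _ 1 fun j _ => ?_).trans ?_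
    · exact mul_le_one' (ENNReal.ofReal_le_one.2 (min_le_left _ _)) (ind_le_one _)
    · rw [Finset.card_range, nsmul_one]
      exact_mod_cast (by nlinarith : R.length + K + 2 ≤ (K + 2) * (R.length + 1))
  refine le_add_right ?_
  refine (Finset.sum_le_sum fun j _ => term_le M γ u i0 t R ω hT hG hε hn j).trans ?_
  set s := Finset.range (R.length + K + 2)
  have h1 : ∑ j ∈ s, ind (j < i0 + 3) ≤ (i0 + 3 : ℝ≥0∞) := by
    have e : ∀ j, ind (j < i0 + 3) = if j < i0 + 3 then 1 else 0 := fun j => by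
      split_ifs with h
      exacts [ind_pos h, ind_neg h]
    simp only [e]
    rw [Finset.sum_boole]
    have : (s.filter fun j => j < i0 + 3).card ≤ i0 + 3 :=
      (Finset.card_le_card fun j hj => Finset.mem_range.2 (Finset.mem_filter.1 hj).2).trans
        (Finset.card_range _).le
    exact_mod_cast this
  have h2 := small_or hε hn c
  have h3 := pow_bound (y := M.low γ u i0 t R ω) hε hn hq
  simp only [div_eq_mul_inv] at h2 h3 ⊢
  rw [Finset.sum_add_distrib, ← Finset.sum_mul, ← Finset.sum_mul]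
  simp only [Finset.sum_add_distrib]
  have g := sum_gN M γ u i0 t R ω s
  have b := sum_bN hG (M.X γ u ω) R s
  refine (add_le_add (mul_le_mul_left h1 _) (mul_le_mul_left (add_le_add
    (add_le_add (add_le_add (g 2) (g 3)) (g 4)) (add_le_add (add_le_add (b 2) (b 3)) (b 4)))
    _)).trans ?_
  have e1 : ENNReal.ofReal ((3 * i0 + 15) * ε) = (3 * i0 + 15) * ENNReal.ofReal ε := by
    rw [ENNReal.ofReal_mul (by positivity)]
    congr 1
    exact_mod_cast ENNReal.ofReal_natCast (3 * i0 + 15)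
  rw [e1, ENNReal.ofReal_mul (p := 3) (by norm_num), ENNReal.ofReal_ofNat]
  calc _ = (i0 + 3 : ℝ≥0∞) * (3 * ENNReal.ofReal ε +
        ind (ENNReal.ofReal (ε * n) ≤ fblk (M.X γ u ω) R i0)) +
        (3 * (M.low γ u i0 t R ω * (ENNReal.ofReal n)⁻¹) +
          3 * (NN (M.X γ u ω) R * (ENNReal.ofReal n)⁻¹)) := by ring
    _ ≤ _ := add_le_add_right (add_le_add (mul_le_mul_right h3 3) (mul_le_mul_right h2 3)) _
    _ = _ := by ring

end ST2

end

end Pool.Agent.Lib.APPS
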