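import Pool.Agent.Lib.APPS.Blue2

/-!
Block ST3, deterministic part.
-/

namespace Pool.Agent.Lib.APPS.ST3

open MeasureTheory ProbabilityTheory Filter Topology Set Metric
open scoped NNReal ENNReal RealInnerProductSpace Classical

noncomputable section

theorem ind_pos {p : Prop} (h : p) : ind p = 1 := by simp [ind, h]
theorem ind_neg {p : Prop} (h : ¬p) : ind p = 0 := by simp [ind, h]
theorem ind_le_one (p : Prop) : ind p ≤ 1 := by
  by_cases h : p
  · rw [ind_pos h]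
  · rw [ind_neg h]; exact zero_le
theorem ind_mono {p q : Prop} (h : p → q) : ind p ≤ ind q := by
  by_cases hp : p
  · rw [ind_pos hp, ind_pos (h hp)]
  · rw [ind_neg hp]; exact zero_le
theorem ind_le {p : Prop} {a : ℝ≥0∞} (h : p → 1 ≤ a) : ind p ≤ a := by
  by_cases hp : p
  · rw [ind_pos hp]; exact h hp
  · rw [ind_neg hp]; exact zero_le
theorem ind_and (p q : Prop) : ind (p ∧ q) = ind p * ind q := by
  by_cases hp : p <;> by_cases hq : q <;> simp [ind, hp, hq]
theorem ind_or (p q : Prop) : ind (p ∨ q) ≤ ind p + ind q := by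
  by_cases hp : p <;> by_cases hq : q <;> simp [ind, hp, hq]

theorem intN_of_mem {x : Dy → ℝ} {A : Dy} (h : A ∈ tr x) : IntN x A := by
  unfold tr at h
  split_ifs at h with hf
  · simpa using h
  · simp at h

theorem dist_le (hG : St_GEO1) (A R : Dy) : ‖ctr A - ctr R‖ ≤ 16 := by
  have h : ∀ S : Dy, ‖ctr S - ctr []‖ ≤ 3 / 4 := by
    intro S
    have hc : ctr S ∈ box [] := (hG.2.2.2.2.1 S []).2 List.nil_suffix (hG.2.2.2.1 S).2.2.1
    have := (hG.2.2.2.1 []).2.2.2.1 _ hc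
    simpa [side] using this
  have e : ctr A - ctr R = (ctr A - ctr []) - (ctr R - ctr []) := by ring
  rw [e]
  have := norm_sub_le (ctr A - ctr []) (ctr R - ctr [])
  linarith [h A, h R]

theorem scale (d : ℝ) (μ : ℕ) (h16 : d ≤ 16) (h : 8 * (1 / 2 : ℝ) ^ μ < d) :
    ∃ l ≤ μ, 8 * (1 / 2 : ℝ) ^ l < d ∧ d ≤ 16 * (1 / 2 : ℝ) ^ l := by
  induction μ with
  | zero => exact ⟨0, le_rfl, h, by simpa using h16⟩
  | succ k ih =>
    by_cases hk : 8 * (1 / 2 : ℝ) ^ k < d
    · obtain ⟨l, hl, h1⟩ := ih hk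
      exact ⟨l, by omega, h1⟩
    · refine ⟨k + 1, le_rfl, h, ?_⟩
      rw [pow_succ]
      linarith

theorem card_le (hG : St_GEO1) (hG2 : St_GEO2) (x : Dy → ℝ) (R : Dy) (out : Dy → Prop)
    (P : ℕ → Prop)
    (hP : ∀ A l, out A → 8 * (1 / 2 : ℝ) ^ l < ‖ctr A - ctr R‖ →
      ‖ctr A - ctr R‖ ≤ 16 * (1 / 2 : ℝ) ^ l → P l) :
    ((((tr x).filter out).card : ℕ) : ℝ≥0∞) ≤
      NN x R + ∑ l ∈ Finset.range (R.length + 1), ind (P l) * annN x R l := by
  have h1 : ((((tr x).filter out).card : ℕ) : ℝ≥0∞) = ∑ A ∈ (tr x).filter out, 1 := by simp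
  rw [h1]
  calc ∑ A ∈ (tr x).filter out, (1 : ℝ≥0∞)
      ≤ ∑ A ∈ (tr x).filter out,
          (ind (IntN x A ∧ R.length ≤ A.length ∧ ‖ctr A - ctr R‖ ≤ 8 * side R) +
          ind (A.length ≤ R.length ∧ ‖ctr A - ctr R‖ ≤ 8 * side A) +
          ∑ l ∈ Finset.range (R.length + 1), ind (P l) * ind (IntN x A ∧ l ≤ A.length ∧
            8 * (1 / 2 : ℝ) ^ l < ‖ctr A - ctr R‖ ∧ ‖ctr A - ctr R‖ ≤ 16 * (1 / 2 : ℝ) ^ l)) := by
        refine Finset.sum_le_sum fun A hA => ?_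
        rw [Finset.mem_filter] at hA
        have hI := intN_of_mem hA.1
        by_cases c1 : R.length ≤ A.length ∧ ‖ctr A - ctr R‖ ≤ 8 * side R
        · rw [ind_pos (⟨hI, c1⟩ : IntN x A ∧ _), add_assoc]; exact le_self_add
        by_cases c2 : A.length ≤ R.length ∧ ‖ctr A - ctr R‖ ≤ 8 * side A
        · rw [ind_pos c2, add_right_comm]; exact le_add_self
        have h8 : 8 * (1 / 2 : ℝ) ^ (min A.length R.length) < ‖ctr A - ctr R‖ := by
          rcases le_total A.length R.length with h | h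
          · rw [min_eq_left h]
            exact not_le.1 fun h' => c2 ⟨h, h'⟩
          · rw [min_eq_right h]
            exact not_le.1 fun h' => c1 ⟨h, h'⟩
        obtain ⟨l, hl, h2, h3⟩ := scale _ _ (dist_le hG A R) h8
        refine le_trans ?_ le_add_self
        refine le_trans ?_ (Finset.single_le_sum (fun _ _ => zero_le)
          (Finset.mem_range.2 (show l < R.length + 1 by omega)))
        rw [ind_pos (hP A l hA.2 h2 h3),
          ind_pos (⟨hI, by omega, h2, h3⟩ : IntN x A ∧ l ≤ A.length ∧ _), one_mul]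
    _ ≤ ∑' A : Dy,
          (ind (IntN x A ∧ R.length ≤ A.length ∧ ‖ctr A - ctr R‖ ≤ 8 * side R) +
          ind (A.length ≤ R.length ∧ ‖ctr A - ctr R‖ ≤ 8 * side A) +
          ∑ l ∈ Finset.range (R.length + 1), ind (P l) * ind (IntN x A ∧ l ≤ A.length ∧
            8 * (1 / 2 : ℝ) ^ l < ‖ctr A - ctr R‖ ∧ ‖ctr A - ctr R‖ ≤ 16 * (1 / 2 : ℝ) ^ l)) :=
        ENNReal.sum_le_tsum _
    _ ≤ _ := by
        rw [ENNReal.tsum_add, ENNReal.tsum_add,
          Summable.tsum_finsetSum fun _ _ => ENNReal.summable]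
        refine add_le_add (add_le_add (hG2.2.2.1 x R) (hG2.2.2.2.1 R)) ?_
        refine Finset.sum_le_sum fun l hl => ?_
        rw [ENNReal.tsum_mul_left]
        exact mul_le_mul_right (hG2.2.1 x R l (by have := Finset.mem_range.1 hl; omega)) _

/-- abstract version of `Model.low` -/
def lowA (x : Dy → ℝ) (R : Dy) (rad : ℕ → ℝ) (i0 : ℕ) (t : ℝ) : ℝ≥0∞ :=
  ∑ l ∈ Finset.Icc (i0 + 5) R.length, ind (rad (l - 5) ≤ t) * annN x R l

theorem half_lt {a b : ℕ} (h : (1 / 2 : ℝ) ^ a < (1 / 2 : ℝ) ^ b) : b < a :=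
  (pow_lt_pow_iff_right_of_lt_one₀ (by norm_num) (by norm_num)).1 h

theorem out_le (hG : St_GEO1) (hG2 : St_GEO2) (x : Dy → ℝ) (R : Dy) (rad : ℕ → ℝ)
    (i0 j h D : ℕ) (t : ℝ) (h1 : j ≤ h + 3) (h2 : h + 1 ≤ j)
    (hfar : ∀ h' ∈ Finset.Icc i0 (R.length - 2), (h + D ≤ h' ∨ h' + D ≤ h) → rad h' ≤ t)
    (K : ℕ) (hK : D + 1 ≤ K) :
    ENNReal.ofReal (outN x R j K) ≤ NN x R + fblk x R i0 + lowA x R rad i0 t := by
  unfold outN
  rw [ENNReal.ofReal_natCast]
  have := card_le hG hG2 x R (fun A => ¬((1 / 2 : ℝ) ^ (j + K) ≤ ‖ctr A - ctr R‖ ∧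
    ‖ctr A - ctr R‖ ≤ 2 ^ K * (1 / 2 : ℝ) ^ j))
    (fun l => j + K + 3 < l ∨ l + K < j + 4) (by
      intro A l hA h3 h4
      rw [not_and_or, not_le, not_le] at hA
      rcases hA with hA | hA
      · left
        apply half_lt
        have e : (1 / 2 : ℝ) ^ (j + K + 3) = (1 / 2 : ℝ) ^ (j + K) / 8 := by
          rw [pow_add (1 / 2 : ℝ) (j + K)]; ring
        rw [e]; linarith
      · right
        apply half_lt
        have e : (1 / 2 : ℝ) ^ (j + 4) = (1 / 2 : ℝ) ^ j / 16 := by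
          rw [pow_add]; ring
        have e2 : (2 : ℝ) ^ K * (1 / 2 : ℝ) ^ K = 1 := by
          rw [← mul_pow]; norm_num
        have hp : (0 : ℝ) < (1 / 2 : ℝ) ^ K := by positivity
        have h5 : 2 ^ K * (1 / 2 : ℝ) ^ j < 16 * (1 / 2 : ℝ) ^ l := lt_of_lt_of_le hA h4
        have h6 := mul_lt_mul_of_pos_right h5 hp
        rw [mul_right_comm, e2, one_mul] at h6
        rw [e, pow_add]
        linarith)
  refine le_trans (le_of_eq ?_) (this.trans ?_)
  · congr
  rw [add_assoc (NN x R)]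
  refine add_le_add le_rfl ?_
  calc ∑ l ∈ Finset.range (R.length + 1), ind (j + K + 3 < l ∨ l + K < j + 4) * annN x R l
      ≤ ∑ l ∈ Finset.range (i0 + 5) ∪ Finset.Icc (i0 + 5) R.length,
          ind (j + K + 3 < l ∨ l + K < j + 4) * annN x R l := by
        refine Finset.sum_le_sum_of_subset fun l hl => ?_
        simp only [Finset.mem_union, Finset.mem_range, Finset.mem_Icc] at hl ⊢
        omega
    _ ≤ _ := by
        rw [Finset.sum_union (by
          rw [Finset.disjoint_left]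
          intro l hl hl'
          simp only [Finset.mem_range, Finset.mem_Icc] at hl hl'
          omega)]
        refine add_le_add (Finset.sum_le_sum fun l _ => ?_) (Finset.sum_le_sum fun l hl => ?_)
        · exact mul_le_of_le_one_left' (ind_le_one _)
        · refine mul_le_mul_left (ind_mono fun hh => hfar _ ?_ ?_) _
          · simp only [Finset.mem_Icc] at hl ⊢
            omega
          · simp only [Finset.mem_Icc] at hl
            omega

/-- number of ordered pairs of high radii at distance at least `D` -/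
def pp (I : Finset ℕ) (rad : ℕ → ℝ) (D : ℕ) (t : ℝ) : ℝ≥0∞ :=
  ∑ h ∈ I, ∑ h' ∈ I, ind (h + D ≤ h' ∧ t < rad h ∧ t < rad h')

theorem pp_sym (I : Finset ℕ) (rad : ℕ → ℝ) (D : ℕ) (t : ℝ) :
    ∑ h ∈ I, ∑ h' ∈ I, ind ((h + D ≤ h' ∨ h' + D ≤ h) ∧ t < rad h ∧ t < rad h') ≤
      2 * pp I rad D t := by
  rw [two_mul]
  nth_rewrite 2 [pp]
  rw [Finset.sum_comm (f := fun h h' => ind (h + D ≤ h' ∧ t < rad h ∧ t < rad h')), pp,
    ← Finset.sum_add_distrib]
  refine Finset.sum_le_sum fun h _ => ?_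
  rw [← Finset.sum_add_distrib]
  refine Finset.sum_le_sum fun h' _ => le_trans (ind_mono ?_) (ind_or _ _)
  tauto

theorem three (S : Finset ℕ) (h : ℕ) : ∑ j ∈ S, ind (j ≤ h + 3 ∧ h + 1 ≤ j) ≤ 3 := by
  calc ∑ j ∈ S, ind (j ≤ h + 3 ∧ h + 1 ≤ j)
      = ∑ j ∈ S.filter (fun j => j ≤ h + 3 ∧ h + 1 ≤ j), 1 := by
        rw [Finset.sum_filter]
        refine Finset.sum_congr rfl fun j _ => ?_
        by_cases c : j ≤ h + 3 ∧ h + 1 ≤ j
        · rw [ind_pos c, if_pos c]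
        · rw [ind_neg c, if_neg c]
    _ ≤ ∑ j ∈ Finset.Icc (h + 1) (h + 3), 1 := by
        refine Finset.sum_le_sum_of_subset fun j hj => ?_
        simp only [Finset.mem_filter, Finset.mem_Icc] at hj ⊢
        omega
    _ = 3 := by
        simp [show h + 3 + 1 - (h + 1) = 3 by omega]

theorem det (hG : St_GEO1) (hG2 : St_GEO2) (x : Dy → ℝ) (R : Dy) (rad : ℕ → ℝ)
    (i0 D K : ℕ) (t t' a ε : ℝ) (ht : t' ≤ t) (hε : 0 < ε) (hK : D + 1 ≤ K) (S : Finset ℕ) :
    ∑ j ∈ S, ind ((∃ h : ℕ, i0 ≤ h ∧ h + 5 ≤ R.length ∧ j ≤ h + 3 ∧ h + 1 ≤ j ∧ t < rad h) ∧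
        a < outN x R j K) ≤
      ind (i0 + 4 ≤ R.length) * (ENNReal.ofReal (3 / ε) *
        ind (ENNReal.ofReal a ≤ NN x R + fblk x R i0 + lowA x R rad i0 t') +
        ENNReal.ofReal (6 * ε) * pp (Finset.Icc i0 (R.length - 2)) rad 0 t +
        6 * pp (Finset.Icc i0 (R.length - 2)) rad D t') := by
  by_cases h4 : i0 + 4 ≤ R.length
  swap
  · refine le_of_eq_of_le (Finset.sum_eq_zero fun j _ => ind_neg ?_) zero_le
    rintro ⟨⟨h, h1, h2, -⟩, -⟩
    omega
  rw [ind_pos h4, one_mul]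
  set I := Finset.Icc i0 (R.length - 2) with hI
  set B := ind (ENNReal.ofReal a ≤ NN x R + fblk x R i0 + lowA x R rad i0 t') with hB
  set N := ∑ h ∈ I, ind (t < rad h) with hN
  have hN2 : N * N ≤ 2 * pp I rad 0 t := by
    refine le_trans ?_ (pp_sym I rad 0 t)
    rw [hN, Finset.sum_mul_sum]
    refine Finset.sum_le_sum fun h _ => Finset.sum_le_sum fun h' _ => ?_
    rw [← ind_and]
    exact ind_mono fun hh => ⟨by omega, hh⟩
  have hNB : N * B ≤ ENNReal.ofReal (1 / ε) * B + ENNReal.ofReal ε * (N * N) := by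
    rcases le_total N (ENNReal.ofReal (1 / ε)) with c | c
    · exact le_trans (mul_le_mul_left c _) le_self_add
    · refine le_trans ?_ le_add_self
      calc N * B ≤ N * 1 := mul_le_mul_right (ind_le_one _) _
        _ = ENNReal.ofReal ε * (ENNReal.ofReal (1 / ε) * N) := by
          rw [← mul_assoc, ← ENNReal.ofReal_mul hε.le, mul_one_div_cancel hε.ne']
          simp
        _ ≤ _ := mul_le_mul_right (mul_le_mul_left c _) _
  calc ∑ j ∈ S, ind ((∃ h : ℕ, i0 ≤ h ∧ h + 5 ≤ R.length ∧ j ≤ h + 3 ∧ h + 1 ≤ j ∧ t < rad h) ∧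
        a < outN x R j K)
      ≤ ∑ j ∈ S, ∑ h ∈ I, ind (j ≤ h + 3 ∧ h + 1 ≤ j) * (ind (t < rad h) * B +
          ∑ h' ∈ I, ind ((h + D ≤ h' ∨ h' + D ≤ h) ∧ t' < rad h ∧ t' < rad h')) := by
        refine Finset.sum_le_sum fun j _ => ind_le ?_
        rintro ⟨⟨h, h1, h2, h3, h5, h6⟩, h7⟩
        have hh : h ∈ I := by simp only [hI, Finset.mem_Icc]; omega
        refine le_trans ?_ (Finset.single_le_sum (fun _ _ => zero_le) hh)
        rw [ind_pos (⟨h3, h5⟩ : j ≤ h + 3 ∧ h + 1 ≤ j), ind_pos h6, one_mul, one_mul]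
        by_cases c : ∀ h' ∈ I, (h + D ≤ h' ∨ h' + D ≤ h) → rad h' ≤ t'
        · have := out_le hG hG2 x R rad i0 j h D t' h3 h5 c K hK
          rw [hB, ind_pos ((ENNReal.ofReal_le_ofReal h7.le).trans this)]
          exact le_self_add
        · push Not at c
          obtain ⟨h', m1, m2, m3⟩ := c
          refine le_trans ?_ le_add_self
          refine le_trans ?_ (Finset.single_le_sum (fun _ _ => zero_le) m1)
          rw [ind_pos (⟨m2, lt_of_le_of_lt ht h6, m3⟩ : _ ∧ _ ∧ _)]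
    _ ≤ ∑ h ∈ I, 3 * (ind (t < rad h) * B +
          ∑ h' ∈ I, ind ((h + D ≤ h' ∨ h' + D ≤ h) ∧ t' < rad h ∧ t' < rad h')) := by
        rw [Finset.sum_comm]
        refine Finset.sum_le_sum fun h _ => ?_
        rw [← Finset.sum_mul]
        exact mul_le_mul_left (three S h) _
    _ = 3 * (N * B + ∑ h ∈ I,
          ∑ h' ∈ I, ind ((h + D ≤ h' ∨ h' + D ≤ h) ∧ t' < rad h ∧ t' < rad h')) := by
        rw [← Finset.mul_sum, Finset.sum_add_distrib, ← Finset.sum_mul]
    _ ≤ 3 * (ENNReal.ofReal (1 / ε) * B + ENNReal.ofReal ε * (2 * pp I rad 0 t) +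
          2 * pp I rad D t') :=
        mul_le_mul_right (add_le_add (hNB.trans (add_le_add_right (mul_le_mul_right hN2 _) _))
          (pp_sym I rad D t')) _
    _ = _ := by
        have e1 : ENNReal.ofReal (3 / ε) = 3 * ENNReal.ofReal (1 / ε) := by
          rw [show 3 / ε = 3 * (1 / ε) by ring, ENNReal.ofReal_mul (by norm_num)]
          simp
        have e2 : ENNReal.ofReal (6 * ε) = 6 * ENNReal.ofReal ε := by
          rw [ENNReal.ofReal_mul (by norm_num)]
          simp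
        rw [e1, e2]
        ring

theorem split3 (a q : ℝ) (ha : 0 < a) (hq : 0 < q) (X Y Z : ℝ≥0∞) :
    ind (ENNReal.ofReal (3 * a) ≤ X + Y + Z) ≤ ind (ENNReal.ofReal a ≤ X) +
      ind (ENNReal.ofReal a ≤ Y) + ENNReal.ofReal (a ^ (-q)) * Z ^ q := by
  refine ind_le fun h => ?_
  by_cases c1 : ENNReal.ofReal a ≤ X
  · rw [ind_pos c1, add_assoc]; exact le_self_add
  by_cases c2 : ENNReal.ofReal a ≤ Y
  · rw [ind_pos c2, add_right_comm]; exact le_add_self
  have c3 : ENNReal.ofReal a ≤ Z := by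
    by_contra c3
    have := ENNReal.add_lt_add (ENNReal.add_lt_add (not_le.1 c1) (not_le.1 c2)) (not_le.1 c3)
    rw [← ENNReal.ofReal_add ha.le ha.le, ← ENNReal.ofReal_add (by linarith) ha.le,
      show a + a + a = 3 * a by ring] at this
    exact absurd h (not_le.2 this)
  refine le_trans ?_ le_add_self
  calc (1 : ℝ≥0∞) = ENNReal.ofReal (a ^ (-q)) * ENNReal.ofReal a ^ q := by
        rw [ENNReal.ofReal_rpow_of_pos ha, ← ENNReal.ofReal_mul (by positivity),
          ← Real.rpow_add ha]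
        simp
    _ ≤ _ := mul_le_mul_right (ENNReal.rpow_le_rpow c3 hq.le) _

end

end Pool.Agent.Lib.APPS.ST3
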