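import Pool.Agent.Lib.APPS.Blue2
import Pool.Agent.Lib.APPS.B_RW2a

/-!
Block ST4, first file: covering engine, walk bounds, geometry of two nearby circles.
-/

namespace Pool.Agent.Lib.APPS

open MeasureTheory ProbabilityTheory Filter Topology Set Metric
open scoped NNReal ENNReal RealInnerProductSpace Classical

noncomputable section

namespace ST4

open RW2

def tw (j j' : ℕ) (S S' : Set ℝ) (k : ℕ) (w : ℕ → ℝ) : ℝ≥0∞ :=
  ind (j ≤ k ∧ j' ≤ k ∧ w j ∈ S ∧ w j' ∈ S')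

theorem ind_mono {p r : Prop} (h : p → r) : ind p ≤ ind r := by
  by_cases hp : p
  · rw [ind_pos hp, ind_pos (h hp)]
  · rw [ind_neg hp]; exact zero_le

theorem tw_meas (j j' : ℕ) {S S' : Set ℝ} (hS : MeasurableSet S) (hS' : MeasurableSet S')
    (k : ℕ) : Measurable (tw j j' S S' k) :=
  meas_ind ((MeasurableSet.const _).inter ((MeasurableSet.const _).inter
    ((measurable_pi_apply j hS).inter (measurable_pi_apply j' hS'))))

theorem tw_dep (j j' : ℕ) {S S' : Set ℝ} (hS : MeasurableSet S) (hS' : MeasurableSet S') :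
    DepLe (tw j j' S S') := by
  refine ⟨tw_meas j j' hS hS', fun k w w' h => ?_⟩
  unfold tw
  congr 1
  refine propext ⟨fun ⟨h1, h2, h3, h4⟩ => ⟨h1, h2, h j h1 ▸ h3, h j' h2 ▸ h4⟩,
    fun ⟨h1, h2, h3, h4⟩ => ⟨h1, h2, (h j h1).symm ▸ h3, (h j' h2).symm ▸ h4⟩⟩

/-- two-point functional of the walk -/
def W (a κ : ℝ) (b : ℕ → HH) (u : ℝ) (j j' : ℕ) (S S' : Set ℝ) : ℝ≥0∞ :=
  ∑' k : ℕ, ∫⁻ ω, eE (-κ * |wk a b u ω k|) * tw j j' S S' k (wk a b u ω) ∂gm

def DB (M : Model) (i0 : ℕ) (B : ℝ) (d : Dy → HH) : Prop :=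
  ∀ R, i0 + 4 ≤ R.length → ‖d R‖ ≤ B ∧ ∀ i, i0 ≤ i → i + 2 ≤ R.length →
    |⟪d R, M.eC (ctr R) ((1 / 2 : ℝ) ^ i)⟫| ≤ B

def Fat (B : ℝ) (S T : Set ℝ) : Prop :=
  MeasurableSet S ∧ MeasurableSet T ∧ ∀ x s, |s| ≤ B → x + s ∈ S → x ∈ T

theorem fat_univ (B : ℝ) : Fat B univ univ := ⟨.univ, .univ, fun _ _ _ _ => trivial⟩

theorem fat_Ioi {B t t' : ℝ} (h : t' + B ≤ t) : Fat B (Ioi t) (Ioi t') :=
  ⟨measurableSet_Ioi, measurableSet_Ioi, fun x s h1 h2 => by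
    have := (abs_le.1 h1).2
    simp only [mem_Ioi] at h2 ⊢
    linarith⟩

theorem fat_Iio {B t t' : ℝ} (h : t + B ≤ t') : Fat B (Iio t) (Iio t') :=
  ⟨measurableSet_Iio, measurableSet_Iio, fun x s h1 h2 => by
    have := (abs_le.1 h1).1
    simp only [mem_Iio] at h2 ⊢
    linarith⟩

theorem db_zero (M : Model) (i0 : ℕ) {B : ℝ} (hB : 0 ≤ B) : DB M i0 B fun _ => 0 :=
  fun _ _ => ⟨by simpa using hB, fun _ _ _ => by simpa using hB⟩

theorem DB.smul {M : Model} {i0 : ℕ} {B B' : ℝ} {d : Dy → HH} (h : DB M i0 B d) (c : ℝ)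
    (hB : |c| * B ≤ B') : DB M i0 B' fun R => c • d R := by
  intro R hR
  refine ⟨?_, fun i h1 h2 => ?_⟩
  · rw [norm_smul, Real.norm_eq_abs]
    exact (mul_le_mul_of_nonneg_left (h R hR).1 (abs_nonneg c)).trans hB
  · rw [real_inner_smul_left, abs_mul]
    exact (mul_le_mul_of_nonneg_left ((h R hR).2 i h1 h2) (abs_nonneg c)).trans hB

theorem engine (hT3 : St_T3) (hTLD : St_TLD) {γ : ℝ} (hγ : γ ∈ Ioo (0 : ℝ) 2) (M : Model)
    (i0 : ℕ) (hM : M.Ok i0) {b : ℕ → HH} (hb : IsWk b (M.C0 + i0 * l2)) (B : ℝ) :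
    ∃ K : ℝ≥0∞, K ≠ ∞ ∧ ∀ (u : ℝ) (α β : Type) [Countable β] (c : α → β → ℝ≥0∞)
      (d : α → β → Dy → HH) (j j' : α → β → ℕ) (S S' T T' : α → β → Set ℝ)
      (A : Dy → α → Set Om),
      (∀ x y, DB M i0 B (d x y) ∧ Fat B (S x y) (T x y) ∧ Fat B (S' x y) (T' x y)) →
      (∀ R x, i0 + 4 ≤ R.length → ∀ ω ∈ A R x, 0 < M.X γ u ω R ∧ ∃ y,
        1 ≤ c x y * eE (ω (d x y R)) ∧ j x y + (i0 + 2) ≤ R.length ∧
        j' x y + (i0 + 2) ≤ R.length ∧ M.rad γ u R (i0 + j x y) ω ∈ S x y ∧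
        M.rad γ u R (i0 + j' x y) ω ∈ S' x y) →
      ∑' R : Dy, ind (i0 + 4 ≤ R.length) * ∑' x, gm (A R x) ≤
        K * eE (γ * u) * ∑' x, ∑' y, c x y *
          W (aa γ) γ b (u + γ * M.C0 - aa γ * i0 * l2) (j x y) (j' x y) (T x y) (T' x y) := by
  obtain ⟨K, hK⟩ := hTLD γ hγ γ B M.C0 hγ.1 le_rfl
  refine ⟨ENNReal.ofReal K, ENNReal.ofReal_ne_top, ?_⟩
  intro u α β _ c d j j' S S' T T' A h1 h2
  obtain ⟨-, -, -, -, -, -, -, -, -, -, hX, -⟩ := hT3
  set F : α → β → Dy → Om → ℝ≥0∞ := fun x y R ω => ind (0 < M.X γ u ω R) * eE (ω (d x y R)) *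
    tw (j x y) (j' x y) (S x y) (S' x y) (R.length - (i0 + 2)) (M.rw γ u i0 R ω) with hF
  have mF : ∀ x y R, Measurable (F x y R) := fun x y R =>
    ((meas_ind (measurableSet_lt measurable_const
      ((measurable_pi_apply R).comp (hX M γ u).1))).mul (meas_eE.comp (meas_ev _))).mul
      ((tw_meas _ _ (h1 x y).2.1.1 (h1 x y).2.2.1 _).comp
        (measurable_pi_lambda _ fun i => (hX M γ u).2 _ _))
  have e1 : ∀ R x, i0 + 4 ≤ R.length → gm (A R x) ≤ ∑' y, c x y * ∫⁻ ω, F x y R ω ∂gm := by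
    intro R x hR
    have m1 : ∀ y, Measurable fun ω => c x y * F x y R ω := fun y => (mF x y R).const_mul _
    calc gm (A R x) ≤ ∫⁻ ω, ∑' y, c x y * F x y R ω ∂gm := by
          refine meas_le_lintegral₀ (Measurable.tsum m1).aemeasurable fun ω hω => ?_
          obtain ⟨a1, y, a2, a3, a4, a5, a6⟩ := h2 R x hR ω hω
          refine le_trans ?_ (ENNReal.le_tsum y)
          simp only [hF]
          rw [ind_pos a1, one_mul, tw, ind_pos ⟨by omega, by omega, a5, a6⟩, mul_one]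
          exact a2
      _ = ∑' y, c x y * ∫⁻ ω, F x y R ω ∂gm := by
          rw [lintegral_tsum fun y => (m1 y).aemeasurable]
          exact tsum_congr fun y => lintegral_const_mul _ (mF x y R)
  calc ∑' R : Dy, ind (i0 + 4 ≤ R.length) * ∑' x, gm (A R x)
      ≤ ∑' R : Dy, ∑' x, ∑' y, c x y * (ind (i0 + 4 ≤ R.length) * ∫⁻ ω, F x y R ω ∂gm) := by
        refine ENNReal.tsum_le_tsum fun R => ?_
        by_cases hR : i0 + 4 ≤ R.length
        · simp only [ind_pos hR, one_mul]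
          exact ENNReal.tsum_le_tsum fun x => e1 R x hR
        · rw [ind_neg hR, zero_mul]; exact zero_le
    _ = ∑' x, ∑' y, c x y * ∑' R : Dy, ind (i0 + 4 ≤ R.length) * ∫⁻ ω, F x y R ω ∂gm := by
        rw [ENNReal.tsum_comm]
        refine tsum_congr fun x => ?_
        rw [ENNReal.tsum_comm]
        exact tsum_congr fun y => ENNReal.tsum_mul_left
    _ ≤ _ := by
        rw [← ENNReal.tsum_mul_left]
        refine ENNReal.tsum_le_tsum fun x => ?_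
        rw [← ENNReal.tsum_mul_left]
        refine ENNReal.tsum_le_tsum fun y => ?_
        rw [mul_left_comm]
        refine mul_le_mul' le_rfl ?_
        obtain ⟨a1, a2, a3⟩ := h1 x y
        have := hK M i0 u (d x y) (tw (j x y) (j' x y) (S x y) (S' x y))
          (tw (j x y) (j' x y) (T x y) (T' x y)) b hM le_rfl hb (tw_dep _ _ a2.1 a3.1)
          (tw_meas _ _ a2.2.1 a3.2.1) a1 (fun k w s hs => ind_mono fun h =>
            ⟨h.1, h.2.1, a2.2.2 _ _ (hs _) h.2.2.1, a3.2.2 _ _ (hs _) h.2.2.2⟩)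
        rwa [ENNReal.ofReal_mul' (Real.exp_pos _).le] at this

theorem rng (k : ℕ) (f g : ℕ → ℝ≥0∞) (h0 : ∀ i, k < i → f i = 0) (h : ∀ i, f i ≤ g i) :
    ∑' i, f i ≤ ∑ i ∈ Finset.range (k + 1), g i := by
  rw [tsum_eq_sum (s := Finset.range (k + 1)) fun i hi => h0 i (by simpa using hi)]
  exact Finset.sum_le_sum fun i _ => h i

theorem lz {f : Om → ℝ≥0∞} {p : Om → Prop} (h : ∀ ω, ¬p ω) :
    ∫⁻ ω, f ω * ind (p ω) ∂gm = 0 := by
  simp only [fun ω => ind_neg (h ω), mul_zero, lintegral_zero]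

theorem lm {f : Om → ℝ≥0∞} {p q : Om → Prop} (h : ∀ ω, p ω → q ω) :
    ∫⁻ ω, f ω * ind (p ω) ∂gm ≤ ∫⁻ ω, f ω * ind (q ω) ∂gm :=
  lintegral_mono fun ω => mul_le_mul' le_rfl (ind_mono (h ω))

theorem walk (hRW : St_RW2) {a κ : ℝ} (ha : 0 < a) (hκ : 0 < κ) :
    ∃ c > 0, ∃ C : ℝ≥0∞, C ≠ ∞ ∧ ∃ C' : ℝ, 0 ≤ C' ∧ ∀ (b : ℕ → HH) (s u : ℝ), 1 ≤ s → IsWk b s →
      W a κ b u 0 0 univ univ ≤ C ∧
      (∀ (t : ℝ) (e : ℕ), ∑' j, W a κ b u j (j + e) univ (Ioi t) ≤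
        C * eE (-(2 * a) * (t - u - a * s))) ∧
      (∀ (t : ℝ) (D : ℕ), ∑' x : ℕ × ℕ, ind (x.1 + D ≤ x.2) * W a κ b u x.1 x.2 (Ioi t) (Ioi t) ≤
        C * eE (-(2 * a) * (t - u - a * s) - c * D)) ∧
      (∀ (t K' : ℝ) (e : ℕ), ∑' j, W a κ b u j (j + e) (Iio (t - K')) (Ioi t) ≤
        C * eE (-(2 * a) * (t - u - a * s) + C' * e - a * K')) := by
  obtain ⟨-, c, hc, C, h⟩ := hRW a ha κ hκ
  refine ⟨c, hc, ENNReal.ofReal C, ENNReal.ofReal_ne_top, |C|, abs_nonneg C, ?_⟩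
  intro b s u hs hb
  refine ⟨?_, fun t e => ?_, fun t D => ?_, fun t K' e => ?_⟩
  · refine le_trans (ENNReal.tsum_le_tsum fun k => lintegral_mono fun ω => ?_) (h b s u 0 hs hb).1
    exact (mul_le_mul' le_rfl (ind_le _)).trans (mul_one _).le
  · have h3 := (h b s u t hs hb).2.2.1
    rw [ENNReal.ofReal_mul' (Real.exp_pos _).le] at h3
    refine le_trans ?_ h3
    unfold W
    rw [ENNReal.tsum_comm]
    refine ENNReal.tsum_le_tsum fun k => ?_
    refine le_trans ?_ (rng k (fun i => ∫⁻ ω, eE (-κ * |wk a b u ω k|) *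
      ind (i ≤ k ∧ t < wk a b u ω i) ∂gm) _ (fun i hi => lz fun ω h => by omega)
      fun i => lm fun ω h => h.2)
    refine le_trans (ENNReal.tsum_le_tsum fun j => ?_)
      (ENNReal.tsum_comp_le_tsum_of_injective (add_left_injective e) _)
    exact lm fun ω h => ⟨h.2.1, h.2.2.2⟩
  · have h3 := (h b s u t hs hb).2.2.2.1 D
    rw [ENNReal.ofReal_mul' (Real.exp_pos _).le] at h3
    refine le_trans ?_ h3
    unfold W
    simp only [← ENNReal.tsum_mul_left]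
    rw [ENNReal.tsum_comm]
    refine ENNReal.tsum_le_tsum fun k => ?_
    rw [ENNReal.tsum_prod', ENNReal.tsum_comm]
    refine rng k _ _ (fun i' hi => ?_) fun i' => rng k _ _ (fun i hi => ?_) fun i => ?_
    · refine ENNReal.tsum_eq_zero.2 fun i => ?_
      unfold tw
      rw [lz fun ω h => by omega, mul_zero]
    · unfold tw
      rw [lz fun ω h => by omega, mul_zero]
    · by_cases hD : i + D ≤ i'
      · simp only [ind_pos hD, one_mul]
        exact lm fun ω h => ⟨hD, h.2.2.1, h.2.2.2⟩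
      · simp only [ind_neg hD, zero_mul]
        exact zero_le
  · have h3 := (h b s u t hs hb).2.2.2.2 e K'
    rw [ENNReal.ofReal_mul' (Real.exp_pos _).le] at h3
    refine le_trans ?_ (h3.trans (mul_le_mul' le_rfl (eE_mono ?_)))
    · unfold W
      rw [ENNReal.tsum_comm]
      refine ENNReal.tsum_le_tsum fun k => rng k _ _ (fun i hi => ?_) fun i => ?_
      · exact lz fun ω h => by omega
      · exact lm fun ω h => ⟨h.2.1, h.2.2.1, h.2.2.2⟩
    · have := mul_le_mul_of_nonneg_right (le_abs_self C) (Nat.cast_nonneg (α := ℝ) e)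
      linarith

theorem icc1 (m n : ℕ) (f g : ℕ → ℝ≥0∞) (h : ∀ j, m + j ≤ n → f (m + j) ≤ g j) :
    ∑ l ∈ Finset.Icc m n, f l ≤ ∑' j, g j := by
  rw [← Finset.Ico_add_one_right_eq_Icc, Finset.sum_Ico_eq_sum_range]
  refine le_trans (Finset.sum_le_sum fun j hj => h j ?_) (ENNReal.sum_le_tsum _)
  have := Finset.mem_range.1 hj
  omega

theorem icc2 (m n : ℕ) (f : ℕ → ℕ → ℝ≥0∞) (g : ℕ × ℕ → ℝ≥0∞)
    (h : ∀ j j', m + j ≤ n → m + j' ≤ n → f (m + j) (m + j') ≤ g (j, j')) :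
    ∑ l ∈ Finset.Icc m n, ∑ l' ∈ Finset.Icc m n, f l l' ≤ ∑' x, g x := by
  rw [ENNReal.tsum_prod']
  exact icc1 m n _ _ fun j hj => icc1 m n _ _ fun j' hj' => h j j' hj hj'

theorem fin {K C : ℝ≥0∞} (hK : K ≠ ∞) (hC : C ≠ ∞) {x y z w : ℝ} (h : x + y ≤ z + w) :
    K * eE x * (C * eE y) ≤ ENNReal.ofReal ((K * C * eE z).toReal * Real.exp w) := by
  refine le_trans ?_ (conv (ENNReal.mul_ne_top (ENNReal.mul_ne_top hK hC) (eE_ne z)) le_rfl le_rfl)
  rw [mul_mul_mul_comm, mul_assoc (K * C), ← eE_add, ← eE_add]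
  exact mul_le_mul' le_rfl (eE_mono h)

/-! ### Geometry -/

theorem log_three : Real.log 3 ≤ 2 := by
  have := Real.log_le_sub_one_of_pos (show (0 : ℝ) < 3 by norm_num)
  linarith

theorem ie_bd (hMOD : St_MOD) (M : Model) {μ : Measure ℂ} (hμ : PFE μ) {c : ℂ} {r ρ : ℝ}
    (hr : 0 < r) (hρ : 0 < ρ) (h : ∀ᵐ y ∂μ, r / 3 ≤ ‖y - c‖ ∧ ‖y - c‖ ≤ r) :
    |Ie (circ c ρ) μ + Real.log (max r ρ)| ≤ 2 := by
  have := hμ.2
  obtain ⟨-, -, -, -, -, -, -, h8, -⟩ := hMOD M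
  have hb : ∀ᵐ y ∂μ, ‖Real.log (max r ρ) - Real.log (max ‖y - c‖ ρ)‖ ≤ 2 := by
    filter_upwards [h] with y hy
    have p1 : 0 < max ‖y - c‖ ρ := lt_max_of_lt_right hρ
    have p2 : max ‖y - c‖ ρ ≤ max r ρ := max_le_max_right _ hy.2
    have p3 : max r ρ ≤ 3 * max ‖y - c‖ ρ := max_le
      (by linarith [le_max_left ‖y - c‖ ρ, hy.1]) (by linarith [le_max_right ‖y - c‖ ρ])
    have p4 := Real.log_le_log p1 p2
    have p5 := Real.log_le_log (lt_max_of_lt_right hρ) p3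
    rw [Real.log_mul (by norm_num) p1.ne'] at p5
    rw [Real.norm_eq_abs, abs_le]
    constructor <;> linarith [log_three]
  have hm : Measurable fun y : ℂ => Real.log (max ‖y - c‖ ρ) := by fun_prop
  have hi : Integrable (fun y : ℂ => Real.log (max r ρ) - Real.log (max ‖y - c‖ ρ)) μ :=
    Integrable.of_bound (measurable_const.sub hm).aestronglyMeasurable 2 hb
  have hi' : Integrable (fun y : ℂ => Real.log (max ‖y - c‖ ρ)) μ := by
    refine ((integrable_const (Real.log (max r ρ))).sub hi).congr (Eventually.of_forall fun y => ?_)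
    simp
  have := norm_integral_le_of_norm_le_const hb
  rw [integral_sub (integrable_const _) hi'] at this
  rw [h8 c ρ μ hρ hμ, neg_add_eq_sub]
  simpa using this

/-- difference between the circle around the ancestor and the circle around the centre of `R` -/
def Dv (M : Model) (l : ℕ) (R : Dy) : HH :=
  M.eC (ctr (anc l R)) (4 * side (anc l R)) - M.eC (ctr R) (8 * side (anc l R))

theorem ctr_mem (hGEO : St_GEO1) (R : Dy) : ctr R ∈ box [] :=
  (hGEO.2.2.2.2.1 R []).2 List.nil_suffix (hGEO.2.2.2.1 R).2.2.1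

theorem db_Dv (hMOD : St_MOD) (hFE : St_FE) (hGEO : St_GEO1) {M : Model} {i0 : ℕ} (hM : M.Ok i0)
    (j : ℕ) : DB M i0 4 (Dv M (i0 + 3 + j)) := by
  intro R hR
  have hanc := hGEO.2.2.2.2.2.2.2.2.2.2.2.2.2.1 (i0 + 3 + j) R
  unfold Dv
  set V := anc (i0 + 3 + j) R
  have hs : 0 < side V := (hGEO.1 V).1
  have hd : ‖ctr R - ctr V‖ ≤ 3 / 4 * side V := (hGEO.2.2.2.1 V).2.2.2.1 _
    ((hGEO.2.2.2.2.1 R V).2 hanc.1 (hGEO.2.2.2.1 R).2.2.1)
  have h8 : 8 * side V ≤ (1 / 2 : ℝ) ^ i0 := by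
    have : side V ≤ (1 / 2 : ℝ) ^ (i0 + 3) :=
      pow_le_pow_of_le_one (by norm_num) (by norm_num) (by rw [hanc.2]; omega)
    rw [pow_add] at this
    linarith
  have hO : closedBall (ctr R) (8 * side V) ⊆ M.O :=
    (closedBall_subset_closedBall h8).trans (hM.1 _ (ctr_mem hGEO R))
  have hc := hFE.2.2.2.2.2.2.2.2.1
  obtain ⟨p1, q1, -⟩ := hc (ctr V) (4 * side V) (by linarith)
  obtain ⟨p2, q2, -⟩ := hc (ctr R) (8 * side V) (by linarith)
  have a1 : ∀ y ∈ sphere (ctr V) (4 * side V),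
      8 * side V / 3 ≤ ‖y - ctr R‖ ∧ ‖y - ctr R‖ ≤ 8 * side V := by
    intro y hy
    rw [mem_sphere_iff_norm] at hy
    have b1 := norm_sub_le_norm_sub_add_norm_sub y (ctr R) (ctr V)
    have b2 := norm_sub_le_norm_sub_add_norm_sub y (ctr V) (ctr R)
    rw [norm_sub_rev (ctr V)] at b2
    constructor <;> linarith
  have a2 : ∀ (c : ℂ) (r : ℝ), 0 < r → ∀ y ∈ sphere c r, r / 3 ≤ ‖y - c‖ ∧ ‖y - c‖ ≤ r := by
    intro c r hr y hy
    rw [mem_sphere_iff_norm] at hy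
    constructor <;> linarith
  have s1 : sphere (ctr V) (4 * side V) ⊆ closedBall (ctr R) (8 * side V) := fun y hy =>
    mem_closedBall_iff_norm.2 (a1 y hy).2
  have ae1 : ∀ᵐ y ∂circ (ctr V) (4 * side V), y ∈ sphere (ctr V) (4 * side V) := q1
  have ae2 : ∀ᵐ y ∂circ (ctr R) (8 * side V), y ∈ sphere (ctr R) (8 * side V) := q2
  obtain ⟨-, -, -, -, -, m6, -, -, m9, -⟩ := hMOD M
  refine ⟨?_, fun i _ _ => ?_⟩
  · have z1 := measure_mono_null (compl_subset_compl.2 s1) q1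
    have e1 := m9 (ctr R) (8 * side V) _ _ (by linarith) p1 p1 z1 z1
    have e2 := ie_bd hMOD M p1 (c := ctr V) (r := 4 * side V) (ρ := 4 * side V) (by linarith)
      (by linarith) (ae1.mono (a2 _ _ (by linarith)))
    rw [max_self] at e2
    rw [real_inner_self_eq_norm_sq, show 8 * side V = 2 * (4 * side V) by ring,
      Real.log_mul (by norm_num) (by linarith)] at e1
    have e3 : Real.log 2 ≤ 1 := l2_le
    have e4 := (abs_le.1 e2).2
    rw [show 8 * side V = 2 * (4 * side V) by ring]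
    refine (pow_le_pow_iff_left₀ (norm_nonneg _) (by norm_num) two_ne_zero).1 ?_
    change ‖M.e _ - M.eC _ _‖ ^ 2 ≤ _
    rw [e1]
    linarith
  · have hρ : (0 : ℝ) < (1 / 2) ^ i := by positivity
    obtain ⟨p3, -⟩ := hc (ctr R) _ hρ
    have e1 := m6 _ _ _ p1 p2 p3 (measure_mono_null (compl_subset_compl.2 (s1.trans hO)) q1)
      (measure_mono_null (compl_subset_compl.2 (sphere_subset_closedBall.trans hO)) q2)
    rw [(hFE.2.2.2.2.1 _ _ p1.1 p3.1).1, (hFE.2.2.2.2.1 _ _ p2.1 p3.1).1] at e1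
    have e2 := abs_le.1 (ie_bd hMOD M p1 (c := ctr R) (r := 8 * side V) (by linarith) hρ
      (ae1.mono a1))
    have e3 := abs_le.1 (ie_bd hMOD M p2 (c := ctr R) (r := 8 * side V) (by linarith) hρ
      (ae2.mono (a2 _ _ (by linarith))))
    change |⟪M.e _ - M.e _, M.e _⟫| ≤ _
    rw [e1, abs_le]
    constructor <;> linarith [e2.1, e2.2, e3.1, e3.2]

theorem yv_eq (hGEO : St_GEO1) (M : Model) (γ u : ℝ) (h : ℕ) (R : Dy) (hR : h + 3 ≤ R.length)
    (ω : Om) : M.YV γ u (anc (h + 3) R) ω =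
      M.rad γ u R h ω + ω (Dv M (h + 3) R) - QQ γ * l2 := by
  have hanc := (hGEO.2.2.2.2.2.2.2.2.2.2.2.2.2.1 (h + 3) R).2
  rw [min_eq_left hR] at hanc
  have h8 : 8 * side (anc (h + 3) R) = (1 / 2 : ℝ) ^ h := by
    rw [side, hanc, pow_add]; ring
  have h4 : Real.log ((1 / 2 : ℝ) ^ h) = l2 + Real.log (4 * side (anc (h + 3) R)) := by
    rw [← h8, l2, ← Real.log_mul (by norm_num) (by linarith [(hGEO.1 (anc (h + 3) R)).1])]
    congr 1; ring
  unfold Model.YV Model.rad Model.Y Dv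
  rw [h8, map_sub, h4]
  ring

end ST4

end

end Pool.Agent.Lib.APPS
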