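import Pool.Agent.Lib.APPS.Blue2

/-! Block STR, deterministic part. -/

namespace Pool.Agent.Lib.APPS

open MeasureTheory ProbabilityTheory Filter Topology Set Metric
open scoped NNReal ENNReal Classical

noncomputable section

namespace STR

theorem ind_of {p : Prop} (h : p) : ind p = 1 := by simp [ind, h]

theorem card_le (s : Finset Dy) (p : Dy → Prop) (h : ∀ A ∈ s, p A) :
    (s.card : ℝ≥0∞) ≤ ∑' A, ind (p A) := by
  refine le_trans (le_of_eq ?_) (ENNReal.sum_le_tsum s)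
  rw [Finset.sum_congr rfl fun A hA => ind_of (h A hA)]
  simp

theorem side_anti {A B : Dy} (h : A.length ≤ B.length) : side B ≤ side A :=
  pow_le_pow_of_le_one (by norm_num) (by norm_num) h

theorem ctr_suf (hG : St_GEO1) {A B : Dy} (h : B <:+ A) : ‖ctr A - ctr B‖ ≤ 3 / 4 * side B :=
  (hG.2.2.2.1 B).2.2.2.1 _ ((hG.2.2.2.2.1 A B).2 h (hG.2.2.2.1 A).2.2.1)

theorem ring_ex {d : ℝ} {m : ℕ} (h1 : (1 / 2 : ℝ) ^ m ≤ d) (h2 : d ≤ 4) :
    ∃ j ≤ m, (1 / 2 : ℝ) ^ j ≤ d ∧ d ≤ 4 * (1 / 2 : ℝ) ^ j := by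
  have hex : ∃ j, (1 / 2 : ℝ) ^ j ≤ d := ⟨m, h1⟩
  refine ⟨Nat.find hex, Nat.find_min' hex h1, Nat.find_spec hex, ?_⟩
  rcases h : Nat.find hex with _ | i
  · simpa using h2
  · have := not_le.1 (Nat.find_min hex (show i < Nat.find hex by omega))
    have h0 : (0 : ℝ) < (1 / 2 : ℝ) ^ i := by positivity
    rw [pow_succ]
    linarith

theorem cover (hG : St_GEO1) (hH : St_GEO2) (hT : St_T1) {x : Dy → ℝ} (hx : nB x ≠ ∞) (R : Dy)
    (K : ℕ) {t : ℝ} (ht : 0 ≤ t) (h : NN x R ≤ ENNReal.ofReal t) :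
    nN x ≤ ∑ j ∈ Finset.range (R.length + K + 2), cnt x R j + t := by
  have htr : HasTr x (tr x) := hT.2.2.2.2.2.2.2.2.2.2.2.2.1 x hx
  set S1 := (tr x).filter fun A => R.length ≤ A.length ∧ ‖ctr A - ctr R‖ ≤ 8 * side R
  set S2 := (tr x).filter fun A => A.length ≤ R.length ∧ ‖ctr A - ctr R‖ ≤ 8 * side A
  have h1 : (S1.card : ℝ≥0∞) ≤ near x R :=
    (card_le S1 _ fun A hA => ⟨(htr A).1 (Finset.mem_filter.1 hA).1,
      (Finset.mem_filter.1 hA).2⟩).trans (hH.2.2.1 x R)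
  have h2 : (S2.card : ℝ≥0∞) ≤ 289 * (R.length + 1) :=
    (card_le S2 _ fun A hA => (Finset.mem_filter.1 hA).2).trans (hH.2.2.2.1 R)
  have h3 : (S1.card : ℝ) + S2.card ≤ t := by
    have := (add_le_add h1 h2).trans h
    rw [← Nat.cast_add, ← ENNReal.ofReal_natCast, ENNReal.ofReal_le_ofReal_iff ht] at this
    exact_mod_cast this
  have h4 : tr x ⊆ ((Finset.range (R.length + K + 2)).biUnion fun j => (tr x).filter fun A =>
      (1 / 2 : ℝ) ^ j ≤ ‖ctr A - ctr R‖ ∧ ‖ctr A - ctr R‖ ≤ 4 * (1 / 2 : ℝ) ^ j) ∪ (S1 ∪ S2) := by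
    intro A hA
    rw [Finset.mem_union, Finset.mem_union]
    by_cases hd : side R ≤ ‖ctr A - ctr R‖
    · have h5 : ‖ctr A - ctr R‖ ≤ 4 := by
        have a1 := ctr_suf hG (List.nil_suffix (l := A))
        have a2 := ctr_suf hG (List.nil_suffix (l := R))
        have a3 := norm_sub_le_norm_sub_add_norm_sub (ctr A) (ctr []) (ctr R)
        rw [norm_sub_rev (ctr []) (ctr R)] at a3
        have a4 := (hG.1 []).2
        linarith
      obtain ⟨j, hj, hj2⟩ := ring_ex hd h5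
      exact Or.inl (Finset.mem_biUnion.2 ⟨j, Finset.mem_range.2 (by omega),
        Finset.mem_filter.2 ⟨hA, hj2⟩⟩)
    · have hd' := not_le.1 hd
      have p1 := (hG.1 R).1
      rcases le_total R.length A.length with hl | hl
      · exact Or.inr (Or.inl (Finset.mem_filter.2 ⟨hA, hl, by linarith⟩))
      · have := side_anti hl
        exact Or.inr (Or.inr (Finset.mem_filter.2 ⟨hA, hl, by linarith⟩))
  have h5 := (Finset.card_le_card h4).trans ((Finset.card_union_le _ _).trans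
    (add_le_add Finset.card_biUnion_le (Finset.card_union_le _ _)))
  have h6 : (nN x : ℝ) ≤ ∑ j ∈ Finset.range (R.length + K + 2), cnt x R j +
      ((S1.card : ℝ) + S2.card) := by
    unfold nN cnt
    exact_mod_cast h5
  linarith

/-- if few roots have a large neighbourhood count, the ring sum is large -/
theorem big (hG : St_GEO1) (hH : St_GEO2) (hT : St_T1) {x : Dy → ℝ} {n L : ℝ} (K : ℕ)
    (hn : 0 < n) (hL : 1 ≤ L) (h1 : ENNReal.ofReal n ≤ nB x) (h2 : nB x < ENNReal.ofReal (L * n))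
    (h3 : ∑' R, ind (0 < x R ∧ ENNReal.ofReal (1 / 10 * n) ≤ NN x R) < ENNReal.ofReal (n / 2)) :
    ENNReal.ofReal (n / (4 * L)) ≤ ∑ R ∈ tr x, ∑ j ∈ Finset.range (R.length + K + 2),
      ENNReal.ofReal (min 1 (cnt x R j / n)) := by
  have hx : nB x ≠ ∞ := h2.ne_top
  have htr : HasTr x (tr x) := hT.2.2.2.2.2.2.2.2.2.2.2.2.1 x hx
  have hc : nB x = (tr x).card := (hT.2.2.2.2.2.2.2.2.2.2.2.1 x _ htr).2.2.1
  have hN1 : n ≤ nN x := by
    rw [hc, ← ENNReal.ofReal_natCast, ENNReal.ofReal_le_ofReal_iff (by positivity)] at h1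
    exact h1
  have hN2 : nN x ≤ L * n := by
    rw [hc, ← ENNReal.ofReal_natCast] at h2
    exact ((ENNReal.ofReal_lt_ofReal_iff_of_nonneg (by positivity)).1 h2).le
  set B := (tr x).filter fun R => ENNReal.ofReal (1 / 10 * n) ≤ NN x R
  set G := (tr x).filter fun R => ¬ENNReal.ofReal (1 / 10 * n) ≤ NN x R
  have hB : (B.card : ℝ) ≤ n / 2 := by
    have := (card_le B _ fun R hR => ⟨(htr R).1 (Finset.mem_filter.1 hR).1 R List.suffix_rfl,
      (Finset.mem_filter.1 hR).2⟩).trans_lt h3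
    rw [← ENNReal.ofReal_natCast] at this
    exact ((ENNReal.ofReal_lt_ofReal_iff_of_nonneg (by positivity)).1 this).le
  have hGc : n / 2 ≤ (G.card : ℝ) := by
    have h4 : B.card + G.card = (tr x).card := Finset.card_filter_add_card_filter_not _
    have h5 : (B.card : ℝ) + G.card = nN x := by unfold nN; exact_mod_cast h4
    linarith
  have hcn : ∀ R j, 0 ≤ cnt x R j ∧ cnt x R j ≤ L * n := fun R j =>
    ⟨Nat.cast_nonneg _, le_trans (by
      unfold cnt nN
      exact_mod_cast Finset.card_filter_le _ _) hN2⟩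
  have hR : ∀ R ∈ G, ENNReal.ofReal (1 / (2 * L)) ≤ ∑ j ∈ Finset.range (R.length + K + 2),
      ENNReal.ofReal (min 1 (cnt x R j / n)) := fun R hR => by
    have h4 := cover hG hH hT hx R K (by positivity) (not_le.1 (Finset.mem_filter.1 hR).2).le
    rw [← ENNReal.ofReal_sum_of_nonneg fun j _ => le_min zero_le_one
      (div_nonneg (hcn R j).1 hn.le)]
    refine ENNReal.ofReal_le_ofReal ?_
    have h5 : ∑ j ∈ Finset.range (R.length + K + 2), cnt x R j / (L * n) ≤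
        ∑ j ∈ Finset.range (R.length + K + 2), min 1 (cnt x R j / n) :=
      Finset.sum_le_sum fun j _ => le_min ((div_le_one (by positivity)).2 (hcn R j).2)
        (div_le_div_of_nonneg_left (hcn R j).1 hn (by nlinarith))
    refine le_trans ?_ h5
    rw [← Finset.sum_div, div_le_div_iff₀ (by positivity) (by positivity)]
    nlinarith
  calc ENNReal.ofReal (n / (4 * L)) ≤ ENNReal.ofReal (G.card * (1 / (2 * L))) := by
        refine ENNReal.ofReal_le_ofReal ?_
        rw [show n / (4 * L) = n / 2 * (1 / (2 * L)) by field_simp; ring]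
        gcongr
    _ = ∑ _R ∈ G, ENNReal.ofReal (1 / (2 * L)) := by
        rw [ENNReal.ofReal_mul (by positivity), ENNReal.ofReal_natCast, Finset.sum_const,
          nsmul_eq_mul]
    _ ≤ _ := (Finset.sum_le_sum hR).trans
        (Finset.sum_le_sum_of_subset (Finset.filter_subset _ _))

/-- the number of squares of intermediate size near a given square -/
def mid (l : ℕ) : ℝ := ∑ r ∈ Finset.range l, (2 * (2 * 2 ^ r) + 1) ^ 2

theorem outside (hG : St_GEO1) (hH : St_GEO2) (hT : St_T1) (y : Dy → ℝ) (R : Dy) (j K l : ℕ)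
    (h1 : K + 1 ≤ j) (h2 : j ≤ R.length + K + 1) (Z : Finset Dy)
    (hZ : ∀ A ∈ Z, A ∈ tr y ∧ ∀ T ∈ clus (anc (j - K - 1) R) l, ¬T <:+ A) :
    (Z.card : ℝ) ≤ outN y R j K + 289 * j + mid l := by
  obtain ⟨hVR, hVl⟩ := hG.2.2.2.2.2.2.2.2.2.2.2.2.2.1 (j - K - 1) R
  set V := anc (j - K - 1) R
  have hj : j = V.length + K + 1 := by rw [hVl]; omega
  have p1 := (hG.1 V).1
  set S0 := (tr y).filter fun A => ¬((1 / 2 : ℝ) ^ (j + K) ≤ ‖ctr A - ctr R‖ ∧
    ‖ctr A - ctr R‖ ≤ 2 ^ K * (1 / 2 : ℝ) ^ j)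
  set S1 := (tr y).filter fun A => A.length ≤ V.length ∧ ‖ctr A - ctr V‖ ≤ 8 * side A
  set S2 := (Finset.range l).biUnion fun r => (lev (V.length + r)).filter fun A =>
    ‖ctr A - ctr V‖ ≤ 2 * 2 ^ r * (1 / 2 : ℝ) ^ (V.length + r)
  have hs : Z ⊆ S0 ∪ (S1 ∪ S2) := by
    intro A hA
    obtain ⟨hA, hC⟩ := hZ A hA
    rw [Finset.mem_union, Finset.mem_union]
    by_cases h0 : (1 / 2 : ℝ) ^ (j + K) ≤ ‖ctr A - ctr R‖ ∧
      ‖ctr A - ctr R‖ ≤ 2 ^ K * (1 / 2 : ℝ) ^ j
    swap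
    · exact Or.inl (Finset.mem_filter.2 ⟨hA, h0⟩)
    have e1 : 2 ^ K * (1 / 2 : ℝ) ^ j = side V / 2 := by
      rw [hj, side, pow_succ, pow_add, one_div, inv_pow, inv_pow]
      field_simp
    have hd : ‖ctr A - ctr V‖ ≤ 5 / 4 * side V := by
      have a1 := ctr_suf hG hVR
      have a2 := norm_sub_le_norm_sub_add_norm_sub (ctr A) (ctr R) (ctr V)
      linarith [h0.2]
    rcases le_total A.length V.length with hl | hl
    · have := side_anti hl
      exact Or.inr (Or.inl (Finset.mem_filter.2 ⟨hA, hl, by linarith⟩))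
    refine Or.inr (Or.inr ?_)
    have hU := hG.2.2.2.2.2.2.2.2.2.2.2.2.2.2 V A hl
      (by linarith [Complex.abs_re_le_norm (ctr A - ctr V)])
      (by linarith [Complex.abs_im_le_norm (ctr A - ctr V)])
    have hlt : A.length < V.length + l := by
      by_contra hc
      obtain ⟨u1, u2⟩ := hG.2.2.2.2.2.2.2.2.2.2.2.2.2.1 V.length A
      obtain ⟨t1, t2⟩ := hG.2.2.2.2.2.2.2.2.2.2.2.2.2.1 (V.length + l) A
      obtain ⟨T', hT'⟩ := List.suffix_of_suffix_length_le u1 t1 (by omega)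
      refine hC _ (Finset.mem_biUnion.2 ⟨_, hU, Finset.mem_image.2 ⟨T', (hT.1 _ _).2 ?_, hT'⟩⟩) t1
      have := congrArg List.length hT'
      rw [List.length_append] at this
      omega
    obtain ⟨r, hr⟩ := Nat.exists_eq_add_of_le hl
    refine Finset.mem_biUnion.2 ⟨r, Finset.mem_range.2 (by omega),
      Finset.mem_filter.2 ⟨(hT.1 _ _).2 hr, ?_⟩⟩
    have e2 : 2 * 2 ^ r * (1 / 2 : ℝ) ^ (V.length + r) = 2 * side V := by
      rw [side, pow_add, one_div, inv_pow, inv_pow]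
      field_simp
    linarith
  have c1 : (S1.card : ℝ) ≤ 289 * j := by
    have := (card_le S1 _ fun A hA => (Finset.mem_filter.1 hA).2).trans (hH.2.2.2.1 V)
    have h3 : S1.card ≤ 289 * (V.length + 1) := by exact_mod_cast this
    have h4 : S1.card ≤ 289 * j := by omega
    exact_mod_cast h4
  have c2 : (S2.card : ℝ) ≤ mid l := by
    refine le_trans (Nat.cast_le.2 Finset.card_biUnion_le) ?_
    rw [Nat.cast_sum]
    exact Finset.sum_le_sum fun r _ =>
      hG.2.2.2.2.2.2.2.2.2.2.1 (V.length + r) (ctr V) (2 * 2 ^ r) (by positivity)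
  have c3 := (Finset.card_le_card hs).trans ((Finset.card_union_le _ _).trans
    (add_le_add le_rfl (Finset.card_union_le _ _)))
  have c4 : (Z.card : ℝ) ≤ S0.card + (S1.card + S2.card) := by exact_mod_cast c3
  have c5 : (S0.card : ℝ) = outN y R j K := rfl
  linarith

theorem str_of (hG : St_GEO1) (hT : St_T1) {γ n η : ℝ} {F : (Dy → ℝ) → ℝ} {K1 l : ℕ} {V : Dy}
    {x : Dy → ℝ} (hfin : nB (sh x 1) ≠ ∞) (hM : Marg (sh x 1) K1 2 V) (hL : Loc K1 V)
    (hg : LocGood γ F n η l V x)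
    (hc : ∀ Z : Finset Dy, (∀ A ∈ Z, A ∈ tr (sh x 1) ∧ ∀ T ∈ clus V l, ¬T <:+ A) →
      (Z.card : ℝ) ≤ η * n) :
    Str γ F n η K1 x := by
  obtain ⟨w, w0, w1, w2, w3⟩ := hg
  obtain ⟨l1, l2⟩ := hG.2.2.2.2.2.2.2.2.2.2.2.2.1 K1 V hL
  have hm : ∀ T ∈ clus V l, ∃ U ∈ nbr V, U <:+ T ∧ U.length = V.length ∧
      T.length = V.length + l := fun T hT' => by
    obtain ⟨U, hU, h⟩ := Finset.mem_biUnion.1 hT'
    obtain ⟨T', h1, rfl⟩ := Finset.mem_image.1 h
    have h2 := (hT.1 _ _).1 (Finset.mem_filter.1 hU).1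
    refine ⟨U, hU, List.suffix_append _ _, h2, ?_⟩
    rw [List.length_append, (hT.1 _ _).1 h1, h2, add_comm]
  refine ⟨clus V l, V.length + l, w, anc K1 V, ?_, by omega, fun T hT' => ?_,
    fun T hT' B hB hne hK => ?_, hfin, hc _ fun A hA => Finset.mem_filter.1 hA, w2, w3⟩
  · rw [(hG.2.2.2.2.2.2.2.2.2.2.2.2.2.1 K1 V).2]
    omega
  · obtain ⟨U, hU, h1, -, h3⟩ := hm T hT'
    refine ⟨h3, ?_, w0 T⟩
    rw [← l2 U hU]
    exact (hG.2.2.2.2.2.2.2.2.2.2.2.2.2.1 K1 U).1.trans h1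
  · rcases le_total V.length B.length with hl | hl
    · exact w1 T hT' B hB hne hl
    · obtain ⟨U, hU, h1, h2, -⟩ := hm T hT'
      have a1 := ctr_suf hG (List.suffix_of_suffix_length_le hB h1 (by omega))
      have a2 := (Finset.mem_filter.1 hU).2
      have a3 := norm_sub_le_norm_sub_add_norm_sub (ctr B) (ctr U) (ctr V)
      rw [norm_sub_rev (ctr B) (ctr U)] at a3
      have a4 := side_anti hl
      have a5 := (hG.1 B).1
      have := hM B hK hl (by linarith)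
      simp only [sh] at this
      linarith

end STR

end

end Pool.Agent.Lib.APPS
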