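import Pool.Agent.Lib.APPS.Blue2
import Pool.Agent.Lib.APPS.B_EXP1
import Pool.Agent.Lib.APPS.B_EXP2
import Pool.Agent.Lib.APPS.B_FE

/-!
Block ST, general lemmas on sums over rooted pairs.
-/

namespace Pool.Agent.Lib.APPS

open MeasureTheory ProbabilityTheory Filter Topology Set Metric
open scoped NNReal ENNReal CompactlySupported BoundedContinuousFunction RealInnerProductSpace
  Classical

noncomputable section

namespace ST

theorem ind_pos {p : Prop} (h : p) : ind p = 1 := by unfold ind; exact if_pos h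

theorem ind_neg {p : Prop} (h : ¬p) : ind p = 0 := by unfold ind; exact if_neg h

theorem ind_mono {p q : Prop} (h : p → q) : ind p ≤ ind q := by
  by_cases hp : p
  · rw [ind_pos hp, ind_pos (h hp)]
  · rw [ind_neg hp]; exact zero_le

theorem ind_le_one (p : Prop) : ind p ≤ 1 := by
  by_cases hp : p
  · rw [ind_pos hp]
  · rw [ind_neg hp]; exact zero_le

theorem ind_and (p q : Prop) : ind (p ∧ q) = ind p * ind q := by
  by_cases hp : p
  · by_cases hq : q
    · rw [ind_pos hp, ind_pos hq, ind_pos ⟨hp, hq⟩, one_mul]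
    · rw [ind_neg hq, ind_neg (fun h => hq h.2), mul_zero]
  · rw [ind_neg hp, ind_neg (fun h => hp h.1), zero_mul]

theorem ind_or (p q : Prop) : ind (p ∨ q) ≤ ind p + ind q := by
  by_cases hp : p
  · rw [ind_pos hp]; exact (ind_le_one _).trans le_self_add
  · by_cases hq : q
    · rw [ind_pos hq]; exact (ind_le_one _).trans le_add_self
    · rw [ind_neg (fun h => h.elim hp hq)]; exact zero_le

theorem meas_ind {α : Type*} [MeasurableSpace α] {p : α → Prop}
    (h : MeasurableSet {x | p x}) : Measurable fun a => ind (p a) := by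
  unfold ind
  exact Measurable.ite h measurable_const measurable_const

theorem lint_ind {p : Om → Prop} (h : MeasurableSet {x | p x}) :
    ∫⁻ ω, ind (p ω) ∂gm = gm {ω | p ω} := by
  rw [← lintegral_indicator_one h]
  refine lintegral_congr fun ω => ?_
  by_cases hp : p ω
  · rw [ind_pos hp, indicator_of_mem (by exact hp)]; rfl
  · rw [ind_neg hp, indicator_of_notMem (by exact hp)]

theorem pos_of_mem {x : Dy → ℝ} {R : Dy} (h : R ∈ tr x) : 0 < x R := by
  unfold tr at h
  split_ifs at h with hf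
  · rw [Set.Finite.mem_toFinset] at h
    exact h R (List.suffix_refl R)
  · simp at h

/-- sum over rooted pairs -/
def SP (x : Om → Dy → ℝ) (K : ℕ) (P : Dy → ℕ → Om → Prop) (ω : Om) : ℝ≥0∞ :=
  ∑ R ∈ tr (x ω), ∑ j ∈ Finset.range (R.length + K + 2), ind (P R j ω)

theorem meas_SP' (hT3 : St_T3) {x : Om → Dy → ℝ} (hx : Measurable x) (K : ℕ)
    (P : Finset Dy → Dy → ℕ → Om → Prop) (hP : ∀ T R j, MeasurableSet {ω | P T R j ω}) :
    Measurable (SP x K fun R j ω => P (tr (x ω)) R j ω) := by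
  have := hT3.2.2.2.1 Om ℝ≥0∞ x
    (fun T ω => ∑ R ∈ T, ∑ j ∈ Finset.range (R.length + K + 2), ind (P T R j ω)) hx
    (fun T => Finset.measurable_sum _ fun R _ => Finset.measurable_sum _ fun j _ =>
      meas_ind (hP T R j))
  exact this

theorem meas_SP (hT3 : St_T3) {x : Om → Dy → ℝ} (hx : Measurable x) (K : ℕ)
    (P : Dy → ℕ → Om → Prop) (hP : ∀ R j, MeasurableSet {ω | P R j ω}) :
    Measurable (SP x K P) :=
  meas_SP' hT3 hx K (fun _ => P) fun _ => hP

theorem SP_le (x : Om → Dy → ℝ) (K : ℕ) (P : Dy → ℕ → Om → Prop) (ω : Om) :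
    SP x K P ω ≤ ∑' R : Dy, ∑ j ∈ Finset.range (R.length + K + 2),
      ind (0 < x ω R ∧ P R j ω) := by
  refine le_trans ?_ (ENNReal.sum_le_tsum (tr (x ω)))
  refine Finset.sum_le_sum fun R hR => Finset.sum_le_sum fun j _ => ?_
  exact ind_mono fun h => ⟨pos_of_mem hR, h⟩

theorem lint_SP {x : Om → Dy → ℝ} (hx : Measurable x) (K : ℕ)
    (P : Dy → ℕ → Om → Prop) (hP : ∀ R j, MeasurableSet {ω | P R j ω}) :
    ∫⁻ ω, SP x K P ω ∂gm ≤ ∑' R : Dy, ∑ j ∈ Finset.range (R.length + K + 2),
      gm {ω | 0 < x ω R ∧ P R j ω} := by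
  have hm : ∀ R j, MeasurableSet {ω | 0 < x ω R ∧ P R j ω} := fun R j =>
    (measurableSet_lt measurable_const ((measurable_pi_apply R).comp hx)).inter (hP R j)
  refine (lintegral_mono (SP_le x K P)).trans (le_of_eq ?_)
  rw [lintegral_tsum fun R => (Finset.measurable_sum _ fun j _ => meas_ind (hm R j)).aemeasurable]
  refine tsum_congr fun R => ?_
  rw [lintegral_finsetSum _ fun j _ => meas_ind (hm R j)]
  exact Finset.sum_congr rfl fun j _ => lint_ind (hm R j)

theorem reindex (K : ℕ) (s I : Finset ℕ) (f g : ℕ → ℝ≥0∞)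
    (h : ∀ j ∈ s, f j ≠ 0 → K + 1 ≤ j ∧ j - K - 1 ∈ I ∧ f j ≤ g (j - K - 1)) :
    ∑ j ∈ s, f j ≤ ∑ l ∈ I, g l := by
  rw [← Finset.sum_filter_ne_zero]
  calc ∑ j ∈ s.filter (fun j => f j ≠ 0), f j
      ≤ ∑ j ∈ s.filter (fun j => f j ≠ 0), g (j - K - 1) := by
        refine Finset.sum_le_sum fun j hj => ?_
        rw [Finset.mem_filter] at hj
        exact (h j hj.1 hj.2).2.2
    _ = ∑ l ∈ (s.filter (fun j => f j ≠ 0)).image (fun j => j - K - 1), g l := by
        rw [Finset.sum_image]
        intro a ha b hb hab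
        rw [Finset.mem_coe, Finset.mem_filter] at ha hb
        have h1 := (h a ha.1 ha.2).1
        have h2 := (h b hb.1 hb.2).1
        simp only at hab
        omega
    _ ≤ ∑ l ∈ I, g l := by
        refine Finset.sum_le_sum_of_subset fun l hl => ?_
        rw [Finset.mem_image] at hl
        obtain ⟨j, hj, rfl⟩ := hl
        rw [Finset.mem_filter] at hj
        exact (h j hj.1 hj.2).2.1

theorem anc_len (l : ℕ) (R : Dy) (h : l ≤ R.length) : (anc l R).length = l := by
  unfold anc
  rw [List.length_drop]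
  omega

theorem anc_suf (l : ℕ) (R : Dy) : anc l R <:+ R := List.drop_suffix _ _

theorem unroot (x : Dy → ℝ) (g : Dy → ℝ≥0∞) :
    ∑' R : Dy, ind (0 < x R) * ∑ l ∈ Finset.range (R.length + 1), g (anc l R) ≤
      ∑' V : Dy, g V * posN x V := by
  have h1 : ∀ R : Dy, ∑ l ∈ Finset.range (R.length + 1), g (anc l R) ≤
      ∑' V : Dy, ind (V <:+ R) * g V := by
    intro R
    calc ∑ l ∈ Finset.range (R.length + 1), g (anc l R)
        = ∑ V ∈ (Finset.range (R.length + 1)).image (fun l => anc l R), g V := by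
          rw [Finset.sum_image]
          intro a ha b hb hab
          rw [Finset.mem_coe, Finset.mem_range] at ha hb
          have h1 := anc_len a R (by omega)
          have h2 := anc_len b R (by omega)
          simp only at hab
          rw [hab] at h1
          omega
      _ ≤ ∑ V ∈ (Finset.range (R.length + 1)).image (fun l => anc l R), ind (V <:+ R) * g V := by
          refine Finset.sum_le_sum fun V hV => ?_
          rw [Finset.mem_image] at hV
          obtain ⟨l, -, rfl⟩ := hV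
          rw [ind_pos (anc_suf l R), one_mul]
      _ ≤ _ := ENNReal.sum_le_tsum _
  calc ∑' R : Dy, ind (0 < x R) * ∑ l ∈ Finset.range (R.length + 1), g (anc l R)
      ≤ ∑' R : Dy, ∑' V : Dy, g V * (ind (V <:+ R) * ind (0 < x R)) := by
        refine ENNReal.tsum_le_tsum fun R => ?_
        refine (mul_le_mul_right (h1 R) _).trans (le_of_eq ?_)
        rw [← ENNReal.tsum_mul_left]
        exact tsum_congr fun V => by ring
    _ = ∑' V : Dy, ∑' R : Dy, g V * (ind (V <:+ R) * ind (0 < x R)) := ENNReal.tsum_comm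
    _ = ∑' V : Dy, g V * posN x V := by
        refine tsum_congr fun V => ?_
        rw [ENNReal.tsum_mul_left]
        congr 1
        have hinj : Function.Injective fun S : Dy => S ++ V := fun a b hab =>
          List.append_cancel_right hab
        rw [← hinj.tsum_eq (f := fun R : Dy => ind (V <:+ R) * ind (0 < x R))]
        · refine tsum_congr fun S => ?_
          rw [ind_pos (List.suffix_append S V), one_mul]
        · intro R hR
          by_contra hn
          apply hR
          have : ¬V <:+ R := fun ⟨S, hS⟩ => hn ⟨S, hS⟩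
          simp only [ind_neg this, zero_mul]

/-- pairs whose event only depends on the ancestor `anc (j - K - 1) R` -/
theorem SP_unroot (x : Om → Dy → ℝ) (K : ℕ) (P : Dy → ℕ → Om → Prop) (p : Dy → Om → Prop)
    (h : ∀ R j ω, j < R.length + K + 2 → P R j ω → K + 1 ≤ j ∧ p (anc (j - K - 1) R) ω)
    (ω : Om) : SP x K P ω ≤ ∑' V : Dy, ind (p V ω) * posN (x ω) V := by
  refine le_trans ?_ (unroot (x ω) fun V => ind (p V ω))
  refine le_trans ?_ (ENNReal.sum_le_tsum (tr (x ω)))
  refine Finset.sum_le_sum fun R hR => ?_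
  rw [ind_pos (pos_of_mem hR), one_mul]
  refine reindex K _ _ _ (fun l => ind (p (anc l R) ω)) fun j hj hne => ?_
  rw [Finset.mem_range] at hj
  have hP : P R j ω := by
    by_contra hn
    exact hne (ind_neg hn)
  obtain ⟨h1, h2⟩ := h R j ω hj hP
  refine ⟨h1, Finset.mem_range.2 (by omega), ?_⟩
  rw [ind_pos h2]
  exact ind_le_one _

theorem meas_posN {x : Om → Dy → ℝ} (hx : Measurable x) (V : Dy) :
    Measurable fun ω => posN (x ω) V := by
  unfold posN
  exact Measurable.ennreal_tsum fun S =>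
    meas_ind (measurableSet_lt measurable_const ((measurable_pi_apply _).comp hx))

theorem lint_unroot {x : Om → Dy → ℝ} (hx : Measurable x) (K : ℕ) (P : Dy → ℕ → Om → Prop)
    (p : Dy → Om → Prop) (hp : ∀ V, MeasurableSet {ω | p V ω})
    (h : ∀ R j ω, j < R.length + K + 2 → P R j ω → K + 1 ≤ j ∧ p (anc (j - K - 1) R) ω) :
    ∫⁻ ω, SP x K P ω ∂gm ≤ ∑' V : Dy, ∫⁻ ω, ind (p V ω) * posN (x ω) V ∂gm := by
  refine (lintegral_mono (SP_unroot x K P p h)).trans (le_of_eq ?_)
  exact lintegral_tsum fun V => ((meas_ind (hp V)).mul (meas_posN hx V)).aemeasurable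

/-! constants -/

theorem pow_th (hR : St_RW1) {γ : ℝ} (hγ : γ ∈ Ioo (0 : ℝ) 2) {n : ℝ} (hn : 0 < n) :
    n ^ th γ = Real.exp (2 * aa γ * lvl γ n) := by
  obtain ⟨-, -, -, h4, -⟩ := hR.2.2 γ hγ
  rw [Real.rpow_def_of_pos hn, ← h4, lvl]
  congr 1
  field_simp [hγ.1.ne']

theorem aa_eq {γ : ℝ} (hγ : γ ∈ Ioo (0 : ℝ) 2) : 2 * aa γ = 4 / γ - γ := by
  unfold aa QQ
  field_simp [hγ.1.ne']
  ring

theorem lvl_tend {γ : ℝ} (hγ : γ ∈ Ioo (0 : ℝ) 2) : Tendsto (lvl γ) atTop atTop :=
  Real.tendsto_log_atTop.atTop_div_const hγ.1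

theorem small (K c0 c η : ℝ) (hc : 0 < c) (hη : 0 < η) :
    ∀ᶠ t : ℝ in atTop, K * Real.exp (c0 - c * t) ≤ η := by
  have h1 : Tendsto (fun t : ℝ => c0 - c * t) atTop atBot := by
    have := (tendsto_id.const_mul_atTop hc : Tendsto (fun t : ℝ => c * id t) atTop atTop)
    exact tendsto_atBot_add_const_left _ c0 (tendsto_neg_atTop_atBot.comp this)
  have h2 : Tendsto (fun t : ℝ => K * Real.exp (c0 - c * t)) atTop (𝓝 (K * 0)) :=
    (Real.tendsto_exp_atBot.comp h1).const_mul K
  rw [mul_zero] at h2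
  exact h2.eventually (ge_mem_nhds hη)

theorem fin_bd {a b e η : ℝ} {I : ℝ≥0∞} (ha : 0 ≤ a) (hI : I ≤ ENNReal.ofReal b)
    (h : a * b = e) (he : e ≤ η) : ENNReal.ofReal a * I ≤ ENNReal.ofReal η := by
  refine (mul_le_mul_right hI _).trans ?_
  rw [← ENNReal.ofReal_mul ha, h]
  exact ENNReal.ofReal_le_ofReal he

theorem kS_diag (hG : St_GEO1) (S : Dy) : kS S S = kS [] [] + S.length * l2 := by
  have := (blk_EXP2 blk_EXP1 hG (blk_FE blk_EXP1 hG)).2.1 [] [] S
  simpa using this

theorem l2_pos : 0 < l2 := Real.log_pos (by norm_num)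

theorem log_side (V : Dy) : Real.log (4 * side V) + V.length * l2 = 2 * l2 := by
  unfold side l2
  rw [Real.log_mul (by norm_num) (by positivity), Real.log_pow, one_div, Real.log_inv,
    show (4 : ℝ) = 2 ^ 2 by norm_num, Real.log_pow]
  push_cast
  ring

end ST

end

end Pool.Agent.Lib.APPS
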