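import Pool.Agent.Lib.APPS.B_STa

/-!
Block ST, the rooted error terms.
-/

namespace Pool.Agent.Lib.APPS

open MeasureTheory ProbabilityTheory Filter Topology Set Metric
open scoped NNReal ENNReal CompactlySupported BoundedContinuousFunction RealInnerProductSpace
  Classical

noncomputable section

namespace ST

theorem meas_X (M : Model) (γ u : ℝ) : Measurable (M.X γ u) :=
  measurable_pi_lambda _ fun S => ((meas_ev (M.eS S)).add_const u).sub_const _

theorem meas_Y (M : Model) (γ u : ℝ) (c : ℂ) (r : ℝ) : Measurable (M.Y γ u c r) :=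
  ((meas_ev (M.eC c r)).add_const u).add_const _

theorem meas_YV (M : Model) (γ u : ℝ) (V : Dy) : Measurable (M.YV γ u V) := meas_Y M γ u _ _

theorem meas_High (M : Model) (γ u : ℝ) (i0 : ℕ) (t : ℝ) (R : Dy) (j : ℕ) :
    MeasurableSet {ω | M.High γ u i0 t R j ω} := by
  unfold Model.High
  refine measurableSet_setOfPred.2 (Measurable.exists fun h => measurable_const.and
    (measurable_const.and (measurable_const.and (measurable_const.and ?_))))
  exact measurableSet_setOfPred.1 (measurableSet_lt measurable_const (meas_Y M γ u _ _))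

theorem reindex0 (s I : Finset ℕ) (f g : ℕ → ℝ≥0∞) (h : ∀ j ∈ s, f j ≠ 0 → j ∈ I ∧ f j ≤ g j) :
    ∑ j ∈ s, f j ≤ ∑ l ∈ I, g l := by
  rw [← Finset.sum_filter_ne_zero]
  calc ∑ j ∈ s.filter (fun j => f j ≠ 0), f j ≤ ∑ j ∈ s.filter (fun j => f j ≠ 0), g j := by
        refine Finset.sum_le_sum fun j hj => ?_
        rw [Finset.mem_filter] at hj
        exact (h j hj.1 hj.2).2
    _ ≤ ∑ l ∈ I, g l := by
        refine Finset.sum_le_sum_of_subset fun j hj => ?_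
        rw [Finset.mem_filter] at hj
        exact (h j hj.1 hj.2).1

theorem bA (hR : St_RW1) (h4 : St_ST4) {γ : ℝ} (hγ : γ ∈ Ioo (0 : ℝ) 2) (M : Model) (i0 : ℕ)
    (hO : M.Ok i0) (u t0 η : ℝ) (hη : 0 < η) (K J0 : ℕ) :
    ∀ᶠ n : ℝ in atTop, ENNReal.ofReal (n ^ th γ) * ∫⁻ ω, SP (M.X γ u) K
      (fun R j ω => M.High γ u i0 (lvl γ n - t0) R j ω ∧ j ≤ J0) ω ∂gm ≤ ENNReal.ofReal η := by
  have ha : 0 < aa γ := (hR.2.2 γ hγ).1
  obtain ⟨KA, hKA⟩ := (h4 γ hγ M i0 hO).2.2.1 (2 * aa γ + 1) u J0 (by positivity)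
  filter_upwards [eventually_gt_atTop 0, (lvl_tend hγ).eventually
    (small ((J0 + 1 : ℕ) * KA) ((2 * aa γ + 1) * t0) 1 η one_pos hη)] with n hn hs
  refine fin_bd (b := (J0 + 1 : ℕ) * (KA * Real.exp (-(2 * aa γ + 1) * (lvl γ n - t0))))
    (by positivity) ?_ ?_ hs
  · refine (lint_SP (meas_X M γ u) K _ fun R j =>
      (meas_High M γ u i0 _ R j).inter (MeasurableSet.const _)).trans ?_
    rw [ENNReal.ofReal_mul (by positivity), ENNReal.ofReal_natCast]
    refine le_trans ?_ (mul_le_mul_right (hKA (lvl γ n - t0)) _)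
    rw [← ENNReal.tsum_mul_left]
    refine ENNReal.tsum_le_tsum fun R => ?_
    refine (reindex0 _ (Finset.range (J0 + 1)) _ (fun _ => ind (i0 + 4 ≤ R.length) *
      gm {ω | 0 < M.X γ u ω R ∧ ∃ h : ℕ, i0 ≤ h ∧ h ≤ J0 ∧ h + 2 ≤ R.length ∧
        lvl γ n - t0 < M.rad γ u R h ω}) fun j _ hne => ?_).trans ?_
    · obtain ⟨ω, -, ⟨h, h1, h2, -⟩, hj⟩ := nonempty_of_measure_ne_zero hne
      have hj : j ≤ J0 := hj
      refine ⟨Finset.mem_range.2 (by omega), ?_⟩
      rw [ind_pos (by omega), one_mul]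
      refine measure_mono ?_
      rintro ω ⟨hx, ⟨h, h1, h2, h3, h4, h5⟩, -⟩
      exact ⟨hx, h, h1, by omega, by omega, h5⟩
    · rw [Finset.sum_const, Finset.card_range, nsmul_eq_mul]
  · rw [pow_th hR hγ hn]
    have : Real.exp (2 * aa γ * lvl γ n) * Real.exp (-(2 * aa γ + 1) * (lvl γ n - t0)) =
        Real.exp ((2 * aa γ + 1) * t0 - 1 * lvl γ n) := by
      rw [← Real.exp_add]; congr 1; ring
    rw [← this]; ring

theorem norm_eS (hM : St_MOD) (hG : St_GEO1) (M : Model) (hb : box [] ⊆ M.O) (S : Dy) :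
    ‖M.eS S‖ ^ 2 ≤ max (M.C0 + kS [] []) 0 + S.length * l2 := by
  have h := (hM M).2.2.2.2.2.2.1 [] hb S S
  simp only [List.append_nil, List.length_nil, Nat.cast_zero, zero_mul, add_zero, covE] at h
  rw [← real_inner_self_eq_norm_sq, h, kS_diag hG]
  linarith [le_max_left (M.C0 + kS [] []) 0]

theorem geo_tail (Kc c t : ℝ) (hc : 0 < c) :
    ∑' j : ℕ, ind (t < j) * ENNReal.ofReal (Kc * Real.exp (-c * j)) ≤
      ENNReal.ofReal (max Kc 0 * (1 - Real.exp (-(c / 2)))⁻¹ * Real.exp (-(c / 2) * t)) := by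
  have hq0 : 0 ≤ Real.exp (-(c / 2)) := (Real.exp_pos _).le
  have hq1 : Real.exp (-(c / 2)) < 1 := Real.exp_lt_one_iff.2 (by linarith)
  have hs : HasSum (fun j : ℕ => max Kc 0 * Real.exp (-(c / 2) * t) * Real.exp (-(c / 2)) ^ j)
      (max Kc 0 * Real.exp (-(c / 2) * t) * (1 - Real.exp (-(c / 2)))⁻¹) :=
    (hasSum_geometric_of_lt_one hq0 hq1).mul_left _
  rw [mul_right_comm, ← hs.tsum_eq, ENNReal.ofReal_tsum_of_nonneg (fun j => by positivity)
    hs.summable]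
  refine ENNReal.tsum_le_tsum fun j => ?_
  by_cases hj : t < j
  · rw [ind_pos hj, one_mul]
    refine ENNReal.ofReal_le_ofReal ?_
    rw [← Real.exp_nat_mul, mul_assoc, ← Real.exp_add]
    refine mul_le_mul (le_max_left _ _) (Real.exp_le_exp.2 ?_) (Real.exp_pos _).le
      (le_max_right _ _)
    nlinarith
  · rw [ind_neg hj, zero_mul]; exact zero_le

theorem bB (hM : St_MOD) (hG : St_GEO1) (hF : St_FM) {γ : ℝ} (hγ : γ ∈ Ioo (0 : ℝ) 2)
    (M : Model) (hb : box [] ⊆ M.O) (i0 : ℕ) (u t0 δ η : ℝ) (hδ : 0 < δ) (hη : 0 < η) (K : ℕ) :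
    ∀ᶠ n : ℝ in atTop, ENNReal.ofReal (n ^ th γ) * ∫⁻ ω, SP (M.X γ u) K
      (fun R j ω => M.High γ u i0 (lvl γ n - t0) R j ω ∧ δ * n < j) ω ∂gm ≤
        ENNReal.ofReal η := by
  obtain ⟨KF, c, hc, hKF⟩ := (hF γ hγ).1
  have h2 := (hKF _ (le_max_right _ _) M.eS (norm_eS hM hG M hb) u).2
  set C := max (M.C0 + kS [] []) 0
  set Kc := KF * Real.exp (QQ γ * u + QQ γ ^ 2 * C / 2)
  set K2 := max Kc 0 * (1 - Real.exp (-(c / 2)))⁻¹
  have ht : Tendsto (fun n : ℝ => K2 * (n ^ th γ * Real.exp (-(c / 2 * δ) * n))) atTop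
      (𝓝 (K2 * 0)) :=
    (tendsto_rpow_mul_exp_neg_mul_atTop_nhds_zero _ _ (by positivity)).const_mul K2
  rw [mul_zero] at ht
  filter_upwards [eventually_gt_atTop 0, ht.eventually (ge_mem_nhds hη)] with n hn hs
  refine fin_bd (b := K2 * Real.exp (-(c / 2) * (δ * n))) (by positivity) ?_ ?_ hs
  · refine (lint_SP (meas_X M γ u) K _ fun R j =>
      (meas_High M γ u i0 _ R j).inter (MeasurableSet.const _)).trans ?_
    refine le_trans ?_ (geo_tail Kc c (δ * n) hc)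
    calc ∑' R : Dy, ∑ j ∈ Finset.range (R.length + K + 2),
          gm {ω | 0 < M.X γ u ω R ∧ M.High γ u i0 (lvl γ n - t0) R j ω ∧ δ * n < j}
        ≤ ∑' R : Dy, ∑' j : ℕ, ind (δ * n < j) *
            (ind (j ≤ R.length) * gm {ω | 0 < M.X γ u ω R}) := by
          refine ENNReal.tsum_le_tsum fun R => le_trans (Finset.sum_le_sum fun j _ => ?_)
            (ENNReal.sum_le_tsum _)
          by_cases hne : gm {ω | 0 < M.X γ u ω R ∧ M.High γ u i0 (lvl γ n - t0) R j ω ∧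
            δ * n < j} = 0
          · rw [hne]; exact zero_le
          · obtain ⟨ω, -, ⟨h, h1, h2, h3, -⟩, hj⟩ := nonempty_of_measure_ne_zero hne
            rw [ind_pos hj, ind_pos (by omega), one_mul, one_mul]
            exact measure_mono fun ω hω => hω.1
      _ = ∑' j : ℕ, ∑' R : Dy, ind (δ * n < j) *
            (ind (j ≤ R.length) * gm {ω | 0 < M.X γ u ω R}) := ENNReal.tsum_comm
      _ ≤ _ := by
          refine ENNReal.tsum_le_tsum fun j => ?_
          rw [ENNReal.tsum_mul_left]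
          refine mul_le_mul_right ((h2 j).trans (le_of_eq ?_)) _
          congr 1
          simp only [Kc]
          rw [mul_assoc, ← Real.exp_add]
          congr 2
          ring
  · rw [show -(c / 2) * (δ * n) = -(c / 2 * δ) * n by ring]; ring

theorem bD (hR : St_RW1) (h4 : St_ST4) {γ : ℝ} (hγ : γ ∈ Ioo (0 : ℝ) 2) (M : Model) (i0 : ℕ)
    (hO : M.Ok i0) (u t0 η : ℝ) (hη : 0 < η) :
    ∀ᶠ K' : ℝ in atTop, ∀ (K : ℕ) (n : ℝ), 0 < n →
      ENNReal.ofReal (n ^ th γ) * ∫⁻ ω, SP (M.X γ u) K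
      (fun R j ω => M.High γ u i0 (lvl γ n - t0) R j ω ∧ K + i0 + 4 ≤ j ∧
        lvl γ n + K' < M.YV γ u (anc (j - K - 1) R) ω) ω ∂gm ≤ ENNReal.ofReal η := by
  have ha : 0 < aa γ := (hR.2.2 γ hγ).1
  obtain ⟨KA, hKA⟩ := (h4 γ hγ M i0 hO).1
  filter_upwards [small KA (γ * u + 2 * aa γ * u) (2 * aa γ) η (by positivity) hη] with K' hs K n hn
  refine fin_bd (b := KA * Real.exp (γ * u - 2 * aa γ * (lvl γ n + K' - u)))
    (by positivity) ?_ ?_ hs
  · refine (lint_SP (meas_X M γ u) K _ fun R j =>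
      (meas_High M γ u i0 _ R j).inter ((MeasurableSet.const _).inter
        (measurableSet_lt measurable_const (meas_YV M γ u _)))).trans ?_
    refine le_trans ?_ (hKA u (lvl γ n + K'))
    refine ENNReal.tsum_le_tsum fun R => ?_
    rw [Finset.mul_sum]
    refine reindex K _ _ _ _ fun j _ hne => ?_
    obtain ⟨ω, -, ⟨h, h1, h2, h3, -⟩, hj, -⟩ := nonempty_of_measure_ne_zero hne
    have hj : K + i0 + 4 ≤ j := hj
    have hm : j - K - 1 ∈ Finset.Icc (i0 + 3) R.length := Finset.mem_Icc.2 ⟨by omega, by omega⟩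
    refine ⟨by omega, hm, ?_⟩
    rw [ind_pos (by omega), one_mul]
    refine le_trans ?_ (Finset.single_le_sum (f := fun l' => gm {ω | 0 < M.X γ u ω R ∧
      lvl γ n + K' < M.YV γ u (anc (j - K - 1) R) ω ∧ lvl γ n + K' < M.YV γ u (anc l' R) ω})
      (fun _ _ => zero_le) hm)
    exact measure_mono fun ω hω => ⟨hω.1, hω.2.2.2, hω.2.2.2⟩
  · rw [pow_th hR hγ hn]
    have : Real.exp (2 * aa γ * lvl γ n) * Real.exp (γ * u - 2 * aa γ * (lvl γ n + K' - u)) =
        Real.exp (γ * u + 2 * aa γ * u - 2 * aa γ * K') := by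
      rw [← Real.exp_add]; congr 1; ring
    rw [← this]; ring

theorem bE (hR : St_RW1) (h4 : St_ST4) {γ : ℝ} (hγ : γ ∈ Ioo (0 : ℝ) 2) (M : Model) (i0 : ℕ)
    (hO : M.Ok i0) (u t0 η : ℝ) (hη : 0 < η) (K : ℕ) :
    ∀ᶠ K' : ℝ in atTop, ∀ n : ℝ, 0 < n →
      ENNReal.ofReal (n ^ th γ) * ∫⁻ ω, SP (M.X γ u) K
      (fun R j ω => M.High γ u i0 (lvl γ n - t0) R j ω ∧ K + i0 + 4 ≤ j ∧
        M.YV γ u (anc (j - K - 1) R) ω < lvl γ n - K') ω ∂gm ≤ ENNReal.ofReal η := by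
  obtain ⟨c, hc, hKA⟩ := (h4 γ hγ M i0 hO).2.1
  obtain ⟨KA, hKA⟩ := hKA K
  filter_upwards [small KA (γ * u + 2 * aa γ * (t0 + u) + c * t0) c η hc hη] with K' hs n hn
  refine fin_bd (b := KA * Real.exp (γ * u - 2 * aa γ * (lvl γ n - t0 - u) - c * (K' - t0)))
    (by positivity) ?_ ?_ hs
  · refine (lint_SP (meas_X M γ u) K _ fun R j =>
      (meas_High M γ u i0 _ R j).inter ((MeasurableSet.const _).inter
        (measurableSet_lt (meas_YV M γ u _) measurable_const))).trans ?_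
    refine le_trans ?_ (hKA u (lvl γ n - t0) (K' - t0))
    refine ENNReal.tsum_le_tsum fun R => ?_
    rw [Finset.mul_sum]
    refine reindex K _ _ _ _ fun j _ hne => ?_
    obtain ⟨ω, -, ⟨h, h1, h2, h3, -⟩, hj, -⟩ := nonempty_of_measure_ne_zero hne
    have hj : K + i0 + 4 ≤ j := hj
    have hm : j - K - 1 ∈ Finset.Icc (i0 + 3) R.length := Finset.mem_Icc.2 ⟨by omega, by omega⟩
    refine ⟨by omega, hm, ?_⟩
    rw [ind_pos (by omega), one_mul]
    refine measure_mono ?_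
    rintro ω ⟨hx, ⟨h, h1, h2, h3, h4, h5⟩, -, hy⟩
    have hy : M.YV γ u (anc (j - K - 1) R) ω < lvl γ n - K' := hy
    exact ⟨hx, by linarith, h, by omega, by omega, by omega, h5⟩
  · rw [pow_th hR hγ hn]
    have : Real.exp (2 * aa γ * lvl γ n) *
        Real.exp (γ * u - 2 * aa γ * (lvl γ n - t0 - u) - c * (K' - t0)) =
        Real.exp (γ * u + 2 * aa γ * (t0 + u) + c * t0 - c * K') := by
      rw [← Real.exp_add]; congr 1; ring
    rw [← this]; ring

end ST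

end

end Pool.Agent.Lib.APPS
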