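import Pool.Agent.Lib.APPS.Blue1

/-!
Block T1: combinatorics of quaternary trees.
-/

namespace Pool.Agent.Lib.APPS

open Finset
open scoped ENNReal Classical

noncomputable section

namespace T1

theorem mem_lev (k : ℕ) (S : Dy) : S ∈ lev k ↔ S.length = k := by
  induction k generalizing S with
  | zero => simp [lev]
  | succ k ih =>
    simp only [lev, mem_biUnion, mem_image, mem_univ, true_and, ih]
    constructor
    · rintro ⟨P, hP, d, rfl⟩
      simp [hP]
    · intro h
      match S, h with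
      | d :: P, h => exact ⟨P, by simpa using h, d, rfl⟩

theorem card_ch (T : Finset Dy) :
    (T.biUnion fun S => univ.image fun d : Fin 2 × Fin 2 => d :: S).card = 4 * T.card := by
  rw [card_biUnion]
  · rw [sum_congr rfl fun S _ => card_image_of_injective _ fun d d' h => (List.cons.inj h).1]
    simp [mul_comm]
  · intro S _ S' _ h
    refine disjoint_left.mpr fun A h1 h2 => h ?_
    obtain ⟨d, -, rfl⟩ := mem_image.mp h1
    obtain ⟨d', -, h3⟩ := mem_image.mp h2
    exact (List.cons.inj h3).2.symm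

theorem card_lev (k : ℕ) : (lev k).card = 4 ^ k := by
  induction k with
  | zero => simp [lev]
  | succ k ih => rw [lev, card_ch, ih, pow_succ']

theorem nil_mem {T : Finset Dy} (h : IsTr T) (h0 : T ≠ ∅) : [] ∈ T := by
  obtain ⟨A, hA⟩ := nonempty_iff_ne_empty.mpr h0
  exact h A hA [] List.nil_suffix

theorem len_lt {T : Finset Dy} (h : IsTr T) {A : Dy} (hA : A ∈ T) : A.length < T.card := by
  have := card_le_card_of_injOn (s := range (A.length + 1)) (t := T) (fun i => A.drop i)
    (fun i _ => h A hA _ (List.drop_suffix i A)) fun i hi j hj hij => by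
      have h1 := congrArg List.length hij
      simp only [List.length_drop, coe_range, Set.mem_Iio] at h1 hi hj
      omega
  simpa using this

theorem mem_lvs {T : Finset Dy} (h : IsTr T) (S : Dy) :
    S ∈ lvs T ↔ S ∉ T ∧ ∀ B, B <:+ S → B ≠ S → B ∈ T := by
  unfold lvs
  split_ifs with h0
  · subst h0
    simp only [mem_singleton, notMem_empty, not_false_eq_true, true_and]
    constructor
    · rintro rfl B hB hne
      exact hne (List.suffix_nil.mp hB)
    · intro h1
      by_contra h2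
      exact h1 [] List.nil_suffix (Ne.symm h2)
  · simp only [mem_sdiff, mem_biUnion, mem_image, mem_univ, true_and]
    constructor
    · rintro ⟨⟨P, hP, d, rfl⟩, h1⟩
      exact ⟨h1, fun B hB hne => h P hP B ((List.suffix_cons_iff.mp hB).resolve_left hne)⟩
    · rintro ⟨h1, h2⟩
      refine ⟨?_, h1⟩
      match S, h1, h2 with
      | [], h1, _ => exact absurd (nil_mem h h0) h1
      | d :: P, _, h2 =>
        exact ⟨P, h2 P (List.suffix_cons d P) (List.cons_ne_self d P).symm, d, rfl⟩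

theorem cons_lvs {T : Finset Dy} (h : IsTr T) {P : Dy} (hP : P ∈ T) {d : Fin 2 × Fin 2}
    (hd : d :: P ∉ T) : d :: P ∈ lvs T :=
  (mem_lvs h _).mpr
    ⟨hd, fun B hB hne => h P hP B ((List.suffix_cons_iff.mp hB).resolve_left hne)⟩

theorem card_lvs {T : Finset Dy} (h : IsTr T) : (lvs T).card = 3 * T.card + 1 := by
  by_cases h0 : T = ∅
  · simp [lvs, h0]
  have h1 := card_ch T
  have h2 : (T.biUnion fun S => univ.image fun d : Fin 2 × Fin 2 => d :: S) =
      lvs T ∪ T.erase [] := by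
    ext A
    simp only [lvs, if_neg h0, mem_union, mem_sdiff, mem_biUnion, mem_image, mem_univ, true_and,
      mem_erase]
    constructor
    · rintro ⟨P, hP, d, rfl⟩
      by_cases h3 : d :: P ∈ T
      · exact .inr ⟨List.cons_ne_nil _ _, h3⟩
      · exact .inl ⟨⟨P, hP, d, rfl⟩, h3⟩
    · rintro (h3 | ⟨h3, h4⟩)
      · exact h3.1
      · match A, h3, h4 with
        | d :: P, _, h4 => exact ⟨P, h _ h4 P (List.suffix_cons d P), d, rfl⟩
  rw [h2, card_union_of_disjoint (disjoint_left.mpr fun A h3 h4 =>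
    ((mem_lvs h A).mp h3).1 (mem_of_mem_erase h4)), card_erase_of_mem (nil_mem h h0)] at h1
  have := card_pos.mpr (nonempty_iff_ne_empty.mpr h0)
  omega

theorem card_two {T : Finset Dy} (h : IsTr T) : 2 * T.card ≤ 3 * (two T).card := by
  by_cases h0 : T = ∅
  · simp [h0]
  have h1 : lvs T ⊆ T.biUnion fun P =>
      (univ.filter fun d : Fin 2 × Fin 2 => d :: P ∉ T).image fun d => d :: P := by
    intro S hS
    simp only [lvs, if_neg h0, mem_sdiff, mem_biUnion, mem_image, mem_univ, true_and] at hS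
    obtain ⟨⟨P, hP, d, rfl⟩, h2⟩ := hS
    exact mem_biUnion.mpr ⟨P, hP, mem_image.mpr ⟨d, by simpa using h2, rfl⟩⟩
  have h2 := (card_le_card h1).trans card_biUnion_le
  have h3 : ∀ P ∈ T, ((univ.filter fun d : Fin 2 × Fin 2 => d :: P ∉ T).image
      fun d => d :: P).card ≤ 1 + if P ∈ two T then 3 else 0 := fun P hP => by
    refine card_image_le.trans ?_
    split_ifs with h4
    · simpa using card_filter_le univ fun d : Fin 2 × Fin 2 => d :: P ∉ T
    · refine card_le_one.mpr fun d hd d' hd' => ?_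
      by_contra h5
      exact h4 (mem_filter.mpr ⟨hP, d, d', h5, (mem_filter.mp hd).2, (mem_filter.mp hd').2⟩)
  have h4 := h2.trans (sum_le_sum h3)
  have h5 : T ∩ two T = two T := inter_eq_right.mpr (filter_subset _ _)
  rw [sum_add_distrib, sum_ite_mem, h5, card_lvs h] at h4
  simp only [sum_const, smul_eq_mul] at h4
  omega

theorem mem_trees (n : ℕ) (T : Finset Dy) : T ∈ trees n ↔ IsTr T ∧ T.card = n := by
  simp only [trees, mem_filter, mem_powerset, and_iff_right_iff_imp]
  rintro ⟨h, rfl⟩ A hA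
  exact mem_biUnion.mpr ⟨_, mem_range.mpr (len_lt h hA), (mem_lev _ _).mpr rfl⟩

def enc : Dy → ℕ
  | [] => 0
  | d :: S => 4 * enc S + 1 + (2 * d.1 + d.2)

theorem enc_inj : Function.Injective enc := by
  intro A
  induction A with
  | nil =>
    intro B h
    match B, h with
    | [], _ => rfl
    | d :: S, h => simp only [enc] at h; omega
  | cons d A ih =>
    intro B h
    match B, h with
    | [], h => simp only [enc] at h; omega
    | e :: S, h =>
      simp only [enc] at h
      have := d.1.2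
      have := d.2.2
      have := e.1.2
      have := e.2.2
      rw [ih (by omega : enc A = enc S), Prod.ext (Fin.ext (by omega : (d.1 : ℕ) = e.1))
        (Fin.ext (by omega : (d.2 : ℕ) = e.2))]

theorem ex_enum (n : ℕ) (T : Finset Dy) : ∃ f : Fin n → Dy, T.card = n →
    (∀ i, f i ∈ T) ∧ (∀ A ∈ T, ∃ i, f i = A) ∧ ∀ i j, enc (f i) ≤ enc (f j) ↔ i ≤ j := by
  by_cases h : T.card = n
  · let _ : LinearOrder Dy := LinearOrder.lift' enc enc_inj
    refine ⟨T.orderEmbOfFin h, fun _ => ⟨orderEmbOfFin_mem T h, fun A hA => ?_, fun i j =>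
      (T.orderEmbOfFin h).le_iff_le⟩⟩
    have : A ∈ Set.range (T.orderEmbOfFin h) := by rwa [range_orderEmbOfFin]
    exact this
  · exact ⟨fun _ => [], fun h' => absurd h' h⟩

theorem enum_le {n : ℕ} {T T' : Finset Dy} (h : IsTr T) (h' : IsTr T') {f g : Fin n → Dy}
    (f1 : ∀ i, f i ∈ T) (f2 : ∀ A ∈ T, ∃ i, f i = A) (f3 : ∀ i j, enc (f i) ≤ enc (f j) ↔ i ≤ j)
    (g1 : ∀ i, g i ∈ T') (g2 : ∀ A ∈ T', ∃ i, g i = A)
    (g3 : ∀ i j, enc (g i) ≤ enc (g j) ↔ i ≤ j) (e : ∀ i d, d :: g i ∈ T' → d :: f i ∈ T)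
    (i : Fin n) (ih : ∀ j < i, f j = g j) : enc (f i) ≤ enc (g i) := by
  have h1 : g i ∈ T := by
    cases hg : g i with
    | nil => exact h _ (f1 i) [] List.nil_suffix
    | cons d P =>
      have h2 := g1 i
      rw [hg] at h2
      obtain ⟨j, rfl⟩ := g2 P (h' _ h2 P (List.suffix_cons d P))
      have h3 : j < i := not_le.mp fun h3 => by
        have := (g3 i j).mpr h3
        rw [hg, enc] at this
        omega
      rw [← ih j h3]
      exact e j d h2
  obtain ⟨k, hk⟩ := f2 _ h1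
  rw [← hk, f3]
  by_contra h2
  rw [ih k (not_le.mp h2)] at hk
  exact h2 ((g3 i k).mp (by rw [hk]))

theorem card_trees (n : ℕ) : (trees n).card ≤ 16 ^ n := by
  choose f hf using ex_enum n
  have := card_le_card_of_injOn (s := trees n) (t := univ)
    (fun T (i : Fin n) => univ.filter fun d : Fin 2 × Fin 2 => d :: f T i ∈ T)
    (fun _ _ => mem_univ _) fun T hT T' hT' e => by
      obtain ⟨h, hc⟩ := (mem_trees n T).mp hT
      obtain ⟨h', hc'⟩ := (mem_trees n T').mp hT'
      obtain ⟨f1, f2, f3⟩ := hf T hc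
      obtain ⟨g1, g2, g3⟩ := hf T' hc'
      have e1 : ∀ i d, d :: f T i ∈ T ↔ d :: f T' i ∈ T' := fun i d => by
        simpa using Finset.ext_iff.mp (congrFun e i) d
      have e2 : ∀ i, f T i = f T' i := fun i => by
        induction i using WellFoundedLT.induction with
        | ind i ih =>
          exact enc_inj (le_antisymm
            (enum_le h h' f1 f2 f3 g1 g2 g3 (fun j d => (e1 j d).mpr) i ih)
            (enum_le h' h g1 g2 g3 f1 f2 f3 (fun j d => (e1 j d).mp) i
              fun j hj => (ih j hj).symm))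
      ext A
      constructor
      · intro hA
        obtain ⟨i, rfl⟩ := f2 A hA
        exact e2 i ▸ g1 i
      · intro hA
        obtain ⟨i, rfl⟩ := g2 A hA
        exact e2 i ▸ f1 i
  simpa using this

theorem pr_spec {T : Finset Dy} (h : IsTr T) {P : Dy} (hP : P ∈ two T) :
    P ∈ T ∧ (pr T P).1 ≠ (pr T P).2 ∧ (pr T P).1 :: P ∈ lvs T ∧ (pr T P).2 :: P ∈ lvs T := by
  obtain ⟨h1, d, d', h2⟩ := mem_filter.mp hP
  have h3 := Classical.epsilon_spec (p := fun dd : (Fin 2 × Fin 2) × (Fin 2 × Fin 2) =>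
    dd.1 ≠ dd.2 ∧ dd.1 :: P ∉ T ∧ dd.2 :: P ∉ T) ⟨(d, d'), h2⟩
  exact ⟨h1, h3.1, cons_lvs h h1 h3.2.1, cons_lvs h h1 h3.2.2⟩

theorem ex_lvs {T : Finset Dy} (h : IsTr T) (W : Dy) (hW : W ∉ T) : ∃ S ∈ lvs T, S <:+ W := by
  induction W with
  | nil =>
    exact ⟨[], (mem_lvs h _).mpr ⟨hW, fun B hB hne => absurd (List.suffix_nil.mp hB) hne⟩,
      List.suffix_rfl⟩
  | cons d P ih =>
    by_cases hP : P ∈ T
    · exact ⟨_, cons_lvs h hP hW, List.suffix_rfl⟩
    · obtain ⟨S, h1, h2⟩ := ih hP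
      exact ⟨S, h1, h2.trans (List.suffix_cons d P)⟩

theorem hasTr_iff (x : Dy → ℝ) {T : Finset Dy} (h : IsTr T) :
    HasTr x T ↔ (∀ A ∈ T, 0 < x A) ∧ ∀ S ∈ lvs T, x S ≤ 0 := by
  constructor
  · intro h1
    refine ⟨fun A hA => (h1 A).mp hA A List.suffix_rfl, fun S hS => not_lt.mp fun h2 => ?_⟩
    obtain ⟨h3, h4⟩ := (mem_lvs h S).mp hS
    refine h3 ((h1 S).mpr fun B hB => ?_)
    by_cases h5 : B = S
    · rwa [h5]
    · exact (h1 B).mp (h4 B hB h5) B List.suffix_rfl
  · rintro ⟨h1, h2⟩ A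
    refine ⟨fun hA B hB => h1 B (h A hA B hB), fun hA => by_contra fun h3 => ?_⟩
    obtain ⟨S, h4, h5⟩ := ex_lvs h A h3
    exact (hA S h5).not_ge (h2 S h4)

theorem int_suf {x : Dy → ℝ} {A B : Dy} (h : IntN x A) (hB : B <:+ A) : IntN x B :=
  fun C hC => h C (hC.trans hB)

theorem nB_eq (x : Dy → ℝ) : nB x = {A | IntN x A}.encard := by
  rw [← ENNReal.tsum_set_one, _root_.tsum_subtype _ fun _ => (1 : ℝ≥0∞)]
  refine tsum_congr fun A => ?_
  simp [ind, Set.indicator_apply]

theorem fin_iff (x : Dy → ℝ) : nB x ≠ ∞ ↔ {A | IntN x A}.Finite := by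
  rw [nB_eq, ← Set.encard_ne_top_iff]
  simp

theorem has_tr {x : Dy → ℝ} (h : nB x ≠ ∞) : HasTr x (tr x) := fun A => by
  simp [tr, (fin_iff x).mp h]

theorem tr_top {x : Dy → ℝ} (h : nB x = ∞) : tr x = ∅ :=
  dif_neg fun h' => (fin_iff x).mpr h' h

theorem has_is {x : Dy → ℝ} {T : Finset Dy} (h : HasTr x T) : IsTr T :=
  fun A hA B hB => (h B).mpr (int_suf ((h A).mp hA) hB)

theorem has_spec {x : Dy → ℝ} {T : Finset Dy} (h : HasTr x T) :
    IsTr T ∧ tr x = T ∧ nB x = T.card ∧ ∀ S, Leaf x S ↔ S ∈ lvs T := by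
  have h1 : {A | IntN x A} = ↑T := Set.ext fun A => (h A).symm
  have h2 : nB x = T.card := by rw [nB_eq, h1, Set.encard_coe_eq_coe_finsetCard]; rfl
  refine ⟨has_is h, Finset.ext fun A => ?_, h2, fun S => ⟨fun hS => ?_, fun hS => ?_⟩⟩
  · rw [has_tr (h2 ▸ ENNReal.natCast_ne_top _) A, h A]
  · refine (mem_lvs (has_is h) S).mpr ⟨fun h3 =>
      ((h S).mp h3 S List.suffix_rfl).not_ge hS.1, fun B hB hne => (h B).mpr fun C hC => ?_⟩
    refine hS.2 C (hC.trans hB) ?_
    rintro rfl
    exact hne (hB.sublist.antisymm hC.sublist)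
  · exact ⟨((hasTr_iff x (has_is h)).mp h).2 S hS, fun B hB hne =>
      (h B).mp (((mem_lvs (has_is h) S).mp hS).2 B hB hne) B List.suffix_rfl⟩

theorem is_tr (x : Dy → ℝ) : IsTr (tr x) := by
  by_cases h : nB x = ∞
  · simp [tr_top h, IsTr]
  · exact has_is (has_tr h)

theorem ind_le {p q : Prop} (h : p → q) : ind p ≤ ind q := by
  unfold ind
  split_ifs with h1 h2
  exacts [le_rfl, absurd (h h1) h2, zero_le, le_rfl]

theorem int_app (x : Dy → ℝ) (A B : Dy) : IntN x (B ++ A) ↔ IntN x A ∧ IntN (sub x A) B := by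
  refine ⟨fun h => ⟨int_suf h (List.suffix_append B A), fun C hC => h _ ?_⟩, ?_⟩
  · obtain ⟨D, rfl⟩ := hC
    exact ⟨D, (List.append_assoc _ _ _).symm⟩
  · rintro ⟨h1, h2⟩
    induction B with
    | nil => exact h1
    | cons d B ih =>
      intro C hC
      rcases List.suffix_cons_iff.mp hC with rfl | h3
      · exact h2 _ List.suffix_rfl
      · exact ih (int_suf h2 (List.suffix_cons d B)) C h3

theorem app_inj (A : Dy) : Function.Injective fun B : Dy => B ++ A :=
  List.append_left_injective A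

theorem nB_sub {x : Dy → ℝ} {A : Dy} (h : IntN x A) : nB (sub x A) ≤ nB x :=
  (ENNReal.tsum_le_tsum fun B => ind_le fun hB => (int_app x A B).mpr ⟨h, hB⟩).trans
    (ENNReal.tsum_comp_le_tsum_of_injective (app_inj A) fun C => ind (IntN x C))

theorem tr_sub {x : Dy → ℝ} {A : Dy} (h0 : nB x ≠ ∞) (h : IntN x A) (B : Dy) :
    B ∈ tr (sub x A) ↔ B ++ A ∈ tr x := by
  rw [has_tr h0, has_tr (ne_top_of_le_ne_top h0 (nB_sub h)), int_app, and_iff_right h]

theorem SR_sub (F : (Dy → ℝ) → ℝ) {x : Dy → ℝ} (A : Dy) (h0 : nB x ≠ ∞) :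
    SR F x A = indR (IntN x A) * SR F (sub x A) [] := by
  unfold indR SR
  split_ifs with h
  · rw [one_mul]
    refine (sum_bij (fun B _ => B ++ A) (fun B hB => ?_) (fun B _ C _ e => app_inj A e)
      (fun C hC => ?_) fun B _ => ?_).symm
    · exact mem_filter.mpr ⟨(tr_sub h0 h B).mp (mem_filter.mp hB).1, List.suffix_append B A⟩
    · obtain ⟨h1, B, rfl⟩ := mem_filter.mp hC
      exact ⟨B, mem_filter.mpr ⟨(tr_sub h0 h B).mpr h1, List.nil_suffix⟩, rfl⟩
    · congr 1
      ext S
      simp [sub]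
  · rw [zero_mul]
    refine sum_eq_zero fun C hC => absurd ?_ h
    exact int_suf ((has_tr h0 C).mp (mem_filter.mp hC).1) (mem_filter.mp hC).2

theorem drop_lev {k : ℕ} {A : Dy} (h : k ≤ A.length) : A.drop (A.length - k) ∈ lev k := by
  rw [mem_lev, List.length_drop]
  omega

theorem nB_le (x : Dy → ℝ) (k : ℕ) :
    nB x ≤ ind (0 < x []) * 4 ^ k + ∑ T ∈ lev k, nB (sub x T) := by
  obtain ⟨L, hL⟩ : ∃ L, L = (range k).biUnion lev := ⟨_, rfl⟩
  have h1 : ∀ A, ind (IntN x A) ≤ (if A ∈ L then ind (0 < x []) else 0) +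
      ∑ T ∈ lev k, ind (T <:+ A ∧ IntN x A) := fun A => by
    by_cases h : A.length < k
    · rw [if_pos (hL ▸ mem_biUnion.mpr ⟨_, mem_range.mpr h, (mem_lev _ _).mpr rfl⟩)]
      exact (ind_le fun h2 => h2 [] List.nil_suffix).trans le_self_add
    · refine le_add_left ((ind_le fun h2 => ⟨List.drop_suffix _ A, h2⟩).trans
        (single_le_sum (f := fun T => ind (T <:+ A ∧ IntN x A)) (fun _ _ => zero_le)
          (drop_lev (not_lt.mp h))))
  have h2 : L.card ≤ 4 ^ k := by
    rw [hL]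
    refine card_biUnion_le.trans ?_
    simp only [card_lev]
    clear hL h1
    induction k with
    | zero => simp
    | succ k ih => rw [sum_range_succ, pow_succ]; omega
  refine (ENNReal.tsum_le_tsum h1).trans ?_
  rw [ENNReal.tsum_add, Summable.tsum_finsetSum fun _ _ => ENNReal.summable,
    tsum_eq_sum (s := L) fun A hA => if_neg hA]
  gcongr with T hT
  · rw [sum_ite_of_true fun _ h => h, sum_const, nsmul_eq_mul, mul_comm]
    gcongr
    exact_mod_cast h2
  · rw [← (app_inj T).tsum_eq]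
    · exact ENNReal.tsum_le_tsum fun B => ind_le fun h => ((int_app x T B).mp h.2).2
    · intro A hA
      by_contra h
      exact hA (if_neg fun h3 => h h3.1)

theorem SR_lev (F : (Dy → ℝ) → ℝ) (x : Dy → ℝ) (k : ℕ) : SR F x [] =
    ∑ A ∈ (tr x).filter (fun A => A.length < k), F (sub x A) + ∑ T ∈ lev k, SR F x T := by
  simp only [SR, sum_filter]
  rw [sum_comm, ← sum_add_distrib]
  refine sum_congr rfl fun A _ => ?_
  rw [if_pos List.nil_suffix]
  split_ifs with h
  · rw [sum_eq_zero fun T hT => if_neg fun h2 => ?_, add_zero]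
    have := h2.length_le
    rw [mem_lev] at hT
    omega
  · rw [zero_add, sum_eq_single_of_mem _ (drop_lev (not_lt.mp h)) fun T hT hne =>
      if_neg fun h2 => hne ?_, if_pos (List.drop_suffix _ A)]
    rw [← (mem_lev _ _).mp hT]
    exact List.suffix_iff_eq_drop.mp h2

end T1

open T1 in
theorem blk_T1 : St_T1 :=
  ⟨mem_lev, card_lev, fun _ h => ⟨card_lvs h, card_two h⟩, mem_trees, card_trees,
    fun _ h _ hA => len_lt h hA, fun _ h _ hP => pr_spec h hP, fun _ h => mem_lvs h,
    fun _ h S hS _ hS' e => by_contra fun hne =>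
      ((mem_lvs h S).mp hS).1 (((mem_lvs h _).mp hS').2 S e hne),
    fun _ h => ex_lvs h, fun x _ h => hasTr_iff x h, fun _ _ => has_spec, fun _ => has_tr,
    fun _ => tr_top, is_tr,
    fun _ _ h => ENNReal.tsum_le_tsum fun _ => ind_le fun h1 B hB => (h1 B hB).trans_le (h B),
    int_app, fun _ _ => nB_sub, fun _ _ => tr_sub, fun F _ A => SR_sub F A, nB_le,
    fun F x k _ => SR_lev F x k⟩

end

end Pool.Agent.Lib.APPS
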