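import Pool.Agent.Lib.APPS.Blue2
import Pool.Agent.Lib.APPS.B_GEO1

/-!
Block U, helpers: resampling along an orthonormal family.
-/

namespace Pool.Agent.Lib.APPS

open MeasureTheory ProbabilityTheory Filter Topology Set Metric
open scoped NNReal ENNReal RealInnerProductSpace Classical

noncomputable section

namespace U

theorem ind_pos {p : Prop} (h : p) : ind p = 1 := by simp [ind, h]

theorem ind_neg {p : Prop} (h : ¬p) : ind p = 0 := by simp [ind, h]

theorem ind_congr {p q : Prop} (h : p ↔ q) : ind p = ind q := by rw [propext h]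

theorem ind_and (p q : Prop) : ind (p ∧ q) = ind p * ind q := by
  by_cases hp : p <;> by_cases hq : q <;> simp [ind, hp, hq]

theorem ind_le_one (p : Prop) : ind p ≤ 1 := by
  by_cases hp : p <;> simp [ind, hp]

theorem meas_ind {α : Type*} [MeasurableSpace α] {p : α → Prop} (h : Measurable p) :
    Measurable fun a => ind (p a) :=
  Measurable.ite (measurableSet_setOfPred.2 h) measurable_const measurable_const

theorem lint_ind {α : Type*} [MeasurableSpace α] (μ : Measure α) {p : α → Prop}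
    (h : Measurable p) : ∫⁻ a, ind (p a) ∂μ = μ {a | p a} := by
  rw [← lintegral_indicator_one (measurableSet_setOfPred.2 h)]
  refine lintegral_congr fun a => ?_
  by_cases hp : p a <;> simp [ind, hp]

/-- replacement of the coordinates along `a` -/
def Rs {I : Type} [Fintype I] (a : I → HH) (ω : Om) (ξ : I → ℝ) : Om :=
  ω + ∑ i, (ξ i - ω (a i)) • dv (a i)

/-- the standard Gaussian product measure -/
def NI (I : Type) [Fintype I] : Measure (I → ℝ) := Measure.pi fun _ : I => gaussianReal 0 1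

instance (I : Type) [Fintype I] : IsProbabilityMeasure (NI I) := by
  unfold NI; infer_instance

variable {I : Type} [Fintype I] {a : I → HH}

theorem Rs_apply (ω : Om) (ξ : I → ℝ) (v : HH) :
    Rs a ω ξ v = ω v + ∑ i, (ξ i - ω (a i)) * ⟪a i, v⟫ := by
  simp [Rs, LinearMap.sum_apply]

theorem Rs_a (ha : Orthonormal ℝ a) (ω : Om) (ξ : I → ℝ) (j : I) : Rs a ω ξ (a j) = ξ j := by
  rw [Rs_apply, Finset.sum_eq_single j]
  · rw [real_inner_self_eq_norm_sq, ha.1 j]; ring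
  · intro i _ hi
    rw [ha.2 hi, mul_zero]
  · simp

theorem Rs_Rs (ha : Orthonormal ℝ a) (ω : Om) (ξ ξ' : I → ℝ) :
    Rs a (Rs a ω ξ) ξ' = Rs a ω ξ' := by
  ext v
  rw [Rs_apply, Rs_apply, Rs_apply]
  simp only [Rs_a ha]
  rw [add_assoc, ← Finset.sum_add_distrib]
  congr 1
  exact Finset.sum_congr rfl fun i _ => by ring

theorem meas_Rs : Measurable fun p : Om × (I → ℝ) => Rs a p.1 p.2 := by
  rw [meas_Om]
  intro v
  simp only [Rs_apply]
  refine ((meas_ev v).comp measurable_fst).add (Finset.measurable_sum _ fun i _ => ?_)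
  exact (((measurable_pi_apply i).comp measurable_snd).sub
    ((meas_ev _).comp measurable_fst)).mul_const _

theorem meas_Rs' (ω : Om) : Measurable fun ξ : I → ℝ => Rs a ω ξ :=
  meas_Rs.comp measurable_prodMk_left

theorem resample (hG2 : St_G2) (ha : Orthonormal ℝ a) (G H W : Om → Prop) (Y : Om → ℝ≥0∞)
    (hG : Measurable G) (hH : Measurable H) (hW : Measurable W) (hY : Measurable Y)
    (inv : ∀ ω ξ, G (Rs a ω ξ) ↔ G ω) (c : ℝ≥0∞) (hc0 : c ≠ ∞)
    (hc : ∀ ω, G ω → NI I {ξ | H (Rs a ω ξ)} ≤ c * NI I {ξ | H (Rs a ω ξ) ∧ W (Rs a ω ξ)}) :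
    ∃ Y0 : Om → ℝ≥0∞, Measurable Y0 ∧
      (∀ ω b, (∀ ξ, H (Rs a ω ξ) → Y (Rs a ω ξ) ≤ b) → Y0 ω ≤ b) ∧
      ∫⁻ ω, ind (G ω ∧ H ω) * Y ω ∂gm ≤ c * ∫⁻ ω, ind (G ω ∧ H ω ∧ W ω) * Y0 ω ∂gm := by
  let A : Om → ℝ≥0∞ := fun ω => ∫⁻ ξ, ind (H (Rs a ω ξ)) * Y (Rs a ω ξ) ∂NI I
  let p : Om → ℝ≥0∞ := fun ω => ∫⁻ ξ, ind (H (Rs a ω ξ)) ∂NI I
  have hA : Measurable A :=
    Measurable.lintegral_prod_right' (f := fun q : Om × (I → ℝ) =>
      ind (H (Rs a q.1 q.2)) * Y (Rs a q.1 q.2)) (((meas_ind hH).mul hY).comp meas_Rs)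
  have hp : Measurable p :=
    Measurable.lintegral_prod_right' (f := fun q : Om × (I → ℝ) =>
      ind (H (Rs a q.1 q.2))) ((meas_ind hH).comp meas_Rs)
  have hpe : ∀ ω, p ω = NI I {ξ | H (Rs a ω ξ)} := fun ω =>
    lint_ind _ (hH.comp (meas_Rs' ω))
  have hAb : ∀ ω b, (∀ ξ, H (Rs a ω ξ) → Y (Rs a ω ξ) ≤ b) → A ω ≤ b * p ω := by
    intro ω b hb
    have hm : Measurable fun ξ => ind (H (Rs a ω ξ)) := (meas_ind hH).comp (meas_Rs' ω)
    refine le_of_le_of_eq ?_ (lintegral_const_mul b hm)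
    refine lintegral_mono fun ξ => ?_
    by_cases h : H (Rs a ω ξ)
    · simp only [ind_pos h, one_mul, mul_one]
      exact hb ξ h
    · simp [ind_neg h]
  refine ⟨fun ω => A ω / p ω, hA.div hp, fun ω b hb => ENNReal.div_le_of_le_mul (hAb ω b hb), ?_⟩
  have m1 : Measurable fun ω => ind (G ω ∧ H ω) * Y ω := (meas_ind (hG.and hH)).mul hY
  have m2 : Measurable fun ω => ind (G ω ∧ H ω ∧ W ω) * (A ω / p ω) :=
    (meas_ind (hG.and (hH.and hW))).mul (hA.div hp)
  change _ ≤ c * ∫⁻ ω, ind (G ω ∧ H ω ∧ W ω) * (A ω / p ω) ∂gm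
  rw [hG2.2.2.1 I a ha _ m1, hG2.2.2.1 I a ha _ m2, ← lintegral_const_mul' _ _ hc0]
  refine lintegral_mono fun ω => ?_
  change ∫⁻ ξ, ind (G (Rs a ω ξ) ∧ H (Rs a ω ξ)) * Y (Rs a ω ξ) ∂NI I ≤
    c * ∫⁻ ξ, ind (G (Rs a ω ξ) ∧ H (Rs a ω ξ) ∧ W (Rs a ω ξ)) *
      (A (Rs a ω ξ) / p (Rs a ω ξ)) ∂NI I
  have e1 : ∀ ξ, A (Rs a ω ξ) = A ω := fun ξ => by simp only [A, Rs_Rs ha]
  have e2 : ∀ ξ, p (Rs a ω ξ) = p ω := fun ξ => by simp only [p, Rs_Rs ha]
  simp only [e1, e2, inv]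
  by_cases hg : G ω
  · simp only [hg, true_and]
    have m3 : Measurable fun ξ => H (Rs a ω ξ) ∧ W (Rs a ω ξ) := (hH.and hW).comp (meas_Rs' ω)
    rw [lintegral_mul_const _ (meas_ind m3), lint_ind _ m3, ← mul_assoc]
    have h1 : A ω ≤ p ω * (A ω / p ω) := by
      by_cases h0 : p ω = 0
      · have := hAb ω ⊤ fun _ _ => le_top
        rw [h0, mul_zero] at this
        exact this.trans zero_le
      · rw [ENNReal.mul_div_cancel h0 (by rw [hpe]; exact measure_ne_top _ _)]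
    refine h1.trans (mul_le_mul_left ?_ _)
    rw [hpe]
    exact hc ω hg
  · simp [hg, ind]

theorem gauss1 (L : ℝ) : ∃ m > 0, ∀ lo hi μ : ℝ, -L ≤ lo → hi ≤ L → 0 ≤ μ →
    (gaussianReal 0 1).real (Icc lo (hi - μ)) ≤
      Real.exp (-(m * μ)) * (gaussianReal 0 1).real (Icc lo hi) := by
  refine ⟨gaussianPDFReal 0 1 L, gaussianPDFReal_pos _ _ _ one_ne_zero, fun lo hi μ h1 h2 h3 => ?_⟩
  set m := gaussianPDFReal 0 1 L with hm
  have hm0 : 0 < m := gaussianPDFReal_pos _ _ _ one_ne_zero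
  by_cases h : hi - μ < lo
  · rw [Icc_eq_empty_of_lt h, measureReal_empty]
    positivity
  push Not at h
  have hb : m * μ ≤ (gaussianReal 0 1).real (Ioc (hi - μ) hi) := by
    rw [measureReal_def, ← ENNReal.ofReal_le_iff_le_toReal (measure_ne_top _ _),
      gaussianReal_apply _ one_ne_zero]
    calc ENNReal.ofReal (m * μ) = ∫⁻ _ in Ioc (hi - μ) hi, ENNReal.ofReal m := by
          rw [setLIntegral_const, Real.volume_Ioc, ENNReal.ofReal_mul hm0.le]
          congr 2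
          ring
      _ ≤ _ := by
          refine setLIntegral_mono' measurableSet_Ioc fun x hx => ?_
          refine ENNReal.ofReal_le_ofReal ?_
          rw [hm, gaussianPDFReal, gaussianPDFReal]
          refine mul_le_mul_of_nonneg_left (Real.exp_le_exp.2 ?_) (by positivity)
          have : x ^ 2 ≤ L ^ 2 := sq_le_sq' (by linarith [hx.1]) (by linarith [hx.2])
          simp only [sub_zero, NNReal.coe_one, mul_one]
          linarith
  have hu : (gaussianReal 0 1).real (Icc lo (hi - μ)) + (gaussianReal 0 1).real (Ioc (hi - μ) hi) =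
      (gaussianReal 0 1).real (Icc lo hi) := by
    rw [← measureReal_union _ measurableSet_Ioc, Icc_union_Ioc_eq_Icc h (by linarith)]
    exact Set.disjoint_left.2 fun x hx hx' => absurd hx.2 (not_le.2 hx'.1)
  have h4 : (gaussianReal 0 1).real (Icc lo hi) ≤ 1 := measureReal_le_one
  have h5 : 0 ≤ (gaussianReal 0 1).real (Icc lo hi) := measureReal_nonneg
  have h6 := Real.add_one_le_exp (-(m * μ))
  have h7 : 0 ≤ m * μ := by positivity
  nlinarith

theorem gaussP (L θ : ℝ) (hθ : 0 < θ) : ∃ c : ℝ, 0 ≤ c ∧ ∀ (I : Type) [Fintype I]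
    (lo hi : I → ℝ) (μ : ℝ) (E E' : Set (I → ℝ)), (∀ i, -L ≤ lo i ∧ hi i ≤ L) → 0 ≤ μ →
    θ ≤ μ * Fintype.card I → E = Set.pi univ (fun i => Icc (lo i) (hi i)) →
    E ⊆ E' ∪ Set.pi univ (fun i => Icc (lo i) (hi i - μ)) →
    NI I E ≤ ENNReal.ofReal c * NI I E' := by
  obtain ⟨m, hm, h⟩ := gauss1 L
  have hr : Real.exp (-(m * θ)) < 1 := Real.exp_lt_one_iff.2 (by nlinarith)
  have hr' : 0 < 1 - Real.exp (-(m * θ)) := by linarith
  refine ⟨(1 - Real.exp (-(m * θ)))⁻¹, by positivity, fun I _ lo hi μ E E' hb hμ hc hE hs => ?_⟩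
  have hpi : ∀ s : I → Set ℝ,
      (NI I).real (Set.pi univ s) = ∏ i, (gaussianReal 0 1).real (s i) := fun s => by
    rw [measureReal_def, NI, Measure.pi_pi, ENNReal.toReal_prod]
    rfl
  have h1 : (NI I).real (Set.pi univ fun i => Icc (lo i) (hi i - μ)) ≤
      Real.exp (-(m * θ)) * (NI I).real E := by
    rw [hE, hpi, hpi]
    refine (Finset.prod_le_prod (fun i _ => measureReal_nonneg)
      fun i _ => h (lo i) (hi i) μ (hb i).1 (hb i).2 hμ).trans ?_
    rw [Finset.prod_mul_distrib, Finset.prod_const, Finset.card_univ, ← Real.exp_nat_mul]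
    refine mul_le_mul_of_nonneg_right (Real.exp_le_exp.2 ?_)
      (Finset.prod_nonneg fun i _ => measureReal_nonneg)
    nlinarith
  have h2 := (measureReal_mono hs (measure_ne_top (NI I) _)).trans (measureReal_union_le _ _)
  rw [← ofReal_measureReal (measure_ne_top (NI I) E), ← ofReal_measureReal (measure_ne_top (NI I) E'),
    ← ENNReal.ofReal_mul (by positivity)]
  refine ENNReal.ofReal_le_ofReal ?_
  rw [← div_eq_inv_mul, le_div_iff₀ hr']
  nlinarith

/-- the two leaves attached to a node with two leaf children -/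
def l1 (T : Finset Dy) (P : Dy) : Dy := (pr T P).1 :: P

def l2' (T : Finset Dy) (P : Dy) : Dy := (pr T P).2 :: P

theorem geo (hT1 : St_T1) (hB : St_BMP) : ∃ ρ > 0, ∀ M : Model, box [] ⊆ M.O → ∀ T, IsTr T →
    (∀ P ∈ two T, ∀ A ∈ T, ⟪M.vp T P, M.eS A⟫ = 0) ∧
    (∀ P ∈ two T, ∀ P' ∈ two T, ⟪M.vp T P, M.eS (l1 T P')⟫ = (if P = P' then bb else 0) ∧
      ⟪M.vp T P, M.eS (l2' T P')⟫ = (if P = P' then -bb else 0) ∧
      ⟪M.vp T P, M.vp T P'⟫ = if P = P' then ρ ^ 2 else 0) ∧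
    ∀ P ∈ two T, ∀ S ∈ lvs T, S ≠ l1 T P → S ≠ l2' T P → ⟪M.vp T P, M.eS S⟫ = 0 := by
  obtain ⟨-, E, C, hE, -, -, hM⟩ := hB
  refine ⟨Real.sqrt (2 * E), by positivity, fun M hO T hT => ?_⟩
  obtain ⟨-, hn, hinc, -, hanc, -⟩ := hM M
  have hG := blk_GEO1 hT1
  have hbox : ∀ S, box S ⊆ M.O := fun S =>
    ((hG.2.2.2.2.1 S []).2 List.nil_suffix).trans hO
  obtain ⟨-, -, -, -, -, -, htwo, hlv, hlv2, -⟩ := hT1
  have hLe : ∀ S ∈ lvs T, ∀ S' ∈ lvs T, ⟪M.ub S, M.eS S'⟫ = (if S = S' then bb else 0) ∧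
      ⟪M.ub S, M.ub S'⟫ = if S = S' then E else 0 := by
    intro S hS S' hS'
    split_ifs with h
    · subst h
      rw [hanc S S (hbox S) List.suffix_rfl, div_self (hG.1 S).1.ne', real_inner_self_eq_norm_sq,
        hn]
      simp
    · have := hinc S S' (fun e => h (hlv2 T hT S hS S' hS' e))
        (fun e => h (hlv2 T hT S' hS' S hS e).symm)
      exact ⟨this.2 (hbox S), this.1⟩
  refine ⟨fun P hP A hA => ?_, fun P hP P' hP' => ?_, fun P hP S hS h1 h2 => ?_⟩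
  · obtain ⟨-, -, h1, h2⟩ := htwo T hT P hP
    have key : ∀ d, d :: P ∈ lvs T → ⟪M.ub (d :: P), M.eS A⟫ =
        if A <:+ P then bb * ((1 / 2 : ℝ) ^ (P.length + 1) / side A) ^ 2 else 0 := by
      intro d hd
      have hn := ((hlv T hT _).1 hd).1
      split_ifs with h
      · rw [hanc _ A (hbox _) (h.trans (List.suffix_cons d P))]
        rfl
      · refine (hinc _ A (fun e => hn (hT A hA _ e)) fun e => ?_).2 (hbox _)
        rcases List.suffix_cons_iff.1 e with e | e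
        exacts [hn (e ▸ hA), h e]
    rw [Model.vp, inner_sub_left, key _ h1, key _ h2, sub_self]
  · obtain ⟨-, hne, h1, h2⟩ := htwo T hT P hP
    obtain ⟨-, hne', h1', h2'⟩ := htwo T hT P' hP'
    simp only [Model.vp, l1, l2', inner_sub_left, inner_sub_right, hLe _ h1 _ h1', hLe _ h1 _ h2',
      hLe _ h2 _ h1', hLe _ h2 _ h2', List.cons.injEq]
    by_cases e : P = P'
    · subst e
      rw [Real.sq_sqrt (by positivity)]
      simp [hne, hne.symm]
      ring
    · simp [e]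
  · obtain ⟨-, hne, a1, a2⟩ := htwo T hT P hP
    rw [Model.vp, inner_sub_left, (hLe _ a1 _ hS).1, (hLe _ a2 _ hS).1,
      if_neg fun e => h1 e.symm, if_neg fun e => h2 e.symm, sub_self]

end U

end

end Pool.Agent.Lib.APPS
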