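import Pool.Agent.Lib.APPS.Blue4

/-!
Deterministic lemmas for block VOL1.
-/

namespace Pool.Agent.Lib.APPS

open MeasureTheory ProbabilityTheory Filter Topology Set Metric
open scoped NNReal ENNReal CompactlySupported BoundedContinuousFunction RealInnerProductSpace
  Classical

noncomputable section

namespace VOL1

theorem rect_vol (a b c d : ℝ) :
    volume {z : ℂ | z.re ∈ Icc a b ∧ z.im ∈ Icc c d} =
      ENNReal.ofReal (b - a) * ENNReal.ofReal (d - c) := by
  have h : {z : ℂ | z.re ∈ Icc a b ∧ z.im ∈ Icc c d} =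
      Complex.measurableEquivRealProd ⁻¹' (Icc a b ×ˢ Icc c d) := by
    ext z; rfl
  rw [h, Complex.volume_preserving_equiv_real_prod.measure_preimage_equiv, Measure.volume_eq_prod,
    Measure.prod_prod, Real.volume_Icc, Real.volume_Icc]

theorem box_nil : box [] = {z : ℂ | z.re ∈ Icc (0 : ℝ) 1 ∧ z.im ∈ Icc (0 : ℝ) 1} := by
  simp [box, corner, side]

theorem vol_box_nil : volume (box []) = 1 := by
  rw [box_nil, rect_vol]; simp

theorem sq_sub {d0 : ℝ} (hd : 0 < d0) : sq d0 ⊆ box [] := by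
  rw [box_nil]
  rintro z ⟨⟨h1, h2⟩, h3, h4⟩
  exact ⟨⟨by linarith, by linarith⟩, by linarith, by linarith⟩

theorem meas_sq (d0 : ℝ) : MeasurableSet (sq d0) :=
  (Complex.measurable_re measurableSet_Icc).inter (Complex.measurable_im measurableSet_Icc)

theorem vol_strip {d0 : ℝ} (hd : 0 < d0) :
    volume (box [] \ sq d0) ≤ ENNReal.ofReal (4 * d0) := by
  have hsub : box [] \ sq d0 ⊆
      ({z : ℂ | z.re ∈ Icc 0 d0 ∧ z.im ∈ Icc (0 : ℝ) 1} ∪
        {z : ℂ | z.re ∈ Icc (1 - d0) 1 ∧ z.im ∈ Icc (0 : ℝ) 1}) ∪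
      ({z : ℂ | z.re ∈ Icc (0 : ℝ) 1 ∧ z.im ∈ Icc 0 d0} ∪
        {z : ℂ | z.re ∈ Icc (0 : ℝ) 1 ∧ z.im ∈ Icc (1 - d0) 1}) := by
    rw [box_nil]
    rintro z ⟨⟨h1, h2⟩, h3⟩
    simp only [sq, mem_ofPred_eq, mem_Icc, mem_union] at h1 h2 h3 ⊢
    by_contra hc
    push Not at hc h3
    obtain ⟨⟨a1, a2⟩, a3, a4⟩ := hc
    have b1 : d0 ≤ z.re := by
      by_contra h; push Not at h
      exact absurd (a1 ⟨h1.1, h.le⟩ h2.1) (not_lt.2 h2.2)
    have b2 : z.re ≤ 1 - d0 := by
      by_contra h; push Not at h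
      exact absurd (a2 ⟨h.le, h1.2⟩ h2.1) (not_lt.2 h2.2)
    have b3 : d0 ≤ z.im := by
      by_contra h; push Not at h
      exact absurd (a3 h1 h2.1) (not_lt.2 h.le)
    have b4 := h3 ⟨b1, b2⟩ b3
    exact absurd (a4 h1 b4.le) (not_lt.2 h2.2)
  refine (measure_mono hsub).trans ((measure_union_le _ _).trans ?_)
  refine (add_le_add (measure_union_le _ _) (measure_union_le _ _)).trans (le_of_eq ?_)
  simp only [rect_vol, sub_zero, ENNReal.ofReal_one, mul_one, one_mul, sub_sub_cancel]
  rw [← ENNReal.ofReal_add hd.le hd.le, ← ENNReal.ofReal_add (by linarith) (by linarith)]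
  congr 1; ring

theorem vol_sq {d0 : ℝ} (hd : 0 < d0) : volume (sq d0) ≤ 1 :=
  (measure_mono (sq_sub hd)).trans vol_box_nil.le

theorem min_exp_sub {Mx β a b : ℝ} (hM : 0 < Mx) (hβ : 0 < β) (hβ1 : β < 1) (hab : b ≤ a) :
    min Mx (Real.exp (β * a)) - min Mx (Real.exp (β * b)) ≤ Mx * min 1 (a - b) := by
  have hb := Real.exp_pos (β * b)
  have ha := Real.exp_pos (β * a)
  rw [mul_min_of_nonneg _ _ hM.le]
  refine le_min ?_ ?_
  · have := min_le_left Mx (Real.exp (β * a))
    have := lt_min hM hb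
    linarith
  · rcases le_total Mx (Real.exp (β * b)) with h | h
    · rw [min_eq_left h]
      have := min_le_left Mx (Real.exp (β * a))
      have := mul_nonneg hM.le (sub_nonneg.2 hab)
      linarith
    · rw [min_eq_right h]
      set m := min Mx (Real.exp (β * a)) with hm
      have hm1 : m ≤ Mx := min_le_left _ _
      have hm2 : m ≤ Real.exp (β * a) := min_le_right _ _
      have hm0 : 0 < m := lt_min hM ha
      have h1 : Real.exp (β * b) = Real.exp (β * a) * Real.exp (-(β * (a - b))) := by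
        rw [← Real.exp_add]; congr 1; ring
      have h2 := Real.add_one_le_exp (-(β * (a - b)))
      have h3 : m * Real.exp (-(β * (a - b))) ≤ Real.exp (β * b) := by
        rw [h1]; exact mul_le_mul_of_nonneg_right hm2 (Real.exp_pos _).le
      have h4 : m * (-(β * (a - b)) + 1) ≤ m * Real.exp (-(β * (a - b))) :=
        mul_le_mul_of_nonneg_left h2 hm0.le
      have h5 : β * (a - b) ≤ a - b := mul_le_of_le_one_left (sub_nonneg.2 hab) hβ1.le
      have h6 : m * (β * (a - b)) ≤ Mx * (a - b) :=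
        mul_le_mul hm1 h5 (mul_nonneg hβ.le (sub_nonneg.2 hab)) hM.le
      nlinarith

theorem min_exp_abs {Mx β : ℝ} (hM : 0 < Mx) (hβ : 0 < β) (hβ1 : β < 1) (a b : ℝ) :
    |min Mx (Real.exp (β * a)) - min Mx (Real.exp (β * b))| ≤ Mx * min 1 |a - b| := by
  have mono : ∀ a b : ℝ, b ≤ a → min Mx (Real.exp (β * b)) ≤ min Mx (Real.exp (β * a)) :=
    fun a b h => min_le_min le_rfl (Real.exp_le_exp.2 (mul_le_mul_of_nonneg_left h hβ.le))
  rcases le_total b a with h | h
  · rw [abs_of_nonneg (sub_nonneg.2 (mono a b h)), abs_of_nonneg (sub_nonneg.2 h)]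
    exact min_exp_sub hM hβ hβ1 h
  · rw [abs_sub_comm, abs_sub_comm a b, abs_of_nonneg (sub_nonneg.2 (mono b a h)),
      abs_of_nonneg (sub_nonneg.2 h)]
    exact min_exp_sub hM hβ hβ1 h

/-- truncated local volume -/
def uu (Mx β d0 : ℝ) (a : ℂ → ℝ) : ℝ := ∫ z in sq d0, min Mx (Real.exp (β * a z))

theorem uu_int {Mx β d0 : ℝ} (hM : 0 < Mx) (hd : 0 < d0) {a : ℂ → ℝ} (ha : Continuous a) :
    Integrable (fun z => min Mx (Real.exp (β * a z))) (volume.restrict (sq d0)) := by
  have : IsFiniteMeasure (volume.restrict (sq d0)) :=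
    ⟨by rw [Measure.restrict_apply_univ]; exact (vol_sq hd).trans_lt ENNReal.one_lt_top⟩
  refine (integrable_const Mx).mono' (by fun_prop) (ae_of_all _ fun z => ?_)
  rw [Real.norm_of_nonneg (lt_min hM (Real.exp_pos _)).le]
  exact min_le_left _ _

theorem uu_bd {Mx β d0 : ℝ} (hM : 0 < Mx) (hd : 0 < d0) {a : ℂ → ℝ} (ha : Continuous a) :
    0 ≤ uu Mx β d0 a ∧ uu Mx β d0 a ≤ Mx := by
  have : IsFiniteMeasure (volume.restrict (sq d0)) :=
    ⟨by rw [Measure.restrict_apply_univ]; exact (vol_sq hd).trans_lt ENNReal.one_lt_top⟩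
  refine ⟨integral_nonneg fun z => (lt_min hM (Real.exp_pos _)).le, ?_⟩
  refine (integral_mono (uu_int hM hd ha) (integrable_const Mx) fun z => min_le_left _ _).trans ?_
  rw [integral_const, smul_eq_mul]
  refine mul_le_of_le_one_left hM.le ?_
  rw [Measure.real, Measure.restrict_apply_univ]
  exact ENNReal.toReal_le_of_le_ofReal zero_le_one (by simpa using vol_sq hd)

theorem uu_sub {Mx β d0 : ℝ} (hM : 0 < Mx) (hβ : 0 < β) (hβ1 : β < 1) (hd : 0 < d0)
    {a b : ℂ → ℝ} (ha : Continuous a) (hb : Continuous b) :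
    |uu Mx β d0 a - uu Mx β d0 b| ≤
      Mx * (∫⁻ z in sq d0, ENNReal.ofReal (min 1 |a z - b z|)).toReal := by
  have : IsFiniteMeasure (volume.restrict (sq d0)) :=
    ⟨by rw [Measure.restrict_apply_univ]; exact (vol_sq hd).trans_lt ENNReal.one_lt_top⟩
  have h0 : ∀ z, 0 ≤ min 1 |a z - b z| := fun z => le_min zero_le_one (abs_nonneg _)
  have hi : Integrable (fun z => min 1 |a z - b z|) (volume.restrict (sq d0)) := by
    refine (integrable_const (1 : ℝ)).mono' (by fun_prop) (ae_of_all _ fun z => ?_)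
    rw [Real.norm_of_nonneg (h0 z)]
    exact min_le_left _ _
  rw [← integral_eq_lintegral_of_nonneg_ae (ae_of_all _ h0) hi.aestronglyMeasurable,
    ← integral_const_mul]
  unfold uu
  rw [← integral_sub (uu_int hM hd ha) (uu_int hM hd hb)]
  refine (abs_integral_le_integral_abs).trans (integral_mono
    ((uu_int hM hd ha).sub (uu_int hM hd hb)).abs (hi.const_mul _) fun z => ?_)
  exact min_exp_abs hM hβ hβ1 _ _

theorem uu_vol {Mx β d0 : ℝ} (hM : 0 < Mx) (hd : 0 < d0) {a : ℂ → ℝ} (ha : Continuous a)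
    (he : ∫⁻ z in box [], ENNReal.ofReal (Real.exp (β * a z) - Mx) ≠ ∞) :
    |(∫⁻ z in box [], eE (β * a z)).toReal - uu Mx β d0 a| ≤
      (∫⁻ z in box [], ENNReal.ofReal (Real.exp (β * a z) - Mx)).toReal + 4 * d0 * Mx := by
  have h0 : ∀ z, 0 ≤ min Mx (Real.exp (β * a z)) := fun z => (lt_min hM (Real.exp_pos _)).le
  have hu : ENNReal.ofReal (uu Mx β d0 a) =
      ∫⁻ z in sq d0, ENNReal.ofReal (min Mx (Real.exp (β * a z))) :=
    ofReal_integral_eq_lintegral_ofReal (uu_int hM hd ha) (ae_of_all _ h0)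
  have hu0 := (uu_bd (β := β) hM hd ha).1
  have h1 : ENNReal.ofReal (uu Mx β d0 a) ≤ ∫⁻ z in box [], eE (β * a z) := by
    rw [hu]
    refine (lintegral_mono fun z => ?_).trans (lintegral_mono_set (sq_sub hd))
    exact ENNReal.ofReal_le_ofReal (min_le_right _ _)
  have hm : Measurable fun z => ENNReal.ofReal (min Mx (Real.exp (β * a z))) := by
    have := ha.measurable
    fun_prop
  have h2 : ∫⁻ z in box [], eE (β * a z) ≤ ENNReal.ofReal (uu Mx β d0 a) +
      ENNReal.ofReal (4 * d0 * Mx) +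
      ∫⁻ z in box [], ENNReal.ofReal (Real.exp (β * a z) - Mx) := by
    calc ∫⁻ z in box [], eE (β * a z) ≤ ∫⁻ z in box [],
          (ENNReal.ofReal (min Mx (Real.exp (β * a z))) +
            ENNReal.ofReal (Real.exp (β * a z) - Mx)) := by
          refine lintegral_mono fun z => ?_
          rcases le_total Mx (Real.exp (β * a z)) with h | h
          · rw [min_eq_left h, ← ENNReal.ofReal_add hM.le (sub_nonneg.2 h)]
            unfold eE
            simp
          · rw [min_eq_right h]; exact le_self_add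
      _ = (∫⁻ z in box [], ENNReal.ofReal (min Mx (Real.exp (β * a z)))) +
            ∫⁻ z in box [], ENNReal.ofReal (Real.exp (β * a z) - Mx) := lintegral_add_left hm _
      _ ≤ _ := by
          refine add_le_add ?_ le_rfl
          rw [hu]
          calc ∫⁻ z in box [], ENNReal.ofReal (min Mx (Real.exp (β * a z)))
              ≤ ∫⁻ z in sq d0 ∪ (box [] \ sq d0), ENNReal.ofReal (min Mx (Real.exp (β * a z))) :=
                lintegral_mono_set (by rw [union_sdiff_self]; exact subset_union_right)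
            _ ≤ _ := lintegral_union_le _ _ _
            _ ≤ _ := by
                refine add_le_add le_rfl ?_
                refine (lintegral_mono (g := fun _ => ENNReal.ofReal Mx) fun z =>
                  ENNReal.ofReal_le_ofReal (min_le_left _ _)).trans ?_
                rw [setLIntegral_const, ENNReal.ofReal_mul (by linarith), mul_comm]
                exact mul_le_mul_left (vol_strip hd) _
  have hfin : ∫⁻ z in box [], eE (β * a z) ≠ ∞ :=
    ne_top_of_le_ne_top (by simp [he]) h2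
  have h3 : uu Mx β d0 a ≤ (∫⁻ z in box [], eE (β * a z)).toReal :=
    (ENNReal.ofReal_le_iff_le_toReal hfin).1 h1
  have h4 := ENNReal.toReal_mono (by simp [he]) h2
  rw [ENNReal.toReal_add (by simp) he, ENNReal.toReal_add (by simp) (by simp),
    ENNReal.toReal_ofReal hu0, ENNReal.toReal_ofReal (by positivity)] at h4
  rw [abs_of_nonneg (sub_nonneg.2 h3)]
  linarith

theorem sum_toReal_le {ι : Type} (s : Finset ι) (f : ι → ℝ≥0∞) {c : ℝ} (hc : 0 ≤ c)
    (h : ∑ i ∈ s, f i ≤ ENNReal.ofReal c) :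
    (∀ i ∈ s, f i ≠ ∞) ∧ ∑ i ∈ s, (f i).toReal ≤ c := by
  have h1 : ∀ i ∈ s, f i ≠ ∞ := fun i hi =>
    ne_top_of_le_ne_top ENNReal.ofReal_ne_top
      ((Finset.single_le_sum (f := f) (fun _ _ => zero_le) hi).trans h)
  refine ⟨h1, ?_⟩
  rw [← ENNReal.toReal_sum h1]
  exact ENNReal.toReal_le_of_le_ofReal hc h

theorem leaf_iff {x : Dy → ℝ} {A : Dy} (hA : IntN x A) (S : Dy) :
    Leaf (sub x A) S ↔ Leaf x (S ++ A) := by
  constructor
  · rintro ⟨h1, h2⟩
    refine ⟨h1, fun B hB hne => ?_⟩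
    rcases List.suffix_or_suffix_of_suffix hB (List.suffix_append S A) with h | ⟨B', rfl⟩
    · exact hA B h
    · refine h2 B' ?_ (fun h => hne (by rw [h]))
      exact ((List.suffix_append_inj_of_length_eq rfl).1 hB).1
  · rintro ⟨h1, h2⟩
    refine ⟨h1, fun B hB hne => h2 (B ++ A) ?_ fun h => hne (List.append_cancel_right h)⟩
    exact (List.suffix_append_inj_of_length_eq rfl).2 ⟨hB, rfl⟩

/-- number of words shorter than `k` -/
def nsh (k : ℕ) : ℕ := ((Finset.range k).biUnion lev).card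

theorem leaves_split (hT1 : St_T1) {x : Dy → ℝ} {T : Finset Dy} (hx : HasTr x T) (R : Dy)
    {k : ℕ} (hk : 1 ≤ k) (u : Dy → ℝ) {Mx : ℝ} (hu : ∀ S, 0 ≤ u S ∧ u S ≤ Mx) :
    |∑ S ∈ (lvs T).filter (fun S => R <:+ S), u S -
      ∑ A ∈ T.filter (fun A => R <:+ A), ∑ S ∈ lev k, indR (Leaf (sub x A) S) * u (S ++ A)| ≤
      Mx * nsh k := by
  obtain ⟨hT, -, -, hleaf⟩ := hT1.2.2.2.2.2.2.2.2.2.2.2.1 x T hx
  have hlev := hT1.1
  have hM : 0 ≤ Mx := (hu []).1.trans (hu []).2
  rw [← Finset.sum_filter_add_sum_filter_not ((lvs T).filter (fun S => R <:+ S))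
    (fun S => S.length < R.length + k)]
  have h2 : ∑ S ∈ ((lvs T).filter (fun S => R <:+ S)).filter
        (fun S => ¬S.length < R.length + k), u S =
      ∑ A ∈ T.filter (fun A => R <:+ A), ∑ S ∈ lev k, indR (Leaf (sub x A) S) * u (S ++ A) := by
    rw [← Finset.sum_product']
    have : ∀ p : Dy × Dy, indR (Leaf (sub x p.1) p.2) * u (p.2 ++ p.1) =
        if Leaf (sub x p.1) p.2 then u (p.2 ++ p.1) else 0 := by
      intro p; unfold indR; split_ifs <;> simp
    simp only [this]
    rw [← Finset.sum_filter]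
    refine Finset.sum_nbij' (fun S => (S.drop k, S.take k)) (fun p => p.2 ++ p.1) ?_ ?_ ?_ ?_ ?_
    · intro S hS
      simp only [Finset.mem_filter, not_lt] at hS
      obtain ⟨⟨h1, h2⟩, h3⟩ := hS
      have hl := (hleaf S).2 h1
      have hI : IntN x (S.drop k) := fun B hB => hl.2 B (hB.trans (List.drop_suffix _ _)) (by
        intro h
        have := hB.length_le
        rw [h, List.length_drop] at this
        omega)
      simp only [Finset.mem_filter, Finset.mem_product]
      refine ⟨⟨⟨(hx _).2 hI, ?_⟩, ?_⟩, ?_⟩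
      · refine List.suffix_of_suffix_length_le h2 (List.drop_suffix _ _) ?_
        rw [List.length_drop]; omega
      · rw [hlev, List.length_take]; omega
      · rw [leaf_iff hI, List.take_append_drop]; exact hl
    · intro p hp
      simp only [Finset.mem_filter, Finset.mem_product] at hp
      obtain ⟨⟨⟨h1, h2⟩, h3⟩, h4⟩ := hp
      rw [hlev] at h3
      simp only [Finset.mem_filter, not_lt]
      refine ⟨⟨(hleaf _).1 ((leaf_iff ((hx _).1 h1) _).1 h4),
        h2.trans (List.suffix_append _ _)⟩, ?_⟩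
      have := h2.length_le
      rw [List.length_append]; omega
    · intro S _
      exact List.take_append_drop _ _
    · intro p hp
      simp only [Finset.mem_filter, Finset.mem_product] at hp
      have h3 := (hlev _ _).1 hp.1.2
      ext1
      · simp [← h3]
      · simp [← h3]
    · intro S _
      simp
  rw [h2, add_sub_cancel_right, abs_of_nonneg (Finset.sum_nonneg fun S _ => (hu S).1)]
  refine (Finset.sum_le_card_nsmul _ _ Mx fun S _ => (hu S).2).trans ?_
  rw [nsmul_eq_mul, mul_comm]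
  refine mul_le_mul_of_nonneg_left ?_ hM
  unfold nsh
  refine Nat.cast_le.2 (Finset.card_le_card_of_injOn (fun S => S.take (S.length - R.length)) ?_ ?_)
  · intro S hS
    simp only [Finset.coe_filter, Finset.mem_filter, mem_ofPred_eq] at hS
    simp only [Finset.coe_biUnion, Finset.coe_range, mem_iUnion, Finset.mem_coe]
    refine ⟨S.length - R.length, ?_, ?_⟩
    · have := hS.2
      simp only [mem_Iio]; omega
    · rw [hlev, List.length_take]; omega
  · intro S hS S' hS' h
    simp only [Finset.coe_filter, Finset.mem_filter, mem_ofPred_eq] at hS hS'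
    obtain ⟨B, rfl⟩ := hS.1.2
    obtain ⟨B', rfl⟩ := hS'.1.2
    simp only [List.length_append, Nat.add_sub_cancel, List.take_left'] at h
    rw [h]

end VOL1

end

end Pool.Agent.Lib.APPS
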