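import Pool.Agent.Lib.APPS.B_VOL1a

/-!
Deterministic comparison for block VOL1.
-/

namespace Pool.Agent.Lib.APPS

open MeasureTheory ProbabilityTheory Filter Topology Set Metric
open scoped NNReal ENNReal CompactlySupported BoundedContinuousFunction RealInnerProductSpace
  Classical

noncomputable section

namespace VOL1

theorem eE_add (s t : ℝ) : eE (s + t) = eE s * eE t := by
  unfold eE
  rw [Real.exp_add, ENNReal.ofReal_mul (Real.exp_pos _).le]

theorem meas_eE : Measurable eE :=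
  ENNReal.measurable_ofReal.comp Real.measurable_exp

theorem cont_zS (S : Dy) : Continuous (zS S) := by
  unfold zS; fun_prop

theorem lint_box (hGEO1 : St_GEO1) (S : Dy) (ρ : ℂ → ℝ≥0∞) :
    ∫⁻ z in box S, ρ z = ENNReal.ofReal (side S ^ 2) * ∫⁻ z, ρ z ∂unif S := by
  have hs := (hGEO1.1 S).1
  unfold unif
  rw [lintegral_smul_measure, smul_eq_mul, ← mul_assoc, ← ENNReal.ofReal_mul (by positivity),
    mul_one_div_cancel (by positivity), ENNReal.ofReal_one, one_mul]

theorem lint_leaves (hGEO1 : St_GEO1) (hGEO2 : St_GEO2) {T : Finset Dy} (hT : IsTr T) {R : Dy}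
    (hR : R ∈ T) (ρ : ℂ → ℝ≥0∞) :
    ∫⁻ z in box R, ρ z = ∑ S ∈ (lvs T).filter (fun S => R <:+ S), ∫⁻ z in box S, ρ z := by
  have h := hGEO2.2.2.2.2.2.2.1 T hT R hR []
  simp only [List.append_nil] at h
  rw [lint_box hGEO1, h, lintegral_finsetSum_measure, Finset.mul_sum]
  refine Finset.sum_congr rfl fun S _ => ?_
  have hs := (hGEO1.1 R).1
  rw [lint_box hGEO1, lintegral_smul_measure, smul_eq_mul, ← mul_assoc,
    ← ENNReal.ofReal_mul (by positivity)]
  congr 2
  field_simp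

theorem lint_scale (hGEO1 : St_GEO1) (hEXP2 : St_EXP2) (S : Dy) {k : ℂ → ℝ} (hk : Continuous k)
    {β Q : ℝ} (hβ : β * Q = 2) :
    ∫⁻ z in box S, eE (β * k z) = ∫⁻ z in box [], eE (β * (k (zS S z) - Q * S.length * l2)) := by
  have h := hEXP2.1 [] S
  rw [List.nil_append] at h
  have hm : Measurable fun z => eE (β * k z) := meas_eE.comp (hk.measurable.const_mul β)
  rw [lint_box hGEO1, h, lintegral_map hm (cont_zS S).measurable, lint_box hGEO1 []]
  have h1 : side [] = 1 := by simp [side]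
  rw [h1, one_pow, ENNReal.ofReal_one, one_mul, ← lintegral_const_mul' _ _ ENNReal.ofReal_ne_top]
  refine lintegral_congr fun z => ?_
  have h2 : ENNReal.ofReal (side S ^ 2) = eE (-(β * Q * S.length * l2)) := by
    unfold eE side l2
    congr 1
    rw [hβ, ← pow_mul, show -(2 * (S.length : ℝ) * Real.log 2) =
      ((S.length * 2 : ℕ) : ℝ) * Real.log (1 / 2) by
        rw [one_div, Real.log_inv]; push_cast; ring, Real.exp_nat_mul, Real.exp_log (by norm_num)]
  rw [h2, ← eE_add]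
  congr 1; ring

theorem cont_potS (hGEO1 : St_GEO1) (hEXP2 : St_EXP2) (S : Dy) : Continuous (potS S) := by
  obtain ⟨C, hC, -, h, -⟩ := hEXP2.2.2.2.2.2
  have hs := (hGEO1.1 S).1
  refine (LipschitzWith.of_dist_le_mul (K := ⟨C / side S, by positivity⟩) fun z z' => ?_).continuous
  rw [Real.dist_eq, dist_eq_norm]
  exact h S z z'

theorem cont_lamL (hp : ∀ S, Continuous (potS S)) (τ : Finset Dy) (A : lvs τ) :
    Continuous fun z => lamL τ z A := by
  unfold lamL nuL
  refine continuous_finsetSum _ fun B _ => continuous_const.mul ((hp B).add ?_)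
  refine Continuous.div_const (continuous_const.sub ?_) _
  exact continuous_finsetSum _ fun A _ => continuous_finsetSum _ fun B _ =>
    continuous_const.mul (hp B)

theorem cont_kloc (hp : ∀ S, Continuous (potS S)) (Q : ℝ) (τ : Finset Dy) (y : Dy → ℝ) :
    Continuous (kloc Q τ y) := by
  unfold kloc
  exact continuous_finsetSum _ fun A _ => (cont_lamL hp τ A).mul continuous_const

/-- excess of a square -/
def exc (β Q Mx : ℝ) (k : ℂ → ℝ) (S : Dy) : ℝ≥0∞ :=
  ∫⁻ z in box [], ENNReal.ofReal (Real.exp (β * (k (zS S z) - Q * S.length * l2)) - Mx)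

/-- localisation error -/
def lerr (Q d0 : ℝ) (K D : ℕ) (k : ℂ → ℝ) (x : Dy → ℝ) (A S : Dy) : ℝ≥0∞ :=
  ind (Good K D (tr (sub x A)) S) * ∫⁻ z in sq d0, ENNReal.ofReal
    (min 1 |k (zS (S ++ A) z) - Q * A.length * l2 -
      kloc Q (tr (sub x A)) (sub x A) (zS S z)|)

theorem SR_one_le (x : Dy → ℝ) (R : Dy) : SR one x R ≤ (tr x).card := by
  unfold SR one
  rw [Finset.sum_const, nsmul_eq_mul, mul_one]
  exact Nat.cast_le.2 (Finset.card_filter_le _ _)

theorem det (hEXP2 : St_EXP2) (hGEO1 : St_GEO1) (hGEO2 : St_GEO2) (hT1 : St_T1)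
    {γ : ℝ} (hβ : 0 < bt γ) (hβ1 : bt γ < 1) (hβQ : bt γ * QQ γ = 2)
    {x : Dy → ℝ} (hx : nB x ≠ ∞) {k : ℂ → ℝ} (hk : Continuous k) {K D : ℕ} (hK : 1 ≤ K)
    {Mx d0 e h : ℝ} (hM : 0 < Mx) (hd : 0 < d0) (he0 : 0 ≤ e) (hh0 : 0 ≤ h)
    (he : ∑ S ∈ lvs (tr x), exc (bt γ) (QQ γ) Mx k S ≤ ENNReal.ofReal e)
    (hh : ∑ A ∈ tr x, ∑ S ∈ lev (3 * K), lerr (QQ γ) d0 K D k x A S ≤ ENNReal.ofReal h)
    (R : Dy) :
    (R ∈ tr x → |(∫⁻ z in box R, eE (bt γ * k z)).toReal - SR (Fv γ K D Mx d0) x R| ≤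
      e + 4 * d0 * Mx * (3 * (tr x).card + 1) + Mx * nsh (3 * K) + Mx * SR (Bad K D) x R +
        Mx * h) ∧
    (R ∉ tr x → (∫⁻ z in box R, eE (bt γ * k z)).toReal ≤ Mx + 4 * d0 * Mx + e ∧
      SR one x R = 0) := by
  have hHas := hT1.2.2.2.2.2.2.2.2.2.2.2.2.1 x hx
  have hTr : IsTr (tr x) := hT1.2.2.2.2.2.2.2.2.2.2.2.2.2.2.1 x
  have hp := cont_potS hGEO1 hEXP2
  set a : Dy → ℂ → ℝ := fun S z => k (zS S z) - QQ γ * S.length * l2 with ha
  have hac : ∀ S, Continuous (a S) := fun S => (hk.comp (cont_zS S)).sub continuous_const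
  set u : Dy → ℝ := fun S => uu Mx (bt γ) d0 (a S) with hu
  have hub : ∀ S, 0 ≤ u S ∧ u S ≤ Mx := fun S => uu_bd hM hd (hac S)
  obtain ⟨he1, he2⟩ := sum_toReal_le _ _ he0 he
  have hv : ∀ S ∈ lvs (tr x), |(∫⁻ z in box S, eE (bt γ * k z)).toReal - u S| ≤
      (exc (bt γ) (QQ γ) Mx k S).toReal + 4 * d0 * Mx := by
    intro S hS
    rw [lint_scale hGEO1 hEXP2 S hk hβQ]
    exact uu_vol hM hd (hac S) (he1 S hS)
  have hfin : ∀ S, ∫⁻ z in box S, eE (bt γ * k z) ≠ ∞ := by
    intro S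
    have hc : IsCompact (box S) := (hGEO1.2.2.2.1 S).1
    have hi : IntegrableOn (fun z => Real.exp (bt γ * k z)) (box S) volume :=
      (Continuous.continuousOn (by fun_prop)).integrableOn_compact hc
    unfold eE
    rw [← ofReal_integral_eq_lintegral_ofReal hi (ae_of_all _ fun z => (Real.exp_pos _).le)]
    exact ENNReal.ofReal_ne_top
  constructor
  · intro hR
    rw [lint_leaves hGEO1 hGEO2 hTr hR, ENNReal.toReal_sum fun S _ => hfin S]
    have h1 : |∑ S ∈ (lvs (tr x)).filter (fun S => R <:+ S),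
        (∫⁻ z in box S, eE (bt γ * k z)).toReal -
        ∑ S ∈ (lvs (tr x)).filter (fun S => R <:+ S), u S| ≤
        e + 4 * d0 * Mx * (3 * (tr x).card + 1) := by
      rw [← Finset.sum_sub_distrib]
      refine (Finset.abs_sum_le_sum_abs _ _).trans ?_
      refine (Finset.sum_le_sum_of_subset_of_nonneg (Finset.filter_subset _ _)
        fun _ _ _ => abs_nonneg _).trans ((Finset.sum_le_sum hv).trans ?_)
      rw [Finset.sum_add_distrib, Finset.sum_const, nsmul_eq_mul, (hT1.2.2.1 _ hTr).1]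
      push_cast
      linarith
    have h2 := leaves_split hT1 hHas R (k := 3 * K) (by omega) u hub
    rw [← Finset.sum_product'] at hh
    obtain ⟨-, hh2⟩ := sum_toReal_le _ _ hh0 hh
    rw [Finset.sum_product] at hh2
    have h3 : |∑ A ∈ (tr x).filter (fun A => R <:+ A), ∑ S ∈ lev (3 * K),
        indR (Leaf (sub x A) S) * u (S ++ A) - SR (Fv γ K D Mx d0) x R| ≤
        Mx * SR (Bad K D) x R + Mx * h := by
      unfold SR Fv Bad
      rw [← Finset.sum_sub_distrib]
      refine (Finset.abs_sum_le_sum_abs _ _).trans ?_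
      have h4 : ∑ A ∈ (tr x).filter (fun A => R <:+ A), ∑ S ∈ lev (3 * K),
          (lerr (QQ γ) d0 K D k x A S).toReal ≤ h :=
        (Finset.sum_le_sum_of_subset_of_nonneg (Finset.filter_subset _ _)
          fun _ _ _ => Finset.sum_nonneg fun _ _ => ENNReal.toReal_nonneg).trans hh2
      refine le_trans ?_ (add_le_add le_rfl (mul_le_mul_of_nonneg_left h4 hM.le))
      rw [← mul_add, ← Finset.sum_add_distrib, Finset.mul_sum]
      refine Finset.sum_le_sum fun A hA => ?_
      have hIA : IntN x A := (hHas A).1 (Finset.mem_filter.1 hA).1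
      have hxA : nB (sub x A) ≠ ∞ :=
        ne_top_of_le_ne_top hx (hT1.2.2.2.2.2.2.2.2.2.2.2.2.2.2.2.2.2.1 x A hIA)
      have hlA := (hT1.2.2.2.2.2.2.2.2.2.2.2.1 _ _
        (hT1.2.2.2.2.2.2.2.2.2.2.2.2.1 _ hxA)).2.2.2
      rw [← Finset.sum_sub_distrib, ← Finset.sum_add_distrib, Finset.mul_sum]
      refine (Finset.abs_sum_le_sum_abs _ _).trans (Finset.sum_le_sum fun S _ => ?_)
      by_cases hG : Good K D (tr (sub x A)) S
      · have hL : Leaf (sub x A) S := (hlA S).2 hG.1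
        simp only [indR, lerr, ind, hG, hL, if_true, one_mul, not_true, and_false, if_false,
          zero_add]
        have h5 := uu_sub (d0 := d0) hM hβ hβ1 hd (hac (S ++ A))
          (b := fun z => kloc (QQ γ) (tr (sub x A)) (sub x A) (zS S z) - QQ γ * S.length * l2)
          (((cont_kloc hp _ _ _).comp (cont_zS S)).sub continuous_const)
        refine h5.trans (le_of_eq ?_)
        congr 2
        refine lintegral_congr fun z => ?_
        congr 3
        simp only [ha, List.length_append]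
        push_cast
        ring
      · simp only [indR, lerr, ind, hG, if_false, zero_mul, sub_zero, not_false_iff, and_true,
          ENNReal.toReal_zero, add_zero]
        split_ifs
        · rw [one_mul, mul_one, abs_of_nonneg (hub _).1]; exact (hub _).2
        · simp
    have := abs_sub_le (∑ S ∈ (lvs (tr x)).filter (fun S => R <:+ S),
      (∫⁻ z in box S, eE (bt γ * k z)).toReal) (∑ S ∈ (lvs (tr x)).filter (fun S => R <:+ S), u S)
      (SR (Fv γ K D Mx d0) x R)
    have := abs_sub_le (∑ S ∈ (lvs (tr x)).filter (fun S => R <:+ S), u S)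
      (∑ A ∈ (tr x).filter (fun A => R <:+ A), ∑ S ∈ lev (3 * K),
        indR (Leaf (sub x A) S) * u (S ++ A)) (SR (Fv γ K D Mx d0) x R)
    linarith
  · intro hR
    constructor
    · obtain ⟨S, hS, hSR⟩ := hT1.2.2.2.2.2.2.2.2.2.1 _ hTr R hR
      have h1 : (∫⁻ z in box R, eE (bt γ * k z)).toReal ≤
          (∫⁻ z in box S, eE (bt γ * k z)).toReal :=
        ENNReal.toReal_mono (hfin S) (lintegral_mono_set ((hGEO1.2.2.2.2.1 R S).2 hSR))
      have h2 := (abs_le.1 (hv S hS)).2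
      have h3 : (exc (bt γ) (QQ γ) Mx k S).toReal ≤ e :=
        (Finset.single_le_sum (f := fun S => (exc (bt γ) (QQ γ) Mx k S).toReal)
          (fun _ _ => ENNReal.toReal_nonneg) hS).trans he2
      linarith [(hub S).2]
    · unfold SR
      refine Finset.sum_eq_zero fun A hA => ?_
      rw [Finset.mem_filter] at hA
      exact absurd (hTr A hA.1 R hA.2) hR

theorem markov {p : Om → Prop} (hp : MeasurableSet {ω | p ω}) {f : Om → ℝ≥0∞} (hf : Measurable f)
    {θ a b : ℝ} (ha : 0 < a) {n : ℕ} (hn : 1 ≤ n)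
    (h : ENNReal.ofReal ((n : ℝ) ^ (θ + 1)) * ∫⁻ ω, ind (p ω) * f ω ∂gm ≤
      ENNReal.ofReal (a * b)) :
    ENNReal.ofReal ((n : ℝ) ^ (θ + 2)) * gm {ω | p ω ∧ ENNReal.ofReal (a * n) < f ω} ≤
      ENNReal.ofReal b := by
  have hn0 : (0 : ℝ) < n := by exact_mod_cast hn
  have hm : Measurable fun ω => ind (p ω) * f ω := by
    refine Measurable.mul ?_ hf
    unfold ind
    exact Measurable.ite hp measurable_const measurable_const
  have h1 := mul_meas_ge_le_lintegral₀ (μ := gm) hm.aemeasurable (ENNReal.ofReal (a * n))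
  have h2 : gm {ω | p ω ∧ ENNReal.ofReal (a * n) < f ω} ≤
      gm {ω | ENNReal.ofReal (a * n) ≤ ind (p ω) * f ω} := by
    refine measure_mono fun ω hω => ?_
    simp only [mem_ofPred_eq, ind, hω.1, if_true, one_mul]
    exact hω.2.le
  have ha' : ENNReal.ofReal a ≠ 0 := by simpa using ha
  rw [← ENNReal.mul_le_mul_iff_right ha' ENNReal.ofReal_ne_top, ← ENNReal.ofReal_mul ha.le]
  refine le_trans ?_ h
  refine le_trans ?_ (mul_le_mul_right h1 _)
  rw [← mul_assoc, ← mul_assoc, ← ENNReal.ofReal_mul ha.le,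
    ← ENNReal.ofReal_mul (Real.rpow_nonneg hn0.le _)]
  refine mul_le_mul' (le_of_eq ?_) h2
  congr 1
  rw [show θ + 2 = θ + 1 + 1 by ring, Real.rpow_add_one hn0.ne']
  ring

end VOL1

end

end Pool.Agent.Lib.APPS
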