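import Pool.Agent.Lib.APPS.Blue3

/-!
Block WIL, part a: deterministic lemmas.
-/

namespace Pool.Agent.Lib.APPS

open MeasureTheory ProbabilityTheory Filter Topology Set Metric
open scoped NNReal ENNReal CompactlySupported BoundedContinuousFunction RealInnerProductSpace
  Classical

noncomputable section

namespace WIL

theorem meas_T (r : ℝ) : Measurable fun p : Cyl => ((p.1 - r, p.2) : Cyl) := by fun_prop

theorem trans_zero (m : Measure Cyl) : trans 0 m = m := by
  unfold trans; simp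

theorem trans_univ (r : ℝ) (m : Measure Cyl) : trans r m univ = m univ := by
  unfold trans; rw [Measure.map_apply (meas_T r) MeasurableSet.univ, preimage_univ]

theorem int_trans (r : ℝ) (m : Measure Cyl) {f : Cyl → ℝ} (hf : Continuous f) :
    ∫ w, f w ∂trans r m = ∫ w, f (w.1 - r, w.2) ∂m := by
  unfold trans
  rw [integral_map (meas_T r).aemeasurable hf.aestronglyMeasurable]

theorem meas_dens (γ : ℝ) {z : ℝ → ℝ} (hz : Measurable z) :
    Measurable fun w : Cyl => eE (γ * z w.1) := by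
  unfold eE; fun_prop

theorem trans_wgt (γ r : ℝ) (m : Measure Cyl) {z : ℝ → ℝ} (hz : Measurable z) :
    trans r (wgt γ z m) = wgt γ (fun t => z (r + t)) (trans r m) := by
  ext s hs
  have hz' : Measurable fun t => z (r + t) := hz.comp (measurable_const_add r)
  unfold trans wgt
  rw [Measure.map_apply (meas_T r) hs, withDensity_apply _ (meas_T r hs), withDensity_apply _ hs,
    setLIntegral_map hs (meas_dens γ hz') (meas_T r)]
  simp

theorem wgt_add (γ c : ℝ) (m : Measure Cyl) {z : ℝ → ℝ} (hz : Measurable z) :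
    wgt γ (fun t => z t + c) m = eE (γ * c) • wgt γ z m := by
  unfold wgt
  rw [← withDensity_smul _ (meas_dens γ hz)]
  congr 1
  funext w
  simp only [Pi.smul_apply, smul_eq_mul, eE]
  rw [← ENNReal.ofReal_mul (Real.exp_pos _).le, ← Real.exp_add]
  congr 2; ring

theorem int_wgt (γ : ℝ) (m : Measure Cyl) {z : ℝ → ℝ} (hz : Measurable z) (f : Cyl → ℝ) :
    ∫ w, f w ∂wgt γ z m = ∫ w, Real.exp (γ * z w.1) * f w ∂m := by
  unfold wgt
  rw [integral_withDensity_eq_integral_toReal_smul (meas_dens γ hz)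
    (Eventually.of_forall fun _ => ENNReal.ofReal_lt_top)]
  simp only [eE, ENNReal.toReal_ofReal (Real.exp_pos _).le, smul_eq_mul]

/-- shifted test functions -/
def sg (tf : ℕ → C_c(Cyl, ℝ)) (r : ℝ) (k : ℕ) : C_c(Cyl, ℝ) where
  toFun w := tf k (w + (r, 0))
  continuous_toFun := (tf k).continuous.comp (continuous_add_const _)
  hasCompactSupport' :=
    (tf k).hasCompactSupport.comp_homeomorph (Homeomorph.addRight ((r, 0) : Cyl))

theorem sg_apply (tf : ℕ → C_c(Cyl, ℝ)) (r : ℝ) (k : ℕ) (w : Cyl) :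
    sg tf r k w = tf k (w.1 + r, w.2) := by
  change tf k (w + (r, 0)) = _
  congr 1
  ext <;> simp

theorem obsn_sg (tf : ℕ → C_c(Cyl, ℝ)) (r : ℝ) (m : Measure Cyl) :
    obsn (sg tf r) m = obsn tf (trans (-r) m) := by
  funext k
  unfold obsn
  rw [int_trans _ _ (map_continuous (tf k)), Measure.real, Measure.real, trans_univ]
  simp only [sg_apply, sub_neg_eq_add]

theorem shift_facts (γ r : ℝ) (tf : ℕ → C_c(Cyl, ℝ)) (m : Measure Cyl) {z : ℝ → ℝ}
    (hz : Measurable z) :
    (wgt γ (fun t => z (r + t) - z r) (trans r m)).real univ =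
        Real.exp (-γ * z r) * (wgt γ z m).real univ ∧
      obsn (sg tf r) (wgt γ (fun t => z (r + t) - z r) (trans r m)) = obsn tf (wgt γ z m) := by
  have hz' : Measurable fun t => z (r + t) := hz.comp (measurable_const_add r)
  have e : wgt γ (fun t => z (r + t) - z r) (trans r m) =
      eE (γ * -z r) • trans r (wgt γ z m) := by
    rw [trans_wgt γ r m hz, ← wgt_add γ _ _ hz']
    rfl
  have he : (eE (γ * -z r)).toReal = Real.exp (-γ * z r) := by
    rw [eE, ENNReal.toReal_ofReal (Real.exp_pos _).le]; congr 1; ring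
  have h1 : (wgt γ (fun t => z (r + t) - z r) (trans r m)).real univ =
      Real.exp (-γ * z r) * (wgt γ z m).real univ := by
    rw [e, Measure.real, Measure.smul_apply, smul_eq_mul, ENNReal.toReal_mul, he, trans_univ]
    rfl
  refine ⟨h1, ?_⟩
  funext k
  unfold obsn
  rw [h1, e, integral_smul_measure, he, int_trans _ _ (map_continuous (sg tf r k)), smul_eq_mul,
    mul_div_mul_left _ _ (Real.exp_pos _).ne']
  simp only [sg_apply, sub_add_cancel]

/-- cutoff -/
def cut (n : ℕ) (x : ℝ) : ℝ := max 0 (min 1 (n + 1 - x))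

theorem cut_cont (n : ℕ) : Continuous (cut n) := by unfold cut; fun_prop
theorem cut_nonneg (n : ℕ) (x : ℝ) : 0 ≤ cut n x := le_max_left _ _
theorem cut_le (n : ℕ) (x : ℝ) : cut n x ≤ 1 := max_le zero_le_one (min_le_left _ _)
theorem cut_anti (n : ℕ) {x y : ℝ} (h : x ≤ y) : cut n y ≤ cut n x :=
  max_le_max le_rfl (min_le_min le_rfl (by linarith))
theorem cut_mono (x : ℝ) : Monotone fun n : ℕ => cut n x := fun n m h =>
  max_le_max le_rfl (min_le_min le_rfl (by
    have : (n : ℝ) ≤ m := Nat.cast_le.2 h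
    linarith))
theorem cut_ev (x : ℝ) : ∀ᶠ n : ℕ in atTop, cut n x = 1 := by
  filter_upwards [tendsto_natCast_atTop_atTop.eventually_ge_atTop x] with n hn
  unfold cut
  rw [min_eq_left (by linarith), max_eq_right zero_le_one]
theorem cut_bd (n : ℕ) {θ x : ℝ} (hθ : 0 ≤ θ) (hx : 0 ≤ x) :
    x ^ θ * cut n x ≤ (n + 1 : ℝ) ^ θ := by
  rcases le_total x (n + 1) with h | h
  · calc x ^ θ * cut n x ≤ x ^ θ * 1 :=
          mul_le_mul_of_nonneg_left (cut_le n x) (Real.rpow_nonneg hx _)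
      _ ≤ _ := by rw [mul_one]; exact Real.rpow_le_rpow hx h hθ
  · have : cut n x = 0 := by
      unfold cut
      exact max_eq_left ((min_le_right _ _).trans (by linarith))
    rw [this, mul_zero]; positivity

/-- the truncated weight as a function of the observables -/
def Wt (θ : ℝ) (n : ℕ) (H : (ℕ → ℝ) → ℝ) (o : ℝ≥0∞ × (ℕ → ℝ)) : ℝ :=
  o.1.toReal ^ θ * cut n o.1.toReal * H fun k => o.2 k / o.1.toReal

theorem meas_nrm : Measurable fun (o : ℝ≥0∞ × (ℕ → ℝ)) (k : ℕ) => o.2 k / o.1.toReal :=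
  measurable_pi_lambda _ fun k =>
    ((measurable_pi_apply k).comp measurable_snd).div measurable_fst.ennreal_toReal

theorem meas_Wt (θ : ℝ) (n : ℕ) {H : (ℕ → ℝ) → ℝ} (hH : Measurable H) : Measurable (Wt θ n H) :=
  ((measurable_fst.ennreal_toReal.pow_const θ).mul
    ((cut_cont n).measurable.comp measurable_fst.ennreal_toReal)).mul (hH.comp meas_nrm)

theorem Wt_obs (θ : ℝ) (n : ℕ) (H : (ℕ → ℝ) → ℝ) (g : ℕ → C_c(Cyl, ℝ)) (m : Measure Cyl) :
    Wt θ n H (obs g m) = m.real univ ^ θ * cut n (m.real univ) * H (obsn g m) := rfl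

def Neg (ε : ℝ) (z : ℝ → ℝ) : Prop := ∀ i : ℤ, i ≠ 0 → z (i * ε) < 0

theorem meas_neg (ε : ℝ) : Measurable fun z : ℝ → ℝ => ind (Neg ε z) := by
  have hs : MeasurableSet {z : ℝ → ℝ | Neg ε z} := by
    simp only [Neg, ofPred_forall]
    exact MeasurableSet.iInter fun j => MeasurableSet.iInter fun _ =>
      measurableSet_lt (measurable_pi_apply _) measurable_const
  unfold ind
  exact Measurable.ite hs measurable_const measurable_const

theorem sum_bounds {Y : ℝ → ℝ} {ε c C : ℝ} (hε : 0 < ε) (hc : 0 < c)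
    (hd : ∀ t, Y t ≤ C - c * |t|) (h0 : Y 0 = 0)
    (hne : ∀ i j : ℤ, i ≠ j → Y (i * ε) ≠ Y (j * ε)) (u : ℝ → ℝ≥0∞) (lo up : ℝ≥0∞)
    (hlo : ∀ y, 0 ≤ y → lo ≤ u y) (hup : ∀ y, u y ≤ up) :
    lo ≤ ∑' i : ℤ, ind (Neg ε fun t => Y (i * ε + t) - Y (i * ε)) * u (Y (i * ε)) ∧
      ∑' i : ℤ, ind (Neg ε fun t => Y (i * ε + t) - Y (i * ε)) * u (Y (i * ε)) ≤ up := by
  have ht : Tendsto (fun i : ℤ => Y (i * ε)) cofinite atBot := by
    refine tendsto_atBot_mono (fun i => hd _) ?_
    have h1 : Tendsto (fun i : ℤ => |(i : ℝ)|) cofinite atTop :=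
      (tendsto_norm_cocompact_atTop (E := ℝ)).comp Int.tendsto_coe_cofinite
    have h2 : Tendsto (fun i : ℤ => C + -(c * ε * |(i : ℝ)|)) cofinite atBot :=
      tendsto_atBot_add_const_left _ _
        (tendsto_neg_atTop_atBot.comp (h1.const_mul_atTop (mul_pos hc hε)))
    refine h2.congr fun i => ?_
    rw [abs_mul, abs_of_pos hε]; ring
  obtain ⟨i0, hi0⟩ := ht.exists_forall_ge
  have hE : Neg ε fun t => Y (i0 * ε + t) - Y (i0 * ε) := by
    intro j hj
    have h1 := hi0 (i0 + j)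
    have h2 := hne (i0 + j) i0 (by omega)
    have e : ((i0 + j : ℤ) : ℝ) * ε = i0 * ε + j * ε := by push_cast; ring
    rw [e] at h1 h2
    exact sub_neg.2 (lt_of_le_of_ne h1 h2)
  have hs : ∑' i : ℤ, ind (Neg ε fun t => Y (i * ε + t) - Y (i * ε)) * u (Y (i * ε)) =
      u (Y (i0 * ε)) := by
    rw [tsum_eq_single i0]
    · rw [ind, if_pos hE, one_mul]
    · intro i hi
      rw [ind, if_neg, zero_mul]
      intro h
      have h1 := h (i0 - i) (by omega)
      have e : (i : ℝ) * ε + ((i0 - i : ℤ) : ℝ) * ε = i0 * ε := by push_cast; ring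
      simp only [e] at h1
      linarith [hi0 i]
  rw [hs]
  refine ⟨hlo _ ?_, hup _⟩
  have := hi0 0
  simpa [h0] using this

theorem sum_hat (hCYL : St_CYL) {tf : ℕ → C_c(Cyl, ℝ)} (htf : IsTF tf) (M : ℕ) {m : Measure Cyl}
    (hm : GoodM m) :
    ∑' i : ℤ, ENNReal.ofReal (obsn (sg tf (i * (eps M : ℝ))) m 0) = (M + 1 : ℝ≥0∞) := by
  have hpos := hCYL.2.2.2.2.2.2.2.2.2.2.2.2.2.2.2.1
  have hsum := hCYL.2.2.2.2.2.2.2.2.2.2.2.2.2.2.2.2.2.2.2 M
  have : IsFiniteMeasure m := ⟨lt_top_iff_ne_top.2 hm.1⟩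
  have h0 : m univ ≠ 0 := hm.2.2 _ isOpen_univ univ_nonempty
  have hr : 0 < m.real univ := ENNReal.toReal_pos h0 hm.1
  have e : ∀ i : ℤ, ENNReal.ofReal (obsn (sg tf (i * (eps M : ℝ))) m 0) =
      (∫⁻ w, ENNReal.ofReal (hat0 (w.1 + i * (eps M : ℝ), w.2)) ∂m) / m univ := by
    intro i
    unfold obsn
    rw [ENNReal.ofReal_div_of_pos hr, ofReal_measureReal hm.1,
      ofReal_integral_eq_lintegral_ofReal]
    · simp only [sg_apply, htf.zero]
    · exact (sg tf _ 0).continuous.integrable_of_hasCompactSupport (sg tf _ 0).hasCompactSupport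
    · exact Eventually.of_forall fun w => by
        simp only [sg_apply, htf.zero, Pi.zero_apply]; exact (hpos _).1
  simp only [e, div_eq_mul_inv]
  rw [ENNReal.tsum_mul_right, ← lintegral_tsum]
  · have : ∀ w : Cyl, ∑' i : ℤ, ENNReal.ofReal (hat0 (w.1 + i * (eps M : ℝ), w.2)) =
        (M + 1 : ℝ≥0∞) := by
      intro w
      rw [← ENNReal.ofReal_tsum_of_nonneg (fun i => (hpos _).1) (hsum w).summable,
        (hsum w).tsum_eq, ENNReal.ofReal_add (by positivity) zero_le_one]
      simp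
    simp only [this, lintegral_const]
    rw [mul_assoc, ENNReal.mul_inv_cancel h0 hm.1, mul_one]
  · intro i
    have : Continuous fun w : Cyl => hat0 (w.1 + i * (eps M : ℝ), w.2) := by
      unfold hat0; fun_prop
    exact this.measurable.ennreal_ofReal.aemeasurable

theorem wc_wgt {γ c C : ℝ} (hγ : 0 < γ) (hc : 0 < c) {m : Measure Cyl} (hm : NiceM m)
    {zs : ℕ → ℝ → ℝ} {z : ℝ → ℝ} (hzs : ∀ n, Measurable (zs n)) (hz : Measurable z)
    (hd : ∀ n t, zs n t ≤ C - c * |t|) (hl : ∀ t, Tendsto (fun n => zs n t) atTop (𝓝 (z t))) :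
    WC (fun n => wgt γ (zs n) m) (wgt γ z m) := by
  intro f
  simp only [int_wgt γ m (hzs _), int_wgt γ m hz]
  have hI : Integrable (fun w : Cyl => Real.exp (-(γ * c) * |w.1|)) m := by
    refine ⟨Continuous.aestronglyMeasurable (by fun_prop), ?_⟩
    rw [hasFiniteIntegral_iff_ofReal (Eventually.of_forall fun _ => (Real.exp_pos _).le)]
    exact lt_top_iff_ne_top.2 (hm.2.2 _ (mul_pos hγ hc))
  refine tendsto_integral_of_dominated_convergence
    (fun w => Real.exp (γ * C) * ‖f‖ * Real.exp (-(γ * c) * |w.1|)) (fun n => ?_)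
    (hI.const_mul _) (fun n => Eventually.of_forall fun w => ?_)
    (Eventually.of_forall fun w => ?_)
  · have := hzs n
    exact Measurable.aestronglyMeasurable (Measurable.mul (by fun_prop) f.continuous.measurable)
  · rw [norm_mul, Real.norm_of_nonneg (Real.exp_pos _).le, mul_right_comm, ← Real.exp_add]
    refine mul_le_mul (Real.exp_le_exp.2 ?_) (f.norm_coe_le_norm w) (norm_nonneg _)
      (Real.exp_pos _).le
    nlinarith [hd n w.1]
  · exact ((Real.continuous_exp.tendsto _).comp ((hl w.1).const_mul γ)).mul_const _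

theorem wc_mass {ms : ℕ → Measure Cyl} {m : Measure Cyl} (h : WC ms m) :
    Tendsto (fun n => (ms n).real univ) atTop (𝓝 (m.real univ)) := by
  simpa using h (BoundedContinuousFunction.const Cyl 1)

end WIL

end

end Pool.Agent.Lib.APPS
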