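import Pool.Agent.Lib.APPS.B_WLBa

/-!
Block WLB: moments and lower tail of the lattice chaos measure.
-/

namespace Pool.Agent.Lib.APPS

open MeasureTheory ProbabilityTheory Filter Topology Set Metric
open scoped NNReal ENNReal RealInnerProductSpace Classical CompactlySupported

noncomputable section

namespace WLB

open FM

theorem meas_ind {p : Om → Prop} (hp : MeasurableSet {ω | p ω}) :
    gm {ω | p ω} = ∫⁻ ω, ind (p ω) ∂gm := by
  rw [← lintegral_indicator_one hp]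
  refine lintegral_congr fun ω => ?_
  simp only [ind, indicator, mem_setOf_eq, Pi.one_apply]

theorem wn_low (hM : St_MOD) (hG : St_GEO1) (hT : St_T1) (hT3 : St_T3) (hLLN : St_LLN)
    (hLT : St_LT0) (hMB : St_MB) {γ : ℝ} (hγ : γ ∈ Ioo (0 : ℝ) 2) (C η : ℝ) (hC : 0 ≤ C)
    (hη : 0 < η) : ∃ ε > 0, ∃ L0 : ℕ, ∀ L ≥ L0, ∃ l0 ≥ L, ∀ l ≥ l0, ∀ M : Model,
      closedBall (ctr []) 2 ⊆ M.O → M.C0 = C →
      gm {ω | M.Wn γ [] L l ω ≤ ε} ≤ ENNReal.ofReal η := by
  obtain ⟨ε1, hε1, u0, hu0⟩ := hLT γ hγ C hC (η / 2) (by positivity)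
  set A := cc γ one * Real.exp (γ ^ 2 * C / 2) with hA
  have hA0 : 0 ≤ A := mul_nonneg ENNReal.toReal_nonneg (Real.exp_pos _).le
  have hone : Mono one := ⟨measurable_const, fun _ => ⟨zero_le_one, le_rfl⟩, fun _ _ _ => le_rfl⟩
  obtain ⟨L0, hL0⟩ := hLLN γ hγ one hone C (ε1 / 2 * (η / 2)) (by positivity)
  have hq : (1 : ℝ) < 4 / γ ^ 2 := by
    rw [lt_div_iff₀ (pow_pos hγ.1 2)]
    nlinarith [hγ.1, hγ.2]
  obtain ⟨KB, hKB⟩ := hMB γ hγ 1 one_pos hq
  refine ⟨ε1 / (2 * (A + 1)), by positivity, L0, fun L hL => ?_⟩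
  obtain ⟨l0, hl0, hl⟩ := hL0 L hL
  refine ⟨l0, hl0, fun l hl' M hO hC0 => ?_⟩
  obtain ⟨v0, hv0⟩ := hl l hl'
  have hs0 : side [] = 1 := by simp [side]
  set v := max v0 u0 with hv
  have h1 := hv0 v (le_max_left _ _) M [] (by rw [hs0, mul_one]; exact hO) (by simp [hC0])
  have hbox : box [] ⊆ M.O := fun y hy => hO (by
    have := (hG.2.2.2.1 []).2.2.2.1 y hy
    rw [mem_closedBall, dist_eq_norm]
    rw [hs0] at this
    linarith)
  have hGr : Gram (fun S => M.eS (S ++ [])) (covE C) := by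
    have := (hM M).2.2.2.2.2.2.1 [] hbox
    simpa [hC0] using this
  have h2 := hu0 _ hGr v (le_max_right _ _)
  set x : Om → Dy → ℝ := XV γ (fun S => M.eS (S ++ [])) v with hx
  have hmx : Measurable x := measurable_pi_lambda _ fun S =>
    ((meas_ev _).add_const _).sub_const _
  have h3 : gm {ω | nB (x ω) = ∞} = 0 := by
    have h4 := hKB C _ hGr v
    simp only [ENNReal.rpow_one] at h4
    exact measure_eq_top_of_lintegral_ne_top (hT3.1.comp hmx).aemeasurable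
      (h4.trans_lt ENNReal.ofReal_lt_top).ne
  have hmW : Measurable (M.Wn γ [] L l) :=
    Finset.measurable_sum _ fun T _ => (meas_Wk γ _).const_mul _
  have hmD : Measurable fun ω => ENNReal.ofReal
      |Real.exp (-γ * v) * SR one (x ω) [] - A * M.Wn γ [] L l ω| :=
    ((((hT3.2.2.2.2.2.2.2.1 one [] measurable_const).comp hmx).const_mul _).sub
      (hmW.const_mul _)).abs.ennreal_ofReal
  have h5 : gm {ω | ENNReal.ofReal (ε1 / 2) ≤ ENNReal.ofReal
      |Real.exp (-γ * v) * SR one (x ω) [] - A * M.Wn γ [] L l ω|} ≤ ENNReal.ofReal (η / 2) := by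
    have h6 := (mul_meas_ge_le_lintegral hmD (ENNReal.ofReal (ε1 / 2))).trans h1
    rw [ENNReal.ofReal_mul (by positivity)] at h6
    exact (ENNReal.mul_le_mul_iff_right (ENNReal.ofReal_pos.2 (by positivity)).ne'
      ENNReal.ofReal_ne_top).1 h6
  calc gm {ω | M.Wn γ [] L l ω ≤ ε1 / (2 * (A + 1))}
      ≤ gm (({ω | nB (x ω) ≤ ENNReal.ofReal (ε1 * Real.exp (γ * v))} ∪
          {ω | ENNReal.ofReal (ε1 / 2) ≤ ENNReal.ofReal
            |Real.exp (-γ * v) * SR one (x ω) [] - A * M.Wn γ [] L l ω|}) ∪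
          {ω | nB (x ω) = ∞}) := by
        refine measure_mono fun ω hω => ?_
        by_cases b1 : nB (x ω) = ∞
        · exact Or.inr b1
        by_cases b2 : nB (x ω) ≤ ENNReal.ofReal (ε1 * Real.exp (γ * v))
        · exact Or.inl (Or.inl b2)
        refine Or.inl (Or.inr (ENNReal.ofReal_le_ofReal (le_trans ?_ (le_abs_self _))))
        have b3 := (hT.2.2.2.2.2.2.2.2.2.2.2.1 _ _ (hT.2.2.2.2.2.2.2.2.2.2.2.2.1 _ b1)).2.2.1
        have b4 : SR one (x ω) [] = (tr (x ω)).card := by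
          simp [SR, one]
        rw [b3, ← ENNReal.ofReal_natCast,
          ENNReal.ofReal_le_ofReal_iff (by positivity), not_le] at b2
        have b5 : ε1 ≤ Real.exp (-γ * v) * SR one (x ω) [] := by
          have e : Real.exp (-γ * v) * (ε1 * Real.exp (γ * v)) = ε1 := by
            rw [mul_left_comm, ← Real.exp_add]; simp
          rw [b4, ← e]
          exact mul_le_mul_of_nonneg_left b2.le (Real.exp_pos _).le
        have b6 : A * M.Wn γ [] L l ω ≤ ε1 / 2 := by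
          refine (mul_le_mul_of_nonneg_left hω hA0).trans ?_
          rw [← mul_div_assoc, div_le_div_iff₀ (by positivity) (by positivity)]
          nlinarith
        linarith
    _ ≤ ENNReal.ofReal (η / 2) + ENNReal.ofReal (η / 2) + 0 :=
        (measure_union_le _ _).trans (add_le_add ((measure_union_le _ _).trans
          (add_le_add h2 h5)) h3.le)
    _ = ENNReal.ofReal η := by
        rw [add_zero, ← ENNReal.ofReal_add (by positivity) (by positivity), add_halves]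

theorem near_lat {h : ℝ} (hh : 0 < h) (x : ℂ) : ∃ i : ℤ × ℤ, ‖(h : ℂ) * zc i - x‖ ≤ 2 * h := by
  have key : ∀ t : ℝ, |h * ⌊t / h⌋ - t| ≤ h := by
    intro t
    have h1 := Int.floor_le (t / h)
    have h2 := Int.lt_floor_add_one (t / h)
    rw [le_div_iff₀ hh] at h1
    rw [div_lt_iff₀ hh] at h2
    exact abs_le.2 ⟨by nlinarith, by nlinarith⟩
  refine ⟨(⌊x.re / h⌋, ⌊x.im / h⌋), (Complex.norm_le_abs_re_add_abs_im _).trans ?_⟩
  have h1 := key x.re
  have h2 := key x.im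
  simp only [Complex.sub_re, Complex.sub_im, Complex.re_ofReal_mul, Complex.im_ofReal_mul,
    zc_re, zc_im]
  linarith

theorem zc_add (i j : ℤ × ℤ) : zc (i + j) = zc i + zc j := by
  simp only [zc, Prod.fst_add, Prod.snd_add]
  push_cast
  ring

theorem nrm_half : ‖(1 + Complex.I) / 2‖ ≤ 1 := by
  rw [norm_div]
  have := norm_add_le (1 : ℂ) Complex.I
  simp only [norm_one, Complex.norm_I, Complex.norm_ofNat] at this ⊢
  linarith

theorem lower (hD : St_G1D) (hM : St_MOD) (hFE : St_FE) (hE : St_EXP1) (hG : St_GEO1)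
    (hT : St_T1) (hT3 : St_T3) (hCY : St_CYL) (hL : St_LAT) (hLLN : St_LLN) (hLT : St_LT0)
    (hMB : St_MB) {γ : ℝ} (hγ : γ ∈ Ioo (0 : ℝ) 2) (f : C_c(Cyl, ℝ)) (hf : ∀ w, 0 ≤ f w)
    (w0 : Cyl) (hw0 : f w0 ≠ 0) (η : ℝ) (hη : 0 < η) : ∃ ε > 0, ∃ L0 : ℕ, ∀ L ≥ L0,
      ∃ l0 : ℕ, ∀ l ≥ l0, ∀ M : Model, gm {ω | M.Wlat γ L l f ω ≤ ε} ≤ ENNReal.ofReal η := by
  obtain ⟨-, c2, -, -, -, c6, -, -, -, -, -, -, c13, -⟩ := hCY
  obtain ⟨hcont, -, -, T, hTs⟩ := c13 f
  have hγ0 : 0 < γ := hγ.1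
  set x0 := frC w0 with hx0
  have hx00 : x0 ≠ 0 := by
    rw [← norm_pos_iff, hx0, c6]
    exact Real.exp_pos _
  set c := f w0 / 2 with hcd
  have hc : 0 < c := half_pos ((hf w0).lt_of_ne' hw0)
  have hpb : c < pb f x0 := by
    rw [pb, if_neg hx00, hx0, c2]
    linarith
  obtain ⟨ε0, hε0, hnb⟩ := Metric.eventually_nhds_iff.1
    (hcont.continuousAt.eventually (lt_mem_nhds hpb))
  obtain ⟨j, hj⟩ := exists_pow_lt_of_lt_one (show 0 < ε0 / 4 by positivity)
    (show (1 / 2 : ℝ) < 1 by norm_num)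
  set ρ : ℝ := 2 ^ j with hρd
  have hρ : 0 < ρ := by positivity
  have hρj : ρ * (1 / 2 : ℝ) ^ j = 1 := by rw [hρd, ← mul_pow]; norm_num
  set R := ρ * (‖x0‖ + 3) + 3 with hR
  have hR3 : 3 ≤ R := by rw [hR]; nlinarith [norm_nonneg x0]
  obtain ⟨ε', hε', L0, hL0⟩ := wn_low hM hG hT hT3 hLLN hLT hMB hγ (Real.log R) (η / 2)
    (Real.log_nonneg (by linarith)) (by positivity)
  set σ := Real.log R - Real.log ρ with hσ
  set t := σ / 2 - Real.log (η / 2) with ht
  set κ := c * (1 / 4 : ℝ) ^ j with hκ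
  have hκ0 : 0 < κ := by positivity
  refine ⟨κ * Real.exp (γ ^ 2 / 2 * σ - γ * t) * ε', by positivity, L0, fun L hL' => ?_⟩
  obtain ⟨l0, hl0, hl⟩ := hL0 L hL'
  refine ⟨l0 + j, fun l hl' M => ?_⟩
  obtain ⟨k, rfl⟩ : ∃ k, l = k + j := ⟨l - j, by omega⟩
  have hk : l0 ≤ k := by omega
  set h := (1 / 2 : ℝ) ^ (k + j) with hh
  have hh0 : 0 < h := by positivity
  have hρh : ρ * h = (1 / 2 : ℝ) ^ k := by
    rw [hh, pow_add, mul_left_comm, hρj, mul_one]
  have hk1 : (1 / 2 : ℝ) ^ k ≤ 1 := pow_le_one₀ (by norm_num) (by norm_num)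
  have hj1 : (1 / 2 : ℝ) ^ j ≤ 1 := pow_le_one₀ (by norm_num) (by norm_num)
  have hhj : h ≤ (1 / 2 : ℝ) ^ j := pow_le_pow_of_le_one (by norm_num) (by norm_num) (by omega)
  set δ := 2 ^ L * h with hδd
  have hδ : 0 < δ := by positivity
  obtain ⟨i0, hi0⟩ := near_lat hh0 x0
  set z : ℂ := (((1 / 2 : ℝ) ^ k : ℝ) : ℂ) * ((1 + Complex.I) / 2) - ρ * ((h : ℂ) * zc i0) with hz
  obtain ⟨M', hO, hC, -⟩ := (hM M).2.2.1 (ctr []) R (by linarith)
  have hs0 : side [] = 1 := by simp [side]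
  have hc0 : ‖ctr []‖ ≤ 1 := by
    have e : ctr [] = (1 + Complex.I) / 2 := by
      simp only [ctr, corner, hs0]
      push_cast
      ring
    rw [e]
    exact nrm_half
  have hball : closedBall (ctr []) 2 ⊆ M'.O := hO ▸ closedBall_subset_ball (by linarith)
  have hzb : closedBall z ρ ⊆ M'.O := by
    rw [hO]
    refine closedBall_subset_ball' ?_
    have b1 : ‖(((1 / 2 : ℝ) ^ k : ℝ) : ℂ) * ((1 + Complex.I) / 2)‖ ≤ 1 := by
      rw [norm_mul, Complex.norm_real, Real.norm_eq_abs, abs_of_pos (by positivity)]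
      exact mul_le_one₀ hk1 (norm_nonneg _) nrm_half
    have b2 : ‖(ρ : ℂ) * ((h : ℂ) * zc i0)‖ ≤ ρ * (‖x0‖ + 2) := by
      rw [norm_mul, Complex.norm_real, Real.norm_eq_abs, abs_of_pos hρ]
      refine mul_le_mul_of_nonneg_left ?_ hρ.le
      have := norm_add_le ((h : ℂ) * zc i0 - x0) x0
      rw [sub_add_cancel] at this
      linarith
    have b3 := norm_sub_le z (ctr [])
    have b4 : ‖z‖ ≤ 1 + ρ * (‖x0‖ + 2) := (norm_sub_le _ _).trans (add_le_add b1 b2)
    rw [dist_eq_norm, hR]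
    linarith
  set pt : Dy → ℂ := fun S => (h : ℂ) * zc (i0 + gi S) with hpt
  have hlev : ∀ S ∈ lev k, side S = (1 / 2 : ℝ) ^ k := fun S hS => by rw [side, (hT.1 _ _).1 hS]
  have hcor : ∀ S ∈ lev k, ρ * (pt S - (h : ℂ) * zc i0) = corner S := by
    intro S hS
    rw [(hG.2.2.2.2.2.2.2.2.1 S).1, hlev S hS, ← hρh]
    simp only [hpt, zc_add]
    push_cast
    ring
  have hctr : ∀ S ∈ lev k, z + ρ * pt S = ctr S := by
    intro S hS
    rw [ctr, ← hcor S hS, hlev S hS, hz]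
    push_cast
    ring
  have hsub : ∀ S, box S ⊆ box [] := fun S => (hG.2.2.2.2.1 S []).2 List.nil_suffix
  have hnear : ∀ y ∈ box [], ‖y - ctr []‖ ≤ 3 / 4 := fun y hy => by
    have := (hG.2.2.2.1 []).2.2.2.1 y hy
    rwa [hs0, mul_one] at this
  have hgood : ∀ S ∈ lev k, pt S ≠ 0 ∧ c < f (toCyl (pt S)) := by
    intro S hS
    have b1 : corner S ∈ box S :=
      ⟨⟨le_rfl, le_add_of_nonneg_right (hG.1 S).1.le⟩, ⟨le_rfl, le_add_of_nonneg_right (hG.1 S).1.le⟩⟩
    have b2 := hnear _ (hsub S b1)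
    have b3 := norm_add_le (corner S - ctr []) (ctr [])
    rw [sub_add_cancel, ← hcor S hS, norm_mul, Complex.norm_real, Real.norm_eq_abs,
      abs_of_pos hρ, hcor S hS] at b3
    have b4 : ‖pt S - (h : ℂ) * zc i0‖ ≤ 2 * (1 / 2 : ℝ) ^ j := by
      refine le_of_mul_le_mul_left ?_ hρ
      rw [mul_left_comm, hρj]
      linarith
    have b5 := norm_sub_le_norm_sub_add_norm_sub (pt S) ((h : ℂ) * zc i0) x0
    have b6 : c < pb f (pt S) := hnb (by rw [dist_eq_norm]; linarith)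
    by_cases b7 : pt S = 0
    · rw [pb, if_pos b7] at b6
      linarith
    · rw [pb, if_neg b7] at b6
      exact ⟨b7, b6⟩
  have hrad : ∀ S ∈ lev k, ρ * δ = 2 ^ L * side S := fun S hS => by
    rw [hlev S hS, hδd, mul_left_comm, hρh]
  have hρδ : ρ * δ ≤ 1 := by
    rw [hδd, mul_left_comm, hρh]
    obtain ⟨m, rfl⟩ := Nat.exists_eq_add_of_le (hl0.trans hk)
    rw [pow_add, ← mul_assoc, ← mul_pow]
    norm_num
    exact pow_le_one₀ (by norm_num) (by norm_num)
  have hcb : ∀ S ∈ lev k, closedBall (z + ρ * pt S) (ρ * δ) ⊆ M'.O := fun S hS =>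
    (closedBall_subset_closedBall' (by
      rw [hctr S hS, dist_eq_norm]
      linarith [hnear _ (hsub S (hG.2.2.2.1 S).2.2.1)])).trans hball
  have hfin : {i : ℤ × ℤ | i ≠ 0 ∧ f (toCyl ((h : ℂ) * zc i)) ≠ 0}.Finite := by
    refine (fin_lat hh0 (Real.exp T)).subset fun i hi => ?_
    have b1 : (h : ℂ) * zc i ≠ 0 := mul_ne_zero (Complex.ofReal_ne_zero.2 hh0.ne') (zc_ne hi.1)
    have b2 := (abs_le.1 (hTs _ hi.2)).1
    simp only [toCyl, neg_le_neg_iff] at b2
    simp only [mem_setOf_eq]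
    rw [← Real.exp_log (norm_pos_iff.2 b1)]
    exact Real.exp_le_exp.2 b2
  let G : (Dy → ℝ) → ℝ := fun y => ∑ S ∈ lev k, (1 / 4 : ℝ) ^ (k + j) * c *
    (δ ^ (γ ^ 2 / 2) * Real.exp (γ * y S))
  have hGm : Measurable G := by
    simp only [G]
    fun_prop
  have e1 : ∀ ω, G (fun S => ω (M.eC (pt S) δ - M.eC 0 1)) ≤ M.Wlat γ L (k + j) f ω := by
    intro ω
    rw [wlat_eq M γ L (k + j) f hfin.toFinset (fun i hi => (hfin.mem_toFinset.1 hi).1)
      (fun i hi hf' => hfin.mem_toFinset.2 ⟨hi, hf'⟩)]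
    have hinj : InjOn (fun S => i0 + gi S) (lev k) := fun S hS S' hS' hSS => by
      refine hG.2.2.2.2.2.2.1 ?_
      simp only at hSS
      rw [← hctr S hS, ← hctr S' hS']
      simp only [hpt, hSS]
    refine le_trans ?_ (Finset.sum_le_sum_of_subset_of_nonneg
      (s := (lev k).image fun S => i0 + gi S) (fun i hi => ?_) fun i _ _ => ?_)
    · rw [Finset.sum_image hinj]
      refine Finset.sum_le_sum fun S hS => ?_
      exact mul_le_mul_of_nonneg_right
        (mul_le_mul_of_nonneg_left (hgood S hS).2.le (by positivity)) (by positivity)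
    · obtain ⟨S, hS, rfl⟩ := Finset.mem_image.1 hi
      refine hfin.mem_toFinset.2 ⟨fun h0 => (hgood S hS).1 ?_, (hc.trans (hgood S hS).2).ne'⟩
      simp only [hpt, h0]
      simp [zc]
    · exact mul_nonneg (mul_nonneg (by positivity) (hf _)) (by positivity)
  have e2 : ∀ ω : Om, G (fun S => ω (M'.eC (z + ρ * pt S) (ρ * δ) - M'.eC z ρ)) =
      κ * Real.exp (γ ^ 2 / 2 * σ - γ * ω (M'.eC z ρ)) * M'.Wn γ [] L k ω := by
    intro ω
    simp only [G, Model.Wn, List.append_nil]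
    rw [Finset.mul_sum]
    refine Finset.sum_congr rfl fun S hS => ?_
    rw [term hM M' γ _ z hρ hδ (hcb S hS), hC, hctr S hS, hrad S hS, pow_add, hκ]
    ring
  have hset : MeasurableSet {y | G y ≤ κ * Real.exp (γ ^ 2 / 2 * σ - γ * t) * ε'} :=
    measurableSet_le hGm measurable_const
  have hm : ∀ v : Dy → HH, Measurable fun (ω : Om) i => ω (v i) := fun v =>
    measurable_pi_lambda _ fun t => meas_ev _
  have hW0 : ∀ ω, 0 ≤ M'.Wn γ [] L k ω := fun ω =>
    Finset.sum_nonneg fun S _ => mul_nonneg (by positivity) (wk_pos _ _ _).le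
  calc gm {ω | M.Wlat γ L (k + j) f ω ≤ κ * Real.exp (γ ^ 2 / 2 * σ - γ * t) * ε'}
      ≤ gm {ω | G (fun S => ω (M.eC (pt S) δ - M.eC 0 1)) ≤
          κ * Real.exp (γ ^ 2 / 2 * σ - γ * t) * ε'} :=
        measure_mono fun ω hω => (e1 ω).trans hω
    _ = gm {ω | G (fun S => ω (M'.eC (z + ρ * pt S) (ρ * δ) - M'.eC z ρ)) ≤
          κ * Real.exp (γ ^ 2 / 2 * σ - γ * t) * ε'} := by
        have hmi : ∀ v : Dy → HH, gm {ω | G (fun S => ω (v S)) ≤
            κ * Real.exp (γ ^ 2 / 2 * σ - γ * t) * ε'} = ∫⁻ ω, ind (G (fun S => ω (v S)) ≤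
              κ * Real.exp (γ ^ 2 / 2 * σ - γ * t) * ε') ∂gm := fun v => meas_ind (hm v hset)
        rw [hmi, hmi]
        exact law hFE hE hL M M' z ρ δ hρ hδ Dy pt _
          (hT3.2.2.2.2.2.2.2.2.2.2.2.1 _ _ hset).1
    _ ≤ gm ({ω | 0 < ω (M'.eC z ρ) + -t} ∪ {ω | M'.Wn γ [] L k ω ≤ ε'}) := by
        refine measure_mono fun ω hω => ?_
        by_cases b1 : 0 < ω (M'.eC z ρ) + -t
        · exact Or.inl b1
        refine Or.inr ?_
        simp only [mem_setOf_eq, e2] at hω ⊢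
        have b2 : Real.exp (γ ^ 2 / 2 * σ - γ * t) ≤
            Real.exp (γ ^ 2 / 2 * σ - γ * ω (M'.eC z ρ)) :=
          Real.exp_le_exp.2 (by nlinarith)
        have b3 := mul_le_mul_of_nonneg_right (mul_le_mul_of_nonneg_left b2 hκ0.le) (hW0 ω)
        exact le_of_mul_le_mul_left (b3.trans hω) (by positivity)
    _ ≤ ENNReal.ofReal (η / 2) + ENNReal.ofReal (η / 2) := by
        refine (measure_union_le _ _).trans (add_le_add ?_ (hl k hk M' hball hC))
        refine (chernoff hD _ zero_le_one _).trans (le_of_eq ?_)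
        rw [nrm_eC hM M' z hρ hzb, hC, eE, ← Real.exp_log (show 0 < η / 2 by positivity)]
        congr 2
        rw [ht, hσ]
        ring
    _ = ENNReal.ofReal η := by
        rw [← ENNReal.ofReal_add (by positivity) (by positivity), add_halves]

end WLB

open WLB in
theorem blk_WLB (_hG1 : St_G1) (hD : St_G1D) (_hG3 : St_G3) (_hM0 : St_M0) (hM : St_MOD)
    (hFE : St_FE) (hE : St_EXP1) (hG : St_GEO1) (hT : St_T1) (hT3 : St_T3) (hCY : St_CYL)
    (hL : St_LAT) (hMBM : St_MBM) (_hR : St_R) (hLLN : St_LLN) (hLT : St_LT0) (h2 : St_G2)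
    (hMB : St_MB) : St_WLB := by
  intro γ hγ
  refine ⟨fun q T0 hq hq' => ?_, fun f hf ⟨w0, hw0⟩ η hη =>
    lower hD hM hFE hE hG hT hT3 hCY hL hLLN hLT hMB hγ f hf w0 hw0 η hη⟩
  set T1 := max T0 1 with hT1
  have h1 : 1 ≤ T1 := le_max_right _ _
  have h0 : T0 ≤ T1 := le_max_left _ _
  obtain ⟨K, hK0, hK⟩ := core h2 hM hFE hE hG hL hMBM hγ hq.le hq' (T1 + 1) (by linarith)
  set ζ := 2 * q - γ ^ 2 * q * (q - 1) / 2 with hζ
  have hζ2 : 2 < ζ := by
    rw [lt_div_iff₀ (pow_pos hγ.1 2)] at hq'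
    have := mul_pos (sub_pos.2 hq) (sub_pos.2 hq')
    rw [hζ]
    nlinarith
  have hp : 1 ≤ T1 ^ ζ := Real.one_le_rpow h1 (by linarith)
  refine ⟨K * T1 ^ ζ, ζ, hζ2, fun x0 r f hr hf hs L => ?_⟩
  by_cases hr1 : r ≤ 1
  · have hle : ENNReal.ofReal (K * r ^ ζ) ≤ ENNReal.ofReal (K * T1 ^ ζ * r ^ ζ) :=
      ENNReal.ofReal_le_ofReal (mul_le_mul_of_nonneg_right (le_mul_of_one_le_right hK0 hp)
        (Real.rpow_nonneg hr.le _))
    by_cases hx : ‖x0‖ ≤ T1 + 1
    · obtain ⟨l0, hl0⟩ := hK x0 r f hr (by linarith) hx hf (fun x h h' => (hs x h h').1) L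
      exact ⟨l0, fun l hl M => (hl0 l hl M).trans hle⟩
    · obtain ⟨l0, hl0⟩ := hK 0 r f hr (by linarith) (by rw [norm_zero]; linarith) hf
        (fun x h h' => by
          obtain ⟨b1, b2⟩ := hs x h h'
          have := norm_sub_le x (x - x0)
          rw [sub_sub_cancel] at this
          exact absurd (by linarith) hx) L
      exact ⟨l0, fun l hl M => (hl0 l hl M).trans hle⟩
  · obtain ⟨l0, hl0⟩ := hK 0 T1 f (by linarith) (by linarith) (by rw [norm_zero]; linarith) hf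
      (fun x h h' => by rw [sub_zero]; exact (hs x h h').2.trans h0) L
    refine ⟨l0, fun l hl M => (hl0 l hl M).trans (ENNReal.ofReal_le_ofReal ?_)⟩
    exact le_mul_of_one_le_right (mul_nonneg hK0 (by linarith))
      (Real.one_le_rpow (by linarith) (by linarith))

end

end Pool.Agent.Lib.APPS
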