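import Pool.Agent.Lib.APPS.Blue3
import Pool.Agent.Lib.APPS.B_FM

/-!
Block WLB, first part: moment bound for the lattice chaos measure of a small ball.
-/

namespace Pool.Agent.Lib.APPS

open MeasureTheory ProbabilityTheory Filter Topology Set Metric
open scoped NNReal ENNReal RealInnerProductSpace Classical

noncomputable section

namespace WLB

open FM

theorem law (hFE : St_FE) (hE : St_EXP1) (hL : St_LAT) (M M' : Model) (z : ℂ) (ρ δ : ℝ)
    (hρ : 0 < ρ) (hδ : 0 < δ) (ι : Type) (c : ι → ℂ) (F : (ι → ℝ) → ℝ≥0∞) (hF : Measurable F) :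
    ∫⁻ ω, F (fun i => ω (M.eC (c i) δ - M.eC 0 1)) ∂gm =
      ∫⁻ ω, F (fun i => ω (M'.eC (z + ρ * c i) (ρ * δ) - M'.eC z ρ)) ∂gm := by
  have hc := hFE.2.2.2.2.2.2.2.2.1
  have h := hL.1 M M' z ρ hρ ι (fun i => circ (c i) δ) (fun _ => circ 0 1)
    fun i => ⟨(hc _ _ hδ).1, (hc _ _ one_pos).1⟩
  have e1 : ∀ i, (circ (c i) δ).map (fun x => z + ρ * x) = circ (z + ρ * c i) (ρ * δ) :=
    fun i => (hE.2.1 _ _ _ _ hρ).1
  have e2 : (circ 0 1).map (fun x => z + ρ * x) = circ z ρ := by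
    rw [(hE.2.1 _ _ _ _ hρ).1, mul_zero, add_zero, mul_one]
  simp only [e1, e2] at h
  have hm : ∀ v : ι → HH, Measurable fun (ω : Om) i => ω (v i) := fun v =>
    measurable_pi_lambda _ fun t => meas_ev _
  rw [← lintegral_map hF (hm _), ← lintegral_map hF (hm _)]
  exact congrArg (fun μ => ∫⁻ y, F y ∂μ) h

theorem zc_re (i : ℤ × ℤ) : (zc i).re = i.1 := by simp [zc]
theorem zc_im (i : ℤ × ℤ) : (zc i).im = i.2 := by simp [zc]

theorem zc_ne {i : ℤ × ℤ} (hi : i ≠ 0) : zc i ≠ 0 := by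
  intro h
  have h1 := zc_re i
  have h2 := zc_im i
  rw [h] at h1 h2
  simp only [Complex.zero_re, Complex.zero_im] at h1 h2
  exact hi (Prod.ext (by exact_mod_cast h1.symm) (by exact_mod_cast h2.symm))

theorem fin_lat {h : ℝ} (hh : 0 < h) (B : ℝ) : {i : ℤ × ℤ | ‖(h : ℂ) * zc i‖ ≤ B}.Finite := by
  refine (Finset.finite_toSet (Finset.Icc (-⌈B / h⌉) ⌈B / h⌉ ×ˢ
    Finset.Icc (-⌈B / h⌉) ⌈B / h⌉)).subset fun i hi => ?_
  have h0 : ‖zc i‖ ≤ ⌈B / h⌉ := by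
    refine le_trans ?_ (Int.le_ceil _)
    rw [le_div_iff₀ hh]
    simp only [mem_setOf_eq, norm_mul, Complex.norm_real, Real.norm_eq_abs, abs_of_pos hh] at hi
    linarith
  have h1 := (Complex.abs_re_le_norm (zc i)).trans h0
  have h2 := (Complex.abs_im_le_norm (zc i)).trans h0
  rw [zc_re] at h1
  rw [zc_im] at h2
  have h3 : |i.1| ≤ ⌈B / h⌉ := by exact_mod_cast h1
  have h4 : |i.2| ≤ ⌈B / h⌉ := by exact_mod_cast h2
  simp only [Finset.coe_product, Finset.coe_Icc, mem_prod, mem_Icc]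
  exact ⟨abs_le.1 h3, abs_le.1 h4⟩

theorem cnt1 {h s : ℝ} (hh : 0 < h) (hs : 0 ≤ s) (a t : ℝ) : ∃ A : Finset ℤ,
    (A.card : ℝ) ≤ s / h + 1 ∧ ∀ n : ℤ, t + h * n ∈ Icc a (a + s) → n ∈ A := by
  refine ⟨Finset.Icc ⌈(a - t) / h⌉ ⌊(a + s - t) / h⌋, ?_, fun n hn => ?_⟩
  · rw [Int.card_Icc]
    have h1 := Int.le_ceil ((a - t) / h)
    have h2 := Int.floor_le ((a + s - t) / h)
    have h3 : (a + s - t) / h = (a - t) / h + s / h := by ring
    have h4 : 0 ≤ s / h := by positivity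
    rcases le_total 0 (⌊(a + s - t) / h⌋ + 1 - ⌈(a - t) / h⌉) with h5 | h5
    · have h6 : (((⌊(a + s - t) / h⌋ + 1 - ⌈(a - t) / h⌉).toNat : ℤ) : ℝ) =
          ((⌊(a + s - t) / h⌋ + 1 - ⌈(a - t) / h⌉ : ℤ) : ℝ) := by rw [Int.toNat_of_nonneg h5]
      push_cast at h6
      linarith
    · rw [Int.toNat_of_nonpos h5]
      push_cast
      linarith
  · rw [Finset.mem_Icc, Int.ceil_le, Int.le_floor, div_le_iff₀ hh, le_div_iff₀ hh]
    constructor
    · linarith [hn.1]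
    · linarith [hn.2]

theorem cnt2 {h : ℝ} (hh : 0 < h) (z : ℂ) (S : Dy) (hs : h ≤ side S) : ∃ A : Finset (ℤ × ℤ),
    h ^ 2 * A.card ≤ 4 * side S ^ 2 ∧ ∀ i, z + (h : ℂ) * zc i ∈ box S → i ∈ A := by
  obtain ⟨A, hA, hA'⟩ := cnt1 hh (hh.le.trans hs) (corner S).re z.re
  obtain ⟨B, hB, hB'⟩ := cnt1 hh (hh.le.trans hs) (corner S).im z.im
  refine ⟨A ×ˢ B, ?_, fun i hi => Finset.mem_product.2 ⟨hA' _ ?_, hB' _ ?_⟩⟩
  · rw [Finset.card_product]
    push_cast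
    have e : h * (side S / h + 1) = side S + h := by field_simp
    have h1 : h * A.card ≤ 2 * side S := by nlinarith
    have h2 : h * B.card ≤ 2 * side S := by nlinarith
    have h3 := mul_le_mul h1 h2 (by positivity) (by linarith)
    nlinarith
  · have := hi.1
    simpa [zc_re] using this
  · have := hi.2
    simpa [zc_im] using this

theorem nrm_eC (hM : St_MOD) (M : Model) (y : ℂ) {β : ℝ} (hβ : 0 < β)
    (hO : closedBall y β ⊆ M.O) : ‖M.eC y β‖ ^ 2 = M.C0 - Real.log β := by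
  rw [← real_inner_self_eq_norm_sq]
  exact (hM M).2.2.2.2.2.2.2.2.2.2.1 y β β hβ le_rfl hO

theorem inner_nonneg (hM : St_MOD) (hFE : St_FE) (M : Model) (z y : ℂ) {ρ β R : ℝ} (hρ : 0 < ρ)
    (hβ : 0 < β) (hR : 1 ≤ R) (hρR : ρ < R) (hO : M.O = ball z R) (hC : M.C0 = Real.log R)
    (hy : closedBall y β ⊆ M.O) : 0 ≤ ⟪M.eC z ρ, M.eC y β⟫ := by
  have hc := hFE.2.2.2.2.2.2.2.2.1
  have h1 : circ z ρ M.Oᶜ = 0 := measure_mono_null (compl_subset_compl.2
    (sphere_subset_closedBall.trans (hO ▸ closedBall_subset_ball hρR))) (hc z ρ hρ).2.1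
  have h2 : circ y β M.Oᶜ = 0 := measure_mono_null (compl_subset_compl.2
    (sphere_subset_closedBall.trans hy)) (hc y β hβ).2.1
  obtain ⟨-, -, -, m4, -, -, -, m8, -⟩ := hM M
  rw [Model.eC, Model.eC, m4 _ _ (hc z ρ hρ).1 (hc y β hβ).1 h1 h2, m8 _ _ _ hρ (hc y β hβ).1, hC]
  have := (hc y β hβ).1.2
  by_cases hi : Integrable (fun x => Real.log (max ‖x - z‖ ρ)) (circ y β)
  · have h3 : ∫ x, Real.log (max ‖x - z‖ ρ) ∂circ y β ≤ ∫ _, Real.log R ∂circ y β := by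
      refine integral_mono_ae hi (integrable_const _) ?_
      filter_upwards [h2] with x hx
      have hx' : x ∈ ball z R := hO ▸ hx
      rw [mem_ball, dist_eq_norm] at hx'
      exact Real.log_le_log (hρ.trans_le (le_max_right _ _)) (max_le hx'.le hρR.le)
    rw [integral_const, probReal_univ, one_smul] at h3
    linarith
  · rw [integral_undef hi]
    linarith [Real.log_nonneg hR]

theorem meas_Wk (γ : ℝ) (v : HH) : Measurable (Wk γ v) :=
  Real.measurable_exp.comp (((meas_ev v).const_mul _).sub_const _)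

theorem wk_pos (γ : ℝ) (v : HH) (ω : Om) : 0 < Wk γ v ω := Real.exp_pos _

/-- removal of a common negatively correlated factor -/
theorem drop (h2 : St_G2) {ι : Type} [Fintype ι] (γ q : ℝ) (hγ : 0 ≤ γ) (hq : 0 ≤ q) (w : HH)
    (a : ι → ℝ) (e : ι → HH) (ha : ∀ i, 0 ≤ a i) (he : ∀ i, 0 ≤ ⟪w, e i⟫) :
    ∫⁻ ω, eE (-(γ * q) * ω w) * ENNReal.ofReal (∑ i, a i * Wk γ (e i) ω) ^ q ∂gm ≤
      eE (γ ^ 2 * q ^ 2 * ‖w‖ ^ 2 / 2) *
        ∫⁻ ω, ENNReal.ofReal (∑ i, a i * Wk γ (e i) ω) ^ q ∂gm := by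
  set h : HH := (-(γ * q)) • w with hh
  have hf : Measurable fun ω => ENNReal.ofReal (∑ i, a i * Wk γ (e i) ω) ^ q :=
    (Finset.measurable_sum _ fun i _ => (meas_Wk γ _).const_mul _).ennreal_ofReal.pow_const _
  have hcm := h2.2.1 h _ hf
  have hn : ‖h‖ ^ 2 = γ ^ 2 * q ^ 2 * ‖w‖ ^ 2 := by
    rw [hh, norm_smul, mul_pow, Real.norm_eq_abs, sq_abs]; ring
  have e1 : ∀ ω : Om, eE (-(γ * q) * ω w) * ENNReal.ofReal (∑ i, a i * Wk γ (e i) ω) ^ q =
      eE (γ ^ 2 * q ^ 2 * ‖w‖ ^ 2 / 2) *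
        (ENNReal.ofReal (∑ i, a i * Wk γ (e i) ω) ^ q * eE (ω h - ‖h‖ ^ 2 / 2)) := by
    intro ω
    rw [mul_left_comm, ← eE_add, mul_comm, hn, hh, map_smul, smul_eq_mul]
    congr 2
    ring
  simp_rw [e1]
  rw [lintegral_const_mul' _ _ (eE_ne_top _), ← hcm]
  refine mul_le_mul_right (lintegral_mono fun ω => ?_) _
  refine ENNReal.rpow_le_rpow (ENNReal.ofReal_le_ofReal (Finset.sum_le_sum fun i _ =>
    mul_le_mul_of_nonneg_left ?_ (ha i))) hq
  refine Real.exp_le_exp.2 ?_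
  simp only [LinearMap.add_apply, dv_apply, hh, real_inner_smul_left]
  have := mul_nonneg (mul_nonneg hγ (mul_nonneg hγ hq)) (he i)
  nlinarith

theorem term (hM : St_MOD) (M : Model) (γ : ℝ) (y z : ℂ) {ρ δ : ℝ} (hρ : 0 < ρ) (hδ : 0 < δ)
    (hO : closedBall y (ρ * δ) ⊆ M.O) (ω : Om) :
    δ ^ (γ ^ 2 / 2) * Real.exp (γ * ω (M.eC y (ρ * δ) - M.eC z ρ)) =
      Real.exp (γ ^ 2 / 2 * (M.C0 - Real.log ρ) - γ * ω (M.eC z ρ)) *
        Wk γ (M.eC y (ρ * δ)) ω := by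
  rw [Wk, nrm_eC hM M y (by positivity) hO, Real.rpow_def_of_pos hδ, ← Real.exp_add,
    ← Real.exp_add, Real.log_mul hρ.ne' hδ.ne', map_sub]
  congr 1
  ring

theorem wlat_eq (M : Model) (γ : ℝ) (L l : ℕ) (f : Cyl → ℝ) (s : Finset (ℤ × ℤ))
    (h0 : ∀ i ∈ s, i ≠ 0)
    (hs : ∀ i, i ≠ 0 → f (toCyl ((((1 / 2 : ℝ) ^ l : ℝ) : ℂ) * zc i)) ≠ 0 → i ∈ s) (ω : Om) :
    M.Wlat γ L l f ω = ∑ i ∈ s, (1 / 4 : ℝ) ^ l * f (toCyl ((((1 / 2 : ℝ) ^ l : ℝ) : ℂ) * zc i)) *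
      ((2 ^ L * (1 / 2 : ℝ) ^ l) ^ (γ ^ 2 / 2) *
        Real.exp (γ * ω (M.eC ((((1 / 2 : ℝ) ^ l : ℝ) : ℂ) * zc i) (2 ^ L * (1 / 2 : ℝ) ^ l)
          - M.eC 0 1))) := by
  rw [Model.Wlat, tsum_eq_sum (s := s)]
  · refine Finset.sum_congr rfl fun i hi => ?_
    rw [if_neg (h0 i hi)]
    ring
  · intro i hi
    split_ifs with h
    · rfl
    · have : f (toCyl ((((1 / 2 : ℝ) ^ l : ℝ) : ℂ) * zc i)) = 0 := by
        by_contra h'
        exact hi (hs i h h')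
      rw [this, mul_zero, zero_mul]

theorem core (h2 : St_G2) (hM : St_MOD) (hFE : St_FE) (hE : St_EXP1) (hG : St_GEO1)
    (hL : St_LAT) (hMBM : St_MBM) {γ : ℝ} (hγ : γ ∈ Ioo (0 : ℝ) 2) {q : ℝ} (hq : 1 ≤ q)
    (hq' : q < 4 / γ ^ 2) (T2 : ℝ) (hT : 1 ≤ T2) :
    ∃ K : ℝ, 0 ≤ K ∧ ∀ (x0 : ℂ) (r : ℝ) (f : Cyl → ℝ), 0 < r → r ≤ T2 → ‖x0‖ ≤ T2 →
      (∀ w, 0 ≤ f w ∧ f w ≤ 1) → (∀ x, x ≠ 0 → f (toCyl x) ≠ 0 → ‖x - x0‖ ≤ r) →
      ∀ L : ℕ, ∃ l0 : ℕ, ∀ l ≥ l0, ∀ M : Model,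
        ∫⁻ ω, ENNReal.ofReal (M.Wlat γ L l f ω) ^ q ∂gm ≤
          ENNReal.ofReal (K * r ^ (2 * q - γ ^ 2 * q * (q - 1) / 2)) := by
  obtain ⟨K, hK⟩ := hMBM γ hγ q 4 hq hq'
  have hγ0 : 0 < γ := hγ.1
  set R0 := 10 * T2 with hR0
  set ζ := 2 * q - γ ^ 2 * q * (q - 1) / 2 with hζ
  refine ⟨|K| * Real.exp (q * (γ ^ 2 / 2 * Real.log R0) + γ ^ 2 * q ^ 2 * Real.log R0 / 2 +
    γ ^ 2 * q * (q - 1) * Real.log R0 / 2 + ζ * Real.log 4), by positivity,
    fun x0 r f hr hrT hx0 hf hfs L => ?_⟩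
  set ρ := 1 / (4 * r) with hρd
  have hρ : 0 < ρ := by positivity
  have hρr : ρ * r = 1 / 4 := by rw [hρd]; field_simp
  obtain ⟨l0, hl0⟩ := exists_pow_lt_of_lt_one (show 0 < 1 / 8 / (ρ * 2 ^ L) by positivity)
    (show (1 / 2 : ℝ) < 1 by norm_num)
  refine ⟨l0, fun l hl M => ?_⟩
  set h := (1 / 2 : ℝ) ^ l with hh
  have hh0 : 0 < h := by positivity
  set δ := 2 ^ L * h with hδd
  have hδ : 0 < δ := by positivity
  have hβ : ρ * δ ≤ 1 / 8 := by
    have h1 : h ≤ (1 / 2 : ℝ) ^ l0 := pow_le_pow_of_le_one (by norm_num) (by norm_num) hl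
    have h3 := h1.trans hl0.le
    rw [le_div_iff₀ (by positivity)] at h3
    rw [hδd]
    linarith
  have hhδ : ρ * h ≤ ρ * δ := by
    refine mul_le_mul_of_nonneg_left ?_ hρ.le
    exact le_mul_of_one_le_left hh0.le (one_le_pow₀ (by norm_num))
  obtain ⟨n, hn1, hn2⟩ := exists_nat_pow_near_of_lt_one (show 0 < ρ * δ by positivity)
    (by linarith) (show (0 : ℝ) < 1 / 2 by norm_num) (by norm_num)
  have hn : 2 ≤ n := by
    by_contra hc
    have h1 : (1 / 2 : ℝ) ^ 2 ≤ (1 / 2 : ℝ) ^ (n + 1) :=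
      pow_le_pow_of_le_one (by norm_num) (by norm_num) (by omega)
    linarith
  set z : ℂ := ctr [] - ρ * x0 with hz
  obtain ⟨M', hO, hC, -⟩ := (hM M).2.2.1 z (ρ * R0) (by positivity)
  have hρT : 1 / 4 ≤ ρ * T2 := hρr ▸ mul_le_mul_of_nonneg_left hrT hρ.le
  have hball : closedBall (ctr []) 2 ⊆ M'.O := by
    intro y hy
    rw [hO, mem_ball, dist_eq_norm]
    rw [mem_closedBall, dist_eq_norm] at hy
    have e : y - z = (y - ctr []) + ρ * x0 := by rw [hz]; ring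
    have h1 : ‖(ρ : ℂ) * x0‖ ≤ ρ * T2 := by
      rw [norm_mul, Complex.norm_real, Real.norm_eq_abs, abs_of_pos hρ]
      exact mul_le_mul_of_nonneg_left hx0 hρ.le
    rw [e]
    refine (norm_add_le _ _).trans_lt ?_
    rw [hR0]
    nlinarith
  have hfin : {i : ℤ × ℤ | i ≠ 0 ∧ ‖(h : ℂ) * zc i - x0‖ ≤ r}.Finite := by
    refine (fin_lat hh0 (r + ‖x0‖)).subset fun i hi => ?_
    have := norm_add_le ((h : ℂ) * zc i - x0) x0
    rw [sub_add_cancel] at this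
    simp only [mem_setOf_eq] at hi ⊢
    linarith [hi.2]
  set s := hfin.toFinset with hs
  have hmem : ∀ i : s, ‖z + ρ * ((h : ℂ) * zc i) - ctr []‖ ≤ 1 / 4 := by
    intro i
    have h1 := (hfin.mem_toFinset.1 i.2).2
    have e : z + ρ * ((h : ℂ) * zc i) - ctr [] = ρ * ((h : ℂ) * zc i - x0) := by rw [hz]; ring
    rw [e, norm_mul, Complex.norm_real, Real.norm_eq_abs, abs_of_pos hρ, ← hρr]
    exact mul_le_mul_of_nonneg_left h1 hρ.le
  have hs0 : side [] = 1 := by simp [side]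
  have hbox : ∀ i : s, z + ρ * ((h : ℂ) * zc i) ∈ box [] := fun i =>
    (hG.2.2.2.1 []).2.2.2.2 (by rw [mem_closedBall, dist_eq_norm, hs0]; linarith [hmem i])
  have hcb : ∀ i : s, closedBall (z + ρ * ((h : ℂ) * zc i)) (ρ * δ) ⊆ M'.O := fun i =>
    (closedBall_subset_closedBall' (by rw [dist_eq_norm]; linarith [hmem i])).trans hball
  choose τ hτ1 hτ2 using fun i : s => hG.2.2.2.2.2.2.2.1 [] n _ (hbox i)
  simp only [List.append_nil] at hτ2
  have hsτ : ∀ i, side (τ i) = (1 / 2 : ℝ) ^ n := fun i => by rw [side, hτ1]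
  set a : s → ℝ := fun i => (ρ * h) ^ 2 * f (toCyl ((h : ℂ) * zc i)) with ha
  have ha0 : ∀ i, 0 ≤ a i := fun i => mul_nonneg (sq_nonneg _) (hf _).1
  have hc := hFE.2.2.2.2.2.2.2.2.1
  have hβ0 : 0 < ρ * δ := by positivity
  have hSp : Spread [] 4 n a τ fun i => circ (z + ρ * ((h : ℂ) * zc i)) (ρ * δ) := by
    refine ⟨ha0, hτ1, fun i => (hc _ _ hβ0).1, fun i => ?_, fun i => ?_, fun S => ?_⟩
    · refine measure_mono_null (compl_subset_compl.2 (sphere_subset_closedBall.trans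
        (closedBall_subset_closedBall' ?_))) (hc _ _ hβ0).2.1
      have := (hG.2.2.2.1 (τ i)).2.2.2.1 _ (hτ2 i)
      rw [List.append_nil, dist_eq_norm]
      rw [hsτ] at this ⊢
      linarith
    · have h1 := (hM M').2.2.2.1 _ _ (hc _ _ hβ0).1 (hc _ _ hβ0).1
        (measure_mono_null (compl_subset_compl.2 (sphere_subset_closedBall.trans (hcb i)))
          (hc _ _ hβ0).2.1)
        (measure_mono_null (compl_subset_compl.2 (sphere_subset_closedBall.trans (hcb i)))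
          (hc _ _ hβ0).2.1)
      have h3 := nrm_eC hM M' _ hβ0 (hcb i)
      rw [← real_inner_self_eq_norm_sq, Model.eC, h1] at h3
      have h4 := Real.log_le_log (by positivity) hn1.le
      rw [pow_succ, Real.log_mul (by positivity) (by norm_num), one_div (2 : ℝ),
        Real.log_inv, ← one_div] at h4
      have h5 : Real.log 2 ≤ 2 - 1 := Real.log_le_sub_one_of_pos (by norm_num)
      rw [List.append_nil, hsτ]
      linarith
    · by_cases hS : S.length = n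
      · have hsS : side S = (1 / 2 : ℝ) ^ n := by rw [side, hS]
        obtain ⟨A, hA, hA'⟩ := cnt2 (show 0 < ρ * h by positivity) z S (by rw [hsS]; linarith)
        have h1 : (Finset.univ.filter fun i : s => τ i = S).card ≤ A.card := by
          refine Finset.card_le_card_of_injOn (fun i => i.1) (fun i hi => hA' _ ?_)
            fun i _ j _ hij => Subtype.ext hij
          have h3 := hτ2 i
          rw [(Finset.mem_filter.1 hi).2] at h3
          push_cast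
          rwa [mul_assoc]
        have h3 : ∑ i ∈ Finset.univ.filter (fun i : s => τ i = S), a i ≤
            (Finset.univ.filter fun i : s => τ i = S).card • (ρ * h) ^ 2 :=
          Finset.sum_le_card_nsmul _ _ _ fun i _ =>
            mul_le_of_le_one_right (sq_nonneg _) (hf _).2
        rw [nsmul_eq_mul] at h3
        have h4 : ((Finset.univ.filter fun i : s => τ i = S).card : ℝ) ≤ A.card := by
          exact_mod_cast h1
        have h5 : side S ^ 2 = (1 / 4 : ℝ) ^ n := by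
          rw [hsS, ← pow_mul, mul_comm, pow_mul]; norm_num
        have h6 := mul_le_mul_of_nonneg_left h4 (sq_nonneg (ρ * h))
        rw [← h5]
        linarith
      · rw [Finset.sum_eq_zero]
        · positivity
        · intro i hi
          exact absurd ((Finset.mem_filter.1 hi).2 ▸ hτ1 i) hS
  have hB := hK M' [] n s a τ _ hn (by rw [hs0, mul_one]; exact hball) hSp
  have hR1 : 1 < R0 := by rw [hR0]; linarith
  have hρR : ρ < ρ * R0 := lt_mul_of_one_lt_right hρ hR1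
  have hw : ‖M'.eC z ρ‖ ^ 2 = Real.log R0 := by
    rw [nrm_eC hM M' z hρ (hO ▸ closedBall_subset_ball hρR), hC,
      Real.log_mul hρ.ne' (by positivity)]
    ring
  have hD := drop h2 γ q hγ0.le (by linarith) (M'.eC z ρ) a
    (fun i : s => M'.eC (z + ρ * ((h : ℂ) * zc i)) (ρ * δ)) ha0 fun i =>
      inner_nonneg hM hFE M' z _ hρ hβ0 (by rw [hR0]; nlinarith) hρR hO hC (hcb i)
  let F : (s → ℝ) → ℝ≥0∞ := fun y => ENNReal.ofReal (∑ i : s, (1 / 4 : ℝ) ^ l *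
    f (toCyl ((h : ℂ) * zc i)) * (δ ^ (γ ^ 2 / 2) * Real.exp (γ * y i))) ^ q
  have hF : Measurable F := by
    refine Measurable.pow_const (Measurable.ennreal_ofReal ?_) _
    fun_prop
  have e1 : ∀ ω, ENNReal.ofReal (M.Wlat γ L l f ω) ^ q =
      F fun i : s => ω (M.eC ((h : ℂ) * zc i) δ - M.eC 0 1) := by
    intro ω
    rw [wlat_eq M γ L l f s (fun i hi => (hfin.mem_toFinset.1 hi).1)
      (fun i hi hf' => hfin.mem_toFinset.2 ⟨hi, hfs _ (mul_ne_zero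
        (Complex.ofReal_ne_zero.2 hh0.ne') (zc_ne hi)) hf'⟩), ← Finset.sum_coe_sort]
  have e2 : ∀ ω : Om, F (fun i : s => ω (M'.eC (z + ρ * ((h : ℂ) * zc i)) (ρ * δ) - M'.eC z ρ)) =
      eE (q * (γ ^ 2 / 2 * Real.log R0 - 2 * Real.log ρ)) * (eE (-(γ * q) * ω (M'.eC z ρ)) *
        ENNReal.ofReal (∑ i, a i * Wk γ (M'.eC (z + ρ * ((h : ℂ) * zc i)) (ρ * δ)) ω) ^ q) := by
    intro ω
    have b1 : ∑ i : s, (1 / 4 : ℝ) ^ l * f (toCyl ((h : ℂ) * zc i)) * (δ ^ (γ ^ 2 / 2) *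
        Real.exp (γ * ω (M'.eC (z + ρ * ((h : ℂ) * zc i)) (ρ * δ) - M'.eC z ρ))) =
        Real.exp (γ ^ 2 / 2 * Real.log R0 - 2 * Real.log ρ - γ * ω (M'.eC z ρ)) *
          ∑ i, a i * Wk γ (M'.eC (z + ρ * ((h : ℂ) * zc i)) (ρ * δ)) ω := by
      rw [Finset.mul_sum]
      refine Finset.sum_congr rfl fun i _ => ?_
      rw [term hM M' γ _ z hρ hδ (hcb i), hC, Real.log_mul hρ.ne' (by positivity)]
      have b2 : Real.exp (γ ^ 2 / 2 * (Real.log ρ + Real.log R0 - Real.log ρ) -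
          γ * ω (M'.eC z ρ)) = Real.exp (γ ^ 2 / 2 * Real.log R0 - 2 * Real.log ρ -
            γ * ω (M'.eC z ρ)) * ρ ^ 2 := by
        have b5 : ρ ^ 2 = Real.exp (2 * Real.log ρ) := by
          rw [two_mul, Real.exp_add, Real.exp_log hρ, pow_two]
        rw [b5, ← Real.exp_add]
        congr 1
        ring
      have b3 : (1 / 4 : ℝ) ^ l = h ^ 2 := by
        rw [hh, ← pow_mul, mul_comm, pow_mul]; norm_num
      rw [b2, b3]
      simp only [ha]
      ring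
    simp only [F]
    rw [b1, ENNReal.ofReal_mul (Real.exp_pos _).le,
      ENNReal.mul_rpow_of_nonneg _ _ (by linarith), ← mul_assoc (eE _), ← eE_add]
    change eE _ ^ q * _ = _
    rw [eE_rpow _ _ (by linarith)]
    congr 2
    ring
  simp_rw [e1]
  rw [law hFE hE hL M M' z ρ δ hρ hδ s (fun i => (h : ℂ) * zc i) F hF]
  simp_rw [e2]
  rw [lintegral_const_mul' _ _ (eE_ne_top _)]
  refine (mul_le_mul_right (hD.trans (mul_le_mul_right hB _)) _).trans ?_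
  rw [hw, hC, eE, eE, ← ENNReal.ofReal_mul (Real.exp_pos _).le,
    ← ENNReal.ofReal_mul (Real.exp_pos _).le]
  refine ENNReal.ofReal_le_ofReal ?_
  have b4 : Real.log ρ = -Real.log 4 - Real.log r := by
    rw [hρd, one_div, Real.log_inv, Real.log_mul (by norm_num) hr.ne']; ring
  rw [Real.rpow_def_of_pos hr, mul_assoc |K|, ← Real.exp_add, mul_left_comm _ K, mul_left_comm _ K,
    ← Real.exp_add, ← Real.exp_add]
  refine mul_le_mul (le_abs_self K) (le_of_eq ?_) (Real.exp_pos _).le (abs_nonneg K)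
  congr 1
  rw [Real.log_mul hρ.ne' (by positivity), b4, hζ]
  simp only [List.length_nil, Nat.cast_zero]
  ring

end WLB

end

end Pool.Agent.Lib.APPS
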