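import Pool.Agent.Lib.APPS.Core

/-!
Block statements, part 1: Gaussian space, potential theory, trees, random walks, moments.
-/

namespace Pool.Agent.Lib.APPS

open MeasureTheory ProbabilityTheory Filter Topology Set Metric
open scoped NNReal ENNReal CompactlySupported BoundedContinuousFunction RealInnerProductSpace
  Classical

noncomputable section

def St_G1 : Prop := IsG gm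

def St_G1D : Prop :=
  (∀ v : HH, ∫⁻ ω, eE (ω v) ∂gm = eE (‖v‖ ^ 2 / 2)) ∧
  (∀ (v : HH) (t : ℝ), 0 ≤ t → gm {ω | t ≤ ω v} ≤ eE (-t ^ 2 / (2 * ‖v‖ ^ 2))) ∧
  (∀ (v : HH) (a b : ℝ), v ≠ 0 → gm {ω | ω v ∈ Icc a b} ≤ ENNReal.ofReal ((b - a) / ‖v‖)) ∧
  (∀ (v : HH) (f : ℝ → ℝ≥0∞), v ≠ 0 → Measurable f →
    ∫⁻ ω, f (ω v) ∂gm = ∫⁻ t, ENNReal.ofReal (pd (‖v‖ ^ 2) t) * f t) ∧
  (∀ (v w : HH) (t : ℝ), ‖v‖ ≤ ‖w‖ → gm {ω | t < ω v} ≤ 2 * gm {ω | t < ω w}) ∧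
  (∀ (γ : ℝ) (v : HH), ∫⁻ ω, ENNReal.ofReal (Wk γ v ω) ∂gm = 1) ∧
  (∀ (v : HH) (lam : ℝ), ∫⁻ ω, eE (lam * |ω v|) ∂gm ≤ 2 * eE (lam ^ 2 * ‖v‖ ^ 2 / 2))

def St_G2 : Prop :=
  (∀ P P' : Measure Om, IsFiniteMeasure P → IsFiniteMeasure P' →
    (∀ v : HH, P.map (fun ω : Om => ω v) = P'.map (fun ω : Om => ω v)) → P = P') ∧
  (∀ (h : HH) (f : Om → ℝ≥0∞), Measurable f →
    ∫⁻ ω, f (ω + dv h) ∂gm = ∫⁻ ω, f ω * eE (ω h - ‖h‖ ^ 2 / 2) ∂gm) ∧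
  (∀ (ι : Type) [Fintype ι] (a : ι → HH), Orthonormal ℝ a → ∀ f : Om → ℝ≥0∞, Measurable f →
    ∫⁻ ω, f ω ∂gm = ∫⁻ ω, ∫⁻ ξ, f (ω + ∑ i, (ξ i - ω (a i)) • dv (a i))
      ∂(Measure.pi fun _ : ι => gaussianReal 0 1) ∂gm) ∧
  (∀ (ι : Type) [Fintype ι] (w : ι → HH) (f : (ι → ℝ) × Om → ℝ≥0∞), Measurable f →
    (∀ t i, InvD (w i) fun ω => f (t, ω)) →
    ∫⁻ ω, f (fun i => ω (w i), ω) ∂gm = ∫⁻ ω', ∫⁻ ω, f (fun i => ω' (w i), ω) ∂gm ∂gm)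

def St_G3 : Prop :=
  (∀ (T Ω : Type) [MeasurableSpace Ω] (X : T → Ω → ℝ) (P : Measure Ω) (c : T → T → ℝ),
    CG X P c → ∀ v : T → HH, Gram v c →
      P.map (fun ω t => X t ω) = gm.map fun (ω : Om) t => ω (v t)) ∧
  (∀ (T : Type) (v : T → HH) (c : T → T → ℝ), Gram v c → CG (fun t (ω : Om) => ω (v t)) gm c) ∧
  (∀ (T : Type) (v v' : T → HH), (∀ s t, ⟪v s, v t⟫ = ⟪v' s, v' t⟫) →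
    gm.map (fun (ω : Om) t => ω (v t)) = gm.map fun (ω : Om) t => ω (v' t)) ∧
  (∀ (c : Dy → Dy → ℝ) (v : Dy → HH), Gram v c → gm.map (fun (ω : Om) S => ω (v S)) = gl c) ∧
  (∀ (ι κ : Type) (v : ι → HH) (w : κ → HH), (∀ i k, ⟪v i, w k⟫ = 0) →
    IndepFun (fun (ω : Om) i => ω (v i)) (fun (ω : Om) k => ω (w k)) gm) ∧
  (∀ (J : Type) (κ : J → Type) (v : ∀ j, κ j → HH),
    (∀ j j', j ≠ j' → ∀ k k', ⟪v j k, v j' k'⟫ = 0) →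
    iIndepFun (fun j (ω : Om) k => ω (v j k)) gm) ∧
  (∀ (T : Type) (v v' : T → HH) (t : ℝ≥0), (∀ s s', ⟪v' s, v' s'⟫ = ⟪v s, v s'⟫ + t) →
    ∀ f : (T → ℝ) → ℝ≥0∞, Measurable f → ∫⁻ ω, f (fun s => ω (v' s)) ∂gm =
      ∫⁻ ω, ∫⁻ ξ, f (fun s => ω (v s) + ξ) ∂gaussianReal 0 t ∂gm)

def St_G4 : Prop :=
  (∀ (ι : Type) [Fintype ι] (v : ι → HH) (y w : HH), w ∈ Submodule.span ℝ (range v) →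
    (∀ i, ⟪y - w, v i⟫ = 0) → ∀ Ξ : ℝ → ℝ, ConvexOn ℝ univ Ξ → (∀ t, 0 ≤ Ξ t) →
    ∀ G : (ι → ℝ) → ℝ≥0∞, Measurable G →
      ∫⁻ ω, G (fun i => ω (v i)) * ENNReal.ofReal (Ξ (ω w)) ∂gm ≤
        ∫⁻ ω, G (fun i => ω (v i)) * ENNReal.ofReal (Ξ (ω y)) ∂gm) ∧
  (∀ h : HH, h ≠ 0 → ∃ C : ℝ, ∀ (lam : ℝ) (f fb : Om → ℝ≥0∞), 0 < lam → Measurable f →
    Measurable fb →
    (∀ ω (s s' : ℝ), f (ω + s • dv h) ≠ 0 → f (ω + s' • dv h) ≠ 0 → |s - s'| ≤ lam) →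
    (∀ ω (s : ℝ), |s| ≤ 1 → f (ω + s • dv h) ≤ fb ω) →
    ∫⁻ ω, f ω ∂gm ≤ ENNReal.ofReal (C * lam) * ∫⁻ ω, fb ω ∂gm) ∧
  (∀ (γ : ℝ) (v w : HH), ∫⁻ ω, ENNReal.ofReal |Wk γ v ω - Wk γ w ω| ∂gm ≤
    ENNReal.ofReal (2 * |γ| * ‖v - w‖))

def St_SI : Prop :=
  ∀ (e w w' : HH) (c lo hi lo' hi' : ℝ) (G : Om → ℝ≥0∞), Measurable G → 0 < ⟪w, e⟫ →
    0 < ⟪w', e⟫ → lo < hi → lo' < hi' → surf e w c lo hi G = surf e w' c lo' hi' G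

def St_CH : Prop :=
  Measurable zs ∧ (∀ y, 0 ≤ zs y) ∧
  (∀ (q : Dy → HH) (ε : ℝ), ChainH q ε →
    ∀ᵐ ω ∂gm, ∀ S, |ω (q S)| ≤ zs fun S => ω (q S)) ∧
  ∀ lam : ℝ,
    (∀ ε : ℝ, ∃ C : ℝ, ∀ q, ChainH q ε →
      ∫⁻ ω, eE (lam * zs fun S => ω (q S)) ∂gm ≤ ENNReal.ofReal C) ∧
    (∀ η > 0, ∃ ε > 0, ∀ q, ChainH q ε →
      ∫⁻ ω, eE (lam * zs fun S => ω (q S)) ∂gm ≤ ENNReal.ofReal (1 + η))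

def St_ROS : Prop :=
  ∀ q : ℝ, 1 ≤ q → ∃ C : ℝ, ∀ (Ω α β J : Type) [MeasurableSpace Ω] [MeasurableSpace α]
    [MeasurableSpace β] [Fintype J] (P : Measure Ω) [IsProbabilityMeasure P] (Z0 : Ω → α)
    (Z : J → Ω → β) (f : J → α × β → ℝ≥0∞), Measurable Z0 → (∀ j, Measurable (Z j)) →
    (∀ j, Measurable (f j)) → IndepFun Z0 (fun ω j => Z j ω) P → iIndepFun Z P →
    (∫⁻ ω, (∑ j, f j (Z0 ω, Z j ω)) ^ q ∂P ≤ ENNReal.ofReal C *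
      (∫⁻ ω, (∑ j, ∫⁻ b, f j (Z0 ω, b) ∂P.map (Z j)) ^ q ∂P +
        ∑ j, ∫⁻ ω, f j (Z0 ω, Z j ω) ^ q ∂P)) ∧
    (1 < q → q ≤ 2 → ∫⁻ ω, ENNReal.ofReal |∑ j, ((f j (Z0 ω, Z j ω)).toReal -
        (∫⁻ b, f j (Z0 ω, b) ∂P.map (Z j)).toReal)| ∂P ≤
      3 * (∑ j, ∫⁻ ω, f j (Z0 ω, Z j ω) ^ q ∂P) ^ (1 / q))

def St_P1 : Prop :=
  (∀ f, LipC f → LipE f) ∧
  (∀ f g, LipE f → LipE g → LipE (f + g) ∧ gr (f + g) = gr f + gr g) ∧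
  (∀ (c : ℝ) f, LipE f → LipE (c • f) ∧ gr (c • f) = c • gr f) ∧
  (∀ (c : ℝ) f, LipE f → LipE (fun x => f x + c) ∧ gr (fun x => f x + c) = gr f) ∧
  (∀ f g, LipE f → LipE g → Integrable (fun x => ⟪gradient f x, gradient g x⟫) ∧
    ⟪gr f, gr g⟫ = (2 * Real.pi)⁻¹ * ∫ x, ⟪gradient f x, gradient g x⟫) ∧
  (∀ f g, LipE f → LipE g → (∀ x ∈ tsupport g, ∃ c, f =ᶠ[𝓝 x] fun _ => c) →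
    ⟪gr f, gr g⟫ = 0) ∧
  (∀ f : ℂ → ℝ, Measurable (gradient f)) ∧
  (∀ (f : ℂ → ℝ) K, LipschitzWith K f → ∀ x, ‖gradient f x‖ ≤ K) ∧
  (∀ f (c C : ℝ), LipE f → (∀ x, |f x - c| ≤ C / (1 + ‖x‖)) → ∃ φ : ℕ → ℂ → ℝ,
    (∀ n, LipC (φ n)) ∧ (∀ (n : ℕ) x, ‖x‖ ≤ n → φ n x = f x - c) ∧
    (∀ n x, |φ n x| ≤ |f x - c|) ∧ Tendsto (fun n => gr (φ n)) atTop (𝓝 (gr f))) ∧
  (∃ W : Submodule ℝ HH, (W : Set HH) = closure (gr '' {φ | LipC φ})) ∧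
  (∀ v ∈ closure (gr '' {φ | LipC φ}), ∀ B : ℝ, 0 ≤ B →
    (∀ φ, LipC φ → |⟪v, gr φ⟫| ≤ B * ‖gr φ‖) → ‖v‖ ≤ B)

def St_P2 : Prop :=
  (∀ (y : ℂ) (δ : ℝ) φ, 0 < δ → LipC φ →
    ∫ x, ⟪gradient (fun x : ℂ => Real.log (max ‖x - y‖ δ)) x, gradient φ x⟫ =
      -(2 * Real.pi) * ∫ x, φ x ∂circ y δ) ∧
  (∀ (u φ : ℂ → ℝ), ContDiff ℝ 2 u → LipC φ →
    ∫ x, ⟪gradient u x, gradient φ x⟫ = -∫ x, φ x * Laplacian.laplacian u x)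

def St_FE : Prop :=
  (∀ μ ν, FE μ → FE ν → Integrable (fun p : ℂ × ℂ => Real.log ‖p.1 - p.2‖) (μ.prod ν)) ∧
  (∀ μ ν, FE μ → FE ν → FE (μ + ν)) ∧
  (∀ (t : ℝ≥0∞) μ, t ≠ ∞ → FE μ → FE (t • μ)) ∧ FE 0 ∧
  (∀ μ ν, FE μ → FE ν → Ie μ ν = Ie ν μ ∧ Ie μ ν = ∫ x, ∫ y, -Real.log ‖x - y‖ ∂ν ∂μ) ∧
  (∀ μ μ' ν, FE μ → FE μ' → FE ν → Ie (μ + μ') ν = Ie μ ν + Ie μ' ν) ∧
  (∀ (t : ℝ) μ ν, 0 ≤ t → FE μ → FE ν → Ie (ENNReal.ofReal t • μ) ν = t * Ie μ ν) ∧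
  (∀ S, PFE (unif S) ∧ unif S (box S)ᶜ = 0) ∧
  (∀ c r, 0 < r → PFE (circ c r) ∧ circ c r (sphere c r)ᶜ = 0 ∧
    PFE (disc c r) ∧ disc c r (closedBall c r)ᶜ = 0) ∧
  (∀ ρ : ℂ → ℝ≥0∞, Measurable ρ → (∃ B : ℝ≥0∞, B ≠ ∞ ∧ ∀ x, ρ x ≤ B) →
    (∃ r : ℝ, ∀ x, r < ‖x‖ → ρ x = 0) → FE (volume.withDensity ρ)) ∧
  (∀ (μ : Measure ℂ) (a ρ : ℂ), ρ ≠ 0 → PFE μ → PFE (μ.map fun x => a + ρ * x)) ∧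
  (∀ (μ ν : Measure ℂ) (a ρ : ℂ), ρ ≠ 0 → PFE μ → PFE ν →
    Ie (μ.map fun x => a + ρ * x) (ν.map fun x => a + ρ * x) = Ie μ ν - Real.log ‖ρ‖)

def St_EXP1 : Prop :=
  (∀ (x c : ℂ) (r : ℝ), 0 < r → Integrable (fun y => Real.log ‖x - y‖) (circ c r) ∧
    ∫ y, Real.log ‖x - y‖ ∂circ c r = Real.log (max ‖x - c‖ r)) ∧
  (∀ (c : ℂ) (r : ℝ) (a : ℂ) (ρ : ℝ), 0 < ρ →
    (circ c r).map (fun x => a + ρ * x) = circ (a + ρ * c) (ρ * r) ∧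
    (disc c r).map (fun x => a + ρ * x) = disc (a + ρ * c) (ρ * r)) ∧
  (∀ (c : ℂ) (r : ℝ) (ζ : ℂ), ‖ζ‖ = 1 → (circ c r).map (fun x => c + ζ * (x - c)) = circ c r) ∧
  (∀ (x c : ℂ) (r : ℝ), 0 < r → Integrable (fun y => Real.log ‖x - y‖) (disc c r) ∧
    ∫ y, -Real.log ‖x - y‖ ∂disc c r = if r ≤ ‖x - c‖ then -Real.log ‖x - c‖
      else -Real.log r + (1 - ‖x - c‖ ^ 2 / r ^ 2) / 2) ∧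
  (∀ (c : ℂ) (r : ℝ) (f : ℂ → ℝ≥0∞), 0 < r → Measurable f →
    ∫⁻ x, f x ∂disc c r =
      ∫⁻ s in Ioc 0 r, ENNReal.ofReal (2 * s / r ^ 2) * ∫⁻ x, f x ∂circ c s)

def St_EXP2 : Prop :=
  (∀ S A, unif (S ++ A) = (unif S).map (zS A)) ∧
  (∀ S S' A, kS (S ++ A) (S' ++ A) = kS S S' + A.length * l2) ∧
  (∀ S A z, potS (S ++ A) (zS A z) = potS S z + A.length * l2) ∧
  (∀ S z, Integrable (fun y => Real.log ‖z - y‖) (unif S)) ∧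
  (∀ S S', kS S S' = ∫ z, potS S z ∂unif S' ∧ kS S S' = kS S' S) ∧
  ∃ C : ℝ, 0 ≤ C ∧
    (∀ S z, |potS S z + Real.log (max ‖z - ctr S‖ (side S))| ≤ C) ∧
    (∀ S z z', |potS S z - potS S z'| ≤ C / side S * ‖z - z'‖) ∧
    (∀ S S', |kS S S' + Real.log (max ‖ctr S - ctr S'‖ (max (side S) (side S')))| ≤ C) ∧
    (∀ (r : ℝ) z A, 0 < r → Integrable (fun y => Real.posLog (r / ‖y - z‖)) (unif A) ∧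
      ∫ y, Real.posLog (r / ‖y - z‖) ∂unif A ≤ ins r z A + C) ∧
    (∀ (c : ℂ) (r : ℝ) A, 0 < r → |∫ y, Real.log (max ‖y - c‖ r) ∂unif A -
      Real.log (max (max ‖c - ctr A‖ (side A)) r)| ≤ C)

def St_M0 : Prop := Nonempty Model

def St_MOD : Prop :=
  ∀ M : Model,
  (∀ μ ν, FE μ → FE ν → M.e (μ + ν) = M.e μ + M.e ν) ∧
  (∀ (t : ℝ) μ, 0 ≤ t → FE μ → M.e (ENNReal.ofReal t • μ) = t • M.e μ) ∧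
  (∀ (c : ℂ) (r : ℝ), 0 < r → ∃ M' : Model, M'.O = ball c r ∧ M'.C0 = Real.log r ∧
    (∀ x, M'.bg x = -Real.log (max (‖x - c‖ / r) 1)) ∧
    ∀ μ, M'.e μ = M.e μ - μ.real univ • M.eC c r) ∧
  (∀ μ ν, PFE μ → PFE ν → μ M.Oᶜ = 0 → ν M.Oᶜ = 0 → ⟪M.e μ, M.e ν⟫ = M.C0 + Ie μ ν) ∧
  (∀ μ μ' ν ν', PFE μ → PFE μ' → PFE ν → PFE ν' →
    ⟪M.e μ - M.e μ', M.e ν - M.e ν'⟫ = Ie μ ν - Ie μ ν' - Ie μ' ν + Ie μ' ν') ∧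
  (∀ μ μ' ν, PFE μ → PFE μ' → PFE ν → μ M.Oᶜ = 0 → μ' M.Oᶜ = 0 →
    ⟪M.e μ - M.e μ', M.e ν⟫ = Ie μ ν - Ie μ' ν) ∧
  (∀ T, box T ⊆ M.O → Gram (fun S => M.eS (S ++ T)) (covE (M.C0 + T.length * l2))) ∧
  (∀ (c : ℂ) (r : ℝ) μ, 0 < r → PFE μ → Ie (circ c r) μ = -∫ y, Real.log (max ‖y - c‖ r) ∂μ) ∧
  (∀ (c : ℂ) (r : ℝ) μ ν, 0 < r → PFE μ → PFE ν → μ (closedBall c r)ᶜ = 0 →
    ν (closedBall c r)ᶜ = 0 → ⟪M.e μ - M.eC c r, M.e ν - M.eC c r⟫ = Real.log r + Ie μ ν) ∧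
  (∀ (c : ℂ) (r r' : ℝ) μ, 0 < r → r ≤ r' → PFE μ → μ (closedBall c r)ᶜ = 0 →
    closedBall c r ⊆ M.O → ⟪M.e μ - M.eC c r, M.eC c r'⟫ = 0) ∧
  (∀ (c : ℂ) (r r' : ℝ), 0 < r → r ≤ r' → closedBall c r' ⊆ M.O →
    ⟪M.eC c r, M.eC c r'⟫ = M.C0 - Real.log r') ∧
  (∀ (c : ℂ) (r : ℝ) T, 0 < r → box T ⊆ closedBall c r →
    Gram (fun S => M.eS (S ++ T) - M.eC c r) (covE (Real.log r + T.length * l2))) ∧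
  (∀ B, M.eS B = ∑ d : Fin 2 × Fin 2, (1 / 4 : ℝ) • M.eS (d :: B)) ∧
  (∀ T, IsTr T → ∀ B ∈ T, ∀ A, M.eS (B ++ A) =
    ∑ S ∈ (lvs T).filter (fun S => B <:+ S), (side S / side B) ^ 2 • M.eS (S ++ A)) ∧
  (box [] ⊆ M.O → ∃ i0, ∀ i ≥ i0, M.Ok i) ∧
  (box [] ⊆ M.O → ∃ φ, IsPsi M φ) ∧
  (∀ φ, IsPsi M φ → ∀ S, ⟪gr φ, M.eS S⟫ = 1) ∧
  (∀ C, 0 ≤ C → Gram (gvec (covE C)) (covE C) ∧ IsProbabilityMeasure (ex C))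

def St_BMP : Prop :=
  0 < bb ∧ ∃ E C : ℝ, 0 < E ∧ 0 < C ∧
  (∀ S, LipC (bumpF S) ∧ (∀ x, 0 ≤ bumpF S x ∧ bumpF S x ≤ C) ∧
    (∀ x, side S / 4 ≤ ‖x - ctr S‖ → bumpF S x = 0) ∧
    LipschitzWith (C / side S).toNNReal (bumpF S) ∧ ∫ x, bumpF S x ∂unif S = bb) ∧
  ∀ M : Model,
    (∀ S, box S ⊆ M.O → ∀ ν, FE ν → ⟪M.ub S, M.e ν⟫ = ∫ x, bumpF S x ∂ν) ∧
    (∀ S, ‖M.ub S‖ ^ 2 = E) ∧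
    (∀ S S', ¬S <:+ S' → ¬S' <:+ S →
      ⟪M.ub S, M.ub S'⟫ = 0 ∧ (box S ⊆ M.O → ⟪M.ub S, M.eS S'⟫ = 0)) ∧
    (∀ S S', |⟪M.ub S, M.ub S'⟫| ≤ C * (side S' / side S) ^ 2) ∧
    (∀ S B, box S ⊆ M.O → B <:+ S → ⟪M.ub S, M.eS B⟫ = bb * (side S / side B) ^ 2) ∧
    (∀ S B, box S ⊆ M.O → 0 ≤ ⟪M.ub S, M.eS B⟫ ∧ ⟪M.ub S, M.eS B⟫ ≤ C) ∧
    (∀ S φ, LipC φ → (∃ c, ∀ x ∈ box S, φ x = c) → ⟪M.ub S, gr φ⟫ = 0) ∧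
    (box [] ⊆ M.O → ∀ A B, A ≠ B → M.eS A - M.eS B ≠ 0) ∧
    (∀ A, box A ⊆ M.O → bb ^ 2 / E ≤ ‖M.eS A‖ ^ 2)

def St_YV : Prop :=
  ∃ C : ℝ, ∀ (M : Model) (S : Dy) (z : ℂ) (d : ℝ), box [] ⊆ M.O → 0 < d →
    closedBall z d ⊆ box S →
    (∀ B, (B <:+ S ∨ ¬S <:+ B) → ⟪M.Yv z d, M.eS B⟫ = M.C0 + potS B z) ∧
    ‖M.Yv z d - M.eS S‖ ^ 2 ≤ Real.log (side S / d) + C ∧
    (∀ A, ⟪M.Yv z d - M.eS S, M.eS A⟫ ≤ C + ins (side S) z A) ∧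
    (∀ S', |⟪M.Yv z d - M.eS S, M.ub S'⟫| ≤ C) ∧
    (∀ S', ¬S <:+ S' → ¬S' <:+ S → ⟪M.Yv z d, M.ub S'⟫ = 0) ∧
    (∀ φ, IsPsi M φ → ⟪M.Yv z d, gr φ⟫ = 1) ∧
    (∀ (c : ℂ) (r : ℝ), 0 < r → box S ⊆ closedBall c r → ⟪M.Yv z d - M.eS S, M.eC c r⟫ = 0)

def St_POIN : Prop :=
  ∃ C : ℝ, ∀ (S : Dy) (φ : ℂ → ℝ) (K : ℝ≥0), LipschitzWith K φ →
    ∫ x in box S, (φ x - ∫ y, φ y ∂unif S) ^ 2 ≤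
      C * side S ^ 2 * ∫ x in box S, ‖gradient φ x‖ ^ 2 ∧
    ∫ x in box S, |φ x - ∫ y, φ y ∂unif S| ≤ C * side S * ∫ x in box S, ‖gradient φ x‖

def St_GR : Prop :=
  ∀ ρ : ℂ → ℝ, Measurable ρ → (∃ B, ∀ x, |ρ x| ≤ B) → (∃ r : ℝ, ∀ x, r < ‖x‖ → ρ x = 0) →
    ∫ x, ρ x = 0 →
    LipE (fun x => ∫ y, -Real.log ‖x - y‖ * ρ y) ∧
    (∃ C : ℝ, ∀ x : ℂ, |∫ y, -Real.log ‖x - y‖ * ρ y| ≤ C / (1 + ‖x‖)) ∧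
    ∀ M : Model, M.e (volume.withDensity fun x => ENNReal.ofReal (ρ x)) -
      M.e (volume.withDensity fun x => ENNReal.ofReal (-ρ x)) =
        gr fun x => ∫ y, -Real.log ‖x - y‖ * ρ y

def St_DISC : Prop :=
  ∃ C : ℝ, 0 ≤ C ∧
  (∀ (c : ℂ) (r : ℝ) μ, 0 < r → PFE μ → μ (closedBall c (r / 2))ᶜ = 0 →
    PFE (bal c r μ) ∧ bal c r μ (sphere c r)ᶜ = 0) ∧
  (∀ (M : Model) (c : ℂ) (r : ℝ) μ, 0 < r → closedBall c r ⊆ M.O → PFE μ →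
    μ (closedBall c (r / 2))ᶜ = 0 →
    ⟪M.gv c r μ, M.eC c r⟫ = 0 ∧ ⟪M.qv c r μ, M.eC c r⟫ = 0 ∧
    (∀ ν', FE ν' → ν' (ball c r) = 0 → ⟪M.gv c r μ, M.e ν'⟫ = 0) ∧
    (∀ ρ, 0 ≤ ρ → μ (closedBall c ρ)ᶜ = 0 → ‖M.qv c r μ‖ ≤ C * ρ / r) ∧
    ∀ ν, PFE ν → ν (closedBall c (r / 2))ᶜ = 0 →
      ⟪M.gv c r μ, M.gv c r ν⟫ = ∫ p : ℂ × ℂ, Gk c r p.1 p.2 ∂(μ.prod ν) ∧
      0 ≤ ⟪M.gv c r μ, M.gv c r ν⟫ ∧ ⟪M.gv c r μ, M.qv c r ν⟫ = 0 ∧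
      ∀ (c' : ℂ) (ρ : ℝ), 0 ≤ ρ → μ (closedBall c' ρ)ᶜ = 0 → ν (closedBall c' ρ)ᶜ = 0 →
        ‖M.qv c r μ - M.qv c r ν‖ ≤ C * ρ / r) ∧
  ∀ (M : Model) (T : Dy) (r : ℝ), 2 ≤ r → closedBall (ctr T) (r * side T) ⊆ M.O →
    Gram (fun S => M.gv (ctr T) (r * side T) (unif (S ++ T))) (cov0 r) ∧
    ChainH (fun S => M.qv (ctr T) (r * side T) (unif (S ++ T))) (C / r) ∧
    (∀ S, ‖M.qv (ctr T) (r * side T) (unif (S ++ T))‖ ≤ C / r) ∧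
    ∀ S, ‖M.gv (ctr T) (r * side T) (unif (S ++ T))‖ ^ 2 ≤ Real.log r + C + S.length * l2

def St_MG1 : Prop :=
  ∀ g : Met, Integrable g.kap ∧ ∫ z, g.kap z = 1 ∧
    (∀ z, g.kap z = -Laplacian.laplacian g.σ z / (4 * Real.pi)) ∧
    (∃ C, ∀ z, |g.kap z| ≤ C / (1 + ‖z‖) ^ 3) ∧
    (∀ x, ∫ y, Real.log ‖x - y‖ * g.kap y = -g.σ x / 2 + ∫ y, Real.log ‖y‖ * g.kap y) ∧
    (∃ C, ∀ z, |g.σ z + 2 * Real.log (1 + ‖z‖)| ≤ C) ∧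
    LipE (fun x => -g.σ x / 2 - Real.log (max ‖x‖ 1)) ∧
    (∃ C, ∀ x, |-g.σ x / 2 - Real.log (max ‖x‖ 1) - -g.τ 0 / 2| ≤ C / (1 + ‖x‖))

def St_MG2 : Prop :=
  ∀ g : Met, (∀ S S', g.cov S S' = covE g.C0 S S') ∧
    ∀ S z, g.U S z = g.C0 + potS S z - g.σ z / 2

def St_MG3 : Prop := ∀ g : Met, ∃ M : Model, Lnk g M

def St_T1 : Prop :=
  (∀ k S, S ∈ lev k ↔ S.length = k) ∧ (∀ k, (lev k).card = 4 ^ k) ∧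
  (∀ T, IsTr T → (lvs T).card = 3 * T.card + 1 ∧ 2 * T.card ≤ 3 * (two T).card) ∧
  (∀ n T, T ∈ trees n ↔ IsTr T ∧ T.card = n) ∧ (∀ n, (trees n).card ≤ 16 ^ n) ∧
  (∀ T, IsTr T → ∀ A ∈ T, A.length < T.card) ∧
  (∀ T, IsTr T → ∀ P ∈ two T, P ∈ T ∧ (pr T P).1 ≠ (pr T P).2 ∧
    (pr T P).1 :: P ∈ lvs T ∧ (pr T P).2 :: P ∈ lvs T) ∧
  (∀ T, IsTr T → ∀ S, S ∈ lvs T ↔ S ∉ T ∧ ∀ B, B <:+ S → B ≠ S → B ∈ T) ∧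
  (∀ T, IsTr T → ∀ S ∈ lvs T, ∀ S' ∈ lvs T, S <:+ S' → S = S') ∧
  (∀ T, IsTr T → ∀ W, W ∉ T → ∃ S ∈ lvs T, S <:+ W) ∧
  (∀ x T, IsTr T → (HasTr x T ↔ (∀ A ∈ T, 0 < x A) ∧ ∀ S ∈ lvs T, x S ≤ 0)) ∧
  (∀ x T, HasTr x T → IsTr T ∧ tr x = T ∧ nB x = T.card ∧ ∀ S, Leaf x S ↔ S ∈ lvs T) ∧
  (∀ x, nB x ≠ ∞ → HasTr x (tr x)) ∧ (∀ x, nB x = ∞ → tr x = ∅) ∧ (∀ x, IsTr (tr x)) ∧
  (∀ x y, (∀ S, x S ≤ y S) → nB x ≤ nB y) ∧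
  (∀ x A B, IntN x (B ++ A) ↔ IntN x A ∧ IntN (sub x A) B) ∧
  (∀ x A, IntN x A → nB (sub x A) ≤ nB x) ∧
  (∀ x A, nB x ≠ ∞ → IntN x A → ∀ B, B ∈ tr (sub x A) ↔ B ++ A ∈ tr x) ∧
  (∀ F x A, nB x ≠ ∞ → SR F x A = indR (IntN x A) * SR F (sub x A) []) ∧
  (∀ x k, nB x ≤ ind (0 < x []) * 4 ^ k + ∑ T ∈ lev k, nB (sub x T)) ∧
  (∀ F x k, nB x ≠ ∞ → SR F x [] =
    ∑ A ∈ (tr x).filter (fun A => A.length < k), F (sub x A) + ∑ T ∈ lev k, SR F x T)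

def St_GEO1 : Prop :=
  (∀ S, 0 < side S ∧ side S ≤ 1) ∧ (∀ S A, side (S ++ A) = side S * side A) ∧
  (∀ S A, corner (S ++ A) = zS A (corner S) ∧ ctr (S ++ A) = zS A (ctr S) ∧
    box (S ++ A) = zS A '' box S) ∧
  (∀ S, IsCompact (box S) ∧ volume (box S) = ENNReal.ofReal (side S ^ 2) ∧ ctr S ∈ box S ∧
    (∀ y ∈ box S, ‖y - ctr S‖ ≤ 3 / 4 * side S) ∧ closedBall (ctr S) (side S / 2) ⊆ box S) ∧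
  (∀ S S', box S ⊆ box S' ↔ S' <:+ S) ∧
  (∀ S S', ¬S <:+ S' → ¬S' <:+ S →
    Disjoint (interior (box S)) (box S') ∧ volume (box S ∩ box S') = 0) ∧
  Function.Injective ctr ∧
  (∀ A k, ∀ y ∈ box A, ∃ S : Dy, S.length = k ∧ y ∈ box (S ++ A)) ∧
  (∀ S, corner S = (side S : ℂ) * zc (gi S) ∧ gi S ∈ gin S.length) ∧
  (∀ k, ∀ i ∈ gin k, ∃! S : Dy, S.length = k ∧ gi S = i) ∧
  (∀ (l : ℕ) (z : ℂ) (t : ℝ), 0 ≤ t →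
    (((lev l).filter fun V => ‖ctr V - z‖ ≤ t * (1 / 2 : ℝ) ^ l).card : ℝ) ≤ (2 * t + 1) ^ 2) ∧
  (∀ K1 k, ((lev k).filter fun V => ¬Loc K1 V).card ≤ 16 * 2 ^ (k + K1)) ∧
  (∀ K1 V, Loc K1 V → K1 + 3 ≤ V.length ∧ ∀ U ∈ nbr V, anc K1 U = anc K1 V) ∧
  (∀ l A, anc l A <:+ A ∧ (anc l A).length = min l A.length) ∧
  (∀ V A : Dy, V.length ≤ A.length → |(ctr A - ctr V).re| < 3 / 2 * side V →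
    |(ctr A - ctr V).im| < 3 / 2 * side V → anc V.length A ∈ nbr V)

def St_GEO2 : Prop :=
  (∀ x R, nB x ≤ 289 * (R.length + 1) + far x R + near x R) ∧
  (∀ x R (l : ℕ), l ≤ R.length → ∑' A : Dy, ind (IntN x A ∧ l ≤ A.length ∧
    8 * (1 / 2 : ℝ) ^ l < ‖ctr A - ctr R‖ ∧ ‖ctr A - ctr R‖ ≤ 16 * (1 / 2 : ℝ) ^ l) ≤
      annN x R l) ∧
  (∀ x R, ∑' A : Dy, ind (IntN x A ∧ R.length ≤ A.length ∧ ‖ctr A - ctr R‖ ≤ 8 * side R) ≤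
    near x R) ∧
  (∀ R : Dy, ∑' A : Dy, ind (A.length ≤ R.length ∧ ‖ctr A - ctr R‖ ≤ 8 * side A) ≤
    289 * (R.length + 1)) ∧
  (∀ R l, (ann R l).card ≤ 65 ^ 2) ∧
  (∀ B, unif B = ∑ d : Fin 2 × Fin 2, (4 : ℝ≥0∞)⁻¹ • unif (d :: B)) ∧
  (∀ T, IsTr T → ∀ B ∈ T, ∀ A, unif (B ++ A) = ∑ S ∈ (lvs T).filter (fun S => B <:+ S),
    ENNReal.ofReal ((side S / side B) ^ 2) • unif (S ++ A)) ∧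
  (∀ T, IsTr T → ∀ B ∈ T, ∑ S ∈ (lvs T).filter (fun S => B <:+ S), side S ^ 2 = side B ^ 2) ∧
  (∀ T, IsTr T → ∀ y ∈ box [], ∃ S ∈ lvs T, y ∈ box S)

def St_T3 : Prop :=
  Measurable nB ∧ (∀ A, MeasurableSet {x | IntN x A} ∧ MeasurableSet {x | Leaf x A}) ∧
  (∀ T, MeasurableSet {x | tr x = T} ∧ MeasurableSet {x | HasTr x T} ∧
    MeasurableSet {x | ∃ s ∈ Icc (-1 : ℝ) 1, HasTr (sh x s) T}) ∧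
  (∀ (α β : Type) [MeasurableSpace α] [MeasurableSpace β] (g : α → Dy → ℝ)
    (f : Finset Dy → α → β), Measurable g → (∀ T, Measurable (f T)) →
      Measurable fun a => f (tr (g a)) a) ∧
  (∀ A, Measurable fun x => sub x A) ∧ (Measurable fun p : (Dy → ℝ) × ℝ => sh p.1 p.2) ∧
  (∀ Q, Measurable fun p : (Dy → ℝ) × ℝ => drift Q p.1 p.2) ∧
  (∀ F R, Measurable F → Measurable fun x => SR F x R) ∧ Measurable nN ∧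
  (∀ R, (Measurable fun x => far x R) ∧ (Measurable fun x => near x R) ∧
    ∀ l, Measurable fun x => annN x R l) ∧
  (∀ (M : Model) γ u, Measurable (M.X γ u) ∧ ∀ c r, Measurable (M.Y γ u c r)) ∧
  (∀ (α : Type) [MeasurableSpace α] (p : α → Prop), MeasurableSet {a | p a} →
    (Measurable fun a => ind (p a)) ∧ Measurable fun a => indR (p a)) ∧
  (∀ Q h T, 0 < Q → HasTr (drift Q h 0) T → part Q h = ↑(lvs T) ∧ partF Q h = lvs T)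

def St_RW1 : Prop :=
  (∀ a > 0, ∀ s0 > 0, ∃ C : ℝ, ∀ s ≥ s0, ∀ t : ℝ,
    ∑' k : ℕ, ENNReal.ofReal (pd (s + k * l2) (t + a * k * l2)) ≤
      ENNReal.ofReal (C * min 1 (Real.exp (-(2 * a) * (t - a * s)))) ∧
    ∀ K : ℕ, ∑' k : ℕ, ind (K ≤ k) * ENNReal.ofReal (pd (s + k * l2) (t + a * k * l2)) ≤
      ENNReal.ofReal (C * Real.exp (-a * (t - a * s) - a ^ 2 * K * l2 / 2))) ∧
  (∀ γ ∈ Ioo (0 : ℝ) 2, ∀ (C t u : ℝ) (k : ℕ),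
    4 ^ k * pd (C + k * l2) (t - u + QQ γ * k * l2) =
      Real.exp (γ * (u - t) + γ ^ 2 * C / 2) * pd (C + k * l2) (t - u - γ * C + aa γ * k * l2) ∧
    4 ^ k * pd (C + k * l2) (t - u + QQ γ * k * l2) =
      Real.exp (4 / γ * (u - t) + 8 * C / γ ^ 2) *
        pd (C + k * l2) (t - u - 4 / γ * C - aa γ * k * l2)) ∧
  (∀ γ ∈ Ioo (0 : ℝ) 2, 0 < aa γ ∧ 2 < QQ γ ∧ 0 < th γ ∧ γ * th γ = 2 * aa γ ∧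
    γ * QQ γ = 2 + γ ^ 2 / 2 ∧ QQ γ + aa γ = 4 / γ ∧ 0 < bt γ ∧ bt γ < 1 ∧ bt γ < γ)

def St_RW6 : Prop :=
  ∀ a > 0, ∀ s ≥ 0,
    Tendsto (fun t : ℝ => ∑' k : ℕ, pd (s + k * l2) (t - a * k * l2)) atTop (𝓝 (a * l2)⁻¹) ∧
    ∀ ε > 0, Tendsto (fun t : ℝ => ∑' k : ℕ, ind (ε * t < |a * k * l2 - t|) *
      ENNReal.ofReal (pd (s + k * l2) (t - a * k * l2))) atTop (𝓝 0)

def St_RW2 : Prop :=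
  ∀ a > 0, ∀ κ > 0,
  (∀ p : ℝ, 1 ≤ p → ∃ C : ℝ, ∀ (b : ℕ → HH) (s u y : ℝ), 1 ≤ s → IsWk b s →
    ∑' k : ℕ, ∫⁻ ω, eE (-κ * |wk a b u ω k|) *
      (∑ i ∈ Finset.range (k + 1), ind (wk a b u ω i ∈ Ico y (y + 1))) ^ p ∂gm ≤
      ENNReal.ofReal (C * min 1 (Real.exp (-(2 * a) * (y - u - a * s))))) ∧
  ∃ c > 0, ∃ C : ℝ, ∀ (b : ℕ → HH) (s u t : ℝ), 1 ≤ s → IsWk b s →
    (∑' k : ℕ, ∫⁻ ω, eE (-κ * |wk a b u ω k|) ∂gm ≤ ENNReal.ofReal C) ∧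
    (∀ K : ℕ, ∑' k : ℕ, ind (K ≤ k) * ∫⁻ ω, eE (-κ * |wk a b u ω k|) ∂gm ≤
      ENNReal.ofReal (C * Real.exp (c * (u + a * s) - c ^ 2 * K))) ∧
    (∑' k : ℕ, ∑ i ∈ Finset.range (k + 1),
      ∫⁻ ω, eE (-κ * |wk a b u ω k|) * ind (t < wk a b u ω i) ∂gm ≤
      ENNReal.ofReal (C * Real.exp (-(2 * a) * (t - u - a * s)))) ∧
    (∀ D : ℕ, ∑' k : ℕ, ∑ i' ∈ Finset.range (k + 1), ∑ i ∈ Finset.range (k + 1),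
      ∫⁻ ω, eE (-κ * |wk a b u ω k|) *
        ind (i + D ≤ i' ∧ t < wk a b u ω i ∧ t < wk a b u ω i') ∂gm ≤
      ENNReal.ofReal (C * Real.exp (-(2 * a) * (t - u - a * s) - c * D))) ∧
    (∀ (d : ℕ) (K' : ℝ), ∑' k : ℕ, ∑ i ∈ Finset.range (k + 1),
      ∫⁻ ω, eE (-κ * |wk a b u ω k|) *
        ind (i + d ≤ k ∧ wk a b u ω i < t - K' ∧ t < wk a b u ω (i + d)) ∂gm ≤
      ENNReal.ofReal (C * Real.exp (-(2 * a) * (t - u - a * s) + C * d - a * K')))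

def St_FM : Prop :=
  ∀ γ ∈ Ioo (0 : ℝ) 2,
  (∃ K : ℝ, ∃ c > 0, ∀ C ≥ 0, ∀ v : Dy → HH, (∀ S, ‖v S‖ ^ 2 ≤ C + S.length * l2) → ∀ u : ℝ,
    (∑' S : Dy, gm {ω | 0 < drift (QQ γ) (fun S => ω (v S)) u S} ≤
      ENNReal.ofReal (K * Real.exp (γ * u + γ ^ 2 * C / 2))) ∧
    ∀ k : ℕ, ∑' S : Dy, ind (k ≤ S.length) * gm {ω | 0 < drift (QQ γ) (fun S => ω (v S)) u S} ≤
      ENNReal.ofReal (K * Real.exp (QQ γ * u + QQ γ ^ 2 * C / 2 - c * k))) ∧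
  ∀ q C1 : ℝ, 1 ≤ q → ∃ K : ℝ, ∀ g h : Dy → HH, (∀ S, ‖g S‖ ^ 2 ≤ C1 + S.length * l2) →
    (∀ S, ‖h S‖ ^ 2 ≤ C1) → ∀ u : ℝ,
    ∫⁻ ω, (∑' S : Dy, gm {ω' | 0 < drift (QQ γ) (fun S => ω' (g S) + ω (h S)) u S}) ^ q ∂gm ≤
      ENNReal.ofReal (K * Real.exp (γ * q * u))

def St_MB : Prop :=
  ∀ γ ∈ Ioo (0 : ℝ) 2, ∀ q : ℝ, 0 < q → q < 4 / γ ^ 2 → ∃ K : ℝ, ∀ (C : ℝ) (v : Dy → HH),
    Gram v (covE C) → ∀ u : ℝ, ∫⁻ ω, nB (drift (QQ γ) (fun S => ω (v S)) u) ^ q ∂gm ≤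
      ENNReal.ofReal (K * Real.exp (γ * q * u + γ ^ 2 * q ^ 2 * max C 0 / 2))

def St_MBb : Prop :=
  ∀ γ ∈ Ioo (0 : ℝ) 2, ∀ lam q C1 : ℝ, 0 ≤ lam → 0 < q → q < 4 / γ ^ 2 →
    γ * q < 2 * (QQ γ - lam) → ∃ K : ℝ, ∀ C ≤ C1, ∀ v : Dy → HH, Gram v (covE C) →
    ∀ (u : ℝ) (z : ℂ),
      ∫⁻ ω, nB (fun A => drift (QQ γ) (fun S => ω (v S)) u A + lam * ins 1 z A) ^ q ∂gm ≤
        ENNReal.ofReal (K * Real.exp (γ * q * u))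

def St_MBW : Prop :=
  ∀ γ ∈ Ioo (0 : ℝ) 2, ∀ q : ℝ, 1 ≤ q → q < 4 / γ ^ 2 → ∀ L : ℕ, ∃ K : ℝ,
    ∀ (M : Model) (T : Dy) (l : ℕ), L ≤ l → closedBall (ctr T) (2 * side T) ⊆ M.O →
      ∫⁻ ω, ENNReal.ofReal (M.Wn γ T L l ω) ^ q ∂gm ≤
        ENNReal.ofReal (K * Real.exp (γ ^ 2 * q * (q - 1) * (M.C0 + T.length * l2) / 2))

def St_MBM : Prop :=
  ∀ γ ∈ Ioo (0 : ℝ) 2, ∀ q Λ : ℝ, 1 ≤ q → q < 4 / γ ^ 2 → ∃ K : ℝ,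
    ∀ (M : Model) (T : Dy) (l' : ℕ) (I : Type) [Fintype I] (a : I → ℝ) (τ : I → Dy)
      (ν : I → Measure ℂ), 2 ≤ l' → closedBall (ctr T) (2 * side T) ⊆ M.O →
      Spread T Λ l' a τ ν →
      ∫⁻ ω, ENNReal.ofReal (∑ i, a i * Wk γ (M.e (ν i)) ω) ^ q ∂gm ≤
        ENNReal.ofReal (K * Real.exp (γ ^ 2 * q * (q - 1) * (M.C0 + T.length * l2) / 2))

end

end Pool.Agent.Lib.APPS
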