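import Pool.Agent.Lib.APPS.Core2

/-!
Block statements, part 2: renewal limits, laws of large numbers, rooted bounds, structure.
-/

namespace Pool.Agent.Lib.APPS

open MeasureTheory ProbabilityTheory Filter Topology Set Metric
open scoped NNReal ENNReal CompactlySupported BoundedContinuousFunction RealInnerProductSpace
  Classical

noncomputable section

def St_G5 : Prop :=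
  ∀ ρ > 0, ∃ C : ℝ, ∀ h : HH, ‖h‖ = ρ → ∀ (lam : ℝ) (f fb : Om → ℝ≥0∞), 0 < lam →
    Measurable f → Measurable fb →
    (∀ ω (s s' : ℝ), f (ω + s • dv h) ≠ 0 → f (ω + s' • dv h) ≠ 0 → |s - s'| ≤ lam) →
    (∀ ω (s : ℝ), |s| ≤ 1 → f (ω + s • dv h) ≤ fb ω) →
    ∫⁻ ω, f ω ∂gm ≤ ENNReal.ofReal (C * lam) * ∫⁻ ω, fb ω ∂gm

def St_ANC : Prop :=
  ∀ γ ∈ Ioo (0 : ℝ) 2, ∃ c > 0, ∀ C ≥ 0, ∃ K : ℝ, ∀ v, Gram v (covE C) →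
    ∀ (u t : ℝ) (i : ℕ), 0 ≤ t →
      ∑' B : Dy, ind (i ≤ B.length) * gm {ω | t < XV γ v u ω B ∧ XV γ v u ω (B.drop i) ≤ 0} ≤
        ENNReal.ofReal (K * Real.exp (γ * (u - t) - c * i - c * t))

def St_R0 : Prop :=
  ∀ γ ∈ Ioo (0 : ℝ) 2,
  (∀ (G : (Dy → ℝ) → ℝ≥0∞) (B : ℝ≥0∞), Measurable G → B ≠ ∞ → (∀ y, G y ≤ B * ind (0 < y [])) →
    palm γ G ≠ ∞ ∧ ∀ C ≥ 0, ∀ v, Gram v (covE C) →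
      Tendsto (fun u => eE (-γ * u) * ∑' A : Dy, ∫⁻ ω, G (sub (XV γ v u ω) A) ∂gm) atTop
        (𝓝 (eE (γ ^ 2 * C / 2) * palm γ G))) ∧
  (∀ (G : (Dy → ℝ) → ℝ≥0∞) (B : Dy), Measurable G →
    4 ^ B.length * palm γ (fun y => G (sub y B)) = palm γ G) ∧
  (∀ (G : (Dy → ℝ) → ℝ≥0∞) (s : ℝ), Measurable G →
    palm γ (fun y => G (sh y s)) = eE (γ * s) * palm γ G) ∧
  (∃ K0 > 0, ∀ t, palm γ (fun y => ind (t < y [])) = ENNReal.ofReal (K0 * Real.exp (-γ * t))) ∧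
  (∀ G G' : (Dy → ℝ) → ℝ≥0∞, Measurable G → Measurable G' →
    palm γ (fun y => G y + G' y) = palm γ G + palm γ G') ∧
  (∀ (G : (Dy → ℝ) → ℝ≥0∞) (c : ℝ≥0∞), Measurable G → palm γ (fun y => c * G y) = c * palm γ G) ∧
  (∀ G G' : (Dy → ℝ) → ℝ≥0∞, (∀ y, G y ≤ G' y) → palm γ G ≤ palm γ G') ∧
  (∀ (I : Type) [Countable I] (G : I → (Dy → ℝ) → ℝ≥0∞), (∀ i, Measurable (G i)) →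
    palm γ (fun y => ∑' i, G i y) = ∑' i, palm γ (G i))

def St_R : Prop :=
  ∀ γ ∈ Ioo (0 : ℝ) 2,
  (∀ F, BddM F → ∀ C ≥ 0, ∀ v, Gram v (covE C) →
    (∀ u, Integrable (fun ω => SR F (XV γ v u ω) []) gm) ∧
    Tendsto (fun u => Real.exp (-γ * u) * ∫ ω, SR F (XV γ v u ω) [] ∂gm) atTop
      (𝓝 (Real.exp (γ ^ 2 * C / 2) * cc γ F))) ∧
  (∀ F, 0 ≤ cc γ F) ∧
  (∀ F F', BddM F → BddM F' → cc γ (fun y => F y + F' y) = cc γ F + cc γ F') ∧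
  (∀ F (t : ℝ), BddM F → 0 ≤ t → cc γ (fun y => t * F y) = t * cc γ F) ∧
  (∀ F F', BddM F → BddM F' → (∀ y, 0 < y [] → F y ≤ F' y) → cc γ F ≤ cc γ F') ∧
  (∀ F, BddM F →
    ENNReal.ofReal (cc γ F) ≤ palm γ fun y => ind (0 < y []) * ENNReal.ofReal (F y)) ∧
  0 < cc γ one

def St_PA : Prop :=
  ∀ γ ∈ Ioo (0 : ℝ) 2,
  (∃ K : ℝ, ∀ lam ∈ Ioc (0 : ℝ) 1, ∀ d,
    palm γ (fun y => ind (|y [d]| ≤ lam)) ≤ ENNReal.ofReal (K * lam)) ∧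
  (∀ d (B : Dy) (c C η : ℝ), B ≠ [d] → 0 < η → ∃ lam0 > 0, ∀ lam ∈ Ioc 0 lam0,
    palm γ (fun y => ind (|y [d]| ≤ C * lam ∧ |y B + c| ≤ C * lam)) ≤ ENNReal.ofReal (η * lam)) ∧
  (∀ (𝒞 : Finset ℝ) (y : ℝ), ∀ᵐ x ∂ex 0, ∀ B, drift (QQ γ) x y B ∉ 𝒞) ∧
  (∀ ρ : ℝ, ∃ K : ℝ, ∀ (B B' : Dy) (t : ℝ), B'.length ≤ B.length →
    ‖ctr B' - ctr B‖ ≤ ρ * side B' →
    4 ^ B.length * palm γ (fun y => ind (0 < y B ∧ y B' ≤ t)) ≤ ENNReal.ofReal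
      (K * Real.exp (aa γ * t - aa γ ^ 2 * ((B.length : ℝ) - B'.length) * l2 / 2))) ∧
  (∀ F, BddM F → (∃ D : ℕ, ∀ x y, (∀ S : Dy, S.length ≤ D → x S = y S) → F x = F y) →
    (∃ 𝒞 : Finset ℝ, ∀ y : Dy → ℝ, (∀ B, y B ∉ 𝒞) → ContinuousAt F y) → Adm γ F)

def St_H0L : Prop :=
  ∀ γ ∈ Ioo (0 : ℝ) 2,
  (∃ K : ℝ, ∀ r ≥ 2, ∀ v, Gram v (cov0 r) → ∀ t,
    ∫⁻ ω, nB (XV γ v t ω) ∂gm ≤ ENNReal.ofReal (K * r ^ (γ ^ 2 / 2) * Real.exp (γ * t))) ∧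
  (∀ q : ℝ, 0 < q → q < 4 / γ ^ 2 → ∀ r ≥ 2, ∃ K : ℝ, ∀ v, Gram v (cov0 r) → ∀ t,
    ∫⁻ ω, nB (XV γ v t ω) ^ q ∂gm ≤ ENNReal.ofReal (K * Real.exp (γ * q * t))) ∧
  ∀ F, Mono F → ∀ ε > 0, ∃ r0 ≥ 2, ∀ r ≥ r0, ∃ t0, ∀ v, Gram v (cov0 r) → ∀ t ≥ t0,
    |Real.exp (-γ * t) * ∫ ω, SR F (XV γ v t ω) [] ∂gm - cc γ F * r ^ (γ ^ 2 / 2)| ≤
      ε * r ^ (γ ^ 2 / 2)

def St_LLN : Prop :=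
  ∀ γ ∈ Ioo (0 : ℝ) 2, ∀ F, Mono F → ∀ C η : ℝ, 0 < η → ∃ L0 : ℕ, ∀ L ≥ L0, ∃ l0 ≥ L, ∀ l ≥ l0,
    ∃ v0 : ℝ, ∀ v ≥ v0, ∀ (M : Model) (T : Dy), closedBall (ctr T) (2 * side T) ⊆ M.O →
      M.C0 + T.length * l2 = C →
      ∫⁻ ω, ENNReal.ofReal |Real.exp (-γ * v) * SR F (XV γ (fun S => M.eS (S ++ T)) v ω) [] -
        cc γ F * Real.exp (γ ^ 2 * C / 2) * M.Wn γ T L l ω| ∂gm ≤ ENNReal.ofReal η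

def St_LLM : Prop :=
  ∀ γ ∈ Ioo (0 : ℝ) 2, ∀ Λ C η : ℝ, 0 < η → ∃ L0 : ℕ, ∀ L ≥ L0, ∃ l0 ≥ L, ∀ l ≥ l0, ∀ l' ≥ l + 2,
    ∀ (M : Model) (T : Dy) (I : Type) [Fintype I] (a : I → ℝ) (τ : I → Dy) (ν : I → Measure ℂ),
      closedBall (ctr T) (2 * side T) ⊆ M.O → M.C0 + T.length * l2 ≤ C → Spread T Λ l' a τ ν →
      ∫⁻ ω, ENNReal.ofReal |∑ i, a i * (Wk γ (M.e (ν i)) ω -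
        Wk γ (M.eC (ctr (anc l (τ i) ++ T)) (2 ^ L * side (anc l (τ i) ++ T))) ω)| ∂gm ≤
        ENNReal.ofReal η

def St_LT0 : Prop :=
  ∀ γ ∈ Ioo (0 : ℝ) 2, ∀ C ≥ 0, ∀ η > 0, ∃ ε > 0, ∃ u0 : ℝ, ∀ v, Gram v (covE C) → ∀ u ≥ u0,
    gm {ω | nB (XV γ v u ω) ≤ ENNReal.ofReal (ε * Real.exp (γ * u))} ≤ ENNReal.ofReal η

def St_POS : Prop :=
  ∀ γ ∈ Ioo (0 : ℝ) 2, ∃ w0 > 0, ∃ lam0 > 0, ∀ lam ∈ Ioc 0 lam0, w0 ≤ cc γ (Fm lam)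

def St_TL : Prop :=
  (∀ γ ∈ Ioo (0 : ℝ) 2, ∀ (M : Model) (i0 : ℕ) (κ r0 v u : ℝ) (Γ : Dy → ℝ × Om → ℝ≥0∞)
    (Θ : ℕ → (ℕ → ℝ) → ℝ≥0∞) (b : ℕ → HH), M.Ok i0 → 1 ≤ r0 → 0 ≤ v →
    RootW M γ κ r0 i0 v Γ → DepLe Θ → IsWk b (M.C0 + i0 * l2) →
    M.RS γ u i0 Γ (fun R ω => Θ (R.length - (i0 + 2)) (M.rw γ u i0 R ω)) ≤
      ENNReal.ofReal (16 * v * Real.exp (γ * u + γ ^ 2 * M.C0 / 2)) *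
        ∑' k : ℕ, ∫⁻ ω, eE (-κ * |wk (aa γ) b (u + γ * M.C0 - aa γ * i0 * l2) ω k|) *
          Θ k (wk (aa γ) b (u + γ * M.C0 - aa γ * i0 * l2) ω) ∂gm) ∧
  (∀ (M : Model) (i0 : ℕ), M.Ok i0 → ∀ z ∈ box [],
    IsWk (fun j => M.eC z ((1 / 2 : ℝ) ^ (i0 + j))) (M.C0 + i0 * l2)) ∧
  (∀ γ κ r0 B c : ℝ, κ ≤ γ → 1 ≤ r0 → ∃ K ≥ 0, ∀ (w : HH) (V : Om → ℝ≥0∞) (v' : ℝ), ‖w‖ ≤ B →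
    Measurable V → 0 ≤ v' → ∫⁻ ω, V ω ^ (2 * r0) ∂gm ≤ ENNReal.ofReal v' ^ (2 * r0) → ∀ y : ℝ,
    ∫⁻ ω, (ind (0 < y + ω w + c) * V ω) ^ r0 ∂gm ≤
      ENNReal.ofReal (K * v' * Real.exp (γ * y - κ * |y|)) ^ r0) ∧
  (∃ B : ℝ, ∀ γ (M : Model) (i0 : ℕ) (R : Dy), M.Ok i0 → i0 + 2 ≤ R.length →
    closedBall (ctr R) (4 * side R) ⊆ M.O ∧
    (∀ u ω, M.YV γ u R ω = M.rad γ u R (R.length - 2) ω) ∧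
    (∀ S u ω, M.X γ u ω (S ++ R) = M.YV γ u R ω + ω (M.eS (S ++ R) - M.eC (ctr R) (4 * side R))
      - QQ γ * (S.length + 2) * l2) ∧
    ‖M.eS R - M.eC (ctr R) (4 * side R)‖ ≤ B ∧
    ∀ S (i : ℕ), i + 2 ≤ R.length →
      ⟪M.eS (S ++ R) - M.eC (ctr R) (4 * side R), M.eC (ctr R) ((1 / 2 : ℝ) ^ i)⟫ = 0) ∧
  (∀ γ ∈ Ioo (0 : ℝ) 2, ∀ κ r0 c : ℝ, κ ≤ γ → 1 ≤ r0 → ∃ v ≥ 0, ∀ (M : Model) (i0 : ℕ), M.Ok i0 →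
    ∃ Γ, RootW M γ κ r0 i0 v Γ ∧ ∀ R u ω, i0 + 2 ≤ R.length →
      Γ R (M.YV γ u R ω, ω) = ind (0 < M.X γ u ω R + c))

def St_TLD : Prop :=
  ∀ γ ∈ Ioo (0 : ℝ) 2, ∀ κ B C1 : ℝ, 0 < κ → κ ≤ γ → ∃ K : ℝ, ∀ (M : Model) (i0 : ℕ) (u : ℝ)
    (d : Dy → HH) (Θ Θb : ℕ → (ℕ → ℝ) → ℝ≥0∞) (b : ℕ → HH), M.Ok i0 → M.C0 ≤ C1 →
    IsWk b (M.C0 + i0 * l2) → DepLe Θ → (∀ k, Measurable (Θb k)) →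
    (∀ R, i0 + 4 ≤ R.length → ‖d R‖ ≤ B ∧ ∀ i, i0 ≤ i → i + 2 ≤ R.length →
      |⟪d R, M.eC (ctr R) ((1 / 2 : ℝ) ^ i)⟫| ≤ B) →
    (∀ k w s, (∀ j, |s j| ≤ B) → Θ k (w + s) ≤ Θb k w) →
    ∑' R : Dy, ind (i0 + 4 ≤ R.length) * ∫⁻ ω, ind (0 < M.X γ u ω R) * eE (ω (d R)) *
        Θ (R.length - (i0 + 2)) (M.rw γ u i0 R ω) ∂gm ≤
      ENNReal.ofReal (K * Real.exp (γ * u)) *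
        ∑' k : ℕ, ∫⁻ ω, eE (-κ * |wk (aa γ) b (u + γ * M.C0 - aa γ * i0 * l2) ω k|) *
          Θb k (wk (aa γ) b (u + γ * M.C0 - aa γ * i0 * l2) ω) ∂gm

def St_RUA : Prop :=
  ∀ γ ∈ Ioo (0 : ℝ) 2, ∀ κ p C1 : ℝ, 0 < κ → 0 < p → p < 4 / γ ^ 2 →
  (∃ K : ℝ, ∀ (M : Model) (i0 : ℕ) (u y : ℝ), M.Ok i0 → M.C0 ≤ C1 →
    ∑' R : Dy, ind (i0 + 4 ≤ R.length) * ∑ l ∈ Finset.Icc (i0 + 5) R.length,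
      ∫⁻ ω, eE (γ * M.YV γ u R ω - κ * |M.YV γ u R ω|) *
        ind (M.rad γ u R (l - 5) ω ∈ Ico y (y + 1)) * annN (M.X γ u ω) R l ^ p ∂gm ≤
      ENNReal.ofReal (K * Real.exp (γ * u + γ * p * y - 2 * aa γ * (y - u)))) ∧
  ∀ i0 : ℕ, ∃ K : ℝ, ∀ (M : Model) (u : ℝ), M.Ok i0 → M.C0 ≤ C1 →
    ∑' R : Dy, ind (i0 + 4 ≤ R.length) *
      ∫⁻ ω, eE (γ * M.YV γ u R ω - κ * |M.YV γ u R ω|) * fblk (M.X γ u ω) R i0 ^ p ∂gm ≤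
      ENNReal.ofReal (K * Real.exp (γ * u + γ * p * u))

def St_RUL : Prop :=
  ∀ γ ∈ Ioo (0 : ℝ) 2, ∃ q r0 : ℝ, th γ < q ∧ 1 < q ∧ 1 ≤ r0 ∧ ∀ κ > 0, ∀ C1 : ℝ, ∃ K : ℝ,
    ∀ (M : Model) (i0 : ℕ) (v u t r : ℝ) (Γ : Dy → ℝ × Om → ℝ≥0∞), M.Ok i0 → M.C0 ≤ C1 →
      r0 ≤ r → 0 ≤ v → RootW M γ κ r i0 v Γ →
      M.RS γ u i0 Γ (fun R ω => M.low γ u i0 t R ω ^ q) ≤
        ENNReal.ofReal (K * v * Real.exp (γ * u + γ * q * t - 2 * aa γ * (t - u)))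

def St_RUF : Prop :=
  ∀ γ ∈ Ioo (0 : ℝ) 2, ∃ r0 ε : ℝ, 1 ≤ r0 ∧ 0 < ε ∧ ∀ κ > 0, ∀ (C1 : ℝ) (i0 : ℕ), ∃ K : ℝ,
    ∀ (M : Model) (v u n r : ℝ) (Γ : Dy → ℝ × Om → ℝ≥0∞), M.Ok i0 → M.C0 ≤ C1 → r0 ≤ r → 0 ≤ v →
      RootW M γ κ r i0 v Γ → 0 < n →
      M.RS γ u i0 Γ (fun _ _ => 1) ≤ ENNReal.ofReal (K * v * Real.exp (γ * u)) ∧
      M.RS γ u i0 Γ (fun R ω => ind (ENNReal.ofReal n ≤ far (M.X γ u ω) R)) ≤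
        ENNReal.ofReal (K * v * Real.exp (γ * u) * (Real.exp (γ * u) / n) ^ th γ) ∧
      M.RS γ u i0 Γ (fun R ω => ind (ENNReal.ofReal n ≤ fblk (M.X γ u ω) R i0)) ≤
        ENNReal.ofReal (K * v * Real.exp (γ * u) * (Real.exp (γ * u) / n) ^ (th γ + ε))

def St_RUN : Prop :=
  ∀ γ ∈ Ioo (0 : ℝ) 2, ∀ κ lam : ℝ, 0 < κ → 0 ≤ lam → lam < γ → ∃ r0 ε : ℝ, 1 ≤ r0 ∧ 0 < ε ∧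
    ∀ c0 C1 : ℝ, ∃ K : ℝ, ∀ (M : Model) (i0 : ℕ) (v u n r : ℝ) (Γ : Dy → ℝ × Om → ℝ≥0∞) z f,
      M.Ok i0 → M.C0 ≤ C1 → r0 ≤ r → 0 ≤ v → RootW M γ κ r i0 v Γ → ShiftOK c0 lam z f →
      0 ≤ u → Real.exp (γ * u) ≤ n →
      M.RS γ u i0 Γ (fun R ω => ind (ENNReal.ofReal n ≤ near (addF (M.X γ u ω) (f R)) R)) ≤
        ENNReal.ofReal (K * v * Real.exp (γ * u) * (Real.exp (γ * u) / n) ^ th γ * n ^ (-ε))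

def St_RUG : Prop :=
  ∀ γ ∈ Ioo (0 : ℝ) 2,
  (∀ κ lam : ℝ, 0 < κ → 0 ≤ lam → lam < γ → ∃ r0 : ℝ, 1 ≤ r0 ∧
    ∀ (c0 C1 : ℝ) (i0 : ℕ), ∃ K : ℝ, ∀ (M : Model) (v u n : ℝ) (Γ : Dy → ℝ × Om → ℝ≥0∞) z f,
      M.Ok i0 → M.C0 ≤ C1 → 0 ≤ v → RootW M γ κ r0 i0 v Γ → ShiftOK c0 lam z f → 0 ≤ u → 1 ≤ n →
      M.RS γ u i0 Γ (fun R ω => ind (ENNReal.ofReal n ≤ nB (addF (M.X γ u ω) (f R)))) ≤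
        ENNReal.ofReal (K * v * Real.exp (γ * u) * (Real.exp (γ * u) / n) ^ th γ)) ∧
  ∀ M : Model, box [] ⊆ M.O → ∀ u δ η : ℝ, 0 < δ → 0 < η → ∀ᶠ n : ℝ in atTop,
    ENNReal.ofReal (n ^ th γ) * ∑' R : Dy, ((R.length : ℝ≥0∞) + 1) *
      gm {ω | 0 < M.X γ u ω R ∧ ENNReal.ofReal (δ * n) ≤ NN (M.X γ u ω) R} ≤ ENNReal.ofReal η

def St_RUS : Prop :=
  ∀ γ ∈ Ioo (0 : ℝ) 2,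
  (∀ lam c0 C : ℝ, 0 ≤ lam → lam < γ → ∃ K : ℝ, ∀ v z f, Gram v (covE C) → ShiftOK c0 lam z f →
    ∀ u n : ℝ, 0 ≤ u → 1 ≤ n →
      ∑' R : Dy, gm {ω | 0 < XV γ v u ω R + c0 ∧
        ENNReal.ofReal n ≤ nB (addF (XV γ v u ω) (f R))} ≤
        ENNReal.ofReal (K * Real.exp (γ * u) * (Real.exp (γ * u) / n) ^ th γ)) ∧
  ∀ C : ℝ, ∃ K : ℝ, ∀ v, Gram v (covE C) → ∀ u n : ℝ, 1 ≤ n →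
    gm {ω | ENNReal.ofReal n ≤ nB (XV γ v u ω)} ≤
      ENNReal.ofReal (K * (Real.exp (γ * u) / n) ^ (th γ + 1))

def St_NMS : Prop :=
  ∀ γ ∈ Ioo (0 : ℝ) 2, ∀ M : Model, box [] ⊆ M.O → ∀ u c η : ℝ, 0 < η → ∃ K1 : ℕ, ∀ n ≥ (1 : ℝ),
    ∑' P : Dy, ind (K1 ≤ P.length) * ∑ d : Fin 2 × Fin 2,
      gm {ω | M.X γ u ω (d :: P) ≤ c ∧ ENNReal.ofReal n ≤ near (M.X γ u ω) P} ≤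
      ENNReal.ofReal (η * n ^ (-(th γ + 1)))

def St_FAR : Prop :=
  ∀ γ ∈ Ioo (0 : ℝ) 2, ∃ q : ℝ, 1 < q ∧ ∀ (M : Model) (i0 : ℕ), M.Ok i0 → ∀ u c : ℝ, ∃ K : ℝ,
    ∀ z n : ℝ, 0 < z → 0 < n →
    ∑' P : Dy, ind (i0 + 4 ≤ P.length) * ∑ d : Fin 2 × Fin 2,
      gm {ω | M.X γ u ω (d :: P) ≤ c ∧ ENNReal.ofReal z ≤ nB (sub (M.X γ u ω) P) ∧
        ENNReal.ofReal n ≤ far (M.X γ u ω) P} ≤ ENNReal.ofReal (K * z ^ (-q) * n ^ (-th γ))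

def St_GV : Prop :=
  ∀ γ ∈ Ioo (0 : ℝ) 2, ∀ (M : Model) (i0 : ℕ), M.Ok i0 →
  (∃ K : ℝ, ∀ (u ζ : ℝ) (𝓥 : Dy → Prop) (Ψ : Dy → ℝ × Om → ℝ≥0∞) (h : ℝ → ℝ≥0∞), 0 ≤ ζ →
    (∀ k, (((lev k).filter 𝓥).card : ℝ) ≤ ζ * 4 ^ k) → (∀ V, Measurable (Ψ V)) → Measurable h →
    (∀ V y, i0 + 2 ≤ V.length → InvD (M.eC (ctr V) (4 * side V)) fun ω => Ψ V (y, ω)) →
    (∀ V y, i0 + 2 ≤ V.length → 𝓥 V → ∫⁻ ω, Ψ V (y, ω) ∂gm ≤ h y) →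
    ∑' V : Dy, ind (i0 + 2 ≤ V.length ∧ 𝓥 V) * ∫⁻ ω, Ψ V (M.YV γ u V ω, ω) ∂gm ≤
      ENNReal.ofReal (K * ζ) * ∫⁻ y, h y * eE (4 / γ * (u - y))) ∧
  ∃ c > 0, ∀ u : ℝ, ∀ᶠ m : ℝ in atTop, ENNReal.ofReal (c * Real.exp (4 / γ * (u - m))) ≤
    ∑' V : Dy, ind (i0 + 2 ≤ V.length) * gm {ω | |M.YV γ u V ω - m| ≤ 1}

def St_JR : Prop :=
  ∀ γ ∈ Ioo (0 : ℝ) 2, ∃ c > 0, ∀ (M : Model) (i0 : ℕ), M.Ok i0 → ∀ K' : ℝ, ∃ C : ℝ,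
    ∀ (u m μ0 : ℝ) (K1 : ℕ),
    ∑' V : Dy, ind (i0 + 2 ≤ V.length) * ∫⁻ ω, ind (|M.YV γ u V ω - m| ≤ K' ∧ ∃ B : Dy,
      K1 ≤ B.length ∧ B.length ≤ V.length ∧ ‖ctr B - ctr V‖ ≤ 6 * side B ∧ M.X γ u ω B ≤ μ0) *
      (1 + eE (-γ * m) * posN (M.X γ u ω) V) ∂gm ≤
      ENNReal.ofReal (C * Real.exp (4 / γ * (u - m) + aa γ * (μ0 - u) - c * K1))

def St_ST4 : Prop :=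
  ∀ γ ∈ Ioo (0 : ℝ) 2, ∀ (M : Model) (i0 : ℕ), M.Ok i0 →
  (∃ K : ℝ, ∀ u t : ℝ, ∑' R : Dy, ind (i0 + 4 ≤ R.length) *
    ∑ l ∈ Finset.Icc (i0 + 3) R.length, ∑ l' ∈ Finset.Icc (i0 + 3) R.length,
      gm {ω | 0 < M.X γ u ω R ∧ t < M.YV γ u (anc l R) ω ∧ t < M.YV γ u (anc l' R) ω} ≤
      ENNReal.ofReal (K * Real.exp (γ * u - 2 * aa γ * (t - u)))) ∧
  (∃ c > 0, ∀ D : ℕ, ∃ K : ℝ, ∀ u t K' : ℝ, ∑' R : Dy, ind (i0 + 4 ≤ R.length) *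
    ∑ l ∈ Finset.Icc (i0 + 3) R.length,
      gm {ω | 0 < M.X γ u ω R ∧ M.YV γ u (anc l R) ω < t - K' ∧ ∃ h : ℕ, l ≤ h + 3 ∧ h ≤ l + D ∧
        h + 2 ≤ R.length ∧ t < M.rad γ u R h ω} ≤
      ENNReal.ofReal (K * Real.exp (γ * u - 2 * aa γ * (t - u) - c * K'))) ∧
  (∀ (lam u : ℝ) (J0 : ℕ), 0 ≤ lam → ∃ K : ℝ, ∀ t : ℝ, ∑' R : Dy, ind (i0 + 4 ≤ R.length) *
    gm {ω | 0 < M.X γ u ω R ∧ ∃ h : ℕ, i0 ≤ h ∧ h ≤ J0 ∧ h + 2 ≤ R.length ∧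
      t < M.rad γ u R h ω} ≤ ENNReal.ofReal (K * Real.exp (-lam * t))) ∧
  ∃ c > 0, ∃ K : ℝ, ∀ (u t : ℝ) (D : ℕ), ∑' R : Dy, ind (i0 + 4 ≤ R.length) *
    ∑ h ∈ Finset.Icc i0 (R.length - 2), ∑ h' ∈ Finset.Icc i0 (R.length - 2),
      gm {ω | 0 < M.X γ u ω R ∧ h + D ≤ h' ∧ t < M.rad γ u R h ω ∧ t < M.rad γ u R h' ω} ≤
      ENNReal.ofReal (K * Real.exp (γ * u - 2 * aa γ * (t - u) - c * D))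

def St_ST2 : Prop :=
  ∀ γ ∈ Ioo (0 : ℝ) 2, ∀ (M : Model) (i0 : ℕ), M.Ok i0 → ∀ u ρ η : ℝ, 0 ≤ u → 0 < ρ → 0 < η →
    ∃ K0 : ℝ, ∀ K : ℕ, ∀ᶠ n : ℝ in atTop, ENNReal.ofReal (n ^ th γ) *
      ∫⁻ ω, ind (ENNReal.ofReal (ρ * n) ≤ nB (M.X γ u ω)) * ∑ R ∈ tr (M.X γ u ω),
        ∑ j ∈ Finset.range (R.length + K + 2), ENNReal.ofReal (min 1 (cnt (M.X γ u ω) R j / n)) *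
          ind (¬M.High γ u i0 (lvl γ n - K0) R j ω) ∂gm ≤ ENNReal.ofReal η

def St_ST3 : Prop :=
  ∀ γ ∈ Ioo (0 : ℝ) 2, ∀ (M : Model) (i0 : ℕ), M.Ok i0 → ∀ u δ η K0 : ℝ, 0 ≤ u → 0 < δ → 0 < η →
    ∃ K00 : ℕ, ∀ K ≥ K00, ∀ᶠ n : ℝ in atTop, ENNReal.ofReal (n ^ th γ) *
      ∫⁻ ω, ∑ R ∈ tr (M.X γ u ω), ∑ j ∈ Finset.range (R.length + K + 2),
        ind (M.High γ u i0 (lvl γ n - K0) R j ω ∧ δ * n < outN (M.X γ u ω) R j K) ∂gm ≤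
      ENNReal.ofReal η

def St_ST : Prop :=
  ∀ γ ∈ Ioo (0 : ℝ) 2, ∀ M : Model, box [] ⊆ M.O → ∀ u μ0 ρ δ η : ℝ, 0 ≤ u → 0 < ρ → 0 < δ →
    0 < η → ∃ K0 : ℕ, ∀ K ≥ K0, ∃ K'0 : ℝ, ∀ K' ≥ K'0, ∃ K10 : ℕ, ∀ K1 ≥ K10,
    ∀ᶠ n : ℝ in atTop, ENNReal.ofReal (n ^ th γ) *
      ∫⁻ ω, ind (ENNReal.ofReal (ρ * n) ≤ nB (M.X γ u ω)) * ∑ R ∈ tr (M.X γ u ω),
        ∑ j ∈ Finset.range (R.length + K + 2), ENNReal.ofReal (min 1 (cnt (M.X γ u ω) R j / n)) *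
          ind (¬M.Reg γ u n δ K K' K1 μ0 R j ω) ∂gm ≤ ENNReal.ofReal η

def St_LOCV : Prop :=
  ∀ γ ∈ Ioo (0 : ℝ) 2, ∀ (M : Model) (i0 : ℕ), M.Ok i0 → ∀ F, Mono F → ∀ η η' K' : ℝ, 0 < η →
    0 < η' → ∃ l : ℕ, 1 ≤ l ∧ ∀ᶠ n : ℝ in atTop, ∃ Bd : Dy → Set Om,
      (∀ V, MeasurableSet (Bd V)) ∧
      (∀ V ω, i0 + 2 ≤ V.length → |M.YV γ 0 V ω - lvl γ n| ≤ K' → ω ∉ Bd V →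
        LocGood γ F n η l V (M.X γ 0 ω)) ∧
      ENNReal.ofReal (n ^ (th γ + 1)) * ∑' V : Dy, ind (i0 + 2 ≤ V.length) *
        ∫⁻ ω in Bd V, (1 + ENNReal.ofReal n⁻¹ * nB (sub (M.X γ 0 ω) V)) ∂gm ≤ ENNReal.ofReal η'

def St_STR : Prop :=
  ∀ γ ∈ Ioo (0 : ℝ) 2, ∀ M : Model, box [] ⊆ M.O → ∀ F, Mono F → ∀ η > 0, ∀ K1m : ℕ,
    ∃ K1 ≥ K1m, ∀ᶠ n : ℝ in atTop, ENNReal.ofReal (n ^ (th γ + 1)) *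
      gm {ω | ENNReal.ofReal n ≤ nB (sh (M.X γ 0 ω) 1) ∧ ¬Str γ F n η K1 (M.X γ 0 ω)} ≤
      ENNReal.ofReal η

def St_MAC : Prop :=
  ∀ γ ∈ Ioo (0 : ℝ) 2, ∀ M : Model, box [] ⊆ M.O →
  (∀ ρ η : ℝ, 0 < ρ → 0 < η → ∃ K1 : ℕ, ∀ᶠ n : ℝ in atTop, ENNReal.ofReal (n ^ (th γ + 1)) *
    gm {ω | ENNReal.ofReal (ρ * n) ≤ nB (sh (M.X γ 0 ω) 1) ∧ ¬Gro γ K1 n η (M.X γ 0 ω)} ≤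
    ENNReal.ofReal η) ∧
  (∀ F, Mono F → ∀ η > 0, ∀ᶠ n : ℝ in atTop, ENNReal.ofReal (n ^ (th γ + 1)) *
    gm {ω | ENNReal.ofReal n ≤ nB (sh (M.X γ 0 ω) 1) ∧ ∃ s ∈ Icc (-1 : ℝ) 1, ∃ R,
      η * n < |SR F (sh (M.X γ 0 ω) s) R - cc γ F / cc γ one * SR one (sh (M.X γ 0 ω) s) R|} ≤
    ENNReal.ofReal η) ∧
  ∀ (K1 : ℕ) (δ η : ℝ), 0 < δ → 0 < η → ∀ᶠ n : ℝ in atTop, ENNReal.ofReal (n ^ (th γ + 1)) *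
    gm {ω | ∃ S : Dy, S.length ≤ K1 ∧ IntN (M.X γ 0 ω) S ∧
      ENNReal.ofReal (δ * n) ≤ nB (sub (M.X γ 0 ω) S) ∧
      ENNReal.ofReal (δ * n) + nB (sub (M.X γ 0 ω) S) ≤ nB (M.X γ 0 ω)} ≤ ENNReal.ofReal η

def St_LOW : Prop :=
  ∀ γ ∈ Ioo (0 : ℝ) 2, ∀ M : Model, box [] ⊆ M.O → ∃ c > 0, ∀ᶠ n : ℝ in atTop,
    ENNReal.ofReal c ≤ ENNReal.ofReal (n ^ (th γ + 1)) *
      gm {ω | ENNReal.ofReal n ≤ nB (M.X γ 0 ω)}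

def St_UB : Prop :=
  ∃ C : ℝ, ∀ (M : Model) (T : Finset Dy), IsTr T → T ≠ ∅ → ∀ 𝓢 ⊆ lvs T,
    ‖∑ S ∈ 𝓢, (M.eS S.tail - M.eS S)‖ ^ 2 ≤ C * (lvs T).card

def St_UE : Prop :=
  ∀ γ ∈ Ioo (0 : ℝ) 2, ∀ η > 0, ∃ L0 : ℝ, ∃ ι0 : ℕ, ∀ M : Model, box [] ⊆ M.O → ∀ ι ≥ ι0,
    ∀ T ∈ trees ι, ∀ Pp ⊆ two T, η * ι ≤ (Pp.card : ℝ) →
      gm {ω | HasTr (M.X γ 0 ω) T ∧ Pp.card ≤ 2 * (Pp.filter fun P => M.BadP γ L0 T P ω).card} ≤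
        eE (-12 * ι)

def St_U : Prop :=
  ∀ γ ∈ Ioo (0 : ℝ) 2, ∀ M : Model, box [] ⊆ M.O → ∀ φ, IsPsi M φ → ∀ η > 0,
    ∃ (L K : ℝ) (ι0 : ℕ), 0 ≤ L ∧ 0 ≤ K ∧ ∀ ι ≥ ι0, ∀ (Pp : Finset Dy → Finset Dy)
      (Y : Finset Dy → Om → ℝ≥0∞) (Yb : Om → ℝ≥0∞) (B : ℝ≥0∞),
      (∀ T ∈ trees ι, Pp T ⊆ two T ∧ η * ι ≤ ((Pp T).card : ℝ)) → (∀ T, Measurable (Y T)) →
      Measurable Yb →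
      (∀ T ∈ trees ι, ∀ (ω : Om) (s : ℝ) (t : Dy → ℝ), |s| ≤ 1 → (∀ P, |t P| ≤ L) →
        HasTr (M.X γ 0 (ω + s • dv (gr φ))) T →
        HasTr (M.X γ 0 (ω + s • dv (gr φ) + ∑ P ∈ Pp T, t P • dv (M.vp T P))) T →
        Y T (ω + s • dv (gr φ) + ∑ P ∈ Pp T, t P • dv (M.vp T P)) ≤ Yb ω) →
      (∀ T ∈ trees ι, ∫⁻ ω, Y T ω ^ 2 ∂gm ≤ B ^ 2) →
      ∫⁻ ω, ind (nB (M.X γ 0 ω) = ι) * Y (tr (M.X γ 0 ω)) ω ∂gm ≤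
        ENNReal.ofReal (K / ι) * ∫⁻ ω, ind ((ι : ℝ≥0∞) ≤ nB (sh (M.X γ 0 ω) 1)) * Yb ω ∂gm +
          eE (-3 * ι) * B

def St_UL : Prop :=
  ∀ γ ∈ Ioo (0 : ℝ) 2, ∀ M : Model, box [] ⊆ M.O →
  (∃ K : ℝ, ∀ ι : ℕ, 1 ≤ ι → ∀ S, ∫⁻ ω, ind (nB (M.X γ 0 ω) = ι) * eE |ω (M.ub S)| ∂gm ≤
    ENNReal.ofReal (K * (ι : ℝ) ^ (-(th γ + 2)))) ∧
  (∀ φ, IsPsi M φ → ∃ K : ℝ, ∀ ι : ℕ, 1 ≤ ι →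
    ∫⁻ ω, ind (nB (M.X γ 0 ω) = ι) * eE |ω (gr φ)| ∂gm ≤
      ENNReal.ofReal (K * (ι : ℝ) ^ (-(th γ + 2)))) ∧
  ∃ K : ℝ, ∀ ι : ℕ, 1 ≤ ι → ∫⁻ ω, ind (nB (M.X γ 0 ω) = ι) * ∑ P ∈ tr (M.X γ 0 ω),
    ∑ d : Fin 2 × Fin 2, eE (2 * |ω (M.vs (d :: P))|) ∂gm ≤
      ENNReal.ofReal (K * (ι : ℝ) ^ (-(th γ + 1)))

def St_LL0 : Prop :=
  ∀ γ ∈ Ioo (0 : ℝ) 2, ∀ F, Adm γ F → ∀ η > 0, ∃ (D N : ℕ) (G : Fin N → (Dy → ℝ) → ℝ)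
    (a b : Fin N → ℝ), (∀ i, Mono (G i) ∧
      ∀ x y, (∀ S : Dy, S.length ≤ D → x S = y S) → G i x = G i y) ∧
    (∀ y, 0 < y [] → ∑ i, a i * G i y ≤ F y ∧ F y ≤ ∑ i, b i * G i y) ∧
    ∑ i, b i * cc γ (G i) - η ≤ cc γ F ∧ cc γ F ≤ ∑ i, a i * cc γ (G i) + η

def St_LL : Prop :=
  ∀ γ ∈ Ioo (0 : ℝ) 2, ∀ M : Model, box [] ⊆ M.O → ∀ F, Adm γ F → ∀ η > 0,
    ∀ᶠ ι : ℕ in atTop, ENNReal.ofReal ((ι : ℝ) ^ (th γ + 2)) *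
      gm {ω | nB (M.X γ 0 ω) = ι ∧ ∃ R,
        η * ι < |SR F (M.X γ 0 ω) R - cc γ F / cc γ one * SR one (M.X γ 0 ω) R|} ≤
      ENNReal.ofReal η

end

end Pool.Agent.Lib.APPS
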