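import Pool.Agent.Lib.APPS.Core3

/-!
Block statements, part 3: cylinder, test functions, Brownian motion, quantum sphere side.
-/

namespace Pool.Agent.Lib.APPS

open MeasureTheory ProbabilityTheory Filter Topology Set Metric
open scoped NNReal ENNReal CompactlySupported BoundedContinuousFunction RealInnerProductSpace
  Classical

noncomputable section

def St_CYL : Prop :=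
  (∀ x, x ≠ 0 → frC (toCyl x) = x) ∧ (∀ w, toCyl (frC w) = w) ∧ Continuous frC ∧
  ContinuousOn toCyl {0}ᶜ ∧ Measurable toCyl ∧ (∀ w, ‖frC w‖ = Real.exp (-w.1)) ∧
  (∀ (ρ : ℝ) x, 0 < ρ → x ≠ 0 → toCyl (ρ * x) = ((toCyl x).1 - Real.log ρ, (toCyl x).2)) ∧
  (∀ (w : Cyl) (u : ℂ), frC (w.1 + u.re, w.2 + ((u.im : ℝ) : AddCircle (2 * Real.pi))) =
    frC w * Complex.exp (-u)) ∧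
  cylVol = (volume.withDensity fun x : ℂ => ENNReal.ofReal (1 / ‖x‖ ^ 2)).map toCyl ∧
  (∀ r, trans r cylVol = cylVol) ∧ IsFiniteMeasureOnCompacts cylVol ∧ SigmaFinite cylVol ∧
  (∀ f : C_c(Cyl, ℝ), Continuous (pb f) ∧ HasCompactSupport (pb f) ∧ UniformContinuous (pb f) ∧
    ∃ T : ℝ, ∀ w, f w ≠ 0 → |w.1| ≤ T) ∧
  (∃ h : C_c(Cyl, ℝ), ∀ w, h w = hat0 w) ∧ (∀ K, ∃ h : C_c(Cyl, ℝ), ∀ w, h w = f0 K w) ∧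
  (∀ w, 0 ≤ hat0 w ∧ hat0 w ≤ 1 ∧ (hat0 w ≠ 0 → -(2 * l2) < w.1 ∧ w.1 < 0)) ∧
  (∀ K w, 0 ≤ f0 K w ∧ f0 K w ≤ 1 ∧ (|w.1| ≤ K * l2 → f0 K w = 1) ∧
    (f0 K w ≠ 0 → |w.1| < (K + 1) * l2) ∧ f0 K w ≤ f0 (K + 1) w) ∧
  (∀ x : ℂ, x ≠ 0 → ‖x‖ ≤ 2 → HasSum (fun j : ℕ => hat0 (toCyl (2 ^ j * x))) 1) ∧
  (∀ (x : ℂ) (j : ℕ), x ≠ 0 → hat0 (toCyl (2 ^ j * x)) ≠ 0 →
    (1 / 2 : ℝ) ^ j < ‖x‖ ∧ ‖x‖ < 4 * (1 / 2 : ℝ) ^ j) ∧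
  (∀ (M : ℕ) (w : Cyl), HasSum (fun i : ℤ => hat0 (w.1 + i * (eps M : ℝ), w.2)) (M + 1))

def St_TF : Prop := ∃ tf, IsTF tf

def St_PHI : Prop :=
  (∀ s s', 0 ≤ dS s s' ∧ dS s s' ≤ 2 ∧ dS s s' = dS s' s ∧ dS s s = 0) ∧
  (∀ s s' s'', dS s s'' ≤ dS s s' + dS s' s'') ∧
  (∀ s s' (k0 : ℕ) (δ : ℝ), 0 ≤ δ → (∀ k ≤ k0, |s k - s' k| ≤ δ) →
    dS s s' ≤ 2 * δ + (1 / 2 : ℝ) ^ k0) ∧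
  (∀ s s' (δ : ℝ), 0 ≤ δ → (∀ k, |s k - s' k| ≤ δ) → dS s s' ≤ 2 * δ) ∧
  (∀ (ss : ℕ → ℕ → ℝ) s, Tendsto (fun n => dS (ss n) s) atTop (𝓝 0) ↔
    ∀ k, Tendsto (fun n => ss n k) atTop (𝓝 (s k))) ∧
  (∀ Λ G, LipG Λ G → Continuous G ∧ Measurable G) ∧ LipG 0 one' ∧
  ∀ tf, IsTF tf →
    (∀ (T : Finset Dy), ∀ R ∈ T, (∀ j, 0 ≤ sR tf T R j 0) ∧
      (∃ J, ∀ j ≥ J, sR tf T R j 0 = 0) ∧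
      HasSum (fun j => sR tf T R j 0) (1 - (T.card : ℝ)⁻¹)) ∧
    (∀ Λ G, 0 ≤ Λ → LipG Λ G → Cls (4 * Λ + 4) (PhiG tf G)) ∧
    (∀ T : Finset Dy, T.Nonempty → PhiG tf one' T = 1 - (T.card : ℝ)⁻¹) ∧ Cls 0 oneT

def St_ENV : Prop :=
  ∀ (𝓢 : Set (ℝ × ℝ × (ℕ → ℝ))) (V : ℝ), (∀ t ∈ 𝓢, 0 ≤ t.1 ∧ t.1 ≤ 1) →
    (∀ Λ : ℕ, LipG Λ (envUp 𝓢 V Λ) ∧ LipG Λ (envLo 𝓢 V Λ) ∧ LipG (2 * Λ) (gapE 𝓢 V Λ)) ∧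
    (∀ Λ : ℕ, ∀ t ∈ 𝓢, |t.2.1 - V| ≤ 1 / (Λ + 1) → ∀ s,
      t.1 - Λ * dS t.2.2 s ≤ envUp 𝓢 V Λ s ∧ envLo 𝓢 V Λ s ≤ t.1 + Λ * dS t.2.2 s) ∧
    (∀ s, Monotone fun Λ : ℕ => envLo 𝓢 V Λ s) ∧
    ∀ (v0 : ℝ) (s0 : ℕ → ℝ), (v0, V, s0) ∈ 𝓢 →
      (∀ t : ℕ → ℝ × ℝ × (ℕ → ℝ), (∀ n, t n ∈ 𝓢) → Tendsto (fun n => (t n).2.1) atTop (𝓝 V) →
        Tendsto (fun n => dS (t n).2.2 s0) atTop (𝓝 0) →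
        Tendsto (fun n => (t n).1) atTop (𝓝 v0)) →
      Tendsto (fun Λ : ℕ => envUp 𝓢 V Λ s0) atTop (𝓝 v0) ∧
      Tendsto (fun Λ : ℕ => envLo 𝓢 V Λ s0) atTop (𝓝 v0) ∧
      Tendsto (fun Λ : ℕ => gapE 𝓢 V Λ s0) atTop (𝓝 0)

def St_MS : Prop :=
  ∀ a > 0, ∀ (k : ℕ) (f : Fin k → C_c(Cyl, ℝ)) (G : (Fin k → ℝ) →ᵇ ℝ),
  (∀ (α : Type) [MeasurableSpace α] (m : α → Measure Cyl), Measurable m →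
    (∀ x, IsFiniteMeasure (m x)) → Measurable fun x => rotAvg a (PhiT f G) (m x)) ∧
  (∀ (α : Type) [MeasurableSpace α] (ν : α → Measure ℂ), Measurable ν →
    (∀ x, IsFiniteMeasure (ν x)) →
    (Measurable fun p : α × ℂ => rotAvg a (PhiT f G) ((ν p.1).map fun w => toCyl (w - p.2))) ∧
    Measurable fun x => sampleAvg a (PhiT f G) (ν x)) ∧
  ((∀ s, 0 ≤ G s ∧ G s ≤ 1) →
    (∀ m, 0 ≤ rotAvg a (PhiT f G) m ∧ rotAvg a (PhiT f G) m ≤ 1) ∧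
    ∀ ν, 0 ≤ sampleAvg a (PhiT f G) ν ∧ sampleAvg a (PhiT f G) ν ≤ 1) ∧
  ∀ (G' : (Fin k → ℝ) →ᵇ ℝ) (α β : ℝ), (∀ s, G' s = α * G s + β) →
    (∀ m, IsFiniteMeasure m → rotAvg a (PhiT f G') m = α * rotAvg a (PhiT f G) m + β) ∧
    ∀ ν, IsFiniteMeasure ν → ν ≠ 0 →
      sampleAvg a (PhiT f G') ν = α * sampleAvg a (PhiT f G) ν + β

def St_CR : Prop :=
  ∀ a > 0, ∀ (k : ℕ) (f : Fin k → C_c(Cyl, ℝ)) (G : (Fin k → ℝ) →ᵇ ℝ),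
  (∀ (m : Measure Cyl) (r : ℝ), IsFiniteMeasure m → ENNReal.ofReal a < m univ →
    rotAvg a (PhiT f G) (trans r m) = rotAvg a (PhiT f G) m) ∧
  (∀ (ms : ℕ → Measure Cyl) (m : Measure Cyl), (∀ n, IsFiniteMeasure (ms n)) → GoodM m →
    ENNReal.ofReal a < m univ → WC ms m →
    Tendsto (fun n => rotAvg a (PhiT f G) (ms n)) atTop (𝓝 (rotAvg a (PhiT f G) m))) ∧
  (∀ m r, GoodM m → GoodM (trans r m) ∧ trans r m univ = m univ) ∧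
  ∀ tf, IsTF tf → ∀ V > a, ∀ m, GoodM m →
    (rotAvg a (PhiT f G) (ENNReal.ofReal V • nrm m), V, obsn tf m) ∈ relR a (PhiT f G) tf ∧
    ∀ t : ℕ → ℝ × ℝ × (ℕ → ℝ), (∀ n, t n ∈ relR a (PhiT f G) tf) →
      Tendsto (fun n => (t n).2.1) atTop (𝓝 V) →
      Tendsto (fun n => dS (t n).2.2 (obsn tf m)) atTop (𝓝 0) →
      Tendsto (fun n => (t n).1) atTop (𝓝 (rotAvg a (PhiT f G) (ENNReal.ofReal V • nrm m)))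

def St_CR2 : Prop :=
  ∀ a > 0, ∀ (k : ℕ) (f : Fin k → C_c(Cyl, ℝ)) (G : (Fin k → ℝ) →ᵇ ℝ), ∀ tf, IsTF tf →
    ∀ V > a, ∀ m, GoodM m → ∃ v0, (v0, V, obsn tf m) ∈ relE a (PhiT f G) tf ∧
      ∀ t : ℕ → ℝ × ℝ × (ℕ → ℝ), (∀ n, t n ∈ relE a (PhiT f G) tf) →
        Tendsto (fun n => (t n).2.1) atTop (𝓝 V) →
        Tendsto (fun n => dS (t n).2.2 (obsn tf m)) atTop (𝓝 0) →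
        Tendsto (fun n => (t n).1) atTop (𝓝 v0)

def St_OBS : Prop :=
  ∀ tf, IsTF tf → ∀ cV > 0, ∀ η > 0, ∃ η' > 0, ∃ N0 : ℕ, ∀ (T : Finset Dy) (ν : Measure ℂ),
    IsTr T → N0 ≤ T.card → Close cV η' T ν →
    |ν.real univ / T.card - cV| ≤ η ∧
    ∀ R ∈ T, ∀ j : ℕ, dS (obsP tf ((ν univ)⁻¹ • ν) (ctr R) (2 ^ j)) (sR tf T R j) ≤ η

def St_FA1 : Prop :=
  ∀ tf, IsTF tf → ∀ cV > 0, ∀ a ∈ Ioo 0 (Real.sqrt (3 / cV)),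
    ∀ (k : ℕ) (f : Fin k → C_c(Cyl, ℝ)) (G : (Fin k → ℝ) →ᵇ ℝ), (∀ s, 0 ≤ G s ∧ G s ≤ 1) →
    ∀ (Λ : ℕ) (η : ℝ), 0 < η → ∃ η' > 0, ∃ N0 : ℕ, ∀ (T : Finset Dy) (ν : Measure ℂ),
      IsTr T → N0 ≤ T.card → Close cV η' T ν →
      PhiG tf (envLo (relR a (PhiT f G) tf) (Real.sqrt (3 / cV)) Λ) T -
          PhiG tf (gapE (relE a (PhiT f G) tf) (Real.sqrt (3 / cV)) Λ) T - η ≤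
        sampleAvg a (PhiT f G) (nvol T.card ν) ∧
      sampleAvg a (PhiT f G) (nvol T.card ν) ≤
        PhiG tf (envUp (relR a (PhiT f G) tf) (Real.sqrt (3 / cV)) Λ) T +
          PhiG tf (gapE (relE a (PhiT f G) tf) (Real.sqrt (3 / cV)) Λ) T + η

def St_BMX : Prop :=
  (∀ s, Measurable fun b => oscB b s) ∧
  (∀ b : ℝ≥0 → ℝ, Continuous b → ∀ s t : ℝ≥0, t ≤ 1 → |b (s + t) - b s| ≤ oscB b s) ∧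
  ∀ (Ω : Type) [MeasurableSpace Ω] (P : Measure Ω) (b : Ω → ℝ≥0 → ℝ), BM1 P b →
    IsProbabilityMeasure P ∧ CG (fun t ω => b ω t) P (fun s t => min (s : ℝ) t) ∧
    (∀ᵐ ω ∂P, b ω 0 = 0) ∧
    (∀ lam : ℝ, ∃ C : ℝ, ∀ s, ∫⁻ ω, eE (lam * oscB (b ω) s) ∂P ≤ ENNReal.ofReal C) ∧
    (∀ᵐ ω ∂P, ∀ c > 0, ∃ C : ℝ, ∀ t, |b ω t| ≤ C + c * t) ∧
    (∀ (a : ℝ) (ε : ℝ≥0), 0 < ε → ∀ᵐ ω ∂P, ∀ i j : ℕ, i ≠ j →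
      b ω (i * ε) - a * (i * ε) ≠ b ω (j * ε) - a * (j * ε)) ∧
    (∀ a : ℝ, ∀ᵐ ω ∂P, ∀ r r' : ℚ, 0 < r → r < r' →
      ¬((∀ t : ℝ≥0, (r : ℝ) ≤ t → (t : ℝ) ≤ r' → b ω t - a * t ≤ 0) ∧
        ∃ t : ℝ≥0, (r : ℝ) ≤ t ∧ (t : ℝ) ≤ r' ∧ b ω t - a * t = 0)) ∧
    ∀ a : ℝ, Measurable fun ω => lastZero a (b ω)

def St_BM2 : Prop :=
  (∀ γ (D : QD γ), BP D.P D.β ∧ IsProbabilityMeasure D.P) ∧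
  (Measurable twoS ∧ ∀ a, Measurable (ydr a) ∧ ∀ ε, Measurable (recY a ε) ∧
    Measurable fun p : PP => ((recB a ε p.1, recB a ε p.2) : PP)) ∧
  (∀ (a : ℝ) (p : PP), Continuous p.1 → Continuous p.2 → Measurable (radP a p) ∧
    (∀ T : ℝ, ∃ C : ℝ, ∀ t, |t| ≤ T → |radP a p t| ≤ C) ∧ ∀ ε, Continuous (recY a ε p)) ∧
  ∀ (Ω : Type) [MeasurableSpace Ω] (P : Measure Ω) (β : Ω → PP), BP P β →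
    IsProbabilityMeasure P ∧ BM1 P (fun ω => (β ω).1) ∧ BM1 P (fun ω => (β ω).2) ∧
    CG (fun t ω => twoS (β ω) t) P cov2 ∧
    (Measurable fun p : Ω × ℝ => twoS (β p.1) p.2) ∧
    (∀ a, Measurable fun p : Ω × ℝ => radP a (β p.1) p.2) ∧
    (∀ a ε, Measurable fun p : Ω × ℝ => recY a ε (β p.1) p.2) ∧
    (∀ᵐ ω ∂P, Continuous (twoS (β ω)) ∧ twoS (β ω) 0 = 0 ∧
      ∀ c > 0, ∃ C : ℝ, ∀ t, |twoS (β ω) t| ≤ C + c * |t|) ∧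
    (∀ a > 0, ∀ᵐ ω ∂P, Continuous (radP a (β ω))) ∧
    (∀ (a : ℝ) (ε : ℝ≥0), 0 < ε → ∀ᵐ ω ∂P, ∀ i j : ℤ, i ≠ j →
      ydr a (β ω) (i * (ε : ℝ)) ≠ ydr a (β ω) (j * (ε : ℝ))) ∧
    ∃ osc : ℤ → Ω → ℝ, (∀ i, Measurable (osc i)) ∧
      (∀ᵐ ω ∂P, ∀ (i : ℤ) (t : ℝ), t ∈ Icc (i : ℝ) (i + 1) →
        |twoS (β ω) t - twoS (β ω) i| ≤ osc i ω) ∧
      ∀ lam : ℝ, ∃ C : ℝ, ∀ i, ∫⁻ ω, eE (lam * osc i ω) ∂P ≤ ENNReal.ofReal C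

def St_LS : Prop :=
  ∀ (Ω : Type) [MeasurableSpace Ω] (P : Measure Ω) (β : Ω → PP), BP P β → ∀ (a r : ℝ)
    (Γ : (ℝ → ℝ) → ℝ≥0∞), Measurable Γ →
    ∫⁻ ω, eE (2 * a * ydr a (β ω) r) * Γ (fun t => ydr a (β ω) (r + t) - ydr a (β ω) r) ∂P =
      ∫⁻ ω, Γ (ydr a (β ω)) ∂P

def St_REC1 : Prop :=
  ∀ (Ω : Type) [MeasurableSpace Ω] (P : Measure Ω) (β : Ω → PP), BP P β → ∀ a > 0,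
    ∀ ε : ℝ≥0, 0 < ε → ∃ p > 0, ∀ Γ : (ℝ → ℝ) → ℝ≥0∞, Measurable Γ →
    ∫⁻ ω, ind (∀ i : ℤ, i ≠ 0 → ydr a (β ω) (i * (ε : ℝ)) < 0) * Γ (ydr a (β ω)) ∂P =
      ENNReal.ofReal p * ∫⁻ ω, Γ (recY a ε (β ω)) ∂P

def St_REC2 : Prop :=
  ∀ (Ω : Type) [MeasurableSpace Ω] (P : Measure Ω) (β : Ω → PP), BP P β → ∀ a > 0, ∀ᵐ ω ∂P,
    (∀ T : ℝ, TendstoUniformlyOn (fun M => recY a (eps M) (β ω)) (radP a (β ω)) atTop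
      (Icc (-T) T)) ∧
    ∃ C : ℝ, ∀ t, radP a (β ω) t ≤ C - a / 2 * |t| ∧ ydr a (β ω) t ≤ C - a / 2 * |t| ∧
      ∀ M, recY a (eps M) (β ω) t ≤ C - a / 2 * |t|

def St_LZ1 : Prop :=
  ∀ (γ : ℝ) (g : ℕ → C_c(Cyl, ℝ)), ∃ (h : ℕ → C_c(Cyl, ℝ))
    (J : (ℝ → ℝ) × (ℕ → ℝ) → ℝ≥0∞ × (ℕ → ℝ)), Measurable J ∧
    ∀ (m : Measure Cyl) (z : ℝ → ℝ), IsFiniteMeasureOnCompacts m → Continuous z →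
      J (z, fun j => ∫ w, h j w ∂m) = obs g (wgt γ z m)

def St_LAT : Prop :=
  (∀ (M M' : Model) (z : ℂ) (ρ : ℝ), 0 < ρ → ∀ (ι : Type) (μ μ' : ι → Measure ℂ),
    (∀ i, PFE (μ i) ∧ PFE (μ' i)) →
    gm.map (fun (ω : Om) i => ω (M.e (μ i) - M.e (μ' i))) =
      gm.map fun (ω : Om) i => ω (M'.e ((μ i).map fun x => z + ρ * x) -
        M'.e ((μ' i).map fun x => z + ρ * x))) ∧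
  (∀ M : Model, Gram M.radV cov2) ∧
  ∀ θ, IsMoll θ → PFE θ ∧ ∃ C : ℝ,
    (∀ p, IsProbabilityMeasure (moll θ p) ∧ PFE (nuP θ 0 1 p) ∧ PFE (radM θ 0 1 p)) ∧
    (∀ z (ρ : ℝ) p, nuP θ z ρ p = (nuP θ 0 1 p).map (fun x => z + ρ * x) ∧
      radM θ z ρ p = (radM θ 0 1 p).map fun x => z + ρ * x) ∧
    (∀ (w : Cyl) (k : ℕ),
      nuP θ 0 1 (w, k) (closedBall (frC w) (2 * (1 / 2 : ℝ) ^ k * Real.exp (-w.1)))ᶜ = 0 ∧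
      |Ie (nuP θ 0 1 (w, k)) (nuP θ 0 1 (w, k)) - (k * l2 + w.1 + Ie θ θ)| ≤
        C * (1 / 2 : ℝ) ^ k) ∧
    ∀ M : Model, Gram (M.lamV θ) (latCov θ) ∧ (∀ p t, ⟪M.lamV θ p, M.radV t⟫ = 0) ∧
      (∀ (w : Cyl) (k : ℕ), ‖M.e (radM θ 0 1 (w, k)) - M.eC 0 (Real.exp (-w.1))‖ ^ 2 ≤
        C * (1 / 2 : ℝ) ^ k) ∧
      (∀ k, Continuous fun w => M.lamV θ (w, k)) ∧
      (∀ k w w', ‖M.lamV θ (w, k)‖ = ‖M.lamV θ (w', k)‖) ∧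
      ∀ (r : ℝ) (p p' : Cyl × ℕ),
        latCov θ ((p.1.1 + r, p.1.2), p.2) ((p'.1.1 + r, p'.1.2), p'.2) = latCov θ p p'

def St_QV : Prop :=
  ∀ γ (D : QD γ) (M : Model),
    D.P.map (fun ω => ((fun t => twoS (D.β ω) t, fun p => D.L p ω) : (ℝ → ℝ) × (Cyl × ℕ → ℝ))) =
      gm.map (fun ω : Om => (fun t => ω (M.radV t), fun p => ω (M.lamV D.θ p))) ∧
    ∀ (c r : ℝ) (k : ℕ),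
      (Measurable fun q : Cyl × D.Ω =>
        Real.exp (γ * (c * D.ZQ q.2 q.1.1 + D.L ((q.1.1 + r, q.1.2), k) q.2))) ∧
      (∀ w : Cyl, Integrable
        (fun ω => Real.exp (γ * (c * D.ZQ ω w.1 + D.L ((w.1 + r, w.2), k) ω))) D.P) ∧
      ∀ w0 : Cyl, Tendsto (fun w : Cyl => ∫⁻ ω, ENNReal.ofReal
        |Real.exp (γ * (c * D.ZQ ω w.1 + D.L ((w.1 + r, w.2), k) ω)) -
          Real.exp (γ * (c * D.ZQ ω w0.1 + D.L ((w0.1 + r, w0.2), k) ω))| ∂D.P) (𝓝 w0) (𝓝 0)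

def St_RIEM : Prop :=
  (∀ (f : C_c(Cyl, ℝ)) (l : ℕ), ∃ s : Finset (ℤ × ℤ), ∀ i ∉ s, f (toCyl (xl l i)) = 0) ∧
  ∀ (Ω : Type) [MeasurableSpace Ω] (P : Measure Ω) [IsProbabilityMeasure P] (X : Cyl → Ω → ℝ),
    (Measurable fun q : Cyl × Ω => X q.1 q.2) → (∀ w, Integrable (X w) P) →
    (∀ w0, Tendsto (fun w => ∫⁻ ω, ENNReal.ofReal |X w ω - X w0 ω| ∂P) (𝓝 w0) (𝓝 0)) →
    ∀ f : C_c(Cyl, ℝ), (∀ᵐ ω ∂P, Integrable (fun w => f w * X w ω) cylVol) ∧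
      Tendsto (fun l => ∫⁻ ω, ENNReal.ofReal
        |∫ w, f w * X w ω ∂cylVol - Rie l fun w => f w * X w ω| ∂P) atTop (𝓝 0)

def St_BR0 : Prop :=
  ∀ γ ∈ Ioo (0 : ℝ) 2, ∀ (D : QD γ),
    (∀ ω, IsFiniteMeasureOnCompacts (D.nu ω) ∧ wgt γ (radP (aa γ) (D.β ω)) (D.nu ω) = D.μ ω) ∧
    ∀ Z : D.Ω → ℝ → ℝ, (Measurable fun p : D.Ω × ℝ => Z p.1 p.2) →
      (∀ᵐ ω ∂D.P, Continuous (Z ω)) → ∀ f : C_c(Cyl, ℝ),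
      (∀ k, Measurable (D.Ik Z k f)) ∧ AEMeasurable (fun ω => ∫ w, f w ∂D.muZ Z ω) D.P ∧
      TendstoInMeasure D.P (fun k => D.Ik Z k f) atTop fun ω => ∫ w, f w ∂D.muZ Z ω

def St_LZ2 : Prop :=
  ∀ γ ∈ Ioo (0 : ℝ) 2, ∀ (D : QD γ) (h : ℕ → C_c(Cyl, ℝ)) (r : ℝ),
    AEMeasurable (fun ω j => ∫ w, h j w ∂trans r (D.nu ω)) D.P ∧
    IndepFun D.β (fun ω j => ∫ w, h j w ∂trans r (D.nu ω)) D.P ∧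
    D.P.map (fun ω j => ∫ w, h j w ∂trans r (D.nu ω)) = D.P.map fun ω j => ∫ w, h j w ∂D.nu ω

def St_LAWZ : Prop :=
  ∀ γ ∈ Ioo (0 : ℝ) 2, ∀ (D : QD γ) (g : ℕ → C_c(Cyl, ℝ)),
    (∀ (r : ℝ) (Z : PP → ℝ → ℝ), Measurable Z → (∀ᵐ ω ∂D.P, Continuous (Z (D.β ω))) →
      AEMeasurable (fun ω => obs g (wgt γ (Z (D.β ω)) (trans r (D.nu ω)))) D.P) ∧
    ∀ Ψ : (ℝ → ℝ) × (ℝ≥0∞ × (ℕ → ℝ)) → ℝ≥0∞, Measurable Ψ → ∃ Ψb : (ℝ → ℝ) → ℝ≥0∞,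
      Measurable Ψb ∧ (∀ z r, Continuous z →
        Ψb z = ∫⁻ ω, Ψ (z, obs g (wgt γ z (trans r (D.nu ω)))) ∂D.P) ∧
      ∀ (r : ℝ) (Z : PP → ℝ → ℝ) (ρ : PP → ℝ≥0∞), Measurable Z → Measurable ρ →
        (∀ᵐ ω ∂D.P, Continuous (Z (D.β ω))) →
        ∫⁻ ω, ρ (D.β ω) * Ψ (Z (D.β ω), obs g (wgt γ (Z (D.β ω)) (trans r (D.nu ω)))) ∂D.P =
          ∫⁻ ω, ρ (D.β ω) * Ψb (Z (D.β ω)) ∂D.P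

def St_BRa : Prop :=
  ∀ γ ∈ Ioo (0 : ℝ) 2, ∀ (D : QD γ) (n : ℕ) (g : Fin n → C_c(Cyl, ℝ)) (Λ : ℝ≥0) (k : ℕ),
    ∀ η > 0, ∃ l0 : ℕ, ∀ l ≥ l0, ∀ M : Model, (∀ i, Measurable (M.Rs γ D.θ k l (g i))) ∧
      ∀ G : (Fin n → ℝ) → ℝ, BL Λ G →
      |∫ ω, G (fun i => D.Ik D.ZQ k (g i) ω) ∂D.P -
        ∫ ω, G (fun i => M.Rs γ D.θ k l (g i) ω) ∂gm| ≤ η

def St_BRb : Prop :=
  ∀ γ ∈ Ioo (0 : ℝ) 2, ∀ θ, IsMoll θ → ∀ g : C_c(Cyl, ℝ), (∀ w, 0 ≤ g w) → ∀ η > 0,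
    ∃ L0 : ℕ, ∀ L ≥ L0, ∃ l0 : ℕ, ∀ l ≥ l0, ∃ k0 : ℕ, ∀ k ≥ k0, ∃ l1 : ℕ, ∀ l' ≥ l1,
    ∀ M : Model, gm {ω | η < |M.Rs γ θ k l' g ω -
      Real.exp (γ ^ 2 * Ie θ θ / 2) * M.Wlat γ L l g ω|} ≤ ENNReal.ofReal η

def St_BR : Prop :=
  ∀ γ ∈ Ioo (0 : ℝ) 2,
    (∀ (M : Model) (L l : ℕ) (g : Cyl → ℝ), (∃ T : ℝ, ∀ x, x ≠ 0 → g (toCyl x) ≠ 0 → ‖x‖ ≤ T) →
      Measurable (M.Wlat γ L l g)) ∧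
    ∀ (D : QD γ) (n : ℕ) (g : Fin n → C_c(Cyl, ℝ)) (Λ : ℝ≥0), ∀ η > 0,
    ∃ L0 : ℕ, ∀ L ≥ L0, ∃ l0 : ℕ, ∀ l ≥ l0, ∀ M : Model, ∀ G : (Fin n → ℝ) → ℝ, BL Λ G →
      |∫ ω, G (fun i => M.Wlat γ L l (g i) ω) ∂gm - ∫ ω, G (fun i =>
        Real.exp (-(γ ^ 2 * Ie D.θ D.θ / 2)) * ∫ w, g i w ∂D.muZ D.ZQ ω) ∂D.P| ≤ η

def St_WLB : Prop :=
  ∀ γ ∈ Ioo (0 : ℝ) 2,
  (∀ q T0 : ℝ, 1 < q → q < 4 / γ ^ 2 → ∃ K ζ : ℝ, 2 < ζ ∧ ∀ (x0 : ℂ) (r : ℝ) (f : Cyl → ℝ),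
    0 < r → (∀ w, 0 ≤ f w ∧ f w ≤ 1) →
    (∀ x, x ≠ 0 → f (toCyl x) ≠ 0 → ‖x - x0‖ ≤ r ∧ ‖x‖ ≤ T0) → ∀ L : ℕ, ∃ l0 : ℕ, ∀ l ≥ l0,
    ∀ M : Model, ∫⁻ ω, ENNReal.ofReal (M.Wlat γ L l f ω) ^ q ∂gm ≤ ENNReal.ofReal (K * r ^ ζ)) ∧
  ∀ f : C_c(Cyl, ℝ), (∀ w, 0 ≤ f w) → (∃ w, f w ≠ 0) → ∀ η > 0, ∃ ε > 0, ∃ L0 : ℕ, ∀ L ≥ L0,
    ∃ l0 : ℕ, ∀ l ≥ l0, ∀ M : Model, gm {ω | M.Wlat γ L l f ω ≤ ε} ≤ ENNReal.ofReal η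

def St_NU : Prop :=
  ∀ γ ∈ Ioo (0 : ℝ) 2, ∀ D : QD γ, (∀ᵐ ω ∂D.P, NiceM (D.nu ω)) ∧
    ∀ q : ℝ, 0 < q → q < 4 / γ ^ 2 → ∀ f : C_c(Cyl, ℝ), (∀ w, 0 ≤ f w) → ∃ K : ℝ, ∀ r,
      ∫⁻ ω, ENNReal.ofReal (∫ w, f w ∂trans r (D.nu ω)) ^ q ∂D.P ≤ ENNReal.ofReal K

def St_MU0 : Prop :=
  (∀ (γ : ℝ) (m : Measure Cyl) (z : ℝ → ℝ) (c C : ℝ), 0 < γ → 0 < c → NiceM m → Continuous z →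
    (∀ t, z t ≤ C - c * |t|) → GoodM (wgt γ z m)) ∧
  ∀ γ ∈ Ioo (0 : ℝ) 2, ∀ (D : QD γ),
    (∀ᵐ ω ∂D.P, GoodM (D.mu0 ω) ∧ GoodM (D.μ ω) ∧
      ∀ M, GoodM (wgt γ (recY (aa γ) (eps M) (D.β ω)) (D.nu ω))) ∧
    ∀ tf, IsTF tf → AEMeasurable (fun ω => obs tf (D.mu0 ω)) D.P ∧
      Integrable (fun ω => (D.mu0 ω).real univ ^ th γ * obsn tf (D.mu0 ω) 0) D.P ∧
      Integrable (fun ω => (∫ w, tf 0 w ∂D.mu0 ω) ^ th γ) D.P ∧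
      (∀ G : (ℕ → ℝ) → ℝ, Measurable G → (∀ s, 0 ≤ G s ∧ G s ≤ 1) →
        Integrable (fun ω => (D.mu0 ω).real univ ^ th γ * obsn tf (D.mu0 ω) 0 *
          G (obsn tf (D.mu0 ω))) D.P ∧ 0 ≤ D.Lz tf G ∧ D.Lz tf G ≤ D.Lz tf one') ∧
      0 < D.Lz tf one'

def St_WIL : Prop :=
  ∀ γ ∈ Ioo (0 : ℝ) 2, ∀ (D : QD γ) tf, IsTF tf → ∃ κ > 0,
    Integrable (fun ω => (D.μ ω).real univ ^ th γ) D.P ∧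
    ∀ H : (ℕ → ℝ) → ℝ, Measurable H → (∀ s, 0 ≤ H s ∧ H s ≤ 1) →
      (∀ m r, GoodM m → H (obsn tf (trans r m)) = H (obsn tf m)) →
      (∀ (ms : ℕ → Measure Cyl) m, (∀ n, GoodM (ms n)) → GoodM m → WC ms m →
        Tendsto (fun n => H (obsn tf (ms n))) atTop (𝓝 (H (obsn tf m)))) →
      D.Lz tf H = κ * ∫ ω, (D.μ ω).real univ ^ th γ * H (obsn tf (D.μ ω)) ∂D.P

def St_FA2 : Prop :=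
  ∀ γ ∈ Ioo (0 : ℝ) 2, ∀ (D : QD γ) tf, IsTF tf → ∀ V a : ℝ, 0 < a → a < V →
    ∀ (k : ℕ) (f : Fin k → C_c(Cyl, ℝ)) (G : (Fin k → ℝ) →ᵇ ℝ), (∀ s, 0 ≤ G s ∧ G s ≤ 1) →
    Tendsto (fun Λ : ℕ => D.Lz tf (envLo (relR a (PhiT f G) tf) V Λ) / D.Lz tf one') atTop
      (𝓝 (qsE γ V a D.P D.μ (PhiT f G))) ∧
    Tendsto (fun Λ : ℕ => D.Lz tf (envUp (relR a (PhiT f G) tf) V Λ) / D.Lz tf one') atTop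
      (𝓝 (qsE γ V a D.P D.μ (PhiT f G))) ∧
    Tendsto (fun Λ : ℕ => D.Lz tf (gapE (relE a (PhiT f G) tf) V Λ)) atTop (𝓝 0) ∧
    ∀ (G' : (Fin k → ℝ) →ᵇ ℝ) (α β : ℝ), (∀ s, G' s = α * G s + β) →
      qsE γ V a D.P D.μ (PhiT f G') = α * qsE γ V a D.P D.μ (PhiT f G) + β

end

end Pool.Agent.Lib.APPS
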