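import Pool.Agent.Lib.APPS.Blue3

/-!
Block statements, part 4: macroscopic limit, flux and local limit theorem, volume, assembly.
-/

namespace Pool.Agent.Lib.APPS

open MeasureTheory ProbabilityTheory Filter Topology Set Metric
open scoped NNReal ENNReal CompactlySupported BoundedContinuousFunction RealInnerProductSpace
  Classical

noncomputable section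

def St_THL : Prop :=
  ∀ (Λ : ℝ) (χ : ℝ → ℝ), 0 ≤ Λ → Chi χ → ∃ C β : ℝ, 0 ≤ C ∧ 1 ≤ β ∧ ∀ G, LipG Λ G → ∀ k0 : ℕ,
    (Measurable fun p : ℝ × (ℕ → ℝ) => Th G χ k0 p.1 p.2) ∧
    (∀ τ s, Th G χ k0 τ s ≠ 0 → 3 / 4 ≤ τ ∧ τ ≤ β) ∧
    (∀ τ s, 0 ≤ s 0 → 0 ≤ Th G χ k0 τ s ∧ Th G χ k0 τ s ≤ 2 * s 0) ∧
    (∀ τ s, 0 ≤ s 0 → s 0 ≤ τ → Th G χ k0 τ s ≤ 2) ∧
    (∀ τ s, 0 ≤ s 0 → |Th G χ k0 τ s - χ τ / τ * (s 0 / τ) * G fun k => s k / τ| ≤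
      C * (1 / 2 : ℝ) ^ k0 * s 0) ∧
    ∀ (τ τ' δ B : ℝ) (s s' : ℕ → ℝ), 0 ≤ s 0 → 0 ≤ s' 0 → 1 ≤ B → |τ - τ'| ≤ δ →
      (∀ k ≤ k0, |s k - s' k| ≤ δ ∧ |s k| ≤ B ∧ |s' k| ≤ B) →
      |Th G χ k0 τ s - Th G χ k0 τ' s'| ≤ C * (|s 0 - s' 0| + B * δ * min (s 0) (s' 0))

def St_MT1 : Prop :=
  ∀ γ ∈ Ioo (0 : ℝ) 2, ∀ M : Model, box [] ⊆ M.O → ∀ tf, IsTF tf → ∀ Λ G χ, 0 ≤ Λ → LipG Λ G →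
    Chi χ → ∀ s ∈ Icc (0 : ℝ) (1 / 20), ∀ η > 0, ∃ k00 : ℕ, ∀ k0 ≥ k00, ∃ K0 : ℕ, ∀ K ≥ K0,
    ∃ K'0 : ℝ, ∀ K' ≥ K'0, ∃ K10 : ℕ, ∀ K1 ≥ K10, ∀ᶠ n : ℝ in atTop,
      |M.An γ tf G χ s n - M.Idl γ tf G χ s k0 K K' K1 n| ≤ η

def St_MT2L : Prop :=
  ∀ γ ∈ Ioo (0 : ℝ) 2, ∀ tf, IsTF tf → ∀ Λ G χ, 0 ≤ Λ → LipG Λ G → Chi χ →
    ∀ (k0 K : ℕ) (K' η : ℝ), 2 ≤ K → 0 < η → ∃ L0 : ℕ, ∀ L ≥ L0, ∃ l0 ≥ L, ∀ l ≥ l0,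
    ∀ᶠ n : ℝ in atTop, ∀ (M : Model) (V : Dy) (K1 : ℕ), box [] ⊆ M.O → Loc K1 V →
      ∀ y, |y| ≤ K' → ∫⁻ ω, ENNReal.ofReal
        |IV tf G χ k0 K n V (M.locX γ V (lvl γ n + y) ω) / n -
          Psi γ (cc γ one) tf G χ k0 K L l y fun i => ω (M.bV V L l i)| ∂gm ≤ ENNReal.ofReal η

def St_MT2 : Prop :=
  ∀ γ ∈ Ioo (0 : ℝ) 2, ∀ (M : Model) (i0 : ℕ), M.Ok i0 → ∀ tf, IsTF tf → ∀ Λ G χ, 0 ≤ Λ →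
    LipG Λ G → Chi χ → ∀ (s : ℝ) (k0 K : ℕ) (K' : ℝ) (K1 : ℕ) (η : ℝ), 2 ≤ K → i0 ≤ K1 → 0 < η →
    ∃ L0 : ℕ, ∀ L ≥ L0, ∃ l0 ≥ L, ∀ l ≥ l0, ∀ᶠ n : ℝ in atTop,
      |M.Idl γ tf G χ s k0 K K' K1 n - M.Jdl γ tf G χ s k0 K K' K1 L l n| ≤ η

def St_PRJ : Prop :=
  ∀ (ι : Type) [Fintype ι] (b0 : ι → HH), ∃ C : ℝ, 0 ≤ C ∧ ∀ b : ι → HH,
    (∀ i j, ⟪b i, b j⟫ = ⟪b0 i, b0 j⟫) → ∀ (e : HH) (δ : ℝ), 0 ≤ δ → (∀ i, |⟪b i, e⟫| ≤ δ) →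
    ∃ p ∈ Submodule.span ℝ (range b), ‖p‖ ≤ C * δ ∧ ∀ i, ⟪b i, e - p⟫ = 0

def St_FAC : Prop :=
  ∀ γ ∈ Ioo (0 : ℝ) 2, ∀ (M : Model) (i0 : ℕ), M.Ok i0 → ∀ (s K' : ℝ) (K1 : ℕ), i0 ≤ K1 →
    ∃ a : ℝ → ℝ, (∀ n, 0 ≤ a n) ∧ ∀ (ι : Type) [Fintype ι] (b0 : ι → HH) (Cb B η : ℝ), 0 < η →
    ∀ᶠ n : ℝ in atTop, ∀ (b : Dy → ι → HH) (ψ : ℝ × (ι → ℝ) → ℝ≥0∞), Measurable ψ →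
      (∀ V, Loc K1 V → (∀ i j, ⟪b V i, b V j⟫ = ⟪b0 i, b0 j⟫) ∧
        (∀ i, ⟪b V i, M.eC (ctr V) (4 * side V)⟫ = 0) ∧
        ∀ i, ∀ l ≤ K1, |⟪b V i, M.eS (anc l V)⟫| ≤ Cb * side V) →
      (∀ y, |y| ≤ K' → ∫⁻ ω, ψ (y, fun i => ω (b0 i)) ^ 2 ∂gm ≤ ENNReal.ofReal B) →
      |M.Jg γ s K' K1 (fun V y ω => ψ (y, fun i => ω (b V i))) n -
        a n * ∫ y in Icc (-K') K', Real.exp (-(4 / γ) * y) *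
          (∫⁻ ω, ψ (y, fun i => ω (b0 i)) ∂gm).toReal| ≤ η

def St_MT3 : Prop :=
  ∀ γ ∈ Ioo (0 : ℝ) 2, ∀ (M : Model) (i0 : ℕ), M.Ok i0 → ∀ (s K' : ℝ) (K1 : ℕ), i0 ≤ K1 →
    ∃ a : ℝ → ℝ, (∀ n, 0 ≤ a n) ∧ ∀ tf, IsTF tf → ∀ Λ G χ, 0 ≤ Λ → LipG Λ G → Chi χ →
    ∀ (k0 K L l : ℕ) (η : ℝ), 2 ≤ K → L ≤ l → 0 < η → ∀ᶠ n : ℝ in atTop,
      |M.Jdl γ tf G χ s k0 K K' K1 L l n -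
        a n * M.Lpar γ (cc γ one) tf G χ k0 K K' L l| ≤ η

def St_MT4a : Prop :=
  ∀ γ ∈ Ioo (0 : ℝ) 2, ∀ c ≥ 0, ∀ tf, IsTF tf → ∀ Λ G χ, 0 ≤ Λ → LipG Λ G → Chi χ →
    ∀ k0 K : ℕ, SuppK tf k0 K → ∀ η > 0, ∃ K'0 : ℝ, ∀ K' ≥ K'0, ∀ L : ℕ, ∃ l0 : ℕ, ∀ l ≥ l0,
    ∀ M : Model,
      c / 16 * M.Elat γ c tf G χ k0 K (K' / 2) L (l - K - 1) - η ≤
        M.Lpar γ c tf G χ k0 K K' L l ∧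
      M.Lpar γ c tf G χ k0 K K' L l ≤ c / 16 * M.Elat γ c tf G χ k0 K (2 * K') L (l - K - 1) + η

def St_MT4b : Prop :=
  ∀ γ ∈ Ioo (0 : ℝ) 2, ∀ (D : QD γ), ∀ c > 0, ∀ tf, IsTF tf → ∀ Λ G χ, 0 ≤ Λ → LipG Λ G →
    Chi χ → ∀ η > 0, ∃ k00 : ℕ, ∀ k0 ≥ k00, ∃ K0 : ℕ, ∀ K ≥ K0, SuppK tf k0 K ∧
    ∃ K'0 : ℝ, ∀ K' ≥ K'0, ∃ L0 : ℕ, ∀ L ≥ L0, ∃ l0 : ℕ, ∀ l ≥ l0, ∀ M : Model,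
      |M.Elat γ c tf G χ k0 K K' L l -
        (c * Real.exp (-(γ ^ 2 * Ie D.θ D.θ / 2))) ^ th γ * γ⁻¹ * wn γ χ * D.Lz tf G| ≤ η

def St_MTC : Prop :=
  ∀ γ ∈ Ioo (0 : ℝ) 2, ∀ (D : QD γ) (M : Model), box [] ⊆ M.O → ∀ tf, IsTF tf →
    ∀ Λ G₁ G₂ χ₁ χ₂, 0 ≤ Λ → LipG Λ G₁ → LipG Λ G₂ → Chi χ₁ → Chi χ₂ →
    ∀ s ∈ Icc (0 : ℝ) (1 / 20), ∀ η > 0, ∀ᶠ n : ℝ in atTop, ∃ a ≥ 0,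
      |M.An γ tf G₁ χ₁ s n - a * D.Lz tf G₁ * wn γ χ₁| ≤ η * (1 + a) ∧
      |M.An γ tf G₂ χ₂ s n - a * D.Lz tf G₂ * wn γ χ₂| ≤ η * (1 + a)

def St_G3W : Prop :=
  ∀ γ ∈ Ioo (0 : ℝ) 2, ∀ (D : QD γ) (M : Model), box [] ⊆ M.O →
  (∀ η > 0, ∃ ε0 > 0, ∀ ε ∈ Ioc 0 ε0, ∀ᶠ ι : ℕ in atTop, ENNReal.ofReal ((ι : ℝ) ^ (th γ + 1)) *
    gm {ω | (ι : ℝ≥0∞) < nB (M.X γ 0 ω) ∧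
      nB (M.X γ 0 ω) ≤ ENNReal.ofReal (Real.exp (γ * ε) * ι) ∧
      2 * nB (sh (M.X γ 0 ω) (-ε)) < ι} ≤ ENNReal.ofReal (η * ε)) ∧
  (∃ c > 0, ∃ K : ℝ, ∀ ε ∈ Ioc (0 : ℝ) 1, ∀ᶠ ι : ℕ in atTop,
    c ≤ M.win γ oneT ε ι ∧ M.win γ oneT ε ι ≤ K) ∧
  ∀ tf, IsTF tf → ∀ Λ G, 0 ≤ Λ → LipG Λ G → ∀ ε ∈ Ioc (0 : ℝ) 1,
    Tendsto (fun ι : ℕ => M.win γ (PhiG tf G) ε ι * D.Lz tf one' - M.win γ oneT ε ι * D.Lz tf G)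
      atTop (𝓝 0)

def St_F1 : Prop :=
  ∀ γ ∈ Ioo (0 : ℝ) 2, ∀ (_D : QD γ) (M : Model), box [] ⊆ M.O → ∀ Λ η : ℝ, 0 < η →
    ∃ ε0 > 0, ∀ ε ∈ Ioc 0 ε0, ∀ᶠ ι : ℕ in atTop, ∀ Φ, Cls Λ Φ →
      M.fl γ Φ ι ≠ ∞ ∧ |M.flR γ Φ ι - M.win γ Φ ε ι| ≤ η

def St_F2E : Prop :=
  ∀ γ ∈ Ioo (0 : ℝ) 2, ∀ M : Model, box [] ⊆ M.O → ∀ η > 0, ∃ J : ℕ, ∀ᶠ n : ℕ in atTop,
    ENNReal.ofReal ((n : ℝ) ^ (th γ + 1)) * ∑' S : Dy, M.sf γ S (fun ω =>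
      ind (Cross n S (M.X γ 0 ω) ∧
        (S = [] ∨ (J : ℝ≥0∞) < nB (sub (sh (M.X γ 0 ω) 1) S.tail)))) ≤ ENNReal.ofReal η

def St_F2T : Prop :=
  ∀ γ ∈ Ioo (0 : ℝ) 2, ∀ M : Model, box [] ⊆ M.O → ∀ (J : ℕ) (η : ℝ), 0 < η → ∃ Mx : ℝ,
    ∀ᶠ n : ℕ in atTop, ∀ lam ∈ Ioc (0 : ℝ) 1, ENNReal.ofReal ((n : ℝ) ^ (th γ + 1)) *
      ∑' P : Dy, ∑ d : Fin 2 × Fin 2, ∫⁻ ω, ind (IntN (M.X γ 0 ω) P ∧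
        |M.X γ 0 ω (d :: P)| ≤ lam ∧ (n : ℝ≥0∞) ≤ nB (M.X γ 0 ω) + J ∧ nB (M.X γ 0 ω) ≤ n + J ∧
        ∑ c : Fin 2 × Fin 2, nB (sub (sh (M.X γ 0 ω) (1 / 4)) (c :: d :: P)) +
          nB (sub (sh (M.X γ 0 ω) (1 / 4)) (sib (d :: P))) ≤ J ∧
        Mx ≤ |ω (M.vs (d :: P))|) * eE |ω (M.vs (d :: P))| ∂gm ≤ ENNReal.ofReal (η * lam)

/-- expectation form of the law of large numbers at the local limit level -/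
def St_LLE : Prop :=
  ∀ γ ∈ Ioo (0 : ℝ) 2, ∀ M : Model, box [] ⊆ M.O → ∀ F, Adm γ F → ∀ η > 0,
    ∀ᶠ ι : ℕ in atTop, ∀ Φ : Finset Dy → ℝ, (∀ T, 0 ≤ Φ T ∧ Φ T ≤ 1) →
      Integrable (fun ω => indR (nB (M.X γ 0 ω) = ι) * Φ (tr (M.X γ 0 ω)) *
        SR F (M.X γ 0 ω) []) gm ∧
      |(ι : ℝ) ^ (th γ + 1) * ∫ ω, indR (nB (M.X γ 0 ω) = ι) * Φ (tr (M.X γ 0 ω)) *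
        SR F (M.X γ 0 ω) [] ∂gm - cc γ F / cc γ one * M.aL γ Φ ι| ≤ η ∧
      ∃ A : ℝ, ∀ ι' : ℕ, 0 ≤ M.aL γ Φ ι' ∧ M.aL γ Φ ι' ≤ M.aL γ oneT ι' ∧ M.aL γ oneT ι' ≤ A

def St_F2 : Prop :=
  ∀ γ ∈ Ioo (0 : ℝ) 2, ∀ M : Model, box [] ⊆ M.O → ∀ Λ η : ℝ, 0 < η →
    ∃ (J : ℕ) (w : ℕ → ℝ), (∀ i, 0 ≤ w i) ∧ ∀ᶠ ι : ℕ in atTop, ∀ Φ, Cls Λ Φ →
      M.fl γ Φ ι ≠ ∞ → |M.flR γ Φ ι - ∑ i ∈ Finset.Icc 1 J, w i * M.aL γ Φ (ι + i)| ≤ η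

def St_ADM : Prop :=
  ∀ γ ∈ Ioo (0 : ℝ) 2,
    (∀ lam > 0, Adm γ (Fm lam) ∧ Adm γ (Fp lam)) ∧
    ∀ (K D : ℕ) (Mx d0 : ℝ), 0 < Mx → 0 < d0 → Adm γ (Fv γ K D Mx d0) ∧ Adm γ (Bad K D)

def St_LF1 : Prop :=
  ∀ γ ∈ Ioo (0 : ℝ) 2, ∀ M : Model, box [] ⊆ M.O → ∃ w0 > 0, ∀ Λ η : ℝ, 0 < η →
    ∃ wp wm : ℝ, 0 ≤ wp ∧ w0 ≤ wm ∧ ∀ᶠ ι : ℕ in atTop, ∀ Φ, Cls Λ Φ →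
      |wp * M.aL γ Φ (ι + 1) - wm * M.aL γ Φ ι| ≤ η

def St_LT : Prop :=
  ∀ γ ∈ Ioo (0 : ℝ) 2, ∀ (D : QD γ) (M : Model), box [] ⊆ M.O →
    (∃ c > 0, ∀ᶠ ι : ℕ in atTop, c ≤ M.aL γ oneT ι) ∧
    ∀ tf, IsTF tf → ∀ Λ G, 0 ≤ Λ → LipG Λ G →
      Tendsto (fun ι : ℕ => M.aL γ (PhiG tf G) ι / M.aL γ oneT ι) atTop
        (𝓝 (D.Lz tf G / D.Lz tf one'))

def St_KR : Prop :=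
  ∀ (g : Met) (M : Model), Lnk g M →
  (∀ z ∈ box [], g.σ z = 0) ∧
  (∀ T, IsTr T → (∀ ω, Continuous (M.kr g T ω)) ∧
    (Measurable fun p : Om × ℂ => M.kr g T p.1 p.2) ∧
    (∀ ω, ∀ S ∈ lvs T, ∫ z, M.kr g T ω z ∂unif S = ω (M.eS S)) ∧
    ∀ γ z, ∀ w0 ∈ Submodule.span ℝ (M.eS '' ↑(lvs T)), ∀ y : HH,
      (∀ B ∈ lvs T, ⟪y + w0, M.eS B⟫ = g.U B z) → ∀ Ξ : ℝ → ℝ, ConvexOn ℝ univ Ξ →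
      (∀ t, 0 ≤ Ξ t) →
      ∫⁻ ω, ind (HasTr (M.X γ 0 ω) T) * ENNReal.ofReal (Ξ (M.kr g T ω z - ω w0)) ∂gm ≤
        ∫⁻ ω, ind (HasTr (M.X γ 0 ω) T) * ENNReal.ofReal (Ξ (ω y)) ∂gm) ∧
  ∀ γ, Measurable fun p : Om × ℂ => M.kr g (tr (M.X γ 0 p.1)) p.1 p.2

def St_MV : Prop :=
  ∀ γ ∈ Ioo (0 : ℝ) 2, ∀ (g : Met) (M : Model), Lnk g M →
    (∀ h, IsFiniteMeasure (g.volg (QQ γ) h) ∧ g.volg (QQ γ) h ≠ 0) ∧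
    (Measurable fun h => g.volg (QQ γ) h) ∧
    (∀ ω, IsFiniteMeasure (M.volT g γ ω) ∧ M.volT g γ ω ≪ volume) ∧ Measurable (M.volT g γ) ∧
    ∀ ω, nB (M.X γ 0 ω) ≠ ∞ →
      g.volg (QQ γ) (fun S => ω (M.eS S)) = nvol (tr (M.X γ 0 ω)).card (M.volT g γ ω) ∧
      (part (QQ γ) fun S => ω (M.eS S)).ncard = 3 * (tr (M.X γ 0 ω)).card + 1

def St_SCR0 : Prop :=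
  ∀ τ, IsTr τ → (∀ z, ∑ A : lvs τ, lamL τ z A = 1) ∧
    (∀ z, ∀ B : lvs τ, ∑ A : lvs τ, lamL τ z A * kS A B = potS B z + nuL τ z) ∧
    ∀ A, Continuous fun z => lamL τ z A

def St_SCR1 : Prop :=
  ∃ C : ℝ, 0 ≤ C ∧ ∀ (𝓛 : Finset Dy) (f : ℂ → ℝ) (c : ℂ) (r : ℝ), 0 < r → LipE f →
    (∀ B ∈ 𝓛, ∀ B' ∈ 𝓛, B <:+ B' → B = B') →
    (∀ x, r ≤ ‖x - c‖ → ‖x - c‖ ≤ 2 * r → ∃ B ∈ 𝓛, x ∈ box B) →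
    (∀ B ∈ 𝓛, (∃ x ∈ box B, r ≤ ‖x - c‖ ∧ ‖x - c‖ ≤ 2 * r) → side B ≤ r / 8) →
    (∀ B ∈ 𝓛, ∫ x, f x ∂unif B = 0) →
    ∃ ψ : ℂ → ℝ, LipE ψ ∧ (∀ x, ‖x - c‖ ≤ 3 * r / 4 → ψ x = 0) ∧
      (∀ x, 9 * r / 4 ≤ ‖x - c‖ → ψ x = f x) ∧ (∀ B ∈ 𝓛, ∫ x, ψ x ∂unif B = 0) ∧
      ∫ x in {x | 3 * r / 4 ≤ ‖x - c‖ ∧ ‖x - c‖ ≤ 9 * r / 4}, ‖gradient ψ x‖ ^ 2 ≤
        C * ∫ x in {x | 3 * r / 4 ≤ ‖x - c‖ ∧ ‖x - c‖ ≤ 9 * r / 4}, ‖gradient f x‖ ^ 2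

def St_SCR : Prop :=
  ∃ θ0 C : ℝ, 0 < θ0 ∧ θ0 < 1 ∧ 0 ≤ C ∧ ∀ (K D : ℕ) (τ : Finset Dy) (S : Dy), IsTr τ →
    Good K D τ S → ∀ (M : Model) (A : Dy) (z : ℂ) (d : ℝ), box [] ⊆ M.O → 0 < d →
    closedBall z d ⊆ box [] → ∃ φ, LipC φ ∧ tsupport φ ⊆ interior (box A) ∧
      (∀ B ∈ lvs τ, ∫ x, φ x ∂unif (B ++ A) = 0) ∧
      (∃ ν' : ℝ, ∀ B ∈ lvs τ, ⟪M.Yv (zS (S ++ A) z) (d * side (S ++ A)) -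
        ∑ B' : lvs τ, lamL τ (zS S z) B' • M.eS (B' ++ A), M.eS (B ++ A)⟫ = ν') ∧
      ‖M.Yv (zS (S ++ A) z) (d * side (S ++ A)) -
        ∑ B : lvs τ, lamL τ (zS S z) B • M.eS (B ++ A) - gr φ‖ ≤
        C * θ0 ^ K * Real.sqrt (1 + Real.log (1 / d))

def St_H5 : Prop :=
  ∀ γ ∈ Ioo (0 : ℝ) 2, ∃ Cg : ℕ, ∀ η > 0, ∃ K0 : ℕ, ∀ K ≥ K0, cc γ (Bad K (Cg * K)) ≤ η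

def St_H0 : Prop :=
  ∀ γ ∈ Ioo (0 : ℝ) 2, ∀ (g : Met) (M : Model), Lnk g M → ∀ η > 0, ∀ᶠ ι : ℕ in atTop,
    ENNReal.ofReal ((ι : ℝ) ^ (th γ + 1)) *
      ∫⁻ ω, ind (nB (M.X γ 0 ω) = ι) * M.volT g γ ω (box [])ᶜ ∂gm ≤ ENNReal.ofReal η

def St_H3 : Prop :=
  ∀ γ ∈ Ioo (0 : ℝ) 2, ∀ (g : Met) (M : Model), Lnk g M → ∀ η > 0, ∃ Mx > 0,
    ∀ᶠ ι : ℕ in atTop, ENNReal.ofReal ((ι : ℝ) ^ (th γ + 1)) *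
      ∫⁻ ω, ind (nB (M.X γ 0 ω) = ι) * ∑ S ∈ lvs (tr (M.X γ 0 ω)), ∫⁻ z in box [],
        ENNReal.ofReal (Real.exp (bt γ * (M.kr g (tr (M.X γ 0 ω)) ω (zS S z) -
          QQ γ * S.length * l2)) - Mx) ∂volume ∂gm ≤ ENNReal.ofReal η

/-- the Gaussian estimate behind the localisation of the kriging predictor -/
def St_H4a : Prop :=
  ∀ γ ∈ Ioo (0 : ℝ) 2, ∀ (M : Model) (i0 : ℕ), M.Ok i0 → ∀ (Cg : ℕ) (θ0 C η : ℝ), 0 < θ0 →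
    θ0 < 1 → 0 < η → ∃ K0 : ℕ, ∀ K ≥ K0, ∀ᶠ ι : ℕ in atTop,
    ∀ ε : Finset Dy → Dy → Dy → HH,
      (∀ τ S A, IsTr τ → Good K (Cg * K) τ S → ‖ε τ S A‖ ≤ C * θ0 ^ K ∧
        (∃ ν' : ℝ, ∀ B ∈ lvs τ, ⟪ε τ S A, M.eS (B ++ A)⟫ = ν') ∧
        (∀ φ, LipC φ → (∃ c, ∀ᶠ x in 𝓝ˢ (box A), φ x = c) → ⟪ε τ S A, gr φ⟫ = 0) ∧
        (∀ S', ¬A <:+ S' → ¬S' <:+ A → ⟪ε τ S A, M.ub S'⟫ = 0) ∧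
        ∀ i : ℕ, i0 ≤ i → i + 2 ≤ A.length →
          ⟪ε τ S A, M.eC (ctr A) ((1 / 2 : ℝ) ^ i)⟫ = 0) →
      ENNReal.ofReal ((ι : ℝ) ^ (th γ + 1)) * ∑' A : Dy, ind (i0 + 4 ≤ A.length) *
        ∫⁻ ω, ind (nB (M.X γ 0 ω) = ι ∧ A ∈ tr (M.X γ 0 ω)) * ∑ S ∈ lev (3 * K),
          ind (Good K (Cg * K) (tr (sub (M.X γ 0 ω) A)) S) *
            ENNReal.ofReal |ω (ε (tr (sub (M.X γ 0 ω) A)) S A)| ∂gm ≤ ENNReal.ofReal η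

def St_H4 : Prop :=
  ∀ γ ∈ Ioo (0 : ℝ) 2, ∀ (g : Met) (M : Model), Lnk g M → ∀ (Cg : ℕ) (d0 η : ℝ), 0 < d0 → 0 < η →
    ∃ K0 : ℕ, ∀ K ≥ K0, ∀ᶠ ι : ℕ in atTop, ENNReal.ofReal ((ι : ℝ) ^ (th γ + 1)) *
      ∫⁻ ω, ind (nB (M.X γ 0 ω) = ι) * ∑ A ∈ tr (M.X γ 0 ω), ∑ S ∈ lev (3 * K),
        ind (Good K (Cg * K) (tr (sub (M.X γ 0 ω) A)) S) * ∫⁻ z in sq d0, ENNReal.ofReal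
          (min 1 |M.kr g (tr (M.X γ 0 ω)) ω (zS (S ++ A) z) - QQ γ * A.length * l2 -
            kloc (QQ γ) (tr (sub (M.X γ 0 ω) A)) (sub (M.X γ 0 ω) A) (zS S z)|) ∂volume ∂gm ≤
      ENNReal.ofReal η

/-- approximation of the volume by a local functional -/
def St_VOL1 : Prop :=
  ∀ γ ∈ Ioo (0 : ℝ) 2, ∀ (g : Met) (M : Model), Lnk g M → ∃ Cg : ℕ, ∀ η > 0,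
    ∃ Mx > 0, ∃ d0 > 0, ∃ K0 : ℕ, ∀ K ≥ K0, ∀ᶠ n : ℕ in atTop,
      ENNReal.ofReal ((n : ℝ) ^ (th γ + 2)) *
        gm {ω | nB (M.X γ 0 ω) = n ∧ (ENNReal.ofReal (η * n) < M.volT g γ ω (box [])ᶜ ∨
          ∃ R, η * n < |(M.volT g γ ω).real (box R) -
            cc γ (Fv γ K (Cg * K) Mx d0) / cc γ one * SR one (M.X γ 0 ω) R|)} ≤ ENNReal.ofReal η

def St_VOL : Prop :=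
  ∀ γ ∈ Ioo (0 : ℝ) 2, ∀ (_D : QD γ) (g : Met) (M : Model), Lnk g M →
    ∃ cV > 0, (∀ B, NumB γ B → cV ≤ B) ∧ VolL γ g M cV

def St_FA : Prop :=
  ∀ γ ∈ Ioo (0 : ℝ) 2, ∀ (D : QD γ) (g : Met) (M : Model), Lnk g M → ∀ cV > 0, VolL γ g M cV →
    ∀ a ∈ Ioo 0 (Real.sqrt (3 / cV)), ∀ (k : ℕ) (f : Fin k → C_c(Cyl, ℝ))
      (G : (Fin k → ℝ) →ᵇ ℝ), (∀ s, 0 ≤ G s ∧ G s ≤ 1) →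
      Tendsto (fun ι : ℕ => (∫ ω, indR (nB (M.X γ 0 ω) = ι) *
          sampleAvg a (PhiT f G) (g.volg (QQ γ) fun S => ω (M.eS S)) ∂gm) /
          gm.real {ω | nB (M.X γ 0 ω) = ι}) atTop
        (𝓝 (qsE γ (Real.sqrt (3 / cV)) a D.P D.μ (PhiT f G)))

def St_FIN : Prop :=
  ∀ γ ∈ Ioo (0 : ℝ) 2, ∀ (g : Met) (M : Model), Lnk g M → ∀ cV > 0, VolL γ g M cV →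
    ∀ a ∈ Ioo 0 (Real.sqrt (3 / cV)), Conv γ g (Real.sqrt (3 / cV)) a

end

end Pool.Agent.Lib.APPS
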