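import Pool.Agent.Lib.APPS.Blue4

/-!
Block statements, part 5: the explicit bound on the volume constant.
-/

namespace Pool.Agent.Lib.APPS

open MeasureTheory ProbabilityTheory Filter Topology Set Metric
open scoped NNReal ENNReal CompactlySupported BoundedContinuousFunction RealInnerProductSpace
  Classical

noncomputable section

def lg (s t : ℝ) : ℝ := -(1 / 2) * Real.log (s ^ 2 + t ^ 2)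

/-- logarithmic potential at the origin of the rectangle `[0, a] × [0, b]` -/
def FF (a b : ℝ) : ℝ := ∫ s in (0 : ℝ)..a, ∫ t in (0 : ℝ)..b, lg s t

def U2 (x y : ℝ) : ℝ := FF x y + FF (1 - x) y + FF x (1 - y) + FF (1 - x) (1 - y)

def dxx (z : ℂ) : ℝ := min z.re (1 - z.re)
def dyy (z : ℂ) : ℝ := min z.im (1 - z.im)
def dmin (z : ℂ) : ℝ := min (dxx z) (dyy z)
def dmax (z : ℂ) : ℝ := max (dxx z) (dyy z)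

/-- energy of the explicit predictor -/
def vP (z : ℂ) : ℝ :=
  -Real.log (dmin z * (2 - dmin z / dmax z)) + (dmin z / dmax z * (2 - dmin z / dmax z)) ^ 2

def sb (z : ℂ) : ℝ := 0.318 - 0.115 * dmax z

def WW (z : ℂ) : ℝ := Real.exp ((vP z - 2 * (0.366 + 0.56 * dmax z) + 0.807) / 2 + 2 * sb z)

def St_NF1 : Prop :=
  (∀ a b, 0 ≤ a → 0 ≤ b → IntegrableOn (fun p : ℝ × ℝ => lg p.1 p.2) (Icc 0 a ×ˢ Icc 0 b) ∧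
    FF a b = ∫ p in Icc 0 a ×ˢ Icc 0 b, lg p.1 p.2) ∧
  (∀ a b, 0 ≤ a → 0 ≤ b → FF a b = FF b a) ∧ (∀ b, FF 0 b = 0) ∧
  (∀ b, 0 ≤ b → ConcaveOn ℝ (Ici 0) fun a => FF a b) ∧
  ConcaveOn ℝ (Ici 0) (fun b => FF (1 / 4) b + FF (3 / 4) b - FF 1 b) ∧
  ContinuousOn (fun p : ℝ × ℝ => FF p.1 p.2) (Ici 0 ×ˢ Ici 0)

def St_NF2 : Prop :=
  0.366 ≤ FF 1 1 ∧ 0.646 ≤ 2 * FF (1 / 2) 1 ∧ 4 * FF (1 / 2) (1 / 2) ≤ 1.063 ∧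
    2 * (FF (1 / 4) (1 / 2) + FF (3 / 4) (1 / 2) - FF 1 (1 / 2)) ≤ 0.316

def St_NF3 : Prop :=
  0.803 ≤ 4 * ∫ a in (0 : ℝ)..1, ∫ b in (0 : ℝ)..1, FF a b ∧
    4 * ∫ a in (0 : ℝ)..1, ∫ b in (0 : ℝ)..1, FF a b ≤ 0.807

def St_NP1 : Prop :=
  (∀ z ∈ box [], potS [] z = U2 z.re z.im) ∧
  (∀ S, kS [] S = (side S ^ 2)⁻¹ * ∫ x in (corner S).re..((corner S).re + side S),
    ∫ y in (corner S).im..((corner S).im + side S), U2 x y) ∧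
  kS [] [] = 4 * ∫ a in (0 : ℝ)..1, ∫ b in (0 : ℝ)..1, FF a b ∧
  ∀ d, kS [] [d] = kS [] []

def St_NU1 : Prop :=
  kS [] [] ≤ 0.807 ∧ ∀ z ∈ box [], 0.366 + 0.56 * dmax z ≤ potS [] z ∧
    ∀ S, potS [] (zS S z) - kS [] S ≤ sb z

def St_NI : Prop := Measurable WW ∧ ∫⁻ z in box [], ENNReal.ofReal (WW z) ≤ ENNReal.ofReal 5.85

def St_PRD : Prop :=
  ∀ (M : Model) (S : Dy) (z : ℂ), box [] ⊆ M.O → 0 < dmin z → ∃ y : HH,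
    (∀ B, (B <:+ S ∨ ¬S <:+ B) → ⟪y, M.eS B⟫ = M.C0 + potS B (zS S z)) ∧
    ‖y - M.eS S‖ ^ 2 = vP z - 2 * potS [] z + kS [] []

def St_BATH : Prop :=
  ∀ γ ∈ Ioo (0 : ℝ) 2, ∀ C ≥ 0, ∀ v, Gram v (covE C) → ∀ Δm η : ℝ, 0 < η → ∃ u0 : ℝ, ∀ u ≥ u0,
    ∀ Δ ∈ Icc 0 Δm, ∑' P : Dy, ∑ d : Fin 2 × Fin 2,
      ∫⁻ ω, ind (IntN (XV γ v u ω) P ∧ XV γ v u ω (d :: P) ≤ Δ) *
        eE (bt γ * (XV γ v u ω (d :: P) - Δ)) ∂gm ≤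
      ENNReal.ofReal (Real.exp (γ * u + γ ^ 2 * C / 2) * (2 * cc γ one + η))

def St_NRb : Prop :=
  ∀ γ ∈ Ioo (0 : ℝ) 2, ∀ M : Model, box [] ⊆ M.O → 0 ≤ M.C0 → ∀ η > 0, ∃ u0 : ℝ, ∀ u ≥ u0,
    ∀ z : ℂ, 0 < dmin z → ∀ y : Dy → HH,
      (∀ S, (∀ B, B <:+ S → ⟪y S, M.eS B⟫ = M.C0 + potS B (zS S z)) ∧
        ‖y S - M.eS S‖ ^ 2 = vP z - 2 * potS [] z + kS [] []) →
      ∑' S : Dy, ind (S ≠ []) * ∫⁻ ω, ind (Leaf (M.X γ u ω) S) *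
        eE (bt γ * (ω (y S) + u - QQ γ * S.length * l2)) ∂gm ≤
      ENNReal.ofReal (WW z * Real.exp (γ * u + γ ^ 2 * M.C0 / 2) * (2 * cc γ one + η))

def St_NRa : Prop :=
  ∀ γ ∈ Ioo (0 : ℝ) 2, ∀ M : Model, closedBall (ctr []) 3 ⊆ M.O → 0 ≤ M.C0 → ∃ K0 : ℝ,
    ∀ (u δ : ℝ) (k : ℕ) (Gd : Finset Dy → Dy → Prop) (ε : Finset Dy → Dy → Dy → HH), 0 ≤ δ →
      1 ≤ k → (∀ τ S A, IsTr τ → Gd τ S → S ∈ lvs τ ∧ ‖ε τ S A‖ ≤ δ ∧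
        ⟪ε τ S A, M.eC (ctr A) (2 * side A)⟫ = 0 ∧ ∃ ν' : ℝ, ∀ B ∈ lvs τ, ⟪ε τ S A, M.eS (B ++ A)⟫ = ν') →
      ∑' A : Dy, ∑ S ∈ lev k, ∑' τ : Finset Dy, ind (IsTr τ ∧ Gd τ S) *
        ∫⁻ ω, ind (HasTr (sub (M.X γ u ω) A) τ) * ENNReal.ofReal |ω (ε τ S A)| ∂gm ≤
      ENNReal.ofReal (K0 * δ * Real.exp (γ * u))

def St_NUM : Prop := ∀ γ ∈ Ioo (0 : ℝ) 2, NumB γ 11.7

end

end Pool.Agent.Lib.APPS
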