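import Pool.Agent.Lib.APPS.Blue5

/-!
Block statements, part 6: existence of the data quantified over in the main statement.
-/

namespace Pool.Agent.Lib.APPS

open MeasureTheory ProbabilityTheory Filter Topology Set Metric
open scoped NNReal ENNReal CompactlySupported BoundedContinuousFunction RealInnerProductSpace
  Classical

noncomputable section

/-- Cauchy in probability -/
def CauP {Ω : Type} [MeasurableSpace Ω] (P : Measure Ω) (a : ℕ → Ω → ℝ) : Prop :=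
  ∀ η > 0, ∃ k0 : ℕ, ∀ k ≥ k0, ∀ k' ≥ k0, P {ω | η < |a k ω - a k' ω|} ≤ ENNReal.ofReal η

/-- a sequence of random locally integrable densities on the cylinder -/
structure Dens {Ω : Type} [MeasurableSpace Ω] (P : Measure Ω) (X : ℕ → Cyl → Ω → ℝ) : Prop where
  meas : ∀ k, Measurable fun q : Cyl × Ω => X k q.1 q.2
  nonneg : ∀ k w ω, 0 ≤ X k w ω
  int : ∀ k (f : C_c(Cyl, ℝ)), ∀ᵐ ω ∂P, Integrable (fun w => f w * X k w ω) cylVol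

/-- regular versions of the radial and lateral parts of the field of a model -/
structure Pre (θ : Measure ℂ) (M : Model) (β : Om → PP) (L : Cyl × ℕ → Om → ℝ) : Prop where
  bp : BP gm β
  rad : ∀ t : ℝ, ∀ᵐ ω ∂gm, twoS (β ω) t = ω (M.radV t)
  joint : ∀ k, Measurable fun q : Cyl × Om => L (q.1, k) q.2
  lat : ∀ p, ∀ᵐ ω ∂gm, L p ω = ω (M.lamV θ p)

def xZ (γ : ℝ) {Ω : Type} (β : Ω → PP) (L : Cyl × ℕ → Ω → ℝ) (k : ℕ) (w : Cyl) (ω : Ω) : ℝ :=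
  ((1 / 2 : ℝ) ^ k) ^ (γ ^ 2 / 2) *
    Real.exp (γ * (twoS (β ω) w.1 - QQ γ * w.1 + L (w, k) ω))

def xR (γ : ℝ) (θ : Measure ℂ) {Ω : Type} (β : Ω → PP) (L : Cyl × ℕ → Ω → ℝ) (k : ℕ) (w : Cyl)
    (ω : Ω) : ℝ :=
  ((1 / 2 : ℝ) ^ k) ^ (γ ^ 2 / 2) *
    Real.exp (γ * ((∫ v, radP (aa γ) (β ω) v.1 ∂moll θ (w, k)) + L (w, k) ω))

def St_EX1 : Prop :=
  ∀ v : ℝ≥0 → HH, Gram v (fun s t => min (s : ℝ) t) →
    ∃ b : Om → ℝ≥0 → ℝ, BM1 gm b ∧ ∀ t, ∀ᵐ ω ∂gm, b ω t = ω (v t)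

def St_EX2 : Prop :=
  ∀ v : Cyl → HH, Continuous v → ∃ L : Cyl → Om → ℝ,
    (Measurable fun q : Cyl × Om => L q.1 q.2) ∧ ∀ w, ∀ᵐ ω ∂gm, L w ω = ω (v w)

def St_EX3 : Prop :=
  ∀ θ, IsMoll θ → ∀ M : Model, ∃ β L, Pre θ M β L ∧ CG L gm (latCov θ) ∧
    IndepFun β (fun ω p => L p ω) gm

def St_EX4 : Prop :=
  ∀ γ ∈ Ioo (0 : ℝ) 2, ∀ θ, IsMoll θ → ∀ (M : Model) β L, Pre θ M β L →
    Dens gm (xZ γ β L) ∧
    ∀ f : C_c(Cyl, ℝ), CauP gm fun k ω => ∫ w, f w * xZ γ β L k w ω ∂cylVol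

def St_EX5a : Prop :=
  ∃ F : ℕ → C_c(Cyl, ℝ), ∀ ms : ℕ → Measure Cyl, (∀ n, IsFiniteMeasureOnCompacts (ms n)) →
    (∀ j, ∃ l, Tendsto (fun n => ∫ w, F j w ∂ms n) atTop (𝓝 l)) →
    ∃ m : Measure Cyl, IsFiniteMeasureOnCompacts m ∧
      ∀ f : C_c(Cyl, ℝ), Tendsto (fun n => ∫ w, f w ∂ms n) atTop (𝓝 (∫ w, f w ∂m))

def St_EX5b : Prop :=
  ∀ (α : Type) [MeasurableSpace α] (ν : α → Measure Cyl),
    (∀ x, IsFiniteMeasureOnCompacts (ν x)) →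
    (∀ f : C_c(Cyl, ℝ), Measurable fun x => ∫ w, f w ∂ν x) → Measurable ν

def St_EX5 : Prop :=
  ∀ (Ω : Type) [MeasurableSpace Ω] (P : Measure Ω) [IsProbabilityMeasure P]
    (X : ℕ → Cyl → Ω → ℝ), Dens P X →
    (∀ f : C_c(Cyl, ℝ), CauP P fun k ω => ∫ w, f w * X k w ω ∂cylVol) →
    ∃ ν : Ω → Measure Cyl, Measurable ν ∧ (∀ ω, IsFiniteMeasureOnCompacts (ν ω)) ∧
      ∀ f : C_c(Cyl, ℝ), TendstoInMeasure P (fun k ω => ∫ w, f w * X k w ω ∂cylVol) atTop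
        fun ω => ∫ w, f w ∂ν ω

def St_EX6 : Prop :=
  ∀ γ ∈ Ioo (0 : ℝ) 2, ∀ θ, IsMoll θ → ∀ (Ω : Type) [MeasurableSpace Ω] (P : Measure Ω)
    (β : Ω → PP) (L : Cyl × ℕ → Ω → ℝ) (ν : Ω → Measure Cyl), BP P β →
    (∀ k, Measurable fun q : Cyl × Ω => L (q.1, k) q.2) → Dens P (xZ γ β L) →
    (∀ ω, IsFiniteMeasureOnCompacts (ν ω)) →
    (∀ f : C_c(Cyl, ℝ), TendstoInMeasure P (fun k ω => ∫ w, f w * xZ γ β L k w ω ∂cylVol) atTop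
      fun ω => ∫ w, f w ∂ν ω) →
    Dens P (xR γ θ β L) ∧
    ∀ f : C_c(Cyl, ℝ), CauP P fun k ω => ∫ w, f w * xR γ θ β L k w ω ∂cylVol

def St_EXQ : Prop :=
  ∀ γ ∈ Ioo (0 : ℝ) 2, ∀ θ, IsMoll θ → ∃ (Ω : Type) (_ : MeasurableSpace Ω) (P : Measure Ω)
    (B₁ B₂ : ℝ≥0 → Ω → ℝ) (L : Cyl × ℕ → Ω → ℝ) (μ : Ω → Measure Cyl), QS γ θ P B₁ B₂ L μ

def St_EXM : Prop :=
  Nonempty Met ∧ IsMoll (circ 0 1) ∧ ∀ g : Met, ∃ (Ω : Type) (_ : MeasurableSpace Ω)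
    (P : Measure Ω) (h : Dy → Ω → ℝ), CG h P g.cov

end

end Pool.Agent.Lib.APPS
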