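import Pool.Agent.Lib.APPS.Defs

/-!
Internal definitions for the proof (Gaussian space, models, trees, functionals).
-/

namespace Pool.Agent.Lib.APPS

open MeasureTheory ProbabilityTheory Filter Topology Set
open scoped NNReal ENNReal CompactlySupported BoundedContinuousFunction RealInnerProductSpace

noncomputable section

/-! ### Constants -/

def l2 : ℝ := Real.log 2
def aa (γ : ℝ) : ℝ := QQ γ - γ
def th (γ : ℝ) : ℝ := 4 / γ ^ 2 - 1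
def bt (γ : ℝ) : ℝ := 2 / QQ γ
/-- centred Gaussian density with variance `v` -/
def pd (v t : ℝ) : ℝ := (Real.sqrt (2 * Real.pi * v))⁻¹ * Real.exp (-t ^ 2 / (2 * v))

open scoped Classical in
/-- indicator of a proposition -/
def ind (p : Prop) : ℝ≥0∞ := if p then 1 else 0

open scoped Classical in
def indR (p : Prop) : ℝ := if p then 1 else 0

/-- `ENNReal.ofReal (exp t)` -/
def eE (t : ℝ) : ℝ≥0∞ := ENNReal.ofReal (Real.exp t)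

/-! ### The Gaussian space -/

abbrev HH := Lp ℂ 2 (volume : Measure ℂ)
abbrev Om := Module.Dual ℝ HH

instance instMeasOm : MeasurableSpace Om :=
  MeasurableSpace.comap (fun (ω : Om) (v : HH) => ω v) inferInstance

def dv (h : HH) : Om := innerₗ HH h

def IsG (P : Measure Om) : Prop :=
  IsProbabilityMeasure P ∧ ∀ v : HH, P.map (fun ω : Om => ω v) = gaussianReal 0 (‖v‖₊ ^ 2)

def gm : Measure Om := Classical.epsilon IsG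

def Gram {T : Type} (v : T → HH) (c : T → T → ℝ) : Prop := ∀ s t, ⟪v s, v t⟫ = c s t

def gvec (c : Dy → Dy → ℝ) : Dy → HH := Classical.epsilon fun v => Gram v c

/-- law on `Dy → ℝ` of the centred Gaussian family with covariance `c` -/
def gl (c : Dy → Dy → ℝ) : Measure (Dy → ℝ) := gm.map fun ω S => ω (gvec c S)

/-- Wick exponential -/
def Wk (γ : ℝ) (v : HH) (ω : Om) : ℝ := Real.exp (γ * ω v - γ ^ 2 * ‖v‖ ^ 2 / 2)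

/-- invariance under translations in the direction `h` -/
def InvD (h : HH) (f : Om → ℝ≥0∞) : Prop := ∀ (s : ℝ) (ω : Om), f (ω + s • dv h) = f ω

/-- surface integral of `G` over the hyperplane `ω e + c = 0`, computed in the direction `w`
with the window `(lo, hi]` -/
def surf (e w : HH) (c lo hi : ℝ) (G : Om → ℝ≥0∞) : ℝ≥0∞ :=
  ∫⁻ ω, G (ω - ((ω e + c) / ⟪w, e⟫) • dv w) *
    (ind ((ω e + c) / ⟪w, e⟫ ∈ Ioc lo hi) *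
      ENNReal.ofReal (Real.exp ((ω e + c) / ⟪w, e⟫ * ω w - ((ω e + c) / ⟪w, e⟫) ^ 2 * ‖w‖ ^ 2 / 2)
        / ((hi - lo) * ⟪w, e⟫))) ∂gm

def zs (y : Dy → ℝ) : ℝ := (⨆ S, ‖y S‖ₑ).toReal

def ChainH (q : Dy → HH) (ε : ℝ) : Prop :=
  ‖q []‖ ≤ ε ∧ ∀ d S, ‖q (d :: S) - q S‖ ≤ ε * Real.sqrt (side S)

def IsWk (b : ℕ → HH) (s : ℝ) : Prop := Gram b fun i j => s + (min i j : ℕ) * l2

def wk (a : ℝ) (b : ℕ → HH) (u : ℝ) (ω : Om) (i : ℕ) : ℝ := ω (b i) + u - a * i * l2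

theorem meas_ev (v : HH) : Measurable fun ω : Om => ω v :=
  (measurable_pi_apply v).comp (comap_measurable fun (ω : Om) (v : HH) => ω v)

theorem meas_Om {α : Type*} [MeasurableSpace α] {f : α → Om} :
    Measurable f ↔ ∀ v, Measurable fun a => f a v := by
  constructor
  · intro h v; exact (meas_ev v).comp h
  · intro h
    rw [measurable_comap_iff]
    exact measurable_pi_lambda _ h

@[simp] theorem dv_apply (h v : HH) : dv h v = ⟪h, v⟫ := rfl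

theorem meas_shift {α : Type*} [MeasurableSpace α] {f : α → Om} {s : α → ℝ} (h : HH)
    (hf : Measurable f) (hs : Measurable s) : Measurable fun a => f a + s a • dv h := by
  rw [meas_Om]; intro v
  simp only [LinearMap.add_apply, LinearMap.smul_apply, smul_eq_mul]
  exact (meas_Om.1 hf v).add (hs.mul_const _)

/-! ### Potential theory -/

open scoped Classical in
def gr (f : ℂ → ℝ) : HH :=
  if h : MemLp (fun x => (Real.sqrt (2 * Real.pi))⁻¹ • gradient f x) 2 (volume : Measure ℂ)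
  then h.toLp _ else 0

def LipC (f : ℂ → ℝ) : Prop := (∃ K, LipschitzWith K f) ∧ HasCompactSupport f

def LipE (f : ℂ → ℝ) : Prop :=
  (∃ K, LipschitzWith K f) ∧ MemLp (fun x => gradient f x) 2 (volume : Measure ℂ)

/-- finite logarithmic energy, bounded support, no atoms -/
structure FE (μ : Measure ℂ) : Prop where
  fin : IsFiniteMeasure μ
  bdd : ∃ r : ℝ, μ (Metric.closedBall 0 r)ᶜ = 0
  noAtoms : ∀ x, μ {x} = 0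
  energy : Integrable (fun p : ℂ × ℂ => Real.log ‖p.1 - p.2‖) (μ.prod μ)

def PFE (μ : Measure ℂ) : Prop := FE μ ∧ IsProbabilityMeasure μ

def Ie (μ ν : Measure ℂ) : ℝ := ∫ p : ℂ × ℂ, -Real.log ‖p.1 - p.2‖ ∂(μ.prod ν)

structure Model where
  O : Set ℂ
  hO : IsOpen O
  C0 : ℝ
  bg : ℂ → ℝ
  bgc : Continuous bg
  bg0 : ∀ x ∈ O, bg x = 0
  e : Measure ℂ → HH
  ee : ∀ μ ν, FE μ → FE ν → ⟪e μ, e ν⟫ = C0 * μ.real univ * ν.real univ + Ie μ ν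
    - μ.real univ * ∫ x, bg x ∂ν - ν.real univ * ∫ x, bg x ∂μ
  eg : ∀ μ φ, FE μ → LipC φ → tsupport φ ⊆ O → ⟪e μ, gr φ⟫ = ∫ x, φ x ∂μ
  ezc : ∀ μ ν, FE μ → FE ν → μ univ = ν univ → e μ - e ν ∈ closure (gr '' {φ | LipC φ})
  ezg : ∀ μ ν φ, FE μ → FE ν → μ univ = ν univ → LipC φ →
    ⟪e μ - e ν, gr φ⟫ = ∫ x, φ x ∂μ - ∫ x, φ x ∂ν

def unif (S : Dy) : Measure ℂ := ENNReal.ofReal (1 / side S ^ 2) • volume.restrict (box S)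

def circ (c : ℂ) (r : ℝ) : Measure ℂ :=
  (ENNReal.ofReal (2 * Real.pi))⁻¹ • (volume.restrict (Ioc 0 (2 * Real.pi))).map (circleMap c r)

def disc (c : ℂ) (r : ℝ) : Measure ℂ :=
  (ENNReal.ofReal (Real.pi * r ^ 2))⁻¹ • volume.restrict (Metric.closedBall c r)

def ctr (S : Dy) : ℂ := corner S + (side S / 2 : ℝ) * (1 + Complex.I)

/-- the point of `box S` with relative position `z` -/
def zS (S : Dy) (z : ℂ) : ℂ := corner S + (side S : ℂ) * z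

def kS (S S' : Dy) : ℝ := Ie (unif S) (unif S')
def covE (C : ℝ) (S S' : Dy) : ℝ := C + kS S S'
def potS (S : Dy) (z : ℂ) : ℝ := ∫ y, -Real.log ‖z - y‖ ∂unif S

/-- exactly scaling log-correlated law -/
def ex (C : ℝ) : Measure (Dy → ℝ) := gl (covE C)

/-- size of a logarithmic insertion at `z`, at scale `r`, seen by the square `A` -/
def ins (r : ℝ) (z : ℂ) (A : Dy) : ℝ := Real.posLog (r / max ‖z - ctr A‖ (side A))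

def Model.eS (M : Model) (S : Dy) : HH := M.e (unif S)
def Model.eC (M : Model) (c : ℂ) (r : ℝ) : HH := M.e (circ c r)

/-- radial bump function in the square `S` -/
def bumpF (S : Dy) (x : ℂ) : ℝ :=
  (∫ y, -Real.log ‖x - y‖ ∂disc (ctr S) (side S / 8)) -
    ∫ y, -Real.log ‖x - y‖ ∂disc (ctr S) (side S / 4)

def bb : ℝ := ∫ x, bumpF [] x ∂unif []
def Model.ub (M : Model) (S : Dy) : HH :=
  M.e (disc (ctr S) (side S / 8)) - M.e (disc (ctr S) (side S / 4))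

def Model.Yv (M : Model) (z : ℂ) (d : ℝ) : HH :=
  (4 / 3 : ℝ) • M.e (disc z (d / 2)) - (1 / 3 : ℝ) • M.e (disc z d)

def IsPsi (M : Model) (φ : ℂ → ℝ) : Prop :=
  LipC φ ∧ tsupport φ ⊆ M.O ∧ (∀ᶠ z in 𝓝ˢ (box []), φ z = 1) ∧ ∀ z, 0 ≤ φ z ∧ φ z ≤ 1

def Model.Ok (M : Model) (i0 : ℕ) : Prop :=
  (∀ z ∈ box [], Metric.closedBall z ((1 / 2 : ℝ) ^ i0) ⊆ M.O) ∧ 1 ≤ M.C0 + i0 * l2

/-- balayage of `μ` onto the circle of centre `c` and radius `r` -/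
def bal (c : ℂ) (r : ℝ) (μ : Measure ℂ) : Measure ℂ :=
  (μ.prod (circ 0 1)).map fun p : ℂ × ℂ =>
    c + r * ((p.2 + (p.1 - c) / r) / (1 + (starRingEnd ℂ) ((p.1 - c) / r) * p.2))

/-- Green function of the disc (extended by zero when one point is outside) -/
def Gk (c : ℂ) (r : ℝ) (x y : ℂ) : ℝ :=
  Real.log (max ‖x - y‖ ‖(r : ℂ) - (x - c) * (starRingEnd ℂ) (y - c) / r‖) - Real.log ‖x - y‖

def Model.gv (M : Model) (c : ℂ) (r : ℝ) (μ : Measure ℂ) : HH := M.e μ - M.e (bal c r μ)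
def Model.qv (M : Model) (c : ℂ) (r : ℝ) (μ : Measure ℂ) : HH := M.e (bal c r μ) - M.eC c r

def cov0 (r : ℝ) (S S' : Dy) : ℝ :=
  ∫ p : ℂ × ℂ, Gk (ctr []) r p.1 p.2 ∂((unif S).prod (unif S'))

def Met.C0 (g : Met) : ℝ := (∫ y, g.σ y / 2 * g.kap y) + ∫ y, Real.log ‖y‖ * g.kap y

structure Lnk (g : Met) (M : Model) : Prop where
  sub : box [] ⊆ M.O
  cov : ∀ S S', g.cov S S' = covE M.C0 S S'
  U : ∀ S z, g.U S z = M.C0 + potS S z - M.bg z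
  bg : ∀ z, M.bg z = g.σ z / 2
  grow : ∃ C, ∀ z, |g.σ z + 2 * Real.log (1 + ‖z‖)| ≤ C

/-! ### Configurations and trees -/

def drift (Q : ℝ) (x : Dy → ℝ) (u : ℝ) : Dy → ℝ := fun S => x S + u - Q * S.length * l2
def sub (x : Dy → ℝ) (A : Dy) : Dy → ℝ := fun S => x (S ++ A)
def sh (x : Dy → ℝ) (s : ℝ) : Dy → ℝ := fun S => x S + s
def anc (l : ℕ) (A : Dy) : Dy := A.drop (A.length - l)
def sib : Dy → Dy
  | [] => []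
  | d :: S => (d.1 + 1, d.2) :: S

/-- integer coordinates of a dyadic square -/
def gi : Dy → ℤ × ℤ
  | [] => (0, 0)
  | d :: S => (2 * (gi S).1 + (d.1 : ℕ), 2 * (gi S).2 + (d.2 : ℕ))

def Model.X (M : Model) (γ u : ℝ) (ω : Om) : Dy → ℝ := drift (QQ γ) (fun S => ω (M.eS S)) u
def Model.Y (M : Model) (γ u : ℝ) (c : ℂ) (r : ℝ) (ω : Om) : ℝ :=
  ω (M.eC c r) + u + QQ γ * Real.log r
/-- circle average around the square `V` at radius `4 |V|` -/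
def Model.YV (M : Model) (γ u : ℝ) (V : Dy) (ω : Om) : ℝ := M.Y γ u (ctr V) (4 * side V) ω

def IntN (x : Dy → ℝ) (A : Dy) : Prop := ∀ B, B <:+ A → 0 < x B
def Leaf (x : Dy → ℝ) (S : Dy) : Prop := x S ≤ 0 ∧ ∀ B, B <:+ S → B ≠ S → 0 < x B
/-- number of internal nodes -/
def nB (x : Dy → ℝ) : ℝ≥0∞ := ∑' A : Dy, ind (IntN x A)

open scoped Classical in
def tr (x : Dy → ℝ) : Finset Dy :=
  if h : {A | IntN x A}.Finite then h.toFinset else ∅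

def nN (x : Dy → ℝ) : ℝ := (tr x).card

def lev : ℕ → Finset Dy
  | 0 => {[]}
  | k + 1 => (lev k).biUnion fun S => Finset.univ.image fun d => d :: S

def IsTr (T : Finset Dy) : Prop := ∀ A ∈ T, ∀ B, B <:+ A → B ∈ T
def HasTr (x : Dy → ℝ) (T : Finset Dy) : Prop := ∀ A, A ∈ T ↔ IntN x A

def lvs (T : Finset Dy) : Finset Dy :=
  if T = ∅ then {[]} else (T.biUnion fun S => Finset.univ.image fun d => d :: S) \ T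

open scoped Classical in
def trees (n : ℕ) : Finset (Finset Dy) :=
  ((Finset.range n).biUnion lev).powerset.filter fun T => IsTr T ∧ T.card = n

open scoped Classical in
def two (T : Finset Dy) : Finset Dy :=
  T.filter fun P => ∃ d d' : Fin 2 × Fin 2, d ≠ d' ∧ d :: P ∉ T ∧ d' :: P ∉ T

def pr (T : Finset Dy) (P : Dy) : (Fin 2 × Fin 2) × (Fin 2 × Fin 2) :=
  Classical.epsilon fun dd => dd.1 ≠ dd.2 ∧ dd.1 :: P ∉ T ∧ dd.2 :: P ∉ T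

def Model.vp (M : Model) (T : Finset Dy) (P : Dy) : HH :=
  M.ub ((pr T P).1 :: P) - M.ub ((pr T P).2 :: P)

def Model.vs (M : Model) (S : Dy) : HH := M.ub S - M.ub (sib S)

open scoped Classical in
/-- sum of `F` over the internal nodes inside `R` -/
def SR (F : (Dy → ℝ) → ℝ) (x : Dy → ℝ) (R : Dy) : ℝ :=
  ∑ A ∈ (tr x).filter fun A => R <:+ A, F (sub x A)

def one : (Dy → ℝ) → ℝ := fun _ => 1

open scoped Classical in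
def ann (R : Dy) (l : ℕ) : Finset Dy :=
  (lev l).filter fun V => ∀ y ∈ box V,
    4 * (1 / 2 : ℝ) ^ l ≤ ‖y - ctr R‖ ∧ ‖y - ctr R‖ ≤ 32 * (1 / 2 : ℝ) ^ l

def annN (x : Dy → ℝ) (R : Dy) (l : ℕ) : ℝ≥0∞ := ∑ V ∈ ann R l, nB (sub x V)

def far (x : Dy → ℝ) (R : Dy) : ℝ≥0∞ := ∑ l ∈ Finset.range (R.length + 1), annN x R l

open scoped Classical in
def near (x : Dy → ℝ) (R : Dy) : ℝ≥0∞ :=
  ∑ V ∈ (lev R.length).filter fun V => ‖ctr V - ctr R‖ ≤ 9 * side R, nB (sub x V)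

open scoped Classical in
def nbr (V : Dy) : Finset Dy := (lev V.length).filter fun U => ‖ctr U - ctr V‖ ≤ 3 / 2 * side V

def Mono (F : (Dy → ℝ) → ℝ) : Prop :=
  Measurable F ∧ (∀ x, 0 ≤ F x ∧ F x ≤ 1) ∧ ∀ x y, (∀ S, x S ≤ y S) → F x ≤ F y

/-! ### Palm measure and law of large numbers -/

def palm (γ : ℝ) (G : (Dy → ℝ) → ℝ≥0∞) : ℝ≥0∞ :=
  ENNReal.ofReal (aa γ * l2)⁻¹ * ∫⁻ y : ℝ, eE (-γ * y) * ∫⁻ x, G (drift (QQ γ) x y) ∂ex 0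

def cc (γ : ℝ) (F : (Dy → ℝ) → ℝ) : ℝ :=
  (⨅ J : ℕ, palm γ fun y => ∑ B ∈ lev J, ind (IntN y B) * ENNReal.ofReal (F (sub y B))).toReal

def BddM (F : (Dy → ℝ) → ℝ) : Prop := Measurable F ∧ ∃ B, ∀ x, 0 ≤ F x ∧ F x ≤ B

/-- functionals admissible for the law of large numbers at the local limit level -/
def Adm (γ : ℝ) (F : (Dy → ℝ) → ℝ) : Prop :=
  BddM F ∧ (∃ D : ℕ, ∀ x y, (∀ S : Dy, S.length ≤ D → x S = y S) → F x = F y) ∧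
    ∀ᵐ y : ℝ, ∀ᵐ x ∂ex 0, ContinuousAt F (drift (QQ γ) x y)

/-- discretised chaos measure of the square `T` (mean one) -/
def Model.Wn (M : Model) (γ : ℝ) (T : Dy) (L l : ℕ) (ω : Om) : ℝ :=
  ∑ T' ∈ lev l, (1 / 4 : ℝ) ^ l * Wk γ (M.eC (ctr (T' ++ T)) (2 ^ L * side (T' ++ T))) ω

/-- a spread out family of mollifiers inside the square `T` at relative level `l'` -/
structure Spread {I : Type} [Fintype I] (T : Dy) (Λ : ℝ) (l' : ℕ) (a : I → ℝ) (τ : I → Dy)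
    (ν : I → Measure ℂ) : Prop where
  nonneg : ∀ i, 0 ≤ a i
  len : ∀ i, (τ i).length = l'
  pfe : ∀ i, PFE (ν i)
  supp : ∀ i, ν i (Metric.closedBall (ctr (τ i ++ T)) (2 * side (τ i ++ T)))ᶜ = 0
  energy : ∀ i, Ie (ν i) (ν i) ≤ -Real.log (side (τ i ++ T)) + Λ
  spread : ∀ S : Dy, ∑ i ∈ Finset.univ.filter (fun i => τ i = S), a i ≤ Λ * (1 / 4 : ℝ) ^ l'

def vt (t : ℝ) : ℝ := min 1 (max 0 (-2 * t - 1))

/-- leaf children near the threshold with robustly closed children and sibling -/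
def Fm (lam : ℝ) (y : Dy → ℝ) : ℝ :=
  lam⁻¹ * ∑ d : Fin 2 × Fin 2, indR (y [d] ∈ Ioc (-lam) 0) * vt (y (sib [d])) *
    ∏ c : Fin 2 × Fin 2, vt (y [c, d])

/-! ### Rooted upper bounds -/

/-- admissible root weights -/
structure RootW (M : Model) (γ κ r0 : ℝ) (i0 : ℕ) (v : ℝ) (Γ : Dy → ℝ × Om → ℝ≥0∞) : Prop where
  meas : ∀ R, Measurable (Γ R)
  inv : ∀ R y (i : ℕ), i0 ≤ i → i + 2 ≤ R.length →
    InvD (M.eC (ctr R) ((1 / 2 : ℝ) ^ i)) fun ω => Γ R (y, ω)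
  bd : ∀ R y, ∫⁻ ω, Γ R (y, ω) ^ r0 ∂gm ≤ ENNReal.ofReal (v * Real.exp (γ * y - κ * |y|)) ^ r0

/-- rooted sum -/
def Model.RS (M : Model) (γ u : ℝ) (i0 : ℕ) (Γ : Dy → ℝ × Om → ℝ≥0∞) (E : Dy → Om → ℝ≥0∞) :
    ℝ≥0∞ :=
  ∑' R : Dy, ind (i0 + 4 ≤ R.length) * ∫⁻ ω, Γ R (M.YV γ u R ω, ω) * E R ω ∂gm

def Model.rad (M : Model) (γ u : ℝ) (R : Dy) (i : ℕ) (ω : Om) : ℝ :=
  M.Y γ u (ctr R) ((1 / 2 : ℝ) ^ i) ω

def Model.low (M : Model) (γ u : ℝ) (i0 : ℕ) (t : ℝ) (R : Dy) (ω : Om) : ℝ≥0∞ :=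
  ∑ l ∈ Finset.Icc (i0 + 5) R.length, ind (M.rad γ u R (l - 5) ω ≤ t) * annN (M.X γ u ω) R l

open scoped Classical in
def cnt (x : Dy → ℝ) (R : Dy) (j : ℕ) : ℝ :=
  ((tr x).filter fun A => (1 / 2 : ℝ) ^ j ≤ ‖ctr A - ctr R‖ ∧
    ‖ctr A - ctr R‖ ≤ 4 * (1 / 2 : ℝ) ^ j).card

open scoped Classical in
def outN (x : Dy → ℝ) (R : Dy) (j K : ℕ) : ℝ :=
  ((tr x).filter fun A => ¬((1 / 2 : ℝ) ^ (j + K) ≤ ‖ctr A - ctr R‖ ∧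
    ‖ctr A - ctr R‖ ≤ 2 ^ K * (1 / 2 : ℝ) ^ j)).card

def Loc (K1 : ℕ) (V : Dy) : Prop :=
  Metric.closedBall (ctr V) (4 * side V) ⊆ interior (box (anc K1 V))

def Marg (x : Dy → ℝ) (K1 : ℕ) (μ0 : ℝ) (V : Dy) : Prop :=
  ∀ B : Dy, K1 < B.length → B.length ≤ V.length → ‖ctr B - ctr V‖ ≤ 6 * side B → μ0 < x B

def Model.Reg (M : Model) (γ u n δ : ℝ) (K : ℕ) (K' : ℝ) (K1 : ℕ) (μ0 : ℝ) (R : Dy) (j : ℕ)
    (ω : Om) : Prop :=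
  K + 1 ≤ j ∧ j ≤ R.length + K + 1 ∧ (j : ℝ) ≤ δ * n ∧ outN (M.X γ u ω) R j K ≤ δ * n ∧
    |M.YV γ u (anc (j - K - 1) R) ω - Real.log n / γ| ≤ K' ∧
    Marg (M.X γ u ω) K1 μ0 (anc (j - K - 1) R) ∧ Loc K1 (anc (j - K - 1) R)

open scoped Classical in
/-- the macroscopic structure event -/
def Str (γ : ℝ) (F : (Dy → ℝ) → ℝ) (n η : ℝ) (K1 : ℕ) (x : Dy → ℝ) : Prop :=
  ∃ (C : Finset Dy) (k : ℕ) (w : Dy → ℝ) (A0 : Dy), A0.length = K1 ∧ K1 < k ∧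
    (∀ T ∈ C, T.length = k ∧ A0 <:+ T ∧ 0 ≤ w T) ∧
    (∀ T ∈ C, ∀ B, B <:+ T → B ≠ T → K1 < B.length → 1 < x B) ∧
    nB (sh x 1) ≠ ∞ ∧
    (((tr (sh x 1)).filter fun A => ∀ T ∈ C, ¬T <:+ A).card : ℝ) ≤ η * n ∧
    (∀ T ∈ C, nB (sub (sh x 1) T) ≤ ENNReal.ofReal (η * n)) ∧
    ∀ s ∈ Icc (-1 : ℝ) 1,
      ∑ T ∈ C, |SR F (sub (sh x s) T) [] - cc γ F * Real.exp (γ * s) * w T| ≤ η * n ∧
      ∑ T ∈ C, |nN (sub (sh x s) T) - cc γ one * Real.exp (γ * s) * w T| ≤ η * n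

/-! ### Flux -/

def Cls (Λ : ℝ) (Φ : Finset Dy → ℝ) : Prop :=
  (∀ T, 0 ≤ Φ T ∧ Φ T ≤ 1) ∧ ∀ T T', IsTr T → IsTr T' → T ⊆ T' →
    |Φ T - Φ T'| ≤ Λ * ((T'.card : ℝ) - T.card) / T'.card

def Model.aL (M : Model) (γ : ℝ) (Φ : Finset Dy → ℝ) (n : ℕ) : ℝ :=
  (n : ℝ) ^ (th γ + 2) * ∫ ω, indR (nB (M.X γ 0 ω) = n) * Φ (tr (M.X γ 0 ω)) ∂gm

def Model.win (M : Model) (γ : ℝ) (Φ : Finset Dy → ℝ) (ε : ℝ) (n : ℕ) : ℝ :=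
  (n : ℝ) ^ (th γ + 1) / ε * ∫ ω, indR ((n : ℝ≥0∞) < nB (M.X γ 0 ω) ∧
    nB (M.X γ 0 ω) ≤ ENNReal.ofReal (Real.exp (γ * ε) * n)) * Φ (tr (M.X γ 0 ω)) ∂gm

def xi (x : Dy → ℝ) (S : Dy) : ℝ≥0∞ := 1 + ∑ d : Fin 2 × Fin 2, nB (sub x (d :: S))

def Cross (n : ℕ) (S : Dy) (x : Dy → ℝ) : Prop :=
  Leaf x S ∧ nB x ≤ n ∧ (n : ℝ≥0∞) < nB x + xi x S ∧ (n : ℝ≥0∞) ≤ 2 * nB x

/-- surface integral over the threshold hyperplane of the square `S` -/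
def Model.sf (M : Model) (γ : ℝ) (S : Dy) (G : Om → ℝ≥0∞) : ℝ≥0∞ :=
  surf (M.eS S) (M.eS S) (-(QQ γ * S.length * l2)) 0 1 G

def Model.fl (M : Model) (γ : ℝ) (Φ : Finset Dy → ℝ) (n : ℕ) : ℝ≥0∞ :=
  ∑' S : Dy, M.sf γ S fun ω => ind (Cross n S (M.X γ 0 ω)) * ENNReal.ofReal (Φ (tr (M.X γ 0 ω)))

def Model.flR (M : Model) (γ : ℝ) (Φ : Finset Dy → ℝ) (n : ℕ) : ℝ :=
  (n : ℝ) ^ (th γ + 1) * (M.fl γ Φ n).toReal

/-! ### Test functions and macroscopic functionals -/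

def hat0 (w : Cyl) : ℝ := max 0 (1 - |w.1 / l2 + 1|)
def f0 (K : ℕ) (w : Cyl) : ℝ := max 0 (min 1 (K + 1 - |w.1| / l2))

structure IsTF (tf : ℕ → C_c(Cyl, ℝ)) : Prop where
  zero : ∀ w, tf 0 w = hat0 w
  bd : ∀ k w, |tf k w| ≤ 1
  det : ∀ (m : Measure Cyl) (ms : ℕ → Measure Cyl), IsProbabilityMeasure m →
    (∀ n, ms n univ ≤ 1) →
    (∀ k, Tendsto (fun n => ∫ w, tf k w ∂ms n) atTop (𝓝 (∫ w, tf k w ∂m))) →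
    ∀ f : Cyl →ᵇ ℝ, Tendsto (fun n => ∫ w, f w ∂ms n) atTop (𝓝 (∫ w, f w ∂m))

def dS (s s' : ℕ → ℝ) : ℝ := ∑' k, (1 / 2 : ℝ) ^ k * min 1 |s k - s' k|

def LipG (Λ : ℝ) (G : (ℕ → ℝ) → ℝ) : Prop :=
  (∀ s, 0 ≤ G s ∧ G s ≤ 1) ∧ ∀ s s', |G s - G s'| ≤ Λ * dS s s'

def sR (tf : ℕ → C_c(Cyl, ℝ)) (T : Finset Dy) (R : Dy) (j : ℕ) (k : ℕ) : ℝ :=
  (T.card : ℝ)⁻¹ * ∑ A ∈ T.erase R, tf k (toCyl (2 ^ j * (ctr A - ctr R)))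

def PhiG (tf : ℕ → C_c(Cyl, ℝ)) (G : (ℕ → ℝ) → ℝ) (T : Finset Dy) : ℝ :=
  (T.card : ℝ)⁻¹ * ∑ R ∈ T, ∑' j : ℕ, sR tf T R j 0 * G (sR tf T R j)

def Chi (χ : ℝ → ℝ) : Prop :=
  (∃ K, LipschitzWith K χ) ∧ (∀ t, 0 ≤ χ t ∧ χ t ≤ 1) ∧ ∃ β, ∀ t, χ t ≠ 0 → 3 / 4 ≤ t ∧ t ≤ β

def wn (γ : ℝ) (χ : ℝ → ℝ) : ℝ := ∫ t in Ioi (0 : ℝ), χ t * t ^ (-th γ - 2)

def Model.An (M : Model) (γ : ℝ) (tf : ℕ → C_c(Cyl, ℝ)) (G : (ℕ → ℝ) → ℝ) (χ : ℝ → ℝ)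
    (s n : ℝ) : ℝ :=
  n ^ (th γ + 1) * ∫ ω, χ (nN (M.X γ 0 ω) / n) * PhiG tf G (tr (M.X γ 0 ω)) *
    indR (ENNReal.ofReal (n / 2) ≤ nB (sh (M.X γ 0 ω) (-s))) ∂gm

def Th (G : (ℕ → ℝ) → ℝ) (χ : ℝ → ℝ) (k0 : ℕ) (τ : ℝ) (s : ℕ → ℝ) : ℝ :=
  χ τ / τ * (s 0 / τ) * G fun k => if k ≤ k0 then s k / τ else 0

def Early (x : Dy → ℝ) (s : ℝ) (K1 : ℕ) (V : Dy) : Prop := ∀ l ≤ K1, s < x (anc l V)

def locS (x : Dy → ℝ) (V R : Dy) (K : ℕ) (f : Cyl → ℝ) : ℝ :=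
  ∑ U ∈ nbr V, ∑ A ∈ tr (sub x U),
    if A ++ U = R then 0 else f (toCyl (2 ^ (V.length + K + 1) * (ctr (A ++ U) - ctr R)))

def Model.Idl (M : Model) (γ : ℝ) (tf : ℕ → C_c(Cyl, ℝ)) (G : (ℕ → ℝ) → ℝ) (χ : ℝ → ℝ) (s : ℝ)
    (k0 K : ℕ) (K' : ℝ) (K1 : ℕ) (n : ℝ) : ℝ :=
  n ^ th γ * (∑' V : Dy, ind (Loc K1 V) * ∫⁻ ω,
    ind (Early (M.X γ 0 ω) s K1 V ∧ |M.YV γ 0 V ω - Real.log n / γ| ≤ K') *
      ENNReal.ofReal (∑ R ∈ tr (sub (M.X γ 0 ω) V),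
        Th G χ k0 (locS (M.X γ 0 ω) V (R ++ V) K (f0 K) / n)
          fun k => locS (M.X γ 0 ω) V (R ++ V) K (tf k) / n) ∂gm).toReal

def grid (l : ℕ) : Finset (ℤ × ℤ) :=
  Finset.Ico (-2 ^ l) (2 ^ (l + 1)) ×ˢ Finset.Ico (-2 ^ l) (2 ^ (l + 1))
def gin (l : ℕ) : Finset (ℤ × ℤ) := Finset.Ico 0 (2 ^ l) ×ˢ Finset.Ico 0 (2 ^ l)
def zc (i : ℤ × ℤ) : ℂ := (i.1 : ℂ) + (i.2 : ℂ) * Complex.I

def Model.bV (M : Model) (V : Dy) (L l : ℕ) (i : ℤ × ℤ) : HH :=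
  M.eC (zS V (((1 / 2 : ℝ) ^ l : ℝ) * (zc i + (1 + Complex.I) / 2)))
      (2 ^ L * (1 / 2 : ℝ) ^ l * side V) - M.eC (ctr V) (4 * side V)

def wt (γ c : ℝ) (L l : ℕ) (y ξ : ℝ) : ℝ :=
  c * (4 : ℝ) ^ (-(γ * QQ γ)) * Real.exp (γ * y) * (1 / 4 : ℝ) ^ l *
    (2 ^ L * (1 / 2 : ℝ) ^ l) ^ (γ ^ 2 / 2) * Real.exp (γ * ξ)

def gsum (γ c : ℝ) (K L l : ℕ) (y : ℝ) (ξ : ℤ × ℤ → ℝ) (i : ℤ × ℤ) (f : Cyl → ℝ) : ℝ :=
  ∑ i' ∈ (grid l).erase i, wt γ c L l y (ξ i') *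
    f (toCyl (((2 ^ (K + 1) * (1 / 2 : ℝ) ^ l : ℝ) : ℂ) * (zc i' - zc i)))

def Psi (γ c : ℝ) (tf : ℕ → C_c(Cyl, ℝ)) (G : (ℕ → ℝ) → ℝ) (χ : ℝ → ℝ) (k0 K L l : ℕ) (y : ℝ)
    (ξ : ℤ × ℤ → ℝ) : ℝ :=
  ∑ i ∈ gin l, wt γ c L l y (ξ i) *
    Th G χ k0 (gsum γ c K L l y ξ i (f0 K)) fun k => gsum γ c K L l y ξ i (tf k)

/-- unrooted sum with a general local weight `Ψ V` -/
def Model.Jg (M : Model) (γ s : ℝ) (K' : ℝ) (K1 : ℕ) (Ψ : Dy → ℝ → Om → ℝ≥0∞) (n : ℝ) : ℝ :=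
  n ^ (th γ + 1) * (∑' V : Dy, ind (Loc K1 V) * ∫⁻ ω,
    ind (Early (M.X γ 0 ω) s K1 V ∧ |M.YV γ 0 V ω - Real.log n / γ| ≤ K') *
      Ψ V (M.YV γ 0 V ω - Real.log n / γ) ω ∂gm).toReal

def Model.Jdl (M : Model) (γ : ℝ) (tf : ℕ → C_c(Cyl, ℝ)) (G : (ℕ → ℝ) → ℝ) (χ : ℝ → ℝ) (s : ℝ)
    (k0 K : ℕ) (K' : ℝ) (K1 L l : ℕ) (n : ℝ) : ℝ :=
  M.Jg γ s K' K1 (fun V y ω => ENNReal.ofReal
    (Psi γ (cc γ one) tf G χ k0 K L l y fun i => ω (M.bV V L l i))) n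

def Model.Lpar (M : Model) (γ c : ℝ) (tf : ℕ → C_c(Cyl, ℝ)) (G : (ℕ → ℝ) → ℝ) (χ : ℝ → ℝ)
    (k0 K : ℕ) (K' : ℝ) (L l : ℕ) : ℝ :=
  ∫ y in Icc (-K') K', Real.exp (-(4 / γ) * y) *
    ∫ ω, Psi γ c tf G χ k0 K L l y (fun i => ω (M.bV [] L l i)) ∂gm

/-- lattice chaos measure around the origin (mesh `2^(-l)`), tested against `g` -/
def Model.Wlat (M : Model) (γ : ℝ) (L l : ℕ) (g : Cyl → ℝ) (ω : Om) : ℝ :=
  ∑' i : ℤ × ℤ, if i = 0 then 0 else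
    (1 / 4 : ℝ) ^ l * (2 ^ L * (1 / 2 : ℝ) ^ l) ^ (γ ^ 2 / 2) *
      g (toCyl ((((1 / 2 : ℝ) ^ l : ℝ) : ℂ) * zc i)) *
      Real.exp (γ * ω (M.eC ((((1 / 2 : ℝ) ^ l : ℝ) : ℂ) * zc i) (2 ^ L * (1 / 2 : ℝ) ^ l)
        - M.eC 0 1))

def hw (γ : ℝ) (w : Cyl) : ℝ := Real.exp (γ ^ 2 * w.1 - 2 * aa γ * γ * max (-w.1) 0)

def Model.Elat (M : Model) (γ c : ℝ) (tf : ℕ → C_c(Cyl, ℝ)) (G : (ℕ → ℝ) → ℝ) (χ : ℝ → ℝ)
    (k0 K : ℕ) (K' : ℝ) (L l : ℕ) : ℝ :=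
  ∫ y in Icc (-K') K', Real.exp (-(2 * aa γ) * y) *
    ∫ ω, Th G χ k0 (c * Real.exp (γ * y) * M.Wlat γ L l (fun w => f0 K w * hw γ w) ω)
      (fun k => c * Real.exp (γ * y) * M.Wlat γ L l (fun w => tf k w * hw γ w) ω) ∂gm

/-! ### The quantum sphere side -/

abbrev PP := (ℝ≥0 → ℝ) × (ℝ≥0 → ℝ)

/-- bundled quantum sphere data -/
structure QD (γ : ℝ) where
  θ : Measure ℂ
  hθ : IsMoll θ
  Ω : Type
  [mΩ : MeasurableSpace Ω]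
  P : Measure Ω
  B₁ : ℝ≥0 → Ω → ℝ
  B₂ : ℝ≥0 → Ω → ℝ
  L : Cyl × ℕ → Ω → ℝ
  μ : Ω → Measure Cyl
  hq : QS γ θ P B₁ B₂ L μ

attribute [instance] QD.mΩ

/-- a pair of independent Brownian motions with continuous paths -/
structure BP {Ω : Type} [MeasurableSpace Ω] (P : Measure Ω) (β : Ω → PP) : Prop where
  bm₁ : IsBrownianReal (fun t ω => (β ω).1 t) P
  bm₂ : IsBrownianReal (fun t ω => (β ω).2 t) P
  meas : Measurable β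
  cont₁ : ∀ ω, Continuous (β ω).1
  cont₂ : ∀ ω, Continuous (β ω).2
  ind : IndepFun (fun ω => (β ω).1) (fun ω => (β ω).2) P

def QD.β {γ : ℝ} (D : QD γ) (ω : D.Ω) : PP := (fun t => D.B₁ t ω, fun t => D.B₂ t ω)

def twoS (p : PP) (t : ℝ) : ℝ := if 0 ≤ t then p.1 t.toNNReal else p.2 (-t).toNNReal
def ydr (a : ℝ) (p : PP) (t : ℝ) : ℝ := twoS p t - a * |t|
def radP (a : ℝ) (p : PP) (t : ℝ) : ℝ := radial a p.1 p.2 t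

def wgt (γ : ℝ) (z : ℝ → ℝ) (m : Measure Cyl) : Measure Cyl :=
  m.withDensity fun w => eE (γ * z w.1)

/-- the lateral chaos measure -/
def QD.nu {γ : ℝ} (D : QD γ) (ω : D.Ω) : Measure Cyl :=
  wgt γ (fun t => -radP (aa γ) (D.β ω) t) (D.μ ω)

def QD.muZ {γ : ℝ} (D : QD γ) (Z : D.Ω → ℝ → ℝ) (ω : D.Ω) : Measure Cyl := wgt γ (Z ω) (D.nu ω)
def QD.mu0 {γ : ℝ} (D : QD γ) (ω : D.Ω) : Measure Cyl := wgt γ (ydr (aa γ) (D.β ω)) (D.nu ω)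

def trans (r : ℝ) (m : Measure Cyl) : Measure Cyl := m.map fun p => (p.1 - r, p.2)

def obs (g : ℕ → C_c(Cyl, ℝ)) (m : Measure Cyl) : ℝ≥0∞ × (ℕ → ℝ) :=
  (m univ, fun k => ∫ w, g k w ∂m)

def obsn (g : ℕ → C_c(Cyl, ℝ)) (m : Measure Cyl) (k : ℕ) : ℝ := (∫ w, g k w ∂m) / m.real univ

def QD.Lz {γ : ℝ} (D : QD γ) (tf : ℕ → C_c(Cyl, ℝ)) (G : (ℕ → ℝ) → ℝ) : ℝ :=
  ∫ ω, (D.mu0 ω).real univ ^ th γ * obsn tf (D.mu0 ω) 0 * G (obsn tf (D.mu0 ω)) ∂D.P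

def GoodM (m : Measure Cyl) : Prop :=
  m univ ≠ ∞ ∧ (∀ w, m {w} = 0) ∧ ∀ U : Set Cyl, IsOpen U → U.Nonempty → m U ≠ 0

def nrm (m : Measure Cyl) : Measure Cyl := (m univ)⁻¹ • m

def nuP (θ : Measure ℂ) (z : ℂ) (ρ : ℝ) (p : Cyl × ℕ) : Measure ℂ :=
  (moll θ p).map fun v => z + ρ * frC v

/-- first non-positive strict record of the drifted path on the grid `ε ℕ` -/
def recT (a : ℝ) (ε : ℝ≥0) (b : ℝ≥0 → ℝ) : ℕ :=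
  sInf {i : ℕ | b (i * ε) - a * (i * ε) ≤ 0 ∧
    ∀ j : ℕ, i < j → b (j * ε) - a * (j * ε) < b (i * ε) - a * (i * ε)}

def recB (a : ℝ) (ε : ℝ≥0) (b : ℝ≥0 → ℝ) (t : ℝ≥0) : ℝ :=
  b (recT a ε b * ε + t) - b (recT a ε b * ε)

def recY (a : ℝ) (ε : ℝ≥0) (p : PP) : ℝ → ℝ := ydr a (recB a ε p.1, recB a ε p.2)

def eps (M : ℕ) : ℝ≥0 := (l2 / (M + 1)).toNNReal

/-- planar observables -/
def obsP (tf : ℕ → C_c(Cyl, ℝ)) (ν : Measure ℂ) (c : ℂ) (ρ : ℝ) (k : ℕ) : ℝ :=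
  ∫ x in {c}ᶜ, tf k (toCyl (ρ * (x - c))) ∂ν

def PhiT {k : ℕ} (f : Fin k → C_c(Cyl, ℝ)) (G : (Fin k → ℝ) →ᵇ ℝ) (ν : Measure Cyl) : ℝ :=
  G fun i => ∫ w, f i w ∂ν

/-! ### Kriging -/

def Gi (τ : Finset Dy) : Matrix (lvs τ) (lvs τ) ℝ := (Matrix.of fun A B : lvs τ => kS A B)⁻¹

def nuL (τ : Finset Dy) (z : ℂ) : ℝ :=
  (1 - ∑ A : lvs τ, ∑ B : lvs τ, Gi τ A B * potS B z) / ∑ A : lvs τ, ∑ B : lvs τ, Gi τ A B

def lamL (τ : Finset Dy) (z : ℂ) (A : lvs τ) : ℝ := ∑ B : lvs τ, Gi τ A B * (potS B z + nuL τ z)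

def kloc (Q : ℝ) (τ : Finset Dy) (y : Dy → ℝ) (z : ℂ) : ℝ :=
  ∑ A : lvs τ, lamL τ z A * (y A + Q * (A : Dy).length * l2)

def Good (K D : ℕ) (τ : Finset Dy) (S : Dy) : Prop :=
  S ∈ lvs τ ∧ S.length = 3 * K ∧ (∀ A ∈ τ, A.length ≤ D) ∧
    Metric.closedBall (ctr S) (32 * (1 / 2 : ℝ) ^ K) ⊆ box [] ∧
    ∀ B : Dy, K ≤ B.length → B.length ≤ 2 * K → ‖ctr B - ctr S‖ ≤ 20 * side B → B ∈ τ

def sq (d0 : ℝ) : Set ℂ := {z | z.re ∈ Icc d0 (1 - d0) ∧ z.im ∈ Icc d0 (1 - d0)}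

def Fv (γ : ℝ) (K D : ℕ) (Mx d0 : ℝ) (y : Dy → ℝ) : ℝ :=
  ∑ S ∈ lev (3 * K), indR (Good K D (tr y) S) * ∫ z in sq d0,
    min Mx (Real.exp (bt γ * (kloc (QQ γ) (tr y) y (zS S z) - QQ γ * S.length * l2)))

def Bad (K D : ℕ) (y : Dy → ℝ) : ℝ := ∑ S ∈ lev (3 * K), indR (Leaf y S ∧ ¬Good K D (tr y) S)

def Model.kr (M : Model) (g : Met) (T : Finset Dy) (ω : Om) (z : ℂ) : ℝ :=
  g.krig (lvs T) (fun S => ω (M.eS S)) z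

def Model.volT (M : Model) (g : Met) (γ : ℝ) (ω : Om) : Measure ℂ :=
  volume.withDensity fun z => eE (bt γ * M.kr g (tr (M.X γ 0 ω)) ω z + 2 * g.σ z)

def NumB (γ B : ℝ) : Prop :=
  ∀ (Cg : ℕ) (Mx d0 : ℝ), 0 < Mx → 0 < d0 → ∀ η > 0, ∃ K0 : ℕ, ∀ K ≥ K0,
    cc γ (Fv γ K (Cg * K) Mx d0) ≤ B * cc γ one + η

/-- the volume is asymptotically `cV` times the number of internal nodes, in every square -/
def VolL (γ : ℝ) (g : Met) (M : Model) (cV : ℝ) : Prop :=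
  ∀ η > 0, ∀ᶠ n : ℕ in atTop, ENNReal.ofReal ((n : ℝ) ^ (th γ + 2)) *
    gm {ω | nB (M.X γ 0 ω) = n ∧ (ENNReal.ofReal (η * n) < M.volT g γ ω (box [])ᶜ ∨
      ∃ R, η * n < |(M.volT g γ ω).real (box R) - cV * SR one (M.X γ 0 ω) R|)} ≤ ENNReal.ofReal η

end

end Pool.Agent.Lib.APPS

theorem Pool.Agent.Lib.APPS.Core.rlz0 : True := by
  have := @Pool.Agent.Lib.APPS.lev.eq_def
  trivial
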