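import Pool.Agent.Lib.APPS.Blue1

/-!
Further internal definitions.
-/

namespace Pool.Agent.Lib.APPS

open MeasureTheory ProbabilityTheory Filter Topology Set Metric
open scoped NNReal ENNReal CompactlySupported BoundedContinuousFunction RealInnerProductSpace
  Classical

noncomputable section

/-- drifted configuration read off a family of vectors -/
def XV (γ : ℝ) (v : Dy → HH) (u : ℝ) (ω : Om) : Dy → ℝ := drift (QQ γ) (fun S => ω (v S)) u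

theorem XV_eS (M : Model) (γ u : ℝ) : XV γ M.eS u = M.X γ u := rfl

/-- the level `log n / γ` -/
def lvl (γ n : ℝ) : ℝ := Real.log n / γ

def DepLe (Θ : ℕ → (ℕ → ℝ) → ℝ≥0∞) : Prop :=
  (∀ k, Measurable (Θ k)) ∧ ∀ k w w', (∀ j ≤ k, w j = w' j) → Θ k w = Θ k w'

/-- the radial walk around the centre of `R`, started at index `i0` -/
def Model.rw (M : Model) (γ u : ℝ) (i0 : ℕ) (R : Dy) (ω : Om) (j : ℕ) : ℝ :=
  M.rad γ u R (i0 + j) ω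

def NN (x : Dy → ℝ) (R : Dy) : ℝ≥0∞ := near x R + 289 * (R.length + 1)

def fblk (x : Dy → ℝ) (R : Dy) (i0 : ℕ) : ℝ≥0∞ := ∑ l ∈ Finset.range (i0 + 5), annN x R l

/-- admissible deterministic shifts -/
def ShiftOK (c0 lam : ℝ) (z : Dy → ℂ) (f : Dy → Dy → ℝ) : Prop :=
  (∀ R, z R ∈ box R) ∧ ∀ R A, f R A ≤ c0 + lam * ins (side R) (z R) A

def addF (x f : Dy → ℝ) : Dy → ℝ := fun A => x A + f A

/-- number of squares below `V` with positive value -/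
def posN (x : Dy → ℝ) (V : Dy) : ℝ≥0∞ := ∑' S : Dy, ind (0 < x (S ++ V))

def Model.High (M : Model) (γ u : ℝ) (i0 : ℕ) (t : ℝ) (R : Dy) (j : ℕ) (ω : Om) : Prop :=
  ∃ h : ℕ, i0 ≤ h ∧ h + 5 ≤ R.length ∧ j ≤ h + 3 ∧ h + 1 ≤ j ∧ t < M.rad γ u R h ω

def clus (V : Dy) (l : ℕ) : Finset Dy :=
  (nbr V).biUnion fun U => (lev l).image fun T => T ++ U

/-- local structure around the square `V` -/
def LocGood (γ : ℝ) (F : (Dy → ℝ) → ℝ) (n η : ℝ) (l : ℕ) (V : Dy) (x : Dy → ℝ) : Prop :=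
  ∃ w : Dy → ℝ, (∀ T, 0 ≤ w T) ∧
    (∀ T ∈ clus V l, ∀ B, B <:+ T → B ≠ T → V.length ≤ B.length → 1 < x B) ∧
    (∀ T ∈ clus V l, nB (sub (sh x 1) T) ≤ ENNReal.ofReal (η * n)) ∧
    ∀ s ∈ Icc (-1 : ℝ) 1,
      ∑ T ∈ clus V l, |SR F (sub (sh x s) T) [] - cc γ F * Real.exp (γ * s) * w T| ≤ η * n ∧
      ∑ T ∈ clus V l, |nN (sub (sh x s) T) - cc γ one * Real.exp (γ * s) * w T| ≤ η * n

/-- uniform growth along global shifts -/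
def Gro (γ : ℝ) (K1 : ℕ) (n η : ℝ) (x : Dy → ℝ) : Prop :=
  nB (sh x 1) ≠ ∞ ∧ ∀ s ∈ Icc (-1 : ℝ) 1, ∀ s' ∈ Icc (-1 : ℝ) 1, s ≤ s' →
    (nN (sh x s) ≤ η * n ∧ ∃ B : Dy, B.length ≤ K1 ∧ x B + s ≤ 0 ∧ 0 < x B + s') ∨
      |nN (sh x s') - Real.exp (γ * (s' - s)) * nN (sh x s)| ≤ η * n

def Model.BadP (M : Model) (γ L0 : ℝ) (T : Finset Dy) (P : Dy) (ω : Om) : Prop :=
  M.X γ 0 ω ((pr T P).1 :: P) < -L0 ∨ M.X γ 0 ω ((pr T P).2 :: P) < -L0 ∨ L0 < |ω (M.vp T P)|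

/-- leaf children just above the threshold with robustly closed children and sibling -/
def Fp (lam : ℝ) (y : Dy → ℝ) : ℝ :=
  lam⁻¹ * ∑ d : Fin 2 × Fin 2, indR (y [d] ∈ Ioc 0 lam) * vt (y (sib [d])) *
    ∏ c : Fin 2 × Fin 2, vt (y [c, d])

/-- the discretised approximation of the area measure on the quantum sphere side -/
def QD.Ik {γ : ℝ} (D : QD γ) (Z : D.Ω → ℝ → ℝ) (k : ℕ) (f : Cyl → ℝ) (ω : D.Ω) : ℝ :=
  ∫ w, f w * (((1 / 2 : ℝ) ^ k) ^ (γ ^ 2 / 2) * Real.exp (γ * (Z ω w.1 + D.L (w, k) ω))) ∂cylVol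

/-- rotational average of `nuP` -/
def radM (θ : Measure ℂ) (z : ℂ) (ρ : ℝ) (p : Cyl × ℕ) : Measure ℂ :=
  ((moll θ p).prod (circ 0 1)).map fun q => z + ρ * (Real.exp (-q.1.1) : ℝ) * q.2

def Model.lamV (M : Model) (θ : Measure ℂ) (p : Cyl × ℕ) : HH :=
  M.e (nuP θ 0 1 p) - M.e (radM θ 0 1 p)

def Model.radV (M : Model) (t : ℝ) : HH := M.eC 0 (Real.exp (-t)) - M.eC 0 1

/-- shifted lattice of mesh `2^(-l)` -/
def xl (l : ℕ) (i : ℤ × ℤ) : ℂ := (((1 / 2 : ℝ) ^ l : ℝ) : ℂ) * (zc i + (1 + Complex.I) / 2)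

/-- planar Riemann sum of a function on the cylinder -/
def Rie (l : ℕ) (F : Cyl → ℝ) : ℝ :=
  ∑' i : ℤ × ℤ, (1 / 4 : ℝ) ^ l / ‖xl l i‖ ^ 2 * F (toCyl (xl l i))

def Model.Rs (M : Model) (γ : ℝ) (θ : Measure ℂ) (k l : ℕ) (g : Cyl → ℝ) (ω : Om) : ℝ :=
  Rie l fun w => g w * (((1 / 2 : ℝ) ^ k) ^ (γ ^ 2 / 2) *
    Real.exp (γ * (ω (M.radV w.1) - QQ γ * w.1 + ω (M.lamV θ (w, k)))))

def QD.ZQ {γ : ℝ} (D : QD γ) (ω : D.Ω) (t : ℝ) : ℝ := twoS (D.β ω) t - QQ γ * t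

/-- oscillation over a unit time interval, read on rational times -/
def oscB (b : ℝ≥0 → ℝ) (s : ℝ≥0) : ℝ :=
  (⨆ q : ℚ, ind (0 ≤ q ∧ q ≤ 1) * ‖b (s + Real.toNNReal q) - b s‖ₑ).toReal

structure BM1 {Ω : Type} [MeasurableSpace Ω] (P : Measure Ω) (b : Ω → ℝ≥0 → ℝ) : Prop where
  bm : IsBrownianReal (fun t ω => b ω t) P
  meas : Measurable b
  cont : ∀ ω, Continuous (b ω)

/-- bounded Lipschitz test functions on `Fin n → ℝ` -/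
def BL {n : ℕ} (Λ : ℝ≥0) (G : (Fin n → ℝ) → ℝ) : Prop :=
  LipschitzWith Λ G ∧ ∀ s, |G s| ≤ 1

/-- weak convergence of finite measures on the cylinder -/
def WC (ms : ℕ → Measure Cyl) (m : Measure Cyl) : Prop :=
  ∀ f : Cyl →ᵇ ℝ, Tendsto (fun n => ∫ w, f w ∂ms n) atTop (𝓝 (∫ w, f w ∂m))

/-- upper and lower Lipschitz envelopes of a relation -/
def envUp (𝓢 : Set (ℝ × ℝ × (ℕ → ℝ))) (V : ℝ) (Λ : ℕ) (s : ℕ → ℝ) : ℝ :=
  sSup (insert 0 {r | ∃ t ∈ 𝓢, |t.2.1 - V| ≤ 1 / (Λ + 1) ∧ r = t.1 - Λ * dS t.2.2 s})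

def envLo (𝓢 : Set (ℝ × ℝ × (ℕ → ℝ))) (V : ℝ) (Λ : ℕ) (s : ℕ → ℝ) : ℝ :=
  sInf (insert 1 {r | ∃ t ∈ 𝓢, |t.2.1 - V| ≤ 1 / (Λ + 1) ∧ r = t.1 + Λ * dS t.2.2 s})

/-- empirical measure of the centres of the squares of `T` -/
def empT (T : Finset Dy) : Measure ℂ := (T.card : ℝ≥0∞)⁻¹ • ∑ A ∈ T, Measure.dirac (ctr A)

def subT (T : Finset Dy) (A : Dy) : Finset Dy :=
  (T.filter fun B => A <:+ B).image fun B => B.take (B.length - A.length)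

end

end Pool.Agent.Lib.APPS
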