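import Pool.Agent.Lib.APPS.Blue2

/-!
Further internal definitions (macroscopic limit, final assembly).
-/

namespace Pool.Agent.Lib.APPS

open MeasureTheory ProbabilityTheory Filter Topology Set Metric
open scoped NNReal ENNReal CompactlySupported BoundedContinuousFunction RealInnerProductSpace
  Classical

noncomputable section

/-- pull back of a function on the cylinder to the plane, zero at the origin -/
def pb (f : Cyl → ℝ) (x : ℂ) : ℝ := if x = 0 then 0 else f (toCyl x)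

def relR (a : ℝ) (Φ : Measure Cyl → ℝ) (tf : ℕ → C_c(Cyl, ℝ)) : Set (ℝ × ℝ × (ℕ → ℝ)) :=
  {t | ∃ m : Measure Cyl, IsFiniteMeasure m ∧ t = (rotAvg a Φ m, m.real univ, obsn tf m)}

def relE (a : ℝ) (Φ : Measure Cyl → ℝ) (tf : ℕ → C_c(Cyl, ℝ)) : Set (ℝ × ℝ × (ℕ → ℝ)) :=
  {t | ∃ (ν : Measure ℂ) (c : ℂ) (ρ : ℝ), IsFiniteMeasure ν ∧ 0 < ρ ∧
    t = (sampleAvg a Φ ν, ν.real univ, obsP tf ((ν univ)⁻¹ • ν) c ρ)}

def gapE (𝓢 : Set (ℝ × ℝ × (ℕ → ℝ))) (V : ℝ) (Λ : ℕ) (s : ℕ → ℝ) : ℝ :=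
  max 0 (envUp 𝓢 V Λ s - envLo 𝓢 V Λ s)

/-- the measure `ν` is close to `cV` times the counting measure of the tree `T` -/
def Close (cV η : ℝ) (T : Finset Dy) (ν : Measure ℂ) : Prop :=
  IsFiniteMeasure ν ∧ ν ≪ volume ∧ ν (box [])ᶜ ≤ ENNReal.ofReal (η * T.card) ∧
    ∀ R, |ν.real (box R) - cV * (T.filter fun A => R <:+ A).card| ≤ η * T.card

/-- normalisation of the volume measure -/
def nvol (N : ℕ) (ν : Measure ℂ) : Measure ℂ :=
  ENNReal.ofReal (Real.sqrt ((3 * N + 1) / ν.real univ)) • ((ν univ)⁻¹ • ν)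

/-- measures on the cylinder with subexponential growth, no atoms, charging open sets -/
def NiceM (m : Measure Cyl) : Prop :=
  (∀ w, m {w} = 0) ∧ (∀ U : Set Cyl, IsOpen U → U.Nonempty → m U ≠ 0) ∧
    ∀ c > 0, ∫⁻ w, eE (-c * |w.1|) ∂m ≠ ∞

def cov2 (s t : ℝ) : ℝ := (|s| + |t| - |s - t|) / 2

/-- configuration seen from the circle around `V` with prescribed circle value `y` -/
def Model.locX (M : Model) (γ : ℝ) (V : Dy) (y : ℝ) (ω : Om) : Dy → ℝ := fun A =>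
  ω (M.eS A - M.eC (ctr V) (4 * side V)) + y - QQ γ * Real.log (4 * side V) -
    QQ γ * A.length * l2

def IV (tf : ℕ → C_c(Cyl, ℝ)) (G : (ℕ → ℝ) → ℝ) (χ : ℝ → ℝ) (k0 K : ℕ) (n : ℝ) (V : Dy)
    (x : Dy → ℝ) : ℝ :=
  ∑ R ∈ tr (sub x V), Th G χ k0 (locS x V (R ++ V) K (f0 K) / n)
    fun k => locS x V (R ++ V) K (tf k) / n

/-- the first `k0 + 1` test functions are supported in the window of half-width `K log 2` -/
def SuppK (tf : ℕ → C_c(Cyl, ℝ)) (k0 K : ℕ) : Prop :=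
  2 ≤ K ∧ ∀ k ≤ k0, ∀ w, tf k w ≠ 0 → |w.1| ≤ K * l2

def one' : (ℕ → ℝ) → ℝ := fun _ => 1
def oneT : Finset Dy → ℝ := fun _ => 1

end

end Pool.Agent.Lib.APPS
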