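import Mathlib

/-!
Definitions used in the statement of the convergence of square-subdivision regularized
LQG spheres to the quantum sphere.
-/

namespace Pool.Agent.Lib.APPS

open MeasureTheory ProbabilityTheory Filter Topology Set
open scoped NNReal ENNReal CompactlySupported BoundedContinuousFunction

noncomputable section

/-- Centred Gaussian process with covariance `c`. -/
structure CG {T Ω : Type} [MeasurableSpace Ω] (X : T → Ω → ℝ) (P : Measure Ω)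
    (c : T → T → ℝ) : Prop where
  gauss : IsGaussianProcess X P
  meas : ∀ t, Measurable (X t)
  mean : ∀ t, ∫ ω, X t ω ∂P = 0
  cov : ∀ s t, covariance (X s) (X t) P = c s t

/-- Dyadic subsquares of the unit square, as words of binary digit pairs (last digit first). -/
abbrev Dy := List (Fin 2 × Fin 2)

def side (S : Dy) : ℝ := (1 / 2 : ℝ) ^ S.length

def corner : Dy → ℂ
  | [] => 0
  | d :: S => corner S + (side (d :: S) : ℂ) * (((d.1 : ℕ) : ℂ) + ((d.2 : ℕ) : ℂ) * Complex.I)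

def box (S : Dy) : Set ℂ :=
  {z | z.re ∈ Icc (corner S).re ((corner S).re + side S) ∧
    z.im ∈ Icc (corner S).im ((corner S).im + side S)}

/-- Smooth metric `exp (2 σ) |dz|^2` on the Riemann sphere (`τ` is the conformal factor in the
chart `w = 1 / z`), flat near the unit square. -/
structure Met where
  σ : ℂ → ℝ
  τ : ℂ → ℝ
  hσ : ContDiff ℝ ((⊤ : ℕ∞) : WithTop ℕ∞) σ
  hτ : ContDiff ℝ ((⊤ : ℕ∞) : WithTop ℕ∞) τ
  inf : ∀ w, w ≠ 0 → τ w = σ w⁻¹ - 2 * Real.log ‖w‖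
  flat : ∀ᶠ z in 𝓝ˢ (box []), σ z = 0

/-- Density of `K₀ dVol`, normalised to total mass one. -/
def Met.kap (g : Met) (z : ℂ) : ℝ :=
  -Laplacian.laplacian g.σ z / ∫ w, -Laplacian.laplacian g.σ w

def Met.dens (g : Met) (S : Dy) (z : ℂ) : ℝ :=
  (box S).indicator (fun _ => 1 / side S ^ 2) z - g.kap z

def Met.pot (g : Met) (S : Dy) (x : ℂ) : ℝ := -∫ y, Real.log ‖x - y‖ * g.dens S y

def Met.cov (g : Met) (S S' : Dy) : ℝ := ∫ x, g.pot S x * g.dens S' x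

def Met.U (g : Met) (S : Dy) (x : ℂ) : ℝ := g.pot S x - ∫ w, g.pot S w * g.kap w

def part (Q : ℝ) (h : Dy → ℝ) : Set Dy :=
  {S | Real.exp (h S / Q) * side S ≤ 1 ∧
    ∀ S', box S ⊂ box S' → 1 < Real.exp (h S' / Q) * side S'}

open scoped Classical in
def partF (Q : ℝ) (h : Dy → ℝ) : Finset Dy :=
  if hf : (part Q h).Finite then hf.toFinset else ∅

/-- Conditional expectation of the field at `z` given its averages `h S`, `S ∈ T`. -/
def Met.krig (g : Met) (T : Finset Dy) (h : Dy → ℝ) (z : ℂ) : ℝ :=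
  ∑ S : T, ∑ S' : T, g.U S z * (Matrix.of fun A B : T => g.cov A B)⁻¹ S S' * h S'

def Met.vol (g : Met) (Q : ℝ) (h : Dy → ℝ) (C : ℝ) : Measure ℂ :=
  volume.withDensity fun z =>
    ENNReal.ofReal (Real.exp (2 * (g.krig (partF Q h) h z / Q + C) + 2 * g.σ z))

def Met.volg (g : Met) (Q : ℝ) (h : Dy → ℝ) : Measure ℂ :=
  g.vol Q h (1 / 4 * Real.log (partF Q h).card - 3 / 4 * Real.log (g.vol Q h 0 univ).toReal)

abbrev Cyl := ℝ × AddCircle (2 * Real.pi)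

/-- The conformal map `x ↦ -log x`. -/
def toCyl (x : ℂ) : Cyl := (-Real.log ‖x‖, ((-Complex.arg x : ℝ) : AddCircle (2 * Real.pi)))

/-- Its inverse `w ↦ exp (-w)`. -/
def frC (w : Cyl) : ℂ := (Real.exp (-w.1) : ℂ) * ((AddCircle.toCircle w.2 : Circle) : ℂ)⁻¹

def shiftAt (a : ℝ) (m : Measure Cyl) : ℝ := sSup {t | ENNReal.ofReal a ≤ m (Ioi t ×ˢ univ)}

def rotAvg (a : ℝ) (Φ : Measure Cyl → ℝ) (m : Measure Cyl) : ℝ :=
  (2 * Real.pi)⁻¹ * ∫ s in (0 : ℝ)..(2 * Real.pi),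
    Φ (m.map fun p => (p.1 - shiftAt a m, p.2 + (s : AddCircle (2 * Real.pi))))

def sampleAvg (a : ℝ) (Φ : Measure Cyl → ℝ) (ν : Measure ℂ) : ℝ :=
  (ν univ).toReal⁻¹ * ∫ z, rotAvg a Φ (ν.map fun w => toCyl (w - z)) ∂ν

def cylVol : Measure Cyl :=
  (volume : Measure ℝ).prod ((volume.restrict (Ioc 0 (2 * Real.pi))).map
    fun s : ℝ => (s : AddCircle (2 * Real.pi)))

def moll (θ : Measure ℂ) (p : Cyl × ℕ) : Measure Cyl :=
  θ.map fun u => (p.1.1 + (1 / 2 : ℝ) ^ p.2 * u.re,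
    p.1.2 + (((1 / 2 : ℝ) ^ p.2 * u.im : ℝ) : AddCircle (2 * Real.pi)))

def latCov (θ : Measure ℂ) (p p' : Cyl × ℕ) : ℝ :=
  ∫ w, ∫ w', (-Real.log ‖frC w - frC w'‖ - min w.1 w'.1) ∂moll θ p' ∂moll θ p

def lastZero (a : ℝ) (b : ℝ≥0 → ℝ) : ℝ≥0 := sSup {s | b s - a * s = 0}

def condNeg (a : ℝ) (b : ℝ≥0 → ℝ) (t : ℝ≥0) : ℝ :=
  b (lastZero a b + t) - a * (lastZero a b + t : ℝ≥0)

def radial (a : ℝ) (b₁ b₂ : ℝ≥0 → ℝ) (t : ℝ) : ℝ :=
  if 0 ≤ t then condNeg a b₁ t.toNNReal else condNeg a b₂ (-t).toNNReal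

def QQ (γ : ℝ) : ℝ := γ / 2 + 2 / γ

/-- A mollifier: atomless probability measure on the closed unit disc with finite logarithmic
energy (uniform measure on the unit circle or on the unit disc, for instance). -/
structure IsMoll (θ : Measure ℂ) : Prop where
  prob : IsProbabilityMeasure θ
  noAtoms : ∀ x, θ {x} = 0
  supp : θ (Metric.closedBall 0 1)ᶜ = 0
  energy : Integrable (fun p : ℂ × ℂ => Real.log ‖p.1 - p.2‖) (θ.prod θ)

/-- The field of the two-pointed quantum sphere on the cylinder and its LQG area measure. -/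
structure QS (γ : ℝ) (θ : Measure ℂ) {Ω : Type} [MeasurableSpace Ω] (P : Measure Ω)
    (B₁ B₂ : ℝ≥0 → Ω → ℝ) (L : Cyl × ℕ → Ω → ℝ) (μ : Ω → Measure Cyl) : Prop where
  bm₁ : IsBrownianReal B₁ P
  bm₂ : IsBrownianReal B₂ P
  meas₁ : ∀ t, Measurable (B₁ t)
  meas₂ : ∀ t, Measurable (B₂ t)
  cont₁ : ∀ ω, Continuous fun t => B₁ t ω
  cont₂ : ∀ ω, Continuous fun t => B₂ t ω
  lat : CG L P (latCov θ)
  joint : ∀ k, Measurable fun q : Cyl × Ω => L (q.1, k) q.2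
  ind₁ : IndepFun (fun ω t => B₁ t ω) (fun ω t => B₂ t ω) P
  ind₂ : IndepFun (fun ω => (fun t => B₁ t ω, fun t => B₂ t ω)) (fun ω p => L p ω) P
  measμ : Measurable μ
  fin : ∀ ω, IsFiniteMeasureOnCompacts (μ ω)
  lim : ∀ f : C_c(Cyl, ℝ), TendstoInMeasure P
    (fun (k : ℕ) ω => ∫ w, f w * (((1 / 2 : ℝ) ^ k) ^ (γ ^ 2 / 2) * Real.exp (γ *
      ((∫ v, radial (QQ γ - γ) (fun t => B₁ t ω) (fun t => B₂ t ω) v.1 ∂moll θ (w, k)) +
        L (w, k) ω))) ∂cylVol) atTop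
    (fun ω => ∫ w, f w ∂μ ω)

/-- Expectation of `Φ` for the quantum sphere conditioned to have area `V`. -/
def qsE (γ V a : ℝ) {Ω : Type} [MeasurableSpace Ω] (P : Measure Ω) (μ : Ω → Measure Cyl)
    (Φ : Measure Cyl → ℝ) : ℝ :=
  (∫ ω, (μ ω univ).toReal ^ (4 / γ ^ 2 - 1) *
      rotAvg a Φ (ENNReal.ofReal (V / (μ ω univ).toReal) • μ ω) ∂P) /
    ∫ ω, (μ ω univ).toReal ^ (4 / γ ^ 2 - 1) ∂P

/-- Vague convergence in law of the embedded volume measure (right half-cylinder of volume `a`),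
conditioned on the number of squares, to the quantum sphere of area `V`. -/
def Conv (γ : ℝ) (g : Met) (V a : ℝ) : Prop :=
  ∀ (Ω : Type) [MeasurableSpace Ω] (P : Measure Ω) (h : Dy → Ω → ℝ), CG h P g.cov →
  ∀ θ : Measure ℂ, IsMoll θ →
  ∀ (Ω' : Type) [MeasurableSpace Ω'] (P' : Measure Ω') (B₁ B₂ : ℝ≥0 → Ω' → ℝ)
    (L : Cyl × ℕ → Ω' → ℝ) (μ : Ω' → Measure Cyl), QS γ θ P' B₁ B₂ L μ →
  ∀ (k : ℕ) (f : Fin k → C_c(Cyl, ℝ)) (G : (Fin k → ℝ) →ᵇ ℝ),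
    Tendsto (fun m : ℕ => ∫ ω, sampleAvg a (fun ν => G fun i => ∫ w, f i w ∂ν)
        (g.volg (QQ γ) fun S => h S ω)
        ∂(cond P {ω | (part (QQ γ) fun S => h S ω).ncard = 3 * m + 1})) atTop
      (𝓝 (qsE γ V a P' μ fun ν => G fun i => ∫ w, f i w ∂ν))

end

end Pool.Agent.Lib.APPS

theorem Pool.Agent.Lib.APPS.Defs.rlz0 : True := by
  have := @Pool.Agent.Lib.APPS.corner.eq_def
  trivial
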