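import Pool.Agent.Lib.APPS.Defs

/-!
The minimal-energy problem that defines the regularized field, and the equation that fixes the
horizontal translation.
-/

namespace Pool.Agent.Lib.APPS

open MeasureTheory Set

noncomputable section

/-- Bounded Lipschitz functions of finite Dirichlet energy (a class that contains the smooth
functions on the sphere). -/
def FinE (f : ℂ → ℝ) : Prop :=
  (∃ K, LipschitzWith K f) ∧ (∃ B, ∀ z, |f z| ≤ B) ∧ MemLp (gradient f) 2 (volume : Measure ℂ)

def dirE (f : ℂ → ℝ) : ℝ := ∫ z, ‖gradient f z‖ ^ 2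

/-- `f` has minimal Dirichlet energy among the functions with pairings `h S`, `S ∈ T`, and is
normalised against the curvature. -/
def Met.IsMin (g : Met) (T : Finset Dy) (h : Dy → ℝ) (f : ℂ → ℝ) : Prop :=
  FinE f ∧ (∀ S ∈ T, ∫ z, f z * g.dens S z = h S) ∧ ∫ z, f z * g.kap z = 0 ∧
    ∀ f', FinE f' → (∀ S ∈ T, ∫ z, f' z * g.dens S z = h S) → dirE f ≤ dirE f'

/-- After the translation by `shiftAt a m` the right half-cylinder has mass exactly `a`. -/
def Exact (m : Measure Cyl) : Prop :=
  ∀ a : ℝ, 0 < a → ENNReal.ofReal a < m univ →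
    (m.map fun p => (p.1 - shiftAt a m, p.2)) (Ioi 0 ×ˢ univ) = ENNReal.ofReal a

end

end Pool.Agent.Lib.APPS
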