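import Pool.Agent.Lib.APPS.All

/-!
Final assembly of the convergence theorem.
-/

namespace Pool.Agent.Lib.APPS

open MeasureTheory Set

theorem main_conv (γ : ℝ) (hγ : γ ∈ Ioo (0 : ℝ) 2) (g : Met) :
    ∃ V : ℝ, 1 / 2 < V ∧ ∀ a ∈ Ioo 0 V, Conv γ g V a := by
  obtain ⟨M, hM⟩ := st_MG3 g
  by_cases hD : Nonempty (QD γ)
  · obtain ⟨D⟩ := hD
    obtain ⟨cV, hc, hB, hV⟩ := st_VOL γ hγ D g M hM
    have h1 : cV ≤ 11.7 := hB _ (st_NUM γ hγ)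
    refine ⟨Real.sqrt (3 / cV), ?_, st_FIN γ hγ g M hM cV hc hV⟩
    refine Real.lt_sqrt_of_sq_lt ?_
    rw [lt_div_iff₀ hc]
    nlinarith
  · refine ⟨1, by norm_num, fun a _ Ω _ P h _ θ hθ Ω' _ P' B₁ B₂ L μ hq => ?_⟩
    exact absurd ⟨⟨θ, hθ, Ω', P', B₁, B₂, L, μ, hq⟩⟩ hD

end Pool.Agent.Lib.APPS
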