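import Pool.Agent.Lib.APPS.Main
import Pool.Agent.Lib.APPS.B_EX1
import Pool.Agent.Lib.APPS.B_EX2
import Pool.Agent.Lib.APPS.B_EX3
import Pool.Agent.Lib.APPS.B_EX4
import Pool.Agent.Lib.APPS.B_EX5
import Pool.Agent.Lib.APPS.B_EX5a
import Pool.Agent.Lib.APPS.B_EX5b
import Pool.Agent.Lib.APPS.B_EX6
import Pool.Agent.Lib.APPS.B_EXM
import Pool.Agent.Lib.APPS.B_EXQ

/-!
Existence of the data, and the main theorem together with it.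
-/

namespace Pool.Agent.Lib.APPS

open MeasureTheory Set
open scoped NNReal ENNReal

theorem st_EX1 : St_EX1 :=
  blk_EX1 st_G1 st_G1D st_G3
theorem st_EX2 : St_EX2 :=
  blk_EX2 st_G1 st_G1D
theorem st_EX3 : St_EX3 :=
  blk_EX3 st_G1 st_G3 st_LAT st_EX1 st_EX2
theorem st_EX4 : St_EX4 :=
  blk_EX4 st_G1 st_G1D st_G3 st_G4 st_CYL st_BM2 st_LAT st_RIEM st_BRb
theorem st_EX5a : St_EX5a :=
  blk_EX5a st_CYL
theorem st_EX5b : St_EX5b :=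
  blk_EX5b st_CYL
theorem st_EX5 : St_EX5 :=
  blk_EX5 st_CYL st_EX5a st_EX5b
theorem st_EX6 : St_EX6 :=
  blk_EX6 st_CYL st_BM2
theorem st_EXQ : St_EXQ :=
  blk_EXQ st_G1 st_M0 st_EX3 st_EX4 st_EX5 st_EX6
theorem st_EXM : St_EXM :=
  blk_EXM st_G3 st_FE st_MOD st_MG3

theorem qs_exists (γ : ℝ) (hγ : γ ∈ Ioo (0 : ℝ) 2) (θ : Measure ℂ) (hθ : IsMoll θ) :
    ∃ (Ω : Type) (_ : MeasurableSpace Ω) (P : Measure Ω) (B₁ B₂ : ℝ≥0 → Ω → ℝ)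
      (L : Cyl × ℕ → Ω → ℝ) (μ : Ω → Measure Cyl), QS γ θ P B₁ B₂ L μ ∧
      (∀ᵐ ω ∂P, μ ω univ ≠ ∞) ∧ 0 < ∫ ω, (μ ω univ).toReal ^ (4 / γ ^ 2 - 1) ∂P := by
  obtain ⟨Ω, mΩ, P, B₁, B₂, L, μ, hq⟩ := st_EXQ γ hγ θ hθ
  let D : QD γ := ⟨θ, hθ, Ω, P, B₁, B₂, L, μ, hq⟩
  obtain ⟨tf, htf⟩ := st_TF
  have hg : ∀ᵐ ω ∂P, GoodM (μ ω) := ((st_MU0.2 γ hγ D).1).mono fun ω h => h.2.1
  have hP : IsProbabilityMeasure P := (st_BM2.1 γ D).2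
  obtain ⟨κ, -, hI, -⟩ := st_WIL γ hγ D tf htf
  refine ⟨Ω, mΩ, P, B₁, B₂, L, μ, hq, hg.mono fun ω h => h.1, ?_⟩
  have hI' : Integrable (fun ω => (μ ω univ).toReal ^ (4 / γ ^ 2 - 1)) P := hI
  have hpos : ∀ᵐ ω ∂P, 0 < (μ ω univ).toReal ^ (4 / γ ^ 2 - 1) := hg.mono fun ω h =>
    Real.rpow_pos_of_pos (ENNReal.toReal_pos (h.2.2 univ isOpen_univ univ_nonempty) h.1) _
  rw [integral_pos_iff_support_of_nonneg_ae (hpos.mono fun ω h => h.le) hI']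
  have : (Function.support fun ω => (μ ω univ).toReal ^ (4 / γ ^ 2 - 1)) =ᵐ[P] univ :=
    ae_eq_univ.2 (by
      refine measure_mono_null (fun ω h => ?_) (ae_iff.1 hpos)
      intro h'
      exact h h'.ne')
  rw [measure_congr this]
  simp

end Pool.Agent.Lib.APPS
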