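import Pool.Agent.Lib.APPS.Main2
import Pool.Agent.Lib.APPS.B_MIN
import Pool.Agent.Lib.APPS.B_CIRC

/-!
The explicit formulas of the statement solve the problems that define the objects.
-/

namespace Pool.Agent.Lib.APPS

open MeasureTheory Set
open scoped NNReal ENNReal

theorem lit_min (g : Met) (Q : ℝ) (h : Dy → ℝ) :
    (∀ f, g.IsMin (partF Q h) h f ↔ f = g.krig (partF Q h) h) ∧
      ∀ z, Exact ((g.volg Q h).map fun w => toCyl (w - z)) := by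
  have h1 := MIN.main st_P1 st_P2 st_FE st_EXP1 st_EXP2 st_GEO1 st_MG1 st_MG2 st_MG3 st_MOD st_BMP
    st_POIN g (partF Q h) (fun S hS A hA => MIN.anti st_GEO1 Q h hS hA) h
  refine ⟨h1, fun z => ?_⟩
  have : IsFiniteMeasure (g.volg Q h) := CIRC.vol_fin st_MG1 g ((h1 _).2 rfl).1.2.1 Q _
  exact CIRC.exact_map st_CYL (g.volg Q h) (withDensity_absolutelyContinuous _ _) z

theorem lit_qs (γ : ℝ) (hγ : γ ∈ Ioo (0 : ℝ) 2) (θ : Measure ℂ) (hθ : IsMoll θ) (Ω : Type)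
    [MeasurableSpace Ω] (P : Measure Ω) (B₁ B₂ : ℝ≥0 → Ω → ℝ) (L : Cyl × ℕ → Ω → ℝ)
    (μ : Ω → Measure Cyl) (hq : QS γ θ P B₁ B₂ L μ) : ∀ᵐ ω ∂P, ∀ V : ℝ,
      (ENNReal.ofReal (V / (μ ω univ).toReal) • μ ω) univ = ENNReal.ofReal V ∧
        Exact (ENNReal.ofReal (V / (μ ω univ).toReal) • μ ω) := by
  let D : QD γ := ⟨θ, hθ, Ω, P, B₁, B₂, L, μ, hq⟩
  have hg : ∀ᵐ ω ∂P, GoodM (μ ω) := ((st_MU0.2 γ hγ D).1).mono fun ω h => h.2.1
  filter_upwards [hg, CIRC.no_circ st_G1D st_G3 st_FE st_EXP1 st_CYL st_LAT st_M0 st_BM2 st_BR0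
    st_NU hγ D] with ω h1 h2 V
  have h0 := h1.2.2 univ isOpen_univ univ_nonempty
  have e : (ENNReal.ofReal (V / (μ ω univ).toReal) • μ ω) univ = ENNReal.ofReal V := by
    rw [Measure.smul_apply, smul_eq_mul, ENNReal.ofReal_div_of_pos (ENNReal.toReal_pos h0 h1.1),
      ENNReal.ofReal_toReal h1.1, ENNReal.div_mul_cancel h0 h1.1]
  have : IsFiniteMeasure (ENNReal.ofReal (V / (μ ω univ).toReal) • μ ω) :=
    ⟨e ▸ ENNReal.ofReal_lt_top⟩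
  refine ⟨e, CIRC.exact_of _ fun t => ?_⟩
  have h3 : μ ω ({t} ×ˢ univ) = 0 := by
    have h4 : wgt γ (radP (aa γ) (D.β ω)) (D.nu ω) = μ ω := ((st_BR0 γ hγ D).1 ω).2
    rw [← h4]
    exact withDensity_absolutelyContinuous _ _ (h2 t)
  rw [Measure.smul_apply, h3, smul_zero]

end Pool.Agent.Lib.APPS
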